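import Mathlib

set_option autoImplicit false

/-!
Common definitions for the inverse 3x+1 tree project.

A *letter* is an integer `i ≥ 1`. Reading the letter `i` at the integer `x` leads to the integer `y`
with `2 ^ i * x = 3 * y + 1` (so `y` is odd and `T^[i] y = x` for the 3x+1 map `T`).
-/

namespace Pool.Agent.Collatz3

/-- `Up a w b`: reading the letters of `w` from left to right leads from `a` up to `b`. -/
def Up : ℤ → List ℕ → ℤ → Prop
  | a, [], b => a = b
  | a, i :: w, b => ∃ x : ℤ, 2 ^ i * a = 3 * x + 1 ∧ Up x w b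

/-- The constant of a word: `Up a w b → 2 ^ w.sum * a = 3 ^ w.length * b + cw w`. -/
def cw : List ℕ → ℕ
  | [] => 0
  | _ :: w => 3 * cw w + 2 ^ w.sum

/-- The size of a word, submultiplicative under concatenation; `|b| ≤ size w * |a| / 3 ^ length`. -/
def size (w : List ℕ) : ℕ := 2 ^ w.sum + cw w

/-- `w` can be read at `a`, and its end point is not divisible by 3. -/
def Ok (a : ℤ) (w : List ℕ) : Prop := ∃ b : ℤ, Up a w b ∧ ¬ (3 : ℤ) ∣ b

/-- The words with `n` letters of size at most `B` that can be read at `a` (end point prime to 3). -/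
def paths (a : ℤ) (n : ℕ) (B : ℝ) : Set (List ℕ) :=
  {w | w.length = n ∧ (∀ i ∈ w, 1 ≤ i) ∧ (size w : ℝ) ≤ B ∧ Ok a w}

/-- The number of such words. -/
noncomputable def cnt (a : ℤ) (n : ℕ) (B : ℝ) : ℕ := (paths a n B).ncard

/-- Typical growth: for most residues `a` modulo `3 ^ (n + 1)` there are at least
`exp ((γ - δ) n)` words with `n` letters and size at most `exp ((s + δ) n)`. -/
def Typical (s γ : ℝ) : Prop :=
  ∀ δ : ℝ, 0 < δ → ∀ η : ℝ, 0 < η → ∀ N₀ : ℕ, ∃ n : ℕ, N₀ ≤ n ∧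
    ({a : ℕ | a < 3 ^ (n + 1) ∧ ¬ 3 ∣ a ∧
        (cnt (a : ℤ) n (Real.exp ((s + δ) * n)) : ℝ) < Real.exp ((γ - δ) * n)}.ncard : ℝ)
      ≤ η * 3 ^ (n + 1)

/-- Uniform growth: the same for all large `n` and every integer `a` prime to 3. -/
def UniformGrowth (s γ : ℝ) : Prop :=
  ∀ δ : ℝ, 0 < δ → ∃ N₀ : ℕ, ∀ n : ℕ, N₀ ≤ n → ∀ a : ℤ, ¬ (3 : ℤ) ∣ a →
    Real.exp ((γ - δ) * n) ≤ (cnt a n (Real.exp ((s + δ) * n)) : ℝ)

end Pool.Agent.Collatz3
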