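import Mathlib
import Pool.Agent.Collatz3.Defs

set_option autoImplicit false

/-!
Definitions for the fine-scale mixing part (modules A and B).
-/

namespace Pool.Agent.Collatz3.Mix

open Finset

/-- Reduction modulo `3 ^ n`. -/
noncomputable def red (n : ℕ) : ZMod (3 ^ (n + 1)) →+* ZMod (3 ^ n) :=
  ZMod.castHom (pow_dvd_pow 3 n.le_succ) (ZMod (3 ^ n))

/-- Fibre sums. -/
noncomputable def fs (n : ℕ) (ρ : ZMod (3 ^ (n + 1)) → ℝ) (x : ZMod (3 ^ n)) : ℝ :=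
  ∑ y ∈ univ.filter (fun y => red n y = x), ρ y

/-- The functional `V_n`: a weighted sum over the fibres of
`(3 ∑ r_u ^ 2 - (∑ r_u) ^ 2) / (2 ∑ r_u)`. -/
noncomputable def Vf (n : ℕ) (ρ : ZMod (3 ^ (n + 1)) → ℝ) : ℝ :=
  ∑ x, (3 * fs n (fun y => ρ y ^ 2) x - fs n ρ x ^ 2) / (2 * fs n ρ x)

/-- Words with `k` letters in `1, ..., I`. -/
def words (I : ℕ) : ℕ → Finset (List ℕ)
  | 0 => {[]}
  | k + 1 => (Icc 1 I ×ˢ words I k).image fun p => p.1 :: p.2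

/-- Sum of the weights `z ^ i`, `1 ≤ i ≤ I`. -/
noncomputable def Zs (z : ℝ) (I : ℕ) : ℝ := ∑ i ∈ Icc 1 I, z ^ i

/-- Weight of a word. -/
noncomputable def pw (z : ℝ) (I : ℕ) (w : List ℕ) : ℝ := z ^ w.sum / Zs z I ^ w.length

/-- The residue `X_w = c_w / 2 ^ {S_w}` modulo `3 ^ N`. -/
noncomputable def Xw (N : ℕ) (w : List ℕ) : ZMod (3 ^ N) := (cw w : ZMod (3 ^ N)) * (2⁻¹) ^ w.sum

/-- The law of `X_w` modulo `3 ^ N`, `w` with `k` letters. -/
noncomputable def law (z : ℝ) (I k N : ℕ) (y : ZMod (3 ^ N)) : ℝ :=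
  ∑ w ∈ (words I k).filter (fun w => Xw N w = y), pw z I w

/-- `V(n)`. -/
noncomputable def Vn (z : ℝ) (I n : ℕ) : ℝ := Vf n (law z I (n + 1) (n + 1))

/-- The law of `c_w` modulo `3 ^ N` on the event `S_w = s`, `w` with `k` letters. -/
noncomputable def claw (z : ℝ) (I k s N : ℕ) (y : ZMod (3 ^ N)) : ℝ :=
  ∑ w ∈ (words I k).filter (fun w => w.sum = s ∧ (cw w : ZMod (3 ^ N)) = y), pw z I w

/-- `V'(k, n)`; all sums `S_w` of words with `k` letters are at most `I * k`. -/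
noncomputable def Vp (z : ℝ) (I k n : ℕ) : ℝ :=
  ∑ s ∈ range (I * k + 1), Vf n (claw z I k s (n + 1))

end Pool.Agent.Collatz3.Mix
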