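import Mathlib
import Pool.Agent.Collatz3.Defs
import Pool.Agent.Collatz3.VDefs

set_option autoImplicit false

/-!
Definitions for the positive density theorem (predecessor sets of the 3x+1 map).
-/

namespace Pool.Agent.Collatz3.PD

open Finset
open Pool.Agent.Collatz3.Mix (words)

/-- The word `w` can be read at `x` (no condition on the end point). -/
def rd (w : List ℕ) (x : ℤ) : Prop := (3 : ℤ) ^ w.length ∣ 2 ^ w.sum * x - cw w

instance (w : List ℕ) (x : ℤ) : Decidable (rd w x) := by unfold rd; infer_instance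

/-- The end point. -/
def en (w : List ℕ) (x : ℤ) : ℤ := (2 ^ w.sum * x - cw w) / 3 ^ w.length

/-- The mass (each word `w` has weight `2 ^ (-S_w)`) of the words with `k` letters in `1, ..., I`
and sum `s` such that `X_w = x` modulo `3 ^ n`. -/
noncomputable def Fw (I k s n : ℕ) (x : ℤ) : ℝ :=
  ∑ _w ∈ (words I k).filter (fun w => w.sum = s ∧ (3 : ℤ) ^ n ∣ 2 ^ s * x - cw w), (1 / 2 : ℝ) ^ s

/-- The counting function of the tree above `x` with weights `3 ^ k 2 ^ (-S)`. -/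
noncomputable def U (I k : ℕ) (x : ℤ) : ℝ :=
  ∑ w ∈ (words I k).filter (fun w => rd w x), 3 ^ k * (1 / 2 : ℝ) ^ w.sum

/-- The mixing statement (M). -/
def MixRate : Prop :=
  ∀ A : ℕ, ∃ (C : ℝ) (I₀ : ℕ), ∀ I m k : ℕ, I₀ ≤ I → 1 ≤ m → m ≤ k →
    ∑ s ∈ range (I * k + 1), ∑ x ∈ range (3 ^ k),
      |Fw I k s k (x : ℤ) - Fw I k s m (x : ℤ) / 3 ^ (k - m)| ≤
        C * (I : ℝ) ^ (2 * A + 2) / (m : ℝ) ^ A

end Pool.Agent.Collatz3.PD
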