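import Mathlib

set_option autoImplicit false

/-!
The sharp quadratic lower bound for the Kullback-Leibler divergence of a probability vector on three
points from the uniform one, with constant `(4/3) log 2`.
-/

namespace Pool.Agent.Collatz3.Mix

open Real Set

/-- `log (1+v) - log (1-v)` -/
noncomputable def lq (v : ℝ) : ℝ := log (1 + v) - log (1 - v)

lemma hasDerivAt_lq {v : ℝ} (h0 : -1 < v) (h1 : v < 1) :
    HasDerivAt lq (1 / (1 + v) + 1 / (1 - v)) v := by
  have a : HasDerivAt (fun v : ℝ => log (1 + v)) (1 / (1 + v)) v := by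
    have := ((hasDerivAt_id v).const_add 1).log (by simp only [id]; linarith)
    simpa using this
  have b : HasDerivAt (fun v : ℝ => log (1 - v)) (-1 / (1 - v)) v := by
    have := ((hasDerivAt_id v).const_sub 1).log (by simp only [id]; linarith)
    simpa using this
  exact (a.sub b).congr_deriv (by ring)

lemma convexOn_lq : ConvexOn ℝ (Ico 0 1) lq := by
  apply MonotoneOn.convexOn_of_deriv (convex_Ico 0 1)
  · intro v hv
    exact (hasDerivAt_lq (by linarith [hv.1]) hv.2).continuousAt.continuousWithinAt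
  · intro v hv
    rw [interior_Ico] at hv
    exact (hasDerivAt_lq (by linarith [hv.1]) hv.2).differentiableAt.differentiableWithinAt
  · intro v hv w hw hvw
    rw [interior_Ico] at hv hw
    rw [(hasDerivAt_lq (by linarith [hv.1]) hv.2).deriv,
      (hasDerivAt_lq (by linarith [hw.1]) hw.2).deriv]
    have e : ∀ t : ℝ, 0 < t → t < 1 → 1 / (1 + t) + 1 / (1 - t) = 2 / (1 - t ^ 2) := by
      intro t h0 h1
      have : (1 + t) ≠ 0 := by linarith
      have : (1 - t) ≠ 0 := by linarith
      have : 1 - t ^ 2 ≠ 0 := by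
        have : t ^ 2 < 1 := by nlinarith
        linarith
      field_simp
      ring
    rw [e v hv.1 hv.2, e w hw.1 hw.2]
    have : w ^ 2 < 1 := by nlinarith [hw.1, hw.2]
    have : v ^ 2 ≤ w ^ 2 := by nlinarith [hv.1, hw.1]
    apply div_le_div_of_nonneg_left (by norm_num) (by linarith) (by linarith)

lemma lq_zero : lq 0 = 0 := by simp [lq]

lemma lq_third : lq (1 / 3) = log 2 := by
  rw [lq, ← log_div (by norm_num) (by norm_num)]
  norm_num

lemma lq_le {v : ℝ} (h0 : 0 ≤ v) (h1 : v ≤ 1 / 3) : lq v ≤ 3 * log 2 * v := by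
  have := convexOn_lq.2 (show (0 : ℝ) ∈ Ico (0 : ℝ) 1 by constructor <;> norm_num)
    (show (1 / 3 : ℝ) ∈ Ico (0 : ℝ) 1 by constructor <;> norm_num)
    (show (0 : ℝ) ≤ 1 - 3 * v by linarith) (show (0 : ℝ) ≤ 3 * v by linarith) (by ring)
  simp only [smul_eq_mul, mul_zero, zero_add, lq_zero, lq_third] at this
  have e : 3 * v * (1 / 3) = v := by ring
  rw [e] at this
  linarith

lemma le_lq {v : ℝ} (h0 : 1 / 3 ≤ v) (h1 : v < 1) : 3 * log 2 * v ≤ lq v := by
  have hv : 0 < v := by linarith
  have := convexOn_lq.2 (show (0 : ℝ) ∈ Ico (0 : ℝ) 1 by constructor <;> norm_num)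
    (show v ∈ Ico (0 : ℝ) 1 from ⟨hv.le, h1⟩)
    (show (0 : ℝ) ≤ 1 - 1 / (3 * v) by
      have : 1 / (3 * v) ≤ 1 := by
        rw [div_le_one (by linarith)]; linarith
      linarith) (show (0 : ℝ) ≤ 1 / (3 * v) by positivity) (by ring)
  simp only [smul_eq_mul, mul_zero, zero_add, lq_zero] at this
  have e : 1 / (3 * v) * v = 1 / 3 := by field_simp
  rw [e, lq_third] at this
  have e2 : 1 / (3 * v) * lq v = lq v / (3 * v) := by ring
  rw [e2, le_div_iff₀ (by linarith)] at this
  linarith

lemma two_mul_le_lq {v : ℝ} (h0 : 0 ≤ v) (h1 : v < 1) : 2 * v ≤ lq v := by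
  have hmono : MonotoneOn (fun v => lq v - 2 * v) (Ico 0 1) := by
    apply monotoneOn_of_deriv_nonneg (convex_Ico 0 1)
    · intro v hv
      exact ((hasDerivAt_lq (by linarith [hv.1]) hv.2).continuousAt.sub
        (by fun_prop)).continuousWithinAt
    · intro v hv
      rw [interior_Ico] at hv
      exact ((hasDerivAt_lq (by linarith [hv.1]) hv.2).differentiableAt.sub
        (by fun_prop)).differentiableWithinAt
    · intro v hv
      rw [interior_Ico] at hv
      have hd : HasDerivAt (fun v => lq v - 2 * v) (1 / (1 + v) + 1 / (1 - v) - 2) v := by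
        have := (hasDerivAt_lq (by linarith [hv.1]) hv.2).sub ((hasDerivAt_id v).const_mul 2)
        exact this.congr_deriv (by ring)
      rw [hd.deriv]
      have h1 : 0 < 1 + v := by linarith [hv.1]
      have h2 : 0 < 1 - v := by linarith [hv.2]
      have : 1 / (1 + v) + 1 / (1 - v) - 2 = 2 * v ^ 2 / ((1 + v) * (1 - v)) := by
        field_simp
        ring
      rw [this]
      positivity
  have := hmono (a := 0) (b := v) (by constructor <;> norm_num) ⟨h0, h1⟩ h0
  simp only [lq_zero] at this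
  linarith

/-- `(1+v) log (1+v) + (1-v) log (1-v)` -/
noncomputable def fq (v : ℝ) : ℝ := (1 + v) * log (1 + v) + (1 - v) * log (1 - v)

lemma hasDerivAt_fq {v : ℝ} (h0 : -1 < v) (h1 : v < 1) : HasDerivAt fq (lq v) v := by
  have a : HasDerivAt (fun v : ℝ => (1 + v) * log (1 + v)) (log (1 + v) + 1) v := by
    have h := (hasDerivAt_mul_log (x := 1 + v) (by linarith))
    have := h.comp v ((hasDerivAt_id v).const_add 1)
    simpa [Function.comp_def] using this
  have b : HasDerivAt (fun v : ℝ => (1 - v) * log (1 - v)) (-(log (1 - v) + 1)) v := by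
    have h := (hasDerivAt_mul_log (x := 1 - v) (by linarith))
    have := h.comp v ((hasDerivAt_id v).const_sub 1)
    simpa [Function.comp_def] using this
  exact (a.add b).congr_deriv (by rw [lq]; ring)

lemma continuous_fq : Continuous fq := by
  have h := continuous_mul_log
  have a : Continuous fun v : ℝ => (1 + v) * log (1 + v) := h.comp (continuous_const.add continuous_id)
  have b : Continuous fun v : ℝ => (1 - v) * log (1 - v) := h.comp (continuous_const.sub continuous_id)
  exact a.add b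

lemma fq_neg (v : ℝ) : fq (-v) = fq v := by
  rw [fq, fq, sub_neg_eq_add, ← sub_eq_add_neg]
  ring

lemma fq_zero : fq 0 = 0 := by simp [fq]

/-- quadratic lower bound -/
lemma sq_le_fq_aux {v : ℝ} (h0 : 0 ≤ v) (h1 : v ≤ 1) : v ^ 2 ≤ fq v := by
  have hmono : MonotoneOn (fun v => fq v - v ^ 2) (Icc 0 1) := by
    apply monotoneOn_of_deriv_nonneg (convex_Icc 0 1)
    · exact (continuous_fq.sub (by fun_prop)).continuousOn
    · intro v hv
      rw [interior_Icc] at hv
      exact ((hasDerivAt_fq (by linarith [hv.1]) hv.2).differentiableAt.sub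
        (by fun_prop)).differentiableWithinAt
    · intro v hv
      rw [interior_Icc] at hv
      have hd : HasDerivAt (fun v => fq v - v ^ 2) (lq v - 2 * v) v := by
        have := (hasDerivAt_fq (by linarith [hv.1]) hv.2).sub ((hasDerivAt_id v).pow 2)
        exact this.congr_deriv (by simp)
      rw [hd.deriv]
      linarith [two_mul_le_lq hv.1.le hv.2]
  have := hmono (a := 0) (b := v) (by constructor <;> norm_num) ⟨h0, h1⟩ h0
  simp only [fq_zero] at this
  nlinarith

lemma sq_le_fq {v : ℝ} (h0 : -1 ≤ v) (h1 : v ≤ 1) : v ^ 2 ≤ fq v := by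
  rcases le_total 0 v with h | h
  · exact sq_le_fq_aux h h1
  · have := sq_le_fq_aux (v := -v) (by linarith) (by linarith)
    rw [fq_neg] at this
    nlinarith

/-- The function `E`. -/
noncomputable def eq' (v : ℝ) : ℝ := log 3 - 19 / 12 * log 2 - 3 / 4 * log 2 * v ^ 2 + fq v / 2

lemma continuous_eq' : Continuous eq' := by
  have := continuous_fq
  unfold eq'
  fun_prop

lemma hasDerivAt_eq' {v : ℝ} (h0 : -1 < v) (h1 : v < 1) :
    HasDerivAt eq' ((lq v - 3 * log 2 * v) / 2) v := by
  have a := (hasDerivAt_fq h0 h1).div_const 2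
  have b := (((hasDerivAt_id v).pow 2).const_mul (3 / 4 * log 2)).const_sub
    (log 3 - 19 / 12 * log 2)
  exact (b.add a).congr_deriv (by simp; ring)

lemma eq'_third : eq' (1 / 3) = 0 := by
  have h : fq (1 / 3) = 4 / 3 * (2 * log 2 - log 3) + 2 / 3 * (log 2 - log 3) := by
    rw [fq]
    have e1 : log (1 + 1 / 3) = 2 * log 2 - log 3 := by
      have : (1 : ℝ) + 1 / 3 = 2 ^ 2 / 3 := by norm_num
      rw [this, log_div (by norm_num) (by norm_num), log_pow]
      norm_num
    have e2 : log (1 - 1 / 3) = log 2 - log 3 := by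
      have : (1 : ℝ) - 1 / 3 = 2 / 3 := by norm_num
      rw [this, log_div (by norm_num) (by norm_num)]
    rw [e1, e2]
    ring
  rw [eq', h]
  ring

lemma eq'_nonneg_aux {v : ℝ} (h0 : 0 ≤ v) (h1 : v ≤ 1) : 0 ≤ eq' v := by
  rw [← eq'_third]
  rcases le_total v (1 / 3) with h | h
  · have hanti : AntitoneOn eq' (Icc 0 (1 / 3)) := by
      apply antitoneOn_of_deriv_nonpos (convex_Icc 0 (1 / 3))
      · exact continuous_eq'.continuousOn
      · intro v hv
        rw [interior_Icc] at hv
        exact (hasDerivAt_eq' (by linarith [hv.1])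
          (by linarith [hv.2])).differentiableAt.differentiableWithinAt
      · intro v hv
        rw [interior_Icc] at hv
        rw [(hasDerivAt_eq' (by linarith [hv.1]) (by linarith [hv.2])).deriv]
        linarith [lq_le hv.1.le hv.2.le]
    exact hanti ⟨h0, h⟩ ⟨by norm_num, le_rfl⟩ h
  · have hmono : MonotoneOn eq' (Icc (1 / 3) 1) := by
      apply monotoneOn_of_deriv_nonneg (convex_Icc (1 / 3) 1)
      · exact continuous_eq'.continuousOn
      · intro v hv
        rw [interior_Icc] at hv
        exact (hasDerivAt_eq' (by linarith [hv.1])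
          (by linarith [hv.2])).differentiableAt.differentiableWithinAt
      · intro v hv
        rw [interior_Icc] at hv
        rw [(hasDerivAt_eq' (by linarith [hv.1]) (by linarith [hv.2])).deriv]
        linarith [le_lq hv.1.le hv.2]
    exact hmono ⟨le_rfl, by norm_num⟩ ⟨h, h1⟩ h

lemma eq'_nonneg {v : ℝ} (h0 : -1 ≤ v) (h1 : v ≤ 1) : 0 ≤ eq' v := by
  rcases le_total 0 v with h | h
  · exact eq'_nonneg_aux h h1
  · have := eq'_nonneg_aux (v := -v) (by linarith) (by linarith)
    have e : eq' (-v) = eq' v := by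
      rw [eq', eq', fq_neg]
      ring
    rwa [e] at this

/-- `x log (3x)` splits. -/
lemma mul_log_mul (c : ℝ) (hc : 0 < c) (x : ℝ) : x * log (c * x) = x * log c + x * log x := by
  rcases eq_or_ne x 0 with h | h
  · simp [h]
  · rw [log_mul hc.ne' h]
    ring

lemma kl_aux (x s y : ℝ) (hx : 1 / 3 ≤ x) (hs : x + 2 * s = 1) (h1 : 0 ≤ s + y) (h2 : 0 ≤ s - y) :
    4 / 3 * log 2 * ((3 * (x ^ 2 + (s + y) ^ 2 + (s - y) ^ 2) - 1) / 2) ≤
      x * log (3 * x) + (s + y) * log (3 * (s + y)) + (s - y) * log (3 * (s - y)) := by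
  have hs0 : 0 ≤ s := by linarith
  have hs3 : s ≤ 1 / 3 := by linarith
  have hl2 : 0 < log 2 := log_pos (by norm_num)
  have hl2' : log 2 < 0.6931471808 := log_two_lt_d9
  rw [mul_log_mul 3 (by norm_num), mul_log_mul 3 (by norm_num), mul_log_mul 3 (by norm_num)]
  -- the two small entries
  have key1 : 2 * s * log s + 3 * y ^ 2 ≤ (s + y) * log (s + y) + (s - y) * log (s - y) := by
    rcases hs0.eq_or_lt with h | h
    · have hy : y = 0 := by linarith
      rw [← h, hy]
      simp
    · have hu := sq_le_fq (v := y / s) (by rw [le_div_iff₀ h]; linarith)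
        (by rw [div_le_iff₀ h]; linarith)
      have e : s * fq (y / s) = (s + y) * log (s + y) + (s - y) * log (s - y) - 2 * s * log s := by
        have e1 : s + y = s * (1 + y / s) := by field_simp
        have e2 : s - y = s * (1 - y / s) := by field_simp
        rw [fq, e1, e2, mul_assoc s, mul_assoc s, mul_log_mul s h, mul_log_mul s h]
        ring
      have h3 : s * (y / s) ^ 2 ≤ s * fq (y / s) := mul_le_mul_of_nonneg_left hu h.le
      have h4 : 3 * y ^ 2 ≤ s * (y / s) ^ 2 := by
        have : s * (y / s) ^ 2 = y ^ 2 / s := by field_simp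
        rw [this, le_div_iff₀ h]
        nlinarith [sq_nonneg y]
      linarith
  have key2 := eq'_nonneg (v := 1 - 2 * x) (by linarith) (by linarith)
  have e3 : fq (1 - 2 * x) = 2 * log 2 + 2 * ((1 - x) * log (1 - x)) + 2 * (x * log x) := by
    rw [fq]
    have e1 : 1 + (1 - 2 * x) = 2 * (1 - x) := by ring
    have e2 : 1 - (1 - 2 * x) = 2 * x := by ring
    rw [e1, e2, mul_assoc, mul_assoc, mul_log_mul 2 (by norm_num), mul_log_mul 2 (by norm_num)]
    ring
  have e4 : (1 - x) * log (1 - x) = 2 * s * log s + 2 * s * log 2 := by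
    have : 1 - x = 2 * s := by linarith
    rw [this, mul_assoc, mul_log_mul 2 (by norm_num)]
    ring
  rw [eq', e3, e4] at key2
  have hy2 : 0 ≤ y ^ 2 := sq_nonneg y
  have h5 : log 2 * y ^ 2 ≤ 0.6931471808 * y ^ 2 := mul_le_mul_of_nonneg_right hl2'.le hy2
  have hxs : x = 1 - 2 * s := by linarith
  subst hxs
  nlinarith [key1, key2, h5]

/-- The sharp inequality. -/
theorem kl_sharp (r0 r1 r2 : ℝ) (h0 : 0 ≤ r0) (h1 : 0 ≤ r1) (h2 : 0 ≤ r2)
    (hs : r0 + r1 + r2 = 1) :
    4 / 3 * log 2 * ((3 * (r0 ^ 2 + r1 ^ 2 + r2 ^ 2) - 1) / 2) ≤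
      r0 * log (3 * r0) + r1 * log (3 * r1) + r2 * log (3 * r2) := by
  have main : ∀ a b c : ℝ, 0 ≤ b → 0 ≤ c → a + b + c = 1 → 1 / 3 ≤ a →
      4 / 3 * log 2 * ((3 * (a ^ 2 + b ^ 2 + c ^ 2) - 1) / 2) ≤
      a * log (3 * a) + b * log (3 * b) + c * log (3 * c) := by
    intro a b c hb hc hsum ha
    have := kl_aux a ((b + c) / 2) ((b - c) / 2) ha (by linarith) (by linarith) (by linarith)
    have e1 : (b + c) / 2 + (b - c) / 2 = b := by ring
    have e2 : (b + c) / 2 - (b - c) / 2 = c := by ring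
    rwa [e1, e2] at this
  by_cases c0 : 1 / 3 ≤ r0
  · exact main r0 r1 r2 h1 h2 hs c0
  · by_cases c1 : 1 / 3 ≤ r1
    · have := main r1 r0 r2 h0 h2 (by linarith) c1
      have e : r1 ^ 2 + r0 ^ 2 + r2 ^ 2 = r0 ^ 2 + r1 ^ 2 + r2 ^ 2 := by ring
      rw [e] at this
      linarith
    · have := main r2 r0 r1 h0 h1 (by linarith) (by linarith)
      have e : r2 ^ 2 + r0 ^ 2 + r1 ^ 2 = r0 ^ 2 + r1 ^ 2 + r2 ^ 2 := by ring
      rw [e] at this
      linarith

end Pool.Agent.Collatz3.Mix
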