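import Mathlib
import Pool.Agent.Collatz3.VDefs
import Pool.Agent.Collatz3.KLSharp

set_option autoImplicit false

/-!
Basic facts: words, fibres, subadditivity of `Vf`, entropy telescoping.
-/

namespace Pool.Agent.Collatz3.Mix

open Finset Real

/-! ### Words -/

lemma mem_words {I k : ℕ} {w : List ℕ} :
    w ∈ words I k ↔ w.length = k ∧ ∀ i ∈ w, 1 ≤ i ∧ i ≤ I := by
  induction k generalizing w with
  | zero =>
    simp only [words, mem_singleton]
    constructor
    · rintro rfl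
      simp
    · rintro ⟨h, -⟩
      exact List.length_eq_zero_iff.mp h
  | succ k ih =>
    simp only [words, mem_image, mem_product, mem_Icc]
    constructor
    · rintro ⟨⟨i, v⟩, ⟨hi, hv⟩, rfl⟩
      rw [ih] at hv
      refine ⟨by simp [hv.1], ?_⟩
      intro j hj
      rcases List.mem_cons.mp hj with rfl | hj
      · exact hi
      · exact hv.2 j hj
    · rintro ⟨hl, hw⟩
      cases w with
      | nil => simp at hl
      | cons i v =>
        refine ⟨(i, v), ⟨hw i (by simp), ih.mpr ⟨by simpa using hl, fun j hj => hw j (by simp [hj])⟩⟩, rfl⟩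

lemma sum_words_zero {M : Type*} [AddCommMonoid M] (I : ℕ) (f : List ℕ → M) :
    ∑ w ∈ words I 0, f w = f [] := by simp [words]

lemma sum_words_succ {M : Type*} [AddCommMonoid M] (I k : ℕ) (f : List ℕ → M) :
    ∑ w ∈ words I (k + 1), f w = ∑ i ∈ Icc 1 I, ∑ w ∈ words I k, f (i :: w) := by
  rw [words, sum_image, sum_product]
  rintro ⟨i, v⟩ _ ⟨j, w⟩ _ h
  simp only [List.cons.injEq] at h
  rw [Prod.mk.injEq]
  exact h

lemma sum_words_add {M : Type*} [AddCommMonoid M] (I k n : ℕ) (f : List ℕ → M) :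
    ∑ w ∈ words I (k + n), f w = ∑ v ∈ words I k, ∑ w ∈ words I n, f (v ++ w) := by
  induction k generalizing f with
  | zero => rw [Nat.zero_add, sum_words_zero]; rfl
  | succ k ih =>
    rw [Nat.add_right_comm, sum_words_succ, sum_words_succ]
    apply sum_congr rfl
    intro i _
    rw [ih]
    rfl

lemma sum_le_of_mem_words {I k : ℕ} {w : List ℕ} (h : w ∈ words I k) : w.sum ≤ I * k := by
  rw [mem_words] at h
  obtain ⟨h1, h2⟩ := h
  rw [← h1, Nat.mul_comm]
  have := List.sum_le_card_nsmul w I (fun i hi => (h2 i hi).2)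
  simpa using this

lemma pw_nonneg {z : ℝ} (hz : 0 < z) (I : ℕ) (w : List ℕ) : 0 ≤ pw z I w := by
  have : 0 ≤ Zs z I := sum_nonneg fun i _ => by positivity
  unfold pw
  positivity

lemma Zs_pos {z : ℝ} (hz : 0 < z) {I : ℕ} (hI : 1 ≤ I) : 0 < Zs z I :=
  sum_pos (fun i _ => by positivity) ⟨1, by simp [hI]⟩

lemma pw_cons (z : ℝ) (I i : ℕ) (w : List ℕ) : pw z I (i :: w) = z ^ i / Zs z I * pw z I w := by
  simp only [pw, List.sum_cons, List.length_cons, pow_add, pow_succ]
  rw [div_mul_div_comm, mul_comm (Zs z I)]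

lemma pw_append (z : ℝ) (I : ℕ) (v w : List ℕ) :
    pw z I (v ++ w) = pw z I v * pw z I w := by
  simp only [pw, List.sum_append, List.length_append, pow_add]
  rw [div_mul_div_comm]

lemma sum_letter {z : ℝ} (hz : 0 < z) {I : ℕ} (hI : 1 ≤ I) :
    ∑ i ∈ Icc 1 I, z ^ i / Zs z I = 1 := by
  rw [← sum_div]
  exact div_self (Zs_pos hz hI).ne'

lemma sum_pw {z : ℝ} (hz : 0 < z) {I : ℕ} (hI : 1 ≤ I) (k : ℕ) :
    ∑ w ∈ words I k, pw z I w = 1 := by
  induction k with
  | zero => simp [sum_words_zero, pw]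
  | succ k ih =>
    rw [sum_words_succ]
    simp only [pw_cons]
    simp only [← mul_sum, ih, mul_one]
    exact sum_letter hz hI

lemma cw_append' (v w : List ℕ) : cw (v ++ w) = 2 ^ w.sum * cw v + 3 ^ v.length * cw w := by
  induction v with
  | nil => simp [cw]
  | cons i v ih =>
    simp only [List.cons_append, cw, ih, List.length_cons, List.sum_append, pow_succ, pow_add]
    ring

lemma cw_concat (v : List ℕ) (i : ℕ) : cw (v ++ [i]) = 2 ^ i * cw v + 3 ^ v.length := by
  rw [cw_append']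
  simp [cw]

lemma cw_cons (i : ℕ) (w : List ℕ) : cw (i :: w) = 3 * cw w + 2 ^ w.sum := rfl

/-- `c_w` is odd for nonempty words with positive letters (the first letter does not matter). -/
lemma odd_cw {v : List ℕ} (hne : v ≠ []) (h : ∀ i ∈ v, 1 ≤ i) : Odd (cw v) := by
  induction v using List.reverseRecOn with
  | nil => exact absurd rfl hne
  | append_singleton v i _ =>
    rw [cw_concat]
    have hi : 1 ≤ i := h i (by simp)
    have h1 : Even (2 ^ i * cw v) := by
      obtain ⟨j, rfl⟩ : ∃ j, i = j + 1 := ⟨i - 1, by omega⟩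
      rw [pow_succ, mul_assoc]
      exact ((even_two).mul_right _).mul_left _
    exact h1.add_odd ((by decide : Odd 3).pow)

/-- The constant and the sum determine the word. -/
lemma cw_inj {k : ℕ} {v w : List ℕ} (hv : v.length = k) (hw : w.length = k)
    (h1 : ∀ i ∈ v, 1 ≤ i) (h2 : ∀ i ∈ w, 1 ≤ i) (hs : v.sum = w.sum) (hc : cw v = cw w) :
    v = w := by
  induction k generalizing v w with
  | zero =>
    rw [List.length_eq_zero_iff] at hv hw
    rw [hv, hw]
  | succ k ih =>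
    rcases List.eq_nil_or_concat v with rfl | ⟨v, i, rfl⟩
    · simp at hv
    rcases List.eq_nil_or_concat w with rfl | ⟨w, j, rfl⟩
    · simp at hw
    rw [List.concat_eq_append] at hv hc hs h1 ⊢
    rw [List.concat_eq_append] at hw hc hs h2 ⊢
    have hv' : v.length = k := by simpa using hv
    have hw' : w.length = k := by simpa using hw
    rcases Nat.eq_zero_or_pos k with rfl | hk
    · rw [List.length_eq_zero_iff] at hv' hw'
      subst hv' hw'
      simp at hs ⊢
      exact hs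
    have hc' : 2 ^ i * cw v = 2 ^ j * cw w := by
      rw [cw_concat, cw_concat, hv', hw'] at hc
      omega
    have ho1 : Odd (cw v) := odd_cw (by rintro rfl; simp at hv'; omega)
      (fun i hi => h1 i (by simp [hi]))
    have ho2 : Odd (cw w) := odd_cw (by rintro rfl; simp at hw'; omega)
      (fun i hi => h2 i (by simp [hi]))
    have hij : i = j := by
      rcases lt_trichotomy i j with h | h | h
      · exfalso
        obtain ⟨d, rfl⟩ : ∃ d, j = i + (d + 1) := ⟨j - i - 1, by omega⟩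
        rw [pow_add, mul_assoc] at hc'
        have := Nat.eq_of_mul_eq_mul_left (by positivity) hc'
        rw [this, pow_succ] at ho1
        exact (Nat.not_even_iff_odd.mpr ho1) (by rw [mul_assoc]; exact (even_two.mul_right _).mul_left _)
      · exact h
      · exfalso
        obtain ⟨d, rfl⟩ : ∃ d, i = j + (d + 1) := ⟨i - j - 1, by omega⟩
        rw [pow_add, mul_assoc] at hc'
        have := Nat.eq_of_mul_eq_mul_left (by positivity) hc'.symm
        rw [this, pow_succ] at ho2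
        exact (Nat.not_even_iff_odd.mpr ho2) (by rw [mul_assoc]; exact (even_two.mul_right _).mul_left _)
    subst hij
    have hcc := Nat.eq_of_mul_eq_mul_left (by positivity) hc'
    have hss : v.sum = w.sum := by
      simp only [List.sum_append] at hs
      omega
    rw [ih hv' hw' (fun i hi => h1 i (by simp [hi])) (fun i hi => h2 i (by simp [hi])) hss hcc]

/-! ### Fibres -/

/-- The lifts of `x`. -/
noncomputable def lift3 (n : ℕ) (x : ZMod (3 ^ n)) (u : ℕ) : ZMod (3 ^ (n + 1)) :=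
  ((x.val + u * 3 ^ n : ℕ) : ZMod (3 ^ (n + 1)))

lemma val_lift3 {n : ℕ} (x : ZMod (3 ^ n)) {u : ℕ} (hu : u < 3) :
    (lift3 n x u).val = x.val + u * 3 ^ n := by
  rw [lift3, ZMod.val_natCast, Nat.mod_eq_of_lt]
  have h1 := ZMod.val_lt x
  have h2 : u * 3 ^ n ≤ 2 * 3 ^ n := Nat.mul_le_mul_right _ (by omega)
  rw [pow_succ]
  omega

lemma red_lift3 {n : ℕ} (x : ZMod (3 ^ n)) (u : ℕ) : red n (lift3 n x u) = x := by
  rw [lift3, map_natCast]
  push_cast
  have : (3 : ZMod (3 ^ n)) ^ n = 0 := by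
    have := ZMod.natCast_self (3 ^ n)
    push_cast at this
    exact this
  rw [this, mul_zero, add_zero, ZMod.natCast_zmod_val]

lemma sum_fibre {M : Type*} [AddCommMonoid M] (n : ℕ) (f : ZMod (3 ^ (n + 1)) → M)
    (x : ZMod (3 ^ n)) :
    ∑ y ∈ univ.filter (fun y => red n y = x), f y =
      f (lift3 n x 0) + f (lift3 n x 1) + f (lift3 n x 2) := by
  have hset : univ.filter (fun y => red n y = x) = (range 3).image (lift3 n x) := by
    ext y
    simp only [mem_filter, mem_univ, true_and, mem_image, mem_range]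
    constructor
    · intro h
      have h1 : y.val % 3 ^ n = x.val := by
        rw [← h]
        have : red n y = ((y.val : ℕ) : ZMod (3 ^ n)) := by
          conv_lhs => rw [← ZMod.natCast_zmod_val y]
          rw [map_natCast]
        rw [this, ZMod.val_natCast]
      refine ⟨y.val / 3 ^ n, ?_, ?_⟩
      · have h5 : y.val < 3 ^ n * 3 := by
          have := ZMod.val_lt y
          have e : 3 ^ (n + 1) = 3 ^ n * 3 := pow_succ 3 n
          omega
        exact Nat.div_lt_of_lt_mul h5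
      · rw [lift3, ← h1, Nat.mul_comm (y.val / 3 ^ n), Nat.mod_add_div, ZMod.natCast_zmod_val]
    · rintro ⟨u, _, rfl⟩
      exact red_lift3 x u
  rw [hset, sum_image]
  · rw [sum_range_succ, sum_range_succ, sum_range_succ, sum_range_zero, zero_add]
  · intro u hu v hv h
    rw [coe_range, Set.mem_Iio] at hu hv
    have := congrArg ZMod.val h
    rw [val_lift3 x hu, val_lift3 x hv] at this
    have h3 : 0 < 3 ^ n := by positivity
    exact Nat.eq_of_mul_eq_mul_right h3 (by omega)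

lemma fs_eq (n : ℕ) (ρ : ZMod (3 ^ (n + 1)) → ℝ) (x : ZMod (3 ^ n)) :
    fs n ρ x = ρ (lift3 n x 0) + ρ (lift3 n x 1) + ρ (lift3 n x 2) := sum_fibre n ρ x

lemma sum_fs {M : Type*} [AddCommMonoid M] (n : ℕ) (f : ZMod (3 ^ (n + 1)) → M) :
    ∑ x, ∑ y ∈ univ.filter (fun y => red n y = x), f y = ∑ y, f y :=
  Finset.sum_fiberwise _ _ _

/-- The quantity attached to three numbers. -/
noncomputable def q3 (a b c : ℝ) : ℝ :=
  (3 * (a ^ 2 + b ^ 2 + c ^ 2) - (a + b + c) ^ 2) / (2 * (a + b + c))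

lemma Vf_eq (n : ℕ) (ρ : ZMod (3 ^ (n + 1)) → ℝ) :
    Vf n ρ = ∑ x, q3 (ρ (lift3 n x 0)) (ρ (lift3 n x 1)) (ρ (lift3 n x 2)) := by
  unfold Vf q3
  apply sum_congr rfl
  intro x _
  rw [fs_eq, fs_eq]

lemma q3_nonneg {a b c : ℝ} (ha : 0 ≤ a) (hb : 0 ≤ b) (hc : 0 ≤ c) : 0 ≤ q3 a b c := by
  unfold q3
  apply div_nonneg _ (by positivity)
  nlinarith [sq_nonneg (a - b), sq_nonneg (b - c), sq_nonneg (a - c)]

lemma q3_le {a b c : ℝ} (ha : 0 ≤ a) (hb : 0 ≤ b) (hc : 0 ≤ c) : q3 a b c ≤ a + b + c := by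
  rcases (by positivity : 0 ≤ a + b + c).eq_or_lt with h | h
  · unfold q3
    rw [← h]
    simp
  · unfold q3
    rw [div_le_iff₀ (by positivity)]
    nlinarith [mul_nonneg ha hb, mul_nonneg hb hc, mul_nonneg ha hc]

lemma q3_smul (t a b c : ℝ) : q3 (t * a) (t * b) (t * c) = t * q3 a b c := by
  unfold q3
  rcases eq_or_ne t 0 with rfl | ht
  · simp
  · have e1 : 3 * ((t * a) ^ 2 + (t * b) ^ 2 + (t * c) ^ 2) - (t * a + t * b + t * c) ^ 2 =
      t * (t * (3 * (a ^ 2 + b ^ 2 + c ^ 2) - (a + b + c) ^ 2)) := by ring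
    have e2 : 2 * (t * a + t * b + t * c) = t * (2 * (a + b + c)) := by ring
    rw [e1, e2, mul_div_mul_left _ _ ht, mul_div_assoc]

/-- Subadditivity. -/
lemma q3_add {a b c a' b' c' : ℝ} (ha : 0 ≤ a) (hb : 0 ≤ b) (hc : 0 ≤ c) (ha' : 0 ≤ a')
    (hb' : 0 ≤ b') (hc' : 0 ≤ c') :
    q3 (a + a') (b + b') (c + c') ≤ q3 a b c + q3 a' b' c' := by
  rcases (by positivity : 0 ≤ a + b + c).eq_or_lt with h | h
  · have h1 : a = 0 := by linarith
    have h2 : b = 0 := by linarith
    have h3 : c = 0 := by linarith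
    rw [h1, h2, h3]
    simp [q3]
  rcases (by positivity : 0 ≤ a' + b' + c').eq_or_lt with h' | h'
  · have h1 : a' = 0 := by linarith
    have h2 : b' = 0 := by linarith
    have h3 : c' = 0 := by linarith
    rw [h1, h2, h3]
    simp [q3]
  have e : ∀ a b c : ℝ, 0 < a + b + c → q3 a b c =
      3 / 2 * ((a ^ 2 + b ^ 2 + c ^ 2) / (a + b + c)) - (a + b + c) / 2 := by
    intro a b c h
    unfold q3
    field_simp
  rw [e _ _ _ h, e _ _ _ h', e _ _ _ (by linarith)]
  have key : ((a + a') ^ 2 + (b + b') ^ 2 + (c + c') ^ 2) / (a + a' + (b + b') + (c + c')) ≤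
      (a ^ 2 + b ^ 2 + c ^ 2) / (a + b + c) + (a' ^ 2 + b' ^ 2 + c' ^ 2) / (a' + b' + c') := by
    set s := a + b + c with hs
    set t := a' + b' + c' with ht
    have e1 : a + a' + (b + b') + (c + c') = s + t := by rw [hs, ht]; ring
    rw [e1, div_add_div _ _ h.ne' h'.ne', div_le_div_iff₀ (by positivity) (by positivity)]
    nlinarith [sq_nonneg (a * t - a' * s), sq_nonneg (b * t - b' * s), sq_nonneg (c * t - c' * s),
      mul_pos h h']
  linarith

lemma Vf_nonneg (n : ℕ) {ρ : ZMod (3 ^ (n + 1)) → ℝ} (h : ∀ y, 0 ≤ ρ y) : 0 ≤ Vf n ρ := by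
  rw [Vf_eq]
  exact sum_nonneg fun x _ => q3_nonneg (h _) (h _) (h _)

lemma Vf_le (n : ℕ) {ρ : ZMod (3 ^ (n + 1)) → ℝ} (h : ∀ y, 0 ≤ ρ y) : Vf n ρ ≤ ∑ y, ρ y := by
  rw [Vf_eq, ← sum_fs n ρ]
  apply sum_le_sum
  intro x _
  rw [sum_fibre]
  exact q3_le (h _) (h _) (h _)

lemma Vf_smul (n : ℕ) (t : ℝ) (ρ : ZMod (3 ^ (n + 1)) → ℝ) :
    Vf n (fun y => t * ρ y) = t * Vf n ρ := by
  rw [Vf_eq, Vf_eq, mul_sum]
  exact sum_congr rfl fun x _ => q3_smul _ _ _ _

lemma Vf_add (n : ℕ) {ρ σ : ZMod (3 ^ (n + 1)) → ℝ} (h : ∀ y, 0 ≤ ρ y) (h' : ∀ y, 0 ≤ σ y) :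
    Vf n (fun y => ρ y + σ y) ≤ Vf n ρ + Vf n σ := by
  rw [Vf_eq, Vf_eq, Vf_eq, ← sum_add_distrib]
  exact sum_le_sum fun x _ => q3_add (h _) (h _) (h _) (h' _) (h' _) (h' _)

lemma Vf_sum (n : ℕ) {ι : Type*} (s : Finset ι) {ρ : ι → ZMod (3 ^ (n + 1)) → ℝ}
    (h : ∀ i ∈ s, ∀ y, 0 ≤ ρ i y) :
    Vf n (fun y => ∑ i ∈ s, ρ i y) ≤ ∑ i ∈ s, Vf n (ρ i) := by
  classical
  induction s using Finset.induction_on with
  | empty =>
    simp only [sum_empty]
    have := Vf_smul n 0 (fun _ => 0)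
    simp only [zero_mul] at this
    rw [this]
  | insert i s hi ih =>
    simp only [sum_insert hi]
    have h1 := Vf_add n (ρ := ρ i) (σ := fun y => ∑ i ∈ s, ρ i y) (h i (mem_insert_self _ _))
      (fun y => sum_nonneg fun j hj => h j (mem_insert_of_mem hj) y)
    have h2 := ih fun j hj => h j (mem_insert_of_mem hj)
    linarith

end Pool.Agent.Collatz3.Mix
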