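import Mathlib
import Pool.Agent.Collatz3.VBasic

set_option autoImplicit false

/-!
Basic facts on the residues `X_w` and their laws.
-/

namespace Pool.Agent.Collatz3.Mix

open Finset Real

lemma two_mul_inv_two (N : ℕ) : (2 : ZMod (3 ^ N)) * 2⁻¹ = 1 := by
  have h : Nat.Coprime 2 (3 ^ N) := Nat.Coprime.pow_right N (by norm_num)
  have := ZMod.coe_mul_inv_eq_one 2 h
  exact_mod_cast this

lemma two_pow_mul_inv (N s : ℕ) : (2 : ZMod (3 ^ N)) ^ s * (2⁻¹) ^ s = 1 := by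
  rw [← mul_pow, two_mul_inv_two, one_pow]

lemma three_pow_self (N : ℕ) : (3 : ZMod (3 ^ N)) ^ N = 0 := by
  have := ZMod.natCast_self (3 ^ N)
  push_cast at this
  exact this

lemma three_pow_of_le {N k : ℕ} (h : N ≤ k) : (3 : ZMod (3 ^ N)) ^ k = 0 := by
  rw [← Nat.sub_add_cancel h, pow_add, three_pow_self, mul_zero]

lemma red_inv_two (n : ℕ) : red n (2⁻¹) = 2⁻¹ := by
  have h1 : (2 : ZMod (3 ^ n)) * red n (2⁻¹) = 1 := by
    have := congrArg (red n) (two_mul_inv_two (n + 1))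
    rw [map_mul, map_one, map_ofNat] at this
    exact this
  have h2 := two_mul_inv_two n
  calc red n (2⁻¹) = (2 * 2⁻¹) * red n (2⁻¹) := by rw [h2, one_mul]
    _ = 2⁻¹ * (2 * red n (2⁻¹)) := by ring
    _ = 2⁻¹ := by rw [h1, mul_one]

lemma red_Xw (n : ℕ) (w : List ℕ) : red n (Xw (n + 1) w) = Xw n w := by
  rw [Xw, Xw, map_mul, map_pow, red_inv_two, map_natCast]

lemma Xw_append (N : ℕ) (v w : List ℕ) :
    Xw N (v ++ w) = Xw N v + 3 ^ v.length * (2⁻¹) ^ v.sum * Xw N w := by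
  rw [Xw, Xw, Xw, cw_append', List.sum_append, pow_add]
  push_cast
  have h := two_pow_mul_inv N w.sum
  linear_combination ((cw v : ZMod (3 ^ N)) * (2⁻¹) ^ v.sum) * h

lemma Xw_stable {N : ℕ} {v : List ℕ} (h : N ≤ v.length) (w : List ℕ) :
    Xw N (v ++ w) = Xw N v := by
  rw [Xw_append, three_pow_of_le h]
  ring

lemma Xw_cons (N i : ℕ) (w : List ℕ) : Xw N (i :: w) = (2⁻¹) ^ i * (1 + 3 * Xw N w) := by
  rw [Xw, Xw, cw_cons, List.sum_cons, pow_add]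
  push_cast
  have h := two_pow_mul_inv N w.sum
  linear_combination ((2⁻¹ : ZMod (3 ^ N)) ^ i) * h

lemma law_nonneg {z : ℝ} (hz : 0 < z) (I k N : ℕ) (y : ZMod (3 ^ N)) : 0 ≤ law z I k N y :=
  sum_nonneg fun w _ => pw_nonneg hz I w

lemma sum_law {z : ℝ} (hz : 0 < z) {I : ℕ} (hI : 1 ≤ I) (k N : ℕ) :
    ∑ y, law z I k N y = 1 := by
  rw [← sum_pw hz hI k]
  exact Finset.sum_fiberwise _ _ _

lemma fs_law (z : ℝ) (I k N : ℕ) (x : ZMod (3 ^ N)) :
    fs N (law z I k (N + 1)) x = law z I k N x := by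
  unfold fs law
  have h := Finset.sum_fiberwise_of_maps_to
    (s := (words I k).filter (fun w => Xw N w = x)) (t := univ.filter (fun y => red N y = x))
    (g := fun w => Xw (N + 1) w) (fun w hw => by
      rw [mem_filter] at hw ⊢
      exact ⟨mem_univ _, by rw [red_Xw]; exact hw.2⟩) (pw z I)
  rw [← h]
  apply sum_congr rfl
  intro y hy
  rw [mem_filter] at hy
  apply sum_congr _ fun _ _ => rfl
  ext w
  simp only [mem_filter]
  constructor
  · rintro ⟨h1, h2⟩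
    exact ⟨⟨h1, by rw [← red_Xw, h2]; exact hy.2⟩, h2⟩
  · rintro ⟨⟨h1, -⟩, h2⟩
    exact ⟨h1, h2⟩

lemma law_stable {z : ℝ} (hz : 0 < z) {I : ℕ} (hI : 1 ≤ I) {k N : ℕ} (h : N ≤ k) (j : ℕ)
    (y : ZMod (3 ^ N)) : law z I (k + j) N y = law z I k N y := by
  unfold law
  rw [sum_filter, sum_filter, sum_words_add]
  apply sum_congr rfl
  intro v hv
  rw [mem_words] at hv
  have : ∀ w ∈ words I j, (if Xw N (v ++ w) = y then pw z I (v ++ w) else 0) =
      (if Xw N v = y then pw z I v else 0) * pw z I w := by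
    intro w _
    rw [Xw_stable (by omega), pw_append]
    split_ifs <;> simp
  rw [sum_congr rfl this, ← mul_sum, sum_pw hz hI, mul_one]

/-- The law of `X` modulo `3 ^ n`. -/
noncomputable def mu (z : ℝ) (I n : ℕ) : ZMod (3 ^ n) → ℝ := law z I n n

lemma Vn_eq (z : ℝ) (I n : ℕ) : Vn z I n = Vf n (mu z I (n + 1)) := rfl

lemma fs_mu {z : ℝ} (hz : 0 < z) {I : ℕ} (hI : 1 ≤ I) (n : ℕ) (x : ZMod (3 ^ n)) :
    fs n (mu z I (n + 1)) x = mu z I n x := by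
  rw [mu, fs_law, mu]
  exact law_stable hz hI le_rfl 1 x

lemma mu_nonneg {z : ℝ} (hz : 0 < z) (I n : ℕ) (y : ZMod (3 ^ n)) : 0 ≤ mu z I n y :=
  law_nonneg hz I n n y

lemma sum_mu {z : ℝ} (hz : 0 < z) {I : ℕ} (hI : 1 ≤ I) (n : ℕ) : ∑ y, mu z I n y = 1 :=
  sum_law hz hI n n

lemma Vn_nonneg {z : ℝ} (hz : 0 < z) (I n : ℕ) : 0 ≤ Vn z I n :=
  Vf_nonneg n fun y => mu_nonneg hz I (n + 1) y

lemma Vn_le_one {z : ℝ} (hz : 0 < z) {I : ℕ} (hI : 1 ≤ I) (n : ℕ) : Vn z I n ≤ 1 := by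
  rw [← sum_mu hz hI (n + 1)]
  exact Vf_le n fun y => mu_nonneg hz I (n + 1) y

end Pool.Agent.Collatz3.Mix
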