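import Mathlib
import Pool.Agent.Collatz3.VLaw

set_option autoImplicit false

/-!
Words readable at an integer, in terms of residues; counting words; powers of 2 modulo `3 ^ m`.
-/

namespace Pool.Agent.Collatz3.Mix

open Finset Real

lemma three_dvd_of_two_pow_mul {s : ℕ} {t : ℤ} (h : (3 : ℤ) ∣ 2 ^ s * t) : (3 : ℤ) ∣ t := by
  have h1 : IsCoprime (3 : ℤ) (2 ^ s) := IsCoprime.pow_right (by norm_num)
  exact h1.dvd_of_dvd_mul_left h

lemma up_of_eq : ∀ (w : List ℕ) (a b : ℤ),
    (2 : ℤ) ^ w.sum * a = 3 ^ w.length * b + cw w → Up a w b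
  | [], a, b, h => by
    simpa [cw, Up] using h
  | i :: w, a, b, h => by
    rw [List.sum_cons, List.length_cons, cw_cons, pow_add, pow_succ] at h
    push_cast at h
    have h1 : (3 : ℤ) ∣ 2 ^ w.sum * (2 ^ i * a - 1) :=
      ⟨3 ^ w.length * b + cw w, by linear_combination h⟩
    obtain ⟨x, hx⟩ := three_dvd_of_two_pow_mul h1
    refine ⟨x, by linarith, up_of_eq w x b ?_⟩
    have h2 : (3 : ℤ) * (2 ^ w.sum * x) = 3 * (3 ^ w.length * b + cw w) := by
      linear_combination h - 2 ^ w.sum * hx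
    exact mul_left_cancel₀ (by norm_num) h2

lemma ok_of_Xw {n : ℕ} {w : List ℕ} (hw : w.length = n) (l : ℕ) (a : ℤ)
    (h : Xw (n + 1) (w ++ [l]) = (a : ZMod (3 ^ (n + 1)))) : Ok a w := by
  set u : ℕ := ((2⁻¹ : ZMod (3 ^ (n + 1))) ^ l).val with hu
  have hu1 : (u : ZMod (3 ^ (n + 1))) = (2⁻¹) ^ l := ZMod.natCast_zmod_val _
  have h2 : Xw (n + 1) [l] = (2⁻¹ : ZMod (3 ^ (n + 1))) ^ l := by
    simp [Xw, cw]
  rw [Xw_append, h2, ← hu1, hw] at h
  have h3 : ((2 ^ w.sum * a - cw w - 3 ^ n * u : ℤ) : ZMod (3 ^ (n + 1))) = 0 := by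
    push_cast
    rw [← h, Xw]
    have e := two_pow_mul_inv (n + 1) w.sum
    linear_combination ((cw w : ZMod (3 ^ (n + 1))) + 3 ^ n * (u : ZMod (3 ^ (n + 1)))) * e
  rw [ZMod.intCast_zmod_eq_zero_iff_dvd] at h3
  obtain ⟨t, ht⟩ := h3
  push_cast at ht
  refine ⟨u + 3 * t, up_of_eq w a _ ?_, ?_⟩
  · rw [hw]
    rw [pow_succ] at ht
    linear_combination ht
  · intro hdvd
    have h4 : (3 : ℤ) ∣ u := by
      have : (u : ℤ) = (u + 3 * t) - 3 * t := by ring
      rw [this]
      exact dvd_sub hdvd (Dvd.intro _ rfl)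
    have h5 : ((2 ^ l * u - 1 : ℤ) : ZMod (3 ^ (n + 1))) = 0 := by
      push_cast
      rw [hu1, two_pow_mul_inv, sub_self]
    rw [ZMod.intCast_zmod_eq_zero_iff_dvd] at h5
    have h6 : (3 : ℤ) ∣ 2 ^ l * u - 1 :=
      (dvd_trans (by push_cast; exact dvd_pow_self 3 (Nat.succ_ne_zero n)) h5)
    have h7 : (3 : ℤ) ∣ 1 := by
      have : (1 : ℤ) = 2 ^ l * u - (2 ^ l * u - 1) := by ring
      rw [this]
      exact dvd_sub (h4.mul_left _) h6
    norm_num at h7

lemma ok_shift {j i : ℕ} {w : List ℕ} {a : ℤ} (h : Ok (2 ^ j * a) (i :: w)) :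
    Ok a ((i + j) :: w) := by
  obtain ⟨b, ⟨x, hx, hup⟩, hb⟩ := h
  refine ⟨b, ⟨x, ?_, hup⟩, hb⟩
  rw [← hx, pow_add]
  ring

lemma size_shift (i j : ℕ) (w : List ℕ) : size ((i + j) :: w) ≤ 2 ^ j * size (i :: w) := by
  simp only [size, cw_cons, List.sum_cons, pow_add]
  have h1 : 1 ≤ 2 ^ j := Nat.one_le_two_pow
  nlinarith [Nat.zero_le (cw w), Nat.zero_le (2 ^ w.sum), Nat.mul_le_mul h1 (le_refl (cw w)),
    Nat.mul_le_mul h1 (le_refl (2 ^ w.sum))]

lemma size_concat_le (w : List ℕ) (l : ℕ) : size w ≤ size (w ++ [l]) := by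
  rw [size, size, cw_concat, List.sum_append]
  have h1 : 2 ^ w.sum ≤ 2 ^ (w.sum + [l].sum) := Nat.pow_le_pow_right (by norm_num) (by omega)
  have h2 : cw w ≤ 2 ^ l * cw w := Nat.le_mul_of_pos_left _ (by positivity)
  exact Nat.add_le_add h1 (h2.trans (Nat.le_add_right _ _))

lemma paths_subset' (a : ℤ) (n : ℕ) (B : ℝ) : paths a n B ⊆ (words ⌊B⌋₊ n : Set (List ℕ)) := by
  rintro w ⟨h1, h2, h3, -⟩
  rw [mem_coe, mem_words]
  refine ⟨h1, fun i hi => ⟨h2 i hi, ?_⟩⟩
  have h4 : i ≤ w.sum := List.le_sum_of_mem hi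
  have h5 : w.sum < 2 ^ w.sum := Nat.lt_two_pow_self
  have h6 : 2 ^ w.sum ≤ size w := Nat.le_add_right _ _
  apply Nat.le_floor
  refine le_trans ?_ h3
  exact_mod_cast (by omega : i ≤ size w)

lemma paths_finite' (a : ℤ) (n : ℕ) (B : ℝ) : (paths a n B).Finite :=
  (words ⌊B⌋₊ n).finite_toSet.subset (paths_subset' a n B)

/-- Counting words readable at `a` from residues at `2 ^ j * a`. -/
lemma card_le_cnt {I n j : ℕ} (hn : 1 ≤ n) {a : ℤ} {B : ℝ} (C : Finset (List ℕ))
    (hC : C ⊆ words I (n + 1)) (hX : ∀ w ∈ C, Xw (n + 1) w = ((2 ^ j * a : ℤ) : ZMod (3 ^ (n + 1))))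
    (hB : ∀ w ∈ C, (size w : ℝ) ≤ B) : C.card ≤ I * cnt a n (2 ^ j * B) := by
  classical
  set C' := (words I n).filter (fun v => ∃ w ∈ words I 1, v ++ w ∈ C) with hC'
  have h1 : C.card ≤ I * C'.card := by
    have e1 : C.card = ∑ w ∈ words I (n + 1), if w ∈ C then 1 else 0 := by
      rw [sum_ite_mem, inter_eq_right.mpr hC, card_eq_sum_ones]
    have e2 : ∀ v ∈ words I n, ∑ w ∈ words I 1, (if v ++ w ∈ C then 1 else 0) ≤
        if (∃ w ∈ words I 1, v ++ w ∈ C) then I else 0 := by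
      intro v _
      split_ifs with h
      · refine (sum_le_sum (g := fun _ => 1) fun w _ => by split_ifs <;> norm_num).trans ?_
        rw [sum_words_succ]
        simp [words]
      · rw [nonpos_iff_eq_zero]
        apply sum_eq_zero
        intro w hw
        rw [if_neg]
        intro hh
        exact h ⟨w, hw, hh⟩
    rw [e1, sum_words_add, hC', card_filter, mul_sum]
    refine (sum_le_sum e2).trans (le_of_eq ?_)
    apply sum_congr rfl
    intro v _
    split_ifs <;> simp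
  refine h1.trans (Nat.mul_le_mul_left I ?_)
  rw [cnt, ← Set.ncard_coe_finset]
  refine Set.ncard_le_ncard_of_injOn (fun w => match w with | [] => [] | i :: v => (i + j) :: v)
    ?_ ?_ (paths_finite' _ _ _)
  · intro v hv
    rw [mem_coe, hC', mem_filter] at hv
    obtain ⟨hv1, w, hw, hvw⟩ := hv
    rw [mem_words] at hv1 hw
    obtain ⟨l, rfl⟩ := List.length_eq_one_iff.mp hw.1
    cases v with
    | nil =>
      simp at hv1
      omega
    | cons i v =>
      have hok := ok_of_Xw hv1.1 l _ (hX _ hvw)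
      refine ⟨by simpa using hv1.1, ?_, ?_, ok_shift hok⟩
      · intro x hx
        rcases List.mem_cons.mp hx with rfl | hx
        · have := (hv1.2 i (by simp)).1
          omega
        · exact (hv1.2 x (by simp [hx])).1
      · have h2 := size_shift i j v
        have h3 := size_concat_le (i :: v) l
        have h4 : size ((i + j) :: v) ≤ 2 ^ j * size ((i :: v) ++ [l]) :=
          h2.trans (Nat.mul_le_mul_left _ h3)
        have h5 : (size ((i + j) :: v) : ℝ) ≤ 2 ^ j * (size ((i :: v) ++ [l]) : ℝ) := by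
          exact_mod_cast h4
        refine h5.trans ?_
        exact mul_le_mul_of_nonneg_left (hB _ hvw) (by positivity)
  · intro v hv w hw h
    rw [mem_coe, hC', mem_filter, mem_words] at hv hw
    cases v with
    | nil =>
      have := hv.1.1
      simp at this
      omega
    | cons i v =>
      cases w with
      | nil =>
        have := hw.1.1
        simp at this
        omega
      | cons i' w =>
        simp only [List.cons.injEq, Nat.add_right_cancel_iff] at h
        rw [h.1, h.2]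

end Pool.Agent.Collatz3.Mix
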