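import Mathlib
import Pool.Agent.Collatz3.PDDefs
import Pool.Agent.Collatz3.VRead

set_option autoImplicit false

/-!
Positive density: readable words, end points, sums over residues.
-/

namespace Pool.Agent.Collatz3.PD

open Finset
open Pool.Agent.Collatz3.Mix (words mem_words sum_words_zero sum_words_succ sum_words_add
  cw_append' cw_inj)

theorem three_pow_dvd_of_mul {n s : ℕ} {t : ℤ} (h : (3 : ℤ) ^ n ∣ 2 ^ s * t) : (3 : ℤ) ^ n ∣ t := by
  have h1 : IsCoprime ((3 : ℤ) ^ n) (2 ^ s) := IsCoprime.pow (by norm_num)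
  exact h1.dvd_of_dvd_mul_left h

theorem en_spec {w : List ℕ} {x : ℤ} (h : rd w x) :
    3 ^ w.length * en w x = 2 ^ w.sum * x - cw w := by
  unfold rd at h
  unfold en
  rw [Int.mul_ediv_cancel' h]

theorem rd_nil (x : ℤ) : rd [] x := by simp [rd, cw]

theorem en_nil (x : ℤ) : en [] x = x := by simp [en, cw]

theorem append_key (v w : List ℕ) (x : ℤ) :
    (2 : ℤ) ^ (v ++ w).sum * x - cw (v ++ w) =
      2 ^ w.sum * (2 ^ v.sum * x - cw v) - 3 ^ v.length * cw w := by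
  rw [cw_append', List.sum_append, pow_add]
  push_cast
  ring

theorem rd_append {v w : List ℕ} {x : ℤ} : rd (v ++ w) x ↔ rd v x ∧ rd w (en v x) := by
  have key := append_key v w x
  constructor
  · intro h
    unfold rd at h
    rw [key, List.length_append, pow_add] at h
    have h1 : (3 : ℤ) ^ v.length ∣ 2 ^ w.sum * (2 ^ v.sum * x - cw v) := by
      have h2 : (3 : ℤ) ^ v.length ∣
          2 ^ w.sum * (2 ^ v.sum * x - cw v) - 3 ^ v.length * cw w :=
        dvd_trans (dvd_mul_right _ _) h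
      have h3 := dvd_add h2 (dvd_mul_right ((3 : ℤ) ^ v.length) (cw w : ℤ))
      rwa [sub_add_cancel] at h3
    have h2 : rd v x := three_pow_dvd_of_mul h1
    refine ⟨h2, ?_⟩
    have h3 := en_spec h2
    rw [← h3] at h
    have h4 : (2 : ℤ) ^ w.sum * (3 ^ v.length * en v x) - 3 ^ v.length * cw w =
        3 ^ v.length * (2 ^ w.sum * en v x - cw w) := by ring
    rw [h4] at h
    exact (mul_dvd_mul_iff_left (pow_ne_zero _ (by norm_num))).1 h
  · rintro ⟨h1, h2⟩
    have h3 := en_spec h1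
    unfold rd
    rw [key, ← h3, List.length_append, pow_add]
    have h4 : (2 : ℤ) ^ w.sum * (3 ^ v.length * en v x) - 3 ^ v.length * cw w =
        3 ^ v.length * (2 ^ w.sum * en v x - cw w) := by ring
    rw [h4]
    exact mul_dvd_mul_left _ h2

theorem en_append {v w : List ℕ} {x : ℤ} (h : rd v x) : en (v ++ w) x = en w (en v x) := by
  have key := append_key v w x
  have h3 := en_spec h
  have h4 : (2 : ℤ) ^ w.sum * (2 ^ v.sum * x - cw v) - 3 ^ v.length * cw w =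
      3 ^ v.length * (2 ^ w.sum * en v x - cw w) := by
    rw [← h3]
    ring
  have h5 : en (v ++ w) x = (2 ^ (v ++ w).sum * x - cw (v ++ w)) / 3 ^ (v ++ w).length := rfl
  have h6 : en w (en v x) = (2 ^ w.sum * en v x - cw w) / 3 ^ w.length := rfl
  rw [h5, h6, key, h4, List.length_append, pow_add, Int.mul_ediv_mul_of_pos _ _ (by positivity)]

theorem rd_add {w : List ℕ} {x t : ℤ} : rd w (x + 3 ^ w.length * t) ↔ rd w x := by
  unfold rd
  have h : (2 : ℤ) ^ w.sum * (x + 3 ^ w.length * t) - cw w =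
      (2 ^ w.sum * x - cw w) + 3 ^ w.length * (2 ^ w.sum * t) := by ring
  rw [h]
  exact dvd_add_left (dvd_mul_right _ _)

theorem en_add {w : List ℕ} {x t : ℤ} (h : rd w x) :
    en w (x + 3 ^ w.length * t) = en w x + 2 ^ w.sum * t := by
  have h1 := en_spec h
  have h2 := en_spec (rd_add (t := t).2 h)
  have h3 : (3 : ℤ) ^ w.length * en w (x + 3 ^ w.length * t) =
      3 ^ w.length * (en w x + 2 ^ w.sum * t) := by
    linear_combination h2 - h1
  exact mul_left_cancel₀ (pow_ne_zero _ (by norm_num)) h3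

/-- `f` is periodic modulo `3 ^ k`. -/
def Per (k : ℕ) (f : ℤ → ℝ) : Prop := ∀ x t : ℤ, f (x + 3 ^ k * t) = f x

theorem Per.mono {k l : ℕ} (h : k ≤ l) {f : ℤ → ℝ} (hf : Per k f) : Per l f := by
  intro x t
  obtain ⟨d, rfl⟩ := Nat.exists_eq_add_of_le h
  rw [pow_add, mul_assoc]
  exact hf _ _

theorem Per.emod {k : ℕ} {f : ℤ → ℝ} (hf : Per k f) (x : ℤ) : f (x % 3 ^ k) = f x := by
  conv_rhs => rw [← Int.emod_add_mul_ediv x (3 ^ k)]
  exact (hf _ _).symm

theorem Per.of_dvd {k : ℕ} {f : ℤ → ℝ} (hf : Per k f) {x y : ℤ} (h : (3 : ℤ) ^ k ∣ x - y) :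
    f x = f y := by
  obtain ⟨t, ht⟩ := h
  have : x = y + 3 ^ k * t := by linarith
  rw [this]
  exact hf _ _

/-- Sum over one period. -/
noncomputable def S (k : ℕ) (f : ℤ → ℝ) : ℝ := ∑ x ∈ range (3 ^ k), f (x : ℤ)

theorem S_nonneg {k : ℕ} {f : ℤ → ℝ} (h : ∀ x, 0 ≤ f x) : 0 ≤ S k f :=
  sum_nonneg fun _ _ => h _

theorem S_mono {k : ℕ} {f g : ℤ → ℝ} (h : ∀ x, f x ≤ g x) : S k f ≤ S k g :=
  sum_le_sum fun _ _ => h _

theorem S_add {k : ℕ} {f g : ℤ → ℝ} : S k (fun x => f x + g x) = S k f + S k g :=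
  sum_add_distrib

theorem S_mul {k : ℕ} {f : ℤ → ℝ} (c : ℝ) : S k (fun x => c * f x) = c * S k f :=
  (mul_sum _ _ _).symm

/-- The key change of variables: the end point map is a bijection on residues. -/
theorem S_en {v : List ℕ} {d l : ℕ} (hv : v.length = d) {f : ℤ → ℝ} (hf : Per l f) :
    S (d + l) (fun x => if rd v x then f (en v x) else 0) = S l f := by
  subst hv
  unfold S
  rw [← sum_filter]
  have hcop : IsCoprime ((2 : ℤ) ^ v.sum) (3 ^ (v.length + l)) := IsCoprime.pow (by norm_num)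
  obtain ⟨u, b, hub⟩ := hcop
  -- `u` is an inverse of `2 ^ S`
  have hpos : (0 : ℤ) < 3 ^ (v.length + l) := by positivity
  have hposl : (0 : ℤ) < 3 ^ l := by positivity
  have hpl : ((3 ^ l : ℕ) : ℤ) = 3 ^ l := by push_cast; rfl
  have hpM : ((3 ^ (v.length + l) : ℕ) : ℤ) = 3 ^ (v.length + l) := by push_cast; rfl
  -- the map from residues `y` to residues `x`
  have hx : ∀ y : ℕ, (3 : ℤ) ^ (v.length + l) ∣
      2 ^ v.sum * ((((cw v : ℤ) + 3 ^ v.length * y) * u) % 3 ^ (v.length + l)) -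
        (cw v + 3 ^ v.length * y) := by
    intro y
    have h1 : (3 : ℤ) ^ (v.length + l) ∣
        ((((cw v : ℤ) + 3 ^ v.length * y) * u) % 3 ^ (v.length + l)) -
        (((cw v : ℤ) + 3 ^ v.length * y) * u) := by
      rw [Int.emod_def]
      exact ⟨-((((cw v : ℤ) + 3 ^ v.length * y) * u) / 3 ^ (v.length + l)), by ring⟩
    obtain ⟨c, hc⟩ := h1
    have h2 : (((cw v : ℤ) + 3 ^ v.length * y) * u) % 3 ^ (v.length + l) =
        (((cw v : ℤ) + 3 ^ v.length * y) * u) + 3 ^ (v.length + l) * c := by linarith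
    rw [h2]
    refine ⟨2 ^ v.sum * c - (cw v + 3 ^ v.length * y) * b, ?_⟩
    linear_combination ((cw v : ℤ) + 3 ^ v.length * y) * hub
  have hrd : ∀ y : ℕ, rd v ((((cw v : ℤ) + 3 ^ v.length * y) * u) % 3 ^ (v.length + l)) := by
    intro y
    have h1 := hx y
    have h2 : (3 : ℤ) ^ v.length ∣
        2 ^ v.sum * ((((cw v : ℤ) + 3 ^ v.length * y) * u) % 3 ^ (v.length + l)) -
        (cw v + 3 ^ v.length * y) := dvd_trans (pow_dvd_pow 3 (Nat.le_add_right _ _)) h1
    unfold rd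
    have h3 := dvd_add h2 (dvd_mul_right ((3 : ℤ) ^ v.length) (y : ℤ))
    have h4 : 2 ^ v.sum * ((((cw v : ℤ) + 3 ^ v.length * y) * u) % 3 ^ (v.length + l)) -
        (cw v + 3 ^ v.length * y) + 3 ^ v.length * (y : ℤ) =
        2 ^ v.sum * ((((cw v : ℤ) + 3 ^ v.length * y) * u) % 3 ^ (v.length + l)) - cw v := by ring
    rwa [h4] at h3
  have hen : ∀ y : ℕ, (3 : ℤ) ^ l ∣
      en v ((((cw v : ℤ) + 3 ^ v.length * y) * u) % 3 ^ (v.length + l)) - y := by
    intro y
    have h1 := hx y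
    have h2 := en_spec (hrd y)
    rw [pow_add] at h1
    have h3 : 2 ^ v.sum * ((((cw v : ℤ) + 3 ^ v.length * y) * u) % 3 ^ (v.length + l)) -
        (cw v + 3 ^ v.length * y) =
        3 ^ v.length * (en v ((((cw v : ℤ) + 3 ^ v.length * y) * u) % 3 ^ (v.length + l)) - y) := by
      rw [mul_sub, h2]
      ring
    rw [pow_add] at h3
    rw [h3] at h1
    have h4 := (mul_dvd_mul_iff_left (pow_ne_zero v.length (by norm_num : (3 : ℤ) ≠ 0))).1 h1
    rwa [pow_add]
  refine sum_nbij' (fun x => (en v (x : ℤ) % 3 ^ l).toNat)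
    (fun y => ((((cw v : ℤ) + 3 ^ v.length * y) * u) % 3 ^ (v.length + l)).toNat) ?_ ?_ ?_ ?_ ?_
  · intro x _
    rw [mem_range]
    have h1 := Int.emod_nonneg (en v (x : ℤ)) hposl.ne'
    have h2 := Int.emod_lt_of_pos (en v (x : ℤ)) hposl
    omega
  · intro y hy
    rw [mem_filter, mem_range]
    have h1 := Int.emod_nonneg (((cw v : ℤ) + 3 ^ v.length * y) * u) hpos.ne'
    have h2 := Int.emod_lt_of_pos (((cw v : ℤ) + 3 ^ v.length * y) * u) hpos
    refine ⟨by omega, ?_⟩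
    rw [Int.toNat_of_nonneg h1]
    exact hrd y
  · intro x hx'
    rw [mem_filter, mem_range] at hx'
    obtain ⟨hx1, hx2⟩ := hx'
    -- both solve `2 ^ S x = cw + 3 ^ d y` modulo `3 ^ (d + l)`
    have h1 := Int.emod_nonneg (en v (x : ℤ)) hposl.ne'
    have hy : (((en v (x : ℤ) % 3 ^ l).toNat : ℕ) : ℤ) = en v (x : ℤ) % 3 ^ l :=
      Int.toNat_of_nonneg h1
    have h2 := hx ((en v (x : ℤ) % 3 ^ l).toNat)
    rw [hy] at h2 ⊢
    have h3 := en_spec hx2
    have h4 : (3 : ℤ) ^ (v.length + l) ∣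
        2 ^ v.sum * (x : ℤ) - (cw v + 3 ^ v.length * (en v (x : ℤ) % 3 ^ l)) := by
      rw [Int.emod_def, pow_add]
      refine ⟨en v (x : ℤ) / 3 ^ l, ?_⟩
      linear_combination -h3
    have h5 := dvd_sub h2 h4
    have h6 : 2 ^ v.sum * ((((cw v : ℤ) + 3 ^ v.length * (en v (x : ℤ) % 3 ^ l)) * u) %
          3 ^ (v.length + l)) - (cw v + 3 ^ v.length * (en v (x : ℤ) % 3 ^ l)) -
        (2 ^ v.sum * (x : ℤ) - (cw v + 3 ^ v.length * (en v (x : ℤ) % 3 ^ l))) =
        2 ^ v.sum * (((((cw v : ℤ) + 3 ^ v.length * (en v (x : ℤ) % 3 ^ l)) * u) %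
          3 ^ (v.length + l)) - x) := by ring
    rw [h6] at h5
    have h7 := three_pow_dvd_of_mul h5
    have h8 := Int.emod_nonneg (((cw v : ℤ) + 3 ^ v.length * (en v (x : ℤ) % 3 ^ l)) * u) hpos.ne'
    have h9 := Int.emod_lt_of_pos (((cw v : ℤ) + 3 ^ v.length * (en v (x : ℤ) % 3 ^ l)) * u) hpos
    have h10 : ((((cw v : ℤ) + 3 ^ v.length * (en v (x : ℤ) % 3 ^ l)) * u) %
          3 ^ (v.length + l)) - x = 0 := by
      apply Int.eq_zero_of_abs_lt_dvd h7
      rw [abs_lt]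
      constructor <;> omega
    omega
  · intro y hy
    rw [mem_range] at hy
    have h1 := Int.emod_nonneg (((cw v : ℤ) + 3 ^ v.length * y) * u) hpos.ne'
    have h2 := hen y
    rw [Int.toNat_of_nonneg h1]
    have h3 := Int.emod_nonneg (en v ((((cw v : ℤ) + 3 ^ v.length * y) * u) %
      3 ^ (v.length + l))) hposl.ne'
    have h5 : en v ((((cw v : ℤ) + 3 ^ v.length * y) * u) % 3 ^ (v.length + l)) % 3 ^ l =
        (y : ℤ) % 3 ^ l := (Int.modEq_iff_dvd.2 h2).symm
    rw [h5, Int.emod_eq_of_lt (by omega) (by omega)]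
    simp
  · intro x hx'
    have h1 := Int.emod_nonneg (en v (x : ℤ)) hposl.ne'
    rw [Int.toNat_of_nonneg h1, hf.emod]

end Pool.Agent.Collatz3.PD
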