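import Mathlib
import Pool.Agent.Collatz3.PDWords

set_option autoImplicit false

/-!
Positive density: weighted sums over the words readable at an integer, and the counting lemma.
-/

namespace Pool.Agent.Collatz3.PD

open Finset
open Pool.Agent.Collatz3.Mix (words mem_words sum_words_zero sum_words_succ sum_words_add
  cw_append' cw_inj)

/-- Weighted sum of `f` over the end points of the words of `G` readable at `x`. -/
noncomputable def E (G : Finset (List ℕ)) (f : ℤ → ℝ) (x : ℤ) : ℝ :=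
  ∑ w ∈ G.filter (fun w => rd w x), 3 ^ w.length * (1 / 2 : ℝ) ^ w.sum * f (en w x)

/-- Total weight. -/
noncomputable def P (G : Finset (List ℕ)) : ℝ := ∑ w ∈ G, (1 / 2 : ℝ) ^ w.sum

/-- Mean over residues modulo `3 ^ k`. -/
noncomputable def A (k : ℕ) (f : ℤ → ℝ) : ℝ := S k f / 3 ^ k

/-- Concatenations. -/
def cat (G V : Finset (List ℕ)) : Finset (List ℕ) := (G ×ˢ V).image fun p => p.1 ++ p.2

theorem P_nonneg (G : Finset (List ℕ)) : 0 ≤ P G := sum_nonneg fun _ _ => by positivity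

theorem P_mono {G G' : Finset (List ℕ)} (h : G ⊆ G') : P G ≤ P G' :=
  sum_le_sum_of_subset_of_nonneg h fun _ _ _ => by positivity

theorem E_eq (G : Finset (List ℕ)) (f : ℤ → ℝ) (x : ℤ) : E G f x =
    ∑ w ∈ G, 3 ^ w.length * (1 / 2 : ℝ) ^ w.sum * (if rd w x then f (en w x) else 0) := by
  unfold E
  rw [sum_filter]
  apply sum_congr rfl
  intro w _
  split_ifs <;> simp

theorem E_nonneg (G : Finset (List ℕ)) {f : ℤ → ℝ} (hf : ∀ x, 0 ≤ f x) (x : ℤ) : 0 ≤ E G f x :=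
  sum_nonneg fun _ _ => mul_nonneg (by positivity) (hf _)

theorem E_mono (G : Finset (List ℕ)) {f g : ℤ → ℝ} (h : ∀ x, f x ≤ g x) (x : ℤ) :
    E G f x ≤ E G g x :=
  sum_le_sum fun _ _ => mul_le_mul_of_nonneg_left (h _) (by positivity)

theorem E_mono_set {G G' : Finset (List ℕ)} (h : G ⊆ G') {f : ℤ → ℝ} (hf : ∀ x, 0 ≤ f x) (x : ℤ) :
    E G f x ≤ E G' f x :=
  sum_le_sum_of_subset_of_nonneg (filter_subset_filter _ h)
    fun _ _ _ => mul_nonneg (by positivity) (hf _)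

theorem E_add (G : Finset (List ℕ)) (f g : ℤ → ℝ) (x : ℤ) :
    E G (fun y => f y + g y) x = E G f x + E G g x := by
  unfold E
  rw [← sum_add_distrib]
  exact sum_congr rfl fun _ _ => by ring

theorem E_sub (G : Finset (List ℕ)) (f g : ℤ → ℝ) (x : ℤ) :
    E G (fun y => f y - g y) x = E G f x - E G g x := by
  unfold E
  rw [← sum_sub_distrib]
  exact sum_congr rfl fun _ _ => by ring

theorem E_smul (G : Finset (List ℕ)) (c : ℝ) (f : ℤ → ℝ) (x : ℤ) :
    E G (fun y => c * f y) x = c * E G f x := by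
  unfold E
  rw [mul_sum]
  exact sum_congr rfl fun _ _ => by ring

theorem E_filter_add (G : Finset (List ℕ)) (p : List ℕ → Prop) [DecidablePred p] (f : ℤ → ℝ)
    (x : ℤ) : E (G.filter p) f x + E (G.filter fun w => ¬ p w) f x = E G f x := by
  rw [E_eq, E_eq, E_eq]
  exact sum_filter_add_sum_filter_not G p _

theorem sum_cat {N : ℕ} {G V : Finset (List ℕ)} (hG : ∀ w ∈ G, w.length = N) (f : List ℕ → ℝ) :
    ∑ w ∈ cat G V, f w = ∑ u ∈ G, ∑ v ∈ V, f (u ++ v) := by
  rw [cat, sum_image, sum_product]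
  rintro ⟨u, v⟩ huv ⟨u', v'⟩ huv' h
  rw [mem_coe, mem_product] at huv huv'
  have h1 : u.length = u'.length := by rw [hG _ huv.1, hG _ huv'.1]
  obtain ⟨e1, e2⟩ := List.append_inj h h1
  simp only at e1 e2
  rw [e1, e2]

theorem P_cat {N : ℕ} {G V : Finset (List ℕ)} (hG : ∀ w ∈ G, w.length = N) :
    P (cat G V) = P G * P V := by
  unfold P
  rw [sum_cat hG, sum_mul_sum]
  apply sum_congr rfl
  intro u _
  apply sum_congr rfl
  intro v _
  rw [List.sum_append, pow_add]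

theorem E_cat {N : ℕ} {G V : Finset (List ℕ)} (hG : ∀ w ∈ G, w.length = N) (f : ℤ → ℝ) (x : ℤ) :
    E (cat G V) f x = E G (E V f) x := by
  rw [E_eq, sum_cat hG, E_eq]
  apply sum_congr rfl
  intro u _
  by_cases hu : rd u x
  · rw [if_pos hu, E_eq, mul_sum]
    apply sum_congr rfl
    intro v _
    rw [List.length_append, List.sum_append, pow_add, pow_add]
    by_cases hv : rd v (en u x)
    · rw [if_pos (rd_append.2 ⟨hu, hv⟩), if_pos hv, en_append hu]
      ring
    · rw [if_neg (fun h => hv (rd_append.1 h).2), if_neg hv]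
      ring
  · rw [if_neg hu, mul_zero]
    apply sum_eq_zero
    intro v _
    rw [if_neg (fun h => hu (rd_append.1 h).1), mul_zero]

theorem words_length {I k : ℕ} {w : List ℕ} (h : w ∈ words I k) : w.length = k :=
  (mem_words.1 h).1

theorem words_add (I d l : ℕ) : words I (d + l) = cat (words I d) (words I l) := by
  ext w
  rw [cat, mem_image]
  constructor
  · intro h
    rw [mem_words] at h
    refine ⟨(w.take d, w.drop d), ?_, List.take_append_drop d w⟩
    rw [mem_product]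
    refine ⟨mem_words.2 ⟨by rw [List.length_take]; omega, fun i hi => h.2 i (List.mem_of_mem_take hi)⟩,
      mem_words.2 ⟨by rw [List.length_drop]; omega, fun i hi => h.2 i (List.mem_of_mem_drop hi)⟩⟩
  · rintro ⟨⟨u, v⟩, h, rfl⟩
    rw [mem_product, mem_words, mem_words] at h
    obtain ⟨⟨h1, h2⟩, h3, h4⟩ := h
    refine mem_words.2 ⟨by rw [List.length_append, h1, h3], fun i hi => ?_⟩
    rcases List.mem_append.1 hi with h | h
    · exact h2 i h
    · exact h4 i h

theorem E_words_add (I d l : ℕ) (f : ℤ → ℝ) (x : ℤ) :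
    E (words I (d + l)) f x = E (words I d) (E (words I l) f) x := by
  rw [words_add, E_cat fun w h => words_length h]

/-- The density as `E`. -/
theorem U_eq (I k : ℕ) (x : ℤ) : U I k x = E (words I k) (fun _ => 1) x := by
  unfold U E
  apply sum_congr rfl
  intro w hw
  rw [words_length (mem_filter.1 hw).1, mul_one]

theorem U_nonneg (I k : ℕ) (x : ℤ) : 0 ≤ U I k x := by
  rw [U_eq]
  exact E_nonneg _ (fun _ => zero_le_one) x

theorem U_add (I d l : ℕ) (x : ℤ) : U I (d + l) x = E (words I d) (U I l) x := by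
  rw [U_eq, E_words_add]
  congr 1
  funext y
  rw [U_eq]

theorem words_mono {I I' : ℕ} (h : I ≤ I') (k : ℕ) : words I k ⊆ words I' k := by
  intro w hw
  rw [mem_words] at hw ⊢
  exact ⟨hw.1, fun i hi => ⟨(hw.2 i hi).1, (hw.2 i hi).2.trans h⟩⟩

theorem U_mono {I I' : ℕ} (h : I ≤ I') (k : ℕ) (x : ℤ) : U I k x ≤ U I' k x := by
  rw [U_eq, U_eq]
  exact E_mono_set (words_mono h k) (fun _ => zero_le_one) x

theorem per_E {N l : ℕ} {G : Finset (List ℕ)} (hG : ∀ w ∈ G, w.length = N) {f : ℤ → ℝ}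
    (hf : Per l f) : Per (N + l) (E G f) := by
  intro x t
  rw [E_eq, E_eq]
  apply sum_congr rfl
  intro w hw
  have e : x + 3 ^ (N + l) * t = x + 3 ^ w.length * (3 ^ l * t) := by
    rw [hG w hw, pow_add, mul_assoc]
  rw [e]
  by_cases h : rd w x
  · rw [if_pos (rd_add.2 h), if_pos h, en_add h]
    congr 1
    have e2 : en w x + 2 ^ w.sum * (3 ^ l * t) = en w x + 3 ^ l * (2 ^ w.sum * t) := by ring
    rw [e2]
    exact hf _ _
  · rw [if_neg (fun h' => h (rd_add.1 h')), if_neg h]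

theorem S_E {N l : ℕ} {G : Finset (List ℕ)} (hG : ∀ w ∈ G, w.length = N) {f : ℤ → ℝ}
    (hf : Per l f) : S (N + l) (E G f) = 3 ^ N * P G * S l f := by
  have h1 : S (N + l) (E G f) = ∑ w ∈ G, 3 ^ w.length * (1 / 2 : ℝ) ^ w.sum *
      S (N + l) (fun x => if rd w x then f (en w x) else 0) := by
    unfold S
    simp only [E_eq, mul_sum]
    rw [sum_comm]
  rw [h1]
  have h2 : ∀ w ∈ G, 3 ^ w.length * (1 / 2 : ℝ) ^ w.sum *
      S (N + l) (fun x => if rd w x then f (en w x) else 0) =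
      (1 / 2 : ℝ) ^ w.sum * (3 ^ N * S l f) := by
    intro w hw
    rw [S_en (hG w hw) hf, hG w hw]
    ring
  rw [sum_congr rfl h2, ← sum_mul, P]
  ring

theorem A_E {N l : ℕ} {G : Finset (List ℕ)} (hG : ∀ w ∈ G, w.length = N) {f : ℤ → ℝ}
    (hf : Per l f) : A (N + l) (E G f) = P G * A l f := by
  unfold A
  rw [S_E hG hf, pow_add]
  field_simp

theorem per_one : Per 0 (fun _ => (1 : ℝ)) := fun _ _ => rfl

theorem A_one : A 0 (fun _ => (1 : ℝ)) = 1 := by simp [A, S]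

theorem A_nonneg {k : ℕ} {f : ℤ → ℝ} (h : ∀ x, 0 ≤ f x) : 0 ≤ A k f :=
  div_nonneg (S_nonneg h) (by positivity)

theorem A_add {k : ℕ} {f g : ℤ → ℝ} : A k (fun x => f x + g x) = A k f + A k g := by
  unfold A
  rw [S_add, add_div]

theorem A_mul {k : ℕ} {f : ℤ → ℝ} (c : ℝ) : A k (fun x => c * f x) = c * A k f := by
  unfold A
  rw [S_mul, mul_div_assoc]

theorem A_mono {k : ℕ} {f g : ℤ → ℝ} (h : ∀ x, f x ≤ g x) : A k f ≤ A k g :=
  div_le_div_of_nonneg_right (S_mono h) (by positivity)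

theorem per_U (I k : ℕ) : Per k (U I k) := by
  have h := per_E (G := words I k) (fun w h => words_length h) per_one
  intro x t
  rw [U_eq, U_eq]
  exact h x t

/-- `1 - 2 ^ (-I)`. -/
noncomputable def Z (I : ℕ) : ℝ := ∑ i ∈ Icc 1 I, (1 / 2 : ℝ) ^ i

theorem Z_eq (I : ℕ) : Z I = 1 - (1 / 2 : ℝ) ^ I := by
  unfold Z
  induction I with
  | zero => simp
  | succ I ih =>
    rw [sum_Icc_succ_top (by omega), ih, pow_succ]
    ring

theorem Z_nonneg (I : ℕ) : 0 ≤ Z I := sum_nonneg fun _ _ => by positivity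

theorem Z_le_one (I : ℕ) : Z I ≤ 1 := by
  rw [Z_eq]
  have : (0 : ℝ) ≤ (1 / 2) ^ I := by positivity
  linarith

theorem one_sub_Z_pow (I k : ℕ) : 1 - Z I ^ k ≤ k * (1 / 2 : ℝ) ^ I := by
  have h := one_add_mul_le_pow (a := -(1 / 2 : ℝ) ^ I) (by
    have : ((1 : ℝ) / 2) ^ I ≤ 1 := pow_le_one₀ (by norm_num) (by norm_num)
    linarith) k
  rw [Z_eq]
  have e : 1 + -(1 / 2 : ℝ) ^ I = 1 - (1 / 2 : ℝ) ^ I := by ring
  rw [e] at h
  linarith

theorem P_words (I k : ℕ) : P (words I k) = Z I ^ k := by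
  induction k with
  | zero => simp [P, sum_words_zero]
  | succ k ih =>
    unfold P at ih ⊢
    rw [sum_words_succ, pow_succ', ← ih, Z, sum_mul]
    apply sum_congr rfl
    intro i _
    rw [mul_sum]
    apply sum_congr rfl
    intro w _
    rw [List.sum_cons, pow_add]

theorem A_U (I k : ℕ) : A k (U I k) = Z I ^ k := by
  have h := A_E (G := words I k) (fun w h => words_length h) per_one
  rw [Nat.add_zero, A_one, mul_one, P_words] at h
  rw [← h]
  congr 1
  funext x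
  exact U_eq I k x

/-! ### The counting lemma -/

theorem shift_sum {k : ℕ} {g : ℤ → ℝ} (hg : Per k g) (c : ℤ) :
    ∑ j ∈ range (3 ^ k), g (c + j) = S k g := by
  have step : ∀ c : ℤ, ∑ j ∈ range (3 ^ k), g (c + 1 + j) = ∑ j ∈ range (3 ^ k), g (c + j) := by
    intro c
    have h1 := sum_range_succ (fun j : ℕ => g (c + j)) (3 ^ k)
    have h2 := sum_range_succ' (fun j : ℕ => g (c + j)) (3 ^ k)
    rw [h1] at h2
    have h3 : g (c + ((3 ^ k : ℕ) : ℤ)) = g c := by
      have := hg c 1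
      rw [mul_one] at this
      push_cast
      exact this
    have h4 : ∑ j ∈ range (3 ^ k), g (c + ((j + 1 : ℕ) : ℤ)) =
        ∑ j ∈ range (3 ^ k), g (c + 1 + j) := by
      apply sum_congr rfl
      intro j _
      congr 1
      push_cast
      ring
    rw [h3, h4] at h2
    simp only [Nat.cast_zero, add_zero] at h2
    linarith
  induction c using Int.induction_on with
  | zero => simp [S]
  | succ i ih => rw [step, ih]
  | pred i ih =>
    rw [← ih, ← step (-(i : ℤ) - 1)]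
    apply sum_congr rfl
    intro j _
    congr 1
    ring

theorem shift_sum_mul {k : ℕ} {g : ℤ → ℝ} (hg : Per k g) (c : ℤ) (R : ℕ) :
    ∑ j ∈ range (R * 3 ^ k), g (c + j) = R * S k g := by
  induction R with
  | zero => simp
  | succ R ih =>
    rw [Nat.succ_mul, sum_range_add, ih]
    have h : ∑ j ∈ range (3 ^ k), g (c + ((R * 3 ^ k + j : ℕ) : ℤ)) = S k g := by
      rw [← shift_sum hg (c + ((R * 3 ^ k : ℕ) : ℤ))]
      apply sum_congr rfl
      intro j _
      congr 1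
      push_cast
      ring
    rw [h]
    push_cast
    ring

/-- The counting lemma for words with a given sum. -/
theorem count_sum {N s k : ℕ} {K : ℝ} (hK : 0 ≤ K) {a : ℤ} {G : Finset (List ℕ)}
    (hlen : ∀ w ∈ G, w.length = N) (hpos : ∀ w ∈ G, ∀ i ∈ w, 1 ≤ i) (hsum : ∀ w ∈ G, w.sum = s)
    (hcw : ∀ w ∈ G, (cw w : ℝ) ≤ K * 2 ^ s) (hrd : ∀ w ∈ G, rd w a)
    {g : ℤ → ℝ} (hg : Per k g) (hg0 : ∀ x, 0 ≤ g x) (hs : (3 : ℝ) ^ (N + k) ≤ 2 ^ s) :
    ∑ w ∈ G, g (en w a) ≤ (K + 1) * 2 ^ s / 3 ^ (N + k) * S k g := by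
  -- the interval
  obtain ⟨hi, hhi⟩ : ∃ hi : ℤ, hi = 2 ^ s * a / 3 ^ N := ⟨_, rfl⟩
  obtain ⟨L, hL⟩ : ∃ L : ℕ, L = ⌊K * 2 ^ s / 3 ^ N⌋₊ := ⟨_, rfl⟩
  obtain ⟨R, hR⟩ : ∃ R : ℕ, R = L / 3 ^ k + 1 := ⟨_, rfl⟩
  obtain ⟨c, hc⟩ : ∃ c : ℤ, c = hi - L := ⟨_, rfl⟩
  have h3N : (0 : ℤ) < 3 ^ N := by positivity
  have hbd : ∀ w ∈ G, c ≤ en w a ∧ en w a ≤ hi := by
    intro w hw
    have h1 := en_spec (hrd w hw)
    rw [hlen w hw, hsum w hw] at h1
    have hle : en w a ≤ hi := by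
      rw [hhi, Int.le_ediv_iff_mul_le h3N]
      have : (0 : ℤ) ≤ cw w := Int.natCast_nonneg _
      linarith
    refine ⟨?_, hle⟩
    -- hi - en ≤ cw / 3 ^ N
    have h2 : 3 ^ N * hi ≤ 2 ^ s * a := by
      rw [hhi]
      exact Int.mul_ediv_self_le h3N.ne'
    have h3 : 3 ^ N * (hi - en w a) ≤ cw w := by
      rw [mul_sub]
      linarith
    have h4 : (3 : ℝ) ^ N * ((hi - en w a : ℤ) : ℝ) ≤ K * 2 ^ s := by
      refine le_trans ?_ (hcw w hw)
      exact_mod_cast h3
    have h5 : (((hi - en w a).toNat : ℕ) : ℝ) = ((hi - en w a : ℤ) : ℝ) := by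
      have : (((hi - en w a).toNat : ℕ) : ℤ) = hi - en w a := Int.toNat_of_nonneg (by omega)
      exact_mod_cast this
    have h6 : (hi - en w a).toNat ≤ L := by
      rw [hL]
      apply Nat.le_floor
      rw [h5, le_div_iff₀ (by positivity)]
      linarith
    rw [hc]
    omega
  have hinj : Set.InjOn (fun w => (en w a - c).toNat) (G : Set (List ℕ)) := by
    intro w hw w' hw' h
    rw [mem_coe] at hw hw'
    simp only at h
    have e1 := hbd w hw
    have e2 := hbd w' hw'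
    have e3 : en w a = en w' a := by omega
    have h1 := en_spec (hrd w hw)
    have h2 := en_spec (hrd w' hw')
    rw [hlen w hw, hsum w hw] at h1
    rw [hlen w' hw', hsum w' hw', ← e3] at h2
    have h3 : (cw w : ℤ) = cw w' := by linarith
    exact cw_inj (hlen w hw) (hlen w' hw') (hpos w hw) (hpos w' hw')
      ((hsum w hw).trans (hsum w' hw').symm) (by exact_mod_cast h3)
  have h1 : ∑ w ∈ G, g (en w a) = ∑ j ∈ G.image (fun w => (en w a - c).toNat), g (c + j) := by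
    rw [sum_image hinj]
    apply sum_congr rfl
    intro w hw
    have e1 := hbd w hw
    congr 1
    omega
  have hsub : G.image (fun w => (en w a - c).toNat) ⊆ range (R * 3 ^ k) := by
    intro j hj
    rw [mem_image] at hj
    obtain ⟨w, hw, rfl⟩ := hj
    rw [mem_range]
    have e1 := hbd w hw
    have e2 : L < R * 3 ^ k := by
      rw [hR, Nat.add_mul, Nat.one_mul]
      have := Nat.lt_div_mul_add (a := L) (b := 3 ^ k) (by positivity)
      exact this
    omega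
  have h2 : ∑ w ∈ G, g (en w a) ≤ R * S k g := by
    rw [h1, ← shift_sum_mul hg c R]
    exact sum_le_sum_of_subset_of_nonneg hsub fun _ _ _ => hg0 _
  refine h2.trans ?_
  apply mul_le_mul_of_nonneg_right _ (S_nonneg hg0)
  have h3 : (R : ℝ) ≤ K * 2 ^ s / 3 ^ N / 3 ^ k + 1 := by
    rw [hR]
    push_cast
    have e1 : ((L / 3 ^ k : ℕ) : ℝ) ≤ (L : ℝ) / ((3 ^ k : ℕ) : ℝ) := Nat.cast_div_le
    have e2 : (L : ℝ) ≤ K * 2 ^ s / 3 ^ N := by
      rw [hL]
      exact Nat.floor_le (by positivity)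
    have e3 : (L : ℝ) / ((3 ^ k : ℕ) : ℝ) ≤ K * 2 ^ s / 3 ^ N / 3 ^ k := by
      push_cast
      exact div_le_div_of_nonneg_right e2 (by positivity)
    linarith
  refine h3.trans ?_
  rw [div_div, ← pow_add, add_mul, add_div, one_mul]
  have h4 : (1 : ℝ) ≤ 2 ^ s / 3 ^ (N + k) := by
    rw [one_le_div (by positivity)]
    exact hs
  linarith

/-- The counting lemma with a function depending on the sum. -/
theorem count_all' {N s₁ s₂ k : ℕ} {K δ : ℝ} (hK : 0 ≤ K) (a : ℤ) {G : Finset (List ℕ)}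
    (hlen : ∀ w ∈ G, w.length = N) (hpos : ∀ w ∈ G, ∀ i ∈ w, 1 ≤ i) (h₁ : ∀ w ∈ G, s₁ ≤ w.sum)
    (h₂ : ∀ w ∈ G, w.sum ≤ s₂) (hcw : ∀ w ∈ G, (cw w : ℝ) ≤ K * 2 ^ w.sum)
    {g : ℕ → ℤ → ℝ} (hg : ∀ s, Per k (g s)) (hg0 : ∀ s x, 0 ≤ g s x)
    (hδ : ∀ s, s₁ ≤ s → s ≤ s₂ → A k (g s) ≤ δ) (hs : (3 : ℝ) ^ (N + k) ≤ 2 ^ s₁) :
    ∑ w ∈ G.filter (fun w => rd w a), 3 ^ w.length * (1 / 2 : ℝ) ^ w.sum * g w.sum (en w a) ≤
      ((s₂ + 1 - s₁ : ℕ) : ℝ) * ((K + 1) * δ) := by
  rw [← sum_fiberwise_of_maps_to (s := G.filter fun w => rd w a) (t := Icc s₁ s₂)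
    (g := fun w => w.sum) (fun w hw => by
      rw [mem_filter] at hw
      exact mem_Icc.2 ⟨h₁ w hw.1, h₂ w hw.1⟩)]
  have h : ∀ s ∈ Icc s₁ s₂, ∑ w ∈ (G.filter fun w => rd w a).filter (fun w => w.sum = s),
      3 ^ w.length * (1 / 2 : ℝ) ^ w.sum * g w.sum (en w a) ≤ (K + 1) * δ := by
    intro s hs'
    rw [mem_Icc] at hs'
    have e1 : ∑ w ∈ (G.filter fun w => rd w a).filter (fun w => w.sum = s),
        3 ^ w.length * (1 / 2 : ℝ) ^ w.sum * g w.sum (en w a) = 3 ^ N * (1 / 2 : ℝ) ^ s *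
        ∑ w ∈ (G.filter fun w => rd w a).filter (fun w => w.sum = s), g s (en w a) := by
      rw [mul_sum]
      apply sum_congr rfl
      intro w hw
      rw [mem_filter, mem_filter] at hw
      rw [hlen w hw.1.1, hw.2]
    rw [e1]
    have e2 := count_sum hK (G := (G.filter fun w => rd w a).filter (fun w => w.sum = s))
      (N := N) (s := s) (a := a)
      (fun w hw => hlen w (mem_filter.1 (mem_filter.1 hw).1).1)
      (fun w hw => hpos w (mem_filter.1 (mem_filter.1 hw).1).1)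
      (fun w hw => (mem_filter.1 hw).2)
      (fun w hw => by
        have := hcw w (mem_filter.1 (mem_filter.1 hw).1).1
        rwa [(mem_filter.1 hw).2] at this)
      (fun w hw => (mem_filter.1 (mem_filter.1 hw).1).2) (hg s) (hg0 s)
      (hs.trans (pow_le_pow_right₀ (by norm_num) hs'.1))
    have e3 : 3 ^ N * (1 / 2 : ℝ) ^ s * ((K + 1) * 2 ^ s / 3 ^ (N + k) * S k (g s)) =
        (K + 1) * A k (g s) := by
      unfold A
      rw [pow_add, one_div, inv_pow]
      field_simp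
    refine (mul_le_mul_of_nonneg_left e2 (by positivity)).trans ?_
    rw [e3]
    exact mul_le_mul_of_nonneg_left (hδ s hs'.1 hs'.2) (by linarith)
  refine (sum_le_sum h).trans (le_of_eq ?_)
  rw [sum_const, Nat.card_Icc, nsmul_eq_mul]

/-- The counting lemma. -/
theorem count_all {N s₁ s₂ k : ℕ} {K : ℝ} (hK : 0 ≤ K) (a : ℤ) {G : Finset (List ℕ)}
    (hlen : ∀ w ∈ G, w.length = N) (hpos : ∀ w ∈ G, ∀ i ∈ w, 1 ≤ i) (h₁ : ∀ w ∈ G, s₁ ≤ w.sum)
    (h₂ : ∀ w ∈ G, w.sum ≤ s₂) (hcw : ∀ w ∈ G, (cw w : ℝ) ≤ K * 2 ^ w.sum)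
    {g : ℤ → ℝ} (hg : Per k g) (hg0 : ∀ x, 0 ≤ g x) (hs : (3 : ℝ) ^ (N + k) ≤ 2 ^ s₁) :
    E G g a ≤ ((s₂ + 1 - s₁ : ℕ) : ℝ) * (K + 1) * A k g := by
  unfold E
  rw [← sum_fiberwise_of_maps_to (s := G.filter fun w => rd w a) (t := Icc s₁ s₂)
    (g := fun w => w.sum) (fun w hw => by
      rw [mem_filter] at hw
      exact mem_Icc.2 ⟨h₁ w hw.1, h₂ w hw.1⟩)]
  have h : ∀ s ∈ Icc s₁ s₂, ∑ w ∈ (G.filter fun w => rd w a).filter (fun w => w.sum = s),
      3 ^ w.length * (1 / 2 : ℝ) ^ w.sum * g (en w a) ≤ (K + 1) * A k g := by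
    intro s hs'
    rw [mem_Icc] at hs'
    have e1 : ∑ w ∈ (G.filter fun w => rd w a).filter (fun w => w.sum = s),
        3 ^ w.length * (1 / 2 : ℝ) ^ w.sum * g (en w a) = 3 ^ N * (1 / 2 : ℝ) ^ s *
        ∑ w ∈ (G.filter fun w => rd w a).filter (fun w => w.sum = s), g (en w a) := by
      rw [mul_sum]
      apply sum_congr rfl
      intro w hw
      rw [mem_filter, mem_filter] at hw
      rw [hlen w hw.1.1, hw.2]
    rw [e1]
    have e2 := count_sum hK (G := (G.filter fun w => rd w a).filter (fun w => w.sum = s))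
      (N := N) (s := s) (a := a)
      (fun w hw => hlen w (mem_filter.1 (mem_filter.1 hw).1).1)
      (fun w hw => hpos w (mem_filter.1 (mem_filter.1 hw).1).1)
      (fun w hw => (mem_filter.1 hw).2)
      (fun w hw => by
        have := hcw w (mem_filter.1 (mem_filter.1 hw).1).1
        rwa [(mem_filter.1 hw).2] at this)
      (fun w hw => (mem_filter.1 (mem_filter.1 hw).1).2) hg hg0
      (hs.trans (pow_le_pow_right₀ (by norm_num) hs'.1))
    refine (mul_le_mul_of_nonneg_left e2 (by positivity)).trans (le_of_eq ?_)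
    unfold A
    rw [pow_add, one_div, inv_pow]
    field_simp
  refine (sum_le_sum h).trans (le_of_eq ?_)
  rw [sum_const, Nat.card_Icc, nsmul_eq_mul]
  ring

end Pool.Agent.Collatz3.PD
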