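import Mathlib
import Pool.Agent.Collatz3.PDTree
import Pool.Agent.Helper14.FatouDefs

set_option autoImplicit false

/-!
Natural density of invariant sets: definitions and the statements of the parts.
-/

namespace Pool.Agent.Collatz3.DN

open Finset Filter Topology
open Pool.Agent.Collatz3.Mix (words)
open Pool.Agent.Collatz3.PD
open Pool.Agent.Helper14 (T)

open Classical in
/-- The sum of `1 / n` over the odd `n` in `(x, y]` with `σ * n ∈ A`. -/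
noncomputable def LS (σ : ℤ) (A : Set ℤ) (x y : ℝ) : ℝ :=
  ∑ n ∈ (range (⌊y⌋₊ + 1)).filter (fun n : ℕ => x < n ∧ Odd n ∧ σ * (n : ℤ) ∈ A), 1 / (n : ℝ)

/-- `A` is invariant outside `[-C, C]`. -/
def EvInv (C : ℕ) (A : Set ℤ) : Prop := ∀ n : ℤ, (C : ℤ) < |n| → (T n ∈ A ↔ n ∈ A)

/-- [M] (main part, helper27) -/
def WindowLower : Prop :=
  ∀ (σ : ℤ), |σ| = 1 → ∀ (C : ℕ) (ε : ℝ), 0 < ε → ∃ (K : ℕ) (F : Finset ℤ) (κ : ℤ → ℝ) (X₀ : ℝ),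
    1 ≤ K ∧ (1 - ε) * (K * Real.log 2 / 2) ≤ ∑ c ∈ F, κ c ∧ (∀ c ∈ F, 0 ≤ κ c) ∧
    ∀ A : Set ℤ, EvInv C A → ∀ X : ℝ, X₀ ≤ X →
      (open Classical in ∑ c ∈ F.filter (fun c => c ∈ A), κ c) ≤ LS σ A X (2 ^ K * X)

/-- [AV1] (helper75) averages of periodic functions over the odd integers of a window -/
def AvgLower : Prop :=
  ∀ (M : ℕ) (g : ℤ → ℝ), Per M g → (∀ x, 0 ≤ g x) → ∀ (Kc : ℝ), 0 ≤ Kc → ∀ ε : ℝ, 0 < ε →
    ∃ i₁ : ℕ, ∀ i₀ : ℕ, i₁ ≤ i₀ → ∀ L : ℕ, ∀ σ : ℤ, |σ| = 1 →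
      (L * Real.log 2 - ε) / 2 * Pool.Agent.Collatz3.PD.A M g ≤
        ∑ j ∈ Ico (i₀ * 3 ^ M) (i₀ * 3 ^ M * 2 ^ L),
          g (σ * (2 * j + 1)) / ((2 * j + 1 : ℕ) + Kc)

/-- [AV2] (helper75) -/
def LSUpper : Prop :=
  ∀ (σ : ℤ) (x y : ℝ), 1 ≤ x → x ≤ y → LS σ Set.univ x y ≤ Real.log (y / x) / 2 + 1 / x

/-- [SV1] (helper86) slow variation, for sets that are invariant outside a finite set -/
def SlowEv : Prop :=
  ∀ (σ : ℤ), |σ| = 1 → ∀ (C : ℕ) (A : Set ℤ), EvInv C A → ∀ (q r : ℕ), 1 ≤ q → ∀ l : ℝ, 0 < l →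
    Tendsto (fun x : ℝ => (Set.ncard {m : ℕ | (m : ℝ) ≤ l * x ∧ σ * (q * m + r) ∈ A} : ℝ) / (l * x) -
        (Set.ncard {m : ℕ | (m : ℝ) ≤ x ∧ σ * m ∈ A} : ℝ) / x) atTop (𝓝 0)

/-- [SV2] (helper86) from windows to natural density: the density function is close to the
normalised window sum -/
def WindowDens : Prop :=
  ∀ (σ : ℤ), |σ| = 1 → ∀ (C : ℕ) (A : Set ℤ), EvInv C A → ∀ K : ℕ, 1 ≤ K →
    Tendsto (fun x : ℝ => LS σ A x (2 ^ K * x) / (K * Real.log 2 / 2) -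
        (Set.ncard {m : ℕ | (m : ℝ) ≤ x ∧ σ * m ∈ A} : ℝ) / x) atTop (𝓝 0)

end Pool.Agent.Collatz3.DN
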