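import Mathlib
import Pool.Agent.Collatz3.VRead

set_option autoImplicit false

/-!
`2` generates the units modulo `3 ^ m`.
-/

namespace Pool.Agent.Collatz3.Mix

open Finset Real

lemma four_pow (k : ℕ) : ∃ u : ℤ, ¬ (3 : ℤ) ∣ u ∧ (4 : ℤ) ^ (3 ^ k) = 1 + 3 ^ (k + 1) * u := by
  induction k with
  | zero => exact ⟨1, by norm_num, by norm_num⟩
  | succ k ih =>
    obtain ⟨u, hu, he⟩ := ih
    refine ⟨u + 3 * (3 ^ k * u ^ 2 + 3 ^ (2 * k) * u ^ 3), ?_, ?_⟩
    · intro h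
      apply hu
      have : u = (u + 3 * (3 ^ k * u ^ 2 + 3 ^ (2 * k) * u ^ 3)) -
        3 * (3 ^ k * u ^ 2 + 3 ^ (2 * k) * u ^ 3) := by ring
      rw [this]
      exact dvd_sub h (Dvd.intro _ rfl)
    · rw [pow_succ 3 k, pow_mul, he]
      ring

lemma exists_pow (m : ℕ) : ∀ a : ℤ, ¬ (3 : ℤ) ∣ a → ∃ j : ℕ, (3 : ℤ) ^ (m + 1) ∣ 2 ^ j - a := by
  induction m with
  | zero =>
    intro a ha
    rw [zero_add, pow_one]
    have h : a % 3 = 1 ∨ a % 3 = 2 := by omega
    rcases h with h | h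
    · exact ⟨0, by rw [pow_zero]; omega⟩
    · exact ⟨1, by rw [pow_one]; omega⟩
  | succ m ih =>
    intro a ha
    obtain ⟨j, t, ht⟩ := ih a ha
    obtain ⟨u, hu, he⟩ := four_pow m
    have h2j : ¬ (3 : ℤ) ∣ 2 ^ j * u := by
      intro h
      exact hu (three_dvd_of_two_pow_mul h)
    have hr : ∃ r : ℕ, (3 : ℤ) ∣ t + r * (2 ^ j * u) ∧ r ≤ 2 := by
      generalize 2 ^ j * u = s at h2j
      have hs : s % 3 = 1 ∨ s % 3 = 2 := by omega
      have ht' : t % 3 = 0 ∨ t % 3 = 1 ∨ t % 3 = 2 := by omega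
      rcases ht' with h | h | h
      · exact ⟨0, by push_cast; omega, by norm_num⟩
      · rcases hs with h' | h'
        · exact ⟨2, by push_cast; omega, by norm_num⟩
        · exact ⟨1, by push_cast; omega, by norm_num⟩
      · rcases hs with h' | h'
        · exact ⟨1, by push_cast; omega, by norm_num⟩
        · exact ⟨2, by push_cast; omega, by norm_num⟩
    obtain ⟨r, ⟨c, hc⟩, hr2⟩ := hr
    refine ⟨j + 2 * (3 ^ m) * r, ?_⟩
    have h4 : (2 : ℤ) ^ (j + 2 * (3 ^ m) * r) = 2 ^ j * (1 + 3 ^ (m + 1) * u) ^ r := by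
      rw [pow_add, pow_mul, pow_mul, ← he]
      norm_num
    rw [h4]
    interval_cases r
    · refine ⟨c, ?_⟩
      simp only [Nat.cast_zero, zero_mul, add_zero] at hc
      rw [pow_zero, mul_one, ht, hc, pow_succ]
      ring
    · refine ⟨c, ?_⟩
      rw [pow_one]
      simp only [Nat.cast_one, one_mul] at hc
      rw [pow_succ 3 (m + 1)]
      linear_combination ht + 3 ^ (m + 1) * hc
    · refine ⟨c + 3 ^ m * (2 ^ j * u ^ 2), ?_⟩
      push_cast at hc
      rw [pow_succ 3 (m + 1)]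
      linear_combination ht + 3 ^ (m + 1) * hc

lemma exists_pow_lt {m : ℕ} {u v : ZMod (3 ^ m)} (hu : IsUnit u) (hv : IsUnit v) :
    ∃ j < 3 ^ m, 2 ^ j * u = v := by
  have h2 : IsUnit (2 : ZMod (3 ^ m)) := IsUnit.of_mul_eq_one _ (two_mul_inv_two m)
  obtain ⟨u, rfl⟩ := hu
  obtain ⟨v, rfl⟩ := hv
  obtain ⟨g, hg⟩ := h2
  have key : ∃ j : ℕ, g ^ j = v * u⁻¹ := by
    rcases Nat.eq_zero_or_pos m with rfl | hm
    · refine ⟨0, ?_⟩
      have : Subsingleton (ZMod (3 ^ 0)) := by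
        rw [pow_zero]
        infer_instance
      exact Units.ext (Subsingleton.elim _ _)
    · obtain ⟨m, rfl⟩ : ∃ k, m = k + 1 := ⟨m - 1, by omega⟩
      set x := v * u⁻¹ with hx
      have h3 : ¬ (3 : ℤ) ∣ (((x : ZMod (3 ^ (m + 1))).val : ℕ) : ℤ) := by
        have hc := ZMod.val_coe_unit_coprime x
        intro h
        have h' : 3 ∣ (x : ZMod (3 ^ (m + 1))).val := by exact_mod_cast h
        have := Nat.Coprime.coprime_dvd_left h' hc
        have h4 : Nat.Coprime 3 3 := Nat.Coprime.coprime_dvd_right (dvd_pow_self 3 (by omega)) this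
        norm_num at h4
      obtain ⟨j, hj⟩ := exists_pow m _ h3
      refine ⟨j, Units.ext ?_⟩
      have h5 : ((2 ^ j - (((x : ZMod (3 ^ (m + 1))).val : ℕ) : ℤ) : ℤ) : ZMod (3 ^ (m + 1))) = 0 := by
        rw [ZMod.intCast_zmod_eq_zero_iff_dvd]
        push_cast
        exact hj
      push_cast at h5
      rw [ZMod.natCast_zmod_val, sub_eq_zero] at h5
      rw [Units.val_pow_eq_pow_val, hg]
      exact h5
  obtain ⟨j, hj⟩ := key
  refine ⟨j % orderOf g, ?_, ?_⟩
  · have h1 : j % orderOf g < orderOf g := Nat.mod_lt _ (orderOf_pos g)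
    have h2 : orderOf g ≤ Fintype.card (ZMod (3 ^ m))ˣ := orderOf_le_card_univ
    have h3 : Fintype.card (ZMod (3 ^ m))ˣ ≤ Fintype.card (ZMod (3 ^ m)) :=
      Fintype.card_le_of_injective _ Units.val_injective
    rw [ZMod.card] at h3
    omega
  · rw [← hg, ← Units.val_pow_eq_pow_val, ← Units.val_mul, pow_mod_orderOf, hj,
      inv_mul_cancel_right]

end Pool.Agent.Collatz3.Mix
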