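import Pool.Agent.Collatz3.Defs

set_option autoImplicit false

/-!
Elementary facts on words of the inverse 3x+1 tree.
-/

namespace Pool.Agent.Collatz3

theorem cw_append (u v : List ℕ) : cw (u ++ v) = 3 ^ u.length * cw v + 2 ^ v.sum * cw u := by
  induction u with
  | nil => simp [cw]
  | cons i u ih =>
    simp only [List.cons_append, cw, ih, List.sum_append, List.length_cons, pow_succ, pow_add]
    ring

theorem le_size (w : List ℕ) (h : ∀ i ∈ w, 1 ≤ i) : 3 ^ w.length ≤ size w := by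
  induction w with
  | nil => simp [size, cw]
  | cons i w ih =>
    have h1 := ih fun j hj => h j (List.mem_cons_of_mem _ hj)
    have hi : 1 ≤ i := h i List.mem_cons_self
    have h2 : 2 ≤ 2 ^ i := by
      calc 2 = 2 ^ 1 := rfl
        _ ≤ 2 ^ i := Nat.pow_le_pow_right (by norm_num) hi
    unfold size at h1 ⊢
    simp only [List.sum_cons, List.length_cons, cw, pow_succ, pow_add]
    have h3 : 2 * 2 ^ w.sum ≤ 2 ^ i * 2 ^ w.sum := Nat.mul_le_mul_right _ h2
    omega

theorem size_append_le (u v : List ℕ) (h : ∀ i ∈ u, 1 ≤ i) :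
    size (u ++ v) ≤ size u * size v := by
  have h1 := le_size u h
  unfold size at h1 ⊢
  rw [cw_append, List.sum_append, pow_add]
  have h2 : 3 ^ u.length * cw v ≤ (2 ^ u.sum + cw u) * cw v := Nat.mul_le_mul_right _ h1
  nlinarith

theorem size_nil : size [] = 1 := by simp [size, cw]

theorem one_le_size (w : List ℕ) : 1 ≤ size w := by
  unfold size
  have : 1 ≤ 2 ^ w.sum := Nat.one_le_two_pow
  omega

theorem Up.rel {a b : ℤ} {w : List ℕ} (h : Up a w b) :
    2 ^ w.sum * a = 3 ^ w.length * b + cw w := by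
  induction w generalizing a with
  | nil =>
    have : a = b := h
    simp [cw, this]
  | cons i w ih =>
    obtain ⟨x, hx, hu⟩ := h
    have h2 := ih hu
    simp only [List.sum_cons, List.length_cons, cw, pow_succ, pow_add]
    push_cast
    rw [mul_right_comm, hx]
    linear_combination 3 * h2

theorem Up.append_iff {a c : ℤ} {u v : List ℕ} :
    Up a (u ++ v) c ↔ ∃ b, Up a u b ∧ Up b v c := by
  induction u generalizing a with
  | nil => simp [Up]
  | cons i u ih =>
    simp only [List.cons_append, Up, ih]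
    constructor
    · rintro ⟨x, hx, b, h1, h2⟩; exact ⟨b, ⟨x, hx, h1⟩, h2⟩
    · rintro ⟨b, ⟨x, hx, h1⟩, h2⟩; exact ⟨x, hx, b, h1, h2⟩

theorem Up.shift {a a' b t : ℤ} {w : List ℕ} (h : Up a w b) (ha : a' = a + 3 ^ w.length * t) :
    Up a' w (b + 2 ^ w.sum * t) := by
  induction w generalizing a a' t with
  | nil =>
    have : a = b := h
    simp [Up, ha, this]
  | cons i w ih =>
    obtain ⟨x, hx, hu⟩ := h
    refine ⟨x + 3 ^ w.length * (2 ^ i * t), ?_, ?_⟩
    · rw [ha, List.length_cons, pow_succ]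
      linear_combination hx
    · have := ih (a' := x + 3 ^ w.length * (2 ^ i * t)) (t := 2 ^ i * t) hu rfl
      rw [List.sum_cons, pow_add]
      convert this using 1
      ring

theorem Up.unique {a b b' : ℤ} {w : List ℕ} (h : Up a w b) (h' : Up a w b') : b = b' := by
  have h1 := h.rel
  have h2 := h'.rel
  have : (3 : ℤ) ^ w.length * b = 3 ^ w.length * b' := by linarith
  exact mul_left_cancel₀ (pow_ne_zero _ (by norm_num)) this

theorem Ok.shift {a a' : ℤ} {w : List ℕ} (h : Ok a w)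
    (ha : (3 : ℤ) ^ (w.length + 1) ∣ a - a') : Ok a' w := by
  obtain ⟨b, hb, hb3⟩ := h
  obtain ⟨t, ht⟩ := ha
  refine ⟨b + 2 ^ w.sum * (3 * (-t)), hb.shift (by rw [pow_succ] at ht; linear_combination -ht), ?_⟩
  intro h3
  apply hb3
  have : (3 : ℤ) ∣ 2 ^ w.sum * (3 * (-t)) := Dvd.dvd.mul_left (dvd_mul_right _ _) _
  exact (dvd_add_left this).1 h3

theorem Ok.shift_iff {a a' : ℤ} {w : List ℕ} (ha : (3 : ℤ) ^ (w.length + 1) ∣ a - a') :
    Ok a w ↔ Ok a' w :=
  ⟨fun h => h.shift ha, fun h => h.shift (by rw [← dvd_neg, neg_sub]; exact ha)⟩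

theorem paths_congr {a a' : ℤ} {n : ℕ} (B : ℝ) (ha : (3 : ℤ) ^ (n + 1) ∣ a - a') :
    paths a n B = paths a' n B := by
  ext w
  unfold paths
  rw [Set.mem_ofPred_eq, Set.mem_ofPred_eq]
  constructor
  · rintro ⟨h1, h2, h3, h4⟩
    exact ⟨h1, h2, h3, (Ok.shift_iff (by rw [h1]; exact ha)).1 h4⟩
  · rintro ⟨h1, h2, h3, h4⟩
    exact ⟨h1, h2, h3, (Ok.shift_iff (by rw [h1]; exact ha)).2 h4⟩

/-- words of bounded size -/
def bw (n : ℕ) (B : ℝ) : Set (List ℕ) :=
  {w | w.length = n ∧ (∀ i ∈ w, 1 ≤ i) ∧ (size w : ℝ) ≤ B}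

theorem lists_finite (n L : ℕ) : {w : List ℕ | w.length = n ∧ ∀ i ∈ w, i ≤ L}.Finite := by
  induction n with
  | zero =>
    refine (Set.finite_singleton []).subset ?_
    rintro w ⟨h, _⟩
    exact List.length_eq_zero_iff.1 h
  | succ n ih =>
    refine (Set.Finite.image2 List.cons (Set.finite_Iic L) ih).subset ?_
    rintro w ⟨h, hL⟩
    match w, h, hL with
    | i :: w, h, hL =>
      refine ⟨i, hL i List.mem_cons_self, w, ⟨by simpa using h, fun j hj =>
        hL j (List.mem_cons_of_mem _ hj)⟩, rfl⟩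

theorem mem_le_sum {w : List ℕ} {i : ℕ} (h : i ∈ w) : i ≤ w.sum := List.le_sum_of_mem h

theorem bw_finite (n : ℕ) (B : ℝ) : (bw n B).Finite := by
  refine (lists_finite n ⌊B⌋₊).subset ?_
  rintro w ⟨h1, h2, h3⟩
  refine ⟨h1, fun i hi => ?_⟩
  apply Nat.le_floor
  refine le_trans ?_ h3
  have h4 : i ≤ w.sum := mem_le_sum hi
  have h5 : w.sum < 2 ^ w.sum := Nat.lt_two_pow_self
  have h6 : 2 ^ w.sum ≤ size w := Nat.le_add_right _ _
  exact_mod_cast (h4.trans h5.le).trans h6

theorem paths_subset (a : ℤ) (n : ℕ) (B : ℝ) : paths a n B ⊆ bw n B :=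
  fun _ h => ⟨h.1, h.2.1, h.2.2.1⟩

theorem paths_finite (a : ℤ) (n : ℕ) (B : ℝ) : (paths a n B).Finite :=
  (bw_finite n B).subset (paths_subset a n B)

theorem paths_mono (a : ℤ) (n : ℕ) {B B' : ℝ} (h : B ≤ B') : paths a n B ⊆ paths a n B' :=
  fun _ hw => ⟨hw.1, hw.2.1, hw.2.2.1.trans h, hw.2.2.2⟩

theorem cnt_mono (a : ℤ) (n : ℕ) {B B' : ℝ} (h : B ≤ B') : cnt a n B ≤ cnt a n B' :=
  Set.ncard_le_ncard (paths_mono a n h) (paths_finite a n B')

/-- one letter steps to units -/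
theorem step_exists (a : ℤ) (ha : ¬ (3 : ℤ) ∣ a) (r : ℤ) (hr : r = 4 ∨ r = 7) :
    ∃ i : ℕ, 1 ≤ i ∧ i ≤ 6 ∧ ∃ x : ℤ, 2 ^ i * a = 3 * x + 1 ∧ ¬ (3 : ℤ) ∣ x ∧ x % 3 = (r - 1) / 3 := by
  have h9 : a % 9 = 1 ∨ a % 9 = 2 ∨ a % 9 = 4 ∨ a % 9 = 5 ∨ a % 9 = 7 ∨ a % 9 = 8 := by omega
  rcases hr with rfl | rfl <;> rcases h9 with h | h | h | h | h | h
  · exact ⟨2, by norm_num, by norm_num, (4 * a - 1) / 3, by omega, by omega, by omega⟩
  · exact ⟨1, by norm_num, by norm_num, (2 * a - 1) / 3, by omega, by omega, by omega⟩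
  · exact ⟨6, by norm_num, by norm_num, (64 * a - 1) / 3, by omega, by omega, by omega⟩
  · exact ⟨3, by norm_num, by norm_num, (8 * a - 1) / 3, by omega, by omega, by omega⟩
  · exact ⟨4, by norm_num, by norm_num, (16 * a - 1) / 3, by omega, by omega, by omega⟩
  · exact ⟨5, by norm_num, by norm_num, (32 * a - 1) / 3, by omega, by omega, by omega⟩
  · exact ⟨4, by norm_num, by norm_num, (16 * a - 1) / 3, by omega, by omega, by omega⟩
  · exact ⟨3, by norm_num, by norm_num, (8 * a - 1) / 3, by omega, by omega, by omega⟩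
  · exact ⟨2, by norm_num, by norm_num, (4 * a - 1) / 3, by omega, by omega, by omega⟩
  · exact ⟨5, by norm_num, by norm_num, (32 * a - 1) / 3, by omega, by omega, by omega⟩
  · exact ⟨6, by norm_num, by norm_num, (64 * a - 1) / 3, by omega, by omega, by omega⟩
  · exact ⟨1, by norm_num, by norm_num, (2 * a - 1) / 3, by omega, by omega, by omega⟩

theorem size_cons_le {i : ℕ} (hi : 1 ≤ i) (hi6 : i ≤ 6) (w : List ℕ) :
    size (i :: w) ≤ 65 * size w := by
  have h1 := size_append_le [i] w (by simpa using hi)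
  have h2 : size [i] ≤ 65 := by
    have : 2 ^ i ≤ 2 ^ 6 := Nat.pow_le_pow_right (by norm_num) hi6
    simp only [size, cw, List.sum_cons, List.sum_nil, add_zero, mul_zero, zero_add, pow_zero]
    omega
  calc size (i :: w) ≤ size [i] * size w := h1
    _ ≤ 65 * size w := Nat.mul_le_mul_right _ h2

/-- a path of small size always exists -/
theorem fallback (r : ℕ) (a : ℤ) (ha : ¬ (3 : ℤ) ∣ a) :
    ∃ w : List ℕ, w.length = r ∧ (∀ i ∈ w, 1 ≤ i) ∧ size w ≤ 65 ^ r ∧ Ok a w := by
  induction r generalizing a with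
  | zero => exact ⟨[], rfl, by simp, by simp [size, cw], a, rfl, ha⟩
  | succ r ih =>
    obtain ⟨i, hi1, hi6, x, hx, hx3, -⟩ := step_exists a ha 4 (Or.inl rfl)
    obtain ⟨w, hw1, hw2, hw3, b, hb, hb3⟩ := ih x hx3
    refine ⟨i :: w, by simp [hw1], ?_, ?_, b, ⟨x, hx, hb⟩, hb3⟩
    · intro j hj
      rcases List.mem_cons.1 hj with rfl | h
      · exact hi1
      · exact hw2 j h
    · calc size (i :: w) ≤ 65 * size w := size_cons_le hi1 hi6 w
        _ ≤ 65 * 65 ^ r := Nat.mul_le_mul_left _ hw3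
        _ = 65 ^ (r + 1) := by ring

/-- two paths of small size always exist -/
theorem two_le_cnt (r : ℕ) (a : ℤ) (ha : ¬ (3 : ℤ) ∣ a) : 2 ≤ cnt a (r + 1) ((65 : ℝ) ^ (r + 1)) := by
  have key : ∀ ρ : ℤ, ρ = 4 ∨ ρ = 7 → ∃ i : ℕ, ∃ x : ℤ, 2 ^ i * a = 3 * x + 1 ∧
      x % 3 = (ρ - 1) / 3 ∧ ∃ w : List ℕ, i :: w ∈ paths a (r + 1) ((65 : ℝ) ^ (r + 1)) := by
    intro ρ hρ
    obtain ⟨i, hi1, hi6, x, hx, hx3, hxρ⟩ := step_exists a ha ρ hρ
    obtain ⟨w, hw1, hw2, hw3, b, hb, hb3⟩ := fallback r x hx3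
    refine ⟨i, x, hx, hxρ, w, by simp [hw1], ?_, ?_, b, ⟨x, hx, hb⟩, hb3⟩
    · intro j hj
      rcases List.mem_cons.1 hj with rfl | h
      · exact hi1
      · exact hw2 j h
    · have : size (i :: w) ≤ 65 ^ (r + 1) := by
        calc size (i :: w) ≤ 65 * size w := size_cons_le hi1 hi6 w
          _ ≤ 65 * 65 ^ r := Nat.mul_le_mul_left _ hw3
          _ = 65 ^ (r + 1) := by ring
      exact_mod_cast this
  obtain ⟨i, x, hx, hx3, w, hw⟩ := key 4 (Or.inl rfl)
  obtain ⟨i', x', hx', hx3', w', hw'⟩ := key 7 (Or.inr rfl)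
  have hne : i ≠ i' := by
    rintro rfl
    omega
  unfold cnt
  have hsub : ({i :: w, i' :: w'} : Set (List ℕ)) ⊆ paths a (r + 1) ((65 : ℝ) ^ (r + 1)) := by
    intro v hv
    rcases hv with rfl | rfl
    · exact hw
    · exact hw'
  have h1 := Set.ncard_le_ncard hsub (paths_finite _ _ _)
  rw [Set.ncard_pair (fun h => hne (List.cons.inj h).1)] at h1
  exact h1

theorem cw_odd (w : List ℕ) (h : ∀ i ∈ w, 1 ≤ i) (hw : w ≠ []) : cw w % 2 = 1 := by
  obtain ⟨u, i, rfl⟩ := List.eq_nil_or_concat w |>.resolve_left hw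
  rw [List.concat_eq_append, cw_append]
  have hi : 1 ≤ i := h i (by simp)
  have h1 : cw [i] = 1 := by simp [cw]
  have h2 : [i].sum = i := by simp
  rw [h1, h2, mul_one]
  obtain ⟨j, rfl⟩ := Nat.exists_eq_add_of_le' hi
  have h3 : (2 ^ (j + 1) * cw u) % 2 = 0 := by
    rw [pow_succ, mul_comm (2 ^ j) 2, mul_assoc]
    exact Nat.mul_mod_right _ _
  have h4 : 3 ^ u.length % 2 = 1 := by
    rw [Nat.pow_mod]; norm_num
  omega

/-- a word is determined by its length, sum and constant -/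
theorem word_inj : ∀ (w w' : List ℕ), (∀ i ∈ w, 1 ≤ i) → (∀ i ∈ w', 1 ≤ i) →
    w.length = w'.length → w.sum = w'.sum → cw w = cw w' → w = w' := by
  intro w
  induction w using List.reverseRecOn with
  | nil =>
    intro w' _ _ hl _ _
    exact (List.length_eq_zero_iff.1 hl.symm).symm
  | append_singleton u i ih =>
    intro w' h h' hl hs hc
    have hw' : w' ≠ [] := by
      rintro rfl
      simp at hl
    obtain ⟨u', i', rfl⟩ := List.eq_nil_or_concat w' |>.resolve_left hw'
    rw [List.concat_eq_append] at h' hl hs hc ⊢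
    have hlu : u.length = u'.length := by simpa using hl
    have hu : ∀ j ∈ u, 1 ≤ j := fun j hj => h j (List.mem_append_left _ hj)
    have hu' : ∀ j ∈ u', 1 ≤ j := fun j hj => h' j (List.mem_append_left _ hj)
    rw [cw_append, cw_append, hlu] at hc
    have h1 : ∀ i : ℕ, cw [i] = 1 := fun i => by simp [cw]
    have h2 : ∀ i : ℕ, [i].sum = i := fun i => by simp
    rw [h1, h1, h2, h2] at hc
    have hc2 : 2 ^ i * cw u = 2 ^ i' * cw u' := by omega
    by_cases hnil : u = []
    · subst hnil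
      have : u' = [] := List.length_eq_zero_iff.1 (by simpa using hlu.symm)
      subst this
      simpa using hs
    have hnil' : u' ≠ [] := by
      rintro rfl
      exact hnil (List.length_eq_zero_iff.1 (by simpa using hlu))
    have o1 := cw_odd u hu hnil
    have o2 := cw_odd u' hu' hnil'
    have hii : i = i' := by
      rcases lt_trichotomy i i' with hlt | heq | hgt
      · exfalso
        obtain ⟨j, rfl⟩ := Nat.exists_eq_add_of_lt hlt
        have : cw u = 2 ^ (j + 1) * cw u' := by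
          have : 2 ^ i * cw u = 2 ^ i * (2 ^ (j + 1) * cw u') := by
            rw [hc2]; ring
          exact Nat.eq_of_mul_eq_mul_left (by positivity) this
        rw [this, pow_succ, mul_comm (2 ^ j) 2, mul_assoc, Nat.mul_mod_right] at o1
        omega
      · exact heq
      · exfalso
        obtain ⟨j, rfl⟩ := Nat.exists_eq_add_of_lt hgt
        have : cw u' = 2 ^ (j + 1) * cw u := by
          have : 2 ^ i' * cw u' = 2 ^ i' * (2 ^ (j + 1) * cw u) := by
            rw [← hc2]; ring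
          exact Nat.eq_of_mul_eq_mul_left (by positivity) this
        rw [this, pow_succ, mul_comm (2 ^ j) 2, mul_assoc, Nat.mul_mod_right] at o2
        omega
    subst hii
    have hcu : cw u = cw u' := Nat.eq_of_mul_eq_mul_left (by positivity) hc2
    have hsu : u.sum = u'.sum := by
      rw [List.sum_append, List.sum_append] at hs
      omega
    rw [ih u' hu hu' hlu hsu hcu]

end Pool.Agent.Collatz3
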