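import Mathlib
import Pool.Agent.Collatz3.PDWords
import Pool.Agent.Collatz3.VPow
import Pool.Agent.Helper14.TreeInt

set_option autoImplicit false

/-!
Positive density: the end points of readable words, and the choice of a child in a given class.
-/

namespace Pool.Agent.Collatz3.PD

open Finset
open Pool.Agent.Helper14 (T)

theorem up_en {w : List ℕ} {a : ℤ} (h : rd w a) : Up a w (en w a) := by
  apply Mix.up_of_eq
  have := en_spec h
  omega

theorem T_en {w : List ℕ} {a : ℤ} (h : rd w a) (hw : ∀ i ∈ w, 1 ≤ i) :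
    T^[w.sum] (en w a) = a := Pool.Agent.Helper14.up_iter (up_en h) hw

theorem en_sign {w : List ℕ} {a : ℤ} (h : rd w a) (ha : a ≠ 0) (hw : ∀ i ∈ w, 1 ≤ i) :
    0 < en w a * a := Pool.Agent.Helper14.up_sign (up_en h) ha hw

theorem en_bound {w : List ℕ} {a : ℤ} (h : rd w a) :
    (3 : ℝ) ^ w.length * |(en w a : ℝ)| ≤ 2 ^ w.sum * |(a : ℝ)| + cw w := by
  have h1 := en_spec h
  have h2 : (3 : ℝ) ^ w.length * (en w a : ℝ) = 2 ^ w.sum * (a : ℝ) - cw w := by
    exact_mod_cast h1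
  have h3 : |(3 : ℝ) ^ w.length * (en w a : ℝ)| = 3 ^ w.length * |(en w a : ℝ)| := by
    rw [abs_mul, abs_of_pos (by positivity : (0 : ℝ) < 3 ^ w.length)]
  have h4 : |(2 : ℝ) ^ w.sum * (a : ℝ)| = 2 ^ w.sum * |(a : ℝ)| := by
    rw [abs_mul, abs_of_pos (by positivity : (0 : ℝ) < 2 ^ w.sum)]
  have h5 : |(cw w : ℝ)| = cw w := abs_of_nonneg (Nat.cast_nonneg _)
  rw [← h3, h2]
  refine (abs_sub _ _).trans ?_
  rw [h4, h5]

theorem exists_concat {w : List ℕ} (h : w ≠ []) : ∃ v i, w = v ++ [i] :=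
  ⟨w.dropLast, w.getLast h, (List.dropLast_append_getLast h).symm⟩

theorem one_le_sum {w : List ℕ} (h : w ≠ []) (hw : ∀ i ∈ w, 1 ≤ i) : 1 ≤ w.sum := by
  rcases w with _ | ⟨i, v⟩
  · exact absurd rfl h
  · have := hw i List.mem_cons_self
    rw [List.sum_cons]
    omega

/-- Words with the same sum and the same end point are equal. -/
theorem up_unique_sum {a : ℤ} : ∀ (n : ℕ) (b : ℤ) (w w' : List ℕ),
    w.length ≤ n → (∀ i ∈ w, 1 ≤ i) → (∀ i ∈ w', 1 ≤ i) → w.sum = w'.sum →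
    Up a w b → Up a w' b → w = w' := by
  intro n
  induction n with
  | zero =>
    intro b w w' hn hw hw' hs _ _
    have h0 : w = [] := List.length_eq_zero_iff.1 (by omega)
    subst h0
    by_contra hne
    have := one_le_sum (fun h => hne h.symm) hw'
    simp at hs
    omega
  | succ n ih =>
    intro b w w' hn hw hw' hs hu hu'
    by_cases h0 : w = []
    · subst h0
      by_contra hne
      have := one_le_sum (fun h => hne h.symm) hw'
      simp at hs
      omega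
    by_cases h0' : w' = []
    · subst h0'
      have := one_le_sum h0 hw
      simp at hs
      omega
    obtain ⟨v, i, rfl⟩ := exists_concat h0
    obtain ⟨v', i', rfl⟩ := exists_concat h0'
    rw [List.length_append, List.length_singleton] at hn
    rw [List.sum_append, List.sum_append, List.sum_singleton, List.sum_singleton] at hs
    obtain ⟨c, hc, x, hx, hxb⟩ := Up.append_iff.1 hu
    obtain ⟨c', hc', x', hx', hxb'⟩ := Up.append_iff.1 hu'
    have hxb2 : x = b := hxb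
    have hxb2' : x' = b := hxb'
    subst hxb2
    rw [hxb2'] at hx'
    have hv : ∀ j ∈ v, 1 ≤ j := fun j hj => hw j (List.mem_append_left _ hj)
    have hv' : ∀ j ∈ v', 1 ≤ j := fun j hj => hw' j (List.mem_append_left _ hj)
    have heq : (2 : ℤ) ^ i * c = 2 ^ i' * c' := hx.trans hx'.symm
    by_cases e1 : v = []
    · by_cases e2 : v' = []
      · subst e1 e2
        simp at hs
        rw [hs]
      · exfalso
        subst e1
        have e3 : a = c := hc
        have h1 := one_le_sum e2 hv'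
        have o2 := Pool.Agent.Helper14.up_odd hc' hv' e2
        simp at hs
        obtain ⟨d, hd⟩ : ∃ d, i = i' + (d + 1) := ⟨v'.sum - 1, by omega⟩
        rw [hd, pow_add, mul_assoc] at heq
        have h2 := mul_left_cancel₀ (by positivity) heq
        have h3 : (2 : ℤ) ^ (d + 1) * c = 2 * (2 ^ d * c) := by ring
        omega
    · by_cases e2 : v' = []
      · exfalso
        subst e2
        have h1 := one_le_sum e1 hv
        have o1 := Pool.Agent.Helper14.up_odd hc hv e1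
        simp at hs
        obtain ⟨d, hd⟩ : ∃ d, i' = i + (d + 1) := ⟨v.sum - 1, by omega⟩
        rw [hd, pow_add, mul_assoc] at heq
        have h2 := mul_left_cancel₀ (by positivity) heq
        have h3 : (2 : ℤ) ^ (d + 1) * c' = 2 * (2 ^ d * c') := by ring
        omega
      · have o1 := Pool.Agent.Helper14.up_odd hc hv e1
        have o2 := Pool.Agent.Helper14.up_odd hc' hv' e2
        obtain ⟨r1, r2⟩ := Pool.Agent.Helper14.two_pow_mul_inj' o1 o2 heq
        subst r2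
        rw [ih c v v' (by omega) hv hv' (by omega) hc hc', r1]

theorem en_inj {b : ℤ} (_hb : b ≠ 0) (hper : ∀ j, 0 < j → T^[j] b ≠ b) {w w' : List ℕ}
    (h : rd w b) (h' : rd w' b) (hw : ∀ i ∈ w, 1 ≤ i) (hw' : ∀ i ∈ w', 1 ≤ i)
    (he : en w b = en w' b) : w = w' := by
  have h1 := T_en h hw
  have h2 := T_en h' hw'
  rw [← he] at h2
  have hs : w.sum = w'.sum := by
    rcases lt_trichotomy w.sum w'.sum with hlt | heq | hgt
    · exfalso
      apply hper (w'.sum - w.sum) (by omega)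
      have h3 : w'.sum = (w'.sum - w.sum) + w.sum := by omega
      rw [h3, Function.iterate_add_apply, h1] at h2
      exact h2
    · exact heq
    · exfalso
      apply hper (w.sum - w'.sum) (by omega)
      have h3 : w.sum = (w.sum - w'.sum) + w'.sum := by omega
      rw [h3, Function.iterate_add_apply, h2] at h1
      exact h1
  have h4 := up_en h'
  rw [← he] at h4
  exact up_unique_sum w.length (en w b) w w' le_rfl hw hw' hs (up_en h) h4

/-- `T` is injective on periodic points. -/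
theorem eq_of_T_eq {x y : ℤ} {j k : ℕ} (hj : 0 < j) (hk : 0 < k) (hx : T^[j] x = x)
    (hy : T^[k] y = y) (h : T x = T y) : x = y := by
  have h1 : T^[j * k] x = x := by
    have : Function.IsPeriodicPt T j x := hx
    exact this.mul_const k
  have h2 : T^[j * k] y = y := by
    have : Function.IsPeriodicPt T k y := hy
    exact this.const_mul j
  obtain ⟨n, hn⟩ : ∃ n, j * k = n + 1 := ⟨j * k - 1, by
    have := Nat.mul_pos hj hk
    omega⟩
  rw [hn, Function.iterate_succ_apply] at h1 h2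
  rw [← h1, ← h2, h]

/-- The child of `a` with letter `i`. -/
theorem child {a : ℤ} (ha : a ≠ 0) {i : ℕ} (hi : 1 ≤ i) {b : ℤ} (h : 2 ^ i * a = 3 * b + 1) :
    T^[i] b = a ∧ |b| ≤ 2 ^ i * |a| ∧ 0 < b * a ∧ b % 2 = 1 ∧ T b = 2 ^ (i - 1) * a := by
  have h2 := Pool.Agent.Helper14.two_le_two_pow hi
  obtain ⟨j, rfl⟩ : ∃ j, i = j + 1 := ⟨i - 1, by omega⟩
  have hodd : b % 2 = 1 := by
    have e : (2 : ℤ) ^ (j + 1) * a = 2 * (2 ^ j * a) := by ring
    omega
  refine ⟨Pool.Agent.Helper14.T_step hi h, ?_, ?_, hodd, ?_⟩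
  · have h3 : 3 * |b| ≤ 2 ^ (j + 1) * |a| + 1 := by
      have e1 : |3 * b| = 3 * |b| := by rw [abs_mul]; norm_num
      have e2 : |(2 : ℤ) ^ (j + 1) * a| = 2 ^ (j + 1) * |a| := by
        rw [abs_mul, abs_of_pos (by positivity : (0 : ℤ) < 2 ^ (j + 1))]
      have e3 : 3 * b = 2 ^ (j + 1) * a - 1 := by omega
      have e4 := abs_sub ((2 : ℤ) ^ (j + 1) * a) 1
      rw [← e3, e1, e2] at e4
      simpa using e4
    have h4 : (1 : ℤ) ≤ 2 ^ (j + 1) * |a| := by
      have := Int.one_le_abs ha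
      nlinarith
    omega
  · rcases lt_or_gt_of_ne ha with h1 | h1
    · have h3 : (2 : ℤ) ^ (j + 1) * a < 0 := mul_neg_of_pos_of_neg (by positivity) h1
      exact mul_pos_of_neg_of_neg (by omega) h1
    · have h3 : (2 : ℤ) * 1 ≤ 2 ^ (j + 1) * a := mul_le_mul h2 (by omega) (by norm_num) (by positivity)
      exact mul_pos (by omega) h1
  · have e : (2 : ℤ) ^ (j + 1) * a = 2 * (2 ^ j * a) := by ring
    have e2 : j + 1 - 1 = j := rfl
    rw [e2]
    unfold T
    rw [if_neg (by omega)]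
    omega

/-- Two children cannot both be periodic. -/
theorem not_both {a : ℤ} (ha : a ≠ 0) {i i' : ℕ} (hi : 1 ≤ i) (hii : i < i') {b b' : ℤ}
    (h : 2 ^ i * a = 3 * b + 1) (h' : 2 ^ i' * a = 3 * b' + 1) {j k : ℕ} (hj : 0 < j)
    (hk : 0 < k) (hb : T^[j] b = b) (hb' : T^[k] b' = b') : False := by
  obtain ⟨-, -, -, o1, t1⟩ := child ha hi h
  obtain ⟨-, -, -, o2, t2⟩ := child ha (by omega : 1 ≤ i') h'
  -- the even preimage `2 ^ i * a` is on the cycle of `b'`
  have h3 : T^[i' - i] b' = 2 ^ i * a := by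
    obtain ⟨d, hd⟩ : ∃ d, i' - i = d + 1 := ⟨i' - i - 1, by omega⟩
    have e : i' - 1 = d + i := by omega
    rw [hd, Function.iterate_succ_apply, t2, e, pow_add, mul_assoc,
      Pool.Agent.Helper14.T_iter_pow]
  have h4 : T^[k] (2 ^ i * a) = 2 ^ i * a := by
    rw [← h3]
    have hp : Function.IsPeriodicPt T k b' := hb'
    exact hp.apply_iterate (i' - i)
  have h5 : T (2 ^ i * a) = 2 ^ (i - 1) * a := by
    obtain ⟨d, rfl⟩ : ∃ d, i = d + 1 := ⟨i - 1, by omega⟩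
    have e : (2 : ℤ) ^ (d + 1) * a = 2 * (2 ^ d * a) := by ring
    rw [e, Pool.Agent.Helper14.T_two_mul]
    rfl
  have h6 : b = 2 ^ i * a := eq_of_T_eq hj hk hb h4 (t1.trans h5.symm)
  have h7 : (2 : ℤ) ^ i * a = 2 * (2 ^ (i - 1) * a) := by
    obtain ⟨d, rfl⟩ : ∃ d, i = d + 1 := ⟨i - 1, by omega⟩
    rw [pow_succ]
    have : d + 1 - 1 = d := rfl
    rw [this]
    ring
  omega

theorem isUnit_intCast {z : ℤ} (h : ¬ (3 : ℤ) ∣ z) (N : ℕ) : IsUnit (z : ZMod (3 ^ N)) := by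
  have h1 : IsCoprime ((3 : ℤ) ^ N) z :=
    IsCoprime.pow_left ((Int.prime_three.coprime_iff_not_dvd).2 h)
  obtain ⟨u, v, huv⟩ := h1
  have h2 : ((u * 3 ^ N + v * z : ℤ) : ZMod (3 ^ N)) = 1 := by rw [huv]; simp
  push_cast at h2
  rw [Mix.three_pow_self, mul_zero, zero_add, mul_comm] at h2
  exact IsUnit.of_mul_eq_one _ h2

theorem exists_child (M : ℕ) (c : ℤ) : ∃ B : ℕ, ∀ a : ℤ, ¬ (3 : ℤ) ∣ a →
    ∃ (b : ℤ) (i : ℕ), 1 ≤ i ∧ T^[i] b = a ∧ (3 : ℤ) ^ M ∣ b - c ∧ |b| ≤ B * |a| ∧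
      0 < b * a ∧ ∀ j, 0 < j → T^[j] b ≠ b := by
  obtain ⟨φ, hφ⟩ : ∃ φ : ℕ, φ = (3 ^ (M + 1)).totient := ⟨_, rfl⟩
  have hφ0 : 0 < φ := by
    rw [hφ]
    exact Nat.totient_pos.2 (by positivity)
  have hE : (3 : ℤ) ^ (M + 1) ∣ 2 ^ φ - 1 := by
    have h1 : Nat.Coprime 2 (3 ^ (M + 1)) := Nat.Coprime.pow_right _ (by norm_num)
    have h2 := (Nat.modEq_iff_dvd.1 (Nat.ModEq.pow_totient h1).symm)
    push_cast at h2
    rw [hφ]
    exact_mod_cast h2
  refine ⟨2 ^ (3 ^ (M + 1) + 2 * φ), ?_⟩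
  intro a ha
  have ha0 : a ≠ 0 := by
    rintro rfl
    exact ha (dvd_zero 3)
  -- a first exponent
  obtain ⟨j, hj, hj2⟩ : ∃ j < 3 ^ (M + 1), (3 : ℤ) ^ (M + 1) ∣ 2 ^ j * a - (3 * c + 1) := by
    have hua : IsUnit ((a : ℤ) : ZMod (3 ^ (M + 1))) := isUnit_intCast ha _
    have huc : IsUnit ((3 * c + 1 : ℤ) : ZMod (3 ^ (M + 1))) :=
      isUnit_intCast (by omega) _
    obtain ⟨j, hj, he⟩ := Mix.exists_pow_lt hua huc
    refine ⟨j, hj, ?_⟩
    have h1 : ((2 ^ j * a - (3 * c + 1) : ℤ) : ZMod (3 ^ (M + 1))) = 0 := by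
      push_cast
      push_cast at he
      rw [he, sub_self]
    rw [ZMod.intCast_zmod_eq_zero_iff_dvd] at h1
    push_cast at h1
    exact h1
  -- the exponents `j + φ t`
  have hexp : ∀ t : ℕ, (3 : ℤ) ^ (M + 1) ∣ 2 ^ (j + φ * t) * a - (3 * c + 1) := by
    intro t
    have h1 : (3 : ℤ) ^ (M + 1) ∣ (2 ^ φ) ^ t - 1 := by
      have := sub_dvd_pow_sub_pow ((2 : ℤ) ^ φ) 1 t
      rw [one_pow] at this
      exact dvd_trans hE this
    have h2 : (2 : ℤ) ^ (j + φ * t) * a - (3 * c + 1) =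
        2 ^ j * a * ((2 ^ φ) ^ t - 1) + (2 ^ j * a - (3 * c + 1)) := by
      rw [pow_add, pow_mul]
      ring
    rw [h2]
    exact dvd_add (h1.mul_left _) hj2
  have hch : ∀ t : ℕ, ∃ b : ℤ, 2 ^ (j + φ * t) * a = 3 * b + 1 ∧ (3 : ℤ) ^ M ∣ b - c := by
    intro t
    obtain ⟨d, hd⟩ := hexp t
    refine ⟨c + 3 ^ M * d, ?_, ⟨d, by ring⟩⟩
    rw [pow_succ] at hd
    linear_combination hd
  obtain ⟨b1, e1, g1⟩ := hch 1
  obtain ⟨b2, e2, g2⟩ := hch 2
  have hi1 : 1 ≤ j + φ * 1 := by omega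
  have hi2 : 1 ≤ j + φ * 2 := by omega
  obtain ⟨p1, p2, p3, -, -⟩ := child ha0 hi1 e1
  obtain ⟨r1, r2, r3, -, -⟩ := child ha0 hi2 e2
  have hB : ∀ i, i ≤ 3 ^ (M + 1) + 2 * φ → (2 : ℤ) ^ i * |a| ≤
      ((2 ^ (3 ^ (M + 1) + 2 * φ) : ℕ) : ℤ) * |a| := by
    intro i hi
    push_cast
    exact mul_le_mul_of_nonneg_right (pow_le_pow_right₀ (by norm_num) hi) (abs_nonneg _)
  by_cases hper : ∀ j, 0 < j → T^[j] b1 ≠ b1
  · exact ⟨b1, j + φ * 1, hi1, p1, g1, p2.trans (hB _ (by omega)), p3, hper⟩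
  · refine ⟨b2, j + φ * 2, hi2, r1, g2, r2.trans (hB _ (by omega)), r3, ?_⟩
    push Not at hper
    obtain ⟨k, hk, hk2⟩ := hper
    intro l hl hl2
    exact not_both ha0 hi1 (by omega) e1 e2 hk hl hk2 hl2

end Pool.Agent.Collatz3.PD
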