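import Mathlib
import Pool.Agent.Collatz3.PDTree

set_option autoImplicit false

/-!
Positive density: the remaining definitions. The theorems to be proved from them are listed in
the comment at the end.
-/

namespace Pool.Agent.Collatz3.PD

open Finset
open Pool.Agent.Collatz3.Mix (words)

/-- The bound on the letters at scale `N`. -/
def II (N : ℕ) : ℕ := 12 * Nat.log 2 N

/-- The bad blocks of length `d` at scale `N`. -/
noncomputable def badV (I N d : ℕ) : Finset (List ℕ) :=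
  (words I d).filter fun v => ¬ (199 * d ≤ 100 * v.sum ∧ 100 * v.sum ≤ 201 * d ∧
    (cw v : ℝ) ≤ (5 / 4) ^ N * 2 ^ v.sum)

/-- The scales. -/
def scale (N₀ : ℕ) : ℕ → ℕ
  | 0 => N₀
  | J + 1 => scale N₀ J + scale N₀ J / 20

/-- The largest `λ` with `2 ^ λ ≤ Y * 3 ^ n`. -/
def lam (Y n : ℕ) : ℕ := Nat.log 2 (Y * 3 ^ n)

/-- Expected number of exact hits within `R` steps, from the sum `σ` at level `n`. -/
noncomputable def hit (I R Y n σ : ℕ) : ℝ :=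
  ∑ j ∈ Icc 1 R, P ((words I j).filter fun v => σ + v.sum = lam Y (n + j))

/-- Probability to be above after `R` steps. -/
noncomputable def cross (I R Y n σ : ℕ) : ℝ :=
  P ((words I R).filter fun v => lam Y (n + R) ≤ σ + v.sum)

/-
TO BE PROVED (exact statements):

[X] (PDCross.lean, helper27)
theorem hit_ge {I R Y n σ : ℕ} (hY : 1 ≤ Y) (hσ : σ < lam Y n) : cross I R Y n σ / 2 ≤ hit I R Y n σ
   Induction on R (generalise n, σ), splitting off the FIRST letter i; t = lam Y (n+1) - σ ≥ 2 since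
   lam Y (n+1) ≥ lam Y n + 1; i < t: not crossed, induction; i = t: exact hit, weight 2^-t; i > t: nothing;
   and Σ_{t ≤ i ≤ I} 2^-i ≤ 2 · 2^-t.
theorem coarse {I k m s : ℕ} (hm : m ≤ k) (y : ℤ) :
    3 ^ m * Fw I k s m y = ∑ u ∈ (words I m).filter (fun u => rd u y),
      3 ^ m * (1 / 2 : ℝ) ^ u.sum * P ((words I (k - m)).filter fun v => u.sum + v.sum = s)

[D] (PDEnd.lean, helper94)   T = Pool.Agent.Helper14.T (FatouDefs), see Helper14/TreeInt.lean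
theorem T_en {w : List ℕ} {a : ℤ} (h : rd w a) (hw : ∀ i ∈ w, 1 ≤ i) : T^[w.sum] (en w a) = a
theorem en_sign {w} {a : ℤ} (h : rd w a) (ha : a ≠ 0) (hw) : 0 < en w a * a
theorem en_bound {w} {a : ℤ} (h : rd w a) : (3:ℝ) ^ w.length * |(en w a : ℝ)| ≤ 2 ^ w.sum * |(a:ℝ)| + cw w
theorem en_inj {b : ℤ} (hb : b ≠ 0) (hper : ∀ j, 0 < j → T^[j] b ≠ b) {w w'} (h : rd w b) (h' : rd w' b)
   (hw) (hw') (he : en w b = en w' b) : w = w'
theorem exists_child (M : ℕ) (c : ℤ) : ∃ B : ℕ, ∀ a : ℤ, ¬ (3:ℤ) ∣ a → ∃ (b : ℤ) (i : ℕ), 1 ≤ i ∧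
   T^[i] b = a ∧ (3:ℤ) ^ M ∣ b - c ∧ |b| ≤ B * |a| ∧ 0 < b * a ∧ ∀ j, 0 < j → T^[j] b ≠ b

[A] (PDErr.lean, helper75)
theorem bad_small : ∀ᶠ N : ℕ in atTop, ∀ I d : ℕ, N / 20 ≤ d → d ≤ N → P (badV I N d) ≤ 1 / (N:ℝ) ^ 8
   (from PDProb: upper_tail, lower_tail, xr_tail)
theorem mix_small_s (h : MixRate) : ∀ᶠ N : ℕ in atTop, ∀ k s : ℕ, N / 20 ≤ k → k ≤ N / 4 →
   A k (fun x => |3 ^ k * Fw (II N) k s k x - 3 ^ (N / 20) * Fw (II N) k s (N / 20) x|) ≤ 1 / (N:ℝ) ^ 8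
theorem mix_small (h : MixRate) : ∀ᶠ N : ℕ in atTop, ∀ k : ℕ, N / 20 ≤ k → k ≤ N / 4 →
   A k (fun x => |U (II N) k x - U (II N) (N / 20) x|) ≤ 1 / (N:ℝ) ^ 8
   (U I k x = 3^k Σ_s Fw I k s k x ; 3^m Σ_s Fw I k s m x = Z I^(k-m) U I m x ; one_sub_Z_pow ; A_U)
theorem num_small : ∀ᶠ N : ℕ in atTop, (3:ℝ) ^ N * (5/4) ^ N ≤
   (1 / (N:ℝ) - 1 / ((N + N / 20 : ℕ) : ℝ)) * (2:ℝ) ^ ((199 * N + 99) / 100)

[H] chain and [N] final count: helper14.
-/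

end Pool.Agent.Collatz3.PD
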