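import Mathlib
import Pool.Agent.Collatz3.PDTree

set_option autoImplicit false

/-!
Positive density: exponentially small probabilities.
-/

namespace Pool.Agent.Collatz3.PD

open Finset
open Pool.Agent.Collatz3.Mix (words mem_words sum_words_zero sum_words_succ sum_words_add
  cw_append' cw_inj)

theorem sum_pow_words (I d : ℕ) (y : ℝ) :
    ∑ w ∈ words I d, y ^ w.sum = (∑ i ∈ Icc 1 I, y ^ i) ^ d := by
  induction d with
  | zero => simp [sum_words_zero]
  | succ d ih =>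
    rw [sum_words_succ, pow_succ', ← ih, sum_mul]
    apply sum_congr rfl
    intro i _
    rw [mul_sum]
    apply sum_congr rfl
    intro w _
    rw [List.sum_cons, pow_add]

theorem geom_le (I : ℕ) {y : ℝ} (h0 : 0 ≤ y) (h1 : y < 1) :
    ∑ i ∈ Icc 1 I, y ^ i ≤ y / (1 - y) := by
  have h : ∑ i ∈ Icc 1 I, y ^ i = y * ∑ i ∈ range I, y ^ i := by
    rw [mul_sum]
    induction I with
    | zero => simp
    | succ I ih =>
      rw [sum_Icc_succ_top (by omega), ih, sum_range_succ, pow_succ']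
  rw [h, geom_sum_eq h1.ne, div_eq_mul_inv y]
  apply mul_le_mul_of_nonneg_left _ h0
  have h2 : (y ^ I - 1) / (y - 1) = (1 - y ^ I) / (1 - y) := by
    rw [← neg_sub 1 (y ^ I), ← neg_sub 1 y, neg_div_neg_eq]
  rw [h2, ← one_div]
  apply div_le_div_of_nonneg_right _ (by linarith)
  have : 0 ≤ y ^ I := pow_nonneg h0 I
  linarith

theorem upper_tail : ∃ ρ : ℝ, 0 < ρ ∧ ρ < 1 ∧ ∀ I d : ℕ,
    P ((words I d).filter fun w => 201 * d < 100 * w.sum) ≤ ρ ^ d := by
  obtain ⟨b, hb⟩ : ∃ b : ℝ, b = (201 / 200 : ℝ) ^ (201 / 100 : ℝ) := ⟨_, rfl⟩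
  have hb0 : 0 < b := by rw [hb]; exact Real.rpow_pos_of_pos (by norm_num) _
  have hb100 : b ^ 100 = (201 / 200 : ℝ) ^ 201 := by
    rw [hb, ← Real.rpow_natCast, ← Real.rpow_mul (by norm_num), ← Real.rpow_natCast]
    norm_num
  have hlt : (201 / 199 : ℝ) < b := by
    apply lt_of_pow_lt_pow_left₀ 100 hb0.le
    rw [hb100]
    norm_num
  refine ⟨201 / 199 / b, by positivity, by rw [div_lt_one hb0]; exact hlt, fun I d => ?_⟩
  have h1 : ∀ w ∈ (words I d).filter (fun w => 201 * d < 100 * w.sum),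
      (1 / 2 : ℝ) ^ w.sum ≤ (201 / 400 : ℝ) ^ w.sum * (1 / b) ^ d := by
    intro w hw
    rw [mem_filter] at hw
    have e1 : (201 / 100 : ℝ) * d ≤ w.sum := by
      have : (201 : ℝ) * d ≤ 100 * w.sum := by exact_mod_cast hw.2.le
      linarith
    have e2 : b ^ d ≤ (201 / 200 : ℝ) ^ w.sum := by
      rw [hb, ← Real.rpow_natCast, ← Real.rpow_mul (by norm_num), ← Real.rpow_natCast]
      exact Real.rpow_le_rpow_of_exponent_le (by norm_num) e1
    have e3 : (201 / 400 : ℝ) ^ w.sum = (1 / 2) ^ w.sum * (201 / 200) ^ w.sum := by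
      rw [← mul_pow]
      norm_num
    rw [e3, one_div b, inv_pow, mul_assoc]
    have e4 : 1 ≤ (201 / 200 : ℝ) ^ w.sum * (b ^ d)⁻¹ := by
      rw [← div_eq_mul_inv, one_le_div (by positivity)]
      exact e2
    have e5 : (0 : ℝ) ≤ (1 / 2) ^ w.sum := by positivity
    nlinarith
  calc P ((words I d).filter fun w => 201 * d < 100 * w.sum)
      ≤ ∑ w ∈ (words I d).filter (fun w => 201 * d < 100 * w.sum),
          (201 / 400 : ℝ) ^ w.sum * (1 / b) ^ d := sum_le_sum h1
    _ ≤ ∑ w ∈ words I d, (201 / 400 : ℝ) ^ w.sum * (1 / b) ^ d :=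
        sum_le_sum_of_subset_of_nonneg (filter_subset _ _) fun _ _ _ => by positivity
    _ = (∑ i ∈ Icc 1 I, (201 / 400 : ℝ) ^ i) ^ d * (1 / b) ^ d := by
        rw [← sum_mul, sum_pow_words]
    _ ≤ (201 / 199) ^ d * (1 / b) ^ d := by
        apply mul_le_mul_of_nonneg_right _ (by positivity)
        apply pow_le_pow_left₀ (sum_nonneg fun _ _ => by positivity)
        refine (geom_le I (by norm_num) (by norm_num)).trans (le_of_eq (by norm_num))
    _ = (201 / 199 / b) ^ d := by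
        rw [← mul_pow]
        congr 1
        ring

theorem lower_tail : ∃ ρ : ℝ, 0 < ρ ∧ ρ < 1 ∧ ∀ I d : ℕ,
    P ((words I d).filter fun w => 100 * w.sum < 199 * d) ≤ ρ ^ d := by
  obtain ⟨b, hb⟩ : ∃ b : ℝ, b = (201 / 200 : ℝ) ^ (199 / 100 : ℝ) := ⟨_, rfl⟩
  have hb0 : 0 < b := by rw [hb]; exact Real.rpow_pos_of_pos (by norm_num) _
  have hb100 : b ^ 100 = (201 / 200 : ℝ) ^ 199 := by
    rw [hb, ← Real.rpow_natCast, ← Real.rpow_mul (by norm_num), ← Real.rpow_natCast]
    norm_num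
  have hlt : b < (101 / 100 : ℝ) := by
    apply lt_of_pow_lt_pow_left₀ 100 (by norm_num)
    rw [hb100]
    norm_num
  refine ⟨100 / 101 * b, by positivity, by linarith, fun I d => ?_⟩
  have h1 : ∀ w ∈ (words I d).filter (fun w => 100 * w.sum < 199 * d),
      (1 / 2 : ℝ) ^ w.sum ≤ (100 / 201 : ℝ) ^ w.sum * b ^ d := by
    intro w hw
    rw [mem_filter] at hw
    have e1 : (w.sum : ℝ) ≤ (199 / 100 : ℝ) * d := by
      have : (100 : ℝ) * w.sum ≤ 199 * d := by exact_mod_cast hw.2.le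
      linarith
    have e2 : (201 / 200 : ℝ) ^ w.sum ≤ b ^ d := by
      rw [hb, ← Real.rpow_natCast, ← Real.rpow_natCast, ← Real.rpow_mul (by norm_num)]
      exact Real.rpow_le_rpow_of_exponent_le (by norm_num) e1
    have e3 : (1 / 2 : ℝ) ^ w.sum = (100 / 201) ^ w.sum * (201 / 200) ^ w.sum := by
      rw [← mul_pow]
      norm_num
    rw [e3]
    exact mul_le_mul_of_nonneg_left e2 (by positivity)
  calc P ((words I d).filter fun w => 100 * w.sum < 199 * d)
      ≤ ∑ w ∈ (words I d).filter (fun w => 100 * w.sum < 199 * d),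
          (100 / 201 : ℝ) ^ w.sum * b ^ d := sum_le_sum h1
    _ ≤ ∑ w ∈ words I d, (100 / 201 : ℝ) ^ w.sum * b ^ d :=
        sum_le_sum_of_subset_of_nonneg (filter_subset _ _) fun _ _ _ => by positivity
    _ = (∑ i ∈ Icc 1 I, (100 / 201 : ℝ) ^ i) ^ d * b ^ d := by
        rw [← sum_mul, sum_pow_words]
    _ ≤ (100 / 101) ^ d * b ^ d := by
        apply mul_le_mul_of_nonneg_right _ (by positivity)
        apply pow_le_pow_left₀ (sum_nonneg fun _ _ => by positivity)
        refine (geom_le I (by norm_num) (by norm_num)).trans (le_of_eq (by norm_num))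
    _ = (100 / 101 * b) ^ d := by
        rw [← mul_pow]

/-- `X_w` as a real number. -/
noncomputable def xr (w : List ℕ) : ℝ := cw w / 2 ^ w.sum

theorem xr_nonneg (w : List ℕ) : 0 ≤ xr w := by unfold xr; positivity

theorem xr_cons (i : ℕ) (w : List ℕ) : xr (i :: w) = (1 / 2 : ℝ) ^ i * (1 + 3 * xr w) := by
  unfold xr
  rw [Mix.cw_cons, List.sum_cons, pow_add]
  push_cast
  rw [one_div, inv_pow]
  field_simp
  ring

theorem mean_sqrt_xr (I d : ℕ) : ∑ w ∈ words I d, (1 / 2 : ℝ) ^ w.sum * √(xr w) ≤ d := by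
  obtain ⟨b, hb⟩ : ∃ b : ℝ, b = √(1 / 2) := ⟨_, rfl⟩
  have hb0 : 0 ≤ b := by rw [hb]; exact Real.sqrt_nonneg _
  have hb2 : b ^ 2 = 1 / 2 := by rw [hb]; exact Real.sq_sqrt (by norm_num)
  have hb1 : b ≤ 0.7072 := by
    apply le_of_sq_le_sq _ (by norm_num)
    rw [hb2]
    norm_num
  obtain ⟨c, hc⟩ : ∃ c : ℝ, c = √3 := ⟨_, rfl⟩
  have hc0 : 0 ≤ c := by rw [hc]; exact Real.sqrt_nonneg _
  have hc1 : c ≤ 1.7321 := by
    apply le_of_sq_le_sq _ (by norm_num)
    rw [hc, Real.sq_sqrt (by norm_num)]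
    norm_num
  induction d with
  | zero =>
    rw [sum_words_zero]
    simp [xr, cw]
  | succ d ih =>
    rw [sum_words_succ]
    have hP : P (words I d) ≤ 1 := by
      rw [P_words]
      exact pow_le_one₀ (Z_nonneg I) (Z_le_one I)
    have hX0 : 0 ≤ ∑ w ∈ words I d, (1 / 2 : ℝ) ^ w.sum * √(xr w) :=
      sum_nonneg fun _ _ => by positivity
    have h1 : ∀ i ∈ Icc 1 I, ∑ w ∈ words I d, (1 / 2 : ℝ) ^ (i :: w).sum * √(xr (i :: w)) ≤
        (b / 2) ^ i * (P (words I d) + c * ∑ w ∈ words I d, (1 / 2 : ℝ) ^ w.sum * √(xr w)) := by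
      intro i _
      rw [P, mul_sum (a := c), ← sum_add_distrib, mul_sum]
      apply sum_le_sum
      intro w _
      have hx := xr_nonneg w
      have e1 : √(xr (i :: w)) ≤ b ^ i * (1 + c * √(xr w)) := by
        rw [xr_cons, Real.sqrt_mul (by positivity)]
        have e2 : √((1 / 2 : ℝ) ^ i) = b ^ i := by
          rw [← hb2, ← pow_mul, mul_comm, pow_mul, Real.sqrt_sq (by positivity)]
        have e3 : √(1 + 3 * xr w) ≤ 1 + c * √(xr w) := by
          rw [Real.sqrt_le_left (by positivity)]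
          have e4 : (1 + c * √(xr w)) ^ 2 = 1 + 2 * c * √(xr w) + c ^ 2 * (√(xr w)) ^ 2 := by ring
          rw [e4, Real.sq_sqrt hx, hc, Real.sq_sqrt (by norm_num)]
          have : 0 ≤ 2 * √3 * √(xr w) := by positivity
          linarith
        rw [e2]
        exact mul_le_mul_of_nonneg_left e3 (by positivity)
      rw [List.sum_cons, pow_add]
      calc (1 / 2 : ℝ) ^ i * (1 / 2) ^ w.sum * √(xr (i :: w))
          ≤ (1 / 2 : ℝ) ^ i * (1 / 2) ^ w.sum * (b ^ i * (1 + c * √(xr w))) :=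
            mul_le_mul_of_nonneg_left e1 (by positivity)
        _ = (b / 2) ^ i * ((1 / 2) ^ w.sum + c * ((1 / 2) ^ w.sum * √(xr w))) := by
            have e5 : (b / 2) ^ i = b ^ i * (1 / 2) ^ i := by
              rw [← mul_pow]
              congr 1
              ring
            rw [e5]
            ring
    refine (sum_le_sum h1).trans ?_
    rw [← sum_mul]
    have h2 : ∑ i ∈ Icc 1 I, (b / 2) ^ i ≤ 0.5477 := by
      refine (geom_le I (by positivity) (by linarith)).trans ?_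
      rw [div_le_iff₀ (by linarith)]
      linarith
    have h3 : 0 ≤ P (words I d) + c * ∑ w ∈ words I d, (1 / 2 : ℝ) ^ w.sum * √(xr w) :=
      add_nonneg (P_nonneg _) (mul_nonneg hc0 hX0)
    calc (∑ i ∈ Icc 1 I, (b / 2) ^ i) *
          (P (words I d) + c * ∑ w ∈ words I d, (1 / 2 : ℝ) ^ w.sum * √(xr w))
        ≤ 0.5477 * (P (words I d) + c * ∑ w ∈ words I d, (1 / 2 : ℝ) ^ w.sum * √(xr w)) :=
          mul_le_mul_of_nonneg_right h2 h3
      _ ≤ ((d + 1 : ℕ) : ℝ) := by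
          push_cast
          have h4 : c * ∑ w ∈ words I d, (1 / 2 : ℝ) ^ w.sum * √(xr w) ≤ 1.7321 * d :=
            mul_le_mul hc1 ih hX0 (by norm_num)
          have h5 : (0 : ℝ) ≤ d := Nat.cast_nonneg d
          linarith

theorem xr_tail (I d : ℕ) {t : ℝ} (ht : 0 < t) :
    P ((words I d).filter fun w => t ^ 2 * 2 ^ w.sum < (cw w : ℝ)) ≤ d / t := by
  rw [le_div_iff₀ ht]
  refine le_trans ?_ (mean_sqrt_xr I d)
  rw [P, sum_mul]
  calc ∑ w ∈ (words I d).filter (fun w => t ^ 2 * 2 ^ w.sum < (cw w : ℝ)), (1 / 2 : ℝ) ^ w.sum * t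
      ≤ ∑ w ∈ (words I d).filter (fun w => t ^ 2 * 2 ^ w.sum < (cw w : ℝ)),
          (1 / 2 : ℝ) ^ w.sum * √(xr w) := by
        apply sum_le_sum
        intro w hw
        rw [mem_filter] at hw
        apply mul_le_mul_of_nonneg_left _ (by positivity)
        apply Real.le_sqrt_of_sq_le
        rw [xr, le_div_iff₀ (by positivity)]
        exact hw.2.le
    _ ≤ _ := sum_le_sum_of_subset_of_nonneg (filter_subset _ _) fun _ _ _ => by positivity

end Pool.Agent.Collatz3.PD
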