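import Mathlib
import Pool.Agent.Collatz3.PDProb
import Pool.Agent.Collatz3.PDIface

set_option autoImplicit false

/-!
Positive density: the asymptotic errors.
-/

namespace Pool.Agent.Collatz3.PD

open Finset Filter
open Pool.Agent.Collatz3.Mix (words mem_words sum_words_zero sum_words_succ sum_words_add
  cw_append' cw_inj)

/-! ### Bad blocks -/

theorem P_union_le (G G' : Finset (List ℕ)) : P (G ∪ G') ≤ P G + P G' := by
  unfold P
  have h := sum_union_inter (s₁ := G) (s₂ := G') (f := fun w : List ℕ => (1 / 2 : ℝ) ^ w.sum)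
  have h2 : 0 ≤ ∑ w ∈ G ∩ G', (1 / 2 : ℝ) ^ w.sum := sum_nonneg fun _ _ => by positivity
  linarith

/-- A power with an exponent which is a part of `N` is eventually small. -/
theorem eventually_pow_div (ρ : ℝ) (h0 : 0 < ρ) (h1 : ρ < 1) (q k : ℕ) (hq : 0 < q) (ε : ℝ)
    (hε : 0 < ε) : ∀ᶠ N : ℕ in atTop, ∀ d : ℕ, N / q ≤ d → ρ ^ d * (N : ℝ) ^ k ≤ ε := by
  obtain ⟨σ, hσ⟩ : ∃ σ : ℝ, σ = ρ ^ (1 / (q : ℝ)) := ⟨_, rfl⟩
  have hσ0 : 0 < σ := by rw [hσ]; exact Real.rpow_pos_of_pos h0 _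
  have hσ1 : σ < 1 := by
    rw [hσ]
    exact Real.rpow_lt_one h0.le h1 (by positivity)
  have hσq : σ ^ q = ρ := by
    rw [hσ, ← Real.rpow_natCast, ← Real.rpow_mul h0.le]
    have : 1 / (q : ℝ) * q = 1 := by
      field_simp
    rw [this, Real.rpow_one]
  have ht := tendsto_pow_const_mul_const_pow_of_abs_lt_one k (r := σ)
    (by rw [abs_of_pos hσ0]; exact hσ1)
  have h2 : 0 < ε * σ ^ q := by positivity
  filter_upwards [ht.eventually_lt_const h2] with N hN d hd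
  have h3 : ρ ^ d ≤ ρ ^ (N / q) := pow_le_pow_of_le_one h0.le h1.le hd
  have h4 : ρ ^ (N / q) * σ ^ q ≤ σ ^ N := by
    rw [← hσq, ← pow_mul, ← pow_add]
    apply pow_le_pow_of_le_one hσ0.le hσ1.le
    have h5 := Nat.div_add_mod N q
    have h6 := Nat.mod_lt N hq
    omega
  have h5 : (0 : ℝ) ≤ (N : ℝ) ^ k := by positivity
  have h6 : ρ ^ d * (N : ℝ) ^ k * σ ^ q ≤ ε * σ ^ q := by
    calc ρ ^ d * (N : ℝ) ^ k * σ ^ q ≤ ρ ^ (N / q) * (N : ℝ) ^ k * σ ^ q := by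
          apply mul_le_mul_of_nonneg_right _ (by positivity)
          exact mul_le_mul_of_nonneg_right h3 h5
      _ = (N : ℝ) ^ k * (ρ ^ (N / q) * σ ^ q) := by ring
      _ ≤ (N : ℝ) ^ k * σ ^ N := mul_le_mul_of_nonneg_left h4 h5
      _ ≤ ε * σ ^ q := hN.le
  exact le_of_mul_le_mul_right h6 (by positivity)

theorem bad_small : ∀ᶠ N : ℕ in atTop, ∀ I d : ℕ, N / 20 ≤ d → d ≤ N →
    P (badV I N d) ≤ 1 / (N : ℝ) ^ 8 := by
  obtain ⟨ρ₁, h10, h11, h1⟩ := upper_tail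
  obtain ⟨ρ₂, h20, h21, h2⟩ := lower_tail
  obtain ⟨t, ht⟩ : ∃ t : ℝ, t = √(5 / 4) := ⟨_, rfl⟩
  have ht2 : t ^ 2 = 5 / 4 := by rw [ht]; exact Real.sq_sqrt (by norm_num)
  have ht0 : 0 < t := by rw [ht]; exact Real.sqrt_pos.2 (by norm_num)
  have ht1 : 1 < t := by
    by_contra h
    push Not at h
    nlinarith
  have e1 := eventually_pow_div ρ₁ h10 h11 20 8 (by norm_num) (1 / 3) (by norm_num)
  have e2 := eventually_pow_div ρ₂ h20 h21 20 8 (by norm_num) (1 / 3) (by norm_num)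
  have e3 := eventually_pow_div (1 / t) (by positivity) (by rw [div_lt_one ht0]; exact ht1)
    1 9 (by norm_num) (1 / 3) (by norm_num)
  filter_upwards [e1, e2, e3, eventually_gt_atTop 0] with N f1 f2 f3 hN I d hd hd'
  have hN0 : (0 : ℝ) < N := by exact_mod_cast hN
  have g1 := f1 d hd
  have g2 := f2 d hd
  have g3 := f3 N (by omega)
  have sub : badV I N d ⊆ ((words I d).filter fun w => 201 * d < 100 * w.sum) ∪
      (((words I d).filter fun w => 100 * w.sum < 199 * d) ∪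
      ((words I d).filter fun w => (t ^ N) ^ 2 * 2 ^ w.sum < (cw w : ℝ))) := by
    intro w hw
    rw [badV, mem_filter] at hw
    rw [mem_union, mem_union, mem_filter, mem_filter, mem_filter]
    by_contra hcon
    push Not at hcon
    obtain ⟨c1, c2, c3⟩ := hcon
    apply hw.2
    refine ⟨c2 hw.1, c1 hw.1, ?_⟩
    have := c3 hw.1
    rw [← pow_mul, mul_comm N 2, pow_mul, ht2] at this
    exact this
  have hP : P (badV I N d) ≤ ρ₁ ^ d + (ρ₂ ^ d + d / t ^ N) :=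
    (P_mono sub).trans ((P_union_le _ _).trans (add_le_add (h1 I d)
      ((P_union_le _ _).trans (add_le_add (h2 I d) (xr_tail I d (by positivity))))))
  rw [le_div_iff₀ (by positivity)]
  have hd2 : (d : ℝ) ≤ N := by exact_mod_cast hd'
  have g4 : (d : ℝ) / t ^ N * (N : ℝ) ^ 8 ≤ 1 / 3 := by
    calc (d : ℝ) / t ^ N * (N : ℝ) ^ 8 ≤ (N : ℝ) / t ^ N * (N : ℝ) ^ 8 := by
          apply mul_le_mul_of_nonneg_right _ (by positivity)
          exact div_le_div_of_nonneg_right hd2 (by positivity)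
      _ = (1 / t) ^ N * (N : ℝ) ^ 9 := by
          rw [one_div, inv_pow]
          ring
      _ ≤ 1 / 3 := g3
  calc P (badV I N d) * (N : ℝ) ^ 8 ≤ (ρ₁ ^ d + (ρ₂ ^ d + d / t ^ N)) * (N : ℝ) ^ 8 :=
        mul_le_mul_of_nonneg_right hP (by positivity)
    _ = ρ₁ ^ d * (N : ℝ) ^ 8 + (ρ₂ ^ d * (N : ℝ) ^ 8 + (d : ℝ) / t ^ N * (N : ℝ) ^ 8) := by ring
    _ ≤ 1 := by linarith

/-! ### Mixing -/

theorem Fw_eq_zero {I k s : ℕ} (n : ℕ) (x : ℤ) (h : I * k < s) : Fw I k s n x = 0 := by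
  unfold Fw
  rw [sum_eq_zero]
  intro w hw
  rw [mem_filter, mem_words] at hw
  obtain ⟨⟨h1, h2⟩, h3, -⟩ := hw
  have h4 : w.sum ≤ w.length * I := by
    have := List.sum_le_card_nsmul w I fun i hi => (h2 i hi).2
    simpa using this
  rw [h1, h3, mul_comm] at h4
  omega

theorem Fw_nonneg (I k s n : ℕ) (x : ℤ) : 0 ≤ Fw I k s n x :=
  sum_nonneg fun _ _ => by positivity

theorem abs_key {k m : ℕ} (h : m ≤ k) (a b : ℝ) :
    |3 ^ k * a - 3 ^ m * b| = 3 ^ k * |a - b / 3 ^ (k - m)| := by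
  have h1 : (3 : ℝ) ^ k * a - 3 ^ m * b = 3 ^ k * (a - b / 3 ^ (k - m)) := by
    have h2 : (3 : ℝ) ^ k = 3 ^ m * 3 ^ (k - m) := by rw [← pow_add]; congr 1; omega
    rw [h2]
    field_simp
  rw [h1, abs_mul, abs_of_pos (by positivity)]

/-- The total error of the mixing statement. -/
noncomputable def err (I k m : ℕ) : ℝ :=
  ∑ s ∈ range (I * k + 1), ∑ x ∈ range (3 ^ k), |Fw I k s k (x : ℤ) - Fw I k s m (x : ℤ) / 3 ^ (k - m)|

theorem err_s {I k m : ℕ} (hm : m ≤ k) (s : ℕ) :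
    A k (fun x => |3 ^ k * Fw I k s k x - 3 ^ m * Fw I k s m x|) ≤ err I k m := by
  have h1 : A k (fun x => |3 ^ k * Fw I k s k x - 3 ^ m * Fw I k s m x|) =
      ∑ x ∈ range (3 ^ k), |Fw I k s k (x : ℤ) - Fw I k s m (x : ℤ) / 3 ^ (k - m)| := by
    unfold A S
    rw [sum_div]
    apply sum_congr rfl
    intro x _
    beta_reduce
    rw [abs_key hm, mul_comm, mul_div_assoc, div_self (by positivity), mul_one]
  rw [h1]
  by_cases hs : s ≤ I * k
  · unfold err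
    exact single_le_sum (f := fun s => ∑ x ∈ range (3 ^ k),
      |Fw I k s k (x : ℤ) - Fw I k s m (x : ℤ) / 3 ^ (k - m)|)
      (fun _ _ => sum_nonneg fun _ _ => abs_nonneg _) (mem_range.2 (by omega))
  · rw [sum_eq_zero]
    · exact sum_nonneg fun _ _ => sum_nonneg fun _ _ => abs_nonneg _
    · intro x _
      rw [Fw_eq_zero _ _ (by omega), Fw_eq_zero _ _ (by omega)]
      simp

theorem sum_Fw (I k n : ℕ) (x : ℤ) : ∑ s ∈ range (I * k + 1), Fw I k s n x =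
    ∑ w ∈ (words I k).filter (fun w => (3 : ℤ) ^ n ∣ 2 ^ w.sum * x - cw w), (1 / 2 : ℝ) ^ w.sum := by
  rw [← sum_fiberwise_of_maps_to (s := (words I k).filter _) (t := range (I * k + 1))
    (g := fun w => w.sum) (fun w hw => by
      rw [mem_filter, mem_words] at hw
      have := List.sum_le_card_nsmul w I fun i hi => (hw.1.2 i hi).2
      rw [hw.1.1] at this
      rw [mem_range]
      have h2 : k • I = I * k := by rw [smul_eq_mul, mul_comm]
      omega)]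
  apply sum_congr rfl
  intro s _
  unfold Fw
  rw [filter_filter]
  apply sum_congr
  · ext w
    rw [mem_filter, mem_filter]
    constructor
    · rintro ⟨h1, h2, h3⟩
      exact ⟨h1, by rw [h2]; exact h3, h2⟩
    · rintro ⟨h1, h2, h3⟩
      exact ⟨h1, h3, by rw [← h3]; exact h2⟩
  · intro w hw
    rw [mem_filter] at hw
    rw [hw.2.2]

theorem U_eq_sum (I k : ℕ) (x : ℤ) :
    U I k x = 3 ^ k * ∑ s ∈ range (I * k + 1), Fw I k s k x := by
  rw [sum_Fw, mul_sum]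
  unfold U
  apply sum_congr _ fun _ _ => rfl
  ext w
  rw [mem_filter, mem_filter]
  constructor
  · rintro ⟨h1, h2⟩
    rw [rd, words_length h1] at h2
    exact ⟨h1, h2⟩
  · rintro ⟨h1, h2⟩
    refine ⟨h1, ?_⟩
    rw [rd, words_length h1]
    exact h2

theorem cut_iff {u v : List ℕ} {m : ℕ} (hu : u.length = m) (x : ℤ) :
    (3 : ℤ) ^ m ∣ 2 ^ (u ++ v).sum * x - cw (u ++ v) ↔ rd u x := by
  rw [append_key, hu]
  constructor
  · intro h
    have h2 := dvd_add h (dvd_mul_right ((3 : ℤ) ^ m) (cw v : ℤ))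
    rw [sub_add_cancel] at h2
    rw [rd, hu]
    exact three_pow_dvd_of_mul h2
  · intro h
    rw [rd, hu] at h
    exact dvd_sub (h.mul_left _) (dvd_mul_right _ _)

theorem U_eq_sum' {I k m : ℕ} (hm : m ≤ k) (x : ℤ) :
    Z I ^ (k - m) * U I m x = 3 ^ m * ∑ s ∈ range (I * k + 1), Fw I k s m x := by
  obtain ⟨l, rfl⟩ := Nat.exists_eq_add_of_le hm
  rw [sum_Fw, Nat.add_sub_cancel_left, sum_filter, words_add,
    sum_cat fun w h => words_length h, U, mul_sum, mul_sum, sum_filter]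
  apply sum_congr rfl
  intro u hu
  have hu' := words_length hu
  by_cases h : rd u x
  · rw [if_pos h, ← P_words, P]
    have h1 : ∀ v ∈ words I l, (if (3 : ℤ) ^ m ∣ 2 ^ (u ++ v).sum * x - cw (u ++ v) then
        (1 / 2 : ℝ) ^ (u ++ v).sum else 0) = (1 / 2) ^ u.sum * (1 / 2) ^ v.sum := by
      intro v _
      rw [if_pos ((cut_iff hu' x).2 h), List.sum_append, pow_add]
    rw [sum_congr rfl h1, ← mul_sum]
    ring
  · rw [if_neg h]
    have h1 : ∀ v ∈ words I l, (if (3 : ℤ) ^ m ∣ 2 ^ (u ++ v).sum * x - cw (u ++ v) then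
        (1 / 2 : ℝ) ^ (u ++ v).sum else 0) = 0 := by
      intro v _
      rw [if_neg fun h' => h ((cut_iff hu' x).1 h')]
    rw [sum_congr rfl h1]
    simp

theorem err_U {I k m : ℕ} (hm : m ≤ k) :
    A k (fun x => |U I k x - Z I ^ (k - m) * U I m x|) ≤ err I k m := by
  have h1 : ∀ x : ℤ, |U I k x - Z I ^ (k - m) * U I m x| ≤
      3 ^ k * ∑ s ∈ range (I * k + 1), |Fw I k s k x - Fw I k s m x / 3 ^ (k - m)| := by
    intro x
    rw [U_eq_sum, U_eq_sum' hm, mul_sum, mul_sum, ← sum_sub_distrib, mul_sum]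
    refine (abs_sum_le_sum_abs _ _).trans (le_of_eq ?_)
    apply sum_congr rfl
    intro s _
    rw [abs_key hm]
  refine (A_mono h1).trans (le_of_eq ?_)
  rw [A_mul]
  unfold A S err
  rw [sum_comm, mul_comm, div_mul_cancel₀ _ (by positivity)]

theorem A_of_per {m k : ℕ} (h : m ≤ k) {f : ℤ → ℝ} (hf : Per m f) : A k f = A m f := by
  obtain ⟨l, rfl⟩ := Nat.exists_eq_add_of_le h
  have h1 := shift_sum_mul hf 0 (3 ^ l)
  unfold A
  have h2 : S (m + l) f = ∑ j ∈ range (3 ^ l * 3 ^ m), f (0 + j) := by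
    unfold S
    rw [← pow_add, add_comm l m]
    apply sum_congr rfl
    intro x _
    rw [zero_add]
  rw [h2, h1, pow_add]
  push_cast
  field_simp

theorem err_U' {I k m : ℕ} (hm : m ≤ k) :
    A k (fun x => |U I k x - U I m x|) ≤ err I k m + k * (1 / 2 : ℝ) ^ I := by
  have h1 : ∀ x : ℤ, |U I k x - U I m x| ≤
      |U I k x - Z I ^ (k - m) * U I m x| + (1 - Z I ^ (k - m)) * U I m x := by
    intro x
    have h2 : U I k x - U I m x = (U I k x - Z I ^ (k - m) * U I m x) -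
        (1 - Z I ^ (k - m)) * U I m x := by ring
    have h3 : 0 ≤ (1 - Z I ^ (k - m)) * U I m x :=
      mul_nonneg (by
        have := pow_le_one₀ (n := k - m) (Z_nonneg I) (Z_le_one I)
        linarith) (U_nonneg I m x)
    rw [h2]
    refine (abs_sub _ _).trans ?_
    rw [abs_of_nonneg h3]
  refine (A_mono h1).trans ?_
  rw [A_add, A_mul, A_of_per hm (per_U I m), A_U]
  have h4 := one_sub_Z_pow I (k - m)
  have h5 : Z I ^ m ≤ 1 := pow_le_one₀ (Z_nonneg I) (Z_le_one I)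
  have h6 : 0 ≤ Z I ^ m := pow_nonneg (Z_nonneg I) m
  have h7 : ((k - m : ℕ) : ℝ) ≤ k := by exact_mod_cast Nat.sub_le k m
  have h8 : 0 ≤ 1 - Z I ^ (k - m) := by
    have := pow_le_one₀ (n := k - m) (Z_nonneg I) (Z_le_one I)
    linarith
  have h9 : (1 - Z I ^ (k - m)) * Z I ^ m ≤ k * (1 / 2 : ℝ) ^ I := by
    calc (1 - Z I ^ (k - m)) * Z I ^ m ≤ (1 - Z I ^ (k - m)) * 1 :=
          mul_le_mul_of_nonneg_left h5 h8
      _ ≤ ((k - m : ℕ) : ℝ) * (1 / 2 : ℝ) ^ I := by rw [mul_one]; exact h4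
      _ ≤ k * (1 / 2 : ℝ) ^ I := mul_le_mul_of_nonneg_right h7 (by positivity)
  exact add_le_add (err_U hm) h9

theorem tendsto_log_two : Tendsto (fun N : ℕ => Nat.log 2 N) atTop atTop := by
  rw [tendsto_atTop]
  intro b
  filter_upwards [eventually_ge_atTop (2 ^ b)] with N hN
  exact Nat.le_log_of_pow_le (by norm_num) hN

theorem err_small (h : MixRate) {ε : ℝ} (hε : 0 < ε) : ∀ᶠ N : ℕ in atTop, ∀ k : ℕ, N / 20 ≤ k →
    err (II N) k (N / 20) ≤ ε / (N : ℝ) ^ 8 := by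
  obtain ⟨C, I₀, hC⟩ := h 20
  obtain ⟨K, hK⟩ : ∃ K : ℝ, K = |C| * 12 ^ 42 * 40 ^ 20 := ⟨_, rfl⟩
  have hK0 : 0 ≤ K := by rw [hK]; positivity
  have t1 := (tendsto_pow_const_div_const_pow_of_one_lt 42 (r := (2 ^ 12 : ℝ))
    (by norm_num)).comp tendsto_log_two
  have h2 : 0 < ε / (K + 1) := by positivity
  filter_upwards [t1.eventually_lt_const h2, tendsto_log_two.eventually_ge_atTop I₀,
    eventually_ge_atTop 40] with N hN hI hN40 k hk
  have hL : I₀ ≤ II N := by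
    unfold II
    omega
  obtain ⟨L, hLdef⟩ : ∃ L : ℕ, L = Nat.log 2 N := ⟨_, rfl⟩
  have hN0 : (0 : ℝ) < N := by
    have : 0 < N := by omega
    exact_mod_cast this
  have h3 : err (II N) k (N / 20) ≤ C * ((II N : ℕ) : ℝ) ^ 42 / ((N / 20 : ℕ) : ℝ) ^ 20 :=
    hC (II N) (N / 20) k hL (by omega) hk
  refine h3.trans ?_
  have h4 : (N : ℝ) / 40 ≤ ((N / 20 : ℕ) : ℝ) := by
    rw [div_le_iff₀ (by norm_num)]
    have : N ≤ N / 20 * 40 := by omega
    exact_mod_cast this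
  have h5 : ((II N : ℕ) : ℝ) = 12 * L := by
    unfold II
    rw [hLdef]
    push_cast
    ring
  have h6 : (L : ℝ) ^ 42 * (K + 1) ≤ ε * (N : ℝ) ^ 12 := by
    have e1 : (L : ℝ) ^ 42 / (2 ^ 12) ^ L < ε / (K + 1) := by
      rw [hLdef]
      exact hN
    rw [div_lt_div_iff₀ (by positivity) (by positivity)] at e1
    refine e1.le.trans ?_
    apply mul_le_mul_of_nonneg_left _ hε.le
    have e2 : 2 ^ L ≤ N := by
      rw [hLdef]
      exact Nat.pow_log_le_self 2 (by omega)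
    have e3 : (2 : ℝ) ^ L ≤ N := by exact_mod_cast e2
    rw [← pow_mul, mul_comm, pow_mul]
    exact pow_le_pow_left₀ (by positivity) e3 12
  have hm0 : (0 : ℝ) < ((N / 20 : ℕ) : ℝ) := lt_of_lt_of_le (by positivity) h4
  rw [div_le_div_iff₀ (by positivity) (by positivity), h5]
  have h7 : ε * (N : ℝ) ^ 20 / 40 ^ 20 ≤ ε * ((N / 20 : ℕ) : ℝ) ^ 20 := by
    rw [mul_div_assoc, ← div_pow]
    apply mul_le_mul_of_nonneg_left _ hε.le
    exact pow_le_pow_left₀ (by positivity) h4 20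
  refine le_trans ?_ h7
  rw [le_div_iff₀ (by positivity)]
  calc C * (12 * (L : ℝ)) ^ 42 * (N : ℝ) ^ 8 * 40 ^ 20
      ≤ |C| * (12 * (L : ℝ)) ^ 42 * (N : ℝ) ^ 8 * 40 ^ 20 := by
        have := le_abs_self C
        gcongr
    _ = K * (L : ℝ) ^ 42 * (N : ℝ) ^ 8 := by rw [hK]; ring
    _ ≤ (L : ℝ) ^ 42 * (K + 1) * (N : ℝ) ^ 8 := by
        have : (0 : ℝ) ≤ (L : ℝ) ^ 42 * (N : ℝ) ^ 8 := by positivity
        nlinarith
    _ ≤ ε * (N : ℝ) ^ 12 * (N : ℝ) ^ 8 := mul_le_mul_of_nonneg_right h6 (by positivity)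
    _ = ε * (N : ℝ) ^ 20 := by ring

theorem mix_small_s (h : MixRate) : ∀ᶠ N : ℕ in atTop, ∀ k s : ℕ, N / 20 ≤ k → k ≤ N / 4 →
    A k (fun x => |3 ^ k * Fw (II N) k s k x - 3 ^ (N / 20) * Fw (II N) k s (N / 20) x|) ≤
      1 / (N : ℝ) ^ 8 := by
  filter_upwards [err_small h one_pos] with N hN k s hk _
  exact (err_s hk s).trans (hN k hk)

theorem mix_small (h : MixRate) : ∀ᶠ N : ℕ in atTop, ∀ k : ℕ, N / 20 ≤ k → k ≤ N / 4 →
    A k (fun x => |U (II N) k x - U (II N) (N / 20) x|) ≤ 1 / (N : ℝ) ^ 8 := by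
  filter_upwards [err_small h (ε := 1 / 2) (by norm_num), eventually_ge_atTop 40] with N hN h40 k hk hk'
  refine (err_U' hk).trans ?_
  have h1 := hN k hk
  have hN0 : (40 : ℝ) ≤ N := by exact_mod_cast h40
  have h2 : (1 / 2 : ℝ) ^ (II N) ≤ (2 / (N : ℝ)) ^ 12 := by
    unfold II
    rw [mul_comm, pow_mul]
    apply pow_le_pow_left₀ (by positivity)
    have e1 : N < 2 ^ (Nat.log 2 N + 1) := Nat.lt_pow_succ_log_self (by norm_num) N
    have e2 : (N : ℝ) < 2 ^ (Nat.log 2 N + 1) := by exact_mod_cast e1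
    rw [pow_succ] at e2
    rw [one_div, inv_pow, ← one_div, div_le_div_iff₀ (by positivity) (by linarith)]
    linarith
  have h3 : (k : ℝ) * (1 / 2 : ℝ) ^ (II N) ≤ 1 / 2 / (N : ℝ) ^ 8 := by
    have e1 : (k : ℝ) ≤ N := by
      have : k ≤ N := by omega
      exact_mod_cast this
    calc (k : ℝ) * (1 / 2 : ℝ) ^ (II N) ≤ N * (2 / (N : ℝ)) ^ 12 :=
          mul_le_mul e1 h2 (by positivity) (by positivity)
      _ = 4096 / (N : ℝ) ^ 11 := by
          rw [div_pow]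
          field_simp
          norm_num
      _ ≤ 1 / 2 / (N : ℝ) ^ 8 := by
          rw [div_le_div_iff₀ (by positivity) (by positivity)]
          have e2 : (40 : ℝ) ^ 3 ≤ (N : ℝ) ^ 3 := pow_le_pow_left₀ (by norm_num) hN0 3
          have e3 : (0 : ℝ) ≤ (N : ℝ) ^ 8 := by positivity
          nlinarith
  have h4 : 1 / 2 / (N : ℝ) ^ 8 + 1 / 2 / (N : ℝ) ^ 8 = 1 / (N : ℝ) ^ 8 := by ring
  linarith

/-! ### A numerical inequality -/

theorem num_small : ∀ᶠ N : ℕ in atTop, (3 : ℝ) ^ N * (5 / 4) ^ N ≤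
    (1 / (N : ℝ) - 1 / ((N + N / 20 : ℕ) : ℝ)) * (2 : ℝ) ^ ((199 * N + 99) / 100) := by
  obtain ⟨b, hb⟩ : ∃ b : ℝ, b = (2 : ℝ) ^ (199 / 100 : ℝ) := ⟨_, rfl⟩
  have hb0 : 0 < b := by rw [hb]; exact Real.rpow_pos_of_pos (by norm_num) _
  have hb100 : b ^ 100 = (2 : ℝ) ^ 199 := by
    rw [hb, ← Real.rpow_natCast, ← Real.rpow_mul (by norm_num), ← Real.rpow_natCast]
    norm_num
  have hlt : (15 / 4 : ℝ) < b := by
    apply lt_of_pow_lt_pow_left₀ 100 hb0.le
    rw [hb100]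
    norm_num
  have e1 := eventually_pow_div (15 / 4 / b) (by positivity) (by rw [div_lt_one hb0]; exact hlt)
    1 2 (by norm_num) (1 / 3) (by norm_num)
  filter_upwards [e1, eventually_ge_atTop 40] with N hN h40
  have h1 := hN N (by omega)
  have hN0 : (40 : ℝ) ≤ N := by exact_mod_cast h40
  have h2 : b ^ N ≤ (2 : ℝ) ^ ((199 * N + 99) / 100) := by
    rw [hb, ← Real.rpow_natCast, ← Real.rpow_natCast, ← Real.rpow_mul (by norm_num)]
    apply Real.rpow_le_rpow_of_exponent_le (by norm_num)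
    have e2 : 199 * N ≤ (199 * N + 99) / 100 * 100 := by omega
    have e3 : (199 : ℝ) * N ≤ ((199 * N + 99) / 100 : ℕ) * 100 := by exact_mod_cast e2
    linarith
  have h3 : 1 / (3 * (N : ℝ) ^ 2) ≤ 1 / (N : ℝ) - 1 / ((N + N / 20 : ℕ) : ℝ) := by
    obtain ⟨q, hq⟩ : ∃ q : ℕ, q = N / 20 := ⟨_, rfl⟩
    rw [← hq]
    have f1 : 1 ≤ q := by omega
    have f2 : q ≤ N := by omega
    have f3 : (1 : ℝ) ≤ q := by exact_mod_cast f1
    have f4 : (q : ℝ) ≤ N := by exact_mod_cast f2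
    push_cast
    have f5 : 1 / (N : ℝ) - 1 / ((N : ℝ) + q) = q / (N * (N + q)) := by
      field_simp
      ring
    rw [f5, div_le_div_iff₀ (by positivity) (by positivity)]
    nlinarith
  have h4 : (3 : ℝ) ^ N * (5 / 4) ^ N = (15 / 4 / b) ^ N * b ^ N := by
    rw [← mul_pow, ← mul_pow]
    congr 1
    field_simp
    ring
  rw [h4]
  have h5 : (15 / 4 / b) ^ N ≤ 1 / (3 * (N : ℝ) ^ 2) := by
    rw [le_div_iff₀ (by positivity)]
    linarith
  exact mul_le_mul (h5.trans h3) h2 (by positivity) (by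
    have : 0 ≤ 1 / (3 * (N : ℝ) ^ 2) := by positivity
    linarith)

end Pool.Agent.Collatz3.PD
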