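import Mathlib
import Pool.Agent.Collatz3.VLaw

set_option autoImplicit false

/-!
Submultiplicativity of `Vf` under convolution, invariance under translations and under
multiplication by `2`, and the recursion `V(n) ≤ V'(k, n) V(n - k)`.
-/

namespace Pool.Agent.Collatz3.Mix

open Finset Real

lemma q3_rot (a b c : ℝ) : q3 b c a = q3 a b c := by
  unfold q3
  have e1 : 3 * (b ^ 2 + c ^ 2 + a ^ 2) - (b + c + a) ^ 2 =
    3 * (a ^ 2 + b ^ 2 + c ^ 2) - (a + b + c) ^ 2 := by ring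
  have e2 : 2 * (b + c + a) = 2 * (a + b + c) := by ring
  rw [e1, e2]

lemma q3_swap (a b c : ℝ) : q3 a c b = q3 a b c := by
  unfold q3
  have e1 : 3 * (a ^ 2 + c ^ 2 + b ^ 2) - (a + c + b) ^ 2 =
    3 * (a ^ 2 + b ^ 2 + c ^ 2) - (a + b + c) ^ 2 := by ring
  have e2 : 2 * (a + c + b) = 2 * (a + b + c) := by ring
  rw [e1, e2]

lemma q3_zero : q3 0 0 0 = 0 := by simp [q3]

/-- Multiplicativity for the cyclic convolution. -/
lemma q3_conv (a b c x y w : ℝ) :
    q3 (a * x + b * w + c * y) (a * y + b * x + c * w) (a * w + b * y + c * x) =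
      q3 a b c * q3 x y w := by
  unfold q3
  rw [div_mul_div_comm]
  have e1 : (3 * (a ^ 2 + b ^ 2 + c ^ 2) - (a + b + c) ^ 2) *
      (3 * (x ^ 2 + y ^ 2 + w ^ 2) - (x + y + w) ^ 2) =
      2 * (3 * ((a * x + b * w + c * y) ^ 2 + (a * y + b * x + c * w) ^ 2 +
        (a * w + b * y + c * x) ^ 2) -
        (a * x + b * w + c * y + (a * y + b * x + c * w) + (a * w + b * y + c * x)) ^ 2) := by
    ring
  have e2 : 2 * (a + b + c) * (2 * (x + y + w)) =
      2 * (2 * (a * x + b * w + c * y + (a * y + b * x + c * w) + (a * w + b * y + c * x))) := by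
    ring
  rw [e1, e2, mul_div_mul_left _ _ (by norm_num : (2 : ℝ) ≠ 0)]

/-- The generator of the kernel of the reduction. -/
noncomputable def tt (n : ℕ) : ZMod (3 ^ (n + 1)) := 3 ^ n

lemma three_tt (n : ℕ) : 3 * tt n = 0 := by
  exact (pow_succ' _ _).symm.trans (three_pow_self (n + 1))

lemma lift3_one (n : ℕ) (x : ZMod (3 ^ n)) : lift3 n x 1 = lift3 n x 0 + tt n := by
  unfold lift3 tt
  push_cast
  ring

lemma lift3_two (n : ℕ) (x : ZMod (3 ^ n)) : lift3 n x 2 = lift3 n x 0 + 2 * tt n := by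
  unfold lift3 tt
  push_cast
  ring

/-- The formula for `Vf` without choice of base points. -/
lemma three_Vf (n : ℕ) (ρ : ZMod (3 ^ (n + 1)) → ℝ) :
    3 * Vf n ρ = ∑ y, q3 (ρ y) (ρ (y + tt n)) (ρ (y + 2 * tt n)) := by
  rw [← sum_fs n, Vf_eq, mul_sum]
  apply sum_congr rfl
  intro x _
  rw [sum_fibre, lift3_one, lift3_two]
  have h := three_tt n
  have e1 : lift3 n x 0 + tt n + tt n = lift3 n x 0 + 2 * tt n := by ring
  have e2 : lift3 n x 0 + tt n + 2 * tt n = lift3 n x 0 := by linear_combination h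
  have e3 : lift3 n x 0 + 2 * tt n + tt n = lift3 n x 0 := by linear_combination h
  have e4 : lift3 n x 0 + 2 * tt n + 2 * tt n = lift3 n x 0 + tt n := by linear_combination h
  rw [e1, e2, e3, e4, q3_rot, q3_rot (ρ (lift3 n x 0)), ← q3_rot (ρ (lift3 n x 0))]
  have := q3_rot (ρ (lift3 n x 0)) (ρ (lift3 n x 0 + tt n)) (ρ (lift3 n x 0 + 2 * tt n))
  have := q3_rot (ρ (lift3 n x 0 + tt n)) (ρ (lift3 n x 0 + 2 * tt n)) (ρ (lift3 n x 0))
  linarith

/-- Translation invariance. -/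
lemma Vf_translate (n : ℕ) (ρ : ZMod (3 ^ (n + 1)) → ℝ) (a : ZMod (3 ^ (n + 1))) :
    Vf n (fun y => ρ (y - a)) = Vf n ρ := by
  have h1 := three_Vf n (fun y => ρ (y - a))
  have h2 := three_Vf n ρ
  have h3 : ∑ y, q3 (ρ (y - a)) (ρ (y + tt n - a)) (ρ (y + 2 * tt n - a)) =
      ∑ y, q3 (ρ y) (ρ (y + tt n)) (ρ (y + 2 * tt n)) := by
    refine (sum_congr rfl fun y _ => ?_).trans ((Equiv.subRight a).sum_comp
      (fun y => q3 (ρ y) (ρ (y + tt n)) (ρ (y + 2 * tt n))))
    simp only [Equiv.subRight_apply]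
    have e1 : y + tt n - a = y - a + tt n := by ring
    have e2 : y + 2 * tt n - a = y - a + 2 * tt n := by ring
    rw [e1, e2]
  linarith

/-- Multiplication by `2`. -/
lemma Vf_two (n : ℕ) (ρ : ZMod (3 ^ (n + 1)) → ℝ) :
    Vf n (fun y => ρ (2 * y)) = Vf n ρ := by
  have h1 := three_Vf n (fun y => ρ (2 * y))
  have h2 := three_Vf n ρ
  have h3 : ∑ y, q3 (ρ (2 * y)) (ρ (2 * (y + tt n))) (ρ (2 * (y + 2 * tt n))) =
      ∑ y, q3 (ρ y) (ρ (y + tt n)) (ρ (y + 2 * tt n)) := by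
    have hb : Function.Bijective (fun y : ZMod (3 ^ (n + 1)) => 2 * y) := by
      refine ⟨fun a b hab => ?_, fun a => ⟨2⁻¹ * a, ?_⟩⟩
      · have : 2 * a = 2 * b := hab
        have h := two_mul_inv_two (n + 1)
        linear_combination (a - b) * (-h) + (2⁻¹ : ZMod (3 ^ (n + 1))) * this
      · have h := two_mul_inv_two (n + 1)
        show 2 * (2⁻¹ * a) = a
        linear_combination a * h
    refine (sum_congr rfl fun y _ => ?_).trans ((Equiv.ofBijective _ hb).sum_comp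
      (fun y => q3 (ρ y) (ρ (y + tt n)) (ρ (y + 2 * tt n))))
    simp only [Equiv.ofBijective_apply]
    have h := three_tt n
    have e1 : 2 * (y + tt n) = 2 * y + 2 * tt n := by ring
    have e2 : 2 * (y + 2 * tt n) = 2 * y + tt n := by linear_combination h
    rw [e1, e2, q3_swap]
  linarith

lemma Vf_two_pow (n s : ℕ) (ρ : ZMod (3 ^ (n + 1)) → ℝ) :
    Vf n (fun y => ρ (2 ^ s * y)) = Vf n ρ := by
  induction s with
  | zero => simp
  | succ s ih =>
    rw [← ih, ← Vf_two n (fun y => ρ (2 ^ s * y))]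
    congr 1
    ext y
    rw [pow_succ (2 : ZMod (3 ^ (n + 1))) s, mul_assoc]

/-- Convolution. -/
noncomputable def cv (n : ℕ) (ρ σ : ZMod (3 ^ (n + 1)) → ℝ) (y : ZMod (3 ^ (n + 1))) : ℝ :=
  ∑ u, ρ u * σ (y - u)

/-- Submultiplicativity for the convolution. -/
lemma Vf_cv (n : ℕ) {ρ σ : ZMod (3 ^ (n + 1)) → ℝ} (h : ∀ y, 0 ≤ ρ y) (h' : ∀ y, 0 ≤ σ y) :
    Vf n (cv n ρ σ) ≤ Vf n ρ * Vf n σ := by
  set F : ZMod (3 ^ n) → ZMod (3 ^ (n + 1)) → ℝ := fun x y =>
    ρ (lift3 n x 0) * σ (y - lift3 n x 0) + ρ (lift3 n x 1) * σ (y - lift3 n x 1) +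
      ρ (lift3 n x 2) * σ (y - lift3 n x 2) with hF
  have h1 : cv n ρ σ = fun y => ∑ x ∈ univ, F x y := by
    ext y
    unfold cv
    rw [← sum_fs n]
    apply sum_congr rfl
    intro x _
    rw [sum_fibre]
  have h2 : ∀ x, Vf n (F x) =
      q3 (ρ (lift3 n x 0)) (ρ (lift3 n x 1)) (ρ (lift3 n x 2)) * Vf n σ := by
    intro x
    set l := lift3 n x 0 with hl
    set a := ρ l with ha
    set b := ρ (lift3 n x 1) with hb
    set c := ρ (lift3 n x 2) with hc
    have e0 : F x = fun y => (fun y => a * σ y + b * σ (y - tt n) + c * σ (y - 2 * tt n))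
        (y - l) := by
      ext y
      simp only [hF]
      rw [← hb, ← hc, lift3_one, lift3_two, ← hl]
      have e1 : y - (l + tt n) = y - l - tt n := by ring
      have e2 : y - (l + 2 * tt n) = y - l - 2 * tt n := by ring
      rw [e1, e2]
    rw [e0]
    refine (Vf_translate n (fun y => a * σ y + b * σ (y - tt n) + c * σ (y - 2 * tt n)) l).trans ?_
    have e3 := three_Vf n (fun y => a * σ y + b * σ (y - tt n) + c * σ (y - 2 * tt n))
    have e4 := three_Vf n σ
    have e5 : ∑ y, q3 (a * σ y + b * σ (y - tt n) + c * σ (y - 2 * tt n))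
        (a * σ (y + tt n) + b * σ (y + tt n - tt n) + c * σ (y + tt n - 2 * tt n))
        (a * σ (y + 2 * tt n) + b * σ (y + 2 * tt n - tt n) + c * σ (y + 2 * tt n - 2 * tt n)) =
        q3 a b c * ∑ y, q3 (σ y) (σ (y + tt n)) (σ (y + 2 * tt n)) := by
      rw [mul_sum]
      apply sum_congr rfl
      intro y _
      have h := three_tt n
      have f1 : y - tt n = y + 2 * tt n := by linear_combination -h
      have f2 : y - 2 * tt n = y + tt n := by linear_combination -h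
      have f3 : y + tt n - tt n = y := by ring
      have f4 : y + tt n - 2 * tt n = y + 2 * tt n := by linear_combination -h
      have f5 : y + 2 * tt n - tt n = y + tt n := by ring
      have f6 : y + 2 * tt n - 2 * tt n = y := by ring
      rw [f1, f2, f3, f4, f5, f6, ← q3_conv]
    have e6 : 3 * Vf n (fun y => a * σ y + b * σ (y - tt n) + c * σ (y - 2 * tt n)) =
        q3 a b c * (3 * Vf n σ) := by
      rw [e3, e4, ← e5]
    linarith
  rw [h1]
  refine (Vf_sum n univ (ρ := F) fun x _ y => ?_).trans ?_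
  · simp only [hF]
    have := h (lift3 n x 0)
    have := h (lift3 n x 1)
    have := h (lift3 n x 2)
    have := h' (y - lift3 n x 0)
    have := h' (y - lift3 n x 1)
    have := h' (y - lift3 n x 2)
    positivity
  · rw [Vf_eq n ρ, sum_mul]
    exact le_of_eq (sum_congr rfl fun x _ => h2 x)

/-! ### Scaling by powers of three -/

lemma iota_aux (k m : ℕ) :
    (AddMonoidHom.mulRight ((3 : ZMod (3 ^ (k + m + 1))) ^ k)).comp
      (Int.castAddHom (ZMod (3 ^ (k + m + 1)))) ((3 ^ (m + 1) : ℕ) : ℤ) = 0 := by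
  simp only [AddMonoidHom.coe_comp, Int.coe_castAddHom, Function.comp_apply,
    AddMonoidHom.coe_mulRight]
  push_cast
  rw [← pow_add]
  have := three_pow_self (k + m + 1)
  rw [← this]
  congr 1
  omega

/-- Multiplication by `3 ^ k` from `ZMod (3 ^ (m + 1))` to `ZMod (3 ^ (k + m + 1))`. -/
noncomputable def iota (k m : ℕ) : ZMod (3 ^ (m + 1)) →+ ZMod (3 ^ (k + m + 1)) :=
  ZMod.lift (3 ^ (m + 1)) ⟨_, iota_aux k m⟩

lemma iota_coe (k m : ℕ) (a : ℤ) : iota k m (a : ZMod (3 ^ (m + 1))) = a * 3 ^ k := by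
  unfold iota
  rw [ZMod.lift_coe]
  simp

lemma iota_injective (k m : ℕ) : Function.Injective (iota k m) := by
  unfold iota
  rw [ZMod.lift_injective]
  intro a ha
  simp only [AddMonoidHom.coe_comp, Int.coe_castAddHom, Function.comp_apply,
    AddMonoidHom.coe_mulRight] at ha
  have h1 : ((a * 3 ^ k : ℤ) : ZMod (3 ^ (k + m + 1))) = 0 := by
    push_cast
    exact ha
  rw [ZMod.intCast_zmod_eq_zero_iff_dvd] at h1 ⊢
  push_cast at h1 ⊢
  have e : (3 : ℤ) ^ (k + m + 1) = 3 ^ (m + 1) * 3 ^ k := by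
    rw [← pow_add]
    congr 1
    omega
  rw [e] at h1
  exact Int.dvd_of_mul_dvd_mul_right (by positivity) h1

lemma iota_tt (k m : ℕ) : iota k m (tt m) = tt (k + m) := by
  have h : tt m = ((3 ^ m : ℤ) : ZMod (3 ^ (m + 1))) := by
    unfold tt
    push_cast
    rfl
  rw [h, iota_coe]
  unfold tt
  push_cast
  rw [← pow_add]
  congr 1
  omega

lemma cast_inv_two {M N : ℕ} (h : 3 ^ M ∣ 3 ^ N) :
    ZMod.castHom h (ZMod (3 ^ M)) (2⁻¹) = 2⁻¹ := by
  have h1 : (2 : ZMod (3 ^ M)) * ZMod.castHom h (ZMod (3 ^ M)) (2⁻¹) = 1 := by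
    have := congrArg (ZMod.castHom h (ZMod (3 ^ M))) (two_mul_inv_two N)
    rw [map_mul, map_one, map_ofNat] at this
    exact this
  have h2 := two_mul_inv_two M
  calc ZMod.castHom h (ZMod (3 ^ M)) (2⁻¹)
      = (2 * 2⁻¹) * ZMod.castHom h (ZMod (3 ^ M)) (2⁻¹) := by rw [h2, one_mul]
    _ = 2⁻¹ * (2 * ZMod.castHom h (ZMod (3 ^ M)) (2⁻¹)) := by ring
    _ = 2⁻¹ := by rw [h1, mul_one]

lemma cast_Xw {M N : ℕ} (h : 3 ^ M ∣ 3 ^ N) (w : List ℕ) :
    ZMod.castHom h (ZMod (3 ^ M)) (Xw N w) = Xw M w := by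
  rw [Xw, Xw, map_mul, map_pow, cast_inv_two, map_natCast]

lemma iota_cast (k m : ℕ) (h : 3 ^ (m + 1) ∣ 3 ^ (k + m + 1)) (y : ZMod (3 ^ (k + m + 1))) :
    iota k m (ZMod.castHom h (ZMod (3 ^ (m + 1))) y) = 3 ^ k * y := by
  obtain ⟨a, rfl⟩ := ZMod.intCast_surjective y
  rw [map_intCast, iota_coe, mul_comm]

lemma iota_Xw (k m : ℕ) (w : List ℕ) :
    iota k m (Xw (m + 1) w) = 3 ^ k * Xw (k + m + 1) w := by
  have h : 3 ^ (m + 1) ∣ 3 ^ (k + m + 1) := pow_dvd_pow 3 (by omega)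
  rw [← cast_Xw h, iota_cast]

/-- The law of `3 ^ k X_w`. -/
noncomputable def slaw (z : ℝ) (I k m : ℕ) (y : ZMod (3 ^ (k + m + 1))) : ℝ :=
  ∑ w ∈ (words I (m + 1)).filter (fun w => 3 ^ k * Xw (k + m + 1) w = y), pw z I w

lemma slaw_nonneg {z : ℝ} (hz : 0 < z) (I k m : ℕ) (y : ZMod (3 ^ (k + m + 1))) :
    0 ≤ slaw z I k m y := sum_nonneg fun w _ => pw_nonneg hz I w

lemma slaw_iota (z : ℝ) (I k m : ℕ) (y : ZMod (3 ^ (m + 1))) :
    slaw z I k m (iota k m y) = mu z I (m + 1) y := by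
  unfold slaw mu law
  apply sum_congr _ fun _ _ => rfl
  ext w
  rw [mem_filter, mem_filter, ← iota_Xw]
  constructor
  · rintro ⟨h1, h2⟩
    exact ⟨h1, iota_injective k m h2⟩
  · rintro ⟨h1, h2⟩
    exact ⟨h1, congrArg _ h2⟩

lemma slaw_zero (z : ℝ) (I k m : ℕ) {y : ZMod (3 ^ (k + m + 1))}
    (h : y ∉ Set.range (iota k m)) : slaw z I k m y = 0 := by
  unfold slaw
  rw [filter_eq_empty_iff.mpr, sum_empty]
  intro w _ hw
  apply h
  exact ⟨Xw (m + 1) w, by rw [iota_Xw, hw]⟩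

lemma Vf_slaw (z : ℝ) (I k m : ℕ) : Vf (k + m) (slaw z I k m) = Vn z I m := by
  have h1 := three_Vf (k + m) (slaw z I k m)
  have h2 := three_Vf m (mu z I (m + 1))
  have h3 : ∑ y, q3 (slaw z I k m y) (slaw z I k m (y + tt (k + m)))
      (slaw z I k m (y + 2 * tt (k + m))) =
      ∑ y, q3 (mu z I (m + 1) y) (mu z I (m + 1) (y + tt m)) (mu z I (m + 1) (y + 2 * tt m)) := by
    have h4 : ∀ y, q3 (mu z I (m + 1) y) (mu z I (m + 1) (y + tt m))
        (mu z I (m + 1) (y + 2 * tt m)) =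
        (fun y => q3 (slaw z I k m y) (slaw z I k m (y + tt (k + m)))
          (slaw z I k m (y + 2 * tt (k + m)))) (iota k m y) := by
      intro y
      have e1 : iota k m y + tt (k + m) = iota k m (y + tt m) := by rw [map_add, iota_tt]
      have e2 : iota k m y + 2 * tt (k + m) = iota k m (y + 2 * tt m) := by
        rw [two_mul, two_mul, map_add, map_add, iota_tt]
      simp only [e1, e2, slaw_iota]
    rw [sum_congr rfl fun y _ => h4 y]
    rw [← sum_image (f := fun y => q3 (slaw z I k m y) (slaw z I k m (y + tt (k + m)))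
          (slaw z I k m (y + 2 * tt (k + m)))) (fun a _ b _ hab => iota_injective k m hab)]
    symm
    apply sum_subset (subset_univ _)
    intro y _ hy
    have hy' : y ∉ Set.range (iota k m) := by
      rintro ⟨x, hx⟩
      exact hy (mem_image.mpr ⟨x, mem_univ _, hx⟩)
    have hy1 : y + tt (k + m) ∉ Set.range (iota k m) := by
      rintro ⟨x, hx⟩
      apply hy'
      exact ⟨x - tt m, by rw [map_sub, iota_tt, hx]; ring⟩
    have hy2 : y + 2 * tt (k + m) ∉ Set.range (iota k m) := by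
      rintro ⟨x, hx⟩
      apply hy'
      exact ⟨x - tt m - tt m, by rw [map_sub, map_sub, iota_tt, hx]; ring⟩
    rw [slaw_zero _ _ _ _ hy', slaw_zero _ _ _ _ hy1, slaw_zero _ _ _ _ hy2, q3_zero]
  rw [Vn_eq]
  linarith

/-! ### The recursion -/

lemma claw_nonneg {z : ℝ} (hz : 0 < z) (I k s N : ℕ) (y : ZMod (3 ^ N)) :
    0 ≤ claw z I k s N y := sum_nonneg fun w _ => pw_nonneg hz I w

lemma Vp_nonneg_conv {z : ℝ} (hz : 0 < z) (I k n : ℕ) : 0 ≤ Vp z I k n :=
  sum_nonneg fun s _ => Vf_nonneg n fun y => claw_nonneg hz I k s (n + 1) y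

lemma Vp_le_one {z : ℝ} (hz : 0 < z) {I : ℕ} (hI : 1 ≤ I) (k n : ℕ) : Vp z I k n ≤ 1 := by
  unfold Vp
  calc ∑ s ∈ range (I * k + 1), Vf n (claw z I k s (n + 1))
      ≤ ∑ s ∈ range (I * k + 1), ∑ y, claw z I k s (n + 1) y :=
        sum_le_sum fun s _ => Vf_le n fun y => claw_nonneg hz I k s (n + 1) y
    _ = ∑ s ∈ range (I * k + 1), ∑ w ∈ (words I k).filter (fun w => w.sum = s), pw z I w := by
        apply sum_congr rfl
        intro s _
        unfold claw
        rw [← Finset.sum_fiberwise ((words I k).filter (fun w => w.sum = s))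
          (fun w => (cw w : ZMod (3 ^ (n + 1))))]
        apply sum_congr rfl
        intro y _
        rw [filter_filter]
    _ = ∑ w ∈ words I k, pw z I w := by
        apply Finset.sum_fiberwise_of_maps_to
        intro w hw
        rw [mem_range]
        have := sum_le_of_mem_words hw
        omega
    _ = 1 := sum_pw hz hI k

lemma cv_claw (z : ℝ) (I k s n : ℕ) (σ : ZMod (3 ^ (n + 1)) → ℝ) (y : ZMod (3 ^ (n + 1))) :
    cv n (claw z I k s (n + 1)) σ y =
      ∑ v ∈ (words I k).filter (fun v => v.sum = s), pw z I v * σ (y - cw v) := by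
  unfold cv
  rw [← Finset.sum_fiberwise ((words I k).filter (fun v => v.sum = s))
    (fun v => (cw v : ZMod (3 ^ (n + 1))))]
  apply sum_congr rfl
  intro u _
  unfold claw
  rw [sum_mul, filter_filter]
  apply sum_congr rfl
  intro v hv
  rw [mem_filter] at hv
  rw [hv.2.2]

lemma mu_decomp (z : ℝ) (I k m : ℕ) (y : ZMod (3 ^ (k + m + 1))) :
    mu z I (k + m + 1) y = ∑ s ∈ range (I * k + 1),
      cv (k + m) (claw z I k s (k + m + 1)) (slaw z I k m) (2 ^ s * y) := by
  have h1 : ∑ s ∈ range (I * k + 1),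
      cv (k + m) (claw z I k s (k + m + 1)) (slaw z I k m) (2 ^ s * y) =
      ∑ v ∈ words I k, pw z I v * slaw z I k m (2 ^ v.sum * y - cw v) := by
    have h2 := Finset.sum_fiberwise_of_maps_to (s := words I k) (t := range (I * k + 1))
      (g := fun v => v.sum) (fun v hv => by
        rw [mem_range]
        have := sum_le_of_mem_words hv
        omega) (fun v => pw z I v * slaw z I k m (2 ^ v.sum * y - cw v))
    rw [← h2]
    apply sum_congr rfl
    intro s _
    rw [cv_claw]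
    apply sum_congr rfl
    intro v hv
    rw [mem_filter] at hv
    rw [hv.2]
  rw [h1]
  unfold mu law
  rw [sum_filter]
  refine (sum_words_add I k (m + 1)
    (fun w => if Xw (k + m + 1) w = y then pw z I w else 0)).trans ?_
  apply sum_congr rfl
  intro v hv
  rw [mem_words] at hv
  unfold slaw
  rw [sum_filter, mul_sum]
  apply sum_congr rfl
  intro w _
  rw [pw_append]
  have h3 : Xw (k + m + 1) (v ++ w) = y ↔
      3 ^ k * Xw (k + m + 1) w = 2 ^ v.sum * y - cw v := by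
    rw [Xw_append, hv.1]
    have h4 : Xw (k + m + 1) v = (cw v : ZMod (3 ^ (k + m + 1))) * (2⁻¹) ^ v.sum := rfl
    have h5 := two_pow_mul_inv (k + m + 1) v.sum
    rw [h4]
    constructor
    · intro h
      rw [← h]
      linear_combination (-(cw v : ZMod (3 ^ (k + m + 1))) -
        3 ^ k * Xw (k + m + 1) w) * h5
    · intro h
      linear_combination ((2⁻¹ : ZMod (3 ^ (k + m + 1))) ^ v.sum) * h + y * h5
  by_cases h : Xw (k + m + 1) (v ++ w) = y
  · rw [if_pos h, if_pos (h3.mp h)]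
  · rw [if_neg h, if_neg fun h' => h (h3.mpr h'), mul_zero]

/-- The recursion for `V`. -/
theorem Vn_rec {z : ℝ} (hz : 0 < z) (I k m : ℕ) :
    Vn z I (k + m) ≤ Vp z I k (k + m) * Vn z I m := by
  have h1 : mu z I (k + m + 1) = fun y => ∑ s ∈ range (I * k + 1),
      cv (k + m) (claw z I k s (k + m + 1)) (slaw z I k m) (2 ^ s * y) := by
    ext y
    exact mu_decomp z I k m y
  rw [Vn_eq, h1]
  refine (Vf_sum (k + m) (range (I * k + 1))
    (ρ := fun s y => cv (k + m) (claw z I k s (k + m + 1)) (slaw z I k m) (2 ^ s * y))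
    fun s _ y => ?_).trans ?_
  · exact sum_nonneg fun u _ => mul_nonneg (claw_nonneg hz I k s _ u) (slaw_nonneg hz I k m _)
  · unfold Vp
    rw [sum_mul]
    apply sum_le_sum
    intro s _
    rw [Vf_two_pow (k + m) s (cv (k + m) (claw z I k s (k + m + 1)) (slaw z I k m)),
      ← Vf_slaw z I k m]
    exact Vf_cv (k + m) (claw_nonneg hz I k s _) (slaw_nonneg hz I k m)

theorem Vn_add_le {z : ℝ} (hz : 0 < z) {I : ℕ} (_hI : 1 ≤ I) (k l : ℕ) :
    Vn z I (k + l) ≤ Vp z I k (k + l) * Vn z I l := Vn_rec hz I k l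

theorem Vn_rec_sub {z : ℝ} (hz : 0 < z) (I : ℕ) {k n : ℕ} (h : k ≤ n) :
    Vn z I n ≤ Vp z I k n * Vn z I (n - k) := by
  obtain ⟨m, rfl⟩ := Nat.exists_eq_add_of_le h
  rw [Nat.add_sub_cancel_left]
  exact Vn_rec hz I k m

theorem Vn_anti {z : ℝ} (hz : 0 < z) {I : ℕ} (hI : 1 ≤ I) : Antitone (Vn z I) := by
  intro m n h
  obtain ⟨k, rfl⟩ := Nat.exists_eq_add_of_le' h
  calc Vn z I (k + m) ≤ Vp z I k (k + m) * Vn z I m := Vn_rec hz I k m
    _ ≤ 1 * Vn z I m := mul_le_mul_of_nonneg_right (Vp_le_one hz hI k (k + m)) (Vn_nonneg hz I m)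
    _ = Vn z I m := one_mul _

end Pool.Agent.Collatz3.Mix
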