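import Mathlib
import Pool.Agent.Collatz3.VConv

set_option autoImplicit false

/-!
Composition for `V'(k, n)`: `V'(k + l, n) ≤ V'(k, n) V'(l, n - k)` for `k ≤ n`, and `V'` is
nonincreasing in the number of letters.
-/

namespace Pool.Agent.Collatz3.Mix

open Finset Real

/-- The law of `f` under the weights `p` on `S`. -/
noncomputable def lw {ι : Type*} (n : ℕ) (S : Finset ι) (p : ι → ℝ) (f : ι → ZMod (3 ^ (n + 1)))
    (y : ZMod (3 ^ (n + 1))) : ℝ := ∑ i ∈ S.filter (fun i => f i = y), p i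

lemma lw_nonneg {ι : Type*} (n : ℕ) {S : Finset ι} {p : ι → ℝ} (hp : ∀ i ∈ S, 0 ≤ p i)
    (f : ι → ZMod (3 ^ (n + 1))) (y : ZMod (3 ^ (n + 1))) : 0 ≤ lw n S p f y :=
  sum_nonneg fun i hi => hp i (mem_filter.mp hi).1

lemma sum_lw {ι : Type*} (n : ℕ) (S : Finset ι) (p : ι → ℝ) (f : ι → ZMod (3 ^ (n + 1))) :
    ∑ y, lw n S p f y = ∑ i ∈ S, p i := Finset.sum_fiberwise _ _ _

lemma cv_lw {ι κ : Type*} (n : ℕ) (S : Finset ι) (T : Finset κ) (p : ι → ℝ) (q : κ → ℝ)
    (f : ι → ZMod (3 ^ (n + 1))) (g : κ → ZMod (3 ^ (n + 1))) (y : ZMod (3 ^ (n + 1))) :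
    cv n (lw n S p f) (lw n T q g) y =
      ∑ i ∈ S, ∑ j ∈ T, if f i + g j = y then p i * q j else 0 := by
  unfold cv
  have h1 : ∀ u, lw n S p f u * lw n T q g (y - u) =
      ∑ i ∈ S.filter (fun i => f i = u), ∑ j ∈ T, if f i + g j = y then p i * q j else 0 := by
    intro u
    unfold lw
    rw [sum_mul_sum]
    apply sum_congr rfl
    intro i hi
    rw [sum_filter]
    apply sum_congr rfl
    intro j _
    rw [mem_filter] at hi
    have : g j = y - u ↔ f i + g j = y := by
      rw [hi.2]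
      constructor
      · intro h
        rw [h]
        ring
      · intro h
        rw [← h]
        ring
    by_cases h : g j = y - u
    · rw [if_pos h, if_pos (this.mp h)]
    · rw [if_neg h, if_neg fun h' => h (this.mpr h')]
  rw [sum_congr rfl fun u _ => h1 u]
  exact Finset.sum_fiberwise _ _ _

lemma Vf_lw_two_pow {ι : Type*} (n s : ℕ) (S : Finset ι) (p : ι → ℝ)
    (f : ι → ZMod (3 ^ (n + 1))) :
    Vf n (lw n S p (fun i => 2 ^ s * f i)) = Vf n (lw n S p f) := by
  rw [← Vf_two_pow n s (lw n S p (fun i => 2 ^ s * f i))]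
  congr 1
  ext y
  unfold lw
  apply sum_congr _ fun _ _ => rfl
  apply filter_congr
  intro i _
  have h := two_pow_mul_inv (n + 1) s
  show 2 ^ s * f i = 2 ^ s * y ↔ f i = y
  constructor
  · intro h1
    have : (2⁻¹ : ZMod (3 ^ (n + 1))) ^ s * (2 ^ s * f i) = (2⁻¹) ^ s * (2 ^ s * y) := by rw [h1]
    linear_combination this - (f i - y) * h
  · intro h1
    rw [h1]

lemma Vf_lw_three_pow {ι : Type*} (k m : ℕ) (S : Finset ι) (p : ι → ℝ) (c : ι → ℕ) :
    Vf (k + m) (lw (k + m) S p (fun i => 3 ^ k * (c i : ZMod (3 ^ (k + m + 1))))) =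
      Vf m (lw m S p (fun i => (c i : ZMod (3 ^ (m + 1))))) := by
  set σ := lw (k + m) S p (fun i => 3 ^ k * (c i : ZMod (3 ^ (k + m + 1)))) with hσ
  set τ := lw m S p (fun i => (c i : ZMod (3 ^ (m + 1)))) with hτ
  have hio : ∀ i, iota k m (c i : ZMod (3 ^ (m + 1))) = 3 ^ k * (c i : ZMod (3 ^ (k + m + 1))) := by
    intro i
    have := iota_coe k m (c i : ℤ)
    push_cast at this
    rw [this, mul_comm]
  have hσι : ∀ y, σ (iota k m y) = τ y := by
    intro y
    simp only [hσ, hτ, lw]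
    apply sum_congr _ fun _ _ => rfl
    apply filter_congr
    intro i _
    rw [← hio]
    constructor
    · intro h
      exact iota_injective k m h
    · intro h
      rw [h]
  have hσ0 : ∀ y, y ∉ Set.range (iota k m) → σ y = 0 := by
    intro y hy
    simp only [hσ, lw]
    rw [filter_eq_empty_iff.mpr, sum_empty]
    intro i _ hi
    apply hy
    exact ⟨(c i : ZMod (3 ^ (m + 1))), by rw [hio, hi]⟩
  have h1 := three_Vf (k + m) σ
  have h2 := three_Vf m τ
  have h3 : ∑ y, q3 (σ y) (σ (y + tt (k + m))) (σ (y + 2 * tt (k + m))) =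
      ∑ y, q3 (τ y) (τ (y + tt m)) (τ (y + 2 * tt m)) := by
    have h4 : ∀ y, q3 (τ y) (τ (y + tt m)) (τ (y + 2 * tt m)) =
        (fun y => q3 (σ y) (σ (y + tt (k + m))) (σ (y + 2 * tt (k + m)))) (iota k m y) := by
      intro y
      have e1 : iota k m y + tt (k + m) = iota k m (y + tt m) := by rw [map_add, iota_tt]
      have e2 : iota k m y + 2 * tt (k + m) = iota k m (y + 2 * tt m) := by
        rw [two_mul, two_mul, map_add, map_add, iota_tt]
      simp only [e1, e2, hσι]
    rw [sum_congr rfl fun y _ => h4 y]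
    rw [← sum_image (f := fun y => q3 (σ y) (σ (y + tt (k + m))) (σ (y + 2 * tt (k + m))))
      (fun a _ b _ hab => iota_injective k m hab)]
    symm
    apply sum_subset (subset_univ _)
    intro y _ hy
    have hy' : y ∉ Set.range (iota k m) := by
      rintro ⟨x, hx⟩
      exact hy (mem_image.mpr ⟨x, mem_univ _, hx⟩)
    have hy1 : y + tt (k + m) ∉ Set.range (iota k m) := by
      rintro ⟨x, hx⟩
      apply hy'
      exact ⟨x - tt m, by rw [map_sub, iota_tt, hx]; ring⟩
    have hy2 : y + 2 * tt (k + m) ∉ Set.range (iota k m) := by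
      rintro ⟨x, hx⟩
      apply hy'
      exact ⟨x - tt m - tt m, by rw [map_sub, map_sub, iota_tt, hx]; ring⟩
    rw [hσ0 _ hy', hσ0 _ hy1, hσ0 _ hy2, q3_zero]
  linarith

lemma claw_eq_lw (z : ℝ) (I k s n : ℕ) :
    claw z I k s (n + 1) = lw n ((words I k).filter (fun w => w.sum = s)) (pw z I)
      (fun w => (cw w : ZMod (3 ^ (n + 1)))) := by
  ext y
  unfold claw lw
  rw [filter_filter]

/-- The second factor. -/
noncomputable def Wp (z : ℝ) (I k l n : ℕ) : ℝ :=
  ∑ t ∈ range (I * l + 1), Vf n (lw n ((words I l).filter (fun w => w.sum = t)) (pw z I)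
    (fun w => 3 ^ k * (cw w : ZMod (3 ^ (n + 1)))))

lemma Wp_eq (z : ℝ) (I k l m : ℕ) : Wp z I k l (k + m) = Vp z I l m := by
  unfold Wp Vp
  apply sum_congr rfl
  intro t _
  rw [Vf_lw_three_pow, claw_eq_lw]

lemma Wp_le_one {z : ℝ} (hz : 0 < z) {I : ℕ} (hI : 1 ≤ I) (k l n : ℕ) : Wp z I k l n ≤ 1 := by
  unfold Wp
  calc ∑ t ∈ range (I * l + 1), Vf n (lw n ((words I l).filter (fun w => w.sum = t)) (pw z I)
        (fun w => 3 ^ k * (cw w : ZMod (3 ^ (n + 1)))))
      ≤ ∑ t ∈ range (I * l + 1), ∑ w ∈ (words I l).filter (fun w => w.sum = t), pw z I w := by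
        apply sum_le_sum
        intro t _
        refine (Vf_le n fun y => lw_nonneg n (fun w _ => pw_nonneg hz I w) _ y).trans ?_
        rw [sum_lw]
    _ = ∑ w ∈ words I l, pw z I w := by
        apply Finset.sum_fiberwise_of_maps_to
        intro w hw
        rw [mem_range]
        have := sum_le_of_mem_words hw
        omega
    _ = 1 := sum_pw hz hI l

lemma Wp_nonneg {z : ℝ} (hz : 0 < z) (I k l n : ℕ) : 0 ≤ Wp z I k l n :=
  sum_nonneg fun _ _ => Vf_nonneg n fun y => lw_nonneg n (fun w _ => pw_nonneg hz I w) _ y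

lemma claw_add (z : ℝ) (I k l s n : ℕ) (y : ZMod (3 ^ (n + 1))) :
    claw z I (k + l) s (n + 1) y =
      ∑ p ∈ (range (I * k + 1) ×ˢ range (I * l + 1)).filter (fun p => p.1 + p.2 = s),
        cv n (lw n ((words I k).filter (fun w => w.sum = p.1)) (pw z I)
            (fun w => 2 ^ p.2 * (cw w : ZMod (3 ^ (n + 1)))))
          (lw n ((words I l).filter (fun w => w.sum = p.2)) (pw z I)
            (fun w => 3 ^ k * (cw w : ZMod (3 ^ (n + 1))))) y := by
  have h1 : claw z I (k + l) s (n + 1) y = ∑ v ∈ words I k, ∑ w ∈ words I l,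
      if v.sum + w.sum = s ∧ (2 ^ w.sum * (cw v : ZMod (3 ^ (n + 1))) +
        3 ^ k * (cw w : ZMod (3 ^ (n + 1))) = y) then pw z I v * pw z I w else 0 := by
    unfold claw
    rw [sum_filter]
    refine (sum_words_add I k l (fun w => if w.sum = s ∧ (cw w : ZMod (3 ^ (n + 1))) = y then
      pw z I w else 0)).trans ?_
    apply sum_congr rfl
    intro v hv
    apply sum_congr rfl
    intro w _
    rw [mem_words] at hv
    rw [pw_append, cw_append', List.sum_append, hv.1]
    push_cast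
    rfl
  rw [h1]
  have h2 := Finset.sum_fiberwise_of_maps_to
    (s := words I k ×ˢ words I l) (t := range (I * k + 1) ×ˢ range (I * l + 1))
    (g := fun p => (p.1.sum, p.2.sum)) (fun p hp => by
      rw [mem_product] at hp
      rw [mem_product, mem_range, mem_range]
      have e1 := sum_le_of_mem_words hp.1
      have e2 := sum_le_of_mem_words hp.2
      constructor
      · show p.1.sum < _
        omega
      · show p.2.sum < _
        omega)
    (fun p => if p.1.sum + p.2.sum = s ∧ (2 ^ p.2.sum * (cw p.1 : ZMod (3 ^ (n + 1))) +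
        3 ^ k * (cw p.2 : ZMod (3 ^ (n + 1))) = y) then pw z I p.1 * pw z I p.2 else 0)
  rw [← sum_product', ← h2, sum_filter]
  apply sum_congr rfl
  intro q _
  rw [cv_lw]
  have h3 : (words I k ×ˢ words I l).filter (fun p => (p.1.sum, p.2.sum) = q) =
      ((words I k).filter (fun w => w.sum = q.1)) ×ˢ ((words I l).filter (fun w => w.sum = q.2)) := by
    ext p
    simp only [mem_filter, mem_product, Prod.ext_iff]
    tauto
  rw [h3, sum_product]
  by_cases hq : q.1 + q.2 = s
  · rw [if_pos hq]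
    apply sum_congr rfl
    intro v hv
    apply sum_congr rfl
    intro w hw
    rw [mem_filter] at hv hw
    rw [hv.2, hw.2]
    simp only [hq, true_and]
  · rw [if_neg hq]
    apply sum_eq_zero
    intro v hv
    apply sum_eq_zero
    intro w hw
    rw [mem_filter] at hv hw
    rw [hv.2, hw.2]
    simp only [hq, false_and, if_false]

theorem Vp_add_le' {z : ℝ} (hz : 0 < z) (I k l n : ℕ) :
    Vp z I (k + l) n ≤ Vp z I k n * Wp z I k l n := by
  have h1 : ∀ s ∈ range (I * (k + l) + 1), Vf n (claw z I (k + l) s (n + 1)) ≤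
      ∑ p ∈ (range (I * k + 1) ×ˢ range (I * l + 1)).filter (fun p => p.1 + p.2 = s),
        Vf n (claw z I k p.1 (n + 1)) *
          Vf n (lw n ((words I l).filter (fun w => w.sum = p.2)) (pw z I)
            (fun w => 3 ^ k * (cw w : ZMod (3 ^ (n + 1))))) := by
    intro s _
    have h2 : claw z I (k + l) s (n + 1) = fun y =>
      ∑ p ∈ (range (I * k + 1) ×ˢ range (I * l + 1)).filter (fun p => p.1 + p.2 = s),
        cv n (lw n ((words I k).filter (fun w => w.sum = p.1)) (pw z I)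
            (fun w => 2 ^ p.2 * (cw w : ZMod (3 ^ (n + 1)))))
          (lw n ((words I l).filter (fun w => w.sum = p.2)) (pw z I)
            (fun w => 3 ^ k * (cw w : ZMod (3 ^ (n + 1))))) y := by
      ext y
      exact claw_add z I k l s n y
    rw [h2]
    refine (Vf_sum n ((range (I * k + 1) ×ˢ range (I * l + 1)).filter (fun p => p.1 + p.2 = s))
      (ρ := fun p => cv n (lw n ((words I k).filter (fun w => w.sum = p.1)) (pw z I)
            (fun w => 2 ^ p.2 * (cw w : ZMod (3 ^ (n + 1)))))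
          (lw n ((words I l).filter (fun w => w.sum = p.2)) (pw z I)
            (fun w => 3 ^ k * (cw w : ZMod (3 ^ (n + 1)))))) ?_).trans ?_
    · intro p _ y
      exact sum_nonneg fun u _ => mul_nonneg (lw_nonneg n (fun w _ => pw_nonneg hz I w) _ _)
        (lw_nonneg n (fun w _ => pw_nonneg hz I w) _ _)
    · apply sum_le_sum
      intro p _
      rw [claw_eq_lw, ← Vf_lw_two_pow n p.2]
      exact Vf_cv n (fun y => lw_nonneg n (fun w _ => pw_nonneg hz I w) _ _)
        (fun y => lw_nonneg n (fun w _ => pw_nonneg hz I w) _ _)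
  unfold Vp Wp
  refine (sum_le_sum h1).trans (le_of_eq ?_)
  rw [Finset.sum_fiberwise_of_maps_to (s := range (I * k + 1) ×ˢ range (I * l + 1))
    (t := range (I * (k + l) + 1)) (g := fun p => p.1 + p.2), sum_product, sum_mul_sum]
  intro p hp
  rw [mem_product, mem_range, mem_range] at hp
  rw [mem_range, Nat.mul_add]
  omega

/-- Composition. -/
theorem Vp_comp {z : ℝ} (hz : 0 < z) (I k l m : ℕ) :
    Vp z I (k + l) (k + m) ≤ Vp z I k (k + m) * Vp z I l m := by
  rw [← Wp_eq z I k l m]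
  exact Vp_add_le' hz I k l (k + m)

/-- Monotonicity in the number of letters. -/
theorem Vp_anti_left {z : ℝ} (hz : 0 < z) {I : ℕ} (hI : 1 ≤ I) (k l n : ℕ) :
    Vp z I (k + l) n ≤ Vp z I k n :=
  (Vp_add_le' hz I k l n).trans
    (mul_le_of_le_one_right (Vp_nonneg_conv hz I k n) (Wp_le_one hz hI k l n))

/-- The diagonal. -/
noncomputable def Qd (z : ℝ) (I n : ℕ) : ℝ := Vp z I n n

lemma Qd_nonneg {z : ℝ} (hz : 0 < z) (I n : ℕ) : 0 ≤ Qd z I n := Vp_nonneg_conv hz I n n

lemma Qd_le_one {z : ℝ} (hz : 0 < z) {I : ℕ} (hI : 1 ≤ I) (n : ℕ) : Qd z I n ≤ 1 :=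
  Vp_le_one hz hI n n

lemma Vp_le_Qd {z : ℝ} (hz : 0 < z) {I : ℕ} (hI : 1 ≤ I) {k n : ℕ} (h : n ≤ k) :
    Vp z I k n ≤ Qd z I n := by
  obtain ⟨l, rfl⟩ := Nat.exists_eq_add_of_le h
  exact Vp_anti_left hz hI n l n

lemma Qd_rec {z : ℝ} (hz : 0 < z) (I k m : ℕ) :
    Qd z I (k + m) ≤ Vp z I k (k + m) * Qd z I m := Vp_comp hz I k m m

lemma Qd_anti {z : ℝ} (hz : 0 < z) {I : ℕ} (hI : 1 ≤ I) : Antitone (Qd z I) := by
  intro m n h
  obtain ⟨k, rfl⟩ := Nat.exists_eq_add_of_le' h
  calc Qd z I (k + m) ≤ Vp z I k (k + m) * Qd z I m := Qd_rec hz I k m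
    _ ≤ 1 * Qd z I m := mul_le_mul_of_nonneg_right (Vp_le_one hz hI k (k + m)) (Qd_nonneg hz I m)
    _ = Qd z I m := one_mul _

end Pool.Agent.Collatz3.Mix
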