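import Mathlib

set_option autoImplicit false

/-!
Logarithmic telescoping: from an averaged ratio inequality to summability.
-/

namespace Pool.Agent.Collatz3.Mix

open Real Finset

lemma sum_shift (G : ℕ → ℝ) (J m : ℕ) :
    ∑ j ∈ range J, (G (j + m) - G j) = ∑ j ∈ range m, (G (J + j) - G j) := by
  rw [sum_sub_distrib, sum_sub_distrib]
  have h1 := Finset.sum_range_add G J m
  have h2 := Finset.sum_range_add G m J
  rw [Nat.add_comm m J] at h2
  have h3 : ∑ j ∈ range J, G (m + j) = ∑ j ∈ range J, G (j + m) :=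
    sum_congr rfl fun j _ => by rw [Nat.add_comm]
  linarith

/-- Telescoping in logarithmic scale. -/
theorem log_telescope {ι : Type} (s : Finset ι) (r α β : ι → ℝ) (hne : s.Nonempty)
    (hr : ∀ i ∈ s, 0 < r i) (hab : ∀ i ∈ s, α i < β i) (l : ℝ → ℝ) (hl : Antitone l)
    {δ t₀ : ℝ} (hδ : 0 < δ)
    (h : ∀ t, t₀ ≤ t →
      ∑ i ∈ s, r i * ((t + β i + l (t + β i)) - (t + α i + l (t + α i))) ≤ -δ) :
    ∃ c : ℝ, 0 < c ∧ ∃ C T : ℝ, ∀ t, T ≤ t → t + l t ≤ C - c * t := by
  classical
  set R := ∑ i ∈ s, r i with hR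
  have hRpos : 0 < R := sum_pos hr hne
  set η := δ / (2 * R) with hη
  have hηpos : 0 < η := by positivity
  have hηR : R * η = δ / 2 := by
    rw [hη]
    field_simp
  set m : ι → ℕ := fun i => ⌈(β i - α i) / η⌉₊ with hm
  have hm1 : ∀ i, β i ≤ α i + m i * η := by
    intro i
    have := Nat.le_ceil ((β i - α i) / η)
    rw [div_le_iff₀ hηpos] at this
    linarith
  have hm2 : ∀ i ∈ s, α i + m i * η ≤ β i + η := by
    intro i hi
    have h1 : 0 ≤ (β i - α i) / η := div_nonneg (by linarith [hab i hi]) hηpos.le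
    have := (Nat.ceil_lt_add_one h1).le
    have h2 : (m i : ℝ) * η ≤ ((β i - α i) / η + 1) * η :=
      mul_le_mul_of_nonneg_right this hηpos.le
    have h3 : ((β i - α i) / η + 1) * η = β i - α i + η := by field_simp
    linarith
  have hmpos : ∀ i ∈ s, 0 < m i := by
    intro i hi
    have h1 : 0 < (β i - α i) / η := div_pos (by linarith [hab i hi]) hηpos
    exact Nat.ceil_pos.mpr h1
  set g : ℝ → ℝ := fun t => t + l t with hg
  have step : ∀ t, t₀ ≤ t → ∑ i ∈ s, r i * (g (t + α i + m i * η) - g (t + α i)) ≤ -(δ / 2) := by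
    intro t ht
    have h1 := h t ht
    have h2 : ∑ i ∈ s, r i * (g (t + α i + m i * η) - g (t + α i)) ≤
        ∑ i ∈ s, (r i * ((t + β i + l (t + β i)) - (t + α i + l (t + α i))) + r i * η) := by
      apply sum_le_sum
      intro i hi
      rw [← mul_add]
      apply mul_le_mul_of_nonneg_left _ (hr i hi).le
      have h3 : l (t + α i + m i * η) ≤ l (t + β i) := hl (by linarith [hm1 i])
      simp only [hg]
      linarith [hm2 i hi]
    rw [sum_add_distrib, ← sum_mul, ← hR, hηR] at h2
    linarith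
  -- summing up
  have total : ∀ J : ℕ, ∑ i ∈ s, r i * ∑ j ∈ range (m i),
      (g (t₀ + α i + ((J + j : ℕ) : ℝ) * η) - g (t₀ + α i + (j : ℝ) * η)) ≤ -(δ / 2) * J := by
    intro J
    have h1 : ∀ i ∈ s, ∑ j ∈ range (m i),
        (g (t₀ + α i + ((J + j : ℕ) : ℝ) * η) - g (t₀ + α i + (j : ℝ) * η)) =
        ∑ j ∈ range J, (g (t₀ + j * η + α i + m i * η) - g (t₀ + j * η + α i)) := by
      intro i _
      have := sum_shift (fun j : ℕ => g (t₀ + α i + (j : ℝ) * η)) J (m i)
      rw [← this]
      apply sum_congr rfl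
      intro j _
      congr 2
      · push_cast
        ring
      · ring
    rw [sum_congr rfl fun i hi => by rw [h1 i hi, mul_sum], sum_comm]
    calc ∑ j ∈ range J, ∑ i ∈ s, r i * (g (t₀ + j * η + α i + m i * η) - g (t₀ + j * η + α i))
        ≤ ∑ j ∈ range J, -(δ / 2) := by
          apply sum_le_sum
          intro j _
          exact step _ (by
            have : 0 ≤ (j : ℝ) * η := by positivity
            linarith)
      _ = -(δ / 2) * J := by
          rw [sum_const, card_range, nsmul_eq_mul]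
          ring
  set M := ∑ i ∈ s, |α i + m i * η| with hM
  have hMi : ∀ i ∈ s, α i + m i * η ≤ M := by
    intro i hi
    exact (le_abs_self _).trans
      (single_le_sum (f := fun i => |α i + m i * η|) (fun i _ => abs_nonneg _) hi)
  set W := ∑ i ∈ s, r i * m i with hW
  have hWpos : 0 < W := sum_pos (fun i hi => mul_pos (hr i hi) (by exact_mod_cast hmpos i hi)) hne
  set C0 := ∑ i ∈ s, r i * ∑ j ∈ range (m i), g (t₀ + α i + (j : ℝ) * η) with hC0
  set C1 := ∑ i ∈ s, r i * (m i * (M - α i)) with hC1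
  have bound : ∀ J : ℕ, W * g (t₀ + J * η + M) ≤ C0 + C1 - δ / 2 * J := by
    intro J
    have h1 := total J
    have h2 : ∑ i ∈ s, r i * (m i * (g (t₀ + J * η + M) - (M - α i))
          - ∑ j ∈ range (m i), g (t₀ + α i + (j : ℝ) * η)) ≤
        ∑ i ∈ s, r i * ∑ j ∈ range (m i),
      (g (t₀ + α i + ((J + j : ℕ) : ℝ) * η) - g (t₀ + α i + (j : ℝ) * η)) := by
      apply sum_le_sum
      intro i hi
      apply mul_le_mul_of_nonneg_left _ (hr i hi).le
      rw [sum_sub_distrib]
      have h3 : (m i : ℝ) * (g (t₀ + J * η + M) - (M - α i)) ≤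
          ∑ j ∈ range (m i), g (t₀ + α i + ((J + j : ℕ) : ℝ) * η) := by
        rw [← nsmul_eq_mul, ← card_range (m i), ← sum_const]
        rw [card_range]
        apply sum_le_sum
        intro j hj
        have hj' : (j : ℝ) ≤ m i := by exact_mod_cast (mem_range.mp hj).le
        have hj0 : (0 : ℝ) ≤ j * η := by positivity
        have h4 : (j : ℝ) * η ≤ m i * η := mul_le_mul_of_nonneg_right hj' hηpos.le
        have h5 : l (t₀ + J * η + M) ≤ l (t₀ + α i + ((J + j : ℕ) : ℝ) * η) := by
          apply hl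
          push_cast
          linarith [hMi i hi]
        simp only [hg]
        push_cast at h5 ⊢
        linarith
      linarith
    have h3 : ∑ i ∈ s, r i * (m i * (g (t₀ + J * η + M) - (M - α i))
          - ∑ j ∈ range (m i), g (t₀ + α i + (j : ℝ) * η)) = W * g (t₀ + J * η + M) - C1 - C0 := by
      rw [hW, hC1, hC0, sum_mul, ← sum_sub_distrib, ← sum_sub_distrib]
      apply sum_congr rfl
      intro i _
      ring
    linarith
  refine ⟨δ / (2 * W * η), by positivity, (C0 + C1 + δ / 2) / W + η + δ / (2 * W * η) * (t₀ + M),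
    t₀ + M, ?_⟩
  intro t ht
  set J := ⌊(t - (t₀ + M)) / η⌋₊ with hJ
  have hJ0 : 0 ≤ (t - (t₀ + M)) / η := div_nonneg (by linarith) hηpos.le
  have hJ1 : (J : ℝ) * η ≤ t - (t₀ + M) := by
    have := Nat.floor_le hJ0
    rwa [le_div_iff₀ hηpos] at this
  have hJ2 : t - (t₀ + M) ≤ (J + 1) * η := by
    have := (Nat.lt_floor_add_one ((t - (t₀ + M)) / η)).le
    rwa [div_le_iff₀ hηpos] at this
  have h1 := bound J
  have h2 : l t ≤ l (t₀ + J * η + M) := hl (by linarith)
  have h3 : g (t₀ + J * η + M) ≤ (C0 + C1 - δ / 2 * J) / W := by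
    rw [le_div_iff₀ hWpos, mul_comm]
    exact h1
  have h4 : t + l t ≤ g (t₀ + J * η + M) + η := by
    simp only [hg]
    linarith
  have h5 : (C0 + C1 - δ / 2 * J) / W ≤
      (C0 + C1 + δ / 2) / W + δ / (2 * W * η) * (t₀ + M) - δ / (2 * W * η) * t := by
    have h6 : (t - (t₀ + M)) / η ≤ J + 1 := by
      rw [div_le_iff₀ hηpos]
      exact hJ2
    have h7 : δ / (2 * W) * ((t - (t₀ + M)) / η) ≤ δ / (2 * W) * (J + 1) :=
      mul_le_mul_of_nonneg_left h6 (by positivity)
    have e1 : (C0 + C1 - δ / 2 * J) / W = (C0 + C1 + δ / 2) / W - δ / (2 * W) * (J + 1) := by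
      field_simp
      ring
    have e2 : δ / (2 * W) * ((t - (t₀ + M)) / η) =
        δ / (2 * W * η) * t - δ / (2 * W * η) * (t₀ + M) := by
      field_simp
    linarith
  linarith

/-- The numerical sum. -/
lemma sum_num : (28.86 : ℝ) < ∑ i ∈ range 75, ((i : ℝ) + 1) / ((i : ℝ) + 53) := by
  norm_num [Finset.sum_range_succ]

/-- `t ≥ r (1 + log (t / r))` -/
lemma ge_mul_log {t r : ℝ} (ht : 0 < t) (hr : 0 < r) : r * (1 + (log t - log r)) ≤ t := by
  have h := Real.log_le_sub_one_of_pos (div_pos ht hr)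
  rw [log_div ht.ne' hr.ne'] at h
  have h2 : r * (1 + (log t - log r)) ≤ r * (t / r) := mul_le_mul_of_nonneg_left (by linarith) hr.le
  have h3 : r * (t / r) = t := by field_simp
  linarith

/-- From the averaged ratio inequality to summability: general form. -/
theorem summable_of_ratio' {V : ℕ → ℝ} (hV : Antitone V) (h0 : ∀ n, 0 ≤ V n) {q M : ℕ}
    (hM : 1 ≤ M) {A : ℝ}
    (hA : q * A < ∑ i ∈ range M, ((i : ℝ) + 1) / ((i : ℝ) + q + 3))
    (h : ∀ᶠ k : ℕ in Filter.atTop,
      ∑ n ∈ Ico (q * k) ((q + 1 + M) * k), V n / V (n - q * k) ≤ A * (q * k)) :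
    Summable V := by
  by_cases hz : ∃ n, V n = 0
  · obtain ⟨N, hN⟩ := hz
    apply summable_of_ne_finset_zero (s := range N)
    intro n hn
    rw [mem_range, not_lt] at hn
    exact le_antisymm ((hV hn).trans hN.le) (h0 n)
  push Not at hz
  have hpos : ∀ n, 0 < V n := fun n => lt_of_le_of_ne (h0 n) (hz n).symm
  -- block inequality
  have blk : ∀ᶠ k : ℕ in Filter.atTop,
      ∑ i ∈ range M, V ((i + (q + 2)) * k) / V ((i + 1) * k) ≤ q * A := by
    filter_upwards [h, Filter.eventually_gt_atTop 0] with k hk hk0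
    have hkr : (0 : ℝ) < k := by exact_mod_cast hk0
    have h1 : ∀ N : ℕ, ∑ i ∈ range N, ∑ n ∈ Ico ((q + i) * k) ((q + 1 + i) * k),
        V n / V (n - q * k) = ∑ n ∈ Ico (q * k) ((q + N) * k), V n / V (n - q * k) := by
      intro N
      induction N with
      | zero => simp
      | succ N ih =>
        rw [sum_range_succ, ih, sum_Ico_consecutive]
        · congr 2
          ring
        · exact Nat.mul_le_mul_right _ (by omega)
        · exact Nat.mul_le_mul_right _ (by omega)
    have h2 := h1 (M + 1)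
    rw [sum_range_succ'] at h2
    have h3 : 0 ≤ ∑ n ∈ Ico ((q + 0) * k) ((q + 1 + 0) * k), V n / V (n - q * k) :=
      sum_nonneg fun n _ => div_nonneg (h0 _) (h0 _)
    have h4 : ∑ i ∈ range M, (k : ℝ) * (V ((i + (q + 2)) * k) / V ((i + 1) * k)) ≤
        ∑ i ∈ range M, ∑ n ∈ Ico ((q + (i + 1)) * k) ((q + 1 + (i + 1)) * k),
          V n / V (n - q * k) := by
      apply sum_le_sum
      intro i _
      have hc : (Ico ((q + (i + 1)) * k) ((q + 1 + (i + 1)) * k)).card = k := by
        rw [Nat.card_Ico]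
        have : (q + 1 + (i + 1)) * k = (q + (i + 1)) * k + k := by ring
        omega
      have : ∑ n ∈ Ico ((q + (i + 1)) * k) ((q + 1 + (i + 1)) * k),
          V ((i + (q + 2)) * k) / V ((i + 1) * k) = (k : ℝ) * (V ((i + (q + 2)) * k) / V ((i + 1) * k)) := by
        rw [sum_const, hc, nsmul_eq_mul]
      rw [← this]
      apply sum_le_sum
      intro n hn
      rw [mem_Ico] at hn
      have e1 : (q + 1 + (i + 1)) * k = (i + (q + 2)) * k := by ring
      have e2 : (q + (i + 1)) * k = q * k + (i + 1) * k := by ring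
      rw [e1, e2] at hn
      apply div_le_div₀ (h0 _) (hV (by omega)) (hpos _) (hV (by omega))
    rw [← mul_sum] at h4
    have h5 : (k : ℝ) * ∑ i ∈ range M, V ((i + (q + 2)) * k) / V ((i + 1) * k) ≤ A * (q * k) := by
      have e3 : q + (M + 1) = q + 1 + M := by ring
      rw [e3] at h2
      linarith
    have h6 : A * (q * (k : ℝ)) = k * (q * A) := by ring
    rw [h6] at h5
    exact le_of_mul_le_mul_left h5 hkr
  obtain ⟨k0, hk0⟩ := Filter.eventually_atTop.mp blk
  -- the function of a real variable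
  set l : ℝ → ℝ := fun t => log (V ⌊exp t⌋₊) with hl
  have hlanti : Antitone l := by
    intro t u htu
    apply log_le_log (hpos _)
    exact hV (Nat.floor_mono (exp_le_exp.mpr htu))
  set α : ℕ → ℝ := fun i => log ((i : ℝ) + 1) with hα
  set β : ℕ → ℝ := fun i => log ((i : ℝ) + q + 3) with hβ
  set r : ℕ → ℝ := fun i => ((i : ℝ) + 1) / ((i : ℝ) + q + 3) with hr
  have hrpos : ∀ i, 0 < r i := fun i => by simp only [hr]; positivity
  have hlogr : ∀ i, log (r i) = α i - β i := by
    intro i
    simp only [hr, hα, hβ]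
    rw [log_div (by positivity) (by positivity)]
  set δ := ∑ i ∈ range M, r i - q * A with hδ
  have hδpos : 0 < δ := by
    simp only [hδ, hr]
    linarith
  have hmain : ∀ t, log (k0 + (M + q + 2)) ≤ t →
      ∑ i ∈ range M, r i * ((t + β i + l (t + β i)) - (t + α i + l (t + α i))) ≤ -δ := by
    intro t ht
    have hy : (k0 : ℝ) + (M + q + 2) ≤ exp t := by
      rw [← exp_log (show (0 : ℝ) < k0 + (M + q + 2) by positivity)]
      exact exp_le_exp.mpr ht
    set y := exp t with hy'
    have hypos : 0 < y := exp_pos t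
    set k := ⌈y⌉₊ with hk
    have hk1 : y ≤ k := Nat.le_ceil y
    have hk2 : (k : ℝ) < y + 1 := Nat.ceil_lt_add_one hypos.le
    have hkk0 : k0 ≤ k := by
      have : (k0 : ℝ) ≤ k := by linarith
      exact_mod_cast this
    have h1 := hk0 k hkk0
    have h2 : ∀ i ∈ range M, r i * (1 + ((l (t + β i) - l (t + α i)) - (α i - β i))) ≤
        V ((i + (q + 2)) * k) / V ((i + 1) * k) := by
      intro i hi
      rw [mem_range] at hi
      have hi' : (i : ℝ) ≤ M := by exact_mod_cast hi.le
      have hi0 : (0 : ℝ) ≤ i := by positivity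
      have e1 : exp (t + β i) = ((i : ℝ) + q + 3) * y := by
        rw [exp_add, hβ, exp_log (by positivity)]
        ring
      have e2 : exp (t + α i) = ((i : ℝ) + 1) * y := by
        rw [exp_add, hα, exp_log (by positivity)]
        ring
      have v1 : V ⌊exp (t + β i)⌋₊ ≤ V ((i + (q + 2)) * k) := by
        apply hV
        rw [e1]
        apply Nat.le_floor
        push_cast
        nlinarith
      have v2 : V ((i + 1) * k) ≤ V ⌊exp (t + α i)⌋₊ := by
        apply hV
        rw [e2]
        have : ((i : ℝ) + 1) * y ≤ ((i + 1) * k : ℕ) := by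
          push_cast
          nlinarith
        exact (Nat.floor_le_of_le this)
      have h3 := ge_mul_log (t := V ⌊exp (t + β i)⌋₊ / V ⌊exp (t + α i)⌋₊) (r := r i)
        (div_pos (hpos _) (hpos _)) (hrpos i)
      rw [log_div (hz _) (hz _), hlogr] at h3
      exact h3.trans (div_le_div₀ (h0 _) v1 (hpos _) v2)
    have h3 := (sum_le_sum h2).trans h1
    have h4 : ∑ i ∈ range M, r i * (1 + ((l (t + β i) - l (t + α i)) - (α i - β i))) =
        ∑ i ∈ range M, r i * ((t + β i + l (t + β i)) - (t + α i + l (t + α i))) +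
          ∑ i ∈ range M, r i := by
      rw [← sum_add_distrib]
      apply sum_congr rfl
      intro i _
      ring
    rw [h4] at h3
    simp only [hδ]
    linarith
  obtain ⟨c, hc, C, T, hT⟩ := log_telescope (range M) r α β ⟨0, mem_range.mpr hM⟩ (fun i _ => hrpos i)
    (fun i _ => by
      simp only [hα, hβ]
      apply log_lt_log <;> linarith [(Nat.cast_nonneg i : (0 : ℝ) ≤ i)]) l hlanti hδpos hmain
  -- conclusion
  have hsum : Summable fun n : ℕ => exp C * ((n : ℝ) ^ (1 + c))⁻¹ := by
    apply Summable.mul_left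
    exact Real.summable_nat_rpow_inv.mpr (by linarith)
  apply Summable.of_norm_bounded_eventually_nat hsum
  filter_upwards [Filter.eventually_ge_atTop (⌈exp T⌉₊ + 1)] with n hn
  have hn1 : (0 : ℝ) < n := by
    have : 0 < n := by omega
    exact_mod_cast this
  have hn2 : exp T ≤ n := (Nat.le_ceil _).trans (by exact_mod_cast (by omega : ⌈exp T⌉₊ ≤ n))
  have hn3 : T ≤ log n := by
    rw [Real.le_log_iff_exp_le hn1]
    exact hn2
  have h1 := hT (log n) hn3
  simp only [hl] at h1
  rw [exp_log hn1, Nat.floor_natCast] at h1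
  rw [norm_of_nonneg (h0 n), ← exp_log (hpos n)]
  have h2 : log (V n) ≤ C - (1 + c) * log n := by linarith
  calc exp (log (V n)) ≤ exp (C - (1 + c) * log n) := exp_le_exp.mpr h2
    _ = exp C * ((n : ℝ) ^ (1 + c))⁻¹ := by
      rw [exp_sub, rpow_def_of_pos hn1, div_eq_mul_inv, mul_comm (log (n : ℝ))]

/-- From the averaged ratio inequality to summability. -/
theorem summable_of_ratio {V : ℕ → ℝ} (hV : Antitone V) (h0 : ∀ n, 0 ≤ V n) {A : ℝ}
    (hA : 50 * A ≤ 28.86)
    (h : ∀ᶠ k : ℕ in Filter.atTop,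
      ∑ n ∈ Ico (50 * k) (126 * k), V n / V (n - 50 * k) ≤ A * (50 * k)) :
    Summable V := by
  refine summable_of_ratio' hV h0 (q := 50) (M := 75) (by norm_num) (A := A) ?_ ?_
  · have h1 := sum_num
    have h2 : ∑ i ∈ range 75, ((i : ℝ) + 1) / ((i : ℝ) + ((50 : ℕ) : ℝ) + 3) =
        ∑ i ∈ range 75, ((i : ℝ) + 1) / ((i : ℝ) + 53) := by
      apply sum_congr rfl
      intro i _
      push_cast
      congr 1
      ring
    rw [h2]
    push_cast
    linarith
  · simpa using h

end Pool.Agent.Collatz3.Mix
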