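import Mathlib
import Pool.Agent.Collatz3.VBasic

set_option autoImplicit false

/-!
Entropy telescoping: the sum of the functionals of a set of naturals over all scales.
-/

namespace Pool.Agent.Collatz3.Mix

open Finset Real

/-- Counting function of a finite set of naturals modulo `3 ^ n`. -/
noncomputable def cn (S : Finset ℕ) (n : ℕ) (y : ZMod (3 ^ n)) : ℝ :=
  ((S.filter fun c => ((c : ℕ) : ZMod (3 ^ n)) = y).card : ℝ)

lemma cn_nonneg (S : Finset ℕ) (n : ℕ) (y : ZMod (3 ^ n)) : 0 ≤ cn S n y := by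
  unfold cn
  positivity

lemma sum_cn (S : Finset ℕ) (n : ℕ) (f : ZMod (3 ^ n) → ℝ) :
    ∑ y, cn S n y * f y = ∑ c ∈ S, f c := by
  rw [← Finset.sum_fiberwise S (fun c => ((c : ℕ) : ZMod (3 ^ n)))]
  apply sum_congr rfl
  intro y _
  rw [cn, ← nsmul_eq_mul, ← sum_const]
  apply sum_congr rfl
  intro c hc
  rw [(mem_filter.mp hc).2]

lemma cn_succ (S : Finset ℕ) (n : ℕ) (x : ZMod (3 ^ n)) :
    cn S (n + 1) (lift3 n x 0) + cn S (n + 1) (lift3 n x 1) + cn S (n + 1) (lift3 n x 2) =
      cn S n x := by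
  rw [← sum_fibre n (cn S (n + 1)) x]
  have h : ∑ y ∈ univ.filter (fun y => red n y = x), cn S (n + 1) y =
      ∑ y, cn S (n + 1) y * (if red n y = x then 1 else 0) := by
    rw [sum_filter]
    apply sum_congr rfl
    intro y _
    split_ifs <;> simp
  rw [h, sum_cn, cn, card_filter]
  push_cast
  apply sum_congr rfl
  intro c _
  rw [map_natCast]

lemma fibre_bound {a b c : ℝ} (ha : 0 ≤ a) (hb : 0 ≤ b) (hc : 0 ≤ c) :
    4 / 3 * log 2 * q3 a b c ≤ a * (log 3 + log a - log (a + b + c)) +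
      b * (log 3 + log b - log (a + b + c)) + c * (log 3 + log c - log (a + b + c)) := by
  rcases (by positivity : 0 ≤ a + b + c).eq_or_lt with h | h
  · have h1 : a = 0 := by linarith
    have h2 : b = 0 := by linarith
    have h3 : c = 0 := by linarith
    rw [h1, h2, h3]
    simp [q3]
  · set t := a + b + c with ht
    have hk := kl_sharp (a / t) (b / t) (c / t) (by positivity) (by positivity) (by positivity)
      (by rw [← add_div, ← add_div, ← ht]; exact div_self h.ne')
    have e : ∀ x : ℝ, x / t * log (3 * (x / t)) = 1 / t * (x * (log 3 + log x - log t)) := by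
      intro x
      rcases eq_or_ne x 0 with rfl | hx
      · simp
      · rw [log_mul (by norm_num) (div_ne_zero hx h.ne'), log_div hx h.ne']
        ring
    rw [e, e, e] at hk
    have e2 : 4 / 3 * log 2 * ((3 * ((a / t) ^ 2 + (b / t) ^ 2 + (c / t) ^ 2) - 1) / 2) =
        1 / t * (4 / 3 * log 2 * q3 a b c) := by
      rw [q3, ← ht]
      field_simp
    rw [e2, ← mul_add, ← mul_add] at hk
    exact le_of_mul_le_mul_left hk (by positivity)

lemma step_bound (S : Finset ℕ) (n : ℕ) :
    4 / 3 * log 2 * Vf n (cn S (n + 1)) ≤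
      ∑ c ∈ S, (log 3 + log (cn S (n + 1) c) - log (cn S n c)) := by
  rw [Vf_eq, mul_sum]
  have h1 := sum_cn S (n + 1) (fun y => log 3 + log (cn S (n + 1) y) - log (cn S n (red n y)))
  have h2 : ∑ c ∈ S, (log 3 + log (cn S (n + 1) c) - log (cn S n c)) =
      ∑ c ∈ S, (fun y => log 3 + log (cn S (n + 1) y) - log (cn S n (red n y)))
        ((c : ℕ) : ZMod (3 ^ (n + 1))) := by
    apply sum_congr rfl
    intro c _
    simp only [map_natCast]
  rw [h2, ← h1, ← sum_fs n]
  apply sum_le_sum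
  intro x _
  rw [sum_fibre]
  have h := fibre_bound (cn_nonneg S (n + 1) (lift3 n x 0)) (cn_nonneg S (n + 1) (lift3 n x 1))
    (cn_nonneg S (n + 1) (lift3 n x 2))
  rw [cn_succ] at h
  simp only [red_lift3]
  exact h

lemma cn_zero (S : Finset ℕ) (y : ZMod (3 ^ 0)) : cn S 0 y = S.card := by
  rw [cn, filter_true_of_mem]
  intro c _
  have : Subsingleton (ZMod (3 ^ 0)) := by
    rw [pow_zero]
    infer_instance
  exact Subsingleton.elim _ _

lemma cn_top {S : Finset ℕ} {L : ℕ} (hS : ∀ c ∈ S, c < 3 ^ L) {c : ℕ} (hc : c ∈ S) :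
    cn S L (c : ZMod (3 ^ L)) = 1 := by
  have : S.filter (fun d => ((d : ℕ) : ZMod (3 ^ L)) = (c : ZMod (3 ^ L))) = {c} := by
    ext d
    simp only [mem_filter, mem_singleton]
    constructor
    · rintro ⟨hd, h⟩
      rw [ZMod.natCast_eq_natCast_iff'] at h
      rwa [Nat.mod_eq_of_lt (hS d hd), Nat.mod_eq_of_lt (hS c hc)] at h
    · rintro rfl
      exact ⟨hc, rfl⟩
  rw [cn, this, card_singleton]
  simp

/-- Entropy telescoping. -/
theorem sum_Vf_cn {S : Finset ℕ} {L : ℕ} (hS : ∀ c ∈ S, c < 3 ^ L) :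
    4 / 3 * log 2 * ∑ n ∈ range L, Vf n (cn S (n + 1)) ≤
      S.card * (L * log 3 - log S.card) := by
  rw [mul_sum]
  calc ∑ n ∈ range L, 4 / 3 * log 2 * Vf n (cn S (n + 1))
      ≤ ∑ n ∈ range L, ∑ c ∈ S, (log 3 + log (cn S (n + 1) c) - log (cn S n c)) :=
        sum_le_sum fun n _ => step_bound S n
    _ = ∑ c ∈ S, ∑ n ∈ range L, (log 3 + log (cn S (n + 1) c) - log (cn S n c)) := sum_comm
    _ = ∑ c ∈ S, (L * log 3 - log S.card) := by
        apply sum_congr rfl
        intro c hc
        have h1 : ∀ n ∈ range L, (log 3 + log (cn S (n + 1) c) - log (cn S n c)) =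
            log 3 + (log (cn S (n + 1) c) - log (cn S n c)) := fun n _ => by ring
        rw [sum_congr rfl h1, sum_add_distrib, sum_const, card_range, nsmul_eq_mul,
          Finset.sum_range_sub (fun n => log (cn S n c)), cn_top hS hc, cn_zero, log_one]
        ring
    _ = S.card * (L * log 3 - log S.card) := by
        rw [sum_const, nsmul_eq_mul]

end Pool.Agent.Collatz3.Mix
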