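import Mathlib
import Pool.Agent.Collatz3.VEnt

set_option autoImplicit false

/-!
The bound for `∑_{k ≤ n < L} V'(k, n)`.
-/

namespace Pool.Agent.Collatz3.Mix

open Finset Real

/-- Mean letter. -/
noncomputable def e1 (z : ℝ) (I : ℕ) : ℝ := ∑ i ∈ Icc 1 I, (i : ℝ) * (z ^ i / Zs z I)

/-- Probability that `c_w` is at least `3 ^ L`. -/
noncomputable def pbad (z : ℝ) (I k L : ℕ) : ℝ :=
  ∑ w ∈ (words I k).filter (fun w => 3 ^ L ≤ cw w), pw z I w

/-- The small constants of the words with sum `s`. -/
def goodC (I k L s : ℕ) : Finset ℕ :=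
  ((words I k).filter (fun w => w.sum = s ∧ cw w < 3 ^ L)).image cw

lemma inj_goodC (I k L s : ℕ) :
    Set.InjOn cw ((words I k).filter (fun w => w.sum = s ∧ cw w < 3 ^ L) : Set (List ℕ)) := by
  intro v hv w hw h
  rw [mem_coe, mem_filter, mem_words] at hv hw
  exact cw_inj hv.1.1 hw.1.1 (fun i hi => (hv.1.2 i hi).1) (fun i hi => (hw.1.2 i hi).1)
    (hv.2.1.trans hw.2.1.symm) h

lemma goodC_lt {I k L s c : ℕ} (h : c ∈ goodC I k L s) : c < 3 ^ L := by
  rw [goodC, mem_image] at h
  obtain ⟨w, hw, rfl⟩ := h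
  exact (mem_filter.mp hw).2.2

lemma pw_eq {z : ℝ} {I k : ℕ} {w : List ℕ} (h : w ∈ words I k) :
    pw z I w = z ^ w.sum / Zs z I ^ k := by
  rw [pw, (mem_words.mp h).1]

/-- the mass of the bad words with sum `s` -/
noncomputable def badm (z : ℝ) (I k L s : ℕ) : ℝ :=
  ∑ w ∈ (words I k).filter (fun w => w.sum = s ∧ 3 ^ L ≤ cw w), pw z I w

lemma claw_split (z : ℝ) (I k L s N : ℕ) (y : ZMod (3 ^ N)) :
    claw z I k s N y = z ^ s / Zs z I ^ k * cn (goodC I k L s) N y +
      ∑ w ∈ (words I k).filter (fun w => w.sum = s ∧ 3 ^ L ≤ cw w ∧ (cw w : ZMod (3 ^ N)) = y),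
        pw z I w := by
  have h1 : z ^ s / Zs z I ^ k * cn (goodC I k L s) N y =
      ∑ w ∈ (words I k).filter (fun w => w.sum = s ∧ cw w < 3 ^ L ∧ (cw w : ZMod (3 ^ N)) = y),
        pw z I w := by
    have hcard : cn (goodC I k L s) N y = (((words I k).filter
        (fun w => w.sum = s ∧ cw w < 3 ^ L ∧ (cw w : ZMod (3 ^ N)) = y)).card : ℝ) := by
      rw [cn, goodC, filter_image, card_image_of_injOn, filter_filter]
      · congr 2
        ext w
        simp only [mem_filter, and_assoc]
      · intro v hv w hw h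
        rw [filter_filter] at hv hw
        rw [mem_coe, mem_filter] at hv hw
        apply inj_goodC I k L s _ _ h
        · rw [mem_coe, mem_filter]
          exact ⟨hv.1, hv.2.1⟩
        · rw [mem_coe, mem_filter]
          exact ⟨hw.1, hw.2.1⟩
    rw [hcard, mul_comm, ← nsmul_eq_mul, ← sum_const]
    apply sum_congr rfl
    intro w hw
    rw [mem_filter] at hw
    rw [pw_eq hw.1, hw.2.1]
  rw [h1, claw, ← sum_union]
  · apply sum_congr _ fun _ _ => rfl
    ext w
    simp only [mem_filter, mem_union]
    constructor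
    · rintro ⟨h1, h2, h3⟩
      rcases lt_or_ge (cw w) (3 ^ L) with h | h
      · exact Or.inl ⟨h1, h2, h, h3⟩
      · exact Or.inr ⟨h1, h2, h, h3⟩
    · rintro (⟨h1, h2, -, h3⟩ | ⟨h1, h2, -, h3⟩) <;> exact ⟨h1, h2, h3⟩
  · rw [disjoint_left]
    intro w hw hw'
    rw [mem_filter] at hw hw'
    omega

lemma Vf_claw_le {z : ℝ} (hz : 0 < z) (I k L s n : ℕ) :
    Vf n (claw z I k s (n + 1)) ≤
      z ^ s / Zs z I ^ k * Vf n (cn (goodC I k L s) (n + 1)) + badm z I k L s := by
  have hZ : 0 ≤ Zs z I := sum_nonneg fun i _ => by positivity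
  have h0 : claw z I k s (n + 1) = fun y => z ^ s / Zs z I ^ k * cn (goodC I k L s) (n + 1) y +
      ∑ w ∈ (words I k).filter
        (fun w => w.sum = s ∧ 3 ^ L ≤ cw w ∧ (cw w : ZMod (3 ^ (n + 1))) = y), pw z I w := by
    funext y
    exact claw_split z I k L s (n + 1) y
  rw [h0]
  have h1 := Vf_add n
    (ρ := fun y => z ^ s / Zs z I ^ k * cn (goodC I k L s) (n + 1) y)
    (σ := fun y => ∑ w ∈ (words I k).filter
        (fun w => w.sum = s ∧ 3 ^ L ≤ cw w ∧ (cw w : ZMod (3 ^ (n + 1))) = y), pw z I w)
    (fun y => mul_nonneg (by positivity) (cn_nonneg _ _ _))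
    (fun y => sum_nonneg fun w _ => pw_nonneg hz I w)
  rw [Vf_smul] at h1
  have h2 := Vf_le n (ρ := fun y => ∑ w ∈ (words I k).filter
        (fun w => w.sum = s ∧ 3 ^ L ≤ cw w ∧ (cw w : ZMod (3 ^ (n + 1))) = y), pw z I w)
    (fun y => sum_nonneg fun w _ => pw_nonneg hz I w)
  have h3 : ∑ y : ZMod (3 ^ (n + 1)), ∑ w ∈ (words I k).filter
        (fun w => w.sum = s ∧ 3 ^ L ≤ cw w ∧ (cw w : ZMod (3 ^ (n + 1))) = y), pw z I w =
      badm z I k L s := by
    rw [badm, ← Finset.sum_fiberwise ((words I k).filter (fun w => w.sum = s ∧ 3 ^ L ≤ cw w))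
      (fun w => (cw w : ZMod (3 ^ (n + 1))))]
    apply sum_congr rfl
    intro y _
    rw [filter_filter]
    apply sum_congr _ fun _ _ => rfl
    ext w
    simp only [mem_filter, and_assoc]
  linarith

lemma sum_badm (z : ℝ) (I k L : ℕ) :
    ∑ s ∈ range (I * k + 1), badm z I k L s = pbad z I k L := by
  rw [pbad, ← Finset.sum_fiberwise_of_maps_to (s := (words I k).filter (fun w => 3 ^ L ≤ cw w))
    (t := range (I * k + 1)) (g := fun w => w.sum)]
  · apply sum_congr rfl
    intro s _
    rw [badm, filter_filter]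
    apply sum_congr _ fun _ _ => rfl
    ext w
    simp only [mem_filter]
    tauto
  · intro w hw
    rw [mem_range, Nat.lt_succ_iff]
    exact sum_le_of_mem_words (mem_filter.mp hw).1

/-- probability of the good words with sum `s` -/
noncomputable def pgood (z : ℝ) (I k L s : ℕ) : ℝ :=
  z ^ s / Zs z I ^ k * (goodC I k L s).card

lemma pgood_eq (z : ℝ) (I k L s : ℕ) : pgood z I k L s =
    ∑ w ∈ (words I k).filter (fun w => w.sum = s ∧ cw w < 3 ^ L), pw z I w := by
  rw [pgood, goodC, card_image_of_injOn (inj_goodC I k L s), mul_comm, ← nsmul_eq_mul,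
    ← sum_const]
  apply sum_congr rfl
  intro w hw
  rw [mem_filter] at hw
  rw [pw_eq hw.1, hw.2.1]

lemma sum_pgood_mul {z : ℝ} (I k L : ℕ) (f : ℕ → ℝ) :
    ∑ s ∈ range (I * k + 1), pgood z I k L s * f s =
      ∑ w ∈ (words I k).filter (fun w => cw w < 3 ^ L), pw z I w * f w.sum := by
  rw [← Finset.sum_fiberwise_of_maps_to (s := (words I k).filter (fun w => cw w < 3 ^ L))
    (t := range (I * k + 1)) (g := fun w => w.sum)]
  · apply sum_congr rfl
    intro s _
    rw [pgood_eq, filter_filter, sum_mul]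
    have : (words I k).filter (fun w => w.sum = s ∧ cw w < 3 ^ L) =
        (words I k).filter (fun w => cw w < 3 ^ L ∧ w.sum = s) := by
      ext w
      simp only [mem_filter]
      tauto
    rw [this]
    apply sum_congr rfl
    intro w hw
    rw [(mem_filter.mp hw).2.2]
  · intro w hw
    rw [mem_range, Nat.lt_succ_iff]
    exact sum_le_of_mem_words (mem_filter.mp hw).1

lemma sum_good_bad {z : ℝ} (I k L : ℕ) (f : List ℕ → ℝ) :
    ∑ w ∈ (words I k).filter (fun w => cw w < 3 ^ L), pw z I w * f w =
      ∑ w ∈ words I k, pw z I w * f w -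
      ∑ w ∈ (words I k).filter (fun w => 3 ^ L ≤ cw w), pw z I w * f w := by
  rw [← sum_filter_add_sum_filter_not (words I k) (fun w => cw w < 3 ^ L)]
  have : (words I k).filter (fun w => ¬ cw w < 3 ^ L) =
      (words I k).filter (fun w => 3 ^ L ≤ cw w) := by
    ext w
    simp only [mem_filter, not_lt]
  rw [this]
  ring

lemma mean_sum {z : ℝ} (hz : 0 < z) {I : ℕ} (hI : 1 ≤ I) (k : ℕ) :
    ∑ w ∈ words I k, pw z I w * (w.sum : ℝ) = k * e1 z I := by
  induction k with
  | zero => simp [sum_words_zero]
  | succ k ih =>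
    rw [sum_words_succ]
    have h1 : ∀ i ∈ Icc 1 I, ∑ w ∈ words I k, pw z I (i :: w) * (((i :: w).sum : ℕ) : ℝ) =
        (i : ℝ) * (z ^ i / Zs z I) + z ^ i / Zs z I * (k * e1 z I) := by
      intro i _
      rw [← ih, mul_sum]
      have : (i : ℝ) * (z ^ i / Zs z I) = ∑ w ∈ words I k, (i : ℝ) * (z ^ i / Zs z I) * pw z I w := by
        rw [← mul_sum, sum_pw hz hI, mul_one]
      rw [this, ← sum_add_distrib]
      apply sum_congr rfl
      intro w _
      rw [pw_cons]
      push_cast [List.sum_cons]
      ring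
    rw [sum_congr rfl h1, sum_add_distrib, ← sum_mul, sum_letter hz hI, e1]
    push_cast
    ring

/-- The main estimate. -/
theorem sum_Vp_le {z : ℝ} (hz : 0 < z) (hz1 : z < 1) {I : ℕ} (hI : 1 ≤ I) (k L : ℕ) :
    ∑ n ∈ Ico k L, Vp z I k n ≤
      (L * log 3 - k * log (Zs z I) - k * e1 z I * log (1 / z) +
        k * (I * log (1 / z) + |log (Zs z I)|) * pbad z I k L + log (I * k + 1) + 1) /
        (4 / 3 * log 2) + L * pbad z I k L := by
  have hl2 : 0 < log 2 := log_pos (by norm_num)
  have hZ : 0 < Zs z I := Zs_pos hz hI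
  have hc0 : 0 < 4 / 3 * log 2 := by positivity
  have hlz : 0 < log (1 / z) := log_pos (by rw [lt_div_iff₀ hz]; linarith)
  have hlz' : log z = - log (1 / z) := by rw [one_div, log_inv, neg_neg]
  have hbad0 : 0 ≤ pbad z I k L := sum_nonneg fun w _ => pw_nonneg hz I w
  set c0 := 4 / 3 * log 2 with hc0'
  -- reduction to classes
  have h1 : ∑ n ∈ Ico k L, Vp z I k n ≤ ∑ s ∈ range (I * k + 1),
      (pgood z I k L s * (L * log 3 - log (goodC I k L s).card) / c0 + L * badm z I k L s) := by
    unfold Vp
    rw [sum_comm]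
    apply sum_le_sum
    intro s _
    have hb0 : 0 ≤ badm z I k L s := sum_nonneg fun w _ => pw_nonneg hz I w
    calc ∑ n ∈ Ico k L, Vf n (claw z I k s (n + 1))
        ≤ ∑ n ∈ Ico k L, (z ^ s / Zs z I ^ k * Vf n (cn (goodC I k L s) (n + 1)) +
            badm z I k L s) := sum_le_sum fun n _ => Vf_claw_le hz I k L s n
      _ ≤ ∑ n ∈ range L, (z ^ s / Zs z I ^ k * Vf n (cn (goodC I k L s) (n + 1)) +
            badm z I k L s) := by
          apply sum_le_sum_of_subset_of_nonneg
          · intro n hn
            rw [mem_Ico] at hn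
            exact mem_range.mpr hn.2
          · intro n _ _
            have := Vf_nonneg n (fun y => cn_nonneg (goodC I k L s) (n + 1) y)
            positivity
      _ = z ^ s / Zs z I ^ k * (∑ n ∈ range L, Vf n (cn (goodC I k L s) (n + 1))) +
            L * badm z I k L s := by
          rw [sum_add_distrib, ← mul_sum, sum_const, card_range, nsmul_eq_mul]
      _ ≤ pgood z I k L s * (L * log 3 - log (goodC I k L s).card) / c0 + L * badm z I k L s := by
          have h2 := sum_Vf_cn (S := goodC I k L s) (L := L) (fun c hc => goodC_lt hc)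
          have h3 : ∑ n ∈ range L, Vf n (cn (goodC I k L s) (n + 1)) ≤
              ((goodC I k L s).card : ℝ) * (L * log 3 - log (goodC I k L s).card) / c0 := by
            rw [le_div_iff₀ hc0, mul_comm]
            exact h2
          have h4 : z ^ s / Zs z I ^ k * (∑ n ∈ range L, Vf n (cn (goodC I k L s) (n + 1))) ≤
              z ^ s / Zs z I ^ k * (((goodC I k L s).card : ℝ) *
                (L * log 3 - log (goodC I k L s).card) / c0) :=
            mul_le_mul_of_nonneg_left h3 (by positivity)
          have h5 : z ^ s / Zs z I ^ k * (((goodC I k L s).card : ℝ) *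
                (L * log 3 - log (goodC I k L s).card) / c0) =
              pgood z I k L s * (L * log 3 - log (goodC I k L s).card) / c0 := by
            rw [pgood]
            ring
          linarith
  rw [sum_add_distrib, ← mul_sum, sum_badm] at h1
  -- entropy of the classes
  set m : ℝ := I * k + 1 with hm
  have hmpos : 0 < m := by positivity
  have h2 : ∀ s ∈ range (I * k + 1),
      pgood z I k L s * (L * log 3 - log (goodC I k L s).card) ≤
      pgood z I k L s * ((L * log 3 - k * log (Zs z I) + log m - 1) + (-log (1 / z)) * s) + 1 / m := by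
    intro s _
    have hp0 : 0 ≤ pgood z I k L s := by unfold pgood; positivity
    rcases Nat.eq_zero_or_pos (goodC I k L s).card with h | h
    · have : pgood z I k L s = 0 := by simp [pgood, h]
      rw [this]
      simp
      positivity
    · have hcard : (0 : ℝ) < (goodC I k L s).card := by exact_mod_cast h
      have hp : 0 < pgood z I k L s := by unfold pgood; positivity
      have hlog : log (pgood z I k L s) = s * log z - k * log (Zs z I) +
          log (goodC I k L s).card := by
        rw [pgood, log_mul (by positivity) hcard.ne', log_div (by positivity) (by positivity),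
          log_pow, log_pow]
      have h3 : -log (pgood z I k L s) ≤ log m + (1 / m) / pgood z I k L s - 1 := by
        have := log_le_sub_one_of_pos (div_pos (div_pos one_pos hmpos) hp)
        rw [log_div (by positivity) hp.ne', log_div one_ne_zero hmpos.ne', log_one] at this
        linarith
      have h4 : L * log 3 - log (goodC I k L s).card =
          L * log 3 - k * log (Zs z I) + s * log z - log (pgood z I k L s) := by
        rw [hlog]
        ring
      rw [h4, hlz']
      have h5 : pgood z I k L s * (-log (pgood z I k L s)) ≤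
          pgood z I k L s * (log m + (1 / m) / pgood z I k L s - 1) :=
        mul_le_mul_of_nonneg_left h3 hp0
      have h6 : pgood z I k L s * (log m + (1 / m) / pgood z I k L s - 1) =
          pgood z I k L s * (log m - 1) + 1 / m := by
        field_simp
        ring
      linarith
  have h3 := sum_le_sum h2
  rw [sum_add_distrib, sum_const, card_range, nsmul_eq_mul,
    sum_pgood_mul I k L (fun s => (L * log 3 - k * log (Zs z I) + log m - 1) + (-log (1 / z)) * s),
    sum_good_bad I k L (fun w => (L * log 3 - k * log (Zs z I) + log m - 1) +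
      (-log (1 / z)) * (w.sum : ℝ))] at h3
  have h4 : ((I * k + 1 : ℕ) : ℝ) * (1 / m) = 1 := by
    rw [hm]
    push_cast
    field_simp
  rw [h4] at h3
  have h5 : ∑ w ∈ words I k, pw z I w * ((L * log 3 - k * log (Zs z I) + log m - 1) +
      (-log (1 / z)) * (w.sum : ℝ)) =
      (L * log 3 - k * log (Zs z I) + log m - 1) - k * e1 z I * log (1 / z) := by
    have : ∀ w ∈ words I k, pw z I w * ((L * log 3 - k * log (Zs z I) + log m - 1) +
      (-log (1 / z)) * (w.sum : ℝ)) = pw z I w * (L * log 3 - k * log (Zs z I) + log m - 1) +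
      (pw z I w * (w.sum : ℝ)) * (-log (1 / z)) := fun w _ => by ring
    rw [sum_congr rfl this, sum_add_distrib, ← sum_mul, ← sum_mul, sum_pw hz hI, mean_sum hz hI]
    ring
  have h6 : -(∑ w ∈ (words I k).filter (fun w => 3 ^ L ≤ cw w),
      pw z I w * ((L * log 3 - k * log (Zs z I) + log m - 1) + (-log (1 / z)) * (w.sum : ℝ))) ≤
      (k * (I * log (1 / z) + |log (Zs z I)|) + 1) * pbad z I k L := by
    rw [pbad, mul_sum, ← sum_neg_distrib]
    apply sum_le_sum
    intro w hw
    have hw' := sum_le_of_mem_words (mem_filter.mp hw).1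
    have hw2 : (w.sum : ℝ) ≤ I * k := by exact_mod_cast hw'
    have hp := pw_nonneg hz I w
    have h7 : -((L * log 3 - k * log (Zs z I) + log m - 1) + (-log (1 / z)) * (w.sum : ℝ)) ≤
        k * (I * log (1 / z) + |log (Zs z I)|) + 1 := by
      have a1 : 0 ≤ (L : ℝ) * log 3 := mul_nonneg (by positivity) (log_nonneg (by norm_num))
      have a2 : 0 ≤ log m := log_nonneg (by rw [hm]; have : (0 : ℝ) ≤ I * k := by positivity
                                            linarith)
      have a3 : log (1 / z) * (w.sum : ℝ) ≤ log (1 / z) * (I * k) :=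
        mul_le_mul_of_nonneg_left hw2 hlz.le
      have a4 : (k : ℝ) * log (Zs z I) ≤ k * |log (Zs z I)| :=
        mul_le_mul_of_nonneg_left (le_abs_self _) (by positivity)
      nlinarith
    nlinarith [mul_le_mul_of_nonneg_left h7 hp]
  rw [h5] at h3
  have hbad1 : pbad z I k L ≤ 1 := by
    rw [← sum_pw hz hI k, pbad]
    exact sum_le_sum_of_subset_of_nonneg (filter_subset _ _) fun w _ _ => pw_nonneg hz I w
  have h8 : ∑ s ∈ range (I * k + 1), pgood z I k L s * (L * log 3 - log (goodC I k L s).card) ≤
      L * log 3 - k * log (Zs z I) - k * e1 z I * log (1 / z) +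
        k * (I * log (1 / z) + |log (Zs z I)|) * pbad z I k L + log m + 1 := by
    linarith
  have h9 : ∑ s ∈ range (I * k + 1),
      pgood z I k L s * (L * log 3 - log (goodC I k L s).card) / c0 ≤
      (L * log 3 - k * log (Zs z I) - k * e1 z I * log (1 / z) +
        k * (I * log (1 / z) + |log (Zs z I)|) * pbad z I k L + log m + 1) / c0 := by
    rw [← sum_div]
    exact div_le_div_of_nonneg_right h8 hc0.le
  linarith

end Pool.Agent.Collatz3.Mix
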