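import Mathlib
import Pool.Agent.Collatz3.VSum

set_option autoImplicit false

/-!
The bad words have small probability, and the resulting asymptotic bound for
`∑_{k ≤ n < L} V'(k, n)`.
-/

namespace Pool.Agent.Collatz3.Mix

open Finset Real Filter Topology

/-- The mean of `2 ^ (-α i)`. -/
noncomputable def em (z : ℝ) (I : ℕ) (α : ℝ) : ℝ :=
  ∑ i ∈ Icc 1 I, ((1 / 2 : ℝ) ^ α) ^ i * (z ^ i / Zs z I)

/-- `X_w` as a real number. -/
noncomputable def Xr (w : List ℕ) : ℝ := cw w / 2 ^ w.sum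

/-- The variance of a letter. -/
noncomputable def vr (z : ℝ) (I : ℕ) : ℝ :=
  ∑ i ∈ Icc 1 I, ((i : ℝ) - e1 z I) ^ 2 * (z ^ i / Zs z I)

/-- The entropy deficit. -/
noncomputable def Df (z : ℝ) (I : ℕ) : ℝ := e1 z I * log 2 - log (Zs z I) - e1 z I * log (1 / z)

lemma Xr_nonneg (w : List ℕ) : 0 ≤ Xr w := by unfold Xr; positivity

lemma Xr_cons (i : ℕ) (w : List ℕ) : Xr (i :: w) = (1 / 2 : ℝ) ^ i * (1 + 3 * Xr w) := by
  unfold Xr
  rw [cw_cons, List.sum_cons, pow_add]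
  push_cast
  rw [one_div, inv_pow]
  field_simp
  ring

lemma rpow_add_le {x y α : ℝ} (hx : 0 ≤ x) (hy : 0 ≤ y) (h0 : 0 ≤ α) (h1 : α ≤ 1) :
    (x + y) ^ α ≤ x ^ α + y ^ α := by
  have := NNReal.rpow_add_le_add_rpow ⟨x, hx⟩ ⟨y, hy⟩ h0 h1
  exact_mod_cast this

lemma mean_Xr {z : ℝ} (hz : 0 < z) {I : ℕ} (hI : 1 ≤ I) {α : ℝ} (h0 : 0 < α) (h1 : α ≤ 1)
    (he : 3 ^ α * em z I α ≤ 1) (k : ℕ) :
    ∑ w ∈ words I k, pw z I w * Xr w ^ α ≤ k := by
  have hem : 0 ≤ em z I α := by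
    have := Zs_pos hz hI
    unfold em
    positivity
  have h3 : (1 : ℝ) ≤ 3 ^ α := one_le_rpow (by norm_num) h0.le
  have hem1 : em z I α ≤ 1 := by nlinarith
  induction k with
  | zero =>
    rw [sum_words_zero]
    simp [Xr, cw, Real.zero_rpow h0.ne']
  | succ k ih =>
    have h4 : ∑ w ∈ words I (k + 1), pw z I w * Xr w ^ α ≤
        em z I α * (1 + 3 ^ α * ∑ w ∈ words I k, pw z I w * Xr w ^ α) := by
      rw [sum_words_succ, em, sum_mul]
      apply sum_le_sum
      intro i _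
      have hle : ∀ w ∈ words I k, pw z I (i :: w) * Xr (i :: w) ^ α ≤
          ((1 / 2 : ℝ) ^ α) ^ i * (z ^ i / Zs z I) *
            (pw z I w + 3 ^ α * (pw z I w * Xr w ^ α)) := by
        intro w _
        have hx := Xr_nonneg w
        have e1 : Xr (i :: w) ^ α ≤ ((1 / 2 : ℝ) ^ α) ^ i * (1 + 3 ^ α * Xr w ^ α) := by
          rw [Xr_cons, mul_rpow (by positivity) (by positivity)]
          have e2 : ((1 / 2 : ℝ) ^ i) ^ α = ((1 / 2 : ℝ) ^ α) ^ i := by
            rw [← rpow_natCast, ← rpow_natCast, ← rpow_mul (by norm_num), ← rpow_mul (by norm_num),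
              mul_comm]
          rw [e2]
          apply mul_le_mul_of_nonneg_left _ (by positivity)
          have e3 := rpow_add_le (x := 1) (y := 3 * Xr w) (by norm_num) (by positivity) h0.le h1
          rw [one_rpow, mul_rpow (by norm_num) hx] at e3
          exact e3
        rw [pw_cons]
        have e4 := mul_le_mul_of_nonneg_left e1
          (mul_nonneg (div_nonneg (pow_nonneg hz.le i) (Zs_pos hz hI).le) (pw_nonneg hz I w))
        calc _ ≤ _ := e4
          _ = _ := by ring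
      refine (sum_le_sum hle).trans (le_of_eq ?_)
      rw [← mul_sum, sum_add_distrib, ← mul_sum, sum_pw hz hI]
    push_cast
    have h5 : 0 ≤ ∑ w ∈ words I k, pw z I w * Xr w ^ α :=
      sum_nonneg fun w _ => mul_nonneg (pw_nonneg hz I w) (rpow_nonneg (Xr_nonneg w) _)
    calc _ ≤ _ := h4
      _ = em z I α + (3 ^ α * em z I α) * ∑ w ∈ words I k, pw z I w * Xr w ^ α := by ring
      _ ≤ 1 + 1 * ∑ w ∈ words I k, pw z I w * Xr w ^ α :=
          add_le_add hem1 (mul_le_mul_of_nonneg_right he h5)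
      _ ≤ k + 1 := by linarith

lemma mean_sub {z : ℝ} (hz : 0 < z) {I : ℕ} (hI : 1 ≤ I) (k : ℕ) :
    ∑ w ∈ words I k, pw z I w * ((w.sum : ℝ) - k * e1 z I) = 0 := by
  simp only [mul_sub]
  rw [sum_sub_distrib, mean_sum hz hI, ← sum_mul, sum_pw hz hI]
  ring

lemma var_sum {z : ℝ} (hz : 0 < z) {I : ℕ} (hI : 1 ≤ I) (k : ℕ) :
    ∑ w ∈ words I k, pw z I w * ((w.sum : ℝ) - k * e1 z I) ^ 2 = k * vr z I := by
  induction k with
  | zero => simp [sum_words_zero]
  | succ k ih =>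
    have h1 : ∀ i ∈ Icc 1 I, ∑ w ∈ words I k, pw z I (i :: w) *
        ((((i :: w).sum : ℕ) : ℝ) - ((k + 1 : ℕ) : ℝ) * e1 z I) ^ 2 =
        ((i : ℝ) - e1 z I) ^ 2 * (z ^ i / Zs z I) + z ^ i / Zs z I * (k * vr z I) := by
      intro i _
      have h2 : ∀ w ∈ words I k, pw z I (i :: w) *
          ((((i :: w).sum : ℕ) : ℝ) - ((k + 1 : ℕ) : ℝ) * e1 z I) ^ 2 =
          ((i : ℝ) - e1 z I) ^ 2 * (z ^ i / Zs z I) * pw z I w +
          2 * ((i : ℝ) - e1 z I) * (z ^ i / Zs z I) * (pw z I w * ((w.sum : ℝ) - k * e1 z I)) +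
          z ^ i / Zs z I * (pw z I w * ((w.sum : ℝ) - k * e1 z I) ^ 2) := by
        intro w _
        rw [pw_cons, List.sum_cons]
        push_cast
        ring
      rw [sum_congr rfl h2, sum_add_distrib, sum_add_distrib, ← mul_sum, ← mul_sum, ← mul_sum,
        sum_pw hz hI, mean_sub hz hI, ih]
      ring
    rw [sum_words_succ, sum_congr rfl h1, sum_add_distrib, ← sum_mul, sum_letter hz hI]
    push_cast
    unfold vr
    ring

lemma markov {ι : Type*} (S : Finset ι) (p f : ι → ℝ) (hp : ∀ i ∈ S, 0 ≤ p i)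
    (hf : ∀ i ∈ S, 0 ≤ f i) {t : ℝ} (ht : 0 < t) :
    ∑ i ∈ S.filter (fun i => t ≤ f i), p i ≤ (∑ i ∈ S, p i * f i) / t := by
  rw [le_div_iff₀ ht, sum_mul]
  calc ∑ i ∈ S.filter (fun i => t ≤ f i), p i * t
      ≤ ∑ i ∈ S.filter (fun i => t ≤ f i), p i * f i := by
        apply sum_le_sum
        intro i hi
        rw [mem_filter] at hi
        exact mul_le_mul_of_nonneg_left hi.2 (hp i hi.1)
    _ ≤ ∑ i ∈ S, p i * f i :=
        sum_le_sum_of_subset_of_nonneg (filter_subset _ _)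
          fun i hi _ => mul_nonneg (hp i hi) (hf i hi)

lemma prob_Xr {z : ℝ} (hz : 0 < z) {I : ℕ} (hI : 1 ≤ I) {α : ℝ} (h0 : 0 < α) (h1 : α ≤ 1)
    (he : 3 ^ α * em z I α ≤ 1) (k : ℕ) (t : ℝ) :
    ∑ w ∈ (words I k).filter (fun w => exp (k * t) ≤ Xr w), pw z I w ≤
      k * exp (-(α * t)) ^ k := by
  have h2 := markov (words I k) (pw z I) (fun w => Xr w ^ α)
    (fun w _ => pw_nonneg hz I w) (fun w _ => rpow_nonneg (Xr_nonneg w) _)
    (rpow_pos_of_pos (exp_pos (k * t)) α)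
  have hfil : (words I k).filter (fun w => exp (k * t) ≤ Xr w) =
      (words I k).filter (fun w => exp (k * t) ^ α ≤ Xr w ^ α) := by
    apply filter_congr
    intro w _
    rw [rpow_le_rpow_iff (exp_pos _).le (Xr_nonneg w) h0]
  rw [hfil]
  refine h2.trans ?_
  rw [div_le_iff₀ (rpow_pos_of_pos (exp_pos _) _), ← exp_mul, ← exp_nat_mul, mul_assoc, ← exp_add]
  have : (k : ℝ) * -(α * t) + k * t * α = 0 := by ring
  rw [this, exp_zero, mul_one]
  exact mean_Xr hz hI h0 h1 he k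

lemma prob_sum {z : ℝ} (hz : 0 < z) {I : ℕ} (hI : 1 ≤ I) {k : ℕ} (hk : 1 ≤ k) {t : ℝ}
    (ht : 0 < t) :
    ∑ w ∈ (words I k).filter (fun w => (k * t) ^ 2 ≤ ((w.sum : ℝ) - k * e1 z I) ^ 2), pw z I w ≤
      vr z I / t ^ 2 / k := by
  have hkr : (0 : ℝ) < k := by exact_mod_cast hk
  have h1 := markov (words I k) (pw z I) (fun w => ((w.sum : ℝ) - k * e1 z I) ^ 2)
    (fun w _ => pw_nonneg hz I w) (fun w _ => sq_nonneg _) (t := (k * t) ^ 2) (by positivity)
  rw [var_sum hz hI] at h1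
  refine h1.trans (le_of_eq ?_)
  field_simp

lemma pbad_le {z : ℝ} (hz : 0 < z) {I : ℕ} (hI : 1 ≤ I) {α : ℝ} (h0 : 0 < α) (h1 : α ≤ 1)
    (he : 3 ^ α * em z I α ≤ 1) {ε : ℝ} (hε : 0 < ε) {k L : ℕ} (hk : 1 ≤ k)
    (hL : k * (e1 z I * log 2 + ε) ≤ L * log 3) :
    pbad z I k L ≤ vr z I / (ε / (2 * log 2)) ^ 2 / k + k * exp (-(α * (ε / 2))) ^ k := by
  have hl2 : 0 < log 2 := log_pos (by norm_num)
  have hkr : (0 : ℝ) < k := by exact_mod_cast hk
  have ht0 : 0 < ε / (2 * log 2) := by positivity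
  have h3 : pbad z I k L ≤
      ∑ w ∈ (words I k).filter (fun w => (k * (ε / (2 * log 2))) ^ 2 ≤
        ((w.sum : ℝ) - k * e1 z I) ^ 2), pw z I w +
      ∑ w ∈ (words I k).filter (fun w => exp (k * (ε / 2)) ≤ Xr w), pw z I w := by
    rw [pbad]
    have hsub : (words I k).filter (fun w => 3 ^ L ≤ cw w) ⊆
        (words I k).filter (fun w => (k * (ε / (2 * log 2))) ^ 2 ≤
          ((w.sum : ℝ) - k * e1 z I) ^ 2) ∪
        (words I k).filter (fun w => exp (k * (ε / 2)) ≤ Xr w) := by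
      intro w hw
      rw [mem_filter] at hw
      rw [mem_union, mem_filter, mem_filter]
      by_cases h : exp (k * (ε / 2)) ≤ Xr w
      · exact Or.inr ⟨hw.1, h⟩
      · left
        refine ⟨hw.1, ?_⟩
        rw [not_le] at h
        have h5 : ((3 : ℝ) ^ L) ≤ cw w := by exact_mod_cast hw.2
        have h6 : (cw w : ℝ) < exp (k * (ε / 2)) * 2 ^ w.sum := by
          rw [Xr, div_lt_iff₀ (by positivity)] at h
          exact h
        have h7 := log_lt_log (by positivity) (h5.trans_lt h6)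
        rw [log_mul (exp_pos _).ne' (by positivity), log_exp, log_pow, log_pow] at h7
        have h8 : k * (ε / 2) ≤ (w.sum - k * e1 z I) * log 2 := by nlinarith
        have h9 : k * (ε / (2 * log 2)) ≤ (w.sum : ℝ) - k * e1 z I := by
          have : k * (ε / (2 * log 2)) = k * (ε / 2) / log 2 := by field_simp
          rw [this, div_le_iff₀ hl2]
          exact h8
        exact pow_le_pow_left₀ (by positivity) h9 2
    refine (sum_le_sum_of_subset_of_nonneg hsub fun w hw _ => pw_nonneg hz I w).trans ?_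
    rw [← sum_union_inter]
    have := sum_nonneg (s := (words I k).filter (fun w => (k * (ε / (2 * log 2))) ^ 2 ≤
          ((w.sum : ℝ) - k * e1 z I) ^ 2) ∩
        (words I k).filter (fun w => exp (k * (ε / 2)) ≤ Xr w)) fun w _ => pw_nonneg hz I w
    linarith
  have h4 := prob_sum hz hI hk ht0
  have h5 := prob_Xr hz hI h0 h1 he k (ε / 2)
  linarith

lemma Vp_nonneg' {z : ℝ} (hz : 0 < z) (I k n : ℕ) : 0 ≤ Vp z I k n :=
  sum_nonneg fun _ _ => Vf_nonneg n fun _ => sum_nonneg fun w _ => pw_nonneg hz I w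

/-- The asymptotic bound. -/
theorem sum_Vp_asymp {z : ℝ} (hz : 0 < z) (hz1 : z < 1) {I : ℕ} (hI : 1 ≤ I) {α : ℝ}
    (h0 : 0 < α) (h1 : α ≤ 1) (he : 3 ^ α * em z I α ≤ 1) {ε : ℝ} (hε : 0 < ε)
    {η : ℝ} (hη : 0 < η) :
    ∀ᶠ k : ℕ in atTop, ∀ L : ℕ, (L : ℝ) * log 3 ≤ k * (e1 z I * log 2 + ε) →
      ∑ n ∈ Ico k L, Vp z I k n ≤ k * ((Df z I + ε) / (4 / 3 * log 2) + η) := by
  have hl2 : 0 < log 2 := log_pos (by norm_num)
  have hl3 : 0 < log 3 := log_pos (by norm_num)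
  have hZ := Zs_pos hz hI
  have hlz : 0 < log (1 / z) := log_pos (by rw [lt_div_iff₀ hz]; linarith)
  have he1 : 0 ≤ e1 z I := by unfold e1; positivity
  have hvr : 0 ≤ vr z I := by unfold vr; positivity
  set c0 := 4 / 3 * log 2 with hc0
  have hc0' : 0 < c0 := by positivity
  set C : ℝ := I * log (1 / z) + |log (Zs z I)| with hC
  have hC0 : 0 ≤ C := by positivity
  set A1 : ℝ := vr z I / (ε / (2 * log 2)) ^ 2 with hA1
  have hA10 : 0 ≤ A1 := by positivity
  set ρ : ℝ := exp (-(α * (ε / 2))) with hρ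
  have hρ0 : 0 ≤ ρ := by positivity
  have hρ1 : ρ < 1 := by
    rw [hρ, exp_lt_one_iff]
    have : 0 < α * (ε / 2) := by positivity
    linarith
  set B : ℕ → ℝ := fun k => A1 / k + k * ρ ^ k with hB
  have hB0 : Tendsto B atTop (𝓝 0) := by
    have h1 : Tendsto (fun k : ℕ => A1 / k) atTop (𝓝 0) := tendsto_const_div_atTop_nhds_zero_nat A1
    have h2 : Tendsto (fun k : ℕ => (k : ℝ) * ρ ^ k) atTop (𝓝 0) :=
      tendsto_self_mul_const_pow_of_lt_one hρ0 hρ1
    simpa using h1.add h2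
  set c' : ℝ := (e1 z I * log 2 + ε) / log 3 with hc'
  have hlogk : Tendsto (fun k : ℕ => log k / k) atTop (𝓝 0) := by
    have := Real.isLittleO_log_id_atTop.tendsto_div_nhds_zero
    exact this.comp tendsto_natCast_atTop_atTop
  have hinv : ∀ c : ℝ, Tendsto (fun k : ℕ => c / k) atTop (𝓝 0) :=
    fun c => tendsto_const_div_atTop_nhds_zero_nat c
  have hlim : Tendsto (fun k : ℕ => ((log 3 + 1 + log (I + 1)) / k + log k / k + C * B k) / c0 +
      (c' + 1 / k) * B k) atTop (𝓝 ((0 + 0 + C * 0) / c0 + (c' + 0) * 0)) :=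
    ((((hinv _).add hlogk).add (hB0.const_mul C)).div_const c0).add
      (((hinv 1).const_add c').mul hB0)
  have hlim' : ((0 : ℝ) + 0 + C * 0) / c0 + (c' + 0) * 0 = 0 := by simp
  rw [hlim'] at hlim
  filter_upwards [hlim.eventually_lt_const hη, eventually_ge_atTop 1] with k hk hk1 L hL
  have hkr : (0 : ℝ) < k := by exact_mod_cast hk1
  set L0 : ℕ := ⌈k * (e1 z I * log 2 + ε) / log 3⌉₊ with hL0
  have hnum : 0 ≤ k * (e1 z I * log 2 + ε) := by positivity
  have hL1 : k * (e1 z I * log 2 + ε) ≤ L0 * log 3 := by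
    rw [← div_le_iff₀ hl3]
    exact Nat.le_ceil _
  have hL2 : (L0 : ℝ) < k * c' + 1 := by
    have := Nat.ceil_lt_add_one (a := k * (e1 z I * log 2 + ε) / log 3) (by positivity)
    rw [hc', ← mul_div_assoc]
    exact this
  have hLL : L ≤ L0 := by
    have : (L : ℝ) ≤ L0 := by
      have := hL.trans hL1
      exact le_of_mul_le_mul_right this hl3
    exact_mod_cast this
  have hpb := pbad_le hz hI h0 h1 he hε (k := k) (L := L0) hk1 hL1
  have hpb' : pbad z I k L0 ≤ B k := hpb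
  have hpb0 : 0 ≤ pbad z I k L0 := sum_nonneg fun w _ => pw_nonneg hz I w
  have hmain := sum_Vp_le hz hz1 hI k L0
  have h1' : ∑ n ∈ Ico k L, Vp z I k n ≤ ∑ n ∈ Ico k L0, Vp z I k n :=
    sum_le_sum_of_subset_of_nonneg (Ico_subset_Ico_right hLL) fun n _ _ => Vp_nonneg' hz I k n
  have hL3 : (L0 : ℝ) * log 3 ≤ k * (e1 z I * log 2 + ε) + log 3 := by
    have : (L0 : ℝ) * log 3 ≤ (k * c' + 1) * log 3 := mul_le_mul_of_nonneg_right hL2.le hl3.le
    have e : (k * c' + 1) * log 3 = k * (e1 z I * log 2 + ε) + log 3 := by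
      rw [hc']
      field_simp
    linarith
  have hlog : log (I * k + 1) ≤ log (I + 1) + log k := by
    rw [← log_mul (by positivity) (by positivity)]
    apply log_le_log (by positivity)
    have : (1 : ℝ) ≤ k := by exact_mod_cast hk1
    nlinarith
  have h2 : (L0 * log 3 - k * log (Zs z I) - k * e1 z I * log (1 / z) +
        k * (I * log (1 / z) + |log (Zs z I)|) * pbad z I k L0 + log (I * k + 1) + 1) /
        c0 ≤ (k * (Df z I + ε) + (log 3 + 1 + log (I + 1)) + log k + k * (C * B k)) / c0 := by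
    apply div_le_div_of_nonneg_right _ hc0'.le
    have h3 : k * (I * log (1 / z) + |log (Zs z I)|) * pbad z I k L0 ≤ k * (C * B k) := by
      rw [← hC, mul_assoc]
      exact mul_le_mul_of_nonneg_left (mul_le_mul_of_nonneg_left hpb' hC0) hkr.le
    unfold Df
    linarith
  have h4 : (L0 : ℝ) * pbad z I k L0 ≤ (k * c' + 1) * B k :=
    mul_le_mul hL2.le hpb' hpb0 ((Nat.cast_nonneg L0).trans hL2.le)
  have h5 : k * (((log 3 + 1 + log (I + 1)) / k + log k / k + C * B k) / c0 +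
      (c' + 1 / k) * B k) = ((log 3 + 1 + log (I + 1)) + log k + k * (C * B k)) / c0 +
      (k * c' + 1) * B k := by
    field_simp
  have h6 := mul_lt_mul_of_pos_left hk hkr
  rw [h5] at h6
  have h7 : (k * (Df z I + ε) + (log 3 + 1 + log (I + 1)) + log k + k * (C * B k)) / c0 =
      k * ((Df z I + ε) / c0) + ((log 3 + 1 + log (I + 1)) + log k + k * (C * B k)) / c0 := by
    ring
  rw [mul_add]
  linarith

end Pool.Agent.Collatz3.Mix
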