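import Mathlib
import Pool.Agent.Collatz3.VBad
import Pool.Agent.Collatz3.Tele

set_option autoImplicit false

/-!
Limits of the parameters as the bound on the letters tends to infinity, and the numerics for
the parameter `3/4`.
-/

namespace Pool.Agent.Collatz3.Mix

open Finset Real Filter Topology

lemma sum_Icc_one (f : ℕ → ℝ) (I : ℕ) : ∑ i ∈ Icc 1 I, f i = ∑ i ∈ range (I + 1), f i - f 0 := by
  induction I with
  | zero => simp
  | succ I ih => rw [Finset.sum_Icc_succ_top (by omega), ih, sum_range_succ _ (I + 1)]; ring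

lemma tendsto_sum_Icc {f : ℕ → ℝ} {a : ℝ} (h : HasSum f a) :
    Tendsto (fun I => ∑ i ∈ Icc 1 I, f i) atTop (𝓝 (a - f 0)) := by
  have h1 := (h.tendsto_sum_nat.comp (tendsto_add_atTop_nat 1)).sub_const (f 0)
  refine h1.congr fun I => ?_
  rw [sum_Icc_one]
  rfl

lemma tendsto_Zs {z : ℝ} (hz : 0 < z) (hz1 : z < 1) :
    Tendsto (Zs z) atTop (𝓝 (z / (1 - z))) := by
  have h := tendsto_sum_Icc (hasSum_geometric_of_lt_one hz.le hz1)
  have e : (1 - z)⁻¹ - z ^ 0 = z / (1 - z) := by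
    have : 1 - z ≠ 0 := by linarith
    rw [pow_zero]
    field_simp
    ring
  rw [e] at h
  exact h

lemma tendsto_e1 {z : ℝ} (hz : 0 < z) (hz1 : z < 1) :
    Tendsto (e1 z) atTop (𝓝 (1 / (1 - z))) := by
  have h1 : HasSum (fun n : ℕ => (n : ℝ) * z ^ n) (z / (1 - z) ^ 2) :=
    hasSum_coe_mul_geometric_of_norm_lt_one (by rw [norm_of_nonneg hz.le]; exact hz1)
  have h2 := tendsto_sum_Icc h1
  have hz2 : 0 < 1 - z := by linarith
  have h3 := h2.div (tendsto_Zs hz hz1) (by positivity)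
  have e : (z / (1 - z) ^ 2 - ((0 : ℕ) : ℝ) * z ^ 0) / (z / (1 - z)) = 1 / (1 - z) := by
    rw [Nat.cast_zero, zero_mul, sub_zero]
    field_simp
  rw [e] at h3
  refine h3.congr fun I => ?_
  simp only [Pi.div_apply, e1, sum_div, mul_div_assoc]

lemma tendsto_em {z : ℝ} (hz : 0 < z) (hz1 : z < 1) {α : ℝ} (h0 : 0 ≤ α) :
    Tendsto (fun I => em z I α) atTop
      (𝓝 ((1 / 2 : ℝ) ^ α * (1 - z) / (1 - (1 / 2 : ℝ) ^ α * z))) := by
  set q : ℝ := (1 / 2 : ℝ) ^ α with hq
  have hq0 : 0 < q := rpow_pos_of_pos (by norm_num) _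
  have hq1 : q ≤ 1 := rpow_le_one (by norm_num) (by norm_num) h0
  have hqz : q * z < 1 := by nlinarith
  have h1 : HasSum (fun n : ℕ => (q * z) ^ n) (1 - q * z)⁻¹ :=
    hasSum_geometric_of_lt_one (by positivity) hqz
  have h2 := tendsto_sum_Icc h1
  have hz2 : 0 < 1 - z := by linarith
  have hz3 : 0 < 1 - q * z := by linarith
  have h3 := h2.div (tendsto_Zs hz hz1) (by positivity)
  have e : ((1 - q * z)⁻¹ - (q * z) ^ 0) / (z / (1 - z)) = q * (1 - z) / (1 - q * z) := by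
    rw [pow_zero]
    field_simp
    ring
  rw [e] at h3
  refine h3.congr fun I => ?_
  simp only [Pi.div_apply, em, sum_div]
  apply sum_congr rfl
  intro i _
  rw [mul_pow]
  ring

lemma tendsto_Df {z : ℝ} (hz : 0 < z) (hz1 : z < 1) :
    Tendsto (Df z) atTop (𝓝 (1 / (1 - z) * log 2 - log (z / (1 - z)) -
      1 / (1 - z) * log (1 / z))) := by
  have hz2 : 0 < 1 - z := by linarith
  have h1 := tendsto_e1 hz hz1
  have h2 : Tendsto (fun I => log (Zs z I)) atTop (𝓝 (log (z / (1 - z)))) :=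
    (tendsto_Zs hz hz1).log (by positivity)
  exact ((h1.mul_const (log 2)).sub h2).sub (h1.mul_const (log (1 / z)))

lemma log_three_lt : log 3 < 46 / 29 * log 2 := by
  have h : log ((3 : ℝ) ^ 29) < log ((2 : ℝ) ^ 46) := log_lt_log (by positivity) (by norm_num)
  rw [log_pow, log_pow] at h
  push_cast at h
  linarith

/-- Numerics for the parameter `3/4`. -/
lemma num_four : ∀ᶠ I : ℕ in atTop, 1 ≤ I ∧ (3 : ℝ) ^ (1 : ℝ) * em (3 / 4) I 1 ≤ 1 ∧
    126 * log 3 ≤ 50 * (e1 (3 / 4) I * log 2) ∧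
    50 * ((Df (3 / 4) I + 1 / 1000) / (4 / 3 * log 2) + 1 / 1000) ≤ 28.86 := by
  have hl2 : 0 < log 2 := log_pos (by norm_num)
  have h3 := log_three_lt
  have hz : (0 : ℝ) < 3 / 4 := by norm_num
  have hz1 : (3 / 4 : ℝ) < 1 := by norm_num
  have a1 : ∀ᶠ I : ℕ in atTop, (3 : ℝ) ^ (1 : ℝ) * em (3 / 4) I 1 < 1 := by
    have h := (tendsto_em hz hz1 (α := 1) (by norm_num)).const_mul ((3 : ℝ) ^ (1 : ℝ))
    exact h.eventually_lt_const (by norm_num)
  have a2 : ∀ᶠ I : ℕ in atTop, 126 * log 3 < 50 * (e1 (3 / 4) I * log 2) := by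
    have h := ((tendsto_e1 hz hz1).mul_const (log 2)).const_mul 50
    refine h.eventually_const_lt ?_
    norm_num
    linarith
  have a3 : ∀ᶠ I : ℕ in atTop,
      50 * ((Df (3 / 4) I + 1 / 1000) / (4 / 3 * log 2) + 1 / 1000) < 28.86 := by
    have h := ((((tendsto_Df hz hz1).add_const (1 / 1000)).div_const (4 / 3 * log 2)).add_const
      (1 / 1000)).const_mul 50
    refine h.eventually_lt_const ?_
    have e1 : log ((3 / 4 : ℝ) / (1 - 3 / 4)) = log 3 := by norm_num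
    have e2 : log (1 / (3 / 4 : ℝ)) = 2 * log 2 - log 3 := by
      rw [show (1 / (3 / 4) : ℝ) = 2 ^ 2 / 3 by norm_num, log_div (by norm_num) (by norm_num),
        log_pow]
      norm_num
    have e3 : (1 / (1 - 3 / 4) : ℝ) = 4 := by norm_num
    rw [e1, e2, e3]
    have hl2' : 0.69 < log 2 := by
      have := Real.log_two_gt_d9
      linarith
    rw [← lt_div_iff₀' (by norm_num)]
    have : (4 * log 2 - log 3 - 4 * (2 * log 2 - log 3) + 1 / 1000) / (4 / 3 * log 2) <
        28.86 / 50 - 1 / 1000 := by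
      rw [div_lt_iff₀ (by positivity)]
      norm_num
      nlinarith
    linarith
  filter_upwards [a1, a2, a3, eventually_ge_atTop 1] with I h1 h2 h3 h4
  exact ⟨h4, h1.le, h2.le, h3.le⟩

end Pool.Agent.Collatz3.Mix
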