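import Mathlib
import Pool.Agent.Collatz3.PDMixA
import Pool.Agent.Collatz3.VNum

set_option autoImplicit false

/-!
The decay of the diagonal `V'(n, n)` at `z = 1 / 2`, uniformly in the bound for the letters.
-/

namespace Pool.Agent.Collatz3.Mix

open Finset Real Filter Topology

lemma sum_sq_half (I : ℕ) :
    ∑ i ∈ Icc 1 I, (i : ℝ) ^ 2 * (1 / 2 : ℝ) ^ i = 6 - ((I : ℝ) ^ 2 + 4 * I + 6) * (1 / 2 : ℝ) ^ I := by
  induction I with
  | zero => simp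
  | succ I ih =>
    rw [Finset.sum_Icc_succ_top (by omega), ih, pow_succ]
    push_cast
    ring

lemma Zs_half_ge {I : ℕ} (hI : 1 ≤ I) : 1 / 2 ≤ Zs (1 / 2) I := by
  have h : (1 / 2 : ℝ) ^ 1 ≤ ∑ i ∈ Icc 1 I, (1 / 2 : ℝ) ^ i :=
    single_le_sum (f := fun i => (1 / 2 : ℝ) ^ i) (fun i _ => by positivity)
      (mem_Icc.mpr ⟨le_rfl, hI⟩)
  rw [pow_one] at h
  exact h

lemma vr_half_le {I : ℕ} (hI : 1 ≤ I) (he : e1 (1 / 2) I ≤ 3) : vr (1 / 2) I ≤ 21 := by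
  have hZ := Zs_half_ge hI
  have hZ0 : 0 < Zs (1 / 2) I := by linarith
  have he0 : 0 ≤ e1 (1 / 2) I := by unfold e1; positivity
  unfold vr
  have h1 : ∀ i ∈ Icc 1 I, ((i : ℝ) - e1 (1 / 2) I) ^ 2 * ((1 / 2 : ℝ) ^ i / Zs (1 / 2) I) ≤
      (i : ℝ) ^ 2 * (1 / 2 : ℝ) ^ i / Zs (1 / 2) I + 9 * ((1 / 2 : ℝ) ^ i / Zs (1 / 2) I) := by
    intro i _
    have h2 : ((i : ℝ) - e1 (1 / 2) I) ^ 2 ≤ (i : ℝ) ^ 2 + 9 := by
      have : (0 : ℝ) ≤ i := Nat.cast_nonneg i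
      nlinarith [mul_nonneg this he0]
    have h3 : 0 ≤ (1 / 2 : ℝ) ^ i / Zs (1 / 2) I := by positivity
    calc _ ≤ ((i : ℝ) ^ 2 + 9) * ((1 / 2 : ℝ) ^ i / Zs (1 / 2) I) :=
          mul_le_mul_of_nonneg_right h2 h3
      _ = _ := by ring
  refine (sum_le_sum h1).trans ?_
  rw [sum_add_distrib, ← sum_div, ← mul_sum, sum_letter (by norm_num) hI, sum_sq_half]
  have h4 : (6 - ((I : ℝ) ^ 2 + 4 * I + 6) * (1 / 2 : ℝ) ^ I) / Zs (1 / 2) I ≤ 12 := by
    rw [div_le_iff₀ hZ0]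
    have : 0 ≤ ((I : ℝ) ^ 2 + 4 * I + 6) * (1 / 2 : ℝ) ^ I := by positivity
    linarith
  linarith

/-- Parameters for all large bounds. -/
lemma half_params {δ : ℝ} (hδ : 0 < δ) : ∀ᶠ I : ℕ in atTop, 1 ≤ I ∧
    (3 : ℝ) ^ (1 / 2 : ℝ) * em (1 / 2) I (1 / 2) ≤ 1 ∧
    5 / 4 * log 3 ≤ e1 (1 / 2) I * log 2 ∧ e1 (1 / 2) I ≤ 3 ∧
    Df (1 / 2) I ≤ δ ∧ |log (Zs (1 / 2) I)| ≤ 1 / 4 := by
  have hl2 : 0 < log 2 := log_pos (by norm_num)
  have hz : (0 : ℝ) < 1 / 2 := by norm_num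
  have hz1 : (1 / 2 : ℝ) < 1 := by norm_num
  have h1 : ∀ᶠ I : ℕ in atTop, (3 : ℝ) ^ (1 / 2 : ℝ) * em (1 / 2) I (1 / 2) < 1 := by
    refine ((tendsto_em hz hz1 (α := 1 / 2) (by norm_num)).const_mul
      ((3 : ℝ) ^ (1 / 2 : ℝ))).eventually_lt_const ?_
    have ha : ((3 : ℝ) ^ (1 / 2 : ℝ)) ^ 2 = 3 := by
      rw [← rpow_natCast, ← rpow_mul (by norm_num)]
      norm_num
    have hb : ((1 / 2 : ℝ) ^ (1 / 2 : ℝ)) ^ 2 = 1 / 2 := by
      rw [← rpow_natCast, ← rpow_mul (by norm_num)]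
      norm_num
    have ha0 : (0 : ℝ) < (3 : ℝ) ^ (1 / 2 : ℝ) := rpow_pos_of_pos (by norm_num) _
    have hb0 : (0 : ℝ) < (1 / 2 : ℝ) ^ (1 / 2 : ℝ) := rpow_pos_of_pos (by norm_num) _
    generalize (3 : ℝ) ^ (1 / 2 : ℝ) = a at ha ha0
    generalize (1 / 2 : ℝ) ^ (1 / 2 : ℝ) = b at hb hb0
    have ha1 : a < 1.74 := by nlinarith
    have hb1 : b < 0.72 := by nlinarith
    rw [← mul_div_assoc, div_lt_one (by linarith)]
    nlinarith [mul_pos ha0 hb0]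
  have h2 : ∀ᶠ I : ℕ in atTop, 5 / 4 * log 3 < e1 (1 / 2) I * log 2 := by
    refine ((tendsto_e1 hz hz1).mul_const (log 2)).eventually_const_lt ?_
    have h3 : log ((3 : ℝ) ^ 5) < log ((2 : ℝ) ^ 8) := log_lt_log (by positivity) (by norm_num)
    rw [log_pow, log_pow] at h3
    push_cast at h3
    norm_num
    linarith
  have h3 : ∀ᶠ I : ℕ in atTop, e1 (1 / 2) I < 3 :=
    (tendsto_e1 hz hz1).eventually_lt_const (by norm_num)
  have h4 : ∀ᶠ I : ℕ in atTop, Df (1 / 2) I < δ := by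
    refine (tendsto_Df hz hz1).eventually_lt_const ?_
    have e1 : log ((1 / 2 : ℝ) / (1 - 1 / 2)) = 0 := by norm_num
    have e2 : log (1 / (1 / 2 : ℝ)) = log 2 := by norm_num
    have e3 : (1 / (1 - 1 / 2) : ℝ) = 2 := by norm_num
    rw [e1, e2, e3]
    linarith
  have h5 : ∀ᶠ I : ℕ in atTop, |log (Zs (1 / 2) I)| < 1 / 4 := by
    have h6 : Tendsto (fun I => log (Zs (1 / 2) I)) atTop (𝓝 (log ((1 / 2) / (1 - 1 / 2)))) :=
      (tendsto_Zs hz hz1).log (by norm_num)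
    have e1 : log ((1 / 2 : ℝ) / (1 - 1 / 2)) = 0 := by norm_num
    rw [e1] at h6
    have h7 := h6.abs
    rw [abs_zero] at h7
    exact h7.eventually_lt_const (by norm_num)
  filter_upwards [h1, h2, h3, h4, h5, eventually_ge_atTop 1] with I a1 a2 a3 a4 a5 a6
  exact ⟨a6, a1.le, a2.le, a3.le, a4.le, a5.le⟩

/-- The level. -/
noncomputable def Lh (δ : ℝ) (I k : ℕ) : ℕ := ⌈k * (e1 (1 / 2) I * log 2 + δ) / log 3⌉₊

lemma e1_half_nonneg {I : ℕ} (hI : 1 ≤ I) : 0 ≤ e1 (1 / 2) I := by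
  have := Zs_pos (z := 1 / 2) (by norm_num) hI
  unfold e1
  positivity

lemma Lh_ge (δ : ℝ) (I k : ℕ) : k * (e1 (1 / 2) I * log 2 + δ) ≤ Lh δ I k * log 3 := by
  have hl3 : 0 < log 3 := log_pos (by norm_num)
  rw [← div_le_iff₀ hl3]
  exact Nat.le_ceil _

lemma Lh_le {δ : ℝ} (hδ : 0 < δ) {I : ℕ} (hI : 1 ≤ I) (k : ℕ) :
    (Lh δ I k : ℝ) * log 3 ≤ k * (e1 (1 / 2) I * log 2 + δ) + log 3 := by
  have hl2 : 0 < log 2 := log_pos (by norm_num)
  have hl3 : 0 < log 3 := log_pos (by norm_num)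
  have he0 := e1_half_nonneg hI
  have := Nat.ceil_lt_add_one (a := k * (e1 (1 / 2) I * log 2 + δ) / log 3) (by positivity)
  have h2 := mul_le_mul_of_nonneg_right this.le hl3.le
  have e : (k * (e1 (1 / 2) I * log 2 + δ) / log 3 + 1) * log 3 =
      k * (e1 (1 / 2) I * log 2 + δ) + log 3 := by
    field_simp
  unfold Lh
  linarith

lemma log_two_bounds : 0.69 < log 2 ∧ log 2 < 0.7 :=
  ⟨by have := Real.log_two_gt_d9; linarith, by have := Real.log_two_lt_d9; linarith⟩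

lemma log_three_bounds : 1 < log 3 ∧ log 3 < 1.2 := by
  constructor
  · have : log (exp 1) < log 3 := log_lt_log (exp_pos 1) (by
      have := Real.exp_one_lt_d9
      linarith)
    rwa [log_exp] at this
  · have := log_three_lt
    have := log_two_bounds.2
    linarith

lemma Lh_le_four {δ : ℝ} (hδ : 0 < δ) (hδ1 : δ ≤ 1 / 12) {I : ℕ} (hI : 1 ≤ I)
    (p3 : e1 (1 / 2) I ≤ 3) {k : ℕ} (hk : 2 ≤ k) : (Lh δ I k : ℝ) ≤ 4 * k := by
  have hl3 := log_three_bounds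
  have hl2 := log_two_bounds
  have hkr : (2 : ℝ) ≤ k := by exact_mod_cast hk
  have h0 := Lh_le hδ hI k
  have h2 : e1 (1 / 2) I * log 2 ≤ 3 * 0.7 :=
    mul_le_mul p3 hl2.2.le (by linarith) (by norm_num)
  have h3 : k * (e1 (1 / 2) I * log 2 + δ) ≤ k * (3 * 0.7 + 1 / 12) :=
    mul_le_mul_of_nonneg_left (by linarith) (by linarith)
  have h4 : (4 * k : ℝ) * 1 ≤ 4 * k * log 3 := mul_le_mul_of_nonneg_left hl3.1.le (by linarith)
  have h1 : (Lh δ I k : ℝ) * log 3 ≤ (4 * k) * log 3 := by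
    refine h0.trans (le_trans ?_ h4)
    linarith
  exact le_of_mul_le_mul_right h1 (by linarith)

lemma le_Lh {δ : ℝ} (hδ : 0 < δ) {I : ℕ}
    (p2 : 5 / 4 * log 3 ≤ e1 (1 / 2) I * log 2) {k L : ℕ} (hL : 4 * L ≤ 5 * k) :
    L ≤ Lh δ I k := by
  have hl3 := log_three_bounds
  have h1 : (4 : ℝ) * L ≤ 5 * k := by exact_mod_cast hL
  have hk0 : (0 : ℝ) ≤ k := Nat.cast_nonneg k
  have h2 : (L : ℝ) * log 3 ≤ Lh δ I k * log 3 := by
    refine le_trans ?_ (Lh_ge δ I k)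
    have h3 : (L : ℝ) * log 3 ≤ 5 / 4 * k * log 3 :=
      mul_le_mul_of_nonneg_right (by linarith) (by linarith)
    have h4 := mul_le_mul_of_nonneg_left p2 hk0
    have h5 : 0 ≤ k * δ := by positivity
    calc (L : ℝ) * log 3 ≤ 5 / 4 * k * log 3 := h3
      _ = k * (5 / 4 * log 3) := by ring
      _ ≤ k * (e1 (1 / 2) I * log 2) := h4
      _ ≤ k * (e1 (1 / 2) I * log 2 + δ) := by
        rw [mul_add]
        linarith
  have := le_of_mul_le_mul_right h2 (by linarith)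
  exact_mod_cast this

/-- Collecting the terms. -/
lemma collect {δ V : ℝ} (hδ : 0 < δ) (hδ1 : δ ≤ 1 / 12) {I k : ℕ} (hI1 : 1 ≤ I)
    (p3 : e1 (1 / 2) I ≤ 3) (p4 : Df (1 / 2) I ≤ δ) (p5 : |log (Zs (1 / 2) I)| ≤ 1 / 4)
    (hk : 2 ≤ k) (hV : 0 ≤ V) (hkpb : k * pbad (1 / 2) I k (Lh δ I k) ≤ V) (hVI : V * I ≤ δ * k)
    (hlogk : log (I * k + 1) ≤ δ * k) (h6k : 6 ≤ δ * k) :
    (Lh δ I k * log 3 - k * log (Zs (1 / 2) I) - k * e1 (1 / 2) I * log 2 +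
      k * (I * log 2 + |log (Zs (1 / 2) I)|) * pbad (1 / 2) I k (Lh δ I k) + log (I * k + 1) + 1) /
      (4 / 3 * log 2) + Lh δ I k * pbad (1 / 2) I k (Lh δ I k) ≤ 12 * (δ * k) := by
  have hl2 := log_two_bounds
  have hl3 := log_three_bounds
  have hIr : (1 : ℝ) ≤ I := by exact_mod_cast hI1
  have hkr : (2 : ℝ) ≤ k := by exact_mod_cast hk
  have hk0 : (0 : ℝ) < k := by linarith
  have hpb0 : 0 ≤ pbad (1 / 2) I k (Lh δ I k) :=
    sum_nonneg fun w _ => pw_nonneg (by norm_num) I w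
  have hDf : Lh δ I k * log 3 - k * log (Zs (1 / 2) I) - k * e1 (1 / 2) I * log 2 ≤
      2 * (δ * k) + log 3 := by
    have h1 : Df (1 / 2) I = - log (Zs (1 / 2) I) := by
      have e2 : log (1 / (1 / 2 : ℝ)) = log 2 := by norm_num
      unfold Df
      rw [e2]
      ring
    have h2 : -log (Zs (1 / 2) I) ≤ δ := by rw [← h1]; exact p4
    have h3 := mul_le_mul_of_nonneg_left h2 hk0.le
    have h4 := Lh_le hδ hI1 k
    linarith
  have hbadterm : k * (I * log 2 + |log (Zs (1 / 2) I)|) * pbad (1 / 2) I k (Lh δ I k) ≤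
      δ * k := by
    have h1 : (I : ℝ) * log 2 + |log (Zs (1 / 2) I)| ≤ I := by
      have : (I : ℝ) * log 2 ≤ I * 0.7 := mul_le_mul_of_nonneg_left hl2.2.le (by linarith)
      linarith
    calc k * (I * log 2 + |log (Zs (1 / 2) I)|) * pbad (1 / 2) I k (Lh δ I k)
        = (I * log 2 + |log (Zs (1 / 2) I)|) * (k * pbad (1 / 2) I k (Lh δ I k)) := by ring
      _ ≤ I * V := mul_le_mul h1 hkpb (by positivity) (by linarith)
      _ ≤ δ * k := by linarith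
  have hlast : (Lh δ I k : ℝ) * pbad (1 / 2) I k (Lh δ I k) ≤ 4 * (δ * k) := by
    calc (Lh δ I k : ℝ) * pbad (1 / 2) I k (Lh δ I k) ≤ 4 * k * pbad (1 / 2) I k (Lh δ I k) :=
          mul_le_mul_of_nonneg_right (Lh_le_four hδ hδ1 hI1 p3 hk) hpb0
      _ = 4 * (k * pbad (1 / 2) I k (Lh δ I k)) := by ring
      _ ≤ 4 * (δ * k) := by
          have : V * 1 ≤ V * I := mul_le_mul_of_nonneg_left hIr hV
          linarith
  have hnum2 : (Lh δ I k * log 3 - k * log (Zs (1 / 2) I) - k * e1 (1 / 2) I * log 2 +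
      k * (I * log 2 + |log (Zs (1 / 2) I)|) * pbad (1 / 2) I k (Lh δ I k) + log (I * k + 1) + 1) /
      (4 / 3 * log 2) ≤ 6 * (δ * k) := by
    rw [div_le_iff₀ (by linarith)]
    have h1 : 0 < δ * k := by positivity
    have h2 : 6 * (δ * k) * (4 / 3 * 0.69) ≤ 6 * (δ * k) * (4 / 3 * log 2) :=
      mul_le_mul_of_nonneg_left (by linarith) (by linarith)
    refine le_trans ?_ h2
    linarith
  have h1 : 0 < δ * k := by positivity
  linarith

/-- The uniform version of the bound for the sums. -/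
theorem sum_Vp_half {ε : ℝ} (hε : 0 < ε) (hε1 : ε ≤ 1) : ∃ C I₀ : ℕ, 1 ≤ C ∧ 1 ≤ I₀ ∧
    ∀ I k L : ℕ, I₀ ≤ I → C * I ≤ k →
    4 * L ≤ 5 * k → ∑ n ∈ Ico k L, Vp (1 / 2) I k n ≤ ε * k := by
  set δ := ε / 12 with hδ
  have hδ0 : 0 < δ := by positivity
  have hδ1 : δ ≤ 1 / 12 := by rw [hδ]; linarith
  obtain ⟨I₁, hI₁⟩ := (half_params hδ0).exists_forall_of_atTop
  -- the error terms
  have hl2 := log_two_bounds
  set V0 : ℝ := 21 / (δ / (2 * log 2)) ^ 2 with hV0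
  have hV00 : 0 ≤ V0 := by positivity
  set ρ : ℝ := exp (-(1 / 2 * (δ / 2))) with hρ
  have hρ0 : 0 ≤ ρ := by positivity
  have hρ1 : ρ < 1 := by
    rw [hρ, exp_lt_one_iff]
    linarith
  have hB : ∀ᶠ k : ℕ in atTop, (k : ℝ) ^ 2 * ρ ^ k < 1 :=
    (tendsto_pow_const_mul_const_pow_of_lt_one 2 hρ0 hρ1).eventually_lt_const one_pos
  have hlog : ∀ᶠ k : ℕ in atTop, log k / k < δ / 4 := by
    have h1 := Real.isLittleO_log_id_atTop.tendsto_div_nhds_zero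
    exact (h1.comp tendsto_natCast_atTop_atTop).eventually_lt_const (by positivity)
  have hone : ∀ᶠ k : ℕ in atTop, (6 : ℝ) / k < δ :=
    (tendsto_const_div_atTop_nhds_zero_nat 6).eventually_lt_const hδ0
  obtain ⟨K, hK⟩ := (hB.and (hlog.and (hone.and (eventually_ge_atTop 2)))).exists_forall_of_atTop
  obtain ⟨C₁, hC₁⟩ := exists_nat_ge ((V0 + 1) / δ)
  refine ⟨K + C₁ + 2, max I₁ 1, by omega, le_max_right _ _, ?_⟩
  intro I k L hI hk hL
  obtain ⟨hI1, p1, p2, p3, p4, p5⟩ := hI₁ I ((le_max_left _ _).trans hI)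
  have hIr : (1 : ℝ) ≤ I := by exact_mod_cast hI1
  have hexp : (K + C₁ + 2) * I = K * I + C₁ * I + 2 * I := by ring
  have hKI : K ≤ K * I := Nat.le_mul_of_pos_right K hI1
  have hkK : K ≤ k := by omega
  have hkI : I ≤ k := by omega
  have hk2 : 2 ≤ k := by omega
  have hkC : C₁ * I ≤ k := by omega
  obtain ⟨b1, b2, b3, -⟩ := hK k hkK
  have hkr : (2 : ℝ) ≤ k := by exact_mod_cast hk2
  have hk0 : (0 : ℝ) < k := by linarith
  have hCI : (V0 + 1) * I ≤ δ * k := by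
    have h1 : (C₁ : ℝ) * I ≤ k := by exact_mod_cast hkC
    rw [div_le_iff₀ hδ0] at hC₁
    calc (V0 + 1) * I ≤ (C₁ * δ) * I := mul_le_mul_of_nonneg_right hC₁ (by linarith)
      _ = δ * (C₁ * I) := by ring
      _ ≤ δ * k := mul_le_mul_of_nonneg_left h1 hδ0.le
  have hpb := pbad_le (z := 1 / 2) (by norm_num) hI1 (α := 1 / 2) (by norm_num) (by norm_num)
    p1 hδ0 (k := k) (L := Lh δ I k) (by omega) (Lh_ge δ I k)
  have hkpb : k * pbad (1 / 2) I k (Lh δ I k) ≤ V0 + 1 := by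
    have h1 := mul_le_mul_of_nonneg_left hpb hk0.le
    have h2 : vr (1 / 2) I / (δ / (2 * log 2)) ^ 2 ≤ V0 :=
      div_le_div_of_nonneg_right (vr_half_le hI1 p3) (by positivity)
    have h3 : k * (vr (1 / 2) I / (δ / (2 * log 2)) ^ 2 / k + k * ρ ^ k) =
        vr (1 / 2) I / (δ / (2 * log 2)) ^ 2 + (k : ℝ) ^ 2 * ρ ^ k := by
      generalize vr (1 / 2) I / (δ / (2 * log 2)) ^ 2 = a
      generalize ρ ^ k = b
      field_simp
    have h4 : k * pbad (1 / 2) I k (Lh δ I k) ≤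
        k * (vr (1 / 2) I / (δ / (2 * log 2)) ^ 2 / k + k * ρ ^ k) := h1
    rw [h3] at h4
    linarith
  have hlogk : log (I * k + 1) ≤ δ * k := by
    have h1 : log (I * k + 1) ≤ log ((k : ℝ) ^ 3) := by
      apply log_le_log (by positivity)
      have hIk : (I : ℝ) ≤ k := by exact_mod_cast hkI
      have h2 : (I : ℝ) * k ≤ k * k := mul_le_mul_of_nonneg_right hIk hk0.le
      have h3 : (2 : ℝ) * 2 ≤ k * k := mul_le_mul hkr hkr (by norm_num) hk0.le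
      have h4 : 2 * ((k : ℝ) * k) ≤ k * (k * k) := mul_le_mul_of_nonneg_right hkr (by positivity)
      calc (I : ℝ) * k + 1 ≤ k * k + k * k := by linarith
        _ ≤ k * (k * k) := by linarith
        _ = (k : ℝ) ^ 3 := by ring
    rw [log_pow] at h1
    push_cast at h1
    rw [div_lt_iff₀ hk0] at b2
    have h5 : 0 < δ * k := by positivity
    linarith
  have h6k : 6 ≤ δ * k := by
    rw [div_lt_iff₀ hk0] at b3
    exact b3.le
  have hmain := sum_Vp_le (z := 1 / 2) (by norm_num) (by norm_num) hI1 k (Lh δ I k)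
  have e2 : log (1 / (1 / 2 : ℝ)) = log 2 := by norm_num
  rw [e2] at hmain
  have h12 : ε * k = 12 * (δ * k) := by rw [hδ]; ring
  rw [h12]
  refine le_trans ?_ (hmain.trans (collect hδ0 hδ1 hI1 p3 p4 p5 hk2 (by linarith) hkpb hCI
    hlogk h6k))
  exact sum_le_sum_of_subset_of_nonneg (Ico_subset_Ico_right (le_Lh hδ0 p2 hL))
    fun n _ _ => Vp_nonneg' (by norm_num) I k n

/-- One step of the iteration. -/
theorem Qd_step {ε : ℝ} (hε : 0 < ε) (hε1 : ε ≤ 1) : ∃ C I₀ : ℕ, 1 ≤ C ∧ 1 ≤ I₀ ∧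
    ∀ I m : ℕ, I₀ ≤ I → C * I ≤ m → Qd (1 / 2) I (10 * m) ≤ 8 * ε * Qd (1 / 2) I m := by
  obtain ⟨C, I₀, hC, hI₀, h⟩ := sum_Vp_half hε hε1
  refine ⟨C, I₀, hC, hI₀, ?_⟩
  intro I m hI hm
  have hI1 : 1 ≤ I := hI₀.trans hI
  have hm1 : 1 ≤ m := by
    have : 1 ≤ C * I := Nat.mul_pos hC hI1
    omega
  have h1 := h I (8 * m) (10 * m) hI (by omega) (by omega)
  have hz : (0 : ℝ) < 1 / 2 := by norm_num
  -- a good level
  have h2 : ∃ n ∈ Ico (9 * m) (10 * m), Vp (1 / 2) I (8 * m) n ≤ 8 * ε := by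
    by_contra hcon
    push Not at hcon
    have h3 : ∑ n ∈ Ico (9 * m) (10 * m), 8 * ε < ∑ n ∈ Ico (9 * m) (10 * m),
        Vp (1 / 2) I (8 * m) n :=
      sum_lt_sum_of_nonempty ⟨9 * m, mem_Ico.mpr ⟨le_rfl, by omega⟩⟩ hcon
    have h4 : ∑ n ∈ Ico (9 * m) (10 * m), Vp (1 / 2) I (8 * m) n ≤
        ∑ n ∈ Ico (8 * m) (10 * m), Vp (1 / 2) I (8 * m) n :=
      sum_le_sum_of_subset_of_nonneg (Ico_subset_Ico_left (by omega))
        fun n _ _ => Vp_nonneg' hz I _ n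
    rw [sum_const, Nat.card_Ico, nsmul_eq_mul] at h3
    have h5 : 10 * m - 9 * m = m := by omega
    rw [h5] at h3
    push_cast at h1
    linarith
  obtain ⟨n, hn, hV⟩ := h2
  rw [mem_Ico] at hn
  obtain ⟨r, rfl⟩ : ∃ r, n = 8 * m + r := ⟨n - 8 * m, by omega⟩
  calc Qd (1 / 2) I (10 * m) ≤ Qd (1 / 2) I (8 * m + r) := Qd_anti hz hI1 hn.2.le
    _ ≤ Vp (1 / 2) I (8 * m) (8 * m + r) * Qd (1 / 2) I r := Qd_rec hz I (8 * m) r
    _ ≤ 8 * ε * Qd (1 / 2) I m :=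
        mul_le_mul hV (Qd_anti hz hI1 (by omega)) (Qd_nonneg hz I r) (by positivity)

/-- Polynomial decay of the diagonal, with an arbitrary exponent. -/
theorem Qd_decay (B : ℕ) : ∃ C I₀ : ℕ, 1 ≤ C ∧ 1 ≤ I₀ ∧
    ∀ I n : ℕ, I₀ ≤ I → 1 ≤ n → Qd (1 / 2) I n ≤ ((C * I : ℝ) / n) ^ B := by
  have hz : (0 : ℝ) < 1 / 2 := by norm_num
  have hε : (0 : ℝ) < (1 / 20) ^ B / 8 := by positivity
  have hε1 : ((1 / 20 : ℝ)) ^ B / 8 ≤ 1 := by
    have : (1 / 20 : ℝ) ^ B ≤ 1 := pow_le_one₀ (by norm_num) (by norm_num)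
    linarith
  obtain ⟨C, I₀, hC, hI₀, h⟩ := Qd_step hε hε1
  refine ⟨10 * C, I₀, by omega, hI₀, ?_⟩
  intro I n hI
  have hI1 : 1 ≤ I := hI₀.trans hI
  have hCI : 1 ≤ C * I := Nat.mul_pos hC hI1
  induction n using Nat.strong_induction_on with
  | _ n ih =>
    intro hn
    have hnr : (1 : ℝ) ≤ n := by exact_mod_cast hn
    rcases lt_or_ge n (10 * (C * I)) with hlt | hge
    · refine (Qd_le_one hz hI1 n).trans ?_
      apply one_le_pow₀
      rw [le_div_iff₀ (by linarith), one_mul]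
      have : (n : ℝ) ≤ ((10 * (C * I) : ℕ) : ℝ) := by exact_mod_cast hlt.le
      push_cast at this ⊢
      linarith
    · obtain ⟨m, r, hr, rfl⟩ : ∃ m r, r < 10 ∧ n = 10 * m + r :=
        ⟨n / 10, n % 10, Nat.mod_lt _ (by norm_num), (Nat.div_add_mod n 10).symm⟩
      have hm : C * I ≤ m := by omega
      have hm1 : 1 ≤ m := by omega
      have hmr : (1 : ℝ) ≤ m := by exact_mod_cast hm1
      have h1 := h I m hI hm
      have h2 := ih m (by omega) hm1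
      calc Qd (1 / 2) I (10 * m + r) ≤ Qd (1 / 2) I (10 * m) := Qd_anti hz hI1 (by omega)
        _ ≤ 8 * ((1 / 20 : ℝ) ^ B / 8) * Qd (1 / 2) I m := h1
        _ = (1 / 20 : ℝ) ^ B * Qd (1 / 2) I m := by ring
        _ ≤ (1 / 20 : ℝ) ^ B * (((10 * C : ℕ) * I : ℝ) / m) ^ B :=
            mul_le_mul_of_nonneg_left h2 (by positivity)
        _ = (1 / 20 * (((10 * C : ℕ) * I : ℝ) / m)) ^ B := by rw [mul_pow]
        _ ≤ (((10 * C : ℕ) * I : ℝ) / ((10 * m + r : ℕ) : ℝ)) ^ B := by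
            apply pow_le_pow_left₀ (by positivity)
            have hle : ((10 * m + r : ℕ) : ℝ) ≤ 20 * m := by
              have : 10 * m + r ≤ 20 * m := by omega
              exact_mod_cast this
            have hpos : (0 : ℝ) < ((10 * m + r : ℕ) : ℝ) := by
              have : 0 < 10 * m + r := by omega
              exact_mod_cast this
            calc 1 / 20 * (((10 * C : ℕ) * I : ℝ) / m) = ((10 * C : ℕ) * I : ℝ) / (20 * m) := by
                  field_simp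
              _ ≤ ((10 * C : ℕ) * I : ℝ) / ((10 * m + r : ℕ) : ℝ) :=
                  div_le_div_of_nonneg_left (by positivity) hpos hle

end Pool.Agent.Collatz3.Mix
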