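import Mathlib
import Pool.Agent.Collatz3.VLaw

set_option autoImplicit false

/-!
If `∑ V(n)` is finite then the densities of the laws of `X` modulo `3 ^ n` converge in `L¹`.
-/

namespace Pool.Agent.Collatz3.Mix

open Finset Real

/-- Total variation against relative entropy. -/
lemma pinsker {ι : Type*} [Fintype ι] {p q : ι → ℝ} (hp : ∀ i, 0 ≤ p i) (hq : ∀ i, 0 ≤ q i)
    (hp1 : ∑ i, p i = 1) (hq1 : ∑ i, q i = 1) (hpq : ∀ i, 0 < p i → 0 < q i) :
    ∑ i, |p i - q i| ≤ 2 * √(∑ i, p i * log (p i / q i)) := by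
  have h1 : ∀ i, 2 * p i - 2 * (√(p i) * √(q i)) ≤ p i * log (p i / q i) := by
    intro i
    rcases (hp i).eq_or_lt with h | h
    · rw [← h]
      simp
    · have hqi := hpq i h
      have h2 : log (√(q i) / √(p i)) ≤ √(q i) / √(p i) - 1 :=
        log_le_sub_one_of_pos (by positivity)
      have h3 : log (p i / q i) = -2 * log (√(q i) / √(p i)) := by
        rw [log_div (by positivity) (by positivity), log_div (by positivity) (by positivity),
          log_sqrt hqi.le, log_sqrt h.le]
        ring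
      rw [h3]
      have h4 : p i * (√(q i) / √(p i)) = √(p i) * √(q i) := by
        have : √(p i) ≠ 0 := by positivity
        rw [← mul_div_assoc, div_eq_iff this]
        have := Real.mul_self_sqrt h.le
        linear_combination (-√(q i)) * this
      nlinarith [mul_le_mul_of_nonneg_left h2 h.le]
  have h2 : ∑ i, (√(p i) - √(q i)) ^ 2 ≤ ∑ i, p i * log (p i / q i) := by
    have h3 : ∀ i, (√(p i) - √(q i)) ^ 2 = (2 * p i - 2 * (√(p i) * √(q i))) + (q i - p i) := by
      intro i
      have e1 := Real.sq_sqrt (hp i)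
      have e2 := Real.sq_sqrt (hq i)
      linear_combination e1 + e2
    rw [sum_congr rfl fun i _ => h3 i, sum_add_distrib, sum_sub_distrib (f := q), hp1, hq1]
    have := sum_le_sum fun i (_ : i ∈ univ) => h1 i
    linarith
  have h3 : ∑ i, (√(p i) + √(q i)) ^ 2 ≤ 4 := by
    have h4 : ∀ i, (√(p i) + √(q i)) ^ 2 ≤ 2 * p i + 2 * q i := by
      intro i
      have e1 := Real.sq_sqrt (hp i)
      have e2 := Real.sq_sqrt (hq i)
      nlinarith [sq_nonneg (√(p i) - √(q i))]
    have := sum_le_sum fun i (_ : i ∈ univ) => h4 i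
    rw [sum_add_distrib, ← mul_sum, ← mul_sum, hp1, hq1] at this
    linarith
  have h4 : ∀ i, |p i - q i| = |√(p i) - √(q i)| * (√(p i) + √(q i)) := by
    intro i
    have e1 := Real.sq_sqrt (hp i)
    have e2 := Real.sq_sqrt (hq i)
    have : p i - q i = (√(p i) - √(q i)) * (√(p i) + √(q i)) := by
      linear_combination e2 - e1
    rw [this, abs_mul, abs_of_nonneg (by positivity : 0 ≤ √(p i) + √(q i))]
  rw [sum_congr rfl fun i _ => h4 i]
  have h5 := Finset.sum_mul_sq_le_sq_mul_sq univ (fun i => |√(p i) - √(q i)|)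
    (fun i => √(p i) + √(q i))
  simp only [sq_abs] at h5
  set D := ∑ i, p i * log (p i / q i) with hD
  have hD0 : 0 ≤ D := le_trans (sum_nonneg fun i _ => sq_nonneg _) h2
  have h6 : (∑ i, |√(p i) - √(q i)| * (√(p i) + √(q i))) ^ 2 ≤ (2 * √D) ^ 2 := by
    rw [mul_pow, Real.sq_sqrt hD0]
    calc _ ≤ _ := h5
      _ ≤ D * 4 := mul_le_mul h2 h3 (sum_nonneg fun i _ => sq_nonneg _) hD0
      _ = 2 ^ 2 * D := by ring
  exact le_of_sq_le_sq h6 (by positivity)

lemma fibre_kl {a b c e : ℝ} (ha : 0 ≤ a) (hb : 0 ≤ b) (hc : 0 ≤ c)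
    (he : 0 < a + b + c → 0 < e) :
    a * log (a / (e / 3)) + b * log (b / (e / 3)) + c * log (c / (e / 3)) ≤
      2 * q3 a b c + (a + b + c) * log ((a + b + c) / e) := by
  rcases (by positivity : 0 ≤ a + b + c).eq_or_lt with h | h
  · have h1 : a = 0 := by linarith
    have h2 : b = 0 := by linarith
    have h3 : c = 0 := by linarith
    rw [h1, h2, h3]
    simp [q3]
  have hepos := he h
  set r := a + b + c with hr
  have key : ∀ t : ℝ, 0 ≤ t → t * log (t / (e / 3)) ≤ t * (3 * t / r - 1) + t * log (r / e) := by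
    intro t ht
    rcases ht.eq_or_lt with h0 | h0
    · rw [← h0]
      simp
    · have h1 : log (t / (e / 3)) = log (3 * t / r) + log (r / e) := by
        rw [← log_mul (by positivity) (by positivity)]
        congr 1
        field_simp
      rw [h1, mul_add]
      have h2 := log_le_sub_one_of_pos (x := 3 * t / r) (by positivity)
      have := mul_le_mul_of_nonneg_left h2 ht
      linarith
  have ka := key a ha
  have kb := key b hb
  have kc := key c hc
  have e1 : 2 * q3 a b c = a * (3 * a / r - 1) + b * (3 * b / r - 1) + c * (3 * c / r - 1) := by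
    unfold q3
    rw [← hr]
    field_simp
    rw [hr]
    ring
  have e2 : r * log (r / e) = a * log (r / e) + b * log (r / e) + c * log (r / e) := by
    conv_lhs => rw [hr]
    ring
  linarith

/-- The extension of the law modulo `3 ^ m` to finer residues, uniform on the fibres. -/
noncomputable def ext (z : ℝ) (I m : ℕ) : ∀ j : ℕ, ZMod (3 ^ (m + j)) → ℝ
  | 0 => mu z I m
  | j + 1 => fun y => ext z I m j (red (m + j) y) / 3

lemma ext_succ (z : ℝ) (I m j : ℕ) (y : ZMod (3 ^ (m + j + 1))) :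
    ext z I m (j + 1) y = ext z I m j (red (m + j) y) / 3 := rfl

lemma ext_nonneg {z : ℝ} (hz : 0 < z) (I m j : ℕ) (y : ZMod (3 ^ (m + j))) :
    0 ≤ ext z I m j y := by
  induction j with
  | zero => exact mu_nonneg hz I m y
  | succ j ih =>
    have := ih (red (m + j) y)
    show 0 ≤ ext z I m j (red (m + j) y) / 3
    positivity

lemma sum_ext {z : ℝ} (hz : 0 < z) {I : ℕ} (hI : 1 ≤ I) (m j : ℕ) :
    ∑ y, ext z I m j y = 1 := by
  induction j with
  | zero => exact sum_mu hz hI m
  | succ j ih =>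
    show ∑ y : ZMod (3 ^ (m + j + 1)), ext z I m j (red (m + j) y) / 3 = 1
    rw [← sum_fs (m + j), ← ih]
    apply sum_congr rfl
    intro x _
    rw [sum_fibre, red_lift3, red_lift3, red_lift3]
    ring

lemma ext_pos {z : ℝ} (hz : 0 < z) {I : ℕ} (hI : 1 ≤ I) (m j : ℕ) (y : ZMod (3 ^ (m + j)))
    (h : 0 < mu z I (m + j) y) : 0 < ext z I m j y := by
  induction j with
  | zero => exact h
  | succ j ih =>
    have h1 : 0 < mu z I (m + j) (red (m + j) y) := by
      rw [← fs_mu hz hI]
      refine lt_of_lt_of_le h ?_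
      unfold fs
      exact single_le_sum (f := fun y => mu z I (m + j + 1) y)
        (fun y _ => mu_nonneg hz I _ y) (mem_filter.mpr ⟨mem_univ _, rfl⟩)
    have := ih _ h1
    show 0 < ext z I m j (red (m + j) y) / 3
    positivity

lemma kl_ext {z : ℝ} (hz : 0 < z) {I : ℕ} (hI : 1 ≤ I) (m j : ℕ) :
    ∑ y, mu z I (m + j) y * log (mu z I (m + j) y / ext z I m j y) ≤
      2 * ∑ l ∈ range j, Vn z I (m + l) := by
  induction j with
  | zero =>
    simp only [range_zero, sum_empty, mul_zero]
    apply le_of_eq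
    apply sum_eq_zero
    intro y _
    show mu z I m y * log (mu z I m y / mu z I m y) = 0
    rcases eq_or_ne (mu z I m y) 0 with h | h
    · rw [h, zero_mul]
    · rw [div_self h, log_one, mul_zero]
  | succ j ih =>
    have h1 : ∑ y : ZMod (3 ^ (m + j + 1)),
        mu z I (m + j + 1) y * log (mu z I (m + j + 1) y / (ext z I m j (red (m + j) y) / 3)) ≤
        2 * Vn z I (m + j) +
        ∑ x, mu z I (m + j) x * log (mu z I (m + j) x / ext z I m j x) := by
      rw [← sum_fs (m + j), Vn_eq, Vf_eq, mul_sum, ← sum_add_distrib]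
      apply sum_le_sum
      intro x _
      rw [sum_fibre, red_lift3, red_lift3, red_lift3]
      have hm := fs_mu hz hI (m + j) x
      rw [fs_eq] at hm
      rw [← hm]
      exact fibre_kl (mu_nonneg hz I _ _) (mu_nonneg hz I _ _) (mu_nonneg hz I _ _)
        (fun h => ext_pos hz hI m j x (by rw [← hm]; exact h))
    rw [sum_range_succ, mul_add]
    calc _ ≤ _ := h1
      _ ≤ _ := by linarith

/-- The `L¹` distance between the levels `m` and `m + j`. -/
lemma l1_ext {z : ℝ} (hz : 0 < z) {I : ℕ} (hI : 1 ≤ I) (m j : ℕ) :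
    ∑ y, |mu z I (m + j) y - ext z I m j y| ≤ 2 * √(2 * ∑ l ∈ range j, Vn z I (m + l)) := by
  refine (pinsker (fun y => mu_nonneg hz I _ y) (fun y => ext_nonneg hz I m j y)
    (sum_mu hz hI _) (sum_ext hz hI m j) (fun y h => ext_pos hz hI m j y h)).trans ?_
  exact mul_le_mul_of_nonneg_left (Real.sqrt_le_sqrt (kl_ext hz hI m j)) (by norm_num)

lemma l1_small {z : ℝ} (hz : 0 < z) {I : ℕ} (hI : 1 ≤ I) (hV : Summable (Vn z I)) {ε : ℝ}
    (hε : 0 < ε) : ∃ m₀ : ℕ, ∀ m, m₀ ≤ m → ∀ j, ∑ y, |mu z I (m + j) y - ext z I m j y| ≤ ε := by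
  have h1 : Filter.Tendsto (fun m => 2 * √(2 * ∑' l, Vn z I (l + m))) Filter.atTop (nhds 0) := by
    have h2 := tendsto_sum_nat_add (Vn z I)
    have h3 := ((h2.const_mul 2).sqrt).const_mul 2
    simpa using h3
  obtain ⟨m₀, hm₀⟩ := (h1.eventually_lt_const hε).exists_forall_of_atTop
  refine ⟨m₀, fun m hm j => ?_⟩
  refine (l1_ext hz hI m j).trans ?_
  refine le_trans ?_ (hm₀ m hm).le
  apply mul_le_mul_of_nonneg_left _ (by norm_num)
  apply Real.sqrt_le_sqrt
  apply mul_le_mul_of_nonneg_left _ (by norm_num)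
  have hs : Summable fun l => Vn z I (l + m) := (summable_nat_add_iff m).mpr hV
  have := hs.sum_le_tsum (range j) (fun l _ => Vn_nonneg hz I _)
  calc ∑ l ∈ range j, Vn z I (m + l) = ∑ l ∈ range j, Vn z I (l + m) :=
        sum_congr rfl fun l _ => by rw [Nat.add_comm]
    _ ≤ _ := this

end Pool.Agent.Collatz3.Mix
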