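import Mathlib
import Pool.Agent.Collatz3.VPow
import Pool.Agent.Collatz3.VL1
import Pool.Agent.Collatz3.VBad

set_option autoImplicit false

/-!
Typical growth from `∑ V(n) < ∞`.
-/

namespace Pool.Agent.Collatz3.Mix

open Finset Real Filter Topology

lemma isUnit_two_pow (N j : ℕ) : IsUnit ((2 : ZMod (3 ^ N)) ^ j) :=
  (IsUnit.of_mul_eq_one _ (two_mul_inv_two N)).pow j

lemma isUnit_Xw {N : ℕ} {w : List ℕ} (h : 1 ≤ w.length) : IsUnit (Xw N w) := by
  cases w with
  | nil => simp at h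
  | cons i v =>
    rw [Xw_cons]
    have h1 : IsUnit ((2⁻¹ : ZMod (3 ^ N)) ^ i) :=
      (IsUnit.of_mul_eq_one (2 : ZMod (3 ^ N)) (by rw [mul_comm]; exact two_mul_inv_two N)).pow i
    have h2 : IsNilpotent (3 * Xw N v) := ⟨N, by rw [mul_pow, three_pow_self, zero_mul]⟩
    exact h1.mul h2.isUnit_one_add

lemma sum_two_pow_mul (N j : ℕ) (f : ZMod (3 ^ N) → ℝ) : ∑ y, f (2 ^ j * y) = ∑ y, f y := by
  obtain ⟨u, hu⟩ := isUnit_two_pow N j
  rw [← hu]
  exact Equiv.sum_comp (Units.mulLeft u) f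

lemma sum_mu_pow {z : ℝ} (hz : 0 < z) {I : ℕ} (hI : 1 ≤ I) {m : ℕ} (hm : 1 ≤ m)
    {u : ZMod (3 ^ m)} (hu : IsUnit u) : 1 ≤ ∑ j ∈ range (3 ^ m), mu z I m (2 ^ j * u) := by
  rw [← sum_pw hz hI m]
  unfold mu law
  simp only [sum_filter]
  rw [sum_comm]
  apply sum_le_sum
  intro w hw
  rw [mem_words] at hw
  obtain ⟨j, hj, h⟩ := exists_pow_lt hu (isUnit_Xw (N := m) (w := w) (by omega))
  have h1 := single_le_sum (f := fun j => if Xw m w = 2 ^ j * u then pw z I w else 0)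
    (fun j _ => by
      show 0 ≤ if Xw m w = 2 ^ j * u then pw z I w else 0
      split_ifs
      · exact pw_nonneg hz I w
      · exact le_rfl) (mem_range.mpr hj)
  simp only [h, if_true] at h1
  exact h1

lemma sum_ext_pow {z : ℝ} (hz : 0 < z) {I : ℕ} (hI : 1 ≤ I) {m : ℕ} (hm : 1 ≤ m) (r : ℕ)
    {u : ZMod (3 ^ (m + r))} (hu : IsUnit u) :
    (3 : ℝ) ^ m / 3 ^ (m + r) ≤ ∑ j ∈ range (3 ^ m), ext z I m r (2 ^ j * u) := by
  induction r with
  | zero =>
    have h1 : (3 : ℝ) ^ m / 3 ^ (m + 0) = 1 := by rw [Nat.add_zero, div_self (by positivity)]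
    rw [h1]
    exact sum_mu_pow hz hI hm hu
  | succ r ih =>
    have h1 := ih (hu.map (red (m + r)))
    have h2 : ∀ j ∈ range (3 ^ m), ext z I m (r + 1) (2 ^ j * u) =
        ext z I m r (2 ^ j * red (m + r) u) / 3 := by
      intro j _
      show ext z I m r (red (m + r) (2 ^ j * u)) / 3 = _
      rw [map_mul, map_pow, map_ofNat]
    rw [sum_congr rfl h2, ← sum_div]
    have h3 : (3 : ℝ) ^ m / 3 ^ (m + (r + 1)) = (3 : ℝ) ^ m / 3 ^ (m + r) / 3 := by
      rw [← Nat.add_assoc, pow_succ, div_div]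
    rw [h3]
    exact div_le_div_of_nonneg_right h1 (by norm_num)

/-- The law of the good words. -/
noncomputable def glaw (z : ℝ) (I N : ℕ) (G : List ℕ → Prop) [DecidablePred G]
    (y : ZMod (3 ^ N)) : ℝ :=
  ∑ w ∈ (words I N).filter (fun w => G w ∧ Xw N w = y), pw z I w

lemma mu_split (z : ℝ) (I N : ℕ) (G : List ℕ → Prop) [DecidablePred G] (y : ZMod (3 ^ N)) :
    mu z I N y = glaw z I N G y + glaw z I N (fun w => ¬ G w) y := by
  unfold mu law glaw
  rw [← sum_filter_add_sum_filter_not ((words I N).filter (fun w => Xw N w = y)) G,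
    filter_filter, filter_filter]
  congr 1
  · apply sum_congr _ fun _ _ => rfl
    ext w
    simp only [mem_filter]
    tauto
  · apply sum_congr _ fun _ _ => rfl
    ext w
    simp only [mem_filter]
    tauto

lemma glaw_nonneg {z : ℝ} (hz : 0 < z) (I N : ℕ) (G : List ℕ → Prop) [DecidablePred G]
    (y : ZMod (3 ^ N)) : 0 ≤ glaw z I N G y := sum_nonneg fun w _ => pw_nonneg hz I w

lemma sum_glaw (z : ℝ) (I N : ℕ) (G : List ℕ → Prop) [DecidablePred G] :
    ∑ y, glaw z I N G y = ∑ w ∈ (words I N).filter G, pw z I w := by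
  rw [← Finset.sum_fiberwise ((words I N).filter G) (fun w => Xw N w)]
  apply sum_congr rfl
  intro y _
  rw [glaw, filter_filter]

lemma bad_card {z : ℝ} (hz : 0 < z) {I : ℕ} (hI : 1 ≤ I) {m : ℕ} (hm : 1 ≤ m) (r : ℕ)
    (G : List ℕ → Prop) [DecidablePred G] :
    (((univ : Finset (ZMod (3 ^ (m + r)))).filter (fun y => IsUnit y ∧ ∀ j < 3 ^ m,
      glaw z I (m + r) G (2 ^ j * y) < 1 / (4 * 3 ^ (m + r)))).card : ℝ) ≤
      (2 * (∑ y, |mu z I (m + r) y - ext z I m r y|) +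
        4 * 3 ^ m * ∑ w ∈ (words I (m + r)).filter (fun w => ¬ G w), pw z I w) *
        3 ^ (m + r) := by
  classical
  set N := m + r with hN
  set J := 3 ^ m with hJ
  have hJr : ((J : ℕ) : ℝ) = 3 ^ m := by rw [hJ]; push_cast; rfl
  have hJpos : (0 : ℝ) < J := by rw [hJr]; positivity
  set F : ZMod (3 ^ N) → ℝ := fun y => ∑ j ∈ range J, |mu z I N (2 ^ j * y) - ext z I m r (2 ^ j * y)|
    with hF
  set ν : ZMod (3 ^ N) → ℝ := glaw z I N (fun w => ¬ G w) with hν
  set B1 := (univ : Finset (ZMod (3 ^ N))).filter (fun y => (J : ℝ) / (2 * 3 ^ N) ≤ F y) with hB1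
  set B2 := fun j : ℕ => (univ : Finset (ZMod (3 ^ N))).filter
    (fun y => (1 : ℝ) / (4 * 3 ^ N) ≤ ν (2 ^ j * y)) with hB2
  have hsub : (univ : Finset (ZMod (3 ^ N))).filter (fun y => IsUnit y ∧ ∀ j < J,
      glaw z I N G (2 ^ j * y) < 1 / (4 * 3 ^ N)) ⊆ B1 ∪ (range J).biUnion B2 := by
    intro y hy
    rw [mem_filter] at hy
    obtain ⟨-, hyu, hyj⟩ := hy
    rw [mem_union, mem_biUnion]
    by_contra hcon
    push Not at hcon
    obtain ⟨h1, h2⟩ := hcon
    have h1' : F y < (J : ℝ) / (2 * 3 ^ N) := by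
      by_contra h
      exact h1 (mem_filter.mpr ⟨mem_univ _, not_lt.mp h⟩)
    have h2' : ∀ j ∈ range J, ν (2 ^ j * y) < 1 / (4 * 3 ^ N) := by
      intro j hj
      by_contra h
      exact h2 j hj (mem_filter.mpr ⟨mem_univ _, not_lt.mp h⟩)
    have h3 : ∀ j ∈ range J, ext z I m r (2 ^ j * y) ≤ 1 / (2 * 3 ^ N) +
        |mu z I N (2 ^ j * y) - ext z I m r (2 ^ j * y)| := by
      intro j hj
      have e1 := mu_split z I N G (2 ^ j * y)
      have e2 := hyj j (mem_range.mp hj)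
      have e3 := h2' j hj
      have e4 := neg_abs_le (mu z I N (2 ^ j * y) - ext z I m r (2 ^ j * y))
      have e5 : (1 : ℝ) / (4 * 3 ^ N) + 1 / (4 * 3 ^ N) = 1 / (2 * 3 ^ N) := by
        field_simp
        norm_num
      rw [hν] at e3
      linarith
    have h4 := sum_le_sum h3
    rw [sum_add_distrib, sum_const, card_range, nsmul_eq_mul] at h4
    have h5 := sum_ext_pow hz hI hm r hyu
    have h6 : (J : ℝ) * (1 / (2 * 3 ^ N)) + (J : ℝ) / (2 * 3 ^ N) = 3 ^ m / 3 ^ N := by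
      rw [hJr]
      field_simp
      norm_num
    have h7 : ∑ j ∈ range J, |mu z I N (2 ^ j * y) - ext z I m r (2 ^ j * y)| = F y := rfl
    rw [h7] at h4
    linarith
  have hc1 : (B1.card : ℝ) ≤ 2 * (∑ y, |mu z I N y - ext z I m r y|) * 3 ^ N := by
    have h1 := markov (univ : Finset (ZMod (3 ^ N))) (fun _ => 1) F (fun _ _ => zero_le_one)
      (fun y _ => sum_nonneg fun j _ => abs_nonneg _) (t := (J : ℝ) / (2 * 3 ^ N)) (by positivity)
    have h2 : ∑ y, (1 : ℝ) * F y = J * ∑ y, |mu z I N y - ext z I m r y| := by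
      simp only [one_mul, hF]
      rw [sum_comm]
      rw [sum_congr rfl fun j _ => sum_two_pow_mul N j (fun y => |mu z I N y - ext z I m r y|)]
      rw [sum_const, card_range, nsmul_eq_mul]
    rw [h2, sum_const, nsmul_eq_mul, mul_one] at h1
    refine h1.trans (le_of_eq ?_)
    field_simp
  have hc2 : ∀ j, ((B2 j).card : ℝ) ≤
      4 * (∑ w ∈ (words I N).filter (fun w => ¬ G w), pw z I w) * 3 ^ N := by
    intro j
    have h1 := markov (univ : Finset (ZMod (3 ^ N))) (fun _ => 1) (fun y => ν (2 ^ j * y))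
      (fun _ _ => zero_le_one) (fun y _ => glaw_nonneg hz I N _ _) (t := (1 : ℝ) / (4 * 3 ^ N))
      (by positivity)
    have h2 : ∑ y, (1 : ℝ) * ν (2 ^ j * y) = ∑ w ∈ (words I N).filter (fun w => ¬ G w), pw z I w := by
      simp only [one_mul]
      rw [sum_two_pow_mul N j ν, hν, sum_glaw]
    rw [h2, sum_const, nsmul_eq_mul, mul_one] at h1
    refine h1.trans (le_of_eq ?_)
    field_simp
  have hcard := card_le_card hsub
  have hcard2 := (card_union_le B1 ((range J).biUnion B2))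
  have hcard3 : ((range J).biUnion B2).card ≤ ∑ j ∈ range J, (B2 j).card := card_biUnion_le
  have hc3 : ((∑ j ∈ range J, (B2 j).card : ℕ) : ℝ) ≤
      J * (4 * (∑ w ∈ (words I N).filter (fun w => ¬ G w), pw z I w) * 3 ^ N) := by
    push_cast
    refine (sum_le_sum fun j _ => hc2 j).trans (le_of_eq ?_)
    rw [sum_const, card_range, nsmul_eq_mul]
  have hall : (((univ : Finset (ZMod (3 ^ N))).filter (fun y => IsUnit y ∧ ∀ j < J,
      glaw z I N G (2 ^ j * y) < 1 / (4 * 3 ^ N))).card : ℝ) ≤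
      B1.card + ((∑ j ∈ range J, (B2 j).card : ℕ) : ℝ) := by
    exact_mod_cast hcard.trans (hcard2.trans (Nat.add_le_add_left hcard3 _))
  rw [hJr] at hc3
  calc _ ≤ _ := hall
    _ ≤ 2 * (∑ y, |mu z I N y - ext z I m r y|) * 3 ^ N +
        3 ^ m * (4 * (∑ w ∈ (words I N).filter (fun w => ¬ G w), pw z I w) * 3 ^ N) :=
        add_le_add hc1 hc3
    _ = _ := by ring

end Pool.Agent.Collatz3.Mix
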