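import Mathlib
import Pool.Agent.Collatz3.PDMixB
import Pool.Agent.Collatz3.VTyp
import Pool.Agent.Collatz3.PDDefs

set_option autoImplicit false

/-!
The mixing statement with a polynomial rate, uniformly in the bound for the letters.
-/

namespace Pool.Agent.Collatz3.Mix

open Finset Real

/-- Total variation against relative entropy, for measures of the same total mass. -/
lemma pinsker_mass {ι : Type*} [Fintype ι] {p q : ι → ℝ} {t : ℝ} (hp : ∀ i, 0 ≤ p i)
    (hq : ∀ i, 0 ≤ q i) (hp1 : ∑ i, p i = t) (hq1 : ∑ i, q i = t) (ht : t ≤ 1)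
    (hpq : ∀ i, 0 < p i → 0 < q i) :
    ∑ i, |p i - q i| ≤ 2 * √(∑ i, p i * log (p i / q i)) := by
  have h1 : ∀ i, 2 * p i - 2 * (√(p i) * √(q i)) ≤ p i * log (p i / q i) := by
    intro i
    rcases (hp i).eq_or_lt with h | h
    · rw [← h]
      simp
    · have hqi := hpq i h
      have h2 : log (√(q i) / √(p i)) ≤ √(q i) / √(p i) - 1 :=
        log_le_sub_one_of_pos (by positivity)
      have h3 : log (p i / q i) = -2 * log (√(q i) / √(p i)) := by
        rw [log_div (by positivity) (by positivity), log_div (by positivity) (by positivity),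
          log_sqrt hqi.le, log_sqrt h.le]
        ring
      rw [h3]
      have h4 : p i * (√(q i) / √(p i)) = √(p i) * √(q i) := by
        have : √(p i) ≠ 0 := by positivity
        rw [← mul_div_assoc, div_eq_iff this]
        have := Real.mul_self_sqrt h.le
        linear_combination (-√(q i)) * this
      nlinarith [mul_le_mul_of_nonneg_left h2 h.le]
  have h2 : ∑ i, (√(p i) - √(q i)) ^ 2 ≤ ∑ i, p i * log (p i / q i) := by
    have h3 : ∀ i, (√(p i) - √(q i)) ^ 2 = (2 * p i - 2 * (√(p i) * √(q i))) + (q i - p i) := by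
      intro i
      have e1 := Real.sq_sqrt (hp i)
      have e2 := Real.sq_sqrt (hq i)
      linear_combination e1 + e2
    rw [sum_congr rfl fun i _ => h3 i, sum_add_distrib, sum_sub_distrib (f := q), hp1, hq1]
    have := sum_le_sum fun i (_ : i ∈ univ) => h1 i
    linarith
  have h3 : ∑ i, (√(p i) + √(q i)) ^ 2 ≤ 4 := by
    have h4 : ∀ i, (√(p i) + √(q i)) ^ 2 ≤ 2 * p i + 2 * q i := by
      intro i
      have e1 := Real.sq_sqrt (hp i)
      have e2 := Real.sq_sqrt (hq i)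
      nlinarith [sq_nonneg (√(p i) - √(q i))]
    have := sum_le_sum fun i (_ : i ∈ univ) => h4 i
    rw [sum_add_distrib, ← mul_sum, ← mul_sum, hp1, hq1] at this
    linarith
  have h4 : ∀ i, |p i - q i| = |√(p i) - √(q i)| * (√(p i) + √(q i)) := by
    intro i
    have e1 := Real.sq_sqrt (hp i)
    have e2 := Real.sq_sqrt (hq i)
    have : p i - q i = (√(p i) - √(q i)) * (√(p i) + √(q i)) := by
      linear_combination e2 - e1
    rw [this, abs_mul, abs_of_nonneg (by positivity : 0 ≤ √(p i) + √(q i))]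
  rw [sum_congr rfl fun i _ => h4 i]
  have h5 := Finset.sum_mul_sq_le_sq_mul_sq univ (fun i => |√(p i) - √(q i)|)
    (fun i => √(p i) + √(q i))
  simp only [sq_abs] at h5
  set D := ∑ i, p i * log (p i / q i) with hD
  have hD0 : 0 ≤ D := le_trans (sum_nonneg fun i _ => sq_nonneg _) h2
  have h6 : (∑ i, |√(p i) - √(q i)| * (√(p i) + √(q i))) ^ 2 ≤ (2 * √D) ^ 2 := by
    rw [mul_pow, Real.sq_sqrt hD0]
    calc _ ≤ _ := h5
      _ ≤ D * 4 := mul_le_mul h2 h3 (sum_nonneg fun i _ => sq_nonneg _) hD0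
      _ = 2 ^ 2 * D := by ring
  exact le_of_sq_le_sq h6 (by positivity)

/-! ### Consistent families -/

/-- The extension of the level `m` of a family to finer residues, uniform on the fibres. -/
noncomputable def extp (p : (N : ℕ) → ZMod (3 ^ N) → ℝ) (m : ℕ) : ∀ j : ℕ, ZMod (3 ^ (m + j)) → ℝ
  | 0 => p m
  | j + 1 => fun y => extp p m j (red (m + j) y) / 3

lemma extp_nonneg {p : (N : ℕ) → ZMod (3 ^ N) → ℝ} (hp : ∀ N y, 0 ≤ p N y) (m j : ℕ)
    (y : ZMod (3 ^ (m + j))) : 0 ≤ extp p m j y := by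
  induction j with
  | zero => exact hp m y
  | succ j ih =>
    have := ih (red (m + j) y)
    show 0 ≤ extp p m j (red (m + j) y) / 3
    positivity

lemma sum_extp (p : (N : ℕ) → ZMod (3 ^ N) → ℝ) (m j : ℕ) :
    ∑ y, extp p m j y = ∑ y, p m y := by
  induction j with
  | zero => rfl
  | succ j ih =>
    show ∑ y : ZMod (3 ^ (m + j + 1)), extp p m j (red (m + j) y) / 3 = _
    rw [← sum_fs (m + j), ← ih]
    apply sum_congr rfl
    intro x _
    rw [sum_fibre, red_lift3, red_lift3, red_lift3]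
    ring

lemma sum_level {p : (N : ℕ) → ZMod (3 ^ N) → ℝ} (hc : ∀ N x, fs N (p (N + 1)) x = p N x)
    (m j : ℕ) : ∑ y, p (m + j) y = ∑ y, p m y := by
  induction j with
  | zero => rfl
  | succ j ih =>
    rw [← ih]
    show ∑ y : ZMod (3 ^ (m + j + 1)), p (m + j + 1) y = _
    rw [← sum_fs (m + j)]
    apply sum_congr rfl
    intro x _
    exact hc (m + j) x

lemma extp_pos {p : (N : ℕ) → ZMod (3 ^ N) → ℝ} (hp : ∀ N y, 0 ≤ p N y)
    (hc : ∀ N x, fs N (p (N + 1)) x = p N x) (m j : ℕ) (y : ZMod (3 ^ (m + j)))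
    (h : 0 < p (m + j) y) : 0 < extp p m j y := by
  induction j with
  | zero => exact h
  | succ j ih =>
    have h1 : 0 < p (m + j) (red (m + j) y) := by
      rw [← hc]
      refine lt_of_lt_of_le h ?_
      unfold fs
      exact single_le_sum (f := fun y => p (m + j + 1) y)
        (fun y _ => hp _ y) (mem_filter.mpr ⟨mem_univ _, rfl⟩)
    have := ih _ h1
    show 0 < extp p m j (red (m + j) y) / 3
    positivity

lemma kl_extp {p : (N : ℕ) → ZMod (3 ^ N) → ℝ} (hp : ∀ N y, 0 ≤ p N y)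
    (hc : ∀ N x, fs N (p (N + 1)) x = p N x) (m j : ℕ) :
    ∑ y, p (m + j) y * log (p (m + j) y / extp p m j y) ≤
      2 * ∑ l ∈ range j, Vf (m + l) (p (m + l + 1)) := by
  induction j with
  | zero =>
    simp only [range_zero, sum_empty, mul_zero]
    apply le_of_eq
    apply sum_eq_zero
    intro y _
    show p m y * log (p m y / p m y) = 0
    rcases eq_or_ne (p m y) 0 with h | h
    · rw [h, zero_mul]
    · rw [div_self h, log_one, mul_zero]
  | succ j ih =>
    have h1 : ∑ y : ZMod (3 ^ (m + j + 1)),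
        p (m + j + 1) y * log (p (m + j + 1) y / (extp p m j (red (m + j) y) / 3)) ≤
        2 * Vf (m + j) (p (m + j + 1)) +
        ∑ x, p (m + j) x * log (p (m + j) x / extp p m j x) := by
      rw [← sum_fs (m + j), Vf_eq, mul_sum, ← sum_add_distrib]
      apply sum_le_sum
      intro x _
      rw [sum_fibre, red_lift3, red_lift3, red_lift3]
      have hm := hc (m + j) x
      rw [fs_eq] at hm
      rw [← hm]
      exact fibre_kl (hp _ _) (hp _ _) (hp _ _)
        (fun h => extp_pos hp hc m j x (by rw [← hm]; exact h))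
    rw [sum_range_succ, mul_add]
    calc _ ≤ _ := h1
      _ ≤ _ := by linarith

lemma extp_eq (p : (N : ℕ) → ZMod (3 ^ N) → ℝ) (m j : ℕ) (y : ZMod (3 ^ (m + j))) :
    extp p m j y =
      p m (ZMod.castHom (pow_dvd_pow 3 (Nat.le_add_right m j)) (ZMod (3 ^ m)) y) / 3 ^ j := by
  induction j with
  | zero =>
    show p m y = _
    have : ZMod.castHom (pow_dvd_pow 3 (Nat.le_add_right m 0)) (ZMod (3 ^ m)) =
        RingHom.id (ZMod (3 ^ m)) := Subsingleton.elim _ _
    rw [this]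
    simp
  | succ j ih =>
    show extp p m j (red (m + j) y) / 3 = _
    have e : (3 : ℝ) ^ (j + 1) = 3 ^ j * 3 := pow_succ 3 j
    rw [ih, e, div_div]
    congr 2
    have : (ZMod.castHom (pow_dvd_pow 3 (Nat.le_add_right m j)) (ZMod (3 ^ m))).comp
        (red (m + j)) = ZMod.castHom (pow_dvd_pow 3 (Nat.le_add_right m (j + 1))) (ZMod (3 ^ m)) :=
      Subsingleton.elim _ _
    exact congrFun (congrArg DFunLike.coe this) y

/-! ### The family of the laws of the constants -/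

lemma fs_claw (z : ℝ) (I k s N : ℕ) (x : ZMod (3 ^ N)) :
    fs N (claw z I k s (N + 1)) x = claw z I k s N x := by
  unfold fs claw
  have h := Finset.sum_fiberwise_of_maps_to
    (s := (words I k).filter (fun w => w.sum = s ∧ (cw w : ZMod (3 ^ N)) = x))
    (t := univ.filter (fun y => red N y = x))
    (g := fun w => (cw w : ZMod (3 ^ (N + 1)))) (fun w hw => by
      rw [mem_filter] at hw ⊢
      exact ⟨mem_univ _, by rw [map_natCast]; exact hw.2.2⟩) (pw z I)
  rw [← h]
  apply sum_congr rfl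
  intro y hy
  rw [mem_filter] at hy
  apply sum_congr _ fun _ _ => rfl
  ext w
  simp only [mem_filter]
  constructor
  · rintro ⟨h1, h2, h3⟩
    refine ⟨⟨h1, h2, ?_⟩, h3⟩
    rw [← hy.2, ← h3, map_natCast]
  · rintro ⟨⟨h1, h2, -⟩, h3⟩
    exact ⟨h1, h2, h3⟩

lemma sum_claw {z : ℝ} (hz : 0 < z) {I : ℕ} (hI : 1 ≤ I) (k N : ℕ) :
    ∑ s ∈ range (I * k + 1), ∑ y, claw z I k s N y = 1 := by
  calc ∑ s ∈ range (I * k + 1), ∑ y, claw z I k s N y
      = ∑ s ∈ range (I * k + 1), ∑ w ∈ (words I k).filter (fun w => w.sum = s), pw z I w := by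
        apply sum_congr rfl
        intro s _
        unfold claw
        rw [← Finset.sum_fiberwise ((words I k).filter (fun w => w.sum = s))
          (fun w => (cw w : ZMod (3 ^ N)))]
        apply sum_congr rfl
        intro y _
        rw [filter_filter]
    _ = ∑ w ∈ words I k, pw z I w := by
        apply Finset.sum_fiberwise_of_maps_to
        intro w hw
        rw [mem_range]
        have := sum_le_of_mem_words hw
        omega
    _ = 1 := sum_pw hz hI k

/-- The `L¹` distance of the levels `m` and `m + j`, summed over the sums of the words. -/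
theorem l1_claw {z : ℝ} (hz : 0 < z) {I : ℕ} (hI : 1 ≤ I) (k m j : ℕ) :
    ∑ s ∈ range (I * k + 1), ∑ y, |claw z I k s (m + j) y - extp (claw z I k s) m j y| ≤
      2 * √(2 * ∑ l ∈ range j, Vp z I k (m + l)) := by
  have hp : ∀ s N y, 0 ≤ claw z I k s N y := fun s N y => claw_nonneg hz I k s N y
  have hc : ∀ s N x, fs N (claw z I k s (N + 1)) x = claw z I k s N x := fs_claw z I k
  have h := pinsker_mass (ι := Fin (I * k + 1) × ZMod (3 ^ (m + j)))
    (p := fun i => claw z I k i.1 (m + j) i.2) (q := fun i => extp (claw z I k i.1) m j i.2)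
    (t := 1) (fun i => hp _ _ _) (fun i => extp_nonneg (hp _) m j _)
    (by
      rw [Fintype.sum_prod_type]
      show ∑ s : Fin (I * k + 1), ∑ y, claw z I k s (m + j) y = 1
      rw [← sum_claw hz hI k (m + j),
        Finset.sum_range (fun s => ∑ y, claw z I k s (m + j) y)])
    (by
      rw [Fintype.sum_prod_type]
      show ∑ s : Fin (I * k + 1), ∑ y, extp (claw z I k s) m j y = 1
      rw [← sum_claw hz hI k m, Finset.sum_range (fun s => ∑ y, claw z I k s m y)]
      exact sum_congr rfl fun s _ => sum_extp _ m j)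
    le_rfl (fun i hi => extp_pos (hp _) (hc _) m j _ hi)
  rw [Fintype.sum_prod_type, Fintype.sum_prod_type] at h
  rw [Finset.sum_range (fun s => ∑ y, |claw z I k s (m + j) y - extp (claw z I k s) m j y|)]
  refine h.trans ?_
  apply mul_le_mul_of_nonneg_left _ (by norm_num)
  apply Real.sqrt_le_sqrt
  have h2 : ∑ l ∈ range j, Vp z I k (m + l) =
      ∑ s : Fin (I * k + 1), ∑ l ∈ range j, Vf (m + l) (claw z I k s (m + l + 1)) := by
    unfold Vp
    rw [sum_comm (s := range j), Finset.sum_range]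
  rw [h2, mul_sum]
  apply sum_le_sum
  intro s _
  exact kl_extp (hp s) (hc s) m j

lemma sum_range_zmod (n : ℕ) (f : ZMod (3 ^ n) → ℝ) :
    ∑ x ∈ range (3 ^ n), f (x : ZMod (3 ^ n)) = ∑ y, f y := by
  apply Finset.sum_nbij' (fun x : ℕ => (x : ZMod (3 ^ n))) (fun y => y.val)
  · intro x _
    exact mem_univ _
  · intro y _
    exact mem_range.mpr (ZMod.val_lt y)
  · intro x hx
    exact ZMod.val_cast_of_lt (mem_range.mp hx)
  · intro y _
    exact ZMod.natCast_zmod_val y
  · intro x _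
    rfl

lemma sum_inv_sq_le {m : ℕ} (hm : 1 ≤ m) (j : ℕ) :
    ∑ l ∈ range j, 1 / ((m + l : ℕ) : ℝ) ^ 2 ≤ 2 / m - 2 / ((m + j : ℕ) : ℝ) := by
  induction j with
  | zero => simp
  | succ j ih =>
    rw [sum_range_succ]
    have hr : (1 : ℝ) ≤ ((m + j : ℕ) : ℝ) := by
      have : 1 ≤ m + j := by omega
      exact_mod_cast this
    have h1 : 1 / ((m + j : ℕ) : ℝ) ^ 2 ≤ 2 / ((m + j : ℕ) : ℝ) - 2 / ((m + (j + 1) : ℕ) : ℝ) := by
      have e : ((m + (j + 1) : ℕ) : ℝ) = ((m + j : ℕ) : ℝ) + 1 := by push_cast; ring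
      rw [e]
      generalize ((m + j : ℕ) : ℝ) = a at hr
      rw [div_sub_div _ _ (by linarith) (by linarith), div_le_div_iff₀ (by positivity)
        (by positivity)]
      nlinarith [mul_nonneg (show (0 : ℝ) ≤ a by linarith) (show (0 : ℝ) ≤ a - 1 by linarith)]
    linarith

/-- The rate for the laws of the constants. -/
theorem l1_rate (A : ℕ) : ∃ (C : ℝ) (I₀ : ℕ), 0 ≤ C ∧ 1 ≤ I₀ ∧ ∀ I m j : ℕ, I₀ ≤ I → 1 ≤ m →
    ∑ s ∈ range (I * (m + j) + 1), ∑ y, |claw (1 / 2) I (m + j) s (m + j) y -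
      extp (claw (1 / 2) I (m + j) s) m j y| ≤ C * (I : ℝ) ^ (A + 1) / (m : ℝ) ^ A := by
  obtain ⟨C, I₀, hC, hI₀, h⟩ := Qd_decay (2 * A + 2)
  refine ⟨4 * (C : ℝ) ^ (A + 1), I₀, by positivity, hI₀, ?_⟩
  intro I m j hI hm
  have hz : (0 : ℝ) < 1 / 2 := by norm_num
  have hI1 : 1 ≤ I := hI₀.trans hI
  have hmr : (1 : ℝ) ≤ m := by exact_mod_cast hm
  refine (l1_claw hz hI1 (m + j) m j).trans ?_
  have h1 : ∑ l ∈ range j, Vp (1 / 2) I (m + j) (m + l) ≤
      2 * (((C : ℝ) * I) ^ (A + 1) / (m : ℝ) ^ A) ^ 2 := by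
    have h2 : ∀ l ∈ range j, Vp (1 / 2) I (m + j) (m + l) ≤
        (((C : ℝ) * I) ^ (A + 1) / (m : ℝ) ^ A) ^ 2 * (1 / ((m + l : ℕ) : ℝ) ^ 2) := by
      intro l hl
      rw [mem_range] at hl
      have hr : (m : ℝ) ≤ ((m + l : ℕ) : ℝ) := by
        have : m ≤ m + l := by omega
        exact_mod_cast this
      have hr0 : (0 : ℝ) < ((m + l : ℕ) : ℝ) := by linarith
      calc Vp (1 / 2) I (m + j) (m + l) ≤ Qd (1 / 2) I (m + l) := Vp_le_Qd hz hI1 (by omega)
        _ ≤ ((C * I : ℝ) / ((m + l : ℕ) : ℝ)) ^ (2 * A + 2) := h I (m + l) hI (by omega)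
        _ = ((C : ℝ) * I) ^ (2 * A + 2) / (((m + l : ℕ) : ℝ) ^ (2 * A)) *
              (1 / ((m + l : ℕ) : ℝ) ^ 2) := by
            rw [div_pow, pow_add ((m + l : ℕ) : ℝ) (2 * A) 2, div_mul_div_comm, mul_one]
        _ ≤ ((C : ℝ) * I) ^ (2 * A + 2) / ((m : ℝ) ^ (2 * A)) *
              (1 / ((m + l : ℕ) : ℝ) ^ 2) := by
            apply mul_le_mul_of_nonneg_right _ (by positivity)
            apply div_le_div_of_nonneg_left (by positivity) (by positivity)
            exact pow_le_pow_left₀ (by linarith) hr _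
        _ = _ := by
            congr 1
            rw [div_pow, ← pow_mul, ← pow_mul]
            congr 2 <;> ring
    refine (sum_le_sum h2).trans ?_
    rw [← mul_sum, mul_comm]
    apply mul_le_mul_of_nonneg_right _ (by positivity)
    refine (sum_inv_sq_le hm j).trans ?_
    have h3 : (2 : ℝ) / m ≤ 2 := div_le_self (by norm_num) hmr
    have h4 : 0 ≤ 2 / ((m + j : ℕ) : ℝ) := by positivity
    linarith
  have h5 : √(2 * ∑ l ∈ range j, Vp (1 / 2) I (m + j) (m + l)) ≤
      2 * (((C : ℝ) * I) ^ (A + 1) / (m : ℝ) ^ A) := by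
    rw [Real.sqrt_le_left (by positivity)]
    calc 2 * ∑ l ∈ range j, Vp (1 / 2) I (m + j) (m + l)
        ≤ 2 * (2 * (((C : ℝ) * I) ^ (A + 1) / (m : ℝ) ^ A) ^ 2) := by linarith
      _ = _ := by ring
  calc 2 * √(2 * ∑ l ∈ range j, Vp (1 / 2) I (m + j) (m + l))
      ≤ 2 * (2 * (((C : ℝ) * I) ^ (A + 1) / (m : ℝ) ^ A)) := by linarith
    _ = _ := by
        rw [mul_pow]
        ring

end Pool.Agent.Collatz3.Mix

namespace Pool.Agent.Collatz3.PD

open Finset
open Pool.Agent.Collatz3.Mix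

lemma Fw_eq (I k s n : ℕ) (hI : 1 ≤ I) (x : ℕ) :
    Fw I k s n (x : ℤ) = Zs (1 / 2) I ^ k * claw (1 / 2) I k s n (2 ^ s * (x : ZMod (3 ^ n))) := by
  have hZ := Zs_pos (z := 1 / 2) (by norm_num) hI
  unfold Fw claw
  rw [mul_sum]
  have hfil : (words I k).filter (fun w => w.sum = s ∧ (3 : ℤ) ^ n ∣ 2 ^ s * (x : ℤ) - cw w) =
      (words I k).filter (fun w => w.sum = s ∧
        (cw w : ZMod (3 ^ n)) = 2 ^ s * (x : ZMod (3 ^ n))) := by
    apply filter_congr
    intro w _
    have h1 : (3 : ℤ) ^ n ∣ 2 ^ s * (x : ℤ) - cw w ↔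
        (cw w : ZMod (3 ^ n)) = 2 ^ s * (x : ZMod (3 ^ n)) := by
      have h2 := ZMod.intCast_zmod_eq_zero_iff_dvd (2 ^ s * (x : ℤ) - cw w) (3 ^ n)
      push_cast at h2
      rw [← h2, sub_eq_zero]
      exact eq_comm
    rw [h1]
  rw [hfil]
  apply sum_congr rfl
  intro w hw
  rw [mem_filter] at hw
  rw [pw_eq hw.1, hw.2.1]
  field_simp

/-- The mixing statement. -/
theorem mixRate_strong (A : ℕ) : ∃ (C : ℝ) (I₀ : ℕ), 0 ≤ C ∧ 1 ≤ I₀ ∧ ∀ I m k : ℕ, I₀ ≤ I →
    1 ≤ m → m ≤ k →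
    ∑ s ∈ range (I * k + 1), ∑ x ∈ range (3 ^ k),
      |Fw I k s k (x : ℤ) - Fw I k s m (x : ℤ) / 3 ^ (k - m)| ≤
        C * (I : ℝ) ^ (A + 1) / (m : ℝ) ^ A := by
  obtain ⟨C, I₀, hC, hI₀, h⟩ := l1_rate A
  refine ⟨C, I₀, hC, hI₀, ?_⟩
  intro I m k hI hm hmk
  obtain ⟨j, rfl⟩ := Nat.exists_eq_add_of_le hmk
  have hI1 : 1 ≤ I := hI₀.trans hI
  have hZ := Zs_pos (z := 1 / 2) (by norm_num) hI1
  have hZ1 : Zs (1 / 2) I ≤ 1 := by
    unfold Zs
    have h1 : ∀ n : ℕ, ∑ i ∈ Icc 1 n, (1 / 2 : ℝ) ^ i = 1 - (1 / 2) ^ n := by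
      intro n
      induction n with
      | zero => simp
      | succ n ih =>
        rw [Finset.sum_Icc_succ_top (by omega), ih, pow_succ]
        ring
    rw [h1]
    have : (0 : ℝ) ≤ (1 / 2) ^ I := by positivity
    linarith
  rw [Nat.add_sub_cancel_left]
  refine le_trans ?_ (h I m j hI hm)
  apply sum_le_sum
  intro s _
  have h1 : ∀ x ∈ range (3 ^ (m + j)),
      |Fw I (m + j) s (m + j) (x : ℤ) - Fw I (m + j) s m (x : ℤ) / 3 ^ j| ≤
      (fun y : ZMod (3 ^ (m + j)) => (fun y => |claw (1 / 2) I (m + j) s (m + j) y -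
        extp (claw (1 / 2) I (m + j) s) m j y|) (2 ^ s * y)) (x : ZMod (3 ^ (m + j))) := by
    intro x _
    simp only
    rw [Fw_eq _ _ _ _ hI1, Fw_eq _ _ _ _ hI1, extp_eq, map_mul, map_pow, map_ofNat, map_natCast,
      mul_div_assoc, ← mul_sub, abs_mul, abs_of_pos (pow_pos hZ _)]
    exact mul_le_of_le_one_left (abs_nonneg _) (pow_le_one₀ hZ.le hZ1)
  refine (sum_le_sum h1).trans (le_of_eq ?_)
  rw [sum_range_zmod (m + j) (fun y : ZMod (3 ^ (m + j)) => (fun y => |claw (1 / 2) I (m + j) s (m + j) y -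
        extp (claw (1 / 2) I (m + j) s) m j y|) (2 ^ s * y)),
    sum_two_pow_mul (m + j) s (fun y => |claw (1 / 2) I (m + j) s (m + j) y -
        extp (claw (1 / 2) I (m + j) s) m j y|)]

theorem mixRate : MixRate := by
  intro A
  obtain ⟨C, I₀, hC, hI₀, h⟩ := mixRate_strong A
  refine ⟨C, I₀, ?_⟩
  intro I m k hI hm hmk
  refine (h I m k hI hm hmk).trans ?_
  have hI1 : (1 : ℝ) ≤ I := by exact_mod_cast hI₀.trans hI
  have h1 : (I : ℝ) ^ (A + 1) ≤ (I : ℝ) ^ (2 * A + 2) := pow_le_pow_right₀ hI1 (by omega)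
  exact div_le_div_of_nonneg_right (mul_le_mul_of_nonneg_left h1 hC) (by positivity)

end Pool.Agent.Collatz3.PD
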