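import Mathlib
import Pool.Agent.Collatz3.PDProb
import Pool.Agent.Collatz3.PDIface

set_option autoImplicit false

/-!
Positive density: the chain of scales.
-/

namespace Pool.Agent.Collatz3.PD

open Finset Filter
open Pool.Agent.Collatz3.Mix (words mem_words sum_words_zero sum_words_succ sum_words_add
  cw_append' cw_inj)

/-- The invariants of the set of words at scale `N`. -/
structure Good (N : ℕ) (K : ℝ) (G : Finset (List ℕ)) : Prop where
  len : ∀ w ∈ G, w.length = N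
  pos : ∀ w ∈ G, ∀ i ∈ w, 1 ≤ i
  lo : ∀ w ∈ G, 199 * N ≤ 100 * w.sum
  hi : ∀ w ∈ G, 100 * w.sum ≤ 201 * N
  cw : ∀ w ∈ G, (cw w : ℝ) ≤ K * 2 ^ w.sum

theorem Good.mono {N : ℕ} {K K' : ℝ} {G : Finset (List ℕ)} (h : Good N K G) (hK : K ≤ K') :
    Good N K' G :=
  ⟨h.len, h.pos, h.lo, h.hi, fun w hw => (h.cw w hw).trans
    (mul_le_mul_of_nonneg_right hK (by positivity))⟩

theorem three_pow_le {N k s : ℕ} (hk : 4 * k ≤ N) (hs : 199 * N ≤ 100 * s) :
    (3 : ℝ) ^ (N + k) ≤ 2 ^ s := by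
  have h : ((3 : ℝ) ^ (N + k)) ^ 100 ≤ (2 ^ s) ^ 100 := by
    rw [← pow_mul, ← pow_mul]
    calc (3 : ℝ) ^ ((N + k) * 100) ≤ 3 ^ (125 * N) := pow_le_pow_right₀ (by norm_num) (by omega)
      _ = (3 ^ 125) ^ N := by rw [pow_mul]
      _ ≤ (2 ^ 199) ^ N := pow_le_pow_left₀ (by positivity) (by norm_num) _
      _ = 2 ^ (199 * N) := by rw [← pow_mul]
      _ ≤ 2 ^ (s * 100) := pow_le_pow_right₀ (by norm_num) (by omega)
  exact le_of_pow_le_pow_left₀ (by norm_num) (by positivity) h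

theorem Good.count' {N : ℕ} {K δ : ℝ} {G : Finset (List ℕ)} (hG : Good N K G) (hK : 0 ≤ K)
    (hN : 2 ≤ N) {k : ℕ} (hk : 4 * k ≤ N) {g : ℕ → ℤ → ℝ} (hg : ∀ s, Per k (g s))
    (hg0 : ∀ s x, 0 ≤ g s x)
    (hδ : ∀ s, 199 * N ≤ 100 * s → 100 * s ≤ 201 * N → A k (g s) ≤ δ) (hδ0 : 0 ≤ δ) (a : ℤ) :
    ∑ w ∈ G.filter (fun w => rd w a), 3 ^ w.length * (1 / 2 : ℝ) ^ w.sum * g w.sum (en w a) ≤
      N * (K + 1) * δ := by
  have h := count_all' (s₁ := (199 * N + 99) / 100) (s₂ := 201 * N / 100) hK a hG.len hG.pos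
    (fun w hw => by have := hG.lo w hw; omega) (fun w hw => by have := hG.hi w hw; omega) hG.cw
    hg hg0 (fun s h1 h2 => hδ s (by omega) (by omega)) (three_pow_le hk (by omega))
  refine h.trans ?_
  rw [mul_assoc]
  apply mul_le_mul_of_nonneg_right
  · exact_mod_cast (by omega : 201 * N / 100 + 1 - (199 * N + 99) / 100 ≤ N)
  · positivity

theorem Good.count {N : ℕ} {K : ℝ} {G : Finset (List ℕ)} (hG : Good N K G) (hK : 0 ≤ K)
    (hN : 2 ≤ N) {k : ℕ} (hk : 4 * k ≤ N) {g : ℤ → ℝ} (hg : Per k g) (hg0 : ∀ x, 0 ≤ g x)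
    (a : ℤ) : E G g a ≤ N * (K + 1) * A k g :=
  hG.count' hK hN hk (g := fun _ => g) (fun _ => hg) (fun _ => hg0) (fun _ _ _ => le_rfl)
    (A_nonneg hg0) a

/-- The error estimates at scale `N`. -/
structure Err (N : ℕ) : Prop where
  big : 1000 ≤ N
  bad : ∀ I d : ℕ, N / 20 ≤ d → d ≤ N → P (badV I N d) ≤ 1 / (N : ℝ) ^ 8
  mix : ∀ k : ℕ, N / 20 ≤ k → k ≤ N / 4 →
    A k (fun x => |U (II N) k x - U (II N) (N / 20) x|) ≤ 1 / (N : ℝ) ^ 8
  num : (3 : ℝ) ^ N * (5 / 4) ^ N ≤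
    (1 / (N : ℝ) - 1 / ((N + N / 20 : ℕ) : ℝ)) * (2 : ℝ) ^ ((199 * N + 99) / 100)

/-- The good blocks. -/
noncomputable def goodV (I N d : ℕ) : Finset (List ℕ) :=
  (words I d).filter fun v => 199 * d ≤ 100 * v.sum ∧ 100 * v.sum ≤ 201 * d ∧
    (Pool.Agent.Collatz3.cw v : ℝ) ≤ (5 / 4) ^ N * 2 ^ v.sum

theorem gap {N : ℕ} (hN : 1000 ≤ N) {K : ℝ} (hK : K ≤ (N : ℝ) ^ 4) :
    N * (K + 2) * (1 / (N : ℝ) ^ 8) + N * (K + 2) * (1 / (N : ℝ) ^ 8) ≤
      1 / (N : ℝ) - 1 / ((N + N / 20 : ℕ) : ℝ) := by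
  have hN' : (1000 : ℝ) ≤ N := by exact_mod_cast hN
  have hpos : (0 : ℝ) < N := by linarith
  obtain ⟨d, hd⟩ : ∃ d : ℕ, d = N / 20 := ⟨_, rfl⟩
  have hd1 : (N : ℝ) ≤ 40 * d := by
    have : N ≤ 40 * d := by omega
    exact_mod_cast this
  have hd2 : (d : ℝ) ≤ N := by
    have : d ≤ N := by omega
    exact_mod_cast this
  rw [← hd]
  push_cast
  have h1 : 1 / (N : ℝ) - 1 / ((N : ℝ) + d) = d / (N * (N + d)) := by
    field_simp
    ring
  rw [h1]
  have h2 : (1 : ℝ) / (80 * N) ≤ d / (N * (N + d)) := by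
    rw [div_le_div_iff₀ (by positivity) (by positivity)]
    nlinarith
  refine le_trans ?_ h2
  have h3 : N * (K + 2) * (1 / (N : ℝ) ^ 8) ≤ 2 / (N : ℝ) ^ 3 := by
    have h4 : K + 2 ≤ 2 * (N : ℝ) ^ 4 := by
      have : (2 : ℝ) ≤ N ^ 4 := by
        calc (2 : ℝ) ≤ N := by linarith
          _ ≤ N ^ 4 := le_self_pow₀ (by linarith) (by norm_num)
      linarith
    calc N * (K + 2) * (1 / (N : ℝ) ^ 8) ≤ N * (2 * (N : ℝ) ^ 4) * (1 / (N : ℝ) ^ 8) :=
          mul_le_mul_of_nonneg_right (mul_le_mul_of_nonneg_left h4 hpos.le) (by positivity)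
      _ = 2 / (N : ℝ) ^ 3 := by
          field_simp
  have h5 : 2 / (N : ℝ) ^ 3 + 2 / (N : ℝ) ^ 3 ≤ 1 / (80 * N) := by
    rw [← add_div, div_le_div_iff₀ (by positivity) (by positivity)]
    have h6 : (N : ℝ) ^ 3 = N * N * N := by ring
    have h7 : (320 : ℝ) ≤ N * N := by nlinarith
    rw [h6]
    nlinarith
  linarith

theorem II_mono {N N' : ℕ} (h : N ≤ N') : II N ≤ II N' :=
  Nat.mul_le_mul_left _ (Nat.log_mono_right h)

theorem step {N : ℕ} (hE : Err N) {K : ℝ} (hK : 0 ≤ K) (hKN : K ≤ (N : ℝ) ^ 4)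
    {G : Finset (List ℕ)} (hG : Good N (K + 1 - 1 / N) G) :
    Good (N + N / 20) (K + 1 - 1 / ((N + N / 20 : ℕ) : ℝ)) (cat G (goodV (II N) N (N / 20))) ∧
    ∀ a, E G (U (II N) (N / 20)) a - (1 / (N : ℝ) - 1 / ((N + N / 20 : ℕ) : ℝ)) ≤
      E (cat G (goodV (II N) N (N / 20))) (U (II (N + N / 20)) ((N + N / 20) / 20)) a := by
  have hbig := hE.big
  have hNpos : (0 : ℝ) < N := by exact_mod_cast (by omega : 0 < N)
  have hN1 : 1 / (N : ℝ) ≤ 1 := by
    rw [div_le_one hNpos]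
    exact_mod_cast (by omega : 1 ≤ N)
  constructor
  · refine ⟨?_, ?_, ?_, ?_, ?_⟩
    · intro w hw
      rw [cat, mem_image] at hw
      obtain ⟨⟨u, v⟩, h, rfl⟩ := hw
      rw [mem_product, goodV, mem_filter] at h
      rw [List.length_append, hG.len _ h.1, words_length h.2.1]
    · intro w hw i hi
      rw [cat, mem_image] at hw
      obtain ⟨⟨u, v⟩, h, rfl⟩ := hw
      rw [mem_product, goodV, mem_filter] at h
      rcases List.mem_append.1 hi with h1 | h1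
      · exact hG.pos _ h.1 i h1
      · exact ((mem_words.1 h.2.1).2 i h1).1
    · intro w hw
      rw [cat, mem_image] at hw
      obtain ⟨⟨u, v⟩, h, rfl⟩ := hw
      rw [mem_product, goodV, mem_filter] at h
      have h1 := hG.lo _ h.1
      have h2 := h.2.2.1
      rw [List.sum_append]
      simp only at h1 h2 ⊢
      omega
    · intro w hw
      rw [cat, mem_image] at hw
      obtain ⟨⟨u, v⟩, h, rfl⟩ := hw
      rw [mem_product, goodV, mem_filter] at h
      have h1 := hG.hi _ h.1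
      have h2 := h.2.2.2.1
      rw [List.sum_append]
      simp only at h1 h2 ⊢
      omega
    · intro w hw
      rw [cat, mem_image] at hw
      obtain ⟨⟨u, v⟩, h, rfl⟩ := hw
      rw [mem_product, goodV, mem_filter] at h
      simp only at h
      obtain ⟨hu, hv, hv1, hv2, hv3⟩ := h
      have h1 := hG.cw _ hu
      have h2 := hE.num
      have h3 := hG.lo _ hu
      simp only
      rw [cw_append', List.sum_append, hG.len _ hu]
      push_cast
      have h4 : (2 : ℝ) ^ ((199 * N + 99) / 100) ≤ 2 ^ u.sum :=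
        pow_le_pow_right₀ (by norm_num) (by omega)
      have h5 : (3 : ℝ) ^ N * (5 / 4) ^ N ≤
          (1 / (N : ℝ) - 1 / ((N : ℝ) + ((N / 20 : ℕ) : ℝ))) * 2 ^ u.sum := by
        refine h2.trans ?_
        push_cast
        apply mul_le_mul_of_nonneg_left h4
        rw [sub_nonneg]
        apply one_div_le_one_div_of_le hNpos
        have : (0 : ℝ) ≤ ((N / 20 : ℕ) : ℝ) := Nat.cast_nonneg _
        linarith
      have h6 : (3 : ℝ) ^ N * (Pool.Agent.Collatz3.cw v : ℝ) ≤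
          ((1 / (N : ℝ) - 1 / ((N : ℝ) + ((N / 20 : ℕ) : ℝ))) * 2 ^ u.sum) * 2 ^ v.sum := by
        calc (3 : ℝ) ^ N * (Pool.Agent.Collatz3.cw v : ℝ) ≤ 3 ^ N * ((5 / 4) ^ N * 2 ^ v.sum) :=
              mul_le_mul_of_nonneg_left hv3 (by positivity)
          _ = (3 ^ N * (5 / 4) ^ N) * 2 ^ v.sum := by ring
          _ ≤ _ := mul_le_mul_of_nonneg_right h5 (by positivity)
      have h7 : (2 : ℝ) ^ v.sum * (Pool.Agent.Collatz3.cw u : ℝ) ≤
          2 ^ v.sum * ((K + 1 - 1 / N) * 2 ^ u.sum) := mul_le_mul_of_nonneg_left h1 (by positivity)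
      rw [pow_add]
      calc _ ≤ 2 ^ v.sum * ((K + 1 - 1 / N) * 2 ^ u.sum) +
            ((1 / (N : ℝ) - 1 / ((N : ℝ) + ((N / 20 : ℕ) : ℝ))) * 2 ^ u.sum) * 2 ^ v.sum :=
            add_le_add h7 h6
        _ = _ := by ring
  · intro a
    obtain ⟨I, hI⟩ : ∃ I, I = II N := ⟨_, rfl⟩
    obtain ⟨I', hI'⟩ : ∃ I', I' = II (N + N / 20) := ⟨_, rfl⟩
    obtain ⟨d, hd⟩ : ∃ d, d = N / 20 := ⟨_, rfl⟩
    obtain ⟨l', hl'⟩ : ∃ l', l' = (N + N / 20) / 20 := ⟨_, rfl⟩
    have hII : I ≤ I' := by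
      rw [hI, hI']
      exact II_mono (Nat.le_add_right _ _)
    have hmix := hE.mix (d + l') (by omega) (by omega)
    have hbad := hE.bad I d (by omega) (by omega)
    have hgap := gap hbig hKN
    have hG1 : Good N (K + 1) G := hG.mono (by
      have : (0 : ℝ) ≤ 1 / N := by positivity
      linarith)
    rw [← hd] at hgap
    rw [← hI, ← hI', ← hl', ← hd]
    rw [← hI, ← hd] at hmix
    rw [E_cat hG.len]
    -- monotonicity in the bound on the letters
    have h1 : E G (E (goodV I N d) (U I l')) a ≤ E G (E (goodV I N d) (U I' l')) a :=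
      E_mono _ (fun x => E_mono _ (fun y => U_mono hII l' y) x) a
    -- splitting
    have h2 : E G (E (goodV I N d) (U I l')) a =
        E G (U I (d + l')) a - E G (E (badV I N d) (U I l')) a := by
      rw [← E_sub]
      unfold E
      apply sum_congr rfl
      intro w _
      congr 1
      have h3 := E_filter_add (words I d) (fun v => 199 * d ≤ 100 * v.sum ∧
        100 * v.sum ≤ 201 * d ∧ (Pool.Agent.Collatz3.cw v : ℝ) ≤ (5 / 4) ^ N * 2 ^ v.sum)
        (U I l') (en w a)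
      rw [← U_add] at h3
      exact eq_sub_of_add_eq h3
    have hperB : Per (d + l') (E (badV I N d) (U I l')) :=
      per_E (fun v hv => words_length (mem_filter.1 hv).1) (per_U I l')
    have hB0 : ∀ x, 0 ≤ E (badV I N d) (U I l') x := E_nonneg _ (U_nonneg I l')
    have h4 : E G (E (badV I N d) (U I l')) a ≤ N * (K + 1 + 1) * A (d + l') (E (badV I N d) (U I l')) :=
      hG1.count (by linarith) (by omega) (by omega) hperB hB0 a
    have h5 : A (d + l') (E (badV I N d) (U I l')) ≤ 1 / (N : ℝ) ^ 8 := by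
      rw [A_E (G := badV I N d) (fun v hv => words_length (mem_filter.1 hv).1) (per_U I l'), A_U]
      have h6 : Z I ^ l' ≤ 1 := pow_le_one₀ (Z_nonneg I) (Z_le_one I)
      have h7 : 0 ≤ Z I ^ l' := pow_nonneg (Z_nonneg I) _
      calc P (badV I N d) * Z I ^ l' ≤ P (badV I N d) * 1 :=
            mul_le_mul_of_nonneg_left h6 (P_nonneg _)
        _ ≤ 1 / (N : ℝ) ^ 8 := by rw [mul_one]; exact hbad
    have hperM : Per (d + l') (fun x => |U I (d + l') x - U I d x|) := by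
      intro x t
      simp only
      rw [per_U I (d + l') x t, (per_U I d).mono (Nat.le_add_right d l') x t]
    have h8 : E G (fun x => |U I (d + l') x - U I d x|) a ≤
        N * (K + 1 + 1) * A (d + l') (fun x => |U I (d + l') x - U I d x|) :=
      hG1.count (by linarith) (by omega) (by omega) hperM (fun _ => abs_nonneg _) a
    have h9 : E G (U I d) a ≤ E G (U I (d + l')) a +
        E G (fun x => |U I (d + l') x - U I d x|) a := by
      rw [← E_add]
      apply E_mono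
      intro x
      have := neg_abs_le (U I (d + l') x - U I d x)
      linarith
    have hc : 0 ≤ (N : ℝ) * (K + 1 + 1) := by positivity
    have h10 := mul_le_mul_of_nonneg_left h5 hc
    have h11 := mul_le_mul_of_nonneg_left hmix hc
    have e1 : (N : ℝ) * (K + 1 + 1) = N * (K + 2) := by ring
    rw [e1] at h10 h11 h8 h4
    linarith

/-- The sets of words of the chain. -/
noncomputable def Gs (N₀ : ℕ) (G₀ : Finset (List ℕ)) : ℕ → Finset (List ℕ)
  | 0 => G₀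
  | J + 1 => cat (Gs N₀ G₀ J) (goodV (II (scale N₀ J)) (scale N₀ J) (scale N₀ J / 20))

theorem scale_ge (N₀ J : ℕ) : N₀ ≤ scale N₀ J := by
  induction J with
  | zero => exact le_rfl
  | succ J ih => exact ih.trans (Nat.le_add_right _ _)

theorem chain_aux {N₀ : ℕ} (hE : ∀ N, N₀ ≤ N → Err N) {K : ℝ} (hK : 0 ≤ K)
    (hKN : K ≤ (N₀ : ℝ) ^ 4) {G₀ : Finset (List ℕ)} (hG : Good N₀ (K + 1 - 1 / N₀) G₀) (J : ℕ) :
    Good (scale N₀ J) (K + 1 - 1 / (scale N₀ J : ℝ)) (Gs N₀ G₀ J) ∧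
    ∀ a, E G₀ (U (II N₀) (N₀ / 20)) a - (1 / (N₀ : ℝ) - 1 / (scale N₀ J : ℝ)) ≤
      E (Gs N₀ G₀ J) (U (II (scale N₀ J)) (scale N₀ J / 20)) a := by
  induction J with
  | zero =>
    refine ⟨hG, fun a => ?_⟩
    show E G₀ (U (II N₀) (N₀ / 20)) a - (1 / (N₀ : ℝ) - 1 / (N₀ : ℝ)) ≤
      E G₀ (U (II N₀) (N₀ / 20)) a
    linarith
  | succ J ih =>
    obtain ⟨ih1, ih2⟩ := ih
    have hge := scale_ge N₀ J
    have hKN' : K ≤ (scale N₀ J : ℝ) ^ 4 := hKN.trans
      (pow_le_pow_left₀ (Nat.cast_nonneg _) (by exact_mod_cast hge) 4)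
    obtain ⟨h1, h2⟩ := step (hE _ hge) hK hKN' ih1
    refine ⟨h1, fun a => ?_⟩
    have h3 := ih2 a
    have h4 := h2 a
    show _ ≤ E (cat (Gs N₀ G₀ J) (goodV (II (scale N₀ J)) (scale N₀ J) (scale N₀ J / 20)))
      (U (II (scale N₀ J + scale N₀ J / 20)) ((scale N₀ J + scale N₀ J / 20) / 20)) a
    refine le_trans ?_ h4
    have e : (scale N₀ (J + 1) : ℝ) = ((scale N₀ J + scale N₀ J / 20 : ℕ) : ℝ) := rfl
    rw [e]
    linarith

end Pool.Agent.Collatz3.PD
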