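import Mathlib
import Pool.Agent.Collatz3.PDChain

set_option autoImplicit false

/-!
Positive density: the base case.
-/

namespace Pool.Agent.Collatz3.PD

open Finset Filter Topology
open Pool.Agent.Collatz3.Mix (words mem_words)

theorem half_pow_II {N : ℕ} (hN : 1 ≤ N) : (1 / 2 : ℝ) ^ (II N) ≤ (2 / N) ^ 12 := by
  have hNr : (0 : ℝ) < N := by exact_mod_cast hN
  have h1 : (N : ℝ) < 2 ^ (Nat.log 2 N + 1) := by
    exact_mod_cast Nat.lt_pow_succ_log_self (by norm_num) N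
  unfold II
  rw [mul_comm, pow_mul]
  apply pow_le_pow_left₀ (by positivity)
  rw [one_div, inv_pow, inv_eq_one_div, div_le_div_iff₀ (by positivity) hNr]
  rw [pow_succ] at h1
  linarith

theorem mul_half_pow_II {N : ℕ} (hN : 1 ≤ N) : (N : ℝ) * (1 / 2 : ℝ) ^ (II N) ≤ 2 ^ 12 / N := by
  have hNr : (1 : ℝ) ≤ N := by exact_mod_cast hN
  have h := mul_le_mul_of_nonneg_left (half_pow_II hN) (by linarith : (0 : ℝ) ≤ N)
  refine h.trans ?_
  rw [div_pow, ← mul_div_assoc, div_le_div_iff₀ (by positivity) (by linarith)]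
  have e : (N : ℝ) * 2 ^ 12 * N = 2 ^ 12 * (N : ℝ) ^ 2 := by ring
  rw [e]
  exact mul_le_mul_of_nonneg_left (pow_le_pow_right₀ hNr (by norm_num)) (by norm_num)

/-- The initial set of words. -/
noncomputable def G0 (N : ℕ) : Finset (List ℕ) :=
  (words (II N) N).filter fun w => 199 * N ≤ 100 * w.sum ∧ 100 * w.sum ≤ 201 * N ∧
    (Pool.Agent.Collatz3.cw w : ℝ) ≤ (N : ℝ) ^ 4 * 2 ^ w.sum

theorem good_G0 {N : ℕ} (hN : 1 ≤ N) : Good N ((N : ℝ) ^ 4 + 1 - 1 / N) (G0 N) := by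
  have hNr : (1 : ℝ) ≤ N := by exact_mod_cast hN
  have h1 : 1 / (N : ℝ) ≤ 1 := by
    rw [div_le_one (by linarith)]
    exact hNr
  refine ⟨?_, ?_, ?_, ?_, ?_⟩
  · intro w hw
    rw [G0, mem_filter] at hw
    exact words_length hw.1
  · intro w hw i hi
    rw [G0, mem_filter, mem_words] at hw
    exact (hw.1.2 i hi).1
  · intro w hw
    rw [G0, mem_filter] at hw
    exact hw.2.1
  · intro w hw
    rw [G0, mem_filter] at hw
    exact hw.2.2.1
  · intro w hw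
    rw [G0, mem_filter] at hw
    refine hw.2.2.2.trans (mul_le_mul_of_nonneg_right (by linarith) (by positivity))

theorem P_G0 {ρ₁ ρ₂ : ℝ}
    (h₁ : ∀ I d : ℕ, P ((words I d).filter fun w => 201 * d < 100 * w.sum) ≤ ρ₁ ^ d)
    (h₂ : ∀ I d : ℕ, P ((words I d).filter fun w => 100 * w.sum < 199 * d) ≤ ρ₂ ^ d)
    {N : ℕ} (hN : 1 ≤ N) :
    1 - (ρ₁ ^ N + ρ₂ ^ N + 1 / N + 2 ^ 12 / N) ≤ P (G0 N) := by
  have hNr : (0 : ℝ) < N := by exact_mod_cast hN
  have h3 := xr_tail (II N) N (t := (N : ℝ) ^ 2) (by positivity)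
  have e3 : (N : ℝ) / (N : ℝ) ^ 2 = 1 / N := by
    field_simp
  have e4 : ((N : ℝ) ^ 2) ^ 2 = (N : ℝ) ^ 4 := by ring
  rw [e3, e4] at h3
  have h4 : 1 - 2 ^ 12 / (N : ℝ) ≤ P (words (II N) N) := by
    rw [P_words]
    have := one_sub_Z_pow (II N) N
    have := mul_half_pow_II hN
    linarith
  have h5 : P (words (II N) N) ≤ P (G0 N) +
      (P ((words (II N) N).filter fun w => 201 * N < 100 * w.sum) +
       P ((words (II N) N).filter fun w => 100 * w.sum < 199 * N) +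
       P ((words (II N) N).filter fun w => (N : ℝ) ^ 4 * 2 ^ w.sum <
        (Pool.Agent.Collatz3.cw w : ℝ))) := by
    unfold P G0
    simp only [sum_filter]
    rw [← sum_add_distrib, ← sum_add_distrib, ← sum_add_distrib]
    apply sum_le_sum
    intro w _
    have hp : (0 : ℝ) ≤ (1 / 2) ^ w.sum := by positivity
    by_cases c1 : 199 * N ≤ 100 * w.sum
    · by_cases c2 : 100 * w.sum ≤ 201 * N
      · by_cases c3 : (Pool.Agent.Collatz3.cw w : ℝ) ≤ (N : ℝ) ^ 4 * 2 ^ w.sum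
        · rw [if_pos ⟨c1, c2, c3⟩]
          split_ifs <;> linarith
        · have c3' := not_le.mp c3
          rw [if_pos c3']
          split_ifs <;> linarith
      · have c2' := not_le.mp c2
        rw [if_pos c2']
        split_ifs <;> linarith
    · have c1' := not_le.mp c1
      rw [if_pos c1']
      split_ifs <;> linarith
  have h6 := h₁ (II N) N
  have h7 := h₂ (II N) N
  linarith

theorem exists_ge_of_A {k : ℕ} {f : ℤ → ℝ} {t : ℝ} (h : t ≤ A k f) : ∃ x : ℤ, t ≤ f x := by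
  by_contra hcon
  push Not at hcon
  have h1 : S k f < ∑ _x ∈ range (3 ^ k), t := by
    unfold S
    exact sum_lt_sum_of_nonempty ⟨0, mem_range.mpr (by positivity)⟩ fun x _ => hcon x
  rw [sum_const, card_range, nsmul_eq_mul] at h1
  push_cast at h1
  unfold A at h
  rw [le_div_iff₀ (by positivity)] at h
  linarith

theorem base : ∀ᶠ N : ℕ in atTop, ∃ G₀ : Finset (List ℕ),
    Good N ((N : ℝ) ^ 4 + 1 - 1 / N) G₀ ∧ ∃ c : ℤ, ∀ b : ℤ, (3 : ℤ) ^ (N + N / 20) ∣ b - c →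
      3 / 4 ≤ E G₀ (U (II N) (N / 20)) b := by
  obtain ⟨ρ₁, a1, b1, h₁⟩ := upper_tail
  obtain ⟨ρ₂, a2, b2, h₂⟩ := lower_tail
  have hlim : Tendsto (fun N : ℕ => ρ₁ ^ N + ρ₂ ^ N + 1 / (N : ℝ) + 2 ^ 12 / (N : ℝ)) atTop
      (𝓝 (0 + 0 + 0 + 0)) :=
    (((tendsto_pow_atTop_nhds_zero_of_lt_one a1.le b1).add
      (tendsto_pow_atTop_nhds_zero_of_lt_one a2.le b2)).add
      (tendsto_const_div_atTop_nhds_zero_nat 1)).add (tendsto_const_div_atTop_nhds_zero_nat _)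
  have hlim' : (0 : ℝ) + 0 + 0 + 0 < 1 / 8 := by norm_num
  have hlim2 : Tendsto (fun N : ℕ => 2 ^ 12 / (N : ℝ)) atTop (𝓝 0) :=
    tendsto_const_div_atTop_nhds_zero_nat _
  filter_upwards [hlim.eventually_lt_const hlim', hlim2.eventually_lt_const
    (show (0 : ℝ) < 1 / 8 by norm_num), eventually_ge_atTop 1] with N h3 h4 hN
  refine ⟨G0 N, good_G0 hN, ?_⟩
  have hP := P_G0 h₁ h₂ hN
  have hP' : 7 / 8 ≤ P (G0 N) := by linarith
  have hZ : 7 / 8 ≤ Z (II N) ^ (N / 20) := by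
    have e1 := one_sub_Z_pow (II N) (N / 20)
    have e2 : (((N / 20 : ℕ) : ℝ)) ≤ N := by exact_mod_cast Nat.div_le_self N 20
    have e3 : ((N / 20 : ℕ) : ℝ) * (1 / 2 : ℝ) ^ II N ≤ N * (1 / 2 : ℝ) ^ II N :=
      mul_le_mul_of_nonneg_right e2 (by positivity)
    have e4 := mul_half_pow_II hN
    linarith
  have hlen : ∀ w ∈ G0 N, w.length = N := (good_G0 hN).len
  have hA : 3 / 4 ≤ A (N + N / 20) (E (G0 N) (U (II N) (N / 20))) := by
    rw [A_E hlen (per_U _ _), A_U]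
    calc (3 / 4 : ℝ) ≤ 7 / 8 * (7 / 8) := by norm_num
      _ ≤ P (G0 N) * Z (II N) ^ (N / 20) := mul_le_mul hP' hZ (by norm_num) (P_nonneg _)
  obtain ⟨c, hc⟩ := exists_ge_of_A hA
  refine ⟨c, fun b hb => ?_⟩
  rw [(per_E hlen (per_U (II N) (N / 20))).of_dvd hb]
  exact hc

end Pool.Agent.Collatz3.PD
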