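import Mathlib
import Pool.Agent.Collatz3.PDIface

set_option autoImplicit false

/-!
Positive density: the crossing lemma and the coarse identity.
-/

namespace Pool.Agent.Collatz3.PD

open Finset
open Pool.Agent.Collatz3.Mix (words mem_words sum_words_zero sum_words_succ sum_words_add
  cw_append' cw_inj)

theorem P_filter_succ (I R : ℕ) (p : List ℕ → Prop) [DecidablePred p] :
    P ((words I (R + 1)).filter p) =
      ∑ i ∈ Icc 1 I, (1 / 2 : ℝ) ^ i * P ((words I R).filter fun v => p (i :: v)) := by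
  unfold P
  rw [sum_filter, sum_words_succ]
  apply sum_congr rfl
  intro i _
  rw [sum_filter, mul_sum]
  apply sum_congr rfl
  intro v _
  rw [List.sum_cons, pow_add]
  split_ifs <;> simp

theorem P_filter_zero (I : ℕ) (p : List ℕ → Prop) [DecidablePred p] :
    P ((words I 0).filter p) = if p [] then 1 else 0 := by
  unfold P
  rw [sum_filter, sum_words_zero]
  simp

theorem P_filter_le_one (I R : ℕ) (p : List ℕ → Prop) [DecidablePred p] :
    P ((words I R).filter p) ≤ 1 := by
  refine (P_mono (filter_subset _ _)).trans ?_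
  rw [P_words]
  exact pow_le_one₀ (Z_nonneg I) (Z_le_one I)

theorem tail_geom (t I : ℕ) : ∑ i ∈ Icc t I, (1 / 2 : ℝ) ^ i ≤ 2 * (1 / 2) ^ t := by
  have h : ∀ I : ℕ, t ≤ I + 1 → ∑ i ∈ Icc t I, (1 / 2 : ℝ) ^ i =
      2 * (1 / 2) ^ t - 2 * (1 / 2) ^ (I + 1) := by
    intro I hI
    induction I with
    | zero =>
      rcases Nat.eq_zero_or_pos t with h | h
      · subst h
        simp
        norm_num
      · have : t = 1 := by omega
        subst this
        simp
    | succ I ih =>
      rcases Nat.lt_or_ge (I + 1) t with h | h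
      · have : t = I + 1 + 1 := by omega
        subst this
        simp
      · rw [sum_Icc_succ_top (by omega), ih h, pow_succ (1 / 2 : ℝ) (I + 1)]
        ring
  rcases Nat.lt_or_ge (I + 1) t with h1 | h1
  · rw [Icc_eq_empty (by omega), sum_empty]
    positivity
  · rw [h I h1]
    have : (0 : ℝ) ≤ 2 * (1 / 2) ^ (I + 1) := by positivity
    linarith

theorem hit_succ (I R Y n σ : ℕ) : hit I (R + 1) Y n σ =
    P ((words I 1).filter fun v => σ + v.sum = lam Y (n + 1)) +
      ∑ i ∈ Icc 1 I, (1 / 2 : ℝ) ^ i * hit I R Y (n + 1) (σ + i) := by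
  unfold hit
  have h1 : ∑ j ∈ Icc 1 (R + 1), P ((words I j).filter fun v => σ + v.sum = lam Y (n + j)) =
      P ((words I 1).filter fun v => σ + v.sum = lam Y (n + 1)) +
        ∑ j ∈ Icc 1 R, P ((words I (j + 1)).filter fun v => σ + v.sum = lam Y (n + (j + 1))) := by
    rw [← sum_image (s := Icc 1 R) (g := fun j => j + 1)
      (f := fun j => P ((words I j).filter fun v => σ + v.sum = lam Y (n + j)))
      (by intro a _ b _ h; simpa using h)]
    have e : Icc 1 (R + 1) = insert 1 ((Icc 1 R).image fun j => j + 1) := by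
      ext j
      simp only [mem_Icc, mem_insert, mem_image]
      constructor
      · intro h
        rcases Nat.lt_or_ge 1 j with h2 | h2
        · exact Or.inr ⟨j - 1, by omega, by omega⟩
        · exact Or.inl (by omega)
      · rintro (h | ⟨a, h, rfl⟩) <;> omega
    rw [e, sum_insert]
    simp only [mem_image, mem_Icc, not_exists, not_and]
    intro x hx h
    omega
  rw [h1]
  congr 1
  simp only [mul_sum]
  rw [sum_comm]
  apply sum_congr rfl
  intro j _
  rw [P_filter_succ]
  apply sum_congr rfl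
  intro i _
  congr 2
  apply filter_congr
  intro v _
  rw [List.sum_cons, show n + (j + 1) = n + 1 + j by omega, ← Nat.add_assoc σ]

theorem hit_nonneg (I R Y n σ : ℕ) : 0 ≤ hit I R Y n σ :=
  sum_nonneg fun _ _ => P_nonneg _

theorem cross_succ (I R Y n σ : ℕ) : cross I (R + 1) Y n σ =
    ∑ i ∈ Icc 1 I, (1 / 2 : ℝ) ^ i * cross I R Y (n + 1) (σ + i) := by
  unfold cross
  rw [P_filter_succ]
  apply sum_congr rfl
  intro i _
  congr 2
  apply filter_congr
  intro v _
  rw [List.sum_cons, show n + (R + 1) = n + 1 + R by omega, ← Nat.add_assoc σ]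

theorem P_one (I σ t : ℕ) (ht : 1 ≤ t) :
    P ((words I 1).filter fun v => σ + v.sum = σ + t) = if t ≤ I then (1 / 2 : ℝ) ^ t else 0 := by
  rw [P_filter_succ]
  have h : ∀ i ∈ Icc 1 I, (1 / 2 : ℝ) ^ i * P ((words I 0).filter fun v => σ + (i :: v).sum = σ + t) =
      if i = t then (1 / 2 : ℝ) ^ t else 0 := by
    intro i _
    rw [P_filter_zero]
    simp only [List.sum_cons, List.sum_nil, Nat.add_zero, Nat.add_left_cancel_iff]
    split_ifs with h
    · rw [h, mul_one]
    · rw [mul_zero]
  rw [sum_congr rfl h, sum_ite_eq' (Icc 1 I) t]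
  by_cases h2 : t ≤ I
  · rw [if_pos (mem_Icc.2 ⟨ht, h2⟩), if_pos h2]
  · rw [if_neg (fun h3 => h2 (mem_Icc.1 h3).2), if_neg h2]

theorem lam_lt_succ {Y : ℕ} (hY : 1 ≤ Y) (n : ℕ) : lam Y n + 1 ≤ lam Y (n + 1) := by
  unfold lam
  have h0 : Y * 3 ^ n ≠ 0 := by positivity
  have h1 : 2 ^ Nat.log 2 (Y * 3 ^ n) ≤ Y * 3 ^ n := Nat.pow_log_le_self 2 h0
  apply Nat.le_log_of_pow_le (by norm_num)
  have h2 : 0 < Y * 3 ^ n := Nat.pos_of_ne_zero h0
  calc 2 ^ (Nat.log 2 (Y * 3 ^ n) + 1) = 2 ^ Nat.log 2 (Y * 3 ^ n) * 2 := pow_succ _ _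
    _ ≤ (Y * 3 ^ n) * 2 := Nat.mul_le_mul_right _ h1
    _ ≤ (Y * 3 ^ n) * 3 := Nat.mul_le_mul_left _ (by norm_num)
    _ = Y * 3 ^ (n + 1) := by rw [pow_succ]; ring

/-- The crossing lemma. -/
theorem hit_ge {I R Y n σ : ℕ} (hY : 1 ≤ Y) (hσ : σ < lam Y n) :
    cross I R Y n σ / 2 ≤ hit I R Y n σ := by
  induction R generalizing n σ with
  | zero =>
    have h : cross I 0 Y n σ = 0 := by
      unfold cross
      rw [P_filter_zero, if_neg]
      simp only [Nat.add_zero, List.sum_nil, not_le]
      exact hσ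
    rw [h, zero_div]
    exact hit_nonneg _ _ _ _ _
  | succ R ih =>
    obtain ⟨t, ht⟩ : ∃ t, lam Y (n + 1) = σ + t := ⟨lam Y (n + 1) - σ, by
      have := lam_lt_succ hY n
      omega⟩
    have ht2 : 2 ≤ t := by
      have := lam_lt_succ hY n
      omega
    rw [hit_succ, cross_succ, ht, P_one I σ t (by omega)]
    -- the letters below `t` and the others
    have h1 : ∀ i ∈ Icc 1 I, (1 / 2 : ℝ) ^ i * cross I R Y (n + 1) (σ + i) ≤
        2 * ((1 / 2 : ℝ) ^ i * hit I R Y (n + 1) (σ + i)) +
          (if t ≤ i then (1 / 2 : ℝ) ^ i else 0) := by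
      intro i _
      have hp : (0 : ℝ) ≤ (1 / 2) ^ i := by positivity
      by_cases hi : t ≤ i
      · rw [if_pos hi]
        have h2 : cross I R Y (n + 1) (σ + i) ≤ 1 := P_filter_le_one _ _ _
        have h3 := mul_le_mul_of_nonneg_left h2 hp
        have h4 := mul_nonneg hp (hit_nonneg I R Y (n + 1) (σ + i))
        linarith
      · rw [if_neg hi]
        have h2 := ih (n := n + 1) (σ := σ + i) (by omega)
        have h3 := mul_le_mul_of_nonneg_left h2 hp
        linarith
    have h2 : ∑ i ∈ Icc 1 I, (if t ≤ i then (1 / 2 : ℝ) ^ i else 0) ≤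
        2 * (if t ≤ I then (1 / 2 : ℝ) ^ t else 0) := by
      rw [← sum_filter]
      have e : (Icc 1 I).filter (fun i => t ≤ i) = Icc t I := by
        ext i
        simp only [mem_filter, mem_Icc]
        omega
      rw [e]
      split_ifs with h
      · exact tail_geom t I
      · rw [Icc_eq_empty h]
        simp
    have h3 := sum_le_sum h1
    rw [sum_add_distrib, ← mul_sum] at h3
    linarith

/-- The coarse identity. -/
theorem coarse {I k m s : ℕ} (hm : m ≤ k) (y : ℤ) :
    3 ^ m * Fw I k s m y = ∑ u ∈ (words I m).filter (fun u => rd u y),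
      3 ^ m * (1 / 2 : ℝ) ^ u.sum * P ((words I (k - m)).filter fun v => u.sum + v.sum = s) := by
  obtain ⟨l, rfl⟩ := Nat.exists_eq_add_of_le hm
  rw [Nat.add_sub_cancel_left]
  unfold Fw P
  rw [sum_filter, words_add, sum_cat (N := m) (fun w h => words_length h), sum_filter, mul_sum]
  apply sum_congr rfl
  intro u hu
  have hul := words_length hu
  by_cases hr : rd u y
  · rw [if_pos hr, sum_filter, mul_sum, mul_sum]
    apply sum_congr rfl
    intro v _
    by_cases hs : u.sum + v.sum = s
    · have h1 : (3 : ℤ) ^ m ∣ 2 ^ s * y - cw (u ++ v) := by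
        have h := append_key u v y
        rw [List.sum_append, hs] at h
        rw [h, hul]
        refine dvd_sub (dvd_mul_of_dvd_right ?_ _) (dvd_mul_right _ _)
        rw [← hul]
        exact hr
      rw [if_pos ⟨by rw [List.sum_append, hs], h1⟩, if_pos hs, ← hs, pow_add]
      ring
    · rw [if_neg (fun h => hs (by rw [← List.sum_append]; exact h.1)), if_neg hs]
      ring
  · rw [if_neg hr]
    rw [mul_eq_zero]
    right
    apply sum_eq_zero
    intro v _
    rw [if_neg]
    rintro ⟨h1, h2⟩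
    apply hr
    have h := append_key u v y
    rw [h1] at h
    rw [h] at h2
    have h3 : (3 : ℤ) ^ m ∣ 2 ^ v.sum * (2 ^ u.sum * y - cw u) := by
      rw [hul] at h2
      have h4 := dvd_add h2 (dvd_mul_right ((3 : ℤ) ^ m) (cw v : ℤ))
      rwa [sub_add_cancel] at h4
    have h5 := three_pow_dvd_of_mul h3
    unfold rd
    rw [hul]
    exact h5

end Pool.Agent.Collatz3.PD
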