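import Mathlib
import Pool.Agent.Collatz3.PDChain
import Pool.Agent.Collatz3.PDCross

set_option autoImplicit false

/-!
Positive density: the final count at one scale.
-/

namespace Pool.Agent.Collatz3.PD

open Finset Filter
open Pool.Agent.Collatz3.Mix (words mem_words sum_words_zero sum_words_succ sum_words_add
  cw_append' cw_inj)


theorem A_of_per {k l : ℕ} (h : k ≤ l) {f : ℤ → ℝ} (hf : Per k f) : A l f = A k f := by
  obtain ⟨j, rfl⟩ := Nat.exists_eq_add_of_le h
  have h1 := shift_sum_mul hf 0 (3 ^ j)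
  have h2 : S (k + j) f = 3 ^ j * S k f := by
    unfold S at h1 ⊢
    rw [pow_add, mul_comm (3 ^ k)]
    simp only [zero_add] at h1
    rw [h1]
    push_cast
    rfl
  unfold A
  rw [h2, pow_add]
  field_simp

/-- The words of length `k` with sum `θ`. -/
noncomputable def Vs (I k θ : ℕ) : Finset (List ℕ) := (words I k).filter fun v => v.sum = θ

/-- The same with a bound on the constant. -/
noncomputable def Vg (I N k θ : ℕ) : Finset (List ℕ) :=
  (words I k).filter fun v => v.sum = θ ∧ (cw v : ℝ) ≤ (5 / 4) ^ N * 2 ^ v.sum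

theorem E_Vs (I k θ : ℕ) (y : ℤ) : E (Vs I k θ) (fun _ => 1) y = 3 ^ k * Fw I k θ k y := by
  unfold E Vs Fw
  rw [mul_sum, filter_filter]
  have h : (words I k).filter (fun w => w.sum = θ ∧ rd w y) =
      (words I k).filter (fun w => w.sum = θ ∧ (3 : ℤ) ^ k ∣ 2 ^ θ * y - cw w) := by
    apply filter_congr
    intro w hw
    constructor
    · rintro ⟨h1, h2⟩
      refine ⟨h1, ?_⟩
      unfold rd at h2
      rwa [words_length hw, h1] at h2
    · rintro ⟨h1, h2⟩
      refine ⟨h1, ?_⟩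
      unfold rd
      rwa [words_length hw, h1]
  rw [h]
  apply sum_congr rfl
  intro w hw
  rw [mem_filter] at hw
  rw [words_length hw.1, hw.2.1, mul_one]

theorem E_Vg_ge (I N k θ : ℕ) (y : ℤ) :
    3 ^ k * Fw I k θ k y - E (badV I N k) (fun _ => 1) y ≤ E (Vg I N k θ) (fun _ => 1) y := by
  rw [← E_Vs]
  have h1 := E_filter_add (Vs I k θ) (fun v => (cw v : ℝ) ≤ (5 / 4) ^ N * 2 ^ v.sum)
    (fun _ => 1) y
  have h2 : (Vs I k θ).filter (fun v => (cw v : ℝ) ≤ (5 / 4) ^ N * 2 ^ v.sum) = Vg I N k θ := by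
    rw [Vs, Vg, filter_filter]
  have h3 : (Vs I k θ).filter (fun v => ¬ (cw v : ℝ) ≤ (5 / 4) ^ N * 2 ^ v.sum) ⊆ badV I N k := by
    intro v hv
    rw [Vs, filter_filter, mem_filter] at hv
    rw [badV, mem_filter]
    exact ⟨hv.1, fun h => hv.2.2 h.2.2⟩
  have h4 := E_mono_set h3 (f := fun _ => 1) (fun _ => zero_le_one) y
  rw [h2] at h1
  linarith

theorem per_Fw (I k θ n : ℕ) (c : ℝ) : Per n (fun y => c * Fw I k θ n y) := by
  intro x t
  simp only
  congr 1
  unfold Fw
  apply sum_congr _ fun _ _ => rfl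
  apply filter_congr
  intro w _
  have e : (2 : ℤ) ^ θ * (x + 3 ^ n * t) - cw w = (2 ^ θ * x - cw w) + 3 ^ n * (2 ^ θ * t) := by ring
  rw [e, dvd_add_left (dvd_mul_right _ _)]

/-- The estimates used at scale `N`. -/
structure Err2 (N : ℕ) : Prop extends Err N where
  mixs : ∀ k s : ℕ, N / 20 ≤ k → k ≤ N / 4 →
    A k (fun x => |3 ^ k * Fw (II N) k s k x - 3 ^ (N / 20) * Fw (II N) k s (N / 20) x|) ≤
      1 / (N : ℝ) ^ 8
  low : 1 / 2 ≤ P ((words (II N) (N / 4 - N / 20)).filter fun v =>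
    199 * (N / 4 - N / 20) ≤ 100 * v.sum)

/-- The coarse function is large. -/
theorem coarse_ge {N : ℕ} (hE : Err2 N) {Y s : ℕ} (hY : 1 ≤ Y) (hs1 : 199 * N ≤ 100 * s)
    (hs2 : 100 * s ≤ 201 * N) (h1 : 201 * (N + N / 20) < 100 * lam Y (N + N / 20))
    (h2 : 100 * lam Y (N + N / 4) ≤ 199 * (N + N / 4)) (y : ℤ) :
    1 / 4 * (U (II N) (N / 20) y - E (badV (II N) N (N / 20)) (fun _ => 1) y) ≤
      ∑ k ∈ Ioc (N / 20) (N / 4),
        3 ^ (N / 20) * Fw (II N) k (lam Y (N + k) - s) (N / 20) y := by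
  have hbig := hE.big
  obtain ⟨I, hI⟩ : ∃ I, I = II N := ⟨_, rfl⟩
  obtain ⟨m, hm⟩ : ∃ m, m = N / 20 := ⟨_, rfl⟩
  obtain ⟨q, hq⟩ : ∃ q, q = N / 4 := ⟨_, rfl⟩
  have hlow := hE.low
  rw [← hI, ← hm, ← hq] at hlow
  rw [← hI, ← hm, ← hq]
  rw [← hm] at h1
  rw [← hq] at h2
  have hmq : m ≤ q := by omega
  -- rewrite the coarse function
  have e1 : ∑ k ∈ Ioc m q, 3 ^ m * Fw I k (lam Y (N + k) - s) m y =
      ∑ u ∈ (words I m).filter (fun u => rd u y), 3 ^ m * (1 / 2 : ℝ) ^ u.sum *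
        ∑ k ∈ Ioc m q, P ((words I (k - m)).filter fun v => u.sum + v.sum = lam Y (N + k) - s) := by
    simp only [mul_sum]
    rw [sum_comm]
    apply sum_congr rfl
    intro k hk
    rw [coarse (mem_Ioc.1 hk).1.le, ]
  rw [e1]
  -- split off the bad words
  have e2 : U I m y - E (badV I N m) (fun _ => 1) y =
      ∑ u ∈ ((words I m).filter (fun u => rd u y)).filter (fun v => 199 * m ≤ 100 * v.sum ∧
        100 * v.sum ≤ 201 * m ∧ (cw v : ℝ) ≤ (5 / 4) ^ N * 2 ^ v.sum),
        3 ^ m * (1 / 2 : ℝ) ^ u.sum := by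
    have h3 := E_filter_add (words I m) (fun v => 199 * m ≤ 100 * v.sum ∧
      100 * v.sum ≤ 201 * m ∧ (cw v : ℝ) ≤ (5 / 4) ^ N * 2 ^ v.sum) (fun _ => 1) y
    rw [← U_eq] at h3
    have h4 : E ((words I m).filter (fun v => 199 * m ≤ 100 * v.sum ∧
      100 * v.sum ≤ 201 * m ∧ (cw v : ℝ) ≤ (5 / 4) ^ N * 2 ^ v.sum)) (fun _ => 1) y =
      ∑ u ∈ ((words I m).filter (fun u => rd u y)).filter (fun v => 199 * m ≤ 100 * v.sum ∧
        100 * v.sum ≤ 201 * m ∧ (cw v : ℝ) ≤ (5 / 4) ^ N * 2 ^ v.sum),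
        3 ^ m * (1 / 2 : ℝ) ^ u.sum := by
      unfold E
      refine sum_congr ?_ ?_
      · ext u
        simp only [mem_filter]
        tauto
      · intro u hu
        simp only [mem_filter] at hu
        rw [words_length hu.1.1, mul_one]
    rw [← h4, badV]
    linarith
  rw [e2, mul_sum]
  refine le_trans ?_ (sum_le_sum_of_subset_of_nonneg (filter_subset (fun v : List ℕ =>
    199 * m ≤ 100 * v.sum ∧ 100 * v.sum ≤ 201 * m ∧ (cw v : ℝ) ≤ (5 / 4) ^ N * 2 ^ v.sum) _)
    fun u _ _ => mul_nonneg (by positivity) (sum_nonneg fun _ _ => P_nonneg _))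
  apply sum_le_sum
  intro u hu
  rw [mem_filter, mem_filter] at hu
  obtain ⟨-, hu1, hu2, -⟩ := hu
  have key : 1 / 4 ≤ ∑ k ∈ Ioc m q,
      P ((words I (k - m)).filter fun v => u.sum + v.sum = lam Y (N + k) - s) := by
    have h3 : hit I (q - m) Y (N + m) (s + u.sum) ≤ ∑ k ∈ Ioc m q,
        P ((words I (k - m)).filter fun v => u.sum + v.sum = lam Y (N + k) - s) := by
      unfold hit
      have e3 : ∑ k ∈ Ioc m q,
          P ((words I (k - m)).filter fun v => u.sum + v.sum = lam Y (N + k) - s) =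
          ∑ j ∈ Icc 1 (q - m), P ((words I j).filter fun v =>
            u.sum + v.sum = lam Y (N + (m + j)) - s) := by
        refine sum_nbij' (fun k => k - m) (fun j => m + j) ?_ ?_ ?_ ?_ ?_
        · intro k hk
          rw [mem_Ioc] at hk
          rw [mem_Icc]
          omega
        · intro j hj
          rw [mem_Icc] at hj
          rw [mem_Ioc]
          omega
        · intro k hk
          rw [mem_Ioc] at hk
          omega
        · intro j hj
          omega
        · intro k hk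
          rw [mem_Ioc] at hk
          have : m + (k - m) = k := by omega
          rw [this]
      rw [e3]
      apply sum_le_sum
      intro j _
      apply P_mono
      intro v hv
      rw [mem_filter] at hv ⊢
      refine ⟨hv.1, ?_⟩
      have e4 := hv.2
      rw [Nat.add_assoc N m j] at e4
      omega
    have h4 := hit_ge (I := I) (R := q - m) (n := N + m) (σ := s + u.sum) hY (by omega)
    have h5 : 1 / 2 ≤ cross I (q - m) Y (N + m) (s + u.sum) := by
      refine hlow.trans ?_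
      unfold cross
      apply P_mono
      intro v hv
      rw [mem_filter] at hv ⊢
      refine ⟨hv.1, ?_⟩
      have e5 : N + m + (q - m) = N + q := by omega
      rw [e5]
      have := hv.2
      omega
    linarith
  calc 1 / 4 * (3 ^ m * (1 / 2 : ℝ) ^ u.sum) = 3 ^ m * (1 / 2 : ℝ) ^ u.sum * (1 / 4) := by ring
    _ ≤ _ := mul_le_mul_of_nonneg_left key (by positivity)

end Pool.Agent.Collatz3.PD
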