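import Mathlib
import Pool.Agent.Collatz3.PDNat

set_option autoImplicit false

/-!
Positive density: the final count at one scale.
-/

namespace Pool.Agent.Collatz3.PD

open Finset Filter
open Pool.Agent.Collatz3.Mix (words mem_words sum_words_zero sum_words_succ sum_words_add
  cw_append' cw_inj)

theorem lam_mono (Y : ℕ) {n n' : ℕ} (h : n ≤ n') : lam Y n ≤ lam Y n' :=
  Nat.log_mono_right (Nat.mul_le_mul_left _ (Nat.pow_le_pow_right (by norm_num) h))

theorem two_pow_lam {Y : ℕ} (hY : 1 ≤ Y) (n : ℕ) : 2 ^ lam Y n ≤ Y * 3 ^ n :=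
  Nat.pow_log_le_self 2 (Nat.mul_pos hY (by positivity)).ne'

theorem wt_le {Y : ℕ} (hY : 1 ≤ Y) (n : ℕ) : (3 : ℝ) ^ n * (1 / 2) ^ lam Y n ≤ 2 / Y := by
  have h1 : Y * 3 ^ n < 2 ^ (lam Y n + 1) := Nat.lt_pow_succ_log_self (by norm_num) _
  have h2 : (Y : ℝ) * 3 ^ n ≤ 2 ^ (lam Y n + 1) := by exact_mod_cast h1.le
  have hY' : (0 : ℝ) < Y := by exact_mod_cast hY
  rw [le_div_iff₀ hY', one_div, inv_pow]
  have h3 : (0 : ℝ) < 2 ^ lam Y n := by positivity
  rw [pow_succ] at h2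
  calc 3 ^ n * ((2 : ℝ) ^ lam Y n)⁻¹ * Y = (Y * 3 ^ n) * ((2 : ℝ) ^ lam Y n)⁻¹ := by ring
    _ ≤ (2 ^ lam Y n * 2) * ((2 : ℝ) ^ lam Y n)⁻¹ :=
        mul_le_mul_of_nonneg_right h2 (by positivity)
    _ = 2 := by field_simp

/-- The pairs of words at one level. -/
noncomputable def pairs (I N k Y : ℕ) (G : Finset (List ℕ)) (b : ℤ) :
    Finset (Σ _ : List ℕ, List ℕ) :=
  (G.filter (fun w => rd w b)).sigma fun w =>
    (Vg I N k (lam Y (N + k) - w.sum)).filter fun v => rd v (en w b)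

theorem level {I N k Y : ℕ} {K : ℝ} {G : Finset (List ℕ)} (hG : Good N K G) (hY : 1 ≤ Y)
    (hs : 201 * N ≤ 100 * lam Y (N + k)) (b : ℤ) :
    ∑ w ∈ G.filter (fun w => rd w b), 3 ^ w.length * (1 / 2 : ℝ) ^ w.sum *
      E (Vg I N k (lam Y (N + k) - w.sum)) (fun _ => 1) (en w b) ≤
      (pairs I N k Y G b).card * (2 / Y) := by
  rw [pairs, card_sigma]
  push_cast
  rw [sum_mul]
  apply sum_le_sum
  intro w hw
  rw [mem_filter] at hw
  unfold E
  rw [mul_sum, ← nsmul_eq_mul]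
  apply sum_le_card_nsmul
  intro v hv
  rw [mem_filter, Vg, mem_filter] at hv
  have h1 := hG.hi w hw.1
  have h2 : w.sum + v.sum = lam Y (N + k) := by
    have := hv.1.2.1
    omega
  rw [hG.len w hw.1, words_length hv.1.1]
  calc 3 ^ N * (1 / 2 : ℝ) ^ w.sum * (3 ^ k * (1 / 2 : ℝ) ^ v.sum * 1) =
      3 ^ (N + k) * (1 / 2 : ℝ) ^ (w.sum + v.sum) := by
        rw [pow_add, pow_add]
        ring
    _ ≤ 2 / Y := by
        rw [h2]
        exact wt_le hY _

theorem count_words {N Y : ℕ} {K : ℝ} (hE : Err2 N) (hK : 0 ≤ K) (hKN : K ≤ (N : ℝ) ^ 4)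
    {G : Finset (List ℕ)} (hG : Good N (K + 1) G) (hY : 1 ≤ Y)
    (h1 : 201 * (N + N / 20) < 100 * lam Y (N + N / 20))
    (h2 : 100 * lam Y (N + N / 4) ≤ 199 * (N + N / 4)) {b : ℤ}
    (hb : 1 / 2 ≤ E G (U (II N) (N / 20)) b) :
    ∃ H : Finset (List ℕ), (Y : ℝ) / 32 ≤ H.card ∧ ∀ u ∈ H, rd u b ∧ (∀ i ∈ u, 1 ≤ i) ∧
      (cw u : ℝ) ≤ (K + 2) * 2 ^ u.sum ∧ 2 ^ u.sum ≤ Y * 3 ^ u.length := by
  have hbig := hE.big
  have hNpos : (0 : ℝ) < N := by exact_mod_cast (by omega : 0 < N)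
  have hYpos : (0 : ℝ) < Y := by exact_mod_cast hY
  obtain ⟨I, hI⟩ : ∃ I, I = II N := ⟨_, rfl⟩
  obtain ⟨m, hm⟩ : ∃ m, m = N / 20 := ⟨_, rfl⟩
  obtain ⟨q, hq⟩ : ∃ q, q = N / 4 := ⟨_, rfl⟩
  have hmq : m ≤ q := by omega
  have hlamk : ∀ k, m < k → 201 * N ≤ 100 * lam Y (N + k) := by
    intro k hk
    have h3 := lam_mono Y (show N + N / 20 ≤ N + k by omega)
    omega
  -- the error terms
  have hc : 0 ≤ (N : ℝ) * (K + 1 + 1) := by positivity
  obtain ⟨ε, hε⟩ : ∃ ε : ℝ, ε = N * (K + 1 + 1) * (1 / (N : ℝ) ^ 8) := ⟨_, rfl⟩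
  have hbadk : ∀ k, m ≤ k → k ≤ q → E G (E (badV I N k) (fun _ => 1)) b ≤ ε := by
    intro k hk1 hk2
    have hper : Per k (E (badV I N k) (fun _ => 1)) :=
      per_E (l := 0) (fun v hv => words_length (mem_filter.1 hv).1) per_one
    have h3 := hG.count (by linarith) (by omega) (by omega : 4 * k ≤ N) hper
      (E_nonneg _ fun _ => zero_le_one) b
    have h4 : A k (E (badV I N k) (fun _ => 1)) ≤ 1 / (N : ℝ) ^ 8 := by
      have h5 := A_E (l := 0) (G := badV I N k) (fun v hv => words_length (mem_filter.1 hv).1)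
        per_one
      rw [Nat.add_zero, A_one, mul_one] at h5
      rw [h5]
      exact hE.bad I k (by omega) (by omega)
    rw [hε]
    exact h3.trans (mul_le_mul_of_nonneg_left h4 hc)
  have hmixk : ∀ k, m ≤ k → k ≤ q →
      ∑ w ∈ G.filter (fun w => rd w b), 3 ^ w.length * (1 / 2 : ℝ) ^ w.sum *
        |3 ^ k * Fw I k (lam Y (N + k) - w.sum) k (en w b) -
          3 ^ m * Fw I k (lam Y (N + k) - w.sum) m (en w b)| ≤ ε := by
    intro k hk1 hk2
    rw [hε]
    refine hG.count' (by linarith) (by omega) (by omega : 4 * k ≤ N)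
      (g := fun s y => |3 ^ k * Fw I k (lam Y (N + k) - s) k y -
          3 ^ m * Fw I k (lam Y (N + k) - s) m y|) ?_ (fun _ _ => abs_nonneg _) ?_
      (by positivity) b
    · intro s x t
      have h3 := per_Fw I k (lam Y (N + k) - s) k (3 ^ k) x t
      have h4 := (per_Fw I k (lam Y (N + k) - s) m (3 ^ m)).mono hk1 x t
      simp only at h3 h4 ⊢
      rw [h3, h4]
    · intro s _ _
      have h3 := hE.mixs k (lam Y (N + k) - s) (by omega) (by omega)
      rw [← hI, ← hm] at h3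
      exact h3
  -- the lower bound for the sum of the weights
  have hpt : ∀ w ∈ G.filter (fun w => rd w b),
      1 / 4 * (U I m (en w b) - E (badV I N m) (fun _ => 1) (en w b)) -
        ∑ k ∈ Ioc m q, (|3 ^ k * Fw I k (lam Y (N + k) - w.sum) k (en w b) -
          3 ^ m * Fw I k (lam Y (N + k) - w.sum) m (en w b)| +
          E (badV I N k) (fun _ => 1) (en w b)) ≤
      ∑ k ∈ Ioc m q, E (Vg I N k (lam Y (N + k) - w.sum)) (fun _ => 1) (en w b) := by
    intro w hw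
    rw [mem_filter] at hw
    have h3 := coarse_ge hE hY (hG.lo w hw.1) (hG.hi w hw.1) h1 h2 (en w b)
    rw [← hI, ← hm, ← hq] at h3
    rw [sub_le_iff_le_add, ← sum_add_distrib]
    refine h3.trans (sum_le_sum fun k hk => ?_)
    have h4 := E_Vg_ge I N k (lam Y (N + k) - w.sum) (en w b)
    have h5 := neg_abs_le (3 ^ k * Fw I k (lam Y (N + k) - w.sum) k (en w b) -
          3 ^ m * Fw I k (lam Y (N + k) - w.sum) m (en w b))
    linarith
  have htot : 1 / 16 ≤ ∑ k ∈ Ioc m q, ∑ w ∈ G.filter (fun w => rd w b),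
      3 ^ w.length * (1 / 2 : ℝ) ^ w.sum *
        E (Vg I N k (lam Y (N + k) - w.sum)) (fun _ => 1) (en w b) := by
    have h3 : ∑ w ∈ G.filter (fun w => rd w b), 3 ^ w.length * (1 / 2 : ℝ) ^ w.sum *
        (1 / 4 * (U I m (en w b) - E (badV I N m) (fun _ => 1) (en w b)) -
        ∑ k ∈ Ioc m q, (|3 ^ k * Fw I k (lam Y (N + k) - w.sum) k (en w b) -
          3 ^ m * Fw I k (lam Y (N + k) - w.sum) m (en w b)| +
          E (badV I N k) (fun _ => 1) (en w b))) ≤
        ∑ k ∈ Ioc m q, ∑ w ∈ G.filter (fun w => rd w b),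
      3 ^ w.length * (1 / 2 : ℝ) ^ w.sum *
        E (Vg I N k (lam Y (N + k) - w.sum)) (fun _ => 1) (en w b) := by
      rw [sum_comm]
      apply sum_le_sum
      intro w hw
      rw [← mul_sum]
      exact mul_le_mul_of_nonneg_left (hpt w hw) (by positivity)
    refine le_trans ?_ h3
    have h4 : ∑ w ∈ G.filter (fun w => rd w b), 3 ^ w.length * (1 / 2 : ℝ) ^ w.sum *
        (1 / 4 * (U I m (en w b) - E (badV I N m) (fun _ => 1) (en w b)) -
        ∑ k ∈ Ioc m q, (|3 ^ k * Fw I k (lam Y (N + k) - w.sum) k (en w b) -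
          3 ^ m * Fw I k (lam Y (N + k) - w.sum) m (en w b)| +
          E (badV I N k) (fun _ => 1) (en w b))) =
        1 / 4 * (E G (U I m) b - E G (E (badV I N m) (fun _ => 1)) b) -
        ∑ k ∈ Ioc m q, (∑ w ∈ G.filter (fun w => rd w b), 3 ^ w.length * (1 / 2 : ℝ) ^ w.sum *
          |3 ^ k * Fw I k (lam Y (N + k) - w.sum) k (en w b) -
          3 ^ m * Fw I k (lam Y (N + k) - w.sum) m (en w b)| +
          E G (E (badV I N k) (fun _ => 1)) b) := by
      unfold E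
      simp only [mul_sub, mul_add, sum_sub_distrib, sum_add_distrib, mul_sum]
      congr 1
      · congr 1 <;>
        · apply sum_congr rfl
          intro w _
          ring_nf
      · rw [sum_comm]
        congr 1
        rw [sum_comm]
    rw [h4]
    have h5 := hbadk m le_rfl hmq
    have h6 : ∑ k ∈ Ioc m q, (∑ w ∈ G.filter (fun w => rd w b),
          3 ^ w.length * (1 / 2 : ℝ) ^ w.sum *
          |3 ^ k * Fw I k (lam Y (N + k) - w.sum) k (en w b) -
          3 ^ m * Fw I k (lam Y (N + k) - w.sum) m (en w b)| +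
          E G (E (badV I N k) (fun _ => 1)) b) ≤ ((Ioc m q).card : ℝ) * (ε + ε) := by
      rw [← nsmul_eq_mul]
      apply sum_le_card_nsmul
      intro k hk
      rw [mem_Ioc] at hk
      exact add_le_add (hmixk k hk.1.le hk.2) (hbadk k hk.1.le hk.2)
    rw [Nat.card_Ioc] at h6
    have h7 : ((q - m : ℕ) : ℝ) ≤ N / 4 := by
      have : 4 * (q - m) ≤ N := by omega
      have h8 : (4 : ℝ) * ((q - m : ℕ) : ℝ) ≤ N := by exact_mod_cast this
      linarith
    have hε0 : 0 ≤ ε := by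
      rw [hε]
      positivity
    have hεb : N * ε ≤ 1 / 1000 := by
      have h8 : K + 2 ≤ 2 * (N : ℝ) ^ 4 := by
        have hN' : (1000 : ℝ) ≤ N := by exact_mod_cast hbig
        have : (2 : ℝ) ≤ N ^ 4 := by
          calc (2 : ℝ) ≤ N := by linarith
            _ ≤ N ^ 4 := le_self_pow₀ (by linarith) (by norm_num)
        linarith
      have h9 : (1000 : ℝ) ≤ N := by exact_mod_cast hbig
      calc N * ε = (K + 2) * (1 / (N : ℝ) ^ 6) := by
            rw [hε]
            field_simp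
            ring
        _ ≤ (2 * (N : ℝ) ^ 4) * (1 / (N : ℝ) ^ 6) :=
            mul_le_mul_of_nonneg_right h8 (by positivity)
        _ = 2 / (N : ℝ) ^ 2 := by field_simp
        _ ≤ 1 / 1000 := by
            rw [div_le_div_iff₀ (by positivity) (by norm_num)]
            nlinarith
    have hε1 : ε ≤ 1 / 1000 := by
      refine le_trans ?_ hεb
      have h9 : (1 : ℝ) ≤ N := by exact_mod_cast (by omega : 1 ≤ N)
      nlinarith
    rw [← hI, ← hm] at hb
    have h10 : ((q - m : ℕ) : ℝ) * (ε + ε) ≤ 1 / 2000 := by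
      calc ((q - m : ℕ) : ℝ) * (ε + ε) ≤ (N / 4) * (ε + ε) :=
            mul_le_mul_of_nonneg_right h7 (by linarith)
        _ = (N * ε) / 2 := by ring
        _ ≤ 1 / 2000 := by linarith
    linarith
  -- the number of pairs
  have hcount : 1 / 16 ≤ (∑ k ∈ Ioc m q, ((pairs I N k Y G b).card : ℝ)) * (2 / Y) := by
    refine htot.trans ?_
    rw [sum_mul]
    apply sum_le_sum
    intro k hk
    exact level hG hY (hlamk k (mem_Ioc.1 hk).1) b
  obtain ⟨D, hD⟩ : ∃ D : Finset (Σ _ : ℕ, Σ _ : List ℕ, List ℕ),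
    D = (Ioc m q).sigma fun k => pairs I N k Y G b := ⟨_, rfl⟩
  have hDcard : (D.card : ℝ) = ∑ k ∈ Ioc m q, ((pairs I N k Y G b).card : ℝ) := by
    rw [hD, card_sigma]
    push_cast
    rfl
  have hDmem : ∀ p ∈ D, (m < p.1 ∧ p.1 ≤ q) ∧ (p.2.1 ∈ G ∧ rd p.2.1 b) ∧
      (p.2.2 ∈ words I p.1 ∧ p.2.2.sum = lam Y (N + p.1) - p.2.1.sum ∧
        (cw p.2.2 : ℝ) ≤ (5 / 4) ^ N * 2 ^ p.2.2.sum) ∧ rd p.2.2 (en p.2.1 b) := by
    intro p hp
    rw [hD, mem_sigma, pairs, mem_sigma, mem_filter, mem_filter, Vg, mem_filter, mem_Ioc] at hp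
    exact ⟨hp.1, hp.2.1, hp.2.2.1, hp.2.2.2⟩
  refine ⟨D.image fun p => p.2.1 ++ p.2.2, ?_, ?_⟩
  · rw [card_image_of_injOn]
    · rw [hDcard]
      rw [mul_div_assoc', le_div_iff₀ hYpos] at hcount
      linarith
    · rintro ⟨k, u, v⟩ hp ⟨k', u', v'⟩ hp' h
      rw [mem_coe] at hp hp'
      have e1 := hDmem _ hp
      have e2 := hDmem _ hp'
      simp only at e1 e2 h
      obtain ⟨h3, h4⟩ := List.append_inj h (by rw [hG.len _ e1.2.1.1, hG.len _ e2.2.1.1])
      have h5 : k = k' := by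
        rw [← words_length e1.2.2.1.1, ← words_length e2.2.2.1.1, h4]
      subst h3 h4 h5
      rfl
  · intro u hu
    rw [mem_image] at hu
    obtain ⟨⟨k, w, v⟩, hp, rfl⟩ := hu
    have e1 := hDmem _ hp
    simp only at e1 ⊢
    obtain ⟨⟨hk1, hk2⟩, ⟨hw1, hw2⟩, ⟨hv1, hv2, hv3⟩, hv4⟩ := e1
    have hlk := hlamk k hk1
    have hhi := hG.hi w hw1
    have hlo := hG.lo w hw1
    have hsum : w.sum + v.sum = lam Y (N + k) := by omega
    refine ⟨rd_append.2 ⟨hw2, hv4⟩, ?_, ?_, ?_⟩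
    · intro i hi
      rcases List.mem_append.1 hi with h3 | h3
      · exact hG.pos _ hw1 i h3
      · exact ((mem_words.1 hv1).2 i h3).1
    · have h3 := hG.cw _ hw1
      have h4 := hE.num
      rw [cw_append', List.sum_append, hG.len _ hw1]
      push_cast
      have h5 : (2 : ℝ) ^ ((199 * N + 99) / 100) ≤ 2 ^ w.sum :=
        pow_le_pow_right₀ (by norm_num) (by omega)
      have h6 : (3 : ℝ) ^ N * (5 / 4) ^ N ≤ 1 * 2 ^ w.sum := by
        refine h4.trans ?_
        apply mul_le_mul _ h5 (by positivity) (by norm_num)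
        have h7 : 1 / (N : ℝ) ≤ 1 := by
          rw [div_le_one hNpos]
          exact_mod_cast (by omega : 1 ≤ N)
        have h8 : (0 : ℝ) ≤ 1 / ((N + N / 20 : ℕ) : ℝ) := by positivity
        linarith
      have h7 : (3 : ℝ) ^ N * (cw v : ℝ) ≤ (1 * 2 ^ w.sum) * 2 ^ v.sum := by
        calc (3 : ℝ) ^ N * (cw v : ℝ) ≤ 3 ^ N * ((5 / 4) ^ N * 2 ^ v.sum) :=
              mul_le_mul_of_nonneg_left hv3 (by positivity)
          _ = (3 ^ N * (5 / 4) ^ N) * 2 ^ v.sum := by ring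
          _ ≤ _ := mul_le_mul_of_nonneg_right h6 (by positivity)
      have h8 : (2 : ℝ) ^ v.sum * (cw w : ℝ) ≤ 2 ^ v.sum * ((K + 1) * 2 ^ w.sum) :=
        mul_le_mul_of_nonneg_left h3 (by positivity)
      rw [pow_add]
      calc _ ≤ 2 ^ v.sum * ((K + 1) * 2 ^ w.sum) + (1 * 2 ^ w.sum) * 2 ^ v.sum :=
            add_le_add h8 h7
        _ = _ := by ring
    · rw [List.sum_append, hsum, List.length_append, hG.len _ hw1, words_length hv1]
      exact two_pow_lam hY _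

end Pool.Agent.Collatz3.PD
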