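import Mathlib
import Pool.Agent.Collatz3.PDBase
import Pool.Agent.Collatz3.PDCount

set_option autoImplicit false

/-!
Positive density: choice of the scale.
-/

namespace Pool.Agent.Collatz3.PD

open Finset Filter
open Pool.Agent.Collatz3.Mix (words mem_words)

theorem three_pow_le_two (j : ℕ) : 3 ^ j ≤ 2 ^ ((8 * j + 4) / 5) := by
  have h : (3 ^ j) ^ 5 ≤ (2 ^ ((8 * j + 4) / 5)) ^ 5 := by
    rw [← pow_mul, ← pow_mul]
    calc 3 ^ (j * 5) = (3 ^ 5) ^ j := by rw [← pow_mul, mul_comm]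
      _ ≤ (2 ^ 8) ^ j := Nat.pow_le_pow_left (by norm_num) _
      _ = 2 ^ (8 * j) := by rw [← pow_mul]
      _ ≤ 2 ^ ((8 * j + 4) / 5 * 5) := Nat.pow_le_pow_right (by norm_num) (by omega)
  exact le_of_pow_le_pow_left₀ (by norm_num) (Nat.zero_le _) h

theorem lam_add_le {Y : ℕ} (hY : 1 ≤ Y) (n j : ℕ) :
    5 * lam Y (n + j) ≤ 5 * lam Y n + 8 * j + 4 := by
  have h1 : Y * 3 ^ n < 2 ^ (lam Y n + 1) := Nat.lt_pow_succ_log_self (by norm_num) _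
  have h2 := three_pow_le_two j
  have h3 : 2 ^ lam Y (n + j) ≤ Y * 3 ^ (n + j) := two_pow_lam hY _
  have h4 : 2 ^ lam Y (n + j) < 2 ^ (lam Y n + 1 + (8 * j + 4) / 5) := by
    calc 2 ^ lam Y (n + j) ≤ Y * 3 ^ (n + j) := h3
      _ = (Y * 3 ^ n) * 3 ^ j := by rw [pow_add]; ring
      _ < 2 ^ (lam Y n + 1) * 3 ^ j := Nat.mul_lt_mul_of_pos_right h1 (by positivity)
      _ ≤ 2 ^ (lam Y n + 1) * 2 ^ ((8 * j + 4) / 5) := Nat.mul_le_mul_left _ h2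
      _ = 2 ^ (lam Y n + 1 + (8 * j + 4) / 5) := by rw [pow_add 2 (lam Y n + 1)]
  have h5 := (Nat.pow_lt_pow_iff_right (by norm_num)).1 h4
  omega

theorem scale_ge_add {N₀ : ℕ} (hN : 20 ≤ N₀) (J : ℕ) : N₀ + J ≤ scale N₀ J := by
  induction J with
  | zero => exact le_rfl
  | succ J ih =>
    show N₀ + (J + 1) ≤ scale N₀ J + scale N₀ J / 20
    omega

theorem exists_scale {N₀ Y : ℕ} (hN : 1000 ≤ N₀) (hY : 1 ≤ Y)
    (h0 : 201 * (N₀ + N₀ / 20) < 100 * lam Y (N₀ + N₀ / 20)) : ∃ J : ℕ,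
    201 * (scale N₀ J + scale N₀ J / 20) < 100 * lam Y (scale N₀ J + scale N₀ J / 20) ∧
    100 * lam Y (scale N₀ J + scale N₀ J / 4) ≤ 199 * (scale N₀ J + scale N₀ J / 4) := by
  have hex : ∃ J : ℕ, ¬ 201 * (scale N₀ J + scale N₀ J / 20) <
      100 * lam Y (scale N₀ J + scale N₀ J / 20) := by
    refine ⟨3 * lam Y 0 + 10, ?_⟩
    have h1 := scale_ge_add (by omega : 20 ≤ N₀) (3 * lam Y 0 + 10)
    have h2 := lam_add_le hY 0 (scale N₀ (3 * lam Y 0 + 10) + scale N₀ (3 * lam Y 0 + 10) / 20)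
    rw [Nat.zero_add] at h2
    omega
  classical
  obtain ⟨J₁, hJ₁⟩ : ∃ J₁, J₁ = Nat.find hex := ⟨_, rfl⟩
  have h1 : ¬ 201 * (scale N₀ J₁ + scale N₀ J₁ / 20) <
      100 * lam Y (scale N₀ J₁ + scale N₀ J₁ / 20) := by
    rw [hJ₁]
    exact Nat.find_spec hex
  have h2 : J₁ ≠ 0 := by
    rintro rfl
    exact h1 h0
  obtain ⟨J, rfl⟩ := Nat.exists_eq_succ_of_ne_zero h2
  have h3 : 201 * (scale N₀ J + scale N₀ J / 20) <
      100 * lam Y (scale N₀ J + scale N₀ J / 20) := by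
    have := Nat.find_min hex (m := J) (by omega)
    exact not_not.1 this
  refine ⟨J, h3, ?_⟩
  have h4 : scale N₀ (J + 1) = scale N₀ J + scale N₀ J / 20 := rfl
  rw [Nat.succ_eq_add_one, h4] at h1
  obtain ⟨N, hNJ⟩ : ∃ N, N = scale N₀ J := ⟨_, rfl⟩
  have h5 : N₀ ≤ N := hNJ ▸ scale_ge N₀ J
  rw [← hNJ] at h1 h3 ⊢
  obtain ⟨n', hn'⟩ : ∃ n', n' = N + N / 20 + (N + N / 20) / 20 := ⟨_, rfl⟩
  rw [← hn'] at h1
  obtain ⟨j, hj⟩ : ∃ j, N + N / 4 = n' + j := ⟨N + N / 4 - n', by omega⟩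
  have h6 := lam_add_le hY n' j
  rw [hj]
  omega

/-- The lower tail at the last step. -/
theorem low_ev : ∀ᶠ N : ℕ in atTop, 1 / 2 ≤ P ((words (II N) (N / 4 - N / 20)).filter fun v =>
    199 * (N / 4 - N / 20) ≤ 100 * v.sum) := by
  obtain ⟨ρ, hρ0, hρ1, hρ⟩ := lower_tail
  have h1 : Tendsto (fun N : ℕ => ρ ^ N) atTop (nhds 0) :=
    tendsto_pow_atTop_nhds_zero_of_lt_one hρ0.le hρ1
  have h2 : ∀ᶠ n : ℕ in atTop, ρ ^ n ≤ 1 / 4 :=
    (h1.eventually (gt_mem_nhds (by norm_num : (0 : ℝ) < 1 / 4))).mono fun _ h => h.le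
  obtain ⟨n₁, hn₁⟩ := eventually_atTop.1 h2
  filter_upwards [eventually_ge_atTop (10 * n₁ + 2 ^ 20)] with N hN
  obtain ⟨R, hR⟩ : ∃ R, R = N / 4 - N / 20 := ⟨_, rfl⟩
  rw [← hR]
  have hR1 : n₁ ≤ R := by omega
  have h3 := hρ (II N) R
  have h4 := hn₁ R hR1
  have h5 : P (words (II N) R) = P ((words (II N) R).filter fun v => 100 * v.sum < 199 * R) +
      P ((words (II N) R).filter fun v => 199 * R ≤ 100 * v.sum) := by
    unfold P
    rw [← sum_filter_add_sum_filter_not (words (II N) R) (fun v => 100 * v.sum < 199 * R)]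
    congr 1
    apply sum_congr _ fun _ _ => rfl
    apply filter_congr
    intro v _
    rw [not_lt]
  have h6 : 1 - Z (II N) ^ R ≤ R * (1 / 2 : ℝ) ^ (II N) := one_sub_Z_pow _ _
  rw [P_words] at h5
  have h7 : (N : ℝ) * (1 / 2) ^ II N ≤ 2 ^ 12 / N := mul_half_pow_II (by omega)
  have h8 : (R : ℝ) * (1 / 2 : ℝ) ^ II N ≤ N * (1 / 2) ^ II N := by
    apply mul_le_mul_of_nonneg_right _ (by positivity)
    exact_mod_cast (by omega : R ≤ N)
  have h9 : (2 : ℝ) ^ 12 / N ≤ 1 / 4 := by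
    have hN' : ((2 : ℝ) ^ 20) ≤ N := by
      have : 2 ^ 20 ≤ N := by omega
      exact_mod_cast this
    have hN0 : (0 : ℝ) < N := by linarith [show (0 : ℝ) < 2 ^ 20 by positivity]
    rw [div_le_div_iff₀ hN0 (by norm_num)]
    nlinarith
  linarith

end Pool.Agent.Collatz3.PD
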