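import Mathlib
import Pool.Agent.Collatz3.PDMixC
import Pool.Agent.Collatz3.PDErr
import Pool.Agent.Collatz3.PDEnd
import Pool.Agent.Collatz3.PDScale

set_option autoImplicit false

/-!
Positive lower density of the backward orbits of the `3x+1` map, uniformly.
-/

namespace Pool.Agent.Collatz3.PD

open Finset Filter
open Pool.Agent.Collatz3.Mix (words mem_words)
open Pool.Agent.Helper14 (T Back abs_le_finite)

theorem err2_ev : ∀ᶠ N : ℕ in atTop, Err2 N := by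
  filter_upwards [eventually_ge_atTop 1000, bad_small, mix_small mixRate, mix_small_s mixRate,
    num_small, low_ev] with N h1 h2 h3 h4 h5 h6
  exact { big := h1, bad := h2, mix := h3, num := h5, mixs := h4, low := h6 }

/-- Many words above every integer of one residue class. -/
theorem count_b : ∃ (M Y₀ : ℕ) (c : ℤ) (K : ℝ), 0 ≤ K ∧ ∀ b : ℤ, (3 : ℤ) ^ M ∣ b - c →
    ∀ Y : ℕ, Y₀ ≤ Y → ∃ H : Finset (List ℕ), (Y : ℝ) / 32 ≤ H.card ∧ ∀ u ∈ H, rd u b ∧
      (∀ i ∈ u, 1 ≤ i) ∧ (cw u : ℝ) ≤ K * 2 ^ u.sum ∧ 2 ^ u.sum ≤ Y * 3 ^ u.length := by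
  obtain ⟨N₁, hN₁⟩ := eventually_atTop.1 err2_ev
  obtain ⟨N₂, hN₂⟩ := eventually_atTop.1 base
  obtain ⟨N₀, hN₀⟩ : ∃ N₀, N₀ = max N₁ N₂ := ⟨_, rfl⟩
  have hE : ∀ N, N₀ ≤ N → Err2 N := fun N h => hN₁ N ((le_max_left _ _).trans (hN₀ ▸ h))
  obtain ⟨G₀, hG₀, c, hc⟩ := hN₂ N₀ (hN₀ ▸ le_max_right _ _)
  have hbig := (hE N₀ le_rfl).big
  refine ⟨N₀ + N₀ / 20, 2 ^ (3 * (N₀ + N₀ / 20) + 1), c, (N₀ : ℝ) ^ 4 + 2, by positivity,
    fun b hb Y hY => ?_⟩
  have hY1 : 1 ≤ Y := le_trans Nat.one_le_two_pow hY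
  have h0 : 201 * (N₀ + N₀ / 20) < 100 * lam Y (N₀ + N₀ / 20) := by
    have h1 : 3 * (N₀ + N₀ / 20) + 1 ≤ lam Y (N₀ + N₀ / 20) := by
      unfold lam
      apply Nat.le_log_of_pow_le (by norm_num)
      exact hY.trans (Nat.le_mul_of_pos_right _ (by positivity))
    omega
  obtain ⟨J, h1, h2⟩ := exists_scale hbig hY1 h0
  obtain ⟨h3, h4⟩ := chain_aux (fun N h => (hE N h).toErr) (K := (N₀ : ℝ) ^ 4) (by positivity)
    le_rfl hG₀ J
  have hge := scale_ge N₀ J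
  have hb1 := hc b hb
  have hb2 := h4 b
  have hN₀' : (1000 : ℝ) ≤ N₀ := by exact_mod_cast hbig
  have h5 : 1 / (N₀ : ℝ) ≤ 1 / 4 := by
    apply one_div_le_one_div_of_le (by norm_num)
    linarith
  have h6 : (0 : ℝ) ≤ 1 / (scale N₀ J : ℝ) := by positivity
  exact count_words (hE _ hge) (K := (N₀ : ℝ) ^ 4) (by positivity)
    (pow_le_pow_left₀ (Nat.cast_nonneg _) (by exact_mod_cast hge) 4)
    (h3.mono (by linarith)) hY1 h1 h2 (by linarith)

/-- Many preimages of every nonperiodic integer of one residue class. -/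
theorem count_int : ∃ (M Y₀ : ℕ) (c : ℤ) (K : ℝ), 1 ≤ K ∧ ∀ b : ℤ, b ≠ 0 →
    (∀ j, 0 < j → T^[j] b ≠ b) → (3 : ℤ) ^ M ∣ b - c → ∀ Y : ℕ, Y₀ ≤ Y →
    (Y : ℝ) / 32 ≤ ((Back b (K * Y * |(b : ℝ)|)).ncard : ℝ) := by
  obtain ⟨M, Y₀, c, K, hK, h⟩ := count_b
  refine ⟨M, Y₀, c, K + 1, by linarith, fun b hb0 hper hb Y hY => ?_⟩
  obtain ⟨H, hH, hu⟩ := h b hb Y hY
  refine hH.trans ?_
  have hb1 : (1 : ℝ) ≤ |(b : ℝ)| := by
    have : 1 ≤ |b| := Int.one_le_abs hb0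
    exact_mod_cast this
  have hinj : Set.InjOn (fun u => en u b) (H : Set (List ℕ)) := by
    intro u h1 v h2 he
    exact en_inj hb0 hper (hu u h1).1 (hu v h2).1 (hu u h1).2.1 (hu v h2).2.1 he
  have hsub : ((H.image fun u => en u b : Finset ℤ) : Set ℤ) ⊆
      Back b ((K + 1) * Y * |(b : ℝ)|) := by
    intro n hn
    rw [mem_coe, mem_image] at hn
    obtain ⟨u, hu1, rfl⟩ := hn
    obtain ⟨h1, h2, h3, h4⟩ := hu u hu1
    refine ⟨en_sign h1 hb0 h2, ?_, u.sum, T_en h1 h2⟩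
    have h5 := en_bound h1
    have h6 : (2 : ℝ) ^ u.sum ≤ Y * 3 ^ u.length := by exact_mod_cast h4
    have h7 : (3 : ℝ) ^ u.length * |(en u b : ℝ)| ≤
        3 ^ u.length * ((K + 1) * Y * |(b : ℝ)|) := by
      calc (3 : ℝ) ^ u.length * |(en u b : ℝ)| ≤ 2 ^ u.sum * |(b : ℝ)| + cw u := h5
        _ ≤ 2 ^ u.sum * |(b : ℝ)| + K * 2 ^ u.sum := by linarith
        _ = 2 ^ u.sum * (|(b : ℝ)| + K * 1) := by ring
        _ ≤ 2 ^ u.sum * (|(b : ℝ)| + K * |(b : ℝ)|) := by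
            apply mul_le_mul_of_nonneg_left _ (by positivity)
            have := mul_le_mul_of_nonneg_left hb1 hK
            linarith
        _ ≤ (Y * 3 ^ u.length) * (|(b : ℝ)| + K * |(b : ℝ)|) :=
            mul_le_mul_of_nonneg_right h6 (by positivity)
        _ = _ := by ring
    exact le_of_mul_le_mul_left h7 (by positivity)
  have hfin : (Back b ((K + 1) * Y * |(b : ℝ)|)).Finite :=
    (abs_le_finite _).subset fun _ h => h.2.1
  have h1 := Set.ncard_le_ncard hsub hfin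
  rw [Set.ncard_coe_finset, card_image_of_injOn hinj] at h1
  exact_mod_cast h1

/-- **Positive lower density, uniformly.** -/
theorem back_density : ∃ c : ℝ, 0 < c ∧ ∀ a : ℤ, ¬ (3 : ℤ) ∣ a → ∀ x : ℝ, 1 ≤ x →
    c * x ≤ ((Back a (x * |(a : ℝ)|)).ncard : ℝ) := by
  obtain ⟨M, Y₀, c, K, hK, h⟩ := count_int
  obtain ⟨B, hB⟩ := exists_child M c
  obtain ⟨D, hD⟩ : ∃ D : ℝ, D = K * (B + 1) := ⟨_, rfl⟩
  have hB0 : (0 : ℝ) ≤ B := Nat.cast_nonneg _
  have hD1 : 1 ≤ D := by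
    rw [hD]
    nlinarith
  have hY0 : (0 : ℝ) ≤ Y₀ := Nat.cast_nonneg _
  refine ⟨1 / (64 * D * (Y₀ + 2)), by positivity, fun a ha x hx => ?_⟩
  have ha0 : a ≠ 0 := by
    rintro rfl
    exact ha (dvd_zero _)
  have hfin : (Back a (x * |(a : ℝ)|)).Finite := (abs_le_finite _).subset fun _ h => h.2.1
  by_cases hcase : x < D * (Y₀ + 2)
  · have h1 : a ∈ Back a (x * |(a : ℝ)|) := by
      refine ⟨mul_self_pos.2 ha0, ?_, 0, rfl⟩
      have := abs_nonneg (a : ℝ)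
      nlinarith
    have h2 : 1 ≤ (Back a (x * |(a : ℝ)|)).ncard :=
      (Set.ncard_pos hfin).2 ⟨a, h1⟩
    have h3 : (1 : ℝ) ≤ ((Back a (x * |(a : ℝ)|)).ncard : ℝ) := by exact_mod_cast h2
    refine le_trans ?_ h3
    rw [div_mul_eq_mul_div, one_mul, div_le_one (by positivity)]
    nlinarith [mul_nonneg (by linarith : (0 : ℝ) ≤ D) hY0]
  · push Not at hcase
    obtain ⟨b, i, -, hbi, hbc, hbB, hsg, hper⟩ := hB a ha
    have hb0 : b ≠ 0 := by
      rintro rfl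
      simp at hsg
    obtain ⟨Y, hY⟩ : ∃ Y, Y = ⌊x / D⌋₊ := ⟨_, rfl⟩
    have hx0 : 0 ≤ x / D := by positivity
    have hxD : (Y₀ : ℝ) + 2 ≤ x / D := by
      rw [le_div_iff₀ (by linarith)]
      linarith
    have h1 : Y₀ ≤ Y := by
      rw [hY]
      apply Nat.le_floor
      linarith
    have h2 : x / D - 1 ≤ Y := by
      have := Nat.lt_floor_add_one (x / D)
      rw [← hY] at this
      linarith
    have h3 : (Y : ℝ) * D ≤ x := by
      have := Nat.floor_le hx0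
      rw [← hY, le_div_iff₀ (by linarith)] at this
      exact this
    have h4 := h b hb0 hper hbc Y h1
    have hsub : Back b (K * Y * |(b : ℝ)|) ⊆ Back a (x * |(a : ℝ)|) := by
      rintro n ⟨hn1, hn2, j, hj⟩
      refine ⟨?_, ?_, i + j, ?_⟩
      · have h5 : 0 < (n * b) * (b * a) := mul_pos hn1 hsg
        have h6 : (n * b) * (b * a) = (n * a) * (b * b) := by ring
        rw [h6] at h5
        by_contra hcon
        have := mul_nonpos_of_nonpos_of_nonneg (not_lt.1 hcon) (mul_self_nonneg b)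
        linarith
      · refine hn2.trans ?_
        have h7 : |(b : ℝ)| ≤ B * |(a : ℝ)| := by exact_mod_cast hbB
        have ha' := abs_nonneg (a : ℝ)
        calc K * Y * |(b : ℝ)| ≤ K * Y * (B * |(a : ℝ)|) :=
              mul_le_mul_of_nonneg_left h7 (by positivity)
          _ ≤ K * Y * ((B + 1) * |(a : ℝ)|) := by
              apply mul_le_mul_of_nonneg_left _ (by positivity)
              nlinarith
          _ = (Y * D) * |(a : ℝ)| := by rw [hD]; ring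
          _ ≤ x * |(a : ℝ)| := mul_le_mul_of_nonneg_right h3 ha'
      · rw [Function.iterate_add_apply, hj, hbi]
    have h5 : (((Back b (K * Y * |(b : ℝ)|)).ncard : ℕ) : ℝ) ≤
        ((Back a (x * |(a : ℝ)|)).ncard : ℝ) := by
      exact_mod_cast Set.ncard_le_ncard hsub hfin
    refine le_trans ?_ (h4.trans h5)
    have h6 : x / D / 2 ≤ Y := by linarith
    calc 1 / (64 * D * (Y₀ + 2)) * x ≤ 1 / (64 * D) * x := by
          apply mul_le_mul_of_nonneg_right _ (by linarith)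
          apply one_div_le_one_div_of_le (by positivity)
          nlinarith [mul_nonneg (by linarith : (0 : ℝ) ≤ D) hY0]
      _ = x / D / 2 / 32 := by
          field_simp
          ring
      _ ≤ Y / 32 := by linarith

end Pool.Agent.Collatz3.PD
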