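import Mathlib
import Pool.Agent.Collatz3.PDFinal

set_option autoImplicit false

/-!
Forward hand-off: counting odd integers, words and their end points.
-/

namespace Pool.Agent.Collatz3.FW

open Finset
open Pool.Agent.Collatz3.Mix (words mem_words sum_words_zero sum_words_succ sum_words_add)
open Pool.Agent.Collatz3.PD

/-- The number of odd positive integers `≤ X`. -/
noncomputable def oc (X : ℝ) : ℕ := ⌊(X + 1) / 2⌋₊

/-- The `j`-th odd integer of sign `e`. -/
def od (e : ℤ) (j : ℕ) : ℤ := e * (2 * j + 1)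

/-- The odd integers `n` with `0 < e n ≤ X`. -/
noncomputable def Od (e : ℤ) (X : ℝ) : Finset ℤ := (range (oc X)).image (od e)

theorem mul_self_sign {e : ℤ} (he : e = 1 ∨ e = -1) : e * e = 1 := by
  rcases he with h | h <;> rw [h] <;> norm_num

theorem od_injective {e : ℤ} (he : e = 1 ∨ e = -1) : Function.Injective (od e) := by
  intro i j h
  unfold od at h
  rcases he with h' | h' <;> rw [h'] at h <;> omega

theorem mem_Od {e : ℤ} (he : e = 1 ∨ e = -1) {X : ℝ} {n : ℤ} :
    n ∈ Od e X ↔ n % 2 = 1 ∧ 0 < e * n ∧ ((e * n : ℤ) : ℝ) ≤ X := by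
  unfold Od oc
  rw [mem_image]
  constructor
  · rintro ⟨j, hj, rfl⟩
    rw [mem_range, Nat.lt_iff_add_one_le] at hj
    have h1 := (Nat.le_floor_iff' (Nat.succ_ne_zero j)).1 hj
    push_cast at h1
    have h2 : e * od e j = 2 * j + 1 := by
      unfold od
      rw [← mul_assoc, mul_self_sign he, one_mul]
    rw [h2]
    refine ⟨?_, by positivity, ?_⟩
    · unfold od
      rcases he with h' | h' <;> rw [h'] <;> omega
    · push_cast
      linarith
  · rintro ⟨h1, h2, h3⟩
    have h4 : (e * n) % 2 = 1 := by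
      rcases he with h' | h' <;> rw [h'] <;> omega
    obtain ⟨j, hj⟩ : ∃ j : ℕ, e * n = 2 * j + 1 := by
      refine ⟨((e * n - 1) / 2).toNat, ?_⟩
      omega
    refine ⟨j, ?_, ?_⟩
    · rw [mem_range, Nat.lt_iff_add_one_le, Nat.le_floor_iff' (Nat.succ_ne_zero j)]
      rw [hj] at h3
      push_cast at h3 ⊢
      linarith
    · unfold od
      rw [← hj, ← mul_assoc, mul_self_sign he, one_mul]

theorem oc_le {X : ℝ} (hX : 0 ≤ X) : (oc X : ℝ) ≤ (X + 1) / 2 :=
  Nat.floor_le (by linarith)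

theorem oc_mono {X Y : ℝ} (h : X ≤ Y) : oc X ≤ oc Y :=
  Nat.floor_le_floor (by linarith)

theorem card_Od {e : ℤ} (he : e = 1 ∨ e = -1) (X : ℝ) : (Od e X).card = oc X := by
  unfold Od
  rw [card_image_of_injective _ (od_injective he), card_range]

theorem Od_mono (e : ℤ) {X Y : ℝ} (h : X ≤ Y) : Od e X ⊆ Od e Y := by
  unfold Od
  apply image_subset_image
  intro j hj
  rw [mem_range] at hj ⊢
  exact hj.trans_le (oc_mono h)

/-- An affine change of variables over one period. -/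
theorem S_affine {k : ℕ} {h : ℤ → ℝ} (hh : Per k h) {c : ℤ} (hc : IsCoprime ((3 : ℤ) ^ k) c)
    (d : ℤ) : S k (fun x => h (c * x + d)) = S k h := by
  have hpos : (0 : ℤ) < 3 ^ k := by positivity
  have hp : ((3 ^ k : ℕ) : ℤ) = 3 ^ k := by push_cast; rfl
  have hmap : ∀ x ∈ range (3 ^ k), ((c * (x : ℤ) + d) % 3 ^ k).toNat ∈ range (3 ^ k) := by
    intro x _
    rw [mem_range]
    have h1 := Int.emod_nonneg (c * (x : ℤ) + d) hpos.ne'
    have h2 := Int.emod_lt_of_pos (c * (x : ℤ) + d) hpos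
    omega
  have hinj : Set.InjOn (fun x : ℕ => ((c * (x : ℤ) + d) % 3 ^ k).toNat) (range (3 ^ k)) := by
    intro x hx y hy hxy
    simp only at hxy
    rw [mem_coe, mem_range] at hx hy
    have h1 := Int.emod_nonneg (c * (x : ℤ) + d) hpos.ne'
    have h2 := Int.emod_nonneg (c * (y : ℤ) + d) hpos.ne'
    have h3 : (c * (x : ℤ) + d) % 3 ^ k = (c * (y : ℤ) + d) % 3 ^ k := by omega
    have h4 : (3 : ℤ) ^ k ∣ (c * (y : ℤ) + d) - (c * (x : ℤ) + d) := Int.modEq_iff_dvd.1 h3
    have h5 : (3 : ℤ) ^ k ∣ c * ((y : ℤ) - x) := by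
      have e : (c * (y : ℤ) + d) - (c * (x : ℤ) + d) = c * ((y : ℤ) - x) := by ring
      rwa [e] at h4
    have h6 : (3 : ℤ) ^ k ∣ (y : ℤ) - x := hc.dvd_of_dvd_mul_left h5
    have h7 : (y : ℤ) - x = 0 := by
      apply Int.eq_zero_of_abs_lt_dvd h6
      rw [abs_lt]
      constructor <;> omega
    omega
  unfold S
  refine sum_nbij (fun x : ℕ => ((c * (x : ℤ) + d) % 3 ^ k).toNat) hmap hinj ?_ ?_
  · exact surjOn_of_injOn_of_card_le _ hmap hinj le_rfl
  · intro x _
    have h1 := Int.emod_nonneg (c * (x : ℤ) + d) hpos.ne'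
    rw [Int.toNat_of_nonneg h1, hh.emod]

/-- Sums of periodic functions over odd integers. -/
theorem odd_sum_le {e : ℤ} (he : e = 1 ∨ e = -1) {k : ℕ} {h : ℤ → ℝ} (hh : Per k h)
    (h0 : ∀ x, 0 ≤ h x) (X : ℝ) :
    ∑ n ∈ Od e X, h n ≤ ((oc X : ℝ) / 3 ^ k + 1) * S k h := by
  unfold Od
  rw [sum_image (fun i _ j _ hij => od_injective he hij)]
  have hc : IsCoprime ((3 : ℤ) ^ k) (e * 2) := by
    apply IsCoprime.pow_left
    rcases he with h' | h' <;> rw [h'] <;> norm_num
  have e1 : ∀ j : ℕ, h (od e j) = (fun x : ℤ => h (e * 2 * x + e)) (0 + (j : ℤ)) := by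
    intro j
    unfold od
    simp only [zero_add]
    congr 1
    ring
  have hper : Per k (fun x : ℤ => h (e * 2 * x + e)) := by
    intro x t
    simp only
    have e2 : e * 2 * (x + 3 ^ k * t) + e = (e * 2 * x + e) + 3 ^ k * (e * 2 * t) := by ring
    rw [e2]
    exact hh _ _
  have h1 : ∑ j ∈ range (oc X), h (od e j) ≤
      ∑ j ∈ range ((oc X / 3 ^ k + 1) * 3 ^ k), (fun x : ℤ => h (e * 2 * x + e)) (0 + (j : ℤ)) := by
    simp only [← e1]
    apply sum_le_sum_of_subset_of_nonneg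
    · intro j hj
      rw [mem_range] at hj ⊢
      have h2 := Nat.div_add_mod (oc X) (3 ^ k)
      have h3 := Nat.mod_lt (oc X) (show 0 < 3 ^ k by positivity)
      nlinarith
    · intro j _ _
      exact h0 _
  refine h1.trans ?_
  rw [shift_sum_mul hper 0 (oc X / 3 ^ k + 1), S_affine hh hc e]
  apply mul_le_mul_of_nonneg_right _ (S_nonneg h0)
  push_cast
  have h2 : ((oc X / 3 ^ k : ℕ) : ℝ) ≤ (oc X : ℝ) / ((3 ^ k : ℕ) : ℝ) := Nat.cast_div_le
  push_cast at h2
  linarith

theorem rd_per (u : List ℕ) : Per u.length (fun x => if rd u x then (1 : ℝ) else 0) := by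
  intro x t
  simp only [rd_add]

theorem S_rd (u : List ℕ) : S u.length (fun x => if rd u x then (1 : ℝ) else 0) = 1 := by
  have h := S_en (v := u) (d := u.length) (l := 0) rfl (f := fun _ => (1 : ℝ)) (fun _ _ => rfl)
  rw [Nat.add_zero] at h
  rw [h]
  simp [S]

/-- Number of odd integers in a range at which a word can be read. -/
theorem card_rd_le {e : ℤ} (he : e = 1 ∨ e = -1) (u : List ℕ) (X : ℝ) :
    (((Od e X).filter fun b => rd u b).card : ℝ) ≤ (oc X : ℝ) / 3 ^ u.length + 1 := by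
  have h := odd_sum_le he (rd_per u) (fun x => by split_ifs <;> norm_num) X
  rw [S_rd, mul_one] at h
  refine le_trans (le_of_eq ?_) h
  rw [card_filter]
  push_cast
  rfl

theorem en_odd {w : List ℕ} {b : ℤ} (h : rd w b) (hw : ∀ i ∈ w, 1 ≤ i) (hb : b % 2 = 1) :
    en w b % 2 = 1 := by
  rcases eq_or_ne w [] with h1 | h1
  · subst h1
    rw [en_nil]
    exact hb
  · exact Pool.Agent.Helper14.up_odd (up_en h) hw h1

/-- A word and its (odd) lower end point are determined by the length and the upper end point. -/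
theorem pair_inj : ∀ (n : ℕ) (w w' : List ℕ) (b b' : ℤ), w.length = n → w'.length = n →
    (∀ i ∈ w, 1 ≤ i) → (∀ i ∈ w', 1 ≤ i) → b % 2 = 1 → b' % 2 = 1 → rd w b → rd w' b' →
    en w b = en w' b' → w = w' ∧ b = b' := by
  intro n
  induction n with
  | zero =>
    intro w w' b b' h1 h2 _ _ _ _ _ _ h
    rw [List.length_eq_zero_iff] at h1 h2
    subst h1 h2
    rw [en_nil, en_nil] at h
    exact ⟨rfl, h⟩
  | succ n ih =>
    intro w w' b b' h1 h2 hw hw' hb hb' hr hr' h
    obtain ⟨v, i, rfl⟩ := exists_concat (w := w) (by rintro rfl; simp at h1)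
    obtain ⟨v', i', rfl⟩ := exists_concat (w := w') (by rintro rfl; simp at h2)
    rw [List.length_append, List.length_singleton] at h1 h2
    obtain ⟨hv, hi⟩ := rd_append.1 hr
    obtain ⟨hv', hi'⟩ := rd_append.1 hr'
    rw [en_append hv, en_append hv'] at h
    have hpv : ∀ j ∈ v, 1 ≤ j := fun j hj => hw j (List.mem_append_left _ hj)
    have hpv' : ∀ j ∈ v', 1 ≤ j := fun j hj => hw' j (List.mem_append_left _ hj)
    have e1 := en_spec hi
    have e2 := en_spec hi'
    rw [h] at e1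
    simp only [List.length_singleton, List.sum_singleton, cw, List.sum_nil, pow_zero, pow_one,
      mul_zero, zero_add, Nat.cast_one] at e1 e2
    have e3 : (2 : ℤ) ^ i * en v b = 2 ^ i' * en v' b' := by linarith
    obtain ⟨h3, h4⟩ := Pool.Agent.Helper14.two_pow_mul_inj' (en_odd hv hpv hb)
      (en_odd hv' hpv' hb') e3
    obtain ⟨h5, h6⟩ := ih v v' b b' (by omega) (by omega) hpv hpv' hb hb' hv hv' h4
    exact ⟨by rw [h5, h3], h6⟩

/-- Number of words with bounded sum. -/
theorem card_words_le {G : Finset (List ℕ)} {I k s : ℕ} (hG : G ⊆ words I k)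
    (hs : ∀ w ∈ G, w.sum ≤ s) : (G.card : ℝ) ≤ 2 ^ s := by
  have h1 : (G.card : ℝ) * (1 / 2) ^ s ≤ P G := by
    rw [← nsmul_eq_mul]
    unfold P
    apply card_nsmul_le_sum
    intro w hw
    exact pow_le_pow_of_le_one (by norm_num) (by norm_num) (hs w hw)
  have h2 : P G ≤ 1 := by
    refine (P_mono hG).trans ?_
    rw [P_words]
    exact pow_le_one₀ (Z_nonneg I) (Z_le_one I)
  have h3 : (1 / 2 : ℝ) ^ s = (2 ^ s)⁻¹ := by rw [one_div, inv_pow]
  have h4 : (0 : ℝ) < 2 ^ s := by positivity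
  rw [h3] at h1
  have h5 := h1.trans h2
  rw [← div_eq_mul_inv, div_le_one h4] at h5
  exact h5

open Classical in
/-- The integers with a given word: lower bound for their number. -/
theorem word_count_ge {e : ℤ} (he : e = 1 ∨ e = -1) {w : List ℕ} (hw : ∀ i ∈ w, 1 ≤ i)
    (hne : w ≠ []) (X : ℝ) :
    X / 2 ^ (w.sum + 1) - 1 ≤
      (((Od e X).filter fun n => ∃ b, b % 2 = 1 ∧ rd w b ∧ en w b = n).card : ℝ) := by
  obtain ⟨q, hq⟩ : ∃ q : ℕ, q = 2 ^ (w.sum + 1) := ⟨_, rfl⟩
  have hq0 : 0 < q := by rw [hq]; positivity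
  have hqz : (0 : ℤ) < q := by exact_mod_cast hq0
  have hqr : (0 : ℝ) < q := by exact_mod_cast hq0
  have hodd := cw_odd w hw hne
  have hsum := one_le_sum hne hw
  -- the residue class
  have hcop : IsCoprime ((3 : ℤ) ^ w.length * e) (q : ℤ) := by
    rw [hq]
    push_cast
    apply IsCoprime.mul_left
    · exact IsCoprime.pow (by norm_num)
    · apply IsCoprime.pow_right
      rcases he with h' | h' <;> rw [h'] <;> norm_num
  obtain ⟨u, v, huv⟩ := hcop
  obtain ⟨x, hx⟩ : ∃ x : ℤ, (q : ℤ) ∣ 3 ^ w.length * (e * x) + cw w - 2 ^ w.sum := by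
    refine ⟨u * (2 ^ w.sum - cw w), -(v * (2 ^ w.sum - cw w)), ?_⟩
    linear_combination (2 ^ w.sum - (cw w : ℤ)) * huv
  obtain ⟨r, hr1, hr2, hr3⟩ : ∃ r : ℤ, 1 ≤ r ∧ r ≤ q ∧
      (q : ℤ) ∣ 3 ^ w.length * (e * r) + cw w - 2 ^ w.sum := by
    refine ⟨(x - 1) % q + 1, ?_, ?_, ?_⟩
    · have := Int.emod_nonneg (x - 1) hqz.ne'
      omega
    · have := Int.emod_lt_of_pos (x - 1) hqz
      omega
    · obtain ⟨c, hc⟩ := hx
      refine ⟨c - 3 ^ w.length * e * ((x - 1) / q), ?_⟩
      rw [Int.emod_def]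
      linear_combination hc
  have key : ∀ j : ℕ, ∃ b, b % 2 = 1 ∧ rd w b ∧ en w b = e * (r + q * j) := by
    intro j
    obtain ⟨c, hc⟩ := hr3
    have hqe : (q : ℤ) = 2 * 2 ^ w.sum := by
      rw [hq]
      push_cast
      ring
    refine ⟨2 * (c + 3 ^ w.length * e * j) + 1, by omega, ?_⟩
    have h1 : (2 : ℤ) ^ w.sum * (2 * (c + 3 ^ w.length * e * j) + 1) - cw w =
        3 ^ w.length * (e * (r + q * j)) := by
      rw [hqe] at hc ⊢
      linear_combination -hc
    have h2 : rd w (2 * (c + 3 ^ w.length * e * j) + 1) := ⟨_, h1⟩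
    refine ⟨h2, ?_⟩
    have h3 := en_spec h2
    rw [h1] at h3
    exact mul_left_cancel₀ (pow_ne_zero _ (by norm_num)) h3
  have hinj : Function.Injective (fun j : ℕ => e * (r + q * j)) := by
    intro i j hij
    simp only at hij
    have h1 : r + q * (i : ℤ) = r + q * j := by
      rcases he with h' | h' <;> rw [h'] at hij <;> linarith
    have h2 : (q : ℤ) * i = q * j := by linarith
    exact_mod_cast mul_left_cancel₀ hqz.ne' h2
  have hsub : (range ⌊X / q⌋₊).image (fun j : ℕ => e * (r + q * j)) ⊆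
      (Od e X).filter fun n => ∃ b, b % 2 = 1 ∧ rd w b ∧ en w b = n := by
    intro n hn
    rw [mem_image] at hn
    obtain ⟨j, hj, rfl⟩ := hn
    rw [mem_range] at hj
    rw [mem_filter, mem_Od he]
    obtain ⟨b, hb1, hb2, hb3⟩ := key j
    have e1 : e * (e * (r + q * j)) = r + q * j := by
      rw [← mul_assoc, mul_self_sign he, one_mul]
    refine ⟨⟨?_, ?_, ?_⟩, b, hb1, hb2, hb3⟩
    · rw [← hb3]
      exact en_odd hb2 hw hb1
    · rw [e1]
      positivity
    · rw [e1]
      have h1 : ((j : ℝ) + 1) ≤ X / q := by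
        have h2 : j + 1 ≤ ⌊X / q⌋₊ := hj
        have h3 := (Nat.le_floor_iff' (Nat.succ_ne_zero j)).1 h2
        push_cast at h3
        exact h3
      rw [le_div_iff₀ hqr] at h1
      have h4 : (r : ℝ) ≤ q := by exact_mod_cast hr2
      push_cast
      nlinarith
  have h1 := card_le_card hsub
  rw [card_image_of_injective _ hinj, card_range] at h1
  have h2 : ((⌊X / q⌋₊ : ℕ) : ℝ) ≤
      (((Od e X).filter fun n => ∃ b, b % 2 = 1 ∧ rd w b ∧ en w b = n).card : ℝ) := by
    exact_mod_cast h1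
  have h3 := Nat.lt_floor_add_one (X / q)
  have h4 : (2 : ℝ) ^ (w.sum + 1) = q := by rw [hq]; push_cast; rfl
  rw [h4]
  linarith

end Pool.Agent.Collatz3.FW
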