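import Mathlib
import Pool.Agent.Collatz3.FWCore

set_option autoImplicit false

/-!
Forward hand-off: the basic inequality.
-/

namespace Pool.Agent.Collatz3.FW

open Finset
open Pool.Agent.Collatz3.Mix (words mem_words sum_words_zero sum_words_succ sum_words_add)
open Pool.Agent.Collatz3.PD

/-- `n` is the upper end point of a word of `G` read at an odd integer of `B (sum)`. -/
def Hit (G : Finset (List ℕ)) (B : ℕ → Set ℤ) (n : ℤ) : Prop :=
  ∃ w ∈ G, ∃ b : ℤ, b % 2 = 1 ∧ rd w b ∧ en w b = n ∧ b ∈ B w.sum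

theorem sign_key {e : ℤ} (he : e = 1 ∨ e = -1) {w : List ℕ} {b : ℤ} (hr : rd w b)
    (hw : ∀ i ∈ w, 1 ≤ i) (hb : b % 2 = 1) (hn : 0 < e * en w b) : 0 < e * b := by
  have hb0 : b ≠ 0 := by rintro rfl; norm_num at hb
  have h1 := en_sign hr hb0 hw
  rcases he with h' | h' <;> rw [h'] at hn ⊢
  · rw [one_mul] at hn ⊢
    exact (mul_pos_iff_of_pos_left hn).1 h1
  · nlinarith

theorem lower_bound {e : ℤ} (he : e = 1 ∨ e = -1) {w : List ℕ} {b : ℤ} (hr : rd w b)
    {K X : ℝ} (hK : (cw w : ℝ) ≤ K * 2 ^ w.sum) (hn : ((e * en w b : ℤ) : ℝ) ≤ X) :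
    ((e * b : ℤ) : ℝ) ≤ 3 ^ w.length * X / 2 ^ w.sum + K := by
  have h1 := en_spec hr
  have h2 : (2 : ℤ) ^ w.sum * (e * b) = 3 ^ w.length * (e * en w b) + e * cw w := by
    linear_combination -e * h1
  have h3 : (2 : ℝ) ^ w.sum * ((e * b : ℤ) : ℝ) =
      3 ^ w.length * ((e * en w b : ℤ) : ℝ) + (e : ℝ) * cw w := by exact_mod_cast h2
  have hp : (0 : ℝ) < 2 ^ w.sum := by positivity
  have h4 : (e : ℝ) * cw w ≤ K * 2 ^ w.sum := by
    have h5 : (0 : ℝ) ≤ cw w := Nat.cast_nonneg _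
    rcases he with h' | h' <;> rw [h']
    · push_cast
      linarith
    · push_cast
      linarith
  have h5 : (3 : ℝ) ^ w.length * ((e * en w b : ℤ) : ℝ) ≤ 3 ^ w.length * X :=
    mul_le_mul_of_nonneg_left hn (by positivity)
  rw [div_add' _ _ _ hp.ne', le_div_iff₀ hp]
  linarith

open Classical in
theorem step1 {e : ℤ} (he : e = 1 ∨ e = -1) {k : ℕ} {K X : ℝ} {G : Finset (List ℕ)}
    (hlen : ∀ w ∈ G, w.length = k) (hpos : ∀ w ∈ G, ∀ i ∈ w, 1 ≤ i)
    (hcw : ∀ w ∈ G, (cw w : ℝ) ≤ K * 2 ^ w.sum) (B : ℕ → Set ℤ) :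
    (((Od e X).filter fun n => Hit G B n).card : ℝ) ≤
      ∑ w ∈ G, (((Od e (3 ^ k * X / 2 ^ w.sum + K)).filter
        fun b => rd w b ∧ b ∈ B w.sum).card : ℝ) := by
  have hsub : (Od e X).filter (fun n => Hit G B n) ⊆
      (G.sigma fun w => (Od e (3 ^ k * X / 2 ^ w.sum + K)).filter
        fun b => rd w b ∧ b ∈ B w.sum).image fun p => en p.1 p.2 := by
    intro n hn
    rw [mem_filter, mem_Od he] at hn
    obtain ⟨⟨h1, h2, h3⟩, w, hw, b, hb, hr, rfl, hB⟩ := hn
    rw [mem_image]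
    refine ⟨⟨w, b⟩, ?_, rfl⟩
    rw [mem_sigma, mem_filter, mem_Od he]
    refine ⟨hw, ⟨hb, sign_key he hr (hpos w hw) hb h2, ?_⟩, hr, hB⟩
    rw [← hlen w hw]
    exact lower_bound he hr (hcw w hw) h3
  have h1 := (card_le_card hsub).trans card_image_le
  rw [card_sigma] at h1
  exact_mod_cast h1

/-- The mixing error for the sum `s`. -/
noncomputable def Del (I k m s : ℕ) : ℝ :=
  ∑ x ∈ range (3 ^ k), |Fw I k s k (x : ℤ) - Fw I k s m (x : ℤ) / 3 ^ (k - m)|

theorem two_pow_Fw (I k s n : ℕ) (x : ℤ) : 2 ^ s * Fw I k s n x =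
    ((words I k).filter (fun w => w.sum = s ∧ (3 : ℤ) ^ n ∣ 2 ^ s * x - cw w)).card := by
  unfold Fw
  rw [sum_const, nsmul_eq_mul]
  have : (2 : ℝ) ^ s * (1 / 2) ^ s = 1 := by
    rw [← mul_pow]
    norm_num
  linear_combination (((words I k).filter (fun w => w.sum = s ∧
    (3 : ℤ) ^ n ∣ 2 ^ s * x - cw w)).card : ℝ) * this

theorem per_Fw1 (I k s n : ℕ) : Per n (Fw I k s n) := by
  intro x t
  have h := per_Fw I k s n 1 x t
  simpa using h

theorem two_pow_coarse {I k m s : ℕ} (hm : m ≤ k) (y : ℤ) :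
    2 ^ s * Fw I k s m y = ∑ u ∈ words I m, ∑ v ∈ words I (k - m),
      if rd u y ∧ u.sum + v.sum = s then (1 : ℝ) else 0 := by
  have h := coarse (I := I) (s := s) hm y
  have h3 : (3 : ℝ) ^ m ≠ 0 := by positivity
  have h1 : Fw I k s m y = ∑ u ∈ (words I m).filter (fun u => rd u y),
      (1 / 2 : ℝ) ^ u.sum * P ((words I (k - m)).filter fun v => u.sum + v.sum = s) := by
    apply mul_left_cancel₀ h3
    rw [h, mul_sum]
    apply sum_congr rfl
    intro u _
    ring
  rw [h1, mul_sum, sum_filter]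
  apply sum_congr rfl
  intro u _
  by_cases hu : rd u y
  · rw [if_pos hu]
    unfold P
    rw [sum_filter, mul_sum, mul_sum]
    apply sum_congr rfl
    intro v _
    by_cases hv : u.sum + v.sum = s
    · rw [if_pos hv, if_pos ⟨hu, hv⟩, ← hv, ← pow_add, ← mul_pow]
      norm_num
    · rw [if_neg hv, if_neg (fun h => hv h.2)]
      ring
  · rw [if_neg hu]
    symm
    apply sum_eq_zero
    intro v _
    rw [if_neg (fun h => hu h.1)]

open Classical in
theorem step2 {e : ℤ} (he : e = 1 ∨ e = -1) {I k m smax : ℕ} (hm : m ≤ k) {y : ℕ → ℝ}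
    {G : Finset (List ℕ)} (hG : G ⊆ words I k) (hs : ∀ w ∈ G, w.sum ≤ smax)
    (B : ℕ → Set ℤ) :
    ∑ w ∈ G, (((Od e (y w.sum)).filter fun b => rd w b ∧ b ∈ B w.sum).card : ℝ) ≤
      ∑ u ∈ words I m, ∑ v ∈ words I (k - m), (if u.sum + v.sum ≤ smax then
        (((Od e (y (u.sum + v.sum))).filter fun b => rd u b ∧ b ∈ B (u.sum + v.sum)).card : ℝ) /
          3 ^ (k - m) else 0) +
      ∑ s ∈ range (smax + 1), 2 ^ s * ((oc (y s) : ℝ) / 3 ^ k + 1) * Del I k m s := by
  obtain ⟨q, hq⟩ : ∃ q : ℕ → ℤ → ℝ, q = fun s b => if b ∈ B s then 1 else 0 := ⟨_, rfl⟩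
  have hq0 : ∀ s b, 0 ≤ q s b := by
    intro s b
    rw [hq]
    simp only
    split_ifs <;> norm_num
  have hq1 : ∀ s b, q s b ≤ 1 := by
    intro s b
    rw [hq]
    simp only
    split_ifs <;> norm_num
  -- the left side, by sums
  have hL : ∑ w ∈ G, (((Od e (y w.sum)).filter fun b => rd w b ∧ b ∈ B w.sum).card : ℝ) ≤
      ∑ s ∈ range (smax + 1), ∑ b ∈ Od e (y s), q s b * (2 ^ s * Fw I k s k b) := by
    rw [← sum_fiberwise_of_maps_to (s := G) (t := range (smax + 1)) (g := fun w => w.sum)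
      (fun w hw => by rw [mem_range]; exact Nat.lt_succ_of_le (hs w hw))]
    apply sum_le_sum
    intro s _
    have h1 : ∀ w ∈ G.filter (fun w => w.sum = s),
        (((Od e (y w.sum)).filter fun b => rd w b ∧ b ∈ B w.sum).card : ℝ) =
        ∑ b ∈ Od e (y s), if rd w b then q s b else 0 := by
      intro w hw
      rw [mem_filter] at hw
      rw [hw.2, card_filter]
      push_cast
      apply sum_congr rfl
      intro b _
      rw [hq]
      simp only
      by_cases h2 : rd w b <;> by_cases h3 : b ∈ B s <;> simp [h2, h3]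
    rw [sum_congr rfl h1, sum_comm]
    apply sum_le_sum
    intro b _
    rw [two_pow_Fw, ← sum_filter, sum_const, nsmul_eq_mul, mul_comm]
    apply mul_le_mul_of_nonneg_left _ (hq0 s b)
    have h2 : (G.filter (fun w => w.sum = s)).filter (fun w => rd w b) ⊆
        (words I k).filter (fun w => w.sum = s ∧ (3 : ℤ) ^ k ∣ 2 ^ s * b - cw w) := by
      intro w hw
      rw [mem_filter, mem_filter] at hw
      rw [mem_filter]
      obtain ⟨⟨hw1, hw2⟩, hw3⟩ := hw
      refine ⟨hG hw1, hw2, ?_⟩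
      unfold rd at hw3
      rw [words_length (hG hw1), hw2] at hw3
      exact hw3
    exact_mod_cast card_le_card h2
  refine hL.trans ?_
  -- mixing
  have h2 : ∀ s ∈ range (smax + 1), ∑ b ∈ Od e (y s), q s b * (2 ^ s * Fw I k s k b) ≤
      ∑ b ∈ Od e (y s), q s b * (2 ^ s * Fw I k s m b) / 3 ^ (k - m) +
        2 ^ s * ((oc (y s) : ℝ) / 3 ^ k + 1) * Del I k m s := by
    intro s _
    have hper : Per k (fun b => |Fw I k s k b - Fw I k s m b / 3 ^ (k - m)|) := by
      intro x t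
      simp only
      rw [per_Fw1 I k s k x t, (per_Fw1 I k s m).mono hm x t]
    have h3 := odd_sum_le he hper (fun _ => abs_nonneg _) (y s)
    have h4 : ∑ b ∈ Od e (y s), q s b * (2 ^ s * Fw I k s k b) ≤
        ∑ b ∈ Od e (y s), (q s b * (2 ^ s * Fw I k s m b) / 3 ^ (k - m) +
          2 ^ s * |Fw I k s k b - Fw I k s m b / 3 ^ (k - m)|) := by
      apply sum_le_sum
      intro b _
      have h5 : Fw I k s k b ≤ Fw I k s m b / 3 ^ (k - m) +
          |Fw I k s k b - Fw I k s m b / 3 ^ (k - m)| := by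
        have := le_abs_self (Fw I k s k b - Fw I k s m b / 3 ^ (k - m))
        linarith
      have h6 : 0 ≤ |Fw I k s k b - Fw I k s m b / 3 ^ (k - m)| := abs_nonneg _
      have h7 : (0 : ℝ) < 2 ^ s := by positivity
      calc q s b * (2 ^ s * Fw I k s k b)
          ≤ q s b * (2 ^ s * (Fw I k s m b / 3 ^ (k - m) +
          |Fw I k s k b - Fw I k s m b / 3 ^ (k - m)|)) :=
            mul_le_mul_of_nonneg_left (mul_le_mul_of_nonneg_left h5 h7.le) (hq0 s b)
        _ = q s b * (2 ^ s * Fw I k s m b) / 3 ^ (k - m) +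
            q s b * (2 ^ s * |Fw I k s k b - Fw I k s m b / 3 ^ (k - m)|) := by ring
        _ ≤ _ := by
            have h8 := mul_le_mul_of_nonneg_right (hq1 s b)
              (mul_nonneg h7.le h6)
            linarith
    rw [sum_add_distrib, ← mul_sum] at h4
    refine h4.trans (add_le_add le_rfl ?_)
    rw [mul_assoc]
    apply mul_le_mul_of_nonneg_left _ (by positivity)
    exact h3
  refine (sum_le_sum h2).trans ?_
  rw [sum_add_distrib]
  refine add_le_add (le_of_eq ?_) le_rfl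
  -- the coarse term
  have h3 : ∀ s ∈ range (smax + 1),
      ∑ b ∈ Od e (y s), q s b * (2 ^ s * Fw I k s m b) / 3 ^ (k - m) =
      ∑ u ∈ words I m, ∑ v ∈ words I (k - m), if u.sum + v.sum = s then
        (((Od e (y s)).filter fun b => rd u b ∧ b ∈ B s).card : ℝ) / 3 ^ (k - m) else 0 := by
    intro s _
    have h4 : ∀ b ∈ Od e (y s), q s b * (2 ^ s * Fw I k s m b) / 3 ^ (k - m) =
        ∑ u ∈ words I m, ∑ v ∈ words I (k - m),
          if u.sum + v.sum = s then (if rd u b ∧ b ∈ B s then 1 / 3 ^ (k - m) else 0) else 0 := by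
      intro b _
      rw [two_pow_coarse hm, mul_sum, sum_div]
      apply sum_congr rfl
      intro u _
      rw [mul_sum, sum_div]
      apply sum_congr rfl
      intro v _
      rw [hq]
      simp only
      by_cases a1 : u.sum + v.sum = s <;> by_cases a2 : rd u b <;> by_cases a3 : b ∈ B s <;>
        simp [a1, a2, a3]
    rw [sum_congr rfl h4, sum_comm]
    apply sum_congr rfl
    intro u _
    rw [sum_comm]
    apply sum_congr rfl
    intro v _
    split_ifs with h5
    · rw [card_filter]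
      push_cast
      rw [sum_div]
      apply sum_congr rfl
      intro b _
      split_ifs <;> simp
    · simp
  rw [sum_congr rfl h3, sum_comm]
  apply sum_congr rfl
  intro u _
  rw [sum_comm]
  apply sum_congr rfl
  intro v _
  by_cases h5 : u.sum + v.sum ≤ smax
  · rw [if_pos h5, sum_eq_single (u.sum + v.sum)]
    · rw [if_pos rfl]
    · intro s _ hs'
      rw [if_neg (fun h => hs' h.symm)]
    · intro h
      exact absurd (mem_range.2 (Nat.lt_succ_of_le h5)) h
  · rw [if_neg h5]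
    apply sum_eq_zero
    intro s hs'
    rw [mem_range] at hs'
    rw [if_neg (by omega)]

end Pool.Agent.Collatz3.FW
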