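import Mathlib
import Pool.Agent.Collatz3.FWHand

set_option autoImplicit false

/-!
Forward hand-off: the two main inequalities.
-/

namespace Pool.Agent.Collatz3.FW

open Finset Filter
open Pool.Agent.Collatz3.Mix (words mem_words sum_words_zero sum_words_succ sum_words_add)
open Pool.Agent.Collatz3.PD

theorem two_pow_smax (k : ℕ) : (2 : ℝ) ^ (201 * k / 100) ≤ (403 / 100) ^ k := by
  have h : ((2 : ℝ) ^ (201 * k / 100)) ^ 100 ≤ ((403 / 100 : ℝ) ^ k) ^ 100 := by
    calc ((2 : ℝ) ^ (201 * k / 100)) ^ 100 = 2 ^ (201 * k / 100 * 100) := by rw [pow_mul]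
      _ ≤ 2 ^ (201 * k) := pow_le_pow_right₀ (by norm_num) (Nat.div_mul_le_self _ _)
      _ = (2 ^ 201) ^ k := by rw [pow_mul]
      _ ≤ ((403 / 100 : ℝ) ^ 100) ^ k := pow_le_pow_left₀ (by positivity) (by norm_num) _
      _ = ((403 / 100 : ℝ) ^ k) ^ 100 := by rw [← pow_mul, ← pow_mul, mul_comm]
  exact le_of_pow_le_pow_left₀ (by norm_num) (by positivity) h

theorem num_ev : ∀ᶠ k : ℕ in atTop,
    ((5 / 4 : ℝ) ^ k + 2) * 2 ^ (201 * k / 100) * (4 * (k : ℝ) ^ 8) ≤ 2 ^ (3 * k) := by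
  filter_upwards [eventually_pow_div (5038 / 8000) (by norm_num) (by norm_num) 1 8 one_pos
    (1 / 12) (by norm_num)] with k hk
  have h1 := hk k (by omega)
  have h2 := two_pow_smax k
  have h3 : (5 / 4 : ℝ) ^ k + 2 ≤ 3 * (5 / 4) ^ k := by
    have : (1 : ℝ) ≤ (5 / 4) ^ k := one_le_pow₀ (by norm_num)
    linarith
  have h4 : ((5 / 4 : ℝ) ^ k + 2) * 2 ^ (201 * k / 100) ≤ 3 * (5038 / 1000) ^ k := by
    calc ((5 / 4 : ℝ) ^ k + 2) * 2 ^ (201 * k / 100) ≤ (3 * (5 / 4) ^ k) * (403 / 100) ^ k :=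
          mul_le_mul h3 h2 (by positivity) (by positivity)
      _ = 3 * ((5 / 4) * (403 / 100)) ^ k := by rw [mul_pow]; ring
      _ ≤ 3 * (5038 / 1000) ^ k := by
          apply mul_le_mul_of_nonneg_left _ (by norm_num)
          exact pow_le_pow_left₀ (by norm_num) (by norm_num) _
  have h5 : (5038 / 1000 : ℝ) ^ k = (5038 / 8000) ^ k * 2 ^ (3 * k) := by
    rw [pow_mul, ← mul_pow]
    norm_num
  calc ((5 / 4 : ℝ) ^ k + 2) * 2 ^ (201 * k / 100) * (4 * (k : ℝ) ^ 8)
      ≤ 3 * (5038 / 1000) ^ k * (4 * (k : ℝ) ^ 8) := mul_le_mul_of_nonneg_right h4 (by positivity)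
    _ = 12 * ((5038 / 8000) ^ k * (k : ℝ) ^ 8) * 2 ^ (3 * k) := by rw [h5]; ring
    _ ≤ 12 * (1 / 12) * 2 ^ (3 * k) := by
        apply mul_le_mul_of_nonneg_right _ (by positivity)
        exact mul_le_mul_of_nonneg_left h1 (by norm_num)
    _ = 2 ^ (3 * k) := by ring

theorem slack_ev : ∀ᶠ k : ℕ in atTop,
    2 * (5 / 4 : ℝ) ^ k * 2 ^ (201 * (k / 20) / 100) ≤ 2 ^ k := by
  filter_upwards [eventually_pow_div (5 / 6) (by norm_num) (by norm_num) 1 0 one_pos
    (1 / 2) (by norm_num)] with k hk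
  have h1 := hk k (by omega)
  rw [pow_zero, mul_one] at h1
  have h2 : (2 : ℝ) ^ (201 * (k / 20) / 100) ≤ (4 / 3) ^ k := by
    have h : ((2 : ℝ) ^ (201 * (k / 20) / 100)) ^ 9 ≤ ((4 / 3 : ℝ) ^ k) ^ 9 := by
      calc ((2 : ℝ) ^ (201 * (k / 20) / 100)) ^ 9 = 2 ^ (201 * (k / 20) / 100 * 9) := by
            rw [pow_mul]
        _ ≤ 2 ^ k := pow_le_pow_right₀ (by norm_num) (by omega)
        _ ≤ ((4 / 3 : ℝ) ^ 9) ^ k := pow_le_pow_left₀ (by positivity) (by norm_num) _
        _ = ((4 / 3 : ℝ) ^ k) ^ 9 := by rw [← pow_mul, ← pow_mul, mul_comm]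
    exact le_of_pow_le_pow_left₀ (by norm_num) (by positivity) h
  have h3 : (5 / 4 : ℝ) ^ k * (4 / 3) ^ k = (5 / 6) ^ k * 2 ^ k := by
    rw [← mul_pow, ← mul_pow]
    norm_num
  calc 2 * (5 / 4 : ℝ) ^ k * 2 ^ (201 * (k / 20) / 100) ≤ 2 * (5 / 4 : ℝ) ^ k * (4 / 3) ^ k :=
        mul_le_mul_of_nonneg_left h2 (by positivity)
    _ = 2 * (5 / 6) ^ k * 2 ^ k := by rw [mul_assoc, h3]; ring
    _ ≤ 2 * (1 / 2) * 2 ^ k := by
        apply mul_le_mul_of_nonneg_right _ (by positivity)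
        exact mul_le_mul_of_nonneg_left h1 (by norm_num)
    _ = 2 ^ k := by ring

theorem goodV_subset (I N d : ℕ) : goodV I N d ⊆ words I d := filter_subset _ _

theorem badV_subset (I N d : ℕ) : badV I N d ⊆ words I d := filter_subset _ _

theorem sum_words_split (I N d : ℕ) (f : List ℕ → ℝ) :
    ∑ u ∈ words I d, f u = ∑ u ∈ goodV I N d, f u + ∑ u ∈ badV I N d, f u :=
  (sum_filter_add_sum_filter_not _ _ _).symm

/-- The numerical hypotheses. -/
structure Num (k : ℕ) : Prop where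
  big : 1000 ≤ k
  bad : ∀ I d : ℕ, k / 20 ≤ d → d ≤ k → P (badV I k d) ≤ 1 / (k : ℝ) ^ 8
  num : ((5 / 4 : ℝ) ^ k + 2) * 2 ^ (201 * k / 100) * (4 * (k : ℝ) ^ 8) ≤ 2 ^ (3 * k)
  slack : 2 * (5 / 4 : ℝ) ^ k * 2 ^ (201 * (k / 20) / 100) ≤ 2 ^ k
  mix : err (II k) k (k / 20) ≤ 1 / (k : ℝ) ^ 8

theorem num_all : ∀ᶠ k : ℕ in atTop, Num k := by
  filter_upwards [eventually_ge_atTop 1000, bad_small, num_ev, slack_ev,
    err_small mixRate one_pos] with k h1 h2 h3 h4 h5
  exact ⟨h1, h2, h3, h4, h5 k (by omega)⟩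

theorem Num.half {k : ℕ} (h : Num k) {X : ℝ} (hX : 2 ^ (3 * k) ≤ X) :
    ((5 / 4 : ℝ) ^ k + 2) * 2 ^ (201 * k / 100) ≤ X / (4 * (k : ℝ) ^ 8) := by
  have hk : (0 : ℝ) < k := by exact_mod_cast (by have := h.big; omega : 0 < k)
  rw [le_div_iff₀ (by positivity)]
  exact h.num.trans hX

theorem Num.half' {k : ℕ} (h : Num k) {X : ℝ} (hX : 2 ^ (3 * k) ≤ X) :
    ((5 / 4 : ℝ) ^ k + 2) * 2 ^ (201 * k / 100) ≤ X / 2 := by
  have hX0 : (0 : ℝ) ≤ X := le_trans (by positivity) hX
  have hk : (1 : ℝ) ≤ (k : ℝ) ^ 8 := by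
    apply one_le_pow₀
    exact_mod_cast (by have := h.big; omega : 1 ≤ k)
  refine (h.half hX).trans ?_
  apply div_le_div_of_nonneg_left hX0 (by norm_num)
  linarith

open Classical in
/-- The hand-off inequality. -/
theorem handoff {k : ℕ} (hN : Num k) {X : ℝ} (hX : 2 ^ (3 * k) ≤ X) {e : ℤ}
    (he : e = 1 ∨ e = -1) (B C : ℕ → Set ℤ)
    (hlink : ∀ u ∈ goodV (II k) k (k / 20), ∀ (s : ℕ) (b : ℤ), b % 2 = 1 → rd u b →
      b ∈ B (u.sum + s) → en u b ∈ C s) :
    (((Od e X).filter fun n => Hit (goodV (II k) k k) B n).card : ℝ) ≤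
      ∑ v ∈ goodV (II k) k (k - k / 20),
        (((Od e (3 ^ (k - k / 20) * X / 2 ^ v.sum + 2 ^ k)).filter fun n => n ∈ C v.sum).card : ℝ) /
          3 ^ (k - k / 20) + X / (k : ℝ) ^ 7 := by
  have hbig := hN.big
  have hk0 : (0 : ℝ) < k := by exact_mod_cast (by omega : 0 < k)
  have hX0 : (0 : ℝ) < X := lt_of_lt_of_le (by positivity) hX
  obtain ⟨I, hI⟩ : ∃ I, I = II k := ⟨_, rfl⟩
  obtain ⟨m, hm⟩ : ∃ m, m = k / 20 := ⟨_, rfl⟩
  obtain ⟨l, hl⟩ : ∃ l, l = k - k / 20 := ⟨_, rfl⟩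
  obtain ⟨smax, hsmax⟩ : ∃ smax, smax = 201 * k / 100 := ⟨_, rfl⟩
  obtain ⟨K, hK⟩ : ∃ K : ℝ, K = (5 / 4) ^ k := ⟨_, rfl⟩
  have hK0 : 0 < K := by rw [hK]; positivity
  have hmk : m ≤ k := by omega
  have hlm : l = k - m := by omega
  have hlmk : l + m = k := by omega
  have hhalf := hN.half' hX
  rw [← hsmax, ← hK] at hhalf
  rw [← hI, ← hm] at hlink
  rw [← hI, ← hl]
  -- the basic inequality
  have h1 := step1 he (X := X) (K := K) (G := goodV I k k) (k := k)
    (fun w hw => words_length (goodV_subset _ _ _ hw))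
    (fun w hw i hi => ((mem_words.1 (goodV_subset _ _ _ hw)).2 i hi).1)
    (fun w hw => by
      rw [goodV, mem_filter] at hw
      rw [hK]
      exact hw.2.2.2) B
  have h2 := step2 he (I := I) (k := k) (m := m) (smax := smax) hmk
    (y := fun s => 3 ^ k * X / 2 ^ s + K) (G := goodV I k k) (goodV_subset _ _ _)
    (fun w hw => by
      rw [goodV, mem_filter] at hw
      omega) B
  refine (h1.trans h2).trans ?_
  rw [← hlm]
  -- a bound for the counting function of a range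
  have hoc : ∀ s, (oc (3 ^ k * X / 2 ^ s + K) : ℝ) ≤ (3 ^ k * X / 2 ^ s + K + 1) / 2 := fun s =>
    oc_le (by positivity)
  -- the mixing error
  have h3 : ∑ s ∈ range (smax + 1),
      2 ^ s * ((oc (3 ^ k * X / 2 ^ s + K) : ℝ) / 3 ^ k + 1) * Del I k m s ≤ X / (k : ℝ) ^ 8 := by
    have h4 : ∀ s ∈ range (smax + 1),
        2 ^ s * ((oc (3 ^ k * X / 2 ^ s + K) : ℝ) / 3 ^ k + 1) * Del I k m s ≤
          X * Del I k m s := by
      intro s hs
      rw [mem_range] at hs
      apply mul_le_mul_of_nonneg_right _ (sum_nonneg fun _ _ => abs_nonneg _)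
      have h5 := hoc s
      have h6 : (2 : ℝ) ^ s ≤ 2 ^ smax := pow_le_pow_right₀ (by norm_num) (by omega)
      have h7 : (1 : ℝ) ≤ 3 ^ k := one_le_pow₀ (by norm_num)
      have h8 : (oc (3 ^ k * X / 2 ^ s + K) : ℝ) / 3 ^ k ≤
          X / 2 ^ s / 2 + (K + 1) := by
        rw [div_le_iff₀ (by positivity)]
        refine h5.trans ?_
        have e1 : (X / 2 ^ s / 2 + (K + 1)) * 3 ^ k =
          3 ^ k * X / 2 ^ s / 2 + (K + 1) * 3 ^ k := by ring
        rw [e1]
        have h9 : (K + 1) * 1 ≤ (K + 1) * 3 ^ k := mul_le_mul_of_nonneg_left h7 (by positivity)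
        linarith
      calc 2 ^ s * ((oc (3 ^ k * X / 2 ^ s + K) : ℝ) / 3 ^ k + 1)
          ≤ 2 ^ s * (X / 2 ^ s / 2 + (K + 1) + 1) := by
            apply mul_le_mul_of_nonneg_left _ (by positivity)
            linarith
        _ = X / 2 + (K + 2) * 2 ^ s := by
            field_simp
            ring
        _ ≤ X / 2 + (K + 2) * 2 ^ smax := by
            have := mul_le_mul_of_nonneg_left h6 (by positivity : 0 ≤ K + 2)
            linarith
        _ ≤ X := by linarith
    refine (sum_le_sum h4).trans ?_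
    rw [← mul_sum]
    have h5 : ∑ s ∈ range (smax + 1), Del I k m s ≤ err I k m := by
      unfold err
      apply sum_le_sum_of_subset_of_nonneg
      · intro s hs
        rw [mem_range] at hs ⊢
        have h6 : 12 ≤ I := by
          rw [hI]
          unfold II
          have : 1 ≤ Nat.log 2 k := Nat.le_log_of_pow_le (by norm_num) (by omega)
          omega
        have h7 : 12 * k ≤ I * k := Nat.mul_le_mul_right _ h6
        omega
      · intro s _ _
        exact sum_nonneg fun _ _ => abs_nonneg _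
    have h6 := hN.mix
    rw [← hI, ← hm] at h6
    calc X * ∑ s ∈ range (smax + 1), Del I k m s ≤ X * (1 / (k : ℝ) ^ 8) :=
          mul_le_mul_of_nonneg_left (h5.trans h6) hX0.le
      _ = X / (k : ℝ) ^ 8 := by ring
  -- the summand
  obtain ⟨f, hf⟩ : ∃ f : List ℕ → List ℕ → ℝ, f = fun u v => if u.sum + v.sum ≤ smax then
        (((Od e (3 ^ k * X / 2 ^ (u.sum + v.sum) + K)).filter
          fun b => rd u b ∧ b ∈ B (u.sum + v.sum)).card : ℝ) / 3 ^ l else 0 := ⟨_, rfl⟩
  have hfb : ∀ u v, u.length = m → f u v ≤ X * ((1 / 2) ^ u.sum * (1 / 2) ^ v.sum) := by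
    intro u v hu
    rw [hf]
    simp only
    split_ifs with hs
    · have h4 : (((Od e (3 ^ k * X / 2 ^ (u.sum + v.sum) + K)).filter
          fun b => rd u b ∧ b ∈ B (u.sum + v.sum)).card : ℝ) ≤
          (oc (3 ^ k * X / 2 ^ (u.sum + v.sum) + K) : ℝ) / 3 ^ m + 1 := by
        rw [← hu]
        refine le_trans ?_ (card_rd_le he u _)
        have : (Od e (3 ^ k * X / 2 ^ (u.sum + v.sum) + K)).filter
          (fun b => rd u b ∧ b ∈ B (u.sum + v.sum)) ⊆
          (Od e (3 ^ k * X / 2 ^ (u.sum + v.sum) + K)).filter (fun b => rd u b) := by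
          intro b hb
          rw [mem_filter] at hb ⊢
          exact ⟨hb.1, hb.2.1⟩
        exact_mod_cast card_le_card this
      have h5 := hoc (u.sum + v.sum)
      have h6 : (1 : ℝ) ≤ 3 ^ l := one_le_pow₀ (by norm_num)
      have h7 : (1 : ℝ) ≤ 3 ^ m := one_le_pow₀ (by norm_num)
      have h3k : (3 : ℝ) ^ k = 3 ^ l * 3 ^ m := by rw [← pow_add, hlmk]
      have h8 : (oc (3 ^ k * X / 2 ^ (u.sum + v.sum) + K) : ℝ) / 3 ^ m + 1 ≤
          3 ^ l * (X / 2 ^ (u.sum + v.sum) / 2) + (K + 2) := by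
        have h9 : (oc (3 ^ k * X / 2 ^ (u.sum + v.sum) + K) : ℝ) / 3 ^ m ≤
            3 ^ l * (X / 2 ^ (u.sum + v.sum) / 2) + (K + 1) := by
          rw [div_le_iff₀ (by positivity)]
          refine h5.trans ?_
          have e1 : (3 ^ l * (X / 2 ^ (u.sum + v.sum) / 2) + (K + 1)) * 3 ^ m =
            3 ^ k * X / 2 ^ (u.sum + v.sum) / 2 + (K + 1) * 3 ^ m := by
            rw [h3k]
            ring
          rw [e1]
          have h9 : (K + 1) * 1 ≤ (K + 1) * 3 ^ m :=
            mul_le_mul_of_nonneg_left h7 (by positivity)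
          linarith
        linarith
      have h10 : (1 : ℝ) ≤ 2 ^ smax / 2 ^ (u.sum + v.sum) := by
        rw [one_le_div (by positivity)]
        exact pow_le_pow_right₀ (by norm_num) hs
      have h11 : (1 / 2 : ℝ) ^ u.sum * (1 / 2) ^ v.sum = 1 / 2 ^ (u.sum + v.sum) := by
        rw [← pow_add, one_div, inv_pow, one_div]
      rw [div_le_iff₀ (by positivity), h11]
      calc _ ≤ 3 ^ l * (X / 2 ^ (u.sum + v.sum) / 2) + (K + 2) := h4.trans h8
        _ ≤ 3 ^ l * (X / 2 ^ (u.sum + v.sum) / 2) +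
            3 ^ l * ((K + 2) * (2 ^ smax / 2 ^ (u.sum + v.sum))) := by
            have h12 : (K + 2) * 1 ≤ (K + 2) * (2 ^ smax / 2 ^ (u.sum + v.sum)) :=
              mul_le_mul_of_nonneg_left h10 (by positivity)
            have h13 : 1 * ((K + 2) * (2 ^ smax / 2 ^ (u.sum + v.sum))) ≤
              3 ^ l * ((K + 2) * (2 ^ smax / 2 ^ (u.sum + v.sum))) :=
              mul_le_mul_of_nonneg_right h6 (by positivity)
            linarith
        _ = (X / 2 + (K + 2) * 2 ^ smax) / 2 ^ (u.sum + v.sum) * 3 ^ l := by ring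
        _ ≤ (X / 2 + X / 2) / 2 ^ (u.sum + v.sum) * 3 ^ l := by
            apply mul_le_mul_of_nonneg_right _ (by positivity)
            apply div_le_div_of_nonneg_right _ (by positivity)
            linarith
        _ = X * (1 / 2 ^ (u.sum + v.sum)) * 3 ^ l := by ring
    · positivity
  have hbadm : P (badV I k m) ≤ 1 / (k : ℝ) ^ 8 := hN.bad I m (by omega) (by omega)
  have hbadl : P (badV I k l) ≤ 1 / (k : ℝ) ^ 8 := hN.bad I l (by omega) (by omega)
  have hPw : ∀ d, P (words I d) ≤ 1 := by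
    intro d
    rw [P_words]
    exact pow_le_one₀ (Z_nonneg I) (Z_le_one I)
  have hPP : ∀ G G' : Finset (List ℕ), (∀ u ∈ G, u.length = m) →
      ∑ u ∈ G, ∑ v ∈ G', f u v ≤ X * (P G * P G') := by
    intro G G' hG
    have : ∑ u ∈ G, ∑ v ∈ G', f u v ≤
        ∑ u ∈ G, ∑ v ∈ G', X * ((1 / 2) ^ u.sum * (1 / 2) ^ v.sum) :=
      sum_le_sum fun u hu => sum_le_sum fun v _ => hfb u v (hG u hu)
    refine this.trans (le_of_eq ?_)
    unfold P
    rw [sum_mul_sum, mul_sum]
    apply sum_congr rfl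
    intro u _
    rw [mul_sum]
  have hsplit : ∑ u ∈ words I m, ∑ v ∈ words I l, f u v ≤
      ∑ u ∈ goodV I k m, ∑ v ∈ goodV I k l, f u v + 2 * (X / (k : ℝ) ^ 8) := by
    rw [sum_words_split I k m]
    have h4 : ∑ u ∈ goodV I k m, ∑ v ∈ words I l, f u v =
        ∑ u ∈ goodV I k m, ∑ v ∈ goodV I k l, f u v +
          ∑ u ∈ goodV I k m, ∑ v ∈ badV I k l, f u v := by
      rw [← sum_add_distrib]
      apply sum_congr rfl
      intro u _
      exact sum_words_split I k l _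
    have h5 := hPP (goodV I k m) (badV I k l) (fun u hu => words_length (goodV_subset _ _ _ hu))
    have h6 := hPP (badV I k m) (words I l) (fun u hu => words_length (badV_subset _ _ _ hu))
    have h7 : P (goodV I k m) * P (badV I k l) ≤ 1 * (1 / (k : ℝ) ^ 8) :=
      mul_le_mul ((P_mono (goodV_subset _ _ _)).trans (hPw m)) hbadl (P_nonneg _) zero_le_one
    have h8 : P (badV I k m) * P (words I l) ≤ (1 / (k : ℝ) ^ 8) * 1 :=
      mul_le_mul hbadm (hPw l) (P_nonneg _) (by positivity)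
    have h9 := mul_le_mul_of_nonneg_left h7 hX0.le
    have h10 := mul_le_mul_of_nonneg_left h8 hX0.le
    have e1 : X * (1 * (1 / (k : ℝ) ^ 8)) = X / (k : ℝ) ^ 8 := by ring
    have e2 : X * (1 / (k : ℝ) ^ 8 * 1) = X / (k : ℝ) ^ 8 := by ring
    rw [e1] at h9
    rw [e2] at h10
    linarith
  -- the good part
  have hgood : ∑ u ∈ goodV I k m, ∑ v ∈ goodV I k l, f u v ≤
      ∑ v ∈ goodV I k l, (((Od e (3 ^ l * X / 2 ^ v.sum + 2 ^ k)).filter
        fun n => n ∈ C v.sum).card : ℝ) / 3 ^ l := by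
    rw [sum_comm]
    apply sum_le_sum
    intro v _
    have h4 : ∀ u ∈ goodV I k m, f u v ≤
        (((Od e (3 ^ k * X / 2 ^ (u.sum + v.sum) + K)).filter
          fun b => rd u b ∧ b ∈ B (u.sum + v.sum)).card : ℝ) / 3 ^ l := by
      intro u _
      rw [hf]
      simp only
      split_ifs
      · exact le_rfl
      · positivity
    refine (sum_le_sum h4).trans ?_
    rw [← sum_div]
    apply div_le_div_of_nonneg_right _ (by positivity)
    have h5 : ((goodV I k m).sigma fun u => (Od e (3 ^ k * X / 2 ^ (u.sum + v.sum) + K)).filter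
          fun b => rd u b ∧ b ∈ B (u.sum + v.sum)).card ≤
        ((Od e (3 ^ l * X / 2 ^ v.sum + 2 ^ k)).filter fun n => n ∈ C v.sum).card := by
      apply card_le_card_of_injOn (fun p => en p.1 p.2)
      · rintro ⟨u, b⟩ hp
        rw [mem_coe, mem_sigma, mem_filter, mem_Od he] at hp
        obtain ⟨hu, ⟨hb1, hb2, hb3⟩, hb4, hb5⟩ := hp
        simp only at hu hb1 hb2 hb3 hb4 hb5 ⊢
        rw [mem_coe, mem_filter, mem_Od he]
        have hpos : ∀ i ∈ u, 1 ≤ i := fun i hi =>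
          ((mem_words.1 (goodV_subset _ _ _ hu)).2 i hi).1
        have hlen := words_length (goodV_subset _ _ _ hu)
        refine ⟨⟨en_odd hb4 hpos hb1, ?_, ?_⟩, ?_⟩
        · have hb0 : b ≠ 0 := by rintro rfl; norm_num at hb1
          have h6 := en_sign hb4 hb0 hpos
          rcases he with h' | h' <;> rw [h'] at hb2 ⊢ <;> nlinarith
        · rw [goodV, mem_filter] at hu
          obtain ⟨-, hu1, hu2, hu3⟩ := hu
          have h6 := en_spec hb4
          have h7 : (3 : ℤ) ^ u.length * (e * en u b) = 2 ^ u.sum * (e * b) - e * cw u := by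
            linear_combination e * h6
          have h8 : (3 : ℝ) ^ u.length * ((e * en u b : ℤ) : ℝ) =
              2 ^ u.sum * ((e * b : ℤ) : ℝ) - (e : ℝ) * cw u := by exact_mod_cast h7
          rw [hlen] at h8
          have h9 : -((e : ℝ) * cw u) ≤ K * 2 ^ u.sum := by
            have h10 : (0 : ℝ) ≤ cw u := Nat.cast_nonneg _
            rw [hK]
            rcases he with h' | h' <;> rw [h']
            · push_cast
              linarith
            · push_cast
              linarith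
          have h10 : (2 : ℝ) ^ u.sum * ((e * b : ℤ) : ℝ) ≤
              2 ^ u.sum * (3 ^ k * X / 2 ^ (u.sum + v.sum) + K) :=
            mul_le_mul_of_nonneg_left hb3 (by positivity)
          have h11 : (2 : ℝ) ^ u.sum * (3 ^ k * X / 2 ^ (u.sum + v.sum) + K) =
              3 ^ m * (3 ^ l * X / 2 ^ v.sum) + K * 2 ^ u.sum := by
            have h3k : (3 : ℝ) ^ k = 3 ^ l * 3 ^ m := by rw [← pow_add, hlmk]
            rw [h3k, pow_add]
            field_simp
          have h12 : (2 : ℝ) ^ u.sum ≤ 2 ^ (201 * (k / 20) / 100) := by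
            apply pow_le_pow_right₀ (by norm_num)
            rw [← hm]
            omega
          have h13 : 2 * K * 2 ^ u.sum ≤ 2 ^ k := by
            refine le_trans ?_ hN.slack
            rw [← hK]
            exact mul_le_mul_of_nonneg_left h12 (by positivity)
          have h14 : (1 : ℝ) ≤ 3 ^ m := one_le_pow₀ (by norm_num)
          have h15 : (3 : ℝ) ^ m * ((e * en u b : ℤ) : ℝ) ≤
              3 ^ m * (3 ^ l * X / 2 ^ v.sum + 2 ^ k) := by
            rw [mul_add]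
            have h16 : (1 : ℝ) * 2 ^ k ≤ 3 ^ m * 2 ^ k :=
              mul_le_mul_of_nonneg_right h14 (by positivity)
            linarith
          exact le_of_mul_le_mul_left h15 (by positivity)
        · exact hlink u hu v.sum b hb1 hb4 hb5
      · rintro ⟨u, b⟩ hp ⟨u', b'⟩ hp' h
        rw [mem_coe, mem_sigma, mem_filter, mem_Od he] at hp hp'
        obtain ⟨hu, ⟨hb1, -, -⟩, hb4, -⟩ := hp
        obtain ⟨hu', ⟨hb1', -, -⟩, hb4', -⟩ := hp'
        simp only at hu hb1 hb4 hu' hb1' hb4' h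
        obtain ⟨h6, h7⟩ := pair_inj m u u' b b' (words_length (goodV_subset _ _ _ hu))
          (words_length (goodV_subset _ _ _ hu'))
          (fun i hi => ((mem_words.1 (goodV_subset _ _ _ hu)).2 i hi).1)
          (fun i hi => ((mem_words.1 (goodV_subset _ _ _ hu')).2 i hi).1) hb1 hb1' hb4 hb4' h
        subst h6 h7
        rfl
    rw [card_sigma] at h5
    exact_mod_cast h5
  have e1 : ∑ u ∈ words I m, ∑ v ∈ words I l, (if u.sum + v.sum ≤ smax then
        (((Od e (3 ^ k * X / 2 ^ (u.sum + v.sum) + K)).filter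
          fun b => rd u b ∧ b ∈ B (u.sum + v.sum)).card : ℝ) / 3 ^ l else 0) =
      ∑ u ∈ words I m, ∑ v ∈ words I l, f u v := by
    rw [hf]
  rw [e1]
  have h9 : 3 * (X / (k : ℝ) ^ 8) ≤ X / (k : ℝ) ^ 7 := by
    rw [pow_succ (k : ℝ) 7, ← div_div, ← mul_div_assoc]
    rw [div_le_iff₀ hk0]
    have h10 : (3 : ℝ) ≤ k := by exact_mod_cast (by omega : 3 ≤ k)
    have h11 : 0 ≤ X / (k : ℝ) ^ 7 := by positivity
    nlinarith
  linarith

end Pool.Agent.Collatz3.FW
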