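import Mathlib
import Pool.Agent.Collatz3.FWMain

set_option autoImplicit false

/-!
Forward hand-off: typicality of the first letters.
-/

namespace Pool.Agent.Collatz3.FW

open Finset Filter
open Pool.Agent.Collatz3.Mix (words mem_words sum_words_zero sum_words_succ sum_words_add)
open Pool.Agent.Collatz3.PD

open Classical in
theorem hit_count {e : ℤ} (he : e = 1 ∨ e = -1) {I k : ℕ} (hk : 1 ≤ k) {G : Finset (List ℕ)}
    (hG : G ⊆ words I k) (X : ℝ) :
    X / 2 * P G - G.card ≤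
      (((Od e X).filter fun n => Hit G (fun _ => Set.univ) n).card : ℝ) := by
  have hpos : ∀ w ∈ G, ∀ i ∈ w, 1 ≤ i := fun w hw i hi => ((mem_words.1 (hG hw)).2 i hi).1
  have hlen : ∀ w ∈ G, w.length = k := fun w hw => words_length (hG hw)
  have h1 : (G.biUnion fun w =>
      (Od e X).filter fun n => ∃ b, b % 2 = 1 ∧ rd w b ∧ en w b = n) ⊆
      (Od e X).filter fun n => Hit G (fun _ => Set.univ) n := by
    intro n hn
    rw [mem_biUnion] at hn
    obtain ⟨w, hw, hn⟩ := hn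
    rw [mem_filter] at hn ⊢
    obtain ⟨hn1, b, hb1, hb2, hb3⟩ := hn
    exact ⟨hn1, w, hw, b, hb1, hb2, hb3, Set.mem_univ _⟩
  have h2 := card_le_card h1
  rw [card_biUnion] at h2
  · have h3 : ∑ w ∈ G, (X / 2 ^ (w.sum + 1) - 1) ≤ ∑ w ∈ G,
        (((Od e X).filter fun n => ∃ b, b % 2 = 1 ∧ rd w b ∧ en w b = n).card : ℝ) := by
      apply sum_le_sum
      intro w hw
      exact word_count_ge he (hpos w hw) (by
        rintro rfl
        have := hlen _ hw
        simp at this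
        omega) X
    have h4 : ∑ w ∈ G, (X / 2 ^ (w.sum + 1) - 1) = X / 2 * P G - G.card := by
      rw [sum_sub_distrib, sum_const, nsmul_eq_mul, mul_one]
      congr 1
      unfold P
      rw [mul_sum]
      apply sum_congr rfl
      intro w _
      rw [one_div, inv_pow, pow_succ]
      field_simp
    rw [← h4]
    refine h3.trans ?_
    exact_mod_cast h2
  · intro w hw w' hw' hne
    rw [Function.onFun, disjoint_left]
    intro n hn hn'
    rw [mem_filter] at hn hn'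
    obtain ⟨-, b, hb1, hb2, hb3⟩ := hn
    obtain ⟨-, b', hb1', hb2', hb3'⟩ := hn'
    exact hne (pair_inj k w w' b b' (hlen w hw) (hlen w' hw') (hpos w hw) (hpos w' hw') hb1 hb1'
      hb2 hb2' (by rw [hb3, hb3'])).1

theorem P_good_ge {k : ℕ} (hN : Num k) {d : ℕ} (hd : k / 20 ≤ d) (hdk : d ≤ k) :
    1 - 2 / (k : ℝ) ^ 8 ≤ P (goodV (II k) k d) := by
  have hbig := hN.big
  have hk : (1000 : ℝ) ≤ k := by exact_mod_cast hbig
  have h1 := sum_words_split (II k) k d (fun w => (1 / 2 : ℝ) ^ w.sum)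
  have h2 := P_words (II k) d
  have h3 := hN.bad (II k) d hd hdk
  have h4 := one_sub_Z_pow (II k) d
  have h5 : (d : ℝ) * (1 / 2) ^ (II k) ≤ 1 / (k : ℝ) ^ 8 := by
    have h6 : (d : ℝ) ≤ k := by exact_mod_cast hdk
    have h7 : (d : ℝ) * (1 / 2) ^ (II k) ≤ k * (2 / k) ^ 12 :=
      mul_le_mul h6 (half_pow_II (by omega)) (by positivity) (by linarith)
    refine h7.trans ?_
    rw [div_pow, ← mul_div_assoc, div_le_div_iff₀ (by positivity) (by positivity)]
    have h8 : (2 : ℝ) ^ 12 ≤ (k : ℝ) ^ 3 := by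
      calc (2 : ℝ) ^ 12 ≤ 1000 ^ 3 := by norm_num
        _ ≤ (k : ℝ) ^ 3 := pow_le_pow_left₀ (by norm_num) hk 3
    calc (k : ℝ) * 2 ^ 12 * (k : ℝ) ^ 8 = 2 ^ 12 * (k : ℝ) ^ 9 := by ring
      _ ≤ (k : ℝ) ^ 3 * (k : ℝ) ^ 9 := mul_le_mul_of_nonneg_right h8 (by positivity)
      _ = 1 * (k : ℝ) ^ 12 := by ring
  unfold P at h2 h3 ⊢
  rw [h1] at h2
  have h6 : (2 : ℝ) / (k : ℝ) ^ 8 = 1 / (k : ℝ) ^ 8 + 1 / (k : ℝ) ^ 8 := by ring
  rw [h6]
  linarith

open Classical in
/-- All but few odd integers have a good first block. -/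
theorem typical {k : ℕ} (hN : Num k) {X : ℝ} (hX : 2 ^ (3 * k) ≤ X) {e : ℤ}
    (he : e = 1 ∨ e = -1) :
    (((Od e X).filter fun n => ¬ Hit (goodV (II k) k k) (fun _ => Set.univ) n).card : ℝ) ≤
      X / (k : ℝ) ^ 7 := by
  have hbig := hN.big
  have hk : (1000 : ℝ) ≤ k := by exact_mod_cast hbig
  have hX0 : (0 : ℝ) < X := lt_of_lt_of_le (by positivity) hX
  have h1 := hit_count he (by omega : 1 ≤ k) (goodV_subset (II k) k k) X
  have h2 : (((Od e X).filter fun n => Hit (goodV (II k) k k) (fun _ => Set.univ) n).card : ℝ) +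
      (((Od e X).filter fun n => ¬ Hit (goodV (II k) k k) (fun _ => Set.univ) n).card : ℝ) =
        oc X := by
    rw [← card_Od he X]
    exact_mod_cast card_filter_add_card_filter_not _
  have h3 := oc_le hX0.le
  have h4 := P_good_ge hN (by omega : k / 20 ≤ k) le_rfl
  have h5 := mul_le_mul_of_nonneg_left h4 (by linarith : 0 ≤ X / 2)
  have h6 : ((goodV (II k) k k).card : ℝ) ≤ 2 ^ (201 * k / 100) := by
    apply card_words_le (goodV_subset (II k) k k)
    intro w hw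
    rw [goodV, mem_filter] at hw
    omega
  have h7 := hN.half hX
  have h8 : (1 : ℝ) ≤ 2 ^ (201 * k / 100) := one_le_pow₀ (by norm_num)
  have h9 : (1 : ℝ) ≤ (5 / 4) ^ k := one_le_pow₀ (by norm_num)
  have h10 : 2 * (2 : ℝ) ^ (201 * k / 100) ≤ ((5 / 4 : ℝ) ^ k + 2) * 2 ^ (201 * k / 100) :=
    mul_le_mul_of_nonneg_right (by linarith) (by positivity)
  have h11 : X / (4 * (k : ℝ) ^ 8) = X / (k : ℝ) ^ 8 / 4 := by
    rw [mul_comm, ← div_div]
  have h12 : X / 2 * (1 - 2 / (k : ℝ) ^ 8) = X / 2 - X / (k : ℝ) ^ 8 := by ring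
  have h13 : 2 * (X / (k : ℝ) ^ 8) ≤ X / (k : ℝ) ^ 7 := by
    rw [pow_succ (k : ℝ) 7, ← div_div, ← mul_div_assoc, div_le_iff₀ (by linarith)]
    have h14 : 0 ≤ X / (k : ℝ) ^ 7 := by positivity
    nlinarith
  rw [h12] at h5
  rw [h11] at h7
  have h15 : 0 ≤ X / (k : ℝ) ^ 8 := by positivity
  linarith

end Pool.Agent.Collatz3.FW
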