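import Mathlib
import Pool.Agent.Collatz3.FWTyp

set_option autoImplicit false

/-!
Forward hand-off: one stage, with weights.
-/

namespace Pool.Agent.Collatz3.FW

open Finset Filter
open Pool.Agent.Collatz3.Mix (words mem_words sum_words_zero sum_words_succ sum_words_add)
open Pool.Agent.Collatz3.PD

theorem two_pow_div_le (k : ℕ) {d : ℕ} (hd : d ≤ k) :
    (2 : ℝ) ^ (201 * d / 100) ≤ (403 / 100) ^ k := by
  refine le_trans ?_ (two_pow_smax k)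
  exact pow_le_pow_right₀ (by norm_num) (Nat.div_le_div_right (Nat.mul_le_mul_left _ hd))

theorem three_pow_ge (k : ℕ) : (283 / 100 : ℝ) ^ k ≤ 3 ^ (k - k / 20) := by
  have h : ((283 / 100 : ℝ) ^ k) ^ 20 ≤ ((3 : ℝ) ^ (k - k / 20)) ^ 20 := by
    calc ((283 / 100 : ℝ) ^ k) ^ 20 = ((283 / 100 : ℝ) ^ 20) ^ k := by
          rw [← pow_mul, ← pow_mul, mul_comm]
      _ ≤ (3 ^ 19) ^ k := pow_le_pow_left₀ (by norm_num) (by norm_num) _
      _ = 3 ^ (19 * k) := by rw [← pow_mul]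
      _ ≤ 3 ^ ((k - k / 20) * 20) := pow_le_pow_right₀ (by norm_num) (by omega)
      _ = ((3 : ℝ) ^ (k - k / 20)) ^ 20 := by rw [pow_mul]
  exact le_of_pow_le_pow_left₀ (by norm_num) (by positivity) h

theorem card_goodV_le (I N : ℕ) (d : ℕ) : ((goodV I N d).card : ℝ) ≤ 2 ^ (201 * d / 100) := by
  apply card_words_le (goodV_subset I N d)
  intro w hw
  rw [goodV, mem_filter] at hw
  omega

theorem stage_ev : ∀ᶠ k : ℕ in atTop,
    (403 / 100 : ℝ) ^ k * 2 ^ k * (k : ℝ) ^ 7 ≤ 2 ^ (4 * k) := by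
  filter_upwards [eventually_pow_div (806 / 1600) (by norm_num) (by norm_num) 1 7 one_pos
    1 one_pos] with k hk
  have h1 := hk k (by omega)
  have h2 : (2 : ℝ) ^ (4 * k) = 16 ^ k := by rw [pow_mul]; norm_num
  have h3 : (403 / 100 : ℝ) ^ k * 2 ^ k = (806 / 1600) ^ k * 16 ^ k := by
    rw [← mul_pow, ← mul_pow]
    norm_num
  rw [h2, h3]
  calc (806 / 1600 : ℝ) ^ k * 16 ^ k * (k : ℝ) ^ 7 = ((806 / 1600) ^ k * (k : ℝ) ^ 7) * 16 ^ k := by
        ring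
    _ ≤ 1 * 16 ^ k := mul_le_mul_of_nonneg_right h1 (by positivity)
    _ = 16 ^ k := one_mul _

open Classical in
/-- One stage, with weights. -/
theorem stage {k : ℕ} (hN : Num k)
    (hE : (403 / 100 : ℝ) ^ k * 2 ^ k * (k : ℝ) ^ 7 ≤ 2 ^ (4 * k)) {X : ℝ}
    (hX : 2 ^ (4 * k) ≤ X) {e : ℤ} (he : e = 1 ∨ e = -1) (B C : ℕ → Set ℤ)
    (hlink : ∀ u ∈ goodV (II k) k (k / 20), ∀ (s : ℕ) (b : ℤ), b % 2 = 1 → rd u b →
      b ∈ B (u.sum + s) → en u b ∈ C s) (a : List ℕ → ℝ)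
    (ha1 : ∀ v, a v ≤ 1) {Y : ℝ} (hY0 : 0 ≤ Y)
    (hY : Y * 2 ^ (201 * (k - k / 20) / 100) / 3 ^ (k - k / 20) ≤ X / (k : ℝ) ^ 7)
    (hb : ∀ v ∈ goodV (II k) k (k - k / 20),
      (((Od e (3 ^ (k - k / 20) * X / 2 ^ v.sum + 2 ^ k)).filter
        fun n => n ∈ C v.sum).card : ℝ) ≤
        a v * ((3 ^ (k - k / 20) * X / 2 ^ v.sum + 2 ^ k) / 2) + Y) :
    (((Od e X).filter fun n => Hit (goodV (II k) k k) B n).card : ℝ) ≤
      X / 2 * ∑ v ∈ goodV (II k) k (k - k / 20), (1 / 2) ^ v.sum * a v +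
        3 * (X / (k : ℝ) ^ 7) := by
  have hbig := hN.big
  have hk0 : (0 : ℝ) < k := by exact_mod_cast (by omega : 0 < k)
  have hX0 : (0 : ℝ) < X := lt_of_lt_of_le (by positivity) hX
  have hX3 : (2 : ℝ) ^ (3 * k) ≤ X :=
    (pow_le_pow_right₀ (by norm_num) (by omega)).trans hX
  have h1 := handoff hN hX3 he B C hlink
  obtain ⟨G, hG⟩ : ∃ G, G = goodV (II k) k (k - k / 20) := ⟨_, rfl⟩
  have hcard := card_goodV_le (II k) k (k - k / 20)
  rw [← hG] at h1 hb hcard ⊢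
  obtain ⟨l, hl⟩ : ∃ l, l = k - k / 20 := ⟨_, rfl⟩
  rw [← hl] at h1 hb hcard hY
  have h3l : (1 : ℝ) ≤ 3 ^ l := one_le_pow₀ (by norm_num)
  have h2 : ∑ v ∈ G, (((Od e (3 ^ l * X / 2 ^ v.sum + 2 ^ k)).filter
        fun n => n ∈ C v.sum).card : ℝ) / 3 ^ l ≤
      ∑ v ∈ G, (X / 2 * ((1 / 2) ^ v.sum * a v) + (2 ^ k + Y / 3 ^ l)) := by
    apply sum_le_sum
    intro v hv
    have h3 := div_le_div_of_nonneg_right (hb v hv) (by positivity : (0 : ℝ) ≤ 3 ^ l)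
    refine h3.trans ?_
    have h4 : (a v * ((3 ^ l * X / 2 ^ v.sum + 2 ^ k) / 2) + Y) / 3 ^ l =
        X / 2 * ((1 / 2) ^ v.sum * a v) + (a v * (2 ^ k / 2) / 3 ^ l + Y / 3 ^ l) := by
      rw [one_div, inv_pow]
      field_simp
      ring
    rw [h4]
    have h5 : a v * (2 ^ k / 2) / 3 ^ l ≤ 2 ^ k := by
      rw [div_le_iff₀ (by positivity)]
      have h6 : (2 : ℝ) ^ k * 1 ≤ 2 ^ k * 3 ^ l := mul_le_mul_of_nonneg_left h3l (by positivity)
      have h7 : a v * (2 ^ k / 2) ≤ 1 * (2 ^ k / 2 : ℝ) :=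
        mul_le_mul_of_nonneg_right (ha1 v) (by positivity)
      have h8 : (0 : ℝ) < 2 ^ k := by positivity
      linarith
    linarith
  rw [sum_add_distrib, ← mul_sum, sum_const, nsmul_eq_mul] at h2
  have h3 : (G.card : ℝ) * (2 ^ k + Y / 3 ^ l) ≤ 2 * (X / (k : ℝ) ^ 7) := by
    have h4 : (G.card : ℝ) * (2 ^ k + Y / 3 ^ l) ≤
        2 ^ (201 * l / 100) * (2 ^ k + Y / 3 ^ l) :=
      mul_le_mul_of_nonneg_right hcard (by positivity)
    have h5 : (2 : ℝ) ^ (201 * l / 100) * 2 ^ k ≤ X / (k : ℝ) ^ 7 := by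
      rw [le_div_iff₀ (by positivity)]
      refine le_trans ?_ (hE.trans hX)
      apply mul_le_mul_of_nonneg_right _ (by positivity)
      exact mul_le_mul_of_nonneg_right (two_pow_div_le k (by omega)) (by positivity)
    have h6 : (2 : ℝ) ^ (201 * l / 100) * (2 ^ k + Y / 3 ^ l) =
        2 ^ (201 * l / 100) * 2 ^ k + Y * 2 ^ (201 * l / 100) / 3 ^ l := by ring
    rw [h6] at h4
    linarith
  linarith

end Pool.Agent.Collatz3.FW
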