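import Mathlib
import Pool.Agent.Collatz3.PDProb

set_option autoImplicit false

/-!
Forward hand-off: explicit Chernoff bounds for the sum of the letters.
-/

namespace Pool.Agent.Collatz3.FW

open Finset Filter
open Pool.Agent.Collatz3.Mix (words mem_words sum_words_zero sum_words_succ sum_words_add)
open Pool.Agent.Collatz3.PD

/-- Chernoff bound, general form. -/
theorem chernoff (I d : ℕ) (c s : ℝ) (hs : Real.exp s / 2 < 1) (Q : List ℕ → Prop)
    [DecidablePred Q] (hQ : ∀ w, Q w → c * d ≤ s * w.sum) :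
    P ((words I d).filter Q) ≤ (Real.exp (-c) * (Real.exp s / (2 - Real.exp s))) ^ d := by
  have h1 : P ((words I d).filter Q) ≤
      ∑ w ∈ words I d, Real.exp (-c) ^ d * (Real.exp s / 2) ^ w.sum := by
    unfold P
    have h2 : ∀ w ∈ (words I d).filter Q, (1 / 2 : ℝ) ^ w.sum ≤
        Real.exp (-c) ^ d * (Real.exp s / 2) ^ w.sum := by
      intro w hw
      rw [mem_filter] at hw
      have h3 := hQ w hw.2
      have h4 : (1 : ℝ) ≤ Real.exp (-c) ^ d * Real.exp s ^ w.sum := by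
        rw [← Real.exp_nat_mul, ← Real.exp_nat_mul, ← Real.exp_add]
        apply Real.one_le_exp
        linarith
      calc (1 / 2 : ℝ) ^ w.sum = 1 * (1 / 2) ^ w.sum := by ring
        _ ≤ (Real.exp (-c) ^ d * Real.exp s ^ w.sum) * (1 / 2) ^ w.sum :=
          mul_le_mul_of_nonneg_right h4 (by positivity)
        _ = Real.exp (-c) ^ d * (Real.exp s / 2) ^ w.sum := by
          rw [mul_assoc, ← mul_pow]
          ring
    refine (sum_le_sum h2).trans ?_
    apply sum_le_sum_of_subset_of_nonneg (filter_subset _ _)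
    intro w _ _
    positivity
  refine h1.trans ?_
  rw [← mul_sum, sum_pow_words, mul_pow]
  apply mul_le_mul_of_nonneg_left _ (by positivity)
  apply pow_le_pow_left₀ (sum_nonneg fun _ _ => by positivity)
  refine (geom_le I (by positivity) hs).trans (le_of_eq ?_)
  have h5 : (1 : ℝ) - Real.exp s / 2 = (2 - Real.exp s) / 2 := by ring
  rw [h5]
  have h6 : (0 : ℝ) < 2 - Real.exp s := by linarith
  field_simp

theorem lower_dev {δ : ℝ} (h0 : 0 < δ) (h1 : δ ≤ 1) (I d : ℕ) :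
    P ((words I d).filter fun w => (w.sum : ℝ) ≤ (2 - δ) * d) ≤
      Real.exp (-(δ ^ 2 / 16) * d) := by
  obtain ⟨s, hs⟩ : ∃ s, s = δ / 8 := ⟨_, rfl⟩
  have hs0 : 0 < s := by rw [hs]; positivity
  have hs1 : s ≤ 1 / 8 := by rw [hs]; linarith
  have hδ : δ = 8 * s := by rw [hs]; ring
  have e1 : Real.exp (-s) = (Real.exp s)⁻¹ := Real.exp_neg s
  have e2 : 1 + s + s ^ 2 / 2 ≤ Real.exp s := Real.quadratic_le_exp_of_nonneg hs0.le
  have hp : 0 < Real.exp s := Real.exp_pos s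
  have h2 := chernoff I d (-((2 - δ) * s)) (-s) (by
    rw [e1]
    have : (Real.exp s)⁻¹ ≤ 1 := inv_le_one_of_one_le₀ (by nlinarith)
    linarith) (fun w => (w.sum : ℝ) ≤ (2 - δ) * d) (fun w hw => by
      have := mul_le_mul_of_nonneg_left hw hs0.le
      linarith)
  refine h2.trans ?_
  rw [mul_comm (-(δ ^ 2 / 16)), Real.exp_nat_mul]
  have h3 : (0 : ℝ) < 2 - Real.exp (-s) := by
    rw [e1]
    have : (Real.exp s)⁻¹ ≤ 1 := inv_le_one_of_one_le₀ (by nlinarith)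
    linarith
  apply pow_le_pow_left₀ (by positivity)
  rw [neg_neg, e1]
  have h4 : (Real.exp s)⁻¹ / (2 - (Real.exp s)⁻¹) = 1 / (2 * Real.exp s - 1) := by
    field_simp
  rw [h4, ← mul_div_assoc, mul_one, div_le_iff₀ (by nlinarith)]
  have h5 : Real.exp ((2 - δ) * s) = Real.exp (-(δ ^ 2 / 16)) * Real.exp (2 * (s - 2 * s ^ 2)) := by
    rw [← Real.exp_add]
    congr 1
    rw [hδ]
    ring
  rw [h5]
  apply mul_le_mul_of_nonneg_left _ (Real.exp_pos _).le
  have h6 : Real.exp (s - 2 * s ^ 2) ≤ 1 + s := by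
    have h7 : 1 - (s - 2 * s ^ 2) ≤ Real.exp (-(s - 2 * s ^ 2)) := Real.one_sub_le_exp_neg _
    rw [Real.exp_neg] at h7
    have h8 := Real.exp_pos (s - 2 * s ^ 2)
    have h9 : (1 - (s - 2 * s ^ 2)) * Real.exp (s - 2 * s ^ 2) ≤ 1 := by
      calc _ ≤ (Real.exp (s - 2 * s ^ 2))⁻¹ * Real.exp (s - 2 * s ^ 2) :=
            mul_le_mul_of_nonneg_right h7 h8.le
        _ = 1 := inv_mul_cancel₀ h8.ne'
    have h10 : 1 ≤ (1 - (s - 2 * s ^ 2)) * (1 + s) := by nlinarith [pow_pos hs0 3, pow_pos hs0 2]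
    have h11 : 0 < 1 - (s - 2 * s ^ 2) := by nlinarith
    have h12 : (1 - (s - 2 * s ^ 2)) * Real.exp (s - 2 * s ^ 2) ≤
      (1 - (s - 2 * s ^ 2)) * (1 + s) := h9.trans h10
    exact le_of_mul_le_mul_left h12 h11
  have h7 : Real.exp (2 * (s - 2 * s ^ 2)) = Real.exp (s - 2 * s ^ 2) ^ 2 := by
    rw [← Real.exp_nat_mul]
    push_cast
    rfl
  rw [h7]
  calc Real.exp (s - 2 * s ^ 2) ^ 2 ≤ (1 + s) ^ 2 :=
        pow_le_pow_left₀ (Real.exp_pos _).le h6 2
    _ ≤ 2 * Real.exp s - 1 := by linarith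

theorem upper_dev {δ : ℝ} (h0 : 0 < δ) (h1 : δ ≤ 1) (I d : ℕ) :
    P ((words I d).filter fun w => (2 + δ) * d ≤ (w.sum : ℝ)) ≤
      Real.exp (-(δ ^ 2 / 16) * d) := by
  obtain ⟨s, hs⟩ : ∃ s, s = δ / 8 := ⟨_, rfl⟩
  have hs0 : 0 < s := by rw [hs]; positivity
  have hs1 : s ≤ 1 / 8 := by rw [hs]; linarith
  have hδ : δ = 8 * s := by rw [hs]; ring
  have hp : 0 < Real.exp s := Real.exp_pos s
  have e2 : Real.exp s ≤ 1 + s + 8 / 7 * s ^ 2 := by
    have h7 : 1 - s ≤ Real.exp (-s) := Real.one_sub_le_exp_neg _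
    rw [Real.exp_neg] at h7
    have h9 : (1 - s) * Real.exp s ≤ 1 := by
      calc _ ≤ (Real.exp s)⁻¹ * Real.exp s := mul_le_mul_of_nonneg_right h7 hp.le
        _ = 1 := inv_mul_cancel₀ hp.ne'
    have h10 : 1 ≤ (1 - s) * (1 + s + 8 / 7 * s ^ 2) := by nlinarith [pow_pos hs0 2]
    exact le_of_mul_le_mul_left (h9.trans h10) (by linarith)
  have h3 : 0 < 2 - Real.exp s := by nlinarith
  have h2 := chernoff I d ((2 + δ) * s) s (by linarith)
    (fun w => (2 + δ) * d ≤ (w.sum : ℝ)) (fun w hw => by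
      have := mul_le_mul_of_nonneg_left hw hs0.le
      linarith)
  refine h2.trans ?_
  rw [mul_comm (-(δ ^ 2 / 16)), Real.exp_nat_mul]
  apply pow_le_pow_left₀ (by positivity)
  rw [← mul_div_assoc, ← Real.exp_add, div_le_iff₀ h3]
  have h5 : Real.exp (-((2 + δ) * s) + s) =
      Real.exp (-(δ ^ 2 / 16)) * Real.exp (-(s + 4 * s ^ 2)) := by
    rw [← Real.exp_add]
    congr 1
    rw [hδ]
    ring
  rw [h5]
  apply mul_le_mul_of_nonneg_left _ (Real.exp_pos _).le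
  obtain ⟨y, hy⟩ : ∃ y, y = s + 4 * s ^ 2 := ⟨_, rfl⟩
  rw [← hy]
  have hy0 : 0 ≤ y := by rw [hy]; positivity
  have h6 : 1 + y + y ^ 2 / 2 ≤ Real.exp y := Real.quadratic_le_exp_of_nonneg hy0
  rw [Real.exp_neg, inv_eq_one_div, div_le_iff₀ (Real.exp_pos y)]
  have h7 : 1 ≤ (1 - s - 8 / 7 * s ^ 2) * (1 + y + y ^ 2 / 2) := by
    rw [hy]
    have h8 : 0 < s ^ 2 := by positivity
    have h9 : s ^ 3 ≤ s ^ 2 / 8 := by nlinarith
    have h10 : 0 < s ^ 3 := by positivity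
    have h11 : s ^ 4 ≤ s ^ 3 / 8 := by nlinarith
    have h12 : 0 < s ^ 4 := by positivity
    have h13 : s ^ 5 ≤ s ^ 4 / 8 := by nlinarith
    have h14 : 0 < s ^ 5 := by positivity
    have h15 : s ^ 6 ≤ s ^ 5 / 8 := by nlinarith
    nlinarith
  have h8 : 0 ≤ 1 - s - 8 / 7 * s ^ 2 := by nlinarith
  calc (1 : ℝ) ≤ (1 - s - 8 / 7 * s ^ 2) * (1 + y + y ^ 2 / 2) := h7
    _ ≤ (1 - s - 8 / 7 * s ^ 2) * Real.exp y := mul_le_mul_of_nonneg_left h6 h8
    _ ≤ (2 - Real.exp s) * Real.exp y := by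
        apply mul_le_mul_of_nonneg_right _ (Real.exp_pos y).le
        linarith

end Pool.Agent.Collatz3.FW
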