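import Mathlib
import Pool.Agent.Collatz3.FWStage
import Pool.Agent.Collatz3.FWTail

set_option autoImplicit false

/-!
Forward hand-off: the passage time, definitions and numerical facts.
-/

namespace Pool.Agent.Collatz3.FW

open Finset Filter Topology
open Pool.Agent.Collatz3.Mix (words mem_words sum_words_zero sum_words_succ sum_words_add)
open Pool.Agent.Collatz3.PD
open Pool.Agent.Helper14 (T)

/-- The constant `2 / log (4 / 3)`. -/
noncomputable def gam : ℝ := 2 / Real.log (4 / 3)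

theorem log_four_thirds : Real.log (4 / 3) = 2 * Real.log 2 - Real.log 3 := by
  rw [Real.log_div (by norm_num) (by norm_num)]
  have : (4 : ℝ) = 2 ^ 2 := by norm_num
  rw [this, Real.log_pow]
  push_cast
  ring

theorem log_four_thirds_pos : 0 < Real.log (4 / 3) := Real.log_pos (by norm_num)

theorem gam_mul : gam * (2 * Real.log 2 - Real.log 3) = 2 := by
  rw [← log_four_thirds, gam]
  have := log_four_thirds_pos
  field_simp

theorem gam_ge : 6 ≤ gam := by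
  unfold gam
  rw [le_div_iff₀ log_four_thirds_pos]
  have := Real.log_le_sub_one_of_pos (by norm_num : (0 : ℝ) < 4 / 3)
  linarith

theorem gam_le : gam ≤ 8 := by
  unfold gam
  rw [div_le_iff₀ log_four_thirds_pos]
  have := Real.one_sub_inv_le_log_of_pos (by norm_num : (0 : ℝ) < 4 / 3)
  linarith

theorem gam_log_two_ge : 1 ≤ gam * Real.log 2 - 1 := by
  have h1 := gam_ge
  have h2 := Real.log_two_gt_d9
  nlinarith

theorem gam_log_two_le : gam * Real.log 2 - 1 ≤ 5 := by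
  have h1 := gam_le
  have h2 := Real.log_two_lt_d9
  have h3 := Real.log_two_gt_d9
  nlinarith

/-- The integers whose orbit stays above `M` up to time `t`. -/
def Bd (M t : ℝ) : Set ℤ := {n | ∀ j : ℕ, (j : ℝ) ≤ t → M < |((T^[j] n : ℤ) : ℝ)|}

theorem abs_T_ge (n : ℤ) : |(n : ℝ)| ≤ 2 * |((T n : ℤ) : ℝ)| := by
  have h : |n| ≤ 2 * |T n| := by
    unfold T
    split_ifs with h
    · obtain ⟨m, rfl⟩ := h
      rw [Int.mul_ediv_cancel_left _ (by norm_num), abs_mul]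
      norm_num
    · have h1 : (3 * n + 1) / 2 * 2 = 3 * n + 1 := Int.ediv_mul_cancel (by omega)
      have h2 : 2 * |(3 * n + 1) / 2| = |3 * n + 1| := by
        rw [← h1, abs_mul, Int.mul_ediv_cancel _ (by norm_num)]
        norm_num
        ring
      rw [h2]
      rcases le_or_gt 0 n with h3 | h3
      · rw [abs_of_nonneg h3, abs_of_nonneg (by omega)]
        omega
      · rw [abs_of_neg h3, abs_of_nonpos (by omega)]
        omega
  exact_mod_cast h

theorem abs_iter_ge (j : ℕ) (n : ℤ) : |(n : ℝ)| ≤ 2 ^ j * |((T^[j] n : ℤ) : ℝ)| := by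
  induction j generalizing n with
  | zero => simp
  | succ j ih =>
    rw [Function.iterate_succ_apply]
    have h1 := abs_T_ge n
    have h2 := ih (T n)
    rw [pow_succ]
    linarith

theorem Bd_down {M t : ℝ} {n : ℤ} (h : n ∈ Bd M t) {s : ℕ} {b : ℤ} (hb : T^[s] n = b) :
    b ∈ Bd M (t - s) := by
  intro j hj
  have := h (j + s) (by push_cast; linarith)
  rwa [Function.iterate_add_apply, hb] at this

theorem Bd_up {M t : ℝ} {n b : ℤ} {s : ℕ} (hs : T^[s] n = b) (hb : b ∈ Bd M (t - s)) :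
    n ∈ Bd M t ∨ |(n : ℝ)| ≤ M * 2 ^ s := by
  by_contra hcon
  rw [not_or] at hcon
  obtain ⟨h1, h2⟩ := hcon
  apply h1
  intro j hj
  by_contra h3
  rw [not_lt] at h3
  rcases le_or_gt s j with h4 | h4
  · have h5 := hb (j - s) (by rw [Nat.cast_sub h4]; linarith)
    rw [← hs, ← Function.iterate_add_apply, Nat.sub_add_cancel h4] at h5
    linarith
  · apply h2
    have h5 := abs_iter_ge j n
    have h6 : (2 : ℝ) ^ j ≤ 2 ^ s := pow_le_pow_right₀ (by norm_num) h4.le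
    calc |(n : ℝ)| ≤ 2 ^ j * |((T^[j] n : ℤ) : ℝ)| := h5
      _ ≤ 2 ^ s * M := mul_le_mul h6 h3 (abs_nonneg _) (by positivity)
      _ = M * 2 ^ s := mul_comm _ _

/-- The allowed deviation. -/
noncomputable def dv (θ : ℝ) (k : ℕ) : ℝ := (k : ℝ) ^ θ / 1000

theorem dev_ev {θ : ℝ} (hθ : 1 / 2 < θ) : ∀ᶠ k : ℕ in atTop,
    Real.exp (-(dv θ k ^ 2 / (16 * k))) ≤ 1 / (k : ℝ) ^ 7 := by
  obtain ⟨β, hβ⟩ : ∃ β, β = 2 * θ - 1 := ⟨_, rfl⟩
  have hβ0 : 0 < β := by rw [hβ]; linarith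
  have h1 := tendsto_rpow_mul_exp_neg_mul_atTop_nhds_zero (7 / β) (1 / 16000000)
    (by norm_num)
  have h2 : Tendsto (fun k : ℕ => (k : ℝ) ^ β) atTop atTop :=
    (tendsto_rpow_atTop hβ0).comp tendsto_natCast_atTop_atTop
  have h3 := (h1.comp h2).eventually_le_const one_pos
  filter_upwards [h3, eventually_ge_atTop 1] with k hk hk1
  have hk0 : (0 : ℝ) < k := by exact_mod_cast hk1
  simp only [Function.comp] at hk
  have h4 : ((k : ℝ) ^ β) ^ (7 / β) = (k : ℝ) ^ (7 : ℕ) := by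
    rw [← Real.rpow_mul hk0.le, mul_div_cancel₀ _ hβ0.ne', ← Real.rpow_natCast]
    norm_num
  have h5 : dv θ k ^ 2 / (16 * k) = 1 / 16000000 * (k : ℝ) ^ β := by
    have h6 : ((k : ℝ) ^ θ) ^ 2 = (k : ℝ) ^ β * k := by
      rw [← Real.rpow_natCast, ← Real.rpow_mul hk0.le]
      nth_rewrite 3 [← Real.rpow_one (k : ℝ)]
      rw [← Real.rpow_add hk0]
      congr 1
      rw [hβ]
      push_cast
      ring
    unfold dv
    rw [div_pow, h6]
    field_simp
    norm_num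
  rw [h5, le_div_iff₀ (by positivity), ← h4]
  have h7 : -(1 / 16000000 * (k : ℝ) ^ β) = -(1 / 16000000) * (k : ℝ) ^ β := by ring
  rw [h7, mul_comm]
  exact hk

/-- The numerical facts at stage `k`. -/
structure NumT (θ : ℝ) (k : ℕ) : Prop where
  n1 : Num k
  n3 : Num (3 * k)
  e1 : (403 / 100 : ℝ) ^ k * 2 ^ k * (k : ℝ) ^ 7 ≤ 2 ^ (4 * k)
  e2 : (403 / 566 : ℝ) ^ k * (k : ℝ) ^ 7 ≤ 1 / 2
  dev : Real.exp (-(dv θ k ^ 2 / (16 * k))) ≤ 1 / (k : ℝ) ^ 7
  th : 2400 ≤ (k : ℝ) ^ θ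
  big : 2000 ≤ k

theorem numT_all {θ : ℝ} (hθ : 1 / 2 < θ) : ∀ᶠ k : ℕ in atTop, NumT θ k := by
  have h3 : Tendsto (fun k : ℕ => 3 * k) atTop atTop :=
    tendsto_id.const_mul_atTop' (by norm_num)
  have h4 : Tendsto (fun k : ℕ => (k : ℝ) ^ θ) atTop atTop :=
    (tendsto_rpow_atTop (by linarith)).comp tendsto_natCast_atTop_atTop
  filter_upwards [num_all, h3.eventually num_all, stage_ev, eventually_pow_div (403 / 566)
    (by norm_num) (by norm_num) 1 7 one_pos (1 / 2) (by norm_num), dev_ev hθ,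
    h4.eventually_ge_atTop 2400, eventually_ge_atTop 2000] with k a1 a2 a3 a4 a5 a6 a7
  exact ⟨a1, a2, a3, a4 k (by omega), a5, a6, a7⟩

theorem three_two_le {d s : ℕ} (h : 199 * d ≤ 100 * s) :
    (3 : ℝ) ^ d ≤ (76 / 100) ^ d * 2 ^ s := by
  have h1 : ((3 : ℝ) ^ d) ^ 100 ≤ ((76 / 100) ^ d * 2 ^ s) ^ 100 := by
    calc ((3 : ℝ) ^ d) ^ 100 = (3 ^ 100) ^ d := by rw [← pow_mul, ← pow_mul, mul_comm]
      _ ≤ ((76 / 100) ^ 100 * 2 ^ 199) ^ d := pow_le_pow_left₀ (by norm_num) (by norm_num) _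
      _ = ((76 / 100) ^ d) ^ 100 * 2 ^ (199 * d) := by
          rw [mul_pow, ← pow_mul, ← pow_mul, ← pow_mul, mul_comm 100 d]
      _ ≤ ((76 / 100) ^ d) ^ 100 * 2 ^ (100 * s) := by
          apply mul_le_mul_of_nonneg_left _ (by positivity)
          exact pow_le_pow_right₀ (by norm_num) h
      _ = ((76 / 100) ^ d * 2 ^ s) ^ 100 := by rw [mul_pow, mul_comm 100 s, pow_mul 2]
  exact le_of_pow_le_pow_left₀ (by norm_num) (by positivity) h1

theorem decay_a {k : ℕ} (hk : 10 ≤ k) :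
    (76 / 100 : ℝ) ^ (k - k / 20) * 2 ^ (k / 4) ≤ 1 / 2 := by
  have h1 : ((76 / 100 : ℝ) ^ (k - k / 20) * 2 ^ (k / 4)) ^ 20 ≤ ((92 / 100) ^ k) ^ 20 := by
    calc ((76 / 100 : ℝ) ^ (k - k / 20) * 2 ^ (k / 4)) ^ 20 =
          (76 / 100 : ℝ) ^ ((k - k / 20) * 20) * 2 ^ (k / 4 * 20) := by
            rw [mul_pow, ← pow_mul, ← pow_mul]
      _ ≤ (76 / 100 : ℝ) ^ (19 * k) * 2 ^ (5 * k) := by
          apply mul_le_mul _ _ (by positivity) (by positivity)
          · exact pow_le_pow_of_le_one (by norm_num) (by norm_num) (by omega)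
          · exact pow_le_pow_right₀ (by norm_num) (by omega)
      _ = ((76 / 100 : ℝ) ^ 19 * 2 ^ 5) ^ k := by rw [mul_pow, ← pow_mul, ← pow_mul]
      _ ≤ ((92 / 100) ^ 20) ^ k := pow_le_pow_left₀ (by norm_num) (by norm_num) _
      _ = ((92 / 100) ^ k) ^ 20 := by rw [← pow_mul, ← pow_mul, mul_comm]
  have h2 := le_of_pow_le_pow_left₀ (by norm_num) (by positivity) h1
  refine h2.trans ?_
  calc (92 / 100 : ℝ) ^ k ≤ (92 / 100) ^ 10 :=
        pow_le_pow_of_le_one (by norm_num) (by norm_num) hk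
    _ ≤ 1 / 2 := by norm_num

theorem decay_b {k : ℕ} (hk : 10 ≤ k) : (76 / 100 : ℝ) ^ (3 * k) * 2 ^ k ≤ 1 / 2 := by
  calc (76 / 100 : ℝ) ^ (3 * k) * 2 ^ k = ((76 / 100) ^ 3 * 2) ^ k := by
        rw [mul_pow, ← pow_mul]
    _ ≤ (88 / 100) ^ k := pow_le_pow_left₀ (by norm_num) (by norm_num) _
    _ ≤ (88 / 100) ^ 10 := pow_le_pow_of_le_one (by norm_num) (by norm_num) hk
    _ ≤ 1 / 2 := by norm_num

/-- The size after a stage. -/
theorem size_le {k : ℕ} (hk : 10 ≤ k) {X : ℝ} (hX : 2 ^ (4 * k) ≤ X) {s : ℕ}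
    (hs : 199 * (k - k / 20) ≤ 100 * s) :
    3 ^ (k - k / 20) * X / 2 ^ s + 2 ^ k ≤ X / 2 ^ (k / 4) := by
  have hX0 : (0 : ℝ) < X := lt_of_lt_of_le (by positivity) hX
  have h1 : 3 ^ (k - k / 20) * X / 2 ^ s ≤ X / 2 ^ (k / 4) / 2 := by
    rw [div_le_iff₀ (by positivity)]
    have h2 := three_two_le hs
    have h3 := decay_a hk
    have h4 : (76 / 100 : ℝ) ^ (k - k / 20) ≤ 1 / 2 / 2 ^ (k / 4) := by
      rw [le_div_iff₀ (by positivity)]
      exact h3
    calc 3 ^ (k - k / 20) * X ≤ ((76 / 100) ^ (k - k / 20) * 2 ^ s) * X :=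
          mul_le_mul_of_nonneg_right h2 hX0.le
      _ ≤ ((1 / 2 / 2 ^ (k / 4)) * 2 ^ s) * X := by
          apply mul_le_mul_of_nonneg_right _ hX0.le
          exact mul_le_mul_of_nonneg_right h4 (by positivity)
      _ = X / 2 ^ (k / 4) / 2 * 2 ^ s := by ring
  have h2 : (2 : ℝ) ^ k ≤ X / 2 ^ (k / 4) / 2 := by
    rw [le_div_iff₀ (by norm_num), le_div_iff₀ (by positivity)]
    refine le_trans ?_ hX
    rw [← pow_succ, ← pow_add]
    exact pow_le_pow_right₀ (by norm_num) (by omega)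
  linarith

theorem size_le' {k : ℕ} (hk : 10 ≤ k) {X : ℝ} (hX : 2 ^ (9 * k) ≤ X) {s : ℕ}
    (hs : 199 * (3 * k) ≤ 100 * s) :
    3 ^ (3 * k) * X / 2 ^ s + (5 / 4) ^ (3 * k) ≤ X / 2 ^ k := by
  have hX0 : (0 : ℝ) < X := lt_of_lt_of_le (by positivity) hX
  have h1 : 3 ^ (3 * k) * X / 2 ^ s ≤ X / 2 ^ k / 2 := by
    rw [div_le_iff₀ (by positivity)]
    have h2 := three_two_le hs
    have h3 := decay_b hk
    have h4 : (76 / 100 : ℝ) ^ (3 * k) ≤ 1 / 2 / 2 ^ k := by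
      rw [le_div_iff₀ (by positivity)]
      exact h3
    calc 3 ^ (3 * k) * X ≤ ((76 / 100) ^ (3 * k) * 2 ^ s) * X :=
          mul_le_mul_of_nonneg_right h2 hX0.le
      _ ≤ ((1 / 2 / 2 ^ k) * 2 ^ s) * X := by
          apply mul_le_mul_of_nonneg_right _ hX0.le
          exact mul_le_mul_of_nonneg_right h4 (by positivity)
      _ = X / 2 ^ k / 2 * 2 ^ s := by ring
  have h2 : (5 / 4 : ℝ) ^ (3 * k) ≤ X / 2 ^ k / 2 := by
    rw [le_div_iff₀ (by norm_num), le_div_iff₀ (by positivity)]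
    refine le_trans ?_ hX
    calc (5 / 4 : ℝ) ^ (3 * k) * 2 * 2 ^ k ≤ 2 ^ (3 * k) * 2 * 2 ^ k := by
          apply mul_le_mul_of_nonneg_right _ (by positivity)
          apply mul_le_mul_of_nonneg_right _ (by norm_num)
          exact pow_le_pow_left₀ (by norm_num) (by norm_num) _
      _ = 2 ^ (3 * k + 1 + k) := by rw [pow_add, pow_add, pow_one]
      _ ≤ 2 ^ (9 * k) := pow_le_pow_right₀ (by norm_num) (by omega)
  linarith

/-- The stage belonging to `X`. -/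
theorem exists_stage {X : ℝ} (hX : 1 ≤ X) : ∃ k : ℕ, 2 ^ (10 * k) ≤ X ∧ X < 2 ^ (10 * (k + 1)) := by
  obtain ⟨n, h1, h2⟩ := exists_nat_pow_near hX (by norm_num : (1 : ℝ) < 2 ^ 10)
  exact ⟨n, by rwa [pow_mul], by rwa [pow_mul]⟩

theorem log_bounds {X : ℝ} {k : ℕ} (h1 : 2 ^ (10 * k) ≤ X) (h2 : X < 2 ^ (10 * (k + 1))) :
    69 / 10 * k ≤ Real.log X ∧ Real.log X ≤ 10 * (k + 1) * Real.log 2 := by
  have hX0 : (0 : ℝ) < X := lt_of_lt_of_le (by positivity) h1
  have h3 := Real.log_le_log (by positivity) h1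
  have h4 := Real.log_le_log hX0 h2.le
  rw [Real.log_pow] at h3 h4
  push_cast at h3 h4
  have h5 := Real.log_two_gt_d9
  have h6 : (0 : ℝ) ≤ k := Nat.cast_nonneg _
  constructor
  · nlinarith
  · exact h4

end Pool.Agent.Collatz3.FW
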