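import Mathlib
import Pool.Agent.Collatz3.FWTyp
import Pool.Agent.Collatz3.FWNum
import Pool.Agent.Collatz3.PDMixC
import Pool.Agent.Helper90.Straus.SieveUp

set_option autoImplicit false

/-!
# Tao's theorem in sifted sets (primes, prime tuples, values of polynomials): definitions, statements

`b` is the lower end point, `n = en w b` the upper one (`T^[w.sum] n = b`), the first letters of `w`
are the ones next to `b`.  `k` letters, `k` about `log log z`.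
Sieve: `Sys κ Ω` (Straus library): `Ω p ⊆ range p`, `|Ω p| ≤ κ`, `|Ω p| < p` for all primes `p`;
`g Ω p = |Ω p| / p`; `pr a b` = primes in `[a, b)`.
-/

namespace Pool.Agent.Collatz3.PR

open Finset
open Pool.Agent.Collatz3.Mix (words mem_words)
open Pool.Agent.Collatz3.PD
open Pool.Agent.Collatz3.FW
open Pool.Agent.Helper90.Straus (Sys g pr)

open Classical in
/-- The words with `k` letters whose first partial sums (up to `n` letters) are not too small. -/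
noncomputable def W1 (u : ℝ) (I k n : ℕ) : Finset (List ℕ) :=
  (words I k).filter fun w => ∀ i ≤ n, (3 : ℝ) ^ i ≤ u * 2 ^ (w.take i).sum

theorem mem_W1 {u : ℝ} {I k n : ℕ} {w : List ℕ} : w ∈ W1 u I k n ↔
    w ∈ words I k ∧ ∀ i ≤ n, (3 : ℝ) ^ i ≤ u * 2 ^ (w.take i).sum := by
  unfold W1
  rw [mem_filter]

open Classical in
/-- The good words: moreover the sum of the last `j` letters is close to `2 j` for all `j ≥ R`. -/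
noncomputable def W2 (u : ℝ) (I k R : ℕ) : Finset (List ℕ) :=
  (W1 u I k k).filter fun w => ∀ j, R ≤ j → j ≤ k →
    199 * j ≤ 100 * (w.drop (k - j)).sum ∧ 100 * (w.drop (k - j)).sum ≤ 201 * j

theorem mem_W2 {u : ℝ} {I k R : ℕ} {w : List ℕ} : w ∈ W2 u I k R ↔
    w ∈ W1 u I k k ∧ ∀ j, R ≤ j → j ≤ k →
      199 * j ≤ 100 * (w.drop (k - j)).sum ∧ 100 * (w.drop (k - j)).sum ≤ 201 * j := by
  unfold W2
  rw [mem_filter]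

/-- The mass of the words of `G` with sum `s` in the class of `x` modulo `3 ^ n`
(`FG (words I k) s n x = Fw I k s n x` by definition). -/
noncomputable def FG (G : Finset (List ℕ)) (s n : ℕ) (x : ℤ) : ℝ :=
  ∑ _w ∈ G.filter (fun w => w.sum = s ∧ (3 : ℤ) ^ n ∣ 2 ^ s * x - cw w), (1 / 2 : ℝ) ^ s

theorem FG_words (I k s n : ℕ) (x : ℤ) : FG (words I k) s n x = Fw I k s n x := rfl

/-- The pairs of words of `G` with sum `s` and constants congruent modulo `3 ^ k`. -/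
noncomputable def prs (G : Finset (List ℕ)) (s k : ℕ) : Finset (List ℕ × List ℕ) :=
  (G ×ˢ G).filter fun p => p.1.sum = s ∧ p.2.sum = s ∧ (3 : ℤ) ^ k ∣ (cw p.1 : ℤ) - cw p.2

/-- The difference of the upper end points `en p.2 b - en p.1 b`. -/
def dl (k : ℕ) (p : List ℕ × List ℕ) : ℤ := ((cw p.1 : ℤ) - cw p.2) / 3 ^ k

/-- `n` avoids the classes `Ω p` modulo the primes `p < z`. -/
def Sf (Ω : ℕ → Finset ℕ) (z : ℕ) (n : ℤ) : Prop :=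
  ∀ p : ℕ, p.Prime → p < z → (n % p).toNat ∉ Ω p

/-- The density of the sifted set. -/
noncomputable def VV (Ω : ℕ → Finset ℕ) (z : ℕ) : ℝ := ∏ p ∈ pr 2 z, (1 - g Ω p)

/-- `Δ` is a difference of two elements of `Ω p` modulo `p`. -/
def Bp (Ω : ℕ → Finset ℕ) (p : ℕ) (Δ : ℤ) : Prop :=
  ∃ a ∈ Ω p, ∃ b ∈ Ω p, (p : ℤ) ∣ Δ + a - b

open Classical in
/-- The singular series (an upper bound for it, up to constants depending on `κ`). -/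
noncomputable def sg (κ : ℕ) (Ω : ℕ → Finset ℕ) (z : ℕ) (Δ : ℤ) : ℝ :=
  ∏ p ∈ (pr (2 * κ + 1) z).filter (fun p => Bp Ω p Δ), (1 + 2 * κ / (p : ℝ))

open Classical in
/-- The contribution of a dyadic block. -/
noncomputable def Lb (Ω : ℕ → Finset ℕ) (i : ℕ) (Δ : ℤ) : ℝ :=
  ∑ p ∈ (pr (2 ^ i) (2 ^ (i + 1))).filter (fun p => Bp Ω p Δ), 1 / (p : ℝ)

/-! ### Word statements -/

/-- Doob. Induction on `k`, first letter; `∑ 2^(-a) * 3 / (u * 2^a) ≤ 1/u`. -/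
def St_Tail1 : Prop := ∀ (I k : ℕ) (u : ℝ), 0 < u → P (words I k \ W1 u I k k) ≤ 1 / u

/-- From `lower_tail`, `upper_tail`, applied to the last `j` letters, `j ≥ R`. -/
def St_Tail2 : Prop := ∃ ρ C : ℝ, 0 < ρ ∧ ρ < 1 ∧ 0 < C ∧ ∀ (I k R : ℕ) (u : ℝ),
  P (W1 u I k k \ W2 u I k R) ≤ C * ρ ^ R

/-- Exponential Chebyshev with parameter `1/√k`. -/
def St_Tail3 : Prop := ∃ C : ℝ, 0 < C ∧ ∀ I k : ℕ, 4 ≤ k → ∀ l : ℝ, 0 ≤ l →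
  P ((words I k).filter fun w => l * √k < |(w.sum : ℝ) - 2 * k|) ≤ C * Real.exp (-(l / 2))

/-- The local bound. -/
def St_Loc : Prop := ∃ C : ℝ, 0 < C ∧ ∀ I r t : ℕ,
  P ((words I r).filter fun w => w.sum = t) ≤ C / √((r : ℝ) + 1)

/-- The pointwise bound. -/
def St_Pt : Prop := ∃ C : ℝ, 0 < C ∧ ∀ (I n : ℕ) (u : ℝ), 1 ≤ u → ∀ x : ℤ,
  ∑ t ∈ range (I * n + 1), FG (W1 u I n n) t n x ≤ C * ((n : ℝ) + 1) ^ 2 * u / 3 ^ n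

/-- One step of the mixing. -/
def St_Err : Prop := ∃ (C : ℝ) (I₀ : ℕ), 0 < C ∧ ∀ (I n : ℕ) (u : ℝ), I₀ ≤ I → 1 ≤ n → 1 ≤ u →
  ∑ t ∈ range (I * n + 1), ∑ x ∈ range (3 ^ n),
    |FG (W1 u I n n) t n (x : ℤ) - FG (W1 u I n (n - 1)) t (n - 1) (x : ℤ) / 3| ≤ C / (n : ℝ) ^ 6

/-- The second moment at a given sum. -/
def St_Chain : Prop := ∃ (C : ℝ) (I₀ : ℕ), 0 < C ∧ ∀ (I k s : ℕ) (u : ℝ), I₀ ≤ I → 1 ≤ k → 1 ≤ u →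
  ∑ x ∈ range (3 ^ k), FG (W1 u I k k) s k (x : ℤ) ^ 2 ≤ C * u / (k * 3 ^ k)

/-- Pairs whose difference is in a given class modulo `q`; `q = 1`, `j = 0 = R` is allowed. -/
def St_Div : Prop := ∃ (C : ℝ) (I₀ : ℕ), 0 < C ∧ ∀ (I k s R j q : ℕ) (a : ℤ) (u : ℝ), I₀ ≤ I →
  1 ≤ k → 1 ≤ u → R ≤ j → 2 * j ≤ k → 3 ^ j ≤ q →
  (((prs (W2 u I k R) s k).filter fun p => (q : ℤ) ∣ dl k p - a).card : ℝ) ≤
    C * u * 4 ^ s / (k * 3 ^ k) * (4 / 5) ^ j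

/-- Pointwise bound for the singular series. -/
def St_Sing : Prop := ∀ κ : ℕ, 1 ≤ κ → ∃ C : ℝ, 0 < C ∧ ∀ (i₀ B z : ℕ) (Ω : ℕ → Finset ℕ) (Δ : ℤ),
  z ≤ 2 ^ B → sg κ Ω z Δ ≤ C * (((i₀ : ℝ) + 1) ^ (8 * κ) +
    ∑ i ∈ Ioo i₀ B, ((i : ℝ) + 1) ^ (8 * κ + 2) * Lb Ω i Δ)

/-- The average of the singular series. -/
def St_Avg : Prop := ∀ κ : ℕ, 1 ≤ κ → ∃ (C : ℝ) (I₀ : ℕ), 0 < C ∧ ∀ (I k s R B z : ℕ) (u : ℝ)
  (Ω : ℕ → Finset ℕ), I₀ ≤ I → 1 ≤ k → 1 ≤ u → 2 * R ≤ k → Sys κ Ω → z ≤ 2 ^ B →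
  (B : ℝ) ^ (8 * κ + 4) * (4 / 5) ^ (k / 2) ≤ 1 →
  ∑ p ∈ prs (W2 u I k R) s k, sg κ Ω z (dl k p) ≤
    C * ((R : ℝ) + 1) ^ (8 * κ) * u * 4 ^ s / (k * 3 ^ k)

/-! ### Sieve statements -/

/-- Lower bound for the density. -/
def St_VL : Prop := ∀ κ : ℕ, 1 ≤ κ → ∃ (c : ℝ) (A : ℕ), 0 < c ∧ ∀ (z : ℕ) (Ω : ℕ → Finset ℕ), 2 ≤ z →
  Sys κ Ω → c ≤ (Real.log z + 1) ^ A * VV Ω z

/-- Comparison of the densities. -/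
def St_VC : Prop := ∀ κ D : ℕ, 1 ≤ κ → ∃ C : ℝ, 0 < C ∧ ∀ (y z : ℕ) (Ω : ℕ → Finset ℕ), 2 ≤ y → y ≤ z →
  Real.log z ≤ D * Real.log y → Sys κ Ω → VV Ω y ≤ C * VV Ω z

open Classical in
/-- Upper bound sieve in progressions modulo `2 ^ m`. -/
def St_S1 : Prop := ∀ κ : ℕ, 1 ≤ κ → ∃ C : ℝ, 0 < C ∧ ∀ (z : ℕ) (X : ℝ) (m : ℕ) (A r : ℤ)
  (Ω : ℕ → Finset ℕ), 2 ≤ z → (z : ℝ) ≤ X → 4 ^ m ≤ X → Sys κ Ω →
  (((Ioc A (A + ⌊X⌋)).filter fun n => Sf Ω z n ∧ (2 : ℤ) ^ m ∣ n - r).card : ℝ) ≤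
    C * (X / 2 ^ m) * VV Ω z

open Classical in
/-- Pairs in progressions modulo `2 ^ m`. -/
def St_S2 : Prop := ∀ κ : ℕ, 1 ≤ κ → ∃ C : ℝ, 0 < C ∧ ∀ (z : ℕ) (X : ℝ) (m : ℕ) (A r Δ : ℤ)
  (Ω : ℕ → Finset ℕ), 2 ≤ z → (z : ℝ) ≤ X → 4 ^ m ≤ X → Sys κ Ω →
  (((Ioc A (A + ⌊X⌋)).filter fun n => Sf Ω z n ∧ Sf Ω z (n + Δ) ∧ (2 : ℤ) ^ m ∣ n - r).card : ℝ) ≤
    C * (X / 2 ^ m) * VV Ω z ^ 2 * sg κ Ω z Δ

open Classical in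
/-- The sifted odd integers whose first letters are not good are few. -/
def St_Res : Prop := ∀ κ : ℕ, 1 ≤ κ → ∃ C : ℝ, 0 < C ∧ ∀ (z : ℕ) (X : ℝ) (I k : ℕ)
  (G : Finset (List ℕ)) (e : ℤ) (Ω : ℕ → Finset ℕ), G ⊆ words I k →
  (∀ w ∈ G, 100 * w.sum ≤ 201 * k) → 10 ≤ k → 2 ≤ z → (z : ℝ) ≤ X → 2 ^ (6 * k) ≤ X →
  Sys κ Ω → (e = 1 ∨ e = -1) →
  (((Od e X).filter fun n => Sf Ω z n ∧ ¬ Hit G (fun _ => Set.univ) n).card : ℝ) ≤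
    C * X * VV Ω z * (1 - P G + (1 / 2) ^ (k / 2))

/-! ### Assembly -/

open Classical in
/-- One sum. -/
def St_CS : Prop := ∀ κ : ℕ, 1 ≤ κ → ∃ (C : ℝ) (I₀ : ℕ), 0 < C ∧ ∀ (I k s R B z : ℕ) (u X δ : ℝ)
  (e : ℤ) (F : Set ℤ) (Ω : ℕ → Finset ℕ), I₀ ≤ I → 1 ≤ k → 1 ≤ u → 2 * R ≤ k →
  100 * s ≤ 201 * k → 2 ≤ z → (z : ℝ) ≤ X → z ≤ 2 ^ B →
  (B : ℝ) ^ (8 * κ + 4) * (4 / 5) ^ (k / 2) ≤ 1 → 2 ^ (6 * k) ≤ X → Sys κ Ω →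
  k * 3 ^ k ≤ 2 ^ s * VV Ω z → (e = 1 ∨ e = -1) → 0 ≤ δ →
  (((Od e (3 ^ k * X / 2 ^ s + 2 ^ k)).filter fun b => b ∈ F).card : ℝ) ≤
    δ * (3 ^ k * X / 2 ^ s + 2 ^ k) →
  (((Od e X).filter fun n => Sf Ω z n ∧
    Hit ((W2 u I k R).filter fun w => w.sum = s) (fun _ => F) n).card : ℝ) ≤
    C * X * VV Ω z * (√(δ * u / k) * ((R : ℝ) + 1) ^ (4 * κ))

/-- The theorem for odd integers. -/
def St_Odd : Prop := ∃ c : ℝ, 0 < c ∧ ∀ κ : ℕ, ∀ ε : ℝ, 0 < ε → ∃ C : ℝ, 0 < C ∧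
  ∀ (M X : ℝ) (z : ℕ) (Ω : ℕ → Finset ℕ), 1 ≤ M → 2 ≤ z → (z : ℝ) ≤ X → Sys κ Ω →
    (Set.ncard {n : ℤ | n % 2 = 1 ∧ |(n : ℝ)| ≤ X ∧ Sf Ω z n ∧
      n ∈ Bd M ((2 / Real.log (4 / 3) + ε) * Real.log X + C * Real.log M)} : ℝ) ≤
      C * X * VV Ω z * M ^ (-c)

/-- The main theorem, for the map `T`: Tao's theorem in every sifted set. -/
def St_Main : Prop := ∃ c : ℝ, 0 < c ∧ ∀ κ : ℕ, ∀ ε : ℝ, 0 < ε → ∃ C : ℝ, 0 < C ∧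
  ∀ (M X : ℝ) (z : ℕ) (Ω : ℕ → Finset ℕ), 1 ≤ M → 2 ≤ z → (z : ℝ) ≤ X → Sys κ Ω →
    (Set.ncard {n : ℤ | |(n : ℝ)| ≤ X ∧ Sf Ω z n ∧ ∀ j : ℕ,
      (j : ℝ) ≤ (2 / Real.log (4 / 3) + ε) * Real.log X + C * Real.log M →
        M < |((Pool.Agent.Helper14.T^[j] n : ℤ) : ℝ)|} : ℝ) ≤ C * X * VV Ω z * M ^ (-c)

end Pool.Agent.Collatz3.PR
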