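import Mathlib
import Pool.Agent.Collatz3.PRDefs

set_option autoImplicit false

/-!
Tao's theorem for primes: one step of the mixing.
-/

namespace Pool.Agent.Collatz3.PR

open Finset
open Pool.Agent.Collatz3.Mix (words mem_words sum_words_zero sum_words_succ sum_words_add)
open Pool.Agent.Collatz3.PD
open Pool.Agent.Collatz3.FW

/-- The indicator of a class. -/
theorem Err_per (m s : ℕ) (c : ℤ) :
    Per m (fun x => if (3 : ℤ) ^ m ∣ 2 ^ s * x - c then (1 : ℝ) else 0) := by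
  intro x t
  have h : (2 : ℤ) ^ s * (x + 3 ^ m * t) - c = (2 ^ s * x - c) + 3 ^ m * (2 ^ s * t) := by ring
  simp only [h, dvd_add_left (dvd_mul_right ((3 : ℤ) ^ m) (2 ^ s * t))]

theorem Err_S (m s : ℕ) (c : ℤ) :
    S m (fun x => if (3 : ℤ) ^ m ∣ 2 ^ s * x - c then (1 : ℝ) else 0) = 1 := by
  have hper : Per m (fun x => if (3 : ℤ) ^ m ∣ x then (1 : ℝ) else 0) := by
    intro x t
    simp only [dvd_add_left (dvd_mul_right ((3 : ℤ) ^ m) t)]
  have hc : IsCoprime ((3 : ℤ) ^ m) (2 ^ s) := IsCoprime.pow (by norm_num)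
  have h := S_affine hper hc (-c)
  have e : (fun x : ℤ => if (3 : ℤ) ^ m ∣ 2 ^ s * x - c then (1 : ℝ) else 0) =
      fun x => (fun x : ℤ => if (3 : ℤ) ^ m ∣ x then (1 : ℝ) else 0) (2 ^ s * x + -c) := by
    funext x
    simp only [sub_eq_add_neg]
  rw [e, h]
  unfold S
  rw [sum_eq_single 0]
  · simp
  · intro x hx hx0
    rw [mem_range] at hx
    show (if (3 : ℤ) ^ m ∣ (x : ℤ) then (1 : ℝ) else 0) = 0
    rw [if_neg]
    intro hd
    have h1 : ((3 ^ m : ℕ) : ℤ) ∣ (x : ℤ) := by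
      push_cast
      exact hd
    rw [Int.natCast_dvd_natCast] at h1
    have := Nat.le_of_dvd (Nat.pos_of_ne_zero hx0) h1
    omega
  · intro h0
    exact absurd (mem_range.2 (by positivity)) h0

theorem FG_nonneg (G : Finset (List ℕ)) (s n : ℕ) (x : ℤ) : 0 ≤ FG G s n x :=
  sum_nonneg fun _ _ => by positivity

theorem FG_eq (G : Finset (List ℕ)) (s n : ℕ) (x : ℤ) : FG G s n x =
    ∑ w ∈ G, if w.sum = s then (1 / 2 : ℝ) ^ w.sum *
      (if (3 : ℤ) ^ n ∣ 2 ^ w.sum * x - cw w then 1 else 0) else 0 := by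
  unfold FG
  rw [sum_filter]
  apply sum_congr rfl
  intro w _
  by_cases h : w.sum = s
  · rw [if_pos h, h]
    by_cases h2 : (3 : ℤ) ^ n ∣ 2 ^ s * x - cw w
    · rw [if_pos ⟨rfl, h2⟩, if_pos h2, mul_one]
    · rw [if_neg (fun h3 => h2 h3.2), if_neg h2, mul_zero]
  · rw [if_neg h, if_neg (fun h3 => h h3.1)]

theorem FG_sub {A G : Finset (List ℕ)} (h : G ⊆ A) (s n : ℕ) (x : ℤ) :
    FG A s n x = FG G s n x + FG (A \ G) s n x := by
  rw [FG_eq, FG_eq, FG_eq, add_comm]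
  exact (sum_sdiff h).symm

/-- Total mass. -/
theorem FG_mass (G : Finset (List ℕ)) (T m j : ℕ) :
    ∑ t ∈ range T, ∑ x ∈ range (3 ^ (m + j)), FG G t m (x : ℤ) / 3 ^ j ≤ P G := by
  have h1 : ∀ t, ∑ x ∈ range (3 ^ (m + j)), FG G t m (x : ℤ) / 3 ^ j =
      ∑ w ∈ G, if w.sum = t then (1 / 2 : ℝ) ^ w.sum else 0 := by
    intro t
    rw [← sum_div, div_eq_iff (by positivity)]
    simp only [FG_eq]
    rw [sum_comm, sum_mul]
    apply sum_congr rfl
    intro w _
    by_cases h : w.sum = t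
    · simp only [if_pos h]
      rw [← mul_sum]
      congr 1
      have h2 := shift_sum_mul (Err_per m w.sum (cw w)) 0 (3 ^ j)
      rw [Err_S, mul_one, ← pow_add, add_comm j m] at h2
      simp only [zero_add] at h2
      rw [h2]
      push_cast
      rfl
    · simp only [if_neg h, sum_const_zero, zero_mul]
  rw [sum_congr rfl fun t _ => h1 t, sum_comm]
  unfold P
  apply sum_le_sum
  intro w _
  by_cases h : w.sum ∈ range T
  · rw [sum_ite_eq, if_pos h]
  · rw [sum_ite_eq, if_neg h]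
    positivity

/-- Concatenation. -/
theorem Err_cut {v : List ℕ} {h : ℕ} (hv : v.length = h) (w : List ℕ) (m : ℕ) (x : ℤ) :
    (3 : ℤ) ^ (h + m) ∣ 2 ^ (v ++ w).sum * x - cw (v ++ w) ↔
      rd v x ∧ (3 : ℤ) ^ m ∣ 2 ^ w.sum * en v x - cw w := by
  subst hv
  have key := append_key v w x
  constructor
  · intro h
    rw [key, pow_add] at h
    have h1 : (3 : ℤ) ^ v.length ∣ 2 ^ w.sum * (2 ^ v.sum * x - cw v) := by
      have h2 : (3 : ℤ) ^ v.length ∣
          2 ^ w.sum * (2 ^ v.sum * x - cw v) - 3 ^ v.length * cw w :=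
        dvd_trans (dvd_mul_right _ _) h
      have h3 := dvd_add h2 (dvd_mul_right ((3 : ℤ) ^ v.length) (cw w : ℤ))
      rwa [sub_add_cancel] at h3
    have h2 : rd v x := three_pow_dvd_of_mul h1
    refine ⟨h2, ?_⟩
    have h3 := en_spec h2
    rw [← h3] at h
    have h4 : (2 : ℤ) ^ w.sum * (3 ^ v.length * en v x) - 3 ^ v.length * cw w =
        3 ^ v.length * (2 ^ w.sum * en v x - cw w) := by ring
    rw [h4] at h
    exact (mul_dvd_mul_iff_left (pow_ne_zero _ (by norm_num))).1 h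
  · rintro ⟨h1, h2⟩
    have h3 := en_spec h1
    rw [key, ← h3, pow_add]
    have h4 : (2 : ℤ) ^ w.sum * (3 ^ v.length * en v x) - 3 ^ v.length * cw w =
        3 ^ v.length * (2 ^ w.sum * en v x - cw w) := by ring
    rw [h4]
    exact mul_dvd_mul_left _ h2

/-- The mass of a concatenation. -/
theorem FG_cat {h : ℕ} {G V : Finset (List ℕ)} (hG : ∀ v ∈ G, v.length = h) (t m : ℕ) (x : ℤ) :
    FG (cat G V) t (h + m) x = ∑ v ∈ G, if v.sum ≤ t then (1 / 2 : ℝ) ^ v.sum *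
      (if rd v x then FG V (t - v.sum) m (en v x) else 0) else 0 := by
  rw [FG_eq, sum_cat hG]
  apply sum_congr rfl
  intro v hv
  by_cases ht : v.sum ≤ t
  · rw [if_pos ht]
    by_cases hr : rd v x
    · rw [if_pos hr, FG_eq, mul_sum]
      apply sum_congr rfl
      intro w _
      by_cases hs : w.sum = t - v.sum
      · rw [if_pos hs, if_pos (by rw [List.sum_append]; omega)]
        simp only [Err_cut (hG v hv), hr, true_and]
        rw [List.sum_append, pow_add]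
        ring
      · rw [if_neg hs, if_neg (by rw [List.sum_append]; omega), mul_zero]
    · rw [if_neg hr, mul_zero]
      apply sum_eq_zero
      intro w _
      simp only [Err_cut (hG v hv), hr, false_and, if_false, mul_zero, ite_self]
  · rw [if_neg ht]
    apply sum_eq_zero
    intro w _
    rw [if_neg]
    rw [List.sum_append]
    omega

theorem FG_per (V : Finset (List ℕ)) (t m : ℕ) : Per m (FG V t m) := by
  intro x y
  rw [FG_eq, FG_eq]
  apply sum_congr rfl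
  intro w _
  have h := Err_per m w.sum (cw w) x y
  simp only at h
  rw [h]

/-- The distance between the levels `m + 1` and `m`. -/
noncomputable def lev (V : Finset (List ℕ)) (T m : ℕ) : ℝ :=
  ∑ t ∈ range T, ∑ x ∈ range (3 ^ (m + 1)), |FG V t (m + 1) (x : ℤ) - FG V t m (x : ℤ) / 3|

theorem lev_nonneg (V : Finset (List ℕ)) (T m : ℕ) : 0 ≤ lev V T m :=
  sum_nonneg fun _ _ => sum_nonneg fun _ _ => abs_nonneg _

theorem lev_mono (V : Finset (List ℕ)) {T T' : ℕ} (h : T ≤ T') (m : ℕ) : lev V T m ≤ lev V T' m :=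
  sum_le_sum_of_subset_of_nonneg (range_subset_range.2 h)
    fun _ _ _ => sum_nonneg fun _ _ => abs_nonneg _

theorem lev_cat {h : ℕ} {G V : Finset (List ℕ)} (hG : ∀ v ∈ G, v.length = h) (T m : ℕ) :
    lev (cat G V) T (h + m) ≤ P G * lev V T m := by
  have h1 : ∀ t, ∀ x ∈ range (3 ^ (h + m + 1)),
      |FG (cat G V) t (h + m + 1) (x : ℤ) - FG (cat G V) t (h + m) (x : ℤ) / 3| ≤
      ∑ v ∈ G, if v.sum ≤ t then (1 / 2 : ℝ) ^ v.sum *
        (if rd v (x : ℤ) then |FG V (t - v.sum) (m + 1) (en v x) -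
          FG V (t - v.sum) m (en v x) / 3| else 0) else 0 := by
    intro t x _
    rw [add_assoc, FG_cat hG, FG_cat hG, sum_div, ← sum_sub_distrib]
    refine (abs_sum_le_sum_abs _ _).trans (le_of_eq ?_)
    apply sum_congr rfl
    intro v _
    by_cases ht : v.sum ≤ t
    · rw [if_pos ht, if_pos ht, if_pos ht]
      by_cases hr : rd v (x : ℤ)
      · rw [if_pos hr, if_pos hr, if_pos hr, mul_div_assoc, ← mul_sub, abs_mul,
          abs_of_nonneg (by positivity)]
      · rw [if_neg hr, if_neg hr, if_neg hr]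
        simp
    · rw [if_neg ht, if_neg ht, if_neg ht]
      simp
  have h2 : ∀ t, ∑ x ∈ range (3 ^ (h + m + 1)),
      |FG (cat G V) t (h + m + 1) (x : ℤ) - FG (cat G V) t (h + m) (x : ℤ) / 3| ≤
      ∑ v ∈ G, if v.sum ≤ t then (1 / 2 : ℝ) ^ v.sum *
        (∑ y ∈ range (3 ^ (m + 1)), |FG V (t - v.sum) (m + 1) (y : ℤ) -
          FG V (t - v.sum) m (y : ℤ) / 3|) else 0 := by
    intro t
    refine (sum_le_sum (h1 t)).trans (le_of_eq ?_)
    rw [sum_comm]
    apply sum_congr rfl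
    intro v hv
    by_cases ht : v.sum ≤ t
    · simp only [if_pos ht]
      rw [← mul_sum]
      congr 1
      have hper : Per (m + 1) (fun y => |FG V (t - v.sum) (m + 1) y -
          FG V (t - v.sum) m y / 3|) := by
        intro y z
        have e1 := FG_per V (t - v.sum) (m + 1) y z
        have e2 := (FG_per V (t - v.sum) m).mono (Nat.le_succ m) y z
        simp only [e1]
        have e3 : m.succ = m + 1 := rfl
        rw [e3] at e2
        rw [e2]
      have h3 := S_en (hG v hv) hper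
      unfold S at h3
      rw [← h3]
      rfl
    · simp only [if_neg ht, sum_const_zero]
  unfold lev
  refine (sum_le_sum fun t _ => h2 t).trans ?_
  rw [sum_comm]
  unfold P
  rw [sum_mul]
  apply sum_le_sum
  intro v _
  rw [← sum_filter, ← mul_sum]
  apply mul_le_mul_of_nonneg_left _ (by positivity)
  -- the shift of the sum
  have h4 : ∑ t ∈ (range T).filter (fun t => v.sum ≤ t),
      ∑ y ∈ range (3 ^ (m + 1)), |FG V (t - v.sum) (m + 1) (y : ℤ) -
          FG V (t - v.sum) m (y : ℤ) / 3| =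
      ∑ s ∈ ((range T).filter (fun t => v.sum ≤ t)).image (fun t => t - v.sum),
      ∑ y ∈ range (3 ^ (m + 1)), |FG V s (m + 1) (y : ℤ) -
          FG V s m (y : ℤ) / 3| := by
    rw [sum_image]
    intro a ha b hb hab
    rw [mem_coe, mem_filter] at ha hb
    simp only at hab
    omega
  rw [h4]
  apply sum_le_sum_of_subset_of_nonneg
  · intro s hs
    rw [mem_image] at hs
    obtain ⟨t, ht, rfl⟩ := hs
    rw [mem_filter, mem_range] at ht
    rw [mem_range]
    omega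
  · intro _ _ _
    exact sum_nonneg fun _ _ => abs_nonneg _

/-- Change of the set of words. -/
theorem lev_sub {A V : Finset (List ℕ)} (h : V ⊆ A) (T m : ℕ) :
    lev A T m ≤ lev V T m + 2 * P (A \ V) := by
  have h1 := FG_mass (A \ V) T (m + 1) 0
  have h2 := FG_mass (A \ V) T m 1
  simp only [add_zero, pow_zero, div_one, pow_one] at h1 h2
  have h3 : lev A T m ≤ lev V T m +
      (∑ t ∈ range T, ∑ x ∈ range (3 ^ (m + 1)), FG (A \ V) t (m + 1) (x : ℤ)) +
      ∑ t ∈ range T, ∑ x ∈ range (3 ^ (m + 1)), FG (A \ V) t m (x : ℤ) / 3 := by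
    unfold lev
    rw [← sum_add_distrib, ← sum_add_distrib]
    apply sum_le_sum
    intro t _
    rw [← sum_add_distrib, ← sum_add_distrib]
    apply sum_le_sum
    intro x _
    rw [FG_sub h, FG_sub h]
    have e : FG V t (m + 1) (x : ℤ) + FG (A \ V) t (m + 1) (x : ℤ) -
        (FG V t m (x : ℤ) + FG (A \ V) t m (x : ℤ)) / 3 =
        (FG V t (m + 1) (x : ℤ) - FG V t m (x : ℤ) / 3) +
        (FG (A \ V) t (m + 1) (x : ℤ) - FG (A \ V) t m (x : ℤ) / 3) := by ring
    rw [e]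
    refine (abs_add_le _ _).trans ?_
    rw [add_assoc]
    apply add_le_add_right
    have n1 := FG_nonneg (A \ V) t (m + 1) (x : ℤ)
    have n2 := FG_nonneg (A \ V) t m (x : ℤ)
    rw [abs_le]
    constructor <;> linarith
  linarith

/-- Small masses. -/
theorem Err_two {A G G' : Finset (List ℕ)} (h : G ⊆ A) (h' : G' ⊆ A) (T m : ℕ) :
    ∑ t ∈ range T, ∑ x ∈ range (3 ^ (m + 1)), |FG G t (m + 1) (x : ℤ) - FG G' t m (x : ℤ) / 3| ≤
      lev A T m + P (A \ G) + P (A \ G') := by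
  have h1 := FG_mass (A \ G) T (m + 1) 0
  have h2 := FG_mass (A \ G') T m 1
  simp only [add_zero, pow_zero, div_one, pow_one] at h1 h2
  have h3 : ∑ t ∈ range T, ∑ x ∈ range (3 ^ (m + 1)),
      |FG G t (m + 1) (x : ℤ) - FG G' t m (x : ℤ) / 3| ≤ lev A T m +
      (∑ t ∈ range T, ∑ x ∈ range (3 ^ (m + 1)), FG (A \ G) t (m + 1) (x : ℤ)) +
      ∑ t ∈ range T, ∑ x ∈ range (3 ^ (m + 1)), FG (A \ G') t m (x : ℤ) / 3 := by
    unfold lev
    rw [← sum_add_distrib, ← sum_add_distrib]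
    apply sum_le_sum
    intro t _
    rw [← sum_add_distrib, ← sum_add_distrib]
    apply sum_le_sum
    intro x _
    rw [FG_sub h t (m + 1), FG_sub h' t m]
    have n1 := FG_nonneg (A \ G) t (m + 1) (x : ℤ)
    have n2 := FG_nonneg (A \ G') t m (x : ℤ)
    have e : FG G t (m + 1) (x : ℤ) - FG G' t m (x : ℤ) / 3 =
        (FG G t (m + 1) (x : ℤ) + FG (A \ G) t (m + 1) (x : ℤ) -
        (FG G' t m (x : ℤ) + FG (A \ G') t m (x : ℤ)) / 3) +
        (FG (A \ G') t m (x : ℤ) / 3 - FG (A \ G) t (m + 1) (x : ℤ)) := by ring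
    rw [e]
    refine (abs_add_le _ _).trans ?_
    rw [add_assoc]
    apply add_le_add_right
    rw [abs_le]
    constructor <;> linarith
  linarith

theorem P_words_le (I k : ℕ) : P (words I k) ≤ 1 := by
  rw [P_words]
  exact pow_le_one₀ (Z_nonneg I) (Z_le_one I)

theorem lev_words_le (J k T m : ℕ) : lev (words J k) T m ≤ lev (words J k) (J * k + 1) m := by
  rcases le_or_gt T (J * k + 1) with h | h
  · exact lev_mono _ h m
  · apply le_of_eq
    unfold lev
    symm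
    apply sum_subset (range_subset_range.2 h.le)
    intro t _ ht
    rw [mem_range, not_lt] at ht
    apply sum_eq_zero
    intro x _
    rw [FG_words, FG_words, Fw_eq_zero _ _ (by omega), Fw_eq_zero _ _ (by omega)]
    simp

theorem Err_log (L : ℕ) : ((L : ℝ) + 1) ^ 9 ≤ 4 * (Nat.factorial 9 : ℝ) * 4 ^ L := by
  have h1 := Real.pow_div_factorial_le_exp ((L : ℝ) + 1) (by positivity) 9
  rw [div_le_iff₀ (by positivity)] at h1
  have h2 : Real.exp ((L : ℝ) + 1) ≤ 4 ^ (L + 1) := by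
    have h3 : Real.exp ((L : ℝ) + 1) = Real.exp 1 ^ (L + 1) := by
      rw [← Real.exp_nat_mul]
      congr 1
      push_cast
      ring
    rw [h3]
    have h4 := Real.exp_one_lt_d9
    exact pow_le_pow_left₀ (Real.exp_pos 1).le (by linarith) _
  calc ((L : ℝ) + 1) ^ 9 ≤ Real.exp ((L : ℝ) + 1) * (Nat.factorial 9 : ℝ) := h1
    _ ≤ 4 ^ (L + 1) * (Nat.factorial 9 : ℝ) := mul_le_mul_of_nonneg_right h2 (by positivity)
    _ = _ := by ring

/-- The unrestricted words. -/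
theorem Err_words : ∃ (C : ℝ) (I₀ : ℕ), 0 < C ∧ 1 ≤ I₀ ∧ ∀ I l T : ℕ, I₀ ≤ I → 1 ≤ l →
    lev (words I (l + 1)) T l ≤ C / (l : ℝ) ^ 6 := by
  obtain ⟨C, I₀, hC, hI₀, hmix⟩ := mixRate_strong 8
  refine ⟨C * (((I₀ : ℝ) + 8) ^ 9 * (4 * (Nat.factorial 9 : ℝ))) + 1024, I₀, by positivity,
    hI₀, ?_⟩
  intro I l T hI hl
  have hl0 : (1 : ℝ) ≤ l := by exact_mod_cast hl
  set L := Nat.log 2 l with hL
  set J0 := I₀ + 8 * L with hJ0
  set J := min I J0 with hJ
  have hL1 : 2 ^ L ≤ l := Nat.pow_log_le_self 2 (by omega)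
  have hL2 : l < 2 ^ (L + 1) := Nat.lt_pow_succ_log_self (by norm_num) l
  have hL1r : (2 : ℝ) ^ L ≤ l := by exact_mod_cast hL1
  have hL2r : (l : ℝ) ≤ 2 * 2 ^ L := by
    have h1 : (l : ℝ) < 2 ^ (L + 1) := by exact_mod_cast hL2
    rw [pow_succ] at h1
    linarith
  have hJI : J ≤ I := min_le_left _ _
  have hIJ : I₀ ≤ J := le_min hI (by omega)
  -- the error of the truncation
  have hP : P (words I (l + 1) \ words J (l + 1)) ≤ 512 / (l : ℝ) ^ 6 := by
    have h1 : P (words I (l + 1) \ words J (l + 1)) ≤ ((l + 1 : ℕ) : ℝ) * (1 / 2) ^ J0 := by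
      rcases le_or_gt I J0 with h | h
      · have hJe : J = I := min_eq_left h
        have : P (words I (l + 1) \ words I (l + 1)) = 0 := by simp [P]
        rw [hJe, this]
        positivity
      · have hJe : J = J0 := min_eq_right h.le
        rw [hJe]
        have h2 : P (words I (l + 1) \ words J0 (l + 1)) =
            P (words I (l + 1)) - P (words J0 (l + 1)) := by
          unfold P
          rw [← sum_sdiff (words_mono h.le (l + 1))]
          ring
        have h3 := one_sub_Z_pow J0 (l + 1)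
        have h4 := P_words_le I (l + 1)
        rw [h2, P_words J0]
        linarith
    refine h1.trans ?_
    have h2 : (1 / 2 : ℝ) ^ J0 ≤ (1 / 2) ^ (8 * L) :=
      pow_le_pow_of_le_one (by norm_num) (by norm_num) (by omega)
    have h3 : (1 / 2 : ℝ) ^ (8 * L) * (l : ℝ) ^ 8 ≤ 256 := by
      calc (1 / 2 : ℝ) ^ (8 * L) * (l : ℝ) ^ 8 ≤ (1 / 2 : ℝ) ^ (8 * L) * (2 * 2 ^ L) ^ 8 := by
            apply mul_le_mul_of_nonneg_left _ (by positivity)
            exact pow_le_pow_left₀ (by positivity) hL2r 8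
        _ = 256 * ((1 / 2 : ℝ) ^ L * 2 ^ L) ^ 8 := by
            rw [mul_comm 8 L, pow_mul]
            ring
        _ = 256 := by
            rw [← mul_pow]
            norm_num
    rw [le_div_iff₀ (by positivity)]
    have h4 : ((l + 1 : ℕ) : ℝ) ≤ 2 * l := by
      push_cast
      linarith
    calc ((l + 1 : ℕ) : ℝ) * (1 / 2) ^ J0 * (l : ℝ) ^ 6
        ≤ (2 * l) * (1 / 2) ^ (8 * L) * (l : ℝ) ^ 6 := by
          apply mul_le_mul_of_nonneg_right _ (by positivity)
          exact mul_le_mul h4 h2 (by positivity) (by positivity)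
      _ = 2 * ((1 / 2) ^ (8 * L) * (l : ℝ) ^ 7) := by ring
      _ ≤ 2 * ((1 / 2) ^ (8 * L) * (l : ℝ) ^ 8) := by
          apply mul_le_mul_of_nonneg_left _ (by norm_num)
          apply mul_le_mul_of_nonneg_left _ (by positivity)
          exact pow_le_pow_right₀ hl0 (by norm_num)
      _ ≤ 2 * 256 := mul_le_mul_of_nonneg_left h3 (by norm_num)
      _ = 512 := by norm_num
  -- the mixing
  have hM : lev (words J (l + 1)) T l ≤
      C * (((I₀ : ℝ) + 8) ^ 9 * (4 * (Nat.factorial 9 : ℝ))) / (l : ℝ) ^ 6 := by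
    have h1 := hmix J l (l + 1) hIJ hl (Nat.le_succ l)
    have h2 : lev (words J (l + 1)) (J * (l + 1) + 1) l ≤ C * (J : ℝ) ^ (8 + 1) / (l : ℝ) ^ 8 := by
      refine le_trans (le_of_eq ?_) h1
      unfold lev
      apply sum_congr rfl
      intro t _
      apply sum_congr rfl
      intro x _
      rw [FG_words, FG_words, Nat.add_sub_cancel_left, pow_one]
    refine (lev_words_le J (l + 1) T l).trans (h2.trans ?_)
    have h3 : (J : ℝ) ≤ ((I₀ : ℝ) + 8) * ((L : ℝ) + 1) := by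
      have h4 : (J : ℝ) ≤ (J0 : ℝ) := by exact_mod_cast min_le_right I J0
      refine h4.trans ?_
      rw [hJ0]
      push_cast
      nlinarith [(Nat.cast_nonneg L : (0 : ℝ) ≤ L), (Nat.cast_nonneg I₀ : (0 : ℝ) ≤ I₀)]
    have h5 : (4 : ℝ) ^ L ≤ (l : ℝ) ^ 2 := by
      calc (4 : ℝ) ^ L = (2 ^ L) ^ 2 := by
            rw [← pow_mul, mul_comm, pow_mul]
            norm_num
        _ ≤ (l : ℝ) ^ 2 := pow_le_pow_left₀ (by positivity) hL1r 2
    have h6 : (J : ℝ) ^ (8 + 1) ≤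
        (((I₀ : ℝ) + 8) ^ 9 * (4 * (Nat.factorial 9 : ℝ))) * (l : ℝ) ^ 2 := by
      calc (J : ℝ) ^ (8 + 1) ≤ (((I₀ : ℝ) + 8) * ((L : ℝ) + 1)) ^ 9 :=
            pow_le_pow_left₀ (by positivity) h3 _
        _ = ((I₀ : ℝ) + 8) ^ 9 * ((L : ℝ) + 1) ^ 9 := by rw [mul_pow]
        _ ≤ ((I₀ : ℝ) + 8) ^ 9 * (4 * (Nat.factorial 9 : ℝ) * 4 ^ L) :=
            mul_le_mul_of_nonneg_left (Err_log L) (by positivity)
        _ ≤ ((I₀ : ℝ) + 8) ^ 9 * (4 * (Nat.factorial 9 : ℝ) * (l : ℝ) ^ 2) := by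
            apply mul_le_mul_of_nonneg_left _ (by positivity)
            exact mul_le_mul_of_nonneg_left h5 (by positivity)
        _ = _ := by ring
    rw [div_le_div_iff₀ (by positivity) (by positivity)]
    calc C * (J : ℝ) ^ (8 + 1) * (l : ℝ) ^ 6 ≤
        C * ((((I₀ : ℝ) + 8) ^ 9 * (4 * (Nat.factorial 9 : ℝ))) * (l : ℝ) ^ 2) * (l : ℝ) ^ 6 := by
          apply mul_le_mul_of_nonneg_right _ (by positivity)
          exact mul_le_mul_of_nonneg_left h6 hC
      _ = _ := by ring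
  have h7 := lev_sub (words_mono hJI (l + 1)) T l
  rw [add_div]
  have h8 : (1024 : ℝ) / (l : ℝ) ^ 6 = 2 * (512 / (l : ℝ) ^ 6) := by ring
  rw [h8]
  linarith

/-! ### The condition on the first letters -/

theorem P_biUnion_le {ι : Type*} [DecidableEq ι] (s : Finset ι) (f : ι → Finset (List ℕ)) :
    P (s.biUnion f) ≤ ∑ i ∈ s, P (f i) := by
  induction s using Finset.induction_on with
  | empty => simp [P]
  | insert a s ha ih =>
    rw [biUnion_insert, sum_insert ha]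
    exact (P_union_le _ _).trans (add_le_add_right ih _)

theorem W1_subset (u : ℝ) (I k n : ℕ) : W1 u I k n ⊆ words I k := by
  unfold W1
  exact filter_subset _ _

theorem W1_anti (u : ℝ) (I k : ℕ) {n n' : ℕ} (h : n ≤ n') : W1 u I k n' ⊆ W1 u I k n := by
  intro w hw
  rw [mem_W1] at hw ⊢
  exact ⟨hw.1, fun i hi => hw.2 i (hi.trans h)⟩

theorem W1_cat (u : ℝ) (I h l : ℕ) : W1 u I (h + l) h = cat (W1 u I h h) (words I l) := by
  ext w
  rw [mem_W1, words_add, cat, cat, mem_image, mem_image]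
  constructor
  · rintro ⟨⟨⟨v, v'⟩, h1, rfl⟩, h2⟩
    rw [mem_product] at h1
    refine ⟨(v, v'), ?_, rfl⟩
    rw [mem_product, mem_W1]
    refine ⟨⟨h1.1, fun i hi => ?_⟩, h1.2⟩
    have h3 := h2 i hi
    rw [List.take_append_of_le_length (by rw [words_length h1.1]; exact hi)] at h3
    exact h3
  · rintro ⟨⟨v, v'⟩, h1, rfl⟩
    rw [mem_product, mem_W1] at h1
    refine ⟨⟨(v, v'), by rw [mem_product]; exact ⟨h1.1.1, h1.2⟩, rfl⟩, fun i hi => ?_⟩
    rw [List.take_append_of_le_length (by rw [words_length h1.1.1]; exact hi)]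
    exact h1.1.2 i hi

theorem P_take_le (I n i : ℕ) (hi : i ≤ n) (p : List ℕ → Prop) [DecidablePred p] :
    P ((words I n).filter fun w => p (w.take i)) ≤ P ((words I i).filter p) := by
  have h1 : (words I n).filter (fun w => p (w.take i)) ⊆
      cat ((words I i).filter p) (words I (n - i)) := by
    intro w hw
    rw [mem_filter] at hw
    have h2 : w ∈ cat (words I i) (words I (n - i)) := by
      rw [← words_add, Nat.add_sub_cancel' hi]
      exact hw.1
    rw [cat, mem_image] at h2 ⊢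
    obtain ⟨⟨v, v'⟩, h3, rfl⟩ := h2
    rw [mem_product] at h3
    refine ⟨(v, v'), ?_, rfl⟩
    rw [mem_product, mem_filter]
    refine ⟨⟨h3.1, ?_⟩, h3.2⟩
    have h4 := hw.2
    rw [List.take_left' (words_length h3.1)] at h4
    exact h4
  refine (P_mono h1).trans ?_
  rw [P_cat (N := i) fun v hv => words_length (mem_filter.1 hv).1]
  exact mul_le_of_le_one_right (P_nonneg _) (P_words_le I _)

theorem Err_slope {i s : ℕ} (h : (2 : ℝ) ^ s < 3 ^ i) : 100 * s < 199 * i := by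
  by_contra hcon
  push Not at hcon
  have h1 : (3 : ℝ) ^ (100 * i) ≤ 2 ^ (100 * s) := by
    calc (3 : ℝ) ^ (100 * i) = (3 ^ 100) ^ i := pow_mul _ _ _
      _ ≤ (2 ^ 199) ^ i := pow_le_pow_left₀ (by positivity) (by norm_num) i
      _ = 2 ^ (199 * i) := (pow_mul _ _ _).symm
      _ ≤ 2 ^ (100 * s) := pow_le_pow_right₀ (by norm_num) hcon
  have h2 : ((2 : ℝ) ^ s) ^ 100 < (3 ^ i) ^ 100 := pow_lt_pow_left₀ h (by positivity) (by norm_num)
  rw [← pow_mul, ← pow_mul, mul_comm s, mul_comm i] at h2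
  linarith

theorem Err_tail {ρ : ℝ} (hρ0 : 0 < ρ) (hρ1 : ρ < 1) (hρ : ∀ I d : ℕ,
    P ((words I d).filter fun w => 100 * w.sum < 199 * d) ≤ ρ ^ d) (I n h : ℕ) {u : ℝ}
    (hu : 1 ≤ u) : P (W1 u I n h \ W1 u I n n) ≤ n * ρ ^ h := by
  have h1 : W1 u I n h \ W1 u I n n ⊆ (Ioc h n).biUnion fun i =>
      (words I n).filter fun w => 100 * (w.take i).sum < 199 * i := by
    intro w hw
    rw [mem_sdiff, mem_W1, mem_W1] at hw
    obtain ⟨⟨h2, h3⟩, h4⟩ := hw
    have h5 : ∃ i ≤ n, ¬ (3 : ℝ) ^ i ≤ u * 2 ^ (w.take i).sum := by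
      by_contra hcon
      push Not at hcon
      exact h4 ⟨h2, hcon⟩
    obtain ⟨i, hi, h6⟩ := h5
    rw [mem_biUnion]
    refine ⟨i, ?_, ?_⟩
    · rw [mem_Ioc]
      refine ⟨?_, hi⟩
      by_contra h7
      exact h6 (h3 i (by omega))
    · rw [mem_filter]
      refine ⟨h2, Err_slope ?_⟩
      push Not at h6
      refine lt_of_le_of_lt ?_ h6
      exact le_mul_of_one_le_left (by positivity) hu
  refine (P_mono h1).trans ((P_biUnion_le _ _).trans ?_)
  have h2 : ∀ i ∈ Ioc h n, P ((words I n).filter fun w => 100 * (w.take i).sum < 199 * i) ≤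
      ρ ^ h := by
    intro i hi
    rw [mem_Ioc] at hi
    refine (P_take_le I n i hi.2 (fun w => 100 * w.sum < 199 * i)).trans ((hρ I i).trans ?_)
    exact pow_le_pow_of_le_one hρ0.le hρ1.le hi.1.le
  refine (sum_le_sum h2).trans ?_
  rw [sum_const, nsmul_eq_mul, Nat.card_Ioc]
  apply mul_le_mul_of_nonneg_right _ (by positivity)
  exact_mod_cast Nat.sub_le n h

theorem thm_Err : St_Err := by
  obtain ⟨C₁, I₀, hC₁, hI₀, hW⟩ := Err_words
  obtain ⟨ρ, hρ0, hρ1, hρ⟩ := lower_tail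
  obtain ⟨N₀, hN₀⟩ := Filter.eventually_atTop.1
    (eventually_pow_div ρ hρ0 hρ1 2 7 (by norm_num) 1 one_pos)
  refine ⟨2 * ((N₀ : ℝ) + 3) ^ 6 + (C₁ * 4 ^ 6 + 2), I₀, by positivity, ?_⟩
  intro I n u hI hn hu
  obtain ⟨m, rfl⟩ : ∃ m, n = m + 1 := ⟨n - 1, by omega⟩
  rw [Nat.add_sub_cancel]
  have hn0 : (0 : ℝ) < ((m + 1 : ℕ) : ℝ) := by positivity
  rcases lt_or_ge (m + 1) (N₀ + 3) with hs | hs
  · -- small n
    have h1 := FG_mass (W1 u I (m + 1) (m + 1)) (I * (m + 1) + 1) (m + 1) 0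
    have h2 := FG_mass (W1 u I (m + 1) m) (I * (m + 1) + 1) m 1
    simp only [add_zero, pow_zero, div_one, pow_one] at h1 h2
    have h3 : ∑ t ∈ range (I * (m + 1) + 1), ∑ x ∈ range (3 ^ (m + 1)),
        |FG (W1 u I (m + 1) (m + 1)) t (m + 1) (x : ℤ) - FG (W1 u I (m + 1) m) t m (x : ℤ) / 3| ≤
        (∑ t ∈ range (I * (m + 1) + 1), ∑ x ∈ range (3 ^ (m + 1)),
          FG (W1 u I (m + 1) (m + 1)) t (m + 1) (x : ℤ)) +
        ∑ t ∈ range (I * (m + 1) + 1), ∑ x ∈ range (3 ^ (m + 1)),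
          FG (W1 u I (m + 1) m) t m (x : ℤ) / 3 := by
      rw [← sum_add_distrib]
      apply sum_le_sum
      intro t _
      rw [← sum_add_distrib]
      apply sum_le_sum
      intro x _
      have n1 := FG_nonneg (W1 u I (m + 1) (m + 1)) t (m + 1) (x : ℤ)
      have n2 := FG_nonneg (W1 u I (m + 1) m) t m (x : ℤ)
      rw [abs_le]
      constructor <;> linarith
    have h4 := (P_mono (W1_subset u I (m + 1) (m + 1))).trans (P_words_le I (m + 1))
    have h5 := (P_mono (W1_subset u I (m + 1) m)).trans (P_words_le I (m + 1))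
    refine (h3.trans (add_le_add (h1.trans h4) (h2.trans h5))).trans ?_
    rw [le_div_iff₀ (by positivity)]
    have h6 : ((m + 1 : ℕ) : ℝ) ≤ (N₀ : ℝ) + 3 := by exact_mod_cast hs.le
    have h7 : ((m + 1 : ℕ) : ℝ) ^ 6 ≤ ((N₀ : ℝ) + 3) ^ 6 := pow_le_pow_left₀ hn0.le h6 6
    have h8 : (0 : ℝ) ≤ C₁ * 4 ^ 6 + 2 := by positivity
    linarith
  · -- large n
    obtain ⟨h, hh⟩ : ∃ h, h = (m + 1) / 2 := ⟨_, rfl⟩
    obtain ⟨l, hl⟩ : ∃ l, m = h + l := ⟨m - h, by omega⟩
    have hl1 : 1 ≤ l := by omega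
    have hnl : m + 1 ≤ 4 * l := by omega
    have h1 := Err_two (W1_anti u I (m + 1) (show h ≤ m + 1 by omega))
      (W1_anti u I (m + 1) (show h ≤ m by omega)) (I * (m + 1) + 1) m
    have h2 := Err_tail hρ0 hρ1 hρ I (m + 1) h hu
    have h3 : P (W1 u I (m + 1) h \ W1 u I (m + 1) m) ≤ ((m + 1 : ℕ) : ℝ) * ρ ^ h :=
      (P_mono (sdiff_subset_sdiff (Subset.refl _) (W1_anti u I (m + 1) (Nat.le_succ m)))).trans h2
    have h4 : lev (W1 u I (m + 1) h) (I * (m + 1) + 1) m ≤ C₁ / (l : ℝ) ^ 6 := by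
      have e : m + 1 = h + (l + 1) := by omega
      have h5 : W1 u I (m + 1) h = cat (W1 u I h h) (words I (l + 1)) := by
        rw [e]
        exact W1_cat u I h (l + 1)
      rw [h5, show lev (cat (W1 u I h h) (words I (l + 1))) (I * (m + 1) + 1) m =
        lev (cat (W1 u I h h) (words I (l + 1))) (I * (m + 1) + 1) (h + l) by rw [← hl]]
      refine (lev_cat (fun v hv => words_length (W1_subset u I h h hv)) _ l).trans ?_
      have h6 := (P_mono (W1_subset u I h h)).trans (P_words_le I h)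
      refine (mul_le_of_le_one_left (lev_nonneg _ _ _) h6).trans ?_
      exact hW I l _ hI hl1
    have h5 : ρ ^ h * ((m + 1 : ℕ) : ℝ) ^ 7 ≤ 1 := hN₀ (m + 1) (by omega) h (by omega)
    have h6 : ((m + 1 : ℕ) : ℝ) * ρ ^ h ≤ 1 / ((m + 1 : ℕ) : ℝ) ^ 6 := by
      rw [le_div_iff₀ (by positivity)]
      calc ((m + 1 : ℕ) : ℝ) * ρ ^ h * ((m + 1 : ℕ) : ℝ) ^ 6 =
          ρ ^ h * ((m + 1 : ℕ) : ℝ) ^ 7 := by ring
        _ ≤ 1 := h5
    have h7 : C₁ / (l : ℝ) ^ 6 ≤ C₁ * 4 ^ 6 / ((m + 1 : ℕ) : ℝ) ^ 6 := by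
      have hl0 : (0 : ℝ) < l := by exact_mod_cast hl1
      rw [div_le_div_iff₀ (by positivity) (by positivity)]
      have h8 : ((m + 1 : ℕ) : ℝ) ≤ 4 * l := by exact_mod_cast hnl
      calc C₁ * ((m + 1 : ℕ) : ℝ) ^ 6 ≤ C₁ * (4 * l) ^ 6 := by
            apply mul_le_mul_of_nonneg_left _ hC₁.le
            exact pow_le_pow_left₀ hn0.le h8 6
        _ = C₁ * 4 ^ 6 * (l : ℝ) ^ 6 := by ring
    have h8 : (0 : ℝ) ≤ 2 * ((N₀ : ℝ) + 3) ^ 6 / ((m + 1 : ℕ) : ℝ) ^ 6 := by positivity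
    rw [add_div, add_div]
    have h9 : (2 : ℝ) / ((m + 1 : ℕ) : ℝ) ^ 6 = 1 / ((m + 1 : ℕ) : ℝ) ^ 6 +
      1 / ((m + 1 : ℕ) : ℝ) ^ 6 := by ring
    linarith

end Pool.Agent.Collatz3.PR
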