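import Mathlib
import Pool.Agent.Collatz3.PRDefs

set_option autoImplicit false

/-!
Tao's theorem in sifted sets: sifted integers whose first letters are not good.
-/

namespace Pool.Agent.Collatz3.PR

open Finset
open Pool.Agent.Collatz3.Mix (words mem_words)
open Pool.Agent.Collatz3.PD
open Pool.Agent.Collatz3.FW
open Pool.Agent.Helper90.Straus (Sys g pr mem_pr g_mem)

/-- The first letters depend on the class modulo a power of two. -/
theorem Res_per {G : Finset (List ℕ)} {m : ℕ} (hs : ∀ w ∈ G, w.sum + 1 ≤ m) {n n' : ℤ}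
    (h : (2 : ℤ) ^ m ∣ n' - n) (hn : Hit G (fun _ => Set.univ) n) :
    Hit G (fun _ => Set.univ) n' := by
  obtain ⟨w, hw, b, hb, hr, he, -⟩ := hn
  obtain ⟨q, hq⟩ := h
  obtain ⟨j, hj⟩ := Nat.exists_eq_add_of_le (hs w hw)
  refine ⟨w, hw, b + 3 ^ w.length * (2 ^ (j + 1) * q), ?_, rd_add.2 hr, ?_, Set.mem_univ _⟩
  · have e1 : (3 : ℤ) ^ w.length * (2 ^ (j + 1) * q) = 2 * (3 ^ w.length * (2 ^ j * q)) := by ring
    rw [e1]
    omega
  · rw [en_add hr, he]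
    have e1 : (2 : ℤ) ^ w.sum * (2 ^ (j + 1) * q) = 2 ^ m * q := by
      rw [hj]
      ring
    rw [e1, ← hq]
    ring

theorem VV_nonneg {κ : ℕ} {Ω : ℕ → Finset ℕ} (hΩ : Sys κ Ω) (z : ℕ) : 0 ≤ VV Ω z := by
  unfold VV
  apply prod_nonneg
  intro p hp
  have := (g_mem hΩ (mem_pr.1 hp).2).2
  linarith

open Classical in
theorem thm_Res (hS1 : St_S1) : St_Res := by
  intro κ hκ
  obtain ⟨C, hC, hBT⟩ := hS1 κ hκ
  refine ⟨C, hC, ?_⟩
  intro z X I k G e Ω hG hs hk hz hzX hX hΩ he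
  obtain ⟨m, hm⟩ : ∃ m : ℕ, m = 3 * k := ⟨_, rfl⟩
  have hs' : ∀ w ∈ G, w.sum + 1 ≤ m := by
    intro w hw
    have := hs w hw
    omega
  have hV := VV_nonneg hΩ z
  have hz2 : (2 : ℝ) ≤ z := by exact_mod_cast hz
  have hX0 : (0 : ℝ) < X := by linarith
  have h4m : (4 : ℝ) ^ m ≤ X := by
    have : (4 : ℝ) ^ m = 2 ^ (6 * k) := by
      rw [hm, show (4 : ℝ) = 2 ^ 2 by norm_num, ← pow_mul]
      congr 1
      ring
    rw [this]
    exact hX
  set Bad := (Od e (2 ^ m)).filter fun r => ¬ Hit G (fun _ => Set.univ) r with hBad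
  -- the number of bad classes
  have hcard : (Bad.card : ℝ) ≤ 2 ^ m * ((1 - P G) + (1 / 2) ^ (k / 2)) := by
    have h1 := hit_count he (by omega : 1 ≤ k) hG ((2 : ℝ) ^ m)
    have h2 : (((Od e ((2 : ℝ) ^ m)).filter fun n => Hit G (fun _ => Set.univ) n).card : ℝ) +
        (Bad.card : ℝ) = oc ((2 : ℝ) ^ m) := by
      rw [← card_Od he ((2 : ℝ) ^ m), ← card_filter_add_card_filter_not (s := Od e ((2 : ℝ) ^ m))
        (fun n => Hit G (fun _ => Set.univ) n), Nat.cast_add]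
    have h3 : (oc ((2 : ℝ) ^ m) : ℝ) ≤ ((2 : ℝ) ^ m + 1) / 2 := oc_le (by positivity)
    have h4 : (G.card : ℝ) ≤ 2 ^ (201 * k / 100) := by
      apply card_words_le hG
      intro w hw
      have := hs w hw
      omega
    have h5 : P G ≤ 1 := by
      refine (P_mono hG).trans ?_
      rw [P_words]
      exact pow_le_one₀ (Z_nonneg I) (Z_le_one I)
    have h6 : (2 : ℝ) ^ (201 * k / 100) * 2 ≤ 2 ^ m * (1 / 2) ^ (k / 2) := by
      have h7 : 201 * k / 100 + 1 + k / 2 ≤ m := by omega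
      have h8 : (2 : ℝ) ^ (201 * k / 100 + 1 + k / 2) ≤ 2 ^ m :=
        pow_le_pow_right₀ (by norm_num) h7
      have h9 : (2 : ℝ) ^ (k / 2) * (1 / 2) ^ (k / 2) = 1 := by
        rw [← mul_pow]
        norm_num
      calc (2 : ℝ) ^ (201 * k / 100) * 2 =
          2 ^ (201 * k / 100 + 1 + k / 2) * (1 / 2) ^ (k / 2) := by
            rw [pow_add (2 : ℝ) (201 * k / 100 + 1), mul_assoc, h9, mul_one, pow_succ]
        _ ≤ 2 ^ m * (1 / 2) ^ (k / 2) := mul_le_mul_of_nonneg_right h8 (by positivity)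
    have h7 : (0 : ℝ) ≤ 2 ^ m * (1 - P G) := mul_nonneg (by positivity) (by linarith)
    have h8 : (1 : ℝ) ≤ 2 ^ (201 * k / 100) := one_le_pow₀ (by norm_num)
    nlinarith
  -- the classes
  have hsub : (Od e X).filter (fun n => Sf Ω z n ∧ ¬ Hit G (fun _ => Set.univ) n) ⊆
      Bad.biUnion fun r => (Od e X).filter fun n => Sf Ω z n ∧ (2 : ℤ) ^ m ∣ n - r := by
    intro n hn
    rw [mem_filter] at hn
    obtain ⟨hn1, hn2, hn3⟩ := hn
    obtain ⟨ho, hpos, -⟩ := (mem_Od he).1 hn1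
    have hmpos : (0 : ℤ) < 2 ^ m := by positivity
    have hm1 : (2 : ℤ) ∣ 2 ^ m := dvd_pow_self 2 (by omega)
    set r : ℤ := e * ((e * n) % 2 ^ m) with hr
    have hee := mul_self_sign he
    have hdiv : (2 : ℤ) ^ m ∣ n - r := by
      refine ⟨e * ((e * n) / 2 ^ m), ?_⟩
      rw [hr, Int.emod_def]
      linear_combination (-n) * hee
    have hodd : ((e * n) % 2 ^ m) % 2 = 1 := by
      rw [Int.emod_emod_of_dvd _ hm1]
      rcases he with h' | h' <;> rw [h'] <;> omega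
    have hr1 := Int.emod_nonneg (e * n) hmpos.ne'
    have hr2 := Int.emod_lt_of_pos (e * n) hmpos
    have her : e * r = (e * n) % 2 ^ m := by
      rw [hr, ← mul_assoc, hee, one_mul]
    rw [mem_biUnion]
    refine ⟨r, ?_, ?_⟩
    · rw [hBad, mem_filter, mem_Od he]
      refine ⟨⟨?_, ?_, ?_⟩, ?_⟩
      · rw [hr]
        rcases he with h' | h' <;> rw [h'] at hodd ⊢ <;> omega
      · rw [her]
        omega
      · rw [her]
        have : (((e * n) % 2 ^ m : ℤ) : ℝ) ≤ (((2 : ℤ) ^ m : ℤ) : ℝ) := by exact_mod_cast hr2.le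
        push_cast at this ⊢
        exact this
      · intro hh
        exact hn3 (Res_per hs' hdiv hh)
    · rw [mem_filter]
      exact ⟨hn1, hn2, hdiv⟩
  -- the odd integers lie in an interval
  obtain ⟨A, hA⟩ : ∃ A : ℤ, ∀ n ∈ Od e X, n ∈ Ioc A (A + ⌊X⌋) := by
    rcases he with h' | h'
    · refine ⟨0, fun n hn => ?_⟩
      obtain ⟨-, h1, h2⟩ := (mem_Od (Or.inl h')).1 hn
      rw [h', one_mul] at h1 h2
      rw [mem_Ioc]
      have h3 : n ≤ ⌊X⌋ := Int.le_floor.2 h2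
      omega
    · refine ⟨-⌊X⌋ - 1, fun n hn => ?_⟩
      obtain ⟨-, h1, h2⟩ := (mem_Od (Or.inr h')).1 hn
      rw [h'] at h1 h2
      rw [mem_Ioc]
      have h3 : -1 * n ≤ ⌊X⌋ := Int.le_floor.2 h2
      omega
  have hcls : ∀ r ∈ Bad, (((Od e X).filter fun n => Sf Ω z n ∧
      (2 : ℤ) ^ m ∣ n - r).card : ℝ) ≤ C * (X / 2 ^ m) * VV Ω z := by
    intro r _
    have h1 := hBT z X m A r Ω hz hzX h4m hΩ
    refine le_trans ?_ h1
    have h2 : ((Od e X).filter fun n => Sf Ω z n ∧ (2 : ℤ) ^ m ∣ n - r).card ≤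
        ((Ioc A (A + ⌊X⌋)).filter fun n => Sf Ω z n ∧ (2 : ℤ) ^ m ∣ n - r).card := by
      apply card_le_card
      intro n hn
      rw [mem_filter] at hn ⊢
      exact ⟨hA n hn.1, hn.2⟩
    exact_mod_cast h2
  calc (((Od e X).filter fun n => Sf Ω z n ∧ ¬ Hit G (fun _ => Set.univ) n).card : ℝ)
      ≤ ((Bad.biUnion fun r => (Od e X).filter fun n => Sf Ω z n ∧
          (2 : ℤ) ^ m ∣ n - r).card : ℝ) := by exact_mod_cast card_le_card hsub
    _ ≤ ∑ r ∈ Bad, (((Od e X).filter fun n => Sf Ω z n ∧ (2 : ℤ) ^ m ∣ n - r).card : ℝ) := by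
        exact_mod_cast card_biUnion_le
    _ ≤ ∑ _r ∈ Bad, C * (X / 2 ^ m) * VV Ω z := sum_le_sum hcls
    _ = (Bad.card : ℝ) * (C * (X / 2 ^ m) * VV Ω z) := by rw [sum_const, nsmul_eq_mul]
    _ ≤ (2 ^ m * ((1 - P G) + (1 / 2) ^ (k / 2))) * (C * (X / 2 ^ m) * VV Ω z) :=
        mul_le_mul_of_nonneg_right hcard (by positivity)
    _ = C * X * VV Ω z * (1 - P G + (1 / 2) ^ (k / 2)) := by
        field_simp

end Pool.Agent.Collatz3.PR
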