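import Mathlib
import Pool.Agent.Collatz3.PRErr
import Pool.Agent.Collatz3.PRRes

set_option autoImplicit false

/-!
Tao's theorem in sifted sets: the inequality of Cauchy and Schwarz for one sum.
-/

namespace Pool.Agent.Collatz3.PR

open Finset
open Pool.Agent.Collatz3.Mix (words mem_words)
open Pool.Agent.Collatz3.PD
open Pool.Agent.Collatz3.FW
open Pool.Agent.Helper90.Straus (Sys g pr mem_pr)

theorem CS_cw : ∀ w : List ℕ, (∀ i ∈ w, 1 ≤ i) →
    (cw w : ℝ) + 2 ^ w.sum ≤ (3 / 2) ^ w.length * 2 ^ w.sum := by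
  intro w
  induction w with
  | nil => intro _; simp [cw]
  | cons i w ih =>
    intro h
    have h1 := ih fun j hj => h j (List.mem_cons_of_mem _ hj)
    have hi : 1 ≤ i := h i List.mem_cons_self
    have h2 : (2 : ℝ) ≤ 2 ^ i := by
      calc (2 : ℝ) = 2 ^ 1 := (pow_one _).symm
        _ ≤ 2 ^ i := pow_le_pow_right₀ (by norm_num) hi
    have h3 : (1 : ℝ) ≤ (3 / 2) ^ w.length := one_le_pow₀ (by norm_num)
    have h4 : (0 : ℝ) < 2 ^ w.sum := by positivity
    rw [cw, List.sum_cons, List.length_cons, pow_add, pow_succ (3 / 2 : ℝ)]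
    push_cast
    have h5 : (2 - 2 ^ i : ℝ) * ((3 / 2) ^ w.length * (3 / 2) - 1) * 2 ^ w.sum ≤ 0 := by
      apply mul_nonpos_of_nonpos_of_nonneg _ h4.le
      apply mul_nonpos_of_nonpos_of_nonneg
      · linarith
      · nlinarith
    nlinarith

theorem CS_cw' {w : List ℕ} (h : ∀ i ∈ w, 1 ≤ i) : (cw w : ℝ) ≤ 2 ^ w.length * 2 ^ w.sum := by
  have h1 := CS_cw w h
  have h2 : (3 / 2 : ℝ) ^ w.length ≤ 2 ^ w.length := pow_le_pow_left₀ (by norm_num) (by norm_num) _
  have h3 : (0 : ℝ) < 2 ^ w.sum := by positivity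
  nlinarith

/-- The class of the upper end points modulo a power of two. -/
theorem CS_class (w : List ℕ) : ∃ r : ℤ, ∀ b : ℤ, rd w b → (2 : ℤ) ^ w.sum ∣ en w b - r := by
  have hcop : IsCoprime ((3 : ℤ) ^ w.length) (2 ^ w.sum) := IsCoprime.pow (by norm_num)
  obtain ⟨x, y, hxy⟩ := hcop
  refine ⟨-(x * cw w), fun b hb => ⟨x * b + y * en w b, ?_⟩⟩
  have h1 := en_spec hb
  linear_combination (-en w b) * hxy + x * h1

open Classical in
theorem thm_CS (hAvg : St_Avg) (hS2 : St_S2) : St_CS := by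
  intro κ hκ
  obtain ⟨C₁, I₀, hC₁, hAvg⟩ := hAvg κ hκ
  obtain ⟨C₂, hC₂, hS2⟩ := hS2 κ hκ
  refine ⟨1 + 2 * C₁ * C₂, I₀, by positivity, ?_⟩
  intro I k s R B z u X δ e F Ω hI hk hu hRk hs hz hzX hzB hB hX hΩ _ he hδ hF
  have hV := VV_nonneg hΩ z
  have hz2 : (2 : ℝ) ≤ z := by exact_mod_cast hz
  have hX0 : (0 : ℝ) < X := by linarith
  have hk0 : (0 : ℝ) < k := by exact_mod_cast hk
  set Y : ℝ := 3 ^ k * X / 2 ^ s + 2 ^ k with hY
  set G := (W2 u I k R).filter (fun w => w.sum = s) with hG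
  have hGw : G ⊆ words I k := by
    intro w hw
    rw [hG, mem_filter, mem_W2, mem_W1] at hw
    exact hw.1.1.1
  have hlen : ∀ w ∈ G, w.length = k := fun w hw => words_length (hGw hw)
  have hpos : ∀ w ∈ G, ∀ i ∈ w, 1 ≤ i := fun w hw i hi => ((mem_words.1 (hGw hw)).2 i hi).1
  have hsum : ∀ w ∈ G, w.sum = s := fun w hw => (mem_filter.1 hw).2
  set S := (Od e Y).filter (fun b => b ∈ F) with hS
  set Ab : ℤ → Finset (List ℕ) := fun b => G.filter fun w => rd w b ∧ en w b ∈ Od e X ∧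
    Sf Ω z (en w b) with hAb
  set T := prs (W2 u I k R) s k with hT
  -- step A
  have hA : (((Od e X).filter fun n => Sf Ω z n ∧ Hit G (fun _ => F) n).card : ℝ) ≤
      ∑ b ∈ S, ((Ab b).card : ℝ) := by
    have h1 : (Od e X).filter (fun n => Sf Ω z n ∧ Hit G (fun _ => F) n) ⊆
        S.biUnion fun b => (Ab b).image fun w => en w b := by
      intro n hn
      rw [mem_filter] at hn
      obtain ⟨hn1, hn2, w, hw, b, hb, hr, hen, hbF⟩ := hn
      have hn3 := (mem_Od he).1 hn1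
      rw [mem_biUnion]
      refine ⟨b, ?_, ?_⟩
      · rw [hS, mem_filter, mem_Od he]
        refine ⟨⟨hb, sign_key he hr (hpos w hw) hb (by rw [hen]; exact hn3.2.1), ?_⟩, hbF⟩
        have h2 := lower_bound he hr (K := 2 ^ k) (X := X)
          (by rw [← hlen w hw]; exact CS_cw' (hpos w hw)) (by rw [hen]; exact hn3.2.2)
        rw [hlen w hw, hsum w hw] at h2
        exact h2
      · rw [mem_image]
        refine ⟨w, ?_, hen⟩
        rw [hAb, mem_filter]
        exact ⟨hw, hr, by rw [hen]; exact hn1, by rw [hen]; exact hn2⟩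
    have h2 : ((Od e X).filter (fun n => Sf Ω z n ∧ Hit G (fun _ => F) n)).card ≤
        ∑ b ∈ S, (Ab b).card := by
      refine (card_le_card h1).trans (card_biUnion_le.trans ?_)
      exact sum_le_sum fun b _ => card_image_le
    exact_mod_cast h2
  -- step C, D
  have hD : ∀ p ∈ T, (((Od e Y).filter fun b => p.1 ∈ Ab b ∧ p.2 ∈ Ab b).card : ℝ) ≤
      C₂ * (X / 2 ^ s) * VV Ω z ^ 2 * sg κ Ω z (dl k p) := by
    intro p hp
    by_cases hpG : p.1 ∈ G ∧ p.2 ∈ G
    · obtain ⟨h1, h2⟩ := hpG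
      obtain ⟨r, hr⟩ := CS_class p.1
      obtain ⟨A, hA⟩ : ∃ A : ℤ, ∀ n ∈ Od e X, n ∈ Ioc A (A + ⌊X⌋) := by
        rcases he with h' | h'
        · refine ⟨0, fun n hn => ?_⟩
          obtain ⟨-, h1, h2⟩ := (mem_Od (Or.inl h')).1 hn
          rw [h', one_mul] at h1 h2
          rw [mem_Ioc]
          have h3 : n ≤ ⌊X⌋ := Int.le_floor.2 h2
          omega
        · refine ⟨-⌊X⌋ - 1, fun n hn => ?_⟩
          obtain ⟨-, h1, h2⟩ := (mem_Od (Or.inr h')).1 hn
          rw [h'] at h1 h2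
          rw [mem_Ioc]
          have h3 : -1 * n ≤ ⌊X⌋ := Int.le_floor.2 h2
          omega
      have h4s : (4 : ℝ) ^ s ≤ X := by
        refine le_trans ?_ hX
        rw [show (4 : ℝ) = 2 ^ 2 by norm_num, ← pow_mul]
        exact pow_le_pow_right₀ (by norm_num) (by omega)
      have h3 := hS2 z X s A r (dl k p) Ω hz hzX h4s hΩ
      refine le_trans ?_ h3
      have h4 : ((Od e Y).filter fun b => p.1 ∈ Ab b ∧ p.2 ∈ Ab b).card ≤
          ((Ioc A (A + ⌊X⌋)).filter fun n => Sf Ω z n ∧ Sf Ω z (n + dl k p) ∧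
            (2 : ℤ) ^ s ∣ n - r).card := by
        apply card_le_card_of_injOn (fun b => en p.1 b)
        · intro b hb
          rw [mem_coe, mem_filter] at hb
          obtain ⟨-, hb1, hb2⟩ := hb
          rw [hAb, mem_filter] at hb1 hb2
          obtain ⟨-, r1, o1, f1⟩ := hb1
          obtain ⟨-, r2, o2, f2⟩ := hb2
          rw [mem_coe, mem_filter]
          refine ⟨hA _ o1, f1, ?_, ?_⟩
          · have e1 := en_spec r1
            have e2 := en_spec r2
            rw [hlen _ h1, hsum _ h1] at e1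
            rw [hlen _ h2, hsum _ h2] at e2
            have e3 : (cw p.1 : ℤ) - cw p.2 = 3 ^ k * (en p.2 b - en p.1 b) := by linarith
            have e4 : dl k p = en p.2 b - en p.1 b := by
              unfold dl
              rw [e3, Int.mul_ediv_cancel_left _ (by positivity)]
            rw [e4, add_sub_cancel]
            exact f2
          · have := hr b r1
            rwa [hsum _ h1] at this
        · intro b hb b' hb' hbb
          rw [mem_coe, mem_filter] at hb hb'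
          obtain ⟨-, hb1, -⟩ := hb
          obtain ⟨-, hb1', -⟩ := hb'
          rw [hAb, mem_filter] at hb1 hb1'
          have e1 := en_spec hb1.2.1
          have e2 := en_spec hb1'.2.1
          simp only at hbb
          rw [hbb, e2] at e1
          have e3 : (2 : ℤ) ^ p.1.sum * b' = 2 ^ p.1.sum * b := by linarith
          exact (mul_left_cancel₀ (pow_ne_zero _ (by norm_num)) e3).symm
      exact_mod_cast h4
    · have h1 : ((Od e Y).filter fun b => p.1 ∈ Ab b ∧ p.2 ∈ Ab b) = ∅ := by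
        rw [filter_eq_empty_iff]
        intro b _ hb
        exact hpG ⟨(mem_filter.1 hb.1).1, (mem_filter.1 hb.2).1⟩
      rw [h1, card_empty, Nat.cast_zero]
      have h2 : 0 ≤ sg κ Ω z (dl k p) := by
        unfold sg
        exact prod_nonneg fun _ _ => by positivity
      positivity
  have hC : ∑ b ∈ S, ((Ab b).card : ℝ) ^ 2 ≤
      C₂ * (X / 2 ^ s) * VV Ω z ^ 2 * ∑ p ∈ T, sg κ Ω z (dl k p) := by
    have h1 : ∀ b, ((Ab b).card : ℝ) ^ 2 ≤
        ∑ p ∈ T, if p.1 ∈ Ab b ∧ p.2 ∈ Ab b then (1 : ℝ) else 0 := by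
      intro b
      rw [← sum_filter, sum_const, nsmul_eq_mul, mul_one, pow_two]
      have h2 : Ab b ×ˢ Ab b ⊆ T.filter fun p => p.1 ∈ Ab b ∧ p.2 ∈ Ab b := by
        intro p hp
        rw [mem_product] at hp
        obtain ⟨g1, g2⟩ := hp
        rw [mem_filter]
        refine ⟨?_, g1, g2⟩
        rw [hAb, mem_filter] at g1 g2
        obtain ⟨h1, r1, -, -⟩ := g1
        obtain ⟨h2, r2, -, -⟩ := g2
        rw [hT]
        unfold prs
        rw [mem_filter, mem_product]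
        rw [rd, hlen _ h1, hsum _ h1] at r1
        rw [rd, hlen _ h2, hsum _ h2] at r2
        rw [hG, mem_filter] at h1 h2
        refine ⟨⟨h1.1, h2.1⟩, h1.2, h2.2, ?_⟩
        have e1 : (cw p.1 : ℤ) - cw p.2 = (2 ^ s * b - cw p.2) - (2 ^ s * b - cw p.1) := by ring
        rw [e1]
        exact dvd_sub r2 r1
      have h3 := card_le_card h2
      rw [card_product] at h3
      exact_mod_cast h3
    calc ∑ b ∈ S, ((Ab b).card : ℝ) ^ 2 ≤ ∑ b ∈ Od e Y, ((Ab b).card : ℝ) ^ 2 :=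
          sum_le_sum_of_subset_of_nonneg (filter_subset _ _) fun _ _ _ => by positivity
      _ ≤ ∑ b ∈ Od e Y, ∑ p ∈ T, (if p.1 ∈ Ab b ∧ p.2 ∈ Ab b then (1 : ℝ) else 0) :=
          sum_le_sum fun b _ => h1 b
      _ = ∑ p ∈ T, (((Od e Y).filter fun b => p.1 ∈ Ab b ∧ p.2 ∈ Ab b).card : ℝ) := by
          rw [sum_comm]
          apply sum_congr rfl
          intro p _
          rw [← sum_filter, sum_const, nsmul_eq_mul, mul_one]
      _ ≤ ∑ p ∈ T, C₂ * (X / 2 ^ s) * VV Ω z ^ 2 * sg κ Ω z (dl k p) := sum_le_sum hD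
      _ = _ := by rw [mul_sum]
  -- Cauchy-Schwarz
  have hcs : (∑ b ∈ S, ((Ab b).card : ℝ)) ^ 2 ≤ (S.card : ℝ) * ∑ b ∈ S, ((Ab b).card : ℝ) ^ 2 :=
    sq_sum_le_card_mul_sum_sq
  have hav := hAvg I k s R B z u Ω hI hk hu hRk hΩ hzB hB
  have hYle : Y ≤ 2 * (3 ^ k * X / 2 ^ s) := by
    have h1 : (2 : ℝ) ^ k ≤ 3 ^ k * X / 2 ^ s := by
      rw [le_div_iff₀ (by positivity), ← pow_add]
      calc (2 : ℝ) ^ (k + s) ≤ 2 ^ (6 * k) := pow_le_pow_right₀ (by norm_num) (by omega)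
        _ ≤ X := hX
        _ ≤ 3 ^ k * X := le_mul_of_one_le_left hX0.le (one_le_pow₀ (by norm_num))
    linarith
  have hY0 : 0 ≤ Y := by positivity
  set E : ℝ := C₂ * (X / 2 ^ s) * VV Ω z ^ 2 *
    (C₁ * ((R : ℝ) + 1) ^ (8 * κ) * u * 4 ^ s / (k * 3 ^ k)) with hE
  have hE0 : 0 ≤ E := by positivity
  have h1 : (∑ b ∈ S, ((Ab b).card : ℝ)) ^ 2 ≤ (δ * Y) * E := by
    refine hcs.trans ?_
    apply mul_le_mul hF _ (sum_nonneg fun _ _ => by positivity) (by positivity)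
    refine hC.trans ?_
    exact mul_le_mul_of_nonneg_left hav (by positivity)
  have h2 : (δ * Y) * E ≤ ((1 + 2 * C₁ * C₂) * X * VV Ω z *
      (√(δ * u / k) * ((R : ℝ) + 1) ^ (4 * κ))) ^ 2 := by
    have e1 : ((1 + 2 * C₁ * C₂) * X * VV Ω z * (√(δ * u / k) * ((R : ℝ) + 1) ^ (4 * κ))) ^ 2 =
        (1 + 2 * C₁ * C₂) ^ 2 * (X ^ 2 * VV Ω z ^ 2 * (δ * u / k) * ((R : ℝ) + 1) ^ (8 * κ)) := by
      have e2 : √(δ * u / k) ^ 2 = δ * u / k := Real.sq_sqrt (by positivity)
      have e3 : (((R : ℝ) + 1) ^ (4 * κ)) ^ 2 = ((R : ℝ) + 1) ^ (8 * κ) := by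
        rw [← pow_mul]
        congr 1
        ring
      rw [mul_pow, mul_pow, mul_pow, mul_pow, e2, e3]
      ring
    rw [e1]
    have e4 : 2 * C₁ * C₂ ≤ (1 + 2 * C₁ * C₂) ^ 2 := by nlinarith [mul_pos hC₁ hC₂]
    calc (δ * Y) * E ≤ (δ * (2 * (3 ^ k * X / 2 ^ s))) * E :=
          mul_le_mul_of_nonneg_right (mul_le_mul_of_nonneg_left hYle hδ) hE0
      _ = 2 * C₁ * C₂ * (X ^ 2 * VV Ω z ^ 2 * (δ * u / k) * ((R : ℝ) + 1) ^ (8 * κ)) := by
          have e5 : (4 : ℝ) ^ s = 2 ^ s * 2 ^ s := by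
            rw [← mul_pow]
            norm_num
          rw [hE, e5]
          field_simp
      _ ≤ _ := mul_le_mul_of_nonneg_right e4 (by positivity)
  refine hA.trans ?_
  exact le_of_sq_le_sq (h1.trans h2) (by positivity)

end Pool.Agent.Collatz3.PR
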