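import Mathlib
import Pool.Agent.Collatz3.FWTyp

set_option autoImplicit false

/-!
Natural density Tao theorem: the errors, with an arbitrary power.
-/

namespace Pool.Agent.Collatz3.TN

open Finset Filter
open Pool.Agent.Collatz3.Mix (words mem_words sum_words_zero sum_words_succ sum_words_add)
open Pool.Agent.Collatz3.PD
open Pool.Agent.Collatz3.FW

theorem bad_small (B : ℕ) : ∀ᶠ N : ℕ in atTop, ∀ I d : ℕ, N / 20 ≤ d → d ≤ N →
    P (badV I N d) ≤ 1 / (N : ℝ) ^ B := by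
  obtain ⟨ρ₁, h10, h11, h1⟩ := upper_tail
  obtain ⟨ρ₂, h20, h21, h2⟩ := lower_tail
  obtain ⟨t, ht⟩ : ∃ t : ℝ, t = √(5 / 4) := ⟨_, rfl⟩
  have ht2 : t ^ 2 = 5 / 4 := by rw [ht]; exact Real.sq_sqrt (by norm_num)
  have ht0 : 0 < t := by rw [ht]; exact Real.sqrt_pos.2 (by norm_num)
  have ht1 : 1 < t := by
    by_contra h
    push Not at h
    nlinarith
  have e1 := eventually_pow_div ρ₁ h10 h11 20 B (by norm_num) (1 / 3) (by norm_num)
  have e2 := eventually_pow_div ρ₂ h20 h21 20 B (by norm_num) (1 / 3) (by norm_num)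
  have e3 := eventually_pow_div (1 / t) (by positivity) (by rw [div_lt_one ht0]; exact ht1)
    1 (B + 1) (by norm_num) (1 / 3) (by norm_num)
  filter_upwards [e1, e2, e3, eventually_gt_atTop 0] with N f1 f2 f3 hN I d hd hd'
  have hN0 : (0 : ℝ) < N := by exact_mod_cast hN
  have g1 := f1 d hd
  have g2 := f2 d hd
  have g3 := f3 N (by omega)
  have sub : badV I N d ⊆ ((words I d).filter fun w => 201 * d < 100 * w.sum) ∪
      (((words I d).filter fun w => 100 * w.sum < 199 * d) ∪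
      ((words I d).filter fun w => (t ^ N) ^ 2 * 2 ^ w.sum < (cw w : ℝ))) := by
    intro w hw
    rw [badV, mem_filter] at hw
    rw [mem_union, mem_union, mem_filter, mem_filter, mem_filter]
    by_contra hcon
    push Not at hcon
    obtain ⟨c1, c2, c3⟩ := hcon
    apply hw.2
    refine ⟨c2 hw.1, c1 hw.1, ?_⟩
    have := c3 hw.1
    rw [← pow_mul, mul_comm N 2, pow_mul, ht2] at this
    exact this
  have hP : P (badV I N d) ≤ ρ₁ ^ d + (ρ₂ ^ d + d / t ^ N) :=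
    (P_mono sub).trans ((P_union_le _ _).trans (add_le_add (h1 I d)
      ((P_union_le _ _).trans (add_le_add (h2 I d) (xr_tail I d (by positivity))))))
  rw [le_div_iff₀ (by positivity)]
  have hd2 : (d : ℝ) ≤ N := by exact_mod_cast hd'
  have g4 : (d : ℝ) / t ^ N * (N : ℝ) ^ B ≤ 1 / 3 := by
    calc (d : ℝ) / t ^ N * (N : ℝ) ^ B ≤ (N : ℝ) / t ^ N * (N : ℝ) ^ B := by
          apply mul_le_mul_of_nonneg_right _ (by positivity)
          exact div_le_div_of_nonneg_right hd2 (by positivity)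
      _ = (1 / t) ^ N * (N : ℝ) ^ (B + 1) := by
          rw [one_div, inv_pow, pow_succ]
          ring
      _ ≤ 1 / 3 := g3
  calc P (badV I N d) * (N : ℝ) ^ B ≤ (ρ₁ ^ d + (ρ₂ ^ d + d / t ^ N)) * (N : ℝ) ^ B :=
        mul_le_mul_of_nonneg_right hP (by positivity)
    _ = ρ₁ ^ d * (N : ℝ) ^ B + (ρ₂ ^ d * (N : ℝ) ^ B + (d : ℝ) / t ^ N * (N : ℝ) ^ B) := by ring
    _ ≤ 1 := by linarith

theorem num_ev (B : ℕ) : ∀ᶠ k : ℕ in atTop,
    ((5 / 4 : ℝ) ^ k + 2) * 2 ^ (201 * k / 100) * (4 * (k : ℝ) ^ B) ≤ 2 ^ (3 * k) := by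
  filter_upwards [eventually_pow_div (5038 / 8000) (by norm_num) (by norm_num) 1 B one_pos
    (1 / 12) (by norm_num)] with k hk
  have h1 := hk k (by omega)
  have h2 := two_pow_smax k
  have h3 : (5 / 4 : ℝ) ^ k + 2 ≤ 3 * (5 / 4) ^ k := by
    have : (1 : ℝ) ≤ (5 / 4) ^ k := one_le_pow₀ (by norm_num)
    linarith
  have h4 : ((5 / 4 : ℝ) ^ k + 2) * 2 ^ (201 * k / 100) ≤ 3 * (5038 / 1000) ^ k := by
    calc ((5 / 4 : ℝ) ^ k + 2) * 2 ^ (201 * k / 100) ≤ (3 * (5 / 4) ^ k) * (403 / 100) ^ k :=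
          mul_le_mul h3 h2 (by positivity) (by positivity)
      _ = 3 * ((5 / 4) * (403 / 100)) ^ k := by rw [mul_pow]; ring
      _ ≤ 3 * (5038 / 1000) ^ k := by
          apply mul_le_mul_of_nonneg_left _ (by norm_num)
          exact pow_le_pow_left₀ (by norm_num) (by norm_num) _
  have h5 : (5038 / 1000 : ℝ) ^ k = (5038 / 8000) ^ k * 2 ^ (3 * k) := by
    rw [pow_mul, ← mul_pow]
    norm_num
  calc ((5 / 4 : ℝ) ^ k + 2) * 2 ^ (201 * k / 100) * (4 * (k : ℝ) ^ B)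
      ≤ 3 * (5038 / 1000) ^ k * (4 * (k : ℝ) ^ B) := mul_le_mul_of_nonneg_right h4 (by positivity)
    _ = 12 * ((5038 / 8000) ^ k * (k : ℝ) ^ B) * 2 ^ (3 * k) := by rw [h5]; ring
    _ ≤ 12 * (1 / 12) * 2 ^ (3 * k) := by
        apply mul_le_mul_of_nonneg_right _ (by positivity)
        exact mul_le_mul_of_nonneg_left h1 (by norm_num)
    _ = 2 ^ (3 * k) := by ring

theorem tendsto_sqrt : Tendsto (fun k : ℕ => Nat.sqrt k) atTop atTop := by
  rw [tendsto_atTop]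
  intro b
  filter_upwards [eventually_ge_atTop (b * b)] with k hk
  exact Nat.le_sqrt.2 hk

theorem trunc_ev (B : ℕ) : ∀ᶠ k : ℕ in atTop,
    (k : ℝ) * (1 / 2) ^ (Nat.sqrt k) ≤ 1 / (k : ℝ) ^ B := by
  have t1 := (tendsto_pow_const_mul_const_pow_of_abs_lt_one (2 * (B + 1)) (r := (1 / 2 : ℝ))
    (by rw [abs_of_pos] <;> norm_num)).comp tendsto_sqrt
  have h2 : (0 : ℝ) < 1 / 4 ^ (B + 1) := by positivity
  filter_upwards [t1.eventually_lt_const h2, tendsto_sqrt.eventually_ge_atTop 1,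
    eventually_ge_atTop 1] with k hk h1 hk1
  simp only [Function.comp_apply] at hk
  obtain ⟨L, hL⟩ : ∃ L : ℕ, L = Nat.sqrt k := ⟨_, rfl⟩
  rw [← hL] at hk h1 ⊢
  have h3 : k < (L + 1) * (L + 1) := by
    rw [hL]
    exact Nat.lt_succ_sqrt k
  have h4 : k ≤ 4 * L ^ 2 := by nlinarith
  have h5 : (k : ℝ) ≤ 4 * (L : ℝ) ^ 2 := by exact_mod_cast h4
  have hk0 : (0 : ℝ) < k := by exact_mod_cast hk1
  rw [le_div_iff₀ (by positivity)]
  calc (k : ℝ) * (1 / 2) ^ L * (k : ℝ) ^ B = (k : ℝ) ^ (B + 1) * (1 / 2) ^ L := by ring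
    _ ≤ (4 * (L : ℝ) ^ 2) ^ (B + 1) * (1 / 2) ^ L := by
        apply mul_le_mul_of_nonneg_right _ (by positivity)
        exact pow_le_pow_left₀ hk0.le h5 _
    _ = 4 ^ (B + 1) * ((L : ℝ) ^ (2 * (B + 1)) * (1 / 2) ^ L) := by
        rw [mul_pow, ← pow_mul]
        ring
    _ ≤ 4 ^ (B + 1) * (1 / 4 ^ (B + 1)) :=
        mul_le_mul_of_nonneg_left hk.le (by positivity)
    _ = 1 := by field_simp

theorem mix_ev (B : ℕ) : ∀ᶠ k : ℕ in atTop,
    err (Nat.sqrt k) k (k / 20) ≤ 1 / (k : ℝ) ^ B := by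
  obtain ⟨C, I₀, hC0, hI₀, hC⟩ := mixRate_strong (2 * B + 3)
  obtain ⟨M, hM⟩ := exists_nat_ge (C * 40 ^ (2 * B + 3))
  filter_upwards [tendsto_sqrt.eventually_ge_atTop I₀, eventually_ge_atTop 40,
    eventually_ge_atTop M] with k hI h40 hkM
  obtain ⟨L, hL⟩ : ∃ L : ℕ, L = Nat.sqrt k := ⟨_, rfl⟩
  rw [← hL] at hI ⊢
  have h1 : err L k (k / 20) ≤ C * (L : ℝ) ^ (2 * B + 3 + 1) / ((k / 20 : ℕ) : ℝ) ^ (2 * B + 3) :=
    hC L (k / 20) k hI (by omega) (by omega)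
  refine h1.trans ?_
  have hk0 : (0 : ℝ) < k := by
    have : 0 < k := by omega
    exact_mod_cast this
  have h4 : (k : ℝ) / 40 ≤ ((k / 20 : ℕ) : ℝ) := by
    rw [div_le_iff₀ (by norm_num)]
    have : k ≤ k / 20 * 40 := by omega
    exact_mod_cast this
  have hm0 : (0 : ℝ) < ((k / 20 : ℕ) : ℝ) := lt_of_lt_of_le (by positivity) h4
  have h5 : L * L ≤ k := by
    rw [hL]
    exact Nat.sqrt_le k
  have h6 : (L : ℝ) ^ 2 ≤ k := by
    have : L ^ 2 ≤ k := by nlinarith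
    exact_mod_cast this
  have h7 : (L : ℝ) ^ (2 * B + 3 + 1) ≤ (k : ℝ) ^ (B + 2) := by
    have e : 2 * B + 3 + 1 = 2 * (B + 2) := by ring
    rw [e, pow_mul]
    exact pow_le_pow_left₀ (by positivity) h6 _
  have h8 : ((k : ℝ) / 40) ^ (2 * B + 3) ≤ ((k / 20 : ℕ) : ℝ) ^ (2 * B + 3) :=
    pow_le_pow_left₀ (by positivity) h4 _
  have h9 : C * 40 ^ (2 * B + 3) ≤ k := hM.trans (by exact_mod_cast hkM)
  calc C * (L : ℝ) ^ (2 * B + 3 + 1) / ((k / 20 : ℕ) : ℝ) ^ (2 * B + 3)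
      ≤ C * (k : ℝ) ^ (B + 2) / ((k : ℝ) / 40) ^ (2 * B + 3) := by
        apply div_le_div₀ (by positivity) (mul_le_mul_of_nonneg_left h7 hC0) (by positivity) h8
    _ = (C * 40 ^ (2 * B + 3)) / (k : ℝ) ^ (B + 1) := by
        have e : 2 * B + 3 = (B + 2) + (B + 1) := by ring
        rw [e, div_pow, pow_add (k : ℝ)]
        field_simp
        ring
    _ ≤ k / (k : ℝ) ^ (B + 1) := div_le_div_of_nonneg_right h9 (by positivity)
    _ = 1 / (k : ℝ) ^ B := by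
        rw [pow_succ]
        field_simp

/-- The numerical hypotheses with the error `η` and the bound `I` for the letters. -/
structure Num (η : ℝ) (I k : ℕ) : Prop where
  pos : 0 < η
  le : η ≤ 1
  big : 1000 ≤ k
  I12 : 12 ≤ I
  bad : ∀ d : ℕ, k / 20 ≤ d → d ≤ k → P (badV I k d) ≤ η
  trunc : (k : ℝ) * (1 / 2) ^ I ≤ η
  num : ((5 / 4 : ℝ) ^ k + 2) * 2 ^ (201 * k / 100) * 4 ≤ η * 2 ^ (3 * k)
  slack : 2 * (5 / 4 : ℝ) ^ k * 2 ^ (201 * (k / 20) / 100) ≤ 2 ^ k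
  mix : err I k (k / 20) ≤ η

theorem num_all (B : ℕ) : ∀ᶠ k : ℕ in atTop, Num (1 / (k : ℝ) ^ B) (Nat.sqrt k) k := by
  filter_upwards [eventually_ge_atTop 1000, bad_small B, trunc_ev B, num_ev B,
    slack_ev, mix_ev B] with k h1 h2 h3 h4 h5 h6
  have hk : (0 : ℝ) < k := by exact_mod_cast (by omega : 0 < k)
  have hk1 : (1 : ℝ) ≤ k := by exact_mod_cast (by omega : 1 ≤ k)
  refine ⟨by positivity, ?_, h1, Nat.le_sqrt.2 (by omega), h2 _, h3, ?_, h5, h6⟩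
  · rw [div_le_one (by positivity)]
    exact one_le_pow₀ hk1
  · rw [one_div, inv_mul_eq_div, le_div_iff₀ (by positivity), mul_assoc]
    exact h4

theorem Num.half {η : ℝ} {I k : ℕ} (h : Num η I k) {X : ℝ} (hX : 2 ^ (3 * k) ≤ X) :
    ((5 / 4 : ℝ) ^ k + 2) * 2 ^ (201 * k / 100) ≤ X * η / 4 := by
  have h1 := h.num
  have h2 := mul_le_mul_of_nonneg_left hX h.pos.le
  linarith

theorem Num.half' {η : ℝ} {I k : ℕ} (h : Num η I k) {X : ℝ} (hX : 2 ^ (3 * k) ≤ X) :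
    ((5 / 4 : ℝ) ^ k + 2) * 2 ^ (201 * k / 100) ≤ X / 2 := by
  have hX0 : (0 : ℝ) ≤ X := le_trans (by positivity) hX
  have h1 := h.half hX
  have h2 := mul_le_mul_of_nonneg_left h.le hX0
  linarith

end Pool.Agent.Collatz3.TN
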