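import Mathlib
import Pool.Agent.Collatz3.TNErr

set_option autoImplicit false

/-!
Natural density Tao theorem: the hand-off inequality, with an arbitrary power.
-/

namespace Pool.Agent.Collatz3.TN

open Finset Filter
open Pool.Agent.Collatz3.Mix (words mem_words sum_words_zero sum_words_succ sum_words_add)
open Pool.Agent.Collatz3.PD
open Pool.Agent.Collatz3.FW hiding Num num_all handoff typical P_good_ge num_ev

open Classical in
/-- The hand-off inequality. -/
theorem handoff {η : ℝ} {I k : ℕ} (hN : Num η I k) {X : ℝ} (hX : 2 ^ (3 * k) ≤ X) {e : ℤ}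
    (he : e = 1 ∨ e = -1) (B C : ℕ → Set ℤ)
    (hlink : ∀ u ∈ goodV I k (k / 20), ∀ (s : ℕ) (b : ℤ), b % 2 = 1 → rd u b →
      b ∈ B (u.sum + s) → en u b ∈ C s) :
    (((Od e X).filter fun n => Hit (goodV I k k) B n).card : ℝ) ≤
      ∑ v ∈ goodV I k (k - k / 20),
        (((Od e (3 ^ (k - k / 20) * X / 2 ^ v.sum + 2 ^ k)).filter fun n => n ∈ C v.sum).card : ℝ) /
          3 ^ (k - k / 20) + 3 * (X * η) := by
  have hbig := hN.big
  have hk0 : (0 : ℝ) < k := by exact_mod_cast (by omega : 0 < k)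
  have hX0 : (0 : ℝ) < X := lt_of_lt_of_le (by positivity) hX
  have hη := hN.pos
  obtain ⟨m, hm⟩ : ∃ m, m = k / 20 := ⟨_, rfl⟩
  obtain ⟨l, hl⟩ : ∃ l, l = k - k / 20 := ⟨_, rfl⟩
  obtain ⟨smax, hsmax⟩ : ∃ smax, smax = 201 * k / 100 := ⟨_, rfl⟩
  obtain ⟨K, hK⟩ : ∃ K : ℝ, K = (5 / 4) ^ k := ⟨_, rfl⟩
  have hK0 : 0 < K := by rw [hK]; positivity
  have hmk : m ≤ k := by omega
  have hlm : l = k - m := by omega
  have hlmk : l + m = k := by omega
  have hhalf := hN.half' hX
  rw [← hsmax, ← hK] at hhalf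
  rw [← hm] at hlink
  rw [← hl]
  -- the basic inequality
  have h1 := step1 he (X := X) (K := K) (G := goodV I k k) (k := k)
    (fun w hw => words_length (goodV_subset _ _ _ hw))
    (fun w hw i hi => ((mem_words.1 (goodV_subset _ _ _ hw)).2 i hi).1)
    (fun w hw => by
      rw [goodV, mem_filter] at hw
      rw [hK]
      exact hw.2.2.2) B
  have h2 := step2 he (I := I) (k := k) (m := m) (smax := smax) hmk
    (y := fun s => 3 ^ k * X / 2 ^ s + K) (G := goodV I k k) (goodV_subset _ _ _)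
    (fun w hw => by
      rw [goodV, mem_filter] at hw
      omega) B
  refine (h1.trans h2).trans ?_
  rw [← hlm]
  -- a bound for the counting function of a range
  have hoc : ∀ s, (oc (3 ^ k * X / 2 ^ s + K) : ℝ) ≤ (3 ^ k * X / 2 ^ s + K + 1) / 2 := fun s =>
    oc_le (by positivity)
  -- the mixing error
  have h3 : ∑ s ∈ range (smax + 1),
      2 ^ s * ((oc (3 ^ k * X / 2 ^ s + K) : ℝ) / 3 ^ k + 1) * Del I k m s ≤ X * η := by
    have h4 : ∀ s ∈ range (smax + 1),
        2 ^ s * ((oc (3 ^ k * X / 2 ^ s + K) : ℝ) / 3 ^ k + 1) * Del I k m s ≤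
          X * Del I k m s := by
      intro s hs
      rw [mem_range] at hs
      apply mul_le_mul_of_nonneg_right _ (sum_nonneg fun _ _ => abs_nonneg _)
      have h5 := hoc s
      have h6 : (2 : ℝ) ^ s ≤ 2 ^ smax := pow_le_pow_right₀ (by norm_num) (by omega)
      have h7 : (1 : ℝ) ≤ 3 ^ k := one_le_pow₀ (by norm_num)
      have h8 : (oc (3 ^ k * X / 2 ^ s + K) : ℝ) / 3 ^ k ≤
          X / 2 ^ s / 2 + (K + 1) := by
        rw [div_le_iff₀ (by positivity)]
        refine h5.trans ?_
        have e1 : (X / 2 ^ s / 2 + (K + 1)) * 3 ^ k =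
          3 ^ k * X / 2 ^ s / 2 + (K + 1) * 3 ^ k := by ring
        rw [e1]
        have h9 : (K + 1) * 1 ≤ (K + 1) * 3 ^ k := mul_le_mul_of_nonneg_left h7 (by positivity)
        linarith
      calc 2 ^ s * ((oc (3 ^ k * X / 2 ^ s + K) : ℝ) / 3 ^ k + 1)
          ≤ 2 ^ s * (X / 2 ^ s / 2 + (K + 1) + 1) := by
            apply mul_le_mul_of_nonneg_left _ (by positivity)
            linarith
        _ = X / 2 + (K + 2) * 2 ^ s := by
            field_simp
            ring
        _ ≤ X / 2 + (K + 2) * 2 ^ smax := by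
            have := mul_le_mul_of_nonneg_left h6 (by positivity : 0 ≤ K + 2)
            linarith
        _ ≤ X := by linarith
    refine (sum_le_sum h4).trans ?_
    rw [← mul_sum]
    have h5 : ∑ s ∈ range (smax + 1), Del I k m s ≤ err I k m := by
      unfold err
      apply sum_le_sum_of_subset_of_nonneg
      · intro s hs
        rw [mem_range] at hs ⊢
        have h6 : 12 ≤ I := hN.I12
        have h7 : 12 * k ≤ I * k := Nat.mul_le_mul_right _ h6
        omega
      · intro s _ _
        exact sum_nonneg fun _ _ => abs_nonneg _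
    have h6 := hN.mix
    rw [← hm] at h6
    exact mul_le_mul_of_nonneg_left (h5.trans h6) hX0.le
  -- the summand
  obtain ⟨f, hf⟩ : ∃ f : List ℕ → List ℕ → ℝ, f = fun u v => if u.sum + v.sum ≤ smax then
        (((Od e (3 ^ k * X / 2 ^ (u.sum + v.sum) + K)).filter
          fun b => rd u b ∧ b ∈ B (u.sum + v.sum)).card : ℝ) / 3 ^ l else 0 := ⟨_, rfl⟩
  have hfb : ∀ u v, u.length = m → f u v ≤ X * ((1 / 2) ^ u.sum * (1 / 2) ^ v.sum) := by
    intro u v hu
    rw [hf]
    simp only
    split_ifs with hs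
    · have h4 : (((Od e (3 ^ k * X / 2 ^ (u.sum + v.sum) + K)).filter
          fun b => rd u b ∧ b ∈ B (u.sum + v.sum)).card : ℝ) ≤
          (oc (3 ^ k * X / 2 ^ (u.sum + v.sum) + K) : ℝ) / 3 ^ m + 1 := by
        rw [← hu]
        refine le_trans ?_ (card_rd_le he u _)
        have : (Od e (3 ^ k * X / 2 ^ (u.sum + v.sum) + K)).filter
          (fun b => rd u b ∧ b ∈ B (u.sum + v.sum)) ⊆
          (Od e (3 ^ k * X / 2 ^ (u.sum + v.sum) + K)).filter (fun b => rd u b) := by
          intro b hb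
          rw [mem_filter] at hb ⊢
          exact ⟨hb.1, hb.2.1⟩
        exact_mod_cast card_le_card this
      have h5 := hoc (u.sum + v.sum)
      have h6 : (1 : ℝ) ≤ 3 ^ l := one_le_pow₀ (by norm_num)
      have h7 : (1 : ℝ) ≤ 3 ^ m := one_le_pow₀ (by norm_num)
      have h3k : (3 : ℝ) ^ k = 3 ^ l * 3 ^ m := by rw [← pow_add, hlmk]
      have h8 : (oc (3 ^ k * X / 2 ^ (u.sum + v.sum) + K) : ℝ) / 3 ^ m + 1 ≤
          3 ^ l * (X / 2 ^ (u.sum + v.sum) / 2) + (K + 2) := by
        have h9 : (oc (3 ^ k * X / 2 ^ (u.sum + v.sum) + K) : ℝ) / 3 ^ m ≤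
            3 ^ l * (X / 2 ^ (u.sum + v.sum) / 2) + (K + 1) := by
          rw [div_le_iff₀ (by positivity)]
          refine h5.trans ?_
          have e1 : (3 ^ l * (X / 2 ^ (u.sum + v.sum) / 2) + (K + 1)) * 3 ^ m =
            3 ^ k * X / 2 ^ (u.sum + v.sum) / 2 + (K + 1) * 3 ^ m := by
            rw [h3k]
            ring
          rw [e1]
          have h9 : (K + 1) * 1 ≤ (K + 1) * 3 ^ m :=
            mul_le_mul_of_nonneg_left h7 (by positivity)
          linarith
        linarith
      have h10 : (1 : ℝ) ≤ 2 ^ smax / 2 ^ (u.sum + v.sum) := by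
        rw [one_le_div (by positivity)]
        exact pow_le_pow_right₀ (by norm_num) hs
      have h11 : (1 / 2 : ℝ) ^ u.sum * (1 / 2) ^ v.sum = 1 / 2 ^ (u.sum + v.sum) := by
        rw [← pow_add, one_div, inv_pow, one_div]
      rw [div_le_iff₀ (by positivity), h11]
      calc _ ≤ 3 ^ l * (X / 2 ^ (u.sum + v.sum) / 2) + (K + 2) := h4.trans h8
        _ ≤ 3 ^ l * (X / 2 ^ (u.sum + v.sum) / 2) +
            3 ^ l * ((K + 2) * (2 ^ smax / 2 ^ (u.sum + v.sum))) := by
            have h12 : (K + 2) * 1 ≤ (K + 2) * (2 ^ smax / 2 ^ (u.sum + v.sum)) :=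
              mul_le_mul_of_nonneg_left h10 (by positivity)
            have h13 : 1 * ((K + 2) * (2 ^ smax / 2 ^ (u.sum + v.sum))) ≤
              3 ^ l * ((K + 2) * (2 ^ smax / 2 ^ (u.sum + v.sum))) :=
              mul_le_mul_of_nonneg_right h6 (by positivity)
            linarith
        _ = (X / 2 + (K + 2) * 2 ^ smax) / 2 ^ (u.sum + v.sum) * 3 ^ l := by ring
        _ ≤ (X / 2 + X / 2) / 2 ^ (u.sum + v.sum) * 3 ^ l := by
            apply mul_le_mul_of_nonneg_right _ (by positivity)
            apply div_le_div_of_nonneg_right _ (by positivity)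
            linarith
        _ = X * (1 / 2 ^ (u.sum + v.sum)) * 3 ^ l := by ring
    · positivity
  have hbadm : P (badV I k m) ≤ η := hN.bad m (by omega) (by omega)
  have hbadl : P (badV I k l) ≤ η := hN.bad l (by omega) (by omega)
  have hPw : ∀ d, P (words I d) ≤ 1 := by
    intro d
    rw [P_words]
    exact pow_le_one₀ (Z_nonneg I) (Z_le_one I)
  have hPP : ∀ G G' : Finset (List ℕ), (∀ u ∈ G, u.length = m) →
      ∑ u ∈ G, ∑ v ∈ G', f u v ≤ X * (P G * P G') := by
    intro G G' hG
    have : ∑ u ∈ G, ∑ v ∈ G', f u v ≤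
        ∑ u ∈ G, ∑ v ∈ G', X * ((1 / 2) ^ u.sum * (1 / 2) ^ v.sum) :=
      sum_le_sum fun u hu => sum_le_sum fun v _ => hfb u v (hG u hu)
    refine this.trans (le_of_eq ?_)
    unfold P
    rw [sum_mul_sum, mul_sum]
    apply sum_congr rfl
    intro u _
    rw [mul_sum]
  have hsplit : ∑ u ∈ words I m, ∑ v ∈ words I l, f u v ≤
      ∑ u ∈ goodV I k m, ∑ v ∈ goodV I k l, f u v + 2 * (X * η) := by
    rw [sum_words_split I k m]
    have h4 : ∑ u ∈ goodV I k m, ∑ v ∈ words I l, f u v =
        ∑ u ∈ goodV I k m, ∑ v ∈ goodV I k l, f u v +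
          ∑ u ∈ goodV I k m, ∑ v ∈ badV I k l, f u v := by
      rw [← sum_add_distrib]
      apply sum_congr rfl
      intro u _
      exact sum_words_split I k l _
    have h5 := hPP (goodV I k m) (badV I k l) (fun u hu => words_length (goodV_subset _ _ _ hu))
    have h6 := hPP (badV I k m) (words I l) (fun u hu => words_length (badV_subset _ _ _ hu))
    have h7 : P (goodV I k m) * P (badV I k l) ≤ 1 * η :=
      mul_le_mul ((P_mono (goodV_subset _ _ _)).trans (hPw m)) hbadl (P_nonneg _) zero_le_one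
    have h8 : P (badV I k m) * P (words I l) ≤ η * 1 :=
      mul_le_mul hbadm (hPw l) (P_nonneg _) (by positivity)
    have h9 := mul_le_mul_of_nonneg_left h7 hX0.le
    have h10 := mul_le_mul_of_nonneg_left h8 hX0.le
    have e1 : X * (1 * η) = X * η := by ring
    have e2 : X * (η * 1) = X * η := by ring
    rw [e1] at h9
    rw [e2] at h10
    linarith
  -- the good part
  have hgood : ∑ u ∈ goodV I k m, ∑ v ∈ goodV I k l, f u v ≤
      ∑ v ∈ goodV I k l, (((Od e (3 ^ l * X / 2 ^ v.sum + 2 ^ k)).filter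
        fun n => n ∈ C v.sum).card : ℝ) / 3 ^ l := by
    rw [sum_comm]
    apply sum_le_sum
    intro v _
    have h4 : ∀ u ∈ goodV I k m, f u v ≤
        (((Od e (3 ^ k * X / 2 ^ (u.sum + v.sum) + K)).filter
          fun b => rd u b ∧ b ∈ B (u.sum + v.sum)).card : ℝ) / 3 ^ l := by
      intro u _
      rw [hf]
      simp only
      split_ifs
      · exact le_rfl
      · positivity
    refine (sum_le_sum h4).trans ?_
    rw [← sum_div]
    apply div_le_div_of_nonneg_right _ (by positivity)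
    have h5 : ((goodV I k m).sigma fun u => (Od e (3 ^ k * X / 2 ^ (u.sum + v.sum) + K)).filter
          fun b => rd u b ∧ b ∈ B (u.sum + v.sum)).card ≤
        ((Od e (3 ^ l * X / 2 ^ v.sum + 2 ^ k)).filter fun n => n ∈ C v.sum).card := by
      apply card_le_card_of_injOn (fun p => en p.1 p.2)
      · rintro ⟨u, b⟩ hp
        rw [mem_coe, mem_sigma, mem_filter, mem_Od he] at hp
        obtain ⟨hu, ⟨hb1, hb2, hb3⟩, hb4, hb5⟩ := hp
        simp only at hu hb1 hb2 hb3 hb4 hb5 ⊢
        rw [mem_coe, mem_filter, mem_Od he]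
        have hpos : ∀ i ∈ u, 1 ≤ i := fun i hi =>
          ((mem_words.1 (goodV_subset _ _ _ hu)).2 i hi).1
        have hlen := words_length (goodV_subset _ _ _ hu)
        refine ⟨⟨en_odd hb4 hpos hb1, ?_, ?_⟩, ?_⟩
        · have hb0 : b ≠ 0 := by rintro rfl; norm_num at hb1
          have h6 := en_sign hb4 hb0 hpos
          rcases he with h' | h' <;> rw [h'] at hb2 ⊢ <;> nlinarith
        · rw [goodV, mem_filter] at hu
          obtain ⟨-, hu1, hu2, hu3⟩ := hu
          have h6 := en_spec hb4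
          have h7 : (3 : ℤ) ^ u.length * (e * en u b) = 2 ^ u.sum * (e * b) - e * cw u := by
            linear_combination e * h6
          have h8 : (3 : ℝ) ^ u.length * ((e * en u b : ℤ) : ℝ) =
              2 ^ u.sum * ((e * b : ℤ) : ℝ) - (e : ℝ) * cw u := by exact_mod_cast h7
          rw [hlen] at h8
          have h9 : -((e : ℝ) * cw u) ≤ K * 2 ^ u.sum := by
            have h10 : (0 : ℝ) ≤ cw u := Nat.cast_nonneg _
            rw [hK]
            rcases he with h' | h' <;> rw [h']
            · push_cast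
              linarith
            · push_cast
              linarith
          have h10 : (2 : ℝ) ^ u.sum * ((e * b : ℤ) : ℝ) ≤
              2 ^ u.sum * (3 ^ k * X / 2 ^ (u.sum + v.sum) + K) :=
            mul_le_mul_of_nonneg_left hb3 (by positivity)
          have h11 : (2 : ℝ) ^ u.sum * (3 ^ k * X / 2 ^ (u.sum + v.sum) + K) =
              3 ^ m * (3 ^ l * X / 2 ^ v.sum) + K * 2 ^ u.sum := by
            have h3k : (3 : ℝ) ^ k = 3 ^ l * 3 ^ m := by rw [← pow_add, hlmk]
            rw [h3k, pow_add]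
            field_simp
          have h12 : (2 : ℝ) ^ u.sum ≤ 2 ^ (201 * (k / 20) / 100) := by
            apply pow_le_pow_right₀ (by norm_num)
            rw [← hm]
            omega
          have h13 : 2 * K * 2 ^ u.sum ≤ 2 ^ k := by
            refine le_trans ?_ hN.slack
            rw [← hK]
            exact mul_le_mul_of_nonneg_left h12 (by positivity)
          have h14 : (1 : ℝ) ≤ 3 ^ m := one_le_pow₀ (by norm_num)
          have h15 : (3 : ℝ) ^ m * ((e * en u b : ℤ) : ℝ) ≤
              3 ^ m * (3 ^ l * X / 2 ^ v.sum + 2 ^ k) := by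
            rw [mul_add]
            have h16 : (1 : ℝ) * 2 ^ k ≤ 3 ^ m * 2 ^ k :=
              mul_le_mul_of_nonneg_right h14 (by positivity)
            linarith
          exact le_of_mul_le_mul_left h15 (by positivity)
        · exact hlink u hu v.sum b hb1 hb4 hb5
      · rintro ⟨u, b⟩ hp ⟨u', b'⟩ hp' h
        rw [mem_coe, mem_sigma, mem_filter, mem_Od he] at hp hp'
        obtain ⟨hu, ⟨hb1, -, -⟩, hb4, -⟩ := hp
        obtain ⟨hu', ⟨hb1', -, -⟩, hb4', -⟩ := hp'
        simp only at hu hb1 hb4 hu' hb1' hb4' h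
        obtain ⟨h6, h7⟩ := pair_inj m u u' b b' (words_length (goodV_subset _ _ _ hu))
          (words_length (goodV_subset _ _ _ hu'))
          (fun i hi => ((mem_words.1 (goodV_subset _ _ _ hu)).2 i hi).1)
          (fun i hi => ((mem_words.1 (goodV_subset _ _ _ hu')).2 i hi).1) hb1 hb1' hb4 hb4' h
        subst h6 h7
        rfl
    rw [card_sigma] at h5
    exact_mod_cast h5
  have e1 : ∑ u ∈ words I m, ∑ v ∈ words I l, (if u.sum + v.sum ≤ smax then
        (((Od e (3 ^ k * X / 2 ^ (u.sum + v.sum) + K)).filter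
          fun b => rd u b ∧ b ∈ B (u.sum + v.sum)).card : ℝ) / 3 ^ l else 0) =
      ∑ u ∈ words I m, ∑ v ∈ words I l, f u v := by
    rw [hf]
  rw [e1]
  linarith

theorem P_good_ge {η : ℝ} {I k : ℕ} (hN : Num η I k) {d : ℕ} (hd : k / 20 ≤ d) (hdk : d ≤ k) :
    1 - 2 * η ≤ P (goodV I k d) := by
  have h1 := sum_words_split I k d (fun w => (1 / 2 : ℝ) ^ w.sum)
  have h2 := P_words I d
  have h3 := hN.bad d hd hdk
  have h4 := one_sub_Z_pow I d
  have h5 : (d : ℝ) * (1 / 2) ^ I ≤ η := by
    have h6 : (d : ℝ) ≤ k := by exact_mod_cast hdk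
    exact (mul_le_mul_of_nonneg_right h6 (by positivity)).trans hN.trunc
  unfold P at h2 h3 ⊢
  rw [h1] at h2
  linarith

open Classical in
/-- All but few odd integers have a good first block. -/
theorem typical {η : ℝ} {I k : ℕ} (hN : Num η I k) {X : ℝ} (hX : 2 ^ (3 * k) ≤ X) {e : ℤ}
    (he : e = 1 ∨ e = -1) :
    (((Od e X).filter fun n => ¬ Hit (goodV I k k) (fun _ => Set.univ) n).card : ℝ) ≤
      2 * (X * η) := by
  have hbig := hN.big
  have hη := hN.pos
  have hX0 : (0 : ℝ) < X := lt_of_lt_of_le (by positivity) hX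
  have h1 := hit_count he (by omega : 1 ≤ k) (goodV_subset I k k) X
  have h2 : (((Od e X).filter fun n => Hit (goodV I k k) (fun _ => Set.univ) n).card : ℝ) +
      (((Od e X).filter fun n => ¬ Hit (goodV I k k) (fun _ => Set.univ) n).card : ℝ) =
        oc X := by
    rw [← card_Od he X]
    exact_mod_cast card_filter_add_card_filter_not _
  have h3 := oc_le hX0.le
  have h4 := P_good_ge hN (by omega : k / 20 ≤ k) le_rfl
  have h5 := mul_le_mul_of_nonneg_left h4 (by linarith : 0 ≤ X / 2)
  have h6 : ((goodV I k k).card : ℝ) ≤ 2 ^ (201 * k / 100) := by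
    apply card_words_le (goodV_subset I k k)
    intro w hw
    rw [goodV, mem_filter] at hw
    omega
  have h7 := hN.half hX
  have h8 : (1 : ℝ) ≤ 2 ^ (201 * k / 100) := one_le_pow₀ (by norm_num)
  have h9 : (1 : ℝ) ≤ (5 / 4) ^ k := one_le_pow₀ (by norm_num)
  have h10 : 2 * (2 : ℝ) ^ (201 * k / 100) ≤ ((5 / 4 : ℝ) ^ k + 2) * 2 ^ (201 * k / 100) :=
    mul_le_mul_of_nonneg_right (by linarith) (by positivity)
  have h15 : 0 ≤ X * η := by positivity
  linarith

end Pool.Agent.Collatz3.TN
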