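import Mathlib
import Pool.Agent.Collatz3.TNHand

set_option autoImplicit false

/-!
Natural density Tao theorem: the lower tail of the sum of the letters, with any precision.
-/

namespace Pool.Agent.Collatz3.TN

open Finset Filter
open Pool.Agent.Collatz3.Mix (words mem_words sum_words_zero sum_words_succ sum_words_add)
open Pool.Agent.Collatz3.PD

theorem tail {δ : ℝ} (h0 : 0 < δ) (h1 : δ ≤ 1) : ∃ ρ : ℝ, 0 < ρ ∧ ρ < 1 ∧ ∀ I d : ℕ,
    P ((words I d).filter fun w => (w.sum : ℝ) < (2 - δ) * d) ≤ ρ ^ d := by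
  obtain ⟨y, hy⟩ : ∃ y : ℝ, y = 1 + δ / 8 := ⟨_, rfl⟩
  have hy1 : 1 < y := by rw [hy]; linarith
  obtain ⟨b, hb⟩ : ∃ b : ℝ, b = y ^ (2 - δ) := ⟨_, rfl⟩
  have hb0 : 0 < b := by rw [hb]; exact Real.rpow_pos_of_pos (by linarith) _
  have hlt : b < 2 * y - 1 := by
    have e1 : b ≤ Real.exp ((2 - δ) * (δ / 8)) := by
      rw [hb, Real.rpow_def_of_pos (by linarith)]
      apply Real.exp_le_exp.2
      have e2 := Real.log_le_sub_one_of_pos (show 0 < y by linarith)
      have e3 : y - 1 = δ / 8 := by rw [hy]; ring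
      rw [e3] at e2
      calc Real.log y * (2 - δ) ≤ δ / 8 * (2 - δ) :=
            mul_le_mul_of_nonneg_right e2 (by linarith)
        _ = (2 - δ) * (δ / 8) := by ring
    have e4 := Real.abs_exp_sub_one_sub_id_le (x := (2 - δ) * (δ / 8)) (by
      rw [abs_le]
      constructor <;> nlinarith)
    have e5 := (abs_le.1 e4).2
    have e6 : (2 - δ) * (δ / 8) + ((2 - δ) * (δ / 8)) ^ 2 < 2 * (δ / 8) := by
      have e7 : ((2 - δ) * (δ / 8)) ^ 2 = (2 - δ) ^ 2 * (δ * δ) / 64 := by ring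
      have e8 : (2 - δ) ^ 2 ≤ 4 := by nlinarith
      have e9 : (2 - δ) ^ 2 * (δ * δ) ≤ 4 * (δ * δ) :=
        mul_le_mul_of_nonneg_right e8 (by positivity)
      have e10 : 0 < δ * δ := by positivity
      nlinarith
    rw [hy]
    linarith
  refine ⟨b / (2 * y - 1), div_pos hb0 (by linarith), by
    rw [div_lt_one (by linarith)]; exact hlt, fun I d => ?_⟩
  have h1 : ∀ w ∈ (words I d).filter (fun w => (w.sum : ℝ) < (2 - δ) * d),
      (1 / 2 : ℝ) ^ w.sum ≤ (1 / (2 * y)) ^ w.sum * b ^ d := by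
    intro w hw
    rw [mem_filter] at hw
    have e2 : y ^ w.sum ≤ b ^ d := by
      rw [hb, ← Real.rpow_natCast, ← Real.rpow_natCast, ← Real.rpow_mul (by linarith)]
      exact Real.rpow_le_rpow_of_exponent_le hy1.le hw.2.le
    have e3 : (1 / 2 : ℝ) ^ w.sum = (1 / (2 * y)) ^ w.sum * y ^ w.sum := by
      rw [← mul_pow]
      congr 1
      field_simp
    rw [e3]
    exact mul_le_mul_of_nonneg_left e2 (by positivity)
  have hz0 : (0 : ℝ) ≤ 1 / (2 * y) := by positivity
  have hz1 : 1 / (2 * y) < 1 := by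
    rw [div_lt_one (by linarith)]
    linarith
  calc P ((words I d).filter fun w => (w.sum : ℝ) < (2 - δ) * d)
      ≤ ∑ w ∈ (words I d).filter (fun w => (w.sum : ℝ) < (2 - δ) * d),
          (1 / (2 * y)) ^ w.sum * b ^ d := sum_le_sum h1
    _ ≤ ∑ w ∈ words I d, (1 / (2 * y)) ^ w.sum * b ^ d :=
        sum_le_sum_of_subset_of_nonneg (filter_subset _ _) fun _ _ _ => by positivity
    _ = (∑ i ∈ Icc 1 I, (1 / (2 * y)) ^ i) ^ d * b ^ d := by
        rw [← sum_mul, sum_pow_words]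
    _ ≤ (1 / (2 * y - 1)) ^ d * b ^ d := by
        apply mul_le_mul_of_nonneg_right _ (by positivity)
        apply pow_le_pow_left₀ (sum_nonneg fun _ _ => by positivity)
        refine (geom_le I hz0 hz1).trans (le_of_eq ?_)
        have e1 : (2 * y - 1) ≠ 0 := by linarith
        have e2 : (1 - 1 / (2 * y)) ≠ 0 := by linarith
        have e3 : y ≠ 0 := by linarith
        field_simp
    _ = (b / (2 * y - 1)) ^ d := by
        rw [← mul_pow]
        congr 1
        ring

end Pool.Agent.Collatz3.TN
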