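import Mathlib
import Pool.Agent.Collatz3.TNTail

set_option autoImplicit false

/-!
Natural density Tao theorem: one scale.
-/

namespace Pool.Agent.Collatz3.TN

open Finset Filter
open Pool.Agent.Helper14 (T)
open Pool.Agent.Collatz3.Mix (words mem_words sum_words_zero sum_words_succ sum_words_add)
open Pool.Agent.Collatz3.PD
open Pool.Agent.Collatz3.FW hiding Num num_all handoff typical P_good_ge num_ev

/-- No iterate up to the time `t` is at most `M` in absolute value. -/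
def Bd (M t : ℝ) : Set ℤ := {n | ∀ j : ℕ, (j : ℝ) ≤ t → M < |((T^[j] n : ℤ) : ℝ)|}

open Classical in
/-- Number of odd integers of sign `e` up to `X` in `Bd M t`. -/
noncomputable def F (e : ℤ) (M t X : ℝ) : ℝ := (((Od e X).filter fun n => n ∈ Bd M t).card : ℝ)

theorem Bd_anti {M t t' : ℝ} (h : t ≤ t') : Bd M t' ⊆ Bd M t := fun _ hn j hj => hn j (hj.trans h)

open Classical in
theorem F_anti (e : ℤ) {M t t' : ℝ} (h : t ≤ t') (X : ℝ) : F e M t' X ≤ F e M t X := by
  unfold F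
  have : ((Od e X).filter fun n => n ∈ Bd M t') ⊆ (Od e X).filter fun n => n ∈ Bd M t := by
    intro n hn
    rw [mem_filter] at hn ⊢
    exact ⟨hn.1, Bd_anti h hn.2⟩
  exact_mod_cast card_le_card this

theorem F_nonneg (e : ℤ) (M t X : ℝ) : 0 ≤ F e M t X := Nat.cast_nonneg _

open Classical in
theorem F_le {e : ℤ} (he : e = 1 ∨ e = -1) (M t : ℝ) {X : ℝ} (hX : 0 ≤ X) :
    F e M t X ≤ (X + 1) / 2 := by
  refine le_trans ?_ (oc_le hX)
  rw [← card_Od he X]
  unfold F
  exact_mod_cast card_le_card (filter_subset _ _)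

theorem T_growth (x : ℤ) : |((T x : ℤ) : ℝ)| + 1 ≤ 2 * (|(x : ℝ)| + 1) := by
  have h : |T x| + 1 ≤ 2 * (|x| + 1) := by
    unfold T
    split_ifs
    · rcases abs_cases (x / 2) with h1 | h1 <;> rcases abs_cases x with h2 | h2 <;> omega
    · rcases abs_cases ((3 * x + 1) / 2) with h1 | h1 <;> rcases abs_cases x with h2 | h2 <;> omega
  exact_mod_cast h

theorem T_iter_growth (i : ℕ) (x : ℤ) : |((T^[i] x : ℤ) : ℝ)| + 1 ≤ 2 ^ i * (|(x : ℝ)| + 1) := by
  induction i with
  | zero => simp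
  | succ i ih =>
    rw [Function.iterate_succ_apply']
    refine (T_growth _).trans ?_
    rw [pow_succ]
    linarith

theorem link {M t L : ℝ} {u : List ℕ} {b : ℤ} {s : ℕ} (hu : ∀ i ∈ u, 1 ≤ i) (hr : rd u b)
    (hM : 0 ≤ M) (hL : 2 ^ u.sum * (M + 1) ≤ L) (hb : L < |(b : ℝ)|)
    (hB : b ∈ Bd M (t - ((u.sum + s : ℕ) : ℝ))) : en u b ∈ Bd M (t - (s : ℝ)) := by
  intro j hj
  have hT := T_en hr hu
  rcases le_or_gt u.sum j with h | h
  · obtain ⟨i, rfl⟩ := Nat.exists_eq_add_of_le' h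
    rw [Function.iterate_add_apply, hT]
    apply hB
    push_cast at hj ⊢
    linarith
  · by_contra hcon
    push Not at hcon
    obtain ⟨i, hi⟩ := Nat.exists_eq_add_of_le' h.le
    rw [hi, Function.iterate_add_apply] at hT
    have h1 := T_iter_growth i (T^[j] (en u b))
    rw [hT] at h1
    have h2 : (2 : ℝ) ^ i ≤ 2 ^ u.sum := pow_le_pow_right₀ (by norm_num) (by omega)
    have h3 : (2 : ℝ) ^ i * (|((T^[j] (en u b) : ℤ) : ℝ)| + 1) ≤ 2 ^ u.sum * (M + 1) :=
      mul_le_mul h2 (by linarith) (by positivity) (by positivity)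
    linarith

theorem abs_eq_of_sign {e : ℤ} (he : e = 1 ∨ e = -1) {n : ℤ} (h : 0 < e * n) :
    |(n : ℝ)| = ((e * n : ℤ) : ℝ) := by
  rcases he with h' | h' <;> rw [h'] at h ⊢
  · have : (0 : ℝ) < n := by
      have : 0 < n := by linarith
      exact_mod_cast this
    rw [abs_of_pos this]
    push_cast
    ring
  · have : (n : ℝ) < 0 := by
      have : n < 0 := by linarith
      exact_mod_cast this
    rw [abs_of_neg this]
    push_cast
    ring

open Classical in
theorem direct {η : ℝ} {I k : ℕ} (hN : Num η I k) {X : ℝ} (hX : 2 ^ (3 * k) ≤ X) {e : ℤ}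
    (he : e = 1 ∨ e = -1) {M t : ℝ} (hM : X * (300 / 397) ^ k + (5 / 4) ^ k ≤ M)
    (ht : ((201 * k / 100 : ℕ) : ℝ) ≤ t) : F e M t X ≤ 2 * (X * η) := by
  refine le_trans ?_ (typical hN hX he)
  unfold F
  have hX0 : (0 : ℝ) < X := lt_of_lt_of_le (by positivity) hX
  have hsub : ((Od e X).filter fun n => n ∈ Bd M t) ⊆
      (Od e X).filter fun n => ¬ Hit (goodV I k k) (fun _ => Set.univ) n := by
    intro n hn
    rw [mem_filter] at hn ⊢
    refine ⟨hn.1, ?_⟩
    rintro ⟨w, hw, b, hb1, hb2, hb3, -⟩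
    obtain ⟨hn1, hn2⟩ := hn
    rw [mem_Od he] at hn1
    obtain ⟨h1, h2, h3⟩ := hn1
    have hlen := words_length (goodV_subset _ _ _ hw)
    have hpos : ∀ i ∈ w, 1 ≤ i := fun i hi =>
      ((mem_words.1 (goodV_subset _ _ _ hw)).2 i hi).1
    rw [goodV, mem_filter] at hw
    obtain ⟨-, hs1, hs2, hc⟩ := hw
    subst hb3
    have h4 := lower_bound he hb2 hc h3
    have h5 := sign_key he hb2 hpos hb1 h2
    have h6 := hn2 w.sum (le_trans (by exact_mod_cast (by omega : w.sum ≤ 201 * k / 100)) ht)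
    rw [T_en hb2 hpos, abs_eq_of_sign he h5] at h6
    have h7 : (397 / 100 : ℝ) ^ k ≤ 2 ^ w.sum := by
      have : ((397 / 100 : ℝ) ^ k) ^ 100 ≤ (2 ^ w.sum) ^ 100 := by
        calc ((397 / 100 : ℝ) ^ k) ^ 100 = ((397 / 100 : ℝ) ^ 100) ^ k := by
              rw [← pow_mul, ← pow_mul, mul_comm]
          _ ≤ (2 ^ 199) ^ k := pow_le_pow_left₀ (by positivity) (by norm_num) _
          _ = 2 ^ (199 * k) := by rw [pow_mul]
          _ ≤ 2 ^ (w.sum * 100) := pow_le_pow_right₀ (by norm_num) (by omega)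
          _ = (2 ^ w.sum) ^ 100 := by rw [pow_mul]
      exact le_of_pow_le_pow_left₀ (by norm_num) (by positivity) this
    have h8 : 3 ^ w.length * X / 2 ^ w.sum ≤ X * (300 / 397) ^ k := by
      rw [hlen, div_le_iff₀ (by positivity)]
      have e1 : (3 : ℝ) ^ k = (300 / 397) ^ k * (397 / 100) ^ k := by
        rw [← mul_pow]
        norm_num
      calc (3 : ℝ) ^ k * X = X * (300 / 397) ^ k * (397 / 100) ^ k := by rw [e1]; ring
        _ ≤ X * (300 / 397) ^ k * 2 ^ w.sum := mul_le_mul_of_nonneg_left h7 (by positivity)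
    linarith
  exact_mod_cast card_le_card hsub

open Classical in
theorem step_raw {η : ℝ} {I k : ℕ} (hN : Num η I k) {X : ℝ} (hX : 2 ^ (3 * k) ≤ X) {e : ℤ}
    (he : e = 1 ∨ e = -1) {M : ℝ} (t : ℝ) (hM : 0 ≤ M) :
    F e M t X ≤
      ∑ v ∈ goodV I k (k - k / 20),
        F e M (t - (v.sum : ℝ)) (3 ^ (k - k / 20) * X / 2 ^ v.sum + 2 ^ k) / 3 ^ (k - k / 20) +
      5 * (X * η) +
      oc (2 ^ (201 * k / 100) * (2 ^ (201 * (k / 20) / 100) * (M + 1) + (5 / 4) ^ k) / 3 ^ k) := by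
  obtain ⟨L, hL⟩ : ∃ L : ℝ, L = 2 ^ (201 * (k / 20) / 100) * (M + 1) := ⟨_, rfl⟩
  obtain ⟨Y, hY⟩ : ∃ Y : ℝ, Y = 2 ^ (201 * k / 100) * (L + (5 / 4) ^ k) / 3 ^ k := ⟨_, rfl⟩
  rw [← hL, ← hY]
  obtain ⟨G, hG⟩ : ∃ G, G = goodV I k k := ⟨_, rfl⟩
  obtain ⟨B, hB⟩ : ∃ B : ℕ → Set ℤ, B = fun s : ℕ => {b : ℤ | b ∈ Bd M (t - (s : ℝ)) ∧ L < |(b : ℝ)|} :=
    ⟨_, rfl⟩
  have h1 := handoff hN hX he B (fun s => Bd M (t - (s : ℝ))) (by
    intro u hu s b _ hr hb
    rw [hB] at hb
    have hpos : ∀ i ∈ u, 1 ≤ i := fun i hi =>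
      ((mem_words.1 (goodV_subset _ _ _ hu)).2 i hi).1
    rw [goodV, mem_filter] at hu
    obtain ⟨-, -, hs2, -⟩ := hu
    refine link hpos hr hM ?_ hb.2 hb.1
    rw [hL]
    apply mul_le_mul_of_nonneg_right _ (by positivity)
    exact pow_le_pow_right₀ (by norm_num) (by omega))
  have h2 := typical hN hX he
  rw [← hG] at h1 h2
  have hsub : ((Od e X).filter fun n => n ∈ Bd M t) ⊆
      (((Od e X).filter fun n => Hit G B n) ∪
        ((Od e X).filter fun n => ¬ Hit G (fun _ => Set.univ) n)) ∪ Od e Y := by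
    intro n hn
    rw [mem_filter] at hn
    obtain ⟨hn1, hn2⟩ := hn
    by_cases h3 : Hit G (fun _ => Set.univ) n
    · obtain ⟨w, hw, b, hb1, hb2, hb3, -⟩ := h3
      have hw' := hw
      rw [hG] at hw'
      have hlen := words_length (goodV_subset _ _ _ hw')
      have hpos : ∀ i ∈ w, 1 ≤ i := fun i hi =>
        ((mem_words.1 (goodV_subset _ _ _ hw')).2 i hi).1
      rw [goodV, mem_filter] at hw'
      obtain ⟨-, hs1, hs2, hc⟩ := hw'
      by_cases h4 : L < |(b : ℝ)|
      · rw [mem_union, mem_union, mem_filter, mem_filter]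
        left
        left
        refine ⟨hn1, w, hw, b, hb1, hb2, hb3, ?_⟩
        rw [hB]
        refine ⟨?_, h4⟩
        intro j hj
        rw [← T_en hb2 hpos, ← Function.iterate_add_apply, hb3]
        apply hn2
        rw [Nat.cast_add]
        linarith
      · rw [mem_union]
        right
        push Not at h4
        rw [mem_Od he] at hn1 ⊢
        obtain ⟨g1, g2, g3⟩ := hn1
        refine ⟨g1, g2, ?_⟩
        have h5 := en_spec hb2
        rw [hb3, hlen] at h5
        have h6 : (3 : ℤ) ^ k * (e * n) = 2 ^ w.sum * (e * b) - e * cw w := by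
          linear_combination e * h5
        have h7 : (3 : ℝ) ^ k * ((e * n : ℤ) : ℝ) =
            2 ^ w.sum * ((e * b : ℤ) : ℝ) - (e : ℝ) * cw w := by exact_mod_cast h6
        have h8 : ((e * b : ℤ) : ℝ) ≤ |(b : ℝ)| := by
          rcases he with h' | h' <;> rw [h'] <;> push_cast
          · rw [one_mul]
            exact le_abs_self _
          · rw [neg_one_mul]
            exact neg_le_abs _
        have h9 : -((e : ℝ) * cw w) ≤ (5 / 4) ^ k * 2 ^ w.sum := by
          have h10 : (0 : ℝ) ≤ cw w := Nat.cast_nonneg _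
          rcases he with h' | h' <;> rw [h'] <;> push_cast <;> linarith
        have h10 : (2 : ℝ) ^ w.sum ≤ 2 ^ (201 * k / 100) :=
          pow_le_pow_right₀ (by norm_num) (by omega)
        rw [hY, le_div_iff₀ (by positivity)]
        have hL0 : 0 ≤ L := by rw [hL]; positivity
        calc ((e * n : ℤ) : ℝ) * 3 ^ k = 2 ^ w.sum * ((e * b : ℤ) : ℝ) - (e : ℝ) * cw w := by
              rw [← h7]; ring
          _ ≤ 2 ^ w.sum * L + (5 / 4) ^ k * 2 ^ w.sum := by
              have : (2 : ℝ) ^ w.sum * ((e * b : ℤ) : ℝ) ≤ 2 ^ w.sum * L :=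
                mul_le_mul_of_nonneg_left (h8.trans h4) (by positivity)
              linarith
          _ = 2 ^ w.sum * (L + (5 / 4) ^ k) := by ring
          _ ≤ 2 ^ (201 * k / 100) * (L + (5 / 4) ^ k) :=
              mul_le_mul_of_nonneg_right h10 (by positivity)
    · rw [mem_union, mem_union, mem_filter, mem_filter]
      left
      right
      exact ⟨hn1, h3⟩
  have h3 := (card_le_card hsub).trans ((card_union_le _ _).trans
    (Nat.add_le_add_right (card_union_le _ _) _))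
  rw [card_Od he Y] at h3
  have h4 : F e M t X ≤ (((Od e X).filter fun n => Hit G B n).card : ℝ) +
      (((Od e X).filter fun n => ¬ Hit G (fun _ => Set.univ) n).card : ℝ) + oc Y := by
    unfold F
    exact_mod_cast h3
  have h5 : ∀ v ∈ goodV I k (k - k / 20),
      (((Od e (3 ^ (k - k / 20) * X / 2 ^ v.sum + 2 ^ k)).filter
        fun n => n ∈ Bd M (t - (v.sum : ℝ))).card : ℝ) / 3 ^ (k - k / 20) =
      F e M (t - (v.sum : ℝ)) (3 ^ (k - k / 20) * X / 2 ^ v.sum + 2 ^ k) / 3 ^ (k - k / 20) :=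
    fun v _ => rfl
  rw [sum_congr rfl h5] at h1
  linarith

end Pool.Agent.Collatz3.TN
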