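import Mathlib
import Pool.Agent.Collatz3.TNStep

set_option autoImplicit false

/-!
Natural density Tao theorem: the step from one scale to the next and the induction.
-/

namespace Pool.Agent.Collatz3.TN

open Finset Filter
open Pool.Agent.Helper14 (T)
open Pool.Agent.Collatz3.Mix (words mem_words sum_words_zero sum_words_succ sum_words_add)
open Pool.Agent.Collatz3.PD
open Pool.Agent.Collatz3.FW hiding Num num_all handoff typical P_good_ge num_ev

/-- The hypotheses on the errors `η k` at the scale `k`. -/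
structure Rate (η : ℕ → ℝ) (I : ℕ → ℕ) : Prop where
  num : ∀ᶠ k : ℕ in atTop, Num (η k) (I k) k
  dbl : ∀ᶠ k : ℕ in atTop, η (2 * k) ≤ η k
  slow : ∀ ρ : ℝ, 0 < ρ → ρ < 1 → ∀ᶠ k : ℕ in atTop, ρ ^ k ≤ η k

theorem log_two_bds : 0.6931 < Real.log 2 ∧ Real.log 2 < 0.6932 :=
  ⟨by have := Real.log_two_gt_d9; linarith, by have := Real.log_two_lt_d9; linarith⟩

theorem log_three_bds : 1.09 < Real.log 3 ∧ Real.log 3 < 1.0987 := by
  obtain ⟨h1, h2⟩ := log_two_bds
  constructor
  · -- 2 ^ 79 < 3 ^ 50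
    have h : Real.log ((2 : ℝ) ^ 79) < Real.log ((3 : ℝ) ^ 50) :=
      Real.log_lt_log (by norm_num) (by norm_num)
    rw [Real.log_pow, Real.log_pow] at h
    push_cast at h
    linarith
  · -- 3 ^ 147 < 2 ^ 233
    have h : Real.log ((3 : ℝ) ^ 147) < Real.log ((2 : ℝ) ^ 233) :=
      Real.log_lt_log (by norm_num) (by norm_num)
    rw [Real.log_pow, Real.log_pow] at h
    push_cast at h
    have := Real.log_two_lt_d9
    linarith

/-- The small terms. -/
theorem small_ev {η : ℕ → ℝ} {I : ℕ → ℕ} (hR : Rate η I) {ρ : ℝ} (h0 : 0 < ρ) (h1 : ρ < 1) :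
    ∀ᶠ k : ℕ in atTop, ρ ^ (k - k / 20) ≤ η k ∧ 2 * (403 / 50 : ℝ) ^ k ≤ η k * 2 ^ (30 * k) ∧
      (824 / 1000 : ℝ) ^ k ≤ η k / 2 ∧ 4 * (3 : ℝ) ^ k ≤ η k / 2 * 2 ^ (30 * k) := by
  have a1 := hR.slow (√ρ) (Real.sqrt_pos.2 h0) (by
    rw [Real.sqrt_lt' one_pos]
    linarith)
  have a2 := hR.slow (1 / 2) (by norm_num) (by norm_num)
  have a3 := hR.slow (825 / 1000) (by norm_num) (by norm_num)
  have a4 : ∀ᶠ k : ℕ in atTop, (824 / 825 : ℝ) ^ k < 1 / 2 :=
    (tendsto_pow_atTop_nhds_zero_of_lt_one (by norm_num) (by norm_num)).eventually_lt_const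
      (by norm_num)
  have a5 := hR.num
  filter_upwards [a1, a2, a3, a4, a5, eventually_ge_atTop 1] with k b1 b2 b3 b4 b5 b6
  refine ⟨?_, ?_, ?_, ?_⟩
  · refine le_trans ?_ b1
    have h2 : ρ = √ρ ^ 2 := (Real.sq_sqrt h0.le).symm
    have h3 : √ρ ≤ 1 := Real.sqrt_le_one.2 h1.le
    calc ρ ^ (k - k / 20) = √ρ ^ (2 * (k - k / 20)) := by
          rw [pow_mul, ← h2]
      _ ≤ √ρ ^ k := pow_le_pow_of_le_one (Real.sqrt_nonneg _) h3 (by omega)
  · have h2 : (1 / 2 : ℝ) ^ k * 2 ^ (30 * k) ≤ η k * 2 ^ (30 * k) :=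
      mul_le_mul_of_nonneg_right b2 (by positivity)
    refine le_trans ?_ h2
    have h3 : (1 / 2 : ℝ) ^ k * 2 ^ (30 * k) = (1 / 2 * 2 ^ 30) ^ k := by
      rw [mul_pow, ← pow_mul]
    rw [h3]
    calc 2 * (403 / 50 : ℝ) ^ k ≤ 2 ^ k * (403 / 50 : ℝ) ^ k := by
          apply mul_le_mul_of_nonneg_right _ (by positivity)
          calc (2 : ℝ) = 2 ^ 1 := by norm_num
            _ ≤ 2 ^ k := pow_le_pow_right₀ (by norm_num) b6
      _ = (2 * (403 / 50)) ^ k := by rw [mul_pow]
      _ ≤ (1 / 2 * 2 ^ 30) ^ k := pow_le_pow_left₀ (by norm_num) (by norm_num) _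
  · have h2 : (824 / 1000 : ℝ) ^ k = (824 / 825) ^ k * (825 / 1000) ^ k := by
      rw [← mul_pow]
      norm_num
    rw [h2]
    have h3 : (0 : ℝ) ≤ (825 / 1000) ^ k := by positivity
    calc (824 / 825 : ℝ) ^ k * (825 / 1000) ^ k ≤ 1 / 2 * (825 / 1000) ^ k :=
          mul_le_mul_of_nonneg_right b4.le h3
      _ ≤ 1 / 2 * η k := mul_le_mul_of_nonneg_left b3 (by norm_num)
      _ = η k / 2 := by ring
  · have h2 : (1 / 2 : ℝ) ^ k * 2 ^ (30 * k) ≤ η k * 2 ^ (30 * k) :=
      mul_le_mul_of_nonneg_right b2 (by positivity)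
    have h3 : (1 / 2 : ℝ) ^ k * 2 ^ (30 * k) = (1 / 2 * 2 ^ 30) ^ k := by
      rw [mul_pow, ← pow_mul]
    rw [h3] at h2
    have h4 : 8 * (3 : ℝ) ^ k ≤ (1 / 2 * 2 ^ 30) ^ k := by
      calc 8 * (3 : ℝ) ^ k ≤ 8 ^ k * (3 : ℝ) ^ k := by
            apply mul_le_mul_of_nonneg_right _ (by positivity)
            calc (8 : ℝ) = 8 ^ 1 := by norm_num
              _ ≤ 8 ^ k := pow_le_pow_right₀ (by norm_num) b6
        _ = (8 * 3) ^ k := by rw [mul_pow]
        _ ≤ (1 / 2 * 2 ^ 30) ^ k := pow_le_pow_left₀ (by norm_num) (by norm_num) _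
    linarith

theorem two_pow_sig (k : ℕ) : (2 : ℝ) ^ (201 * (k / 20) / 100) ≤ (1073 / 1000) ^ k := by
  have h : ((2 : ℝ) ^ (201 * (k / 20) / 100)) ^ 2000 ≤ ((1073 / 1000 : ℝ) ^ k) ^ 2000 := by
    calc ((2 : ℝ) ^ (201 * (k / 20) / 100)) ^ 2000 = 2 ^ (201 * (k / 20) / 100 * 2000) := by
          rw [← pow_mul]
      _ ≤ 2 ^ (201 * k) := pow_le_pow_right₀ (by norm_num) (by omega)
      _ = ((2 : ℝ) ^ 201) ^ k := by rw [pow_mul]
      _ ≤ (((1073 / 1000 : ℝ) ^ 20) ^ 100) ^ k := by
          apply pow_le_pow_left₀ (by positivity)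
          have e1 : ((405 / 100 : ℝ)) ≤ (1073 / 1000) ^ 20 := by norm_num
          calc (2 : ℝ) ^ 201 ≤ (405 / 100) ^ 100 := by norm_num
            _ ≤ ((1073 / 1000 : ℝ) ^ 20) ^ 100 := pow_le_pow_left₀ (by norm_num) e1 _
      _ = ((1073 / 1000 : ℝ) ^ k) ^ 2000 := by
          rw [← pow_mul, ← pow_mul, ← pow_mul]
          congr 1
          ring
  exact le_of_pow_le_pow_left₀ (by norm_num) (by positivity) h

/-- The step from one scale to the next. -/
theorem step {η : ℕ → ℝ} {I : ℕ → ℕ} (hR : Rate η I) {γ : ℝ} (hγ : 2 / Real.log (4 / 3) < γ) :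
    ∃ k₀ : ℕ, 1000 ≤ k₀ ∧ ∀ k : ℕ, k₀ ≤ k → ∀ X : ℝ, 2 ^ (30 * k) ≤ X → X < 2 ^ (30 * (k + 1)) →
      ∀ e : ℤ, e = 1 ∨ e = -1 → ∀ M : ℝ, 1 ≤ M → ∀ H : ℝ, 0 ≤ H → H ≤ 1 →
      (∀ y : ℝ, 1 ≤ y → Real.log y ≤ 99 / 100 * Real.log X →
        F e M (γ * Real.log y) y ≤ H * y) →
      F e M (γ * Real.log X) X ≤ X * (H + 8 * η k) := by
  obtain ⟨l2a, l2b⟩ := log_two_bds
  obtain ⟨l3a, l3b⟩ := log_three_bds
  have l43 : Real.log (4 / 3) = 2 * Real.log 2 - Real.log 3 := by
    rw [Real.log_div (by norm_num) (by norm_num)]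
    have : (4 : ℝ) = 2 ^ 2 := by norm_num
    rw [this, Real.log_pow]
    push_cast
    ring
  have l43p : 0 < Real.log (4 / 3) := Real.log_pos (by norm_num)
  have hγ1 : 2 < γ * Real.log (4 / 3) := by rwa [div_lt_iff₀ l43p] at hγ
  have hγ6 : 6 ≤ γ := by
    by_contra hcon
    push Not at hcon
    have h1 : Real.log (4 / 3) ≤ 1 / 3 := by
      have := Real.log_le_sub_one_of_pos (show (0 : ℝ) < 4 / 3 by norm_num)
      linarith
    have h2 : γ * Real.log (4 / 3) ≤ 6 * Real.log (4 / 3) :=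
      mul_le_mul_of_nonneg_right hcon.le l43p.le
    linarith
  have hgl : 0 < γ * Real.log 2 - 1 := by
    have : 6 * 0.6931 ≤ γ * Real.log 2 := mul_le_mul hγ6 l2a.le (by norm_num) (by linarith)
    linarith
  obtain ⟨δ, hδ⟩ : ∃ δ : ℝ, δ = min 1 ((γ * Real.log (4 / 3) - 2) / (2 * (γ * Real.log 2 - 1))) :=
    ⟨_, rfl⟩
  have hδ0 : 0 < δ := by
    rw [hδ]
    exact lt_min one_pos (div_pos (by linarith) (by linarith))
  have hδ1 : δ ≤ 1 := by rw [hδ]; exact min_le_left _ _
  have hδ2 : δ * (γ * Real.log 2 - 1) ≤ (γ * Real.log (4 / 3) - 2) / 2 := by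
    have h1 : δ ≤ (γ * Real.log (4 / 3) - 2) / (2 * (γ * Real.log 2 - 1)) := by
      rw [hδ]
      exact min_le_right _ _
    calc δ * (γ * Real.log 2 - 1)
        ≤ (γ * Real.log (4 / 3) - 2) / (2 * (γ * Real.log 2 - 1)) * (γ * Real.log 2 - 1) :=
          mul_le_mul_of_nonneg_right h1 hgl.le
      _ = (γ * Real.log (4 / 3) - 2) / 2 := by
          field_simp
  obtain ⟨ρ, hρ0, hρ1, htail⟩ := tail hδ0 hδ1
  obtain ⟨κ, hκ⟩ : ∃ κ : ℝ, κ = (γ * Real.log (4 / 3) - 2) / 2 := ⟨_, rfl⟩
  have hκ0 : 0 < κ := by rw [hκ]; linarith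
  obtain ⟨k₂, hk₂⟩ := exists_nat_ge (2 * (γ * Real.log 2) / κ)
  obtain ⟨k₁, hk₁⟩ := (hR.num.and (hR.dbl.and (small_ev hR hρ0 hρ1))).exists_forall_of_atTop
  refine ⟨max 1000 (max k₁ k₂), le_max_left _ _, ?_⟩
  intro k hk X hX1 hX2 e he M hM H hH0 hH1 hy
  have hk1000 : 1000 ≤ k := (le_max_left _ _).trans hk
  have hkk₁ : k₁ ≤ k := (le_max_left _ _).trans ((le_max_right _ _).trans hk)
  have hkk₂ : k₂ ≤ k := (le_max_right _ _).trans ((le_max_right _ _).trans hk)
  obtain ⟨hN, hd, s1, s2, s3, s4⟩ := hk₁ k hkk₁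
  obtain ⟨hN2, -⟩ := hk₁ (2 * k) (by omega)
  have hη := hN.pos
  have hX0 : (0 : ℝ) < X := lt_of_lt_of_le (by positivity) hX1
  have hXpow : ∀ m : ℕ, m ≤ 30 * k → (2 : ℝ) ^ m ≤ X := fun m hm =>
    (pow_le_pow_right₀ (by norm_num) hm).trans hX1
  have hlX1 : 30 * k * Real.log 2 ≤ Real.log X := by
    have := Real.log_le_log (by positivity) hX1
    rw [Real.log_pow] at this
    push_cast at this
    exact this
  have hlX2 : Real.log X ≤ 30 * (k + 1) * Real.log 2 := by
    have := Real.log_le_log hX0 hX2.le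
    rw [Real.log_pow] at this
    push_cast at this
    exact this
  have hkr : (1000 : ℝ) ≤ k := by exact_mod_cast hk1000
  have hkl : 30 * k * 0.6931 ≤ 30 * k * Real.log 2 :=
    mul_le_mul_of_nonneg_left l2a.le (by positivity)
  by_cases hcase : X * (300 / 397) ^ (2 * k) + (5 / 4) ^ (2 * k) ≤ M
  · -- direct
    have h1 := direct hN2 (hXpow _ (by omega)) he hcase (t := γ * Real.log X) (by
      have h2 : ((201 * (2 * k) / 100 : ℕ) : ℝ) ≤ 5 * k := by
        have : 201 * (2 * k) / 100 ≤ 5 * k := by omega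
        exact_mod_cast this
      refine h2.trans ?_
      have h3 : 6 * (30 * k * 0.6931) ≤ γ * Real.log X :=
        mul_le_mul hγ6 (hkl.trans hlX1) (by positivity) (by linarith)
      linarith)
    refine h1.trans ?_
    have h2 : X * η (2 * k) ≤ X * η k := mul_le_mul_of_nonneg_left hd hX0.le
    have h3 : 0 ≤ X * H := by positivity
    have h4 : 0 ≤ X * η k := by positivity
    calc 2 * (X * η (2 * k)) ≤ 2 * (X * η k) := by linarith
      _ ≤ X * (H + 8 * η k) := by linarith
  · push Not at hcase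
    have h1 := step_raw hN (hXpow (3 * k) (by omega)) he (γ * Real.log X) (by linarith : 0 ≤ M)
    obtain ⟨l, hl⟩ : ∃ l, l = k - k / 20 := ⟨_, rfl⟩
    rw [← hl] at h1 s1
    have hl1 : 19 * k ≤ 20 * l := by omega
    have hlk : l ≤ k := by omega
    have hl1r : (19 : ℝ) * k ≤ 20 * l := by exact_mod_cast hl1
    -- the bound for a word
    have hterm : ∀ v ∈ goodV (I k) k l,
        F e M (γ * Real.log X - (v.sum : ℝ)) (3 ^ l * X / 2 ^ v.sum + 2 ^ k) / 3 ^ l ≤
        H * (X * (1 / 2) ^ v.sum) + 2 ^ k +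
          (if (v.sum : ℝ) < (2 - δ) * l then X * (1 / 2) ^ v.sum + 2 ^ k else 0) := by
      intro v hv
      rw [goodV, mem_filter] at hv
      obtain ⟨-, hs1, hs2, -⟩ := hv
      obtain ⟨s, hs⟩ : ∃ s, s = v.sum := ⟨_, rfl⟩
      rw [← hs] at hs1 hs2 ⊢
      obtain ⟨y, hyd⟩ : ∃ y : ℝ, y = 3 ^ l * X / 2 ^ s + 2 ^ k := ⟨_, rfl⟩
      rw [← hyd]
      have h3l : (1 : ℝ) ≤ 3 ^ l := one_le_pow₀ (by norm_num)
      have h2k : (1 : ℝ) ≤ 2 ^ k := one_le_pow₀ (by norm_num)
      have hy0 : 0 ≤ 3 ^ l * X / 2 ^ s := by positivity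
      have hy1 : 1 ≤ y := by rw [hyd]; linarith
      have hydiv : y / 3 ^ l ≤ X * (1 / 2) ^ s + 2 ^ k := by
        rw [hyd, add_div]
        apply add_le_add
        · apply le_of_eq
          rw [one_div, inv_pow]
          field_simp
        · exact div_le_self (by positivity) h3l
      by_cases hc : (s : ℝ) < (2 - δ) * l
      · rw [if_pos hc]
        have h2 := F_le he M (γ * Real.log X - (s : ℝ)) (by linarith : 0 ≤ y)
        have h3 : F e M (γ * Real.log X - (s : ℝ)) y / 3 ^ l ≤ y / 3 ^ l :=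
          div_le_div_of_nonneg_right (by linarith) (by positivity)
        have h4 : 0 ≤ H * (X * (1 / 2) ^ s) := by positivity
        linarith
      · rw [if_neg hc]
        push Not at hc
        have hs1r : (199 : ℝ) * l ≤ 100 * s := by exact_mod_cast hs1
        -- the logarithm of `y`
        have hy2 : y ≤ 2 * (3 ^ l * X / 2 ^ s) := by
          have h2 : (2 : ℝ) ^ k ≤ 3 ^ l * X / 2 ^ s := by
            rw [le_div_iff₀ (by positivity), ← pow_add]
            calc (2 : ℝ) ^ (k + s) ≤ X := hXpow _ (by omega)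
              _ = 1 * X := (one_mul X).symm
              _ ≤ 3 ^ l * X := mul_le_mul_of_nonneg_right h3l hX0.le
          rw [hyd]
          linarith
        have hly : Real.log y ≤
            Real.log X + l * Real.log 3 - s * Real.log 2 + Real.log 2 := by
          refine (Real.log_le_log (by linarith) hy2).trans (le_of_eq ?_)
          rw [Real.log_mul (by norm_num) (by positivity), Real.log_div (by positivity)
            (by positivity), Real.log_mul (by positivity) hX0.ne', Real.log_pow, Real.log_pow]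
          ring
        have hs0 : (0 : ℝ) ≤ s := Nat.cast_nonneg _
        have hl0 : (0 : ℝ) ≤ l := Nat.cast_nonneg _
        have hll3 : l * Real.log 3 ≤ l * 1.0987 := mul_le_mul_of_nonneg_left l3b.le hl0
        have hsl2 : s * 0.6931 ≤ s * Real.log 2 := mul_le_mul_of_nonneg_left l2a.le hs0
        have hly2 : Real.log y ≤ 99 / 100 * Real.log X := by
          have h2 : 30 * (k + 1) * Real.log 2 ≤ 30 * (k + 1) * 0.6932 :=
            mul_le_mul_of_nonneg_left l2b.le (by positivity)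
          linarith
        have htime : γ * Real.log y ≤ γ * Real.log X - s := by
          have h2 : γ * Real.log y ≤
              γ * (Real.log X + l * Real.log 3 - s * Real.log 2 + Real.log 2) :=
            mul_le_mul_of_nonneg_left hly (by linarith)
          have h3 : (2 - δ) * l * (γ * Real.log 2 - 1) ≤ s * (γ * Real.log 2 - 1) :=
            mul_le_mul_of_nonneg_right hc hgl.le
          have h4 : l * (δ * (γ * Real.log 2 - 1)) ≤ l * ((γ * Real.log (4 / 3) - 2) / 2) :=
            mul_le_mul_of_nonneg_left hδ2 hl0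
          have h5 : γ * Real.log 2 ≤ l * κ := by
            rw [div_le_iff₀ hκ0] at hk₂
            have h6 : (k₂ : ℝ) ≤ 2 * l := by
              have : k₂ ≤ 2 * l := by omega
              exact_mod_cast this
            have h7 : k₂ * κ ≤ 2 * l * κ := mul_le_mul_of_nonneg_right h6 hκ0.le
            linarith
          rw [l43] at h4
          rw [hκ, l43] at h5
          linarith
        have h2 : F e M (γ * Real.log X - (s : ℝ)) y ≤ H * y :=
          (F_anti e htime y).trans (hy y hy1 hly2)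
        have h3 : F e M (γ * Real.log X - (s : ℝ)) y / 3 ^ l ≤ H * y / 3 ^ l :=
          div_le_div_of_nonneg_right h2 (by positivity)
        rw [mul_div_assoc] at h3
        have h4 : H * (y / 3 ^ l) ≤ H * (X * (1 / 2) ^ s + 2 ^ k) :=
          mul_le_mul_of_nonneg_left hydiv hH0
        have h5 : H * 2 ^ k ≤ 1 * 2 ^ k := mul_le_mul_of_nonneg_right hH1 (by positivity)
        linarith
    have hsum := sum_le_sum hterm
    rw [sum_add_distrib, sum_add_distrib] at hsum
    have hcard : ((goodV (I k) k l).card : ℝ) ≤ (403 / 100) ^ k := by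
      refine (card_words_le (s := 201 * k / 100) (goodV_subset _ _ _) ?_).trans
        (two_pow_smax k)
      intro w hw
      rw [goodV, mem_filter] at hw
      omega
    have hP1 : P (goodV (I k) k l) ≤ 1 := by
      refine (P_mono (goodV_subset _ _ _)).trans ?_
      rw [P_words]
      exact pow_le_one₀ (Z_nonneg _) (Z_le_one _)
    have t1 : ∑ v ∈ goodV (I k) k l, H * (X * (1 / 2) ^ v.sum) ≤ H * X := by
      have : ∑ v ∈ goodV (I k) k l, H * (X * (1 / 2) ^ v.sum) = H * X * P (goodV (I k) k l) := by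
        unfold P
        rw [mul_sum]
        apply sum_congr rfl
        intro v _
        ring
      rw [this]
      exact mul_le_of_le_one_right (by positivity) hP1
    have t2 : ∑ v ∈ goodV (I k) k l, (2 : ℝ) ^ k ≤ (403 / 50) ^ k := by
      rw [sum_const, nsmul_eq_mul]
      calc ((goodV (I k) k l).card : ℝ) * 2 ^ k ≤ (403 / 100) ^ k * 2 ^ k :=
            mul_le_mul_of_nonneg_right hcard (by positivity)
        _ = (403 / 50) ^ k := by
            rw [← mul_pow]
            norm_num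
    have t3 : ∑ v ∈ goodV (I k) k l,
        (if (v.sum : ℝ) < (2 - δ) * l then X * (1 / 2) ^ v.sum + 2 ^ k else 0) ≤
        X * ρ ^ l + (403 / 50) ^ k := by
      have h2 : ∑ v ∈ goodV (I k) k l,
          (if (v.sum : ℝ) < (2 - δ) * l then X * (1 / 2) ^ v.sum + 2 ^ k else 0) ≤
          ∑ v ∈ goodV (I k) k l,
          ((if (v.sum : ℝ) < (2 - δ) * l then X * (1 / 2) ^ v.sum else 0) + 2 ^ k) := by
        apply sum_le_sum
        intro v _
        have : (0 : ℝ) ≤ 2 ^ k := by positivity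
        split_ifs
        · exact le_rfl
        · linarith
      refine h2.trans ?_
      rw [sum_add_distrib]
      apply add_le_add _ t2
      have h3 : ∑ v ∈ goodV (I k) k l,
          (if (v.sum : ℝ) < (2 - δ) * l then X * (1 / 2) ^ v.sum else 0) ≤
          ∑ v ∈ words (I k) l,
          (if (v.sum : ℝ) < (2 - δ) * l then X * (1 / 2) ^ v.sum else 0) := by
        apply sum_le_sum_of_subset_of_nonneg (goodV_subset _ _ _)
        intro v _ _
        split_ifs
        · positivity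
        · exact le_rfl
      refine h3.trans ?_
      rw [← sum_filter, ← mul_sum]
      exact mul_le_mul_of_nonneg_left (htail (I k) l) hX0.le
    -- the small range
    have t4 : (oc (2 ^ (201 * k / 100) * (2 ^ (201 * (k / 20) / 100) * (M + 1) + (5 / 4) ^ k) /
        3 ^ k) : ℝ) ≤ X * η k := by
      have u1 := two_pow_smax k
      have u2 := two_pow_sig k
      have u3 : M + 1 ≤ X * (300 / 397) ^ (2 * k) + 2 * (25 / 16) ^ k := by
        have e1 : (5 / 4 : ℝ) ^ (2 * k) = (25 / 16) ^ k := by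
          rw [pow_mul]
          norm_num
        have e2 : (1 : ℝ) ≤ (25 / 16) ^ k := one_le_pow₀ (by norm_num)
        rw [e1] at hcase
        linarith
      refine (oc_le (by positivity)).trans ?_
      have u4 : (2 : ℝ) ^ (201 * k / 100) *
          (2 ^ (201 * (k / 20) / 100) * (M + 1) + (5 / 4) ^ k) / 3 ^ k ≤
          (403 / 100) ^ k * ((1073 / 1000) ^ k * (X * (300 / 397) ^ (2 * k) + 2 * (25 / 16) ^ k) +
            (5 / 4) ^ k) / 3 ^ k := by
        apply div_le_div_of_nonneg_right _ (by positivity)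
        apply mul_le_mul u1 _ (by positivity) (by positivity)
        apply add_le_add _ le_rfl
        exact mul_le_mul u2 u3 (by linarith) (by positivity)
      have u5 : (403 / 100 : ℝ) ^ k * ((1073 / 1000) ^ k *
          (X * (300 / 397) ^ (2 * k) + 2 * (25 / 16) ^ k) + (5 / 4) ^ k) / 3 ^ k =
          X * (403 / 300 * (1073 / 1000) * (300 / 397) ^ 2) ^ k +
          2 * (403 / 300 * (1073 / 1000) * (25 / 16)) ^ k + (403 / 300 * (5 / 4)) ^ k := by
        have e1 : (403 / 300 : ℝ) ^ k = (403 / 100) ^ k / 3 ^ k := by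
          rw [← div_pow]
          norm_num
        rw [mul_pow, mul_pow, mul_pow, mul_pow, mul_pow, e1, pow_mul]
        ring
      have u6 : (403 / 300 * (1073 / 1000) * (300 / 397) ^ 2 : ℝ) ^ k ≤ (824 / 1000) ^ k :=
        pow_le_pow_left₀ (by norm_num) (by norm_num) _
      have u7 : (403 / 300 * (1073 / 1000) * (25 / 16) : ℝ) ^ k ≤ 3 ^ k :=
        pow_le_pow_left₀ (by norm_num) (by norm_num) _
      have u8 : (403 / 300 * (5 / 4) : ℝ) ^ k ≤ 3 ^ k :=
        pow_le_pow_left₀ (by norm_num) (by norm_num) _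
      have u9 : (1 : ℝ) ≤ 3 ^ k := one_le_pow₀ (by norm_num)
      rw [u5] at u4
      have u10 := mul_le_mul_of_nonneg_left (u6.trans s3) hX0.le
      have u11 : η k / 2 * 2 ^ (30 * k) ≤ η k / 2 * X :=
        mul_le_mul_of_nonneg_left hX1 (by positivity)
      linarith
    have t5 : (403 / 50 : ℝ) ^ k ≤ X * η k / 2 := by
      have : η k * 2 ^ (30 * k) ≤ η k * X := mul_le_mul_of_nonneg_left hX1 hη.le
      linarith
    have t6 := mul_le_mul_of_nonneg_left s1 hX0.le
    linarith

open Classical in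
/-- The induction over the scales. -/
theorem induct {η : ℕ → ℝ} {I : ℕ → ℕ} (hR : Rate η I) {γ : ℝ} (hγ : 2 / Real.log (4 / 3) < γ)
    {R : ℝ → ℝ} (hR0 : ∀ x, 0 ≤ R x) (hRa : ∀ x y, 0 < x → x ≤ y → R y ≤ R x)
    (hRs : ∀ᶠ k : ℕ in atTop, ∀ x : ℝ, 30 * k * Real.log 2 ≤ x → x ≤ 30 * (k + 1) * Real.log 2 →
      R x + 8 * η k ≤ R (99 / 100 * x)) :
    ∃ M₀ : ℝ, 2 ≤ M₀ ∧ ∀ M : ℝ, M₀ ≤ M → ∀ X : ℝ, 1 ≤ X → ∀ e : ℤ, e = 1 ∨ e = -1 →
      F e M (γ * Real.log X) X ≤ X * R (99 / 100 * Real.log M) := by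
  obtain ⟨k₀, hk₀, hstep⟩ := step hR hγ
  obtain ⟨k₁, hk₁⟩ := hRs.exists_forall_of_atTop
  obtain ⟨K, hK⟩ : ∃ K, K = max k₀ k₁ := ⟨_, rfl⟩
  have hK0 : k₀ ≤ K := by rw [hK]; exact le_max_left _ _
  have hK1 : k₁ ≤ K := by rw [hK]; exact le_max_right _ _
  obtain ⟨l2a, l2b⟩ := log_two_bds
  refine ⟨2 ^ (30 * K), ?_, ?_⟩
  · calc (2 : ℝ) = 2 ^ 1 := by norm_num
      _ ≤ 2 ^ (30 * K) := pow_le_pow_right₀ (by norm_num) (by omega)
  intro M hM X hX e he
  have hM0 : (0 : ℝ) < M := lt_of_lt_of_le (by positivity) hM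
  have hM1 : (1 : ℝ) ≤ M := (one_le_pow₀ (by norm_num)).trans hM
  obtain ⟨S, hS⟩ : ∃ S, S = R (99 / 100 * Real.log M) := ⟨_, rfl⟩
  rw [← hS]
  have hlM : 30 * K * Real.log 2 ≤ Real.log M := by
    have := Real.log_le_log (by positivity) hM
    rw [Real.log_pow] at this
    push_cast at this
    exact this
  have hK1000 : (1000 : ℝ) ≤ K := by exact_mod_cast hk₀.trans hK0
  have hlM0 : 100 ≤ Real.log M := by
    have h1 : 30 * K * 0.6931 ≤ 30 * K * Real.log 2 :=
      mul_le_mul_of_nonneg_left l2a.le (by positivity)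
    linarith
  have hg : 0 ≤ γ := by
    have : 0 < Real.log (4 / 3) := Real.log_pos (by norm_num)
    have h2 : 0 < 2 / Real.log (4 / 3) := by positivity
    linarith
  -- small X
  have hsmall : ∀ Y : ℝ, 1 ≤ Y → Y < M → F e M (γ * Real.log Y) Y = 0 := by
    intro Y hY1 hYM
    unfold F
    rw [Nat.cast_eq_zero, card_eq_zero, filter_eq_empty_iff]
    intro n hn hb
    rw [mem_Od he] at hn
    have h1 := hb 0 (by
      have : 0 ≤ Real.log Y := Real.log_nonneg hY1
      rw [Nat.cast_zero]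
      positivity)
    rw [Function.iterate_zero, id, abs_eq_of_sign he hn.2.1] at h1
    linarith [hn.2.2]
  have hmain : ∀ N : ℕ, ∀ Y : ℝ, 1 ≤ Y → Real.log Y ≤ N → M ≤ Y →
      F e M (γ * Real.log Y) Y ≤ Y * (S - R (Real.log Y)) := by
    intro N
    induction N with
    | zero =>
      intro Y hY1 hY2 hY3
      have h1 := Real.log_le_log hM0 hY3
      rw [Nat.cast_zero] at hY2
      linarith
    | succ N ih =>
      intro Y hY1 hY2 hY3
      have hY0 : (0 : ℝ) < Y := by linarith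
      have hlY := Real.log_le_log hM0 hY3
      -- the scale
      obtain ⟨k, hkd⟩ : ∃ k : ℕ, k = ⌊Real.log Y / (30 * Real.log 2)⌋₊ := ⟨_, rfl⟩
      have hl30 : 0 < 30 * Real.log 2 := by linarith
      have hk1 : (k : ℝ) ≤ Real.log Y / (30 * Real.log 2) := by
        rw [hkd]
        exact Nat.floor_le (div_nonneg (by linarith) hl30.le)
      have hk2 : Real.log Y / (30 * Real.log 2) < k + 1 := by
        rw [hkd]
        exact Nat.lt_floor_add_one _
      rw [le_div_iff₀ hl30] at hk1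
      rw [div_lt_iff₀ hl30] at hk2
      have hkK : K ≤ k := by
        rw [hkd]
        apply Nat.le_floor
        rw [le_div_iff₀ hl30]
        linarith
      have hY4 : (2 : ℝ) ^ (30 * k) ≤ Y := by
        rw [← Real.log_le_log_iff (by positivity) hY0, Real.log_pow]
        push_cast
        linarith
      have hY5 : Y < 2 ^ (30 * (k + 1)) := by
        rw [← Real.log_lt_log_iff hY0 (by positivity), Real.log_pow]
        push_cast
        linarith
      have hHnn : 0 ≤ S - R (99 / 100 * Real.log Y) := by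
        have := hRa (99 / 100 * Real.log M) (99 / 100 * Real.log Y) (by linarith) (by linarith)
        rw [hS]
        linarith
      have h1 := hstep k (hK0.trans hkK) Y hY4 hY5 e he M hM1
        (min (S - R (99 / 100 * Real.log Y)) 1) (le_min hHnn zero_le_one) (min_le_right _ _) (by
          intro y hy1 hy2
          rcases lt_or_ge y M with h | h
          · rw [hsmall y hy1 h]
            exact mul_nonneg (le_min hHnn zero_le_one) (by linarith)
          · have h2 := ih y hy1 (by push_cast at hY2; linarith) h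
            have h3 := F_le he M (γ * Real.log y) (by linarith : 0 ≤ y)
            have h4 : R (99 / 100 * Real.log Y) ≤ R (Real.log y) :=
              hRa _ _ (lt_of_lt_of_le (by linarith) (Real.log_le_log hM0 h)) hy2
            rw [min_mul_of_nonneg _ _ (by linarith : 0 ≤ y), one_mul]
            apply le_min
            · refine h2.trans ?_
              rw [mul_comm]
              exact mul_le_mul_of_nonneg_right (by linarith) (by linarith)
            · linarith)
      refine h1.trans ?_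
      apply mul_le_mul_of_nonneg_left _ hY0.le
      have h2 := hk₁ k (hK1.trans hkK) (Real.log Y) (by linarith) (by linarith)
      have h3 := min_le_left (S - R (99 / 100 * Real.log Y)) 1
      linarith
  rcases lt_or_ge X M with h | h
  · rw [hsmall X hX h]
    rw [hS]
    exact mul_nonneg (by linarith) (hR0 _)
  · obtain ⟨N, hN⟩ := exists_nat_ge (Real.log X)
    refine (hmain N X hX hN h).trans ?_
    apply mul_le_mul_of_nonneg_left _ (by linarith)
    have := hR0 (Real.log X)
    linarith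

end Pool.Agent.Collatz3.TN
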