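import Mathlib
import Pool.Agent.Collatz3.TNInd

set_option autoImplicit false

/-!
Natural density Tao theorem: from odd integers of one sign to all integers.
-/

namespace Pool.Agent.Collatz3.TN

open Finset Filter
open Pool.Agent.Helper14 (T)
open Pool.Agent.Collatz3.FW hiding Num num_all handoff typical P_good_ge num_ev

open Classical in
theorem count_all {γ M C : ℝ} (hγ : 2 / Real.log (4 / 3) < γ) (hM : 0 ≤ M) (hC : 0 ≤ C)
    (h : ∀ X : ℝ, 1 ≤ X → ∀ e : ℤ, e = 1 ∨ e = -1 → F e M (γ * Real.log X) X ≤ X * C) (X : ℝ)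
    (hX : 1 ≤ X) :
    (({n : ℤ | |(n : ℝ)| ≤ X ∧ ∀ j : ℕ, (j : ℝ) ≤ γ * Real.log X →
      M < |((T^[j] n : ℤ) : ℝ)|}.ncard : ℕ) : ℝ) ≤ 4 * (X * C) := by
  obtain ⟨l2a, l2b⟩ := log_two_bds
  have hγ2 : 1 ≤ γ * Real.log 2 := by
    have l43p : 0 < Real.log (4 / 3) := Real.log_pos (by norm_num)
    have hγ1 : 2 < γ * Real.log (4 / 3) := by rwa [div_lt_iff₀ l43p] at hγ
    have h2 : Real.log (4 / 3) ≤ 1 / 3 := by
      have := Real.log_le_sub_one_of_pos (show (0 : ℝ) < 4 / 3 by norm_num)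
      linarith
    have hγ6 : 6 ≤ γ := by
      by_contra hcon
      push Not at hcon
      have h2 : γ * Real.log (4 / 3) ≤ 6 * Real.log (4 / 3) :=
        mul_le_mul_of_nonneg_right hcon.le l43p.le
      linarith
    have : 6 * 0.6931 ≤ γ * Real.log 2 := mul_le_mul hγ6 l2a.le (by norm_num) (by linarith)
    linarith
  have hX0 : (0 : ℝ) < X := by linarith
  obtain ⟨N, hN1, hN2⟩ : ∃ N : ℕ, (2 : ℝ) ^ N ≤ X ∧ X < 2 ^ (N + 1) :=
    exists_nat_pow_near hX (by norm_num)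
  obtain ⟨U, hU⟩ : ∃ U : ℕ → ℤ → Finset ℤ, U = fun i e =>
      ((Od e (X / 2 ^ i)).filter fun n => n ∈ Bd M (γ * Real.log (X / 2 ^ i))).image
        fun m => 2 ^ i * m := ⟨_, rfl⟩
  have hsub : {n : ℤ | |(n : ℝ)| ≤ X ∧ ∀ j : ℕ, (j : ℝ) ≤ γ * Real.log X →
      M < |((T^[j] n : ℤ) : ℝ)|} ⊆
      (((range (N + 1)).biUnion fun i => U i 1 ∪ U i (-1) : Finset ℤ) : Set ℤ) := by
    rintro n ⟨hn1, hn2⟩
    have hn0 : n ≠ 0 := by
      rintro rfl
      have := hn2 0 (by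
        have : 0 ≤ Real.log X := Real.log_nonneg hX
        rw [Nat.cast_zero]
        nlinarith)
      simp at this
      linarith
    obtain ⟨i, m, hm, hnm⟩ : ∃ (i : ℕ) (m : ℤ), m % 2 = 1 ∧ n = 2 ^ i * m := by
      obtain ⟨i, m, hm, hnm⟩ := Nat.exists_eq_pow_mul_and_not_dvd
        (Int.natAbs_ne_zero.2 hn0) 2 (by decide)
      have h2 : (n.natAbs : ℤ) = 2 ^ i * (m : ℤ) := by
        rw [hnm]
        push_cast
        rfl
      rcases Int.natAbs_eq n with h3 | h3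
      · exact ⟨i, m, by omega, by rw [h3, h2]⟩
      · exact ⟨i, -m, by omega, by rw [h3, h2]; ring⟩
    have hm0 : m ≠ 0 := by rintro rfl; norm_num at hm
    have habs : |(n : ℝ)| = 2 ^ i * |(m : ℝ)| := by
      rw [hnm]
      push_cast
      rw [abs_mul, abs_of_pos (by positivity : (0 : ℝ) < 2 ^ i)]
    have hm1 : (1 : ℝ) ≤ |(m : ℝ)| := by
      have : 1 ≤ |m| := Int.one_le_abs hm0
      exact_mod_cast this
    have hmX : |(m : ℝ)| ≤ X / 2 ^ i := by
      rw [le_div_iff₀ (by positivity), mul_comm, ← habs]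
      exact hn1
    have hiN : i < N + 1 := by
      by_contra hcon
      push Not at hcon
      have h2 : (2 : ℝ) ^ (N + 1) ≤ 2 ^ i := pow_le_pow_right₀ (by norm_num) hcon
      have h3 : (2 : ℝ) ^ i * 1 ≤ 2 ^ i * |(m : ℝ)| :=
        mul_le_mul_of_nonneg_left hm1 (by positivity)
      rw [habs] at hn1
      linarith
    have hbd : m ∈ Bd M (γ * Real.log (X / 2 ^ i)) := by
      intro j hj
      have h2 := hn2 (j + i) (by
        rw [Real.log_div hX0.ne' (by positivity), Real.log_pow] at hj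
        rw [Nat.cast_add]
        have h3 : (i : ℝ) * 1 ≤ i * (γ * Real.log 2) :=
          mul_le_mul_of_nonneg_left hγ2 (Nat.cast_nonneg _)
        linarith)
      rw [Function.iterate_add_apply, hnm, Pool.Agent.Helper14.T_iter_pow] at h2
      exact h2
    rw [mem_coe, mem_biUnion]
    refine ⟨i, mem_range.2 hiN, ?_⟩
    rw [mem_union, hU]
    simp only [mem_image, mem_filter]
    rcases lt_or_gt_of_ne hm0 with h2 | h2
    · right
      refine ⟨m, ⟨(mem_Od (Or.inr rfl)).2 ⟨hm, by linarith, ?_⟩, hbd⟩, hnm.symm⟩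
      rw [← abs_eq_of_sign (Or.inr rfl) (by linarith : 0 < -1 * m)]
      exact hmX
    · left
      refine ⟨m, ⟨(mem_Od (Or.inl rfl)).2 ⟨hm, by linarith, ?_⟩, hbd⟩, hnm.symm⟩
      rw [← abs_eq_of_sign (Or.inl rfl) (by linarith : 0 < 1 * m)]
      exact hmX
  have h1 := Set.ncard_le_ncard hsub (finite_toSet _)
  rw [Set.ncard_coe_finset] at h1
  have h2 : ∀ i ∈ range (N + 1), ∀ e : ℤ, e = 1 ∨ e = -1 →
      ((U i e).card : ℝ) ≤ X * C * (1 / 2) ^ i := by
    intro i hi e he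
    rw [mem_range] at hi
    have h3 : 1 ≤ X / 2 ^ i := by
      rw [one_le_div (by positivity)]
      exact (pow_le_pow_right₀ (by norm_num) (by omega)).trans hN1
    have h4 := h _ h3 e he
    have h5 : ((U i e).card : ℝ) ≤ F e M (γ * Real.log (X / 2 ^ i)) (X / 2 ^ i) := by
      rw [hU]
      unfold F
      exact_mod_cast card_image_le
    refine h5.trans (h4.trans (le_of_eq ?_))
    rw [one_div, inv_pow]
    field_simp
  have h3 : ((((range (N + 1)).biUnion fun i => U i 1 ∪ U i (-1)).card : ℕ) : ℝ) ≤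
      ∑ i ∈ range (N + 1), 2 * (X * C) * (1 / 2) ^ i := by
    have h4 : (((range (N + 1)).biUnion fun i => U i 1 ∪ U i (-1)).card : ℝ) ≤
        ∑ i ∈ range (N + 1), ((U i 1 ∪ U i (-1)).card : ℝ) := by
      exact_mod_cast card_biUnion_le
    refine h4.trans (sum_le_sum fun i hi => ?_)
    have h5 : ((U i 1 ∪ U i (-1)).card : ℝ) ≤ (U i 1).card + (U i (-1)).card := by
      exact_mod_cast card_union_le _ _
    have h6 := h2 i hi 1 (Or.inl rfl)
    have h7 := h2 i hi (-1) (Or.inr rfl)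
    linarith
  have h4 : ∑ i ∈ range (N + 1), 2 * (X * C) * (1 / 2 : ℝ) ^ i ≤ 4 * (X * C) := by
    rw [← mul_sum]
    have h5 : ∑ i ∈ range (N + 1), (1 / 2 : ℝ) ^ i ≤ 2 := by
      rw [geom_sum_eq (by norm_num)]
      have h5 : (0 : ℝ) < (1 / 2) ^ (N + 1) := by positivity
      have h6 : ((1 / 2 : ℝ) ^ (N + 1) - 1) / (1 / 2 - 1) = 2 * (1 - (1 / 2) ^ (N + 1)) := by ring
      rw [h6]
      linarith
    have h6 : 0 ≤ 2 * (X * C) := by positivity
    calc 2 * (X * C) * ∑ i ∈ range (N + 1), (1 / 2 : ℝ) ^ i ≤ 2 * (X * C) * 2 :=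
          mul_le_mul_of_nonneg_left h5 h6
      _ = 4 * (X * C) := by ring
  have h5 : (({n : ℤ | |(n : ℝ)| ≤ X ∧ ∀ j : ℕ, (j : ℝ) ≤ γ * Real.log X →
      M < |((T^[j] n : ℤ) : ℝ)|}.ncard : ℕ) : ℝ) ≤
      ((((range (N + 1)).biUnion fun i => U i 1 ∪ U i (-1)).card : ℕ) : ℝ) := by
    exact_mod_cast h1
  exact h5.trans (h3.trans h4)

end Pool.Agent.Collatz3.TN
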