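import Mathlib
import Pool.Agent.Collatz3.PDMixC

set_option autoImplicit false

/-!
The decay of the diagonal `V'(n, n)` at `z = 1 / 2` faster than any power.
-/

namespace Pool.Agent.Collatz3.Mix

open Finset Real Filter Topology

lemma Zs_half_eq (I : ℕ) : Zs (1 / 2) I = 1 - (1 / 2) ^ I := by
  unfold Zs
  induction I with
  | zero => simp
  | succ n ih =>
    rw [Finset.sum_Icc_succ_top (by omega), ih, pow_succ]
    ring

lemma Df_half_le {I t : ℕ} (hI : 1 ≤ I) (ht : 1 ≤ t) (h : 2 * t ≤ 2 ^ I) :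
    Df (1 / 2) I ≤ 1 / (t : ℝ) := by
  have hZ := Zs_half_ge hI
  have hZ0 : 0 < Zs (1 / 2) I := by linarith
  have htr : (0 : ℝ) < t := by exact_mod_cast ht
  have h1 : Df (1 / 2) I = - log (Zs (1 / 2) I) := by
    have e2 : log (1 / (1 / 2 : ℝ)) = log 2 := by norm_num
    unfold Df
    rw [e2]
    ring
  rw [h1, ← log_inv]
  have h2 := log_le_sub_one_of_pos (inv_pos.2 hZ0)
  refine h2.trans ?_
  have h3 : (Zs (1 / 2) I)⁻¹ - 1 = (1 / 2) ^ I / Zs (1 / 2) I := by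
    have h4 : (1 / 2 : ℝ) ^ I = 1 - Zs (1 / 2) I := by rw [Zs_half_eq]; ring
    rw [h4]
    field_simp
  rw [h3, div_le_div_iff₀ hZ0 htr]
  have h4 : (2 : ℝ) * t ≤ 2 ^ I := by exact_mod_cast h
  have h5 : (1 / 2 : ℝ) ^ I * 2 ^ I = 1 := by
    rw [← mul_pow]
    norm_num
  have h6 : (1 / 2 : ℝ) ^ I * (2 * t) ≤ (1 / 2) ^ I * 2 ^ I :=
    mul_le_mul_of_nonneg_left h4 (by positivity)
  linarith

/-- The quantitative version of the bound for the sums. -/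
theorem sum_Vp_quant : ∃ t₀ : ℕ, 96 ≤ t₀ ∧ ∀ t I k L : ℕ, t₀ ≤ t → t₀ ≤ I → I ≤ t →
    2 * t ≤ 2 ^ I → t ^ 5 ≤ k → 4 * L ≤ 5 * k →
    ∑ n ∈ Ico k L, Vp (1 / 2) I k n ≤ 12 / t * k := by
  obtain ⟨I₁, hI₁⟩ := (half_params (δ := 1) one_pos).exists_forall_of_atTop
  refine ⟨max I₁ 1000, by omega, ?_⟩
  intro t I k L ht hI hIt htI htk hL
  have ht1000 : 1000 ≤ t := (le_max_right _ _).trans ht
  obtain ⟨hI1, p1, p2, p3, -, p5⟩ := hI₁ I ((le_max_left _ _).trans hI)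
  have p4 : Df (1 / 2) I ≤ 1 / (t : ℝ) := Df_half_le hI1 (by omega) htI
  have htr : (1000 : ℝ) ≤ t := by exact_mod_cast ht1000
  have ht0 : (0 : ℝ) < t := by linarith
  obtain ⟨δ, hδ⟩ : ∃ δ : ℝ, δ = 1 / (t : ℝ) := ⟨_, rfl⟩
  have hδ0 : 0 < δ := by rw [hδ]; positivity
  have hδ1 : δ ≤ 1 / 12 := by
    rw [hδ]
    exact one_div_le_one_div_of_le (by norm_num) (by linarith)
  rw [← hδ] at p4
  have hl2 := log_two_bounds
  set V0 : ℝ := 21 / (δ / (2 * log 2)) ^ 2 with hV0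
  have hV00 : 0 ≤ V0 := by positivity
  set ρ : ℝ := exp (-(1 / 2 * (δ / 2))) with hρ
  have hIr : (1 : ℝ) ≤ I := by exact_mod_cast hI1
  have htk' : (t : ℝ) ^ 5 ≤ k := by exact_mod_cast htk
  have hk1000 : (1000 : ℝ) ≤ k := by
    have : (t : ℝ) ^ 1 ≤ t ^ 5 := pow_le_pow_right₀ (by linarith) (by norm_num)
    linarith
  have hkr : (2 : ℝ) ≤ k := by linarith
  have hk0 : (0 : ℝ) < k := by linarith
  have hk2 : 2 ≤ k := by exact_mod_cast hkr
  have hIt' : (I : ℝ) ≤ t := by exact_mod_cast hIt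
  -- the exponential
  obtain ⟨x, hx⟩ : ∃ x : ℝ, x = k * (1 / 2 * (δ / 2)) := ⟨_, rfl⟩
  have hx0 : 0 ≤ x := by rw [hx]; positivity
  have hx1 : x = k / (4 * t) := by
    rw [hx, hδ]
    field_simp
    norm_num
  have hexp : (k : ℝ) ^ 2 < exp x := by
    have h1 := Real.pow_div_factorial_le_exp x hx0 5
    refine lt_of_lt_of_le ?_ h1
    have h2 : (Nat.factorial 5 : ℝ) = 120 := by norm_num [Nat.factorial]
    rw [h2, hx1, div_pow, mul_pow, div_div, lt_div_iff₀ (by positivity)]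
    have h3 : (k : ℝ) ^ 2 * (4 ^ 5 * (t : ℝ) ^ 5 * 120) ≤ k ^ 2 * (4 ^ 5 * k * 120) := by
      apply mul_le_mul_of_nonneg_left _ (by positivity)
      linarith
    have h4 : (1000 : ℝ) * 1000 ≤ k * k := mul_le_mul hk1000 hk1000 (by norm_num) hk0.le
    have h5 : (0 : ℝ) < (k : ℝ) ^ 3 := by positivity
    calc (k : ℝ) ^ 2 * (4 ^ 5 * (t : ℝ) ^ 5 * 120) ≤ k ^ 2 * (4 ^ 5 * k * 120) := h3
      _ = k ^ 3 * 122880 := by ring
      _ < k ^ 3 * (k * k) := mul_lt_mul_of_pos_left (by linarith) h5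
      _ = k ^ 5 := by ring
  have b1 : (k : ℝ) ^ 2 * ρ ^ k < 1 := by
    have h1 : ρ ^ k = (exp x)⁻¹ := by
      rw [hρ, ← exp_nat_mul, ← exp_neg]
      congr 1
      rw [hx]
      ring
    rw [h1, ← div_eq_mul_inv, div_lt_one (exp_pos _)]
    exact hexp
  have b2 : 2 * log k < x := by
    have h1 := log_lt_log (by positivity) hexp
    rw [log_exp, log_pow] at h1
    push_cast at h1
    exact h1
  have hδk : x = δ * k / 4 := by
    rw [hx]
    ring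
  have hδkt : δ * k = k / t := by
    rw [hδ]
    ring
  have ht4 : (t : ℝ) ^ 4 ≤ δ * k := by
    rw [hδkt, le_div_iff₀ ht0]
    linarith [show (t : ℝ) ^ 4 * t = t ^ 5 by ring]
  have ht3 : (1000 : ℝ) * t ^ 3 ≤ t ^ 4 := by
    have : (0 : ℝ) < t ^ 3 := by positivity
    nlinarith
  have hV0le : V0 + 1 ≤ 100 * (t : ℝ) ^ 2 := by
    have h1 : V0 = 21 * (2 * log 2) ^ 2 * t ^ 2 := by
      rw [hV0, hδ]
      field_simp
    have h2 : (2 * log 2) ^ 2 ≤ 1.4 ^ 2 := pow_le_pow_left₀ (by linarith) (by linarith) 2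
    have h3 : (0 : ℝ) < (t : ℝ) ^ 2 := by positivity
    have h4 : 21 * (2 * log 2) ^ 2 * (t : ℝ) ^ 2 ≤ 21 * 1.4 ^ 2 * t ^ 2 :=
      mul_le_mul_of_nonneg_right (by linarith) h3.le
    have h5 : (1000 : ℝ) ≤ (t : ℝ) ^ 2 := by nlinarith
    rw [h1]
    nlinarith
  have hCI : (V0 + 1) * I ≤ δ * k := by
    calc (V0 + 1) * I ≤ 100 * (t : ℝ) ^ 2 * t := mul_le_mul hV0le hIt' (by linarith) (by positivity)
      _ = 100 * t ^ 3 := by ring
      _ ≤ 1000 * (t : ℝ) ^ 3 := by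
          have : (0 : ℝ) < t ^ 3 := by positivity
          linarith
      _ ≤ δ * k := ht3.trans ht4
  have hpb := pbad_le (z := 1 / 2) (by norm_num) hI1 (α := 1 / 2) (by norm_num) (by norm_num)
    p1 hδ0 (k := k) (L := Lh δ I k) (by omega) (Lh_ge δ I k)
  have hkpb : k * pbad (1 / 2) I k (Lh δ I k) ≤ V0 + 1 := by
    have h1 := mul_le_mul_of_nonneg_left hpb hk0.le
    have h2 : vr (1 / 2) I / (δ / (2 * log 2)) ^ 2 ≤ V0 :=
      div_le_div_of_nonneg_right (vr_half_le hI1 p3) (by positivity)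
    have h3 : k * (vr (1 / 2) I / (δ / (2 * log 2)) ^ 2 / k + k * ρ ^ k) =
        vr (1 / 2) I / (δ / (2 * log 2)) ^ 2 + (k : ℝ) ^ 2 * ρ ^ k := by
      generalize vr (1 / 2) I / (δ / (2 * log 2)) ^ 2 = a
      generalize ρ ^ k = b
      field_simp
    have h4 : k * pbad (1 / 2) I k (Lh δ I k) ≤
        k * (vr (1 / 2) I / (δ / (2 * log 2)) ^ 2 / k + k * ρ ^ k) := h1
    rw [h3] at h4
    linarith
  have hlogk : log (I * k + 1) ≤ δ * k := by
    have h1 : log (I * k + 1) ≤ log ((k : ℝ) ^ 3) := by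
      apply log_le_log (by positivity)
      have hIk : (I : ℝ) ≤ k := by
        have : (t : ℝ) ^ 1 ≤ t ^ 5 := pow_le_pow_right₀ (by linarith) (by norm_num)
        linarith
      have h2 : (I : ℝ) * k ≤ k * k := mul_le_mul_of_nonneg_right hIk hk0.le
      have h3 : (2 : ℝ) * 2 ≤ k * k := mul_le_mul hkr hkr (by norm_num) hk0.le
      have h4 : 2 * ((k : ℝ) * k) ≤ k * (k * k) := mul_le_mul_of_nonneg_right hkr (by positivity)
      calc (I : ℝ) * k + 1 ≤ k * k + k * k := by linarith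
        _ ≤ k * (k * k) := by linarith
        _ = (k : ℝ) ^ 3 := by ring
    rw [log_pow] at h1
    push_cast at h1
    have h5 : 0 < δ * k := by positivity
    have h6 : 0 ≤ log k := log_nonneg (by linarith)
    linarith
  have h6k : 6 ≤ δ * k := by
    refine le_trans ?_ ht4
    have : (6 : ℝ) ≤ t ^ 1 := by rw [pow_one]; linarith
    exact this.trans (pow_le_pow_right₀ (by linarith) (by norm_num))
  have hmain := sum_Vp_le (z := 1 / 2) (by norm_num) (by norm_num) hI1 k (Lh δ I k)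
  have e2 : log (1 / (1 / 2 : ℝ)) = log 2 := by norm_num
  rw [e2] at hmain
  have h12 : 12 / t * k = 12 * (δ * k) := by rw [hδ]; ring
  rw [h12]
  refine le_trans ?_ (hmain.trans (collect hδ0 hδ1 hI1 p3 p4 p5 hk2 (by linarith) hkpb hCI
    hlogk h6k))
  exact sum_le_sum_of_subset_of_nonneg (Ico_subset_Ico_right (le_Lh hδ0 p2 hL))
    fun n _ _ => Vp_nonneg' (by norm_num) I k n

/-- One step of the iteration. -/
theorem Qd_quant : ∃ t₀ : ℕ, 96 ≤ t₀ ∧ ∀ t I m : ℕ, t₀ ≤ t → t₀ ≤ I → I ≤ t →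
    2 * t ≤ 2 ^ I → t ^ 5 ≤ m → Qd (1 / 2) I (10 * m) ≤ 96 / t * Qd (1 / 2) I m := by
  obtain ⟨t₀, ht₀, h⟩ := sum_Vp_quant
  refine ⟨t₀, ht₀, ?_⟩
  intro t I m ht hI hIt htI htm
  have hI1 : 1 ≤ I := by omega
  have ht1 : 1 ≤ t := by omega
  have hm1 : 1 ≤ m := (Nat.one_le_pow _ _ ht1).trans htm
  have h1 := h t I (8 * m) (10 * m) ht hI hIt htI (by omega) (by omega)
  have hz : (0 : ℝ) < 1 / 2 := by norm_num
  have htr : (0 : ℝ) < t := by exact_mod_cast ht1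
  -- a good level
  have h2 : ∃ n ∈ Ico (9 * m) (10 * m), Vp (1 / 2) I (8 * m) n ≤ 96 / t := by
    by_contra hcon
    push Not at hcon
    have h3 : ∑ n ∈ Ico (9 * m) (10 * m), 96 / (t : ℝ) < ∑ n ∈ Ico (9 * m) (10 * m),
        Vp (1 / 2) I (8 * m) n :=
      sum_lt_sum_of_nonempty ⟨9 * m, mem_Ico.mpr ⟨le_rfl, by omega⟩⟩ hcon
    have h4 : ∑ n ∈ Ico (9 * m) (10 * m), Vp (1 / 2) I (8 * m) n ≤
        ∑ n ∈ Ico (8 * m) (10 * m), Vp (1 / 2) I (8 * m) n :=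
      sum_le_sum_of_subset_of_nonneg (Ico_subset_Ico_left (by omega))
        fun n _ _ => Vp_nonneg' hz I _ n
    rw [sum_const, Nat.card_Ico, nsmul_eq_mul] at h3
    have h5 : 10 * m - 9 * m = m := by omega
    rw [h5] at h3
    push_cast at h1
    have h6 : 12 / (t : ℝ) * (8 * m) = m * (96 / t) := by ring
    linarith
  obtain ⟨n, hn, hV⟩ := h2
  rw [mem_Ico] at hn
  obtain ⟨r, rfl⟩ : ∃ r, n = 8 * m + r := ⟨n - 8 * m, by omega⟩
  calc Qd (1 / 2) I (10 * m) ≤ Qd (1 / 2) I (8 * m + r) := Qd_anti hz hI1 hn.2.le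
    _ ≤ Vp (1 / 2) I (8 * m) (8 * m + r) * Qd (1 / 2) I r := Qd_rec hz I (8 * m) r
    _ ≤ 96 / t * Qd (1 / 2) I m :=
        mul_le_mul hV (Qd_anti hz hI1 (by omega)) (Qd_nonneg hz I r) (by positivity)

/-- The iteration. -/
theorem Qd_iter : ∃ t₀ : ℕ, 96 ≤ t₀ ∧ ∀ I : ℕ, t₀ ≤ I → ∀ j : ℕ, 2 * (2 ^ j * I) ≤ 2 ^ I →
    Qd (1 / 2) I ((2 ^ j * I) ^ 5) ≤ (1 / 2) ^ (j.choose 2) := by
  obtain ⟨t₀, ht₀, h⟩ := Qd_quant
  refine ⟨t₀, ht₀, ?_⟩
  intro I hI j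
  have hI1 : 1 ≤ I := by omega
  have hz : (0 : ℝ) < 1 / 2 := by norm_num
  induction j with
  | zero =>
    intro _
    simpa using Qd_le_one hz hI1 _
  | succ j ih =>
    intro hj
    have h1 : 2 ^ j * I ≤ 2 ^ (j + 1) * I :=
      Nat.mul_le_mul_right _ (Nat.pow_le_pow_right (by norm_num) (by omega))
    have h2 := ih (by omega)
    have hIj : I ≤ 2 ^ j * I := Nat.le_mul_of_pos_left _ (by positivity)
    have h3 := h (2 ^ j * I) I ((2 ^ j * I) ^ 5) (hI.trans hIj) hI hIj (by omega) le_rfl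
    have h4 : 10 * (2 ^ j * I) ^ 5 ≤ (2 ^ (j + 1) * I) ^ 5 := by
      have e : (2 ^ (j + 1) * I) ^ 5 = 32 * (2 ^ j * I) ^ 5 := by ring
      rw [e]
      exact Nat.mul_le_mul_right _ (by norm_num)
    have h5 : (96 : ℝ) / ((2 ^ j * I : ℕ) : ℝ) ≤ (1 / 2) ^ j := by
      have hI96 : (96 : ℝ) ≤ I := by exact_mod_cast ht₀.trans hI
      push_cast
      rw [div_le_iff₀ (by positivity), ← mul_assoc, ← mul_pow]
      norm_num
      exact ht₀.trans hI
    calc Qd (1 / 2) I ((2 ^ (j + 1) * I) ^ 5) ≤ Qd (1 / 2) I (10 * (2 ^ j * I) ^ 5) :=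
          Qd_anti hz hI1 h4
      _ ≤ 96 / ((2 ^ j * I : ℕ) : ℝ) * Qd (1 / 2) I ((2 ^ j * I) ^ 5) := h3
      _ ≤ (1 / 2) ^ j * (1 / 2) ^ (j.choose 2) :=
          mul_le_mul h5 h2 (Qd_nonneg hz I _) (by positivity)
      _ = (1 / 2) ^ ((j + 1).choose 2) := by
          rw [← pow_add]
          congr 1
          rw [Nat.choose_succ_succ' j 1, Nat.choose_one_right]

end Pool.Agent.Collatz3.Mix
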