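import Mathlib
import Pool.Agent.Collatz3.TNMix
import Pool.Agent.Collatz3.TNInd

set_option autoImplicit false

/-!
Mixing with an error smaller than any power: `exp (- c (log k) ^ 2)`.
-/

namespace Pool.Agent.Collatz3.Mix

open Finset Real Filter Topology

lemma pow_ten_ev : ∀ᶠ l : ℕ in atTop, ∀ j : ℕ, l / 6 ≤ j → j ≤ l / 6 → 200 ≤ l ∧
    (2 ^ j * l ^ 2) ^ 5 ≤ 2 ^ (l - 5) ∧ 2 * (2 ^ j * l ^ 2) ≤ 2 ^ (l ^ 2) := by
  have h1 : ∀ᶠ l : ℕ in atTop, (l : ℝ) ^ 60 * (1 / 2) ^ l < 1 / 2 ^ 30 := by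
    have := tendsto_pow_const_mul_const_pow_of_abs_lt_one 60 (r := (1 / 2 : ℝ))
      (by rw [abs_of_pos] <;> norm_num)
    exact this.eventually_lt_const (by norm_num)
  filter_upwards [h1, eventually_ge_atTop 200] with l hl h200 j hj1 hj2
  have hj : j = l / 6 := le_antisymm hj2 hj1
  have h2 : (l : ℝ) ^ 60 * 2 ^ 30 ≤ 2 ^ l := by
    have h3 : (1 / 2 : ℝ) ^ l * 2 ^ l = 1 := by
      rw [← mul_pow]
      norm_num
    have h4 : (l : ℝ) ^ 60 * (1 / 2) ^ l * 2 ^ l ≤ 1 / 2 ^ 30 * 2 ^ l :=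
      mul_le_mul_of_nonneg_right hl.le (by positivity)
    have h5 : (l : ℝ) ^ 60 * (1 / 2) ^ l * 2 ^ l = l ^ 60 := by
      rw [mul_assoc, h3, mul_one]
    rw [h5, one_div, inv_mul_eq_div, le_div_iff₀ (by positivity)] at h4
    exact h4
  have h3 : l ^ 60 * 2 ^ 30 ≤ 2 ^ l := by exact_mod_cast h2
  have h4 : l ^ 10 * 2 ^ 5 * 2 ^ (5 * j) ≤ 2 ^ l := by
    have h5 : (l ^ 10 * 2 ^ 5 * 2 ^ (5 * j)) ^ 6 ≤ (2 ^ l) ^ 6 := by
      calc (l ^ 10 * 2 ^ 5 * 2 ^ (5 * j)) ^ 6 = l ^ 60 * 2 ^ 30 * 2 ^ (30 * j) := by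
            rw [mul_pow, mul_pow, ← pow_mul, ← pow_mul, ← pow_mul]
            ring_nf
        _ ≤ 2 ^ l * 2 ^ (30 * j) := Nat.mul_le_mul_right _ h3
        _ = 2 ^ (l + 30 * j) := by rw [pow_add]
        _ ≤ 2 ^ (l * 6) := Nat.pow_le_pow_right (by norm_num) (by omega)
        _ = (2 ^ l) ^ 6 := by rw [pow_mul]
    exact (Nat.pow_le_pow_iff_left (by norm_num)).1 h5
  refine ⟨h200, ?_, ?_⟩
  · have h5 : 2 ^ l = 2 ^ (l - 5) * 2 ^ 5 := by
      rw [← pow_add]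
      congr 1
      omega
    have h6 : (2 ^ j * l ^ 2) ^ 5 * 2 ^ 5 ≤ 2 ^ (l - 5) * 2 ^ 5 := by
      rw [← h5]
      refine le_trans (le_of_eq ?_) h4
      rw [mul_pow, ← pow_mul, ← pow_mul, mul_comm j 5]
      ring
    exact Nat.le_of_mul_le_mul_right h6 (by norm_num)
  · have h5 : l ^ 2 < 2 ^ (l ^ 2 / 2) * 1 := by
      rw [mul_one]
      -- `n < 2 ^ (n / 2)` for large `n`
      have h6 : ∀ n : ℕ, 10 ≤ n → 2 * n + 2 < 2 ^ n := by
        intro n hn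
        induction n, hn using Nat.le_induction with
        | base => norm_num
        | succ n hn ih => rw [pow_succ]; omega
      have h7 : 10 ≤ l ^ 2 / 2 := by
        have : 200 * 200 ≤ l ^ 2 := by nlinarith
        omega
      have := h6 _ h7
      omega
    have h6 : l + 1 ≤ l ^ 2 / 2 := by
      have : 200 * l ≤ l ^ 2 := by nlinarith
      omega
    calc 2 * (2 ^ j * l ^ 2) ≤ 2 * (2 ^ j * 2 ^ (l ^ 2 / 2)) := by
          rw [mul_one] at h5
          exact Nat.mul_le_mul_left _ (Nat.mul_le_mul_left _ h5.le)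
      _ = 2 ^ (1 + j + l ^ 2 / 2) := by rw [pow_add, pow_add]; ring
      _ ≤ 2 ^ (l ^ 2) := Nat.pow_le_pow_right (by norm_num) (by omega)

lemma tendsto_log2 : Tendsto (fun k : ℕ => Nat.log 2 k) atTop atTop := by
  rw [tendsto_atTop]
  intro b
  filter_upwards [eventually_ge_atTop (2 ^ b)] with N hN
  exact Nat.le_log_of_pow_le (by norm_num) hN

theorem Qd_exp : ∀ᶠ k : ℕ in atTop, ∀ n : ℕ, k / 20 ≤ n →
    Qd (1 / 2) ((Nat.log 2 k) ^ 2) n ≤ (1 / 2) ^ ((Nat.log 2 k) ^ 2 / 100) := by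
  obtain ⟨t₀, ht₀, h⟩ := Qd_iter
  filter_upwards [tendsto_log2.eventually pow_ten_ev, tendsto_log2.eventually_ge_atTop t₀,
    eventually_ge_atTop 1] with k hk ht hk1 n hn
  obtain ⟨l, hl⟩ : ∃ l, l = Nat.log 2 k := ⟨_, rfl⟩
  rw [← hl] at hk ht ⊢
  obtain ⟨h200, h1, h2⟩ := hk (l / 6) le_rfl le_rfl
  have h3 : 2 ^ l ≤ k := by
    rw [hl]
    exact Nat.pow_log_le_self 2 (by omega)
  have h4 : 2 ^ (l - 5) ≤ n := by
    refine le_trans ?_ hn
    have h5 : 2 ^ l = 2 ^ (l - 5) * 2 ^ 5 := by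
      rw [← pow_add]
      congr 1
      omega
    have h6 : 1 ≤ 2 ^ (l - 5) := Nat.one_le_pow _ _ (by norm_num)
    omega
  have h5 : t₀ ≤ l ^ 2 := by nlinarith
  have h6 := h (l ^ 2) h5 (l / 6) h2
  have hz : (0 : ℝ) < 1 / 2 := by norm_num
  have hI1 : 1 ≤ l ^ 2 := by omega
  refine (Qd_anti hz hI1 (h1.trans h4)).trans (h6.trans ?_)
  apply pow_le_pow_of_le_one (by norm_num) (by norm_num)
  rw [Nat.choose_two_right]
  obtain ⟨a, ha⟩ : ∃ a, a = l / 6 := ⟨_, rfl⟩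
  rw [← ha]
  have h7 : l ≤ 6 * a + 5 := by omega
  have h8 : 33 ≤ a := by omega
  obtain ⟨b, rfl⟩ : ∃ b, a = b + 1 := ⟨a - 1, by omega⟩
  have h9 : l ^ 2 / 100 * 2 ≤ (b + 1) * (b + 1 - 1) := by
    have e1 : b + 1 - 1 = b := by omega
    rw [e1]
    have e2 : l ^ 2 ≤ (6 * b + 11) ^ 2 := Nat.pow_le_pow_left (by omega) 2
    have e3 : (6 * b + 11) ^ 2 ≤ 50 * ((b + 1) * b) := by nlinarith
    omega
  omega

theorem l1_of {I m j : ℕ} {q : ℝ} (hI : 1 ≤ I) (hq : ∀ n, m ≤ n → Qd (1 / 2) I n ≤ q) :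
    ∑ s ∈ range (I * (m + j) + 1), ∑ y, |claw (1 / 2) I (m + j) s (m + j) y -
      extp (claw (1 / 2) I (m + j) s) m j y| ≤ 2 * √(2 * (j * q)) := by
  have hz : (0 : ℝ) < 1 / 2 := by norm_num
  refine (l1_claw hz hI (m + j) m j).trans ?_
  apply mul_le_mul_of_nonneg_left _ (by norm_num)
  apply Real.sqrt_le_sqrt
  apply mul_le_mul_of_nonneg_left _ (by norm_num)
  calc ∑ l ∈ range j, Vp (1 / 2) I (m + j) (m + l) ≤ ∑ l ∈ range j, q := by
        apply sum_le_sum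
        intro l hl
        rw [mem_range] at hl
        exact (Vp_le_Qd hz hI (by omega)).trans (hq _ (by omega))
    _ = j * q := by rw [sum_const, card_range, nsmul_eq_mul]

end Pool.Agent.Collatz3.Mix

namespace Pool.Agent.Collatz3.PD

open Finset Filter
open Pool.Agent.Collatz3.Mix

theorem err_le {I m k : ℕ} {q : ℝ} (hI1 : 1 ≤ I) (hmk : m ≤ k) (hq0 : 0 ≤ q)
    (hq : ∀ n, m ≤ n → Qd (1 / 2) I n ≤ q) : err I k m ≤ 2 * √(2 * (k * q)) := by
  obtain ⟨j, rfl⟩ := Nat.exists_eq_add_of_le hmk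
  have hZ := Zs_pos (z := 1 / 2) (by norm_num) hI1
  have hZ1 : Zs (1 / 2) I ≤ 1 := by
    rw [Zs_half_eq]
    have : (0 : ℝ) ≤ (1 / 2) ^ I := by positivity
    linarith
  unfold err
  rw [Nat.add_sub_cancel_left]
  refine le_trans ?_ ((l1_of (j := j) hI1 hq).trans ?_)
  · apply sum_le_sum
    intro s _
    have h1 : ∀ x ∈ range (3 ^ (m + j)),
        |Fw I (m + j) s (m + j) (x : ℤ) - Fw I (m + j) s m (x : ℤ) / 3 ^ j| ≤
        (fun y : ZMod (3 ^ (m + j)) => (fun y => |claw (1 / 2) I (m + j) s (m + j) y -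
          extp (claw (1 / 2) I (m + j) s) m j y|) (2 ^ s * y)) (x : ZMod (3 ^ (m + j))) := by
      intro x _
      simp only
      rw [Fw_eq _ _ _ _ hI1, Fw_eq _ _ _ _ hI1, extp_eq, map_mul, map_pow, map_ofNat, map_natCast,
        mul_div_assoc, ← mul_sub, abs_mul, abs_of_pos (pow_pos hZ _)]
      exact mul_le_of_le_one_left (abs_nonneg _) (pow_le_one₀ hZ.le hZ1)
    refine (sum_le_sum h1).trans (le_of_eq ?_)
    rw [sum_range_zmod (m + j) (fun y : ZMod (3 ^ (m + j)) => (fun y =>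
        |claw (1 / 2) I (m + j) s (m + j) y -
          extp (claw (1 / 2) I (m + j) s) m j y|) (2 ^ s * y)),
      sum_two_pow_mul (m + j) s (fun y => |claw (1 / 2) I (m + j) s (m + j) y -
          extp (claw (1 / 2) I (m + j) s) m j y|)]
  · apply mul_le_mul_of_nonneg_left _ (by norm_num)
    apply Real.sqrt_le_sqrt
    apply mul_le_mul_of_nonneg_left _ (by norm_num)
    apply mul_le_mul_of_nonneg_right _ hq0
    have : j ≤ m + j := by omega
    exact_mod_cast this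

/-- The rate of mixing. -/
noncomputable def ηe (k : ℕ) : ℝ := Real.exp (-(Real.log k ^ 2 / 1000))

/-- The bound for the letters. -/
def Ie (k : ℕ) : ℕ := (Nat.log 2 k) ^ 2

theorem two_pow_le_ηe {k l : ℕ} (hk : 1 ≤ k) (hl : l = Nat.log 2 k) (h400 : 400 ≤ l) :
    4 * (2 : ℝ) ^ l * (1 / 2) ^ (l ^ 2 / 200) ≤ ηe k := by
  have h1 : k < 2 ^ (l + 1) := by
    rw [hl]
    exact Nat.lt_pow_succ_log_self (by norm_num) k
  have h2 : (k : ℝ) ≤ 2 ^ (l + 1) := by exact_mod_cast h1.le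
  have hk1 : (1 : ℝ) ≤ k := by exact_mod_cast hk
  have h3 : Real.log k ≤ (l + 1) * Real.log 2 := by
    have := Real.log_le_log (by linarith) h2
    rw [Real.log_pow] at this
    push_cast at this
    exact this
  have h4 : 0 ≤ Real.log k := Real.log_nonneg hk1
  have l2a := Real.log_two_gt_d9
  have l2b := Real.log_two_lt_d9
  have hl400 : (400 : ℝ) ≤ l := by exact_mod_cast h400
  have h5 : Real.log k ^ 2 ≤ ((l + 1) * 0.7) ^ 2 := by
    apply pow_le_pow_left₀ h4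
    refine h3.trans ?_
    apply mul_le_mul_of_nonneg_left _ (by positivity)
    linarith
  have h6 : 4 * (2 : ℝ) ^ l * (1 / 2) ^ (l ^ 2 / 200) =
      Real.exp ((2 + l - ((l ^ 2 / 200 : ℕ) : ℝ)) * Real.log 2) := by
    have e1 : ∀ n : ℕ, (2 : ℝ) ^ n = Real.exp (n * Real.log 2) := by
      intro n
      rw [Real.exp_nat_mul, Real.exp_log (by norm_num)]
    have e2 : (1 / 2 : ℝ) ^ (l ^ 2 / 200) = Real.exp (-(((l ^ 2 / 200 : ℕ) : ℝ) * Real.log 2)) := by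
      rw [one_div, inv_pow, e1, Real.exp_neg]
    have e3 : (4 : ℝ) = Real.exp (2 * Real.log 2) := by
      have := e1 2
      push_cast at this
      rw [← this]
      norm_num
    rw [e1, e2, e3, ← Real.exp_add, ← Real.exp_add]
    congr 1
    ring
  rw [h6]
  unfold ηe
  apply Real.exp_le_exp.2
  have h7 : (l : ℝ) ^ 2 / 200 - 1 ≤ ((l ^ 2 / 200 : ℕ) : ℝ) := by
    have : l ^ 2 ≤ (l ^ 2 / 200 + 1) * 200 := by omega
    have h8 : (l : ℝ) ^ 2 ≤ (((l ^ 2 / 200 : ℕ) : ℝ) + 1) * 200 := by exact_mod_cast this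
    linarith
  have h8 : 400 * (l : ℝ) ≤ l ^ 2 := by nlinarith
  have h9 : 2 + (l : ℝ) - ((l ^ 2 / 200 : ℕ) : ℝ) ≤ 3 - l ^ 2 / 400 := by linarith
  have h10 : (3 - (l : ℝ) ^ 2 / 400) ≤ 0 := by linarith
  have h11 : (2 + (l : ℝ) - ((l ^ 2 / 200 : ℕ) : ℝ)) * Real.log 2 ≤ (3 - l ^ 2 / 400) * 0.6 := by
    calc (2 + (l : ℝ) - ((l ^ 2 / 200 : ℕ) : ℝ)) * Real.log 2 ≤ (3 - l ^ 2 / 400) * Real.log 2 :=
          mul_le_mul_of_nonneg_right h9 (by linarith)
      _ ≤ (3 - l ^ 2 / 400) * 0.6 := mul_le_mul_of_nonpos_left (by linarith) h10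
  have h12 : ((l + 1) * 0.7 : ℝ) ^ 2 = 0.49 * (l ^ 2 + 2 * l + 1) := by ring
  linarith

theorem slow_aux {a : ℝ} (ha : 0 < a) (b : ℝ) : ∀ᶠ N : ℕ in atTop,
    Real.log N ^ 2 / 1000 + b ≤ a * N := by
  have h1 := (Real.isLittleO_pow_log_id_atTop (n := 2)).bound (show 0 < 500 * a by positivity)
  have h2 := tendsto_natCast_atTop_atTop (R := ℝ) |>.eventually h1
  obtain ⟨M, hM⟩ := exists_nat_ge (2 * b / a)
  filter_upwards [h2, eventually_ge_atTop M] with N hN hNM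
  have hN0 : (0 : ℝ) ≤ N := Nat.cast_nonneg _
  simp only [id, Real.norm_eq_abs] at hN
  rw [abs_of_nonneg (sq_nonneg _), abs_of_nonneg hN0] at hN
  have h3 : 2 * b / a ≤ N := hM.trans (by exact_mod_cast hNM)
  rw [div_le_iff₀ ha] at h3
  linarith

theorem slow_ev {ρ : ℝ} (h0 : 0 < ρ) (h1 : ρ < 1) {ε : ℝ} (hε : 0 < ε) :
    ∀ᶠ N : ℕ in atTop, ρ ^ N ≤ ε * ηe N := by
  have hl : 0 < -Real.log ρ := by
    have := Real.log_neg h0 h1
    linarith
  filter_upwards [slow_aux hl (-Real.log ε)] with N hN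
  have e1 : ρ ^ N = Real.exp (N * Real.log ρ) := by
    rw [Real.exp_nat_mul, Real.exp_log h0]
  have e2 : ε = Real.exp (Real.log ε) := (Real.exp_log hε).symm
  unfold ηe
  rw [e1, e2, ← Real.exp_add]
  apply Real.exp_le_exp.2
  linarith

theorem slow_div {ρ : ℝ} (h0 : 0 < ρ) (h1 : ρ < 1) (q : ℕ) (hq : 0 < q) {ε : ℝ} (hε : 0 < ε) :
    ∀ᶠ N : ℕ in atTop, ∀ d : ℕ, N / q ≤ d → ρ ^ d ≤ ε * ηe N := by
  obtain ⟨σ, hσ⟩ : ∃ σ : ℝ, σ = ρ ^ (1 / (q : ℝ)) := ⟨_, rfl⟩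
  have hσ0 : 0 < σ := by rw [hσ]; exact Real.rpow_pos_of_pos h0 _
  have hσ1 : σ < 1 := by
    rw [hσ]
    exact Real.rpow_lt_one h0.le h1 (by positivity)
  have hσq : σ ^ q = ρ := by
    rw [hσ, ← Real.rpow_natCast, ← Real.rpow_mul h0.le]
    have : 1 / (q : ℝ) * q = 1 := by
      field_simp
    rw [this, Real.rpow_one]
  have h2 : 0 < ε * σ ^ q := by positivity
  filter_upwards [slow_ev hσ0 hσ1 h2] with N hN d hd
  have h3 : ρ ^ d ≤ ρ ^ (N / q) := pow_le_pow_of_le_one h0.le h1.le hd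
  have h4 : ρ ^ (N / q) * σ ^ q ≤ σ ^ N := by
    rw [← hσq, ← pow_mul, ← pow_add]
    apply pow_le_pow_of_le_one hσ0.le hσ1.le
    have h5 := Nat.div_add_mod N q
    have h6 := Nat.mod_lt N hq
    omega
  have h6 : ρ ^ d * σ ^ q ≤ ε * ηe N * σ ^ q := by
    calc ρ ^ d * σ ^ q ≤ ρ ^ (N / q) * σ ^ q := mul_le_mul_of_nonneg_right h3 (by positivity)
      _ ≤ σ ^ N := h4
      _ ≤ ε * σ ^ q * ηe N := hN
      _ = ε * ηe N * σ ^ q := by ring
  exact le_of_mul_le_mul_right h6 (by positivity)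

theorem ηe_pos (k : ℕ) : 0 < ηe k := Real.exp_pos _

theorem ηe_le_one (k : ℕ) : ηe k ≤ 1 := by
  unfold ηe
  rw [Real.exp_le_one_iff]
  have : 0 ≤ Real.log k ^ 2 := sq_nonneg _
  linarith

theorem bad_exp : ∀ᶠ N : ℕ in atTop, ∀ I d : ℕ, N / 20 ≤ d → d ≤ N →
    P (badV I N d) ≤ ηe N := by
  obtain ⟨ρ₁, h10, h11, h1⟩ := upper_tail
  obtain ⟨ρ₂, h20, h21, h2⟩ := lower_tail
  obtain ⟨t, ht⟩ : ∃ t : ℝ, t = √(5 / 4) := ⟨_, rfl⟩
  have ht2 : t ^ 2 = 5 / 4 := by rw [ht]; exact Real.sq_sqrt (by norm_num)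
  have ht0 : 0 < t := by rw [ht]; exact Real.sqrt_pos.2 (by norm_num)
  have ht1 : 1 < t := by
    by_contra h
    push Not at h
    nlinarith
  have hs : 0 < 1 / √t := by positivity
  have hst : 1 < √t := by
    rw [Real.lt_sqrt (by norm_num)]
    linarith
  have hs1 : 1 / √t < 1 := by rw [div_lt_one (by linarith)]; exact hst
  have e1 := slow_div h10 h11 20 (by norm_num) (ε := 1 / 3) (by norm_num)
  have e2 := slow_div h20 h21 20 (by norm_num) (ε := 1 / 3) (by norm_num)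
  have e3 := slow_div hs hs1 1 (by norm_num) (ε := 1 / 3) (by norm_num)
  have e4 := eventually_pow_div (1 / √t) hs hs1 1 1 (by norm_num) 1 (by norm_num)
  filter_upwards [e1, e2, e3, e4, eventually_gt_atTop 0] with N f1 f2 f3 f4 hN I d hd hd'
  have hN0 : (0 : ℝ) < N := by exact_mod_cast hN
  have g1 := f1 d hd
  have g2 := f2 d hd
  have g3 := f3 N (by omega)
  have g4 := f4 N (by omega)
  have sub : badV I N d ⊆ ((words I d).filter fun w => 201 * d < 100 * w.sum) ∪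
      (((words I d).filter fun w => 100 * w.sum < 199 * d) ∪
      ((words I d).filter fun w => (t ^ N) ^ 2 * 2 ^ w.sum < (cw w : ℝ))) := by
    intro w hw
    rw [badV, mem_filter] at hw
    rw [mem_union, mem_union, mem_filter, mem_filter, mem_filter]
    by_contra hcon
    push Not at hcon
    obtain ⟨c1, c2, c3⟩ := hcon
    apply hw.2
    refine ⟨c2 hw.1, c1 hw.1, ?_⟩
    have := c3 hw.1
    rw [← pow_mul, mul_comm N 2, pow_mul, ht2] at this
    exact this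
  have hP : P (badV I N d) ≤ ρ₁ ^ d + (ρ₂ ^ d + d / t ^ N) :=
    (P_mono sub).trans ((P_union_le _ _).trans (add_le_add (h1 I d)
      ((P_union_le _ _).trans (add_le_add (h2 I d) (xr_tail I d (by positivity))))))
  have hd2 : (d : ℝ) ≤ N := by exact_mod_cast hd'
  have g5 : (d : ℝ) / t ^ N ≤ 1 / 3 * ηe N := by
    have e5 : (1 / √t : ℝ) ^ N * (1 / √t) ^ N = 1 / t ^ N := by
      rw [← mul_pow]
      have : 1 / √t * (1 / √t) = 1 / t := by
        rw [div_mul_div_comm, one_mul, Real.mul_self_sqrt ht0.le]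
      rw [this, one_div, inv_pow, one_div]
    rw [pow_one] at g4
    calc (d : ℝ) / t ^ N ≤ N / t ^ N := div_le_div_of_nonneg_right hd2 (by positivity)
      _ = (1 / √t) ^ N * N * (1 / √t) ^ N := by
          rw [mul_right_comm, e5]
          ring
      _ ≤ 1 * (1 / √t) ^ N := mul_le_mul_of_nonneg_right g4 (by positivity)
      _ ≤ 1 / 3 * ηe N := by rw [one_mul]; exact g3
  linarith

theorem num_exp : ∀ᶠ k : ℕ in atTop,
    ((5 / 4 : ℝ) ^ k + 2) * 2 ^ (201 * k / 100) * 4 ≤ ηe k * 2 ^ (3 * k) := by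
  filter_upwards [slow_ev (ρ := 5038 / 8000) (by norm_num) (by norm_num) (ε := 1 / 12)
    (by norm_num)] with k hk
  have h2 := Pool.Agent.Collatz3.FW.two_pow_smax k
  have h3 : (5 / 4 : ℝ) ^ k + 2 ≤ 3 * (5 / 4) ^ k := by
    have : (1 : ℝ) ≤ (5 / 4) ^ k := one_le_pow₀ (by norm_num)
    linarith
  have h4 : ((5 / 4 : ℝ) ^ k + 2) * 2 ^ (201 * k / 100) ≤ 3 * (5038 / 1000) ^ k := by
    calc ((5 / 4 : ℝ) ^ k + 2) * 2 ^ (201 * k / 100) ≤ (3 * (5 / 4) ^ k) * (403 / 100) ^ k :=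
          mul_le_mul h3 h2 (by positivity) (by positivity)
      _ = 3 * ((5 / 4) * (403 / 100)) ^ k := by rw [mul_pow]; ring
      _ ≤ 3 * (5038 / 1000) ^ k := by
          apply mul_le_mul_of_nonneg_left _ (by norm_num)
          exact pow_le_pow_left₀ (by norm_num) (by norm_num) _
  have h5 : (5038 / 1000 : ℝ) ^ k = (5038 / 8000) ^ k * 2 ^ (3 * k) := by
    rw [pow_mul, ← mul_pow]
    norm_num
  calc ((5 / 4 : ℝ) ^ k + 2) * 2 ^ (201 * k / 100) * 4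
      ≤ 3 * (5038 / 1000) ^ k * 4 := mul_le_mul_of_nonneg_right h4 (by positivity)
    _ = 12 * (5038 / 8000) ^ k * 2 ^ (3 * k) := by rw [h5]; ring
    _ ≤ 12 * (1 / 12 * ηe k) * 2 ^ (3 * k) := by
        apply mul_le_mul_of_nonneg_right _ (by positivity)
        exact mul_le_mul_of_nonneg_left hk (by norm_num)
    _ = ηe k * 2 ^ (3 * k) := by ring

theorem mix_exp : ∀ᶠ k : ℕ in atTop, err (Ie k) k (k / 20) ≤ ηe k ∧
    (k : ℝ) * (1 / 2) ^ (Ie k) ≤ ηe k ∧ 12 ≤ Ie k := by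
  filter_upwards [Qd_exp, tendsto_log2.eventually_ge_atTop 400, eventually_ge_atTop 1]
    with k hk h400 hk1
  obtain ⟨l, hl⟩ : ∃ l, l = Nat.log 2 k := ⟨_, rfl⟩
  have hmain := two_pow_le_ηe hk1 hl (by rw [hl]; exact h400)
  have hI : Ie k = l ^ 2 := by unfold Ie; rw [hl]
  rw [hI]
  rw [← hl] at hk h400
  have h12 : 12 ≤ l ^ 2 := by nlinarith
  have hkl : (k : ℝ) ≤ 2 ^ (l + 1) := by
    have : k < 2 ^ (l + 1) := by
      rw [hl]
      exact Nat.lt_pow_succ_log_self (by norm_num) k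
    exact_mod_cast this.le
  refine ⟨?_, ?_, h12⟩
  · refine (err_le (by omega) (Nat.div_le_self k 20) (by positivity) hk).trans ?_
    refine le_trans ?_ hmain
    have h1 : √(2 * ((k : ℝ) * (1 / 2) ^ (l ^ 2 / 100))) ≤ 2 ^ (l + 1) * (1 / 2) ^ (l ^ 2 / 200) := by
      rw [Real.sqrt_le_left (by positivity)]
      have h2 : ((1 / 2 : ℝ)) ^ (l ^ 2 / 100) ≤ ((1 / 2) ^ (l ^ 2 / 200)) ^ 2 := by
        rw [← pow_mul]
        exact pow_le_pow_of_le_one (by norm_num) (by norm_num) (by omega)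
      have h3 : 2 * (k : ℝ) ≤ (2 ^ (l + 1)) ^ 2 := by
        have h4 : (2 : ℝ) ≤ 2 ^ (l + 1) := by
          calc (2 : ℝ) = 2 ^ 1 := by norm_num
            _ ≤ 2 ^ (l + 1) := pow_le_pow_right₀ (by norm_num) (by omega)
        rw [sq]
        exact mul_le_mul h4 hkl (by positivity) (by positivity)
      rw [mul_pow, ← mul_assoc]
      exact mul_le_mul h3 h2 (by positivity) (by positivity)
    calc 2 * √(2 * ((k : ℝ) * (1 / 2) ^ (l ^ 2 / 100)))
        ≤ 2 * (2 ^ (l + 1) * (1 / 2) ^ (l ^ 2 / 200)) := by linarith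
      _ = 4 * (2 : ℝ) ^ l * (1 / 2) ^ (l ^ 2 / 200) := by rw [pow_succ]; ring
  · refine le_trans ?_ hmain
    have h1 : (1 / 2 : ℝ) ^ (l ^ 2) ≤ (1 / 2) ^ (l ^ 2 / 200) :=
      pow_le_pow_of_le_one (by norm_num) (by norm_num) (Nat.div_le_self _ _)
    have h2 : (0 : ℝ) ≤ (1 / 2) ^ (l ^ 2 / 200) := by positivity
    calc (k : ℝ) * (1 / 2) ^ (l ^ 2) ≤ 2 ^ (l + 1) * (1 / 2) ^ (l ^ 2 / 200) :=
          mul_le_mul hkl h1 (by positivity) (by positivity)
      _ ≤ 4 * (2 : ℝ) ^ l * (1 / 2) ^ (l ^ 2 / 200) := by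
          apply mul_le_mul_of_nonneg_right _ h2
          rw [pow_succ]
          have : (0 : ℝ) < 2 ^ l := by positivity
          linarith

end Pool.Agent.Collatz3.PD

namespace Pool.Agent.Collatz3.TN

open Finset Filter
open Pool.Agent.Collatz3.PD
open Pool.Agent.Collatz3.FW hiding Num num_all handoff typical P_good_ge num_ev

theorem rate_exp : Rate ηe Ie where
  num := by
    filter_upwards [eventually_ge_atTop 1000, bad_exp, num_exp, slack_ev, mix_exp]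
      with k h1 h2 h3 h4 h5
    exact ⟨ηe_pos k, ηe_le_one k, h1, h5.2.2, h2 _, h5.2.1, h3, h4, h5.1⟩
  dbl := by
    filter_upwards [eventually_ge_atTop 1] with k hk
    unfold ηe
    apply Real.exp_le_exp.2
    have hk1 : (1 : ℝ) ≤ k := by exact_mod_cast hk
    have h1 : Real.log k ≤ Real.log ((2 * k : ℕ) : ℝ) := by
      apply Real.log_le_log (by linarith)
      push_cast
      linarith
    have h2 : Real.log k ^ 2 ≤ Real.log ((2 * k : ℕ) : ℝ) ^ 2 :=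
      pow_le_pow_left₀ (Real.log_nonneg hk1) h1 2
    linarith
  slow := by
    intro ρ h0 h1
    filter_upwards [slow_ev h0 h1 one_pos] with k hk
    linarith

end Pool.Agent.Collatz3.TN
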