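import Mathlib
import Pool.Agent.Collatz3.TNRate
import Pool.Agent.Collatz3.TNAll

set_option autoImplicit false

/-!
Natural density Tao theorem with an error smaller than any power of `log M`, and control of the
time.
-/

namespace Pool.Agent.Collatz3.TN

open Finset Filter
open Pool.Agent.Helper14 (T)
open Pool.Agent.Collatz3.PD
open Pool.Agent.Collatz3.FW hiding Num num_all handoff typical P_good_ge num_ev

/-- The bound for the densities, as a function of `log M`. -/
noncomputable def Re (x : ℝ) : ℝ := 8000000 * Real.exp (-(Real.log (1 + x) ^ 2 / 4000))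

theorem Re_nonneg (x : ℝ) : 0 ≤ Re x := by unfold Re; positivity

theorem Re_anti (x y : ℝ) (hx : 0 < x) (hxy : x ≤ y) : Re y ≤ Re x := by
  unfold Re
  apply mul_le_mul_of_nonneg_left _ (by norm_num)
  apply Real.exp_le_exp.2
  have h1 : Real.log (1 + x) ≤ Real.log (1 + y) := Real.log_le_log (by linarith) (by linarith)
  have h2 : Real.log (1 + x) ^ 2 ≤ Real.log (1 + y) ^ 2 :=
    pow_le_pow_left₀ (Real.log_nonneg (by linarith)) h1 2
  linarith

theorem Re_step : ∀ᶠ k : ℕ in atTop, ∀ x : ℝ, 30 * k * Real.log 2 ≤ x →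
    x ≤ 30 * (k + 1) * Real.log 2 → Re x + 8 * ηe k ≤ Re (99 / 100 * x) := by
  obtain ⟨l2a, l2b⟩ := log_two_bds
  filter_upwards [eventually_ge_atTop 100] with k hk x hx1 hx2
  have hkr : (100 : ℝ) ≤ k := by exact_mod_cast hk
  have hx3 : 2000 ≤ x := by
    refine le_trans ?_ hx1
    have : 30 * 100 * 0.6931 ≤ 30 * (k : ℝ) * Real.log 2 := by
      apply mul_le_mul (by linarith) l2a.le (by norm_num) (by positivity)
    linarith
  obtain ⟨a, ha⟩ : ∃ a, a = Real.log (1 + x) := ⟨_, rfl⟩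
  obtain ⟨b, hb⟩ : ∃ b, b = Real.log (1 + 99 / 100 * x) := ⟨_, rfl⟩
  have hb0 : 0 ≤ b := by rw [hb]; exact Real.log_nonneg (by linarith)
  have hab : 1 / 250 ≤ a - b := by
    rw [ha, hb, ← Real.log_div (by linarith) (by linarith)]
    have h1 : (201 / 200 : ℝ) ≤ (1 + x) / (1 + 99 / 100 * x) := by
      rw [le_div_iff₀ (by linarith)]
      linarith
    have h2 := Real.log_le_log (by norm_num) h1
    have h3 := Real.one_sub_inv_le_log_of_pos (show (0 : ℝ) < 201 / 200 by norm_num)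
    have h4 : (1 : ℝ) / 250 ≤ 1 - (201 / 200)⁻¹ := by norm_num
    linarith
  have ha1 : 1 ≤ a := by
    rw [ha, Real.le_log_iff_exp_le (by linarith)]
    have := Real.exp_one_lt_d9
    linarith
  have hkx : a ≤ 2 * Real.log k := by
    have h1 : (1 + x) ≤ (k : ℝ) ^ 2 := by
      have h2 : 30 * ((k : ℝ) + 1) * Real.log 2 ≤ 30 * (k + 1) * 0.6932 :=
        mul_le_mul_of_nonneg_left l2b.le (by positivity)
      nlinarith
    have h2 := Real.log_le_log (by linarith) h1
    rw [Real.log_pow] at h2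
    push_cast at h2
    rw [ha]
    exact h2
  have hη : ηe k ≤ Real.exp (-(a ^ 2 / 4000)) := by
    unfold ηe
    apply Real.exp_le_exp.2
    have h1 : a ^ 2 ≤ (2 * Real.log k) ^ 2 := pow_le_pow_left₀ (by linarith) hkx 2
    have h2 : (2 * Real.log k) ^ 2 = 4 * Real.log k ^ 2 := by ring
    linarith
  have hdiff : Real.exp (-(a ^ 2 / 4000)) * (1 + a / 1000000) ≤ Real.exp (-(b ^ 2 / 4000)) := by
    have h1 : -(b ^ 2 / 4000) = -(a ^ 2 / 4000) + (a ^ 2 - b ^ 2) / 4000 := by ring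
    rw [h1, Real.exp_add]
    apply mul_le_mul_of_nonneg_left _ (Real.exp_pos _).le
    have h2 := Real.add_one_le_exp ((a ^ 2 - b ^ 2) / 4000)
    have h3 : a / 250 ≤ a ^ 2 - b ^ 2 := by
      have : a ^ 2 - b ^ 2 = (a - b) * (a + b) := by ring
      rw [this]
      nlinarith
    linarith
  unfold Re
  rw [← ha, ← hb]
  have h4 : 0 < Real.exp (-(a ^ 2 / 4000)) := Real.exp_pos _
  have h5 : Real.exp (-(a ^ 2 / 4000)) * 1 ≤ Real.exp (-(a ^ 2 / 4000)) * a :=
    mul_le_mul_of_nonneg_left ha1 h4.le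
  nlinarith

theorem abs_le_finite (X : ℝ) : {n : ℤ | |(n : ℝ)| ≤ X}.Finite :=
  Pool.Agent.Helper14.abs_le_finite X

theorem ncard_abs_le {X : ℝ} (hX : 1 ≤ X) (S : Set ℤ) (hS : S ⊆ {n : ℤ | |(n : ℝ)| ≤ X}) :
    (S.ncard : ℝ) ≤ 3 * X := by
  have h1 : {n : ℤ | |(n : ℝ)| ≤ X} ⊆ ((Icc (-⌊X⌋) ⌊X⌋ : Finset ℤ) : Set ℤ) := by
    intro n hn
    have hn' : |(n : ℝ)| ≤ X := hn
    rw [abs_le] at hn'
    rw [coe_Icc, Set.mem_Icc]
    constructor
    · have : -n ≤ ⌊X⌋ := Int.le_floor.2 (by push_cast; linarith)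
      omega
    · exact Int.le_floor.2 hn'.2
  have h2 := Set.ncard_le_ncard (hS.trans h1) (finite_toSet _)
  rw [Set.ncard_coe_finset, Int.card_Icc] at h2
  have h3 : (⌊X⌋ : ℝ) ≤ X := Int.floor_le X
  have h4 : 0 ≤ ⌊X⌋ := Int.floor_nonneg.2 (by linarith)
  have h5 : ((⌊X⌋ + 1 - -⌊X⌋).toNat : ℤ) = 2 * ⌊X⌋ + 1 := by omega
  have h6 : (((⌊X⌋ + 1 - -⌊X⌋).toNat : ℕ) : ℝ) = 2 * ⌊X⌋ + 1 := by exact_mod_cast h5
  have h7 : (S.ncard : ℝ) ≤ (((⌊X⌋ + 1 - -⌊X⌋).toNat : ℕ) : ℝ) := by exact_mod_cast h2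
  linarith

/-- Natural density version, with rate and control of the time, of Tao's theorem. -/
theorem tao : ∃ c : ℝ, 0 < c ∧ ∀ ε : ℝ, 0 < ε → ∃ C : ℝ, 0 < C ∧ ∀ M : ℝ, 3 ≤ M →
    ∀ X : ℝ, 1 ≤ X → (({n : ℤ | |(n : ℝ)| ≤ X ∧ ∀ j : ℕ,
      (j : ℝ) ≤ (2 / Real.log (4 / 3) + ε) * Real.log X → M < |((T^[j] n : ℤ) : ℝ)|}.ncard : ℕ) : ℝ) ≤
      C * X * Real.exp (-(c * Real.log (Real.log M) ^ 2)) := by
  refine ⟨1 / 16000, by norm_num, ?_⟩
  intro ε hε
  obtain ⟨M₀, hM₀, h⟩ := induct rate_exp (γ := 2 / Real.log (4 / 3) + ε) (by linarith)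
    Re_nonneg Re_anti Re_step
  obtain ⟨E, hE⟩ : ∃ E, E = Real.exp (1 / 16000 * Real.log (Real.log (M₀ + 3)) ^ 2) := ⟨_, rfl⟩
  have hE0 : 0 < E := by rw [hE]; exact Real.exp_pos _
  have hE1 : 1 ≤ E := by
    rw [hE]
    apply Real.one_le_exp
    positivity
  refine ⟨32000000 + 3 * E, by positivity, ?_⟩
  intro M hM X hX
  have hl3 : 1 < Real.log 3 := by
    have := log_three_bds.1
    linarith
  have hlM : Real.log 3 ≤ Real.log M := Real.log_le_log (by norm_num) hM
  have hllM : 0 ≤ Real.log (Real.log M) := Real.log_nonneg (by linarith)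
  have hXe : 0 < X * Real.exp (-(1 / 16000 * Real.log (Real.log M) ^ 2)) := by positivity
  rcases lt_or_ge M M₀ with hMM | hMM
  · -- trivial bound
    refine (ncard_abs_le hX _ fun n hn => hn.1).trans ?_
    have h1 : Real.log (Real.log M) ≤ Real.log (Real.log (M₀ + 3)) := by
      apply Real.log_le_log (by linarith)
      exact Real.log_le_log (by linarith) (by linarith)
    have h2 : Real.log (Real.log M) ^ 2 ≤ Real.log (Real.log (M₀ + 3)) ^ 2 :=
      pow_le_pow_left₀ hllM h1 2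
    have h3 : 1 ≤ E * Real.exp (-(1 / 16000 * Real.log (Real.log M) ^ 2)) := by
      rw [hE, ← Real.exp_add]
      apply Real.one_le_exp
      linarith
    have h4 : X * 1 ≤ X * (E * Real.exp (-(1 / 16000 * Real.log (Real.log M) ^ 2))) :=
      mul_le_mul_of_nonneg_left h3 (by linarith)
    calc 3 * X ≤ 3 * (X * (E * Real.exp (-(1 / 16000 * Real.log (Real.log M) ^ 2)))) := by linarith
      _ = 3 * E * (X * Real.exp (-(1 / 16000 * Real.log (Real.log M) ^ 2))) := by ring
      _ ≤ (32000000 + 3 * E) * (X * Real.exp (-(1 / 16000 * Real.log (Real.log M) ^ 2))) :=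
          mul_le_mul_of_nonneg_right (by linarith) hXe.le
      _ = _ := by ring
  · have h1 := count_all (γ := 2 / Real.log (4 / 3) + ε) (M := M)
      (C := Re (99 / 100 * Real.log M)) (by linarith) (by linarith) (Re_nonneg _)
      (h M hMM) X hX
    refine h1.trans ?_
    have h2 : Re (99 / 100 * Real.log M) ≤
        8000000 * Real.exp (-(1 / 16000 * Real.log (Real.log M) ^ 2)) := by
      unfold Re
      apply mul_le_mul_of_nonneg_left _ (by norm_num)
      apply Real.exp_le_exp.2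
      have h3 : Real.log (Real.log M) ≤ 2 * Real.log (1 + 99 / 100 * Real.log M) := by
        have h4 : Real.log M ≤ (1 + 99 / 100 * Real.log M) ^ 2 := by nlinarith
        have h5 := Real.log_le_log (by linarith) h4
        rw [Real.log_pow] at h5
        push_cast at h5
        exact h5
      have h4 : Real.log (Real.log M) ^ 2 ≤ (2 * Real.log (1 + 99 / 100 * Real.log M)) ^ 2 :=
        pow_le_pow_left₀ hllM h3 2
      have h5 : (2 * Real.log (1 + 99 / 100 * Real.log M)) ^ 2 =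
          4 * Real.log (1 + 99 / 100 * Real.log M) ^ 2 := by ring
      linarith
    have h3 : X * Re (99 / 100 * Real.log M) ≤
        X * (8000000 * Real.exp (-(1 / 16000 * Real.log (Real.log M) ^ 2))) :=
      mul_le_mul_of_nonneg_left h2 (by linarith)
    calc 4 * (X * Re (99 / 100 * Real.log M))
        ≤ 4 * (X * (8000000 * Real.exp (-(1 / 16000 * Real.log (Real.log M) ^ 2)))) := by linarith
      _ = 32000000 * (X * Real.exp (-(1 / 16000 * Real.log (Real.log M) ^ 2))) := by ring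
      _ ≤ (32000000 + 3 * E) * (X * Real.exp (-(1 / 16000 * Real.log (Real.log M) ^ 2))) :=
          mul_le_mul_of_nonneg_right (by linarith) hXe.le
      _ = _ := by ring

end Pool.Agent.Collatz3.TN
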