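import Mathlib
import Pool.Agent.Collatz3.TNFinal

set_option autoImplicit false

/-!
Natural density Tao theorem with a power of `M`: the elementary count of the integers with a given
first passage.
-/

namespace Pool.Agent.Collatz3.TP

open Finset Filter
open Pool.Agent.Helper14 (T)
open Pool.Agent.Collatz3.Mix (words mem_words)
open Pool.Agent.Collatz3.PD
open Pool.Agent.Collatz3.FW hiding Num num_all handoff typical P_good_ge num_ev

/-- All the points of the path read above `b` along `w`, except `b` itself, are larger than `y` in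
absolute value. -/
def Above (y : ℝ) (w : List ℕ) (b : ℤ) : Prop :=
  ∀ v u : List ℕ, v ++ u = w → v ≠ [] → y < |(en v b : ℝ)|

theorem cw_key {y : ℝ} (hy : 0 < y) {w : List ℕ} {b : ℤ} (hr : rd w b) (ha : Above y w b) :
    ∀ u v : List ℕ, v ++ u = w → |(en w b : ℝ)| + (cw u : ℝ) / 3 ^ u.length ≤
      |(en w b : ℝ)| * (1 + 1 / (3 * y)) ^ u.length := by
  intro u
  induction u with
  | nil =>
    intro v _
    simp [cw]
  | cons a u ih =>
    intro v hv
    have hv' : (v ++ [a]) ++ u = w := by rw [← hv]; simp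
    have h1 := ih (v ++ [a]) hv'
    have h2 := ha (v ++ [a]) u hv' (by simp)
    rw [← hv', rd_append] at hr
    obtain ⟨hr1, hr2⟩ := hr
    have h3 := en_spec hr2
    have h4 : en w b = en u (en (v ++ [a]) b) := by rw [← hv', en_append hr1]
    rw [← h4] at h3
    obtain ⟨n, hn⟩ : ∃ n, n = en w b := ⟨_, rfl⟩
    obtain ⟨x, hx⟩ : ∃ x, x = en (v ++ [a]) b := ⟨_, rfl⟩
    rw [← hn] at h1 h3 ⊢
    rw [← hx] at h2 h3
    have h5 : (3 : ℝ) ^ u.length * (n : ℝ) = 2 ^ u.sum * (x : ℝ) - cw u := by exact_mod_cast h3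
    have h3p : (0 : ℝ) < 3 ^ u.length := by positivity
    have h6 : (2 : ℝ) ^ u.sum * |(x : ℝ)| ≤ 3 ^ u.length * |(n : ℝ)| + cw u := by
      have e1 : (2 : ℝ) ^ u.sum * |(x : ℝ)| = |(2 : ℝ) ^ u.sum * (x : ℝ)| := by
        rw [abs_mul, abs_of_pos (by positivity : (0 : ℝ) < 2 ^ u.sum)]
      have e2 : (2 : ℝ) ^ u.sum * (x : ℝ) = 3 ^ u.length * (n : ℝ) + cw u := by linarith
      rw [e1, e2]
      refine (abs_add_le _ _).trans ?_
      rw [abs_mul, abs_of_pos h3p,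
        abs_of_nonneg (Nat.cast_nonneg (cw u) : (0 : ℝ) ≤ (cw u : ℝ))]
    have h7 : (2 : ℝ) ^ u.sum * y ≤ 3 ^ u.length * |(n : ℝ)| + cw u :=
      (mul_le_mul_of_nonneg_left h2.le (by positivity)).trans h6
    have h8 : (2 : ℝ) ^ u.sum / 3 ^ u.length ≤ (|(n : ℝ)| + (cw u : ℝ) / 3 ^ u.length) / y := by
      rw [div_le_div_iff₀ h3p hy, add_mul, div_mul_cancel₀ _ h3p.ne']
      linarith
    have h9 : (cw (a :: u) : ℝ) / 3 ^ (a :: u).length =
        (cw u : ℝ) / 3 ^ u.length + (2 : ℝ) ^ u.sum / 3 ^ u.length / 3 := by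
      simp only [cw, List.length_cons, pow_succ]
      push_cast
      field_simp
    rw [h9, List.length_cons, pow_succ, ← mul_assoc]
    have h10 : 0 ≤ |(n : ℝ)| + (cw u : ℝ) / 3 ^ u.length := by positivity
    have h11 : |(n : ℝ)| + ((cw u : ℝ) / 3 ^ u.length + (2 : ℝ) ^ u.sum / 3 ^ u.length / 3) ≤
        (|(n : ℝ)| + (cw u : ℝ) / 3 ^ u.length) * (1 + 1 / (3 * y)) := by
      have e1 : (|(n : ℝ)| + (cw u : ℝ) / 3 ^ u.length) * (1 + 1 / (3 * y)) =
          (|(n : ℝ)| + (cw u : ℝ) / 3 ^ u.length) +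
            (|(n : ℝ)| + (cw u : ℝ) / 3 ^ u.length) / y / 3 := by
        field_simp
      rw [e1]
      linarith
    refine h11.trans ?_
    exact mul_le_mul_of_nonneg_right h1 (by positivity)

theorem pow_bound {y : ℝ} {j : ℕ} (hy : 0 < y) (hj : (j : ℝ) ≤ y) :
    (1 + 1 / (3 * y)) ^ j ≤ 1 + j / y := by
  have h1 : (1 + 1 / (3 * y)) ^ j ≤ Real.exp (j * (1 / (3 * y))) := by
    rw [Real.exp_nat_mul]
    apply pow_le_pow_left₀ (by positivity)
    have := Real.add_one_le_exp (1 / (3 * y))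
    linarith
  refine h1.trans ?_
  obtain ⟨t, ht⟩ : ∃ t : ℝ, t = j * (1 / (3 * y)) := ⟨_, rfl⟩
  have ht0 : 0 ≤ t := by rw [ht]; positivity
  have ht1 : t ≤ 1 := by
    rw [ht, mul_one_div, div_le_one (by positivity)]
    linarith
  have h2 : (j : ℝ) / y = 3 * t := by
    rw [ht]
    field_simp
  rw [← ht, h2]
  have h3 := Real.abs_exp_sub_one_sub_id_le (x := t) (by rw [abs_of_nonneg ht0]; exact ht1)
  have h4 := (abs_le.1 h3).2
  nlinarith

/-- A finite set of integers in a short interval. -/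
theorem card_interval_le {a β : ℝ} (hβ : 0 ≤ β) (S : Finset ℤ)
    (h : ∀ n ∈ S, a - β ≤ (n : ℝ) ∧ (n : ℝ) ≤ a) : (S.card : ℝ) ≤ 1 + β := by
  have h1 : S ⊆ Icc ⌈a - β⌉ ⌊a⌋ := by
    intro n hn
    rw [mem_Icc]
    exact ⟨Int.ceil_le.2 (h n hn).1, Int.le_floor.2 (h n hn).2⟩
  have h2 := card_le_card h1
  rw [Int.card_Icc] at h2
  have h3 : ((S.card : ℕ) : ℝ) ≤ (((⌊a⌋ + 1 - ⌈a - β⌉).toNat : ℕ) : ℝ) := by exact_mod_cast h2
  refine h3.trans ?_
  rcases le_or_gt (⌊a⌋ + 1 - ⌈a - β⌉) 0 with h4 | h4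
  · rw [Int.toNat_of_nonpos h4]
    push_cast
    linarith
  · have h5 : (((⌊a⌋ + 1 - ⌈a - β⌉).toNat : ℕ) : ℝ) = ((⌊a⌋ + 1 - ⌈a - β⌉ : ℤ) : ℝ) := by
      have : (((⌊a⌋ + 1 - ⌈a - β⌉).toNat : ℕ) : ℤ) = ⌊a⌋ + 1 - ⌈a - β⌉ :=
        Int.toNat_of_nonneg h4.le
      exact_mod_cast this
    rw [h5]
    push_cast
    have h6 := Int.floor_le a
    have h7 := Int.le_ceil (a - β)
    linarith

/-- The number of the integers up to `X` with a given first passage below `y`. -/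
theorem count_pass {X y : ℝ} {j : ℕ} (hX : 0 ≤ X) (hy : 0 < y) (hj : (j : ℝ) ≤ y)
    (s : ℕ) (b : ℤ) (S : Finset ℤ) (hS : ∀ n ∈ S, |(n : ℝ)| ≤ X ∧ ∃ w : List ℕ, w.length = j ∧
      w.sum = s ∧ rd w b ∧ en w b = n ∧ Above y w b) : (S.card : ℝ) ≤ 1 + X * (j / y) := by
  apply card_interval_le (a := 2 ^ s * b / 3 ^ j) (by positivity)
  intro n hn
  obtain ⟨hnX, w, rfl, rfl, hr, rfl, ha⟩ := hS n hn
  have h1 := cw_key hy hr ha w [] rfl
  have h2 := pow_bound hy hj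
  have h3 := en_spec hr
  have h4 : (3 : ℝ) ^ w.length * (en w b : ℝ) = 2 ^ w.sum * (b : ℝ) - cw w := by exact_mod_cast h3
  have h3p : (0 : ℝ) < 3 ^ w.length := by positivity
  have h5 : (cw w : ℝ) / 3 ^ w.length ≤ X * (w.length / y) := by
    have h6 : |(en w b : ℝ)| * (1 + 1 / (3 * y)) ^ w.length ≤
        |(en w b : ℝ)| * (1 + w.length / y) :=
      mul_le_mul_of_nonneg_left h2 (abs_nonneg _)
    have h7 : |(en w b : ℝ)| * (w.length / y) ≤ X * (w.length / y) :=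
      mul_le_mul_of_nonneg_right hnX (by positivity)
    linarith
  have h6 : (0 : ℝ) ≤ (cw w : ℝ) / 3 ^ w.length := by positivity
  have h7 : (en w b : ℝ) = 2 ^ w.sum * b / 3 ^ w.length - (cw w : ℝ) / 3 ^ w.length := by
    rw [← sub_div, eq_div_iff h3p.ne', ← h4]
    ring
  rw [h7]
  constructor
  · linarith
  · linarith

end Pool.Agent.Collatz3.TP
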