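import Mathlib
import Pool.Agent.Collatz3.TPCount

set_option autoImplicit false

/-!
Natural density Tao theorem with a power of `M`: the elementary step from a scale to a slightly
smaller one.
-/

namespace Pool.Agent.Collatz3.TP

open Finset Filter
open Pool.Agent.Helper14 (T)
open Pool.Agent.Collatz3.Mix (words mem_words)
open Pool.Agent.Collatz3.PD
open Pool.Agent.Collatz3.FW hiding Num num_all handoff typical P_good_ge num_ev
open Pool.Agent.Collatz3.TN (Bd F F_le F_nonneg F_anti Bd_anti abs_eq_of_sign)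

theorem first_pass {y : ℝ} {b : ℤ} (hb : |(b : ℝ)| ≤ y) : ∀ w : List ℕ, rd w b →
    ∃ v u : List ℕ, v ++ u = w ∧ |(en v b : ℝ)| ≤ y ∧ Above y u (en v b) := by
  intro w
  induction w using List.reverseRecOn with
  | nil =>
    intro _
    refine ⟨[], [], rfl, by rw [en_nil]; exact hb, ?_⟩
    intro v' u' h hne
    exact absurd (List.append_eq_nil_iff.1 h).1 hne
  | append_singleton w a ih =>
    intro hr
    by_cases h : |(en (w ++ [a]) b : ℝ)| ≤ y
    · refine ⟨w ++ [a], [], by simp, h, ?_⟩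
      intro v' u' h hne
      exact absurd (List.append_eq_nil_iff.1 h).1 hne
    · push Not at h
      obtain ⟨v, u, hvu, hv, ha⟩ := ih (rd_append.1 hr).1
      refine ⟨v, u ++ [a], by rw [← hvu]; simp, hv, ?_⟩
      intro v' u' h' hne
      rcases List.eq_nil_or_concat u' with h1 | ⟨u'', c, h1⟩
      · subst h1
        rw [List.append_nil] at h'
        rw [h', ← en_append (v := v) (w := u ++ [a]), ← List.append_assoc, hvu]
        · exact h
        · have : rd (v ++ u) b := by rw [hvu]; exact (rd_append.1 hr).1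
          exact (rd_append.1 this).1
      · rw [h1, List.concat_eq_append, ← List.append_assoc] at h'
        have h2 := List.append_inj_left' h' rfl
        exact ha v' u'' h2 hne

theorem exists_pass {y : ℝ} {w : List ℕ} {b : ℤ} (hr : rd w b) (h : Above y w b → |(b : ℝ)| ≤ y) :
    ∃ v u : List ℕ, v ++ u = w ∧ |(en v b : ℝ)| ≤ y ∧ Above y u (en v b) := by
  by_cases ha : Above y w b
  · refine ⟨[], w, rfl, by rw [en_nil]; exact h ha, by rw [en_nil]; exact ha⟩
  · unfold Above at ha
    push Not at ha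
    obtain ⟨v, u, hvu, -, hv⟩ := ha
    have h1 := hr
    rw [← hvu, rd_append] at h1
    obtain ⟨v₁, u₁, h2, h3, h4⟩ := first_pass hv u h1.2
    refine ⟨v ++ v₁, u₁, by rw [List.append_assoc, h2, hvu], ?_, ?_⟩
    · rw [en_append h1.1]
      exact h3
    · rw [en_append h1.1]
      exact h4

theorem descend {X y : ℝ} {w : List ℕ} {b : ℤ} (hX : 0 ≤ X) (hy : 0 < y)
    (hk : (w.length : ℝ) ≤ y) (hr : rd w b) (hn : |(en w b : ℝ)| ≤ X)
    (hs : 2 * (3 ^ w.length * X) ≤ 2 ^ w.sum * y) (ha : Above y w b) : |(b : ℝ)| ≤ y := by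
  have h1 := cw_key hy hr ha w [] rfl
  have h2 := pow_bound hy hk
  have h3 := en_spec hr
  have h4 : (3 : ℝ) ^ w.length * (en w b : ℝ) = 2 ^ w.sum * (b : ℝ) - cw w := by exact_mod_cast h3
  have h3p : (0 : ℝ) < 3 ^ w.length := by positivity
  have h5 : (2 : ℝ) ^ w.sum * |(b : ℝ)| ≤ 3 ^ w.length * |(en w b : ℝ)| + cw w := by
    have e1 : (2 : ℝ) ^ w.sum * |(b : ℝ)| = |(2 : ℝ) ^ w.sum * (b : ℝ)| := by
      rw [abs_mul, abs_of_pos (by positivity : (0 : ℝ) < 2 ^ w.sum)]
    have e2 : (2 : ℝ) ^ w.sum * (b : ℝ) = 3 ^ w.length * (en w b : ℝ) + cw w := by linarith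
    rw [e1, e2]
    refine (abs_add_le _ _).trans ?_
    rw [abs_mul, abs_of_pos h3p,
      abs_of_nonneg (Nat.cast_nonneg (cw w) : (0 : ℝ) ≤ (cw w : ℝ))]
  have h6 : |(en w b : ℝ)| + (cw w : ℝ) / 3 ^ w.length ≤ 2 * X := by
    refine h1.trans ?_
    have h7 : (w.length : ℝ) / y ≤ 1 := by rw [div_le_one hy]; exact hk
    calc |(en w b : ℝ)| * (1 + 1 / (3 * y)) ^ w.length ≤ X * 2 :=
          mul_le_mul hn (h2.trans (by linarith)) (by positivity) hX
      _ = 2 * X := by ring
  have h7 : 3 ^ w.length * |(en w b : ℝ)| + cw w =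
      3 ^ w.length * (|(en w b : ℝ)| + (cw w : ℝ) / 3 ^ w.length) := by
    field_simp
  rw [h7] at h5
  have h8 : (3 : ℝ) ^ w.length * (|(en w b : ℝ)| + (cw w : ℝ) / 3 ^ w.length) ≤
      3 ^ w.length * (2 * X) := mul_le_mul_of_nonneg_left h6 h3p.le
  have h9 : (2 : ℝ) ^ w.sum * |(b : ℝ)| ≤ 2 ^ w.sum * y := by linarith
  exact le_of_mul_le_mul_left h9 (by positivity)

open Classical in
/-- The elementary step. -/
theorem pass_step {e : ℤ} (he : e = 1 ∨ e = -1) {X y M t t' : ℝ} {k s₀ I : ℕ} (hX : 0 ≤ X)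
    (hy : 1 ≤ y) (hk : (k : ℝ) ≤ y) (hyX : y ≤ X) (G : Finset (List ℕ)) (hG : G ⊆ words I k)
    (hs1 : ∀ w ∈ G, 2 * (3 ^ k * X) ≤ 2 ^ w.sum * y) (hs2 : ∀ w ∈ G, w.sum ≤ s₀)
    (ht : t' ≤ t - s₀) :
    F e M t X ≤ (((Od e X).filter fun n => ¬ Hit G (fun _ => Set.univ) n).card : ℝ) +
      (k + 1) * (s₀ + 1) * ((1 + X * (k / y)) * F e M t' y) := by
  have hy0 : 0 < y := by linarith
  obtain ⟨N, hN⟩ : ∃ N : ℕ → ℕ → ℤ → Finset ℤ, N = fun j s b => (Od e X).filter fun n =>
    ∃ w : List ℕ, w.length = j ∧ w.sum = s ∧ rd w b ∧ en w b = n ∧ Above y w b := ⟨_, rfl⟩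
  obtain ⟨B, hB⟩ : ∃ B : Finset ℤ, B = (Od e y).filter fun n => n ∈ Bd M t' := ⟨_, rfl⟩
  have hsub : ((Od e X).filter fun n => n ∈ Bd M t) ⊆
      ((Od e X).filter fun n => ¬ Hit G (fun _ => Set.univ) n) ∪
        (range (k + 1)).biUnion fun j => (range (s₀ + 1)).biUnion fun s =>
          B.biUnion fun b => N j s b := by
    intro n hn
    rw [mem_filter] at hn
    obtain ⟨hn1, hn2⟩ := hn
    rw [mem_union]
    by_cases hH : Hit G (fun _ => Set.univ) n
    swap
    · left
      rw [mem_filter]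
      exact ⟨hn1, hH⟩
    right
    obtain ⟨w, hw, b, hb1, hb2, hb3, -⟩ := hH
    have hpos : ∀ i ∈ w, 1 ≤ i := fun i hi => ((mem_words.1 (hG hw)).2 i hi).1
    have hlen := words_length (hG hw)
    have hnO := hn1
    rw [mem_Od he] at hn1
    obtain ⟨g1, g2, g3⟩ := hn1
    have hnX : |(n : ℝ)| ≤ X := by
      rw [abs_eq_of_sign he g2]
      exact g3
    obtain ⟨v, u, hvu, hv, ha⟩ := exists_pass (y := y) hb2 (fun ha => by
      refine descend hX hy0 (by rw [hlen]; exact hk) hb2 (by rw [hb3]; exact hnX) ?_ ha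
      rw [hlen]
      exact hs1 w hw)
    have hr := hb2
    rw [← hvu, rd_append] at hr
    have hen : en u (en v b) = n := by rw [← en_append hr.1, hvu, hb3]
    have hposv : ∀ i ∈ v, 1 ≤ i := fun i hi => hpos i (by rw [← hvu]; exact List.mem_append_left _ hi)
    have hposu : ∀ i ∈ u, 1 ≤ i := fun i hi => hpos i (by rw [← hvu]; exact List.mem_append_right _ hi)
    have hodd : en v b % 2 = 1 := en_odd hr.1 hposv hb1
    have hsum : u.sum ≤ s₀ := by
      have h1 := hs2 w hw
      rw [← hvu, List.sum_append] at h1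
      omega
    have hulen : u.length ≤ k := by
      rw [← hvu, List.length_append] at hlen
      omega
    rw [mem_biUnion]
    refine ⟨u.length, mem_range.2 (by omega), ?_⟩
    rw [mem_biUnion]
    refine ⟨u.sum, mem_range.2 (by omega), ?_⟩
    rw [mem_biUnion]
    refine ⟨en v b, ?_, ?_⟩
    · rw [hB, mem_filter, mem_Od he]
      have h1 : 0 < e * en v b := sign_key he hr.2 hposu hodd (by rw [hen]; exact g2)
      refine ⟨⟨hodd, h1, ?_⟩, ?_⟩
      · rw [← abs_eq_of_sign he h1]
        exact hv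
      · intro j hj
        have h2 := T_en hr.2 hposu
        rw [hen] at h2
        rw [← h2, ← Function.iterate_add_apply]
        apply hn2
        have h3 : (u.sum : ℝ) ≤ s₀ := by exact_mod_cast hsum
        rw [Nat.cast_add]
        linarith
    · rw [hN]
      simp only [mem_filter]
      exact ⟨hnO, u, rfl, rfl, hr.2, hen, ha⟩
  have h1 := (card_le_card hsub).trans (card_union_le _ _)
  have hNc : ∀ j ∈ range (k + 1), ∀ s b, ((N j s b).card : ℝ) ≤ 1 + X * (k / y) := by
    intro j hj s b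
    rw [mem_range] at hj
    have hjk : (j : ℝ) ≤ k := by exact_mod_cast (by omega : j ≤ k)
    refine (count_pass hX hy0 (hjk.trans hk) s b (N j s b) ?_).trans ?_
    · intro n hn
      rw [hN] at hn
      simp only [mem_filter] at hn
      obtain ⟨hn1, hn2⟩ := hn
      rw [mem_Od he] at hn1
      obtain ⟨g1, g2, g3⟩ := hn1
      refine ⟨?_, hn2⟩
      rw [abs_eq_of_sign he g2]
      exact g3
    · have h2 : X * ((j : ℝ) / y) ≤ X * (k / y) :=
        mul_le_mul_of_nonneg_left (div_le_div_of_nonneg_right hjk hy0.le) hX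
      linarith
  have hB1 : ∀ j ∈ range (k + 1), ∀ s, ((B.biUnion fun b => N j s b).card : ℝ) ≤
      B.card * (1 + X * (k / y)) := by
    intro j hj s
    have h2 : ((B.biUnion fun b => N j s b).card : ℝ) ≤ ∑ b ∈ B, ((N j s b).card : ℝ) := by
      exact_mod_cast card_biUnion_le
    refine h2.trans ?_
    rw [← nsmul_eq_mul]
    exact sum_le_card_nsmul _ _ _ fun b _ => hNc j hj s b
  have hS1 : ∀ j ∈ range (k + 1), (((range (s₀ + 1)).biUnion fun s =>
      B.biUnion fun b => N j s b).card : ℝ) ≤ (s₀ + 1) * (B.card * (1 + X * (k / y))) := by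
    intro j hj
    have h2 : (((range (s₀ + 1)).biUnion fun s => B.biUnion fun b => N j s b).card : ℝ) ≤
        ∑ s ∈ range (s₀ + 1), ((B.biUnion fun b => N j s b).card : ℝ) := by
      exact_mod_cast card_biUnion_le
    refine h2.trans ?_
    refine (sum_le_card_nsmul _ _ _ fun s _ => hB1 j hj s).trans (le_of_eq ?_)
    rw [card_range, nsmul_eq_mul]
    push_cast
    ring
  have hJ1 : (((range (k + 1)).biUnion fun j => (range (s₀ + 1)).biUnion fun s =>
      B.biUnion fun b => N j s b).card : ℝ) ≤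
      (k + 1) * ((s₀ + 1) * (B.card * (1 + X * (k / y)))) := by
    have h2 : (((range (k + 1)).biUnion fun j => (range (s₀ + 1)).biUnion fun s =>
        B.biUnion fun b => N j s b).card : ℝ) ≤
        ∑ j ∈ range (k + 1), (((range (s₀ + 1)).biUnion fun s =>
          B.biUnion fun b => N j s b).card : ℝ) := by
      exact_mod_cast card_biUnion_le
    refine h2.trans ?_
    refine (sum_le_card_nsmul _ _ _ fun j hj => hS1 j hj).trans (le_of_eq ?_)
    rw [card_range, nsmul_eq_mul]
    push_cast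
    ring
  have h2 : F e M t X ≤ (((Od e X).filter fun n => ¬ Hit G (fun _ => Set.univ) n).card : ℝ) +
      (((range (k + 1)).biUnion fun j => (range (s₀ + 1)).biUnion fun s =>
      B.biUnion fun b => N j s b).card : ℝ) := by
    unfold F
    exact_mod_cast h1
  refine h2.trans ?_
  have h3 : F e M t' y = B.card := by
    unfold F
    rw [hB]
  rw [h3]
  refine add_le_add le_rfl (hJ1.trans (le_of_eq ?_))
  ring

end Pool.Agent.Collatz3.TP
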