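import Mathlib
import Pool.Agent.Collatz3.TPStep

set_option autoImplicit false

/-!
Natural density Tao theorem with a power of `M`: the exceptional integers of an elementary step.
-/

namespace Pool.Agent.Collatz3.TP

open Finset Filter
open Pool.Agent.Helper14 (T)
open Pool.Agent.Collatz3.Mix (words mem_words)
open Pool.Agent.Collatz3.PD
open Pool.Agent.Collatz3.FW hiding Num num_all handoff typical P_good_ge num_ev
open Pool.Agent.Collatz3.TN (Bd F F_le F_nonneg F_anti Bd_anti abs_eq_of_sign)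

theorem tail_up {δ : ℝ} (h0 : 0 < δ) (h1 : δ ≤ 1) : ∃ ρ : ℝ, 0 < ρ ∧ ρ < 1 ∧ ∀ I d : ℕ,
    P ((words I d).filter fun w => (2 + δ) * d < (w.sum : ℝ)) ≤ ρ ^ d := by
  obtain ⟨q, hq⟩ : ∃ q : ℝ, q = 1 + δ / 4 := ⟨_, rfl⟩
  have hq1 : 1 < q := by rw [hq]; linarith
  have hq2 : q ≤ 5 / 4 := by rw [hq]; linarith
  obtain ⟨b, hb⟩ : ∃ b : ℝ, b = q ^ (2 + δ) := ⟨_, rfl⟩
  have hb0 : 0 < b := by rw [hb]; exact Real.rpow_pos_of_pos (by linarith) _
  have hlt : q < b * (2 - q) := by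
    have e1 : b = q * q ^ (1 + δ) := by
      rw [hb, ← Real.rpow_one_add' (by linarith) (by linarith)]
      congr 1
      ring
    have e2 : 1 + (1 + δ) * (δ / 4) ≤ q ^ (1 + δ) := by
      rw [hq]
      exact one_add_mul_self_le_rpow_one_add (by linarith) (by linarith)
    have e3 : 1 < (1 + (1 + δ) * (δ / 4)) * (2 - q) := by
      rw [hq]
      have f1 : (1 + (1 + δ) * (δ / 4)) * (2 - (1 + δ / 4)) =
          1 + δ ^ 2 / 4 - (1 + δ) * δ ^ 2 / 16 := by ring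
      have f2 : 0 < δ ^ 2 := by positivity
      have f3 : (1 + δ) * δ ^ 2 ≤ 2 * δ ^ 2 := mul_le_mul_of_nonneg_right (by linarith) f2.le
      rw [f1]
      linarith
    have e4 : 1 < q ^ (1 + δ) * (2 - q) :=
      e3.trans_le (mul_le_mul_of_nonneg_right e2 (by linarith))
    rw [e1, mul_assoc]
    nlinarith
  have hq2' : 0 < 2 - q := by linarith
  refine ⟨q / (2 - q) / b, by positivity, by
    rw [div_lt_one hb0, div_lt_iff₀ hq2']
    exact hlt, fun I d => ?_⟩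
  have h1 : ∀ w ∈ (words I d).filter (fun w => (2 + δ) * d < (w.sum : ℝ)),
      (1 / 2 : ℝ) ^ w.sum ≤ (q / 2) ^ w.sum * (1 / b) ^ d := by
    intro w hw
    rw [mem_filter] at hw
    have e2 : b ^ d ≤ q ^ w.sum := by
      rw [hb, ← Real.rpow_natCast, ← Real.rpow_natCast, ← Real.rpow_mul (by linarith)]
      exact Real.rpow_le_rpow_of_exponent_le hq1.le hw.2.le
    have e3 : (q / 2 : ℝ) ^ w.sum = (1 / 2) ^ w.sum * q ^ w.sum := by
      rw [← mul_pow]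
      congr 1
      ring
    rw [e3, one_div b, inv_pow, mul_assoc]
    have e4 : 1 ≤ q ^ w.sum * (b ^ d)⁻¹ := by
      rw [← div_eq_mul_inv, one_le_div (by positivity)]
      exact e2
    have e5 : (0 : ℝ) ≤ (1 / 2) ^ w.sum := by positivity
    nlinarith
  calc P ((words I d).filter fun w => (2 + δ) * d < (w.sum : ℝ))
      ≤ ∑ w ∈ (words I d).filter (fun w => (2 + δ) * d < (w.sum : ℝ)),
          (q / 2) ^ w.sum * (1 / b) ^ d := sum_le_sum h1
    _ ≤ ∑ w ∈ words I d, (q / 2) ^ w.sum * (1 / b) ^ d :=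
        sum_le_sum_of_subset_of_nonneg (filter_subset _ _) fun _ _ _ => by positivity
    _ = (∑ i ∈ Icc 1 I, (q / 2) ^ i) ^ d * (1 / b) ^ d := by
        rw [← sum_mul, sum_pow_words]
    _ ≤ (q / (2 - q)) ^ d * (1 / b) ^ d := by
        apply mul_le_mul_of_nonneg_right _ (by positivity)
        apply pow_le_pow_left₀ (sum_nonneg fun _ _ => by positivity)
        refine (geom_le I (by positivity) (by linarith)).trans (le_of_eq ?_)
        have e1 : (2 - q) ≠ 0 := by linarith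
        have e2 : (1 - q / 2) ≠ 0 := by
          intro h
          apply e1
          linarith
        field_simp
    _ = (q / (2 - q) / b) ^ d := by
        rw [← mul_pow]
        congr 1
        ring

/-- The typical words. -/
noncomputable def Gd (δ : ℝ) (k : ℕ) : Finset (List ℕ) :=
  (words k k).filter fun w => (2 - δ) * k ≤ (w.sum : ℝ) ∧ (w.sum : ℝ) ≤ (2 + δ) * k

theorem P_Gd {δ ρ₁ ρ₂ : ℝ} (k : ℕ)
    (h1 : P ((words k k).filter fun w => (w.sum : ℝ) < (2 - δ) * k) ≤ ρ₁ ^ k)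
    (h2 : P ((words k k).filter fun w => (2 + δ) * k < (w.sum : ℝ)) ≤ ρ₂ ^ k) :
    1 - k * (1 / 2 : ℝ) ^ k - ρ₁ ^ k - ρ₂ ^ k ≤ P (Gd δ k) := by
  have hsub : words k k ⊆ (Gd δ k ∪ (words k k).filter fun w => (w.sum : ℝ) < (2 - δ) * k) ∪
      (words k k).filter fun w => (2 + δ) * k < (w.sum : ℝ) := by
    intro w hw
    rw [mem_union, mem_union, Gd, mem_filter, mem_filter, mem_filter]
    by_cases h : (w.sum : ℝ) < (2 - δ) * k
    · exact Or.inl (Or.inr ⟨hw, h⟩)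
    · by_cases h' : (2 + δ) * k < (w.sum : ℝ)
      · exact Or.inr ⟨hw, h'⟩
      · push Not at h h'
        exact Or.inl (Or.inl ⟨hw, h, h'⟩)
  have h3 := P_mono hsub
  have hun : ∀ G G' : Finset (List ℕ), P (G ∪ G') ≤ P G + P G' := by
    intro G G'
    unfold P
    rw [← sum_union_inter]
    have : 0 ≤ ∑ w ∈ G ∩ G', (1 / 2 : ℝ) ^ w.sum := sum_nonneg fun _ _ => by positivity
    linarith
  have h4 := hun (Gd δ k ∪ (words k k).filter fun w => (w.sum : ℝ) < (2 - δ) * k)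
    ((words k k).filter fun w => (2 + δ) * k < (w.sum : ℝ))
  have h5 := hun (Gd δ k) ((words k k).filter fun w => (w.sum : ℝ) < (2 - δ) * k)
  rw [P_words] at h3
  have h6 := one_sub_Z_pow k k
  linarith

open Classical in
theorem bad_count {δ : ℝ} (h0 : 0 < δ) (h1 : δ ≤ 1) : ∃ σ : ℝ, 0 < σ ∧ σ < 1 ∧
    ∀ᶠ k : ℕ in atTop, ∀ X : ℝ, 2 ^ (30 * k) ≤ X → ∀ e : ℤ, e = 1 ∨ e = -1 →
      (((Od e X).filter fun n => ¬ Hit (Gd δ k) (fun _ => Set.univ) n).card : ℝ) ≤ X * σ ^ k := by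
  obtain ⟨ρ₁, a1, a2, a3⟩ := Pool.Agent.Collatz3.TN.tail h0 h1
  obtain ⟨ρ₂, b1, b2, b3⟩ := tail_up h0 h1
  obtain ⟨ρ, hρ⟩ : ∃ ρ : ℝ, ρ = max (3 / 4) (max ρ₁ ρ₂) := ⟨_, rfl⟩
  have hρ1 : ρ < 1 := by
    rw [hρ]
    exact max_lt (by norm_num) (max_lt a2 b2)
  have hρa : ρ₁ ≤ ρ := by rw [hρ]; exact (le_max_left _ _).trans (le_max_right _ _)
  have hρb : ρ₂ ≤ ρ := by rw [hρ]; exact (le_max_right _ _).trans (le_max_right _ _)
  have hρc : 3 / 4 ≤ ρ := by rw [hρ]; exact le_max_left _ _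
  have hρ0 : 0 < ρ := by linarith
  have hs0 : 0 < √ρ := Real.sqrt_pos.2 hρ0
  have hs1 : √ρ < 1 := by
    rw [Real.sqrt_lt' one_pos]
    linarith
  refine ⟨√ρ, hs0, hs1, ?_⟩
  have c1 : ∀ᶠ k : ℕ in atTop, (√ρ) ^ k < 1 / 3 :=
    (tendsto_pow_atTop_nhds_zero_of_lt_one hs0.le hs1).eventually_lt_const (by norm_num)
  have c2 : ∀ᶠ k : ℕ in atTop, (k : ℝ) * (2 / 3 : ℝ) ^ k < 1 :=
    (tendsto_self_mul_const_pow_of_lt_one (by norm_num) (by norm_num)).eventually_lt_const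
      (by norm_num)
  filter_upwards [c1, c2, eventually_ge_atTop 1] with k d1 d2 d3 X hX e he
  have hX0 : (0 : ℝ) < X := lt_of_lt_of_le (by positivity) hX
  have hG : Gd δ k ⊆ words k k := filter_subset _ _
  have h1' := hit_count he d3 hG X
  have h2 : (((Od e X).filter fun n => Hit (Gd δ k) (fun _ => Set.univ) n).card : ℝ) +
      (((Od e X).filter fun n => ¬ Hit (Gd δ k) (fun _ => Set.univ) n).card : ℝ) =
        oc X := by
    rw [← card_Od he X]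
    exact_mod_cast card_filter_add_card_filter_not _
  have h3 := oc_le hX0.le
  have h4 := P_Gd k (a3 k k) (b3 k k)
  have h5 : ((Gd δ k).card : ℝ) ≤ 2 ^ (3 * k) := by
    apply card_words_le hG
    intro w hw
    rw [Gd, mem_filter] at hw
    have e1 : (2 + δ) * k ≤ 3 * k := mul_le_mul_of_nonneg_right (by linarith) (Nat.cast_nonneg _)
    have e2 : (w.sum : ℝ) ≤ 3 * (k : ℝ) := hw.2.2.trans e1
    exact_mod_cast e2
  have h6 : (k : ℝ) * (1 / 2) ^ k ≤ ρ ^ k := by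
    have e1 : (1 / 2 : ℝ) ^ k = (2 / 3) ^ k * (3 / 4) ^ k := by
      rw [← mul_pow]
      norm_num
    rw [e1, ← mul_assoc]
    calc (k : ℝ) * (2 / 3) ^ k * (3 / 4) ^ k ≤ 1 * (3 / 4) ^ k :=
          mul_le_mul_of_nonneg_right d2.le (by positivity)
      _ = (3 / 4) ^ k := one_mul _
      _ ≤ ρ ^ k := pow_le_pow_left₀ (by norm_num) hρc _
  have h7 : ρ₁ ^ k ≤ ρ ^ k := pow_le_pow_left₀ a1.le hρa _
  have h8 : ρ₂ ^ k ≤ ρ ^ k := pow_le_pow_left₀ b1.le hρb _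
  have h9 : 1 / 2 + (2 : ℝ) ^ (3 * k) ≤ X * ρ ^ k := by
    have e1 : (1 / 2 : ℝ) + 2 ^ (3 * k) ≤ 2 * 2 ^ (3 * k) := by
      have : (1 : ℝ) ≤ 2 ^ (3 * k) := one_le_pow₀ (by norm_num)
      linarith
    have e2 : (2 : ℝ) * 2 ^ (3 * k) ≤ 2 ^ (30 * k) * (3 / 4) ^ k := by
      calc (2 : ℝ) * 2 ^ (3 * k) ≤ 2 ^ k * (2 ^ (3 * k)) := by
            apply mul_le_mul_of_nonneg_right _ (by positivity)
            calc (2 : ℝ) = 2 ^ 1 := by norm_num
              _ ≤ 2 ^ k := pow_le_pow_right₀ (by norm_num) d3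
        _ = (2 * 2 ^ 3) ^ k := by rw [mul_pow, ← pow_mul]
        _ ≤ (2 ^ 30 * (3 / 4)) ^ k := pow_le_pow_left₀ (by norm_num) (by norm_num) _
        _ = 2 ^ (30 * k) * (3 / 4) ^ k := by rw [mul_pow, ← pow_mul]
    have e3 : (2 : ℝ) ^ (30 * k) * (3 / 4) ^ k ≤ X * ρ ^ k :=
      mul_le_mul hX (pow_le_pow_left₀ (by norm_num) hρc _) (by positivity) hX0.le
    linarith
  have h10 : 0 ≤ ρ ^ k := by positivity
  have h11 : X / 2 * (1 - k * (1 / 2 : ℝ) ^ k - ρ₁ ^ k - ρ₂ ^ k) ≤ X / 2 * P (Gd δ k) :=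
    mul_le_mul_of_nonneg_left h4 (by linarith)
  have h12 : X / 2 * (k * (1 / 2 : ℝ) ^ k + ρ₁ ^ k + ρ₂ ^ k) ≤ X / 2 * (3 * ρ ^ k) :=
    mul_le_mul_of_nonneg_left (by linarith) (by linarith)
  have h13 : 3 * (X * ρ ^ k) ≤ X * √ρ ^ k := by
    have e1 : ρ ^ k = √ρ ^ k * √ρ ^ k := by
      rw [← mul_pow, Real.mul_self_sqrt hρ0.le]
    rw [e1]
    have e2 : 0 ≤ X * √ρ ^ k := by positivity
    calc 3 * (X * (√ρ ^ k * √ρ ^ k)) = (X * √ρ ^ k) * (3 * √ρ ^ k) := by ring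
      _ ≤ (X * √ρ ^ k) * 1 := mul_le_mul_of_nonneg_left (by linarith) e2
      _ = X * √ρ ^ k := mul_one _
  have h14 : 0 ≤ X * ρ ^ k := by positivity
  nlinarith

end Pool.Agent.Collatz3.TP
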