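import Mathlib
import Pool.Agent.Collatz3.TPBad

set_option autoImplicit false

/-!
Natural density Tao theorem with a power of `M`: the early scales.
-/

namespace Pool.Agent.Collatz3.TP

open Finset Filter
open Pool.Agent.Helper14 (T)
open Pool.Agent.Collatz3.Mix (words mem_words)
open Pool.Agent.Collatz3.PD
open Pool.Agent.Collatz3.FW hiding Num num_all handoff typical P_good_ge num_ev
open Pool.Agent.Collatz3.TN (Bd F F_le F_nonneg F_anti Bd_anti abs_eq_of_sign log_two_bds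
  log_three_bds)

/-- The step from `X` to a slightly smaller `y`, at the scale `k`. -/
theorem early_step {γ : ℝ} (hγ : 2 / Real.log (4 / 3) < γ) :
    ∃ (σ : ℝ) (k₀ : ℕ), 0 < σ ∧ σ < 1 ∧ 10 ≤ k₀ ∧ ∀ k : ℕ, k₀ ≤ k →
      ∀ X : ℝ, 2 ^ (30 * k) ≤ X → X < 2 ^ (30 * (k + 1)) →
      ∃ y : ℝ, 1 ≤ y ∧ Real.log y ≤ 199 / 200 * Real.log X ∧ y ≤ X ∧
        ∀ e : ℤ, e = 1 ∨ e = -1 → ∀ M : ℝ,
        F e M (γ * Real.log X) X ≤ X * σ ^ k +
          16 * (k : ℝ) ^ 3 * (X / y * F e M (γ * Real.log y) y) := by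
  obtain ⟨l2a, l2b⟩ := log_two_bds
  obtain ⟨l3a, l3b⟩ := log_three_bds
  have l43 : Real.log (4 / 3) = 2 * Real.log 2 - Real.log 3 := by
    rw [Real.log_div (by norm_num) (by norm_num)]
    have : (4 : ℝ) = 2 ^ 2 := by norm_num
    rw [this, Real.log_pow]
    push_cast
    ring
  have l43p : 0 < Real.log (4 / 3) := Real.log_pos (by norm_num)
  have hγ1 : 2 < γ * Real.log (4 / 3) := by rwa [div_lt_iff₀ l43p] at hγ
  have hγ0 : 0 < γ := lt_trans (by positivity) hγ
  obtain ⟨κ, hκ⟩ : ∃ κ : ℝ, κ = γ * Real.log (4 / 3) - 2 := ⟨_, rfl⟩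
  have hκ0 : 0 < κ := by rw [hκ]; linarith
  obtain ⟨D, hD⟩ : ∃ D : ℝ, D = 1 + γ * Real.log 2 := ⟨_, rfl⟩
  have hgl : 0 < γ * Real.log 2 := by
    have : 0 < Real.log 2 := by linarith
    positivity
  have hD0 : 0 < D := by rw [hD]; linarith
  obtain ⟨δ, hδ⟩ : ∃ δ : ℝ, δ = min (1 / 10) (κ / (2 * D)) := ⟨_, rfl⟩
  have hδ0 : 0 < δ := by rw [hδ]; exact lt_min (by norm_num) (by positivity)
  have hδ1 : δ ≤ 1 / 10 := by rw [hδ]; exact min_le_left _ _
  have hδ2 : δ * D ≤ κ / 2 := by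
    have h1 : δ ≤ κ / (2 * D) := by rw [hδ]; exact min_le_right _ _
    calc δ * D ≤ κ / (2 * D) * D := mul_le_mul_of_nonneg_right h1 hD0.le
      _ = κ / 2 := by field_simp
  obtain ⟨σ, hσ0, hσ1, hbad⟩ := bad_count hδ0 (by linarith : δ ≤ 1)
  obtain ⟨k₁, hk₁⟩ := hbad.exists_forall_of_atTop
  obtain ⟨k₂, hk₂⟩ := exists_nat_ge (2 * (γ * Real.log 2) / κ)
  obtain ⟨k₃, hk₃⟩ := exists_nat_ge (1 / δ)
  refine ⟨σ, max 10 (max k₁ (max k₂ k₃)), hσ0, hσ1, le_max_left _ _, ?_⟩
  intro k hk X hX1 hX2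
  have hk10 : 10 ≤ k := (le_max_left _ _).trans hk
  have hkk₁ : k₁ ≤ k := (le_max_left _ _).trans ((le_max_right _ _).trans hk)
  have hkk₂ : k₂ ≤ k :=
    (le_max_left _ _).trans ((le_max_right _ _).trans ((le_max_right _ _).trans hk))
  have hkk₃ : k₃ ≤ k :=
    (le_max_right _ _).trans ((le_max_right _ _).trans ((le_max_right _ _).trans hk))
  have hX0 : (0 : ℝ) < X := lt_of_lt_of_le (by positivity) hX1
  have hkr : (10 : ℝ) ≤ k := by exact_mod_cast hk10
  have hk0 : (0 : ℝ) < k := by linarith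
  have hδk : 1 ≤ δ * k := by
    have h1 : (1 : ℝ) / δ ≤ k := hk₃.trans (by exact_mod_cast hkk₃)
    rw [div_le_iff₀ hδ0] at h1
    linarith
  have hκk : γ * Real.log 2 ≤ κ / 2 * k := by
    have h1 : 2 * (γ * Real.log 2) / κ ≤ k := hk₂.trans (by exact_mod_cast hkk₂)
    rw [div_le_iff₀ hκ0] at h1
    linarith
  have hlX1 : 30 * k * Real.log 2 ≤ Real.log X := by
    have := Real.log_le_log (by positivity) hX1
    rw [Real.log_pow] at this
    push_cast at this
    exact this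
  have hlX2 : Real.log X ≤ 30 * (k + 1) * Real.log 2 := by
    have := Real.log_le_log hX0 hX2.le
    rw [Real.log_pow] at this
    push_cast at this
    exact this
  obtain ⟨m, hm⟩ : ∃ m : ℕ, m = ⌈(2 - δ) * k⌉₊ := ⟨_, rfl⟩
  have hm1 : (2 - δ) * k ≤ m := by rw [hm]; exact Nat.le_ceil _
  have hm2 : (m : ℝ) ≤ 2 * k := by
    have h1 : (m : ℝ) < (2 - δ) * k + 1 := by
      rw [hm]
      exact Nat.ceil_lt_add_one (mul_nonneg (by linarith) hk0.le)
    linarith
  obtain ⟨s₀, hs₀⟩ : ∃ s₀ : ℕ, s₀ = ⌊(2 + δ) * k⌋₊ := ⟨_, rfl⟩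
  have hs1 : (s₀ : ℝ) ≤ (2 + δ) * k := by
    rw [hs₀]
    exact Nat.floor_le (mul_nonneg (by linarith) hk0.le)
  obtain ⟨y, hy⟩ : ∃ y : ℝ, y = 2 * (3 ^ k * X) / 2 ^ m := ⟨_, rfl⟩
  have hy0 : 0 < y := by rw [hy]; positivity
  have hly : Real.log y = Real.log 2 + k * Real.log 3 + Real.log X - m * Real.log 2 := by
    rw [hy, Real.log_div (by positivity) (by positivity), Real.log_mul (by norm_num)
      (by positivity), Real.log_mul (by positivity) hX0.ne', Real.log_pow, Real.log_pow]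
    ring
  have hml : (2 - δ) * k * Real.log 2 ≤ m * Real.log 2 :=
    mul_le_mul_of_nonneg_right hm1 (by linarith)
  have hk3 : (k : ℝ) * Real.log 3 ≤ k * 1.0987 := mul_le_mul_of_nonneg_left l3b.le hk0.le
  have h19 : 1.9 * (k : ℝ) * 0.6931 ≤ (2 - δ) * k * Real.log 2 := by
    apply mul_le_mul _ l2a.le (by norm_num) (mul_nonneg (by linarith) hk0.le)
    exact mul_le_mul_of_nonneg_right (by linarith) hk0.le
  have hly1 : Real.log y ≤ Real.log X - 0.218 * k + 0.6932 := by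
    rw [hly]
    linarith
  have hlX3 : Real.log X ≤ 20.796 * k + 20.796 := by
    have : 30 * ((k : ℝ) + 1) * Real.log 2 ≤ 30 * (k + 1) * 0.6932 :=
      mul_le_mul_of_nonneg_left l2b.le (by positivity)
    linarith
  have hyX : y ≤ X := by
    rw [← Real.log_le_log_iff hy0 hX0]
    linarith
  have hy2 : (2 : ℝ) ^ (29 * k) ≤ y := by
    rw [hy, le_div_iff₀ (by positivity)]
    have e1 : (2 : ℝ) ^ m ≤ 2 ^ (2 * k) := by
      apply pow_le_pow_right₀ (by norm_num)
      exact_mod_cast hm2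
    calc (2 : ℝ) ^ (29 * k) * 2 ^ m ≤ 2 ^ (29 * k) * 2 ^ (2 * k) :=
          mul_le_mul_of_nonneg_left e1 (by positivity)
      _ = 2 ^ (30 * k) * 2 ^ k := by
          rw [← pow_add, ← pow_add]
          congr 1
          ring
      _ ≤ X * 3 ^ k := mul_le_mul hX1 (pow_le_pow_left₀ (by norm_num) (by norm_num) _)
          (by positivity) hX0.le
      _ ≤ 2 * (3 ^ k * X) := by
          have : 0 ≤ 3 ^ k * X := by positivity
          linarith
  have hky : (k : ℝ) ≤ y := by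
    have h1 : k < 2 ^ k := Nat.lt_two_pow_self
    have h2 : (k : ℝ) ≤ 2 ^ k := by exact_mod_cast h1.le
    refine h2.trans (le_trans ?_ hy2)
    exact pow_le_pow_right₀ (by norm_num) (by omega)
  refine ⟨y, by linarith, by linarith, hyX, ?_⟩
  intro e he M
  have h1 := pass_step he (X := X) (y := y) (M := M) (t := γ * Real.log X)
    (t' := γ * Real.log y) (k := k) (s₀ := s₀) (I := k) hX0.le (by linarith) hky hyX (Gd δ k)
    (filter_subset _ _) (by
      intro w hw
      rw [Gd, mem_filter] at hw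
      have e1 : m ≤ w.sum := by
        rw [hm]
        exact Nat.ceil_le.2 hw.2.1
      rw [hy, mul_div_assoc', le_div_iff₀ (by positivity), mul_comm ((2 : ℝ) ^ w.sum)]
      exact mul_le_mul_of_nonneg_left (pow_le_pow_right₀ (by norm_num) e1) (by positivity)) (by
      intro w hw
      rw [Gd, mem_filter] at hw
      rw [hs₀]
      exact Nat.le_floor hw.2.2) (by
      have e1 : γ * Real.log y = γ * Real.log X + (γ * Real.log 2 + γ * (k * Real.log 3) -
          γ * (m * Real.log 2)) := by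
        rw [hly]
        ring
      have e2 : γ * ((2 - δ) * k * Real.log 2) ≤ γ * (m * Real.log 2) :=
        mul_le_mul_of_nonneg_left hml hγ0.le
      have e3 : δ * D * k ≤ κ / 2 * k := mul_le_mul_of_nonneg_right hδ2 hk0.le
      have e4 : κ * k = γ * (2 * Real.log 2 - Real.log 3) * k - 2 * k := by
        rw [hκ, l43]
        ring
      have e5 : δ * D * k = δ * k + γ * (δ * k * Real.log 2) := by
        rw [hD]
        ring
      rw [e1]
      nlinarith)
  have h2 := hk₁ k hkk₁ X hX1 e he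
  refine h1.trans (add_le_add h2 ?_)
  have hF := F_nonneg e M (γ * Real.log y) y
  have h3 : 1 + X * (k / y) ≤ 2 * k * (X / y) := by
    have e1 : 1 ≤ X / y := by
      rw [one_le_div hy0]
      exact hyX
    have e2 : X * (k / y) = k * (X / y) := by ring
    rw [e2]
    nlinarith
  have h4 : ((k : ℝ) + 1) * (s₀ + 1) ≤ 8 * (k : ℝ) ^ 2 := by
    have e1 : (s₀ : ℝ) + 1 ≤ 4 * k := by
      have : (2 + δ) * (k : ℝ) ≤ 3 * k := mul_le_mul_of_nonneg_right (by linarith) hk0.le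
      linarith
    calc ((k : ℝ) + 1) * (s₀ + 1) ≤ (2 * k) * (4 * k) :=
          mul_le_mul (by linarith) e1 (by positivity) (by linarith)
      _ = 8 * (k : ℝ) ^ 2 := by ring
  calc ((k : ℝ) + 1) * (s₀ + 1) * ((1 + X * (k / y)) * F e M (γ * Real.log y) y)
      ≤ 8 * (k : ℝ) ^ 2 * ((2 * k * (X / y)) * F e M (γ * Real.log y) y) := by
        apply mul_le_mul h4 _ (by positivity) (by positivity)
        exact mul_le_mul_of_nonneg_right h3 hF
    _ = 16 * (k : ℝ) ^ 3 * (X / y * F e M (γ * Real.log y) y) := by ring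

open Classical in
theorem F_zero {e : ℤ} (he : e = 1 ∨ e = -1) {M t y : ℝ} (hy : y ≤ M) (ht : 0 ≤ t) :
    F e M t y = 0 := by
  unfold F
  rw [Nat.cast_eq_zero, card_eq_zero, filter_eq_empty_iff]
  intro n hn hb
  rw [mem_Od he] at hn
  have h1 := hb 0 (by rw [Nat.cast_zero]; exact ht)
  rw [Function.iterate_zero, id, abs_eq_of_sign he hn.2.1] at h1
  linarith [hn.2.2]

/-- The early scales. -/
theorem early {γ : ℝ} (hγ : 2 / Real.log (4 / 3) < γ) :
    ∃ (a A K₀ : ℝ), 0 < a ∧ 0 < A ∧ 2 ≤ K₀ ∧ ∀ M : ℝ, K₀ ≤ M → ∀ L : ℝ, Real.log M ≤ L →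
      ∀ n : ℕ, ∀ X : ℝ, 1 ≤ X → Real.log X ≤ L → Real.log X ≤ (200 / 199) ^ n * Real.log M →
      ∀ e : ℤ, e = 1 ∨ e = -1 →
      F e M (γ * Real.log X) X ≤ X * (A * Real.exp (-(a * Real.log M)) * (2 * L ^ 3) ^ n) := by
  obtain ⟨σ, k₀, hσ0, hσ1, hk₀, hstep⟩ := early_step hγ
  obtain ⟨l2a, l2b⟩ := log_two_bds
  have hl30 : 0 < 30 * Real.log 2 := by linarith
  have hlσ : Real.log σ < 0 := Real.log_neg hσ0 hσ1
  have hγ0 : 0 < γ := by
    have l43p : 0 < Real.log (4 / 3) := Real.log_pos (by norm_num)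
    exact lt_trans (by positivity) hγ
  obtain ⟨a, ha⟩ : ∃ a : ℝ, a = -Real.log σ / (30 * Real.log 2) := ⟨_, rfl⟩
  have ha0 : 0 < a := by rw [ha]; exact div_pos (by linarith) hl30
  refine ⟨a, 1 / σ, 2 ^ (30 * k₀), ha0, by positivity, ?_, ?_⟩
  · calc (2 : ℝ) = 2 ^ 1 := by norm_num
      _ ≤ 2 ^ (30 * k₀) := pow_le_pow_right₀ (by norm_num) (by omega)
  intro M hM L hL
  have hM1 : (1 : ℝ) ≤ M := (one_le_pow₀ (by norm_num)).trans hM
  have hM0 : (0 : ℝ) < M := by linarith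
  have hlM : 30 * k₀ * Real.log 2 ≤ Real.log M := by
    have := Real.log_le_log (by positivity) hM
    rw [Real.log_pow] at this
    push_cast at this
    exact this
  have hk₀r : (10 : ℝ) ≤ k₀ := by exact_mod_cast hk₀
  have hlM0 : 200 ≤ Real.log M := by
    have : 30 * (10 : ℝ) * 0.6931 ≤ 30 * k₀ * Real.log 2 :=
      mul_le_mul (by linarith) l2a.le (by norm_num) (by linarith)
    linarith
  obtain ⟨S, hS⟩ : ∃ S : ℝ, S = 1 / σ * Real.exp (-(a * Real.log M)) := ⟨_, rfl⟩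
  have hS0 : 0 < S := by rw [hS]; positivity
  rw [← hS]
  have hQ1 : 1 ≤ 2 * L ^ 3 := by
    have : (1 : ℝ) ≤ L ^ 3 := one_le_pow₀ (by linarith)
    linarith
  intro n
  induction n with
  | zero =>
    intro X hX hXL hXM e he
    rw [pow_zero, one_mul, Real.log_le_log_iff (by linarith) hM0] at hXM
    rw [F_zero he hXM (mul_nonneg hγ0.le (Real.log_nonneg hX))]
    positivity
  | succ n ih =>
    intro X hX hXL hXM e he
    rcases le_or_gt X M with h | h
    · rw [F_zero he h (mul_nonneg hγ0.le (Real.log_nonneg hX))]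
      positivity
    have hX0 : (0 : ℝ) < X := by linarith
    have hlX := Real.log_le_log hM0 h.le
    obtain ⟨k, hkd⟩ : ∃ k : ℕ, k = ⌊Real.log X / (30 * Real.log 2)⌋₊ := ⟨_, rfl⟩
    have hk1 : (k : ℝ) ≤ Real.log X / (30 * Real.log 2) := by
      rw [hkd]
      exact Nat.floor_le (div_nonneg (by linarith) hl30.le)
    have hk2 : Real.log X / (30 * Real.log 2) < k + 1 := by
      rw [hkd]
      exact Nat.lt_floor_add_one _
    have hk2' := hk2
    rw [le_div_iff₀ hl30] at hk1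
    rw [div_lt_iff₀ hl30] at hk2
    have hkK : k₀ ≤ k := by
      rw [hkd]
      apply Nat.le_floor
      rw [le_div_iff₀ hl30]
      linarith
    have hX4 : (2 : ℝ) ^ (30 * k) ≤ X := by
      rw [← Real.log_le_log_iff (by positivity) hX0, Real.log_pow]
      push_cast
      linarith
    have hX5 : X < 2 ^ (30 * (k + 1)) := by
      rw [← Real.log_lt_log_iff hX0 (by positivity), Real.log_pow]
      push_cast
      linarith
    obtain ⟨y, hy1, hy2, hy3, hy4⟩ := hstep k hkK X hX4 hX5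
    have hy0 : 0 < y := by linarith
    have h1 := hy4 e he M
    have h2 := ih y hy1 (by linarith) (by
      rw [pow_succ] at hXM
      have : 199 / 200 * Real.log X ≤ 199 / 200 * ((200 / 199) ^ n * (200 / 199) * Real.log M) :=
        mul_le_mul_of_nonneg_left hXM (by norm_num)
      refine hy2.trans (this.trans (le_of_eq ?_))
      ring) e he
    have h3 : σ ^ k ≤ S := by
      rw [hS, ha, one_div, inv_mul_eq_div, le_div_iff₀ hσ0, ← pow_succ]
      have e1 : σ ^ (k + 1) = Real.exp ((k + 1) * Real.log σ) := by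
        rw [← Real.rpow_natCast, Real.rpow_def_of_pos hσ0]
        push_cast
        congr 1
        ring
      rw [e1]
      apply Real.exp_le_exp.2
      have e2 : -(-Real.log σ / (30 * Real.log 2) * Real.log M) =
          Real.log M / (30 * Real.log 2) * Real.log σ := by ring
      rw [e2]
      apply mul_le_mul_of_nonpos_right _ hlσ.le
      refine le_trans ?_ hk2'.le
      exact div_le_div_of_nonneg_right hlX hl30.le
    have h4 : 16 * (k : ℝ) ^ 3 ≤ L ^ 3 := by
      have e1 : 20 * (k : ℝ) ≤ L := by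
        have e2 : (k : ℝ) * (30 * 0.6931) ≤ k * (30 * Real.log 2) :=
          mul_le_mul_of_nonneg_left (by linarith) (Nat.cast_nonneg _)
        have e3 : (0 : ℝ) ≤ k := Nat.cast_nonneg _
        linarith
      have e2 : (20 * (k : ℝ)) ^ 3 ≤ L ^ 3 := pow_le_pow_left₀ (by positivity) e1 3
      have e3 : (0 : ℝ) ≤ (k : ℝ) ^ 3 := by positivity
      have e4 : (20 * (k : ℝ)) ^ 3 = 8000 * (k : ℝ) ^ 3 := by ring
      linarith
    have hQn : 1 ≤ (2 * L ^ 3) ^ n := one_le_pow₀ hQ1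
    have hL3 : 1 ≤ L ^ 3 := one_le_pow₀ (by linarith)
    have h5 : X / y * F e M (γ * Real.log y) y ≤ X * (S * (2 * L ^ 3) ^ n) := by
      calc X / y * F e M (γ * Real.log y) y ≤ X / y * (y * (S * (2 * L ^ 3) ^ n)) :=
            mul_le_mul_of_nonneg_left h2 (by positivity)
        _ = X * (S * (2 * L ^ 3) ^ n) := by field_simp
    have h6 : 16 * (k : ℝ) ^ 3 * (X / y * F e M (γ * Real.log y) y) ≤
        L ^ 3 * (X * (S * (2 * L ^ 3) ^ n)) := by
      apply mul_le_mul h4 h5 _ (by positivity)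
      have := F_nonneg e M (γ * Real.log y) y
      positivity
    have h7 : X * σ ^ k ≤ X * S := mul_le_mul_of_nonneg_left h3 hX0.le
    have h8 : X * S * 1 ≤ X * S * (L ^ 3 * (2 * L ^ 3) ^ n) := by
      apply mul_le_mul_of_nonneg_left _ (by positivity)
      calc (1 : ℝ) = 1 * 1 := by norm_num
        _ ≤ L ^ 3 * (2 * L ^ 3) ^ n := mul_le_mul hL3 hQn (by norm_num) (by linarith)
    calc F e M (γ * Real.log X) X ≤ X * S + L ^ 3 * (X * (S * (2 * L ^ 3) ^ n)) := by linarith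
      _ ≤ X * S * (L ^ 3 * (2 * L ^ 3) ^ n) + L ^ 3 * (X * (S * (2 * L ^ 3) ^ n)) := by linarith
      _ = X * (S * (2 * L ^ 3) ^ (n + 1)) := by ring

end Pool.Agent.Collatz3.TP
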