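import Mathlib
import Pool.Agent.Collatz3.TPEarly

set_option autoImplicit false

/-!
Natural density Tao theorem with a power of `M`: the induction over the later scales.
-/

namespace Pool.Agent.Collatz3.TP

open Finset Filter
open Pool.Agent.Helper14 (T)
open Pool.Agent.Collatz3.Mix (words mem_words)
open Pool.Agent.Collatz3.PD
open Pool.Agent.Collatz3.FW hiding Num num_all handoff typical P_good_ge num_ev
open Pool.Agent.Collatz3.TN (Bd F F_le F_nonneg F_anti Bd_anti abs_eq_of_sign log_two_bds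
  log_three_bds Rate step)

/-- The induction over the scales, starting at `X₁`. -/
theorem induct {η : ℕ → ℝ} {I : ℕ → ℕ} (hR : Rate η I) {γ : ℝ} (hγ : 2 / Real.log (4 / 3) < γ)
    {R : ℝ → ℝ} (hR0 : ∀ x, 0 ≤ R x) (hRa : ∀ x y, 0 < x → x ≤ y → R y ≤ R x)
    (hRs : ∀ᶠ k : ℕ in atTop, ∀ x : ℝ, 30 * k * Real.log 2 ≤ x → x ≤ 30 * (k + 1) * Real.log 2 →
      R x + 8 * η k ≤ R (99 / 100 * x)) :
    ∃ K₀ : ℝ, 2 ≤ K₀ ∧ ∀ M : ℝ, 1 ≤ M → ∀ X₁ : ℝ, K₀ ≤ X₁ → ∀ S₀ : ℝ, 0 ≤ S₀ →
      (∀ e : ℤ, e = 1 ∨ e = -1 → ∀ Y : ℝ, 1 ≤ Y → Y < X₁ → F e M (γ * Real.log Y) Y ≤ Y * S₀) →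
      ∀ X : ℝ, 1 ≤ X → ∀ e : ℤ, e = 1 ∨ e = -1 →
      F e M (γ * Real.log X) X ≤ X * (S₀ + R (99 / 100 * Real.log X₁)) := by
  obtain ⟨k₀, hk₀, hstep⟩ := step hR hγ
  obtain ⟨k₁, hk₁⟩ := hRs.exists_forall_of_atTop
  obtain ⟨K, hK⟩ : ∃ K, K = max k₀ k₁ := ⟨_, rfl⟩
  have hK0 : k₀ ≤ K := by rw [hK]; exact le_max_left _ _
  have hK1 : k₁ ≤ K := by rw [hK]; exact le_max_right _ _
  obtain ⟨l2a, l2b⟩ := log_two_bds
  refine ⟨2 ^ (30 * K), ?_, ?_⟩
  · calc (2 : ℝ) = 2 ^ 1 := by norm_num
      _ ≤ 2 ^ (30 * K) := pow_le_pow_right₀ (by norm_num) (by omega)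
  intro M hM1 X₁ hX₁ S₀ hS₀ hsmall X hX e he
  have hX₁0 : (0 : ℝ) < X₁ := lt_of_lt_of_le (by positivity) hX₁
  obtain ⟨S, hS⟩ : ∃ S, S = R (99 / 100 * Real.log X₁) := ⟨_, rfl⟩
  rw [← hS]
  have hlM : 30 * K * Real.log 2 ≤ Real.log X₁ := by
    have := Real.log_le_log (by positivity) hX₁
    rw [Real.log_pow] at this
    push_cast at this
    exact this
  have hK1000 : (1000 : ℝ) ≤ K := by exact_mod_cast hk₀.trans hK0
  have hlM0 : 100 ≤ Real.log X₁ := by
    have h1 : 30 * K * 0.6931 ≤ 30 * K * Real.log 2 :=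
      mul_le_mul_of_nonneg_left l2a.le (by positivity)
    linarith
  have hS0 : 0 ≤ S := by rw [hS]; exact hR0 _
  have hmain : ∀ N : ℕ, ∀ Y : ℝ, 1 ≤ Y → Real.log Y ≤ N → X₁ ≤ Y →
      F e M (γ * Real.log Y) Y ≤ Y * (S₀ + S - R (Real.log Y)) := by
    intro N
    induction N with
    | zero =>
      intro Y hY1 hY2 hY3
      have h1 := Real.log_le_log hX₁0 hY3
      rw [Nat.cast_zero] at hY2
      linarith
    | succ N ih =>
      intro Y hY1 hY2 hY3
      have hY0 : (0 : ℝ) < Y := by linarith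
      have hlY := Real.log_le_log hX₁0 hY3
      -- the scale
      obtain ⟨k, hkd⟩ : ∃ k : ℕ, k = ⌊Real.log Y / (30 * Real.log 2)⌋₊ := ⟨_, rfl⟩
      have hl30 : 0 < 30 * Real.log 2 := by linarith
      have hk1 : (k : ℝ) ≤ Real.log Y / (30 * Real.log 2) := by
        rw [hkd]
        exact Nat.floor_le (div_nonneg (by linarith) hl30.le)
      have hk2 : Real.log Y / (30 * Real.log 2) < k + 1 := by
        rw [hkd]
        exact Nat.lt_floor_add_one _
      rw [le_div_iff₀ hl30] at hk1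
      rw [div_lt_iff₀ hl30] at hk2
      have hkK : K ≤ k := by
        rw [hkd]
        apply Nat.le_floor
        rw [le_div_iff₀ hl30]
        linarith
      have hY4 : (2 : ℝ) ^ (30 * k) ≤ Y := by
        rw [← Real.log_le_log_iff (by positivity) hY0, Real.log_pow]
        push_cast
        linarith
      have hY5 : Y < 2 ^ (30 * (k + 1)) := by
        rw [← Real.log_lt_log_iff hY0 (by positivity), Real.log_pow]
        push_cast
        linarith
      have hHS : S₀ ≤ S₀ + S - R (99 / 100 * Real.log Y) := by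
        have := hRa (99 / 100 * Real.log X₁) (99 / 100 * Real.log Y) (by linarith) (by linarith)
        rw [hS]
        linarith
      have hHnn : 0 ≤ S₀ + S - R (99 / 100 * Real.log Y) := hS₀.trans hHS
      have h1 := hstep k (hK0.trans hkK) Y hY4 hY5 e he M hM1
        (min (S₀ + S - R (99 / 100 * Real.log Y)) 1) (le_min hHnn zero_le_one) (min_le_right _ _) (by
          intro y hy1 hy2
          have h3 := F_le he M (γ * Real.log y) (by linarith : 0 ≤ y)
          rw [min_mul_of_nonneg _ _ (by linarith : 0 ≤ y), one_mul]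
          apply le_min
          · rcases lt_or_ge y X₁ with h | h
            · refine (hsmall e he y hy1 h).trans ?_
              rw [mul_comm]
              exact mul_le_mul_of_nonneg_right hHS (by linarith)
            · have h2 := ih y hy1 (by push_cast at hY2; linarith) h
              have h4 : R (99 / 100 * Real.log Y) ≤ R (Real.log y) :=
                hRa _ _ (lt_of_lt_of_le (by linarith) (Real.log_le_log hX₁0 h)) hy2
              refine h2.trans ?_
              rw [mul_comm]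
              exact mul_le_mul_of_nonneg_right (by linarith) (by linarith)
          · linarith)
      refine h1.trans ?_
      apply mul_le_mul_of_nonneg_left _ hY0.le
      have h2 := hk₁ k (hK1.trans hkK) (Real.log Y) (by linarith) (by linarith)
      have h3 := min_le_left (S₀ + S - R (99 / 100 * Real.log Y)) 1
      linarith
  rcases lt_or_ge X X₁ with h | h
  · refine (hsmall e he X hX h).trans ?_
    exact mul_le_mul_of_nonneg_left (by linarith) (by linarith)
  · obtain ⟨N, hN⟩ := exists_nat_ge (Real.log X)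
    refine (hmain N X hX hN h).trans ?_
    apply mul_le_mul_of_nonneg_left _ (by linarith)
    have := hR0 (Real.log X)
    linarith

end Pool.Agent.Collatz3.TP
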