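import Mathlib
import Pool.Agent.Collatz3.TPInd

set_option autoImplicit false

/-!
Natural density Tao theorem with a power of `M`.
-/

namespace Pool.Agent.Collatz3.TP

open Finset Filter
open Pool.Agent.Helper14 (T)
open Pool.Agent.Collatz3.Mix (words mem_words)
open Pool.Agent.Collatz3.PD
open Pool.Agent.Collatz3.FW hiding Num num_all handoff typical P_good_ge num_ev
open Pool.Agent.Collatz3.TN (Bd F F_le F_nonneg F_anti Bd_anti abs_eq_of_sign log_two_bds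
  log_three_bds Rate step Re Re_nonneg Re_anti Re_step rate_exp ncard_abs_le count_all)

/-- Elementary growth facts. -/
theorem growth {a c₁ : ℝ} (ha : 0 < a) (hc : 0 < c₁) : ∃ ℓ₀ : ℝ, 1 ≤ ℓ₀ ∧ ∀ ℓ : ℝ, ℓ₀ ≤ ℓ →
    ℓ ≤ Real.exp (c₁ * √ℓ) ∧ 143 * c₁ * √ℓ + 0.7 ≤ a / 4 * ℓ := by
  have h1 : Tendsto (fun x : ℝ => x ^ 2 * Real.exp (-(c₁ * x))) atTop (nhds 0) := by
    have h2 := Real.tendsto_pow_mul_exp_neg_atTop_nhds_zero 2
    have h3 : Tendsto (fun x : ℝ => c₁ * x) atTop atTop :=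
      tendsto_id.const_mul_atTop hc
    have h4 := h2.comp h3
    have h5 := h4.const_mul (1 / c₁ ^ 2)
    rw [mul_zero] at h5
    refine h5.congr fun x => ?_
    simp only [Function.comp_apply]
    field_simp
  have h2 : ∀ᶠ x : ℝ in atTop, x ^ 2 * Real.exp (-(c₁ * x)) < 1 :=
    h1.eventually_lt_const one_pos
  have h3 : ∀ᶠ x : ℝ in atTop, 143 * c₁ * x + 0.7 ≤ a / 4 * x ^ 2 := by
    filter_upwards [eventually_ge_atTop (4 / a * (143 * c₁ + 0.7)), eventually_ge_atTop (1 : ℝ)]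
      with x hx hx1
    have e1 : 143 * c₁ + 0.7 ≤ a / 4 * x := by
      have : a / 4 * (4 / a * (143 * c₁ + 0.7)) = 143 * c₁ + 0.7 := by field_simp
      rw [← this]
      exact mul_le_mul_of_nonneg_left hx (by positivity)
    have e2 : (143 * c₁ + 0.7) * x ≤ a / 4 * x * x := mul_le_mul_of_nonneg_right e1 (by linarith)
    nlinarith
  obtain ⟨x₀, hx₀⟩ := ((h2.and h3).and (eventually_ge_atTop (1 : ℝ))).exists_forall_of_atTop
  refine ⟨max 1 (x₀ ^ 2), le_max_left _ _, ?_⟩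
  intro ℓ hℓ
  have hℓ1 : 1 ≤ ℓ := (le_max_left _ _).trans hℓ
  have hℓ2 : x₀ ^ 2 ≤ ℓ := (le_max_right _ _).trans hℓ
  have h4 : x₀ ≤ √ℓ := Real.le_sqrt_of_sq_le hℓ2
  obtain ⟨⟨h5, h6⟩, h7⟩ := hx₀ (√ℓ) h4
  have h8 : √ℓ ^ 2 = ℓ := Real.sq_sqrt (by linarith)
  rw [h8] at h5 h6
  refine ⟨?_, h6⟩
  rw [Real.exp_neg, ← div_eq_mul_inv, div_lt_one (Real.exp_pos _)] at h5
  exact h5.le

theorem log_ratio : (1 : ℝ) / 200 ≤ Real.log (200 / 199) := by
  have h := Real.one_sub_inv_le_log_of_pos (show (0 : ℝ) < 200 / 199 by norm_num)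
  have h2 : (1 : ℝ) - (200 / 199)⁻¹ = 1 / 200 := by norm_num
  linarith

/-- The bound for the odd integers. -/
theorem main {γ : ℝ} (hγ : 2 / Real.log (4 / 3) < γ) : ∃ (c C M₀ : ℝ), 0 < c ∧ 0 < C ∧ 2 ≤ M₀ ∧
    ∀ M : ℝ, M₀ ≤ M → ∀ X : ℝ, 1 ≤ X → ∀ e : ℤ, e = 1 ∨ e = -1 →
      F e M (γ * Real.log X) X ≤ X * (C * Real.exp (-(c * Real.log M))) := by
  obtain ⟨a, A, K₀, ha, hA, hK₀, hearly⟩ := early hγ
  obtain ⟨K₁, hK₁, hind⟩ := induct rate_exp hγ Re_nonneg Re_anti Re_step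
  obtain ⟨c₁, hc₁⟩ : ∃ c₁ : ℝ, c₁ = min 1 (a / 2400) := ⟨_, rfl⟩
  have hc0 : 0 < c₁ := by rw [hc₁]; exact lt_min one_pos (by positivity)
  have hc1 : c₁ ≤ 1 := by rw [hc₁]; exact min_le_left _ _
  have hc2 : 600 * c₁ ≤ a / 4 := by
    have : c₁ ≤ a / 2400 := by rw [hc₁]; exact min_le_right _ _
    linarith
  obtain ⟨ℓ₀, hℓ₀, hgrowth⟩ := growth ha hc0
  obtain ⟨c, hc⟩ : ∃ c : ℝ, c = min (a / 2) (c₁ ^ 2 / 16000) := ⟨_, rfl⟩
  have hcpos : 0 < c := by rw [hc]; exact lt_min (by positivity) (by positivity)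
  have hca : c ≤ a / 2 := by rw [hc]; exact min_le_left _ _
  have hcb : c ≤ c₁ ^ 2 / 16000 := by rw [hc]; exact min_le_right _ _
  refine ⟨c, A + 8000000, max K₀ (max K₁ (Real.exp ℓ₀)), hcpos, by positivity,
    hK₀.trans (le_max_left _ _), ?_⟩
  intro M hM X hX e he
  have hMK₀ : K₀ ≤ M := (le_max_left _ _).trans hM
  have hMK₁ : K₁ ≤ M := (le_max_left _ _).trans ((le_max_right _ _).trans hM)
  have hMl : Real.exp ℓ₀ ≤ M := (le_max_right _ _).trans ((le_max_right _ _).trans hM)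
  have hM1 : 1 ≤ M := by linarith
  have hM0 : 0 < M := by linarith
  obtain ⟨ℓ, hℓ⟩ : ∃ ℓ, ℓ = Real.log M := ⟨_, rfl⟩
  have hℓℓ₀ : ℓ₀ ≤ ℓ := by
    rw [hℓ, Real.le_log_iff_exp_le hM0]
    exact hMl
  obtain ⟨g1, g2⟩ := hgrowth ℓ hℓℓ₀
  have hℓ0 : 0 < ℓ := by linarith
  have hs0 : 0 ≤ √ℓ := Real.sqrt_nonneg _
  have hss : √ℓ * √ℓ = ℓ := Real.mul_self_sqrt hℓ0.le
  obtain ⟨L, hL⟩ : ∃ L, L = Real.exp (c₁ * √ℓ) := ⟨_, rfl⟩
  rw [← hL] at g1
  have hL1 : 1 ≤ L := by linarith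
  obtain ⟨n, hn⟩ : ∃ n : ℕ, n = ⌈200 * (c₁ * √ℓ)⌉₊ := ⟨_, rfl⟩
  have hn1 : 200 * (c₁ * √ℓ) ≤ n := by rw [hn]; exact Nat.le_ceil _
  have hn2 : (n : ℝ) ≤ 200 * (c₁ * √ℓ) + 1 := by
    rw [hn]
    exact (Nat.ceil_lt_add_one (by positivity)).le
  have hS₀ : A * Real.exp (-(a * ℓ)) * (2 * L ^ 3) ^ n ≤ A * Real.exp (-(c * ℓ)) := by
    rw [mul_assoc]
    apply mul_le_mul_of_nonneg_left _ hA.le
    have e1 : 2 * L ^ 3 ≤ Real.exp (0.7 + 3 * (c₁ * √ℓ)) := by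
      rw [Real.exp_add]
      apply mul_le_mul _ _ (by positivity) (by positivity)
      · have := Real.add_one_le_exp (0.7 : ℝ)
        have h2 : Real.log 2 ≤ 0.7 := by
          have := log_two_bds.2
          linarith
        rwa [Real.log_le_iff_le_exp (by norm_num)] at h2
      · rw [hL, ← Real.exp_nat_mul]
        push_cast
        exact le_rfl
    have e2 : (2 * L ^ 3) ^ n ≤ Real.exp (n * (0.7 + 3 * (c₁ * √ℓ))) := by
      rw [Real.exp_nat_mul]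
      exact pow_le_pow_left₀ (by positivity) e1 _
    have e3 : (n : ℝ) * (0.7 + 3 * (c₁ * √ℓ)) ≤ a / 2 * ℓ := by
      have e4 : (n : ℝ) * (0.7 + 3 * (c₁ * √ℓ)) ≤
          (200 * (c₁ * √ℓ) + 1) * (0.7 + 3 * (c₁ * √ℓ)) :=
        mul_le_mul_of_nonneg_right hn2 (by positivity)
      have e5 : (200 * (c₁ * √ℓ) + 1) * (0.7 + 3 * (c₁ * √ℓ)) =
          600 * c₁ * c₁ * (√ℓ * √ℓ) + (143 * c₁ * √ℓ + 0.7) := by ring
      have e6 : 600 * c₁ * c₁ * (√ℓ * √ℓ) ≤ a / 4 * ℓ := by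
        rw [hss]
        apply mul_le_mul_of_nonneg_right _ hℓ0.le
        calc 600 * c₁ * c₁ ≤ 600 * c₁ * 1 :=
              mul_le_mul_of_nonneg_left hc1 (by positivity)
          _ ≤ a / 4 := by linarith
      linarith
    calc Real.exp (-(a * ℓ)) * (2 * L ^ 3) ^ n ≤ Real.exp (-(a * ℓ)) * Real.exp (a / 2 * ℓ) :=
          mul_le_mul_of_nonneg_left (e2.trans (Real.exp_le_exp.2 e3)) (Real.exp_pos _).le
      _ = Real.exp (-(a / 2 * ℓ)) := by
          rw [← Real.exp_add]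
          congr 1
          ring
      _ ≤ Real.exp (-(c * ℓ)) := by
          apply Real.exp_le_exp.2
          have := mul_le_mul_of_nonneg_right hca hℓ0.le
          linarith
  obtain ⟨X₁, hX₁⟩ : ∃ X₁, X₁ = Real.exp L := ⟨_, rfl⟩
  have hlX₁ : Real.log X₁ = L := by rw [hX₁, Real.log_exp]
  have hX₁K : K₁ ≤ X₁ := by
    refine hMK₁.trans ?_
    rw [hX₁, ← Real.log_le_iff_le_exp hM0, ← hℓ]
    exact g1
  have hpow : L ≤ (200 / 199 : ℝ) ^ n := by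
    rw [hL, ← Real.rpow_natCast, Real.rpow_def_of_pos (by norm_num)]
    apply Real.exp_le_exp.2
    have h1 : (1 : ℝ) / 200 * n ≤ Real.log (200 / 199) * n :=
      mul_le_mul_of_nonneg_right log_ratio (Nat.cast_nonneg _)
    linarith
  have h1 := hind M hM1 X₁ hX₁K (A * Real.exp (-(c * ℓ))) (by positivity) (by
    intro e he Y hY1 hY2
    have hlY : Real.log Y ≤ L := by
      rw [← hlX₁]
      exact Real.log_le_log (by linarith) hY2.le
    have h2 := hearly M hMK₀ L (by rw [← hℓ]; exact g1) n Y hY1 hlY (by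
      refine hlY.trans (hpow.trans ?_)
      rw [← hℓ]
      have : (0 : ℝ) ≤ (200 / 199) ^ n := by positivity
      nlinarith) e he
    rw [← hℓ] at h2
    exact h2.trans (mul_le_mul_of_nonneg_left hS₀ (by linarith))) X hX e he
  refine h1.trans ?_
  apply mul_le_mul_of_nonneg_left _ (by linarith)
  rw [hlX₁, ← hℓ]
  have h2 : Re (99 / 100 * L) ≤ 8000000 * Real.exp (-(c * ℓ)) := by
    unfold Re
    apply mul_le_mul_of_nonneg_left _ (by norm_num)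
    apply Real.exp_le_exp.2
    have h3 : c₁ * √ℓ ≤ 2 * Real.log (1 + 99 / 100 * L) := by
      have h4 : L ≤ (1 + 99 / 100 * L) ^ 2 := by nlinarith
      have h5 := Real.log_le_log (by linarith) h4
      rw [Real.log_pow] at h5
      push_cast at h5
      rw [hL, Real.log_exp] at h5
      rw [hL]
      exact h5
    have h4 : (c₁ * √ℓ) ^ 2 ≤ (2 * Real.log (1 + 99 / 100 * L)) ^ 2 :=
      pow_le_pow_left₀ (by positivity) h3 2
    have h5 : (c₁ * √ℓ) ^ 2 = c₁ ^ 2 * ℓ := by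
      rw [mul_pow, sq (√ℓ), hss]
    have h6 : (2 * Real.log (1 + 99 / 100 * L)) ^ 2 = 4 * Real.log (1 + 99 / 100 * L) ^ 2 := by
      ring
    have h7 := mul_le_mul_of_nonneg_right hcb hℓ0.le
    linarith
  linarith

/-- Natural density version, with a power of `M` and control of the time, of Tao's theorem. -/
theorem tao (ε : ℝ) (hε : 0 < ε) : ∃ c : ℝ, 0 < c ∧ ∃ C : ℝ, 0 < C ∧ ∀ M : ℝ, 1 ≤ M →
    ∀ X : ℝ, 1 ≤ X → (({n : ℤ | |(n : ℝ)| ≤ X ∧ ∀ j : ℕ,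
      (j : ℝ) ≤ (2 / Real.log (4 / 3) + ε) * Real.log X → M < |((T^[j] n : ℤ) : ℝ)|}.ncard : ℕ) : ℝ) ≤
      C * X * M ^ (-c) := by
  obtain ⟨c, C, M₀, hc, hC, hM₀, h⟩ := main (γ := 2 / Real.log (4 / 3) + ε) (by linarith)
  refine ⟨c, hc, 4 * C + 3 * M₀ ^ c, by positivity, ?_⟩
  intro M hM X hX
  have hM0 : 0 < M := by linarith
  have hMc : 0 < M ^ (-c) := Real.rpow_pos_of_pos hM0 _
  rcases lt_or_ge M M₀ with hMM | hMM
  · refine (ncard_abs_le hX _ fun n hn => hn.1).trans ?_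
    have h1 : 1 ≤ M₀ ^ c * M ^ (-c) := by
      rw [Real.rpow_neg hM0.le, ← div_eq_mul_inv, one_le_div (Real.rpow_pos_of_pos hM0 _)]
      exact Real.rpow_le_rpow hM0.le hMM.le hc.le
    have h2 : 0 ≤ C * X * M ^ (-c) := by positivity
    calc 3 * X = 3 * X * 1 := by ring
      _ ≤ 3 * X * (M₀ ^ c * M ^ (-c)) := mul_le_mul_of_nonneg_left h1 (by linarith)
      _ ≤ (4 * C + 3 * M₀ ^ c) * X * M ^ (-c) := by linarith
  · have h1 := count_all (γ := 2 / Real.log (4 / 3) + ε) (M := M)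
      (C := C * Real.exp (-(c * Real.log M))) (by linarith) hM0.le (by positivity)
      (h M hMM) X hX
    refine h1.trans ?_
    have h2 : Real.exp (-(c * Real.log M)) = M ^ (-c) := by
      rw [Real.rpow_def_of_pos hM0]
      congr 1
      ring
    rw [h2]
    have h3 : 0 ≤ 3 * M₀ ^ c * X * M ^ (-c) := by positivity
    linarith

end Pool.Agent.Collatz3.TP
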