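import Mathlib
import Pool.Agent.Collatz3.TPStep

set_option autoImplicit false

/-!
Uniform barrier: first passages below an arbitrary level.
-/

namespace Pool.Agent.Collatz3.UN

open Finset Filter
open Pool.Agent.Helper14 (T)
open Pool.Agent.Collatz3.Mix (words mem_words)
open Pool.Agent.Collatz3.PD
open Pool.Agent.Collatz3.FW hiding Num num_all handoff typical P_good_ge num_ev
open Pool.Agent.Collatz3.TN (Bd F F_le F_nonneg F_anti Bd_anti abs_eq_of_sign)
open Pool.Agent.Collatz3.TP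

theorem rd_single {x n : ℤ} {i : ℕ} (h : 2 ^ i * x = 3 * n + 1) : rd [i] x ∧ en [i] x = n := by
  have h1 : (2 : ℤ) ^ ([i] : List ℕ).sum * x - cw [i] = 3 ^ ([i] : List ℕ).length * n := by
    simp only [List.sum_cons, List.sum_nil, add_zero, cw, List.length_cons, List.length_nil]
    push_cast
    linarith
  constructor
  · unfold rd
    rw [h1]
    exact dvd_mul_right _ _
  · unfold en
    rw [h1]
    exact Int.mul_ediv_cancel_left _ (by positivity)

theorem odd_part {m : ℤ} (hm : m ≠ 0) : ∃ (a : ℕ) (o : ℤ), o % 2 = 1 ∧ m = 2 ^ a * o := by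
  obtain ⟨i, o, ho, hmo⟩ := Nat.exists_eq_pow_mul_and_not_dvd
    (Int.natAbs_ne_zero.2 hm) 2 (by decide)
  have h2 : (m.natAbs : ℤ) = 2 ^ i * (o : ℤ) := by
    rw [hmo]
    push_cast
    rfl
  rcases Int.natAbs_eq m with h3 | h3
  · exact ⟨i, o, by omega, by rw [h3, h2]⟩
  · exact ⟨i, -o, by omega, by rw [h3, h2]; ring⟩

theorem word_of_iter : ∀ (s : ℕ) (n : ℤ), n % 2 = 1 → T^[s] n % 2 = 1 →
    ∃ w : List ℕ, (∀ i ∈ w, 1 ≤ i) ∧ w.sum = s ∧ rd w (T^[s] n) ∧ en w (T^[s] n) = n := by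
  intro s
  induction s using Nat.strong_induction_on with
  | _ s ih =>
    intro n hn hs
    rcases Nat.eq_zero_or_pos s with h0 | h0
    · subst h0
      exact ⟨[], by simp, rfl, rd_nil _, en_nil _⟩
    obtain ⟨m, hm⟩ : ∃ m, m = T n := ⟨_, rfl⟩
    have hm2 : 2 * m = 3 * n + 1 := by
      rw [hm]
      unfold T
      rw [if_neg (by omega)]
      omega
    obtain ⟨a, o, ho, hmo⟩ := odd_part (m := m) (by rintro rfl; omega)
    have has : a + 1 ≤ s := by
      by_contra hcon
      push Not at hcon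
      obtain ⟨r, hr⟩ : ∃ r, s = r + 1 := ⟨s - 1, by omega⟩
      obtain ⟨q, hq⟩ : ∃ q, a = r + (q + 1) := ⟨a - r - 1, by omega⟩
      have e1 : m = 2 ^ r * (2 * (2 ^ q * o)) := by
        rw [hmo, hq, pow_add, pow_succ]
        ring
      rw [hr, Function.iterate_succ_apply, ← hm, e1, Pool.Agent.Helper14.T_iter_pow] at hs
      omega
    obtain ⟨r, hr⟩ := Nat.exists_eq_add_of_le has
    have hTo : T^[a + 1] n = o := by
      rw [Function.iterate_succ_apply, ← hm, hmo, Pool.Agent.Helper14.T_iter_pow]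
    have hTs : T^[s] n = T^[r] o := by
      rw [hr, add_comm, Function.iterate_add_apply, hTo]
    obtain ⟨w, hw1, hw2, hw3, hw4⟩ := ih r (by omega) o ho (by rw [← hTs]; exact hs)
    obtain ⟨g1, g2⟩ := rd_single (x := o) (n := n) (i := a + 1) (by
      rw [pow_succ]
      have : (2 : ℤ) ^ a * 2 * o = 2 * (2 ^ a * o) := by ring
      rw [this, ← hmo]
      exact hm2)
    refine ⟨w ++ [a + 1], ?_, ?_, ?_, ?_⟩
    · intro i hi
      rw [List.mem_append] at hi
      rcases hi with hi | hi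
      · exact hw1 i hi
      · rw [List.mem_singleton] at hi
        omega
    · rw [List.sum_append, hw2]
      simp
      omega
    · rw [rd_append, hTs]
      exact ⟨hw3, by rw [hw4]; exact g1⟩
    · rw [hTs, en_append hw3, hw4, g2]

theorem exists_first {y : ℝ} {L : ℕ} {n : ℤ} (hn : n % 2 = 1)
    (h : ∃ s ≤ L, T^[s] n % 2 = 1 ∧ |((T^[s] n : ℤ) : ℝ)| ≤ y) :
    ∃ (w : List ℕ) (b : ℤ), (∀ i ∈ w, 1 ≤ i) ∧ w.sum ≤ L ∧ b % 2 = 1 ∧ |(b : ℝ)| ≤ y ∧ rd w b ∧
      en w b = n ∧ Above y w b := by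
  classical
  have hex : ∃ s, T^[s] n % 2 = 1 ∧ |((T^[s] n : ℤ) : ℝ)| ≤ y := by
    obtain ⟨s, _, h1, h2⟩ := h
    exact ⟨s, h1, h2⟩
  obtain ⟨s, hsd⟩ : ∃ s, s = Nat.find hex := ⟨_, rfl⟩
  have hs := Nat.find_spec hex
  have hmin : ∀ r < s, ¬ (T^[r] n % 2 = 1 ∧ |((T^[r] n : ℤ) : ℝ)| ≤ y) := by
    intro r hr
    rw [hsd] at hr
    exact Nat.find_min hex hr
  rw [← hsd] at hs
  have hsL : s ≤ L := by
    obtain ⟨r, h1, h2, h3⟩ := h
    by_contra hcon
    push Not at hcon
    exact hmin r (by omega) ⟨h2, h3⟩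
  obtain ⟨w, hw1, hw2, hw3, hw4⟩ := word_of_iter s n hn hs.1
  refine ⟨w, T^[s] n, hw1, by omega, hs.1, hs.2, hw3, hw4, ?_⟩
  intro v u hvu hv
  obtain ⟨b, hb⟩ : ∃ b, b = T^[s] n := ⟨_, rfl⟩
  rw [← hb] at hw3 hw4 hs ⊢
  have hw3' := hw3
  rw [← hvu, rd_append] at hw3'
  have h1 : en u (en v b) = n := by rw [← en_append hw3'.1, hvu, hw4]
  have h2 := T_en hw3'.2 (fun i hi => hw1 i (by rw [← hvu]; exact List.mem_append_right _ hi))
  rw [h1] at h2
  have hpv : ∀ i ∈ v, 1 ≤ i := fun i hi => hw1 i (by rw [← hvu]; exact List.mem_append_left _ hi)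
  have h3 : u.sum < s := by
    rw [← hw2, ← hvu, List.sum_append]
    have : 0 < v.sum := by
      obtain ⟨i, hi⟩ := List.exists_mem_of_ne_nil v hv
      have e1 := hpv i hi
      have e2 := List.single_le_sum (l := v) (fun x _ => Nat.zero_le x) i hi
      omega
    omega
  have h4 : en v b % 2 = 1 := en_odd hw3'.1 hpv hs.1
  have h5 := hmin u.sum h3
  rw [h2] at h5
  by_contra hcon
  push Not at hcon
  exact h5 ⟨h4, hcon⟩

/-- From any iterate below `y` to an odd one. -/
theorem odd_iter {n : ℤ} (hn : n ≠ 0) {y : ℝ} {j : ℕ} (h : |((T^[j] n : ℤ) : ℝ)| ≤ y) {L : ℕ}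
    (hL : (j : ℝ) + Real.log y / Real.log 2 ≤ L) :
    ∃ s ≤ L, T^[s] n % 2 = 1 ∧ |((T^[s] n : ℤ) : ℝ)| ≤ y := by
  have hne : ∀ i : ℕ, T^[i] n ≠ 0 := by
    intro i
    induction i with
    | zero => exact hn
    | succ i ih =>
      rw [Function.iterate_succ_apply']
      obtain ⟨x, hx⟩ : ∃ x, x = T^[i] n := ⟨_, rfl⟩
      rw [← hx] at ih ⊢
      unfold T
      split_ifs with h2
      · omega
      · omega
  obtain ⟨a, o, ho, hao⟩ := odd_part (hne j)
  have ho0 : o ≠ 0 := by rintro rfl; norm_num at ho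
  have ho1 : (1 : ℝ) ≤ |(o : ℝ)| := by
    have : 1 ≤ |o| := Int.one_le_abs ho0
    exact_mod_cast this
  have habs : |((T^[j] n : ℤ) : ℝ)| = 2 ^ a * |(o : ℝ)| := by
    rw [hao]
    push_cast
    rw [abs_mul, abs_of_pos (by positivity : (0 : ℝ) < 2 ^ a)]
  have h2a : (1 : ℝ) ≤ 2 ^ a := one_le_pow₀ (by norm_num)
  have hoy : |(o : ℝ)| ≤ y := by
    rw [habs] at h
    nlinarith
  have h2y : (2 : ℝ) ^ a ≤ y := by
    rw [habs] at h
    nlinarith
  refine ⟨a + j, ?_, ?_, ?_⟩
  · have h3 := Real.log_le_log (by positivity) h2y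
    rw [Real.log_pow] at h3
    have h4 : (a : ℝ) ≤ Real.log y / Real.log 2 := by
      rw [le_div_iff₀ (Real.log_pos (by norm_num))]
      exact h3
    have h5 : ((a + j : ℕ) : ℝ) ≤ L := by
      push_cast
      linarith
    exact_mod_cast h5
  · rw [Function.iterate_add_apply, hao, Pool.Agent.Helper14.T_iter_pow]
    exact ho
  · rw [Function.iterate_add_apply, hao, Pool.Agent.Helper14.T_iter_pow]
    exact hoy

open Classical in
/-- The transfer from `X` to an arbitrary lower level `y`. -/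
theorem jump {e : ℤ} (he : e = 1 ∨ e = -1) {X y M t t' : ℝ} {L : ℕ} (hX : 0 ≤ X)
    (hy : 0 < y) (hL : (L : ℝ) ≤ y) (S : Set ℤ)
    (hS : ∀ n : ℤ, n ∈ Od e X → n ∉ S → n ∈ Bd M t →
      ∃ s ≤ L, T^[s] n % 2 = 1 ∧ |((T^[s] n : ℤ) : ℝ)| ≤ y)
    (ht : t' ≤ t - L) :
    F e M t X ≤ (((Od e X).filter fun n => n ∈ S).card : ℝ) +
      (L + 1) * (L + 1) * ((1 + X * (L / y)) * F e M t' y) := by
  obtain ⟨N, hN⟩ : ∃ N : ℕ → ℕ → ℤ → Finset ℤ, N = fun j s b => (Od e X).filter fun n =>
    ∃ w : List ℕ, w.length = j ∧ w.sum = s ∧ rd w b ∧ en w b = n ∧ Above y w b := ⟨_, rfl⟩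
  obtain ⟨B, hB⟩ : ∃ B : Finset ℤ, B = (Od e y).filter fun n => n ∈ Bd M t' := ⟨_, rfl⟩
  have hsub : ((Od e X).filter fun n => n ∈ Bd M t) ⊆
      ((Od e X).filter fun n => n ∈ S) ∪
        (range (L + 1)).biUnion fun j => (range (L + 1)).biUnion fun s =>
          B.biUnion fun b => N j s b := by
    intro n hn
    rw [mem_filter] at hn
    obtain ⟨hn1, hn2⟩ := hn
    rw [mem_union]
    by_cases hH : n ∈ S
    · left
      rw [mem_filter]
      exact ⟨hn1, hH⟩
    right
    have hnO := hn1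
    rw [mem_Od he] at hn1
    obtain ⟨g1, g2, g3⟩ := hn1
    obtain ⟨w, b, hpos, hsum, hodd, hby, hr, hen, ha⟩ := exists_first g1 (hS n hnO hH hn2)
    have hlen : w.length ≤ w.sum := by
      clear hsum hr hen ha
      induction w with
      | nil => simp
      | cons a w ih =>
        rw [List.length_cons, List.sum_cons]
        have h1 := hpos a List.mem_cons_self
        have h2 := ih (fun i hi => hpos i (List.mem_cons_of_mem _ hi))
        omega
    rw [mem_biUnion]
    refine ⟨w.length, mem_range.2 (by omega), ?_⟩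
    rw [mem_biUnion]
    refine ⟨w.sum, mem_range.2 (by omega), ?_⟩
    rw [mem_biUnion]
    refine ⟨b, ?_, ?_⟩
    · rw [hB, mem_filter, mem_Od he]
      have h1 : 0 < e * b := sign_key he hr hpos hodd (by rw [hen]; exact g2)
      refine ⟨⟨hodd, h1, ?_⟩, ?_⟩
      · rw [← abs_eq_of_sign he h1]
        exact hby
      · intro j hj
        have h2 := T_en hr hpos
        rw [hen] at h2
        rw [← h2, ← Function.iterate_add_apply]
        apply hn2
        have h3 : (w.sum : ℝ) ≤ L := by exact_mod_cast hsum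
        rw [Nat.cast_add]
        linarith
    · rw [hN]
      simp only [mem_filter]
      exact ⟨hnO, w, rfl, rfl, hr, hen, ha⟩
  have h1 := (card_le_card hsub).trans (card_union_le _ _)
  have hNc : ∀ j ∈ range (L + 1), ∀ s b, ((N j s b).card : ℝ) ≤ 1 + X * (L / y) := by
    intro j hj s b
    rw [mem_range] at hj
    have hjk : (j : ℝ) ≤ L := by exact_mod_cast (by omega : j ≤ L)
    refine (count_pass hX hy (hjk.trans hL) s b (N j s b) ?_).trans ?_
    · intro n hn
      rw [hN] at hn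
      simp only [mem_filter] at hn
      obtain ⟨hn1, hn2⟩ := hn
      rw [mem_Od he] at hn1
      obtain ⟨g1, g2, g3⟩ := hn1
      refine ⟨?_, hn2⟩
      rw [abs_eq_of_sign he g2]
      exact g3
    · have h2 : X * ((j : ℝ) / y) ≤ X * (L / y) :=
        mul_le_mul_of_nonneg_left (div_le_div_of_nonneg_right hjk hy.le) hX
      linarith
  have hB1 : ∀ j ∈ range (L + 1), ∀ s, ((B.biUnion fun b => N j s b).card : ℝ) ≤
      B.card * (1 + X * (L / y)) := by
    intro j hj s
    have h2 : ((B.biUnion fun b => N j s b).card : ℝ) ≤ ∑ b ∈ B, ((N j s b).card : ℝ) := by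
      exact_mod_cast card_biUnion_le
    refine h2.trans ?_
    rw [← nsmul_eq_mul]
    exact sum_le_card_nsmul _ _ _ fun b _ => hNc j hj s b
  have hS1 : ∀ j ∈ range (L + 1), (((range (L + 1)).biUnion fun s =>
      B.biUnion fun b => N j s b).card : ℝ) ≤ (L + 1) * (B.card * (1 + X * (L / y))) := by
    intro j hj
    have h2 : (((range (L + 1)).biUnion fun s => B.biUnion fun b => N j s b).card : ℝ) ≤
        ∑ s ∈ range (L + 1), ((B.biUnion fun b => N j s b).card : ℝ) := by
      exact_mod_cast card_biUnion_le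
    refine h2.trans ?_
    refine (sum_le_card_nsmul _ _ _ fun s _ => hB1 j hj s).trans (le_of_eq ?_)
    rw [card_range, nsmul_eq_mul]
    push_cast
    ring
  have hJ1 : (((range (L + 1)).biUnion fun j => (range (L + 1)).biUnion fun s =>
      B.biUnion fun b => N j s b).card : ℝ) ≤
      (L + 1) * ((L + 1) * (B.card * (1 + X * (L / y)))) := by
    have h2 : (((range (L + 1)).biUnion fun j => (range (L + 1)).biUnion fun s =>
        B.biUnion fun b => N j s b).card : ℝ) ≤
        ∑ j ∈ range (L + 1), (((range (L + 1)).biUnion fun s =>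
          B.biUnion fun b => N j s b).card : ℝ) := by
      exact_mod_cast card_biUnion_le
    refine h2.trans ?_
    refine (sum_le_card_nsmul _ _ _ fun j hj => hS1 j hj).trans (le_of_eq ?_)
    rw [card_range, nsmul_eq_mul]
    push_cast
    ring
  have h2 : F e M t X ≤ (((Od e X).filter fun n => n ∈ S).card : ℝ) +
      (((range (L + 1)).biUnion fun j => (range (L + 1)).biUnion fun s =>
      B.biUnion fun b => N j s b).card : ℝ) := by
    unfold F
    exact_mod_cast h1
  refine h2.trans ?_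
  have h3 : F e M t' y = B.card := by
    unfold F
    rw [hB]
  rw [h3]
  refine add_le_add le_rfl (hJ1.trans (le_of_eq ?_))
  ring

end Pool.Agent.Collatz3.UN
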