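import Mathlib
import Pool.Agent.Collatz3.TPFinal
import Pool.Agent.Collatz3.UNJump

set_option autoImplicit false

/-!
Uniform barrier: long jumps between the scales.
-/

namespace Pool.Agent.Collatz3.UN

open Finset Filter
open Pool.Agent.Helper14 (T)
open Pool.Agent.Collatz3.PD
open Pool.Agent.Collatz3.FW hiding Num num_all handoff typical P_good_ge num_ev
open Pool.Agent.Collatz3.TN (Bd F F_le F_nonneg F_anti Bd_anti abs_eq_of_sign log_two_bds
  log_three_bds)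
open Pool.Agent.Collatz3.TP

/-- A logarithm is smaller than a power. -/
theorem log_le_pow_ev (g : ℝ) {δ : ℝ} (hδ : 0 < δ) : ∃ X₀ : ℝ, 1 ≤ X₀ ∧ ∀ X : ℝ, X₀ ≤ X →
    g * Real.log X + 1 ≤ X ^ δ := by
  have h1 := isLittleO_log_rpow_atTop hδ
  have h2 : (fun X : ℝ => g * Real.log X) =o[atTop] fun X : ℝ => X ^ δ := h1.const_mul_left g
  have h3 := h2.bound (show (0 : ℝ) < 1 / 2 by norm_num)
  have h4 : ∀ᶠ X : ℝ in atTop, (2 : ℝ) ≤ X ^ δ :=
    (tendsto_rpow_atTop hδ).eventually_ge_atTop 2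
  obtain ⟨X₀, hX₀⟩ := (h3.and h4).exists_forall_of_atTop
  refine ⟨max 1 X₀, le_max_left _ _, fun X hX => ?_⟩
  obtain ⟨h5, h6⟩ := hX₀ X ((le_max_right _ _).trans hX)
  rw [Real.norm_eq_abs, Real.norm_eq_abs, abs_of_nonneg (by linarith : 0 ≤ X ^ δ)] at h5
  have := le_abs_self (g * Real.log X)
  linarith

open Classical in
/-- One long jump. -/
theorem long_jump {γ : ℝ} (hγ : 2 / Real.log (4 / 3) < γ) : ∃ c₂ : ℝ, 0 < c₂ ∧ ∃ C₂ : ℝ, 0 < C₂ ∧
    ∀ δ : ℝ, 0 < δ → δ ≤ 1 → δ * (γ + 1 / Real.log 2) ≤ (γ - 2 / Real.log (4 / 3)) / 4 →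
    ∃ X₀ : ℝ, 1 ≤ X₀ ∧ ∀ X : ℝ, X₀ ≤ X → ∀ B M : ℝ, ∀ e : ℤ, e = 1 ∨ e = -1 →
      F e M (γ * Real.log X + B) X ≤ X * (C₂ * Real.exp (-(c₂ * δ * Real.log X)) +
        (2 * γ * Real.log X) ^ 3 * (F e M (γ * Real.log (X ^ δ) + B) (X ^ δ) / X ^ δ)) := by
  obtain ⟨γ₀, hγ₀⟩ : ∃ γ₀ : ℝ, γ₀ = 2 / Real.log (4 / 3) := ⟨_, rfl⟩
  have l43p : 0 < Real.log (4 / 3) := Real.log_pos (by norm_num)
  have hγ₀p : 0 < γ₀ := by rw [hγ₀]; positivity
  obtain ⟨c₂, hc₂, C₂, hC₂, htao⟩ := TP.tao ((γ - γ₀) / 4) (by rw [hγ₀]; linarith)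
  rw [← hγ₀] at hγ htao ⊢
  refine ⟨c₂, hc₂, C₂, hC₂, ?_⟩
  intro δ hδ0 hδ1 hδ
  obtain ⟨X₁, hX₁, hlp⟩ := log_le_pow_ev γ hδ0
  have hl2 : 0 < Real.log 2 := Real.log_pos (by norm_num)
  refine ⟨max X₁ (max (Real.exp 1) (Real.exp (4 / (γ - γ₀)))), hX₁.trans (le_max_left _ _), ?_⟩
  intro X hX B M e he
  have hXX₁ : X₁ ≤ X := (le_max_left _ _).trans hX
  have hX1 : 1 ≤ X := hX₁.trans hXX₁
  have hX0 : 0 < X := by linarith
  have hl1 : 1 ≤ Real.log X := by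
    rw [Real.le_log_iff_exp_le hX0]
    exact (le_max_left _ _).trans ((le_max_right _ _).trans hX)
  have hl4 : 4 / (γ - γ₀) ≤ Real.log X := by
    rw [Real.le_log_iff_exp_le hX0]
    exact (le_max_right _ _).trans ((le_max_right _ _).trans hX)
  have hl4' : 1 ≤ (γ - γ₀) / 4 * Real.log X := by
    rw [div_le_iff₀ (by linarith)] at hl4
    linarith
  obtain ⟨y, hy⟩ : ∃ y : ℝ, y = X ^ δ := ⟨_, rfl⟩
  rw [← hy]
  have hy1 : 1 ≤ y := by rw [hy]; exact Real.one_le_rpow hX1 hδ0.le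
  have hy0 : 0 < y := by linarith
  have hyX : y ≤ X := by
    rw [hy]
    calc X ^ δ ≤ X ^ (1 : ℝ) := Real.rpow_le_rpow_of_exponent_le hX1 hδ1
      _ = X := Real.rpow_one X
  have hly : Real.log y = δ * Real.log X := by rw [hy, Real.log_rpow hX0]
  obtain ⟨L, hL⟩ : ∃ L : ℕ, L = ⌈(γ₀ + (γ - γ₀) / 4) * Real.log X + Real.log y / Real.log 2⌉₊ :=
    ⟨_, rfl⟩
  have hL1 : (γ₀ + (γ - γ₀) / 4) * Real.log X + Real.log y / Real.log 2 ≤ L := by
    rw [hL]; exact Nat.le_ceil _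
  have hL2 : (L : ℝ) ≤ γ * Real.log X - γ * Real.log y := by
    have h1 : (L : ℝ) < (γ₀ + (γ - γ₀) / 4) * Real.log X + Real.log y / Real.log 2 + 1 := by
      rw [hL]
      apply Nat.ceil_lt_add_one
      rw [hly]
      have : 0 ≤ γ₀ + (γ - γ₀) / 4 := by linarith
      positivity
    have h2 : δ * (γ + 1 / Real.log 2) * Real.log X ≤ (γ - γ₀) / 4 * Real.log X :=
      mul_le_mul_of_nonneg_right hδ (by linarith)
    have h3 : δ * (γ + 1 / Real.log 2) * Real.log X =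
        γ * (δ * Real.log X) + δ * Real.log X / Real.log 2 := by
      field_simp
    rw [h3] at h2
    rw [hly] at h1 ⊢
    linarith
  have hlyn : 0 ≤ Real.log y := Real.log_nonneg hy1
  have hγ0 : 0 < γ := by linarith
  have hγl : 0 ≤ γ * Real.log y := by positivity
  have hLy : (L : ℝ) ≤ y := by
    have h1 := hlp X hXX₁
    rw [← hy] at h1
    linarith
  obtain ⟨S, hS⟩ : ∃ S : Set ℤ, S = {n : ℤ | ∀ j : ℕ,
      (j : ℝ) ≤ (γ₀ + (γ - γ₀) / 4) * Real.log X → y < |((T^[j] n : ℤ) : ℝ)|} := ⟨_, rfl⟩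
  have h1 := jump he (M := M) (t := γ * Real.log X + B) (t' := γ * Real.log y + B) (L := L)
    hX0.le hy0 hLy S (by
      intro n hn hnS _
      rw [hS] at hnS
      simp only [Set.mem_setOf_eq] at hnS
      push Not at hnS
      obtain ⟨j, hj1, hj2⟩ := hnS
      have hn0 : n ≠ 0 := by
        rintro rfl
        rw [mem_Od he] at hn
        norm_num at hn
      refine odd_iter hn0 hj2 ?_
      linarith) (by linarith)
  have h2 : (((Od e X).filter fun n => n ∈ S).card : ℝ) ≤ X * (C₂ * Real.exp (-(c₂ * δ * Real.log X))) := by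
    have h3 := htao y hy1 X hX1
    have hfin : {n : ℤ | |(n : ℝ)| ≤ X ∧ ∀ j : ℕ,
        (j : ℝ) ≤ (γ₀ + (γ - γ₀) / 4) * Real.log X → y < |((T^[j] n : ℤ) : ℝ)|}.Finite :=
      (Pool.Agent.Helper14.abs_le_finite X).subset fun _ h => h.1
    have hsub : (((Od e X).filter fun n => n ∈ S : Finset ℤ) : Set ℤ) ⊆
        {n : ℤ | |(n : ℝ)| ≤ X ∧ ∀ j : ℕ,
        (j : ℝ) ≤ (γ₀ + (γ - γ₀) / 4) * Real.log X → y < |((T^[j] n : ℤ) : ℝ)|} := by
      intro n hn
      rw [mem_coe, mem_filter, mem_Od he, hS] at hn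
      obtain ⟨⟨g1, g2, g3⟩, g4⟩ := hn
      refine ⟨?_, g4⟩
      rw [abs_eq_of_sign he g2]
      exact g3
    have h4 := Set.ncard_le_ncard hsub hfin
    rw [Set.ncard_coe_finset] at h4
    have h5 : (((Od e X).filter fun n => n ∈ S).card : ℝ) ≤ C₂ * X * y ^ (-c₂) :=
      (by exact_mod_cast h4 : (((Od e X).filter fun n => n ∈ S).card : ℝ) ≤ _).trans h3
    refine h5.trans (le_of_eq ?_)
    rw [Real.rpow_def_of_pos hy0, hly]
    have : δ * Real.log X * -c₂ = -(c₂ * δ * Real.log X) := by ring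
    rw [this]
    ring
  have hF := F_nonneg e M (γ * Real.log y + B) y
  have hL0 : (0 : ℝ) ≤ L := Nat.cast_nonneg _
  have h3 : ((L : ℝ) + 1) * (L + 1) * ((1 + X * (L / y)) * F e M (γ * Real.log y + B) y) ≤
      X * ((2 * γ * Real.log X) ^ 3 * (F e M (γ * Real.log y + B) y / y)) := by
    have e1 : 1 + X * (L / y) ≤ (L + 1) * (X / y) := by
      have : 1 ≤ X / y := by rw [one_le_div hy0]; exact hyX
      have e2 : X * ((L : ℝ) / y) = L * (X / y) := by ring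
      rw [e2]
      linarith
    have hγ6 : 1 ≤ γ * Real.log X := by
      have h43 : Real.log (4 / 3) ≤ 1 / 3 := by
        have := Real.log_le_sub_one_of_pos (show (0 : ℝ) < 4 / 3 by norm_num)
        linarith
      have h6 : 6 ≤ γ₀ := by
        rw [hγ₀, le_div_iff₀ l43p]
        linarith
      nlinarith
    have e3 : (L : ℝ) + 1 ≤ 2 * γ * Real.log X := by linarith
    have e4 : ((L : ℝ) + 1) ^ 3 ≤ (2 * γ * Real.log X) ^ 3 :=
      pow_le_pow_left₀ (by positivity) e3 3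
    calc ((L : ℝ) + 1) * (L + 1) * ((1 + X * (L / y)) * F e M (γ * Real.log y + B) y)
        ≤ ((L : ℝ) + 1) * (L + 1) * (((L + 1) * (X / y)) * F e M (γ * Real.log y + B) y) := by
          apply mul_le_mul_of_nonneg_left _ (by positivity)
          exact mul_le_mul_of_nonneg_right e1 hF
      _ = ((L : ℝ) + 1) ^ 3 * (X * (F e M (γ * Real.log y + B) y / y)) := by ring
      _ ≤ (2 * γ * Real.log X) ^ 3 * (X * (F e M (γ * Real.log y + B) y / y)) := by
          apply mul_le_mul_of_nonneg_right e4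
          positivity
      _ = X * ((2 * γ * Real.log X) ^ 3 * (F e M (γ * Real.log y + B) y / y)) := by ring
  rw [mul_add]
  exact h1.trans (add_le_add h2 h3)

/-- The chain of long jumps. -/
theorem chain {γ c₂ C₂ δ X₀ : ℝ} (hγ : 1 ≤ γ) (hC₂ : 0 < C₂) (hδ0 : 0 < δ) (hδ1 : δ < 1)
    (hstep : ∀ X : ℝ, X₀ ≤ X → ∀ B M : ℝ, ∀ e : ℤ, e = 1 ∨ e = -1 →
      F e M (γ * Real.log X + B) X ≤ X * (C₂ * Real.exp (-(c₂ * δ * Real.log X)) +
        (2 * γ * Real.log X) ^ 3 * (F e M (γ * Real.log (X ^ δ) + B) (X ^ δ) / X ^ δ)))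
    {κ A C₁ : ℝ} (hA : 1 ≤ A) (hC₁ : 0 < C₁) (hAκ : κ ≤ c₂ * δ * A) (hcδ : 0 < c₂)
    {M B : ℝ} (hM : 1 < M) (hMX : X₀ ≤ M)
    (hbase : ∀ X : ℝ, 1 ≤ X → Real.log X ≤ A * Real.log M →
      ∀ e : ℤ, e = 1 ∨ e = -1 → F e M B X ≤ X * (C₁ * Real.exp (-(κ * Real.log M))))
    {Λ : ℝ} (hΛ : 1 ≤ Λ) :
    ∀ r : ℕ, ∀ X : ℝ, 1 ≤ X → Real.log X ≤ Λ → Real.log X ≤ (1 / δ) ^ r * (A * Real.log M) →
      ∀ e : ℤ, e = 1 ∨ e = -1 → F e M (γ * Real.log X + B) X ≤
        X * ((C₁ + C₂) * Real.exp (-(κ * Real.log M)) * (2 * (2 * γ * Λ) ^ 3) ^ r) := by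
  obtain ⟨S, hS⟩ : ∃ S : ℝ, S = (C₁ + C₂) * Real.exp (-(κ * Real.log M)) := ⟨_, rfl⟩
  rw [← hS]
  have hS0 : 0 < S := by rw [hS]; positivity
  have hlM : 0 < Real.log M := Real.log_pos hM
  have hq : 1 ≤ (2 * γ * Λ) ^ 3 := by
    apply one_le_pow₀
    nlinarith
  have hQ : 1 ≤ 2 * (2 * γ * Λ) ^ 3 := by linarith
  have hsm : ∀ r : ℕ, ∀ X : ℝ, 1 ≤ X → Real.log X ≤ A * Real.log M →
      ∀ e : ℤ, e = 1 ∨ e = -1 → F e M (γ * Real.log X + B) X ≤
        X * (S * (2 * (2 * γ * Λ) ^ 3) ^ r) := by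
    intro r X hX hXA e he
    have h1 : F e M (γ * Real.log X + B) X ≤ F e M B X :=
      F_anti e (by
        have : 0 ≤ γ * Real.log X := mul_nonneg (by linarith) (Real.log_nonneg hX)
        linarith) X
    refine h1.trans ((hbase X hX hXA e he).trans ?_)
    apply mul_le_mul_of_nonneg_left _ (by linarith)
    calc C₁ * Real.exp (-(κ * Real.log M)) ≤ S := by
          rw [hS]
          exact mul_le_mul_of_nonneg_right (by linarith) (Real.exp_pos _).le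
      _ = S * 1 := (mul_one S).symm
      _ ≤ S * (2 * (2 * γ * Λ) ^ 3) ^ r :=
          mul_le_mul_of_nonneg_left (one_le_pow₀ hQ) hS0.le
  intro r
  induction r with
  | zero =>
    intro X hX hXΛ hXA e he
    rw [pow_zero, one_mul] at hXA
    exact hsm 0 X hX hXA e he
  | succ r ih =>
    intro X hX hXΛ hXA e he
    rcases le_or_gt (Real.log X) (A * Real.log M) with h | h
    · exact hsm (r + 1) X hX h e he
    have hX0 : 0 < X := by linarith
    have hMX' : M ≤ X := by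
      rw [← Real.log_le_log_iff (by linarith) hX0]
      nlinarith
    have h1 := hstep X (hMX.trans hMX') B M e he
    obtain ⟨y, hy⟩ : ∃ y : ℝ, y = X ^ δ := ⟨_, rfl⟩
    rw [← hy] at h1
    have hy1 : 1 ≤ y := by rw [hy]; exact Real.one_le_rpow hX hδ0.le
    have hy0 : 0 < y := by linarith
    have hly : Real.log y = δ * Real.log X := by rw [hy, Real.log_rpow hX0]
    have hlX : 0 ≤ Real.log X := Real.log_nonneg hX
    have h2 := ih y hy1 (by rw [hly]; nlinarith) (by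
      rw [hly]
      have e1 : δ * Real.log X ≤ δ * ((1 / δ) ^ (r + 1) * (A * Real.log M)) :=
        mul_le_mul_of_nonneg_left hXA hδ0.le
      refine e1.trans (le_of_eq ?_)
      rw [pow_succ]
      field_simp) e he
    have h3 : F e M (γ * Real.log y + B) y / y ≤ S * (2 * (2 * γ * Λ) ^ 3) ^ r := by
      rw [div_le_iff₀ hy0]
      linarith
    have h4 : (2 * γ * Real.log X) ^ 3 ≤ (2 * γ * Λ) ^ 3 := by
      apply pow_le_pow_left₀ (by positivity)
      exact mul_le_mul_of_nonneg_left hXΛ (by linarith)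
    have h5 : C₂ * Real.exp (-(c₂ * δ * Real.log X)) ≤ S := by
      rw [hS]
      apply mul_le_mul (by linarith) _ (Real.exp_pos _).le (by linarith)
      apply Real.exp_le_exp.2
      have e1 : c₂ * δ * (A * Real.log M) ≤ c₂ * δ * Real.log X :=
        mul_le_mul_of_nonneg_left h.le (by positivity)
      have e2 : κ * Real.log M ≤ c₂ * δ * A * Real.log M :=
        mul_le_mul_of_nonneg_right hAκ hlM.le
      linarith
    have hF := F_nonneg e M (γ * Real.log y + B) y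
    refine h1.trans (mul_le_mul_of_nonneg_left ?_ hX0.le)
    have h6 : (2 * γ * Real.log X) ^ 3 * (F e M (γ * Real.log y + B) y / y) ≤
        (2 * γ * Λ) ^ 3 * (S * (2 * (2 * γ * Λ) ^ 3) ^ r) :=
      mul_le_mul h4 h3 (by positivity) (by positivity)
    have h7 : S ≤ (2 * γ * Λ) ^ 3 * (S * (2 * (2 * γ * Λ) ^ 3) ^ r) := by
      calc S = 1 * (S * 1) := by ring
        _ ≤ (2 * γ * Λ) ^ 3 * (S * (2 * (2 * γ * Λ) ^ 3) ^ r) := by
          apply mul_le_mul hq _ (by positivity) (by positivity)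
          exact mul_le_mul_of_nonneg_left (one_le_pow₀ hQ) hS0.le
    calc C₂ * Real.exp (-(c₂ * δ * Real.log X)) +
          (2 * γ * Real.log X) ^ 3 * (F e M (γ * Real.log y + B) y / y)
        ≤ (2 * γ * Λ) ^ 3 * (S * (2 * (2 * γ * Λ) ^ 3) ^ r) +
          (2 * γ * Λ) ^ 3 * (S * (2 * (2 * γ * Λ) ^ 3) ^ r) := add_le_add (h5.trans h7) h6
      _ = S * (2 * (2 * γ * Λ) ^ 3) ^ (r + 1) := by ring

end Pool.Agent.Collatz3.UN
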