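import Pool.Agent.Collatz3.PBDesc

set_option autoImplicit false

/-!
PowerBarrier: the descent within a limited time.
-/

open Finset
open scoped Classical

namespace Pool.Agent.Collatz3.PB

open Pool.Agent.Helper14 (T)

/-- descent within a limited time -/
theorem descent_t {κ : ℝ} (hκ : 0 < κ) (hκ' : κ < 1 / 2) (i₀ : ℕ) (n : ℤ) (h1 : 1 ≤ i₀)
    (hn : 2 ^ (i₀ - 1) ≤ |n|) (hn' : |n| < 2 ^ i₀)
    (h : ∀ t : ℕ, (t : ℝ) ≤ 4 / κ * i₀ → (2 : ℝ) ^ (4 / κ) ≤ |((T^[t] n : ℤ) : ℝ)|) :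
    ∃ i t : ℕ, 1 ≤ i ∧ i ≤ i₀ ∧ (t : ℝ) ≤ 4 / κ * i₀ ∧ T^[t] n ∈ Bad κ i ∧
      ∀ s < t, |T^[t] n| < |T^[s] n| := by
  induction i₀ using Nat.strong_induction_on generalizing n with
  | _ i₀ ih =>
  by_cases hb : n ∈ Bad κ i₀
  · refine ⟨i₀, 0, h1, le_rfl, ?_, by simpa using hb, fun s hs => absurd hs (Nat.not_lt_zero s)⟩
    have h9 : (0 : ℝ) ≤ 4 / κ * i₀ := by positivity
    simpa using h9
  · have hex : ∃ t : ℕ, t ≤ 2 * i₀ ∧ |((T^[t] n : ℤ) : ℝ)| < (2 : ℝ) ^ ((1 - κ) * i₀) := by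
      by_contra hcon
      push Not at hcon
      exact hb ⟨hn, hn', hcon⟩
    set t1 := Nat.find hex with ht1
    have ht1s := Nat.find_spec hex
    rw [← ht1] at ht1s
    obtain ⟨ht1a, ht1b⟩ := ht1s
    have hmin : ∀ s < t1, (2 : ℝ) ^ ((1 - κ) * i₀) ≤ |((T^[s] n : ℤ) : ℝ)| := by
      intro s hs
      by_contra hcon
      push Not at hcon
      exact Nat.find_min hex hs ⟨by omega, hcon⟩
    -- size of `i₀`
    have hi0 : 4 / κ < i₀ := by
      have h2 : (2 : ℝ) ^ (4 / κ) < (2 : ℝ) ^ (i₀ : ℝ) := by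
        have h3 := h 0 (by push_cast; positivity)
        have h4 : |((T^[0] n : ℤ) : ℝ)| < (2 : ℝ) ^ (i₀ : ℝ) := by
          rw [Real.rpow_natCast]
          simp only [Function.iterate_zero, id_eq]
          exact_mod_cast hn'
        exact lt_of_le_of_lt h3 h4
      exact (Real.rpow_lt_rpow_left_iff (by norm_num)).1 h2
    have hκi : 4 < κ * i₀ := by
      rw [div_lt_iff₀ hκ] at hi0
      linarith
    -- the new starting point
    set n1 := T^[t1] n with hn1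
    have h5 : (t1 : ℝ) ≤ 2 * i₀ := by exact_mod_cast ht1a
    have hκ4 : (2 : ℝ) ≤ 4 / κ := by
      rw [le_div_iff₀ hκ]
      linarith
    have hi00 : (0 : ℝ) ≤ i₀ := by positivity
    have hn1one : 1 ≤ |n1| := by
      have h3 := h t1 (by nlinarith)
      have h4 : (1 : ℝ) ≤ (2 : ℝ) ^ (4 / κ) := Real.one_le_rpow (by norm_num) (by positivity)
      have h5 : (1 : ℝ) ≤ |((n1 : ℤ) : ℝ)| := le_trans h4 h3
      exact_mod_cast h5
    obtain ⟨i', hi'1, hi'2, hi'3⟩ := exists_dyadic n1 hn1one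
    have hi'lt : ((i' : ℝ) - 1) < (1 - κ) * i₀ := by
      have h2 : (2 : ℝ) ^ ((i' : ℝ) - 1) < (2 : ℝ) ^ ((1 - κ) * i₀) := by
        have h3 : (2 : ℝ) ^ ((i' : ℝ) - 1) ≤ |((n1 : ℤ) : ℝ)| := by
          have h4 : (2 : ℝ) ^ ((i' : ℝ) - 1) = (2 : ℝ) ^ (i' - 1 : ℕ) := by
            rw [← Real.rpow_natCast]
            congr 1
            push_cast [Nat.cast_sub hi'1]
            ring
          rw [h4]
          exact_mod_cast hi'2
        exact lt_of_le_of_lt h3 ht1b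
      exact (Real.rpow_lt_rpow_left_iff (by norm_num)).1 h2
    have hi'0 : (i' : ℝ) ≤ (1 - κ / 2) * i₀ := by nlinarith
    have h6 : (4 / κ) * (i' : ℝ) ≤ (4 / κ) * ((1 - κ / 2) * i₀) :=
      mul_le_mul_of_nonneg_left hi'0 (by positivity)
    have h7 : (4 / κ) * ((1 - κ / 2) * (i₀ : ℝ)) = 4 / κ * i₀ - 2 * i₀ := by
      field_simp
      ring
    have hn1h : ∀ t : ℕ, (t : ℝ) ≤ 4 / κ * i' → (2 : ℝ) ^ (4 / κ) ≤ |((T^[t] n1 : ℤ) : ℝ)| := by
      intro t ht
      have := h (t + t1) (by push_cast; linarith)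
      rwa [Function.iterate_add_apply] at this
    have hi'lt0 : i' < i₀ := by
      have : (i' : ℝ) < i₀ := by nlinarith
      exact_mod_cast this
    obtain ⟨i, t', hi1, hi2, ht', hbad, hs⟩ := ih i' hi'lt0 n1 hi'1 hi'2 hi'3 hn1h
    have hitT : T^[t' + t1] n = T^[t'] n1 := Function.iterate_add_apply T t' t1 n
    refine ⟨i, t' + t1, hi1, by omega, ?_, ?_, ?_⟩
    · push_cast
      linarith
    · rw [hitT]
      exact hbad
    · intro s hst
      rw [hitT]
      by_cases hst1 : s < t1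
      · have h8 : |((T^[t'] n1 : ℤ) : ℝ)| ≤ |((n1 : ℤ) : ℝ)| := by
          rcases Nat.eq_zero_or_pos t' with h0 | h0
          · rw [h0]
            simp
          · have := hs 0 h0
            simp only [Function.iterate_zero, id_eq] at this
            exact_mod_cast this.le
        have h9 : |((T^[t'] n1 : ℤ) : ℝ)| < |((T^[s] n : ℤ) : ℝ)| :=
          lt_of_le_of_lt h8 (lt_of_lt_of_le ht1b (hmin s hst1))
        exact_mod_cast h9
      · obtain ⟨s', rfl⟩ : ∃ s', s = s' + t1 := ⟨s - t1, by omega⟩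
        rw [Function.iterate_add_apply T s' t1 n]
        exact hs s' (by omega)

end Pool.Agent.Collatz3.PB
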