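import Pool.Agent.Collatz3.DigitD

set_option autoImplicit false

/-!
The digit lemma with level dependent errors.
-/

open Finset Real
open scoped Classical

namespace Pool.Agent.Collatz3.LT

theorem digit_avg (e1 : ℝ) (he1 : 0 < e1) : ∃ K1 : ℝ, 0 ≤ K1 ∧ ∀ d : ℕ, ∃ K2 : ℝ, 0 ≤ K2 ∧
  ∀ {Ω γ : Type} (s : Finset Ω) (p : Ω → ℝ) (_ : ∀ ω ∈ s, 0 ≤ p ω) (_ : ∑ ω ∈ s, p ω ≤ 1)
    (k : ℕ) (U b : Ω → ℤ) (c : Ω → γ) (_ : ∀ ω ∈ s, 0 ≤ U ω ∧ U ω < 3 ^ k)
    (good : ℕ → ℤ → Set ℤ)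
    (_ : ∀ l x, 2 * ((Finset.range (3 ^ d)).filter fun u : ℕ => (u : ℤ) ∈ good l x).card ≤ 3 ^ d)
    (δ : ℕ → ℝ)
    (_ : ∀ l < k, ∑ ω ∈ s with (b ω / 3 ^ l % 3 ^ d) ∉ good l (b ω % 3 ^ l), p ω ≤ δ l),
    cH s p U c ≤ k * e1 + K1 * ∑ l ∈ range k, δ l
      + K2 * ((cH s p U c - cH s p U (fun ω => (b ω % 3 ^ (k + d), c ω)))
            + (cH s p U c - cH s p U (fun ω => ((U ω + b ω) % 3 ^ (k + d), c ω)))) := by
  refine ⟨12 / e1 + 2, by positivity, fun d => ?_⟩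
  rcases Nat.eq_zero_or_pos d with hd | hd
  · subst hd
    refine ⟨0, le_rfl, ?_⟩
    intro Ω γ s p hp hp1 k U b c hU good hgood δ hδ
    rw [zero_mul, add_zero]
    refine (digit_zero hp k U c hU).trans ?_
    have h1 : ∀ l < k, ∑ ω ∈ s, p ω ≤ δ l := by
      intro l hl
      refine le_trans (le_of_eq ?_) (hδ l hl)
      refine sum_congr ?_ fun _ _ => rfl
      ext ω
      rw [mem_filter]
      refine ⟨fun h => ⟨h, ?_⟩, fun h => h.1⟩
      have hg := hgood l (b ω % 3 ^ l)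
      intro hcon
      have : 0 ∈ (range (3 ^ 0)).filter fun u : ℕ => (u : ℤ) ∈ good l (b ω % 3 ^ l) := by
        rw [mem_filter]
        refine ⟨by simp, ?_⟩
        have e : b ω / 3 ^ l % 3 ^ 0 = ((0 : ℕ) : ℤ) := by simp
        rw [← e]
        exact hcon
      have h2 := card_pos.2 ⟨0, this⟩
      rw [pow_zero] at hg h2
      omega
    have h0 : 0 ≤ ∑ ω ∈ s, p ω := sum_nonneg hp
    have hl : Real.log 3 ≤ 2 := by
      have := Real.log_le_sub_one_of_pos (show (0 : ℝ) < 3 by norm_num)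
      linarith
    have hl0 : 0 ≤ Real.log 3 := Real.log_nonneg (by norm_num)
    have hk0 : (0 : ℝ) ≤ k := by positivity
    have h12 : 0 ≤ 12 / e1 := by positivity
    have hS : (k : ℝ) * ∑ ω ∈ s, p ω ≤ ∑ l ∈ range k, δ l := by
      have := sum_le_sum fun l (hl : l ∈ range k) => h1 l (mem_range.1 hl)
      rwa [sum_const, card_range, nsmul_eq_mul] at this
    have hS0 : 0 ≤ ∑ l ∈ range k, δ l := le_trans (mul_nonneg hk0 h0) hS
    calc (∑ ω ∈ s, p ω) * (k * Real.log 3) = (k * ∑ ω ∈ s, p ω) * Real.log 3 := by ring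
      _ ≤ (∑ l ∈ range k, δ l) * 2 := mul_le_mul hS hl hl0 hS0
      _ ≤ k * e1 + (12 / e1 + 2) * ∑ l ∈ range k, δ l := by
          have := mul_nonneg h12 hS0
          have := mul_nonneg hk0 he1.le
          nlinarith
  · refine ⟨1 + (24 * (3 : ℝ) ^ d / e1) ^ 2 / e1 * d, by positivity, ?_⟩
    intro Ω γ s p hp hp1 k U b c hU good hgood δ hδ
    set C : ℝ := (24 * (3 : ℝ) ^ d / e1) ^ 2 / e1 with hC
    have hC0 : 0 ≤ C := by positivity
    set f : ℕ → ℝ := fun l => cH s p U c - cH s p U (fun ω => (b ω % 3 ^ l, c ω)) with hf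
    set g : ℕ → ℝ := fun l => cH s p U c - cH s p U (fun ω => ((U ω + b ω) % 3 ^ l, c ω)) with hg
    have hf0 : ∀ l, 0 ≤ f l := fun l => sub_nonneg.2 (cH_cond_le hp _ _ _)
    have hg0 : ∀ l, 0 ≤ g l := fun l => sub_nonneg.2 (cH_cond_le hp _ _ _)
    have hfm : ∀ l l', l ≤ l' → f l ≤ f l' := by
      intro l l' hl
      have : cH s p U (fun ω => (b ω % 3 ^ l', c ω)) ≤ cH s p U (fun ω => (b ω % 3 ^ l, c ω)) := by
        refine cH_anti hp _ _ _ fun ω _ _ ω' _ _ h => ?_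
        simp only [Prod.ext_iff] at h ⊢
        exact ⟨mod_mono _ _ hl h.1, h.2⟩
      simp only [hf]
      linarith
    have hgm : ∀ l l', l ≤ l' → g l ≤ g l' := by
      intro l l' hl
      have : cH s p U (fun ω => ((U ω + b ω) % 3 ^ l', c ω)) ≤
          cH s p U (fun ω => ((U ω + b ω) % 3 ^ l, c ω)) := by
        refine cH_anti hp _ _ _ fun ω _ _ ω' _ _ h => ?_
        simp only [Prod.ext_iff] at h ⊢
        exact ⟨mod_mono _ _ hl h.1, h.2⟩
      simp only [hg]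
      linarith
    have h1 := tele_U hp k U b c hU
    have h2 : ∑ l ∈ range k,
        cH s p (fun ω => U ω % 3 ^ (l + 1)) (fun ω => (U ω % 3 ^ l, b ω % 3 ^ l, c ω)) ≤
        ∑ l ∈ range k, ((e1 + 12 / e1 * δ l) + C * ((g (l + d) - g l) + (f (l + d) - f l))) := by
      refine sum_le_sum fun l hl => ?_
      have := level_digit hp hp1 e1 he1 U b c good l d hd.ne' hgood (δ l) (hδ l (mem_range.1 hl))
      refine this.trans (le_of_eq ?_)
      simp only [hf, hg, hC]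
      ring
    have h3 := shift_sum f k d (f (k + d)) hf0 (fun l hl => hfm l _ hl) d le_rfl
    have h4 := shift_sum g k d (g (k + d)) hg0 (fun l hl => hgm l _ hl) d le_rfl
    have h22 : ∑ l ∈ range k, ((e1 + 12 / e1 * δ l) + C * ((g (l + d) - g l) + (f (l + d) - f l))) =
        (k * e1 + 12 / e1 * ∑ l ∈ range k, δ l) +
          C * (∑ l ∈ range k, (g (l + d) - g l) + ∑ l ∈ range k, (f (l + d) - f l)) := by
      rw [sum_add_distrib, sum_add_distrib, sum_const, card_range, nsmul_eq_mul, ← mul_sum,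
        ← mul_sum, sum_add_distrib]
    rw [h22] at h2
    have h5 : cH s p U c = f k + cH s p U (fun ω => (b ω % 3 ^ k, c ω)) := by
      simp only [hf]; ring
    have h6 := hfm k (k + d) (Nat.le_add_right k d)
    have h7 := hg0 (k + d)
    have h8 : C * (∑ l ∈ range k, (g (l + d) - g l) + ∑ l ∈ range k, (f (l + d) - f l)) ≤
        C * (d * g (k + d) + d * f (k + d)) := mul_le_mul_of_nonneg_left (add_le_add h4 h3) hC0
    have hδ0 : 0 ≤ ∑ l ∈ range k, δ l := sum_nonneg fun l hl =>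
      le_trans (sum_nonneg fun ω hω => hp ω (mem_filter.1 hω).1) (hδ l (mem_range.1 hl))
    have e : (1 + C * d) * (f (k + d) + g (k + d)) =
        f (k + d) + g (k + d) + C * (d * g (k + d) + d * f (k + d)) := by ring
    show cH s p U c ≤ k * e1 + (12 / e1 + 2) * ∑ l ∈ range k, δ l +
      (1 + C * d) * (f (k + d) + g (k + d))
    rw [e]
    have h9 : cH s p U (fun ω => (b ω % 3 ^ k, c ω)) ≤ (k * e1 + 12 / e1 * ∑ l ∈ range k, δ l) +
        C * (d * g (k + d) + d * f (k + d)) := h1.trans (h2.trans (by linarith))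
    rw [h5]
    have : (12 / e1 + 2) * ∑ l ∈ range k, δ l = 12 / e1 * ∑ l ∈ range k, δ l +
      2 * ∑ l ∈ range k, δ l := by ring
    rw [this]
    linarith

end Pool.Agent.Collatz3.LT
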