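import Pool.Agent.Collatz3.LTMaster

set_option autoImplicit false

/-!
Cuts have positive probability, and words with few ones are rare.
-/

open Finset
open scoped Classical

namespace Pool.Agent.Collatz3.LT

open UB (FAP FR)
open UB.PathZ (T W X Inv)

theorem m_union_le {Ω : Type} (P : FAP Ω) (A B : Set Ω) : P.m (A ∪ B) ≤ P.m A + P.m B := by
  have h1 : A ∪ B = A ∪ (B \ A) := by
    ext ω; simp only [Set.mem_union, Set.mem_sdiff]; tauto
  rw [h1, P.union _ _ Set.disjoint_sdiff_right]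
  have := P.m_mono (A := B \ A) (B := B) Set.sdiff_subset
  linarith

theorem m_biUnion_le {Ω : Type} (P : FAP Ω) {ι : Type*} (t : Finset ι) (A : ι → Set Ω) :
    P.m (⋃ i ∈ t, A i) ≤ ∑ i ∈ t, P.m (A i) := by
  induction t using Finset.induction_on with
  | empty => simp [P.m_empty]
  | insert a t ha ih =>
    rw [Finset.set_biUnion_insert, sum_insert ha]
    exact (m_union_le P _ _).trans (by linarith)

theorem Cu_pos {P : FAP UB.PathZ} (hI : Inv P) (hC : CUT P) : 0 < P.m Cu := by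
  obtain ⟨K, hK⟩ := hC (1 / 2) (by norm_num)
  by_contra hcon
  have h0 : P.m Cu = 0 := le_antisymm (not_lt.1 hcon) (P.nonneg _)
  have h1 : (Set.univ : Set UB.PathZ) ⊆ NoCut K ∪ ⋃ t ∈ Finset.range K, (T^[t]) ⁻¹' Cu := by
    intro ω _
    by_cases h : ω ∈ NoCut K
    · exact Or.inl h
    · right
      unfold NoCut at h
      simp only [Set.mem_ofPred_eq, not_forall, not_not] at h
      obtain ⟨t, ht, h2⟩ := h
      simp only [Set.mem_iUnion]
      exact ⟨t, mem_range.2 ht, h2⟩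
  have h2 := P.m_mono h1
  rw [P.univ] at h2
  have h3 := m_union_le P (NoCut K) (⋃ t ∈ Finset.range K, (T^[t]) ⁻¹' Cu)
  have h4 := m_biUnion_le P (Finset.range K) fun t => (T^[t]) ⁻¹' Cu
  have h5 : ∑ t ∈ Finset.range K, P.m ((T^[t]) ⁻¹' Cu) = 0 :=
    sum_eq_zero fun t _ => by rw [hI.iter, h0]
  linarith

/-- generating function of the numbers of ones -/
theorem WL_sum (y : ℝ) (m : ℕ) : ∑ w ∈ WL m, y ^ jj w = (1 + y) ^ m := by
  induction m with
  | zero => simp [WL]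
  | succ m ih =>
    rw [WL, sum_union, sum_image (by intro a _ b _ h; exact (List.cons.inj h).2),
      sum_image (by intro a _ b _ h; exact (List.cons.inj h).2)]
    · simp only [jj_false, jj_true, pow_succ]
      rw [← sum_mul, ih]
      ring
    · rw [Finset.disjoint_left]
      intro w h1 h2
      obtain ⟨a, _, rfl⟩ := mem_image.1 h1
      obtain ⟨b, _, h3⟩ := mem_image.1 h2
      exact absurd (List.cons.inj h3).1 (by decide)

/-- number of words with few ones -/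
theorem few_words {y : ℝ} (hy : 0 < y) {ρ : ℝ} (m : ℕ) :
    ((((WL m).filter fun w => (jj w : ℝ) ≤ ρ * m).card : ℕ) : ℝ) ≤
      Real.exp (m * (Real.log (1 + y) + ρ * |Real.log y|)) := by
  have h1 : ∑ w ∈ (WL m).filter (fun w => (jj w : ℝ) ≤ ρ * m),
      Real.exp (-(ρ * m * |Real.log y|)) ≤ (1 + y) ^ m := by
    rw [← WL_sum]
    refine le_trans (sum_le_sum (g := fun w : List Bool => y ^ jj w) fun w hw => ?_)
      (sum_le_sum_of_subset_of_nonneg (filter_subset _ _) fun _ _ _ => by positivity)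
    have h2 := (mem_filter.1 hw).2
    have h3 : y ^ jj w = Real.exp (jj w * Real.log y) := by
      rw [Real.exp_nat_mul, Real.exp_log hy]
    rw [h3]
    apply Real.exp_le_exp.2
    have h4 := neg_abs_le (Real.log y)
    have h5 : (0 : ℝ) ≤ jj w := Nat.cast_nonneg _
    have h6 := mul_le_mul_of_nonneg_left h4 h5
    have h7 := mul_le_mul_of_nonneg_right h2 (abs_nonneg (Real.log y))
    linarith
  rw [sum_const, nsmul_eq_mul, Real.exp_neg, ← div_eq_mul_inv, div_le_iff₀ (Real.exp_pos _)] at h1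
  refine h1.trans (le_of_eq ?_)
  rw [show (1 + y) ^ m = Real.exp (m * Real.log (1 + y)) by
    rw [Real.exp_nat_mul, Real.exp_log (by linarith)], ← Real.exp_add]
  congr 1; ring

/-- the master inequality for the words with few ones -/
theorem few_main {θ : ℝ} {P : FAP UB.PathZ} (hI : Inv P) (hM : ME θ P) {ε : ℝ} (hε : 0 < ε)
    {y : ℝ} (hy : 0 < y) {ρ : ℝ} (hρ : 0 ≤ ρ) (K : ℕ) : ∃ C : ℝ, 0 ≤ C ∧ ∀ m : ℕ, K ≤ m →
      P.m {ω | (ω.j m : ℝ) ≤ ρ * m} * (m * (lam θ + θ * Real.log 2 - |θ| * ρ * Real.log 3 -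
        (Real.log (1 + y) + ρ * |Real.log y|))) ≤
      Real.log (m + 1) + ε * m + C +
        (Real.log 2 + |lam θ| + |θ| * Real.log 3) * m * P.m (NoCut K) := by
  obtain ⟨C, hC, hmaster⟩ := master θ hε K
  refine ⟨C, hC, fun m hm => ?_⟩
  have hm0 : (0 : ℝ) ≤ m := Nat.cast_nonneg m
  -- finite representation
  obtain ⟨s, p, hp, hp1, hrep⟩ := P.exists_rep
    (fun ω : UB.PathZ => ((W m ω, ω.b 0 % 3 ^ m), fun t : Fin K => decide (T^[(t : ℕ)] ω ∈ Cu)))
    (((UB.PathZ.FR_W m).pair (FR.emod _ m)).pair (Set.toFinite _))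
  have hW : ∀ ω ω' : UB.PathZ, ((W m ω, ω.b 0 % 3 ^ m),
      fun t : Fin K => decide (T^[(t : ℕ)] ω ∈ Cu)) = ((W m ω', ω'.b 0 % 3 ^ m),
      fun t : Fin K => decide (T^[(t : ℕ)] ω' ∈ Cu)) → W m ω = W m ω' := fun ω ω' h =>
    (Prod.ext_iff.1 (Prod.ext_iff.1 h).1).1
  have hb : ∀ ω ω' : UB.PathZ, ((W m ω, ω.b 0 % 3 ^ m),
      fun t : Fin K => decide (T^[(t : ℕ)] ω ∈ Cu)) = ((W m ω', ω'.b 0 % 3 ^ m),
      fun t : Fin K => decide (T^[(t : ℕ)] ω' ∈ Cu)) → ω.b 0 % 3 ^ m = ω'.b 0 % 3 ^ m :=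
    fun ω ω' h => (Prod.ext_iff.1 (Prod.ext_iff.1 h).1).2
  have hmass : ∀ A : UB.PathZ → Prop, (∀ ω ω' : UB.PathZ, ((W m ω, ω.b 0 % 3 ^ m),
      fun t : Fin K => decide (T^[(t : ℕ)] ω ∈ Cu)) = ((W m ω', ω'.b 0 % 3 ^ m),
      fun t : Fin K => decide (T^[(t : ℕ)] ω' ∈ Cu)) → (A ω ↔ A ω')) →
      ∑ ω ∈ s.filter A, p ω = P.m {ω | A ω} := by
    intro A hA
    have h1 := hrep (fun ω => A ω) (fun ω ω' h => propext (hA ω ω' h)) True
    have e2 : {ω : UB.PathZ | A ω = True} = {ω | A ω} := by ext ω; simp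
    rw [e2] at h1
    rw [← h1]
    unfold mv
    refine sum_congr ?_ fun _ _ => rfl
    ext ω; simp
  set B : UB.PathZ → Prop := fun ω => (ω.j m : ℝ) ≤ ρ * m with hB
  have hj : ∀ ω ω' : UB.PathZ, W m ω = W m ω' → ω.j m = ω'.j m := fun ω ω' h =>
    (Prod.ext_iff.1 h).1
  have hPB : ∑ ω ∈ s.filter B, p ω = P.m {ω | (ω.j m : ℝ) ≤ ρ * m} :=
    hmass B fun ω ω' h => by simp only [hB, hj ω ω' (hW ω ω' h)]
  -- lower bound
  have b1 : m * (lam θ + θ * (Real.log 2 - q1 P * Real.log 3)) ≤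
      cH s p (W m) (fun ω : UB.PathZ => ω.b 0 % 3 ^ m) := by
    rw [P.cH_eq_rep s p _ hrep (W m) (fun ω : UB.PathZ => ω.b 0 % 3 ^ m) (UB.PathZ.FR_W m)
      (FR.emod _ m) hW hb]
    exact hM m m
  -- condition on the number of ones
  have b2 := cH_triangle hp (fun ω : UB.PathZ => ω.j m) (W m) (fun ω : UB.PathZ => ω.b 0 % 3 ^ m)
  have b3 := cH_le_log' hp (fun ω : UB.PathZ => ω.j m) (fun ω : UB.PathZ => ω.b 0 % 3 ^ m)
    (Finset.range (m + 1)) (m + 1) (by omega) (fun ω _ => mem_range.2 (Nat.lt_succ_of_le (ω.j_le m)))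
    (by simp)
  rw [hp1, one_mul] at b3
  set Y : UB.PathZ → ℕ × ℤ := fun ω => (ω.j m, ω.b 0 % 3 ^ m) with hY
  have b4 := UB.cH_split (s := s) (p := p) B (W m) Y fun ω _ ω' _ h => by
    simp only [hY, Prod.mk.injEq] at h
    simp only [hB, h.1]
  -- few ones
  have b5 : cH (s.filter B) p (W m) Y ≤
      P.m {ω | (ω.j m : ℝ) ≤ ρ * m} * (m * (Real.log (1 + y) + ρ * |Real.log y|)) := by
    have e1 : cH (s.filter B) p (W m) Y = cH (s.filter B) p (lw m) Y := by
      refine cH_congr _ _ _ _ (fun _ _ _ _ _ _ => Iff.rfl) fun ω _ _ ω' _ _ => ?_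
      rw [lw_eq_iff]
    have hE0 : 0 ≤ m * (Real.log (1 + y) + ρ * |Real.log y|) :=
      mul_nonneg hm0 (add_nonneg (Real.log_nonneg (by linarith)) (mul_nonneg hρ (abs_nonneg _)))
    have hpos : 1 ≤ Real.exp (m * (Real.log (1 + y) + ρ * |Real.log y|)) := Real.one_le_exp hE0
    have c1 := cH_le_log' (s := s.filter B) (p := p) (fun ω hω => hp ω (mem_filter.1 hω).1) (lw m)
      Y ((WL m).filter fun w => (jj w : ℝ) ≤ ρ * m)
      ⌊Real.exp (m * (Real.log (1 + y) + ρ * |Real.log y|))⌋₊ (Nat.floor_pos.2 hpos) (fun ω hω => by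
        rw [mem_filter]
        refine ⟨lw_mem_WL m ω, ?_⟩
        rw [jj_lw]
        exact (mem_filter.1 hω).2) (Nat.le_floor (few_words hy m))
    rw [hPB] at c1
    rw [e1]
    refine c1.trans (mul_le_mul_of_nonneg_left ?_ (P.nonneg _))
    have c2 := Nat.floor_le (Real.exp_pos (m * (Real.log (1 + y) + ρ * |Real.log y|))).le
    have c3 : (0 : ℝ) < (⌊Real.exp (m * (Real.log (1 + y) + ρ * |Real.log y|))⌋₊ : ℕ) := by
      exact_mod_cast Nat.floor_pos.2 hpos
    exact (Real.log_le_log c3 c2).trans (le_of_eq (Real.log_exp _))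
  -- many ones
  have hle1 : ∑ ω ∈ s.filter (fun ω => ¬ B ω), p ω ≤ 1 := by
    rw [← hp1]
    exact sum_le_sum_of_subset_of_nonneg (filter_subset _ _) fun ω hω _ => hp ω hω
  have b6 := hmaster (s.filter fun ω => ¬ B ω) p (fun ω hω => hp ω (mem_filter.1 hω).1) hle1 m hm Y
    (fun ω _ ω' _ h => by
      simp only [hY, Prod.mk.injEq] at h
      exact UB.PathZ.X_iff.2 ⟨h.1, UB.PathZ.emod_of_le (ω.j_le m) h.2⟩)
  have b7 : ∑ ω ∈ (s.filter fun ω => ¬ B ω) with ω ∈ NoCut K, p ω ≤ P.m (NoCut K) := by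
    have h1 : ∑ ω ∈ s.filter (fun ω => ω ∈ NoCut K), p ω = P.m {ω | ω ∈ NoCut K} := by
      refine hmass (fun ω => ω ∈ NoCut K) fun ω ω' h => ?_
      have h2 := (Prod.ext_iff.1 h).2
      simp only at h2
      constructor
      · intro h3 t ht h4
        have h5 := congrFun h2 ⟨t, ht⟩
        simp only [decide_eq_decide] at h5
        exact h3 t ht (h5.2 h4)
      · intro h3 t ht h4
        have h5 := congrFun h2 ⟨t, ht⟩
        simp only [decide_eq_decide] at h5
        exact h3 t ht (h5.1 h4)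
    refine le_trans ?_ (le_of_eq h1)
    refine sum_le_sum_of_subset_of_nonneg ?_ fun ω hω _ => hp ω (mem_filter.1 hω).1
    intro ω hω
    rw [mem_filter, mem_filter] at hω
    exact mem_filter.2 ⟨hω.1.1, hω.2⟩
  -- the mean height
  have b8 : ∑ ω ∈ s, p ω * (ω.j m : ℝ) = m * q1 P := by
    have h1 : ∀ k ≤ m, ∑ ω ∈ s, p ω * (ω.j k : ℝ) = k * q1 P := by
      intro k
      induction k with
      | zero => intro _; simp [UB.PathZ.j_zero]
      | succ k ih =>
        intro hk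
        have h2 : ∑ ω ∈ s, p ω * (ω.e k : ℝ) = q1 P := by
          have h3 := hmass (fun ω => ω.e k = 1) fun ω ω' h => by
            rw [UB.PathZ.e_det (show k < m by omega) (hW ω ω' h)]
          have h4 : P.m {ω : UB.PathZ | ω.e k = 1} = q1 P := by
            unfold q1
            refine Eq.trans ?_ (hI.iter k {ω : UB.PathZ | ω.e 0 = 1})
            congr 1
            ext ω
            simp only [Set.mem_ofPred_eq, Set.mem_preimage]
            rw [UB.PathZ.e_iter, add_zero]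
          rw [h4] at h3
          rw [← h3, sum_filter]
          refine sum_congr rfl fun ω _ => ?_
          rcases ω.e_cases k with h | h <;> simp [h]
        have h3 : ∑ ω ∈ s, p ω * ((ω.j (k + 1) : ℕ) : ℝ) =
            ∑ ω ∈ s, p ω * (ω.j k : ℝ) + ∑ ω ∈ s, p ω * (ω.e k : ℝ) := by
          rw [← sum_add_distrib]
          refine sum_congr rfl fun ω _ => ?_
          rw [UB.PathZ.j_succ]
          push_cast
          ring
        rw [h3, ih (by omega), h2]
        push_cast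
        ring
    exact h1 m le_rfl
  have b9 : ∑ ω ∈ s, p ω * (lam θ * m + θ * hh m (ω.j m)) =
      m * (lam θ + θ * (Real.log 2 - q1 P * Real.log 3)) := by
    have h1 : ∀ ω ∈ s, p ω * (lam θ * m + θ * hh m (ω.j m)) =
        p ω * (lam θ * m + θ * (m * Real.log 2)) - p ω * (ω.j m : ℝ) * (θ * Real.log 3) := by
      intro ω _
      unfold hh
      ring
    rw [sum_congr rfl h1, sum_sub_distrib, ← sum_mul, ← sum_mul, hp1, b8]
    ring
  have b10 := sum_filter_add_sum_filter_not s B fun ω => p ω * (lam θ * m + θ * hh m (ω.j m))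
  have b11 : P.m {ω | (ω.j m : ℝ) ≤ ρ * m} *
      (m * (lam θ + θ * Real.log 2 - |θ| * ρ * Real.log 3)) ≤
      ∑ ω ∈ s.filter B, p ω * (lam θ * m + θ * hh m (ω.j m)) := by
    rw [← hPB, sum_mul]
    refine sum_le_sum fun ω hω => ?_
    refine mul_le_mul_of_nonneg_left ?_ (hp ω (mem_filter.1 hω).1)
    have h1 : (ω.j m : ℝ) ≤ ρ * m := (mem_filter.1 hω).2
    have h2 : (0 : ℝ) ≤ ω.j m := Nat.cast_nonneg _
    have h3 : θ * ((ω.j m : ℝ) * Real.log 3) ≤ |θ| * (ρ * m * Real.log 3) := by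
      have h4 := mul_le_mul_of_nonneg_right (le_abs_self θ) (mul_nonneg h2 log3_pos.le)
      have h5 := mul_le_mul_of_nonneg_right h1 log3_pos.le
      have h6 := mul_le_mul_of_nonneg_left h5 (abs_nonneg θ)
      linarith
    unfold hh
    linarith
  have b12 : (Real.log 2 + |lam θ| + |θ| * Real.log 3) * m *
      (∑ ω ∈ (s.filter fun ω => ¬ B ω) with ω ∈ NoCut K, p ω) ≤
      (Real.log 2 + |lam θ| + |θ| * Real.log 3) * m * P.m (NoCut K) := by
    refine mul_le_mul_of_nonneg_left b7 (mul_nonneg ?_ hm0)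
    have := log2_pos
    have := log3_pos
    positivity
  push_cast at b3
  linarith

theorem few {θ : ℝ} {P : FAP UB.PathZ} (hI : Inv P) (hM : ME θ P) (hC : CUT P)
    (hg : 0 < lam θ + θ * Real.log 2) : ∃ ρ : ℝ, 0 < ρ ∧ ∀ α : ℝ, 0 < α → ∃ m₁ : ℕ, ∀ m : ℕ, m₁ ≤ m →
      P.m {ω | (ω.j m : ℝ) ≤ ρ * m} ≤ α := by
  set γ := lam θ + θ * Real.log 2 with hγ
  set y := Real.exp (γ / 4) - 1 with hy
  have hy0 : 0 < y := by
    have := Real.add_one_le_exp (γ / 4)
    rw [hy]; linarith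
  have hly : Real.log (1 + y) = γ / 4 := by
    rw [hy, add_sub_cancel, Real.log_exp]
  set D := |θ| * Real.log 3 + |Real.log y| + 1 with hD
  have hD0 : 0 < D := by
    have := log3_pos
    positivity
  set ρ := γ / (4 * D) with hρ
  have hρ0 : 0 < ρ := by positivity
  have hρD : ρ * D = γ / 4 := by
    rw [hρ]; field_simp
  refine ⟨ρ, hρ0, fun α hα => ?_⟩
  set c0 := Real.log 2 + |lam θ| + |θ| * Real.log 3 with hc0
  have hc00 : 0 < c0 := by
    have := log2_pos
    have := log3_pos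
    positivity
  obtain ⟨K, hK⟩ := hC (α * γ / (8 * c0)) (by positivity)
  have hK' : c0 * P.m (NoCut K) ≤ α * γ / 8 := by
    have := mul_le_mul_of_nonneg_left hK hc00.le
    have e : c0 * (α * γ / (8 * c0)) = α * γ / 8 := by field_simp
    linarith
  obtain ⟨C, hC0, hmain⟩ := few_main hI hM (show 0 < α * γ / 8 by positivity) hy0 hρ0.le K
  obtain ⟨M, hM'⟩ := UB.log_small C 1 (α * γ / 4) hC0 (by norm_num) (by positivity)
  refine ⟨K + M + 1, fun m hm => ?_⟩
  have h1 := hmain m (by omega)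
  have h2 := hM' m (by omega)
  have hm0 : (0 : ℝ) < m := by exact_mod_cast (show 0 < m by omega)
  have hP0 := P.nonneg {ω : UB.PathZ | (ω.j m : ℝ) ≤ ρ * m}
  set Q := P.m {ω : UB.PathZ | (ω.j m : ℝ) ≤ ρ * m} with hQ
  have h3 : γ / 2 ≤ γ - |θ| * ρ * Real.log 3 - (Real.log (1 + y) + ρ * |Real.log y|) := by
    rw [hly]
    have : ρ * D = |θ| * ρ * Real.log 3 + ρ * |Real.log y| + ρ := by rw [hD]; ring
    rw [this] at hρD
    linarith
  have h4 : Q * (m * (γ / 2)) ≤ Real.log (m + 1) + α * γ / 8 * m + C + c0 * m * P.m (NoCut K) := by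
    refine le_trans ?_ h1
    exact mul_le_mul_of_nonneg_left (mul_le_mul_of_nonneg_left h3 hm0.le) hP0
  have h5 : c0 * m * P.m (NoCut K) ≤ α * γ / 8 * m := by
    have := mul_le_mul_of_nonneg_right hK' hm0.le
    linarith
  have h6 : Q * (m * (γ / 2)) ≤ α * (m * (γ / 2)) := by linarith
  exact le_of_mul_le_mul_right h6 (by positivity)

end Pool.Agent.Collatz3.LT
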