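import Mathlib
import Pool.Agent.Collatz3.Defs
import Pool.Agent.Collatz3.Words

set_option autoImplicit false

/-!
From uniform growth of the inverse tree to the number of preimages at a given depth.
-/

namespace Pool.Agent.Collatz3

/-- The 3x+1 map. -/
def T3 (m : ℕ) : ℕ := if m % 2 = 0 then m / 2 else (3 * m + 1) / 2

theorem T3_two_mul (x : ℕ) : T3 (2 * x) = x := by
  unfold T3
  rw [if_pos (by omega)]
  omega

theorem T3_iter_pow (j : ℕ) (x : ℕ) : T3^[j] (2 ^ j * x) = x := by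
  induction j with
  | zero => simp
  | succ j ih =>
    rw [Function.iterate_succ_apply, pow_succ, show 2 ^ j * 2 * x = 2 * (2 ^ j * x) by ring,
      T3_two_mul, ih]

theorem T3_step {i : ℕ} (hi : 1 ≤ i) {a x : ℕ} (h : 2 ^ i * a = 3 * x + 1) : T3^[i] x = a := by
  obtain ⟨j, rfl⟩ : ∃ j, i = j + 1 := ⟨i - 1, by omega⟩
  have h1 : T3 x = 2 ^ j * a := by
    have e : 2 ^ (j + 1) * a = 2 * (2 ^ j * a) := by ring
    unfold T3
    rw [if_neg (by omega)]
    omega
  rw [Function.iterate_succ_apply, h1, T3_iter_pow]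

theorem Up.pos {a b : ℤ} {w : List ℕ} (h : Up a w b) (ha : 0 < a) (hw : ∀ i ∈ w, 1 ≤ i) :
    0 < b := by
  induction w generalizing a with
  | nil =>
    have : a = b := h
    omega
  | cons i w ih =>
    obtain ⟨x, hx, hu⟩ := h
    refine ih hu ?_ fun j hj => hw j (List.mem_cons_of_mem _ hj)
    have h1 : (2 : ℤ) ≤ 2 ^ i := by
      calc (2 : ℤ) = 2 ^ 1 := by norm_num
        _ ≤ 2 ^ i := pow_le_pow_right₀ (by norm_num) (hw i List.mem_cons_self)
    have h2 : (2 : ℤ) * 1 ≤ 2 ^ i * a := by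
      apply mul_le_mul h1 (by omega) (by norm_num) (by positivity)
    omega

theorem Up.iter {a b : ℤ} {w : List ℕ} (h : Up a w b) (ha : 0 < a) (hw : ∀ i ∈ w, 1 ≤ i) :
    T3^[w.sum] b.toNat = a.toNat := by
  induction w generalizing a with
  | nil =>
    have : a = b := h
    simp [this]
  | cons i w ih =>
    have hp := h.pos ha hw
    obtain ⟨x, hx, hu⟩ := h
    have hx1 : Up a [i] x := ⟨x, hx, rfl⟩
    have hx0 : 0 < x := hx1.pos ha (by
      intro j hj
      rw [List.mem_singleton] at hj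
      rw [hj]
      exact hw i List.mem_cons_self)
    have h1 := ih hu hx0 fun j hj => hw j (List.mem_cons_of_mem _ hj)
    rw [List.sum_cons, Function.iterate_add_apply, h1]
    apply T3_step (hw i List.mem_cons_self)
    obtain ⟨A, rfl⟩ : ∃ A : ℕ, a = A := ⟨a.toNat, by omega⟩
    obtain ⟨X, rfl⟩ : ∃ X : ℕ, x = X := ⟨x.toNat, by omega⟩
    rw [Int.toNat_natCast, Int.toNat_natCast]
    exact_mod_cast hx

theorem Up.odd {a b : ℤ} {w : List ℕ} (h : Up a w b) (hw : ∀ i ∈ w, 1 ≤ i) (hne : w ≠ []) :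
    b % 2 = 1 := by
  induction w generalizing a with
  | nil => exact absurd rfl hne
  | cons i w ih =>
    obtain ⟨x, hx, hu⟩ := h
    by_cases h0 : w = []
    · subst h0
      have : x = b := hu
      subst this
      obtain ⟨j, rfl⟩ : ∃ j, i = j + 1 := ⟨i - 1, by
        have := hw i List.mem_cons_self
        omega⟩
      have e : (2 : ℤ) ^ (j + 1) * a = 2 * (2 ^ j * a) := by ring
      omega
    · exact ih hu (fun j hj => hw j (List.mem_cons_of_mem _ hj)) h0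

theorem le_two_mul_T3 (m : ℕ) : m ≤ 2 * T3 m := by
  unfold T3
  split_ifs <;> omega

theorem le_pow_mul_T3 (k m : ℕ) : m ≤ 2 ^ k * T3^[k] m := by
  induction k generalizing m with
  | zero => simp
  | succ k ih =>
    rw [Function.iterate_succ_apply, pow_succ]
    have h1 := ih (T3 m)
    have h2 := le_two_mul_T3 m
    calc m ≤ 2 * T3 m := h2
      _ ≤ 2 * (2 ^ k * T3^[k] (T3 m)) := by omega
      _ = 2 ^ k * 2 * T3^[k] (T3 m) := by ring

theorem pre_finite (k a : ℕ) : {n : ℕ | 1 ≤ n ∧ T3^[k] n = a}.Finite := by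
  refine (Set.finite_Iic (2 ^ k * a)).subset ?_
  rintro n ⟨_, hn⟩
  rw [Set.mem_Iic, ← hn]
  exact le_pow_mul_T3 k n

theorem two_pow_mul_inj {p q x y : ℕ} (hx : x % 2 = 1) (hy : y % 2 = 1)
    (h : 2 ^ p * x = 2 ^ q * y) : p = q ∧ x = y := by
  induction p generalizing q with
  | zero =>
    rcases q with _ | q
    · exact ⟨rfl, by simpa using h⟩
    · exfalso
      rw [pow_zero, one_mul, pow_succ] at h
      have : 2 ^ q * 2 * y = 2 * (2 ^ q * y) := by ring
      omega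
  | succ p ih =>
    rcases q with _ | q
    · exfalso
      rw [pow_zero, one_mul, pow_succ] at h
      have : 2 ^ p * 2 * x = 2 * (2 ^ p * x) := by ring
      omega
    · have h1 : 2 ^ p * x = 2 ^ q * y := by
        have e1 : 2 ^ (p + 1) * x = 2 * (2 ^ p * x) := by ring
        have e2 : 2 ^ (q + 1) * y = 2 * (2 ^ q * y) := by ring
        omega
      obtain ⟨r1, r2⟩ := ih h1
      exact ⟨by omega, r2⟩

/-- Every word of small size gives a preimage at depth `k`. -/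
theorem cnt_le_pre {a n k : ℕ} {B : ℝ} (ha : 0 < a) (hn : 1 ≤ n) (hB : B ≤ 2 ^ k) :
    cnt (a : ℤ) n B ≤ {m : ℕ | 1 ≤ m ∧ T3^[k] m = a}.ncard := by
  classical
  have hlen : ∀ w ∈ paths (a : ℤ) n B, w.sum ≤ k := by
    rintro w ⟨_, _, h3, _⟩
    have h4 : ((2 ^ w.sum : ℕ) : ℝ) ≤ 2 ^ k := by
      refine le_trans ?_ (h3.trans hB)
      unfold size
      push_cast
      have : (0 : ℝ) ≤ (cw w : ℝ) := Nat.cast_nonneg _
      linarith
    have h5 : (2 : ℝ) ^ w.sum ≤ 2 ^ k := by exact_mod_cast h4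
    exact (pow_le_pow_iff_right₀ (by norm_num)).1 h5
  let f : List ℕ → ℕ := fun w =>
    if h : Ok (a : ℤ) w then 2 ^ (k - w.sum) * (Classical.choose h).toNat else 0
  have hf : ∀ w ∈ paths (a : ℤ) n B, ∃ b : ℤ, Up (a : ℤ) w b ∧ f w = 2 ^ (k - w.sum) * b.toNat := by
    rintro w ⟨_, _, _, h4⟩
    refine ⟨Classical.choose h4, (Classical.choose_spec h4).1, ?_⟩
    simp only [f, dif_pos h4]
  unfold cnt
  refine Set.ncard_le_ncard_of_injOn f ?_ ?_ (pre_finite k a)
  · intro w hw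
    obtain ⟨b, hb, hfb⟩ := hf w hw
    have hp := hb.pos (by exact_mod_cast ha) hw.2.1
    have hs := hlen w hw
    rw [hfb]
    refine ⟨?_, ?_⟩
    · have h1 : 1 ≤ b.toNat := by omega
      have h2 : 1 ≤ 2 ^ (k - w.sum) := Nat.one_le_two_pow
      exact Nat.one_le_iff_ne_zero.2 (by positivity)
    · have e : k = w.sum + (k - w.sum) := by omega
      conv_lhs => rw [e]
      rw [Function.iterate_add_apply, show w.sum + (k - w.sum) - w.sum = k - w.sum by omega,
        T3_iter_pow, hb.iter (by exact_mod_cast ha) hw.2.1, Int.toNat_natCast]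
  · intro w hw w' hw' hww
    obtain ⟨b, hb, hfb⟩ := hf w hw
    obtain ⟨b', hb', hfb'⟩ := hf w' hw'
    have hp := hb.pos (by exact_mod_cast ha) hw.2.1
    have hp' := hb'.pos (by exact_mod_cast ha) hw'.2.1
    have hne : w ≠ [] := by
      rintro rfl
      have := hw.1
      simp at this
      omega
    have hne' : w' ≠ [] := by
      rintro rfl
      have := hw'.1
      simp at this
      omega
    have ho := hb.odd hw.2.1 hne
    have ho' := hb'.odd hw'.2.1 hne'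
    rw [hfb, hfb'] at hww
    obtain ⟨r1, r2⟩ := two_pow_mul_inj (by omega) (by omega) hww
    have hs := hlen w hw
    have hs' := hlen w' hw'
    have hsum : w.sum = w'.sum := by omega
    have hbb : b = b' := by omega
    have hlen2 : w.length = w'.length := by rw [hw.1, hw'.1]
    refine word_inj w w' hw.2.1 hw'.2.1 hlen2 hsum ?_
    have e1 := hb.rel
    have e2 := hb'.rel
    rw [hsum, hlen2, hbb] at e1
    have e3 : (cw w : ℤ) = cw w' := by linarith
    exact_mod_cast e3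

open Real Filter

theorem lower_pre_aux {L l : ℝ} (hL : 0 < L) (hl : l = log 2) (h : UniformGrowth (4 * l) (4 * L))
    {a : ℕ} (ha : 0 < a) (h3 : ¬ 3 ∣ a) (e : ℝ) (he : 0 < e) :
    ∀ᶠ k : ℕ in atTop, L - e ≤
      log (({m : ℕ | 1 ≤ m ∧ T3^[k] m = a}.ncard : ℕ) : ℝ) / k := by
  have hl2 : 0 < l := by
    rw [hl]
    exact log_pos (by norm_num)
  -- choice of d
  have hc : ContinuousAt (fun d : ℝ => (4 * L - d) / (4 + d / l)) 0 := by
    apply ContinuousAt.div
    · fun_prop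
    · exact continuousAt_const.add (continuousAt_id.div_const l)
    · simp
  have h1 : ∀ᶠ d in nhds (0 : ℝ), L - e / 2 < (4 * L - d) / (4 + d / l) := by
    have h0 : Tendsto (fun d : ℝ => (4 * L - d) / (4 + d / l)) (nhds 0) (nhds L) := by
      have h00 := hc.tendsto
      simpa using h00
    exact h0.eventually (lt_mem_nhds (by linarith))
  have h2 : ∀ᶠ d in nhds (0 : ℝ), d < L := gt_mem_nhds hL
  obtain ⟨d, ⟨hd1, hd2⟩, hd0⟩ :
      ∃ d : ℝ, (L - e / 2 < (4 * L - d) / (4 + d / l) ∧ d < L) ∧ 0 < d := by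
    have h3 : ∀ᶠ d in nhdsWithin (0 : ℝ) (Set.Ioi 0),
        (L - e / 2 < (4 * L - d) / (4 + d / l) ∧ d < L) ∧ 0 < d := by
      filter_upwards [(h1.and h2).filter_mono nhdsWithin_le_nhds, self_mem_nhdsWithin] with d h4 h5
      exact ⟨h4, h5⟩
    exact h3.exists
  obtain ⟨N₀, hN₀⟩ := h d hd0
  obtain ⟨q, hq⟩ : ∃ q, q = 4 + d / l := ⟨_, rfl⟩
  have hq0 : 0 < q := by rw [hq]; positivity
  rw [← hq] at hd1
  have hR : 0 < 4 * L - d := by linarith
  -- eventually
  have hev1 : ∀ᶠ k : ℕ in atTop, q * (N₀ + 1) ≤ (k : ℝ) :=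
    tendsto_natCast_atTop_atTop.eventually_ge_atTop _
  have hev2 : ∀ᶠ k : ℕ in atTop, (4 * L - d) / (e / 2) ≤ (k : ℝ) :=
    tendsto_natCast_atTop_atTop.eventually_ge_atTop _
  filter_upwards [hev1, hev2, eventually_gt_atTop 0] with k hk1 hk2 hk0
  have hk0' : (0 : ℝ) < k := by exact_mod_cast hk0
  obtain ⟨n, hn⟩ : ∃ n, n = ⌊(k : ℝ) / q⌋₊ := ⟨_, rfl⟩
  have hkq : (N₀ : ℝ) + 1 ≤ k / q := by
    rw [le_div_iff₀ hq0]
    linarith
  have hnN : N₀ + 1 ≤ n := by
    rw [hn]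
    apply Nat.le_floor
    push_cast
    exact hkq
  have hn1 : (n : ℝ) ≤ k / q := by
    rw [hn]
    exact Nat.floor_le (by positivity)
  have hn2 : (k : ℝ) / q - 1 ≤ n := by
    have := Nat.lt_floor_add_one ((k : ℝ) / q)
    rw [← hn] at this
    linarith
  have hB : Real.exp ((4 * l + d) * n) ≤ 2 ^ k := by
    have e1 : (2 : ℝ) ^ k = Real.exp (k * l) := by
      rw [mul_comm, Real.exp_mul, hl, Real.exp_log (by norm_num), Real.rpow_natCast]
    rw [e1]
    apply Real.exp_le_exp.2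
    have e2 : q * n ≤ k := by
      have := mul_le_mul_of_nonneg_left hn1 hq0.le
      rwa [mul_div_cancel₀ _ hq0.ne'] at this
    have e3 : (4 * l + d) * n = l * (q * n) := by
      have hl0 : l ≠ 0 := hl2.ne'
      rw [hq]
      field_simp
    rw [e3, mul_comm (k : ℝ) l]
    exact mul_le_mul_of_nonneg_left e2 hl2.le
  have h3' : ¬ (3 : ℤ) ∣ (a : ℤ) := by
    intro h5
    exact h3 (by exact_mod_cast h5)
  have hcnt := hN₀ n (by omega) a h3'
  have hcnt2 := cnt_le_pre (n := n) (k := k) ha (by omega) hB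
  have hcnt3 : Real.exp ((4 * L - d) * n) ≤
      (({m : ℕ | 1 ≤ m ∧ T3^[k] m = a}.ncard : ℕ) : ℝ) :=
    hcnt.trans (by exact_mod_cast hcnt2)
  have hlog : (4 * L - d) * n ≤ log (({m : ℕ | 1 ≤ m ∧ T3^[k] m = a}.ncard : ℕ) : ℝ) := by
    rw [Real.le_log_iff_exp_le (lt_of_lt_of_le (Real.exp_pos _) hcnt3)]
    exact hcnt3
  rw [le_div_iff₀ hk0']
  refine le_trans ?_ hlog
  have e4 : (4 * L - d) * (k / q - 1) ≤ (4 * L - d) * n := mul_le_mul_of_nonneg_left hn2 hR.le
  refine le_trans ?_ e4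
  have e5 : (4 * L - d) * (k / q - 1) = (4 * L - d) / q * k - (4 * L - d) := by
    field_simp
  rw [e5]
  have e6 : (L - e / 2) * k ≤ (4 * L - d) / q * k := mul_le_mul_of_nonneg_right hd1.le hk0'.le
  have e7 : 4 * L - d ≤ e / 2 * k := by
    rw [div_le_iff₀ (by linarith)] at hk2
    linarith
  have e8 : (L - e) * k = (L - e / 2) * k - e / 2 * k := by ring
  linarith

theorem lower_pre (h : UniformGrowth (4 * log 2) (4 * log (4 / 3))) {a : ℕ} (ha : 0 < a)
    (h3 : ¬ 3 ∣ a) (e : ℝ) (he : 0 < e) :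
    ∀ᶠ k : ℕ in atTop, log (4 / 3) - e ≤
      log (({m : ℕ | 1 ≤ m ∧ T3^[k] m = a}.ncard : ℕ) : ℝ) / k :=
  lower_pre_aux (log_pos (by norm_num)) rfl h ha h3 e he

theorem upper_pre (up : ∀ e : ℝ, 0 < e → ∃ K : ℕ, ∀ k, K ≤ k → ∀ a : ℕ, 0 < a → ¬ (3 ∣ a) →
      (({n : ℕ | 1 ≤ n ∧ T3^[k] n = a}.ncard : ℕ) : ℝ) ≤ Real.exp ((Real.log (4 / 3) + e) * k))
    {a : ℕ} (ha : 0 < a) (h3 : ¬ 3 ∣ a) (e : ℝ) (he : 0 < e) :
    ∀ᶠ k : ℕ in atTop, log (({m : ℕ | 1 ≤ m ∧ T3^[k] m = a}.ncard : ℕ) : ℝ) / k ≤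
      log (4 / 3) + e := by
  obtain ⟨K, hK⟩ := up e he
  filter_upwards [eventually_ge_atTop K, eventually_gt_atTop 0] with k hk hk0
  have hk0' : (0 : ℝ) < k := by exact_mod_cast hk0
  have h1 := hK k hk a ha h3
  have h2 : 0 < {m : ℕ | 1 ≤ m ∧ T3^[k] m = a}.ncard := by
    rw [Set.ncard_pos (pre_finite k a)]
    refine ⟨2 ^ k * a, ?_, T3_iter_pow k a⟩
    exact Nat.one_le_iff_ne_zero.2 (by positivity)
  rw [div_le_iff₀ hk0', Real.log_le_iff_le_exp (by exact_mod_cast h2)]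
  exact h1

theorem tendsto_pre (h : UniformGrowth (4 * log 2) (4 * log (4 / 3)))
    (up : ∀ e : ℝ, 0 < e → ∃ K : ℕ, ∀ k, K ≤ k → ∀ a : ℕ, 0 < a → ¬ (3 ∣ a) →
      (({n : ℕ | 1 ≤ n ∧ T3^[k] n = a}.ncard : ℕ) : ℝ) ≤ Real.exp ((Real.log (4 / 3) + e) * k))
    {a : ℕ} (ha : 0 < a) (h3 : ¬ 3 ∣ a) :
    Tendsto (fun k : ℕ => log (({m : ℕ | 1 ≤ m ∧ T3^[k] m = a}.ncard : ℕ) : ℝ) / k) atTop
      (nhds (log (4 / 3))) := by
  rw [Metric.tendsto_nhds]
  intro e he
  filter_upwards [lower_pre h ha h3 (e / 2) (by linarith),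
    upper_pre up ha h3 (e / 2) (by linarith)] with k h1 h2
  rw [Real.dist_eq, abs_lt]
  constructor <;> linarith

end Pool.Agent.Collatz3
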