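import Mathlib

set_option autoImplicit false

/-!
The constant of the repeated random walk model: Legendre transform and binary entropy.
-/

namespace Pool.Agent.Collatz3.Leg

open Real

/-- The Legendre transform in the definition of the constant. -/
noncomputable def gL (a : ℝ) : ℝ :=
  ⨆ θ : ℝ, (θ * a - log ((1 / 2) * ((2 : ℝ) ^ θ + (2 / 3 : ℝ) ^ θ)))

theorem gibbs {ρ y : ℝ} (h0 : 0 < ρ) (h1 : ρ < 1) (hy : 0 < y) :
    binEntropy ρ + (1 - ρ) * log y ≤ log (1 + y) := by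
  have h1' : 0 < 1 - ρ := by linarith
  have hy1 : 0 < 1 + y := by linarith
  have e1 := Real.log_le_sub_one_of_pos (show 0 < 1 / (ρ * (1 + y)) by positivity)
  have e2 := Real.log_le_sub_one_of_pos (show 0 < y / ((1 - ρ) * (1 + y)) by positivity)
  rw [Real.log_div one_ne_zero (by positivity), Real.log_one, Real.log_mul h0.ne' hy1.ne'] at e1
  rw [Real.log_div hy.ne' (by positivity), Real.log_mul h1'.ne' hy1.ne'] at e2
  have e3 := mul_le_mul_of_nonneg_left e1 h0.le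
  have e4 := mul_le_mul_of_nonneg_left e2 h1'.le
  have e5 : ρ * (1 / (ρ * (1 + y)) - 1) + (1 - ρ) * (y / ((1 - ρ) * (1 + y)) - 1) = 0 := by
    field_simp
    ring
  have e6 : binEntropy ρ = -(ρ * log ρ) - (1 - ρ) * log (1 - ρ) := by
    unfold binEntropy
    rw [Real.log_inv, Real.log_inv]
    ring
  rw [e6]
  nlinarith

theorem term_eq (ρ θ : ℝ) : θ * (log 2 - ρ * log 3) -
    log ((1 / 2) * ((2 : ℝ) ^ θ + (2 / 3 : ℝ) ^ θ)) =
      log 2 + (1 - ρ) * (θ * log 3) - log (1 + Real.exp (θ * log 3)) := by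
  have h2 : (2 : ℝ) ^ θ = Real.exp (θ * log 2) := by
    rw [Real.rpow_def_of_pos (by norm_num), mul_comm]
  have h3 : (2 / 3 : ℝ) ^ θ = Real.exp (θ * log 2 - θ * log 3) := by
    rw [Real.rpow_def_of_pos (by norm_num), Real.log_div (by norm_num) (by norm_num)]
    congr 1
    ring
  have e1 : (1 / 2) * ((2 : ℝ) ^ θ + (2 / 3 : ℝ) ^ θ) =
      Real.exp (θ * log 2 - θ * log 3 - log 2) * (1 + Real.exp (θ * log 3)) := by
    rw [h2, h3, mul_add, mul_add, mul_one, ← Real.exp_add, Real.exp_sub _ (log 2),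
      Real.exp_log (by norm_num)]
    have e2 : θ * log 2 - θ * log 3 - log 2 + θ * log 3 = θ * log 2 - log 2 := by ring
    rw [e2, Real.exp_sub (θ * log 2) (log 2), Real.exp_log (by norm_num)]
    ring
  have hpos : 0 < 1 + Real.exp (θ * log 3) := by positivity
  rw [e1, Real.log_mul (Real.exp_pos _).ne' hpos.ne', Real.log_exp]
  ring

theorem term_le {ρ : ℝ} (h0 : 0 < ρ) (h1 : ρ < 1) (θ : ℝ) : θ * (log 2 - ρ * log 3) -
    log ((1 / 2) * ((2 : ℝ) ^ θ + (2 / 3 : ℝ) ^ θ)) ≤ log 2 - binEntropy ρ := by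
  rw [term_eq]
  have := gibbs h0 h1 (Real.exp_pos (θ * log 3))
  rw [Real.log_exp] at this
  linarith

theorem legendre {ρ : ℝ} (h0 : 0 < ρ) (h1 : ρ < 1) :
    gL (log 2 - ρ * log 3) = log 2 - binEntropy ρ := by
  have hl3 : log 3 ≠ 0 := (log_pos (by norm_num)).ne'
  have h1' : 0 < 1 - ρ := by linarith
  unfold gL
  apply le_antisymm
  · exact ciSup_le fun θ => term_le h0 h1 θ
  · refine le_trans (le_of_eq ?_) (le_ciSup (f := fun θ : ℝ => θ * (log 2 - ρ * log 3) -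
      log ((1 / 2) * ((2 : ℝ) ^ θ + (2 / 3 : ℝ) ^ θ))) ⟨log 2 - binEntropy ρ, ?_⟩
        (log ((1 - ρ) / ρ) / log 3))
    · show _ = log ((1 - ρ) / ρ) / log 3 * (log 2 - ρ * log 3) - _
      rw [term_eq, div_mul_cancel₀ _ hl3, Real.exp_log (by positivity)]
      have e1 : 1 + (1 - ρ) / ρ = 1 / ρ := by
        field_simp
        ring
      rw [e1, Real.log_div h1'.ne' h0.ne', one_div, Real.log_inv]
      unfold binEntropy
      rw [Real.log_inv, Real.log_inv]
      ring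
    · rintro _ ⟨θ, rfl⟩
      exact term_le h0 h1 θ

theorem log_ratio : (1 : ℝ) / 2 < log 2 / log 3 ∧ log 2 / log 3 < 1 := by
  have hl2 : 0 < log 2 := log_pos (by norm_num)
  have hl3 : 0 < log 3 := log_pos (by norm_num)
  constructor
  · rw [lt_div_iff₀ hl3]
    have : log 3 < log (2 ^ 2) := Real.log_lt_log (by norm_num) (by norm_num)
    rw [Real.log_pow] at this
    push_cast at this
    linarith
  · rw [div_lt_one hl3]
    exact Real.log_lt_log (by norm_num) (by norm_num)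

theorem exists_rho : ∃ ρ₀ : ℝ, 1 / 2 < ρ₀ ∧ ρ₀ < log 2 / log 3 ∧ binEntropy ρ₀ = ρ₀ * log 3 ∧
    (∀ ρ, 1 / 2 < ρ → ρ < ρ₀ → ρ * log 3 < binEntropy ρ) ∧
    (∀ ρ, 1 / 2 < ρ → ρ < 1 → binEntropy ρ = ρ * log 3 → ρ = ρ₀) := by
  obtain ⟨hr1, hr2⟩ := log_ratio
  have hl3 : 0 < log 3 := log_pos (by norm_num)
  have hanti : StrictAntiOn (fun ρ : ℝ => binEntropy ρ - ρ * log 3) (Set.Icc 2⁻¹ 1) := by
    intro x hx y hy hxy
    have h1 := binEntropy_strictAntiOn hx hy hxy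
    have h2 : x * log 3 < y * log 3 := mul_lt_mul_of_pos_right hxy hl3
    show binEntropy y - y * log 3 < binEntropy x - x * log 3
    linarith
  have hcont : ContinuousOn (fun ρ : ℝ => binEntropy ρ - ρ * log 3)
      (Set.Icc (1 / 2) (log 2 / log 3)) := by
    apply Continuous.continuousOn
    fun_prop
  have hhalf : 0 < binEntropy (1 / 2) - 1 / 2 * log 3 := by
    rw [one_div, binEntropy_two_inv]
    have : log 3 < log (2 ^ 2) := Real.log_lt_log (by norm_num) (by norm_num)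
    rw [Real.log_pow] at this
    push_cast at this
    linarith
  have hend : binEntropy (log 2 / log 3) - log 2 / log 3 * log 3 < 0 := by
    rw [div_mul_cancel₀ _ hl3.ne']
    have h1 : binEntropy (log 2 / log 3) < log 2 := by
      rw [binEntropy_lt_log_two]
      intro h
      rw [h] at hr1
      norm_num at hr1
    linarith
  obtain ⟨ρ₀, hρ, hzero⟩ := intermediate_value_Icc' hr1.le hcont
    (show (0 : ℝ) ∈ Set.Icc _ _ from ⟨hend.le, hhalf.le⟩)
  have hz : binEntropy ρ₀ - ρ₀ * log 3 = 0 := hzero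
  have hne1 : ρ₀ ≠ 1 / 2 := by
    intro h
    rw [h] at hz
    linarith
  have hne2 : ρ₀ ≠ log 2 / log 3 := by
    intro h
    rw [h] at hz
    linarith
  have hlo : 1 / 2 < ρ₀ := lt_of_le_of_ne hρ.1 (Ne.symm hne1)
  have hhi : ρ₀ < log 2 / log 3 := lt_of_le_of_ne hρ.2 hne2
  have hmem : ρ₀ ∈ Set.Icc (2⁻¹ : ℝ) 1 := by
    constructor
    · rw [← one_div]; exact hlo.le
    · linarith
  refine ⟨ρ₀, hlo, hhi, by linarith, ?_, ?_⟩
  · intro ρ h1 h2
    have hm : ρ ∈ Set.Icc (2⁻¹ : ℝ) 1 := by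
      constructor
      · rw [← one_div]; exact h1.le
      · linarith
    have := hanti hm hmem h2
    have h3 : binEntropy ρ₀ - ρ₀ * log 3 < binEntropy ρ - ρ * log 3 := this
    linarith
  · intro ρ h1 h2 h3
    have hm : ρ ∈ Set.Icc (2⁻¹ : ℝ) 1 := by
      constructor
      · rw [← one_div]; exact h1.le
      · exact h2.le
    apply hanti.injOn hm hmem
    show binEntropy ρ - ρ * log 3 = binEntropy ρ₀ - ρ₀ * log 3
    linarith

theorem half_log : (1 / 2) * log (4 / 3) = log 2 - 1 / 2 * log 3 := by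
  rw [Real.log_div (by norm_num) (by norm_num), show (4 : ℝ) = 2 ^ 2 by norm_num, Real.log_pow]
  push_cast
  ring

/-- Every `α` above the mean drift constant comes from a unique `ρ`. -/
theorem rho_of {α : ℝ} (hα : α > ((1 / 2) * log (4 / 3))⁻¹) :
    ∃ ρ, 1 / 2 < ρ ∧ ρ < log 2 / log 3 ∧ 1 / α = log 2 - ρ * log 3 := by
  have hl3 : 0 < log 3 := log_pos (by norm_num)
  have hpos : 0 < (1 / 2) * log (4 / 3) := by
    have : 0 < log (4 / 3) := log_pos (by norm_num)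
    positivity
  have hα0 : 0 < α := lt_trans (inv_pos.2 hpos) hα
  have h1 : 1 / α < (1 / 2) * log (4 / 3) := by
    rw [one_div]
    exact inv_lt_of_inv_lt₀ hpos hα
  have h0 : 0 < 1 / α := by positivity
  rw [half_log] at h1
  refine ⟨(log 2 - 1 / α) / log 3, ?_, ?_, ?_⟩
  · rw [lt_div_iff₀ hl3]
    linarith
  · rw [div_lt_div_iff_of_pos_right hl3]
    linarith
  · rw [div_mul_cancel₀ _ hl3.ne']
    ring

/-- The defining equation in terms of the binary entropy. -/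
theorem eq_iff {α ρ : ℝ} (hα : 0 < α) (h0 : 0 < ρ) (h1 : ρ < 1) (h : 1 / α = log 2 - ρ * log 3) :
    α * gL (1 / α) = 1 ↔ binEntropy ρ = ρ * log 3 := by
  rw [h, legendre h0 h1]
  have h2 : α * (1 / α) = 1 := by
    rw [mul_one_div, div_self hα.ne']
  rw [h] at h2
  constructor
  · intro h3
    have h4 : α * (log 2 - binEntropy ρ) = α * (log 2 - ρ * log 3) := by rw [h2, h3]
    have h5 := mul_left_cancel₀ hα.ne' h4
    linarith
  · intro h3
    rw [h3]
    exact h2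

theorem exponent_eq {α ρ : ℝ} (h0 : 0 < ρ) (h1 : ρ < 1)
    (h : 1 / α = log 2 - ρ * log 3) (hpos : 0 < log 2 - ρ * log 3) :
    1 - α * gL (1 / α) = (binEntropy ρ - ρ * log 3) / (log 2 - ρ * log 3) := by
  rw [h, legendre h0 h1]
  have hα : α = 1 / (log 2 - ρ * log 3) := by rw [← h, one_div_one_div]
  rw [hα]
  field_simp
  ring

/-- Existence and uniqueness of the constant. -/
theorem exists_gamma : ∃ γ₀ ρ₀ : ℝ, 1 / 2 < ρ₀ ∧ ρ₀ < log 2 / log 3 ∧
    γ₀ = 1 / (log 2 - ρ₀ * log 3) ∧ γ₀ > ((1 / 2) * log (4 / 3))⁻¹ ∧ γ₀ * gL (1 / γ₀) = 1 ∧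
    (∀ ρ, 1 / 2 < ρ → ρ < ρ₀ → ρ * log 3 < binEntropy ρ) ∧
    (∀ γ : ℝ, γ > ((1 / 2) * log (4 / 3))⁻¹ → γ * gL (1 / γ) = 1 → γ = γ₀) := by
  obtain ⟨ρ₀, h1, h2, h3, h4, h5⟩ := exists_rho
  obtain ⟨hr1, hr2⟩ := log_ratio
  have hl3 : 0 < log 3 := log_pos (by norm_num)
  have hpos : 0 < log 2 - ρ₀ * log 3 := by
    rw [lt_div_iff₀ hl3] at h2
    linarith
  have hhalf : 0 < (1 / 2) * log (4 / 3) := by
    have : 0 < log (4 / 3) := log_pos (by norm_num)
    positivity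
  refine ⟨1 / (log 2 - ρ₀ * log 3), ρ₀, h1, h2, rfl, ?_, ?_, h4, ?_⟩
  · show ((1 / 2) * log (4 / 3))⁻¹ < 1 / (log 2 - ρ₀ * log 3)
    rw [one_div (log 2 - ρ₀ * log 3), inv_lt_inv₀ hhalf hpos, half_log]
    have := mul_lt_mul_of_pos_right h1 hl3
    linarith
  · rw [eq_iff (by positivity) (by linarith) (by linarith) (one_div_one_div _)]
    exact h3
  · intro γ hγ hγ1
    obtain ⟨ρ, r1, r2, r3⟩ := rho_of hγ
    have hγ0 : 0 < γ := lt_trans (inv_pos.2 hhalf) hγ
    rw [eq_iff hγ0 (by linarith) (by linarith) r3] at hγ1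
    have : ρ = ρ₀ := h5 ρ r1 (by linarith) hγ1
    rw [← this, ← r3, one_div_one_div]

/-- The growth exponent at the tilt `1 - ρ`. -/
theorem growth_eq {ρ : ℝ} (h0 : 0 < ρ) :
    log ((1 - ρ) / (1 - (1 - ρ))) - log 3 + 1 / (1 - (1 - ρ)) * log (1 / (1 - ρ)) =
      binEntropy ρ / ρ - log 3 ∨ ρ = 1 := by
  by_cases h1 : ρ = 1
  · exact Or.inr h1
  left
  have h1' : 1 - ρ ≠ 0 := sub_ne_zero.2 (Ne.symm h1)
  rw [sub_sub_cancel, Real.log_div h1' h0.ne', one_div (1 - ρ), Real.log_inv]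
  unfold binEntropy
  rw [Real.log_inv, Real.log_inv]
  field_simp
  ring

end Pool.Agent.Collatz3.Leg
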