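import Pool.Agent.Collatz3.LTWords
import Pool.Agent.Collatz3.Deduce
import Pool.Agent.Collatz3.GLeg

set_option autoImplicit false

/-!
Words of the 3x+1 paths from a node up to one of its preimages, and the word bound.
-/

open Finset
open scoped Classical

namespace Pool.Agent.Collatz3.LT

/-- the word of the steps from `T3^[k] b` up to `b` -/
def wd : ℕ → ℕ → List Bool
  | 0, _ => []
  | k + 1, b => wd k (T3 b) ++ [decide (b % 2 = 1)]

theorem wd_length (k b : ℕ) : (wd k b).length = k := by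
  induction k generalizing b with
  | zero => rfl
  | succ k ih => simp [wd, ih]

theorem wd_add (m k b : ℕ) : wd (m + k) b = wd m (T3^[k] b) ++ wd k b := by
  induction k generalizing b with
  | zero => simp [wd]
  | succ k ih =>
    rw [← add_assoc, wd, ih, wd, Function.iterate_succ_apply, List.append_assoc]

theorem wd_one (b : ℕ) : wd 1 b = [decide (b % 2 = 1)] := by simp [wd]

theorem wd_step (b : ℕ) : Read (T3 b : ℤ) [decide (b % 2 = 1)] ∧
    nd (T3 b : ℤ) [decide (b % 2 = 1)] = b := by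
  by_cases h : b % 2 = 1
  · have e : (2 : ℤ) * (T3 b : ℤ) = 3 * b + 1 := by
      have : 2 * T3 b = 3 * b + 1 := by unfold T3; rw [if_neg (by omega)]; omega
      exact_mod_cast this
    rw [decide_eq_true h]
    have hj : jj [true] = 1 := by simp
    have hc : cc [true] = 1 := by simp
    constructor
    · unfold Read
      rw [hj, hc]
      exact ⟨b, by simp; linarith⟩
    · unfold nd
      rw [hj, hc]
      simp
      omega
  · have e : (2 : ℤ) * (T3 b : ℤ) = b := by
      have : 2 * T3 b = b := by unfold T3; rw [if_pos (by omega)]; omega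
      exact_mod_cast this
    rw [decide_eq_false h]
    have hj : jj [false] = 0 := by simp
    have hc : cc [false] = 0 := by simp
    constructor
    · unfold Read
      rw [hj, hc]
      simp
    · unfold nd
      rw [hj, hc]
      simp
      omega

theorem wd_read (k b : ℕ) : Read ((T3^[k] b : ℕ) : ℤ) (wd k b) ∧
    nd ((T3^[k] b : ℕ) : ℤ) (wd k b) = b := by
  induction k generalizing b with
  | zero => exact ⟨Read_nil _, nd_nil _⟩
  | succ k ih =>
    obtain ⟨h1, h2⟩ := ih (T3 b)
    obtain ⟨h3, h4⟩ := wd_step b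
    rw [Function.iterate_succ_apply, wd]
    have h5 : Read ((T3^[k] (T3 b) : ℕ) : ℤ) (wd k (T3 b) ++ [decide (b % 2 = 1)]) :=
      Read_append.2 ⟨h1, by rw [h2]; exact h3⟩
    refine ⟨h5, ?_⟩
    rw [nd_append h5, h2, h4]

theorem wd_spec (k b : ℕ) : 2 ^ k * T3^[k] b = 3 ^ jj (wd k b) * b + cc (wd k b) := by
  obtain ⟨h1, h2⟩ := wd_read k b
  have h3 := nd_spec h1
  rw [h2, wd_length] at h3
  exact_mod_cast h3

theorem iter_pos {k b m : ℕ} (h : 0 < T3^[k] b) (hm : m ≤ k) : 0 < T3^[m] b := by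
  rcases Nat.eq_zero_or_pos (T3^[m] b) with h0 | h0
  · exfalso
    have h1 : ∀ j : ℕ, T3^[j] 0 = 0 := fun j => by
      induction j with
      | zero => rfl
      | succ j ih => rw [Function.iterate_succ_apply]; exact ih
    have h2 : T3^[k] b = T3^[k - m] (T3^[m] b) := by
      rw [← Function.iterate_add_apply]; congr 2; omega
    rw [h2, h0, h1] at h
    exact lt_irrefl _ h
  · exact h0

theorem node_le (k b : ℕ) : (b : ℝ) ≤ (T3^[k] b : ℕ) * Real.exp (ht (wd k b)) := by
  have h := wd_spec k b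
  have h1 : 3 ^ jj (wd k b) * b ≤ 2 ^ k * T3^[k] b := by omega
  have h2 : (3 : ℝ) ^ jj (wd k b) * b ≤ 2 ^ k * (T3^[k] b : ℕ) := by exact_mod_cast h1
  unfold ht
  rw [exp_hh, wd_length, mul_div_assoc', le_div_iff₀ (by positivity)]
  linarith

/-- the heights of the suffixes -/
theorem ht_wd_sub {k m : ℕ} (h : m ≤ k) (b : ℕ) :
    ht (wd (k - m) (T3^[m] b)) = ht (wd k b) - ht (wd m b) := by
  have := wd_add (k - m) m b
  rw [Nat.sub_add_cancel h] at this
  rw [this, ht_append]
  ring

/-- decomposition at the lowest point -/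
theorem lowest (k b : ℕ) : ∃ m, m ≤ k ∧ (∀ j ≤ k, ht (wd j b) ≤ ht (wd m b)) ∧ Bar (wd m b) := by
  have hex : ∃ m, m ≤ k ∧ ∀ j ≤ k, ht (wd j b) ≤ ht (wd m b) := by
    obtain ⟨m, hm, h⟩ := exists_max_image (range (k + 1)) (fun j => ht (wd j b)) ⟨0, by simp⟩
    exact ⟨m, by rw [mem_range] at hm; omega, fun j hj => h j (by rw [mem_range]; omega)⟩
  obtain ⟨h1, h2⟩ := Nat.find_spec hex
  have hmin := fun j (hj : j < Nat.find hex) => Nat.find_min hex hj
  set m := Nat.find hex with hm
  refine ⟨m, h1, h2, ?_⟩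
  intro i hi1 hi2
  rw [wd_length] at hi2
  have h3 : (wd m b).take i = wd i (T3^[m - i] b) := by
    have := wd_add i (m - i) b
    rw [Nat.add_sub_cancel' hi2] at this
    rw [this, List.take_left' (wd_length _ _)]
  have h4 := hmin (m - i) (by omega)
  push Not at h4
  obtain ⟨j', hj1, hj2⟩ := h4 (by omega)
  have h5 := h2 j' hj1
  have h6 := ht_wd_sub (show m - i ≤ m by omega) b
  rw [Nat.sub_sub_self hi2] at h6
  rw [h3, h6]
  linarith

theorem Lam_pos {θ : ℝ} (h : θ < 1) : 0 < Lam θ := by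
  unfold Lam
  apply Real.log_pos
  have e1 : (2 : ℝ) ^ (-θ) = Real.exp (-θ * Real.log 2) := by
    rw [Real.rpow_def_of_pos (by norm_num), mul_comm]
  have e2 : (3 : ℝ) ^ (θ - 1) = Real.exp ((θ - 1) * Real.log 3) := by
    rw [Real.rpow_def_of_pos (by norm_num), mul_comm]
  rw [e1, e2]
  have l2 := log2_pos
  have l3 := log3_pos
  have l4 : Real.log 3 < 2 * Real.log 2 := by
    have : Real.log 3 < Real.log (2 ^ 2) := Real.log_lt_log (by norm_num) (by norm_num)
    rw [Real.log_pow] at this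
    push_cast at this
    linarith
  have hu : 0 < 1 - θ := by linarith
  have e3 : Real.exp (-θ * Real.log 2) = Real.exp ((1 - θ) * Real.log 2) / 2 := by
    rw [eq_div_iff (by norm_num)]
    nth_rewrite 2 [← Real.exp_log (show (0 : ℝ) < 2 by norm_num)]
    rw [← Real.exp_add]
    congr 1; ring
  rw [e3, mul_add, mul_one]
  have e4 : Real.exp ((1 - θ) * Real.log 2) / 2 * Real.exp ((θ - 1) * Real.log 3) =
      Real.exp ((1 - θ) * (Real.log 2 - Real.log 3)) / 2 := by
    rw [div_mul_eq_mul_div, ← Real.exp_add]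
    congr 2; ring
  rw [e4]
  have h1 := Real.add_one_lt_exp (show (1 - θ) * Real.log 2 ≠ 0 by positivity)
  have h2 := Real.add_one_le_exp ((1 - θ) * (Real.log 2 - Real.log 3))
  nlinarith

/-- **The word bound.** -/
theorem word_bound (hS : StmtS) {a : ℕ} (ha : 0 < a) {θ : ℝ} (hθ : θ < 1) {ε : ℝ} (hε : 0 < ε) :
    ∃ C : ℝ, 0 < C ∧ ∀ (k n : ℕ) (F : Finset ℕ), (∀ b ∈ F, T3^[k] b = a ∧ jj (wd k b) = n) →
      (F.card : ℝ) ≤ C * (k + 1) * Real.exp ((Lam θ + ε) * k + θ * hh k n) := by
  obtain ⟨C, hC⟩ := hS θ hθ ε hε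
  have hL := Lam_pos hθ
  have hla : 0 ≤ Real.log a := Real.log_natCast_nonneg a
  refine ⟨max C 1 * (a + 1) * Real.exp (|θ| * Real.log a), by positivity, ?_⟩
  intro k n F hF
  set h : ℝ := hh k n with hh_def
  have hAA : ∀ (m : ℕ) (x : ℤ), m ≤ k → AA θ m x ≤ max C 1 * Real.exp ((Lam θ + ε) * k) := by
    intro m x hm
    refine (hC m x).trans (mul_le_mul (le_max_left _ _) ?_ (Real.exp_pos _).le (by positivity))
    apply Real.exp_le_exp.2
    have : (m : ℝ) ≤ k := by exact_mod_cast hm
    nlinarith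
  set L : ℕ → ℕ → Finset (List Bool) := fun m y =>
    (BR m (y : ℤ)).filter fun v => h ≤ ht v ∧ ht v ≤ h + Real.log a with hLdef
  have h1 := sum_dec F (fun _ => (1 : ℝ)) (fun _ _ => zero_le_one) (range (k + 1))
    (fun _ => range (a + 1)) L
    (fun _ _ v => Real.exp (θ * h + |θ| * Real.log a) * Real.exp (-θ * ht v))
    (fun _ _ _ _ _ _ => by positivity) (fun _ y v => (nd (y : ℤ) v).toNat) ?_
  · rw [sum_const, nsmul_eq_mul, mul_one] at h1
    refine h1.trans ?_
    have h2 : ∀ m ∈ range (k + 1), ∑ y ∈ range (a + 1), ∑ v ∈ L m y,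
        Real.exp (θ * h + |θ| * Real.log a) * Real.exp (-θ * ht v) ≤
        (a + 1) * (Real.exp (θ * h + |θ| * Real.log a) *
          (max C 1 * Real.exp ((Lam θ + ε) * k))) := by
      intro m hm
      rw [mem_range] at hm
      refine (sum_le_sum fun y _ => ?_).trans (le_of_eq (by
        rw [sum_const, card_range, nsmul_eq_mul]; push_cast; rfl))
      rw [← mul_sum]
      refine mul_le_mul_of_nonneg_left ?_ (Real.exp_pos _).le
      refine le_trans ?_ (hAA m y (by omega))
      unfold AA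
      exact sum_le_sum_of_subset_of_nonneg (filter_subset _ _) fun _ _ _ => (Real.exp_pos _).le
    refine (sum_le_sum h2).trans (le_of_eq ?_)
    rw [sum_const, card_range, nsmul_eq_mul]
    rw [Real.exp_add (θ * h), Real.exp_add ((Lam θ + ε) * k)]
    push_cast
    ring
  · intro b hb
    obtain ⟨hb1, hb2⟩ := hF b hb
    obtain ⟨m, hm1, hm2, hm3⟩ := lowest k b
    have hpos : 0 < T3^[m] b := iter_pos (k := k) (by rw [hb1]; exact ha) hm1
    have hk : ht (wd k b) = h := by rw [ht, wd_length, hb2]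
    have hsub := ht_wd_sub hm1 b
    have hit : T3^[k - m] (T3^[m] b) = a := by
      rw [← Function.iterate_add_apply, Nat.sub_add_cancel hm1, hb1]
    have hnode := node_le (k - m) (T3^[m] b)
    rw [hit, hsub, hk] at hnode
    have hkm := hm2 k le_rfl
    rw [hk] at hkm
    have ha' : (0 : ℝ) < a := by exact_mod_cast ha
    have hya : T3^[m] b ≤ a := by
      have h3 : Real.exp (h - ht (wd m b)) ≤ 1 := by
        rw [Real.exp_le_one_iff]; linarith
      have h4 : ((T3^[m] b : ℕ) : ℝ) ≤ a := by nlinarith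
      exact_mod_cast h4
    have hy1 : (1 : ℝ) ≤ (T3^[m] b : ℕ) := by exact_mod_cast hpos
    have hlow : ht (wd m b) ≤ h + Real.log a := by
      have h3 := Real.log_le_log (by norm_num) (hy1.trans hnode)
      rw [Real.log_one, Real.log_mul ha'.ne' (Real.exp_pos _).ne', Real.log_exp] at h3
      linarith
    obtain ⟨hr1, hr2⟩ := wd_read m b
    refine ⟨m, by rw [mem_range]; omega, T3^[m] b, by rw [mem_range]; omega, wd m b, ?_, ?_, ?_⟩
    · rw [hLdef, mem_filter, mem_BR]
      exact ⟨⟨wd_length _ _, hm3, hr1⟩, hkm, hlow⟩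
    · show (nd ((T3^[m] b : ℕ) : ℤ) (wd m b)).toNat = b
      rw [hr2]; simp
    · rw [← Real.exp_add]
      apply Real.one_le_exp
      have h3 : |θ * (h - ht (wd m b))| ≤ |θ| * Real.log a := by
        rw [abs_mul]
        refine mul_le_mul_of_nonneg_left ?_ (abs_nonneg _)
        rw [abs_le]; constructor <;> linarith
      have h4 := neg_abs_le (θ * (h - ht (wd m b)))
      linarith

/-! ### the last node is large -/

theorem prod_le_card (F : Finset ℕ) (h : ∀ m ∈ F, 1 ≤ m) :
    ∏ m ∈ F, (1 + 1 / (m : ℝ)) ≤ F.card + 1 := by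
  induction F using Finset.induction_on_max with
  | empty => simp
  | insert M F hM ih =>
    have hnot : M ∉ F := fun hh => lt_irrefl _ (hM M hh)
    rw [prod_insert hnot, card_insert_of_notMem hnot]
    have h1 := ih fun m hm => h m (mem_insert_of_mem hm)
    have hM1 : 1 ≤ M := h M (mem_insert_self _ _)
    have hcard : F.card + 1 ≤ M := by
      have h2 : F ⊆ Finset.Ico 1 M := by
        intro m hm
        rw [mem_Ico]
        exact ⟨h m (mem_insert_of_mem hm), hM m hm⟩
      have h3 := card_le_card h2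
      rw [Nat.card_Ico] at h3
      omega
    have hM0 : (0 : ℝ) < M := by exact_mod_cast hM1
    have h4 : ((F.card : ℝ) + 1) ≤ M := by exact_mod_cast hcard
    have h5 : (1 + 1 / (M : ℝ)) * (F.card + 1) ≤ F.card + 1 + 1 := by
      have : 1 / (M : ℝ) * (F.card + 1) ≤ 1 := by
        rw [one_div, inv_mul_le_iff₀ hM0]; linarith
      linarith
    calc (1 + 1 / (M : ℝ)) * ∏ m ∈ F, (1 + 1 / (m : ℝ)) ≤ (1 + 1 / (M : ℝ)) * (F.card + 1) :=
          mul_le_mul_of_nonneg_left h1 (by positivity)
      _ ≤ F.card + 1 + 1 := h5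
      _ = _ := by push_cast; ring

theorem jj_wd_succ (k b : ℕ) : jj (wd (k + 1) b) = jj (wd k b) + if T3^[k] b % 2 = 1 then 1 else 0 := by
  rw [add_comm k 1, wd_add, jj_append, wd_one, add_comm]
  congr 1
  by_cases h : T3^[k] b % 2 = 1
  · rw [if_pos h, decide_eq_true h]; simp
  · rw [if_neg h, decide_eq_false h]; simp

theorem node_prod (k b : ℕ) (h : 0 < T3^[k] b) : (2 : ℝ) ^ k * (T3^[k] b : ℕ) ≤
    3 ^ jj (wd k b) * b * ∏ i ∈ range k, (1 + 1 / ((T3^[i] b : ℕ) : ℝ)) := by
  induction k with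
  | zero => simp [wd]
  | succ k ih =>
    have hpos : 0 < T3^[k] b := iter_pos h (Nat.le_succ k)
    have h1 := ih hpos
    rw [prod_range_succ, jj_wd_succ, Function.iterate_succ_apply', pow_succ]
    set x := T3^[k] b with hx
    have hx0 : (0 : ℝ) < x := by exact_mod_cast hpos
    have hpr : (0 : ℝ) ≤ ∏ i ∈ range k, (1 + 1 / ((T3^[i] b : ℕ) : ℝ)) :=
      prod_nonneg fun i _ => by positivity
    by_cases ho : x % 2 = 1
    · rw [if_pos ho, pow_succ]
      have e : (2 : ℝ) * (T3 x : ℕ) = 3 * x + 1 := by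
        have : 2 * T3 x = 3 * x + 1 := by unfold T3; rw [if_neg (by omega)]; omega
        exact_mod_cast this
      calc (2 : ℝ) ^ k * 2 * (T3 x : ℕ) = 2 ^ k * (3 * x + 1) := by rw [mul_assoc, e]
        _ ≤ 2 ^ k * (3 * (x * (1 + 1 / x))) := by
            refine mul_le_mul_of_nonneg_left ?_ (by positivity)
            have : (x : ℝ) * (1 + 1 / x) = x + 1 := by field_simp
            rw [this]; linarith
        _ = 3 * (2 ^ k * x) * (1 + 1 / x) := by ring
        _ ≤ 3 * (3 ^ jj (wd k b) * b * ∏ i ∈ range k, (1 + 1 / ((T3^[i] b : ℕ) : ℝ))) *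
              (1 + 1 / x) := by
            refine mul_le_mul_of_nonneg_right ?_ (by positivity)
            linarith
        _ = _ := by ring
    · rw [if_neg ho, add_zero]
      have e : (2 : ℝ) * (T3 x : ℕ) = x := by
        have : 2 * T3 x = x := by unfold T3; rw [if_pos (by omega)]; omega
        exact_mod_cast this
      calc (2 : ℝ) ^ k * 2 * (T3 x : ℕ) = 2 ^ k * x := by rw [mul_assoc, e]
        _ ≤ 3 ^ jj (wd k b) * b * ∏ i ∈ range k, (1 + 1 / ((T3^[i] b : ℕ) : ℝ)) := h1
        _ = (3 ^ jj (wd k b) * b * ∏ i ∈ range k, (1 + 1 / ((T3^[i] b : ℕ) : ℝ))) * 1 := by ring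
        _ ≤ (3 ^ jj (wd k b) * b * ∏ i ∈ range k, (1 + 1 / ((T3^[i] b : ℕ) : ℝ))) *
              (1 + 1 / x) := by
            refine mul_le_mul_of_nonneg_left ?_ (by positivity)
            have : (0 : ℝ) < 1 / x := by positivity
            linarith
        _ = _ := by ring

/-- if the nodes are distinct then the last node is large -/
theorem node_ge {k b : ℕ} (h : 0 < T3^[k] b) (hinj : Set.InjOn (fun i => T3^[i] b) (Set.Iio k)) :
    ((T3^[k] b : ℕ) : ℝ) * Real.exp (ht (wd k b)) ≤ b * (k + 1) := by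
  have h1 := node_prod k b h
  have h2 : ∏ i ∈ range k, (1 + 1 / ((T3^[i] b : ℕ) : ℝ)) ≤ k + 1 := by
    have h3 : ∏ i ∈ range k, (1 + 1 / ((T3^[i] b : ℕ) : ℝ)) =
        ∏ m ∈ (range k).image (fun i => T3^[i] b), (1 + 1 / (m : ℝ)) := by
      rw [prod_image]
      intro i hi j hj hij
      exact hinj (by simpa using hi) (by simpa using hj) hij
    rw [h3]
    refine (prod_le_card _ ?_).trans ?_
    · intro m hm
      obtain ⟨i, hi, rfl⟩ := mem_image.1 hm
      rw [mem_range] at hi
      exact iter_pos h hi.le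
    · have := card_image_le (s := range k) (f := fun i => T3^[i] b)
      rw [card_range] at this
      have : (((range k).image (fun i => T3^[i] b)).card : ℝ) ≤ k := by exact_mod_cast this
      linarith
  unfold ht
  rw [exp_hh, wd_length, mul_div_assoc', div_le_iff₀ (by positivity)]
  calc ((T3^[k] b : ℕ) : ℝ) * 2 ^ k = 2 ^ k * (T3^[k] b : ℕ) := mul_comm _ _
    _ ≤ 3 ^ jj (wd k b) * b * ∏ i ∈ range k, (1 + 1 / ((T3^[i] b : ℕ) : ℝ)) := h1
    _ ≤ 3 ^ jj (wd k b) * b * (k + 1) := mul_le_mul_of_nonneg_left h2 (by positivity)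
    _ = _ := by ring

/-- minimal hitting times have distinct nodes -/
theorem inj_of_minimal {k b a : ℕ} (h : T3^[k] b = a) (hmin : ∀ j < k, T3^[j] b ≠ a) :
    Set.InjOn (fun i => T3^[i] b) (Set.Iio k) := by
  have key : ∀ i j, i < j → j < k → T3^[i] b ≠ T3^[j] b := by
    intro i j hij hj he
    apply hmin (k - (j - i)) (by omega)
    have e1 : k - (j - i) = (k - j) + i := by omega
    have e2 : k = (k - j) + j := by omega
    rw [e1, Function.iterate_add_apply, he, ← Function.iterate_add_apply, ← e2, h]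
  intro i hi j hj hij
  rcases lt_trichotomy i j with h1 | h1 | h1
  · exact absurd hij (key i j h1 hj)
  · exact h1
  · exact absurd hij.symm (key j i h1 hi)

/-- base points: all nodes are distinct -/
theorem inj_of_base {A k b : ℕ} (h : T3^[k] b = A) (hA : ∀ j : ℕ, 0 < j → T3^[j] A ≠ A) :
    Set.InjOn (fun i => T3^[i] b) (Set.Iio k) := by
  refine inj_of_minimal h fun j hj he => ?_
  apply hA (k - j) (by omega)
  rw [← he, ← Function.iterate_add_apply, Nat.sub_add_cancel hj.le, h, he]

/-- the number of ones of the path belonging to a word of letters -/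
theorem jj_of_up {a b : ℤ} {w : List ℕ} (h : Up a w b) (ha : 0 < a) (hw : ∀ i ∈ w, 1 ≤ i) :
    jj (wd w.sum b.toNat) = w.length := by
  induction w generalizing a with
  | nil => simp [wd]
  | cons i w ih =>
    have hp := h.pos ha hw
    obtain ⟨x, hx, hu⟩ := h
    have hx0 : 0 < x := by
      have h1 : (2 : ℤ) ≤ 2 ^ i := by
        calc (2 : ℤ) = 2 ^ 1 := by norm_num
          _ ≤ 2 ^ i := pow_le_pow_right₀ (by norm_num) (hw i List.mem_cons_self)
      have h2 : (2 : ℤ) * 1 ≤ 2 ^ i * a := by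
        apply mul_le_mul h1 (by omega) (by norm_num) (by positivity)
      omega
    have hw' : ∀ j ∈ w, 1 ≤ j := fun j hj => hw j (List.mem_cons_of_mem _ hj)
    have h1 := ih hu hx0 hw'
    have h2 := hu.iter hx0 hw'
    rw [List.sum_cons, List.length_cons, wd_add, jj_append, h1, h2, add_comm]
    congr 1
    obtain ⟨j, rfl⟩ : ∃ j, i = j + 1 := ⟨i - 1, by have := hw i List.mem_cons_self; omega⟩
    obtain ⟨y, rfl⟩ : ∃ y : ℕ, x = y := ⟨x.toNat, by omega⟩
    obtain ⟨a', rfl⟩ : ∃ a' : ℕ, a = a' := ⟨a.toNat, by omega⟩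
    have hx' : 2 ^ (j + 1) * a' = 3 * y + 1 := by exact_mod_cast hx
    have hodd : y % 2 = 1 := by
      have e : 2 ^ (j + 1) * a' = 2 * (2 ^ j * a') := by ring
      omega
    have hT : T3 y = 2 ^ j * a' := by
      have e : 2 ^ (j + 1) * a' = 2 * (2 ^ j * a') := by ring
      unfold T3
      rw [if_neg (by omega)]
      omega
    rw [Int.toNat_natCast, wd, hT, jj_append, decide_eq_true hodd]
    have hz : ∀ (j : ℕ) (x : ℕ), jj (wd j (2 ^ j * x)) = 0 := by
      intro j
      induction j with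
      | zero => intro x; simp [wd]
      | succ j ih2 =>
        intro x
        have e : 2 ^ (j + 1) * x = 2 * (2 ^ j * x) := by ring
        rw [wd, e, T3_two_mul, jj_append, ih2, decide_eq_false (by omega)]
        simp
    rw [hz]
    simp

end Pool.Agent.Collatz3.LT
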