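import Pool.Agent.Collatz3.PBConst

set_option autoImplicit false

/-!
Powers and 3x+1 orbits: size of the iterates, number of ones, multiplicity.
-/

open Finset
open scoped Classical

namespace Pool.Agent.Collatz3.PB

open Pool.Agent.Helper14 (T)

private theorem T_even {n : ℤ} (h : 2 ∣ n) : 2 * T n = n := by
  unfold T
  rw [if_pos h]
  omega

private theorem T_odd {n : ℤ} (h : ¬ 2 ∣ n) : 2 * T n = 3 * n + 1 := by
  unfold T
  rw [if_neg h]
  omega

private theorem jt_succ_even {t : ℕ} {n : ℤ} (h : 2 ∣ T^[t] n) : jt (t + 1) n = jt t n := by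
  rw [jt, if_pos h]
  rfl

private theorem jt_succ_odd {t : ℕ} {n : ℤ} (h : ¬ 2 ∣ T^[t] n) : jt (t + 1) n = jt t n + 1 := by
  rw [jt, if_neg h]

private theorem ct_succ_even {t : ℕ} {n : ℤ} (h : 2 ∣ T^[t] n) : ct (t + 1) n = ct t n := by
  rw [ct, if_pos h]

private theorem ct_succ_odd {t : ℕ} {n : ℤ} (h : ¬ 2 ∣ T^[t] n) :
    ct (t + 1) n = 3 * ct t n + 2 ^ t := by
  rw [ct, if_neg h]

theorem size_le {B : ℝ} (hB : 1 ≤ B) {t : ℕ} (ht : (t : ℝ) ≤ B) (n : ℤ)
    (h : ∀ s < t, B ≤ |((T^[s] n : ℤ) : ℝ)|) :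
    (2 : ℝ) ^ t * |((T^[t] n : ℤ) : ℝ)| ≤ 2 * 3 ^ jt t n * |(n : ℝ)| := by
  have hB0 : 0 < B := by linarith
  set q : ℝ := 1 + 1 / (3 * B) with hq
  have hq1 : 1 ≤ q := by
    rw [hq]
    have : 0 < 1 / (3 * B) := by positivity
    linarith
  have key : ∀ s ≤ t, (2 : ℝ) ^ s * |((T^[s] n : ℤ) : ℝ)| ≤ q ^ s * 3 ^ jt s n * |(n : ℝ)| := by
    intro s
    induction s with
    | zero => intro _; simp [jt]
    | succ s ih =>
      intro hs
      have ih' := ih (by omega)
      have hx := h s (by omega)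
      rw [Function.iterate_succ_apply']
      set x : ℤ := T^[s] n with hxdef
      by_cases hev : 2 ∣ x
      · have e1 := T_even hev
        have e2 : 2 * |((T x : ℤ) : ℝ)| = |(x : ℝ)| := by
          have : ((2 * T x : ℤ) : ℝ) = (x : ℝ) := by rw [e1]
          rw [← this]
          push_cast
          rw [abs_mul]
          norm_num
        rw [jt_succ_even hev, pow_succ, mul_assoc, e2]
        refine ih'.trans ?_
        rw [pow_succ]
        have h0 : 0 ≤ q ^ s * 3 ^ jt s n * |(n : ℝ)| := by positivity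
        nlinarith
      · have e1 := T_odd hev
        have e2 : 2 * |((T x : ℤ) : ℝ)| ≤ 3 * q * |(x : ℝ)| := by
          have h1 : ((2 * T x : ℤ) : ℝ) = 3 * (x : ℝ) + 1 := by rw [e1]; push_cast; ring
          have h2 : 2 * |((T x : ℤ) : ℝ)| = |3 * (x : ℝ) + 1| := by
            rw [← h1]
            push_cast
            rw [abs_mul]
            norm_num
          rw [h2]
          have h3 : |3 * (x : ℝ) + 1| ≤ 3 * |(x : ℝ)| + 1 := by
            refine (abs_add_le _ _).trans ?_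
            rw [abs_mul]
            norm_num
          have h4 : 3 * q * |(x : ℝ)| = 3 * |(x : ℝ)| + |(x : ℝ)| / B := by
            rw [hq]
            field_simp
          rw [h4]
          have h5 : 1 ≤ |(x : ℝ)| / B := by
            rw [le_div_iff₀ hB0]
            linarith
          linarith
        rw [jt_succ_odd hev, pow_succ, mul_assoc]
        calc (2 : ℝ) ^ s * (2 * |((T x : ℤ) : ℝ)|) ≤ 2 ^ s * (3 * q * |(x : ℝ)|) :=
              mul_le_mul_of_nonneg_left e2 (by positivity)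
          _ = 3 * q * (2 ^ s * |(x : ℝ)|) := by ring
          _ ≤ 3 * q * (q ^ s * 3 ^ jt s n * |(n : ℝ)|) :=
              mul_le_mul_of_nonneg_left ih' (by positivity)
          _ = q ^ (s + 1) * 3 ^ (jt s n + 1) * |(n : ℝ)| := by ring
  have hqt : q ^ t ≤ 2 := by
    have h1 : q ≤ Real.exp (1 / (3 * B)) := by
      rw [hq]
      have := Real.add_one_le_exp (1 / (3 * B))
      linarith
    have h2 : q ^ t ≤ Real.exp (1 / (3 * B)) ^ t := pow_le_pow_left₀ (by linarith) h1 t
    refine h2.trans ?_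
    rw [← Real.exp_nat_mul]
    have h3 : (t : ℝ) * (1 / (3 * B)) ≤ 1 / 3 := by
      rw [mul_one_div, div_le_div_iff₀ (by positivity) (by norm_num)]
      linarith
    have h4 : Real.exp ((t : ℝ) * (1 / (3 * B))) ≤ Real.exp (1 / 3) := Real.exp_le_exp.mpr h3
    have h5 : Real.exp (1 / 3) ≤ 2 := by
      rw [← Real.le_log_iff_exp_le (by norm_num)]
      have := Real.log_two_gt_d9
      linarith
    exact h4.trans h5
  refine (key t le_rfl).trans ?_
  have h0 : 0 ≤ (3 : ℝ) ^ jt t n * |(n : ℝ)| := by positivity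
  nlinarith

theorem jt_ge {κ : ℝ} (hκ : 0 < κ) {k t : ℕ} (n : ℤ) (hn : |n| ≤ 2 ^ k)
    (ht : (t : ℝ) ≤ (2 : ℝ) ^ ((1 - κ) * k)) (h1 : 1 ≤ (2 : ℝ) ^ ((1 - κ) * k))
    (h : ∀ s ≤ t, (2 : ℝ) ^ ((1 - κ) * k) ≤ |((T^[s] n : ℤ) : ℝ)|) :
    rh * t - (κ * k + 1) ≤ jt t n := by
  have hs := size_le h1 ht n fun s hs => h s hs.le
  have hn' : |(n : ℝ)| ≤ 2 ^ k := by exact_mod_cast hn
  have h2 : (2 : ℝ) ^ t * (2 : ℝ) ^ ((1 - κ) * k) ≤ 2 * 3 ^ jt t n * 2 ^ k :=
    (mul_le_mul_of_nonneg_left (h t le_rfl) (by positivity)).trans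
      (hs.trans (mul_le_mul_of_nonneg_left hn' (by positivity)))
  have h3 := Real.log_le_log (by positivity) h2
  rw [Real.log_mul (by positivity) (by positivity), Real.log_mul (by positivity) (by positivity),
    Real.log_mul (by positivity) (by positivity), Real.log_pow, Real.log_pow, Real.log_pow,
    Real.log_rpow (by norm_num)] at h3
  have h30 : 0 < Real.log 3 := Real.log_pos (by norm_num)
  rw [← three_rh] at h3
  have h4 : Real.log 3 * (rh * t + rh * ((1 - κ) * k)) ≤
      Real.log 3 * (rh + jt t n + rh * k) := by linarith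
  have h5 := le_of_mul_le_mul_left h4 h30
  have h6 := rh_gt
  have h7 := rh_lt
  have h8 : 0 ≤ κ * k := by positivity
  nlinarith

private theorem ct_nonneg' (t : ℕ) (n : ℤ) : 0 ≤ ct t n := by
  induction t with
  | zero => simp [ct]
  | succ t ih =>
    by_cases hev : 2 ∣ T^[t] n
    · rw [ct_succ_even hev]; exact ih
    · rw [ct_succ_odd hev]; positivity

private theorem main_eq' (t : ℕ) (n : ℤ) : 2 ^ t * T^[t] n = 3 ^ jt t n * n + ct t n := by
  induction t with
  | zero => simp [ct, jt]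
  | succ t ih =>
    rw [Function.iterate_succ_apply']
    by_cases hev : 2 ∣ T^[t] n
    · have e := T_even hev
      rw [ct_succ_even hev, jt_succ_even hev, ← ih, pow_succ, mul_assoc, e]
    · have e := T_odd hev
      rw [ct_succ_odd hev, jt_succ_odd hev, pow_succ, mul_assoc, e]
      linear_combination 3 * ih

private theorem card_le_of_interval (S : Finset ℤ) (a L : ℝ) (hL : 0 ≤ L)
    (h : ∀ n ∈ S, a - L ≤ (n : ℝ) ∧ (n : ℝ) ≤ a) : (S.card : ℝ) ≤ L + 1 := by
  have hsub : S ⊆ Finset.Icc ⌈a - L⌉ ⌊a⌋ := by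
    intro n hn
    rw [Finset.mem_Icc]
    exact ⟨Int.ceil_le.mpr (h n hn).1, Int.le_floor.mpr (h n hn).2⟩
  have h1 : (S.card : ℝ) ≤ ((Finset.Icc ⌈a - L⌉ ⌊a⌋).card : ℝ) := by
    exact_mod_cast Finset.card_le_card hsub
  refine h1.trans ?_
  rw [Int.card_Icc]
  have h2 : (((⌊a⌋ + 1 - ⌈a - L⌉).toNat : ℕ) : ℝ) = ((max (⌊a⌋ + 1 - ⌈a - L⌉) 0 : ℤ) : ℝ) := by
    rw [← Int.toNat_eq_max]
    push_cast
    rfl
  rw [h2, Int.cast_max]
  refine max_le ?_ (by push_cast; linarith)
  push_cast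
  have h3 := Int.floor_le a
  have h4 := Int.le_ceil (a - L)
  linarith

theorem mult (t : ℕ) {A : ℝ} (hA : 0 ≤ A) (m : ℤ) (S : Finset ℤ)
    (hS : ∀ n ∈ S, T^[t] n = m ∧ ∀ i < t, (2 : ℝ) ^ i ≤ A * 3 ^ jt i n) :
    (S.card : ℝ) ≤ (t + 1) * (t * A + 2) := by
  have hct : ∀ n ∈ S, ∀ s ≤ t, (ct s n : ℝ) ≤ s * A / 3 * 3 ^ jt s n := by
    intro n hn s
    induction s with
    | zero => intro _; simp [ct]
    | succ s ih =>
      intro hs
      have ih' := ih (by omega)
      have hi := (hS n hn).2 s (by omega)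
      by_cases hev : 2 ∣ T^[s] n
      · rw [ct_succ_even hev, jt_succ_even hev]
        refine ih'.trans ?_
        push_cast
        have : 0 ≤ A / 3 * 3 ^ jt s n := by positivity
        nlinarith
      · rw [ct_succ_odd hev, jt_succ_odd hev, pow_succ]
        push_cast
        nlinarith
  have hjt : ∀ n : ℤ, ∀ s : ℕ, jt s n ≤ s := by
    intro n s
    induction s with
    | zero => simp [jt]
    | succ s ih =>
      by_cases hev : 2 ∣ T^[s] n
      · rw [jt_succ_even hev]; omega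
      · rw [jt_succ_odd hev]; omega
  have hcard := Finset.card_eq_sum_card_fiberwise (f := fun n : ℤ => jt t n) (s := S)
    (t := Finset.range (t + 1)) (by
      intro n _
      simp only [Finset.coe_range, Set.mem_Iio]
      exact Nat.lt_succ_of_le (hjt n t))
  rw [hcard]
  push_cast
  have hb : ∀ j ∈ Finset.range (t + 1), (((S.filter fun n => jt t n = j).card : ℕ) : ℝ) ≤
      t * A + 2 := by
    intro j _
    have hL : 0 ≤ (t : ℝ) * A / 3 := by positivity
    have h := card_le_of_interval (S.filter fun n => jt t n = j) ((2 : ℝ) ^ t * m / 3 ^ j)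
      (t * A / 3) hL ?_
    · refine h.trans ?_
      linarith
    · intro n hn
      rw [Finset.mem_filter] at hn
      obtain ⟨hnS, hnj⟩ := hn
      have e1 : (2 : ℤ) ^ t * m = 3 ^ j * n + ct t n := by
        rw [← (hS n hnS).1, ← hnj]
        exact main_eq' t n
      have e2 : (2 : ℝ) ^ t * m = 3 ^ j * n + ct t n := by exact_mod_cast e1
      have e3 : (0 : ℝ) ≤ ct t n := by exact_mod_cast ct_nonneg' t n
      have e4 := hct n hnS t le_rfl
      rw [hnj] at e4
      have h3 : (0 : ℝ) < 3 ^ j := by positivity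
      rw [e2]
      have e5 : ((3 : ℝ) ^ j * n + ct t n) / 3 ^ j = n + ct t n / 3 ^ j := by
        field_simp
      rw [e5]
      have e6 : (ct t n : ℝ) / 3 ^ j ≤ t * A / 3 := by
        rw [div_le_iff₀ h3]
        exact e4
      have e7 : 0 ≤ (ct t n : ℝ) / 3 ^ j := by positivity
      exact ⟨by linarith, by linarith⟩
  refine (Finset.sum_le_sum hb).trans ?_
  rw [Finset.sum_const, Finset.card_range, nsmul_eq_mul]
  push_cast
  exact le_rfl

end Pool.Agent.Collatz3.PB
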