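import Pool.Agent.Collatz3.PBBasic
import Pool.Agent.Collatz3.PBSize
import Pool.Agent.Collatz3.LTMain

set_option autoImplicit false

/-!
PowerBarrier, module TRANS: integers whose orbit reaches a given record low value `m` quickly.
-/

open Finset
open scoped Classical

namespace Pool.Agent.Collatz3.PB

open Pool.Agent.Helper14 (T)
open Pool.Agent.Collatz3.LT (jj cc hh ht Bar Read nd BR AA Lam)

/-- the backward word from `T^[s] n` to `n` -/
noncomputable def trW : ℕ → ℤ → List Bool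
  | 0, _ => []
  | s + 1, n => (if 2 ∣ T^[s] n then false else true) :: trW s n

theorem trW_length (s : ℕ) (n : ℤ) : (trW s n).length = s := by
  induction s with
  | zero => rfl
  | succ s ih =>
    show ((if 2 ∣ T^[s] n then false else true) :: trW s n).length = s + 1
    rw [List.length_cons, ih]

theorem trW_jj (s : ℕ) (n : ℤ) : jj (trW s n) = jt s n := by
  induction s with
  | zero => rfl
  | succ s ih =>
    show jj ((if 2 ∣ T^[s] n then false else true) :: trW s n) =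
      jt s n + (if 2 ∣ T^[s] n then 0 else 1)
    split_ifs with h
    · rw [LT.jj_false, ih, add_zero]
    · rw [LT.jj_true, ih]

theorem trW_cc (s : ℕ) (n : ℤ) : ((cc (trW s n) : ℕ) : ℤ) = ct s n := by
  induction s with
  | zero => rfl
  | succ s ih =>
    show ((cc ((if 2 ∣ T^[s] n then false else true) :: trW s n) : ℕ) : ℤ) =
      if 2 ∣ T^[s] n then ct s n else 3 * ct s n + 2 ^ s
    split_ifs with h
    · rw [LT.cc_false, ih]
    · rw [LT.cc_true, trW_length]
      push_cast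
      rw [ih]
      ring

theorem trW_take (s : ℕ) (n : ℤ) : ∀ i ≤ s, jj ((trW s n).take i) + jt (s - i) n = jt s n := by
  induction s with
  | zero =>
    intro i hi
    have : i = 0 := by omega
    subst this
    rfl
  | succ s ih =>
    intro i hi
    rcases i with _ | i
    · simp [jj]
    · have h1 := ih i (by omega)
      have h2 : s + 1 - (i + 1) = s - i := by omega
      rw [h2]
      show jj (((if 2 ∣ T^[s] n then false else true) :: trW s n).take (i + 1)) + jt (s - i) n =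
        jt s n + (if 2 ∣ T^[s] n then 0 else 1)
      rw [List.take_succ_cons]
      split_ifs with h
      · rw [LT.jj_false]
        omega
      · rw [LT.jj_true]
        omega

theorem trW_read (s : ℕ) (n : ℤ) : Read (T^[s] n) (trW s n) ∧ nd (T^[s] n) (trW s n) = n := by
  have h := main_eq s n
  have h1 : (2 : ℤ) ^ (trW s n).length * T^[s] n - (cc (trW s n) : ℕ) =
      3 ^ jj (trW s n) * n := by
    rw [trW_length, trW_jj, trW_cc]
    linarith
  constructor
  · show (3 : ℤ) ^ jj (trW s n) ∣ 2 ^ (trW s n).length * T^[s] n - (cc (trW s n) : ℕ)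
    exact ⟨n, h1⟩
  · show (2 ^ (trW s n).length * T^[s] n - (cc (trW s n) : ℕ)) / 3 ^ jj (trW s n) = n
    rw [h1]
    exact Int.mul_ediv_cancel_left _ (by positivity)

/-- the first highest position of a word -/
theorem tr_exists_top (t : ℕ) (n : ℤ) : ∃ s ≤ t, (∀ s' ≤ t, hh s' (jt s' n) ≤ hh s (jt s n)) ∧
    ∀ s' < s, hh s' (jt s' n) < hh s (jt s n) := by
  have hex : ∃ s, s ≤ t ∧ ∀ s' ≤ t, hh s' (jt s' n) ≤ hh s (jt s n) := by
    obtain ⟨s, hs, hmax⟩ := Finset.exists_max_image (range (t + 1)) (fun s => hh s (jt s n))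
      ⟨0, by simp⟩
    refine ⟨s, by simpa [Nat.lt_succ_iff] using hs, fun s' hs' => hmax s' ?_⟩
    simpa [Nat.lt_succ_iff] using hs'
  refine ⟨Nat.find hex, (Nat.find_spec hex).1, (Nat.find_spec hex).2, ?_⟩
  intro s' hs'
  have h1 := Nat.find_min hex hs'
  have h2 : s' ≤ t := hs'.le.trans (Nat.find_spec hex).1
  push Not at h1
  obtain ⟨s'', h3, h4⟩ := h1 h2
  exact h4.trans_le ((Nat.find_spec hex).2 s'' h3)

theorem trW_bar {s : ℕ} {n : ℤ} (h : ∀ s' < s, hh s' (jt s' n) < hh s (jt s n)) :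
    Bar (trW s n) := by
  intro i h1 h2
  rw [trW_length] at h2
  have h3 := h (s - i) (by omega)
  have h4 := trW_take s n i h2
  have h5 : ((trW s n).take i).length = i := by
    rw [List.length_take, trW_length]
    omega
  show 0 < hh ((trW s n).take i).length (jj ((trW s n).take i))
  rw [h5]
  have h6 : hh s (jt s n) = hh i (jj ((trW s n).take i)) + hh (s - i) (jt (s - i) n) := by
    rw [← LT.hh_add, h4]
    congr 1
    omega
  linarith

theorem tr_ct_le (b : ℤ) : ∀ u : ℕ, (∀ i < u, (2 : ℤ) ^ i ≤ 3 ^ jt i b) →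
    3 * ct u b ≤ u * 3 ^ jt u b := by
  intro u
  induction u with
  | zero => intro _; simp [ct]
  | succ u ih =>
    intro h
    have h1 := ih fun i hi => h i (by omega)
    have h2 := h u (by omega)
    show 3 * (if 2 ∣ T^[u] b then ct u b else 3 * ct u b + 2 ^ u) ≤
      ((u + 1 : ℕ) : ℤ) * 3 ^ (jt u b + (if 2 ∣ T^[u] b then 0 else 1))
    have h3 : (0 : ℤ) ≤ 3 ^ jt u b := by positivity
    split_ifs with hd
    · push_cast
      rw [add_zero]
      nlinarith
    · push_cast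
      rw [pow_succ]
      nlinarith

/-- the elements above a threshold at a fixed height -/
theorem tr_count (θ : ℝ) (hθ0 : 0 ≤ θ) (hθ1 : θ ≤ 1) {Y : ℝ} (hY : 1 ≤ Y) (s : ℕ) (b : ℤ) :
    ((((BR s b).filter fun w => Real.exp (ht w) ≤ Y).card : ℕ) : ℝ) ≤ Y * AA θ s b := by
  have hY0 : 0 < Y := by linarith
  have h1 : ∀ w ∈ (BR s b).filter fun w => Real.exp (ht w) ≤ Y,
      Y ^ (-θ) ≤ Real.exp (-θ * ht w) := by
    intro w hw
    have h2 := (Finset.mem_filter.1 hw).2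
    have h3 := Real.rpow_le_rpow_of_nonpos (Real.exp_pos _) h2 (by linarith : -θ ≤ 0)
    rw [← Real.exp_mul] at h3
    rwa [mul_comm (-θ)]
  have h2 : ((((BR s b).filter fun w => Real.exp (ht w) ≤ Y).card : ℕ) : ℝ) * Y ^ (-θ) ≤
      AA θ s b := by
    rw [← nsmul_eq_mul, ← Finset.sum_const]
    refine (Finset.sum_le_sum h1).trans ?_
    exact Finset.sum_le_sum_of_subset_of_nonneg (Finset.filter_subset _ _)
      fun w _ _ => (Real.exp_pos _).le
  have h3 : 0 < Y ^ θ := Real.rpow_pos_of_pos hY0 _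
  have h4 : Y ^ (-θ) = (Y ^ θ)⁻¹ := Real.rpow_neg hY0.le _
  have h5 : Y ^ θ ≤ Y := by
    have := Real.rpow_le_rpow_of_exponent_le hY hθ1
    rwa [Real.rpow_one] at this
  rw [h4, ← div_eq_mul_inv, div_le_iff₀ h3] at h2
  have h6 : 0 ≤ AA θ s b := LT.AA_nonneg θ s b
  calc ((((BR s b).filter fun w => Real.exp (ht w) ≤ Y).card : ℕ) : ℝ) ≤ AA θ s b * Y ^ θ := h2
    _ ≤ AA θ s b * Y := mul_le_mul_of_nonneg_left h5 h6
    _ = Y * AA θ s b := mul_comm _ _

theorem tr_Lam (δ : ℝ) (hδ : 0 ≤ δ) : Lam (1 - δ) ≤ δ * Real.log 2 := by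
  unfold Lam
  have h1 : (3 : ℝ) ^ (1 - δ - 1) ≤ 1 := by
    apply Real.rpow_le_one_of_one_le_of_nonpos (by norm_num)
    linarith
  have h2 : (0 : ℝ) < (3 : ℝ) ^ (1 - δ - 1) := Real.rpow_pos_of_pos (by norm_num) _
  have h3 : (0 : ℝ) < (2 : ℝ) ^ (-(1 - δ)) := Real.rpow_pos_of_pos (by norm_num) _
  rw [Real.log_mul h3.ne' (by positivity), Real.log_rpow (by norm_num)]
  have h4 : Real.log (1 + (3 : ℝ) ^ (1 - δ - 1)) ≤ Real.log 2 :=
    Real.log_le_log (by positivity) (by linarith)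
  nlinarith

/-- the candidates for the highest node -/
noncomputable def trB (N : ℕ) (m : ℤ) : Finset ℤ :=
  (range (N + 1)).image (fun i : ℕ => |m| + (i : ℤ)) ∪
    (range (N + 1)).image (fun i : ℕ => -(|m| + (i : ℤ)))

theorem trB_card (N : ℕ) (m : ℤ) : (trB N m).card ≤ 2 * (N + 1) := by
  unfold trB
  refine (Finset.card_union_le _ _).trans ?_
  have h1 := Finset.card_image_le (s := range (N + 1)) (f := fun i : ℕ => |m| + (i : ℤ))
  have h2 := Finset.card_image_le (s := range (N + 1)) (f := fun i : ℕ => -(|m| + (i : ℤ)))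
  rw [Finset.card_range] at h1 h2
  omega

theorem mem_trB {N : ℕ} {m b : ℤ} (h1 : |m| ≤ |b|) (h2 : |b| ≤ |m| + N) : b ∈ trB N m := by
  unfold trB
  rw [Finset.mem_union, Finset.mem_image, Finset.mem_image]
  obtain ⟨i, hi⟩ := Int.eq_ofNat_of_zero_le (show 0 ≤ |b| - |m| by linarith)
  have hiN : i ∈ range (N + 1) := by
    rw [Finset.mem_range]
    omega
  rcases abs_choice b with h | h
  · left
    exact ⟨i, hiN, by omega⟩
  · right
    exact ⟨i, hiN, by omega⟩

/-- the structure of one element -/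
theorem tr_struct {X : ℝ} {N : ℕ} {m : ℤ} (hm : 1 ≤ |(m : ℝ)|)
    (hN : (N : ℝ) ≤ |(m : ℝ)|) {n : ℤ} (hn : |(n : ℝ)| ≤ X) {t : ℕ} (htN : t ≤ N)
    (hT : T^[t] n = m) (h : ∀ s < t, |(m : ℝ)| < |((T^[s] n : ℤ) : ℝ)|) :
    ∃ s ≤ N, ∃ b ∈ trB N m, ∃ w ∈ BR s b, Real.exp (ht w) ≤ 2 * X / |(m : ℝ)| ∧ nd b w = n := by
  obtain ⟨s, hst, hmax, hlt⟩ := tr_exists_top t n
  obtain ⟨u, hu⟩ : ∃ u, t = s + u := ⟨t - s, by omega⟩
  set b := T^[s] n with hb
  have hbm : |(m : ℝ)| ≤ |(b : ℝ)| := by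
    rcases Nat.lt_or_ge s t with h1 | h1
    · exact (h s h1).le
    · have : s = t := le_antisymm hst h1
      rw [hb, this, hT]
  have hTb : T^[u] b = m := by
    rw [hb, ← Function.iterate_add_apply, add_comm, ← hu, hT]
  have hpow : ∀ i ≤ u, (2 : ℤ) ^ i ≤ 3 ^ jt i b := by
    intro i hi
    have h1 := hmax (s + i) (by omega)
    rw [jt_add, LT.hh_add, ← hb] at h1
    have h2 : hh i (jt i b) ≤ 0 := by linarith
    have h3 : ¬ (3 ^ jt i b < 2 ^ i) := fun h4 => absurd (LT.hh_pos_iff.2 h4) (not_lt.2 h2)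
    have h4 : 2 ^ i ≤ 3 ^ jt i b := not_lt.1 h3
    exact_mod_cast h4
  have hct := tr_ct_le b u fun i hi => hpow i hi.le
  have hmain := main_eq u b
  rw [hTb] at hmain
  have hbN : |b| ≤ |m| + N := by
    have h1 := hpow u le_rfl
    have h3 : (0 : ℤ) < 3 ^ jt u b := by positivity
    have h4 : 3 ^ jt u b * |b| ≤ 3 ^ jt u b * (|m| + u) := by
      have h5 : 3 ^ jt u b * |b| = |2 ^ u * m - ct u b| := by
        have : 2 ^ u * m - ct u b = 3 ^ jt u b * b := by linarith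
        rw [this, abs_mul, abs_of_pos h3]
      rw [h5]
      have h6 : |2 ^ u * m - ct u b| ≤ 2 ^ u * |m| + ct u b := by
        have h7 := abs_sub (2 ^ u * m) (ct u b)
        rw [abs_mul, abs_of_pos (by positivity : (0 : ℤ) < 2 ^ u), abs_of_nonneg (ct_nonneg u b)] at h7
        exact h7
      have h7 : (2 : ℤ) ^ u * |m| ≤ 3 ^ jt u b * |m| := mul_le_mul_of_nonneg_right h1 (abs_nonneg m)
      have h8 := ct_nonneg u b
      have h9 : ct u b ≤ u * 3 ^ jt u b := by linarith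
      nlinarith
    have h5 := le_of_mul_le_mul_left h4 h3
    have h6 : (u : ℤ) ≤ N := by
      have : u ≤ N := by omega
      exact_mod_cast this
    linarith
  have hbm' : |m| ≤ |b| := by exact_mod_cast hbm
  have hsz := size_le (B := |(m : ℝ)|) hm (t := s)
    (by
      have h1 : (s : ℝ) ≤ N := by
        have : s ≤ N := by omega
        exact_mod_cast this
      linarith) n
    (fun s' hs' => (h s' (by omega)).le)
  rw [← hb] at hsz
  refine ⟨s, by omega, b, mem_trB hbm' hbN, trW s n, ?_, ?_, ?_⟩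
  · rw [LT.mem_BR]
    exact ⟨trW_length s n, trW_bar hlt, (trW_read s n).1⟩
  · have h1 : Real.exp (ht (trW s n)) = 2 ^ s / 3 ^ jt s n := by
      show Real.exp (hh (trW s n).length (jj (trW s n))) = _
      rw [trW_length, trW_jj, LT.exp_hh]
    rw [h1, div_le_div_iff₀ (by positivity) (by linarith)]
    have h2 : (2 : ℝ) ^ s * |(m : ℝ)| ≤ 2 ^ s * |(b : ℝ)| :=
      mul_le_mul_of_nonneg_left hbm (by positivity)
    have h3 : 2 * (3 : ℝ) ^ jt s n * |(n : ℝ)| ≤ 2 * 3 ^ jt s n * X :=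
      mul_le_mul_of_nonneg_left hn (by positivity)
    calc (2 : ℝ) ^ s * |(m : ℝ)| ≤ 2 * 3 ^ jt s n * X := by linarith
      _ = 2 * X * 3 ^ jt s n := by ring
  · exact (trW_read s n).2

theorem transfer {B : ℝ} (hB : 0 < B) {ε : ℝ} (hε : 0 < ε) : ∃ C : ℝ, 0 < C ∧ ∀ X : ℝ, 1 ≤ X →
    ∀ m : ℤ, 1 ≤ |(m : ℝ)| → B * Real.log X ≤ |(m : ℝ)| →
      ((Set.ncard {n : ℤ | |(n : ℝ)| ≤ X ∧ ∃ t : ℕ, (t : ℝ) ≤ B * Real.log X ∧ T^[t] n = m ∧
        ∀ s < t, |(m : ℝ)| < |((T^[s] n : ℤ) : ℝ)|} : ℕ) : ℝ) ≤ C * X ^ (1 + ε) / |(m : ℝ)| := by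
  obtain ⟨δ, hδ0, hδ1, hδ2⟩ : ∃ δ : ℝ, 0 < δ ∧ δ ≤ 1 / 2 ∧ δ ≤ ε / (4 * B) :=
    ⟨min (1 / 2) (ε / (4 * B)), lt_min (by norm_num) (by positivity), min_le_left _ _,
      min_le_right _ _⟩
  obtain ⟨C, hC⟩ := LT.theoremS (1 - δ) (by linarith) (ε / (4 * B)) (by positivity)
  have hLam : Lam (1 - δ) + ε / (4 * B) ≤ ε / (2 * B) := by
    have h1 := tr_Lam δ hδ0.le
    have h2 : Real.log 2 ≤ 1 := by
      have := Real.log_two_lt_d9
      linarith
    have h3 : δ * Real.log 2 ≤ δ * 1 := mul_le_mul_of_nonneg_left h2 hδ0.le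
    have h4 : ε / (2 * B) = ε / (4 * B) + ε / (4 * B) := by
      field_simp
      ring
    rw [h4]
    linarith
  have hC1 : (0 : ℝ) ≤ |C| := abs_nonneg C
  refine ⟨4 * (4 * B / ε + 1) ^ 2 * (|C| + 1), by positivity, ?_⟩
  intro X hX m hm hBm
  have hXpos : 0 < X := by linarith
  have hmpos : 0 < |(m : ℝ)| := by linarith
  rcases lt_or_ge X |(m : ℝ)| with hXm | hXm
  · -- nothing to count
    have hempty : {n : ℤ | |(n : ℝ)| ≤ X ∧ ∃ t : ℕ, (t : ℝ) ≤ B * Real.log X ∧ T^[t] n = m ∧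
        ∀ s < t, |(m : ℝ)| < |((T^[s] n : ℤ) : ℝ)|} = ∅ := by
      rw [Set.eq_empty_iff_forall_notMem]
      rintro n ⟨h1, t, -, h2, h3⟩
      rcases Nat.eq_zero_or_pos t with rfl | ht
      · simp only [Function.iterate_zero, id_eq] at h2
        rw [h2] at h1
        linarith
      · have h4 := h3 0 ht
        simp only [Function.iterate_zero, id_eq] at h4
        linarith
    rw [hempty, Set.ncard_empty]
    simp only [Nat.cast_zero]
    positivity
  have hlogX : 0 ≤ Real.log X := Real.log_nonneg hX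
  have hτ : 0 ≤ B * Real.log X := by positivity
  obtain ⟨N, hN⟩ : ∃ N : ℕ, N = ⌊B * Real.log X⌋₊ := ⟨_, rfl⟩
  have hNle : (N : ℝ) ≤ B * Real.log X := by
    rw [hN]
    exact Nat.floor_le hτ
  obtain ⟨Y, hYdef⟩ : ∃ Y : ℝ, Y = 2 * X / |(m : ℝ)| := ⟨_, rfl⟩
  have hY : 1 ≤ Y := by
    rw [hYdef, le_div_iff₀ hmpos]
    linarith
  let Big : Finset ℤ := (range (N + 1)).biUnion fun s => (trB N m).biUnion fun b =>
    ((BR s b).filter fun w => Real.exp (ht w) ≤ Y).image (nd b)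
  have hsub : {n : ℤ | |(n : ℝ)| ≤ X ∧ ∃ t : ℕ, (t : ℝ) ≤ B * Real.log X ∧ T^[t] n = m ∧
      ∀ s < t, |(m : ℝ)| < |((T^[s] n : ℤ) : ℝ)|} ⊆ (Big : Set ℤ) := by
    rintro n ⟨h1, t, h2, h3, h4⟩
    have h5 : t ≤ N := by
      rw [hN]
      exact Nat.le_floor h2
    obtain ⟨s, hs, b, hb, w, hw, hw2, hw3⟩ := tr_struct hm (hNle.trans hBm) h1 h5 h3 h4
    rw [Finset.mem_coe]
    refine Finset.mem_biUnion.2 ⟨s, Finset.mem_range.2 (by omega), ?_⟩
    refine Finset.mem_biUnion.2 ⟨b, hb, ?_⟩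
    refine Finset.mem_image.2 ⟨w, Finset.mem_filter.2 ⟨hw, ?_⟩, hw3⟩
    rw [hYdef]
    exact hw2
  have hcardle : ((Set.ncard {n : ℤ | |(n : ℝ)| ≤ X ∧ ∃ t : ℕ, (t : ℝ) ≤ B * Real.log X ∧
      T^[t] n = m ∧ ∀ s < t, |(m : ℝ)| < |((T^[s] n : ℤ) : ℝ)|} : ℕ) : ℝ) ≤ Big.card := by
    have h1 := Set.ncard_le_ncard hsub (Finset.finite_toSet Big)
    rw [Set.ncard_coe_finset] at h1
    exact_mod_cast h1
  -- bound for one height and one node
  have hone : ∀ s ∈ range (N + 1), ∀ b : ℤ,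
      ((((BR s b).filter fun w => Real.exp (ht w) ≤ Y).card : ℕ) : ℝ) ≤
        Y * (|C| * X ^ (ε / 2)) := by
    intro s hs b
    have hsN : s ≤ N := Nat.lt_succ_iff.1 (Finset.mem_range.1 hs)
    have hsN' : (s : ℝ) ≤ B * Real.log X := by
      have : (s : ℝ) ≤ N := by exact_mod_cast hsN
      linarith
    refine (tr_count (1 - δ) (by linarith) (by linarith) hY s b).trans ?_
    refine mul_le_mul_of_nonneg_left ?_ (by linarith)
    refine (hC s b).trans ?_
    have h1 : Real.exp ((Lam (1 - δ) + ε / (4 * B)) * s) ≤ X ^ (ε / 2) := by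
      rw [Real.rpow_def_of_pos hXpos]
      apply Real.exp_le_exp.2
      calc (Lam (1 - δ) + ε / (4 * B)) * s ≤ ε / (2 * B) * s :=
            mul_le_mul_of_nonneg_right hLam (Nat.cast_nonneg s)
        _ ≤ ε / (2 * B) * (B * Real.log X) := mul_le_mul_of_nonneg_left hsN' (by positivity)
        _ = Real.log X * (ε / 2) := by
            field_simp
    calc C * Real.exp ((Lam (1 - δ) + ε / (4 * B)) * s)
        ≤ |C| * Real.exp ((Lam (1 - δ) + ε / (4 * B)) * s) :=
          mul_le_mul_of_nonneg_right (le_abs_self C) (Real.exp_pos _).le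
      _ ≤ |C| * X ^ (ε / 2) := mul_le_mul_of_nonneg_left h1 hC1
  have hBig : (Big.card : ℝ) ≤ (N + 1) * ((2 * (N + 1)) * (Y * (|C| * X ^ (ε / 2)))) := by
    have hXe : 0 < X ^ (ε / 2) := Real.rpow_pos_of_pos hXpos _
    have hYnn : 0 ≤ Y * (|C| * X ^ (ε / 2)) := by positivity
    have h1 : (Big.card : ℝ) ≤ ∑ s ∈ range (N + 1), ((((trB N m).biUnion fun b =>
        ((BR s b).filter fun w => Real.exp (ht w) ≤ Y).image (nd b)).card : ℕ) : ℝ) := by
      have := Finset.card_biUnion_le (s := range (N + 1)) (t := fun s => (trB N m).biUnion fun b =>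
        ((BR s b).filter fun w => Real.exp (ht w) ≤ Y).image (nd b))
      exact_mod_cast this
    refine h1.trans ?_
    have h2 : ∀ s ∈ range (N + 1), ((((trB N m).biUnion fun b =>
        ((BR s b).filter fun w => Real.exp (ht w) ≤ Y).image (nd b)).card : ℕ) : ℝ) ≤
        (2 * (N + 1)) * (Y * (|C| * X ^ (ε / 2))) := by
      intro s hs
      have h3 : ((((trB N m).biUnion fun b =>
          ((BR s b).filter fun w => Real.exp (ht w) ≤ Y).image (nd b)).card : ℕ) : ℝ) ≤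
          ∑ b ∈ trB N m, ((((BR s b).filter fun w => Real.exp (ht w) ≤ Y).image (nd b)).card : ℝ) := by
        have := Finset.card_biUnion_le (s := trB N m) (t := fun b =>
          ((BR s b).filter fun w => Real.exp (ht w) ≤ Y).image (nd b))
        exact_mod_cast this
      refine h3.trans ?_
      have h4 : ∀ b ∈ trB N m,
          ((((BR s b).filter fun w => Real.exp (ht w) ≤ Y).image (nd b)).card : ℝ) ≤
            Y * (|C| * X ^ (ε / 2)) := by
        intro b _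
        have h5 : ((((BR s b).filter fun w => Real.exp (ht w) ≤ Y).image (nd b)).card : ℝ) ≤
            ((((BR s b).filter fun w => Real.exp (ht w) ≤ Y).card : ℕ) : ℝ) := by
          exact_mod_cast Finset.card_image_le
        exact h5.trans (hone s hs b)
      refine (Finset.sum_le_sum h4).trans ?_
      rw [Finset.sum_const, nsmul_eq_mul]
      refine mul_le_mul_of_nonneg_right ?_ hYnn
      have h6 := trB_card N m
      have h7 : ((trB N m).card : ℝ) ≤ ((2 * (N + 1) : ℕ) : ℝ) := by exact_mod_cast h6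
      push_cast at h7
      exact h7
    refine (Finset.sum_le_sum h2).trans ?_
    rw [Finset.sum_const, nsmul_eq_mul, Finset.card_range]
    push_cast
    exact le_rfl
  have hN1 : (N : ℝ) + 1 ≤ (4 * B / ε + 1) * X ^ (ε / 4) := by
    have h1 := Real.log_le_rpow_div hXpos.le (show 0 < ε / 4 by positivity)
    have h2 : 1 ≤ X ^ (ε / 4) := Real.one_le_rpow hX (by positivity)
    have h3 : B * Real.log X ≤ B * (X ^ (ε / 4) / (ε / 4)) := mul_le_mul_of_nonneg_left h1 hB.le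
    have h4 : B * (X ^ (ε / 4) / (ε / 4)) = 4 * B / ε * X ^ (ε / 4) := by
      field_simp
    rw [h4] at h3
    have h5 : (4 * B / ε + 1) * X ^ (ε / 4) = 4 * B / ε * X ^ (ε / 4) + X ^ (ε / 4) := by ring
    rw [h5]
    linarith
  have hsq : ((N : ℝ) + 1) ^ 2 ≤ (4 * B / ε + 1) ^ 2 * X ^ (ε / 2) := by
    have h1 := pow_le_pow_left₀ (by positivity) hN1 2
    rw [mul_pow] at h1
    have h2 : (X ^ (ε / 4)) ^ 2 = X ^ (ε / 2) := by
      rw [← Real.rpow_natCast, ← Real.rpow_mul hXpos.le]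
      congr 1
      push_cast
      ring
    rwa [h2] at h1
  have hXe : 0 < X ^ (ε / 2) := Real.rpow_pos_of_pos hXpos _
  have hexp : X ^ (1 + ε) = X * X ^ (ε / 2) * X ^ (ε / 2) := by
    rw [mul_assoc, ← Real.rpow_add hXpos]
    rw [show (1 : ℝ) + ε = 1 + (ε / 2 + ε / 2) by ring, Real.rpow_add hXpos, Real.rpow_one]
  calc _ ≤ (Big.card : ℝ) := hcardle
    _ ≤ (N + 1) * ((2 * (N + 1)) * (Y * (|C| * X ^ (ε / 2)))) := hBig
    _ = ((N : ℝ) + 1) ^ 2 * (2 * Y * |C| * X ^ (ε / 2)) := by ring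
    _ ≤ (4 * B / ε + 1) ^ 2 * X ^ (ε / 2) * (2 * Y * |C| * X ^ (ε / 2)) :=
        mul_le_mul_of_nonneg_right hsq (by positivity)
    _ = 4 * (4 * B / ε + 1) ^ 2 * |C| * X ^ (1 + ε) / |(m : ℝ)| := by
        rw [hYdef, hexp]
        ring
    _ ≤ 4 * (4 * B / ε + 1) ^ 2 * (|C| + 1) * X ^ (1 + ε) / |(m : ℝ)| := by
        have h1 : 0 < X ^ (1 + ε) := Real.rpow_pos_of_pos hXpos _
        gcongr
        linarith

end Pool.Agent.Collatz3.PB
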