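import Pool.Agent.Collatz3.PBConst
import Pool.Agent.Collatz3.PBDescT
import Pool.Agent.Collatz3.PBTrans

set_option autoImplicit false

/-!
# PowerBarrier: module FINAL (section 5 of the paper)
-/

open Finset
open scoped Classical

namespace Pool.Agent.Collatz3.PB

open Pool.Agent.Helper14 (T)

theorem final_bad {κ ε : ℝ} {k₀ : ℕ}
    (hcore : ∀ k : ℕ, k₀ ≤ k → ∀ E : Finset ℤ, (∀ n ∈ E, ∀ n' ∈ E, |n - n'| < 2 ^ k) →
      (∀ n ∈ E, |n| ≤ 2 ^ k) →
      (∀ n ∈ E, ∀ t ≤ 2 * k, (2 : ℝ) ^ ((1 - κ) * k) ≤ |((T^[t] n : ℤ) : ℝ)|) →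
      (E.card : ℝ) < Real.exp ((Hn - ε) * k)) (i : ℕ) (hi : k₀ ≤ i) (E : Finset ℤ)
    (hE : ∀ m ∈ E, m ∈ Bad κ i) : (E.card : ℝ) ≤ 2 * Real.exp ((Hn - ε) * i) := by
  have h1 := hcore i hi (E.filter fun n => 0 < n) (by
      intro n hn n' hn'
      rw [Finset.mem_filter] at hn hn'
      have a1 := (hE n hn.1).2.1
      have a2 := (hE n' hn'.1).2.1
      rw [abs_of_pos hn.2] at a1
      rw [abs_of_pos hn'.2] at a2
      rw [abs_lt]
      constructor <;> linarith [hn.2, hn'.2]) (by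
      intro n hn
      rw [Finset.mem_filter] at hn
      exact (hE n hn.1).2.1.le) (by
      intro n hn
      rw [Finset.mem_filter] at hn
      exact (hE n hn.1).2.2)
  have h2 := hcore i hi (E.filter fun n => ¬ 0 < n) (by
      intro n hn n' hn'
      rw [Finset.mem_filter] at hn hn'
      have a1 := (hE n hn.1).2.1
      have a2 := (hE n' hn'.1).2.1
      have b1 := (hE n hn.1).1
      have b2 := (hE n' hn'.1).1
      have c1 : n ≤ 0 := not_lt.1 hn.2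
      have c2 : n' ≤ 0 := not_lt.1 hn'.2
      rw [abs_of_nonpos c1] at a1 b1
      rw [abs_of_nonpos c2] at a2 b2
      have : (0 : ℤ) < 2 ^ (i - 1) := by positivity
      rw [abs_lt]
      constructor <;> linarith) (by
      intro n hn
      rw [Finset.mem_filter] at hn
      exact (hE n hn.1).2.1.le) (by
      intro n hn
      rw [Finset.mem_filter] at hn
      exact (hE n hn.1).2.2)
  have h3 : E.card = (E.filter fun n => 0 < n).card + (E.filter fun n => ¬ 0 < n).card :=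
    (Finset.card_filter_add_card_filter_not _).symm
  rw [h3]
  push_cast
  linarith

/-- the transfer set -/
def final_tr (B X : ℝ) (m : ℤ) : Set ℤ := {n : ℤ | |(n : ℝ)| ≤ X ∧ ∃ t : ℕ,
  (t : ℝ) ≤ B * Real.log X ∧ T^[t] n = m ∧ ∀ s < t, |(m : ℝ)| < |((T^[s] n : ℤ) : ℝ)|}

theorem final_finite (X : ℝ) : Set.Finite {n : ℤ | |(n : ℝ)| ≤ X} := by
  apply (Set.finite_Icc (-⌊X⌋) ⌊X⌋).subset
  intro n hn
  rw [Set.mem_ofPred_eq, abs_le] at hn
  rw [Set.mem_Icc]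
  constructor
  · have : -n ≤ ⌊X⌋ := by
      apply Int.le_floor.2
      push_cast
      linarith
    linarith
  · exact Int.le_floor.2 hn.2

theorem final_tr_finite (B X : ℝ) (m : ℤ) : (final_tr B X m).Finite :=
  (final_finite X).subset fun _ hn => hn.1

theorem final_bad_finite (κ : ℝ) (i : ℕ) : (Bad κ i).Finite := by
  apply (Set.finite_Icc (-(2 ^ i : ℤ)) (2 ^ i)).subset
  intro n hn
  have := hn.2.1.le
  rw [abs_le] at this
  exact this

theorem final_thresh {κ δ : ℝ} (hκ : 0 < κ) (hδ : 0 < δ) (k₀ : ℕ) :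
    ∃ I : ℕ, ∀ i₀ : ℕ, I ≤ i₀ → 1 ≤ i₀ ∧ (k₀ : ℝ) ≤ δ * ((i₀ : ℝ) - 1) ∧
      4 / κ ≤ δ * ((i₀ : ℝ) - 1) ∧ 4 / κ * i₀ ≤ (2 : ℝ) ^ (δ * ((i₀ : ℝ) - 1)) := by
  have hl2 : 0 < Real.log 2 := Real.log_pos (by norm_num)
  set b : ℝ := δ * Real.log 2 with hb
  have hb0 : 0 < b := by positivity
  obtain ⟨I, hI⟩ := exists_nat_ge (1 + k₀ / δ + 4 / κ / δ + 2 + 16 / κ / b ^ 2)
  have hpos1 : 0 ≤ (k₀ : ℝ) / δ := by positivity
  have hpos2 : 0 ≤ 4 / κ / δ := by positivity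
  have hpos3 : 0 ≤ 16 / κ / b ^ 2 := by positivity
  refine ⟨I, fun i₀ hi => ?_⟩
  have hi' : (I : ℝ) ≤ i₀ := by exact_mod_cast hi
  have h0 : (1 : ℝ) ≤ (i₀ : ℝ) := by linarith
  refine ⟨by exact_mod_cast h0, ?_, ?_, ?_⟩
  · have h1 : (k₀ : ℝ) / δ ≤ i₀ - 1 := by linarith
    rw [div_le_iff₀ hδ] at h1
    linarith
  · have h1 : 4 / κ / δ ≤ (i₀ : ℝ) - 1 := by linarith
    rw [div_le_iff₀ hδ] at h1
    linarith
  · rw [Real.rpow_def_of_pos (by norm_num)]
    have e : Real.log 2 * (δ * ((i₀ : ℝ) - 1)) = b * ((i₀ : ℝ) - 1) := by rw [hb]; ring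
    rw [e]
    have h1 : 0 ≤ b * ((i₀ : ℝ) - 1) := mul_nonneg hb0.le (by linarith)
    have h2 := Real.quadratic_le_exp_of_nonneg h1
    have h3 : 16 / κ ≤ b ^ 2 * ((i₀ : ℝ) - 1) := by
      have : 16 / κ / b ^ 2 ≤ (i₀ : ℝ) - 1 := by linarith
      rw [div_le_iff₀ (by positivity)] at this
      linarith
    have h4 : (i₀ : ℝ) ≤ 2 * ((i₀ : ℝ) - 1) := by linarith
    have h5 : 4 / κ * i₀ ≤ 4 / κ * (2 * ((i₀ : ℝ) - 1)) :=
      mul_le_mul_of_nonneg_left h4 (by positivity)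
    have h6 : 16 / κ * ((i₀ : ℝ) - 1) ≤ b ^ 2 * ((i₀ : ℝ) - 1) * ((i₀ : ℝ) - 1) :=
      mul_le_mul_of_nonneg_right h3 (by linarith)
    have h7 : 4 / κ * (2 * ((i₀ : ℝ) - 1)) = 16 / κ * ((i₀ : ℝ) - 1) / 2 := by ring
    have h8 : (b * ((i₀ : ℝ) - 1)) ^ 2 = b ^ 2 * ((i₀ : ℝ) - 1) * ((i₀ : ℝ) - 1) := by ring
    rw [h8] at h2
    linarith

/-- one dyadic block -/
theorem final_level {κ ε : ℝ} {k₀ : ℕ} (hκ : 0 < κ) (hκ' : κ < 1 / 2) (hε : 0 < ε)
    (hcore : ∀ k : ℕ, k₀ ≤ k → ∀ E : Finset ℤ, (∀ n ∈ E, ∀ n' ∈ E, |n - n'| < 2 ^ k) →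
      (∀ n ∈ E, |n| ≤ 2 ^ k) →
      (∀ n ∈ E, ∀ t ≤ 2 * k, (2 : ℝ) ^ ((1 - κ) * k) ≤ |((T^[t] n : ℤ) : ℝ)|) →
      (E.card : ℝ) < Real.exp ((Hn - ε) * k)) {δ : ℝ} (hδ : 0 < δ) (hH : Hn ≤ Real.log 2) :
    ∃ K : ℝ, 0 < K ∧ ∃ I : ℕ, ∀ i₀ : ℕ, I ≤ i₀ → ∀ F : Finset ℤ,
      (∀ n ∈ F, 2 ^ (i₀ - 1) ≤ |n| ∧ |n| < 2 ^ i₀ ∧
        ∀ t : ℕ, (t : ℝ) ≤ 4 / κ * i₀ → |(n : ℝ)| ^ δ ≤ |((T^[t] n : ℤ) : ℝ)|) →
      (F.card : ℝ) ≤ K * Real.exp (i₀ * (Real.log 2 - (Real.log 2 - Hn + ε) * δ + ε * δ / 4)) := by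
  have hl2 : 0 < Real.log 2 := Real.log_pos (by norm_num)
  set lam : ℝ := Real.log 2 - Hn + ε with hlam
  have hlam0 : 0 < lam := by rw [hlam]; linarith
  set ε' : ℝ := ε * δ / 8 / Real.log 2 with hε'
  have hε'0 : 0 < ε' := by positivity
  set B : ℝ := 4 / κ / Real.log 2 with hB
  have hB0 : 0 < B := by positivity
  obtain ⟨C₁, hC₁, htr⟩ := transfer hB0 hε'0
  -- the threshold
  have hth : ∃ I : ℕ, ∀ i₀ : ℕ, I ≤ i₀ → 1 ≤ i₀ ∧ (k₀ : ℝ) ≤ δ * ((i₀ : ℝ) - 1) ∧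
      4 / κ ≤ δ * ((i₀ : ℝ) - 1) ∧ 4 / κ * i₀ ≤ (2 : ℝ) ^ (δ * ((i₀ : ℝ) - 1)) :=
    final_thresh hκ hδ k₀
  obtain ⟨I, hI⟩ := hth
  refine ⟨32 * C₁ / (ε * δ) * Real.exp (lam * δ), by positivity, I, ?_⟩
  intro i₀ hi₀ F hF
  obtain ⟨hi1, hik, hi4, hibig⟩ := hI i₀ hi₀
  set a : ℝ := δ * ((i₀ : ℝ) - 1) with ha
  set X : ℝ := (2 : ℝ) ^ i₀ with hX
  have hX1 : 1 ≤ X := one_le_pow₀ (by norm_num)
  have hlX : Real.log X = i₀ * Real.log 2 := by rw [hX, Real.log_pow]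
  have hBX : B * Real.log X = 4 / κ * i₀ := by
    rw [hlX, hB]
    field_simp
  set BadF : ℕ → Finset ℤ := fun i => (final_bad_finite κ i).toFinset.filter
    fun m => 4 / κ * (i₀ : ℝ) ≤ |(m : ℝ)| with hBadF
  set TrF : ℤ → Finset ℤ := fun m => (final_tr_finite B X m).toFinset with hTrF
  set J : Finset ℕ := (Finset.Icc 1 i₀).filter fun i : ℕ => a < (i : ℝ) with hJ
  -- covering
  have hcov : F ⊆ J.biUnion fun i => (BadF i).biUnion fun m => TrF m := by
    intro n hn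
    obtain ⟨hn1, hn2, hn3⟩ := hF n hn
    have hn1r : (2 : ℝ) ^ ((i₀ : ℝ) - 1) ≤ |(n : ℝ)| := by
      have : ((2 ^ (i₀ - 1) : ℤ) : ℝ) ≤ ((|n| : ℤ) : ℝ) := by exact_mod_cast hn1
      push_cast at this
      have e : (i₀ : ℝ) - 1 = ((i₀ - 1 : ℕ) : ℝ) := by rw [Nat.cast_sub hi1]; simp
      rw [e, Real.rpow_natCast]
      exact this
    have hlow : ∀ t : ℕ, (t : ℝ) ≤ 4 / κ * i₀ → (2 : ℝ) ^ a ≤ |((T^[t] n : ℤ) : ℝ)| := by
      intro t ht
      refine le_trans ?_ (hn3 t ht)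
      rw [ha, mul_comm, Real.rpow_mul (by norm_num)]
      exact Real.rpow_le_rpow (by positivity) hn1r hδ.le
    obtain ⟨i, t, hi1', hii, ht, hbad, hmin⟩ := descent_t hκ hκ' i₀ n hi1 hn1 hn2 (by
      intro t ht
      refine le_trans ?_ (hlow t ht)
      exact Real.rpow_le_rpow_of_exponent_le (by norm_num) hi4)
    have hai : a < (i : ℝ) := by
      have h1 := hlow t ht
      have h2 : |((T^[t] n : ℤ) : ℝ)| < (2 : ℝ) ^ (i : ℝ) := by
        rw [Real.rpow_natCast]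
        exact_mod_cast hbad.2.1
      have h3 := h1.trans_lt h2
      exact (Real.rpow_lt_rpow_left_iff (by norm_num)).1 h3
    rw [Finset.mem_biUnion]
    refine ⟨i, ?_, ?_⟩
    · rw [hJ, Finset.mem_filter, Finset.mem_Icc]
      exact ⟨⟨hi1', hii⟩, hai⟩
    · rw [Finset.mem_biUnion]
      refine ⟨T^[t] n, ?_, ?_⟩
      · rw [hBadF]
        simp only [Finset.mem_filter, Set.Finite.mem_toFinset]
        exact ⟨hbad, hibig.trans (hlow t ht)⟩
      · rw [hTrF]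
        simp only [Set.Finite.mem_toFinset]
        refine ⟨?_, t, ?_, rfl, ?_⟩
        · rw [hX]
          exact_mod_cast hn2.le
        · rw [hBX]
          exact ht
        · intro s hs
          exact_mod_cast hmin s hs
  -- bounds
  have hterm : ∀ i ∈ J, (((BadF i).biUnion fun m => TrF m).card : ℝ) ≤
      4 * C₁ * Real.exp (i₀ * Real.log 2 * (1 + ε') - lam * a) := by
    intro i hi
    rw [hJ, Finset.mem_filter, Finset.mem_Icc] at hi
    obtain ⟨⟨hi1', hii⟩, hai⟩ := hi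
    have hki : k₀ ≤ i := by
      have : (k₀ : ℝ) ≤ i := by linarith
      exact_mod_cast this
    have h1 : (((BadF i).biUnion fun m => TrF m).card : ℝ) ≤ ∑ m ∈ BadF i, ((TrF m).card : ℝ) := by
      exact_mod_cast Finset.card_biUnion_le
    have h2 : ∀ m ∈ BadF i, ((TrF m).card : ℝ) ≤ C₁ * X ^ (1 + ε') / 2 ^ (i - 1) := by
      intro m hm
      rw [hBadF] at hm
      simp only [Finset.mem_filter, Set.Finite.mem_toFinset] at hm
      obtain ⟨hb, hbig⟩ := hm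
      have hm1 : (2 : ℝ) ^ (i - 1) ≤ |(m : ℝ)| := by exact_mod_cast hb.1
      have hm2 : (1 : ℝ) ≤ 2 ^ (i - 1) := one_le_pow₀ (by norm_num)
      have h3 := htr X hX1 m (hm2.trans hm1) (by rw [hBX]; exact hbig)
      have h4 : ((TrF m).card : ℝ) = ((Set.ncard (final_tr B X m) : ℕ) : ℝ) := by
        rw [hTrF, Set.ncard_eq_toFinset_card _ (final_tr_finite B X m)]
      rw [h4]
      refine h3.trans ?_
      apply div_le_div_of_nonneg_left _ (by positivity) hm1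
      positivity
    have h3 : ((BadF i).card : ℝ) ≤ 2 * Real.exp ((Hn - ε) * i) := by
      apply final_bad hcore i hki
      intro m hm
      rw [hBadF] at hm
      simp only [Finset.mem_filter, Set.Finite.mem_toFinset] at hm
      exact hm.1
    have h4 : ∑ m ∈ BadF i, ((TrF m).card : ℝ) ≤
        (BadF i).card * (C₁ * X ^ (1 + ε') / 2 ^ (i - 1)) := by
      have := Finset.sum_le_card_nsmul (BadF i) (fun m => ((TrF m).card : ℝ)) _ h2
      rw [nsmul_eq_mul] at this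
      exact this
    have h5 : X ^ (1 + ε') = Real.exp (i₀ * Real.log 2 * (1 + ε')) := by
      rw [Real.rpow_def_of_pos (by positivity), hlX]
    have h6 : (1 : ℝ) / 2 ^ (i - 1) = 2 * Real.exp (-(i * Real.log 2)) := by
      have e : (2 : ℝ) ^ i = Real.exp (i * Real.log 2) := by
        rw [mul_comm, ← Real.rpow_def_of_pos (by norm_num), Real.rpow_natCast]
      rw [Real.exp_neg, ← e]
      have e2 : (2 : ℝ) ^ i = 2 ^ (i - 1) * 2 := by
        rw [← pow_succ, Nat.sub_add_cancel hi1']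
      rw [e2]
      field_simp
    have h7 : (0 : ℝ) ≤ C₁ * X ^ (1 + ε') / 2 ^ (i - 1) := by positivity
    refine (h1.trans h4).trans ((mul_le_mul_of_nonneg_right h3 h7).trans ?_)
    have h8 : C₁ * X ^ (1 + ε') / 2 ^ (i - 1) = C₁ * X ^ (1 + ε') * (1 / 2 ^ (i - 1)) := by ring
    rw [h8, h6, h5]
    have h9 : 2 * Real.exp ((Hn - ε) * i) *
        (C₁ * Real.exp (i₀ * Real.log 2 * (1 + ε')) * (2 * Real.exp (-(i * Real.log 2)))) =
        4 * C₁ * Real.exp ((Hn - ε) * i + i₀ * Real.log 2 * (1 + ε') + -(i * Real.log 2)) := by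
      rw [Real.exp_add, Real.exp_add]
      ring
    rw [h9]
    apply mul_le_mul_of_nonneg_left _ (by positivity)
    apply Real.exp_le_exp.2
    have h10 : lam * a ≤ lam * i := mul_le_mul_of_nonneg_left hai.le hlam0.le
    have h11 : lam * i = i * Real.log 2 - (Hn - ε) * i := by rw [hlam]; ring
    linarith
  have hsum : (F.card : ℝ) ≤ i₀ * (4 * C₁ * Real.exp (i₀ * Real.log 2 * (1 + ε') - lam * a)) := by
    have h1 : (F.card : ℝ) ≤ ((J.biUnion fun i => (BadF i).biUnion fun m => TrF m).card : ℝ) := by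
      exact_mod_cast Finset.card_le_card hcov
    have h2 : ((J.biUnion fun i => (BadF i).biUnion fun m => TrF m).card : ℝ) ≤
        ∑ i ∈ J, (((BadF i).biUnion fun m => TrF m).card : ℝ) := by
      exact_mod_cast Finset.card_biUnion_le
    have h3 := Finset.sum_le_card_nsmul J
      (fun i => (((BadF i).biUnion fun m => TrF m).card : ℝ)) _ hterm
    rw [nsmul_eq_mul] at h3
    have h4 : (J.card : ℝ) ≤ i₀ := by
      have : J.card ≤ (Finset.Icc 1 i₀).card := Finset.card_filter_le _ _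
      rw [Nat.card_Icc, Nat.add_sub_cancel] at this
      exact_mod_cast this
    have h5 := mul_le_mul_of_nonneg_right h4
      (show 0 ≤ 4 * C₁ * Real.exp (i₀ * Real.log 2 * (1 + ε') - lam * a) by positivity)
    linarith
  refine hsum.trans ?_
  have hi0 : (i₀ : ℝ) ≤ 8 / (ε * δ) * Real.exp (ε * δ / 8 * i₀) := by
    have h1 := Real.add_one_le_exp (ε * δ / 8 * i₀)
    have h2 : ε * δ / 8 * i₀ ≤ Real.exp (ε * δ / 8 * i₀) := by linarith
    have h3 : (i₀ : ℝ) = 8 / (ε * δ) * (ε * δ / 8 * i₀) := by field_simp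
    calc (i₀ : ℝ) = 8 / (ε * δ) * (ε * δ / 8 * i₀) := h3
      _ ≤ _ := mul_le_mul_of_nonneg_left h2 (by positivity)
  refine (mul_le_mul_of_nonneg_right hi0 (by positivity)).trans (le_of_eq ?_)
  have e1 : i₀ * Real.log 2 * (1 + ε') - lam * a =
      i₀ * (Real.log 2 - lam * δ + ε * δ / 4) + lam * δ - ε * δ / 8 * i₀ := by
    rw [ha, hε']
    field_simp
    ring
  rw [e1, Real.exp_sub, Real.exp_add]
  field_simp
  ring

theorem final_dyadic (n : ℤ) (hn : n ≠ 0) :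
    ∃ i : ℕ, 1 ≤ i ∧ (2 : ℤ) ^ (i - 1) ≤ |n| ∧ |n| < 2 ^ i := by
  refine ⟨Nat.log 2 n.natAbs + 1, by omega, ?_, ?_⟩
  · rw [Nat.add_sub_cancel]
    have := Nat.pow_log_le_self 2 (Int.natAbs_ne_zero.2 hn)
    zify at this
    exact this
  · have := Nat.lt_pow_succ_log_self (b := 2) (by norm_num) n.natAbs
    zify at this
    exact this

/-- The main theorem, deduced from `core`. The orbit is only looked at during the first
`A * log |n|` steps. -/
theorem final_of_core (hcore : ∃ κ : ℝ, 0 < κ ∧ κ < 1 / 2 ∧ ∃ ε : ℝ, 0 < ε ∧ ∃ k₀ : ℕ,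
    ∀ k : ℕ, k₀ ≤ k → ∀ E : Finset ℤ, (∀ n ∈ E, ∀ n' ∈ E, |n - n'| < 2 ^ k) →
      (∀ n ∈ E, |n| ≤ 2 ^ k) →
      (∀ n ∈ E, ∀ t ≤ 2 * k, (2 : ℝ) ^ ((1 - κ) * k) ≤ |((T^[t] n : ℤ) : ℝ)|) →
      (E.card : ℝ) < Real.exp ((Hn - ε) * k)) :
    ∃ c A : ℝ, 0 < c ∧ 0 < A ∧ ∀ δ : ℝ, 0 < δ → δ ≤ 1 → ∃ C : ℝ, 0 < C ∧ ∀ X : ℝ, 1 ≤ X →
    ((Set.ncard {n : ℤ | |(n : ℝ)| ≤ X ∧ ∀ t : ℕ, (t : ℝ) ≤ A * Real.log |(n : ℝ)| →
      |(n : ℝ)| ^ δ ≤ |((T^[t] n : ℤ) : ℝ)|} : ℕ) : ℝ) ≤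
      C * X ^ (1 - (1 - Hn / Real.log 2 + c) * δ) := by
  obtain ⟨κ, hκ, hκ', ε, hε, k₀, hc⟩ := hcore
  have hl2 : 0 < Real.log 2 := Real.log_pos (by norm_num)
  have hH : Hn ≤ Real.log 2 := Hn_lt.le
  have hH0 : 0 < Hn := by linarith [Hn_pos]
  set A : ℝ := 8 / κ / Real.log 2 with hA
  refine ⟨min (ε / (2 * Real.log 2)) (Hn / Real.log 2), A, lt_min (by positivity) (by positivity),
    by positivity, ?_⟩
  intro δ hδ hδ1
  set c : ℝ := min (ε / (2 * Real.log 2)) (Hn / Real.log 2) with hcdef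
  have hc0 : 0 < c := lt_min (by positivity) (by positivity)
  have hc1 : c ≤ ε / (2 * Real.log 2) := min_le_left _ _
  have hc2 : c ≤ Hn / Real.log 2 := min_le_right _ _
  set θ : ℝ := 1 - (1 - Hn / Real.log 2 + c) * δ with hθ
  have hθ0 : 0 ≤ θ := by
    have h1 : 0 ≤ 1 - Hn / Real.log 2 + c := by
      have : Hn / Real.log 2 ≤ 1 := (div_le_one hl2).2 hH
      linarith
    have h2 : (1 - Hn / Real.log 2 + c) * δ ≤ 1 * 1 :=
      mul_le_mul (by linarith) hδ1 hδ.le (by norm_num)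
    rw [hθ]
    linarith
  obtain ⟨K, hK, I, hlev⟩ := final_level hκ hκ' hε hc hδ hH
  have hexp : Real.log 2 - (Real.log 2 - Hn + ε) * δ + ε * δ / 4 ≤ θ * Real.log 2 - ε * δ / 4 := by
    have h1 : θ * Real.log 2 = Real.log 2 - (Real.log 2 - Hn) * δ - c * Real.log 2 * δ := by
      rw [hθ]
      field_simp
      ring
    have h2 : c * Real.log 2 ≤ ε / 2 := by
      have := mul_le_mul_of_nonneg_right hc1 hl2.le
      have e : ε / (2 * Real.log 2) * Real.log 2 = ε / 2 := by field_simp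
      rw [e] at this
      exact this
    have h3 := mul_le_mul_of_nonneg_right h2 hδ.le
    rw [h1]
    linarith
  set r : ℝ := Real.exp (-(ε * δ / 4)) with hr
  have hr0 : 0 < r := Real.exp_pos _
  have hr1 : r < 1 := by
    rw [hr, Real.exp_lt_one_iff]
    have : 0 < ε * δ := by positivity
    linarith
  have hr2 : 0 < 1 - r := by linarith
  refine ⟨2 ^ (I + 2) + 1 + K * 2 ^ θ / (1 - r), by positivity, ?_⟩
  intro X hX
  have hfin : Set.Finite {n : ℤ | |(n : ℝ)| ≤ X ∧ ∀ t : ℕ, (t : ℝ) ≤ A * Real.log |(n : ℝ)| →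
      |(n : ℝ)| ^ δ ≤ |((T^[t] n : ℤ) : ℝ)|} :=
    (final_finite X).subset fun _ hn => hn.1
  rw [Set.ncard_eq_toFinset_card _ hfin]
  set S : Finset ℤ := hfin.toFinset with hS
  have hmem : ∀ n ∈ S, |(n : ℝ)| ≤ X ∧ ∀ t : ℕ, (t : ℝ) ≤ A * Real.log |(n : ℝ)| →
      |(n : ℝ)| ^ δ ≤ |((T^[t] n : ℤ) : ℝ)| := by
    intro n hn
    rw [hS, Set.Finite.mem_toFinset] at hn
    exact hn
  set N : ℕ → Finset ℤ := fun i => S.filter fun n => (2 : ℤ) ^ (i - 1) ≤ |n| ∧ |n| < 2 ^ i with hN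
  obtain ⟨L, hL⟩ := exists_nat_gt (2 * X)
  have hcov : S ⊆ Finset.Icc (-(2 ^ (I + 1) : ℤ)) (2 ^ (I + 1)) ∪
      (Finset.range L).biUnion fun j => if I + 1 < j then N j else ∅ := by
    intro n hn
    rw [Finset.mem_union]
    by_cases hsmall : |n| ≤ 2 ^ (I + 1)
    · left
      rw [Finset.mem_Icc]
      exact abs_le.1 hsmall
    · right
      push Not at hsmall
      have hn0 : n ≠ 0 := by
        rintro rfl
        rw [abs_zero] at hsmall
        have : (0 : ℤ) < 2 ^ (I + 1) := by positivity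
        linarith
      obtain ⟨i, hi1, hi2, hi3⟩ := final_dyadic n hn0
      have hIi : I + 1 < i := by
        have h1 : (2 : ℤ) ^ (I + 1) < 2 ^ i := hsmall.trans hi3
        exact (pow_lt_pow_iff_right₀ (by norm_num : (1 : ℤ) < 2)).1 h1
      rw [Finset.mem_biUnion]
      refine ⟨i, ?_, ?_⟩
      · rw [Finset.mem_range]
        have h1 : (2 : ℝ) ^ (i - 1) ≤ X := by
          refine le_trans ?_ (hmem n hn).1
          exact_mod_cast hi2
        have h2 : (i : ℝ) ≤ 2 ^ i := by exact_mod_cast (Nat.lt_two_pow_self).le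
        have h3 : (2 : ℝ) ^ i = 2 ^ (i - 1) * 2 := by
          rw [← pow_succ, Nat.sub_add_cancel hi1]
        have h4 : (i : ℝ) < L := by linarith
        exact_mod_cast h4
      · rw [if_pos hIi, hN]
        simp only [Finset.mem_filter]
        exact ⟨hn, hi2, hi3⟩
  have hXθ : 1 ≤ X ^ θ := Real.one_le_rpow hX hθ0
  have hNb : ∀ i : ℕ, I + 1 < i → ((N i).card : ℝ) ≤ K * (2 ^ θ * X ^ θ) * r ^ i := by
    intro i hi
    rcases (N i).eq_empty_or_nonempty with he | ⟨n, hn⟩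
    · rw [he, Finset.card_empty, Nat.cast_zero]
      positivity
    · have h1 := hlev i (by omega) (N i) (by
        intro m hm
        rw [hN] at hm
        simp only [Finset.mem_filter] at hm
        refine ⟨hm.2.1, hm.2.2, ?_⟩
        intro t ht
        apply (hmem m hm.1).2 t
        refine ht.trans ?_
        -- `4 / κ * i ≤ A * log |m|`
        have b1 : (2 : ℝ) ^ (i - 1) ≤ |(m : ℝ)| := by exact_mod_cast hm.2.1
        have b2 : ((i - 1 : ℕ) : ℝ) * Real.log 2 ≤ Real.log |(m : ℝ)| := by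
          rw [← Real.log_pow]
          exact Real.log_le_log (by positivity) b1
        have b3 : (i : ℝ) ≤ 2 * ((i - 1 : ℕ) : ℝ) := by
          have : i ≤ 2 * (i - 1) := by omega
          exact_mod_cast this
        have b4 : A * (((i - 1 : ℕ) : ℝ) * Real.log 2) ≤ A * Real.log |(m : ℝ)| :=
          mul_le_mul_of_nonneg_left b2 (by positivity)
        have b5 : A * (((i - 1 : ℕ) : ℝ) * Real.log 2) = 4 / κ * (2 * ((i - 1 : ℕ) : ℝ)) := by
          rw [hA]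
          field_simp
          ring
        have b6 : 4 / κ * (i : ℝ) ≤ 4 / κ * (2 * ((i - 1 : ℕ) : ℝ)) :=
          mul_le_mul_of_nonneg_left b3 (by positivity)
        linarith)
      rw [hN] at hn
      simp only [Finset.mem_filter] at hn
      have h2 : (2 : ℝ) ^ i ≤ 2 * X := by
        have h3 : (2 : ℝ) ^ (i - 1) ≤ X := by
          refine le_trans ?_ (hmem n hn.1).1
          exact_mod_cast hn.2.1
        have h4 : (2 : ℝ) ^ i ≤ 2 ^ (i - 1) * 2 := by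
          rw [← pow_succ]
          exact pow_le_pow_right₀ (by norm_num) (by omega)
        linarith
      refine h1.trans ?_
      rw [mul_assoc]
      apply mul_le_mul_of_nonneg_left _ hK.le
      have h5 : Real.exp (i * (Real.log 2 - (Real.log 2 - Hn + ε) * δ + ε * δ / 4)) ≤
          Real.exp (i * (θ * Real.log 2 - ε * δ / 4)) :=
        Real.exp_le_exp.2 (mul_le_mul_of_nonneg_left hexp (Nat.cast_nonneg _))
      refine h5.trans ?_
      have h6 : Real.exp (i * (θ * Real.log 2 - ε * δ / 4)) = ((2 : ℝ) ^ i) ^ θ * r ^ i := by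
        rw [hr, ← Real.exp_nat_mul, Real.rpow_def_of_pos (by positivity), ← Real.exp_add,
          Real.log_pow]
        congr 1
        ring
      rw [h6]
      apply mul_le_mul_of_nonneg_right _ (by positivity)
      rw [← Real.mul_rpow (by norm_num) (by linarith)]
      exact Real.rpow_le_rpow (by positivity) h2 hθ0
  have h1 : (S.card : ℝ) ≤ (2 ^ (I + 2) + 1) + ∑ j ∈ Finset.range L,
      ((if I + 1 < j then N j else ∅ : Finset ℤ).card : ℝ) := by
    have a1 := (Finset.card_le_card hcov).trans (Finset.card_union_le _ _)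
    have a2 : (Finset.Icc (-(2 ^ (I + 1) : ℤ)) (2 ^ (I + 1))).card = 2 ^ (I + 2) + 1 := by
      rw [Int.card_Icc]
      have : (2 ^ (I + 1) + 1 - -(2 ^ (I + 1)) : ℤ) = ((2 ^ (I + 2) + 1 : ℕ) : ℤ) := by
        push_cast
        ring
      rw [this, Int.toNat_natCast]
    have a3 := Finset.card_biUnion_le (s := Finset.range L)
      (t := fun j => if I + 1 < j then N j else ∅)
    rw [a2] at a1
    have a4 := a1.trans (Nat.add_le_add_left a3 _)
    exact_mod_cast a4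
  have h2 : ∑ j ∈ Finset.range L, ((if I + 1 < j then N j else ∅ : Finset ℤ).card : ℝ) ≤
      ∑ j ∈ Finset.range L, K * (2 ^ θ * X ^ θ) * r ^ j := by
    apply Finset.sum_le_sum
    intro j _
    by_cases hj : I + 1 < j
    · rw [if_pos hj]
      exact hNb j hj
    · rw [if_neg hj, Finset.card_empty, Nat.cast_zero]
      positivity
  have h3 : ∑ j ∈ Finset.range L, K * (2 ^ θ * X ^ θ) * r ^ j ≤
      K * (2 ^ θ * X ^ θ) * (1 / (1 - r)) := by
    rw [← Finset.mul_sum]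
    apply mul_le_mul_of_nonneg_left _ (by positivity)
    rw [one_div, ← tsum_geometric_of_lt_one hr0.le hr1]
    exact Summable.sum_le_tsum _ (fun _ _ => by positivity)
      (summable_geometric_of_lt_one hr0.le hr1)
  have h4 : (2 : ℝ) ^ (I + 2) + 1 ≤ (2 ^ (I + 2) + 1) * X ^ θ :=
    le_mul_of_one_le_right (by positivity) hXθ
  calc (S.card : ℝ) ≤ (2 ^ (I + 2) + 1) * X ^ θ + K * (2 ^ θ * X ^ θ) * (1 / (1 - r)) := by
        linarith
    _ = (2 ^ (I + 2) + 1 + K * 2 ^ θ / (1 - r)) * X ^ θ := by ring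

end Pool.Agent.Collatz3.PB
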