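import Pool.Agent.Collatz3.PBCore
import Pool.Agent.Collatz3.PBFinal

set_option autoImplicit false

/-!
PowerBarrier: the theorem.
-/

open Finset
open scoped Classical

namespace Pool.Agent.Collatz3.PB

open Pool.Agent.Helper14 (T)

theorem final_t : ∃ c : ℝ, 0 < c ∧ ∃ K : ℝ, 0 < K ∧ ∀ δ : ℝ, 0 < δ → δ ≤ 1 → ∃ C : ℝ, 0 < C ∧
    ∀ X : ℝ, 1 ≤ X →
    ((Set.ncard {n : ℤ | |(n : ℝ)| ≤ X ∧ ∀ t : ℕ, (t : ℝ) ≤ K * Real.log |(n : ℝ)| →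
      |(n : ℝ)| ^ δ ≤ |((T^[t] n : ℤ) : ℝ)|} : ℕ) : ℝ) ≤
      C * X ^ (1 - (1 - Hn / Real.log 2 + c) * δ) := by
  obtain ⟨c, A, hc, hA, h⟩ := final_of_core core
  exact ⟨c, hc, A, hA, h⟩

end Pool.Agent.Collatz3.PB
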