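import Mathlib
import Pool.Agent.Collatz3.TPEarly
import Pool.Agent.Collatz3.PBAll

set_option autoImplicit false

/-!
Uniform barrier: starting points up to a fixed power of `M`.
-/

namespace Pool.Agent.Collatz3.UN

open Finset Filter
open Pool.Agent.Helper14 (T)
open Pool.Agent.Collatz3.PD
open Pool.Agent.Collatz3.FW hiding Num num_all handoff typical P_good_ge num_ev
open Pool.Agent.Collatz3.TN (Bd F F_le F_nonneg F_anti Bd_anti abs_eq_of_sign)
open Pool.Agent.Collatz3.TP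

open Classical in
/-- The starting points up to a fixed power of `M`. -/
theorem base {κ K : ℝ} (hκ : 0 < κ) (hK : 0 < K)
    (hPB : ∀ δ : ℝ, 0 < δ → δ ≤ 1 → ∃ C : ℝ, 0 < C ∧ ∀ X : ℝ, 1 ≤ X →
      ((Set.ncard {n : ℤ | |(n : ℝ)| ≤ X ∧ ∀ t : ℕ, (t : ℝ) ≤ K * Real.log |(n : ℝ)| →
        |(n : ℝ)| ^ δ ≤ |((T^[t] n : ℤ) : ℝ)|} : ℕ) : ℝ) ≤ C * X ^ (1 - κ * δ))
    {κ' : ℝ} (h0 : 0 < κ') (h1 : κ' < κ) {A : ℝ} (hA : 1 ≤ A) :
    ∃ C : ℝ, 0 < C ∧ ∀ M : ℝ, 1 < M → ∀ X : ℝ, 1 ≤ X → Real.log X ≤ A * Real.log M →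
      ∀ e : ℤ, e = 1 ∨ e = -1 →
      F e M (K * A * Real.log M) X ≤ X * (C * Real.exp (-(κ' * Real.log M))) := by
  obtain ⟨r, hr⟩ : ∃ r : ℝ, r = κ' / κ := ⟨_, rfl⟩
  have hr0 : 0 < r := by rw [hr]; positivity
  have hr1 : r < 1 := by rw [hr, div_lt_one hκ]; exact h1
  have hrκ : κ * r = κ' := by rw [hr]; field_simp
  obtain ⟨N, hN⟩ := exists_pow_lt_of_lt_one (show (0 : ℝ) < 1 / A by positivity) hr1
  choose! C hC0 hC using fun (δ : ℝ) (h : 0 < δ ∧ δ ≤ 1) => hPB δ h.1 h.2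
  refine ⟨∑ i ∈ range (N + 1), C (r ^ i), ?_, ?_⟩
  · apply sum_pos
    · intro i _
      exact hC0 _ ⟨by positivity, pow_le_one₀ hr0.le hr1.le⟩
    · exact ⟨0, by simp⟩
  intro M hM X hX hXA e he
  have hM0 : 0 < M := by linarith
  have hlM : 0 < Real.log M := Real.log_pos hM
  rcases le_or_gt X M with hXM | hXM
  · rw [F_zero he hXM (by positivity)]
    have : 0 < ∑ i ∈ range (N + 1), C (r ^ i) := by
      apply sum_pos
      · intro i _
        exact hC0 _ ⟨by positivity, pow_le_one₀ hr0.le hr1.le⟩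
      · exact ⟨0, by simp⟩
    positivity
  have hX0 : 0 < X := by linarith
  have hlX : 0 < Real.log X := Real.log_pos (by linarith)
  have hlMX : Real.log M < Real.log X := Real.log_lt_log hM0 hXM
  obtain ⟨θ, hθ⟩ : ∃ θ : ℝ, θ = Real.log M / Real.log X := ⟨_, rfl⟩
  have hθ1 : θ < 1 := by rw [hθ, div_lt_one hlX]; exact hlMX
  have hθA : 1 / A ≤ θ := by
    rw [hθ, div_le_div_iff₀ (by linarith) hlX]
    linarith
  have hθX : θ * Real.log X = Real.log M := by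
    rw [hθ]
    field_simp
  have hex : ∃ i : ℕ, r ^ i ≤ θ := ⟨N, hN.le.trans hθA⟩
  obtain ⟨i, hi⟩ : ∃ i, i = Nat.find hex := ⟨_, rfl⟩
  have hi1 : r ^ i ≤ θ := by rw [hi]; exact Nat.find_spec hex
  have hiN : i ≤ N := by rw [hi]; exact Nat.find_min' hex (hN.le.trans hθA)
  have hi0 : i ≠ 0 := by
    intro h
    rw [h, pow_zero] at hi1
    linarith
  obtain ⟨l, hl⟩ := Nat.exists_eq_succ_of_ne_zero hi0
  have hl1 : θ < r ^ l := by
    by_contra hcon
    push Not at hcon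
    have h2 := Nat.find_min' hex hcon
    rw [← hi] at h2
    omega
  have hδ : 0 < r ^ i ∧ r ^ i ≤ 1 := ⟨by positivity, pow_le_one₀ hr0.le hr1.le⟩
  have h2 := hC (r ^ i) hδ X hX
  have h3 : F e M (K * A * Real.log M) X ≤
      ((Set.ncard {n : ℤ | |(n : ℝ)| ≤ X ∧ ∀ t : ℕ, (t : ℝ) ≤ K * Real.log |(n : ℝ)| →
        |(n : ℝ)| ^ (r ^ i) ≤ |((T^[t] n : ℤ) : ℝ)|} : ℕ) : ℝ) := by
    unfold F
    have hfin : {n : ℤ | |(n : ℝ)| ≤ X ∧ ∀ t : ℕ, (t : ℝ) ≤ K * Real.log |(n : ℝ)| →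
        |(n : ℝ)| ^ (r ^ i) ≤ |((T^[t] n : ℤ) : ℝ)|}.Finite :=
      (Pool.Agent.Helper14.abs_le_finite X).subset fun _ h => h.1
    rw [← Set.ncard_coe_finset]
    have hsub : (((Od e X).filter fun n => n ∈ Bd M (K * A * Real.log M) : Finset ℤ) : Set ℤ) ⊆
        {n : ℤ | |(n : ℝ)| ≤ X ∧ ∀ t : ℕ, (t : ℝ) ≤ K * Real.log |(n : ℝ)| →
        |(n : ℝ)| ^ (r ^ i) ≤ |((T^[t] n : ℤ) : ℝ)|} := by
      intro n hn
      rw [mem_coe, mem_filter, mem_Od he] at hn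
      obtain ⟨⟨g1, g2, g3⟩, g4⟩ := hn
      have habs := abs_eq_of_sign he g2
      have hnX : |(n : ℝ)| ≤ X := by rw [habs]; exact g3
      have hn1 : 1 ≤ |(n : ℝ)| := by
        rw [habs]
        have : (1 : ℤ) ≤ e * n := by omega
        exact_mod_cast this
      refine ⟨hnX, fun t ht => ?_⟩
      have hlog : Real.log |(n : ℝ)| ≤ Real.log X := Real.log_le_log (by linarith) hnX
      have g5 := g4 t (by
        have e1 : K * Real.log |(n : ℝ)| ≤ K * (A * Real.log M) :=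
          mul_le_mul_of_nonneg_left (hlog.trans hXA) hK.le
        linarith)
      refine le_trans ?_ g5.le
      calc |(n : ℝ)| ^ (r ^ i) ≤ X ^ (r ^ i) :=
            Real.rpow_le_rpow (abs_nonneg _) hnX hδ.1.le
        _ ≤ X ^ θ := Real.rpow_le_rpow_of_exponent_le hX hi1
        _ = M := by
            rw [Real.rpow_def_of_pos hX0, mul_comm, hθX, Real.exp_log hM0]
    exact_mod_cast Set.ncard_le_ncard hsub hfin
  refine h3.trans (h2.trans ?_)
  have h4 : C (r ^ i) ≤ ∑ i ∈ range (N + 1), C (r ^ i) :=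
    single_le_sum (f := fun i => C (r ^ i))
      (fun j _ => (hC0 _ ⟨by positivity, pow_le_one₀ hr0.le hr1.le⟩).le)
      (mem_range.2 (by omega))
  have h5 : X ^ (1 - κ * r ^ i) ≤ X * Real.exp (-(κ' * Real.log M)) := by
    rw [Real.rpow_sub hX0, Real.rpow_one, div_eq_mul_inv, ← Real.rpow_neg hX0.le]
    apply mul_le_mul_of_nonneg_left _ hX0.le
    rw [Real.rpow_def_of_pos hX0]
    apply Real.exp_le_exp.2
    have e1 : κ * r ^ i = κ' * r ^ l := by
      rw [hl, pow_succ]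
      linear_combination r ^ l * hrκ
    have e2 : κ' * (θ * Real.log X) ≤ κ' * (r ^ l * Real.log X) :=
      mul_le_mul_of_nonneg_left (mul_le_mul_of_nonneg_right hl1.le hlX.le) h0.le
    rw [e1]
    rw [hθX] at e2
    linarith
  calc C (r ^ i) * X ^ (1 - κ * r ^ i) ≤
        (∑ i ∈ range (N + 1), C (r ^ i)) * (X * Real.exp (-(κ' * Real.log M))) :=
        mul_le_mul h4 h5 (by positivity) (le_trans (hC0 _ hδ).le h4)
    _ = X * ((∑ i ∈ range (N + 1), C (r ^ i)) * Real.exp (-(κ' * Real.log M))) := by ring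

end Pool.Agent.Collatz3.UN
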