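import Mathlib
import Pool.Agent.Collatz3.TPFinal

set_option autoImplicit false

/-!
Uniform barrier: the induction over the scales with an additional constant in the time.
-/

namespace Pool.Agent.Collatz3.UN

open Finset Filter
open Pool.Agent.Helper14 (T)
open Pool.Agent.Collatz3.Mix (words mem_words sum_words_zero sum_words_succ sum_words_add)
open Pool.Agent.Collatz3.PD
open Pool.Agent.Collatz3.FW hiding Num num_all handoff typical P_good_ge num_ev
open Pool.Agent.Collatz3.TN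

/-- The step from one scale to the next. -/
theorem stepB {η : ℕ → ℝ} {I : ℕ → ℕ} (hR : Rate η I) {γ : ℝ} (hγ : 2 / Real.log (4 / 3) < γ) :
    ∃ k₀ : ℕ, 1000 ≤ k₀ ∧ ∀ k : ℕ, k₀ ≤ k → ∀ X : ℝ, 2 ^ (30 * k) ≤ X → X < 2 ^ (30 * (k + 1)) →
      ∀ e : ℤ, e = 1 ∨ e = -1 → ∀ M B : ℝ, 1 ≤ M → 0 ≤ B → ∀ H : ℝ, 0 ≤ H → H ≤ 1 →
      (∀ y : ℝ, 1 ≤ y → Real.log y ≤ 99 / 100 * Real.log X →
        F e M (γ * Real.log y + B) y ≤ H * y) →
      F e M (γ * Real.log X + B) X ≤ X * (H + 8 * η k) := by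
  obtain ⟨l2a, l2b⟩ := log_two_bds
  obtain ⟨l3a, l3b⟩ := log_three_bds
  have l43 : Real.log (4 / 3) = 2 * Real.log 2 - Real.log 3 := by
    rw [Real.log_div (by norm_num) (by norm_num)]
    have : (4 : ℝ) = 2 ^ 2 := by norm_num
    rw [this, Real.log_pow]
    push_cast
    ring
  have l43p : 0 < Real.log (4 / 3) := Real.log_pos (by norm_num)
  have hγ1 : 2 < γ * Real.log (4 / 3) := by rwa [div_lt_iff₀ l43p] at hγ
  have hγ6 : 6 ≤ γ := by
    by_contra hcon
    push Not at hcon
    have h1 : Real.log (4 / 3) ≤ 1 / 3 := by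
      have := Real.log_le_sub_one_of_pos (show (0 : ℝ) < 4 / 3 by norm_num)
      linarith
    have h2 : γ * Real.log (4 / 3) ≤ 6 * Real.log (4 / 3) :=
      mul_le_mul_of_nonneg_right hcon.le l43p.le
    linarith
  have hgl : 0 < γ * Real.log 2 - 1 := by
    have : 6 * 0.6931 ≤ γ * Real.log 2 := mul_le_mul hγ6 l2a.le (by norm_num) (by linarith)
    linarith
  obtain ⟨δ, hδ⟩ : ∃ δ : ℝ, δ = min 1 ((γ * Real.log (4 / 3) - 2) / (2 * (γ * Real.log 2 - 1))) :=
    ⟨_, rfl⟩
  have hδ0 : 0 < δ := by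
    rw [hδ]
    exact lt_min one_pos (div_pos (by linarith) (by linarith))
  have hδ1 : δ ≤ 1 := by rw [hδ]; exact min_le_left _ _
  have hδ2 : δ * (γ * Real.log 2 - 1) ≤ (γ * Real.log (4 / 3) - 2) / 2 := by
    have h1 : δ ≤ (γ * Real.log (4 / 3) - 2) / (2 * (γ * Real.log 2 - 1)) := by
      rw [hδ]
      exact min_le_right _ _
    calc δ * (γ * Real.log 2 - 1)
        ≤ (γ * Real.log (4 / 3) - 2) / (2 * (γ * Real.log 2 - 1)) * (γ * Real.log 2 - 1) :=
          mul_le_mul_of_nonneg_right h1 hgl.le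
      _ = (γ * Real.log (4 / 3) - 2) / 2 := by
          field_simp
  obtain ⟨ρ, hρ0, hρ1, htail⟩ := tail hδ0 hδ1
  obtain ⟨κ, hκ⟩ : ∃ κ : ℝ, κ = (γ * Real.log (4 / 3) - 2) / 2 := ⟨_, rfl⟩
  have hκ0 : 0 < κ := by rw [hκ]; linarith
  obtain ⟨k₂, hk₂⟩ := exists_nat_ge (2 * (γ * Real.log 2) / κ)
  obtain ⟨k₁, hk₁⟩ := (hR.num.and (hR.dbl.and (small_ev hR hρ0 hρ1))).exists_forall_of_atTop
  refine ⟨max 1000 (max k₁ k₂), le_max_left _ _, ?_⟩
  intro k hk X hX1 hX2 e he M B hM hB H hH0 hH1 hy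
  have hk1000 : 1000 ≤ k := (le_max_left _ _).trans hk
  have hkk₁ : k₁ ≤ k := (le_max_left _ _).trans ((le_max_right _ _).trans hk)
  have hkk₂ : k₂ ≤ k := (le_max_right _ _).trans ((le_max_right _ _).trans hk)
  obtain ⟨hN, hd, s1, s2, s3, s4⟩ := hk₁ k hkk₁
  obtain ⟨hN2, -⟩ := hk₁ (2 * k) (by omega)
  have hη := hN.pos
  have hX0 : (0 : ℝ) < X := lt_of_lt_of_le (by positivity) hX1
  have hXpow : ∀ m : ℕ, m ≤ 30 * k → (2 : ℝ) ^ m ≤ X := fun m hm =>
    (pow_le_pow_right₀ (by norm_num) hm).trans hX1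
  have hlX1 : 30 * k * Real.log 2 ≤ Real.log X := by
    have := Real.log_le_log (by positivity) hX1
    rw [Real.log_pow] at this
    push_cast at this
    exact this
  have hlX2 : Real.log X ≤ 30 * (k + 1) * Real.log 2 := by
    have := Real.log_le_log hX0 hX2.le
    rw [Real.log_pow] at this
    push_cast at this
    exact this
  have hkr : (1000 : ℝ) ≤ k := by exact_mod_cast hk1000
  have hkl : 30 * k * 0.6931 ≤ 30 * k * Real.log 2 :=
    mul_le_mul_of_nonneg_left l2a.le (by positivity)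
  by_cases hcase : X * (300 / 397) ^ (2 * k) + (5 / 4) ^ (2 * k) ≤ M
  · -- direct
    have h1 := direct hN2 (hXpow _ (by omega)) he hcase (t := γ * Real.log X + B) (by
      have h2 : ((201 * (2 * k) / 100 : ℕ) : ℝ) ≤ 5 * k := by
        have : 201 * (2 * k) / 100 ≤ 5 * k := by omega
        exact_mod_cast this
      refine h2.trans ?_
      have h3 : 6 * (30 * k * 0.6931) ≤ γ * Real.log X :=
        mul_le_mul hγ6 (hkl.trans hlX1) (by positivity) (by linarith)
      linarith)
    refine h1.trans ?_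
    have h2 : X * η (2 * k) ≤ X * η k := mul_le_mul_of_nonneg_left hd hX0.le
    have h3 : 0 ≤ X * H := by positivity
    have h4 : 0 ≤ X * η k := by positivity
    calc 2 * (X * η (2 * k)) ≤ 2 * (X * η k) := by linarith
      _ ≤ X * (H + 8 * η k) := by linarith
  · push Not at hcase
    have h1 := step_raw hN (hXpow (3 * k) (by omega)) he (γ * Real.log X + B) (by linarith : 0 ≤ M)
    obtain ⟨l, hl⟩ : ∃ l, l = k - k / 20 := ⟨_, rfl⟩
    rw [← hl] at h1 s1
    have hl1 : 19 * k ≤ 20 * l := by omega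
    have hlk : l ≤ k := by omega
    have hl1r : (19 : ℝ) * k ≤ 20 * l := by exact_mod_cast hl1
    -- the bound for a word
    have hterm : ∀ v ∈ goodV (I k) k l,
        F e M (γ * Real.log X + B - (v.sum : ℝ)) (3 ^ l * X / 2 ^ v.sum + 2 ^ k) / 3 ^ l ≤
        H * (X * (1 / 2) ^ v.sum) + 2 ^ k +
          (if (v.sum : ℝ) < (2 - δ) * l then X * (1 / 2) ^ v.sum + 2 ^ k else 0) := by
      intro v hv
      rw [goodV, mem_filter] at hv
      obtain ⟨-, hs1, hs2, -⟩ := hv
      obtain ⟨s, hs⟩ : ∃ s, s = v.sum := ⟨_, rfl⟩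
      rw [← hs] at hs1 hs2 ⊢
      obtain ⟨y, hyd⟩ : ∃ y : ℝ, y = 3 ^ l * X / 2 ^ s + 2 ^ k := ⟨_, rfl⟩
      rw [← hyd]
      have h3l : (1 : ℝ) ≤ 3 ^ l := one_le_pow₀ (by norm_num)
      have h2k : (1 : ℝ) ≤ 2 ^ k := one_le_pow₀ (by norm_num)
      have hy0 : 0 ≤ 3 ^ l * X / 2 ^ s := by positivity
      have hy1 : 1 ≤ y := by rw [hyd]; linarith
      have hydiv : y / 3 ^ l ≤ X * (1 / 2) ^ s + 2 ^ k := by
        rw [hyd, add_div]
        apply add_le_add
        · apply le_of_eq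
          rw [one_div, inv_pow]
          field_simp
        · exact div_le_self (by positivity) h3l
      by_cases hc : (s : ℝ) < (2 - δ) * l
      · rw [if_pos hc]
        have h2 := F_le he M (γ * Real.log X + B - (s : ℝ)) (by linarith : 0 ≤ y)
        have h3 : F e M (γ * Real.log X + B - (s : ℝ)) y / 3 ^ l ≤ y / 3 ^ l :=
          div_le_div_of_nonneg_right (by linarith) (by positivity)
        have h4 : 0 ≤ H * (X * (1 / 2) ^ s) := by positivity
        linarith
      · rw [if_neg hc]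
        push Not at hc
        have hs1r : (199 : ℝ) * l ≤ 100 * s := by exact_mod_cast hs1
        -- the logarithm of `y`
        have hy2 : y ≤ 2 * (3 ^ l * X / 2 ^ s) := by
          have h2 : (2 : ℝ) ^ k ≤ 3 ^ l * X / 2 ^ s := by
            rw [le_div_iff₀ (by positivity), ← pow_add]
            calc (2 : ℝ) ^ (k + s) ≤ X := hXpow _ (by omega)
              _ = 1 * X := (one_mul X).symm
              _ ≤ 3 ^ l * X := mul_le_mul_of_nonneg_right h3l hX0.le
          rw [hyd]
          linarith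
        have hly : Real.log y ≤
            Real.log X + l * Real.log 3 - s * Real.log 2 + Real.log 2 := by
          refine (Real.log_le_log (by linarith) hy2).trans (le_of_eq ?_)
          rw [Real.log_mul (by norm_num) (by positivity), Real.log_div (by positivity)
            (by positivity), Real.log_mul (by positivity) hX0.ne', Real.log_pow, Real.log_pow]
          ring
        have hs0 : (0 : ℝ) ≤ s := Nat.cast_nonneg _
        have hl0 : (0 : ℝ) ≤ l := Nat.cast_nonneg _
        have hll3 : l * Real.log 3 ≤ l * 1.0987 := mul_le_mul_of_nonneg_left l3b.le hl0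
        have hsl2 : s * 0.6931 ≤ s * Real.log 2 := mul_le_mul_of_nonneg_left l2a.le hs0
        have hly2 : Real.log y ≤ 99 / 100 * Real.log X := by
          have h2 : 30 * (k + 1) * Real.log 2 ≤ 30 * (k + 1) * 0.6932 :=
            mul_le_mul_of_nonneg_left l2b.le (by positivity)
          linarith
        have htime : γ * Real.log y + B ≤ γ * Real.log X + B - s := by
          have h2 : γ * Real.log y ≤
              γ * (Real.log X + l * Real.log 3 - s * Real.log 2 + Real.log 2) :=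
            mul_le_mul_of_nonneg_left hly (by linarith)
          have h3 : (2 - δ) * l * (γ * Real.log 2 - 1) ≤ s * (γ * Real.log 2 - 1) :=
            mul_le_mul_of_nonneg_right hc hgl.le
          have h4 : l * (δ * (γ * Real.log 2 - 1)) ≤ l * ((γ * Real.log (4 / 3) - 2) / 2) :=
            mul_le_mul_of_nonneg_left hδ2 hl0
          have h5 : γ * Real.log 2 ≤ l * κ := by
            rw [div_le_iff₀ hκ0] at hk₂
            have h6 : (k₂ : ℝ) ≤ 2 * l := by
              have : k₂ ≤ 2 * l := by omega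
              exact_mod_cast this
            have h7 : k₂ * κ ≤ 2 * l * κ := mul_le_mul_of_nonneg_right h6 hκ0.le
            linarith
          rw [l43] at h4
          rw [hκ, l43] at h5
          linarith
        have h2 : F e M (γ * Real.log X + B - (s : ℝ)) y ≤ H * y :=
          (F_anti e htime y).trans (hy y hy1 hly2)
        have h3 : F e M (γ * Real.log X + B - (s : ℝ)) y / 3 ^ l ≤ H * y / 3 ^ l :=
          div_le_div_of_nonneg_right h2 (by positivity)
        rw [mul_div_assoc] at h3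
        have h4 : H * (y / 3 ^ l) ≤ H * (X * (1 / 2) ^ s + 2 ^ k) :=
          mul_le_mul_of_nonneg_left hydiv hH0
        have h5 : H * 2 ^ k ≤ 1 * 2 ^ k := mul_le_mul_of_nonneg_right hH1 (by positivity)
        linarith
    have hsum := sum_le_sum hterm
    rw [sum_add_distrib, sum_add_distrib] at hsum
    have hcard : ((goodV (I k) k l).card : ℝ) ≤ (403 / 100) ^ k := by
      refine (card_words_le (s := 201 * k / 100) (goodV_subset _ _ _) ?_).trans
        (two_pow_smax k)
      intro w hw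
      rw [goodV, mem_filter] at hw
      omega
    have hP1 : P (goodV (I k) k l) ≤ 1 := by
      refine (P_mono (goodV_subset _ _ _)).trans ?_
      rw [P_words]
      exact pow_le_one₀ (Z_nonneg _) (Z_le_one _)
    have t1 : ∑ v ∈ goodV (I k) k l, H * (X * (1 / 2) ^ v.sum) ≤ H * X := by
      have : ∑ v ∈ goodV (I k) k l, H * (X * (1 / 2) ^ v.sum) = H * X * P (goodV (I k) k l) := by
        unfold P
        rw [mul_sum]
        apply sum_congr rfl
        intro v _
        ring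
      rw [this]
      exact mul_le_of_le_one_right (by positivity) hP1
    have t2 : ∑ v ∈ goodV (I k) k l, (2 : ℝ) ^ k ≤ (403 / 50) ^ k := by
      rw [sum_const, nsmul_eq_mul]
      calc ((goodV (I k) k l).card : ℝ) * 2 ^ k ≤ (403 / 100) ^ k * 2 ^ k :=
            mul_le_mul_of_nonneg_right hcard (by positivity)
        _ = (403 / 50) ^ k := by
            rw [← mul_pow]
            norm_num
    have t3 : ∑ v ∈ goodV (I k) k l,
        (if (v.sum : ℝ) < (2 - δ) * l then X * (1 / 2) ^ v.sum + 2 ^ k else 0) ≤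
        X * ρ ^ l + (403 / 50) ^ k := by
      have h2 : ∑ v ∈ goodV (I k) k l,
          (if (v.sum : ℝ) < (2 - δ) * l then X * (1 / 2) ^ v.sum + 2 ^ k else 0) ≤
          ∑ v ∈ goodV (I k) k l,
          ((if (v.sum : ℝ) < (2 - δ) * l then X * (1 / 2) ^ v.sum else 0) + 2 ^ k) := by
        apply sum_le_sum
        intro v _
        have : (0 : ℝ) ≤ 2 ^ k := by positivity
        split_ifs
        · exact le_rfl
        · linarith
      refine h2.trans ?_
      rw [sum_add_distrib]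
      apply add_le_add _ t2
      have h3 : ∑ v ∈ goodV (I k) k l,
          (if (v.sum : ℝ) < (2 - δ) * l then X * (1 / 2) ^ v.sum else 0) ≤
          ∑ v ∈ words (I k) l,
          (if (v.sum : ℝ) < (2 - δ) * l then X * (1 / 2) ^ v.sum else 0) := by
        apply sum_le_sum_of_subset_of_nonneg (goodV_subset _ _ _)
        intro v _ _
        split_ifs
        · positivity
        · exact le_rfl
      refine h3.trans ?_
      rw [← sum_filter, ← mul_sum]
      exact mul_le_mul_of_nonneg_left (htail (I k) l) hX0.le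
    -- the small range
    have t4 : (oc (2 ^ (201 * k / 100) * (2 ^ (201 * (k / 20) / 100) * (M + 1) + (5 / 4) ^ k) /
        3 ^ k) : ℝ) ≤ X * η k := by
      have u1 := two_pow_smax k
      have u2 := two_pow_sig k
      have u3 : M + 1 ≤ X * (300 / 397) ^ (2 * k) + 2 * (25 / 16) ^ k := by
        have e1 : (5 / 4 : ℝ) ^ (2 * k) = (25 / 16) ^ k := by
          rw [pow_mul]
          norm_num
        have e2 : (1 : ℝ) ≤ (25 / 16) ^ k := one_le_pow₀ (by norm_num)
        rw [e1] at hcase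
        linarith
      refine (oc_le (by positivity)).trans ?_
      have u4 : (2 : ℝ) ^ (201 * k / 100) *
          (2 ^ (201 * (k / 20) / 100) * (M + 1) + (5 / 4) ^ k) / 3 ^ k ≤
          (403 / 100) ^ k * ((1073 / 1000) ^ k * (X * (300 / 397) ^ (2 * k) + 2 * (25 / 16) ^ k) +
            (5 / 4) ^ k) / 3 ^ k := by
        apply div_le_div_of_nonneg_right _ (by positivity)
        apply mul_le_mul u1 _ (by positivity) (by positivity)
        apply add_le_add _ le_rfl
        exact mul_le_mul u2 u3 (by linarith) (by positivity)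
      have u5 : (403 / 100 : ℝ) ^ k * ((1073 / 1000) ^ k *
          (X * (300 / 397) ^ (2 * k) + 2 * (25 / 16) ^ k) + (5 / 4) ^ k) / 3 ^ k =
          X * (403 / 300 * (1073 / 1000) * (300 / 397) ^ 2) ^ k +
          2 * (403 / 300 * (1073 / 1000) * (25 / 16)) ^ k + (403 / 300 * (5 / 4)) ^ k := by
        have e1 : (403 / 300 : ℝ) ^ k = (403 / 100) ^ k / 3 ^ k := by
          rw [← div_pow]
          norm_num
        rw [mul_pow, mul_pow, mul_pow, mul_pow, mul_pow, e1, pow_mul]
        ring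
      have u6 : (403 / 300 * (1073 / 1000) * (300 / 397) ^ 2 : ℝ) ^ k ≤ (824 / 1000) ^ k :=
        pow_le_pow_left₀ (by norm_num) (by norm_num) _
      have u7 : (403 / 300 * (1073 / 1000) * (25 / 16) : ℝ) ^ k ≤ 3 ^ k :=
        pow_le_pow_left₀ (by norm_num) (by norm_num) _
      have u8 : (403 / 300 * (5 / 4) : ℝ) ^ k ≤ 3 ^ k :=
        pow_le_pow_left₀ (by norm_num) (by norm_num) _
      have u9 : (1 : ℝ) ≤ 3 ^ k := one_le_pow₀ (by norm_num)
      rw [u5] at u4
      have u10 := mul_le_mul_of_nonneg_left (u6.trans s3) hX0.le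
      have u11 : η k / 2 * 2 ^ (30 * k) ≤ η k / 2 * X :=
        mul_le_mul_of_nonneg_left hX1 (by positivity)
      linarith
    have t5 : (403 / 50 : ℝ) ^ k ≤ X * η k / 2 := by
      have : η k * 2 ^ (30 * k) ≤ η k * X := mul_le_mul_of_nonneg_left hX1 hη.le
      linarith
    have t6 := mul_le_mul_of_nonneg_left s1 hX0.le
    linarith

/-- The induction over the scales, starting at `X₁`. -/
theorem inductB {η : ℕ → ℝ} {I : ℕ → ℕ} (hR : Rate η I) {γ : ℝ} (hγ : 2 / Real.log (4 / 3) < γ)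
    {R : ℝ → ℝ} (hR0 : ∀ x, 0 ≤ R x) (hRa : ∀ x y, 0 < x → x ≤ y → R y ≤ R x)
    (hRs : ∀ᶠ k : ℕ in atTop, ∀ x : ℝ, 30 * k * Real.log 2 ≤ x → x ≤ 30 * (k + 1) * Real.log 2 →
      R x + 8 * η k ≤ R (99 / 100 * x)) :
    ∃ K₀ : ℝ, 2 ≤ K₀ ∧ ∀ M B : ℝ, 1 ≤ M → 0 ≤ B → ∀ X₁ : ℝ, K₀ ≤ X₁ → ∀ S₀ : ℝ, 0 ≤ S₀ →
      (∀ e : ℤ, e = 1 ∨ e = -1 → ∀ Y : ℝ, 1 ≤ Y → Y < X₁ → F e M (γ * Real.log Y + B) Y ≤ Y * S₀) →
      ∀ X : ℝ, 1 ≤ X → ∀ e : ℤ, e = 1 ∨ e = -1 →
      F e M (γ * Real.log X + B) X ≤ X * (S₀ + R (99 / 100 * Real.log X₁)) := by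
  obtain ⟨k₀, hk₀, hstep⟩ := stepB hR hγ
  obtain ⟨k₁, hk₁⟩ := hRs.exists_forall_of_atTop
  obtain ⟨K, hK⟩ : ∃ K, K = max k₀ k₁ := ⟨_, rfl⟩
  have hK0 : k₀ ≤ K := by rw [hK]; exact le_max_left _ _
  have hK1 : k₁ ≤ K := by rw [hK]; exact le_max_right _ _
  obtain ⟨l2a, l2b⟩ := log_two_bds
  refine ⟨2 ^ (30 * K), ?_, ?_⟩
  · calc (2 : ℝ) = 2 ^ 1 := by norm_num
      _ ≤ 2 ^ (30 * K) := pow_le_pow_right₀ (by norm_num) (by omega)
  intro M B hM1 hB X₁ hX₁ S₀ hS₀ hsmall X hX e he
  have hX₁0 : (0 : ℝ) < X₁ := lt_of_lt_of_le (by positivity) hX₁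
  obtain ⟨S, hS⟩ : ∃ S, S = R (99 / 100 * Real.log X₁) := ⟨_, rfl⟩
  rw [← hS]
  have hlM : 30 * K * Real.log 2 ≤ Real.log X₁ := by
    have := Real.log_le_log (by positivity) hX₁
    rw [Real.log_pow] at this
    push_cast at this
    exact this
  have hK1000 : (1000 : ℝ) ≤ K := by exact_mod_cast hk₀.trans hK0
  have hlM0 : 100 ≤ Real.log X₁ := by
    have h1 : 30 * K * 0.6931 ≤ 30 * K * Real.log 2 :=
      mul_le_mul_of_nonneg_left l2a.le (by positivity)
    linarith
  have hS0 : 0 ≤ S := by rw [hS]; exact hR0 _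
  have hmain : ∀ N : ℕ, ∀ Y : ℝ, 1 ≤ Y → Real.log Y ≤ N → X₁ ≤ Y →
      F e M (γ * Real.log Y + B) Y ≤ Y * (S₀ + S - R (Real.log Y)) := by
    intro N
    induction N with
    | zero =>
      intro Y hY1 hY2 hY3
      have h1 := Real.log_le_log hX₁0 hY3
      rw [Nat.cast_zero] at hY2
      linarith
    | succ N ih =>
      intro Y hY1 hY2 hY3
      have hY0 : (0 : ℝ) < Y := by linarith
      have hlY := Real.log_le_log hX₁0 hY3
      -- the scale
      obtain ⟨k, hkd⟩ : ∃ k : ℕ, k = ⌊Real.log Y / (30 * Real.log 2)⌋₊ := ⟨_, rfl⟩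
      have hl30 : 0 < 30 * Real.log 2 := by linarith
      have hk1 : (k : ℝ) ≤ Real.log Y / (30 * Real.log 2) := by
        rw [hkd]
        exact Nat.floor_le (div_nonneg (by linarith) hl30.le)
      have hk2 : Real.log Y / (30 * Real.log 2) < k + 1 := by
        rw [hkd]
        exact Nat.lt_floor_add_one _
      rw [le_div_iff₀ hl30] at hk1
      rw [div_lt_iff₀ hl30] at hk2
      have hkK : K ≤ k := by
        rw [hkd]
        apply Nat.le_floor
        rw [le_div_iff₀ hl30]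
        linarith
      have hY4 : (2 : ℝ) ^ (30 * k) ≤ Y := by
        rw [← Real.log_le_log_iff (by positivity) hY0, Real.log_pow]
        push_cast
        linarith
      have hY5 : Y < 2 ^ (30 * (k + 1)) := by
        rw [← Real.log_lt_log_iff hY0 (by positivity), Real.log_pow]
        push_cast
        linarith
      have hHS : S₀ ≤ S₀ + S - R (99 / 100 * Real.log Y) := by
        have := hRa (99 / 100 * Real.log X₁) (99 / 100 * Real.log Y) (by linarith) (by linarith)
        rw [hS]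
        linarith
      have hHnn : 0 ≤ S₀ + S - R (99 / 100 * Real.log Y) := hS₀.trans hHS
      have h1 := hstep k (hK0.trans hkK) Y hY4 hY5 e he M B hM1 hB
        (min (S₀ + S - R (99 / 100 * Real.log Y)) 1) (le_min hHnn zero_le_one) (min_le_right _ _) (by
          intro y hy1 hy2
          have h3 := F_le he M (γ * Real.log y + B) (by linarith : 0 ≤ y)
          rw [min_mul_of_nonneg _ _ (by linarith : 0 ≤ y), one_mul]
          apply le_min
          · rcases lt_or_ge y X₁ with h | h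
            · refine (hsmall e he y hy1 h).trans ?_
              rw [mul_comm]
              exact mul_le_mul_of_nonneg_right hHS (by linarith)
            · have h2 := ih y hy1 (by push_cast at hY2; linarith) h
              have h4 : R (99 / 100 * Real.log Y) ≤ R (Real.log y) :=
                hRa _ _ (lt_of_lt_of_le (by linarith) (Real.log_le_log hX₁0 h)) hy2
              refine h2.trans ?_
              rw [mul_comm]
              exact mul_le_mul_of_nonneg_right (by linarith) (by linarith)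
          · linarith)
      refine h1.trans ?_
      apply mul_le_mul_of_nonneg_left _ hY0.le
      have h2 := hk₁ k (hK1.trans hkK) (Real.log Y) (by linarith) (by linarith)
      have h3 := min_le_left (S₀ + S - R (99 / 100 * Real.log Y)) 1
      linarith
  rcases lt_or_ge X X₁ with h | h
  · refine (hsmall e he X hX h).trans ?_
    exact mul_le_mul_of_nonneg_left (by linarith) (by linarith)
  · obtain ⟨N, hN⟩ := exists_nat_ge (Real.log X)
    refine (hmain N X hX hN h).trans ?_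
    apply mul_le_mul_of_nonneg_left _ (by linarith)
    have := hR0 (Real.log X)
    linarith

open Classical in
theorem count_allB {γ M B C : ℝ} (hB : 0 ≤ B) (hγ : 2 / Real.log (4 / 3) < γ) (hM : 0 ≤ M) (hC : 0 ≤ C)
    (h : ∀ X : ℝ, 1 ≤ X → ∀ e : ℤ, e = 1 ∨ e = -1 → F e M (γ * Real.log X + B) X ≤ X * C) (X : ℝ)
    (hX : 1 ≤ X) :
    (({n : ℤ | |(n : ℝ)| ≤ X ∧ ∀ j : ℕ, (j : ℝ) ≤ γ * Real.log X + B →
      M < |((T^[j] n : ℤ) : ℝ)|}.ncard : ℕ) : ℝ) ≤ 4 * (X * C) := by
  obtain ⟨l2a, l2b⟩ := log_two_bds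
  have hγ2 : 1 ≤ γ * Real.log 2 := by
    have l43p : 0 < Real.log (4 / 3) := Real.log_pos (by norm_num)
    have hγ1 : 2 < γ * Real.log (4 / 3) := by rwa [div_lt_iff₀ l43p] at hγ
    have h2 : Real.log (4 / 3) ≤ 1 / 3 := by
      have := Real.log_le_sub_one_of_pos (show (0 : ℝ) < 4 / 3 by norm_num)
      linarith
    have hγ6 : 6 ≤ γ := by
      by_contra hcon
      push Not at hcon
      have h2 : γ * Real.log (4 / 3) ≤ 6 * Real.log (4 / 3) :=
        mul_le_mul_of_nonneg_right hcon.le l43p.le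
      linarith
    have : 6 * 0.6931 ≤ γ * Real.log 2 := mul_le_mul hγ6 l2a.le (by norm_num) (by linarith)
    linarith
  have hX0 : (0 : ℝ) < X := by linarith
  obtain ⟨N, hN1, hN2⟩ : ∃ N : ℕ, (2 : ℝ) ^ N ≤ X ∧ X < 2 ^ (N + 1) :=
    exists_nat_pow_near hX (by norm_num)
  obtain ⟨U, hU⟩ : ∃ U : ℕ → ℤ → Finset ℤ, U = fun i e =>
      ((Od e (X / 2 ^ i)).filter fun n => n ∈ Bd M (γ * Real.log (X / 2 ^ i) + B)).image
        fun m => 2 ^ i * m := ⟨_, rfl⟩
  have hsub : {n : ℤ | |(n : ℝ)| ≤ X ∧ ∀ j : ℕ, (j : ℝ) ≤ γ * Real.log X + B →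
      M < |((T^[j] n : ℤ) : ℝ)|} ⊆
      (((range (N + 1)).biUnion fun i => U i 1 ∪ U i (-1) : Finset ℤ) : Set ℤ) := by
    rintro n ⟨hn1, hn2⟩
    have hn0 : n ≠ 0 := by
      rintro rfl
      have := hn2 0 (by
        have : 0 ≤ Real.log X := Real.log_nonneg hX
        rw [Nat.cast_zero]
        nlinarith)
      simp at this
      linarith
    obtain ⟨i, m, hm, hnm⟩ : ∃ (i : ℕ) (m : ℤ), m % 2 = 1 ∧ n = 2 ^ i * m := by
      obtain ⟨i, m, hm, hnm⟩ := Nat.exists_eq_pow_mul_and_not_dvd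
        (Int.natAbs_ne_zero.2 hn0) 2 (by decide)
      have h2 : (n.natAbs : ℤ) = 2 ^ i * (m : ℤ) := by
        rw [hnm]
        push_cast
        rfl
      rcases Int.natAbs_eq n with h3 | h3
      · exact ⟨i, m, by omega, by rw [h3, h2]⟩
      · exact ⟨i, -m, by omega, by rw [h3, h2]; ring⟩
    have hm0 : m ≠ 0 := by rintro rfl; norm_num at hm
    have habs : |(n : ℝ)| = 2 ^ i * |(m : ℝ)| := by
      rw [hnm]
      push_cast
      rw [abs_mul, abs_of_pos (by positivity : (0 : ℝ) < 2 ^ i)]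
    have hm1 : (1 : ℝ) ≤ |(m : ℝ)| := by
      have : 1 ≤ |m| := Int.one_le_abs hm0
      exact_mod_cast this
    have hmX : |(m : ℝ)| ≤ X / 2 ^ i := by
      rw [le_div_iff₀ (by positivity), mul_comm, ← habs]
      exact hn1
    have hiN : i < N + 1 := by
      by_contra hcon
      push Not at hcon
      have h2 : (2 : ℝ) ^ (N + 1) ≤ 2 ^ i := pow_le_pow_right₀ (by norm_num) hcon
      have h3 : (2 : ℝ) ^ i * 1 ≤ 2 ^ i * |(m : ℝ)| :=
        mul_le_mul_of_nonneg_left hm1 (by positivity)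
      rw [habs] at hn1
      linarith
    have hbd : m ∈ Bd M (γ * Real.log (X / 2 ^ i) + B) := by
      intro j hj
      have h2 := hn2 (j + i) (by
        rw [Real.log_div hX0.ne' (by positivity), Real.log_pow] at hj
        rw [Nat.cast_add]
        have h3 : (i : ℝ) * 1 ≤ i * (γ * Real.log 2) :=
          mul_le_mul_of_nonneg_left hγ2 (Nat.cast_nonneg _)
        linarith)
      rw [Function.iterate_add_apply, hnm, Pool.Agent.Helper14.T_iter_pow] at h2
      exact h2
    rw [mem_coe, mem_biUnion]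
    refine ⟨i, mem_range.2 hiN, ?_⟩
    rw [mem_union, hU]
    simp only [mem_image, mem_filter]
    rcases lt_or_gt_of_ne hm0 with h2 | h2
    · right
      refine ⟨m, ⟨(mem_Od (Or.inr rfl)).2 ⟨hm, by linarith, ?_⟩, hbd⟩, hnm.symm⟩
      rw [← abs_eq_of_sign (Or.inr rfl) (by linarith : 0 < -1 * m)]
      exact hmX
    · left
      refine ⟨m, ⟨(mem_Od (Or.inl rfl)).2 ⟨hm, by linarith, ?_⟩, hbd⟩, hnm.symm⟩
      rw [← abs_eq_of_sign (Or.inl rfl) (by linarith : 0 < 1 * m)]
      exact hmX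
  have h1 := Set.ncard_le_ncard hsub (finite_toSet _)
  rw [Set.ncard_coe_finset] at h1
  have h2 : ∀ i ∈ range (N + 1), ∀ e : ℤ, e = 1 ∨ e = -1 →
      ((U i e).card : ℝ) ≤ X * C * (1 / 2) ^ i := by
    intro i hi e he
    rw [mem_range] at hi
    have h3 : 1 ≤ X / 2 ^ i := by
      rw [one_le_div (by positivity)]
      exact (pow_le_pow_right₀ (by norm_num) (by omega)).trans hN1
    have h4 := h _ h3 e he
    have h5 : ((U i e).card : ℝ) ≤ F e M (γ * Real.log (X / 2 ^ i) + B) (X / 2 ^ i) := by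
      rw [hU]
      unfold F
      exact_mod_cast card_image_le
    refine h5.trans (h4.trans (le_of_eq ?_))
    rw [one_div, inv_pow]
    field_simp
  have h3 : ((((range (N + 1)).biUnion fun i => U i 1 ∪ U i (-1)).card : ℕ) : ℝ) ≤
      ∑ i ∈ range (N + 1), 2 * (X * C) * (1 / 2) ^ i := by
    have h4 : (((range (N + 1)).biUnion fun i => U i 1 ∪ U i (-1)).card : ℝ) ≤
        ∑ i ∈ range (N + 1), ((U i 1 ∪ U i (-1)).card : ℝ) := by
      exact_mod_cast card_biUnion_le
    refine h4.trans (sum_le_sum fun i hi => ?_)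
    have h5 : ((U i 1 ∪ U i (-1)).card : ℝ) ≤ (U i 1).card + (U i (-1)).card := by
      exact_mod_cast card_union_le _ _
    have h6 := h2 i hi 1 (Or.inl rfl)
    have h7 := h2 i hi (-1) (Or.inr rfl)
    linarith
  have h4 : ∑ i ∈ range (N + 1), 2 * (X * C) * (1 / 2 : ℝ) ^ i ≤ 4 * (X * C) := by
    rw [← mul_sum]
    have h5 : ∑ i ∈ range (N + 1), (1 / 2 : ℝ) ^ i ≤ 2 := by
      rw [geom_sum_eq (by norm_num)]
      have h5 : (0 : ℝ) < (1 / 2) ^ (N + 1) := by positivity
      have h6 : ((1 / 2 : ℝ) ^ (N + 1) - 1) / (1 / 2 - 1) = 2 * (1 - (1 / 2) ^ (N + 1)) := by ring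
      rw [h6]
      linarith
    have h6 : 0 ≤ 2 * (X * C) := by positivity
    calc 2 * (X * C) * ∑ i ∈ range (N + 1), (1 / 2 : ℝ) ^ i ≤ 2 * (X * C) * 2 :=
          mul_le_mul_of_nonneg_left h5 h6
      _ = 4 * (X * C) := by ring
  have h5 : (({n : ℤ | |(n : ℝ)| ≤ X ∧ ∀ j : ℕ, (j : ℝ) ≤ γ * Real.log X + B →
      M < |((T^[j] n : ℤ) : ℝ)|}.ncard : ℕ) : ℝ) ≤
      ((((range (N + 1)).biUnion fun i => U i 1 ∪ U i (-1)).card : ℕ) : ℝ) := by
    exact_mod_cast h1
  exact h5.trans (h3.trans h4)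

end Pool.Agent.Collatz3.UN
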