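import Mathlib
import Pool.Agent.Collatz3.UNGrid
import Pool.Agent.Collatz3.UNChain
import Pool.Agent.Collatz3.UNInd

set_option autoImplicit false

/-!
Uniform barrier: the theorem.
-/

namespace Pool.Agent.Collatz3.UN

open Finset Filter
open Pool.Agent.Helper14 (T)
open Pool.Agent.Collatz3.PB (Hn)
open Pool.Agent.Collatz3.PD
open Pool.Agent.Collatz3.FW hiding Num num_all handoff typical P_good_ge num_ev
open Pool.Agent.Collatz3.TN (Bd F F_le F_nonneg F_anti Bd_anti abs_eq_of_sign log_two_bds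
  log_three_bds Re Re_nonneg Re_anti Re_step rate_exp ncard_abs_le)

theorem sqrt_growth {a : ℝ} (ha : 0 < a) (b g : ℝ) : ∃ ℓ₀ : ℝ, 1 ≤ ℓ₀ ∧ ∀ ℓ : ℝ, ℓ₀ ≤ ℓ →
    b * √ℓ + g ≤ a * ℓ := by
  obtain ⟨t, ht⟩ : ∃ t : ℝ, t = (|b| + |g|) / a := ⟨_, rfl⟩
  have ht0 : 0 ≤ t := by rw [ht]; positivity
  refine ⟨max 1 (t ^ 2), le_max_left _ _, fun ℓ hℓ => ?_⟩
  have h1 : 1 ≤ ℓ := (le_max_left _ _).trans hℓ
  have h2 : t ^ 2 ≤ ℓ := (le_max_right _ _).trans hℓ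
  have h3 : t ≤ √ℓ := Real.le_sqrt_of_sq_le h2
  have h4 : 1 ≤ √ℓ := Real.le_sqrt_of_sq_le (by linarith)
  have h5 : √ℓ * √ℓ = ℓ := Real.mul_self_sqrt (by linarith)
  have h6 : a * t = |b| + |g| := by rw [ht]; field_simp
  have h7 : a * t * √ℓ ≤ a * √ℓ * √ℓ :=
    mul_le_mul_of_nonneg_right (mul_le_mul_of_nonneg_left h3 ha.le) (by linarith)
  rw [h6] at h7
  have h8 : b * √ℓ ≤ |b| * √ℓ := mul_le_mul_of_nonneg_right (le_abs_self b) (by linarith)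
  have h9 : g ≤ |g| * √ℓ := (le_abs_self g).trans (by nlinarith [abs_nonneg g])
  calc b * √ℓ + g ≤ (|b| + |g|) * √ℓ := by linarith
    _ ≤ a * √ℓ * √ℓ := h7
    _ = a * ℓ := by rw [mul_assoc, h5]

theorem exp_growth {c₁ : ℝ} (hc : 0 < c₁) : ∃ ℓ₀ : ℝ, ∀ ℓ : ℝ, ℓ₀ ≤ ℓ →
    ℓ ≤ Real.exp (c₁ * √ℓ) := by
  obtain ⟨ℓ₀, -, h⟩ := TP.growth (a := 1) one_pos hc
  exact ⟨ℓ₀, fun ℓ hℓ => (h ℓ hℓ).1⟩

theorem sq_aux {x : ℝ} (hx : 0 ≤ x) : x ≤ (1 + 99 / 100 * x) ^ 2 := by nlinarith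

/-- The bound for the odd integers. -/
theorem main {c K : ℝ} (hc : 0 < c) (hK : 0 < K)
    (hPB : ∀ δ : ℝ, 0 < δ → δ ≤ 1 → ∃ C : ℝ, 0 < C ∧ ∀ X : ℝ, 1 ≤ X →
      ((Set.ncard {n : ℤ | |(n : ℝ)| ≤ X ∧ ∀ t : ℕ, (t : ℝ) ≤ K * Real.log |(n : ℝ)| →
        |(n : ℝ)| ^ δ ≤ |((T^[t] n : ℤ) : ℝ)|} : ℕ) : ℝ) ≤
          C * X ^ (1 - (1 - Hn / Real.log 2 + c) * δ))
    {γ : ℝ} (hγ : 2 / Real.log (4 / 3) < γ) :
    ∃ (C D M₀ : ℝ), 0 < C ∧ 0 < D ∧ 1 < M₀ ∧ ∀ M : ℝ, M₀ ≤ M → ∀ X : ℝ, 1 ≤ X →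
      ∀ e : ℤ, e = 1 ∨ e = -1 → F e M (γ * Real.log X + D * Real.log M) X ≤
        X * (C * Real.exp (-((1 - Hn / Real.log 2 + c / 2) * Real.log M))) := by
  obtain ⟨κ, hκ⟩ : ∃ κ : ℝ, κ = 1 - Hn / Real.log 2 + c := ⟨_, rfl⟩
  have hl2 : 0 < Real.log 2 := Real.log_pos (by norm_num)
  have hη : 0 ≤ 1 - Hn / Real.log 2 := by
    have h1 : Hn ≤ Real.log 2 := Real.binEntropy_le_log_two
    have h2 : Hn / Real.log 2 ≤ 1 := by rw [div_le_one hl2]; exact h1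
    linarith
  have hκ0 : 0 < κ := by rw [hκ]; linarith
  rw [← hκ] at hPB
  obtain ⟨κ', hκ'⟩ : ∃ κ' : ℝ, κ' = κ - c / 4 := ⟨_, rfl⟩
  have hκ'0 : 0 < κ' := by rw [hκ', hκ]; linarith
  have hκ'κ : κ' < κ := by rw [hκ']; linarith
  have hκ'' : 1 - Hn / Real.log 2 + c / 2 = κ' - c / 4 := by rw [hκ', hκ]; ring
  rw [hκ'']
  have hγ₀ : 0 < 2 / Real.log (4 / 3) := by
    have : 0 < Real.log (4 / 3) := Real.log_pos (by norm_num)
    positivity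
  have hγ0 : 0 < γ := lt_trans hγ₀ hγ
  have hγ1 : 1 ≤ γ := by
    have l43p : 0 < Real.log (4 / 3) := Real.log_pos (by norm_num)
    have h43 : Real.log (4 / 3) ≤ 1 / 3 := by
      have := Real.log_le_sub_one_of_pos (show (0 : ℝ) < 4 / 3 by norm_num)
      linarith
    have h6 : 6 ≤ 2 / Real.log (4 / 3) := by
      rw [le_div_iff₀ l43p]
      linarith
    linarith
  obtain ⟨c₂, hc₂, C₂, hC₂, hj⟩ := long_jump hγ
  obtain ⟨c₁, hc₁⟩ : ∃ c₁ : ℝ, c₁ = 127 * (1 + κ') := ⟨_, rfl⟩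
  have hc₁0 : 0 < c₁ := by rw [hc₁]; positivity
  have hc₁κ : κ' ≤ c₁ ^ 2 / 16000 := by
    rw [hc₁, le_div_iff₀ (by norm_num)]
    nlinarith
  -- the length of the jumps
  obtain ⟨δ, hδ⟩ : ∃ δ : ℝ, δ = min ((γ - 2 / Real.log (4 / 3)) / 4 / (γ + 1 / Real.log 2))
      (Real.exp (-(24 * c₁ ^ 2 / c + 1))) := ⟨_, rfl⟩
  have hδ0 : 0 < δ := by
    rw [hδ]
    apply lt_min _ (Real.exp_pos _)
    have : 0 < γ - 2 / Real.log (4 / 3) := by linarith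
    positivity
  have hδa : δ * (γ + 1 / Real.log 2) ≤ (γ - 2 / Real.log (4 / 3)) / 4 := by
    have h1 : δ ≤ (γ - 2 / Real.log (4 / 3)) / 4 / (γ + 1 / Real.log 2) := by
      rw [hδ]
      exact min_le_left _ _
    rw [le_div_iff₀ (by positivity)] at h1
    exact h1
  have hδb : δ ≤ Real.exp (-(24 * c₁ ^ 2 / c + 1)) := by rw [hδ]; exact min_le_right _ _
  obtain ⟨lam, hlam⟩ : ∃ lam : ℝ, lam = Real.log (1 / δ) := ⟨_, rfl⟩
  have hlam1 : 24 * c₁ ^ 2 / c + 1 ≤ lam := by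
    rw [hlam, one_div, Real.log_inv]
    have h1 := Real.log_le_log hδ0 hδb
    rw [Real.log_exp] at h1
    linarith
  have hq0 : 0 ≤ 24 * c₁ ^ 2 / c := by positivity
  have hlam0 : 0 < lam := by linarith
  have hδ1 : δ < 1 := by
    refine lt_of_le_of_lt hδb ?_
    rw [Real.exp_lt_one_iff]
    linarith
  obtain ⟨X₀, hX₀, hstep⟩ := hj δ hδ0 hδ1.le hδa
  obtain ⟨A, hA⟩ : ∃ A : ℝ, A = max 1 (κ' / (c₂ * δ)) := ⟨_, rfl⟩
  have hA1 : 1 ≤ A := by rw [hA]; exact le_max_left _ _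
  have hAκ : κ' ≤ c₂ * δ * A := by
    have h1 : κ' / (c₂ * δ) ≤ A := by rw [hA]; exact le_max_right _ _
    rw [div_le_iff₀ (by positivity)] at h1
    linarith
  obtain ⟨C₁, hC₁, hbase⟩ := base hκ0 hK hPB hκ'0 hκ'κ hA1
  obtain ⟨K₀, hK₀, hind⟩ := inductB rate_exp hγ Re_nonneg Re_anti Re_step
  obtain ⟨ℓ₁, hℓ₁⟩ := exp_growth hc₁0
  obtain ⟨g, hg⟩ : ∃ g : ℝ, g = Real.log 2 + 3 * Real.log (2 * γ) := ⟨_, rfl⟩
  obtain ⟨ℓ₂, hℓ₂1, hℓ₂⟩ := sqrt_growth (a := c / 8) (by positivity) (c₁ * g / lam + 3 * c₁) g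
  refine ⟨C₁ + C₂ + 8000000, K * A, max X₀ (max K₀ (max (Real.exp ℓ₁) (Real.exp ℓ₂))),
    by positivity, by positivity, ?_, ?_⟩
  · have h1 : (1 : ℝ) < Real.exp ℓ₂ := by
      rw [Real.one_lt_exp_iff]
      linarith
    exact lt_of_lt_of_le h1
      ((le_max_right _ _).trans ((le_max_right _ _).trans (le_max_right _ _)))
  intro M hM X hX e he
  have hMX₀ : X₀ ≤ M := (le_max_left _ _).trans hM
  have hMK₀ : K₀ ≤ M := (le_max_left _ _).trans ((le_max_right _ _).trans hM)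
  have hMl₁ : Real.exp ℓ₁ ≤ M :=
    (le_max_left _ _).trans ((le_max_right _ _).trans ((le_max_right _ _).trans hM))
  have hMl₂ : Real.exp ℓ₂ ≤ M :=
    (le_max_right _ _).trans ((le_max_right _ _).trans ((le_max_right _ _).trans hM))
  have hM2 : (2 : ℝ) ≤ M := hK₀.trans hMK₀
  have hM0 : 0 < M := by linarith
  obtain ⟨ℓ, hℓ⟩ : ∃ ℓ, ℓ = Real.log M := ⟨_, rfl⟩
  have hℓℓ₁ : ℓ₁ ≤ ℓ := by rw [hℓ, Real.le_log_iff_exp_le hM0]; exact hMl₁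
  have hℓℓ₂ : ℓ₂ ≤ ℓ := by rw [hℓ, Real.le_log_iff_exp_le hM0]; exact hMl₂
  have g1 := hℓ₁ ℓ hℓℓ₁
  have g2 := hℓ₂ ℓ hℓℓ₂
  have hℓ1 : 1 ≤ ℓ := by linarith
  have hs0 : 0 ≤ √ℓ := Real.sqrt_nonneg _
  have hss : √ℓ * √ℓ = ℓ := Real.mul_self_sqrt (by linarith)
  obtain ⟨Λ, hΛ⟩ : ∃ Λ, Λ = Real.exp (c₁ * √ℓ) := ⟨_, rfl⟩
  rw [← hΛ] at g1
  have hΛ1 : 1 ≤ Λ := by linarith
  obtain ⟨r, hr⟩ : ∃ r : ℕ, r = ⌈c₁ * √ℓ / lam⌉₊ := ⟨_, rfl⟩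
  have hr1 : c₁ * √ℓ / lam ≤ r := by rw [hr]; exact Nat.le_ceil _
  have hr2 : (r : ℝ) ≤ c₁ * √ℓ / lam + 1 := by
    rw [hr]
    exact (Nat.ceil_lt_add_one (by positivity)).le
  have hpow : Λ ≤ (1 / δ) ^ r := by
    rw [hΛ, ← Real.rpow_natCast, Real.rpow_def_of_pos (by positivity), ← hlam]
    apply Real.exp_le_exp.2
    rw [div_le_iff₀ hlam0] at hr1
    linarith
  have hS₀ : (C₁ + C₂) * Real.exp (-(κ' * ℓ)) * (2 * (2 * γ * Λ) ^ 3) ^ r ≤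
      (C₁ + C₂) * Real.exp (-((κ' - c / 4) * ℓ)) := by
    rw [mul_assoc]
    apply mul_le_mul_of_nonneg_left _ (by positivity)
    have e1 : 2 * (2 * γ * Λ) ^ 3 = Real.exp (g + 3 * (c₁ * √ℓ)) := by
      rw [Real.exp_add, hg, Real.exp_add, Real.exp_log (by norm_num), hΛ]
      have e2 : Real.exp (3 * Real.log (2 * γ)) = (2 * γ) ^ 3 := by
        rw [mul_comm, Real.exp_mul, Real.exp_log (by positivity)]
        norm_cast
      have e3 : Real.exp (3 * (c₁ * √ℓ)) = Real.exp (c₁ * √ℓ) ^ 3 := by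
        rw [← Real.exp_nat_mul]
        push_cast
        rfl
      rw [e2, e3]
      ring
    have hg0 : 0 ≤ g := by
      rw [hg]
      have : 0 ≤ Real.log (2 * γ) := Real.log_nonneg (by linarith)
      linarith
    rw [e1, ← Real.exp_nat_mul, ← Real.exp_add]
    apply Real.exp_le_exp.2
    have e4 : (r : ℝ) * (g + 3 * (c₁ * √ℓ)) ≤ (c₁ * √ℓ / lam + 1) * (g + 3 * (c₁ * √ℓ)) :=
      mul_le_mul_of_nonneg_right hr2 (by positivity)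
    have e5 : (c₁ * √ℓ / lam + 1) * (g + 3 * (c₁ * √ℓ)) =
        3 * c₁ ^ 2 / lam * (√ℓ * √ℓ) + ((c₁ * g / lam + 3 * c₁) * √ℓ + g) := by
      field_simp
      ring
    have e6 : 3 * c₁ ^ 2 / lam ≤ c / 8 := by
      rw [div_le_iff₀ hlam0]
      have e7 : c * (24 * c₁ ^ 2 / c) ≤ c * lam :=
        mul_le_mul_of_nonneg_left (by linarith) hc.le
      have e8 : c * (24 * c₁ ^ 2 / c) = 24 * c₁ ^ 2 := by field_simp
      linarith
    have e9 : 3 * c₁ ^ 2 / lam * (√ℓ * √ℓ) ≤ c / 8 * ℓ := by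
      rw [hss]
      exact mul_le_mul_of_nonneg_right e6 (by linarith)
    rw [e5] at e4
    linarith
  obtain ⟨B, hB⟩ : ∃ B : ℝ, B = K * A * Real.log M := ⟨_, rfl⟩
  have hB0 : 0 ≤ B := by
    rw [hB, ← hℓ]
    positivity
  rw [← hB]
  have hchain := chain (γ := γ) (c₂ := c₂) (C₂ := C₂) (δ := δ) (X₀ := X₀) hγ1 hC₂ hδ0 hδ1 hstep
    (κ := κ') (A := A) (C₁ := C₁) hA1 hC₁ hAκ hc₂ (M := M) (B := B) (by linarith) hMX₀
    (by
      intro X hX hXA e he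
      rw [hB]
      exact hbase M (by linarith) X hX hXA e he) (Λ := Λ) hΛ1 r
  rw [← hℓ] at hchain
  obtain ⟨X₁, hX₁⟩ : ∃ X₁, X₁ = Real.exp Λ := ⟨_, rfl⟩
  have hlX₁ : Real.log X₁ = Λ := by rw [hX₁, Real.log_exp]
  have hX₁K : K₀ ≤ X₁ := by
    refine hMK₀.trans ?_
    rw [hX₁, ← Real.log_le_iff_le_exp hM0, ← hℓ]
    exact g1
  have h1 := hind M B (by linarith) hB0 X₁ hX₁K ((C₁ + C₂) * Real.exp (-((κ' - c / 4) * ℓ)))
    (by positivity) (by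
      intro e he Y hY1 hY2
      have hlY : Real.log Y ≤ Λ := by
        rw [← hlX₁]
        exact Real.log_le_log (by linarith) hY2.le
      have hAl : 1 ≤ A * ℓ := one_le_mul_of_one_le_of_one_le hA1 hℓ1
      have h2 := hchain Y hY1 hlY (by
        refine hlY.trans (hpow.trans ?_)
        have h3 : (0 : ℝ) ≤ (1 / δ) ^ r := by positivity
        exact le_mul_of_one_le_right h3 hAl) e he
      exact h2.trans (mul_le_mul_of_nonneg_left hS₀ (by linarith))) X hX e he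
  refine h1.trans ?_
  apply mul_le_mul_of_nonneg_left _ (by linarith)
  rw [hlX₁, ← hℓ]
  have h2 : Re (99 / 100 * Λ) ≤ 8000000 * Real.exp (-((κ' - c / 4) * ℓ)) := by
    unfold Re
    apply mul_le_mul_of_nonneg_left _ (by norm_num)
    apply Real.exp_le_exp.2
    have h3 : c₁ * √ℓ ≤ 2 * Real.log (1 + 99 / 100 * Λ) := by
      have h4 : Λ ≤ (1 + 99 / 100 * Λ) ^ 2 := sq_aux (by linarith)
      have h5 := Real.log_le_log (by linarith) h4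
      rw [Real.log_pow] at h5
      push_cast at h5
      rw [hΛ, Real.log_exp] at h5
      rw [hΛ]
      exact h5
    have h4 : (c₁ * √ℓ) ^ 2 ≤ (2 * Real.log (1 + 99 / 100 * Λ)) ^ 2 :=
      pow_le_pow_left₀ (by positivity) h3 2
    have h5 : (c₁ * √ℓ) ^ 2 = c₁ ^ 2 * ℓ := by
      rw [mul_pow, sq (√ℓ), hss]
    have h6 : (2 * Real.log (1 + 99 / 100 * Λ)) ^ 2 = 4 * Real.log (1 + 99 / 100 * Λ) ^ 2 := by
      ring
    have h7 := mul_le_mul_of_nonneg_right hc₁κ (by linarith : 0 ≤ ℓ)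
    have h8 : 0 ≤ c / 4 * ℓ := by positivity
    linarith
  linarith

/-- **Uniform barrier.** -/
theorem final : ∃ c : ℝ, 0 < c ∧ ∀ ε : ℝ, 0 < ε → ∃ C : ℝ, 0 < C ∧ ∀ M : ℝ, 1 ≤ M →
    ∀ X : ℝ, 1 ≤ X → (({n : ℤ | |(n : ℝ)| ≤ X ∧ ∀ j : ℕ,
      (j : ℝ) ≤ (2 / Real.log (4 / 3) + ε) * Real.log X + C * Real.log M →
        M < |((T^[j] n : ℤ) : ℝ)|}.ncard : ℕ) : ℝ) ≤
      C * X * M ^ (-(1 - Hn / Real.log 2 + c)) := by
  obtain ⟨c, hc, K, hK, hPB⟩ := Pool.Agent.Collatz3.PB.final_t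
  refine ⟨c / 2, by positivity, ?_⟩
  intro ε hε
  obtain ⟨C, D, M₀, hC, hD, hM₀, h⟩ := main hc hK hPB (γ := 2 / Real.log (4 / 3) + ε) (by linarith)
  obtain ⟨κ, hκ⟩ : ∃ κ : ℝ, κ = 1 - Hn / Real.log 2 + c / 2 := ⟨_, rfl⟩
  rw [← hκ] at h ⊢
  have hl2 : 0 < Real.log 2 := Real.log_pos (by norm_num)
  have hκ0 : 0 < κ := by
    have h1 : Hn ≤ Real.log 2 := Real.binEntropy_le_log_two
    have h2 : Hn / Real.log 2 ≤ 1 := by rw [div_le_one hl2]; exact h1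
    rw [hκ]
    linarith
  refine ⟨4 * C + D + 3 * M₀ ^ κ, by positivity, ?_⟩
  intro M hM X hX
  have hM0 : 0 < M := by linarith
  have hMc : 0 < M ^ (-κ) := Real.rpow_pos_of_pos hM0 _
  rcases lt_or_ge M M₀ with hMM | hMM
  · refine (ncard_abs_le hX _ fun n hn => hn.1).trans ?_
    have h1 : 1 ≤ M₀ ^ κ * M ^ (-κ) := by
      rw [Real.rpow_neg hM0.le, ← div_eq_mul_inv, one_le_div (Real.rpow_pos_of_pos hM0 _)]
      exact Real.rpow_le_rpow hM0.le hMM.le hκ0.le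
    have h2 : 0 ≤ (4 * C + D) * X * M ^ (-κ) := by positivity
    calc 3 * X = 3 * X * 1 := by ring
      _ ≤ 3 * X * (M₀ ^ κ * M ^ (-κ)) := mul_le_mul_of_nonneg_left h1 (by linarith)
      _ ≤ (4 * C + D + 3 * M₀ ^ κ) * X * M ^ (-κ) := by linarith
  · have hlM : 0 ≤ Real.log M := Real.log_nonneg hM
    have h1 := count_allB (γ := 2 / Real.log (4 / 3) + ε) (M := M) (B := D * Real.log M)
      (by positivity) (C := C * Real.exp (-(κ * Real.log M))) (by linarith) hM0.le (by positivity)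
      (h M hMM) X hX
    have hsub : {n : ℤ | |(n : ℝ)| ≤ X ∧ ∀ j : ℕ,
        (j : ℝ) ≤ (2 / Real.log (4 / 3) + ε) * Real.log X + (4 * C + D + 3 * M₀ ^ κ) * Real.log M →
        M < |((T^[j] n : ℤ) : ℝ)|} ⊆ {n : ℤ | |(n : ℝ)| ≤ X ∧ ∀ j : ℕ,
        (j : ℝ) ≤ (2 / Real.log (4 / 3) + ε) * Real.log X + D * Real.log M →
        M < |((T^[j] n : ℤ) : ℝ)|} := by
      rintro n ⟨h2, h3⟩
      refine ⟨h2, fun j hj => h3 j (hj.trans ?_)⟩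
      have : 0 ≤ (4 * C + 3 * M₀ ^ κ) * Real.log M := by positivity
      linarith
    have hfin : {n : ℤ | |(n : ℝ)| ≤ X ∧ ∀ j : ℕ,
        (j : ℝ) ≤ (2 / Real.log (4 / 3) + ε) * Real.log X + D * Real.log M →
        M < |((T^[j] n : ℤ) : ℝ)|}.Finite :=
      (Pool.Agent.Helper14.abs_le_finite X).subset fun _ h => h.1
    have h4 := Set.ncard_le_ncard hsub hfin
    have h5 : (({n : ℤ | |(n : ℝ)| ≤ X ∧ ∀ j : ℕ,
        (j : ℝ) ≤ (2 / Real.log (4 / 3) + ε) * Real.log X + (4 * C + D + 3 * M₀ ^ κ) * Real.log M →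
        M < |((T^[j] n : ℤ) : ℝ)|}.ncard : ℕ) : ℝ) ≤
        (({n : ℤ | |(n : ℝ)| ≤ X ∧ ∀ j : ℕ,
        (j : ℝ) ≤ (2 / Real.log (4 / 3) + ε) * Real.log X + D * Real.log M →
        M < |((T^[j] n : ℤ) : ℝ)|}.ncard : ℕ) : ℝ) := by exact_mod_cast h4
    refine h5.trans (h1.trans ?_)
    have h2 : Real.exp (-(κ * Real.log M)) = M ^ (-κ) := by
      rw [Real.rpow_def_of_pos hM0]
      congr 1
      ring
    rw [h2]
    have h3 : 0 ≤ (D + 3 * M₀ ^ κ) * X * M ^ (-κ) := by positivity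
    linarith

end Pool.Agent.Collatz3.UN
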