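import Mathlib
import Pool.Agent.Collatz3.PRErr
import Pool.Agent.Collatz3.PRRes
import Pool.Agent.Collatz3.UNFinal

set_option autoImplicit false

/-!
Tao's theorem in sifted sets: the theorem for odd integers.
-/

namespace Pool.Agent.Collatz3.PR

open Finset Filter
open Pool.Agent.Collatz3.Mix (words mem_words)
open Pool.Agent.Collatz3.PD
open Pool.Agent.Collatz3.FW
open Pool.Agent.Helper90.Straus (Sys g pr mem_pr)
open Pool.Agent.Helper14 (T)
open Pool.Agent.Collatz3.PB (Hn)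

open Classical in
/-- The good words whose sum is close to `2 k`. -/
noncomputable def Odd_G (u l : ℝ) (I k R : ℕ) : Finset (List ℕ) :=
  (W2 u I k R).filter fun w => |(w.sum : ℝ) - 2 * k| ≤ l * √k

theorem Odd_words (I k : ℕ) : 1 - k * (1 / 2 : ℝ) ^ I ≤ P (words I k) := by
  rw [P_words, Z_eq]
  have h1 : (-2 : ℝ) ≤ -(1 / 2 : ℝ) ^ I := by
    have : (1 / 2 : ℝ) ^ I ≤ 1 := pow_le_one₀ (by norm_num) (by norm_num)
    linarith
  have h2 := one_add_mul_le_pow h1 k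
  calc 1 - k * (1 / 2 : ℝ) ^ I = 1 + k * -(1 / 2 : ℝ) ^ I := by ring
    _ ≤ (1 + -(1 / 2 : ℝ) ^ I) ^ k := h2
    _ = _ := by rw [← sub_eq_add_neg]

/-- The mass of the bad words. -/
theorem Odd_P (h1 : St_Tail1) (h2 : St_Tail2) (h3 : St_Tail3) : ∃ ρ C : ℝ, 0 < ρ ∧ ρ < 1 ∧ 0 < C ∧
    ∀ (I k R : ℕ) (u l : ℝ), 4 ≤ k → 0 < u → 0 ≤ l →
      1 - P (Odd_G u l I k R) ≤
        k * (1 / 2 : ℝ) ^ I + 1 / u + C * ρ ^ R + C * Real.exp (-(l / 2)) := by
  classical
  obtain ⟨ρ, C₂, hρ0, hρ1, hC₂, h2⟩ := h2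
  obtain ⟨C₃, hC₃, h3⟩ := h3
  refine ⟨ρ, C₂ + C₃, hρ0, hρ1, by positivity, ?_⟩
  intro I k R u l hk hu hl
  have a1 := h1 I k u hu
  have a2 := h2 I k R u
  have a3 := h3 I k hk l hl
  have a4 := Odd_words I k
  have hsub : words I k ⊆ Odd_G u l I k R ∪ ((words I k \ W1 u I k k) ∪
      ((W1 u I k k \ W2 u I k R) ∪
        (words I k).filter fun w => l * √k < |(w.sum : ℝ) - 2 * k|)) := by
    intro w hw
    simp only [mem_union, Finset.mem_sdiff, mem_filter, Odd_G]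
    by_cases b1 : w ∈ W1 u I k k
    · by_cases b2 : w ∈ W2 u I k R
      · by_cases b3 : |(w.sum : ℝ) - 2 * k| ≤ l * √k
        · exact Or.inl ⟨b2, b3⟩
        · push Not at b3
          exact Or.inr (Or.inr (Or.inr ⟨hw, b3⟩))
      · exact Or.inr (Or.inr (Or.inl ⟨b1, b2⟩))
    · exact Or.inr (Or.inl ⟨hw, b1⟩)
  have b1 := (P_mono hsub).trans (P_union_le _ _)
  have b2 := P_union_le (words I k \ W1 u I k k) ((W1 u I k k \ W2 u I k R) ∪
        (words I k).filter fun w => l * √k < |(w.sum : ℝ) - 2 * k|)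
  have b3 := P_union_le (W1 u I k k \ W2 u I k R)
        ((words I k).filter fun w => l * √k < |(w.sum : ℝ) - 2 * k|)
  have c1 : 0 ≤ C₃ * ρ ^ R := by positivity
  have c2 : 0 ≤ C₂ * Real.exp (-(l / 2)) := by positivity
  nlinarith

/-- The number of sums. -/
theorem Odd_card {a r : ℝ} (ha : 0 ≤ r) {S : Finset ℕ}
    (hS : ∀ s ∈ S, |(s : ℝ) - a| ≤ r) : (S.card : ℝ) ≤ 2 * r + 1 := by
  rcases S.eq_empty_or_nonempty with h | ⟨s₀, hs₀⟩
  · rw [h, card_empty, Nat.cast_zero]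
    linarith
  have h1 : S ⊆ Icc ⌈a - r⌉₊ ⌊a + r⌋₊ := by
    intro s hs
    have h2 := abs_le.1 (hS s hs)
    rw [mem_Icc]
    constructor
    · exact Nat.ceil_le.2 (by linarith [h2.1])
    · exact Nat.le_floor (by linarith [h2.2])
  have h2 := card_le_card h1
  have h3 : (S.card : ℝ) ≤ ((Icc ⌈a - r⌉₊ ⌊a + r⌋₊).card : ℝ) := by exact_mod_cast h2
  refine h3.trans ?_
  rw [Nat.card_Icc]
  have h4 := mem_Icc.1 (h1 hs₀)
  have h5 := abs_le.1 (hS s₀ hs₀)
  have h6 : (0 : ℝ) ≤ a + r := by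
    have : (0 : ℝ) ≤ s₀ := Nat.cast_nonneg _
    linarith [h5.2]
  rw [Nat.cast_sub (by omega)]
  push_cast
  have h7 := Nat.floor_le h6
  have h8 := Nat.le_ceil (a - r)
  linarith

/-- Powers of logarithms. -/
theorem Odd_log (n : ℕ) {c : ℝ} (hc : 0 < c) : ∃ C : ℝ, 0 < C ∧ ∀ M : ℝ, 1 ≤ M →
    (Real.log M + 1) ^ n ≤ C * M ^ c := by
  refine ⟨n.factorial / c ^ n * Real.exp c, by positivity, ?_⟩
  intro M hM
  have hM0 : 0 < M := by linarith
  have hl := Real.log_nonneg hM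
  have h1 := Real.pow_div_factorial_le_exp (c * (Real.log M + 1)) (by positivity) n
  rw [Real.rpow_def_of_pos hM0, div_le_iff₀ (by positivity), mul_pow] at *
  have h2 : Real.exp (c * (Real.log M + 1)) = Real.exp c * Real.exp (Real.log M * c) := by
    rw [← Real.exp_add]
    ring_nf
  rw [h2] at h1
  calc (Real.log M + 1) ^ n = c ^ n * (Real.log M + 1) ^ n / c ^ n := by field_simp
    _ ≤ Real.exp c * Real.exp (Real.log M * c) * n.factorial / c ^ n :=
        div_le_div_of_nonneg_right h1 (by positivity)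
    _ = _ := by ring

/-- The parameters. -/
theorem Odd_num (A n : ℕ) (hn : 1 ≤ n) {c₀ cV ε : ℝ} (hc₀ : 0 < c₀) (hcV : 0 < cV) (hε : 0 < ε) :
    ∃ l₀ : ℝ, ∀ l : ℝ, l₀ ≤ l → ∃ k : ℕ, 10 ≤ k ∧
      (∀ m : ℝ, c₀ * m ≤ 2 * A * Real.log l → 2 * m ≤ k ∧ c₀ * m ≤ k) ∧
      (2 * l) ^ n * (4 / 5) ^ (k / 2) ≤ 1 ∧
      k * l ^ A ≤ cV * (397 / 300) ^ k ∧
      6 * k ≤ l - 1 ∧ 6 * k ≤ ε * (l - 1) := by
  obtain ⟨K, hK⟩ : ∃ K : ℝ, K = 20 * n + 9 * A + 4 * A / c₀ + 2 * A := ⟨_, rfl⟩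
  have hn1 : (1 : ℝ) ≤ n := by exact_mod_cast hn
  have hA0 : (0 : ℝ) ≤ A := Nat.cast_nonneg _
  have hq : 0 ≤ 4 * A / c₀ := by positivity
  have hK0 : 20 ≤ K := by linarith
  -- growth
  have e1 : Tendsto (fun l : ℝ => Real.log l) atTop atTop := Real.tendsto_log_atTop
  have e2 : ∀ᶠ k : ℕ in atTop, (k : ℝ) ≤ cV * (9 / 8) ^ k := by
    have h1 := (tendsto_pow_const_div_const_pow_of_one_lt 1 (show (1 : ℝ) < 9 / 8 by norm_num)).eventually_lt_const
      hcV
    filter_upwards [h1] with k hk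
    rw [div_lt_iff₀ (by positivity), pow_one] at hk
    exact hk.le
  have e3 : Tendsto (fun l : ℝ => ⌈K * Real.log l⌉₊) atTop atTop :=
    tendsto_nat_ceil_atTop.comp (Tendsto.const_mul_atTop (by linarith) e1)
  have e4 : ∀ c : ℝ, 0 < c → ∀ᶠ l : ℝ in atTop, 6 * (K * Real.log l + 1) ≤ c * (l - 1) := by
    intro c hc
    have h1 := Real.isLittleO_log_id_atTop.def (show 0 < c / (12 * K) by positivity)
    filter_upwards [h1, eventually_ge_atTop (2 * (6 + c) / c), eventually_ge_atTop 1] with l h2 h3 h4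
    have h5 : 0 ≤ Real.log l := Real.log_nonneg h4
    simp only [id] at h2
    rw [Real.norm_of_nonneg h5, Real.norm_of_nonneg (by linarith)] at h2
    have h6 : 6 * (K * Real.log l) ≤ c / 2 * l := by
      calc 6 * (K * Real.log l) ≤ 6 * (K * (c / (12 * K) * l)) := by
            have := mul_le_mul_of_nonneg_left h2 (by linarith : 0 ≤ K)
            linarith
        _ = c / 2 * l := by
            have : K ≠ 0 := by linarith
            field_simp
            norm_num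
    have h7 : 6 + c ≤ c / 2 * l := by
      rw [div_le_iff₀ hc] at h3
      linarith
    linarith
  have e5 := (e1.eventually_ge_atTop 1).and ((e3.eventually e2).and ((e4 1 one_pos).and ((e4 ε hε).and
    (eventually_ge_atTop 1))))
  obtain ⟨l₀, hl₀⟩ := e5.exists_forall_of_atTop
  refine ⟨l₀, fun l hl => ⟨⌈K * Real.log l⌉₊, ?_⟩⟩
  obtain ⟨g1, g2, g3, g4, g5⟩ := hl₀ l hl
  obtain ⟨k, hk⟩ : ∃ k, k = ⌈K * Real.log l⌉₊ := ⟨_, rfl⟩
  rw [← hk] at g2 ⊢
  have hl0 : (0 : ℝ) < l := by linarith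
  have k1 : K * Real.log l ≤ k := by
    rw [hk]
    exact Nat.le_ceil _
  have k2 : (k : ℝ) ≤ K * Real.log l + 1 := by
    rw [hk]
    exact (Nat.ceil_lt_add_one (by positivity)).le
  have k3 : (10 : ℝ) ≤ k := by nlinarith
  have hAl : 0 ≤ A * Real.log l := by positivity
  have hnl : (n : ℝ) ≤ n * Real.log l := le_mul_of_one_le_right (by linarith) g1
  have hql : 0 ≤ 4 * A / c₀ * Real.log l := by positivity
  have k4 : 20 * (n * Real.log l) + 9 * (A * Real.log l) + 4 * A / c₀ * Real.log l +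
      2 * (A * Real.log l) ≤ k := by
    refine le_trans (le_of_eq ?_) k1
    rw [hK]
    ring
  refine ⟨by exact_mod_cast k3, ?_, ?_, ?_, by linarith, by linarith⟩
  · intro m hm
    constructor
    · have h1 : 2 * m ≤ 4 * A / c₀ * Real.log l := by
        rw [div_mul_eq_mul_div, le_div_iff₀ hc₀]
        linarith
      linarith
    · linarith
  · have h1 : ((k : ℝ) - 1) / 2 ≤ ((k / 2 : ℕ) : ℝ) := by
      have : k ≤ 2 * (k / 2) + 1 := by omega
      have : (k : ℝ) ≤ 2 * ((k / 2 : ℕ) : ℝ) + 1 := by exact_mod_cast this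
      linarith
    have h2 : (1 / 5 : ℝ) ≤ Real.log (5 / 4) := by
      have := Real.one_sub_inv_le_log_of_pos (show (0 : ℝ) < 5 / 4 by norm_num)
      norm_num at this ⊢
      linarith
    have h3 : Real.log (2 * l) = Real.log 2 + Real.log l := Real.log_mul (by norm_num) hl0.ne'
    have h4 : (2 * l) ^ n ≤ (5 / 4 : ℝ) ^ (k / 2) := by
      rw [← Real.log_le_log_iff (by positivity) (by positivity), Real.log_pow, Real.log_pow, h3]
      have h5 := Real.log_two_lt_d9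
      have h6 : (n : ℝ) * (Real.log 2 + Real.log l) ≤ n * 0.7 + n * Real.log l := by
        rw [mul_add]
        have := mul_le_mul_of_nonneg_left (h5.le.trans (by norm_num : (0.6931471808 : ℝ) ≤ 0.7))
          (by linarith : (0 : ℝ) ≤ n)
        linarith
      have h7 : ((k : ℝ) - 1) / 2 * (1 / 5) ≤ ((k / 2 : ℕ) : ℝ) * Real.log (5 / 4) :=
        mul_le_mul h1 h2 (by norm_num) (Nat.cast_nonneg _)
      linarith
    have h5 : (4 / 5 : ℝ) ^ (k / 2) = ((5 / 4 : ℝ) ^ (k / 2))⁻¹ := by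
      rw [← inv_pow]
      norm_num
    rw [h5, ← div_eq_mul_inv, div_le_one (by positivity)]
    exact h4
  · have h1 : l ^ A ≤ (9 / 8 : ℝ) ^ k := by
      rw [← Real.log_le_log_iff (by positivity) (by positivity), Real.log_pow, Real.log_pow]
      have h2 : (1 / 9 : ℝ) ≤ Real.log (9 / 8) := by
        have := Real.one_sub_inv_le_log_of_pos (show (0 : ℝ) < 9 / 8 by norm_num)
        norm_num at this ⊢
        linarith
      have h3 : (k : ℝ) * (1 / 9) ≤ k * Real.log (9 / 8) :=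
        mul_le_mul_of_nonneg_left h2 (Nat.cast_nonneg _)
      linarith
    calc k * l ^ A ≤ cV * (9 / 8) ^ k * (9 / 8) ^ k :=
          mul_le_mul g2 h1 (by positivity) (by positivity)
      _ = cV * (81 / 64) ^ k := by
          rw [mul_assoc, ← mul_pow]
          norm_num
      _ ≤ cV * (397 / 300) ^ k :=
          mul_le_mul_of_nonneg_left (pow_le_pow_left₀ (by norm_num) (by norm_num) _) hcV.le

theorem Odd_two_pow {k s : ℕ} (h : 199 * k ≤ 100 * s) : (397 / 100 : ℝ) ^ k ≤ 2 ^ s := by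
  have : ((397 / 100 : ℝ) ^ k) ^ 100 ≤ (2 ^ s) ^ 100 := by
    calc ((397 / 100 : ℝ) ^ k) ^ 100 = ((397 / 100 : ℝ) ^ 100) ^ k := by
          rw [← pow_mul, ← pow_mul, mul_comm]
      _ ≤ ((2 : ℝ) ^ 199) ^ k := pow_le_pow_left₀ (by norm_num) (by norm_num) _
      _ = 2 ^ (199 * k) := by rw [← pow_mul]
      _ ≤ 2 ^ (100 * s) := pow_le_pow_right₀ (by norm_num) h
      _ = (2 ^ s) ^ 100 := by rw [← pow_mul, mul_comm]
  exact le_of_pow_le_pow_left₀ (by norm_num) (by positivity) this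

/-- Splitting according to the sign. -/
theorem Odd_ncard (X : ℝ) (p : ℤ → Prop) [DecidablePred p] :
    (Set.ncard {n : ℤ | n % 2 = 1 ∧ |(n : ℝ)| ≤ X ∧ p n} : ℝ) ≤
    (((Od 1 X).filter fun n => p n).card : ℝ) + (((Od (-1) X).filter fun n => p n).card : ℝ) := by
  have h1 : {n : ℤ | n % 2 = 1 ∧ |(n : ℝ)| ≤ X ∧ p n} ⊆
      (((Od 1 X).filter fun n => p n) ∪ ((Od (-1) X).filter fun n => p n) : Finset ℤ) := by
    rintro n ⟨h1, h2, h3⟩
    rw [mem_coe, mem_union, mem_filter, mem_filter, mem_Od (Or.inl rfl), mem_Od (Or.inr rfl)]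
    have h4 := abs_le.1 h2
    rcases lt_or_ge 0 n with h | h
    · left
      refine ⟨⟨h1, by omega, ?_⟩, h3⟩
      rw [one_mul]
      exact h4.2
    · right
      refine ⟨⟨h1, by omega, ?_⟩, h3⟩
      push_cast
      linarith [h4.1]
  have h2 := Set.ncard_le_ncard h1 (Finset.finite_toSet _)
  rw [Set.ncard_coe_finset] at h2
  exact_mod_cast h2.trans (card_union_le _ _)

open Classical in
/-- The cover. -/
theorem Odd_cover (e : ℤ) (X M : ℝ) (z : ℕ) (Ω : ℕ → Finset ℕ) {u l L L' : ℝ} {I k R : ℕ}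
    {S : Finset ℕ} (hS : ∀ w ∈ Odd_G u l I k R, w.sum ∈ S) (hL : ∀ s ∈ S, L' ≤ L - s) :
    (((Od e X).filter fun n => Sf Ω z n ∧ n ∈ Bd M L).card : ℝ) ≤
      (((Od e X).filter fun n => Sf Ω z n ∧
        ¬ Hit (Odd_G u l I k R) (fun _ => Set.univ) n).card : ℝ) +
      ∑ s ∈ S, (((Od e X).filter fun n => Sf Ω z n ∧
        Hit ((W2 u I k R).filter fun w => w.sum = s) (fun _ => Bd M L') n).card : ℝ) := by
  have h1 : ((Od e X).filter fun n => Sf Ω z n ∧ n ∈ Bd M L) ⊆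
      ((Od e X).filter fun n => Sf Ω z n ∧ ¬ Hit (Odd_G u l I k R) (fun _ => Set.univ) n) ∪
      S.biUnion fun s => (Od e X).filter fun n => Sf Ω z n ∧
        Hit ((W2 u I k R).filter fun w => w.sum = s) (fun _ => Bd M L') n := by
    intro n hn
    rw [mem_filter] at hn
    obtain ⟨h1, h2, h3⟩ := hn
    rw [mem_union, mem_filter, mem_biUnion]
    by_cases hH : Hit (Odd_G u l I k R) (fun _ => Set.univ) n
    · right
      obtain ⟨w, hw, b, hb, hr, hen, -⟩ := hH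
      refine ⟨w.sum, hS w hw, ?_⟩
      rw [mem_filter]
      refine ⟨h1, h2, w, ?_, b, hb, hr, hen, ?_⟩
      · rw [Odd_G, mem_filter] at hw
        rw [mem_filter]
        exact ⟨hw.1, rfl⟩
      · have hpos : ∀ i ∈ w, 1 ≤ i := by
          intro i hi
          rw [Odd_G, mem_filter, mem_W2, mem_W1] at hw
          exact ((mem_words.1 hw.1.1.1).2 i hi).1
        have h4 := T_en hr hpos
        rw [hen] at h4
        have h5 := Bd_down h3 h4
        intro j hj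
        exact h5 j (hj.trans (hL _ (hS w hw)))
    · left
      exact ⟨h1, h2, hH⟩
  have h2 := (card_le_card h1).trans (card_union_le _ _)
  have h3 : ((S.biUnion fun s => (Od e X).filter fun n => Sf Ω z n ∧
        Hit ((W2 u I k R).filter fun w => w.sum = s) (fun _ => Bd M L') n).card : ℝ) ≤
      ∑ s ∈ S, (((Od e X).filter fun n => Sf Ω z n ∧
        Hit ((W2 u I k R).filter fun w => w.sum = s) (fun _ => Bd M L') n).card : ℝ) := by
    exact_mod_cast card_biUnion_le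
  have h4 : (((Od e X).filter fun n => Sf Ω z n ∧ n ∈ Bd M L).card : ℝ) ≤
      (((Od e X).filter fun n => Sf Ω z n ∧
        ¬ Hit (Odd_G u l I k R) (fun _ => Set.univ) n).card : ℝ) +
      ((S.biUnion fun s => (Od e X).filter fun n => Sf Ω z n ∧
        Hit ((W2 u I k R).filter fun w => w.sum = s) (fun _ => Bd M L') n).card : ℝ) := by
    exact_mod_cast h2
  linarith

open Classical in
/-- The exceptional lower end points. -/
theorem Odd_E {g D δ M X Y : ℝ} (hg : 0 ≤ g) (hY : 1 ≤ Y) (hYX : Y ≤ X) {e : ℤ}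
    (he : e = 1 ∨ e = -1) (h : ∀ X : ℝ, 1 ≤ X → (({n : ℤ | |(n : ℝ)| ≤ X ∧ ∀ j : ℕ,
      (j : ℝ) ≤ g * Real.log X + D → M < |((T^[j] n : ℤ) : ℝ)|}.ncard : ℕ) : ℝ) ≤ δ * X) :
    (((Od e Y).filter fun b => b ∈ Bd M (g * Real.log X + D)).card : ℝ) ≤ δ * Y := by
  refine le_trans ?_ (h Y hY)
  have hfin : {n : ℤ | |(n : ℝ)| ≤ Y ∧ ∀ j : ℕ,
      (j : ℝ) ≤ g * Real.log Y + D → M < |((T^[j] n : ℤ) : ℝ)|}.Finite :=
    (Pool.Agent.Helper14.abs_le_finite Y).subset fun _ h => h.1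
  have hsub : (((Od e Y).filter fun b => b ∈ Bd M (g * Real.log X + D) : Finset ℤ) : Set ℤ) ⊆
      {n : ℤ | |(n : ℝ)| ≤ Y ∧ ∀ j : ℕ,
      (j : ℝ) ≤ g * Real.log Y + D → M < |((T^[j] n : ℤ) : ℝ)|} := by
    intro n hn
    rw [mem_coe, mem_filter, mem_Od he] at hn
    obtain ⟨⟨-, h2, h3⟩, h4⟩ := hn
    refine ⟨?_, fun j hj => h4 j (hj.trans ?_)⟩
    · rcases he with h' | h' <;> rw [h'] at h2 h3
      · rw [one_mul] at h2 h3
        rw [abs_of_nonneg (by exact_mod_cast h2.le)]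
        exact h3
      · have h5 : n < 0 := by omega
        rw [abs_of_nonpos (by exact_mod_cast h5.le)]
        push_cast at h3
        linarith
    · have h5 := Real.log_le_log (by linarith) hYX
      have h6 := mul_le_mul_of_nonneg_left h5 hg
      linarith
  have h1 := Set.ncard_le_ncard hsub hfin
  rw [Set.ncard_coe_finset] at h1
  exact_mod_cast h1

/-- The bad words, in numbers. -/
theorem Odd_bad {ρ B c c₀ M : ℝ} {k I₀ : ℕ} (hρ0 : 0 < ρ) (hρ1 : ρ < 1) (hM : 1 ≤ M)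
    (hc1 : c ≤ c₀ / 8) (hc2 : c ≤ -Real.log ρ) (hc3 : c ≤ 1 / 2) (hc0 : 0 < c₀)
    (hk : c₀ * Real.log M ≤ k) (hk1 : 1 ≤ k) (hB : 0 < B) :
    k * (1 / 2 : ℝ) ^ (I₀ + 2 * k) + 1 / M ^ (c₀ / 2) + B * ρ ^ ⌊Real.log M⌋₊ +
      B * Real.exp (-(Real.log M / 2)) + (1 / 2) ^ (k / 2) ≤ (5 + B / ρ + B) * M ^ (-c) := by
  have hM0 : 0 < M := by linarith
  have hl := Real.log_nonneg hM
  have e1 : (1 / 2 : ℝ) ^ (k / 2) ≤ 2 * M ^ (-c) := by
    rw [Real.rpow_neg hM0.le, ← div_eq_mul_inv, le_div_iff₀ (Real.rpow_pos_of_pos hM0 _), one_div,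
      inv_pow, ← div_eq_inv_mul, div_le_iff₀ (by positivity),
      ← Real.log_le_log_iff (Real.rpow_pos_of_pos hM0 _) (by positivity), Real.log_rpow hM0,
      Real.log_mul (by norm_num) (by positivity), Real.log_pow]
    have h1 : ((k : ℝ) - 1) / 2 ≤ ((k / 2 : ℕ) : ℝ) := by
      have : k ≤ 2 * (k / 2) + 1 := by omega
      have : (k : ℝ) ≤ 2 * ((k / 2 : ℕ) : ℝ) + 1 := by exact_mod_cast this
      linarith
    have h2 := Real.log_two_gt_d9
    have h3 : c * Real.log M ≤ c₀ / 8 * Real.log M := mul_le_mul_of_nonneg_right hc1 hl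
    have h4 : ((k : ℝ) - 1) / 2 * 0.69 ≤ ((k / 2 : ℕ) : ℝ) * Real.log 2 := by
      have h5 : (1 : ℝ) ≤ k := by exact_mod_cast hk1
      exact mul_le_mul h1 (by linarith) (by norm_num) (Nat.cast_nonneg _)
    have h5 : (0 : ℝ) ≤ k := Nat.cast_nonneg _
    linarith
  have e2 : k * (1 / 2 : ℝ) ^ (I₀ + 2 * k) ≤ (1 / 2 : ℝ) ^ (k / 2) := by
    have h1 : (1 / 2 : ℝ) ^ (I₀ + 2 * k) ≤ (1 / 2) ^ (k + k / 2) :=
      pow_le_pow_of_le_one (by norm_num) (by norm_num) (by omega)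
    have h2 : (k : ℝ) * (1 / 2) ^ k ≤ 1 := by
      rw [one_div, inv_pow, ← div_eq_mul_inv, div_le_one (by positivity)]
      exact_mod_cast Nat.lt_two_pow_self.le
    calc k * (1 / 2 : ℝ) ^ (I₀ + 2 * k) ≤ k * (1 / 2) ^ (k + k / 2) :=
          mul_le_mul_of_nonneg_left h1 (Nat.cast_nonneg _)
      _ = k * (1 / 2) ^ k * (1 / 2) ^ (k / 2) := by rw [pow_add]; ring
      _ ≤ 1 * (1 / 2) ^ (k / 2) := mul_le_mul_of_nonneg_right h2 (by positivity)
      _ = _ := one_mul _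
  have e3 : 1 / M ^ (c₀ / 2) ≤ M ^ (-c) := by
    rw [one_div, ← Real.rpow_neg hM0.le]
    exact Real.rpow_le_rpow_of_exponent_le hM (by linarith)
  have e4 : ρ ^ ⌊Real.log M⌋₊ ≤ 1 / ρ * M ^ (-c) := by
    rw [Real.rpow_neg hM0.le, ← div_eq_mul_inv, le_div_iff₀ (Real.rpow_pos_of_pos hM0 _),
      le_div_iff₀ hρ0, ← Real.log_le_log_iff (by positivity) one_pos, Real.log_one,
      Real.log_mul (by positivity) hρ0.ne', Real.log_mul (by positivity) (by positivity),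
      Real.log_pow, Real.log_rpow hM0]
    have h1 : Real.log ρ ≤ 0 := Real.log_nonpos hρ0.le hρ1.le
    have h2 : Real.log M - 1 ≤ (⌊Real.log M⌋₊ : ℝ) := (Nat.sub_one_lt_floor _).le
    have h3 : (⌊Real.log M⌋₊ : ℝ) * Real.log ρ ≤ (Real.log M - 1) * Real.log ρ :=
      mul_le_mul_of_nonpos_right h2 h1
    have h4 : c * Real.log M ≤ -Real.log ρ * Real.log M := mul_le_mul_of_nonneg_right hc2 hl
    linarith
  have e5 : Real.exp (-(Real.log M / 2)) ≤ M ^ (-c) := by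
    rw [Real.rpow_def_of_pos hM0]
    apply Real.exp_le_exp.2
    have h4 : c * Real.log M ≤ 1 / 2 * Real.log M := mul_le_mul_of_nonneg_right hc3 hl
    linarith
  have e6 := mul_le_mul_of_nonneg_left e4 hB.le
  have e7 := mul_le_mul_of_nonneg_left e5 hB.le
  have e8 : B * (1 / ρ * M ^ (-c)) = B / ρ * M ^ (-c) := by ring
  rw [e8] at e6
  linarith

/-- The main term, in numbers. -/
theorem Odd_mid {D c c₀ M L : ℝ} {k m : ℕ} (hM : 1 ≤ M) (hc1 : c ≤ c₀ / 8) (hk1 : 1 ≤ k)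
    (hD : 0 < D) (hL : (Real.log M + 1) ^ (m + 1) ≤ L * M ^ (c₀ / 8)) :
    (2 * (Real.log M * √k) + 1) * (√(D * M ^ (-c₀) * M ^ (c₀ / 2) / k) *
      ((⌊Real.log M⌋₊ : ℝ) + 1) ^ m) ≤ 2 * √D * L * M ^ (-c) := by
  have hM0 : 0 < M := by linarith
  have hl := Real.log_nonneg hM
  have hk0 : (1 : ℝ) ≤ k := by exact_mod_cast hk1
  have hk2 : 1 ≤ √(k : ℝ) := Real.one_le_sqrt.2 hk0
  have e1 : √(D * M ^ (-c₀) * M ^ (c₀ / 2) / k) = √D * M ^ (-c₀ / 4) / √k := by
    have h1 : D * M ^ (-c₀) * M ^ (c₀ / 2) / k = (√D * M ^ (-c₀ / 4)) ^ 2 / k := by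
      rw [mul_pow, Real.sq_sqrt hD.le, mul_assoc, ← Real.rpow_add hM0, ← Real.rpow_natCast,
        ← Real.rpow_mul hM0.le]
      congr 3
      push_cast
      ring
    rw [h1, Real.sqrt_div (by positivity), Real.sqrt_sq (by positivity)]
  have e2 : (⌊Real.log M⌋₊ : ℝ) + 1 ≤ Real.log M + 1 := by
    have := Nat.floor_le hl
    linarith
  have e3 : ((⌊Real.log M⌋₊ : ℝ) + 1) ^ m ≤ (Real.log M + 1) ^ m :=
    pow_le_pow_left₀ (by positivity) e2 m
  have e4 : (2 * (Real.log M * √k) + 1) / √k ≤ 2 * (Real.log M + 1) := by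
    rw [div_le_iff₀ (by linarith)]
    nlinarith
  rw [e1]
  calc (2 * (Real.log M * √k) + 1) * (√D * M ^ (-c₀ / 4) / √k *
      ((⌊Real.log M⌋₊ : ℝ) + 1) ^ m) =
        (2 * (Real.log M * √k) + 1) / √k * (√D * M ^ (-c₀ / 4) *
      ((⌊Real.log M⌋₊ : ℝ) + 1) ^ m) := by ring
    _ ≤ 2 * (Real.log M + 1) * (√D * M ^ (-c₀ / 4) * (Real.log M + 1) ^ m) := by
        apply mul_le_mul e4 _ (by positivity) (by positivity)
        exact mul_le_mul_of_nonneg_left e3 (by positivity)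
    _ = 2 * √D * M ^ (-c₀ / 4) * (Real.log M + 1) ^ (m + 1) := by ring
    _ ≤ 2 * √D * M ^ (-c₀ / 4) * (L * M ^ (c₀ / 8)) :=
        mul_le_mul_of_nonneg_left hL (by positivity)
    _ = 2 * √D * L * M ^ (-c₀ / 8) := by
        have : M ^ (-c₀ / 8) = M ^ (-c₀ / 4) * M ^ (c₀ / 8) := by
          rw [← Real.rpow_add hM0]
          congr 1
          ring
        rw [this]
        ring
    _ ≤ 2 * √D * L * M ^ (-c) := by
        have hL0 : 0 ≤ L := by
          by_contra hcon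
          push Not at hcon
          have h1 : L * M ^ (c₀ / 8) < 0 := mul_neg_of_neg_of_pos hcon (Real.rpow_pos_of_pos hM0 _)
          have h2 : 0 < (Real.log M + 1) ^ (m + 1) := by positivity
          linarith
        apply mul_le_mul_of_nonneg_left _ (by positivity)
        exact Real.rpow_le_rpow_of_exponent_le hM (by linarith)

theorem Odd_Sys {κ : ℕ} {Ω : ℕ → Finset ℕ} (h : Sys κ Ω) : Sys (κ + 1) Ω := fun p hp =>
  ⟨(h p hp).1, (h p hp).2.1.trans (Nat.le_succ κ), (h p hp).2.2⟩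

open Classical in
theorem thm_Odd (hT1 : St_Tail1) (hT2 : St_Tail2) (hT3 : St_Tail3) (hVL : St_VL) (hRes : St_Res)
    (hCS : St_CS) : St_Odd := by
  obtain ⟨ρ, B, hρ0, hρ1, hB, hP⟩ := Odd_P hT1 hT2 hT3
  obtain ⟨c', hc', hUN⟩ := Pool.Agent.Collatz3.UN.final
  obtain ⟨c₀, hc₀⟩ : ∃ c₀ : ℝ, c₀ = 1 - Hn / Real.log 2 + c' := ⟨_, rfl⟩
  rw [← hc₀] at hUN
  have hc₀0 : 0 < c₀ := by
    have h1 : Hn ≤ Real.log 2 := Real.binEntropy_le_log_two
    have h2 : Hn / Real.log 2 ≤ 1 := by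
      rw [div_le_one (Real.log_pos (by norm_num))]
      exact h1
    rw [hc₀]
    linarith
  obtain ⟨c, hc⟩ : ∃ c : ℝ, c = min (c₀ / 8) (min (-Real.log ρ) (1 / 2)) := ⟨_, rfl⟩
  have hc1 : c ≤ c₀ / 8 := by rw [hc]; exact min_le_left _ _
  have hc2 : c ≤ -Real.log ρ := by rw [hc]; exact (min_le_right _ _).trans (min_le_left _ _)
  have hc3 : c ≤ 1 / 2 := by rw [hc]; exact (min_le_right _ _).trans (min_le_right _ _)
  have hc4 : 0 < c := by
    rw [hc]
    have := Real.log_neg hρ0 hρ1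
    exact lt_min (by positivity) (lt_min (by linarith) (by norm_num))
  refine ⟨c, hc4, ?_⟩
  intro κ ε hε
  obtain ⟨κ', hκ'⟩ : ∃ κ', κ' = κ + 1 := ⟨_, rfl⟩
  have hκ1 : 1 ≤ κ' := by omega
  obtain ⟨g, hg⟩ : ∃ g : ℝ, g = 2 / Real.log (4 / 3) := ⟨_, rfl⟩
  have hg0 : 0 < g := by
    rw [hg]
    have : 0 < Real.log (4 / 3) := Real.log_pos (by norm_num)
    positivity
  obtain ⟨C₁, hC₁, hUN⟩ := hUN (ε / 2) (by positivity)
  obtain ⟨cV, A, hcV, hVL⟩ := hVL κ' hκ1
  obtain ⟨CR, hCR, hRes⟩ := hRes κ' hκ1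
  obtain ⟨CS, I₀, hCS0, hCS⟩ := hCS κ' hκ1
  obtain ⟨CL, hCL, hlog⟩ := Odd_log (4 * κ' + 1) (show 0 < c₀ / 8 by positivity)
  obtain ⟨l₀, hnum⟩ := Odd_num A (8 * κ' + 4) (by omega) hc₀0 hcV hε
  rw [← hg] at hUN ⊢
  obtain ⟨E, hE⟩ : ∃ E : ℝ, E = 2 * (CR * (5 + B / ρ + B) + CS * (2 * √C₁ * CL)) := ⟨_, rfl⟩
  have hE0 : 0 ≤ E := by rw [hE]; positivity
  have hq : 0 ≤ C₁ * (max l₀ 1) ^ A / cV := by positivity
  have hq' : 0 ≤ C₁ / cV := by positivity
  refine ⟨C₁ + C₁ * (max l₀ 1) ^ A / cV + C₁ / cV + E, by positivity, ?_⟩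
  intro M X z Ω hM hz hzX hΩ
  have hM0 : 0 < M := by linarith
  have hlM := Real.log_nonneg hM
  have hz2 : (2 : ℝ) ≤ z := by exact_mod_cast hz
  have hX1 : 1 ≤ X := by linarith
  have hX0 : 0 < X := by linarith
  have hlz : 0 < Real.log z := Real.log_pos (by linarith)
  have hlX : Real.log z ≤ Real.log X := Real.log_le_log (by linarith) hzX
  have hΩ' : Sys κ' Ω := by rw [hκ']; exact Odd_Sys hΩ
  have hV0 := VV_nonneg hΩ' z
  have hV := hVL z Ω hz hΩ'
  obtain ⟨V, hVd⟩ : ∃ V, V = VV Ω z := ⟨_, rfl⟩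
  rw [← hVd] at hV0 hV ⊢
  obtain ⟨l, hl⟩ : ∃ l : ℝ, l = Real.log z + 1 := ⟨_, rfl⟩
  rw [← hl] at hV
  have hl1 : 1 ≤ l := by rw [hl]; linarith
  obtain ⟨L, hL⟩ : ∃ L : ℝ, L = (g + ε) * Real.log X +
    (C₁ + C₁ * (max l₀ 1) ^ A / cV + C₁ / cV + E) * Real.log M := ⟨_, rfl⟩
  obtain ⟨L', hL'⟩ : ∃ L' : ℝ, L' = (g + ε / 2) * Real.log X + C₁ * Real.log M := ⟨_, rfl⟩
  have hMc : 0 < M ^ (-c) := Real.rpow_pos_of_pos hM0 _
  have hLL : L' + ε / 2 * Real.log X ≤ L := by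
    rw [hL, hL']
    have : 0 ≤ (C₁ * (max l₀ 1) ^ A / cV + C₁ / cV + E) * Real.log M := by positivity
    linarith
  rw [← hL]
  -- the trivial bound
  have htriv : (Set.ncard {n : ℤ | n % 2 = 1 ∧ |(n : ℝ)| ≤ X ∧ Sf Ω z n ∧ n ∈ Bd M L} : ℝ) ≤
      C₁ * X * M ^ (-c₀) := by
    refine le_trans ?_ (hUN M hM X hX1)
    have hfin : {n : ℤ | |(n : ℝ)| ≤ X ∧ ∀ j : ℕ,
        (j : ℝ) ≤ (g + ε / 2) * Real.log X + C₁ * Real.log M → M < |((T^[j] n : ℤ) : ℝ)|}.Finite :=
      (Pool.Agent.Helper14.abs_le_finite X).subset fun _ h => h.1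
    have hsub : {n : ℤ | n % 2 = 1 ∧ |(n : ℝ)| ≤ X ∧ Sf Ω z n ∧ n ∈ Bd M L} ⊆
        {n : ℤ | |(n : ℝ)| ≤ X ∧ ∀ j : ℕ,
        (j : ℝ) ≤ (g + ε / 2) * Real.log X + C₁ * Real.log M → M < |((T^[j] n : ℤ) : ℝ)|} := by
      rintro n ⟨-, h2, -, h3⟩
      refine ⟨h2, fun j hj => h3 j (hj.trans ?_)⟩
      rw [hL'] at hLL
      have : 0 ≤ ε / 2 * Real.log X := by
        have : 0 ≤ Real.log X := by linarith
        positivity
      linarith
    exact_mod_cast Set.ncard_le_ncard hsub hfin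
  by_cases hcase : l₀ ≤ l ∧ c₀ * Real.log M ≤ 2 * A * Real.log l
  · -- the main case
    obtain ⟨hll, hMl⟩ := hcase
    obtain ⟨k, hk10, hm, hBk, hkV, hk6, hk6'⟩ := hnum l hll
    obtain ⟨hm1, hm2⟩ := hm _ hMl
    obtain ⟨u, hu⟩ : ∃ u : ℝ, u = M ^ (c₀ / 2) := ⟨_, rfl⟩
    have hu1 : 1 ≤ u := by rw [hu]; exact Real.one_le_rpow hM (by positivity)
    obtain ⟨R, hR⟩ : ∃ R, R = ⌊Real.log M⌋₊ := ⟨_, rfl⟩
    have hRl : (R : ℝ) ≤ Real.log M := by rw [hR]; exact Nat.floor_le hlM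
    have hRk : 2 * R ≤ k := by
      have : (2 : ℝ) * R ≤ k := by linarith
      exact_mod_cast this
    obtain ⟨I, hI⟩ : ∃ I, I = I₀ + 2 * k := ⟨_, rfl⟩
    have hk1 : 1 ≤ k := by omega
    have hkr : (1 : ℝ) ≤ k := by exact_mod_cast hk1
    obtain ⟨G, hG⟩ : ∃ G, G = Odd_G u (Real.log M) I k R := ⟨_, rfl⟩
    have hGm : ∀ w ∈ G, w ∈ words I k ∧ 199 * k ≤ 100 * w.sum ∧ 100 * w.sum ≤ 201 * k ∧
        |(w.sum : ℝ) - 2 * k| ≤ Real.log M * √k := by
      intro w hw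
      rw [hG, Odd_G, mem_filter, mem_W2, mem_W1] at hw
      have h1 := hw.1.2 k (by omega) le_rfl
      rw [Nat.sub_self, List.drop_zero] at h1
      exact ⟨hw.1.1.1, h1.1, h1.2, hw.2⟩
    obtain ⟨S, hS⟩ : ∃ S : Finset ℕ, S = (range (3 * k + 1)).filter fun s => 199 * k ≤ 100 * s ∧
      100 * s ≤ 201 * k ∧ |(s : ℝ) - 2 * k| ≤ Real.log M * √k := ⟨_, rfl⟩
    have hGS : ∀ w ∈ G, w.sum ∈ S := by
      intro w hw
      obtain ⟨-, h2, h3, h4⟩ := hGm w hw
      rw [hS, mem_filter, mem_range]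
      exact ⟨by omega, h2, h3, h4⟩
    have hkz : 6 * (k : ℝ) ≤ Real.log z := by rw [hl] at hk6; linarith
    have hkX : 3 * (k : ℝ) ≤ ε / 2 * Real.log X := by
      rw [hl] at hk6'
      have := mul_le_mul_of_nonneg_left hlX hε.le
      linarith
    have hSL : ∀ s ∈ S, L' ≤ L - s := by
      intro s hs
      rw [hS, mem_filter, mem_range] at hs
      have h1 : (s : ℝ) ≤ 3 * k := by exact_mod_cast (by omega : s ≤ 3 * k)
      linarith
    have hX6 : (2 : ℝ) ^ (6 * k) ≤ X := by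
      rw [← Real.log_le_log_iff (by positivity) hX0, Real.log_pow]
      have h1 := Real.log_two_lt_d9
      push_cast
      have h2 : 6 * (k : ℝ) * Real.log 2 ≤ 6 * k * 1 :=
        mul_le_mul_of_nonneg_left (by linarith) (by positivity)
      linarith
    -- the binary length of `z`
    obtain ⟨b, hb⟩ : ∃ b, b = Nat.clog 2 z := ⟨_, rfl⟩
    have hzb : z ≤ 2 ^ b := by rw [hb]; exact Nat.le_pow_clog (by norm_num) z
    have hb2 : (b : ℝ) ≤ 2 * l := by
      rcases Nat.eq_zero_or_pos b with h0 | h0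
      · rw [h0, Nat.cast_zero]
        linarith
      · have h1 : 2 ^ (b - 1) < z := by
          rw [hb]
          exact Nat.pow_pred_clog_lt_self (by norm_num) (by omega)
        have h2 : (2 : ℝ) ^ (b - 1) ≤ z := by exact_mod_cast h1.le
        have h3 := Real.log_le_log (by positivity) h2
        rw [Real.log_pow, Nat.cast_sub h0, Nat.cast_one] at h3
        have h4 := Real.log_two_gt_d9
        have h5 : (1 : ℝ) ≤ b := by exact_mod_cast h0
        have h6 : ((b : ℝ) - 1) * (1 / 2) ≤ (b - 1) * Real.log 2 :=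
          mul_le_mul_of_nonneg_left (by linarith) (by linarith)
        rw [hl]
        linarith
    have hbk : (b : ℝ) ^ (8 * κ' + 4) * (4 / 5) ^ (k / 2) ≤ 1 := by
      refine le_trans ?_ hBk
      exact mul_le_mul_of_nonneg_right (pow_le_pow_left₀ (Nat.cast_nonneg _) hb2 _) (by positivity)
    have hkV' : (k : ℝ) * 3 ^ k ≤ (397 / 100) ^ k * V := by
      have h1 : (397 / 300 : ℝ) ^ k = (397 / 100) ^ k / 3 ^ k := by
        rw [← div_pow]
        norm_num
      have hlA : 0 < l ^ A := by positivity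
      have h2 : k * l ^ A ≤ l ^ A * V * ((397 / 100) ^ k / 3 ^ k) := by
        rw [← h1]
        exact hkV.trans (mul_le_mul_of_nonneg_right hV (by positivity))
      have h3 : l ^ A * (k * 3 ^ k) ≤ l ^ A * ((397 / 100) ^ k * V) := by
        calc l ^ A * (k * 3 ^ k) = k * l ^ A * 3 ^ k := by ring
          _ ≤ l ^ A * V * ((397 / 100) ^ k / 3 ^ k) * 3 ^ k :=
              mul_le_mul_of_nonneg_right h2 (by positivity)
          _ = l ^ A * ((397 / 100) ^ k * V) := by field_simp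
      exact le_of_mul_le_mul_left h3 hlA
    -- one sign
    have hone : ∀ e : ℤ, e = 1 ∨ e = -1 →
        (((Od e X).filter fun n => Sf Ω z n ∧ n ∈ Bd M L).card : ℝ) ≤ E / 2 * (X * V * M ^ (-c)) := by
      intro e he
      refine (Odd_cover e X M z Ω (u := u) (l := Real.log M) (I := I) (k := k) (R := R) (S := S)
        (by rw [← hG]; exact hGS) hSL).trans ?_
      have h1 := hRes z X I k G e Ω (fun w hw => (hGm w hw).1) (fun w hw => (hGm w hw).2.2.1) hk10 hz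
        hzX hX6 hΩ' he
      rw [← hVd, hG] at h1
      have h2 := hP I k R u (Real.log M) (by omega) (by linarith) hlM
      have h3 := Odd_bad (I₀ := I₀) hρ0 hρ1 hM hc1 hc2 hc3 hc₀0 hm2 hk1 hB
      rw [← hI, ← hu, ← hR] at h3
      have h4 : CR * X * V * (1 - P (Odd_G u (Real.log M) I k R) + (1 / 2) ^ (k / 2)) ≤
          CR * X * V * ((5 + B / ρ + B) * M ^ (-c)) :=
        mul_le_mul_of_nonneg_left (by linarith) (by positivity)
      have h5 : ∀ s ∈ S, (((Od e X).filter fun n => Sf Ω z n ∧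
          Hit ((W2 u I k R).filter fun w => w.sum = s) (fun _ => Bd M L') n).card : ℝ) ≤
          CS * X * V * (√(C₁ * M ^ (-c₀) * M ^ (c₀ / 2) / k) *
            ((⌊Real.log M⌋₊ : ℝ) + 1) ^ (4 * κ')) := by
        intro s hs
        rw [hS, mem_filter, mem_range] at hs
        obtain ⟨-, s1, s2, -⟩ := hs
        have hs397 := Odd_two_pow s1
        rw [← hR, ← hu, hVd]
        refine hCS I k s R b z u X (C₁ * M ^ (-c₀)) e (Bd M L') Ω (by omega) hk1 hu1 hRk s2 hz hzX hzb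
          hbk hX6 hΩ' ?_ he (by positivity) ?_
        · rw [← hVd]
          exact hkV'.trans (mul_le_mul_of_nonneg_right hs397 hV0)
        · rw [hL']
          refine Odd_E (by positivity) ?_ ?_ he ?_
          · have h6 : (1 : ℝ) ≤ 2 ^ k := one_le_pow₀ (by norm_num)
            have h7 : 0 ≤ 3 ^ k * X / 2 ^ s := by positivity
            linarith
          · have h6 : 3 ^ k * X / 2 ^ s ≤ 4 / 5 * X := by
              rw [div_le_iff₀ (by positivity)]
              have h7 : (3 : ℝ) ^ k ≤ 4 / 5 * (397 / 100) ^ k := by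
                have h8 : (300 / 397 : ℝ) ^ k ≤ (300 / 397) ^ 1 :=
                  pow_le_pow_of_le_one (by norm_num) (by norm_num) hk1
                have h9 : (3 : ℝ) ^ k = (300 / 397) ^ k * (397 / 100) ^ k := by
                  rw [← mul_pow]
                  norm_num
                rw [h9]
                apply mul_le_mul_of_nonneg_right _ (by positivity)
                rw [pow_one] at h8
                exact h8.trans (by norm_num)
              calc 3 ^ k * X ≤ 4 / 5 * 2 ^ s * X := by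
                    apply mul_le_mul_of_nonneg_right _ hX0.le
                    exact h7.trans (mul_le_mul_of_nonneg_left hs397 (by norm_num))
                _ = 4 / 5 * X * 2 ^ s := by ring
            have h7 : (2 : ℝ) ^ k ≤ 1 / 5 * X := by
              have h8 : (2 : ℝ) ^ k * 2 ^ 5 ≤ X := by
                rw [← pow_add]
                exact (pow_le_pow_right₀ (by norm_num) (by omega)).trans hX6
              have h9 : (0 : ℝ) < 2 ^ k := by positivity
              linarith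
            linarith
          · intro Y hY
            refine (hUN M hM Y hY).trans (le_of_eq ?_)
            ring
      have h6 : (S.card : ℝ) ≤ 2 * (Real.log M * √k) + 1 := by
        apply Odd_card (a := 2 * k) (by positivity)
        intro s hs
        rw [hS, mem_filter] at hs
        exact hs.2.2.2
      have h7 := Odd_mid (c := c) hM hc1 hk1 hC₁ (hlog M hM)
      have h8 := sum_le_card_nsmul _ _ _ h5
      rw [nsmul_eq_mul] at h8
      have h9 : (S.card : ℝ) * (CS * X * V * (√(C₁ * M ^ (-c₀) * M ^ (c₀ / 2) / k) *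
            ((⌊Real.log M⌋₊ : ℝ) + 1) ^ (4 * κ'))) ≤ CS * X * V * (2 * √C₁ * CL * M ^ (-c)) := by
        calc (S.card : ℝ) * (CS * X * V * (√(C₁ * M ^ (-c₀) * M ^ (c₀ / 2) / k) *
            ((⌊Real.log M⌋₊ : ℝ) + 1) ^ (4 * κ'))) ≤ (2 * (Real.log M * √k) + 1) *
            (CS * X * V * (√(C₁ * M ^ (-c₀) * M ^ (c₀ / 2) / k) *
            ((⌊Real.log M⌋₊ : ℝ) + 1) ^ (4 * κ'))) :=
              mul_le_mul_of_nonneg_right h6 (by positivity)
          _ = CS * X * V * ((2 * (Real.log M * √k) + 1) * (√(C₁ * M ^ (-c₀) * M ^ (c₀ / 2) / k) *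
            ((⌊Real.log M⌋₊ : ℝ) + 1) ^ (4 * κ'))) := by ring
          _ ≤ _ := mul_le_mul_of_nonneg_left h7 (by positivity)
      have h10 : E / 2 * (X * V * M ^ (-c)) = CR * X * V * ((5 + B / ρ + B) * M ^ (-c)) +
          CS * X * V * (2 * √C₁ * CL * M ^ (-c)) := by
        rw [hE]
        ring
      rw [h10]
      linarith
    have h1 := Odd_ncard X fun n => Sf Ω z n ∧ n ∈ Bd M L
    have h2 := hone 1 (Or.inl rfl)
    have h3 := hone (-1) (Or.inr rfl)
    have h4 : (Set.ncard {n : ℤ | n % 2 = 1 ∧ |(n : ℝ)| ≤ X ∧ Sf Ω z n ∧ n ∈ Bd M L} : ℝ) ≤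
        E * (X * V * M ^ (-c)) := by
      refine h1.trans ?_
      have h5 : E * (X * V * M ^ (-c)) = E / 2 * (X * V * M ^ (-c)) + E / 2 * (X * V * M ^ (-c)) := by
        ring
      rw [h5]
      exact add_le_add h2 h3
    have h5 : 0 ≤ (C₁ + C₁ * (max l₀ 1) ^ A / cV + C₁ / cV) * (X * V * M ^ (-c)) := by positivity
    refine h4.trans ?_
    have h6 : (C₁ + C₁ * (max l₀ 1) ^ A / cV + C₁ / cV + E) * X * V * M ^ (-c) =
        (C₁ + C₁ * (max l₀ 1) ^ A / cV + C₁ / cV) * (X * V * M ^ (-c)) +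
        E * (X * V * M ^ (-c)) := by ring
    rw [h6]
    linarith
  · -- the trivial cases
    refine htriv.trans ?_
    have hXM : 0 ≤ X * M ^ (-c) := by positivity
    have hlA : 0 < l ^ A := by positivity
    have hV' : cV / l ^ A ≤ V := by
      rw [div_le_iff₀ hlA]
      linarith
    rw [not_and_or, not_le, not_le] at hcase
    have h0 : 0 ≤ C₁ * (X * V * M ^ (-c)) := by positivity
    have h0' : 0 ≤ E * (X * V * M ^ (-c)) := by positivity
    have h0a : 0 ≤ C₁ * (max l₀ 1) ^ A / cV * (X * V * M ^ (-c)) := by positivity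
    have h0b : 0 ≤ C₁ / cV * (X * V * M ^ (-c)) := by positivity
    have h6 : (C₁ + C₁ * (max l₀ 1) ^ A / cV + C₁ / cV + E) * X * V * M ^ (-c) =
        C₁ * (X * V * M ^ (-c)) + C₁ * (max l₀ 1) ^ A / cV * (X * V * M ^ (-c)) +
        C₁ / cV * (X * V * M ^ (-c)) + E * (X * V * M ^ (-c)) := by ring
    rw [h6]
    rcases hcase with hcase | hcase
    · have h1 : l ^ A ≤ (max l₀ 1) ^ A :=
        pow_le_pow_left₀ (by linarith) (hcase.le.trans (le_max_left _ _)) _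
      have h2 : M ^ (-c₀) ≤ M ^ (-c) := Real.rpow_le_rpow_of_exponent_le hM (by linarith)
      have h3 : 1 ≤ (max l₀ 1) ^ A / cV * V := by
        calc (1 : ℝ) = l ^ A / cV * (cV / l ^ A) := by field_simp
          _ ≤ (max l₀ 1) ^ A / cV * V :=
              mul_le_mul (div_le_div_of_nonneg_right h1 hcV.le) hV' (by positivity) (by positivity)
      have h4 : C₁ * X * M ^ (-c₀) ≤ C₁ * (max l₀ 1) ^ A / cV * (X * V * M ^ (-c)) := by
        calc C₁ * X * M ^ (-c₀) ≤ C₁ * X * M ^ (-c) := mul_le_mul_of_nonneg_left h2 (by positivity)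
          _ = C₁ * (X * M ^ (-c)) * 1 := by ring
          _ ≤ C₁ * (X * M ^ (-c)) * ((max l₀ 1) ^ A / cV * V) :=
              mul_le_mul_of_nonneg_left h3 (by positivity)
          _ = _ := by ring
      linarith
    · have h1 : l ^ A ≤ M ^ (c₀ / 2) := by
        rw [← Real.log_le_log_iff hlA (by positivity), Real.log_pow, Real.log_rpow hM0]
        linarith
      have h2 : M ^ (-(c₀ / 2)) ≤ M ^ (-c) := Real.rpow_le_rpow_of_exponent_le hM (by linarith)
      have h3 : M ^ (-(c₀ / 2)) ≤ V / cV := by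
        rw [Real.rpow_neg hM0.le, le_div_iff₀ hcV]
        calc (M ^ (c₀ / 2))⁻¹ * cV ≤ (l ^ A)⁻¹ * cV :=
              mul_le_mul_of_nonneg_right (inv_anti₀ hlA h1) hcV.le
          _ = cV / l ^ A := by rw [div_eq_inv_mul]
          _ ≤ V := hV'
      have h4 : M ^ (-c₀) = M ^ (-(c₀ / 2)) * M ^ (-(c₀ / 2)) := by
        rw [← Real.rpow_add hM0]
        congr 1
        ring
      have h5 : C₁ * X * M ^ (-c₀) ≤ C₁ / cV * (X * V * M ^ (-c)) := by
        rw [h4]
        calc C₁ * X * (M ^ (-(c₀ / 2)) * M ^ (-(c₀ / 2))) ≤ C₁ * X * (M ^ (-c) * (V / cV)) := by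
              apply mul_le_mul_of_nonneg_left _ (by positivity)
              exact mul_le_mul h2 h3 (by positivity) (by positivity)
          _ = _ := by ring
      linarith

end Pool.Agent.Collatz3.PR
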