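import Mathlib
import Pool.Agent.Collatz3.PRDefs

set_option autoImplicit false

/-!
# Tao's theorem in sifted sets: the density of the sifted set
-/

namespace Pool.Agent.Collatz3.PR

open Finset
open Pool.Agent.Helper90.Straus

theorem pr_prod_split {a b c : ℕ} (hab : a ≤ b) (hbc : b ≤ c) (f : ℕ → ℝ) :
    ∏ p ∈ pr a c, f p = (∏ p ∈ pr a b, f p) * ∏ p ∈ pr b c, f p := by
  unfold pr
  rw [Finset.prod_filter, Finset.prod_filter, Finset.prod_filter,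
    Finset.prod_Ico_consecutive _ hab hbc]

theorem fac_mem {κ : ℕ} {Ω : ℕ → Finset ℕ} (hΩ : Sys κ Ω) {p : ℕ} (hp : p.Prime) :
    0 ≤ 1 - g Ω p ∧ 1 - g Ω p ≤ 1 ∧ 0 < 1 - g Ω p := by
  obtain ⟨h1, _, h3⟩ := g_le hΩ hp
  have hp0 : (0 : ℝ) < 1 / p := by
    have : (0 : ℝ) < p := by exact_mod_cast hp.pos
    positivity
  exact ⟨by linarith, by linarith, by linarith⟩

theorem VV_pos {κ : ℕ} {Ω : ℕ → Finset ℕ} (hΩ : Sys κ Ω) (z : ℕ) : 0 < VV Ω z :=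
  prod_pos fun _ hp => (fac_mem hΩ (mem_pr.1 hp).2).2.2

theorem VV_anti {κ : ℕ} {Ω : ℕ → Finset ℕ} (hΩ : Sys κ Ω) {y z : ℕ} (hy : 2 ≤ y) (h : y ≤ z) :
    VV Ω z ≤ VV Ω y := by
  unfold VV
  rw [pr_prod_split hy h]
  apply mul_le_of_le_one_right
  · exact prod_nonneg fun p hp => (fac_mem hΩ (mem_pr.1 hp).2).1
  · exact prod_le_one (fun p hp => (fac_mem hΩ (mem_pr.1 hp).2).1)
      fun p hp => (fac_mem hΩ (mem_pr.1 hp).2).2.1

theorem VV_le_one {κ : ℕ} {Ω : ℕ → Finset ℕ} (hΩ : Sys κ Ω) (z : ℕ) : VV Ω z ≤ 1 :=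
  prod_le_one (fun _ hp => (fac_mem hΩ (mem_pr.1 hp).2).1)
    fun _ hp => (fac_mem hΩ (mem_pr.1 hp).2).2.1

theorem two_le_tower (r : ℕ) : 2 ≤ 2 ^ 2 ^ r := by
  calc 2 = 2 ^ 1 := rfl
    _ ≤ 2 ^ 2 ^ r := Nat.pow_le_pow_right (by norm_num) Nat.one_le_two_pow

/-- Adding blocks. -/
theorem VV_blocks {κ : ℕ} {Ω : ℕ → Finset ℕ} (hΩ : Sys κ Ω) {v : ℝ} (hv0 : 0 < v)
    (hv : ∀ j, v ≤ ∏ p ∈ blk j, (1 - g Ω p)) (r t : ℕ) :
    v ^ t * VV Ω (2 ^ 2 ^ r) ≤ VV Ω (2 ^ 2 ^ (r + t)) := by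
  induction t with
  | zero => simp
  | succ t ih =>
    have h1 : 2 ^ 2 ^ (r + t) ≤ 2 ^ 2 ^ (r + (t + 1)) :=
      Nat.pow_le_pow_right (by norm_num) (Nat.pow_le_pow_right (by norm_num) (by omega))
    have h2 : VV Ω (2 ^ 2 ^ (r + (t + 1))) =
        VV Ω (2 ^ 2 ^ (r + t)) * ∏ p ∈ blk (r + t), (1 - g Ω p) := by
      unfold VV
      rw [pr_prod_split (two_le_tower _) h1]
      rfl
    rw [h2, pow_succ]
    calc v ^ t * v * VV Ω (2 ^ 2 ^ r) = v ^ t * VV Ω (2 ^ 2 ^ r) * v := by ring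
      _ ≤ VV Ω (2 ^ 2 ^ (r + t)) * ∏ p ∈ blk (r + t), (1 - g Ω p) :=
        mul_le_mul ih (hv _) hv0.le (VV_pos hΩ _).le

theorem VV_two (Ω : ℕ → Finset ℕ) : VV Ω (2 ^ 2 ^ 0) = 1 := by
  unfold VV pr
  simp

theorem log_nat_le (z : ℕ) (hz : 1 ≤ z) : ((Nat.log 2 z : ℕ) : ℝ) * Real.log 2 ≤ Real.log z := by
  have h1 : 2 ^ Nat.log 2 z ≤ z := Nat.pow_log_le_self 2 (by omega)
  have h2 : ((2 : ℝ)) ^ Nat.log 2 z ≤ z := by exact_mod_cast h1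
  have h3 := Real.log_le_log (by positivity) h2
  rwa [Real.log_pow] at h3

theorem thm_VL : St_VL := by
  intro κ hκ
  obtain ⟨v, hv0, hv1, hv⟩ := exists_v hκ
  obtain ⟨A, hA⟩ := exists_pow_lt_of_lt_one hv0 (show (1 / 2 : ℝ) < 1 by norm_num)
  refine ⟨(1 / 6) ^ A, A, by positivity, ?_⟩
  intro z Ω hz hΩ
  obtain ⟨a, ha⟩ : ∃ a, a = Nat.log 2 z + 1 := ⟨_, rfl⟩
  obtain ⟨r, hr⟩ : ∃ r, r = Nat.log 2 a + 1 := ⟨_, rfl⟩
  have h1 : z < 2 ^ a := by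
    rw [ha]
    exact Nat.lt_pow_succ_log_self (by norm_num) z
  have h2 : a < 2 ^ r := by
    rw [hr]
    exact Nat.lt_pow_succ_log_self (by norm_num) a
  have h3 : z ≤ 2 ^ 2 ^ r := h1.le.trans (Nat.pow_le_pow_right (by norm_num) h2.le)
  have h4 : v ^ r ≤ VV Ω z := by
    have h5 := VV_blocks hΩ hv0 (hv Ω hΩ) 0 r
    rw [VV_two, mul_one, Nat.zero_add] at h5
    exact h5.trans (VV_anti hΩ hz h3)
  have h5 : (2 : ℝ) ^ r ≤ 6 * (Real.log z + 1) := by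
    have h6 : 2 ^ Nat.log 2 a ≤ a := Nat.pow_log_le_self 2 (by omega)
    have h7 : ((2 : ℝ)) ^ Nat.log 2 a ≤ a := by exact_mod_cast h6
    have h8 := log_nat_le z (by omega)
    have h9 := Real.log_two_gt_d9
    have h10 : (a : ℝ) ≤ 2 * Real.log z + 1 := by
      rw [ha]
      push_cast
      have h11 : (0 : ℝ) ≤ (Nat.log 2 z : ℕ) := Nat.cast_nonneg _
      nlinarith
    have h11 : 0 ≤ Real.log z := Real.log_nonneg (by exact_mod_cast (by omega : 1 ≤ z))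
    rw [hr, pow_succ]
    linarith
  have h6 : (1 / 6 : ℝ) ^ A * (2 ^ r) ^ A ≤ (Real.log z + 1) ^ A := by
    rw [← mul_pow]
    apply pow_le_pow_left₀ (by positivity)
    linarith
  have h7 : (1 : ℝ) ≤ (2 ^ r) ^ A * v ^ r := by
    rw [← pow_mul, mul_comm r A, pow_mul, ← mul_pow]
    apply one_le_pow₀
    have h8 : (1 / 2 : ℝ) ^ A * 2 ^ A = 1 := by
      rw [← mul_pow]
      norm_num
    have h9 : (0 : ℝ) < 2 ^ A := by positivity
    nlinarith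
  have hvr : 0 < v ^ r := by positivity
  calc (1 / 6 : ℝ) ^ A = (1 / 6) ^ A * 1 := by ring
    _ ≤ (1 / 6) ^ A * ((2 ^ r) ^ A * v ^ r) := mul_le_mul_of_nonneg_left h7 (by positivity)
    _ = ((1 / 6) ^ A * (2 ^ r) ^ A) * v ^ r := by ring
    _ ≤ (Real.log z + 1) ^ A * VV Ω z := mul_le_mul h6 h4 hvr.le (by
        have h11 : 0 ≤ Real.log z := Real.log_nonneg (by exact_mod_cast (by omega : 1 ≤ z))
        positivity)

theorem thm_VC : St_VC := by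
  intro κ D hκ
  obtain ⟨v, hv0, hv1, hv⟩ := exists_v hκ
  refine ⟨1 / v ^ (D + 1), by positivity, ?_⟩
  intro y z Ω hy hyz hlog hΩ
  obtain ⟨r, hr⟩ : ∃ r, r = Nat.log 2 (Nat.log 2 y) := ⟨_, rfl⟩
  have hly : 1 ≤ Nat.log 2 y := Nat.log_pos (by norm_num) hy
  have h1 : 2 ^ 2 ^ r ≤ y := by
    have h2 : 2 ^ r ≤ Nat.log 2 y := by
      rw [hr]
      exact Nat.pow_log_le_self 2 (by omega)
    exact (Nat.pow_le_pow_right (by norm_num) h2).trans (Nat.pow_log_le_self 2 (by omega))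
  have h2 : y < 2 ^ 2 ^ (r + 1) := by
    have h3 : Nat.log 2 y < 2 ^ (r + 1) := by
      rw [hr]
      exact Nat.lt_pow_succ_log_self (by norm_num) _
    calc y < 2 ^ (Nat.log 2 y + 1) := Nat.lt_pow_succ_log_self (by norm_num) y
      _ ≤ 2 ^ 2 ^ (r + 1) := Nat.pow_le_pow_right (by norm_num) h3
  have h3 : z ≤ 2 ^ 2 ^ (r + (D + 1)) := by
    have h4 : Real.log y ≤ 2 ^ (r + 1) * Real.log 2 := by
      have h5 : (y : ℝ) ≤ (2 : ℝ) ^ 2 ^ (r + 1) := by exact_mod_cast h2.le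
      have h6 := Real.log_le_log (by exact_mod_cast (by omega : 0 < y)) h5
      rw [Real.log_pow] at h6
      push_cast at h6
      exact h6
    have h5 : Real.log z ≤ 2 ^ (r + (D + 1)) * Real.log 2 := by
      have h6 : (D : ℝ) ≤ 2 ^ D := by exact_mod_cast Nat.lt_two_pow_self.le
      have h7 : 0 ≤ Real.log 2 := Real.log_nonneg (by norm_num)
      have h8 : 0 ≤ Real.log y := Real.log_nonneg (by exact_mod_cast (by omega : 1 ≤ y))
      calc Real.log z ≤ D * Real.log y := hlog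
        _ ≤ 2 ^ D * (2 ^ (r + 1) * Real.log 2) := mul_le_mul h6 h4 h8 (by positivity)
        _ = 2 ^ (r + (D + 1)) * Real.log 2 := by
          rw [show r + (D + 1) = D + (r + 1) by ring, pow_add]
          ring
    have h6 : Real.log z ≤ Real.log ((2 : ℝ) ^ 2 ^ (r + (D + 1))) := by
      rw [Real.log_pow]
      push_cast
      exact h5
    have h7 : (z : ℝ) ≤ (2 : ℝ) ^ 2 ^ (r + (D + 1)) :=
      (Real.log_le_log_iff (by exact_mod_cast (by omega : 0 < z)) (by positivity)).1 h6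
    exact_mod_cast h7
  have h4 := VV_blocks hΩ hv0 (hv Ω hΩ) r (D + 1)
  have h5 : VV Ω y ≤ VV Ω (2 ^ 2 ^ r) := VV_anti hΩ (two_le_tower r) h1
  have h6 : VV Ω (2 ^ 2 ^ (r + (D + 1))) ≤ VV Ω z := VV_anti hΩ (by omega) h3
  have hv' : 0 < v ^ (D + 1) := by positivity
  rw [one_div, inv_mul_eq_div, le_div_iff₀ hv']
  calc VV Ω y * v ^ (D + 1) ≤ VV Ω (2 ^ 2 ^ r) * v ^ (D + 1) :=
        mul_le_mul_of_nonneg_right h5 hv'.le
    _ = v ^ (D + 1) * VV Ω (2 ^ 2 ^ r) := mul_comm _ _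
    _ ≤ VV Ω z := h4.trans h6

end Pool.Agent.Collatz3.PR
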