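import Mathlib
import Pool.Agent.Collatz3.PRVC
import Pool.Agent.MT.Dim

set_option autoImplicit false

/-!
# Tao's theorem in sifted sets: the upper bound sieve, level of the sieve
-/

namespace Pool.Agent.Collatz3.PR

open Finset
open Pool.Agent.Helper90.Straus
open Pool.Agent.MT.DimAux

/-- One residue class for the linear form `d + 2 ^ m * t`. -/
theorem exists_cls {p : ℕ} (hp : p.Prime) (hp2 : p ≠ 2) (m : ℕ) (d : ℤ) :
    ∃ t ∈ range p, (p : ℤ) ∣ d + 2 ^ m * (t : ℤ) := by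
  have hcop : IsCoprime ((2 : ℤ) ^ m) (p : ℤ) := by
    apply IsCoprime.pow_left
    exact_mod_cast Nat.isCoprime_iff_coprime.2
      ((Nat.coprime_primes Nat.prime_two hp).2 (Ne.symm hp2))
  obtain ⟨a, b, hab⟩ := hcop
  have hp0 : (0 : ℤ) < p := by exact_mod_cast hp.pos
  refine ⟨((-d * a) % p).toNat, ?_, ?_⟩
  · rw [mem_range]
    have h1 := Int.emod_lt_of_pos (-d * a) hp0
    have h2 := Int.emod_nonneg (-d * a) hp0.ne'
    omega
  · rw [Int.toNat_of_nonneg (Int.emod_nonneg _ hp0.ne'), Int.emod_def]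
    refine ⟨d * b - 2 ^ m * (-d * a / p), ?_⟩
    linear_combination -d * hab

theorem cls_unique {p : ℕ} (hp : p.Prime) (hp2 : p ≠ 2) (m : ℕ) (d : ℤ) {t t' : ℕ}
    (ht : t < p) (ht' : t' < p) (h : (p : ℤ) ∣ d + 2 ^ m * (t : ℤ))
    (h' : (p : ℤ) ∣ d + 2 ^ m * (t' : ℤ)) : t = t' := by
  have hcop : IsCoprime (p : ℤ) ((2 : ℤ) ^ m) := by
    apply IsCoprime.pow_right
    exact_mod_cast Nat.isCoprime_iff_coprime.2 ((Nat.coprime_primes hp Nat.prime_two).2 hp2)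
  have h1 : (p : ℤ) ∣ 2 ^ m * ((t : ℤ) - t') := by
    have := dvd_sub h h'
    have e : d + 2 ^ m * (t : ℤ) - (d + 2 ^ m * (t' : ℤ)) = 2 ^ m * ((t : ℤ) - t') := by ring
    rwa [e] at this
  have h2 := hcop.dvd_of_dvd_mul_left h1
  have h3 : (t : ℤ) - t' = 0 := by
    apply Int.eq_zero_of_abs_lt_dvd h2
    rw [abs_lt]
    constructor <;> omega
  omega

theorem exists_level {ζ : ℝ} {R₀ : ℕ} (h : (2 : ℝ) ^ 2 ^ R₀ ≤ ζ) :
    ∃ R, R₀ ≤ R ∧ (2 : ℝ) ^ 2 ^ R ≤ ζ ∧ ζ < ((2 : ℝ) ^ 2 ^ R) ^ 2 := by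
  have hζ : 0 ≤ ζ := le_trans (by positivity) h
  have h1 : (2 ^ 2 ^ R₀) ^ 1 ≤ ⌊ζ⌋₊ := by
    rw [pow_one]
    apply Nat.le_floor
    exact_mod_cast h
  obtain ⟨R, hR0, hR1, hR2⟩ := exists_R R₀ 1 ⌊ζ⌋₊ le_rfl h1
  refine ⟨R, hR0, ?_, ?_⟩
  · rw [pow_one] at hR1
    have h2 : ((2 ^ 2 ^ R : ℕ) : ℝ) ≤ (⌊ζ⌋₊ : ℝ) := by exact_mod_cast hR1
    push_cast at h2
    exact h2.trans (Nat.floor_le hζ)
  · rw [pow_one] at hR2
    have h2 := (Nat.floor_lt hζ).1 hR2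
    push_cast at h2
    rw [← pow_mul, ← pow_succ]
    exact h2

/-- The upper bound sieve for `t < X / 2 ^ m + 1`. -/
theorem level {κ : ℕ} (hκ : 1 ≤ κ) : ∃ C : ℝ, 0 < C ∧ ∀ (z : ℕ) (X : ℝ) (m : ℕ), 2 ≤ z →
    (z : ℝ) ≤ X → 4 ^ m ≤ X → ∀ Ω : ℕ → Finset ℕ, Sys κ Ω →
    ∀ S : Finset ℕ, (∀ N : ℕ, N ≤ z → S ⊆ surv Ω N 0 (⌊X / 2 ^ m⌋₊ + 1)) →
    (S.card : ℝ) ≤ C * (X / 2 ^ m) * VV Ω z := by
  obtain ⟨c, R₀, hc2, hs⟩ := sieve_upper hκ
  obtain ⟨c₁, A, hc₁, hVL⟩ := thm_VL κ hκ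
  obtain ⟨D, hD⟩ : ∃ D : ℕ, D = 2 * (c + 3) := ⟨_, rfl⟩
  obtain ⟨C₂, hC₂, hVC⟩ := thm_VC κ (2 * D) hκ
  obtain ⟨z₁, hz₁⟩ : ∃ z₁ : ℝ, z₁ = ((2 : ℝ) ^ 2 ^ R₀) ^ D := ⟨_, rfl⟩
  have hz₁1 : 2 ≤ z₁ := by
    rw [hz₁]
    have h1 : (2 : ℝ) ≤ 2 ^ 2 ^ R₀ := le_self_pow₀ (by norm_num) (by positivity)
    exact h1.trans (le_self_pow₀ (by linarith) (by omega))
  have hlz₁ : 0 < Real.log z₁ := Real.log_pos (by linarith)
  -- bound for the exponential error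
  obtain ⟨C₃, hC₃, hexp⟩ : ∃ C₃ : ℝ, 0 < C₃ ∧ ∀ x : ℝ, 0 ≤ x → (x + 1) ^ A ≤ C₃ * Real.exp x := by
    refine ⟨A.factorial * Real.exp 1, by positivity, fun x hx => ?_⟩
    have h1 := Real.pow_div_factorial_le_exp (x + 1) (by linarith) A
    rw [div_le_iff₀ (by positivity), Real.exp_add] at h1
    linarith
  refine ⟨2 * ((Real.log z₁ + 1) ^ A / c₁) + (4 * C₂ + 2 * (C₃ / c₁) * C₂), by positivity, ?_⟩
  intro z X m hz hzX hmX Ω hΩ S hS
  obtain ⟨T, hT⟩ : ∃ T, T = X / 2 ^ m := ⟨_, rfl⟩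
  rw [← hT] at hS ⊢
  have hzr : (2 : ℝ) ≤ z := by exact_mod_cast hz
  have hX0 : 0 < X := by linarith
  have hlz : 0 < Real.log z := Real.log_pos (by linarith)
  have hTX : √X ≤ T := by
    rw [hT, le_div_iff₀ (by positivity)]
    have h1 : (2 : ℝ) ^ m ≤ √X := by
      apply Real.le_sqrt_of_sq_le
      rw [← pow_mul, mul_comm, pow_mul]
      norm_num
      exact hmX
    calc √X * 2 ^ m ≤ √X * √X := mul_le_mul_of_nonneg_left h1 (Real.sqrt_nonneg _)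
      _ = X := Real.mul_self_sqrt hX0.le
  have hX1 : 1 ≤ √X := by
    rw [Real.one_le_sqrt]
    linarith
  have hT1 : 1 ≤ T := hX1.trans hTX
  have hT0 : 0 < T := by linarith
  obtain ⟨N, hN⟩ : ∃ N, N = ⌊T⌋₊ + 1 := ⟨_, rfl⟩
  rw [← hN] at hS
  have hN2 : (N : ℝ) ≤ 2 * T := by
    rw [hN]
    push_cast
    have := Nat.floor_le hT0.le
    linarith
  have hNT : T ≤ N := by
    rw [hN]
    push_cast
    exact (Nat.lt_floor_add_one T).le
  have hV := VV_pos hΩ z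
  have hVz := hVL z Ω hz hΩ
  rcases lt_or_ge (z : ℝ) z₁ with hsm | hbig
  · -- small z
    have h1 : (S.card : ℝ) ≤ 2 * T := by
      have h0 : S.card ≤ (Ico 0 N).card := by
        apply card_le_card
        intro t ht
        have h1 := (mem_surv.1 (hS 0 (Nat.zero_le _) ht)).1
        rw [mem_Ico]
        omega
      rw [Nat.card_Ico, Nat.sub_zero] at h0
      have h2 : (S.card : ℝ) ≤ N := by exact_mod_cast h0
      linarith
    have h2 : (Real.log z + 1) ^ A ≤ (Real.log z₁ + 1) ^ A := by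
      apply pow_le_pow_left₀ (by linarith)
      have := Real.log_le_log (by linarith) hsm.le
      linarith
    have h3 : 1 ≤ (Real.log z₁ + 1) ^ A / c₁ * VV Ω z := by
      rw [div_mul_eq_mul_div, one_le_div hc₁]
      exact hVz.trans (mul_le_mul_of_nonneg_right h2 hV.le)
    calc (S.card : ℝ) ≤ 2 * T * 1 := by linarith
      _ ≤ 2 * T * ((Real.log z₁ + 1) ^ A / c₁ * VV Ω z) :=
          mul_le_mul_of_nonneg_left h3 (by positivity)
      _ = 2 * ((Real.log z₁ + 1) ^ A / c₁) * T * VV Ω z := by ring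
      _ ≤ (2 * ((Real.log z₁ + 1) ^ A / c₁) + (4 * C₂ + 2 * (C₃ / c₁) * C₂)) * T * VV Ω z := by
          apply mul_le_mul_of_nonneg_right _ hV.le
          apply mul_le_mul_of_nonneg_right _ hT0.le
          have : 0 ≤ 4 * C₂ + 2 * (C₃ / c₁) * C₂ := by positivity
          linarith
  · -- the level
    have hD0 : (0 : ℝ) < D := by
      rw [hD]
      positivity
    obtain ⟨ζ, hζ⟩ : ∃ ζ : ℝ, ζ = (z : ℝ) ^ (1 / (D : ℝ)) := ⟨_, rfl⟩
    have hz0 : (0 : ℝ) < z := by linarith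
    have hζ0 : 0 < ζ := by rw [hζ]; positivity
    have hζD : ζ ^ D = z := by
      rw [hζ, ← Real.rpow_natCast, ← Real.rpow_mul hz0.le, one_div, inv_mul_cancel₀ hD0.ne',
        Real.rpow_one]
    have hζ1 : (2 : ℝ) ^ 2 ^ R₀ ≤ ζ := by
      by_contra hcon
      push Not at hcon
      have h1 : ζ ^ D < ((2 : ℝ) ^ 2 ^ R₀) ^ D :=
        pow_lt_pow_left₀ hcon hζ0.le (by omega)
      rw [hζD, ← hz₁] at h1
      linarith
    obtain ⟨R, hR0, hR1, hR2⟩ := exists_level hζ1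
    obtain ⟨y, hy⟩ : ∃ y : ℕ, y = 2 ^ 2 ^ R := ⟨_, rfl⟩
    have hyr : (y : ℝ) = 2 ^ 2 ^ R := by
      rw [hy]
      push_cast
      rfl
    rw [← hyr] at hR1 hR2
    have hy2 : 2 ≤ y := by
      rw [hy]
      exact two_le_tower R
    have hy2r : (2 : ℝ) ≤ y := by exact_mod_cast hy2
    have hy0 : (0 : ℝ) < y := by linarith
    have hly : 0 < Real.log y := Real.log_pos (by linarith)
    -- y ^ (c + 3) ≤ √z ≤ T
    have hyT : (y : ℝ) ^ (c + 3) ≤ T := by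
      have h1 : (y : ℝ) ^ (c + 3) ≤ ζ ^ (c + 3) := pow_le_pow_left₀ hy0.le hR1 _
      have h2 : ζ ^ (c + 3) = √(z : ℝ) := by
        rw [← hζD, hD, mul_comm 2 (c + 3), pow_mul, Real.sqrt_sq (by positivity)]
      rw [h2] at h1
      exact h1.trans ((Real.sqrt_le_sqrt hzX).trans hTX)
    have hyz : y ≤ z := by
      have h1 : (y : ℝ) ≤ z := by
        calc (y : ℝ) ≤ ζ := hR1
          _ ≤ ζ ^ D := le_self_pow₀ (by linarith) (by omega)
          _ = z := hζD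
      exact_mod_cast h1
    have hlog : Real.log z ≤ ((2 * D : ℕ) : ℝ) * Real.log y := by
      rw [← hζD, Real.log_pow]
      have h1 : Real.log ζ ≤ 2 * Real.log y := by
        have h2 := Real.log_le_log hζ0 hR2.le
        rw [Real.log_pow] at h2
        exact_mod_cast h2
      push_cast
      calc (D : ℝ) * Real.log ζ ≤ D * (2 * Real.log y) := mul_le_mul_of_nonneg_left h1 hD0.le
        _ = 2 * D * Real.log y := by ring
    have hmain := hs R hR0 Ω hΩ 0 N (by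
      have h1 : (y : ℝ) ^ c ≤ N := by
        calc (y : ℝ) ^ c ≤ y ^ (c + 3) := pow_le_pow_right₀ (by linarith) (by omega)
          _ ≤ T := hyT
          _ ≤ N := hNT
      rw [← hy]
      exact_mod_cast h1)
    rw [← hy, ← hyr] at hmain
    have hcard : (S.card : ℝ) ≤ (surv Ω y 0 N).card := by exact_mod_cast card_le_card (hS y hyz)
    have hVy := hVC y z Ω hy2 hyz hlog hΩ
    have hVy' := hVL y Ω hy2 hΩ
    have hVy0 := VV_pos hΩ y
    change (((surv Ω y 0 N).card : ℕ) : ℝ) ≤ N * (2 * VV Ω y) + N / y at hmain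
    -- the error term
    have hinv : 1 / (y : ℝ) ≤ C₃ / c₁ * VV Ω y := by
      have h1 := hexp (Real.log y) hly.le
      rw [Real.exp_log hy0] at h1
      rw [div_le_iff₀ hy0, div_mul_eq_mul_div, div_mul_eq_mul_div, le_div_iff₀ hc₁, one_mul]
      calc c₁ ≤ (Real.log y + 1) ^ A * VV Ω y := hVy'
        _ ≤ (C₃ * y) * VV Ω y := mul_le_mul_of_nonneg_right h1 hVy0.le
        _ = C₃ * VV Ω y * y := by ring
    have h1 : (S.card : ℝ) ≤ (2 * T) * (2 * VV Ω y) + (2 * T) * (C₃ / c₁ * VV Ω y) := by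
      have e1 : (N : ℝ) * (2 * VV Ω y) ≤ (2 * T) * (2 * VV Ω y) :=
        mul_le_mul_of_nonneg_right hN2 (by positivity)
      have e2 : (N : ℝ) / y ≤ (2 * T) * (C₃ / c₁ * VV Ω y) := by
        calc (N : ℝ) / y = N * (1 / y) := by ring
          _ ≤ (2 * T) * (C₃ / c₁ * VV Ω y) := mul_le_mul hN2 hinv (by positivity) (by positivity)
      linarith
    calc (S.card : ℝ) ≤ (2 * T) * (2 * VV Ω y) + (2 * T) * (C₃ / c₁ * VV Ω y) := h1
      _ = (4 + 2 * (C₃ / c₁)) * T * VV Ω y := by ring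
      _ ≤ (4 + 2 * (C₃ / c₁)) * T * (C₂ * VV Ω z) :=
          mul_le_mul_of_nonneg_left hVy (by positivity)
      _ = (4 * C₂ + 2 * (C₃ / c₁) * C₂) * T * VV Ω z := by ring
      _ ≤ (2 * ((Real.log z₁ + 1) ^ A / c₁) + (4 * C₂ + 2 * (C₃ / c₁) * C₂)) * T * VV Ω z := by
          apply mul_le_mul_of_nonneg_right _ hV.le
          apply mul_le_mul_of_nonneg_right _ hT0.le
          have : 0 ≤ 2 * ((Real.log z₁ + 1) ^ A / c₁) := by positivity
          linarith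

end Pool.Agent.Collatz3.PR
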