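import Mathlib
import Pool.Agent.Collatz3.PRSv

set_option autoImplicit false

/-!
# Tao's theorem in sifted sets: sifted integers and pairs in progressions modulo powers of 2
-/

namespace Pool.Agent.Collatz3.PR

open Finset
open Pool.Agent.Helper90.Straus

theorem emod_eq_iff {p : ℕ} (hp : 0 < p) (x : ℤ) {a : ℕ} (ha : a < p) :
    (x % p).toNat = a ↔ (p : ℤ) ∣ x - a := by
  have hp0 : (0 : ℤ) < p := by exact_mod_cast hp
  have h1 := Int.emod_nonneg x hp0.ne'
  have h2 := Int.emod_lt_of_pos x hp0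
  constructor
  · intro h
    have h3 : x % p = a := by omega
    rw [← h3, Int.emod_def]
    exact ⟨x / p, by ring⟩
  · rintro ⟨c, hc⟩
    have h3 : x = a + p * c := by linarith
    have h4 : x % p = a := by
      rw [h3, Int.add_mul_emod_self_left]
      exact Int.emod_eq_of_lt (by omega) (by omega)
    omega

/-- The classes of `t` with `d + 2 ^ m * t` in `Ω p`. -/
def cl (Ω : ℕ → Finset ℕ) (m : ℕ) (d : ℤ) (p : ℕ) : Finset ℕ :=
  (range p).filter fun t => ((d + 2 ^ m * (t : ℤ)) % p).toNat ∈ Ω p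

theorem card_cl {Ω : ℕ → Finset ℕ} {m : ℕ} {d : ℤ} {p : ℕ} (hp : p.Prime) (hp2 : p ≠ 2)
    (hΩ : Ω p ⊆ range p) : (cl Ω m d p).card = (Ω p).card := by
  have h1 : (cl Ω m d p).image (fun t : ℕ => ((d + 2 ^ m * (t : ℤ)) % p).toNat) = Ω p := by
    ext a
    rw [mem_image]
    constructor
    · rintro ⟨t, ht, rfl⟩
      exact (mem_filter.1 ht).2
    · intro ha
      have ha' := mem_range.1 (hΩ ha)
      obtain ⟨t, ht, hd⟩ := exists_cls hp hp2 m (d - a)
      have h2 : ((d + 2 ^ m * (t : ℤ)) % p).toNat = a := by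
        rw [emod_eq_iff hp.pos _ ha']
        have e : d + 2 ^ m * (t : ℤ) - a = d - a + 2 ^ m * (t : ℤ) := by ring
        rw [e]
        exact hd
      refine ⟨t, ?_, h2⟩
      rw [cl, mem_filter]
      exact ⟨ht, by rw [h2]; exact ha⟩
  rw [← h1, card_image_of_injOn]
  intro t ht t' ht' h
  rw [mem_coe, cl, mem_filter, mem_range] at ht ht'
  simp only at h
  have ha := mem_range.1 (hΩ ht.2)
  have h2 := (emod_eq_iff hp.pos _ ha).1 rfl
  have h3 := (emod_eq_iff hp.pos (d + 2 ^ m * (t' : ℤ)) ha).1 h.symm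
  obtain ⟨a, hadef⟩ : ∃ a, a = ((d + 2 ^ m * (t : ℤ)) % p).toNat := ⟨_, rfl⟩
  rw [← hadef] at h2 h3
  apply cls_unique hp hp2 m (d - a) ht.1 ht'.1
  · have e : d - a + 2 ^ m * (t : ℤ) = d + 2 ^ m * (t : ℤ) - a := by ring
    rw [e]
    exact h2
  · have e : d - a + 2 ^ m * (t' : ℤ) = d + 2 ^ m * (t' : ℤ) - a := by ring
    rw [e]
    exact h3

theorem cl_disjoint {Ω : ℕ → Finset ℕ} {m : ℕ} {d Δ : ℤ} {p : ℕ} (hp : p.Prime)
    (hΩ : Ω p ⊆ range p) (h : ¬ Bp Ω p Δ) : Disjoint (cl Ω m d p) (cl Ω m (d + Δ) p) := by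
  rw [disjoint_left]
  intro t ht ht'
  rw [cl, mem_filter] at ht ht'
  apply h
  refine ⟨_, ht.2, _, ht'.2, ?_⟩
  have ha := mem_range.1 (hΩ ht.2)
  have hb := mem_range.1 (hΩ ht'.2)
  have h1 := (emod_eq_iff hp.pos _ ha).1 rfl
  have h2 := (emod_eq_iff hp.pos _ hb).1 rfl
  have h3 := dvd_sub h2 h1
  obtain ⟨a, hadef⟩ : ∃ a, a = ((d + 2 ^ m * (t : ℤ)) % p).toNat := ⟨_, rfl⟩
  obtain ⟨b, hbdef⟩ : ∃ b, b = ((d + Δ + 2 ^ m * (t : ℤ)) % p).toNat := ⟨_, rfl⟩
  rw [← hadef, ← hbdef] at h3 ⊢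
  have e : d + Δ + 2 ^ m * (t : ℤ) - b - (d + 2 ^ m * (t : ℤ) - a) = Δ + a - b := by ring
  rwa [e] at h3

/-- Transfer of a sifted element to the variable `t`. -/
theorem notMem_cl {Ω : ℕ → Finset ℕ} {m : ℕ} {d : ℤ} {p t : ℕ}
    (h : ((d + 2 ^ m * (t : ℤ)) % p).toNat ∉ Ω p) : t % p ∉ cl Ω m d p := by
  intro hm
  apply h
  rw [cl, mem_filter] at hm
  have h1 : (d + 2 ^ m * ((t % p : ℕ) : ℤ)) % p = (d + 2 ^ m * (t : ℤ)) % p := by
    rw [Int.natCast_mod]
    exact Int.ModEq.add_left d (Int.ModEq.mul_left (2 ^ m) (Int.mod_modEq _ _))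
  rw [← h1]
  exact hm.2

/-- The elements of a progression in an interval. -/
theorem prog_count (A r : ℤ) (X : ℝ) (m : ℕ) (Q : ℤ → Prop) [DecidablePred Q] :
    ∃ (d : ℤ) (S : Finset ℕ),
      S.card = ((Ioc A (A + ⌊X⌋)).filter fun n => Q n ∧ (2 : ℤ) ^ m ∣ n - r).card ∧
      ∀ t ∈ S, t < ⌊X / 2 ^ m⌋₊ + 1 ∧ Q (d + 2 ^ m * (t : ℤ)) := by
  have hm : (0 : ℤ) < 2 ^ m := by positivity
  obtain ⟨d, hd⟩ : ∃ d : ℤ, d = A + 1 + (r - (A + 1)) % 2 ^ m := ⟨_, rfl⟩
  have hd1 := Int.emod_nonneg (r - (A + 1)) hm.ne'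
  have hd2 := Int.emod_lt_of_pos (r - (A + 1)) hm
  have hdr : (2 : ℤ) ^ m ∣ r - d := by
    rw [hd, Int.emod_def]
    exact ⟨(r - (A + 1)) / 2 ^ m, by ring⟩
  have key : ∀ n ∈ (Ioc A (A + ⌊X⌋)).filter (fun n => Q n ∧ (2 : ℤ) ^ m ∣ n - r),
      n = d + 2 ^ m * ((((n - d) / 2 ^ m).toNat : ℕ) : ℤ) ∧
        ((n - d) / 2 ^ m).toNat < ⌊X / 2 ^ m⌋₊ + 1 := by
    intro n hn
    rw [mem_filter, mem_Ioc] at hn
    obtain ⟨⟨h1, h2⟩, _, h3⟩ := hn
    obtain ⟨c, hc⟩ := (dvd_add h3 hdr)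
    have e : n - d = 2 ^ m * c := by linarith
    have hc0 : 0 ≤ c := by
      by_contra hcon
      push Not at hcon
      have h4 : c ≤ -1 := by omega
      have h5 : 2 ^ m * c ≤ 2 ^ m * (-1) := mul_le_mul_of_nonneg_left h4 hm.le
      linarith
    have h6 : (n - d) / 2 ^ m = c := by
      rw [e]
      exact Int.mul_ediv_cancel_left _ hm.ne'
    rw [h6, Int.toNat_of_nonneg hc0]
    refine ⟨by linarith, ?_⟩
    rw [Nat.lt_add_one_iff]
    apply Nat.le_floor
    rw [le_div_iff₀ (by positivity)]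
    have h7 : 2 ^ m * c ≤ ⌊X⌋ := by linarith
    have h8 : (((2 : ℤ) ^ m * c : ℤ) : ℝ) ≤ X := by
      have h9 : (((2 : ℤ) ^ m * c : ℤ) : ℝ) ≤ (⌊X⌋ : ℝ) := by exact_mod_cast h7
      exact h9.trans (Int.floor_le X)
    have h9 : ((c.toNat : ℕ) : ℝ) = (c : ℝ) := by
      exact_mod_cast (Int.toNat_of_nonneg hc0)
    rw [h9]
    push_cast at h8
    linarith
  refine ⟨d, ((Ioc A (A + ⌊X⌋)).filter fun n => Q n ∧ (2 : ℤ) ^ m ∣ n - r).image
    fun n => ((n - d) / 2 ^ m).toNat, ?_, ?_⟩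
  · rw [card_image_of_injOn]
    intro n hn n' hn' h
    have h1 := (key n hn).1
    have h2 := (key n' hn').1
    simp only at h
    rw [h] at h1
    exact h1.trans h2.symm
  · intro t ht
    rw [mem_image] at ht
    obtain ⟨n, hn, rfl⟩ := ht
    obtain ⟨h1, h2⟩ := key n hn
    refine ⟨h2, ?_⟩
    rw [← h1]
    exact (mem_filter.1 hn).2.1

/-- The product of the small primes. -/
theorem small_prod (κ z : ℕ) : ∏ p ∈ pr 2 z, (if p ≤ 2 * κ then (p : ℝ) else 1) ≤
    ∏ p ∈ pr 2 (2 * κ + 1), (p : ℝ) := by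
  rw [← prod_filter]
  have h : ∏ p ∈ (pr 2 z).filter (fun p => p ≤ 2 * κ), p ≤ ∏ p ∈ pr 2 (2 * κ + 1), p := by
    apply prod_le_prod_of_subset_of_one_le'
    · intro p hp
      rw [mem_filter, mem_pr] at hp
      rw [mem_pr]
      exact ⟨⟨hp.1.1.1, by omega⟩, hp.1.2⟩
    · intro p hp _
      exact (mem_pr.1 hp).2.one_lt.le
  have h' : ((∏ p ∈ (pr 2 z).filter (fun p => p ≤ 2 * κ), p : ℕ) : ℝ) ≤
      ((∏ p ∈ pr 2 (2 * κ + 1), p : ℕ) : ℝ) := Nat.cast_le.2 h
  rwa [Nat.cast_prod, Nat.cast_prod] at h'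

theorem small_prod_pos (κ : ℕ) : (1 : ℝ) ≤ ∏ p ∈ pr 2 (2 * κ + 1), (p : ℝ) := by
  have h : 1 ≤ ∏ p ∈ pr 2 (2 * κ + 1), p :=
    Nat.one_le_iff_ne_zero.2 (prod_ne_zero_iff.2 fun p hp => (mem_pr.1 hp).2.ne_zero)
  have h' : ((1 : ℕ) : ℝ) ≤ ((∏ p ∈ pr 2 (2 * κ + 1), p : ℕ) : ℝ) := Nat.cast_le.2 h
  rwa [Nat.cast_prod, Nat.cast_one] at h'

theorem small_prod_nonneg (κ z : ℕ) : 0 ≤ ∏ p ∈ pr 2 z, (if p ≤ 2 * κ then (p : ℝ) else 1) :=
  prod_nonneg fun p _ => by split_ifs <;> positivity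

open Classical in
theorem thm_S1 : St_S1 := by
  intro κ hκ
  obtain ⟨C, hC, hl⟩ := level hκ
  obtain ⟨K, hK⟩ : ∃ K : ℝ, K = ∏ p ∈ pr 2 (2 * κ + 1), (p : ℝ) := ⟨_, rfl⟩
  have hK1 : 1 ≤ K := by rw [hK]; exact small_prod_pos κ
  refine ⟨C * K, by positivity, ?_⟩
  intro z X m A r Ω hz hzX hmX hΩ
  have hX0 : 0 ≤ X := le_trans (Nat.cast_nonneg z) hzX
  obtain ⟨d, S, hS, hSt⟩ := prog_count A r X m (Sf Ω z)
  rw [← hS]
  obtain ⟨Ω', hΩ'⟩ : ∃ Ω' : ℕ → Finset ℕ, Ω' = fun p => if p ≤ 2 * κ then ∅ else cl Ω m d p :=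
    ⟨_, rfl⟩
  have hcard : ∀ p : ℕ, p.Prime → 2 * κ < p → (Ω' p).card = (Ω p).card := by
    intro p hp hpκ
    rw [hΩ']
    simp only
    rw [if_neg (by omega), card_cl hp (by omega) (hΩ p hp).1]
  have hsys : Sys κ Ω' := by
    intro p hp
    by_cases h : p ≤ 2 * κ
    · rw [hΩ']
      simp only
      rw [if_pos h, card_empty]
      exact ⟨empty_subset _, Nat.zero_le _, hp.pos⟩
    · refine ⟨?_, ?_⟩
      · rw [hΩ']
        simp only
        rw [if_neg h]
        exact filter_subset _ _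
      · rw [hcard p hp (by omega)]
        exact (hΩ p hp).2
  have h1 := hl z X m hz hzX hmX Ω' hsys S (by
    intro N hN t ht
    obtain ⟨h2, h3⟩ := hSt t ht
    rw [mem_surv]
    refine ⟨⟨Nat.zero_le _, by omega⟩, fun p hp hpN => ?_⟩
    rw [hΩ']
    simp only
    split_ifs
    · exact notMem_empty _
    · exact notMem_cl (h3 p hp (by omega)))
  have h2 : VV Ω' z ≤ K * VV Ω z := by
    have h3 : VV Ω' z ≤ ∏ p ∈ pr 2 z, ((if p ≤ 2 * κ then (p : ℝ) else 1) * (1 - g Ω p)) := by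
      apply prod_le_prod
      · exact fun p hp => (fac_mem hsys (mem_pr.1 hp).2).1
      · intro p hp
        have hpp := (mem_pr.1 hp).2
        have hp0 : (0 : ℝ) < p := by exact_mod_cast hpp.pos
        split_ifs with h
        · have h4 : g Ω' p = 0 := by
            unfold g
            rw [hΩ']
            simp only
            rw [if_pos h]
            simp
          have h5 := (g_le hΩ hpp).2.2
          rw [h4, sub_zero]
          rw [div_le_iff₀ hp0] at h5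
          linarith
        · have h4 : g Ω' p = g Ω p := by
            unfold g
            rw [hcard p hpp (by omega)]
          rw [h4, one_mul]
    refine h3.trans ?_
    rw [prod_mul_distrib, hK]
    exact mul_le_mul_of_nonneg_right (small_prod κ z) (VV_pos hΩ z).le
  refine h1.trans ?_
  calc C * (X / 2 ^ m) * VV Ω' z ≤ C * (X / 2 ^ m) * (K * VV Ω z) :=
        mul_le_mul_of_nonneg_left h2 (by positivity)
    _ = C * K * (X / 2 ^ m) * VV Ω z := by ring

theorem pair_fac {κ : ℕ} {x y : ℝ} {p : ℕ} (hp : 2 * κ < p) (hx : x ≤ κ / p)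
    (hy : y ≤ 1 - x) : y ≤ (1 - x) ^ 2 * (1 + 2 * κ / p) := by
  have hp0 : (0 : ℝ) < p := by exact_mod_cast (by omega : 0 < p)
  have hκp : (κ : ℝ) / p ≤ 1 / 2 := by
    rw [div_le_div_iff₀ hp0 (by norm_num)]
    have : ((2 * κ : ℕ) : ℝ) ≤ p := by exact_mod_cast hp.le
    push_cast at this
    linarith
  obtain ⟨q, hq⟩ : ∃ q : ℝ, q = κ / p := ⟨_, rfl⟩
  have e : 2 * (κ : ℝ) / p = 2 * q := by rw [hq]; ring
  have hq0 : 0 ≤ q := by rw [hq]; positivity
  rw [← hq] at hx hκp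
  rw [e]
  refine hy.trans ?_
  have h1 : 0 ≤ 1 - x := by linarith
  have h2 : 1 ≤ (1 - x) * (1 + 2 * q) := by nlinarith
  calc 1 - x = (1 - x) * 1 := by ring
    _ ≤ (1 - x) * ((1 - x) * (1 + 2 * q)) := mul_le_mul_of_nonneg_left h2 h1
    _ = (1 - x) ^ 2 * (1 + 2 * q) := by ring

open Classical in
theorem thm_S2 : St_S2 := by
  intro κ hκ
  obtain ⟨C, hC, hl⟩ := level (κ := 2 * κ) (by omega)
  obtain ⟨K, hK⟩ : ∃ K : ℝ, K = ∏ p ∈ pr 2 (2 * κ + 1), (p : ℝ) := ⟨_, rfl⟩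
  have hK1 : 1 ≤ K := by rw [hK]; exact small_prod_pos κ
  refine ⟨C * K ^ 2, by positivity, ?_⟩
  intro z X m A r Δ Ω hz hzX hmX hΩ
  have hX0 : 0 ≤ X := le_trans (Nat.cast_nonneg z) hzX
  obtain ⟨d, S, hS, hSt⟩ := prog_count A r X m (fun n => Sf Ω z n ∧ Sf Ω z (n + Δ))
  have hS' : S.card = ((Ioc A (A + ⌊X⌋)).filter fun n =>
      Sf Ω z n ∧ Sf Ω z (n + Δ) ∧ (2 : ℤ) ^ m ∣ n - r).card := by
    rw [hS]
    apply congrArg
    apply filter_congr
    intro n _
    rw [and_assoc]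
  rw [← hS']
  obtain ⟨Ω', hΩ'⟩ : ∃ Ω' : ℕ → Finset ℕ, Ω' = fun p => if p ≤ 2 * κ then ∅ else
      cl Ω m d p ∪ cl Ω m (d + Δ) p := ⟨_, rfl⟩
  have hsys : Sys (2 * κ) Ω' := by
    intro p hp
    by_cases h : p ≤ 2 * κ
    · rw [hΩ']
      simp only
      rw [if_pos h, card_empty]
      exact ⟨empty_subset _, Nat.zero_le _, hp.pos⟩
    · have h1 : (Ω' p).card ≤ 2 * κ := by
        rw [hΩ']
        simp only
        rw [if_neg h]
        refine (card_union_le _ _).trans ?_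
        rw [card_cl hp (by omega) (hΩ p hp).1, card_cl hp (by omega) (hΩ p hp).1]
        have := (hΩ p hp).2.1
        omega
      refine ⟨?_, h1, by omega⟩
      rw [hΩ']
      simp only
      rw [if_neg h]
      exact union_subset (filter_subset _ _) (filter_subset _ _)
  have h1 := hl z X m hz hzX hmX Ω' hsys S (by
    intro N hN t ht
    obtain ⟨h2, h3, h4⟩ := hSt t ht
    rw [mem_surv]
    refine ⟨⟨Nat.zero_le _, by omega⟩, fun p hp hpN => ?_⟩
    rw [hΩ']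
    simp only
    split_ifs
    · exact notMem_empty _
    · rw [notMem_union]
      refine ⟨notMem_cl (h3 p hp (by omega)), notMem_cl ?_⟩
      have h5 := h4 p hp (by omega)
      have e : d + Δ + 2 ^ m * (t : ℤ) = d + 2 ^ m * (t : ℤ) + Δ := by ring
      rw [e]
      exact h5)
  have h2 : VV Ω' z ≤ K ^ 2 * VV Ω z ^ 2 * sg κ Ω z Δ := by
    have h3 : VV Ω' z ≤ ∏ p ∈ pr 2 z, ((if p ≤ 2 * κ then (p : ℝ) else 1) ^ 2 *
        (1 - g Ω p) ^ 2 * (if 2 * κ < p ∧ Bp Ω p Δ then (1 + 2 * κ / (p : ℝ)) else 1)) := by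
      apply prod_le_prod
      · exact fun p hp => (fac_mem hsys (mem_pr.1 hp).2).1
      · intro p hp
        have hpp := (mem_pr.1 hp).2
        have hp0 : (0 : ℝ) < p := by exact_mod_cast hpp.pos
        obtain ⟨h40, h41, h42⟩ := g_le hΩ hpp
        by_cases h : p ≤ 2 * κ
        · rw [if_pos h, if_neg (fun h' => by omega), mul_one]
          have h4 : g Ω' p = 0 := by
            unfold g
            rw [hΩ']
            simp only
            rw [if_pos h]
            simp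
          rw [h4, sub_zero, ← mul_pow]
          apply one_le_pow₀
          rw [div_le_iff₀ hp0] at h42
          linarith
        · rw [if_neg h, one_pow, one_mul]
          have hc1 := card_cl (m := m) (d := d) hpp (by omega) (hΩ p hpp).1
          have hc2 := card_cl (m := m) (d := d + Δ) hpp (by omega) (hΩ p hpp).1
          by_cases hB : Bp Ω p Δ
          · rw [if_pos ⟨by omega, hB⟩]
            apply pair_fac (by omega)
            · rw [mul_one_div] at h41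
              exact h41
            · have h5 : (Ω p).card ≤ (Ω' p).card := by
                rw [hΩ']
                simp only
                rw [if_neg h, ← hc1]
                exact card_le_card subset_union_left
              have h6 : g Ω p ≤ g Ω' p := by
                unfold g
                apply div_le_div_of_nonneg_right _ hp0.le
                exact_mod_cast h5
              linarith
          · rw [if_neg (fun h' => hB h'.2), mul_one]
            have h5 : g Ω' p = 2 * g Ω p := by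
              unfold g
              rw [hΩ']
              simp only
              rw [if_neg h, card_union_of_disjoint (cl_disjoint hpp (hΩ p hpp).1 hB), hc1, hc2]
              push_cast
              ring
            rw [h5]
            nlinarith [sq_nonneg (g Ω p)]
    refine h3.trans (le_of_eq_of_le ?_ (mul_le_mul_of_nonneg_right
      (mul_le_mul_of_nonneg_right (pow_le_pow_left₀ (small_prod_nonneg κ z)
      (hK ▸ small_prod κ z) 2) (sq_nonneg (VV Ω z))) ?_))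
    · rw [prod_mul_distrib, prod_mul_distrib, prod_pow, prod_pow]
      apply congrArg₂ _ rfl
      unfold sg
      rw [← prod_filter]
      apply prod_congr _ fun _ _ => rfl
      ext p
      rw [mem_filter, mem_filter, mem_pr, mem_pr]
      constructor
      · rintro ⟨⟨⟨h5, h6⟩, h7⟩, h8, h9⟩
        exact ⟨⟨⟨by omega, h6⟩, h7⟩, h9⟩
      · rintro ⟨⟨⟨h5, h6⟩, h7⟩, h9⟩
        exact ⟨⟨⟨by omega, h6⟩, h7⟩, by omega, h9⟩
    · unfold sg
      exact prod_nonneg fun p _ => by positivity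
  refine h1.trans ?_
  calc C * (X / 2 ^ m) * VV Ω' z ≤ C * (X / 2 ^ m) * (K ^ 2 * VV Ω z ^ 2 * sg κ Ω z Δ) :=
        mul_le_mul_of_nonneg_left h2 (by positivity)
    _ = C * K ^ 2 * (X / 2 ^ m) * VV Ω z ^ 2 * sg κ Ω z Δ := by ring

end Pool.Agent.Collatz3.PR
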