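import Mathlib
import Pool.Agent.Collatz3.PRS12

set_option autoImplicit false

/-!
# Tao's theorem in sifted sets: the even integers
-/

namespace Pool.Agent.Collatz3.PR

open Finset
open Pool.Agent.Helper90.Straus
open Pool.Agent.Helper14 (T)
open Pool.Agent.Collatz3.FW (Bd Bd_down)

/-- The classes for `n / 2 ^ i`. -/
def Om2 (Ω : ℕ → Finset ℕ) (i p : ℕ) : Finset ℕ := if p = 2 then ∅ else cl Ω i 0 p

theorem sys_Om2 {κ : ℕ} {Ω : ℕ → Finset ℕ} (hΩ : Sys κ Ω) (i : ℕ) : Sys κ (Om2 Ω i) := by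
  intro p hp
  unfold Om2
  split_ifs with h
  · exact ⟨empty_subset _, by simp, by simpa using hp.pos⟩
  · rw [card_cl hp h (hΩ p hp).1]
    exact ⟨filter_subset _ _, (hΩ p hp).2⟩

theorem Sf_Om2 {Ω : ℕ → Finset ℕ} {i z z' : ℕ} (hz : z' ≤ z) {n : ℤ} (h : Sf Ω z (2 ^ i * n)) :
    Sf (Om2 Ω i) z' n := by
  intro p hp hpz
  unfold Om2
  split_ifs with h2
  · exact notMem_empty _
  · intro hm
    rw [cl, mem_filter] at hm
    apply h p hp (by omega)
    have h3 : (0 + 2 ^ i * (((n % p).toNat : ℕ) : ℤ)) % p = (2 ^ i * n) % p := by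
      rw [Int.toNat_of_nonneg (Int.emod_nonneg _ (by exact_mod_cast hp.ne_zero)), zero_add]
      exact Int.ModEq.mul_left (2 ^ i) (Int.mod_modEq _ _)
    rw [← h3]
    exact hm.2

theorem VV_Om2 {κ : ℕ} {Ω : ℕ → Finset ℕ} (hΩ : Sys κ Ω) (i z : ℕ) :
    VV (Om2 Ω i) z ≤ 2 * VV Ω z := by
  have h1 : VV (Om2 Ω i) z ≤ ∏ p ∈ pr 2 z, ((if p = 2 then (2 : ℝ) else 1) * (1 - g Ω p)) := by
    apply prod_le_prod
    · exact fun p hp => (fac_mem (sys_Om2 hΩ i) (mem_pr.1 hp).2).1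
    · intro p hp
      have hpp := (mem_pr.1 hp).2
      split_ifs with h
      · have h2 : g (Om2 Ω i) p = 0 := by
          unfold g Om2
          rw [if_pos h]
          simp
        have h3 := (g_le hΩ hpp).2.2
        rw [h] at h3
        rw [h2, h]
        norm_num at h3
        linarith
      · have h2 : g (Om2 Ω i) p = g Ω p := by
          unfold g Om2
          rw [if_neg h, card_cl hpp h (hΩ p hpp).1]
        rw [h2, one_mul]
  refine h1.trans ?_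
  rw [prod_mul_distrib, prod_ite_eq']
  apply mul_le_mul_of_nonneg_right _ (VV_pos hΩ z).le
  split_ifs <;> norm_num

theorem Bd_anti {M t t' : ℝ} (h : t ≤ t') : Bd M t' ⊆ Bd M t :=
  fun _ hn j hj => hn j (hj.trans h)

theorem T_two_pow (i : ℕ) (n : ℤ) : T^[i] (2 ^ i * n) = n := by
  induction i with
  | zero => simp
  | succ i ih =>
    rw [Function.iterate_succ_apply]
    have h1 : T (2 ^ (i + 1) * n) = 2 ^ i * n := by
      unfold Pool.Agent.Helper14.T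
      have e : (2 : ℤ) ^ (i + 1) * n = 2 * (2 ^ i * n) := by ring
      rw [if_pos (by rw [e]; exact dvd_mul_right _ _), e]
      exact Int.mul_ediv_cancel_left _ (by norm_num)
    rw [h1, ih]

theorem T_zero (j : ℕ) : T^[j] 0 = 0 := by
  induction j with
  | zero => rfl
  | succ j ih =>
    rw [Function.iterate_succ_apply]
    have : T 0 = 0 := by
      unfold Pool.Agent.Helper14.T
      simp
    rw [this, ih]

/-- The sifted integers divisible by `2 ^ m`. -/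
theorem div_count (hS1 : St_S1) {κ : ℕ} (hκ : 1 ≤ κ) : ∃ C : ℝ, 0 < C ∧ ∀ (z : ℕ) (X : ℝ) (m : ℕ)
    (Ω : ℕ → Finset ℕ), 2 ≤ z → (z : ℝ) ≤ X → 4 ^ m ≤ X → Sys κ Ω →
    (Set.ncard {n : ℤ | n ≠ 0 ∧ |(n : ℝ)| ≤ X ∧ Sf Ω z n ∧ (2 : ℤ) ^ m ∣ n} : ℝ) ≤
      C * (X / 2 ^ m) * VV Ω z := by
  classical
  obtain ⟨C, hC, h⟩ := hS1 κ hκ
  refine ⟨2 * C, by positivity, ?_⟩
  intro z X m Ω hz hzX hmX hΩ
  have h1 := h z X m 0 0 Ω hz hzX hmX hΩ
  have h2 := h z X m (-⌊X⌋ - 1) 0 Ω hz hzX hmX hΩ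
  have hsub : {n : ℤ | n ≠ 0 ∧ |(n : ℝ)| ≤ X ∧ Sf Ω z n ∧ (2 : ℤ) ^ m ∣ n} ⊆
      ((((Ioc 0 (0 + ⌊X⌋)).filter fun n => Sf Ω z n ∧ (2 : ℤ) ^ m ∣ n - 0) ∪
      ((Ioc (-⌊X⌋ - 1) (-⌊X⌋ - 1 + ⌊X⌋)).filter fun n => Sf Ω z n ∧ (2 : ℤ) ^ m ∣ n - 0) :
        Finset ℤ) : Set ℤ) := by
    rintro n ⟨h3, h4, h5, h6⟩
    rw [mem_coe, mem_union, mem_filter, mem_filter, mem_Ioc, mem_Ioc, sub_zero]
    rw [abs_le] at h4
    have h7 : n ≤ ⌊X⌋ := Int.le_floor.2 h4.2
    have h8 : -n ≤ ⌊X⌋ := Int.le_floor.2 (by push_cast; linarith)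
    rcases lt_or_gt_of_ne h3 with h9 | h9
    · right
      exact ⟨⟨by omega, by omega⟩, h5, h6⟩
    · left
      exact ⟨⟨by omega, by omega⟩, h5, h6⟩
  have h3 := Set.ncard_le_ncard hsub (Finset.finite_toSet _)
  rw [Set.ncard_coe_finset] at h3
  have h4 := h3.trans (card_union_le _ _)
  have h5 : (Set.ncard {n : ℤ | n ≠ 0 ∧ |(n : ℝ)| ≤ X ∧ Sf Ω z n ∧ (2 : ℤ) ^ m ∣ n} : ℝ) ≤
      (((Ioc 0 (0 + ⌊X⌋)).filter fun n => Sf Ω z n ∧ (2 : ℤ) ^ m ∣ n - 0).card : ℝ) +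
      (((Ioc (-⌊X⌋ - 1) (-⌊X⌋ - 1 + ⌊X⌋)).filter fun n => Sf Ω z n ∧ (2 : ℤ) ^ m ∣ n - 0).card : ℝ) := by
    exact_mod_cast h4
  refine h5.trans ((add_le_add h1 h2).trans (le_of_eq ?_))
  ring

theorem finite_abs (X : ℝ) : {n : ℤ | |(n : ℝ)| ≤ X}.Finite := by
  apply (Set.finite_Icc (-⌊X⌋) ⌊X⌋).subset
  intro n hn
  have hn : |(n : ℝ)| ≤ X := hn
  rw [abs_le] at hn
  rw [Set.mem_Icc]
  have h7 : n ≤ ⌊X⌋ := Int.le_floor.2 hn.2
  have h8 : -n ≤ ⌊X⌋ := Int.le_floor.2 (by push_cast; linarith)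
  omega

theorem sum_half (m : ℕ) : ∑ i ∈ Ico 1 m, (1 / 2 : ℝ) ^ i ≤ 1 := by
  refine (geom_sum_Ico_le_of_lt_one (by norm_num) (by norm_num)).trans ?_
  norm_num

theorem sqrt_level {X : ℝ} {z : ℕ} (hz : 2 ≤ z) (hzX : (z : ℝ) ≤ X) (hX : 256 ≤ X) :
    ∃ z' : ℕ, 2 ≤ z' ∧ z' ≤ z ∧ (z' : ℝ) ≤ √X ∧ Real.log z ≤ ((4 : ℕ) : ℝ) * Real.log z' := by
  rcases le_or_gt (z : ℝ) (√X) with h | h
  · refine ⟨z, hz, le_rfl, h, ?_⟩
    have h1 : 0 ≤ Real.log z := Real.log_nonneg (by exact_mod_cast (by omega : 1 ≤ z))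
    push_cast
    linarith
  · have h16 : 16 ≤ √X := by
      apply Real.le_sqrt_of_sq_le
      linarith
    have h1 : 16 ≤ ⌊√X⌋₊ := Nat.le_floor (by exact_mod_cast h16)
    refine ⟨⌊√X⌋₊, by omega, ?_, Nat.floor_le (Real.sqrt_nonneg _), ?_⟩
    · have h2 : (⌊√X⌋₊ : ℝ) ≤ z := (Nat.floor_le (Real.sqrt_nonneg _)).trans h.le
      exact_mod_cast h2
    · have h2 : √X < ⌊√X⌋₊ + 1 := Nat.lt_floor_add_one _
      obtain ⟨y, hy⟩ : ∃ y : ℝ, y = (⌊√X⌋₊ : ℝ) := ⟨_, rfl⟩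
      have h3 : (16 : ℝ) ≤ y := by rw [hy]; exact_mod_cast h1
      rw [← hy] at h2 ⊢
      have h4 : (z : ℝ) ≤ y ^ 4 := by
        have h5 : X = √X * √X := (Real.mul_self_sqrt (by linarith)).symm
        have h6 : √X ≤ y ^ 2 := by nlinarith
        calc (z : ℝ) ≤ X := hzX
          _ = √X * √X := h5
          _ ≤ y ^ 2 * y ^ 2 := mul_le_mul h6 h6 (Real.sqrt_nonneg _) (by positivity)
          _ = y ^ 4 := by ring
      have h5 := Real.log_le_log (by exact_mod_cast (by omega : 0 < z)) h4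
      rw [Real.log_pow] at h5
      exact h5

theorem thm_Main (hO : St_Odd) (hS1 : St_S1) (hVC : St_VC) : St_Main := by
  obtain ⟨c, hc, hO⟩ := hO
  refine ⟨min c (1 / 4), lt_min hc (by norm_num), ?_⟩
  intro κ₀ ε hε
  -- dimension at least 1
  obtain ⟨κ, hκ, hκκ⟩ : ∃ κ : ℕ, 1 ≤ κ ∧ κ₀ ≤ κ := ⟨κ₀ + 1, by omega, by omega⟩
  obtain ⟨C₁, hC₁, hO⟩ := hO κ ε hε
  obtain ⟨C₂, hC₂, hdiv⟩ := div_count hS1 hκ
  obtain ⟨C₃, hC₃, hVC⟩ := hVC κ 4 hκ
  refine ⟨C₁ + 2 + 2 * C₁ * C₃ + 2 * C₂, by positivity, ?_⟩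
  intro M X z Ω hM hz hzX hΩ₀
  have hΩ : Sys κ Ω := fun p hp => ⟨(hΩ₀ p hp).1, (hΩ₀ p hp).2.1.trans hκκ, (hΩ₀ p hp).2.2⟩
  obtain ⟨C, hC⟩ : ∃ C, C = C₁ + 2 + 2 * C₁ * C₃ + 2 * C₂ := ⟨_, rfl⟩
  obtain ⟨a, ha⟩ : ∃ a, a = 2 / Real.log (4 / 3) + ε := ⟨_, rfl⟩
  have ha0 : 0 < a := by
    rw [ha]
    have : 0 < Real.log (4 / 3) := Real.log_pos (by norm_num)
    positivity
  rw [← hC, ← ha]
  rw [← ha] at hO
  have hC₁C : C₁ + 2 ≤ C := by
    rw [hC]
    have : 0 ≤ 2 * C₁ * C₃ + 2 * C₂ := by positivity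
    linarith
  have hM0 : 0 < M := by linarith
  have hX2 : 2 ≤ X := le_trans (by exact_mod_cast hz) hzX
  have hX0 : 0 < X := by linarith
  have hlM : 0 ≤ Real.log M := Real.log_nonneg hM
  have hV := VV_pos hΩ z
  obtain ⟨E, hE⟩ : ∃ E : Set ℤ, E = {n : ℤ | |(n : ℝ)| ≤ X ∧ Sf Ω z n ∧ ∀ j : ℕ,
      (j : ℝ) ≤ a * Real.log X + C * Real.log M → M < |((T^[j] n : ℤ) : ℝ)|} := ⟨_, rfl⟩
  rw [← hE]
  have hJ0 : 0 ≤ a * Real.log X + C * Real.log M := by
    have h1 : 0 ≤ Real.log X := Real.log_nonneg (by linarith)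
    have h2 : 0 ≤ C := by linarith
    positivity
  -- M < X
  rcases le_or_gt X M with hXM | hXM
  · have h1 : E = ∅ := by
      rw [hE, Set.eq_empty_iff_forall_notMem]
      rintro n ⟨h2, _, h3⟩
      have h4 := h3 0 (by simpa using hJ0)
      simp only [Function.iterate_zero, id_eq] at h4
      linarith
    rw [h1, Set.ncard_empty, Nat.cast_zero]
    have : 0 ≤ C := by linarith
    positivity
  -- the power of 2
  obtain ⟨m, hm⟩ : ∃ m : ℕ, m = ⌊Real.logb 2 M / 4⌋₊ := ⟨_, rfl⟩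
  have hlogb : 0 ≤ Real.logb 2 M := Real.logb_nonneg (by norm_num) hM
  have hm1 : (2 : ℝ) ^ m ≤ M ^ (1 / 4 : ℝ) := by
    have h1 : (m : ℝ) ≤ Real.logb 2 M / 4 := by
      rw [hm]
      exact Nat.floor_le (by positivity)
    calc (2 : ℝ) ^ m = (2 : ℝ) ^ (m : ℝ) := (Real.rpow_natCast 2 m).symm
      _ ≤ 2 ^ (Real.logb 2 M * (1 / 4)) := Real.rpow_le_rpow_of_exponent_le (by norm_num) (by linarith)
      _ = (2 ^ Real.logb 2 M) ^ (1 / 4 : ℝ) := Real.rpow_mul (by norm_num) _ _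
      _ = M ^ (1 / 4 : ℝ) := by rw [Real.rpow_logb (by norm_num) (by norm_num) hM0]
  have hm2 : M ^ (1 / 4 : ℝ) ≤ 2 * 2 ^ m := by
    have h1 : Real.logb 2 M / 4 < m + 1 := by
      rw [hm]
      exact Nat.lt_floor_add_one _
    calc M ^ (1 / 4 : ℝ) = (2 ^ Real.logb 2 M) ^ (1 / 4 : ℝ) := by
          rw [Real.rpow_logb (by norm_num) (by norm_num) hM0]
      _ = 2 ^ (Real.logb 2 M * (1 / 4)) := (Real.rpow_mul (by norm_num) _ _).symm
      _ ≤ 2 ^ ((m : ℝ) + 1) := Real.rpow_le_rpow_of_exponent_le (by norm_num) (by linarith)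
      _ = 2 * 2 ^ m := by
          rw [Real.rpow_add (by norm_num), Real.rpow_natCast, Real.rpow_one, mul_comm]
  have hM4 : (M ^ (1 / 4 : ℝ)) ^ 4 = M := by
    rw [← Real.rpow_natCast, ← Real.rpow_mul hM0.le]
    norm_num
  have h4m : (4 : ℝ) ^ m ≤ X := by
    have h1 : (1 : ℝ) ≤ 2 ^ m := one_le_pow₀ (by norm_num)
    calc (4 : ℝ) ^ m = (2 ^ m) ^ 2 := by rw [← pow_mul, mul_comm, pow_mul]; norm_num
      _ ≤ (2 ^ m) ^ 4 := pow_le_pow_right₀ h1 (by norm_num)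
      _ ≤ (M ^ (1 / 4 : ℝ)) ^ 4 := pow_le_pow_left₀ (by positivity) hm1 4
      _ = M := hM4
      _ ≤ X := hXM.le
  have hmlog : (m : ℝ) ≤ Real.log M := by
    have h1 := Real.log_le_log (by positivity) hm1
    rw [Real.log_pow, Real.log_rpow hM0] at h1
    have h2 := Real.log_two_gt_d9
    have h3 : (0 : ℝ) ≤ m := Nat.cast_nonneg m
    nlinarith
  -- the parts
  obtain ⟨F, hF⟩ : ∃ F : ℕ → Set ℤ, F = fun i => {n : ℤ | n % 2 = 1 ∧ |(2 ^ i * n : ℝ)| ≤ X ∧
      Sf Ω z (2 ^ i * n) ∧ n ∈ Bd M (a * Real.log X + C₁ * Real.log M)} := ⟨_, rfl⟩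
  obtain ⟨G, hG⟩ : ∃ G : Set ℤ, G = {n : ℤ | n ≠ 0 ∧ |(n : ℝ)| ≤ X ∧ Sf Ω z n ∧ (2 : ℤ) ^ m ∣ n} :=
    ⟨_, rfl⟩
  have hFfin : ∀ i, (F i).Finite := by
    intro i
    apply (finite_abs X).subset
    intro n hn
    rw [hF] at hn
    have h1 : (1 : ℝ) ≤ 2 ^ i := one_le_pow₀ (by norm_num)
    have h2 := hn.2.1
    rw [abs_mul, abs_of_nonneg (by positivity : (0 : ℝ) ≤ 2 ^ i)] at h2
    have h3 := abs_nonneg (n : ℝ)
    show |(n : ℝ)| ≤ X
    nlinarith
  have hsub : E ⊆ (⋃ i ∈ range m, (fun n => 2 ^ i * n) '' F i) ∪ G := by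
    intro n hn
    rw [hE] at hn
    obtain ⟨h1, h2, h3⟩ := hn
    have hn0 : n ≠ 0 := by
      rintro rfl
      have h4 := h3 0 (by simpa using hJ0)
      simp only [Function.iterate_zero, id_eq] at h4
      norm_num at h4
      linarith
    by_cases hd : (2 : ℤ) ^ m ∣ n
    · right
      rw [hG]
      exact ⟨hn0, h1, h2, hd⟩
    · left
      have hfin : FiniteMultiplicity (2 : ℤ) n := Int.finiteMultiplicity_iff.2 ⟨by norm_num, hn0⟩
      obtain ⟨n', hn', hodd⟩ := hfin.exists_eq_pow_mul_and_not_dvd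
      obtain ⟨i, hi⟩ : ∃ i, i = multiplicity (2 : ℤ) n := ⟨_, rfl⟩
      rw [← hi] at hn'
      have him : i < m := by
        by_contra hcon
        push Not at hcon
        apply hd
        rw [hn']
        exact (pow_dvd_pow 2 hcon).mul_right _
      rw [Set.mem_iUnion₂]
      refine ⟨i, mem_range.2 him, n', ?_, hn'.symm⟩
      rw [hF]
      refine ⟨by omega, ?_, ?_, ?_⟩
      · rw [hn'] at h1
        push_cast at h1
        exact h1
      · rw [← hn']
        exact h2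
      · have h4 : n ∈ Bd M (a * Real.log X + C * Real.log M) := h3
        have h5 : T^[i] n = n' := by
          rw [hn']
          exact T_two_pow i n'
        have h6 := Bd_down h4 h5
        refine Bd_anti ?_ h6
        have h7 : (i : ℝ) ≤ Real.log M := by
          have h8 : (i : ℝ) ≤ m := by exact_mod_cast him.le
          linarith
        have h8 : (C₁ + 2) * Real.log M ≤ C * Real.log M := mul_le_mul_of_nonneg_right hC₁C hlM
        linarith
  have hcount : (E.ncard : ℝ) ≤ ∑ i ∈ range m, ((F i).ncard : ℝ) + (G.ncard : ℝ) := by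
    have hGfin : G.Finite := by
      rw [hG]
      exact (finite_abs X).subset fun n hn => hn.2.1
    have h1 := Set.ncard_le_ncard hsub (Set.Finite.union
      (Set.Finite.biUnion (range m).finite_toSet fun i _ => (hFfin i).image _) hGfin)
    have h2 := h1.trans (Set.ncard_union_le _ _)
    have h3 := Finset.set_ncard_biUnion_le (range m) fun i => (fun n => 2 ^ i * n) '' F i
    have h4 : ∑ i ∈ range m, ((fun n => 2 ^ i * n) '' F i).ncard ≤ ∑ i ∈ range m, (F i).ncard :=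
      sum_le_sum fun i _ => Set.ncard_image_le (hFfin i)
    have h5 : E.ncard ≤ ∑ i ∈ range m, (F i).ncard + G.ncard := by omega
    exact_mod_cast h5
  -- powers of M
  obtain ⟨W, hW⟩ : ∃ W : ℝ, W = M ^ (-min c (1 / 4)) := ⟨_, rfl⟩
  have hW0 : 0 < W := by rw [hW]; positivity
  have hWc : M ^ (-c) ≤ W := by
    rw [hW]
    exact Real.rpow_le_rpow_of_exponent_le hM (neg_le_neg (min_le_left _ _))
  have hW4 : M ^ (-(1 / 4 : ℝ)) ≤ W := by
    rw [hW]
    exact Real.rpow_le_rpow_of_exponent_le hM (neg_le_neg (min_le_right _ _))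
  rw [← hW]
  -- G
  have hGb : (G.ncard : ℝ) ≤ 2 * C₂ * (X * VV Ω z * W) := by
    have h1 := hdiv z X m Ω hz hzX h4m hΩ
    rw [← hG] at h1
    refine h1.trans ?_
    have h2 : 1 / (2 : ℝ) ^ m ≤ 2 * W := by
      refine le_trans ?_ (mul_le_mul_of_nonneg_left hW4 (by norm_num))
      rw [Real.rpow_neg hM0.le, ← div_eq_mul_inv,
        div_le_div_iff₀ (by positivity) (by positivity), one_mul]
      exact hm2
    calc C₂ * (X / 2 ^ m) * VV Ω z = C₂ * X * VV Ω z * (1 / 2 ^ m) := by ring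
      _ ≤ C₂ * X * VV Ω z * (2 * W) := mul_le_mul_of_nonneg_left h2 (by positivity)
      _ = 2 * C₂ * (X * VV Ω z * W) := by ring
  -- the odd part and the others
  have hFb : ∑ i ∈ range m, ((F i).ncard : ℝ) ≤ (C₁ + 2 * C₁ * C₃) * (X * VV Ω z * W) := by
    rcases Nat.eq_zero_or_pos m with h0 | h0
    · rw [h0, range_zero, sum_empty]
      positivity
    · rw [range_eq_Ico, sum_eq_sum_Ico_succ_bot h0]
      have h1 : ((F 0).ncard : ℝ) ≤ C₁ * (X * VV Ω z * W) := by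
        have h2 := hO M X z Ω hM hz hzX hΩ
        have e : F 0 = {n : ℤ | n % 2 = 1 ∧ |(n : ℝ)| ≤ X ∧ Sf Ω z n ∧
            n ∈ Bd M (a * Real.log X + C₁ * Real.log M)} := by
          rw [hF]
          simp only [pow_zero, one_mul]
        rw [e]
        refine h2.trans ?_
        calc C₁ * X * VV Ω z * M ^ (-c) ≤ C₁ * X * VV Ω z * W :=
              mul_le_mul_of_nonneg_left hWc (by positivity)
          _ = C₁ * (X * VV Ω z * W) := by ring
      have h2 : ∑ i ∈ Ico 1 m, ((F i).ncard : ℝ) ≤ 2 * C₁ * C₃ * (X * VV Ω z * W) := by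
        rcases Nat.lt_or_ge 1 m with hm1' | hm1'
        · -- m ≥ 2, so X is large
          have hX256 : 256 ≤ X := by
            have h3 : (2 : ℝ) ^ 2 ≤ 2 ^ m := pow_le_pow_right₀ (by norm_num) hm1'
            have h4 : (4 : ℝ) ≤ M ^ (1 / 4 : ℝ) := by
              norm_num at h3 ⊢
              linarith
            have h5 : (4 : ℝ) ^ 4 ≤ (M ^ (1 / 4 : ℝ)) ^ 4 := pow_le_pow_left₀ (by norm_num) h4 4
            rw [hM4] at h5
            norm_num at h5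
            linarith
          obtain ⟨z', hz2, hzz, hzX', hlz⟩ := sqrt_level hz hzX hX256
          have hVz := hVC z' z Ω hz2 hzz hlz hΩ
          have h3 : ∀ i ∈ Ico 1 m, ((F i).ncard : ℝ) ≤
              2 * C₁ * C₃ * (X * VV Ω z * W) * (1 / 2) ^ i := by
            intro i hi
            rw [mem_Ico] at hi
            have h2i : (2 : ℝ) ^ i ≤ √X := by
              apply Real.le_sqrt_of_sq_le
              calc ((2 : ℝ) ^ i) ^ 2 = 4 ^ i := by rw [← pow_mul, mul_comm, pow_mul]; norm_num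
                _ ≤ 4 ^ m := pow_le_pow_right₀ (by norm_num) hi.2.le
                _ ≤ X := h4m
            have h2i0 : (0 : ℝ) < 2 ^ i := by positivity
            have h4 : (z' : ℝ) ≤ X / 2 ^ i := by
              rw [le_div_iff₀ h2i0]
              calc (z' : ℝ) * 2 ^ i ≤ √X * √X := mul_le_mul hzX' h2i h2i0.le (Real.sqrt_nonneg _)
                _ = X := Real.mul_self_sqrt hX0.le
            have h5 := hO M (X / 2 ^ i) z' (Om2 Ω i) hM hz2 h4 (sys_Om2 hΩ i)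
            have h6 : F i ⊆ {n : ℤ | n % 2 = 1 ∧ |(n : ℝ)| ≤ X / 2 ^ i ∧ Sf (Om2 Ω i) z' n ∧
                n ∈ Bd M (a * Real.log (X / 2 ^ i) + C₁ * Real.log M)} := by
              intro n hn
              rw [hF] at hn
              obtain ⟨h7, h8, h9, h10⟩ := hn
              refine ⟨h7, ?_, Sf_Om2 hzz h9, Bd_anti ?_ h10⟩
              · rw [le_div_iff₀ h2i0, mul_comm]
                rwa [abs_mul, abs_of_nonneg h2i0.le] at h8
              · have h11 : X / 2 ^ i ≤ X := by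
                  apply div_le_self hX0.le
                  exact one_le_pow₀ (by norm_num)
                have h12 := Real.log_le_log (by positivity) h11
                have h13 := mul_le_mul_of_nonneg_left h12 ha0.le
                linarith
            have h7 : (F i).ncard ≤ {n : ℤ | n % 2 = 1 ∧ |(n : ℝ)| ≤ X / 2 ^ i ∧
                Sf (Om2 Ω i) z' n ∧
                n ∈ Bd M (a * Real.log (X / 2 ^ i) + C₁ * Real.log M)}.ncard :=
              Set.ncard_le_ncard h6 ((finite_abs (X / 2 ^ i)).subset fun n hn => hn.2.1)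
            have h8 : ((F i).ncard : ℝ) ≤ C₁ * (X / 2 ^ i) * VV (Om2 Ω i) z' * M ^ (-c) :=
              le_trans (by exact_mod_cast h7) h5
            have h9 : VV (Om2 Ω i) z' ≤ 2 * (C₃ * VV Ω z) :=
              (VV_Om2 hΩ i z').trans (mul_le_mul_of_nonneg_left hVz (by norm_num))
            refine h8.trans ?_
            calc C₁ * (X / 2 ^ i) * VV (Om2 Ω i) z' * M ^ (-c) ≤
                  C₁ * (X / 2 ^ i) * (2 * (C₃ * VV Ω z)) * W := by
                  apply mul_le_mul _ hWc (by positivity) (by positivity)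
                  exact mul_le_mul_of_nonneg_left h9 (by positivity)
              _ = 2 * C₁ * C₃ * (X * VV Ω z * W) * (1 / 2) ^ i := by
                  rw [one_div, inv_pow]
                  ring
          refine (sum_le_sum h3).trans ?_
          rw [← mul_sum]
          exact mul_le_of_le_one_right (by positivity) (sum_half m)
        · rw [Ico_eq_empty (by omega), sum_empty]
          positivity
      rw [zero_add]
      calc _ ≤ C₁ * (X * VV Ω z * W) + 2 * C₁ * C₃ * (X * VV Ω z * W) := add_le_add h1 h2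
        _ = _ := by ring
  have hY : 0 ≤ X * VV Ω z * W := by positivity
  calc (E.ncard : ℝ) ≤ (C₁ + 2 * C₁ * C₃) * (X * VV Ω z * W) + 2 * C₂ * (X * VV Ω z * W) := by
        linarith
    _ ≤ C * (X * VV Ω z * W) := by
        rw [hC]
        nlinarith
    _ = C * X * VV Ω z * W := by ring

end Pool.Agent.Collatz3.PR
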