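import Mathlib
import Pool.Agent.Collatz3.PRMain
import Pool.Agent.MT.Dim

set_option autoImplicit false

/-!
# Tao's theorem in sifted sets: the primes
-/

namespace Pool.Agent.Collatz3.PR

open Finset
open Pool.Agent.Helper90.Straus
open Pool.Agent.Helper14 (T)

theorem sys_zero : Sys 1 (fun _ => {0}) := by
  intro p hp
  refine ⟨?_, by simp, by simpa using hp.one_lt⟩
  intro a ha
  rw [mem_singleton] at ha
  rw [mem_range, ha]
  exact hp.pos

theorem VV_zero_le {z : ℕ} (hz : 2 ≤ z) : VV (fun _ => {0}) z ≤ 1 / Real.log z := by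
  have h1 := Pool.Agent.MT.DimAux.P_pow_le hz 1
  rw [pow_one, pow_one] at h1
  refine le_trans (le_of_eq ?_) h1
  unfold VV g
  apply prod_congr rfl
  intro p _
  simp

theorem prime_Sf {z : ℕ} {n : ℤ} (hn : n.natAbs.Prime) (hz : z ≤ n.natAbs) :
    Sf (fun _ => {0}) z n := by
  intro p hp hpz
  rw [mem_singleton]
  intro h
  have hp0 : (0 : ℤ) < p := by exact_mod_cast hp.pos
  have h1 := Int.emod_nonneg n hp0.ne'
  have h2 : n % p = 0 := by omega
  have h3 : (p : ℤ) ∣ n := Int.dvd_of_emod_eq_zero h2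
  have h4 : p ∣ n.natAbs := Int.natCast_dvd.1 h3
  have h5 := (Nat.prime_dvd_prime_iff_eq hp hn).1 h4
  omega

theorem log_le_four {X : ℝ} (hX : 1 ≤ X) : Real.log X ≤ 4 * X ^ (1 / 4 : ℝ) := by
  have hX0 : 0 < X := by linarith
  have h1 := Real.add_one_le_exp (Real.log X / 4)
  have h2 : Real.exp (Real.log X / 4) = X ^ (1 / 4 : ℝ) := by
    rw [Real.rpow_def_of_pos hX0]
    congr 1
    ring
  rw [h2] at h1
  linarith

theorem card_abs_lt (z : ℕ) : {n : ℤ | n.natAbs < z}.Finite ∧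
    {n : ℤ | n.natAbs < z}.ncard ≤ 2 * z := by
  have h1 : {n : ℤ | n.natAbs < z} ⊆ ((Ioo (-(z : ℤ)) z : Finset ℤ) : Set ℤ) := by
    intro n hn
    have hn : n.natAbs < z := hn
    rw [mem_coe, mem_Ioo]
    omega
  refine ⟨(Finset.finite_toSet _).subset h1, ?_⟩
  have h2 := Set.ncard_le_ncard h1 (Finset.finite_toSet _)
  rw [Set.ncard_coe_finset, Int.card_Ioo] at h2
  omega

/-- Primes and the sieve form. -/
theorem primes_of_main (h : St_Main) : ∃ c : ℝ, 0 < c ∧
    (∀ ε : ℝ, 0 < ε → ∃ C : ℝ, 0 < C ∧ ∀ M : ℝ, 1 ≤ M → ∀ X : ℝ, 2 ≤ X →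
      (Set.ncard {n : ℤ | |(n : ℝ)| ≤ X ∧ n.natAbs.Prime ∧ ∀ j : ℕ,
        (j : ℝ) ≤ (2 / Real.log (4 / 3) + ε) * Real.log X + C * Real.log M →
          M < |((T^[j] n : ℤ) : ℝ)|} : ℝ) ≤ C * (X / Real.log X) * M ^ (-c)) ∧
    (∀ κ : ℕ, ∀ ε : ℝ, 0 < ε → ∃ C : ℝ, 0 < C ∧
      ∀ (M X : ℝ) (z : ℕ) (Ω : ℕ → Finset ℕ), 1 ≤ M → 2 ≤ z → (z : ℝ) ≤ X → Sys κ Ω →
      (Set.ncard {n : ℤ | |(n : ℝ)| ≤ X ∧ Sf Ω z n ∧ ∀ j : ℕ,
        (j : ℝ) ≤ (2 / Real.log (4 / 3) + ε) * Real.log X + C * Real.log M →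
          M < |((T^[j] n : ℤ) : ℝ)|} : ℝ) ≤ C * X * VV Ω z * M ^ (-c)) := by
  obtain ⟨c, hc, h⟩ := h
  refine ⟨min c (1 / 4), lt_min hc (by norm_num), ?_, ?_⟩
  · intro ε hε
    obtain ⟨C₁, hC₁, h⟩ := h 1 ε hε
    obtain ⟨C, hC⟩ : ∃ C : ℝ, C = C₁ * 8 + 64 := ⟨_, rfl⟩
    refine ⟨C, by rw [hC]; positivity, ?_⟩
    intro M hM X hX
    obtain ⟨a, ha⟩ : ∃ a, a = 2 / Real.log (4 / 3) + ε := ⟨_, rfl⟩
    have ha0 : 0 < a := by
      rw [ha]
      have : 0 < Real.log (4 / 3) := Real.log_pos (by norm_num)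
      positivity
    rw [← ha]
    rw [← ha] at h
    have hM0 : 0 < M := by linarith
    have hX0 : 0 < X := by linarith
    have hlX : 0 < Real.log X := Real.log_pos (by linarith)
    have hlM : 0 ≤ Real.log M := Real.log_nonneg hM
    have hC1C : C₁ ≤ C := by rw [hC]; linarith
    have hC0 : 0 < C := by rw [hC]; positivity
    obtain ⟨E, hE⟩ : ∃ E : Set ℤ, E = {n : ℤ | |(n : ℝ)| ≤ X ∧ n.natAbs.Prime ∧ ∀ j : ℕ,
        (j : ℝ) ≤ a * Real.log X + C * Real.log M → M < |((T^[j] n : ℤ) : ℝ)|} := ⟨_, rfl⟩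
    rw [← hE]
    rcases le_or_gt X M with hXM | hXM
    · have h1 : E = ∅ := by
        rw [hE, Set.eq_empty_iff_forall_notMem]
        rintro n ⟨h2, _, h3⟩
        have h4 := h3 0 (by
          push_cast
          positivity)
        simp only [Function.iterate_zero, id_eq] at h4
        linarith
      rw [h1, Set.ncard_empty, Nat.cast_zero]
      positivity
    obtain ⟨W, hW⟩ : ∃ W : ℝ, W = M ^ (-min c (1 / 4)) := ⟨_, rfl⟩
    have hW0 : 0 < W := by rw [hW]; positivity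
    have hWc : M ^ (-c) ≤ W := by
      rw [hW]
      exact Real.rpow_le_rpow_of_exponent_le hM (neg_le_neg (min_le_left _ _))
    have hWX : X ^ (-(1 / 4 : ℝ)) ≤ W := by
      rw [hW]
      have h1 : M ^ (-(1 / 4 : ℝ)) ≤ M ^ (-min c (1 / 4)) :=
        Real.rpow_le_rpow_of_exponent_le hM (neg_le_neg (min_le_right _ _))
      refine le_trans ?_ h1
      exact Real.rpow_le_rpow_of_nonpos hM0 hXM.le (by norm_num)
    rw [← hW]
    -- the level
    obtain ⟨z, hz⟩ : ∃ z : ℕ, z = ⌊√X⌋₊ + 1 := ⟨_, rfl⟩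
    have hz2 : 2 ≤ z := by
      have h1 : 1 ≤ ⌊√X⌋₊ := Nat.le_floor (by
        rw [Nat.cast_one, Real.one_le_sqrt]
        linarith)
      omega
    have hsX : √X * √X = X := Real.mul_self_sqrt hX0.le
    have hsX1 : 1 ≤ √X := by
      rw [Real.one_le_sqrt]
      linarith
    have hzs : (z : ℝ) ≤ √X + 1 := by
      rw [hz]
      push_cast
      have := Nat.floor_le (Real.sqrt_nonneg X)
      linarith
    have hzs' : √X < z := by
      rw [hz]
      push_cast
      exact Nat.lt_floor_add_one _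
    -- the trivial bound for the number of small integers
    have hsmall : (({n : ℤ | n.natAbs < z}.ncard : ℕ) : ℝ) ≤ 4 * √X := by
      have h1 := (card_abs_lt z).2
      have h2 : (({n : ℤ | n.natAbs < z}.ncard : ℕ) : ℝ) ≤ 2 * z := by exact_mod_cast h1
      linarith
    have hsmall2 : 4 * √X ≤ 16 * (X / Real.log X * W) := by
      have h1 := log_le_four (show 1 ≤ X by linarith)
      have h2 : √X = X ^ (1 / 2 : ℝ) := Real.sqrt_eq_rpow X
      have h3 : √X * Real.log X ≤ 4 * (X * X ^ (-(1 / 4 : ℝ))) := by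
        have h4 : X * X ^ (-(1 / 4 : ℝ)) = X ^ (1 / 2 : ℝ) * X ^ (1 / 4 : ℝ) := by
          have h5 : X * X ^ (-(1 / 4 : ℝ)) = X ^ (1 : ℝ) * X ^ (-(1 / 4 : ℝ)) := by
            rw [Real.rpow_one]
          rw [h5, ← Real.rpow_add hX0, ← Real.rpow_add hX0]
          norm_num
        rw [h4, h2]
        calc X ^ (1 / 2 : ℝ) * Real.log X ≤ X ^ (1 / 2 : ℝ) * (4 * X ^ (1 / 4 : ℝ)) :=
              mul_le_mul_of_nonneg_left h1 (by positivity)
          _ = _ := by ring
      have h4 : √X * Real.log X ≤ 4 * (X * W) :=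
        h3.trans (mul_le_mul_of_nonneg_left (mul_le_mul_of_nonneg_left hWX hX0.le) (by norm_num))
      have h5 : 16 * (X / Real.log X * W) = 4 * ((4 * (X * W)) / Real.log X) := by ring
      rw [h5]
      apply mul_le_mul_of_nonneg_left _ (by norm_num)
      rw [le_div_iff₀ hlX]
      exact h4
    have hfin : ∀ Y : ℝ, {n : ℤ | |(n : ℝ)| ≤ Y}.Finite := finite_abs
    rcases lt_or_ge X (z : ℝ) with hzX | hzX
    · -- X is small
      have h1 : E ⊆ {n : ℤ | n.natAbs < z} := by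
        intro n hn
        rw [hE] at hn
        have h2 : ((n.natAbs : ℕ) : ℝ) < z := by
          rw [Nat.cast_natAbs, Int.cast_abs]
          exact lt_of_le_of_lt hn.1 hzX
        show n.natAbs < z
        exact_mod_cast h2
      have h2 := Set.ncard_le_ncard h1 (card_abs_lt z).1
      have h3 : (E.ncard : ℝ) ≤ 4 * √X := le_trans (by exact_mod_cast h2) hsmall
      refine h3.trans (hsmall2.trans ?_)
      have h4 : 0 ≤ X / Real.log X * W := by positivity
      rw [mul_assoc]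
      apply mul_le_mul_of_nonneg_right _ h4
      rw [hC]
      linarith
    · have h1 : E ⊆ {n : ℤ | n.natAbs < z} ∪ {n : ℤ | |(n : ℝ)| ≤ X ∧ Sf (fun _ => {0}) z n ∧
          ∀ j : ℕ, (j : ℝ) ≤ a * Real.log X + C₁ * Real.log M → M < |((T^[j] n : ℤ) : ℝ)|} := by
        intro n hn
        rw [hE] at hn
        obtain ⟨h2, h3, h4⟩ := hn
        rcases lt_or_ge n.natAbs z with h5 | h5
        · left
          exact h5
        · right
          refine ⟨h2, prime_Sf h3 h5, fun j hj => h4 j (hj.trans ?_)⟩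
          have := mul_le_mul_of_nonneg_right hC1C hlM
          linarith
      have h2 := Set.ncard_le_ncard h1 ((card_abs_lt z).1.union
        ((hfin X).subset fun n hn => hn.1))
      have h3 := h2.trans (Set.ncard_union_le _ _)
      have h4 := h M X z (fun _ => {0}) hM hz2 hzX sys_zero
      have h5 := VV_zero_le hz2
      have hlz : 0 < Real.log z := Real.log_pos (by exact_mod_cast (by omega : 1 < z))
      have h6 : 1 / Real.log z ≤ 2 / Real.log X := by
        rw [div_le_div_iff₀ hlz hlX, one_mul]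
        have h7 : Real.log X ≤ Real.log ((z : ℝ) ^ 2) := by
          apply Real.log_le_log hX0
          nlinarith
        rw [Real.log_pow] at h7
        push_cast at h7
        linarith
      have h7 : C₁ * X * VV (fun _ => {0}) z * M ^ (-c) ≤ C₁ * 2 * (X / Real.log X * W) := by
        calc C₁ * X * VV (fun _ => {0}) z * M ^ (-c) ≤ C₁ * X * (2 / Real.log X) * W := by
              apply mul_le_mul _ hWc (by positivity) (by positivity)
              exact mul_le_mul_of_nonneg_left (h5.trans h6) (by positivity)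
          _ = C₁ * 2 * (X / Real.log X * W) := by ring
      have h8 : (E.ncard : ℝ) ≤ 16 * (X / Real.log X * W) + C₁ * 2 * (X / Real.log X * W) := by
        have h9 : (E.ncard : ℝ) ≤ (({n : ℤ | n.natAbs < z}.ncard : ℕ) : ℝ) +
            (({n : ℤ | |(n : ℝ)| ≤ X ∧ Sf (fun _ => {0}) z n ∧ ∀ j : ℕ,
              (j : ℝ) ≤ a * Real.log X + C₁ * Real.log M →
              M < |((T^[j] n : ℤ) : ℝ)|}.ncard : ℕ) : ℝ) := by exact_mod_cast h3
        linarith
      refine h8.trans ?_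
      have h9 : 0 ≤ X / Real.log X * W := by positivity
      rw [hC]
      nlinarith
  · intro κ ε hε
    obtain ⟨C, hC, h⟩ := h κ ε hε
    refine ⟨C, hC, ?_⟩
    intro M X z Ω hM hz hzX hΩ
    refine (h M X z Ω hM hz hzX hΩ).trans ?_
    have hX0 : 0 ≤ X := le_trans (Nat.cast_nonneg z) hzX
    apply mul_le_mul_of_nonneg_left _ (mul_nonneg (mul_nonneg hC.le hX0) (VV_pos hΩ z).le)
    exact Real.rpow_le_rpow_of_exponent_le hM (neg_le_neg (min_le_left _ _))

end Pool.Agent.Collatz3.PR
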