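import Mathlib
import Pool.Agent.Collatz3.PRDefs

set_option autoImplicit false

/-!
# Tao's theorem for primes: Doob's inequality for the words
-/

namespace Pool.Agent.Collatz3.PR

open Finset
open Pool.Agent.Collatz3.Mix (words mem_words sum_words_zero sum_words_succ sum_words_add)
open Pool.Agent.Collatz3.PD
open Pool.Agent.Collatz3.FW

theorem P_words_le1 (I k : ℕ) : P (words I k) ≤ 1 := by
  rw [P_words]
  exact pow_le_one₀ (Z_nonneg I) (Z_le_one I)

theorem P_sdiff_W1 (u : ℝ) (I k : ℕ) : P (words I k \ W1 u I k k) =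
    ∑ w ∈ words I k, if w ∈ W1 u I k k then 0 else (1 / 2 : ℝ) ^ w.sum := by
  unfold P
  rw [← filter_notMem_eq_sdiff, sum_filter]
  apply sum_congr rfl
  intro w _
  split_ifs with h1 <;> rfl

theorem tail1_small {u : ℝ} (hu : 0 < u) (hu1 : u < 1) (I k : ℕ) :
    P (words I k \ W1 u I k k) ≤ 1 / u := by
  have h1 : P (words I k \ W1 u I k k) ≤ 1 := (P_mono sdiff_subset).trans (P_words_le1 I k)
  have h2 : 1 ≤ 1 / u := by
    rw [le_div_iff₀ hu]
    linarith
  linarith

theorem cons_mem_W1 {u : ℝ} (hu : 1 ≤ u) {I k a : ℕ} (ha : a ∈ Icc 1 I) {v : List ℕ}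
    (hv : v ∈ W1 (u * 2 ^ a / 3) I k k) : a :: v ∈ W1 u I (k + 1) (k + 1) := by
  rw [mem_W1] at hv ⊢
  obtain ⟨h1, h2⟩ := hv
  rw [mem_Icc] at ha
  refine ⟨?_, ?_⟩
  · rw [mem_words] at h1 ⊢
    refine ⟨by rw [List.length_cons, h1.1], ?_⟩
    intro i hi
    rcases List.mem_cons.1 hi with h | h
    · rw [h]; exact ha
    · exact h1.2 i h
  · intro i hi
    rcases Nat.eq_zero_or_pos i with h | h
    · subst h
      simp only [pow_zero, List.take_zero, List.sum_nil, mul_one]
      exact hu
    · obtain ⟨j, rfl⟩ := Nat.exists_eq_succ_of_ne_zero h.ne'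
      have h3 := h2 j (by omega)
      rw [Nat.succ_eq_add_one, List.take_succ_cons, List.sum_cons, pow_succ, pow_add]
      have h4 : u * 2 ^ a / 3 * 2 ^ (v.take j).sum * 3 = u * (2 ^ a * 2 ^ (v.take j).sum) := by
        ring
      rw [← h4]
      exact mul_le_mul_of_nonneg_right h3 (by norm_num)

theorem sum_quarter (I : ℕ) : ∑ a ∈ Icc 1 I, (1 / 4 : ℝ) ^ a ≤ 1 / 3 := by
  refine (geom_le I (by norm_num) (by norm_num)).trans ?_
  norm_num

theorem thm_Tail1 : St_Tail1 := by
  intro I k
  induction k with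
  | zero =>
    intro u hu
    rcases lt_or_ge u 1 with h | h
    · exact tail1_small hu h I 0
    · have h1 : words I 0 \ W1 u I 0 0 = ∅ := by
        rw [sdiff_eq_empty_iff_subset]
        intro w hw
        rw [mem_W1]
        refine ⟨hw, fun i hi => ?_⟩
        have h2 : i = 0 := by omega
        subst h2
        simp only [pow_zero, List.take_zero, List.sum_nil, mul_one]
        exact h
      rw [h1]
      unfold P
      rw [sum_empty]
      positivity
  | succ k ih =>
    intro u hu
    rcases lt_or_ge u 1 with h | h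
    · exact tail1_small hu h I (k + 1)
    · rw [P_sdiff_W1, sum_words_succ]
      have h1 : ∀ a ∈ Icc 1 I, ∑ v ∈ words I k,
          (if a :: v ∈ W1 u I (k + 1) (k + 1) then 0 else (1 / 2 : ℝ) ^ (a :: v).sum) ≤
          3 / u * (1 / 4) ^ a := by
        intro a ha
        have h2 := ih (u * 2 ^ a / 3) (by positivity)
        rw [P_sdiff_W1] at h2
        have h3 : ∀ v ∈ words I k,
            (if a :: v ∈ W1 u I (k + 1) (k + 1) then 0 else (1 / 2 : ℝ) ^ (a :: v).sum) ≤
            (1 / 2) ^ a * (if v ∈ W1 (u * 2 ^ a / 3) I k k then 0 else (1 / 2 : ℝ) ^ v.sum) := by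
          intro v _
          by_cases h4 : v ∈ W1 (u * 2 ^ a / 3) I k k
          · rw [if_pos (cons_mem_W1 h ha h4), if_pos h4, mul_zero]
          · rw [if_neg h4]
            split_ifs
            · positivity
            · rw [List.sum_cons, pow_add]
        refine (sum_le_sum h3).trans ?_
        rw [← mul_sum]
        refine (mul_le_mul_of_nonneg_left h2 (by positivity)).trans (le_of_eq ?_)
        have h5 : (1 / 4 : ℝ) ^ a = (1 / 2) ^ a * (1 / 2) ^ a := by
          rw [← mul_pow]
          norm_num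
        rw [h5]
        have h6 : (2 : ℝ) ^ a * (1 / 2) ^ a = 1 := by
          rw [← mul_pow]
          norm_num
        have h7 : (0 : ℝ) < 2 ^ a := by positivity
        field_simp
        nlinarith
      refine (sum_le_sum h1).trans ?_
      rw [← mul_sum]
      have h2 := sum_quarter I
      calc 3 / u * ∑ a ∈ Icc 1 I, (1 / 4 : ℝ) ^ a ≤ 3 / u * (1 / 3) :=
            mul_le_mul_of_nonneg_left h2 (by positivity)
        _ = 1 / u := by ring

end Pool.Agent.Collatz3.PR
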