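import Mathlib
import Pool.Agent.Collatz3.PRTail1
import Pool.Agent.Collatz3.PDProb
import Pool.Agent.Collatz3.PDErr

set_option autoImplicit false

/-!
# Tao's theorem for primes: the last letters are typical
-/

namespace Pool.Agent.Collatz3.PR

open Finset
open Pool.Agent.Collatz3.Mix (words mem_words sum_words_zero sum_words_succ sum_words_add)
open Pool.Agent.Collatz3.PD
open Pool.Agent.Collatz3.FW

/-- The last letters of a random word are a random word. -/
theorem P_drop_le (I k j : ℕ) (hj : j ≤ k) (p : List ℕ → Prop) [DecidablePred p] :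
    P ((words I k).filter fun w => p (w.drop (k - j))) ≤ P ((words I j).filter p) := by
  obtain ⟨l, rfl⟩ := Nat.exists_eq_add_of_le' hj
  rw [Nat.add_sub_cancel]
  unfold P
  rw [sum_filter, sum_words_add, sum_filter]
  have h1 : ∀ v ∈ words I l, ∑ w ∈ words I j,
      (if p ((v ++ w).drop l) then (1 / 2 : ℝ) ^ (v ++ w).sum else 0) =
      (1 / 2) ^ v.sum * ∑ w ∈ words I j, (if p w then (1 / 2 : ℝ) ^ w.sum else 0) := by
    intro v hv
    rw [mul_sum]
    apply sum_congr rfl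
    intro w _
    have h2 : (v ++ w).drop l = w := by
      rw [← words_length hv, List.drop_left]
    rw [h2, List.sum_append, pow_add]
    split_ifs <;> simp
  rw [sum_congr rfl h1, ← sum_mul]
  have h2 : ∑ v ∈ words I l, (1 / 2 : ℝ) ^ v.sum ≤ 1 := P_words_le1 I l
  have h3 : 0 ≤ ∑ w ∈ words I j, (if p w then (1 / 2 : ℝ) ^ w.sum else 0) :=
    sum_nonneg fun w _ => by split_ifs <;> positivity
  nlinarith

theorem P_biUnion_le1 {ι : Type*} [DecidableEq ι] (S : Finset ι) (f : ι → Finset (List ℕ)) :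
    P (S.biUnion f) ≤ ∑ i ∈ S, P (f i) := by
  induction S using Finset.induction_on with
  | empty => simp [P]
  | insert a S ha ih =>
    rw [biUnion_insert, sum_insert ha]
    exact (P_union_le _ _).trans (add_le_add_right ih _)

theorem thm_Tail2 : St_Tail2 := by
  obtain ⟨ρ₁, h10, h11, h1⟩ := upper_tail
  obtain ⟨ρ₂, h20, h21, h2⟩ := lower_tail
  obtain ⟨ρ, hρ⟩ : ∃ ρ, ρ = max ρ₁ ρ₂ := ⟨_, rfl⟩
  have hρ0 : 0 < ρ := by rw [hρ]; exact lt_max_of_lt_left h10
  have hρ1 : ρ < 1 := by rw [hρ]; exact max_lt h11 h21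
  refine ⟨ρ, 2 / (1 - ρ), hρ0, hρ1, by
    have : 0 < 1 - ρ := by linarith
    positivity, ?_⟩
  intro I k R u
  -- the bad words for a given number of letters
  have hj : ∀ j ≤ k, P ((words I k).filter fun w => 201 * j < 100 * (w.drop (k - j)).sum ∨
      100 * (w.drop (k - j)).sum < 199 * j) ≤ 2 * ρ ^ j := by
    intro j hj
    have h3 := P_drop_le I k j hj (fun w => 201 * j < 100 * w.sum ∨ 100 * w.sum < 199 * j)
    refine h3.trans ?_
    rw [filter_or]
    refine (P_union_le _ _).trans ?_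
    have h4 : ρ₁ ^ j ≤ ρ ^ j := pow_le_pow_left₀ h10.le (by rw [hρ]; exact le_max_left _ _) j
    have h5 : ρ₂ ^ j ≤ ρ ^ j := pow_le_pow_left₀ h20.le (by rw [hρ]; exact le_max_right _ _) j
    have h6 := h1 I j
    have h7 := h2 I j
    linarith
  have hsub : W1 u I k k \ W2 u I k R ⊆ (Ico R (k + 1)).biUnion fun j =>
      (words I k).filter fun w => 201 * j < 100 * (w.drop (k - j)).sum ∨
      100 * (w.drop (k - j)).sum < 199 * j := by
    intro w hw
    rw [mem_sdiff, mem_W2] at hw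
    obtain ⟨hw1, hw2⟩ := hw
    have h3 : ¬ ∀ j, R ≤ j → j ≤ k →
      199 * j ≤ 100 * (w.drop (k - j)).sum ∧ 100 * (w.drop (k - j)).sum ≤ 201 * j :=
      fun h => hw2 ⟨hw1, h⟩
    push Not at h3
    obtain ⟨j, hj1, hj2, hj3⟩ := h3
    rw [mem_biUnion]
    refine ⟨j, mem_Ico.2 ⟨hj1, by omega⟩, ?_⟩
    rw [mem_filter]
    refine ⟨(mem_W1.1 hw1).1, ?_⟩
    by_cases h4 : 199 * j ≤ 100 * (w.drop (k - j)).sum
    · left
      exact hj3 h4
    · right
      omega
  refine (P_mono hsub).trans ?_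
  have hun : P ((Ico R (k + 1)).biUnion fun j =>
      (words I k).filter fun w => 201 * j < 100 * (w.drop (k - j)).sum ∨
      100 * (w.drop (k - j)).sum < 199 * j) ≤
      ∑ j ∈ Ico R (k + 1), P ((words I k).filter fun w => 201 * j < 100 * (w.drop (k - j)).sum ∨
      100 * (w.drop (k - j)).sum < 199 * j) := by
    exact P_biUnion_le1 _ _
  refine hun.trans ?_
  have h3 : ∑ j ∈ Ico R (k + 1), P ((words I k).filter fun w =>
      201 * j < 100 * (w.drop (k - j)).sum ∨ 100 * (w.drop (k - j)).sum < 199 * j) ≤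
      ∑ j ∈ Ico R (k + 1), 2 * ρ ^ j := by
    apply sum_le_sum
    intro j hj'
    rw [mem_Ico] at hj'
    exact hj j (by omega)
  refine h3.trans ?_
  rw [← mul_sum]
  have h4 : ∑ j ∈ Ico R (k + 1), ρ ^ j ≤ ρ ^ R / (1 - ρ) := geom_sum_Ico_le_of_lt_one hρ0.le hρ1
  calc 2 * ∑ j ∈ Ico R (k + 1), ρ ^ j ≤ 2 * (ρ ^ R / (1 - ρ)) :=
        mul_le_mul_of_nonneg_left h4 (by norm_num)
    _ = 2 / (1 - ρ) * ρ ^ R := by ring

end Pool.Agent.Collatz3.PR
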