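import Mathlib
import Pool.Agent.Collatz3.PRDefs

set_option autoImplicit false

/-!
Tao's theorem for primes: deviations of the sum of the letters.
-/

namespace Pool.Agent.Collatz3.PR

open Finset
open Pool.Agent.Collatz3.Mix (words mem_words)
open Pool.Agent.Collatz3.PD
open Pool.Agent.Collatz3.FW

private theorem T3_key {τ : ℝ} (hτ : |τ| ≤ 1 / 4) :
    Real.exp τ < 2 ∧ 1 / (Real.exp τ * (2 - Real.exp τ)) ≤ Real.exp (4 * τ ^ 2) := by
  have h1 := Real.abs_exp_sub_one_sub_id_le (x := τ) (by linarith)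
  have h2 : |Real.exp τ - 1| ≤ 5 / 4 * |τ| := by
    have e : Real.exp τ - 1 = (Real.exp τ - 1 - τ) + τ := by ring
    have h3 : τ ^ 2 ≤ 1 / 4 * |τ| := by
      rw [← sq_abs, pow_two]
      exact mul_le_mul_of_nonneg_right hτ (abs_nonneg _)
    calc |Real.exp τ - 1| = |(Real.exp τ - 1 - τ) + τ| := by rw [← e]
      _ ≤ |Real.exp τ - 1 - τ| + |τ| := abs_add_le _ _
      _ ≤ 5 / 4 * |τ| := by linarith
  set x := (Real.exp τ - 1) ^ 2 with hx
  have hx0 : 0 ≤ x := sq_nonneg _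
  have hx1 : x ≤ 25 / 16 * τ ^ 2 := by
    rw [hx, ← sq_abs, ← sq_abs τ]
    calc |Real.exp τ - 1| ^ 2 ≤ (5 / 4 * |τ|) ^ 2 := pow_le_pow_left₀ (abs_nonneg _) h2 2
      _ = 25 / 16 * |τ| ^ 2 := by ring
  have hτ2 : τ ^ 2 ≤ 1 / 16 := by
    rw [← sq_abs]
    calc |τ| ^ 2 ≤ (1 / 4) ^ 2 := pow_le_pow_left₀ (abs_nonneg _) hτ 2
      _ = 1 / 16 := by norm_num
  have hx2 : x ≤ 1 / 2 := by linarith
  have hlt : Real.exp τ < 2 := by
    have h3 := (abs_le.1 h2).2
    linarith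
  have e1 : Real.exp τ * (2 - Real.exp τ) = 1 - x := by
    rw [hx]
    ring
  refine ⟨hlt, ?_⟩
  rw [e1, div_le_iff₀ (by linarith)]
  have h4 : Real.exp (2 * x) ≤ Real.exp (4 * τ ^ 2) := Real.exp_le_exp.2 (by nlinarith [sq_nonneg τ])
  have h5 := Real.add_one_le_exp (2 * x)
  calc (1 : ℝ) ≤ (2 * x + 1) * (1 - x) := by nlinarith
    _ ≤ Real.exp (4 * τ ^ 2) * (1 - x) := mul_le_mul_of_nonneg_right (by linarith) (by linarith)

private theorem T3_mgf (I k : ℕ) {τ : ℝ} (hτ : |τ| ≤ 1 / 4) :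
    ∑ w ∈ words I k, (1 / 2 : ℝ) ^ w.sum * Real.exp (τ * ((w.sum : ℝ) - 2 * k)) ≤
      Real.exp (4 * τ ^ 2) ^ k := by
  obtain ⟨hlt, hkey⟩ := T3_key hτ
  have hpos := Real.exp_pos τ
  have h1 : ∀ w ∈ words I k, (1 / 2 : ℝ) ^ w.sum * Real.exp (τ * ((w.sum : ℝ) - 2 * k)) =
      Real.exp (-2 * τ) ^ k * (Real.exp τ / 2) ^ w.sum := by
    intro w _
    have e1 : τ * ((w.sum : ℝ) - 2 * k) = (k : ℝ) * (-2 * τ) + (w.sum : ℝ) * τ := by ring
    rw [e1, Real.exp_add, Real.exp_nat_mul, Real.exp_nat_mul, div_pow, div_pow, one_pow]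
    ring
  rw [sum_congr rfl h1, ← mul_sum, sum_pow_words, ← mul_pow]
  apply pow_le_pow_left₀
  · apply mul_nonneg (Real.exp_pos _).le
    exact sum_nonneg fun _ _ => by positivity
  · have h2 := geom_le I (y := Real.exp τ / 2) (by positivity) (by linarith)
    refine (mul_le_mul_of_nonneg_left h2 (Real.exp_pos _).le).trans ?_
    refine le_trans (le_of_eq ?_) hkey
    have e2 : Real.exp (-2 * τ) = 1 / (Real.exp τ * Real.exp τ) := by
      rw [← Real.exp_add, one_div, ← Real.exp_neg]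
      congr 1
      ring
    have h3 : 2 - Real.exp τ ≠ 0 := by linarith
    have h4 : 1 - Real.exp τ / 2 ≠ 0 := by linarith
    rw [e2]
    field_simp

theorem thm_Tail3 : St_Tail3 := by
  refine ⟨2 * Real.exp 1, by positivity, ?_⟩
  intro I k hk l hl
  have hk4 : (4 : ℝ) ≤ k := by exact_mod_cast hk
  have hk0 : (0 : ℝ) < k := by linarith
  set q := √(k : ℝ) with hq
  have hq2 : q ^ 2 = k := Real.sq_sqrt hk0.le
  have hq0 : 0 < q := Real.sqrt_pos.2 hk0
  have hq1 : 2 ≤ q := by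
    rw [hq]
    exact Real.le_sqrt_of_sq_le (by linarith)
  set θ := 1 / (2 * q) with hθ
  have hθ0 : 0 < θ := by positivity
  have hθ1 : θ ≤ 1 / 4 := by
    rw [hθ]
    apply div_le_div_of_nonneg_left (by norm_num) (by norm_num)
    linarith
  have hθq : θ * q = 1 / 2 := by
    rw [hθ]
    field_simp
  have hone : Real.exp (4 * θ ^ 2) ^ k = Real.exp 1 := by
    rw [← Real.exp_nat_mul]
    congr 1
    rw [← hq2]
    have : q ^ 2 * (4 * θ ^ 2) = 4 * (θ * q) ^ 2 := by ring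
    rw [this, hθq]
    norm_num
  have hone' : Real.exp (4 * (-θ) ^ 2) ^ k = Real.exp 1 := by
    rw [neg_sq]
    exact hone
  have hup := T3_mgf I k (τ := θ) (by rw [abs_of_pos hθ0]; exact hθ1)
  have hlo := T3_mgf I k (τ := -θ) (by rw [abs_neg, abs_of_pos hθ0]; exact hθ1)
  rw [hone] at hup
  rw [hone'] at hlo
  have hexp : Real.exp (-(l / 2)) = Real.exp (-(θ * (l * q))) := by
    congr 1
    have : θ * (l * q) = l * (θ * q) := by ring
    rw [this, hθq]
    ring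
  have h1 : ∀ w ∈ (words I k).filter (fun w => l * q < |(w.sum : ℝ) - 2 * k|),
      (1 / 2 : ℝ) ^ w.sum ≤ Real.exp (-(l / 2)) *
        ((1 / 2 : ℝ) ^ w.sum * Real.exp (θ * ((w.sum : ℝ) - 2 * k)) +
          (1 / 2 : ℝ) ^ w.sum * Real.exp (-θ * ((w.sum : ℝ) - 2 * k))) := by
    intro w hw
    rw [mem_filter] at hw
    have h2 : 1 ≤ Real.exp (-(l / 2)) * (Real.exp (θ * ((w.sum : ℝ) - 2 * k)) +
        Real.exp (-θ * ((w.sum : ℝ) - 2 * k))) := by
      rw [hexp, mul_add, ← Real.exp_add, ← Real.exp_add]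
      rcases lt_abs.1 hw.2 with h3 | h3
      · have h4 : 0 ≤ -(θ * (l * q)) + θ * ((w.sum : ℝ) - 2 * k) := by
          have := mul_le_mul_of_nonneg_left h3.le hθ0.le
          linarith
        have h5 := Real.one_le_exp h4
        have h6 := (Real.exp_pos (-(θ * (l * q)) + -θ * ((w.sum : ℝ) - 2 * k))).le
        linarith
      · have h4 : 0 ≤ -(θ * (l * q)) + -θ * ((w.sum : ℝ) - 2 * k) := by
          have := mul_le_mul_of_nonneg_left h3.le hθ0.le
          linarith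
        have h5 := Real.one_le_exp h4
        have h6 := (Real.exp_pos (-(θ * (l * q)) + θ * ((w.sum : ℝ) - 2 * k))).le
        linarith
    have h3 : (0 : ℝ) ≤ (1 / 2) ^ w.sum := by positivity
    nlinarith [mul_le_mul_of_nonneg_left h2 h3]
  calc P ((words I k).filter fun w => l * q < |(w.sum : ℝ) - 2 * k|)
      ≤ ∑ w ∈ (words I k).filter (fun w => l * q < |(w.sum : ℝ) - 2 * k|),
        Real.exp (-(l / 2)) *
        ((1 / 2 : ℝ) ^ w.sum * Real.exp (θ * ((w.sum : ℝ) - 2 * k)) +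
          (1 / 2 : ℝ) ^ w.sum * Real.exp (-θ * ((w.sum : ℝ) - 2 * k))) := sum_le_sum h1
    _ ≤ ∑ w ∈ words I k, Real.exp (-(l / 2)) *
        ((1 / 2 : ℝ) ^ w.sum * Real.exp (θ * ((w.sum : ℝ) - 2 * k)) +
          (1 / 2 : ℝ) ^ w.sum * Real.exp (-θ * ((w.sum : ℝ) - 2 * k))) := by
        apply sum_le_sum_of_subset_of_nonneg (filter_subset _ _)
        intro _ _ _
        positivity
    _ = Real.exp (-(l / 2)) *
        (∑ w ∈ words I k, (1 / 2 : ℝ) ^ w.sum * Real.exp (θ * ((w.sum : ℝ) - 2 * k)) +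
          ∑ w ∈ words I k, (1 / 2 : ℝ) ^ w.sum * Real.exp (-θ * ((w.sum : ℝ) - 2 * k))) := by
        rw [← mul_sum, sum_add_distrib]
    _ ≤ Real.exp (-(l / 2)) * (Real.exp 1 + Real.exp 1) :=
        mul_le_mul_of_nonneg_left (add_le_add hup hlo) (Real.exp_pos _).le
    _ = 2 * Real.exp 1 * Real.exp (-(l / 2)) := by ring

end Pool.Agent.Collatz3.PR
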