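import Mathlib
import Pool.Agent.Collatz3.PRErr

set_option autoImplicit false

/-!
Tao's theorem in sifted sets: the average of the singular series over the pairs of words.
-/

namespace Pool.Agent.Collatz3.PR

open Finset
open Pool.Agent.Collatz3.Mix (words mem_words)
open Pool.Agent.Collatz3.PD
open Pool.Agent.Collatz3.FW
open Pool.Agent.Helper90.Straus (Sys g pr mem_pr sum_dyadic)

theorem prs_mono {G G' : Finset (List ℕ)} (h : G ⊆ G') (s k : ℕ) : prs G s k ⊆ prs G' s k := by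
  intro p hp
  unfold prs at hp ⊢
  rw [mem_filter, mem_product] at hp ⊢
  exact ⟨⟨h hp.1.1, h hp.1.2⟩, hp.2⟩

/-- The number of pairs and the second moment. -/
theorem Avg_card (G : Finset (List ℕ)) (s k : ℕ) :
    ((prs G s k).card : ℝ) ≤ 4 ^ s * ∑ x ∈ range (3 ^ k), FG G s k (x : ℤ) ^ 2 := by
  have h1 : ∀ p ∈ prs G s k, (1 : ℝ) =
      ∑ x ∈ range (3 ^ k), if (3 : ℤ) ^ k ∣ 2 ^ s * (x : ℤ) - cw p.1 then (1 : ℝ) else 0 := by
    intro p _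
    exact (Err_S k s (cw p.1)).symm
  have h2 : ((prs G s k).card : ℝ) = ∑ x ∈ range (3 ^ k), ∑ p ∈ prs G s k,
      if (3 : ℤ) ^ k ∣ 2 ^ s * (x : ℤ) - cw p.1 then (1 : ℝ) else 0 := by
    rw [sum_comm, ← sum_congr rfl h1, sum_const, nsmul_eq_mul, mul_one]
  rw [h2, mul_sum]
  apply sum_le_sum
  intro x _
  set A := G.filter (fun w => w.sum = s ∧ (3 : ℤ) ^ k ∣ 2 ^ s * (x : ℤ) - cw w) with hA
  have h3 : FG G s k (x : ℤ) = (A.card : ℝ) * (1 / 2) ^ s := by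
    unfold FG
    rw [sum_const, nsmul_eq_mul]
  rw [← sum_filter, sum_const, nsmul_eq_mul, mul_one, h3, mul_pow]
  have h4 : ((prs G s k).filter fun p => (3 : ℤ) ^ k ∣ 2 ^ s * (x : ℤ) - cw p.1) ⊆ A ×ˢ A := by
    intro p hp
    unfold prs at hp
    rw [mem_filter, mem_filter, mem_product] at hp
    obtain ⟨⟨⟨h5, h6⟩, h7, h8, h9⟩, h10⟩ := hp
    rw [mem_product, hA, mem_filter, mem_filter]
    refine ⟨⟨h5, h7, h10⟩, h6, h8, ?_⟩
    have e : (2 : ℤ) ^ s * (x : ℤ) - cw p.2 = (2 ^ s * (x : ℤ) - cw p.1) + (cw p.1 - cw p.2) := by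
      ring
    rw [e]
    exact dvd_add h10 h9
  have h5 := card_le_card h4
  rw [card_product] at h5
  have h6 : (((prs G s k).filter fun p => (3 : ℤ) ^ k ∣ 2 ^ s * (x : ℤ) - cw p.1).card : ℝ) ≤
      (A.card : ℝ) * A.card := by exact_mod_cast h5
  refine h6.trans (le_of_eq ?_)
  have h7 : (4 : ℝ) ^ s * ((1 / 2) ^ s) ^ 2 = 1 := by
    rw [← pow_mul, mul_comm s 2, pow_mul, ← mul_pow]
    norm_num
  linear_combination (-(A.card : ℝ) ^ 2) * h7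

open Classical in
/-- The pairs whose difference is a difference of two elements of `Ω q`. -/
theorem Avg_Bp {κ : ℕ} {Ω : ℕ → Finset ℕ} {q k : ℕ} (hq : (Ω q).card ≤ κ)
    (T : Finset (List ℕ × List ℕ)) {D : ℝ}
    (hD : ∀ a : ℤ, ((T.filter fun p => (q : ℤ) ∣ dl k p - a).card : ℝ) ≤ D) :
    ((T.filter fun p => Bp Ω q (dl k p)).card : ℝ) ≤ (κ : ℝ) ^ 2 * D := by
  have hD0 : 0 ≤ D := le_trans (Nat.cast_nonneg _) (hD 0)
  have h1 : (T.filter fun p => Bp Ω q (dl k p)) ⊆ (Ω q ×ˢ Ω q).biUnion fun ab =>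
      T.filter fun p => (q : ℤ) ∣ dl k p - ((ab.2 : ℤ) - ab.1) := by
    intro p hp
    rw [mem_filter] at hp
    obtain ⟨h2, a, ha, b, hb, h3⟩ := hp
    rw [mem_biUnion]
    refine ⟨(a, b), mem_product.2 ⟨ha, hb⟩, ?_⟩
    rw [mem_filter]
    refine ⟨h2, ?_⟩
    have e : dl k p - ((b : ℤ) - a) = dl k p + a - b := by ring
    simp only
    rw [e]
    exact h3
  calc ((T.filter fun p => Bp Ω q (dl k p)).card : ℝ)
      ≤ (((Ω q ×ˢ Ω q).biUnion fun ab =>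
        T.filter fun p => (q : ℤ) ∣ dl k p - ((ab.2 : ℤ) - ab.1)).card : ℝ) := by
        exact_mod_cast card_le_card h1
    _ ≤ ∑ ab ∈ Ω q ×ˢ Ω q, ((T.filter fun p => (q : ℤ) ∣ dl k p - ((ab.2 : ℤ) - ab.1)).card : ℝ) := by
        exact_mod_cast card_biUnion_le
    _ ≤ ∑ _ab ∈ Ω q ×ˢ Ω q, D := sum_le_sum fun ab _ => hD _
    _ = ((Ω q).card : ℝ) ^ 2 * D := by
        rw [sum_const, card_product, nsmul_eq_mul]
        push_cast
        ring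
    _ ≤ (κ : ℝ) ^ 2 * D := by
        apply mul_le_mul_of_nonneg_right _ hD0
        apply pow_le_pow_left₀ (by positivity)
        exact_mod_cast hq

open Classical in
/-- One dyadic block. -/
theorem Avg_block {κ : ℕ} {Ω : ℕ → Finset ℕ} (hΩ : Sys κ Ω) {i k : ℕ} (hi : 1 ≤ i)
    (T : Finset (List ℕ × List ℕ)) {D : ℝ} (hD0 : 0 ≤ D)
    (hD : ∀ q : ℕ, 2 ^ i ≤ q → ∀ a : ℤ,
      ((T.filter fun p => (q : ℤ) ∣ dl k p - a).card : ℝ) ≤ D) :
    ∑ p ∈ T, Lb Ω i (dl k p) ≤ 4 / i * ((κ : ℝ) ^ 2 * D) := by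
  have h1 : ∑ p ∈ T, Lb Ω i (dl k p) = ∑ q ∈ pr (2 ^ i) (2 ^ (i + 1)),
      1 / (q : ℝ) * ((T.filter fun p => Bp Ω q (dl k p)).card : ℝ) := by
    unfold Lb
    simp only [sum_filter]
    rw [sum_comm]
    apply sum_congr rfl
    intro q _
    rw [← sum_filter, sum_const, nsmul_eq_mul, mul_comm]
  rw [h1]
  calc ∑ q ∈ pr (2 ^ i) (2 ^ (i + 1)),
      1 / (q : ℝ) * ((T.filter fun p => Bp Ω q (dl k p)).card : ℝ)
      ≤ ∑ q ∈ pr (2 ^ i) (2 ^ (i + 1)), 1 / (q : ℝ) * ((κ : ℝ) ^ 2 * D) := by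
        apply sum_le_sum
        intro q hq
        rw [mem_pr] at hq
        apply mul_le_mul_of_nonneg_left _ (by positivity)
        exact Avg_Bp (hΩ q hq.2).2.1 T (hD q hq.1.1)
    _ = (∑ q ∈ pr (2 ^ i) (2 ^ (i + 1)), 1 / (q : ℝ)) * ((κ : ℝ) ^ 2 * D) := by rw [sum_mul]
    _ ≤ 4 / i * ((κ : ℝ) ^ 2 * D) :=
        mul_le_mul_of_nonneg_right (sum_dyadic hi) (by positivity)

/-- A convergent series. -/
theorem Avg_series (m : ℕ) : ∃ K : ℝ, 0 < K ∧ ∀ i₀ B : ℕ,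
    ∑ i ∈ Ioo i₀ B, ((i : ℝ) + 1) ^ m * (4 / 5) ^ (i / 2) ≤ K := by
  have hs : Summable (fun n : ℕ => (n : ℝ) ^ m * (9 / 10) ^ n) :=
    summable_pow_mul_geometric_of_norm_lt_one m (by norm_num)
  have hs1 := (summable_nat_add_iff 1).2 hs
  have hnn : ∀ n : ℕ, 0 ≤ ((n + 1 : ℕ) : ℝ) ^ m * (9 / 10) ^ (n + 1) := fun n => by positivity
  refine ⟨2 * ∑' n : ℕ, ((n + 1 : ℕ) : ℝ) ^ m * (9 / 10) ^ (n + 1) + 1, ?_, ?_⟩
  · have h0 : 0 ≤ ∑' n : ℕ, ((n + 1 : ℕ) : ℝ) ^ m * (9 / 10) ^ (n + 1) := tsum_nonneg hnn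
    linarith
  · intro i₀ B
    have h1 : ∀ i ∈ Ioo i₀ B, ((i : ℝ) + 1) ^ m * (4 / 5) ^ (i / 2) ≤
        2 * (((i + 1 : ℕ) : ℝ) ^ m * (9 / 10) ^ (i + 1)) := by
      intro i _
      have h2 : (4 / 5 : ℝ) ^ (i / 2) ≤ (9 / 10) ^ (2 * (i / 2)) := by
        rw [pow_mul]
        exact pow_le_pow_left₀ (by norm_num) (by norm_num) _
      have h3 : (9 / 10 : ℝ) ^ (2 * (i / 2)) * (9 / 10) ^ 2 ≤ (9 / 10) ^ (i + 1) := by
        rw [← pow_add]
        exact pow_le_pow_of_le_one (by norm_num) (by norm_num) (by omega)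
      have h4 : (0 : ℝ) ≤ (9 / 10) ^ (2 * (i / 2)) := by positivity
      have h5 : (4 / 5 : ℝ) ^ (i / 2) ≤ 2 * (9 / 10) ^ (i + 1) := by
        norm_num at h3
        linarith
      push_cast
      calc ((i : ℝ) + 1) ^ m * (4 / 5) ^ (i / 2) ≤ ((i : ℝ) + 1) ^ m * (2 * (9 / 10) ^ (i + 1)) :=
            mul_le_mul_of_nonneg_left h5 (by positivity)
        _ = _ := by ring
    refine (sum_le_sum h1).trans ?_
    rw [← mul_sum]
    have h2 := hs1.sum_le_tsum (Ioo i₀ B) (fun n _ => hnn n)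
    linarith

open Classical in
theorem thm_Avg (hChain : St_Chain) (hDiv : St_Div) (hSing : St_Sing) : St_Avg := by
  intro κ hκ
  obtain ⟨C₁, I₁, hC₁, hChain⟩ := hChain
  obtain ⟨C₂, I₂, hC₂, hDiv⟩ := hDiv
  obtain ⟨C₃, hC₃, hSing⟩ := hSing κ hκ
  obtain ⟨K, hK, hser⟩ := Avg_series (8 * κ + 2)
  refine ⟨C₃ * (2 ^ (8 * κ) * C₁ + 4 * ((κ : ℝ) ^ 2 * C₂) * (K + 1)), max I₁ I₂,
    by positivity, ?_⟩
  intro I k s R B z u Ω hI hk hu hRk hΩ hzB hB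
  have hI1 : I₁ ≤ I := (le_max_left _ _).trans hI
  have hI2 : I₂ ≤ I := (le_max_right _ _).trans hI
  have hk0 : (0 : ℝ) < k := by exact_mod_cast hk
  set T := prs (W2 u I k R) s k with hT
  set Y : ℝ := u * 4 ^ s / (k * 3 ^ k) with hY
  have hY0 : 0 ≤ Y := by positivity
  -- the number of pairs
  have hcard : (T.card : ℝ) ≤ C₁ * Y := by
    have h1 : T ⊆ prs (W1 u I k k) s k := by
      apply prs_mono
      unfold W2
      exact filter_subset _ _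
    have h2 : (T.card : ℝ) ≤ ((prs (W1 u I k k) s k).card : ℝ) := by
      exact_mod_cast card_le_card h1
    refine (h2.trans (Avg_card _ s k)).trans ?_
    have h3 := hChain I k s u hI1 hk hu
    calc (4 : ℝ) ^ s * ∑ x ∈ range (3 ^ k), FG (W1 u I k k) s k (x : ℤ) ^ 2
        ≤ 4 ^ s * (C₁ * u / (k * 3 ^ k)) := mul_le_mul_of_nonneg_left h3 (by positivity)
      _ = C₁ * Y := by
          rw [hY]
          ring
  -- the blocks
  have hblock : ∀ i ∈ Ioo (2 * R) B, ∑ p ∈ T, Lb Ω i (dl k p) ≤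
      4 * ((κ : ℝ) ^ 2 * C₂) * Y * ((4 / 5) ^ (i / 2) + (4 / 5) ^ (k / 2)) := by
    intro i hi
    rw [mem_Ioo] at hi
    have hi1 : 1 ≤ i := by omega
    obtain ⟨j, hj⟩ : ∃ j, j = min (i / 2) (k / 2) := ⟨_, rfl⟩
    have hjR : R ≤ j := by omega
    have hjk : 2 * j ≤ k := by omega
    have h1 := Avg_block hΩ hi1 T (k := k) (D := C₂ * Y * (4 / 5) ^ j) (by positivity) (by
      intro q hq a
      have h2 := hDiv I k s R j q a u hI2 hk hu hjR hjk (by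
        calc 3 ^ j ≤ 4 ^ j := Nat.pow_le_pow_left (by norm_num) j
          _ = 2 ^ (2 * j) := by rw [pow_mul]; norm_num
          _ ≤ 2 ^ i := Nat.pow_le_pow_right (by norm_num) (by omega)
          _ ≤ q := hq)
      refine h2.trans (le_of_eq ?_)
      rw [hY]
      ring)
    refine h1.trans ?_
    have h2 : (4 : ℝ) / i ≤ 4 := by
      apply div_le_self (by norm_num)
      exact_mod_cast hi1
    have h3 : (4 / 5 : ℝ) ^ j ≤ (4 / 5) ^ (i / 2) + (4 / 5) ^ (k / 2) := by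
      have n1 : (0 : ℝ) ≤ (4 / 5) ^ (i / 2) := by positivity
      have n2 : (0 : ℝ) ≤ (4 / 5) ^ (k / 2) := by positivity
      rcases le_total (i / 2) (k / 2) with h | h
      · rw [hj, min_eq_left h]
        linarith
      · rw [hj, min_eq_right h]
        linarith
    calc (4 : ℝ) / i * ((κ : ℝ) ^ 2 * (C₂ * Y * (4 / 5) ^ j))
        ≤ 4 * ((κ : ℝ) ^ 2 * (C₂ * Y * ((4 / 5) ^ (i / 2) + (4 / 5) ^ (k / 2)))) := by
          apply mul_le_mul h2 _ (by positivity) (by norm_num)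
          apply mul_le_mul_of_nonneg_left _ (by positivity)
          exact mul_le_mul_of_nonneg_left h3 (by positivity)
      _ = _ := by ring
  -- the sum over the blocks
  have hsum : ∑ i ∈ Ioo (2 * R) B, ((i : ℝ) + 1) ^ (8 * κ + 2) * ∑ p ∈ T, Lb Ω i (dl k p) ≤
      4 * ((κ : ℝ) ^ 2 * C₂) * (K + 1) * Y := by
    have h1 : ∀ i ∈ Ioo (2 * R) B, ((i : ℝ) + 1) ^ (8 * κ + 2) * ∑ p ∈ T, Lb Ω i (dl k p) ≤
        4 * ((κ : ℝ) ^ 2 * C₂) * Y * (((i : ℝ) + 1) ^ (8 * κ + 2) * (4 / 5) ^ (i / 2) +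
          (B : ℝ) ^ (8 * κ + 2) * (4 / 5) ^ (k / 2)) := by
      intro i hi
      have h2 := mul_le_mul_of_nonneg_left (hblock i hi)
        (by positivity : (0 : ℝ) ≤ ((i : ℝ) + 1) ^ (8 * κ + 2))
      refine h2.trans ?_
      rw [mem_Ioo] at hi
      have h3 : ((i : ℝ) + 1) ^ (8 * κ + 2) ≤ (B : ℝ) ^ (8 * κ + 2) := by
        apply pow_le_pow_left₀ (by positivity)
        exact_mod_cast hi.2
      have h4 : (0 : ℝ) ≤ (4 / 5) ^ (k / 2) := by positivity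
      have h5 := mul_le_mul_of_nonneg_right h3 h4
      calc ((i : ℝ) + 1) ^ (8 * κ + 2) * (4 * ((κ : ℝ) ^ 2 * C₂) * Y *
            ((4 / 5) ^ (i / 2) + (4 / 5) ^ (k / 2)))
          = 4 * ((κ : ℝ) ^ 2 * C₂) * Y * (((i : ℝ) + 1) ^ (8 * κ + 2) * (4 / 5) ^ (i / 2) +
            ((i : ℝ) + 1) ^ (8 * κ + 2) * (4 / 5) ^ (k / 2)) := by ring
        _ ≤ _ := by
            apply mul_le_mul_of_nonneg_left _ (by positivity)
            linarith
    refine (sum_le_sum h1).trans ?_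
    rw [← mul_sum, sum_add_distrib, sum_const, nsmul_eq_mul]
    have h2 := hser (2 * R) B
    have h3 : ((Ioo (2 * R) B).card : ℝ) * ((B : ℝ) ^ (8 * κ + 2) * (4 / 5) ^ (k / 2)) ≤ 1 := by
      have h4 : ((Ioo (2 * R) B).card : ℝ) ≤ B := by
        rw [Nat.card_Ioo]
        exact_mod_cast (show B - 2 * R - 1 ≤ B by omega)
      rcases Nat.eq_zero_or_pos B with h0 | h0
      · have h5 : (Ioo (2 * R) B).card = 0 := by
          rw [Nat.card_Ioo]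
          omega
        rw [h5]
        norm_num
      · have hB1 : (1 : ℝ) ≤ B := by exact_mod_cast h0
        calc ((Ioo (2 * R) B).card : ℝ) * ((B : ℝ) ^ (8 * κ + 2) * (4 / 5) ^ (k / 2))
            ≤ (B : ℝ) * ((B : ℝ) ^ (8 * κ + 2) * (4 / 5) ^ (k / 2)) :=
              mul_le_mul_of_nonneg_right h4 (by positivity)
          _ = (B : ℝ) ^ (8 * κ + 3) * (4 / 5) ^ (k / 2) := by ring
          _ ≤ (B : ℝ) ^ (8 * κ + 4) * (4 / 5) ^ (k / 2) := by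
              apply mul_le_mul_of_nonneg_right _ (by positivity)
              exact pow_le_pow_right₀ hB1 (by omega)
          _ ≤ 1 := hB
    calc 4 * ((κ : ℝ) ^ 2 * C₂) * Y * (∑ i ∈ Ioo (2 * R) B, ((i : ℝ) + 1) ^ (8 * κ + 2) *
          (4 / 5) ^ (i / 2) + ((Ioo (2 * R) B).card : ℝ) *
            ((B : ℝ) ^ (8 * κ + 2) * (4 / 5) ^ (k / 2)))
        ≤ 4 * ((κ : ℝ) ^ 2 * C₂) * Y * (K + 1) :=
          mul_le_mul_of_nonneg_left (add_le_add h2 h3) (by positivity)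
      _ = _ := by ring
  -- the pointwise bound
  have hpt : ∑ p ∈ T, sg κ Ω z (dl k p) ≤ ∑ p ∈ T, C₃ * ((((2 * R : ℕ) : ℝ) + 1) ^ (8 * κ) +
      ∑ i ∈ Ioo (2 * R) B, ((i : ℝ) + 1) ^ (8 * κ + 2) * Lb Ω i (dl k p)) :=
    sum_le_sum fun p _ => hSing (2 * R) B z Ω (dl k p) hzB
  have hR1 : (((2 * R : ℕ) : ℝ) + 1) ^ (8 * κ) ≤ 2 ^ (8 * κ) * ((R : ℝ) + 1) ^ (8 * κ) := by
    rw [← mul_pow]
    apply pow_le_pow_left₀ (by positivity)
    push_cast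
    linarith
  have hRone : (1 : ℝ) ≤ ((R : ℝ) + 1) ^ (8 * κ) := by
    apply one_le_pow₀
    linarith [(Nat.cast_nonneg R : (0 : ℝ) ≤ R)]
  calc ∑ p ∈ T, sg κ Ω z (dl k p) ≤ ∑ p ∈ T, C₃ * ((((2 * R : ℕ) : ℝ) + 1) ^ (8 * κ) +
      ∑ i ∈ Ioo (2 * R) B, ((i : ℝ) + 1) ^ (8 * κ + 2) * Lb Ω i (dl k p)) := hpt
    _ = C₃ * ((((2 * R : ℕ) : ℝ) + 1) ^ (8 * κ) * (T.card : ℝ) +
        ∑ i ∈ Ioo (2 * R) B, ((i : ℝ) + 1) ^ (8 * κ + 2) * ∑ p ∈ T, Lb Ω i (dl k p)) := by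
        rw [← mul_sum, sum_add_distrib, sum_const, nsmul_eq_mul, sum_comm]
        congr 2
        · ring
        · exact sum_congr rfl fun i _ => by rw [mul_sum]
    _ ≤ C₃ * (2 ^ (8 * κ) * ((R : ℝ) + 1) ^ (8 * κ) * (C₁ * Y) +
        4 * ((κ : ℝ) ^ 2 * C₂) * (K + 1) * Y) := by
        apply mul_le_mul_of_nonneg_left _ hC₃.le
        apply add_le_add _ hsum
        exact mul_le_mul hR1 hcard (Nat.cast_nonneg _) (by positivity)
    _ ≤ C₃ * (2 ^ (8 * κ) * ((R : ℝ) + 1) ^ (8 * κ) * (C₁ * Y) +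
        4 * ((κ : ℝ) ^ 2 * C₂) * (K + 1) * Y * ((R : ℝ) + 1) ^ (8 * κ)) := by
        apply mul_le_mul_of_nonneg_left _ hC₃.le
        apply add_le_add le_rfl
        exact le_mul_of_one_le_right (by positivity) hRone
    _ = C₃ * (2 ^ (8 * κ) * C₁ + 4 * ((κ : ℝ) ^ 2 * C₂) * (K + 1)) * ((R : ℝ) + 1) ^ (8 * κ) * u *
        4 ^ s / (k * 3 ^ k) := by
        rw [hY]
        ring

end Pool.Agent.Collatz3.PR
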