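import Mathlib
import Pool.Agent.Collatz3.PRErr

set_option autoImplicit false

/-!
# Tao's theorem in sifted sets: the second moment of the words with a given sum
-/

namespace Pool.Agent.Collatz3.PR

open Finset
open Pool.Agent.Collatz3.Mix (words mem_words sum_words_zero sum_words_succ sum_words_add
  cw_append' cw_inj cw_concat)
open Pool.Agent.Collatz3.PD
open Pool.Agent.Collatz3.FW

theorem cut_low {v : List ℕ} {j : ℕ} (hj : j ≤ v.length) (w : List ℕ) (x : ℤ) :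
    (3 : ℤ) ^ j ∣ 2 ^ (v ++ w).sum * x - cw (v ++ w) ↔ (3 : ℤ) ^ j ∣ 2 ^ v.sum * x - cw v := by
  rw [append_key]
  have h1 : (3 : ℤ) ^ j ∣ 3 ^ v.length * cw w := (pow_dvd_pow 3 hj).mul_right _
  rw [dvd_sub_left h1]
  constructor
  · exact three_pow_dvd_of_mul
  · exact fun h => h.mul_left _

/-- Splitting off the last letters. -/
theorem FG_conv {h j : ℕ} (hj : j ≤ h) {G V : Finset (List ℕ)} (hG : ∀ v ∈ G, v.length = h)
    {T : ℕ} (hT : ∀ v ∈ G, v.sum < T) (s : ℕ) (x : ℤ) :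
    FG (cat G V) s j x = ∑ t ∈ range T, if t ≤ s then
      FG G t j x * P (V.filter fun w => w.sum = s - t) else 0 := by
  have h1 : FG (cat G V) s j x = ∑ v ∈ G, if v.sum ≤ s then (1 / 2 : ℝ) ^ v.sum *
      (if (3 : ℤ) ^ j ∣ 2 ^ v.sum * x - cw v then 1 else 0) *
        P (V.filter fun w => w.sum = s - v.sum) else 0 := by
    rw [FG_eq, sum_cat hG]
    apply sum_congr rfl
    intro v hv
    by_cases hs : v.sum ≤ s
    · rw [if_pos hs]
      unfold P
      rw [sum_filter, mul_sum]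
      apply sum_congr rfl
      intro w _
      simp only [cut_low (by rw [hG v hv]; exact hj : j ≤ v.length) w x]
      by_cases h2 : w.sum = s - v.sum
      · rw [if_pos h2, if_pos (by rw [List.sum_append]; omega), List.sum_append, pow_add]
        ring
      · rw [if_neg h2, if_neg (by rw [List.sum_append]; omega), mul_zero]
    · rw [if_neg hs]
      apply sum_eq_zero
      intro w _
      rw [if_neg (by rw [List.sum_append]; omega)]
  rw [h1]
  have h2 : ∀ t ∈ range T, (if t ≤ s then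
      FG G t j x * P (V.filter fun w => w.sum = s - t) else 0) =
      ∑ v ∈ G, if v.sum = t then (if v.sum ≤ s then (1 / 2 : ℝ) ^ v.sum *
      (if (3 : ℤ) ^ j ∣ 2 ^ v.sum * x - cw v then 1 else 0) *
        P (V.filter fun w => w.sum = s - v.sum) else 0) else 0 := by
    intro t _
    rw [FG_eq]
    by_cases ht : t ≤ s
    · rw [if_pos ht, sum_mul]
      apply sum_congr rfl
      intro v _
      by_cases h3 : v.sum = t
      · rw [if_pos h3, if_pos h3, h3, if_pos ht]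
      · rw [if_neg h3, if_neg h3, zero_mul]
    · rw [if_neg ht]
      symm
      apply sum_eq_zero
      intro v _
      by_cases h3 : v.sum = t
      · rw [if_pos h3, if_neg (by omega)]
      · rw [if_neg h3]
  rw [sum_congr rfl h2, sum_comm]
  apply sum_congr rfl
  intro v hv
  rw [sum_ite_eq, if_pos (mem_range.2 (hT v hv))]

theorem words_sum_lt {I n : ℕ} {w : List ℕ} (h : w ∈ words I n) : w.sum < I * n + 1 := by
  rw [mem_words] at h
  have h1 := List.sum_le_card_nsmul w I fun i hi => (h.2 i hi).2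
  rw [h.1, smul_eq_mul, mul_comm] at h1
  omega

/-- Minkowski. -/
theorem mink {ι : Type*} (S : Finset ι) (f g : ι → ℝ) :
    √(∑ i ∈ S, (f i + g i) ^ 2) ≤ √(∑ i ∈ S, f i ^ 2) + √(∑ i ∈ S, g i ^ 2) := by
  rw [Real.sqrt_le_left (by positivity)]
  obtain ⟨a, ha⟩ : ∃ a, a = √(∑ i ∈ S, f i ^ 2) := ⟨_, rfl⟩
  obtain ⟨b, hb⟩ : ∃ b, b = √(∑ i ∈ S, g i ^ 2) := ⟨_, rfl⟩
  have ha2 : a ^ 2 = ∑ i ∈ S, f i ^ 2 := by
    rw [ha]
    exact Real.sq_sqrt (sum_nonneg fun _ _ => sq_nonneg _)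
  have hb2 : b ^ 2 = ∑ i ∈ S, g i ^ 2 := by
    rw [hb]
    exact Real.sq_sqrt (sum_nonneg fun _ _ => sq_nonneg _)
  have ha0 : 0 ≤ a := by rw [ha]; exact Real.sqrt_nonneg _
  have hb0 : 0 ≤ b := by rw [hb]; exact Real.sqrt_nonneg _
  have h1 := sum_mul_sq_le_sq_mul_sq S f g
  rw [← ha2, ← hb2, ← mul_pow] at h1
  have h2 : ∑ i ∈ S, f i * g i ≤ a * b := by
    exact (le_abs_self _).trans (abs_le_of_sq_le_sq h1 (by positivity))
  have h3 : ∑ i ∈ S, (f i + g i) ^ 2 =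
      ∑ i ∈ S, f i ^ 2 + 2 * ∑ i ∈ S, f i * g i + ∑ i ∈ S, g i ^ 2 := by
    rw [mul_sum, ← sum_add_distrib, ← sum_add_distrib]
    apply sum_congr rfl
    intro i _
    ring
  rw [← ha, ← hb, h3, ← ha2, ← hb2]
  nlinarith

/-- The last sum. -/
theorem conv_sum : ∃ C : ℝ, 0 < C ∧ ∀ k : ℕ, 1 ≤ k →
    ∑ i ∈ Icc 1 k, 1 / ((i : ℝ) ^ 2 * √((k : ℝ) - i + 1)) ≤ C / √(k : ℝ) := by
  have hs : Summable fun n : ℕ => 1 / (n : ℝ) ^ (3 / 2 : ℝ) :=
    Real.summable_one_div_nat_rpow.2 (by norm_num)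
  refine ⟨∑' n : ℕ, 1 / (n : ℝ) ^ (3 / 2 : ℝ) + 1, ?_, ?_⟩
  · have : 0 ≤ ∑' n : ℕ, 1 / (n : ℝ) ^ (3 / 2 : ℝ) := tsum_nonneg fun _ => by positivity
    linarith
  intro k hk
  have hk0 : (0 : ℝ) < k := by exact_mod_cast hk
  have h1 : ∀ i ∈ Icc 1 k, 1 / ((i : ℝ) ^ 2 * √((k : ℝ) - i + 1)) ≤
      1 / (i : ℝ) ^ (3 / 2 : ℝ) * (1 / √(k : ℝ)) := by
    intro i hi
    rw [mem_Icc] at hi
    have hi0 : (1 : ℝ) ≤ i := by exact_mod_cast hi.1
    have hik : (i : ℝ) ≤ k := by exact_mod_cast hi.2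
    have e : (i : ℝ) ^ (3 / 2 : ℝ) = i * √(i : ℝ) := by
      rw [Real.sqrt_eq_rpow, show (3 / 2 : ℝ) = 1 + 1 / 2 by norm_num, Real.rpow_add (by linarith),
        Real.rpow_one]
    have h2 : √(k : ℝ) ≤ √(i : ℝ) * √((k : ℝ) - i + 1) := by
      rw [← Real.sqrt_mul (by linarith)]
      apply Real.sqrt_le_sqrt
      nlinarith
    have hsi : 0 < √(i : ℝ) := Real.sqrt_pos.2 (by linarith)
    have hsk : 0 < √(k : ℝ) := Real.sqrt_pos.2 hk0
    have hsd : 0 < √((k : ℝ) - i + 1) := Real.sqrt_pos.2 (by linarith)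
    rw [e, ← one_div_mul_one_div_rev, ← one_div_mul_one_div_rev]
    have h3 : 1 / ((i : ℝ) * √(i : ℝ)) * (1 / √(k : ℝ)) = 1 / ((i : ℝ) * √(i : ℝ) * √(k : ℝ)) := by
      rw [one_div_mul_one_div]
    have h4 : (i : ℝ) * √(i : ℝ) * √(k : ℝ) ≤ (i : ℝ) ^ 2 * √((k : ℝ) - i + 1) := by
      calc (i : ℝ) * √(i : ℝ) * √(k : ℝ) ≤
            (i : ℝ) * √(i : ℝ) * (√(i : ℝ) * √((k : ℝ) - i + 1)) :=
              mul_le_mul_of_nonneg_left h2 (by positivity)
        _ = (i : ℝ) * (√(i : ℝ) * √(i : ℝ)) * √((k : ℝ) - i + 1) := by ring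
        _ = (i : ℝ) ^ 2 * √((k : ℝ) - i + 1) := by
            rw [Real.mul_self_sqrt (by linarith)]
            ring
    have h5 := one_div_le_one_div_of_le (by positivity) h4
    calc 1 / √((k : ℝ) - i + 1) * (1 / (i : ℝ) ^ 2) = 1 / ((i : ℝ) ^ 2 * √((k : ℝ) - i + 1)) := by
          rw [one_div_mul_one_div, mul_comm]
      _ ≤ 1 / ((i : ℝ) * √(i : ℝ) * √(k : ℝ)) := h5
      _ = _ := by
          rw [one_div_mul_one_div, one_div_mul_one_div]
          ring_nf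
  refine (sum_le_sum h1).trans ?_
  rw [← sum_mul, mul_one_div]
  apply div_le_div_of_nonneg_right _ (Real.sqrt_nonneg _)
  have h2 := hs.sum_le_tsum (Icc 1 k) (fun _ _ => by positivity)
  linarith

/-- The sum over all sums, for words with a free last letter. -/
theorem sum_FG_free {I m T : ℕ} (u : ℝ) (x : ℤ) :
    ∑ t ∈ range T, FG (W1 u I (m + 1) m) t m x ≤
      ∑ t ∈ range (I * m + 1), FG (W1 u I m m) t m x := by
  have h1 : ∀ t, FG (W1 u I (m + 1) m) t m x = ∑ t' ∈ range (I * m + 1), if t' ≤ t then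
      FG (W1 u I m m) t' m x * P ((words I 1).filter fun w => w.sum = t - t') else 0 := by
    intro t
    rw [W1_cat u I m 1]
    exact FG_conv le_rfl (fun v hv => words_length (W1_subset _ _ _ _ hv))
      (fun v hv => words_sum_lt (W1_subset _ _ _ _ hv)) t x
  rw [sum_congr rfl fun t _ => h1 t, sum_comm]
  apply sum_le_sum
  intro t' _
  have h2 : ∑ t ∈ range T, (if t' ≤ t then P ((words I 1).filter fun w => w.sum = t - t')
      else 0) ≤ 1 := by
    have h3 : ∑ t ∈ range T, (if t' ≤ t then P ((words I 1).filter fun w => w.sum = t - t')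
      else 0) ≤ P (words I 1) := by
      have h4 : ∀ t ∈ range T, (if t' ≤ t then P ((words I 1).filter fun w => w.sum = t - t')
        else 0) ≤ ∑ w ∈ words I 1, if w.sum + t' = t then (1 / 2 : ℝ) ^ w.sum else 0 := by
        intro t _
        by_cases h : t' ≤ t
        · rw [if_pos h]
          unfold P
          rw [sum_filter]
          apply sum_le_sum
          intro w _
          by_cases h5 : w.sum = t - t'
          · rw [if_pos h5, if_pos (by omega)]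
          · rw [if_neg h5, if_neg (by omega)]
        · rw [if_neg h]
          exact sum_nonneg fun w _ => by split_ifs <;> positivity
      refine (sum_le_sum h4).trans ?_
      rw [sum_comm]
      unfold P
      apply sum_le_sum
      intro w _
      rw [sum_ite_eq]
      split_ifs
      · exact le_rfl
      · positivity
    exact h3.trans (P_words_le I 1)
  have h5 : ∀ t ∈ range T, (if t' ≤ t then
      FG (W1 u I m m) t' m x * P ((words I 1).filter fun w => w.sum = t - t') else 0) =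
      FG (W1 u I m m) t' m x *
        (if t' ≤ t then P ((words I 1).filter fun w => w.sum = t - t') else 0) := by
    intro t _
    split_ifs <;> simp
  rw [sum_congr rfl h5, ← mul_sum]
  exact mul_le_of_le_one_right (FG_nonneg _ _ _ _) h2

/-- The second moment at level `n`. -/
noncomputable def N2 (u : ℝ) (I k s n : ℕ) : ℝ :=
  3 ^ n * ∑ x ∈ range (3 ^ n), FG (W1 u I k n) s n (x : ℤ) ^ 2

theorem N2_nonneg (u : ℝ) (I k s n : ℕ) : 0 ≤ N2 u I k s n :=
  mul_nonneg (by positivity) (sum_nonneg fun _ _ => sq_nonneg _)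

/-- One step of the chain. -/
theorem N2_step {CL CP CE : ℝ} (hCL : 0 < CL) (hCP : 0 < CP) (hCE : 0 < CE) {I : ℕ} {u : ℝ}
    (hu : 1 ≤ u)
    (hL : ∀ r t : ℕ, P ((words I r).filter fun w => w.sum = t) ≤ CL / √((r : ℝ) + 1))
    (hP : ∀ (n : ℕ) (x : ℤ), ∑ t ∈ range (I * n + 1), FG (W1 u I n n) t n x ≤
      CP * ((n : ℝ) + 1) ^ 2 * u / 3 ^ n)
    (hE : ∀ n : ℕ, 1 ≤ n → ∑ t ∈ range (I * n + 1), ∑ x ∈ range (3 ^ n),
      |FG (W1 u I n n) t n (x : ℤ) - FG (W1 u I n (n - 1)) t (n - 1) (x : ℤ) / 3| ≤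
        CE / (n : ℝ) ^ 6) (k s m : ℕ) (hm : m + 1 ≤ k) :
    √(N2 u I k s (m + 1)) ≤ √(N2 u I k s m) +
      CL * √(8 * CP * CE * u) * (1 / (((m + 1 : ℕ) : ℝ) ^ 2 * √((k : ℝ) - (m + 1 : ℕ) + 1))) := by
  obtain ⟨n, hn⟩ : ∃ n, n = m + 1 := ⟨_, rfl⟩
  obtain ⟨l, hl⟩ : ∃ l, k = n + l := ⟨k - n, by omega⟩
  obtain ⟨L, hLd⟩ : ∃ L : ℝ, L = CL / √((l : ℝ) + 1) := ⟨_, rfl⟩
  have hL0 : 0 < L := by rw [hLd]; positivity
  have hn1 : (1 : ℝ) ≤ (n : ℝ) := by exact_mod_cast (by omega : 1 ≤ n)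
  have hn0 : (0 : ℝ) < (n : ℝ) := by linarith
  rw [← hn]
  -- abbreviations
  obtain ⟨a, ha⟩ : ∃ a : ℕ → ℤ → ℝ, a = fun t x => FG (W1 u I n n) t n x := ⟨_, rfl⟩
  obtain ⟨b, hb⟩ : ∃ b : ℕ → ℤ → ℝ, b = fun t x => FG (W1 u I n m) t m x / 3 := ⟨_, rfl⟩
  have ha0 : ∀ t x, 0 ≤ a t x := fun t x => by rw [ha]; exact FG_nonneg _ _ _ _
  have hb0 : ∀ t x, 0 ≤ b t x := fun t x => by
    rw [hb]
    exact div_nonneg (FG_nonneg _ _ _ _) (by norm_num)
  have hν : ∀ x : ℤ, FG (W1 u I k n) s n x = ∑ t ∈ range (I * n + 1), if t ≤ s then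
      a t x * P ((words I l).filter fun w => w.sum = s - t) else 0 := by
    intro x
    rw [hl, W1_cat u I n l, ha]
    exact FG_conv le_rfl (fun v hv => words_length (W1_subset _ _ _ _ hv))
      (fun v hv => words_sum_lt (W1_subset _ _ _ _ hv)) s x
  have hν' : ∀ x : ℤ, FG (W1 u I k m) s m x / 3 = ∑ t ∈ range (I * n + 1), if t ≤ s then
      b t x * P ((words I l).filter fun w => w.sum = s - t) else 0 := by
    intro x
    have e : W1 u I k m = cat (W1 u I n m) (words I l) := by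
      rw [hl, hn, Nat.add_assoc, W1_cat u I m (1 + l), W1_cat u I m 1, words_add]
      ext w
      simp only [cat, mem_image, mem_product, Prod.exists]
      constructor
      · rintro ⟨v, w', ⟨h1, p, q, ⟨h2, h3⟩, rfl⟩, rfl⟩
        exact ⟨v ++ p, q, ⟨⟨v, p, ⟨h1, h2⟩, rfl⟩, h3⟩, by rw [List.append_assoc]⟩
      · rintro ⟨v, q, ⟨⟨v', p, ⟨h1, h2⟩, rfl⟩, h3⟩, rfl⟩
        exact ⟨v', p ++ q, ⟨h1, p, q, ⟨h2, h3⟩, rfl⟩, by rw [List.append_assoc]⟩
    rw [e, FG_conv (show m ≤ n by omega) (fun v hv => words_length (W1_subset _ _ _ _ hv))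
      (fun v hv => words_sum_lt (W1_subset _ _ _ _ hv)) s x, sum_div, hb]
    apply sum_congr rfl
    intro t _
    split_ifs
    · ring
    · simp
  -- the difference
  obtain ⟨D, hD⟩ : ∃ D : ℤ → ℝ, D = fun x => FG (W1 u I k n) s n x - FG (W1 u I k m) s m x / 3 :=
    ⟨_, rfl⟩
  have hDabs : ∀ x : ℤ, |D x| ≤ L * ∑ t ∈ range (I * n + 1), |a t x - b t x| := by
    intro x
    rw [hD]
    simp only
    rw [hν, hν', ← sum_sub_distrib, mul_sum]
    refine (abs_sum_le_sum_abs _ _).trans (sum_le_sum fun t _ => ?_)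
    by_cases ht : t ≤ s
    · rw [if_pos ht, if_pos ht, ← sub_mul, abs_mul, abs_of_nonneg (P_nonneg _), mul_comm]
      apply mul_le_mul_of_nonneg_right _ (abs_nonneg _)
      rw [hLd]
      exact hL l (s - t)
    · rw [if_neg ht, if_neg ht, sub_zero, abs_zero]
      exact mul_nonneg hL0.le (abs_nonneg _)
  -- L1
  have hL1 : ∑ x ∈ range (3 ^ n), |D (x : ℤ)| ≤ L * (CE / (n : ℝ) ^ 6) := by
    have h1 := hE n (by omega)
    have e : n - 1 = m := by omega
    rw [e] at h1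
    have h2 : ∑ x ∈ range (3 ^ n), |D (x : ℤ)| ≤
        ∑ x ∈ range (3 ^ n), L * ∑ t ∈ range (I * n + 1), |a t (x : ℤ) - b t (x : ℤ)| :=
      sum_le_sum fun x _ => hDabs x
    refine h2.trans ?_
    rw [← mul_sum, sum_comm]
    apply mul_le_mul_of_nonneg_left _ hL0.le
    rw [ha, hb]
    exact h1
  -- sup
  have hsup : ∀ x : ℤ, |D x| ≤ L * (2 * CP * ((n : ℝ) + 1) ^ 2 * u / 3 ^ n) := by
    intro x
    refine (hDabs x).trans (mul_le_mul_of_nonneg_left ?_ hL0.le)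
    have h1 : ∑ t ∈ range (I * n + 1), |a t x - b t x| ≤
        ∑ t ∈ range (I * n + 1), a t x + ∑ t ∈ range (I * n + 1), b t x := by
      rw [← sum_add_distrib]
      apply sum_le_sum
      intro t _
      have h2 := ha0 t x
      have h3 := hb0 t x
      rw [abs_le]
      constructor <;> linarith
    have h2 : ∑ t ∈ range (I * n + 1), a t x ≤ CP * ((n : ℝ) + 1) ^ 2 * u / 3 ^ n := by
      rw [ha]
      exact hP n x
    have h3 : ∑ t ∈ range (I * n + 1), b t x ≤ CP * ((n : ℝ) + 1) ^ 2 * u / 3 ^ n := by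
      rw [hb]
      simp only
      rw [← sum_div]
      have h4 := sum_FG_free (T := I * n + 1) u x (I := I) (m := m)
      rw [← hn] at h4
      have h5 := hP m x
      have h6 : (3 : ℝ) ^ n = 3 ^ m * 3 := by rw [hn, pow_succ]
      rw [h6, div_le_iff₀ (by norm_num)]
      refine h4.trans (h5.trans ?_)
      rw [div_mul_eq_mul_div, div_le_div_iff₀ (by positivity) (by positivity)]
      have h7 : ((m : ℝ) + 1) ^ 2 ≤ ((n : ℝ) + 1) ^ 2 := by
        apply pow_le_pow_left₀ (by positivity)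
        rw [hn]
        push_cast
        linarith
      have h8 : CP * ((m : ℝ) + 1) ^ 2 * u ≤ CP * ((n : ℝ) + 1) ^ 2 * u :=
        mul_le_mul_of_nonneg_right (mul_le_mul_of_nonneg_left h7 hCP.le) (by linarith)
      have h9 : (0 : ℝ) < 3 ^ m * 3 := by positivity
      calc CP * ((m : ℝ) + 1) ^ 2 * u * (3 ^ m * 3) ≤
            CP * ((n : ℝ) + 1) ^ 2 * u * (3 ^ m * 3) := mul_le_mul_of_nonneg_right h8 h9.le
        _ = CP * ((n : ℝ) + 1) ^ 2 * u * 3 * 3 ^ m := by ring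
    have h4 : 2 * CP * ((n : ℝ) + 1) ^ 2 * u / 3 ^ n =
        CP * ((n : ℝ) + 1) ^ 2 * u / 3 ^ n + CP * ((n : ℝ) + 1) ^ 2 * u / 3 ^ n := by ring
    rw [h4]
    exact h1.trans (add_le_add h2 h3)
  -- L2
  have hL2 : 3 ^ n * ∑ x ∈ range (3 ^ n), D (x : ℤ) ^ 2 ≤
      (L * √(8 * CP * CE * u) * (1 / (n : ℝ) ^ 2)) ^ 2 := by
    have h1 : ∑ x ∈ range (3 ^ n), D (x : ℤ) ^ 2 ≤
        (L * (2 * CP * ((n : ℝ) + 1) ^ 2 * u / 3 ^ n)) * ∑ x ∈ range (3 ^ n), |D (x : ℤ)| := by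
      rw [mul_sum]
      apply sum_le_sum
      intro x _
      rw [← sq_abs, sq]
      exact mul_le_mul_of_nonneg_right (hsup x) (abs_nonneg _)
    have h2 : 0 ≤ L * (2 * CP * ((n : ℝ) + 1) ^ 2 * u / 3 ^ n) := by positivity
    have h3 := h1.trans (mul_le_mul_of_nonneg_left hL1 h2)
    have h4 : ((n : ℝ) + 1) ^ 2 ≤ 4 * (n : ℝ) ^ 2 := by nlinarith
    have h5 : (L * √(8 * CP * CE * u) * (1 / (n : ℝ) ^ 2)) ^ 2 =
        L ^ 2 * (8 * CP * CE * u) * (1 / (n : ℝ) ^ 4) := by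
      rw [mul_pow, mul_pow, Real.sq_sqrt (by positivity), div_pow, one_pow, ← pow_mul]
    rw [h5]
    calc 3 ^ n * ∑ x ∈ range (3 ^ n), D (x : ℤ) ^ 2 ≤
          3 ^ n * (L * (2 * CP * ((n : ℝ) + 1) ^ 2 * u / 3 ^ n) * (L * (CE / (n : ℝ) ^ 6))) :=
          mul_le_mul_of_nonneg_left h3 (by positivity)
      _ = L ^ 2 * (2 * CP * CE * u) * (((n : ℝ) + 1) ^ 2 / (n : ℝ) ^ 6) := by
          field_simp
      _ ≤ L ^ 2 * (2 * CP * CE * u) * (4 * (n : ℝ) ^ 2 / (n : ℝ) ^ 6) := by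
          apply mul_le_mul_of_nonneg_left _ (by positivity)
          exact div_le_div_of_nonneg_right h4 (by positivity)
      _ = L ^ 2 * (8 * CP * CE * u) * (1 / (n : ℝ) ^ 4) := by
          field_simp
          ring
  -- the projection
  have hproj : 3 ^ n * ∑ x ∈ range (3 ^ n), (FG (W1 u I k m) s m (x : ℤ) / 3) ^ 2 =
      N2 u I k s m := by
    have hper : Per m (fun x => (FG (W1 u I k m) s m x) ^ 2) := by
      intro x t
      have := FG_per (W1 u I k m) s m x t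
      simp only
      rw [this]
    have h1 := A_of_per (show m ≤ n by omega) hper
    unfold A S at h1
    rw [div_eq_div_iff (by positivity) (by positivity)] at h1
    have h2 : (3 : ℝ) ^ n = 3 ^ m * 3 := by rw [hn, pow_succ]
    unfold N2
    simp only [div_pow]
    rw [← sum_div]
    rw [h2] at h1 ⊢
    have h3 : (0 : ℝ) < 3 ^ m := by positivity
    have h4 : (∑ x ∈ range (3 ^ n), FG (W1 u I k m) s m (x : ℤ) ^ 2) =
        3 * ∑ x ∈ range (3 ^ m), FG (W1 u I k m) s m (x : ℤ) ^ 2 := by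
      have h5 : (∑ x ∈ range (3 ^ n), FG (W1 u I k m) s m (x : ℤ) ^ 2) * 3 ^ m =
        (3 * ∑ x ∈ range (3 ^ m), FG (W1 u I k m) s m (x : ℤ) ^ 2) * 3 ^ m := by
        rw [h1]
        ring
      exact mul_right_cancel₀ h3.ne' h5
    rw [h4]
    ring
  have hm1 := mink (range (3 ^ n)) (fun x => √(3 ^ n) * (FG (W1 u I k m) s m (x : ℤ) / 3))
    (fun x => √(3 ^ n) * D (x : ℤ))
  have hs3 : √((3 : ℝ) ^ n) ^ 2 = 3 ^ n := Real.sq_sqrt (by positivity)
  simp only [← mul_add, mul_pow, hs3, ← mul_sum] at hm1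
  have e1 : ∀ x : ℕ, FG (W1 u I k m) s m (x : ℤ) / 3 + D (x : ℤ) = FG (W1 u I k n) s n (x : ℤ) := by
    intro x
    rw [hD]
    ring
  simp only [e1] at hm1
  rw [hproj] at hm1
  have h6 : √(3 ^ n * ∑ x ∈ range (3 ^ n), D (x : ℤ) ^ 2) ≤
      L * √(8 * CP * CE * u) * (1 / (n : ℝ) ^ 2) := by
    rw [Real.sqrt_le_left (by positivity)]
    exact hL2
  have h7 : CL * √(8 * CP * CE * u) * (1 / ((n : ℝ) ^ 2 * √((k : ℝ) - (n : ℝ) + 1))) =
      L * √(8 * CP * CE * u) * (1 / (n : ℝ) ^ 2) := by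
    have e2 : (k : ℝ) - n + 1 = (l : ℝ) + 1 := by
      rw [hl]
      push_cast
      ring
    rw [e2, hLd]
    field_simp
  rw [h7]
  exact hm1.trans (add_le_add_right h6 _)

theorem thm_Chain (hL : St_Loc) (hP : St_Pt) (hE : St_Err) : St_Chain := by
  obtain ⟨CL, hCL, hL⟩ := hL
  obtain ⟨CP, hCP, hP⟩ := hP
  obtain ⟨CE, I₀, hCE, hE⟩ := hE
  obtain ⟨CS, hCS, hS⟩ := conv_sum
  obtain ⟨K, hK⟩ : ∃ K : ℝ, K = CL * (1 + √(8 * CP * CE) * CS) := ⟨_, rfl⟩
  have hK0 : 0 < K := by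
    rw [hK]
    positivity
  refine ⟨K ^ 2, I₀, by positivity, ?_⟩
  intro I k s u hI hk hu
  have hk0 : (0 : ℝ) < k := by exact_mod_cast hk
  have hu0 : 0 < u := by linarith
  have hchain : ∀ n ≤ k, √(N2 u I k s n) ≤ √(N2 u I k s 0) +
      CL * √(8 * CP * CE * u) * ∑ i ∈ Icc 1 n, 1 / ((i : ℝ) ^ 2 * √((k : ℝ) - i + 1)) := by
    intro n
    induction n with
    | zero =>
      intro _
      simp
    | succ n ih =>
      intro hn
      have h1 := ih (by omega)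
      have h2 := N2_step hCL hCP hCE (I := I) hu (hL I) (fun n x => hP I n u hu x)
        (fun n hn => hE I n u hI hn hu) k s n hn
      rw [sum_Icc_succ_top (by omega), mul_add]
      linarith
  have h0 : √(N2 u I k s 0) ≤ CL / √(k : ℝ) := by
    have h1 : FG (W1 u I k 0) s 0 ((0 : ℕ) : ℤ) ≤ CL / √((k : ℝ) + 1) := by
      refine le_trans ?_ (hL I k s)
      unfold FG P
      have h2 : ∀ w ∈ (W1 u I k 0).filter (fun w => w.sum = s ∧
          (3 : ℤ) ^ 0 ∣ 2 ^ s * ((0 : ℕ) : ℤ) - cw w), (1 / 2 : ℝ) ^ s = (1 / 2) ^ w.sum := by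
        intro w hw
        rw [(mem_filter.1 hw).2.1]
      rw [sum_congr rfl h2]
      apply sum_le_sum_of_subset_of_nonneg
      · intro w hw
        rw [mem_filter] at hw ⊢
        exact ⟨W1_subset _ _ _ _ hw.1, hw.2.1⟩
      · intro _ _ _
        positivity
    have h2 : N2 u I k s 0 = FG (W1 u I k 0) s 0 ((0 : ℕ) : ℤ) ^ 2 := by
      unfold N2
      simp
    rw [h2, Real.sqrt_sq (FG_nonneg _ _ _ _)]
    refine h1.trans ?_
    apply div_le_div_of_nonneg_left hCL.le (Real.sqrt_pos.2 hk0)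
    exact Real.sqrt_le_sqrt (by linarith)
  have h1 := hchain k le_rfl
  have h2 := hS k hk
  have h3 : √(N2 u I k s k) ≤ K * √(u / k) := by
    have e1 : √(8 * CP * CE * u) = √(8 * CP * CE) * √u := Real.sqrt_mul (by positivity) u
    have e2 : √(u / k) = √u / √(k : ℝ) := Real.sqrt_div hu0.le _
    have hsu : 1 ≤ √u := by
      rw [Real.one_le_sqrt]
      exact hu
    have h4 : CL * √(8 * CP * CE * u) * ∑ i ∈ Icc 1 k, 1 / ((i : ℝ) ^ 2 * √((k : ℝ) - i + 1)) ≤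
        CL * √(8 * CP * CE * u) * (CS / √(k : ℝ)) :=
      mul_le_mul_of_nonneg_left h2 (by positivity)
    have h5 : CL / √(k : ℝ) ≤ CL * (√u / √(k : ℝ)) := by
      rw [mul_div_assoc']
      apply div_le_div_of_nonneg_right _ (Real.sqrt_nonneg _)
      nlinarith
    have h6 : CL * √(8 * CP * CE * u) * (CS / √(k : ℝ)) =
        CL * (√(8 * CP * CE) * CS) * (√u / √(k : ℝ)) := by
      rw [e1]
      ring
    rw [e2, hK]
    calc √(N2 u I k s k) ≤ CL * (√u / √(k : ℝ)) + CL * (√(8 * CP * CE) * CS) * (√u / √(k : ℝ)) := by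
          linarith
      _ = CL * (1 + √(8 * CP * CE) * CS) * (√u / √(k : ℝ)) := by ring
  have h4 : N2 u I k s k ≤ (K * √(u / k)) ^ 2 := by
    have h5 := pow_le_pow_left₀ (Real.sqrt_nonneg _) h3 2
    rwa [Real.sq_sqrt (N2_nonneg _ _ _ _ _)] at h5
  rw [mul_pow, Real.sq_sqrt (by positivity)] at h4
  unfold N2 at h4
  rw [le_div_iff₀ (by positivity)]
  calc (∑ x ∈ range (3 ^ k), FG (W1 u I k k) s k (x : ℤ) ^ 2) * (k * 3 ^ k) =
        (3 ^ k * ∑ x ∈ range (3 ^ k), FG (W1 u I k k) s k (x : ℤ) ^ 2) * k := by ring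
    _ ≤ (K ^ 2 * (u / k)) * k := mul_le_mul_of_nonneg_right h4 hk0.le
    _ = K ^ 2 * u := by field_simp

end Pool.Agent.Collatz3.PR
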