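import Mathlib
import Pool.Agent.Collatz3.PRChain

set_option autoImplicit false

/-!
# Tao's theorem in sifted sets: pairs of words whose difference is in a given class
-/

namespace Pool.Agent.Collatz3.PR

open Finset
open Pool.Agent.Collatz3.Mix (words mem_words sum_words_zero sum_words_succ sum_words_add
  cw_append' cw_inj cw_concat cw_cons)
open Pool.Agent.Collatz3.PD
open Pool.Agent.Collatz3.FW

theorem cw_lt_aux (w : List ℕ) (h : ∀ i ∈ w, 1 ≤ i) :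
    2 ^ w.length * cw w + 2 ^ (w.length + w.sum) ≤ 3 ^ w.length * 2 ^ w.sum := by
  induction w with
  | nil => simp [cw]
  | cons i w ih =>
    have h1 := ih fun j hj => h j (List.mem_cons_of_mem _ hj)
    have hi : 1 ≤ i := h i List.mem_cons_self
    rw [cw_cons, List.length_cons, List.sum_cons]
    obtain ⟨j, rfl⟩ := Nat.exists_eq_add_of_le hi
    obtain ⟨L, hL⟩ : ∃ L, L = 2 ^ w.length := ⟨_, rfl⟩
    obtain ⟨S, hS⟩ : ∃ S, S = 2 ^ w.sum := ⟨_, rfl⟩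
    obtain ⟨J, hJ⟩ : ∃ J, J = 2 ^ j := ⟨_, rfl⟩
    have hJ1 : 1 ≤ J := by rw [hJ]; exact Nat.one_le_two_pow
    rw [pow_add, ← hL, ← hS] at h1
    have e1 : 2 ^ (w.length + 1) * (3 * cw w + 2 ^ w.sum) +
        2 ^ (w.length + 1 + (1 + j + w.sum)) = 6 * (L * cw w) + 2 * (L * S) + 4 * (J * (L * S)) := by
      rw [hL, hS, hJ]
      ring
    have e2 : 3 ^ (w.length + 1) * 2 ^ (1 + j + w.sum) = 6 * J * (3 ^ w.length * S) := by
      rw [hS, hJ]
      ring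
    rw [e1, e2]
    have h2 : 6 * J * (L * cw w + L * S) ≤ 6 * J * (3 ^ w.length * S) := Nat.mul_le_mul_left _ h1
    have h3 : 6 * (L * cw w) ≤ 6 * J * (L * cw w) := Nat.mul_le_mul_right _ (by omega)
    have h4 : 2 * (L * S) ≤ 2 * (J * (L * S)) :=
      Nat.mul_le_mul_left _ (Nat.le_mul_of_pos_left _ hJ1)
    nlinarith

/-- The constants of the last letters are small. -/
theorem cw_lt_pow {w : List ℕ} {j q : ℕ} (hw : w.length = j) (h : ∀ i ∈ w, 1 ≤ i)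
    (hs : 100 * w.sum ≤ 201 * j) (hq : 3 ^ j ≤ q) : cw w < 3 ^ j * q := by
  have h1 := cw_lt_aux w h
  rw [hw] at h1
  have h2 : 2 ^ (j + w.sum) ≥ 1 := Nat.one_le_two_pow
  have h3 : 2 ^ w.sum ≤ 6 ^ j := by
    have h4 : (2 ^ w.sum) ^ 2 ≤ (6 ^ j) ^ 2 := by
      calc (2 ^ w.sum) ^ 2 = 2 ^ (2 * w.sum) := by rw [← pow_mul, mul_comm]
        _ ≤ 2 ^ (5 * j) := Nat.pow_le_pow_right (by norm_num) (by omega)
        _ = 32 ^ j := by rw [pow_mul]; norm_num
        _ ≤ 36 ^ j := Nat.pow_le_pow_left (by norm_num) j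
        _ = (6 ^ j) ^ 2 := by rw [← pow_mul, mul_comm, pow_mul]; norm_num
    exact (Nat.pow_le_pow_iff_left (by norm_num)).1 h4
  have h5 : 2 ^ j * cw w < 2 ^ j * (3 ^ j * q) := by
    calc 2 ^ j * cw w < 3 ^ j * 2 ^ w.sum := by omega
      _ ≤ 3 ^ j * 6 ^ j := Nat.mul_le_mul_left _ h3
      _ = 2 ^ j * (3 ^ j * 3 ^ j) := by
          rw [show (6 : ℕ) = 2 * 3 by norm_num, mul_pow]
          ring
      _ ≤ 2 ^ j * (3 ^ j * q) := Nat.mul_le_mul_left _ (Nat.mul_le_mul_left _ hq)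
  exact Nat.lt_of_mul_lt_mul_left h5

theorem exists_class (m l : ℕ) (c : ℤ) : ∃ y ∈ range (3 ^ l), (3 : ℤ) ^ l ∣ 2 ^ m * (y : ℤ) - c := by
  have hcop : IsCoprime ((2 : ℤ) ^ m) (3 ^ l) := IsCoprime.pow (by norm_num)
  obtain ⟨a, b, hab⟩ := hcop
  have hp0 : (0 : ℤ) < 3 ^ l := by positivity
  have h3 : ((3 ^ l : ℕ) : ℤ) = 3 ^ l := by push_cast; rfl
  refine ⟨((c * a) % 3 ^ l).toNat, ?_, ?_⟩
  · rw [mem_range]
    have h1 := Int.emod_lt_of_pos (c * a) hp0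
    have h2 := Int.emod_nonneg (c * a) hp0.ne'
    omega
  · rw [Int.toNat_of_nonneg (Int.emod_nonneg _ hp0.ne'), Int.emod_def]
    refine ⟨-(c * b) - 2 ^ m * (c * a / 3 ^ l), ?_⟩
    linear_combination c * hab

/-- The first parts. -/
theorem first_pairs {C : ℝ} {I₀ : ℕ} (hC : ∀ (I k s : ℕ) (u : ℝ), I₀ ≤ I → 1 ≤ k → 1 ≤ u →
    ∑ x ∈ range (3 ^ k), FG (W1 u I k k) s k (x : ℤ) ^ 2 ≤ C * u / (k * 3 ^ k))
    {I l : ℕ} {u : ℝ} (hI : I₀ ≤ I) (hl : 1 ≤ l) (hu : 1 ≤ u) {s t t' : ℕ} (ht : t ≤ s)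
    (ht' : t' ≤ s) :
    ((((W1 u I l l) ×ˢ (W1 u I l l)).filter fun p => p.1.sum + t = s ∧ p.2.sum + t' = s ∧
      (3 : ℤ) ^ l ∣ 2 ^ t * cw p.1 - 2 ^ t' * cw p.2).card : ℝ) ≤
      4 ^ s * (1 / 2) ^ t * (1 / 2) ^ t' * (C * u / (l * 3 ^ l)) := by
  classical
  obtain ⟨V, hV⟩ : ∃ V : ℕ → ℕ → Finset (List ℕ), V = fun (r y : ℕ) =>
    (W1 u I l l).filter fun v => v.sum = r ∧ (3 : ℤ) ^ l ∣ 2 ^ r * (y : ℤ) - cw v := ⟨_, rfl⟩
  have hFG : ∀ r y, ((V r y).card : ℝ) = 2 ^ r * FG (W1 u I l l) r l (y : ℤ) := by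
    intro r y
    unfold FG
    rw [sum_const, nsmul_eq_mul, hV]
    have : (2 : ℝ) ^ r * (1 / 2) ^ r = 1 := by
      rw [← mul_pow]
      norm_num
    linear_combination (-(((W1 u I l l).filter fun v => v.sum = r ∧
      (3 : ℤ) ^ l ∣ 2 ^ r * (y : ℤ) - cw v).card : ℝ)) * this
  have hsub : (((W1 u I l l) ×ˢ (W1 u I l l)).filter fun p => p.1.sum + t = s ∧
      p.2.sum + t' = s ∧ (3 : ℤ) ^ l ∣ 2 ^ t * cw p.1 - 2 ^ t' * cw p.2) ⊆
      (range (3 ^ l)).biUnion fun y => V (s - t) y ×ˢ V (s - t') y := by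
    rintro ⟨v, v'⟩ hp
    rw [mem_filter, mem_product] at hp
    obtain ⟨⟨h1, h2⟩, h3, h4, h5⟩ := hp
    simp only at h1 h2 h3 h4 h5
    obtain ⟨y, hy, hy2⟩ := exists_class (s - t) l (cw v : ℤ)
    rw [mem_biUnion]
    refine ⟨y, hy, ?_⟩
    rw [mem_product, hV, mem_filter, mem_filter]
    refine ⟨⟨h1, by show v.sum = s - t; omega, hy2⟩, ⟨h2, by show v'.sum = s - t'; omega, ?_⟩⟩
    have h6 : (3 : ℤ) ^ l ∣ 2 ^ t' * (2 ^ (s - t') * (y : ℤ) - cw v') := by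
      have e1 : (2 : ℤ) ^ t' * 2 ^ (s - t') = 2 ^ s := by rw [← pow_add]; congr 1; omega
      have e2 : (2 : ℤ) ^ t * 2 ^ (s - t) = 2 ^ s := by rw [← pow_add]; congr 1; omega
      have e3 : 2 ^ t' * (2 ^ (s - t') * (y : ℤ) - cw v') =
          2 ^ t * (2 ^ (s - t) * (y : ℤ) - cw v) + (2 ^ t * cw v - 2 ^ t' * cw v') := by
        linear_combination (y : ℤ) * e1 - (y : ℤ) * e2
      rw [e3]
      exact dvd_add (hy2.mul_left _) h5
    exact three_pow_dvd_of_mul h6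
  have h1 := (card_le_card hsub).trans card_biUnion_le
  have h2 : ((((W1 u I l l) ×ˢ (W1 u I l l)).filter fun p => p.1.sum + t = s ∧
      p.2.sum + t' = s ∧ (3 : ℤ) ^ l ∣ 2 ^ t * cw p.1 - 2 ^ t' * cw p.2).card : ℝ) ≤
      ∑ y ∈ range (3 ^ l), ((V (s - t) y ×ˢ V (s - t') y).card : ℝ) := by exact_mod_cast h1
  refine h2.trans ?_
  have h3 : ∀ y ∈ range (3 ^ l), ((V (s - t) y ×ˢ V (s - t') y).card : ℝ) ≤
      4 ^ s * (1 / 2) ^ t * (1 / 2) ^ t' * ((FG (W1 u I l l) (s - t) l (y : ℤ) ^ 2 +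
        FG (W1 u I l l) (s - t') l (y : ℤ) ^ 2) / 2) := by
    intro y _
    rw [card_product, Nat.cast_mul, hFG, hFG]
    have e1 : (2 : ℝ) ^ (s - t) = 2 ^ s * (1 / 2) ^ t := by
      obtain ⟨r, rfl⟩ := Nat.exists_eq_add_of_le ht
      have : (2 : ℝ) ^ t * (1 / 2) ^ t = 1 := by rw [← mul_pow]; norm_num
      rw [Nat.add_sub_cancel_left, pow_add]
      linear_combination (-(2 : ℝ) ^ r) * this
    have e2 : (2 : ℝ) ^ (s - t') = 2 ^ s * (1 / 2) ^ t' := by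
      obtain ⟨r, rfl⟩ := Nat.exists_eq_add_of_le ht'
      have : (2 : ℝ) ^ t' * (1 / 2) ^ t' = 1 := by rw [← mul_pow]; norm_num
      rw [Nat.add_sub_cancel_left, pow_add]
      linear_combination (-(2 : ℝ) ^ r) * this
    have e3 : (4 : ℝ) ^ s = 2 ^ s * 2 ^ s := by rw [← mul_pow]; norm_num
    rw [e1, e2, e3]
    obtain ⟨a, ha⟩ : ∃ a, a = FG (W1 u I l l) (s - t) l (y : ℤ) := ⟨_, rfl⟩
    obtain ⟨b, hb⟩ : ∃ b, b = FG (W1 u I l l) (s - t') l (y : ℤ) := ⟨_, rfl⟩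
    rw [← ha, ← hb]
    have h4 : a * b ≤ (a ^ 2 + b ^ 2) / 2 := by nlinarith [sq_nonneg (a - b)]
    calc 2 ^ s * (1 / 2) ^ t * a * (2 ^ s * (1 / 2) ^ t' * b) =
          2 ^ s * 2 ^ s * (1 / 2) ^ t * (1 / 2) ^ t' * (a * b) := by ring
      _ ≤ 2 ^ s * 2 ^ s * (1 / 2) ^ t * (1 / 2) ^ t' * ((a ^ 2 + b ^ 2) / 2) :=
          mul_le_mul_of_nonneg_left h4 (by positivity)
  refine (sum_le_sum h3).trans ?_
  rw [← mul_sum]
  apply mul_le_mul_of_nonneg_left _ (by positivity)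
  rw [← sum_div, sum_add_distrib]
  have h4 := hC I l (s - t) u hI hl hu
  have h5 := hC I l (s - t') u hI hl hu
  linarith

theorem Div_num (j t : ℕ) (h : 199 * j ≤ 100 * t) : (3 : ℝ) ^ j * (1 / 2) ^ t ≤ (756 / 1000) ^ j := by
  have h1 : ((3 : ℝ) ^ j * (1 / 2) ^ t) ^ 100 ≤ ((756 / 1000) ^ j) ^ 100 := by
    calc ((3 : ℝ) ^ j * (1 / 2) ^ t) ^ 100 = (3 ^ 100) ^ j * (1 / 2) ^ (100 * t) := by
          rw [mul_pow, ← pow_mul, ← pow_mul, ← pow_mul, mul_comm j 100, mul_comm t 100]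
      _ ≤ (3 ^ 100) ^ j * (1 / 2) ^ (199 * j) := by
          apply mul_le_mul_of_nonneg_left _ (by positivity)
          exact pow_le_pow_of_le_one (by norm_num) (by norm_num) h
      _ = (3 ^ 100 * (1 / 2) ^ 199) ^ j := by rw [mul_pow, ← pow_mul (1 / 2 : ℝ) 199 j]
      _ ≤ ((756 / 1000) ^ 100) ^ j := by
          apply pow_le_pow_left₀ (by positivity)
          norm_num
      _ = ((756 / 1000) ^ j) ^ 100 := by rw [← pow_mul, ← pow_mul, mul_comm]
  exact le_of_pow_le_pow_left₀ (by norm_num) (by positivity) h1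

theorem Div_num2 (j : ℕ) : ((j : ℝ) + 1) * (756 / 1000) ^ j ≤ 18 * (4 / 5) ^ j := by
  have h1 := one_add_mul_le_pow (show (-2 : ℝ) ≤ 44 / 756 by norm_num) j
  have h2 : (4 / 5 : ℝ) ^ j = (1 + 44 / 756) ^ j * (756 / 1000) ^ j := by
    rw [← mul_pow]
    norm_num
  rw [h2]
  have h3 : (j : ℝ) + 1 ≤ 18 * (1 + 44 / 756) ^ j := by
    have h4 : (0 : ℝ) ≤ j := Nat.cast_nonneg j
    nlinarith
  calc ((j : ℝ) + 1) * (756 / 1000) ^ j ≤ (18 * (1 + 44 / 756) ^ j) * (756 / 1000) ^ j :=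
        mul_le_mul_of_nonneg_right h3 (by positivity)
    _ = _ := by ring

theorem take_mem_W1 {u : ℝ} {I k j : ℕ} (hj : j ≤ k) {w : List ℕ} (h : w ∈ W1 u I k k) :
    w.take (k - j) ∈ W1 u I (k - j) (k - j) := by
  rw [mem_W1] at h ⊢
  obtain ⟨h1, h2⟩ := h
  rw [mem_words] at h1 ⊢
  refine ⟨⟨?_, fun i hi => h1.2 i (List.mem_of_mem_take hi)⟩, ?_⟩
  · rw [List.length_take, h1.1]
    omega
  · intro i hi
    rw [List.take_take, min_eq_left hi]
    exact h2 i (by omega)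

theorem drop_mem_words {I k j : ℕ} (hj : j ≤ k) {w : List ℕ} (h : w ∈ words I k) :
    w.drop (k - j) ∈ words I j := by
  rw [mem_words] at h ⊢
  refine ⟨?_, fun i hi => h.2 i (List.mem_of_mem_drop hi)⟩
  rw [List.length_drop, h.1]
  omega

theorem dl_mul {k : ℕ} {p : List ℕ × List ℕ} (h : (3 : ℤ) ^ k ∣ (cw p.1 : ℤ) - cw p.2) :
    3 ^ k * dl k p = (cw p.1 : ℤ) - cw p.2 := by
  unfold dl
  exact Int.mul_ediv_cancel' h

theorem thm_Div (hCh : St_Chain) : St_Div := by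
  classical
  obtain ⟨C, I₀, hC0, hC⟩ := hCh
  refine ⟨36 * C, I₀, by positivity, ?_⟩
  intro I k s R j q a u hI hk hu hRj hjk hq
  have hjk' : j ≤ k := by omega
  obtain ⟨l, hl⟩ : ∃ l, l = k - j := ⟨_, rfl⟩
  have hl1 : 1 ≤ l := by omega
  have hlk : l + j = k := by omega
  have hq1 : 1 ≤ q := le_trans (Nat.one_le_pow _ _ (by norm_num)) hq
  obtain ⟨S, hS⟩ : ∃ S, S = (prs (W2 u I k R) s k).filter fun p => (q : ℤ) ∣ dl k p - a := ⟨_, rfl⟩
  rw [← hS]
  obtain ⟨Ts, hTs⟩ : ∃ Ts, Ts = (range (s + 1)).filter fun t => 199 * j ≤ 100 * t ∧ 100 * t ≤ 201 * j :=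
    ⟨_, rfl⟩
  obtain ⟨Q, hQ⟩ : ∃ Q : ℕ → List ℕ → Finset (List ℕ × List ℕ), Q = fun t x =>
    ((W1 u I l l) ×ˢ (W1 u I l l)).filter fun p => p.1.sum + t = s ∧ p.2.sum + x.sum = s ∧
      (3 : ℤ) ^ l ∣ 2 ^ t * cw p.1 - 2 ^ x.sum * cw p.2 := ⟨_, rfl⟩
  -- facts on the elements of S
  have hmem : ∀ p ∈ S, (p.1 ∈ W2 u I k R ∧ p.2 ∈ W2 u I k R) ∧ (p.1.sum = s ∧ p.2.sum = s ∧
      (3 : ℤ) ^ k ∣ (cw p.1 : ℤ) - cw p.2) ∧ (q : ℤ) ∣ dl k p - a := by
    intro p hp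
    rw [hS, mem_filter, prs, mem_filter, mem_product] at hp
    exact ⟨hp.1.1, hp.1.2, hp.2⟩
  have hcut : ∀ w ∈ W2 u I k R, w.take l ++ w.drop l = w ∧ w.take l ∈ W1 u I l l ∧
      w.drop l ∈ words I j ∧ 199 * j ≤ 100 * (w.drop l).sum ∧ 100 * (w.drop l).sum ≤ 201 * j ∧
      (w.take l).length = l ∧ (w.take l).sum + (w.drop l).sum = w.sum := by
    intro w hw
    rw [mem_W2] at hw
    obtain ⟨h1, h2⟩ := hw
    have h3 := h2 j hRj hjk'
    rw [← hl] at h3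
    have h4 := take_mem_W1 hjk' h1
    rw [← hl] at h4
    have h5 := drop_mem_words hjk' (mem_W1.1 h1).1
    rw [← hl] at h5
    refine ⟨List.take_append_drop l w, h4, h5, h3.1, h3.2, words_length (mem_W1.1 h4).1, ?_⟩
    rw [← List.sum_append, List.take_append_drop]
  -- the injection
  have hinj : S.card ≤ (Ts.sigma fun t => (words I j).sigma fun x => Q t x).card := by
    apply card_le_card_of_injOn (fun p => ⟨(p.1.drop l).sum, p.2.drop l, (p.1.take l, p.2.take l)⟩)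
    · intro p hp
      rw [mem_coe] at hp
      obtain ⟨⟨h1, h2⟩, ⟨h3, h4, h5⟩, h6⟩ := hmem p hp
      obtain ⟨a1, a2, a3, a4, a5, a6, a7⟩ := hcut p.1 h1
      obtain ⟨b1, b2, b3, b4, b5, b6, b7⟩ := hcut p.2 h2
      rw [mem_coe, mem_sigma, mem_sigma, hTs, mem_filter, mem_range, hQ, mem_filter, mem_product]
      refine ⟨⟨by show (p.1.drop l).sum < s + 1; omega, a4, a5⟩, b3, ⟨a2, b2⟩,
        by show (p.1.take l).sum + (p.1.drop l).sum = s; omega,
        by show (p.2.take l).sum + (p.2.drop l).sum = s; omega, ?_⟩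
      simp only
      have e1 : (3 : ℤ) ^ k = 3 ^ l * 3 ^ j := by rw [← pow_add, hlk]
      have h7 : (3 : ℤ) ^ l ∣ (cw p.1 : ℤ) - cw p.2 := dvd_trans (by rw [e1]; exact dvd_mul_right _ _) h5
      have e2 : (cw p.1 : ℤ) = 2 ^ (p.1.drop l).sum * cw (p.1.take l) + 3 ^ l * cw (p.1.drop l) := by
        have h8 := cw_append' (p.1.take l) (p.1.drop l)
        rw [a1, a6] at h8
        exact_mod_cast h8
      have e3 : (cw p.2 : ℤ) = 2 ^ (p.2.drop l).sum * cw (p.2.take l) + 3 ^ l * cw (p.2.drop l) := by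
        have h8 := cw_append' (p.2.take l) (p.2.drop l)
        rw [b1, b6] at h8
        exact_mod_cast h8
      have e4 : 2 ^ (p.1.drop l).sum * (cw (p.1.take l) : ℤ) -
          2 ^ (p.2.drop l).sum * cw (p.2.take l) = ((cw p.1 : ℤ) - cw p.2) -
            3 ^ l * ((cw (p.1.drop l) : ℤ) - cw (p.2.drop l)) := by
        rw [e2, e3]
        ring
      rw [e4]
      exact dvd_sub h7 (dvd_mul_right _ _)
    · intro p hp p' hp' h
      rw [mem_coe] at hp hp'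
      obtain ⟨⟨h1, h2⟩, ⟨h3, h4, h5⟩, h6⟩ := hmem p hp
      obtain ⟨⟨h1', h2'⟩, ⟨h3', h4', h5'⟩, h6'⟩ := hmem p' hp'
      obtain ⟨a1, a2, a3, a4, a5, a6, a7⟩ := hcut p.1 h1
      obtain ⟨b1, b2, b3, b4, b5, b6, b7⟩ := hcut p.2 h2
      obtain ⟨a1', a2', a3', a4', a5', a6', a7'⟩ := hcut p'.1 h1'
      obtain ⟨b1', b2', b3', b4', b5', b6', b7'⟩ := hcut p'.2 h2'
      simp only [Sigma.mk.injEq, heq_eq_eq, Prod.mk.injEq] at h
      obtain ⟨h7, h8, h9, h10⟩ := h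
      have e0 : p.2 = p'.2 := by rw [← b1, ← b1', h8, h10]
      have e1 : (3 : ℤ) ^ k = 3 ^ l * 3 ^ j := by rw [← pow_add, hlk]
      have h11 := dl_mul h5
      have h12 := dl_mul h5'
      have h13 : (q : ℤ) ∣ dl k p - dl k p' := by
        have := dvd_sub h6 h6'
        have e : dl k p - a - (dl k p' - a) = dl k p - dl k p' := by ring
        rwa [e] at this
      obtain ⟨c, hc⟩ := h13
      have e2 : (cw p.1 : ℤ) = 2 ^ (p.1.drop l).sum * cw (p.1.take l) + 3 ^ l * cw (p.1.drop l) := by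
        have h8 := cw_append' (p.1.take l) (p.1.drop l)
        rw [a1, a6] at h8
        exact_mod_cast h8
      have e3 : (cw p'.1 : ℤ) = 2 ^ (p'.1.drop l).sum * cw (p'.1.take l) +
          3 ^ l * cw (p'.1.drop l) := by
        have h8 := cw_append' (p'.1.take l) (p'.1.drop l)
        rw [a1', a6'] at h8
        exact_mod_cast h8
      have h14 : (cw (p.1.drop l) : ℤ) - cw (p'.1.drop l) = (3 ^ j * q : ℤ) * c := by
        have h15 : (3 : ℤ) ^ l * ((cw (p.1.drop l) : ℤ) - cw (p'.1.drop l)) =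
            3 ^ l * ((3 ^ j * q : ℤ) * c) := by
          have h16 : (3 : ℤ) ^ k * (dl k p - dl k p') = (cw p.1 : ℤ) - cw p'.1 := by
            rw [mul_sub, h11, h12, e0]
            ring
          rw [hc, e1, e2, e3, h7, h9] at h16
          linear_combination -h16
        exact mul_left_cancel₀ (by positivity) h15
      have h15 := cw_lt_pow (words_length a3) (fun i hi => ((mem_words.1 a3).2 i hi).1) a5 hq
      have h16 := cw_lt_pow (words_length a3') (fun i hi => ((mem_words.1 a3').2 i hi).1) a5' hq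
      have h17 : (cw (p.1.drop l) : ℤ) - cw (p'.1.drop l) = 0 := by
        apply Int.eq_zero_of_abs_lt_dvd (m := ((3 ^ j * q : ℕ) : ℤ))
        · rw [h14]
          push_cast
          exact dvd_mul_right _ _
        · rw [abs_lt]
          constructor <;> omega
      have h18 : p.1.drop l = p'.1.drop l :=
        cw_inj (words_length a3) (words_length a3') (fun i hi => ((mem_words.1 a3).2 i hi).1)
          (fun i hi => ((mem_words.1 a3').2 i hi).1) h7 (by omega)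
      have e4 : p.1 = p'.1 := by rw [← a1, ← a1', h9, h18]
      exact Prod.ext e4 e0
  rw [card_sigma] at hinj
  have h1 : (S.card : ℝ) ≤ ∑ t ∈ Ts, ∑ x ∈ words I j, ((Q t x).card : ℝ) := by
    have h2 : (S.card : ℝ) ≤ ((∑ t ∈ Ts, ((words I j).sigma fun x => Q t x).card : ℕ) : ℝ) := by
      exact_mod_cast hinj
    refine h2.trans (le_of_eq ?_)
    push_cast
    apply sum_congr rfl
    intro t _
    rw [card_sigma]
    push_cast
    rfl
  refine h1.trans ?_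
  obtain ⟨K, hK⟩ : ∃ K : ℝ, K = C * u / (l * 3 ^ l) := ⟨_, rfl⟩
  have hl0 : (0 : ℝ) < l := by exact_mod_cast hl1
  have hk0 : (0 : ℝ) < k := by exact_mod_cast hk
  have hK0 : 0 ≤ K := by
    rw [hK]
    positivity
  have h2 : ∀ t ∈ Ts, ∑ x ∈ words I j, ((Q t x).card : ℝ) ≤ 4 ^ s * (1 / 2) ^ t * K := by
    intro t ht
    have ht' : t ≤ s := by
      rw [hTs, mem_filter, mem_range] at ht
      omega
    have h3 : ∀ x ∈ words I j, ((Q t x).card : ℝ) ≤
        (4 ^ s * (1 / 2) ^ t * K) * (1 / 2) ^ x.sum := by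
      intro x _
      by_cases hx : x.sum ≤ s
      · have h4 := first_pairs hC hI hl1 hu ht' hx (I := I) (l := l)
        rw [← hK] at h4
        rw [hQ]
        refine h4.trans (le_of_eq ?_)
        ring
      · have h4 : Q t x = ∅ := by
          rw [hQ]
          apply filter_eq_empty_iff.2
          intro p _ hp
          omega
        rw [h4, card_empty, Nat.cast_zero]
        positivity
    refine (sum_le_sum h3).trans ?_
    rw [← mul_sum]
    have h5 : ∑ x ∈ words I j, (1 / 2 : ℝ) ^ x.sum ≤ 1 := P_words_le I j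
    exact mul_le_of_le_one_right (by positivity) h5
  refine (sum_le_sum h2).trans ?_
  rw [← sum_mul, ← mul_sum]
  -- the sum over t
  have h3 : 3 ^ j * ∑ t ∈ Ts, (1 / 2 : ℝ) ^ t ≤ 18 * (4 / 5) ^ j := by
    rw [mul_sum]
    have h4 : ∀ t ∈ Ts, (3 : ℝ) ^ j * (1 / 2) ^ t ≤ (756 / 1000) ^ j := by
      intro t ht
      rw [hTs, mem_filter] at ht
      exact Div_num j t ht.2.1
    refine (sum_le_sum h4).trans ?_
    rw [sum_const, nsmul_eq_mul]
    refine le_trans (mul_le_mul_of_nonneg_right ?_ (by positivity)) (Div_num2 j)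
    have h5 : Ts.card ≤ j + 1 := by
      have h6 : Ts ⊆ (range (j + 1)).image fun i => i + (199 * j + 99) / 100 := by
        intro t ht
        rw [hTs, mem_filter, mem_range] at ht
        rw [mem_image]
        refine ⟨t - (199 * j + 99) / 100, ?_, ?_⟩
        · rw [mem_range]
          omega
        · omega
      refine (card_le_card h6).trans (card_image_le.trans ?_)
      rw [card_range]
    exact_mod_cast h5
  have h4 : (3 : ℝ) ^ k = 3 ^ l * 3 ^ j := by rw [← pow_add, hlk]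
  have h5 : (1 : ℝ) / l ≤ 2 / k := by
    rw [div_le_div_iff₀ hl0 hk0]
    have : k ≤ 2 * l := by omega
    have h6 : (k : ℝ) ≤ 2 * l := by exact_mod_cast this
    linarith
  have h3l : (0 : ℝ) < 3 ^ l := by positivity
  have h3j : (0 : ℝ) < 3 ^ j := by positivity
  calc 4 ^ s * (∑ t ∈ Ts, (1 / 2 : ℝ) ^ t) * K =
        C * u * 4 ^ s / 3 ^ k * (1 / l) * (3 ^ j * ∑ t ∈ Ts, (1 / 2 : ℝ) ^ t) := by
        rw [hK, h4]
        field_simp
    _ ≤ C * u * 4 ^ s / 3 ^ k * (2 / k) * (18 * (4 / 5) ^ j) := by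
        apply mul_le_mul _ h3 (by positivity) (by positivity)
        exact mul_le_mul_of_nonneg_left h5 (by positivity)
    _ = 36 * C * u * 4 ^ s / (k * 3 ^ k) * (4 / 5) ^ j := by
        field_simp
        ring

end Pool.Agent.Collatz3.PR
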