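import Mathlib
import Pool.Agent.Collatz3.PRDefs

set_option autoImplicit false

/-!
Tao's theorem for primes: the local bound for the sum of the letters.
-/

namespace Pool.Agent.Collatz3.PR

open Finset
open Pool.Agent.Collatz3.Mix (words mem_words sum_words_zero sum_words_succ sum_words_add)
open Pool.Agent.Collatz3.PD
open Pool.Agent.Collatz3.FW

theorem Loc_central (n : ℕ) : Nat.centralBinom n ^ 2 * (2 * n + 1) ≤ 16 ^ n := by
  induction n with
  | zero => simp
  | succ n ih =>
    have h := Nat.succ_mul_centralBinom_succ n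
    have h1 : (n + 1) ^ 2 * (Nat.centralBinom (n + 1) ^ 2 * (2 * (n + 1) + 1)) ≤
        (n + 1) ^ 2 * 16 ^ (n + 1) := by
      calc (n + 1) ^ 2 * (Nat.centralBinom (n + 1) ^ 2 * (2 * (n + 1) + 1))
          = ((n + 1) * Nat.centralBinom (n + 1)) ^ 2 * (2 * n + 3) := by ring
        _ = (2 * (2 * n + 1) * Nat.centralBinom n) ^ 2 * (2 * n + 3) := by rw [h]
        _ = (Nat.centralBinom n ^ 2 * (2 * n + 1)) * (4 * ((2 * n + 1) * (2 * n + 3))) := by ring
        _ ≤ 16 ^ n * (4 * (4 * (n + 1) ^ 2)) := by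
            apply Nat.mul_le_mul ih
            apply Nat.mul_le_mul le_rfl
            nlinarith
        _ = (n + 1) ^ 2 * 16 ^ (n + 1) := by ring
    exact Nat.le_of_mul_le_mul_left h1 (by positivity)

theorem Loc_choose (N j : ℕ) : N.choose j ^ 2 * (N + 1) ≤ 4 ^ N := by
  have h0 := Nat.choose_le_middle j N
  have h1 : N.choose (N / 2) ^ 2 * (N + 1) ≤ 4 ^ N := by
    rcases Nat.even_or_odd' N with ⟨n, rfl | rfl⟩
    · have h2 := Loc_central n
      rw [Nat.mul_div_cancel_left n (by norm_num), ← Nat.centralBinom_eq_two_mul_choose]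
      calc Nat.centralBinom n ^ 2 * (2 * n + 1) ≤ 16 ^ n := h2
        _ = 4 ^ (2 * n) := by rw [pow_mul]; norm_num
    · have h2 := Loc_central (n + 1)
      have h3 : (2 * n + 1) / 2 = n := by omega
      rw [h3]
      have h4 : Nat.centralBinom (n + 1) = 2 * (2 * n + 1).choose n := by
        rw [Nat.centralBinom_eq_two_mul_choose, show 2 * (n + 1) = (2 * n + 1) + 1 by ring,
          Nat.choose_succ_succ']
        have h5 : (2 * n + 1).choose (n + 1) = (2 * n + 1).choose n :=
          Nat.choose_symm_half n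
        rw [h5]
        ring
      rw [h4] at h2
      have h6 : (4 : ℕ) ^ (2 * n + 1) * 4 = 16 ^ (n + 1) := by
        rw [← pow_succ, show 2 * n + 1 + 1 = 2 * (n + 1) by ring, pow_mul]
        norm_num
      have h7 : (2 * n + 1).choose n ^ 2 * (2 * n + 1 + 1) * 4 ≤
          (2 * (2 * n + 1).choose n) ^ 2 * (2 * (n + 1) + 1) := by
        have : (2 * (2 * n + 1).choose n) ^ 2 * (2 * (n + 1) + 1) =
          (2 * n + 1).choose n ^ 2 * (2 * n + 1 + 1) * 4 + (2 * n + 1).choose n ^ 2 * 4 := by ring
        omega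
      omega
  refine le_trans ?_ h1
  exact Nat.mul_le_mul_right _ (Nat.pow_le_pow_left h0 2)

theorem Loc_hockey (r t : ℕ) : ∑ j ∈ range t, j.choose r = t.choose (r + 1) := by
  induction t with
  | zero => simp
  | succ t ih => rw [sum_range_succ, ih, Nat.choose_succ_succ', add_comm]

theorem Loc_le_sum {I k : ℕ} {w : List ℕ} (h : w ∈ words I k) : k ≤ w.sum := by
  rw [mem_words] at h
  have h1 := List.length_le_sum_of_one_le w fun i hi => (h.2 i hi).1
  omega

theorem Loc_count (I r : ℕ) : ∀ t : ℕ,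
    ((words I (r + 1)).filter fun w => w.sum = t + 1).card ≤ t.choose r := by
  induction r with
  | zero =>
    intro t
    rw [Nat.choose_zero_right, card_filter, sum_words_succ]
    simp only [sum_words_zero, List.sum_cons, List.sum_nil, add_zero]
    rw [← card_filter]
    calc _ ≤ ({t + 1} : Finset ℕ).card := by
          apply card_le_card
          intro i hi
          rw [mem_filter] at hi
          rw [mem_singleton]
          exact hi.2
      _ = 1 := card_singleton _
  | succ r ih =>
    intro t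
    rw [card_filter, sum_words_succ]
    have h1 : ∀ i ∈ Icc 1 I, (∑ w ∈ words I (r + 1), if (i :: w).sum = t + 1 then 1 else 0) ≤
        if i ≤ t then (t - i).choose r else 0 := by
      intro i _
      by_cases hi : i ≤ t
      · rw [if_pos hi]
        refine le_trans (le_of_eq ?_) (ih (t - i))
        rw [card_filter]
        apply sum_congr rfl
        intro w _
        rw [List.sum_cons]
        have : i + w.sum = t + 1 ↔ w.sum = t - i + 1 := by omega
        simp only [this]
      · rw [if_neg hi]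
        apply le_of_eq
        apply sum_eq_zero
        intro w hw
        rw [if_neg]
        rw [List.sum_cons]
        have := Loc_le_sum hw
        omega
    refine (sum_le_sum h1).trans ?_
    rw [← sum_filter, ← Loc_hockey r t]
    have h2 : ∑ i ∈ (Icc 1 I).filter (fun i => i ≤ t), (t - i).choose r ≤
        ∑ i ∈ Icc 1 t, (t - i).choose r := by
      apply sum_le_sum_of_subset
      intro i hi
      rw [mem_filter, mem_Icc] at hi
      rw [mem_Icc]
      omega
    refine h2.trans (le_of_eq ?_)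
    apply sum_nbij' (fun i => t - i) (fun j => t - j)
    · intro i hi
      rw [mem_Icc] at hi
      rw [mem_range]
      omega
    · intro j hj
      rw [mem_range] at hj
      rw [mem_Icc]
      omega
    · intro i hi
      rw [mem_Icc] at hi
      omega
    · intro j hj
      rw [mem_range] at hj
      omega
    · intro i _
      rfl

theorem thm_Loc : St_Loc := by
  refine ⟨1, one_pos, ?_⟩
  intro I r t
  rcases Nat.eq_zero_or_pos r with rfl | hr
  · have h1 : P ((words I 0).filter fun w => w.sum = t) ≤ P (words I 0) :=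
      P_mono (filter_subset _ _)
    rw [P_words, pow_zero] at h1
    simpa using h1
  obtain ⟨r, rfl⟩ : ∃ q, r = q + 1 := ⟨r - 1, by omega⟩
  have hpos : (0 : ℝ) < √(((r + 1 : ℕ) : ℝ) + 1) := Real.sqrt_pos.2 (by positivity)
  rcases lt_or_ge t (r + 1) with ht | ht
  · have h1 : (words I (r + 1)).filter (fun w => w.sum = t) = ∅ := by
      rw [filter_eq_empty_iff]
      intro w hw h2
      have := Loc_le_sum hw
      omega
    rw [h1]
    have : P (∅ : Finset (List ℕ)) = 0 := by simp [P]
    rw [this]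
    positivity
  obtain ⟨s, rfl⟩ : ∃ s, t = s + 1 := ⟨t - 1, by omega⟩
  have h1 : P ((words I (r + 1)).filter fun w => w.sum = s + 1) ≤
      (s.choose r : ℝ) * (1 / 2) ^ (s + 1) := by
    have h2 : P ((words I (r + 1)).filter fun w => w.sum = s + 1) =
        (((words I (r + 1)).filter fun w => w.sum = s + 1).card : ℝ) * (1 / 2) ^ (s + 1) := by
      unfold P
      rw [← nsmul_eq_mul, ← sum_const]
      apply sum_congr rfl
      intro w hw
      rw [(mem_filter.1 hw).2]
    rw [h2]
    apply mul_le_mul_of_nonneg_right _ (by positivity)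
    exact_mod_cast Loc_count I r s
  refine h1.trans ?_
  rw [le_div_iff₀ hpos]
  have h3 : (s.choose r : ℝ) ^ 2 * ((s : ℝ) + 1) ≤ 4 ^ s := by exact_mod_cast Loc_choose s r
  have h4 : (((s.choose r : ℝ) * (1 / 2) ^ (s + 1)) * √(((r + 1 : ℕ) : ℝ) + 1)) ^ 2 ≤ 1 ^ 2 := by
    rw [mul_pow, mul_pow, Real.sq_sqrt (by positivity)]
    have h5 : ((r + 1 : ℕ) : ℝ) + 1 ≤ 2 * ((s : ℝ) + 1) := by
      have : ((r + 1 : ℕ) : ℝ) ≤ ((s + 1 : ℕ) : ℝ) := by exact_mod_cast ht
      push_cast at this ⊢
      have hs0 : (0 : ℝ) ≤ s := Nat.cast_nonneg s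
      linarith
    calc (s.choose r : ℝ) ^ 2 * ((1 / 2) ^ (s + 1)) ^ 2 * (((r + 1 : ℕ) : ℝ) + 1)
        ≤ (s.choose r : ℝ) ^ 2 * ((1 / 2) ^ (s + 1)) ^ 2 * (2 * ((s : ℝ) + 1)) :=
          mul_le_mul_of_nonneg_left h5 (by positivity)
      _ = 2 * ((1 / 2) ^ (s + 1)) ^ 2 * ((s.choose r : ℝ) ^ 2 * ((s : ℝ) + 1)) := by ring
      _ ≤ 2 * ((1 / 2) ^ (s + 1)) ^ 2 * 4 ^ s := mul_le_mul_of_nonneg_left h3 (by positivity)
      _ = 1 / 2 * ((1 / 4) ^ s * 4 ^ s) := by
          rw [← pow_mul, mul_comm (s + 1) 2, pow_mul, pow_succ]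
          norm_num
          ring
      _ = 1 / 2 := by
          rw [← mul_pow]
          norm_num
      _ ≤ 1 ^ 2 := by norm_num
  exact le_of_sq_le_sq h4 zero_le_one

end Pool.Agent.Collatz3.PR
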