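import Mathlib
import Pool.Agent.Collatz3.PRErr

set_option autoImplicit false

/-!
# Tao's theorem in sifted sets: the pointwise bound
-/

namespace Pool.Agent.Collatz3.PR

open Finset
open Pool.Agent.Collatz3.Mix (words mem_words sum_words_zero sum_words_succ sum_words_add
  cw_append' cw_inj cw_concat)
open Pool.Agent.Collatz3.PD
open Pool.Agent.Collatz3.FW

/-- The constant of a word with large partial sums. -/
theorem cw_le_of_W1 {u : ℝ} (w : List ℕ)
    (h : ∀ i ≤ w.length, (3 : ℝ) ^ i ≤ u * 2 ^ (w.take i).sum) :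
    (cw w : ℝ) ≤ w.length * u * 2 ^ w.sum := by
  induction w using List.reverseRecOn with
  | nil => simp [cw]
  | append_singleton v a ih =>
    have h1 : ∀ i ≤ v.length, (3 : ℝ) ^ i ≤ u * 2 ^ (v.take i).sum := by
      intro i hi
      have := h i (by rw [List.length_append]; omega)
      rwa [List.take_append_of_le_length hi] at this
    have h2 := ih h1
    have h3 := h1 v.length le_rfl
    rw [List.take_length] at h3
    rw [cw_concat, List.length_append, List.length_singleton, List.sum_append,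
      List.sum_singleton, pow_add]
    push_cast
    have h4 : (1 : ℝ) ≤ 2 ^ a := one_le_pow₀ (by norm_num)
    have h5 : (3 : ℝ) ^ v.length ≤ u * 2 ^ v.sum * 2 ^ a := by
      have h6 : 0 ≤ u * 2 ^ v.sum := le_trans (by positivity) h3
      nlinarith
    have h6 := mul_le_mul_of_nonneg_left h2 (by positivity : (0 : ℝ) ≤ 2 ^ a)
    nlinarith

/-- Elements of a progression below `B`. -/
theorem card_prog {S : Finset ℕ} {q : ℕ} (hq : 0 < q) {B : ℝ} (hB : 0 ≤ B)
    (h1 : ∀ c ∈ S, (c : ℝ) ≤ B) (h2 : ∀ c ∈ S, ∀ c' ∈ S, (q : ℤ) ∣ (c : ℤ) - c') :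
    (S.card : ℝ) ≤ B / q + 1 := by
  have hq' : (0 : ℝ) < q := by exact_mod_cast hq
  have h3 : S.card ≤ (range (⌊B / q⌋₊ + 1)).card := by
    apply card_le_card_of_injOn (fun c => c / q)
    · intro c hc
      rw [mem_coe, mem_range, Nat.lt_add_one_iff]
      apply Nat.le_floor
      rw [le_div_iff₀ hq']
      have h4 : c / q * q ≤ c := Nat.div_mul_le_self c q
      have h5 : ((c / q : ℕ) : ℝ) * q ≤ c := by exact_mod_cast h4
      exact h5.trans (h1 c hc)
    · intro c hc c' hc' h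
      simp only at h
      have h4 := h2 c hc c' hc'
      have h5 : c % q = c' % q := by
        have h6 : (c' : ℤ) ≡ c [ZMOD q] := Int.modEq_iff_dvd.2 h4
        exact (Int.natCast_modEq_iff.1 h6).symm
      have h6 := Nat.div_add_mod c q
      have h7 := Nat.div_add_mod c' q
      rw [h, h5] at h6
      omega
  rw [card_range] at h3
  have h4 : (S.card : ℝ) ≤ (⌊B / q⌋₊ : ℝ) + 1 := by exact_mod_cast h3
  have h5 := Nat.floor_le (by positivity : 0 ≤ B / q)
  linarith

theorem Pt_one {u : ℝ} (hu : 1 ≤ u) (I n t : ℕ) (x : ℤ) :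
    FG (W1 u I n n) t n x ≤ ((n : ℝ) + 1) * u / 3 ^ n := by
  obtain ⟨S, hS⟩ : ∃ S, S = (W1 u I n n).filter
    (fun w => w.sum = t ∧ (3 : ℤ) ^ n ∣ 2 ^ t * x - cw w) := ⟨_, rfl⟩
  have hmem : ∀ w ∈ S, (w ∈ words I n ∧ (∀ i ≤ n, (3 : ℝ) ^ i ≤ u * 2 ^ (w.take i).sum)) ∧
      w.sum = t ∧ (3 : ℤ) ^ n ∣ 2 ^ t * x - cw w := by
    intro w hw
    rw [hS, mem_filter, mem_W1] at hw
    exact hw
  have hFG : FG (W1 u I n n) t n x = S.card * (1 / 2 : ℝ) ^ t := by
    unfold FG
    rw [← hS, sum_const, nsmul_eq_mul]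
  rw [hFG]
  rcases S.eq_empty_or_nonempty with h0 | ⟨w₀, hw₀⟩
  · rw [h0, card_empty]
    have : 0 ≤ ((n : ℝ) + 1) * u / 3 ^ n := by positivity
    simpa using this
  · have h3n : (3 : ℝ) ^ n ≤ u * 2 ^ t := by
      obtain ⟨⟨h1, h2⟩, h3, _⟩ := hmem w₀ hw₀
      have h4 := h2 n le_rfl
      rw [List.take_of_length_le (words_length h1).le, h3] at h4
      exact h4
    -- the constants
    have hinj : (S.image cw).card = S.card := by
      apply card_image_of_injOn
      intro w hw w' hw' h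
      obtain ⟨⟨h1, _⟩, h3, _⟩ := hmem w hw
      obtain ⟨⟨h1', _⟩, h3', _⟩ := hmem w' hw'
      exact cw_inj (words_length h1) (words_length h1')
        (fun i hi => ((mem_words.1 h1).2 i hi).1) (fun i hi => ((mem_words.1 h1').2 i hi).1)
        (h3.trans h3'.symm) h
    have hc := card_prog (S := S.image cw) (q := 3 ^ n) (by positivity)
      (B := n * u * 2 ^ t) (by positivity)
      (by
        intro c hc
        rw [mem_image] at hc
        obtain ⟨w, hw, rfl⟩ := hc
        obtain ⟨⟨h1, h2⟩, h3, _⟩ := hmem w hw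
        have h4 := cw_le_of_W1 w (by rw [words_length h1]; exact h2)
        rwa [words_length h1, h3] at h4)
      (by
        intro c hc c' hc'
        rw [mem_image] at hc hc'
        obtain ⟨w, hw, rfl⟩ := hc
        obtain ⟨w', hw', rfl⟩ := hc'
        have h1 := (hmem w hw).2.2
        have h2 := (hmem w' hw').2.2
        have h3 := dvd_sub h2 h1
        have e : 2 ^ t * x - (cw w' : ℤ) - (2 ^ t * x - cw w) = (cw w : ℤ) - cw w' := by ring
        rw [e] at h3
        push_cast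
        exact h3)
    rw [hinj] at hc
    push_cast at hc
    have hp : (0 : ℝ) < 2 ^ t := by positivity
    have h3 : (0 : ℝ) < 3 ^ n := by positivity
    rw [one_div, inv_pow, ← div_eq_mul_inv, div_le_div_iff₀ hp h3]
    have h4 : (S.card : ℝ) * 3 ^ n ≤ n * u * 2 ^ t + 3 ^ n := by
      have h5 := mul_le_mul_of_nonneg_right hc h3.le
      rw [add_mul, div_mul_cancel₀ _ h3.ne', one_mul] at h5
      exact h5
    nlinarith

theorem Pt_tail (I n : ℕ) : P ((words I n).filter fun w => 6 * n < w.sum) ≤ 1 / 3 ^ n := by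
  have h1 : P ((words I n).filter fun w => 6 * n < w.sum) ≤
      ∑ w ∈ words I n, (2 / 3 : ℝ) ^ (6 * n) * (3 / 4) ^ w.sum := by
    unfold P
    rw [sum_filter]
    apply sum_le_sum
    intro w _
    split_ifs with h
    · have h2 : (1 / 2 : ℝ) ^ w.sum = (2 / 3) ^ w.sum * (3 / 4) ^ w.sum := by
        rw [← mul_pow]
        norm_num
      rw [h2]
      apply mul_le_mul_of_nonneg_right _ (by positivity)
      exact pow_le_pow_of_le_one (by norm_num) (by norm_num) h.le
    · positivity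
  refine h1.trans ?_
  rw [← mul_sum, sum_pow_words]
  have h2 : (∑ i ∈ Icc 1 I, (3 / 4 : ℝ) ^ i) ^ n ≤ 3 ^ n := by
    apply pow_le_pow_left₀ (sum_nonneg fun _ _ => by positivity)
    refine (geom_le I (by norm_num) (by norm_num)).trans ?_
    norm_num
  have h3 : (2 / 3 : ℝ) ^ (6 * n) * 3 ^ n = (192 / 729) ^ n := by
    rw [pow_mul, ← mul_pow]
    norm_num
  calc (2 / 3 : ℝ) ^ (6 * n) * (∑ i ∈ Icc 1 I, (3 / 4 : ℝ) ^ i) ^ n ≤
        (2 / 3) ^ (6 * n) * 3 ^ n := mul_le_mul_of_nonneg_left h2 (by positivity)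
    _ = (192 / 729) ^ n := h3
    _ ≤ (1 / 3) ^ n := pow_le_pow_left₀ (by norm_num) (by norm_num) n
    _ = 1 / 3 ^ n := by rw [one_div, inv_pow, one_div]

theorem thm_Pt : St_Pt := by
  refine ⟨7, by norm_num, ?_⟩
  intro I n u hu x
  have h1 : ∀ t ∈ range (I * n + 1), FG (W1 u I n n) t n x ≤
      (if t ≤ 6 * n then ((n : ℝ) + 1) * u / 3 ^ n else 0) +
      ∑ w ∈ (words I n).filter (fun w => 6 * n < w.sum),
        (if w.sum = t then (1 / 2 : ℝ) ^ w.sum else 0) := by
    intro t _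
    by_cases ht : t ≤ 6 * n
    · rw [if_pos ht]
      have h2 : 0 ≤ ∑ w ∈ (words I n).filter (fun w => 6 * n < w.sum),
        (if w.sum = t then (1 / 2 : ℝ) ^ w.sum else 0) :=
        sum_nonneg fun w _ => by split_ifs <;> positivity
      have h3 := Pt_one hu I n t x
      linarith
    · rw [if_neg ht, zero_add]
      unfold FG
      rw [← sum_filter]
      have h2 : ∀ w ∈ ((words I n).filter (fun w => 6 * n < w.sum)).filter
          (fun w => w.sum = t), (1 / 2 : ℝ) ^ w.sum = (1 / 2) ^ t := by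
        intro w hw
        rw [(mem_filter.1 hw).2]
      rw [sum_congr rfl h2]
      apply sum_le_sum_of_subset_of_nonneg
      · intro w hw
        rw [mem_filter, mem_W1] at hw
        rw [mem_filter, mem_filter]
        exact ⟨⟨hw.1.1, by omega⟩, hw.2.1⟩
      · intro _ _ _
        positivity
  refine (sum_le_sum h1).trans ?_
  rw [sum_add_distrib]
  have h2 : ∑ t ∈ range (I * n + 1), (if t ≤ 6 * n then ((n : ℝ) + 1) * u / 3 ^ n else 0) ≤
      (6 * n + 1) * (((n : ℝ) + 1) * u / 3 ^ n) := by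
    rw [← sum_filter, sum_const, nsmul_eq_mul]
    apply mul_le_mul_of_nonneg_right _ (by positivity)
    have h3 : ((range (I * n + 1)).filter (fun t => t ≤ 6 * n)).card ≤ (range (6 * n + 1)).card := by
      apply card_le_card
      intro t ht
      rw [mem_filter] at ht
      rw [mem_range]
      omega
    rw [card_range] at h3
    exact_mod_cast h3
  have h3 : ∑ t ∈ range (I * n + 1), ∑ w ∈ (words I n).filter (fun w => 6 * n < w.sum),
      (if w.sum = t then (1 / 2 : ℝ) ^ w.sum else 0) ≤ 1 / 3 ^ n := by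
    refine le_trans ?_ (Pt_tail I n)
    rw [sum_comm]
    unfold P
    apply sum_le_sum
    intro w _
    rw [sum_ite_eq]
    split_ifs
    · exact le_rfl
    · positivity
  have h4 : (1 : ℝ) / 3 ^ n ≤ ((n : ℝ) + 1) * (((n : ℝ) + 1) * u / 3 ^ n) := by
    rw [div_le_iff₀ (by positivity)]
    have h5 : ((n : ℝ) + 1) * (((n : ℝ) + 1) * u / 3 ^ n) * 3 ^ n = ((n : ℝ) + 1) ^ 2 * u := by
      field_simp
    rw [h5]
    have h6 : (1 : ℝ) ≤ ((n : ℝ) + 1) ^ 2 := by
      have : (0 : ℝ) ≤ n := Nat.cast_nonneg n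
      nlinarith
    nlinarith
  calc _ ≤ (6 * n + 1) * (((n : ℝ) + 1) * u / 3 ^ n) + 1 / 3 ^ n := add_le_add h2 h3
    _ ≤ (6 * n + 1) * (((n : ℝ) + 1) * u / 3 ^ n) +
        ((n : ℝ) + 1) * (((n : ℝ) + 1) * u / 3 ^ n) := by linarith
    _ ≤ 7 * ((n : ℝ) + 1) * (((n : ℝ) + 1) * u / 3 ^ n) := by
        have h5 : 0 ≤ ((n : ℝ) + 1) * u / 3 ^ n := by positivity
        nlinarith
    _ = 7 * ((n : ℝ) + 1) ^ 2 * u / 3 ^ n := by ring

end Pool.Agent.Collatz3.PR
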