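import Mathlib
import Pool.Agent.Collatz3.PRDefs

set_option autoImplicit false

/-!
Tao's theorem in sifted sets: a pointwise bound for the singular series.
-/

namespace Pool.Agent.Collatz3.PR

open Finset
open Pool.Agent.Helper90.Straus (Sys g pr mem_pr sum_dyadic pr_sum_split)

/-- The small primes. -/
private theorem sg_small (j : ℕ) (hj : 1 ≤ j) :
    ∑ p ∈ pr 3 (2 ^ (j + 1)), (1 : ℝ) / p ≤ 1 / 3 + 4 * Real.log j := by
  induction j, hj using Nat.le_induction with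
  | base =>
    have h : pr 3 (2 ^ (1 + 1)) = {3} := by decide
    rw [h]
    simp
  | succ j hj ih =>
    have hj0 : (0 : ℝ) < j := by exact_mod_cast hj
    have h1 : (3 : ℕ) ≤ 2 ^ (j + 1) := by
      calc 3 ≤ 2 ^ 2 := by norm_num
        _ ≤ 2 ^ (j + 1) := Nat.pow_le_pow_right (by norm_num) (by omega)
    have h2 := pr_sum_split (a := 3) (b := 2 ^ (j + 1)) (c := 2 ^ (j + 1 + 1)) h1
      (Nat.pow_le_pow_right (by norm_num) (by omega)) (fun p => (1 : ℝ) / p)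
    have h5 := sum_dyadic (i := j + 1) (by omega)
    have h6 : (1 : ℝ) / ((j + 1 : ℕ) : ℝ) ≤ Real.log ((j + 1 : ℕ) : ℝ) - Real.log j := by
      rw [← Real.log_div (by positivity) hj0.ne']
      have h7 := Real.one_sub_inv_le_log_of_pos (x := ((j + 1 : ℕ) : ℝ) / j) (by positivity)
      refine le_trans (le_of_eq ?_) h7
      push_cast
      field_simp
      ring
    have h8 : (4 : ℝ) / ((j + 1 : ℕ) : ℝ) = 4 * (1 / ((j + 1 : ℕ) : ℝ)) := by ring
    rw [h8] at h5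
    linarith

private theorem sg_sq (i₁ B : ℕ) : ∑ i ∈ Ioo i₁ B, 1 / ((i : ℝ) + 1) ^ 2 ≤ 2 := by
  have h1 : ∑ i ∈ Ioo i₁ B, 1 / ((i : ℝ) + 1) ^ 2 ≤ ∑ i ∈ range (B + 1), 1 / ((i : ℝ) + 1) ^ 2 := by
    apply sum_le_sum_of_subset_of_nonneg
    · intro i hi
      rw [mem_Ioo] at hi
      exact mem_range.2 (by omega)
    · intro _ _ _
      positivity
  have h2 : ∀ N : ℕ, ∑ i ∈ range (N + 1), 1 / ((i : ℝ) + 1) ^ 2 ≤ 2 - 1 / ((N : ℝ) + 1) := by
    intro N
    induction N with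
    | zero => norm_num
    | succ N ih =>
      rw [sum_range_succ]
      push_cast
      have h3 : 1 / ((N : ℝ) + 1 + 1) ^ 2 ≤ 1 / ((N : ℝ) + 1) - 1 / ((N : ℝ) + 1 + 1) := by
        rw [div_sub_div _ _ (by positivity) (by positivity), div_le_div_iff₀ (by positivity)
          (by positivity)]
        nlinarith [(Nat.cast_nonneg N : (0 : ℝ) ≤ N)]
      linarith
  have h3 := h2 B
  have h4 : (0 : ℝ) ≤ 1 / ((B : ℝ) + 1) := by positivity
  linarith

open Classical in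
private theorem sg_core {κ : ℕ} (hκ : 1 ≤ κ) {i₁ B z : ℕ} {Ω : ℕ → Finset ℕ} {Δ : ℤ}
    (hz : z ≤ 2 ^ B) (h : ∀ i ∈ Ioo i₁ B, Lb Ω i Δ ≤ 1 / ((i : ℝ) + 1) ^ 2) :
    sg κ Ω z Δ ≤ Real.exp (5 * κ) * ((i₁ : ℝ) + 1) ^ (8 * κ) := by
  set D := (pr (2 * κ + 1) z).filter (fun p => Bp Ω p Δ) with hD
  have h1 : ∑ p ∈ D, (1 : ℝ) / p =
      ∑ p ∈ D.filter (fun p => p < 2 ^ (i₁ + 1)), (1 : ℝ) / p +
      ∑ p ∈ D.filter (fun p => ¬ p < 2 ^ (i₁ + 1)), (1 : ℝ) / p :=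
    (sum_filter_add_sum_filter_not _ _ _).symm
  have t1 : ∑ p ∈ D.filter (fun p => p < 2 ^ (i₁ + 1)), (1 : ℝ) / p ≤
      1 / 3 + 4 * Real.log ((i₁ : ℝ) + 1) := by
    rcases Nat.eq_zero_or_pos i₁ with h0 | h0
    · have he : D.filter (fun p => p < 2 ^ (i₁ + 1)) = ∅ := by
        rw [filter_eq_empty_iff]
        intro p hp
        rw [hD, mem_filter, mem_pr] at hp
        rw [h0]
        norm_num
        omega
      rw [he, h0]
      simp
    · have h2 := sg_small i₁ h0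
      have h3 : ∑ p ∈ D.filter (fun p => p < 2 ^ (i₁ + 1)), (1 : ℝ) / p ≤
          ∑ p ∈ pr 3 (2 ^ (i₁ + 1)), (1 : ℝ) / p := by
        apply sum_le_sum_of_subset_of_nonneg
        · intro p hp
          rw [mem_filter, hD, mem_filter, mem_pr] at hp
          rw [mem_pr]
          exact ⟨⟨by omega, hp.2⟩, hp.1.1.2⟩
        · intro _ _ _
          positivity
      have h4 : Real.log (i₁ : ℝ) ≤ Real.log ((i₁ : ℝ) + 1) :=
        Real.log_le_log (by exact_mod_cast h0) (by linarith)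
      linarith
  have t2 : ∑ p ∈ D.filter (fun p => ¬ p < 2 ^ (i₁ + 1)), (1 : ℝ) / p ≤ 2 := by
    have hsub : D.filter (fun p => ¬ p < 2 ^ (i₁ + 1)) ⊆
        (Ioo i₁ B).biUnion fun i => (pr (2 ^ i) (2 ^ (i + 1))).filter fun p => Bp Ω p Δ := by
      intro p hp
      rw [mem_filter, hD, mem_filter, mem_pr, not_lt] at hp
      obtain ⟨⟨⟨⟨h2, h3⟩, h4⟩, h5⟩, h6⟩ := hp
      have hp0 : p ≠ 0 := by omega
      rw [mem_biUnion]
      refine ⟨Nat.log 2 p, ?_, ?_⟩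
      · rw [mem_Ioo]
        constructor
        · have := (Nat.le_log_iff_pow_le (by norm_num) hp0).2 h6
          omega
        · exact Nat.log_lt_of_lt_pow hp0 (h3.trans_le hz)
      · rw [mem_filter, mem_pr]
        exact ⟨⟨⟨Nat.pow_log_le_self 2 hp0, Nat.lt_pow_succ_log_self (by norm_num) p⟩, h4⟩, h5⟩
    refine (sum_le_sum_of_subset_of_nonneg hsub fun _ _ _ => by positivity).trans ?_
    refine le_trans ?_ (sg_sq i₁ B)
    have h3 : ∀ (s : Finset ℕ) (F : ℕ → Finset ℕ), ∑ p ∈ s.biUnion F, (1 : ℝ) / p ≤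
        ∑ i ∈ s, ∑ p ∈ F i, (1 : ℝ) / p := by
      intro s F
      induction s using Finset.induction_on with
      | empty => simp
      | insert a s ha ih =>
        rw [biUnion_insert, sum_insert ha]
        have h4 := sum_union_inter (s₁ := F a) (s₂ := s.biUnion F) (f := fun p : ℕ => (1 : ℝ) / p)
        have h5 : 0 ≤ ∑ p ∈ F a ∩ s.biUnion F, (1 : ℝ) / p := sum_nonneg fun _ _ => by positivity
        linarith
    refine (h3 _ _).trans ?_
    apply sum_le_sum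
    intro i hi
    exact h i hi
  have hκ0 : (1 : ℝ) ≤ κ := by exact_mod_cast hκ
  have h2 : ∑ p ∈ D, (2 * κ : ℝ) / p ≤ ((8 * κ : ℕ) : ℝ) * Real.log ((i₁ : ℝ) + 1) + 5 * κ := by
    have h3 : ∑ p ∈ D, (2 * κ : ℝ) / p = 2 * κ * ∑ p ∈ D, (1 : ℝ) / p := by
      rw [mul_sum]
      exact sum_congr rfl fun p _ => by ring
    have h4 : ∑ p ∈ D, (1 : ℝ) / p ≤ 4 * Real.log ((i₁ : ℝ) + 1) + 5 / 2 := by linarith
    rw [h3]
    push_cast
    calc 2 * (κ : ℝ) * ∑ p ∈ D, (1 : ℝ) / p ≤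
        2 * κ * (4 * Real.log ((i₁ : ℝ) + 1) + 5 / 2) :=
          mul_le_mul_of_nonneg_left h4 (by positivity)
      _ = _ := by ring
  calc sg κ Ω z Δ = ∏ p ∈ D, (1 + 2 * κ / (p : ℝ)) := rfl
    _ ≤ ∏ p ∈ D, Real.exp (2 * κ / (p : ℝ)) := by
        apply prod_le_prod
        · intro p _
          positivity
        · intro p _
          have := Real.add_one_le_exp (2 * κ / (p : ℝ))
          linarith
    _ = Real.exp (∑ p ∈ D, (2 * κ : ℝ) / p) := (Real.exp_sum _ _).symm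
    _ ≤ Real.exp (((8 * κ : ℕ) : ℝ) * Real.log ((i₁ : ℝ) + 1) + 5 * κ) := Real.exp_le_exp.2 h2
    _ = Real.exp (5 * κ) * ((i₁ : ℝ) + 1) ^ (8 * κ) := by
        rw [Real.exp_add, mul_comm (Real.exp (5 * κ)), Real.exp_nat_mul,
          Real.exp_log (by positivity)]

theorem Lb_nonneg (Ω : ℕ → Finset ℕ) (i : ℕ) (Δ : ℤ) : 0 ≤ Lb Ω i Δ := by
  unfold Lb
  exact sum_nonneg fun _ _ => by positivity

open Classical in
theorem thm_Sing : St_Sing := by
  intro κ hκ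
  refine ⟨Real.exp (5 * κ), Real.exp_pos _, ?_⟩
  intro i₀ B z Ω Δ hz
  have hnn : ∀ i ∈ Ioo i₀ B, 0 ≤ ((i : ℝ) + 1) ^ (8 * κ + 2) * Lb Ω i Δ :=
    fun i _ => mul_nonneg (by positivity) (Lb_nonneg Ω i Δ)
  set S : Finset ℕ := (Ioo i₀ B).filter (fun i : ℕ => 1 / ((i : ℝ) + 1) ^ 2 < Lb Ω i Δ) with hS
  rcases S.eq_empty_or_nonempty with hE | hE
  · have h1 := sg_core hκ (i₁ := i₀) (Δ := Δ) (Ω := Ω) hz (by
      intro i hi
      by_contra hcon
      push Not at hcon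
      have : i ∈ S := mem_filter.2 ⟨hi, hcon⟩
      rw [hE] at this
      exact absurd this (notMem_empty i))
    refine h1.trans ?_
    apply mul_le_mul_of_nonneg_left _ (Real.exp_pos _).le
    have := sum_nonneg hnn
    linarith
  · set i₁ := S.max' hE with hi₁
    have hmem : i₁ ∈ S := max'_mem S hE
    rw [hS, mem_filter] at hmem
    have h1 := sg_core hκ (i₁ := i₁) (Δ := Δ) (Ω := Ω) hz (by
      intro i hi
      by_contra hcon
      push Not at hcon
      have h2 : i ∈ S := by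
        rw [hS, mem_filter]
        refine ⟨?_, hcon⟩
        rw [mem_Ioo] at hi ⊢
        have := (mem_Ioo.1 hmem.1).1
        omega
      have h3 := le_max' S i h2
      rw [mem_Ioo] at hi
      omega)
    refine h1.trans ?_
    apply mul_le_mul_of_nonneg_left _ (Real.exp_pos _).le
    have h2 : ((i₁ : ℝ) + 1) ^ (8 * κ) ≤ ((i₁ : ℝ) + 1) ^ (8 * κ + 2) * Lb Ω i₁ Δ := by
      have h3 := hmem.2.le
      rw [div_le_iff₀ (by positivity)] at h3
      calc ((i₁ : ℝ) + 1) ^ (8 * κ) = ((i₁ : ℝ) + 1) ^ (8 * κ) * 1 := (mul_one _).symm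
        _ ≤ ((i₁ : ℝ) + 1) ^ (8 * κ) * (Lb Ω i₁ Δ * ((i₁ : ℝ) + 1) ^ 2) :=
            mul_le_mul_of_nonneg_left h3 (by positivity)
        _ = _ := by ring
    have h5 := single_le_sum hnn hmem.1
    have h6 : (0 : ℝ) ≤ ((i₀ : ℝ) + 1) ^ (8 * κ) := by positivity
    linarith

end Pool.Agent.Collatz3.PR
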