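import Mathlib
import Pool.Agent.Collatz3.PRAvg
import Pool.Agent.Collatz3.PRCS
import Pool.Agent.Collatz3.PRChain
import Pool.Agent.Collatz3.PRDiv
import Pool.Agent.Collatz3.PRErr
import Pool.Agent.Collatz3.PRLoc
import Pool.Agent.Collatz3.PRMain
import Pool.Agent.Collatz3.PROdd
import Pool.Agent.Collatz3.PRVC
import Pool.Agent.Collatz3.PRPt
import Pool.Agent.Collatz3.PRS12
import Pool.Agent.Collatz3.PRSing
import Pool.Agent.Collatz3.PRTail1
import Pool.Agent.Collatz3.PRTail2
import Pool.Agent.Collatz3.PRTail3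

set_option autoImplicit false

/-!
Tao's theorem in sifted sets: the theorem without hypotheses.
-/

namespace Pool.Agent.Collatz3.PR

theorem all : St_Main :=
  have hCh : St_Chain := thm_Chain thm_Loc thm_Pt thm_Err
  thm_Main (thm_Odd thm_Tail1 thm_Tail2 thm_Tail3 thm_VL (thm_Res thm_S1)
    (thm_CS (thm_Avg hCh (thm_Div hCh) thm_Sing) thm_S2)) thm_S1 thm_VC

end Pool.Agent.Collatz3.PR
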