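import Mathlib
import Pool.Agent.Collatz3.DNIface

set_option autoImplicit false

/-!
Natural density: averages of periodic functions over odd integers, and harmonic sums over odd
integers.
-/

namespace Pool.Agent.Collatz3.DN

open Finset Filter Topology
open Pool.Agent.Collatz3.PD

/-- The sum of a periodic function over an arithmetic progression of one period. -/
theorem sum_progression {M : ℕ} {g : ℤ → ℝ} (hg : Per M g) (u c : ℤ)
    (hu : IsCoprime u ((3 : ℤ) ^ M)) : ∑ r ∈ range (3 ^ M), g (u * r + c) = S M g := by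
  have hpos : (0 : ℤ) < 3 ^ M := by positivity
  have hcast : ((3 ^ M : ℕ) : ℤ) = 3 ^ M := by push_cast; rfl
  obtain ⟨φ, hφ⟩ : ∃ φ : ℕ → ℕ, φ = fun r : ℕ => ((u * (r : ℤ) + c) % 3 ^ M).toNat := ⟨_, rfl⟩
  have hval : ∀ r : ℕ, ((φ r : ℕ) : ℤ) = (u * r + c) % 3 ^ M := by
    intro r
    rw [hφ]
    exact Int.toNat_of_nonneg (Int.emod_nonneg _ hpos.ne')
  have hmem : ∀ r ∈ range (3 ^ M), φ r ∈ range (3 ^ M) := by
    intro r _
    rw [mem_range]
    have h1 := Int.emod_lt_of_pos (u * r + c) hpos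
    rw [← hval r] at h1
    omega
  have hinj : Set.InjOn φ (range (3 ^ M) : Set ℕ) := by
    intro r hr s hs h
    rw [mem_coe, mem_range] at hr hs
    have h1 : (u * r + c) % 3 ^ M = (u * s + c) % 3 ^ M := by
      rw [← hval r, ← hval s, h]
    have h2 : (3 : ℤ) ^ M ∣ u * (r - s) := by
      have h3 := Int.emod_emod_of_dvd
      have h4 : (3 : ℤ) ^ M ∣ (u * r + c) - (u * s + c) := Int.ModEq.dvd h1.symm
      have e : (u * r + c) - (u * s + c) = u * ((r : ℤ) - s) := by ring
      rwa [e] at h4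
    have h3 : (3 : ℤ) ^ M ∣ (r : ℤ) - s := hu.symm.dvd_of_dvd_mul_left h2
    have h4 : (r : ℤ) - s = 0 := by
      apply Int.eq_zero_of_abs_lt_dvd h3
      rw [abs_lt]
      constructor <;> omega
    omega
  have himg : (range (3 ^ M)).image φ = range (3 ^ M) := by
    apply eq_of_subset_of_card_le
    · intro x hx
      rw [mem_image] at hx
      obtain ⟨r, hr, rfl⟩ := hx
      exact hmem r hr
    · rw [card_image_of_injOn hinj]
  have hsum : ∑ y ∈ (range (3 ^ M)).image φ, g (y : ℤ) = ∑ r ∈ range (3 ^ M), g ((φ r : ℕ) : ℤ) :=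
    sum_image hinj
  rw [himg] at hsum
  unfold S
  rw [hsum]
  apply sum_congr rfl
  intro r _
  rw [hval, hg.emod]

theorem sum_log (c : ℝ) (hc : 1 ≤ c) (a b : ℕ) (hab : a ≤ b) :
    Real.log ((b + c) / (a + c)) ≤ ∑ i ∈ Ico a b, 1 / ((i : ℝ) + c) := by
  induction b, hab using Nat.le_induction with
  | base =>
    rw [div_self (by positivity), Real.log_one]
    exact sum_nonneg fun _ _ => by positivity
  | succ b hab ih =>
    rw [sum_Ico_succ_top hab]
    have h1 : Real.log (((b + 1 : ℕ) + c) / (a + c)) =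
        Real.log ((b + c) / (a + c)) + Real.log (((b + 1 : ℕ) + c) / (b + c)) := by
      rw [← Real.log_mul (by positivity) (by positivity)]
      congr 1
      field_simp
    have h2 : Real.log (((b + 1 : ℕ) + c) / (b + c)) ≤ 1 / ((b : ℝ) + c) := by
      have h3 := Real.log_le_sub_one_of_pos (x := ((b + 1 : ℕ) + c) / (b + c)) (by positivity)
      refine h3.trans (le_of_eq ?_)
      push_cast
      field_simp
      ring
    rw [h1]
    linarith

theorem avgLower : AvgLower := by
  intro M g hg hg0 Kc hKc ε hε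
  obtain ⟨i₁, hi₁⟩ := exists_nat_gt ((1 + Kc) / ε)
  refine ⟨i₁ + 1, fun i₀ hi L σ hσ => ?_⟩
  have hi0 : (0 : ℝ) < i₀ := by
    have : 0 < i₀ := by omega
    exact_mod_cast this
  have h3 : (0 : ℝ) < 3 ^ M := by positivity
  have hcop : IsCoprime (2 * σ) ((3 : ℤ) ^ M) := by
    apply IsCoprime.pow_right
    have : σ = 1 ∨ σ = -1 := by
      rcases abs_eq (by norm_num : (0 : ℤ) ≤ 1) |>.1 hσ with h | h
      · exact Or.inl h
      · exact Or.inr h
    rcases this with h | h
    · rw [h]; norm_num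
    · rw [h]; norm_num
  have hle : i₀ ≤ i₀ * 2 ^ L := Nat.le_mul_of_pos_right _ (by positivity)
  -- grouping
  have group : ∀ (f : ℕ → ℝ) (a b : ℕ), a ≤ b →
      ∑ j ∈ Ico (a * 3 ^ M) (b * 3 ^ M), f j =
        ∑ i ∈ Ico a b, ∑ r ∈ range (3 ^ M), f (i * 3 ^ M + r) := by
    intro f a b hab
    induction b, hab using Nat.le_induction with
    | base => simp
    | succ b hab ih =>
      rw [sum_Ico_succ_top hab, ← ih]
      have h1 : a * 3 ^ M ≤ b * 3 ^ M := Nat.mul_le_mul_right _ hab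
      have h2 : b * 3 ^ M ≤ (b + 1) * 3 ^ M := Nat.mul_le_mul_right _ (Nat.le_succ b)
      rw [← sum_Ico_consecutive f h1 h2]
      congr 1
      rw [Nat.succ_mul, sum_Ico_eq_sum_range, Nat.add_sub_cancel_left]
  have e : i₀ * 3 ^ M * 2 ^ L = i₀ * 2 ^ L * 3 ^ M := by ring
  rw [e, group _ _ _ hle]
  have hS0 : 0 ≤ S M g := S_nonneg hg0
  have block : ∀ i ∈ Ico i₀ (i₀ * 2 ^ L), A M g / 2 * (1 / ((i : ℝ) + (1 + Kc))) ≤
      ∑ r ∈ range (3 ^ M), g (σ * (2 * ((i * 3 ^ M + r : ℕ) : ℤ) + 1)) /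
        ((2 * (i * 3 ^ M + r) + 1 : ℕ) + Kc) := by
    intro i _
    have h1 : ∀ r ∈ range (3 ^ M), g (2 * σ * r + (σ * (2 * (i * 3 ^ M) + 1))) /
        (2 * ((i : ℝ) + 1) * 3 ^ M + Kc) ≤ g (σ * (2 * ((i * 3 ^ M + r : ℕ) : ℤ) + 1)) /
        ((2 * (i * 3 ^ M + r) + 1 : ℕ) + Kc) := by
      intro r hr
      rw [mem_range] at hr
      have e1 : 2 * σ * r + (σ * (2 * (i * 3 ^ M) + 1)) =
          σ * (2 * ((i * 3 ^ M + r : ℕ) : ℤ) + 1) := by
        push_cast
        ring
      rw [e1]
      apply div_le_div_of_nonneg_left (hg0 _) (by positivity)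
      have h2 : 2 * (i * 3 ^ M + r) + 1 ≤ 2 * (i + 1) * 3 ^ M := by
        have : 2 * (i + 1) * 3 ^ M = 2 * (i * 3 ^ M) + 2 * 3 ^ M := by ring
        omega
      have h4 : ((2 * (i * 3 ^ M + r) + 1 : ℕ) : ℝ) ≤ 2 * ((i : ℝ) + 1) * 3 ^ M := by
        exact_mod_cast h2
      linarith
    refine le_trans ?_ (sum_le_sum h1)
    rw [← sum_div, sum_progression hg _ _ hcop]
    unfold A
    rw [div_div, div_mul_div_comm, mul_one, div_le_div_iff₀ (by positivity) (by positivity)]
    apply mul_le_mul_of_nonneg_left _ hS0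
    have h5 : Kc ≤ 3 ^ M * 2 * Kc := by
      have : (1 : ℝ) ≤ 3 ^ M := one_le_pow₀ (by norm_num)
      nlinarith
    nlinarith
  refine le_trans ?_ (sum_le_sum block)
  rw [← mul_sum]
  have h6 := sum_log (1 + Kc) (by linarith) i₀ (i₀ * 2 ^ L) hle
  have h7 : L * Real.log 2 - ε ≤ Real.log (((i₀ * 2 ^ L : ℕ) + (1 + Kc)) / (i₀ + (1 + Kc))) := by
    have h8 : (2 : ℝ) ^ L / (1 + (1 + Kc) / i₀) ≤
        ((i₀ * 2 ^ L : ℕ) + (1 + Kc)) / (i₀ + (1 + Kc)) := by
      rw [div_le_div_iff₀ (by positivity) (by positivity)]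
      push_cast
      have h9 : ((i₀ : ℝ) * 2 ^ L + (1 + Kc)) * (1 + (1 + Kc) / i₀) =
          2 ^ L * (i₀ + (1 + Kc)) + (1 + Kc) * (1 + (1 + Kc) / i₀) := by
        field_simp
      rw [h9]
      have : 0 ≤ (1 + Kc) * (1 + (1 + Kc) / (i₀ : ℝ)) := by positivity
      linarith
    have h10 := Real.log_le_log (by positivity) h8
    refine le_trans ?_ h10
    rw [Real.log_div (by positivity) (by positivity), Real.log_pow]
    have h11 := Real.log_le_sub_one_of_pos (x := 1 + (1 + Kc) / (i₀ : ℝ)) (by positivity)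
    have h12 : (1 + Kc) / (i₀ : ℝ) ≤ ε := by
      rw [div_le_iff₀ hi0]
      rw [div_lt_iff₀ hε] at hi₁
      have : (i₁ : ℝ) ≤ i₀ := by exact_mod_cast (by omega : i₁ ≤ i₀)
      nlinarith
    linarith
  have hA0 : 0 ≤ A M g := A_nonneg hg0
  calc (L * Real.log 2 - ε) / 2 * A M g = A M g / 2 * (L * Real.log 2 - ε) := by ring
    _ ≤ A M g / 2 * ∑ i ∈ Ico i₀ (i₀ * 2 ^ L), 1 / ((i : ℝ) + (1 + Kc)) :=
        mul_le_mul_of_nonneg_left (h7.trans h6) (by positivity)

theorem odd_sum_le (x : ℝ) (hx : 1 ≤ x) (k : ℕ) :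
    ∑ i ∈ (range k).filter (fun i : ℕ => x < 2 * (i : ℝ) + 1), 1 / (2 * (i : ℝ) + 1) ≤
      1 / x + Real.log (max x (2 * (k : ℝ) - 1) / x) / 2 := by
  have hlog : ∀ k : ℕ, 0 ≤ Real.log (max x (2 * (k : ℝ) - 1) / x) := by
    intro k
    apply Real.log_nonneg
    rw [one_le_div (by linarith)]
    exact le_max_left _ _
  induction k with
  | zero =>
    have := hlog 0
    simp only [range_zero, filter_empty, sum_empty]
    positivity
  | succ k ih =>
    rw [range_add_one, filter_insert]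
    by_cases h : x < 2 * (k : ℝ) + 1
    · rw [if_pos h, sum_insert (by simp)]
      by_cases h2 : x < 2 * (k : ℝ) - 1
      · have e1 : max x (2 * (k : ℝ) - 1) = 2 * k - 1 := max_eq_right h2.le
        have e2 : max x (2 * ((k + 1 : ℕ) : ℝ) - 1) = 2 * k + 1 := by
          push_cast
          rw [max_eq_right (by linarith)]
          ring
        rw [e1] at ih
        rw [e2]
        have h3 : Real.log ((2 * (k : ℝ) + 1) / x) =
            Real.log ((2 * (k : ℝ) - 1) / x) - Real.log ((2 * (k : ℝ) - 1) / (2 * k + 1)) := by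
          rw [Real.log_div (by linarith) (by linarith), Real.log_div (by linarith) (by linarith),
            Real.log_div (by linarith) (by linarith)]
          ring
        have h4 := Real.log_le_sub_one_of_pos (x := (2 * (k : ℝ) - 1) / (2 * k + 1))
          (div_pos (by linarith) (by linarith))
        have h5 : (2 * (k : ℝ) - 1) / (2 * k + 1) - 1 = -2 * (1 / (2 * k + 1)) := by
          have : (2 * (k : ℝ) + 1) ≠ 0 := by linarith
          field_simp
          ring
        rw [h3]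
        linarith
      · have h3 : ∑ i ∈ (range k).filter (fun i : ℕ => x < 2 * (i : ℝ) + 1),
            1 / (2 * (i : ℝ) + 1) = 0 := by
          rw [filter_false_of_mem, sum_empty]
          intro i hi hcon
          rw [mem_range] at hi
          have : (i : ℝ) + 1 ≤ k := by exact_mod_cast hi
          apply h2
          linarith
        rw [h3]
        have h4 := hlog (k + 1)
        have h5 : 1 / (2 * (k : ℝ) + 1) ≤ 1 / x := one_div_le_one_div_of_le (by linarith) h.le
        linarith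
    · rw [if_neg h]
      refine ih.trans ?_
      have : Real.log (max x (2 * (k : ℝ) - 1) / x) ≤
          Real.log (max x (2 * ((k + 1 : ℕ) : ℝ) - 1) / x) := by
        apply Real.log_le_log (div_pos (lt_of_lt_of_le (by linarith) (le_max_left _ _))
          (by linarith))
        apply div_le_div_of_nonneg_right _ (by linarith)
        apply max_le_max le_rfl
        push_cast
        linarith
      linarith

theorem lsUpper : LSUpper := by
  intro σ x y hx hxy
  classical
  obtain ⟨k, hk⟩ : ∃ k : ℕ, k = (⌊y⌋₊ + 1) / 2 := ⟨_, rfl⟩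
  have hy0 : 0 ≤ y := by linarith
  have h1 : LS σ Set.univ x y =
      ∑ i ∈ (range k).filter (fun i : ℕ => x < 2 * (i : ℝ) + 1), 1 / (2 * (i : ℝ) + 1) := by
    unfold LS
    symm
    apply sum_bij (fun (i : ℕ) _ => 2 * i + 1)
    · intro i hi
      rw [mem_filter, mem_range] at hi
      simp only [mem_filter, mem_range]
      refine ⟨by omega, ?_, ⟨i, rfl⟩, Set.mem_univ _⟩
      push_cast
      exact hi.2
    · intro i _ j _ h
      omega
    · intro n hn
      simp only [mem_filter, mem_range] at hn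
      obtain ⟨h2, h3, ⟨i, rfl⟩, -⟩ := hn
      refine ⟨i, ?_, rfl⟩
      rw [mem_filter, mem_range]
      refine ⟨by omega, ?_⟩
      push_cast at h3
      exact h3
    · intro i _
      push_cast
      rfl
  rw [h1]
  have h2 := odd_sum_le x hx k
  have h3 : max x (2 * (k : ℝ) - 1) ≤ y := by
    apply max_le hxy
    have h4 : 2 * k ≤ ⌊y⌋₊ + 1 := by omega
    have h5 : (2 : ℝ) * k ≤ ⌊y⌋₊ + 1 := by exact_mod_cast h4
    have h6 := Nat.floor_le hy0
    linarith
  have h4 : Real.log (max x (2 * (k : ℝ) - 1) / x) ≤ Real.log (y / x) := by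
    apply Real.log_le_log (div_pos (lt_of_lt_of_le (by linarith) (le_max_left _ _)) (by linarith))
    exact div_le_div_of_nonneg_right h3 (by linarith)
  linarith

end Pool.Agent.Collatz3.DN
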