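import Mathlib
import Pool.Agent.Collatz3.DNAvg

set_option autoImplicit false

/-!
Natural density: existence, finitely many points capture everything but `ε`, countable additivity.
-/

namespace Pool.Agent.Collatz3.DN

open Finset Filter Topology
open Pool.Agent.Collatz3.PD
open Pool.Agent.Helper14 (T)

/-- `A` is backward invariant outside `[-C, C]`. -/
def BackInv (C : ℕ) (A : Set ℤ) : Prop := ∀ n : ℤ, (C : ℤ) < |n| → T n ∈ A → n ∈ A

open Classical in
/-- The part of a weighted sum over `F` with `c ∈ A`. -/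
noncomputable def kS (F : Finset ℤ) (κ : ℤ → ℝ) (A : Set ℤ) : ℝ :=
  ∑ c ∈ F.filter (fun c => c ∈ A), κ c

theorem kS_add_compl (F : Finset ℤ) (κ : ℤ → ℝ) (A : Set ℤ) :
    kS F κ A + kS F κ Aᶜ = ∑ c ∈ F, κ c := by
  classical
  unfold kS
  rw [← sum_filter_add_sum_filter_not F (fun c => c ∈ A) κ]
  congr 2
  ext c
  simp only [mem_filter, Set.mem_compl_iff]

/-- The lower bound for windows, for all backward invariant sets. -/
def WindowLowerB : Prop :=
  ∀ (σ : ℤ), |σ| = 1 → ∀ (C : ℕ) (ε : ℝ), 0 < ε → ∃ (K : ℕ) (F : Finset ℤ) (κ : ℤ → ℝ) (X₀ : ℝ),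
    1 ≤ K ∧ (1 - ε) * (K * Real.log 2 / 2) ≤ ∑ c ∈ F, κ c ∧ (∀ c ∈ F, 0 ≤ κ c) ∧
    ∀ A : Set ℤ, BackInv C A → ∀ X : ℝ, X₀ ≤ X → kS F κ A ≤ LS σ A X (2 ^ K * X)

/-- The proportion of the `m ≤ x` with `σ * m ∈ A`. -/
noncomputable def D (σ : ℤ) (A : Set ℤ) (x : ℝ) : ℝ :=
  (Set.ncard {m : ℕ | (m : ℝ) ≤ x ∧ σ * m ∈ A} : ℝ) / x

theorem EvInv.back {C : ℕ} {A : Set ℤ} (h : EvInv C A) : BackInv C A := fun n hn => (h n hn).1

theorem EvInv.compl {C : ℕ} {A : Set ℤ} (h : EvInv C A) : EvInv C Aᶜ := fun n hn =>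
  not_congr (h n hn)

theorem EvInv.mono {C C' : ℕ} (hC : C ≤ C') {A : Set ℤ} (h : EvInv C A) : EvInv C' A :=
  fun n hn => h n (lt_of_le_of_lt (by exact_mod_cast hC) hn)

theorem EvInv.iUnion {C : ℕ} {ι : Type*} {A : ι → Set ℤ} (h : ∀ i, EvInv C (A i)) :
    EvInv C (⋃ i, A i) := by
  intro n hn
  simp only [Set.mem_iUnion]
  exact exists_congr fun i => h i n hn

theorem LS_add_compl (σ : ℤ) (A : Set ℤ) (x y : ℝ) :
    LS σ A x y + LS σ Aᶜ x y = LS σ Set.univ x y := by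
  classical
  unfold LS
  rw [← sum_union]
  · apply sum_congr _ fun _ _ => rfl
    ext n
    simp only [mem_union, mem_filter, mem_range, Set.mem_compl_iff, Set.mem_univ, and_true]
    tauto
  · rw [disjoint_left]
    intro n h1 h2
    simp only [mem_filter, mem_range, Set.mem_compl_iff] at h1 h2
    exact h2.2.2.2 h1.2.2.2

theorem log_two_pow (K : ℕ) {X : ℝ} (hX : 0 < X) : Real.log (2 ^ K * X / X) = K * Real.log 2 := by
  rw [mul_div_assoc, div_self hX.ne', mul_one, Real.log_pow]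

theorem exists_lim {f : ℝ → ℝ}
    (h : ∀ ε : ℝ, 0 < ε → ∃ α : ℝ, ∀ᶠ x in atTop, |f x - α| ≤ ε) :
    ∃ d : ℝ, Tendsto f atTop (𝓝 d) := by
  apply cauchy_map_iff_exists_tendsto.1
  rw [Metric.cauchy_iff]
  refine ⟨inferInstance, fun ε hε => ?_⟩
  obtain ⟨α, hα⟩ := h (ε / 3) (by positivity)
  refine ⟨f '' {x | |f x - α| ≤ ε / 3}, image_mem_map hα, ?_⟩
  rintro _ ⟨x, hx, rfl⟩ _ ⟨y, hy, rfl⟩
  have hx' := abs_le.1 (show |f x - α| ≤ ε / 3 from hx)
  have hy' := abs_le.1 (show |f y - α| ≤ ε / 3 from hy)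
  rw [Real.dist_eq, abs_lt]
  constructor <;> linarith [hx'.1, hx'.2, hy'.1, hy'.2]

/-- The two-sided estimate of a window sum. -/
theorem window_bounds {σ : ℤ} {A : Set ℤ} {K : ℕ} {F : Finset ℤ} {κ : ℤ → ℝ} {ε X : ℝ}
    (hF : (1 - ε) * (K * Real.log 2 / 2) ≤ ∑ c ∈ F, κ c) (hX : 1 ≤ X)
    (h2 : kS F κ Aᶜ ≤ LS σ Aᶜ X (2 ^ K * X)) :
    LS σ A X (2 ^ K * X) ≤ kS F κ A + ε * (K * Real.log 2 / 2) + 1 / X := by
  have h3 := lsUpper σ X (2 ^ K * X) hX (le_mul_of_one_le_left (by linarith)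
    (one_le_pow₀ (by norm_num)))
  rw [log_two_pow K (by linarith), ← LS_add_compl σ A] at h3
  have h4 := kS_add_compl F κ A
  linarith

/-- **Existence of the natural density.** -/
theorem exists_dens (hW : WindowLowerB) (hD : WindowDens) {σ : ℤ} (hσ : |σ| = 1) {C : ℕ}
    {A : Set ℤ} (hA : EvInv C A) : ∃ d : ℝ, Tendsto (D σ A) atTop (𝓝 d) := by
  classical
  apply exists_lim
  intro ε hε
  obtain ⟨K, F, κ, X₀, hK, hF, hκ, h⟩ := hW σ hσ C (ε / 4) (by positivity)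
  have hB : 0 < K * Real.log 2 / 2 := by
    have : (0 : ℝ) < K := by exact_mod_cast hK
    have := Real.log_pos (show (1 : ℝ) < 2 by norm_num)
    positivity
  obtain ⟨B, hBd⟩ : ∃ B : ℝ, B = K * Real.log 2 / 2 := ⟨_, rfl⟩
  rw [← hBd] at hB
  have h2 := hD σ hσ C A hA K hK
  rw [Metric.tendsto_nhds] at h2
  have h3 : Tendsto (fun X : ℝ => 1 / X / B) atTop (𝓝 0) := by
    have := (tendsto_inv_atTop_zero (𝕜 := ℝ)).div_const B
    simpa [one_div] using this
  refine ⟨kS F κ A / B, ?_⟩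
  filter_upwards [h2 (ε / 4) (by positivity), eventually_ge_atTop X₀, eventually_ge_atTop 1,
    h3.eventually_lt_const (show (0 : ℝ) < ε / 4 by positivity)] with X e1 e2 e3 e4
  have l1 := h A hA.back X e2
  have l2 := h Aᶜ hA.compl.back X e2
  have l3 := window_bounds hF e3 l2
  rw [Real.dist_eq, sub_zero, ← hBd, abs_lt] at e1
  have l4 : kS F κ A / B ≤ LS σ A X (2 ^ K * X) / B :=
    div_le_div_of_nonneg_right l1 hB.le
  have l5 : LS σ A X (2 ^ K * X) / B ≤
      kS F κ A / B + ε / 4 + 1 / X / B := by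
    rw [← hBd] at l3
    refine (div_le_div_of_nonneg_right l3 hB.le).trans (le_of_eq ?_)
    field_simp
  show |D σ A X - _| ≤ ε
  unfold D
  rw [abs_le]
  constructor <;> linarith [e1.1, e1.2]

/-- Lower bound for the density. -/
theorem dens_ge (hD : WindowDens) {σ : ℤ} (hσ : |σ| = 1) {C : ℕ} {A : Set ℤ} (hA : EvInv C A)
    {d : ℝ} (hd : Tendsto (D σ A) atTop (𝓝 d)) {K : ℕ} (hK : 1 ≤ K) {s X₀ : ℝ}
    (h : ∀ X : ℝ, X₀ ≤ X → s ≤ LS σ A X (2 ^ K * X)) : s / (K * Real.log 2 / 2) ≤ d := by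
  have hB : 0 < K * Real.log 2 / 2 := by
    have : (0 : ℝ) < K := by exact_mod_cast hK
    have := Real.log_pos (show (1 : ℝ) < 2 by norm_num)
    positivity
  have h2 := (hD σ hσ C A hA K hK).add hd
  rw [zero_add] at h2
  apply ge_of_tendsto h2
  filter_upwards [eventually_ge_atTop X₀] with X hX
  have := div_le_div_of_nonneg_right (h X hX) hB.le
  unfold D
  linarith

/-- Upper bound for the density. -/
theorem dens_le (hD : WindowDens) {σ : ℤ} (hσ : |σ| = 1) {C : ℕ} {A : Set ℤ} (hA : EvInv C A)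
    {d : ℝ} (hd : Tendsto (D σ A) atTop (𝓝 d)) {K : ℕ} (hK : 1 ≤ K) {s X₀ : ℝ}
    (h : ∀ X : ℝ, X₀ ≤ X → LS σ A X (2 ^ K * X) ≤ s + 1 / X) : d ≤ s / (K * Real.log 2 / 2) := by
  have hB : 0 < K * Real.log 2 / 2 := by
    have : (0 : ℝ) < K := by exact_mod_cast hK
    have := Real.log_pos (show (1 : ℝ) < 2 by norm_num)
    positivity
  have h2 := (hD σ hσ C A hA K hK).add hd
  rw [zero_add] at h2
  have h3 : Tendsto (fun X : ℝ => (s + 1 / X) / (K * Real.log 2 / 2)) atTop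
      (𝓝 (s / (K * Real.log 2 / 2))) := by
    have h4 := ((tendsto_inv_atTop_zero (𝕜 := ℝ)).const_add s).div_const (K * Real.log 2 / 2)
    simpa [one_div] using h4
  apply le_of_tendsto_of_tendsto h2 h3
  filter_upwards [eventually_ge_atTop X₀] with X hX
  have := div_le_div_of_nonneg_right (h X hX) hB.le
  unfold D
  linarith

/-- The integers whose orbit meets `F`. -/
def Reach (F : Set ℤ) : Set ℤ := {n : ℤ | ∃ j : ℕ, T^[j] n ∈ F}

theorem Reach.back (F : Set ℤ) : BackInv 0 (Reach F) := by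
  rintro n - ⟨j, hj⟩
  exact ⟨j + 1, by rw [Function.iterate_succ_apply]; exact hj⟩

theorem Reach.evInv {F : Set ℤ} {C : ℕ} (hF : ∀ c ∈ F, |c| ≤ C) : EvInv C (Reach F) := by
  intro n hn
  constructor
  · rintro ⟨j, hj⟩
    exact ⟨j + 1, by rw [Function.iterate_succ_apply]; exact hj⟩
  · rintro ⟨j, hj⟩
    cases j with
    | zero =>
      have := hF n hj
      omega
    | succ j => exact ⟨j, by rw [Function.iterate_succ_apply] at hj; exact hj⟩

/-- **Finitely many points capture density `1 - ε`.** -/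
theorem exists_finset (hW : WindowLowerB) (hD : WindowDens) {σ : ℤ} (hσ : |σ| = 1) {ε : ℝ}
    (hε : 0 < ε) : ∃ F : Finset ℤ, ∃ d : ℝ, Tendsto (D σ (Reach (F : Set ℤ))) atTop (𝓝 d) ∧
      1 - ε ≤ d := by
  classical
  obtain ⟨K, F, κ, X₀, hK, hF, hκ, h⟩ := hW σ hσ 0 ε hε
  obtain ⟨C, hC⟩ : ∃ C : ℕ, ∀ c ∈ (F : Set ℤ), |c| ≤ C := by
    refine ⟨F.sup Int.natAbs, fun c hc => ?_⟩
    have h1 : c.natAbs ≤ F.sup Int.natAbs := le_sup (f := Int.natAbs) (mem_coe.1 hc)
    rw [Int.abs_eq_natAbs]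
    exact_mod_cast h1
  have hinv := Reach.evInv hC
  obtain ⟨d, hd⟩ := exists_dens hW hD hσ hinv
  refine ⟨F, d, hd, ?_⟩
  have hB : 0 < K * Real.log 2 / 2 := by
    have : (0 : ℝ) < K := by exact_mod_cast hK
    have := Real.log_pos (show (1 : ℝ) < 2 by norm_num)
    positivity
  have h1 := dens_ge hD hσ hinv hd hK (s := ∑ c ∈ F, κ c) (X₀ := X₀) (fun X hX => by
    have h2 := h (Reach (F : Set ℤ)) (Reach.back _) X hX
    have h3 : F.filter (fun c => c ∈ Reach (F : Set ℤ)) = F := by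
      rw [filter_eq_self]
      intro c hc
      exact ⟨0, mem_coe.2 hc⟩
    have h4 : kS F κ (Reach (F : Set ℤ)) = ∑ c ∈ F, κ c := by
      unfold kS
      convert rfl using 2
      exact h3.symm
    rw [h4] at h2
    exact h2)
  refine le_trans ?_ h1
  rw [le_div_iff₀ hB]
  exact hF

theorem D_nonneg (σ : ℤ) (A : Set ℤ) {x : ℝ} (hx : 0 ≤ x) : 0 ≤ D σ A x := by
  unfold D
  positivity

theorem count_finite (σ : ℤ) (A : Set ℤ) (x : ℝ) :
    {m : ℕ | (m : ℝ) ≤ x ∧ σ * m ∈ A}.Finite := by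
  apply (Set.finite_Iic ⌊x⌋₊).subset
  intro m hm
  exact Nat.le_floor hm.1

theorem D_mono {σ : ℤ} {A B : Set ℤ} (h : A ⊆ B) {x : ℝ} (hx : 0 ≤ x) : D σ A x ≤ D σ B x := by
  unfold D
  apply div_le_div_of_nonneg_right _ hx
  have hsub : {m : ℕ | (m : ℝ) ≤ x ∧ σ * m ∈ A} ⊆ {m : ℕ | (m : ℝ) ≤ x ∧ σ * m ∈ B} :=
    fun m hm => ⟨hm.1, h hm.2⟩
  exact_mod_cast Set.ncard_le_ncard hsub (count_finite σ B x)

theorem D_union {σ : ℤ} {A B : Set ℤ} (h : Disjoint A B) (x : ℝ) :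
    D σ (A ∪ B) x = D σ A x + D σ B x := by
  unfold D
  rw [← add_div]
  congr 1
  have e : {m : ℕ | (m : ℝ) ≤ x ∧ σ * m ∈ A ∪ B} =
      {m : ℕ | (m : ℝ) ≤ x ∧ σ * m ∈ A} ∪ {m : ℕ | (m : ℝ) ≤ x ∧ σ * m ∈ B} := by
    ext m
    simp only [Set.mem_ofPred_eq, Set.mem_union]
    tauto
  rw [e, Set.ncard_union_eq _ (count_finite σ A x) (count_finite σ B x)]
  · push_cast
    rfl
  · rw [Set.disjoint_left]
    intro m h1 h2
    exact Set.disjoint_left.1 h h1.2 h2.2

theorem D_univ {σ : ℤ} : Tendsto (D σ Set.univ) atTop (𝓝 1) := by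
  have h1 : ∀ᶠ x : ℝ in atTop, D σ Set.univ x = ((⌊x⌋₊ : ℝ) + 1) / x := by
    filter_upwards [eventually_ge_atTop 0] with x hx
    unfold D
    congr 1
    have e : {m : ℕ | (m : ℝ) ≤ x ∧ σ * m ∈ Set.univ} = ((Finset.range (⌊x⌋₊ + 1) : Finset ℕ) : Set ℕ) := by
      ext m
      simp only [Set.mem_ofPred_eq, Set.mem_univ, and_true, coe_range, Set.mem_Iio,
        Nat.lt_succ_iff]
      rw [Nat.le_floor_iff hx]
    rw [e, Set.ncard_coe_finset, card_range]
    push_cast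
    rfl
  have h2 : Tendsto (fun x : ℝ => ((⌊x⌋₊ : ℝ) + 1) / x) atTop (𝓝 1) := by
    have h3 := (tendsto_nat_floor_div_atTop (R := ℝ)).add (tendsto_inv_atTop_zero (𝕜 := ℝ))
    rw [add_zero] at h3
    refine h3.congr fun x => ?_
    rw [add_div, one_div]
  exact h2.congr' (h1.mono fun x hx => hx.symm)

/-- **Countable additivity.** -/
theorem hasSum_dens (hW : WindowLowerB) (hD : WindowDens) {σ : ℤ} (hσ : |σ| = 1) {C : ℕ}
    {A : ℕ → Set ℤ} (hA : ∀ i, EvInv C (A i)) (hdis : Pairwise (Function.onFun Disjoint A))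
    {d : ℕ → ℝ} (hd : ∀ i, Tendsto (D σ (A i)) atTop (𝓝 (d i))) {e : ℝ}
    (he : Tendsto (D σ (⋃ i, A i)) atTop (𝓝 e)) : HasSum d e := by
  classical
  have hd0 : ∀ i, 0 ≤ d i := fun i => ge_of_tendsto (hd i) (by
    filter_upwards [eventually_ge_atTop 0] with x hx
    exact D_nonneg σ _ hx)
  rw [hasSum_iff_tendsto_nat_of_nonneg hd0]
  -- finite unions
  have hfin : ∀ n : ℕ, Tendsto (D σ (⋃ i ∈ range n, A i)) atTop (𝓝 (∑ i ∈ range n, d i)) := by
    intro n
    induction n with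
    | zero =>
      have e1 : (⋃ i ∈ range 0, A i) = ∅ := by simp
      rw [e1, sum_range_zero]
      have e2 : D σ ∅ = fun _ => 0 := by
        funext x
        unfold D
        simp
      rw [e2]
      exact tendsto_const_nhds
    | succ n ih =>
      have e1 : (⋃ i ∈ range (n + 1), A i) = (⋃ i ∈ range n, A i) ∪ A n := by
        ext m
        simp only [Set.mem_iUnion, mem_range, Set.mem_union, exists_prop]
        constructor
        · rintro ⟨i, hi, hm⟩
          rcases Nat.lt_succ_iff_lt_or_eq.1 hi with h | h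
          · exact Or.inl ⟨i, h, hm⟩
          · rw [h] at hm
            exact Or.inr hm
        · rintro (⟨i, hi, hm⟩ | hm)
          · exact ⟨i, by omega, hm⟩
          · exact ⟨n, by omega, hm⟩
      have hdj : Disjoint (⋃ i ∈ range n, A i) (A n) := by
        rw [Set.disjoint_left]
        intro m hm hm'
        simp only [Set.mem_iUnion, mem_range, exists_prop] at hm
        obtain ⟨i, hi, hm⟩ := hm
        exact Set.disjoint_left.1 (hdis (show i ≠ n by omega)) hm hm'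
      rw [e1, sum_range_succ]
      refine (ih.add (hd n)).congr fun x => ?_
      rw [D_union hdj]
  rw [Metric.tendsto_atTop]
  intro ε hε
  obtain ⟨K, F, κ, X₀, hK, hF, hκ, h⟩ := hW σ hσ C (ε / 2) (by positivity)
  have hB : 0 < K * Real.log 2 / 2 := by
    have : (0 : ℝ) < K := by exact_mod_cast hK
    have := Real.log_pos (show (1 : ℝ) < 2 by norm_num)
    positivity
  -- an index beyond which nothing meets `F`
  obtain ⟨n₀, hn₀⟩ : ∃ n₀ : ℕ, ∀ c ∈ F, ∀ i, c ∈ A i → i < n₀ := by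
    have : ∀ c : ℤ, ∃ n : ℕ, ∀ i, c ∈ A i → i < n := by
      intro c
      by_cases hc : ∃ i, c ∈ A i
      · obtain ⟨i, hi⟩ := hc
        refine ⟨i + 1, fun j hj => ?_⟩
        by_contra hcon
        exact Set.disjoint_left.1 (hdis (show i ≠ j by omega)) hi hj
      · exact ⟨0, fun i hi => absurd ⟨i, hi⟩ hc⟩
    choose N hN using this
    exact ⟨F.sup N, fun c hc i hi => lt_of_lt_of_le (hN c i hi) (le_sup (f := N) hc)⟩
  refine ⟨n₀, fun n hn => ?_⟩
  obtain ⟨R, hR⟩ : ∃ R : Set ℤ, R = ⋃ i : {i : ℕ // n ≤ i}, A i := ⟨_, rfl⟩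
  have hRinv : EvInv C R := by
    rw [hR]
    exact EvInv.iUnion fun i => hA i
  have hRdis : Disjoint (⋃ i ∈ range n, A i) R := by
    rw [Set.disjoint_left, hR]
    intro m hm hm'
    simp only [Set.mem_iUnion, mem_range, exists_prop, Subtype.exists] at hm hm'
    obtain ⟨i, hi, hm⟩ := hm
    obtain ⟨j, hj, hm'⟩ := hm'
    exact Set.disjoint_left.1 (hdis (show i ≠ j by omega)) hm hm'
  have hunion : (⋃ i ∈ range n, A i) ∪ R = ⋃ i, A i := by
    ext m
    simp only [hR, Set.mem_union, Set.mem_iUnion, mem_range, exists_prop, Subtype.exists]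
    constructor
    · rintro (⟨i, -, hm⟩ | ⟨i, -, hm⟩)
      · exact ⟨i, hm⟩
      · exact ⟨i, hm⟩
    · rintro ⟨i, hm⟩
      by_cases hi : i < n
      · exact Or.inl ⟨i, hi, hm⟩
      · exact Or.inr ⟨i, by omega, hm⟩
  have hRd : Tendsto (D σ R) atTop (𝓝 (e - ∑ i ∈ range n, d i)) := by
    refine (he.sub (hfin n)).congr fun x => ?_
    rw [← hunion, D_union hRdis]
    ring
  have hR0 : 0 ≤ e - ∑ i ∈ range n, d i := ge_of_tendsto hRd (by
    filter_upwards [eventually_ge_atTop 0] with x hx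
    exact D_nonneg σ _ hx)
  have hempty : kS F κ R = 0 := by
    unfold kS
    apply sum_eq_zero
    intro c hc
    rw [mem_filter] at hc
    exfalso
    obtain ⟨hc, hcR⟩ := hc
    rw [hR] at hcR
    simp only [Set.mem_iUnion, Subtype.exists, exists_prop] at hcR
    obtain ⟨i, hi, hci⟩ := hcR
    have := hn₀ c hc i hci
    omega
  have h1 := dens_le hD hσ hRinv hRd hK (s := ε / 2 * (K * Real.log 2 / 2)) (X₀ := max X₀ 1)
    (fun X hX => by
      have hX0 : X₀ ≤ X := (le_max_left _ _).trans hX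
      have hX1 : 1 ≤ X := (le_max_right _ _).trans hX
      have h2 := window_bounds hF hX1 (h Rᶜ hRinv.compl.back X hX0)
      rw [hempty, zero_add] at h2
      exact h2)
  rw [mul_div_assoc, div_self hB.ne', mul_one] at h1
  rw [dist_comm, Real.dist_eq, abs_of_nonneg hR0]
  linarith

end Pool.Agent.Collatz3.DN
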