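import Mathlib
import Pool.Agent.Collatz3.PDProb

set_option autoImplicit false

/-!
Natural density: exponential tails with an arbitrary relative error.
-/

namespace Pool.Agent.Collatz3.DN

open Finset
open Pool.Agent.Collatz3.Mix (words mem_words sum_words_zero sum_words_succ)
open Pool.Agent.Collatz3.PD

/-- Upper tail, with an arbitrary relative error. -/
theorem upper (δ : ℝ) (hδ : 0 < δ) : ∃ ρ : ℝ, 0 < ρ ∧ ρ < 1 ∧ ∀ I d : ℕ,
    P ((words I d).filter fun w => (2 + δ) * d < (w.sum : ℝ)) ≤ ρ ^ d := by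
  obtain ⟨s, hs⟩ : ∃ s : ℝ, s = δ / (2 * (1 + δ)) := ⟨_, rfl⟩
  have hs0 : 0 < s := by rw [hs]; positivity
  have hs1 : s * (2 * (1 + δ)) = δ := by rw [hs]; field_simp
  have hs2 : s < 1 / 2 := by
    rw [hs, div_lt_iff₀ (by positivity)]
    linarith
  obtain ⟨b, hb⟩ : ∃ b : ℝ, b = (1 + s) ^ (2 + δ) := ⟨_, rfl⟩
  have hb0 : 0 < b := by rw [hb]; exact Real.rpow_pos_of_pos (by linarith) _
  have hbge : (1 + s) * (1 + (1 + δ) * s) ≤ b := by
    rw [hb, show 2 + δ = 1 + (1 + δ) by ring, Real.rpow_add (by linarith), Real.rpow_one]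
    apply mul_le_mul_of_nonneg_left _ (by linarith)
    exact one_add_mul_self_le_rpow_one_add (by linarith) (by linarith)
  have hlt : (1 + s) / (1 - s) < b := by
    refine lt_of_lt_of_le ?_ hbge
    rw [div_lt_iff₀ (by linarith)]
    have h1 : 1 < (1 + (1 + δ) * s) * (1 - s) := by
      have : (1 + δ) * s = δ / 2 := by linarith
      rw [this]
      have e : s * (1 + δ / 2) < δ / 2 := by nlinarith
      nlinarith
    have h2 : 0 < 1 + s := by linarith
    nlinarith
  refine ⟨(1 + s) / (1 - s) / b, by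
    have : 0 < 1 - s := by linarith
    positivity, by rw [div_lt_one hb0]; exact hlt, fun I d => ?_⟩
  have h1 : ∀ w ∈ (words I d).filter (fun w => (2 + δ) * d < (w.sum : ℝ)),
      (1 / 2 : ℝ) ^ w.sum ≤ ((1 + s) / 2) ^ w.sum * (1 / b) ^ d := by
    intro w hw
    rw [mem_filter] at hw
    have e2 : b ^ d ≤ (1 + s) ^ w.sum := by
      rw [hb, ← Real.rpow_natCast, ← Real.rpow_mul (by linarith), ← Real.rpow_natCast]
      exact Real.rpow_le_rpow_of_exponent_le (by linarith) hw.2.le
    have e3 : ((1 + s) / 2) ^ w.sum = (1 / 2) ^ w.sum * (1 + s) ^ w.sum := by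
      rw [← mul_pow]
      congr 1
      ring
    rw [e3, one_div b, inv_pow, mul_assoc]
    have e4 : 1 ≤ (1 + s) ^ w.sum * (b ^ d)⁻¹ := by
      rw [← div_eq_mul_inv, one_le_div (by positivity)]
      exact e2
    have e5 : (0 : ℝ) ≤ (1 / 2) ^ w.sum := by positivity
    nlinarith
  calc P ((words I d).filter fun w => (2 + δ) * d < (w.sum : ℝ))
      ≤ ∑ w ∈ (words I d).filter (fun w => (2 + δ) * d < (w.sum : ℝ)),
          ((1 + s) / 2) ^ w.sum * (1 / b) ^ d := sum_le_sum h1
    _ ≤ ∑ w ∈ words I d, ((1 + s) / 2) ^ w.sum * (1 / b) ^ d :=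
        sum_le_sum_of_subset_of_nonneg (filter_subset _ _) fun _ _ _ => by positivity
    _ = (∑ i ∈ Icc 1 I, ((1 + s) / 2) ^ i) ^ d * (1 / b) ^ d := by
        rw [← sum_mul, sum_pow_words]
    _ ≤ ((1 + s) / (1 - s)) ^ d * (1 / b) ^ d := by
        apply mul_le_mul_of_nonneg_right _ (by positivity)
        apply pow_le_pow_left₀ (sum_nonneg fun _ _ => by positivity)
        refine (geom_le I (by positivity) (by linarith)).trans (le_of_eq ?_)
        have : 1 - s ≠ 0 := by linarith
        have h2 : 1 - (1 + s) / 2 = (1 - s) / 2 := by ring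
        rw [h2]
        field_simp
    _ = ((1 + s) / (1 - s) / b) ^ d := by
        rw [← mul_pow]
        congr 1
        ring

/-- Lower tail, with an arbitrary relative error. -/
theorem lower (δ : ℝ) (hδ : 0 < δ) (hδ1 : δ < 1) : ∃ ρ : ℝ, 0 < ρ ∧ ρ < 1 ∧ ∀ I d : ℕ,
    P ((words I d).filter fun w => (w.sum : ℝ) < (2 - δ) * d) ≤ ρ ^ d := by
  obtain ⟨s, hs⟩ : ∃ s : ℝ, s = δ / 2 := ⟨_, rfl⟩
  have hs0 : 0 < s := by rw [hs]; positivity
  have hs2 : s < 1 / 2 := by rw [hs]; linarith
  -- `x = 1 - s`, `b = (1 - s) ^ (2 - δ)`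
  obtain ⟨b, hb⟩ : ∃ b : ℝ, b = (1 - s) ^ (2 - δ) := ⟨_, rfl⟩
  have hb0 : 0 < b := by rw [hb]; exact Real.rpow_pos_of_pos (by linarith) _
  have hlt : (1 - s) / (1 + s) < b := by
    have h1 : b = (1 - s) ^ 2 * (1 - s) ^ (-δ) := by
      rw [hb, show 2 - δ = 2 + -δ by ring, Real.rpow_add (by linarith)]
      norm_num
    have h2 : 1 + δ * s ≤ (1 - s) ^ (-δ) := by
      rw [Real.rpow_neg (by linarith), ← Real.inv_rpow (by linarith)]
      have h3 : 1 + s ≤ (1 - s)⁻¹ := by
        rw [← one_div, le_div_iff₀ (by linarith)]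
        nlinarith
      -- `log` inequality
      have h4 : (0 : ℝ) < (1 - s)⁻¹ := by
        have : 0 < 1 - s := by linarith
        positivity
      rw [Real.rpow_def_of_pos h4, Real.log_inv]
      have h5 : Real.log (1 - s) ≤ -s := by
        have := Real.log_le_sub_one_of_pos (x := 1 - s) (by linarith)
        linarith
      have h6 := Real.add_one_le_exp (-Real.log (1 - s) * δ)
      nlinarith
    have h3 : (1 - s) ^ 2 * (1 + δ * s) ≤ b := by
      rw [h1]
      exact mul_le_mul_of_nonneg_left h2 (by positivity)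
    refine lt_of_lt_of_le ?_ h3
    rw [div_lt_iff₀ (by linarith)]
    have h4 : 1 < (1 - s) * (1 + s) * (1 + δ * s) := by
      have : δ = 2 * s := by rw [hs]; ring
      rw [this]
      have h6 : 0 < s * s := mul_pos hs0 hs0
      have h7 : 0 < 1 - 2 * (s * s) := by nlinarith
      have h8 : (1 - s) * (1 + s) * (1 + 2 * s * s) = 1 + s * s * (1 - 2 * (s * s)) := by ring
      rw [h8]
      have h9 := mul_pos h6 h7
      linarith
    have h5 : 0 < 1 - s := by linarith
    nlinarith
  refine ⟨(1 - s) / (1 + s) / b, by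
    have : 0 < 1 - s := by linarith
    positivity, by rw [div_lt_one hb0]; exact hlt, fun I d => ?_⟩
  have h1 : ∀ w ∈ (words I d).filter (fun w => (w.sum : ℝ) < (2 - δ) * d),
      (1 / 2 : ℝ) ^ w.sum ≤ ((1 - s) / 2) ^ w.sum * (1 / b) ^ d := by
    intro w hw
    rw [mem_filter] at hw
    have e2 : b ^ d ≤ (1 - s) ^ w.sum := by
      rw [hb, ← Real.rpow_natCast, ← Real.rpow_mul (by linarith), ← Real.rpow_natCast]
      exact Real.rpow_le_rpow_of_exponent_ge (by linarith) (by linarith) hw.2.le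
    have e3 : ((1 - s) / 2) ^ w.sum = (1 / 2) ^ w.sum * (1 - s) ^ w.sum := by
      rw [← mul_pow]
      congr 1
      ring
    rw [e3, one_div b, inv_pow, mul_assoc]
    have e4 : 1 ≤ (1 - s) ^ w.sum * (b ^ d)⁻¹ := by
      rw [← div_eq_mul_inv, one_le_div (by positivity)]
      exact e2
    have e5 : (0 : ℝ) ≤ (1 / 2) ^ w.sum := by positivity
    nlinarith
  have h1s : 0 < 1 - s := by linarith
  calc P ((words I d).filter fun w => (w.sum : ℝ) < (2 - δ) * d)
      ≤ ∑ w ∈ (words I d).filter (fun w => (w.sum : ℝ) < (2 - δ) * d),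
          ((1 - s) / 2) ^ w.sum * (1 / b) ^ d := sum_le_sum h1
    _ ≤ ∑ w ∈ words I d, ((1 - s) / 2) ^ w.sum * (1 / b) ^ d :=
        sum_le_sum_of_subset_of_nonneg (filter_subset _ _) fun _ _ _ => by positivity
    _ = (∑ i ∈ Icc 1 I, ((1 - s) / 2) ^ i) ^ d * (1 / b) ^ d := by
        rw [← sum_mul, sum_pow_words]
    _ ≤ ((1 - s) / (1 + s)) ^ d * (1 / b) ^ d := by
        apply mul_le_mul_of_nonneg_right _ (by positivity)
        apply pow_le_pow_left₀ (sum_nonneg fun _ _ => by positivity)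
        refine (geom_le I (by positivity) (by linarith)).trans (le_of_eq ?_)
        have : 1 + s ≠ 0 := by linarith
        have h2 : 1 - (1 - s) / 2 = (1 + s) / 2 := by ring
        rw [h2]
        field_simp
    _ = ((1 - s) / (1 + s) / b) ^ d := by
        rw [← mul_pow]
        congr 1
        ring

end Pool.Agent.Collatz3.DN
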