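import Mathlib
import Pool.Agent.Collatz3.PDCross
import Pool.Agent.Collatz3.DNTail

set_option autoImplicit false

/-!
Natural density: expected number of visits to a window of `K` octaves.
-/

namespace Pool.Agent.Collatz3.DN

open Finset
open Pool.Agent.Collatz3.Mix (words mem_words sum_words_zero sum_words_succ)
open Pool.Agent.Collatz3.PD

/-- The sum `s` at level `n` is in the window. -/
def Wn (Y K n s : ℕ) : Prop := lam Y n < s ∧ s ≤ lam Y n + K

instance (Y K n s : ℕ) : Decidable (Wn Y K n s) := by unfold Wn; infer_instance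

/-- Expected number of visits to the window within `R` steps, from the sum `σ` at level `n`. -/
noncomputable def hitW (I R Y K n σ : ℕ) : ℝ :=
  ∑ j ∈ Icc 1 R, P ((words I j).filter fun v => Wn Y K (n + j) (σ + v.sum))

/-- Probability to be strictly above after `R` steps. -/
noncomputable def crossS (I R Y n σ : ℕ) : ℝ :=
  P ((words I R).filter fun v => lam Y (n + R) < σ + v.sum)

theorem hitW_nonneg (I R Y K n σ : ℕ) : 0 ≤ hitW I R Y K n σ :=
  sum_nonneg fun _ _ => P_nonneg _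

theorem hitW_mono {R R' : ℕ} (h : R ≤ R') (I Y K n σ : ℕ) :
    hitW I R Y K n σ ≤ hitW I R' Y K n σ := by
  apply sum_le_sum_of_subset_of_nonneg (Icc_subset_Icc le_rfl h)
  intro _ _ _
  exact P_nonneg _

theorem hitW_succ (I R Y K n σ : ℕ) : hitW I (R + 1) Y K n σ =
    P ((words I 1).filter fun v => Wn Y K (n + 1) (σ + v.sum)) +
      ∑ i ∈ Icc 1 I, (1 / 2 : ℝ) ^ i * hitW I R Y K (n + 1) (σ + i) := by
  unfold hitW
  have h1 : ∑ j ∈ Icc 1 (R + 1), P ((words I j).filter fun v => Wn Y K (n + j) (σ + v.sum)) =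
      P ((words I 1).filter fun v => Wn Y K (n + 1) (σ + v.sum)) +
        ∑ j ∈ Icc 1 R, P ((words I (j + 1)).filter fun v => Wn Y K (n + (j + 1)) (σ + v.sum)) := by
    rw [← sum_image (s := Icc 1 R) (g := fun j => j + 1)
      (f := fun j => P ((words I j).filter fun v => Wn Y K (n + j) (σ + v.sum)))
      (by intro a _ b _ h; simpa using h)]
    have e : Icc 1 (R + 1) = insert 1 ((Icc 1 R).image fun j => j + 1) := by
      ext j
      simp only [mem_Icc, mem_insert, mem_image]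
      constructor
      · intro h
        rcases Nat.lt_or_ge 1 j with h2 | h2
        · exact Or.inr ⟨j - 1, by omega, by omega⟩
        · exact Or.inl (by omega)
      · rintro (h | ⟨a, h, rfl⟩) <;> omega
    rw [e, sum_insert]
    simp only [mem_image, mem_Icc, not_exists, not_and]
    intro x hx h
    omega
  rw [h1]
  congr 1
  simp only [mul_sum]
  rw [sum_comm]
  apply sum_congr rfl
  intro j _
  rw [P_filter_succ]
  apply sum_congr rfl
  intro i _
  congr 2
  apply filter_congr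
  intro v _
  rw [List.sum_cons, show n + (j + 1) = n + 1 + j by omega, ← Nat.add_assoc σ]

theorem crossS_succ (I R Y n σ : ℕ) : crossS I (R + 1) Y n σ =
    ∑ i ∈ Icc 1 I, (1 / 2 : ℝ) ^ i * crossS I R Y (n + 1) (σ + i) := by
  unfold crossS
  rw [P_filter_succ]
  apply sum_congr rfl
  intro i _
  congr 2
  apply filter_congr
  intro v _
  rw [List.sum_cons, show n + (R + 1) = n + 1 + R by omega, ← Nat.add_assoc σ]

theorem geom_Icc (t b : ℕ) : ∑ i ∈ Icc t (t + b), (1 / 2 : ℝ) ^ i =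
    2 * (1 / 2) ^ t * (1 - (1 / 2) ^ (b + 1)) := by
  induction b with
  | zero => simp; ring
  | succ b ih =>
    rw [← Nat.add_assoc, sum_Icc_succ_top (by omega), ih, Nat.add_assoc, pow_add, pow_succ]
    ring

theorem geom_trunc (t b I : ℕ) : (1 - (1 / 2 : ℝ) ^ (b + 1)) * ∑ i ∈ Icc t I, (1 / 2 : ℝ) ^ i ≤
    ∑ i ∈ (Icc t I).filter (fun i => i ≤ t + b), (1 / 2 : ℝ) ^ i := by
  have hp : (0 : ℝ) ≤ (1 / 2) ^ (b + 1) := by positivity
  have hp1 : ((1 : ℝ) / 2) ^ (b + 1) ≤ 1 := pow_le_one₀ (by norm_num) (by norm_num)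
  rcases Nat.lt_or_ge I (t + b) with h | h
  · have e : (Icc t I).filter (fun i => i ≤ t + b) = Icc t I := by
      ext i
      simp only [mem_filter, mem_Icc]
      omega
    rw [e]
    have : 0 ≤ ∑ i ∈ Icc t I, (1 / 2 : ℝ) ^ i := sum_nonneg fun _ _ => by positivity
    nlinarith
  · have e : (Icc t I).filter (fun i => i ≤ t + b) = Icc t (t + b) := by
      ext i
      simp only [mem_filter, mem_Icc]
      omega
    rw [e, geom_Icc]
    have h1 := tail_geom t I
    have h2 : 0 ≤ 1 - ((1 : ℝ) / 2) ^ (b + 1) := by linarith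
    nlinarith

/-- If every start slightly above the lower edge gives `β` expected visits within `q` steps, then
so does every start below, up to the probability to cross. -/
theorem hitW_cross {I q Y K b : ℕ} {β : ℝ} (hY : 1 ≤ Y) (hβ : 0 ≤ β)
    (h : ∀ n σ, lam Y n < σ → σ ≤ lam Y n + (b + 1) → β ≤ hitW I q Y K n σ) {R n σ : ℕ}
    (hσ : σ ≤ lam Y n) :
    (1 - (1 / 2 : ℝ) ^ (b + 1)) * β * crossS I R Y n σ ≤ hitW I (R + q) Y K n σ := by
  have hp1 : ((1 : ℝ) / 2) ^ (b + 1) ≤ 1 := pow_le_one₀ (by norm_num) (by norm_num)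
  obtain ⟨γ, hγ⟩ : ∃ γ : ℝ, γ = 1 - (1 / 2 : ℝ) ^ (b + 1) := ⟨_, rfl⟩
  have hγ0 : 0 ≤ γ := by rw [hγ]; linarith
  rw [← hγ]
  induction R generalizing n σ with
  | zero =>
    have h0 : crossS I 0 Y n σ = 0 := by
      unfold crossS
      rw [P_filter_zero, if_neg]
      simp only [Nat.add_zero, List.sum_nil, not_lt]
      exact hσ
    rw [h0, mul_zero]
    exact hitW_nonneg _ _ _ _ _ _
  | succ R ih =>
    obtain ⟨t, ht⟩ : ∃ t, lam Y (n + 1) + 1 = σ + t := ⟨lam Y (n + 1) + 1 - σ, by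
      have := lam_lt_succ hY n
      omega⟩
    have ht2 : 2 ≤ t := by
      have := lam_lt_succ hY n
      omega
    rw [show R + 1 + q = (R + q) + 1 by omega, hitW_succ, crossS_succ]
    have hP := P_nonneg ((words I 1).filter fun v => Wn Y K (n + 1) (σ + v.sum))
    have h1 : ∀ i ∈ Icc 1 I, γ * β * ((1 / 2 : ℝ) ^ i * crossS I R Y (n + 1) (σ + i)) ≤
        (if i < t then (1 / 2 : ℝ) ^ i * hitW I (R + q) Y K (n + 1) (σ + i) else 0) +
          γ * β * (if t ≤ i then (1 / 2 : ℝ) ^ i else 0) := by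
      intro i _
      have hp : (0 : ℝ) ≤ (1 / 2) ^ i := by positivity
      by_cases hi : t ≤ i
      · rw [if_pos hi, if_neg (by omega), zero_add]
        have h2 : crossS I R Y (n + 1) (σ + i) ≤ 1 := P_filter_le_one _ _ _
        have h3 := mul_le_mul_of_nonneg_left h2 hp
        rw [mul_one] at h3
        exact mul_le_mul_of_nonneg_left h3 (mul_nonneg hγ0 hβ)
      · rw [if_neg hi, if_pos (by omega), mul_zero, add_zero]
        have h2 := ih (n := n + 1) (σ := σ + i) (by omega)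
        have h3 := mul_le_mul_of_nonneg_left h2 hp
        calc γ * β * ((1 / 2 : ℝ) ^ i * crossS I R Y (n + 1) (σ + i)) =
            (1 / 2 : ℝ) ^ i * (γ * β * crossS I R Y (n + 1) (σ + i)) := by ring
          _ ≤ _ := h3
    have h2 : γ * β * ∑ i ∈ Icc 1 I, (if t ≤ i then (1 / 2 : ℝ) ^ i else 0) ≤
        ∑ i ∈ Icc 1 I, (if t ≤ i then (1 / 2 : ℝ) ^ i * hitW I (R + q) Y K (n + 1) (σ + i)
          else 0) := by
      rw [← sum_filter, ← sum_filter]
      have e : (Icc 1 I).filter (fun i => t ≤ i) = Icc t I := by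
        ext i
        simp only [mem_filter, mem_Icc]
        omega
      rw [e]
      have h3 := mul_le_mul_of_nonneg_right (geom_trunc t b I) hβ
      rw [← hγ] at h3
      calc γ * β * ∑ i ∈ Icc t I, (1 / 2 : ℝ) ^ i = γ * (∑ i ∈ Icc t I, (1 / 2 : ℝ) ^ i) * β := by
            ring
        _ ≤ (∑ i ∈ (Icc t I).filter (fun i => i ≤ t + b), (1 / 2 : ℝ) ^ i) * β := h3
        _ = ∑ i ∈ (Icc t I).filter (fun i => i ≤ t + b), (1 / 2 : ℝ) ^ i * β := by rw [sum_mul]
        _ ≤ ∑ i ∈ (Icc t I).filter (fun i => i ≤ t + b),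
              (1 / 2 : ℝ) ^ i * hitW I (R + q) Y K (n + 1) (σ + i) := by
            apply sum_le_sum
            intro i hi
            rw [mem_filter, mem_Icc] at hi
            apply mul_le_mul_of_nonneg_left _ (by positivity)
            exact (h (n + 1) (σ + i) (by omega) (by omega)).trans
              (hitW_mono (Nat.le_add_left q R) _ _ _ _ _)
        _ ≤ _ := sum_le_sum_of_subset_of_nonneg (filter_subset _ _) fun _ _ _ =>
            mul_nonneg (by positivity) (hitW_nonneg _ _ _ _ _ _)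
    have h3 := sum_le_sum h1
    rw [sum_add_distrib, ← mul_sum, ← mul_sum] at h3
    have h4 : ∑ i ∈ Icc 1 I, (1 / 2 : ℝ) ^ i * hitW I (R + q) Y K (n + 1) (σ + i) =
        ∑ i ∈ Icc 1 I, (if i < t then (1 / 2 : ℝ) ^ i * hitW I (R + q) Y K (n + 1) (σ + i)
          else 0) +
        ∑ i ∈ Icc 1 I, (if t ≤ i then (1 / 2 : ℝ) ^ i * hitW I (R + q) Y K (n + 1) (σ + i)
          else 0) := by
      rw [← sum_add_distrib]
      apply sum_congr rfl
      intro i _
      by_cases hi : t ≤ i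
      · rw [if_pos hi, if_neg (by omega), zero_add]
      · rw [if_neg hi, if_pos (by omega), add_zero]
    rw [h4]
    linarith

/-! ### The levels -/

/-- `log 3 / log 2`. -/
noncomputable def al : ℝ := Real.logb 2 3

theorem two_rpow_al : (2 : ℝ) ^ al = 3 := Real.rpow_logb (by norm_num) (by norm_num) (by norm_num)

theorem al_lt : al < 2 := by
  unfold al
  rw [Real.logb_lt_iff_lt_rpow (by norm_num) (by norm_num)]
  norm_num

theorem one_lt_al : 1 < al := by
  unfold al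
  rw [Real.lt_logb_iff_rpow_lt (by norm_num) (by norm_num)]
  norm_num

theorem lam_le {Y : ℕ} (hY : 1 ≤ Y) (n : ℕ) : (2 : ℝ) ^ lam Y n ≤ Y * 3 ^ n := by
  have h0 : Y * 3 ^ n ≠ 0 := by positivity
  have h1 : 2 ^ Nat.log 2 (Y * 3 ^ n) ≤ Y * 3 ^ n := Nat.pow_log_le_self 2 h0
  exact_mod_cast h1

theorem lt_lam (Y n : ℕ) : (Y : ℝ) * 3 ^ n < 2 ^ (lam Y n + 1) := by
  have h1 : Y * 3 ^ n < 2 ^ (Nat.log 2 (Y * 3 ^ n)).succ := Nat.lt_pow_succ_log_self (by norm_num) _
  exact_mod_cast h1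

theorem lam_add_lt {Y : ℕ} (hY : 1 ≤ Y) (n j : ℕ) :
    (lam Y (n + j) : ℝ) < lam Y n + 1 + j * al := by
  have h1 := lam_le hY (n + j)
  have h2 := lt_lam Y n
  have h3 : (2 : ℝ) ^ (lam Y (n + j) : ℝ) < 2 ^ ((lam Y n : ℝ) + 1 + j * al) := by
    rw [Real.rpow_add (by norm_num), mul_comm (j : ℝ) al, Real.rpow_mul (by norm_num), two_rpow_al,
      Real.rpow_natCast, Real.rpow_natCast]
    have h4 : (2 : ℝ) ^ ((lam Y n : ℝ) + 1) = 2 ^ (lam Y n + 1) := by
      rw [← Real.rpow_natCast]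
      push_cast
      rfl
    rw [h4]
    refine lt_of_le_of_lt h1 ?_
    rw [pow_add, ← mul_assoc]
    exact mul_lt_mul_of_pos_right h2 (by positivity)
  exact (Real.rpow_lt_rpow_left_iff (by norm_num)).1 h3

theorem lt_lam_add {Y : ℕ} (hY : 1 ≤ Y) (n j : ℕ) :
    (lam Y n : ℝ) + j * al < lam Y (n + j) + 1 := by
  have h1 := lam_le hY n
  have h2 := lt_lam Y (n + j)
  have h3 : (2 : ℝ) ^ ((lam Y n : ℝ) + j * al) < 2 ^ ((lam Y (n + j) : ℝ) + 1) := by
    rw [Real.rpow_add (by norm_num), mul_comm (j : ℝ) al, Real.rpow_mul (by norm_num), two_rpow_al,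
      Real.rpow_natCast, Real.rpow_natCast]
    have h4 : (2 : ℝ) ^ ((lam Y (n + j) : ℝ) + 1) = 2 ^ (lam Y (n + j) + 1) := by
      rw [← Real.rpow_natCast]
      push_cast
      rfl
    rw [h4]
    refine lt_of_le_of_lt ?_ h2
    rw [pow_add, ← mul_assoc]
    exact mul_le_mul_of_nonneg_right h1 (by positivity)
  exact (Real.rpow_lt_rpow_left_iff (by norm_num)).1 h3

/-- Expected number of visits from a start slightly above the lower edge. -/
theorem hitW_start {δ ρ₁ ρ₂ : ℝ} (h₁ : 0 < ρ₁) (h₁' : ρ₁ < 1) (h₂ : 0 < ρ₂) (h₂' : ρ₂ < 1)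
    (hlo : ∀ I d : ℕ, P ((words I d).filter fun w => (w.sum : ℝ) < (2 - δ) * d) ≤ ρ₁ ^ d)
    (hup : ∀ I d : ℕ, P ((words I d).filter fun w => (2 + δ) * d < (w.sum : ℝ)) ≤ ρ₂ ^ d)
    {I q Y K b j₁ : ℕ} (hY : 1 ≤ Y) (hj₁ : 1 ≤ (2 - δ - al) * j₁) (hδ : 0 < 2 - δ - al)
    (hq : (2 + δ - al) * q + b + 2 ≤ K) (hδ' : 0 < δ)
    {n σ : ℕ} (hσ : lam Y n < σ) (hσ' : σ ≤ lam Y n + (b + 1)) :
    (q : ℝ) - j₁ - 1 / (1 - ρ₁) - 1 / (1 - ρ₂) - q * (q * (1 / 2) ^ I) ≤ hitW I q Y K n σ := by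
  unfold hitW
  have key : ∀ j ∈ Icc 1 q, 1 - ρ₁ ^ j - ρ₂ ^ j - q * (1 / 2 : ℝ) ^ I - (if j < j₁ then 1 else 0) ≤
      P ((words I j).filter fun v => Wn Y K (n + j) (σ + v.sum)) := by
    intro j hj
    rw [mem_Icc] at hj
    by_cases hjj : j < j₁
    · rw [if_pos hjj]
      have e1 := P_nonneg ((words I j).filter fun v => Wn Y K (n + j) (σ + v.sum))
      have e2 : 0 ≤ ρ₁ ^ j := by positivity
      have e3 : 0 ≤ ρ₂ ^ j := by positivity
      have e4 : (0 : ℝ) ≤ q * (1 / 2) ^ I := by positivity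
      linarith
    · rw [if_neg hjj, sub_zero]
      have hsplit : P (words I j) ≤
          P ((words I j).filter fun v => Wn Y K (n + j) (σ + v.sum)) +
          P ((words I j).filter fun w => (w.sum : ℝ) < (2 - δ) * j) +
          P ((words I j).filter fun w => (2 + δ) * j < (w.sum : ℝ)) := by
        unfold P
        rw [sum_filter, sum_filter, sum_filter, ← sum_add_distrib, ← sum_add_distrib]
        apply sum_le_sum
        intro v hv
        have hp : (0 : ℝ) ≤ (1 / 2) ^ v.sum := by positivity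
        have hz : ∀ (p : Prop) [Decidable p], (0 : ℝ) ≤ if p then (1 / 2 : ℝ) ^ v.sum else 0 := by
          intro p _
          split_ifs
          · exact hp
          · exact le_rfl
        by_cases a1 : Wn Y K (n + j) (σ + v.sum)
        · rw [if_pos a1]
          have b1 := hz ((v.sum : ℝ) < (2 - δ) * j)
          have b2 := hz ((2 + δ) * j < (v.sum : ℝ))
          linarith
        · rw [if_neg a1]
          by_cases a2 : (v.sum : ℝ) < (2 - δ) * j
          · rw [if_pos a2]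
            have b2 := hz ((2 + δ) * j < (v.sum : ℝ))
            linarith
          · by_cases a3 : (2 + δ) * j < (v.sum : ℝ)
            · rw [if_pos a3]
              have b1 := hz ((v.sum : ℝ) < (2 - δ) * j)
              linarith
            · exfalso
              apply a1
              rw [not_lt] at a2 a3
              have c1 := lam_add_lt hY n j
              have c2 := lt_lam_add hY n j
              have hjr : (j₁ : ℝ) ≤ j := by exact_mod_cast not_lt.1 hjj
              have c3 : (1 : ℝ) ≤ (2 - δ - al) * j :=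
                hj₁.trans (mul_le_mul_of_nonneg_left hjr hδ.le)
              have c4 : ((lam Y n : ℕ) : ℝ) + 1 ≤ σ := by exact_mod_cast hσ
              have c5 : (σ : ℝ) ≤ lam Y n + (b + 1) := by exact_mod_cast hσ'
              have hjq : (j : ℝ) ≤ q := by exact_mod_cast hj.2
              have c6 : (2 + δ - al) * j ≤ (2 + δ - al) * q :=
                mul_le_mul_of_nonneg_left hjq (by linarith [al_lt])
              constructor
              · have : (lam Y (n + j) : ℝ) < ((σ + v.sum : ℕ) : ℝ) := by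
                  rw [Nat.cast_add]
                  linarith
                exact_mod_cast this
              · have : ((σ + v.sum : ℕ) : ℝ) ≤ ((lam Y (n + j) + K : ℕ) : ℝ) := by
                  rw [Nat.cast_add, Nat.cast_add]
                  linarith
                exact_mod_cast this
      have e1 := hlo I j
      have e2 := hup I j
      have e3 : 1 - (q : ℝ) * (1 / 2) ^ I ≤ P (words I j) := by
        rw [P_words]
        have f1 := one_sub_Z_pow I j
        have f2 : (j : ℝ) * (1 / 2) ^ I ≤ q * (1 / 2) ^ I :=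
          mul_le_mul_of_nonneg_right (by exact_mod_cast hj.2) (by positivity)
        linarith
      linarith
  refine le_trans ?_ (sum_le_sum key)
  simp only [sum_sub_distrib]
  have g1 : ∑ j ∈ Icc 1 q, (1 : ℝ) = q := by simp
  have g2 : ∀ ρ : ℝ, 0 < ρ → ρ < 1 → ∑ j ∈ Icc 1 q, ρ ^ j ≤ 1 / (1 - ρ) := by
    intro ρ hρ hρ'
    refine (geom_le q hρ.le hρ').trans ?_
    apply div_le_div_of_nonneg_right hρ'.le
    linarith
  have g3 : ∑ j ∈ Icc 1 q, (q : ℝ) * (1 / 2) ^ I = q * (q * (1 / 2) ^ I) := by simp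
  have g4 : ∑ j ∈ Icc 1 q, (if j < j₁ then (1 : ℝ) else 0) ≤ j₁ := by
    rw [← sum_filter, sum_const, nsmul_eq_mul, mul_one]
    have : ((Icc 1 q).filter fun j => j < j₁).card ≤ (range j₁).card := by
      apply card_le_card
      intro j hj
      rw [mem_filter] at hj
      exact mem_range.2 hj.2
    rw [card_range] at this
    exact_mod_cast this
  have g5 := g2 ρ₁ h₁ h₁'
  have g6 := g2 ρ₂ h₂ h₂'
  linarith

/-- Expected number of visits to the window. -/
theorem hitW_lower {ε : ℝ} (hε : 0 < ε) (hε1 : ε < 1) : ∃ K₀ : ℕ, ∀ K : ℕ, K₀ ≤ K →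
    ∃ q I₀ : ℕ, ∀ I R Y n σ : ℕ, I₀ ≤ I → 1 ≤ Y → σ ≤ lam Y n →
      (1 - ε) * (K / (2 - al)) * crossS I R Y n σ ≤ hitW I (R + q) Y K n σ := by
  obtain ⟨γ, hγ⟩ : ∃ γ : ℝ, γ = 2 - al := ⟨_, rfl⟩
  have hγ0 : 0 < γ := by rw [hγ]; linarith [al_lt]
  have hγ1 : γ < 1 := by rw [hγ]; linarith [one_lt_al]
  obtain ⟨e, he⟩ : ∃ e : ℝ, e = ε / 4 := ⟨_, rfl⟩
  have he0 : 0 < e := by rw [he]; positivity
  have he1 : e < 1 / 4 := by rw [he]; linarith
  obtain ⟨δ, hδ⟩ : ∃ δ : ℝ, δ = γ * e / 2 := ⟨_, rfl⟩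
  have hδ0 : 0 < δ := by rw [hδ]; positivity
  have hδ1 : δ < 1 := by rw [hδ]; nlinarith
  have hδ2 : δ < γ := by rw [hδ]; nlinarith
  obtain ⟨ρ₁, h₁, h₁', hlo⟩ := lower δ hδ0 hδ1
  obtain ⟨ρ₂, h₂, h₂', hup⟩ := upper δ hδ0
  obtain ⟨b, hb⟩ : ∃ b : ℕ, (1 / 2 : ℝ) ^ (b + 1) ≤ e := by
    obtain ⟨b, hb⟩ := exists_pow_lt_of_lt_one he0 (by norm_num : (1 / 2 : ℝ) < 1)
    refine ⟨b, ?_⟩
    rw [pow_succ]
    have : (0 : ℝ) ≤ (1 / 2) ^ b := by positivity
    linarith
  obtain ⟨j₁, hj₁⟩ : ∃ j₁ : ℕ, 1 ≤ (2 - δ - al) * j₁ := by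
    obtain ⟨j, hj⟩ := exists_nat_ge (1 / (2 - δ - al))
    refine ⟨j, ?_⟩
    have : 0 < 2 - δ - al := by linarith
    rw [div_le_iff₀ this] at hj
    linarith
  obtain ⟨C, hC⟩ : ∃ C : ℝ, C = j₁ + 1 / (1 - ρ₁) + 1 / (1 - ρ₂) + 2 := ⟨_, rfl⟩
  have hC0 : 0 ≤ C := by
    have a1 : 0 < 1 - ρ₁ := by linarith
    have a2 : 0 < 1 - ρ₂ := by linarith
    rw [hC]
    positivity
  obtain ⟨K₀, hK₀⟩ := exists_nat_ge (2 * (b + 2) / e + C * γ / e)
  refine ⟨K₀, fun K hK => ?_⟩
  have hKr : 2 * (b + 2) / e + C * γ / e ≤ (K : ℝ) := hK₀.trans (by exact_mod_cast hK)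
  have hK1 : 2 * ((b : ℝ) + 2) ≤ e * K := by
    have a1 : 2 * ((b : ℝ) + 2) / e ≤ K := by
      have : 0 ≤ C * γ / e := by positivity
      linarith
    rw [div_le_iff₀ he0] at a1
    linarith
  have hK2 : C * γ ≤ e * K := by
    have a1 : C * γ / e ≤ K := by
      have : 0 ≤ 2 * ((b : ℝ) + 2) / e := by positivity
      linarith
    rw [div_le_iff₀ he0] at a1
    linarith
  obtain ⟨q, hq⟩ : ∃ q : ℕ, q = ⌊(1 - e) * K / γ⌋₊ := ⟨_, rfl⟩
  have hq1 : (q : ℝ) ≤ (1 - e) * K / γ := by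
    rw [hq]
    apply Nat.floor_le
    have : 0 < 1 - e := by linarith
    positivity
  have hq2 : (1 - e) * K / γ < q + 1 := by
    rw [hq]
    exact Nat.lt_floor_add_one _
  obtain ⟨I₀, hI₀⟩ : ∃ I₀ : ℕ, (q : ℝ) * q * (1 / 2) ^ I₀ ≤ 1 := by
    obtain ⟨I₀, h⟩ := exists_pow_lt_of_lt_one (show (0 : ℝ) < 1 / (q * q + 1) by positivity)
      (by norm_num : (1 / 2 : ℝ) < 1)
    refine ⟨I₀, ?_⟩
    rw [lt_div_iff₀ (by positivity)] at h
    have : (0 : ℝ) ≤ (1 / 2) ^ I₀ := by positivity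
    nlinarith
  refine ⟨q, I₀, fun I R Y n σ hI hY hσ => ?_⟩
  have hqK : (2 + δ - al) * q + b + 2 ≤ K := by
    have a1 : (2 + δ - al) * q ≤ (γ + δ) * ((1 - e) * K / γ) := by
      have : 2 + δ - al = γ + δ := by rw [hγ]; ring
      rw [this]
      exact mul_le_mul_of_nonneg_left hq1 (by positivity)
    have a2 : (γ + δ) * ((1 - e) * K / γ) = (1 + e / 2) * (1 - e) * K := by
      rw [hδ]
      field_simp
    rw [a2] at a1
    have a3 : (1 + e / 2) * (1 - e) * (K : ℝ) ≤ (1 - e / 2) * K := by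
      apply mul_le_mul_of_nonneg_right _ (Nat.cast_nonneg K)
      nlinarith
    linarith
  have hstart := fun n σ (hσ : lam Y n < σ) (hσ' : σ ≤ lam Y n + (b + 1)) =>
    hitW_start h₁ h₁' h₂ h₂' hlo hup (I := I) (q := q) (K := K) (b := b) hY hj₁
      (by linarith) hqK hδ0 hσ hσ'
  obtain ⟨β, hβ⟩ : ∃ β : ℝ, β = (1 - 2 * e) * (K / γ) := ⟨_, rfl⟩
  have hβ0 : 0 ≤ β := by
    rw [hβ]
    have : 0 ≤ 1 - 2 * e := by linarith
    positivity
  have hstart' : ∀ n σ, lam Y n < σ → σ ≤ lam Y n + (b + 1) → β ≤ hitW I q Y K n σ := by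
    intro n σ a1 a2
    refine le_trans ?_ (hstart n σ a1 a2)
    have a3 : (q : ℝ) * (q * (1 / 2) ^ I) ≤ 1 := by
      refine le_trans ?_ hI₀
      rw [← mul_assoc]
      apply mul_le_mul_of_nonneg_left _ (by positivity)
      exact pow_le_pow_of_le_one (by norm_num) (by norm_num) hI
    have a4 : C ≤ e * K / γ := by
      rw [le_div_iff₀ hγ0]
      exact hK2
    have a5 : β = (1 - e) * K / γ - e * K / γ := by
      rw [hβ]
      field_simp
      ring
    rw [a5]
    have a6 : C = j₁ + 1 / (1 - ρ₁) + 1 / (1 - ρ₂) + 2 := hC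
    linarith
  have hmain := hitW_cross hY hβ0 hstart' (R := R) (n := n) (σ := σ) hσ
  refine le_trans ?_ hmain
  apply mul_le_mul_of_nonneg_right _ (P_nonneg _)
  rw [hβ, ← hγ]
  have b1 : (0 : ℝ) ≤ K / γ := by positivity
  have b2 : 1 - ε ≤ (1 - (1 / 2 : ℝ) ^ (b + 1)) * (1 - 2 * e) := by
    have : ε = 4 * e := by rw [he]; ring
    rw [this]
    nlinarith
  calc (1 - ε) * (K / γ) ≤ ((1 - (1 / 2 : ℝ) ^ (b + 1)) * (1 - 2 * e)) * (K / γ) :=
        mul_le_mul_of_nonneg_right b2 b1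
    _ = _ := by ring

end Pool.Agent.Collatz3.DN
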