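import Mathlib
import Pool.Agent.Collatz3.PDCount
import Pool.Agent.Collatz3.DNWin

set_option autoImplicit false

/-!
Natural density: the weighted count over a window of `K` octaves, at one scale.
-/

namespace Pool.Agent.Collatz3.DN

open Finset Filter
open Pool.Agent.Collatz3.Mix (words mem_words)
open Pool.Agent.Collatz3.PD

theorem E_filter_cat {N : ℕ} {G V : Finset (List ℕ)} (hG : ∀ w ∈ G, w.length = N)
    (p : List ℕ → Prop) [DecidablePred p] (f : ℤ → ℝ) (x : ℤ) :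
    E ((cat G V).filter p) f x = ∑ w ∈ G.filter (fun w => rd w x),
      3 ^ w.length * (1 / 2 : ℝ) ^ w.sum * E (V.filter fun v => p (w ++ v)) f (en w x) := by
  rw [E_eq, sum_filter, sum_cat hG, sum_filter]
  apply sum_congr rfl
  intro u _
  by_cases hu : rd u x
  · rw [if_pos hu, E_eq, sum_filter, mul_sum]
    apply sum_congr rfl
    intro v _
    by_cases hp : p (u ++ v)
    · rw [if_pos hp, if_pos hp, List.length_append, List.sum_append, pow_add, pow_add]
      by_cases hv : rd v (en u x)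
      · rw [if_pos (rd_append.2 ⟨hu, hv⟩), if_pos hv, en_append hu]
        ring
      · rw [if_neg (fun h => hv (rd_append.1 h).2), if_neg hv]
        ring
    · rw [if_neg hp, if_neg hp, mul_zero]
  · rw [if_neg hu]
    apply sum_eq_zero
    intro v _
    split_ifs with h1 h2
    · exact absurd (rd_append.1 h2).1 hu
    · rw [mul_zero]
    · rfl

theorem Wn_iff {Y K n s t : ℕ} (hs : s ≤ lam Y n) :
    Wn Y K n (s + t) ↔ ∃ j ∈ Icc 1 K, t = lam Y n + j - s := by
  unfold Wn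
  constructor
  · rintro ⟨h1, h2⟩
    exact ⟨s + t - lam Y n, mem_Icc.2 ⟨by omega, by omega⟩, by omega⟩
  · rintro ⟨j, hj, h⟩
    rw [mem_Icc] at hj
    omega

/-- The window as a sum of exact sums. -/
theorem E_win {I k Y K n s : ℕ} (hs : s ≤ lam Y n) (y : ℤ) :
    E ((words I k).filter fun v => Wn Y K n (s + v.sum)) (fun _ => 1) y =
      ∑ j ∈ Icc 1 K, 3 ^ k * Fw I k (lam Y n + j - s) k y := by
  simp only [← E_Vs, E_eq]
  simp only [Vs, sum_filter]
  rw [sum_comm]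
  apply sum_congr rfl
  intro v _
  by_cases h : Wn Y K n (s + v.sum)
  · rw [if_pos h]
    obtain ⟨j, hj, hjv⟩ := (Wn_iff hs).1 h
    rw [sum_eq_single j]
    · rw [if_pos hjv]
    · intro i hi hij
      rw [if_neg]
      intro h2
      rw [mem_Icc] at hi hj
      omega
    · intro h2
      exact absurd hj h2
  · rw [if_neg h]
    symm
    apply sum_eq_zero
    intro j hj
    rw [if_neg]
    intro h2
    exact h ((Wn_iff hs).2 ⟨j, hj, h2⟩)

/-- The coarse window. -/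
theorem coarse_win {I k m Y K n s : ℕ} (hm : m ≤ k) (hs : s ≤ lam Y n) (y : ℤ) :
    ∑ j ∈ Icc 1 K, 3 ^ m * Fw I k (lam Y n + j - s) m y =
      ∑ u ∈ (words I m).filter (fun u => rd u y), 3 ^ m * (1 / 2 : ℝ) ^ u.sum *
        P ((words I (k - m)).filter fun v => Wn Y K n (s + u.sum + v.sum)) := by
  have h1 : ∀ j ∈ Icc 1 K, 3 ^ m * Fw I k (lam Y n + j - s) m y =
      ∑ u ∈ (words I m).filter (fun u => rd u y), 3 ^ m * (1 / 2 : ℝ) ^ u.sum *
        P ((words I (k - m)).filter fun v => u.sum + v.sum = lam Y n + j - s) :=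
    fun j _ => coarse hm y
  rw [sum_congr rfl h1, sum_comm]
  apply sum_congr rfl
  intro u _
  rw [← mul_sum]
  congr 1
  unfold P
  simp only [sum_filter]
  rw [sum_comm]
  apply sum_congr rfl
  intro v _
  by_cases h : Wn Y K n (s + u.sum + v.sum)
  · rw [if_pos h]
    rw [Nat.add_assoc] at h
    obtain ⟨j, hj, hjv⟩ := (Wn_iff hs).1 h
    rw [sum_eq_single j]
    · rw [if_pos hjv]
    · intro i hi hij
      rw [if_neg]
      intro h2
      rw [mem_Icc] at hi hj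
      omega
    · intro h2
      exact absurd hj h2
  · rw [if_neg h]
    apply sum_eq_zero
    intro j hj
    rw [if_neg]
    intro h2
    apply h
    rw [Nat.add_assoc]
    exact (Wn_iff hs).2 ⟨j, hj, h2⟩

/-- The typical words of length `m`. -/
theorem U_sub_bad (I N m : ℕ) (y : ℤ) : U I m y - E (badV I N m) (fun _ => 1) y =
      ∑ u ∈ ((words I m).filter (fun u => rd u y)).filter (fun v => 199 * m ≤ 100 * v.sum ∧
        100 * v.sum ≤ 201 * m ∧ (cw v : ℝ) ≤ (5 / 4) ^ N * 2 ^ v.sum),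
        3 ^ m * (1 / 2 : ℝ) ^ u.sum := by
  have h3 := E_filter_add (words I m) (fun v => 199 * m ≤ 100 * v.sum ∧
    100 * v.sum ≤ 201 * m ∧ (cw v : ℝ) ≤ (5 / 4) ^ N * 2 ^ v.sum) (fun _ => 1) y
  rw [← U_eq] at h3
  have h4 : E ((words I m).filter (fun v => 199 * m ≤ 100 * v.sum ∧
    100 * v.sum ≤ 201 * m ∧ (cw v : ℝ) ≤ (5 / 4) ^ N * 2 ^ v.sum)) (fun _ => 1) y =
    ∑ u ∈ ((words I m).filter (fun u => rd u y)).filter (fun v => 199 * m ≤ 100 * v.sum ∧
      100 * v.sum ≤ 201 * m ∧ (cw v : ℝ) ≤ (5 / 4) ^ N * 2 ^ v.sum),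
      3 ^ m * (1 / 2 : ℝ) ^ u.sum := by
    unfold E
    refine sum_congr ?_ ?_
    · ext u
      simp only [mem_filter]
      tauto
    · intro u hu
      simp only [mem_filter] at hu
      rw [words_length hu.1.1, mul_one]
  rw [← h4, badV]
  linarith

/-- The coarse function is large. -/
theorem coarse_geW {N : ℕ} (hbig : 1000 ≤ N) {Y K s : ℕ} {β : ℝ} (hs1 : 199 * N ≤ 100 * s)
    (hs2 : 100 * s ≤ 201 * N) (h1 : 201 * (N + N / 20) < 100 * lam Y (N + N / 20))
    (hsl : ∀ k, N / 20 < k → s ≤ lam Y (N + k))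
    (hh : ∀ σ, σ ≤ lam Y (N + N / 20) → 199 * (N + N / 20) ≤ 100 * σ →
      β ≤ hitW (II N) (N / 4 - N / 20) Y K (N + N / 20) σ) (y : ℤ) :
    β * (U (II N) (N / 20) y - E (badV (II N) N (N / 20)) (fun _ => 1) y) ≤
      ∑ k ∈ Ioc (N / 20) (N / 4), ∑ j ∈ Icc 1 K,
        3 ^ (N / 20) * Fw (II N) k (lam Y (N + k) + j - s) (N / 20) y := by
  obtain ⟨I, hI⟩ : ∃ I, I = II N := ⟨_, rfl⟩
  obtain ⟨m, hm⟩ : ∃ m, m = N / 20 := ⟨_, rfl⟩
  obtain ⟨q, hq⟩ : ∃ q, q = N / 4 := ⟨_, rfl⟩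
  rw [← hI, ← hm, ← hq] at hh
  rw [← hm] at hsl
  rw [← hI, ← hm, ← hq]
  rw [← hm] at h1
  have hmq : m ≤ q := by omega
  -- rewrite the coarse function
  have e1 : ∑ k ∈ Ioc m q, ∑ j ∈ Icc 1 K, 3 ^ m * Fw I k (lam Y (N + k) + j - s) m y =
      ∑ u ∈ (words I m).filter (fun u => rd u y), 3 ^ m * (1 / 2 : ℝ) ^ u.sum *
        ∑ k ∈ Ioc m q, P ((words I (k - m)).filter fun v =>
          Wn Y K (N + k) (s + u.sum + v.sum)) := by
    rw [sum_congr rfl fun k hk => coarse_win (mem_Ioc.1 hk).1.le (hsl k (mem_Ioc.1 hk).1) y,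
      sum_comm]
    apply sum_congr rfl
    intro u _
    rw [mul_sum]
  rw [e1, U_sub_bad, mul_sum]
  refine le_trans ?_ (sum_le_sum_of_subset_of_nonneg (filter_subset (fun v : List ℕ =>
    199 * m ≤ 100 * v.sum ∧ 100 * v.sum ≤ 201 * m ∧ (cw v : ℝ) ≤ (5 / 4) ^ N * 2 ^ v.sum) _)
    fun u _ _ => mul_nonneg (by positivity) (sum_nonneg fun _ _ => P_nonneg _))
  apply sum_le_sum
  intro u hu
  rw [mem_filter, mem_filter] at hu
  obtain ⟨-, hu1, hu2, -⟩ := hu
  have key : β ≤ ∑ k ∈ Ioc m q,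
      P ((words I (k - m)).filter fun v => Wn Y K (N + k) (s + u.sum + v.sum)) := by
    have h3 : hitW I (q - m) Y K (N + m) (s + u.sum) = ∑ k ∈ Ioc m q,
        P ((words I (k - m)).filter fun v => Wn Y K (N + k) (s + u.sum + v.sum)) := by
      unfold hitW
      refine sum_nbij' (fun j => m + j) (fun k => k - m) ?_ ?_ ?_ ?_ ?_
      · intro j hj
        rw [mem_Icc] at hj
        rw [mem_Ioc]
        omega
      · intro k hk
        rw [mem_Ioc] at hk
        rw [mem_Icc]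
        omega
      · intro j hj
        omega
      · intro k hk
        rw [mem_Ioc] at hk
        omega
      · intro j hj
        rw [Nat.add_sub_cancel_left, Nat.add_assoc N m j]
    rw [← h3]
    exact hh _ (by omega) (by omega)
  calc β * (3 ^ m * (1 / 2 : ℝ) ^ u.sum) = 3 ^ m * (1 / 2 : ℝ) ^ u.sum * β := by ring
    _ ≤ _ := mul_le_mul_of_nonneg_left key (by positivity)

/-- The words of the window at scale `N`. -/
noncomputable def Hk (N K Y k : ℕ) (G : Finset (List ℕ)) : Finset (List ℕ) :=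
  (cat G (words (II N) k)).filter fun u => Wn Y K (N + k) u.sum ∧
    (cw (u.drop N) : ℝ) ≤ (5 / 4) ^ N * 2 ^ (u.drop N).sum

/-- All lengths. -/
noncomputable def Hs (N K Y : ℕ) (G : Finset (List ℕ)) : Finset (List ℕ) :=
  (Ioc (N / 20) (N / 4)).biUnion fun k => Hk N K Y k G

theorem mem_Hs {N K Y : ℕ} {G : Finset (List ℕ)} (hG : ∀ w ∈ G, w.length = N) {u : List ℕ} :
    u ∈ Hs N K Y G ↔ ∃ k w v, N / 20 < k ∧ k ≤ N / 4 ∧ w ∈ G ∧ v ∈ words (II N) k ∧ u = w ++ v ∧
      Wn Y K (N + k) (w.sum + v.sum) ∧ (cw v : ℝ) ≤ (5 / 4) ^ N * 2 ^ v.sum := by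
  unfold Hs Hk
  rw [mem_biUnion]
  constructor
  · rintro ⟨k, hk, hu⟩
    rw [mem_filter, cat, mem_image] at hu
    obtain ⟨⟨⟨w, v⟩, h1, rfl⟩, h2, h3⟩ := hu
    rw [mem_product] at h1
    rw [mem_Ioc] at hk
    simp only at h1 h2 h3
    rw [List.drop_left' (hG _ h1.1)] at h3
    exact ⟨k, w, v, hk.1, hk.2, h1.1, h1.2, rfl, by rwa [List.sum_append] at h2, h3⟩
  · rintro ⟨k, w, v, hk1, hk2, hw, hv, rfl, h2, h3⟩
    refine ⟨k, mem_Ioc.2 ⟨hk1, hk2⟩, ?_⟩
    rw [mem_filter, cat, mem_image]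
    refine ⟨⟨(w, v), mem_product.2 ⟨hw, hv⟩, rfl⟩, by rwa [List.sum_append], ?_⟩
    rw [List.drop_left' (hG _ hw)]
    exact h3

theorem E_Hs {N K Y : ℕ} {G : Finset (List ℕ)} (hG : ∀ w ∈ G, w.length = N) (f : ℤ → ℝ)
    (x : ℤ) : E (Hs N K Y G) f x = ∑ k ∈ Ioc (N / 20) (N / 4), E (Hk N K Y k G) f x := by
  simp only [E_eq]
  unfold Hs
  apply sum_biUnion
  intro k _ k' _ hkk
  rw [Function.onFun, disjoint_left]
  intro u hu hu'
  apply hkk
  unfold Hk at hu hu'
  rw [mem_filter, cat, mem_image] at hu hu'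
  obtain ⟨⟨⟨w, v⟩, h1, h2⟩, -⟩ := hu
  obtain ⟨⟨⟨w', v'⟩, h1', h2'⟩, -⟩ := hu'
  rw [mem_product] at h1 h1'
  have e1 := congrArg List.length (h2.trans h2'.symm)
  simp only [List.length_append] at e1
  rw [hG _ h1.1, hG _ h1'.1, words_length h1.2, words_length h1'.2] at e1
  omega

/-- The weighted count in the window, at one scale. -/
theorem mass {N Y K : ℕ} {Kc β : ℝ} (hE : Err2 N) (hK : 0 ≤ Kc) (hKN : Kc ≤ (N : ℝ) ^ 4)
    {G : Finset (List ℕ)} (hG : Good N (Kc + 1) G) (hβ : 0 ≤ β)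
    (h1 : 201 * (N + N / 20) < 100 * lam Y (N + N / 20))
    (hh : ∀ σ, σ ≤ lam Y (N + N / 20) → 199 * (N + N / 20) ≤ 100 * σ →
      β ≤ hitW (II N) (N / 4 - N / 20) Y K (N + N / 20) σ) (b : ℤ) :
    β * E G (U (II N) (N / 20)) b - (β + N * (K + 1)) * (2 / (N : ℝ) ^ 3) ≤
      E (Hs N K Y G) (fun _ => 1) b := by
  have hbig := hE.big
  have hNpos : (0 : ℝ) < N := by exact_mod_cast (by omega : 0 < N)
  obtain ⟨I, hI⟩ : ∃ I, I = II N := ⟨_, rfl⟩
  obtain ⟨m, hm⟩ : ∃ m, m = N / 20 := ⟨_, rfl⟩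
  obtain ⟨q, hq⟩ : ∃ q, q = N / 4 := ⟨_, rfl⟩
  have hmq : m ≤ q := by omega
  have hlamk : ∀ k, m < k → 201 * N ≤ 100 * lam Y (N + k) := by
    intro k hk
    have h3 := lam_mono Y (show N + N / 20 ≤ N + k by omega)
    omega
  -- the error terms
  have hc : 0 ≤ (N : ℝ) * (Kc + 1 + 1) := by positivity
  obtain ⟨ε, hε⟩ : ∃ ε : ℝ, ε = N * (Kc + 1 + 1) * (1 / (N : ℝ) ^ 8) := ⟨_, rfl⟩
  have hε0 : 0 ≤ ε := by
    rw [hε]
    positivity
  have hε3 : ε ≤ 2 / (N : ℝ) ^ 3 := by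
    have h8 : Kc + 2 ≤ 2 * (N : ℝ) ^ 4 := by
      have hN' : (1000 : ℝ) ≤ N := by exact_mod_cast hbig
      have : (2 : ℝ) ≤ N ^ 4 := by
        calc (2 : ℝ) ≤ N := by linarith
          _ ≤ N ^ 4 := le_self_pow₀ (by linarith) (by norm_num)
      linarith
    calc ε = (Kc + 2) * (1 / (N : ℝ) ^ 7) := by
          rw [hε]
          field_simp
          ring
      _ ≤ (2 * (N : ℝ) ^ 4) * (1 / (N : ℝ) ^ 7) :=
          mul_le_mul_of_nonneg_right h8 (by positivity)
      _ = 2 / (N : ℝ) ^ 3 := by field_simp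
  have hbadk : ∀ k, m ≤ k → k ≤ q → E G (E (badV I N k) (fun _ => 1)) b ≤ ε := by
    intro k hk1 hk2
    have hper : Per k (E (badV I N k) (fun _ => 1)) :=
      per_E (l := 0) (fun v hv => words_length (mem_filter.1 hv).1) per_one
    have h3 := hG.count (by linarith) (by omega) (by omega : 4 * k ≤ N) hper
      (E_nonneg _ fun _ => zero_le_one) b
    have h4 : A k (E (badV I N k) (fun _ => 1)) ≤ 1 / (N : ℝ) ^ 8 := by
      have h5 := A_E (l := 0) (G := badV I N k) (fun v hv => words_length (mem_filter.1 hv).1)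
        per_one
      rw [Nat.add_zero, A_one, mul_one] at h5
      rw [h5]
      exact hE.bad I k (by omega) (by omega)
    rw [hε]
    exact h3.trans (mul_le_mul_of_nonneg_left h4 hc)
  have hmixk : ∀ k j, m ≤ k → k ≤ q →
      ∑ w ∈ G.filter (fun w => rd w b), 3 ^ w.length * (1 / 2 : ℝ) ^ w.sum *
        |3 ^ k * Fw I k (lam Y (N + k) + j - w.sum) k (en w b) -
          3 ^ m * Fw I k (lam Y (N + k) + j - w.sum) m (en w b)| ≤ ε := by
    intro k j hk1 hk2
    rw [hε]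
    refine hG.count' (by linarith) (by omega) (by omega : 4 * k ≤ N)
      (g := fun s y => |3 ^ k * Fw I k (lam Y (N + k) + j - s) k y -
          3 ^ m * Fw I k (lam Y (N + k) + j - s) m y|) ?_ (fun _ _ => abs_nonneg _) ?_
      (by positivity) b
    · intro s x t
      have h3 := per_Fw I k (lam Y (N + k) + j - s) k (3 ^ k) x t
      have h4 := (per_Fw I k (lam Y (N + k) + j - s) m (3 ^ m)).mono hk1 x t
      simp only at h3 h4 ⊢
      rw [h3, h4]
    · intro s _ _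
      have h3 := hE.mixs k (lam Y (N + k) + j - s) (by omega) (by omega)
      rw [← hI, ← hm] at h3
      exact h3
  -- one word of `G`
  have hpt : ∀ w ∈ G.filter (fun w => rd w b),
      β * (U I m (en w b) - E (badV I N m) (fun _ => 1) (en w b)) -
        ∑ k ∈ Ioc m q, ((∑ j ∈ Icc 1 K, |3 ^ k * Fw I k (lam Y (N + k) + j - w.sum) k (en w b) -
          3 ^ m * Fw I k (lam Y (N + k) + j - w.sum) m (en w b)|) +
          E (badV I N k) (fun _ => 1) (en w b)) ≤
      ∑ k ∈ Ioc m q, E ((words I k).filter fun v => Wn Y K (N + k) (w ++ v).sum ∧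
        (cw ((w ++ v).drop N) : ℝ) ≤ (5 / 4) ^ N * 2 ^ ((w ++ v).drop N).sum)
        (fun _ => 1) (en w b) := by
    intro w hw
    rw [mem_filter] at hw
    have hsl : ∀ k, m < k → w.sum ≤ lam Y (N + k) := by
      intro k hk
      have a1 := hlamk k hk
      have a2 := hG.hi w hw.1
      omega
    have h3 := coarse_geW hbig (Y := Y) (K := K) (β := β) (hG.lo w hw.1) (hG.hi w hw.1) h1
      (by rw [← hm]; exact hsl) hh (en w b)
    rw [← hI, ← hm, ← hq] at h3
    rw [sub_le_iff_le_add, ← sum_add_distrib]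
    refine h3.trans (sum_le_sum fun k hk => ?_)
    rw [mem_Ioc] at hk
    have h4 : ∑ j ∈ Icc 1 K, 3 ^ k * Fw I k (lam Y (N + k) + j - w.sum) k (en w b) ≤
        E ((words I k).filter fun v => Wn Y K (N + k) (w ++ v).sum ∧
        (cw ((w ++ v).drop N) : ℝ) ≤ (5 / 4) ^ N * 2 ^ ((w ++ v).drop N).sum)
        (fun _ => 1) (en w b) + E (badV I N k) (fun _ => 1) (en w b) := by
      rw [← E_win (hsl k hk.1)]
      have h5 := E_filter_add ((words I k).filter fun v => Wn Y K (N + k) (w.sum + v.sum))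
        (fun v => (cw v : ℝ) ≤ (5 / 4) ^ N * 2 ^ v.sum) (fun _ => 1) (en w b)
      rw [← h5]
      apply add_le_add
      · apply E_mono_set _ (fun _ => zero_le_one)
        intro v hv
        rw [mem_filter, mem_filter] at hv
        rw [mem_filter, List.sum_append, List.drop_left' (hG.len _ hw.1)]
        exact ⟨hv.1.1, hv.1.2, hv.2⟩
      · apply E_mono_set _ (fun _ => zero_le_one)
        intro v hv
        rw [mem_filter, mem_filter] at hv
        rw [badV, mem_filter]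
        exact ⟨hv.1.1, fun h => hv.2 h.2.2⟩
    have h6 : ∑ j ∈ Icc 1 K, 3 ^ m * Fw I k (lam Y (N + k) + j - w.sum) m (en w b) ≤
        ∑ j ∈ Icc 1 K, 3 ^ k * Fw I k (lam Y (N + k) + j - w.sum) k (en w b) +
        ∑ j ∈ Icc 1 K, |3 ^ k * Fw I k (lam Y (N + k) + j - w.sum) k (en w b) -
          3 ^ m * Fw I k (lam Y (N + k) + j - w.sum) m (en w b)| := by
      rw [← sum_add_distrib]
      apply sum_le_sum
      intro j _
      have h5 := neg_abs_le (3 ^ k * Fw I k (lam Y (N + k) + j - w.sum) k (en w b) -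
          3 ^ m * Fw I k (lam Y (N + k) + j - w.sum) m (en w b))
      linarith
    linarith
  have htot : E (Hs N K Y G) (fun _ => 1) b = ∑ w ∈ G.filter (fun w => rd w b),
      3 ^ w.length * (1 / 2 : ℝ) ^ w.sum *
      ∑ k ∈ Ioc m q, E ((words I k).filter fun v => Wn Y K (N + k) (w ++ v).sum ∧
        (cw ((w ++ v).drop N) : ℝ) ≤ (5 / 4) ^ N * 2 ^ ((w ++ v).drop N).sum)
        (fun _ => 1) (en w b) := by
    rw [E_Hs hG.len, ← hm, ← hq]
    simp only [mul_sum (s := Ioc m q)]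
    rw [sum_comm]
    apply sum_congr rfl
    intro k _
    unfold Hk
    rw [E_filter_cat hG.len, ← hI]
  have h3 : ∑ w ∈ G.filter (fun w => rd w b), 3 ^ w.length * (1 / 2 : ℝ) ^ w.sum *
      (β * (U I m (en w b) - E (badV I N m) (fun _ => 1) (en w b)) -
        ∑ k ∈ Ioc m q, ((∑ j ∈ Icc 1 K, |3 ^ k * Fw I k (lam Y (N + k) + j - w.sum) k (en w b) -
          3 ^ m * Fw I k (lam Y (N + k) + j - w.sum) m (en w b)|) +
          E (badV I N k) (fun _ => 1) (en w b))) ≤ E (Hs N K Y G) (fun _ => 1) b := by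
    rw [htot]
    apply sum_le_sum
    intro w hw
    exact mul_le_mul_of_nonneg_left (hpt w hw) (by positivity)
  refine le_trans ?_ h3
  have h4 : ∑ w ∈ G.filter (fun w => rd w b), 3 ^ w.length * (1 / 2 : ℝ) ^ w.sum *
      (β * (U I m (en w b) - E (badV I N m) (fun _ => 1) (en w b)) -
        ∑ k ∈ Ioc m q, ((∑ j ∈ Icc 1 K, |3 ^ k * Fw I k (lam Y (N + k) + j - w.sum) k (en w b) -
          3 ^ m * Fw I k (lam Y (N + k) + j - w.sum) m (en w b)|) +
          E (badV I N k) (fun _ => 1) (en w b))) =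
      β * (E G (U I m) b - E G (E (badV I N m) (fun _ => 1)) b) -
      ∑ k ∈ Ioc m q, ((∑ j ∈ Icc 1 K, ∑ w ∈ G.filter (fun w => rd w b),
          3 ^ w.length * (1 / 2 : ℝ) ^ w.sum *
        |3 ^ k * Fw I k (lam Y (N + k) + j - w.sum) k (en w b) -
          3 ^ m * Fw I k (lam Y (N + k) + j - w.sum) m (en w b)|) +
          E G (E (badV I N k) (fun _ => 1)) b) := by
    have g1 : E G (U I m) b = ∑ w ∈ G.filter (fun w => rd w b),
        3 ^ w.length * (1 / 2 : ℝ) ^ w.sum * U I m (en w b) := rfl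
    have g2 : ∀ k, E G (E (badV I N k) (fun _ => 1)) b = ∑ w ∈ G.filter (fun w => rd w b),
        3 ^ w.length * (1 / 2 : ℝ) ^ w.sum * E (badV I N k) (fun _ => 1) (en w b) := fun _ => rfl
    simp only [g1, g2]
    have g3 : ∀ k, ∑ j ∈ Icc 1 K, ∑ w ∈ G.filter (fun w => rd w b),
          3 ^ w.length * (1 / 2 : ℝ) ^ w.sum *
        |3 ^ k * Fw I k (lam Y (N + k) + j - w.sum) k (en w b) -
          3 ^ m * Fw I k (lam Y (N + k) + j - w.sum) m (en w b)| =
        ∑ w ∈ G.filter (fun w => rd w b), 3 ^ w.length * (1 / 2 : ℝ) ^ w.sum *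
          ∑ j ∈ Icc 1 K, |3 ^ k * Fw I k (lam Y (N + k) + j - w.sum) k (en w b) -
          3 ^ m * Fw I k (lam Y (N + k) + j - w.sum) m (en w b)| := by
      intro k
      rw [sum_comm]
      apply sum_congr rfl
      intro w _
      rw [mul_sum]
    simp only [g3, ← sum_add_distrib, ← mul_add]
    rw [sum_comm]
    rw [← sum_sub_distrib, mul_sum, ← sum_sub_distrib]
    apply sum_congr rfl
    intro w _
    rw [← mul_sum]
    ring
  rw [h4]
  have h5 := hbadk m le_rfl hmq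
  have h6 : ∑ k ∈ Ioc m q, ((∑ j ∈ Icc 1 K, ∑ w ∈ G.filter (fun w => rd w b),
          3 ^ w.length * (1 / 2 : ℝ) ^ w.sum *
        |3 ^ k * Fw I k (lam Y (N + k) + j - w.sum) k (en w b) -
          3 ^ m * Fw I k (lam Y (N + k) + j - w.sum) m (en w b)|) +
          E G (E (badV I N k) (fun _ => 1)) b) ≤ ((Ioc m q).card : ℝ) * (K * ε + ε) := by
    rw [← nsmul_eq_mul]
    apply sum_le_card_nsmul
    intro k hk
    rw [mem_Ioc] at hk
    refine add_le_add ?_ (hbadk k hk.1.le hk.2)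
    calc _ ≤ ∑ _j ∈ Icc 1 K, ε := sum_le_sum fun j _ => hmixk k j hk.1.le hk.2
      _ = K * ε := by simp
  rw [Nat.card_Ioc] at h6
  have h7 : ((q - m : ℕ) : ℝ) ≤ N := by exact_mod_cast (by omega : q - m ≤ N)
  have h8 : ((q - m : ℕ) : ℝ) * (K * ε + ε) ≤ N * (K * ε + ε) :=
    mul_le_mul_of_nonneg_right h7 (by positivity)
  have h9 : β * E G (E (badV I N m) (fun _ => 1)) b ≤ β * ε := mul_le_mul_of_nonneg_left h5 hβ
  have h10 : (β + N * (K + 1)) * ε ≤ (β + N * (K + 1)) * (2 / (N : ℝ) ^ 3) :=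
    mul_le_mul_of_nonneg_left hε3 (by positivity)
  rw [← hI, ← hm]
  nlinarith

end Pool.Agent.Collatz3.DN
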