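import Mathlib
import Pool.Agent.Collatz3.PDScale
import Pool.Agent.Collatz3.DNCount

set_option autoImplicit false

/-!
Natural density: growth along the good words.
-/

namespace Pool.Agent.Collatz3.DN

open Finset Filter
open Pool.Agent.Collatz3.Mix (words mem_words cw_append' cw_cons)
open Pool.Agent.Collatz3.PD

/-- From the step `q₀` on, the words of `G` (of length `N`) are above the window. -/
def Pq (q₀ L N : ℕ) (G : Finset (List ℕ)) : Prop :=
  ∀ w ∈ G, ∀ q, q₀ ≤ q → q ≤ N → 2 ^ (L + 2) * 3 ^ q ≤ 2 ^ (w.take q).sum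

theorem num_ineq : 2 * 3 ^ 250 ≤ 2 ^ 398 := by
  calc 2 * 3 ^ 250 = 2 * (3 ^ 125 * 3 ^ 125) := by rw [← pow_add]
    _ ≤ 2 ^ 199 * 2 ^ 199 := by norm_num
    _ = 2 ^ 398 := by rw [← pow_add]

theorem three_pow_le' {N k s L : ℕ} (hk : 4 * k ≤ N) (hs : 199 * N ≤ 100 * s)
    (hL : 200 * (L + 2) ≤ N) : 2 ^ (L + 2) * 3 ^ (N + k) ≤ 2 ^ s := by
  have h : (2 ^ (L + 2) * 3 ^ (N + k)) ^ 200 ≤ (2 ^ s) ^ 200 := by
    rw [mul_pow, ← pow_mul, ← pow_mul, ← pow_mul]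
    calc 2 ^ ((L + 2) * 200) * 3 ^ ((N + k) * 200) ≤ 2 ^ N * 3 ^ (250 * N) :=
          Nat.mul_le_mul (Nat.pow_le_pow_right (by norm_num) (by omega))
            (Nat.pow_le_pow_right (by norm_num) (by omega))
      _ = (2 * 3 ^ 250) ^ N := by rw [pow_mul, mul_pow]
      _ ≤ (2 ^ 398) ^ N := Nat.pow_le_pow_left num_ineq _
      _ = 2 ^ (398 * N) := by rw [← pow_mul]
      _ ≤ 2 ^ (s * 200) := Nat.pow_le_pow_right (by norm_num) (by omega)
  exact le_of_pow_le_pow_left₀ (by norm_num) (Nat.zero_le _) h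

theorem take_le_sum (l : List ℕ) (q : ℕ) : (l.take q).sum ≤ l.sum := by
  conv_rhs => rw [← List.take_append_drop q l, List.sum_append]
  omega

/-- Extension by at most `N / 4` arbitrary letters. -/
theorem Pq_ext {q₀ L N : ℕ} {K : ℝ} {G : Finset (List ℕ)} (hG : Good N K G)
    (hL : 200 * (L + 2) ≤ N) (hP : Pq q₀ L N G) {w v : List ℕ} (hw : w ∈ G) {q : ℕ}
    (hq₀ : q₀ ≤ q) (hq : 4 * (q - N) ≤ N) : 2 ^ (L + 2) * 3 ^ q ≤ 2 ^ ((w ++ v).take q).sum := by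
  have hl := hG.len w hw
  rcases Nat.lt_or_ge N q with h | h
  · obtain ⟨k, rfl⟩ := Nat.exists_eq_add_of_le h.le
    have h1 := three_pow_le' (k := k) (s := w.sum) (by omega) (hG.lo w hw) hL
    refine h1.trans (Nat.pow_le_pow_right (by norm_num) ?_)
    rw [List.take_append, List.sum_append, hl]
    have : w.take (N + k) = w := List.take_of_length_le (by omega)
    rw [this]
    omega
  · rw [List.take_append_of_le_length (by omega)]
    exact hP w hw q hq₀ h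

theorem Pq_step {q₀ L N : ℕ} {K : ℝ} {G : Finset (List ℕ)} (hG : Good N K G)
    (hL : 200 * (L + 2) ≤ N) (hP : Pq q₀ L N G) (V : Finset (List ℕ)) :
    Pq q₀ L (N + N / 20) (cat G V) := by
  intro w hw q h1 h2
  rw [cat, mem_image] at hw
  obtain ⟨⟨u, v⟩, h, rfl⟩ := hw
  rw [mem_product] at h
  exact Pq_ext hG hL hP h.1 h1 (by omega)

theorem Pq_Gs {N₀ q₀ L : ℕ} (hE : ∀ N, N₀ ≤ N → Err N) {K : ℝ} (hK : 0 ≤ K)
    (hKN : K ≤ (N₀ : ℝ) ^ 4) {G₀ : Finset (List ℕ)} (hG : Good N₀ (K + 1 - 1 / N₀) G₀)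
    (hL : 200 * (L + 2) ≤ N₀) (hP : Pq q₀ L N₀ G₀) (J : ℕ) :
    Pq q₀ L (scale N₀ J) (Gs N₀ G₀ J) := by
  induction J with
  | zero => exact hP
  | succ J ih =>
    have h1 := (chain_aux hE hK hKN hG J).1
    exact Pq_step h1 (hL.trans (scale_ge N₀ J)) ih _

/-- The properties of the words of the window. -/
structure Wprop (q₀ L K Y : ℕ) (Kc : ℝ) (u : List ℕ) : Prop where
  pos : ∀ i ∈ u, 1 ≤ i
  cw : (cw u : ℝ) ≤ Kc * 2 ^ u.sum
  win : Wn Y K u.length u.sum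
  up : ∀ q, q₀ ≤ q → q ≤ u.length → 2 ^ (L + 2) * 3 ^ q ≤ 2 ^ (u.take q).sum

theorem prop_Hs {N Y K q₀ L : ℕ} {Kc : ℝ} (hE : Err N)
    {G : Finset (List ℕ)} (hG : Good N (Kc + 1) G) (hL : 200 * (L + 2) ≤ N)
    (hP : Pq q₀ L N G) {u : List ℕ} (hu : u ∈ Hs N K Y G) : Wprop q₀ L K Y (Kc + 2) u := by
  obtain ⟨k, w, v, hk1, hk2, hw, hv, rfl, h2, hv3⟩ := (mem_Hs hG.len).1 hu
  have hbig := hE.big
  have hNpos : (0 : ℝ) < N := by exact_mod_cast (by omega : 0 < N)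
  have hlen : (w ++ v).length = N + k := by
    rw [List.length_append, hG.len _ hw, words_length hv]
  refine ⟨?_, ?_, ?_, ?_⟩
  · intro i hi
    rcases List.mem_append.1 hi with h3 | h3
    · exact hG.pos _ hw i h3
    · exact ((mem_words.1 hv).2 i h3).1
  · have h3 := hG.cw _ hw
    have h4 := hE.num
    have hlo := hG.lo w hw
    rw [cw_append', List.sum_append, hG.len _ hw]
    push_cast
    have h5 : (2 : ℝ) ^ ((199 * N + 99) / 100) ≤ 2 ^ w.sum :=
      pow_le_pow_right₀ (by norm_num) (by omega)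
    have h6 : (3 : ℝ) ^ N * (5 / 4) ^ N ≤ 1 * 2 ^ w.sum := by
      refine h4.trans ?_
      apply mul_le_mul _ h5 (by positivity) (by norm_num)
      have h7 : 1 / (N : ℝ) ≤ 1 := by
        rw [div_le_one hNpos]
        exact_mod_cast (by omega : 1 ≤ N)
      have h8 : (0 : ℝ) ≤ 1 / ((N + N / 20 : ℕ) : ℝ) := by positivity
      linarith
    have h7 : (3 : ℝ) ^ N * (Pool.Agent.Collatz3.cw v : ℝ) ≤ (1 * 2 ^ w.sum) * 2 ^ v.sum := by
      calc (3 : ℝ) ^ N * (Pool.Agent.Collatz3.cw v : ℝ) ≤ 3 ^ N * ((5 / 4) ^ N * 2 ^ v.sum) :=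
            mul_le_mul_of_nonneg_left hv3 (by positivity)
        _ = (3 ^ N * (5 / 4) ^ N) * 2 ^ v.sum := by ring
        _ ≤ _ := mul_le_mul_of_nonneg_right h6 (by positivity)
    have h8 : (2 : ℝ) ^ v.sum * (Pool.Agent.Collatz3.cw w : ℝ) ≤
        2 ^ v.sum * ((Kc + 1) * 2 ^ w.sum) :=
      mul_le_mul_of_nonneg_left h3 (by positivity)
    rw [pow_add]
    calc _ ≤ 2 ^ v.sum * ((Kc + 1) * 2 ^ w.sum) + (1 * 2 ^ w.sum) * 2 ^ v.sum :=
          add_le_add h8 h7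
      _ = _ := by ring
  · rw [hlen, List.sum_append]
    exact h2
  · intro q hq1 hq2
    rw [hlen] at hq2
    exact Pq_ext hG hL hP hw hq1 (by omega)

/-! ### Consequences for the end points -/

theorem cw_take_le (u : List ℕ) (q : ℕ) :
    (cw (u.take q) : ℝ) * 2 ^ u.sum ≤ cw u * 2 ^ (u.take q).sum := by
  have h1 : cw u = 2 ^ (u.drop q).sum * cw (u.take q) + 3 ^ (u.take q).length * cw (u.drop q) := by
    conv_lhs => rw [← List.take_append_drop q u]
    exact cw_append' _ _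
  have h2 : u.sum = (u.take q).sum + (u.drop q).sum := by
    conv_lhs => rw [← List.take_append_drop q u, List.sum_append]
  rw [h1, h2, pow_add]
  push_cast
  have h3 : (0 : ℝ) ≤ 3 ^ (u.take q).length * cw (u.drop q) * 2 ^ (u.take q).sum := by positivity
  linarith

theorem cw_take_bound {Kc : ℝ} {u : List ℕ} (h : (cw u : ℝ) ≤ Kc * 2 ^ u.sum) (q : ℕ) :
    (cw (u.take q) : ℝ) ≤ Kc * 2 ^ (u.take q).sum := by
  have h1 := cw_take_le u q
  have h2 : (cw u : ℝ) * 2 ^ (u.take q).sum ≤ Kc * 2 ^ u.sum * 2 ^ (u.take q).sum :=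
    mul_le_mul_of_nonneg_right h (by positivity)
  have h3 : (cw (u.take q) : ℝ) * 2 ^ u.sum ≤ (Kc * 2 ^ (u.take q).sum) * 2 ^ u.sum := by
    linarith
  exact le_of_mul_le_mul_right h3 (by positivity)

theorem pow_le_cw (u : List ℕ) (hu : u ≠ []) : 3 ^ (u.length - 1) ≤ cw u := by
  induction u with
  | nil => exact absurd rfl hu
  | cons i w ih =>
    rw [cw_cons, List.length_cons, Nat.add_sub_cancel]
    by_cases hw : w = []
    · subst hw
      simp [cw]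
    · have h1 := ih hw
      have h2 : 1 ≤ w.length := List.length_pos_of_ne_nil hw
      calc 3 ^ w.length = 3 * 3 ^ (w.length - 1) := by
            rw [← pow_succ']
            congr 1
            omega
        _ ≤ 3 * cw w := Nat.mul_le_mul_left _ h1
        _ ≤ _ := Nat.le_add_right _ _

/-- Lower bound for the end point. -/
theorem en_lower {Kc : ℝ} {u : List ℕ} (h : (cw u : ℝ) ≤ Kc * 2 ^ u.sum) {c : ℤ} (hr : rd u c) :
    2 ^ u.sum * (|(c : ℝ)| - Kc) ≤ 3 ^ u.length * |(en u c : ℝ)| := by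
  have h1 := en_spec hr
  have h2 : (3 : ℝ) ^ u.length * (en u c : ℝ) = 2 ^ u.sum * c - cw u := by exact_mod_cast h1
  have h3 : (3 : ℝ) ^ u.length * |(en u c : ℝ)| = |2 ^ u.sum * (c : ℝ) - cw u| := by
    rw [← h2, abs_mul, abs_of_pos (by positivity : (0 : ℝ) < 3 ^ u.length)]
  have h4 := abs_sub_abs_le_abs_sub ((2 : ℝ) ^ u.sum * c) (cw u)
  rw [abs_mul, abs_of_pos (by positivity : (0 : ℝ) < 2 ^ u.sum),
    abs_of_nonneg (show (0 : ℝ) ≤ (cw u : ℝ) from Nat.cast_nonneg _)] at h4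
  rw [h3]
  linarith

/-- Upper bound for the end point. -/
theorem en_upper {Kc : ℝ} {u : List ℕ} (h : (cw u : ℝ) ≤ Kc * 2 ^ u.sum) {c : ℤ} (hr : rd u c) :
    3 ^ u.length * |(en u c : ℝ)| ≤ 2 ^ u.sum * (|(c : ℝ)| + Kc) := by
  have h1 := en_spec hr
  have h2 : (3 : ℝ) ^ u.length * (en u c : ℝ) = 2 ^ u.sum * c - cw u := by exact_mod_cast h1
  have h3 : (3 : ℝ) ^ u.length * |(en u c : ℝ)| = |2 ^ u.sum * (c : ℝ) - cw u| := by
    rw [← h2, abs_mul, abs_of_pos (by positivity : (0 : ℝ) < 3 ^ u.length)]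
  have h4 := abs_sub ((2 : ℝ) ^ u.sum * c) (cw u)
  rw [abs_mul, abs_of_pos (by positivity : (0 : ℝ) < 2 ^ u.sum),
    abs_of_nonneg (show (0 : ℝ) ≤ (cw u : ℝ) from Nat.cast_nonneg _)] at h4
  rw [h3]
  linarith

theorem rd_take {u : List ℕ} {c : ℤ} (hr : rd u c) (q : ℕ) : rd (u.take q) c := by
  rw [← List.take_append_drop q u] at hr
  exact (rd_append.1 hr).1

/-- All the points of the path are large. -/
theorem path_large {Kc : ℝ} {C : ℕ} (hKc : 1 ≤ Kc) {u : List ℕ}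
    (h : (cw u : ℝ) ≤ Kc * 2 ^ u.sum) {c : ℤ} (hr : rd u c)
    (hc : Kc + 3 * Kc * (C + 1) ≤ |(c : ℝ)|) (q : ℕ) : (C : ℝ) < |(en (u.take q) c : ℝ)| := by
  obtain ⟨v, hv⟩ : ∃ v, v = u.take q := ⟨_, rfl⟩
  have h1 : (cw v : ℝ) ≤ Kc * 2 ^ v.sum := by
    rw [hv]
    exact cw_take_bound h q
  have h2 : rd v c := by
    rw [hv]
    exact rd_take hr q
  rw [← hv]
  by_cases hne : v = []
  · rw [hne, en_nil]
    have : (0 : ℝ) ≤ C := Nat.cast_nonneg C
    nlinarith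
  · have h3 := en_lower h1 h2
    have h4 : ((3 : ℝ) ^ (v.length - 1)) ≤ cw v := by exact_mod_cast pow_le_cw v hne
    have h5 : 1 ≤ v.length := List.length_pos_of_ne_nil hne
    have h6 : (3 : ℝ) ^ v.length = 3 * 3 ^ (v.length - 1) := by
      rw [← pow_succ']
      congr 1
      omega
    have h7 : (3 : ℝ) ^ v.length ≤ 3 * Kc * 2 ^ v.sum := by
      rw [h6]
      linarith
    have hC : (0 : ℝ) ≤ C := Nat.cast_nonneg C
    have h8 : 3 * Kc * (C + 1) ≤ |(c : ℝ)| - Kc := by linarith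
    have h9 : (3 : ℝ) ^ v.length * (C + 1) ≤ 3 ^ v.length * |(en v c : ℝ)| := by
      calc (3 : ℝ) ^ v.length * (C + 1) ≤ (3 * Kc * 2 ^ v.sum) * (C + 1) :=
            mul_le_mul_of_nonneg_right h7 (by positivity)
        _ = 2 ^ v.sum * (3 * Kc * (C + 1)) := by ring
        _ ≤ 2 ^ v.sum * (|(c : ℝ)| - Kc) := mul_le_mul_of_nonneg_left h8 (by positivity)
        _ ≤ _ := h3
    have h10 := le_of_mul_le_mul_left h9 (by positivity)
    linarith

end Pool.Agent.Collatz3.DN
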