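import Mathlib
import Pool.Agent.Collatz3.DNPath

set_option autoImplicit false

/-!
Natural density: the initial words and the main estimate.
-/

namespace Pool.Agent.Collatz3.DN

open Finset Filter Topology
open Pool.Agent.Collatz3.Mix (words mem_words cw_append' cw_cons)
open Pool.Agent.Collatz3.PD

theorem P_take {I q N : ℕ} (hq : q ≤ N) (p : List ℕ → Prop) [DecidablePred p] :
    P ((words I N).filter fun w => p (w.take q)) ≤ P ((words I q).filter p) := by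
  obtain ⟨l, rfl⟩ := Nat.exists_eq_add_of_le hq
  have h1 : P ((words I (q + l)).filter fun w => p (w.take q)) =
      P ((words I q).filter p) * P (words I l) := by
    unfold P
    rw [sum_filter, words_add, sum_cat (N := q) (fun w h => words_length h), sum_filter,
      sum_mul_sum]
    apply sum_congr rfl
    intro u hu
    apply sum_congr rfl
    intro v _
    rw [List.take_left' (words_length hu), List.sum_append, pow_add]
    split_ifs
    · rfl
    · rw [zero_mul]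
  rw [h1]
  have h2 : P (words I l) ≤ 1 := by
    rw [P_words]
    exact pow_le_one₀ (Z_nonneg I) (Z_le_one I)
  calc _ ≤ P ((words I q).filter p) * 1 := mul_le_mul_of_nonneg_left h2 (P_nonneg _)
    _ = _ := mul_one _

/-- The initial words: typical, and above the window from the step `q₀` on. -/
noncomputable def G1 (N q₀ L : ℕ) : Finset (List ℕ) :=
  (G0 N).filter fun w => ∀ q ∈ Icc q₀ N, 2 ^ (L + 2) * 3 ^ q ≤ 2 ^ (w.take q).sum

theorem good_G1 {N : ℕ} (hN : 1 ≤ N) (q₀ L : ℕ) :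
    Good N ((N : ℝ) ^ 4 + 1 - 1 / N) (G1 N q₀ L) := by
  have h := good_G0 hN
  have hs : ∀ w ∈ G1 N q₀ L, w ∈ G0 N := fun w hw => (mem_filter.1 hw).1
  exact ⟨fun w hw => h.len w (hs w hw), fun w hw => h.pos w (hs w hw),
    fun w hw => h.lo w (hs w hw), fun w hw => h.hi w (hs w hw), fun w hw => h.cw w (hs w hw)⟩

theorem Pq_G1 (N q₀ L : ℕ) : Pq q₀ L N (G1 N q₀ L) := by
  intro w hw q h1 h2
  exact (mem_filter.1 hw).2 q (mem_Icc.2 ⟨h1, h2⟩)

theorem P_G1 {δ ρ : ℝ} (hρ0 : 0 < ρ) (hρ1 : ρ < 1)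
    (hlo : ∀ I d : ℕ, P ((words I d).filter fun w => (w.sum : ℝ) < (2 - δ) * d) ≤ ρ ^ d)
    (hδ : 0 ≤ 2 - δ - al) {N q₀ L : ℕ} (hL : (L : ℝ) + 2 ≤ (2 - δ - al) * q₀) :
    P (G0 N) - ρ ^ q₀ / (1 - ρ) ≤ P (G1 N q₀ L) := by
  have h1 : P (G0 N) ≤ P (G1 N q₀ L) + ∑ q ∈ Icc q₀ N,
      P ((words (II N) N).filter fun w => 2 ^ (w.take q).sum < 2 ^ (L + 2) * 3 ^ q) := by
    have e1 : P (G1 N q₀ L) = ∑ w ∈ G0 N,
        if (∀ q ∈ Icc q₀ N, 2 ^ (L + 2) * 3 ^ q ≤ 2 ^ (w.take q).sum) then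
          (1 / 2 : ℝ) ^ w.sum else 0 := by
      unfold P G1
      rw [sum_filter]
    have e2 : ∑ w ∈ G0 N, ∑ q ∈ Icc q₀ N,
        (if 2 ^ (w.take q).sum < 2 ^ (L + 2) * 3 ^ q then (1 / 2 : ℝ) ^ w.sum else 0) ≤
        ∑ q ∈ Icc q₀ N,
      P ((words (II N) N).filter fun w => 2 ^ (w.take q).sum < 2 ^ (L + 2) * 3 ^ q) := by
      rw [sum_comm]
      apply sum_le_sum
      intro q _
      unfold P
      rw [sum_filter]
      apply sum_le_sum_of_subset_of_nonneg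
      · exact filter_subset _ _
      · intro w _ _
        split_ifs
        · positivity
        · exact le_rfl
    refine le_trans ?_ (add_le_add_right e2 (P (G1 N q₀ L)))
    rw [e1, ← sum_add_distrib]
    unfold P
    apply sum_le_sum
    intro w _
    have hp : (0 : ℝ) ≤ (1 / 2) ^ w.sum := by positivity
    by_cases h : ∀ q ∈ Icc q₀ N, 2 ^ (L + 2) * 3 ^ q ≤ 2 ^ (w.take q).sum
    · rw [if_pos h]
      have : 0 ≤ ∑ q ∈ Icc q₀ N,
          (if 2 ^ (w.take q).sum < 2 ^ (L + 2) * 3 ^ q then (1 / 2 : ℝ) ^ w.sum else 0) := by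
        apply sum_nonneg
        intro q _
        split_ifs
        · exact hp
        · exact le_rfl
      linarith
    · rw [if_neg h, zero_add]
      push Not at h
      obtain ⟨q, hq, hq2⟩ := h
      have h2 := single_le_sum (f := fun q =>
        (if 2 ^ (w.take q).sum < 2 ^ (L + 2) * 3 ^ q then (1 / 2 : ℝ) ^ w.sum else 0))
        (s := Icc q₀ N) (fun i _ => by
          show (0 : ℝ) ≤ if 2 ^ (w.take i).sum < 2 ^ (L + 2) * 3 ^ i then (1 / 2 : ℝ) ^ w.sum else 0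
          split_ifs
          · exact hp
          · exact le_rfl) hq
      simp only [if_pos hq2] at h2
      exact h2
  have h2 : ∀ q ∈ Icc q₀ N,
      P ((words (II N) N).filter fun w => 2 ^ (w.take q).sum < 2 ^ (L + 2) * 3 ^ q) ≤ ρ ^ q := by
    intro q hq
    rw [mem_Icc] at hq
    refine (P_take hq.2 (fun v => 2 ^ v.sum < 2 ^ (L + 2) * 3 ^ q)).trans ?_
    refine le_trans ?_ (hlo (II N) q)
    apply P_mono
    intro v hv
    rw [mem_filter] at hv ⊢
    refine ⟨hv.1, ?_⟩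
    have e1 : (2 : ℝ) ^ v.sum < 2 ^ (L + 2) * 3 ^ q := by exact_mod_cast hv.2
    have e2 : (2 : ℝ) ^ (v.sum : ℝ) < 2 ^ (((L : ℝ) + 2) + q * al) := by
      rw [Real.rpow_add (by norm_num), mul_comm (q : ℝ) al, Real.rpow_mul (by norm_num),
        two_rpow_al, Real.rpow_natCast, Real.rpow_natCast]
      have e3 : (2 : ℝ) ^ ((L : ℝ) + 2) = 2 ^ (L + 2) := by
        rw [← Real.rpow_natCast]
        push_cast
        rfl
      rw [e3]
      exact e1
    have e4 := (Real.rpow_lt_rpow_left_iff (by norm_num)).1 e2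
    have e5 : (q₀ : ℝ) ≤ q := by exact_mod_cast hq.1
    have e6 : (2 - δ - al) * q₀ ≤ (2 - δ - al) * q := mul_le_mul_of_nonneg_left e5 hδ
    linarith
  have h3 : ∑ q ∈ Icc q₀ N, ρ ^ q ≤ ρ ^ q₀ / (1 - ρ) := by
    have e1 : ∑ q ∈ Icc q₀ N, ρ ^ q ≤ ∑ q ∈ Ico q₀ (N + 1), ρ ^ q := by
      apply sum_le_sum_of_subset_of_nonneg
      · intro q hq
        rw [mem_Icc] at hq
        rw [mem_Ico]
        omega
      · intro q _ _
        positivity
    refine e1.trans ?_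
    exact geom_sum_Ico_le_of_lt_one hρ0.le hρ1
  have h4 := sum_le_sum h2
  linarith

/-- The initial words have almost full probability. -/
theorem base1 {ε δ : ℝ} (hε : 0 < ε) (hδ : 0 < δ) (hδ1 : δ < 2 - al) :
    ∃ N₁ q₁ : ℕ, ∀ N q₀ L : ℕ, N₁ ≤ N → q₁ ≤ q₀ → (L : ℝ) + 2 ≤ (2 - δ - al) * q₀ →
      1 - ε ≤ PD.A (N + N / 20) (E (G1 N q₀ L) (U (II N) (N / 20))) := by
  obtain ⟨ρ₁, a1, b1, h₁⟩ := upper_tail
  obtain ⟨ρ₂, a2, b2, h₂⟩ := lower_tail
  obtain ⟨ρ, a3, b3, h₃⟩ := lower δ hδ (by linarith [one_lt_al])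
  have hlim : Tendsto (fun N : ℕ => ρ₁ ^ N + ρ₂ ^ N + 1 / (N : ℝ) + 2 ^ 12 / (N : ℝ)) atTop
      (𝓝 (0 + 0 + 0 + 0)) :=
    (((tendsto_pow_atTop_nhds_zero_of_lt_one a1.le b1).add
      (tendsto_pow_atTop_nhds_zero_of_lt_one a2.le b2)).add
      (tendsto_const_div_atTop_nhds_zero_nat 1)).add (tendsto_const_div_atTop_nhds_zero_nat _)
  have hlim' : (0 : ℝ) + 0 + 0 + 0 < ε / 4 := by linarith
  have hlim2 : Tendsto (fun N : ℕ => 2 ^ 12 / (N : ℝ)) atTop (𝓝 0) :=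
    tendsto_const_div_atTop_nhds_zero_nat _
  have hlim3 : Tendsto (fun q : ℕ => ρ ^ q / (1 - ρ)) atTop (𝓝 (0 / (1 - ρ))) :=
    (tendsto_pow_atTop_nhds_zero_of_lt_one a3.le b3).div_const _
  rw [zero_div] at hlim3
  obtain ⟨q₁, hq₁⟩ := eventually_atTop.1 (hlim3.eventually_lt_const
    (show (0 : ℝ) < ε / 4 by positivity))
  obtain ⟨N₁, hN₁⟩ := eventually_atTop.1 ((hlim.eventually_lt_const hlim').and
    ((hlim2.eventually_lt_const (show (0 : ℝ) < ε / 4 by positivity)).and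
      (eventually_ge_atTop 1)))
  refine ⟨N₁, q₁, fun N q₀ L hN hq hL => ?_⟩
  obtain ⟨h3, h4, hN1⟩ := hN₁ N hN
  have h5 := hq₁ q₀ hq
  have hP := P_G0 h₁ h₂ hN1
  have hP1 := P_G1 a3 b3 h₃ (by linarith) (N := N) hL
  have hZ : 1 - ε / 4 ≤ Z (II N) ^ (N / 20) := by
    have e1 := one_sub_Z_pow (II N) (N / 20)
    have e2 : (((N / 20 : ℕ) : ℝ)) ≤ N := by exact_mod_cast Nat.div_le_self N 20
    have e3 : ((N / 20 : ℕ) : ℝ) * (1 / 2 : ℝ) ^ II N ≤ N * (1 / 2 : ℝ) ^ II N :=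
      mul_le_mul_of_nonneg_right e2 (by positivity)
    have e4 := mul_half_pow_II hN1
    linarith
  have hZ1 : Z (II N) ^ (N / 20) ≤ 1 := pow_le_one₀ (Z_nonneg _) (Z_le_one _)
  have hlen : ∀ w ∈ G1 N q₀ L, w.length = N := (good_G1 hN1 q₀ L).len
  rw [A_E hlen (per_U _ _), A_U]
  have hP0 := P_nonneg (G1 N q₀ L)
  have hPge : 1 - ε / 2 ≤ P (G1 N q₀ L) := by linarith
  have hPle : P (G1 N q₀ L) ≤ 1 := by
    refine (P_mono (show G1 N q₀ L ⊆ words (II N) N from ?_)).trans ?_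
    · intro w hw
      exact (mem_filter.1 (mem_filter.1 hw).1).1
    · rw [P_words]
      exact pow_le_one₀ (Z_nonneg _) (Z_le_one _)
  have hZ0 : 0 ≤ Z (II N) ^ (N / 20) := pow_nonneg (Z_nonneg _) _
  nlinarith

/-- The crossing probability is almost one. -/
theorem cross_ev {ε : ℝ} (hε : 0 < ε) (q₁ : ℕ) : ∀ᶠ N : ℕ in atTop, ∀ Y σ : ℕ,
    100 * lam Y (N + N / 4) ≤ 199 * (N + N / 4) → 199 * (N + N / 20) ≤ 100 * σ →
    1 - ε ≤ crossS (II N) (N / 4 - N / 20 - q₁) Y (N + N / 20) σ := by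
  obtain ⟨ρ, hρ0, hρ1, hρ⟩ := lower (1 / 200) (by norm_num) (by norm_num)
  have h1 : Tendsto (fun N : ℕ => ρ ^ N) atTop (𝓝 0) :=
    tendsto_pow_atTop_nhds_zero_of_lt_one hρ0.le hρ1
  obtain ⟨n₁, hn₁⟩ := eventually_atTop.1 (h1.eventually_lt_const
    (show (0 : ℝ) < ε / 2 by positivity))
  have h2 : Tendsto (fun N : ℕ => 2 ^ 12 / (N : ℝ)) atTop (𝓝 0) :=
    tendsto_const_div_atTop_nhds_zero_nat _
  filter_upwards [eventually_ge_atTop (10 * n₁ + 10000 * (q₁ + 1)),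
    h2.eventually_lt_const (show (0 : ℝ) < ε / 2 by positivity)] with N hN hN2 Y σ hY hσ
  obtain ⟨R, hR⟩ : ∃ R, R = N / 4 - N / 20 - q₁ := ⟨_, rfl⟩
  rw [← hR]
  have hR1 : n₁ ≤ R := by omega
  have h3 := hρ (II N) R
  have h4 := hn₁ R hR1
  have h5 : P (words (II N) R) ≤
      P ((words (II N) R).filter fun w => (w.sum : ℝ) < (2 - 1 / 200) * R) +
      crossS (II N) R Y (N + N / 20) σ := by
    unfold crossS
    unfold P
    rw [sum_filter, sum_filter, ← sum_add_distrib]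
    apply sum_le_sum
    intro v _
    have hp : (0 : ℝ) ≤ (1 / 2) ^ v.sum := by positivity
    by_cases a1 : (v.sum : ℝ) < (2 - 1 / 200) * R
    · rw [if_pos a1]
      split_ifs <;> linarith
    · have a2 : lam Y (N + N / 20 + R) < σ + v.sum := by
        have b1 : 399 * R ≤ 200 * v.sum := by
          rw [not_lt] at a1
          have : (399 : ℝ) * R ≤ 200 * (v.sum : ℝ) := by linarith
          exact_mod_cast this
        have b2 := lam_mono Y (show N + N / 20 + R ≤ N + N / 4 by omega)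
        omega
      rw [if_neg a1, if_pos a2, zero_add]
  have h6 : 1 - Z (II N) ^ R ≤ R * (1 / 2 : ℝ) ^ (II N) := one_sub_Z_pow _ _
  rw [P_words] at h5
  have h7 : (N : ℝ) * (1 / 2) ^ II N ≤ 2 ^ 12 / N := mul_half_pow_II (by omega)
  have h8 : (R : ℝ) * (1 / 2 : ℝ) ^ II N ≤ N * (1 / 2) ^ II N := by
    apply mul_le_mul_of_nonneg_right _ (by positivity)
    exact_mod_cast (by omega : R ≤ N)
  linarith

end Pool.Agent.Collatz3.DN
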