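import Mathlib
import Pool.Agent.Collatz3.DNBase
import Pool.Agent.Collatz3.PDFinal

set_option autoImplicit false

/-!
Natural density: the main estimate for the window above an arbitrary integer.
-/

namespace Pool.Agent.Collatz3.DN

open Finset Filter Topology
open Pool.Agent.Collatz3.Mix (words mem_words cw_append' cw_cons)
open Pool.Agent.Collatz3.PD

theorem II_ev (I₀ : ℕ) : ∀ᶠ N : ℕ in atTop, I₀ ≤ II N := by
  filter_upwards [eventually_ge_atTop (2 ^ I₀)] with N hN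
  unfold II
  have h1 : I₀ ≤ Nat.log 2 N := Nat.le_log_of_pow_le (by norm_num) hN
  omega

theorem err_ev {B ε : ℝ} (hε : 0 < ε) : ∀ᶠ N : ℕ in atTop,
    B / (N : ℝ) + (B + N * B) * (2 / (N : ℝ) ^ 3) ≤ ε := by
  have h1 : Tendsto (fun N : ℕ => B / (N : ℝ)) atTop (𝓝 0) :=
    tendsto_const_div_atTop_nhds_zero_nat _
  have h2 : Tendsto (fun N : ℕ => (B + N * B) * (2 / (N : ℝ) ^ 3)) atTop (𝓝 0) := by
    have h3 : Tendsto (fun N : ℕ => (B / (N : ℝ)) * (2 / (N : ℝ)) * (1 / (N : ℝ)) +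
        (B / (N : ℝ)) * (2 / (N : ℝ))) atTop (𝓝 (0 * 0 * 0 + 0 * 0)) :=
      ((h1.mul (tendsto_const_div_atTop_nhds_zero_nat _)).mul
        (tendsto_const_div_atTop_nhds_zero_nat _)).add
        (h1.mul (tendsto_const_div_atTop_nhds_zero_nat _))
    have h4 : (0 : ℝ) * 0 * 0 + 0 * 0 = 0 := by norm_num
    rw [h4] at h3
    refine h3.congr' ?_
    filter_upwards [eventually_ge_atTop 1] with N hN
    have : (0 : ℝ) < N := by exact_mod_cast hN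
    field_simp
  have h3 := h1.add h2
  rw [add_zero] at h3
  exact (h3.eventually_lt_const hε).mono fun _ h => h.le

theorem main_count {ε : ℝ} (hε : 0 < ε) (hε1 : ε < 1) : ∃ K₀ : ℕ, ∀ K : ℕ, K₀ ≤ K →
    ∃ N₁ : ℕ, ∀ (N₀ : ℕ), N₁ ≤ N₀ → ∀ (q₀ L : ℕ) (G₀ : Finset (List ℕ)), 200 * (L + 2) ≤ N₀ →
      Good N₀ ((N₀ : ℝ) ^ 4 + 1 - 1 / N₀) G₀ → Pq q₀ L N₀ G₀ → ∃ Y₀ : ℕ, ∀ Y : ℕ, Y₀ ≤ Y →
      ∃ H : Finset (List ℕ), (∀ u ∈ H, Wprop q₀ L K Y ((N₀ : ℝ) ^ 4 + 2) u) ∧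
        ∀ b : ℤ, (1 - ε) * (K / (2 - al)) * E G₀ (U (II N₀) (N₀ / 20)) b - ε ≤
          E H (fun _ => 1) b := by
  obtain ⟨e, he⟩ : ∃ e, e = ε / 3 := ⟨_, rfl⟩
  have he0 : 0 < e := by rw [he]; positivity
  have he1 : e < 1 := by rw [he]; linarith
  obtain ⟨K₀, hK₀⟩ := hitW_lower he0 he1
  refine ⟨K₀, fun K hK => ?_⟩
  obtain ⟨q, I₀, hhit⟩ := hK₀ K hK
  have hγ0 : 0 < 2 - al := by linarith [al_lt]
  obtain ⟨κ, hκ⟩ : ∃ κ : ℝ, κ = K / (2 - al) := ⟨_, rfl⟩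
  have hκ0 : 0 ≤ κ := by rw [hκ]; positivity
  obtain ⟨N₂, hN₂⟩ := eventually_atTop.1 (((err2_ev.and (cross_ev he0 q)).and (II_ev I₀)).and
    (eventually_ge_atTop (10 * (q + 1))))
  obtain ⟨N₃, hN₃⟩ := eventually_atTop.1 (err_ev (B := κ + K + 1) hε)
  refine ⟨max N₂ N₃, fun N₀ hN₀ q₀ L G₀ hL hG₀ hP => ?_⟩
  have hN₀2 : N₂ ≤ N₀ := (le_max_left _ _).trans hN₀
  have hN₀3 : N₃ ≤ N₀ := (le_max_right _ _).trans hN₀
  have hE : ∀ N, N₀ ≤ N → Err2 N := fun N h => (hN₂ N (hN₀2.trans h)).1.1.1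
  have hbig := (hE N₀ le_rfl).big
  refine ⟨2 ^ (3 * (N₀ + N₀ / 20) + 1), fun Y hY => ?_⟩
  have hY1 : 1 ≤ Y := le_trans Nat.one_le_two_pow hY
  have h0 : 201 * (N₀ + N₀ / 20) < 100 * lam Y (N₀ + N₀ / 20) := by
    have h1 : 3 * (N₀ + N₀ / 20) + 1 ≤ lam Y (N₀ + N₀ / 20) := by
      unfold lam
      apply Nat.le_log_of_pow_le (by norm_num)
      exact hY.trans (Nat.le_mul_of_pos_right _ (by positivity))
    omega
  obtain ⟨J, h1, h2⟩ := exists_scale hbig hY1 h0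
  have hE' : ∀ N, N₀ ≤ N → Err N := fun N h => (hE N h).toErr
  obtain ⟨h3, h4⟩ := chain_aux hE' (K := (N₀ : ℝ) ^ 4) (by positivity) le_rfl hG₀ J
  have h5 := Pq_Gs hE' (K := (N₀ : ℝ) ^ 4) (by positivity) le_rfl hG₀ hL hP J
  have hge := scale_ge N₀ J
  obtain ⟨N, hN⟩ : ∃ N, N = scale N₀ J := ⟨_, rfl⟩
  obtain ⟨G, hG⟩ : ∃ G, G = Gs N₀ G₀ J := ⟨_, rfl⟩
  rw [← hN, ← hG] at h3 h4 h5
  rw [← hN] at h1 h2 hge
  have hG1 : Good N ((N₀ : ℝ) ^ 4 + 1) G := h3.mono (by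
    have : (0 : ℝ) ≤ 1 / (N : ℝ) := by positivity
    linarith)
  have hcr := (hN₂ N (hN₀2.trans hge)).1.1.2
  have hII := (hN₂ N (hN₀2.trans hge)).1.2
  have hNq := (hN₂ N (hN₀2.trans hge)).2
  obtain ⟨β, hβ⟩ : ∃ β : ℝ, β = (1 - e) * κ * (1 - e) := ⟨_, rfl⟩
  have hβ0 : 0 ≤ β := by
    rw [hβ]
    have : 0 ≤ 1 - e := by linarith
    positivity
  have hβκ : β ≤ κ := by
    rw [hβ]
    have h6 : (1 - e) * (1 - e) ≤ 1 := by nlinarith
    calc (1 - e) * κ * (1 - e) = κ * ((1 - e) * (1 - e)) := by ring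
      _ ≤ κ * 1 := mul_le_mul_of_nonneg_left h6 hκ0
      _ = κ := mul_one κ
  have hh : ∀ σ, σ ≤ lam Y (N + N / 20) → 199 * (N + N / 20) ≤ 100 * σ →
      β ≤ hitW (II N) (N / 4 - N / 20) Y K (N + N / 20) σ := by
    intro σ hσ1 hσ2
    have e1 := hcr Y σ h2 hσ2
    have e2 := hhit (II N) (N / 4 - N / 20 - q) Y (N + N / 20) σ hII hY1 hσ1
    have e3 : N / 4 - N / 20 - q + q = N / 4 - N / 20 := by omega
    rw [e3, ← hκ] at e2
    refine le_trans ?_ e2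
    rw [hβ]
    apply mul_le_mul_of_nonneg_left e1
    have : 0 ≤ 1 - e := by linarith
    positivity
  have hmass := mass (hE N hge) (Kc := (N₀ : ℝ) ^ 4) (by positivity)
    (pow_le_pow_left₀ (Nat.cast_nonneg _) (by exact_mod_cast hge) 4) hG1 hβ0 h1 hh
  refine ⟨Hs N K Y G, fun u hu => ?_, fun b => ?_⟩
  · exact prop_Hs (hE' N hge) hG1 (hL.trans hge) h5 hu
  · refine le_trans ?_ (hmass b)
    have a1 := h4 b
    have a2 : 0 ≤ E G₀ (U (II N₀) (N₀ / 20)) b := E_nonneg _ (U_nonneg _ _) b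
    obtain ⟨x, hx⟩ : ∃ x, x = E G₀ (U (II N₀) (N₀ / 20)) b := ⟨_, rfl⟩
    obtain ⟨y, hy⟩ : ∃ y, y = E G (U (II N) (N / 20)) b := ⟨_, rfl⟩
    rw [← hx] at a1 a2 ⊢
    rw [← hy] at a1 ⊢
    rw [← hκ]
    have a3 : x - 1 / N₀ ≤ y := by
      have : (0 : ℝ) ≤ 1 / (N : ℝ) := by positivity
      linarith
    have a4 := hN₃ N₀ hN₀3
    have hNr : (0 : ℝ) < N₀ := by exact_mod_cast (by omega : 0 < N₀)
    have hNr' : (N₀ : ℝ) ≤ N := by exact_mod_cast hge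
    have a5 : (β + N * (K + 1)) * (2 / (N : ℝ) ^ 3) ≤
        ((κ + K + 1) + N₀ * (κ + K + 1)) * (2 / (N₀ : ℝ) ^ 3) := by
      have hN0 : (0 : ℝ) < N := by linarith
      have b1 : (β + N * (K + 1)) * (2 / (N : ℝ) ^ 3) =
          β * (2 / (N : ℝ) ^ 3) + (K + 1) * (2 / (N : ℝ) ^ 2) := by
        field_simp
      have b2 : ((κ + K + 1) + N₀ * (κ + K + 1)) * (2 / (N₀ : ℝ) ^ 3) =
          (κ + K + 1) * (2 / (N₀ : ℝ) ^ 3) + (κ + K + 1) * (2 / (N₀ : ℝ) ^ 2) := by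
        field_simp
      rw [b1, b2]
      have b3 : 2 / (N : ℝ) ^ 3 ≤ 2 / (N₀ : ℝ) ^ 3 :=
        div_le_div_of_nonneg_left (by norm_num) (by positivity)
          (pow_le_pow_left₀ hNr.le hNr' 3)
      have b4 : 2 / (N : ℝ) ^ 2 ≤ 2 / (N₀ : ℝ) ^ 2 :=
        div_le_div_of_nonneg_left (by norm_num) (by positivity)
          (pow_le_pow_left₀ hNr.le hNr' 2)
      have hK0 : (0 : ℝ) ≤ K := Nat.cast_nonneg K
      apply add_le_add
      · exact mul_le_mul (by linarith) b3 (by positivity) (by positivity)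
      · exact mul_le_mul (by linarith) b4 (by positivity) (by positivity)
    have a6 : β * (1 / N₀) ≤ (κ + K + 1) / N₀ := by
      rw [mul_one_div]
      apply div_le_div_of_nonneg_right _ hNr.le
      have hK0 : (0 : ℝ) ≤ K := Nat.cast_nonneg K
      linarith
    have a7 : β * (x - 1 / N₀) ≤ β * y := mul_le_mul_of_nonneg_left a3 hβ0
    have a8 : (1 - ε) * κ * x ≤ β * x := by
      apply mul_le_mul_of_nonneg_right _ a2
      rw [hβ]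
      have : ε = 3 * e := by rw [he]; ring
      rw [this]
      nlinarith [mul_nonneg hκ0 he0.le, mul_nonneg hκ0 (mul_nonneg he0.le he0.le)]
    have a9 : β * (x - 1 / N₀) = β * x - β * (1 / N₀) := by ring
    linarith

end Pool.Agent.Collatz3.DN
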