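import Mathlib
import Pool.Agent.Collatz3.PDTree

set_option autoImplicit false

/-!
Natural density: the number of visits of an orbit to a window.
-/

namespace Pool.Agent.Collatz3.DN

open Finset
open Pool.Agent.Collatz3.Mix (words mem_words odd_cw)
open Pool.Agent.Collatz3.PD

theorem en_odd {w : List ℕ} {x : ℤ} (h : rd w x) (hne : w ≠ []) (hw : ∀ i ∈ w, 1 ≤ i) :
    Odd (en w x) := by
  have h1 := en_spec h
  have h2 : Odd (cw w) := odd_cw hne hw
  have h3 : Even ((2 : ℤ) ^ w.sum * x) := by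
    have h4 : w.sum ≠ 0 := by
      obtain ⟨i, hi⟩ := List.exists_mem_of_ne_nil w hne
      have := List.single_le_sum (l := w) (fun _ _ => Nat.zero_le _) i hi
      have := hw i hi
      omega
    have h5 : Even ((2 : ℤ) ^ w.sum) := (even_two).pow_of_ne_zero h4
    exact h5.mul_right _
  have h4 : Odd ((2 : ℤ) ^ w.sum * x - cw w) := h3.sub_odd (by exact_mod_cast h2)
  rw [← h1] at h4
  exact (Int.odd_mul.1 h4).2

theorem en_take_odd {w : List ℕ} {c : ℤ} (hc : Odd c) (h : rd w c) (hw : ∀ i ∈ w, 1 ≤ i) :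
    Odd (en w c) := by
  by_cases hne : w = []
  · subst hne
    rw [en_nil]
    exact hc
  · exact en_odd h hne hw

theorem odd_pow_unique {i i' : ℕ} {b b' : ℤ} (hb : Odd b) (hb' : Odd b')
    (h : 2 ^ i * b = 2 ^ i' * b') : i = i' ∧ b = b' := by
  wlog hle : i ≤ i' generalizing i i' b b'
  · have := this hb' hb h.symm (by omega)
    exact ⟨this.1.symm, this.2.symm⟩
  obtain ⟨d, rfl⟩ := Nat.exists_eq_add_of_le hle
  rw [pow_add, mul_assoc] at h
  have h1 : b = 2 ^ d * b' := mul_left_cancel₀ (pow_ne_zero _ (by norm_num)) h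
  have hd : d = 0 := by
    by_contra hd
    have : Even b := by
      rw [h1]
      exact ((even_two).pow_of_ne_zero hd).mul_right _
    exact (Int.not_even_iff_odd.2 hb) this
  subst hd
  simpa using h1

/-- The word and the root are determined by the end point and the length. -/
theorem word_unique (w : List ℕ) : ∀ (w' : List ℕ) (c c' : ℤ), w'.length = w.length →
    (∀ i ∈ w, 1 ≤ i) → (∀ i ∈ w', 1 ≤ i) → Odd c → Odd c' → rd w c → rd w' c' →
    en w c = en w' c' → w = w' ∧ c = c' := by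
  induction w using List.reverseRecOn with
  | nil =>
    intro w' c c' hl _ _ _ _ _ _ he
    have : w' = [] := List.length_eq_zero_iff.1 hl
    subst this
    rw [en_nil, en_nil] at he
    exact ⟨rfl, he⟩
  | append_singleton u i ih =>
    intro w' c c' hl hw hw' hc hc' h h' he
    rcases List.eq_nil_or_concat w' with h0 | ⟨u', i', h0⟩
    · subst h0
      simp at hl
    · subst h0
      rw [List.concat_eq_append] at *
      rw [List.length_append, List.length_append] at hl
      have hl' : u'.length = u.length := by simpa using hl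
      have hu : ∀ j ∈ u, 1 ≤ j := fun j hj => hw j (List.mem_append_left _ hj)
      have hu' : ∀ j ∈ u', 1 ≤ j := fun j hj => hw' j (List.mem_append_left _ hj)
      obtain ⟨r1, r2⟩ := rd_append.1 h
      obtain ⟨r1', r2'⟩ := rd_append.1 h'
      rw [en_append r1, en_append r1'] at he
      have e1 := en_spec r2
      have e2 := en_spec r2'
      have c1 : ∀ j : ℕ, cw [j] = 1 := by
        intro j
        simp [cw]
      rw [c1] at e1 e2
      simp only [List.length_singleton, List.sum_singleton, pow_one, Nat.cast_one] at e1 e2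
      rw [he] at e1
      have e3 : 2 ^ i * en u c = 2 ^ i' * en u' c' := by linarith
      obtain ⟨f1, f2⟩ := odd_pow_unique (en_take_odd hc r1 hu) (en_take_odd hc' r1' hu') e3
      obtain ⟨g1, g2⟩ := ih u' c c' hl' hu hu' hc hc' r1 r1' f2
      subst g1
      subst f1
      exact ⟨rfl, g2⟩

/-- The number of visits. -/
theorem card_visits {q₀ : ℕ} {B : ℝ} {n : ℤ} (Q : Finset (ℤ × List ℕ))
    (h1 : ∀ p ∈ Q, Odd p.1) (h2 : ∀ p ∈ Q, ∀ i ∈ p.2, 1 ≤ i) (h3 : ∀ p ∈ Q, rd p.2 p.1)
    (h4 : ∀ p ∈ Q, en p.2 p.1 = n) (h5 : ∀ p ∈ Q, |(p.1 : ℝ)| < B)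
    (h6 : ∀ p ∈ Q, ∀ q, q₀ ≤ q → q ≤ p.2.length → B ≤ |(en (p.2.take q) p.1 : ℝ)|) :
    Q.card ≤ q₀ := by
  rcases Q.eq_empty_or_nonempty with h0 | h0
  · subst h0
    simp
  obtain ⟨p, hp, hmax⟩ := exists_max_image Q (fun p => p.2.length) h0
  -- every other pair is a truncation of `p`
  have key : ∀ p' ∈ Q, p'.1 = en (p.2.take (p.2.length - p'.2.length)) p.1 ∧
      p'.2 = p.2.drop (p.2.length - p'.2.length) := by
    intro p' hp'
    have hle : p'.2.length ≤ p.2.length := hmax p' hp'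
    obtain ⟨q, hq⟩ : ∃ q, q = p.2.length - p'.2.length := ⟨_, rfl⟩
    rw [← hq]
    have hsplit : p.2.take q ++ p.2.drop q = p.2 := List.take_append_drop q p.2
    have hr : rd (p.2.take q ++ p.2.drop q) p.1 := by
      rw [hsplit]
      exact h3 p hp
    obtain ⟨r1, r2⟩ := rd_append.1 hr
    have he : en (p.2.drop q) (en (p.2.take q) p.1) = n := by
      rw [← en_append r1, hsplit]
      exact h4 p hp
    have ho : Odd (en (p.2.take q) p.1) :=
      en_take_odd (h1 p hp) r1 fun i hi => h2 p hp i (List.mem_of_mem_take hi)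
    have hu := word_unique (p.2.drop q) p'.2 (en (p.2.take q) p.1) p'.1
      (by rw [List.length_drop]; omega) (fun i hi => h2 p hp i (List.mem_of_mem_drop hi))
      (h2 p' hp') ho (h1 p' hp') r2 (h3 p' hp') (by rw [he, h4 p' hp'])
    exact ⟨hu.2.symm, hu.1.symm⟩
  have hlt : ∀ p' ∈ Q, p.2.length - p'.2.length < q₀ := by
    intro p' hp'
    by_contra hcon
    have := h6 p hp (p.2.length - p'.2.length) (by omega) (by omega)
    rw [← (key p' hp').1] at this
    exact absurd (h5 p' hp') (not_lt.2 this)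
  calc Q.card ≤ (range q₀).card := by
        apply card_le_card_of_injOn (fun p' => p.2.length - p'.2.length)
        · intro p' hp'
          exact mem_coe.2 (mem_range.2 (hlt p' hp'))
        · intro a ha b hb hab
          simp only at hab
          have k1 := key a ha
          have k2 := key b hb
          rw [← hab] at k2
          exact Prod.ext (k1.1.trans k2.1.symm) (k1.2.trans k2.2.symm)
    _ = q₀ := card_range _

/-- Weighted form. -/
theorem sum_visits {q₀ : ℕ} {B : ℝ} (Q : Finset (ℤ × List ℕ)) (S : Finset ℤ) (f : ℤ → ℝ)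
    (hf : ∀ n ∈ S, 0 ≤ f n)
    (h1 : ∀ p ∈ Q, Odd p.1) (h2 : ∀ p ∈ Q, ∀ i ∈ p.2, 1 ≤ i) (h3 : ∀ p ∈ Q, rd p.2 p.1)
    (h4 : ∀ p ∈ Q, en p.2 p.1 ∈ S) (h5 : ∀ p ∈ Q, |(p.1 : ℝ)| < B)
    (h6 : ∀ p ∈ Q, ∀ q, q₀ ≤ q → q ≤ p.2.length → B ≤ |(en (p.2.take q) p.1 : ℝ)|) :
    ∑ p ∈ Q, f (en p.2 p.1) ≤ q₀ * ∑ n ∈ S, f n := by
  classical
  rw [← sum_fiberwise_of_maps_to (s := Q) (t := S) (g := fun p => en p.2 p.1) h4, mul_sum]
  apply sum_le_sum
  intro n hn
  have e1 : ∑ p ∈ Q.filter (fun p => en p.2 p.1 = n), f (en p.2 p.1) =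
      ((Q.filter fun p => en p.2 p.1 = n).card : ℝ) * f n := by
    rw [← nsmul_eq_mul, ← sum_const]
    apply sum_congr rfl
    intro p hp
    rw [(mem_filter.1 hp).2]
  rw [e1]
  apply mul_le_mul_of_nonneg_right _ (hf n hn)
  have := card_visits (n := n) (Q.filter fun p => en p.2 p.1 = n)
    (fun p hp => h1 p (mem_filter.1 hp).1) (fun p hp => h2 p (mem_filter.1 hp).1)
    (fun p hp => h3 p (mem_filter.1 hp).1) (fun p hp => (mem_filter.1 hp).2)
    (fun p hp => h5 p (mem_filter.1 hp).1) (fun p hp => h6 p (mem_filter.1 hp).1)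
  exact_mod_cast this

end Pool.Agent.Collatz3.DN
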