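import Mathlib
import Pool.Agent.Collatz3.DNFinal
import Pool.Agent.Collatz3.DNVisit
import Pool.Agent.Collatz3.DNMain

set_option autoImplicit false

/-!
Natural density: one root of the window.
-/

namespace Pool.Agent.Collatz3.DN

open Finset Filter
open Pool.Agent.Collatz3.PD
open Pool.Agent.Helper14 (T T_two_mul)

theorem back_pow {C : ℕ} {A : Set ℤ} (hA : BackInv C A) {c : ℤ} (hc : (C : ℤ) < |c|)
    (hcA : c ∈ A) (j : ℕ) : 2 ^ j * c ∈ A := by
  induction j with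
  | zero => simpa using hcA
  | succ j ih =>
    have h1 : T (2 ^ (j + 1) * c) = 2 ^ j * c := by
      rw [pow_succ, show (2 : ℤ) ^ j * 2 * c = 2 * (2 ^ j * c) by ring, T_two_mul]
    have h2 : (C : ℤ) < |2 ^ (j + 1) * c| := by
      rw [abs_mul, abs_of_pos (by positivity : (0 : ℤ) < 2 ^ (j + 1))]
      have h3 : (1 : ℤ) ≤ 2 ^ (j + 1) := one_le_pow₀ (by norm_num)
      have h4 := abs_nonneg c
      nlinarith
    apply hA _ h2
    rw [h1]
    exact ih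

theorem back_step {C : ℕ} {A : Set ℤ} (hA : BackInv C A) {i : ℕ} (hi : 1 ≤ i) {c c' : ℤ}
    (h : 2 ^ i * c = 3 * c' + 1) (hc : (C : ℤ) < |c|) (hc' : (C : ℤ) < |c'|) (hcA : c ∈ A) :
    c' ∈ A := by
  obtain ⟨j, rfl⟩ : ∃ j, i = j + 1 := ⟨i - 1, by omega⟩
  have h1 : T c' = 2 ^ j * c := by
    have e : (2 : ℤ) ^ (j + 1) * c = 2 * (2 ^ j * c) := by ring
    unfold T
    rw [if_neg (by omega)]
    omega
  apply hA _ hc'
  rw [h1]
  exact back_pow hA hc hcA j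

theorem back_path {C : ℕ} {A : Set ℤ} (hA : BackInv C A) {u : List ℕ} (hpos : ∀ i ∈ u, 1 ≤ i) :
    ∀ {c : ℤ}, rd u c → (∀ q, (C : ℝ) < |(en (u.take q) c : ℝ)|) → c ∈ A → en u c ∈ A := by
  induction u with
  | nil =>
    intro c _ _ hc
    rw [en_nil]
    exact hc
  | cons i v ih =>
    intro c hr hl hcA
    have hr' : rd ([i] ++ v) c := hr
    obtain ⟨r1, r2⟩ := rd_append.1 hr'
    have e1 : en (i :: v) c = en v (en [i] c) := en_append (v := [i]) (w := v) r1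
    have h0 : (C : ℤ) < |c| := by
      have := hl 0
      rw [List.take_zero, en_nil] at this
      exact_mod_cast this
    have h1 : (C : ℤ) < |en [i] c| := by
      have := hl 1
      rw [List.take_succ_cons, List.take_zero] at this
      exact_mod_cast this
    rw [e1]
    apply ih (fun j hj => hpos j (List.mem_cons_of_mem _ hj)) r2
    · intro q
      have h2 := hl (q + 1)
      rw [List.take_succ_cons] at h2
      have h3 : en (i :: v.take q) c = en (v.take q) (en [i] c) :=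
        en_append (v := [i]) (w := v.take q) r1
      rwa [h3] at h2
    · have h2 := en_spec r1
      have c1 : cw [i] = 1 := by simp [cw]
      rw [c1] at h2
      simp only [List.length_singleton, List.sum_singleton, pow_one, Nat.cast_one] at h2
      exact back_step hA (hpos i List.mem_cons_self) (by linarith) h0 h1 hcA

/-- The location of the end points of the window. -/
theorem en_window {q₀ L K Y : ℕ} {Kc X : ℝ} {u : List ℕ} (hY : 1 ≤ Y) (hKc : 1 ≤ Kc)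
    (hu : Wprop q₀ L K Y Kc u) {c : ℤ} (hr : rd u c) (hc : 5 * Kc ≤ |(c : ℝ)|)
    (hX : 2 * (|(c : ℝ)| + Kc) ≤ X) (hY1 : X ≤ Y * (|(c : ℝ)| - Kc))
    (hY2 : Y * (|(c : ℝ)| - Kc) ≤ X + (|(c : ℝ)| - Kc)) :
    X < |(en u c : ℝ)| ∧ |(en u c : ℝ)| ≤ 2 ^ (K + 1) * X := by
  obtain ⟨x, hx⟩ : ∃ x, x = |(c : ℝ)| := ⟨_, rfl⟩
  obtain ⟨y, hy⟩ : ∃ y, y = |(en u c : ℝ)| := ⟨_, rfl⟩
  have h1 := en_lower hu.cw hr
  have h2 := en_upper hu.cw hr
  rw [← hx, ← hy] at h1 h2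
  rw [← hx] at hc hX hY1 hY2
  rw [← hy]
  obtain ⟨w1, w2⟩ := hu.win
  have h3 : (Y : ℝ) * 3 ^ u.length < 2 ^ u.sum :=
    lt_of_lt_of_le (lt_lam Y u.length) (pow_le_pow_right₀ (by norm_num) w1)
  have h4 : (2 : ℝ) ^ u.sum ≤ 2 ^ K * (Y * 3 ^ u.length) := by
    calc (2 : ℝ) ^ u.sum ≤ 2 ^ (lam Y u.length + K) := pow_le_pow_right₀ (by norm_num) w2
      _ = 2 ^ K * 2 ^ lam Y u.length := by rw [pow_add]; ring
      _ ≤ _ := mul_le_mul_of_nonneg_left (lam_le hY _) (by positivity)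
  have hxK : 0 < x - Kc := by linarith
  constructor
  · have h5 : (3 : ℝ) ^ u.length * (Y * (x - Kc)) < 3 ^ u.length * y := by
      calc (3 : ℝ) ^ u.length * (Y * (x - Kc)) = (Y * 3 ^ u.length) * (x - Kc) := by ring
        _ < 2 ^ u.sum * (x - Kc) := mul_lt_mul_of_pos_right h3 hxK
        _ ≤ _ := h1
    have h6 := lt_of_mul_lt_mul_left h5 (by positivity)
    linarith
  · have h5 : (3 : ℝ) ^ u.length * y ≤ 3 ^ u.length * (2 ^ K * (Y * (x + Kc))) := by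
      calc (3 : ℝ) ^ u.length * y ≤ 2 ^ u.sum * (x + Kc) := h2
        _ ≤ (2 ^ K * (Y * 3 ^ u.length)) * (x + Kc) :=
            mul_le_mul_of_nonneg_right h4 (by linarith)
        _ = _ := by ring
    have h6 := le_of_mul_le_mul_left h5 (by positivity)
    refine h6.trans ?_
    rw [pow_succ, mul_assoc]
    apply mul_le_mul_of_nonneg_left _ (by positivity)
    have h7 : 2 * (x + Kc) ≤ 3 * (x - Kc) := by linarith
    have hYr : (0 : ℝ) ≤ Y := Nat.cast_nonneg Y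
    have h8 : (Y : ℝ) * (2 * (x + Kc)) ≤ Y * (3 * (x - Kc)) := mul_le_mul_of_nonneg_left h7 hYr
    nlinarith

/-- Beyond `q₀` steps the path is above the window of roots. -/
theorem en_above {q₀ L K Y : ℕ} {Kc A' : ℝ} {u : List ℕ} (hKc : 1 ≤ Kc)
    (hu : Wprop q₀ L K Y Kc u) {c : ℤ} (hr : rd u c) (hc : 5 * Kc ≤ |(c : ℝ)|)
    (hA' : A' ≤ |(c : ℝ)|) {q : ℕ} (h1 : q₀ ≤ q) (h2 : q ≤ u.length) :
    2 ^ L * A' ≤ |(en (u.take q) c : ℝ)| := by
  have h3 := en_lower (cw_take_bound hu.cw q) (rd_take hr q)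
  have h4 := hu.up q h1 h2
  rw [List.length_take, min_eq_left h2] at h3
  have h5 : (2 : ℝ) ^ (L + 2) * 3 ^ q ≤ 2 ^ (u.take q).sum := by exact_mod_cast h4
  have h6 : (3 : ℝ) ^ q * (2 ^ (L + 2) * (|(c : ℝ)| - Kc)) ≤ 3 ^ q * |(en (u.take q) c : ℝ)| := by
    calc (3 : ℝ) ^ q * (2 ^ (L + 2) * (|(c : ℝ)| - Kc)) =
        (2 ^ (L + 2) * 3 ^ q) * (|(c : ℝ)| - Kc) := by ring
      _ ≤ 2 ^ (u.take q).sum * (|(c : ℝ)| - Kc) := mul_le_mul_of_nonneg_right h5 (by linarith)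
      _ ≤ _ := h3
  have h7 := le_of_mul_le_mul_left h6 (by positivity)
  refine le_trans ?_ h7
  rw [pow_add, mul_assoc]
  apply mul_le_mul_of_nonneg_left _ (by positivity)
  norm_num
  linarith

/-- The weight of an end point. -/
theorem weight_le {Kc : ℝ} {u : List ℕ} (hKc : 1 ≤ Kc) (h : (cw u : ℝ) ≤ Kc * 2 ^ u.sum) {c : ℤ}
    (hr : rd u c) (hne : en u c ≠ 0) :
    3 ^ u.length * (1 / 2 : ℝ) ^ u.sum * 1 / (|(c : ℝ)| + Kc) ≤ 1 / |(en u c : ℝ)| := by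
  have h1 := en_upper h hr
  have h2 : 0 < |(en u c : ℝ)| := by
    rw [abs_pos]
    exact_mod_cast hne
  have h3 : 0 < |(c : ℝ)| + Kc := by
    have := abs_nonneg (c : ℝ)
    linarith
  rw [div_le_div_iff₀ h3 h2, mul_one, one_mul, one_div, inv_pow]
  have h4 : (0 : ℝ) < 2 ^ u.sum := by positivity
  calc 3 ^ u.length * ((2 : ℝ) ^ u.sum)⁻¹ * |(en u c : ℝ)| =
      (3 ^ u.length * |(en u c : ℝ)|) * ((2 : ℝ) ^ u.sum)⁻¹ := by ring
    _ ≤ (2 ^ u.sum * (|(c : ℝ)| + Kc)) * ((2 : ℝ) ^ u.sum)⁻¹ :=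
        mul_le_mul_of_nonneg_right h1 (by positivity)
    _ = _ := by field_simp

theorem weight_sum {Kc : ℝ} (hKc : 1 ≤ Kc) {H : Finset (List ℕ)}
    (h : ∀ u ∈ H, (cw u : ℝ) ≤ Kc * 2 ^ u.sum) {c : ℤ}
    (hne : ∀ u ∈ H, rd u c → en u c ≠ 0) :
    E H (fun _ => 1) c / (|(c : ℝ)| + Kc) ≤
      ∑ u ∈ H.filter (fun u => rd u c), 1 / |(en u c : ℝ)| := by
  unfold E
  rw [sum_div]
  apply sum_le_sum
  intro u hu
  rw [mem_filter] at hu
  exact weight_le hKc (h u hu.1) hu.2 (hne u hu.1 hu.2)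

end Pool.Agent.Collatz3.DN
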