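import Mathlib
import Pool.Agent.Collatz3.DNIface
import Pool.Agent.Collatz3.PDEnd

set_option autoImplicit false

/-!
Natural density: invariant sets along the paths.
-/

namespace Pool.Agent.Collatz3.DN

open Finset Filter
open Pool.Agent.Collatz3.PD
open Pool.Agent.Helper14 (T T_two_mul)

theorem inv_pow {C : ℕ} {A : Set ℤ} (hA : EvInv C A) {c : ℤ} (hc : (C : ℤ) < |c|) (j : ℕ) :
    2 ^ j * c ∈ A ↔ c ∈ A := by
  induction j with
  | zero => simp
  | succ j ih =>
    have h1 : T (2 ^ (j + 1) * c) = 2 ^ j * c := by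
      rw [pow_succ, show (2 : ℤ) ^ j * 2 * c = 2 * (2 ^ j * c) by ring, T_two_mul]
    have h2 : (C : ℤ) < |2 ^ (j + 1) * c| := by
      rw [abs_mul, abs_of_pos (by positivity : (0 : ℤ) < 2 ^ (j + 1))]
      have h3 : (1 : ℤ) ≤ 2 ^ (j + 1) := one_le_pow₀ (by norm_num)
      have h4 := abs_nonneg c
      nlinarith
    rw [← hA _ h2, h1, ih]

theorem inv_step {C : ℕ} {A : Set ℤ} (hA : EvInv C A) {i : ℕ} (hi : 1 ≤ i) {c c' : ℤ}
    (h : 2 ^ i * c = 3 * c' + 1) (hc : (C : ℤ) < |c|) (hc' : (C : ℤ) < |c'|) :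
    c' ∈ A ↔ c ∈ A := by
  obtain ⟨j, rfl⟩ : ∃ j, i = j + 1 := ⟨i - 1, by omega⟩
  have h1 : T c' = 2 ^ j * c := by
    have e : (2 : ℤ) ^ (j + 1) * c = 2 * (2 ^ j * c) := by ring
    unfold T
    rw [if_neg (by omega)]
    omega
  rw [← hA _ hc', h1, inv_pow hA hc]

theorem inv_path {C : ℕ} {A : Set ℤ} (hA : EvInv C A) {u : List ℕ} (hpos : ∀ i ∈ u, 1 ≤ i) :
    ∀ {c : ℤ}, rd u c → (∀ q, (C : ℝ) < |(en (u.take q) c : ℝ)|) → (en u c ∈ A ↔ c ∈ A) := by
  induction u with
  | nil =>
    intro c _ _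
    rw [en_nil]
  | cons i v ih =>
    intro c hr hl
    have hr' : rd ([i] ++ v) c := hr
    obtain ⟨r1, r2⟩ := rd_append.1 hr'
    have e1 : en (i :: v) c = en v (en [i] c) := en_append (v := [i]) (w := v) r1
    have h0 : (C : ℤ) < |c| := by
      have := hl 0
      rw [List.take_zero, en_nil] at this
      exact_mod_cast this
    have h1 : (C : ℤ) < |en [i] c| := by
      have := hl 1
      rw [List.take_succ_cons, List.take_zero] at this
      exact_mod_cast this
    rw [e1, ih (fun j hj => hpos j (List.mem_cons_of_mem _ hj)) r2]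
    · have h2 := en_spec r1
      have c1 : cw [i] = 1 := by simp [cw]
      rw [c1] at h2
      simp only [List.length_singleton, List.sum_singleton, pow_one, Nat.cast_one] at h2
      exact inv_step hA (hpos i List.mem_cons_self) (by linarith) h0 h1
    · intro q
      have h2 := hl (q + 1)
      rw [List.take_succ_cons] at h2
      have h3 : en (i :: v.take q) c = en (v.take q) (en [i] c) :=
        en_append (v := [i]) (w := v.take q) r1
      rwa [h3] at h2

end Pool.Agent.Collatz3.DN
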