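import Mathlib
import Pool.Agent.Collatz3.DNInv
import Pool.Agent.Helper86.CollatzInt
import Pool.Agent.Helper86.SlowVar

set_option autoImplicit false

/-!
Natural density: slow variation for sets that are invariant outside a finite set.
-/

namespace Pool.Agent.Collatz3.DN

open Filter Topology Asymptotics
open Pool.Agent.Helper14 (T)
open Pool.Agent.Helper86.CollatzInt
open Pool.Agent.Helper86.CollatzChain
open Pool.Agent.Helper86.CollatzRate
open Pool.Agent.Helper86.SlowVar

theorem abs_T (n : ℤ) : |n| ≤ 2 * |T n| := by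
  unfold T
  split_ifs with h
  · obtain ⟨m, rfl⟩ := h
    have h1 : 2 * m / 2 = m := by omega
    rw [h1, abs_mul]
    norm_num
  · rcases abs_cases n with ⟨h1, h2⟩ | ⟨h1, h2⟩ <;>
      rcases abs_cases ((3 * n + 1) / 2) with ⟨h3, h4⟩ | ⟨h3, h4⟩ <;> omega

theorem iter_mem {C : ℕ} {A : Set ℤ} (hA : EvInv C A) (k : ℕ) : ∀ n : ℤ,
    (C : ℤ) * 2 ^ k < |n| → (T^[k] n ∈ A ↔ n ∈ A) := by
  induction k with
  | zero => intro n _; rfl
  | succ k ih =>
    intro n hn
    rw [Function.iterate_succ_apply]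
    have h1 := abs_T n
    have h2 : (C : ℤ) * 2 ^ k < |T n| := by
      rw [pow_succ] at hn
      nlinarith
    rw [ih _ h2]
    apply hA
    refine lt_of_le_of_lt ?_ hn
    have h3 : (1 : ℤ) ≤ 2 ^ (k + 1) := one_le_pow₀ (by norm_num)
    have h4 : (0 : ℤ) ≤ C := Int.natCast_nonneg C
    nlinarith

open Classical in
/-- The indicator function of `A`. -/
noncomputable def indA (A : Set ℤ) (n : ℤ) : ℝ := if n ∈ A then 1 else 0

theorem indA_nonneg (A : Set ℤ) (n : ℤ) : 0 ≤ indA A n := by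
  unfold indA
  split_ifs <;> norm_num

theorem indA_le_one (A : Set ℤ) (n : ℤ) : indA A n ≤ 1 := by
  unfold indA
  split_ifs <;> norm_num

theorem indA_congr {A : Set ℤ} {m n : ℤ} (h : m ∈ A ↔ n ∈ A) : indA A m = indA A n := by
  unfold indA
  by_cases hn : n ∈ A
  · rw [if_pos hn, if_pos (h.2 hn)]
  · rw [if_neg hn, if_neg (fun hm => hn (h.1 hm))]

theorem abs_indA_sub_le (A : Set ℤ) (m n : ℤ) : |indA A m - indA A n| ≤ 1 := by
  have h1 := indA_nonneg A m
  have h2 := indA_nonneg A n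
  have h3 := indA_le_one A m
  have h4 := indA_le_one A n
  rw [abs_le]
  constructor <;> linarith

/-- Merging above the exceptional interval. -/
theorem indA_merge {C : ℕ} {A : Set ℤ} (hA : EvInv C A) {k a : ℕ} {b n : ℤ}
    (hw : w k (a, b) n = 0) (h1 : (C : ℤ) * 2 ^ k < |n|)
    (h2 : (C : ℤ) * 2 ^ k < |3 ^ a * n + b|) : indA A (3 ^ a * n + b) = indA A n := by
  apply indA_congr
  rw [← iter_mem hA k _ h2, ← iter_mem hA k _ h1, coalesce k a b n _ rfl hw]

theorem u_small (a : ℕ) (b : ℤ) {ε : ℝ} (hε : 0 < ε) : ∃ k : ℕ, u k (a, b) ≤ ε := by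
  obtain ⟨C, hC, h⟩ := rate
  have hlim : Tendsto (fun k : ℕ => C * Real.sqrt ((1 + (a : ℝ) ^ 2 + Real.log (1 + |(b : ℝ)|)) / k))
      atTop (𝓝 0) := by
    have h1 : Tendsto (fun k : ℕ => (1 + (a : ℝ) ^ 2 + Real.log (1 + |(b : ℝ)|)) / (k : ℝ)) atTop
        (𝓝 0) := tendsto_const_div_atTop_nhds_zero_nat _
    have h2 := (Real.continuous_sqrt.tendsto 0).comp h1
    rw [Real.sqrt_zero] at h2
    have h3 := h2.const_mul C
    rw [mul_zero] at h3
    exact h3
  obtain ⟨k, hk1, hk2⟩ := ((hlim.eventually (ge_mem_nhds hε)).and (eventually_ge_atTop 1)).exists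
  exact ⟨k, (h a b k hk2).trans hk1⟩

open Classical in
theorem small_ev {C : ℕ} {A : Set ℤ} (hA : EvInv C A) {σ : ℤ} (hσ : |σ| = 1) (a : ℕ) (b : ℤ) :
    (fun N : ℕ => S (fun n => |indA A (3 ^ a * (σ * n) + b) - indA A (σ * n)|) N) =o[atTop]
      fun N : ℕ => (N : ℝ) := by
  have hσ0 : σ ≠ 0 := by
    rintro rfl
    simp at hσ
  rw [isLittleO_iff]
  intro ε hε
  obtain ⟨k, hk⟩ := u_small a b (show (0 : ℝ) < ε / 8 by positivity)
  obtain ⟨B, hB⟩ : ∃ B : ℕ, B = C * 2 ^ k := ⟨_, rfl⟩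
  have hBZ : (C : ℤ) * 2 ^ k = B := by
    rw [hB]
    push_cast
    rfl
  -- the bound
  have hbound : ∀ N : ℕ, S (fun n => |indA A (3 ^ a * (σ * n) + b) - indA A (σ * n)|) N ≤
      (2 * N + 1 + 2 ^ k) * u k (a, b) + (2 * B + b.natAbs + 2 : ℕ) := by
    intro N
    have h1 : S (fun n => |indA A (3 ^ a * (σ * n) + b) - indA A (σ * n)|) N ≤
        (((Finset.range N).filter (fun n : ℕ => w k (a, b) (σ * n) ≠ 0)).card : ℝ) +
        (((Finset.range N).filter (fun n : ℕ => |σ * (n : ℤ)| ≤ B)).card : ℝ) +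
        (((Finset.range N).filter (fun n : ℕ => |3 ^ a * (σ * (n : ℤ)) + b| ≤ B)).card : ℝ) := by
      unfold S
      rw [Finset.card_filter, Finset.card_filter, Finset.card_filter]
      push_cast
      rw [← Finset.sum_add_distrib, ← Finset.sum_add_distrib]
      apply Finset.sum_le_sum
      intro n _
      have g4 := abs_indA_sub_le A (3 ^ a * (σ * n) + b) (σ * n)
      by_cases c : w k (a, b) (σ * n) = 0 ∧ ¬ |σ * (n : ℤ)| ≤ B ∧
          ¬ |3 ^ a * (σ * (n : ℤ)) + b| ≤ B
      · obtain ⟨c1, c2, c3⟩ := c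
        rw [indA_merge hA c1 (by rw [hBZ]; exact not_le.1 c2) (by rw [hBZ]; exact not_le.1 c3),
          sub_self, abs_zero]
        split_ifs <;> norm_num
      · refine g4.trans ?_
        split_ifs with d1 d2 d3
        all_goals first
          | (norm_num; done)
          | (exfalso; exact c ⟨by tauto, by tauto, by tauto⟩)
    have h2 : (((Finset.range N).filter (fun n : ℕ => w k (a, b) (σ * n) ≠ 0)).card : ℝ) ≤
        (2 * N + 1 + 2 ^ k) * u k (a, b) := by
      refine le_trans ?_ (ncard_le k N (a, b))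
      have h3 : ((Finset.range N).filter (fun n : ℕ => w k (a, b) (σ * n) ≠ 0)).card ≤
          Set.ncard {n : ℤ | |n| ≤ N ∧ w k (a, b) n ≠ 0} := by
        rw [← Set.ncard_coe_finset]
        apply Set.ncard_le_ncard_of_injOn (fun n : ℕ => σ * n) (ht := finite_abs_le N _)
        · intro n hn
          rw [Finset.mem_coe, Finset.mem_filter, Finset.mem_range] at hn
          refine ⟨?_, hn.2⟩
          rw [abs_mul, hσ, one_mul, Nat.abs_cast]
          exact_mod_cast hn.1.le
        · intro m _ n _ hmn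
          have h3 : (m : ℤ) = n := mul_left_cancel₀ hσ0 hmn
          exact_mod_cast h3
      exact_mod_cast h3
    have h3 : ((Finset.range N).filter (fun n : ℕ => |σ * (n : ℤ)| ≤ B)).card ≤ B + 1 := by
      refine (Finset.card_le_card (t := Finset.range (B + 1)) ?_).trans (Finset.card_range _).le
      intro n hn
      rw [Finset.mem_filter, abs_mul, hσ, one_mul, Nat.abs_cast] at hn
      rw [Finset.mem_range]
      have := hn.2
      omega
    have h4 : ((Finset.range N).filter (fun n : ℕ => |3 ^ a * (σ * (n : ℤ)) + b| ≤ B)).card ≤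
        B + b.natAbs + 1 := by
      refine (Finset.card_le_card (t := Finset.range (B + b.natAbs + 1)) ?_).trans
        (Finset.card_range _).le
      intro n hn
      rw [Finset.mem_filter] at hn
      rw [Finset.mem_range]
      have e1 : |3 ^ a * (σ * (n : ℤ))| ≤ B + b.natAbs := by
        have e2 : 3 ^ a * (σ * (n : ℤ)) = (3 ^ a * (σ * (n : ℤ)) + b) - b := by ring
        rw [e2]
        refine (abs_sub _ _).trans ?_
        have e3 : |b| = (b.natAbs : ℤ) := Int.abs_eq_natAbs b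
        have := hn.2
        omega
      rw [abs_mul, abs_mul, hσ, one_mul, Nat.abs_cast, abs_of_pos (by positivity)] at e1
      have e4 : (1 : ℤ) ≤ 3 ^ a := one_le_pow₀ (by norm_num)
      have e5 : (0 : ℤ) ≤ n := Int.natCast_nonneg n
      have e6 : (n : ℤ) ≤ 3 ^ a * n := by nlinarith
      omega
    have h5 : (((Finset.range N).filter (fun n : ℕ => |σ * (n : ℤ)| ≤ B)).card : ℝ) ≤
        (B + 1 : ℕ) := by exact_mod_cast h3
    have h6 : (((Finset.range N).filter
        (fun n : ℕ => |3 ^ a * (σ * (n : ℤ)) + b| ≤ B)).card : ℝ) ≤ (B + b.natAbs + 1 : ℕ) := by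
      exact_mod_cast h4
    push_cast at h5 h6 ⊢
    linarith
  filter_upwards [eventually_ge_atTop (2 ^ k + 1),
    (tendsto_natCast_atTop_atTop (R := ℝ)).eventually_ge_atTop
      (2 * (2 * B + b.natAbs + 2 : ℕ) / ε)] with N h1 h2
  have h3 := hbound N
  have h4 : 0 ≤ S (fun n => |indA A (3 ^ a * (σ * n) + b) - indA A (σ * n)|) N :=
    S_nonneg (fun n => abs_nonneg _) N
  rw [Real.norm_of_nonneg h4, Real.norm_natCast]
  refine h3.trans ?_
  have h5 : (2 : ℝ) ^ k + 1 ≤ N := by exact_mod_cast h1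
  have h6 : (2 * N + 1 + 2 ^ k) * u k (a, b) ≤ (4 * N) * (ε / 8) := by
    apply mul_le_mul _ hk (u_nonneg k (a, b)) (by positivity)
    have : (0 : ℝ) ≤ N := Nat.cast_nonneg N
    linarith
  rw [div_le_iff₀ hε] at h2
  linarith

/-- A modification of the indicator function that is invariant under doubling. -/
noncomputable def fm (C : ℕ) (A : Set ℤ) (σ : ℤ) (n : ℕ) : ℝ := indA A (2 ^ (C + 1) * (σ * n))

theorem fm_eq {C : ℕ} {A : Set ℤ} (hA : EvInv C A) {σ : ℤ} (hσ : |σ| = 1) {n : ℕ} (hn : C < n) :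
    fm C A σ n = indA A (σ * n) := by
  unfold fm
  apply indA_congr
  apply inv_pow hA
  rw [abs_mul, hσ, one_mul, Nat.abs_cast]
  exact_mod_cast hn

theorem fm_two {C : ℕ} {A : Set ℤ} (hA : EvInv C A) {σ : ℤ} (hσ : |σ| = 1) (n : ℕ) :
    fm C A σ (2 * n) = fm C A σ n := by
  rcases Nat.eq_zero_or_pos n with rfl | hn
  · rfl
  unfold fm
  apply indA_congr
  have h1 : 2 ^ (C + 1) * (σ * ((2 * n : ℕ) : ℤ)) = 2 ^ 1 * (2 ^ (C + 1) * (σ * (n : ℤ))) := by
    push_cast
    ring
  rw [h1]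
  apply inv_pow hA
  rw [abs_mul, abs_mul, hσ, one_mul, Nat.abs_cast, abs_of_pos (by positivity)]
  have h2 : (C : ℤ) < 2 ^ (C + 1) := by
    have : C < 2 ^ C := Nat.lt_two_pow_self
    have h3 : C < 2 ^ (C + 1) := this.trans (Nat.pow_lt_pow_right (by norm_num) (by omega))
    exact_mod_cast h3
  have h3 : (1 : ℤ) ≤ n := by exact_mod_cast hn
  have h4 : (0 : ℤ) ≤ 2 ^ (C + 1) := by positivity
  nlinarith

theorem fm_le (C : ℕ) (A : Set ℤ) (σ : ℤ) (n : ℕ) : fm C A σ n ≤ 1 := indA_le_one _ _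

theorem fm_nonneg (C : ℕ) (A : Set ℤ) (σ : ℤ) (n : ℕ) : 0 ≤ fm C A σ n := indA_nonneg _ _

theorem fm_sub {C : ℕ} {A : Set ℤ} (hA : EvInv C A) {σ : ℤ} (hσ : |σ| = 1) (n : ℕ) :
    |fm C A σ n - indA A (σ * n)| ≤ if n ≤ C then 1 else 0 := by
  split_ifs with h
  · exact abs_indA_sub_le _ _ _
  · rw [fm_eq hA hσ (not_le.1 h), sub_self, abs_zero]

theorem sum_le_C (C N : ℕ) (g : ℕ → ℕ) (hg : ∀ n, n ≤ g n) :
    ∑ n ∈ Finset.range N, (if g n ≤ C then (1 : ℝ) else 0) ≤ C + 1 := by
  rw [← Finset.sum_filter, Finset.sum_const, nsmul_eq_mul, mul_one]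
  have h : ((Finset.range N).filter fun n => g n ≤ C).card ≤ C + 1 := by
    refine (Finset.card_le_card (t := Finset.range (C + 1)) ?_).trans (Finset.card_range _).le
    intro n hn
    rw [Finset.mem_filter] at hn
    rw [Finset.mem_range]
    have := hg n
    omega
  exact_mod_cast h

theorem const_littleO (c : ℝ) : (fun _ : ℕ => c) =o[atTop] fun N : ℕ => (N : ℝ) :=
  (isLittleO_const_id_atTop c).comp_tendsto tendsto_natCast_atTop_atTop

theorem fm_littleO {C : ℕ} {A : Set ℤ} (hA : EvInv C A) {σ : ℤ} (hσ : |σ| = 1) (g : ℕ → ℕ)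
    (hg : ∀ n, n ≤ g n)
    (h : (fun N : ℕ => S (fun n => |indA A (σ * (g n : ℕ)) - indA A (σ * n)|) N) =o[atTop]
      fun N : ℕ => (N : ℝ)) :
    (fun N : ℕ => S (fun n => |fm C A σ (g n) - fm C A σ n|) N) =o[atTop]
      fun N : ℕ => (N : ℝ) := by
  refine IsBigO.trans_isLittleO ?_ (h.add (const_littleO (2 * (C + 1))))
  apply IsBigO.of_bound 1
  filter_upwards with N
  have h0 : 0 ≤ S (fun n => |fm C A σ (g n) - fm C A σ n|) N := S_nonneg (fun n => abs_nonneg _) N
  rw [one_mul, Real.norm_of_nonneg h0]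
  refine le_trans ?_ (le_abs_self _)
  have h1 : S (fun n => |fm C A σ (g n) - fm C A σ n|) N ≤
      ∑ n ∈ Finset.range N, (|indA A (σ * (g n : ℕ)) - indA A (σ * n)| +
        ((if g n ≤ C then (1 : ℝ) else 0) + if n ≤ C then (1 : ℝ) else 0)) := by
    unfold S
    apply Finset.sum_le_sum
    intro n _
    have e1 := fm_sub hA hσ (g n)
    have e2 := fm_sub hA hσ n
    have e3 : fm C A σ (g n) - fm C A σ n = (fm C A σ (g n) - indA A (σ * (g n : ℕ))) +
        (indA A (σ * (g n : ℕ)) - indA A (σ * n)) - (fm C A σ n - indA A (σ * n)) := by ring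
    rw [e3]
    have e4 := abs_sub ((fm C A σ (g n) - indA A (σ * (g n : ℕ))) +
        (indA A (σ * (g n : ℕ)) - indA A (σ * n))) (fm C A σ n - indA A (σ * n))
    have e5 := abs_add_le (fm C A σ (g n) - indA A (σ * (g n : ℕ)))
        (indA A (σ * (g n : ℕ)) - indA A (σ * n))
    linarith
  refine h1.trans ?_
  rw [Finset.sum_add_distrib, Finset.sum_add_distrib]
  have e1 := sum_le_C C N g hg
  have e2 := sum_le_C C N (fun n => n) fun n => le_rfl
  unfold S
  linarith

theorem inv_fm {C : ℕ} {A : Set ℤ} (hA : EvInv C A) {σ : ℤ} (hσ : |σ| = 1) :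
    Inv (fm C A σ) where
  nonneg n := fm_nonneg _ _ _ _
  le_one n := fm_le _ _ _ _
  shift d := by
    apply fm_littleO hA hσ (fun n => n + d) (fun n => Nat.le_add_right n d)
    have h := small_ev hA hσ 0 (σ * d)
    refine h.congr_left ?_
    intro N
    congr 1
    funext n
    congr 3
    push_cast
    ring
  two n := fm_two hA hσ n
  three := by
    apply fm_littleO hA hσ (fun n => 3 * n) (fun n => by omega)
    have h := small_ev hA hσ 1 0
    refine h.congr_left ?_
    intro N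
    congr 1
    funext n
    congr 3
    push_cast
    ring

open Classical in
theorem sr_indA (A : Set ℤ) (σ : ℤ) (q r : ℕ) {x : ℝ} (hx : 0 ≤ x) :
    sr (fun m : ℕ => indA A (σ * (q * m + r))) x =
      (Set.ncard {m : ℕ | (m : ℝ) ≤ x ∧ σ * (q * m + r) ∈ A} : ℝ) := by
  have h1 : {m : ℕ | (m : ℝ) ≤ x ∧ σ * (q * m + r) ∈ A} =
      (((Finset.range (⌊x⌋₊ + 1)).filter fun m : ℕ => σ * (q * (m : ℤ) + r) ∈ A : Finset ℕ) :
        Set ℕ) := by
    ext n
    simp only [Set.mem_ofPred_eq, Finset.coe_filter, Finset.mem_range]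
    rw [Nat.lt_succ_iff, Nat.le_floor_iff hx]
  rw [h1, Set.ncard_coe_finset, Finset.card_filter]
  push_cast
  rfl

/-- **Slow variation for sets that are invariant outside a finite set.** -/
theorem slowEv : SlowEv := by
  intro σ hσ C A hA q r hq l hl
  have h := main (inv_fm hA hσ) hq r hl
  -- the difference of the two counting functions is bounded
  have hb : ∀ (q r : ℕ), 1 ≤ q → ∀ x : ℝ,
      |sr (fun m => fm C A σ (q * m + r)) x - sr (fun m : ℕ => indA A (σ * (q * m + r))) x| ≤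
        C + 1 := by
    intro q r hq x
    unfold sr S
    rw [← Finset.sum_sub_distrib]
    refine (Finset.abs_sum_le_sum_abs _ _).trans ?_
    refine le_trans (Finset.sum_le_sum fun m _ => ?_) (sum_le_C C (⌊x⌋₊ + 1) (fun m => q * m + r)
      fun m => ?_)
    · have := fm_sub hA hσ (q * m + r)
      push_cast at this
      exact this
    · exact (Nat.le_mul_of_pos_left m hq).trans (Nat.le_add_right _ _)
  have hlim : ∀ c : ℝ, 0 < c → Tendsto (fun x : ℝ => ((C : ℝ) + 1) / (c * x)) atTop (𝓝 0) := by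
    intro c hc
    exact tendsto_const_nhds.div_atTop (tendsto_const_mul hc)
  have h1 : Tendsto (fun x : ℝ =>
      (sr (fun m : ℕ => indA A (σ * (q * m + r))) (l * x) -
        sr (fun m => fm C A σ (q * m + r)) (l * x)) / (l * x)) atTop (𝓝 0) := by
    rw [tendsto_zero_iff_abs_tendsto_zero]
    refine squeeze_zero' (Eventually.of_forall fun x => abs_nonneg _) ?_ (hlim l hl)
    filter_upwards [eventually_gt_atTop 0] with x hx
    simp only [Function.comp_apply]
    rw [abs_div, abs_of_pos (mul_pos hl hx), abs_sub_comm]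
    exact div_le_div_of_nonneg_right (hb q r hq (l * x)) (mul_pos hl hx).le
  have h2 : Tendsto (fun x : ℝ =>
      (sr (fun m : ℕ => indA A (σ * ((1 : ℕ) * m + (0 : ℕ)))) x -
        sr (fun m => fm C A σ (1 * m + 0)) x) / x) atTop (𝓝 0) := by
    rw [tendsto_zero_iff_abs_tendsto_zero]
    refine squeeze_zero' (Eventually.of_forall fun x => abs_nonneg _) ?_ (hlim 1 one_pos)
    filter_upwards [eventually_gt_atTop 0] with x hx
    simp only [Function.comp_apply]
    rw [abs_div, abs_of_pos hx, abs_sub_comm, one_mul]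
    exact div_le_div_of_nonneg_right (hb 1 0 le_rfl x) hx.le
  have h3 := (h.add h1).sub h2
  rw [add_zero, sub_zero] at h3
  refine h3.congr' ?_
  filter_upwards [eventually_ge_atTop 0] with x hx
  rw [← sr_indA A σ q r (by positivity)]
  have e1 : (Set.ncard {m : ℕ | (m : ℝ) ≤ x ∧ σ * (m : ℤ) ∈ A} : ℝ) =
      sr (fun m : ℕ => indA A (σ * ((1 : ℕ) * m + (0 : ℕ)))) x := by
    rw [sr_indA A σ 1 0 hx]
    congr 2
    ext m
    simp
  rw [e1]
  have e2 : (fun m => fm C A σ (1 * m + 0)) = fm C A σ := by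
    funext m
    rw [one_mul, add_zero]
  rw [e2]
  ring

end Pool.Agent.Collatz3.DN
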