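import Mathlib
import Pool.Agent.Collatz3.DNSlow

set_option autoImplicit false

/-!
Natural density: the points of an invariant set all of whose images under finitely many maps
`n ↦ 3 ^ a * n + b` are in the set as well.
-/

namespace Pool.Agent.Collatz3.DN

open Filter Topology Asymptotics
open Pool.Agent.Helper14 (T)
open Pool.Agent.Helper86.SlowVar

/-- The points of `A` whose images under the maps `n ↦ 3 ^ a * n + b`, `(a, b) ∈ F`, are in `A`. -/
def blk (A : Set ℤ) (F : Finset (ℕ × ℤ)) : Set ℤ := {n | n ∈ A ∧ ∀ s ∈ F, 3 ^ s.1 * n + s.2 ∈ A}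

theorem fin_prog (σ : ℤ) (A : Set ℤ) (q r : ℕ) (x : ℝ) :
    {m : ℕ | (m : ℝ) ≤ x ∧ σ * (q * m + r) ∈ A}.Finite := by
  apply (Set.finite_Iic ⌊x⌋₊).subset
  intro m hm
  exact Nat.le_floor hm.1

theorem bad_le {A : Set ℤ} {σ : ℤ} {q r a : ℕ} {b : ℤ} (hq : 1 ≤ q) {x : ℝ} :
    (Set.ncard {m : ℕ | (m : ℝ) ≤ x ∧ σ * (q * m + r) ∈ A ∧ 3 ^ a * (σ * (q * m + r)) + b ∉ A} : ℝ) ≤
      S (fun n => |indA A (3 ^ a * (σ * n) + b) - indA A (σ * n)|) (q * ⌊x⌋₊ + r + 1) := by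
  classical
  obtain ⟨B, hB⟩ : ∃ B : Finset ℕ, B = (Finset.range (q * ⌊x⌋₊ + r + 1)).filter fun n : ℕ =>
    σ * (n : ℤ) ∈ A ∧ 3 ^ a * (σ * (n : ℤ)) + b ∉ A := ⟨_, rfl⟩
  have h1 : Set.ncard {m : ℕ | (m : ℝ) ≤ x ∧ σ * (q * m + r) ∈ A ∧
      3 ^ a * (σ * (q * m + r)) + b ∉ A} ≤ B.card := by
    rw [← Set.ncard_coe_finset]
    apply Set.ncard_le_ncard_of_injOn (fun m : ℕ => q * m + r)
    · rintro m ⟨h2, h3, h4⟩
      rw [Finset.mem_coe, hB, Finset.mem_filter, Finset.mem_range]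
      have h5 : m ≤ ⌊x⌋₊ := Nat.le_floor h2
      have h6 : q * m ≤ q * ⌊x⌋₊ := Nat.mul_le_mul_left _ h5
      refine ⟨by omega, ?_, ?_⟩
      · push_cast
        exact h3
      · push_cast
        exact h4
    · intro m _ m' _ hmm
      simp only at hmm
      have : q * m = q * m' := by omega
      exact Nat.eq_of_mul_eq_mul_left hq this
  have h2 : (B.card : ℝ) ≤
      S (fun n => |indA A (3 ^ a * (σ * n) + b) - indA A (σ * n)|) (q * ⌊x⌋₊ + r + 1) := by
    rw [hB, Finset.card_filter]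
    push_cast
    unfold S
    apply Finset.sum_le_sum
    intro n _
    split_ifs with h
    · have e1 : indA A (σ * n) = 1 := if_pos h.1
      have e2 : indA A (3 ^ a * (σ * n) + b) = 0 := if_neg h.2
      rw [e1, e2]
      norm_num
    · exact abs_nonneg _
  exact le_trans (by exact_mod_cast h1) h2

theorem bad_tendsto {C : ℕ} {A : Set ℤ} (hA : EvInv C A) {σ : ℤ} (hσ : |σ| = 1) {q : ℕ}
    (hq : 1 ≤ q) (r a : ℕ) (b : ℤ) : Tendsto (fun x : ℝ =>
      (Set.ncard {m : ℕ | (m : ℝ) ≤ x ∧ σ * (q * m + r) ∈ A ∧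
        3 ^ a * (σ * (q * m + r)) + b ∉ A} : ℝ) / x) atTop (𝓝 0) := by
  have h1 : Tendsto (fun x : ℝ => q * ⌊x⌋₊ + r + 1) atTop atTop := by
    apply tendsto_atTop_mono _ (tendsto_nat_floor_atTop (α := ℝ))
    intro x
    have : ⌊x⌋₊ ≤ q * ⌊x⌋₊ := Nat.le_mul_of_pos_left _ hq
    omega
  have h2 : (fun x : ℝ => S (fun n => |indA A (3 ^ a * (σ * n) + b) - indA A (σ * n)|)
      (q * ⌊x⌋₊ + r + 1)) =o[atTop] fun x : ℝ => x := by
    have h3 := (small_ev hA hσ a b).comp_tendsto h1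
    refine h3.trans_isBigO ?_
    apply IsBigO.of_bound (q + r + 1)
    filter_upwards [eventually_ge_atTop (1 : ℝ)] with x hx
    simp only [Function.comp_apply]
    rw [Real.norm_natCast, Real.norm_of_nonneg (by linarith)]
    push_cast
    have e1 := Nat.floor_le (by linarith : 0 ≤ x)
    have e2 : (q : ℝ) * ⌊x⌋₊ ≤ q * x := mul_le_mul_of_nonneg_left e1 (Nat.cast_nonneg _)
    have e3 : (r : ℝ) ≤ r * x := by
      have : (0 : ℝ) ≤ r := Nat.cast_nonneg _
      nlinarith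
    linarith
  refine squeeze_zero' ?_ ?_ h2.tendsto_div_nhds_zero
  · filter_upwards [eventually_gt_atTop 0] with x hx
    positivity
  · filter_upwards [eventually_gt_atTop 0] with x hx
    exact div_le_div_of_nonneg_right (bad_le hq) hx.le

/-- Adding one map. -/
theorem blk_step {C : ℕ} {A : Set ℤ} (hA : EvInv C A) {σ : ℤ} (hσ : |σ| = 1) {q : ℕ}
    (hq : 1 ≤ q) (r : ℕ) {d : ℝ} (hd : Tendsto (fun x : ℝ =>
      (Set.ncard {m : ℕ | (m : ℝ) ≤ x ∧ σ * (q * m + r) ∈ A} : ℝ) / x) atTop (𝓝 d))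
    (F : Finset (ℕ × ℤ)) : Tendsto (fun x : ℝ =>
      (Set.ncard {m : ℕ | (m : ℝ) ≤ x ∧ σ * (q * m + r) ∈ blk A F} : ℝ) / x) atTop (𝓝 d) := by
  classical
  induction F using Finset.induction_on with
  | empty =>
    refine hd.congr fun x => ?_
    congr 3
    ext m
    simp [blk]
  | insert s F hs ih =>
    have h1 := ih.sub (bad_tendsto hA hσ hq r s.1 s.2)
    rw [sub_zero] at h1
    refine tendsto_of_tendsto_of_tendsto_of_le_of_le' h1 ih ?_ ?_
    · filter_upwards [eventually_gt_atTop 0] with x hx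
      rw [← sub_div]
      apply div_le_div_of_nonneg_right _ hx.le
      rw [sub_le_iff_le_add]
      have h2 : {m : ℕ | (m : ℝ) ≤ x ∧ σ * (q * m + r) ∈ blk A F} ⊆
          {m : ℕ | (m : ℝ) ≤ x ∧ σ * (q * m + r) ∈ blk A (insert s F)} ∪
          {m : ℕ | (m : ℝ) ≤ x ∧ σ * (q * m + r) ∈ A ∧
            3 ^ s.1 * (σ * (q * m + r)) + s.2 ∉ A} := by
        rintro m ⟨h3, h4, h5⟩
        by_cases h6 : 3 ^ s.1 * (σ * (q * (m : ℤ) + r)) + s.2 ∈ A
        · left
          refine ⟨h3, h4, ?_⟩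
          intro t ht
          rcases Finset.mem_insert.1 ht with h7 | h7
          · rw [h7]
            exact h6
          · exact h5 t h7
        · right
          exact ⟨h3, h4, h6⟩
      have hfin1 := fin_prog σ (blk A (insert s F)) q r x
      have hfin2 : {m : ℕ | (m : ℝ) ≤ x ∧ σ * (q * m + r) ∈ A ∧
            3 ^ s.1 * (σ * (q * m + r)) + s.2 ∉ A}.Finite :=
        (fin_prog σ A q r x).subset fun m hm => ⟨hm.1, hm.2.1⟩
      have h3 := Set.ncard_le_ncard h2 (hfin1.union hfin2)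
      have h4 := Set.ncard_union_le
        {m : ℕ | (m : ℝ) ≤ x ∧ σ * (q * m + r) ∈ blk A (insert s F)}
        {m : ℕ | (m : ℝ) ≤ x ∧ σ * (q * m + r) ∈ A ∧
            3 ^ s.1 * (σ * (q * m + r)) + s.2 ∉ A}
      exact_mod_cast h3.trans h4
    · filter_upwards [eventually_gt_atTop 0] with x hx
      apply div_le_div_of_nonneg_right _ hx.le
      have h2 : {m : ℕ | (m : ℝ) ≤ x ∧ σ * (q * m + r) ∈ blk A (insert s F)} ⊆
          {m : ℕ | (m : ℝ) ≤ x ∧ σ * (q * m + r) ∈ blk A F} := by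
        rintro m ⟨h3, h4, h5⟩
        exact ⟨h3, h4, fun t ht => h5 t (Finset.mem_insert_of_mem ht)⟩
      exact_mod_cast Set.ncard_le_ncard h2 (fin_prog σ (blk A F) q r x)

end Pool.Agent.Collatz3.DN
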