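import Mathlib
import Pool.Agent.Collatz3.DNBack

set_option autoImplicit false

/-!
Natural density: the lower bound for windows.
-/

namespace Pool.Agent.Collatz3.DN

open Finset Filter
open Pool.Agent.Collatz3.PD
open Pool.Agent.Helper14 (T T_two_mul)

theorem sum_inv_le {a : ℕ} (ha : 1 ≤ a) {Kc : ℝ} (hKc : 0 ≤ Kc) (L : ℕ) :
    ∑ j ∈ Ico a (a * 2 ^ L), 1 / (((2 * j + 1 : ℕ) : ℝ) + Kc) ≤ L / 2 := by
  induction L with
  | zero => simp
  | succ L ih =>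
    have h1 : a * 2 ^ L ≤ a * 2 ^ (L + 1) :=
      Nat.mul_le_mul_left _ (Nat.pow_le_pow_right (by norm_num) (by omega))
    have h0 : a ≤ a * 2 ^ L := Nat.le_mul_of_pos_right _ (by positivity)
    rw [← sum_Ico_consecutive _ h0 h1]
    have har : (0 : ℝ) < a := by exact_mod_cast ha
    have h2 : ∑ j ∈ Ico (a * 2 ^ L) (a * 2 ^ (L + 1)), 1 / (((2 * j + 1 : ℕ) : ℝ) + Kc) ≤
        ((Ico (a * 2 ^ L) (a * 2 ^ (L + 1))).card : ℝ) * (1 / (2 * (a * 2 ^ L))) := by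
      rw [← nsmul_eq_mul]
      apply sum_le_card_nsmul
      intro j hj
      rw [mem_Ico] at hj
      apply one_div_le_one_div_of_le (by positivity)
      have h3 : ((a * 2 ^ L : ℕ) : ℝ) ≤ j := by exact_mod_cast hj.1
      push_cast at h3 ⊢
      linarith
    rw [Nat.card_Ico] at h2
    have h3 : a * 2 ^ (L + 1) - a * 2 ^ L = a * 2 ^ L := by
      rw [pow_succ, ← Nat.mul_assoc]
      omega
    rw [h3] at h2
    have h4 : ((a * 2 ^ L : ℕ) : ℝ) * (1 / (2 * (a * 2 ^ L))) = 1 / 2 := by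
      push_cast
      field_simp
    rw [h4] at h2
    have h5 : ((L + 1 : ℕ) : ℝ) / 2 = L / 2 + 1 / 2 := by
      push_cast
      ring
    rw [h5]
    linarith

/-- The choice of the constants: the total weight. -/
theorem weight_arith {e γ K L q₀ S₁ S₂ ℓ ε : ℝ} (he0 : 0 < e) (he1 : e ≤ 1 / 8) (hε : 8 * e ≤ ε)
    (hγ0 : 0 < γ) (hγ1 : γ < 1) (hK : 1 ≤ e * K) (hK2 : 2 ≤ K) (hL : 3 ≤ e * L) (hL2 : 2 ≤ L)
    (hℓ : 1 / 2 < ℓ) (hq : 0 < q₀) (hq₀ : q₀ * γ ≤ (1 + 3 * e) * L)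
    (hS₁ : (L * ℓ - e) / 2 * (1 - e) ≤ S₁) (hS₂ : S₂ ≤ L / 2) :
    (1 - ε) * ((K + 1) * ℓ / 2) ≤ ((1 - e) * (K / γ) * S₁ - e * S₂) / q₀ := by
  rw [le_div_iff₀ hq]
  have h1 : (1 - e) * (K / γ) * ((L * ℓ - e) / 2 * (1 - e)) ≤ (1 - e) * (K / γ) * S₁ := by
    apply mul_le_mul_of_nonneg_left hS₁
    have : 0 ≤ 1 - e := by linarith
    have : 0 < K := by linarith
    positivity
  have h2 : e * S₂ ≤ e * (L / 2) := mul_le_mul_of_nonneg_left hS₂ he0.le
  refine le_trans ?_ (sub_le_sub h1 h2)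
  -- multiply by `γ`
  have hK0 : 0 < K := by linarith
  have h3 : (1 - e) * (K / γ) * ((L * ℓ - e) / 2 * (1 - e)) - e * (L / 2) =
      ((1 - e) * K * ((L * ℓ - e) / 2 * (1 - e)) - γ * (e * (L / 2))) / γ := by
    field_simp
  rw [h3, le_div_iff₀ hγ0]
  -- `L ℓ - e ≥ (1 - e) L ℓ`
  have h4 : (1 - e) * (L * ℓ) ≤ L * ℓ - e := by nlinarith
  have h5 : (1 - e) * K * ((1 - e) * (L * ℓ) / 2 * (1 - e)) ≤
      (1 - e) * K * ((L * ℓ - e) / 2 * (1 - e)) := by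
    apply mul_le_mul_of_nonneg_left _ (mul_nonneg (by linarith) hK0.le)
    apply mul_le_mul_of_nonneg_right _ (by linarith)
    linarith
  have h6 : γ * (e * (L / 2)) ≤ e * (L / 2) := by
    have : 0 ≤ e * (L / 2) := by positivity
    nlinarith
  have h7 : e * (L / 2) ≤ e * (K * L * ℓ / 2) := by
    apply mul_le_mul_of_nonneg_left _ he0.le
    have : 1 ≤ K * ℓ := by nlinarith
    have : 0 < L := by linarith
    nlinarith
  -- the left side
  by_cases hneg : 1 - ε ≤ 0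
  · have h8 : (1 - ε) * ((K + 1) * ℓ / 2) * q₀ * γ ≤ 0 := by
      have : 0 ≤ ((K + 1) * ℓ / 2) * q₀ * γ := by positivity
      nlinarith
    have h9 : 0 ≤ (1 - e) * K * ((1 - e) * (L * ℓ) / 2 * (1 - e)) - e * (K * L * ℓ / 2) := by
      have e1 : (1 - e) * K * ((1 - e) * (L * ℓ) / 2 * (1 - e)) - e * (K * L * ℓ / 2) =
          (K * L * ℓ / 2) * ((1 - e) ^ 3 - e) := by ring
      rw [e1]
      apply mul_nonneg (by positivity)
      nlinarith [sq_nonneg e]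
    linarith
  · push Not at hneg
    have h8 : (1 - ε) * ((K + 1) * ℓ / 2) * q₀ * γ ≤
        (1 - 8 * e) * ((K + 1) * ℓ / 2) * ((1 + 3 * e) * L) := by
      calc (1 - ε) * ((K + 1) * ℓ / 2) * q₀ * γ = (1 - ε) * (((K + 1) * ℓ / 2) * (q₀ * γ)) := by ring
        _ ≤ (1 - 8 * e) * (((K + 1) * ℓ / 2) * (q₀ * γ)) := by
            apply mul_le_mul_of_nonneg_right (by linarith)
            positivity
        _ ≤ (1 - 8 * e) * (((K + 1) * ℓ / 2) * ((1 + 3 * e) * L)) := by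
            apply mul_le_mul_of_nonneg_left _ (by linarith)
            apply mul_le_mul_of_nonneg_left hq₀ (by positivity)
        _ = _ := by ring
    have h9 : K + 1 ≤ (1 + e) * K := by linarith
    have h10 : (1 - 8 * e) * ((K + 1) * ℓ / 2) * ((1 + 3 * e) * L) ≤
        (1 - 8 * e) * (((1 + e) * K) * ℓ / 2) * ((1 + 3 * e) * L) := by
      apply mul_le_mul_of_nonneg_right _ (by positivity)
      apply mul_le_mul_of_nonneg_left _ (by linarith)
      have : 0 < ℓ := by linarith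
      nlinarith
    have h11 : (1 - 8 * e) * (((1 + e) * K) * ℓ / 2) * ((1 + 3 * e) * L) ≤
        (1 - e) * K * ((1 - e) * (L * ℓ) / 2 * (1 - e)) - e * (K * L * ℓ / 2) := by
      have e1 : (1 - e) * K * ((1 - e) * (L * ℓ) / 2 * (1 - e)) - e * (K * L * ℓ / 2) -
          (1 - 8 * e) * (((1 + e) * K) * ℓ / 2) * ((1 + 3 * e) * L) =
          (K * L * ℓ / 2) * ((1 - e) ^ 3 - e - (1 - 8 * e) * (1 + e) * (1 + 3 * e)) := by ring
      have e2 : 0 ≤ (K * L * ℓ / 2) * ((1 - e) ^ 3 - e - (1 - 8 * e) * (1 + e) * (1 + 3 * e)) := by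
        apply mul_nonneg (by positivity)
        have e3 : (1 - e) ^ 3 - e - (1 - 8 * e) * (1 + e) * (1 + 3 * e) =
          32 * e ^ 2 + 23 * e ^ 3 := by ring
        rw [e3]
        positivity
      linarith
    linarith

/-- **The lower bound for windows.** -/
theorem windowLowerB : WindowLowerB := by
  classical
  intro σ hσ C ε hε
  obtain ⟨e, he⟩ : ∃ e, e = min ε 1 / 8 := ⟨_, rfl⟩
  have he0 : 0 < e := by
    rw [he]
    have : 0 < min ε 1 := lt_min hε one_pos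
    positivity
  have he1 : e ≤ 1 / 8 := by
    rw [he]
    have := min_le_right ε 1
    linarith
  have he2 : 8 * e ≤ ε := by
    rw [he]
    have := min_le_left ε 1
    linarith
  obtain ⟨γ, hγ⟩ : ∃ γ : ℝ, γ = 2 - al := ⟨_, rfl⟩
  have hγ0 : 0 < γ := by rw [hγ]; linarith [al_lt]
  have hγ1 : γ < 1 := by rw [hγ]; linarith [one_lt_al]
  obtain ⟨K₀, hK₀⟩ := main_count he0 (by linarith)
  obtain ⟨K, hK⟩ : ∃ K : ℕ, K = K₀ + ⌈1 / e⌉₊ + 2 := ⟨_, rfl⟩
  have hKe : 1 ≤ e * (K : ℝ) := by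
    have h1 : 1 / e ≤ (⌈1 / e⌉₊ : ℝ) := Nat.le_ceil _
    have h2 : 1 / e ≤ (K : ℝ) := by
      rw [hK]
      push_cast
      have : (0 : ℝ) ≤ K₀ := Nat.cast_nonneg _
      linarith
    rw [div_le_iff₀ he0] at h2
    linarith
  have hK2 : (2 : ℝ) ≤ K := by
    have : 2 ≤ K := by omega
    exact_mod_cast this
  obtain ⟨N₁, hN₁⟩ := hK₀ K (by omega)
  obtain ⟨δ, hδ⟩ : ∃ δ : ℝ, δ = γ * e := ⟨_, rfl⟩
  have hδ0 : 0 < δ := by rw [hδ]; positivity
  obtain ⟨N₂, q₁, hbase⟩ := base1 (ε := e) (δ := δ) he0 hδ0 (by rw [hδ, ← hγ]; nlinarith)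
  obtain ⟨L, hL⟩ : ∃ L : ℕ, L = ⌈3 / e⌉₊ + q₁ + 2 := ⟨_, rfl⟩
  have hLe : 3 ≤ e * (L : ℝ) := by
    have h1 : 3 / e ≤ (⌈3 / e⌉₊ : ℝ) := Nat.le_ceil _
    have h2 : 3 / e ≤ (L : ℝ) := by
      rw [hL]
      push_cast
      have : (0 : ℝ) ≤ q₁ := Nat.cast_nonneg _
      linarith
    rw [div_le_iff₀ he0] at h2
    linarith
  have hL2 : (2 : ℝ) ≤ L := by
    have : 2 ≤ L := by omega
    exact_mod_cast this
  obtain ⟨N₀, hN₀⟩ : ∃ N₀ : ℕ, N₀ = 200 * (L + 2) + N₁ + N₂ := ⟨_, rfl⟩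
  have hδγ : 2 - δ - al = γ * (1 - e) := by
    rw [hδ, hγ]
    ring
  have hδγ0 : 0 < γ * (1 - e) := mul_pos hγ0 (by linarith)
  obtain ⟨q₀, hq₀⟩ : ∃ q₀ : ℕ, q₀ = ⌈((L : ℝ) + 2) / (γ * (1 - e))⌉₊ := ⟨_, rfl⟩
  have hq1 : (L : ℝ) + 2 ≤ (2 - δ - al) * q₀ := by
    have h1 : ((L : ℝ) + 2) / (γ * (1 - e)) ≤ q₀ := by
      rw [hq₀]
      exact Nat.le_ceil _
    rw [div_le_iff₀ hδγ0] at h1
    rw [hδγ]
    linarith
  have hq2 : (q₀ : ℝ) < ((L : ℝ) + 2) / (γ * (1 - e)) + 1 := by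
    rw [hq₀]
    exact Nat.ceil_lt_add_one (by positivity)
  have hq3 : (q₀ : ℝ) * γ ≤ (1 + 3 * e) * L := by
    have h1 : (q₀ - 1 : ℝ) < ((L : ℝ) + 2) / (γ * (1 - e)) := by linarith
    rw [lt_div_iff₀ hδγ0] at h1
    have h2 : (q₀ : ℝ) * γ * (1 - e) ≤ L + 3 := by nlinarith
    have h3 : (L : ℝ) + 3 ≤ ((1 + 3 * e) * L) * (1 - e) := by nlinarith
    exact le_of_mul_le_mul_right (h2.trans h3) (by linarith)
  have hγe1 : γ * (1 - e) ≤ 1 := by nlinarith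
  have hq4 : q₁ ≤ q₀ := by
    have h1 : (q₁ : ℝ) ≤ q₀ := by
      have h2 : (q₁ : ℝ) ≤ L := by exact_mod_cast (by omega : q₁ ≤ L)
      have h3 : (0 : ℝ) ≤ q₀ := Nat.cast_nonneg _
      rw [hδγ] at hq1
      nlinarith
    exact_mod_cast h1
  have hq5 : (0 : ℝ) < q₀ := by
    rw [hδγ] at hq1
    by_contra hcon
    have h1 : (q₀ : ℝ) ≤ 0 := not_lt.1 hcon
    nlinarith
  obtain ⟨G₀, hG₀⟩ : ∃ G₀, G₀ = G1 N₀ q₀ L := ⟨_, rfl⟩
  have hgood : Good N₀ ((N₀ : ℝ) ^ 4 + 1 - 1 / N₀) G₀ := by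
    rw [hG₀]
    exact good_G1 (by omega) q₀ L
  have hPq : Pq q₀ L N₀ G₀ := by
    rw [hG₀]
    exact Pq_G1 N₀ q₀ L
  obtain ⟨Y₀, hcount⟩ := hN₁ N₀ (by omega) q₀ L G₀ (by omega) hgood hPq
  obtain ⟨Kc, hKc⟩ : ∃ Kc : ℝ, Kc = (N₀ : ℝ) ^ 4 + 2 := ⟨_, rfl⟩
  have hKc1 : 1 ≤ Kc := by
    rw [hKc]
    have : (0 : ℝ) ≤ (N₀ : ℝ) ^ 4 := by positivity
    linarith
  rw [← hKc] at hcount
  obtain ⟨M, hM⟩ : ∃ M, M = N₀ + N₀ / 20 := ⟨_, rfl⟩
  obtain ⟨H0, hH0⟩ : ∃ H0 : ℤ → ℝ, H0 = fun c => E G₀ (U (II N₀) (N₀ / 20)) c := ⟨_, rfl⟩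
  have hH0n : ∀ x, 0 ≤ H0 x := by
    intro x
    rw [hH0]
    exact E_nonneg _ (U_nonneg _ _) x
  have hH0p : Per M H0 := by
    rw [hH0, hM]
    exact per_E hgood.len (per_U _ _)
  have hH0m : 1 - e ≤ PD.A M H0 := by
    have := hbase N₀ q₀ L (by omega) hq4 hq1
    rw [hM, hH0, hG₀]
    exact this
  obtain ⟨i₁, hi₁⟩ := avgLower M H0 hH0p hH0n Kc (by linarith) e he0
  obtain ⟨i₀, hi₀⟩ : ∃ i₀ : ℕ, i₀ = i₁ + ⌈5 * Kc + 3 * Kc * (C + 1)⌉₊ + 1 := ⟨_, rfl⟩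
  have hi₀r : 5 * Kc + 3 * Kc * (C + 1) ≤ i₀ := by
    have h1 := Nat.le_ceil (5 * Kc + 3 * Kc * ((C : ℝ) + 1))
    rw [hi₀]
    push_cast
    have : (0 : ℝ) ≤ i₁ := Nat.cast_nonneg _
    linarith
  obtain ⟨a, ha⟩ : ∃ a : ℕ, a = i₀ * 3 ^ M := ⟨_, rfl⟩
  have hai : i₀ ≤ a := by
    rw [ha]
    exact Nat.le_mul_of_pos_right _ (by positivity)
  have ha1 : 1 ≤ a := by omega
  have har : 5 * Kc + 3 * Kc * (C + 1) ≤ (a : ℝ) := hi₀r.trans (by exact_mod_cast hai)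
  have hσ0 : σ ≠ 0 := by
    rintro rfl
    simp at hσ
  have hσr : |(σ : ℝ)| = 1 := by exact_mod_cast hσ
  have habs : ∀ j : ℕ, |((σ * (2 * (j : ℤ) + 1) : ℤ) : ℝ)| = ((2 * j + 1 : ℕ) : ℝ) := by
    intro j
    push_cast
    rw [abs_mul, hσr, one_mul, abs_of_pos (by positivity)]
  obtain ⟨F, hF⟩ : ∃ F : Finset ℤ, F = (Ico a (a * 2 ^ L)).image fun j : ℕ => σ * (2 * (j : ℤ) + 1) :=
    ⟨_, rfl⟩
  have hinj : Set.InjOn (fun j : ℕ => σ * (2 * (j : ℤ) + 1)) (Ico a (a * 2 ^ L) : Finset ℕ) := by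
    intro x _ y _ hxy
    have := mul_left_cancel₀ hσ0 hxy
    omega
  obtain ⟨κ, hκ⟩ : ∃ κ : ℤ → ℝ, κ = fun c =>
    max 0 ((1 - e) * (K / γ) * H0 c - e) / (q₀ * (|(c : ℝ)| + Kc)) := ⟨_, rfl⟩
  obtain ⟨B, hB⟩ : ∃ B : ℝ, B = 2 ^ L * (2 * a) := ⟨_, rfl⟩
  have hFc : ∀ c ∈ F, Odd c ∧ 2 * (a : ℝ) ≤ |(c : ℝ)| ∧ |(c : ℝ)| < B ∧ 0 < σ * c := by
    intro c hc
    rw [hF, mem_image] at hc
    obtain ⟨j, hj, rfl⟩ := hc
    rw [mem_Ico] at hj
    refine ⟨?_, ?_, ?_, ?_⟩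
    · have h1 : Odd σ := by
        rcases (abs_eq (by norm_num : (0 : ℤ) ≤ 1)).1 hσ with h | h <;> rw [h] <;> decide
      exact h1.mul ⟨(j : ℤ), rfl⟩
    · rw [habs]
      have : (a : ℝ) ≤ j := by exact_mod_cast hj.1
      push_cast
      linarith
    · rw [habs, hB]
      have : 2 * j + 1 < 2 ^ L * (2 * a) := by
        have e1 : 2 ^ L * (2 * a) = 2 * (a * 2 ^ L) := by ring
        rw [e1]
        omega
      exact_mod_cast this
    · have h1 : σ * σ = 1 := by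
        have := abs_mul_abs_self σ
        rw [hσ] at this
        linarith
      have h2 : σ * (σ * (2 * (j : ℤ) + 1)) = 2 * j + 1 := by
        rw [← mul_assoc, h1, one_mul]
      rw [h2]
      positivity
  have hB0 : 0 < B := by
    rw [hB]
    have : (0 : ℝ) < a := by exact_mod_cast ha1
    positivity
  refine ⟨K + 1, F, κ, 2 * (B + Kc) + Y₀ * B + 1, by omega, ?_, ?_, ?_⟩
  · -- total weight
    have h1 : ∑ c ∈ F, κ c = ∑ j ∈ Ico a (a * 2 ^ L), κ (σ * (2 * (j : ℤ) + 1)) := by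
      rw [hF, sum_image hinj]
    have h2 : ∀ j ∈ Ico a (a * 2 ^ L),
        ((1 - e) * (K / γ) * (H0 (σ * (2 * (j : ℤ) + 1)) / (((2 * j + 1 : ℕ) : ℝ) + Kc)) -
          e * (1 / (((2 * j + 1 : ℕ) : ℝ) + Kc))) / q₀ ≤ κ (σ * (2 * (j : ℤ) + 1)) := by
      intro j _
      rw [hκ]
      simp only
      rw [habs]
      have h3 : 0 < ((2 * j + 1 : ℕ) : ℝ) + Kc := by positivity
      have h4 := le_max_right 0 ((1 - e) * (K / γ) * H0 (σ * (2 * (j : ℤ) + 1)) - e)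
      have h5 := div_le_div_of_nonneg_right h4 (mul_pos hq5 h3).le
      refine le_trans (le_of_eq ?_) h5
      field_simp
    rw [h1]
    refine le_trans ?_ (sum_le_sum h2)
    rw [← sum_div, sum_sub_distrib, ← mul_sum, ← mul_sum]
    have h3 := hi₁ i₀ (by omega) L σ hσ
    rw [← ha] at h3
    have h4 := sum_inv_le ha1 (show 0 ≤ Kc by linarith) L
    have hlog1 : 1 / 2 < Real.log 2 := by
      have := Real.log_two_gt_d9
      linarith
    have h6 : ((L : ℝ) * Real.log 2 - e) / 2 * (1 - e) ≤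
        ∑ j ∈ Ico a (a * 2 ^ L), H0 (σ * (2 * (j : ℤ) + 1)) / (((2 * j + 1 : ℕ) : ℝ) + Kc) := by
      refine le_trans ?_ h3
      apply mul_le_mul_of_nonneg_left hH0m
      nlinarith
    have h7 := weight_arith he0 he1 he2 hγ0 hγ1 hKe hK2 hLe hL2 hlog1 hq5 hq3 h6 h4
    have h8 : ((K + 1 : ℕ) : ℝ) = (K : ℝ) + 1 := by
      push_cast
      rfl
    rw [h8]
    exact h7
  · intro c _
    rw [hκ]
    simp only
    have := abs_nonneg (c : ℝ)
    apply div_nonneg (le_max_left _ _)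
    exact mul_nonneg hq5.le (by linarith)
  · intro A hA X hX
    have hX1 : 2 * (B + Kc) ≤ X := by
      have : 0 ≤ (Y₀ : ℝ) * B := by positivity
      linarith
    have hX2 : (Y₀ : ℝ) * B ≤ X := by
      have : 0 ≤ 2 * (B + Kc) := by positivity
      linarith
    have hX0 : 0 < X := by linarith
    -- the words above the roots
    obtain ⟨Yc, hYc⟩ : ∃ Yc : ℤ → ℕ, Yc = fun c : ℤ => ⌈X / (|(c : ℝ)| - Kc)⌉₊ := ⟨_, rfl⟩
    have hYc1 : ∀ c ∈ F, 1 ≤ Yc c ∧ Y₀ ≤ Yc c ∧ X ≤ Yc c * (|(c : ℝ)| - Kc) ∧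
        Yc c * (|(c : ℝ)| - Kc) ≤ X + (|(c : ℝ)| - Kc) := by
      intro c hc
      obtain ⟨-, h1, h2, -⟩ := hFc c hc
      have hC0 : (0 : ℝ) ≤ C := Nat.cast_nonneg _
      have h3 : 0 < |(c : ℝ)| - Kc := by nlinarith
      have h4 : X / (|(c : ℝ)| - Kc) ≤ Yc c := by
        rw [hYc]
        exact Nat.le_ceil _
      have h5 : (Yc c : ℝ) < X / (|(c : ℝ)| - Kc) + 1 := by
        rw [hYc]
        exact Nat.ceil_lt_add_one (by positivity)
      have h6 : 0 < X / (|(c : ℝ)| - Kc) := by positivity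
      refine ⟨?_, ?_, ?_, ?_⟩
      · have : (0 : ℝ) < Yc c := by linarith
        exact_mod_cast this
      · have h7 : (Y₀ : ℝ) ≤ X / (|(c : ℝ)| - Kc) := by
          rw [le_div_iff₀ h3]
          refine le_trans ?_ hX2
          apply mul_le_mul_of_nonneg_left _ (Nat.cast_nonneg _)
          linarith
        exact_mod_cast h7.trans h4
      · rw [div_le_iff₀ h3] at h4
        exact h4
      · have h7 : (Yc c : ℝ) - 1 ≤ X / (|(c : ℝ)| - Kc) := by linarith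
        rw [le_div_iff₀ h3] at h7
        linarith
    have hex : ∀ c : ℤ, ∃ H : Finset (List ℕ), c ∈ F →
        (∀ u ∈ H, Wprop q₀ L K (Yc c) Kc u) ∧
        (1 - e) * (K / γ) * H0 c - e ≤ E H (fun _ => 1) c := by
      intro c
      by_cases hc : c ∈ F
      · obtain ⟨H, h1, h2⟩ := hcount (Yc c) (hYc1 c hc).2.1
        refine ⟨H, fun _ => ⟨h1, ?_⟩⟩
        rw [hγ, hH0]
        exact h2 c
      · exact ⟨∅, fun h => absurd h hc⟩
    choose Hc hHc using hex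
    -- elementary facts
    have hroot : ∀ c ∈ F, 5 * Kc ≤ |(c : ℝ)| ∧ Kc + 3 * Kc * (C + 1) ≤ |(c : ℝ)| ∧ c ≠ 0 := by
      intro c hc
      obtain ⟨-, h1, -, h4⟩ := hFc c hc
      have hC0 : (0 : ℝ) ≤ C := Nat.cast_nonneg _
      have h2 : 0 ≤ 3 * Kc * ((C : ℝ) + 1) := by positivity
      have h3 : (0 : ℝ) ≤ a := Nat.cast_nonneg _
      refine ⟨by linarith, by linarith, ?_⟩
      rintro rfl
      simp at h4
    have hwin : ∀ c ∈ F, ∀ u ∈ Hc c, rd u c →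
        X < |(en u c : ℝ)| ∧ |(en u c : ℝ)| ≤ 2 ^ (K + 1) * X := by
      intro c hc u hu hr
      obtain ⟨y1, y2, y3, y4⟩ := hYc1 c hc
      obtain ⟨-, h1, h2, -⟩ := hFc c hc
      exact en_window y1 hKc1 ((hHc c hc).1 u hu) hr (hroot c hc).1 (by linarith) y3 y4
    have hen0 : ∀ c ∈ F, ∀ u ∈ Hc c, rd u c → en u c ≠ 0 := by
      intro c hc u hu hr h0
      have h1 := (hwin c hc u hu hr).1
      rw [h0] at h1
      simp at h1
      linarith
    -- the pairs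
    obtain ⟨Q, hQ⟩ : ∃ Q : Finset (ℤ × List ℕ), Q = ((F.filter fun c => c ∈ A).sigma fun c =>
      (Hc c).filter fun u => rd u c).image fun p => (p.1, p.2) := ⟨_, rfl⟩
    have hQm : ∀ p ∈ Q, p.1 ∈ F ∧ p.1 ∈ A ∧ p.2 ∈ Hc p.1 ∧ rd p.2 p.1 := by
      intro p hp
      rw [hQ, mem_image] at hp
      obtain ⟨p', hp', rfl⟩ := hp
      rw [mem_sigma, mem_filter, mem_filter] at hp'
      exact ⟨hp'.1.1, hp'.1.2, hp'.2.1, hp'.2.2⟩
    obtain ⟨S, hS⟩ : ∃ S : Finset ℤ, S = ((range (⌊2 ^ (K + 1) * X⌋₊ + 1)).filter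
      (fun n : ℕ => X < n ∧ Odd n ∧ σ * (n : ℤ) ∈ A)).image fun n : ℕ => σ * (n : ℤ) := ⟨_, rfl⟩
    have hsum := sum_visits (q₀ := q₀) (B := B) Q S (fun m => 1 / |(m : ℝ)|)
      (fun _ _ => by positivity)
      (fun p hp => (hFc _ (hQm p hp).1).1)
      (fun p hp => ((hHc _ (hQm p hp).1).1 _ (hQm p hp).2.2.1).pos)
      (fun p hp => (hQm p hp).2.2.2)
      (by
        intro p hp
        obtain ⟨h1, h2, h3, h4⟩ := hQm p hp
        have hw := (hHc _ h1).1 _ h3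
        obtain ⟨w1, w2⟩ := hwin _ h1 _ h3 h4
        obtain ⟨-, -, -, hsg⟩ := hFc _ h1
        -- the sign
        have s1 := en_sign h4 (hroot _ h1).2.2 hw.pos
        have s2 : 0 < σ * en p.2 p.1 := by
          have h5 : 0 < (en p.2 p.1 * p.1) * (σ * p.1) := mul_pos s1 hsg
          have h6 : (en p.2 p.1 * p.1) * (σ * p.1) = (σ * en p.2 p.1) * (p.1 * p.1) := by ring
          rw [h6] at h5
          by_contra hcon
          have := mul_nonpos_of_nonpos_of_nonneg (not_lt.1 hcon) (mul_self_nonneg p.1)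
          linarith
        have hσσ : σ * σ = 1 := by
          have := abs_mul_abs_self σ
          rw [hσ] at this
          linarith
        obtain ⟨n, hn⟩ := Int.eq_ofNat_of_zero_le s2.le
        have s3 : σ * (n : ℤ) = en p.2 p.1 := by
          rw [← hn, ← mul_assoc, hσσ, one_mul]
        have s4 : |(en p.2 p.1 : ℝ)| = n := by
          rw [← s3]
          push_cast
          rw [abs_mul, hσr, one_mul, Nat.abs_cast]
        rw [s4] at w1 w2
        have hne : p.2 ≠ [] := by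
          intro h0
          have := hw.win.1
          rw [h0] at this
          simp at this
        rw [hS, mem_image]
        refine ⟨n, ?_, s3⟩
        rw [mem_filter, mem_range, Nat.lt_succ_iff]
        refine ⟨Nat.le_floor w2, w1, ?_, ?_⟩
        · have h5 := en_odd h4 hne hw.pos
          rw [← s3] at h5
          have h6 : Odd (n : ℤ) := (Int.odd_mul.1 h5).2
          exact_mod_cast h6
        · rw [s3]
          exact back_path hA hw.pos h4 (path_large hKc1 hw.cw h4 (hroot _ h1).2.1) h2)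
      (fun p hp => (hFc _ (hQm p hp).1).2.2.1)
      (by
        intro p hp q hq1 hq2
        obtain ⟨h1, h2, h3, h4⟩ := hQm p hp
        have hw := (hHc _ h1).1 _ h3
        rw [hB]
        exact en_above hKc1 hw h4 (hroot _ h1).1 (hFc _ h1).2.1 hq1 hq2)
    -- the right side
    have hSLS : ∑ m ∈ S, 1 / |(m : ℝ)| = LS σ A X (2 ^ (K + 1) * X) := by
      rw [hS, sum_image]
      · unfold LS
        apply sum_congr (by congr)
        intro n _
        push_cast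
        rw [abs_mul, hσr, one_mul, Nat.abs_cast]
      · intro x _ y _ hxy
        have := mul_left_cancel₀ hσ0 hxy
        exact_mod_cast this
    -- the left side
    have hleft : ∑ p ∈ Q, 1 / |((en p.2 p.1 : ℤ) : ℝ)| =
        ∑ c ∈ F.filter (fun c => c ∈ A), ∑ u ∈ (Hc c).filter (fun u => rd u c),
          1 / |(en u c : ℝ)| := by
      rw [hQ, sum_image, sum_sigma]
      rintro ⟨c, u⟩ _ ⟨c', u'⟩ _ h
      simp only [Prod.mk.injEq] at h
      obtain ⟨h1, h2⟩ := h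
      subst h1 h2
      rfl
    rw [hleft, hSLS] at hsum
    have hkS : (q₀ : ℝ) * kS F κ A ≤
        ∑ c ∈ F.filter (fun c => c ∈ A), ∑ u ∈ (Hc c).filter (fun u => rd u c),
          1 / |(en u c : ℝ)| := by
      have e0 : kS F κ A = ∑ c ∈ F.filter (fun c => c ∈ A), κ c := by
        unfold kS
        apply sum_congr (by congr)
        intro _ _
        rfl
      rw [e0, mul_sum]
      apply sum_le_sum
      intro c hc
      rw [mem_filter] at hc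
      obtain ⟨h1, h2⟩ := hHc c hc.1
      have h3 := weight_sum hKc1 (fun u hu => (h1 u hu).cw) (c := c)
        (fun u hu hr => hen0 c hc.1 u hu hr)
      refine le_trans ?_ h3
      have h4 : max 0 ((1 - e) * (K / γ) * H0 c - e) ≤ E (Hc c) (fun _ => 1) c :=
        max_le (E_nonneg _ (fun _ => zero_le_one) c) h2
      have h5 : 0 < |(c : ℝ)| + Kc := by
        have := abs_nonneg (c : ℝ)
        linarith
      rw [hκ]
      simp only
      have h6 : (q₀ : ℝ) * (max 0 ((1 - e) * (K / γ) * H0 c - e) / (q₀ * (|(c : ℝ)| + Kc))) =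
          max 0 ((1 - e) * (K / γ) * H0 c - e) / (|(c : ℝ)| + Kc) := by
        field_simp
      rw [h6]
      exact div_le_div_of_nonneg_right h4 h5.le
    exact le_of_mul_le_mul_left (hkS.trans hsum) hq5

end Pool.Agent.Collatz3.DN
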