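import Mathlib
import Pool.Agent.Collatz3.DNFinal

set_option autoImplicit false

/-!
Natural density: from slow variation of the density function to windows.
-/

namespace Pool.Agent.Collatz3.DN

open Finset Filter Topology

open Classical in
/-- The number of odd `n ≤ y` with `σ * n ∈ A`. -/
noncomputable def O (σ : ℤ) (A : Set ℤ) (y : ℝ) : ℕ :=
  ((range (⌊y⌋₊ + 1)).filter (fun n : ℕ => Odd n ∧ σ * (n : ℤ) ∈ A)).card

theorem mem_floor {y : ℝ} (hy : 0 ≤ y) {n : ℕ} : n < ⌊y⌋₊ + 1 ↔ (n : ℝ) ≤ y := by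
  rw [Nat.lt_succ_iff, Nat.le_floor_iff hy]

theorem LS_add {σ : ℤ} {A : Set ℤ} {x y z : ℝ} (hx : 0 ≤ x) (hxy : x ≤ y) (hyz : y ≤ z) :
    LS σ A x y + LS σ A y z = LS σ A x z := by
  classical
  unfold LS
  have hy : 0 ≤ y := hx.trans hxy
  have hz : 0 ≤ z := hy.trans hyz
  rw [← sum_union]
  · apply sum_congr _ fun _ _ => rfl
    ext n
    simp only [mem_union, mem_filter, mem_range, mem_floor hy, mem_floor hz]
    constructor
    · rintro (⟨h1, h2, h3⟩ | ⟨h1, h2, h3⟩)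
      · exact ⟨h1.trans hyz, h2, h3⟩
      · exact ⟨h1, lt_of_le_of_lt hxy h2, h3⟩
    · rintro ⟨h1, h2, h3⟩
      by_cases h : (n : ℝ) ≤ y
      · exact Or.inl ⟨h, h2, h3⟩
      · exact Or.inr ⟨h1, not_le.1 h, h3⟩
  · rw [disjoint_left]
    intro n h1 h2
    simp only [mem_filter, mem_range, mem_floor hy] at h1 h2
    exact absurd h1.1 (not_le.2 h2.2.1)

open Classical in
theorem O_sub {σ : ℤ} {A : Set ℤ} {x y : ℝ} (hx : 0 ≤ x) (hxy : x ≤ y) :
    (((range (⌊y⌋₊ + 1)).filter (fun n : ℕ => x < n ∧ Odd n ∧ σ * (n : ℤ) ∈ A)).card : ℝ) =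
      O σ A y - O σ A x := by
  have hy : 0 ≤ y := hx.trans hxy
  have h : O σ A y = O σ A x +
      ((range (⌊y⌋₊ + 1)).filter (fun n : ℕ => x < n ∧ Odd n ∧ σ * (n : ℤ) ∈ A)).card := by
    unfold O
    rw [← card_union_of_disjoint]
    · congr 1
      ext n
      simp only [mem_union, mem_filter, mem_range, mem_floor hy, mem_floor hx]
      constructor
      · rintro ⟨h1, h2⟩
        by_cases h : (n : ℝ) ≤ x
        · exact Or.inl ⟨h, h2⟩
        · exact Or.inr ⟨h1, not_le.1 h, h2⟩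
      · rintro (⟨h1, h2⟩ | ⟨h1, h2, h3⟩)
        · exact ⟨h1.trans hxy, h2⟩
        · exact ⟨h1, h3⟩
    · rw [disjoint_left]
      intro n h1 h2
      simp only [mem_filter, mem_range, mem_floor hx] at h1 h2
      exact absurd h1.1 (not_le.2 h2.2.1)
  rw [h]
  push_cast
  ring

theorem LS_le {σ : ℤ} {A : Set ℤ} {x y : ℝ} (hx : 0 < x) (hxy : x ≤ y) :
    LS σ A x y ≤ (O σ A y - O σ A x) / x := by
  classical
  rw [← O_sub hx.le hxy]
  unfold LS
  rw [div_eq_mul_one_div, ← nsmul_eq_mul]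
  apply sum_le_card_nsmul
  intro n hn
  rw [mem_filter] at hn
  exact one_div_le_one_div_of_le hx hn.2.1.le

theorem LS_ge {σ : ℤ} {A : Set ℤ} {x y : ℝ} (hx : 0 < x) (hxy : x ≤ y) :
    (O σ A y - O σ A x) / y ≤ LS σ A x y := by
  classical
  rw [← O_sub hx.le hxy]
  unfold LS
  rw [div_eq_mul_one_div, ← nsmul_eq_mul]
  apply card_nsmul_le_sum
  intro n hn
  rw [mem_filter, mem_range, mem_floor (hx.le.trans hxy)] at hn
  exact one_div_le_one_div_of_le (lt_trans hx hn.2.1) hn.1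

/-- `O` against the counting function of `SlowEv`. -/
theorem O_close (σ : ℤ) (A : Set ℤ) {y : ℝ} (hy : 0 ≤ y) :
    |(O σ A y : ℝ) - (Set.ncard {m : ℕ | (m : ℝ) ≤ y / 2 ∧ σ * ((2 : ℕ) * m + (1 : ℕ)) ∈ A} : ℝ)| ≤
      1 := by
  classical
  obtain ⟨P, hP⟩ : ∃ P : Finset ℕ, P = (range (⌊y / 2⌋₊ + 1)).filter
      (fun m : ℕ => σ * ((2 : ℕ) * m + (1 : ℕ)) ∈ A) := ⟨_, rfl⟩
  have hy2 : 0 ≤ y / 2 := by linarith
  have h1 : {m : ℕ | (m : ℝ) ≤ y / 2 ∧ σ * ((2 : ℕ) * m + (1 : ℕ)) ∈ A} = (P : Set ℕ) := by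
    ext m
    rw [hP]
    simp only [Set.mem_ofPred_eq, coe_filter, mem_range, mem_floor hy2]
  rw [h1, Set.ncard_coe_finset]
  -- the odd numbers
  have h2 : O σ A y ≤ P.card := by
    unfold O
    apply card_le_card_of_injOn (fun n => n / 2)
    · intro n hn
      simp only [coe_filter, Set.mem_ofPred_eq, mem_range, mem_floor hy] at hn
      obtain ⟨h3, ⟨k, hk⟩, h4⟩ := hn
      rw [hP]
      simp only [coe_filter, Set.mem_ofPred_eq, mem_range, mem_floor hy2]
      have h5 : n / 2 = k := by omega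
      rw [h5]
      subst hk
      push_cast at h3 h4 ⊢
      exact ⟨by linarith, h4⟩
    · intro a ha b hb hab
      simp only [coe_filter, Set.mem_ofPred_eq, Nat.odd_iff] at ha hb
      simp only at hab
      omega
  have h3 : P.card ≤ O σ A y + 1 := by
    have h4 : (P.filter fun m : ℕ => (m : ℝ) ≤ (y - 1) / 2).card ≤ O σ A y := by
      unfold O
      apply card_le_card_of_injOn (fun m => 2 * m + 1)
      · intro m hm
        rw [hP] at hm
        simp only [coe_filter, Set.mem_ofPred_eq, mem_filter, mem_range, mem_floor hy2] at hm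
        simp only [coe_filter, Set.mem_ofPred_eq, mem_range, mem_floor hy]
        push_cast at hm ⊢
        exact ⟨by linarith [hm.2], ⟨m, rfl⟩, hm.1.2⟩
      · intro a _ b _ hab
        simp only at hab
        omega
    have h5 : (P.filter fun m : ℕ => ¬ (m : ℝ) ≤ (y - 1) / 2).card ≤ 1 := by
      rw [card_le_one]
      intro a ha b hb
      rw [hP] at ha hb
      simp only [mem_filter, mem_range, mem_floor hy2, not_le] at ha hb
      have e1 : (a : ℝ) < b + 1 := by linarith [ha.1.1, hb.2]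
      have e2 : (b : ℝ) < a + 1 := by linarith [hb.1.1, ha.2]
      have e3 : a < b + 1 := by exact_mod_cast e1
      have e4 : b < a + 1 := by exact_mod_cast e2
      omega
    have h6 := card_filter_add_card_filter_not (s := P) (fun m : ℕ => (m : ℝ) ≤ (y - 1) / 2)
    omega
  rw [abs_le]
  have h2' : (O σ A y : ℝ) ≤ P.card := by exact_mod_cast h2
  have h3' : (P.card : ℝ) ≤ O σ A y + 1 := by exact_mod_cast h3
  constructor <;> linarith

theorem O_tendsto (h : SlowEv) {σ : ℤ} (hσ : |σ| = 1) {C : ℕ} {A : Set ℤ} (hA : EvInv C A)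
    {u : ℝ} (hu : 0 < u) :
    Tendsto (fun x : ℝ => (O σ A (u * x) : ℝ) / x - u / 2 * D σ A x) atTop (𝓝 0) := by
  have h1 := h σ hσ C A hA 2 1 (by norm_num) (u / 2) (by linarith)
  have h2 := h1.const_mul (u / 2)
  rw [mul_zero] at h2
  have h3 : Tendsto (fun x : ℝ => 1 / x) atTop (𝓝 0) := by
    simpa using tendsto_inv_atTop_zero (𝕜 := ℝ)
  have h4 : Tendsto (fun x : ℝ => (O σ A (u * x) : ℝ) / x -
      (Set.ncard {m : ℕ | (m : ℝ) ≤ (u * x) / 2 ∧ σ * ((2 : ℕ) * m + (1 : ℕ)) ∈ A} : ℝ) / x)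
      atTop (𝓝 0) := by
    apply squeeze_zero_norm' _ h3
    filter_upwards [eventually_gt_atTop 0] with x hx
    rw [Real.norm_eq_abs, ← sub_div, abs_div, abs_of_pos hx]
    exact div_le_div_of_nonneg_right (O_close σ A (by positivity)) hx.le
  have h5 := h4.add h2
  rw [add_zero] at h5
  refine h5.congr' ?_
  filter_upwards [eventually_gt_atTop 0] with x hx
  have e1 : u / 2 * x = u * x / 2 := by ring
  rw [e1]
  unfold D
  have hx' : x ≠ 0 := hx.ne'
  field_simp
  ring_nf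

theorem D_le_two (σ : ℤ) (A : Set ℤ) {x : ℝ} (hx : 1 ≤ x) : D σ A x ≤ 2 := by
  unfold D
  rw [div_le_iff₀ (by linarith)]
  have h1 : Set.ncard {m : ℕ | (m : ℝ) ≤ x ∧ σ * m ∈ A} ≤ ⌊x⌋₊ + 1 := by
    have h2 : {m : ℕ | (m : ℝ) ≤ x ∧ σ * m ∈ A} ⊆ (range (⌊x⌋₊ + 1) : Finset ℕ) := by
      intro m hm
      rw [coe_range, Set.mem_Iio, mem_floor (by linarith)]
      exact hm.1
    have h3 := Set.ncard_le_ncard h2 (finite_toSet _)
    rwa [Set.ncard_coe_finset, card_range] at h3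
  have h2 : (Set.ncard {m : ℕ | (m : ℝ) ≤ x ∧ σ * m ∈ A} : ℝ) ≤ ⌊x⌋₊ + 1 := by exact_mod_cast h1
  have h3 := Nat.floor_le (by linarith : (0 : ℝ) ≤ x)
  linarith

theorem windowDens_of (hS : SlowEv) : WindowDens := by
  intro σ hσ C A hA K hK
  rw [Metric.tendsto_nhds]
  intro ε hε
  obtain ⟨L, hL⟩ : ∃ L : ℝ, L = K * Real.log 2 := ⟨_, rfl⟩
  have hlog : 0 < Real.log 2 := Real.log_pos (by norm_num)
  have hL0 : 0 < L := by
    rw [hL]
    have : (0 : ℝ) < K := by exact_mod_cast hK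
    positivity
  -- the number of pieces
  obtain ⟨R, hR⟩ := exists_nat_gt (L + 8 * L / ε)
  have hR0 : (0 : ℝ) < R := by
    have : 0 ≤ 8 * L / ε := by positivity
    linarith
  have hRL : L ≤ R := by
    have : 0 ≤ 8 * L / ε := by positivity
    linarith
  obtain ⟨h, hh⟩ : ∃ h : ℝ, h = L / R := ⟨_, rfl⟩
  have hh0 : 0 < h := by rw [hh]; positivity
  have hh1 : h ≤ 1 := by rw [hh, div_le_one hR0]; exact hRL
  have hRh : R * h = L := by rw [hh]; field_simp
  have hRh2 : R * h ^ 2 ≤ L * (ε / 8) := by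
    have h1 : R * h ^ 2 = L * h := by rw [← hRh]; ring
    rw [h1]
    apply mul_le_mul_of_nonneg_left _ hL0.le
    rw [hh, div_le_iff₀ hR0]
    have h2 : 8 * L / ε ≤ R := by linarith
    rw [div_le_iff₀ hε] at h2
    linarith
  have hup : Real.exp h - 1 ≤ h + h ^ 2 := by
    have := Real.abs_exp_sub_one_sub_id_le (x := h) (by rw [abs_of_pos hh0]; exact hh1)
    have := (abs_le.1 this).2
    linarith
  have hlo : h - h ^ 2 ≤ 1 - Real.exp (-h) := by
    have := Real.abs_exp_sub_one_sub_id_le (x := -h) (by rw [abs_neg, abs_of_pos hh0]; exact hh1)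
    have := (abs_le.1 this).2
    have h3 : (-h) ^ 2 = h ^ 2 := by ring
    linarith
  -- the limit of the increments
  obtain ⟨u, hu⟩ : ∃ u : ℕ → ℝ, u = fun j : ℕ => Real.exp (j * h) := ⟨_, rfl⟩
  have hu0 : ∀ j, 0 < u j := fun j => by rw [hu]; exact Real.exp_pos _
  have hus : ∀ j, u (j + 1) = u j * Real.exp h := fun j => by
    rw [hu]
    simp only
    rw [← Real.exp_add]
    push_cast
    ring_nf
  have hmono : ∀ j, u j ≤ u (j + 1) := fun j => by
    rw [hus]
    have h1 : 1 ≤ Real.exp h := Real.one_le_exp hh0.le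
    nlinarith [hu0 j]
  have huR : u R = 2 ^ K := by
    rw [hu]
    simp only
    rw [hRh, hL, mul_comm, Real.exp_mul, Real.exp_log (by norm_num), Real.rpow_natCast]
  have hu00 : u 0 = 1 := by rw [hu]; simp
  have t1 : ∀ j, Tendsto (fun x : ℝ => (O σ A (u j * x) : ℝ) / x - u j / 2 * D σ A x) atTop (𝓝 0) :=
    fun j => O_tendsto hS hσ hA (hu0 j)
  have t2 : Tendsto (fun x : ℝ => ∑ j ∈ range R,
      (1 / u j) * (((O σ A (u (j + 1) * x) : ℝ) / x - u (j + 1) / 2 * D σ A x) -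
        ((O σ A (u j * x) : ℝ) / x - u j / 2 * D σ A x))) atTop (𝓝 0) := by
    have h1 : (0 : ℝ) = ∑ j ∈ range R, (1 / u j) * (0 - 0) := by simp
    rw [h1]
    exact tendsto_finsetSum _ fun j _ => ((t1 (j + 1)).sub (t1 j)).const_mul _
  have t3 : Tendsto (fun x : ℝ => ∑ j ∈ range R,
      (1 / u (j + 1)) * (((O σ A (u (j + 1) * x) : ℝ) / x - u (j + 1) / 2 * D σ A x) -
        ((O σ A (u j * x) : ℝ) / x - u j / 2 * D σ A x))) atTop (𝓝 0) := by
    have h1 : (0 : ℝ) = ∑ j ∈ range R, (1 / u (j + 1)) * (0 - 0) := by simp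
    rw [h1]
    exact tendsto_finsetSum _ fun j _ => ((t1 (j + 1)).sub (t1 j)).const_mul _
  have hδ : 0 < L * (ε / 8) := by positivity
  have e2 := (Metric.tendsto_nhds.1 t2) _ hδ
  have e3 := (Metric.tendsto_nhds.1 t3) _ hδ
  filter_upwards [e2, e3, eventually_ge_atTop 1] with x hx2 hx3 hx1
  have hx0 : 0 < x := by linarith
  rw [Real.dist_eq, sub_zero] at hx2 hx3 ⊢
  obtain ⟨d, hd⟩ : ∃ d, d = D σ A x := ⟨_, rfl⟩
  have hd0 : 0 ≤ d := by rw [hd]; exact D_nonneg σ A hx0.le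
  have hd2 : d ≤ 2 := by rw [hd]; exact D_le_two σ A hx1
  -- splitting the window
  have hsplit : ∀ r : ℕ, LS σ A x (u r * x) =
      ∑ j ∈ range r, LS σ A (u j * x) (u (j + 1) * x) := by
    have hge : ∀ r, 1 ≤ u r := by
      intro r
      rw [hu]
      exact Real.one_le_exp (by positivity)
    intro r
    induction r with
    | zero =>
      rw [hu00, one_mul, range_zero, sum_empty]
      unfold LS
      apply sum_eq_zero
      intro n hn
      simp only [mem_filter, mem_range, mem_floor hx0.le] at hn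
      exact absurd hn.1 (not_le.2 hn.2.1)
    | succ r ih =>
      rw [sum_range_succ, ← ih]
      symm
      apply LS_add hx0.le
      · nlinarith [hge r]
      · exact mul_le_mul_of_nonneg_right (hmono r) hx0.le
  have hbig := hsplit R
  rw [huR] at hbig
  have up : LS σ A x (2 ^ K * x) ≤ ∑ j ∈ range R,
      (1 / u j) * ((O σ A (u (j + 1) * x) : ℝ) / x - (O σ A (u j * x) : ℝ) / x) := by
    rw [hbig]
    apply sum_le_sum
    intro j _
    refine (LS_le (mul_pos (hu0 j) hx0) (mul_le_mul_of_nonneg_right (hmono j) hx0.le)).trans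
      (le_of_eq ?_)
    have := (hu0 j).ne'
    field_simp
  have lo : ∑ j ∈ range R,
      (1 / u (j + 1)) * ((O σ A (u (j + 1) * x) : ℝ) / x - (O σ A (u j * x) : ℝ) / x) ≤
      LS σ A x (2 ^ K * x) := by
    rw [hbig]
    apply sum_le_sum
    intro j _
    refine le_trans (le_of_eq ?_)
      (LS_ge (mul_pos (hu0 j) hx0) (mul_le_mul_of_nonneg_right (hmono j) hx0.le))
    have := (hu0 (j + 1)).ne'
    field_simp
  have s2 : ∑ j ∈ range R,
      (1 / u j) * (((O σ A (u (j + 1) * x) : ℝ) / x - u (j + 1) / 2 * D σ A x) -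
        ((O σ A (u j * x) : ℝ) / x - u j / 2 * D σ A x)) =
      (∑ j ∈ range R, (1 / u j) * ((O σ A (u (j + 1) * x) : ℝ) / x - (O σ A (u j * x) : ℝ) / x)) -
        R * ((Real.exp h - 1) / 2 * d) := by
    rw [← hd, ← nsmul_eq_mul, ← card_range R, ← sum_const, card_range, ← sum_sub_distrib]
    apply sum_congr rfl
    intro j _
    have := (hu0 j).ne'
    rw [hus j]
    field_simp
    ring
  have s3 : ∑ j ∈ range R,
      (1 / u (j + 1)) * (((O σ A (u (j + 1) * x) : ℝ) / x - u (j + 1) / 2 * D σ A x) -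
        ((O σ A (u j * x) : ℝ) / x - u j / 2 * D σ A x)) =
      (∑ j ∈ range R,
        (1 / u (j + 1)) * ((O σ A (u (j + 1) * x) : ℝ) / x - (O σ A (u j * x) : ℝ) / x)) -
        R * ((1 - Real.exp (-h)) / 2 * d) := by
    rw [← hd, ← nsmul_eq_mul, ← card_range R, ← sum_const, card_range, ← sum_sub_distrib]
    apply sum_congr rfl
    intro j _
    have := (hu0 j).ne'
    have h2 := (Real.exp_pos h).ne'
    rw [hus j, Real.exp_neg]
    field_simp
    ring
  rw [s2] at hx2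
  rw [s3] at hx3
  have hx2' := (abs_lt.1 hx2).2
  have hx3' := (abs_lt.1 hx3).1
  have m1 : R * ((Real.exp h - 1) / 2 * d) ≤ L / 2 * d + L * (ε / 8) := by
    have a1 : R * (Real.exp h - 1) ≤ L + L * (ε / 8) := by
      calc R * (Real.exp h - 1) ≤ R * (h + h ^ 2) := mul_le_mul_of_nonneg_left hup hR0.le
        _ = L + R * h ^ 2 := by rw [mul_add, hRh]
        _ ≤ L + L * (ε / 8) := by linarith
    have a2 : R * ((Real.exp h - 1) / 2 * d) = R * (Real.exp h - 1) * d / 2 := by ring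
    rw [a2]
    have a3 : R * (Real.exp h - 1) * d ≤ (L + L * (ε / 8)) * d := mul_le_mul_of_nonneg_right a1 hd0
    have a4 : (L + L * (ε / 8)) * d = L * d + L * (ε / 8) * d := by ring
    have a5 : L * (ε / 8) * d ≤ L * (ε / 8) * 2 := mul_le_mul_of_nonneg_left hd2 hδ.le
    linarith
  have m2 : L / 2 * d - L * (ε / 8) ≤ R * ((1 - Real.exp (-h)) / 2 * d) := by
    have a1 : L - L * (ε / 8) ≤ R * (1 - Real.exp (-h)) := by
      calc L - L * (ε / 8) ≤ L - R * h ^ 2 := by linarith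
        _ = R * (h - h ^ 2) := by rw [mul_sub, hRh]
        _ ≤ R * (1 - Real.exp (-h)) := mul_le_mul_of_nonneg_left hlo hR0.le
    have a2 : R * ((1 - Real.exp (-h)) / 2 * d) = R * (1 - Real.exp (-h)) * d / 2 := by ring
    rw [a2]
    have a3 : (L - L * (ε / 8)) * d ≤ R * (1 - Real.exp (-h)) * d := mul_le_mul_of_nonneg_right a1 hd0
    have a4 : (L - L * (ε / 8)) * d = L * d - L * (ε / 8) * d := by ring
    have a5 : L * (ε / 8) * d ≤ L * (ε / 8) * 2 := mul_le_mul_of_nonneg_left hd2 hδ.le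
    linarith
  have b1 : LS σ A x (2 ^ K * x) ≤ L / 2 * d + L * (ε / 4) := by linarith
  have b2 : L / 2 * d - L * (ε / 4) ≤ LS σ A x (2 ^ K * x) := by linarith
  have hDd : (Set.ncard {m : ℕ | (m : ℝ) ≤ x ∧ σ * m ∈ A} : ℝ) / x = d := by rw [hd]; rfl
  rw [hDd, ← hL]
  rw [abs_lt]
  have hL2 : 0 < L / 2 := by linarith
  constructor
  · have : d - ε / 2 ≤ LS σ A x (2 ^ K * x) / (L / 2) := by
      rw [le_div_iff₀ hL2]
      have a1 : (d - ε / 2) * (L / 2) = L / 2 * d - L * (ε / 4) := by ring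
      rw [a1]
      exact b2
    linarith
  · have : LS σ A x (2 ^ K * x) / (L / 2) ≤ d + ε / 2 := by
      rw [div_le_iff₀ hL2]
      have a1 : (d + ε / 2) * (L / 2) = L / 2 * d + L * (ε / 4) := by ring
      rw [a1]
      exact b1
    linarith

end Pool.Agent.Collatz3.DN
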