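import Mathlib
import Pool.Agent.Collatz3.PDFinal

set_option autoImplicit false

/-!
Positive lower density of the grand orbits of the `3x+1` map, uniformly.
-/

namespace Pool.Agent.Collatz3.PD

open Pool.Agent.Helper14 (T Back abs_le_finite T_iter_pow)

/-- The forward orbit of a nonzero integer contains an integer prime to 3 of at most twice the
absolute value and the same sign. -/
theorem exists_prime_to_three {m : ℤ} (hm : m ≠ 0) : ∃ (k : ℕ) (a : ℤ), T^[k] m = a ∧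
    ¬ (3 : ℤ) ∣ a ∧ |a| ≤ 2 * |m| ∧ 0 < a * m ∧ (¬ (3 : ℤ) ∣ m → k = 0) := by
  by_cases h3 : (3 : ℤ) ∣ m
  · -- reduce to the odd part
    obtain ⟨i, o, ho, rfl⟩ : ∃ (i : ℕ) (o : ℤ), o % 2 = 1 ∧ m = 2 ^ i * o := by
      have h : ∀ N : ℕ, ∀ m : ℤ, m ≠ 0 → m.natAbs ≤ N → ∃ (i : ℕ) (o : ℤ), o % 2 = 1 ∧ m = 2 ^ i * o := by
        intro N
        induction N with
        | zero =>
          intro m hm h
          omega
        | succ N ih =>
          intro m hm h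
          rcases Int.emod_two_eq_zero_or_one m with h0 | h0
          · obtain ⟨i, o, ho, he⟩ := ih (m / 2) (by omega) (by omega)
            refine ⟨i + 1, o, ho, ?_⟩
            have e : (2 : ℤ) ^ (i + 1) * o = 2 * (2 ^ i * o) := by ring
            rw [e, ← he]
            omega
          · exact ⟨0, m, h0, by simp⟩
      exact h _ m hm le_rfl
    have h2i : (0 : ℤ) < 2 ^ i := by positivity
    have h2i' : (1 : ℤ) ≤ 2 ^ i := h2i
    have ho3 : (3 : ℤ) ∣ o := by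
      rcases Int.Prime.dvd_mul' Nat.prime_three h3 with h | h
      · have := Int.Prime.dvd_pow' Nat.prime_three h
        norm_num at this
      · exact_mod_cast h
    have hTo : T o = (3 * o + 1) / 2 := by
      unfold T
      rw [if_neg (by omega)]
    refine ⟨i + 1, T o, ?_, ?_, ?_, ?_, fun h => absurd h3 h⟩
    · rw [Function.iterate_succ_apply', T_iter_pow]
    · rw [hTo]
      omega
    · rw [hTo]
      have h4 : |2 ^ i * o| = 2 ^ i * |o| := by rw [abs_mul, abs_of_pos h2i]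
      have h5 : |o| ≤ 2 ^ i * |o| := by
        calc |o| = 1 * |o| := (one_mul _).symm
          _ ≤ 2 ^ i * |o| := mul_le_mul_of_nonneg_right h2i' (abs_nonneg _)
      have h6 : |(3 * o + 1) / 2| ≤ 2 * |o| := by
        rcases abs_cases o with ⟨q1, q2⟩ | ⟨q1, q2⟩ <;>
        rcases abs_cases ((3 * o + 1) / 2) with ⟨q3, q4⟩ | ⟨q3, q4⟩ <;> rw [q1, q3] <;> omega
      rw [h4]
      linarith
    · rw [hTo]
      rcases lt_trichotomy o 0 with h | h | h
      · exact mul_pos_of_neg_of_neg (by omega) (mul_neg_of_pos_of_neg h2i h)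
      · omega
      · exact mul_pos (by omega) (mul_pos h2i h)
  · refine ⟨0, m, rfl, h3, ?_, ?_, fun _ => rfl⟩
    · have := abs_nonneg m
      linarith
    · exact mul_self_pos.2 hm

/-- The integers in the grand orbit of `m`, of the sign of `m`, up to `x |m|`. -/
theorem grand_density : ∃ c : ℝ, 0 < c ∧ ∀ m : ℤ, m ≠ 0 → ∀ x : ℝ, 1 ≤ x →
    c * x ≤ ({n : ℤ | 0 < n * m ∧ |(n : ℝ)| ≤ x * |(m : ℝ)| ∧
      ∃ j k : ℕ, T^[j] n = T^[k] m ∧ (¬ (3 : ℤ) ∣ m → k = 0)}.ncard : ℝ) := by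
  obtain ⟨c, hc, h⟩ := back_density
  refine ⟨min (c / 2) (1 / 2), by positivity, fun m hm x hx => ?_⟩
  have hfin : {n : ℤ | 0 < n * m ∧ |(n : ℝ)| ≤ x * |(m : ℝ)| ∧
      ∃ j k : ℕ, T^[j] n = T^[k] m ∧ (¬ (3 : ℤ) ∣ m → k = 0)}.Finite :=
    (abs_le_finite _).subset fun _ h => h.2.1
  by_cases hx2 : x < 2
  · have h1 : m ∈ {n : ℤ | 0 < n * m ∧ |(n : ℝ)| ≤ x * |(m : ℝ)| ∧
        ∃ j k : ℕ, T^[j] n = T^[k] m ∧ (¬ (3 : ℤ) ∣ m → k = 0)} := by
      refine ⟨mul_self_pos.2 hm, ?_, 0, 0, rfl, fun _ => rfl⟩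
      have := abs_nonneg (m : ℝ)
      nlinarith
    have h2 := (Set.ncard_pos hfin).2 ⟨m, h1⟩
    have h3 : (1 : ℝ) ≤ ({n : ℤ | 0 < n * m ∧ |(n : ℝ)| ≤ x * |(m : ℝ)| ∧
        ∃ j k : ℕ, T^[j] n = T^[k] m ∧ (¬ (3 : ℤ) ∣ m → k = 0)}.ncard : ℝ) := by
      exact_mod_cast h2
    refine le_trans ?_ h3
    calc min (c / 2) (1 / 2) * x ≤ (1 / 2) * x :=
          mul_le_mul_of_nonneg_right (min_le_right _ _) (by linarith)
      _ ≤ 1 := by linarith
  · push Not at hx2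
    obtain ⟨k, a, hk, ha3, ham, hsg, hk0⟩ := exists_prime_to_three hm
    have h1 := h a ha3 (x / 2) (by linarith)
    have ha0 : a ≠ 0 := by
      rintro rfl
      exact ha3 (dvd_zero _)
    have hsub : Back a (x / 2 * |(a : ℝ)|) ⊆ {n : ℤ | 0 < n * m ∧ |(n : ℝ)| ≤ x * |(m : ℝ)| ∧
        ∃ j k : ℕ, T^[j] n = T^[k] m ∧ (¬ (3 : ℤ) ∣ m → k = 0)} := by
      rintro n ⟨hn1, hn2, j, hj⟩
      refine ⟨?_, ?_, j, k, by rw [hj, hk], hk0⟩
      · have h3 : 0 < (n * a) * (a * m) := mul_pos hn1 hsg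
        have h4 : (n * a) * (a * m) = (n * m) * (a * a) := by ring
        rw [h4] at h3
        by_contra hcon
        have := mul_nonpos_of_nonpos_of_nonneg (not_lt.1 hcon) (mul_self_nonneg a)
        linarith
      · refine hn2.trans ?_
        have h3 : |(a : ℝ)| ≤ 2 * |(m : ℝ)| := by exact_mod_cast ham
        calc x / 2 * |(a : ℝ)| ≤ x / 2 * (2 * |(m : ℝ)|) :=
              mul_le_mul_of_nonneg_left h3 (by linarith)
          _ = x * |(m : ℝ)| := by ring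
    have h2 : (((Back a (x / 2 * |(a : ℝ)|)).ncard : ℕ) : ℝ) ≤
        ({n : ℤ | 0 < n * m ∧ |(n : ℝ)| ≤ x * |(m : ℝ)| ∧
        ∃ j k : ℕ, T^[j] n = T^[k] m ∧ (¬ (3 : ℤ) ∣ m → k = 0)}.ncard : ℝ) := by
      exact_mod_cast Set.ncard_le_ncard hsub hfin
    refine le_trans ?_ (h1.trans h2)
    calc min (c / 2) (1 / 2) * x ≤ (c / 2) * x :=
          mul_le_mul_of_nonneg_right (min_le_left _ _) (by linarith)
      _ = c * (x / 2) := by ring

end Pool.Agent.Collatz3.PD
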