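import Mathlib
import Pool.Agent.Helper14.FatouDefs
import Pool.Agent.Collatz3.PDGrand
import Pool.Agent.Collatz3.DNLower
import Pool.Agent.Collatz3.DNSlow
import Pool.Agent.Collatz3.DNWinDens
import Pool.Agent.Collatz3.DNBlocks

set_option autoImplicit false

/-!
Natural densities of invariant sets and of predecessor sets, ready for use.
-/

namespace Pool.Agent.Collatz3.DN

open Filter Topology
open Pool.Agent.Helper14 (T Back)

/-- `A` has natural density `d` among the integers of sign `σ`, along every progression. -/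
def Dens (σ : ℤ) (A : Set ℤ) (d : ℝ) : Prop :=
  ∀ q r : ℕ, 1 ≤ q → Tendsto (fun x : ℝ =>
    (Set.ncard {m : ℕ | (m : ℝ) ≤ x ∧ σ * (q * m + r) ∈ A} : ℝ) / x) atTop (𝓝 d)

theorem windowDens : WindowDens := windowDens_of slowEv

theorem dens_of_evInv {σ : ℤ} (hσ : |σ| = 1) {C : ℕ} {A : Set ℤ} (hA : EvInv C A) {d : ℝ}
    (hd : Tendsto (D σ A) atTop (𝓝 d)) : Dens σ A d := by
  intro q r hq
  have h := (slowEv σ hσ C A hA q r hq 1 one_pos).add hd
  rw [zero_add] at h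
  refine h.congr fun x => ?_
  unfold D
  rw [one_mul]
  ring

theorem Dens.tendsto {σ : ℤ} {A : Set ℤ} {d : ℝ} (h : Dens σ A d) :
    Tendsto (D σ A) atTop (𝓝 d) := by
  have h1 := h 1 0 le_rfl
  refine h1.congr fun x => ?_
  unfold D
  congr 3
  ext m
  simp

/-- Every set that is invariant outside a finite set has a natural density. -/
theorem dens_exists {σ : ℤ} (hσ : |σ| = 1) {C : ℕ} {A : Set ℤ} (hA : EvInv C A) :
    ∃ d : ℝ, Dens σ A d := by
  obtain ⟨x, hx⟩ := exists_dens windowLowerB windowDens hσ hA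
  exact ⟨x, dens_of_evInv hσ hA hx⟩

theorem evInv_of_inv {A : Set ℤ} (hA : ∀ n, T n ∈ A ↔ n ∈ A) : EvInv 0 A := fun n _ => hA n

theorem iter_iff {A : Set ℤ} (hA : ∀ n, T n ∈ A ↔ n ∈ A) (k : ℕ) : ∀ n, T^[k] n ∈ A ↔ n ∈ A := by
  induction k with
  | zero => intro n; rfl
  | succ k ih =>
    intro n
    rw [Function.iterate_succ_apply, ih, hA]

/-- From a uniform lower bound for the counting functions to the density. -/
theorem dens_ge_of_count {σ : ℤ} (hσ : |σ| = 1) {A : Set ℤ} {d c : ℝ} (hd : Dens σ A d) {a : ℤ}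
    (ha : 0 < σ * a) {B : ℝ → Set ℤ} (hB : ∀ x, ∀ n ∈ B x, 0 < n * a ∧ |(n : ℝ)| ≤ x * |(a : ℝ)| ∧
      n ∈ A) (h : ∀ x : ℝ, 1 ≤ x → c * x ≤ ((B x).ncard : ℝ)) : c / |(a : ℝ)| ≤ d := by
  have hσσ : σ * σ = 1 := by
    have := abs_mul_abs_self σ
    rw [hσ] at this
    linarith
  have ha0 : a ≠ 0 := by
    rintro rfl
    simp at ha
  have haa : 0 < |(a : ℝ)| := by
    rw [abs_pos]
    exact_mod_cast ha0
  apply ge_of_tendsto hd.tendsto
  filter_upwards [eventually_ge_atTop |(a : ℝ)|] with x hx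
  have hx0 : 0 < x := lt_of_lt_of_le haa hx
  have h1 := h (x / |(a : ℝ)|) (by rw [le_div_iff₀ haa, one_mul]; exact hx)
  have h2 : (B (x / |(a : ℝ)|)).ncard ≤ Set.ncard {m : ℕ | (m : ℝ) ≤ x ∧ σ * m ∈ A} := by
    apply Set.ncard_le_ncard_of_injOn (fun n : ℤ => n.natAbs) (ht := count_finite σ A x)
    · intro n hn
      obtain ⟨g1, g2, g3⟩ := hB _ n hn
      have e1 : 0 < σ * n := by
        have h5 : 0 < (n * a) * (σ * a) := mul_pos g1 ha
        have h6 : (n * a) * (σ * a) = (σ * n) * (a * a) := by ring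
        rw [h6] at h5
        by_contra hcon
        have := mul_nonpos_of_nonpos_of_nonneg (not_lt.1 hcon) (mul_self_nonneg a)
        linarith
      have e2 : ((n.natAbs : ℕ) : ℤ) = σ * n := by
        rw [Int.natCast_natAbs]
        have e3 : |σ * n| = |n| := by rw [abs_mul, hσ, one_mul]
        rw [← e3, abs_of_pos e1]
      refine ⟨?_, ?_⟩
      · have e4 : ((n.natAbs : ℕ) : ℝ) = |(n : ℝ)| := by
          rw [Nat.cast_natAbs]
          push_cast
          rfl
        rw [e4]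
        rw [div_mul_cancel₀ _ haa.ne'] at g2
        exact g2
      · rw [e2, ← mul_assoc, hσσ, one_mul]
        exact g3
    · intro n hn m hm hnm
      have g1 := (hB _ n hn).1
      have g2 := (hB _ m hm).1
      rcases Int.natAbs_eq_natAbs_iff.1 hnm with h5 | h5
      · exact h5
      · exfalso
        rw [h5] at g1
        linarith
  unfold D
  rw [div_le_div_iff₀ haa hx0]
  have h3 : c * (x / |(a : ℝ)|) ≤ (Set.ncard {m : ℕ | (m : ℝ) ≤ x ∧ σ * m ∈ A} : ℝ) :=
    h1.trans (by exact_mod_cast h2)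
  rw [mul_div_assoc', div_le_iff₀ haa] at h3
  exact h3

/-- Invariant sets: existence of the density and its lower bound. -/
theorem inv_dens : ∃ c : ℝ, 0 < c ∧ ∀ σ : ℤ, |σ| = 1 → ∀ A : Set ℤ, (∀ n, T n ∈ A ↔ n ∈ A) →
    ∃ d : ℝ, Dens σ A d ∧ ∀ a ∈ A, 0 < σ * a → c / |(a : ℝ)| ≤ d := by
  obtain ⟨c, hc, hgrand⟩ := Pool.Agent.Collatz3.PD.grand_density
  refine ⟨c, hc, fun σ hσ A hA => ?_⟩
  obtain ⟨d, hd⟩ := dens_exists hσ (evInv_of_inv hA)
  refine ⟨d, hd, fun a ha hpos => ?_⟩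
  have ha0 : a ≠ 0 := by
    rintro rfl
    simp at hpos
  refine dens_ge_of_count hσ hd hpos (B := fun x => {n : ℤ | 0 < n * a ∧
    |(n : ℝ)| ≤ x * |(a : ℝ)| ∧ ∃ j k : ℕ, T^[j] n = T^[k] a ∧ (¬ (3 : ℤ) ∣ a → k = 0)})
    ?_ (fun x hx => hgrand a ha0 x hx)
  rintro x n ⟨g1, g2, j, k, g3, -⟩
  refine ⟨g1, g2, ?_⟩
  rw [← iter_iff hA j n, g3, iter_iff hA k a]
  exact ha

/-- The set of integers that reach `1`, and its complement, are invariant. -/
theorem reach_one_inv (n : ℤ) : T n ∈ {n : ℤ | ∃ k : ℕ, T^[k] n = 1} ↔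
    n ∈ {n : ℤ | ∃ k : ℕ, T^[k] n = 1} := by
  constructor
  · rintro ⟨k, hk⟩
    exact ⟨k + 1, by rw [Function.iterate_succ_apply]; exact hk⟩
  · rintro ⟨k, hk⟩
    rcases k with _ | k
    · have h1 : n = 1 := hk
      refine ⟨1, ?_⟩
      rw [h1]
      decide
    · rw [Function.iterate_succ_apply] at hk
      exact ⟨k, hk⟩

end Pool.Agent.Collatz3.DN
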