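import Pool.Agent.Collatz3.Ent

set_option autoImplicit false

/-!
Group part of the digit lemma: near-uniformity on `ZMod N` from approximate translation invariance.
-/

open Finset Real
open scoped Classical

namespace Pool.Agent.Collatz3

theorem unif_of_shift {N : ℕ} [NeZero N] (f : ZMod N → ℝ) (w : ZMod N) (hw : IsUnit w) :
    ∑ β, |f β - (∑ x, f x) / N| ≤ N * ∑ β, |f β - f (β + w)| := by
  set T : ℝ := ∑ β, |f β - f (β + w)| with hT
  have hT0 : 0 ≤ T := sum_nonneg fun _ _ => abs_nonneg _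
  have hN : (0 : ℝ) < N := by exact_mod_cast Nat.pos_of_ne_zero (NeZero.ne N)
  have step : ∀ j : ℕ, ∑ β, |f β - f (β + j * w)| ≤ j * T := by
    intro j
    induction j with
    | zero => simp
    | succ j ih =>
      have h1 : ∀ β, |f β - f (β + ((j + 1 : ℕ) : ZMod N) * w)| ≤
          |f β - f (β + j * w)| + |f (β + j * w) - f (β + j * w + w)| := by
        intro β
        have : β + ((j + 1 : ℕ) : ZMod N) * w = β + j * w + w := by push_cast; ring
        rw [this]
        exact abs_sub_le _ _ _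
      have h2 : ∑ β, |f (β + j * w) - f (β + j * w + w)| = T := by
        rw [hT]
        exact Equiv.sum_comp (Equiv.addRight ((j : ZMod N) * w)) (fun β => |f β - f (β + w)|)
      calc ∑ β, |f β - f (β + ((j + 1 : ℕ) : ZMod N) * w)|
          ≤ ∑ β, (|f β - f (β + j * w)| + |f (β + j * w) - f (β + j * w + w)|) :=
            sum_le_sum fun β _ => h1 β
        _ ≤ j * T + T := by rw [sum_add_distrib, h2]; linarith
        _ = ((j + 1 : ℕ) : ℝ) * T := by push_cast; ring
  have hsum : ∀ β, ∑ x, f (β + x * w) = ∑ x, f x := by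
    intro β
    obtain ⟨u, rfl⟩ := hw
    exact Equiv.sum_comp ((Units.mulRight u).trans (Equiv.addLeft β)) f
  have e1 : ∀ β, |f β - (∑ x, f x) / N| ≤ (∑ x : ZMod N, |f β - f (β + x * w)|) / N := by
    intro β
    have : f β - (∑ x, f x) / N = (∑ x : ZMod N, (f β - f (β + x * w))) / N := by
      rw [sum_sub_distrib, hsum β, sum_const, card_univ, ZMod.card, nsmul_eq_mul]
      field_simp
    rw [this, abs_div, abs_of_pos hN]
    exact div_le_div_of_nonneg_right (abs_sum_le_sum_abs _ _) hN.le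
  calc ∑ β, |f β - (∑ x, f x) / N| ≤ ∑ β, (∑ x : ZMod N, |f β - f (β + x * w)|) / N :=
        sum_le_sum fun β _ => e1 β
    _ = (∑ x : ZMod N, ∑ β, |f β - f (β + x * w)|) / N := by
        rw [← sum_div, sum_comm]
    _ ≤ (∑ x : ZMod N, (N : ℝ) * T) / N := by
        refine div_le_div_of_nonneg_right (sum_le_sum fun x _ => ?_) hN.le
        have h := step x.val
        rw [ZMod.natCast_zmod_val] at h
        refine h.trans (mul_le_mul_of_nonneg_right ?_ hT0)
        exact_mod_cast (ZMod.val_lt x).le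
    _ = N * T := by
        rw [sum_const, card_univ, ZMod.card, nsmul_eq_mul]
        field_simp

theorem l1_ge_of_small {N : ℕ} [NeZero N] (z : ZMod N → ℝ) (Good : Finset (ZMod N))
    (hz : ∀ β, 0 ≤ z β) (hG : 2 * Good.card ≤ N) :
    (∑ x, z x) - 2 * ∑ β ∈ Goodᶜ, z β ≤ ∑ β, |z β - (∑ x, z x) / N| := by
  set M : ℝ := ∑ x, z x with hM
  have hM0 : 0 ≤ M := sum_nonneg fun x _ => hz x
  have hN : (0 : ℝ) < N := by exact_mod_cast Nat.pos_of_ne_zero (NeZero.ne N)
  have h1 : ∑ β, |z β - M / N| = ∑ β ∈ Good, |z β - M / N| + ∑ β ∈ Goodᶜ, |z β - M / N| :=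
    (sum_add_sum_compl Good _).symm
  have h2 : ∑ β ∈ Good, z β + ∑ β ∈ Goodᶜ, z β = M := sum_add_sum_compl Good _
  have h3 : ∑ β ∈ Good, z β - Good.card * (M / N) ≤ ∑ β ∈ Good, |z β - M / N| := by
    have : ∑ β ∈ Good, z β - Good.card * (M / N) = ∑ β ∈ Good, (z β - M / N) := by
      rw [sum_sub_distrib, sum_const, nsmul_eq_mul]
    rw [this]
    exact sum_le_sum fun β _ => le_abs_self _
  have h4 : (Goodᶜ.card : ℝ) * (M / N) - ∑ β ∈ Goodᶜ, z β ≤ ∑ β ∈ Goodᶜ, |z β - M / N| := by
    have : (Goodᶜ.card : ℝ) * (M / N) - ∑ β ∈ Goodᶜ, z β = ∑ β ∈ Goodᶜ, (M / N - z β) := by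
      rw [sum_sub_distrib, sum_const, nsmul_eq_mul]
    rw [this]
    refine sum_le_sum fun β _ => ?_
    rw [abs_sub_comm]
    exact le_abs_self _
  have h5 : (Good.card : ℝ) + Goodᶜ.card = N := by
    have := card_add_card_compl Good
    rw [ZMod.card] at this
    exact_mod_cast this
  have h6 : 2 * (Good.card : ℝ) ≤ N := by exact_mod_cast hG
  have h7 : (N : ℝ) * (M / N) = M := by field_simp
  have h8 : 0 ≤ M / N := by positivity
  have h9 : (Goodᶜ.card : ℝ) * (M / N) - Good.card * (M / N) ≥ 0 := by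
    have : (Goodᶜ.card : ℝ) - Good.card ≥ 0 := by linarith
    nlinarith
  rw [h1]
  linarith

/-- the atom lemma -/
theorem atom_lemma {N : ℕ} [NeZero N] {ι : Type*} (J : ZMod N → ZMod N → ℝ)
    (hJ : ∀ v β, 0 ≤ J v β) (Good : Finset (ZMod N)) (hG : 2 * Good.card ≤ N) (κ : ZMod N → ι)
    (hκ : ∀ v v', κ v ≠ κ v' → IsUnit (v - v'))
    (u z w : ZMod N → ℝ) (M : ℝ) (hu : ∀ v, ∑ β, J v β = u v) (hz : ∀ β, ∑ v, J v β = z β)
    (hM : ∑ v, u v = M) :
    ∑ v, ∑ v', (if κ v ≠ κ v' then u v * u v' / M else 0) ≤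
      2 * ∑ β ∈ Goodᶜ, z β + 2 * N * (∑ v, ∑ β, |J v β - u v * z β / M| +
        ∑ v, ∑ t, |J v (t - v) - u v * w t / M|) := by
  have hu0 : ∀ v, 0 ≤ u v := fun v => (hu v) ▸ sum_nonneg fun β _ => hJ v β
  have hz0 : ∀ β, 0 ≤ z β := fun β => (hz β) ▸ sum_nonneg fun v _ => hJ v β
  have hM0 : 0 ≤ M := hM ▸ sum_nonneg fun v _ => hu0 v
  have hzM : ∑ β, z β = M := by
    rw [← hM]
    simp_rw [← hz, ← hu]
    exact sum_comm
  set D1 : ℝ := ∑ v, ∑ β, |J v β - u v * z β / M| with hD1
  set D2 : ℝ := ∑ v, ∑ t, |J v (t - v) - u v * w t / M| with hD2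
  have hD10 : 0 ≤ D1 := sum_nonneg fun _ _ => sum_nonneg fun _ _ => abs_nonneg _
  have hD20 : 0 ≤ D2 := sum_nonneg fun _ _ => sum_nonneg fun _ _ => abs_nonneg _
  have hb0 : 0 ≤ ∑ β ∈ Goodᶜ, z β := sum_nonneg fun β _ => hz0 β
  have hN : (0 : ℝ) < N := by exact_mod_cast Nat.pos_of_ne_zero (NeZero.ne N)
  rcases hM0.eq_or_lt with hM1 | hM1
  · have : ∑ v, ∑ v', (if κ v ≠ κ v' then u v * u v' / M else 0) = 0 := by
      refine sum_eq_zero fun v _ => sum_eq_zero fun v' _ => ?_
      rw [← hM1]; simp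
    rw [this]
    positivity
  · set S : ℝ := ∑ β, |z β - M / N| with hS
    have hS1 : M - 2 * ∑ β ∈ Goodᶜ, z β ≤ S := by
      have := l1_ge_of_small z Good hz0 hG
      rwa [hzM] at this
    set E : ℝ := ∑ v, ∑ v', (if κ v ≠ κ v' then u v * u v' else 0) with hE
    have hE0 : 0 ≤ E := by
      refine sum_nonneg fun v _ => sum_nonneg fun v' _ => ?_
      split_ifs
      · exact mul_nonneg (hu0 v) (hu0 v')
      · exact le_rfl
    have hEM : E ≤ M * M := by
      have : ∑ v, ∑ v', u v * u v' = M * M := by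
        rw [← hM, sum_mul_sum]
      rw [← this]
      refine sum_le_sum fun v _ => sum_le_sum fun v' _ => ?_
      split_ifs
      · exact le_rfl
      · exact mul_nonneg (hu0 v) (hu0 v')
    set R : ZMod N → ℝ := fun v => ∑ t, |z (t - v) - w t| with hR
    have hpair : ∀ v v', κ v ≠ κ v' → S ≤ N * (R v + R v') := by
      intro v v' h
      have h1 := unif_of_shift z (v - v') (hκ v v' h)
      rw [hzM] at h1
      refine h1.trans (mul_le_mul_of_nonneg_left ?_ hN.le)
      have h2 : ∑ β, |z β - z (β + (v - v'))| = ∑ t, |z (t - v) - z (t - v')| := by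
        rw [← Equiv.sum_comp (Equiv.subRight v) (fun β => |z β - z (β + (v - v'))|)]
        refine sum_congr rfl fun t _ => ?_
        simp only [Equiv.subRight_apply]
        congr 3
        ring
      rw [h2, hR, ← sum_add_distrib]
      refine sum_le_sum fun t _ => ?_
      have := abs_sub_le (z (t - v)) (w t) (z (t - v'))
      rw [abs_sub_comm (w t)] at this
      exact this
    have hES : E * S ≤ 2 * N * M * ∑ v, u v * R v := by
      have h1 : E * S ≤ ∑ v, ∑ v', u v * u v' * (N * (R v + R v')) := by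
        rw [hE, sum_mul]
        refine sum_le_sum fun v _ => ?_
        rw [sum_mul]
        refine sum_le_sum fun v' _ => ?_
        have hR0 : ∀ v, 0 ≤ R v := fun v => sum_nonneg fun _ _ => abs_nonneg _
        split_ifs with h
        · exact mul_le_mul_of_nonneg_left (hpair v v' h) (mul_nonneg (hu0 v) (hu0 v'))
        · rw [zero_mul]
          have := hu0 v; have := hu0 v'; have := hR0 v; have := hR0 v'
          positivity
      refine h1.trans (le_of_eq ?_)
      have h2 : ∀ v v', u v * u v' * (N * (R v + R v')) =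
          N * ((u v * R v) * u v') + N * (u v * (u v' * R v')) := by intros; ring
      simp_rw [h2, sum_add_distrib, ← mul_sum, ← sum_mul, hM]
      ring
    have hRv : ∑ v, u v * R v ≤ M * (D1 + D2) := by
      rw [hD1, hD2, ← sum_add_distrib, mul_sum]
      refine sum_le_sum fun v _ => ?_
      have h1 : u v * R v = M * ∑ t, |u v * z (t - v) / M - u v * w t / M| := by
        rw [hR]
        simp only
        rw [mul_sum, mul_sum]
        refine sum_congr rfl fun t _ => ?_
        rw [← sub_div, abs_div, abs_of_pos hM1, ← mul_sub, abs_mul, abs_of_nonneg (hu0 v)]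
        field_simp
      rw [h1]
      refine mul_le_mul_of_nonneg_left ?_ hM0
      have h2 : ∑ β, |J v β - u v * z β / M| = ∑ t, |J v (t - v) - u v * z (t - v) / M| := by
        rw [← Equiv.sum_comp (Equiv.subRight v) (fun β => |J v β - u v * z β / M|)]
        rfl
      rw [h2, ← sum_add_distrib]
      refine sum_le_sum fun t _ => ?_
      have := abs_sub_le (u v * z (t - v) / M) (J v (t - v)) (u v * w t / M)
      rw [abs_sub_comm (u v * z (t - v) / M) (J v (t - v))] at this
      exact this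
    have hfin : ∑ v, ∑ v', (if κ v ≠ κ v' then u v * u v' / M else 0) = E / M := by
      rw [hE, sum_div]
      refine sum_congr rfl fun v _ => ?_
      rw [sum_div]
      refine sum_congr rfl fun v' _ => ?_
      split_ifs <;> simp
    rw [hfin, div_le_iff₀ hM1]
    have k1 : E * (M - 2 * ∑ β ∈ Goodᶜ, z β) ≤ 2 * N * M * (M * (D1 + D2)) :=
      (mul_le_mul_of_nonneg_left hS1 hE0).trans
        (hES.trans (mul_le_mul_of_nonneg_left hRv (by positivity)))
    have k2 : E * (2 * ∑ β ∈ Goodᶜ, z β) ≤ M * M * (2 * ∑ β ∈ Goodᶜ, z β) :=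
      mul_le_mul_of_nonneg_right hEM (by positivity)
    have k3 : E * M ≤ M * ((2 * ∑ β ∈ Goodᶜ, z β + 2 * N * (D1 + D2)) * M) := by nlinarith
    nlinarith

end Pool.Agent.Collatz3
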