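import Pool.Agent.Collatz3.DigitA

set_option autoImplicit false

/-!
Pinsker type inequality for conditional mutual information, and the one level digit estimate.
-/

open Finset Real
open scoped Classical

namespace Pool.Agent.Collatz3

variable {Ω : Type*} {s : Finset Ω} {p : Ω → ℝ}

theorem sum_mv_one {α γ : Type*} [Fintype α] (X : Ω → α) (G : Ω → γ) (g : γ) :
    ∑ x, mv s p (fun ω => (X ω, G ω)) (x, g) = mv s p G g := by
  unfold mv
  rw [← sum_fiberwise_of_maps_to (g := X) (s := s.filter fun ω => G ω = g)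
    (t := univ) (fun ω _ => mem_univ _)]
  refine sum_congr rfl fun x _ => ?_
  refine sum_congr ?_ fun _ _ => rfl
  ext ω
  simp only [mem_filter, Prod.ext_iff]
  tauto

theorem mv_eq_mv {σ τ : Type*} (S : Ω → σ) (T : Ω → τ) (a : σ) (b : τ)
    (h : ∀ ω ∈ s, S ω = a ↔ T ω = b) : mv s p S a = mv s p T b := by
  unfold mv
  refine sum_congr ?_ fun _ _ => rfl
  ext ω
  simp only [mem_filter]
  constructor
  · rintro ⟨h0, h1⟩; exact ⟨h0, (h ω h0).1 h1⟩
  · rintro ⟨h0, h1⟩; exact ⟨h0, (h ω h0).2 h1⟩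

theorem mv_eq_zero {σ : Type*} (S : Ω → σ) (a : σ)
    (h : ∀ ω ∈ s, S ω ≠ a) : mv s p S a = 0 := by
  unfold mv
  refine sum_eq_zero fun ω hω => ?_
  exact absurd (mem_filter.1 hω).2 (h ω (mem_filter.1 hω).1)

theorem sum_mv_snd {α β γ : Type*} [Fintype β] (X : Ω → α) (Y : Ω → β) (G : Ω → γ) (x : α)
    (g : γ) : ∑ y, mv s p (fun ω => (X ω, Y ω, G ω)) (x, y, g) =
      mv s p (fun ω => (X ω, G ω)) (x, g) := by
  rw [← sum_mv_one (X := Y) (G := fun ω => (X ω, G ω))]
  refine sum_congr rfl fun y _ => mv_eq_mv _ _ _ _ fun ω _ => ?_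
  simp only [Prod.ext_iff]
  tauto

theorem sum_mv_fst {α β γ : Type*} [Fintype α] (X : Ω → α) (Y : Ω → β) (G : Ω → γ) (y : β)
    (g : γ) : ∑ x, mv s p (fun ω => (X ω, Y ω, G ω)) (x, y, g) =
      mv s p (fun ω => (Y ω, G ω)) (y, g) := by
  rw [← sum_mv_one (X := X) (G := fun ω => (Y ω, G ω))]

/-- Pinsker type inequality for the conditional mutual information of `X` and `Y` given `G` -/
theorem pinsker {α β γ : Type*} [Fintype α] [Fintype β] (hp : ∀ ω ∈ s, 0 ≤ p ω)
    (hp1 : ∑ ω ∈ s, p ω ≤ 1) (X : Ω → α) (Y : Ω → β) (G : Ω → γ) :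
    ∑ g ∈ s.image G, ∑ x, ∑ y, |mv s p (fun ω => (X ω, Y ω, G ω)) (x, y, g) -
      mv s p (fun ω => (X ω, G ω)) (x, g) * mv s p (fun ω => (Y ω, G ω)) (y, g) / mv s p G g| ≤
    2 * Real.sqrt (cH s p X G - cH s p X (fun ω => (Y ω, G ω))) := by
  set I : Finset (α × β × γ) := univ ×ˢ (univ ×ˢ s.image G) with hI
  set P : α × β × γ → ℝ := fun t => mv s p (fun ω => (X ω, Y ω, G ω)) t with hP
  set Q : α × β × γ → ℝ := fun t => mv s p (fun ω => (X ω, G ω)) (t.1, t.2.2) *
    mv s p (fun ω => (Y ω, G ω)) (t.2.1, t.2.2) / mv s p G t.2.2 with hQ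
  have hP0 : ∀ t, 0 ≤ P t := fun t => mv_nonneg hp _ _
  have hQ0 : ∀ t, 0 ≤ Q t := fun t =>
    div_nonneg (mul_nonneg (mv_nonneg hp _ _) (mv_nonneg hp _ _)) (mv_nonneg hp _ _)
  have hmass : 0 ≤ ∑ ω ∈ s, p ω := sum_nonneg hp
  have sP : ∑ t ∈ I, P t = ∑ ω ∈ s, p ω := by
    refine sum_mv (fun ω => (X ω, Y ω, G ω)) I fun ω hω => ?_
    simp only [hI, mem_product, mem_univ, true_and]
    exact mem_image_of_mem _ hω
  have sQ : ∑ t ∈ I, Q t ≤ ∑ ω ∈ s, p ω := by
    rw [hI, sum_product]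
    simp_rw [sum_product]
    have e1 : ∑ x, ∑ y, ∑ g ∈ s.image G, Q (x, y, g) =
        ∑ g ∈ s.image G, ∑ x, ∑ y, Q (x, y, g) := by
      have : ∀ x : α, ∑ y, ∑ g ∈ s.image G, Q (x, y, g) = ∑ g ∈ s.image G, ∑ y, Q (x, y, g) :=
        fun x => sum_comm
      simp_rw [this]
      exact sum_comm
    rw [e1, ← sum_mv G (s.image G) (fun ω hω => mem_image_of_mem _ hω)]
    refine sum_le_sum fun g _ => ?_
    have e2 : ∑ x, ∑ y, Q (x, y, g) = mv s p G g * mv s p G g / mv s p G g := by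
      simp only [hQ]
      simp_rw [← sum_div, ← mul_sum, sum_mv_one, ← sum_mul, sum_mv_one]
    rw [e2]
    have := mv_nonneg hp G g
    have h := div_self_le_one (mv s p G g)
    calc mv s p G g * mv s p G g / mv s p G g = mv s p G g * (mv s p G g / mv s p G g) := by ring
      _ ≤ mv s p G g * 1 := by gcongr
      _ = _ := mul_one _
  have e0 : ∑ g ∈ s.image G, ∑ x, ∑ y, |mv s p (fun ω => (X ω, Y ω, G ω)) (x, y, g) -
      mv s p (fun ω => (X ω, G ω)) (x, g) * mv s p (fun ω => (Y ω, G ω)) (y, g) / mv s p G g| =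
      ∑ t ∈ I, |P t - Q t| := by
    rw [hI, sum_product]
    simp_rw [sum_product]
    have : ∀ x : α, ∑ y, ∑ g ∈ s.image G, |P (x, y, g) - Q (x, y, g)| =
        ∑ g ∈ s.image G, ∑ y, |P (x, y, g) - Q (x, y, g)| :=
      fun x => sum_comm
    simp_rw [this]
    rw [sum_comm]
  rw [e0]
  -- lower bound of the mutual information
  have hInf : ∑ t ∈ I, (Real.sqrt (P t) - Real.sqrt (Q t)) ^ 2 ≤
      cH s p X G - cH s p X (fun ω => (Y ω, G ω)) := by
    have h1 : ∑ ω ∈ s, p ω * (Real.sqrt (P (X ω, Y ω, G ω) * Q (X ω, Y ω, G ω)) /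
        mv s p (fun ω => (X ω, Y ω, G ω)) (X ω, Y ω, G ω)) ≤
        ∑ t ∈ I, Real.sqrt (P t * Q t) := by
      refine sum_div_le (p := p) (s := s) (fun ω => (X ω, Y ω, G ω))
        (fun t => Real.sqrt (P t * Q t)) (fun t => Real.sqrt_nonneg _) I fun ω hω => ?_
      simp only [hI, mem_product, mem_univ, true_and]
      exact mem_image_of_mem _ hω
    have h2 : ∑ t ∈ I, (Real.sqrt (P t) - Real.sqrt (Q t)) ^ 2 =
        ∑ t ∈ I, P t + ∑ t ∈ I, Q t - 2 * ∑ t ∈ I, Real.sqrt (P t * Q t) := by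
      rw [mul_sum, ← sum_add_distrib, ← sum_sub_distrib]
      refine sum_congr rfl fun t _ => ?_
      rw [Real.sqrt_mul (hP0 t)]
      have a := Real.sq_sqrt (hP0 t)
      have b := Real.sq_sqrt (hQ0 t)
      nlinarith
    have pt : ∀ ω ∈ s, 2 * p ω - 2 * (p ω * (Real.sqrt (P (X ω, Y ω, G ω) * Q (X ω, Y ω, G ω)) /
        mv s p (fun ω => (X ω, Y ω, G ω)) (X ω, Y ω, G ω))) ≤
        p ω * (Real.log (mv s p G (G ω)) - Real.log (mv s p (fun ω => (X ω, G ω)) (X ω, G ω))) -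
        p ω * (Real.log (mv s p (fun ω => (Y ω, G ω)) (Y ω, G ω)) -
          Real.log (mv s p (fun ω => (X ω, (Y ω, G ω))) (X ω, (Y ω, G ω)))) := by
      intro ω hω
      rcases (hp ω hω).eq_or_lt with h | h
      · rw [← h]; simp
      · have a1 : 0 < mv s p (fun ω => (X ω, (Y ω, G ω))) (X ω, (Y ω, G ω)) :=
          h.trans_le (le_mv hp (fun ω => (X ω, (Y ω, G ω))) hω)
        have a2 : 0 < mv s p (fun ω => (Y ω, G ω)) (Y ω, G ω) :=
          h.trans_le (le_mv hp (fun ω => (Y ω, G ω)) hω)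
        have a3 : 0 < mv s p (fun ω => (X ω, G ω)) (X ω, G ω) :=
          h.trans_le (le_mv hp (fun ω => (X ω, G ω)) hω)
        have a4 : 0 < mv s p G (G ω) := h.trans_le (le_mv hp G hω)
        have hPp : 0 < P (X ω, Y ω, G ω) := a1
        have hQp : 0 < Q (X ω, Y ω, G ω) := by
          simp only [hQ]
          positivity
        set A := P (X ω, Y ω, G ω) with hA
        set C := Q (X ω, Y ω, G ω) with hC
        have hr : Real.sqrt (A * C) / A = Real.sqrt (C / A) := by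
          rw [Real.sqrt_div hQp.le, Real.sqrt_mul hPp.le]
          rw [div_eq_div_iff hPp.ne' (Real.sqrt_pos.2 hPp).ne']
          have := Real.mul_self_sqrt hPp.le
          calc Real.sqrt A * Real.sqrt C * Real.sqrt A =
              (Real.sqrt A * Real.sqrt A) * Real.sqrt C := by ring
            _ = A * Real.sqrt C := by rw [this]
            _ = _ := by ring
        have hl := Real.log_le_sub_one_of_pos (Real.sqrt_pos.2 (div_pos hQp hPp))
        rw [Real.log_sqrt (div_pos hQp hPp).le, Real.log_div hQp.ne' hPp.ne'] at hl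
        have hlC : Real.log C = Real.log (mv s p (fun ω => (X ω, G ω)) (X ω, G ω)) +
            Real.log (mv s p (fun ω => (Y ω, G ω)) (Y ω, G ω)) - Real.log (mv s p G (G ω)) := by
          simp only [hC, hQ]
          rw [Real.log_div (by positivity) a4.ne', Real.log_mul a3.ne' a2.ne']
        have hlA : Real.log A = Real.log (mv s p (fun ω => (X ω, (Y ω, G ω))) (X ω, (Y ω, G ω))) :=
          rfl
        rw [hlC, hlA] at hl
        change 2 * p ω - 2 * (p ω * (Real.sqrt (A * C) / A)) ≤ _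
        rw [hr]
        nlinarith [mul_le_mul_of_nonneg_left hl h.le]
    have h3 := sum_le_sum pt
    rw [sum_sub_distrib, sum_sub_distrib, ← mul_sum, ← mul_sum] at h3
    unfold cH
    rw [h2]
    linarith
  have hI0 : 0 ≤ cH s p X G - cH s p X (fun ω => (Y ω, G ω)) :=
    sub_nonneg.2 (cH_cond_le hp X Y G)
  have hab : ∀ t ∈ I, |P t - Q t| = |Real.sqrt (P t) - Real.sqrt (Q t)| *
      (Real.sqrt (P t) + Real.sqrt (Q t)) := by
    intro t _
    have a := Real.sq_sqrt (hP0 t)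
    have b := Real.sq_sqrt (hQ0 t)
    have : P t - Q t = (Real.sqrt (P t) - Real.sqrt (Q t)) *
      (Real.sqrt (P t) + Real.sqrt (Q t)) := by nlinarith
    rw [this, abs_mul, abs_of_nonneg (add_nonneg (Real.sqrt_nonneg _) (Real.sqrt_nonneg _))]
  rw [sum_congr rfl hab]
  refine (Real.sum_mul_le_sqrt_mul_sqrt I _ _).trans ?_
  have h5 : ∑ t ∈ I, |Real.sqrt (P t) - Real.sqrt (Q t)| ^ 2 ≤
      cH s p X G - cH s p X (fun ω => (Y ω, G ω)) := by
    simp_rw [sq_abs]
    exact hInf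
  have h6 : ∑ t ∈ I, (Real.sqrt (P t) + Real.sqrt (Q t)) ^ 2 ≤ 2 ^ 2 := by
    have : ∑ t ∈ I, (Real.sqrt (P t) + Real.sqrt (Q t)) ^ 2 ≤ ∑ t ∈ I, (2 * P t + 2 * Q t) := by
      refine sum_le_sum fun t _ => ?_
      have a := Real.sq_sqrt (hP0 t)
      have b := Real.sq_sqrt (hQ0 t)
      nlinarith [sq_nonneg (Real.sqrt (P t) - Real.sqrt (Q t))]
    rw [sum_add_distrib, ← mul_sum, ← mul_sum, sP] at this
    linarith
  calc Real.sqrt (∑ t ∈ I, |Real.sqrt (P t) - Real.sqrt (Q t)| ^ 2) *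
        Real.sqrt (∑ t ∈ I, (Real.sqrt (P t) + Real.sqrt (Q t)) ^ 2)
      ≤ Real.sqrt (cH s p X G - cH s p X (fun ω => (Y ω, G ω))) * Real.sqrt (2 ^ 2) := by
        gcongr
    _ = _ := by rw [Real.sqrt_sq (by norm_num)]; ring

/-- one level of the digit lemma, in terms of `pdiff` -/
theorem level_pdiff {N : ℕ} [NeZero N] {ι γ : Type*} (hp : ∀ ω ∈ s, 0 ≤ p ω)
    (hp1 : ∑ ω ∈ s, p ω ≤ 1) (V B : Ω → ZMod N) (G : Ω → γ) (κ : ZMod N → ι)
    (hκ : ∀ v v', κ v ≠ κ v' → IsUnit (v - v')) (Good : γ → Finset (ZMod N))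
    (hG : ∀ g, 2 * (Good g).card ≤ N) :
    pdiff s p (fun ω => κ (V ω)) G ≤ 2 * ∑ ω ∈ s with B ω ∉ Good (G ω), p ω +
      4 * N * (Real.sqrt (cH s p V G - cH s p V (fun ω => (B ω, G ω))) +
        Real.sqrt (cH s p V G - cH s p V (fun ω => (V ω + B ω, G ω)))) := by
  set J : γ → ZMod N → ZMod N → ℝ := fun g v β => mv s p (fun ω => (V ω, B ω, G ω)) (v, β, g)
    with hJ
  set u : γ → ZMod N → ℝ := fun g v => mv s p (fun ω => (V ω, G ω)) (v, g) with hu
  set z : γ → ZMod N → ℝ := fun g v => mv s p (fun ω => (B ω, G ω)) (v, g) with hz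
  set w : γ → ZMod N → ℝ := fun g t => mv s p (fun ω => (V ω + B ω, G ω)) (t, g) with hw
  have hJw : ∀ g v t, J g v (t - v) = mv s p (fun ω => (V ω, V ω + B ω, G ω)) (v, t, g) := by
    intro g v t
    simp only [hJ]
    unfold mv
    refine sum_congr ?_ fun _ _ => rfl
    ext ω
    simp only [mem_filter, Prod.ext_iff]
    constructor
    · rintro ⟨h0, h1, h2, h3⟩
      exact ⟨h0, h1, by rw [h1, h2]; ring, h3⟩
    · rintro ⟨h0, h1, h2, h3⟩
      exact ⟨h0, h1, by rw [← h2, h1]; ring, h3⟩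
  have hat : ∀ g, ∑ v, ∑ v', (if κ v ≠ κ v' then u g v * u g v' / mv s p G g else 0) ≤
      2 * ∑ β ∈ (Good g)ᶜ, z g β + 2 * N * (∑ v, ∑ β, |J g v β - u g v * z g β / mv s p G g| +
        ∑ v, ∑ t, |J g v (t - v) - u g v * w g t / mv s p G g|) := fun g =>
    atom_lemma (J g) (fun v β => mv_nonneg hp _ _) (Good g) (hG g) κ hκ (u g) (z g) (w g)
      (mv s p G g) (fun v => sum_mv_snd V B G v g) (fun β => sum_mv_fst V B G β g)
      (sum_mv_one V G g)
  have hpd : pdiff s p (fun ω => κ (V ω)) G =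
      ∑ g ∈ s.image G, ∑ v, ∑ v', (if κ v ≠ κ v' then u g v * u g v' / mv s p G g else 0) := by
    unfold pdiff
    rw [← sum_fiberwise_of_maps_to (g := G) (t := s.image G) (fun ω hω => mem_image_of_mem _ hω)]
    refine sum_congr rfl fun g _ => ?_
    rw [← sum_fiberwise_of_maps_to (g := V) (t := univ) (fun ω _ => mem_univ _)]
    refine sum_congr rfl fun v _ => ?_
    have e1 : ∑ ω ∈ (s.filter fun ω => G ω = g) with V ω = v,
        p ω * (1 - mv s p (fun ω => (κ (V ω), G ω)) (κ (V ω), G ω) / mv s p G (G ω)) =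
        u g v * (1 - mv s p (fun ω => (κ (V ω), G ω)) (κ v, g) / mv s p G g) := by
      simp only [hu]
      unfold mv
      rw [sum_mul]
      refine sum_congr ?_ fun ω hω => ?_
      · ext ω
        simp only [mem_filter, Prod.ext_iff]
        tauto
      · simp only [mem_filter, Prod.ext_iff] at hω
        rw [hω.2.1, hω.2.2]
    rw [e1]
    have hm : mv s p (fun ω => (κ (V ω), G ω)) (κ v, g) =
        ∑ v', (if κ v = κ v' then u g v' else 0) := by
      rw [← sum_mv_one (X := V) (G := fun ω => (κ (V ω), G ω))]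
      refine sum_congr rfl fun v' _ => ?_
      split_ifs with h
      · simp only [hu]
        refine mv_eq_mv _ _ _ _ fun ω _ => ?_
        simp only [Prod.ext_iff]
        constructor
        · rintro ⟨h1, _, h2⟩; exact ⟨h1, h2⟩
        · rintro ⟨h1, h2⟩; exact ⟨h1, by rw [h1, h], h2⟩
      · refine mv_eq_zero _ _ fun ω _ hω => ?_
        simp only [Prod.ext_iff] at hω
        exact h (by rw [← hω.2.1, hω.1])
    have hsum : mv s p G g = ∑ v', u g v' := (sum_mv_one V G g).symm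
    rcases (mv_nonneg hp G g).eq_or_lt with h0 | h0
    · have hu0 : u g v = 0 := by
        have : u g v ≤ ∑ v', u g v' := single_le_sum (f := u g) (fun v' _ => mv_nonneg hp _ _) (mem_univ v)
        rw [← hsum, ← h0] at this
        exact le_antisymm this (mv_nonneg hp _ _)
      rw [hu0, zero_mul]
      symm
      refine sum_eq_zero fun v' _ => ?_
      split_ifs <;> simp
    · have e2 : ∀ v', (if κ v ≠ κ v' then u g v * u g v' / mv s p G g else 0) =
          u g v * ((u g v' - (if κ v = κ v' then u g v' else 0)) / mv s p G g) := by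
        intro v'
        by_cases h : κ v = κ v'
        · simp [h]
        · simp [h]; ring
      simp_rw [e2]
      rw [← mul_sum, ← sum_div, sum_sub_distrib, ← hsum, hm, sub_div, div_self h0.ne']
  have hbad : ∑ g ∈ s.image G, ∑ β ∈ (Good g)ᶜ, z g β = ∑ ω ∈ s with B ω ∉ Good (G ω), p ω := by
    rw [← sum_fiberwise_of_maps_to (g := G) (s := s.filter fun ω => B ω ∉ Good (G ω))
      (t := s.image G) (fun ω hω => mem_image_of_mem _ (mem_filter.1 hω).1)]
    refine sum_congr rfl fun g _ => ?_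
    rw [← sum_fiberwise_of_maps_to (g := B)
      (s := (s.filter fun ω => B ω ∉ Good (G ω)).filter fun ω => G ω = g) (t := (Good g)ᶜ) (by
        intro ω hω
        simp only [mem_filter] at hω
        rw [mem_compl, ← hω.2]
        exact hω.1.2)]
    refine sum_congr rfl fun β hβ => ?_
    simp only [hz]
    unfold mv
    refine sum_congr ?_ fun _ _ => rfl
    ext ω
    simp only [mem_filter, Prod.ext_iff, mem_compl] at hβ ⊢
    constructor
    · rintro ⟨h0, h1, h2⟩
      exact ⟨⟨⟨h0, by rw [h1, h2]; exact hβ⟩, h2⟩, h1⟩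
    · rintro ⟨⟨⟨h0, _⟩, h2⟩, h3⟩
      exact ⟨h0, h3, h2⟩
  have hD1 := pinsker hp hp1 V B G
  have hD2 := pinsker hp hp1 V (fun ω => V ω + B ω) G
  rw [hpd]
  refine (sum_le_sum fun g _ => hat g).trans ?_
  rw [sum_add_distrib, ← mul_sum, hbad, ← mul_sum, sum_add_distrib]
  simp_rw [hJw]
  have hN : (0 : ℝ) ≤ N := by positivity
  have := mul_le_mul_of_nonneg_left (add_le_add hD1 hD2) (show (0 : ℝ) ≤ 2 * N by positivity)
  simp only [hJ, hu, hz, hw] at this ⊢
  linarith

end Pool.Agent.Collatz3
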