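import Pool.Agent.Collatz3.DigitB

set_option autoImplicit false

/-!
The digit lemma: a random variable `U` with values in `[0, 3 ^ k)` which is almost independent both of
`b` and of `U + b` given `c`, where `b` has good blocks of digits with high probability, has small
conditional entropy.
-/

open Finset Real
open scoped Classical

namespace Pool.Agent.Collatz3

section digits

theorem split_dvd (x y : ℤ) (l d : ℕ) (h : x % 3 ^ l = y % 3 ^ l) :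
    x % 3 ^ (l + d) = y % 3 ^ (l + d) ↔ x / 3 ^ l % 3 ^ d = y / 3 ^ l % 3 ^ d := by
  have h3 : (0 : ℤ) < 3 ^ l := by positivity
  have hx := Int.emod_add_mul_ediv x (3 ^ l)
  have hy := Int.emod_add_mul_ediv y (3 ^ l)
  rw [Int.emod_eq_emod_iff_emod_sub_eq_zero, Int.emod_eq_emod_iff_emod_sub_eq_zero,
    ← Int.dvd_iff_emod_eq_zero, ← Int.dvd_iff_emod_eq_zero]
  have : x - y = 3 ^ l * (x / 3 ^ l - y / 3 ^ l) := by
    rw [mul_sub]; linarith
  rw [this, pow_add]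
  exact mul_dvd_mul_iff_left h3.ne'

theorem split_mod (x y : ℤ) (l d : ℕ) :
    x % 3 ^ (l + d) = y % 3 ^ (l + d) ↔
      x % 3 ^ l = y % 3 ^ l ∧ x / 3 ^ l % 3 ^ d = y / 3 ^ l % 3 ^ d := by
  constructor
  · intro h
    have h0 : x % 3 ^ l = y % 3 ^ l := by
      have hd : (3 : ℤ) ^ l ∣ 3 ^ (l + d) := pow_dvd_pow 3 (Nat.le_add_right l d)
      rw [← Int.emod_emod_of_dvd x hd, h, Int.emod_emod_of_dvd y hd]
    exact ⟨h0, (split_dvd x y l d h0).1 h⟩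
  · rintro ⟨h0, h1⟩
    exact (split_dvd x y l d h0).2 h1

theorem mod_mono (x y : ℤ) {l l' : ℕ} (hl : l ≤ l') (h : x % 3 ^ l' = y % 3 ^ l') :
    x % 3 ^ l = y % 3 ^ l := by
  obtain ⟨d, rfl⟩ := Nat.exists_eq_add_of_le hl
  exact ((split_mod x y l d).1 h).1

theorem zmod_eq (x y : ℤ) (d : ℕ) :
    (x : ZMod (3 ^ d)) = (y : ZMod (3 ^ d)) ↔ x % 3 ^ d = y % 3 ^ d := by
  rw [ZMod.intCast_eq_intCast_iff]
  unfold Int.ModEq
  push_cast
  rfl

theorem add_mod_iff (x y x' y' : ℤ) (n : ℤ) (h : x % n = x' % n) :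
    (x + y) % n = (x' + y') % n ↔ y % n = y' % n := by
  constructor
  · intro h1
    exact Int.ModEq.add_left_cancel h h1
  · intro h1
    exact Int.ModEq.add h h1

theorem carry (x y x' y' : ℤ) (l d : ℕ) (h : x % 3 ^ l = x' % 3 ^ l) (h' : y % 3 ^ l = y' % 3 ^ l)
    (h2 : (x + y) % 3 ^ (l + d) = (x' + y') % 3 ^ (l + d)) :
    (x / 3 ^ l + y / 3 ^ l) % 3 ^ d = (x' / 3 ^ l + y' / 3 ^ l) % 3 ^ d := by
  have h3 : (0 : ℤ) < 3 ^ l := by positivity
  have hx := Int.emod_add_mul_ediv x (3 ^ l)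
  have hy := Int.emod_add_mul_ediv y (3 ^ l)
  have hx' := Int.emod_add_mul_ediv x' (3 ^ l)
  have hy' := Int.emod_add_mul_ediv y' (3 ^ l)
  rw [Int.emod_eq_emod_iff_emod_sub_eq_zero, ← Int.dvd_iff_emod_eq_zero] at h2 ⊢
  have : x + y - (x' + y') = 3 ^ l * (x / 3 ^ l + y / 3 ^ l - (x' / 3 ^ l + y' / 3 ^ l)) := by
    rw [mul_sub, mul_add, mul_add]; linarith
  rw [this, pow_add] at h2
  exact (mul_dvd_mul_iff_left h3.ne').1 h2

theorem isUnit_of_ne {d : ℕ} (hd : d ≠ 0) (v v' : ZMod (3 ^ d))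
    (h : ZMod.castHom (dvd_pow_self 3 hd) (ZMod 3) v ≠
      ZMod.castHom (dvd_pow_self 3 hd) (ZMod 3) v') : IsUnit (v - v') := by
  have h1 : ZMod.castHom (dvd_pow_self 3 hd) (ZMod 3) (v - v') ≠ 0 := by
    rw [map_sub]
    exact sub_ne_zero.2 h
  have : NeZero (3 ^ d) := ⟨by positivity⟩
  rw [← ZMod.natCast_zmod_val (v - v')] at h1 ⊢
  rw [ZMod.isUnit_iff_coprime]
  refine Nat.Coprime.pow_right d ?_
  rw [Nat.coprime_comm, Nat.Prime.coprime_iff_not_dvd Nat.prime_three]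
  intro h2
  rw [map_natCast] at h1
  exact h1 ((ZMod.natCast_eq_zero_iff _ _).2 h2)

end digits

section entropy

variable {Ω : Type*} {s : Finset Ω} {p : Ω → ℝ}

theorem cH_split {α β τ : Type*} (U : Ω → α) (V : Ω → β) (Y : Ω → τ)
    (hV : ∀ ω ∈ s, ∀ ω' ∈ s, U ω = U ω' → V ω = V ω') :
    cH s p U Y = cH s p V Y + cH s p U (fun ω => (V ω, Y ω)) := by
  rw [← cH_chain]
  refine cH_congr _ _ _ _ (fun _ _ _ _ _ _ => Iff.rfl) fun ω h1 _ ω' h3 _ => ?_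
  simp only [Prod.ext_iff]
  exact ⟨fun a => ⟨⟨hV ω h1 ω' h3 a.1, a.1⟩, a.2⟩, fun a => ⟨a.1.2, a.2⟩⟩

/-- data processing -/
theorem mi_dp {α β γ δ ε : Type*} (hp : ∀ ω ∈ s, 0 ≤ p ω) (U : Ω → α) (V : Ω → β) (G : Ω → γ)
    (B' : Ω → δ) (B'' : Ω → ε) (hV : ∀ ω ∈ s, ∀ ω' ∈ s, U ω = U ω' → V ω = V ω')
    (hB : ∀ ω ∈ s, ∀ ω' ∈ s, B'' ω = B'' ω' → G ω = G ω' → B' ω = B' ω') :
    cH s p V G - cH s p V (fun ω => (B' ω, G ω)) ≤
      cH s p U G - cH s p U (fun ω => (B'' ω, G ω)) := by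
  have h1 := cH_split (p := p) U V G hV
  have h2 := cH_split (p := p) U V (fun ω => (B' ω, G ω)) hV
  have h3 : cH s p U (fun ω => (V ω, (B' ω, G ω))) ≤ cH s p U (fun ω => (V ω, G ω)) := by
    refine cH_anti hp _ _ _ fun ω _ _ ω' _ _ h => ?_
    simp only [Prod.ext_iff] at h ⊢
    exact ⟨h.1, h.2.2⟩
  have h4 : cH s p U (fun ω => (B'' ω, G ω)) ≤ cH s p U (fun ω => (B' ω, G ω)) := by
    refine cH_anti hp _ _ _ fun ω k1 _ ω' k2 _ h => ?_
    simp only [Prod.ext_iff] at h ⊢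
    exact ⟨hB ω k1 ω' k2 h.1 h.2, h.2⟩
  linarith

theorem level_J {γ : Type*} (hp : ∀ ω ∈ s, 0 ≤ p ω) (U b : Ω → ℤ) (c : Ω → γ) (l d : ℕ) :
    cH s p U (fun ω => (U ω % 3 ^ l, b ω % 3 ^ l, c ω)) -
      cH s p U (fun ω => (b ω % 3 ^ (l + d), (U ω % 3 ^ l, b ω % 3 ^ l, c ω))) ≤
    cH s p U (fun ω => (b ω % 3 ^ l, c ω)) - cH s p U (fun ω => (b ω % 3 ^ (l + d), c ω)) := by
  have hV : ∀ ω ∈ s, ∀ ω' ∈ s, U ω = U ω' → U ω % 3 ^ l = U ω' % 3 ^ l :=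
    fun ω _ ω' _ h => by rw [h]
  have h1 := cH_split (p := p) U (fun ω => U ω % 3 ^ l) (fun ω => (b ω % 3 ^ l, c ω)) hV
  have h2 := cH_split (p := p) U (fun ω => U ω % 3 ^ l) (fun ω => (b ω % 3 ^ (l + d), c ω)) hV
  have h3 : cH s p (fun ω => U ω % 3 ^ l) (fun ω => (b ω % 3 ^ (l + d), c ω)) ≤
      cH s p (fun ω => U ω % 3 ^ l) (fun ω => (b ω % 3 ^ l, c ω)) := by
    refine cH_anti hp _ _ _ fun ω _ _ ω' _ _ h => ?_
    simp only [Prod.ext_iff] at h ⊢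
    exact ⟨mod_mono _ _ (Nat.le_add_right l d) h.1, h.2⟩
  have h4 : cH s p U (fun ω => (U ω % 3 ^ l, (b ω % 3 ^ (l + d), c ω))) =
      cH s p U (fun ω => (b ω % 3 ^ (l + d), (U ω % 3 ^ l, b ω % 3 ^ l, c ω))) := by
    refine cH_congr _ _ _ _ (fun ω _ _ ω' _ _ => ?_) fun ω _ _ ω' _ _ => ?_
    · simp only [Prod.ext_iff]
      constructor
      · rintro ⟨h1, h2, h3⟩
        exact ⟨h2, h1, mod_mono _ _ (Nat.le_add_right l d) h2, h3⟩
      · rintro ⟨h1, h2, h3, h4⟩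
        exact ⟨h2, h1, h4⟩
    · simp only [Prod.ext_iff]
      constructor
      · rintro ⟨h0, h1, h2, h3⟩
        exact ⟨h0, h2, h1, mod_mono _ _ (Nat.le_add_right l d) h2, h3⟩
      · rintro ⟨h0, h1, h2, h3, h4⟩
        exact ⟨h0, h2, h1, h4⟩
  linarith

theorem level_I {γ : Type*} (hp : ∀ ω ∈ s, 0 ≤ p ω) (U b : Ω → ℤ) (c : Ω → γ) (l d : ℕ) :
    cH s p U (fun ω => (U ω % 3 ^ l, b ω % 3 ^ l, c ω)) -
      cH s p U (fun ω => ((U ω + b ω) % 3 ^ (l + d), (U ω % 3 ^ l, b ω % 3 ^ l, c ω))) ≤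
    cH s p U (fun ω => ((U ω + b ω) % 3 ^ l, c ω)) -
      cH s p U (fun ω => ((U ω + b ω) % 3 ^ (l + d), c ω)) := by
  have h := level_J hp U (fun ω => U ω + b ω) c l d
  have h1 : cH s p U (fun ω => (U ω % 3 ^ l, (U ω + b ω) % 3 ^ l, c ω)) =
      cH s p U (fun ω => (U ω % 3 ^ l, b ω % 3 ^ l, c ω)) := by
    refine cH_congr _ _ _ _ (fun ω _ _ ω' _ _ => ?_) fun ω _ _ ω' _ _ => ?_
    · simp only [Prod.ext_iff]
      constructor
      · rintro ⟨h1, h2, h3⟩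
        exact ⟨h1, (add_mod_iff _ _ _ _ _ h1).1 h2, h3⟩
      · rintro ⟨h1, h2, h3⟩
        exact ⟨h1, (add_mod_iff _ _ _ _ _ h1).2 h2, h3⟩
    · simp only [Prod.ext_iff]
      constructor
      · rintro ⟨h0, h1, h2, h3⟩
        exact ⟨h0, h1, (add_mod_iff _ _ _ _ _ h1).1 h2, h3⟩
      · rintro ⟨h0, h1, h2, h3⟩
        exact ⟨h0, h1, (add_mod_iff _ _ _ _ _ h1).2 h2, h3⟩
  have h2 : cH s p U (fun ω => ((U ω + b ω) % 3 ^ (l + d),
        (U ω % 3 ^ l, (U ω + b ω) % 3 ^ l, c ω))) =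
      cH s p U (fun ω => ((U ω + b ω) % 3 ^ (l + d), (U ω % 3 ^ l, b ω % 3 ^ l, c ω))) := by
    refine cH_congr _ _ _ _ (fun ω _ _ ω' _ _ => ?_) fun ω _ _ ω' _ _ => ?_
    · simp only [Prod.ext_iff]
      constructor
      · rintro ⟨h0, h1, h2, h3⟩
        exact ⟨h0, h1, (add_mod_iff _ _ _ _ _ h1).1 h2, h3⟩
      · rintro ⟨h0, h1, h2, h3⟩
        exact ⟨h0, h1, (add_mod_iff _ _ _ _ _ h1).2 h2, h3⟩
    · simp only [Prod.ext_iff]
      constructor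
      · rintro ⟨h9, h0, h1, h2, h3⟩
        exact ⟨h9, h0, h1, (add_mod_iff _ _ _ _ _ h1).1 h2, h3⟩
      · rintro ⟨h9, h0, h1, h2, h3⟩
        exact ⟨h9, h0, h1, (add_mod_iff _ _ _ _ _ h1).2 h2, h3⟩
  linarith

/-- telescoping over the digits of `U` -/
theorem tele_U {γ : Type*} (hp : ∀ ω ∈ s, 0 ≤ p ω) (k : ℕ) (U b : Ω → ℤ) (c : Ω → γ)
    (hU : ∀ ω ∈ s, 0 ≤ U ω ∧ U ω < 3 ^ k) :
    cH s p U (fun ω => (b ω % 3 ^ k, c ω)) ≤ ∑ l ∈ range k,
      cH s p (fun ω => U ω % 3 ^ (l + 1)) (fun ω => (U ω % 3 ^ l, b ω % 3 ^ l, c ω)) := by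
  have step : ∀ j, j ≤ k → cH s p U (fun ω => (b ω % 3 ^ k, c ω)) ≤
      ∑ l ∈ range j,
        cH s p (fun ω => U ω % 3 ^ (l + 1)) (fun ω => (U ω % 3 ^ l, b ω % 3 ^ l, c ω)) +
      cH s p U (fun ω => (U ω % 3 ^ j, (b ω % 3 ^ k, c ω))) := by
    intro j
    induction j with
    | zero =>
      intro _
      rw [range_zero, sum_empty, zero_add]
      refine cH_anti hp _ _ _ fun ω _ _ ω' _ _ h => ?_
      simp only [pow_zero, Int.emod_one, Prod.ext_iff] at h ⊢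
      exact ⟨trivial, h⟩
    | succ j ih =>
      intro hj
      refine (ih (by omega)).trans ?_
      rw [sum_range_succ]
      have h1 : cH s p U (fun ω => (U ω % 3 ^ j, (b ω % 3 ^ k, c ω))) ≤
          cH s p (fun ω => U ω % 3 ^ (j + 1)) (fun ω => (U ω % 3 ^ j, (b ω % 3 ^ k, c ω))) +
          cH s p U (fun ω => (U ω % 3 ^ (j + 1), (U ω % 3 ^ j, (b ω % 3 ^ k, c ω)))) :=
        cH_triangle hp _ _ _
      have h2 : cH s p (fun ω => U ω % 3 ^ (j + 1)) (fun ω => (U ω % 3 ^ j, (b ω % 3 ^ k, c ω))) ≤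
          cH s p (fun ω => U ω % 3 ^ (j + 1)) (fun ω => (U ω % 3 ^ j, b ω % 3 ^ j, c ω)) := by
        refine cH_anti hp _ _ _ fun ω _ _ ω' _ _ h => ?_
        simp only [Prod.ext_iff] at h ⊢
        exact ⟨h.1, mod_mono _ _ (by omega) h.2.1, h.2.2⟩
      have h3 : cH s p U (fun ω => (U ω % 3 ^ (j + 1), (U ω % 3 ^ j, (b ω % 3 ^ k, c ω)))) ≤
          cH s p U (fun ω => (U ω % 3 ^ (j + 1), (b ω % 3 ^ k, c ω))) := by
        refine cH_anti hp _ _ _ fun ω _ _ ω' _ _ h => ?_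
        simp only [Prod.ext_iff] at h ⊢
        exact ⟨h.1, h.2.2⟩
      linarith
  have h0 : cH s p U (fun ω => (U ω % 3 ^ k, (b ω % 3 ^ k, c ω))) = 0 := by
    refine cH_eq_zero _ _ fun ω h1 ω' h2 h => ?_
    simp only [Prod.ext_iff] at h
    have a := hU ω h1
    have b := hU ω' h2
    rw [Int.emod_eq_of_lt a.1 a.2, Int.emod_eq_of_lt b.1 b.2] at h
    exact h.1
  have := step k le_rfl
  rw [h0, add_zero] at this
  exact this

theorem shift_sum (f : ℕ → ℝ) (k D : ℕ) (F : ℝ) (hf : ∀ l, 0 ≤ f l) (hF : ∀ l ≤ k + D, f l ≤ F) :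
    ∀ d ≤ D, ∑ l ∈ range k, (f (l + d) - f l) ≤ d * F := by
  intro d
  induction d with
  | zero => intro _; simp
  | succ d ih =>
    intro hd
    have h1 : ∑ l ∈ range k, (f (l + (d + 1)) - f l) =
        ∑ l ∈ range k, (f (l + 1 + d) - f (l + d)) + ∑ l ∈ range k, (f (l + d) - f l) := by
      rw [← sum_add_distrib]
      refine sum_congr rfl fun l _ => ?_
      rw [show l + 1 + d = l + (d + 1) by ring]
      ring
    have h2 : ∑ l ∈ range k, (f (l + 1 + d) - f (l + d)) = f (k + d) - f (0 + d) :=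
      sum_range_sub (fun l => f (l + d)) k
    rw [h1, h2]
    have := ih (by omega)
    have := hF (k + d) (by omega)
    have := hf (0 + d)
    push_cast
    linarith

/-- the elementary inequality of one level -/
theorem am_gm_level (e1 N m δ I J x h M : ℝ) (he1 : 0 < e1) (hN : 0 ≤ N) (hI : 0 ≤ I) (hJ : 0 ≤ J)
    (hM1 : M ≤ 1) (hδ : 0 ≤ δ) (hm : m ≤ δ)
    (hx : x ≤ 2 * m + 4 * N * (Real.sqrt J + Real.sqrt I))
    (hh : h ≤ 2 * (Real.sqrt (3 * M) * Real.sqrt x)) :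
    h ≤ e1 + 12 / e1 * δ + (24 * N / e1) ^ 2 / e1 * (I + J) := by
  set X : ℝ := 2 * δ + 4 * N * (Real.sqrt J + Real.sqrt I) with hX
  have hxX : x ≤ X := by linarith
  have h1 : Real.sqrt (3 * M) * Real.sqrt x ≤ Real.sqrt 3 * Real.sqrt X := by
    apply mul_le_mul (Real.sqrt_le_sqrt (by linarith)) (Real.sqrt_le_sqrt hxX)
      (Real.sqrt_nonneg _) (Real.sqrt_nonneg _)
  -- `a √t ≤ e1 / 4 + a ^ 2 / e1 t`
  have am : ∀ (a c t : ℝ), 0 ≤ a → 0 < c → 0 ≤ t → a * Real.sqrt t ≤ c + a ^ 2 / (4 * c) * t := by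
    intro a c t ha hc ht
    have h2 := Real.sq_sqrt ht
    have h3 : 0 ≤ (c - a / 2 * Real.sqrt t) ^ 2 := sq_nonneg _
    have h4 : (c - a / 2 * Real.sqrt t) ^ 2 = c ^ 2 - a * c * Real.sqrt t + a ^ 2 / 4 * t := by
      rw [show (c - a / 2 * Real.sqrt t) ^ 2 =
        c ^ 2 - a * c * Real.sqrt t + a ^ 2 / 4 * (Real.sqrt t) ^ 2 by ring, h2]
    rw [h4] at h3
    have h5 : c * (a * Real.sqrt t) ≤ c * (c + a ^ 2 / (4 * c) * t) := by
      have : c * (c + a ^ 2 / (4 * c) * t) = c ^ 2 + a ^ 2 / 4 * t := by field_simp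
      rw [this]
      linarith
    exact le_of_mul_le_mul_left h5 hc
  have hX0 : 0 ≤ X := by positivity
  · have h2 := am (2 * Real.sqrt 3) (e1 / 2) X (by positivity) (by positivity) hX0
    have h3 : (2 * Real.sqrt 3) ^ 2 / (4 * (e1 / 2)) = 6 / e1 := by
      rw [mul_pow, Real.sq_sqrt (by norm_num)]
      field_simp
      norm_num
    rw [h3] at h2
    have hJ' := am (24 * N / e1) (e1 / 4) J (by positivity) (by positivity) hJ
    have hI' := am (24 * N / e1) (e1 / 4) I (by positivity) (by positivity) hI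
    have h4 : 6 / e1 * X = 12 / e1 * δ + (24 * N / e1 * Real.sqrt J + 24 * N / e1 * Real.sqrt I) := by
      rw [hX]; ring
    have h5 : (24 * N / e1) ^ 2 / (4 * (e1 / 4)) = (24 * N / e1) ^ 2 / e1 := by
      congr 1; ring
    rw [h5] at hJ' hI'
    nlinarith

/-- one level of the digit lemma -/
theorem level_digit {γ : Type*} (hp : ∀ ω ∈ s, 0 ≤ p ω) (hp1 : ∑ ω ∈ s, p ω ≤ 1) (e1 : ℝ)
    (he1 : 0 < e1) (U b : Ω → ℤ) (c : Ω → γ) (good : ℕ → ℤ → Set ℤ) (l d : ℕ) (hd : d ≠ 0)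
    (hgood : ∀ l x,
      2 * ((range (3 ^ d)).filter fun u : ℕ => (u : ℤ) ∈ good l x).card ≤ 3 ^ d)
    (δ : ℝ) (hδ : ∑ ω ∈ s with (b ω / 3 ^ l % 3 ^ d) ∉ good l (b ω % 3 ^ l), p ω ≤ δ) :
    cH s p (fun ω => U ω % 3 ^ (l + 1)) (fun ω => (U ω % 3 ^ l, b ω % 3 ^ l, c ω)) ≤
      e1 + 12 / e1 * δ + (24 * (3 : ℝ) ^ d / e1) ^ 2 / e1 *
        ((cH s p U (fun ω => ((U ω + b ω) % 3 ^ l, c ω)) -
          cH s p U (fun ω => ((U ω + b ω) % 3 ^ (l + d), c ω))) +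
        (cH s p U (fun ω => (b ω % 3 ^ l, c ω)) -
          cH s p U (fun ω => (b ω % 3 ^ (l + d), c ω)))) := by
  have hne : NeZero (3 ^ d) := ⟨by positivity⟩
  set G : Ω → ℤ × ℤ × γ := fun ω => (U ω % 3 ^ l, b ω % 3 ^ l, c ω) with hG
  set V : Ω → ZMod (3 ^ d) := fun ω => ((U ω / 3 ^ l : ℤ) : ZMod (3 ^ d)) with hV
  set B : Ω → ZMod (3 ^ d) := fun ω => ((b ω / 3 ^ l : ℤ) : ZMod (3 ^ d)) with hB
  set κ : ZMod (3 ^ d) → ZMod 3 := fun v => ZMod.castHom (dvd_pow_self 3 hd) (ZMod 3) v with hκ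
  set Good : ℤ × ℤ × γ → Finset (ZMod (3 ^ d)) := fun g =>
    univ.filter fun β => ((β.val : ℕ) : ℤ) ∈ good l g.2.1 with hGood
  have hGc : ∀ g, 2 * (Good g).card ≤ 3 ^ d := by
    intro g
    refine le_trans (Nat.mul_le_mul_left 2 ?_) (hgood l g.2.1)
    rw [← card_image_of_injective (Good g) (ZMod.val_injective (3 ^ d))]
    refine card_le_card fun x hx => ?_
    obtain ⟨β, hβ, rfl⟩ := mem_image.1 hx
    rw [mem_filter]
    exact ⟨mem_range.2 (ZMod.val_lt β), (mem_filter.1 hβ).2⟩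
  have key := level_pdiff hp hp1 V B G κ (fun v v' h => isUnit_of_ne hd v v' h) Good hGc
  have hbad : ∑ ω ∈ s with B ω ∉ Good (G ω), p ω ≤ δ := by
    refine le_trans (le_of_eq ?_) hδ
    refine sum_congr ?_ fun _ _ => rfl
    ext ω
    simp only [mem_filter, hGood, hG, hB, mem_univ, true_and, ZMod.val_intCast]
    push_cast
    rfl
  have hδ0 : 0 ≤ δ := le_trans (sum_nonneg fun ω hω => hp ω (mem_filter.1 hω).1) hδ
  have e0 : cH s p (fun ω => U ω % 3 ^ (l + 1)) G = cH s p (fun ω => κ (V ω)) G := by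
    have hk : ∀ ω, κ (V ω) = ((U ω / 3 ^ l : ℤ) : ZMod (3 ^ 1)) := by
      intro ω
      simp only [hκ, hV, map_intCast]
    refine cH_congr _ _ _ _ (fun _ _ _ _ _ _ => Iff.rfl) fun ω _ _ ω' _ _ => ?_
    rw [hk, hk, zmod_eq]
    simp only [hG, Prod.ext_iff]
    constructor
    · rintro ⟨h1, h2⟩
      exact ⟨(split_dvd _ _ l 1 h2.1).1 h1, h2⟩
    · rintro ⟨h1, h2⟩
      exact ⟨(split_dvd _ _ l 1 h2.1).2 h1, h2⟩
  have hc : cH s p (fun ω => κ (V ω)) G ≤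
      2 * (Real.sqrt ((3 : ℕ) * ∑ ω ∈ s, p ω) * Real.sqrt (pdiff s p (fun ω => κ (V ω)) G)) :=
    cH_le_pdiff hp _ _ 3 fun y => ⟨univ, by simp, fun ω _ _ => mem_univ _⟩
  have hVf : ∀ ω ∈ s, ∀ ω' ∈ s, U ω = U ω' → V ω = V ω' := fun ω _ ω' _ h => by
    simp only [hV, h]
  have hJ1 : cH s p V G - cH s p V (fun ω => (B ω, G ω)) ≤
      cH s p U (fun ω => (b ω % 3 ^ l, c ω)) - cH s p U (fun ω => (b ω % 3 ^ (l + d), c ω)) := by
    refine le_trans (mi_dp hp U V G B (fun ω => b ω % 3 ^ (l + d)) hVf ?_) (level_J hp U b c l d)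
    intro ω _ ω' _ h1 h2
    simp only [hG, Prod.ext_iff] at h2
    simp only [hB]
    rw [zmod_eq]
    exact (split_dvd _ _ l d h2.2.1).1 h1
  have hI1 : cH s p V G - cH s p V (fun ω => (V ω + B ω, G ω)) ≤
      cH s p U (fun ω => ((U ω + b ω) % 3 ^ l, c ω)) -
        cH s p U (fun ω => ((U ω + b ω) % 3 ^ (l + d), c ω)) := by
    refine le_trans (mi_dp hp U V G (fun ω => V ω + B ω) (fun ω => (U ω + b ω) % 3 ^ (l + d))
      hVf ?_) (level_I hp U b c l d)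
    intro ω _ ω' _ h1 h2
    simp only [hG, Prod.ext_iff] at h2
    simp only [hB, hV]
    rw [← Int.cast_add, ← Int.cast_add, zmod_eq]
    exact carry _ _ _ _ l d h2.1 h2.2.1 h1
  have hJ0 : 0 ≤ cH s p U (fun ω => (b ω % 3 ^ l, c ω)) -
      cH s p U (fun ω => (b ω % 3 ^ (l + d), c ω)) :=
    le_trans (sub_nonneg.2 (cH_cond_le hp V B G)) hJ1
  have hI0 : 0 ≤ cH s p U (fun ω => ((U ω + b ω) % 3 ^ l, c ω)) -
        cH s p U (fun ω => ((U ω + b ω) % 3 ^ (l + d), c ω)) :=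
    le_trans (sub_nonneg.2 (cH_cond_le hp V (fun ω => V ω + B ω) G)) hI1
  rw [e0]
  refine am_gm_level e1 (3 ^ d) (∑ ω ∈ s with B ω ∉ Good (G ω), p ω) δ _ _
    (pdiff s p (fun ω => κ (V ω)) G) _ (∑ ω ∈ s, p ω) he1 (by positivity) hI0 hJ0 hp1 hδ0
    hbad ?_ (by exact_mod_cast hc)
  refine key.trans ?_
  have h1 := Real.sqrt_le_sqrt hJ1
  have h2 := Real.sqrt_le_sqrt hI1
  have h3 : (0 : ℝ) ≤ 4 * 3 ^ d := by positivity
  push_cast
  nlinarith [mul_le_mul_of_nonneg_left (add_le_add h1 h2) h3]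

theorem digit_zero {γ : Type*} (hp : ∀ ω ∈ s, 0 ≤ p ω)
    (k : ℕ) (U : Ω → ℤ) (c : Ω → γ) (hU : ∀ ω ∈ s, 0 ≤ U ω ∧ U ω < 3 ^ k) :
    cH s p U c ≤ (∑ ω ∈ s, p ω) * (k * Real.log 3) := by
  have h := cH_le_log' hp U c (Finset.Ico (0 : ℤ) (3 ^ k)) (3 ^ k) (by positivity)
    (fun ω hω => Finset.mem_Ico.2 (hU ω hω)) (by simp)
  rw [Nat.cast_pow, Real.log_pow] at h
  exact_mod_cast h

end entropy

/-- **The digit lemma.** -/
theorem digit_lemma (e1 : ℝ) (he1 : 0 < e1) : ∃ K1 : ℝ, 0 ≤ K1 ∧ ∀ d : ℕ, ∃ K2 : ℝ, 0 ≤ K2 ∧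
  ∀ {Ω γ : Type} (s : Finset Ω) (p : Ω → ℝ) (_ : ∀ ω ∈ s, 0 ≤ p ω) (_ : ∑ ω ∈ s, p ω ≤ 1)
    (k : ℕ) (U b : Ω → ℤ) (c : Ω → γ) (_ : ∀ ω ∈ s, 0 ≤ U ω ∧ U ω < 3 ^ k)
    (good : ℕ → ℤ → Set ℤ)
    (_ : ∀ l x, 2 * ((Finset.range (3 ^ d)).filter fun u : ℕ => (u : ℤ) ∈ good l x).card ≤ 3 ^ d)
    (δ : ℝ) (_ : ∀ l < k, ∑ ω ∈ s with (b ω / 3 ^ l % 3 ^ d) ∉ good l (b ω % 3 ^ l), p ω ≤ δ),
    cH s p U c ≤ k * (e1 + K1 * δ)
      + K2 * ((cH s p U c - cH s p U (fun ω => (b ω % 3 ^ (k + d), c ω)))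
            + (cH s p U c - cH s p U (fun ω => ((U ω + b ω) % 3 ^ (k + d), c ω)))) := by
  refine ⟨12 / e1 + 2, by positivity, fun d => ?_⟩
  rcases Nat.eq_zero_or_pos d with hd | hd
  · subst hd
    refine ⟨0, le_rfl, ?_⟩
    intro Ω γ s p hp hp1 k U b c hU good hgood δ hδ
    rw [zero_mul, add_zero]
    refine (digit_zero hp k U c hU).trans ?_
    rcases Nat.eq_zero_or_pos k with hk | hk
    · subst hk; simp
    · have h1 : ∑ ω ∈ s, p ω ≤ δ := by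
        refine le_trans (le_of_eq ?_) (hδ 0 hk)
        refine sum_congr ?_ fun _ _ => rfl
        ext ω
        rw [mem_filter]
        refine ⟨fun h => ⟨h, ?_⟩, fun h => h.1⟩
        have hg := hgood 0 (b ω % 3 ^ 0)
        intro hcon
        have : 0 ∈ (range (3 ^ 0)).filter fun u : ℕ => (u : ℤ) ∈ good 0 (b ω % 3 ^ 0) := by
          rw [mem_filter]
          refine ⟨by simp, ?_⟩
          have e : b ω / 3 ^ 0 % 3 ^ 0 = ((0 : ℕ) : ℤ) := by simp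
          rw [← e]
          exact hcon
        have h2 := card_pos.2 ⟨0, this⟩
        rw [pow_zero] at hg h2
        omega
      have h0 : 0 ≤ ∑ ω ∈ s, p ω := sum_nonneg hp
      have hl : Real.log 3 ≤ 2 := by
        have := Real.log_le_sub_one_of_pos (show (0 : ℝ) < 3 by norm_num)
        linarith
      have hl0 : 0 ≤ Real.log 3 := Real.log_nonneg (by norm_num)
      have hk0 : (0 : ℝ) ≤ k := by positivity
      have h12 : 0 ≤ 12 / e1 := by positivity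
      calc (∑ ω ∈ s, p ω) * (k * Real.log 3) ≤ δ * (k * 2) :=
            mul_le_mul h1 (mul_le_mul_of_nonneg_left hl hk0) (by positivity) (h0.trans h1)
        _ = k * (2 * δ) := by ring
        _ ≤ k * (e1 + (12 / e1 + 2) * δ) := by
            refine mul_le_mul_of_nonneg_left ?_ hk0
            have := mul_nonneg h12 (h0.trans h1)
            nlinarith
  · refine ⟨1 + (24 * (3 : ℝ) ^ d / e1) ^ 2 / e1 * d, by positivity, ?_⟩
    intro Ω γ s p hp hp1 k U b c hU good hgood δ hδ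
    set C : ℝ := (24 * (3 : ℝ) ^ d / e1) ^ 2 / e1 with hC
    have hC0 : 0 ≤ C := by positivity
    set f : ℕ → ℝ := fun l => cH s p U c - cH s p U (fun ω => (b ω % 3 ^ l, c ω)) with hf
    set g : ℕ → ℝ := fun l => cH s p U c - cH s p U (fun ω => ((U ω + b ω) % 3 ^ l, c ω)) with hg
    have hf0 : ∀ l, 0 ≤ f l := fun l => sub_nonneg.2 (cH_cond_le hp _ _ _)
    have hg0 : ∀ l, 0 ≤ g l := fun l => sub_nonneg.2 (cH_cond_le hp _ _ _)
    have hfm : ∀ l l', l ≤ l' → f l ≤ f l' := by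
      intro l l' hl
      have : cH s p U (fun ω => (b ω % 3 ^ l', c ω)) ≤ cH s p U (fun ω => (b ω % 3 ^ l, c ω)) := by
        refine cH_anti hp _ _ _ fun ω _ _ ω' _ _ h => ?_
        simp only [Prod.ext_iff] at h ⊢
        exact ⟨mod_mono _ _ hl h.1, h.2⟩
      simp only [hf]
      linarith
    have hgm : ∀ l l', l ≤ l' → g l ≤ g l' := by
      intro l l' hl
      have : cH s p U (fun ω => ((U ω + b ω) % 3 ^ l', c ω)) ≤
          cH s p U (fun ω => ((U ω + b ω) % 3 ^ l, c ω)) := by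
        refine cH_anti hp _ _ _ fun ω _ _ ω' _ _ h => ?_
        simp only [Prod.ext_iff] at h ⊢
        exact ⟨mod_mono _ _ hl h.1, h.2⟩
      simp only [hg]
      linarith
    have h1 := tele_U hp k U b c hU
    have h2 : ∑ l ∈ range k,
        cH s p (fun ω => U ω % 3 ^ (l + 1)) (fun ω => (U ω % 3 ^ l, b ω % 3 ^ l, c ω)) ≤
        ∑ l ∈ range k, ((e1 + 12 / e1 * δ) + C * ((g (l + d) - g l) + (f (l + d) - f l))) := by
      refine sum_le_sum fun l hl => ?_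
      have := level_digit hp hp1 e1 he1 U b c good l d hd.ne' hgood δ (hδ l (mem_range.1 hl))
      refine this.trans (le_of_eq ?_)
      simp only [hf, hg, hC]
      ring
    have h3 := shift_sum f k d (f (k + d)) hf0 (fun l hl => hfm l _ hl) d le_rfl
    have h4 := shift_sum g k d (g (k + d)) hg0 (fun l hl => hgm l _ hl) d le_rfl
    have h22 : ∀ A : ℝ, ∑ l ∈ range k, (A + C * ((g (l + d) - g l) + (f (l + d) - f l))) =
        k * A + C * (∑ l ∈ range k, (g (l + d) - g l) + ∑ l ∈ range k, (f (l + d) - f l)) := by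
      intro A
      rw [sum_add_distrib, sum_const, card_range, nsmul_eq_mul, ← mul_sum, sum_add_distrib]
    rw [h22] at h2
    have h5 : cH s p U c = f k + cH s p U (fun ω => (b ω % 3 ^ k, c ω)) := by
      simp only [hf]; ring
    have h6 := hfm k (k + d) (Nat.le_add_right k d)
    have h7 := hg0 (k + d)
    have h8 : C * (∑ l ∈ range k, (g (l + d) - g l) + ∑ l ∈ range k, (f (l + d) - f l)) ≤
        C * (d * g (k + d) + d * f (k + d)) := mul_le_mul_of_nonneg_left (add_le_add h4 h3) hC0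
    have hk0 : (0 : ℝ) ≤ k := by positivity
    rcases Nat.eq_zero_or_pos k with hk | hk
    · subst hk
      have := digit_zero hp 0 U c hU
      simp only [Nat.cast_zero, zero_mul, mul_zero] at this ⊢
      have h9 : 0 ≤ (1 + C * d) * (f (0 + d) + g (0 + d)) :=
        mul_nonneg (by positivity) (add_nonneg (hf0 _) (hg0 _))
      simp only [hf, hg] at h9
      linarith
    · have hδ0 : 0 ≤ δ :=
        le_trans (sum_nonneg fun ω hω => hp ω (mem_filter.1 hω).1) (hδ 0 hk)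
      have h9 : (k : ℝ) * (e1 + 12 / e1 * δ) ≤ k * (e1 + (12 / e1 + 2) * δ) := by
        refine mul_le_mul_of_nonneg_left ?_ hk0
        linarith
      have h10 : cH s p U c ≤ k * (e1 + (12 / e1 + 2) * δ) +
          (1 + C * d) * (f (k + d) + g (k + d)) := by
        rw [h5]
        have e : (1 + C * d) * (f (k + d) + g (k + d)) =
          f (k + d) + g (k + d) + C * (d * g (k + d) + d * f (k + d)) := by ring
        rw [e]
        linarith
      exact h10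

end Pool.Agent.Collatz3
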