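import Pool.Agent.Collatz3.LTUpBase

set_option autoImplicit false

/-!
Excursions of the 3x+1 map: counting by parity words (the first `log n / log 2` steps).
-/

open Finset

namespace Pool.Agent.Collatz3.EX

open Pool.Agent.Collatz3.LT

/-- number of odd terms among the first `r` iterates -/
def od (r n : ℕ) : ℕ := jj (wd r n)

theorem od_zero (n : ℕ) : od 0 n = 0 := rfl

theorem od_succ (r n : ℕ) : od (r + 1) n = od r (T3 n) + if n % 2 = 1 then 1 else 0 := by
  unfold od
  rw [wd, jj_append]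
  congr 1
  by_cases h : n % 2 = 1
  · rw [if_pos h, decide_eq_true h]; simp
  · rw [if_neg h, decide_eq_false h]; simp

theorem od_even (r n : ℕ) : od (r + 1) (2 * n) = od r n := by
  rw [od_succ, T3_two_mul, if_neg (by omega), add_zero]

theorem T3_odd (n : ℕ) : T3 (2 * n + 1) = 3 * n + 2 := by
  unfold T3
  rw [if_neg (by omega)]
  omega

theorem od_odd (r n : ℕ) : od (r + 1) (2 * n + 1) = od r (3 * n + 2) + 1 := by
  rw [od_succ, T3_odd, if_pos (by omega)]

theorem pascal_sum (r : ℕ) (F : ℕ → ℝ) : ∑ j ∈ range (r + 2), ((r + 1).choose j : ℝ) * F j =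
    ∑ j ∈ range (r + 1), (r.choose j : ℝ) * F j + ∑ j ∈ range (r + 1), (r.choose j : ℝ) * F (j + 1) := by
  rw [sum_range_succ' (fun j => ((r + 1).choose j : ℝ) * F j) (r + 1)]
  have h1 : ∀ j ∈ range (r + 1), ((r + 1).choose (j + 1) : ℝ) * F (j + 1) =
      (r.choose j : ℝ) * F (j + 1) + (r.choose (j + 1) : ℝ) * F (j + 1) := by
    intro j _
    rw [Nat.choose_succ_succ]
    push_cast
    ring
  rw [sum_congr rfl h1, sum_add_distrib]
  have h2 : ∑ j ∈ range (r + 1), (r.choose (j + 1) : ℝ) * F (j + 1) + ((r + 1).choose 0 : ℝ) * F 0 =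
      ∑ j ∈ range (r + 1), (r.choose j : ℝ) * F j := by
    rw [sum_range_succ (fun j => (r.choose (j + 1) : ℝ) * F (j + 1)) r,
      sum_range_succ' (fun j => (r.choose j : ℝ) * F j) r]
    simp
  linarith

theorem sum_range_double (M : ℕ) (g : ℕ → ℝ) :
    ∑ p ∈ range (2 * M), g p = ∑ u ∈ range M, g (2 * u) + ∑ u ∈ range M, g (2 * u + 1) := by
  induction M with
  | zero => simp
  | succ M ih =>
    rw [show 2 * (M + 1) = 2 * M + 1 + 1 by ring, sum_range_succ, sum_range_succ, ih,
      sum_range_succ, sum_range_succ]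
    ring

/-- the number of odd terms is binomially distributed on arithmetic progressions -/
theorem sum_od (r : ℕ) : ∀ (F : ℕ → ℝ) (q s : ℕ), q % 2 = 1 →
    ∑ p ∈ range (2 ^ r), F (od r (q * p + s)) = ∑ j ∈ range (r + 1), (r.choose j : ℝ) * F j := by
  induction r with
  | zero => intro F q s _; simp [od_zero]
  | succ r ih =>
    intro F q s hq
    rw [pow_succ, mul_comm, sum_range_double, pascal_sum]
    obtain ⟨q', rfl⟩ : ∃ q', q = 2 * q' + 1 := ⟨q / 2, by omega⟩
    rcases Nat.even_or_odd' s with ⟨s', rfl | rfl⟩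
    · congr 1
      · rw [← ih F (2 * q' + 1) s' (by omega)]
        apply sum_congr rfl
        intro u _
        rw [show (2 * q' + 1) * (2 * u) + 2 * s' = 2 * ((2 * q' + 1) * u + s') by ring, od_even]
      · rw [← ih (fun j => F (j + 1)) (3 * (2 * q' + 1)) (3 * (q' + s') + 2) (by omega)]
        apply sum_congr rfl
        intro u _
        rw [show (2 * q' + 1) * (2 * u + 1) + 2 * s' =
          2 * ((2 * q' + 1) * u + (q' + s')) + 1 by ring, od_odd,
          show 3 * (2 * q' + 1) * u + (3 * (q' + s') + 2) =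
            3 * ((2 * q' + 1) * u + (q' + s')) + 2 by ring]
    · rw [add_comm]
      congr 1
      · rw [← ih F (2 * q' + 1) (q' + s' + 1) (by omega)]
        apply sum_congr rfl
        intro u _
        rw [show (2 * q' + 1) * (2 * u + 1) + (2 * s' + 1) =
          2 * ((2 * q' + 1) * u + (q' + s' + 1)) by ring, od_even]
      · rw [← ih (fun j => F (j + 1)) (3 * (2 * q' + 1)) (3 * s' + 2) (by omega)]
        apply sum_congr rfl
        intro u _
        rw [show (2 * q' + 1) * (2 * u) + (2 * s' + 1) =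
          2 * ((2 * q' + 1) * u + s') + 1 by ring, od_odd,
          show 3 * (2 * q' + 1) * u + (3 * s' + 2) =
            3 * ((2 * q' + 1) * u + s') + 2 by ring]

theorem sum_block_aux (F : ℕ → ℝ) (r M s : ℕ) :
    ∑ p ∈ range (M * 2 ^ r), F (od r (p + s)) = M * ∑ j ∈ range (r + 1), (r.choose j : ℝ) * F j := by
  induction M with
  | zero => simp
  | succ M ih =>
    rw [add_mul, one_mul, sum_range_add, ih]
    have h := sum_od r F 1 (M * 2 ^ r + s) (by norm_num)
    have e : ∀ p ∈ range (2 ^ r), F (od r (M * 2 ^ r + p + s)) =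
        F (od r (1 * p + (M * 2 ^ r + s))) := by
      intro p _
      congr 2
      ring
    rw [sum_congr rfl e, h]
    push_cast
    ring

/-- the dyadic block -/
def B (l : ℕ) : Finset ℕ := Ico (2 ^ l) (2 ^ (l + 1))

theorem mem_B {l m : ℕ} : m ∈ B l ↔ 2 ^ l ≤ m ∧ m < 2 ^ (l + 1) := by simp [B]

theorem sum_block (F : ℕ → ℝ) {r l : ℕ} (h : r ≤ l) :
    ∑ m ∈ B l, F (od r m) = 2 ^ (l - r) * ∑ j ∈ range (r + 1), (r.choose j : ℝ) * F j := by
  have h1 := sum_block_aux F r (2 ^ (l - r)) (2 ^ l)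
  rw [← pow_add, Nat.sub_add_cancel h] at h1
  push_cast at h1
  rw [← h1, B, sum_Ico_eq_sum_range]
  rw [show 2 ^ (l + 1) - 2 ^ l = 2 ^ l by rw [pow_succ]; omega]
  apply sum_congr rfl
  intro p _
  rw [add_comm]

theorem sum_block_pow (z : ℝ) {r l : ℕ} (h : r ≤ l) :
    ∑ m ∈ B l, z ^ od r m = 2 ^ (l - r) * (1 + z) ^ r := by
  rw [sum_block (fun j => z ^ j) h, add_comm 1 z, add_pow]
  congr 1
  apply sum_congr rfl
  intro j _
  rw [one_pow]
  ring

/-- number of elements of a block with given number of odd terms -/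
theorem card_block {r l : ℕ} (h : r ≤ l) {j : ℕ} (hj : j ≤ r) :
    (((B l).filter fun m => od r m = j).card : ℝ) = 2 ^ (l - r) * (r.choose j : ℝ) := by
  rw [card_filter]
  push_cast
  have h1 := sum_block (fun i => if i = j then (1 : ℝ) else 0) h
  simp only [mul_ite, mul_one, mul_zero] at h1
  rw [sum_ite_eq' (range (r + 1)) j, if_pos (by rw [mem_range]; omega)] at h1
  exact h1

/-- constants of words -/
theorem cc_le_pow (w : List Bool) : cc w + 2 ^ w.length ≤ 3 ^ jj w * 2 ^ w.length := by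
  induction w with
  | nil => simp
  | cons b w ih =>
    cases b
    · simp only [cc_false, jj_false, List.length_cons, pow_succ]
      have h1 : 0 < 2 ^ w.length := by positivity
      have h3 : 1 ≤ 3 ^ jj w := Nat.one_le_pow _ _ (by norm_num)
      nlinarith
    · simp only [cc_true, jj_true, List.length_cons, pow_succ]
      have h1 : 0 < 2 ^ w.length := by positivity
      nlinarith

/-- upper bound for an early iterate -/
theorem iter_le {l r m : ℕ} (hr : r ≤ l) (hm : m ∈ B l) :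
    ((T3^[r] m : ℕ) : ℝ) ≤ 4 * 2 ^ (l - r) * 3 ^ od r m := by
  rw [mem_B] at hm
  have h1 := wd_spec r m
  have h2 := cc_le_pow (wd r m)
  rw [wd_length] at h2
  have h3 : 2 ^ r ≤ m := le_trans (Nat.pow_le_pow_right (by norm_num) hr) hm.1
  have h4 : 3 ^ od r m * 2 ^ r ≤ 3 ^ od r m * m := Nat.mul_le_mul_left _ h3
  have h5 : 2 ^ r * T3^[r] m ≤ 2 * (3 ^ od r m * m) := by
    unfold od at h4 ⊢
    rw [h1]
    have h0 : 0 < 2 ^ r := by positivity
    linarith
  have h6 : 2 ^ r * T3^[r] m ≤ 2 ^ r * (4 * 2 ^ (l - r) * 3 ^ od r m) := by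
    refine h5.trans ?_
    have e : 2 ^ r * (4 * 2 ^ (l - r) * 3 ^ od r m) = 2 * (3 ^ od r m * 2 ^ (l + 1)) := by
      have : 2 ^ (l + 1) = 2 * (2 ^ r * 2 ^ (l - r)) := by
        rw [← pow_add, Nat.add_sub_cancel' hr, pow_succ]
        ring
      rw [this]
      ring
    rw [e]
    exact Nat.mul_le_mul_left _ (Nat.mul_le_mul_left _ hm.2.le)
  have h7 := Nat.le_of_mul_le_mul_left h6 (by positivity)
  exact_mod_cast h7

/-- first moment in the free range -/
theorem sum_iter_le {l r : ℕ} (hr : r ≤ l) : ∑ m ∈ B l, ((T3^[r] m : ℕ) : ℝ) ≤ 4 ^ (l + 1) := by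
  have h1 : ∑ m ∈ B l, ((T3^[r] m : ℕ) : ℝ) ≤ ∑ m ∈ B l, 4 * 2 ^ (l - r) * (3 : ℝ) ^ od r m :=
    sum_le_sum fun m hm => iter_le hr hm
  refine h1.trans (le_of_eq ?_)
  rw [← mul_sum, sum_block_pow 3 hr]
  have e1 : (1 + 3 : ℝ) ^ r = 2 ^ r * 2 ^ r := by
    rw [← mul_pow]; norm_num
  have e2 : (4 : ℝ) ^ (l + 1) = 4 * (2 ^ (l - r) * 2 ^ r) * (2 ^ (l - r) * 2 ^ r) := by
    rw [← pow_add, Nat.sub_add_cancel hr, pow_succ, mul_assoc, ← mul_pow]
    norm_num
    ring
  rw [e1, e2]
  ring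

/-- few elements of a block make a large free excursion -/
theorem card_short {l r : ℕ} (hr : r ≤ l) {Y : ℝ} (hY : 0 < Y) :
    (((B l).filter fun m => Y ≤ ((T3^[r] m : ℕ) : ℝ)).card : ℝ) ≤ 4 ^ (l + 1) / Y := by
  rw [le_div_iff₀ hY]
  calc (((B l).filter fun m => Y ≤ ((T3^[r] m : ℕ) : ℝ)).card : ℝ) * Y
      = ∑ m ∈ (B l).filter (fun m => Y ≤ ((T3^[r] m : ℕ) : ℝ)), Y := by
        rw [sum_const, nsmul_eq_mul]
    _ ≤ ∑ m ∈ (B l).filter (fun m => Y ≤ ((T3^[r] m : ℕ) : ℝ)), ((T3^[r] m : ℕ) : ℝ) :=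
        sum_le_sum fun m hm => (mem_filter.1 hm).2
    _ ≤ ∑ m ∈ B l, ((T3^[r] m : ℕ) : ℝ) :=
        sum_le_sum_of_subset_of_nonneg (filter_subset _ _) fun _ _ _ => Nat.cast_nonneg _
    _ ≤ 4 ^ (l + 1) := sum_iter_le hr

/-- the saving for long flat excursions -/
noncomputable def dl : ℝ := Real.log 2 * Real.log 2 / Real.log 3 - Real.log (3 / 2)

theorem log3_lt : Real.log 3 < 8 / 5 * Real.log 2 := by
  have h : Real.log ((3 : ℝ) ^ 5) < Real.log ((2 : ℝ) ^ 8) :=
    Real.log_lt_log (by norm_num) (by norm_num)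
  rw [Real.log_pow, Real.log_pow] at h
  push_cast at h
  linarith

theorem dl_pos : 0 < dl := by
  unfold dl
  have l2 := log2_pos
  have l3 := log3_pos
  have l23 := log2_lt_log3
  have h := log3_lt
  rw [Real.log_div (by norm_num) (by norm_num), sub_pos, lt_div_iff₀ l3]
  have h1 : (Real.log 3 - Real.log 2) * Real.log 3 ≤ 3 / 5 * Real.log 2 * (8 / 5 * Real.log 2) :=
    mul_le_mul (by linarith) h.le l3.le (by linarith)
  nlinarith

/-- few elements of a block stay high during the free range -/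
theorem card_long (l : ℕ) :
    (((B l).filter fun m => ht (wd l m) ≤ 0).card : ℝ) ≤ 2 ^ l * Real.exp (-dl * l) := by
  have h1 : ∀ m ∈ (B l).filter (fun m => ht (wd l m) ≤ 0),
      Real.exp (l * (Real.log 2 * Real.log 2 / Real.log 3)) ≤ 2 ^ od l m := by
    intro m hm
    have h2 := (mem_filter.1 hm).2
    rw [ht, wd_length] at h2
    unfold hh at h2
    have l3 := log3_pos
    have l2 := log2_pos
    have h3 : (l : ℝ) * Real.log 2 / Real.log 3 ≤ od l m := by
      rw [div_le_iff₀ l3]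
      unfold od
      linarith
    have e : (2 : ℝ) ^ od l m = Real.exp (od l m * Real.log 2) := by
      rw [← Real.log_pow, Real.exp_log (by positivity)]
    rw [e]
    apply Real.exp_le_exp.2
    have := mul_le_mul_of_nonneg_right h3 l2.le
    have e2 : (l : ℝ) * Real.log 2 / Real.log 3 * Real.log 2 =
      l * (Real.log 2 * Real.log 2 / Real.log 3) := by ring
    linarith
  have h2 := sum_block_pow 2 (le_refl l)
  rw [Nat.sub_self, pow_zero, one_mul] at h2
  have h3 : (((B l).filter fun m => ht (wd l m) ≤ 0).card : ℝ) *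
      Real.exp (l * (Real.log 2 * Real.log 2 / Real.log 3)) ≤ (1 + 2) ^ l := by
    rw [← h2]
    calc (((B l).filter fun m => ht (wd l m) ≤ 0).card : ℝ) *
        Real.exp (l * (Real.log 2 * Real.log 2 / Real.log 3))
        = ∑ m ∈ (B l).filter (fun m => ht (wd l m) ≤ 0),
          Real.exp (l * (Real.log 2 * Real.log 2 / Real.log 3)) := by
          rw [sum_const, nsmul_eq_mul]
      _ ≤ ∑ m ∈ (B l).filter (fun m => ht (wd l m) ≤ 0), (2 : ℝ) ^ od l m := sum_le_sum h1
      _ ≤ _ := sum_le_sum_of_subset_of_nonneg (filter_subset _ _) fun _ _ _ => by positivity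
  have e3 : (2 : ℝ) ^ l * Real.exp (-dl * l) *
      Real.exp (l * (Real.log 2 * Real.log 2 / Real.log 3)) = (1 + 2) ^ l := by
    rw [mul_assoc, ← Real.exp_add]
    have : -dl * l + l * (Real.log 2 * Real.log 2 / Real.log 3) = l * Real.log (3 / 2) := by
      unfold dl; ring
    rw [this, ← Real.log_pow, Real.exp_log (by positivity), ← mul_pow]
    norm_num
  rw [← e3] at h3
  exact le_of_mul_le_mul_right h3 (Real.exp_pos _)

end Pool.Agent.Collatz3.EX
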