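import Pool.Agent.Collatz3.EXCount

set_option autoImplicit false

/-!
Excursions of the 3x+1 map: the lower bound.
-/

open Finset

namespace Pool.Agent.Collatz3.EX

open Pool.Agent.Collatz3.LT

/-- terms of the binomial expansion of `(1 + 3) ^ (4 s)` -/
def bt (s j : ℕ) : ℕ := (4 * s).choose j * 3 ^ j

theorem bt_step (s j : ℕ) : bt s (j + 1) * (j + 1) = bt s j * (3 * (4 * s - j)) := by
  unfold bt
  have h := Nat.choose_succ_right_eq (4 * s) j
  calc (4 * s).choose (j + 1) * 3 ^ (j + 1) * (j + 1)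
      = ((4 * s).choose (j + 1) * (j + 1)) * (3 ^ j * 3) := by ring
    _ = ((4 * s).choose j * (4 * s - j)) * (3 ^ j * 3) := by rw [h]
    _ = _ := by ring

theorem bt_up {s j : ℕ} (h : j < 3 * s) : bt s j ≤ bt s (j + 1) := by
  have h1 := bt_step s j
  have h2 : bt s j * (j + 1) ≤ bt s j * (3 * (4 * s - j)) :=
    Nat.mul_le_mul_left _ (by omega)
  rw [← h1] at h2
  exact Nat.le_of_mul_le_mul_right h2 (by omega)

theorem bt_down {s j : ℕ} (h : 3 * s ≤ j) : bt s (j + 1) ≤ bt s j := by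
  have h1 := bt_step s j
  have h2 : bt s j * (3 * (4 * s - j)) ≤ bt s j * (j + 1) :=
    Nat.mul_le_mul_left _ (by omega)
  rw [← h1] at h2
  exact Nat.le_of_mul_le_mul_right h2 (by omega)

theorem bt_le (s j : ℕ) : bt s j ≤ bt s (3 * s) := by
  rcases le_total j (3 * s) with h | h
  · have key : ∀ d : ℕ, d ≤ 3 * s → bt s (3 * s - d) ≤ bt s (3 * s) := by
      intro d
      induction d with
      | zero => intro _; simp
      | succ d ih =>
        intro hd
        have h1 := bt_up (s := s) (j := 3 * s - (d + 1)) (by omega)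
        rw [show 3 * s - (d + 1) + 1 = 3 * s - d by omega] at h1
        exact h1.trans (ih (by omega))
    have := key (3 * s - j) (by omega)
    rwa [show 3 * s - (3 * s - j) = j by omega] at this
  · induction j, h using Nat.le_induction with
    | base => exact le_rfl
    | succ j hj ih => exact (bt_down hj).trans ih

/-- the binomial coefficient -/
theorem choose_ge (s : ℕ) : 256 ^ s ≤ (4 * s + 1) * ((4 * s).choose (3 * s) * 27 ^ s) := by
  have h1 : (3 + 1) ^ (4 * s) = ∑ j ∈ range (4 * s + 1), bt s j := by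
    rw [add_pow]
    apply sum_congr rfl
    intro j _
    unfold bt
    simp [mul_comm]
  have h2 : ∑ j ∈ range (4 * s + 1), bt s j ≤ ∑ _j ∈ range (4 * s + 1), bt s (3 * s) :=
    sum_le_sum fun j _ => bt_le s j
  rw [sum_const, card_range, smul_eq_mul] at h2
  have h3 : (256 : ℕ) ^ s = (3 + 1) ^ (4 * s) := by rw [pow_mul]; norm_num
  rw [h3, h1]
  refine h2.trans (le_of_eq ?_)
  unfold bt
  rw [pow_mul 3 3 s, show (3 : ℕ) ^ 3 = 27 by norm_num]

/-- the number of odd terms and the size of the iterate -/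
theorem iter_ge (r m : ℕ) : (3 : ℝ) ^ od r m * m ≤ 2 ^ r * (T3^[r] m : ℕ) := by
  have h := wd_spec r m
  have h1 : 3 ^ od r m * m ≤ 2 ^ r * T3^[r] m := by
    unfold od
    omega
  exact_mod_cast h1

/-- the lower bound for one block -/
theorem block_lower {s l : ℕ} (h : 4 * s ≤ l) :
    (2 : ℝ) ^ l * (16 / 27) ^ s / (4 * s + 1) ≤
      (((B l).filter fun n => (27 / 16 : ℝ) ^ s * n ≤ ((T3^[4 * s] n : ℕ) : ℝ)).card : ℝ) := by
  have h1 := card_block h (show 3 * s ≤ 4 * s by omega)
  have h2 : (((B l).filter fun m => od (4 * s) m = 3 * s).card : ℝ) ≤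
      (((B l).filter fun n => (27 / 16 : ℝ) ^ s * n ≤ ((T3^[4 * s] n : ℕ) : ℝ)).card : ℝ) := by
    have : (B l).filter (fun m => od (4 * s) m = 3 * s) ⊆
        (B l).filter fun n => (27 / 16 : ℝ) ^ s * n ≤ ((T3^[4 * s] n : ℕ) : ℝ) := by
      intro m hm
      rw [mem_filter] at hm ⊢
      refine ⟨hm.1, ?_⟩
      have g := iter_ge (4 * s) m
      rw [hm.2, pow_mul, pow_mul] at g
      rw [div_pow, div_mul_eq_mul_div, div_le_iff₀ (by positivity)]
      norm_num at g ⊢
      linarith
    exact_mod_cast card_le_card this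
  refine le_trans ?_ h2
  rw [h1]
  have h3 : (256 : ℝ) ^ s ≤ (4 * s + 1) * (((4 * s).choose (3 * s) : ℝ) * 27 ^ s) := by
    exact_mod_cast choose_ge s
  have e1 : (2 : ℝ) ^ l = 2 ^ (l - 4 * s) * 16 ^ s := by
    rw [show (16 : ℝ) = 2 ^ 4 by norm_num, ← pow_mul, ← pow_add, Nat.sub_add_cancel h]
  rw [div_le_iff₀ (by positivity), e1, mul_assoc, mul_assoc]
  refine mul_le_mul_of_nonneg_left ?_ (by positivity)
  have e2 : (16 : ℝ) ^ s * (16 / 27) ^ s = 256 ^ s / 27 ^ s := by
    rw [← mul_pow, ← div_pow]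
    norm_num
  rw [e2, div_le_iff₀ (by positivity)]
  linarith

end Pool.Agent.Collatz3.EX
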