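import Pool.Agent.Collatz3.EXUp
import Pool.Agent.Collatz3.EXLow

set_option autoImplicit false

/-!
Excursions of the 3x+1 map: the counting theorems.
-/

open Finset

namespace Pool.Agent.Collatz3.EX

open Pool.Agent.Collatz3.LT

/-- integers up to `x` with an excursion to `n ^ c` within time `C log n` -/
def Ex (C c : ℝ) (x : ℕ) : Set ℕ := {n : ℕ | 1 ≤ n ∧ n ≤ x ∧
  ∃ k : ℕ, 1 ≤ k ∧ (k : ℝ) ≤ C * Real.log n ∧ (n : ℝ) ^ c ≤ ((T3^[k] n : ℕ) : ℝ)}

theorem Ex_finite (C c : ℝ) (x : ℕ) : (Ex C c x).Finite :=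
  (Set.finite_Iic x).subset fun _ h => h.2.1

theorem mem_Sb_of_Ex {C c : ℝ} (hC : 0 < C) (hc : 0 < c) {x n : ℕ} (h : n ∈ Ex C c x) :
    n ∈ Sb (Nat.log 2 n) ⌊C * Real.log 2 * ((Nat.log 2 n : ℕ) + 1)⌋₊
      (Real.exp (c * (Nat.log 2 n : ℕ) * Real.log 2)) := by
  obtain ⟨h1, h2, k, hk1, hk2, hk3⟩ := h
  have l2 := log2_pos
  have hn0 : (0 : ℝ) < n := by exact_mod_cast h1
  obtain ⟨i, hi⟩ : ∃ i, i = Nat.log 2 n := ⟨_, rfl⟩
  rw [← hi]
  have hi1 : 2 ^ i ≤ n := by rw [hi]; exact Nat.pow_log_le_self 2 (by omega)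
  have hi2 : n < 2 ^ (i + 1) := by rw [hi]; exact Nat.lt_pow_succ_log_self (by norm_num) n
  unfold Sb
  rw [mem_filter, mem_B]
  refine ⟨⟨hi1, hi2⟩, k, ?_, ?_⟩
  · apply Nat.le_floor
    refine hk2.trans ?_
    have : Real.log n ≤ (i + 1) * Real.log 2 := by
      have h3 : (n : ℝ) ≤ 2 ^ (i + 1) := by exact_mod_cast hi2.le
      have h4 := Real.log_le_log hn0 h3
      rw [Real.log_pow] at h4
      push_cast at h4
      exact h4
    have h5 := mul_le_mul_of_nonneg_left this hC.le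
    linarith
  · refine le_trans ?_ hk3
    rw [Real.rpow_def_of_pos hn0]
    apply Real.exp_le_exp.2
    have h3 : (i : ℝ) * Real.log 2 ≤ Real.log n := by
      rw [← Real.log_pow]
      exact Real.log_le_log (by positivity) (by exact_mod_cast hi1)
    have h4 := mul_le_mul_of_nonneg_right h3 hc.le
    linarith

theorem card_B (i : ℕ) : (B i).card = 2 ^ i := by
  unfold B
  rw [Nat.card_Ico, pow_succ]
  omega

/-- from the blocks to all integers up to `x` -/
theorem upper_of_block {C c δ : ℝ} (hC : 0 < C) (hc0 : 0 < c) (hδ1 : δ < 1)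
    (hb : ∀ ε : ℝ, 0 < ε → ∃ i0 : ℕ, ∀ i : ℕ, i0 ≤ i →
      ((Sb i ⌊C * Real.log 2 * (i + 1)⌋₊ (Real.exp (c * i * Real.log 2))).card : ℝ) ≤
        Real.exp ((max (2 - c) (1 - δ) + ε) * (i * Real.log 2))) {ε : ℝ} (hε : 0 < ε) :
      ∀ᶠ x : ℕ in Filter.atTop, ((Ex C c x).ncard : ℝ) ≤
        (x : ℝ) ^ (max (2 - c) (1 - δ) + ε) := by
  obtain ⟨i0, hi0⟩ := hb (ε / 2) (by positivity)
  have l2 := log2_pos
  obtain ⟨M, hM⟩ : ∃ M, M = max (2 - c) (1 - δ) := ⟨_, rfl⟩
  rw [← hM] at hi0 ⊢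
  have hM0 : 0 < M := by
    rw [hM]
    exact lt_of_lt_of_le (by linarith) (le_max_right _ _)
  obtain ⟨K0, hK0⟩ := UB.log_small (Real.log (2 ^ i0 + 1)) 1 (ε / 2 * Real.log 2)
    (Real.log_nonneg (by
      have : (0 : ℝ) ≤ 2 ^ i0 := by positivity
      linarith)) (by norm_num) (by positivity)
  filter_upwards [Filter.eventually_ge_atTop (2 ^ K0)] with x hx
  have hx1 : 1 ≤ x := le_trans Nat.one_le_two_pow hx
  have hx0 : (0 : ℝ) < x := by exact_mod_cast hx1
  obtain ⟨I, hI⟩ : ∃ I, I = Nat.log 2 x := ⟨_, rfl⟩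
  have hIx : 2 ^ I ≤ x := by rw [hI]; exact Nat.pow_log_le_self 2 (by omega)
  have hIK : K0 ≤ I := by
    rw [hI]
    exact (Nat.le_log_iff_pow_le (by norm_num) (by omega)).2 hx
  have hsub : Ex C c x ⊆ (((range (I + 1)).biUnion fun i =>
      Sb i ⌊C * Real.log 2 * ((i : ℕ) + 1)⌋₊ (Real.exp (c * i * Real.log 2)) : Finset ℕ) :
        Set ℕ) := by
    intro n hn
    rw [mem_coe, mem_biUnion]
    refine ⟨Nat.log 2 n, ?_, mem_Sb_of_Ex hC hc0 hn⟩
    rw [mem_range, hI]
    have := Nat.log_mono_right (b := 2) hn.2.1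
    omega
  have hcard : ((Ex C c x).ncard : ℝ) ≤ ∑ i ∈ range (I + 1),
      ((Sb i ⌊C * Real.log 2 * ((i : ℕ) + 1)⌋₊ (Real.exp (c * i * Real.log 2))).card : ℝ) := by
    have h1 := Set.ncard_le_ncard hsub (Finset.finite_toSet _)
    rw [Set.ncard_coe_finset] at h1
    exact_mod_cast h1.trans card_biUnion_le
  have hIlog : (I : ℝ) * Real.log 2 ≤ Real.log x := by
    rw [← Real.log_pow]
    exact Real.log_le_log (by positivity) (by exact_mod_cast hIx)
  obtain ⟨X, hX⟩ : ∃ X, X = Real.exp ((M + ε / 2) * Real.log x) := ⟨_, rfl⟩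
  have hlx : 0 ≤ Real.log x := Real.log_natCast_nonneg x
  have hX1 : 1 ≤ X := by rw [hX]; apply Real.one_le_exp; positivity
  have hterm : ∀ i ∈ range (I + 1),
      ((Sb i ⌊C * Real.log 2 * ((i : ℕ) + 1)⌋₊ (Real.exp (c * i * Real.log 2))).card : ℝ) ≤
        2 ^ i0 * X + X := by
    intro i hi
    rw [mem_range] at hi
    rcases Nat.lt_or_ge i i0 with hii | hii
    · have g1 : (Sb i ⌊C * Real.log 2 * ((i : ℕ) + 1)⌋₊ (Real.exp (c * i * Real.log 2))).card ≤
          2 ^ i0 := by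
        refine (card_le_card (filter_subset _ _)).trans ?_
        rw [card_B]
        exact Nat.pow_le_pow_right (by norm_num) hii.le
      have g2 : ((Sb i ⌊C * Real.log 2 * ((i : ℕ) + 1)⌋₊
          (Real.exp (c * i * Real.log 2))).card : ℝ) ≤ 2 ^ i0 := by exact_mod_cast g1
      have g3 : (2 : ℝ) ^ i0 * 1 ≤ 2 ^ i0 * X := mul_le_mul_of_nonneg_left hX1 (by positivity)
      linarith
    · refine (hi0 i hii).trans ?_
      have g1 : Real.exp ((M + ε / 2) * (i * Real.log 2)) ≤ X := by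
        rw [hX]
        apply Real.exp_le_exp.2
        refine mul_le_mul_of_nonneg_left ?_ (by positivity)
        have : (i : ℝ) ≤ I := by exact_mod_cast (by omega : i ≤ I)
        have := mul_le_mul_of_nonneg_right this l2.le
        linarith
      have g2 : (0 : ℝ) ≤ 2 ^ i0 * X := by positivity
      linarith
  refine hcard.trans ((sum_le_sum hterm).trans ?_)
  rw [sum_const, card_range, nsmul_eq_mul]
  have e1 : ((I + 1 : ℕ) : ℝ) * (2 ^ i0 * X + X) = ((I : ℝ) + 1) * (2 ^ i0 + 1) * X := by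
    push_cast; ring
  rw [e1, Real.rpow_def_of_pos hx0]
  have h2 := hK0 I hIK
  have h3 : Real.log (((I : ℝ) + 1) * (2 ^ i0 + 1)) ≤ ε / 2 * Real.log x := by
    rw [Real.log_mul (by positivity) (by positivity)]
    have h4 : ε / 2 * Real.log 2 * I ≤ ε / 2 * Real.log x := by
      have := mul_le_mul_of_nonneg_left hIlog (show 0 ≤ ε / 2 by positivity)
      linarith
    linarith
  have h4 : ((I : ℝ) + 1) * (2 ^ i0 + 1) ≤ Real.exp (ε / 2 * Real.log x) := by
    rw [← Real.log_le_iff_le_exp (by positivity)]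
    exact h3
  calc ((I : ℝ) + 1) * (2 ^ i0 + 1) * X ≤ Real.exp (ε / 2 * Real.log x) * X :=
        mul_le_mul_of_nonneg_right h4 (by positivity)
    _ = Real.exp (Real.log x * (M + ε)) := by
        rw [hX, ← Real.exp_add]
        congr 1
        ring

/-- the general upper bound -/
theorem upper (hS : StmtS) {C c0 : ℝ} (hC : 0 < C)
    (h : C < 2 / Real.log (4 / 3) + c0 / Real.log (3 / 2)) :
    ∃ δ : ℝ, 0 < δ ∧ δ ≤ 1 / 2 ∧ ∀ c : ℝ, c0 ≤ c → 0 < c → ∀ ε : ℝ, 0 < ε →
      ∀ᶠ x : ℕ in Filter.atTop, ((Ex C c x).ncard : ℝ) ≤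
        (x : ℝ) ^ (max (2 - c) (1 - δ) + ε) := by
  obtain ⟨δ, hδ0, hδ1, hδ⟩ := block_upper hS hC h
  exact ⟨δ, hδ0, hδ1, fun c hc hc0 ε hε =>
    upper_of_block hC hc0 (by linarith) (fun ε hε => hδ c hc ε hε) hε⟩

/-- excursions to the square within time `7 log n` -/
theorem upper_two (hS : StmtS) : ∀ᶠ x : ℕ in Filter.atTop,
    ((Ex 7 2 x).ncard : ℝ) ≤ (x : ℝ) ^ (99 / 100 : ℝ) := by
  obtain ⟨h1, h2⟩ := params_two
  have h := upper_of_block (C := 7) (c := 2) (δ := 51 / 5000) (by norm_num) (by norm_num)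
    (by norm_num) (fun ε hε => block_upper' hS (by norm_num) le_rfl (by norm_num)
      (by norm_num : (0 : ℝ) < 1 / 1000) (by norm_num) h1 h2 2 le_rfl ε hε)
    (ε := 1 / 5000) (by norm_num)
  have e : max (2 - 2 : ℝ) (1 - 51 / 5000) + 1 / 5000 = 99 / 100 := by
    rw [max_eq_right (by norm_num)]
    norm_num
  rw [e] at h
  exact h

/-- the lower bound -/
theorem lower {C : ℝ} (hC : 0 < C) {c : ℝ} (hc : 1 < c)
    (hc1 : 4 * ((c - 1) * Real.log 2) < min 1 (C * Real.log 2) * Real.log (27 / 16))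
    {ε : ℝ} (hε : 0 < ε) : ∀ᶠ x : ℕ in Filter.atTop,
      (x : ℝ) ^ (2 - c - ε) ≤ ((Ex C c x).ncard : ℝ) := by
  have l2 := log2_pos
  obtain ⟨q, hq⟩ : ∃ q, q = Real.log (27 / 16) := ⟨_, rfl⟩
  have hq0 : 0 < q := by rw [hq]; exact Real.log_pos (by norm_num)
  rw [← hq] at hc1
  obtain ⟨μ, hμ⟩ : ∃ μ, μ = min 1 (C * Real.log 2) := ⟨_, rfl⟩
  rw [← hμ] at hc1
  have hμ0 : 0 < μ := by rw [hμ]; exact lt_min one_pos (by positivity)
  have hμ1 : μ ≤ 1 := by rw [hμ]; exact min_le_left _ _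
  have hμ2 : μ ≤ C * Real.log 2 := by rw [hμ]; exact min_le_right _ _
  obtain ⟨β, hβ⟩ : ∃ β, β = (c - 1) * Real.log 2 / q := ⟨_, rfl⟩
  have hβ0 : 0 < β := by rw [hβ]; exact div_pos (mul_pos (by linarith) l2) hq0
  have hβq : β * q = (c - 1) * Real.log 2 := by rw [hβ]; field_simp
  have hβ1 : 4 * β < μ := by
    have : 4 * β * q < μ * q := by rw [mul_assoc, hβq]; exact hc1
    exact lt_of_mul_lt_mul_right this hq0.le
  -- constants
  obtain ⟨K0, hK0⟩ := UB.log_small (Real.log (27 / 16) + |2 - c| * (2 * Real.log 2) +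
    (c - 1) * Real.log 2 + Real.log 8) 1 (ε * Real.log 2)
    (by
      have h1 : 0 ≤ Real.log (27 / 16) := Real.log_nonneg (by norm_num)
      have h2 : 0 ≤ Real.log 8 := Real.log_nonneg (by norm_num)
      have h3 : 0 ≤ (c - 1) * Real.log 2 := mul_nonneg (by linarith) l2.le
      positivity) (by norm_num) (by positivity)
  obtain ⟨l1, hl1⟩ := exists_nat_ge ((4 * β + 4) / (μ - 4 * β))
  filter_upwards [Filter.eventually_ge_atTop (2 ^ (K0 + l1 + 2))] with x hx
  have hx1 : 1 ≤ x := le_trans Nat.one_le_two_pow hx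
  have hx0 : (0 : ℝ) < x := by exact_mod_cast hx1
  obtain ⟨l, hl⟩ : ∃ l, l = Nat.log 2 x - 1 := ⟨_, rfl⟩
  have hI : K0 + l1 + 2 ≤ Nat.log 2 x := (Nat.le_log_iff_pow_le (by norm_num) (by omega)).2 hx
  have hlI : l + 1 = Nat.log 2 x := by omega
  have hlx : 2 ^ (l + 1) ≤ x := by rw [hlI]; exact Nat.pow_log_le_self 2 (by omega)
  have hxl : x < 2 ^ (l + 2) := by
    have := Nat.lt_pow_succ_log_self (by norm_num : 1 < 2) x
    rwa [← hlI] at this
  have hlK : K0 ≤ l := by omega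
  have hll1 : ((4 * β + 4) / (μ - 4 * β) : ℝ) ≤ l :=
    hl1.trans (by exact_mod_cast (by omega : l1 ≤ l))
  have hl16 : 4 * β + 4 ≤ (μ - 4 * β) * l := by
    rw [div_le_iff₀ (by linarith)] at hll1
    linarith
  have hl0 : (0 : ℝ) ≤ l := Nat.cast_nonneg l
  obtain ⟨s, hs⟩ : ∃ s, s = ⌈β * ((l : ℝ) + 1)⌉₊ := ⟨_, rfl⟩
  have hs1 : β * (l + 1) ≤ s := by rw [hs]; exact Nat.le_ceil _
  have hs2 : (s : ℝ) ≤ β * (l + 1) + 1 := by
    rw [hs]; exact (Nat.ceil_lt_add_one (by positivity)).le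
  have hs3 : 4 * (s : ℝ) ≤ μ * l := by linarith
  have hs4 : 4 * s ≤ l := by
    have h1 : μ * l ≤ 1 * l := mul_le_mul_of_nonneg_right hμ1 hl0
    have h2 : (4 : ℝ) * s ≤ l := by linarith
    exact_mod_cast h2
  have hspos : 1 ≤ s := by
    rw [hs]
    exact Nat.one_le_ceil_iff.2 (by positivity)
  have hb := block_lower hs4
  -- the elements found are counted
  have hsub : (((B l).filter fun n => (27 / 16 : ℝ) ^ s * n ≤ ((T3^[4 * s] n : ℕ) : ℝ) :
      Finset ℕ) : Set ℕ) ⊆ Ex C c x := by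
    intro n hn
    rw [mem_coe, mem_filter, mem_B] at hn
    obtain ⟨⟨hn1, hn2⟩, hn3⟩ := hn
    have hn0 : 1 ≤ n := le_trans Nat.one_le_two_pow hn1
    have hn0' : (0 : ℝ) < n := by exact_mod_cast hn0
    refine ⟨hn0, le_trans hn2.le hlx, 4 * s, by omega, ?_, ?_⟩
    · push_cast
      refine hs3.trans ?_
      have h1 : (l : ℝ) * Real.log 2 ≤ Real.log n := by
        rw [← Real.log_pow]
        exact Real.log_le_log (by positivity) (by exact_mod_cast hn1)
      have h2 : μ * l ≤ C * Real.log 2 * l := mul_le_mul_of_nonneg_right hμ2 hl0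
      have h3 := mul_le_mul_of_nonneg_left h1 hC.le
      linarith
    · refine le_trans ?_ hn3
      have h1 : (n : ℝ) ^ c = (n : ℝ) ^ (c - 1) * n := by
        rw [← Real.rpow_add_one hn0'.ne']
        congr 1; ring
      rw [h1]
      refine mul_le_mul_of_nonneg_right ?_ hn0'.le
      rw [Real.rpow_def_of_pos hn0']
      have h2 : ((27 : ℝ) / 16) ^ s = Real.exp (s * q) := by
        rw [hq, ← Real.log_pow, Real.exp_log (by positivity)]
      rw [h2]
      apply Real.exp_le_exp.2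
      have h3 : Real.log n ≤ (l + 1) * Real.log 2 := by
        have h4 : (n : ℝ) ≤ 2 ^ (l + 1) := by exact_mod_cast hn2.le
        have h5 := Real.log_le_log hn0' h4
        rw [Real.log_pow] at h5
        push_cast at h5
        exact h5
      have h6 : Real.log n * (c - 1) ≤ (l + 1) * Real.log 2 * (c - 1) :=
        mul_le_mul_of_nonneg_right h3 (by linarith)
      have h7 : β * (l + 1) * q ≤ s * q := mul_le_mul_of_nonneg_right hs1 hq0.le
      have h8 : β * (l + 1) * q = (l + 1) * ((c - 1) * Real.log 2) := by rw [← hβq]; ring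
      linarith
  have hcard : (((B l).filter fun n => (27 / 16 : ℝ) ^ s * n ≤ ((T3^[4 * s] n : ℕ) : ℝ)).card : ℝ) ≤
      ((Ex C c x).ncard : ℝ) := by
    have h1 := Set.ncard_le_ncard hsub (Ex_finite C c x)
    rw [Set.ncard_coe_finset] at h1
    exact_mod_cast h1
  refine le_trans ?_ (hb.trans hcard)
  -- numerical comparison
  have hsm := hK0 l hlK
  have hd0 : (0 : ℝ) < 4 * s + 1 := by positivity
  have h1 : Real.log ((x : ℝ) ^ (2 - c - ε)) ≤
      Real.log ((2 : ℝ) ^ l * (16 / 27) ^ s / (4 * s + 1)) := by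
    rw [Real.log_rpow hx0, Real.log_div (by positivity) hd0.ne',
      Real.log_mul (by positivity) (by positivity), Real.log_pow, Real.log_pow]
    have g1 : Real.log (16 / 27) = -q := by
      rw [hq, ← Real.log_inv]; norm_num
    have g2 : Real.log (4 * s + 1) ≤ Real.log 8 + Real.log (l + 1) := by
      rw [← Real.log_mul (by norm_num) (by positivity)]
      apply Real.log_le_log hd0
      have h2 : (4 : ℝ) * s ≤ l := by exact_mod_cast hs4
      linarith
    have g3 : Real.log x ≤ (l + 2) * Real.log 2 := by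
      have h4 : (x : ℝ) ≤ 2 ^ (l + 2) := by exact_mod_cast hxl.le
      have h5 := Real.log_le_log hx0 h4
      rw [Real.log_pow] at h5
      push_cast at h5
      exact h5
    have g4 : (l + 1) * Real.log 2 ≤ Real.log x := by
      have h4 : (2 : ℝ) ^ (l + 1) ≤ x := by exact_mod_cast hlx
      have h5 := Real.log_le_log (by positivity) h4
      rw [Real.log_pow] at h5
      push_cast at h5
      exact h5
    have g5 : (2 - c) * Real.log x ≤ (2 - c) * (l * Real.log 2) + |2 - c| * (2 * Real.log 2) := by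
      have h2 : (2 - c) * (Real.log x - l * Real.log 2) ≤ |2 - c| * (2 * Real.log 2) := by
        refine (le_abs_self _).trans ?_
        rw [abs_mul]
        refine mul_le_mul_of_nonneg_left ?_ (abs_nonneg _)
        rw [abs_le]
        constructor <;> linarith
      linarith
    have g6 : ε * (l * Real.log 2) ≤ ε * Real.log x :=
      mul_le_mul_of_nonneg_left (by linarith) hε.le
    have g7 : (s : ℝ) * q ≤ (β * (l + 1) + 1) * q := mul_le_mul_of_nonneg_right hs2 hq0.le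
    have g8 : (β * (l + 1) + 1) * q = (l + 1) * ((c - 1) * Real.log 2) + q := by
      rw [← hβq]; ring
    rw [g1]
    rw [← hq] at hsm
    have g9 : (2 - c) * (l * Real.log 2) = l * Real.log 2 - l * ((c - 1) * Real.log 2) := by ring
    linarith
  exact (Real.log_le_log_iff (by positivity) (by positivity)).1 h1

end Pool.Agent.Collatz3.EX
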