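import Pool.Agent.Collatz3.EXMult

set_option autoImplicit false

/-!
Excursions of the 3x+1 map: the master inequality for one dyadic block.
-/

open Finset
open scoped Classical

namespace Pool.Agent.Collatz3.EX

open Pool.Agent.Collatz3.LT

/-- elements of a block with a large iterate -/
noncomputable def Sb (i K : ℕ) (Y : ℝ) : Finset ℕ :=
  (B i).filter fun n => ∃ k : ℕ, k ≤ K ∧ Y ≤ ((T3^[k] n : ℕ) : ℝ)

/-- lowest points followed by a short excursion -/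
noncomputable def M1 (Z Y : ℝ) (l : ℕ) : Finset ℕ :=
  (B l).filter fun m => (m : ℝ) ≤ Z ∧ ∃ r : ℕ, r ≤ l ∧ Y ≤ ((T3^[r] m : ℕ) : ℝ)

/-- lowest points followed by a long flat piece -/
noncomputable def M2 (Z : ℝ) (l : ℕ) : Finset ℕ :=
  (B l).filter fun m => (m : ℝ) ≤ Z ∧ ht (wd l m) ≤ 0

/-- starting points with given lowest point -/
noncomputable def Fb (i : ℕ) (Z : ℝ) (j m : ℕ) : Finset ℕ :=
  (B i).filter fun n => T3^[j] n = m ∧ Bar (wd j n) ∧ (m : ℝ) * Real.exp (ht (wd j n)) ≤ Z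

theorem card_M1 {Z Y : ℝ} (hY : 0 < Y) {l : ℕ} (hl : (2 : ℝ) ^ l ≤ Z) :
    ((M1 Z Y l).card : ℝ) ≤ 2 ^ l * (4 * (l + 1) * Z / Y) := by
  have hsub : M1 Z Y l ⊆ (range (l + 1)).biUnion
      fun r => (B l).filter fun m => Y ≤ ((T3^[r] m : ℕ) : ℝ) := by
    intro m hm
    unfold M1 at hm
    rw [mem_filter] at hm
    obtain ⟨h1, _, r, hr, h2⟩ := hm
    rw [mem_biUnion]
    exact ⟨r, by rw [mem_range]; omega, by rw [mem_filter]; exact ⟨h1, h2⟩⟩
  have h1 := (card_le_card hsub).trans card_biUnion_le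
  have h2 : ((M1 Z Y l).card : ℝ) ≤ ∑ r ∈ range (l + 1),
      (((B l).filter fun m => Y ≤ ((T3^[r] m : ℕ) : ℝ)).card : ℝ) := by exact_mod_cast h1
  have h3 : ∑ r ∈ range (l + 1), (((B l).filter fun m => Y ≤ ((T3^[r] m : ℕ) : ℝ)).card : ℝ) ≤
      ∑ _r ∈ range (l + 1), (4 : ℝ) ^ (l + 1) / Y :=
    sum_le_sum fun r hr => card_short (by rw [mem_range] at hr; omega) hY
  refine h2.trans (h3.trans ?_)
  rw [sum_const, card_range, nsmul_eq_mul]
  have e : (4 : ℝ) ^ (l + 1) = 4 * 2 ^ l * 2 ^ l := by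
    rw [pow_succ, mul_assoc, ← mul_pow]; norm_num; ring
  rw [e]
  push_cast
  have h5 : ((l : ℝ) + 1) * (4 * 2 ^ l * 2 ^ l / Y) = 2 ^ l * (4 * (l + 1) * 2 ^ l / Y) := by
    field_simp
  rw [h5]
  refine mul_le_mul_of_nonneg_left ?_ (by positivity)
  refine div_le_div_of_nonneg_right ?_ hY.le
  exact mul_le_mul_of_nonneg_left hl (by positivity)

theorem card_M2 (Z : ℝ) (l : ℕ) : ((M2 Z l).card : ℝ) ≤ 2 ^ l * Real.exp (-dl * l) := by
  refine le_trans ?_ (card_long l)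
  have : M2 Z l ⊆ (B l).filter fun m => ht (wd l m) ≤ 0 := by
    intro m hm
    unfold M2 at hm
    rw [mem_filter] at hm ⊢
    exact ⟨hm.1, hm.2.2⟩
  exact_mod_cast card_le_card this

theorem two_pow_ge (K : ℕ) : ((K : ℝ) + 1) ≤ 2 ^ K := by
  have : K + 1 ≤ 2 ^ K := Nat.lt_two_pow_self
  exact_mod_cast this

/-- the cover -/
theorem cover {i K l0 : ℕ} {Y : ℝ} (hY : 0 < Y) {Z : ℝ} (hZ : Z = 2 ^ (i + 1) * (K + 1)) {n : ℕ}
    (hn : n ∈ Sb i K Y) :
    (∃ j ∈ range (K + 1), ∃ l ∈ (range (i + 1 + K + 1)).filter (fun l => l0 ≤ l ∧ (2 : ℝ) ^ l ≤ Z),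
      ∃ m ∈ M1 Z Y l ∪ M2 Z l, n ∈ Fb i Z j m) ∨
    (∃ j ∈ (range (K + 1)).filter
        (fun j : ℕ => (j : ℝ) ≤ K - (Real.log Y - l0 * Real.log 2) / Real.log (3 / 2)),
      ∃ m ∈ Ico 1 (2 ^ l0), n ∈ Fb i Z j m) := by
  unfold Sb at hn
  rw [mem_filter, mem_B] at hn
  obtain ⟨⟨hn1, hn2⟩, k, hk, hkY⟩ := hn
  have hn0 : 1 ≤ n := le_trans Nat.one_le_two_pow hn1
  obtain ⟨j, r, hjr, hbar, hflat, hrY, hhigh, hm1⟩ := decomp hn0 hY hkY
  obtain ⟨m, hm⟩ : ∃ m, m = T3^[j] n := ⟨_, rfl⟩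
  rw [← hm] at hflat hrY hhigh hm1
  have hm0 : (0 : ℝ) < m := by exact_mod_cast hm1
  have hjK : j ≤ K := by omega
  have hnZ : (n : ℝ) * (j + 1) ≤ Z := by
    rw [hZ]
    have h1 : (n : ℝ) ≤ 2 ^ (i + 1) := by exact_mod_cast hn2.le
    have h2 : (j : ℝ) + 1 ≤ K + 1 := by
      have : (j : ℝ) ≤ K := by exact_mod_cast hjK
      linarith
    exact mul_le_mul h1 h2 (by positivity) (by positivity)
  have hZm : (m : ℝ) * Real.exp (ht (wd j n)) ≤ Z := hhigh.trans hnZ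
  have hmZ : (m : ℝ) ≤ Z := by
    have h1 := Real.one_le_exp hbar.ht_nonneg
    nlinarith
  have hF : n ∈ Fb i Z j m := by
    unfold Fb
    rw [mem_filter, mem_B]
    exact ⟨⟨hn1, hn2⟩, hm.symm, hbar, hZm⟩
  obtain ⟨l, hl⟩ : ∃ l, l = Nat.log 2 m := ⟨_, rfl⟩
  have hl1 : 2 ^ l ≤ m := by rw [hl]; exact Nat.pow_log_le_self 2 (by omega)
  have hl2 : m < 2 ^ (l + 1) := by rw [hl]; exact Nat.lt_pow_succ_log_self (by norm_num) m
  have hl3 : (2 : ℝ) ^ l ≤ Z := le_trans (by exact_mod_cast hl1) hmZ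
  have hmB : m ∈ B l := mem_B.2 ⟨hl1, hl2⟩
  rcases Nat.lt_or_ge l l0 with hll | hll
  · right
    have hr : (Real.log Y - l0 * Real.log 2) / Real.log (3 / 2) ≤ r := by
      rw [div_le_iff₀ (Real.log_pos (by norm_num))]
      have h1 := growth r m
      have h2 : (m : ℝ) + 1 ≤ 2 ^ l0 := by
        have : m + 1 ≤ 2 ^ l0 := le_trans hl2 (Nat.pow_le_pow_right (by norm_num) hll)
        exact_mod_cast this
      have h3 : Y ≤ (3 / 2) ^ r * 2 ^ l0 := by
        have : (3 / 2 : ℝ) ^ r * ((m : ℝ) + 1) ≤ (3 / 2) ^ r * 2 ^ l0 :=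
          mul_le_mul_of_nonneg_left h2 (by positivity)
        linarith
      have h4 := Real.log_le_log hY h3
      rw [Real.log_mul (by positivity) (by positivity), Real.log_pow, Real.log_pow] at h4
      linarith
    have hjr' : (j : ℝ) + r ≤ K := by exact_mod_cast (show j + r ≤ K by omega)
    refine ⟨j, ?_, m, ?_, hF⟩
    · rw [mem_filter, mem_range]
      exact ⟨by omega, by linarith⟩
    · rw [mem_Ico]
      exact ⟨hm1, lt_of_lt_of_le hl2 (Nat.pow_le_pow_right (by norm_num) hll)⟩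
  · left
    refine ⟨j, by rw [mem_range]; omega, l, ?_, m, ?_, hF⟩
    · rw [mem_filter, mem_range]
      refine ⟨?_, hll, hl3⟩
      have h1 : Z ≤ 2 ^ (i + 1 + K) := by
        rw [hZ, pow_add 2 (i + 1) K]
        exact mul_le_mul_of_nonneg_left (two_pow_ge K) (by positivity)
      have h2 : (2 : ℝ) ^ l ≤ 2 ^ (i + 1 + K) := hl3.trans h1
      have h3 := (pow_le_pow_iff_right₀ (by norm_num : (1 : ℝ) < 2)).1 h2
      omega
    · rw [mem_union]
      rcases Nat.lt_or_ge l r with hlr | hlr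
      · right
        unfold M2
        rw [mem_filter]
        exact ⟨hmB, hmZ, hflat l hlr.le⟩
      · left
        unfold M1
        rw [mem_filter]
        exact ⟨hmB, hmZ, r, hlr, hrY⟩

/-- master inequality for one block -/
theorem master (hS : StmtS) {θ θ' : ℝ} (h0 : 0 ≤ θ) (hθ : θ < 1) (h0' : 0 ≤ θ') (hθ' : θ' < 1)
    {ε ε' : ℝ} (hε : 0 < ε) (hε' : 0 < ε') :
    ∃ C : ℝ, 0 < C ∧ ∀ (i K l0 : ℕ) (Y Z : ℝ), 0 < Y → Z = 2 ^ (i + 1) * (K + 1) →
    ((Sb i K Y).card : ℝ) ≤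
      C * ((K + 1) * ((i + K + 2) * (Real.exp ((Lam θ + ε) * K) *
        (4 * (i + K + 2) * Z ^ 2 / Y + Z * Real.exp (-dl * l0))))) +
      C * ((K + 1) * (2 ^ l0 * Real.exp (θ' * Real.log Z +
        (Lam θ' + ε') * (K - (Real.log Y - l0 * Real.log 2) / Real.log (3 / 2))))) := by
  obtain ⟨C1, hC1, h1⟩ := mult hS h0 hθ hε
  obtain ⟨C2, hC2, h2⟩ := mult hS h0' hθ' hε'
  have hL := Lam_pos hθ
  have hL' := Lam_pos hθ'
  refine ⟨max C1 C2, lt_max_of_lt_left hC1, ?_⟩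
  intro i K l0 Y Z hY hZ
  have hZ0 : 0 < Z := by rw [hZ]; positivity
  have hZ1 : 1 ≤ Z := by
    rw [hZ]
    have a1 : (1 : ℝ) ≤ 2 ^ (i + 1) := one_le_pow₀ (by norm_num)
    have a2 : (1 : ℝ) ≤ (K : ℝ) + 1 := by
      have : (0 : ℝ) ≤ K := Nat.cast_nonneg K
      linarith
    nlinarith
  have hlZ : 0 ≤ Real.log Z := Real.log_nonneg hZ1
  obtain ⟨LS, hLS⟩ : ∃ LS, LS = (range (i + 1 + K + 1)).filter
    (fun l => l0 ≤ l ∧ (2 : ℝ) ^ l ≤ Z) := ⟨_, rfl⟩
  obtain ⟨JS, hJS⟩ : ∃ JS, JS = (range (K + 1)).filter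
        (fun j : ℕ => (j : ℝ) ≤ K - (Real.log Y - l0 * Real.log 2) / Real.log (3 / 2)) := ⟨_, rfl⟩
  have hsub : Sb i K Y ⊆
      ((range (K + 1)).biUnion fun j => LS.biUnion fun l => (M1 Z Y l ∪ M2 Z l).biUnion
        fun m => Fb i Z j m) ∪
      (JS.biUnion fun j => (Ico 1 (2 ^ l0)).biUnion fun m => Fb i Z j m) := by
    intro n hn
    rw [mem_union]
    rcases cover (l0 := l0) hY hZ hn with ⟨j, hj, l, hl, m, hm, h⟩ | ⟨j, hj, m, hm, h⟩
    · left
      rw [mem_biUnion]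
      refine ⟨j, hj, ?_⟩
      rw [mem_biUnion]
      refine ⟨l, by rw [hLS]; exact hl, ?_⟩
      rw [mem_biUnion]
      exact ⟨m, hm, h⟩
    · right
      rw [mem_biUnion]
      refine ⟨j, by rw [hJS]; exact hj, ?_⟩
      rw [mem_biUnion]
      exact ⟨m, hm, h⟩
  have hcard : ((Sb i K Y).card : ℝ) ≤
      ∑ j ∈ range (K + 1), ∑ l ∈ LS, ∑ m ∈ M1 Z Y l ∪ M2 Z l, ((Fb i Z j m).card : ℝ) +
      ∑ j ∈ JS, ∑ m ∈ Ico 1 (2 ^ l0), ((Fb i Z j m).card : ℝ) := by
    have g1 := (card_le_card hsub).trans (card_union_le _ _)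
    have g2 : ((range (K + 1)).biUnion fun j => LS.biUnion fun l => (M1 Z Y l ∪ M2 Z l).biUnion
        fun m => Fb i Z j m).card ≤
        ∑ j ∈ range (K + 1), ∑ l ∈ LS, ∑ m ∈ M1 Z Y l ∪ M2 Z l, (Fb i Z j m).card :=
      card_biUnion_le.trans (sum_le_sum fun j _ => card_biUnion_le.trans
        (sum_le_sum fun l _ => card_biUnion_le))
    have g3 : (JS.biUnion fun j => (Ico 1 (2 ^ l0)).biUnion fun m => Fb i Z j m).card ≤
        ∑ j ∈ JS, ∑ m ∈ Ico 1 (2 ^ l0), (Fb i Z j m).card :=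
      card_biUnion_le.trans (sum_le_sum fun j _ => card_biUnion_le)
    exact_mod_cast g1.trans (Nat.add_le_add g2 g3)
  -- first part
  obtain ⟨E, hE⟩ : ∃ E, E = Real.exp ((Lam θ + ε) * K) := ⟨_, rfl⟩
  have hE0 : 0 < E := by rw [hE]; exact Real.exp_pos _
  obtain ⟨Q, hQ⟩ : ∃ Q, Q = 4 * (i + K + 2) * Z ^ 2 / Y + Z * Real.exp (-dl * l0) := ⟨_, rfl⟩
  have hQ0 : 0 ≤ Q := by rw [hQ]; positivity
  have hpart1 : ∑ j ∈ range (K + 1), ∑ l ∈ LS, ∑ m ∈ M1 Z Y l ∪ M2 Z l,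
      ((Fb i Z j m).card : ℝ) ≤ C1 * ((K + 1) * ((i + K + 2) * (E * Q))) := by
    have hFm : ∀ j ∈ range (K + 1), ∀ l ∈ LS, ∀ m ∈ M1 Z Y l ∪ M2 Z l,
        ((Fb i Z j m).card : ℝ) ≤ C1 * E * (Z / 2 ^ l) := by
      intro j hj l hl m hm
      rw [mem_range] at hj
      have hmm : m ∈ B l ∧ (m : ℝ) ≤ Z := by
        rw [mem_union] at hm
        rcases hm with hm | hm
        · unfold M1 at hm; rw [mem_filter] at hm; exact ⟨hm.1, hm.2.1⟩
        · unfold M2 at hm; rw [mem_filter] at hm; exact ⟨hm.1, hm.2.1⟩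
      obtain ⟨hmB, hmZ⟩ := hmm
      rw [mem_B] at hmB
      have hm1 : 1 ≤ m := le_trans Nat.one_le_two_pow hmB.1
      have hm0 : (0 : ℝ) < m := by exact_mod_cast hm1
      have g := h1 j m Z (Fb i Z j m) hm1 hZ0 (fun b hb => by
        unfold Fb at hb; rw [mem_filter] at hb; exact hb.2)
      refine g.trans ?_
      rw [mul_assoc, hE]
      refine mul_le_mul_of_nonneg_left ?_ hC1.le
      have e : Z / 2 ^ l = Real.exp (Real.log Z - l * Real.log 2) := by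
        rw [Real.exp_sub, Real.exp_log hZ0, ← Real.log_pow, Real.exp_log (by positivity)]
      rw [e, ← Real.exp_add]
      apply Real.exp_le_exp.2
      have a1 : (l : ℝ) * Real.log 2 ≤ Real.log m := by
        rw [← Real.log_pow]
        exact Real.log_le_log (by positivity) (by exact_mod_cast hmB.1)
      have a2 : Real.log m ≤ Real.log Z := Real.log_le_log hm0 hmZ
      have a3 : (j : ℝ) ≤ K := by exact_mod_cast (by omega : j ≤ K)
      have a4 : (Lam θ + ε) * j ≤ (Lam θ + ε) * K := mul_le_mul_of_nonneg_left a3 (by linarith)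
      have a5 : θ * (Real.log Z - Real.log m) ≤ 1 * (Real.log Z - Real.log m) :=
        mul_le_mul_of_nonneg_right hθ.le (by linarith)
      linarith
    have hl : ∀ j ∈ range (K + 1), ∀ l ∈ LS, ∑ m ∈ M1 Z Y l ∪ M2 Z l,
        ((Fb i Z j m).card : ℝ) ≤ C1 * E * Q := by
      intro j hj l hl
      have g1 := sum_le_sum (hFm j hj l hl)
      rw [sum_const, nsmul_eq_mul] at g1
      refine g1.trans ?_
      rw [hLS, mem_filter, mem_range] at hl
      obtain ⟨hl1, hl2, hl3⟩ := hl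
      have g2 : ((M1 Z Y l ∪ M2 Z l).card : ℝ) ≤
          2 ^ l * (4 * (l + 1) * Z / Y) + 2 ^ l * Real.exp (-dl * l) := by
        have := card_union_le (M1 Z Y l) (M2 Z l)
        have g3 : ((M1 Z Y l ∪ M2 Z l).card : ℝ) ≤ (M1 Z Y l).card + (M2 Z l).card := by
          exact_mod_cast this
        linarith [card_M1 hY hl3, card_M2 Z l]
      have g3 : 2 ^ l * (4 * (l + 1) * Z / Y) + 2 ^ l * Real.exp (-dl * l) ≤
          2 ^ l * (4 * (i + K + 2) * Z / Y + Real.exp (-dl * l0)) := by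
        rw [← mul_add]
        refine mul_le_mul_of_nonneg_left (add_le_add ?_ ?_) (by positivity)
        · refine div_le_div_of_nonneg_right ?_ hY.le
          refine mul_le_mul_of_nonneg_right ?_ hZ0.le
          have : (l : ℝ) ≤ i + K + 1 := by
            have : l ≤ i + K + 1 := by omega
            exact_mod_cast this
          linarith
        · apply Real.exp_le_exp.2
          have a1 : (l0 : ℝ) ≤ l := by exact_mod_cast hl2
          have a2 := dl_pos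
          nlinarith
      have g4 : ((M1 Z Y l ∪ M2 Z l).card : ℝ) * (C1 * E * (Z / 2 ^ l)) ≤
          (2 ^ l * (4 * (i + K + 2) * Z / Y + Real.exp (-dl * l0))) * (C1 * E * (Z / 2 ^ l)) :=
        mul_le_mul_of_nonneg_right (g2.trans g3) (by positivity)
      refine g4.trans (le_of_eq ?_)
      rw [hQ]
      field_simp
    have hLc : (LS.card : ℝ) ≤ i + K + 2 := by
      have : LS.card ≤ i + 1 + K + 1 := by
        rw [hLS]
        exact (card_filter_le _ _).trans (by rw [card_range])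
      have h' : (LS.card : ℝ) ≤ ((i + 1 + K + 1 : ℕ) : ℝ) := by exact_mod_cast this
      push_cast at h'
      linarith
    have hj : ∀ j ∈ range (K + 1), ∑ l ∈ LS, ∑ m ∈ M1 Z Y l ∪ M2 Z l,
        ((Fb i Z j m).card : ℝ) ≤ (i + K + 2) * (C1 * E * Q) := by
      intro j hj
      have g1 := sum_le_sum (hl j hj)
      rw [sum_const, nsmul_eq_mul] at g1
      exact g1.trans (mul_le_mul_of_nonneg_right hLc (by positivity))
    have g1 := sum_le_sum hj
    rw [sum_const, card_range, nsmul_eq_mul] at g1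
    refine g1.trans (le_of_eq ?_)
    push_cast
    ring
  -- second part
  obtain ⟨E', hE'⟩ : ∃ E', E' = Real.exp (θ' * Real.log Z +
        (Lam θ' + ε') * (K - (Real.log Y - l0 * Real.log 2) / Real.log (3 / 2))) := ⟨_, rfl⟩
  have hE0' : 0 < E' := by rw [hE']; exact Real.exp_pos _
  have hpart2 : ∑ j ∈ JS, ∑ m ∈ Ico 1 (2 ^ l0), ((Fb i Z j m).card : ℝ) ≤
      C2 * ((K + 1) * (2 ^ l0 * E')) := by
    have hFm : ∀ j ∈ JS, ∀ m ∈ Ico 1 (2 ^ l0), ((Fb i Z j m).card : ℝ) ≤ C2 * E' := by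
      intro j hj m hm
      rw [hJS, mem_filter, mem_range] at hj
      rw [mem_Ico] at hm
      have hm0 : (0 : ℝ) < m := by exact_mod_cast hm.1
      have g := h2 j m Z (Fb i Z j m) hm.1 hZ0 (fun b hb => by
        unfold Fb at hb; rw [mem_filter] at hb; exact hb.2)
      refine g.trans ?_
      rw [hE']
      refine mul_le_mul_of_nonneg_left ?_ hC2.le
      apply Real.exp_le_exp.2
      have a1 : 0 ≤ Real.log m := Real.log_natCast_nonneg m
      have a2 : 0 ≤ θ' * Real.log m := mul_nonneg h0' a1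
      have a3 := mul_le_mul_of_nonneg_left hj.2 (show 0 ≤ Lam θ' + ε' by linarith)
      linarith
    have g1 : ∑ j ∈ JS, ∑ m ∈ Ico 1 (2 ^ l0), ((Fb i Z j m).card : ℝ) ≤
        ∑ j ∈ JS, ∑ m ∈ Ico 1 (2 ^ l0), C2 * E' := sum_le_sum fun j hj => sum_le_sum (hFm j hj)
    rw [sum_const, sum_const, nsmul_eq_mul, nsmul_eq_mul, Nat.card_Ico] at g1
    have hJc : (JS.card : ℝ) ≤ K + 1 := by
      have : JS.card ≤ K + 1 := by
        rw [hJS]
        exact (card_filter_le _ _).trans (by rw [card_range])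
      exact_mod_cast this
    have hIc : ((2 ^ l0 - 1 : ℕ) : ℝ) ≤ 2 ^ l0 := by
      have : 2 ^ l0 - 1 ≤ 2 ^ l0 := Nat.sub_le _ _
      exact_mod_cast this
    refine g1.trans ?_
    have g2 : ((2 ^ l0 - 1 : ℕ) : ℝ) * (C2 * E') ≤ 2 ^ l0 * (C2 * E') :=
      mul_le_mul_of_nonneg_right hIc (by positivity)
    refine (mul_le_mul hJc g2 (by positivity) (by positivity)).trans (le_of_eq ?_)
    ring
  have hmax1 : C1 * ((K + 1) * ((i + K + 2) * (E * Q))) ≤
      max C1 C2 * ((K + 1) * ((i + K + 2) * (E * Q))) :=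
    mul_le_mul_of_nonneg_right (le_max_left _ _) (by positivity)
  have hmax2 : C2 * ((K + 1) * (2 ^ l0 * E')) ≤ max C1 C2 * ((K + 1) * (2 ^ l0 * E')) :=
    mul_le_mul_of_nonneg_right (le_max_right _ _) (by positivity)
  rw [← hE, ← hE', ← hQ]
  linarith

end Pool.Agent.Collatz3.EX
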