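import Pool.Agent.Collatz3.EXCount

set_option autoImplicit false

/-!
Excursions of the 3x+1 map: multiplicities (from Theorem S) and the decomposition at the lowest
point before the excursion.
-/

open Finset

namespace Pool.Agent.Collatz3.EX

open Pool.Agent.Collatz3.LT

/-- number of starting points which descend to `m` along a barrier path -/
theorem mult (hS : StmtS) {θ : ℝ} (h0 : 0 ≤ θ) (hθ : θ < 1) {ε : ℝ} (hε : 0 < ε) :
    ∃ C : ℝ, 0 < C ∧ ∀ (j m : ℕ) (Z : ℝ) (F : Finset ℕ), 1 ≤ m → 0 < Z →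
      (∀ b ∈ F, T3^[j] b = m ∧ Bar (wd j b) ∧ (m : ℝ) * Real.exp (ht (wd j b)) ≤ Z) →
      (F.card : ℝ) ≤ C * Real.exp (θ * (Real.log Z - Real.log m) + (Lam θ + ε) * j) := by
  obtain ⟨C, hC⟩ := hS θ hθ ε hε
  refine ⟨max C 1, by positivity, ?_⟩
  intro j m Z F hm hZ hF
  have hm0 : (0 : ℝ) < m := by exact_mod_cast hm
  have hinj : Set.InjOn (fun b => wd j b) (F : Set ℕ) := by
    intro b hb b' hb' h
    have h1 := (wd_read j b).2
    have h2 := (wd_read j b').2
    rw [(hF b hb).1] at h1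
    rw [(hF b' hb').1] at h2
    have h : wd j b = wd j b' := h
    rw [h, h2] at h1
    exact_mod_cast h1.symm
  have h1 : (F.card : ℝ) ≤ ∑ b ∈ F, Real.exp (θ * (Real.log Z - Real.log m)) *
      Real.exp (-θ * ht (wd j b)) := by
    rw [card_eq_sum_ones]
    push_cast
    refine sum_le_sum fun b hb => ?_
    rw [← Real.exp_add]
    apply Real.one_le_exp
    have h2 := (hF b hb).2.2
    have h3 := Real.log_le_log (by positivity) h2
    rw [Real.log_mul hm0.ne' (Real.exp_pos _).ne', Real.log_exp] at h3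
    nlinarith
  have h2 : ∑ b ∈ F, Real.exp (-θ * ht (wd j b)) ≤ AA θ j m := by
    have e := sum_image (s := F) (g := fun b => wd j b) (f := fun w => Real.exp (-θ * ht w)) hinj
    rw [← e]
    unfold AA
    refine sum_le_sum_of_subset_of_nonneg ?_ fun _ _ _ => (Real.exp_pos _).le
    intro w hw
    obtain ⟨b, hb, rfl⟩ := mem_image.1 hw
    rw [mem_BR]
    refine ⟨wd_length _ _, (hF b hb).2.1, ?_⟩
    have := (wd_read j b).1
    rwa [(hF b hb).1] at this
  rw [← mul_sum] at h1
  refine h1.trans ?_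
  have h3 : Real.exp (θ * (Real.log Z - Real.log m)) * ∑ b ∈ F, Real.exp (-θ * ht (wd j b)) ≤
      Real.exp (θ * (Real.log Z - Real.log m)) * (max C 1 * Real.exp ((Lam θ + ε) * j)) := by
    refine mul_le_mul_of_nonneg_left ?_ (Real.exp_pos _).le
    refine h2.trans ((hC j m).trans ?_)
    exact mul_le_mul_of_nonneg_right (le_max_left _ _) (Real.exp_pos _).le
  refine h3.trans (le_of_eq ?_)
  rw [Real.exp_add]
  ring

/-- the iterates grow at most by the factor 3/2 -/
theorem growth (r m : ℕ) : ((T3^[r] m : ℕ) : ℝ) + 1 ≤ (3 / 2) ^ r * (m + 1) := by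
  induction r generalizing m with
  | zero => simp
  | succ r ih =>
    rw [Function.iterate_succ_apply]
    refine (ih (T3 m)).trans ?_
    rw [pow_succ, mul_assoc]
    refine mul_le_mul_of_nonneg_left ?_ (by positivity)
    have h : 2 * (T3 m + 1) ≤ 3 * (m + 1) := by
      unfold T3
      split_ifs <;> omega
    have h' : (2 : ℝ) * ((T3 m : ℕ) + 1) ≤ 3 * (m + 1) := by exact_mod_cast h
    linarith

/-- decomposition of an excursion at the lowest point before it -/
theorem decomp {n k : ℕ} {Y : ℝ} (hn : 1 ≤ n) (hY : 0 < Y) (hk : Y ≤ ((T3^[k] n : ℕ) : ℝ)) :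
    ∃ j r : ℕ, j + r ≤ k ∧ Bar (wd j n) ∧ (∀ i ≤ r, ht (wd i (T3^[j] n)) ≤ 0) ∧
      Y ≤ ((T3^[r] (T3^[j] n) : ℕ) : ℝ) ∧
      ((T3^[j] n : ℕ) : ℝ) * Real.exp (ht (wd j n)) ≤ n * (j + 1) ∧ 1 ≤ T3^[j] n := by
  classical
  have hex : ∃ k, Y ≤ ((T3^[k] n : ℕ) : ℝ) := ⟨k, hk⟩
  have hk1 := Nat.find_spec hex
  have hk2 : Nat.find hex ≤ k := Nat.find_min' hex hk
  have hk3 := fun i (hi : i < Nat.find hex) => Nat.find_min hex hi
  set k' := Nat.find hex with hk'
  have hpos' : 0 < T3^[k'] n := by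
    have : (0 : ℝ) < ((T3^[k'] n : ℕ) : ℝ) := lt_of_lt_of_le hY hk1
    exact_mod_cast this
  have key : ∀ i j, i < j → j < k' → T3^[i] n ≠ T3^[j] n := by
    intro i j hij hj he
    apply hk3 (k' - j + i) (by omega)
    rw [Function.iterate_add_apply, he, ← Function.iterate_add_apply, Nat.sub_add_cancel hj.le]
    exact hk1
  have hinj : Set.InjOn (fun i => T3^[i] n) (Set.Iio k') := by
    intro i hi j hj hij
    rcases lt_trichotomy i j with h1 | h1 | h1
    · exact absurd hij (key i j h1 hj)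
    · exact h1
    · exact absurd hij.symm (key j i h1 hi)
  obtain ⟨j, hj1, hj2, hj3⟩ := lowest k' n
  have hposj : 0 < T3^[j] n := iter_pos hpos' hj1
  refine ⟨j, k' - j, by omega, hj3, ?_, ?_, ?_, hposj⟩
  · intro i hi
    have h1 := ht_wd_sub (show j ≤ j + i by omega) n
    rw [Nat.add_sub_cancel_left] at h1
    have h2 := hj2 (j + i) (by omega)
    linarith
  · rw [← Function.iterate_add_apply, Nat.sub_add_cancel hj1]
    exact hk1
  · have h1 := node_ge (k := j) (b := n) hposj (hinj.mono (fun i hi => lt_of_lt_of_le hi hj1))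
    exact h1

end Pool.Agent.Collatz3.EX
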