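import Pool.Agent.Collatz3.EXTao

set_option autoImplicit false

/-!
Excursions of the 3x+1 map: straight descent to a bound `M`, with a power of `M`.
-/

open Finset

namespace Pool.Agent.Collatz3.EX

open Pool.Agent.Collatz3.LT

/-- no straight descent to `M` -/
def SM (ε M X : ℝ) : Set ℕ := {n : ℕ | 1 ≤ n ∧ (n : ℝ) ≤ X ∧
  ¬ ∃ k : ℕ, (k : ℝ) ≤ (2 / Real.log (4 / 3) + ε) * Real.log n ∧ ((T3^[k] n : ℕ) : ℝ) ≤ M ∧
    ∀ j ≤ k, ((T3^[j] n : ℕ) : ℝ) ≤ (n : ℝ) ^ (1 + ε)}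

theorem SM_le {ε M X : ℝ} (hX : 0 ≤ X) : ((SM ε M X).ncard : ℝ) ≤ X := by
  have h : SM ε M X ⊆ Set.Icc 1 ⌊X⌋₊ := by
    rintro n ⟨h1, h2, -⟩
    exact ⟨h1, Nat.le_floor h2⟩
  have h3 : (Set.Icc 1 ⌊X⌋₊ : Set ℕ).ncard = ⌊X⌋₊ := by
    rw [Set.ncard_eq_toFinset_card', Set.toFinset_Icc, Nat.card_Icc]
    omega
  have h4 := Set.ncard_le_ncard h (Set.finite_Icc _ _)
  rw [h3] at h4
  exact le_trans (by exact_mod_cast h4) (Nat.floor_le hX)

theorem straightM (hS : StmtS) {ε : ℝ} (hε : 0 < ε) : ∃ c : ℝ, 0 < c ∧ ∃ C : ℝ, 0 < C ∧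
    ∀ M X : ℝ, 1 ≤ M → M ≤ X → ((SM ε M X).ncard : ℝ) ≤ C * X * M ^ (-c) := by
  obtain ⟨e, he⟩ : ∃ e, e = min ε 1 := ⟨_, rfl⟩
  have he0 : 0 < e := by rw [he]; exact lt_min hε one_pos
  have he1 : e ≤ 1 := by rw [he]; exact min_le_right _ _
  have hee : e ≤ ε := by rw [he]; exact min_le_left _ _
  have a1 : 0 < Real.log (4 / 3) := Real.log_pos (by norm_num)
  have a2 : 0 < Real.log (3 / 2) := Real.log_pos (by norm_num)
  have a3 : Real.log (3 / 2) ≤ 1 := by
    have := Real.log_le_sub_one_of_pos (show (0 : ℝ) < 3 / 2 by norm_num)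
    linarith
  obtain ⟨c1, hc1, C1, hC1, hT⟩ := TP.tao (e / 2) (by positivity)
  obtain ⟨δ2, d2, h2⟩ := power_saving hS (c := 1 + ε) (C := 2 / Real.log (4 / 3) + e)
    (by linarith) (by positivity) (by
      have : e < (1 + ε) / Real.log (3 / 2) := by
        rw [lt_div_iff₀ a2]
        nlinarith
      linarith)
  obtain ⟨x0, hx0⟩ := Filter.eventually_atTop.1 h2
  obtain ⟨g, hg⟩ : ∃ g, g = 2 / Real.log (4 / 3) := ⟨_, rfl⟩
  have hg0 : 0 < g := by rw [hg]; positivity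
  rw [← hg] at hT hx0
  obtain ⟨d, hd⟩ : ∃ d, d = min (1 / 2) (e / (2 * (g + e))) := ⟨_, rfl⟩
  have hd0 : 0 < d := by rw [hd]; exact lt_min (by norm_num) (by positivity)
  have hd1 : d ≤ 1 / 2 := by rw [hd]; exact min_le_left _ _
  have hd2 : d * (g + e) ≤ e / 2 := by
    have : d ≤ e / (2 * (g + e)) := by rw [hd]; exact min_le_right _ _
    rw [le_div_iff₀ (by positivity)] at this
    linarith
  obtain ⟨c, hc⟩ : ∃ c, c = min d (min c1 (min δ2 1)) := ⟨_, rfl⟩
  have hc0 : 0 < c := by rw [hc]; exact lt_min hd0 (lt_min hc1 (lt_min d2 one_pos))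
  have hcd : c ≤ d := by rw [hc]; exact min_le_left _ _
  have hcc1 : c ≤ c1 := by rw [hc]; exact (min_le_right _ _).trans (min_le_left _ _)
  have hcδ : c ≤ δ2 := by
    rw [hc]; exact (min_le_right _ _).trans ((min_le_right _ _).trans (min_le_left _ _))
  have hc1' : c ≤ 1 := by
    rw [hc]; exact (min_le_right _ _).trans ((min_le_right _ _).trans (min_le_right _ _))
  obtain ⟨R, hR⟩ : ∃ R : ℝ, R = (x0 : ℝ) + 1 := ⟨_, rfl⟩
  have hR0 : 0 < R := by rw [hR]; positivity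
  refine ⟨c, hc0, max (2 + C1) (R ^ c), lt_max_of_lt_left (by positivity), ?_⟩
  intro M X hM hMX
  have hM0 : 0 < M := by linarith
  have hX1 : 1 ≤ X := hM.trans hMX
  have hX0 : 0 < X := by linarith
  have hMc : 0 < M ^ (-c) := Real.rpow_pos_of_pos hM0 _
  rcases Nat.lt_or_ge ⌊X⌋₊ x0 with hsmall | hbig
  · have hXR : X ≤ R := by
      have h1 := Nat.lt_floor_add_one X
      have h3 : (⌊X⌋₊ : ℝ) + 1 ≤ x0 + 1 := by
        have : (⌊X⌋₊ : ℝ) ≤ x0 := by exact_mod_cast hsmall.le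
        linarith
      rw [hR]; linarith
    refine (SM_le hX0.le).trans ?_
    have h1 : 1 ≤ R ^ c * M ^ (-c) := by
      rw [Real.rpow_neg hM0.le, ← div_eq_mul_inv, one_le_div (Real.rpow_pos_of_pos hM0 _)]
      exact Real.rpow_le_rpow hM0.le (hMX.trans hXR) hc0.le
    calc X = X * 1 := (mul_one _).symm
      _ ≤ X * (R ^ c * M ^ (-c)) := mul_le_mul_of_nonneg_left h1 hX0.le
      _ = R ^ c * X * M ^ (-c) := by ring
      _ ≤ max (2 + C1) (R ^ c) * X * M ^ (-c) := by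
        refine mul_le_mul_of_nonneg_right ?_ hMc.le
        exact mul_le_mul_of_nonneg_right (le_max_right _ _) hX0.le
  · obtain ⟨S, hSd⟩ : ∃ S : Set ℤ, S = {n : ℤ | |(n : ℝ)| ≤ X ∧ ∀ j : ℕ,
      (j : ℝ) ≤ (g + e / 2) * Real.log X → M < |((Helper14.T^[j] n : ℤ) : ℝ)|} := ⟨_, rfl⟩
    have hSc := hT M hM X hX1
    rw [← hSd] at hSc
    have hlX : 0 ≤ Real.log X := Real.log_nonneg hX1
    have hSfin : S.Finite := by
      rw [hSd]
      refine (Set.finite_Icc (-(⌊X⌋₊ : ℤ)) ⌊X⌋₊).subset fun n hn => ?_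
      have h1 : |n| ≤ (⌊X⌋₊ : ℤ) := by
        have h2 : (n.natAbs : ℝ) ≤ X := by
          rw [Nat.cast_natAbs]; push_cast; exact hn.1
        have h3 := Nat.le_floor h2
        rw [Int.abs_eq_natAbs]
        exact_mod_cast h3
      rw [Set.mem_Icc]
      exact abs_le.1 h1
    obtain ⟨E, hE⟩ : ∃ E : Set ℕ, E = Ex (g + e) (1 + ε) ⌊X⌋₊ := ⟨_, rfl⟩
    have hEfin : E.Finite := by rw [hE]; exact Ex_finite _ _ _
    have hEc := hx0 ⌊X⌋₊ hbig
    rw [← hE] at hEc
    have hsub : SM ε M X ⊆ (Set.Icc 1 ⌊X ^ (1 - d)⌋₊) ∪ (((fun n : ℕ => (n : ℤ)) ⁻¹' S) ∪ E) := by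
      rintro n ⟨h1, h2, h3⟩
      have hn0 : (0 : ℝ) < n := by exact_mod_cast h1
      have hn1 : (1 : ℝ) ≤ n := by exact_mod_cast h1
      have hln0 : 0 ≤ Real.log n := Real.log_nonneg hn1
      rcases le_or_gt (n : ℝ) (X ^ (1 - d)) with h | h
      · left
        exact ⟨h1, Nat.le_floor h⟩
      · right
        have hln : (1 - d) * Real.log X ≤ Real.log n := by
          have := Real.log_le_log (Real.rpow_pos_of_pos hX0 _) h.le
          rwa [Real.log_rpow hX0] at this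
        by_contra hcon
        rw [Set.mem_union, not_or] at hcon
        obtain ⟨c2, c3⟩ := hcon
        have c4 : ∃ j : ℕ, (j : ℝ) ≤ (g + e / 2) * Real.log X ∧ ((T3^[j] n : ℕ) : ℝ) ≤ M := by
          by_contra hno
          push Not at hno
          apply c2
          show (n : ℤ) ∈ S
          rw [hSd]
          refine ⟨?_, fun j hj => ?_⟩
          · push_cast
            rw [abs_of_pos hn0]
            exact h2
          · rw [iter_cast']
            push_cast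
            rw [abs_of_nonneg (Nat.cast_nonneg _)]
            exact hno j hj
        obtain ⟨k, k1, k2⟩ := c4
        have k3 : (k : ℝ) ≤ (g + e) * Real.log n := by
          refine k1.trans ?_
          have q1 : (g + e) * ((1 - d) * Real.log X) ≤ (g + e) * Real.log n :=
            mul_le_mul_of_nonneg_left hln (by positivity)
          have q2 : d * (g + e) * Real.log X ≤ e / 2 * Real.log X :=
            mul_le_mul_of_nonneg_right hd2 hlX
          linarith
        apply h3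
        rw [← hg]
        refine ⟨k, ?_, k2, ?_⟩
        · exact k3.trans (mul_le_mul_of_nonneg_right (by linarith) hln0)
        · intro j hj
          rcases Nat.eq_zero_or_pos j with rfl | hj0
          · show (n : ℝ) ≤ _
            calc (n : ℝ) = (n : ℝ) ^ (1 : ℝ) := (Real.rpow_one _).symm
              _ ≤ (n : ℝ) ^ (1 + ε) := Real.rpow_le_rpow_of_exponent_le hn1 (by linarith)
          · by_contra hlt
            push Not at hlt
            apply c3
            rw [hE]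
            exact ⟨h1, Nat.le_floor h2, j, hj0, le_trans (by exact_mod_cast hj) k3, hlt.le⟩
    have hinj : Function.Injective (fun n : ℕ => (n : ℤ)) := Nat.cast_injective
    have hpre : ((fun n : ℕ => (n : ℤ)) ⁻¹' S).Finite := hSfin.preimage hinj.injOn
    have h1 : (SM ε M X).ncard ≤ (Set.Icc 1 ⌊X ^ (1 - d)⌋₊ : Set ℕ).ncard +
        (((fun n : ℕ => (n : ℤ)) ⁻¹' S).ncard + E.ncard) :=
      (Set.ncard_le_ncard hsub ((Set.finite_Icc _ _).union (hpre.union hEfin))).trans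
        ((Set.ncard_union_le _ _).trans (Nat.add_le_add_left (Set.ncard_union_le _ _) _))
    have h2 : ((fun n : ℕ => (n : ℤ)) ⁻¹' S).ncard ≤ S.ncard := by
      rw [← Set.ncard_image_of_injective _ hinj]
      exact Set.ncard_le_ncard (Set.image_preimage_subset _ _) hSfin
    have h3 : (Set.Icc 1 ⌊X ^ (1 - d)⌋₊ : Set ℕ).ncard = ⌊X ^ (1 - d)⌋₊ := by
      rw [Set.ncard_eq_toFinset_card', Set.toFinset_Icc, Nat.card_Icc]
      omega
    rw [h3] at h1
    have h4 : ((SM ε M X).ncard : ℝ) ≤ ⌊X ^ (1 - d)⌋₊ + ((S.ncard : ℝ) + E.ncard) := by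
      exact_mod_cast h1.trans (Nat.add_le_add_left (Nat.add_le_add_right h2 _) _)
    have h5 : (⌊X ^ (1 - d)⌋₊ : ℝ) ≤ X ^ (1 - d) := Nat.floor_le (Real.rpow_nonneg hX0.le _)
    -- a power of X is at most X * M ^ (-c)
    have hpow : ∀ s : ℝ, c ≤ s → X ^ (1 - s) ≤ X * M ^ (-c) := by
      intro s hs
      have e1 : X ^ (1 - s) = X * X ^ (-s) := by
        rw [sub_eq_add_neg, Real.rpow_add hX0, Real.rpow_one]
      rw [e1]
      refine mul_le_mul_of_nonneg_left ?_ hX0.le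
      calc X ^ (-s) ≤ X ^ (-c) := Real.rpow_le_rpow_of_exponent_le hX1 (by linarith)
        _ ≤ M ^ (-c) := by
          rw [Real.rpow_neg hX0.le, Real.rpow_neg hM0.le]
          apply inv_anti₀ (Real.rpow_pos_of_pos hM0 _)
          exact Real.rpow_le_rpow hM0.le hMX hc0.le
    have h6 : X ^ (1 - d) ≤ X * M ^ (-c) := hpow d hcd
    have h7 : (S.ncard : ℝ) ≤ C1 * (X * M ^ (-c)) := by
      refine hSc.trans ?_
      rw [mul_assoc]
      refine mul_le_mul_of_nonneg_left ?_ hC1.le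
      exact mul_le_mul_of_nonneg_left
        (Real.rpow_le_rpow_of_exponent_le hM (by linarith)) hX0.le
    have h8 : (E.ncard : ℝ) ≤ X * M ^ (-c) := by
      refine hEc.trans ?_
      have hfl1 : (1 : ℝ) ≤ (⌊X⌋₊ : ℝ) := by
        exact_mod_cast Nat.le_floor (by exact_mod_cast hX1 : ((1 : ℕ) : ℝ) ≤ X)
      calc (⌊X⌋₊ : ℝ) ^ (1 - δ2) ≤ (⌊X⌋₊ : ℝ) ^ (1 - min δ2 1) :=
            Real.rpow_le_rpow_of_exponent_le hfl1 (by linarith [min_le_left δ2 1])
        _ ≤ X ^ (1 - min δ2 1) := Real.rpow_le_rpow (by positivity) (Nat.floor_le hX0.le)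
            (by linarith [min_le_right δ2 1])
        _ ≤ X * M ^ (-c) := hpow _ (le_min hcδ hc1')
    calc ((SM ε M X).ncard : ℝ) ≤ X * M ^ (-c) + (C1 * (X * M ^ (-c)) + X * M ^ (-c)) := by
          linarith
      _ = (2 + C1) * X * M ^ (-c) := by ring
      _ ≤ max (2 + C1) (R ^ c) * X * M ^ (-c) := by
        refine mul_le_mul_of_nonneg_right ?_ hMc.le
        exact mul_le_mul_of_nonneg_right (le_max_left _ _) hX0.le

end Pool.Agent.Collatz3.EX
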