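import Pool.Agent.Collatz3.EXFinal
import Pool.Agent.Collatz3.TPFinal

set_option autoImplicit false

/-!
Excursions of the 3x+1 map: descent below a small power, and convergent trajectories.
-/

open Finset

namespace Pool.Agent.Collatz3.EX

open Pool.Agent.Collatz3.LT

theorem iter_cast' (j : ℕ) : ∀ n : ℕ, Helper14.T^[j] (n : ℤ) = ((T3^[j] n : ℕ) : ℤ) := by
  induction j with
  | zero => intro n; rfl
  | succ j ih =>
    intro n
    rw [Function.iterate_succ_apply, Function.iterate_succ_apply]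
    have : Helper14.T (n : ℤ) = ((T3 n : ℕ) : ℤ) := by
      unfold Helper14.T T3
      rcases Nat.even_or_odd' n with ⟨m, rfl | rfl⟩
      · rw [if_pos (by omega), if_pos (by omega)]; omega
      · rw [if_neg (by omega), if_neg (by omega)]; omega
    rw [this, ih]

/-- constants are absorbed -/
theorem absorb {A a b : ℝ} (h : a < b) : ∀ᶠ x : ℕ in Filter.atTop, A * (x : ℝ) ^ a ≤ (x : ℝ) ^ b := by
  have h1 : Filter.Tendsto (fun x : ℕ => (x : ℝ) ^ (b - a)) Filter.atTop Filter.atTop :=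
    (tendsto_rpow_atTop (by linarith)).comp tendsto_natCast_atTop_atTop
  filter_upwards [h1.eventually_ge_atTop A, Filter.eventually_ge_atTop 1] with x hx hx1
  have hx0 : (0 : ℝ) < x := by exact_mod_cast hx1
  have e : (x : ℝ) ^ b = (x : ℝ) ^ (b - a) * (x : ℝ) ^ a := by
    rw [← Real.rpow_add hx0]
    congr 1; ring
  rw [e]
  exact mul_le_mul_of_nonneg_right hx (Real.rpow_nonneg hx0.le _)

/-- no fast descent to a small power -/
def Dn (ε : ℝ) (x : ℕ) : Set ℕ := {n : ℕ | 1 ≤ n ∧ n ≤ x ∧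
  ¬ ∃ k : ℕ, (k : ℝ) ≤ (2 / Real.log (4 / 3) + ε) * Real.log n ∧
    ((T3^[k] n : ℕ) : ℝ) ≤ (n : ℝ) ^ ε}

theorem Dn_finite (ε : ℝ) (x : ℕ) : (Dn ε x).Finite :=
  (Set.finite_Iic x).subset fun _ h => h.2.1

theorem descend {ε : ℝ} (hε : 0 < ε) : ∃ δ : ℝ, 0 < δ ∧ ∀ᶠ x : ℕ in Filter.atTop,
    ((Dn ε x).ncard : ℝ) ≤ (x : ℝ) ^ (1 - δ) := by
  obtain ⟨c, hc, C, hC, hT⟩ := TP.tao (ε / 2) (by positivity)
  have a1 : 0 < Real.log (4 / 3) := Real.log_pos (by norm_num)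
  obtain ⟨g, hg⟩ : ∃ g, g = 2 / Real.log (4 / 3) := ⟨_, rfl⟩
  have hg0 : 0 < g := by rw [hg]; positivity
  rw [← hg] at hT
  obtain ⟨d, hd⟩ : ∃ d, d = min (1 / 2) (ε / (2 * (g + ε))) := ⟨_, rfl⟩
  have hd0 : 0 < d := by rw [hd]; exact lt_min (by norm_num) (by positivity)
  have hd1 : d ≤ 1 / 2 := by rw [hd]; exact min_le_left _ _
  have hd2 : d * (g + ε) ≤ ε / 2 := by
    have : d ≤ ε / (2 * (g + ε)) := by rw [hd]; exact min_le_right _ _
    rw [le_div_iff₀ (by positivity)] at this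
    linarith
  obtain ⟨m, hm⟩ : ∃ m, m = min d (c * (ε / 2)) := ⟨_, rfl⟩
  have hm0 : 0 < m := by rw [hm]; exact lt_min hd0 (by positivity)
  refine ⟨m / 2, by positivity, ?_⟩
  filter_upwards [absorb (A := C + 1) (show 1 - m < 1 - m / 2 by linarith),
    Filter.eventually_ge_atTop 1] with x hx hx1
  have hx0 : (0 : ℝ) < x := by exact_mod_cast hx1
  have hx1' : (1 : ℝ) ≤ x := by exact_mod_cast hx1
  have hlx : 0 ≤ Real.log x := Real.log_nonneg hx1'
  refine le_trans ?_ hx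
  obtain ⟨S, hS⟩ : ∃ S : Set ℤ, S = {n : ℤ | |(n : ℝ)| ≤ (x : ℝ) ∧ ∀ j : ℕ,
      (j : ℝ) ≤ (g + ε / 2) * Real.log x →
        (x : ℝ) ^ (ε / 2) < |((Helper14.T^[j] n : ℤ) : ℝ)|} := ⟨_, rfl⟩
  have hSc := hT ((x : ℝ) ^ (ε / 2)) (Real.one_le_rpow hx1' (by positivity)) x hx1'
  rw [← hS] at hSc
  have hSfin : S.Finite := by
    rw [hS]
    refine (Set.finite_Icc (-(x : ℤ)) x).subset fun n hn => ?_
    have := abs_le.1 hn.1
    rw [Set.mem_Icc]
    constructor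
    · exact_mod_cast this.1
    · exact_mod_cast this.2
  have hsub : Dn ε x ⊆ (Set.Icc 1 ⌊(x : ℝ) ^ (1 - d)⌋₊) ∪ ((fun n : ℕ => (n : ℤ)) ⁻¹' S) := by
    rintro n ⟨h1, h2, h3⟩
    have hn0 : (0 : ℝ) < n := by exact_mod_cast h1
    rcases le_or_gt (n : ℝ) ((x : ℝ) ^ (1 - d)) with h | h
    · left
      exact ⟨h1, Nat.le_floor h⟩
    · right
      have hln : (1 - d) * Real.log x ≤ Real.log n := by
        have := Real.log_le_log (Real.rpow_pos_of_pos hx0 _) h.le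
        rwa [Real.log_rpow hx0] at this
      show (n : ℤ) ∈ S
      rw [hS]
      refine ⟨?_, fun j hj => ?_⟩
      · push_cast
        rw [abs_of_pos hn0]
        exact_mod_cast h2
      · by_contra hcon
        push Not at hcon
        rw [iter_cast'] at hcon
        push_cast at hcon
        rw [abs_of_nonneg (Nat.cast_nonneg _)] at hcon
        apply h3
        refine ⟨j, ?_, ?_⟩
        · rw [← hg]
          refine hj.trans ?_
          have q1 : (g + ε) * ((1 - d) * Real.log x) ≤ (g + ε) * Real.log n :=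
            mul_le_mul_of_nonneg_left hln (by positivity)
          have q2 : d * (g + ε) * Real.log x ≤ ε / 2 * Real.log x :=
            mul_le_mul_of_nonneg_right hd2 hlx
          linarith
        · refine hcon.trans ?_
          rw [Real.rpow_def_of_pos hx0, Real.rpow_def_of_pos hn0]
          apply Real.exp_le_exp.2
          have q1 : (1 / 2) * Real.log x ≤ (1 - d) * Real.log x :=
            mul_le_mul_of_nonneg_right (by linarith) hlx
          have q2 : (1 / 2) * Real.log x * ε ≤ Real.log n * ε :=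
            mul_le_mul_of_nonneg_right (by linarith) hε.le
          linarith
  have hinj : Function.Injective (fun n : ℕ => (n : ℤ)) := Nat.cast_injective
  have hpre : ((fun n : ℕ => (n : ℤ)) ⁻¹' S).Finite := hSfin.preimage hinj.injOn
  have h1 : (Dn ε x).ncard ≤ (Set.Icc 1 ⌊(x : ℝ) ^ (1 - d)⌋₊ : Set ℕ).ncard +
      ((fun n : ℕ => (n : ℤ)) ⁻¹' S).ncard :=
    (Set.ncard_le_ncard hsub ((Set.finite_Icc _ _).union hpre)).trans (Set.ncard_union_le _ _)
  have h2 : ((fun n : ℕ => (n : ℤ)) ⁻¹' S).ncard ≤ S.ncard := by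
    rw [← Set.ncard_image_of_injective _ hinj]
    exact Set.ncard_le_ncard (Set.image_preimage_subset _ _) hSfin
  have h3 : (Set.Icc 1 ⌊(x : ℝ) ^ (1 - d)⌋₊ : Set ℕ).ncard = ⌊(x : ℝ) ^ (1 - d)⌋₊ := by
    rw [Set.ncard_eq_toFinset_card', Set.toFinset_Icc, Nat.card_Icc]
    omega
  rw [h3] at h1
  have h4 : ((Dn ε x).ncard : ℝ) ≤ ⌊(x : ℝ) ^ (1 - d)⌋₊ + (S.ncard : ℝ) := by
    exact_mod_cast h1.trans (Nat.add_le_add_left h2 _)
  have h5 : (⌊(x : ℝ) ^ (1 - d)⌋₊ : ℝ) ≤ (x : ℝ) ^ (1 - d) :=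
    Nat.floor_le (Real.rpow_nonneg hx0.le _)
  have h6 : (x : ℝ) ^ (1 - d) ≤ (x : ℝ) ^ (1 - m) :=
    Real.rpow_le_rpow_of_exponent_le hx1' (by
      have : m ≤ d := by rw [hm]; exact min_le_left _ _
      linarith)
  have h7 : C * (x : ℝ) * ((x : ℝ) ^ (ε / 2)) ^ (-c) ≤ C * (x : ℝ) ^ (1 - m) := by
    rw [← Real.rpow_mul hx0.le, mul_assoc]
    refine mul_le_mul_of_nonneg_left ?_ hC.le
    have e : (x : ℝ) * (x : ℝ) ^ (ε / 2 * -c) = (x : ℝ) ^ (1 + ε / 2 * -c) := by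
      rw [Real.rpow_add hx0, Real.rpow_one]
    rw [e]
    apply Real.rpow_le_rpow_of_exponent_le hx1'
    have : m ≤ c * (ε / 2) := by rw [hm]; exact min_le_right _ _
    linarith
  linarith

/-- failure of a straight descent to a small power -/
def St (ε : ℝ) (x : ℕ) : Set ℕ := {n : ℕ | 1 ≤ n ∧ n ≤ x ∧
  ¬ ∃ k : ℕ, (k : ℝ) ≤ (2 / Real.log (4 / 3) + ε) * Real.log n ∧
    ((T3^[k] n : ℕ) : ℝ) ≤ (n : ℝ) ^ ε ∧ ∀ j ≤ k, ((T3^[j] n : ℕ) : ℝ) ≤ (n : ℝ) ^ (1 + ε)}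

/-- power saving for a general excursion threshold -/
theorem power_saving (hS : StmtS) {c C : ℝ} (hc : 1 < c) (hC : 0 < C)
    (h : C < 2 / Real.log (4 / 3) + c / Real.log (3 / 2)) : ∃ δ : ℝ, 0 < δ ∧
      ∀ᶠ x : ℕ in Filter.atTop, ((Ex C c x).ncard : ℝ) ≤ (x : ℝ) ^ (1 - δ) := by
  obtain ⟨δ, h0, h1, h2⟩ := upper hS hC h
  refine ⟨min (c - 1) δ / 2, by
    have : 0 < min (c - 1) δ := lt_min (by linarith) h0
    positivity, ?_⟩
  have hm : 0 < min (c - 1) δ := lt_min (by linarith) h0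
  filter_upwards [h2 c le_rfl (by linarith) (min (c - 1) δ / 2) (by positivity),
    Filter.eventually_ge_atTop 1] with x hx hx1
  refine hx.trans (Real.rpow_le_rpow_of_exponent_le (by exact_mod_cast hx1) ?_)
  have g1 : max (2 - c) (1 - δ) ≤ 1 - min (c - 1) δ := by
    apply max_le
    · have := min_le_left (c - 1) δ; linarith
    · have := min_le_right (c - 1) δ; linarith
  linarith

theorem straight (hS : StmtS) {ε : ℝ} (hε : 0 < ε) : ∃ δ : ℝ, 0 < δ ∧
    ∀ᶠ x : ℕ in Filter.atTop, ((St ε x).ncard : ℝ) ≤ (x : ℝ) ^ (1 - δ) := by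
  obtain ⟨e, he⟩ : ∃ e, e = min ε 1 := ⟨_, rfl⟩
  have he0 : 0 < e := by rw [he]; exact lt_min hε one_pos
  have he1 : e ≤ 1 := by rw [he]; exact min_le_right _ _
  have hee : e ≤ ε := by rw [he]; exact min_le_left _ _
  have a1 : 0 < Real.log (4 / 3) := Real.log_pos (by norm_num)
  have a2 : 0 < Real.log (3 / 2) := Real.log_pos (by norm_num)
  have a3 : Real.log (3 / 2) ≤ 1 := by
    have := Real.log_le_sub_one_of_pos (show (0 : ℝ) < 3 / 2 by norm_num)
    linarith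
  obtain ⟨δ1, d1, h1⟩ := descend he0
  obtain ⟨δ2, d2, h2⟩ := power_saving hS (c := 1 + ε) (C := 2 / Real.log (4 / 3) + e)
    (by linarith) (by positivity) (by
      have : e < (1 + ε) / Real.log (3 / 2) := by
        rw [lt_div_iff₀ a2]
        nlinarith
      linarith)
  obtain ⟨m, hm⟩ : ∃ m, m = min δ1 δ2 := ⟨_, rfl⟩
  have hm0 : 0 < m := by rw [hm]; exact lt_min d1 d2
  refine ⟨m / 2, by positivity, ?_⟩
  filter_upwards [h1, h2, absorb (A := 2) (show 1 - m < 1 - m / 2 by linarith),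
    Filter.eventually_ge_atTop 1] with x hx1 hx2 hx3 hx4
  have hx1' : (1 : ℝ) ≤ x := by exact_mod_cast hx4
  refine le_trans ?_ hx3
  have hsub : St ε x ⊆ Dn e x ∪ Ex (2 / Real.log (4 / 3) + e) (1 + ε) x := by
    rintro n ⟨g1, g2, g3⟩
    have hn1 : (1 : ℝ) ≤ n := by exact_mod_cast g1
    by_contra hcon
    rw [Set.mem_union, not_or] at hcon
    obtain ⟨c1, c2⟩ := hcon
    have c3 : ∃ k : ℕ, (k : ℝ) ≤ (2 / Real.log (4 / 3) + e) * Real.log n ∧
        ((T3^[k] n : ℕ) : ℝ) ≤ (n : ℝ) ^ e := by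
      by_contra hc
      exact c1 ⟨g1, g2, hc⟩
    obtain ⟨k, k1, k2⟩ := c3
    have hln : 0 ≤ Real.log n := Real.log_nonneg hn1
    apply g3
    refine ⟨k, ?_, ?_, ?_⟩
    · exact k1.trans (mul_le_mul_of_nonneg_right (by linarith) hln)
    · exact k2.trans (Real.rpow_le_rpow_of_exponent_le hn1 hee)
    · intro j hj
      rcases Nat.eq_zero_or_pos j with rfl | hj0
      · show (n : ℝ) ≤ _
        calc (n : ℝ) = (n : ℝ) ^ (1 : ℝ) := (Real.rpow_one _).symm
          _ ≤ (n : ℝ) ^ (1 + ε) := Real.rpow_le_rpow_of_exponent_le hn1 (by linarith)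
      · by_contra hlt
        push Not at hlt
        exact c2 ⟨g1, g2, j, hj0, le_trans (by exact_mod_cast hj) k1, hlt.le⟩
  have h3 : (St ε x).ncard ≤ (Dn e x).ncard + (Ex (2 / Real.log (4 / 3) + e) (1 + ε) x).ncard :=
    (Set.ncard_le_ncard hsub ((Dn_finite _ _).union (Ex_finite _ _ _))).trans
      (Set.ncard_union_le _ _)
  have h4 : ((St ε x).ncard : ℝ) ≤ ((Dn e x).ncard : ℝ) +
      ((Ex (2 / Real.log (4 / 3) + e) (1 + ε) x).ncard : ℝ) := by exact_mod_cast h3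
  have h5 : (x : ℝ) ^ (1 - δ1) ≤ (x : ℝ) ^ (1 - m) :=
    Real.rpow_le_rpow_of_exponent_le hx1' (by
      have : m ≤ δ1 := by rw [hm]; exact min_le_left _ _
      linarith)
  have h6 : (x : ℝ) ^ (1 - δ2) ≤ (x : ℝ) ^ (1 - m) :=
    Real.rpow_le_rpow_of_exponent_le hx1' (by
      have : m ≤ δ2 := by rw [hm]; exact min_le_right _ _
      linarith)
  linarith

/-- orbits which have reached 1 stay below 3 -/
theorem after_one (k : ℕ) : T3^[k] 1 ≤ 2 := by
  have h : ∀ k, T3^[k] 1 = 1 ∨ T3^[k] 1 = 2 := by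
    intro k
    induction k with
    | zero => left; rfl
    | succ k ih =>
      rw [Function.iterate_succ_apply']
      rcases ih with h | h
      · right; rw [h]; rfl
      · left; rw [h]; rfl
  rcases h k with h | h <;> omega

/-- convergent trajectories with a large maximum -/
def Cv (C c : ℝ) (x : ℕ) : Set ℕ := {n : ℕ | 2 ≤ n ∧ n ≤ x ∧
  (∃ j : ℕ, (j : ℝ) ≤ C * Real.log n ∧ T3^[j] n = 1) ∧
  ∃ k : ℕ, 1 ≤ k ∧ (n : ℝ) ^ c ≤ ((T3^[k] n : ℕ) : ℝ)}

theorem Cv_sub {C c : ℝ} (hc : 1 < c) (x : ℕ) : Cv C c x ⊆ Ex C c x := by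
  rintro n ⟨h1, h2, ⟨j, hj1, hj2⟩, k, hk1, hk2⟩
  refine ⟨by omega, h2, k, hk1, ?_, hk2⟩
  rcases le_total k j with h | h
  · exact le_trans (by exact_mod_cast h) hj1
  · exfalso
    have e : T3^[k] n = T3^[k - j] 1 := by
      rw [← hj2, ← Function.iterate_add_apply, Nat.sub_add_cancel h]
    have h3 : ((T3^[k] n : ℕ) : ℝ) ≤ 2 := by
      rw [e]
      exact_mod_cast after_one (k - j)
    have h4 : (2 : ℝ) ≤ n := by exact_mod_cast h1
    have h5 : (2 : ℝ) < (n : ℝ) ^ c := by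
      calc (2 : ℝ) ≤ n := h4
        _ = (n : ℝ) ^ (1 : ℝ) := (Real.rpow_one _).symm
        _ < (n : ℝ) ^ c := Real.rpow_lt_rpow_of_exponent_lt (by linarith) hc
    linarith

/-- the exact law near 1 -/
theorem exact_law (hS : StmtS) {C : ℝ} (hC : 0 < C)
    (h : C < 2 / Real.log (4 / 3) + 1 / Real.log (3 / 2)) : ∃ c₁ : ℝ, 1 < c₁ ∧
      ∀ c : ℝ, 1 < c → c < c₁ → ∀ ε : ℝ, 0 < ε → ∀ᶠ x : ℕ in Filter.atTop,
        (x : ℝ) ^ (2 - c - ε) ≤ ((Ex C c x).ncard : ℝ) ∧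
        ((Ex C c x).ncard : ℝ) ≤ (x : ℝ) ^ (2 - c + ε) := by
  obtain ⟨δ, h0, h1, h2⟩ := upper hS hC h
  have l2 := log2_pos
  have hq0 : 0 < Real.log (27 / 16) := Real.log_pos (by norm_num)
  obtain ⟨d, hd⟩ : ∃ d, d = min 1 (C * Real.log 2) * Real.log (27 / 16) / (4 * Real.log 2) :=
    ⟨_, rfl⟩
  have hmin : 0 < min 1 (C * Real.log 2) := lt_min one_pos (by positivity)
  have hd0 : 0 < d := by rw [hd]; positivity
  refine ⟨1 + min δ d, by
    have := lt_min h0 hd0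
    linarith, ?_⟩
  intro c hc1 hc2 ε hε
  have hcδ : c < 1 + δ := lt_of_lt_of_le hc2 (by linarith [min_le_left δ d])
  have hcd : c < 1 + d := lt_of_lt_of_le hc2 (by linarith [min_le_right δ d])
  have hlow := lower hC hc1 (by
    have : c - 1 < d := by linarith
    rw [hd, lt_div_iff₀ (by positivity)] at this
    linarith) hε
  have hup := h2 c hc1.le (by linarith) ε hε
  rw [max_eq_left (by linarith)] at hup
  filter_upwards [hlow, hup] with x hx1 hx2
  exact ⟨hx1, hx2⟩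

end Pool.Agent.Collatz3.EX
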