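import Pool.Agent.Collatz3.EXMaster

set_option autoImplicit false

/-!
Excursions of the 3x+1 map: the upper bound for one dyadic block.
-/

open Finset

namespace Pool.Agent.Collatz3.EX

open Pool.Agent.Collatz3.LT

theorem exp_neg_le {x : ℝ} (hx : 0 ≤ x) : Real.exp (-x) ≤ 1 - x + x ^ 2 / 2 := by
  have h1 := Real.quadratic_le_exp_of_nonneg hx
  have h2 : 0 < 1 - x + x ^ 2 / 2 := by nlinarith [sq_nonneg (x - 1)]
  have h3 : 1 ≤ (1 - x + x ^ 2 / 2) * (1 + x + x ^ 2 / 2) := by nlinarith [sq_nonneg (x ^ 2)]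
  rw [Real.exp_neg, inv_le_comm₀ (Real.exp_pos x) h2]
  calc (1 - x + x ^ 2 / 2)⁻¹ ≤ 1 + x + x ^ 2 / 2 := by
        rw [inv_le_iff_one_le_mul₀ h2]
        linarith
    _ ≤ Real.exp x := h1

theorem log43 : Real.log (4 / 3) = 2 * Real.log 2 - Real.log 3 := by
  rw [Real.log_div (by norm_num) (by norm_num), show (4 : ℝ) = 2 ^ 2 by norm_num, Real.log_pow]
  push_cast
  ring

/-- quadratic bound for the growth exponent of the mean near 1 -/
theorem Lam_le {u : ℝ} (hu : 0 ≤ u) :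
    Lam (1 - u) ≤ Real.log (4 / 3) / 2 * u + Real.log 3 ^ 2 / 4 * u ^ 2 := by
  have l2 := log2_pos
  have l3 := log3_pos
  have h1 := exp_neg_le (mul_nonneg hu l3.le)
  have e1 : (2 : ℝ) ^ (-(1 - u)) = Real.exp ((u - 1) * Real.log 2) := by
    rw [Real.rpow_def_of_pos (by norm_num)]
    congr 1; ring
  have e2 : (3 : ℝ) ^ (1 - u - 1) = Real.exp (-(u * Real.log 3)) := by
    rw [Real.rpow_def_of_pos (by norm_num)]
    congr 1; ring
  unfold Lam
  rw [e1, e2, Real.log_mul (Real.exp_pos _).ne' (by positivity), Real.log_exp]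
  have h2 : Real.log (1 + Real.exp (-(u * Real.log 3))) ≤
      Real.log 2 + ((1 + Real.exp (-(u * Real.log 3))) / 2 - 1) := by
    have h3 := Real.log_le_sub_one_of_pos
      (show (0 : ℝ) < (1 + Real.exp (-(u * Real.log 3))) / 2 by positivity)
    rw [Real.log_div (by positivity) (by norm_num)] at h3
    linarith
  rw [log43]
  have h4 : (u * Real.log 3) ^ 2 / 2 = u ^ 2 * Real.log 3 ^ 2 / 2 := by ring
  rw [h4] at h1
  linarith

theorem exists_small_Lam {η : ℝ} (hη : 0 < η) : ∃ θ : ℝ, 0 ≤ θ ∧ θ < 1 ∧ Lam θ ≤ η := by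
  obtain ⟨A, hA⟩ : ∃ A, A = Real.log (4 / 3) / 2 + Real.log 3 ^ 2 / 4 := ⟨_, rfl⟩
  have a1 : 0 < Real.log (4 / 3) := Real.log_pos (by norm_num)
  have hA0 : 0 < A := by rw [hA]; positivity
  obtain ⟨u, hu⟩ : ∃ u, u = min 1 (η / A) := ⟨_, rfl⟩
  have hu0 : 0 < u := by rw [hu]; exact lt_min one_pos (by positivity)
  have hu1 : u ≤ 1 := by rw [hu]; exact min_le_left _ _
  have hu2 : u ≤ η / A := by rw [hu]; exact min_le_right _ _
  refine ⟨1 - u, by linarith, by linarith, (Lam_le hu0.le).trans ?_⟩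
  have h1 : u ^ 2 ≤ u := by nlinarith
  have h2 : A * u ≤ η := by
    rw [le_div_iff₀ hA0] at hu2
    linarith
  have h3 : Real.log 3 ^ 2 / 4 * u ^ 2 ≤ Real.log 3 ^ 2 / 4 * u :=
    mul_le_mul_of_nonneg_left h1 (by positivity)
  rw [hA] at h2
  linarith

/-- choice of the parameters -/
theorem exists_params {C c0 : ℝ}
    (h : C < 2 / Real.log (4 / 3) + c0 / Real.log (3 / 2)) :
    ∃ θ' ε' θ0 δ : ℝ, 0 ≤ θ' ∧ θ' < 1 ∧ 0 < ε' ∧ 0 < θ0 ∧ θ0 ≤ 1 ∧ 0 < δ ∧ δ ≤ 1 / 2 ∧
      δ * Real.log 2 ≤ dl * θ0 ∧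
      θ0 * Real.log 2 + θ' * Real.log 2 + (Lam θ' + ε') *
        (C * Real.log 2 - (c0 - θ0) * Real.log 2 / Real.log (3 / 2)) ≤ (1 - δ) * Real.log 2 := by
  have l2 := log2_pos
  have l3 := log3_pos
  have hdl := dl_pos
  obtain ⟨κ, hκ⟩ : ∃ κ, κ = Real.log (3 / 2) := ⟨_, rfl⟩
  have hκ0 : 0 < κ := by rw [hκ]; exact Real.log_pos (by norm_num)
  obtain ⟨a0, ha0⟩ : ∃ a0, a0 = Real.log (4 / 3) / 2 := ⟨_, rfl⟩
  have a1 : 0 < Real.log (4 / 3) := Real.log_pos (by norm_num)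
  have ha0p : 0 < a0 := by rw [ha0]; positivity
  rw [← hκ] at h ⊢
  obtain ⟨s1, hs1⟩ : ∃ s1, s1 = C * Real.log 2 - c0 * Real.log 2 / κ := ⟨_, rfl⟩
  have hg : a0 * s1 < Real.log 2 := by
    have h1 : C - c0 / κ < 1 / a0 := by
      have : 1 / a0 = 2 / Real.log (4 / 3) := by rw [ha0]; field_simp
      rw [this]; linarith
    have h2 : s1 = (C - c0 / κ) * Real.log 2 := by rw [hs1]; ring
    rw [h2]
    have h3 : a0 * (C - c0 / κ) < 1 := by
      rw [lt_div_iff₀ ha0p] at h1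
      linarith
    have h4 := mul_lt_mul_of_pos_right h3 l2
    linarith
  obtain ⟨g, hgd⟩ : ∃ g, g = Real.log 2 - a0 * s1 := ⟨_, rfl⟩
  have hg0 : 0 < g := by rw [hgd]; linarith
  obtain ⟨S, hS⟩ : ∃ S, S = |s1| + Real.log 2 / κ + 1 := ⟨_, rfl⟩
  have hS0 : 0 < S := by rw [hS]; positivity
  obtain ⟨b, hb⟩ : ∃ b, b = Real.log 3 ^ 2 / 4 := ⟨_, rfl⟩
  have hb0 : 0 < b := by rw [hb]; positivity
  obtain ⟨u, hu⟩ : ∃ u, u = min (1 / 2) (g / (8 * b * S)) := ⟨_, rfl⟩
  have hu0 : 0 < u := by rw [hu]; exact lt_min (by norm_num) (by positivity)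
  have hu1 : u ≤ 1 / 2 := by rw [hu]; exact min_le_left _ _
  have hu2 : b * u ^ 2 * S ≤ u * g / 8 := by
    have : u ≤ g / (8 * b * S) := by rw [hu]; exact min_le_right _ _
    rw [le_div_iff₀ (by positivity)] at this
    nlinarith
  obtain ⟨ε', hε'⟩ : ∃ ε', ε' = u * g / (8 * S) := ⟨_, rfl⟩
  have hε0 : 0 < ε' := by rw [hε']; positivity
  have hε1 : ε' * S ≤ u * g / 8 := by
    rw [hε']
    apply le_of_eq
    field_simp
  obtain ⟨R, hR⟩ : ∃ R, R = Real.log 2 + a0 * (Real.log 2 / κ) := ⟨_, rfl⟩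
  have hR0 : 0 < R := by rw [hR]; positivity
  obtain ⟨θ0, hθ0⟩ : ∃ θ0, θ0 = min (u / 2) (u * g / (8 * R)) := ⟨_, rfl⟩
  have hθ0p : 0 < θ0 := by rw [hθ0]; exact lt_min (by positivity) (by positivity)
  have hθ01 : θ0 ≤ u / 2 := by rw [hθ0]; exact min_le_left _ _
  have hθ02 : θ0 * R ≤ u * g / 8 := by
    have : θ0 ≤ u * g / (8 * R) := by rw [hθ0]; exact min_le_right _ _
    rw [le_div_iff₀ (by positivity)] at this
    linarith
  obtain ⟨δ, hδ⟩ : ∃ δ, δ = min (1 / 2) (min (dl * θ0 / Real.log 2)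
    (min (u * g / (2 * Real.log 2)) (u / 2))) := ⟨_, rfl⟩
  have hδ0 : 0 < δ := by
    rw [hδ]
    refine lt_min (by norm_num) (lt_min (by positivity) (lt_min (by positivity) (by positivity)))
  have hδ1 : δ ≤ 1 / 2 := by rw [hδ]; exact min_le_left _ _
  have hδ2 : δ * Real.log 2 ≤ dl * θ0 := by
    have : δ ≤ dl * θ0 / Real.log 2 := by
      rw [hδ]; exact (min_le_right _ _).trans (min_le_left _ _)
    rwa [le_div_iff₀ l2] at this
  have hδ3 : δ * Real.log 2 ≤ u * g / 2 := by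
    have : δ ≤ u * g / (2 * Real.log 2) := by
      rw [hδ]; exact (min_le_right _ _).trans ((min_le_right _ _).trans (min_le_left _ _))
    rw [le_div_iff₀ (by positivity)] at this
    linarith
  have hδ4 : δ ≤ u / 2 := by
    rw [hδ]; exact (min_le_right _ _).trans ((min_le_right _ _).trans (min_le_right _ _))
  refine ⟨1 - u, ε', θ0, δ, by linarith, by linarith, hε0, hθ0p, by linarith, hδ0, hδ1, hδ2, ?_⟩
  have hLam := Lam_le hu0.le
  rw [← ha0, ← hb] at hLam
  have hLam0 : 0 < Lam (1 - u) := Lam_pos (by linarith)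
  obtain ⟨s, hs⟩ : ∃ s, s = s1 + θ0 * (Real.log 2 / κ) := ⟨_, rfl⟩
  have e1 : C * Real.log 2 - (c0 - θ0) * Real.log 2 / κ = s := by
    rw [hs, hs1]; ring
  rw [e1]
  rcases le_or_gt s 0 with hs0 | hs0
  · have h1 : (Lam (1 - u) + ε') * s ≤ 0 := mul_nonpos_of_nonneg_of_nonpos (by linarith) hs0
    have h2 := mul_le_mul_of_nonneg_right hθ01 l2.le
    have h3 := mul_le_mul_of_nonneg_right hδ4 l2.le
    linarith
  · have hsS : s ≤ S := by
      rw [hs, hS]
      have h1 := le_abs_self s1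
      have h2 : θ0 * (Real.log 2 / κ) ≤ 1 * (Real.log 2 / κ) :=
        mul_le_mul_of_nonneg_right (by linarith) (by positivity)
      linarith
    have h1 : (Lam (1 - u) + ε') * s ≤ (a0 * u + b * u ^ 2 + ε') * s :=
      mul_le_mul_of_nonneg_right (by linarith) hs0.le
    have h2 : (b * u ^ 2 + ε') * s ≤ (b * u ^ 2 + ε') * S :=
      mul_le_mul_of_nonneg_left hsS (by positivity)
    have h3 : a0 * u * s = u * (a0 * s1) + θ0 * (a0 * (Real.log 2 / κ)) * u := by
      rw [hs]; ring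
    have h4 : θ0 * (a0 * (Real.log 2 / κ)) * u ≤ θ0 * (a0 * (Real.log 2 / κ)) * 1 :=
      mul_le_mul_of_nonneg_left (by linarith) (by positivity)
    have h5 : u * (a0 * s1) = u * Real.log 2 - u * g := by rw [hgd]; ring
    have h6 : θ0 * R = θ0 * Real.log 2 + θ0 * (a0 * (Real.log 2 / κ)) := by rw [hR]; ring
    have h7 : (a0 * u + b * u ^ 2 + ε') * s = a0 * u * s + (b * u ^ 2 + ε') * s := by ring
    have h8 : (b * u ^ 2 + ε') * S = b * u ^ 2 * S + ε' * S := by ring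
    have hug : 0 < u * g := by positivity
    linarith

/-- the upper bound for one block, with given parameters -/
theorem block_upper' (hS : StmtS) {C c0 θ' ε' θ0 δ : ℝ} (hC : 0 < C) (p1 : 0 ≤ θ') (p2 : θ' < 1)
    (p3 : 0 < ε') (p4 : 0 < θ0) (p8 : δ * Real.log 2 ≤ dl * θ0)
    (p9 : θ0 * Real.log 2 + θ' * Real.log 2 + (Lam θ' + ε') *
        (C * Real.log 2 - (c0 - θ0) * Real.log 2 / Real.log (3 / 2)) ≤ (1 - δ) * Real.log 2)
    (c : ℝ) (hc : c0 ≤ c) (ε : ℝ) (hε : 0 < ε) : ∃ i0 : ℕ, ∀ i : ℕ, i0 ≤ i →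
      ((Sb i ⌊C * Real.log 2 * (i + 1)⌋₊ (Real.exp (c * i * Real.log 2))).card : ℝ) ≤
        Real.exp ((max (2 - c) (1 - δ) + ε) * (i * Real.log 2)) := by
  have l2 := log2_pos
  have hdl := dl_pos
  obtain ⟨C', hC'⟩ : ∃ C', C' = C * Real.log 2 := ⟨_, rfl⟩
  have hC0' : 0 < C' := by rw [hC']; positivity
  obtain ⟨κ, hκ⟩ : ∃ κ, κ = Real.log (3 / 2) := ⟨_, rfl⟩
  have hκ0 : 0 < κ := by rw [hκ]; exact Real.log_pos (by norm_num)
  rw [← hC', ← hκ] at p9
  obtain ⟨η, hη⟩ : ∃ η, η = ε * Real.log 2 / (4 * C') := ⟨_, rfl⟩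
  have hη0 : 0 < η := by rw [hη]; positivity
  obtain ⟨θ, t1, t2, t3⟩ := exists_small_Lam hη0
  obtain ⟨A, hA0, hA⟩ := master hS t1 t2 p1 p2 hη0 p3
  have hLθ := Lam_pos t2
  have hLθ' := Lam_pos p2
  -- constants
  obtain ⟨D, hD⟩ : ∃ D, D = C' + 2 := ⟨_, rfl⟩
  have hD2 : 2 ≤ D := by rw [hD]; linarith
  have hlD : 0 ≤ Real.log D := Real.log_nonneg (by linarith)
  obtain ⟨A', hA'⟩ : ∃ A', A' = max A 1 := ⟨_, rfl⟩
  have hA1 : 1 ≤ A' := by rw [hA']; exact le_max_right _ _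
  have hlA : 0 ≤ Real.log A' := Real.log_nonneg hA1
  obtain ⟨G, hG⟩ : ∃ G, G = Real.log 2 + (Lam θ' + ε') * (C' + Real.log 2 / κ) := ⟨_, rfl⟩
  have hG0 : 0 ≤ G := by rw [hG]; positivity
  obtain ⟨i0, hi0⟩ := UB.log_small (Real.log 4 + (Real.log A' + 5 * Real.log D + 4 * Real.log 2) +
    G + ε * Real.log 2 / 2) 5 (ε * Real.log 2 / 4)
    (by
      have : 0 ≤ Real.log 4 := Real.log_nonneg (by norm_num)
      positivity) (by norm_num) (by positivity)
  refine ⟨i0, fun i hi => ?_⟩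
  have hsm := hi0 i hi
  obtain ⟨M, hM⟩ : ∃ M, M = max (2 - c) (1 - δ) := ⟨_, rfl⟩
  rw [← hM, ← hC']
  obtain ⟨K, hK⟩ : ∃ K, K = ⌊C' * ((i : ℝ) + 1)⌋₊ := ⟨_, rfl⟩
  rw [← hK]
  have hi0' : (0 : ℝ) ≤ i := Nat.cast_nonneg i
  have hKle : (K : ℝ) ≤ C' * (i + 1) := by rw [hK]; exact Nat.floor_le (by positivity)
  have hK0 : (0 : ℝ) ≤ K := Nat.cast_nonneg K
  obtain ⟨Y, hY⟩ : ∃ Y, Y = Real.exp (c * i * Real.log 2) := ⟨_, rfl⟩
  rw [← hY]
  have hY0 : 0 < Y := by rw [hY]; exact Real.exp_pos _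
  have hlY : Real.log Y = c * i * Real.log 2 := by rw [hY, Real.log_exp]
  obtain ⟨l0, hl0⟩ : ∃ l0, l0 = ⌈θ0 * (i : ℝ)⌉₊ := ⟨_, rfl⟩
  have hl0a : θ0 * i ≤ l0 := by rw [hl0]; exact Nat.le_ceil _
  have hl0b : (l0 : ℝ) ≤ θ0 * i + 1 := by rw [hl0]; exact (Nat.ceil_lt_add_one (by positivity)).le
  obtain ⟨Z, hZ⟩ : ∃ Z : ℝ, Z = 2 ^ (i + 1) * (K + 1) := ⟨_, rfl⟩
  have hZ0 : 0 < Z := by rw [hZ]; positivity
  have hlZ : Real.log Z = (i + 1) * Real.log 2 + Real.log (K + 1) := by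
    rw [hZ, Real.log_mul (by positivity) (by positivity), Real.log_pow]
    push_cast
    ring
  have hm := hA i K l0 Y Z hY0 hZ
  rw [hlY, ← hκ] at hm
  -- logarithms
  obtain ⟨lm, hlm⟩ : ∃ lm, lm = Real.log ((i : ℝ) + 1) := ⟨_, rfl⟩
  have hlm0 : 0 ≤ lm := by rw [hlm]; exact Real.log_nonneg (by linarith)
  rw [← hlm] at hsm
  have hK1 : Real.log ((K : ℝ) + 1) ≤ Real.log D + lm := by
    rw [hlm, ← Real.log_mul (by positivity) (by positivity)]
    apply Real.log_le_log (by positivity)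
    rw [hD]; linarith
  have hK2 : Real.log ((i : ℝ) + K + 2) ≤ Real.log D + lm := by
    rw [hlm, ← Real.log_mul (by positivity) (by positivity)]
    apply Real.log_le_log (by positivity)
    rw [hD]; linarith
  have hK1' : 0 ≤ Real.log ((K : ℝ) + 1) := Real.log_nonneg (by linarith)
  -- tilted factor
  have hθK : (Lam θ + η) * K ≤ ε * Real.log 2 / 2 * (i + 1) := by
    have h1 : (Lam θ + η) * K ≤ (2 * η) * (C' * (i + 1)) :=
      mul_le_mul (by linarith) hKle hK0 (by positivity)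
    have h2 : (2 * η) * (C' * ((i : ℝ) + 1)) = ε * Real.log 2 / 2 * (i + 1) := by
      rw [hη]; field_simp; ring
    linarith
  have hM1 : 2 - c ≤ M := by rw [hM]; exact le_max_left _ _
  have hM2 : 1 - δ ≤ M := by rw [hM]; exact le_max_right _ _
  obtain ⟨X, hX⟩ : ∃ X, X = Real.exp ((M + ε) * (i * Real.log 2)) := ⟨_, rfl⟩
  have hX0 : 0 < X := by rw [hX]; exact Real.exp_pos _
  rw [← hX]
  have hlX : Real.log X = (M + ε) * (i * Real.log 2) := by rw [hX, Real.log_exp]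
  have hAA : A ≤ A' := by rw [hA']; exact le_max_left _ _
  have hA0' : 0 < A' := by linarith
  have key : ∀ W : ℝ, 0 < W → Real.log W ≤ Real.log A' + 5 * Real.log D + 4 * Real.log 2 +
      5 * lm + G + ε * Real.log 2 / 2 + (M + ε / 2) * (i * Real.log 2) → 4 * W ≤ X := by
    intro W hW hlW
    have h1 : Real.log (4 * W) ≤ Real.log X := by
      rw [Real.log_mul (by norm_num) hW.ne', hlX]
      have h3 : ε * Real.log 2 / 4 * i ≤ ε / 2 * (i * Real.log 2) := by
        have : 0 ≤ ε * Real.log 2 * i := by positivity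
        linarith
      have h4 : (M + ε) * (i * Real.log 2) = (M + ε / 2) * (i * Real.log 2) +
        ε / 2 * (i * Real.log 2) := by ring
      linarith
    exact (Real.log_le_log_iff (by positivity) hX0).1 h1
  have hiK : (0 : ℝ) < (i : ℝ) + K + 2 := by positivity
  have hKK : (0 : ℝ) < (K : ℝ) + 1 := by positivity
  obtain ⟨W1, hW1⟩ : ∃ W1, W1 = A' * ((K + 1) * ((i + K + 2) * (Real.exp ((Lam θ + η) * K) *
        (4 * (i + K + 2) * Z ^ 2 / Y)))) := ⟨_, rfl⟩
  obtain ⟨W2, hW2⟩ : ∃ W2, W2 = A' * ((K + 1) * ((i + K + 2) * (Real.exp ((Lam θ + η) * K) *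
        (Z * Real.exp (-dl * l0))))) := ⟨_, rfl⟩
  obtain ⟨W3, hW3⟩ : ∃ W3, W3 = A' * ((K + 1) * (2 ^ l0 * Real.exp (θ' * Real.log Z +
        (Lam θ' + ε') * (K - (c * i * Real.log 2 - l0 * Real.log 2) / κ)))) := ⟨_, rfl⟩
  have b1 : 4 * W1 ≤ X := by
    apply key
    · rw [hW1]; positivity
    · rw [hW1, Real.log_mul (by positivity) (by positivity),
        Real.log_mul (by positivity) (by positivity),
        Real.log_mul (by positivity) (by positivity),
        Real.log_mul (by positivity) (by positivity), Real.log_exp,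
        Real.log_div (by positivity) (by positivity),
        Real.log_mul (by positivity) (by positivity),
        Real.log_mul (by positivity) (by positivity), Real.log_pow, hlZ, hlY,
        show (4 : ℝ) = 2 ^ 2 by norm_num, Real.log_pow]
      have g1 : (2 - c) * (i * Real.log 2) ≤ M * (i * Real.log 2) :=
        mul_le_mul_of_nonneg_right hM1 (by positivity)
      push_cast
      linarith
  have b2 : 4 * W2 ≤ X := by
    apply key
    · rw [hW2]; positivity
    · rw [hW2, Real.log_mul (by positivity) (by positivity),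
        Real.log_mul (by positivity) (by positivity),
        Real.log_mul (by positivity) (by positivity),
        Real.log_mul (by positivity) (by positivity), Real.log_exp,
        Real.log_mul (by positivity) (by positivity), Real.log_exp, hlZ]
      have g1 : (1 - δ) * (i * Real.log 2) ≤ M * (i * Real.log 2) :=
        mul_le_mul_of_nonneg_right hM2 (by positivity)
      have g2 : dl * (θ0 * i) ≤ dl * l0 := mul_le_mul_of_nonneg_left hl0a hdl.le
      have g3 : δ * Real.log 2 * i ≤ dl * θ0 * i := mul_le_mul_of_nonneg_right p8 hi0'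
      linarith
  have b3 : 4 * W3 ≤ X := by
    apply key
    · rw [hW3]; positivity
    · rw [hW3, Real.log_mul (by positivity) (by positivity),
        Real.log_mul (by positivity) (by positivity),
        Real.log_mul (by positivity) (by positivity), Real.log_exp, Real.log_pow, hlZ]
      have g1 : (1 - δ) * (i * Real.log 2) ≤ M * (i * Real.log 2) :=
        mul_le_mul_of_nonneg_right hM2 (by positivity)
      have g2 : (l0 : ℝ) * Real.log 2 ≤ (θ0 * i + 1) * Real.log 2 :=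
        mul_le_mul_of_nonneg_right hl0b l2.le
      have g3 : θ' * ((i + 1) * Real.log 2 + Real.log (K + 1)) ≤
          θ' * (i * Real.log 2) + Real.log 2 + Real.log (K + 1) := by
        have q1 : θ' * (Real.log 2 + Real.log (K + 1)) ≤ 1 * (Real.log 2 + Real.log (K + 1)) :=
          mul_le_mul_of_nonneg_right p2.le (by linarith)
        linarith
      have g4 : (Lam θ' + ε') * (K - (c * i * Real.log 2 - l0 * Real.log 2) / κ) ≤
          (Lam θ' + ε') * (i * (C' - (c0 - θ0) * Real.log 2 / κ) + (C' + Real.log 2 / κ)) := by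
        refine mul_le_mul_of_nonneg_left ?_ (by linarith)
        have q1 : (c0 * i * Real.log 2 - (θ0 * i + 1) * Real.log 2) / κ ≤
            (c * i * Real.log 2 - l0 * Real.log 2) / κ := by
          apply div_le_div_of_nonneg_right _ hκ0.le
          have : c0 * i * Real.log 2 ≤ c * i * Real.log 2 :=
            mul_le_mul_of_nonneg_right (mul_le_mul_of_nonneg_right hc hi0') l2.le
          linarith
        have q2 : (c0 * i * Real.log 2 - (θ0 * i + 1) * Real.log 2) / κ =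
            i * ((c0 - θ0) * Real.log 2 / κ) - Real.log 2 / κ := by
          field_simp
          ring
        rw [q2] at q1
        linarith
      obtain ⟨Tm, hTm⟩ : ∃ Tm, Tm = (Lam θ' + ε') * (C' - (c0 - θ0) * Real.log 2 / κ) := ⟨_, rfl⟩
      rw [← hTm] at p9
      have g5 : i * (θ0 * Real.log 2 + θ' * Real.log 2 + Tm) ≤ i * ((1 - δ) * Real.log 2) :=
        mul_le_mul_of_nonneg_left p9 hi0'
      have g6 : (Lam θ' + ε') * (i * (C' - (c0 - θ0) * Real.log 2 / κ) + (C' + Real.log 2 / κ)) =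
        i * Tm + (G - Real.log 2) := by
        rw [hG, hTm]; ring
      rw [g6] at g4
      have g7 : 0 ≤ ε / 2 * (i * Real.log 2) := by positivity
      have g8 : 0 ≤ ε * Real.log 2 / 2 := by positivity
      have g9 : i * (θ0 * Real.log 2 + θ' * Real.log 2 + Tm) =
        θ0 * i * Real.log 2 + θ' * (i * Real.log 2) + i * Tm := by ring
      have g10 : i * ((1 - δ) * Real.log 2) = (1 - δ) * (i * Real.log 2) := by ring
      have g11 : (θ0 * i + 1) * Real.log 2 = θ0 * i * Real.log 2 + Real.log 2 := by ring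
      have g12 : (M + ε / 2) * (i * Real.log 2) = M * (i * Real.log 2) + ε / 2 * (i * Real.log 2) := by
        ring
      rw [g9, g10] at g5
      rw [g11] at g2
      rw [g12]
      linarith
  have hm1 : A * ((K + 1) * ((i + K + 2) * (Real.exp ((Lam θ + η) * K) *
        (4 * (i + K + 2) * Z ^ 2 / Y + Z * Real.exp (-dl * l0))))) ≤ W1 + W2 := by
    rw [hW1, hW2, ← mul_add, ← mul_add, ← mul_add, ← mul_add]
    exact mul_le_mul_of_nonneg_right hAA (by positivity)
  have hm2 : A * ((K + 1) * (2 ^ l0 * Real.exp (θ' * Real.log Z +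
        (Lam θ' + ε') * (K - (c * i * Real.log 2 - l0 * Real.log 2) / κ)))) ≤ W3 := by
    rw [hW3]
    exact mul_le_mul_of_nonneg_right hAA (by positivity)
  linarith

/-- the upper bound for one block -/
theorem block_upper (hS : StmtS) {C c0 : ℝ} (hC : 0 < C)
    (h : C < 2 / Real.log (4 / 3) + c0 / Real.log (3 / 2)) :
    ∃ δ : ℝ, 0 < δ ∧ δ ≤ 1 / 2 ∧ ∀ c : ℝ, c0 ≤ c → ∀ ε : ℝ, 0 < ε → ∃ i0 : ℕ, ∀ i : ℕ, i0 ≤ i →
      ((Sb i ⌊C * Real.log 2 * (i + 1)⌋₊ (Real.exp (c * i * Real.log 2))).card : ℝ) ≤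
        Real.exp ((max (2 - c) (1 - δ) + ε) * (i * Real.log 2)) := by
  obtain ⟨θ', ε', θ0, δ, p1, p2, p3, p4, p5, p6, p7, p8, p9⟩ := exists_params h
  exact ⟨δ, p6, p7, fun c hc ε hε => block_upper' hS hC p1 p2 p3 p4 p8 p9 c hc ε hε⟩

/-- numerical parameters for excursions to the square -/
theorem params_two : (51 / 5000 : ℝ) * Real.log 2 ≤ dl * (9 / 40) ∧
    (9 / 40) * Real.log 2 + 0 * Real.log 2 + (Lam 0 + 1 / 1000) *
        (7 * Real.log 2 - (2 - 9 / 40) * Real.log 2 / Real.log (3 / 2)) ≤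
      (1 - 51 / 5000) * Real.log 2 := by
  have l2 := log2_pos
  have l3 := log3_pos
  have b1 := Real.log_two_gt_d9
  have b2 := Real.log_two_lt_d9
  have b3 : Real.log 3 < 1.09867 := by
    have h : Real.log ((3 : ℝ) ^ 147) < Real.log ((2 : ℝ) ^ 233) :=
      Real.log_lt_log (by norm_num) (by norm_num)
    rw [Real.log_pow, Real.log_pow] at h
    push_cast at h
    linarith
  have b4 : 1.0985 < Real.log 3 := by
    have h : Real.log ((2 : ℝ) ^ 84) < Real.log ((3 : ℝ) ^ 53) :=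
      Real.log_lt_log (by norm_num) (by norm_num)
    rw [Real.log_pow, Real.log_pow] at h
    push_cast at h
    linarith
  obtain ⟨κ, hκ⟩ : ∃ κ, κ = Real.log (3 / 2) := ⟨_, rfl⟩
  have hκ' : κ = Real.log 3 - Real.log 2 := by
    rw [hκ, Real.log_div (by norm_num) (by norm_num)]
  have hκ0 : 0 < κ := by rw [hκ]; exact Real.log_pos (by norm_num)
  rw [← hκ]
  constructor
  · have h1 : 0.4373 ≤ Real.log 2 * Real.log 2 / Real.log 3 := by
      rw [le_div_iff₀ l3]
      nlinarith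
    unfold dl
    rw [← hκ]
    linarith
  · have h0 : Lam 0 = 2 * Real.log 2 - Real.log 3 := by
      rw [← log43]
      unfold Lam
      congr 1
      rw [neg_zero, Real.rpow_zero, zero_sub, Real.rpow_neg_one]
      norm_num
    have h1 : 4.377 ≤ (71 / 40) / κ := by
      rw [le_div_iff₀ hκ0]
      linarith
    have e1 : 7 * Real.log 2 - (2 - 9 / 40) * Real.log 2 / κ =
        Real.log 2 * (7 - (71 / 40) / κ) := by ring
    rw [e1, h0]
    have h2 : (2 * Real.log 2 - Real.log 3 + 1 / 1000) * (Real.log 2 * (7 - (71 / 40) / κ)) ≤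
        0.2889 * (Real.log 2 * 2.623) := by
      refine mul_le_mul_of_nonneg (by linarith) ?_ (by linarith) (by positivity)
      exact mul_le_mul_of_nonneg_left (by linarith) l2.le
    linarith

end Pool.Agent.Collatz3.EX
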