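import Mathlib

set_option autoImplicit false

/-!
A small library of entropy inequalities for finite weighted sets (weights need not sum to one).
-/

open Finset Real
open scoped Classical

namespace Pool.Agent.Collatz3

variable {Ω : Type*} (s : Finset Ω) (p : Ω → ℝ)

/-- mass of the value `t` of the variable `T` -/
noncomputable def mv {τ : Type*} (T : Ω → τ) (t : τ) : ℝ := ∑ ω ∈ s with T ω = t, p ω

/-- conditional entropy of `X` given `Y` -/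
noncomputable def cH {α β : Type*} (X : Ω → α) (Y : Ω → β) : ℝ :=
  ∑ ω ∈ s, p ω * (Real.log (mv s p Y (Y ω)) - Real.log (mv s p (fun ω => (X ω, Y ω)) (X ω, Y ω)))

variable {s p}

theorem mv_nonneg {τ : Type*} (hp : ∀ ω ∈ s, 0 ≤ p ω) (T : Ω → τ) (t : τ) : 0 ≤ mv s p T t :=
  sum_nonneg fun ω hω => hp ω (mem_filter.1 hω).1

theorem mv_congr {τ σ : Type*} (T : Ω → τ) (T' : Ω → σ) {ω₀ : Ω}
    (h : ∀ ω ∈ s, T ω = T ω₀ ↔ T' ω = T' ω₀) : mv s p T (T ω₀) = mv s p T' (T' ω₀) := by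
  unfold mv
  refine sum_congr ?_ fun _ _ => rfl
  ext ω
  simp only [mem_filter]
  constructor
  · rintro ⟨h1, h2⟩; exact ⟨h1, (h ω h1).1 h2⟩
  · rintro ⟨h1, h2⟩; exact ⟨h1, (h ω h1).2 h2⟩

theorem mv_congr' {τ σ : Type*} (T : Ω → τ) (T' : Ω → σ) {ω : Ω}
    (h : ∀ ω' ∈ s, p ω' ≠ 0 → (T ω' = T ω ↔ T' ω' = T' ω)) :
    mv s p T (T ω) = mv s p T' (T' ω) := by
  unfold mv
  rw [sum_filter, sum_filter]
  refine sum_congr rfl fun ω' hω' => ?_
  by_cases h0' : p ω' = 0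
  · simp [h0']
  · have := h ω' hω' h0'
    by_cases hT : T ω' = T ω
    · rw [if_pos hT, if_pos (this.1 hT)]
    · rw [if_neg hT, if_neg (fun h => hT (this.2 h))]

theorem mv_le {τ σ : Type*} (hp : ∀ ω ∈ s, 0 ≤ p ω) (T : Ω → τ) (T' : Ω → σ) {ω₀ : Ω}
    (h : ∀ ω ∈ s, T ω = T ω₀ → T' ω = T' ω₀) : mv s p T (T ω₀) ≤ mv s p T' (T' ω₀) := by
  unfold mv
  refine sum_le_sum_of_subset_of_nonneg ?_ ?_
  · intro ω hω
    rw [mem_filter] at hω ⊢
    exact ⟨hω.1, h ω hω.1 hω.2⟩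
  · intro ω hω _
    exact hp ω (mem_filter.1 hω).1

theorem le_mv {τ : Type*} (hp : ∀ ω ∈ s, 0 ≤ p ω) (T : Ω → τ) {ω₀ : Ω} (h0 : ω₀ ∈ s) :
    p ω₀ ≤ mv s p T (T ω₀) := by
  unfold mv
  exact single_le_sum (f := p) (fun ω hω => hp ω (mem_filter.1 hω).1)
    (mem_filter.2 ⟨h0, rfl⟩)

theorem sum_mv {τ : Type*} (T : Ω → τ) (I : Finset τ) (hI : ∀ ω ∈ s, T ω ∈ I) :
    ∑ t ∈ I, mv s p T t = ∑ ω ∈ s, p ω := by
  unfold mv
  rw [← sum_fiberwise_of_maps_to (g := T) hI]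

theorem sum_mv_pair {τ σ : Type*} (T : Ω → τ) (Z : Ω → σ) (z : σ) :
    ∑ y ∈ s.image T, mv s p (fun ω => (T ω, Z ω)) (y, z) = mv s p Z z := by
  unfold mv
  rw [← sum_fiberwise_of_maps_to (g := T) (s := s.filter fun ω => Z ω = z) (t := s.image T)
    (fun ω hω => mem_image_of_mem _ (mem_filter.1 hω).1)]
  refine sum_congr rfl fun y _ => ?_
  refine sum_congr ?_ fun _ _ => rfl
  ext ω
  simp only [mem_filter, Prod.ext_iff]
  tauto

/-- sum over the atoms -/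
theorem sum_div_le {τ : Type*} (T : Ω → τ) (h : τ → ℝ)
    (hh : ∀ t, 0 ≤ h t) (I : Finset τ) (hI : ∀ ω ∈ s, T ω ∈ I) :
    ∑ ω ∈ s, p ω * (h (T ω) / mv s p T (T ω)) ≤ ∑ t ∈ I, h t := by
  rw [← sum_fiberwise_of_maps_to (g := T) hI]
  refine sum_le_sum fun t _ => ?_
  have : ∑ ω ∈ s with T ω = t, p ω * (h (T ω) / mv s p T (T ω)) =
      (mv s p T t / mv s p T t) * h t := by
    have h1 : ∑ ω ∈ s with T ω = t, p ω * (h (T ω) / mv s p T (T ω)) =
        ∑ ω ∈ s with T ω = t, p ω * (h t / mv s p T t) := by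
      refine sum_congr rfl fun ω hω => ?_
      rw [(mem_filter.1 hω).2]
    rw [h1, ← sum_mul]
    change mv s p T t * (h t / mv s p T t) = _
    ring
  rw [this]
  have h1 : mv s p T t / mv s p T t ≤ 1 := div_self_le_one _
  nlinarith [hh t]

theorem cH_nonneg {α β : Type*} (hp : ∀ ω ∈ s, 0 ≤ p ω) (X : Ω → α) (Y : Ω → β) :
    0 ≤ cH s p X Y := by
  unfold cH
  refine sum_nonneg fun ω hω => ?_
  rcases (hp ω hω).eq_or_lt with h | h
  · rw [← h, zero_mul]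
  · refine mul_nonneg h.le (sub_nonneg.2 ?_)
    refine Real.log_le_log (h.trans_le (le_mv hp (fun ω => (X ω, Y ω)) hω)) ?_
    exact mv_le hp (fun ω => (X ω, Y ω)) Y fun ω' _ h' => (Prod.ext_iff.1 h').2

theorem cH_congr {α β α' β' : Type*} (X : Ω → α) (Y : Ω → β) (X' : Ω → α') (Y' : Ω → β')
    (h1 : ∀ ω ∈ s, p ω ≠ 0 → ∀ ω' ∈ s, p ω' ≠ 0 → (Y ω = Y ω' ↔ Y' ω = Y' ω'))
    (h2 : ∀ ω ∈ s, p ω ≠ 0 → ∀ ω' ∈ s, p ω' ≠ 0 →
      ((X ω = X ω' ∧ Y ω = Y ω') ↔ (X' ω = X' ω' ∧ Y' ω = Y' ω'))) :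
    cH s p X Y = cH s p X' Y' := by
  unfold cH
  refine sum_congr rfl fun ω hω => ?_
  by_cases h0 : p ω = 0
  · rw [h0, zero_mul, zero_mul]
  have k1 : mv s p Y (Y ω) = mv s p Y' (Y' ω) :=
    mv_congr' Y Y' fun ω' hω' h0' => h1 ω' hω' h0' ω hω h0
  have k2 : mv s p (fun ω => (X ω, Y ω)) (X ω, Y ω) = mv s p (fun ω => (X' ω, Y' ω)) (X' ω, Y' ω) := by
    refine mv_congr' (fun ω => (X ω, Y ω)) (fun ω => (X' ω, Y' ω)) fun ω' hω' h0' => ?_
    have := h2 ω' hω' h0' ω hω h0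
    simpa only [Prod.ext_iff] using this
  rw [k1, k2]

/-- chain rule -/
theorem cH_chain {α β γ : Type*} (X : Ω → α) (Y : Ω → β) (Z : Ω → γ) :
    cH s p (fun ω => (X ω, Z ω)) Y = cH s p X Y + cH s p Z (fun ω => (X ω, Y ω)) := by
  unfold cH
  rw [← sum_add_distrib]
  refine sum_congr rfl fun ω _ => ?_
  have k : mv s p (fun ω => ((X ω, Z ω), Y ω)) ((X ω, Z ω), Y ω) =
      mv s p (fun ω => (Z ω, (X ω, Y ω))) (Z ω, (X ω, Y ω)) := by
    refine mv_congr (fun ω => ((X ω, Z ω), Y ω)) (fun ω => (Z ω, (X ω, Y ω))) fun ω' _ => ?_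
    simp only [Prod.ext_iff]
    tauto
  rw [k]
  ring

/-- conditioning reduces entropy -/
theorem cH_cond_le {α β γ : Type*} (hp : ∀ ω ∈ s, 0 ≤ p ω) (X : Ω → α) (Y : Ω → β) (Z : Ω → γ) :
    cH s p X (fun ω => (Y ω, Z ω)) ≤ cH s p X Z := by
  rw [← sub_nonneg]
  unfold cH
  rw [← sum_sub_distrib]
  set mXYZ : Ω → ℝ := fun ω => mv s p (fun ω => (X ω, (Y ω, Z ω))) (X ω, (Y ω, Z ω)) with h1
  set mYZ : Ω → ℝ := fun ω => mv s p (fun ω => (Y ω, Z ω)) (Y ω, Z ω) with h2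
  set mXZ : Ω → ℝ := fun ω => mv s p (fun ω => (X ω, Z ω)) (X ω, Z ω) with h3
  set mZ : Ω → ℝ := fun ω => mv s p Z (Z ω) with h4
  have main : ∑ ω ∈ s, p ω * (mYZ ω * mXZ ω / mZ ω / mXYZ ω) ≤ ∑ ω ∈ s, p ω := by
    refine (sum_div_le (p := p) (s := s) (fun ω => (X ω, (Y ω, Z ω)))
      (fun t => mv s p (fun ω => (Y ω, Z ω)) (t.2.1, t.2.2) *
        mv s p (fun ω => (X ω, Z ω)) (t.1, t.2.2) / mv s p Z t.2.2) ?_
      (s.image X ×ˢ (s.image Y ×ˢ s.image Z)) ?_).trans ?_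
    · intro t
      exact div_nonneg (mul_nonneg (mv_nonneg hp _ _) (mv_nonneg hp _ _)) (mv_nonneg hp _ _)
    · intro ω hω
      simp only [mem_product, mem_image]
      exact ⟨⟨ω, hω, rfl⟩, ⟨ω, hω, rfl⟩, ⟨ω, hω, rfl⟩⟩
    · rw [sum_product]
      simp_rw [sum_product]
      -- ∑ x, ∑ y, ∑ z
      have e1 : ∑ x ∈ s.image X, ∑ y ∈ s.image Y, ∑ z ∈ s.image Z,
          mv s p (fun ω => (Y ω, Z ω)) (y, z) * mv s p (fun ω => (X ω, Z ω)) (x, z) / mv s p Z z =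
          ∑ z ∈ s.image Z, (∑ y ∈ s.image Y, mv s p (fun ω => (Y ω, Z ω)) (y, z)) *
            (∑ x ∈ s.image X, mv s p (fun ω => (X ω, Z ω)) (x, z)) / mv s p Z z := by
        have : ∀ z ∈ s.image Z, (∑ y ∈ s.image Y, mv s p (fun ω => (Y ω, Z ω)) (y, z)) *
            (∑ x ∈ s.image X, mv s p (fun ω => (X ω, Z ω)) (x, z)) / mv s p Z z =
            ∑ x ∈ s.image X, ∑ y ∈ s.image Y,
              mv s p (fun ω => (Y ω, Z ω)) (y, z) * mv s p (fun ω => (X ω, Z ω)) (x, z) /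
                mv s p Z z := by
          intro z _
          rw [sum_mul_sum, sum_div, sum_comm]
          simp_rw [sum_div]
        rw [sum_congr rfl this, sum_comm (s := s.image Z) (t := s.image X)]
        refine sum_congr rfl fun x _ => ?_
        rw [sum_comm]
      rw [e1]
      have e2 : ∀ z ∈ s.image Z, (∑ y ∈ s.image Y, mv s p (fun ω => (Y ω, Z ω)) (y, z)) *
            (∑ x ∈ s.image X, mv s p (fun ω => (X ω, Z ω)) (x, z)) / mv s p Z z ≤ mv s p Z z := by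
        intro z _
        rw [sum_mv_pair, sum_mv_pair]
        have := mv_nonneg hp Z z
        have h := div_self_le_one (mv s p Z z)
        calc mv s p Z z * mv s p Z z / mv s p Z z = mv s p Z z * (mv s p Z z / mv s p Z z) := by ring
          _ ≤ mv s p Z z * 1 := by gcongr
          _ = _ := mul_one _
      refine (sum_le_sum e2).trans ?_
      rw [sum_mv Z _ (fun ω hω => mem_image_of_mem _ hω)]
  have pt : ∀ ω ∈ s, p ω - p ω * (mYZ ω * mXZ ω / mZ ω / mXYZ ω) ≤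
      p ω * (Real.log (mZ ω) - Real.log (mXZ ω)) -
        p ω * (Real.log (mYZ ω) - Real.log (mXYZ ω)) := by
    intro ω hω
    rcases (hp ω hω).eq_or_lt with h | h
    · rw [← h]; simp
    · have a1 : 0 < mXYZ ω := h.trans_le (le_mv hp (fun ω => (X ω, (Y ω, Z ω))) hω)
      have a2 : 0 < mYZ ω := h.trans_le (le_mv hp (fun ω => (Y ω, Z ω)) hω)
      have a3 : 0 < mXZ ω := h.trans_le (le_mv hp (fun ω => (X ω, Z ω)) hω)
      have a4 : 0 < mZ ω := h.trans_le (le_mv hp Z hω)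
      have hl := Real.log_le_sub_one_of_pos (show 0 < mYZ ω * mXZ ω / mZ ω / mXYZ ω by positivity)
      rw [Real.log_div (by positivity) (by positivity), Real.log_div (by positivity) (by positivity),
        Real.log_mul (by positivity) (by positivity)] at hl
      nlinarith [mul_le_mul_of_nonneg_left hl h.le]
  calc (0 : ℝ) ≤ ∑ ω ∈ s, (p ω - p ω * (mYZ ω * mXZ ω / mZ ω / mXYZ ω)) := by
        rw [sum_sub_distrib]; linarith
    _ ≤ _ := sum_le_sum pt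

theorem cH_mono {α α' β : Type*} (hp : ∀ ω ∈ s, 0 ≤ p ω) (X' : Ω → α') (X : Ω → α) (Y : Ω → β)
    (h : ∀ ω ∈ s, p ω ≠ 0 → ∀ ω' ∈ s, p ω' ≠ 0 → X ω = X ω' → Y ω = Y ω' → X' ω = X' ω') :
    cH s p X' Y ≤ cH s p X Y := by
  have e : cH s p X Y = cH s p (fun ω => (X' ω, X ω)) Y := by
    refine cH_congr _ _ _ _ (fun _ _ _ _ _ _ => Iff.rfl) fun ω h1 h2 ω' h3 h4 => ?_
    simp only [Prod.ext_iff]
    constructor
    · rintro ⟨a, b⟩; exact ⟨⟨h ω h1 h2 ω' h3 h4 a b, a⟩, b⟩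
    · rintro ⟨⟨_, a⟩, b⟩; exact ⟨a, b⟩
  rw [e, cH_chain]
  have := cH_nonneg hp X (fun ω => (X' ω, Y ω))
  linarith

theorem cH_triangle {α α' β : Type*} (hp : ∀ ω ∈ s, 0 ≤ p ω) (X' : Ω → α') (X : Ω → α)
    (Y : Ω → β) : cH s p X Y ≤ cH s p X' Y + cH s p X (fun ω => (X' ω, Y ω)) := by
  rw [← cH_chain]
  refine cH_mono hp _ _ _ fun ω _ _ ω' _ _ h _ => (Prod.ext_iff.1 h).2

/-- more information in the condition means less entropy -/
theorem cH_anti {α β β' : Type*} (hp : ∀ ω ∈ s, 0 ≤ p ω) (X : Ω → α) (Y : Ω → β) (Y' : Ω → β')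
    (h : ∀ ω ∈ s, p ω ≠ 0 → ∀ ω' ∈ s, p ω' ≠ 0 → Y ω = Y ω' → Y' ω = Y' ω') :
    cH s p X Y ≤ cH s p X Y' := by
  have e : cH s p X Y = cH s p X (fun ω => (Y ω, Y' ω)) := by
    refine cH_congr _ _ _ _ (fun ω h1 h2 ω' h3 h4 => ?_) fun ω h1 h2 ω' h3 h4 => ?_
    · simp only [Prod.ext_iff]
      exact ⟨fun a => ⟨a, h ω h1 h2 ω' h3 h4 a⟩, fun a => a.1⟩
    · simp only [Prod.ext_iff]
      exact ⟨fun a => ⟨a.1, a.2, h ω h1 h2 ω' h3 h4 a.2⟩, fun a => ⟨a.1, a.2.1⟩⟩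
  rw [e]
  exact cH_cond_le hp _ _ _

theorem ratio_sum_le {α β : Type*} (hp : ∀ ω ∈ s, 0 ≤ p ω) (X : Ω → α) (Y : Ω → β) (N : ℕ)
    (hN : ∀ y, ∃ I : Finset α, I.card ≤ N ∧ ∀ ω ∈ s, Y ω = y → X ω ∈ I) :
    ∑ ω ∈ s, p ω * (mv s p Y (Y ω) / mv s p (fun ω => (X ω, Y ω)) (X ω, Y ω)) ≤
      N * ∑ ω ∈ s, p ω := by
  replace hN : ∀ y, ((s.filter fun ω => Y ω = y).image X).card ≤ N := by
    intro y
    obtain ⟨I, h1, h2⟩ := hN y
    refine le_trans (card_le_card fun x hx => ?_) h1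
    obtain ⟨ω, hω, rfl⟩ := mem_image.1 hx
    exact h2 ω (mem_filter.1 hω).1 (mem_filter.1 hω).2
  refine (sum_div_le (p := p) (s := s) (fun ω => (X ω, Y ω)) (fun t => mv s p Y t.2)
    (fun t => mv_nonneg hp _ _) (s.image fun ω => (X ω, Y ω))
    (fun ω hω => mem_image_of_mem _ hω)).trans ?_
  rw [← sum_fiberwise_of_maps_to (s := s.image fun ω => (X ω, Y ω)) (t := s.image Y)
    (g := fun t : α × β => t.2) (by
      intro t ht
      obtain ⟨ω, hω, rfl⟩ := mem_image.1 ht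
      exact mem_image_of_mem _ hω)]
  rw [← sum_mv Y (s.image Y) (fun ω hω => mem_image_of_mem _ hω), mul_sum]
  refine sum_le_sum fun y _ => ?_
  have : ∑ t ∈ (s.image fun ω => (X ω, Y ω)) with t.2 = y, mv s p Y t.2 =
      (((s.image fun ω => (X ω, Y ω)).filter fun t => t.2 = y).card : ℝ) * mv s p Y y := by
    rw [← nsmul_eq_mul, ← sum_const]
    refine sum_congr rfl fun t ht => ?_
    rw [(mem_filter.1 ht).2]
  rw [this]
  have hc : ((s.image fun ω => (X ω, Y ω)).filter fun t => t.2 = y).card ≤ N := by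
    refine le_trans ?_ (hN y)
    refine card_le_card_of_injOn (fun t => t.1) ?_ ?_
    · intro t ht
      rw [mem_coe, mem_filter, mem_image] at ht
      obtain ⟨⟨ω, hω, rfl⟩, h2⟩ := ht
      rw [mem_coe, mem_image]
      exact ⟨ω, mem_filter.2 ⟨hω, h2⟩, rfl⟩
    · intro t ht t' ht' h
      rw [mem_coe, mem_filter] at ht ht'
      exact Prod.ext h (ht.2.trans ht'.2.symm)
  have := mv_nonneg hp Y y
  gcongr

/-- entropy is at most the logarithm of the number of values -/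
theorem cH_le_log {α β : Type*} (hp : ∀ ω ∈ s, 0 ≤ p ω) (X : Ω → α) (Y : Ω → β) (N : ℕ)
    (hN0 : 0 < N) (hN : ∀ y, ∃ I : Finset α, I.card ≤ N ∧ ∀ ω ∈ s, Y ω = y → X ω ∈ I) :
    cH s p X Y ≤ (∑ ω ∈ s, p ω) * Real.log N := by
  have h1 := ratio_sum_le hp X Y N hN
  have hN1 : (0 : ℝ) < N := by exact_mod_cast hN0
  unfold cH
  have pt : ∀ ω ∈ s, p ω * (Real.log (mv s p Y (Y ω)) -
      Real.log (mv s p (fun ω => (X ω, Y ω)) (X ω, Y ω))) ≤
      p ω * Real.log N + (p ω * (mv s p Y (Y ω) / mv s p (fun ω => (X ω, Y ω)) (X ω, Y ω)) / N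
        - p ω) := by
    intro ω hω
    rcases (hp ω hω).eq_or_lt with h | h
    · rw [← h]; simp
    · have a1 : 0 < mv s p Y (Y ω) := h.trans_le (le_mv hp Y hω)
      have a2 : 0 < mv s p (fun ω => (X ω, Y ω)) (X ω, Y ω) :=
        h.trans_le (le_mv hp (fun ω => (X ω, Y ω)) hω)
      have hl := Real.log_le_sub_one_of_pos
        (show 0 < mv s p Y (Y ω) / mv s p (fun ω => (X ω, Y ω)) (X ω, Y ω) / N by positivity)
      rw [Real.log_div (by positivity) (by positivity), Real.log_div a1.ne' a2.ne'] at hl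
      have := mul_le_mul_of_nonneg_left hl h.le
      calc p ω * (Real.log (mv s p Y (Y ω)) -
            Real.log (mv s p (fun ω => (X ω, Y ω)) (X ω, Y ω)))
          = p ω * (Real.log (mv s p Y (Y ω)) -
            Real.log (mv s p (fun ω => (X ω, Y ω)) (X ω, Y ω)) - Real.log N) +
            p ω * Real.log N := by ring
        _ ≤ p ω * (mv s p Y (Y ω) / mv s p (fun ω => (X ω, Y ω)) (X ω, Y ω) / N - 1) +
            p ω * Real.log N := by linarith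
        _ = _ := by ring
  refine (sum_le_sum pt).trans ?_
  rw [sum_add_distrib, sum_sub_distrib, ← sum_mul, ← sum_div]
  have : (∑ ω ∈ s, p ω * (mv s p Y (Y ω) / mv s p (fun ω => (X ω, Y ω)) (X ω, Y ω))) / N ≤
      ∑ ω ∈ s, p ω := by
    rw [div_le_iff₀ hN1]
    linarith
  linarith

theorem cH_le_log' {α β : Type*} (hp : ∀ ω ∈ s, 0 ≤ p ω) (X : Ω → α) (Y : Ω → β) (I : Finset α)
    (N : ℕ) (hN0 : 0 < N) (hI : ∀ ω ∈ s, X ω ∈ I) (hN : I.card ≤ N) :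
    cH s p X Y ≤ (∑ ω ∈ s, p ω) * Real.log N := by
  exact cH_le_log hp X Y N hN0 fun y => ⟨I, hN, fun ω hω _ => hI ω hω⟩

/-- probability that two independent samples of `X` given `Y` differ -/
noncomputable def pdiff (s : Finset Ω) (p : Ω → ℝ) {α β : Type*} (X : Ω → α) (Y : Ω → β) : ℝ :=
  ∑ ω ∈ s, p ω * (1 - mv s p (fun ω => (X ω, Y ω)) (X ω, Y ω) / mv s p Y (Y ω))

theorem cH_le_pdiff {α β : Type*} (hp : ∀ ω ∈ s, 0 ≤ p ω) (X : Ω → α) (Y : Ω → β) (N : ℕ)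
    (hN : ∀ y, ∃ I : Finset α, I.card ≤ N ∧ ∀ ω ∈ s, Y ω = y → X ω ∈ I) :
    cH s p X Y ≤ 2 * (Real.sqrt (N * ∑ ω ∈ s, p ω) * Real.sqrt (pdiff s p X Y)) := by
  set a : Ω → ℝ := fun ω => mv s p Y (Y ω) with ha
  set b : Ω → ℝ := fun ω => mv s p (fun ω => (X ω, Y ω)) (X ω, Y ω) with hb
  have h1 : ∑ ω ∈ s, p ω * (a ω / b ω) ≤ N * ∑ ω ∈ s, p ω := ratio_sum_le hp X Y N hN
  have hba : ∀ ω, b ω ≤ a ω := fun ω =>
    mv_le hp (fun ω => (X ω, Y ω)) Y fun ω' _ h' => (Prod.ext_iff.1 h').2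
  have hb0 : ∀ ω, 0 ≤ b ω := fun ω => mv_nonneg hp _ _
  have pt : ∀ ω ∈ s, p ω * (Real.log (a ω) - Real.log (b ω)) ≤
      2 * ((Real.sqrt (p ω * (a ω / b ω))) * Real.sqrt (p ω * (1 - b ω / a ω))) := by
    intro ω hω
    rcases (hp ω hω).eq_or_lt with h | h
    · rw [← h]; simp
    · have a1 : 0 < a ω := h.trans_le (le_mv hp Y hω)
      have a2 : 0 < b ω := h.trans_le (le_mv hp (fun ω => (X ω, Y ω)) hω)
      have hu : b ω / a ω ≤ 1 := (div_le_one a1).2 (hba ω)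
      have hu0 : 0 < b ω / a ω := by positivity
      set u := b ω / a ω with hu'
      have e1 : a ω / b ω = u⁻¹ := by rw [hu', inv_div]
      have e2 : Real.log (a ω) - Real.log (b ω) = - Real.log u := by
        rw [hu', Real.log_div a2.ne' a1.ne']; ring
      rw [e1, e2]
      have hs : 0 < Real.sqrt u := Real.sqrt_pos.2 hu0
      have e3 : - Real.log u = 2 * Real.log (Real.sqrt u)⁻¹ := by
        rw [Real.log_inv, Real.log_sqrt hu0.le]; ring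
      have e4 : Real.log (Real.sqrt u)⁻¹ ≤ (Real.sqrt u)⁻¹ - 1 :=
        Real.log_le_sub_one_of_pos (by positivity)
      have hs1 : Real.sqrt u ≤ 1 := Real.sqrt_le_one.2 hu
      have e5 : (Real.sqrt u)⁻¹ - 1 ≤ (Real.sqrt u)⁻¹ * Real.sqrt (1 - u) := by
        have : (Real.sqrt u)⁻¹ - 1 = (Real.sqrt u)⁻¹ * (1 - Real.sqrt u) := by
          field_simp
        rw [this]
        refine mul_le_mul_of_nonneg_left ?_ (by positivity)
        refine Real.le_sqrt_of_sq_le ?_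
        nlinarith [Real.sq_sqrt hu0.le]
      have e6 : Real.sqrt (p ω * u⁻¹) * Real.sqrt (p ω * (1 - u)) =
          p ω * ((Real.sqrt u)⁻¹ * Real.sqrt (1 - u)) := by
        rw [Real.sqrt_mul h.le, Real.sqrt_mul h.le, Real.sqrt_inv]
        have := Real.mul_self_sqrt h.le
        calc Real.sqrt (p ω) * (Real.sqrt u)⁻¹ * (Real.sqrt (p ω) * Real.sqrt (1 - u)) =
            (Real.sqrt (p ω) * Real.sqrt (p ω)) * ((Real.sqrt u)⁻¹ * Real.sqrt (1 - u)) := by ring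
          _ = _ := by rw [this]
      rw [e6, e3]
      have := mul_le_mul_of_nonneg_left (e4.trans e5) h.le
      nlinarith
  unfold cH
  refine (sum_le_sum pt).trans ?_
  rw [← mul_sum]
  refine mul_le_mul_of_nonneg_left ?_ (by norm_num)
  refine (Real.sum_mul_le_sqrt_mul_sqrt s _ _).trans ?_
  have q1 : ∑ ω ∈ s, Real.sqrt (p ω * (a ω / b ω)) ^ 2 = ∑ ω ∈ s, p ω * (a ω / b ω) := by
    refine sum_congr rfl fun ω hω => Real.sq_sqrt ?_
    exact mul_nonneg (hp ω hω) (div_nonneg ((hb0 ω).trans (hba ω)) (hb0 ω))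
  have q2 : ∑ ω ∈ s, Real.sqrt (p ω * (1 - b ω / a ω)) ^ 2 = pdiff s p X Y := by
    unfold pdiff
    refine sum_congr rfl fun ω hω => Real.sq_sqrt ?_
    refine mul_nonneg (hp ω hω) (sub_nonneg.2 ?_)
    exact div_le_one_of_le₀ (hba ω) ((hb0 ω).trans (hba ω))
  rw [q1, q2]
  refine mul_le_mul_of_nonneg_right (Real.sqrt_le_sqrt h1) (Real.sqrt_nonneg _)

/-- determined variables have no entropy -/
theorem cH_eq_zero {α β : Type*} (X : Ω → α) (Y : Ω → β)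
    (h : ∀ ω ∈ s, ∀ ω' ∈ s, Y ω = Y ω' → X ω = X ω') : cH s p X Y = 0 := by
  unfold cH
  refine sum_eq_zero fun ω hω => ?_
  have : mv s p Y (Y ω) = mv s p (fun ω => (X ω, Y ω)) (X ω, Y ω) := by
    refine mv_congr Y (fun ω => (X ω, Y ω)) fun ω' hω' => ?_
    simp only [Prod.ext_iff]
    exact ⟨fun a => ⟨h ω' hω' ω hω a, a⟩, fun a => a.2⟩
  rw [this]
  simp

section map

variable {Ω' : Type*} {s' : Finset Ω'} {p' : Ω' → ℝ}

theorem mv_map (q : Ω → Ω') (hq : ∀ ω ∈ s, q ω ∈ s')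
    (hp' : ∀ ω' ∈ s', ∑ ω ∈ s with q ω = ω', p ω = p' ω') {τ : Type*} (T : Ω' → τ) (t : τ) :
    mv s p (fun ω => T (q ω)) t = mv s' p' T t := by
  unfold mv
  rw [sum_filter, ← sum_fiberwise_of_maps_to (g := q) hq, sum_filter]
  refine sum_congr rfl fun ω' hω' => ?_
  rw [← hp' ω' hω']
  by_cases h : T ω' = t
  · rw [if_pos h]
    refine sum_congr rfl fun ω hω => ?_
    have e : q ω = ω' := (mem_filter.1 hω).2
    simp [e, h]
  · rw [if_neg h]
    refine sum_eq_zero fun ω hω => ?_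
    have e : q ω = ω' := (mem_filter.1 hω).2
    simp [e, h]

theorem cH_map (q : Ω → Ω') (hq : ∀ ω ∈ s, q ω ∈ s')
    (hp' : ∀ ω' ∈ s', ∑ ω ∈ s with q ω = ω', p ω = p' ω') {α β : Type*} (X : Ω' → α)
    (Y : Ω' → β) : cH s p (fun ω => X (q ω)) (fun ω => Y (q ω)) = cH s' p' X Y := by
  unfold cH
  rw [← sum_fiberwise_of_maps_to (g := q) hq]
  refine sum_congr rfl fun ω' hω' => ?_
  rw [← hp' ω' hω', sum_mul]
  refine sum_congr rfl fun ω hω => ?_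
  rw [mv_map q hq hp' Y, mv_map q hq hp' (fun ω => (X ω, Y ω))]
  simp only [(mem_filter.1 hω).2]

end map

end Pool.Agent.Collatz3
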