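import Pool.Agent.Collatz3.Uniq

set_option autoImplicit false

/-!
Uniform ergodic bound: time averages of periodic functions are asymptotically bounded, uniformly in
the starting point, by the larger of the two uniform means.
-/

open Finset Filter

namespace Pool.Agent.Collatz3

theorem IsPer.bdd {f : U → ℝ} (hf : IsPer f) : ∃ C : ℝ, 0 ≤ C ∧ ∀ a, |f a| ≤ C := by
  obtain ⟨M, hM⟩ := hf.exists_succ
  obtain ⟨v, hv, -⟩ := decomp hM
  refine ⟨∑ x, |v x|, sum_nonneg fun _ _ => abs_nonneg _, fun a => ?_⟩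
  rw [hv]
  dsimp only
  refine (abs_sum_le_sum_abs _ _).trans (sum_le_sum fun x _ => ?_)
  rw [abs_mul, abs_of_nonneg (zi_nonneg _ x a)]
  have := zi_le_one (M + 1) x a
  have h2 := abs_nonneg (v x)
  nlinarith

variable {y : Sys}

theorem Pit_iterate (k : ℕ) (g : U → ℝ) : y.Pit k g = y.P^[k] g := by
  induction k with
  | zero => rw [y.Pit_zero]; rfl
  | succ k ih => rw [y.Pit_succ, ih, Function.iterate_succ_apply']

theorem Pit_P (k : ℕ) (g : U → ℝ) : y.Pit k (y.P g) = y.Pit (k + 1) g := by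
  rw [Pit_iterate, Pit_iterate, Function.iterate_succ_apply]

theorem Pit_abs_le (k : ℕ) {g : U → ℝ} {C : ℝ} (h : ∀ a, |g a| ≤ C) (a : U) :
    |y.Pit k g a| ≤ C := by
  unfold Sys.Pit
  refine (abs_sum_le_sum_abs _ _).trans ?_
  calc ∑ l ∈ y.words k, |y.K l a * g (y.fin l a)| ≤ ∑ l ∈ y.words k, y.K l a * C := by
        refine sum_le_sum fun l _ => ?_
        rw [abs_mul, abs_of_nonneg (y.K_nonneg l a)]
        exact mul_le_mul_of_nonneg_left (h _) (y.K_nonneg l a)
    _ = C := by rw [← sum_mul, y.sum_K, one_mul]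

theorem Pit_add (k : ℕ) (f g : U → ℝ) (a : U) :
    y.Pit k (fun a => f a + g a) a = y.Pit k f a + y.Pit k g a := by
  unfold Sys.Pit
  rw [← sum_add_distrib]
  exact sum_congr rfl fun l _ => by ring

theorem Pit_smul (k : ℕ) (r : ℝ) (f : U → ℝ) (a : U) :
    y.Pit k (fun a => r * f a) a = r * y.Pit k f a := by
  unfold Sys.Pit
  rw [mul_sum]
  exact sum_congr rfl fun l _ => by ring

theorem Pit_nonneg (k : ℕ) {f : U → ℝ} (h : ∀ a, 0 ≤ f a) (a : U) : 0 ≤ y.Pit k f a :=
  sum_nonneg fun l _ => mul_nonneg (y.K_nonneg l a) (h _)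

/-- time average -/
noncomputable def tav (y : Sys) (J : ℕ) (a : U) (f : U → ℝ) : ℝ :=
  (∑ i ∈ range J, y.Pit i f a) / J

theorem tav_abs_le (J : ℕ) (a : U) {f : U → ℝ} {C : ℝ} (hC : 0 ≤ C) (h : ∀ a, |f a| ≤ C) :
    |tav y J a f| ≤ C := by
  unfold tav
  rw [abs_div, abs_of_nonneg (Nat.cast_nonneg (α := ℝ) J)]
  refine div_le_of_le_mul₀ (Nat.cast_nonneg J) hC ?_
  refine (abs_sum_le_sum_abs _ _).trans ?_
  calc ∑ i ∈ range J, |y.Pit i f a| ≤ ∑ i ∈ range J, C := sum_le_sum fun i _ => Pit_abs_le i h a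
    _ = C * J := by rw [sum_const, card_range, nsmul_eq_mul, mul_comm]

theorem ergodic (hhalf : ∀ w a, y.κ w a ≤ 1 / 2)
    (hinj : ∀ l l' : List y.A, l.length = l'.length → y.totS l = y.totS l' →
      y.totC l = y.totC l' → l = l') {F : U → ℝ} (hF : IsPer F) {η : ℝ} (hη : 0 < η) :
    ∃ J₀ : ℕ, ∀ J : ℕ, J₀ ≤ J → ∀ a : U,
      tav y J a F ≤ max ((uu 0).E F) ((uu 1).E F) + η := by
  by_contra hcon
  push Not at hcon
  choose J hJ a ha using hcon
  -- limits along a nonprincipal ultrafilter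
  have key : ∀ f, IsPer f → Tendsto (fun n => tav y (J n) (a n) f) (hyperfilter ℕ)
      (nhds (limUnder (hyperfilter ℕ : Filter ℕ) fun n => tav y (J n) (a n) f)) := by
    intro f hf
    obtain ⟨C, hC0, hC⟩ := hf.bdd
    apply tendsto_nhds_limUnder
    have hcomp : IsCompact (Set.Icc (-C) C) := isCompact_Icc
    have := hcomp.ultrafilter_le_nhds ((hyperfilter ℕ).map fun n => tav y (J n) (a n) f) (by
      rw [Filter.le_principal_iff, Ultrafilter.coe_map, Filter.mem_map]
      refine Filter.univ_mem' fun n => ?_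
      have := tav_abs_le (y := y) (J n) (a n) hC0 hC
      exact abs_le.1 this)
    obtain ⟨x, _, hx⟩ := this
    exact ⟨x, hx⟩
  let E : (U → ℝ) → ℝ := fun f => limUnder (hyperfilter ℕ : Filter ℕ) fun n => tav y (J n) (a n) f
  have hE : ∀ f, E f = limUnder (hyperfilter ℕ : Filter ℕ) fun n => tav y (J n) (a n) f :=
    fun _ => rfl
  have keyE : ∀ f, IsPer f → Tendsto (fun n => tav y (J n) (a n) f) (hyperfilter ℕ)
      (nhds (E f)) := key
  have hadd : ∀ f g, IsPer f → IsPer g → E (fun a => f a + g a) = E f + E g := by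
    intro f g hf hg
    refine tendsto_nhds_unique (keyE _ (hf.add hg)) ?_
    refine ((keyE f hf).add (keyE g hg)).congr fun n => ?_
    unfold tav
    simp_rw [Pit_add]
    rw [sum_add_distrib, add_div]
  have hsmul : ∀ (r : ℝ) f, IsPer f → E (fun a => r * f a) = r * E f := by
    intro r f hf
    refine tendsto_nhds_unique (keyE _ (hf.smul r)) ?_
    refine ((keyE f hf).const_mul r).congr fun n => ?_
    unfold tav
    simp_rw [Pit_smul]
    rw [← mul_sum, mul_div_assoc]
  have hnn : ∀ f, IsPer f → (∀ a, 0 ≤ f a) → 0 ≤ E f := by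
    intro f hf h0
    refine ge_of_tendsto' (keyE f hf) fun n => ?_
    exact div_nonneg (sum_nonneg fun i _ => Pit_nonneg i h0 _) (Nat.cast_nonneg _)
  let m : PMean := ⟨E, hadd, hsmul, hnn⟩
  have hm : ∀ f, m.E f = E f := fun _ => rfl
  have hJtop : Tendsto (fun n => (J n : ℝ)) (hyperfilter ℕ : Filter ℕ) atTop := by
    have h1 : Tendsto J atTop atTop := tendsto_atTop_mono hJ tendsto_id
    exact (tendsto_natCast_atTop_atTop.comp h1).mono_left Nat.hyperfilter_le_atTop
  have hst : Stat y m := by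
    intro g hg
    rw [hm, hm]
    obtain ⟨C, hC0, hC⟩ := hg.bdd
    have h0 : Tendsto (fun n => tav y (J n) (a n) (y.P g) - tav y (J n) (a n) g)
        (hyperfilter ℕ) (nhds 0) := by
      have h1 : Tendsto (fun n => 2 * C / (J n : ℝ)) (hyperfilter ℕ : Filter ℕ) (nhds 0) :=
        tendsto_const_nhds.div_atTop hJtop
      refine squeeze_zero_norm (fun n => ?_) h1
      rw [Real.norm_eq_abs]
      unfold tav
      simp_rw [Pit_P]
      rw [← sub_div, ← sum_sub_distrib, sum_range_sub (fun i => y.Pit i g (a n)), abs_div,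
        abs_of_nonneg (Nat.cast_nonneg (α := ℝ) (J n))]
      refine div_le_div_of_nonneg_right ?_ (Nat.cast_nonneg _)
      refine (abs_sub _ _).trans ?_
      have e1 := Pit_abs_le (y := y) (J n) hC (a n)
      have e2 := Pit_abs_le (y := y) 0 hC (a n)
      linarith
    have h1 := ((keyE _ (hg.P (y := y))).sub (keyE g hg))
    have := tendsto_nhds_unique h1 h0
    linarith
  have h1 : m.E (fun _ => 1) = 1 := by
    rw [hm]
    refine tendsto_nhds_unique (keyE _ (IsPer.const 1)) ?_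
    refine (tendsto_const_nhds (x := (1 : ℝ))).congr' ?_
    have : ∀ᶠ n in (hyperfilter ℕ : Filter ℕ), (1 : ℝ) ≤ J n := hJtop.eventually_ge_atTop 1
    filter_upwards [this] with n hn
    unfold tav Sys.Pit
    simp_rw [mul_one, y.sum_K]
    rw [sum_const, card_range, nsmul_eq_mul, mul_one, div_self (by linarith)]
  obtain ⟨α, hα0, hα1, hα⟩ := unique hst hhalf hinj h1
  have h2 : m.E F ≤ max ((uu 0).E F) ((uu 1).E F) := by
    rw [hα F hF, Fin.sum_univ_two]
    rw [Fin.sum_univ_two] at hα1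
    have i1 := le_max_left ((uu 0).E F) ((uu 1).E F)
    have i2 := le_max_right ((uu 0).E F) ((uu 1).E F)
    calc α 0 * (uu 0).E F + α 1 * (uu 1).E F ≤ α 0 * max ((uu 0).E F) ((uu 1).E F) +
          α 1 * max ((uu 0).E F) ((uu 1).E F) :=
          add_le_add (mul_le_mul_of_nonneg_left i1 (hα0 0)) (mul_le_mul_of_nonneg_left i2 (hα0 1))
      _ = _ := by rw [← add_mul, hα1, one_mul]
  have h3 : max ((uu 0).E F) ((uu 1).E F) + η ≤ m.E F := by
    rw [hm]
    exact ge_of_tendsto' (keyE F hF) fun n => (ha n).le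
  linarith

end Pool.Agent.Collatz3
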