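import Mathlib
import Pool.Agent.Collatz3.FWNum

set_option autoImplicit false

/-!
Forward hand-off: the passage time, upper bound.
-/

namespace Pool.Agent.Collatz3.FW

open Finset Filter Topology
open Pool.Agent.Collatz3.Mix (words mem_words sum_words_zero sum_words_succ sum_words_add)
open Pool.Agent.Collatz3.PD
open Pool.Agent.Helper14 (T)

theorem abs_eq_sign {e : ℤ} (he : e = 1 ∨ e = -1) {n : ℤ} (h : 0 < e * n) :
    |(n : ℝ)| = ((e * n : ℤ) : ℝ) := by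
  have h1 : |n| = e * n := by
    rcases he with h' | h' <;> rw [h'] at h ⊢
    · rw [one_mul] at h ⊢
      exact abs_of_pos h
    · rw [abs_of_neg (by omega)]
      ring
  rw [← h1]
  push_cast
  rfl

open Classical in
theorem card_small {e : ℤ} (he : e = 1 ∨ e = -1) (y : ℝ) {Z : ℝ} (hZ : 0 ≤ Z) :
    (((Od e y).filter fun n : ℤ => |(n : ℝ)| ≤ Z).card : ℝ) ≤ (Z + 1) / 2 := by
  refine le_trans ?_ (oc_le hZ)
  rw [← card_Od he Z]
  have : (Od e y).filter (fun n : ℤ => |(n : ℝ)| ≤ Z) ⊆ Od e Z := by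
    intro n hn
    rw [mem_filter, mem_Od he] at hn
    rw [mem_Od he]
    obtain ⟨⟨h1, h2, -⟩, h3⟩ := hn
    rw [abs_eq_sign he h2] at h3
    exact ⟨h1, h2, h3⟩
  exact_mod_cast card_le_card this

open Classical in
/-- The number of odd integers in a range with a given property. -/
noncomputable def F (e : ℤ) (A : Set ℤ) (X : ℝ) : ℝ := (((Od e X).filter fun n => n ∈ A).card : ℝ)

theorem F_nonneg (e : ℤ) (A : Set ℤ) (X : ℝ) : 0 ≤ F e A X := Nat.cast_nonneg _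

theorem F_le {e : ℤ} (he : e = 1 ∨ e = -1) (A : Set ℤ) {X : ℝ} (hX : 0 ≤ X) :
    F e A X ≤ (X + 1) / 2 := by
  classical
  unfold F
  refine le_trans ?_ (oc_le hX)
  rw [← card_Od he X]
  exact_mod_cast card_le_card (filter_subset _ _)

theorem F_mono {e : ℤ} {A B : Set ℤ} (h : A ⊆ B) (X : ℝ) : F e A X ≤ F e B X := by
  classical
  unfold F
  exact_mod_cast card_le_card (monotone_filter_right _ fun n _ hn => h hn)

theorem F_zero_of_le {e : ℤ} (he : e = 1 ∨ e = -1) {M t y : ℝ} (hy : y ≤ M) (ht : 0 ≤ t) :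
    F e (Bd M t) y = 0 := by
  classical
  unfold F
  rw [Nat.cast_eq_zero, card_eq_zero, filter_eq_empty_iff]
  intro n hn hb
  rw [mem_Od he] at hn
  have h1 := hb 0 (by simpa using ht)
  simp only [Function.iterate_zero, id_eq] at h1
  rw [abs_eq_sign he hn.2.1] at h1
  linarith [hn.2.2]

/-- The mass of the words with a small sum. -/
theorem dev_mass {θ : ℝ} (hθ1 : θ < 1) {k : ℕ} (hN : NumT θ k) (I : ℕ) :
    P ((words I (k - k / 20)).filter fun w => (w.sum : ℝ) ≤ 2 * ((k - k / 20 : ℕ) : ℝ) - dv θ k) ≤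
      1 / (k : ℝ) ^ 7 ∧
    P ((words I (k - k / 20)).filter fun w => 2 * ((k - k / 20 : ℕ) : ℝ) + dv θ k ≤ (w.sum : ℝ)) ≤
      1 / (k : ℝ) ^ 7 := by
  have hbig := hN.big
  have hk : (2000 : ℝ) ≤ k := by exact_mod_cast hbig
  obtain ⟨l, hl⟩ : ∃ l, l = k - k / 20 := ⟨_, rfl⟩
  rw [← hl]
  have hl1 : (k : ℝ) ≤ 2 * l := by exact_mod_cast (by omega : k ≤ 2 * l)
  have hl2 : (l : ℝ) ≤ k := by exact_mod_cast (by omega : l ≤ k)
  have hl0 : (0 : ℝ) < l := by linarith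
  have h1 : (k : ℝ) ^ θ ≤ k := by
    calc (k : ℝ) ^ θ ≤ (k : ℝ) ^ (1 : ℝ) :=
          Real.rpow_le_rpow_of_exponent_le (by linarith) hθ1.le
      _ = k := Real.rpow_one _
  have h0 : 0 < dv θ k := by
    unfold dv
    positivity
  have h2 : dv θ k ≤ l := by
    unfold dv
    linarith
  obtain ⟨δ, hδ⟩ : ∃ δ, δ = dv θ k / l := ⟨_, rfl⟩
  have hδ0 : 0 < δ := by rw [hδ]; positivity
  have hδ1 : δ ≤ 1 := by
    rw [hδ, div_le_one hl0]
    exact h2
  have h3 : δ * l = dv θ k := by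
    rw [hδ]
    field_simp
  have h4 : Real.exp (-(δ ^ 2 / 16) * l) ≤ 1 / (k : ℝ) ^ 7 := by
    refine le_trans ?_ hN.dev
    apply Real.exp_le_exp.2
    have h5 : δ ^ 2 / 16 * l = dv θ k ^ 2 / (16 * l) := by
      rw [← h3]
      field_simp
    have h6 : dv θ k ^ 2 / (16 * k) ≤ dv θ k ^ 2 / (16 * l) :=
      div_le_div_of_nonneg_left (by positivity) (by positivity) (by linarith)
    linarith
  constructor
  · have h5 := lower_dev hδ0 hδ1 I l
    have h6 : (2 - δ) * l = 2 * l - dv θ k := by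
      rw [← h3]
      ring
    rw [h6] at h5
    exact h5.trans h4
  · have h5 := upper_dev hδ0 hδ1 I l
    have h6 : (2 + δ) * l = 2 * l + dv θ k := by
      rw [← h3]
      ring
    rw [h6] at h5
    exact h5.trans h4

/-- The decay of the power. -/
theorem rpow_decay {θ : ℝ} (hθ : 1 / 2 < θ) {L L' : ℝ} (hL : 0 ≤ L') (h : L' ≤ 59 / 60 * L) :
    L' ^ θ ≤ (1 - 1 / 120) * L ^ θ := by
  have hL0 : 0 ≤ L := by linarith
  have h1 : L' ^ θ ≤ (59 / 60 * L) ^ θ := Real.rpow_le_rpow hL h (by linarith)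
  rw [Real.mul_rpow (by norm_num) hL0] at h1
  refine h1.trans ?_
  apply mul_le_mul_of_nonneg_right _ (Real.rpow_nonneg hL0 _)
  calc (59 / 60 : ℝ) ^ θ ≤ (59 / 60 : ℝ) ^ (1 / 2 : ℝ) :=
        Real.rpow_le_rpow_of_exponent_ge (by norm_num) (by norm_num) hθ.le
    _ = √(59 / 60) := by rw [Real.sqrt_eq_rpow]
    _ ≤ 1 - 1 / 120 := by
        rw [Real.sqrt_le_left (by norm_num)]
        norm_num

/-- The decay of the logarithm over a stage. -/
theorem log_decay {θ : ℝ} {k : ℕ} (hN : NumT θ k) {X y : ℝ} (h1 : 2 ^ (10 * k) ≤ X)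
    (h2 : X < 2 ^ (10 * (k + 1))) (hy : 0 < y) (h : y ≤ X / 2 ^ (k / 4)) :
    Real.log y ≤ 59 / 60 * Real.log X := by
  have hX0 : (0 : ℝ) < X := lt_of_lt_of_le (by positivity) h1
  have hbig := hN.big
  have h3 := Real.log_le_log hy h
  rw [Real.log_div hX0.ne' (by positivity), Real.log_pow] at h3
  have h4 := (log_bounds h1 h2).2
  have h5 := Real.log_two_gt_d9
  have h6 : (k : ℝ) + 1 ≤ 6 * ((k / 4 : ℕ) : ℝ) := by
    exact_mod_cast (by omega : k + 1 ≤ 6 * (k / 4))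
  have h7 : ((k : ℝ) + 1) * Real.log 2 ≤ 6 * ((k / 4 : ℕ) : ℝ) * Real.log 2 :=
    mul_le_mul_of_nonneg_right h6 (by linarith)
  linarith

/-- The comparison of the bounds. -/
theorem bound_step {θ : ℝ} {k : ℕ} (hN : NumT θ k) {X : ℝ} (h1 : 2 ^ (10 * k) ≤ X)
    (h2 : X < 2 ^ (10 * (k + 1))) :
    1 / Real.log X ^ 5 + 9 / (k : ℝ) ^ 7 ≤ 1 / (59 / 60 * Real.log X) ^ 5 := by
  have hbig := hN.big
  have hk : (2000 : ℝ) ≤ k := by exact_mod_cast hbig
  obtain ⟨h3, h4⟩ := log_bounds h1 h2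
  have h5 := Real.log_two_lt_d9
  obtain ⟨L, hL⟩ : ∃ L, L = Real.log X := ⟨_, rfl⟩
  rw [← hL] at h3 h4 ⊢
  have hL0 : 0 < L := by linarith
  have hL8 : L ≤ 8 * k := by nlinarith
  have h6 : 9 / (k : ℝ) ^ 7 ≤ 1 / (12 * L ^ 5) := by
    have h7 : L ^ 5 ≤ (8 * k) ^ 5 := pow_le_pow_left₀ hL0.le hL8 5
    have h8 : 1 / (12 * (8 * (k : ℝ)) ^ 5) ≤ 1 / (12 * L ^ 5) := by
      apply one_div_le_one_div_of_le (by positivity)
      linarith
    refine le_trans ?_ h8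
    rw [div_le_div_iff₀ (by positivity) (by positivity)]
    have h9 : (2000 : ℝ) ^ 2 ≤ (k : ℝ) ^ 2 := pow_le_pow_left₀ (by norm_num) hk 2
    calc 9 * (12 * (8 * (k : ℝ)) ^ 5) = 3538944 * (k : ℝ) ^ 5 := by ring
      _ ≤ (k : ℝ) ^ 2 * (k : ℝ) ^ 5 := by
          apply mul_le_mul_of_nonneg_right _ (by positivity)
          linarith
      _ = 1 * (k : ℝ) ^ 7 := by ring
  have h7 : 1 / (59 / 60 * L) ^ 5 = (60 / 59) ^ 5 * (1 / L ^ 5) := by
    rw [mul_pow]
    field_simp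
  have h8 : 1 / (12 * L ^ 5) = 1 / 12 * (1 / L ^ 5) := by field_simp
  rw [h7]
  rw [h8] at h6
  have h9 : 0 < 1 / L ^ 5 := by positivity
  have h10 : (13 / 12 : ℝ) ≤ (60 / 59) ^ 5 := by norm_num
  nlinarith

open Classical in
theorem F_def (e : ℤ) (p : ℤ → Prop) (X : ℝ) :
    F e {n | p n} X = (((Od e X).filter fun n => p n).card : ℝ) := rfl

/-- Passage to the end of a good word. -/
theorem typical_step {k : ℕ} (hN : Num k) {X : ℝ} (hX : 2 ^ (3 * k) ≤ X) {e : ℤ}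
    (he : e = 1 ∨ e = -1) (A : Set ℤ) (B : ℕ → Set ℤ)
    (h : ∀ w ∈ goodV (II k) k k, ∀ b : ℤ, b % 2 = 1 → rd w b → en w b ∈ A → b ∈ B w.sum) :
    F e A X ≤ F e {n | Hit (goodV (II k) k k) B n} X + X / (k : ℝ) ^ 7 := by
  classical
  have h1 := typical hN hX he
  refine le_trans ?_ (add_le_add_right h1 _)
  rw [F_def]
  unfold F
  have h2 : (Od e X).filter (fun n => n ∈ A) ⊆
      ((Od e X).filter fun n => Hit (goodV (II k) k k) B n) ∪
      ((Od e X).filter fun n => ¬ Hit (goodV (II k) k k) (fun _ => Set.univ) n) := by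
    intro n hn
    rw [mem_filter] at hn
    rw [mem_union, mem_filter, mem_filter]
    by_cases h3 : Hit (goodV (II k) k k) (fun _ => Set.univ) n
    · left
      obtain ⟨w, hw, b, hb1, hb2, hb3, -⟩ := h3
      exact ⟨hn.1, w, hw, b, hb1, hb2, hb3, h w hw b hb1 hb2 (by rw [hb3]; exact hn.2)⟩
    · right
      exact ⟨hn.1, h3⟩
  have h3 := (card_le_card h2).trans (card_union_le _ _)
  exact_mod_cast h3

end Pool.Agent.Collatz3.FW
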