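import Mathlib
import Pool.Agent.Collatz3.FWTao

set_option autoImplicit false

/-!
Forward hand-off: the passage time, upper bound.
-/

namespace Pool.Agent.Collatz3.FW

open Finset Filter Topology
open Pool.Agent.Collatz3.Mix (words mem_words sum_words_zero sum_words_succ sum_words_add)
open Pool.Agent.Collatz3.PD
open Pool.Agent.Helper14 (T)

theorem F_congr {e : ℤ} {A B : Set ℤ} {X : ℝ} (h : ∀ n ∈ Od e X, n ∈ A ↔ n ∈ B) :
    F e A X = F e B X := by
  classical
  unfold F
  congr 2
  ext n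
  rw [mem_filter, mem_filter]
  constructor
  · rintro ⟨h1, h2⟩
    exact ⟨h1, (h n h1).1 h2⟩
  · rintro ⟨h1, h2⟩
    exact ⟨h1, (h n h1).2 h2⟩

/-- One full stage. -/
theorem stage' {k : ℕ} (hN : Num k)
    (hE : (403 / 100 : ℝ) ^ k * 2 ^ k * (k : ℝ) ^ 7 ≤ 2 ^ (4 * k)) {X : ℝ}
    (hX : 2 ^ (4 * k) ≤ X) {e : ℤ} (he : e = 1 ∨ e = -1) (A : Set ℤ) (B C : ℕ → Set ℤ)
    (h : ∀ w ∈ goodV (II k) k k, ∀ b : ℤ, b % 2 = 1 → rd w b → en w b ∈ A → b ∈ B w.sum)
    (hlink : ∀ u ∈ goodV (II k) k (k / 20), ∀ (s : ℕ) (b : ℤ), b % 2 = 1 → rd u b →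
      b ∈ B (u.sum + s) → en u b ∈ C s) (a : List ℕ → ℝ)
    (ha1 : ∀ v, a v ≤ 1) {Y : ℝ} (hY0 : 0 ≤ Y)
    (hY : Y * 2 ^ (201 * (k - k / 20) / 100) / 3 ^ (k - k / 20) ≤ X / (k : ℝ) ^ 7)
    (hb : ∀ v ∈ goodV (II k) k (k - k / 20),
      F e (C v.sum) (3 ^ (k - k / 20) * X / 2 ^ v.sum + 2 ^ k) ≤
        a v * ((3 ^ (k - k / 20) * X / 2 ^ v.sum + 2 ^ k) / 2) + Y) :
    F e A X ≤ X / 2 * ∑ v ∈ goodV (II k) k (k - k / 20), (1 / 2) ^ v.sum * a v +
        4 * (X / (k : ℝ) ^ 7) := by
  have hX3 : (2 : ℝ) ^ (3 * k) ≤ X :=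
    (pow_le_pow_right₀ (by norm_num) (by omega)).trans hX
  have h1 := typical_step hN hX3 he A B h
  have h2 : F e {n | Hit (goodV (II k) k k) B n} X ≤ _ :=
    stage hN hE hX he B C hlink a ha1 hY0 hY hb
  linarith

/-- A weighted sum with weight `a` for typical sums and weight one otherwise. -/
theorem weight_sum {I N l : ℕ} {a p : ℝ} (ha0 : 0 ≤ a) (Q : List ℕ → Prop)
    [DecidablePred Q] (hp : P ((words I l).filter Q) ≤ p) :
    ∑ v ∈ goodV I N l, (1 / 2) ^ v.sum * (if Q v then 1 else a) ≤ a + p := by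
  have h1 : ∑ v ∈ goodV I N l, (1 / 2) ^ v.sum * (if Q v then 1 else a) ≤
      ∑ v ∈ goodV I N l, ((1 / 2) ^ v.sum * a + if Q v then (1 / 2) ^ v.sum else 0) := by
    apply sum_le_sum
    intro v _
    have h2 : (0 : ℝ) < (1 / 2) ^ v.sum := by positivity
    split_ifs
    · nlinarith
    · linarith
  refine h1.trans ?_
  rw [sum_add_distrib, ← sum_mul, ← sum_filter]
  have h2 : ∑ v ∈ goodV I N l, (1 / 2 : ℝ) ^ v.sum ≤ 1 := by
    have h3 : P (goodV I N l) ≤ 1 := by
      refine (P_mono (goodV_subset I N l)).trans ?_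
      rw [P_words]
      exact pow_le_one₀ (Z_nonneg I) (Z_le_one I)
    exact h3
  have h3 : ∑ v ∈ (goodV I N l).filter Q, (1 / 2 : ℝ) ^ v.sum ≤ p := by
    refine le_trans ?_ hp
    exact P_mono (filter_subset_filter _ (goodV_subset I N l))
  nlinarith

theorem goodV_bounds {I N d : ℕ} {v : List ℕ} (hv : v ∈ goodV I N d) :
    199 * d ≤ 100 * v.sum ∧ 100 * v.sum ≤ 201 * d ∧
      (cw v : ℝ) ≤ (5 / 4) ^ N * 2 ^ v.sum := by
  rw [goodV, mem_filter] at hv
  exact hv.2

/-- The exceptional term. -/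
theorem extra_small {θ : ℝ} {k : ℕ} (hN : NumT θ k) {M X : ℝ} (hM : 1 ≤ M)
    (hX : M ≤ X / 2 ^ k) :
    (M * 2 ^ (201 * (k / 20) / 100) + 1) * 2 ^ (201 * (k - k / 20) / 100) / 3 ^ (k - k / 20) ≤
      X / (k : ℝ) ^ 7 := by
  have hbig := hN.big
  have hk : (2000 : ℝ) ≤ k := by exact_mod_cast hbig
  have hX0 : 0 < X := by
    have h1 : 0 < X / 2 ^ k := by linarith
    exact (div_pos_iff_of_pos_right (by positivity)).1 h1
  have h1 : (1 : ℝ) ≤ 2 ^ (201 * (k / 20) / 100) := one_le_pow₀ (by norm_num)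
  have h2 : M * 2 ^ (201 * (k / 20) / 100) + 1 ≤ 2 * M * 2 ^ (201 * (k / 20) / 100) := by
    nlinarith
  have h3 : (2 : ℝ) ^ (201 * (k / 20) / 100) * 2 ^ (201 * (k - k / 20) / 100) ≤
      (403 / 100) ^ k := by
    rw [← pow_add]
    refine le_trans ?_ (two_pow_smax k)
    exact pow_le_pow_right₀ (by norm_num) (by omega)
  have h4 := three_pow_ge k
  have h5 : (M * 2 ^ (201 * (k / 20) / 100) + 1) * 2 ^ (201 * (k - k / 20) / 100) ≤
      2 * M * (403 / 100) ^ k := by
    calc (M * 2 ^ (201 * (k / 20) / 100) + 1) * 2 ^ (201 * (k - k / 20) / 100) ≤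
        (2 * M * 2 ^ (201 * (k / 20) / 100)) * 2 ^ (201 * (k - k / 20) / 100) :=
          mul_le_mul_of_nonneg_right h2 (by positivity)
      _ = 2 * M * (2 ^ (201 * (k / 20) / 100) * 2 ^ (201 * (k - k / 20) / 100)) := by ring
      _ ≤ 2 * M * (403 / 100) ^ k := mul_le_mul_of_nonneg_left h3 (by linarith)
  rw [div_le_div_iff₀ (by positivity) (by positivity)]
  have h6 : (M * 2 ^ (201 * (k / 20) / 100) + 1) * 2 ^ (201 * (k - k / 20) / 100) * (k : ℝ) ^ 7 ≤
      2 * M * (403 / 100) ^ k * (k : ℝ) ^ 7 := mul_le_mul_of_nonneg_right h5 (by positivity)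
  refine h6.trans ?_
  have h7 : 2 * M * (403 / 100) ^ k * (k : ℝ) ^ 7 ≤
      2 * (X / 2 ^ k) * (403 / 100) ^ k * (k : ℝ) ^ 7 := by
    apply mul_le_mul_of_nonneg_right _ (by positivity)
    apply mul_le_mul_of_nonneg_right _ (by positivity)
    linarith
  refine h7.trans ?_
  have h8 : (403 / 100 : ℝ) ^ k = (403 / 566) ^ k * 2 ^ k * (283 / 100) ^ k := by
    rw [← mul_pow, ← mul_pow]
    norm_num
  have h9 : 2 * (X / 2 ^ k) * (403 / 100) ^ k * (k : ℝ) ^ 7 =
      2 * X * (283 / 100) ^ k * ((403 / 566) ^ k * (k : ℝ) ^ 7) := by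
    rw [h8]
    field_simp
  rw [h9]
  calc 2 * X * (283 / 100) ^ k * ((403 / 566) ^ k * (k : ℝ) ^ 7)
      ≤ 2 * X * (283 / 100) ^ k * (1 / 2) := mul_le_mul_of_nonneg_left hN.e2 (by positivity)
    _ = X * (283 / 100) ^ k := by ring
    _ ≤ X * 3 ^ (k - k / 20) := mul_le_mul_of_nonneg_left h4 hX0.le

/-- The time budget. -/
noncomputable def tau (θ L : ℝ) : ℝ := gam * L + L ^ θ

/-- The time budget after a stage. -/
theorem tau_step {θ : ℝ} (hθ : 1 / 2 < θ) {k : ℕ} (hN : NumT θ k) {X : ℝ}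
    (h1 : 2 ^ (10 * k) ≤ X) (h2 : X < 2 ^ (10 * (k + 1))) {s : ℕ}
    (hs1 : 199 * (k - k / 20) ≤ 100 * s) (hs2 : 100 * s ≤ 201 * (k - k / 20))
    (hs : 2 * ((k - k / 20 : ℕ) : ℝ) - dv θ k < s) {y : ℝ} (hy0 : 0 ≤ Real.log y)
    (hy : y = 3 ^ (k - k / 20) * X / 2 ^ s + 2 ^ k) :
    tau θ (Real.log y) ≤ tau θ (Real.log X) - s := by
  have hbig := hN.big
  have hX0 : (0 : ℝ) < X := lt_of_lt_of_le (by positivity) h1
  have hX4 : (2 : ℝ) ^ (4 * k) ≤ X := (pow_le_pow_right₀ (by norm_num) (by omega)).trans h1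
  have hy' : y ≤ X / 2 ^ (k / 4) := by
    rw [hy]
    exact size_le (by omega) hX4 hs1
  have hypos : 0 < y := by rw [hy]; positivity
  have h3 := log_decay hN h1 h2 hypos hy'
  have h4 := rpow_decay hθ hy0 h3
  have h5 : Real.log y ≤ 1 + (((k - k / 20 : ℕ) : ℝ) * Real.log 3 + Real.log X -
      s * Real.log 2) := by
    have h6 : y ≤ 2 * (3 ^ (k - k / 20) * X / 2 ^ s) := by
      rw [hy, two_mul]
      apply add_le_add_right
      rw [le_div_iff₀ (by positivity), ← pow_add]
      calc (2 : ℝ) ^ (k + s) ≤ 2 ^ (4 * k) := pow_le_pow_right₀ (by norm_num) (by omega)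
        _ ≤ 1 * X := by rw [one_mul]; exact hX4
        _ ≤ 3 ^ (k - k / 20) * X :=
            mul_le_mul_of_nonneg_right (one_le_pow₀ (by norm_num)) hX0.le
    have h7 := Real.log_le_log hypos h6
    rw [Real.log_mul (by norm_num) (by positivity), Real.log_div (by positivity) (by positivity),
      Real.log_mul (by positivity) hX0.ne', Real.log_pow, Real.log_pow] at h7
    have h8 := Real.log_two_lt_d9
    linarith
  obtain ⟨h6, -⟩ := log_bounds h1 h2
  have h7 : (k : ℝ) ^ θ ≤ Real.log X ^ θ := by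
    apply Real.rpow_le_rpow (Nat.cast_nonneg _) _ (by linarith)
    have : (0 : ℝ) ≤ k := Nat.cast_nonneg _
    linarith
  have h8 := hN.th
  unfold tau
  obtain ⟨l, hl⟩ : ∃ l : ℕ, l = k - k / 20 := ⟨_, rfl⟩
  rw [← hl] at h5 hs
  unfold dv at hs
  have h9 := gam_ge
  have h10 := gam_le
  have h11 := gam_log_two_ge
  have h12 := gam_log_two_le
  have h13 := gam_mul
  have h14 : gam * Real.log y ≤ gam * (1 + ((l : ℝ) * Real.log 3 + Real.log X -
      s * Real.log 2)) := mul_le_mul_of_nonneg_left h5 (by linarith)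
  have h15 : gam * ((l : ℝ) * Real.log 3) = l * (2 * (gam * Real.log 2) - 2) := by
    linear_combination -(l : ℝ) * h13
  have h16 : (gam * Real.log 2 - 1) * (2 * l - s) ≤ 5 * ((k : ℝ) ^ θ / 1000) := by
    have h17 : (0 : ℝ) ≤ (k : ℝ) ^ θ / 1000 := by linarith
    calc (gam * Real.log 2 - 1) * (2 * l - s) ≤ (gam * Real.log 2 - 1) * ((k : ℝ) ^ θ / 1000) :=
          mul_le_mul_of_nonneg_left (by linarith) (by linarith)
      _ ≤ 5 * ((k : ℝ) ^ θ / 1000) := mul_le_mul_of_nonneg_right h12 h17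
  linarith

/-- The passage time: bound by induction. -/
theorem passage_ind {θ : ℝ} (hθ : 1 / 2 < θ) (hθ1 : θ < 1) {k₀ : ℕ}
    (hk₀ : ∀ k, k₀ ≤ k → NumT θ k) {M : ℝ} (hM : 2 ^ (10 * (k₀ + 1)) ≤ M) {e : ℤ}
    (he : e = 1 ∨ e = -1) (n : ℕ) : ∀ X t : ℝ, M < X → Real.log X ≤ n → tau θ (Real.log X) ≤ t →
      F e (Bd M t) X ≤ (2 / Real.log M ^ 5 - 1 / Real.log X ^ 5) * (X / 2) := by
  have hM3 : (2 : ℝ) ^ 10 ≤ M := (pow_le_pow_right₀ (by norm_num) (by omega)).trans hM
  have hl6 : 6 < Real.log M := by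
    have h1 := Real.log_le_log (by positivity) hM3
    rw [Real.log_pow] at h1
    push_cast at h1
    have h2 := Real.log_two_gt_d9
    linarith
  have hM0 : 1 < M := by linarith
  induction n with
  | zero =>
    intro X t hX hn _
    exfalso
    have h1 : 0 < Real.log X := Real.log_pos (by linarith)
    push_cast at hn
    linarith
  | succ n ih =>
    intro X t hX hn ht
    have hX0 : 0 < X := by linarith
    have hLM : Real.log M < Real.log X := Real.log_lt_log (by linarith) hX
    have hlM0 : 0 < Real.log M := by linarith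
    have hlX0 : 0 < Real.log X := by linarith
    obtain ⟨k, hk1, hk2⟩ := exists_stage (by linarith : 1 ≤ X)
    have hkk : k₀ ≤ k := by
      by_contra hcon
      have h1 : (2 : ℝ) ^ (10 * (k + 1)) ≤ 2 ^ (10 * (k₀ + 1)) :=
        pow_le_pow_right₀ (by norm_num) (by omega)
      linarith
    have hN := hk₀ k hkk
    have hbig := hN.big
    have hkr : (2000 : ℝ) ≤ k := by exact_mod_cast hbig
    obtain ⟨h3, h4⟩ := log_bounds hk1 hk2
    have hX4 : (2 : ℝ) ^ (4 * k) ≤ X := (pow_le_pow_right₀ (by norm_num) (by omega)).trans hk1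
    have htk : 6 * (69 / 10 * (k : ℝ)) ≤ t := by
      refine le_trans ?_ ht
      unfold tau
      have h5 : 0 ≤ Real.log X ^ θ := Real.rpow_nonneg (by linarith) _
      have h6 := gam_ge
      nlinarith
    have hM5 : (6 : ℝ) ^ 5 ≤ Real.log M ^ 5 := pow_le_pow_left₀ (by norm_num) hl6.le 5
    have hM5' : 1 / Real.log M ^ 5 ≤ 1 / 6 ^ 5 := one_div_le_one_div_of_le (by positivity) hM5
    have hM5'' : 2 / Real.log M ^ 5 = 2 * (1 / Real.log M ^ 5) := by ring
    rcases le_or_gt M (X / 2 ^ k) with hcase | hcase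
    · -- the recursion
      obtain ⟨l, hl⟩ : ∃ l : ℕ, l = k - k / 20 := ⟨_, rfl⟩
      obtain ⟨a, ha⟩ : ∃ a : ℝ, a = 2 / Real.log M ^ 5 - 1 / (59 / 60 * Real.log X) ^ 5 := ⟨_, rfl⟩
      have hq0 : 0 < 1 / (59 / 60 * Real.log X) ^ 5 := by positivity
      have hq : 1 / (59 / 60 * Real.log X) ^ 5 ≤ 6 / 5 * (1 / Real.log M ^ 5) := by
        have h5 : (59 / 60 * Real.log M) ^ 5 ≤ (59 / 60 * Real.log X) ^ 5 :=
          pow_le_pow_left₀ (by positivity) (by linarith) 5
        have h6 : 1 / (59 / 60 * Real.log X) ^ 5 ≤ 1 / (59 / 60 * Real.log M) ^ 5 :=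
          one_div_le_one_div_of_le (by positivity) h5
        refine h6.trans ?_
        rw [mul_pow, one_div, mul_inv, one_div]
        apply mul_le_mul_of_nonneg_right _ (by positivity)
        norm_num
      have hp0 : 0 < 1 / Real.log M ^ 5 := by positivity
      have ha0 : 0 ≤ a := by
        rw [ha]
        linarith
      have ha1 : a ≤ 1 := by
        rw [ha]
        have : (1 : ℝ) / 6 ^ 5 ≤ 1 / 2 := by norm_num
        linarith
      have hstep := bound_step hN hk1 hk2
      have h5 := stage' hN.n1 hN.e1 hX4 he (Bd M t) (fun s => Bd M (t - s))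
        (fun s => Bd M (t - s) ∪ {m | |(m : ℝ)| ≤ M * 2 ^ (201 * (k / 20) / 100)})
        (fun w hw b _ hr hen => Bd_down hen (T_en hr fun i hi =>
          ((mem_words.1 (goodV_subset _ _ _ hw)).2 i hi).1))
        (fun u hu s b _ hr hb => by
          have hT := T_en hr fun i hi => ((mem_words.1 (goodV_subset _ _ _ hu)).2 i hi).1
          have h6 : b ∈ Bd M (t - s - u.sum) := by
            have : t - ((u.sum + s : ℕ) : ℝ) = t - s - u.sum := by push_cast; ring
            rwa [this] at hb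
          rcases Bd_up hT h6 with h7 | h7
          · exact Or.inl h7
          · right
            refine h7.trans (mul_le_mul_of_nonneg_left ?_ (by linarith))
            apply pow_le_pow_right₀ (by norm_num)
            have := (goodV_bounds hu).2.1
            omega)
        (fun v => if (v.sum : ℝ) ≤ 2 * ((k - k / 20 : ℕ) : ℝ) - dv θ k then 1 else a)
        (fun v => by
          split_ifs
          · exact le_rfl
          · exact ha1)
        (Y := M * 2 ^ (201 * (k / 20) / 100) + 1) (by positivity)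
        (extra_small hN (by linarith) hcase)
        (fun v hv => by
          obtain ⟨hv1, hv2, -⟩ := goodV_bounds hv
          obtain ⟨y, hy⟩ : ∃ y, y = 3 ^ (k - k / 20) * X / 2 ^ v.sum + 2 ^ k := ⟨_, rfl⟩
          rw [← hy]
          have hypos : 0 < y := by rw [hy]; positivity
          have hcs := card_small he y (by positivity : 0 ≤ M * 2 ^ (201 * (k / 20) / 100))
          have hsplit : F e (Bd M (t - v.sum) ∪
              {m | |(m : ℝ)| ≤ M * 2 ^ (201 * (k / 20) / 100)}) y ≤
              F e (Bd M (t - v.sum)) y + (M * 2 ^ (201 * (k / 20) / 100) + 1) / 2 := by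
            classical
            refine le_trans ?_ (add_le_add_right hcs _)
            unfold F
            have h6 : (Od e y).filter (fun n => n ∈ Bd M (t - v.sum) ∪
                {m | |(m : ℝ)| ≤ M * 2 ^ (201 * (k / 20) / 100)}) ⊆
                (Od e y).filter (fun n => n ∈ Bd M (t - v.sum)) ∪
                (Od e y).filter (fun n : ℤ => |(n : ℝ)| ≤ M * 2 ^ (201 * (k / 20) / 100)) := by
              intro m hm
              rw [mem_filter] at hm
              rw [mem_union, mem_filter, mem_filter]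
              rcases hm.2 with h7 | h7
              · exact Or.inl ⟨hm.1, h7⟩
              · exact Or.inr ⟨hm.1, h7⟩
            exact_mod_cast (card_le_card h6).trans (card_union_le _ _)
          refine hsplit.trans ?_
          have hY1 : (1 : ℝ) ≤ M * 2 ^ (201 * (k / 20) / 100) := by
            have : (1 : ℝ) ≤ 2 ^ (201 * (k / 20) / 100) := one_le_pow₀ (by norm_num)
            nlinarith
          split_ifs with hvs
          · have h6 := F_le he (Bd M (t - v.sum)) hypos.le
            linarith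
          · rw [not_le] at hvs
            have h6 : F e (Bd M (t - v.sum)) y ≤ a * (y / 2) := by
              have hts : (v.sum : ℝ) ≤ 3 * k := by exact_mod_cast (by omega : v.sum ≤ 3 * k)
              rcases le_or_gt y M with hyM | hyM
              · rw [F_zero_of_le he hyM (by linarith)]
                positivity
              · have hlogy : Real.log M < Real.log y := Real.log_lt_log (by linarith) hyM
                have hylog : 0 < Real.log y := by linarith
                have h7 : y ≤ X / 2 ^ (k / 4) := by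
                  rw [hy]
                  exact size_le (by omega) hX4 hv1
                have h8 := log_decay hN hk1 hk2 hypos h7
                have h9 := tau_step hθ hN hk1 hk2 hv1 hv2 hvs hylog.le hy
                have h10 := ih y (t - v.sum) hyM (by push_cast at hn; linarith) (by linarith)
                have h11 : 2 / Real.log M ^ 5 - 1 / Real.log y ^ 5 ≤ a := by
                  rw [ha]
                  have h12 : 1 / (59 / 60 * Real.log X) ^ 5 ≤ 1 / Real.log y ^ 5 :=
                    one_div_le_one_div_of_le (by positivity)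
                      (pow_le_pow_left₀ hylog.le h8 5)
                  linarith
                exact h10.trans (mul_le_mul_of_nonneg_right h11 (by positivity))
            linarith)
      have h6 := weight_sum (I := II k) (N := k) (l := k - k / 20) ha0
        (fun v : List ℕ => (v.sum : ℝ) ≤ 2 * ((k - k / 20 : ℕ) : ℝ) - dv θ k)
        (dev_mass hθ1 hN (II k)).1
      have h7 := mul_le_mul_of_nonneg_left h6 (by positivity : 0 ≤ X / 2)
      have h8 : (2 / Real.log M ^ 5 - 1 / Real.log X ^ 5) * (X / 2) -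
          (X / 2 * (a + 1 / (k : ℝ) ^ 7) + 4 * (X / (k : ℝ) ^ 7)) =
          (1 / (59 / 60 * Real.log X) ^ 5 - (1 / Real.log X ^ 5 + 9 / (k : ℝ) ^ 7)) * (X / 2) := by
        rw [ha]
        ring
      have h9 : 0 ≤ (1 / (59 / 60 * Real.log X) ^ 5 -
          (1 / Real.log X ^ 5 + 9 / (k : ℝ) ^ 7)) * (X / 2) :=
        mul_nonneg (by linarith) (by positivity)
      linarith
    · -- the base
      have hX9 : (2 : ℝ) ^ (3 * (3 * k)) ≤ X :=
        (pow_le_pow_right₀ (by norm_num) (by omega)).trans hk1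
      have h5 := typical_step hN.n3 hX9 he
        (Bd M t ∩ {n | 0 < e * n ∧ ((e * n : ℤ) : ℝ) ≤ X}) (fun _ => ∅)
        (fun w hw b hb hr hen => by
          exfalso
          obtain ⟨hn1, hn2, hn3⟩ := hen
          obtain ⟨hw1, hw2, hw3⟩ := goodV_bounds hw
          have hpos : ∀ i ∈ w, 1 ≤ i := fun i hi =>
            ((mem_words.1 (goodV_subset _ _ _ hw)).2 i hi).1
          have hsg := sign_key he hr hpos hb hn2
          have hlb := lower_bound he hr hw3 hn3
          rw [words_length (goodV_subset _ _ _ hw)] at hlb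
          have hsz := size_le' (by omega : 10 ≤ k) (by
            refine le_trans ?_ hk1
            exact pow_le_pow_right₀ (by norm_num) (by omega)) hw1
          have hT := T_en hr hpos
          have hts : (w.sum : ℝ) ≤ 7 * k := by exact_mod_cast (by omega : w.sum ≤ 7 * k)
          have h6 := hn1 w.sum (by linarith)
          rw [hT, abs_eq_sign he hsg] at h6
          linarith)
      have h6 : F e (Bd M t) X =
          F e (Bd M t ∩ {n | 0 < e * n ∧ ((e * n : ℤ) : ℝ) ≤ X}) X := by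
        apply F_congr
        intro n hn
        rw [mem_Od he] at hn
        constructor
        · intro h
          exact ⟨h, hn.2⟩
        · intro h
          exact h.1
      have h7 : F e {n | Hit (goodV (II (3 * k)) (3 * k) (3 * k)) (fun _ => ∅) n} X = 0 := by
        classical
        rw [F_def, Nat.cast_eq_zero, card_eq_zero, filter_eq_empty_iff]
        rintro n - ⟨w, -, b, -, -, -, hb⟩
        exact hb
      rw [h6]
      rw [h7, zero_add] at h5
      refine h5.trans ?_
      -- numerical comparison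
      have hlX8 : Real.log X ≤ 8 * k := by
        have := Real.log_two_lt_d9
        nlinarith
      have h8 : 1 / Real.log X ^ 5 ≤ 1 / Real.log M ^ 5 :=
        one_div_le_one_div_of_le (by positivity) (pow_le_pow_left₀ hlM0.le hLM.le 5)
      have h9 : 2 / ((3 * k : ℕ) : ℝ) ^ 7 ≤ 1 / Real.log X ^ 5 := by
        have h10 : 1 / (8 * (k : ℝ)) ^ 5 ≤ 1 / Real.log X ^ 5 :=
          one_div_le_one_div_of_le (by positivity) (pow_le_pow_left₀ hlX0.le hlX8 5)
        refine le_trans ?_ h10
        rw [div_le_div_iff₀ (by positivity) (by positivity)]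
        push_cast
        have h11 : (2000 : ℝ) ^ 2 ≤ (k : ℝ) ^ 2 := pow_le_pow_left₀ (by norm_num) hkr 2
        calc 2 * (8 * (k : ℝ)) ^ 5 = 65536 * (k : ℝ) ^ 5 := by ring
          _ ≤ (2187 * (k : ℝ) ^ 2) * (k : ℝ) ^ 5 := by
              apply mul_le_mul_of_nonneg_right _ (by positivity)
              linarith
          _ = 1 * (3 * (k : ℝ)) ^ 7 := by ring
      have h10 : X / ((3 * k : ℕ) : ℝ) ^ 7 = 2 / ((3 * k : ℕ) : ℝ) ^ 7 * (X / 2) := by ring
      rw [h10]
      apply mul_le_mul_of_nonneg_right _ (by positivity)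
      linarith

/-- The passage time: all but few odd integers have an iterate of size at most `M` within
`gam * log X + (log X) ^ θ` steps. -/
theorem passage {θ : ℝ} (hθ : 1 / 2 < θ) (hθ1 : θ < 1) : ∃ M₀ : ℝ, 2 ^ 10 ≤ M₀ ∧
    ∀ M X t : ℝ, ∀ e : ℤ, M₀ ≤ M → (e = 1 ∨ e = -1) → 1 ≤ X → tau θ (Real.log X) ≤ t →
      F e (Bd M t) X ≤ X / Real.log M ^ 5 := by
  obtain ⟨k₀, hk₀⟩ := eventually_atTop.1 (numT_all hθ)
  refine ⟨2 ^ (10 * (k₀ + 1)), pow_le_pow_right₀ (by norm_num) (by omega), ?_⟩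
  intro M X t e hM he hX ht
  have hM3 : (2 : ℝ) ^ 10 ≤ M := (pow_le_pow_right₀ (by norm_num) (by omega)).trans hM
  have hM0 : 1 < M := by linarith
  have hlM0 : 0 < Real.log M := Real.log_pos hM0
  rcases le_or_gt X M with h1 | h1
  · rw [F_zero_of_le he h1]
    · positivity
    · refine le_trans ?_ ht
      unfold tau
      have h2 := Real.log_nonneg hX
      have h3 := gam_ge
      have h4 : 0 ≤ Real.log X ^ θ := Real.rpow_nonneg h2 _
      nlinarith
  · obtain ⟨n, hn⟩ := exists_nat_ge (Real.log X)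
    have h2 := passage_ind hθ hθ1 hk₀ hM he n X t h1 hn ht
    refine h2.trans ?_
    have h3 : 0 < Real.log X := Real.log_pos (by linarith)
    have h4 : 0 < 1 / Real.log X ^ 5 := by positivity
    have h5 : X / Real.log M ^ 5 = 2 / Real.log M ^ 5 * (X / 2) := by ring
    rw [h5]
    apply mul_le_mul_of_nonneg_right _ (by linarith)
    linarith

end Pool.Agent.Collatz3.FW
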