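import Mathlib
import Pool.Agent.Collatz3.FWPass

set_option autoImplicit false

/-!
Forward hand-off: the passage time, lower bound.
-/

namespace Pool.Agent.Collatz3.FW

open Finset Filter Topology
open Pool.Agent.Collatz3.Mix (words mem_words sum_words_zero sum_words_succ sum_words_add)
open Pool.Agent.Collatz3.PD
open Pool.Agent.Helper14 (T)

/-- The time budget after a stage. -/
theorem tau_step_low {θ : ℝ} (hθ : 1 / 2 < θ) {k : ℕ} (hN : NumT θ k) {X : ℝ}
    (h1 : 2 ^ (10 * k) ≤ X) (h2 : X < 2 ^ (10 * (k + 1))) {s : ℕ}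
    (hs1 : 199 * (k - k / 20) ≤ 100 * s)
    (hs : (s : ℝ) < 2 * ((k - k / 20 : ℕ) : ℝ) + dv θ k) {y : ℝ} (hy0 : 0 ≤ Real.log y)
    (hy : y = 3 ^ (k - k / 20) * X / 2 ^ s + 2 ^ k) :
    gam * Real.log X - Real.log X ^ θ - s ≤ gam * Real.log y - Real.log y ^ θ := by
  have hbig := hN.big
  have hX0 : (0 : ℝ) < X := lt_of_lt_of_le (by positivity) h1
  have hX4 : (2 : ℝ) ^ (4 * k) ≤ X := (pow_le_pow_right₀ (by norm_num) (by omega)).trans h1
  have hy' : y ≤ X / 2 ^ (k / 4) := by
    rw [hy]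
    exact size_le (by omega) hX4 hs1
  have hypos : 0 < y := by rw [hy]; positivity
  have h3 := log_decay hN h1 h2 hypos hy'
  have h4 := rpow_decay hθ hy0 h3
  have h5 : ((k - k / 20 : ℕ) : ℝ) * Real.log 3 + Real.log X - s * Real.log 2 ≤ Real.log y := by
    have h6 : 3 ^ (k - k / 20) * X / 2 ^ s ≤ y := by
      rw [hy]
      have : (0 : ℝ) < 2 ^ k := by positivity
      linarith
    have h7 := Real.log_le_log (by positivity) h6
    rw [Real.log_div (by positivity) (by positivity),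
      Real.log_mul (by positivity) hX0.ne', Real.log_pow, Real.log_pow] at h7
    exact h7
  obtain ⟨h6, -⟩ := log_bounds h1 h2
  have h7 : (k : ℝ) ^ θ ≤ Real.log X ^ θ := by
    apply Real.rpow_le_rpow (Nat.cast_nonneg _) _ (by linarith)
    have : (0 : ℝ) ≤ k := Nat.cast_nonneg _
    linarith
  have h8 := hN.th
  obtain ⟨l, hl⟩ : ∃ l : ℕ, l = k - k / 20 := ⟨_, rfl⟩
  rw [← hl] at h5 hs
  unfold dv at hs
  have h9 := gam_ge
  have h10 := gam_le
  have h11 := gam_log_two_ge
  have h12 := gam_log_two_le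
  have h13 := gam_mul
  have h14 := mul_le_mul_of_nonneg_left h5 (by linarith : 0 ≤ gam)
  have h15 : gam * ((l : ℝ) * Real.log 3) = l * (2 * (gam * Real.log 2) - 2) := by
    linear_combination -(l : ℝ) * h13
  have h16 : (gam * Real.log 2 - 1) * (s - 2 * l) ≤ 5 * ((k : ℝ) ^ θ / 1000) := by
    have h17 : (0 : ℝ) ≤ (k : ℝ) ^ θ / 1000 := by linarith
    calc (gam * Real.log 2 - 1) * (s - 2 * l) ≤ (gam * Real.log 2 - 1) * ((k : ℝ) ^ θ / 1000) :=
          mul_le_mul_of_nonneg_left (by linarith) (by linarith)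
      _ ≤ 5 * ((k : ℝ) ^ θ / 1000) := mul_le_mul_of_nonneg_right h12 h17
  linarith

theorem F_union_le {e : ℤ} {A B C : Set ℤ} {X : ℝ} (h : ∀ n, n ∈ A → n ∈ B ∨ n ∈ C) :
    F e A X ≤ F e B X + F e C X := by
  classical
  unfold F
  have h6 : (Od e X).filter (fun n => n ∈ A) ⊆
      (Od e X).filter (fun n => n ∈ B) ∪ (Od e X).filter (fun n => n ∈ C) := by
    intro m hm
    rw [mem_filter] at hm
    rw [mem_union, mem_filter, mem_filter]
    rcases h m hm.2 with h7 | h7
    · exact Or.inl ⟨hm.1, h7⟩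
    · exact Or.inr ⟨hm.1, h7⟩
  exact_mod_cast (card_le_card h6).trans (card_union_le _ _)

theorem F_small {e : ℤ} (he : e = 1 ∨ e = -1) (y : ℝ) {Z : ℝ} (hZ : 0 ≤ Z) :
    F e {n : ℤ | |(n : ℝ)| ≤ Z} y ≤ (Z + 1) / 2 := by
  classical
  rw [F_def]
  exact card_small he y hZ

theorem F_zero {e : ℤ} {A : Set ℤ} {X : ℝ} (h : ∀ n ∈ Od e X, n ∉ A) : F e A X = 0 := by
  classical
  unfold F
  rw [Nat.cast_eq_zero, card_eq_zero, filter_eq_empty_iff]
  exact h

theorem F_compl_zero {e : ℤ} {M t X : ℝ} (ht : t < 0) : F e (Bd M t)ᶜ X = 0 := by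
  apply F_zero
  intro n _ hn
  apply hn
  intro j hj
  have : (0 : ℝ) ≤ j := Nat.cast_nonneg _
  linarith

/-- The comparison of the bounds, with a larger error. -/
theorem bound_step' {θ : ℝ} {k : ℕ} (hN : NumT θ k) {X : ℝ} (h1 : 2 ^ (10 * k) ≤ X)
    (h2 : X < 2 ^ (10 * (k + 1))) :
    1 / Real.log X ^ 5 + 10 / (k : ℝ) ^ 7 ≤ 1 / (59 / 60 * Real.log X) ^ 5 := by
  have hbig := hN.big
  have hk : (2000 : ℝ) ≤ k := by exact_mod_cast hbig
  obtain ⟨h3, h4⟩ := log_bounds h1 h2
  have h5 := Real.log_two_lt_d9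
  obtain ⟨L, hL⟩ : ∃ L, L = Real.log X := ⟨_, rfl⟩
  rw [← hL] at h3 h4 ⊢
  have hL0 : 0 < L := by linarith
  have hL8 : L ≤ 7 * k := by nlinarith
  have h6 : 10 / (k : ℝ) ^ 7 ≤ 1 / (12 * L ^ 5) := by
    have h7 : L ^ 5 ≤ (7 * k) ^ 5 := pow_le_pow_left₀ hL0.le hL8 5
    have h8 : 1 / (12 * (7 * (k : ℝ)) ^ 5) ≤ 1 / (12 * L ^ 5) := by
      apply one_div_le_one_div_of_le (by positivity)
      linarith
    refine le_trans ?_ h8
    rw [div_le_div_iff₀ (by positivity) (by positivity)]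
    have h9 : (2000 : ℝ) ^ 2 ≤ (k : ℝ) ^ 2 := pow_le_pow_left₀ (by norm_num) hk 2
    calc 10 * (12 * (7 * (k : ℝ)) ^ 5) = 2016840 * (k : ℝ) ^ 5 := by ring
      _ ≤ (k : ℝ) ^ 2 * (k : ℝ) ^ 5 := by
          apply mul_le_mul_of_nonneg_right _ (by positivity)
          linarith
      _ = 1 * (k : ℝ) ^ 7 := by ring
  have h7 : 1 / (59 / 60 * L) ^ 5 = (60 / 59) ^ 5 * (1 / L ^ 5) := by
    rw [mul_pow]
    field_simp
  have h8 : 1 / (12 * L ^ 5) = 1 / 12 * (1 / L ^ 5) := by field_simp
  rw [h7]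
  rw [h8] at h6
  have h9 : 0 < 1 / L ^ 5 := by positivity
  have h10 : (13 / 12 : ℝ) ≤ (60 / 59) ^ 5 := by norm_num
  nlinarith

theorem a_bounds {l L : ℝ} (hl : 6 < l) (hL : l ≤ L) :
    0 ≤ 2 / l ^ 5 - 1 / (59 / 60 * L) ^ 5 ∧ 2 / l ^ 5 - 1 / (59 / 60 * L) ^ 5 ≤ 1 := by
  have hM5 : (6 : ℝ) ^ 5 ≤ l ^ 5 := pow_le_pow_left₀ (by norm_num) hl.le 5
  have hM5' : 1 / l ^ 5 ≤ 1 / 6 ^ 5 := one_div_le_one_div_of_le (by positivity) hM5
  have hM5'' : 2 / l ^ 5 = 2 * (1 / l ^ 5) := by ring
  have hl0 : 0 < l := by linarith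
  have hL0 : 0 < L := by linarith
  have hq0 : 0 < 1 / (59 / 60 * L) ^ 5 := by positivity
  have hq : 1 / (59 / 60 * L) ^ 5 ≤ 6 / 5 * (1 / l ^ 5) := by
    have h5 : (59 / 60 * l) ^ 5 ≤ (59 / 60 * L) ^ 5 :=
      pow_le_pow_left₀ (by positivity) (by linarith) 5
    have h6 : 1 / (59 / 60 * L) ^ 5 ≤ 1 / (59 / 60 * l) ^ 5 :=
      one_div_le_one_div_of_le (by positivity) h5
    refine h6.trans ?_
    rw [mul_pow, one_div, mul_inv, one_div]
    apply mul_le_mul_of_nonneg_right _ (by positivity)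
    norm_num
  have hp0 : 0 < 1 / l ^ 5 := by positivity
  constructor
  · linarith
  · have : (1 : ℝ) / 6 ^ 5 ≤ 1 / 2 := by norm_num
    linarith

theorem small_ints {θ : ℝ} {k : ℕ} (hN : NumT θ k) {M X : ℝ} (hM0 : 1 < M) (hMX : M ^ 2 < X)
    (hk1 : 2 ^ (10 * k) ≤ X) :
    M * 2 ^ (201 * k / 100) ≤ X / (k : ℝ) ^ 7 / 2 ∧ M ≤ X / 2 ^ k := by
  have hbig := hN.big
  have hkr : (2000 : ℝ) ≤ k := by exact_mod_cast hbig
  have hX0 : 0 < X := by nlinarith
  have h7 : M * 2 ^ (5 * k) ≤ X := by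
    have h8 : (M * 2 ^ (5 * k)) ^ 2 ≤ X ^ 2 := by
      calc (M * 2 ^ (5 * k)) ^ 2 = M ^ 2 * 2 ^ (10 * k) := by
            rw [mul_pow, ← pow_mul]
            congr 2
            ring
        _ ≤ X * X := mul_le_mul hMX.le hk1 (by positivity) hX0.le
        _ = X ^ 2 := by ring
    exact le_of_pow_le_pow_left₀ (by norm_num) hX0.le h8
  constructor
  · have h5 := two_pow_smax k
    have h6 := hN.e2
    rw [le_div_iff₀ (by norm_num), le_div_iff₀ (by positivity)]
    refine le_trans ?_ h7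
    have h8 : (403 / 100 : ℝ) ^ k * (k : ℝ) ^ 7 * 2 ≤ 2 ^ (5 * k) := by
      have h9 : (403 / 100 : ℝ) ^ k = (403 / 566) ^ k * (566 / 100) ^ k := by
        rw [← mul_pow]
        norm_num
      have h10 : (566 / 100 : ℝ) ^ k ≤ 2 ^ (5 * k) := by
        rw [pow_mul]
        exact pow_le_pow_left₀ (by norm_num) (by norm_num) _
      calc (403 / 100 : ℝ) ^ k * (k : ℝ) ^ 7 * 2 =
          ((403 / 566) ^ k * (k : ℝ) ^ 7) * (2 * (566 / 100) ^ k) := by rw [h9]; ring
        _ ≤ 1 / 2 * (2 * (566 / 100) ^ k) := mul_le_mul_of_nonneg_right h6 (by positivity)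
        _ = (566 / 100) ^ k := by ring
        _ ≤ 2 ^ (5 * k) := h10
    calc M * 2 ^ (201 * k / 100) * 2 * (k : ℝ) ^ 7 =
        M * (2 ^ (201 * k / 100) * (k : ℝ) ^ 7 * 2) := by ring
      _ ≤ M * ((403 / 100) ^ k * (k : ℝ) ^ 7 * 2) := by
          apply mul_le_mul_of_nonneg_left _ (by linarith)
          apply mul_le_mul_of_nonneg_right _ (by norm_num)
          exact mul_le_mul_of_nonneg_right h5 (by positivity)
      _ ≤ M * 2 ^ (5 * k) := mul_le_mul_of_nonneg_left h8 (by linarith)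
  · rw [le_div_iff₀ (by positivity)]
    refine le_trans ?_ h7
    apply mul_le_mul_of_nonneg_left _ (by linarith)
    exact pow_le_pow_right₀ (by norm_num) (by omega)

/-- The passage time: lower bound by induction. -/
theorem low_ind {θ : ℝ} (hθ : 1 / 2 < θ) (hθ1 : θ < 1) {k₀ : ℕ}
    (hk₀ : ∀ k, k₀ ≤ k → NumT θ k) {M : ℝ} (hM : 2 ^ (10 * (k₀ + 1)) ≤ M) {e : ℤ}
    (he : e = 1 ∨ e = -1) (n : ℕ) : ∀ X t : ℝ, 1 ≤ X → 2 * Real.log M < Real.log X →
      Real.log X ≤ n → t ≤ gam * Real.log X - Real.log X ^ θ - 2 * gam * Real.log M →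
      F e (Bd M t)ᶜ X ≤ (2 / Real.log M ^ 5 - 1 / Real.log X ^ 5) * (X / 2) := by
  have hM3 : (2 : ℝ) ^ 10 ≤ M := (pow_le_pow_right₀ (by norm_num) (by omega)).trans hM
  have hl6 : 6 < Real.log M := by
    have h1 := Real.log_le_log (by positivity) hM3
    rw [Real.log_pow] at h1
    push_cast at h1
    have h2 := Real.log_two_gt_d9
    linarith
  have hM0 : 1 < M := by linarith
  induction n with
  | zero =>
    intro X t hX hL hn _
    exfalso
    push_cast at hn
    linarith
  | succ n ih =>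
    intro X t hX1 hL hn ht
    have hX0 : 0 < X := by linarith
    have hlM0 : 0 < Real.log M := by linarith
    have hlX0 : 0 < Real.log X := by linarith
    have hMX : M ^ 2 < X := by
      rw [← Real.log_lt_log_iff (by positivity) hX0, Real.log_pow]
      push_cast
      exact hL
    have hX : M < X := by nlinarith
    have hLM : Real.log M < Real.log X := by linarith
    obtain ⟨k, hk1, hk2⟩ := exists_stage (by linarith : 1 ≤ X)
    have hkk : k₀ ≤ k := by
      by_contra hcon
      have h1 : (2 : ℝ) ^ (10 * (k + 1)) ≤ 2 ^ (10 * (k₀ + 1)) :=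
        pow_le_pow_right₀ (by norm_num) (by omega)
      linarith
    have hN := hk₀ k hkk
    have hbig := hN.big
    have hkr : (2000 : ℝ) ≤ k := by exact_mod_cast hbig
    have hX4 : (2 : ℝ) ^ (4 * k) ≤ X := (pow_le_pow_right₀ (by norm_num) (by omega)).trans hk1
    obtain ⟨h3, -⟩ := log_bounds hk1 hk2
    obtain ⟨a, ha⟩ : ∃ a : ℝ, a = 2 / Real.log M ^ 5 - 1 / (59 / 60 * Real.log X) ^ 5 := ⟨_, rfl⟩
    obtain ⟨ha0, ha1⟩ := a_bounds hl6 hLM.le
    rw [← ha] at ha0 ha1
    have hstep := bound_step' hN hk1 hk2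
    obtain ⟨hcard, hcard2⟩ := small_ints hN hM0 hMX hk1
    have h21 : (1 : ℝ) ≤ 2 ^ (201 * k / 100) := one_le_pow₀ (by norm_num)
    have hc1 : (1 : ℝ) ≤ M * 2 ^ (201 * k / 100) := by nlinarith
    have h5 := stage' hN.n1 hN.e1 hX4 he
      ((Bd M t)ᶜ ∩ {m | M * 2 ^ (201 * k / 100) < |(m : ℝ)|}) (fun s => (Bd M (t - s))ᶜ)
      (fun s => (Bd M (t - s))ᶜ)
      (fun w hw b _ hr hen => by
        have hT := T_en hr fun i hi => ((mem_words.1 (goodV_subset _ _ _ hw)).2 i hi).1
        intro hb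
        rcases Bd_up hT hb with h6 | h6
        · exact hen.1 h6
        · have h7 : (2 : ℝ) ^ w.sum ≤ 2 ^ (201 * k / 100) := by
            apply pow_le_pow_right₀ (by norm_num)
            have := (goodV_bounds hw).2.1
            omega
          have h8 : M * 2 ^ w.sum ≤ M * 2 ^ (201 * k / 100) :=
            mul_le_mul_of_nonneg_left h7 (by linarith)
          have h9 := hen.2
          simp only [Set.mem_ofPred_eq] at h9
          linarith)
      (fun u hu s b _ hr hb => by
        have hT := T_en hr fun i hi => ((mem_words.1 (goodV_subset _ _ _ hu)).2 i hi).1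
        intro h6
        apply hb
        have h7 := Bd_down h6 hT
        have : t - ((u.sum + s : ℕ) : ℝ) = t - s - u.sum := by push_cast; ring
        rw [this]
        exact h7)
      (fun v => if 2 * ((k - k / 20 : ℕ) : ℝ) + dv θ k ≤ (v.sum : ℝ) then 1 else a)
      (fun v => by
        split_ifs
        · exact le_rfl
        · exact ha1)
      (Y := M * 2 ^ (201 * (k / 20) / 100) + 1) (by positivity)
      (extra_small hN (by linarith) hcard2)
      (fun v hv => by
        obtain ⟨hv1, hv2, -⟩ := goodV_bounds hv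
        obtain ⟨y, hy⟩ : ∃ y, y = 3 ^ (k - k / 20) * X / 2 ^ v.sum + 2 ^ k := ⟨_, rfl⟩
        rw [← hy]
        have hypos : 0 < y := by rw [hy]; positivity
        have hy1 : 1 ≤ y := by
          rw [hy]
          have h6 : (1 : ℝ) ≤ 2 ^ k := one_le_pow₀ (by norm_num)
          have h7 : 0 ≤ 3 ^ (k - k / 20) * X / 2 ^ v.sum := by positivity
          linarith
        have hY1 : (0 : ℝ) ≤ M * 2 ^ (201 * (k / 20) / 100) := by positivity
        split_ifs with hvs
        · have h6 := F_le he (Bd M (t - v.sum))ᶜ hypos.le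
          linarith
        · rw [not_le] at hvs
          have h6 : F e (Bd M (t - v.sum))ᶜ y ≤ a * (y / 2) := by
            have hylog : 0 ≤ Real.log y := Real.log_nonneg hy1
            have h9 := tau_step_low hθ hN hk1 hk2 hv1 hvs hylog hy
            rcases le_or_gt (Real.log y) (2 * Real.log M) with hyM | hyM
            · rw [F_compl_zero]
              · positivity
              · have h10 : 0 ≤ Real.log y ^ θ := Real.rpow_nonneg hylog _
                have h11 := gam_ge
                have h12 : gam * Real.log y ≤ gam * (2 * Real.log M) :=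
                  mul_le_mul_of_nonneg_left hyM (by linarith)
                have h13 : t - v.sum ≤ - Real.log y ^ θ := by linarith
                rcases eq_or_lt_of_le hylog with h14 | h14
                · rw [← h14] at h9
                  have h15 : (0 : ℝ) ^ θ = 0 := Real.zero_rpow (by linarith)
                  rw [h15] at h9
                  nlinarith
                · have h15 : 0 < Real.log y ^ θ := Real.rpow_pos_of_pos h14 _
                  linarith
            · have h7 : y ≤ X / 2 ^ (k / 4) := by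
                rw [hy]
                exact size_le (by omega) hX4 hv1
              have h8 := log_decay hN hk1 hk2 hypos h7
              have h10 := ih y (t - v.sum) hy1 hyM (by
                push_cast at hn
                linarith) (by linarith)
              have h11 : 2 / Real.log M ^ 5 - 1 / Real.log y ^ 5 ≤ a := by
                rw [ha]
                have h12 : 1 / (59 / 60 * Real.log X) ^ 5 ≤ 1 / Real.log y ^ 5 :=
                  one_div_le_one_div_of_le (by
                    have : 0 < Real.log y := by linarith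
                    positivity)
                    (pow_le_pow_left₀ hylog h8 5)
                linarith
              exact h10.trans (mul_le_mul_of_nonneg_right h11 (by positivity))
          linarith)
    have h6 := weight_sum (I := II k) (N := k) (l := k - k / 20) ha0
      (fun v : List ℕ => 2 * ((k - k / 20 : ℕ) : ℝ) + dv θ k ≤ (v.sum : ℝ))
      (dev_mass hθ1 hN (II k)).2
    have h7 := mul_le_mul_of_nonneg_left h6 (by positivity : 0 ≤ X / 2)
    have hsplit : F e (Bd M t)ᶜ X ≤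
        F e ((Bd M t)ᶜ ∩ {m | M * 2 ^ (201 * k / 100) < |(m : ℝ)|}) X +
        (M * 2 ^ (201 * k / 100) + 1) / 2 := by
      have hcs := F_small he X (by positivity : 0 ≤ M * 2 ^ (201 * k / 100))
      refine le_trans (F_union_le fun m hm => ?_) (add_le_add_right hcs _)
      rcases lt_or_ge (M * 2 ^ (201 * k / 100)) |(m : ℝ)| with h10 | h10
      · exact Or.inl ⟨hm, h10⟩
      · exact Or.inr h10
    have h10 : (2 / Real.log M ^ 5 - 1 / Real.log X ^ 5) * (X / 2) -
        (X / 2 * (a + 1 / (k : ℝ) ^ 7) + 4 * (X / (k : ℝ) ^ 7) + X / (k : ℝ) ^ 7 / 2) =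
        (1 / (59 / 60 * Real.log X) ^ 5 - (1 / Real.log X ^ 5 + 10 / (k : ℝ) ^ 7)) * (X / 2) := by
      rw [ha]
      ring
    have h9 : 0 ≤ (1 / (59 / 60 * Real.log X) ^ 5 -
        (1 / Real.log X ^ 5 + 10 / (k : ℝ) ^ 7)) * (X / 2) :=
      mul_nonneg (by linarith) (by positivity)
    linarith

/-- The passage time: few odd integers have an iterate of size at most `M` within
`gam * log X - (log X) ^ θ - 2 * gam * log M` steps. -/
theorem passage_low {θ : ℝ} (hθ : 1 / 2 < θ) (hθ1 : θ < 1) : ∃ M₀ : ℝ, 2 ^ 10 ≤ M₀ ∧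
    ∀ M X t : ℝ, ∀ e : ℤ, M₀ ≤ M → (e = 1 ∨ e = -1) → 1 ≤ X →
      t ≤ gam * Real.log X - Real.log X ^ θ - 2 * gam * Real.log M →
      F e (Bd M t)ᶜ X ≤ X / Real.log M ^ 5 := by
  obtain ⟨k₀, hk₀⟩ := eventually_atTop.1 (numT_all hθ)
  refine ⟨2 ^ (10 * (k₀ + 1)), pow_le_pow_right₀ (by norm_num) (by omega), ?_⟩
  intro M X t e hM he hX ht
  have hM3 : (2 : ℝ) ^ 10 ≤ M := (pow_le_pow_right₀ (by norm_num) (by omega)).trans hM
  have hM0 : 1 < M := by linarith
  have hlM0 : 0 < Real.log M := Real.log_pos hM0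
  have h2 := Real.log_nonneg hX
  have h3 := gam_ge
  rcases le_or_gt (Real.log X) (2 * Real.log M) with h1 | h1
  · rw [F_compl_zero]
    · positivity
    · have h4 : 0 ≤ Real.log X ^ θ := Real.rpow_nonneg h2 _
      rcases eq_or_lt_of_le h2 with h5 | h5
      · rw [← h5] at ht
        rw [Real.zero_rpow (by linarith)] at ht
        nlinarith
      · have h6 : 0 < Real.log X ^ θ := Real.rpow_pos_of_pos h5 _
        have h7 : gam * Real.log X ≤ gam * (2 * Real.log M) :=
          mul_le_mul_of_nonneg_left h1 (by linarith)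
        linarith
  · obtain ⟨n, hn⟩ := exists_nat_ge (Real.log X)
    have h4 := low_ind hθ hθ1 hk₀ hM he n X t hX h1 hn ht
    refine h4.trans ?_
    have h5 : 0 < Real.log X := by linarith
    have h6 : 0 < 1 / Real.log X ^ 5 := by positivity
    have h7 : X / Real.log M ^ 5 = 2 / Real.log M ^ 5 * (X / 2) := by ring
    rw [h7]
    apply mul_le_mul_of_nonneg_right _ (by linarith)
    linarith

end Pool.Agent.Collatz3.FW
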