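import Mathlib
import Pool.Agent.Collatz3.FWLow

set_option autoImplicit false

/-!
Forward hand-off: passage times of all positive integers.
-/

namespace Pool.Agent.Collatz3.FW

open Finset Filter Topology
open Pool.Agent.Collatz3.PD
open Pool.Agent.Helper14 (T)

/-- The number of positive integers `≤ X` in a set of integers. -/
noncomputable def cN (A : Set ℤ) (X : ℝ) : ℝ := ({n : ℕ | 1 ≤ n ∧ (n : ℝ) ≤ X ∧ (n : ℤ) ∈ A}.ncard : ℝ)

theorem cN_finite (A : Set ℤ) (X : ℝ) : {n : ℕ | 1 ≤ n ∧ (n : ℝ) ≤ X ∧ (n : ℤ) ∈ A}.Finite := by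
  refine (Set.finite_Icc 1 ⌊X⌋₊).subset ?_
  rintro n ⟨h1, h2, -⟩
  exact ⟨h1, Nat.le_floor h2⟩

theorem cN_nonneg (A : Set ℤ) (X : ℝ) : 0 ≤ cN A X := Nat.cast_nonneg _

theorem cN_le (A : Set ℤ) {X : ℝ} (hX : 0 ≤ X) : cN A X ≤ X := by
  have h1 : {n : ℕ | 1 ≤ n ∧ (n : ℝ) ≤ X ∧ (n : ℤ) ∈ A} ⊆ Set.Icc 1 ⌊X⌋₊ := by
    rintro n ⟨h1, h2, -⟩
    exact ⟨h1, Nat.le_floor h2⟩
  have h2 := Set.ncard_le_ncard h1 (Set.finite_Icc _ _)
  have h4 : (Set.Icc 1 ⌊X⌋₊).ncard = ⌊X⌋₊ := by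
    rw [← Finset.coe_Icc, Set.ncard_coe_finset, Nat.card_Icc, Nat.add_sub_cancel]
  rw [h4] at h2
  have h3 : cN A X ≤ (⌊X⌋₊ : ℝ) := by
    unfold cN
    exact_mod_cast h2
  exact h3.trans (Nat.floor_le hX)

theorem cN_mono {A B : Set ℤ} {X Y : ℝ} (h : ∀ n : ℕ, 1 ≤ n → (n : ℝ) ≤ X → (n : ℤ) ∈ A →
    (n : ℝ) ≤ Y ∧ (n : ℤ) ∈ B) : cN A X ≤ cN B Y := by
  unfold cN
  have : {n : ℕ | 1 ≤ n ∧ (n : ℝ) ≤ X ∧ (n : ℤ) ∈ A} ⊆
      {n : ℕ | 1 ≤ n ∧ (n : ℝ) ≤ Y ∧ (n : ℤ) ∈ B} := by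
    rintro n ⟨h1, h2, h3⟩
    exact ⟨h1, h n h1 h2 h3⟩
  exact_mod_cast Set.ncard_le_ncard this (cN_finite B Y)

theorem cN_union {A B C : Set ℤ} {X : ℝ} (h : ∀ n : ℕ, 1 ≤ n → (n : ℝ) ≤ X → (n : ℤ) ∈ A →
    (n : ℤ) ∈ B ∨ (n : ℤ) ∈ C) : cN A X ≤ cN B X + cN C X := by
  unfold cN
  have h1 : {n : ℕ | 1 ≤ n ∧ (n : ℝ) ≤ X ∧ (n : ℤ) ∈ A} ⊆
      {n : ℕ | 1 ≤ n ∧ (n : ℝ) ≤ X ∧ (n : ℤ) ∈ B} ∪
      {n : ℕ | 1 ≤ n ∧ (n : ℝ) ≤ X ∧ (n : ℤ) ∈ C} := by
    rintro n ⟨h1, h2, h3⟩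
    rcases h n h1 h2 h3 with h4 | h4
    · exact Or.inl ⟨h1, h2, h4⟩
    · exact Or.inr ⟨h1, h2, h4⟩
  have h2 := (Set.ncard_le_ncard h1 ((cN_finite B X).union (cN_finite C X))).trans
    (Set.ncard_union_le _ _)
  exact_mod_cast h2

theorem cN_step (A : Set ℤ) (X : ℝ) : cN A X ≤ F 1 A X + cN {m | 2 * m ∈ A} (X / 2) := by
  classical
  have h1 : {n : ℕ | 1 ≤ n ∧ (n : ℝ) ≤ X ∧ (n : ℤ) ∈ A} ⊆
      (((Od 1 X).filter fun n => n ∈ A).image Int.toNat : Finset ℕ) ∪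
      (fun m : ℕ => 2 * m) '' {n : ℕ | 1 ≤ n ∧ (n : ℝ) ≤ X / 2 ∧ (n : ℤ) ∈ {m | 2 * m ∈ A}} := by
    rintro n ⟨h1, h2, h3⟩
    rcases Nat.even_or_odd' n with ⟨m, hm | hm⟩
    · right
      refine ⟨m, ⟨by omega, ?_, ?_⟩, by simp only; omega⟩
      · rw [hm] at h2
        push_cast at h2
        linarith
      · rw [Set.mem_ofPred_eq]
        rw [hm] at h3
        push_cast at h3
        exact h3
    · left
      rw [mem_coe, mem_image]
      refine ⟨(n : ℤ), ?_, by simp⟩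
      rw [mem_filter, mem_Od (Or.inl rfl)]
      refine ⟨⟨by omega, by omega, ?_⟩, h3⟩
      push_cast
      linarith
  have h2 := Set.ncard_le_ncard h1 ((Finset.finite_toSet _).union ((cN_finite _ _).image _))
  have h3 := h2.trans (Set.ncard_union_le _ _)
  have h4 : ((fun m : ℕ => 2 * m) ''
      {n : ℕ | 1 ≤ n ∧ (n : ℝ) ≤ X / 2 ∧ (n : ℤ) ∈ {m | 2 * m ∈ A}}).ncard ≤
      {n : ℕ | 1 ≤ n ∧ (n : ℝ) ≤ X / 2 ∧ (n : ℤ) ∈ {m | 2 * m ∈ A}}.ncard :=
    Set.ncard_image_le (cN_finite _ _)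
  have h5 : ((((Od 1 X).filter fun n => n ∈ A).image Int.toNat : Finset ℕ) : Set ℕ).ncard ≤
      ((Od 1 X).filter fun n => n ∈ A).card := by
    rw [Set.ncard_coe_finset]
    exact card_image_le
  have h6 : F 1 A X = (((Od 1 X).filter fun n => n ∈ A).card : ℝ) := by
    unfold F
    congr!
  rw [h6]
  unfold cN
  exact_mod_cast h3.trans (Nat.add_le_add h5 h4)

theorem cN_sum (I : ℕ) : ∀ (A : Set ℤ) (X : ℝ), 0 ≤ X →
    cN A X ≤ ∑ i ∈ range I, F 1 {m | 2 ^ i * m ∈ A} (X / 2 ^ i) + X / 2 ^ I := by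
  induction I with
  | zero =>
    intro A X hX
    simpa using cN_le A hX
  | succ I ih =>
    intro A X hX
    have h1 := cN_step A X
    have h2 := ih {m | 2 * m ∈ A} (X / 2) (by linarith)
    rw [sum_range_succ']
    have h3 : ∑ i ∈ range I, F 1 {m | 2 ^ i * m ∈ {m | 2 * m ∈ A}} (X / 2 / 2 ^ i) =
        ∑ i ∈ range I, F 1 {m | 2 ^ (i + 1) * m ∈ A} (X / 2 ^ (i + 1)) := by
      apply sum_congr rfl
      intro i _
      congr 1
      · ext m
        simp only [Set.mem_ofPred_eq]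
        rw [pow_succ', mul_assoc]
      · rw [pow_succ', div_div]
    rw [h3] at h2
    have h4 : F 1 {m | 2 ^ 0 * m ∈ A} (X / 2 ^ 0) = F 1 A X := by
      simp
    rw [h4]
    have h5 : X / 2 / 2 ^ I = X / 2 ^ (I + 1) := by
      rw [pow_succ', div_div]
    rw [h5] at h2
    linarith

theorem F_empty {e : ℤ} (he : e = 1 ∨ e = -1) (A : Set ℤ) {X : ℝ} (hX : X < 1) : F e A X = 0 := by
  apply F_zero
  intro n hn
  rw [mem_Od he] at hn
  exfalso
  have h1 : (1 : ℤ) ≤ e * n := hn.2.1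
  have h2 : ((1 : ℤ) : ℝ) ≤ ((e * n : ℤ) : ℝ) := by exact_mod_cast h1
  push_cast at h2
  have h3 := hn.2.2
  push_cast at h3
  linarith

theorem sum_geom_le (I : ℕ) {c : ℝ} (hc : 0 ≤ c) : ∑ i ∈ range I, c / 2 ^ i ≤ 2 * c := by
  have h : ∑ i ∈ range I, c / 2 ^ i = 2 * c - 2 * c / 2 ^ I := by
    induction I with
    | zero => simp
    | succ I ih =>
      rw [sum_range_succ, ih, pow_succ]
      field_simp
      ring
  rw [h]
  have : 0 ≤ 2 * c / 2 ^ I := by positivity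
  linarith

theorem T_iter_mul (i : ℕ) (m : ℤ) : T^[i] (2 ^ i * m) = m :=
  Pool.Agent.Helper14.T_iter_pow i m

/-- The natural density theorem for passage times. -/
theorem passage_all {θ : ℝ} (hθ : 1 / 2 < θ) (hθ1 : θ < 1) : ∃ M₀ : ℝ, 2 ^ 10 ≤ M₀ ∧
    ∀ M X t : ℝ, M₀ ≤ M → 1 ≤ X → tau θ (Real.log X) ≤ t →
      cN (Bd M t) X ≤ 2 * (X / Real.log M ^ 5) := by
  obtain ⟨M₀, hM₀, h⟩ := passage hθ hθ1
  refine ⟨M₀, hM₀, ?_⟩
  intro M X t hM hX ht
  have hX0 : 0 < X := by linarith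
  have hlM : 0 < Real.log M := by
    apply Real.log_pos
    have : (1 : ℝ) < 2 ^ 10 := by norm_num
    linarith
  have h1 : ∀ i : ℕ, F 1 {m | 2 ^ i * m ∈ Bd M t} (X / 2 ^ i) ≤ X / Real.log M ^ 5 / 2 ^ i := by
    intro i
    rcases lt_or_ge (X / 2 ^ i) 1 with h2 | h2
    · rw [F_empty (Or.inl rfl) _ h2]
      positivity
    · have h3 : F 1 {m | 2 ^ i * m ∈ Bd M t} (X / 2 ^ i) ≤ F 1 (Bd M (t - i)) (X / 2 ^ i) := by
        apply F_mono
        intro m hm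
        exact Bd_down hm (T_iter_mul i m)
      refine h3.trans ?_
      have h4 : tau θ (Real.log (X / 2 ^ i)) ≤ t - i := by
        have h5 : 0 ≤ Real.log (X / 2 ^ i) := Real.log_nonneg h2
        have h7 : Real.log (X / 2 ^ i) = Real.log X - i * Real.log 2 := by
          rw [Real.log_div hX0.ne' (by positivity), Real.log_pow]
        have h6 : Real.log (X / 2 ^ i) ^ θ ≤ Real.log X ^ θ := by
          apply Real.rpow_le_rpow h5 _ (by linarith)
          rw [h7]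
          have : 0 ≤ (i : ℝ) * Real.log 2 := by positivity
          linarith
        unfold tau at ht ⊢
        rw [h7] at h6 ⊢
        have h8 := gam_log_two_ge
        have h9 : (0 : ℝ) ≤ i := Nat.cast_nonneg _
        nlinarith
      have h5 := h M (X / 2 ^ i) (t - i) 1 hM (Or.inl rfl) h2 h4
      refine h5.trans (le_of_eq ?_)
      field_simp
  have h2 : ∀ I : ℕ, cN (Bd M t) X ≤ 2 * (X / Real.log M ^ 5) + X / 2 ^ I := by
    intro I
    have h3 := cN_sum I (Bd M t) X hX0.le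
    have h4 : ∑ i ∈ range I, F 1 {m | 2 ^ i * m ∈ Bd M t} (X / 2 ^ i) ≤
        ∑ i ∈ range I, X / Real.log M ^ 5 / 2 ^ i := sum_le_sum fun i _ => h1 i
    have h5 := sum_geom_le I (by positivity : 0 ≤ X / Real.log M ^ 5)
    linarith
  have h3 : Tendsto (fun I : ℕ => 2 * (X / Real.log M ^ 5) + X / 2 ^ I) atTop
      (𝓝 (2 * (X / Real.log M ^ 5) + 0)) := by
    apply Tendsto.const_add
    apply Tendsto.const_div_atTop
    exact tendsto_pow_atTop_atTop_of_one_lt (by norm_num)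
  rw [add_zero] at h3
  exact ge_of_tendsto' h3 h2

/-- The lower bound for passage times. -/
theorem passage_low_all {θ : ℝ} (hθ : 1 / 2 < θ) (hθ1 : θ < 1) : ∃ M₀ : ℝ, 2 ^ 10 ≤ M₀ ∧
    ∀ M X t : ℝ, ∀ I : ℕ, M₀ ≤ M → 1 ≤ X →
      t ≤ gam * Real.log X - Real.log X ^ θ - 2 * gam * Real.log M - gam * I →
      cN (Bd M t)ᶜ X ≤ 2 * (X / Real.log M ^ 5) + I * M + X / 2 ^ I := by
  obtain ⟨M₀, hM₀, h⟩ := passage_low hθ hθ1
  refine ⟨M₀, hM₀, ?_⟩
  intro M X t I hM hX ht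
  have hX0 : 0 < X := by linarith
  have hM1 : (1 : ℝ) < M := by
    have : (1 : ℝ) < 2 ^ 10 := by norm_num
    linarith
  have hlM : 0 < Real.log M := Real.log_pos hM1
  have h1 : ∀ i ∈ range I, F 1 {m | 2 ^ i * m ∈ (Bd M t)ᶜ} (X / 2 ^ i) ≤
      X / Real.log M ^ 5 / 2 ^ i + M := by
    intro i hi
    rw [mem_range] at hi
    rcases lt_or_ge (X / 2 ^ i) 1 with h2 | h2
    · rw [F_empty (Or.inl rfl) _ h2]
      positivity
    · have h3 : F 1 {m | 2 ^ i * m ∈ (Bd M t)ᶜ} (X / 2 ^ i) ≤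
          F 1 (Bd M (t - i))ᶜ (X / 2 ^ i) + F 1 {m : ℤ | |(m : ℝ)| ≤ M} (X / 2 ^ i) := by
        apply F_union_le
        intro m hm
        by_contra hcon
        rw [not_or] at hcon
        obtain ⟨hc1, hc2⟩ := hcon
        rw [Set.notMem_compl_iff] at hc1
        rcases Bd_up (T_iter_mul i m) hc1 with h4 | h4
        · exact hm h4
        · apply hc2
          rw [Set.mem_ofPred_eq]
          push_cast at h4
          rw [abs_mul, abs_of_pos (by positivity : (0 : ℝ) < 2 ^ i), mul_comm M] at h4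
          exact le_of_mul_le_mul_left h4 (by positivity)
      refine h3.trans ?_
      have h4 : t - i ≤ gam * Real.log (X / 2 ^ i) - Real.log (X / 2 ^ i) ^ θ -
          2 * gam * Real.log M := by
        have h5 : 0 ≤ Real.log (X / 2 ^ i) := Real.log_nonneg h2
        have h7 : Real.log (X / 2 ^ i) = Real.log X - i * Real.log 2 := by
          rw [Real.log_div hX0.ne' (by positivity), Real.log_pow]
        have h6 : Real.log (X / 2 ^ i) ^ θ ≤ Real.log X ^ θ := by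
          apply Real.rpow_le_rpow h5 _ (by linarith)
          rw [h7]
          have : 0 ≤ (i : ℝ) * Real.log 2 := by positivity
          linarith
        rw [h7] at h6 ⊢
        have h8 := gam_ge
        have h9 : (0 : ℝ) ≤ i := Nat.cast_nonneg _
        have h10 : (i : ℝ) ≤ I := by exact_mod_cast hi.le
        have h11 := Real.log_two_lt_d9
        have h12 : gam * (i * Real.log 2) ≤ gam * I := by
          apply mul_le_mul_of_nonneg_left _ (by linarith)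
          nlinarith
        linarith
      have h5 := h M (X / 2 ^ i) (t - i) 1 hM (Or.inl rfl) h2 h4
      have h6 := F_small (Or.inl rfl : (1 : ℤ) = 1 ∨ (1 : ℤ) = -1) (X / 2 ^ i)
        (by linarith : 0 ≤ M)
      have h7 : X / 2 ^ i / Real.log M ^ 5 = X / Real.log M ^ 5 / 2 ^ i := by
        field_simp
      rw [h7] at h5
      linarith
  have h3 := cN_sum I (Bd M t)ᶜ X hX0.le
  have h4 := sum_le_sum h1
  rw [sum_add_distrib, sum_const, card_range, nsmul_eq_mul] at h4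
  have h5 := sum_geom_le I (by positivity : 0 ≤ X / Real.log M ^ 5)
  linarith

end Pool.Agent.Collatz3.FW
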