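import Mathlib
import Pool.Agent.Collatz3.PDTree

set_option autoImplicit false

/-!
Central limit theorem for sums of words.
-/

namespace Pool.Agent.Collatz3.FW

open Finset Filter Topology MeasureTheory ProbabilityTheory
open Pool.Agent.Collatz3.Mix (words mem_words)
open Pool.Agent.Collatz3.PD

/-- One half, as an element of the unit interval. -/
noncomputable def hf : unitInterval := ⟨1 / 2, by norm_num, by norm_num⟩

theorem hf_ne : hf ≠ 0 := by
  intro h
  have := congrArg Subtype.val h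
  simp [hf] at this

/-- The geometric law. -/
noncomputable def geo : Measure ℕ := geometricMeasure hf

instance : IsProbabilityMeasure geo := by unfold geo; infer_instance

/-- The law of a sequence of independent letters, minus one. -/
noncomputable def Pr : Measure (ℕ → ℕ) := Measure.infinitePi (fun _ : ℕ => geo)

instance : IsProbabilityMeasure Pr := by unfold Pr; infer_instance

theorem geo_singleton (n : ℕ) : geo {n} = ENNReal.ofReal ((1 / 2) ^ (n + 1)) := by
  unfold geo
  rw [geometricMeasure_singleton hf_ne]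
  congr 1
  simp only [hf]
  rw [pow_succ]
  norm_num

theorem sum_sq : HasSum (fun n : ℕ => (1 / 2 : ℝ) ^ (n + 1) * (((n : ℝ) - 1) ^ 2 / 2)) 1 := by
  have h0 := hasSum_geometric_two
  have h1 := hasSum_coe_mul_geometric_of_norm_lt_one (r := (1 / 2 : ℝ)) (by norm_num)
  have h2 := hasSum_choose_mul_geometric_of_norm_lt_one 2 (r := (1 / 2 : ℝ)) (by norm_num)
  have h3 := ((h2.mul_left (1 / 2)).sub (h1.mul_left (5 / 4))).sub (h0.mul_left (1 / 4))
  have e : (1 / 2 : ℝ) * (1 / (1 - 1 / 2) ^ (2 + 1)) - 5 / 4 * (1 / 2 / (1 - 1 / 2) ^ 2) -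
      1 / 4 * 2 = 1 := by norm_num
  rw [e] at h3
  refine h3.congr_fun ?_
  intro n
  rw [Nat.cast_choose_two, pow_succ]
  push_cast
  ring

theorem sum_mean : HasSum (fun n : ℕ => (1 / 2 : ℝ) ^ (n + 1) * ((n : ℝ) - 1)) 0 := by
  have h0 := hasSum_geometric_two
  have h1 := hasSum_coe_mul_geometric_of_norm_lt_one (r := (1 / 2 : ℝ)) (by norm_num)
  have h3 := (h1.mul_left (1 / 2)).sub (h0.mul_left (1 / 2))
  have e : (1 / 2 : ℝ) * (1 / 2 / (1 - 1 / 2) ^ 2) - 1 / 2 * 2 = 0 := by norm_num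
  rw [e] at h3
  refine h3.congr_fun ?_
  intro n
  rw [pow_succ]
  ring

/-- The standardised letters. -/
noncomputable def Xc (i : ℕ) (ω : ℕ → ℕ) : ℝ := ((ω i : ℝ) - 1) / √2

theorem integral_geo (f : ℕ → ℝ) : ∫ n, f n ∂geo = ∑' n : ℕ, (1 / 2 : ℝ) ^ (n + 1) * f n := by
  unfold geo
  rw [integral_geometricMeasure hf_ne]
  apply tsum_congr
  intro n
  simp only [hf, smul_eq_mul]
  rw [pow_succ]
  norm_num

theorem integral_Pr (f : ℕ → ℝ) (i : ℕ) : ∫ ω, f (ω i) ∂Pr = ∫ n, f n ∂geo := by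
  have h := Measure.infinitePi_map_eval (fun _ : ℕ => geo) i
  rw [← h, integral_map (measurable_pi_apply i).aemeasurable
    (measurable_from_nat (f := f)).aestronglyMeasurable]
  rfl

theorem mean_Xc (i : ℕ) : ∫ ω, Xc i ω ∂Pr = 0 := by
  unfold Xc
  rw [integral_Pr (fun n => ((n : ℝ) - 1) / √2), integral_geo]
  have h := sum_mean.div_const √2
  rw [zero_div] at h
  rw [← h.tsum_eq]
  apply tsum_congr
  intro n
  ring

theorem var_Xc (i : ℕ) : ∫ ω, (Xc i ^ 2) ω ∂Pr = 1 := by
  have h1 : ∀ ω, (Xc i ^ 2) ω = ((ω i : ℝ) - 1) ^ 2 / 2 := by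
    intro ω
    simp only [Pi.pow_apply]
    unfold Xc
    rw [div_pow, Real.sq_sqrt (by norm_num)]
  simp_rw [h1]
  rw [integral_Pr (fun n => ((n : ℝ) - 1) ^ 2 / 2), integral_geo]
  exact sum_sq.tsum_eq

theorem meas_Xc (i : ℕ) : Measurable (Xc i) :=
  (measurable_from_nat (f := fun n : ℕ => ((n : ℝ) - 1) / √2)).comp (measurable_pi_apply i)

theorem clt_Xc : TendstoInDistribution (fun (n : ℕ) ω => (√n)⁻¹ * ∑ k ∈ Finset.range n, Xc k ω)
    atTop (id : ℝ → ℝ) (fun _ => Pr) (gaussianReal 0 1) := by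
  apply tendstoInDistribution_inv_sqrt_mul_sum
  · exact ⟨by fun_prop, by simp⟩
  · exact mean_Xc 0
  · exact var_Xc 0
  · exact iIndepFun_infinitePi (P := fun _ : ℕ => geo)
      (X := fun _ (n : ℕ) => ((n : ℝ) - 1) / √2) (fun _ => measurable_from_nat)
  · intro i
    refine ⟨(meas_Xc i).aemeasurable, (meas_Xc 0).aemeasurable, ?_⟩
    have e : ∀ i : ℕ, Pr.map (Xc i) = geo.map (fun n : ℕ => ((n : ℝ) - 1) / √2) := by
      intro i
      have h := Measure.infinitePi_map_eval (fun _ : ℕ => geo) i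
      rw [← h, Measure.map_map measurable_from_nat (measurable_pi_apply i)]
      rfl
    rw [e, e]

theorem clt_geo {E : Set ℝ} (hE : MeasurableSet E) {z : ℝ} (hf : frontier E = {z}) :
    Tendsto (fun n : ℕ =>
      Pr.real {ω | (√n)⁻¹ * ∑ k ∈ Finset.range n, Xc k ω ∈ E}) atTop
      (𝓝 ((gaussianReal 0 1).real E)) := by
  have h := clt_Xc.tendsto
  have h2 := ProbabilityMeasure.tendsto_measure_of_null_frontier_of_tendsto' h
    (E := E) (by
      rw [hf]
      simp only [ProbabilityMeasure.coe_mk, Measure.map_id]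
      exact (nullSingletonClass_gaussianReal (by norm_num)).measure_singleton z)
  simp only [ProbabilityMeasure.coe_mk, Measure.map_id] at h2
  have h3 := (ENNReal.tendsto_toReal (measure_ne_top (gaussianReal 0 1) E)).comp h2
  refine h3.congr fun n => ?_
  simp only [Function.comp]
  rw [Measure.map_apply_of_aemeasurable (clt_Xc.forall_aemeasurable n) hE]
  rfl

/-- The word of the first letters. -/
def wd (K : ℕ) (ω : ℕ → ℕ) : List ℕ := (List.range K).map fun i => ω i + 1

theorem wd_sum (K : ℕ) (ω : ℕ → ℕ) : (wd K ω).sum = ∑ i ∈ range K, (ω i + 1) := by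
  unfold wd
  induction K with
  | zero => simp
  | succ K ih =>
    rw [List.range_succ, List.map_append, List.sum_append, ih, sum_range_succ]
    simp

theorem wd_eq {K : ℕ} {w : List ℕ} (hw : w.length = K) (h1 : ∀ i ∈ w, 1 ≤ i) :
    {ω | wd K ω = w} = Set.pi (range K : Finset ℕ) (fun i => {w.getD i 0 - 1}) := by
  ext ω
  simp only [Set.mem_ofPred_eq, Set.mem_pi, mem_coe, mem_range, Set.mem_singleton_iff]
  constructor
  · rintro rfl i hi
    unfold wd
    simp [hi]
  · intro h
    apply List.ext_getElem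
    · simp [wd, hw]
    · intro i h2 h3
      have h4 := h i (by omega)
      have h5 : w.getD i 0 = w[i] := List.getD_eq_getElem _ _ h3
      have h6 := h1 w[i] (List.getElem_mem h3)
      simp only [wd, List.getElem_map, List.getElem_range]
      omega

theorem Pr_wd {K : ℕ} {w : List ℕ} (hw : w.length = K) (h1 : ∀ i ∈ w, 1 ≤ i) :
    Pr {ω | wd K ω = w} = ENNReal.ofReal ((1 / 2) ^ w.sum) := by
  rw [wd_eq hw h1]
  unfold Pr
  rw [Measure.infinitePi_pi _ (fun i _ => MeasurableSet.singleton _)]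
  have h2 : ∀ i ∈ range K, geo {w.getD i 0 - 1} = ENNReal.ofReal ((1 / 2) ^ (w.getD i 0)) := by
    intro i hi
    rw [mem_range] at hi
    rw [geo_singleton]
    have h3 : i < w.length := by omega
    have h5 : w.getD i 0 = w[i] := List.getD_eq_getElem _ _ h3
    have h6 := h1 w[i] (List.getElem_mem h3)
    rw [Nat.sub_add_cancel (by omega)]
  rw [prod_congr rfl h2, ← ENNReal.ofReal_prod_of_nonneg (fun i _ => by positivity),
    prod_pow_eq_pow_sum]
  congr 2
  rw [← Fin.sum_univ_getElem w, Finset.sum_range, ← hw]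
  apply sum_congr rfl
  intro i _
  exact List.getD_eq_getElem _ _ i.2

theorem meas_wd {K : ℕ} {w : List ℕ} (hw : w.length = K) (h1 : ∀ i ∈ w, 1 ≤ i) :
    MeasurableSet {ω | wd K ω = w} := by
  rw [wd_eq hw h1]
  exact MeasurableSet.pi (Set.to_countable _) (fun i _ => MeasurableSet.singleton _)

/-- The mass of a set of words is the probability that the first letters form such a word. -/
theorem P_eq_Pr {I K : ℕ} {G : Finset (List ℕ)} (hG : G ⊆ words I K) :
    P G = Pr.real {ω | wd K ω ∈ G} := by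
  have h1 : {ω | wd K ω ∈ G} = ⋃ w ∈ G, {ω | wd K ω = w} := by
    ext ω
    simp
  have hlen : ∀ w ∈ G, w.length = K := fun w hw => words_length (hG hw)
  have hpos : ∀ w ∈ G, ∀ i ∈ w, 1 ≤ i := fun w hw i hi => ((mem_words.1 (hG hw)).2 i hi).1
  rw [h1, measureReal_def, measure_biUnion_finset]
  · rw [sum_congr rfl fun w hw => Pr_wd (hlen w hw) (hpos w hw),
      ← ENNReal.ofReal_sum_of_nonneg (fun w _ => by positivity),
      ENNReal.toReal_ofReal (sum_nonneg fun w _ => by positivity)]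
    rfl
  · intro w _ w' _ hne
    rw [Function.onFun, Set.disjoint_left]
    intro ω h2 h3
    exact hne (h2.symm.trans h3)
  · intro w hw
    exact meas_wd (hlen w hw) (hpos w hw)

theorem std_eq (K : ℕ) (hK : 0 < K) (ω : ℕ → ℕ) :
    (√K)⁻¹ * ∑ k ∈ Finset.range K, Xc k ω = (((wd K ω).sum : ℕ) - 2 * K : ℝ) / √(2 * K) := by
  rw [wd_sum]
  unfold Xc
  rw [← sum_div]
  push_cast
  rw [sum_add_distrib, sum_sub_distrib, sum_const, card_range, nsmul_eq_mul, mul_one,
    Real.sqrt_mul (by norm_num)]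
  have h1 : (0 : ℝ) < √K := Real.sqrt_pos.2 (by exact_mod_cast hK)
  have h2 : (0 : ℝ) < √2 := Real.sqrt_pos.2 (by norm_num)
  field_simp
  ring

/-- The central limit theorem for the sums of words: upper bounds. -/
theorem clt_words {E : Set ℝ} (hE : MeasurableSet E) {z : ℝ} (hf : frontier E = {z}) {ε : ℝ}
    (hε : 0 < ε) : ∃ K₀ : ℕ, ∀ K : ℕ, K₀ ≤ K → ∀ I : ℕ, ∀ Q : List ℕ → Prop, ∀ _ : DecidablePred Q,
      (∀ w, Q w → ((w.sum : ℝ) - 2 * K) / √(2 * K) ∈ E) →
      P ((words I K).filter Q) ≤ (gaussianReal 0 1).real E + ε := by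
  have h1 := (clt_geo hE hf).eventually_le_const
    (by linarith : (gaussianReal 0 1).real E < (gaussianReal 0 1).real E + ε)
  obtain ⟨K₀, hK₀⟩ := eventually_atTop.1 h1
  refine ⟨max K₀ 1, fun K hK I Q _ hQ => ?_⟩
  rw [P_eq_Pr (filter_subset _ _)]
  refine le_trans ?_ (hK₀ K (le_trans (le_max_left _ _) hK))
  apply measureReal_mono
  · intro ω hω
    rw [Set.mem_ofPred_eq, mem_filter] at hω
    rw [Set.mem_ofPred_eq, std_eq K (lt_of_lt_of_le one_pos (le_trans (le_max_right _ _) hK))]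
    exact hQ _ hω.2
  · exact measure_ne_top _ _

end Pool.Agent.Collatz3.FW
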