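import Mathlib
import Pool.Agent.Collatz3.FWLow

set_option autoImplicit false

/-!
Forward hand-off: many stages of the same length.
-/

namespace Pool.Agent.Collatz3.FW

open Finset Filter Topology
open Pool.Agent.Collatz3.Mix (words mem_words sum_words_zero sum_words_succ sum_words_add)
open Pool.Agent.Collatz3.PD
open Pool.Agent.Helper14 (T)

/-- A family of sets indexed by time, carried along by the map except near zero. -/
structure Fam (M : ℝ) (A : ℝ → Set ℤ) : Prop where
  down : ∀ (m m' : ℤ) (s : ℕ) (t : ℝ), T^[s] m = m' → m ∈ A t → M * 2 ^ s < |(m : ℝ)| →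
    m' ∈ A (t - s)
  up : ∀ (m m' : ℤ) (s : ℕ) (t : ℝ), T^[s] m = m' → m' ∈ A (t - s) → M * 2 ^ s < |(m : ℝ)| →
    m ∈ A t

/-- One stage for a family. -/
theorem fam_stage {θ : ℝ} {k : ℕ} (hN : NumT θ k) {M : ℝ} (hM : 1 < M)
    (hMk : M ^ 2 < 2 ^ (10 * k)) {A : ℝ → Set ℤ} (hA : Fam M A) {X : ℝ} (hX : 2 ^ (10 * k) ≤ X)
    {e : ℤ} (he : e = 1 ∨ e = -1) (t : ℝ) (a : List ℕ → ℝ)
    (hb : ∀ v ∈ goodV (II k) k (k - k / 20),
      F e (A (t - v.sum)) (3 ^ (k - k / 20) * X / 2 ^ v.sum + 2 ^ k) ≤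
        a v * ((3 ^ (k - k / 20) * X / 2 ^ v.sum + 2 ^ k) / 2)) :
    F e (A t) X ≤ X / 2 * ∑ v ∈ goodV (II k) k (k - k / 20), (1 / 2) ^ v.sum * a v +
      5 * (X / (k : ℝ) ^ 7) := by
  have hX4 : (2 : ℝ) ^ (4 * k) ≤ X := (pow_le_pow_right₀ (by norm_num) (by omega)).trans hX
  have hX0 : 0 < X := lt_of_lt_of_le (by positivity) hX
  obtain ⟨hcard, hcard2⟩ := small_ints hN hM (hMk.trans_le hX) hX
  have h21 : (1 : ℝ) ≤ 2 ^ (201 * k / 100) := one_le_pow₀ (by norm_num)
  have hc1 : (1 : ℝ) ≤ M * 2 ^ (201 * k / 100) := by nlinarith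
  have h5 := stage' hN.n1 hN.e1 hX4 he
    (A t ∩ {m | M * 2 ^ (201 * k / 100) < |(m : ℝ)|}) (fun s => A (t - s))
    (fun s => A (t - s) ∪ {m | |(m : ℝ)| ≤ M * 2 ^ (201 * (k / 20) / 100)})
    (fun w hw b _ hr hen => by
      have hT := T_en hr fun i hi => ((mem_words.1 (goodV_subset _ _ _ hw)).2 i hi).1
      refine hA.down _ _ _ _ hT hen.1 (lt_of_le_of_lt ?_ hen.2)
      apply mul_le_mul_of_nonneg_left _ (by linarith)
      apply pow_le_pow_right₀ (by norm_num)
      have := (goodV_bounds hw).2.1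
      omega)
    (fun u hu s b _ hr hb => by
      have hT := T_en hr fun i hi => ((mem_words.1 (goodV_subset _ _ _ hu)).2 i hi).1
      have h6 : b ∈ A (t - s - u.sum) := by
        have : t - ((u.sum + s : ℕ) : ℝ) = t - s - u.sum := by push_cast; ring
        rwa [this] at hb
      rcases lt_or_ge (M * 2 ^ u.sum) |((en u b : ℤ) : ℝ)| with h7 | h7
      · exact Or.inl (hA.up _ _ _ _ hT h6 h7)
      · right
        refine h7.trans (mul_le_mul_of_nonneg_left ?_ (by linarith))
        apply pow_le_pow_right₀ (by norm_num)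
        have := (goodV_bounds hu).2.1
        omega)
    (fun v => min (a v) 1) (fun v => min_le_right _ _)
    (Y := M * 2 ^ (201 * (k / 20) / 100) + 1) (by positivity)
    (extra_small hN (by linarith) hcard2)
    (fun v hv => by
      obtain ⟨y, hy⟩ : ∃ y, y = 3 ^ (k - k / 20) * X / 2 ^ v.sum + 2 ^ k := ⟨_, rfl⟩
      have hbv := hb v hv
      rw [← hy] at hbv ⊢
      have hypos : 0 < y := by rw [hy]; positivity
      have hcs := F_small he y (by positivity : 0 ≤ M * 2 ^ (201 * (k / 20) / 100))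
      have hsplit := F_union_le (e := e) (X := y) (A := A (t - v.sum) ∪
        {m | |(m : ℝ)| ≤ M * 2 ^ (201 * (k / 20) / 100)}) (B := A (t - v.sum))
        (C := {m | |(m : ℝ)| ≤ M * 2 ^ (201 * (k / 20) / 100)}) (fun n hn => hn)
      have hY1 : (0 : ℝ) ≤ M * 2 ^ (201 * (k / 20) / 100) := by positivity
      have h6 := F_le he (A (t - v.sum)) hypos.le
      have hmin : F e (A (t - v.sum)) y ≤ min (a v) 1 * (y / 2) + 1 / 2 := by
        rcases le_total (a v) 1 with h7 | h7
        · rw [min_eq_left h7]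
          linarith
        · rw [min_eq_right h7]
          linarith
      linarith)
  have h6 : ∑ v ∈ goodV (II k) k (k - k / 20), (1 / 2 : ℝ) ^ v.sum * min (a v) 1 ≤
      ∑ v ∈ goodV (II k) k (k - k / 20), (1 / 2) ^ v.sum * a v := by
    apply sum_le_sum
    intro v _
    exact mul_le_mul_of_nonneg_left (min_le_left _ _) (by positivity)
  have h7 := mul_le_mul_of_nonneg_left h6 (by positivity : 0 ≤ X / 2)
  have hsplit : F e (A t) X ≤
      F e (A t ∩ {m | M * 2 ^ (201 * k / 100) < |(m : ℝ)|}) X +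
      (M * 2 ^ (201 * k / 100) + 1) / 2 := by
    have hcs := F_small he X (by positivity : 0 ≤ M * 2 ^ (201 * k / 100))
    refine le_trans (F_union_le fun m hm => ?_) (add_le_add_right hcs _)
    rcases lt_or_ge (M * 2 ^ (201 * k / 100)) |(m : ℝ)| with h10 | h10
    · exact Or.inl ⟨hm, h10⟩
    · exact Or.inr h10
  linarith

/-- The mean of a function of the sum of `j` good blocks. -/
noncomputable def QS (k : ℕ) : ℕ → (ℕ → ℝ) → ℝ
  | 0, g => g 0
  | j + 1, g => ∑ v ∈ goodV (II k) k (k - k / 20),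
      (1 / 2 : ℝ) ^ v.sum * QS k j (fun s => g (s + v.sum))

theorem QS_zero (k : ℕ) (g : ℕ → ℝ) : QS k 0 g = g 0 := rfl

theorem QS_succ (k j : ℕ) (g : ℕ → ℝ) : QS k (j + 1) g =
    ∑ v ∈ goodV (II k) k (k - k / 20), (1 / 2 : ℝ) ^ v.sum * QS k j (fun s => g (s + v.sum)) := rfl

theorem QS_mono (k j : ℕ) : ∀ g h : ℕ → ℝ,
    (∀ s, 199 * (j * (k - k / 20)) ≤ 100 * s → g s ≤ h s) → QS k j g ≤ QS k j h := by
  induction j with
  | zero =>
    intro g h hgh
    rw [QS_zero, QS_zero]
    exact hgh 0 (by simp)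
  | succ j ih =>
    intro g h hgh
    rw [QS_succ, QS_succ]
    apply sum_le_sum
    intro v hv
    apply mul_le_mul_of_nonneg_left _ (by positivity)
    apply ih
    intro s hs
    apply hgh
    have h1 := (goodV_bounds hv).1
    have h2 : (j + 1) * (k - k / 20) = j * (k - k / 20) + (k - k / 20) := by ring
    rw [h2]
    omega

theorem QS_const (k j : ℕ) (c : ℝ) :
    QS k j (fun _ => c) = P (goodV (II k) k (k - k / 20)) ^ j * c := by
  induction j with
  | zero => rw [QS_zero]; simp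
  | succ j ih =>
    rw [QS_succ, ih, ← sum_mul, pow_succ]
    unfold P
    ring

theorem QS_add (k j : ℕ) : ∀ (g : ℕ → ℝ) (c : ℝ),
    QS k j (fun s => g s + c) = QS k j g + QS k j (fun _ => c) := by
  induction j with
  | zero => intro g c; rfl
  | succ j ih =>
    intro g c
    rw [QS_succ, QS_succ, QS_succ, ← sum_add_distrib]
    apply sum_congr rfl
    intro v _
    rw [ih (fun s => g (s + v.sum)) c]
    ring

theorem QS_le_words (k j : ℕ) : ∀ g : ℕ → ℝ, (∀ s, 0 ≤ g s) →
    QS k j g ≤ ∑ w ∈ words (II k) (j * (k - k / 20)), (1 / 2 : ℝ) ^ w.sum * g w.sum := by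
  induction j with
  | zero =>
    intro g _
    rw [QS_zero, Nat.zero_mul, sum_words_zero]
    simp
  | succ j ih =>
    intro g hg
    have h2 : (j + 1) * (k - k / 20) = (k - k / 20) + j * (k - k / 20) := by ring
    rw [QS_succ, h2, sum_words_add]
    refine (sum_le_sum (g := fun v => ∑ w ∈ words (II k) (j * (k - k / 20)),
      (1 / 2 : ℝ) ^ (v ++ w).sum * g (v ++ w).sum) fun v _ => ?_).trans ?_
    · have h3 := ih (fun s => g (s + v.sum)) (fun s => hg _)
      refine (mul_le_mul_of_nonneg_left h3 (by positivity)).trans (le_of_eq ?_)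
      rw [mul_sum]
      apply sum_congr rfl
      intro w _
      rw [List.sum_append, pow_add, add_comm w.sum v.sum]
      ring
    · apply sum_le_sum_of_subset_of_nonneg (goodV_subset _ _ _)
      intro v _ _
      exact sum_nonneg fun w _ => mul_nonneg (by positivity) (hg _)

theorem P_good_le_one (k d : ℕ) : P (goodV (II k) k d) ≤ 1 := by
  refine (P_mono (goodV_subset _ _ _)).trans ?_
  rw [P_words]
  exact pow_le_one₀ (Z_nonneg _) (Z_le_one _)

theorem P_good_pow {θ : ℝ} {k : ℕ} (hN : NumT θ k) (j : ℕ) :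
    2 ≤ P (goodV (II k) k (k - k / 20)) ^ j * 2 + 10 * j / (k : ℝ) ^ 7 := by
  have hbig := hN.big
  have hk : (2000 : ℝ) ≤ k := by exact_mod_cast hbig
  have h1 := P_good_ge hN.n1 (by omega : k / 20 ≤ k - k / 20) (by omega)
  have h2 : (0 : ℝ) < 2 / (k : ℝ) ^ 8 := by positivity
  have h3 : 2 / (k : ℝ) ^ 8 ≤ 1 := by
    rw [div_le_one (by positivity)]
    have : (2 : ℝ) ^ 8 ≤ (k : ℝ) ^ 8 := pow_le_pow_left₀ (by norm_num) (by linarith) 8
    linarith
  have h4 := one_add_mul_le_pow (a := -(2 / (k : ℝ) ^ 8)) (by linarith) j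
  have h5 : (1 + -(2 / (k : ℝ) ^ 8)) ^ j ≤ P (goodV (II k) k (k - k / 20)) ^ j := by
    apply pow_le_pow_left₀ (by linarith)
    linarith
  have h6 : (j : ℝ) * (2 / (k : ℝ) ^ 8) * 2 ≤ 10 * j / (k : ℝ) ^ 7 := by
    have h7 : (2 : ℝ) / (k : ℝ) ^ 8 ≤ 2 / (k : ℝ) ^ 7 := by
      apply div_le_div_of_nonneg_left (by norm_num) (by positivity)
      exact pow_le_pow_right₀ (by linarith) (by norm_num)
    have h8 : (0 : ℝ) ≤ j := Nat.cast_nonneg _
    calc (j : ℝ) * (2 / (k : ℝ) ^ 8) * 2 ≤ j * (2 / (k : ℝ) ^ 7) * 2 := by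
          apply mul_le_mul_of_nonneg_right _ (by norm_num)
          exact mul_le_mul_of_nonneg_left h7 h8
      _ = 4 * j / (k : ℝ) ^ 7 := by ring
      _ ≤ 10 * j / (k : ℝ) ^ 7 := by
          apply div_le_div_of_nonneg_right _ (by positivity)
          linarith
  linarith

/-- The logarithm of the next level. -/
theorem log_next {k : ℕ} (hk : 1 ≤ k) {y : ℝ} (hy : 2 ^ (10 * k) ≤ y) {s : ℕ}
    (hs : 100 * s ≤ 201 * (k - k / 20)) :
    Real.log y + ((k - k / 20 : ℕ) : ℝ) * Real.log 3 - s * Real.log 2 ≤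
      Real.log (3 ^ (k - k / 20) * y / 2 ^ s + 2 ^ k) ∧
    Real.log (3 ^ (k - k / 20) * y / 2 ^ s + 2 ^ k) ≤
      Real.log y + ((k - k / 20 : ℕ) : ℝ) * Real.log 3 - s * Real.log 2 + 1 / 2 ^ k := by
  have hy0 : 0 < y := lt_of_lt_of_le (by positivity) hy
  obtain ⟨x, hx⟩ : ∃ x, x = 3 ^ (k - k / 20) * y / 2 ^ s := ⟨_, rfl⟩
  have hx0 : 0 < x := by rw [hx]; positivity
  have hlog : Real.log x = Real.log y + ((k - k / 20 : ℕ) : ℝ) * Real.log 3 -
      s * Real.log 2 := by
    rw [hx, Real.log_div (by positivity) (by positivity), Real.log_mul (by positivity) hy0.ne',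
      Real.log_pow, Real.log_pow]
    ring
  rw [← hx, ← hlog]
  have h2k : (0 : ℝ) < 2 ^ k := by positivity
  constructor
  · exact Real.log_le_log hx0 (by linarith)
  · have h1 : (2 : ℝ) ^ k * 2 ^ k ≤ x := by
      rw [hx, le_div_iff₀ (by positivity), ← pow_add, ← pow_add]
      calc (2 : ℝ) ^ (k + k + s) ≤ 2 ^ (10 * k) := pow_le_pow_right₀ (by norm_num) (by omega)
        _ ≤ 1 * y := by rw [one_mul]; exact hy
        _ ≤ 3 ^ (k - k / 20) * y :=
            mul_le_mul_of_nonneg_right (one_le_pow₀ (by norm_num)) hy0.le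
    have h2 : Real.log (x + 2 ^ k) - Real.log x = Real.log ((x + 2 ^ k) / x) := by
      rw [Real.log_div (by positivity) (by positivity)]
    have h3 : Real.log ((x + 2 ^ k) / x) ≤ (x + 2 ^ k) / x - 1 :=
      Real.log_le_sub_one_of_pos (by positivity)
    have h4 : (x + 2 ^ k) / x - 1 = 2 ^ k / x := by
      field_simp
      ring
    have h5 : 2 ^ k / x ≤ 1 / 2 ^ k := by
      rw [div_le_div_iff₀ hx0 h2k]
      linarith
    linarith

/-- Many stages. -/
theorem multi {θ : ℝ} {k : ℕ} (hN : NumT θ k) {M : ℝ} (hM : 1 < M)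
    (hMk : M ^ 2 < 2 ^ (10 * k)) {A : ℝ → Set ℤ} (hA : Fam M A)
    {e : ℤ} (he : e = 1 ∨ e = -1) (G : ℕ → ℝ → ℝ → ℝ)
    (hsmall : ∀ j z τ, z < 10 * k * Real.log 2 → 2 ≤ G j z τ)
    (hstep : ∀ j z z' τ, z ≤ z' → z' ≤ z + 1 / 2 ^ k → G j z' τ ≤ G (j + 1) z τ)
    (hbase : ∀ y t, 1 ≤ y → F e (A t) y ≤ y / 2 * G 0 (Real.log y) t) (j : ℕ) :
    ∀ y t : ℝ, 1 ≤ y → F e (A t) y ≤ y / 2 * (QS k j (fun s => G j
      (Real.log y + ((j * (k - k / 20) : ℕ) : ℝ) * Real.log 3 - s * Real.log 2) (t - s)) +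
      10 * j / (k : ℝ) ^ 7) := by
  induction j with
  | zero =>
    intro y t hy
    refine (hbase y t hy).trans (le_of_eq ?_)
    rw [QS_zero]
    simp
  | succ j ih =>
    intro y t hy
    have hbig := hN.big
    have hk : (2000 : ℝ) ≤ k := by exact_mod_cast hbig
    rcases lt_or_ge y (2 ^ (10 * k)) with hcase | hcase
    · -- small levels
      have h1 : QS k (j + 1) (fun _ => (2 : ℝ)) ≤ QS k (j + 1) (fun s => G (j + 1)
          (Real.log y + (((j + 1) * (k - k / 20) : ℕ) : ℝ) * Real.log 3 - s * Real.log 2)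
          (t - s)) := by
        apply QS_mono
        intro s hs
        apply hsmall
        have h2 : Real.log y < 10 * k * Real.log 2 := by
          have h3 := Real.log_lt_log (by linarith) hcase
          rw [Real.log_pow] at h3
          push_cast at h3
          exact h3
        have h3 := three_two_le hs
        have h4 : (3 : ℝ) ^ ((j + 1) * (k - k / 20)) ≤ 2 ^ s := by
          refine h3.trans ?_
          have h5 : (76 / 100 : ℝ) ^ ((j + 1) * (k - k / 20)) ≤ 1 :=
            pow_le_one₀ (by norm_num) (by norm_num)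
          have h6 : (0 : ℝ) < 2 ^ s := by positivity
          nlinarith
        have h5 := Real.log_le_log (by positivity) h4
        rw [Real.log_pow, Real.log_pow] at h5
        linarith
      rw [QS_const] at h1
      have h2 := P_good_pow hN (j + 1)
      have h3 := F_le he (A t) (by linarith : 0 ≤ y)
      have h4 : 2 ≤ QS k (j + 1) (fun s => G (j + 1)
          (Real.log y + (((j + 1) * (k - k / 20) : ℕ) : ℝ) * Real.log 3 - s * Real.log 2)
          (t - s)) + 10 * ((j + 1 : ℕ) : ℝ) / (k : ℝ) ^ 7 := by linarith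
      have h5 := mul_le_mul_of_nonneg_left h4 (by linarith : 0 ≤ y / 2)
      linarith
    · -- one stage
      have hy0 : 0 < y := by linarith
      obtain ⟨l, hl⟩ : ∃ l : ℕ, l = k - k / 20 := ⟨_, rfl⟩
      have h1 := fam_stage hN hM hMk hA hcase he t
        (fun v => QS k j (fun s => G j (Real.log (3 ^ (k - k / 20) * y / 2 ^ v.sum + 2 ^ k) +
          ((j * (k - k / 20) : ℕ) : ℝ) * Real.log 3 - s * Real.log 2) (t - v.sum - s)) +
          10 * j / (k : ℝ) ^ 7)
        (fun v hv => by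
          have h2 : (1 : ℝ) ≤ 3 ^ (k - k / 20) * y / 2 ^ v.sum + 2 ^ k := by
            have h3 : (1 : ℝ) ≤ 2 ^ k := one_le_pow₀ (by norm_num)
            have h4 : 0 ≤ 3 ^ (k - k / 20) * y / 2 ^ v.sum := by positivity
            linarith
          refine (ih _ (t - v.sum) h2).trans (le_of_eq ?_)
          ring)
      refine h1.trans ?_
      have h2 : ∑ v ∈ goodV (II k) k (k - k / 20), (1 / 2 : ℝ) ^ v.sum *
          (QS k j (fun s => G j (Real.log (3 ^ (k - k / 20) * y / 2 ^ v.sum + 2 ^ k) +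
          ((j * (k - k / 20) : ℕ) : ℝ) * Real.log 3 - s * Real.log 2) (t - v.sum - s)) +
          10 * j / (k : ℝ) ^ 7) ≤ QS k (j + 1) (fun s => G (j + 1)
          (Real.log y + (((j + 1) * (k - k / 20) : ℕ) : ℝ) * Real.log 3 - s * Real.log 2)
          (t - s)) + 10 * j / (k : ℝ) ^ 7 := by
        have h3 : (0 : ℝ) ≤ 10 * j / (k : ℝ) ^ 7 := by positivity
        have h4 : P (goodV (II k) k (k - k / 20)) * (10 * j / (k : ℝ) ^ 7) ≤
            1 * (10 * j / (k : ℝ) ^ 7) :=
          mul_le_mul_of_nonneg_right (P_good_le_one k _) h3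
        rw [one_mul] at h4
        have h5 : ∑ v ∈ goodV (II k) k (k - k / 20), (1 / 2 : ℝ) ^ v.sum *
            QS k j (fun s => G j (Real.log (3 ^ (k - k / 20) * y / 2 ^ v.sum + 2 ^ k) +
            ((j * (k - k / 20) : ℕ) : ℝ) * Real.log 3 - s * Real.log 2) (t - v.sum - s)) ≤
            QS k (j + 1) (fun s => G (j + 1)
            (Real.log y + (((j + 1) * (k - k / 20) : ℕ) : ℝ) * Real.log 3 - s * Real.log 2)
            (t - s)) := by
          rw [QS_succ]
          apply sum_le_sum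
          intro v hv
          apply mul_le_mul_of_nonneg_left _ (by positivity)
          apply QS_mono
          intro s _
          obtain ⟨h6, h7⟩ := log_next (by omega : 1 ≤ k) hcase (goodV_bounds hv).2.1
          have h8 : t - ((s + v.sum : ℕ) : ℝ) = t - v.sum - s := by push_cast; ring
          have e1 : (((j + 1) * (k - k / 20) : ℕ) : ℝ) =
              ((j * (k - k / 20) : ℕ) : ℝ) + ((k - k / 20 : ℕ) : ℝ) := by
            rw [← Nat.cast_add]
            congr 1
            ring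
          have e2 : ((s + v.sum : ℕ) : ℝ) = s + (v.sum : ℝ) := Nat.cast_add _ _
          rw [h8, e1, e2]
          apply hstep
          · linarith
          · linarith
        calc ∑ v ∈ goodV (II k) k (k - k / 20), (1 / 2 : ℝ) ^ v.sum *
            (QS k j (fun s => G j (Real.log (3 ^ (k - k / 20) * y / 2 ^ v.sum + 2 ^ k) +
            ((j * (k - k / 20) : ℕ) : ℝ) * Real.log 3 - s * Real.log 2) (t - v.sum - s)) +
            10 * j / (k : ℝ) ^ 7) = ∑ v ∈ goodV (II k) k (k - k / 20), (1 / 2 : ℝ) ^ v.sum *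
            QS k j (fun s => G j (Real.log (3 ^ (k - k / 20) * y / 2 ^ v.sum + 2 ^ k) +
            ((j * (k - k / 20) : ℕ) : ℝ) * Real.log 3 - s * Real.log 2) (t - v.sum - s)) +
            P (goodV (II k) k (k - k / 20)) * (10 * j / (k : ℝ) ^ 7) := by
              unfold P
              rw [sum_mul, ← sum_add_distrib]
              apply sum_congr rfl
              intro v _
              ring
          _ ≤ _ := add_le_add h5 h4
      have h3 := mul_le_mul_of_nonneg_left h2 (by positivity : 0 ≤ y / 2)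
      have h4 : y / 2 * (QS k (j + 1) (fun s => G (j + 1)
          (Real.log y + (((j + 1) * (k - k / 20) : ℕ) : ℝ) * Real.log 3 - s * Real.log 2)
          (t - s)) + 10 * ((j + 1 : ℕ) : ℝ) / (k : ℝ) ^ 7) = y / 2 * (QS k (j + 1)
          (fun s => G (j + 1)
          (Real.log y + (((j + 1) * (k - k / 20) : ℕ) : ℝ) * Real.log 3 - s * Real.log 2)
          (t - s)) + 10 * j / (k : ℝ) ^ 7) + 5 * (y / (k : ℝ) ^ 7) := by
        push_cast
        ring
      rw [h4]
      linarith

end Pool.Agent.Collatz3.FW
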