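import Mathlib
import Pool.Agent.Collatz3.FWAll

set_option autoImplicit false

/-!
The law of large numbers for hitting times of the 3x+1 map.
-/

namespace Pool.Agent.Collatz3.FW

open Finset Filter Topology
open Pool.Agent.Collatz3.PD
open Pool.Agent.Helper14 (T)

/-- The 3x+1 map on the natural numbers. -/
def Tn (m : ℕ) : ℕ := if m % 2 = 0 then m / 2 else (3 * m + 1) / 2

theorem T_cast (n : ℕ) : T (n : ℤ) = (Tn n : ℤ) := by
  unfold T Tn
  rcases Nat.even_or_odd' n with ⟨m, hm | hm⟩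
  · rw [if_pos (by omega), if_pos (by omega)]
    omega
  · rw [if_neg (by omega), if_neg (by omega)]
    omega

theorem iter_cast (j n : ℕ) : T^[j] (n : ℤ) = (Tn^[j] n : ℤ) := by
  induction j generalizing n with
  | zero => rfl
  | succ j ih => rw [Function.iterate_succ_apply, Function.iterate_succ_apply, T_cast, ih]

/-- `k` is the first time at which the orbit of `n` hits `a`. -/
def FH (a n k : ℕ) : Prop := Tn^[k] n = a ∧ ∀ j < k, Tn^[j] n ≠ a

theorem FH_unique {a n k k' : ℕ} (h : FH a n k) (h' : FH a n k') : k = k' := by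
  rcases lt_trichotomy k k' with h1 | h1 | h1
  · exact absurd h.1 (h'.2 k h1)
  · exact h1
  · exact absurd h'.1 (h.2 k' h1)

theorem FH_shift {a n k j : ℕ} (h : FH a n k) (hj : j ≤ k) : FH a (Tn^[j] n) (k - j) := by
  refine ⟨?_, ?_⟩
  · rw [← Function.iterate_add_apply, Nat.sub_add_cancel hj]
    exact h.1
  · intro i hi
    rw [← Function.iterate_add_apply]
    exact h.2 _ (by omega)

theorem exists_hit_bound (a : ℕ) (M : ℝ) : ∃ C : ℕ, ∀ b k : ℕ, (b : ℝ) ≤ M → FH a b k → k ≤ C := by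
  classical
  refine ⟨(range (⌊M⌋₊ + 1)).sup fun b => if h : ∃ k, FH a b k then h.choose else 0, ?_⟩
  intro b k hb hk
  have h1 : b ∈ range (⌊M⌋₊ + 1) := by
    rw [mem_range]
    exact Nat.lt_succ_of_le (Nat.le_floor hb)
  have h2 := le_sup (f := fun b => if h : ∃ k, FH a b k then h.choose else 0) h1
  refine le_trans (le_of_eq ?_) h2
  have h3 : ∃ k, FH a b k := ⟨k, hk⟩
  rw [dif_pos h3]
  exact FH_unique hk h3.choose_spec

theorem rpow_gap {θ θ' : ℝ} (h : θ' < θ) (h' : 0 < θ') (w K : ℝ) :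
    ∀ᶠ L : ℝ in atTop, L ^ θ' + K ≤ (L - w) ^ θ := by
  have hθ0 : 0 < θ := h'.trans h
  have h1 : Tendsto (fun L : ℝ => L ^ (θ - θ')) atTop atTop := tendsto_rpow_atTop (by linarith)
  have h2 : Tendsto (fun L : ℝ => L ^ θ') atTop atTop := tendsto_rpow_atTop h'
  filter_upwards [h1.eventually_ge_atTop (2 * 2 ^ θ), h2.eventually_ge_atTop K,
    eventually_ge_atTop (2 * w), eventually_gt_atTop 0] with L h3 h4 h5 h6
  have h7 : (L / 2) ^ θ ≤ (L - w) ^ θ := Real.rpow_le_rpow (by linarith) (by linarith) hθ0.le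
  refine le_trans ?_ h7
  rw [Real.div_rpow h6.le (by norm_num), le_div_iff₀ (Real.rpow_pos_of_pos (by norm_num) _)]
  have h8 : L ^ θ = L ^ (θ - θ') * L ^ θ' := by
    rw [← Real.rpow_add h6]
    congr 1
    ring
  rw [h8]
  have h9 : 0 < L ^ θ' := Real.rpow_pos_of_pos h6 _
  have h10 : (0 : ℝ) < 2 ^ θ := Real.rpow_pos_of_pos (by norm_num) _
  calc (L ^ θ' + K) * 2 ^ θ ≤ (L ^ θ' + L ^ θ') * 2 ^ θ :=
        mul_le_mul_of_nonneg_right (by linarith) h10.le
    _ = (2 * 2 ^ θ) * L ^ θ' := by ring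
    _ ≤ L ^ (θ - θ') * L ^ θ' := mul_le_mul_of_nonneg_right h3 h9.le

/-- The integers with an atypical hitting time of `a`. -/
def Atyp (a : ℕ) (θ : ℝ) : Set ℤ := {z | ∃ k, FH a z.toNat k ∧
  Real.log (z.toNat : ℝ) ^ θ < |(k : ℝ) - gam * Real.log (z.toNat : ℝ)|}

theorem lln {a : ℕ} (θ : ℝ) (hθ : 1 / 2 < θ) (hθ1 : θ < 1) {ε : ℝ} (hε : 0 < ε) :
    ∀ᶠ X : ℝ in atTop, cN (Atyp a θ) X ≤ ε * X := by
  obtain ⟨θ', hθ'⟩ : ∃ θ' : ℝ, θ' = (θ + 1 / 2) / 2 := ⟨_, rfl⟩
  have hθ'1 : 1 / 2 < θ' := by rw [hθ']; linarith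
  have hθ'2 : θ' < θ := by rw [hθ']; linarith
  obtain ⟨M₁, hM₁, hup⟩ := passage_all hθ'1 (hθ'2.trans hθ1)
  obtain ⟨M₂, hM₂, hlow⟩ := passage_low_all hθ'1 (hθ'2.trans hθ1)
  -- the constants
  obtain ⟨W, hW1, hW⟩ : ∃ W : ℝ, 1 ≤ W ∧ 1 / W ≤ ε / 8 := by
    refine ⟨max 1 (8 / ε), le_max_left _ _, ?_⟩
    rw [div_le_iff₀ (by positivity)]
    have h1 : 8 / ε ≤ max 1 (8 / ε) := le_max_right _ _
    have h2 : ε / 8 * (8 / ε) = 1 := by field_simp
    calc (1 : ℝ) = ε / 8 * (8 / ε) := h2.symm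
      _ ≤ ε / 8 * max 1 (8 / ε) := mul_le_mul_of_nonneg_left h1 (by positivity)
  obtain ⟨I, hI⟩ : ∃ I : ℕ, 1 / (2 : ℝ) ^ I ≤ ε / 8 := by
    obtain ⟨I, hI⟩ := exists_pow_lt_of_lt_one (by positivity : 0 < ε / 8)
      (by norm_num : (1 / 2 : ℝ) < 1)
    refine ⟨I, ?_⟩
    rw [one_div, ← inv_pow, ← one_div]
    exact hI.le
  obtain ⟨M, hMM₁, hMM₂, hMa, hMlog⟩ : ∃ M : ℝ, M₁ ≤ M ∧ M₂ ≤ M ∧ (a : ℝ) ≤ M ∧
      1 / Real.log M ^ 5 ≤ ε / 16 := by
    have h1 : Tendsto (fun M : ℝ => 1 / Real.log M ^ 5) atTop (𝓝 0) := by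
      apply Tendsto.const_div_atTop
      exact (tendsto_pow_atTop (by norm_num)).comp Real.tendsto_log_atTop
    have h2 := h1.eventually_le_const (by positivity : 0 < ε / 16)
    obtain ⟨M, hM⟩ := (h2.and ((eventually_ge_atTop M₁).and ((eventually_ge_atTop M₂).and
      (eventually_ge_atTop (a : ℝ))))).exists
    exact ⟨M, hM.2.1, hM.2.2.1, hM.2.2.2, hM.1⟩
  have hM1 : 1 < M := by
    have : (1 : ℝ) < 2 ^ 10 := by norm_num
    linarith
  obtain ⟨C, hC⟩ := exists_hit_bound a M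
  obtain ⟨K, hK⟩ : ∃ K : ℝ, K = gam * Real.log W + C + 1 + 2 * gam * Real.log M + gam * I :=
    ⟨_, rfl⟩
  have hgap := Real.tendsto_log_atTop.eventually
    (rpow_gap hθ'2 (by linarith) (Real.log W) K)
  have hlin : ∀ᶠ X : ℝ in atTop, I * M ≤ ε / 8 * X := by
    have h1 : Tendsto (fun X : ℝ => ε / 8 * X) atTop atTop :=
      tendsto_id.const_mul_atTop (by positivity)
    exact h1.eventually_ge_atTop _
  have hlogW : ∀ᶠ X : ℝ in atTop, Real.log W ≤ Real.log X :=
    Real.tendsto_log_atTop.eventually_ge_atTop _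
  filter_upwards [hgap, hlin, eventually_ge_atTop 1, hlogW] with X h1 h2 hX1 h3
  have hX0 : 0 < X := by linarith
  have hg := gam_ge
  have hW0 : 0 ≤ Real.log W := Real.log_nonneg hW1
  have hM0 : 0 < Real.log M := Real.log_pos hM1
  have hL0 : 0 ≤ Real.log X := Real.log_nonneg hX1
  obtain ⟨t, ht⟩ : ∃ t, t = tau θ' (Real.log X) := ⟨_, rfl⟩
  obtain ⟨t', ht'⟩ : ∃ t', t' = gam * Real.log X - Real.log X ^ θ' - 2 * gam * Real.log M -
    gam * I := ⟨_, rfl⟩
  have hu := hup M X t hMM₁ hX1 ht.ge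
  have hl := hlow M X t' I hMM₂ hX1 ht'.le
  have h4 : cN (Atyp a θ) X ≤ cN Set.univ (X / W) + (cN (Bd M t) X + cN (Bd M t')ᶜ X) := by
    have h5 : cN (Atyp a θ) X ≤ cN {z : ℤ | (z : ℝ) ≤ X / W} X +
        cN (Atyp a θ ∩ {z : ℤ | X / W < (z : ℝ)}) X := by
      apply cN_union
      intro n _ _ h6
      rcases le_or_gt (n : ℝ) (X / W) with h7 | h7
      · left
        simpa using h7
      · right
        exact ⟨h6, by simpa using h7⟩
    have h6 : cN {z : ℤ | (z : ℝ) ≤ X / W} X ≤ cN Set.univ (X / W) := by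
      apply cN_mono
      intro n _ _ h7
      refine ⟨?_, Set.mem_univ _⟩
      simpa using h7
    have h7 : cN (Atyp a θ ∩ {z : ℤ | X / W < (z : ℝ)}) X ≤ cN (Bd M t) X + cN (Bd M t')ᶜ X := by
      apply cN_union
      rintro n hn1 hnX ⟨⟨k, hk, hdev⟩, hnW⟩
      rw [Int.toNat_natCast] at hk hdev
      have hnW' : X / W < (n : ℝ) := by simpa using hnW
      have hn0 : (1 : ℝ) ≤ n := by exact_mod_cast hn1
      have h8 : Real.log X - Real.log W ≤ Real.log n := by
        have h9 := Real.log_le_log (by positivity) hnW'.le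
        rwa [Real.log_div hX0.ne' (by positivity)] at h9
      have h9 : Real.log n ≤ Real.log X := Real.log_le_log (by linarith) hnX
      have h10 : Real.log X ^ θ' + K ≤ Real.log n ^ θ :=
        h1.trans (Real.rpow_le_rpow (by linarith) h8 (by linarith))
      have hI0 : (0 : ℝ) ≤ I := Nat.cast_nonneg _
      have hC0 : (0 : ℝ) ≤ C := Nat.cast_nonneg _
      have hgW : 0 ≤ gam * Real.log W := by positivity
      have hgM : 0 ≤ 2 * gam * Real.log M := by positivity
      have hgI : 0 ≤ gam * I := by positivity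
      rcases lt_abs.1 hdev with h11 | h11
      · left
        intro j hj
        rw [iter_cast]
        by_contra hcon
        rw [not_lt] at hcon
        have hcon' : ((Tn^[j] n : ℕ) : ℝ) ≤ M := by
          simpa using hcon
        have h12 : (k : ℝ) ≤ j + C := by
          rcases le_or_gt j k with h13 | h13
          · have h14 := hC _ _ hcon' (FH_shift hk h13)
            exact_mod_cast (by omega : k ≤ j + C)
          · exact_mod_cast (by omega : k ≤ j + C)
        have h13 : gam * (Real.log X - Real.log W) ≤ gam * Real.log n :=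
          mul_le_mul_of_nonneg_left h8 (by linarith)
        rw [ht] at hj
        unfold tau at hj
        linarith
      · right
        intro hcon
        have h12 : (k : ℝ) ≤ t' := by
          have h13 : gam * Real.log n ≤ gam * Real.log X :=
            mul_le_mul_of_nonneg_left h9 (by linarith)
          rw [ht']
          linarith
        have h13 := hcon k h12
        rw [iter_cast, hk.1] at h13
        have h14 : M < (a : ℝ) := by simpa using h13
        linarith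
    linarith
  have h5 := cN_le Set.univ (by positivity : 0 ≤ X / W)
  have h6 : X / W ≤ ε / 8 * X := by
    calc X / W = 1 / W * X := by ring
      _ ≤ ε / 8 * X := mul_le_mul_of_nonneg_right hW hX0.le
  have h7 : X / 2 ^ I ≤ ε / 8 * X := by
    calc X / 2 ^ I = 1 / 2 ^ I * X := by ring
      _ ≤ ε / 8 * X := mul_le_mul_of_nonneg_right hI hX0.le
  have h8 : X / Real.log M ^ 5 ≤ ε / 16 * X := by
    calc X / Real.log M ^ 5 = 1 / Real.log M ^ 5 * X := by ring
      _ ≤ ε / 16 * X := mul_le_mul_of_nonneg_right hMlog hX0.le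
  have h9 : 0 < ε * X := by positivity
  linarith

/-- The integers with an early passage below `M`. -/
def Early (M θ : ℝ) : Set ℤ := {z | ∃ k : ℕ, (k : ℝ) ≤ gam * Real.log (z.toNat : ℝ) -
  Real.log (z.toNat : ℝ) ^ θ ∧ ((Tn^[k] z.toNat : ℕ) : ℝ) ≤ M}

theorem early (M' θ : ℝ) (hθ : 1 / 2 < θ) (hθ1 : θ < 1) {ε : ℝ} (hε : 0 < ε) :
    ∀ᶠ X : ℝ in atTop, cN (Early M' θ) X ≤ ε * X := by
  obtain ⟨θ', hθ'⟩ : ∃ θ' : ℝ, θ' = (θ + 1 / 2) / 2 := ⟨_, rfl⟩
  have hθ'1 : 1 / 2 < θ' := by rw [hθ']; linarith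
  have hθ'2 : θ' < θ := by rw [hθ']; linarith
  obtain ⟨M₂, hM₂, hlow⟩ := passage_low_all hθ'1 (hθ'2.trans hθ1)
  obtain ⟨W, hW1, hW⟩ : ∃ W : ℝ, 1 ≤ W ∧ 1 / W ≤ ε / 8 := by
    refine ⟨max 1 (8 / ε), le_max_left _ _, ?_⟩
    rw [div_le_iff₀ (by positivity)]
    have h1 : 8 / ε ≤ max 1 (8 / ε) := le_max_right _ _
    have h2 : ε / 8 * (8 / ε) = 1 := by field_simp
    calc (1 : ℝ) = ε / 8 * (8 / ε) := h2.symm
      _ ≤ ε / 8 * max 1 (8 / ε) := mul_le_mul_of_nonneg_left h1 (by positivity)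
  obtain ⟨I, hI⟩ : ∃ I : ℕ, 1 / (2 : ℝ) ^ I ≤ ε / 8 := by
    obtain ⟨I, hI⟩ := exists_pow_lt_of_lt_one (by positivity : 0 < ε / 8)
      (by norm_num : (1 / 2 : ℝ) < 1)
    refine ⟨I, ?_⟩
    rw [one_div, ← inv_pow, ← one_div]
    exact hI.le
  obtain ⟨M, hMM₂, hMa, hMlog⟩ : ∃ M : ℝ, M₂ ≤ M ∧ M' ≤ M ∧
      1 / Real.log M ^ 5 ≤ ε / 16 := by
    have h1 : Tendsto (fun M : ℝ => 1 / Real.log M ^ 5) atTop (𝓝 0) := by
      apply Tendsto.const_div_atTop
      exact (tendsto_pow_atTop (by norm_num)).comp Real.tendsto_log_atTop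
    have h2 := h1.eventually_le_const (by positivity : 0 < ε / 16)
    obtain ⟨M, hM⟩ := (h2.and ((eventually_ge_atTop M₂).and (eventually_ge_atTop M'))).exists
    exact ⟨M, hM.2.1, hM.2.2, hM.1⟩
  have hM1 : 1 < M := by
    have : (1 : ℝ) < 2 ^ 10 := by norm_num
    linarith
  obtain ⟨K, hK⟩ : ∃ K : ℝ, K = 2 * gam * Real.log M + gam * I := ⟨_, rfl⟩
  have hgap := Real.tendsto_log_atTop.eventually
    (rpow_gap hθ'2 (by linarith) (Real.log W) K)
  have hlin : ∀ᶠ X : ℝ in atTop, I * M ≤ ε / 8 * X := by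
    have h1 : Tendsto (fun X : ℝ => ε / 8 * X) atTop atTop :=
      tendsto_id.const_mul_atTop (by positivity)
    exact h1.eventually_ge_atTop _
  have hlogW : ∀ᶠ X : ℝ in atTop, Real.log W ≤ Real.log X :=
    Real.tendsto_log_atTop.eventually_ge_atTop _
  filter_upwards [hgap, hlin, eventually_ge_atTop 1, hlogW] with X h1 h2 hX1 h3
  have hX0 : 0 < X := by linarith
  have hg := gam_ge
  have hL0 : 0 ≤ Real.log X := Real.log_nonneg hX1
  obtain ⟨t', ht'⟩ : ∃ t', t' = gam * Real.log X - Real.log X ^ θ' - 2 * gam * Real.log M -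
    gam * I := ⟨_, rfl⟩
  have hl := hlow M X t' I hMM₂ hX1 ht'.le
  have h4 : cN (Early M' θ) X ≤ cN Set.univ (X / W) + cN (Bd M t')ᶜ X := by
    have h5 : cN (Early M' θ) X ≤ cN {z : ℤ | (z : ℝ) ≤ X / W} X + cN (Bd M t')ᶜ X := by
      apply cN_union
      intro n hn1 hnX h6
      rcases le_or_gt (n : ℝ) (X / W) with h7 | h7
      · left
        simpa using h7
      · right
        obtain ⟨k, hk, hkM⟩ := h6
        rw [Int.toNat_natCast] at hk hkM
        have hn0 : (1 : ℝ) ≤ n := by exact_mod_cast hn1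
        have h8 : Real.log X - Real.log W ≤ Real.log n := by
          have h9 := Real.log_le_log (by positivity) h7.le
          rwa [Real.log_div hX0.ne' (by positivity)] at h9
        have h9 : Real.log n ≤ Real.log X := Real.log_le_log (by linarith) hnX
        have h10 : Real.log X ^ θ' + K ≤ Real.log n ^ θ :=
          h1.trans (Real.rpow_le_rpow (by linarith) h8 (by linarith))
        intro hcon
        have h12 : (k : ℝ) ≤ t' := by
          have h13 : gam * Real.log n ≤ gam * Real.log X :=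
            mul_le_mul_of_nonneg_left h9 (by linarith)
          rw [ht']
          linarith
        have h13 := hcon k h12
        rw [iter_cast] at h13
        have h14 : M < ((Tn^[k] n : ℕ) : ℝ) := by simpa using h13
        linarith
    have h6 : cN {z : ℤ | (z : ℝ) ≤ X / W} X ≤ cN Set.univ (X / W) := by
      apply cN_mono
      intro n _ _ h7
      refine ⟨?_, Set.mem_univ _⟩
      simpa using h7
    linarith
  have h5 := cN_le Set.univ (by positivity : 0 ≤ X / W)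
  have h6 : X / W ≤ ε / 8 * X := by
    calc X / W = 1 / W * X := by ring
      _ ≤ ε / 8 * X := mul_le_mul_of_nonneg_right hW hX0.le
  have h7 : X / 2 ^ I ≤ ε / 8 * X := by
    calc X / 2 ^ I = 1 / 2 ^ I * X := by ring
      _ ≤ ε / 8 * X := mul_le_mul_of_nonneg_right hI hX0.le
  have h8 : X / Real.log M ^ 5 ≤ ε / 16 * X := by
    calc X / Real.log M ^ 5 = 1 / Real.log M ^ 5 * X := by ring
      _ ≤ ε / 16 * X := mul_le_mul_of_nonneg_right hMlog hX0.le
  have h9 : 0 < ε * X := by positivity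
  linarith

end Pool.Agent.Collatz3.FW
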