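import Mathlib
import Pool.Agent.Collatz3.FWLln

set_option autoImplicit false

/-!
The normal order of the hitting times: final form.
-/

namespace Pool.Agent.Collatz3.FW

open Filter Topology
open Pool.Agent.Helper14 (T Back)

theorem gam_eq : ((1 / 2) * Real.log (4 / 3))⁻¹ = gam := by
  unfold gam
  have := log_four_thirds_pos
  field_simp

theorem tendsto_of_cN {A : Set ℤ} (h : ∀ ε : ℝ, 0 < ε → ∀ᶠ X : ℝ in atTop, cN A X ≤ ε * X)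
    {f : ℕ → ℝ} (hf : ∀ x : ℕ, f x = cN A x) : Tendsto (fun x : ℕ => f x / x) atTop (𝓝 0) := by
  rw [Metric.tendsto_atTop]
  intro ε hε
  have h1 := tendsto_natCast_atTop_atTop.eventually (h (ε / 2) (by positivity))
  obtain ⟨N, hN⟩ := eventually_atTop.1 (h1.and (eventually_ge_atTop 1))
  refine ⟨N, fun x hx => ?_⟩
  obtain ⟨h2, h3⟩ := hN x hx
  have hx0 : (0 : ℝ) < x := by exact_mod_cast h3
  rw [Real.dist_eq, sub_zero, hf, abs_of_nonneg (by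
    have := cN_nonneg A x
    positivity), div_lt_iff₀ hx0]
  nlinarith

theorem domain_density : ∃ c : ℝ, 0 < c ∧ ∀ a : ℕ, 0 < a → ¬ 3 ∣ a → ∀ x : ℕ, a ≤ x →
      c * ((x : ℝ) / a) ≤ ({n : ℕ | 1 ≤ n ∧ n ≤ x ∧ ∃ k : ℕ, Tn^[k] n = a}.ncard : ℝ) := by
  obtain ⟨c, hc, h⟩ := Pool.Agent.Collatz3.PD.back_density
  refine ⟨c, hc, fun a ha h3 x hx => ?_⟩
  have ha0 : (0 : ℝ) < a := by exact_mod_cast ha
  have h1 := h a (by exact_mod_cast h3) ((x : ℝ) / a) (by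
    rw [le_div_iff₀ ha0, one_mul]
    exact_mod_cast hx)
  refine h1.trans ?_
  have h2 : (x : ℝ) / a * |((a : ℤ) : ℝ)| = x := by
    rw [Int.cast_natCast, abs_of_pos ha0]
    field_simp
  rw [h2]
  have h4 : Back (a : ℤ) (x : ℝ) ⊆
      (fun n : ℕ => (n : ℤ)) '' {n : ℕ | 1 ≤ n ∧ n ≤ x ∧ ∃ k : ℕ, Tn^[k] n = a} := by
    rintro b ⟨hb1, hb2, k, hk⟩
    have hb0 : 0 < b := by
      have : (0 : ℤ) < a := by exact_mod_cast ha
      exact (mul_pos_iff_of_pos_right this).1 hb1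
    have hbn : (b.toNat : ℤ) = b := Int.toNat_of_nonneg hb0.le
    refine ⟨b.toNat, ⟨by omega, ?_, k, ?_⟩, hbn⟩
    · rw [abs_of_pos (by exact_mod_cast hb0)] at hb2
      have h5 : b ≤ (x : ℤ) := by exact_mod_cast hb2
      omega
    · rw [← hbn, iter_cast] at hk
      exact_mod_cast hk
  have hfin : {n : ℕ | 1 ≤ n ∧ n ≤ x ∧ ∃ k : ℕ, Tn^[k] n = a}.Finite := by
    refine (Set.finite_Icc 1 x).subset ?_
    rintro n ⟨h1, h2, -⟩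
    exact ⟨h1, h2⟩
  have h5 := Set.ncard_le_ncard h4 (hfin.image _)
  have h6 := h5.trans (Set.ncard_image_le hfin)
  exact_mod_cast h6

theorem normal_order :
    (∃ c : ℝ, 0 < c ∧ ∀ a : ℕ, 0 < a → ¬ 3 ∣ a → ∀ x : ℕ, a ≤ x →
      c * ((x : ℝ) / a) ≤ ({n : ℕ | 1 ≤ n ∧ n ≤ x ∧ ∃ k : ℕ, Tn^[k] n = a}.ncard : ℝ)) ∧
    (∀ a : ℕ, ∀ θ : ℝ, 1 / 2 < θ → θ < 1 →
      Tendsto (fun x : ℕ => ({n : ℕ | 1 ≤ n ∧ n ≤ x ∧ ∃ k : ℕ, Tn^[k] n = a ∧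
        (∀ j < k, Tn^[j] n ≠ a) ∧ Real.log (n : ℝ) ^ θ <
          |(k : ℝ) - ((1 / 2) * Real.log (4 / 3))⁻¹ * Real.log (n : ℝ)|}.ncard : ℝ) / x)
        atTop (𝓝 0)) := by
  rw [gam_eq]
  refine ⟨domain_density, fun a θ h1 h2 => ?_⟩
  refine tendsto_of_cN (A := Atyp a θ) (fun ε hε => lln θ h1 h2 hε) (fun x => ?_)
  unfold cN Atyp FH
  congr 2
  ext n
  simp only [Set.mem_ofPred_eq, Int.toNat_natCast, Nat.cast_le, and_assoc]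

theorem passage_times (θ : ℝ) (h1 : 1 / 2 < θ) (h2 : θ < 1) :
    (∃ M₀ : ℝ, 1 < M₀ ∧ ∀ M : ℝ, M₀ ≤ M → ∀ x : ℕ, 1 ≤ x →
      ({n : ℕ | 1 ≤ n ∧ n ≤ x ∧ ∀ k : ℕ,
        (k : ℝ) ≤ ((1 / 2) * Real.log (4 / 3))⁻¹ * Real.log (x : ℝ) + Real.log (x : ℝ) ^ θ →
        M < ((Tn^[k] n : ℕ) : ℝ)}.ncard : ℝ) ≤ 2 * x / Real.log M ^ 5) ∧
    (∀ M : ℝ,
      Tendsto (fun x : ℕ => ({n : ℕ | 1 ≤ n ∧ n ≤ x ∧ ∃ k : ℕ,
        (k : ℝ) ≤ ((1 / 2) * Real.log (4 / 3))⁻¹ * Real.log (n : ℝ) - Real.log (n : ℝ) ^ θ ∧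
        ((Tn^[k] n : ℕ) : ℝ) ≤ M}.ncard : ℝ) / x) atTop (𝓝 0)) := by
  rw [gam_eq]
  refine ⟨?_, fun M => ?_⟩
  · obtain ⟨M₀, hM₀, h⟩ := passage_all h1 h2
    refine ⟨M₀, ?_, fun M hM x hx => ?_⟩
    · have : (1 : ℝ) < 2 ^ 10 := by norm_num
      linarith
    · have h3 := h M x (tau θ (Real.log x)) hM (by exact_mod_cast hx) le_rfl
      rw [← mul_div_assoc] at h3
      refine le_trans (le_of_eq ?_) h3
      unfold cN Bd tau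
      congr 2
      ext n
      simp only [Set.mem_ofPred_eq, Nat.cast_le, iter_cast, Int.cast_natCast, Nat.abs_cast]
  · refine tendsto_of_cN (A := Early M θ) (fun ε hε => early M θ h1 h2 hε) (fun x => ?_)
    unfold cN Early
    congr 2
    ext n
    simp only [Set.mem_ofPred_eq, Int.toNat_natCast, Nat.cast_le]

end Pool.Agent.Collatz3.FW
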