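import Mathlib
import Pool.Agent.Collatz3.FWCltStage
import Pool.Agent.Collatz3.FWCltProb
import Pool.Agent.Collatz3.FWFin
import Pool.Agent.Collatz3.DNPred

set_option autoImplicit false

/-!
Central limit theorem for hitting times: the two families of sets.
-/

namespace Pool.Agent.Collatz3.FW

open Finset Filter Topology
open Pool.Agent.Collatz3.PD
open Pool.Agent.Collatz3.Mix (words mem_words)
open Pool.Agent.Collatz3.DN (Dens dens_exists Reach)
open Pool.Agent.Helper14 (T)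

/-- The integers that hit `S` up to time `t`. -/
def Hs (S : Set ℤ) (t : ℝ) : Set ℤ := {n | ∃ k : ℕ, (k : ℝ) ≤ t ∧ T^[k] n ∈ S}

/-- The integers that hit `S`, but not up to time `t`. -/
def Ls (S : Set ℤ) (t : ℝ) : Set ℤ :=
  {n | (∃ k : ℕ, T^[k] n ∈ S) ∧ ∀ k : ℕ, (k : ℝ) ≤ t → T^[k] n ∉ S}

theorem no_early {S : Set ℤ} {M : ℝ} (hS : ∀ c ∈ S, |(c : ℝ)| ≤ M) {m : ℤ} {s : ℕ}
    (hm : M * 2 ^ s < |(m : ℝ)|) {k : ℕ} (hk : k ≤ s) : T^[k] m ∉ S := by
  intro h
  have h1 := abs_iter_ge k m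
  have h2 := hS _ h
  have h3 : (2 : ℝ) ^ k ≤ 2 ^ s := pow_le_pow_right₀ (by norm_num) hk
  have h4 : (0 : ℝ) < 2 ^ k := by positivity
  have h5 : (0 : ℝ) ≤ |((T^[k] m : ℤ) : ℝ)| := abs_nonneg _
  have h6 : 2 ^ k * |((T^[k] m : ℤ) : ℝ)| ≤ 2 ^ s * M :=
    mul_le_mul h3 h2 h5 (by positivity)
  linarith

theorem fam_Hs {S : Set ℤ} {M : ℝ} (hS : ∀ c ∈ S, |(c : ℝ)| ≤ M) : Fam M (Hs S) := by
  constructor
  · rintro m m' s t hm ⟨k, hk, hkS⟩ hM
    have h1 : s < k := by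
      by_contra hcon
      exact no_early hS hM (not_lt.1 hcon) hkS
    refine ⟨k - s, ?_, ?_⟩
    · rw [Nat.cast_sub h1.le]
      linarith
    · rw [← hm, ← Function.iterate_add_apply, Nat.sub_add_cancel h1.le]
      exact hkS
  · rintro m m' s t hm ⟨k, hk, hkS⟩ -
    refine ⟨k + s, ?_, ?_⟩
    · push_cast
      linarith
    · rw [Function.iterate_add_apply, hm]
      exact hkS

theorem fam_Ls {S : Set ℤ} {M : ℝ} (hS : ∀ c ∈ S, |(c : ℝ)| ≤ M) : Fam M (Ls S) := by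
  constructor
  · rintro m m' s t hm ⟨⟨k, hkS⟩, hlate⟩ hM
    have h1 : s < k := by
      by_contra hcon
      exact no_early hS hM (not_lt.1 hcon) hkS
    refine ⟨⟨k - s, ?_⟩, fun j hj => ?_⟩
    · rw [← hm, ← Function.iterate_add_apply, Nat.sub_add_cancel h1.le]
      exact hkS
    · rw [← hm, ← Function.iterate_add_apply]
      apply hlate
      push_cast
      linarith
  · rintro m m' s t hm ⟨⟨k, hkS⟩, hlate⟩ hM
    refine ⟨⟨k + s, ?_⟩, fun j hj => ?_⟩
    · rw [Function.iterate_add_apply, hm]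
      exact hkS
    · rcases le_or_gt j s with h1 | h1
      · exact no_early hS hM h1
      · have h2 := hlate (j - s) (by
          rw [Nat.cast_sub h1.le]
          linarith)
        rw [← hm, ← Function.iterate_add_apply, Nat.sub_add_cancel h1.le] at h2
        exact h2

theorem Hs_subset {S : Set ℤ} {M : ℝ} (hS : ∀ c ∈ S, |(c : ℝ)| ≤ M) (t : ℝ) :
    Hs S t ⊆ (Bd M t)ᶜ := by
  rintro n ⟨k, hk, hkS⟩ h
  have h1 := h k hk
  have h2 := hS _ hkS
  linarith

theorem hit_bound (S : Set ℤ) (M : ℝ) : ∃ C : ℕ, ∀ m : ℤ, |(m : ℝ)| ≤ M →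
    (∃ k : ℕ, T^[k] m ∈ S) → ∃ k ≤ C, T^[k] m ∈ S := by
  classical
  have hfin : {m : ℤ | |(m : ℝ)| ≤ M}.Finite := by
    refine (Set.finite_Icc (-⌈M⌉) ⌈M⌉).subset ?_
    intro m hm
    rw [Set.mem_ofPred_eq, abs_le] at hm
    have h1 := Int.le_ceil M
    constructor
    · have h2 : ((-⌈M⌉ : ℤ) : ℝ) ≤ (m : ℝ) := by
        push_cast
        linarith
      exact_mod_cast h2
    · have h2 : (m : ℝ) ≤ ((⌈M⌉ : ℤ) : ℝ) := by linarith
      exact_mod_cast h2
  refine ⟨hfin.toFinset.sup fun m => if h : ∃ k, T^[k] m ∈ S then h.choose else 0, ?_⟩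
  intro m hm h
  refine ⟨h.choose, ?_, h.choose_spec⟩
  have h1 : m ∈ hfin.toFinset := by
    rw [Set.Finite.mem_toFinset]
    exact hm
  have h2 := le_sup (f := fun m => if h : ∃ k, T^[k] m ∈ S then h.choose else 0) h1
  simp only [dif_pos h] at h2
  exact h2

theorem Ls_subset {S : Set ℤ} {M : ℝ} {C : ℕ} (hC : ∀ m : ℤ, |(m : ℝ)| ≤ M →
    (∃ k : ℕ, T^[k] m ∈ S) → ∃ k ≤ C, T^[k] m ∈ S) {t t₁ : ℝ} (ht : t₁ + C ≤ t) :
    Ls S t ⊆ Bd M t₁ := by
  rintro n ⟨⟨k, hkS⟩, hlate⟩ j hj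
  by_contra hcon
  rw [not_lt] at hcon
  have hC0 : (0 : ℝ) ≤ C := Nat.cast_nonneg _
  rcases le_or_gt k j with h1 | h1
  · apply hlate k _ hkS
    have h2 : (k : ℝ) ≤ j := by exact_mod_cast h1
    linarith
  · obtain ⟨i, hi, hiS⟩ := hC _ hcon ⟨k - j, by
      rw [← Function.iterate_add_apply, Nat.sub_add_cancel h1.le]
      exact hkS⟩
    rw [← Function.iterate_add_apply] at hiS
    apply hlate _ _ hiS
    push_cast
    have h2 : (i : ℝ) ≤ C := by exact_mod_cast hi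
    linarith

/-- The density among the odd positive integers. -/
theorem F_dens {A : Set ℤ} {d : ℝ} (h : Dens 1 A d) {ε : ℝ} (hε : 0 < ε) :
    ∀ᶠ y : ℝ in atTop, F 1 A y ≤ y / 2 * (d + ε) := by
  have h1 := (h 2 1 (by norm_num)).eventually_le_const (by linarith : d < d + ε / 2)
  have h2 : Tendsto (fun y : ℝ => y / 2) atTop atTop := tendsto_id.atTop_div_const (by norm_num)
  filter_upwards [h2.eventually h1, eventually_ge_atTop (4 / ε), eventually_gt_atTop 1]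
    with y hy hy1 hy0
  have hy2 : 0 < y / 2 := by linarith
  rw [div_le_iff₀ hy2] at hy
  have h3 : F 1 A y ≤ (Set.ncard {m : ℕ | (m : ℝ) ≤ y / 2 ∧
      (1 : ℤ) * (((2 : ℕ) : ℤ) * m + ((1 : ℕ) : ℤ)) ∈ A} : ℝ) := by
    classical
    have hfin : {m : ℕ | (m : ℝ) ≤ y / 2 ∧
        (1 : ℤ) * (((2 : ℕ) : ℤ) * m + ((1 : ℕ) : ℤ)) ∈ A}.Finite := by
      refine (Set.finite_Iic ⌊y / 2⌋₊).subset ?_
      intro m hm
      exact Nat.le_floor hm.1
    have h4 : ((Od 1 y).filter fun n => n ∈ A : Finset ℤ) ⊆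
        hfin.toFinset.image (fun m : ℕ => (1 : ℤ) * (2 * m + 1)) := by
      intro n hn
      rw [mem_filter, mem_Od (Or.inl rfl)] at hn
      obtain ⟨⟨h5, h6, h7⟩, h8⟩ := hn
      rw [one_mul] at h6 h7
      rw [mem_image]
      refine ⟨(n / 2).toNat, ?_, ?_⟩
      · rw [Set.Finite.mem_toFinset]
        have h9 : (2 : ℤ) * (((n / 2).toNat : ℕ) : ℤ) + 1 = n := by omega
        refine ⟨?_, ?_⟩
        · have h10 : (2 : ℝ) * (((n / 2).toNat : ℕ) : ℝ) + 1 = n := by exact_mod_cast h9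
          linarith
        · push_cast
          rw [one_mul, h9]
          exact h8
      · omega
    unfold F
    rw [Set.ncard_eq_toFinset_card _ hfin]
    have h5 := (card_le_card h4).trans card_image_le
    have h6 : (((Od 1 y).filter fun n => n ∈ A).card : ℝ) ≤ (hfin.toFinset.card : ℝ) := by
      exact_mod_cast h5
    refine le_trans (le_of_eq ?_) h6
    congr!
  refine h3.trans (hy.trans ?_)
  rw [mul_comm]
  apply mul_le_mul_of_nonneg_left _ hy2.le
  linarith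

theorem exists_log_pow {ε : ℝ} (hε : 0 < ε) : ∃ M₁ : ℝ, ∀ M, M₁ ≤ M → 1 / Real.log M ^ 5 ≤ ε := by
  have h1 : Tendsto (fun M : ℝ => 1 / Real.log M ^ 5) atTop (𝓝 0) := by
    apply Tendsto.const_div_atTop
    exact (tendsto_pow_atTop (by norm_num)).comp Real.tendsto_log_atTop
  obtain ⟨M₁, hM₁⟩ := eventually_atTop.1 (h1.eventually_le_const hε)
  exact ⟨M₁, hM₁⟩

theorem base_H {θ : ℝ} (hθ : 1 / 2 < θ) (hθ1 : θ < 1) {S : Set ℤ} {M₀ : ℝ}
    (hS : ∀ c ∈ S, |(c : ℝ)| ≤ M₀) {d : ℝ} (hd : Dens 1 (Reach S) d) {ε : ℝ} (hε : 0 < ε) :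
    ∃ K₀ y₀ : ℝ, 0 ≤ K₀ ∧ 1 ≤ y₀ ∧ ∀ y τ, y₀ ≤ y → F 1 (Hs S τ) y ≤
      y / 2 * ((if gam * Real.log y - Real.log y ^ θ - K₀ ≤ τ then d else 0) + ε) := by
  obtain ⟨M₁, hM₁, h⟩ := passage_low hθ hθ1
  obtain ⟨M₂, hM₂⟩ := exists_log_pow (by positivity : 0 < ε / 2)
  obtain ⟨M, hM, hMM₀, hMM₂⟩ : ∃ M, M₁ ≤ M ∧ M₀ ≤ M ∧ M₂ ≤ M :=
    ⟨max M₁ (max M₀ M₂), le_max_left _ _, (le_max_left _ _).trans (le_max_right _ _),
      (le_max_right _ _).trans (le_max_right _ _)⟩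
  obtain ⟨y₁, hy₁⟩ := eventually_atTop.1 (F_dens hd hε)
  have hM0 : (1 : ℝ) ≤ M := by
    have : (1 : ℝ) ≤ 2 ^ 10 := by norm_num
    linarith
  refine ⟨2 * gam * Real.log M, max 1 y₁, ?_, le_max_left _ _, ?_⟩
  · have h1 := gam_ge
    have h2 := Real.log_nonneg hM0
    positivity
  · intro y τ hy
    have hy1 : 1 ≤ y := (le_max_left _ _).trans hy
    split_ifs with hc
    · refine le_trans (F_mono ?_ y) (hy₁ y ((le_max_right _ _).trans hy))
      rintro n ⟨k, -, hk⟩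
      exact ⟨k, hk⟩
    · rw [not_le] at hc
      have h1 := h M y τ 1 hM (Or.inl rfl) hy1 hc.le
      refine (F_mono (Hs_subset (fun c hc => (hS c hc).trans hMM₀) τ) y).trans (h1.trans ?_)
      have h2 := mul_le_mul_of_nonneg_left (hM₂ M hMM₂) (by linarith : 0 ≤ y)
      calc y / Real.log M ^ 5 = y * (1 / Real.log M ^ 5) := by ring
        _ ≤ y * (ε / 2) := h2
        _ = y / 2 * (0 + ε) := by ring

theorem base_L {θ : ℝ} (hθ : 1 / 2 < θ) (hθ1 : θ < 1) {S : Set ℤ}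
    {d : ℝ} (hd : Dens 1 (Reach S) d) {ε : ℝ} (hε : 0 < ε) :
    ∃ K₀ y₀ : ℝ, 0 ≤ K₀ ∧ 1 ≤ y₀ ∧ ∀ y τ, y₀ ≤ y → F 1 (Ls S τ) y ≤
      y / 2 * ((if τ ≤ gam * Real.log y + Real.log y ^ θ + K₀ then d else 0) + ε) := by
  obtain ⟨M₁, hM₁, h⟩ := passage hθ hθ1
  obtain ⟨M₂, hM₂⟩ := exists_log_pow (by positivity : 0 < ε / 2)
  obtain ⟨M, hM, hMM₂⟩ : ∃ M, M₁ ≤ M ∧ M₂ ≤ M :=
    ⟨max M₁ M₂, le_max_left _ _, le_max_right _ _⟩
  obtain ⟨y₁, hy₁⟩ := eventually_atTop.1 (F_dens hd hε)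
  obtain ⟨C, hC⟩ := hit_bound S M
  have hM0 : (1 : ℝ) ≤ M := by
    have : (1 : ℝ) ≤ 2 ^ 10 := by norm_num
    linarith
  refine ⟨C, max 1 y₁, Nat.cast_nonneg _, le_max_left _ _, ?_⟩
  · intro y τ hy
    have hy1 : 1 ≤ y := (le_max_left _ _).trans hy
    split_ifs with hc
    · refine le_trans (F_mono ?_ y) (hy₁ y ((le_max_right _ _).trans hy))
      rintro n ⟨hk, -⟩
      exact hk
    · rw [not_le] at hc
      have h1 := h M y (tau θ (Real.log y)) 1 hM (Or.inl rfl) hy1 le_rfl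
      refine (F_mono (Ls_subset hC (t₁ := tau θ (Real.log y)) (by unfold tau; linarith)) y).trans
        (h1.trans ?_)
      have h2 := mul_le_mul_of_nonneg_left (hM₂ M hMM₂) (by linarith : 0 ≤ y)
      calc y / Real.log M ^ 5 = y * (1 / Real.log M ^ 5) := by ring
        _ ≤ y * (ε / 2) := h2
        _ = y / 2 * (0 + ε) := by ring

open Classical in
/-- The bounds after many stages. -/
theorem core {θ : ℝ} {k : ℕ} (hN : NumT θ k) {M : ℝ} (hM : 1 < M)
    (hMk : M ^ 2 < 2 ^ (10 * k)) {A : ℝ → Set ℤ} (hA : Fam M A) (R : ℕ → ℝ → ℝ → Prop)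
    (hR : ∀ j z z' τ, z ≤ z' → z' ≤ z + 1 / 2 ^ k → R j z' τ → R (j + 1) z τ) {d ε Z : ℝ}
    (hd : 0 ≤ d) (hε : 0 ≤ ε) (hbase : ∀ y τ, 10 * k * Real.log 2 ≤ Real.log y →
      Real.log y ≤ Z → 1 ≤ y →
      F 1 (A τ) y ≤ y / 2 * ((if R 0 (Real.log y) τ then d else 0) + ε)) (J : ℕ) {X t : ℝ}
    (hX : 1 ≤ X) :
    F 1 (A t) X ≤ X / 2 * (
      2 * P ((words (II k) (J * (k - k / 20))).filter fun w => Real.log X +
        ((J * (k - k / 20) : ℕ) : ℝ) * Real.log 3 - w.sum * Real.log 2 < 10 * k * Real.log 2) +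
      2 * P ((words (II k) (J * (k - k / 20))).filter fun w => Z - J / 2 ^ k < Real.log X +
        ((J * (k - k / 20) : ℕ) : ℝ) * Real.log 3 - w.sum * Real.log 2) +
      d * P ((words (II k) (J * (k - k / 20))).filter fun w => R J (Real.log X +
        ((J * (k - k / 20) : ℕ) : ℝ) * Real.log 3 - w.sum * Real.log 2) (t - w.sum)) + ε +
      10 * J / (k : ℝ) ^ 7) := by
  obtain ⟨G, hG⟩ : ∃ G : ℕ → ℝ → ℝ → ℝ, G = fun (j : ℕ) z τ =>
    (if z < 10 * k * Real.log 2 then (2 : ℝ) else 0) + (if Z - j / 2 ^ k < z then 2 else 0) +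
    (if R j z τ then d else 0) + ε := ⟨_, rfl⟩
  have hG0 : ∀ j z τ, 0 ≤ G j z τ := by
    intro j z τ
    rw [hG]
    simp only
    split_ifs <;> linarith
  have h1 := multi hN hM hMk hA (Or.inl rfl) G (by
    intro j z τ hz
    rw [hG]
    simp only
    rw [if_pos hz]
    split_ifs <;> linarith) (by
    intro j z z' τ h1 h2
    rw [hG]
    simp only
    push_cast
    have e1 : (if z' < 10 * (k : ℝ) * Real.log 2 then (2 : ℝ) else 0) ≤
        (if z < 10 * k * Real.log 2 then 2 else 0) := by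
      by_cases h3 : z' < 10 * k * Real.log 2
      · rw [if_pos h3, if_pos (by linarith)]
      · rw [if_neg h3]
        split_ifs <;> norm_num
    have e2 : (if Z - (j : ℝ) / 2 ^ k < z' then (2 : ℝ) else 0) ≤
        (if Z - ((j : ℝ) + 1) / 2 ^ k < z then 2 else 0) := by
      by_cases h3 : Z - (j : ℝ) / 2 ^ k < z'
      · rw [if_pos h3, if_pos (by
          rw [add_div]
          linarith)]
      · rw [if_neg h3]
        split_ifs <;> norm_num
    have e3 : (if R j z' τ then d else 0) ≤ (if R (j + 1) z τ then d else 0) := by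
      by_cases h3 : R j z' τ
      · rw [if_pos h3, if_pos (hR j z z' τ h1 h2 h3)]
      · rw [if_neg h3]
        split_ifs
        · exact hd
        · exact le_rfl
    linarith) (by
    intro y τ hy
    rw [hG]
    simp only
    have hy0 : 0 < y := by linarith
    have hF := F_le (Or.inl rfl) (A τ) hy0.le
    have e3 : (0 : ℝ) ≤ (if R 0 (Real.log y) τ then d else 0) := by
      split_ifs
      · exact hd
      · exact le_rfl
    rcases lt_or_ge (Real.log y) (10 * k * Real.log 2) with h3 | h3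
    · rw [if_pos h3]
      have e2 : (0 : ℝ) ≤ (if Z - ((0 : ℕ) : ℝ) / 2 ^ k < Real.log y then (2 : ℝ) else 0) := by
        split_ifs <;> norm_num
      have := mul_nonneg (by linarith : 0 ≤ y / 2) (add_nonneg (add_nonneg e2 e3) hε)
      nlinarith
    · rcases lt_or_ge Z (Real.log y) with h4 | h4
      · have e1 : (0 : ℝ) ≤ (if Real.log y < 10 * k * Real.log 2 then (2 : ℝ) else 0) := by
          split_ifs <;> norm_num
        have e2 : (if Z - ((0 : ℕ) : ℝ) / 2 ^ k < Real.log y then (2 : ℝ) else 0) = 2 :=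
          if_pos (by simpa using h4)
        rw [e2]
        have := mul_nonneg (by linarith : 0 ≤ y / 2) (add_nonneg (add_nonneg e1 e3) hε)
        nlinarith
      · refine (hbase y τ h3 h4 hy).trans ?_
        apply mul_le_mul_of_nonneg_left _ (by linarith)
        have e1 : (0 : ℝ) ≤ (if Real.log y < 10 * k * Real.log 2 then (2 : ℝ) else 0) := by
          split_ifs <;> norm_num
        have e2 : (0 : ℝ) ≤ (if Z - ((0 : ℕ) : ℝ) / 2 ^ k < Real.log y then (2 : ℝ) else 0) := by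
          split_ifs <;> norm_num
        linarith) J X t hX
  refine h1.trans ?_
  apply mul_le_mul_of_nonneg_left _ (by linarith)
  apply add_le_add_left
  refine (QS_le_words k J _ (fun s => hG0 _ _ _)).trans ?_
  rw [hG]
  simp only
  have h2 : ∀ (Q : List ℕ → Prop) (_ : DecidablePred Q) (c : ℝ),
      ∑ w ∈ words (II k) (J * (k - k / 20)), (1 / 2 : ℝ) ^ w.sum * (if Q w then c else 0) =
      c * P ((words (II k) (J * (k - k / 20))).filter Q) := by
    intro Q _ c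
    unfold P
    rw [sum_filter, mul_sum]
    apply sum_congr rfl
    intro w _
    split_ifs <;> ring
  have h3 : ∑ w ∈ words (II k) (J * (k - k / 20)), (1 / 2 : ℝ) ^ w.sum * ε ≤ ε := by
    rw [← sum_mul]
    have h4 : P (words (II k) (J * (k - k / 20))) ≤ 1 := by
      rw [P_words]
      exact pow_le_one₀ (Z_nonneg _) (Z_le_one _)
    unfold P at h4
    nlinarith
  simp_rw [mul_add, sum_add_distrib]
  rw [h2, h2, h2]
  linarith

end Pool.Agent.Collatz3.FW
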