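import Mathlib
import Pool.Agent.Collatz3.FWCltBase

set_option autoImplicit false

/-!
Central limit theorem for hitting times: the parameters.
-/

namespace Pool.Agent.Collatz3.FW

open Filter Topology

/-- The length of a stage. -/
noncomputable def kk (L : ℝ) : ℕ := ⌊√L⌋₊

/-- The number of letters handed off per stage. -/
noncomputable def ll (L : ℝ) : ℕ := kk L - kk L / 20

/-- The number of stages. -/
noncomputable def JJ (L : ℝ) : ℕ := ⌊gam / 2 * (L - L ^ (19 / 20 : ℝ)) / ll L⌋₊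

theorem kk_tendsto : Tendsto kk atTop atTop :=
  tendsto_nat_floor_atTop.comp Real.tendsto_sqrt_atTop

theorem kk_le {L : ℝ} : (kk L : ℝ) ≤ √L := Nat.floor_le (Real.sqrt_nonneg _)

theorem kk_ge {L : ℝ} : √L - 1 ≤ (kk L : ℝ) := by
  have := Nat.lt_floor_add_one √L
  unfold kk
  linarith

theorem rpow_19_div : Tendsto (fun L : ℝ => L ^ (19 / 20 : ℝ) / L) atTop (𝓝 0) := by
  have h : Tendsto (fun L : ℝ => L ^ (-(1 / 20) : ℝ)) atTop (𝓝 0) :=
    tendsto_rpow_neg_atTop (by norm_num)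
  refine h.congr' ?_
  filter_upwards [eventually_gt_atTop 0] with L hL
  rw [eq_div_iff hL.ne']
  conv_lhs => rw [← Real.rpow_one L, ← Real.rpow_mul hL.le, ← Real.rpow_add hL]
  norm_num

theorem sqrt_le_rpow (C : ℝ) : ∀ᶠ L : ℝ in atTop, C * √L ≤ L ^ (19 / 20 : ℝ) := by
  have h : Tendsto (fun L : ℝ => L ^ (9 / 20 : ℝ)) atTop atTop := tendsto_rpow_atTop (by norm_num)
  filter_upwards [h.eventually_ge_atTop C, eventually_gt_atTop 0] with L hL hL0
  have h1 : L ^ (19 / 20 : ℝ) = L ^ (9 / 20 : ℝ) * √L := by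
    rw [Real.sqrt_eq_rpow, ← Real.rpow_add hL0]
    norm_num
  rw [h1]
  exact mul_le_mul_of_nonneg_right hL (Real.sqrt_nonneg _)

/-- The two bounds for the number of letters. -/
theorem KK_bounds : ∀ᶠ L : ℝ in atTop,
    ((JJ L * ll L : ℕ) : ℝ) ≤ gam / 2 * (L - L ^ (19 / 20 : ℝ)) ∧
    gam / 2 * (L - L ^ (19 / 20 : ℝ)) ≤ ((JJ L * ll L : ℕ) : ℝ) + kk L := by
  filter_upwards [kk_tendsto.eventually_ge_atTop 1, rpow_19_div.eventually_le_const
    (by norm_num : (0 : ℝ) < 1), eventually_gt_atTop 0] with L h1 h2 h3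
  rw [div_le_one h3] at h2
  have h4 : 0 < ll L := by unfold ll; omega
  have h5 : (0 : ℝ) < ll L := by exact_mod_cast h4
  have h6 : (ll L : ℝ) ≤ kk L := by exact_mod_cast (by unfold ll; omega : ll L ≤ kk L)
  have hg := gam_ge
  have h7 : 0 ≤ gam / 2 * (L - L ^ (19 / 20 : ℝ)) := mul_nonneg (by linarith) (by linarith)
  push_cast
  constructor
  · have h8 : (JJ L : ℝ) ≤ gam / 2 * (L - L ^ (19 / 20 : ℝ)) / ll L :=
      Nat.floor_le (by positivity)
    rwa [le_div_iff₀ h5] at h8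
  · have h8 := Nat.lt_floor_add_one (gam / 2 * (L - L ^ (19 / 20 : ℝ)) / ll L)
    rw [div_lt_iff₀ h5] at h8
    have h9 : ((JJ L : ℝ) + 1) * ll L = JJ L * ll L + ll L := by ring
    unfold JJ at h9 ⊢
    linarith

theorem KK_ratio : Tendsto (fun L : ℝ => 2 * ((JJ L * ll L : ℕ) : ℝ) / (gam * L)) atTop (𝓝 1) := by
  have hg := gam_ge
  have h1 : Tendsto (fun L : ℝ => 1 - L ^ (19 / 20 : ℝ) / L) atTop (𝓝 1) := by
    simpa using (tendsto_const_nhds (x := (1 : ℝ))).sub rpow_19_div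
  have h0 : Tendsto (fun L : ℝ => (√L)⁻¹) atTop (𝓝 0) :=
    tendsto_inv_atTop_zero.comp Real.tendsto_sqrt_atTop
  have h2 : Tendsto (fun L : ℝ => 1 - L ^ (19 / 20 : ℝ) / L - (√L)⁻¹) atTop (𝓝 1) := by
    simpa using h1.sub h0
  refine tendsto_of_tendsto_of_tendsto_of_le_of_le' h2 h1 ?_ ?_
  · filter_upwards [KK_bounds, eventually_gt_atTop 0] with L h3 h4
    have h5 := h3.2
    have h6 := @kk_le L
    have h7 : √L * √L = L := Real.mul_self_sqrt h4.le
    have h8 : 0 < √L := Real.sqrt_pos.2 h4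
    rw [le_div_iff₀ (by positivity)]
    have h9 : (1 - L ^ (19 / 20 : ℝ) / L - (√L)⁻¹) * (gam * L) =
        gam * (L - L ^ (19 / 20 : ℝ)) - gam * √L := by
      have e1 : (√L)⁻¹ * L = √L := by
        rw [inv_mul_eq_div, div_eq_iff h8.ne', h7]
      have e2 : L ^ (19 / 20 : ℝ) / L * L = L ^ (19 / 20 : ℝ) := div_mul_cancel₀ _ h4.ne'
      linear_combination (-gam) * e1 - gam * e2
    rw [h9]
    nlinarith
  · filter_upwards [KK_bounds, eventually_gt_atTop 0] with L h3 h4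
    rw [div_le_iff₀ (by positivity)]
    have h9 : (1 - L ^ (19 / 20 : ℝ) / L) * (gam * L) = gam * (L - L ^ (19 / 20 : ℝ)) := by
      have e2 : L ^ (19 / 20 : ℝ) / L * L = L ^ (19 / 20 : ℝ) := div_mul_cancel₀ _ h4.ne'
      linear_combination (-gam) * e2
    rw [h9]
    linarith [h3.1]

theorem sqrt_ratio : Tendsto (fun L : ℝ => √(2 * ((JJ L * ll L : ℕ) : ℝ)) / √(gam * L)) atTop
    (𝓝 1) := by
  have h := (Real.continuous_sqrt.tendsto 1).comp KK_ratio
  rw [Real.sqrt_one] at h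
  refine h.congr' ?_
  filter_upwards [eventually_gt_atTop 0] with L hL
  have hg := gam_ge
  simp only [Function.comp]
  rw [Real.sqrt_div' _ (by positivity)]

theorem slack_ratio (K₀ : ℝ) : Tendsto (fun L : ℝ =>
    ((2 * L ^ (19 / 20 : ℝ)) ^ (13 / 25 : ℝ) + K₀) / √(gam * L)) atTop (𝓝 0) := by
  have hg := gam_ge
  have h1 : Tendsto (fun L : ℝ => L ^ (-(3 / 500) : ℝ)) atTop (𝓝 0) :=
    tendsto_rpow_neg_atTop (by norm_num)
  have h2 : Tendsto (fun L : ℝ => (√L)⁻¹) atTop (𝓝 0) :=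
    tendsto_inv_atTop_zero.comp Real.tendsto_sqrt_atTop
  have h3 := (h1.const_mul ((2 : ℝ) ^ (13 / 25 : ℝ) / √gam)).add (h2.const_mul (K₀ / √gam))
  rw [mul_zero, mul_zero, add_zero] at h3
  refine h3.congr' ?_
  filter_upwards [eventually_gt_atTop 0] with L hL
  have h4 : 0 < √L := Real.sqrt_pos.2 hL
  have h5 : 0 < √gam := Real.sqrt_pos.2 (by linarith)
  have h6 : (2 * L ^ (19 / 20 : ℝ)) ^ (13 / 25 : ℝ) =
      2 ^ (13 / 25 : ℝ) * (L ^ (-(3 / 500) : ℝ) * √L) := by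
    rw [Real.mul_rpow (by norm_num) (Real.rpow_nonneg hL.le _), ← Real.rpow_mul hL.le,
      Real.sqrt_eq_rpow, ← Real.rpow_add hL]
    norm_num
  rw [h6, Real.sqrt_mul (by linarith)]
  field_simp

/-- The main comparison. -/
theorem main_cmp (y K₀ : ℝ) {δ : ℝ} (hδ : 0 < δ) : ∀ᶠ L : ℝ in atTop,
    y * √(gam * L) + ((2 * L ^ (19 / 20 : ℝ)) ^ (13 / 25 : ℝ) + K₀) ≤
      (y + δ) * √(2 * ((JJ L * ll L : ℕ) : ℝ)) := by
  have h1 := ((sqrt_ratio.const_mul (y + δ)).sub (slack_ratio K₀)).eventually_const_le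
    (by linarith : y < (y + δ) * 1 - 0)
  filter_upwards [h1, eventually_gt_atTop 0] with L h2 h3
  have hg := gam_ge
  have h4 : 0 < √(gam * L) := Real.sqrt_pos.2 (by positivity)
  rw [← mul_div_assoc, ← sub_div, le_div_iff₀ h4] at h2
  linarith

theorem far_cmp (R : ℝ) (hR : 0 ≤ R) : ∀ᶠ L : ℝ in atTop,
    R * √(2 * ((JJ L * ll L : ℕ) : ℝ)) * Real.log 2 + 10 * kk L * Real.log 2 + 1 ≤
      L ^ (19 / 20 : ℝ) := by
  filter_upwards [sqrt_le_rpow (3 * R + 8), KK_bounds, eventually_ge_atTop 1] with L h1 h2 h3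
  have h4 := @kk_le L
  have h5 : √(2 * ((JJ L * ll L : ℕ) : ℝ)) ≤ 3 * √L := by
    have h6 : (3 : ℝ) * √L = √(9 * L) := by
      rw [Real.sqrt_mul (by norm_num)]
      congr 1
      rw [show (9 : ℝ) = 3 ^ 2 by norm_num, Real.sqrt_sq (by norm_num)]
    rw [h6]
    apply Real.sqrt_le_sqrt
    have h7 := gam_le
    have h8 : 0 ≤ L ^ (19 / 20 : ℝ) := Real.rpow_nonneg (by linarith) _
    have h9 := gam_ge
    nlinarith [h2.1]
  have h6 := Real.log_two_lt_d9
  have h7 := Real.log_two_gt_d9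
  have h8 : 1 ≤ √L := by
    rw [Real.one_le_sqrt]
    exact h3
  have h9 : R * √(2 * ((JJ L * ll L : ℕ) : ℝ)) * Real.log 2 ≤ R * (3 * √L) * 1 := by
    apply mul_le_mul (mul_le_mul_of_nonneg_left h5 hR) (by linarith) (by linarith) (by positivity)
  have h10 : 10 * (kk L : ℝ) * Real.log 2 ≤ 10 * √L * (7 / 10) := by
    apply mul_le_mul (by linarith) (by linarith) (by linarith) (by positivity)
  linarith

theorem JJ_le : ∀ᶠ L : ℝ in atTop, (JJ L : ℝ) ≤ 16 * (kk L : ℝ) ^ 2 := by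
  filter_upwards [KK_bounds, kk_tendsto.eventually_ge_atTop 100, eventually_ge_atTop 1]
    with L h2 hk h3
  have hk' : (100 : ℝ) ≤ kk L := by exact_mod_cast hk
  have h4 : 0 < ll L := by unfold ll; omega
  have h5 : (1 : ℝ) ≤ ll L := by exact_mod_cast h4
  have h6 := h2.1
  push_cast at h6
  have h7 := gam_le
  have h8 : 0 ≤ L ^ (19 / 20 : ℝ) := Real.rpow_nonneg (by linarith) _
  have h9 := gam_ge
  have h10 : (JJ L : ℝ) ≤ JJ L * ll L := le_mul_of_one_le_right (Nat.cast_nonneg _) h5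
  have h11 := @kk_ge L
  have h12 : √L * √L = L := Real.mul_self_sqrt (by linarith)
  have h13 : √L ≤ 11 / 10 * kk L := by linarith
  have h14 : √L * √L ≤ (11 / 10 * kk L) * (11 / 10 * kk L) :=
    mul_le_mul h13 h13 (Real.sqrt_nonneg _) (by positivity)
  rw [h12] at h14
  nlinarith

theorem err_ev {ε : ℝ} (hε : 0 < ε) : ∀ᶠ L : ℝ in atTop, 10 * (JJ L : ℝ) / (kk L : ℝ) ^ 7 ≤ ε := by
  have h1 : Tendsto (fun L : ℝ => 160 / (kk L : ℝ) ^ 5) atTop (𝓝 0) := by
    apply Tendsto.const_div_atTop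
    exact (tendsto_pow_atTop (by norm_num)).comp (tendsto_natCast_atTop_atTop.comp kk_tendsto)
  filter_upwards [JJ_le, h1.eventually_le_const hε, kk_tendsto.eventually_ge_atTop 1]
    with L h2 h3 h4
  have hk : (0 : ℝ) < kk L := by exact_mod_cast h4
  refine le_trans ?_ h3
  rw [div_le_div_iff₀ (by positivity) (by positivity)]
  calc 10 * (JJ L : ℝ) * (kk L : ℝ) ^ 5 ≤ 10 * (16 * (kk L : ℝ) ^ 2) * (kk L : ℝ) ^ 5 := by
        apply mul_le_mul_of_nonneg_right _ (by positivity)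
        linarith
    _ = 160 * (kk L : ℝ) ^ 7 := by ring

theorem eta_ev : ∀ᶠ L : ℝ in atTop, (JJ L : ℝ) / 2 ^ kk L ≤ 1 := by
  have h1 := tendsto_pow_const_div_const_pow_of_one_lt 2 (r := (2 : ℝ)) (by norm_num)
  have h2 := kk_tendsto.eventually (h1.eventually_le_const (by norm_num : (0 : ℝ) < 1 / 16))
  filter_upwards [JJ_le, h2] with L h3 h4
  have h5 : (0 : ℝ) < 2 ^ kk L := by positivity
  rw [div_le_iff₀ h5] at h4 ⊢
  linarith

theorem num_ev' {θ : ℝ} (hθ : 1 / 2 < θ) (M : ℝ) : ∀ᶠ L : ℝ in atTop,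
    NumT θ (kk L) ∧ M ^ 2 < 2 ^ (10 * kk L) := by
  have h1 := kk_tendsto.eventually (numT_all hθ)
  have h2 : Tendsto (fun L : ℝ => (2 : ℝ) ^ (10 * kk L)) atTop atTop := by
    apply (tendsto_pow_atTop_atTop_of_one_lt (by norm_num : (1 : ℝ) < 2)).comp
    exact (tendsto_id.const_mul_atTop' (by norm_num)).comp kk_tendsto
  filter_upwards [h1, h2.eventually_gt_atTop (M ^ 2)] with L h3 h4
  exact ⟨h3, h4⟩

end Pool.Agent.Collatz3.FW
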