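import Mathlib
import Pool.Agent.Collatz3.FWCltAsym

set_option autoImplicit false

/-!
Central limit theorem for hitting times: the estimates for odd integers.
-/

namespace Pool.Agent.Collatz3.FW

open Finset Filter Topology MeasureTheory ProbabilityTheory
open Pool.Agent.Collatz3.PD
open Pool.Agent.Collatz3.Mix (words mem_words)
open Pool.Agent.Collatz3.DN (Dens dens_exists Reach)
open Pool.Agent.Helper14 (T)

/-- The normal distribution function. -/
noncomputable def Phi (y : ℝ) : ℝ := (gaussianReal 0 1).real (Set.Iic y)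

theorem Phi_nonneg (y : ℝ) : 0 ≤ Phi y := measureReal_nonneg

theorem Phi_le_one (y : ℝ) : Phi y ≤ 1 := measureReal_le_one

theorem gauss_Ici (y : ℝ) : (gaussianReal 0 1).real (Set.Ici y) = Phi (-y) := by
  unfold Phi
  have h : (gaussianReal 0 1).map (fun x => -x) = gaussianReal 0 1 := by
    rw [gaussianReal_map_neg, neg_zero]
  conv_rhs => rw [← h]
  rw [measureReal_def, measureReal_def, Measure.map_apply (by fun_prop) measurableSet_Iic]
  congr 2
  ext x
  simp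

theorem Phi_neg (y : ℝ) : Phi (-y) = 1 - Phi y := by
  rw [← gauss_Ici]
  have h1 : (Set.Iio y)ᶜ = Set.Ici y := Set.compl_Iio
  rw [← h1, probReal_compl_eq_one_sub measurableSet_Iio]
  congr 1
  unfold Phi
  have h2 : Set.Iic y = Set.Iio y ∪ {y} := by
    ext x
    simp [le_iff_lt_or_eq, or_comm]
  rw [h2, measureReal_union (by simp) (measurableSet_singleton y)]
  have h3 : (gaussianReal 0 1).real {y} = 0 := by
    rw [measureReal_def, (nullSingletonClass_gaussianReal (by norm_num)).measure_singleton y]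
    rfl
  rw [h3, add_zero]

theorem Phi_right {y ε : ℝ} (hε : 0 < ε) : ∃ δ : ℝ, 0 < δ ∧ Phi (y + δ) ≤ Phi y + ε := by
  have h := (cdf (gaussianReal 0 1)).right_continuous y
  have h1 : ∀ x, cdf (gaussianReal 0 1) x = Phi x := fun x => cdf_eq_real _ x
  rw [ContinuousWithinAt, h1] at h
  have h2 := h.eventually_le_const (by linarith : Phi y < Phi y + ε)
  rw [eventually_nhdsWithin_iff, Metric.eventually_nhds_iff] at h2
  obtain ⟨δ, hδ, h3⟩ := h2
  refine ⟨δ / 2, by positivity, ?_⟩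
  have h4 := h3 (y := y + δ / 2) (by
    rw [Real.dist_eq, add_sub_cancel_left, abs_of_pos (by positivity)]
    linarith) (by
    rw [Set.mem_Ici]
    linarith)
  rwa [h1] at h4

theorem Phi_far {ε : ℝ} (hε : 0 < ε) : ∃ R : ℝ, 0 ≤ R ∧ Phi (-R) ≤ ε := by
  have h := tendsto_cdf_atBot (gaussianReal 0 1)
  have h1 : ∀ x, cdf (gaussianReal 0 1) x = Phi x := fun x => cdf_eq_real _ x
  obtain ⟨R, hR⟩ := eventually_atBot.1 (h.eventually_le_const hε)
  refine ⟨max 0 (-R), le_max_left _ _, ?_⟩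
  have h2 := hR (-(max 0 (-R))) (by
    have := le_max_right 0 (-R)
    linarith)
  rwa [h1] at h2

/-- The two parts of the central limit theorem for words. -/
theorem clt_lower (z : ℝ) {ε : ℝ} (hε : 0 < ε) : ∃ K₀ : ℕ, ∀ K : ℕ, K₀ ≤ K → ∀ I : ℕ,
    ∀ Q : List ℕ → Prop, ∀ _ : DecidablePred Q,
      (∀ w, Q w → (w.sum : ℝ) - 2 * K ≤ z * √(2 * K)) →
      P ((words I K).filter Q) ≤ Phi z + ε := by
  obtain ⟨K₀, hK₀⟩ := clt_words (measurableSet_Iic (a := z)) frontier_Iic hε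
  refine ⟨max 1 K₀, fun K hK I Q dQ hQ => ?_⟩
  refine hK₀ K (le_trans (le_max_right _ _) hK) I Q dQ (fun w hw => ?_)
  have h1 : (0 : ℝ) < √(2 * K) := by
    apply Real.sqrt_pos.2
    have : (1 : ℝ) ≤ K := by exact_mod_cast le_trans (le_max_left _ _) hK
    linarith
  rw [Set.mem_Iic, div_le_iff₀ h1]
  exact hQ w hw

theorem clt_upper (z : ℝ) {ε : ℝ} (hε : 0 < ε) : ∃ K₀ : ℕ, ∀ K : ℕ, K₀ ≤ K → ∀ I : ℕ,
    ∀ Q : List ℕ → Prop, ∀ _ : DecidablePred Q,
      (∀ w, Q w → -z * √(2 * K) ≤ (w.sum : ℝ) - 2 * K) →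
      P ((words I K).filter Q) ≤ Phi z + ε := by
  obtain ⟨K₀, hK₀⟩ := clt_words (measurableSet_Ici (a := -z)) frontier_Ici hε
  refine ⟨max 1 K₀, fun K hK I Q dQ hQ => ?_⟩
  have h0 := hK₀ K (le_trans (le_max_right _ _) hK) I Q dQ (fun w hw => ?_)
  · rwa [gauss_Ici, neg_neg] at h0
  have h1 : (0 : ℝ) < √(2 * K) := by
    apply Real.sqrt_pos.2
    have : (1 : ℝ) ≤ K := by exact_mod_cast le_trans (le_max_left _ _) hK
    linarith
  rw [Set.mem_Ici, le_div_iff₀ h1]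
  exact hQ w hw

theorem KK_ev (N : ℕ) : ∀ᶠ L : ℝ in atTop, N ≤ JJ L * ll L := by
  filter_upwards [KK_bounds, rpow_19_div.eventually_le_const (by norm_num : (0 : ℝ) < 1 / 4),
    eventually_ge_atTop 16, eventually_ge_atTop (N : ℝ)] with L h1 h2 h3 h4
  have hg := gam_ge
  have h5 := @kk_le L
  have hL : 0 < L := by linarith
  rw [div_le_iff₀ hL] at h2
  have h6 : √L * √L = L := Real.mul_self_sqrt hL.le
  have h7 : 4 ≤ √L := by
    apply Real.le_sqrt_of_sq_le
    linarith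
  have h8 : √L ≤ L / 4 := by nlinarith
  have h9 : (N : ℝ) ≤ ((JJ L * ll L : ℕ) : ℝ) := by nlinarith [h1.2]
  exact_mod_cast h9

theorem dens_bounds {A : Set ℤ} {d : ℝ} (h : Dens 1 A d) : 0 ≤ d ∧ d ≤ 1 := by
  have h1 := h.tendsto
  constructor
  · apply ge_of_tendsto h1
    filter_upwards [eventually_gt_atTop 0] with x hx
    unfold Pool.Agent.Collatz3.DN.D
    positivity
  · have h2 : Tendsto (fun x : ℝ => 1 + x⁻¹) atTop (𝓝 1) := by
      simpa using (tendsto_const_nhds (x := (1 : ℝ))).add tendsto_inv_atTop_zero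
    refine le_of_tendsto_of_tendsto h1 h2 ?_
    filter_upwards [eventually_gt_atTop 0] with x hx
    unfold Pool.Agent.Collatz3.DN.D
    rw [div_le_iff₀ hx, add_mul, one_mul, inv_mul_cancel₀ hx.ne']
    have h3 : {m : ℕ | (m : ℝ) ≤ x ∧ (1 : ℤ) * m ∈ A} ⊆ ((range (⌊x⌋₊ + 1) : Finset ℕ) : Set ℕ) := by
      intro m hm
      rw [mem_coe, mem_range]
      exact Nat.lt_succ_of_le (Nat.le_floor hm.1)
    have h4 := Set.ncard_le_ncard h3 (Finset.finite_toSet _)
    rw [Set.ncard_coe_finset, card_range] at h4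
    have h5 : (Set.ncard {m : ℕ | (m : ℝ) ≤ x ∧ (1 : ℤ) * m ∈ A} : ℝ) ≤ ((⌊x⌋₊ + 1 : ℕ) : ℝ) := by
      exact_mod_cast h4
    have h6 := Nat.floor_le hx.le
    push_cast at h5
    linarith

/-- The position after the word. -/
theorem pos_id (L K S : ℝ) : gam * (L + K * Real.log 3 - S * Real.log 2) =
    gam * L - 2 * K - gam * Real.log 2 * (S - 2 * K) := by
  linear_combination (-K) * gam_mul

theorem two_kk_le {k : ℝ} (hk : 0 ≤ k) : 2 * k ≤ gam * (10 * k * Real.log 2) := by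
  have h1 := gam_log_two_ge
  have h2 := mul_le_mul_of_nonneg_right h1 hk
  linarith

theorem slack_le {a s : ℝ} (ha : 1 ≤ a) (hs : 0 ≤ s) : s ≤ a * s := by
  have := mul_le_mul_of_nonneg_right ha hs
  linarith

/-- The final numerical step. -/
theorem combine {X d p1 p2 p3 q ε e1 : ℝ} (hX : 0 ≤ X) (hd0 : 0 ≤ d) (hd1 : d ≤ 1)
    (h1 : p1 ≤ ε + ε) (h2 : p2 ≤ ε + ε) (h3 : p3 ≤ q + ε + ε) (h4 : e1 ≤ ε) (hε : 0 ≤ ε) :
    X / 2 * (2 * p1 + 2 * p2 + d * p3 + ε + e1) ≤ X / 2 * (d * q + 12 * ε) := by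
  apply mul_le_mul_of_nonneg_left _ (by linarith)
  have h5 := mul_le_mul_of_nonneg_left h3 hd0
  have h6 := mul_le_mul_of_nonneg_right hd1 hε
  nlinarith

theorem H_est {S : Set ℤ} {M₀ : ℝ} (hS : ∀ c ∈ S, |(c : ℝ)| ≤ M₀) {d : ℝ}
    (hd : Dens 1 (Reach S) d) (y : ℝ) {ε : ℝ} (hε : 0 < ε) : ∀ᶠ X : ℝ in atTop, ∀ t : ℝ,
      t ≤ gam * Real.log X + y * ((gam * Real.log 2 - 1) * √(gam * Real.log X)) →
      F 1 (Hs S t) X ≤ X / 2 * (d * Phi y + ε) := by
  classical
  obtain ⟨hd0, hd1⟩ := dens_bounds hd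
  obtain ⟨ε', hε'⟩ : ∃ ε', ε' = ε / 12 := ⟨_, rfl⟩
  have hε'0 : 0 < ε' := by rw [hε']; positivity
  obtain ⟨δ, hδ, hδ'⟩ := Phi_right (y := y) hε'0
  obtain ⟨R, hR0, hR⟩ := Phi_far hε'0
  obtain ⟨K₀, y₀, hK₀, hy₀, hbase⟩ := base_H (θ := 13 / 25) (by norm_num) (by norm_num) hS hd hε'0
  obtain ⟨K₁, h₁⟩ := clt_upper (-R) hε'0
  obtain ⟨K₂, h₂⟩ := clt_lower (-R) hε'0
  obtain ⟨K₃, h₃⟩ := clt_upper (y + δ) hε'0
  obtain ⟨M, hM1, hM0⟩ : ∃ M : ℝ, 1 < M ∧ M₀ ≤ M :=
    ⟨max 2 M₀, lt_of_lt_of_le (by norm_num) (le_max_left _ _), le_max_right _ _⟩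
  have hkbig : ∀ᶠ L : ℝ in atTop, Real.log y₀ ≤ 10 * kk L * Real.log 2 := by
    have h1 : Tendsto (fun L : ℝ => 10 * (kk L : ℝ) * Real.log 2) atTop atTop := by
      have h2 : Tendsto (fun L : ℝ => (kk L : ℝ)) atTop atTop :=
        tendsto_natCast_atTop_atTop.comp kk_tendsto
      exact (h2.const_mul_atTop (by norm_num)).atTop_mul_const (Real.log_pos (by norm_num))
    exact h1.eventually_ge_atTop _
  have hev := Real.tendsto_log_atTop.eventually ((main_cmp y K₀ hδ).and ((far_cmp R hR0).and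
    (KK_bounds.and ((err_ev hε'0).and (eta_ev.and ((num_ev' (θ := 13 / 25) (by norm_num) M).and
    ((KK_ev (max K₁ (max K₂ K₃))).and (hkbig.and (eventually_ge_atTop 1)))))))))
  filter_upwards [hev, eventually_ge_atTop 1] with X hX hX1
  intro t ht
  obtain ⟨L, hL⟩ : ∃ L, L = Real.log X := ⟨_, rfl⟩
  rw [← hL] at hX ht
  obtain ⟨c1, c2, ⟨c3, c4⟩, c5, c6, ⟨c7, c8⟩, c9, c10, c11⟩ := hX
  obtain ⟨K, hK⟩ : ∃ K, K = JJ L * ll L := ⟨_, rfl⟩
  rw [← hK] at c1 c2 c3 c4 c9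
  have hg := gam_ge
  have ha1 := gam_log_two_ge
  have hl2 : 0 < Real.log 2 := Real.log_pos (by norm_num)
  have hk0 : (0 : ℝ) ≤ kk L := Nat.cast_nonneg _
  obtain ⟨Z, hZ⟩ : ∃ Z, Z = 2 * L ^ (19 / 20 : ℝ) := ⟨_, rfl⟩
  rw [← hZ] at c1
  have hZ0 : 0 ≤ Z := by
    rw [hZ]
    have := Real.rpow_nonneg (by linarith : 0 ≤ L) (19 / 20 : ℝ)
    linarith
  have hZs : 0 ≤ Z ^ (13 / 25 : ℝ) := Real.rpow_nonneg hZ0 _
  have hfam : Fam M (Hs S) := fam_Hs fun c hc => (hS c hc).trans hM0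
  have h := core c7 hM1 c8 hfam (fun _ z τ => gam * z - (Z ^ (13 / 25 : ℝ) + K₀) ≤ τ)
    (fun j z z' τ hz1 _ h5 => by
      have := mul_le_mul_of_nonneg_left hz1 (by linarith : 0 ≤ gam)
      linarith) (Z := Z) hd0 hε'0.le
    (fun x τ hx1 hx2 hx3 => by
      have hxy : y₀ ≤ x := by
        rw [← Real.log_le_log_iff (by linarith) (by linarith)]
        linarith
      refine (hbase x τ hxy).trans ?_
      apply mul_le_mul_of_nonneg_left _ (by linarith)
      apply add_le_add_left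
      have hlx : 0 ≤ Real.log x := Real.log_nonneg hx3
      have hpow : Real.log x ^ (13 / 25 : ℝ) ≤ Z ^ (13 / 25 : ℝ) :=
        Real.rpow_le_rpow hlx hx2 (by norm_num)
      by_cases h5 : gam * Real.log x - Real.log x ^ (13 / 25 : ℝ) - K₀ ≤ τ
      · rw [if_pos h5, if_pos (by linarith)]
      · rw [if_neg h5]
        split_ifs
        · exact hd0
        · exact le_rfl) (JJ L) (X := X) (t := t) hX1
  rw [← hL] at h
  have hKll : JJ L * (kk L - kk L / 20) = K := hK.symm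
  rw [hKll] at h
  refine (h.trans (combine (q := Phi y) (ε := ε') (by linarith) hd0 hd1 ?_ ?_ ?_ c5
    hε'0.le)).trans (le_of_eq ?_)
  · -- low levels
    refine (h₁ K (le_trans (le_max_left _ _) c9) _ _ _ (fun w hw => ?_)).trans
      (add_le_add_left hR _)
    have h5 := pos_id L K w.sum
    have h6 := mul_lt_mul_of_pos_left hw (by linarith : 0 < gam)
    rw [h5] at h6
    have h7 := mul_le_mul_of_nonneg_left c2 (by linarith : 0 ≤ gam)
    have h8 : gam * Real.log 2 * (R * √(2 * K)) ≤ gam * Real.log 2 * (w.sum - 2 * K) := by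
      linarith
    have h9 := le_of_mul_le_mul_left h8 (by positivity)
    linarith
  · -- high levels
    refine (h₂ K (le_trans ((le_max_left _ _).trans (le_max_right _ _)) c9) _ _ _
      (fun w hw => ?_)).trans (add_le_add_left hR _)
    have h5 := pos_id L K w.sum
    have h6 : gam * (Z - 1) ≤ gam * (L + K * Real.log 3 - w.sum * Real.log 2) :=
      mul_le_mul_of_nonneg_left (by linarith) (by linarith)
    rw [h5] at h6
    have h7 := mul_le_mul_of_nonneg_left c2 (by linarith : 0 ≤ gam)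
    have h10 := two_kk_le hk0
    have h8 : gam * Real.log 2 * (w.sum - 2 * K) ≤ gam * Real.log 2 * (-R * √(2 * K)) := by
      rw [hZ] at h6
      linarith
    exact le_of_mul_le_mul_left h8 (by positivity)
  · -- the middle
    refine (h₃ K (le_trans ((le_max_right _ _).trans (le_max_right _ _)) c9) _ _ _
      (fun w hw => ?_)).trans (add_le_add_left hδ' _)
    have h5 := pos_id L K w.sum
    rw [h5] at hw
    have h6 : (gam * Real.log 2 - 1) * (-(w.sum - 2 * K)) ≤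
        (gam * Real.log 2 - 1) * (y * √(gam * L) + (Z ^ (13 / 25 : ℝ) + K₀)) := by
      have h7 := slack_le ha1 (add_nonneg hZs hK₀)
      linarith
    have h7 := le_of_mul_le_mul_left h6 (by linarith)
    linarith
  · rw [hε']
    ring

theorem L_est {S : Set ℤ} {M₀ : ℝ} (hS : ∀ c ∈ S, |(c : ℝ)| ≤ M₀) {d : ℝ}
    (hd : Dens 1 (Reach S) d) (y : ℝ) {ε : ℝ} (hε : 0 < ε) : ∀ᶠ X : ℝ in atTop, ∀ t : ℝ,
      gam * Real.log X + y * ((gam * Real.log 2 - 1) * √(gam * Real.log X)) ≤ t →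
      F 1 (Ls S t) X ≤ X / 2 * (d * Phi (-y) + ε) := by
  classical
  obtain ⟨hd0, hd1⟩ := dens_bounds hd
  obtain ⟨ε', hε'⟩ : ∃ ε', ε' = ε / 12 := ⟨_, rfl⟩
  have hε'0 : 0 < ε' := by rw [hε']; positivity
  obtain ⟨δ, hδ, hδ'⟩ := Phi_right (y := -y) hε'0
  obtain ⟨R, hR0, hR⟩ := Phi_far hε'0
  obtain ⟨K₀, y₀, hK₀, hy₀, hbase⟩ := base_L (θ := 13 / 25) (by norm_num) (by norm_num) hd hε'0
  obtain ⟨K₁, h₁⟩ := clt_upper (-R) hε'0
  obtain ⟨K₂, h₂⟩ := clt_lower (-R) hε'0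
  obtain ⟨K₃, h₃⟩ := clt_lower (-y + δ) hε'0
  obtain ⟨M, hM1, hM0⟩ : ∃ M : ℝ, 1 < M ∧ M₀ ≤ M :=
    ⟨max 2 M₀, lt_of_lt_of_le (by norm_num) (le_max_left _ _), le_max_right _ _⟩
  have hkbig : ∀ᶠ L : ℝ in atTop, Real.log y₀ ≤ 10 * kk L * Real.log 2 := by
    have h1 : Tendsto (fun L : ℝ => 10 * (kk L : ℝ) * Real.log 2) atTop atTop := by
      have h2 : Tendsto (fun L : ℝ => (kk L : ℝ)) atTop atTop :=
        tendsto_natCast_atTop_atTop.comp kk_tendsto
      exact (h2.const_mul_atTop (by norm_num)).atTop_mul_const (Real.log_pos (by norm_num))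
    exact h1.eventually_ge_atTop _
  have hev := Real.tendsto_log_atTop.eventually ((main_cmp (-y) (K₀ + gam) hδ).and
    ((far_cmp R hR0).and
    (KK_bounds.and ((err_ev hε'0).and (eta_ev.and ((num_ev' (θ := 13 / 25) (by norm_num) M).and
    ((KK_ev (max K₁ (max K₂ K₃))).and (hkbig.and (eventually_ge_atTop 1)))))))))
  filter_upwards [hev, eventually_ge_atTop 1] with X hX hX1
  intro t ht
  obtain ⟨L, hL⟩ : ∃ L, L = Real.log X := ⟨_, rfl⟩
  rw [← hL] at hX ht
  obtain ⟨c1, c2, ⟨c3, c4⟩, c5, c6, ⟨c7, c8⟩, c9, c10, c11⟩ := hX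
  obtain ⟨K, hK⟩ : ∃ K, K = JJ L * ll L := ⟨_, rfl⟩
  rw [← hK] at c1 c2 c3 c4 c9
  have hg := gam_ge
  have ha1 := gam_log_two_ge
  have hl2 : 0 < Real.log 2 := Real.log_pos (by norm_num)
  have hk0 : (0 : ℝ) ≤ kk L := Nat.cast_nonneg _
  obtain ⟨Z, hZ⟩ : ∃ Z, Z = 2 * L ^ (19 / 20 : ℝ) := ⟨_, rfl⟩
  rw [← hZ] at c1
  have hZ0 : 0 ≤ Z := by
    rw [hZ]
    have := Real.rpow_nonneg (by linarith : 0 ≤ L) (19 / 20 : ℝ)
    linarith
  have hZs : 0 ≤ Z ^ (13 / 25 : ℝ) := Real.rpow_nonneg hZ0 _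
  have hfam : Fam M (Ls S) := fam_Ls fun c hc => (hS c hc).trans hM0
  have h := core c7 hM1 c8 hfam
    (fun j z τ => τ ≤ gam * (z + j / 2 ^ kk L) + (Z ^ (13 / 25 : ℝ) + K₀))
    (fun j z z' τ _ hz1 h5 => by
      have h6 : z' + (j : ℝ) / 2 ^ kk L ≤ z + ((j + 1 : ℕ) : ℝ) / 2 ^ kk L := by
        push_cast
        rw [add_div]
        linarith
      have := mul_le_mul_of_nonneg_left h6 (by linarith : 0 ≤ gam)
      linarith) (Z := Z) hd0 hε'0.le
    (fun x τ hx1 hx2 hx3 => by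
      have hxy : y₀ ≤ x := by
        rw [← Real.log_le_log_iff (by linarith) (by linarith)]
        linarith
      refine (hbase x τ hxy).trans ?_
      apply mul_le_mul_of_nonneg_left _ (by linarith)
      apply add_le_add_left
      have hlx : 0 ≤ Real.log x := Real.log_nonneg hx3
      have hpow : Real.log x ^ (13 / 25 : ℝ) ≤ Z ^ (13 / 25 : ℝ) :=
        Real.rpow_le_rpow hlx hx2 (by norm_num)
      by_cases h5 : τ ≤ gam * Real.log x + Real.log x ^ (13 / 25 : ℝ) + K₀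
      · rw [if_pos h5, if_pos (by
          simp only [CharP.cast_eq_zero, zero_div, add_zero]
          linarith)]
      · rw [if_neg h5]
        split_ifs
        · exact hd0
        · exact le_rfl) (JJ L) (X := X) (t := t) hX1
  rw [← hL] at h
  have hKll : JJ L * (kk L - kk L / 20) = K := hK.symm
  rw [hKll] at h
  refine (h.trans (combine (q := Phi (-y)) (ε := ε') (by linarith) hd0 hd1 ?_ ?_ ?_ c5
    hε'0.le)).trans (le_of_eq ?_)
  · -- low levels
    refine (h₁ K (le_trans (le_max_left _ _) c9) _ _ _ (fun w hw => ?_)).trans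
      (add_le_add_left hR _)
    have h5 := pos_id L K w.sum
    have h6 := mul_lt_mul_of_pos_left hw (by linarith : 0 < gam)
    rw [h5] at h6
    have h7 := mul_le_mul_of_nonneg_left c2 (by linarith : 0 ≤ gam)
    have h8 : gam * Real.log 2 * (R * √(2 * K)) ≤ gam * Real.log 2 * (w.sum - 2 * K) := by
      linarith
    have h9 := le_of_mul_le_mul_left h8 (by positivity)
    linarith
  · -- high levels
    refine (h₂ K (le_trans ((le_max_left _ _).trans (le_max_right _ _)) c9) _ _ _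
      (fun w hw => ?_)).trans (add_le_add_left hR _)
    have h5 := pos_id L K w.sum
    have h6 : gam * (Z - 1) ≤ gam * (L + K * Real.log 3 - w.sum * Real.log 2) :=
      mul_le_mul_of_nonneg_left (by linarith) (by linarith)
    rw [h5] at h6
    have h7 := mul_le_mul_of_nonneg_left c2 (by linarith : 0 ≤ gam)
    have h10 := two_kk_le hk0
    have h8 : gam * Real.log 2 * (w.sum - 2 * K) ≤ gam * Real.log 2 * (-R * √(2 * K)) := by
      rw [hZ] at h6
      linarith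
    exact le_of_mul_le_mul_left h8 (by positivity)
  · -- the middle
    refine (h₃ K (le_trans ((le_max_right _ _).trans (le_max_right _ _)) c9) _ _ _
      (fun w hw => ?_)).trans (add_le_add_left hδ' _)
    have h5 := pos_id L K w.sum
    rw [mul_add, h5] at hw
    have h6 : (gam * Real.log 2 - 1) * (w.sum - 2 * K) ≤
        (gam * Real.log 2 - 1) * (-y * √(gam * L) + (Z ^ (13 / 25 : ℝ) + (K₀ + gam))) := by
      have h7 := slack_le ha1 (add_nonneg hZs (add_nonneg hK₀ (by linarith : 0 ≤ gam)))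
      have h8 := mul_le_mul_of_nonneg_left c6 (by linarith : 0 ≤ gam)
      linarith
    have h7 := le_of_mul_le_mul_left h6 (by linarith)
    linarith
  · rw [hε']
    ring

end Pool.Agent.Collatz3.FW
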