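import Mathlib
import Pool.Agent.Collatz3.FWCltMain

set_option autoImplicit false

/-!
Central limit theorem for hitting times: all positive integers.
-/

namespace Pool.Agent.Collatz3.FW

open Finset Filter Topology MeasureTheory ProbabilityTheory
open Pool.Agent.Collatz3.PD
open Pool.Agent.Collatz3.DN (Dens dens_exists Reach)
open Pool.Agent.Helper14 (T)

/-- The time budget of the central limit theorem. -/
noncomputable def tb (y u : ℝ) : ℝ := gam * u + y * ((gam * Real.log 2 - 1) * √(gam * u))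

theorem ratio_one (w : ℝ) : Tendsto (fun L : ℝ => √(gam * (L - w)) / √(gam * L)) atTop (𝓝 1) := by
  have hg := gam_ge
  have h1 : Tendsto (fun L : ℝ => 1 - w / L) atTop (𝓝 1) := by
    simpa using (tendsto_const_nhds (x := (1 : ℝ))).sub (tendsto_id.const_div_atTop w)
  have h := (Real.continuous_sqrt.tendsto 1).comp h1
  rw [Real.sqrt_one] at h
  refine h.congr' ?_
  filter_upwards [eventually_gt_atTop 0] with L hL
  simp only [Function.comp]
  rw [← Real.sqrt_div' _ (by positivity)]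
  congr 1
  field_simp

/-- Shifts of the argument cost less than a change of `y`. -/
theorem tb_shift (y w₁ w₂ C : ℝ) {δ : ℝ} (hδ : 0 < δ) : ∀ᶠ L : ℝ in atTop,
    tb y (L - w₁) + C ≤ tb (y + δ) (L - w₂) := by
  have hg := gam_ge
  have ha := gam_log_two_ge
  have h0 : Tendsto (fun L : ℝ => √(gam * L)) atTop atTop :=
    Real.tendsto_sqrt_atTop.comp (tendsto_id.const_mul_atTop (by linarith))
  have h1 : Tendsto (fun L : ℝ => (C + gam * (w₂ - w₁)) / √(gam * L)) atTop (𝓝 0) :=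
    h0.const_div_atTop _
  have h2 := ((((ratio_one w₂).const_mul (y + δ)).sub ((ratio_one w₁).const_mul y)).const_mul
    (gam * Real.log 2 - 1)).sub h1
  have h3 := h2.eventually_const_le (u := 0) (by
    have : 0 < (gam * Real.log 2 - 1) * δ := by positivity
    linarith)
  filter_upwards [h3, h0.eventually_gt_atTop 0] with L h4 h5
  unfold tb
  have h6 := mul_nonneg h4 h5.le
  have h7 : ((gam * Real.log 2 - 1) * ((y + δ) * (√(gam * (L - w₂)) / √(gam * L)) -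
      y * (√(gam * (L - w₁)) / √(gam * L))) - (C + gam * (w₂ - w₁)) / √(gam * L)) * √(gam * L) =
      (gam * Real.log 2 - 1) * ((y + δ) * √(gam * (L - w₂)) - y * √(gam * (L - w₁))) -
      (C + gam * (w₂ - w₁)) := by
    field_simp
  rw [h7] at h6
  linarith

/-- The budget is monotone up to large arguments. -/
theorem tb_mono (y : ℝ) : ∀ᶠ L : ℝ in atTop, ∀ u v : ℝ, 0 ≤ u → u ≤ v → L ≤ v →
    tb y u ≤ tb y v := by
  have hg := gam_ge
  have ha := gam_log_two_ge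
  have h0 : Tendsto (fun L : ℝ => √(gam * L)) atTop atTop :=
    Real.tendsto_sqrt_atTop.comp (tendsto_id.const_mul_atTop (by linarith))
  filter_upwards [h0.eventually_ge_atTop (-(y * (gam * Real.log 2 - 1)))] with L h1 u v hu huv hLv
  have h2 : ∀ x : ℝ, 0 ≤ x → tb y x = √(gam * x) *
      (√(gam * x) + y * (gam * Real.log 2 - 1)) := by
    intro x hx
    unfold tb
    have h3 : √(gam * x) * √(gam * x) = gam * x := Real.mul_self_sqrt (by positivity)
    linear_combination -h3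
  rw [h2 u hu, h2 v (hu.trans huv)]
  have h3 : √(gam * u) ≤ √(gam * v) :=
    Real.sqrt_le_sqrt (mul_le_mul_of_nonneg_left huv (by linarith))
  have h4 : √(gam * L) ≤ √(gam * v) :=
    Real.sqrt_le_sqrt (mul_le_mul_of_nonneg_left hLv (by linarith))
  have h5 : 0 ≤ √(gam * v) + y * (gam * Real.log 2 - 1) := by linarith
  have h6 : 0 ≤ √(gam * u) := Real.sqrt_nonneg _
  calc √(gam * u) * (√(gam * u) + y * (gam * Real.log 2 - 1)) ≤
      √(gam * u) * (√(gam * v) + y * (gam * Real.log 2 - 1)) :=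
        mul_le_mul_of_nonneg_left (by linarith) h6
    _ ≤ √(gam * v) * (√(gam * v) + y * (gam * Real.log 2 - 1)) :=
        mul_le_mul_of_nonneg_right h3 h5

theorem half_sum (I : ℕ) (X : ℝ) : ∑ i ∈ range I, X / 2 ^ i / 2 = X - X / 2 ^ I := by
  induction I with
  | zero => simp
  | succ I ih =>
    rw [sum_range_succ, ih, pow_succ]
    field_simp
    ring

/-- From odd integers to all integers. -/
theorem all_of_odd {A : ℝ → Set ℤ} {M : ℝ} (hM0 : 0 ≤ M) (hA : Fam M A) {y q : ℝ}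
    (hq : 0 ≤ q) (w : ℝ) {ε : ℝ} (hε : 0 < ε)
    (hest : ∀ i : ℕ, ∀ᶠ X : ℝ in atTop, F 1 (A (tb y (Real.log X - w) - i)) (X / 2 ^ i) ≤
      X / 2 ^ i / 2 * q) : ∀ᶠ X : ℝ in atTop, cN (A (tb y (Real.log X - w))) X ≤ X * (q + ε) := by
  obtain ⟨I, hI⟩ : ∃ I : ℕ, 1 / (2 : ℝ) ^ I ≤ ε / 2 := by
    obtain ⟨I, hI⟩ := exists_pow_lt_of_lt_one (by positivity : 0 < ε / 2)
      (by norm_num : (1 / 2 : ℝ) < 1)
    refine ⟨I, ?_⟩
    rw [one_div, ← inv_pow, ← one_div]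
    exact hI.le
  have h1 : ∀ᶠ X : ℝ in atTop, ∀ i ∈ range I, F 1 (A (tb y (Real.log X - w) - i)) (X / 2 ^ i) ≤
      X / 2 ^ i / 2 * q := (eventually_all_finset _).2 fun i _ => hest i
  have h2 : ∀ᶠ X : ℝ in atTop, I * ((M + 1) / 2) ≤ ε / 2 * X := by
    have h1 : Tendsto (fun X : ℝ => ε / 2 * X) atTop atTop :=
      tendsto_id.const_mul_atTop (by positivity)
    exact h1.eventually_ge_atTop _
  filter_upwards [h1, h2, eventually_ge_atTop 0] with X h3 h4 hX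
  obtain ⟨t, ht⟩ : ∃ t, t = tb y (Real.log X - w) := ⟨_, rfl⟩
  rw [← ht] at h3 ⊢
  have h5 : ∀ i ∈ range I, F 1 {m | 2 ^ i * m ∈ A t} (X / 2 ^ i) ≤
      X / 2 ^ i / 2 * q + (M + 1) / 2 := by
    intro i hi
    have h6 := F_small (Or.inl rfl : (1 : ℤ) = 1 ∨ (1 : ℤ) = -1) (X / 2 ^ i) hM0
    have h7 : F 1 {m | 2 ^ i * m ∈ A t} (X / 2 ^ i) ≤ F 1 (A (t - i)) (X / 2 ^ i) +
        F 1 {n : ℤ | |(n : ℝ)| ≤ M} (X / 2 ^ i) := by
      apply F_union_le
      intro m hm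
      rcases le_or_gt |(m : ℝ)| M with h8 | h8
      · exact Or.inr h8
      · left
        refine hA.down _ _ _ _ (T_iter_mul i m) hm ?_
        push_cast
        rw [abs_mul, abs_of_pos (by positivity : (0 : ℝ) < 2 ^ i), mul_comm]
        exact mul_lt_mul_of_pos_left h8 (by positivity)
    have h8 := h3 i hi
    linarith
  have h6 := cN_sum I (A t) X hX
  have h7 := sum_le_sum h5
  rw [sum_add_distrib, ← sum_mul, half_sum, sum_const, card_range, nsmul_eq_mul] at h7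
  have h8 : X / 2 ^ I ≤ ε / 2 * X := by
    calc X / 2 ^ I = 1 / 2 ^ I * X := by ring
      _ ≤ ε / 2 * X := mul_le_mul_of_nonneg_right hI hX
  have h9 : 0 ≤ X / 2 ^ I * q := by positivity
  nlinarith

theorem log_div_two_pow {X : ℝ} (hX : 0 < X) (i : ℕ) :
    Real.log (X / 2 ^ i) = Real.log X - i * Real.log 2 := by
  rw [Real.log_div hX.ne' (by positivity), Real.log_pow]

theorem H_all {S : Set ℤ} {M₀ : ℝ} (hM₀ : 0 ≤ M₀) (hS : ∀ c ∈ S, |(c : ℝ)| ≤ M₀) {d : ℝ}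
    (hd : Dens 1 (Reach S) d) (y : ℝ) {ε : ℝ} (hε : 0 < ε) : ∀ᶠ X : ℝ in atTop,
      cN (Hs S (tb y (Real.log X))) X ≤ X * (d * Phi y + ε) := by
  obtain ⟨hd0, hd1⟩ := dens_bounds hd
  obtain ⟨δ, hδ, hδ'⟩ := Phi_right (y := y) (by positivity : 0 < ε / 4)
  have hP := Phi_nonneg (y + δ)
  have h := all_of_odd hM₀ (fam_Hs hS) (y := y) (q := d * Phi (y + δ) + ε / 4) (by positivity) 0
    (by positivity : 0 < ε / 4) (fun i => by
    have h1 : Tendsto (fun X : ℝ => X / 2 ^ i) atTop atTop :=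
      tendsto_id.atTop_div_const (by positivity)
    have h2 := h1.eventually (H_est hS hd (y + δ) (by positivity : 0 < ε / 4))
    have h3 := Real.tendsto_log_atTop.eventually (tb_shift y 0 (i * Real.log 2) 0 hδ)
    filter_upwards [h2, h3, eventually_gt_atTop 0] with X h4 h5 h6
    apply h4
    rw [log_div_two_pow h6 i]
    unfold tb at h5 ⊢
    have : (0 : ℝ) ≤ i := Nat.cast_nonneg _
    linarith)
  filter_upwards [h, eventually_ge_atTop 0] with X h1 h2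
  rw [sub_zero] at h1
  refine h1.trans (mul_le_mul_of_nonneg_left ?_ h2)
  have h3 := mul_le_mul_of_nonneg_left hδ' hd0
  have h4 : d * (ε / 4) ≤ 1 * (ε / 4) := mul_le_mul_of_nonneg_right hd1 (by positivity)
  linarith

theorem L_all {S : Set ℤ} {M₀ : ℝ} (hM₀ : 0 ≤ M₀) (hS : ∀ c ∈ S, |(c : ℝ)| ≤ M₀) {d : ℝ}
    (hd : Dens 1 (Reach S) d) (y w : ℝ) {ε : ℝ} (hε : 0 < ε) : ∀ᶠ X : ℝ in atTop,
      cN (Ls S (tb y (Real.log X - w))) X ≤ X * (d * Phi (-y) + ε) := by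
  obtain ⟨hd0, hd1⟩ := dens_bounds hd
  obtain ⟨δ, hδ, hδ'⟩ := Phi_right (y := -y) (by positivity : 0 < ε / 4)
  have hP := Phi_nonneg (-y + δ)
  have h := all_of_odd hM₀ (fam_Ls hS) (y := y) (q := d * Phi (-y + δ) + ε / 4) (by positivity) w
    (by positivity : 0 < ε / 4) (fun i => by
    have h1 : Tendsto (fun X : ℝ => X / 2 ^ i) atTop atTop :=
      tendsto_id.atTop_div_const (by positivity)
    have h2 := h1.eventually (L_est hS hd (y - δ) (by positivity : 0 < ε / 4))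
    have h3 := Real.tendsto_log_atTop.eventually (tb_shift (y - δ) (i * Real.log 2) w i hδ)
    filter_upwards [h2, h3, eventually_gt_atTop 0] with X h4 h5 h6
    have e : -(y - δ) = -y + δ := by ring
    rw [e] at h4
    apply h4
    rw [log_div_two_pow h6 i]
    rw [sub_add_cancel] at h5
    unfold tb at h5 ⊢
    linarith)
  filter_upwards [h, eventually_ge_atTop 0] with X h1 h2
  refine h1.trans (mul_le_mul_of_nonneg_left ?_ h2)
  have h3 := mul_le_mul_of_nonneg_left hδ' hd0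
  have h4 : d * (ε / 4) ≤ 1 * (ε / 4) := mul_le_mul_of_nonneg_right hd1 (by positivity)
  linarith

/-- The integers that hit `S` within the time budget. -/
def HN (S : Set ℤ) (y : ℝ) : Set ℤ := {z | z ∈ Hs S (tb y (Real.log (z.toNat : ℝ)))}

theorem HN_upper {S : Set ℤ} {M₀ : ℝ} (hM₀ : 0 ≤ M₀) (hS : ∀ c ∈ S, |(c : ℝ)| ≤ M₀) {d : ℝ}
    (hd : Dens 1 (Reach S) d) (y : ℝ) {ε : ℝ} (hε : 0 < ε) : ∀ᶠ X : ℝ in atTop,
      cN (HN S y) X ≤ X * (d * Phi y + ε) := by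
  have h0 := Real.tendsto_log_atTop.eventually (tb_mono y)
  filter_upwards [H_all hM₀ hS hd y hε, h0] with X h1 h2
  refine le_trans (cN_mono ?_) h1
  intro n hn hnX hnH
  refine ⟨hnX, ?_⟩
  obtain ⟨k, hk, hkS⟩ := hnH
  refine ⟨k, hk.trans ?_, hkS⟩
  rw [Int.toNat_natCast]
  have hn0 : (1 : ℝ) ≤ n := by exact_mod_cast hn
  exact h2 _ _ (Real.log_nonneg hn0) (Real.log_le_log (by linarith) hnX) le_rfl

theorem cN_reach {S : Set ℤ} {d : ℝ} (hd : Dens 1 (Reach S) d) {ε : ℝ} (hε : 0 < ε) :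
    ∀ᶠ X : ℝ in atTop, X * (d - ε) ≤ cN (Reach S) X := by
  have h1 := hd.tendsto.eventually_const_le (by linarith : d - ε / 2 < d)
  filter_upwards [h1, eventually_ge_atTop (2 / ε), eventually_gt_atTop 0] with X h2 h3 h4
  unfold Pool.Agent.Collatz3.DN.D at h2
  rw [le_div_iff₀ h4] at h2
  rw [div_le_iff₀ hε] at h3
  have h5 : (Set.ncard {m : ℕ | (m : ℝ) ≤ X ∧ (1 : ℤ) * m ∈ Reach S} : ℝ) ≤
      cN (Reach S) X + 1 := by
    unfold cN
    have h6 : {m : ℕ | (m : ℝ) ≤ X ∧ (1 : ℤ) * m ∈ Reach S} ⊆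
        insert 0 {n : ℕ | 1 ≤ n ∧ (n : ℝ) ≤ X ∧ (n : ℤ) ∈ Reach S} := by
      rintro m ⟨h7, h8⟩
      rw [one_mul] at h8
      rcases Nat.eq_zero_or_pos m with h9 | h9
      · exact Or.inl h9
      · exact Or.inr ⟨h9, h7, h8⟩
    have h7 := (Set.ncard_le_ncard h6 ((cN_finite _ X).insert 0)).trans (Set.ncard_insert_le _ _)
    exact_mod_cast h7
  linarith

theorem HN_lower {S : Set ℤ} {M₀ : ℝ} (hM₀ : 0 ≤ M₀) (hS : ∀ c ∈ S, |(c : ℝ)| ≤ M₀) {d : ℝ}
    (hd : Dens 1 (Reach S) d) (y : ℝ) {ε : ℝ} (hε : 0 < ε) : ∀ᶠ X : ℝ in atTop,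
      X * (d * Phi y - ε) ≤ cN (HN S y) X := by
  obtain ⟨W, hW1, hW⟩ : ∃ W : ℝ, 1 ≤ W ∧ 1 / W ≤ ε / 4 := by
    refine ⟨max 1 (4 / ε), le_max_left _ _, ?_⟩
    rw [div_le_iff₀ (by positivity)]
    have h1 : 4 / ε ≤ max 1 (4 / ε) := le_max_right _ _
    have h2 : ε / 4 * (4 / ε) = 1 := by field_simp
    calc (1 : ℝ) = ε / 4 * (4 / ε) := h2.symm
      _ ≤ ε / 4 * max 1 (4 / ε) := mul_le_mul_of_nonneg_left h1 (by positivity)
  have h0 : Tendsto (fun X : ℝ => Real.log X - Real.log W) atTop atTop :=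
    tendsto_atTop_add_const_right _ _ Real.tendsto_log_atTop
  filter_upwards [L_all hM₀ hS hd y (Real.log W) (by positivity : 0 < ε / 4),
    h0.eventually (tb_mono y), cN_reach hd (by positivity : 0 < ε / 4), eventually_ge_atTop 1,
    Real.tendsto_log_atTop.eventually_ge_atTop (Real.log W)] with X h1 h2 h3 h4 h5
  have hX0 : 0 < X := by linarith
  have h6 : cN (Reach S) X ≤ cN (HN S y) X +
      cN ({z : ℤ | (z : ℝ) ≤ X / W} ∪ Ls S (tb y (Real.log X - Real.log W))) X := by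
    apply cN_union
    intro n hn hnX hnR
    by_cases h7 : (n : ℤ) ∈ HN S y
    · exact Or.inl h7
    · right
      rcases le_or_gt (n : ℝ) (X / W) with h8 | h8
      · left
        simpa using h8
      · right
        refine ⟨hnR, fun k hk hkS => h7 ⟨k, hk.trans ?_, hkS⟩⟩
        rw [Int.toNat_natCast]
        have h9 := Real.log_le_log (by positivity) h8.le
        rw [Real.log_div hX0.ne' (by positivity)] at h9
        exact h2 _ _ (by linarith) h9 h9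
  have h7 : cN ({z : ℤ | (z : ℝ) ≤ X / W} ∪ Ls S (tb y (Real.log X - Real.log W))) X ≤
      cN {z : ℤ | (z : ℝ) ≤ X / W} X + cN (Ls S (tb y (Real.log X - Real.log W))) X :=
    cN_union fun n _ _ hn => hn
  have h8 : cN {z : ℤ | (z : ℝ) ≤ X / W} X ≤ cN Set.univ (X / W) := by
    apply cN_mono
    intro n _ _ h7
    refine ⟨?_, Set.mem_univ _⟩
    simpa using h7
  have h9 := cN_le Set.univ (by positivity : 0 ≤ X / W)
  have h10 : X / W ≤ ε / 4 * X := by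
    calc X / W = 1 / W * X := by ring
      _ ≤ ε / 4 * X := mul_le_mul_of_nonneg_right hW hX0.le
  rw [Phi_neg] at h1
  nlinarith

theorem HN_tendsto {S : Set ℤ} {M₀ : ℝ} (hM₀ : 0 ≤ M₀) (hS : ∀ c ∈ S, |(c : ℝ)| ≤ M₀) {d : ℝ}
    (hd : Dens 1 (Reach S) d) (y : ℝ) :
    Tendsto (fun X : ℝ => cN (HN S y) X / X) atTop (𝓝 (d * Phi y)) := by
  rw [Metric.tendsto_nhds]
  intro ε hε
  filter_upwards [HN_upper hM₀ hS hd y (by positivity : 0 < ε / 2),
    HN_lower hM₀ hS hd y (by positivity : 0 < ε / 2), eventually_gt_atTop 0] with X h1 h2 h3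
  rw [Real.dist_eq, abs_lt]
  have h4 : cN (HN S y) X / X ≤ d * Phi y + ε / 2 := by
    rw [div_le_iff₀ h3]
    linarith
  have h5 : d * Phi y - ε / 2 ≤ cN (HN S y) X / X := by
    rw [le_div_iff₀ h3]
    linarith
  constructor <;> linarith

theorem reach_tendsto {S : Set ℤ} {d : ℝ} (hd : Dens 1 (Reach S) d) :
    Tendsto (fun X : ℝ => cN (Reach S) X / X) atTop (𝓝 d) := by
  rw [Metric.tendsto_nhds]
  intro ε hε
  filter_upwards [cN_reach hd (by positivity : 0 < ε / 2),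
    hd.tendsto.eventually_le_const (by linarith : d < d + ε / 2), eventually_gt_atTop 0]
    with X h1 h2 h3
  rw [Real.dist_eq, abs_lt]
  have h4 : cN (Reach S) X / X ≤ d + ε / 2 := by
    refine le_trans ?_ h2
    unfold Pool.Agent.Collatz3.DN.D
    apply div_le_div_of_nonneg_right _ h3.le
    unfold cN
    have h6 : {n : ℕ | 1 ≤ n ∧ (n : ℝ) ≤ X ∧ (n : ℤ) ∈ Reach S} ⊆
        {m : ℕ | (m : ℝ) ≤ X ∧ (1 : ℤ) * m ∈ Reach S} := by
      rintro m ⟨-, h7, h8⟩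
      exact ⟨h7, by rwa [one_mul]⟩
    exact_mod_cast Set.ncard_le_ncard h6 (Pool.Agent.Collatz3.DN.count_finite 1 _ X)
  have h5 : d - ε / 2 ≤ cN (Reach S) X / X := by
    rw [le_div_iff₀ h3]
    linarith
  constructor <;> linarith

theorem tb_eq (y u : ℝ) : tb y u = 2 / Real.log (4 / 3) * u +
    y * √(2 * Real.log 3 ^ 2 / Real.log (4 / 3) ^ 3 * u) := by
  have h1 := log_four_thirds_pos
  have h3 : 0 < Real.log 3 := Real.log_pos (by norm_num)
  have h4 : gam * Real.log 2 - 1 = Real.log 3 / Real.log (4 / 3) := by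
    unfold gam
    rw [eq_div_iff h1.ne']
    have := log_four_thirds
    field_simp
    linarith
  have h5 : 2 * Real.log 3 ^ 2 / Real.log (4 / 3) ^ 3 * u =
      (Real.log 3 / Real.log (4 / 3)) ^ 2 * (gam * u) := by
    unfold gam
    field_simp
  have h6 : √((Real.log 3 / Real.log (4 / 3)) ^ 2 * (gam * u)) =
      Real.log 3 / Real.log (4 / 3) * √(gam * u) := by
    rw [Real.sqrt_mul (by positivity) (gam * u), Real.sqrt_sq (by positivity)]
  unfold tb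
  rw [h4, h5, h6]
  rfl

theorem first_hit {F : Set ℕ} {n : ℕ} {t : ℝ} : (∃ k : ℕ, Tn^[k] n ∈ F ∧ (∀ j < k, Tn^[j] n ∉ F) ∧
    (k : ℝ) ≤ t) ↔ ∃ k : ℕ, (k : ℝ) ≤ t ∧ Tn^[k] n ∈ F := by
  classical
  constructor
  · rintro ⟨k, h1, -, h2⟩
    exact ⟨k, h2, h1⟩
  · rintro ⟨k, h1, h2⟩
    have h3 : ∃ k : ℕ, Tn^[k] n ∈ F := ⟨k, h2⟩
    refine ⟨Nat.find h3, Nat.find_spec h3, fun j hj => Nat.find_min h3 hj, ?_⟩
    have h4 : ((Nat.find h3 : ℕ) : ℝ) ≤ k := by exact_mod_cast Nat.find_min' h3 h2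
    linarith

theorem Tn_pos {n : ℕ} (hn : 1 ≤ n) (k : ℕ) : 1 ≤ Tn^[k] n := by
  induction k generalizing n with
  | zero => exact hn
  | succ k ih =>
    rw [Function.iterate_succ_apply]
    apply ih
    unfold Tn
    split_ifs with h <;> omega

/-- The counting function of the integers whose orbit meets `F`. -/
noncomputable def rc (F : Finset ℕ) (x : ℕ) : ℝ :=
  ({n : ℕ | 1 ≤ n ∧ n ≤ x ∧ ∃ k : ℕ, Tn^[k] n ∈ F}.ncard : ℝ)

theorem rc_finite (F : Finset ℕ) (x : ℕ) :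
    {n : ℕ | 1 ≤ n ∧ n ≤ x ∧ ∃ k : ℕ, Tn^[k] n ∈ F}.Finite :=
  (Set.finite_Icc 1 x).subset fun _ hn => ⟨hn.1, hn.2.1⟩

theorem rc_le (F : Finset ℕ) (x : ℕ) : rc F x ≤ x := by
  have h1 : {n : ℕ | 1 ≤ n ∧ n ≤ x ∧ ∃ k : ℕ, Tn^[k] n ∈ F} ⊆ Set.Icc 1 x :=
    fun _ hn => ⟨hn.1, hn.2.1⟩
  have h2 := Set.ncard_le_ncard h1 (Set.finite_Icc 1 x)
  rw [← Finset.coe_Icc, Set.ncard_coe_finset, Nat.card_Icc, Nat.add_sub_cancel] at h2
  unfold rc
  exact_mod_cast h2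

theorem rc_ge : ∃ M₀ : ℕ, ∀ M : ℕ, M₀ ≤ M → ∀ x : ℕ, 1 ≤ x →
    x - 2 * (x / Real.log M ^ 5) ≤ rc (Finset.Icc 1 M) x := by
  obtain ⟨M₁, hM₁, h⟩ := passage_all (θ := 3 / 4) (by norm_num) (by norm_num)
  obtain ⟨M₀, hM₀⟩ := exists_nat_ge M₁
  refine ⟨M₀, fun M hM x hx => ?_⟩
  have h1 := h M x (tau (3 / 4) (Real.log x)) (hM₀.trans (by exact_mod_cast hM))
    (by exact_mod_cast hx) le_rfl
  have h2 : (Set.Icc 1 x : Set ℕ) ⊆
      {n : ℕ | 1 ≤ n ∧ n ≤ x ∧ ∃ k : ℕ, Tn^[k] n ∈ Finset.Icc 1 M} ∪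
      {n : ℕ | 1 ≤ n ∧ (n : ℝ) ≤ x ∧ (n : ℤ) ∈ Bd M (tau (3 / 4) (Real.log x))} := by
    rintro n ⟨h3, h4⟩
    by_cases h5 : ∃ k : ℕ, Tn^[k] n ∈ Finset.Icc 1 M
    · exact Or.inl ⟨h3, h4, h5⟩
    · right
      refine ⟨h3, by exact_mod_cast h4, fun j _ => ?_⟩
      by_contra hcon
      apply h5
      refine ⟨j, ?_⟩
      rw [Finset.mem_Icc]
      refine ⟨Tn_pos h3 j, ?_⟩
      rw [not_lt, iter_cast, Int.cast_natCast, Nat.abs_cast] at hcon
      exact_mod_cast hcon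
  have h3 := (Set.ncard_le_ncard h2 ((rc_finite _ x).union (cN_finite _ _))).trans
    (Set.ncard_union_le _ _)
  rw [← Finset.coe_Icc, Set.ncard_coe_finset, Nat.card_Icc, Nat.add_sub_cancel] at h3
  have h4 : (x : ℝ) ≤ rc (Finset.Icc 1 M) x + cN (Bd M (tau (3 / 4) (Real.log x))) x := by
    unfold rc cN
    exact_mod_cast h3
  linarith

/-- **Central limit theorem for hitting times.** -/
theorem hitting_clt : ∃ c : ℝ, 0 < c ∧ ∃ d : Finset ℕ → ℝ,
    (∀ F : Finset ℕ, Tendsto (fun x : ℕ =>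
      ({n : ℕ | 1 ≤ n ∧ n ≤ x ∧ ∃ k : ℕ, Tn^[k] n ∈ F}.ncard : ℝ) / x) atTop (𝓝 (d F))) ∧
    (∀ F : Finset ℕ, ∀ a ∈ F, 0 < a → ¬ 3 ∣ a → c / a ≤ d F) ∧
    Tendsto (fun M : ℕ => d (Finset.Icc 1 M)) atTop (𝓝 1) ∧
    ∀ (F : Finset ℕ) (y : ℝ), Tendsto (fun x : ℕ =>
      ({n : ℕ | 1 ≤ n ∧ n ≤ x ∧ ∃ k : ℕ, Tn^[k] n ∈ F ∧ (∀ j < k, Tn^[j] n ∉ F) ∧
        (k : ℝ) ≤ 2 / Real.log (4 / 3) * Real.log (n : ℝ) +
          y * √(2 * Real.log 3 ^ 2 / Real.log (4 / 3) ^ 3 * Real.log (n : ℝ))}.ncard : ℝ) / x)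
      atTop (𝓝 (d F * (gaussianReal 0 1).real (Set.Iic y))) := by
  obtain ⟨c, hc, h⟩ := domain_density
  have key : ∀ F : Finset ℕ, ∃ d : ℝ,
      Tendsto (fun x : ℕ => rc F x / x) atTop (𝓝 d) ∧
      ∀ y : ℝ, Tendsto (fun x : ℕ => ({n : ℕ | 1 ≤ n ∧ n ≤ x ∧ ∃ k : ℕ, Tn^[k] n ∈ F ∧
        (∀ j < k, Tn^[j] n ∉ F) ∧ (k : ℝ) ≤ 2 / Real.log (4 / 3) * Real.log (n : ℝ) +
          y * √(2 * Real.log 3 ^ 2 / Real.log (4 / 3) ^ 3 * Real.log (n : ℝ))}.ncard : ℝ) / x)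
      atTop (𝓝 (d * (gaussianReal 0 1).real (Set.Iic y))) := by
    intro F
    obtain ⟨S, hSdef⟩ : ∃ S : Set ℤ, S = (fun a : ℕ => (a : ℤ)) '' (F : Set ℕ) := ⟨_, rfl⟩
    have hSmem : ∀ m : ℕ, (m : ℤ) ∈ S ↔ m ∈ F := by
      intro m
      rw [hSdef]
      simp
    obtain ⟨C, hC⟩ : ∃ C : ℕ, ∀ c ∈ S, |c| ≤ C := by
      refine ⟨F.sup id, ?_⟩
      rw [hSdef]
      rintro c ⟨a, ha, rfl⟩
      rw [Nat.abs_cast]
      exact_mod_cast Finset.le_sup (f := id) (Finset.mem_coe.1 ha)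
    have hCr : ∀ c ∈ S, |(c : ℝ)| ≤ (C : ℝ) := by
      intro c hc
      have := hC c hc
      exact_mod_cast this
    obtain ⟨d, hd⟩ := dens_exists (σ := 1) (by norm_num) (Pool.Agent.Collatz3.DN.Reach.evInv hC)
    have hreach : ∀ n : ℕ, (n : ℤ) ∈ Reach S ↔ ∃ k : ℕ, Tn^[k] n ∈ F := by
      intro n
      constructor
      · rintro ⟨k, hk⟩
        rw [iter_cast, hSmem] at hk
        exact ⟨k, hk⟩
      · rintro ⟨k, hk⟩
        exact ⟨k, by rw [iter_cast, hSmem]; exact hk⟩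
    refine ⟨d, ?_, ?_⟩
    · refine ((reach_tendsto hd).comp tendsto_natCast_atTop_atTop).congr fun x => ?_
      simp only [Function.comp]
      unfold cN rc
      congr 3
      ext n
      simp only [Set.mem_ofPred_eq, Nat.cast_le, hreach]
    · intro y
      have h2 := (HN_tendsto (Nat.cast_nonneg C) hCr hd y).comp tendsto_natCast_atTop_atTop
      refine h2.congr fun x => ?_
      simp only [Function.comp]
      unfold cN
      congr 3
      ext n
      simp only [Set.mem_ofPred_eq, Nat.cast_le]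
      constructor
      · rintro ⟨h3, h4, k, h5, h6⟩
        refine ⟨h3, h4, ?_⟩
        rw [iter_cast, hSmem] at h6
        rw [Int.toNat_natCast, tb_eq y (Real.log (n : ℝ))] at h5
        have h7 := (first_hit (F := (F : Set ℕ)) (n := n)).2 ⟨k, h5, h6⟩
        exact h7
      · rintro ⟨h3, h4, k, h5, -, h6⟩
        refine ⟨h3, h4, k, ?_, ?_⟩
        · rw [Int.toNat_natCast, tb_eq y (Real.log (n : ℝ))]
          exact h6
        · rw [iter_cast, hSmem]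
          exact h5
  choose d hd1 hd2 using key
  refine ⟨c, hc, d, hd1, ?_, ?_, hd2⟩
  · intro F a haF ha0 ha3
    apply ge_of_tendsto (hd1 F)
    filter_upwards [eventually_ge_atTop a, eventually_gt_atTop 0] with x hx hx0
    have hx0' : (0 : ℝ) < x := by exact_mod_cast hx0
    rw [le_div_iff₀ hx0']
    have h3 := h a ha0 ha3 x hx
    have h4 : {n : ℕ | 1 ≤ n ∧ n ≤ x ∧ ∃ k : ℕ, Tn^[k] n = a} ⊆
        {n : ℕ | 1 ≤ n ∧ n ≤ x ∧ ∃ k : ℕ, Tn^[k] n ∈ F} := by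
      rintro n ⟨h5, h6, k, h7⟩
      exact ⟨h5, h6, k, by rw [h7]; exact haF⟩
    have h6 : ({n : ℕ | 1 ≤ n ∧ n ≤ x ∧ ∃ k : ℕ, Tn^[k] n = a}.ncard : ℝ) ≤ rc F x := by
      unfold rc
      exact_mod_cast Set.ncard_le_ncard h4 (rc_finite F x)
    have h7 : c / (a : ℝ) * x = c * (x / a) := by ring
    rw [h7]
    exact h3.trans h6
  · obtain ⟨M₀, hM₀⟩ := rc_ge
    have h1 : Tendsto (fun M : ℕ => 1 - 2 * (1 / Real.log (M : ℝ) ^ 5)) atTop (𝓝 1) := by
      have h2 : Tendsto (fun M : ℕ => 1 / Real.log (M : ℝ) ^ 5) atTop (𝓝 0) := by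
        apply Tendsto.const_div_atTop
        exact (tendsto_pow_atTop (by norm_num)).comp
          (Real.tendsto_log_atTop.comp tendsto_natCast_atTop_atTop)
      simpa using (tendsto_const_nhds (x := (1 : ℝ))).sub (h2.const_mul 2)
    refine tendsto_of_tendsto_of_tendsto_of_le_of_le' h1 tendsto_const_nhds ?_ ?_
    · filter_upwards [eventually_ge_atTop M₀] with M hM
      apply ge_of_tendsto (hd1 (Finset.Icc 1 M))
      filter_upwards [eventually_ge_atTop 1] with x hx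
      have hx0 : (0 : ℝ) < x := by exact_mod_cast hx
      rw [le_div_iff₀ hx0]
      have h2 := hM₀ M hM x hx
      refine le_trans (le_of_eq ?_) h2
      ring
    · filter_upwards with M
      apply le_of_tendsto (hd1 (Finset.Icc 1 M))
      filter_upwards [eventually_ge_atTop 1] with x hx
      have hx0 : (0 : ℝ) < x := by exact_mod_cast hx
      rw [div_le_one hx0]
      exact rc_le _ _

end Pool.Agent.Collatz3.FW
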