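import Mathlib
import Pool.Agent.Collatz3.Defs
import Pool.Agent.Collatz3.Words
import Pool.Agent.Collatz3.Deduce

set_option autoImplicit false

/-!
From uniform growth of the inverse tree to the number of integers with a large total stopping time.
-/

namespace Pool.Agent.Collatz3

/-- `A` is a base point for the target `a`: the orbit of `A` meets `a`, but `A` is not on the
(strict) forward orbit of `a`. -/
structure Base (a A : ℕ) : Prop where
  pos : 0 < A
  three : ¬ 3 ∣ A
  reach : ∃ t, T3^[t] A = a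
  not_fwd : ∀ j, 0 < j → T3^[j] a ≠ A

theorem Base.not_per {a A : ℕ} (h : Base a A) {j : ℕ} (hj : 0 < j) : T3^[j] A ≠ A := by
  intro hA
  obtain ⟨t, ht⟩ := h.reach
  have hm : ∀ m, T3^[j * m] A = A := by
    intro m
    induction m with
    | zero => rfl
    | succ m ih => rw [Nat.mul_succ, Function.iterate_add_apply, hA, ih]
  obtain ⟨d, hd⟩ : ∃ d, j * (t + 1) = d + t := ⟨j * (t + 1) - t, by
    have : t + 1 ≤ j * (t + 1) := Nat.le_mul_of_pos_left _ hj
    omega⟩
  have h1 := hm (t + 1)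
  rw [hd, Function.iterate_add_apply, ht] at h1
  refine h.not_fwd d ?_ h1
  have : t + 1 ≤ j * (t + 1) := Nat.le_mul_of_pos_left _ hj
  omega

/-- The time to reach the base point is unique. -/
theorem Base.time_unique {a A : ℕ} (h : Base a A) {b i j : ℕ} (hi : T3^[i] b = A)
    (hj : T3^[j] b = A) : i = j := by
  by_contra hne
  rcases lt_or_gt_of_ne hne with h1 | h1
  · obtain ⟨d, rfl⟩ : ∃ d, j = d + i := ⟨j - i, by omega⟩
    rw [Function.iterate_add_apply, hi] at hj
    exact h.not_per (by omega) hj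
  · obtain ⟨d, rfl⟩ : ∃ d, i = d + j := ⟨i - j, by omega⟩
    rw [Function.iterate_add_apply, hj] at hi
    exact h.not_per (by omega) hi

theorem Base.time_le {a A : ℕ} (h : Base a A) {b i k : ℕ} (hi : T3^[i] b = A)
    (hk : T3^[k] b = a) : i ≤ k := by
  by_contra h1
  obtain ⟨d, rfl⟩ : ∃ d, i = d + k := ⟨i - k, by omega⟩
  rw [Function.iterate_add_apply, hk] at hi
  exact h.not_fwd d (by omega) hi

theorem three_not_dvd_two_pow_mul {j a : ℕ} (h : ¬ 3 ∣ a) : ¬ 3 ∣ 2 ^ j * a := by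
  intro h1
  rcases (Nat.Prime.dvd_mul Nat.prime_three).1 h1 with h2 | h2
  · have := Nat.Prime.dvd_of_dvd_pow Nat.prime_three h2
    norm_num at this
  · exact h h2

/-- Every target prime to 3 has a base point. -/
theorem exists_base {a : ℕ} (ha : 0 < a) (h3 : ¬ 3 ∣ a) : ∃ A, Base a A := by
  by_cases hper : ∃ p, 0 < p ∧ T3^[p] a = a
  · obtain ⟨p, hp, hpa⟩ := hper
    -- the orbit is bounded
    obtain ⟨M, hM⟩ : ∃ M, ∀ j, T3^[j] a ≤ M := by
      refine ⟨∑ j ∈ Finset.range p, T3^[j] a, fun j => ?_⟩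
      have h1 : ∀ m i, T3^[i + p * m] a = T3^[i] a := by
        intro m
        induction m with
        | zero => intro i; rfl
        | succ m ih =>
          intro i
          have e : i + p * (m + 1) = (i + p * m) + p := by ring
          rw [e, Function.iterate_add_apply, hpa, ih]
      have h2 : T3^[j] a = T3^[j % p] a := by
        conv_lhs => rw [← Nat.mod_add_div j p]
        exact h1 _ _
      rw [h2]
      exact Finset.single_le_sum (f := fun j => T3^[j] a) (fun _ _ => Nat.zero_le _)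
        (Finset.mem_range.2 (Nat.mod_lt _ hp))
    refine ⟨2 ^ (M + 1) * a, by positivity, three_not_dvd_two_pow_mul h3, ⟨_, T3_iter_pow _ _⟩,
      fun j _ hj => ?_⟩
    have h4 := hM j
    rw [hj] at h4
    have h5 : M + 1 < 2 ^ (M + 1) := Nat.lt_two_pow_self
    have h6 : 2 ^ (M + 1) * 1 ≤ 2 ^ (M + 1) * a := Nat.mul_le_mul_left _ ha
    omega
  · push Not at hper
    exact ⟨a, ha, h3, ⟨0, rfl⟩, fun j hj => hper j hj⟩

/-- The nodes above the base point reached by the words with `n` letters and size at most `B`. -/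
theorem nodes {a A : ℕ} (hA : Base a A) (n : ℕ) (B : ℝ) :
    ∃ F : Finset ℕ, F.card = cnt (A : ℤ) n B ∧ ∀ b ∈ F, 1 ≤ b ∧
    (b : ℝ) * 3 ^ n ≤ A * B ∧ (∃ k, T3^[k] b = a) ∧
    ∃ S : ℕ, (b : ℝ) * 3 ^ n ≤ A * 2 ^ S ∧ (2 : ℝ) ^ S ≤ B ∧ ∀ k, T3^[k] b = a → S ≤ k := by
  classical
  have hA0 : (0 : ℤ) < (A : ℤ) := by exact_mod_cast hA.pos
  let f : List ℕ → ℕ := fun w =>
    if h : Ok (A : ℤ) w then (Classical.choose h).toNat else 0
  have hf : ∀ w ∈ paths (A : ℤ) n B, ∃ b : ℤ, Up (A : ℤ) w b ∧ f w = b.toNat := by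
    rintro w ⟨_, _, _, h4⟩
    refine ⟨Classical.choose h4, (Classical.choose_spec h4).1, ?_⟩
    simp only [f, dif_pos h4]
  have hinj : Set.InjOn f (paths (A : ℤ) n B) := by
    intro w hw w' hw' hww
    obtain ⟨b, hb, hfb⟩ := hf w hw
    obtain ⟨b', hb', hfb'⟩ := hf w' hw'
    have hp := hb.pos hA0 hw.2.1
    have hp' := hb'.pos hA0 hw'.2.1
    rw [hfb, hfb'] at hww
    have hbb : b = b' := by omega
    have t1 := hb.iter hA0 hw.2.1
    have t2 := hb'.iter hA0 hw'.2.1
    rw [hbb] at t1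
    have hsum : w.sum = w'.sum :=
      hA.time_unique (b := b'.toNat) (by simpa using t1) (by simpa using t2)
    have hlen : w.length = w'.length := by rw [hw.1, hw'.1]
    refine word_inj w w' hw.2.1 hw'.2.1 hlen hsum ?_
    have e1 := hb.rel
    have e2 := hb'.rel
    rw [hsum, hlen, hbb] at e1
    have e3 : (cw w : ℤ) = cw w' := by linarith
    exact_mod_cast e3
  have hfin := paths_finite (A : ℤ) n B
  refine ⟨(hfin.toFinset).image f, ?_, ?_⟩
  · rw [Finset.card_image_of_injOn, cnt, Set.ncard_eq_toFinset_card _ hfin]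
    rw [Set.Finite.coe_toFinset]
    exact hinj
  · intro b hb
    rw [Finset.mem_image] at hb
    obtain ⟨w, hw, rfl⟩ := hb
    rw [Set.Finite.mem_toFinset] at hw
    obtain ⟨c, hc, hfc⟩ := hf w hw
    have hp := hc.pos hA0 hw.2.1
    have ht := hc.iter hA0 hw.2.1
    have ht5 : T3^[w.sum] c.toNat = A := by simpa using ht
    have hrel := hc.rel
    rw [hfc]
    obtain ⟨C, hC⟩ : ∃ C : ℕ, C = c.toNat := ⟨_, rfl⟩
    have hcC : c = (C : ℤ) := by omega
    rw [← hC] at ht5 ⊢
    rw [hcC, hw.1] at hrel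
    have hrelR : (2 : ℝ) ^ w.sum * A = 3 ^ n * C + cw w := by exact_mod_cast hrel
    have hcw : (0 : ℝ) ≤ (cw w : ℝ) := Nat.cast_nonneg _
    have hsz : (2 : ℝ) ^ w.sum + cw w ≤ B := by
      have := hw.2.2.1
      unfold size at this
      push_cast at this
      exact this
    obtain ⟨t, hta⟩ := hA.reach
    have hk : T3^[t + w.sum] C = a := by
      rw [Function.iterate_add_apply, ht5, hta]
    have hAR : (0 : ℝ) < A := by exact_mod_cast hA.pos
    have h1 : (C : ℝ) * 3 ^ n ≤ A * 2 ^ w.sum := by nlinarith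
    have h2 : (A : ℝ) * 2 ^ w.sum ≤ A * B := mul_le_mul_of_nonneg_left (by linarith) hAR.le
    exact ⟨by omega, h1.trans h2, ⟨_, hk⟩, w.sum, h1, by linarith, fun k hk => hA.time_le ht5 hk⟩

theorem aux_K {K κ y l S : ℝ} (hκ : κ < K) (h : K * l / (K - κ) ≤ y) (h2 : K * (y - l) ≤ S) :
    κ * y ≤ S := by
  rw [div_le_iff₀ (by linarith)] at h
  have e : κ * y = K * y - y * (K - κ) := by ring
  have e2 : K * (y - l) = K * y - K * l := by ring
  rw [e]
  rw [e2] at h2
  linarith

theorem aux_S {sd l3 l2 D y l5 S n : ℝ} (hsd : 0 < sd) (hl3 : 0 < l3) (hD : D = sd - l3)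
    (e1 : y + n * l3 ≤ l5 + S * l2) (e2 : S * l2 ≤ sd * n) :
    sd * (y - l5) ≤ l2 * D * S := by
  have e6 : sd * (y - l5) ≤ sd * (S * l2 - n * l3) :=
    mul_le_mul_of_nonneg_left (by linarith) hsd.le
  have e7 : l3 * (S * l2) ≤ l3 * (sd * n) := mul_le_mul_of_nonneg_left e2 hl3.le
  have e8 : l2 * D * S = sd * (S * l2) - l3 * (S * l2) := by rw [hD]; ring
  have e9 : sd * (S * l2 - n * l3) = sd * (S * l2) - l3 * (sd * n) := by ring
  rw [e8]
  rw [e9] at e6
  linarith

theorem aux_exp {g d A D L l5 n c : ℝ} (hA : g - d = A * D) (hA0 : 0 ≤ A)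
    (hn : L - l5 - D ≤ D * n) (hc : c = A * l5 + A * D) : A * L - c ≤ (g - d) * n := by
  have e3 := mul_le_mul_of_nonneg_left hn hA0
  have e4 : A * (L - l5 - D) = A * L - c := by rw [hc]; ring
  have e5 : A * (D * n) = (g - d) * n := by rw [hA]; ring
  rw [e4, e5] at e3
  exact e3

open Real Filter

/-- The integers `b` whose orbit meets `a`, but not before the time `κ log b`. -/
def SlowSet (a : ℕ) (κ : ℝ) : Set ℕ :=
  {b | 1 ≤ b ∧ (∃ k, T3^[k] b = a) ∧ ∀ k, T3^[k] b = a → κ * log b ≤ k}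

theorem slow_finite (a : ℕ) (κ x : ℝ) : {b ∈ SlowSet a κ | (b : ℝ) ≤ x}.Finite := by
  refine (Set.finite_Iic ⌊x⌋₊).subset ?_
  rintro b ⟨_, hb⟩
  exact Nat.le_floor hb

theorem count_slow {s g r κ : ℝ} (h : UniformGrowth s g) (hs : log 3 < s) (hg : 0 < g)
    (hr : r < g / (s - log 3)) (hκ : κ < s / (log 2 * (s - log 3))) {a : ℕ} (ha : 0 < a)
    (h3 : ¬ 3 ∣ a) :
    ∀ᶠ x : ℝ in atTop, x ^ r ≤ ({b ∈ SlowSet a κ | (b : ℝ) ≤ x}.ncard : ℝ) := by
  obtain ⟨a', hbase⟩ := exists_base ha h3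
  have ha'0 : (0 : ℝ) < a' := by exact_mod_cast hbase.pos
  have h3' : ¬ (3 : ℤ) ∣ (a' : ℤ) := by
    intro h5
    exact hbase.three (by exact_mod_cast h5)
  have hl2 : 0 < log 2 := log_pos (by norm_num)
  have hl3 : 0 < log 3 := log_pos (by norm_num)
  have hD0 : 0 < s - log 3 := by linarith
  -- choice of d
  have hev : ∀ᶠ d in nhdsWithin (0 : ℝ) (Set.Ioi 0),
      (r < (g - d) / (s + d - log 3) ∧ κ < (s + d) / (log 2 * (s + d - log 3)) ∧ d < g) ∧ 0 < d := by
    have hc1 : ContinuousAt (fun d : ℝ => (g - d) / (s + d - log 3)) 0 := by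
      apply ContinuousAt.div (by fun_prop) (by fun_prop)
      simp only [add_zero]
      exact hD0.ne'
    have hc2 : ContinuousAt (fun d : ℝ => (s + d) / (log 2 * (s + d - log 3))) 0 := by
      apply ContinuousAt.div (by fun_prop) (by fun_prop)
      simp only [add_zero]
      positivity
    have h1 : Tendsto (fun d : ℝ => (g - d) / (s + d - log 3)) (nhds 0)
        (nhds (g / (s - log 3))) := by
      have := hc1.tendsto
      simpa using this
    have h2 : Tendsto (fun d : ℝ => (s + d) / (log 2 * (s + d - log 3))) (nhds 0)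
        (nhds (s / (log 2 * (s - log 3)))) := by
      have := hc2.tendsto
      simpa using this
    have e1 := h1.eventually (lt_mem_nhds hr)
    have e2 := h2.eventually (lt_mem_nhds hκ)
    have e3 : ∀ᶠ d in nhds (0 : ℝ), d < g := gt_mem_nhds hg
    filter_upwards [(e1.and (e2.and e3)).filter_mono nhdsWithin_le_nhds, self_mem_nhdsWithin]
      with d h4 h5
    exact ⟨⟨h4.1, h4.2.1, h4.2.2⟩, h5⟩
  obtain ⟨d, ⟨hd1, hd2, hd3⟩, hd0⟩ := hev.exists
  obtain ⟨N₀, hN₀⟩ := h d hd0
  obtain ⟨D, hD⟩ : ∃ D, D = s + d - log 3 := ⟨_, rfl⟩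
  have hDpos : 0 < D := by rw [hD]; linarith
  rw [← hD] at hd1 hd2
  obtain ⟨K, hK⟩ : ∃ K, K = (s + d) / (log 2 * D) := ⟨_, rfl⟩
  have hsd : 0 < s + d := by linarith
  have hKpos : 0 < K := by rw [hK]; positivity
  rw [← hK] at hd2
  obtain ⟨A, hA⟩ : ∃ A, A = (g - d) / D := ⟨_, rfl⟩
  have hApos : 0 < A := by
    rw [hA]
    exact div_pos (by linarith) hDpos
  rw [← hA] at hd1
  obtain ⟨β, hβ⟩ : ∃ β, β = K * log a' / (K - κ) := ⟨_, rfl⟩
  obtain ⟨B₀, hB₀⟩ : ∃ B₀ : ℕ, B₀ = ⌈Real.exp β⌉₊ + 1 := ⟨_, rfl⟩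
  obtain ⟨c, hc⟩ : ∃ c, c = A * log a' + A * D := ⟨_, rfl⟩
  have hlogtop : Tendsto (fun x : ℝ => log x) atTop atTop := Real.tendsto_log_atTop
  filter_upwards [hlogtop.eventually_ge_atTop (log a' + D * (N₀ + 1)),
    hlogtop.eventually_ge_atTop ((c + log 2) / (A - r)),
    hlogtop.eventually_ge_atTop ((c + log (2 * B₀)) / A), eventually_gt_atTop 0] with x hx1 hx2 hx3 hx0
  obtain ⟨L, hL⟩ : ∃ L, L = log x := ⟨_, rfl⟩
  rw [← hL] at hx1 hx2 hx3
  obtain ⟨n, hn⟩ : ∃ n, n = ⌊(L - log a') / D⌋₊ := ⟨_, rfl⟩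
  have hq : (N₀ : ℝ) + 1 ≤ (L - log a') / D := by
    rw [le_div_iff₀ hDpos]
    linarith
  have hnN : N₀ + 1 ≤ n := by
    rw [hn]
    apply Nat.le_floor
    push_cast
    exact hq
  have hq0 : 0 ≤ (L - log a') / D := by
    have : (0 : ℝ) ≤ N₀ := Nat.cast_nonneg _
    linarith
  have hn1 : (n : ℝ) ≤ (L - log a') / D := by
    rw [hn]
    exact Nat.floor_le hq0
  have hn2 : (L - log a') / D - 1 ≤ n := by
    have := Nat.lt_floor_add_one ((L - log a') / D)
    rw [← hn] at this
    linarith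
  have hn1' : D * n ≤ L - log a' := by
    have := mul_le_mul_of_nonneg_left hn1 hDpos.le
    rwa [mul_div_cancel₀ _ hDpos.ne'] at this
  have hcnt := hN₀ n (by omega) a' h3'
  obtain ⟨F, hF1, hF2⟩ := nodes hbase n (Real.exp ((s + d) * n))
  rw [← hF1] at hcnt
  -- the members of F which are at least B₀ are slow
  have hmem : ∀ b ∈ F, B₀ ≤ b → b ∈ {b ∈ SlowSet a κ | (b : ℝ) ≤ x} := by
    intro b hb hbB
    obtain ⟨b1, b2, b3, S, b4, b5, b6⟩ := hF2 b hb
    have hb0 : (0 : ℝ) < b := by exact_mod_cast b1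
    have h3n : (0 : ℝ) < 3 ^ n := by positivity
    have hl3n : log ((3 : ℝ) ^ n) = n * log 3 := by rw [Real.log_pow]
    refine ⟨⟨b1, b3, fun k hk => ?_⟩, ?_⟩
    · have hSk : (S : ℝ) ≤ k := by exact_mod_cast b6 k hk
      refine le_trans ?_ hSk
      -- log b + n log 3 ≤ log a' + S log 2
      have e1 : log b + n * log 3 ≤ log a' + S * log 2 := by
        have := Real.log_le_log (by positivity) b4
        rw [Real.log_mul hb0.ne' h3n.ne', Real.log_mul ha'0.ne' (by positivity),
          Real.log_pow, Real.log_pow] at this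
        exact this
      have e2 : S * log 2 ≤ (s + d) * n := by
        have := Real.log_le_log (by positivity) b5
        rwa [Real.log_pow, Real.log_exp] at this
      -- S ≥ K (log b - log a')
      have e3 : K * (log b - log a') ≤ S := by
        have e4 : log 2 * D * (K * (log b - log a')) ≤ log 2 * D * S := by
          have e5 : log 2 * D * (K * (log b - log a')) = (s + d) * (log b - log a') := by
            rw [hK]
            field_simp
          rw [e5]
          exact aux_S hsd hl3 hD e1 e2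
        exact le_of_mul_le_mul_left e4 (by positivity)
      have e8 : β ≤ log b := by
        rw [Real.le_log_iff_exp_le hb0]
        have h1 : Real.exp β ≤ ⌈Real.exp β⌉₊ := Nat.le_ceil _
        have h2 : ((⌈Real.exp β⌉₊ + 1 : ℕ) : ℝ) ≤ b := by
          rw [← hB₀]
          exact_mod_cast hbB
        push_cast at h2
        linarith
      rw [hβ] at e8
      exact aux_K hd2 e8 e3
    · -- b ≤ x
      have e1 : log b + n * log 3 ≤ log a' + (s + d) * n := by
        have := Real.log_le_log (by positivity) b2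
        rw [Real.log_mul hb0.ne' h3n.ne', Real.log_mul ha'0.ne' (Real.exp_pos _).ne',
          Real.log_pow, Real.log_exp] at this
        exact this
      have e2 : log b ≤ log x := by
        rw [← hL]
        have e3 : D * n = (s + d) * n - n * log 3 := by rw [hD]; ring
        rw [e3] at hn1'
        linarith
      exact (Real.log_le_log_iff hb0 hx0).1 e2
  -- counting
  have hsub : (F.filter (fun b => B₀ ≤ b) : Set ℕ) ⊆ {b ∈ SlowSet a κ | (b : ℝ) ≤ x} := by
    intro b hb
    rw [Finset.mem_coe, Finset.mem_filter] at hb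
    exact hmem b hb.1 hb.2
  have hcard1 := Set.ncard_le_ncard hsub (slow_finite a κ x)
  rw [Set.ncard_coe_finset] at hcard1
  have hcard2 : F.card ≤ (F.filter (fun b => B₀ ≤ b)).card + B₀ := by
    have h1 := Finset.card_filter_add_card_filter_not (s := F) (fun b => B₀ ≤ b)
    have h2 : (F.filter (fun b => ¬ B₀ ≤ b)).card ≤ B₀ := by
      calc (F.filter (fun b => ¬ B₀ ≤ b)).card ≤ (Finset.range B₀).card := by
            apply Finset.card_le_card
            intro b hb
            rw [Finset.mem_filter] at hb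
            rw [Finset.mem_range]
            omega
        _ = B₀ := Finset.card_range _
    omega
  have hcard3 : (F.card : ℝ) ≤ ({b ∈ SlowSet a κ | (b : ℝ) ≤ x}.ncard : ℝ) + B₀ := by
    exact_mod_cast hcard2.trans (by omega)
  have hexp : Real.exp (A * L - c) ≤ Real.exp ((g - d) * n) := by
    apply Real.exp_le_exp.2
    have e1 : g - d = A * D := by
      rw [hA]
      field_simp
    have e2 : L - log a' - D ≤ D * n := by
      have := mul_le_mul_of_nonneg_left hn2 hDpos.le
      rw [mul_sub, mul_div_cancel₀ _ hDpos.ne', mul_one] at this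
      exact this
    exact aux_exp e1 hApos.le e2 hc
  have hp1 : x ^ r ≤ Real.exp (A * L - c) / 2 := by
    rw [Real.rpow_def_of_pos hx0, ← hL, le_div_iff₀ (by norm_num)]
    have e1 : (2 : ℝ) = Real.exp (log 2) := (Real.exp_log (by norm_num)).symm
    have e3 : Real.exp (L * r) * 2 = Real.exp (L * r + log 2) := by
      rw [Real.exp_add, ← e1]
    rw [e3]
    apply Real.exp_le_exp.2
    rw [div_le_iff₀ (by linarith)] at hx2
    have e2 : L * (A - r) = A * L - L * r := by ring
    rw [e2] at hx2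
    linarith
  have hB₀pos : (0 : ℝ) < B₀ := by
    rw [hB₀]
    push_cast
    positivity
  have hp2 : (B₀ : ℝ) ≤ Real.exp (A * L - c) / 2 := by
    rw [le_div_iff₀ (by norm_num), ← Real.log_le_iff_le_exp (by positivity), mul_comm (B₀ : ℝ) 2]
    rw [div_le_iff₀ hApos, mul_comm L A] at hx3
    linarith
  linarith

/-- Arbitrarily large integers which need a long time to reach `a`. -/
theorem exists_slow {s g κ : ℝ} (h : UniformGrowth s g) (hs : log 3 < s) (hg : 0 < g)
    (hκ : κ < s / (log 2 * (s - log 3))) {a : ℕ} (ha : 0 < a) (h3 : ¬ 3 ∣ a) (N : ℕ) :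
    ∃ b : ℕ, N ≤ b ∧ (∃ k, T3^[k] b = a) ∧ ∀ k, T3^[k] b = a → κ * log b ≤ k := by
  have hD0 : 0 < s - log 3 := by linarith
  have hpos : 0 < g / (s - log 3) := div_pos hg hD0
  obtain ⟨r, hr0, hr⟩ := exists_between hpos
  have h1 := count_slow h hs hg hr hκ ha h3
  have h2 : ∀ᶠ x : ℝ in atTop, (N : ℝ) < x ^ r :=
    (tendsto_rpow_atTop hr0).eventually_gt_atTop _
  obtain ⟨x, hx1, hx2⟩ := (h1.and h2).exists
  by_contra hcon
  push Not at hcon
  have hsub : {b ∈ SlowSet a κ | (b : ℝ) ≤ x} ⊆ (Finset.range N : Set ℕ) := by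
    rintro b ⟨⟨_, hb2, hb3⟩, _⟩
    rw [Finset.mem_coe, Finset.mem_range]
    by_contra hb
    obtain ⟨k, hk1, hk2⟩ := hcon b (by omega) hb2
    have := hb3 k hk1
    linarith
  have h5 := Set.ncard_le_ncard hsub (Finset.finite_toSet _)
  rw [Set.ncard_coe_finset, Finset.card_range] at h5
  have h4 : ({b ∈ SlowSet a κ | (b : ℝ) ≤ x}.ncard : ℝ) ≤ N := by exact_mod_cast h5
  linarith

end Pool.Agent.Collatz3
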