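import Pool.Agent.Collatz3.Words
import Pool.Agent.Collatz3.Ergo

set_option autoImplicit false

/-!
Rigidity: typical growth implies uniform growth.
-/

open Finset

namespace Pool.Agent.Collatz3

/-- the size bound used at `a` -/
noncomputable def Bb (D : ℕ) (B₀ B₁ M₀ : ℝ) (a : U) : ℝ := by
  classical exact if (cnt (a : ℤ) D B₀ : ℝ) < M₀ then B₁ else B₀

/-- the finite alphabet -/
noncomputable def AF (D : ℕ) (B₀ B₁ : ℝ) : Finset (List ℕ) := (bw_finite D (max B₀ B₁)).toFinset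

open scoped Classical in
noncomputable def kap (D : ℕ) (B₀ B₁ M₀ : ℝ) (w : List ℕ) (a : U) : ℝ :=
  if w ∈ paths (a : ℤ) D (Bb D B₀ B₁ M₀ a) then 1 / (cnt (a : ℤ) D (Bb D B₀ B₁ M₀ a) : ℝ) else 0

open scoped Classical in
noncomputable def nx (w : List ℕ) (a : U) : U :=
  if h : ∃ b : U, Up (a : ℤ) w b then h.choose else a

theorem Bb_per (D : ℕ) (B₀ B₁ M₀ : ℝ) (a a' : U) (h : (3 : ℤ) ^ (D + 1) ∣ (a : ℤ) - a') :
    Bb D B₀ B₁ M₀ a = Bb D B₀ B₁ M₀ a' := by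
  unfold Bb cnt
  rw [paths_congr B₀ h]

theorem kap_per (D : ℕ) (B₀ B₁ M₀ : ℝ) (w : List ℕ) (a a' : U)
    (h : (3 : ℤ) ^ (D + 1) ∣ (a : ℤ) - a') : kap D B₀ B₁ M₀ w a = kap D B₀ B₁ M₀ w a' := by
  unfold kap cnt
  rw [Bb_per D B₀ B₁ M₀ a a' h, paths_congr _ h]

theorem Bb_le (D : ℕ) (B₀ B₁ M₀ : ℝ) (a : U) : Bb D B₀ B₁ M₀ a ≤ max B₀ B₁ := by
  unfold Bb
  split_ifs
  · exact le_max_right _ _
  · exact le_max_left _ _

theorem two_le_cnt_Bb {D : ℕ} {B₀ B₁ M₀ : ℝ} (hM : 2 ≤ M₀) (hfb : ∀ a : U, 2 ≤ cnt (a : ℤ) D B₁)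
    (a : U) : 2 ≤ cnt (a : ℤ) D (Bb D B₀ B₁ M₀ a) := by
  unfold Bb
  split_ifs with h
  · exact hfb a
  · push Not at h
    have : (2 : ℝ) ≤ cnt (a : ℤ) D B₀ := hM.trans h
    exact_mod_cast this

theorem sum_kap {D : ℕ} {B₀ B₁ M₀ : ℝ} (hM : 2 ≤ M₀) (hfb : ∀ a : U, 2 ≤ cnt (a : ℤ) D B₁)
    (a : U) : ∑ w ∈ AF D B₀ B₁, kap D B₀ B₁ M₀ w a = 1 := by
  classical
  have h2 := two_le_cnt_Bb hM hfb (B₀ := B₀) a
  unfold kap
  rw [← sum_filter, sum_const, nsmul_eq_mul]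
  have hc : #(filter (fun w => w ∈ paths (a : ℤ) D (Bb D B₀ B₁ M₀ a)) (AF D B₀ B₁)) =
      cnt (a : ℤ) D (Bb D B₀ B₁ M₀ a) := by
    unfold cnt
    rw [← Set.ncard_coe_finset]
    congr 1
    ext w
    rw [coe_filter, Set.mem_ofPred_eq]
    constructor
    · exact fun h => h.2
    · intro h
      refine ⟨?_, h⟩
      unfold AF
      rw [Set.Finite.mem_toFinset]
      have := paths_subset _ _ _ h
      exact ⟨this.1, this.2.1, this.2.2.trans (Bb_le _ _ _ _ _)⟩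
  rw [hc]
  have : (cnt (a : ℤ) D (Bb D B₀ B₁ M₀ a) : ℝ) ≠ 0 := by
    have : 0 < cnt (a : ℤ) D (Bb D B₀ B₁ M₀ a) := by omega
    positivity
  field_simp

theorem kap_ne_zero {D : ℕ} {B₀ B₁ M₀ : ℝ} {w : List ℕ} {a : U}
    (h : kap D B₀ B₁ M₀ w a ≠ 0) : w ∈ paths (a : ℤ) D (Bb D B₀ B₁ M₀ a) := by
  unfold kap at h
  by_contra hc
  rw [if_neg hc] at h
  exact h rfl

theorem nx_spec {w : List ℕ} {a : U} (h : Ok (a : ℤ) w) : Up (a : ℤ) w (nx w a) := by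
  obtain ⟨b, hb, hb3⟩ := h
  have : ∃ b : U, Up (a : ℤ) w b := ⟨⟨b, hb3⟩, hb⟩
  unfold nx
  rw [dif_pos this]
  exact this.choose_spec

/-- the block system of uniformly chosen short paths -/
noncomputable def mkSys (D : ℕ) (hD : 1 ≤ D) (B₀ B₁ M₀ : ℝ) (hM : 2 ≤ M₀)
    (hfb : ∀ a : U, 2 ≤ cnt (a : ℤ) D B₁) : Sys where
  A := {w : List ℕ // w ∈ AF D B₀ B₁}
  ft := inferInstance
  dec := inferInstance
  D := D
  hD := hD
  S := fun w => w.1.sum
  c := fun w => cw w.1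
  κ := fun w a => kap D B₀ B₁ M₀ w.1 a
  nxt := fun w a => nx w.1 a
  κ0 := by
    intro w a
    unfold kap
    split_ifs <;> positivity
  κ1 := by
    intro a
    rw [← sum_kap (D := D) (B₀ := B₀) (B₁ := B₁) hM hfb a]
    exact sum_coe_sort (AF D B₀ B₁) fun w => kap D B₀ B₁ M₀ w a
  rel := by
    intro w a h
    have h1 := kap_ne_zero h
    have h2 := (nx_spec h1.2.2.2).rel
    rw [h1.1] at h2
    exact h2
  per := fun w a a' h => kap_per D B₀ B₁ M₀ w.1 a a' h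

variable {D : ℕ} {hD : 1 ≤ D} {B₀ B₁ M₀ : ℝ} {hM : 2 ≤ M₀}
  {hfb : ∀ a : U, 2 ≤ cnt (a : ℤ) D B₁}

theorem mk_half (w : (mkSys D hD B₀ B₁ M₀ hM hfb).A) (a : U) :
    (mkSys D hD B₀ B₁ M₀ hM hfb).κ w a ≤ 1 / 2 := by
  change kap D B₀ B₁ M₀ w.1 a ≤ 1 / 2
  unfold kap
  have h2 := two_le_cnt_Bb hM hfb (B₀ := B₀) a
  split_ifs
  · have : (2 : ℝ) ≤ cnt (a : ℤ) D (Bb D B₀ B₁ M₀ a) := by exact_mod_cast h2
    exact one_div_le_one_div_of_le (by norm_num) this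
  · norm_num

/-- concatenation of blocks -/
def joinW (l : List (mkSys D hD B₀ B₁ M₀ hM hfb).A) : List ℕ := (l.map fun w => w.1).flatten

theorem joinW_nil : joinW ([] : List (mkSys D hD B₀ B₁ M₀ hM hfb).A) = [] := rfl

theorem joinW_cons (w : (mkSys D hD B₀ B₁ M₀ hM hfb).A)
    (l : List (mkSys D hD B₀ B₁ M₀ hM hfb).A) : joinW (w :: l) = w.1 ++ joinW l := by
  simp [joinW]

theorem mem_AF {w : List ℕ} : w ∈ AF D B₀ B₁ ↔ w ∈ bw D (max B₀ B₁) := by
  unfold AF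
  rw [Set.Finite.mem_toFinset]

theorem joinW_length (l : List (mkSys D hD B₀ B₁ M₀ hM hfb).A) :
    (joinW l).length = D * l.length := by
  induction l with
  | nil => simp [joinW_nil]
  | cons w l ih =>
    have h1 : w.1.length = D := (mem_AF.1 w.2).1
    rw [joinW_cons, List.length_append, ih, List.length_cons, h1]
    ring

theorem joinW_pos (l : List (mkSys D hD B₀ B₁ M₀ hM hfb).A) : ∀ i ∈ joinW l, 1 ≤ i := by
  induction l with
  | nil => simp [joinW_nil]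
  | cons w l ih =>
    intro i hi
    rw [joinW_cons, List.mem_append] at hi
    rcases hi with h | h
    · exact (mem_AF.1 w.2).2.1 i h
    · exact ih i h

theorem joinW_sum (l : List (mkSys D hD B₀ B₁ M₀ hM hfb).A) :
    (joinW l).sum = (mkSys D hD B₀ B₁ M₀ hM hfb).totS l := by
  induction l with
  | nil => simp [joinW_nil]
  | cons w l ih =>
    rw [joinW_cons, List.sum_append, ih, Sys.totS_cons]
    rfl

theorem joinW_cw (l : List (mkSys D hD B₀ B₁ M₀ hM hfb).A) :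
    cw (joinW l) = (mkSys D hD B₀ B₁ M₀ hM hfb).totC l := by
  induction l with
  | nil => simp [joinW_nil, cw]
  | cons w l ih =>
    have h1 : w.1.length = D := (mem_AF.1 w.2).1
    rw [joinW_cons, cw_append, ih, Sys.totC_cons, joinW_sum, h1]
    rfl

theorem joinW_inj (l l' : List (mkSys D hD B₀ B₁ M₀ hM hfb).A) (hlen : l.length = l'.length)
    (h : joinW l = joinW l') : l = l' := by
  induction l generalizing l' with
  | nil =>
    exact (List.length_eq_zero_iff.1 hlen.symm).symm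
  | cons w l ih =>
    match l', hlen, h with
    | w' :: l', hlen, h =>
      have h1 : w.1.length = D := (mem_AF.1 w.2).1
      have h1' : w'.1.length = D := (mem_AF.1 w'.2).1
      rw [joinW_cons, joinW_cons] at h
      obtain ⟨e1, e2⟩ := List.append_inj h (h1.trans h1'.symm)
      rw [Subtype.ext e1, ih l' (by simpa using hlen) e2]

theorem mk_inj (l l' : List (mkSys D hD B₀ B₁ M₀ hM hfb).A) (hlen : l.length = l'.length)
    (hS : (mkSys D hD B₀ B₁ M₀ hM hfb).totS l = (mkSys D hD B₀ B₁ M₀ hM hfb).totS l')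
    (hC : (mkSys D hD B₀ B₁ M₀ hM hfb).totC l = (mkSys D hD B₀ B₁ M₀ hM hfb).totC l') :
    l = l' := by
  refine joinW_inj l l' hlen (word_inj _ _ (joinW_pos l) (joinW_pos l') ?_ ?_ ?_)
  · rw [joinW_length, joinW_length, hlen]
  · rw [joinW_sum, joinW_sum, hS]
  · rw [joinW_cw, joinW_cw, hC]

theorem joinW_up (l : List (mkSys D hD B₀ B₁ M₀ hM hfb).A) (a : U)
    (h : (mkSys D hD B₀ B₁ M₀ hM hfb).K l a ≠ 0) :
    Up (a : ℤ) (joinW l) ((mkSys D hD B₀ B₁ M₀ hM hfb).fin l a) := by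
  induction l generalizing a with
  | nil => exact rfl
  | cons w l ih =>
    rw [Sys.K_cons] at h
    have h1 := kap_ne_zero (left_ne_zero_of_mul h)
    have h2 := nx_spec h1.2.2.2
    have h3 := ih _ (right_ne_zero_of_mul h)
    rw [joinW_cons, Up.append_iff]
    exact ⟨_, h2, h3⟩

/-- bad starting points -/
def Bad (D : ℕ) (B₀ M₀ : ℝ) (a : U) : Prop := (cnt (a : ℤ) D B₀ : ℝ) < M₀

theorem Bb_bad {D : ℕ} {B₀ B₁ M₀ : ℝ} {a : U} (h : Bad D B₀ M₀ a) : Bb D B₀ B₁ M₀ a = B₁ := by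
  unfold Bb
  exact if_pos h

theorem Bb_good {D : ℕ} {B₀ B₁ M₀ : ℝ} {a : U} (h : ¬ Bad D B₀ M₀ a) : Bb D B₀ B₁ M₀ a = B₀ := by
  unfold Bb
  exact if_neg h

theorem kap_mul_le {D : ℕ} {B₀ B₁ M₀ : ℝ} (hM : 2 ≤ M₀) {a : U} (h : ¬ Bad D B₀ M₀ a)
    (w : List ℕ) : kap D B₀ B₁ M₀ w a * M₀ ≤ 1 := by
  unfold kap
  rw [Bb_good h]
  unfold Bad at h
  push Not at h
  split_ifs
  · rw [one_div, inv_mul_le_iff₀ (by linarith), mul_one]
    exact h
  · rw [zero_mul]; norm_num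

open scoped Classical in
/-- indicator of the bad points -/
noncomputable def badF (D : ℕ) (B₀ M₀ : ℝ) (a : U) : ℝ := if Bad D B₀ M₀ a then 1 else 0

theorem badF_per (D : ℕ) (B₀ M₀ : ℝ) : Per (D + 1) (badF D B₀ M₀) := by
  intro a a' h
  unfold badF Bad cnt
  rw [paths_congr B₀ h]

open scoped Classical in
/-- number of bad points along a word -/
noncomputable def nb (y : Sys) (bad : U → Prop) : List y.A → U → ℕ
  | [], _ => 0
  | w :: l, a => (if bad a then 1 else 0) + nb y bad l (y.nxt w a)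

open scoped Classical in
theorem sum_nb (y : Sys) (bad : U → Prop) (J : ℕ) (a : U) :
    ∑ l ∈ y.words J, y.K l a * (nb y bad l a : ℝ) =
      ∑ i ∈ range J, y.Pit i (fun a => if bad a then (1 : ℝ) else 0) a := by
  induction J generalizing a with
  | zero => simp [y.sum_words_zero, nb]
  | succ J ih =>
    rw [y.sum_words_succ, sum_range_succ']
    have e1 : ∀ w, ∑ l ∈ y.words J, y.K (w :: l) a * (nb y bad (w :: l) a : ℝ) =
        y.κ w a * (if bad a then (1 : ℝ) else 0) + y.κ w a *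
          ∑ i ∈ range J, y.Pit i (fun a => if bad a then (1 : ℝ) else 0) (y.nxt w a) := by
      intro w
      rw [← ih (y.nxt w a), mul_sum]
      have e2 : y.κ w a * (if bad a then (1 : ℝ) else 0) =
          ∑ l ∈ y.words J, y.κ w a * (y.K l (y.nxt w a) * (if bad a then (1 : ℝ) else 0)) := by
        rw [← mul_sum, ← sum_mul, y.sum_K, one_mul]
      rw [e2, ← sum_add_distrib]
      refine sum_congr rfl fun l _ => ?_
      rw [y.K_cons]
      simp only [nb]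
      push_cast
      ring
    simp_rw [e1]
    rw [sum_add_distrib, ← sum_mul, y.κ1, one_mul, add_comm]
    congr 1
    · simp_rw [mul_sum]
      rw [sum_comm]
      refine sum_congr rfl fun i _ => ?_
      rw [y.Pit_succ]
      rfl
    · rw [y.Pit_zero]

open scoped Classical in
theorem K_bound {l : List (mkSys D hD B₀ B₁ M₀ hM hfb).A} {a : U} :
    (mkSys D hD B₀ B₁ M₀ hM hfb).K l a * M₀ ^ l.length ≤
      M₀ ^ (nb (mkSys D hD B₀ B₁ M₀ hM hfb) (Bad D B₀ M₀) l a) := by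
  have hM0 : 0 < M₀ := by linarith
  induction l generalizing a with
  | nil => simp [nb]
  | cons w l ih =>
    have h1 : (mkSys D hD B₀ B₁ M₀ hM hfb).κ w a * M₀ ≤
        M₀ ^ (if Bad D B₀ M₀ a then 1 else 0) := by
      change kap D B₀ B₁ M₀ w.1 a * M₀ ≤ _
      by_cases hbad : Bad D B₀ M₀ a
      · rw [if_pos hbad, pow_one]
        have : kap D B₀ B₁ M₀ w.1 a ≤ 1 := (mk_half (hD := hD) (hM := hM) (hfb := hfb) w a).trans
          (by norm_num)
        nlinarith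
      · rw [if_neg hbad, pow_zero]
        exact kap_mul_le hM hbad w.1
    have h2 := ih (a := (mkSys D hD B₀ B₁ M₀ hM hfb).nxt w a)
    rw [Sys.K_cons, List.length_cons]
    unfold nb
    rw [pow_add M₀ (if Bad D B₀ M₀ a then 1 else 0)]
    calc (mkSys D hD B₀ B₁ M₀ hM hfb).κ w a *
          (mkSys D hD B₀ B₁ M₀ hM hfb).K l ((mkSys D hD B₀ B₁ M₀ hM hfb).nxt w a) *
            M₀ ^ (l.length + 1) =
          ((mkSys D hD B₀ B₁ M₀ hM hfb).κ w a * M₀) *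
          ((mkSys D hD B₀ B₁ M₀ hM hfb).K l ((mkSys D hD B₀ B₁ M₀ hM hfb).nxt w a) *
            M₀ ^ l.length) := by ring
      _ ≤ _ := mul_le_mul h1 h2 (mul_nonneg (Sys.K_nonneg _ _ _) (by positivity)) (by positivity)

open scoped Classical in
theorem size_bound (hB : 1 ≤ B₀) (hB1 : 1 ≤ B₁) {l : List (mkSys D hD B₀ B₁ M₀ hM hfb).A} {a : U}
    (h : (mkSys D hD B₀ B₁ M₀ hM hfb).K l a ≠ 0) :
    (size (joinW l) : ℝ) ≤
      B₀ ^ l.length * B₁ ^ (nb (mkSys D hD B₀ B₁ M₀ hM hfb) (Bad D B₀ M₀) l a) := by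
  induction l generalizing a with
  | nil => simp [nb, joinW_nil, size_nil]
  | cons w l ih =>
    rw [Sys.K_cons] at h
    have h1 := kap_ne_zero (left_ne_zero_of_mul h)
    have h2 := ih (right_ne_zero_of_mul h)
    have h3 : (size w.1 : ℝ) ≤ B₀ * B₁ ^ (if Bad D B₀ M₀ a then 1 else 0) := by
      have h4 := h1.2.2.1
      by_cases hbad : Bad D B₀ M₀ a
      · rw [if_pos hbad, pow_one]
        rw [Bb_bad hbad] at h4
        nlinarith
      · rw [if_neg hbad, pow_zero, mul_one]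
        rw [Bb_good hbad] at h4
        exact h4
    rw [joinW_cons]
    have h5 : (size (w.1 ++ joinW l) : ℝ) ≤ size w.1 * size (joinW l) := by
      exact_mod_cast size_append_le w.1 (joinW l) h1.2.1
    refine h5.trans ?_
    rw [List.length_cons]
    unfold nb
    rw [pow_add B₁]
    calc (size w.1 : ℝ) * size (joinW l) ≤
        (B₀ * B₁ ^ (if Bad D B₀ M₀ a then 1 else 0)) *
        (B₀ ^ l.length * B₁ ^ (nb (mkSys D hD B₀ B₁ M₀ hM hfb) (Bad D B₀ M₀) l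
          ((mkSys D hD B₀ B₁ M₀ hM hfb).nxt w a))) :=
        mul_le_mul h3 h2 (by positivity) (by positivity)
      _ = _ := by ring

/-- many words with few bad points -/
theorem many_words {J : ℕ} (hJ : 1 ≤ J) {a : U} {β μ : ℝ} (hβ : 0 < β)
    (hμ : M₀ = Real.exp μ) (hμ0 : 0 ≤ μ)
    (htav : tav (mkSys D hD B₀ B₁ M₀ hM hfb) J a (badF D B₀ M₀) ≤ β / 2) :
    ∃ T : Finset (List (mkSys D hD B₀ B₁ M₀ hM hfb).A),
      (∀ l ∈ T, l.length = J ∧ (mkSys D hD B₀ B₁ M₀ hM hfb).K l a ≠ 0 ∧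
        (nb (mkSys D hD B₀ B₁ M₀ hM hfb) (Bad D B₀ M₀) l a : ℝ) ≤ β * J) ∧
      1 / 2 * Real.exp (μ * (1 - β) * J) ≤ (T.card : ℝ) := by
  classical
  obtain ⟨y, hy⟩ : ∃ y, y = mkSys D hD B₀ B₁ M₀ hM hfb := ⟨_, rfl⟩
  have hKb : ∀ l : List y.A, y.K l a * M₀ ^ l.length ≤ M₀ ^ (nb y (Bad D B₀ M₀) l a) := by
    subst hy
    intro l
    exact K_bound
  rw [← hy] at htav
  have hJ0 : (0 : ℝ) < J := by
    have : 0 < J := by omega
    exact_mod_cast this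
  suffices h : ∃ T : Finset (List y.A), (∀ l ∈ T, l.length = J ∧ y.K l a ≠ 0 ∧
      (nb y (Bad D B₀ M₀) l a : ℝ) ≤ β * J) ∧
      1 / 2 * Real.exp (μ * (1 - β) * J) ≤ (T.card : ℝ) by
    subst hy; exact h
  obtain ⟨T, hT⟩ : ∃ T, T = (y.words J).filter fun l => y.K l a ≠ 0 ∧
      (nb y (Bad D B₀ M₀) l a : ℝ) ≤ β * J := ⟨_, rfl⟩
  have hTm : ∀ l ∈ T, l.length = J ∧ y.K l a ≠ 0 ∧ (nb y (Bad D B₀ M₀) l a : ℝ) ≤ β * J := by
    intro l hl
    rw [hT, mem_filter, y.mem_words] at hl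
    exact ⟨hl.1, hl.2.1, hl.2.2⟩
  refine ⟨T, hTm, ?_⟩
  -- expectation of the number of bad points
  have hexp : ∑ l ∈ y.words J, y.K l a * (nb y (Bad D B₀ M₀) l a : ℝ) ≤ β / 2 * J := by
    rw [sum_nb y (Bad D B₀ M₀) J a]
    unfold tav at htav
    rw [div_le_iff₀ hJ0] at htav
    refine le_trans (le_of_eq ?_) htav
    refine sum_congr rfl fun i _ => ?_
    congr 1
  have hbadsum : ∑ l ∈ y.words J with ¬ (nb y (Bad D B₀ M₀) l a : ℝ) ≤ β * J, y.K l a ≤ 1 / 2 := by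
    have h1 : (∑ l ∈ y.words J with ¬ (nb y (Bad D B₀ M₀) l a : ℝ) ≤ β * J, y.K l a) * (β * J) ≤
        β / 2 * J := by
      refine le_trans ?_ hexp
      rw [sum_mul, sum_filter]
      refine sum_le_sum fun l _ => ?_
      have hK := y.K_nonneg l a
      by_cases hc : (nb y (Bad D B₀ M₀) l a : ℝ) ≤ β * J
      · rw [if_neg (not_not.2 hc)]
        exact mul_nonneg hK (Nat.cast_nonneg _)
      · rw [if_pos hc]
        exact mul_le_mul_of_nonneg_left (not_le.1 hc).le hK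
    have h2 : 0 < β * J := by positivity
    have h3 : β / 2 * J = 1 / 2 * (β * J) := by ring
    rw [h3] at h1
    exact le_of_mul_le_mul_right h1 h2
  have hTsum : 1 / 2 ≤ ∑ l ∈ T, y.K l a := by
    have h1 := y.sum_K J a
    rw [← sum_filter_add_sum_filter_not (y.words J) fun l =>
      (nb y (Bad D B₀ M₀) l a : ℝ) ≤ β * J] at h1
    have h2 : ∑ l ∈ y.words J with (nb y (Bad D B₀ M₀) l a : ℝ) ≤ β * J, y.K l a =
        ∑ l ∈ T, y.K l a := by
      rw [hT, sum_filter, sum_filter]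
      refine sum_congr rfl fun l _ => ?_
      by_cases h0 : y.K l a = 0
      · simp [h0]
      · simp [h0]
    rw [h2] at h1
    linarith
  have hKle : ∀ l ∈ T, y.K l a ≤ Real.exp (-(μ * (1 - β) * J)) := by
    intro l hl
    obtain ⟨h1, h2, h3⟩ := hTm l hl
    have h4 := hKb l
    obtain ⟨n, hn⟩ : ∃ n, n = nb y (Bad D B₀ M₀) l a := ⟨_, rfl⟩
    rw [← hn] at h4 h3
    rw [h1, hμ, ← Real.exp_nat_mul, ← Real.exp_nat_mul] at h4
    have h5 : y.K l a ≤ Real.exp ((n : ℝ) * μ - J * μ) := by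
      rw [Real.exp_sub, le_div_iff₀ (Real.exp_pos _)]
      exact h4
    refine h5.trans (Real.exp_le_exp.2 ?_)
    nlinarith
  have h6 : (1 / 2 : ℝ) ≤ T.card * Real.exp (-(μ * (1 - β) * J)) := by
    refine hTsum.trans ?_
    rw [← nsmul_eq_mul, ← sum_const]
    exact sum_le_sum hKle
  rw [Real.exp_neg] at h6
  have h7 := mul_le_mul_of_nonneg_right h6 (Real.exp_pos (μ * (1 - β) * J)).le
  rw [mul_assoc (T.card : ℝ), inv_mul_cancel₀ (Real.exp_pos _).ne', mul_one] at h7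
  exact h7

/-- from words of the block system to paths -/
theorem cnt_of_words (hB : 1 ≤ B₀) (hB1 : 1 ≤ B₁) {J : ℕ} {a : U} {Nb : ℝ} (r : ℕ)
    {b₀ b₁ : ℝ} (hb₀ : B₀ = Real.exp b₀) (hb₁ : B₁ = Real.exp b₁) (hb₁0 : 0 ≤ b₁)
    (T : Finset (List (mkSys D hD B₀ B₁ M₀ hM hfb).A))
    (hT : ∀ l ∈ T, l.length = J ∧ (mkSys D hD B₀ B₁ M₀ hM hfb).K l a ≠ 0 ∧
        (nb (mkSys D hD B₀ B₁ M₀ hM hfb) (Bad D B₀ M₀) l a : ℝ) ≤ Nb) {B : ℝ}
    (hBB : Real.exp (b₀ * J + b₁ * Nb) * 65 ^ r ≤ B) :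
    T.card ≤ cnt (a : ℤ) (D * J + r) B := by
  classical
  choose fb hfb1 hfb2 hfb3 hfb4 using fun b : U => fallback r (b : ℤ) b.2
  obtain ⟨f, hf⟩ : ∃ f : List (mkSys D hD B₀ B₁ M₀ hM hfb).A → List ℕ,
      f = fun l => joinW l ++ fb ((mkSys D hD B₀ B₁ M₀ hM hfb).fin l a) := ⟨_, rfl⟩
  have hinj : Set.InjOn f T := by
    intro l hl l' hl' h
    rw [hf] at h
    have h1 := (hT l hl).1
    have h2 := (hT l' hl').1
    have h3 : (joinW l).length = (joinW l').length := by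
      rw [joinW_length, joinW_length, h1, h2]
    exact joinW_inj l l' (h1.trans h2.symm) (List.append_inj h h3).1
  rw [← card_image_of_injOn hinj]
  unfold cnt
  rw [← Set.ncard_coe_finset]
  refine Set.ncard_le_ncard ?_ (paths_finite _ _ _)
  intro w hw
  rw [coe_image] at hw
  obtain ⟨l, hl, rfl⟩ := hw
  obtain ⟨h1, h2, h3⟩ := hT l hl
  rw [hf]
  obtain ⟨b, hb, hb3⟩ := hfb4 ((mkSys D hD B₀ B₁ M₀ hM hfb).fin l a)
  refine ⟨?_, ?_, ?_, b, Up.append_iff.2 ⟨_, joinW_up l a h2, hb⟩, hb3⟩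
  · rw [List.length_append, joinW_length, h1, hfb1]
  · intro i hi
    rcases List.mem_append.1 hi with h | h
    · exact joinW_pos l i h
    · exact hfb2 _ i h
  · have h4 : (size (joinW l ++ fb ((mkSys D hD B₀ B₁ M₀ hM hfb).fin l a)) : ℝ) ≤
        size (joinW l) * size (fb ((mkSys D hD B₀ B₁ M₀ hM hfb).fin l a)) := by
      exact_mod_cast size_append_le _ _ (joinW_pos l)
    have h5 : (size (fb ((mkSys D hD B₀ B₁ M₀ hM hfb).fin l a)) : ℝ) ≤ 65 ^ r := by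
      exact_mod_cast hfb3 _
    have h6 := size_bound hB hB1 h2
    obtain ⟨n, hn⟩ : ∃ n, n = nb (mkSys D hD B₀ B₁ M₀ hM hfb) (Bad D B₀ M₀) l a := ⟨_, rfl⟩
    rw [← hn] at h6 h3
    obtain ⟨sz, hsz⟩ : ∃ sz : ℝ, sz = (size (joinW l) : ℝ) := ⟨_, rfl⟩
    rw [← hsz] at h6 h4
    have hsz0 : 0 ≤ sz := hsz ▸ Nat.cast_nonneg _
    rw [h1, hb₀, hb₁, ← Real.exp_nat_mul, ← Real.exp_nat_mul, ← Real.exp_add] at h6
    refine h4.trans (le_trans ?_ hBB)
    refine mul_le_mul (h6.trans (Real.exp_le_exp.2 ?_)) h5 (by positivity) (by positivity)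
    nlinarith

/-- density of the bad classes -/
theorem uu_bad_le (D : ℕ) (B₀ M₀ : ℝ) (c : Fin 2) {η : ℝ}
    (h : ({a : ℕ | a < 3 ^ (D + 1) ∧ ¬ 3 ∣ a ∧ (cnt (a : ℤ) D B₀ : ℝ) < M₀}.ncard : ℝ) ≤
      η * 3 ^ (D + 1)) : (uu c).E (badF D B₀ M₀) ≤ 3 * η := by
  classical
  rw [uu_eq c (badF_per D B₀ M₀)]
  unfold avg
  rw [div_le_iff₀ (by positivity)]
  have h1 : ∑ j ∈ range (3 ^ D), badF D B₀ M₀ (el c (j : ℤ)) ≤
      ({a : ℕ | a < 3 ^ (D + 1) ∧ ¬ 3 ∣ a ∧ (cnt (a : ℤ) D B₀ : ℝ) < M₀}.ncard : ℝ) := by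
    unfold badF
    rw [sum_boole]
    have hfin : {a : ℕ | a < 3 ^ (D + 1) ∧ ¬ 3 ∣ a ∧ (cnt (a : ℤ) D B₀ : ℝ) < M₀}.Finite :=
      (Set.finite_lt_nat (3 ^ (D + 1))).subset fun a ha => ha.1
    have hinj : Set.InjOn (fun j : ℕ => 1 + (c : ℕ) + 3 * j)
        (filter (fun j : ℕ => Bad D B₀ M₀ (el c (j : ℤ))) (range (3 ^ D))) := by
      intro i _ j _ hij
      dsimp only at hij
      omega
    rw [← card_image_of_injOn hinj, ← Set.ncard_coe_finset]
    have : (((image (fun j : ℕ => 1 + (c : ℕ) + 3 * j)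
        (filter (fun j : ℕ => Bad D B₀ M₀ (el c (j : ℤ))) (range (3 ^ D))) : Finset ℕ) : Set ℕ)) ⊆
        {a : ℕ | a < 3 ^ (D + 1) ∧ ¬ 3 ∣ a ∧ (cnt (a : ℤ) D B₀ : ℝ) < M₀} := by
      intro x hx
      rw [coe_image] at hx
      obtain ⟨j, hj, rfl⟩ := hx
      rw [mem_coe, mem_filter, mem_range] at hj
      have hc := c.2
      refine ⟨?_, ?_, ?_⟩
      · dsimp only
        rw [pow_succ]
        omega
      · dsimp only
        omega
      · have h2 := hj.2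
        unfold Bad el at h2
        dsimp only at h2 ⊢
        push_cast
        exact h2
    exact_mod_cast Set.ncard_le_ncard this hfin
  refine h1.trans (h.trans (le_of_eq ?_))
  rw [pow_succ]
  ring

/-- **Rigidity**: typical growth implies uniform growth. -/
theorem rigidity {s γ : ℝ} (hs : 0 ≤ s) (hγ : 0 < γ) (h : Typical s γ) : UniformGrowth s γ := by
  intro δ' hδ'
  obtain ⟨δ, hδdef⟩ : ∃ δ, δ = min δ' γ := ⟨_, rfl⟩
  have hδ : 0 < δ := hδdef ▸ lt_min hδ' hγ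
  have hδ1 : δ ≤ δ' := hδdef ▸ min_le_left _ _
  have hδ2 : δ ≤ γ := hδdef ▸ min_le_right _ _
  obtain ⟨L, hL⟩ : ∃ L, L = Real.log 65 := ⟨_, rfl⟩
  have hL0 : 0 < L := hL ▸ Real.log_pos (by norm_num)
  have hexpL : Real.exp L = 65 := by rw [hL]; exact Real.exp_log (by norm_num)
  obtain ⟨β, hβdef⟩ : ∃ β, β = min (δ / (4 * γ)) (δ / (4 * L)) := ⟨_, rfl⟩
  have hβ : 0 < β := hβdef ▸ lt_min (by positivity) (by positivity)
  have hβγ : β * γ ≤ δ / 4 := by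
    have : β ≤ δ / (4 * γ) := hβdef ▸ min_le_left _ _
    calc β * γ ≤ δ / (4 * γ) * γ := by gcongr
      _ = δ / 4 := by field_simp
  have hβL : β * L ≤ δ / 4 := by
    have : β ≤ δ / (4 * L) := hβdef ▸ min_le_right _ _
    calc β * L ≤ δ / (4 * L) * L := by gcongr
      _ = δ / 4 := by field_simp
  have hβ1 : β ≤ 1 := by
    have h1 : β * γ ≤ γ := by linarith
    by_contra hc
    push Not at hc
    nlinarith
  have hg : 0 < γ - δ / 4 := by linarith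
  obtain ⟨D, hDN, hD⟩ := h (δ / 4) (by positivity) (β / 12) (by positivity)
    (⌈Real.log 2 / (γ - δ / 4)⌉₊ + 1)
  have hD1 : 1 ≤ D := by omega
  have hDl : Real.log 2 ≤ (γ - δ / 4) * D := by
    have h1 : Real.log 2 / (γ - δ / 4) ≤ D := by
      refine (Nat.le_ceil _).trans ?_
      have : ⌈Real.log 2 / (γ - δ / 4)⌉₊ ≤ D := by omega
      exact_mod_cast this
    rw [div_le_iff₀ hg] at h1
    linarith
  obtain ⟨M₀, hM₀⟩ : ∃ M₀, M₀ = Real.exp ((γ - δ / 4) * D) := ⟨_, rfl⟩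
  obtain ⟨B₀, hB₀⟩ : ∃ B₀, B₀ = Real.exp ((s + δ / 4) * D) := ⟨_, rfl⟩
  obtain ⟨B₁, hB₁⟩ : ∃ B₁, B₁ = Real.exp (L * D) := ⟨_, rfl⟩
  have hM : 2 ≤ M₀ := by
    rw [hM₀, ← Real.exp_log (show (0 : ℝ) < 2 by norm_num)]
    exact Real.exp_le_exp.2 hDl
  have hD0 : (0 : ℝ) ≤ D := Nat.cast_nonneg D
  have hB : 1 ≤ B₀ := hB₀ ▸ Real.one_le_exp (by positivity)
  have hB1 : 1 ≤ B₁ := hB₁ ▸ Real.one_le_exp (by positivity)
  have hB₁' : B₁ = 65 ^ D := by
    rw [hB₁, mul_comm, Real.exp_nat_mul, hexpL]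
  have hfb : ∀ a : U, 2 ≤ cnt (a : ℤ) D B₁ := by
    intro a
    obtain ⟨D', rfl⟩ := Nat.exists_eq_add_of_le' hD1
    rw [hB₁']
    exact two_le_cnt D' a a.2
  rw [← hM₀, ← hB₀] at hD
  obtain ⟨y, hy⟩ : ∃ y, y = mkSys D hD1 B₀ B₁ M₀ hM hfb := ⟨_, rfl⟩
  have hbad : ∀ c, (uu c).E (badF D B₀ M₀) ≤ β / 4 := by
    intro c
    have := uu_bad_le D B₀ M₀ c hD
    linarith
  obtain ⟨J₀, hJ₀⟩ := ergodic (y := mkSys D hD1 B₀ B₁ M₀ hM hfb) mk_half mk_inj
    (badF_per D B₀ M₀).isPer (show 0 < β / 4 by positivity)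
  have htav : ∀ J : ℕ, J₀ ≤ J → ∀ a : U,
      tav (mkSys D hD1 B₀ B₁ M₀ hM hfb) J a (badF D B₀ M₀) ≤ β / 2 := by
    intro J hJ a
    have h1 := hJ₀ J hJ a
    have h2 := max_le (hbad 0) (hbad 1)
    linarith
  refine ⟨D * (J₀ + 1) + ⌈2 * (γ * D + Real.log 2 + L * D) / δ⌉₊, fun n hn a ha => ?_⟩
  obtain ⟨J, hJ⟩ : ∃ J, J = n / D := ⟨_, rfl⟩
  obtain ⟨r, hr⟩ : ∃ r, r = n % D := ⟨_, rfl⟩
  have hnJ : n = D * J + r := by rw [hJ, hr]; exact (Nat.div_add_mod n D).symm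
  have hrD : r < D := hr ▸ Nat.mod_lt _ (by omega)
  have hJJ : J₀ + 1 ≤ J := by
    rw [hJ, Nat.le_div_iff_mul_le (by omega)]
    calc (J₀ + 1) * D = D * (J₀ + 1) := by ring
      _ ≤ n := by omega
  have hnbig : 2 * (γ * D + Real.log 2 + L * D) ≤ δ * n := by
    have h1 : 2 * (γ * D + Real.log 2 + L * D) / δ ≤ n := by
      refine (Nat.le_ceil _).trans ?_
      have : ⌈2 * (γ * D + Real.log 2 + L * D) / δ⌉₊ ≤ n := by omega
      exact_mod_cast this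
    rw [div_le_iff₀ hδ] at h1
    linarith
  have hnR : (n : ℝ) = D * J + r := by rw [hnJ]; push_cast; ring
  have hrR : (r : ℝ) ≤ D := by exact_mod_cast hrD.le
  have hr0 : (0 : ℝ) ≤ r := Nat.cast_nonneg r
  have hJ0 : (0 : ℝ) ≤ J := Nat.cast_nonneg J
  have hl2 : 0 < Real.log 2 := Real.log_pos (by norm_num)
  obtain ⟨T, hT, hTc⟩ := many_words (hD := hD1) (hM := hM) (hfb := hfb) (J := J) (by omega)
    (a := ⟨a, ha⟩) hβ hM₀ (by positivity) (htav J (by omega) _)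
  have hcnt := cnt_of_words (hD := hD1) (hM := hM) (hfb := hfb) hB hB1 (a := ⟨a, ha⟩) r hB₀ hB₁
    (by positivity) T hT (B := Real.exp ((s + δ') * n)) ?_
  · rw [← hnJ] at hcnt
    have h1 : (T.card : ℝ) ≤ cnt a n (Real.exp ((s + δ') * n)) := by exact_mod_cast hcnt
    refine le_trans (le_trans ?_ hTc) h1
    have e1 : (1 / 2 : ℝ) = Real.exp (-Real.log 2) := by
      rw [Real.exp_neg, Real.exp_log (by norm_num)]; norm_num
    rw [e1, ← Real.exp_add]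
    refine Real.exp_le_exp.2 ?_
    have h2 : (D : ℝ) * J = n - r := by linarith
    have h3 : (γ - δ / 4) * D * (1 - β) * J = (γ - δ / 4) * (1 - β) * (n - r) := by
      rw [← h2]; ring
    rw [h3]
    have h4 : (γ - δ / 4) * (1 - β) * (r : ℝ) ≤ γ * D := by
      have i1 : (γ - δ / 4) * (1 - β) ≤ γ :=
        (mul_le_of_le_one_right hg.le (by linarith)).trans (by linarith)
      have i2 : 0 ≤ (γ - δ / 4) * (1 - β) := mul_nonneg hg.le (by linarith)
      calc (γ - δ / 4) * (1 - β) * (r : ℝ) ≤ γ * r := by gcongr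
        _ ≤ γ * D := by gcongr
    have h5 : (γ - δ / 2) * n ≤ (γ - δ / 4) * (1 - β) * n := by
      have hn0 : (0 : ℝ) ≤ n := Nat.cast_nonneg n
      refine mul_le_mul_of_nonneg_right ?_ hn0
      have e2 : (γ - δ / 4) * (1 - β) = γ - δ / 4 - β * γ + β * δ / 4 := by ring
      have e3 : 0 ≤ β * δ / 4 := by positivity
      rw [e2]
      linarith
    have h6 : δ * n ≤ δ' * n := by
      have hn0 : (0 : ℝ) ≤ n := Nat.cast_nonneg n
      gcongr
    have h7 : 0 ≤ L * D := by positivity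
    linarith
  · have e1 : (65 : ℝ) ^ r = Real.exp (r * L) := by
      rw [Real.exp_nat_mul, hexpL]
    rw [e1, ← Real.exp_add]
    refine Real.exp_le_exp.2 ?_
    have h2 : (D : ℝ) * J ≤ n := by linarith
    have h3 : (s + δ / 4) * D * J ≤ (s + δ / 4) * n := by
      rw [mul_assoc]
      exact mul_le_mul_of_nonneg_left h2 (by positivity)
    have h4 : L * D * (β * J) ≤ δ / 4 * n := by
      calc L * D * (β * J) = (β * L) * (D * J) := by ring
        _ ≤ δ / 4 * n := mul_le_mul hβL h2 (by positivity) (by positivity)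
    have h5 : (r : ℝ) * L ≤ L * D := by
      rw [mul_comm]; gcongr
    have h6 : δ * n ≤ δ' * n := by
      have hn0 : (0 : ℝ) ≤ n := Nat.cast_nonneg n
      gcongr
    have h7 : 0 ≤ γ * D := by positivity
    linarith

end Pool.Agent.Collatz3
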