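import Mathlib
import Pool.Agent.Collatz3.GCount
import Pool.Agent.Collatz3.GLeg
import Pool.Agent.Collatz3.Rigid

set_option autoImplicit false

/-!
The lower half of the stopping time constant and of the large deviation law, from typical growth
at all tilts with positive growth exponent.
-/

namespace Pool.Agent.Collatz3

open Real Filter
open Pool.Agent.Collatz3.Leg (gL)

/-- Typical growth at all tilts with positive growth exponent. -/
def AllTilts : Prop :=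
  ∀ z : ℝ, 0 < z → z < 1 → 0 < log (z / (1 - z)) - log 3 + 1 / (1 - z) * log (1 / z) →
    Typical (1 / (1 - z) * log 2) (log (z / (1 - z)) - log 3 + 1 / (1 - z) * log (1 / z))

theorem growth_of_rho (H : AllTilts) {ρ : ℝ} (h0 : 0 < ρ) (h1 : ρ < 1)
    (hρ : ρ * log 3 < binEntropy ρ) :
    UniformGrowth (log 2 / ρ) (binEntropy ρ / ρ - log 3) := by
  have hl2 : 0 < log 2 := log_pos (by norm_num)
  have e := (Leg.growth_eq h0).resolve_right h1.ne
  have hpos : 0 < binEntropy ρ / ρ - log 3 := by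
    rw [sub_pos, lt_div_iff₀ h0, mul_comm]
    exact hρ
  have hT := H (1 - ρ) (by linarith) (by linarith) (by rw [e]; exact hpos)
  rw [e, sub_sub_cancel, one_div_mul_eq_div] at hT
  exact rigidity (by positivity) hpos hT

theorem slow_of_rho (H : AllTilts) {ρ : ℝ} (h0 : 1 / 2 < ρ) (h1 : ρ < log 2 / log 3)
    (hρ : ρ * log 3 < binEntropy ρ) {κ r : ℝ} (hκ : κ < 1 / (log 2 - ρ * log 3))
    (hr : r < (binEntropy ρ - ρ * log 3) / (log 2 - ρ * log 3)) {a : ℕ} (ha : 0 < a)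
    (h3 : ¬ 3 ∣ a) :
    ∀ᶠ x : ℝ in atTop, x ^ r ≤ ({b ∈ SlowSet a κ | (b : ℝ) ≤ x}.ncard : ℝ) := by
  have hl2 : 0 < log 2 := log_pos (by norm_num)
  have hl3 : 0 < log 3 := log_pos (by norm_num)
  have hρ0 : 0 < ρ := by linarith
  have hρ1 : ρ < 1 := h1.trans Leg.log_ratio.2
  have hg := growth_of_rho H hρ0 hρ1 hρ
  have hD : 0 < log 2 - ρ * log 3 := by
    rw [lt_div_iff₀ hl3] at h1
    linarith
  have hs : log 3 < log 2 / ρ := by
    rw [lt_div_iff₀ hρ0, mul_comm]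
    linarith
  have hpos : 0 < binEntropy ρ / ρ - log 3 := by
    rw [sub_pos, lt_div_iff₀ hρ0, mul_comm]
    exact hρ
  have e1 : log 2 / ρ - log 3 = (log 2 - ρ * log 3) / ρ := by
    field_simp
  have e2 : binEntropy ρ / ρ - log 3 = (binEntropy ρ - ρ * log 3) / ρ := by
    field_simp
  refine count_slow hg hs hpos ?_ ?_ ha h3
  · rw [e1, e2, div_div_div_cancel_right₀ hρ0.ne']
    exact hr
  · have e3 : log 2 / ρ / (log 2 * (log 2 / ρ - log 3)) = 1 / (log 2 - ρ * log 3) := by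
      rw [e1]
      field_simp
    rw [e3]
    exact hκ

theorem final (H : AllTilts) : ∃ γ₀ : ℝ,
    (γ₀ > ((1 / 2) * log (4 / 3))⁻¹ ∧ γ₀ * gL (1 / γ₀) = 1) ∧
    (∀ γ : ℝ, γ > ((1 / 2) * log (4 / 3))⁻¹ → γ * gL (1 / γ) = 1 → γ = γ₀) ∧
    (∀ a : ℕ, 0 < a → ¬ 3 ∣ a → ∀ ε : ℝ, ε > 0 → ∀ N : ℕ, ∃ n : ℕ, N ≤ n ∧
      (∃ k, T3^[k] n = a) ∧ ∀ k, T3^[k] n = a → (γ₀ - ε) * log n ≤ k) ∧
    (∀ a : ℕ, 0 < a → ¬ 3 ∣ a → ∀ α : ℝ, α > ((1 / 2) * log (4 / 3))⁻¹ → α < γ₀ →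
      ∀ ε : ℝ, ε > 0 → ∀ᶠ x : ℝ in atTop,
        x ^ (1 - α * gL (1 / α) - ε) ≤ ({b ∈ SlowSet a α | (b : ℝ) ≤ x}.ncard : ℝ)) := by
  obtain ⟨γ₀, ρ₀, h1, h2, h3, h4, h5, h6, h7⟩ := Leg.exists_gamma
  have hl3 : 0 < log 3 := log_pos (by norm_num)
  have hhalf : 0 < (1 / 2) * log (4 / 3) := by
    have : 0 < log (4 / 3) := log_pos (by norm_num)
    positivity
  have hlt1 := Leg.log_ratio.2
  have hD0 : 0 < log 2 - ρ₀ * log 3 := by
    rw [lt_div_iff₀ hl3] at h2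
    linarith
  have hcount : ∀ a : ℕ, 0 < a → ¬ 3 ∣ a → ∀ α : ℝ, α > ((1 / 2) * log (4 / 3))⁻¹ → α < γ₀ →
      ∀ ε : ℝ, ε > 0 → ∀ᶠ x : ℝ in atTop,
        x ^ (1 - α * gL (1 / α) - ε) ≤ ({b ∈ SlowSet a α | (b : ℝ) ≤ x}.ncard : ℝ) := by
    intro a ha h3a α hα hαγ ε hε
    obtain ⟨ρ, r1, r2, r3⟩ := Leg.rho_of hα
    have hα0 : 0 < α := lt_trans (inv_pos.2 hhalf) hα
    have hDρ : 0 < log 2 - ρ * log 3 := by rw [← r3]; positivity
    have hρρ₀ : ρ < ρ₀ := by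
      have e1 : 1 / γ₀ < 1 / α := one_div_lt_one_div_of_lt hα0 hαγ
      rw [r3, h3, one_div_one_div] at e1
      have e2 : ρ * log 3 < ρ₀ * log 3 := by linarith
      exact lt_of_mul_lt_mul_right e2 hl3.le
    have hexp := Leg.exponent_eq (by linarith) (by linarith) r3 hDρ
    -- continuity
    have hc : ContinuousAt (fun t : ℝ => (binEntropy t - t * log 3) / (log 2 - t * log 3)) ρ := by
      apply ContinuousAt.div (by fun_prop) (by fun_prop)
      exact hDρ.ne'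
    have hev : ∀ᶠ t in nhdsWithin ρ (Set.Ioi ρ),
        (1 - α * gL (1 / α) - ε < (binEntropy t - t * log 3) / (log 2 - t * log 3) ∧ t < ρ₀) ∧
          ρ < t := by
      have e1 : 1 - α * gL (1 / α) - ε < (binEntropy ρ - ρ * log 3) / (log 2 - ρ * log 3) := by
        rw [← hexp]
        linarith
      have e2 := hc.tendsto.eventually (lt_mem_nhds e1)
      have e3 : ∀ᶠ t in nhds ρ, t < ρ₀ := gt_mem_nhds hρρ₀
      filter_upwards [(e2.and e3).filter_mono nhdsWithin_le_nhds, self_mem_nhdsWithin] with t h8 h9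
      exact ⟨h8, h9⟩
    obtain ⟨t, ⟨t1, t2⟩, t3⟩ := hev.exists
    have hDt : 0 < log 2 - t * log 3 := by
      have := mul_lt_mul_of_pos_right t2 hl3
      linarith
    refine slow_of_rho H (ρ := t) (by linarith) (by linarith) (h6 t (by linarith) t2) ?_ t1 ha h3a
    have e4 : α = 1 / (log 2 - ρ * log 3) := by rw [← r3, one_div_one_div]
    rw [e4]
    apply one_div_lt_one_div_of_lt hDt
    have := mul_lt_mul_of_pos_right t3 hl3
    linarith
  refine ⟨γ₀, ⟨h4, h5⟩, h7, ?_, hcount⟩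
  intro a ha h3a ε hε N
  -- choice of ρ
  have hc : ContinuousAt (fun t : ℝ => 1 / (log 2 - t * log 3)) ρ₀ := by
    apply ContinuousAt.div (by fun_prop) (by fun_prop)
    exact hD0.ne'
  have hev : ∀ᶠ t in nhdsWithin ρ₀ (Set.Iio ρ₀),
      (γ₀ - ε < 1 / (log 2 - t * log 3) ∧ 1 / 2 < t) ∧ t < ρ₀ := by
    have e1 : γ₀ - ε < 1 / (log 2 - ρ₀ * log 3) := by
      rw [← h3]
      linarith
    have e2 := hc.tendsto.eventually (lt_mem_nhds e1)
    have e3 : ∀ᶠ t in nhds ρ₀, 1 / 2 < t := lt_mem_nhds h1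
    filter_upwards [(e2.and e3).filter_mono nhdsWithin_le_nhds, self_mem_nhdsWithin] with t h8 h9
    exact ⟨h8, h9⟩
  obtain ⟨t, ⟨t1, t2⟩, t3⟩ := hev.exists
  have hDt : 0 < log 2 - t * log 3 := by
    have := mul_lt_mul_of_pos_right t3 hl3
    linarith
  have hpos : 0 < (binEntropy t - t * log 3) / (log 2 - t * log 3) :=
    div_pos (by linarith [h6 t t2 t3]) hDt
  obtain ⟨r, hr0, hr⟩ := exists_between hpos
  have hslow := slow_of_rho H (ρ := t) t2 (by linarith) (h6 t t2 t3) t1 hr ha h3a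
  have hN : ∀ᶠ x : ℝ in atTop, (N : ℝ) < x ^ r := (tendsto_rpow_atTop hr0).eventually_gt_atTop _
  obtain ⟨x, hx1, hx2⟩ := (hslow.and hN).exists
  by_contra hcon
  push Not at hcon
  have hsub : {b ∈ SlowSet a (γ₀ - ε) | (b : ℝ) ≤ x} ⊆ (Finset.range N : Set ℕ) := by
    rintro b ⟨⟨_, hb2, hb3⟩, _⟩
    rw [Finset.mem_coe, Finset.mem_range]
    by_contra hb
    obtain ⟨k, hk1, hk2⟩ := hcon b (by omega) hb2
    have := hb3 k hk1
    linarith
  have h8 := Set.ncard_le_ncard hsub (Finset.finite_toSet _)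
  rw [Set.ncard_coe_finset, Finset.card_range] at h8
  have h9 : ({b ∈ SlowSet a (γ₀ - ε) | (b : ℝ) ≤ x}.ncard : ℝ) ≤ N := by exact_mod_cast h8
  linarith

end Pool.Agent.Collatz3
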