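import Mathlib
import Pool.Agent.Collatz3.Defs
import Pool.Agent.Collatz3.VDefs

set_option autoImplicit false

/-!
Definitions for the theorem quenched = annealed on the inverse 3x+1 tree.
-/

namespace Pool.Agent.Collatz3.QA

open Finset Real
open Pool.Agent.Collatz3.Mix (words Vf)

/-- A law with full support on the letters `1, ..., I`, where `I` is a positive multiple of 6. -/
structure Law where
  I : ℕ
  p : ℕ → ℝ
  dvd : 6 ∣ I
  I0 : 0 < I
  pos : ∀ i ∈ Icc 1 I, 0 < p i
  sum : ∑ i ∈ Icc 1 I, p i = 1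

/-- Weight of a word. -/
noncomputable def wt (P : Law) (w : List ℕ) : ℝ := (w.map P.p).prod

/-- The next state after reading the letter `i` at `x`. -/
def nx (x : ℤ) (i : ℕ) : ℤ := (2 ^ i * x - 1) / 3

/-- The end point of the word `w` read at `x`. -/
def ep : ℤ → List ℕ → ℤ
  | x, [] => x
  | x, i :: w => ep (nx x i) w

/-- The word `w` can be read at `x` and its end point is prime to 3 (so `x` is prime to 3 too). -/
def Rd : ℤ → List ℕ → Prop
  | x, [] => ¬ (3 : ℤ) ∣ x
  | x, i :: w => (3 : ℤ) ∣ 2 ^ i * x - 1 ∧ Rd (nx x i) w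

instance Rd.dec : (x : ℤ) → (w : List ℕ) → Decidable (Rd x w)
  | x, [] => inferInstanceAs (Decidable (¬ (3 : ℤ) ∣ x))
  | x, i :: w =>
    haveI := Rd.dec (nx x i) w
    inferInstanceAs (Decidable ((3 : ℤ) ∣ 2 ^ i * x - 1 ∧ Rd (nx x i) w))

/-- The partition function (normalised density of the planted measure). It vanishes at
multiples of 3 and is periodic modulo `3 ^ (n + 1)`. -/
noncomputable def M (P : Law) : ℕ → ℤ → ℝ
  | 0, x => 2 * ∑ i ∈ (Icc 1 P.I).filter (fun i => (3 : ℤ) ∣ 2 ^ i * x - 1), P.p i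
  | n + 1, x => ∑ i ∈ (Icc 1 P.I).filter (fun i => (3 : ℤ) ∣ 2 ^ i * x - 1),
      3 * P.p i * M P n (nx x i)

/-- A block kernel of length `n` : for every `x` prime to 3 a probability `k x` on the words with
`n` letters that can be read at `x`, depending on `x` modulo `3 ^ (n + 1)`. -/
structure Ker (I : ℕ) where
  n : ℕ
  k : ℤ → List ℕ → ℝ
  nonneg : ∀ x w, 0 ≤ k x w
  supp : ∀ x w, k x w ≠ 0 → w ∈ words I n ∧ Rd x w
  sum_one : ∀ x, ¬ (3 : ℤ) ∣ x → ∑ w ∈ words I n, k x w = 1
  per : ∀ x x' w, (3 : ℤ) ^ (n + 1) ∣ x - x' → k x w = k x' w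

/-- The law modulo `3 ^ (s + 1)` of the end point, on the event that the sum of the word is `S`. -/
noncomputable def elaw {I : ℕ} (K : Ker I) (x : ℤ) (S s : ℕ) (y : ZMod (3 ^ (s + 1))) : ℝ :=
  ∑ w ∈ (words I K.n).filter (fun w => w.sum = S ∧ ((ep x w : ℤ) : ZMod (3 ^ (s + 1))) = y),
    K.k x w

/-- The non-uniformity of the digit `s` of the end point, given the sum of the word and the
lower digits. -/
noncomputable def Q {I : ℕ} (K : Ker I) (x : ℤ) (s : ℕ) : ℝ :=
  ∑ S ∈ range (I * K.n + 1), Vf s (elaw K x S s)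

/-- Mean over the residues modulo `3 ^ (N + 1)` which are congruent to `c` modulo 3. -/
noncomputable def av (N : ℕ) (c : ℤ) (f : ℤ → ℝ) : ℝ :=
  (∑ j ∈ range (3 ^ N), f (c + 3 * j)) / 3 ^ N

/-- The class mean of `Q`. -/
noncomputable def V {I : ℕ} (K : Ker I) (c : ℤ) (s : ℕ) : ℝ := av K.n c (fun x => Q K x s)

/-- The maximum over the two classes. -/
noncomputable def Vm {I : ℕ} (K : Ker I) (s : ℕ) : ℝ := max (V K 1 s) (V K 2 s)

/-- Class mean of `log M_n`. -/
noncomputable def LL (P : Law) (c : ℤ) (n : ℕ) : ℝ := av n c (fun x => log (M P n x))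

/-- The minimum over the two classes. -/
noncomputable def Lm (P : Law) (n : ℕ) : ℝ := min (LL P 1 n) (LL P 2 n)

/-- Entropy of the kernel at `x`. -/
noncomputable def HH {I : ℕ} (K : Ker I) (x : ℤ) : ℝ :=
  ∑ w ∈ words I K.n, Real.negMulLog (K.k x w)

/-- Probability that the end point of the kernel started in the class `c` is `1` modulo 3. -/
noncomputable def Pr1 {I : ℕ} (K : Ker I) (c : ℤ) : ℝ :=
  av K.n c (fun x => ∑ w ∈ (words I K.n).filter (fun w => ep x w % 3 = 1), K.k x w)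

end Pool.Agent.Collatz3.QA
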