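import Mathlib
import Pool.Agent.Collatz3.QDefs
import Pool.Agent.Collatz3.VBasic

set_option autoImplicit false

/-!
Elementary facts on reading words, composition of block kernels.
-/

namespace Pool.Agent.Collatz3.QA

open Finset Real
open Pool.Agent.Collatz3.Mix (words Vf mem_words sum_words_zero sum_words_succ sum_words_add)

theorem three_dvd_pow_two_mul {s : ℕ} {t : ℤ} : (3 : ℤ) ∣ 2 ^ s * t ↔ (3 : ℤ) ∣ t := by
  have h1 : IsCoprime (3 : ℤ) (2 ^ s) := IsCoprime.pow_right (by norm_num)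
  exact ⟨fun h => h1.dvd_of_dvd_mul_left h, fun h => h.mul_left _⟩

theorem Rd.unit {x : ℤ} {w : List ℕ} (h : Rd x w) : ¬ (3 : ℤ) ∣ x := by
  cases w with
  | nil => exact h
  | cons i w =>
    intro h3
    have h1 : (3 : ℤ) ∣ 2 ^ i * x := h3.mul_left _
    have h2 : (3 : ℤ) ∣ 1 := (dvd_sub_right h1).1 h.1
    norm_num at h2

theorem nx_spec {x : ℤ} {i : ℕ} (h : (3 : ℤ) ∣ 2 ^ i * x - 1) : 3 * nx x i + 1 = 2 ^ i * x := by
  unfold nx
  omega

theorem Rd.end_unit {x : ℤ} {w : List ℕ} (h : Rd x w) : ¬ (3 : ℤ) ∣ ep x w := by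
  induction w generalizing x with
  | nil => exact h
  | cons i w ih => exact ih h.2

theorem ep_nil (x : ℤ) : ep x [] = x := rfl
theorem ep_cons (x : ℤ) (i : ℕ) (w : List ℕ) : ep x (i :: w) = ep (nx x i) w := rfl
theorem Rd_nil (x : ℤ) : Rd x [] ↔ ¬ (3 : ℤ) ∣ x := Iff.rfl
theorem Rd_cons (x : ℤ) (i : ℕ) (w : List ℕ) :
    Rd x (i :: w) ↔ (3 : ℤ) ∣ 2 ^ i * x - 1 ∧ Rd (nx x i) w := Iff.rfl

theorem ep_append (x : ℤ) (v w : List ℕ) : ep x (v ++ w) = ep (ep x v) w := by
  induction v generalizing x with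
  | nil => rfl
  | cons i v ih => simp only [List.cons_append, ep_cons, ih]

theorem Rd_append {x : ℤ} {v w : List ℕ} : Rd x (v ++ w) ↔ Rd x v ∧ Rd (ep x v) w := by
  induction v generalizing x with
  | nil =>
    simp only [List.nil_append, ep_nil, Rd_nil]
    exact ⟨fun h => ⟨h.unit, h⟩, fun h => h.2⟩
  | cons i v ih => simp only [List.cons_append, Rd_cons, ep_cons, ih, and_assoc]

theorem Rd.rel {x : ℤ} {w : List ℕ} (h : Rd x w) :
    2 ^ w.sum * x = 3 ^ w.length * ep x w + cw w := by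
  induction w generalizing x with
  | nil => simp [cw, ep_nil]
  | cons i w ih =>
    have h1 := nx_spec h.1
    have h2 := ih h.2
    simp only [List.sum_cons, List.length_cons, cw, pow_succ, pow_add, ep_cons]
    push_cast
    rw [mul_right_comm, ← h1]
    linear_combination 3 * h2

theorem Rd.shift {x t : ℤ} {w : List ℕ} (h : Rd x w) :
    Rd (x + 3 ^ (w.length + 1) * t) w ∧
      ep (x + 3 ^ (w.length + 1) * t) w = ep x w + 3 * 2 ^ w.sum * t := by
  induction w generalizing x t with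
  | nil =>
    simp only [List.length_nil, zero_add, pow_one, List.sum_nil, pow_zero, mul_one, ep_nil, Rd_nil,
      and_true]
    intro h3
    exact h ((dvd_add_left (dvd_mul_right 3 t)).1 h3)
  | cons i w ih =>
    have h1 := nx_spec h.1
    have e1 : (2 : ℤ) ^ i * (x + 3 ^ ((i :: w).length + 1) * t) - 1 =
        3 * (nx x i + 3 ^ (w.length + 1) * (2 ^ i * t)) := by
      rw [List.length_cons, pow_succ]
      linear_combination -h1
    have e2 : nx (x + 3 ^ ((i :: w).length + 1) * t) i = nx x i + 3 ^ (w.length + 1) * (2 ^ i * t) := by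
      unfold nx
      rw [show ((2 : ℤ) ^ i * (x + 3 ^ ((i :: w).length + 1) * t) - 1) =
        3 * (nx x i + 3 ^ (w.length + 1) * (2 ^ i * t)) from e1]
      exact Int.mul_ediv_cancel_left _ (by norm_num)
    obtain ⟨i1, i2⟩ := ih (x := nx x i) (t := 2 ^ i * t) h.2
    refine ⟨⟨⟨_, e1⟩, by rw [e2]; exact i1⟩, ?_⟩
    rw [ep_cons, ep_cons, e2, i2, List.sum_cons, pow_add]
    ring

theorem Rd.congr {x x' : ℤ} {w : List ℕ} (h : Rd x w) (hx : (3 : ℤ) ^ (w.length + 1) ∣ x - x') :
    Rd x' w := by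
  obtain ⟨t, ht⟩ := hx
  have e : x' = x + 3 ^ (w.length + 1) * (-t) := by linear_combination -ht
  rw [e]
  exact h.shift.1

theorem Rd.ep_congr {x x' : ℤ} {w : List ℕ} {r : ℕ} (h : Rd x w)
    (hx : (3 : ℤ) ^ (w.length + (r + 1)) ∣ x - x') : (3 : ℤ) ^ (r + 1) ∣ ep x w - ep x' w := by
  obtain ⟨t, ht⟩ := hx
  have e : x' = x + 3 ^ (w.length + 1) * (3 ^ r * (-t)) := by
    have : (3 : ℤ) ^ (w.length + (r + 1)) = 3 ^ (w.length + 1) * 3 ^ r := by
      rw [← pow_add]; congr 1; omega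
    rw [this] at ht
    linear_combination -ht
  have h2 := (h.shift (t := 3 ^ r * (-t))).2
  rw [← e] at h2
  exact ⟨2 ^ w.sum * t, by rw [h2, pow_succ]; ring⟩

theorem Rd_iff_of_dvd {x x' : ℤ} {w : List ℕ} (hx : (3 : ℤ) ^ (w.length + 1) ∣ x - x') :
    Rd x w ↔ Rd x' w :=
  ⟨fun h => h.congr hx, fun h => h.congr (by rw [← dvd_neg, neg_sub]; exact hx)⟩

theorem Rd.ok {x : ℤ} {w : List ℕ} (h : Rd x w) : Ok x w := by
  refine ⟨ep x w, ?_, h.end_unit⟩
  induction w generalizing x with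
  | nil => rfl
  | cons i w ih => exact ⟨nx x i, (nx_spec h.1).symm, ih h.2⟩

/-! ### Composition -/

/-- The kernel of length 0. -/
noncomputable def triv (I : ℕ) : Ker I where
  n := 0
  k x w := if w = [] ∧ ¬ (3 : ℤ) ∣ x then 1 else 0
  nonneg x w := by positivity
  supp x w h := by
    by_cases h1 : w = [] ∧ ¬ (3 : ℤ) ∣ x
    · obtain ⟨rfl, h2⟩ := h1
      exact ⟨by simp [words], h2⟩
    · rw [if_neg h1] at h
      exact absurd rfl h
  sum_one x hx := by
    rw [sum_words_zero]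
    simp [hx]
  per x x' w h := by
    have h3 : (3 : ℤ) ∣ x ↔ (3 : ℤ) ∣ x' := by
      rw [zero_add, pow_one] at h
      exact (dvd_iff_dvd_of_dvd_sub h)
    simp only [h3]

/-- Composition of block kernels. -/
noncomputable def comp {I : ℕ} (K K' : Ker I) : Ker I where
  n := K.n + K'.n
  k x w := K.k x (w.take K.n) * K'.k (ep x (w.take K.n)) (w.drop K.n)
  nonneg x w := mul_nonneg (K.nonneg _ _) (K'.nonneg _ _)
  supp x w h := by
    obtain ⟨h1, h2⟩ := K.supp _ _ (left_ne_zero_of_mul h)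
    obtain ⟨h3, h4⟩ := K'.supp _ _ (right_ne_zero_of_mul h)
    rw [mem_words] at h1 h3
    rw [mem_words]
    refine ⟨⟨?_, ?_⟩, ?_⟩
    · rw [← List.take_append_drop K.n w, List.length_append, h1.1, h3.1]
    · intro i hi
      rw [← List.take_append_drop K.n w, List.mem_append] at hi
      exact hi.elim (h1.2 i) (h3.2 i)
    · rw [← List.take_append_drop K.n w, Rd_append]
      exact ⟨h2, h4⟩
  sum_one x hx := by
    rw [sum_words_add]
    have e : ∀ v ∈ words I K.n, ∀ w ∈ words I K'.n,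
        K.k x ((v ++ w).take K.n) * K'.k (ep x ((v ++ w).take K.n)) ((v ++ w).drop K.n) =
          K.k x v * K'.k (ep x v) w := by
      intro v hv w _
      rw [mem_words] at hv
      rw [← hv.1, List.take_left, List.drop_left]
    have e2 : ∀ v ∈ words I K.n, ∑ w ∈ words I K'.n, K.k x ((v ++ w).take K.n) *
        K'.k (ep x ((v ++ w).take K.n)) ((v ++ w).drop K.n) = K.k x v := by
      intro v hv
      rw [sum_congr rfl (e v hv), ← mul_sum]
      by_cases h0 : K.k x v = 0
      · rw [h0, zero_mul]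
      · rw [K'.sum_one _ (K.supp _ _ h0).2.end_unit, mul_one]
    rw [sum_congr rfl e2]
    exact K.sum_one x hx
  per x x' w h := by
    have h1 : K.k x (w.take K.n) = K.k x' (w.take K.n) :=
      K.per _ _ _ (dvd_trans (pow_dvd_pow 3 (by omega)) h)
    rw [h1]
    by_cases h0 : K.k x' (w.take K.n) = 0
    · rw [h0, zero_mul, zero_mul]
    · have h2 := K.supp _ _ h0
      rw [← h1] at h0
      have h3 := K.supp _ _ h0
      rw [mem_words] at h3
      rw [K'.per _ _ _ (h3.2.ep_congr (r := K'.n) (by rw [h3.1.1, ← add_assoc]; exact h))]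

theorem comp_k_append {I : ℕ} (K K' : Ker I) (x : ℤ) {v w : List ℕ} (hv : v.length = K.n) :
    (comp K K').k x (v ++ w) = K.k x v * K'.k (ep x v) w := by
  show K.k x ((v ++ w).take K.n) * K'.k (ep x ((v ++ w).take K.n)) ((v ++ w).drop K.n) = _
  rw [← hv, List.take_left, List.drop_left]

theorem comp_n {I : ℕ} (K K' : Ker I) : (comp K K').n = K.n + K'.n := rfl

/-- Sums against a composed kernel. -/
theorem sum_comp {I : ℕ} (K K' : Ker I) (x : ℤ) (f : List ℕ → ℝ) :
    ∑ w ∈ words I (K.n + K'.n), (comp K K').k x w * f w =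
      ∑ v ∈ words I K.n, K.k x v * ∑ w ∈ words I K'.n, K'.k (ep x v) w * f (v ++ w) := by
  rw [sum_words_add]
  refine sum_congr rfl fun v hv => ?_
  rw [mul_sum]
  refine sum_congr rfl fun w _ => ?_
  rw [mem_words] at hv
  rw [comp_k_append K K' x hv.1]
  ring

end Pool.Agent.Collatz3.QA
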