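import Mathlib
import Pool.Agent.Collatz3.QKer
import Pool.Agent.Collatz3.Words

set_option autoImplicit false

/-!
Basic facts on the partition functions `M` and on class means.
-/

namespace Pool.Agent.Collatz3.QA

open Finset Real
open Pool.Agent.Collatz3.Mix (words Vf mem_words sum_words_zero sum_words_succ sum_words_add)

theorem three_dvd_iff_of_dvd_sub {x x' : ℤ} (h : (3 : ℤ) ∣ x - x') : (3 : ℤ) ∣ x ↔ (3 : ℤ) ∣ x' :=
  dvd_iff_dvd_of_dvd_sub h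

theorem read_iff_of_dvd_sub {x x' : ℤ} (h : (3 : ℤ) ∣ x - x') (i : ℕ) :
    (3 : ℤ) ∣ 2 ^ i * x - 1 ↔ (3 : ℤ) ∣ 2 ^ i * x' - 1 := by
  apply dvd_iff_dvd_of_dvd_sub
  have : (2 : ℤ) ^ i * x - 1 - (2 ^ i * x' - 1) = 2 ^ i * (x - x') := by ring
  rw [this]
  exact h.mul_left _

theorem read_unit {x : ℤ} {i : ℕ} (h : (3 : ℤ) ∣ 2 ^ i * x - 1) : ¬ (3 : ℤ) ∣ x := by
  intro h3
  have h1 : (3 : ℤ) ∣ 2 ^ i * x := h3.mul_left _
  have h2 : (3 : ℤ) ∣ 1 := (dvd_sub_right h1).1 h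
  norm_num at h2

variable (P : Law)

theorem one_mem : 1 ∈ Icc 1 P.I := by
  have := P.I0
  rw [mem_Icc]; omega

theorem M_zero_of_dvd (n : ℕ) {x : ℤ} (h : (3 : ℤ) ∣ x) : M P n x = 0 := by
  cases n with
  | zero =>
    rw [M, filter_eq_empty_iff.2 fun i _ hi => read_unit hi h, sum_empty, mul_zero]
  | succ n =>
    rw [M, filter_eq_empty_iff.2 fun i _ hi => read_unit hi h, sum_empty]

theorem M_nonneg (n : ℕ) (x : ℤ) : 0 ≤ M P n x := by
  induction n generalizing x with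
  | zero =>
    rw [M]
    exact mul_nonneg (by norm_num) (sum_nonneg fun i hi => (P.pos i (mem_filter.1 hi).1).le)
  | succ n ih =>
    rw [M]
    exact sum_nonneg fun i hi =>
      mul_nonneg (mul_nonneg (by norm_num) (P.pos i (mem_filter.1 hi).1).le) (ih _)

theorem nx_sub {x x' : ℤ} {i n : ℕ} (h : (3 : ℤ) ∣ 2 ^ i * x - 1) (hx : (3 : ℤ) ^ (n + 1 + 1) ∣ x - x') :
    (3 : ℤ) ^ (n + 1) ∣ nx x i - nx x' i := by
  have h' : (3 : ℤ) ∣ 2 ^ i * x' - 1 :=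
    (read_iff_of_dvd_sub (dvd_trans (dvd_pow_self 3 (by omega)) hx) i).1 h
  have e1 := nx_spec h
  have e2 := nx_spec h'
  have e3 : (3 : ℤ) * (nx x i - nx x' i) = 2 ^ i * (x - x') := by linear_combination e1 - e2
  have h3 : (3 : ℤ) * 3 ^ (n + 1) ∣ 3 * (nx x i - nx x' i) := by
    rw [e3, ← pow_succ']
    exact hx.mul_left _
  exact (mul_dvd_mul_iff_left (by norm_num)).1 h3

theorem M_per (n : ℕ) {x x' : ℤ} (h : (3 : ℤ) ^ (n + 1) ∣ x - x') : M P n x = M P n x' := by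
  induction n generalizing x x' with
  | zero =>
    rw [zero_add, pow_one] at h
    rw [M, M]
    simp only [read_iff_of_dvd_sub h]
  | succ n ih =>
    have h3 : (3 : ℤ) ∣ x - x' := dvd_trans (dvd_pow_self 3 (by omega)) h
    rw [M, M]
    refine sum_congr ?_ fun i hi => ?_
    · ext i
      simp only [mem_filter, read_iff_of_dvd_sub h3]
    · rw [mem_filter, ← read_iff_of_dvd_sub h3] at hi
      rw [ih (nx_sub hi.2 h)]

theorem M_per' (n : ℕ) (x t : ℤ) : M P n (x + 3 ^ (n + 1) * t) = M P n x :=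
  M_per P n ⟨t, by ring⟩

theorem wt_cons (i : ℕ) (w : List ℕ) : wt P (i :: w) = P.p i * wt P w := by
  simp [wt]

theorem wt_nil : wt P [] = 1 := by simp [wt]

theorem wt_append (v w : List ℕ) : wt P (v ++ w) = wt P v * wt P w := by
  simp [wt]

theorem wt_pos {n : ℕ} {w : List ℕ} (h : w ∈ words P.I n) : 0 < wt P w := by
  rw [mem_words] at h
  unfold wt
  apply List.prod_pos
  intro a ha
  rw [List.mem_map] at ha
  obtain ⟨i, hi, rfl⟩ := ha
  exact P.pos i (mem_Icc.2 (h.2 i hi))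

theorem M_add (n m : ℕ) (x : ℤ) :
    M P (n + m) x = ∑ w ∈ words P.I n, if Rd x w then 3 ^ n * wt P w * M P m (ep x w) else 0 := by
  induction n generalizing x with
  | zero =>
    rw [sum_words_zero, Nat.zero_add, wt_nil, pow_zero, mul_one, one_mul, ep_nil]
    by_cases h : Rd x []
    · rw [if_pos h]
    · rw [if_neg h]
      rw [Rd_nil, not_not] at h
      exact M_zero_of_dvd P m h
  | succ n ih =>
    rw [show n + 1 + m = (n + m) + 1 by ring, M, sum_words_succ, sum_filter]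
    refine sum_congr rfl fun i _ => ?_
    by_cases h : (3 : ℤ) ∣ 2 ^ i * x - 1
    · rw [if_pos h, ih, mul_sum]
      refine sum_congr rfl fun w _ => ?_
      rw [ep_cons, wt_cons]
      by_cases h2 : Rd (nx x i) w
      · rw [if_pos h2, if_pos ((Rd_cons x i w).2 ⟨h, h2⟩)]
        ring
      · rw [if_neg h2, if_neg (fun h3 => h2 ((Rd_cons x i w).1 h3).2), mul_zero]
    · rw [if_neg h]
      symm
      apply sum_eq_zero
      intro w _
      rw [if_neg (fun h3 => h h3.1)]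

theorem M_eq_sum (n : ℕ) (x : ℤ) :
    M P n x = ∑ w ∈ words P.I n, if Rd x w then 3 ^ n * wt P w * M P 0 (ep x w) else 0 :=
  M_add P n 0 x

theorem exists_pmin : ∃ q : ℝ, 0 < q ∧ ∀ i ∈ Icc 1 P.I, q ≤ P.p i := by
  obtain ⟨i, hi, h⟩ := exists_min_image (Icc 1 P.I) P.p ⟨1, one_mem P⟩
  exact ⟨P.p i, P.pos i hi, h⟩

theorem six_le : 6 ≤ P.I := Nat.le_of_dvd P.I0 P.dvd

theorem M_zero_pos {q : ℝ} (hq : 0 < q) (hq' : ∀ i ∈ Icc 1 P.I, q ≤ P.p i) {x : ℤ}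
    (hx : ¬ (3 : ℤ) ∣ x) : 2 * q ≤ M P 0 x := by
  obtain ⟨i, hi, h⟩ : ∃ i ∈ Icc 1 P.I, (3 : ℤ) ∣ 2 ^ i * x - 1 := by
    obtain ⟨i, h1, h2, y, hy, -⟩ := step_exists x hx 4 (Or.inl rfl)
    have := six_le P
    exact ⟨i, mem_Icc.2 ⟨h1, by omega⟩, ⟨y, by linarith⟩⟩
  rw [M]
  have := single_le_sum (f := P.p) (s := (Icc 1 P.I).filter (fun i => (3 : ℤ) ∣ 2 ^ i * x - 1))
    (fun i hi => (P.pos i (mem_filter.1 hi).1).le) (mem_filter.2 ⟨hi, h⟩)
  have := hq' i hi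
  linarith

theorem M_zero_le (x : ℤ) : M P 0 x ≤ 2 := by
  rw [M]
  have := sum_le_sum_of_subset_of_nonneg (f := P.p)
    (filter_subset (fun i => (3 : ℤ) ∣ 2 ^ i * x - 1) (Icc 1 P.I)) (fun i hi _ => (P.pos i hi).le)
  rw [P.sum] at this
  linarith

theorem M_one_ge {q : ℝ} (hq : 0 < q) (hq' : ∀ i ∈ Icc 1 P.I, q ≤ P.p i) {x : ℤ}
    (hx : ¬ (3 : ℤ) ∣ x) : 6 * q ^ 2 ≤ M P 1 x := by
  obtain ⟨i, h1, h2, y, hy, hy3, -⟩ := step_exists x hx 4 (Or.inl rfl)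
  have hi : i ∈ Icc 1 P.I := by
    have := six_le P
    exact mem_Icc.2 ⟨h1, by omega⟩
  have h3 : (3 : ℤ) ∣ 2 ^ i * x - 1 := ⟨y, by linarith⟩
  have h4 : nx x i = y := by
    have := nx_spec h3
    omega
  rw [M]
  have := single_le_sum (f := fun i => 3 * P.p i * M P 0 (nx x i))
    (s := (Icc 1 P.I).filter (fun i => (3 : ℤ) ∣ 2 ^ i * x - 1)) (fun i hi =>
      mul_nonneg (mul_nonneg (by norm_num) (P.pos i (mem_filter.1 hi).1).le) (M_nonneg P 0 _))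
    (mem_filter.2 ⟨hi, h3⟩)
  refine le_trans ?_ this
  rw [h4]
  have h5 := M_zero_pos P hq hq' hy3
  have h6 := hq' i hi
  nlinarith

theorem M_ratio : ∃ κ : ℝ, 0 < κ ∧ ∀ (n : ℕ) (x : ℤ), ¬ (3 : ℤ) ∣ x → κ * M P n x ≤ M P (n + 1) x := by
  obtain ⟨q, hq, hq'⟩ := exists_pmin P
  refine ⟨3 * q ^ 2, by positivity, fun n x _ => ?_⟩
  rw [M_eq_sum, M_add P n 1, mul_sum]
  refine sum_le_sum fun w hw => ?_
  by_cases h : Rd x w
  · rw [if_pos h, if_pos h]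
    have h1 := M_one_ge P hq hq' h.end_unit
    have h2 := M_zero_le P (ep x w)
    have h3 := wt_pos P hw
    have h4 : 3 * q ^ 2 * M P 0 (ep x w) ≤ M P 1 (ep x w) := by nlinarith
    calc 3 * q ^ 2 * (3 ^ n * wt P w * M P 0 (ep x w)) =
        3 ^ n * wt P w * (3 * q ^ 2 * M P 0 (ep x w)) := by ring
      _ ≤ 3 ^ n * wt P w * M P 1 (ep x w) := by gcongr
  · rw [if_neg h, if_neg h, mul_zero]

theorem M_pos (n : ℕ) {x : ℤ} (hx : ¬ (3 : ℤ) ∣ x) : 0 < M P n x := by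
  induction n with
  | zero =>
    obtain ⟨q, hq, hq'⟩ := exists_pmin P
    have := M_zero_pos P hq hq' hx
    linarith
  | succ n ih =>
    obtain ⟨κ, hκ, h⟩ := M_ratio P
    exact lt_of_lt_of_le (by positivity) (h n x hx)

/-! ### The martingale property -/

theorem three_sum {f : ℤ → ℝ} {r : ℕ} (hf : ∀ z z' : ℤ, (3 : ℤ) ^ (r + 1) ∣ z - z' → f z = f z')
    (y κ : ℤ) (hκ : ¬ (3 : ℤ) ∣ κ) :
    f y + f (y + 3 ^ r * κ) + f (y + 3 ^ r * (2 * κ)) =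
      f y + f (y + 3 ^ r) + f (y + 2 * 3 ^ r) := by
  rcases (by omega : κ % 3 = 1 ∨ κ % 3 = 2) with h | h
  · obtain ⟨k, rfl⟩ : ∃ k, κ = 1 + 3 * k := ⟨κ / 3, by omega⟩
    have h1 : f (y + 3 ^ r * (1 + 3 * k)) = f (y + 3 ^ r) := hf _ _ ⟨k, by rw [pow_succ]; ring⟩
    have h2 : f (y + 3 ^ r * (2 * (1 + 3 * k))) = f (y + 2 * 3 ^ r) :=
      hf _ _ ⟨2 * k, by rw [pow_succ]; ring⟩
    rw [h1, h2]
  · obtain ⟨k, rfl⟩ : ∃ k, κ = 2 + 3 * k := ⟨κ / 3, by omega⟩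
    have h1 : f (y + 3 ^ r * (2 + 3 * k)) = f (y + 2 * 3 ^ r) :=
      hf _ _ ⟨k, by rw [pow_succ]; ring⟩
    have h2 : f (y + 3 ^ r * (2 * (2 + 3 * k))) = f (y + 3 ^ r) :=
      hf _ _ ⟨1 + 2 * k, by rw [pow_succ]; ring⟩
    rw [h1, h2]
    ring

theorem two_pow_not_dvd (i : ℕ) : ¬ (3 : ℤ) ∣ 2 ^ i := by
  intro h
  have := Int.prime_three.dvd_of_dvd_pow h
  norm_num at this

theorem M_zero_sum (y : ℤ) : M P 0 y + M P 0 (y + 1) + M P 0 (y + 2) = 2 := by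
  rw [M, M, M, ← mul_add, ← mul_add, sum_filter, sum_filter, sum_filter, ← sum_add_distrib,
    ← sum_add_distrib]
  have : ∀ i ∈ Icc 1 P.I, ((if (3 : ℤ) ∣ 2 ^ i * y - 1 then P.p i else 0) +
      (if (3 : ℤ) ∣ 2 ^ i * (y + 1) - 1 then P.p i else 0)) +
      (if (3 : ℤ) ∣ 2 ^ i * (y + 2) - 1 then P.p i else 0) = P.p i := by
    intro i _
    have h := two_pow_not_dvd i
    rw [mul_add, mul_add]
    generalize (2 : ℤ) ^ i = κ at h
    have e : ∀ u : ℤ, (3 : ℤ) ∣ u ↔ u % 3 = 0 := fun u => Int.dvd_iff_emod_eq_zero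
    have hk : κ % 3 = 1 ∨ κ % 3 = 2 := by omega
    have h3 : y % 3 = 0 ∨ y % 3 = 1 ∨ y % 3 = 2 := by omega
    have hm : (κ * y) % 3 = ((κ % 3) * (y % 3)) % 3 := Int.mul_emod _ _ _
    rcases hk with hk | hk <;> rcases h3 with h3 | h3 | h3 <;> rw [hk, h3] at hm <;>
      norm_num at hm <;> split_ifs <;> first | omega | simp
  rw [sum_congr rfl this, P.sum, mul_one]

theorem M_succ (n : ℕ) (x : ℤ) : M P (n + 1) x =
    ∑ i ∈ (Icc 1 P.I).filter (fun i => (3 : ℤ) ∣ 2 ^ i * x - 1), 3 * P.p i * M P n (nx x i) := rfl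

theorem M_lift (s : ℕ) (z : ℤ) :
    M P (s + 1) z + M P (s + 1) (z + 3 ^ (s + 1)) + M P (s + 1) (z + 2 * 3 ^ (s + 1)) =
      3 * M P s z := by
  induction s generalizing z with
  | zero =>
    have key : ∀ i, (3 : ℤ) ∣ 2 ^ i * z - 1 →
        M P 0 (nx z i) + M P 0 (nx (z + 3 ^ (0 + 1)) i) + M P 0 (nx (z + 2 * 3 ^ (0 + 1)) i) = 2 := by
      intro i hi
      have e0 := nx_spec hi
      have e1 : nx (z + 3 ^ (0 + 1)) i = nx z i + 3 ^ 0 * 2 ^ i := by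
        unfold nx at e0 ⊢
        have : (2 : ℤ) ^ i * (z + 3 ^ (0 + 1)) - 1 = 3 * ((2 ^ i * z - 1) / 3 + 3 ^ 0 * 2 ^ i) := by
          linear_combination -e0
        rw [this]
        exact Int.mul_ediv_cancel_left _ (by norm_num)
      have e2 : nx (z + 2 * 3 ^ (0 + 1)) i = nx z i + 3 ^ 0 * (2 * 2 ^ i) := by
        unfold nx at e0 ⊢
        have : (2 : ℤ) ^ i * (z + 2 * 3 ^ (0 + 1)) - 1 =
            3 * ((2 ^ i * z - 1) / 3 + 3 ^ 0 * (2 * 2 ^ i)) := by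
          linear_combination -e0
        rw [this]
        exact Int.mul_ediv_cancel_left _ (by norm_num)
      rw [e1, e2, three_sum (f := M P 0) (r := 0) (fun z z' h => M_per P 0 h) _ _ (two_pow_not_dvd i)]
      have := M_zero_sum P (nx z i)
      simpa using this
    have f1 : ∀ i, (3 : ℤ) ∣ 2 ^ i * (z + 3 ^ (0 + 1)) - 1 ↔ (3 : ℤ) ∣ 2 ^ i * z - 1 := fun i =>
      read_iff_of_dvd_sub ⟨1, by ring⟩ i
    have f2 : ∀ i, (3 : ℤ) ∣ 2 ^ i * (z + 2 * 3 ^ (0 + 1)) - 1 ↔ (3 : ℤ) ∣ 2 ^ i * z - 1 := fun i =>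
      read_iff_of_dvd_sub ⟨2, by ring⟩ i
    rw [M_succ, M_succ, M_succ]
    simp only [f1, f2]
    rw [← sum_add_distrib, ← sum_add_distrib, M, ← mul_assoc, mul_sum]
    refine sum_congr rfl fun i hi => ?_
    have := key i (mem_filter.1 hi).2
    linear_combination 3 * P.p i * this
  | succ s ih =>
    have key : ∀ i, (3 : ℤ) ∣ 2 ^ i * z - 1 →
        M P (s + 1) (nx z i) + M P (s + 1) (nx (z + 3 ^ (s + 1 + 1)) i) +
          M P (s + 1) (nx (z + 2 * 3 ^ (s + 1 + 1)) i) = 3 * M P s (nx z i) := by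
      intro i hi
      have e0 := nx_spec hi
      have e1 : nx (z + 3 ^ (s + 1 + 1)) i = nx z i + 3 ^ (s + 1) * 2 ^ i := by
        unfold nx at e0 ⊢
        have : (2 : ℤ) ^ i * (z + 3 ^ (s + 1 + 1)) - 1 =
            3 * ((2 ^ i * z - 1) / 3 + 3 ^ (s + 1) * 2 ^ i) := by
          rw [pow_succ (3 : ℤ) (s + 1)]
          linear_combination -e0
        rw [this]
        exact Int.mul_ediv_cancel_left _ (by norm_num)
      have e2 : nx (z + 2 * 3 ^ (s + 1 + 1)) i = nx z i + 3 ^ (s + 1) * (2 * 2 ^ i) := by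
        unfold nx at e0 ⊢
        have : (2 : ℤ) ^ i * (z + 2 * 3 ^ (s + 1 + 1)) - 1 =
            3 * ((2 ^ i * z - 1) / 3 + 3 ^ (s + 1) * (2 * 2 ^ i)) := by
          rw [pow_succ (3 : ℤ) (s + 1)]
          linear_combination -e0
        rw [this]
        exact Int.mul_ediv_cancel_left _ (by norm_num)
      rw [e1, e2, three_sum (f := M P (s + 1)) (r := s + 1) (fun z z' h => M_per P (s + 1) h) _ _
        (two_pow_not_dvd i)]
      exact ih (nx z i)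
    have f1 : ∀ i, (3 : ℤ) ∣ 2 ^ i * (z + 3 ^ (s + 1 + 1)) - 1 ↔ (3 : ℤ) ∣ 2 ^ i * z - 1 := fun i =>
      read_iff_of_dvd_sub ⟨3 ^ (s + 1), by rw [pow_succ (3 : ℤ) (s + 1)]; ring⟩ i
    have f2 : ∀ i, (3 : ℤ) ∣ 2 ^ i * (z + 2 * 3 ^ (s + 1 + 1)) - 1 ↔ (3 : ℤ) ∣ 2 ^ i * z - 1 :=
      fun i => read_iff_of_dvd_sub ⟨2 * 3 ^ (s + 1), by rw [pow_succ (3 : ℤ) (s + 1)]; ring⟩ i
    rw [M_succ, M_succ, M_succ]
    simp only [f1, f2]
    rw [← sum_add_distrib, ← sum_add_distrib, M_succ, mul_sum]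
    refine sum_congr rfl fun i hi => ?_
    have := key i (mem_filter.1 hi).2
    linear_combination 3 * P.p i * this

/-! ### Class means -/

theorem sum_range_mul (a b : ℕ) (f : ℕ → ℝ) :
    ∑ k ∈ range (a * b), f k = ∑ i ∈ range a, ∑ j ∈ range b, f (i + a * j) := by
  induction b with
  | zero => simp
  | succ b ih =>
    rw [Nat.mul_succ, sum_range_add, ih, ← sum_add_distrib]
    refine sum_congr rfl fun i _ => ?_
    rw [sum_range_succ, Nat.add_comm (a * b) i]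

theorem av_split (N N' : ℕ) (c : ℤ) (f : ℤ → ℝ) :
    av (N + N') c f = av N c (fun x => (∑ j ∈ range (3 ^ N'), f (x + 3 ^ (N + 1) * j)) / 3 ^ N') := by
  unfold av
  rw [pow_add, sum_range_mul (3 ^ N) (3 ^ N') (fun k => f (c + 3 * k)), ← sum_div, pow_add,
    div_div, mul_comm ((3 : ℝ) ^ N')]
  congr 1
  refine sum_congr rfl fun i _ => sum_congr rfl fun j _ => ?_
  congr 1
  push_cast
  rw [pow_succ]
  ring

theorem av_congr {N : ℕ} {c : ℤ} {f g : ℤ → ℝ} (h : ∀ x : ℤ, x % 3 = c % 3 → f x = g x) :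
    av N c f = av N c g := by
  unfold av
  congr 1
  exact sum_congr rfl fun j _ => h _ (by omega)

theorem av_mono {N : ℕ} {c : ℤ} {f g : ℤ → ℝ} (h : ∀ x : ℤ, x % 3 = c % 3 → f x ≤ g x) :
    av N c f ≤ av N c g := by
  unfold av
  gcongr with j _
  exact h _ (by omega)

theorem av_add (N : ℕ) (c : ℤ) (f g : ℤ → ℝ) :
    av N c (fun x => f x + g x) = av N c f + av N c g := by
  unfold av
  rw [sum_add_distrib, add_div]

theorem av_sub (N : ℕ) (c : ℤ) (f g : ℤ → ℝ) :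
    av N c (fun x => f x - g x) = av N c f - av N c g := by
  unfold av
  rw [sum_sub_distrib, sub_div]

theorem av_mul (N : ℕ) (c : ℤ) (r : ℝ) (f : ℤ → ℝ) :
    av N c (fun x => r * f x) = r * av N c f := by
  unfold av
  rw [← mul_sum, mul_div_assoc]

theorem av_const (N : ℕ) (c : ℤ) (r : ℝ) : av N c (fun _ => r) = r := by
  unfold av
  rw [sum_const, card_range, nsmul_eq_mul]
  push_cast
  field_simp

theorem av_sum {ι : Type*} (N : ℕ) (c : ℤ) (s : Finset ι) (f : ι → ℤ → ℝ) :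
    av N c (fun x => ∑ i ∈ s, f i x) = ∑ i ∈ s, av N c (f i) := by
  unfold av
  rw [sum_comm, sum_div]

theorem not_dvd_of_mod {x c : ℤ} (hc : c = 1 ∨ c = 2) (h : x % 3 = c % 3) : ¬ (3 : ℤ) ∣ x := by
  rcases hc with rfl | rfl <;> omega

theorem av_M (n : ℕ) (c : ℤ) : av n c (fun x => M P n x) = M P 0 c := by
  induction n with
  | zero => simp [av]
  | succ n ih =>
    rw [av_split, ← ih]
    congr 1
    funext x
    rw [pow_one, show (3 : ℕ) = 2 + 1 from rfl, sum_range_succ, sum_range_succ, sum_range_succ,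
      sum_range_zero]
    have := M_lift P n x
    push_cast
    rw [mul_zero, add_zero, mul_one, zero_add, mul_comm ((3 : ℤ) ^ (n + 1)) 2, this]
    ring

/-- Sums of periodic functions over a full period. -/
theorem sum_perm {N : ℕ} {F : ℤ → ℝ} (hF : ∀ z z' : ℤ, (3 : ℤ) ^ N ∣ z - z' → F z = F z')
    (k u : ℤ) (hu : ¬ (3 : ℤ) ∣ u) :
    ∑ j ∈ range (3 ^ N), F (k + u * j) = ∑ j ∈ range (3 ^ N), F j := by
  have : NeZero (3 ^ N) := ⟨by positivity⟩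
  set f : ZMod (3 ^ N) → ℝ := fun y => F (y.val : ℤ) with hf
  have hval : ∀ z : ℤ, f (z : ZMod (3 ^ N)) = F z := by
    intro z
    apply hF
    rw [ZMod.val_intCast]
    push_cast
    have := Int.emod_add_mul_ediv z (3 ^ N)
    exact ⟨-(z / 3 ^ N), by linear_combination this⟩
  have hsum : ∀ G : ZMod (3 ^ N) → ℝ, ∑ j ∈ range (3 ^ N), G ((j : ℤ) : ZMod (3 ^ N)) = ∑ y, G y := by
    intro G
    refine sum_bij (fun j _ => ((j : ℤ) : ZMod (3 ^ N))) (fun _ _ => mem_univ _) ?_ ?_ ?_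
    · intro a ha b hb h
      rw [mem_range] at ha hb
      push_cast at h
      have := congrArg ZMod.val h
      rwa [ZMod.val_natCast, ZMod.val_natCast, Nat.mod_eq_of_lt ha, Nat.mod_eq_of_lt hb] at this
    · intro b _
      exact ⟨b.val, mem_range.2 (ZMod.val_lt b), by push_cast; exact ZMod.natCast_zmod_val b⟩
    · intro a _
      rfl
  have h1 : ∀ j : ℕ, F (k + u * j) = f ((k : ZMod (3 ^ N)) + u * ((j : ℤ) : ZMod (3 ^ N))) := by
    intro j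
    rw [← hval]
    push_cast
    rfl
  have h2 : ∀ j : ℕ, F j = f ((j : ℤ) : ZMod (3 ^ N)) := fun j => (hval _).symm
  simp_rw [h1, h2]
  rw [hsum (fun y => f ((k : ZMod (3 ^ N)) + u * y)), hsum f]
  have hunit : IsUnit (u : ZMod (3 ^ N)) := by
    have h3 : IsCoprime (u : ℤ) (3 ^ N) :=
      IsCoprime.pow_right ((Prime.coprime_iff_not_dvd Int.prime_three).2 hu).symm
    obtain ⟨a, b, hab⟩ := h3
    have h4 : ((a * u + b * 3 ^ N : ℤ) : ZMod (3 ^ N)) = 1 := by rw [hab]; simp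
    have h5 : (3 : ZMod (3 ^ N)) ^ N = 0 := by
      have := ZMod.natCast_self (3 ^ N)
      push_cast at this
      exact this
    push_cast at h4
    rw [h5, mul_zero, add_zero] at h4
    exact IsUnit.of_mul_eq_one _ ((mul_comm _ _).trans h4)
  obtain ⟨v, hv⟩ := hunit
  rw [← hv]
  exact ((Units.mulLeft v).trans (Equiv.addLeft (k : ZMod (3 ^ N)))).sum_comp f

theorem av_shift {N : ℕ} {g : ℤ → ℝ} (hg : ∀ z z' : ℤ, (3 : ℤ) ^ (N + 1) ∣ z - z' → g z = g z')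
    (b b' u : ℤ) (hb : (3 : ℤ) ∣ b - b') (hu : ¬ (3 : ℤ) ∣ u) :
    (∑ j ∈ range (3 ^ N), g (b + 3 * (u * j))) / 3 ^ N = av N b' g := by
  obtain ⟨k, hk⟩ := hb
  unfold av
  congr 1
  have hF : ∀ z z' : ℤ, (3 : ℤ) ^ N ∣ z - z' → g (b' + 3 * z) = g (b' + 3 * z') := by
    rintro z z' ⟨t, ht⟩
    exact hg _ _ ⟨t, by rw [pow_succ]; linear_combination 3 * ht⟩
  rw [← sum_perm (F := fun z => g (b' + 3 * z)) hF k u hu]
  refine sum_congr rfl fun j _ => ?_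
  congr 1
  linear_combination hk

theorem av_class {N : ℕ} {g : ℤ → ℝ} (hg : ∀ z z' : ℤ, (3 : ℤ) ^ (N + 1) ∣ z - z' → g z = g z')
    {b b' : ℤ} (hb : (3 : ℤ) ∣ b - b') : av N b g = av N b' g := by
  rw [← av_shift hg b b' 1 hb (by norm_num)]
  unfold av
  congr 1
  refine sum_congr rfl fun j _ => ?_
  rw [one_mul]

/-- The end point is uniform in its class. -/
theorem av_end {N : ℕ} {g : ℤ → ℝ} (hg : ∀ z z' : ℤ, (3 : ℤ) ^ (N + 1) ∣ z - z' → g z = g z')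
    {x : ℤ} {w : List ℕ} (h : Rd x w) :
    (∑ j ∈ range (3 ^ N), g (ep (x + 3 ^ (w.length + 1) * j) w)) / 3 ^ N = av N (ep x w) g := by
  rw [← av_shift hg (ep x w) (ep x w) (2 ^ w.sum) (by simp) (two_pow_not_dvd _)]
  congr 1
  refine sum_congr rfl fun j _ => ?_
  rw [h.shift.2]
  congr 1
  ring

/-- Every unit is in one of the two classes. -/
theorem av_end_ge {N : ℕ} {g : ℤ → ℝ} (hg : ∀ z z' : ℤ, (3 : ℤ) ^ (N + 1) ∣ z - z' → g z = g z')
    {b : ℤ} (hb : ¬ (3 : ℤ) ∣ b) : min (av N 1 g) (av N 2 g) ≤ av N b g := by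
  rcases (by omega : (3 : ℤ) ∣ b - 1 ∨ (3 : ℤ) ∣ b - 2) with h | h
  · rw [av_class hg h]
    exact min_le_left _ _
  · rw [av_class hg h]
    exact min_le_right _ _

theorem av_end_le {N : ℕ} {g : ℤ → ℝ} (hg : ∀ z z' : ℤ, (3 : ℤ) ^ (N + 1) ∣ z - z' → g z = g z')
    {b : ℤ} (hb : ¬ (3 : ℤ) ∣ b) : av N b g ≤ max (av N 1 g) (av N 2 g) := by
  rcases (by omega : (3 : ℤ) ∣ b - 1 ∨ (3 : ℤ) ∣ b - 2) with h | h
  · rw [av_class hg h]
    exact le_max_left _ _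
  · rw [av_class hg h]
    exact le_max_right _ _

end Pool.Agent.Collatz3.QA
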