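import Mathlib
import Pool.Agent.Collatz3.VBasic

set_option autoImplicit false

/-!
One step of the steering coupling.
-/

namespace Pool.Agent.Collatz3.QA

open Finset Real
open Pool.Agent.Collatz3.Mix (q3)

noncomputable def tau (κ : ℝ) : ℝ := min (κ / 6) (1 / 6)

/-- The three conditional probabilities are close to `1 / 3`. -/
def Good (κ a0 a1 a2 : ℝ) : Prop :=
  0 < a0 + a1 + a2 ∧ |a0 / (a0 + a1 + a2) - 1 / 3| ≤ tau κ ∧
    |a1 / (a0 + a1 + a2) - 1 / 3| ≤ tau κ ∧ |a2 / (a0 + a1 + a2) - 1 / 3| ≤ tau κ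

open scoped Classical in
/-- The density of one step. -/
noncomputable def gs (κ a0 a1 a2 a r : ℝ) : ℝ :=
  if Good κ a0 a1 a2 then 1 + (r - 1) * (a0 + a1 + a2) / (3 * a) else 1

theorem gs_good {κ a0 a1 a2 : ℝ} (h : Good κ a0 a1 a2) (a r : ℝ) :
    gs κ a0 a1 a2 a r = 1 + (r - 1) * (a0 + a1 + a2) / (3 * a) := by
  unfold gs
  rw [if_pos h]

theorem gs_bad {κ a0 a1 a2 : ℝ} (h : ¬ Good κ a0 a1 a2) (a r : ℝ) : gs κ a0 a1 a2 a r = 1 := by
  unfold gs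
  rw [if_neg h]

theorem gs_sum_r {κ a0 a1 a2 a r0 r1 r2 : ℝ} (h : r0 + r1 + r2 = 3) :
    gs κ a0 a1 a2 a r0 + gs κ a0 a1 a2 a r1 + gs κ a0 a1 a2 a r2 = 3 := by
  by_cases hg : Good κ a0 a1 a2
  · rw [gs_good hg, gs_good hg, gs_good hg]
    have : (r0 - 1) * (a0 + a1 + a2) / (3 * a) + (r1 - 1) * (a0 + a1 + a2) / (3 * a) +
        (r2 - 1) * (a0 + a1 + a2) / (3 * a) = (r0 + r1 + r2 - 3) * (a0 + a1 + a2) / (3 * a) := by
      ring
    rw [h, sub_self, zero_mul, zero_div] at this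
    linarith
  · rw [gs_bad hg, gs_bad hg, gs_bad hg]
    norm_num

theorem tau_le (κ : ℝ) : tau κ ≤ 1 / 6 := min_le_right _ _
theorem tau_le' (κ : ℝ) : tau κ ≤ κ / 6 := min_le_left _ _
theorem tau_pos {κ : ℝ} (hκ : 0 < κ) : 0 < tau κ := lt_min (by positivity) (by norm_num)

theorem Good.ge {κ a0 a1 a2 : ℝ} (h : Good κ a0 a1 a2) :
    (a0 + a1 + a2) / 6 ≤ a0 ∧ (a0 + a1 + a2) / 6 ≤ a1 ∧ (a0 + a1 + a2) / 6 ≤ a2 := by
  obtain ⟨hA, h0, h1, h2⟩ := h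
  have ht := tau_le κ
  rw [abs_le] at h0 h1 h2
  have key : ∀ a : ℝ, -tau κ ≤ a / (a0 + a1 + a2) - 1 / 3 → (a0 + a1 + a2) / 6 ≤ a := by
    intro a ha
    have : 1 / 6 ≤ a / (a0 + a1 + a2) := by linarith
    rw [le_div_iff₀ hA] at this
    linarith
  exact ⟨key _ h0.1, key _ h1.1, key _ h2.1⟩

theorem gs_pos_aux {κ A a r τ : ℝ} (hκ : 0 < κ) (hA : 0 < A) (hτ : τ ≤ κ / 6) (hτ' : τ ≤ 1 / 6)
    (ha : -τ ≤ a / A - 1 / 3) (hr : κ ≤ r) : 0 < 1 + (r - 1) * A / (3 * a) := by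
  have h1 : (1 / 3 - τ) ≤ a / A := by linarith
  rw [le_div_iff₀ hA] at h1
  have ha0 : 0 < a := by
    have : 0 < (1 / 3 - τ) * A := by
      apply mul_pos _ hA
      linarith
    linarith
  have h2 : 1 + (r - 1) * A / (3 * a) = (3 * a + (r - 1) * A) / (3 * a) := by
    field_simp
  rw [h2]
  apply div_pos _ (by positivity)
  nlinarith

theorem gs_pos {κ a0 a1 a2 a r : ℝ} (hκ : 0 < κ) (ha : a = a0 ∨ a = a1 ∨ a = a2) (hr : κ ≤ r) :
    0 < gs κ a0 a1 a2 a r := by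
  by_cases hg : Good κ a0 a1 a2
  · rw [gs_good hg]
    obtain ⟨hA, h0, h1, h2⟩ := hg
    rw [abs_le] at h0 h1 h2
    rcases ha with rfl | rfl | rfl
    · exact gs_pos_aux hκ hA (tau_le' κ) (tau_le κ) h0.1 hr
    · exact gs_pos_aux hκ hA (tau_le' κ) (tau_le κ) h1.1 hr
    · exact gs_pos_aux hκ hA (tau_le' κ) (tau_le κ) h2.1 hr
  · rw [gs_bad hg]
    norm_num

theorem gs_sum_a {κ a0 a1 a2 r0 r1 r2 : ℝ} (h : r0 + r1 + r2 = 3) :
    a0 * gs κ a0 a1 a2 a0 r0 + a1 * gs κ a0 a1 a2 a1 r1 + a2 * gs κ a0 a1 a2 a2 r2 =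
      a0 + a1 + a2 := by
  by_cases hg : Good κ a0 a1 a2
  · rw [gs_good hg, gs_good hg, gs_good hg]
    obtain ⟨h0, h1, h2⟩ := hg.ge
    have hA := hg.1
    have p0 : 0 < a0 := lt_of_lt_of_le (by positivity) h0
    have p1 : 0 < a1 := lt_of_lt_of_le (by positivity) h1
    have p2 : 0 < a2 := lt_of_lt_of_le (by positivity) h2
    have e : ∀ a r : ℝ, 0 < a → a * (1 + (r - 1) * (a0 + a1 + a2) / (3 * a)) =
        a + (r - 1) * (a0 + a1 + a2) / 3 := by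
      intro a r ha
      field_simp
    rw [e _ _ p0, e _ _ p1, e _ _ p2]
    linear_combination (a0 + a1 + a2) / 3 * h
  · rw [gs_bad hg, gs_bad hg, gs_bad hg]
    ring

/-- pointwise bound -/
theorem energy_point {κ A a r : ℝ} (hκ : 0 < κ) (hA : 0 < A) (ha : A / 6 ≤ a) (hr : κ ≤ r)
    (hr3 : r ≤ 3) (hg : 0 < 1 + (r - 1) * A / (3 * a)) :
    (a - A / 3) * (r - 1) - 24 / κ * (A * (a / A - 1 / 3) ^ 2) ≤
      a * ((1 + (r - 1) * A / (3 * a)) * (log r - log (1 + (r - 1) * A / (3 * a)))) := by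
  have ha0 : 0 < a := lt_of_lt_of_le (by positivity) ha
  have hr0 : 0 < r := lt_of_lt_of_le hκ hr
  set g := 1 + (r - 1) * A / (3 * a) with hgdef
  have h1 : 1 - g / r ≤ log r - log g := by
    have := log_le_sub_one_of_pos (div_pos hg hr0)
    rw [log_div hg.ne' hr0.ne'] at this
    linarith
  have h2 : a * (g * (1 - g / r)) ≤ a * (g * (log r - log g)) := by gcongr
  refine le_trans ?_ h2
  have h3 : a * (g * (1 - g / r)) = (a - A / 3) * (r - 1) -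
      (a - A / 3) ^ 2 * (r - 1) ^ 2 / (a * r) := by
    have hag : a * g = a * r - (a - A / 3) * (r - 1) := by
      rw [hgdef]; field_simp; ring
    have h4 : a * (g * (1 - g / r)) = a * g - (a * g) ^ 2 / (a * r) := by
      field_simp
    rw [h4, hag]
    field_simp
    ring
  rw [h3]
  have h5 : (a - A / 3) ^ 2 * (r - 1) ^ 2 / (a * r) ≤ 24 / κ * (A * (a / A - 1 / 3) ^ 2) := by
    have e1 : A * (a / A - 1 / 3) ^ 2 = (a - A / 3) ^ 2 / A := by field_simp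
    rw [e1]
    have e2 : (r - 1) ^ 2 ≤ 4 := by nlinarith
    have e3 : A * κ ≤ 6 * (a * r) := by
      have : A * κ ≤ (6 * a) * r := mul_le_mul (by linarith) hr hκ.le (by positivity)
      linarith
    have e4 : (a - A / 3) ^ 2 * (r - 1) ^ 2 ≤ (a - A / 3) ^ 2 * 4 :=
      mul_le_mul_of_nonneg_left e2 (sq_nonneg _)
    rw [div_le_iff₀ (by positivity)]
    refine e4.trans ?_
    have e5 : 24 / κ * ((a - A / 3) ^ 2 / A) * (a * r) =
        (a - A / 3) ^ 2 * (4 * (6 * (a * r) / (A * κ))) := by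
      field_simp
      ring
    rw [e5]
    refine mul_le_mul_of_nonneg_left ?_ (sq_nonneg _)
    have : 1 ≤ 6 * (a * r) / (A * κ) := by
      rw [le_div_iff₀ (by positivity)]
      linarith
    linarith
  linarith

theorem q3_eq {a0 a1 a2 : ℝ} (hA : 0 < a0 + a1 + a2) :
    q3 a0 a1 a2 = 3 / 2 * ((a0 + a1 + a2) * ((a0 / (a0 + a1 + a2) - 1 / 3) ^ 2 +
      (a1 / (a0 + a1 + a2) - 1 / 3) ^ 2 + (a2 / (a0 + a1 + a2) - 1 / 3) ^ 2)) := by
  unfold q3
  set A := a0 + a1 + a2 with hAdef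
  field_simp
  have h : a2 = A - a0 - a1 := by rw [hAdef]; ring
  rw [h]
  ring

noncomputable def CC (κ : ℝ) : ℝ := 16 / κ + |log κ| / (3 / 2 * tau κ ^ 2)

theorem CC_nonneg {κ : ℝ} (hκ : 0 < κ) : 0 ≤ CC κ := by
  have := tau_pos hκ
  unfold CC
  positivity

theorem gs_energy {κ a0 a1 a2 r0 r1 r2 : ℝ} (hκ : 0 < κ) (h0 : 0 ≤ a0) (h1 : 0 ≤ a1) (h2 : 0 ≤ a2)
    (hr0 : κ ≤ r0) (hr1 : κ ≤ r1) (hr2 : κ ≤ r2) (h : r0 + r1 + r2 = 3) :
    -(3 * CC κ * q3 a0 a1 a2) ≤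
      a0 * (gs κ a0 a1 a2 a0 r0 * (log r0 - log (gs κ a0 a1 a2 a0 r0)) +
            gs κ a0 a1 a2 a0 r1 * (log r1 - log (gs κ a0 a1 a2 a0 r1)) +
            gs κ a0 a1 a2 a0 r2 * (log r2 - log (gs κ a0 a1 a2 a0 r2))) +
      a1 * (gs κ a0 a1 a2 a1 r0 * (log r0 - log (gs κ a0 a1 a2 a1 r0)) +
            gs κ a0 a1 a2 a1 r1 * (log r1 - log (gs κ a0 a1 a2 a1 r1)) +
            gs κ a0 a1 a2 a1 r2 * (log r2 - log (gs κ a0 a1 a2 a1 r2))) +
      a2 * (gs κ a0 a1 a2 a2 r0 * (log r0 - log (gs κ a0 a1 a2 a2 r0)) +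
            gs κ a0 a1 a2 a2 r1 * (log r1 - log (gs κ a0 a1 a2 a2 r1)) +
            gs κ a0 a1 a2 a2 r2 * (log r2 - log (gs κ a0 a1 a2 a2 r2))) := by
  rcases (by positivity : 0 ≤ a0 + a1 + a2).eq_or_lt with hA | hA
  · have e0 : a0 = 0 := by linarith
    have e1 : a1 = 0 := by linarith
    have e2 : a2 = 0 := by linarith
    rw [e0, e1, e2]
    simp [q3]
  have hq := q3_eq hA
  have ht := tau_pos hκ
  by_cases hg : Good κ a0 a1 a2
  · obtain ⟨g0, g1, g2⟩ := hg.ge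
    have p : ∀ a r : ℝ, (a = a0 ∨ a = a1 ∨ a = a2) → (r = r0 ∨ r = r1 ∨ r = r2) →
        (a - (a0 + a1 + a2) / 3) * (r - 1) -
          24 / κ * ((a0 + a1 + a2) * (a / (a0 + a1 + a2) - 1 / 3) ^ 2) ≤
        a * (gs κ a0 a1 a2 a r * (log r - log (gs κ a0 a1 a2 a r))) := by
      intro a r ha hr
      have hpos := gs_pos (κ := κ) (a0 := a0) (a1 := a1) (a2 := a2) (a := a) (r := r) hκ ha
        (by rcases hr with rfl | rfl | rfl <;> assumption)
      rw [gs_good hg] at hpos ⊢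
      refine energy_point hκ hA ?_ ?_ ?_ hpos
      · rcases ha with rfl | rfl | rfl <;> assumption
      · rcases hr with rfl | rfl | rfl <;> assumption
      · rcases hr with rfl | rfl | rfl <;> linarith
    have q00 := p a0 r0 (Or.inl rfl) (Or.inl rfl)
    have q01 := p a0 r1 (Or.inl rfl) (Or.inr (Or.inl rfl))
    have q02 := p a0 r2 (Or.inl rfl) (Or.inr (Or.inr rfl))
    have q10 := p a1 r0 (Or.inr (Or.inl rfl)) (Or.inl rfl)
    have q11 := p a1 r1 (Or.inr (Or.inl rfl)) (Or.inr (Or.inl rfl))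
    have q12 := p a1 r2 (Or.inr (Or.inl rfl)) (Or.inr (Or.inr rfl))
    have q20 := p a2 r0 (Or.inr (Or.inr rfl)) (Or.inl rfl)
    have q21 := p a2 r1 (Or.inr (Or.inr rfl)) (Or.inr (Or.inl rfl))
    have q22 := p a2 r2 (Or.inr (Or.inr rfl)) (Or.inr (Or.inr rfl))
    have hC : 16 / κ ≤ CC κ := by
      unfold CC
      have : 0 ≤ |log κ| / (3 / 2 * tau κ ^ 2) := by positivity
      linarith
    have hq0 : 0 ≤ q3 a0 a1 a2 := by rw [hq]; positivity
    have h3 := mul_le_mul_of_nonneg_right hC hq0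
    have h4 : 3 * (16 / κ * q3 a0 a1 a2) = 3 * (24 / κ * ((a0 + a1 + a2) *
        (a0 / (a0 + a1 + a2) - 1 / 3) ^ 2) + 24 / κ * ((a0 + a1 + a2) *
        (a1 / (a0 + a1 + a2) - 1 / 3) ^ 2) + 24 / κ * ((a0 + a1 + a2) *
        (a2 / (a0 + a1 + a2) - 1 / 3) ^ 2)) := by
      rw [hq]; ring
    have h5 : ∀ a : ℝ, (a - (a0 + a1 + a2) / 3) * (r0 - 1) + (a - (a0 + a1 + a2) / 3) * (r1 - 1) +
        (a - (a0 + a1 + a2) / 3) * (r2 - 1) = 0 := by
      intro a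
      linear_combination (a - (a0 + a1 + a2) / 3) * h
    have s0 := h5 a0
    have s1 := h5 a1
    have s2 := h5 a2
    linarith
  · simp only [gs_bad hg, log_one, sub_zero, one_mul]
    have hbad : tau κ ^ 2 ≤ (a0 / (a0 + a1 + a2) - 1 / 3) ^ 2 +
      (a1 / (a0 + a1 + a2) - 1 / 3) ^ 2 + (a2 / (a0 + a1 + a2) - 1 / 3) ^ 2 := by
      have key : ∀ y : ℝ, ¬ |y| ≤ tau κ → tau κ ^ 2 ≤ y ^ 2 := by
        intro y hy
        rw [not_le] at hy
        rw [← sq_abs y]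
        exact pow_le_pow_left₀ ht.le hy.le 2
      have hn : ¬ (|a0 / (a0 + a1 + a2) - 1 / 3| ≤ tau κ ∧
        |a1 / (a0 + a1 + a2) - 1 / 3| ≤ tau κ ∧ |a2 / (a0 + a1 + a2) - 1 / 3| ≤ tau κ) :=
        fun h' => hg ⟨hA, h'⟩
      have s0 := sq_nonneg (a0 / (a0 + a1 + a2) - 1 / 3)
      have s1 := sq_nonneg (a1 / (a0 + a1 + a2) - 1 / 3)
      have s2 := sq_nonneg (a2 / (a0 + a1 + a2) - 1 / 3)
      by_cases c0 : |a0 / (a0 + a1 + a2) - 1 / 3| ≤ tau κ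
      · by_cases c1 : |a1 / (a0 + a1 + a2) - 1 / 3| ≤ tau κ
        · by_cases c2 : |a2 / (a0 + a1 + a2) - 1 / 3| ≤ tau κ
          · exact absurd ⟨c0, c1, c2⟩ hn
          · have := key _ c2; linarith
        · have := key _ c1; linarith
      · have := key _ c0; linarith
    have hC : |log κ| / (3 / 2 * tau κ ^ 2) ≤ CC κ := by
      unfold CC
      have : 0 ≤ 16 / κ := by positivity
      linarith
    have hq1 : (a0 + a1 + a2) * (3 / 2 * tau κ ^ 2) ≤ q3 a0 a1 a2 := by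
      rw [hq]
      have := mul_le_mul_of_nonneg_left hbad hA.le
      linarith
    have hlog : ∀ r, κ ≤ r → -|log κ| ≤ log r := by
      intro r hr
      have h3 := log_le_log hκ hr
      have h4 := neg_abs_le (log κ)
      linarith
    have l0 := hlog r0 hr0
    have l1 := hlog r1 hr1
    have l2 := hlog r2 hr2
    have h3 : -(3 * ((a0 + a1 + a2) * |log κ|)) ≤ a0 * (log r0 + log r1 + log r2) +
        a1 * (log r0 + log r1 + log r2) + a2 * (log r0 + log r1 + log r2) := by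
      have : (a0 + a1 + a2) * (-(3 * |log κ|)) ≤ (a0 + a1 + a2) * (log r0 + log r1 + log r2) :=
        mul_le_mul_of_nonneg_left (by linarith) hA.le
      linarith
    refine le_trans ?_ h3
    have h4 : (a0 + a1 + a2) * |log κ| =
        |log κ| / (3 / 2 * tau κ ^ 2) * ((a0 + a1 + a2) * (3 / 2 * tau κ ^ 2)) := by
      field_simp
    have h5 : |log κ| / (3 / 2 * tau κ ^ 2) * ((a0 + a1 + a2) * (3 / 2 * tau κ ^ 2)) ≤
        CC κ * q3 a0 a1 a2 :=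
      mul_le_mul hC hq1 (by positivity) (CC_nonneg hκ)
    linarith

end Pool.Agent.Collatz3.QA
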