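import Mathlib
import Pool.Agent.Collatz3.QBasic
import Pool.Agent.Collatz3.QCell
import Pool.Agent.Collatz3.VConv

set_option autoImplicit false

/-!
The steering coupling (induction on the number of digits).
-/

namespace Pool.Agent.Collatz3.QA

open Finset Real
open Pool.Agent.Collatz3.Mix (q3)

/-- Push-forward from level `m + 1` to level `m`. -/
def push (m : ℕ) (μ : ℕ → ℕ → ℝ) (S v : ℕ) : ℝ :=
  μ S v + μ S (v + 3 ^ (m + 1)) + μ S (v + 2 * 3 ^ (m + 1))

/-- Total non-uniformity. -/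
noncomputable def loss (T : Finset ℕ) : ℕ → (ℕ → ℕ → ℝ) → ℝ
  | 0, _ => 0
  | m + 1, μ => loss T m (push m μ) + ∑ S ∈ T, ∑ v ∈ range (3 ^ (m + 1)),
      q3 (μ S v) (μ S (v + 3 ^ (m + 1))) (μ S (v + 2 * 3 ^ (m + 1)))

theorem sum_three (f : ℕ → ℝ) : ∑ e ∈ range 3, f e = f 0 + f 1 + f 2 := by
  rw [sum_range_succ, sum_range_succ, sum_range_succ, sum_range_zero, zero_add]

theorem sum_split (m : ℕ) (f : ℕ → ℝ) : ∑ v ∈ range (3 ^ (m + 1)), f v =
    ∑ v ∈ range (3 ^ m), (f v + f (v + 3 ^ m) + f (v + 2 * 3 ^ m)) := by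
  rw [pow_succ, sum_range_mul]
  refine sum_congr rfl fun v _ => ?_
  rw [sum_three, mul_zero, add_zero, mul_one, mul_comm (3 ^ m) 2]

theorem three_shift {f : ℤ → ℝ} {r : ℕ} (hf : ∀ z z' : ℤ, (3 : ℤ) ^ (r + 1) ∣ z - z' → f z = f z')
    (y : ℤ) : f (y + 3 ^ r) + f (y + 3 ^ r + 3 ^ r) + f (y + 3 ^ r + 2 * 3 ^ r) =
      f y + f (y + 3 ^ r) + f (y + 2 * 3 ^ r) := by
  have h1 : f (y + 3 ^ r + 2 * 3 ^ r) = f y := hf _ _ ⟨1, by rw [pow_succ]; ring⟩
  have h2 : f (y + 3 ^ r + 3 ^ r) = f (y + 2 * 3 ^ r) := by congr 1; ring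
  rw [h1, h2]
  ring

theorem three_shift2 {f : ℤ → ℝ} {r : ℕ} (hf : ∀ z z' : ℤ, (3 : ℤ) ^ (r + 1) ∣ z - z' → f z = f z')
    (y : ℤ) : f (y + 2 * 3 ^ r) + f (y + 2 * 3 ^ r + 3 ^ r) + f (y + 2 * 3 ^ r + 2 * 3 ^ r) =
      f y + f (y + 3 ^ r) + f (y + 2 * 3 ^ r) := by
  have h1 : f (y + 2 * 3 ^ r + 3 ^ r) = f y := hf _ _ ⟨1, by rw [pow_succ]; ring⟩
  have h2 : f (y + 2 * 3 ^ r + 2 * 3 ^ r) = f (y + 3 ^ r) := hf _ _ ⟨1, by rw [pow_succ]; ring⟩
  rw [h1, h2]
  ring

theorem steer_core {κ : ℝ} (hκ : 0 < κ) (T : Finset ℕ) (ρ : ℕ → ℤ → ℝ)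
    (hper : ∀ s, ∀ z z' : ℤ, (3 : ℤ) ^ (s + 1) ∣ z - z' → ρ s z = ρ s z')
    (hρ : ∀ s, 1 ≤ s → ∀ z : ℤ, ¬ (3 : ℤ) ∣ z → κ ≤ ρ s z ∧
      ρ s z + ρ s (z + 3 ^ s) + ρ s (z + 2 * 3 ^ s) = 3) (m : ℕ) (μ : ℕ → ℕ → ℝ)
    (hμ0 : ∀ S v, 0 ≤ μ S v) (hμ3 : ∀ S v, 3 ∣ v → μ S v = 0) :
    ∃ g : ℕ → ℕ → ℕ → ℝ,
      (∀ j S v, v < 3 ^ (m + 1) → ¬ 3 ∣ v → 0 < g j S v) ∧
      (∀ j < 3 ^ m, ∑ S ∈ T, ∑ v ∈ range (3 ^ (m + 1)), μ S v * g j S v =
        ∑ S ∈ T, ∑ v ∈ range (3 ^ (m + 1)), μ S v) ∧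
      (∀ S v, v < 3 ^ (m + 1) → ¬ 3 ∣ v → ∑ j ∈ range (3 ^ m), g j S v = 3 ^ m) ∧
      (-(CC κ * 3 ^ m * loss T m μ) ≤
        ∑ j ∈ range (3 ^ m), ∑ S ∈ T, ∑ v ∈ range (3 ^ (m + 1)), μ S v * (g j S v *
          ((∑ s ∈ Icc 1 m, log (ρ s (v + 3 * 2 ^ S * j))) - log (g j S v)))) := by
  induction m generalizing μ with
  | zero =>
    refine ⟨fun _ _ _ => 1, fun _ _ _ _ _ => one_pos, ?_, ?_, ?_⟩
    · intro j _
      simp
    · intro S v _ _
      simp
    · simp [loss]
  | succ m ih =>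
    have hp0 : ∀ S v, 0 ≤ push m μ S v := fun S v =>
      add_nonneg (add_nonneg (hμ0 _ _) (hμ0 _ _)) (hμ0 _ _)
    have h3 : ∀ v : ℕ, 3 ∣ v → 3 ∣ v + 3 ^ (m + 1) ∧ 3 ∣ v + 2 * 3 ^ (m + 1) := fun v hv =>
      ⟨dvd_add hv (dvd_pow_self 3 (by omega)),
        dvd_add hv (Dvd.dvd.mul_left (dvd_pow_self 3 (by omega)) 2)⟩
    have h3' : ∀ v : ℕ, ¬ 3 ∣ v → ¬ 3 ∣ v + 3 ^ (m + 1) ∧ ¬ 3 ∣ v + 2 * 3 ^ (m + 1) := fun v hv =>
      ⟨fun h => hv ((Nat.dvd_add_left (dvd_pow_self 3 (by omega))).1 h),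
        fun h => hv ((Nat.dvd_add_left (Dvd.dvd.mul_left (dvd_pow_self 3 (by omega)) 2)).1 h)⟩
    have hp3 : ∀ S v, 3 ∣ v → push m μ S v = 0 := fun S v hv => by
      unfold push
      rw [hμ3 S v hv, hμ3 S _ (h3 v hv).1, hμ3 S _ (h3 v hv).2]
      norm_num
    obtain ⟨g', g1, g2, g3, g4⟩ := ih (push m μ) hp0 hp3
    set b : ℕ := 3 ^ (m + 1) with hb
    have hb0 : 0 < b := by positivity
    -- the step density
    set G : ℕ → ℕ → ℕ → ℝ := fun j S v =>
      gs κ (μ S (v % b)) (μ S (v % b + b)) (μ S (v % b + 2 * b)) (μ S v)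
        (ρ (m + 1) (v + 3 * 2 ^ S * j)) with hG
    have hunit : ∀ (v S j : ℕ), ¬ 3 ∣ v → ¬ (3 : ℤ) ∣ ((v : ℤ) + 3 * 2 ^ S * j) := by
      intro v S j hv h
      apply hv
      have h2 : (3 : ℤ) ∣ 3 * 2 ^ S * j := ⟨2 ^ S * j, by ring⟩
      have h4 : (3 : ℤ) ∣ (v : ℤ) := (dvd_add_left h2).1 h
      exact_mod_cast h4
    -- the three lifts
    have hm0 : ∀ v < b, v % b = v := fun v hv => Nat.mod_eq_of_lt hv
    have hm1 : ∀ v < b, (v + b) % b = v := fun v hv => by
      rw [Nat.add_mod_right]; exact Nat.mod_eq_of_lt hv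
    have hm2 : ∀ v < b, (v + 2 * b) % b = v := fun v hv => by
      rw [Nat.add_mul_mod_self_right]; exact Nat.mod_eq_of_lt hv
    have hcast : (b : ℤ) = 3 ^ (m + 1) := by rw [hb]; push_cast; rfl
    -- values of G on the three lifts
    have hGe : ∀ (e : ℕ), e = 0 ∨ e = 1 ∨ e = 2 → ∀ j S v, v < b → G j S (v + e * b) =
        gs κ (μ S v) (μ S (v + b)) (μ S (v + 2 * b)) (μ S (v + e * b))
          (ρ (m + 1) ((v : ℤ) + 3 * 2 ^ S * j + e * 3 ^ (m + 1))) := by
      intro e he j S v hv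
      have : (v + e * b) % b = v := by
        rw [Nat.add_mul_mod_self_right]; exact Nat.mod_eq_of_lt hv
      simp only [hG, this]
      congr 2
      push_cast
      rw [hcast]
      ring
    -- sum over the top digit of v
    have hsumv : ∀ j S v, v < b → μ S v * G j S v + μ S (v + b) * G j S (v + b) +
        μ S (v + 2 * b) * G j S (v + 2 * b) = push m μ S v := by
      intro j S v hv
      have e0 := hGe 0 (Or.inl rfl) j S v hv
      have e1 := hGe 1 (Or.inr (Or.inl rfl)) j S v hv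
      have e2 := hGe 2 (Or.inr (Or.inr rfl)) j S v hv
      simp only [zero_mul, add_zero, one_mul] at e0 e1 e2
      rw [e0, e1, e2]
      by_cases hv3 : 3 ∣ v
      · have := hp3 S v hv3
        rw [hμ3 S v hv3, hμ3 S _ (h3 v hv3).1, hμ3 S _ (h3 v hv3).2, this]
        ring
      · have hz := hunit v S j hv3
        have hsum := (hρ (m + 1) (by omega) _ hz).2
        push_cast
        simp only [zero_mul, add_zero, one_mul]
        exact gs_sum_a hsum
    -- sum over the top digit of j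
    have hz1 : ∀ (S v j d : ℕ), ((v : ℤ) + 3 * 2 ^ S * ((j + d * 3 ^ m : ℕ) : ℤ)) =
        (v : ℤ) + 3 * 2 ^ S * j + 3 ^ (m + 1) * (d * 2 ^ S) := by
      intro S v j d
      push_cast
      rw [pow_succ]
      ring
    have hsumF : ∀ (F : ℤ → ℝ), (∀ z z' : ℤ, (3 : ℤ) ^ (m + 1 + 1) ∣ z - z' → F z = F z') →
        ∀ S v j : ℕ, F (v + 3 * 2 ^ S * (j : ℕ)) + F (v + 3 * 2 ^ S * ((j + 3 ^ m : ℕ) : ℤ)) +
          F (v + 3 * 2 ^ S * ((j + 2 * 3 ^ m : ℕ) : ℤ)) =
          F ((v : ℤ) + 3 * 2 ^ S * j) + F ((v : ℤ) + 3 * 2 ^ S * j + 3 ^ (m + 1)) +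
            F ((v : ℤ) + 3 * 2 ^ S * j + 2 * 3 ^ (m + 1)) := by
      intro F hF S v j
      have e1 := hz1 S v j 1
      have e2 := hz1 S v j 2
      simp only [one_mul, Nat.cast_one, Nat.cast_ofNat] at e1 e2
      rw [e1, e2]
      exact three_sum hF _ _ (two_pow_not_dvd S)
    have hsumj : ∀ S v j, ¬ 3 ∣ v → G j S v + G (j + 3 ^ m) S v + G (j + 2 * 3 ^ m) S v = 3 := by
      intro S v j hv
      have h5 := hsumF (fun z => gs κ (μ S (v % b)) (μ S (v % b + b)) (μ S (v % b + 2 * b)) (μ S v)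
        (ρ (m + 1) z)) (fun z z' h => by simp only [hper (m + 1) z z' h]) S v j
      exact h5.trans (gs_sum_r (hρ (m + 1) (by omega) _ (hunit v S j hv)).2)
    -- positivity
    have hGpos : ∀ j S v, ¬ 3 ∣ v → v < 3 * b → 0 < G j S v := by
      intro j S v hv hvb
      have hz := hunit v S j hv
      refine gs_pos hκ ?_ (hρ (m + 1) (by omega) _ hz).1
      have hdiv : v / b < 3 := Nat.div_lt_of_lt_mul (by rw [mul_comm]; exact hvb)
      have hv' : v = v % b + v / b * b := by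
        have := Nat.mod_add_div v b
        rw [mul_comm b] at this
        exact this.symm
      generalize v / b = q at hdiv hv'
      rcases (by omega : q = 0 ∨ q = 1 ∨ q = 2) with h | h | h
      · left; rw [h, zero_mul, add_zero] at hv'; rw [← hv']
      · right; left; rw [h, one_mul] at hv'; rw [← hv']
      · right; right; rw [h] at hv'; rw [← hv']
    have hbb : 3 ^ (m + 1 + 1) = 3 * b := by rw [hb, pow_succ]; ring
    refine ⟨fun j S v => g' (j % 3 ^ m) S (v % b) * G j S v, ?_, ?_, ?_, ?_⟩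
    · intro j S v hv hv3
      have hv3' : ¬ 3 ∣ v % b := by
        intro h
        exact hv3 ((Nat.dvd_mod_iff (dvd_pow_self 3 (by omega : m + 1 ≠ 0))).1 h)
      exact mul_pos (g1 _ _ _ (Nat.mod_lt _ hb0) hv3') (hGpos j S v hv3 (by rw [← hbb]; exact hv))
    · intro j hj
      have e1 : ∀ S, ∑ v ∈ range (3 ^ (m + 1 + 1)), μ S v * (g' (j % 3 ^ m) S (v % b) * G j S v) =
          ∑ v ∈ range (3 ^ (m + 1)), push m μ S v * g' (j % 3 ^ m) S v := by
        intro S
        rw [sum_split (m + 1)]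
        refine sum_congr rfl fun v hv => ?_
        rw [mem_range] at hv
        have h5 := hsumv j S v hv
        rw [← hb, hm0 v hv, hm1 v hv, hm2 v hv, ← h5]
        ring
      have e2 : ∀ S, ∑ v ∈ range (3 ^ (m + 1 + 1)), μ S v =
          ∑ v ∈ range (3 ^ (m + 1)), push m μ S v := by
        intro S
        rw [sum_split (m + 1)]
        rfl
      simp only [e1, e2]
      exact g2 _ (Nat.mod_lt _ (by positivity))
    · intro S v hv hv3
      rw [sum_split m]
      have hv3' : ¬ 3 ∣ v % b := by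
        intro h
        exact hv3 ((Nat.dvd_mod_iff (dvd_pow_self 3 (by omega : m + 1 ≠ 0))).1 h)
      have e1 : ∀ j ∈ range (3 ^ m), (g' (j % 3 ^ m) S (v % b) * G j S v +
          g' ((j + 3 ^ m) % 3 ^ m) S (v % b) * G (j + 3 ^ m) S v +
          g' ((j + 2 * 3 ^ m) % 3 ^ m) S (v % b) * G (j + 2 * 3 ^ m) S v) =
          3 * g' j S (v % b) := by
        intro j hj
        rw [mem_range] at hj
        have h5 := hsumj S v j hv3
        rw [Nat.add_mod_right, Nat.add_mul_mod_self_right, Nat.mod_eq_of_lt hj]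
        linear_combination g' j S (v % b) * h5
      rw [sum_congr rfl e1, ← mul_sum, g3 S (v % b) (Nat.mod_lt _ hb0) hv3', pow_succ]
      ring
    · -- the energy
      set X : ℕ → ℕ → ℕ → ℝ := fun j S v =>
        (∑ s ∈ Icc 1 m, log (ρ s ((v : ℤ) + 3 * 2 ^ S * j))) - log (g' j S v) with hX
      set t : ℕ → ℕ → ℕ → ℝ := fun j S v => μ S v * (g' (j % 3 ^ m) S (v % b) * G j S v *
        ((∑ s ∈ Icc 1 (m + 1), log (ρ s ((v : ℤ) + 3 * 2 ^ S * j))) -
          log (g' (j % 3 ^ m) S (v % b) * G j S v))) with ht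
      have hterm : ∀ j < 3 ^ m, ∀ S, ∀ v < b, ¬ 3 ∣ v → ∀ e d : ℕ, (e = 0 ∨ e = 1 ∨ e = 2) →
          t (j + d * 3 ^ m) S (v + e * b) = g' j S v * (μ S (v + e * b) *
            (G (j + d * 3 ^ m) S (v + e * b) * X j S v) + μ S (v + e * b) *
            (G (j + d * 3 ^ m) S (v + e * b) *
              (log (ρ (m + 1) (((v + e * b : ℕ) : ℤ) + 3 * 2 ^ S * ((j + d * 3 ^ m : ℕ) : ℤ))) -
                log (G (j + d * 3 ^ m) S (v + e * b))))) := by
        intro j hj S v hv hv3 e d he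
        have hve3 : ¬ 3 ∣ v + e * b := by
          intro h
          exact hv3 ((Nat.dvd_add_left (Dvd.dvd.mul_left (dvd_pow_self 3 (by omega)) e)).1 h)
        have h1 : (j + d * 3 ^ m) % 3 ^ m = j := by
          rw [Nat.add_mul_mod_self_right]; exact Nat.mod_eq_of_lt hj
        have h2 : (v + e * b) % b = v := by
          rw [Nat.add_mul_mod_self_right]; exact Nat.mod_eq_of_lt hv
        have hG0 : 0 < G (j + d * 3 ^ m) S (v + e * b) := by
          refine hGpos _ _ _ hve3 ?_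
          rcases he with rfl | rfl | rfl <;> omega
        have hg0 := g1 j S v hv hv3
        have h5 : ∑ s ∈ Icc 1 (m + 1), log (ρ s (((v + e * b : ℕ) : ℤ) +
            3 * 2 ^ S * ((j + d * 3 ^ m : ℕ) : ℤ))) =
            ∑ s ∈ Icc 1 m, log (ρ s ((v : ℤ) + 3 * 2 ^ S * j)) +
            log (ρ (m + 1) (((v + e * b : ℕ) : ℤ) + 3 * 2 ^ S * ((j + d * 3 ^ m : ℕ) : ℤ))) := by
          rw [sum_Icc_succ_top (by omega : 1 ≤ m + 1)]
          congr 1
          refine sum_congr rfl fun s hs => ?_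
          rw [mem_Icc] at hs
          congr 1
          apply hper s
          refine dvd_trans (pow_dvd_pow 3 (by omega : s + 1 ≤ m + 1)) ?_
          refine ⟨e + d * 2 ^ S, ?_⟩
          push_cast
          rw [hcast, pow_succ]
          ring
        simp only [ht, hX, h1, h2]
        rw [h5, log_mul hg0.ne' hG0.ne']
        ring
      have hcell : ∀ j < 3 ^ m, ∀ S, ∀ v < b,
          3 * (push m μ S v * (g' j S v * X j S v)) -
            3 * CC κ * (q3 (μ S v) (μ S (v + b)) (μ S (v + 2 * b)) * g' j S v) ≤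
          (t j S v + t j S (v + b) + t j S (v + 2 * b)) +
          (t (j + 3 ^ m) S v + t (j + 3 ^ m) S (v + b) + t (j + 3 ^ m) S (v + 2 * b)) +
          (t (j + 2 * 3 ^ m) S v + t (j + 2 * 3 ^ m) S (v + b) +
            t (j + 2 * 3 ^ m) S (v + 2 * b)) := by
        intro j hj S v hv
        by_cases hv3 : 3 ∣ v
        · have e0 := hμ3 S v hv3
          have e1 : μ S (v + b) = 0 := hμ3 S _ (h3 v hv3).1
          have e2 : μ S (v + 2 * b) = 0 := hμ3 S _ (h3 v hv3).2
          rw [hp3 S v hv3, e0, e1, e2]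
          simp only [ht, e0, e1, e2, Pool.Agent.Collatz3.Mix.q3_zero, zero_mul, mul_zero, sub_zero,
            add_zero, le_refl]
        · have hg0 := g1 j S v hv hv3
          have T := fun e d he => hterm j hj S v hv hv3 e d he
          have t00 := T 0 0 (Or.inl rfl)
          have t01 := T 0 1 (Or.inl rfl)
          have t02 := T 0 2 (Or.inl rfl)
          have t10 := T 1 0 (Or.inr (Or.inl rfl))
          have t11 := T 1 1 (Or.inr (Or.inl rfl))
          have t12 := T 1 2 (Or.inr (Or.inl rfl))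
          have t20 := T 2 0 (Or.inr (Or.inr rfl))
          have t21 := T 2 1 (Or.inr (Or.inr rfl))
          have t22 := T 2 2 (Or.inr (Or.inr rfl))
          simp only [zero_mul, one_mul, add_zero] at t00 t01 t02 t10 t11 t12 t20 t21 t22
          rw [t00, t01, t02, t10, t11, t12, t20, t21, t22]
          -- sums of G over d
          have s0 := hsumj S v j hv3
          have s1 := hsumj S (v + b) j (h3' v hv3).1
          have s2 := hsumj S (v + 2 * b) j (h3' v hv3).2
          -- sums of the energies over d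
          set y : ℤ := (v : ℤ) + 3 * 2 ^ S * j with hy
          set H : ℝ → ℤ → ℝ := fun a z =>
            gs κ (μ S v) (μ S (v + b)) (μ S (v + 2 * b)) a (ρ (m + 1) z) *
              (log (ρ (m + 1) z) - log (gs κ (μ S v) (μ S (v + b)) (μ S (v + 2 * b)) a
                (ρ (m + 1) z))) with hH
          have hHper : ∀ a, ∀ z z' : ℤ, (3 : ℤ) ^ (m + 1 + 1) ∣ z - z' → H a z = H a z' := by
            intro a z z' h
            simp only [hH, hper (m + 1) z z' h]
          have hen : ∀ e : ℕ, (e = 0 ∨ e = 1 ∨ e = 2) →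
              (G j S (v + e * b) * (log (ρ (m + 1) (((v + e * b : ℕ) : ℤ) + 3 * 2 ^ S * (j : ℤ))) -
                log (G j S (v + e * b)))) +
              (G (j + 3 ^ m) S (v + e * b) * (log (ρ (m + 1) (((v + e * b : ℕ) : ℤ) +
                3 * 2 ^ S * ((j + 3 ^ m : ℕ) : ℤ))) - log (G (j + 3 ^ m) S (v + e * b)))) +
              (G (j + 2 * 3 ^ m) S (v + e * b) * (log (ρ (m + 1) (((v + e * b : ℕ) : ℤ) +
                3 * 2 ^ S * ((j + 2 * 3 ^ m : ℕ) : ℤ))) - log (G (j + 2 * 3 ^ m) S (v + e * b)))) =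
              H (μ S (v + e * b)) y + H (μ S (v + e * b)) (y + 3 ^ (m + 1)) +
                H (μ S (v + e * b)) (y + 2 * 3 ^ (m + 1)) := by
            intro e he
            have hmod : (v + e * b) % b = v := by
              rw [Nat.add_mul_mod_self_right]; exact Nat.mod_eq_of_lt hv
            have hGH : ∀ j' : ℕ, G j' S (v + e * b) = gs κ (μ S v) (μ S (v + b)) (μ S (v + 2 * b))
                (μ S (v + e * b)) (ρ (m + 1) (((v + e * b : ℕ) : ℤ) + 3 * 2 ^ S * (j' : ℤ))) := by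
              intro j'
              simp only [hG, hmod]
            rw [hGH, hGH, hGH]
            have h6 := hsumF (H (μ S (v + e * b))) (hHper _) S (v + e * b) j
            refine h6.trans ?_
            have hye : (((v + e * b : ℕ) : ℤ) + 3 * 2 ^ S * (j : ℤ)) = y + e * 3 ^ (m + 1) := by
              rw [hy]
              push_cast
              rw [hcast]
              ring
            rw [hye]
            rcases he with rfl | rfl | rfl
            · simp only [Nat.cast_zero, zero_mul, add_zero]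
            · simp only [Nat.cast_one, one_mul]
              exact three_shift (hHper _) y
            · simp only [Nat.cast_ofNat]
              exact three_shift2 (hHper _) y
          have u0 := hen 0 (Or.inl rfl)
          have u1 := hen 1 (Or.inr (Or.inl rfl))
          have u2 := hen 2 (Or.inr (Or.inr rfl))
          simp only [zero_mul, one_mul, add_zero] at u0 u1 u2
          have hyu := hunit v S j hv3
          have hρy := hρ (m + 1) (by omega) y hyu
          have hρ1 := hρ (m + 1) (by omega) (y + 3 ^ (m + 1)) (by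
            intro h
            exact hyu ((dvd_add_left (dvd_pow_self 3 (by omega))).1 h))
          have hρ2 := hρ (m + 1) (by omega) (y + 2 * 3 ^ (m + 1)) (by
            intro h
            exact hyu ((dvd_add_left (Dvd.dvd.mul_left (dvd_pow_self 3 (by omega)) 2)).1 h))
          have hE := gs_energy hκ (hμ0 S v) (hμ0 S (v + b)) (hμ0 S (v + 2 * b)) hρy.1 hρ1.1 hρ2.1
            hρy.2
          have hE' : -(3 * CC κ * q3 (μ S v) (μ S (v + b)) (μ S (v + 2 * b))) ≤
              μ S v * (H (μ S v) y + H (μ S v) (y + 3 ^ (m + 1)) + H (μ S v) (y + 2 * 3 ^ (m + 1))) +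
              μ S (v + b) * (H (μ S (v + b)) y + H (μ S (v + b)) (y + 3 ^ (m + 1)) +
                H (μ S (v + b)) (y + 2 * 3 ^ (m + 1))) +
              μ S (v + 2 * b) * (H (μ S (v + 2 * b)) y + H (μ S (v + 2 * b)) (y + 3 ^ (m + 1)) +
                H (μ S (v + 2 * b)) (y + 2 * 3 ^ (m + 1))) := hE
          rw [← u0, ← u1, ← u2] at hE'
          have hE2 := mul_le_mul_of_nonneg_left hE' hg0.le
          have hpush : push m μ S v = μ S v + μ S (v + b) + μ S (v + 2 * b) := rfl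
          rw [hpush]
          have w0 : g' j S v * (μ S v * X j S v) * (G j S v + G (j + 3 ^ m) S v +
            G (j + 2 * 3 ^ m) S v) = g' j S v * (μ S v * X j S v) * 3 := by rw [s0]
          have w1 : g' j S v * (μ S (v + b) * X j S v) * (G j S (v + b) + G (j + 3 ^ m) S (v + b) +
            G (j + 2 * 3 ^ m) S (v + b)) = g' j S v * (μ S (v + b) * X j S v) * 3 := by rw [s1]
          have w2 : g' j S v * (μ S (v + 2 * b) * X j S v) * (G j S (v + 2 * b) +
            G (j + 3 ^ m) S (v + 2 * b) + G (j + 2 * 3 ^ m) S (v + 2 * b)) =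
            g' j S v * (μ S (v + 2 * b) * X j S v) * 3 := by rw [s2]
          linarith
      have hsplit : ∑ j ∈ range (3 ^ (m + 1)), ∑ S ∈ T, ∑ v ∈ range (3 ^ (m + 1 + 1)), t j S v =
          ∑ j ∈ range (3 ^ m), ∑ S ∈ T, ∑ v ∈ range (3 ^ (m + 1)),
          ((t j S v + t j S (v + b) + t j S (v + 2 * b)) +
          (t (j + 3 ^ m) S v + t (j + 3 ^ m) S (v + b) + t (j + 3 ^ m) S (v + 2 * b)) +
          (t (j + 2 * 3 ^ m) S v + t (j + 2 * 3 ^ m) S (v + b) +
            t (j + 2 * 3 ^ m) S (v + 2 * b))) := by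
        rw [sum_split m]
        refine sum_congr rfl fun j _ => ?_
        rw [← sum_add_distrib, ← sum_add_distrib]
        refine sum_congr rfl fun S _ => ?_
        rw [sum_split (m + 1), sum_split (m + 1), sum_split (m + 1), ← sum_add_distrib,
          ← sum_add_distrib]
      show -(CC κ * 3 ^ (m + 1) * loss T (m + 1) μ) ≤
        ∑ j ∈ range (3 ^ (m + 1)), ∑ S ∈ T, ∑ v ∈ range (3 ^ (m + 1 + 1)), t j S v
      rw [hsplit]
      have hlow : ∑ j ∈ range (3 ^ m), ∑ S ∈ T, ∑ v ∈ range (3 ^ (m + 1)),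
          (3 * (push m μ S v * (g' j S v * X j S v)) -
            3 * CC κ * (q3 (μ S v) (μ S (v + b)) (μ S (v + 2 * b)) * g' j S v)) ≤ _ :=
        sum_le_sum fun j hj => sum_le_sum fun S _ => sum_le_sum fun v hv =>
          hcell j (mem_range.1 hj) S v (mem_range.1 hv)
      refine le_trans ?_ hlow
      have e1 : ∑ j ∈ range (3 ^ m), ∑ S ∈ T, ∑ v ∈ range (3 ^ (m + 1)),
          (3 * (push m μ S v * (g' j S v * X j S v)) -
            3 * CC κ * (q3 (μ S v) (μ S (v + b)) (μ S (v + 2 * b)) * g' j S v)) =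
          3 * (∑ j ∈ range (3 ^ m), ∑ S ∈ T, ∑ v ∈ range (3 ^ (m + 1)),
            push m μ S v * (g' j S v * X j S v)) -
          3 * CC κ * (∑ S ∈ T, ∑ v ∈ range (3 ^ (m + 1)),
            q3 (μ S v) (μ S (v + b)) (μ S (v + 2 * b)) * ∑ j ∈ range (3 ^ m), g' j S v) := by
        have e2 : ∑ S ∈ T, ∑ v ∈ range (3 ^ (m + 1)),
            q3 (μ S v) (μ S (v + b)) (μ S (v + 2 * b)) * ∑ j ∈ range (3 ^ m), g' j S v =
            ∑ j ∈ range (3 ^ m), ∑ S ∈ T, ∑ v ∈ range (3 ^ (m + 1)),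
              q3 (μ S v) (μ S (v + b)) (μ S (v + 2 * b)) * g' j S v := by
          rw [sum_comm (s := range (3 ^ m))]
          refine sum_congr rfl fun S _ => ?_
          rw [sum_comm (s := range (3 ^ m))]
          refine sum_congr rfl fun v _ => ?_
          rw [mul_sum]
        rw [e2]
        simp only [sum_sub_distrib, mul_sum]
      rw [e1]
      have e3 : ∑ S ∈ T, ∑ v ∈ range (3 ^ (m + 1)),
            q3 (μ S v) (μ S (v + b)) (μ S (v + 2 * b)) * ∑ j ∈ range (3 ^ m), g' j S v =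
          3 ^ m * ∑ S ∈ T, ∑ v ∈ range (3 ^ (m + 1)),
            q3 (μ S v) (μ S (v + b)) (μ S (v + 2 * b)) := by
        rw [mul_sum]
        refine sum_congr rfl fun S _ => ?_
        rw [mul_sum]
        refine sum_congr rfl fun v hv => ?_
        rw [mem_range] at hv
        by_cases hv3 : 3 ∣ v
        · have e0 := hμ3 S v hv3
          have e1 : μ S (v + b) = 0 := hμ3 S _ (h3 v hv3).1
          have e2 : μ S (v + 2 * b) = 0 := hμ3 S _ (h3 v hv3).2
          rw [e0, e1, e2, Pool.Agent.Collatz3.Mix.q3_zero]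
          ring
        · rw [g3 S v hv hv3]
          ring
      rw [e3]
      have e4 : ∑ j ∈ range (3 ^ m), ∑ S ∈ T, ∑ v ∈ range (3 ^ (m + 1)),
            push m μ S v * (g' j S v * X j S v) =
          ∑ j ∈ range (3 ^ m), ∑ S ∈ T, ∑ v ∈ range (3 ^ (m + 1)), push m μ S v * (g' j S v *
          ((∑ s ∈ Icc 1 m, log (ρ s (v + 3 * 2 ^ S * j))) - log (g' j S v))) := rfl
      rw [e4]
      have e5 : loss T (m + 1) μ = loss T m (push m μ) + ∑ S ∈ T, ∑ v ∈ range (3 ^ (m + 1)),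
            q3 (μ S v) (μ S (v + b)) (μ S (v + 2 * b)) := rfl
      rw [e5, pow_succ]
      linarith

end Pool.Agent.Collatz3.QA
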