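import Mathlib
import Pool.Agent.Collatz3.QBasic

set_option autoImplicit false

/-!
Gibbs kernels, the Gibbs variational inequality, chains of Gibbs blocks, superadditivity.
-/

namespace Pool.Agent.Collatz3.QA

open Finset Real
open Pool.Agent.Collatz3.Mix (words Vf mem_words sum_words_zero sum_words_succ sum_words_add)

variable (P : Law)

/-- The Gibbs kernel. -/
noncomputable def gk (n : ℕ) : Ker P.I where
  n := n
  k x w := if w ∈ words P.I n ∧ Rd x w then 3 ^ n * wt P w * M P 0 (ep x w) / M P n x else 0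
  nonneg x w := by
    by_cases h : w ∈ words P.I n ∧ Rd x w
    · rw [if_pos h]
      exact div_nonneg (mul_nonneg (mul_nonneg (by positivity) (wt_pos P h.1).le) (M_nonneg P 0 _))
        (M_nonneg P n x)
    · rw [if_neg h]
  supp x w h := by
    by_contra h1
    rw [if_neg h1] at h
    exact h rfl
  sum_one x hx := by
    have h1 := M_pos P n hx
    have h2 : ∀ w ∈ words P.I n, (if w ∈ words P.I n ∧ Rd x w then
        3 ^ n * wt P w * M P 0 (ep x w) / M P n x else 0) =
        (if Rd x w then 3 ^ n * wt P w * M P 0 (ep x w) else 0) / M P n x := by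
      intro w hw
      by_cases h : Rd x w
      · rw [if_pos ⟨hw, h⟩, if_pos h]
      · rw [if_neg (fun h' => h h'.2), if_neg h, zero_div]
    rw [sum_congr rfl h2, ← sum_div, ← M_eq_sum]
    exact div_self h1.ne'
  per x x' w h := by
    by_cases hw : w ∈ words P.I n
    · have hl := (mem_words.1 hw).1
      have h1 : Rd x w ↔ Rd x' w := Rd_iff_of_dvd (by rw [hl]; exact h)
      by_cases h2 : Rd x w
      · rw [if_pos ⟨hw, h2⟩, if_pos ⟨hw, h1.1 h2⟩, M_per P n h,
          M_per P 0 (h2.ep_congr (x' := x') (r := 0) (by rw [hl]; exact h))]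
      · rw [if_neg (fun h' => h2 h'.2), if_neg (fun h' => h2 (h1.2 h'.2))]
    · rw [if_neg (fun h' => hw h'.1), if_neg (fun h' => hw h'.1)]

theorem gk_n (n : ℕ) : (gk P n).n = n := rfl

theorem gk_k (n : ℕ) (x : ℤ) (w : List ℕ) : (gk P n).k x w =
    if w ∈ words P.I n ∧ Rd x w then 3 ^ n * wt P w * M P 0 (ep x w) / M P n x else 0 := rfl

theorem gk_of_rd {n : ℕ} {x : ℤ} {w : List ℕ} (hw : w ∈ words P.I n) (h : Rd x w) :
    (gk P n).k x w = 3 ^ n * wt P w * M P 0 (ep x w) / M P n x := by
  rw [gk_k, if_pos ⟨hw, h⟩]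

/-- Chains of Gibbs blocks. -/
noncomputable def ck : List ℕ → Ker P.I
  | [] => triv P.I
  | l :: L => comp (gk P l) (ck L)

theorem ck_n (L : List ℕ) : (ck P L).n = L.sum := by
  induction L with
  | nil => rfl
  | cons l L ih =>
    show l + (ck P L).n = _
    rw [ih, List.sum_cons]

/-- The Gibbs variational inequality. -/
theorem log_sum_ge {ι : Type*} (s : Finset ι) (q a : ι → ℝ) (hq : ∀ i ∈ s, 0 ≤ q i)
    (hs : ∑ i ∈ s, q i = 1) (ha : ∀ i ∈ s, 0 ≤ a i) (ha' : ∀ i ∈ s, q i ≠ 0 → 0 < a i) :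
    ∑ i ∈ s, q i * log (a i / q i) ≤ log (∑ i ∈ s, a i) := by
  have hA : 0 < ∑ i ∈ s, a i := by
    obtain ⟨i, hi, h0⟩ : ∃ i ∈ s, q i ≠ 0 := by
      by_contra h
      push Not at h
      rw [sum_eq_zero h] at hs
      norm_num at hs
    exact sum_pos' ha ⟨i, hi, ha' i hi h0⟩
  set A := ∑ i ∈ s, a i with hAdef
  have h1 : ∀ i ∈ s, q i * log (a i / q i) ≤ q i * log A + (a i / A - q i) := by
    intro i hi
    by_cases h0 : q i = 0
    · rw [h0]
      simp only [zero_mul, sub_zero, zero_add]
      exact div_nonneg (ha i hi) hA.le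
    · have hq0 : 0 < q i := lt_of_le_of_ne (hq i hi) (Ne.symm h0)
      have ha0 := ha' i hi h0
      have h2 := log_le_sub_one_of_pos (show 0 < a i / q i / A by positivity)
      rw [log_div (by positivity) hA.ne'] at h2
      have h3 := mul_le_mul_of_nonneg_left h2 hq0.le
      have h4 : q i * (a i / q i / A - 1) = a i / A - q i := by field_simp
      rw [h4] at h3
      linarith
  have h2 := sum_le_sum h1
  rw [sum_add_distrib, ← sum_mul, sum_sub_distrib, ← sum_div, hs, ← hAdef, div_self hA.ne'] at h2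
  linarith

/-- The energy of a kernel. -/
noncomputable def En (K : Ker P.I) (x : ℤ) : ℝ :=
  ∑ w ∈ words P.I K.n, K.k x w * log (3 ^ K.n * wt P w / K.k x w)

theorem En_per (K : Ker P.I) {x x' : ℤ} (h : (3 : ℤ) ^ (K.n + 1) ∣ x - x') :
    En P K x = En P K x' := by
  unfold En
  exact sum_congr rfl fun w _ => by rw [K.per x x' w h]

theorem sum_k_mul_const {I : ℕ} (K : Ker I) {x : ℤ} (hx : ¬ (3 : ℤ) ∣ x) (r : ℝ) :
    ∑ w ∈ words I K.n, K.k x w * r = r := by
  rw [← sum_mul, K.sum_one x hx, one_mul]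

theorem En_comp (K K' : Ker P.I) {x : ℤ} :
    En P (comp K K') x = En P K x + ∑ v ∈ words P.I K.n, K.k x v * En P K' (ep x v) := by
  have h0 := sum_comp K K' x (fun w => log (3 ^ (K.n + K'.n) * wt P w / (comp K K').k x w))
  have h1 : En P (comp K K') x = ∑ v ∈ words P.I K.n, K.k x v * ∑ w ∈ words P.I K'.n,
      K'.k (ep x v) w * log (3 ^ (K.n + K'.n) * wt P (v ++ w) / (comp K K').k x (v ++ w)) := h0
  rw [h1, En, ← sum_add_distrib]
  refine sum_congr rfl fun v hv => ?_
  by_cases hk : K.k x v = 0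
  · rw [hk]; ring
  have hkp : 0 < K.k x v := lt_of_le_of_ne (K.nonneg x v) (Ne.symm hk)
  have hu := (K.supp x v hk).2.end_unit
  have hl := (mem_words.1 hv).1
  rw [← mul_add]
  congr 1
  rw [← sum_k_mul_const K' hu (log (3 ^ K.n * wt P v / K.k x v)), En, ← sum_add_distrib]
  refine sum_congr rfl fun w hw => ?_
  by_cases hk' : K'.k (ep x v) w = 0
  · rw [hk']; ring
  have hkp' : 0 < K'.k (ep x v) w := lt_of_le_of_ne (K'.nonneg _ w) (Ne.symm hk')
  rw [← mul_add]
  congr 1
  have h1 := wt_pos P hv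
  have h2 := wt_pos P hw
  rw [comp_k_append K K' x hl, wt_append, ← log_mul (by positivity) (by positivity)]
  congr 1
  rw [pow_add]
  field_simp

theorem En_gk (n : ℕ) {x : ℤ} (hx : ¬ (3 : ℤ) ∣ x) : log (M P n x) - log 2 ≤ En P (gk P n) x := by
  have h1 : En P (gk P n) x =
      ∑ w ∈ words P.I n, (gk P n).k x w * (log (M P n x) - log (M P 0 (ep x w))) := by
    unfold En
    refine sum_congr rfl fun w hw => ?_
    by_cases h : Rd x w
    · rw [gk_of_rd P hw h]
      have h2 := M_pos P 0 h.end_unit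
      have h3 := M_pos P n hx
      have h4 := wt_pos P hw
      rw [← log_div h3.ne' h2.ne']
      congr 2
      rw [gk_n]
      field_simp
    · have : (gk P n).k x w = 0 := by
        rw [gk_k, if_neg (fun h' => h h'.2)]
      rw [this]; ring
  rw [h1, ← sum_k_mul_const (gk P n) hx (log (M P n x) - log 2)]
  refine sum_le_sum fun w _ => ?_
  by_cases h : (gk P n).k x w = 0
  · rw [h]; simp
  · refine mul_le_mul_of_nonneg_left ?_ ((gk P n).nonneg x w)
    have h2 := M_pos P 0 ((gk P n).supp x w h).2.end_unit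
    have := log_le_log h2 (M_zero_le P (ep x w))
    linarith

/-- The mean over the class of an expectation of a function of the end point. -/
theorem av_comp {I : ℕ} (K : Ker I) {N : ℕ} {g : ℤ → ℝ}
    (hg : ∀ z z' : ℤ, (3 : ℤ) ^ (N + 1) ∣ z - z' → g z = g z') (c : ℤ) :
    av (K.n + N) c (fun x => ∑ v ∈ words I K.n, K.k x v * g (ep x v)) =
      av K.n c (fun x => ∑ v ∈ words I K.n, K.k x v * av N (ep x v) g) := by
  rw [av_split]
  congr 1
  funext x
  rw [sum_comm, sum_div]
  refine sum_congr rfl fun v hv => ?_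
  have hl := (mem_words.1 hv).1
  by_cases h0 : K.k x v = 0
  · rw [h0, zero_mul]
    rw [sum_eq_zero, zero_div]
    intro j _
    rw [K.per _ x v ⟨j, by ring⟩, h0, zero_mul]
  · have hr := (K.supp x v h0).2
    rw [← av_end hg hr, mul_div_assoc', mul_sum, hl]
    congr 1
    refine sum_congr rfl fun j _ => ?_
    rw [K.per _ x v ⟨j, by ring⟩]

/-- Periodic functions do not see the extra digits. -/
theorem av_per {N N' : ℕ} {g : ℤ → ℝ} (hg : ∀ z z' : ℤ, (3 : ℤ) ^ (N + 1) ∣ z - z' → g z = g z')
    (c : ℤ) : av (N + N') c g = av N c g := by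
  rw [av_split]
  congr 1
  funext x
  have : ∀ j ∈ range (3 ^ N'), g (x + 3 ^ (N + 1) * j) = g x := fun j _ => hg _ _ ⟨j, by ring⟩
  rw [sum_congr rfl this, sum_const, card_range, nsmul_eq_mul]
  push_cast
  field_simp

theorem av_log_M_ge (m : ℕ) {b : ℤ} (hb : ¬ (3 : ℤ) ∣ b) :
    Lm P m ≤ av m b (fun x => log (M P m x)) :=
  av_end_ge (fun z z' h => by rw [M_per P m h]) hb

/-- The energy of a chain of Gibbs blocks. -/
theorem En_ck (L : List ℕ) {c : ℤ} (hc : c = 1 ∨ c = 2) :
    (L.map (Lm P)).sum - L.length * log 2 ≤ av L.sum c (fun x => En P (ck P L) x) := by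
  induction L generalizing c with
  | nil =>
    have : ∀ x : ℤ, x % 3 = c % 3 → (0 : ℝ) = En P (ck P []) x := by
      intro x hx
      have hu := not_dvd_of_mod hc hx
      show (0 : ℝ) = ∑ w ∈ words P.I 0, (triv P.I).k x w * log (3 ^ 0 * wt P w / (triv P.I).k x w)
      rw [sum_words_zero]
      simp [triv, hu, wt_nil]
    rw [← av_congr this, av_const]
    simp
  | cons l L ih =>
    have e1 : (fun x => En P (ck P (l :: L)) x) = fun x => En P (gk P l) x +
        ∑ v ∈ words P.I (gk P l).n, (gk P l).k x v * En P (ck P L) (ep x v) := by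
      funext x
      exact En_comp P (gk P l) (ck P L)
    rw [e1, av_add, List.sum_cons]
    have e2 : av (l + L.sum) c (fun x => En P (gk P l) x) = av l c (fun x => En P (gk P l) x) :=
      av_per (fun z z' h => En_per P (gk P l) h) c
    have hper : ∀ z z' : ℤ, (3 : ℤ) ^ (L.sum + 1) ∣ z - z' → En P (ck P L) z = En P (ck P L) z' :=
      fun z z' h => En_per P (ck P L) (by rw [ck_n]; exact h)
    have e3 : av (l + L.sum) c (fun x => ∑ v ∈ words P.I (gk P l).n, (gk P l).k x v *
        En P (ck P L) (ep x v)) = _ := av_comp (gk P l) hper c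
    rw [e2, e3]
    have h1 : LL P c l - log 2 ≤ av l c (fun x => En P (gk P l) x) := by
      rw [LL, ← av_const l c (log 2), ← av_sub]
      exact av_mono fun x hx => En_gk P l (not_dvd_of_mod hc hx)
    have h2 : Lm P l ≤ LL P c l := by
      unfold Lm
      rcases hc with rfl | rfl
      · exact min_le_left _ _
      · exact min_le_right _ _
    have h3 : (L.map (Lm P)).sum - L.length * log 2 ≤ av (gk P l).n c (fun x =>
        ∑ v ∈ words P.I (gk P l).n, (gk P l).k x v * av L.sum (ep x v) (fun x => En P (ck P L) x)) := by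
      rw [← av_const (gk P l).n c ((L.map (Lm P)).sum - L.length * log 2)]
      refine av_mono fun x hx => ?_
      rw [← sum_k_mul_const (gk P l) (not_dvd_of_mod hc hx)
        ((L.map (Lm P)).sum - L.length * log 2)]
      refine sum_le_sum fun v _ => ?_
      by_cases h : (gk P l).k x v = 0
      · rw [h]; simp
      · refine mul_le_mul_of_nonneg_left ?_ ((gk P l).nonneg x v)
        have hu := ((gk P l).supp x v h).2.end_unit
        exact le_trans (le_min (ih (Or.inl rfl)) (ih (Or.inr rfl))) (av_end_ge hper hu)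
    rw [List.map_cons, List.sum_cons, List.length_cons]
    push_cast
    linarith

/-- Superadditivity. -/
theorem LL_add (n m : ℕ) {c : ℤ} (hc : c = 1 ∨ c = 2) :
    LL P c n + Lm P m - log 2 ≤ LL P c (n + m) := by
  set g : ℤ → ℝ := fun z => log (M P m z) with hg
  have hper : ∀ z z' : ℤ, (3 : ℤ) ^ (m + 1) ∣ z - z' → g z = g z' :=
    fun z z' h => by rw [hg]; simp only [M_per P m h]
  have key : ∀ x : ℤ, x % 3 = c % 3 → log (M P n x) - log 2 +
      ∑ v ∈ words P.I (gk P n).n, (gk P n).k x v * g (ep x v) ≤ log (M P (n + m) x) := by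
    intro x hx
    have hu := not_dvd_of_mod hc hx
    have h1 := log_sum_ge (words P.I n) ((gk P n).k x)
      (fun w => if Rd x w then 3 ^ n * wt P w * M P m (ep x w) else 0)
      (fun w _ => (gk P n).nonneg x w) ((gk P n).sum_one x hu)
      (fun w hw => by
        by_cases h : Rd x w
        · rw [if_pos h]
          exact mul_nonneg (mul_nonneg (by positivity) (wt_pos P hw).le) (M_nonneg P m _)
        · rw [if_neg h])
      (fun w hw h => by
        have h' := ((gk P n).supp x w h).2
        rw [if_pos h']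
        exact mul_pos (mul_pos (by positivity) (wt_pos P hw)) (M_pos P m h'.end_unit))
    rw [← M_add] at h1
    refine le_trans ?_ h1
    rw [← sum_k_mul_const (gk P n) hu (log (M P n x) - log 2), gk_n, ← sum_add_distrib]
    refine sum_le_sum fun w hw => ?_
    by_cases h : (gk P n).k x w = 0
    · rw [h]; simp
    rw [← mul_add]
    refine mul_le_mul_of_nonneg_left ?_ ((gk P n).nonneg x w)
    have h' := ((gk P n).supp x w h).2
    rw [if_pos h', gk_of_rd P hw h']
    have h2 := M_pos P 0 h'.end_unit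
    have h3 := M_pos P n hu
    have h4 := wt_pos P hw
    have h5 := M_pos P m h'.end_unit
    have e : 3 ^ n * wt P w * M P m (ep x w) / (3 ^ n * wt P w * M P 0 (ep x w) / M P n x) =
        M P n x / M P 0 (ep x w) * M P m (ep x w) := by
      field_simp
    rw [e, log_mul (by positivity) h5.ne', log_div h3.ne' h2.ne']
    have := log_le_log h2 (M_zero_le P (ep x w))
    simp only [hg]
    linarith
  have h6 : av (n + m) c (fun x => log (M P n x) - log 2 +
      ∑ v ∈ words P.I (gk P n).n, (gk P n).k x v * g (ep x v)) ≤ LL P c (n + m) := av_mono key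
  rw [av_add, av_sub, av_const] at h6
  have h7 : av (n + m) c (fun x => log (M P n x)) = LL P c n :=
    av_per (fun z z' h => by rw [M_per P n h]) c
  have h8 : av (n + m) c (fun x => ∑ v ∈ words P.I (gk P n).n, (gk P n).k x v * g (ep x v)) = _ :=
    av_comp (gk P n) hper c
  rw [h7, h8] at h6
  have h9 : Lm P m ≤ av (gk P n).n c (fun x =>
      ∑ v ∈ words P.I (gk P n).n, (gk P n).k x v * av m (ep x v) g) := by
    rw [← av_const (gk P n).n c (Lm P m)]
    refine av_mono fun x hx => ?_
    rw [← sum_k_mul_const (gk P n) (not_dvd_of_mod hc hx) (Lm P m)]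
    refine sum_le_sum fun v _ => ?_
    by_cases h : (gk P n).k x v = 0
    · rw [h]; simp
    · exact mul_le_mul_of_nonneg_left (av_log_M_ge P m ((gk P n).supp x v h).2.end_unit)
        ((gk P n).nonneg x v)
  linarith

theorem Lm_add (n m : ℕ) : Lm P n + Lm P m - log 2 ≤ Lm P (n + m) := by
  have h1 := LL_add P n m (Or.inl rfl : (1 : ℤ) = 1 ∨ (1 : ℤ) = 2)
  have h2 := LL_add P n m (Or.inr rfl : (2 : ℤ) = 1 ∨ (2 : ℤ) = 2)
  have h3 : Lm P n ≤ LL P 1 n := min_le_left _ _
  have h4 : Lm P n ≤ LL P 2 n := min_le_right _ _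
  refine le_min ?_ ?_ <;> linarith

theorem LL_le (n : ℕ) {c : ℤ} (hc : c = 1 ∨ c = 2) : LL P c n ≤ log 2 := by
  have hpos : ∀ x : ℤ, x % 3 = c % 3 → 0 < M P n x := fun x hx => M_pos P n (not_dvd_of_mod hc hx)
  have h0 : 0 < M P 0 c := M_pos P 0 (not_dvd_of_mod hc rfl)
  have h1 : LL P c n ≤ av n c (fun x => log (M P 0 c) + (M P n x / M P 0 c - 1)) := by
    refine av_mono fun x hx => ?_
    have := log_le_sub_one_of_pos (show 0 < M P n x / M P 0 c from div_pos (hpos x hx) h0)
    rw [log_div (hpos x hx).ne' h0.ne'] at this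
    linarith
  have h2 : av n c (fun x => log (M P 0 c) + (M P n x / M P 0 c - 1)) = log (M P 0 c) := by
    have e : (fun x : ℤ => log (M P 0 c) + (M P n x / M P 0 c - 1)) =
        fun x => (log (M P 0 c) - 1) + (M P 0 c)⁻¹ * M P n x := by
      funext x
      ring
    rw [e, av_add, av_const, av_mul, av_M, inv_mul_cancel₀ h0.ne']
    ring
  rw [h2] at h1
  exact h1.trans (log_le_log h0 (M_zero_le P c))

theorem Lm_le (n : ℕ) : Lm P n ≤ log 2 :=
  (min_le_left _ _).trans (LL_le P n (Or.inl rfl))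

/-- the quenched deficit -/
theorem subadd : Subadditive (fun n => log 2 - Lm P n) := by
  intro m n
  have := Lm_add P m n
  simp only
  linarith

noncomputable def qd : ℝ := (subadd P).lim

theorem bdd : BddBelow (Set.range fun n => (log 2 - Lm P n) / (n : ℝ)) := by
  refine ⟨0, ?_⟩
  rintro _ ⟨n, rfl⟩
  exact div_nonneg (by linarith [Lm_le P n]) (Nat.cast_nonneg n)

theorem qd_nonneg : 0 ≤ qd P := by
  have h := (subadd P).tendsto_lim (bdd P)
  exact ge_of_tendsto' h fun n => div_nonneg (by linarith [Lm_le P n]) (Nat.cast_nonneg n)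

theorem Lm_le_qd (n : ℕ) : Lm P n ≤ - (qd P * n) + log 2 := by
  rcases Nat.eq_zero_or_pos n with rfl | hn
  · have := Lm_le P 0
    simpa using this
  · have h := (subadd P).lim_le_div (bdd P) (Nat.pos_iff_ne_zero.1 hn)
    have hn' : (0 : ℝ) < n := by exact_mod_cast hn
    rw [le_div_iff₀ hn'] at h
    unfold qd
    linarith

theorem Lm_ge_qd {δ : ℝ} (hδ : 0 < δ) : ∃ C : ℝ, 0 ≤ C ∧ ∀ n : ℕ, -((qd P + δ) * n) - C ≤ Lm P n := by
  have h := (subadd P).tendsto_lim (bdd P)
  have h1 := h.eventually (gt_mem_nhds (show (subadd P).lim < qd P + δ by unfold qd; linarith))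
  rw [Filter.eventually_atTop] at h1
  obtain ⟨N, hN⟩ := h1
  obtain ⟨B, hB⟩ : ∃ B : ℝ, ∀ n ∈ range (N + 1), - Lm P n ≤ B := by
    obtain ⟨i, _, hi⟩ := exists_max_image (range (N + 1)) (fun n => - Lm P n) ⟨0, by simp⟩
    exact ⟨_, hi⟩
  refine ⟨max B 0 , le_max_right _ _, fun n => ?_⟩
  have hq := qd_nonneg P
  have hn0 : (0 : ℝ) ≤ n := Nat.cast_nonneg n
  by_cases hn : n < N + 1
  · have h2 := hB n (mem_range.2 hn)
    have h3 : 0 ≤ (qd P + δ) * n := by positivity
    have := le_max_left B 0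
    linarith
  · have h2 := hN n (by omega)
    have hn' : (0 : ℝ) < n := by
      have : 0 < n := by omega
      exact_mod_cast this
    rw [div_lt_iff₀ hn'] at h2
    have h3 : 0 ≤ log 2 := log_nonneg (by norm_num)
    have := le_max_right B 0
    linarith

end Pool.Agent.Collatz3.QA
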