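import Mathlib
import Pool.Agent.Collatz3.QGibbs
import Pool.Agent.Collatz3.QCore

set_option autoImplicit false

/-!
Steering for block kernels.
-/

namespace Pool.Agent.Collatz3.QA

open Finset Real
open Pool.Agent.Collatz3.Mix (words Vf q3 mem_words sum_words_zero sum_words_succ sum_words_add
  lift3 sum_le_of_mem_words Vf_eq)

/-- Mass of the words with sum `S` and end point `v` modulo `3 ^ (m + 1)`. -/
noncomputable def ms {I : ℕ} (K : Ker I) (x : ℤ) (m : ℕ) (S v : ℕ) : ℝ :=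
  ∑ w ∈ (words I K.n).filter (fun w => w.sum = S ∧ (3 : ℤ) ^ (m + 1) ∣ ep x w - v), K.k x w

theorem ms_nonneg {I : ℕ} (K : Ker I) (x : ℤ) (m S v : ℕ) : 0 ≤ ms K x m S v :=
  sum_nonneg fun w _ => K.nonneg x w

theorem ms_three {I : ℕ} (K : Ker I) (x : ℤ) (m S v : ℕ) (hv : 3 ∣ v) : ms K x m S v = 0 := by
  unfold ms
  apply sum_eq_zero
  intro w hw
  rw [mem_filter] at hw
  by_contra h
  have h1 := (K.supp x w h).2.end_unit
  apply h1
  have h2 : (3 : ℤ) ∣ ep x w - v := dvd_trans (dvd_pow_self 3 (by omega)) hw.2.2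
  have h3 : (3 : ℤ) ∣ (v : ℤ) := by exact_mod_cast hv
  exact (dvd_sub_left h3).1 h2

theorem ms_push {I : ℕ} (K : Ker I) (x : ℤ) (m : ℕ) : push m (ms K x (m + 1)) = ms K x m := by
  funext S v
  unfold push ms
  rw [sum_filter, sum_filter, sum_filter, sum_filter, ← sum_add_distrib, ← sum_add_distrib]
  refine sum_congr rfl fun w _ => ?_
  by_cases hS : w.sum = S
  · simp only [hS, true_and]
    have hb : (0 : ℤ) < 3 ^ (m + 1) := by positivity
    have e2 : (3 : ℤ) ^ (m + 1 + 1) = 3 ^ (m + 1) * 3 := pow_succ _ _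
    push_cast
    by_cases h : (3 : ℤ) ^ (m + 1) ∣ ep x w - v
    · obtain ⟨k, hk⟩ := h
      have key : ∀ e : ℤ, (3 : ℤ) ^ (m + 1 + 1) ∣ ep x w - (v + e * 3 ^ (m + 1)) ↔ (3 : ℤ) ∣ k - e := by
        intro e
        have : ep x w - (v + e * 3 ^ (m + 1)) = 3 ^ (m + 1) * (k - e) := by linear_combination hk
        rw [this, e2]
        exact mul_dvd_mul_iff_left hb.ne'
      have k0 := key 0
      have k1 := key 1
      have k2 := key 2
      rw [zero_mul, add_zero] at k0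
      rw [one_mul] at k1
      have hdv : (3 : ℤ) ^ (m + 1) ∣ ep x w - v := ⟨k, hk⟩
      simp only [k0, k1, k2]
      rw [if_pos hdv]
      rcases (by omega : k % 3 = 0 ∨ k % 3 = 1 ∨ k % 3 = 2) with h | h | h
      · rw [if_pos (by omega), if_neg (by omega), if_neg (by omega)]; ring
      · rw [if_neg (by omega), if_pos (by omega), if_neg (by omega)]; ring
      · rw [if_neg (by omega), if_neg (by omega), if_pos (by omega)]; ring
    · have key : ∀ e : ℤ, ¬ (3 : ℤ) ^ (m + 1 + 1) ∣ ep x w - (v + e * 3 ^ (m + 1)) := by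
        intro e h'
        apply h
        have h1 : (3 : ℤ) ^ (m + 1) ∣ ep x w - (v + e * 3 ^ (m + 1)) :=
          dvd_trans (by rw [e2]; exact dvd_mul_right _ _) h'
        have h2 : ep x w - v = (ep x w - (v + e * 3 ^ (m + 1))) + 3 ^ (m + 1) * e := by ring
        rw [h2]
        exact dvd_add h1 (dvd_mul_right _ _)
      have k0 := key 0
      have k1 := key 1
      have k2 := key 2
      rw [zero_mul, add_zero] at k0
      rw [one_mul] at k1
      rw [if_neg k0, if_neg k1, if_neg k2, if_neg h]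
      ring
  · simp [hS]

theorem elaw_lift {I : ℕ} (K : Ker I) (x : ℤ) (S s : ℕ) (y : ZMod (3 ^ s)) (u : ℕ) :
    elaw K x S s (lift3 s y u) = ms K x s S (y.val + u * 3 ^ s) := by
  unfold elaw ms
  refine sum_congr ?_ fun _ _ => rfl
  ext w
  simp only [mem_filter]
  have : ((ep x w : ℤ) : ZMod (3 ^ (s + 1))) = lift3 s y u ↔
      (3 : ℤ) ^ (s + 1) ∣ ep x w - ((y.val + u * 3 ^ s : ℕ) : ℤ) := by
    unfold lift3
    have h1 := ZMod.intCast_eq_intCast_iff_dvd_sub ((y.val + u * 3 ^ s : ℕ) : ℤ) (ep x w) (3 ^ (s + 1))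
    rw [eq_comm, Int.cast_natCast] at h1
    rw [h1]
    push_cast
    rfl
  rw [this]

theorem sum_zmod_range {N : ℕ} [NeZero N] (f : ℕ → ℝ) :
    ∑ y : ZMod N, f y.val = ∑ v ∈ range N, f v := by
  refine sum_bij (fun y _ => y.val) (fun y _ => mem_range.2 (ZMod.val_lt y)) ?_ ?_ ?_
  · intro a _ b _ h
    exact ZMod.val_injective _ h
  · intro v hv
    exact ⟨(v : ZMod N), mem_univ _, by
      rw [ZMod.val_natCast, Nat.mod_eq_of_lt (mem_range.1 hv)]⟩
  · intro a _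
    rfl

theorem Q_eq {I : ℕ} (K : Ker I) (x : ℤ) (s : ℕ) : Q K x s = ∑ S ∈ range (I * K.n + 1),
    ∑ v ∈ range (3 ^ s), q3 (ms K x s S v) (ms K x s S (v + 3 ^ s)) (ms K x s S (v + 2 * 3 ^ s)) := by
  unfold Q
  refine sum_congr rfl fun S _ => ?_
  rw [Vf_eq]
  have : NeZero (3 ^ s) := ⟨by positivity⟩
  rw [← sum_zmod_range (f := fun v => q3 (ms K x s S v) (ms K x s S (v + 3 ^ s))
    (ms K x s S (v + 2 * 3 ^ s)))]
  refine sum_congr rfl fun y _ => ?_
  rw [elaw_lift, elaw_lift, elaw_lift, zero_mul, add_zero, one_mul]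

theorem loss_ms {I : ℕ} (K : Ker I) (x : ℤ) (m : ℕ) :
    loss (range (I * K.n + 1)) m (ms K x m) = ∑ s ∈ Icc 1 m, Q K x s := by
  induction m with
  | zero => simp [loss]
  | succ m ih =>
    rw [sum_Icc_succ_top (by omega : 1 ≤ m + 1), ← ih, Q_eq]
    show loss (range (I * K.n + 1)) m (push m (ms K x (m + 1))) + _ = _
    rw [ms_push]

/-- representative of the end point -/
def rep (x : ℤ) (m : ℕ) (w : List ℕ) : ℕ := (ep x w % 3 ^ (m + 1)).toNat

theorem rep_cast (x : ℤ) (m : ℕ) (w : List ℕ) : (rep x m w : ℤ) = ep x w % 3 ^ (m + 1) :=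
  Int.toNat_of_nonneg (Int.emod_nonneg _ (by positivity))

theorem rep_lt (x : ℤ) (m : ℕ) (w : List ℕ) : rep x m w < 3 ^ (m + 1) := by
  have h1 := rep_cast x m w
  have h2 := Int.emod_lt_of_pos (ep x w) (show (0 : ℤ) < 3 ^ (m + 1) by positivity)
  rw [← h1] at h2
  exact_mod_cast h2

theorem rep_dvd (x : ℤ) (m : ℕ) (w : List ℕ) : (3 : ℤ) ^ (m + 1) ∣ ep x w - rep x m w := by
  rw [rep_cast]
  exact Int.dvd_self_sub_emod

theorem rep_eq_iff (x : ℤ) (m : ℕ) (w : List ℕ) {v : ℕ} (hv : v < 3 ^ (m + 1)) :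
    rep x m w = v ↔ (3 : ℤ) ^ (m + 1) ∣ ep x w - v := by
  constructor
  · rintro rfl
    exact rep_dvd x m w
  · intro h
    have h1 := rep_cast x m w
    have h2 : ep x w % 3 ^ (m + 1) = (v : ℤ) % 3 ^ (m + 1) :=
      Int.emod_eq_emod_iff_emod_sub_eq_zero.2 (Int.emod_eq_zero_of_dvd h)
    rw [h2, Int.emod_eq_of_lt (by positivity) (by exact_mod_cast hv)] at h1
    exact_mod_cast h1

theorem fiber_sum {I : ℕ} (K : Ker I) (x : ℤ) (m : ℕ) (F : ℕ → ℕ → ℝ) :
    ∑ w ∈ words I K.n, K.k x w * F w.sum (rep x m w) =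
      ∑ S ∈ range (I * K.n + 1), ∑ v ∈ range (3 ^ (m + 1)), ms K x m S v * F S v := by
  have h1 : ∀ S ∈ range (I * K.n + 1), ∑ v ∈ range (3 ^ (m + 1)), ms K x m S v * F S v =
      ∑ w ∈ (words I K.n).filter (fun w => w.sum = S), K.k x w * F w.sum (rep x m w) := by
    intro S _
    rw [← sum_fiberwise_of_maps_to (g := fun w => rep x m w) (t := range (3 ^ (m + 1)))
      (fun w _ => mem_range.2 (rep_lt x m w))]
    refine sum_congr rfl fun v hv => ?_
    rw [mem_range] at hv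
    rw [ms, sum_mul, filter_filter]
    refine sum_congr ?_ fun w hw => ?_
    · ext w
      simp only [mem_filter, rep_eq_iff x m w hv]
    · rw [mem_filter] at hw
      rw [hw.2.1, hw.2.2]
  rw [sum_congr rfl h1]
  symm
  apply sum_fiberwise_of_maps_to
  intro w hw
  rw [mem_range]
  have := sum_le_of_mem_words hw
  omega

variable (P : Law)

/-- Digit densities. -/
noncomputable def rh : ℕ → ℤ → ℝ
  | 0, _ => 1
  | s + 1, z => M P (s + 1) z / M P s z

theorem rh_succ (s : ℕ) (z : ℤ) : rh P (s + 1) z = M P (s + 1) z / M P s z := rfl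

theorem rh_per (s : ℕ) (z z' : ℤ) (h : (3 : ℤ) ^ (s + 1) ∣ z - z') : rh P s z = rh P s z' := by
  cases s with
  | zero => rfl
  | succ s =>
    rw [rh_succ, rh_succ, M_per P (s + 1) h, M_per P s (dvd_trans (pow_dvd_pow 3 (by omega)) h)]

theorem rh_sum (s : ℕ) (hs : 1 ≤ s) (z : ℤ) (hz : ¬ (3 : ℤ) ∣ z) :
    rh P s z + rh P s (z + 3 ^ s) + rh P s (z + 2 * 3 ^ s) = 3 := by
  obtain ⟨s, rfl⟩ := Nat.exists_eq_add_of_le' hs
  rw [rh_succ, rh_succ, rh_succ]
  have h1 : M P s (z + 3 ^ (s + 1)) = M P s z := M_per P s ⟨1, by ring⟩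
  have h2 : M P s (z + 2 * 3 ^ (s + 1)) = M P s z := M_per P s ⟨2, by ring⟩
  rw [h1, h2, ← add_div, ← add_div, M_lift, mul_div_assoc, div_self (M_pos P s hz).ne', mul_one]

theorem log_M_eq (m : ℕ) {z : ℤ} (hz : ¬ (3 : ℤ) ∣ z) :
    log (M P m z) = log (M P 0 z) + ∑ s ∈ Icc 1 m, log (rh P s z) := by
  induction m with
  | zero => simp
  | succ m ih =>
    rw [sum_Icc_succ_top (by omega : 1 ≤ m + 1), ← add_assoc, ← ih]
    show _ = _ + log (M P (m + 1) z / M P m z)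
    rw [log_div (M_pos P (m + 1) hz).ne' (M_pos P m hz).ne']
    ring

theorem steer : ∃ C : ℝ, 0 ≤ C ∧ ∀ (K : Ker P.I) (m : ℕ) (x : ℤ), ¬ (3:ℤ) ∣ x →
    ∑ w ∈ words P.I K.n, K.k x w * log (3 ^ K.n * wt P w / K.k x w) - C
        - C * ∑ s ∈ Icc 1 m, Q K x s ≤
      (∑ j ∈ range (3 ^ m), log (M P (K.n + m) (x + 3 ^ (K.n + 1) * j))) / 3 ^ m := by
  obtain ⟨κ, hκ, hratio⟩ := M_ratio P
  obtain ⟨Λ, hΛ0, hΛ⟩ : ∃ Λ : ℝ, 0 ≤ Λ ∧ ∀ z : ℤ, ¬ (3 : ℤ) ∣ z → -Λ ≤ log (M P 0 z) := by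
    obtain ⟨q, hq, hq'⟩ := exists_pmin P
    refine ⟨|log (2 * q)|, abs_nonneg _, fun z hz => ?_⟩
    have h5 := log_le_log (by positivity) (M_zero_pos P hq hq' hz)
    have h6 := neg_abs_le (log (2 * q))
    linarith
  refine ⟨CC κ + Λ, add_nonneg (CC_nonneg hκ) hΛ0, fun K m x hx => ?_⟩
  have hρ : ∀ s, 1 ≤ s → ∀ z : ℤ, ¬ (3 : ℤ) ∣ z → κ ≤ rh P s z ∧
      rh P s z + rh P s (z + 3 ^ s) + rh P s (z + 2 * 3 ^ s) = 3 := by
    intro s hs z hz
    refine ⟨?_, rh_sum P s hs z hz⟩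
    obtain ⟨s, rfl⟩ := Nat.exists_eq_add_of_le' hs
    rw [rh_succ, le_div_iff₀ (M_pos P s hz)]
    exact hratio s z hz
  obtain ⟨g, g1, g2, g3, g4⟩ := steer_core hκ (range (P.I * K.n + 1)) (rh P) (rh_per P) hρ m
    (ms K x m) (ms_nonneg K x m) (ms_three K x m)
  rw [loss_ms] at g4
  have hrep3 : ∀ w, K.k x w ≠ 0 → ¬ 3 ∣ rep x m w := by
    intro w hw h
    apply (K.supp x w hw).2.end_unit
    have h1 := rep_dvd x m w
    have h2 : (3 : ℤ) ∣ ep x w - rep x m w := dvd_trans (dvd_pow_self 3 (by omega)) h1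
    have h3 : (3 : ℤ) ∣ (rep x m w : ℤ) := by exact_mod_cast h
    exact (dvd_sub_left h3).1 h2
  -- Jensen for each j
  have hJ : ∀ j ∈ range (3 ^ m), ∑ w ∈ words P.I K.n, K.k x w * (g j w.sum (rep x m w) *
      (log (3 ^ K.n * wt P w / K.k x w) + (-Λ +
        ((∑ s ∈ Icc 1 m, log (rh P s ((rep x m w : ℤ) + 3 * 2 ^ w.sum * j))) -
          log (g j w.sum (rep x m w)))))) ≤
      log (M P (K.n + m) (x + 3 ^ (K.n + 1) * j)) := by
    intro j hj
    rw [mem_range] at hj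
    have hxj : ¬ (3 : ℤ) ∣ x + 3 ^ (K.n + 1) * j := by
      intro h
      exact hx ((dvd_add_left (Dvd.dvd.mul_right (dvd_pow_self 3 (by omega)) _)).1 h)
    have hshift : ∀ w ∈ words P.I K.n, Rd x w → Rd (x + 3 ^ (K.n + 1) * j) w ∧
        ep (x + 3 ^ (K.n + 1) * j) w = ep x w + 3 * 2 ^ w.sum * j := by
      intro w hw h
      have := h.shift (t := (j : ℤ))
      rw [(mem_words.1 hw).1] at this
      exact this
    have h1 := log_sum_ge (words P.I K.n) (fun w => K.k x w * g j w.sum (rep x m w))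
      (fun w => if Rd (x + 3 ^ (K.n + 1) * j) w then
        3 ^ K.n * wt P w * M P m (ep (x + 3 ^ (K.n + 1) * j) w) else 0)
      (fun w _ => by
        by_cases h : K.k x w = 0
        · rw [h, zero_mul]
        · exact mul_nonneg (K.nonneg x w) (g1 _ _ _ (rep_lt x m w) (hrep3 w h)).le)
      (by
        have e1 := fiber_sum K x m (g j)
        have e2 := fiber_sum K x m (fun _ _ => 1)
        simp only [mul_one] at e2
        rw [e1, g2 j hj, ← e2, K.sum_one x hx])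
      (fun w hw => by
        by_cases h : Rd (x + 3 ^ (K.n + 1) * j) w
        · rw [if_pos h]
          exact mul_nonneg (mul_nonneg (by positivity) (wt_pos P hw).le) (M_nonneg P m _)
        · rw [if_neg h])
      (fun w hw h => by
        have h' := (K.supp x w (left_ne_zero_of_mul h)).2
        have h2 := (hshift w hw h').1
        rw [if_pos h2]
        exact mul_pos (mul_pos (by positivity) (wt_pos P hw)) (M_pos P m h2.end_unit))
    rw [← M_add] at h1
    refine le_trans (sum_le_sum fun w hw => ?_) h1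
    by_cases h0 : K.k x w = 0
    · rw [h0]; simp
    have h' := (K.supp x w h0).2
    obtain ⟨h2, h3⟩ := hshift w hw h'
    have hk : 0 < K.k x w := lt_of_le_of_ne (K.nonneg x w) (Ne.symm h0)
    have hg := g1 j w.sum _ (rep_lt x m w) (hrep3 w h0)
    have hw0 := wt_pos P hw
    have hz := h2.end_unit
    have hM := M_pos P m hz
    rw [← mul_assoc, if_pos h2]
    refine mul_le_mul_of_nonneg_left ?_ (mul_pos hk hg).le
    have e1 : 3 ^ K.n * wt P w * M P m (ep (x + 3 ^ (K.n + 1) * j) w) /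
        (K.k x w * g j w.sum (rep x m w)) =
        (3 ^ K.n * wt P w / K.k x w) * (M P m (ep (x + 3 ^ (K.n + 1) * j) w) /
          g j w.sum (rep x m w)) := by
      field_simp
    rw [e1, log_mul (by positivity) (by positivity), log_div hM.ne' hg.ne', log_M_eq P m hz]
    have e2 : ∑ s ∈ Icc 1 m, log (rh P s (ep (x + 3 ^ (K.n + 1) * j) w)) =
        ∑ s ∈ Icc 1 m, log (rh P s ((rep x m w : ℤ) + 3 * 2 ^ w.sum * j)) := by
      refine sum_congr rfl fun s hs => ?_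
      rw [mem_Icc] at hs
      congr 1
      apply rh_per
      rw [h3]
      have := rep_dvd x m w
      have e3 : ep x w + 3 * 2 ^ w.sum * (j : ℤ) - ((rep x m w : ℤ) + 3 * 2 ^ w.sum * j) =
          ep x w - rep x m w := by ring
      rw [e3]
      exact dvd_trans (pow_dvd_pow 3 (by omega)) this
    rw [e2]
    have e4 := hΛ _ hz
    linarith
  have hsum := sum_le_sum hJ
  rw [le_div_iff₀ (by positivity)]
  refine le_trans ?_ hsum
  -- compute the left side
  have e0 : ∑ j ∈ range (3 ^ m), ∑ w ∈ words P.I K.n, K.k x w * (g j w.sum (rep x m w) *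
      (log (3 ^ K.n * wt P w / K.k x w) + (-Λ +
        ((∑ s ∈ Icc 1 m, log (rh P s ((rep x m w : ℤ) + 3 * 2 ^ w.sum * j))) -
          log (g j w.sum (rep x m w)))))) =
      ∑ w ∈ words P.I K.n, K.k x w * (log (3 ^ K.n * wt P w / K.k x w) - Λ) *
        ∑ j ∈ range (3 ^ m), g j w.sum (rep x m w) +
      ∑ j ∈ range (3 ^ m), ∑ w ∈ words P.I K.n, K.k x w * (g j w.sum (rep x m w) *
        ((∑ s ∈ Icc 1 m, log (rh P s ((rep x m w : ℤ) + 3 * 2 ^ w.sum * j))) -
          log (g j w.sum (rep x m w)))) := by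
    have e1 : ∑ w ∈ words P.I K.n, K.k x w * (log (3 ^ K.n * wt P w / K.k x w) - Λ) *
        ∑ j ∈ range (3 ^ m), g j w.sum (rep x m w) =
        ∑ j ∈ range (3 ^ m), ∑ w ∈ words P.I K.n,
          K.k x w * (log (3 ^ K.n * wt P w / K.k x w) - Λ) *
            g j w.sum (rep x m w) := by
      rw [sum_comm]
      exact sum_congr rfl fun w _ => mul_sum _ _ _
    rw [e1, ← sum_add_distrib]
    refine sum_congr rfl fun j _ => ?_
    rw [← sum_add_distrib]
    refine sum_congr rfl fun w _ => ?_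
    ring
  rw [e0]
  have e1 : ∑ w ∈ words P.I K.n, K.k x w * (log (3 ^ K.n * wt P w / K.k x w) - Λ) *
        ∑ j ∈ range (3 ^ m), g j w.sum (rep x m w) =
      (∑ w ∈ words P.I K.n, K.k x w * log (3 ^ K.n * wt P w / K.k x w) - Λ) * 3 ^ m := by
    have e2 : ∀ w ∈ words P.I K.n,
        K.k x w * (log (3 ^ K.n * wt P w / K.k x w) - Λ) *
        ∑ j ∈ range (3 ^ m), g j w.sum (rep x m w) =
        (K.k x w * log (3 ^ K.n * wt P w / K.k x w)) * 3 ^ m -
          (K.k x w * Λ) * 3 ^ m := by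
      intro w _
      by_cases h0 : K.k x w = 0
      · rw [h0]; ring
      · rw [g3 _ _ (rep_lt x m w) (hrep3 w h0)]
        ring
    rw [sum_congr rfl e2, sum_sub_distrib, ← sum_mul, ← sum_mul, sum_k_mul_const K hx]
    ring
  rw [e1]
  have e2 : ∀ j : ℕ, ∑ w ∈ words P.I K.n, K.k x w * (g j w.sum (rep x m w) *
        ((∑ s ∈ Icc 1 m, log (rh P s ((rep x m w : ℤ) + 3 * 2 ^ w.sum * j))) -
          log (g j w.sum (rep x m w)))) =
      ∑ S ∈ range (P.I * K.n + 1), ∑ v ∈ range (3 ^ (m + 1)), ms K x m S v * (g j S v *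
          ((∑ s ∈ Icc 1 m, log (rh P s (v + 3 * 2 ^ S * j))) - log (g j S v))) := fun j =>
    fiber_sum K x m (fun S v => g j S v *
      ((∑ s ∈ Icc 1 m, log (rh P s ((v : ℤ) + 3 * 2 ^ S * j))) - log (g j S v)))
  simp only [e2]
  have h3 : (0 : ℝ) < 3 ^ m := by positivity
  have hQ0 : 0 ≤ ∑ s ∈ Icc 1 m, Q K x s := sum_nonneg fun s _ => sum_nonneg fun S _ =>
    Pool.Agent.Collatz3.Mix.Vf_nonneg s fun y => sum_nonneg fun w _ => K.nonneg x w
  have h4 : CC κ * 3 ^ m * ∑ s ∈ Icc 1 m, Q K x s ≤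
      (CC κ + Λ) * (∑ s ∈ Icc 1 m, Q K x s) * 3 ^ m := by
    have : 0 ≤ Λ * (∑ s ∈ Icc 1 m, Q K x s) * 3 ^ m := by positivity
    linarith
  have h5 : 0 ≤ CC κ * 3 ^ m := mul_nonneg (CC_nonneg hκ) h3.le
  linarith

end Pool.Agent.Collatz3.QA
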