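import Mathlib
import Pool.Agent.Collatz3.QSteer

set_option autoImplicit false

/-!
The composition inequality.
-/

namespace Pool.Agent.Collatz3.QA

open Finset Real
open Pool.Agent.Collatz3.Mix (words Vf q3 mem_words sum_words_zero sum_words_succ sum_words_add
  lift3 sum_le_of_mem_words Vf_eq tt three_tt three_Vf q3_conv q3_swap q3_rot Vf_sum Vf_nonneg
  Vf_le q3_nonneg q3_le q3_zero)

variable {I : ℕ}

/-! ### One convolution step -/

theorem Vf_three (n : ℕ) (σ : ZMod (3 ^ (n + 1)) → ℝ) (a b c : ℝ) :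
    Vf n (fun y => a * σ y + b * σ (y - tt n) + c * σ (y - 2 * tt n)) = q3 a b c * Vf n σ := by
  have e3 := three_Vf n (fun y => a * σ y + b * σ (y - tt n) + c * σ (y - 2 * tt n))
  have e4 := three_Vf n σ
  have e5 : ∑ y, q3 (a * σ y + b * σ (y - tt n) + c * σ (y - 2 * tt n))
      (a * σ (y + tt n) + b * σ (y + tt n - tt n) + c * σ (y + tt n - 2 * tt n))
      (a * σ (y + 2 * tt n) + b * σ (y + 2 * tt n - tt n) + c * σ (y + 2 * tt n - 2 * tt n)) =
      q3 a b c * ∑ y, q3 (σ y) (σ (y + tt n)) (σ (y + 2 * tt n)) := by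
    rw [mul_sum]
    apply sum_congr rfl
    intro y _
    have h := three_tt n
    have f1 : y - tt n = y + 2 * tt n := by linear_combination -h
    have f2 : y - 2 * tt n = y + tt n := by linear_combination -h
    have f3 : y + tt n - tt n = y := by ring
    have f4 : y + tt n - 2 * tt n = y + 2 * tt n := by linear_combination -h
    have f5 : y + 2 * tt n - tt n = y + tt n := by ring
    have f6 : y + 2 * tt n - 2 * tt n = y := by ring
    rw [f1, f2, f3, f4, f5, f6, ← q3_conv]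
  have e6 : 3 * Vf n (fun y => a * σ y + b * σ (y - tt n) + c * σ (y - 2 * tt n)) =
      q3 a b c * (3 * Vf n σ) := by
    rw [e3, e4, ← e5]
  linarith

theorem Vf_three' (n : ℕ) (σ : ZMod (3 ^ (n + 1)) → ℝ) (a b c : ℝ) (S : ℕ) :
    Vf n (fun y => a * σ y + b * σ (y - 2 ^ S * tt n) + c * σ (y - 2 * 2 ^ S * tt n)) =
      q3 a b c * Vf n σ := by
  have h := three_tt n
  have hS : ∃ k : ℕ, 2 ^ S = 1 + 3 * k ∨ 2 ^ S = 2 + 3 * k := by
    have h1 : ¬ 3 ∣ 2 ^ S := by
      intro h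
      have := Nat.prime_three.dvd_of_dvd_pow h
      norm_num at this
    exact ⟨2 ^ S / 3, by omega⟩
  obtain ⟨k, hk⟩ := hS
  rcases hk with hk | hk
  · have e : (2 : ZMod (3 ^ (n + 1))) ^ S = 1 + 3 * k := by
      have := congrArg (Nat.cast : ℕ → ZMod (3 ^ (n + 1))) hk
      push_cast at this
      exact this
    have e1 : (2 : ZMod (3 ^ (n + 1))) ^ S * tt n = tt n := by
      rw [e]; linear_combination (k : ZMod (3 ^ (n + 1))) * h
    have e2 : 2 * (2 : ZMod (3 ^ (n + 1))) ^ S * tt n = 2 * tt n := by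
      rw [e]; linear_combination (2 * k : ZMod (3 ^ (n + 1))) * h
    rw [e1, e2]
    exact Vf_three n σ a b c
  · have e : (2 : ZMod (3 ^ (n + 1))) ^ S = 2 + 3 * k := by
      have := congrArg (Nat.cast : ℕ → ZMod (3 ^ (n + 1))) hk
      push_cast at this
      exact this
    have e1 : (2 : ZMod (3 ^ (n + 1))) ^ S * tt n = 2 * tt n := by
      rw [e]; linear_combination (k : ZMod (3 ^ (n + 1))) * h
    have e2 : 2 * (2 : ZMod (3 ^ (n + 1))) ^ S * tt n = tt n := by
      rw [e]; linear_combination (1 + 2 * k : ZMod (3 ^ (n + 1))) * h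
    rw [e1, e2, ← q3_swap, ← Vf_three n σ a c b]
    congr 1
    funext y
    ring

/-! ### Basic bounds -/

theorem elaw_nonneg (K : Ker I) (x : ℤ) (S s : ℕ) (y : ZMod (3 ^ (s + 1))) : 0 ≤ elaw K x S s y :=
  sum_nonneg fun w _ => K.nonneg x w

theorem Q_nonneg (K : Ker I) (x : ℤ) (s : ℕ) : 0 ≤ Q K x s :=
  sum_nonneg fun S _ => Vf_nonneg s fun y => elaw_nonneg K x S s y

theorem Q_le_one (K : Ker I) {x : ℤ} (hx : ¬ (3 : ℤ) ∣ x) (s : ℕ) : Q K x s ≤ 1 := by
  have h1 : Q K x s ≤ ∑ S ∈ range (I * K.n + 1), ∑ y, elaw K x S s y :=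
    sum_le_sum fun S _ => Vf_le s fun y => elaw_nonneg K x S s y
  refine h1.trans (le_of_eq ?_)
  have h2 : ∀ S ∈ range (I * K.n + 1), ∑ y, elaw K x S s y =
      ∑ w ∈ (words I K.n).filter (fun w => w.sum = S), K.k x w := by
    intro S _
    rw [← sum_fiberwise ((words I K.n).filter (fun w => w.sum = S))
      (fun w => ((ep x w : ℤ) : ZMod (3 ^ (s + 1))))]
    refine sum_congr rfl fun y _ => ?_
    rw [elaw, filter_filter]
  rw [sum_congr rfl h2, sum_fiberwise_of_maps_to, K.sum_one x hx]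
  intro w hw
  rw [mem_range]
  have := sum_le_of_mem_words hw
  omega

theorem V_nonneg (K : Ker I) (c : ℤ) (s : ℕ) : 0 ≤ V K c s := by
  unfold V
  rw [← av_const K.n c 0]
  exact av_mono fun x _ => Q_nonneg K x s

theorem V_le_one (K : Ker I) {c : ℤ} (hc : c = 1 ∨ c = 2) (s : ℕ) : V K c s ≤ 1 := by
  unfold V
  rw [← av_const K.n c 1]
  exact av_mono fun x hx => Q_le_one K (not_dvd_of_mod hc hx) s

/-! ### Masses with integer argument -/

/-- Mass of the words with sum `S` and end point `z` modulo `3 ^ (m + 1)`. -/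
noncomputable def mz (K : Ker I) (x : ℤ) (m : ℕ) (S : ℕ) (z : ℤ) : ℝ :=
  ∑ w ∈ (words I K.n).filter (fun w => w.sum = S ∧ (3 : ℤ) ^ (m + 1) ∣ ep x w - z), K.k x w

theorem mz_nonneg (K : Ker I) (x : ℤ) (m S : ℕ) (z : ℤ) : 0 ≤ mz K x m S z :=
  sum_nonneg fun w _ => K.nonneg x w

theorem ms_eq (K : Ker I) (x : ℤ) (m S v : ℕ) : ms K x m S v = mz K x m S v := rfl

theorem mz_per (K : Ker I) (x : ℤ) (m S : ℕ) {z z' : ℤ} (h : (3 : ℤ) ^ (m + 1) ∣ z - z') :
    mz K x m S z = mz K x m S z' := by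
  unfold mz
  refine sum_congr ?_ fun _ _ => rfl
  ext w
  simp only [mem_filter]
  have : (3 : ℤ) ^ (m + 1) ∣ ep x w - z ↔ (3 : ℤ) ^ (m + 1) ∣ ep x w - z' := by
    apply dvd_iff_dvd_of_dvd_sub
    have e : ep x w - z - (ep x w - z') = -(z - z') := by ring
    rw [e, dvd_neg]
    exact h
  rw [this]

theorem mz_three (K : Ker I) (x : ℤ) (m S : ℕ) {z : ℤ} (hz : (3 : ℤ) ∣ z) : mz K x m S z = 0 := by
  unfold mz
  apply sum_eq_zero
  intro w hw
  rw [mem_filter] at hw
  by_contra h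
  have h1 := (K.supp x w h).2.end_unit
  apply h1
  have h2 : (3 : ℤ) ∣ ep x w - z := dvd_trans (dvd_pow_self 3 (by omega)) hw.2.2
  exact (dvd_sub_left hz).1 h2

/-- Changing the starting point. -/
theorem mz_shift (K : Ker I) (x : ℤ) (m S : ℕ) (z t : ℤ) :
    mz K (x + 3 ^ (K.n + 1) * t) m S z = mz K x m S (z - 3 * 2 ^ S * t) := by
  unfold mz
  rw [sum_filter, sum_filter]
  refine sum_congr rfl fun w hw => ?_
  have hk : K.k (x + 3 ^ (K.n + 1) * t) w = K.k x w := K.per _ _ _ ⟨t, by ring⟩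
  by_cases h0 : K.k x w = 0
  · rw [hk, h0]; simp
  · have hr := (K.supp x w h0).2
    have h1 := (hr.shift (t := t)).2
    rw [(mem_words.1 hw).1] at h1
    by_cases hS : w.sum = S
    · have e : ep (x + 3 ^ (K.n + 1) * t) w - z = ep x w - (z - 3 * 2 ^ S * t) := by
        rw [h1, hS]; ring
      rw [hk, e]
    · rw [if_neg (fun h => hS h.1), if_neg (fun h => hS h.1)]

/-- The `q3` of the three lifts. -/
noncomputable def qz (K : Ker I) (x : ℤ) (m : ℕ) (S : ℕ) (z : ℤ) : ℝ :=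
  q3 (mz K x m S z) (mz K x m S (z + 3 ^ m)) (mz K x m S (z + 2 * 3 ^ m))

theorem qz_nonneg (K : Ker I) (x : ℤ) (m S : ℕ) (z : ℤ) : 0 ≤ qz K x m S z :=
  q3_nonneg (mz_nonneg _ _ _ _ _) (mz_nonneg _ _ _ _ _) (mz_nonneg _ _ _ _ _)

theorem qz_step (K : Ker I) (x : ℤ) (m S : ℕ) (z : ℤ) : qz K x m S (z + 3 ^ m) = qz K x m S z := by
  unfold qz
  have e1 : z + 3 ^ m + 3 ^ m = z + 2 * 3 ^ m := by ring
  have e2 : mz K x m S (z + 3 ^ m + 2 * 3 ^ m) = mz K x m S z := mz_per K x m S ⟨1, by ring⟩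
  rw [e1, e2]
  exact q3_rot _ _ _

theorem qz_step_nat (K : Ker I) (x : ℤ) (m S : ℕ) (z : ℤ) (k : ℕ) :
    qz K x m S (z + k * 3 ^ m) = qz K x m S z := by
  induction k with
  | zero => simp
  | succ k ih =>
    rw [← ih, ← qz_step K x m S (z + k * 3 ^ m)]
    congr 1
    push_cast
    ring

theorem qz_per (K : Ker I) (x : ℤ) (m S : ℕ) {z z' : ℤ} (h : (3 : ℤ) ^ m ∣ z - z') :
    qz K x m S z = qz K x m S z' := by
  obtain ⟨t, ht⟩ := h
  rcases le_total 0 t with h0 | h0
  · obtain ⟨k, rfl⟩ := Int.eq_ofNat_of_zero_le h0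
    have : z = z' + (k : ℤ) * 3 ^ m := by linear_combination ht
    rw [this, qz_step_nat]
  · obtain ⟨k, hk⟩ := Int.eq_ofNat_of_zero_le (show 0 ≤ -t by omega)
    have : z' = z + (k : ℤ) * 3 ^ m := by
      rw [← hk]; linear_combination -ht
    rw [this, qz_step_nat]

theorem qz_three (K : Ker I) (x : ℤ) {m : ℕ} (hm : 1 ≤ m) (S : ℕ) {z : ℤ} (hz : (3 : ℤ) ∣ z) :
    qz K x m S z = 0 := by
  have h1 : (3 : ℤ) ∣ 3 ^ m := dvd_pow_self 3 (by omega)
  unfold qz
  rw [mz_three K x m S hz, mz_three K x m S (dvd_add hz h1),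
    mz_three K x m S (dvd_add hz (h1.mul_left 2)), q3_zero]

theorem qz_shift (K : Ker I) (x : ℤ) (m S : ℕ) (z t : ℤ) :
    qz K (x + 3 ^ (K.n + 1) * t) m S z = qz K x m S (z - 3 * 2 ^ S * t) := by
  unfold qz
  rw [mz_shift, mz_shift, mz_shift]
  congr 2 <;> ring

theorem Q_eq' (K : Ker I) (x : ℤ) (s : ℕ) :
    Q K x s = ∑ S ∈ range (I * K.n + 1), ∑ v ∈ range (3 ^ s), qz K x s S v := by
  rw [Q_eq]
  refine sum_congr rfl fun S _ => sum_congr rfl fun v _ => ?_
  rw [ms_eq, ms_eq, ms_eq, qz]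
  push_cast
  rfl

theorem Q_per (K : Ker I) {x x' : ℤ} (s : ℕ) (h : (3 : ℤ) ^ (K.n + 1) ∣ x - x') :
    Q K x s = Q K x' s := by
  obtain ⟨t, ht⟩ := h
  have e : x = x' + 3 ^ (K.n + 1) * t := by linear_combination ht
  rw [e, Q_eq', Q_eq']
  refine sum_congr rfl fun S _ => ?_
  simp only [qz_shift]
  have := sum_perm (N := s) (F := fun z => qz K x' s S z)
    (fun z z' h => qz_per K x' s S h) (-(3 * 2 ^ S * t)) 1 (by norm_num)
  rw [← this]
  refine sum_congr rfl fun v _ => ?_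
  congr 1
  ring

/-! ### The law of the end point of a composition -/

theorem elaw_comp (K K' : Ker I) (x : ℤ) (S : ℕ) {s : ℕ} (hs : 1 ≤ s) (y : ZMod (3 ^ (s + 1))) :
    elaw (comp K K') x S s y = ∑ S' ∈ range (I * K.n + 1), ∑ β ∈ range (3 ^ (K'.n + s)),
      ∑ S'' ∈ range (I * K'.n + 1), if S' + S'' = S then
        (ms K x (K'.n + s) S' β * elaw K' β S'' s y +
         ms K x (K'.n + s) S' (β + 3 ^ (K'.n + s)) * elaw K' β S'' s (y - 2 ^ S'' * tt s) +
         ms K x (K'.n + s) S' (β + 2 * 3 ^ (K'.n + s)) * elaw K' β S'' s (y - 2 * 2 ^ S'' * tt s))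
      else 0 := by
  set N := K'.n + s with hN
  -- the functional
  set F : ℕ → ℕ → ℝ := fun S' v => ∑ w ∈ words I K'.n,
    if S' + w.sum = S ∧ ((ep (v : ℤ) w : ℤ) : ZMod (3 ^ (s + 1))) = y then K'.k (v : ℤ) w else 0
    with hF
  have h1 : elaw (comp K K') x S s y = ∑ u ∈ words I K.n, K.k x u * F u.sum (rep x N u) := by
    unfold elaw
    rw [sum_filter]
    refine (sum_words_add I K.n K'.n _).trans ?_
    refine sum_congr rfl fun u hu => ?_
    have hl := (mem_words.1 hu).1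
    by_cases h0 : K.k x u = 0
    · rw [h0, zero_mul]
      apply sum_eq_zero
      intro w _
      rw [comp_k_append K K' x hl, h0, zero_mul]
      simp
    · rw [hF, mul_sum]
      refine sum_congr rfl fun w hw => ?_
      have hd := rep_dvd x N u
      have hk : K'.k (ep x u) w = K'.k (rep x N u : ℤ) w :=
        K'.per _ _ _ (dvd_trans (pow_dvd_pow 3 (by omega)) hd)
      rw [comp_k_append K K' x hl, ep_append, List.sum_append, hk]
      by_cases h0' : K'.k (rep x N u : ℤ) w = 0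
      · rw [h0']; simp
      · have hr := (K'.supp _ w h0').2
        have hl' := (mem_words.1 hw).1
        have he : ((ep (ep x u) w : ℤ) : ZMod (3 ^ (s + 1))) =
            ((ep (rep x N u : ℤ) w : ℤ) : ZMod (3 ^ (s + 1))) := by
          rw [ZMod.intCast_eq_intCast_iff_dvd_sub]
          push_cast
          refine hr.ep_congr (r := s) ?_
          rw [hl', ← dvd_neg, neg_sub]
          exact dvd_trans (pow_dvd_pow 3 (by omega)) hd
        rw [he]
        split_ifs <;> simp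
  rw [h1, fiber_sum]
  refine sum_congr rfl fun S' _ => ?_
  rw [sum_split N]
  refine sum_congr rfl fun β _ => ?_
  -- F on the three lifts
  have h2 : ∀ e : ℕ, F S' (β + e * 3 ^ N) = ∑ S'' ∈ range (I * K'.n + 1),
      if S' + S'' = S then elaw K' β S'' s (y - e * 2 ^ S'' * tt s) else 0 := by
    intro e
    have h3 : ∀ S'' ∈ range (I * K'.n + 1), (if S' + S'' = S then
        elaw K' β S'' s (y - e * 2 ^ S'' * tt s) else 0) =
        ∑ w ∈ (words I K'.n).filter (fun w => w.sum = S''),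
          if S' + w.sum = S ∧ ((ep ((β + e * 3 ^ N : ℕ) : ℤ) w : ℤ) : ZMod (3 ^ (s + 1))) = y then
            K'.k ((β + e * 3 ^ N : ℕ) : ℤ) w else 0 := by
      intro S'' _
      by_cases hS : S' + S'' = S
      · rw [if_pos hS, elaw, ← filter_filter, sum_filter]
        refine sum_congr rfl fun w hw => ?_
        rw [mem_filter] at hw
        have hk : K'.k ((β + e * 3 ^ N : ℕ) : ℤ) w = K'.k (β : ℤ) w := by
          refine K'.per _ _ _ (dvd_trans (pow_dvd_pow 3 (by omega : K'.n + 1 ≤ N)) ⟨e, ?_⟩)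
          push_cast
          ring
        rw [hk]
        by_cases h0' : K'.k (β : ℤ) w = 0
        · rw [h0']; simp
        · have hr := (K'.supp _ w h0').2
          have hl' := (mem_words.1 hw.1).1
          have he : ep ((β + e * 3 ^ N : ℕ) : ℤ) w = ep (β : ℤ) w + 3 ^ s * (2 ^ S'' * e) := by
            obtain ⟨r, rfl⟩ := Nat.exists_eq_add_of_le' hs
            have h4 := (hr.shift (t := (3 : ℤ) ^ r * e)).2
            rw [hl', hw.2] at h4
            have h5 : ((β + e * 3 ^ N : ℕ) : ℤ) = (β : ℤ) + 3 ^ (K'.n + 1) * (3 ^ r * e) := by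
              rw [hN]
              push_cast
              ring
            rw [h5, h4]
            ring
          have h6 : ((ep ((β + e * 3 ^ N : ℕ) : ℤ) w : ℤ) : ZMod (3 ^ (s + 1))) = y ↔
              ((ep (β : ℤ) w : ℤ) : ZMod (3 ^ (s + 1))) = y - e * 2 ^ S'' * tt s := by
            rw [he]
            have h7 : tt s = (3 : ZMod (3 ^ (s + 1))) ^ s := rfl
            rw [h7]
            push_cast
            constructor
            · intro h; linear_combination h
            · intro h; linear_combination h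
          simp only [hw.2, hS, true_and, h6]
      · rw [if_neg hS]
        symm
        apply sum_eq_zero
        intro w hw
        rw [mem_filter] at hw
        rw [hw.2, if_neg (fun h => hS h.1)]
    rw [sum_congr rfl h3, sum_fiberwise_of_maps_to]
    intro w hw
    rw [mem_range]
    have := sum_le_of_mem_words hw
    omega
  have f0 := h2 0
  have f1 := h2 1
  have f2 := h2 2
  simp only [zero_mul, add_zero, one_mul, Nat.cast_zero, Nat.cast_one, sub_zero,
    Nat.cast_ofNat] at f0 f1 f2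
  rw [f0, f1, f2, mul_sum, mul_sum, mul_sum, ← sum_add_distrib, ← sum_add_distrib]
  refine sum_congr rfl fun S'' _ => ?_
  split_ifs <;> simp

/-- The pointwise composition inequality. -/
theorem Q_comp_le (K K' : Ker I) (x : ℤ) {s : ℕ} (hs : 1 ≤ s) :
    Q (comp K K') x s ≤ ∑ S' ∈ range (I * K.n + 1), ∑ β ∈ range (3 ^ (K'.n + s)),
      qz K x (K'.n + s) S' β * Q K' β s := by
  set N := K'.n + s with hN
  have h1 : ∀ S, Vf s (elaw (comp K K') x S s) ≤ ∑ S' ∈ range (I * K.n + 1),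
      ∑ β ∈ range (3 ^ N), ∑ S'' ∈ range (I * K'.n + 1),
        if S' + S'' = S then qz K x N S' β * Vf s (elaw K' β S'' s) else 0 := by
    intro S
    have e1 : elaw (comp K K') x S s = fun y => ∑ S' ∈ range (I * K.n + 1), ∑ β ∈ range (3 ^ N),
      ∑ S'' ∈ range (I * K'.n + 1), if S' + S'' = S then
        (ms K x N S' β * elaw K' β S'' s y +
         ms K x N S' (β + 3 ^ N) * elaw K' β S'' s (y - 2 ^ S'' * tt s) +
         ms K x N S' (β + 2 * 3 ^ N) * elaw K' β S'' s (y - 2 * 2 ^ S'' * tt s))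
      else 0 := by
      funext y
      exact elaw_comp K K' x S hs y
    have hnn : ∀ (S' β S'' : ℕ) (y : ZMod (3 ^ (s + 1))), 0 ≤ if S' + S'' = S then
        (ms K x N S' β * elaw K' β S'' s y +
         ms K x N S' (β + 3 ^ N) * elaw K' β S'' s (y - 2 ^ S'' * tt s) +
         ms K x N S' (β + 2 * 3 ^ N) * elaw K' β S'' s (y - 2 * 2 ^ S'' * tt s))
      else 0 := by
      intro S' β S'' y
      split_ifs
      · exact add_nonneg (add_nonneg (mul_nonneg (ms_nonneg _ _ _ _ _) (elaw_nonneg _ _ _ _ _))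
          (mul_nonneg (ms_nonneg _ _ _ _ _) (elaw_nonneg _ _ _ _ _)))
          (mul_nonneg (ms_nonneg _ _ _ _ _) (elaw_nonneg _ _ _ _ _))
      · exact le_rfl
    rw [e1]
    refine (Vf_sum s _ fun S' _ y => sum_nonneg fun β _ => sum_nonneg fun S'' _ =>
      hnn S' β S'' y).trans (sum_le_sum fun S' _ => ?_)
    refine (Vf_sum s _ fun β _ y => sum_nonneg fun S'' _ =>
      hnn S' β S'' y).trans (sum_le_sum fun β _ => ?_)
    refine (Vf_sum s _ fun S'' _ y => hnn S' β S'' y).trans (sum_le_sum fun S'' _ => ?_)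
    by_cases hS : S' + S'' = S
    · simp only [if_pos hS]
      rw [Vf_three']
      refine le_of_eq ?_
      rw [qz, ms_eq, ms_eq, ms_eq]
      push_cast
      rfl
    · simp only [if_neg hS]
      have := Pool.Agent.Collatz3.Mix.Vf_smul s 0 (fun _ => (0 : ℝ))
      simp only [zero_mul] at this
      rw [this]
  have h2 : Q (comp K K') x s ≤ ∑ S ∈ range (I * (comp K K').n + 1),
      ∑ S' ∈ range (I * K.n + 1), ∑ β ∈ range (3 ^ N), ∑ S'' ∈ range (I * K'.n + 1),
        if S' + S'' = S then qz K x N S' β * Vf s (elaw K' β S'' s) else 0 :=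
    sum_le_sum fun S _ => h1 S
  refine h2.trans ?_
  rw [sum_comm]
  refine sum_le_sum fun S' _ => ?_
  rw [sum_comm]
  refine sum_le_sum fun β _ => ?_
  rw [sum_comm, Q, mul_sum]
  refine sum_le_sum fun S'' _ => ?_
  rw [sum_ite_eq]
  split_ifs
  · exact le_rfl
  · exact mul_nonneg (qz_nonneg _ _ _ _ _) (Vf_nonneg s fun y => elaw_nonneg _ _ _ _ _)

/-- Averaged over the lifts of `x`. -/
theorem Q_comp_avg (K K' : Ker I) (x : ℤ) {s : ℕ} (hs : 1 ≤ s) :
    (∑ j ∈ range (3 ^ K'.n), Q (comp K K') (x + 3 ^ (K.n + 1) * j) s) / 3 ^ K'.n ≤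
      ∑ S' ∈ range (I * K.n + 1), ∑ β ∈ range (3 ^ (K'.n + s)),
        qz K x (K'.n + s) S' β * av K'.n β (fun z => Q K' z s) := by
  set N := K'.n + s with hN
  have h1 : ∀ j : ℕ, Q (comp K K') (x + 3 ^ (K.n + 1) * j) s ≤ ∑ S' ∈ range (I * K.n + 1),
      ∑ β ∈ range (3 ^ N), qz K x N S' β * Q K' (β + 3 * (2 ^ S' * j)) s := by
    intro j
    refine (Q_comp_le K K' _ hs).trans (le_of_eq ?_)
    refine sum_congr rfl fun S' _ => ?_
    have hperF : ∀ z z' : ℤ, (3 : ℤ) ^ N ∣ z - z' →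
        qz K (x + 3 ^ (K.n + 1) * j) N S' z * Q K' z s =
          qz K (x + 3 ^ (K.n + 1) * j) N S' z' * Q K' z' s := by
      intro z z' h
      rw [qz_per K _ N S' h, Q_per K' s (dvd_trans (pow_dvd_pow 3 (by omega)) h)]
    rw [← sum_perm hperF (3 * (2 ^ S' * j)) 1 (by norm_num)]
    refine sum_congr rfl fun β _ => ?_
    rw [qz_shift, one_mul]
    have e : (3 * (2 ^ S' * (j : ℤ)) + (β : ℤ)) - 3 * 2 ^ S' * j = β := by ring
    rw [e, add_comm (3 * (2 ^ S' * (j : ℤ)))]
  rw [div_le_iff₀ (by positivity)]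
  refine (sum_le_sum fun j _ => h1 j).trans (le_of_eq ?_)
  rw [sum_comm, sum_mul]
  refine sum_congr rfl fun S' _ => ?_
  rw [sum_comm, sum_mul]
  refine sum_congr rfl fun β _ => ?_
  rw [← mul_sum, mul_assoc]
  congr 1
  have h2 := av_shift (N := K'.n) (g := fun z => Q K' z s) (fun z z' h => Q_per K' s h)
    β β (2 ^ S') (by simp) (two_pow_not_dvd S')
  rw [← h2]
  field_simp

theorem V_comp_eq (K K' : Ker I) (c : ℤ) (s : ℕ) : V (comp K K') c s = av K.n c (fun x =>
    (∑ j ∈ range (3 ^ K'.n), Q (comp K K') (x + 3 ^ (K.n + 1) * j) s) / 3 ^ K'.n) := by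
  unfold V
  rw [comp_n, av_split]

theorem V_comp_le (K K' : Ker I) {c : ℤ} (_hc : c = 1 ∨ c = 2) {s : ℕ} (hs : 1 ≤ s) :
    V (comp K K') c s ≤ V K c (K'.n + s) * Vm K' s := by
  rw [V_comp_eq, mul_comm, V, ← av_mul]
  refine av_mono fun x _ => ?_
  refine (Q_comp_avg K K' x hs).trans ?_
  rw [Q_eq', mul_sum]
  refine sum_le_sum fun S' _ => ?_
  rw [mul_sum]
  refine sum_le_sum fun β _ => ?_
  rw [mul_comm]
  by_cases hβ : (3 : ℤ) ∣ β
  · rw [qz_three K x (by omega) S' hβ, mul_zero, mul_zero]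
  · exact mul_le_mul_of_nonneg_right (av_end_le (fun z z' h => Q_per K' s h) hβ)
      (qz_nonneg _ _ _ _ _)

theorem V_comp_le' (K K' : Ker I) {c : ℤ} (hc : c = 1 ∨ c = 2) {s : ℕ} (hs : 1 ≤ s) :
    V (comp K K') c s ≤ 1 - Pr1 K c * (1 - V K' 1 s) := by
  set v := V K' 1 s with hv
  have h1 : V (comp K K') c s ≤ av K.n c (fun x => 1 - (1 - v) *
      ∑ w ∈ (words I K.n).filter (fun w => ep x w % 3 = 1), K.k x w) := by
    rw [V_comp_eq]
    refine av_mono fun x hx => ?_
    have hu := not_dvd_of_mod hc hx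
    refine (Q_comp_avg K K' x hs).trans ?_
    set N := K'.n + s with hN
    have h2 : ∑ S' ∈ range (I * K.n + 1), ∑ β ∈ range (3 ^ N),
        qz K x N S' β * av K'.n β (fun z => Q K' z s) ≤
        ∑ S' ∈ range (I * K.n + 1), ∑ β ∈ range (3 ^ N),
          (ms K x N S' β + ms K x N S' (β + 3 ^ N) + ms K x N S' (β + 2 * 3 ^ N)) *
            (if (β : ℤ) % 3 = 1 then v else 1) := by
      refine sum_le_sum fun S' _ => sum_le_sum fun β _ => ?_
      by_cases hβ : (3 : ℤ) ∣ β
      · rw [qz_three K x (by omega) S' hβ, zero_mul]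
        refine mul_nonneg (add_nonneg (add_nonneg (ms_nonneg _ _ _ _ _) (ms_nonneg _ _ _ _ _))
          (ms_nonneg _ _ _ _ _)) ?_
        split_ifs
        · exact V_nonneg K' 1 s
        · norm_num
      · refine mul_le_mul ?_ ?_ ?_ (add_nonneg (add_nonneg (ms_nonneg _ _ _ _ _)
          (ms_nonneg _ _ _ _ _)) (ms_nonneg _ _ _ _ _))
        · have := q3_le (mz_nonneg K x N S' β) (mz_nonneg K x N S' (β + 3 ^ N))
            (mz_nonneg K x N S' (β + 2 * 3 ^ N))
          rw [ms_eq, ms_eq, ms_eq, qz]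
          push_cast
          exact this
        · split_ifs with h
          · rw [hv, V]
            exact le_of_eq (av_class (fun z z' h => Q_per K' s h) (by omega))
          · have h3 : (3 : ℤ) ∣ (β : ℤ) - 2 := by omega
            rw [av_class (fun z z' h => Q_per K' s h) h3]
            exact V_le_one K' (Or.inr rfl) s
        · rw [← av_const K'.n (β : ℤ) 0]
          exact av_mono fun z _ => Q_nonneg K' z s
    refine h2.trans (le_of_eq ?_)
    -- back to words
    have h3 := fiber_sum K x N (fun _ r => if (r : ℤ) % 3 = 1 then v else 1)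
    have h4 : ∀ S', ∑ β ∈ range (3 ^ N),
          (ms K x N S' β + ms K x N S' (β + 3 ^ N) + ms K x N S' (β + 2 * 3 ^ N)) *
            (if (β : ℤ) % 3 = 1 then v else 1) =
        ∑ r ∈ range (3 ^ (N + 1)), ms K x N S' r * (if (r : ℤ) % 3 = 1 then v else 1) := by
      intro S'
      rw [sum_split N]
      refine sum_congr rfl fun β _ => ?_
      have hd : (3 : ℤ) ∣ 3 ^ N := dvd_pow_self 3 (by omega)
      obtain ⟨t, ht⟩ := hd
      have e1 : ((β + 3 ^ N : ℕ) : ℤ) % 3 = (β : ℤ) % 3 := by push_cast; rw [ht]; omega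
      have e2 : ((β + 2 * 3 ^ N : ℕ) : ℤ) % 3 = (β : ℤ) % 3 := by push_cast; rw [ht]; omega
      rw [e1, e2]
      ring
    simp only [h4]
    rw [← h3]
    have h5 : ∀ w ∈ words I K.n, K.k x w * (if (rep x N w : ℤ) % 3 = 1 then v else 1) =
        K.k x w - (1 - v) * (if ep x w % 3 = 1 then K.k x w else 0) := by
      intro w _
      have h6 : (3 : ℤ) ∣ ep x w - rep x N w := dvd_trans (dvd_pow_self 3 (by omega)) (rep_dvd x N w)
      by_cases h7 : ep x w % 3 = 1
      · rw [if_pos h7, if_pos (by omega)]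
        ring
      · rw [if_neg h7, if_neg (by omega)]
        ring
    rw [sum_congr rfl h5, sum_sub_distrib, K.sum_one x hu, ← mul_sum, sum_filter]
  refine h1.trans (le_of_eq ?_)
  rw [av_sub, av_const, av_mul, Pr1]
  ring

end Pool.Agent.Collatz3.QA
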