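import Pool.Agent.Collatz3.QBasic
import Pool.Agent.Collatz3.Ent

set_option autoImplicit false

/-!
Digits and entropy for block kernels.
-/

namespace Pool.Agent.Collatz3.QA

open Finset Real
open Pool.Agent.Collatz3.Mix (words Vf fs red mem_words cw_inj sum_le_of_mem_words sum_fs)
open scoped Classical

/-- end point modulo `3 ^ j` -/
def em (j : ℕ) (x : ℤ) (w : List ℕ) : ZMod (3 ^ j) := ((ep x w : ℤ) : ZMod (3 ^ j))

theorem red_em (j : ℕ) (x : ℤ) (w : List ℕ) : red j (em (j + 1) x w) = em j x w := by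
  unfold em
  rw [map_intCast]

theorem em_of_em (j : ℕ) (x : ℤ) {w w' : List ℕ} (h : em (j + 1) x w = em (j + 1) x w') :
    em j x w = em j x w' := by
  rw [← red_em j x w, ← red_em j x w', h]

theorem cw_le (I n : ℕ) : ∀ w ∈ words I n, cw w + 1 ≤ 3 ^ n * 2 ^ w.sum := by
  induction n with
  | zero =>
    intro w hw
    rw [mem_words] at hw
    obtain ⟨h1, _⟩ := hw
    rw [List.length_eq_zero_iff] at h1
    subst h1
    simp [cw]
  | succ n ih =>
    intro w hw
    rw [mem_words] at hw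
    cases w with
    | nil => simp at hw
    | cons i w =>
      have h1 := ih w (mem_words.2 ⟨by simpa using hw.1, fun j hj => hw.2 j (by simp [hj])⟩)
      have hi : 1 ≤ i := (hw.2 i (by simp)).1
      have h2 : 2 ^ 1 ≤ 2 ^ i := Nat.pow_le_pow_right (by norm_num) hi
      simp only [cw, List.sum_cons]
      rw [pow_succ, pow_add]
      have h3 : 0 < 2 ^ w.sum := by positivity
      have h4 : 3 ^ n * 3 * (2 ^ 1 * 2 ^ w.sum) ≤ 3 ^ n * 3 * (2 ^ i * 2 ^ w.sum) :=
        Nat.mul_le_mul_left _ (Nat.mul_le_mul_right _ h2)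
      have h5 : 1 * 2 ^ w.sum ≤ 3 ^ n * 2 ^ w.sum := Nat.mul_le_mul_right _ (Nat.one_le_pow _ _ (by norm_num))
      nlinarith

/-- the word is determined by its sum and its end point modulo a large power of 3 -/
theorem word_det {I n : ℕ} (hn : 1 ≤ n) {x : ℤ} {w w' : List ℕ} (hw : w ∈ words I n)
    (hw' : w' ∈ words I n) (hr : Rd x w) (hr' : Rd x w') (hs : w.sum = w'.sum)
    (he : em ((I + 2) * n) x w = em ((I + 2) * n) x w') : w = w' := by
  have h1 := hr.rel
  have h2 := hr'.rel
  have m1 := mem_words.1 hw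
  have m2 := mem_words.1 hw'
  rw [m1.1] at h1
  rw [m2.1, ← hs] at h2
  have h3 : (3 : ℤ) ^ n * (ep x w - ep x w') = cw w' - cw w := by linear_combination h2 - h1
  unfold em at he
  rw [ZMod.intCast_eq_intCast_iff_dvd_sub] at he
  obtain ⟨t, ht⟩ := he
  have hc1 := cw_le I n w hw
  have hc2 := cw_le I n w' hw'
  have s1 := sum_le_of_mem_words hw
  have s2 := sum_le_of_mem_words hw'
  have hb : ∀ v : List ℕ, v.sum ≤ I * n → cw v + 1 ≤ 3 ^ n * 2 ^ v.sum →
      cw v < 3 ^ n * 3 ^ ((I + 2) * n) := by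
    intro v hv h
    have : 2 ^ v.sum ≤ 3 ^ ((I + 2) * n) :=
      (Nat.pow_le_pow_left (by norm_num) _).trans (Nat.pow_le_pow_right (by norm_num) (by nlinarith))
    calc cw v < cw v + 1 := Nat.lt_succ_self _
      _ ≤ _ := h
      _ ≤ _ := Nat.mul_le_mul_left _ this
  have b1 := hb w s1 hc1
  have b2 := hb w' s2 hc2
  have h4 : (cw w : ℤ) - cw w' = 3 ^ n * 3 ^ ((I + 2) * n) * t := by
    have : (3 : ℤ) ^ n * (ep x w' - ep x w) = cw w - cw w' := by linear_combination -h3
    rw [ht] at this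
    push_cast at this
    linear_combination -this
  have b1' : (cw w : ℤ) < 3 ^ n * 3 ^ ((I + 2) * n) := by exact_mod_cast b1
  have b2' : (cw w' : ℤ) < 3 ^ n * 3 ^ ((I + 2) * n) := by exact_mod_cast b2
  have hpos : (0 : ℤ) < 3 ^ n * 3 ^ ((I + 2) * n) := by positivity
  have ht0 : t = 0 := by
    by_contra hne
    rcases lt_or_gt_of_ne hne with h | h
    · have : (3 : ℤ) ^ n * 3 ^ ((I + 2) * n) * t ≤ 3 ^ n * 3 ^ ((I + 2) * n) * (-1) :=
        mul_le_mul_of_nonneg_left (by omega) hpos.le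
      have : (0 : ℤ) ≤ cw w := Int.natCast_nonneg _
      linarith
    · have : (3 : ℤ) ^ n * 3 ^ ((I + 2) * n) * 1 ≤ 3 ^ n * 3 ^ ((I + 2) * n) * t :=
        mul_le_mul_of_nonneg_left (by omega) hpos.le
      have : (0 : ℤ) ≤ cw w' := Int.natCast_nonneg _
      linarith
  have hcw : cw w = cw w' := by
    rw [ht0, mul_zero, sub_eq_zero] at h4
    exact_mod_cast h4
  exact cw_inj m1.1 m2.1 (fun i hi => (m1.2 i hi).1) (fun i hi => (m2.2 i hi).1) hs hcw

/-- the non-uniformity `Q` in terms of `pdiff` -/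
theorem Q_eq_pdiff {I : ℕ} (K : Ker I) {x : ℤ} (hx : ¬ (3 : ℤ) ∣ x) (s : ℕ) :
    Q K x s = 1 - 3 / 2 * pdiff (words I K.n) (K.k x) (em (s + 1) x)
      (fun w => (em s x w, w.sum)) := by
  set W := words I K.n with hW
  set p := K.k x with hp
  set ρ : ℕ → ZMod (3 ^ (s + 1)) → ℝ := fun S => elaw K x S s with hρ
  have hρe : ∀ S y, ρ S y = ∑ w ∈ W with w.sum = S ∧ em (s + 1) x w = y, p w := by
    intro S y
    simp only [hρ, elaw]
    refine sum_congr ?_ fun _ _ => rfl
    ext w
    simp only [mem_filter, em, hW]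
  have hρ0 : ∀ S y, 0 ≤ ρ S y := fun S y => by
    rw [hρe]
    exact sum_nonneg fun w _ => K.nonneg x w
  have h1 : ∀ w ∈ W, mv W p (fun w => (em (s + 1) x w, (em s x w, w.sum)))
      (em (s + 1) x w, (em s x w, w.sum)) = ρ w.sum (em (s + 1) x w) := by
    intro w _
    rw [hρe]
    unfold mv
    refine sum_congr ?_ fun _ _ => rfl
    ext w'
    simp only [mem_filter, Prod.ext_iff]
    constructor
    · rintro ⟨a, b, _, c⟩; exact ⟨a, c, b⟩
    · rintro ⟨a, c, b⟩; exact ⟨a, b, em_of_em s x b, c⟩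
  have hfs : ∀ S β, fs s (ρ S) β = ∑ w ∈ W with w.sum = S ∧ em s x w = β, p w := by
    intro S β
    unfold fs
    rw [← sum_fiberwise_of_maps_to (g := em (s + 1) x)
      (s := W.filter fun w => w.sum = S ∧ em s x w = β)
      (t := univ.filter fun y => red s y = β) (by
        intro w hw
        rw [mem_filter] at hw ⊢
        exact ⟨mem_univ _, by rw [red_em]; exact hw.2.2⟩)]
    refine sum_congr (by ext y; simp only [mem_filter]) fun y hy => ?_
    rw [hρe]
    refine sum_congr ?_ fun _ _ => rfl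
    ext w
    simp only [mem_filter]
    constructor
    · rintro ⟨a, b, c⟩
      refine ⟨⟨a, b, ?_⟩, c⟩
      rw [← red_em, c]
      exact (mem_filter.1 hy).2
    · rintro ⟨⟨a, b, _⟩, c⟩; exact ⟨a, b, c⟩
  have h2 : ∀ w ∈ W, mv W p (fun w => (em s x w, w.sum)) (em s x w, w.sum) =
      fs s (ρ w.sum) (em s x w) := by
    intro w _
    rw [hfs]
    unfold mv
    refine sum_congr ?_ fun _ _ => rfl
    ext w'
    simp only [mem_filter, Prod.ext_iff]
    tauto
  have hmass : ∑ w ∈ W, p w = 1 := K.sum_one x hx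
  -- the sum of squares
  have h3 : ∑ w ∈ W, p w * (ρ w.sum (em (s + 1) x w) / fs s (ρ w.sum) (em s x w)) =
      ∑ S ∈ range (I * K.n + 1), ∑ β, fs s (fun y => ρ S y ^ 2) β / fs s (ρ S) β := by
    rw [← sum_fiberwise_of_maps_to (g := fun w : List ℕ => w.sum) (s := W)
      (t := range (I * K.n + 1)) (fun w hw => by
        rw [mem_range]; exact Nat.lt_succ_of_le (sum_le_of_mem_words hw))]
    refine sum_congr rfl fun S _ => ?_
    rw [← sum_fiberwise_of_maps_to (g := em (s + 1) x) (t := univ) (fun w _ => mem_univ _)]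
    have e1 : ∀ y, ∑ w ∈ (W.filter fun w => w.sum = S) with em (s + 1) x w = y,
        p w * (ρ w.sum (em (s + 1) x w) / fs s (ρ w.sum) (em s x w)) =
        ρ S y ^ 2 / fs s (ρ S) (red s y) := by
      intro y
      have : ∀ w ∈ (W.filter fun w => w.sum = S).filter fun w => em (s + 1) x w = y,
          p w * (ρ w.sum (em (s + 1) x w) / fs s (ρ w.sum) (em s x w)) =
          p w * (ρ S y / fs s (ρ S) (red s y)) := by
        intro w hw
        simp only [mem_filter] at hw
        have e3 : em s x w = red s y := by rw [← hw.2, red_em]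
        rw [e3, hw.2, hw.1.2]
      rw [sum_congr rfl this, ← sum_mul]
      have e2 : ∑ w ∈ (W.filter fun w => w.sum = S) with em (s + 1) x w = y, p w = ρ S y := by
        rw [hρe]
        refine sum_congr ?_ fun _ _ => rfl
        ext w
        simp only [mem_filter]
        tauto
      rw [e2]
      ring
    rw [sum_congr rfl fun y _ => e1 y, ← sum_fs]
    refine sum_congr rfl fun β _ => ?_
    unfold fs
    rw [sum_div]
    refine sum_congr rfl fun y hy => ?_
    rw [(mem_filter.1 hy).2]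
  have h4 : ∑ S ∈ range (I * K.n + 1), ∑ β, fs s (ρ S) β = 1 := by
    rw [← hmass, ← sum_fiberwise_of_maps_to (g := fun w : List ℕ => w.sum) (s := W)
      (t := range (I * K.n + 1)) (fun w hw => by
        rw [mem_range]; exact Nat.lt_succ_of_le (sum_le_of_mem_words hw))]
    refine sum_congr rfl fun S _ => ?_
    rw [← sum_fiberwise_of_maps_to (g := em s x) (t := univ) (fun w _ => mem_univ _)]
    refine sum_congr rfl fun β _ => ?_
    rw [hfs]
    refine sum_congr ?_ fun _ _ => rfl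
    ext w
    simp only [mem_filter]
    tauto
  have h5 : pdiff W p (em (s + 1) x) (fun w => (em s x w, w.sum)) =
      1 - ∑ S ∈ range (I * K.n + 1), ∑ β, fs s (fun y => ρ S y ^ 2) β / fs s (ρ S) β := by
    unfold pdiff
    rw [← h3]
    have : ∀ w ∈ W, p w * (1 - mv W p (fun w => (em (s + 1) x w, (em s x w, w.sum)))
        (em (s + 1) x w, (em s x w, w.sum)) / mv W p (fun w => (em s x w, w.sum))
        (em s x w, w.sum)) = p w - p w * (ρ w.sum (em (s + 1) x w) / fs s (ρ w.sum) (em s x w)) := by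
      intro w hw
      rw [h1 w hw, h2 w hw]
      ring
    rw [sum_congr rfl this, sum_sub_distrib, hmass]
  have h6 : Q K x s = 3 / 2 * (∑ S ∈ range (I * K.n + 1), ∑ β,
      fs s (fun y => ρ S y ^ 2) β / fs s (ρ S) β) - 1 / 2 := by
    have : Q K x s = ∑ S ∈ range (I * K.n + 1), ∑ β,
        (3 / 2 * (fs s (fun y => ρ S y ^ 2) β / fs s (ρ S) β) - 1 / 2 * fs s (ρ S) β) := by
      unfold Q Vf
      refine sum_congr rfl fun S _ => sum_congr rfl fun β _ => ?_
      change (3 * fs s (fun y => ρ S y ^ 2) β - fs s (ρ S) β ^ 2) / (2 * fs s (ρ S) β) = _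
      rcases eq_or_ne (fs s (ρ S) β) 0 with h | h
      · rw [h]; simp
      · field_simp
    rw [this]
    simp_rw [sum_sub_distrib, ← mul_sum]
    rw [h4]
    ring
  rw [h6, h5]
  ring

theorem HH_eq_cH {I : ℕ} (K : Ker I) {x : ℤ} (hx : ¬ (3 : ℤ) ∣ x) :
    HH K x = cH (words I K.n) (K.k x) (fun w => w) (fun _ => ()) := by
  unfold HH cH
  refine sum_congr rfl fun w hw => ?_
  have h1 : mv (words I K.n) (K.k x) (fun _ => ()) () = 1 := by
    unfold mv
    rw [← K.sum_one x hx]
    refine sum_congr ?_ fun _ _ => rfl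
    ext w
    simp
  have h2 : mv (words I K.n) (K.k x) (fun w => (w, ())) (w, ()) = K.k x w := by
    unfold mv
    rw [sum_eq_single w]
    · intro v hv hne
      simp only [mem_filter, Prod.ext_iff] at hv
      exact absurd hv.2.1 hne
    · intro hn
      exact absurd (by simp [hw]) hn
  rw [h1, h2, Real.log_one, Real.negMulLog]
  ring

/-- the entropy of a block kernel is bounded by the digit entropies -/
theorem HH_le_digits {I : ℕ} (K : Ker I) (hn : 1 ≤ K.n) {x : ℤ} (hx : ¬ (3 : ℤ) ∣ x) :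
    HH K x ≤ Real.log (I * K.n + 1) + ∑ j ∈ range ((I + 2) * K.n),
      cH (words I K.n) (K.k x) (em (j + 1) x) (fun w => (em j x w, w.sum)) := by
  have hp : ∀ w ∈ words I K.n, 0 ≤ K.k x w := fun w _ => K.nonneg x w
  have step : ∀ N : ℕ, cH (words I K.n) (K.k x) (fun w => w) (fun w : List ℕ => w.sum) ≤
      ∑ j ∈ range N, cH (words I K.n) (K.k x) (em (j + 1) x) (fun w => (em j x w, w.sum)) +
      cH (words I K.n) (K.k x) (fun w => w) (fun w => (em N x w, w.sum)) := by
    intro N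
    induction N with
    | zero =>
      rw [range_zero, sum_empty, zero_add]
      refine cH_anti hp _ _ _ fun w _ _ w' _ _ h => ?_
      simp only [Prod.ext_iff]
      refine ⟨?_, h⟩
      exact Subsingleton.elim (α := ZMod 1) _ _
    | succ N ih =>
      refine ih.trans ?_
      rw [sum_range_succ]
      have h1 : cH (words I K.n) (K.k x) (fun w => w) (fun w => (em N x w, w.sum)) ≤
          cH (words I K.n) (K.k x) (em (N + 1) x) (fun w => (em N x w, w.sum)) +
          cH (words I K.n) (K.k x) (fun w => w) (fun w => (em (N + 1) x w, (em N x w, w.sum))) :=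
        cH_triangle hp _ _ _
      have h2 : cH (words I K.n) (K.k x) (fun w => w)
          (fun w => (em (N + 1) x w, (em N x w, w.sum))) ≤
          cH (words I K.n) (K.k x) (fun w => w) (fun w => (em (N + 1) x w, w.sum)) := by
        refine cH_anti hp _ _ _ fun w _ _ w' _ _ h => ?_
        simp only [Prod.ext_iff] at h ⊢
        exact ⟨h.1, h.2.2⟩
      linarith
  have h0 : cH (words I K.n) (K.k x) (fun w => w) (fun w => (em ((I + 2) * K.n) x w, w.sum)) =
      0 := by
    have e : cH (words I K.n) (K.k x) (fun w => w) (fun w => (em ((I + 2) * K.n) x w, w.sum)) =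
        cH (words I K.n) (K.k x) (fun _ => ()) (fun w => (em ((I + 2) * K.n) x w, w.sum)) := by
      refine cH_congr _ _ _ _ (fun _ _ _ _ _ _ => Iff.rfl) fun w h1 h1' w' h2 h2' => ?_
      simp only [Prod.ext_iff, true_and]
      constructor
      · rintro ⟨_, h⟩; exact h
      · rintro ⟨h3, h4⟩
        exact ⟨word_det hn h1 h2 (K.supp _ _ h1').2 (K.supp _ _ h2').2 h4 h3, h3, h4⟩
    rw [e]
    exact cH_eq_zero _ _ fun _ _ _ _ _ => rfl
  have h1 : cH (words I K.n) (K.k x) (fun w => w) (fun _ => ()) ≤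
      cH (words I K.n) (K.k x) (fun w : List ℕ => w.sum) (fun _ => ()) +
      cH (words I K.n) (K.k x) (fun w => w) (fun w : List ℕ => (w.sum, ())) := cH_triangle hp _ _ _
  have h2 : cH (words I K.n) (K.k x) (fun w => w) (fun w : List ℕ => (w.sum, ())) ≤
      cH (words I K.n) (K.k x) (fun w => w) (fun w : List ℕ => w.sum) := by
    refine cH_anti hp _ _ _ fun w _ _ w' _ _ h => ?_
    simp only [Prod.ext_iff] at h
    exact h.1
  have h3 : cH (words I K.n) (K.k x) (fun w : List ℕ => w.sum) (fun _ => ()) ≤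
      Real.log (I * K.n + 1) := by
    have := cH_le_log' hp (fun w : List ℕ => w.sum) (fun _ => ()) (range (I * K.n + 1))
      (I * K.n + 1) (by omega)
      (fun w hw => by rw [mem_range]; exact Nat.lt_succ_of_le (sum_le_of_mem_words hw)) (by simp)
    rw [K.sum_one x hx, one_mul] at this
    exact_mod_cast this
  have h4 := step ((I + 2) * K.n)
  rw [h0, add_zero] at h4
  rw [HH_eq_cH K hx]
  linarith

theorem cH_digit_le {I : ℕ} (K : Ker I) {x : ℤ} (hx : ¬ (3 : ℤ) ∣ x) (j : ℕ) {η : ℝ}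
    (hη : 0 < η) : cH (words I K.n) (K.k x) (em (j + 1) x) (fun w => (em j x w, w.sum)) ≤
      η + 2 / η * (1 - Q K x j) := by
  have hp : ∀ w ∈ words I K.n, 0 ≤ K.k x w := fun w _ => K.nonneg x w
  have h1 : cH (words I K.n) (K.k x) (em (j + 1) x) (fun w => (em j x w, w.sum)) ≤
      2 * (Real.sqrt ((3 : ℕ) * ∑ w ∈ words I K.n, K.k x w) *
        Real.sqrt (pdiff (words I K.n) (K.k x) (em (j + 1) x) (fun w => (em j x w, w.sum)))) := by
    refine cH_le_pdiff hp _ _ 3 ?_
    rintro ⟨β, S⟩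
    refine ⟨univ.filter fun y => red j y = β, ?_, ?_⟩
    · have := Mix.sum_fibre j (fun _ => 1) β
      rw [sum_const, smul_eq_mul, mul_one] at this
      rw [this]
    · intro w _ h
      simp only [Prod.ext_iff] at h
      rw [mem_filter]
      exact ⟨mem_univ _, by rw [red_em]; exact h.1⟩
  rw [K.sum_one x hx, mul_one] at h1
  set P := pdiff (words I K.n) (K.k x) (em (j + 1) x) (fun w => (em j x w, w.sum)) with hP
  have hQ : 1 - Q K x j = 3 / 2 * P := by rw [Q_eq_pdiff K hx j]; ring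
  rw [hQ]
  rcases le_or_gt P 0 with h0 | h0
  · have hP0 : 0 ≤ P := by
      rw [hP]
      unfold pdiff
      refine sum_nonneg fun w hw => mul_nonneg (hp w hw) (sub_nonneg.2 ?_)
      refine div_le_one_of_le₀ ?_ (mv_nonneg hp _ _)
      exact mv_le hp (fun w => (em (j + 1) x w, (em j x w, w.sum)))
        (fun w => (em j x w, w.sum)) fun w' _ h' => (Prod.ext_iff.1 h').2
    have : P = 0 := le_antisymm h0 hP0
    rw [this] at h1 ⊢
    rw [Real.sqrt_zero, mul_zero, mul_zero] at h1
    simp only [mul_zero, add_zero]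
    linarith
  · have h3 := Real.sq_sqrt (show (0 : ℝ) ≤ 3 by norm_num)
    have h4 := Real.sq_sqrt h0.le
    have h5 : 0 ≤ (η - Real.sqrt 3 * Real.sqrt P) ^ 2 := sq_nonneg _
    have h6 : η * (2 * (Real.sqrt 3 * Real.sqrt P)) ≤ η * (η + 2 / η * (3 / 2 * P)) := by
      have e : η * (η + 2 / η * (3 / 2 * P)) = η ^ 2 + 3 * P := by field_simp
      rw [e]
      nlinarith
    have h7 := le_of_mul_le_mul_left h6 hη
    push_cast at h1
    linarith

theorem unit_of_mod {c x : ℤ} (hc : c = 1 ∨ c = 2) (h : x % 3 = c % 3) : ¬ (3 : ℤ) ∣ x := by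
  rcases hc with rfl | rfl <;> omega

theorem Q_le_one' {I : ℕ} (K : Ker I) {x : ℤ} (hx : ¬ (3 : ℤ) ∣ x) (s : ℕ) : Q K x s ≤ 1 := by
  have hp : ∀ w ∈ words I K.n, 0 ≤ K.k x w := fun w _ => K.nonneg x w
  rw [Q_eq_pdiff K hx s]
  have : 0 ≤ pdiff (words I K.n) (K.k x) (em (s + 1) x) (fun w => (em s x w, w.sum)) := by
    unfold pdiff
    refine sum_nonneg fun w hw => mul_nonneg (hp w hw) (sub_nonneg.2 ?_)
    refine div_le_one_of_le₀ ?_ (mv_nonneg hp _ _)
    exact mv_le hp (fun w => (em (s + 1) x w, (em s x w, w.sum)))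
      (fun w => (em s x w, w.sum)) fun w' _ h' => (Prod.ext_iff.1 h').2
  linarith

theorem V_le_one' {I : ℕ} (K : Ker I) {c : ℤ} (hc : c = 1 ∨ c = 2) (s : ℕ) : V K c s ≤ 1 := by
  unfold V
  rw [← av_const K.n c 1]
  exact av_mono fun x hx => Q_le_one' K (unit_of_mod hc hx) s

/-- (C1) positive entropy forces a positive proportion of non-degenerate digits -/
theorem digits (I : ℕ) (hI : 0 < I) {h : ℝ} (hh : 0 < h) : ∃ κ : ℝ, 0 < κ ∧ ∃ n₀ : ℕ,
    ∀ K : Ker I, n₀ ≤ K.n → ∀ c : ℤ, c = 1 ∨ c = 2 → h * K.n ≤ av K.n c (fun x => HH K x) →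
    κ * K.n ≤ ∑ s ∈ Ico 1 ((I + 2) * K.n), (1 - V K c s) := by
  set η : ℝ := h / (4 * (I + 2)) with hη
  have hη0 : 0 < η := by positivity
  -- the logarithm is small compared with `n`
  have hlog : ∃ n₀ : ℕ, ∀ n : ℕ, n₀ ≤ n →
      Real.log (I * n + 1) + (η + 2 / η) ≤ h / 4 * n := by
    have h1 : Filter.Tendsto (fun n : ℕ => (Real.log (I * n + 1) + (η + 2 / η)) / n)
        Filter.atTop (nhds 0) := by
      have h2 : Filter.Tendsto (fun n : ℕ => ((I : ℝ) * n + 1)) Filter.atTop Filter.atTop := by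
        refine Filter.tendsto_atTop_add_const_right _ _ ?_
        exact Filter.Tendsto.const_mul_atTop (by exact_mod_cast hI) tendsto_natCast_atTop_atTop
      have h3 : Filter.Tendsto (fun n : ℕ => Real.log (I * n + 1) / (I * n + 1))
          Filter.atTop (nhds 0) := by
        have := (Real.isLittleO_log_id_atTop.tendsto_div_nhds_zero).comp h2
        exact this
      have h4 : Filter.Tendsto (fun n : ℕ => ((I : ℝ) * n + 1) / n) Filter.atTop (nhds I) := by
        have : Filter.Tendsto (fun n : ℕ => (I : ℝ) + 1 / (n : ℝ)) Filter.atTop (nhds (I + 0)) :=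
          tendsto_const_nhds.add tendsto_one_div_atTop_nhds_zero_nat
        rw [add_zero] at this
        refine this.congr' ?_
        filter_upwards [Filter.eventually_gt_atTop 0] with n hn
        have : (n : ℝ) ≠ 0 := by positivity
        field_simp
      have h5 : Filter.Tendsto (fun n : ℕ => (η + 2 / η) / (n : ℝ)) Filter.atTop (nhds 0) :=
        tendsto_const_div_atTop_nhds_zero_nat _
      have h6 := (h3.mul h4).add h5
      rw [zero_mul, zero_add] at h6
      refine h6.congr' ?_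
      filter_upwards [Filter.eventually_gt_atTop 0] with n hn
      have : (n : ℝ) ≠ 0 := by positivity
      have h7 : (I : ℝ) * n + 1 ≠ 0 := by positivity
      field_simp
    obtain ⟨n₀, hn₀⟩ := Filter.eventually_atTop.1 (h1.eventually (gt_mem_nhds (show 0 < h / 4 by positivity)))
    refine ⟨n₀ + 1, fun n hn => ?_⟩
    have h8 := hn₀ n (by omega)
    have : (0 : ℝ) < n := by
      have : 0 < n := by omega
      exact_mod_cast this
    rw [div_lt_iff₀ this] at h8
    exact h8.le
  obtain ⟨n₀, hn₀⟩ := hlog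
  refine ⟨η * h / 4, by positivity, n₀ + 1, fun K hK c hc hH => ?_⟩
  have hn1 : 1 ≤ K.n := by omega
  have h1 : av K.n c (fun x => HH K x) ≤ av K.n c (fun x => Real.log (I * K.n + 1) +
      ∑ j ∈ range ((I + 2) * K.n), (η + 2 / η * (1 - Q K x j))) := by
    refine av_mono fun x hx => ?_
    have hu := unit_of_mod hc hx
    refine (HH_le_digits K hn1 hu).trans ?_
    gcongr with j _
    exact cH_digit_le K hu j hη0
  have h2 : av K.n c (fun x => Real.log (I * K.n + 1) +
      ∑ j ∈ range ((I + 2) * K.n), (η + 2 / η * (1 - Q K x j))) = Real.log (I * K.n + 1) +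
      ∑ j ∈ range ((I + 2) * K.n), (η + 2 / η * (1 - V K c j)) := by
    rw [av_add, av_const, av_sum]
    congr 1
    refine sum_congr rfl fun j _ => ?_
    rw [av_add, av_const, av_mul, av_sub, av_const]
    rfl
  have hN : 1 ≤ (I + 2) * K.n := Nat.one_le_iff_ne_zero.2 (by positivity)
  have h3 : ∑ j ∈ range ((I + 2) * K.n), (η + 2 / η * (1 - V K c j)) =
      (η + 2 / η * (1 - V K c 0)) + ∑ j ∈ Ico 1 ((I + 2) * K.n), (η + 2 / η * (1 - V K c j)) := by
    rw [range_eq_Ico, sum_eq_sum_Ico_succ_bot (by omega)]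
  have h4 : ∑ j ∈ Ico 1 ((I + 2) * K.n), (η + 2 / η * (1 - V K c j)) =
      (((I + 2) * K.n - 1 : ℕ) : ℝ) * η + 2 / η * ∑ j ∈ Ico 1 ((I + 2) * K.n), (1 - V K c j) := by
    rw [sum_add_distrib, sum_const, Nat.card_Ico, nsmul_eq_mul, mul_sum]
  have h5 : (((I + 2) * K.n - 1 : ℕ) : ℝ) * η ≤ h / 4 * K.n := by
    have : (((I + 2) * K.n - 1 : ℕ) : ℝ) ≤ (I + 2) * K.n := by
      have : (I + 2) * K.n - 1 ≤ (I + 2) * K.n := Nat.sub_le _ _
      exact_mod_cast this
    calc (((I + 2) * K.n - 1 : ℕ) : ℝ) * η ≤ (I + 2) * K.n * η := by gcongr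
      _ = h / 4 * K.n := by rw [hη]; field_simp
  have hV0 : 1 - V K c 0 ≤ 1 := by
    have : 0 ≤ V K c 0 := by
      unfold V
      rw [← av_const K.n c 0]
      refine av_mono fun x hx => ?_
      unfold Q
      exact sum_nonneg fun S _ => Mix.Vf_nonneg _ fun y => sum_nonneg fun w _ => K.nonneg x w
    linarith
  have h6 : 2 / η * (1 - V K c 0) ≤ 2 / η := by
    have : 0 ≤ 2 / η := by positivity
    nlinarith
  have h7 := hn₀ K.n (by omega)
  have h8 : h / 2 * K.n ≤ 2 / η * ∑ j ∈ Ico 1 ((I + 2) * K.n), (1 - V K c j) := by linarith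
  have h9 : η / 2 * (h / 2 * K.n) ≤
      η / 2 * (2 / η * ∑ j ∈ Ico 1 ((I + 2) * K.n), (1 - V K c j)) := by gcongr
  have h10 : η / 2 * (2 / η * ∑ j ∈ Ico 1 ((I + 2) * K.n), (1 - V K c j)) =
      ∑ j ∈ Ico 1 ((I + 2) * K.n), (1 - V K c j) := by field_simp
  rw [h10] at h9
  refine le_trans (le_of_eq ?_) h9
  ring

end Pool.Agent.Collatz3.QA
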