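import Pool.Agent.Collatz3.QEnt
import Pool.Agent.Collatz3.QGibbs

set_option autoImplicit false

/-!
Entropy of the Gibbs kernel.
-/

namespace Pool.Agent.Collatz3.QA

open Finset Real
open Pool.Agent.Collatz3.Mix (words Vf mem_words)

theorem Zt_pos (P : Law) (θ : ℝ) : 0 < ∑ i ∈ Icc 1 P.I, P.p i ^ θ :=
  sum_pos (fun i hi => Real.rpow_pos_of_pos (P.pos i hi) θ) ⟨1, one_mem P⟩

/-- the tilted law, proportional to `p ^ θ` -/
noncomputable def tl (P : Law) (θ : ℝ) : Law where
  I := P.I
  p i := P.p i ^ θ / ∑ i ∈ Icc 1 P.I, P.p i ^ θ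
  dvd := P.dvd
  I0 := P.I0
  pos i hi := div_pos (Real.rpow_pos_of_pos (P.pos i hi) θ) (Zt_pos P θ)
  sum := by
    rw [← sum_div]
    exact div_self (Zt_pos P θ).ne'

theorem wt_tl (P : Law) (θ : ℝ) : ∀ (n : ℕ) (w : List ℕ), w ∈ words P.I n →
    wt (tl P θ) w = wt P w ^ θ / (∑ i ∈ Icc 1 P.I, P.p i ^ θ) ^ n := by
  intro n
  induction n with
  | zero =>
    intro w hw
    rw [mem_words] at hw
    obtain ⟨h1, _⟩ := hw
    rw [List.length_eq_zero_iff] at h1
    subst h1
    simp [wt_nil]
  | succ n ih =>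
    intro w hw
    rw [mem_words] at hw
    cases w with
    | nil => simp at hw
    | cons i w =>
      have hw' : w ∈ words P.I n :=
        mem_words.2 ⟨by simpa using hw.1, fun j hj => hw.2 j (by simp [hj])⟩
      have hi : i ∈ Icc 1 P.I := mem_Icc.2 (hw.2 i (by simp))
      rw [wt_cons, wt_cons, ih w hw', Real.mul_rpow (P.pos i hi).le (wt_pos P hw').le, pow_succ]
      show P.p i ^ θ / _ * _ = _
      rw [div_mul_div_comm, mul_comm ((∑ i ∈ Icc 1 P.I, P.p i ^ θ) ^ n)]

/-- (C2) the entropy of the Gibbs kernel -/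
theorem entropy_gk (P : Law) {θ : ℝ} (hθ : 1 < θ) : ∃ C : ℝ, ∀ n : ℕ, ∀ c : ℤ, c = 1 ∨ c = 2 →
    n * (- log (∑ i ∈ Icc 1 P.I, P.p i ^ θ) - (θ - 1) * log 3) + θ * LL P c n - C ≤
      (θ - 1) * av n c (fun x => HH (gk P n) x) := by
  set Z := ∑ i ∈ Icc 1 P.I, P.p i ^ θ with hZ
  have hZ0 : 0 < Z := Zt_pos P θ
  obtain ⟨q', hq', hq1⟩ := exists_pmin (tl P θ)
  refine ⟨(θ - 1) * log 2 + log (1 / q') + log 2, fun n c hc => ?_⟩
  have key : ∀ x : ℤ, x % 3 = c % 3 →
      (n * (- log Z - (θ - 1) * log 3) - (θ - 1) * log 2 - log (1 / q')) +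
        (θ * log (M P n x) - log (M (tl P θ) n x)) ≤ (θ - 1) * HH (gk P n) x := by
    intro x hx
    have hu := not_dvd_of_mod hc hx
    have hM := M_pos P n hu
    have hM' := M_pos (tl P θ) n hu
    set a : List ℕ → ℝ := fun w => if Rd x w then 3 ^ n * wt (tl P θ) w * M P 0 (ep x w) else 0
      with ha
    have h1 := log_sum_ge (words P.I n) ((gk P n).k x) a
      (fun w _ => (gk P n).nonneg x w) ((gk P n).sum_one x hu)
      (fun w hw => by
        simp only [ha]
        by_cases h : Rd x w
        · rw [if_pos h]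
          exact mul_nonneg (mul_nonneg (by positivity) (wt_pos (tl P θ) hw).le) (M_nonneg P 0 _)
        · rw [if_neg h])
      (fun w hw h => by
        simp only [ha]
        have h' := ((gk P n).supp x w h).2
        rw [if_pos h']
        exact mul_pos (mul_pos (by positivity) (wt_pos (tl P θ) hw)) (M_pos P 0 h'.end_unit))
    -- upper bound of the sum
    have h2 : ∑ w ∈ words P.I n, a w ≤ 1 / q' * M (tl P θ) n x := by
      rw [M_eq_sum, mul_sum]
      refine sum_le_sum fun w hw => ?_
      simp only [ha]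
      by_cases h : Rd x w
      · rw [if_pos h, if_pos h]
        have h3 := M_zero_pos (tl P θ) hq' hq1 h.end_unit
        have h4 := M_zero_le P (ep x w)
        have h5 := wt_pos (tl P θ) hw
        have h6 : M P 0 (ep x w) ≤ 1 / q' * M (tl P θ) 0 (ep x w) := by
          rw [div_mul_eq_mul_div, one_mul, le_div_iff₀ hq']
          nlinarith
        calc 3 ^ n * wt (tl P θ) w * M P 0 (ep x w)
            ≤ 3 ^ n * wt (tl P θ) w * (1 / q' * M (tl P θ) 0 (ep x w)) := by gcongr
          _ = _ := by ring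
      · rw [if_neg h, if_neg h, mul_zero]
    have hpos : 0 < ∑ w ∈ words P.I n, a w := by
      obtain ⟨w, hw, h0⟩ : ∃ w ∈ words P.I n, (gk P n).k x w ≠ 0 := by
        by_contra hcon
        push Not at hcon
        have := (gk P n).sum_one x hu
        rw [gk_n, sum_eq_zero hcon] at this
        norm_num at this
      refine sum_pos' (fun w hw => ?_) ⟨w, hw, ?_⟩
      · simp only [ha]
        by_cases h : Rd x w
        · rw [if_pos h]
          exact mul_nonneg (mul_nonneg (by positivity) (wt_pos (tl P θ) hw).le) (M_nonneg P 0 _)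
        · rw [if_neg h]
      · simp only [ha]
        have h' := ((gk P n).supp x w h0).2
        rw [if_pos h']
        exact mul_pos (mul_pos (by positivity) (wt_pos (tl P θ) hw)) (M_pos P 0 h'.end_unit)
    have h3 : log (∑ w ∈ words P.I n, a w) ≤ log (1 / q') + log (M (tl P θ) n x) := by
      rw [← log_mul (by positivity) hM'.ne']
      exact log_le_log hpos h2
    -- lower bound of the left-hand side
    have h4 : (- (θ - 1) * HH (gk P n) x) + (θ * log (M P n x) - n * log Z -
        (θ - 1) * (n * log 3) - (θ - 1) * log 2) ≤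
        ∑ w ∈ words P.I n, (gk P n).k x w * log (a w / (gk P n).k x w) := by
      rw [HH, ← sum_k_mul_const (gk P n) hu (θ * log (M P n x) - n * log Z -
        (θ - 1) * (n * log 3) - (θ - 1) * log 2), gk_n, mul_sum, ← sum_add_distrib]
      refine sum_le_sum fun w hw => ?_
      by_cases h0 : (gk P n).k x w = 0
      · rw [h0]; simp
      have h' := ((gk P n).supp x w h0).2
      have hk := gk_of_rd P hw h'
      have hkp : 0 < (gk P n).k x w := lt_of_le_of_ne ((gk P n).nonneg x w) (Ne.symm h0)
      have hw0 := wt_pos P hw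
      have hm0 := M_pos P 0 h'.end_unit
      have e1 : a w / (gk P n).k x w = wt P w ^ (θ - 1) / Z ^ n * M P n x := by
        simp only [ha]
        rw [if_pos h', hk, wt_tl P θ n w hw, ← hZ]
        have e2 : wt P w ^ θ = wt P w ^ (θ - 1) * wt P w := by
          rw [← Real.rpow_add_one hw0.ne']; ring_nf
        rw [e2]
        field_simp
      have e3 : log (wt P w) = log ((gk P n).k x w) - n * log 3 - log (M P 0 (ep x w)) +
          log (M P n x) := by
        rw [hk, log_div (by positivity) hM.ne', log_mul (by positivity) hm0.ne',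
          log_mul (by positivity) hw0.ne', log_pow]
        ring
      have hr : 0 < wt P w ^ (θ - 1) := Real.rpow_pos_of_pos hw0 _
      rw [e1, log_mul (by positivity) hM.ne', log_div hr.ne' (by positivity), log_pow,
        Real.log_rpow hw0, e3, Real.negMulLog]
      have h5 := log_le_log hm0 (M_zero_le P (ep x w))
      have h6 : (gk P n).k x w * ((θ - 1) * log (M P 0 (ep x w))) ≤
          (gk P n).k x w * ((θ - 1) * log 2) :=
        mul_le_mul_of_nonneg_left (mul_le_mul_of_nonneg_left h5 (by linarith)) hkp.le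
      nlinarith
    nlinarith
  have h1 : av n c (fun x => (n * (- log Z - (θ - 1) * log 3) - (θ - 1) * log 2 - log (1 / q')) +
        (θ * log (M P n x) - log (M (tl P θ) n x))) ≤ av n c (fun x => (θ - 1) * HH (gk P n) x) :=
    av_mono key
  rw [av_add, av_const, av_sub, av_mul, av_mul] at h1
  have h2 : av n c (fun x => log (M (tl P θ) n x)) ≤ log 2 := LL_le (tl P θ) n hc
  have h3 : av n c (fun x => log (M P n x)) = LL P c n := rfl
  rw [h3] at h1
  linarith

end Pool.Agent.Collatz3.QA
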