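import Mathlib
import Pool.Agent.Collatz3.QComp
import Pool.Agent.Collatz3.QEnt
import Pool.Agent.Collatz3.QEntG
import Pool.Agent.Collatz3.QSteer

set_option autoImplicit false

/-!
Chains of super blocks; the quenched deficit vanishes if it is small.
-/

namespace Pool.Agent.Collatz3.QA

open Finset Real
open Pool.Agent.Collatz3.Mix (words Vf mem_words sum_words_zero sum_words_succ sum_words_add)

variable (P : Law)

theorem Vm_nonneg {I : ℕ} (K : Ker I) (s : ℕ) : 0 ≤ Vm K s := (V_nonneg K 1 s).trans (le_max_left _ _)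

theorem Vm_le_one {I : ℕ} (K : Ker I) (s : ℕ) : Vm K s ≤ 1 :=
  max_le (V_le_one K (Or.inl rfl) s) (V_le_one K (Or.inr rfl) s)

theorem V_le_Vm {I : ℕ} (K : Ker I) {c : ℤ} (hc : c = 1 ∨ c = 2) (s : ℕ) : V K c s ≤ Vm K s := by
  rcases hc with rfl | rfl
  · exact le_max_left _ _
  · exact le_max_right _ _

theorem Vm_comp_le {I : ℕ} (K K' : Ker I) {s : ℕ} (hs : 1 ≤ s) :
    Vm (comp K K') s ≤ Vm K (K'.n + s) * Vm K' s := by
  have key : ∀ c : ℤ, c = 1 ∨ c = 2 → V (comp K K') c s ≤ Vm K (K'.n + s) * Vm K' s := fun c hc =>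
    (V_comp_le K K' hc hs).trans
      (mul_le_mul_of_nonneg_right (V_le_Vm K hc _) (Vm_nonneg K' s))
  exact max_le (key 1 (Or.inl rfl)) (key 2 (Or.inr rfl))

/-- Probability of the class 1 after one letter. -/
theorem Pr1_gk_one : ∃ θ : ℝ, 0 < θ ∧ θ ≤ 1 ∧ ∀ c : ℤ, c = 1 ∨ c = 2 → θ ≤ Pr1 (gk P 1) c := by
  obtain ⟨q, hq, hq'⟩ := exists_pmin P
  have hq1 : q ≤ 1 := by
    have h1 := hq' 1 (one_mem P)
    have h2 := single_le_sum (f := P.p) (fun i hi => (P.pos i hi).le) (one_mem P)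
    rw [P.sum] at h2
    linarith
  refine ⟨q ^ 2, by positivity, pow_le_one₀ hq.le hq1, fun c hc => ?_⟩
  unfold Pr1
  rw [← av_const (gk P 1).n c (q ^ 2)]
  refine av_mono fun x hx => ?_
  have hu := not_dvd_of_mod hc hx
  obtain ⟨i, h1, h2, y, hy, hy3, hy1⟩ := step_exists x hu 4 (Or.inl rfl)
  have hi : i ∈ Icc 1 P.I := by
    have := six_le P
    exact mem_Icc.2 ⟨h1, by omega⟩
  have h3 : (3 : ℤ) ∣ 2 ^ i * x - 1 := ⟨y, by linarith⟩
  have h4 : nx x i = y := by
    have := nx_spec h3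
    omega
  have hw : [i] ∈ words P.I 1 := by
    rw [mem_words]
    refine ⟨rfl, ?_⟩
    intro j hj
    rw [List.mem_singleton] at hj
    rw [hj]
    exact mem_Icc.1 hi
  have hr : Rd x [i] := by
    rw [Rd_cons, Rd_nil, h4]
    exact ⟨h3, hy3⟩
  have hep : ep x [i] = y := by rw [ep_cons, ep_nil, h4]
  have hy1' : y % 3 = 1 := by rw [hy1]; norm_num
  have hmem : [i] ∈ (words P.I (gk P 1).n).filter (fun w => ep x w % 3 = 1) :=
    mem_filter.2 ⟨hw, by rw [hep]; exact hy1'⟩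
  have h5 := single_le_sum (f := fun w => (gk P 1).k x w)
    (s := (words P.I (gk P 1).n).filter (fun w => ep x w % 3 = 1))
    (fun w _ => (gk P 1).nonneg x w) hmem
  refine le_trans ?_ h5
  show q ^ 2 ≤ (gk P 1).k x [i]
  rw [gk_of_rd P hw hr, hep]
  have hM1 : M P 1 x ≤ 6 := by
    rw [show (1 : ℕ) = 0 + 1 from rfl, M_succ]
    have hle : ∀ j ∈ (Icc 1 P.I).filter (fun i => (3 : ℤ) ∣ 2 ^ i * x - 1),
        3 * P.p j * M P 0 (nx x j) ≤ 6 * P.p j := by
      intro j hj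
      have e1 := M_zero_le P (nx x j)
      have e2 := P.pos j (mem_filter.1 hj).1
      nlinarith
    refine (sum_le_sum hle).trans ?_
    rw [← mul_sum]
    have := sum_le_sum_of_subset_of_nonneg (f := P.p)
      (filter_subset (fun i => (3 : ℤ) ∣ 2 ^ i * x - 1) (Icc 1 P.I)) (fun i hi _ => (P.pos i hi).le)
    rw [P.sum] at this
    linarith
  have hM1' := M_pos P 1 hu
  rw [le_div_iff₀ hM1', wt_cons, wt_nil]
  have e1 := M_zero_pos P hq hq' hy3
  have e2 := hq' i hi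
  have e3 : q ^ 2 * M P 1 x ≤ q ^ 2 * 6 := by gcongr
  have e4 : q * (2 * q) ≤ P.p i * M P 0 y := mul_le_mul e2 e1 (by positivity) (P.pos i hi).le
  nlinarith

/-- The super block. -/
noncomputable def sb (J l : ℕ) : Ker P.I := comp (gk P 1) (comp (gk P J) (gk P l))

theorem sb_n (J l : ℕ) : (sb P J l).n = 1 + (J + l) := rfl

theorem sb_V {θ : ℝ} (hθ : ∀ c : ℤ, c = 1 ∨ c = 2 → θ ≤ Pr1 (gk P 1) c) (J l : ℕ) {T : ℕ}
    (hT : 1 ≤ T) : Vm (sb P J l) T ≤ 1 - θ * (1 - V (gk P J) 1 (l + T)) := by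
  have key : ∀ c : ℤ, c = 1 ∨ c = 2 → V (sb P J l) c T ≤ 1 - θ * (1 - V (gk P J) 1 (l + T)) := by
    intro c hc
    have h1 := V_comp_le' (gk P 1) (comp (gk P J) (gk P l)) hc hT
    have h2 := V_comp_le (gk P J) (gk P l) (Or.inl rfl : (1 : ℤ) = 1 ∨ (1 : ℤ) = 2) hT
    have h3 : V (comp (gk P J) (gk P l)) 1 T ≤ V (gk P J) 1 (l + T) := by
      refine h2.trans ?_
      calc V (gk P J) 1 ((gk P l).n + T) * Vm (gk P l) T ≤ V (gk P J) 1 ((gk P l).n + T) * 1 :=
            mul_le_mul_of_nonneg_left (Vm_le_one _ _) (V_nonneg _ _ _)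
        _ = V (gk P J) 1 (l + T) := mul_one _
    have h4 := V_le_one (gk P J) (Or.inl rfl : (1 : ℤ) = 1 ∨ (1 : ℤ) = 2) (l + T)
    have h5 := hθ c hc
    have h6 : θ * (1 - V (gk P J) 1 (l + T)) ≤
        Pr1 (gk P 1) c * (1 - V (comp (gk P J) (gk P l)) 1 T) := by
      refine (mul_le_mul_of_nonneg_right h5 (by linarith)).trans ?_
      refine mul_le_mul_of_nonneg_left (by linarith) ?_
      unfold Pr1
      rw [← av_const (gk P 1).n c 0]
      exact av_mono fun x _ => sum_nonneg fun w _ => (gk P 1).nonneg x w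
    exact h1.trans (by linarith)
  exact max_le (key 1 (Or.inl rfl)) (key 2 (Or.inr rfl))

/-- Averages over the length of the last block. -/
theorem sb_avg {θ : ℝ} (hθ0 : 0 < θ) (hθ : ∀ c : ℤ, c = 1 ∨ c = 2 → θ ≤ Pr1 (gk P 1) c)
    {κ : ℝ} {Λ J T : ℕ} (hdig : κ * J ≤ ∑ s ∈ Ico 1 (Λ * J), (1 - V (gk P J) 1 s))
    (hT : 1 ≤ T) (hT' : 2 * (T : ℝ) ≤ κ * J) :
    ∑ l ∈ Icc 1 (Λ * J), Vm (sb P J l) T ≤ Λ * J - θ * (κ * J / 2) := by
  have h1 : ∑ l ∈ Icc 1 (Λ * J), Vm (sb P J l) T ≤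
      ∑ l ∈ Icc 1 (Λ * J), (1 - θ * (1 - V (gk P J) 1 (l + T))) :=
    sum_le_sum fun l _ => sb_V P hθ J l hT
  have h2 : ∑ l ∈ Icc 1 (Λ * J), (1 - θ * (1 - V (gk P J) 1 (l + T))) =
      Λ * J - θ * ∑ l ∈ Icc 1 (Λ * J), (1 - V (gk P J) 1 (l + T)) := by
    rw [sum_sub_distrib, mul_sum]
    simp
  rw [h2] at h1
  set a : ℕ → ℝ := fun s => 1 - V (gk P J) 1 s with ha
  have ha0 : ∀ s, 0 ≤ a s := fun s => by
    have := V_le_one (gk P J) (Or.inl rfl : (1 : ℤ) = 1 ∨ (1 : ℤ) = 2) s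
    simp only [ha]; linarith
  have ha1 : ∀ s, a s ≤ 1 := fun s => by
    have := V_nonneg (gk P J) 1 s
    simp only [ha]; linarith
  have h3 : ∑ s ∈ Ico 1 (Λ * J), a s ≤ T + ∑ l ∈ Icc 1 (Λ * J), a (l + T) := by
    have e1 : ∑ l ∈ Icc 1 (Λ * J), a (l + T) = ∑ s ∈ (Icc 1 (Λ * J)).map (addRightEmbedding T), a s := by
      rw [sum_map]; rfl
    have e2 : ∑ s ∈ Icc 1 T, a s ≤ T := by
      refine (sum_le_sum fun s _ => ha1 s).trans ?_
      simp
    rw [e1]
    refine le_trans ?_ (add_le_add_left e2 _)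
    have hsub : Ico 1 (Λ * J) ⊆ Icc 1 T ∪ (Icc 1 (Λ * J)).map (addRightEmbedding T) := by
      intro s hs
      rw [mem_Ico] at hs
      rw [mem_union, mem_Icc, mem_map]
      by_cases h : s ≤ T
      · exact Or.inl ⟨hs.1, h⟩
      · refine Or.inr ⟨s - T, mem_Icc.2 ⟨by omega, by omega⟩, ?_⟩
        show s - T + T = s
        omega
    refine (sum_le_sum_of_subset_of_nonneg hsub fun s _ _ => ha0 s).trans ?_
    rw [← sum_union_inter]
    have := sum_nonneg (s := Icc 1 T ∩ (Icc 1 (Λ * J)).map (addRightEmbedding T)) fun s _ => ha0 s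
    linarith
  have h4 : κ * J / 2 ≤ ∑ l ∈ Icc 1 (Λ * J), a (l + T) := by linarith
  have h5 := mul_le_mul_of_nonneg_left h4 hθ0.le
  linarith

/-- Kernels from lists of pairs. -/
noncomputable def kl : List (ℕ × ℕ) → Ker P.I
  | [] => triv P.I
  | p :: L => comp (sb P p.1 p.2) (kl L)

theorem kl_cons_n (p : ℕ × ℕ) (L : List (ℕ × ℕ)) :
    (kl P (p :: L)).n = 1 + (p.1 + p.2) + (kl P L).n := rfl

theorem chain_family {θ : ℝ} (hθ0 : 0 < θ) (hθ : ∀ c : ℤ, c = 1 ∨ c = 2 → θ ≤ Pr1 (gk P 1) c)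
    {κ : ℝ} (hκ : 0 < κ) {Λ : ℕ} (hΛ : 0 < Λ) {n₀ : ℕ}
    (hdig : ∀ J, n₀ ≤ J → κ * J ≤ ∑ s ∈ Ico 1 (Λ * J), (1 - V (gk P J) 1 s)) (k : ℕ) :
    ∃ D : ℕ, ∀ m : ℕ, 1 ≤ m → ∃ A : Finset (List (ℕ × ℕ)), A.Nonempty ∧
      (∀ L ∈ A, L.length = k ∧ (kl P L).n ≤ D * m) ∧
      ∀ s ∈ Icc 1 m, ∑ L ∈ A, Vm (kl P L) s ≤ A.card * (1 - θ * κ / (2 * Λ)) ^ k := by
  induction k with
  | zero =>
    refine ⟨0, fun m _ => ⟨{[]}, singleton_nonempty _, ?_, ?_⟩⟩
    · intro L hL
      rw [mem_singleton] at hL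
      subst hL
      exact ⟨rfl, Nat.zero_le _⟩
    · intro s _
      simpa using Vm_le_one (kl P []) s
  | succ k ih =>
    obtain ⟨D, hD⟩ := ih
    obtain ⟨E, hE1, hE2, hE3⟩ : ∃ E : ℕ, 2 ≤ κ * E ∧ n₀ ≤ E ∧ 1 ≤ E := by
      obtain ⟨E, hE⟩ := exists_nat_ge (2 / κ)
      refine ⟨max E (max n₀ 1), ?_, by simp, by simp⟩
      rw [div_le_iff₀ hκ] at hE
      have : (E : ℝ) ≤ (max E (max n₀ 1) : ℕ) := by exact_mod_cast le_max_left _ _
      nlinarith
    refine ⟨1 + (1 + Λ) * (E * (D + 1)) + D, fun m hm => ?_⟩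
    obtain ⟨A, hA1, hA2, hA3⟩ := hD m hm
    set J := E * (D + 1) * m with hJ
    have hJ1 : n₀ ≤ J := by
      calc n₀ ≤ E := hE2
        _ ≤ E * ((D + 1) * m) := Nat.le_mul_of_pos_right _ (by positivity)
        _ = J := by rw [hJ]; ring
    set f : ℕ × List (ℕ × ℕ) → List (ℕ × ℕ) := fun p => (J, p.1) :: p.2 with hf
    have hinj : Set.InjOn f (Icc 1 (Λ * J) ×ˢ A : Finset _) := by
      rintro ⟨l, L⟩ _ ⟨l', L'⟩ _ h
      simp only [hf, List.cons.injEq, Prod.mk.injEq, true_and] at h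
      exact Prod.ext h.1 h.2
    have hJ0 : 1 ≤ Λ * J := by
      have : 0 < J := by rw [hJ]; positivity
      exact Nat.mul_pos hΛ this
    refine ⟨(Icc 1 (Λ * J) ×ˢ A).image f, ?_, ?_, ?_⟩
    · exact (Nonempty.product ⟨1, mem_Icc.2 ⟨le_rfl, hJ0⟩⟩ hA1).image f
    · intro L hL
      rw [mem_image] at hL
      obtain ⟨⟨l, L⟩, hp, rfl⟩ := hL
      rw [mem_product, mem_Icc] at hp
      obtain ⟨h1, h2⟩ := hA2 L hp.2
      refine ⟨by simp [hf, h1], ?_⟩
      rw [hf, kl_cons_n]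
      have h3 : l ≤ Λ * J := hp.1.2
      have h4 : (1 + (1 + Λ) * (E * (D + 1)) + D) * m = m + (1 + Λ) * J + D * m := by
        rw [hJ]; ring
      rw [h4]
      have h5 : (1 + Λ) * J = J + Λ * J := by ring
      simp only
      omega
    · intro s hs
      rw [mem_Icc] at hs
      rw [sum_image hinj, sum_product_right, card_image_of_injOn hinj, card_product, Nat.card_Icc]
      have hrate : ∀ L ∈ A, ∑ l ∈ Icc 1 (Λ * J), Vm (kl P (f (l, L))) s ≤
          (Λ * J - θ * (κ * J / 2)) * Vm (kl P L) s := by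
        intro L hL
        have h1 : ∀ l ∈ Icc 1 (Λ * J), Vm (kl P (f (l, L))) s ≤
            Vm (sb P J l) ((kl P L).n + s) * Vm (kl P L) s := fun l _ =>
          Vm_comp_le (sb P J l) (kl P L) hs.1
        refine (sum_le_sum h1).trans ?_
        rw [← sum_mul]
        refine mul_le_mul_of_nonneg_right ?_ (Vm_nonneg _ _)
        refine sb_avg P hθ0 hθ (hdig J hJ1) (by omega) ?_
        have h2 : (kl P L).n + s ≤ (D + 1) * m := by
          have := (hA2 L hL).2
          calc (kl P L).n + s ≤ D * m + m := by omega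
            _ = (D + 1) * m := by ring
        have h3 : (((kl P L).n + s : ℕ) : ℝ) ≤ ((D + 1) * m : ℕ) := by exact_mod_cast h2
        have h4 : κ * J = (κ * E) * ((D + 1) * m : ℕ) := by
          rw [hJ]; push_cast; ring
        rw [h4]
        have h5 : (0 : ℝ) ≤ ((D + 1) * m : ℕ) := Nat.cast_nonneg _
        nlinarith
      refine (sum_le_sum hrate).trans ?_
      rw [← mul_sum]
      have hpos : 0 ≤ (Λ * J - θ * (κ * J / 2) : ℝ) := by
        have h1 := sum_nonneg (s := Icc 1 (Λ * J)) (f := fun l => Vm (sb P J l) ((kl P []).n + 1))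
          fun l _ => Vm_nonneg _ _
        refine h1.trans (sb_avg P hθ0 hθ (hdig J hJ1) (by omega) ?_)
        have h3 : (kl P []).n + 1 ≤ (D + 1) * m := by
          show 0 + 1 ≤ (D + 1) * m
          have : 0 < (D + 1) * m := by positivity
          omega
        have h3' : (((kl P []).n + 1 : ℕ) : ℝ) ≤ ((D + 1) * m : ℕ) := by exact_mod_cast h3
        have h4 : κ * J = (κ * E) * ((D + 1) * m : ℕ) := by
          rw [hJ]; push_cast; ring
        rw [h4]
        have h5 : (0 : ℝ) ≤ ((D + 1) * m : ℕ) := Nat.cast_nonneg _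
        nlinarith
      refine (mul_le_mul_of_nonneg_left (hA3 s (mem_Icc.2 hs)) hpos).trans (le_of_eq ?_)
      have hΛ' : (0 : ℝ) < Λ := by exact_mod_cast hΛ
      rw [Nat.add_sub_cancel]
      push_cast
      rw [pow_succ]
      field_simp

/-- The lower energy of a kernel. -/
noncomputable def El (K : Ker P.I) : ℝ :=
  min (av K.n 1 (fun x => En P K x)) (av K.n 2 (fun x => En P K x))

theorem El_comp (K K' : Ker P.I) : El P K + El P K' ≤ El P (comp K K') := by
  have key : ∀ c : ℤ, c = 1 ∨ c = 2 →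
      El P K + El P K' ≤ av (comp K K').n c (fun x => En P (comp K K') x) := by
    intro c hc
    have e1 : (fun x => En P (comp K K') x) = fun x => En P K x +
        ∑ v ∈ words P.I K.n, K.k x v * En P K' (ep x v) := by
      funext x
      exact En_comp P K K'
    rw [e1, av_add, comp_n]
    have e2 : av (K.n + K'.n) c (fun x => En P K x) = av K.n c (fun x => En P K x) :=
      av_per (fun z z' h => En_per P K h) c
    have hper : ∀ z z' : ℤ, (3 : ℤ) ^ (K'.n + 1) ∣ z - z' → En P K' z = En P K' z' :=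
      fun z z' h => En_per P K' h
    rw [e2, av_comp K hper c]
    have h1 : El P K ≤ av K.n c (fun x => En P K x) := by
      rcases hc with rfl | rfl
      · exact min_le_left _ _
      · exact min_le_right _ _
    have h3 : El P K' ≤ av K.n c (fun x =>
        ∑ v ∈ words P.I K.n, K.k x v * av K'.n (ep x v) (fun x => En P K' x)) := by
      rw [← av_const K.n c (El P K')]
      refine av_mono fun x hx => ?_
      rw [← sum_k_mul_const K (not_dvd_of_mod hc hx) (El P K')]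
      refine sum_le_sum fun v _ => ?_
      by_cases h : K.k x v = 0
      · rw [h]; simp
      · exact mul_le_mul_of_nonneg_left (av_end_ge hper (K.supp x v h).2.end_unit) (K.nonneg x v)
    linarith
  exact le_min (key 1 (Or.inl rfl)) (key 2 (Or.inr rfl))

theorem El_gk (n : ℕ) : Lm P n - log 2 ≤ El P (gk P n) := by
  have key : ∀ c : ℤ, c = 1 ∨ c = 2 → Lm P n - log 2 ≤ av n c (fun x => En P (gk P n) x) := by
    intro c hc
    have h1 : LL P c n - log 2 ≤ av n c (fun x => En P (gk P n) x) := by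
      rw [LL, ← av_const n c (log 2), ← av_sub]
      exact av_mono fun x hx => En_gk P n (not_dvd_of_mod hc hx)
    have h2 : Lm P n ≤ LL P c n := by
      unfold Lm
      rcases hc with rfl | rfl
      · exact min_le_left _ _
      · exact min_le_right _ _
    linarith
  exact le_min (key 1 (Or.inl rfl)) (key 2 (Or.inr rfl))

theorem El_triv : 0 ≤ El P (triv P.I) := by
  have key : ∀ c : ℤ, c = 1 ∨ c = 2 → (0 : ℝ) ≤ av (triv P.I).n c (fun x => En P (triv P.I) x) := by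
    intro c hc
    rw [← av_const (triv P.I).n c 0]
    refine av_mono fun x hx => ?_
    have hu := not_dvd_of_mod hc hx
    show (0 : ℝ) ≤ ∑ w ∈ words P.I 0, (triv P.I).k x w * log (3 ^ 0 * wt P w / (triv P.I).k x w)
    rw [sum_words_zero]
    simp [triv, hu, wt_nil]
  exact le_min (key 1 (Or.inl rfl)) (key 2 (Or.inr rfl))

theorem El_kl {δ C : ℝ} (hC : ∀ n : ℕ, -((qd P + δ) * n) - C ≤ Lm P n) (L : List (ℕ × ℕ)) :
    -((qd P + δ) * (kl P L).n) - L.length * (3 * (C + log 2)) ≤ El P (kl P L) := by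
  induction L with
  | nil =>
    have := El_triv P
    show -((qd P + δ) * ((0 : ℕ) : ℝ)) - (([] : List (ℕ × ℕ)).length : ℝ) * (3 * (C + log 2)) ≤
      El P (triv P.I)
    simpa using this
  | cons p L ih =>
    have h1 : El P (sb P p.1 p.2) + El P (kl P L) ≤ El P (kl P (p :: L)) := El_comp P _ _
    have h2 : El P (gk P 1) + El P (comp (gk P p.1) (gk P p.2)) ≤ El P (sb P p.1 p.2) :=
      El_comp P _ _
    have h3 := El_comp P (gk P p.1) (gk P p.2)
    have g1 := El_gk P 1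
    have g2 := El_gk P p.1
    have g3 := El_gk P p.2
    have c1 := hC 1
    have c2 := hC p.1
    have c3 := hC p.2
    rw [kl_cons_n, List.length_cons]
    push_cast at c1 ⊢
    linarith

/-- If the digits of Gibbs blocks are non degenerate then the quenched deficit vanishes. -/
theorem qd_zero {κ : ℝ} (hκ : 0 < κ) {Λ : ℕ} (hΛ : 0 < Λ) {n₀ : ℕ}
    (hdig : ∀ J, n₀ ≤ J → κ * J ≤ ∑ s ∈ Ico 1 (Λ * J), (1 - V (gk P J) 1 s)) : qd P = 0 := by
  obtain ⟨θ, hθ0, hθ1, hθ⟩ := Pr1_gk_one P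
  obtain ⟨C, hC0, hC⟩ := steer P
  set ε : ℝ := 1 - θ * κ / (2 * Λ) with hε
  have hΛ' : (0 : ℝ) < Λ := by exact_mod_cast hΛ
  have hκΛ : κ ≤ Λ := by
    have h1 := hdig (n₀ + 1) (by omega)
    have h2 : ∑ s ∈ Ico 1 (Λ * (n₀ + 1)), (1 - V (gk P (n₀ + 1)) 1 s) ≤ Λ * (n₀ + 1 : ℕ) := by
      refine (sum_le_sum (g := fun _ => (1 : ℝ)) fun s _ => ?_).trans ?_
      · have := V_nonneg (gk P (n₀ + 1)) 1 s
        linarith
      · rw [sum_const, Nat.card_Ico, nsmul_eq_mul, mul_one]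
        have : ((Λ * (n₀ + 1) - 1 : ℕ) : ℝ) ≤ ((Λ * (n₀ + 1) : ℕ) : ℝ) := by
          exact_mod_cast Nat.sub_le _ _
        refine this.trans (le_of_eq ?_)
        push_cast
        ring
    have h3 : (0 : ℝ) < ((n₀ + 1 : ℕ) : ℝ) := by positivity
    exact le_of_mul_le_mul_right (h1.trans h2) h3
  have hε1 : ε < 1 := by
    have : 0 < θ * κ / (2 * Λ) := by positivity
    rw [hε]; linarith
  have hε0 : 0 ≤ ε := by
    have : θ * κ / (2 * Λ) ≤ 1 := by
      rw [div_le_one (by positivity)]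
      nlinarith
    rw [hε]; linarith
  -- the main inequality
  have main : ∀ (k : ℕ), ∃ D : ℕ, ∀ δ : ℝ, 0 < δ → qd P ≤ δ * D + C * ε ^ k := by
    intro k
    obtain ⟨D, hD⟩ := chain_family P hθ0 hθ hκ hΛ hdig k
    refine ⟨D, fun δ hδ => ?_⟩
    obtain ⟨B, hB0, hB⟩ := Lm_ge_qd P hδ
    set G : ℝ := k * (3 * (B + log 2)) + C + log 2 with hG
    have step : ∀ m : ℕ, 1 ≤ m → qd P * m ≤ (δ * D + C * ε ^ k) * m + G := by
      intro m hm
      obtain ⟨A, hA1, hA2, hA3⟩ := hD m hm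
      have h1 : ∑ L ∈ A, ∑ s ∈ Icc 1 m, Vm (kl P L) s ≤ ∑ L ∈ A, (m * ε ^ k) := by
        rw [sum_comm, sum_const, nsmul_eq_mul]
        refine (sum_le_sum hA3).trans ?_
        rw [sum_const, Nat.card_Icc, nsmul_eq_mul, Nat.add_sub_cancel, ← hε]
        exact le_of_eq (by ring)
      obtain ⟨L, hL, hL2⟩ := exists_le_of_sum_le hA1 h1
      obtain ⟨hL3, hL4⟩ := hA2 L hL
      set K := kl P L with hK
      have h2 : ∀ c : ℤ, c = 1 ∨ c = 2 →
          El P K - C - C * ∑ s ∈ Icc 1 m, Vm K s ≤ LL P c (K.n + m) := by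
        intro c hc
        rw [LL, av_split]
        have h3 : av K.n c (fun x => En P K x - C - C * ∑ s ∈ Icc 1 m, Q K x s) ≤
            av K.n c (fun x => (∑ j ∈ range (3 ^ m),
              log (M P (K.n + m) (x + 3 ^ (K.n + 1) * j))) / 3 ^ m) :=
          av_mono fun x hx => hC K m x (not_dvd_of_mod hc hx)
        refine le_trans ?_ h3
        rw [av_sub, av_sub, av_const, av_mul, av_sum]
        have h4 : El P K ≤ av K.n c (fun x => En P K x) := by
          rcases hc with rfl | rfl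
          · exact min_le_left _ _
          · exact min_le_right _ _
        have h5 : ∑ s ∈ Icc 1 m, av K.n c (fun x => Q K x s) ≤ ∑ s ∈ Icc 1 m, Vm K s :=
          sum_le_sum fun s _ => V_le_Vm K hc s
        have h6 := mul_le_mul_of_nonneg_left h5 hC0
        linarith
      have h3 : El P K - C - C * ∑ s ∈ Icc 1 m, Vm K s ≤ Lm P (K.n + m) :=
        le_min (h2 1 (Or.inl rfl)) (h2 2 (Or.inr rfl))
      have h4 := Lm_le_qd P (K.n + m)
      have h5 := El_kl P hB L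
      rw [← hK, hL3] at h5
      have h6 := mul_le_mul_of_nonneg_left hL2 hC0
      have h7 : δ * K.n ≤ δ * (D * m) := by
        have : (K.n : ℝ) ≤ (D * m : ℕ) := by exact_mod_cast hL4
        push_cast at this
        exact mul_le_mul_of_nonneg_left this hδ.le
      push_cast at h4
      rw [hG]
      nlinarith
    by_contra hcon
    push Not at hcon
    obtain ⟨m, hm⟩ := exists_nat_gt (G / (qd P - (δ * D + C * ε ^ k)))
    have hpos : 0 < qd P - (δ * D + C * ε ^ k) := by linarith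
    rw [div_lt_iff₀ hpos] at hm
    have hm1 : 1 ≤ m := by
      rcases Nat.eq_zero_or_pos m with rfl | h
      · exfalso
        have : 0 ≤ G := by
          have : 0 ≤ log 2 := log_nonneg (by norm_num)
          rw [hG]; positivity
        push_cast at hm
        linarith
      · exact h
    have := step m hm1
    linarith
  have main2 : ∀ k : ℕ, qd P ≤ C * ε ^ k := by
    intro k
    obtain ⟨D, hD⟩ := main k
    refine le_of_forall_pos_le_add fun η hη => ?_
    have h1 := hD (η / (D + 1)) (by positivity)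
    have h2 : η / (D + 1) * D ≤ η := by
      rw [div_mul_eq_mul_div, div_le_iff₀ (by positivity)]
      nlinarith
    linarith
  have hlim : Filter.Tendsto (fun k : ℕ => C * ε ^ k) Filter.atTop (nhds (C * 0)) :=
    (tendsto_pow_atTop_nhds_zero_of_lt_one hε0 hε1).const_mul C
  rw [mul_zero] at hlim
  exact le_antisymm (ge_of_tendsto' hlim main2) (qd_nonneg P)

/-- If the deficit is small compared to the Renyi entropy gap, it vanishes. -/
theorem qd_zero_of_small {θ h : ℝ} (hθ : 1 < θ)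
    (hP : ∑ i ∈ Icc 1 P.I, P.p i ^ θ ≤ exp (-((θ - 1) * (log 3 + h))))
    (hq : qd P < h * (θ - 1) / θ) : qd P = 0 := by
  obtain ⟨C, hC⟩ := entropy_gk P hθ
  have hθ0 : 0 < θ := by linarith
  have hθ1 : 0 < θ - 1 := by linarith
  have hZ : 0 < ∑ i ∈ Icc 1 P.I, P.p i ^ θ :=
    sum_pos (fun i hi => rpow_pos_of_pos (P.pos i hi) θ) ⟨1, one_mem P⟩
  have hlogZ := log_le_log hZ hP
  rw [log_exp] at hlogZ
  -- choose δ
  set δ : ℝ := (h * (θ - 1) / θ - qd P) / 2 with hδ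
  have hδ0 : 0 < δ := by rw [hδ]; linarith
  obtain ⟨B, hB0, hB⟩ := Lm_ge_qd P hδ0
  set h' : ℝ := θ * δ / (2 * (θ - 1)) with hh'
  have hh0 : 0 < h' := by positivity
  obtain ⟨κ, hκ, n₀, hdig⟩ := digits P.I P.I0 hh0
  obtain ⟨n₁, hn₁⟩ := exists_nat_ge (2 * (C + θ * B) / (θ * δ))
  refine qd_zero P hκ (Λ := P.I + 2) (by omega) (n₀ := max n₀ n₁) fun J hJ => ?_
  have hJ0 : n₀ ≤ J := (le_max_left _ _).trans hJ
  have hJ1 : (n₁ : ℝ) ≤ J := by exact_mod_cast (le_max_right _ _).trans hJ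
  refine hdig (gk P J) hJ0 1 (Or.inl rfl) ?_
  show h' * (J : ℝ) ≤ av J 1 (fun x => HH (gk P J) x)
  have h1 := hC J 1 (Or.inl rfl)
  have h2 : Lm P J ≤ LL P 1 J := min_le_left _ _
  have h3 := hB J
  have hJn : (0 : ℝ) ≤ J := Nat.cast_nonneg J
  have h4 : (h * (θ - 1)) = θ * (qd P + 2 * δ) := by
    rw [hδ]; field_simp; ring
  have h5 : 2 * (C + θ * B) ≤ θ * δ * J := by
    have := hn₁.trans hJ1
    rw [div_le_iff₀ (by positivity)] at this
    linarith
  have h6 : (J : ℝ) * ((θ - 1) * h) ≤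
      J * (-log (∑ i ∈ Icc 1 P.I, P.p i ^ θ) - (θ - 1) * log 3) := by
    refine mul_le_mul_of_nonneg_left ?_ hJn
    linarith
  have h7 : θ * (-((qd P + δ) * J) - B) ≤ θ * LL P 1 J :=
    mul_le_mul_of_nonneg_left (h3.trans h2) hθ0.le
  have h8 : (θ - 1) * (h' * J) = θ * δ * J / 2 := by
    rw [hh']; field_simp
  have h9 : (θ - 1) * (h' * J) ≤ (θ - 1) * av J 1 (fun x => HH (gk P J) x) := by
    rw [h8]
    refine le_trans ?_ h1
    nlinarith
  exact le_of_mul_le_mul_left h9 hθ1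

end Pool.Agent.Collatz3.QA
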