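import Mathlib
import Pool.Agent.Collatz3.QChain

set_option autoImplicit false

/-!
The path from the uniform law; quenched = annealed.
-/

namespace Pool.Agent.Collatz3.QA

open Finset Real
open Pool.Agent.Collatz3.Mix (words Vf mem_words sum_words_zero sum_words_succ sum_words_add)

/-! ### Change of the law -/

/-- Mixture with the uniform law. -/
noncomputable def mix (P : Law) (t : ℝ) (h0 : 0 ≤ t) (h1 : t ≤ 1) : Law where
  I := P.I
  p i := t * P.p i + (1 - t) * (1 / P.I)
  dvd := P.dvd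
  I0 := P.I0
  pos i hi := by
    have hp := P.pos i hi
    have hI : (0 : ℝ) < 1 / P.I := by
      have : (0 : ℝ) < P.I := by exact_mod_cast P.I0
      positivity
    rcases h0.eq_or_lt with h | h
    · rw [← h]; simpa using P.I0
    · have : 0 ≤ (1 - t) * (1 / P.I) := mul_nonneg (by linarith) hI.le
      have : 0 < t * P.p i := by positivity
      linarith
  sum := by
    have hI : (P.I : ℝ) ≠ 0 := by exact_mod_cast P.I0.ne'
    rw [sum_add_distrib, ← mul_sum, P.sum, sum_const, Nat.card_Icc, Nat.add_sub_cancel, nsmul_eq_mul]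
    field_simp
    ring

theorem mix_I (P : Law) (t : ℝ) (h0 : 0 ≤ t) (h1 : t ≤ 1) : (mix P t h0 h1).I = P.I := rfl

theorem mix_p (P : Law) (t : ℝ) (h0 : 0 ≤ t) (h1 : t ≤ 1) (i : ℕ) :
    (mix P t h0 h1).p i = t * P.p i + (1 - t) * (1 / P.I) := rfl

theorem M_le_of_ratio {P P' : Law} (hI : P.I = P'.I) {ε : ℝ}
    (h : ∀ i ∈ Icc 1 P.I, P.p i ≤ exp ε * P'.p i) (n : ℕ) (x : ℤ) :
    M P n x ≤ exp (ε * (n + 1)) * M P' n x := by
  induction n generalizing x with
  | zero =>
    rw [M, M, ← hI]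
    push_cast
    rw [zero_add, mul_one, mul_left_comm, mul_sum _ _ (exp ε)]
    refine mul_le_mul_of_nonneg_left ?_ (by norm_num)
    exact sum_le_sum fun i hi => h i (mem_filter.1 hi).1
  | succ n ih =>
    rw [M_succ, M_succ, ← hI, mul_sum]
    refine sum_le_sum fun i hi => ?_
    have h1 := h i (mem_filter.1 hi).1
    have h2 := ih (nx x i)
    have h3 := P.pos i (mem_filter.1 hi).1
    have h4 := M_nonneg P n (nx x i)
    have h5 := M_nonneg P' n (nx x i)
    have h6 : 0 < P'.p i := P'.pos i (by rw [← hI]; exact (mem_filter.1 hi).1)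
    calc 3 * P.p i * M P n (nx x i)
        ≤ 3 * (exp ε * P'.p i) * (exp (ε * (n + 1)) * M P' n (nx x i)) := by
          refine mul_le_mul (by linarith) h2 h4 (by positivity)
      _ = exp (ε * ((n + 1 : ℕ) + 1)) * (3 * P'.p i * M P' n (nx x i)) := by
          have : exp (ε * ((n + 1 : ℕ) + 1)) = exp ε * exp (ε * (n + 1)) := by
            rw [← exp_add]; congr 1; push_cast; ring
          rw [this]; ring

theorem qd_le_of_ratio {P P' : Law} (hI : P.I = P'.I) {ε : ℝ}
    (h : ∀ i ∈ Icc 1 P.I, P.p i ≤ exp ε * P'.p i) : qd P' ≤ qd P + ε := by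
  have h1 : ∀ (n : ℕ) (c : ℤ), c = 1 ∨ c = 2 → LL P c n ≤ ε * (n + 1) + LL P' c n := by
    intro n c hc
    rw [LL, LL, ← av_const n c (ε * (n + 1)), ← av_add]
    refine av_mono fun x hx => ?_
    have hu := not_dvd_of_mod hc hx
    have h2 := log_le_log (M_pos P n hu) (M_le_of_ratio hI h n x)
    rw [log_mul (exp_pos _).ne' (M_pos P' n hu).ne', log_exp] at h2
    exact h2
  have h2 : ∀ n : ℕ, Lm P n - ε * (n + 1) ≤ Lm P' n := by
    intro n
    have h3 := h1 n 1 (Or.inl rfl)
    have h4 := h1 n 2 (Or.inr rfl)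
    have h5 : Lm P n ≤ LL P 1 n := min_le_left _ _
    have h6 : Lm P n ≤ LL P 2 n := min_le_right _ _
    refine le_min ?_ ?_ <;> linarith
  have h3 : ∀ n : ℕ, 1 ≤ n → qd P' ≤ (log 2 - Lm P n) / n + ε * ((n + 1) / n) + 0 / n := by
    intro n hn
    have h4 := Lm_le_qd P' n
    have h5 := h2 n
    have hn' : (0 : ℝ) < n := by exact_mod_cast hn
    have h6 : qd P' * n ≤ (log 2 - Lm P n) + ε * (n + 1) := by linarith
    have h7 : qd P' ≤ ((log 2 - Lm P n) + ε * (n + 1)) / n := by
      rw [le_div_iff₀ hn']; exact h6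
    refine h7.trans (le_of_eq ?_)
    ring
  have h4 := (subadd P).tendsto_lim (bdd P)
  have h5 : Filter.Tendsto (fun n : ℕ => ((n : ℝ) + 1) / n) Filter.atTop (nhds 1) := by
    have h6 : Filter.Tendsto (fun n : ℕ => 1 + 1 / (n : ℝ)) Filter.atTop (nhds (1 + 0)) :=
      (tendsto_one_div_atTop_nhds_zero_nat).const_add 1
    rw [add_zero] at h6
    refine h6.congr' ?_
    filter_upwards [Filter.eventually_gt_atTop 0] with n hn
    have hn' : (n : ℝ) ≠ 0 := by
      have : 0 < n := hn
      positivity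
    field_simp
  have h7 := h4.add (h5.const_mul ε)
  rw [mul_one] at h7
  refine ge_of_tendsto h7 ?_
  filter_upwards [Filter.eventually_ge_atTop 1] with n hn
  have := h3 n hn
  rw [zero_div, add_zero] at this
  exact this

/-! ### The uniform law -/

theorem sum_period {f : ℕ → ℝ} (hf : ∀ i, f (i + 6) = f i) (k : ℕ) :
    ∑ i ∈ Icc 1 (6 * k), f i = k * ∑ i ∈ Icc 1 6, f i := by
  induction k with
  | zero => simp
  | succ k ih =>
    have hper : ∀ k i : ℕ, f (6 * k + i) = f i := by
      intro k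
      induction k with
      | zero => intro i; simp
      | succ k ih2 =>
        intro i
        rw [show 6 * (k + 1) + i = (6 * k + i) + 6 by ring, hf, ih2]
    have h1 : ∑ i ∈ Icc 1 (6 * (k + 1)), f i = ∑ i ∈ Icc 1 (6 * k), f i +
        ∑ i ∈ Icc 1 6, f (6 * k + i) := by
      have : Icc 1 (6 * (k + 1)) = Icc 1 (6 * k) ∪ (Icc 1 6).map (addLeftEmbedding (6 * k)) := by
        ext j
        simp only [mem_Icc, mem_union, mem_map, addLeftEmbedding_apply]
        constructor
        · rintro ⟨h1, h2⟩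
          by_cases h : j ≤ 6 * k
          · exact Or.inl ⟨h1, h⟩
          · exact Or.inr ⟨j - 6 * k, ⟨by omega, by omega⟩, by omega⟩
        · rintro (⟨h1, h2⟩ | ⟨i, ⟨h1, h2⟩, rfl⟩)
          · exact ⟨h1, by omega⟩
          · exact ⟨by omega, by omega⟩
      rw [this, sum_union, sum_map]
      · rfl
      · rw [disjoint_left]
        intro j h1 h2
        simp only [mem_Icc, mem_map, addLeftEmbedding_apply] at h1 h2
        obtain ⟨i, ⟨h3, h4⟩, rfl⟩ := h2
        omega
    rw [h1, ih, sum_congr rfl fun i _ => hper k i]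
    push_cast
    ring

theorem read_period (x : ℤ) (i : ℕ) : (3 : ℤ) ∣ 2 ^ (i + 6) * x - 1 ↔ (3 : ℤ) ∣ 2 ^ i * x - 1 := by
  rw [pow_add]
  generalize hu : (2 : ℤ) ^ i * x = u
  have : (2 : ℤ) ^ i * 2 ^ 6 * x = 64 * u := by rw [← hu]; ring
  rw [this]
  omega

theorem Icc_one_six : Icc 1 6 = {1, 2, 3, 4, 5, 6} := by decide

theorem M_unif {P : Law} (hp : ∀ i ∈ Icc 1 P.I, P.p i = 1 / P.I) (n : ℕ) {x : ℤ}
    (hx : ¬ (3 : ℤ) ∣ x) : M P n x = 1 := by
  obtain ⟨k, hk⟩ := P.dvd
  have hI : (P.I : ℝ) = 6 * k := by rw [hk]; push_cast; ring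
  have hk0 : (k : ℝ) ≠ 0 := by
    have h1 : (0 : ℝ) < P.I := by exact_mod_cast P.I0
    intro h
    rw [hI, h] at h1
    norm_num at h1
  induction n generalizing x with
  | zero =>
    rw [M, sum_filter]
    have h1 : ∀ i ∈ Icc 1 P.I, (if (3 : ℤ) ∣ 2 ^ i * x - 1 then P.p i else 0) =
        (1 / P.I) * (if (3 : ℤ) ∣ 2 ^ i * x - 1 then (1 : ℝ) else 0) := by
      intro i hi
      rw [hp i hi]
      split_ifs <;> simp
    rw [sum_congr rfl h1, ← mul_sum, hk,
      sum_period (f := fun i => if (3 : ℤ) ∣ 2 ^ i * x - 1 then (1 : ℝ) else 0)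
        (fun i => by simp only [read_period]) k]
    have h2 : ∑ i ∈ Icc 1 6, (if (3 : ℤ) ∣ 2 ^ i * x - 1 then (1 : ℝ) else 0) = 3 := by
      rw [Icc_one_six]
      rw [sum_insert (by decide), sum_insert (by decide), sum_insert (by decide),
        sum_insert (by decide), sum_insert (by decide), sum_singleton]
      rcases (by omega : x % 3 = 1 ∨ x % 3 = 2) with h | h
      · rw [if_neg (by omega), if_pos (by omega), if_neg (by omega), if_pos (by omega),
          if_neg (by omega), if_pos (by omega)]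
        norm_num
      · rw [if_pos (by omega), if_neg (by omega), if_pos (by omega), if_neg (by omega),
          if_pos (by omega), if_neg (by omega)]
        norm_num
    rw [h2]
    push_cast
    field_simp
    norm_num
  | succ n ih =>
    rw [M_succ, sum_filter]
    have h1 : ∀ i ∈ Icc 1 P.I, (if (3 : ℤ) ∣ 2 ^ i * x - 1 then 3 * P.p i * M P n (nx x i) else 0) =
        (3 / P.I) * (if (2 ^ i * x) % 9 = 4 ∨ (2 ^ i * x) % 9 = 7 then (1 : ℝ) else 0) := by
      intro i hi
      by_cases h : (3 : ℤ) ∣ 2 ^ i * x - 1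
      · have h2 := nx_spec h
        rw [if_pos h, hp i hi]
        by_cases h3 : (3 : ℤ) ∣ nx x i
        · rw [M_zero_of_dvd P n h3, if_neg (by omega)]
          ring
        · rw [ih h3, if_pos (by omega)]
          ring
      · rw [if_neg h, if_neg (by omega), mul_zero]
    have hper : ∀ i, (fun i : ℕ => if (2 ^ i * x) % 9 = 4 ∨ (2 ^ i * x) % 9 = 7 then (1 : ℝ) else 0)
        (i + 6) = (fun i : ℕ => if (2 ^ i * x) % 9 = 4 ∨ (2 ^ i * x) % 9 = 7 then (1 : ℝ) else 0) i := by
      intro i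
      have : ((2 : ℤ) ^ (i + 6) * x) % 9 = (2 ^ i * x) % 9 := by
        rw [pow_add]
        generalize hu : (2 : ℤ) ^ i * x = u
        have : (2 : ℤ) ^ i * 2 ^ 6 * x = 64 * u := by rw [← hu]; ring
        rw [this]
        omega
      simp only [this]
    rw [sum_congr rfl h1, ← mul_sum, hk,
      sum_period (f := fun i : ℕ => if (2 ^ i * x) % 9 = 4 ∨ (2 ^ i * x) % 9 = 7 then (1 : ℝ) else 0)
        hper k]
    have h2 : ∑ i ∈ Icc 1 6, (if (2 ^ i * x) % 9 = 4 ∨ (2 ^ i * x) % 9 = 7 then (1 : ℝ) else 0) = 2 := by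
      rw [Icc_one_six]
      rw [sum_insert (by decide), sum_insert (by decide), sum_insert (by decide),
        sum_insert (by decide), sum_insert (by decide), sum_singleton]
      rcases (by omega : x % 9 = 1 ∨ x % 9 = 2 ∨ x % 9 = 4 ∨ x % 9 = 5 ∨ x % 9 = 7 ∨ x % 9 = 8) with
        h | h | h | h | h | h
      · rw [if_neg (by omega), if_pos (by omega), if_neg (by omega), if_pos (by omega),
          if_neg (by omega), if_neg (by omega)]
        norm_num
      · rw [if_pos (by omega), if_neg (by omega), if_pos (by omega), if_neg (by omega),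
          if_neg (by omega), if_neg (by omega)]
        norm_num
      · rw [if_neg (by omega), if_pos (by omega), if_neg (by omega), if_neg (by omega),
          if_neg (by omega), if_pos (by omega)]
        norm_num
      · rw [if_neg (by omega), if_neg (by omega), if_pos (by omega), if_neg (by omega),
          if_pos (by omega), if_neg (by omega)]
        norm_num
      · rw [if_neg (by omega), if_neg (by omega), if_neg (by omega), if_pos (by omega),
          if_neg (by omega), if_pos (by omega)]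
        norm_num
      · rw [if_pos (by omega), if_neg (by omega), if_neg (by omega), if_neg (by omega),
          if_pos (by omega), if_neg (by omega)]
        norm_num
    rw [h2]
    push_cast
    field_simp
    norm_num

theorem qd_unif {P : Law} (hp : ∀ i ∈ Icc 1 P.I, P.p i = 1 / P.I) : qd P = 0 := by
  have h1 : ∀ n, Lm P n = 0 := by
    intro n
    have key : ∀ c : ℤ, c = 1 ∨ c = 2 → LL P c n = 0 := by
      intro c hc
      rw [LL, ← av_const n c 0]
      exact av_congr fun x hx => by rw [M_unif hp n (not_dvd_of_mod hc hx), log_one]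
    rw [Lm, key 1 (Or.inl rfl), key 2 (Or.inr rfl), min_self]
  have h2 : ∀ n : ℕ, qd P * n ≤ log 2 := by
    intro n
    have := Lm_le_qd P n
    rw [h1] at this
    linarith
  by_contra h
  have hpos : 0 < qd P := lt_of_le_of_ne (qd_nonneg P) (Ne.symm h)
  obtain ⟨n, hn⟩ := exists_nat_gt (log 2 / qd P)
  rw [div_lt_iff₀ hpos] at hn
  have := h2 n
  linarith

/-! ### Renyi entropies -/

theorem renyi_mix (P : Law) {t : ℝ} (h0 : 0 ≤ t) (h1 : t ≤ 1) {θ : ℝ} (hθ : 1 ≤ θ) :
    ∑ i ∈ Icc 1 P.I, (mix P t h0 h1).p i ^ θ ≤ ∑ i ∈ Icc 1 P.I, P.p i ^ θ := by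
  have hI : (0 : ℝ) < P.I := by exact_mod_cast P.I0
  have h2 : ∑ i ∈ Icc 1 P.I, (1 / (P.I : ℝ)) ^ θ ≤ ∑ i ∈ Icc 1 P.I, P.p i ^ θ := by
    have h3 := Real.rpow_arith_mean_le_arith_mean_rpow (Icc 1 P.I) (fun _ => 1 / (P.I : ℝ)) P.p
      (fun _ _ => by positivity) (by
        rw [sum_const, Nat.card_Icc, Nat.add_sub_cancel, nsmul_eq_mul]; field_simp)
      (fun i hi => (P.pos i hi).le) hθ
    rw [← mul_sum, ← mul_sum, P.sum, mul_one] at h3
    rw [sum_const, Nat.card_Icc, Nat.add_sub_cancel, nsmul_eq_mul]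
    calc (P.I : ℝ) * (1 / P.I) ^ θ ≤ P.I * (1 / P.I * ∑ i ∈ Icc 1 P.I, P.p i ^ θ) := by gcongr
      _ = ∑ i ∈ Icc 1 P.I, P.p i ^ θ := by field_simp
  calc ∑ i ∈ Icc 1 P.I, (mix P t h0 h1).p i ^ θ
      ≤ ∑ i ∈ Icc 1 P.I, (t * P.p i ^ θ + (1 - t) * (1 / P.I) ^ θ) := by
        refine sum_le_sum fun i hi => ?_
        rw [mix_p]
        exact (convexOn_rpow hθ).2 (P.pos i hi).le (show (0 : ℝ) ≤ 1 / P.I by positivity) h0
          (by linarith : (0 : ℝ) ≤ 1 - t) (by ring)
    _ = t * ∑ i ∈ Icc 1 P.I, P.p i ^ θ + (1 - t) * ∑ i ∈ Icc 1 P.I, (1 / (P.I : ℝ)) ^ θ := by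
        rw [sum_add_distrib, mul_sum, mul_sum]
    _ ≤ t * ∑ i ∈ Icc 1 P.I, P.p i ^ θ + (1 - t) * ∑ i ∈ Icc 1 P.I, P.p i ^ θ := by
        have : 0 ≤ 1 - t := by linarith
        gcongr
    _ = _ := by ring

theorem exists_renyi (P : Law) (hP : log 3 < ∑ i ∈ Icc 1 P.I, negMulLog (P.p i)) :
    ∃ θ h : ℝ, 1 < θ ∧ 0 < h ∧
      ∑ i ∈ Icc 1 P.I, P.p i ^ θ ≤ exp (-((θ - 1) * (log 3 + h))) := by
  set H := ∑ i ∈ Icc 1 P.I, negMulLog (P.p i) with hH
  set h : ℝ := (H - log 3) / 2 with hh
  have hh0 : 0 < h := by rw [hh]; linarith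
  set g : ℝ → ℝ := fun θ => log (∑ i ∈ Icc 1 P.I, P.p i ^ θ) with hg
  have hd1 : HasDerivAt (fun θ : ℝ => ∑ i ∈ Icc 1 P.I, P.p i ^ θ)
      (∑ i ∈ Icc 1 P.I, P.p i ^ (1 : ℝ) * log (P.p i)) 1 := by
    refine HasDerivAt.fun_sum fun i hi => ?_
    exact (hasStrictDerivAt_const_rpow (P.pos i hi) 1).hasDerivAt
  have hs1 : ∑ i ∈ Icc 1 P.I, P.p i ^ (1 : ℝ) = 1 := by
    simp only [rpow_one]
    exact P.sum
  have hd : HasDerivAt g (-H) 1 := by
    have := hd1.log (by rw [hs1]; norm_num)
    rw [hs1, div_one] at this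
    convert this using 1
    rw [hH, ← sum_neg_distrib]
    refine sum_congr rfl fun i _ => ?_
    rw [negMulLog, rpow_one]
    ring
  have hg1 : g 1 = 0 := by simp only [hg]; rw [hs1, log_one]
  have hsl := hd.tendsto_slope
  have h3 : -H < -(log 3 + h) := by rw [hh]; linarith
  have h4 : ∀ᶠ θ in nhdsWithin (1 : ℝ) {1}ᶜ, slope g 1 θ < -(log 3 + h) :=
    hsl.eventually (gt_mem_nhds h3)
  have h5 : ∀ᶠ θ in nhdsWithin (1 : ℝ) (Set.Ioi 1), slope g 1 θ < -(log 3 + h) :=
    h4.filter_mono (nhdsWithin_mono 1 fun y hy => ne_of_gt hy)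
  obtain ⟨θ, hθ1, hθ2⟩ := (h5.and self_mem_nhdsWithin).exists
  have hθ3 : (1 : ℝ) < θ := hθ2
  refine ⟨θ, h, hθ3, hh0, ?_⟩
  have hZ : 0 < ∑ i ∈ Icc 1 P.I, P.p i ^ θ :=
    sum_pos (fun i hi => rpow_pos_of_pos (P.pos i hi) θ) ⟨1, one_mem P⟩
  rw [← log_le_iff_le_exp hZ]
  rw [slope_def_field, hg1, sub_zero, div_lt_iff₀ (by linarith)] at hθ1
  simp only [hg] at hθ1
  linarith

/-- **Quenched = annealed.** -/
theorem qd_eq_zero (P : Law) (hP : log 3 < ∑ i ∈ Icc 1 P.I, negMulLog (P.p i)) : qd P = 0 := by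
  obtain ⟨θ, h, hθ, hh, hR⟩ := exists_renyi P hP
  set thr : ℝ := h * (θ - 1) / θ with hthr
  have hthr0 : 0 < thr := by
    have : 0 < θ - 1 := by linarith
    have : 0 < θ := by linarith
    positivity
  obtain ⟨q, hq, hq'⟩ := exists_pmin P
  have hI : (0 : ℝ) < P.I := by exact_mod_cast P.I0
  -- the smallest value along the path
  set r : ℝ := min q (1 / P.I) with hr
  have hr0 : 0 < r := lt_min hq (by positivity)
  have hmin : ∀ (t : ℝ) (h0 : 0 ≤ t) (h1 : t ≤ 1), ∀ i ∈ Icc 1 P.I, r ≤ (mix P t h0 h1).p i := by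
    intro t h0 h1 i hi
    rw [mix_p]
    have e1 : r ≤ P.p i := (min_le_left _ _).trans (hq' i hi)
    have e2 : r ≤ 1 / P.I := min_le_right _ _
    have e3 := mul_le_mul_of_nonneg_left e1 h0
    have e4 := mul_le_mul_of_nonneg_left e2 (show 0 ≤ 1 - t by linarith)
    linarith
  have hp1 : ∀ i ∈ Icc 1 P.I, P.p i ≤ 1 := by
    intro i hi
    have := single_le_sum (f := P.p) (fun i hi => (P.pos i hi).le) hi
    rw [P.sum] at this
    exact this
  obtain ⟨N, hN⟩ := exists_nat_gt (1 / (r * (thr / 2)))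
  have hN0 : (0 : ℝ) < N := lt_trans (by positivity) hN
  have hN1 : 1 / (r * N) ≤ thr / 2 := by
    rw [div_lt_iff₀ (by positivity)] at hN
    rw [div_le_iff₀ (by positivity)]
    nlinarith
  -- induction along the path
  have path : ∀ k : ℕ, ∀ hk : k ≤ N, qd (mix P ((k : ℝ) / N) (by positivity)
      (by rw [div_le_one hN0]; exact_mod_cast hk)) = 0 := by
    intro k
    induction k with
    | zero =>
      intro hk
      refine qd_unif fun i _ => ?_
      rw [mix_p, mix_I]
      simp
    | succ k ih =>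
      intro hk
      have hk' : k ≤ N := by omega
      have hprev := ih hk'
      refine qd_zero_of_small _ hθ (h := h) ?_ ?_
      · exact (renyi_mix P _ _ hθ.le).trans hR
      · have hratio := qd_le_of_ratio (P := mix P ((k : ℝ) / N) (by positivity)
          (by rw [div_le_one hN0]; exact_mod_cast hk')) (P' := mix P (((k + 1 : ℕ) : ℝ) / N)
          (by positivity) (by rw [div_le_one hN0]; exact_mod_cast hk)) rfl (ε := thr / 2) (by
            intro i hi
            have hi' : i ∈ Icc 1 P.I := hi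
            have e1 := hmin (((k + 1 : ℕ) : ℝ) / N) (by positivity)
              (by rw [div_le_one hN0]; exact_mod_cast hk) i hi'
            have e2 : (mix P ((k : ℝ) / N) (by positivity)
                (by rw [div_le_one hN0]; exact_mod_cast hk')).p i ≤
                (mix P (((k + 1 : ℕ) : ℝ) / N) (by positivity)
                (by rw [div_le_one hN0]; exact_mod_cast hk)).p i + 1 / N := by
              rw [mix_p, mix_p]
              have h5 := (P.pos i hi').le
              have h6 : (1 : ℝ) / P.I ≤ 1 := by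
                rw [div_le_one hI]
                exact_mod_cast P.I0
              push_cast
              have h7 : ((k : ℝ) + 1) / N = k / N + 1 / N := by ring
              rw [h7]
              have h8 : 0 < 1 / (N : ℝ) := by positivity
              nlinarith
            have e3 := add_one_le_exp (thr / 2)
            have e4 : 1 / (N : ℝ) ≤ thr / 2 * r := by
              have : 1 / (N : ℝ) = 1 / (r * N) * r := by field_simp
              rw [this]
              exact mul_le_mul_of_nonneg_right hN1 hr0.le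
            refine e2.trans ?_
            set y := (mix P (((k + 1 : ℕ) : ℝ) / N) (by positivity)
                (by rw [div_le_one hN0]; exact_mod_cast hk)).p i with hy
            have hy0 : 0 < y := lt_of_lt_of_le hr0 e1
            have e5 : thr / 2 * r ≤ thr / 2 * y := mul_le_mul_of_nonneg_left e1 (by positivity)
            have e6 : (thr / 2 + 1) * y ≤ exp (thr / 2) * y := mul_le_mul_of_nonneg_right e3 hy0.le
            linarith)
        rw [hprev] at hratio
        linarith
  have hlast := path N le_rfl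
  have h1 := qd_le_of_ratio (P := mix P ((N : ℝ) / N) (by positivity)
    (by rw [div_self hN0.ne'])) (P' := P) rfl (ε := 0) (by
      intro i _
      rw [mix_p, div_self hN0.ne', exp_zero]
      simp)
  rw [hlast] at h1
  exact le_antisymm (by linarith) (qd_nonneg P)

theorem quenched (P : Law) (hP : log 3 < ∑ i ∈ Icc 1 P.I, negMulLog (P.p i)) :
    ∀ ε : ℝ, 0 < ε → ∀ᶠ n : ℕ in Filter.atTop, -(ε * n) ≤ Lm P n := by
  intro ε hε
  obtain ⟨C, hC0, hC⟩ := Lm_ge_qd P (half_pos hε)
  rw [qd_eq_zero P hP, zero_add] at hC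
  obtain ⟨N, hN⟩ := exists_nat_ge (C / (ε / 2))
  filter_upwards [Filter.eventually_ge_atTop N] with n hn
  have h1 := hC n
  have h2 : (N : ℝ) ≤ n := by exact_mod_cast hn
  have h3 := hN.trans h2
  rw [div_le_iff₀ (by positivity)] at h3
  linarith

end Pool.Agent.Collatz3.QA
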