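import Mathlib
import Pool.Agent.Collatz3.VTyp

set_option autoImplicit false

/-!
Typical growth from `∑ V(n) < ∞`: the last step.
-/

namespace Pool.Agent.Collatz3.Mix

open Finset Real Filter Topology

/-- Good words: sum and size under control. -/
def Good (z : ℝ) (I N : ℕ) (d : ℝ) (w : List ℕ) : Prop :=
  |(w.sum : ℝ) - N * e1 z I| < N * d ∧ Xr w < exp (N * d)

lemma prob_not_good {z : ℝ} (hz : 0 < z) {I : ℕ} (hI : 1 ≤ I) {α : ℝ} (h0 : 0 < α) (h1 : α ≤ 1)
    (he : 3 ^ α * em z I α ≤ 1) {d : ℝ} (hd : 0 < d) {N : ℕ} (hN : 1 ≤ N)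
    [DecidablePred (Good z I N d)] :
    ∑ w ∈ (words I N).filter (fun w => ¬ Good z I N d w), pw z I w ≤
      vr z I / d ^ 2 / N + N * exp (-(α * d)) ^ N := by
  classical
  have hNr : (0 : ℝ) < N := by exact_mod_cast hN
  have h2 := prob_sum hz hI hN hd
  have h3 := prob_Xr hz hI h0 h1 he N d
  refine le_trans ?_ (add_le_add h2 h3)
  have hsub : (words I N).filter (fun w => ¬ Good z I N d w) ⊆
      (words I N).filter (fun w => (N * d) ^ 2 ≤ ((w.sum : ℝ) - N * e1 z I) ^ 2) ∪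
      (words I N).filter (fun w => exp (N * d) ≤ Xr w) := by
    intro w hw
    rw [mem_filter] at hw
    rw [mem_union, mem_filter, mem_filter]
    obtain ⟨hw, hg⟩ := hw
    by_cases h : exp (N * d) ≤ Xr w
    · exact Or.inr ⟨hw, h⟩
    · left
      refine ⟨hw, ?_⟩
      by_contra hcon
      apply hg
      refine ⟨?_, not_le.mp h⟩
      rw [not_le] at hcon
      exact abs_lt_of_sq_lt_sq hcon (by positivity)
  refine (sum_le_sum_of_subset_of_nonneg hsub fun w hw _ => pw_nonneg hz I w).trans ?_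
  rw [← sum_union_inter]
  have := sum_nonneg (s := (words I N).filter
      (fun w => (N * d) ^ 2 ≤ ((w.sum : ℝ) - N * e1 z I) ^ 2) ∩
      (words I N).filter (fun w => exp (N * d) ≤ Xr w)) fun w _ => pw_nonneg hz I w
  linarith

lemma good_pw {z : ℝ} (hz : 0 < z) (hz1 : z < 1) {I : ℕ} (hI : 1 ≤ I) {d : ℝ} {N : ℕ}
    {w : List ℕ} (hw : w ∈ words I N) (hg : Good z I N d w) :
    pw z I w ≤ exp (-(N * ((e1 z I - d) * log (1 / z) + log (Zs z I)))) := by
  have hZ := Zs_pos hz hI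
  have hlz : 0 < log (1 / z) := log_pos (by rw [lt_div_iff₀ hz]; linarith)
  have hlz' : log z = - log (1 / z) := by rw [one_div, log_inv, neg_neg]
  have hp : 0 < pw z I w := by unfold pw; positivity
  rw [← log_le_iff_le_exp hp, pw_eq hw, log_div (by positivity) (by positivity), log_pow, log_pow,
    hlz']
  have h1 := (abs_lt.mp hg.1).1
  nlinarith

lemma good_size {z : ℝ} {I : ℕ} {d : ℝ} (hd : 0 < d) {N : ℕ}
    {w : List ℕ} (hg : Good z I N d w) :
    (size w : ℝ) ≤ 2 * exp (N * (e1 z I * log 2 + d * log 2 + d)) := by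
  have hl2 : 0 < log 2 := log_pos (by norm_num)
  have h1 := (abs_lt.mp hg.1).2
  have h2 := hg.2
  have h3 : (size w : ℝ) = 2 ^ w.sum * (1 + Xr w) := by
    rw [size, Xr]
    push_cast
    field_simp
  have h4 : (2 : ℝ) ^ w.sum ≤ exp (N * (e1 z I * log 2 + d * log 2)) := by
    rw [← rpow_natCast, rpow_def_of_pos (by norm_num), exp_le_exp]
    nlinarith
  have h5 : 1 + Xr w ≤ 2 * exp (N * d) := by
    have : (1 : ℝ) ≤ exp (N * d) := one_le_exp (by positivity)
    linarith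
  rw [h3]
  calc 2 ^ w.sum * (1 + Xr w) ≤ exp (N * (e1 z I * log 2 + d * log 2)) * (2 * exp (N * d)) :=
        mul_le_mul h4 h5 (by have := Xr_nonneg w; linarith) (exp_pos _).le
    _ = 2 * (exp (N * (e1 z I * log 2 + d * log 2)) * exp (N * d)) := by ring
    _ = _ := by rw [← exp_add]; congr 2; ring

/-- The key step: residues with few paths are bad. -/
lemma few_paths {z : ℝ} (hz : 0 < z) (hz1 : z < 1) {I : ℕ} (hI : 1 ≤ I) {d : ℝ} (hd : 0 < d)
    {n m : ℕ} (hn : 1 ≤ n) [DecidablePred (Good z I (n + 1) d)] {s γ δ : ℝ}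
    (hs : s = e1 z I * log 2) (hγ : γ = log (Zs z I) - log 3 + e1 z I * log (1 / z))
    (c1 : (3 ^ m + 1) * log 2 + (n + 1) * (s + d * log 2 + d) ≤ (s + δ) * n)
    (c2 : (γ - δ) * n + log (4 * I) ≤ (n + 1) * (γ - d * log (1 / z)))
    {a : ℤ} (ha : (cnt a n (exp ((s + δ) * n)) : ℝ) < exp ((γ - δ) * n)) {j : ℕ}
    (hj : j < 3 ^ m) :
    glaw z I (n + 1) (Good z I (n + 1) d) (2 ^ j * (a : ZMod (3 ^ (n + 1)))) <
      1 / (4 * 3 ^ (n + 1)) := by
  classical
  have hIr : (0 : ℝ) < I := by exact_mod_cast hI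
  have hZ := Zs_pos hz hI
  set C := (words I (n + 1)).filter (fun w => Good z I (n + 1) d w ∧
    Xw (n + 1) w = 2 ^ j * (a : ZMod (3 ^ (n + 1)))) with hC
  set B : ℝ := 2 * exp ((n + 1 : ℕ) * (e1 z I * log 2 + d * log 2 + d)) with hB
  have h1 : C.card ≤ I * cnt a n (2 ^ j * B) := by
    apply card_le_cnt hn C (filter_subset _ _)
    · intro w hw
      rw [(mem_filter.mp hw).2.2]
      push_cast
      rfl
    · intro w hw
      exact good_size hd (mem_filter.mp hw).2.1
  have h2 : cnt a n (2 ^ j * B) ≤ cnt a n (exp ((s + δ) * n)) := by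
    have hle : 2 ^ j * B ≤ exp ((s + δ) * n) := by
      have e1 : (2 : ℝ) ^ j ≤ 2 ^ (3 ^ m) := pow_le_pow_right₀ (by norm_num) hj.le
      calc 2 ^ j * B ≤ 2 ^ (3 ^ m) * B := mul_le_mul_of_nonneg_right e1 (by positivity)
        _ = exp (((3 ^ m + 1 : ℕ) : ℝ) * log 2 + (n + 1) * (s + d * log 2 + d)) := by
            have e4 : exp (((3 ^ m + 1 : ℕ) : ℝ) * log 2) = 2 ^ (3 ^ m + 1) := by
              rw [mul_comm, ← rpow_def_of_pos (by norm_num), rpow_natCast]
            rw [hB, exp_add, e4, pow_succ, hs]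
            push_cast
            ring
        _ ≤ exp ((s + δ) * n) := by
            rw [exp_le_exp]
            push_cast
            exact c1
    unfold cnt
    refine Set.ncard_le_ncard ?_ (paths_finite' _ _ _)
    rintro w ⟨h1, h2, h3, h4⟩
    exact ⟨h1, h2, h3.trans hle, h4⟩
  have h3 : glaw z I (n + 1) (Good z I (n + 1) d) (2 ^ j * (a : ZMod (3 ^ (n + 1)))) ≤
      C.card * exp (-((n + 1 : ℕ) * ((e1 z I - d) * log (1 / z) + log (Zs z I)))) := by
    rw [glaw, ← nsmul_eq_mul]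
    apply sum_le_card_nsmul
    intro w hw
    rw [mem_filter] at hw
    exact good_pw hz hz1 hI hw.1 hw.2.1
  have h4 : (C.card : ℝ) < I * exp ((γ - δ) * n) := by
    have h5 : (C.card : ℝ) ≤ I * (cnt a n (exp ((s + δ) * n)) : ℝ) := by
      exact_mod_cast h1.trans (Nat.mul_le_mul_left I h2)
    exact h5.trans_lt (mul_lt_mul_of_pos_left ha hIr)
  refine h3.trans_lt ((mul_lt_mul_of_pos_right h4 (exp_pos _)).trans_le ?_)
  rw [le_div_iff₀ (by positivity)]
  have e2 : (I : ℝ) * exp ((γ - δ) * n) *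
      exp (-((n + 1 : ℕ) * ((e1 z I - d) * log (1 / z) + log (Zs z I)))) * (4 * 3 ^ (n + 1)) =
      exp ((γ - δ) * n + log (4 * I) - (n + 1) * (γ - d * log (1 / z))) := by
    have e3 : (4 * I : ℝ) = exp (log (4 * I)) := (exp_log (by positivity)).symm
    have e4 : (3 : ℝ) ^ (n + 1) = exp ((n + 1 : ℕ) * log 3) := by
      rw [mul_comm, ← rpow_def_of_pos (by norm_num), rpow_natCast]
    calc _ = (4 * I : ℝ) * 3 ^ (n + 1) * (exp ((γ - δ) * n) *
      exp (-((n + 1 : ℕ) * ((e1 z I - d) * log (1 / z) + log (Zs z I))))) := by ring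
      _ = _ := by
        rw [e4, ← exp_add, e3, ← exp_add, ← exp_add, exp_log (by positivity)]
        congr 1
        rw [hγ]
        push_cast
        ring
  rw [e2, exp_le_one_iff]
  linarith

/-- Typical growth from summability. -/
theorem typical_of_summable {z : ℝ} (hz : 0 < z) (hz1 : z < 1) {I : ℕ} (hI : 1 ≤ I) {α : ℝ}
    (h0 : 0 < α) (h1 : α ≤ 1) (he : 3 ^ α * em z I α ≤ 1) (hV : Summable (Vn z I)) :
    Typical (e1 z I * log 2) (log (Zs z I) - log 3 + e1 z I * log (1 / z)) := by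
  classical
  have hl2 : 0 < log 2 := log_pos (by norm_num)
  have hlz : 0 < log (1 / z) := log_pos (by rw [lt_div_iff₀ hz]; linarith)
  set s := e1 z I * log 2 with hs
  set γ := log (Zs z I) - log 3 + e1 z I * log (1 / z) with hγ
  intro δ hδ η hη N₀
  -- choice of d
  obtain ⟨d, hd, hd1, hd2⟩ : ∃ d : ℝ, 0 < d ∧ d * log 2 + d ≤ δ / 2 ∧ d * log (1 / z) ≤ δ / 2 := by
    refine ⟨min (δ / 2 / (log 2 + 1)) (δ / 2 / log (1 / z)), by positivity, ?_, ?_⟩
    · have := min_le_left (δ / 2 / (log 2 + 1)) (δ / 2 / log (1 / z))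
      rw [le_div_iff₀ (by positivity)] at this
      linarith
    · have := min_le_right (δ / 2 / (log 2 + 1)) (δ / 2 / log (1 / z))
      rw [le_div_iff₀ hlz] at this
      exact this
  -- choice of m
  obtain ⟨m₀, hm₀⟩ := l1_small hz hI hV (ε := η / 4) (by positivity)
  set m := m₀ + 1 with hm
  have hL1 := hm₀ m (by omega)
  have hA : 0 ≤ vr z I := by
    have := Zs_pos hz hI
    unfold vr
    positivity
  -- eventual conditions
  have hP : Tendsto (fun N : ℕ => vr z I / d ^ 2 / N + N * exp (-(α * d)) ^ N) atTop (𝓝 0) := by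
    have e1 := tendsto_const_div_atTop_nhds_zero_nat (vr z I / d ^ 2)
    have e2 : Tendsto (fun k : ℕ => (k : ℝ) * exp (-(α * d)) ^ k) atTop (𝓝 0) :=
      tendsto_self_mul_const_pow_of_lt_one (exp_pos _).le (by
        rw [exp_lt_one_iff]
        have : 0 < α * d := by positivity
        linarith)
    simpa using e1.add e2
  have hP1 := (tendsto_add_atTop_nat 1).eventually
    (hP.eventually_lt_const (show 0 < η / (8 * 3 ^ m) by positivity))
  have hlin : ∀ c : ℝ, ∀ᶠ n : ℕ in atTop, c ≤ δ / 2 * n := by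
    intro c
    have : Tendsto (fun n : ℕ => δ / 2 * (n : ℝ)) atTop atTop :=
      Tendsto.const_mul_atTop (by positivity) tendsto_natCast_atTop_atTop
    exact this.eventually_ge_atTop c
  obtain ⟨n, hPn, hc1, hc2, hn0, hn1⟩ := (hP1.and ((hlin ((3 ^ m + 1) * log 2 + s + δ / 2)).and
    ((hlin (log (4 * I) - γ + δ / 2)).and ((eventually_ge_atTop N₀).and
      (eventually_ge_atTop (m + 1)))))).exists
  refine ⟨n, hn0, ?_⟩
  obtain ⟨r, rfl⟩ : ∃ r, n = m + r := ⟨n - m, by omega⟩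
  have hn2 : 1 ≤ m + r := by omega
  have c1 : ((3 : ℝ) ^ m + 1) * log 2 + ((m + r : ℕ) + 1) * (s + d * log 2 + d) ≤
      (s + δ) * (m + r : ℕ) := by
    have hnn : (0 : ℝ) ≤ ((m + r : ℕ) : ℝ) := Nat.cast_nonneg _
    nlinarith
  have c2 : (γ - δ) * (m + r : ℕ) + log (4 * I) ≤ ((m + r : ℕ) + 1) * (γ - d * log (1 / z)) := by
    have hnn : (0 : ℝ) ≤ ((m + r : ℕ) : ℝ) := Nat.cast_nonneg _
    nlinarith
  have hbad := bad_card hz hI (m := m) (by omega) (r + 1) (Good z I (m + r + 1) d)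
  have hprob := prob_not_good hz hI h0 h1 he hd (N := m + r + 1) (by omega)
  set Bd := (univ : Finset (ZMod (3 ^ (m + (r + 1))))).filter (fun y => IsUnit y ∧ ∀ j < 3 ^ m,
      glaw z I (m + (r + 1)) (Good z I (m + r + 1) d) (2 ^ j * y) < 1 / (4 * 3 ^ (m + (r + 1))))
    with hBd
  have hcard : ({a : ℕ | a < 3 ^ (m + r + 1) ∧ ¬ 3 ∣ a ∧
        (cnt (a : ℤ) (m + r) (Real.exp ((s + δ) * (m + r : ℕ))) : ℝ) <
          Real.exp ((γ - δ) * (m + r : ℕ))}.ncard) ≤ Bd.card := by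
    rw [← Set.ncard_coe_finset]
    refine Set.ncard_le_ncard_of_injOn (fun a => (a : ZMod (3 ^ (m + (r + 1))))) ?_ ?_
      (Finset.finite_toSet _)
    · rintro a ⟨ha1, ha2, ha3⟩
      rw [mem_coe, hBd, mem_filter]
      refine ⟨mem_univ _, ?_, ?_⟩
      · rw [ZMod.isUnit_iff_coprime]
        apply Nat.Coprime.pow_right
        rw [Nat.coprime_comm, Nat.Prime.coprime_iff_not_dvd Nat.prime_three]
        exact ha2
      · intro j hj
        have := few_paths hz hz1 hI hd (n := m + r) (m := m) hn2 hs hγ c1 c2 ha3 hj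
        push_cast at this
        exact this
    · rintro a ⟨ha1, -⟩ b ⟨hb1, -⟩ hab
      have := congrArg ZMod.val hab
      simp only [ZMod.val_natCast] at this
      rw [Nat.mod_eq_of_lt (by exact ha1), Nat.mod_eq_of_lt (by exact hb1)] at this
      exact this
  have hcard' : (({a : ℕ | a < 3 ^ (m + r + 1) ∧ ¬ 3 ∣ a ∧
        (cnt (a : ℤ) (m + r) (Real.exp ((s + δ) * (m + r : ℕ))) : ℝ) <
          Real.exp ((γ - δ) * (m + r : ℕ))}.ncard : ℕ) : ℝ) ≤ Bd.card := by
    exact_mod_cast hcard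
  refine hcard'.trans (hbad.trans ?_)
  have hL := hL1 (r + 1)
  have h3m : (0 : ℝ) < 3 ^ m := by positivity
  have hPn' : ∑ w ∈ (words I (m + (r + 1))).filter (fun w => ¬ Good z I (m + r + 1) d w), pw z I w ≤
      η / (8 * 3 ^ m) := hprob.trans hPn.le
  apply mul_le_mul_of_nonneg_right _ (by positivity)
  have h5 := mul_le_mul_of_nonneg_left hPn' (show 0 ≤ 4 * (3 : ℝ) ^ m by positivity)
  have h6 : 4 * (3 : ℝ) ^ m * (η / (8 * 3 ^ m)) = η / 2 := by
    field_simp
    norm_num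
  linarith

end Pool.Agent.Collatz3.Mix
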