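import Mathlib
import Pool.Agent.Collatz3.VFin
import Pool.Agent.Collatz3.VNum
import Pool.Agent.Collatz3.Tele
import Pool.Agent.Collatz3.VConv

set_option autoImplicit false

/-!
Typical growth for general tilts; `typical_two` and `typical_four`.
-/

namespace Pool.Agent.Collatz3.Mix

open Finset Real Filter Topology

/-- The criterion for summability. -/
theorem summable_Vn {z : ℝ} (hz : 0 < z) (hz1 : z < 1) {I : ℕ} (hI : 1 ≤ I) {α : ℝ}
    (h0 : 0 < α) (h1 : α ≤ 1) (he : 3 ^ α * em z I α ≤ 1) {q M : ℕ} (hq : 1 ≤ q) (hM : 1 ≤ M)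
    (hρ : ((q : ℝ) + 1 + M) * log 3 ≤ q * (e1 z I * log 2))
    (hA : q * (Df z I / (4 / 3 * log 2)) < ∑ i ∈ range M, ((i : ℝ) + 1) / ((i : ℝ) + q + 3)) :
    Summable (Vn z I) := by
  have hqr : (0 : ℝ) < q := by exact_mod_cast hq
  have hl2 : 0 < log 2 := log_pos (by norm_num)
  set c0 := 4 / 3 * log 2 with hc0
  have hc0' : 0 < c0 := by positivity
  set Sg := ∑ i ∈ range M, ((i : ℝ) + 1) / ((i : ℝ) + q + 3) with hSg
  set gap := (Sg - q * (Df z I / c0)) / q with hgap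
  have hgap0 : 0 < gap := div_pos (by linarith) hqr
  set ε := gap / 4 * c0 with hε
  have hε0 : 0 < ε := by positivity
  have hasym := sum_Vp_asymp hz hz1 hI h0 h1 he hε0 (η := gap / 4) (by positivity)
  refine summable_of_ratio' (Vn_anti hz hI) (Vn_nonneg hz I) hM (q := q)
    (A := (Df z I + ε) / c0 + gap / 4) ?_ ?_
  · have e1 : (q : ℝ) * ((Df z I + ε) / c0 + gap / 4) = q * (Df z I / c0) + q * gap / 2 := by
      rw [hε]
      field_simp
      ring
    have e2 : (q : ℝ) * gap = Sg - q * (Df z I / c0) := by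
      rw [hgap]
      field_simp
    rw [e1, e2]
    linarith
  · have hk : Tendsto (fun k : ℕ => q * k) atTop atTop :=
      Filter.tendsto_id.const_mul_atTop' (by omega)
    filter_upwards [hk.eventually hasym] with k hk'
    have h2 := hk' ((q + 1 + M) * k) (by
      push_cast
      have hk0 : (0 : ℝ) ≤ k := Nat.cast_nonneg k
      have e1 : ((q : ℝ) + 1 + M) * k * log 3 = (((q : ℝ) + 1 + M) * log 3) * k := by ring
      have e2 : (q : ℝ) * k * (Mix.e1 z I * log 2 + ε) =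
        (q * (Mix.e1 z I * log 2)) * k + q * k * ε := by ring
      rw [e1, e2]
      have h3 := mul_le_mul_of_nonneg_right hρ hk0
      have h4 : 0 ≤ (q : ℝ) * k * ε := by positivity
      linarith)
    have h3 : ∑ n ∈ Ico (q * k) ((q + 1 + M) * k), Vn z I n / Vn z I (n - q * k) ≤
        ∑ n ∈ Ico (q * k) ((q + 1 + M) * k), Vp z I (q * k) n := by
      apply sum_le_sum
      intro n hn
      rw [mem_Ico] at hn
      have h4 := Vn_rec hz I (q * k) (n - q * k)
      rw [Nat.add_sub_of_le hn.1] at h4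
      exact div_le_of_le_mul₀ (Vn_nonneg hz I _) (Vp_nonneg' hz I _ _) h4
    refine h3.trans (h2.trans (le_of_eq ?_))
    push_cast
    ring

/-- `Typical` passes to limits of the parameters. -/
theorem typical_of_close {s γ : ℝ} (h : ∀ δ : ℝ, 0 < δ → ∃ s' γ' : ℝ, s' ≤ s + δ ∧ γ - δ ≤ γ' ∧
    Typical s' γ') : Typical s γ := by
  intro δ hδ η hη N₀
  obtain ⟨s', γ', hs, hγ, ht⟩ := h (δ / 2) (by positivity)
  obtain ⟨n, hn, hc⟩ := ht (δ / 2) (by positivity) η hη N₀
  refine ⟨n, hn, le_trans ?_ hc⟩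
  have hfin : {a : ℕ | a < 3 ^ (n + 1) ∧ ¬ 3 ∣ a ∧
        (cnt (a : ℤ) n (Real.exp ((s' + δ / 2) * n)) : ℝ) <
          Real.exp ((γ' - δ / 2) * n)}.Finite :=
    (Set.finite_lt_nat (3 ^ (n + 1))).subset fun a ha => ha.1
  have hle : {a : ℕ | a < 3 ^ (n + 1) ∧ ¬ 3 ∣ a ∧
        (cnt (a : ℤ) n (Real.exp ((s + δ) * n)) : ℝ) < Real.exp ((γ - δ) * n)}.ncard ≤
      {a : ℕ | a < 3 ^ (n + 1) ∧ ¬ 3 ∣ a ∧
        (cnt (a : ℤ) n (Real.exp ((s' + δ / 2) * n)) : ℝ) <
          Real.exp ((γ' - δ / 2) * n)}.ncard := by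
    refine Set.ncard_le_ncard ?_ hfin
    rintro a ⟨h1, h2, h3⟩
    refine ⟨h1, h2, ?_⟩
    have hn0 : (0 : ℝ) ≤ n := Nat.cast_nonneg n
    have e1 : Real.exp ((γ - δ) * n) ≤ Real.exp ((γ' - δ / 2) * n) := by
      rw [Real.exp_le_exp]
      exact mul_le_mul_of_nonneg_right (by linarith) hn0
    have e2 : Real.exp ((s' + δ / 2) * n) ≤ Real.exp ((s + δ) * n) := by
      rw [Real.exp_le_exp]
      exact mul_le_mul_of_nonneg_right (by linarith) hn0
    have e3 : cnt (a : ℤ) n (Real.exp ((s' + δ / 2) * n)) ≤ cnt (a : ℤ) n (Real.exp ((s + δ) * n)) := by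
      unfold cnt
      refine Set.ncard_le_ncard ?_ (paths_finite' _ _ _)
      rintro w ⟨g1, g2, g3, g4⟩
      exact ⟨g1, g2, g3.trans e2, g4⟩
    have e4 : (cnt (a : ℤ) n (Real.exp ((s' + δ / 2) * n)) : ℝ) ≤
        (cnt (a : ℤ) n (Real.exp ((s + δ) * n)) : ℝ) := by exact_mod_cast e3
    exact (e4.trans_lt h3).trans_le e1
  exact_mod_cast hle

/-- Typical growth for the tilt `z`. -/
theorem typical_general {z : ℝ} (hz : 0 < z) (hz1 : z < 1) {α : ℝ} (h0 : 0 < α) (h1 : α ≤ 1)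
    (he : (3 : ℝ) ^ α * ((1 / 2 : ℝ) ^ α * (1 - z) / (1 - (1 / 2 : ℝ) ^ α * z)) < 1)
    {q M : ℕ} (hq : 1 ≤ q) (hM : 1 ≤ M)
    (hρ : ((q : ℝ) + 1 + M) * log 3 < q * (1 / (1 - z) * log 2))
    (hA : q * ((1 / (1 - z) * log 2 - log (z / (1 - z)) - 1 / (1 - z) * log (1 / z)) /
      (4 / 3 * log 2)) < ∑ i ∈ range M, ((i : ℝ) + 1) / ((i : ℝ) + q + 3)) :
    Typical (1 / (1 - z) * log 2) (log (z / (1 - z)) - log 3 + 1 / (1 - z) * log (1 / z)) := by
  have hz2 : 0 < 1 - z := by linarith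
  apply typical_of_close
  intro δ hδ
  have a1 : ∀ᶠ I : ℕ in atTop, (3 : ℝ) ^ α * em z I α < 1 :=
    ((tendsto_em hz hz1 h0.le).const_mul ((3 : ℝ) ^ α)).eventually_lt_const he
  have a2 : ∀ᶠ I : ℕ in atTop, ((q : ℝ) + 1 + M) * log 3 < q * (e1 z I * log 2) :=
    (((tendsto_e1 hz hz1).mul_const (log 2)).const_mul (q : ℝ)).eventually_const_lt hρ
  have a3 : ∀ᶠ I : ℕ in atTop,
      q * (Df z I / (4 / 3 * log 2)) < ∑ i ∈ range M, ((i : ℝ) + 1) / ((i : ℝ) + q + 3) :=
    (((tendsto_Df hz hz1).div_const (4 / 3 * log 2)).const_mul (q : ℝ)).eventually_lt_const hA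
  have a4 : ∀ᶠ I : ℕ in atTop, e1 z I * log 2 < 1 / (1 - z) * log 2 + δ :=
    ((tendsto_e1 hz hz1).mul_const (log 2)).eventually_lt_const (by linarith)
  have a5 : ∀ᶠ I : ℕ in atTop, log (z / (1 - z)) - log 3 + 1 / (1 - z) * log (1 / z) - δ <
      log (Zs z I) - log 3 + e1 z I * log (1 / z) := by
    have h2 : Tendsto (fun I => log (Zs z I)) atTop (𝓝 (log (z / (1 - z)))) :=
      (tendsto_Zs hz hz1).log (by positivity)
    exact ((h2.sub_const (log 3)).add ((tendsto_e1 hz hz1).mul_const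
      (log (1 / z)))).eventually_const_lt (by linarith)
  obtain ⟨I, b1, b2, b3, b4, b5, b6⟩ :=
    (a1.and (a2.and (a3.and (a4.and (a5.and (eventually_ge_atTop 1)))))).exists
  exact ⟨_, _, b4.le, b5.le, typical_of_summable hz hz1 b6 h0 h1 b1.le
    (summable_Vn hz hz1 b6 h0 h1 b1.le hq hM b2.le b3)⟩

end Pool.Agent.Collatz3.Mix

namespace Pool.Agent.Collatz3

open Finset Real

/-- Typical growth for the tilt `3/4`. -/
theorem typical_four : Typical (4 * Real.log 2) (4 * Real.log (4 / 3)) := by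
  have hl2 : 0 < log 2 := log_pos (by norm_num)
  have h3 := Mix.log_three_lt
  have e1 : log ((3 / 4 : ℝ) / (1 - 3 / 4)) = log 3 := by norm_num
  have e2 : log (1 / (3 / 4 : ℝ)) = 2 * log 2 - log 3 := by
    rw [show (1 / (3 / 4) : ℝ) = 2 ^ 2 / 3 by norm_num, log_div (by norm_num) (by norm_num),
      log_pow]
    norm_num
  have e3 : (1 / (1 - 3 / 4) : ℝ) = 4 := by norm_num
  have h := Mix.typical_general (z := 3 / 4) (by norm_num) (by norm_num) (α := 1) (by norm_num)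
    le_rfl (by norm_num) (q := 50) (M := 75) (by norm_num) (by norm_num)
    (by norm_num; linarith) (by
      have e4 : ∑ i ∈ range 75, ((i : ℝ) + 1) / ((i : ℝ) + ((50 : ℕ) : ℝ) + 3) =
          ∑ i ∈ range 75, ((i : ℝ) + 1) / ((i : ℝ) + 53) := by
        apply sum_congr rfl
        intro i _
        push_cast
        congr 1
        ring
      rw [e1, e2, e3, e4]
      refine lt_trans ?_ Mix.sum_num
      push_cast
      rw [← lt_div_iff₀' (by norm_num), div_lt_iff₀ (by positivity)]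
      linarith)
  have e4 : (1 / (3 / 4) : ℝ) = 4 / 3 := by norm_num
  rw [e1, e3, e4, sub_self, zero_add] at h
  exact h

/-- Typical growth for the tilt `1/2`. -/
theorem typical_two : Typical (2 * Real.log 2) (Real.log (4 / 3)) := by
  have hl2 : 0 < log 2 := log_pos (by norm_num)
  have h3 := Mix.log_three_lt
  have e1 : log ((1 / 2 : ℝ) / (1 - 1 / 2)) = 0 := by norm_num
  have e2 : log (1 / (1 / 2 : ℝ)) = log 2 := by norm_num
  have e3 : (1 / (1 - 1 / 2) : ℝ) = 2 := by norm_num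
  have h := Mix.typical_general (z := 1 / 2) (by norm_num) (by norm_num) (α := 1 / 2) (by norm_num)
    (by norm_num) (by
      have ha : ((3 : ℝ) ^ (1 / 2 : ℝ)) ^ 2 = 3 := by
        rw [← rpow_natCast, ← rpow_mul (by norm_num)]
        norm_num
      have hb : ((1 / 2 : ℝ) ^ (1 / 2 : ℝ)) ^ 2 = 1 / 2 := by
        rw [← rpow_natCast, ← rpow_mul (by norm_num)]
        norm_num
      have ha0 : (0 : ℝ) < (3 : ℝ) ^ (1 / 2 : ℝ) := rpow_pos_of_pos (by norm_num) _
      have hb0 : (0 : ℝ) < (1 / 2 : ℝ) ^ (1 / 2 : ℝ) := rpow_pos_of_pos (by norm_num) _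
      generalize (3 : ℝ) ^ (1 / 2 : ℝ) = a at ha ha0
      generalize (1 / 2 : ℝ) ^ (1 / 2 : ℝ) = b at hb hb0
      have ha1 : a < 1.74 := by nlinarith
      have hb1 : b < 0.72 := by nlinarith
      rw [← mul_div_assoc, div_lt_one (by linarith)]
      nlinarith [mul_pos ha0 hb0])
    (q := 8) (M := 1) (by norm_num) (by norm_num) (by norm_num; linarith) (by
      rw [e1, e2, e3, sub_zero, sub_self, zero_div, mul_zero]
      norm_num)
  have e4 : log (4 / 3) = 0 - log 3 + 2 * log 2 := by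
    rw [log_div (by norm_num) (by norm_num), show (4 : ℝ) = 2 ^ 2 by norm_num, log_pow]
    push_cast
    ring
  rw [e1, e2, e3, ← e4] at h
  exact h

end Pool.Agent.Collatz3
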