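import Mathlib
import Pool.Agent.Collatz3.QBasic
import Pool.Agent.Collatz3.VFin
import Pool.Agent.Collatz3.VMain

set_option autoImplicit false

/-!
Typical growth from the quenched bound on the partition functions.
-/

namespace Pool.Agent.Collatz3.QA

open Finset Real Filter Topology
open Pool.Agent.Collatz3.Mix (words mem_words sum_words_zero sum_words_succ sum_words_add
  Zs Zs_pos pw pw_cons pw_nonneg sum_pw sum_letter e1 em Xr Xr_nonneg Good markov prob_Xr
  good_pw good_size paths_finite')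

/-- The truncated geometric law. -/
noncomputable def geo (z : ℝ) (hz : 0 < z) (I : ℕ) (h6 : 6 ∣ I) (hI : 0 < I) : Law where
  I := I
  p i := z ^ i / Zs z I
  dvd := h6
  I0 := hI
  pos i _ := div_pos (pow_pos hz i) (Zs_pos hz hI)
  sum := sum_letter hz hI

theorem wt_geo {z : ℝ} (hz : 0 < z) {I : ℕ} (h6 : 6 ∣ I) (hI : 0 < I) (w : List ℕ) :
    wt (geo z hz I h6 hI) w = pw z I w := by
  induction w with
  | nil => simp [wt, pw]
  | cons i w ih =>
    rw [wt_cons, ih, pw_cons]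
    rfl

/-! ### Entropy of the law -/

theorem entropy_geo {z : ℝ} (hz : 0 < z) {I : ℕ} (hI : 0 < I) :
    ∑ i ∈ Icc 1 I, Real.negMulLog (z ^ i / Zs z I) = log (Zs z I) + e1 z I * log (1 / z) := by
  have hZ := Zs_pos hz hI
  have h1 : ∀ i ∈ Icc 1 I, Real.negMulLog (z ^ i / Zs z I) =
      z ^ i / Zs z I * log (Zs z I) + (i : ℝ) * (z ^ i / Zs z I) * log (1 / z) := by
    intro i _
    rw [Real.negMulLog, log_div (by positivity) hZ.ne', log_pow, one_div, log_inv]
    ring
  rw [sum_congr rfl h1, sum_add_distrib, ← sum_mul, ← sum_mul, sum_letter hz hI, one_mul]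
  rfl

/-! ### Exponential bounds for the sum of a word -/

theorem e1_mem {z : ℝ} (hz : 0 < z) {I : ℕ} (hI : 0 < I) : 1 ≤ e1 z I ∧ e1 z I ≤ I := by
  have hZ := Zs_pos hz hI
  have h := sum_letter hz hI
  constructor
  · rw [← h]
    refine sum_le_sum fun i hi => ?_
    have : (1 : ℝ) ≤ i := by exact_mod_cast (mem_Icc.1 hi).1
    exact le_mul_of_one_le_left (by positivity) this
  · have : (I : ℝ) = ∑ i ∈ Icc 1 I, (I : ℝ) * (z ^ i / Zs z I) := by rw [← mul_sum, h, mul_one]
    rw [this]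
    refine sum_le_sum fun i hi => ?_
    have : (i : ℝ) ≤ I := by exact_mod_cast (mem_Icc.1 hi).2
    exact mul_le_mul_of_nonneg_right this (by positivity)

theorem letter_exp {z : ℝ} (hz : 0 < z) {I : ℕ} (hI : 0 < I) {t : ℝ} (ht : |t| * I ≤ 1) :
    ∑ i ∈ Icc 1 I, z ^ i / Zs z I * exp (t * ((i : ℝ) - e1 z I)) ≤ exp (t ^ 2 * I ^ 2) := by
  have hZ := Zs_pos hz hI
  obtain ⟨he1, he2⟩ := e1_mem hz hI
  have h1 : ∀ i ∈ Icc 1 I, z ^ i / Zs z I * exp (t * ((i : ℝ) - e1 z I)) ≤
      z ^ i / Zs z I * (1 + t ^ 2 * I ^ 2) + t * ((i : ℝ) * (z ^ i / Zs z I)) -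
        t * e1 z I * (z ^ i / Zs z I) := by
    intro i hi
    have hi1 : (1 : ℝ) ≤ i := by exact_mod_cast (mem_Icc.1 hi).1
    have hi2 : (i : ℝ) ≤ I := by exact_mod_cast (mem_Icc.1 hi).2
    have ha : |(i : ℝ) - e1 z I| ≤ I := by
      rw [abs_le]
      constructor <;> linarith
    have hx : |t * ((i : ℝ) - e1 z I)| ≤ 1 := by
      rw [abs_mul]
      exact (mul_le_mul_of_nonneg_left ha (abs_nonneg t)).trans ht
    have h2 := (abs_le.1 (Real.abs_exp_sub_one_sub_id_le hx)).2
    have h3 : (t * ((i : ℝ) - e1 z I)) ^ 2 ≤ t ^ 2 * I ^ 2 := by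
      rw [mul_pow]
      refine mul_le_mul_of_nonneg_left ?_ (sq_nonneg t)
      rw [← sq_abs]
      exact pow_le_pow_left₀ (abs_nonneg _) ha 2
    have h4 : exp (t * ((i : ℝ) - e1 z I)) ≤ 1 + t * ((i : ℝ) - e1 z I) + t ^ 2 * I ^ 2 := by
      linarith
    have h5 := mul_le_mul_of_nonneg_left h4 (show 0 ≤ z ^ i / Zs z I by positivity)
    linarith
  refine (sum_le_sum h1).trans ?_
  rw [sum_sub_distrib, sum_add_distrib, ← sum_mul, ← mul_sum, ← mul_sum, sum_letter hz hI]
  have : ∑ i ∈ Icc 1 I, (i : ℝ) * (z ^ i / Zs z I) = e1 z I := rfl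
  rw [this]
  have := add_one_le_exp (t ^ 2 * (I : ℝ) ^ 2)
  linarith

theorem word_exp {z : ℝ} (hz : 0 < z) {I : ℕ} (hI : 0 < I) {t : ℝ} (ht : |t| * I ≤ 1) (n : ℕ) :
    ∑ w ∈ words I n, pw z I w * exp (t * ((w.sum : ℝ) - n * e1 z I)) ≤
      exp (n * (t ^ 2 * I ^ 2)) := by
  induction n with
  | zero => rw [sum_words_zero]; simp [pw]
  | succ n ih =>
    rw [sum_words_succ]
    have h1 : ∀ i ∈ Icc 1 I, ∑ w ∈ words I n, pw z I (i :: w) *
        exp (t * (((i :: w).sum : ℕ) - ((n + 1 : ℕ) : ℝ) * e1 z I)) =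
        z ^ i / Zs z I * exp (t * ((i : ℝ) - e1 z I)) *
          ∑ w ∈ words I n, pw z I w * exp (t * ((w.sum : ℝ) - n * e1 z I)) := by
      intro i _
      rw [mul_sum]
      refine sum_congr rfl fun w _ => ?_
      rw [pw_cons, List.sum_cons]
      have : t * (((i + w.sum : ℕ) : ℝ) - ((n + 1 : ℕ) : ℝ) * e1 z I) =
          t * ((i : ℝ) - e1 z I) + t * ((w.sum : ℝ) - n * e1 z I) := by
        push_cast
        ring
      rw [this, exp_add]
      ring
    rw [sum_congr rfl h1, ← sum_mul]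
    have h2 := letter_exp hz hI ht
    have h3 : 0 ≤ ∑ w ∈ words I n, pw z I w * exp (t * ((w.sum : ℝ) - n * e1 z I)) :=
      sum_nonneg fun w _ => mul_nonneg (pw_nonneg hz I w) (exp_pos _).le
    calc _ ≤ exp (t ^ 2 * I ^ 2) * exp (n * (t ^ 2 * I ^ 2)) :=
          mul_le_mul h2 ih h3 (exp_pos _).le
      _ = _ := by
        rw [← exp_add]
        congr 1
        push_cast
        ring

/-- Chernoff bound. -/
theorem prob_dev {z : ℝ} (hz : 0 < z) {I : ℕ} (hI : 0 < I) {d : ℝ} (hd : 0 < d) (hd1 : d ≤ 1)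
    (n : ℕ) :
    ∑ w ∈ (words I n).filter (fun w => (n : ℝ) * d ≤ |(w.sum : ℝ) - n * e1 z I|), pw z I w ≤
      2 * exp (-(d ^ 2 / (4 * I ^ 2))) ^ n := by
  classical
  have hIr : (1 : ℝ) ≤ I := by exact_mod_cast hI
  set t : ℝ := d / (2 * I ^ 2) with ht
  have ht0 : 0 < t := by positivity
  have htI : |t| * I ≤ 1 := by
    rw [abs_of_pos ht0, ht, div_mul_eq_mul_div, div_le_one (by positivity)]
    nlinarith
  have htI' : |(-t)| * I ≤ 1 := by rw [abs_neg]; exact htI
  have key : ∀ r : ℝ, |r| * I ≤ 1 → |r| = t →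
      ∑ w ∈ (words I n).filter (fun w => (n : ℝ) * d * t ≤ r * ((w.sum : ℝ) - n * e1 z I)),
        pw z I w ≤ exp (-(d ^ 2 / (4 * I ^ 2))) ^ n := by
    intro r hr hrt
    have h1 := markov (words I n) (pw z I) (fun w => exp (r * ((w.sum : ℝ) - n * e1 z I)))
      (fun w _ => pw_nonneg hz I w) (fun w _ => (exp_pos _).le)
      (t := exp ((n : ℝ) * d * t)) (exp_pos _)
    simp only [exp_le_exp] at h1
    refine h1.trans ?_
    rw [div_le_iff₀ (exp_pos _)]
    refine (word_exp hz hI hr n).trans (le_of_eq ?_)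
    rw [← exp_nat_mul, ← exp_add]
    congr 1
    have : r ^ 2 = t ^ 2 := by rw [← hrt, sq_abs]
    rw [this, ht]
    field_simp
    ring
  have k1 := key t htI (abs_of_pos ht0)
  have k2 := key (-t) htI' (by rw [abs_neg, abs_of_pos ht0])
  have hsub : (words I n).filter (fun w => (n : ℝ) * d ≤ |(w.sum : ℝ) - n * e1 z I|) ⊆
      (words I n).filter (fun w => (n : ℝ) * d * t ≤ t * ((w.sum : ℝ) - n * e1 z I)) ∪
      (words I n).filter (fun w => (n : ℝ) * d * t ≤ -t * ((w.sum : ℝ) - n * e1 z I)) := by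
    intro w hw
    rw [mem_filter] at hw
    rw [mem_union, mem_filter, mem_filter]
    obtain ⟨hw, h⟩ := hw
    rcases le_abs.1 h with h | h
    · left
      refine ⟨hw, ?_⟩
      rw [mul_comm]
      exact mul_le_mul_of_nonneg_left h ht0.le
    · right
      refine ⟨hw, ?_⟩
      have := mul_le_mul_of_nonneg_left h ht0.le
      linarith
  refine (sum_le_sum_of_subset_of_nonneg hsub fun w hw _ => pw_nonneg hz I w).trans ?_
  have h := sum_union_inter (s₁ := (words I n).filter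
      (fun w => (n : ℝ) * d * t ≤ t * ((w.sum : ℝ) - n * e1 z I))) (s₂ := (words I n).filter
      (fun w => (n : ℝ) * d * t ≤ -t * ((w.sum : ℝ) - n * e1 z I))) (f := pw z I)
  have h' := sum_nonneg (s := (words I n).filter
      (fun w => (n : ℝ) * d * t ≤ t * ((w.sum : ℝ) - n * e1 z I)) ∩ (words I n).filter
      (fun w => (n : ℝ) * d * t ≤ -t * ((w.sum : ℝ) - n * e1 z I)))
      fun w _ => pw_nonneg hz I w
  linarith

theorem prob_not_good {z : ℝ} (hz : 0 < z) {I : ℕ} (hI : 1 ≤ I) {α : ℝ} (h0 : 0 < α) (h1 : α ≤ 1)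
    (he : 3 ^ α * em z I α ≤ 1) {d : ℝ} (hd : 0 < d) (hd1 : d ≤ 1) (n : ℕ)
    [DecidablePred (Good z I n d)] :
    ∑ w ∈ (words I n).filter (fun w => ¬ Good z I n d w), pw z I w ≤
      2 * exp (-(d ^ 2 / (4 * I ^ 2))) ^ n + n * exp (-(α * d)) ^ n := by
  classical
  have h2 := prob_dev hz hI hd hd1 n
  have h3 := prob_Xr hz hI h0 h1 he n d
  refine le_trans ?_ (add_le_add h2 h3)
  have hsub : (words I n).filter (fun w => ¬ Good z I n d w) ⊆
      (words I n).filter (fun w => (n : ℝ) * d ≤ |(w.sum : ℝ) - n * e1 z I|) ∪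
      (words I n).filter (fun w => exp (n * d) ≤ Xr w) := by
    intro w hw
    rw [mem_filter] at hw
    rw [mem_union, mem_filter, mem_filter]
    obtain ⟨hw, hg⟩ := hw
    by_cases h : exp (n * d) ≤ Xr w
    · exact Or.inr ⟨hw, h⟩
    · left
      refine ⟨hw, ?_⟩
      by_contra hcon
      exact hg ⟨not_le.1 hcon, not_le.mp h⟩
  refine (sum_le_sum_of_subset_of_nonneg hsub fun w hw _ => pw_nonneg hz I w).trans ?_
  have h := sum_union_inter (s₁ := (words I n).filter
      (fun w => (n : ℝ) * d ≤ |(w.sum : ℝ) - n * e1 z I|)) (s₂ := (words I n).filter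
      (fun w => exp (n * d) ≤ Xr w)) (f := pw z I)
  have h' := sum_nonneg (s := (words I n).filter
      (fun w => (n : ℝ) * d ≤ |(w.sum : ℝ) - n * e1 z I|) ∩ (words I n).filter
      (fun w => exp (n * d) ≤ Xr w)) fun w _ => pw_nonneg hz I w
  linarith

/-! ### The class mean of the contribution of a set of words -/

theorem card_read {n : ℕ} (hn : 1 ≤ n) {w : List ℕ} (hw : w.length = n) (c : ℤ) :
    ((range (3 ^ n)).filter (fun j : ℕ => Rd (c + 3 * j) w)).card ≤ 3 := by
  set A := (range (3 ^ n)).filter (fun j : ℕ => Rd (c + 3 * j) w) with hA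
  obtain ⟨m, rfl⟩ : ∃ m, n = m + 1 := ⟨n - 1, by omega⟩
  have hmod : ∀ i ∈ A, ∀ j ∈ A, i % 3 ^ m = j % 3 ^ m := by
    intro i hi j hj
    rw [hA, mem_filter] at hi hj
    have e1 := hi.2.rel
    have e2 := hj.2.rel
    rw [hw] at e1 e2
    have e3 : (2 : ℤ) ^ w.sum * (3 * ((i : ℤ) - j)) =
        3 ^ (m + 1) * (ep (c + 3 * i) w - ep (c + 3 * j) w) := by linear_combination e1 - e2
    have e4 : (3 : ℤ) ^ m ∣ 2 ^ w.sum * ((i : ℤ) - j) := by
      refine ⟨ep (c + 3 * i) w - ep (c + 3 * j) w, ?_⟩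
      have : (3 : ℤ) * (2 ^ w.sum * ((i : ℤ) - j)) =
          3 * (3 ^ m * (ep (c + 3 * i) w - ep (c + 3 * j) w)) := by
        rw [pow_succ] at e3
        linear_combination e3
      exact mul_left_cancel₀ (by norm_num) this
    have e5 : (3 : ℤ) ^ m ∣ (i : ℤ) - j := by
      have : IsCoprime ((3 : ℤ) ^ m) (2 ^ w.sum) := IsCoprime.pow (by norm_num)
      exact this.dvd_of_dvd_mul_left e4
    have e6 : (i : ℤ) ≡ j [ZMOD ((3 ^ m : ℕ) : ℤ)] := by
      rw [Int.modEq_iff_dvd]
      push_cast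
      rw [← dvd_neg, neg_sub]
      exact e5
    exact (Int.natCast_modEq_iff.1 e6)
  rw [show (3 : ℕ) = (range 3).card by simp]
  refine card_le_card_of_injOn (fun j => j / 3 ^ m) ?_ ?_
  · intro j hj
    rw [mem_coe, hA, mem_filter, mem_range, pow_succ] at hj
    rw [mem_coe, mem_range]
    exact Nat.div_lt_of_lt_mul hj.1
  · intro i hi j hj hij
    have h1 := hmod i hi j hj
    simp only at hij
    rw [← Nat.div_add_mod i (3 ^ m), ← Nat.div_add_mod j (3 ^ m), hij, h1]

variable (P : Law)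

/-- The contribution of a set of words to the partition function. -/
noncomputable def Mp (n : ℕ) (B : Finset (List ℕ)) (x : ℤ) : ℝ :=
  ∑ w ∈ B, if Rd x w then 3 ^ n * wt P w * M P 0 (ep x w) else 0

theorem Mp_nonneg {n : ℕ} {B : Finset (List ℕ)} (hB : B ⊆ words P.I n) (x : ℤ) : 0 ≤ Mp P n B x := by
  unfold Mp
  refine sum_nonneg fun w hw => ?_
  by_cases h : Rd x w
  · rw [if_pos h]
    exact mul_nonneg (mul_nonneg (by positivity) (wt_pos P (hB hw)).le) (M_nonneg P 0 _)
  · rw [if_neg h]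

theorem av_Mp {n : ℕ} (hn : 1 ≤ n) {B : Finset (List ℕ)} (hB : B ⊆ words P.I n) (c : ℤ) :
    av n c (fun x => Mp P n B x) ≤ 6 * ∑ w ∈ B, wt P w := by
  unfold Mp
  rw [av_sum, mul_sum]
  refine sum_le_sum fun w hw => ?_
  have hw' := hB hw
  have hl := (mem_words.1 hw').1
  have hpos := (wt_pos P hw').le
  have h1 : ∀ j ∈ range (3 ^ n), (if Rd (c + 3 * (j : ℤ)) w then
      3 ^ n * wt P w * M P 0 (ep (c + 3 * (j : ℤ)) w) else 0) ≤
      if Rd (c + 3 * (j : ℤ)) w then 3 ^ n * wt P w * 2 else 0 := by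
    intro j _
    by_cases h : Rd (c + 3 * (j : ℤ)) w
    · rw [if_pos h, if_pos h]
      exact mul_le_mul_of_nonneg_left (M_zero_le P _) (by positivity)
    · rw [if_neg h, if_neg h]
  have h2 := sum_le_sum h1
  have h5 : ∑ j ∈ range (3 ^ n), (if Rd (c + 3 * (j : ℤ)) w then 3 ^ n * wt P w * 2 else 0) =
      ((range (3 ^ n)).filter (fun j : ℕ => Rd (c + 3 * j) w)).card * (3 ^ n * wt P w * 2) := by
    rw [← sum_filter, sum_const, nsmul_eq_mul]
  rw [h5] at h2
  have h3 : (((range (3 ^ n)).filter (fun j : ℕ => Rd (c + 3 * j) w)).card : ℝ) ≤ 3 := by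
    exact_mod_cast card_read hn hl c
  unfold av
  rw [div_le_iff₀ (by positivity)]
  refine h2.trans ?_
  have h4 := mul_le_mul_of_nonneg_right h3 (show 0 ≤ 3 ^ n * wt P w * 2 by positivity)
  linarith

/-! ### Residues with few paths -/

/-- A residue with few paths has a small contribution of the good words. -/
theorem Mgood_le {z : ℝ} (hz : 0 < z) (hz1 : z < 1) {I : ℕ} (h6 : 6 ∣ I) (hI : 0 < I) {d : ℝ}
    (hd : 0 < d) {n : ℕ} [DecidablePred (Good z I n d)] {s γ δ : ℝ}
    (hs : s = e1 z I * log 2) (hγ : γ = log (Zs z I) - log 3 + e1 z I * log (1 / z))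
    (c1 : log 2 + n * (s + d * log 2 + d) ≤ (s + δ) * n) (c2 : d * log (1 / z) ≤ δ / 2)
    {a : ℤ} (ha : (cnt a n (exp ((s + δ) * n)) : ℝ) < exp ((γ - δ) * n)) :
    Mp (geo z hz I h6 hI) n ((words I n).filter (Good z I n d)) a ≤ 2 * exp (-(n * (δ / 2))) := by
  classical
  have hZ := Zs_pos hz hI
  set P := geo z hz I h6 hI with hP
  set C := ((words I n).filter (Good z I n d)).filter (fun w => Rd a w) with hC
  set E : ℝ := exp (-(n * ((e1 z I - d) * log (1 / z) + log (Zs z I)))) with hE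
  have h1 : Mp P n ((words I n).filter (Good z I n d)) a ≤ C.card * (3 ^ n * E * 2) := by
    unfold Mp
    rw [← sum_filter, ← hC, ← nsmul_eq_mul]
    apply sum_le_card_nsmul
    intro w hw
    rw [hC, mem_filter, mem_filter] at hw
    have e1 : wt P w ≤ E := by
      rw [hP, wt_geo]
      exact good_pw hz hz1 hI hw.1.1 hw.1.2
    have e2 : 0 ≤ wt P w := (wt_pos P hw.1.1).le
    have e3 := M_zero_le P (ep a w)
    have e4 := M_nonneg P 0 (ep a w)
    calc 3 ^ n * wt P w * M P 0 (ep a w) ≤ 3 ^ n * wt P w * 2 :=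
          mul_le_mul_of_nonneg_left e3 (by positivity)
      _ ≤ 3 ^ n * E * 2 := by gcongr
  have h2 : (C.card : ℝ) ≤ exp ((γ - δ) * n) := by
    have h3 : C.card ≤ cnt a n (exp ((s + δ) * n)) := by
      unfold cnt
      rw [← Set.ncard_coe_finset]
      refine Set.ncard_le_ncard ?_ (paths_finite' _ _ _)
      intro w hw
      rw [mem_coe, hC, mem_filter, mem_filter] at hw
      have hw' := mem_words.1 hw.1.1
      refine ⟨hw'.1, fun i hi => (hw'.2 i hi).1, ?_, hw.2.ok⟩
      refine (good_size hd hw.1.2).trans ?_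
      have e1 : (2 : ℝ) * exp (n * (e1 z I * log 2 + d * log 2 + d)) =
          exp (log 2 + n * (s + d * log 2 + d)) := by
        rw [exp_add, exp_log (by norm_num), hs]
      rw [e1, exp_le_exp]
      exact c1
    have h4 : (C.card : ℝ) ≤ (cnt a n (exp ((s + δ) * n)) : ℝ) := by exact_mod_cast h3
    exact h4.trans ha.le
  refine h1.trans ((mul_le_mul_of_nonneg_right h2 (by positivity)).trans ?_)
  have e4 : (3 : ℝ) ^ n = exp (n * log 3) := by
    rw [mul_comm, ← rpow_def_of_pos (by norm_num), rpow_natCast]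
  have e5 : exp ((γ - δ) * n) * (3 ^ n * E * 2) = 2 * exp (n * (-δ + d * log (1 / z))) := by
    rw [e4, hE]
    have : exp ((γ - δ) * n) * (exp (n * log 3) *
        exp (-(n * ((e1 z I - d) * log (1 / z) + log (Zs z I)))) * 2) =
        2 * (exp ((γ - δ) * n) * exp (n * log 3) *
        exp (-(n * ((e1 z I - d) * log (1 / z) + log (Zs z I))))) := by ring
    rw [this, ← exp_add, ← exp_add]
    congr 2
    rw [hγ]
    ring
  rw [e5]
  have hn : (0 : ℝ) ≤ n := Nat.cast_nonneg n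
  gcongr
  nlinarith

theorem Mp_split (P : Law) (n : ℕ) (G : List ℕ → Prop) [DecidablePred G] (x : ℤ) :
    M P n x = Mp P n ((words P.I n).filter G) x + Mp P n ((words P.I n).filter (fun w => ¬ G w)) x := by
  unfold Mp
  rw [M_eq_sum, sum_filter_add_sum_filter_not]

theorem card_bad_le {n : ℕ} (F : ℤ → Prop) [DecidablePred F] {η : ℝ}
    (h1 : (((range (3 ^ n)).filter (fun j : ℕ => F (1 + 3 * j))).card : ℝ) ≤ η * 3 ^ n)
    (h2 : (((range (3 ^ n)).filter (fun j : ℕ => F (2 + 3 * j))).card : ℝ) ≤ η * 3 ^ n)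
    (hη : 0 ≤ η) :
    ({a : ℕ | a < 3 ^ (n + 1) ∧ ¬ 3 ∣ a ∧ F (a : ℤ)}.ncard : ℝ) ≤ η * 3 ^ (n + 1) := by
  classical
  set A1 := ((range (3 ^ n)).filter (fun j : ℕ => F (1 + 3 * j))).image (fun j => 1 + 3 * j)
  set A2 := ((range (3 ^ n)).filter (fun j : ℕ => F (2 + 3 * j))).image (fun j => 2 + 3 * j)
  have hsub : {a : ℕ | a < 3 ^ (n + 1) ∧ ¬ 3 ∣ a ∧ F (a : ℤ)} ⊆ ((A1 ∪ A2 : Finset ℕ) : Set ℕ) := by
    rintro a ⟨ha1, ha2, ha3⟩
    rw [pow_succ] at ha1
    rw [mem_coe, mem_union, mem_image, mem_image]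
    rcases (by omega : a % 3 = 1 ∨ a % 3 = 2) with h | h
    · left
      refine ⟨a / 3, ?_, by omega⟩
      rw [mem_filter, mem_range]
      refine ⟨by omega, ?_⟩
      have : (1 + 3 * ((a / 3 : ℕ) : ℤ)) = (a : ℤ) := by omega
      rw [this]
      exact ha3
    · right
      refine ⟨a / 3, ?_, by omega⟩
      rw [mem_filter, mem_range]
      refine ⟨by omega, ?_⟩
      have : (2 + 3 * ((a / 3 : ℕ) : ℤ)) = (a : ℤ) := by omega
      rw [this]
      exact ha3
  have h3 := Set.ncard_le_ncard hsub (finite_toSet _)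
  rw [Set.ncard_coe_finset] at h3
  have h4 := h3.trans ((card_union_le A1 A2).trans (Nat.add_le_add card_image_le card_image_le))
  have h5 : ({a : ℕ | a < 3 ^ (n + 1) ∧ ¬ 3 ∣ a ∧ F (a : ℤ)}.ncard : ℝ) ≤
      ((range (3 ^ n)).filter (fun j : ℕ => F (1 + 3 * j))).card +
      ((range (3 ^ n)).filter (fun j : ℕ => F (2 + 3 * j))).card := by exact_mod_cast h4
  have h6 : η * 3 ^ (n + 1) = η * 3 ^ n * 3 := by rw [pow_succ]; ring
  rw [h6]
  have : 0 ≤ η * 3 ^ n := by positivity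
  linarith

/-- Typical growth from the bound on the class means of `log M`. -/
theorem typical_of_Lm {z : ℝ} (hz : 0 < z) (hz1 : z < 1) {I : ℕ} (h6 : 6 ∣ I) (hI : 0 < I) {α : ℝ}
    (h0 : 0 < α) (h1 : α ≤ 1) (he : 3 ^ α * em z I α ≤ 1)
    (hq : ∀ ε : ℝ, 0 < ε → ∀ᶠ n : ℕ in atTop, -(ε * n) ≤ Lm (geo z hz I h6 hI) n) :
    Typical (e1 z I * log 2) (log (Zs z I) - log 3 + e1 z I * log (1 / z)) := by
  classical
  have hl2 : 0 < log 2 := log_pos (by norm_num)
  have hlz : 0 < log (1 / z) := log_pos (by rw [lt_div_iff₀ hz]; linarith)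
  have hIr : (1 : ℝ) ≤ I := by exact_mod_cast hI
  set P := geo z hz I h6 hI with hP
  set s := e1 z I * log 2 with hs
  set γ := log (Zs z I) - log 3 + e1 z I * log (1 / z) with hγ
  intro δ hδ η hη N₀
  -- choice of d
  obtain ⟨d, hd, hd0, hd1, hd2⟩ : ∃ d : ℝ, 0 < d ∧ d ≤ 1 ∧ d * log 2 + d ≤ δ / 2 ∧
      d * log (1 / z) ≤ δ / 2 := by
    refine ⟨min 1 (min (δ / 2 / (log 2 + 1)) (δ / 2 / log (1 / z))), by positivity,
      min_le_left _ _, ?_, ?_⟩
    · have := (min_le_right 1 (min (δ / 2 / (log 2 + 1)) (δ / 2 / log (1 / z)))).trans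
        (min_le_left _ _)
      rw [le_div_iff₀ (by positivity)] at this
      linarith
    · have := (min_le_right 1 (min (δ / 2 / (log 2 + 1)) (δ / 2 / log (1 / z)))).trans
        (min_le_right _ _)
      rw [le_div_iff₀ hlz] at this
      exact this
  -- the rate of the bad words
  obtain ⟨ρ, hρ0, hρ1, hρa, hρb⟩ : ∃ ρ : ℝ, 0 < ρ ∧ ρ < 1 ∧ exp (-(d ^ 2 / (4 * I ^ 2))) ≤ ρ ∧
      exp (-(α * d)) ≤ ρ := by
    refine ⟨max (exp (-(d ^ 2 / (4 * I ^ 2)))) (exp (-(α * d))), by positivity, ?_,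
      le_max_left _ _, le_max_right _ _⟩
    refine max_lt ?_ ?_
    · rw [exp_lt_one_iff]
      have : 0 < d ^ 2 / (4 * (I : ℝ) ^ 2) := by positivity
      linarith
    · rw [exp_lt_one_iff]
      have : 0 < α * d := by positivity
      linarith
  have hlρ : log ρ < 0 := log_neg hρ0 hρ1
  set δ' : ℝ := min (δ / 8) (-log ρ / 2) with hδ'
  have hδ'0 : 0 < δ' := lt_min (by positivity) (by linarith)
  have hδ'1 : δ' ≤ δ / 8 := min_le_left _ _
  have hδ'2 : δ' ≤ -log ρ / 2 := min_le_right _ _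
  set r : ℝ := exp δ' * ρ with hr
  have hr0 : 0 < r := by positivity
  have hr1 : r < 1 := by
    have : r = exp (δ' + log ρ) := by rw [exp_add, exp_log hρ0]
    rw [this, exp_lt_one_iff]
    linarith
  set ε : ℝ := δ' * η / 4 with hε
  have hε0 : 0 < ε := by positivity
  have hlin : ∀ c b : ℝ, 0 < b → ∀ᶠ n : ℕ in atTop, c ≤ b * n := by
    intro c b hb
    have : Tendsto (fun n : ℕ => b * (n : ℝ)) atTop atTop :=
      Tendsto.const_mul_atTop hb tendsto_natCast_atTop_atTop
    exact this.eventually_ge_atTop c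
  have hT : Tendsto (fun n : ℕ => 12 * (2 * r ^ n + n * r ^ n)) atTop (𝓝 0) := by
    have e1 := (tendsto_pow_atTop_nhds_zero_of_lt_one hr0.le hr1).const_mul 2
    have e2 : Tendsto (fun k : ℕ => (k : ℝ) * r ^ k) atTop (𝓝 0) :=
      tendsto_self_mul_const_pow_of_lt_one hr0.le hr1
    simpa using (e1.add e2).const_mul 12
  obtain ⟨n, a1, a2, a3, a4, a5, a6, a7⟩ := ((hq ε hε0).and ((hlin 8 (δ' * η) (by positivity)).and
    ((hT.eventually_lt_const (show 0 < η / 2 by positivity)).and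
    ((hlin (log 2) (δ / 2) (by positivity)).and ((hlin (log 4) (δ / 4) (by positivity)).and
    ((eventually_ge_atTop N₀).and (eventually_ge_atTop 1))))))).exists
  refine ⟨n, a6, ?_⟩
  have hn : (0 : ℝ) < n := by exact_mod_cast a7
  set F : ℤ → Prop := fun a => (cnt a n (exp ((s + δ) * n)) : ℝ) < exp ((γ - δ) * n) with hF
  set Bw := (words I n).filter (fun w => ¬ Good z I n d w) with hBw
  have hBsub : Bw ⊆ words P.I n := filter_subset _ _
  have hprob : ∑ w ∈ Bw, wt P w ≤ 2 * ρ ^ n + n * ρ ^ n := by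
    have e1 : ∑ w ∈ Bw, wt P w = ∑ w ∈ Bw, pw z I w := by
      refine sum_congr rfl fun w _ => ?_
      rw [hP, wt_geo]
    rw [e1]
    refine (prob_not_good hz hI h0 h1 he hd hd0 n).trans ?_
    gcongr
  have c1 : log 2 + n * (s + d * log 2 + d) ≤ (s + δ) * n := by nlinarith
  -- the pointwise bound
  have key : ∀ x : ℤ, ¬ (3 : ℤ) ∣ x → (if F x then (1 : ℝ) else 0) ≤
      (1 / (δ' * n)) * (M P n x - log (M P n x)) + 2 * exp (δ' * n) * Mp P n Bw x := by
    intro x hx
    have hM := M_pos P n hx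
    have hMl : 0 ≤ M P n x - log (M P n x) := by
      have := log_le_sub_one_of_pos hM
      linarith
    have hB0 := Mp_nonneg P hBsub x
    by_cases h : F x
    · rw [if_pos h]
      by_cases h3 : log (M P n x) ≤ -(δ' * n)
      · have e1 : δ' * n ≤ M P n x - log (M P n x) := by linarith
        have e2 : (1 : ℝ) ≤ (1 / (δ' * n)) * (M P n x - log (M P n x)) := by
          rw [one_div, inv_mul_eq_div, le_div_iff₀ (by positivity), one_mul]
          exact e1
        have e3 : 0 ≤ 2 * exp (δ' * n) * Mp P n Bw x := by positivity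
        linarith
      · have e1 : exp (-(δ' * n)) ≤ M P n x := by
          rw [← le_log_iff_exp_le hM]
          linarith
        have e2 := Mgood_le hz hz1 h6 hI hd hs hγ c1 hd2 h
        have e3 := Mp_split P n (Good z I n d) x
        have e4 : 2 * exp (-(n * (δ / 2))) ≤ exp (-(δ' * n)) / 2 := by
          rw [le_div_iff₀ (by norm_num)]
          have e5 : 2 * exp (-(n * (δ / 2))) * 2 = exp (log 4 + -(n * (δ / 2))) := by
            rw [exp_add, exp_log (by norm_num)]
            ring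
          rw [e5, exp_le_exp]
          nlinarith
        have e6 : exp (-(δ' * n)) / 2 ≤ Mp P n Bw x := by
          have e7 : M P n x = Mp P n ((words I n).filter (Good z I n d)) x + Mp P n Bw x := e3
          have e8 : Mp P n ((words I n).filter (Good z I n d)) x ≤ 2 * exp (-(n * (δ / 2))) := e2
          linarith
        have e9 : (1 : ℝ) ≤ 2 * exp (δ' * n) * Mp P n Bw x := by
          have e10 := mul_le_mul_of_nonneg_left e6 (show 0 ≤ 2 * exp (δ' * n) by positivity)
          have e11 : 2 * exp (δ' * n) * (exp (-(δ' * n)) / 2) = 1 := by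
            have : 2 * exp (δ' * n) * (exp (-(δ' * n)) / 2) =
              exp (δ' * n) * exp (-(δ' * n)) := by ring
            rw [this, ← exp_add, add_neg_cancel, exp_zero]
          linarith
        have e12 : 0 ≤ (1 / (δ' * n)) * (M P n x - log (M P n x)) := by positivity
        linarith
    · rw [if_neg h]
      positivity
  have hc : ∀ c : ℤ, c = 1 ∨ c = 2 →
      (((range (3 ^ n)).filter (fun j : ℕ => F (c + 3 * j))).card : ℝ) ≤ η * 3 ^ n := by
    intro c hc
    have e1 : av n c (fun x => if F x then (1 : ℝ) else 0) ≤ η := by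
      have e2 : av n c (fun x => if F x then (1 : ℝ) else 0) ≤
          av n c (fun x => (1 / (δ' * n)) * (M P n x - log (M P n x)) +
            2 * exp (δ' * n) * Mp P n Bw x) := av_mono fun x hx => key x (not_dvd_of_mod hc hx)
      rw [av_add, av_mul, av_mul, av_sub, av_M] at e2
      have e3 : av n c (fun x => log (M P n x)) = LL P c n := rfl
      have e4 : Lm P n ≤ LL P c n := by
        unfold Lm
        rcases hc with rfl | rfl
        · exact min_le_left _ _
        · exact min_le_right _ _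
      rw [e3] at e2
      have e5 := M_zero_le P c
      have e6 : (1 / (δ' * n)) * (M P 0 c - LL P c n) ≤ η / 2 := by
        rw [one_div, inv_mul_eq_div, div_le_iff₀ (by positivity)]
        have : M P 0 c - LL P c n ≤ 2 + ε * n := by linarith
        refine this.trans ?_
        rw [hε]
        nlinarith
      have e7 := av_Mp P a7 hBsub c
      have e8 : 2 * exp (δ' * n) * av n c (fun x => Mp P n Bw x) ≤ η / 2 := by
        have e9 : 2 * exp (δ' * n) * av n c (fun x => Mp P n Bw x) ≤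
            2 * exp (δ' * n) * (6 * (2 * ρ ^ n + n * ρ ^ n)) := by gcongr; linarith
        refine e9.trans (le_trans (le_of_eq ?_) a3.le)
        rw [hr, mul_pow, ← exp_nat_mul, mul_comm δ' (n : ℝ)]
        ring
      linarith
    unfold av at e1
    rw [div_le_iff₀ (by positivity), ← sum_filter, sum_const, nsmul_eq_mul, mul_one] at e1
    exact e1
  exact card_bad_le F (hc 1 (Or.inl rfl)) (hc 2 (Or.inr rfl)) hη.le

/-- The tilt `α`. -/
theorem exists_alpha {z : ℝ} (hz : 0 < z) (hz1 : z < 1) (he : log 3 < 1 / (1 - z) * log 2) :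
    ∃ α : ℝ, 0 < α ∧ α ≤ 1 ∧
      (3 : ℝ) ^ α * ((1 / 2 : ℝ) ^ α * (1 - z) / (1 - (1 / 2 : ℝ) ^ α * z)) < 1 := by
  have hz2 : 0 < 1 - z := by linarith
  have hl2 : 0 < log 2 := log_pos (by norm_num)
  have hl2' : log 2 < 0.7 := by
    have := Real.log_two_lt_d9
    linarith
  have hl3 : 0 < log 3 := log_pos (by norm_num)
  have hl23 : log 2 < log 3 := log_lt_log (by norm_num) (by norm_num)
  have hl34 : log 3 < 2 * log 2 := by
    have h : log (3 : ℝ) < log ((2 : ℝ) ^ 2) := log_lt_log (by norm_num) (by norm_num)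
    rw [log_pow] at h
    push_cast at h
    exact h
  set c : ℝ := log 2 - (1 - z) * log 3 with hc
  have hc0 : 0 < c := by
    rw [one_div, inv_mul_eq_div, lt_div_iff₀ hz2] at he
    linarith
  have hc1 : c < 1 := by
    have : 0 < (1 - z) * log 3 := by positivity
    linarith
  set α : ℝ := c / 4 with hα
  have hα0 : 0 < α := by positivity
  have hα1 : α ≤ 1 := by linarith
  refine ⟨α, hα0, hα1, ?_⟩
  have e1 : (3 : ℝ) ^ α * (1 / 2 : ℝ) ^ α = exp (α * (log 3 - log 2)) := by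
    rw [rpow_def_of_pos (by norm_num), rpow_def_of_pos (by norm_num), ← exp_add, one_div, log_inv]
    congr 1
    ring
  have e2 : (1 / 2 : ℝ) ^ α = exp (-(α * log 2)) := by
    rw [rpow_def_of_pos (by norm_num), one_div, log_inv]
    congr 1
    ring
  have b1 : exp (α * (log 3 - log 2)) ≤ 1 + α * (log 3 - log 2) + α ^ 2 := by
    have h1 : |α * (log 3 - log 2)| ≤ 1 := by
      rw [abs_le]
      constructor <;> nlinarith
    have h2 := (abs_le.1 (Real.abs_exp_sub_one_sub_id_le h1)).2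
    have h3 : (α * (log 3 - log 2)) ^ 2 ≤ α ^ 2 := by
      rw [mul_pow]
      have : (log 3 - log 2) ^ 2 ≤ 1 := by nlinarith
      nlinarith [sq_nonneg α]
    linarith
  have b2 : exp (-(α * log 2)) ≤ 1 - α * log 2 + α ^ 2 := by
    have h1 : |-(α * log 2)| ≤ 1 := by
      rw [abs_le]
      constructor <;> nlinarith
    have h2 := (abs_le.1 (Real.abs_exp_sub_one_sub_id_le h1)).2
    have h3 : (-(α * log 2)) ^ 2 ≤ α ^ 2 := by
      rw [neg_sq, mul_pow]
      have : (log 2) ^ 2 ≤ 1 := by nlinarith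
      nlinarith [sq_nonneg α]
    linarith
  have b3 : exp (-(α * log 2)) < 1 := by
    rw [exp_lt_one_iff]
    have : 0 < α * log 2 := by positivity
    linarith
  have b4 : 0 < 1 - exp (-(α * log 2)) * z := by
    have := exp_pos (-(α * log 2))
    nlinarith
  rw [← mul_div_assoc, ← mul_assoc, e1, e2, div_lt_one b4]
  have b5 : exp (α * (log 3 - log 2)) * (1 - z) + exp (-(α * log 2)) * z ≤
      1 - α * c + α ^ 2 := by
    have h1 := mul_le_mul_of_nonneg_right b1 hz2.le
    have h2 := mul_le_mul_of_nonneg_right b2 hz.le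
    rw [hc]
    nlinarith
  have b6 : α ^ 2 < α * c := by
    rw [hα]
    nlinarith
  linarith

/-- Typical growth for the tilt `z` from the quenched bound. -/
theorem typical_of_quenched
    (hquench : ∀ P : Law, log 3 < ∑ i ∈ Icc 1 P.I, Real.negMulLog (P.p i) →
      ∀ ε : ℝ, 0 < ε → ∀ᶠ n : ℕ in atTop, -(ε * n) ≤ Lm P n)
    {z : ℝ} (hz : 0 < z) (hz1 : z < 1)
    (hH : log 3 < log (z / (1 - z)) + 1 / (1 - z) * log (1 / z))
    (he : log 3 < 1 / (1 - z) * log 2) :
    Typical (1 / (1 - z) * log 2) (log (z / (1 - z)) - log 3 + 1 / (1 - z) * log (1 / z)) := by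
  have hz2 : 0 < 1 - z := by linarith
  obtain ⟨α, h0, h1, hα⟩ := exists_alpha hz hz1 he
  apply Mix.typical_of_close
  intro δ hδ
  have hZ2 : Tendsto (fun I => log (Zs z I)) atTop (𝓝 (log (z / (1 - z)))) :=
    (Mix.tendsto_Zs hz hz1).log (by positivity)
  have a1 : ∀ᶠ I : ℕ in atTop, (3 : ℝ) ^ α * em z I α < 1 :=
    ((Mix.tendsto_em hz hz1 h0.le).const_mul ((3 : ℝ) ^ α)).eventually_lt_const hα
  have a2 : ∀ᶠ I : ℕ in atTop, log 3 < log (Zs z I) + e1 z I * log (1 / z) :=
    (hZ2.add ((Mix.tendsto_e1 hz hz1).mul_const (log (1 / z)))).eventually_const_lt hH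
  have a4 : ∀ᶠ I : ℕ in atTop, e1 z I * log 2 < 1 / (1 - z) * log 2 + δ :=
    ((Mix.tendsto_e1 hz hz1).mul_const (log 2)).eventually_lt_const (by linarith)
  have a5 : ∀ᶠ I : ℕ in atTop, log (z / (1 - z)) - log 3 + 1 / (1 - z) * log (1 / z) - δ <
      log (Zs z I) - log 3 + e1 z I * log (1 / z) :=
    ((hZ2.sub_const (log 3)).add ((Mix.tendsto_e1 hz hz1).mul_const
      (log (1 / z)))).eventually_const_lt (by linarith)
  have hmul : Tendsto (fun k : ℕ => 6 * (k + 1)) atTop atTop :=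
    tendsto_atTop_mono (fun k => by show k ≤ 6 * (k + 1); omega) tendsto_id
  obtain ⟨k, b1, b2, b4, b5⟩ := (hmul.eventually (a1.and (a2.and (a4.and a5)))).exists
  have h6 : 6 ∣ 6 * (k + 1) := dvd_mul_right 6 _
  have hI : 0 < 6 * (k + 1) := by omega
  refine ⟨_, _, b4.le, b5.le, typical_of_Lm hz hz1 h6 hI h0 h1 b1.le ?_⟩
  refine hquench (geo z hz (6 * (k + 1)) h6 hI) ?_
  have := entropy_geo hz hI
  refine lt_of_lt_of_eq b2 ?_
  exact this.symm

end Pool.Agent.Collatz3.QA
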