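import Mathlib
import Pool.Agent.Collatz3.QMain
import Pool.Agent.Collatz3.QTypA

set_option autoImplicit false

/-!
Typical growth for all geometric laws with entropy larger than `log 3`.
-/

namespace Pool.Agent.Collatz3.QA

open Real

/-- Typical growth for the tilt `z`. -/
theorem typical_all {z : ℝ} (hz : 0 < z) (hz1 : z < 1)
    (hH : log 3 < log (z / (1 - z)) + 1 / (1 - z) * log (1 / z))
    (he : log 3 < 1 / (1 - z) * log 2) :
    Typical (1 / (1 - z) * log 2) (log (z / (1 - z)) - log 3 + 1 / (1 - z) * log (1 / z)) :=
  typical_of_quenched (fun P hP => quenched P hP) hz hz1 hH he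

end Pool.Agent.Collatz3.QA
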