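import Mathlib
import Pool.Agent.Collatz3.GFinal
import Pool.Agent.Collatz3.QTyp

set_option autoImplicit false

/-!
Typical growth at all tilts with positive growth exponent.
-/

namespace Pool.Agent.Collatz3

open Real

theorem all_tilts : AllTilts := by
  intro z hz hz1 h
  have h1 : 0 < 1 - z := by linarith
  have e := (Leg.growth_eq h1).resolve_right (by linarith)
  rw [sub_sub_cancel] at e
  have hb : binEntropy (1 - z) ≤ log 2 := binEntropy_le_log_two
  have he : log 3 < 1 / (1 - z) * log 2 := by
    rw [e] at h
    have h2 : binEntropy (1 - z) / (1 - z) ≤ 1 / (1 - z) * log 2 := by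
      rw [div_eq_mul_one_div, mul_comm]
      exact mul_le_mul_of_nonneg_left hb (by positivity)
    linarith
  exact QA.typical_all hz hz1 (by linarith) he

end Pool.Agent.Collatz3
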