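import Pool.Agent.Collatz3.UBMain

set_option autoImplicit false

/-!
Barrier words of the inverse 3x+1 map: definitions.

A word is a list of booleans, the head being the first step: `false` stands for `x ↦ 2 x`, `true` for
`x ↦ (2 x - 1) / 3`.
-/

open Finset
open scoped Classical

namespace Pool.Agent.Collatz3.LT

/-- number of ones -/
def jj (w : List Bool) : ℕ := w.count true

/-- constant of the word -/
def cc : List Bool → ℕ
  | [] => 0
  | false :: w => cc w
  | true :: w => 2 ^ w.length + 3 * cc w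

/-- height after `n` steps, `l` of which are ones -/
noncomputable def hh (n l : ℕ) : ℝ := n * Real.log 2 - l * Real.log 3

/-- height of a word -/
noncomputable def ht (w : List Bool) : ℝ := hh w.length (jj w)

/-- barrier words: all nonempty prefixes have positive height -/
def Bar (w : List Bool) : Prop := ∀ i, 1 ≤ i → i ≤ w.length → 0 < ht (w.take i)

/-- the word can be read at `x` -/
def Read (x : ℤ) (w : List Bool) : Prop := (3 : ℤ) ^ jj w ∣ 2 ^ w.length * x - cc w

/-- the last node -/
def nd (x : ℤ) (w : List Bool) : ℤ := (2 ^ w.length * x - cc w) / 3 ^ jj w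

/-- all words of length `n` -/
def WL : ℕ → Finset (List Bool)
  | 0 => {[]}
  | n + 1 => (WL n).image (List.cons false) ∪ (WL n).image (List.cons true)

/-- barrier words of length `n` readable at `x` -/
noncomputable def BR (n : ℕ) (x : ℤ) : Finset (List Bool) := (WL n).filter fun w => Bar w ∧ Read x w

/-- number of barrier words of length `n` with `l` ones readable at `x` -/
noncomputable def NN (n l : ℕ) (x : ℤ) : ℕ := ((BR n x).filter fun w => jj w = l).card

/-- tilted number of barrier words -/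
noncomputable def AA (θ : ℝ) (n : ℕ) (x : ℤ) : ℝ := ∑ w ∈ BR n x, Real.exp (-θ * ht w)

/-- growth exponent of the largest tilted number -/
noncomputable def lam (θ : ℝ) : ℝ :=
  sInf {μ : ℝ | ∃ C : ℝ, ∀ (n : ℕ) (x : ℤ), AA θ n x ≤ C * Real.exp (μ * n)}

/-- growth exponent of the mean -/
noncomputable def Lam (θ : ℝ) : ℝ := Real.log ((2 : ℝ) ^ (-θ) * (1 + (3 : ℝ) ^ (θ - 1)))

/-- number of positions of `w` not followed by a cut within `K` steps -/
noncomputable def bad (K : ℕ) (w : List Bool) : ℕ :=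
  ((range w.length).filter fun t => ∀ s < K, ¬ Bar (w.drop (t + s))).card

/-- **Theorem S** -/
def StmtS : Prop := ∀ θ : ℝ, θ < 1 → ∀ ε : ℝ, 0 < ε → ∃ C : ℝ, ∀ (n : ℕ) (x : ℤ),
  AA θ n x ≤ C * Real.exp ((Lam θ + ε) * n)

/-! ### paths -/

/-- the paths all of whose later heights are positive -/
def Cu : Set UB.PathZ := {ω | ∀ s, 1 ≤ s → 0 < hh s (ω.j s)}

/-- no cut among the first `K` positions -/
def NoCut (K : ℕ) : Set UB.PathZ := {ω | ∀ s < K, UB.PathZ.T^[s] ω ∉ Cu}

/-- the word of the first `k` steps -/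
def lw (k : ℕ) (ω : UB.PathZ) : List Bool := (List.range k).map fun i => decide (ω.e i = 1)

/-- probability of a step 1 -/
noncomputable def q1 (P : UB.FAP UB.PathZ) : ℝ := P.m {ω | ω.e 0 = 1}

/-- entropy of the process -/
def ME (θ : ℝ) (P : UB.FAP UB.PathZ) : Prop := ∀ k N : ℕ,
  k * (lam θ + θ * (Real.log 2 - q1 P * Real.log 3)) ≤
    P.H (fun ω => (UB.PathZ.W k ω, ω.b 0 % 3 ^ N)) - P.H (fun ω : UB.PathZ => ω.b 0 % 3 ^ N)

/-- there are many cuts -/
def CUT (P : UB.FAP UB.PathZ) : Prop := ∀ ε : ℝ, 0 < ε → ∃ K : ℕ, P.m (NoCut K) ≤ ε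

/-! ### potentials -/

/-- weight of a word -/
noncomputable def wt (z θ : ℝ) (w : List Bool) : ℝ := z ^ w.length * Real.exp (-θ * ht w)

/-- potentials: words of length at most `M` with `l` ones -/
noncomputable def VV (z θ : ℝ) (M l : ℕ) (x : ℤ) : ℝ :=
  ∑ k ∈ range (M + 1), ∑ w ∈ (BR k x).filter (fun w => jj w = l), wt z θ w

/-- smoothed potentials -/
noncomputable def VB (z θ t : ℝ) (M l : ℕ) (x : ℤ) : ℝ :=
  ∑ i ∈ range (l + 1), Real.exp (-t * (l - i : ℕ)) * VV z θ M i x

end Pool.Agent.Collatz3.LT
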