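import Pool.Agent.Collatz3.LTUp
import Pool.Agent.Collatz3.GAll

set_option autoImplicit false

/-!
The lower bound in the lower tail theorem.
-/

open Finset
open scoped Classical

namespace Pool.Agent.Collatz3.LT

/-- The nodes above the base point reached by the words with `n` letters and size at most `B`. -/
theorem nodes_low {a A : ℕ} (hA : Base a A) (n : ℕ) (B : ℝ) :
    ∃ F : Finset ℕ, F.card = cnt (A : ℤ) n B ∧ ∀ b ∈ F, 1 ≤ b ∧
    (b : ℝ) * 3 ^ n ≤ A * B ∧
    ∃ S : ℕ, T3^[S] b = A ∧ jj (wd S b) = n := by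
  have hA0 : (0 : ℤ) < (A : ℤ) := by exact_mod_cast hA.pos
  let f : List ℕ → ℕ := fun w =>
    if h : Ok (A : ℤ) w then (Classical.choose h).toNat else 0
  have hf : ∀ w ∈ paths (A : ℤ) n B, ∃ b : ℤ, Up (A : ℤ) w b ∧ f w = b.toNat := by
    rintro w ⟨_, _, _, h4⟩
    refine ⟨Classical.choose h4, (Classical.choose_spec h4).1, ?_⟩
    simp only [f, dif_pos h4]
  have hinj : Set.InjOn f (paths (A : ℤ) n B) := by
    intro w hw w' hw' hww
    obtain ⟨b, hb, hfb⟩ := hf w hw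
    obtain ⟨b', hb', hfb'⟩ := hf w' hw'
    have hp := hb.pos hA0 hw.2.1
    have hp' := hb'.pos hA0 hw'.2.1
    rw [hfb, hfb'] at hww
    have hbb : b = b' := by omega
    have t1 := hb.iter hA0 hw.2.1
    have t2 := hb'.iter hA0 hw'.2.1
    rw [hbb] at t1
    have hsum : w.sum = w'.sum :=
      hA.time_unique (b := b'.toNat) (by simpa using t1) (by simpa using t2)
    have hlen : w.length = w'.length := by rw [hw.1, hw'.1]
    refine word_inj w w' hw.2.1 hw'.2.1 hlen hsum ?_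
    have e1 := hb.rel
    have e2 := hb'.rel
    rw [hsum, hlen, hbb] at e1
    have e3 : (cw w : ℤ) = cw w' := by linarith
    exact_mod_cast e3
  have hfin := paths_finite (A : ℤ) n B
  refine ⟨(hfin.toFinset).image f, ?_, ?_⟩
  · rw [Finset.card_image_of_injOn, cnt, Set.ncard_eq_toFinset_card _ hfin]
    rw [Set.Finite.coe_toFinset]
    exact hinj
  · intro b hb
    rw [Finset.mem_image] at hb
    obtain ⟨w, hw, rfl⟩ := hb
    rw [Set.Finite.mem_toFinset] at hw
    obtain ⟨c, hc, hfc⟩ := hf w hw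
    have hp := hc.pos hA0 hw.2.1
    have ht := hc.iter hA0 hw.2.1
    have ht5 : T3^[w.sum] c.toNat = A := by simpa using ht
    have hj := jj_of_up hc hA0 hw.2.1
    rw [hw.1] at hj
    have hrel := hc.rel
    rw [hfc]
    obtain ⟨C, hC⟩ : ∃ C : ℕ, C = c.toNat := ⟨_, rfl⟩
    have hcC : c = (C : ℤ) := by omega
    rw [← hC] at ht5 hj ⊢
    rw [hcC, hw.1] at hrel
    have hrelR : (2 : ℝ) ^ w.sum * A = 3 ^ n * C + cw w := by exact_mod_cast hrel
    have hcw : (0 : ℝ) ≤ (cw w : ℝ) := Nat.cast_nonneg _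
    have hsz : (2 : ℝ) ^ w.sum + cw w ≤ B := by
      have := hw.2.2.1
      unfold size at this
      push_cast at this
      exact this
    have hAR : (0 : ℝ) < A := by exact_mod_cast hA.pos
    have h1 : (C : ℝ) * 3 ^ n ≤ A * 2 ^ w.sum := by nlinarith
    have h2 : (A : ℝ) * 2 ^ w.sum ≤ A * B := mul_le_mul_of_nonneg_left (by linarith) hAR.le
    exact ⟨by omega, h1.trans h2, w.sum, ht5, hj⟩

/-- the nodes reached after a long time are reached fast -/
theorem fast_of_long {A : ℕ} (hA : 0 < A) (hper : ∀ j : ℕ, 0 < j → T3^[j] A ≠ A) {c ρ η : ℝ}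
    (hc : 0 < c) (hρ : 0 < ρ) (hη : 0 < 1 - ρ * η)
    (hκ : 1 < c * (Real.log 2 - Real.log 3 * (ρ / (1 - ρ * η)))) (t₀ : ℕ) :
    ∃ N : ℕ, ∀ n : ℕ, N ≤ n → ∀ S b : ℕ, T3^[S] b = A → jj (wd S b) = n →
      (1 / ρ - η) * n ≤ S → (S : ℝ) + t₀ ≤ c * Real.log b := by
  set κ := Real.log 2 - Real.log 3 * (ρ / (1 - ρ * η)) with hκd
  obtain ⟨K₀, hK₀⟩ := UB.log_small t₀ c (c * κ - 1) (Nat.cast_nonneg _) hc.le (by linarith)
  refine ⟨K₀, fun n hn S b hS hj hSn => ?_⟩
  have hnS : n ≤ S := by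
    have := jj_le (wd S b)
    rw [wd_length, hj] at this
    exact this
  have h1 := hK₀ S (hn.trans hnS)
  have hpos : 0 < T3^[S] b := by rw [hS]; exact hA
  have hb : 0 < b := iter_pos (m := 0) hpos (Nat.zero_le _)
  have hb0 : (0 : ℝ) < b := by exact_mod_cast hb
  have hA0 : (0 : ℝ) < A := by exact_mod_cast hA
  have h2 := node_ge hpos (inj_of_base hS hper)
  have hht : ht (wd S b) = hh S n := by rw [ht, wd_length, hj]
  rw [hS, hht] at h2
  have h3 := Real.log_le_log (by positivity) h2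
  rw [Real.log_mul hA0.ne' (Real.exp_pos _).ne', Real.log_exp,
    Real.log_mul hb0.ne' (by positivity)] at h3
  have hla : 0 ≤ Real.log A := Real.log_natCast_nonneg A
  have h4 : κ * S ≤ hh S n := by
    have e1 : (n : ℝ) ≤ ρ / (1 - ρ * η) * S := by
      have e2 : ρ / (1 - ρ * η) * ((1 / ρ - η) * n) = n := by
        field_simp
      calc (n : ℝ) = ρ / (1 - ρ * η) * ((1 / ρ - η) * n) := e2.symm
        _ ≤ _ := mul_le_mul_of_nonneg_left hSn (by positivity)
    have e3 := mul_le_mul_of_nonneg_left e1 log3_pos.le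
    rw [hκd]
    unfold hh
    nlinarith
  have h5 : c * (κ * S) ≤ c * (Real.log b + Real.log (S + 1)) :=
    mul_le_mul_of_nonneg_left (by linarith) hc.le
  nlinarith

theorem growth_formula {ρ : ℝ} (h0 : 0 < ρ) (h1 : ρ < 1) :
    -Real.log (1 - ρ) / ρ - tht ρ * Real.log 3 = Real.binEntropy ρ / ρ - Real.log 3 := by
  have e5 : Real.binEntropy ρ = -(ρ * Real.log ρ) - (1 - ρ) * Real.log (1 - ρ) := by
    unfold Real.binEntropy
    rw [Real.log_inv, Real.log_inv]
    ring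
  rw [tht_mul h0 h1, e5]
  field_simp
  ring

/-- few nodes are reached after a short time -/
theorem few_short (hS : StmtS) {A : ℕ} (hA : 0 < A) {ρ η : ℝ} (r0 : 0 < ρ) (r1 : ρ < 1 / 2)
    (hη : 0 < η) : ∃ N : ℕ, ∀ n : ℕ, N ≤ n → ∀ F : Finset ℕ,
      (∀ b ∈ F, ∃ S : ℕ, T3^[S] b = A ∧ jj (wd S b) = n ∧ (S : ℝ) ≤ (1 / ρ - η) * n) →
      (F.card : ℝ) ≤ Real.exp ((Real.binEntropy ρ / ρ - Real.log 3 -
        η * (-Real.log (1 - ρ)) / 4) * n) / 2 := by
  set q : ℝ := -Real.log (1 - ρ) with hq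
  set θ := tht ρ with hθ
  have hq0 : 0 < q := by
    have := Real.log_neg (show 0 < 1 - ρ by linarith) (by linarith)
    linarith
  have hθ1 : θ < 1 := tht_lt r0 r1
  have hL2 := Lam_tht r0 (show ρ < 1 by linarith)
  rw [← hθ, ← hq] at hL2
  have hgf := growth_formula r0 (show ρ < 1 by linarith)
  rw [← hθ, ← hq] at hgf
  obtain ⟨C, hC0, hC⟩ := word_bound hS hA hθ1 (show 0 < ρ * (η * q / 4) by positivity)
  have hlr : 0 ≤ -Real.log ρ := by
    have := Real.log_nonpos r0.le (by linarith)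
    linarith
  obtain ⟨K₀, hK₀⟩ := UB.log_small (Real.log (2 * max C 1) + 2 * (-Real.log ρ)) 2 (η * q / 2)
    (add_nonneg (Real.log_nonneg (by linarith [le_max_right C 1])) (by positivity))
    (by norm_num) (by positivity)
  refine ⟨K₀, fun n hn F hF => ?_⟩
  have h1 := hK₀ n hn
  set M := ⌊(1 / ρ - η) * (n : ℝ)⌋₊ with hM
  have n0 : (0 : ℝ) ≤ n := Nat.cast_nonneg n
  -- the pieces
  have hsub : F ⊆ (range (M + 1)).biUnion fun S =>
      F.filter fun b => T3^[S] b = A ∧ jj (wd S b) = n ∧ (S : ℝ) ≤ (1 / ρ - η) * n := by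
    intro b hb
    obtain ⟨S, h2, h3, h4⟩ := hF b hb
    rw [mem_biUnion]
    refine ⟨S, ?_, ?_⟩
    · rw [mem_range]
      exact Nat.lt_succ_of_le (Nat.le_floor h4)
    · rw [mem_filter]
      exact ⟨hb, h2, h3, h4⟩
  have hcard : (F.card : ℝ) ≤ ∑ S ∈ range (M + 1), (((F.filter fun b =>
      T3^[S] b = A ∧ jj (wd S b) = n ∧ (S : ℝ) ≤ (1 / ρ - η) * n).card : ℕ) : ℝ) := by
    exact_mod_cast (card_le_card hsub).trans card_biUnion_le
  -- bound for the number of possible times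
  rcases F.eq_empty_or_nonempty with h0 | ⟨b₀, hb₀⟩
  · rw [h0, card_empty, Nat.cast_zero]; positivity
  obtain ⟨S₀, _, _, hS₀⟩ := hF b₀ hb₀
  have hpos : 0 ≤ (1 / ρ - η) * (n : ℝ) := le_trans (Nat.cast_nonneg _) hS₀
  have hM1 : (M : ℝ) ≤ (1 / ρ - η) * n := Nat.floor_le hpos
  have hM2 : (M : ℝ) + 1 ≤ (n + 1) / ρ := by
    have e1 : (n + 1) / ρ = 1 / ρ * n + 1 / ρ := by ring
    have e2 : 1 ≤ 1 / ρ := by rw [le_div_iff₀ r0]; linarith
    have e3 : 0 ≤ η * n := by positivity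
    rw [e1]
    nlinarith
  set G : ℝ := Real.binEntropy ρ / ρ - Real.log 3 with hG
  have hpiece : ∀ S ∈ range (M + 1), (((F.filter fun b =>
      T3^[S] b = A ∧ jj (wd S b) = n ∧ (S : ℝ) ≤ (1 / ρ - η) * n).card : ℕ) : ℝ) ≤
      max C 1 * ((n + 1) / ρ) * Real.exp ((G - η * q + η * q / 4) * n) := by
    intro S hSM
    rw [mem_range] at hSM
    have hSM' : (S : ℝ) ≤ M := by exact_mod_cast (show S ≤ M by omega)
    have hw := hC S n (F.filter fun b =>
      T3^[S] b = A ∧ jj (wd S b) = n ∧ (S : ℝ) ≤ (1 / ρ - η) * n) (by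
        intro b hb
        rw [mem_filter] at hb
        exact ⟨hb.2.1, hb.2.2.1⟩)
    refine hw.trans ?_
    refine mul_le_mul ?_ (Real.exp_le_exp.2 ?_) (Real.exp_pos _).le (by positivity)
    · exact mul_le_mul (le_max_left _ _) (by linarith) (by positivity) (by positivity)
    · have e1 : (Lam θ + ρ * (η * q / 4)) * S + θ * hh S n =
          (q + ρ * (η * q / 4)) * S - θ * Real.log 3 * n := by
        unfold hh
        rw [← hL2]
        ring
      have e2 : (q + ρ * (η * q / 4)) * S ≤ (q + ρ * (η * q / 4)) * ((1 / ρ - η) * n) :=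
        mul_le_mul_of_nonneg_left (hSM'.trans hM1) (by positivity)
      have e3 : (q + ρ * (η * q / 4)) * ((1 / ρ - η) * n) =
          (q / ρ - η * q + η * q / 4) * n - ρ * (η * q / 4) * η * n := by
        field_simp
        ring
      have e4 : 0 ≤ ρ * (η * q / 4) * η * n := by positivity
      have e5 : (G - η * q + η * q / 4) * n =
          (q / ρ - η * q + η * q / 4) * n - θ * Real.log 3 * n := by
        rw [← hgf]; ring
      rw [e1, e5]
      linarith
  refine hcard.trans ((sum_le_sum hpiece).trans ?_)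
  rw [sum_const, card_range, nsmul_eq_mul]
  have hn1 : (0 : ℝ) < (n : ℝ) + 1 := by positivity
  have h5 : ((M + 1 : ℕ) : ℝ) * (max C 1 * ((n + 1) / ρ) *
      Real.exp ((G - η * q + η * q / 4) * n)) ≤
      ((n + 1) / ρ) * (max C 1 * ((n + 1) / ρ) * Real.exp ((G - η * q + η * q / 4) * n)) := by
    refine mul_le_mul_of_nonneg_right ?_ (by positivity)
    push_cast
    exact hM2
  refine h5.trans ?_
  rw [le_div_iff₀ (by norm_num)]
  have e1 : ((n : ℝ) + 1) / ρ * (max C 1 * ((n + 1) / ρ) *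
      Real.exp ((G - η * q + η * q / 4) * n)) * 2 =
      Real.exp (Real.log (2 * max C 1) + 2 * (-Real.log ρ) + 2 * Real.log (n + 1) +
        (G - η * q + η * q / 4) * n) := by
    rw [Real.exp_add (Real.log (2 * max C 1) + 2 * (-Real.log ρ) + 2 * Real.log (n + 1)),
      Real.exp_add (Real.log (2 * max C 1) + 2 * (-Real.log ρ)),
      Real.exp_add (Real.log (2 * max C 1)), Real.exp_log (by positivity)]
    have f1 : Real.exp (2 * -Real.log ρ) = (1 / ρ) ^ 2 := by
      rw [← Real.log_inv, show (2 : ℝ) = ((2 : ℕ) : ℝ) by norm_num, ← Real.log_pow,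
        Real.exp_log (by positivity), one_div]
    have f2 : Real.exp (2 * Real.log ((n : ℝ) + 1)) = ((n : ℝ) + 1) ^ 2 := by
      rw [show (2 : ℝ) = ((2 : ℕ) : ℝ) by norm_num, ← Real.log_pow, Real.exp_log (by positivity)]
    rw [f1, f2]
    ring
  rw [e1]
  apply Real.exp_le_exp.2
  have e2 : (G - η * q / 4) * n = (η * q / 2) * n + (G - η * q + η * q / 4) * n := by ring
  rw [e2]
  linarith

theorem count_fast (hS : StmtS) {ρ c r : ℝ} (r0 : 0 < ρ) (r1 : ρ < 1 / 2) (hc0 : 0 < c)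
    (hκ : 1 < c * (Real.log 2 - ρ * Real.log 3)) (hpos : ρ * Real.log 3 < Real.binEntropy ρ)
    (hr : r < (Real.binEntropy ρ - ρ * Real.log 3) / (Real.log 2 - ρ * Real.log 3)) {a : ℕ}
    (ha : 0 < a) (h3 : ¬ 3 ∣ a) : ∀ᶠ x : ℕ in Filter.atTop, (x : ℝ) ^ r ≤
      (({n : ℕ | 1 ≤ n ∧ n ≤ x ∧ ∃ k : ℕ, T3^[k] n = a ∧ (k : ℝ) ≤ c * Real.log n}.ncard : ℕ) :
        ℝ) := by
  obtain ⟨A, hbase⟩ := exists_base ha h3
  obtain ⟨t₀, ht₀⟩ := hbase.reach
  have hA0 : (0 : ℝ) < A := by exact_mod_cast hbase.pos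
  have h3' : ¬ (3 : ℤ) ∣ (A : ℤ) := by
    intro h5
    exact hbase.three (by exact_mod_cast h5)
  have hD0 : 0 < Real.log 2 - ρ * Real.log 3 := by
    by_contra h
    push Not at h
    have : c * (Real.log 2 - ρ * Real.log 3) ≤ 0 := mul_nonpos_of_nonneg_of_nonpos hc0.le h
    linarith
  have hgrow := growth_of_rho all_tilts r0 (by linarith) hpos
  set s := Real.log 2 / ρ with hs
  set g := Real.binEntropy ρ / ρ - Real.log 3 with hg
  set q := -Real.log (1 - ρ) with hq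
  have hq0 : 0 < q := by
    have := Real.log_neg (show 0 < 1 - ρ by linarith) (by linarith)
    linarith
  have hg0 : 0 < g := by
    rw [hg, sub_pos, lt_div_iff₀ r0]
    linarith
  have hs3 : s - Real.log 3 = (Real.log 2 - ρ * Real.log 3) / ρ := by rw [hs]; field_simp
  have hs0 : 0 < s - Real.log 3 := by rw [hs3]; positivity
  have hr' : r < g / (s - Real.log 3) := by
    have e : g = (Real.binEntropy ρ - ρ * Real.log 3) / ρ := by rw [hg]; field_simp
    rw [hs3, e, div_div_div_cancel_right₀ r0.ne']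
    exact hr
  -- choice of η
  have hev1 : ∀ᶠ η in nhdsWithin (0 : ℝ) (Set.Ioi 0),
      (1 < c * (Real.log 2 - Real.log 3 * (ρ / (1 - ρ * η))) ∧ 0 < 1 - ρ * η) ∧ 0 < η := by
    have c1 : ContinuousAt (fun η : ℝ => c * (Real.log 2 - Real.log 3 * (ρ / (1 - ρ * η)))) 0 := by
      have : ContinuousAt (fun η : ℝ => ρ / (1 - ρ * η)) 0 := by
        apply ContinuousAt.div (by fun_prop) (by fun_prop)
        simp
      fun_prop
    have c2 : ContinuousAt (fun η : ℝ => 1 - ρ * η) 0 := by fun_prop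
    have e1 := c1.tendsto.eventually (lt_mem_nhds (a := 1) (by
      simp only [mul_zero, sub_zero, div_one]
      linarith))
    have e2 := c2.tendsto.eventually (lt_mem_nhds (a := 0) (by simp))
    filter_upwards [(e1.and e2).filter_mono nhdsWithin_le_nhds, self_mem_nhdsWithin] with η h4 h5
    exact ⟨h4, h5⟩
  obtain ⟨η, ⟨η1, η2⟩, η3⟩ := hev1.exists
  -- choice of d
  have hev2 : ∀ᶠ d in nhdsWithin (0 : ℝ) (Set.Ioi 0),
      (r < (g - d) / (s + d - Real.log 3) ∧ d < η * q / 4 ∧ d < g) ∧ 0 < d := by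
    have c1 : ContinuousAt (fun d : ℝ => (g - d) / (s + d - Real.log 3)) 0 := by
      apply ContinuousAt.div (by fun_prop) (by fun_prop)
      simp only [add_zero]
      exact hs0.ne'
    have e1 := c1.tendsto.eventually (lt_mem_nhds (a := r) (by
      simp only [add_zero, sub_zero]
      exact hr'))
    have e2 : ∀ᶠ d in nhds (0 : ℝ), d < η * q / 4 := gt_mem_nhds (by positivity)
    have e3 : ∀ᶠ d in nhds (0 : ℝ), d < g := gt_mem_nhds hg0
    filter_upwards [(e1.and (e2.and e3)).filter_mono nhdsWithin_le_nhds, self_mem_nhdsWithin]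
      with d h4 h5
    exact ⟨⟨h4.1, h4.2.1, h4.2.2⟩, h5⟩
  obtain ⟨d, ⟨hd1, hd2, hd3⟩, hd0⟩ := hev2.exists
  obtain ⟨N₀, hN₀⟩ := hgrow d hd0
  obtain ⟨N₁, hN₁⟩ := few_short hS hbase.pos r0 r1 η3
  obtain ⟨N₂, hN₂⟩ := fast_of_long hbase.pos (fun j hj => hbase.not_per hj) hc0 r0 η2 η1 t₀
  obtain ⟨D, hD⟩ : ∃ D, D = s + d - Real.log 3 := ⟨_, rfl⟩
  have hDpos : 0 < D := by rw [hD]; linarith
  rw [← hD] at hd1
  obtain ⟨α, hα⟩ : ∃ α, α = (g - d) / D := ⟨_, rfl⟩
  have hαpos : 0 < α := by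
    rw [hα]
    exact div_pos (by linarith) hDpos
  rw [← hα] at hd1
  obtain ⟨e, he⟩ : ∃ e, e = α * Real.log A + α * D := ⟨_, rfl⟩
  have hlogtop : Filter.Tendsto (fun x : ℕ => Real.log (x : ℝ)) Filter.atTop Filter.atTop :=
    Real.tendsto_log_atTop.comp tendsto_natCast_atTop_atTop
  filter_upwards [hlogtop.eventually_ge_atTop (Real.log A + D * ((N₀ + N₁ + N₂ : ℕ) + 1)),
    hlogtop.eventually_ge_atTop ((e + Real.log 2) / (α - r)),
    Filter.eventually_ge_atTop 1] with x hx1 hx2 hx3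
  have hx0 : (0 : ℝ) < x := by exact_mod_cast hx3
  obtain ⟨L, hL⟩ : ∃ L, L = Real.log x := ⟨_, rfl⟩
  rw [← hL] at hx1 hx2
  obtain ⟨n, hn⟩ : ∃ n, n = ⌊(L - Real.log A) / D⌋₊ := ⟨_, rfl⟩
  have hq' : ((N₀ + N₁ + N₂ : ℕ) : ℝ) + 1 ≤ (L - Real.log A) / D := by
    rw [le_div_iff₀ hDpos]
    linarith
  have hnN : N₀ + N₁ + N₂ ≤ n := by
    rw [hn]
    apply Nat.le_floor
    linarith
  have hq0' : 0 ≤ (L - Real.log A) / D := by
    have : (0 : ℝ) ≤ ((N₀ + N₁ + N₂ : ℕ) : ℝ) := Nat.cast_nonneg _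
    linarith
  have hn1 : (n : ℝ) ≤ (L - Real.log A) / D := by
    rw [hn]
    exact Nat.floor_le hq0'
  have hn2 : (L - Real.log A) / D - 1 ≤ n := by
    have := Nat.lt_floor_add_one ((L - Real.log A) / D)
    rw [← hn] at this
    linarith
  have hn1' : D * n ≤ L - Real.log A := by
    have := mul_le_mul_of_nonneg_left hn1 hDpos.le
    rwa [mul_div_cancel₀ _ hDpos.ne'] at this
  have hcnt := hN₀ n (by omega) A h3'
  obtain ⟨F, hF1, hF2⟩ := nodes_low hbase n (Real.exp ((s + d) * n))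
  rw [← hF1] at hcnt
  -- the short nodes
  set Q : ℕ → Prop := fun b => ∃ S : ℕ, T3^[S] b = A ∧ jj (wd S b) = n ∧
    (S : ℝ) ≤ (1 / ρ - η) * n with hQ
  have hshort := hN₁ n (by omega) (F.filter Q) (fun b hb => by
    rw [mem_filter] at hb
    exact hb.2)
  have hshort' : ((F.filter Q).card : ℝ) ≤ Real.exp ((g - d) * n) / 2 := by
    refine hshort.trans ?_
    rw [div_le_div_iff_of_pos_right (by norm_num)]
    apply Real.exp_le_exp.2
    refine mul_le_mul_of_nonneg_right ?_ (Nat.cast_nonneg _)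
    linarith
  -- the other nodes
  have hsub : (F.filter (fun b => ¬ Q b) : Set ℕ) ⊆
      {n : ℕ | 1 ≤ n ∧ n ≤ x ∧ ∃ k : ℕ, T3^[k] n = a ∧ (k : ℝ) ≤ c * Real.log n} := by
    intro b hb
    rw [Finset.mem_coe, Finset.mem_filter] at hb
    obtain ⟨hbF, hbQ⟩ := hb
    obtain ⟨b1, b2, S, b3, b4⟩ := hF2 b hbF
    have hb0 : (0 : ℝ) < b := by exact_mod_cast b1
    have hlong : (1 / ρ - η) * n ≤ S := by
      by_contra hcon
      push Not at hcon
      exact hbQ ⟨S, b3, b4, hcon.le⟩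
    have hfast := hN₂ n (by omega) S b b3 b4 hlong
    refine ⟨b1, ?_, t₀ + S, ?_, ?_⟩
    · have h3n : (0 : ℝ) < 3 ^ n := by positivity
      have e1 : Real.log b + n * Real.log 3 ≤ Real.log A + (s + d) * n := by
        have := Real.log_le_log (by positivity) b2
        rw [Real.log_mul hb0.ne' h3n.ne', Real.log_mul hA0.ne' (Real.exp_pos _).ne',
          Real.log_pow, Real.log_exp] at this
        exact this
      have e2 : Real.log b ≤ Real.log x := by
        rw [← hL]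
        have e3 : D * n = (s + d) * n - n * Real.log 3 := by rw [hD]; ring
        rw [e3] at hn1'
        linarith
      exact_mod_cast (Real.log_le_log_iff hb0 hx0).1 e2
    · rw [Function.iterate_add_apply, b3, ht₀]
    · push_cast
      linarith
  have hfin : {n : ℕ | 1 ≤ n ∧ n ≤ x ∧
      ∃ k : ℕ, T3^[k] n = a ∧ (k : ℝ) ≤ c * Real.log n}.Finite := by
    refine (Set.finite_Iic x).subset ?_
    rintro b ⟨_, hb, _⟩
    exact hb
  have hcard1 := Set.ncard_le_ncard hsub hfin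
  rw [Set.ncard_coe_finset] at hcard1
  have hcard2 := Finset.card_filter_add_card_filter_not (s := F) Q
  have hcard3 : (F.card : ℝ) ≤ ((F.filter Q).card : ℝ) +
      (({n : ℕ | 1 ≤ n ∧ n ≤ x ∧
        ∃ k : ℕ, T3^[k] n = a ∧ (k : ℝ) ≤ c * Real.log n}.ncard : ℕ) : ℝ) := by
    exact_mod_cast (show F.card ≤ _ by omega)
  have hexp : Real.exp (α * L - e) ≤ Real.exp ((g - d) * n) := by
    apply Real.exp_le_exp.2
    have e1 : g - d = α * D := by
      rw [hα]
      field_simp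
    have e2 : L - Real.log A - D ≤ D * n := by
      have := mul_le_mul_of_nonneg_left hn2 hDpos.le
      rw [mul_sub, mul_div_cancel₀ _ hDpos.ne', mul_one] at this
      exact this
    exact aux_exp e1 hαpos.le e2 he
  have hp1 : (x : ℝ) ^ r ≤ Real.exp (α * L - e) / 2 := by
    rw [Real.rpow_def_of_pos hx0, ← hL, le_div_iff₀ (by norm_num)]
    have e1 : (2 : ℝ) = Real.exp (Real.log 2) := (Real.exp_log (by norm_num)).symm
    have e3 : Real.exp (L * r) * 2 = Real.exp (L * r + Real.log 2) := by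
      rw [Real.exp_add, ← e1]
    rw [e3]
    apply Real.exp_le_exp.2
    rw [div_le_iff₀ (by linarith)] at hx2
    have e2 : L * (α - r) = α * L - L * r := by ring
    rw [e2] at hx2
    linarith
  linarith

theorem lt_binEntropy {ρ : ℝ} (r0 : 0 < ρ) (r1 : ρ < 1 / 2) :
    ρ * Real.log 3 < Real.binEntropy ρ := by
  have h1 : 0 < 1 - ρ := by linarith
  have e5 : Real.binEntropy ρ = -(ρ * Real.log ρ) - (1 - ρ) * Real.log (1 - ρ) := by
    unfold Real.binEntropy
    rw [Real.log_inv, Real.log_inv]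
    ring
  have h2 : Real.log ρ ≤ -Real.log 2 := by
    have := Real.log_le_log r0 r1.le
    rw [one_div, Real.log_inv] at this
    exact this
  have h3 : Real.log (1 - ρ) ≤ -ρ := by
    have := Real.log_le_sub_one_of_pos h1
    linarith
  have h4 : Real.log 3 < Real.log 2 + 1 / 2 := by
    have h5 := Real.log_lt_sub_one_of_pos (show (0 : ℝ) < 3 / 2 by norm_num) (by norm_num)
    rw [Real.log_div (by norm_num) (by norm_num)] at h5
    linarith
  rw [e5]
  have h6 : ρ * Real.log ρ ≤ ρ * (-Real.log 2) := mul_le_mul_of_nonneg_left h2 r0.le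
  have h7 : (1 - ρ) * Real.log (1 - ρ) ≤ (1 - ρ) * (-ρ) := mul_le_mul_of_nonneg_left h3 h1.le
  have h8 : ρ * Real.log 3 < ρ * (Real.log 2 + 1 / 2) := mul_lt_mul_of_pos_left h4 r0
  nlinarith

theorem lower (hS : StmtS) {a : ℕ} (ha : 0 < a) (h3 : ¬ 3 ∣ a) {c : ℝ} (hc : 1 / Real.log 2 < c)
    (hc' : c < ((1 / 2) * Real.log (4 / 3))⁻¹) {ε : ℝ} (hε : 0 < ε) : ∀ᶠ x : ℕ in Filter.atTop,
      (x : ℝ) ^ (1 - c * Leg.gL (1 / c) - ε) ≤
      (({n : ℕ | 1 ≤ n ∧ n ≤ x ∧ ∃ k : ℕ, T3^[k] n = a ∧ (k : ℝ) ≤ c * Real.log n}.ncard : ℕ) : ℝ) := by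
  obtain ⟨ρ, r0, r1, hc0, r2, -⟩ := params hc hc'
  have hDρ : 0 < Real.log 2 - ρ * Real.log 3 := by rw [← r2]; positivity
  have hexp := Leg.exponent_eq r0 (by linarith) r2 hDρ
  -- continuity
  have hcont : ContinuousAt (fun t : ℝ =>
      (Real.binEntropy t - t * Real.log 3) / (Real.log 2 - t * Real.log 3)) ρ := by
    apply ContinuousAt.div (by fun_prop) (by fun_prop)
    exact hDρ.ne'
  have hev : ∀ᶠ t in nhdsWithin ρ (Set.Iio ρ),
      (1 - c * Leg.gL (1 / c) - ε <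
        (Real.binEntropy t - t * Real.log 3) / (Real.log 2 - t * Real.log 3) ∧ 0 < t) ∧ t < ρ := by
    have e1 : 1 - c * Leg.gL (1 / c) - ε <
        (Real.binEntropy ρ - ρ * Real.log 3) / (Real.log 2 - ρ * Real.log 3) := by
      rw [← hexp]
      linarith
    have e2 := hcont.tendsto.eventually (lt_mem_nhds e1)
    have e3 : ∀ᶠ t in nhds ρ, 0 < t := lt_mem_nhds r0
    filter_upwards [(e2.and e3).filter_mono nhdsWithin_le_nhds, self_mem_nhdsWithin] with t h8 h9
    exact ⟨h8, h9⟩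
  obtain ⟨t, ⟨t1, t2⟩, t3⟩ := hev.exists
  refine count_fast hS (ρ := t) t2 (by linarith) hc0 ?_ (lt_binEntropy t2 (by linarith)) t1 ha h3
  have h4 : c * (Real.log 2 - ρ * Real.log 3) = 1 := by rw [← r2]; field_simp
  rw [← h4]
  refine mul_lt_mul_of_pos_left ?_ hc0
  have := mul_lt_mul_of_pos_right t3 log3_pos
  linarith

end Pool.Agent.Collatz3.LT
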