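import Pool.Agent.Collatz3.LTWords

set_option autoImplicit false

/-!
Words of paths.
-/

open Finset
open scoped Classical

namespace Pool.Agent.Collatz3.LT

open UB.PathZ (T W X)

theorem lw_length (k : ℕ) (ω : UB.PathZ) : (lw k ω).length = k := by simp [lw]

theorem lw_zero (ω : UB.PathZ) : lw 0 ω = [] := rfl

theorem lw_succ (k : ℕ) (ω : UB.PathZ) : lw (k + 1) ω = lw k ω ++ [decide (ω.e k = 1)] := by
  unfold lw
  rw [List.range_succ, List.map_append, List.map_singleton]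

theorem lw_take {i k : ℕ} (h : i ≤ k) (ω : UB.PathZ) : (lw k ω).take i = lw i ω := by
  unfold lw
  rw [← List.map_take, List.take_range, min_eq_left h]

theorem lw_add (s t : ℕ) (ω : UB.PathZ) : lw (s + t) ω = lw s ω ++ lw t (T^[s] ω) := by
  induction t with
  | zero => simp [lw_zero]
  | succ t ih =>
    rw [← add_assoc, lw_succ, ih, lw_succ, UB.PathZ.e_iter, List.append_assoc]

theorem lw_drop {s k : ℕ} (h : s ≤ k) (ω : UB.PathZ) : (lw k ω).drop s = lw (k - s) (T^[s] ω) := by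
  have e : k = s + (k - s) := by omega
  conv_lhs => rw [e, lw_add]
  rw [List.drop_left' (lw_length s ω)]

theorem jj_cc_lw (k : ℕ) (ω : UB.PathZ) : jj (lw k ω) = ω.j k ∧ cc (lw k ω) = ω.c k := by
  induction k with
  | zero => simp [lw_zero, UB.PathZ.j_zero, UB.PathZ.c_zero]
  | succ k ih =>
    rw [lw_succ, jj_append, UB.PathZ.j_succ, UB.PathZ.c_succ, ih.1]
    rcases ω.e_cases k with h | h
    · have : decide (ω.e k = 1) = false := by simp [h]
      rw [this, cc_snoc_false, ih.2, h]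
      simp
    · have : decide (ω.e k = 1) = true := by simp [h]
      rw [this, cc_snoc_true, ih.1, ih.2, h]
      simp

theorem jj_lw (k : ℕ) (ω : UB.PathZ) : jj (lw k ω) = ω.j k := (jj_cc_lw k ω).1
theorem cc_lw (k : ℕ) (ω : UB.PathZ) : cc (lw k ω) = ω.c k := (jj_cc_lw k ω).2

theorem ht_lw (k : ℕ) (ω : UB.PathZ) : ht (lw k ω) = hh k (ω.j k) := by
  unfold ht; rw [lw_length, jj_lw]

theorem Read_lw (k : ℕ) (ω : UB.PathZ) : Read (ω.b 0) (lw k ω) := by
  unfold Read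
  rw [lw_length, jj_lw, cc_lw]
  exact ω.c_emod k

theorem nd_lw (k : ℕ) (ω : UB.PathZ) : nd (ω.b 0) (lw k ω) = ω.b k := by
  have h1 := nd_spec (Read_lw k ω)
  rw [lw_length, jj_lw, cc_lw] at h1
  have h2 := ω.main k
  have h3 : (3 : ℤ) ^ ω.j k * nd (ω.b 0) (lw k ω) = 3 ^ ω.j k * ω.b k := by linarith
  exact mul_left_cancel₀ (by positivity) h3

theorem lw_eq_iff {k : ℕ} {ω ω' : UB.PathZ} : lw k ω = lw k ω' ↔ W k ω = W k ω' := by
  constructor
  · intro h
    unfold UB.PathZ.W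
    rw [← jj_lw, ← cc_lw, h, jj_lw, cc_lw]
  · intro h
    unfold UB.PathZ.W at h
    rw [Prod.mk.injEq] at h
    exact cc_inj k _ _ (lw_length k ω) (lw_length k ω') (by rw [jj_lw, jj_lw, h.1])
      (by rw [cc_lw, cc_lw, h.2])

theorem Cu_Bar {ω : UB.PathZ} (h : ω ∈ Cu) (k : ℕ) : Bar (lw k ω) := by
  intro i h1 h2
  rw [lw_length] at h2
  rw [lw_take h2, ht_lw]
  exact h i h1

theorem lw_mem_BR {ω : UB.PathZ} (h : ω ∈ Cu) (k : ℕ) : lw k ω ∈ BR k (ω.b 0) := by
  rw [mem_BR]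
  exact ⟨lw_length k ω, Cu_Bar h k, Read_lw k ω⟩

theorem lw_mem_WL (k : ℕ) (ω : UB.PathZ) : lw k ω ∈ WL k := mem_WL.2 (lw_length k ω)

theorem FR_lw (k : ℕ) : UB.FR (lw k) := UB.FR.of_mem (WL k) fun ω => lw_mem_WL k ω

/-- a path is in `Cu` if and only if all its words are barrier words -/
theorem Cu_iff {ω : UB.PathZ} : ω ∈ Cu ↔ ∀ k, Bar (lw k ω) := by
  constructor
  · intro h k; exact Cu_Bar h k
  · intro h s hs
    have := h s s hs (by rw [lw_length])
    rw [lw_take le_rfl, ht_lw] at this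
    exact this

theorem abs_hh_le {k l : ℕ} (h : l ≤ k) : |hh k l| ≤ k * Real.log 3 := by
  have h1 : (l : ℝ) ≤ k := by exact_mod_cast h
  have h2 := log2_pos
  have h3 := log3_pos
  have h4 := log2_lt_log3
  have h5 : (0 : ℝ) ≤ l := Nat.cast_nonneg l
  unfold hh
  rw [abs_le]
  constructor
  · nlinarith [mul_le_mul_of_nonneg_right h1 h3.le]
  · nlinarith [mul_nonneg h5 h3.le, mul_le_mul_of_nonneg_left h4.le (Nat.cast_nonneg (α := ℝ) k)]

end Pool.Agent.Collatz3.LT
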