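import Pool.Agent.Collatz3.LTGrow

set_option autoImplicit false

/-!
Potentials of barrier words.
-/

open Finset
open scoped Classical

namespace Pool.Agent.Collatz3.LT

/-- parameter of the potentials -/
noncomputable def zz (θ ε : ℝ) : ℝ := Real.exp (-(lam θ + ε))

/-- mean number of lifts -/
noncomputable def rr (θ : ℝ) : ℝ :=
  max (Real.exp (-lam θ - θ * Real.log 2) * Real.exp (θ * Real.log 3) /
    (1 - Real.exp (-lam θ - θ * Real.log 2))) (3 * Real.exp (-(lam θ / 2)))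

theorem zz_pos (θ ε : ℝ) : 0 < zz θ ε := Real.exp_pos _

theorem rr_lt {θ : ℝ} (h0 : 0 < lam θ) (hg : 0 < lam θ + θ * Real.log 2) (hL : Lam θ < lam θ) :
    rr θ < 3 := by
  unfold rr
  refine max_lt ?_ ?_
  · set q := Real.exp (-lam θ - θ * Real.log 2) with hq
    have hq1 : q < 1 := Real.exp_lt_one_iff.2 (by linarith)
    rw [div_lt_iff₀ (by linarith)]
    have h2 : (2 : ℝ) ^ (-θ) * (1 + (3 : ℝ) ^ (θ - 1)) < Real.exp (lam θ) := by
      unfold Lam at hL
      exact (Real.log_lt_iff_lt_exp (by positivity)).1 hL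
    have h3 : (2 : ℝ) ^ (-θ) = Real.exp (-θ * Real.log 2) := by
      rw [Real.rpow_def_of_pos (by norm_num)]
      congr 1; ring
    have h4 : (3 : ℝ) ^ (θ - 1) = Real.exp (θ * Real.log 3) / 3 := by
      rw [Real.rpow_sub (by norm_num), Real.rpow_one, Real.rpow_def_of_pos (by norm_num)]
      congr 2; ring
    have h5 : q = Real.exp (-θ * Real.log 2) * Real.exp (-lam θ) := by
      rw [hq, ← Real.exp_add]; congr 1; ring
    have h6 : Real.exp (lam θ) * Real.exp (-lam θ) = 1 := by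
      rw [← Real.exp_add]; simp
    rw [h3, h4] at h2
    have h7 := mul_lt_mul_of_pos_right h2 (Real.exp_pos (-lam θ))
    rw [h6] at h7
    have h8 : Real.exp (-θ * Real.log 2) * (1 + Real.exp (θ * Real.log 3) / 3) * Real.exp (-lam θ) =
        q * (1 + Real.exp (θ * Real.log 3) / 3) := by rw [h5]; ring
    rw [h8] at h7
    linarith
  · have : Real.exp (-(lam θ / 2)) < 1 := Real.exp_lt_one_iff.2 (by linarith)
    linarith

/-! ### weights -/

variable {z θ : ℝ}

theorem wt_pos (hz : 0 < z) (w : List Bool) : 0 < wt z θ w := by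
  unfold wt
  exact mul_pos (pow_pos hz _) (Real.exp_pos _)

theorem wt_nil : wt z θ [] = 1 := by simp [wt]

theorem wt_append (w v : List Bool) : wt z θ (w ++ v) = wt z θ w * wt z θ v := by
  unfold wt
  rw [List.length_append, ht_append, pow_add, mul_add, Real.exp_add]
  ring

theorem wt_false : wt z θ [false] = z * Real.exp (-θ * Real.log 2) := by
  unfold wt; rw [ht_false]; simp

theorem wt_true : wt z θ [true] =
    z * Real.exp (-θ * Real.log 2) * Real.exp (θ * Real.log 3) := by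
  unfold wt
  rw [ht_true, mul_assoc, ← Real.exp_add]
  simp only [List.length_cons, List.length_nil, zero_add, pow_one]
  congr 2; ring

/-- words of length `k` with `l` ones -/
noncomputable def bs (z θ : ℝ) (k l : ℕ) (x : ℤ) : ℝ :=
  ∑ w ∈ (BR k x).filter (fun w => jj w = l), wt z θ w

theorem bs_nonneg (hz : 0 < z) (k l : ℕ) (x : ℤ) : 0 ≤ bs z θ k l x :=
  sum_nonneg fun w _ => (wt_pos hz w).le

theorem VV_eq (M l : ℕ) (x : ℤ) : VV z θ M l x = ∑ k ∈ range (M + 1), bs z θ k l x := rfl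

theorem VV_nonneg (hz : 0 < z) (M l : ℕ) (x : ℤ) : 0 ≤ VV z θ M l x :=
  sum_nonneg fun k _ => bs_nonneg hz k l x

theorem filter_congr_mod {k l i : ℕ} (hi : i ≤ l) {x y : ℤ} (h : x % 3 ^ l = y % 3 ^ l) :
    (BR k x).filter (fun w => jj w = i) = (BR k y).filter (fun w => jj w = i) := by
  ext w
  rw [mem_filter, mem_filter, mem_BR, mem_BR]
  constructor
  · rintro ⟨⟨h1, h2, h3⟩, h4⟩
    exact ⟨⟨h1, h2, (Read_congr (by omega) h).1 h3⟩, h4⟩
  · rintro ⟨⟨h1, h2, h3⟩, h4⟩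
    exact ⟨⟨h1, h2, (Read_congr (by omega) h).2 h3⟩, h4⟩

theorem bs_congr {k l i : ℕ} (hi : i ≤ l) {x y : ℤ} (h : x % 3 ^ l = y % 3 ^ l) :
    bs z θ k i x = bs z θ k i y := by
  unfold bs; rw [filter_congr_mod hi h]

theorem VV_congr {M l i : ℕ} (hi : i ≤ l) {x y : ℤ} (h : x % 3 ^ l = y % 3 ^ l) :
    VV z θ M i x = VV z θ M i y := by
  rw [VV_eq, VV_eq]
  exact sum_congr rfl fun k _ => bs_congr hi h

theorem VB_congr (z θ t : ℝ) (M l : ℕ) {x y : ℤ} (h : x % 3 ^ l = y % 3 ^ l) :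
    VB z θ t M l x = VB z θ t M l y := by
  unfold VB
  refine sum_congr rfl fun i hi => ?_
  rw [VV_congr (z := z) (θ := θ) (M := M) (by have := mem_range.1 hi; omega) h]

theorem mod_add (x t : ℤ) (l : ℕ) : (x + 3 ^ l * t) % 3 ^ l = x % 3 ^ l :=
  Int.add_mul_emod_self_left _ _ _

theorem VV_le_VB (hz : 0 < z) (t : ℝ) (M l : ℕ) (x : ℤ) : VV z θ M l x ≤ VB z θ t M l x := by
  unfold VB
  rw [sum_range_succ, Nat.sub_self]
  simp only [Nat.cast_zero, mul_zero, Real.exp_zero, one_mul]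
  have : 0 ≤ ∑ i ∈ range l, Real.exp (-t * (l - i : ℕ)) * VV z θ M i x :=
    sum_nonneg fun i _ => mul_nonneg (Real.exp_pos _).le (VV_nonneg hz M i x)
  linarith

theorem VB_succ (z θ t : ℝ) (M l : ℕ) (x : ℤ) :
    VB z θ t M (l + 1) x = VV z θ M (l + 1) x + Real.exp (-t) * VB z θ t M l x := by
  unfold VB
  rw [sum_range_succ, Nat.sub_self, mul_sum]
  simp only [Nat.cast_zero, mul_zero, Real.exp_zero, one_mul]
  rw [add_comm]
  congr 1
  refine sum_congr rfl fun i hi => ?_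
  have h1 : l + 1 - i = (l - i) + 1 := by have := mem_range.1 hi; omega
  rw [h1, ← mul_assoc, ← Real.exp_add]
  congr 2
  push_cast
  ring

theorem VV_zero_ge (hz : 0 < z) (M : ℕ) (x : ℤ) : 1 ≤ VV z θ M 0 x := by
  rw [VV_eq]
  have h1 : bs z θ 0 0 x = 1 := by
    unfold bs
    rw [BR_zero, filter_singleton, if_pos (by rfl), sum_singleton, wt_nil]
  rw [sum_range_succ', h1]
  have : 0 ≤ ∑ k ∈ range M, bs z θ (k + 1) 0 x := sum_nonneg fun k _ => bs_nonneg hz _ _ _
  linarith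

theorem VB_nonneg (hz : 0 < z) (t : ℝ) (M l : ℕ) (x : ℤ) : 0 ≤ VB z θ t M l x :=
  (VV_nonneg hz M l x).trans (VV_le_VB hz t M l x)

theorem VB_succ_ge {z : ℝ} (hz : 0 < z) (θ t : ℝ) (M l : ℕ) (x : ℤ) :
    Real.exp (-t) * VB z θ t M l x ≤ VB z θ t M (l + 1) x := by
  rw [VB_succ]
  have := VV_nonneg (θ := θ) hz M (l + 1) x
  linarith

theorem VB_pos {z : ℝ} (hz : 0 < z) (θ t : ℝ) (M l : ℕ) (x : ℤ) : 0 < VB z θ t M l x := by
  induction l with
  | zero =>
    have h1 := VV_le_VB (θ := θ) hz t M 0 x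
    have h2 := VV_zero_ge (θ := θ) hz M x
    linarith
  | succ l ih =>
    exact (mul_pos (Real.exp_pos _) ih).trans_le (VB_succ_ge hz θ t M l x)

/-! ### one lift -/

theorem bs_zero_succ (l : ℕ) (x : ℤ) : bs z θ 0 (l + 1) x = 0 := by
  unfold bs
  rw [BR_zero, filter_singleton, if_neg (by simp), sum_empty]

theorem sum_union_le' {α : Type*} [DecidableEq α] (A B : Finset α) (f : α → ℝ) (h : ∀ a, 0 ≤ f a) :
    ∑ a ∈ A ∪ B, f a ≤ ∑ a ∈ A, f a + ∑ a ∈ B, f a := by
  have h1 := sum_union_inter (s₁ := A) (s₂ := B) (f := f)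
  have h2 : 0 ≤ ∑ a ∈ A ∩ B, f a := sum_nonneg fun a _ => h a
  linarith

theorem snoc_inj (b : Bool) : Function.Injective fun w : List Bool => w ++ [b] := by
  intro w v h
  exact List.append_cancel_right h

theorem bs_succ_le (hz : 0 < z) (k l : ℕ) (x : ℤ) : bs z θ (k + 1) (l + 1) x ≤
    wt z θ [false] * bs z θ k (l + 1) x + wt z θ [true] *
      ∑ w ∈ (BR k x).filter (fun w => jj w = l), if (3 : ℤ) ∣ 2 * nd x w - 1 then wt z θ w else 0 := by
  have h1 : (BR (k + 1) x).filter (fun w => jj w = l + 1) ⊆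
      ((BR k x).filter (fun w => jj w = l + 1)).image (fun w => w ++ [false]) ∪
      (((BR k x).filter (fun w => jj w = l)).filter (fun w => (3 : ℤ) ∣ 2 * nd x w - 1)).image
        (fun w => w ++ [true]) := by
    intro w hw
    rw [mem_filter, mem_BR] at hw
    obtain ⟨⟨h1, h2, h3⟩, h4⟩ := hw
    rcases List.eq_nil_or_concat w with rfl | ⟨w', b, rfl⟩
    · simp at h1
    rw [List.concat_eq_append] at h1 h2 h3 h4 ⊢
    rw [List.length_append, List.length_singleton] at h1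
    obtain ⟨h5, h6⟩ := Read_append.1 h3
    rw [jj_append] at h4
    rw [mem_union, mem_image, mem_image]
    cases b
    · left
      refine ⟨w', ?_, rfl⟩
      rw [mem_filter, mem_BR]
      refine ⟨⟨by omega, h2.left, h5⟩, ?_⟩
      simpa using h4
    · right
      refine ⟨w', ?_, rfl⟩
      rw [mem_filter, mem_filter, mem_BR]
      refine ⟨⟨⟨by omega, h2.left, h5⟩, ?_⟩, ?_⟩
      · simpa using h4
      · unfold Read at h6
        simpa using h6
  unfold bs
  have hnn : ∀ w : List Bool, 0 ≤ wt z θ w := fun w => (wt_pos hz w).le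
  refine (sum_le_sum_of_subset_of_nonneg h1 fun w _ _ => hnn w).trans ?_
  refine (sum_union_le' _ _ _ hnn).trans ?_
  rw [sum_image fun a _ b _ h => snoc_inj false h, sum_image fun a _ b _ h => snoc_inj true h]
  simp only [wt_append]
  refine le_of_eq ?_
  congr 1
  · rw [mul_sum]
    exact sum_congr rfl fun w _ => mul_comm _ _
  · rw [sum_filter (fun w => (3 : ℤ) ∣ 2 * nd x w - 1), mul_sum]
    refine sum_congr rfl fun w _ => ?_
    split_ifs
    · exact mul_comm _ _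
    · rw [mul_zero]

theorem three_lifts (y : ℤ) (k : ℕ) (v : ℝ) (hv : 0 ≤ v) :
    ∑ u ∈ range 3, (if (3 : ℤ) ∣ 2 * (y + 2 ^ k * (u : ℤ)) - 1 then v else 0) ≤ v := by
  have h2 : (2 : ℤ) ^ k % 3 = 1 ∨ (2 : ℤ) ^ k % 3 = 2 := by
    induction k with
    | zero => left; norm_num
    | succ k ih => rw [pow_succ]; omega
  generalize (2 : ℤ) ^ k = a at h2
  simp only [sum_range_succ, sum_range_zero, zero_add, Nat.cast_zero, Nat.cast_one, Nat.cast_ofNat,
    mul_zero, mul_one, add_zero]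
  by_cases h1 : (3 : ℤ) ∣ 2 * y - 1
  · rw [if_pos h1, if_neg (by omega), if_neg (by omega)]; linarith
  · rw [if_neg h1]
    by_cases h3 : (3 : ℤ) ∣ 2 * (y + a) - 1
    · rw [if_pos h3, if_neg (by omega)]; linarith
    · rw [if_neg h3]
      split_ifs <;> linarith

theorem bs_lifts_succ (hz : 0 < z) (k l : ℕ) (x : ℤ) :
    ∑ u ∈ range 3, bs z θ (k + 1) (l + 1) (x + 3 ^ l * (u : ℤ)) ≤
      wt z θ [false] * ∑ u ∈ range 3, bs z θ k (l + 1) (x + 3 ^ l * (u : ℤ)) +
      wt z θ [true] * bs z θ k l x := by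
  refine (sum_le_sum fun (u : ℕ) _ => bs_succ_le hz k l (x + 3 ^ l * (u : ℤ))).trans ?_
  rw [sum_add_distrib, ← mul_sum, ← mul_sum]
  refine add_le_add le_rfl (mul_le_mul_of_nonneg_left ?_ (wt_pos hz _).le)
  have h1 : ∀ u ∈ range 3, (∑ w ∈ (BR k (x + 3 ^ l * (u : ℤ))).filter (fun w => jj w = l),
      if (3 : ℤ) ∣ 2 * nd (x + 3 ^ l * (u : ℤ)) w - 1 then wt z θ w else 0) =
      ∑ w ∈ (BR k x).filter (fun w => jj w = l),
        if (3 : ℤ) ∣ 2 * (nd x w + 2 ^ k * (u : ℤ)) - 1 then wt z θ w else 0 := by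
    intro u _
    rw [filter_congr_mod le_rfl (mod_add x u l)]
    refine sum_congr rfl fun w hw => ?_
    rw [mem_filter, mem_BR] at hw
    have e : nd (x + 3 ^ l * (u : ℤ)) w = nd x w + 2 ^ k * (u : ℤ) := by
      have := nd_add (t := (u : ℤ)) hw.1.2.2
      rw [hw.2, hw.1.1] at this
      exact this
    rw [e]
  rw [sum_congr rfl h1, sum_comm]
  unfold bs
  exact sum_le_sum fun w _ => three_lifts (nd x w) k _ (wt_pos hz w).le

theorem VV_one_lift (hz : 0 < z) (hq : wt z θ [false] < 1) (M l : ℕ) (x : ℤ) :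
    ∑ u ∈ range 3, VV z θ M (l + 1) (x + 3 ^ l * (u : ℤ)) ≤
      wt z θ [true] / (1 - wt z θ [false]) * VV z θ M l x := by
  set q := wt z θ [false] with hqd
  have hq0 : 0 < q := wt_pos hz _
  set S : ℝ := ∑ u ∈ range 3, VV z θ M (l + 1) (x + 3 ^ l * (u : ℤ)) with hS
  set f : ℕ → ℝ := fun k => ∑ u ∈ range 3, bs z θ k (l + 1) (x + 3 ^ l * (u : ℤ)) with hf
  have hS' : S = ∑ k ∈ range (M + 1), f k := by
    rw [hS]
    simp only [VV_eq]
    rw [sum_comm]
  have hf0 : f 0 = 0 := by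
    simp only [hf, bs_zero_succ, sum_const_zero]
  have hfn : ∀ k, 0 ≤ f k := fun k => sum_nonneg fun u _ => bs_nonneg hz _ _ _
  have h1 : S = ∑ k ∈ range M, f (k + 1) := by
    rw [hS', sum_range_succ', hf0, add_zero]
  have h2 : S ≤ ∑ k ∈ range M, (q * f k + wt z θ [true] * bs z θ k l x) := by
    rw [h1]
    exact sum_le_sum fun k _ => bs_lifts_succ hz k l x
  rw [sum_add_distrib, ← mul_sum, ← mul_sum] at h2
  have h3 : ∑ k ∈ range M, f k ≤ S := by
    rw [hS', sum_range_succ]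
    have := hfn M
    linarith
  have h4 : ∑ k ∈ range M, bs z θ k l x ≤ VV z θ M l x := by
    rw [VV_eq, sum_range_succ]
    have := bs_nonneg (θ := θ) hz M l x
    linarith
  have h5 := mul_le_mul_of_nonneg_left h3 hq0.le
  have h6 := mul_le_mul_of_nonneg_left h4 (wt_pos (θ := θ) hz [true]).le
  have h7 : S * (1 - q) ≤ wt z θ [true] * VV z θ M l x := by nlinarith
  rw [div_mul_eq_mul_div, le_div_iff₀ (by linarith)]
  exact h7

/-! ### several lifts -/

theorem sum_split (f : ℤ → ℝ) (l d : ℕ) (x : ℤ) :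
    ∑ u ∈ range (3 ^ (d + 1)), f (x + 3 ^ l * (u : ℤ)) =
      ∑ u ∈ range (3 ^ d), ∑ v ∈ range 3, f (x + 3 ^ l * (u : ℤ) + 3 ^ (l + d) * (v : ℤ)) := by
  have e1 : 3 ^ (d + 1) = 3 ^ d + (3 ^ d + 3 ^ d) := by ring
  rw [e1, sum_range_add, sum_range_add]
  simp only [sum_range_succ, sum_range_zero, zero_add, sum_add_distrib]
  rw [add_assoc]
  congr 1
  · refine sum_congr rfl fun u _ => ?_
    congr 1; push_cast; ring
  congr 1
  · refine sum_congr rfl fun u _ => ?_
    congr 1; push_cast; ring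
  · refine sum_congr rfl fun u _ => ?_
    congr 1; push_cast; ring

theorem VV_lifts {r : ℝ} (hr : 0 ≤ r)
    (h1 : ∀ (l : ℕ) (x : ℤ) (M : ℕ), ∑ u ∈ range 3, VV z θ M (l + 1) (x + 3 ^ l * (u : ℤ)) ≤
      r * VV z θ M l x) (M l : ℕ) (x : ℤ) : ∀ d : ℕ,
    ∑ u ∈ range (3 ^ d), VV z θ M (l + d) (x + 3 ^ l * (u : ℤ)) ≤ r ^ d * VV z θ M l x := by
  intro d
  induction d with
  | zero => simp
  | succ d ih =>
    rw [sum_split (fun y => VV z θ M (l + (d + 1)) y)]
    refine (sum_le_sum fun (u : ℕ) _ => h1 (l + d) (x + 3 ^ l * (u : ℤ)) M).trans ?_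
    rw [← mul_sum, pow_succ]
    have := mul_le_mul_of_nonneg_left ih hr
    linarith

theorem VB_lifts_gen (hz : 0 < z) {r t : ℝ} (hr : 0 ≤ r) (hrt : 3 * Real.exp (-t) ≤ r)
    (h1 : ∀ (l : ℕ) (x : ℤ) (M : ℕ), ∑ u ∈ range 3, VV z θ M (l + 1) (x + 3 ^ l * (u : ℤ)) ≤
      r * VV z θ M l x) (M l : ℕ) (x : ℤ) : ∀ d : ℕ,
    ∑ u ∈ range (3 ^ d), VB z θ t M (l + d) (x + 3 ^ l * (u : ℤ)) ≤
      (d + 1) * r ^ d * VB z θ t M l x := by
  intro d
  induction d with
  | zero => simp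
  | succ d ih =>
    have e : ∑ u ∈ range (3 ^ (d + 1)), VB z θ t M (l + (d + 1)) (x + 3 ^ l * (u : ℤ)) =
        ∑ u ∈ range (3 ^ (d + 1)), VV z θ M (l + (d + 1)) (x + 3 ^ l * (u : ℤ)) +
        3 * Real.exp (-t) * ∑ u ∈ range (3 ^ d), VB z θ t M (l + d) (x + 3 ^ l * (u : ℤ)) := by
      have e1 : ∀ u ∈ range (3 ^ (d + 1)), VB z θ t M (l + (d + 1)) (x + 3 ^ l * (u : ℤ)) =
          VV z θ M (l + (d + 1)) (x + 3 ^ l * (u : ℤ)) +
          Real.exp (-t) * VB z θ t M (l + d) (x + 3 ^ l * (u : ℤ)) := fun u _ =>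
        VB_succ z θ t M (l + d) _
      rw [sum_congr rfl e1, sum_add_distrib, ← mul_sum]
      congr 1
      rw [sum_split (fun y => VB z θ t M (l + d) y)]
      have e2 : ∀ u ∈ range (3 ^ d), ∑ v ∈ range 3,
          VB z θ t M (l + d) (x + 3 ^ l * (u : ℤ) + 3 ^ (l + d) * (v : ℤ)) =
          3 * VB z θ t M (l + d) (x + 3 ^ l * (u : ℤ)) := by
        intro u _
        rw [sum_congr rfl fun (v : ℕ) _ =>
          VB_congr z θ t M (l + d) (mod_add (x + 3 ^ l * (u : ℤ)) (v : ℤ) (l + d)),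
          sum_const, card_range, nsmul_eq_mul]
        norm_num
      rw [sum_congr rfl e2, ← mul_sum]
      ring
    rw [e]
    have h2 := VV_lifts hr h1 M l x (d + 1)
    have h3 := VV_le_VB (θ := θ) hz t M l x
    have h4 : r ^ (d + 1) * VV z θ M l x ≤ r ^ (d + 1) * VB z θ t M l x :=
      mul_le_mul_of_nonneg_left h3 (pow_nonneg hr _)
    have h5 : 0 ≤ ∑ u ∈ range (3 ^ d), VB z θ t M (l + d) (x + 3 ^ l * (u : ℤ)) :=
      sum_nonneg fun u _ => VB_nonneg hz _ _ _ _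
    have h6 := mul_le_mul_of_nonneg_right hrt h5
    have h7 := mul_le_mul_of_nonneg_left ih hr
    have h8 : r * ((d + 1) * r ^ d * VB z θ t M l x) = (d + 1) * (r ^ (d + 1) * VB z θ t M l x) := by
      rw [pow_succ]; ring
    rw [h8] at h7
    have h9 : ((d + 1 : ℕ) + 1 : ℝ) * r ^ (d + 1) * VB z θ t M l x =
        (d + 1) * (r ^ (d + 1) * VB z θ t M l x) + r ^ (d + 1) * VB z θ t M l x := by
      push_cast; ring
    rw [h9]
    linarith

theorem wt_false_zz (θ ε : ℝ) : wt (zz θ ε) θ [false] =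
    Real.exp (-(lam θ + ε) - θ * Real.log 2) := by
  rw [wt_false, zz, ← Real.exp_add]
  congr 1; ring

theorem VB_lifts {θ : ℝ} (h0 : 0 < lam θ) (hg : 0 < lam θ + θ * Real.log 2) {ε : ℝ} (hε : 0 < ε)
    (M l d : ℕ) (x : ℤ) :
    ∑ u ∈ range (3 ^ d), VB (zz θ ε) θ (lam θ / 2) M (l + d) (x + 3 ^ l * (u : ℤ)) ≤
      (d + 1) * rr θ ^ d * VB (zz θ ε) θ (lam θ / 2) M l x := by
  have hr0 : 0 ≤ rr θ := by
    have := h0
    unfold rr
    exact le_max_of_le_right (by positivity)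
  refine VB_lifts_gen (zz_pos θ ε) hr0 (le_max_right _ _) ?_ M l x d
  intro l x M
  have hq : wt (zz θ ε) θ [false] < 1 := by
    rw [wt_false_zz, Real.exp_lt_one_iff]; linarith
  refine (VV_one_lift (zz_pos θ ε) hq M l x).trans ?_
  refine mul_le_mul_of_nonneg_right ?_ (VV_nonneg (zz_pos θ ε) M l x)
  refine le_trans ?_ (le_max_left _ _)
  have h1 : wt (zz θ ε) θ [true] = wt (zz θ ε) θ [false] * Real.exp (θ * Real.log 3) := by
    rw [wt_true, wt_false]
  have h2 : wt (zz θ ε) θ [false] ≤ Real.exp (-lam θ - θ * Real.log 2) := by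
    rw [wt_false_zz]; exact Real.exp_le_exp.2 (by linarith)
  have h3 : Real.exp (-lam θ - θ * Real.log 2) < 1 := Real.exp_lt_one_iff.2 (by linarith)
  rw [h1]
  exact div_le_div₀ (by positivity) (mul_le_mul_of_nonneg_right h2 (Real.exp_pos _).le)
    (by linarith) (by linarith)

/-! ### total mass -/

/-- all barrier words of length at most `M` readable at `x` -/
noncomputable def TW (M : ℕ) (x : ℤ) : Finset (List Bool) := (range (M + 1)).biUnion fun k => BR k x

theorem mem_TW {M : ℕ} {x : ℤ} {w : List Bool} : w ∈ TW M x ↔ w.length ≤ M ∧ Bar w ∧ Read x w := by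
  unfold TW
  rw [mem_biUnion]
  constructor
  · rintro ⟨k, hk, hw⟩
    rw [mem_range] at hk
    rw [mem_BR] at hw
    exact ⟨by omega, hw.2⟩
  · rintro ⟨h1, h2⟩
    exact ⟨w.length, mem_range.2 (by omega), mem_BR.2 ⟨rfl, h2⟩⟩

theorem sum_TW (M : ℕ) (x : ℤ) (p : List Bool → Prop) [DecidablePred p] (f : List Bool → ℝ) :
    ∑ w ∈ (TW M x).filter p, f w = ∑ k ∈ range (M + 1), ∑ w ∈ (BR k x).filter p, f w := by
  unfold TW
  rw [filter_biUnion, sum_biUnion]
  intro i _ j _ hij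
  rw [Function.onFun, disjoint_left]
  intro w h1 h2
  rw [mem_filter, mem_BR] at h1 h2
  exact hij (h1.1.1.symm.trans h2.1.1)

theorem sum_wt_BR (k : ℕ) (x : ℤ) : ∑ w ∈ BR k x, wt z θ w = z ^ k * AA θ k x := by
  unfold AA
  rw [mul_sum]
  refine sum_congr rfl fun w hw => ?_
  rw [mem_BR] at hw
  unfold wt
  rw [hw.1]

/-- the words with `jj` in a set -/
theorem sum_VV (M : ℕ) (x : ℤ) (I : Finset ℕ) (g : ℕ → ℝ) :
    ∑ i ∈ I, g i * VV z θ M i x = ∑ w ∈ (TW M x).filter (fun w => jj w ∈ I), g (jj w) * wt z θ w := by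
  rw [← sum_fiberwise_of_maps_to (g := jj) (t := I) fun w hw => (mem_filter.1 hw).2]
  refine sum_congr rfl fun i hi => ?_
  rw [filter_filter]
  have e : (TW M x).filter (fun w => jj w ∈ I ∧ jj w = i) = (TW M x).filter (fun w => jj w = i) := by
    refine filter_congr fun w _ => ?_
    exact ⟨fun h => h.2, fun h => ⟨h ▸ hi, h⟩⟩
  rw [e, sum_TW, VV_eq, mul_sum]
  refine sum_congr rfl fun k _ => ?_
  unfold bs
  rw [mul_sum]
  refine sum_congr rfl fun w hw => ?_
  rw [(mem_filter.1 hw).2]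

theorem VB_eq (t : ℝ) (M l : ℕ) (x : ℤ) : VB z θ t M l x =
    ∑ w ∈ (TW M x).filter (fun w => jj w ∈ range (l + 1)),
      Real.exp (-t * (l - jj w : ℕ)) * wt z θ w := by
  unfold VB
  exact sum_VV M x (range (l + 1)) fun i => Real.exp (-t * (l - i : ℕ))

theorem VB_le_total (hz : 0 < z) {t : ℝ} (ht : 0 ≤ t) (M l : ℕ) (x : ℤ) :
    VB z θ t M l x ≤ ∑ w ∈ TW M x, wt z θ w := by
  rw [VB_eq]
  refine (sum_le_sum fun w _ => ?_ : _ ≤ ∑ w ∈ (TW M x).filter (fun w => jj w ∈ range (l + 1)),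
    wt z θ w).trans (sum_le_sum_of_subset_of_nonneg (filter_subset _ _) fun w _ _ => (wt_pos hz w).le)
  have h1 : Real.exp (-t * (l - jj w : ℕ)) ≤ 1 := by
    rw [Real.exp_le_one_iff]
    have : (0 : ℝ) ≤ (l - jj w : ℕ) := Nat.cast_nonneg _
    nlinarith
  have h2 := (wt_pos (θ := θ) hz w).le
  nlinarith

/-! ### straddling words -/

theorem jj_take_mono (w : List Bool) {i k : ℕ} (h : i ≤ k) : jj (w.take i) ≤ jj (w.take k) := by
  unfold jj
  exact ((List.take_prefix_take_left h).sublist).count_le _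

theorem exists_dec {M l : ℕ} {x : ℤ} {w : List Bool} (hw : w ∈ TW M x) (hl : l < jj w) :
    ∃ w1 a w3 : List Bool, w = w1 ++ (a ++ w3) ∧ w1 ∈ TW M x ∧ jj w1 ≤ l ∧
      a ∈ TW M (nd x w1) ∧ ht a ≤ Real.log 2 ∧ l - jj w1 ≤ a.length ∧
      w3 ∈ TW M (nd (nd x w1) a) := by
  rw [mem_TW] at hw
  obtain ⟨hw1, hw2, hw3⟩ := hw
  have hex : ∃ t, l < jj (w.take (t + 1)) := by
    refine ⟨w.length, ?_⟩
    rwa [List.take_of_length_le (by omega)]
  set t := Nat.find hex with htd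
  have h1 : l < jj (w.take (t + 1)) := Nat.find_spec hex
  have h2 : jj (w.take t) ≤ l := by
    rcases Nat.eq_zero_or_pos t with h | h
    · rw [h]; simp
    · by_contra hcon
      have h3 := Nat.find_min hex (m := t - 1) (by omega)
      rw [Nat.sub_add_cancel h] at h3
      exact h3 (by omega)
  have h3 : t < w.length := by
    by_contra hcon
    rw [List.take_of_length_le (by omega)] at h2
    omega
  obtain ⟨w1, a, w3, e, b1, b2, b3, ha, l1, l2, _⟩ := cut_pair hw2 h3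
  have r := hw3
  rw [e] at r
  obtain ⟨r1, r2⟩ := Read_append.1 r
  obtain ⟨r3, r4⟩ := Read_append.1 r2
  have hlen : w1.length + (a.length + w3.length) ≤ M := by
    rw [e] at hw1
    simpa [List.length_append] using hw1
  have e1 : w.take w1.length = w1 := by rw [e, List.take_left]
  have e2 : w.take (w1.length + a.length) = w1 ++ a := by
    rw [e, ← List.append_assoc]
    have : (w1 ++ a).length = w1.length + a.length := List.length_append
    rw [← this, List.take_left]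
  have j1 : jj w1 ≤ l := by
    rw [← e1]; exact (jj_take_mono w l1).trans h2
  have j2 : l < jj w1 + jj a := by
    rw [← jj_append, ← e2]
    exact h1.trans_le (jj_take_mono w (by omega))
  have j3 := jj_le a
  exact ⟨w1, a, w3, e, mem_TW.2 ⟨by omega, b1, r1⟩, j1, mem_TW.2 ⟨by omega, b2, r3⟩, ha, by omega,
    mem_TW.2 ⟨by omega, b3, r4⟩⟩

theorem straddle (hz : 0 < z) {t CT CL : ℝ} (hCT : ∀ (M : ℕ) (x : ℤ), ∑ w ∈ TW M x, wt z θ w ≤ CT)
    (hCT0 : 0 ≤ CT)
    (hCL : ∀ (M i : ℕ) (y : ℤ), ∑ a ∈ (TW M y).filter (fun a => ht a ≤ Real.log 2 ∧ i ≤ a.length),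
      wt z θ a ≤ CL * Real.exp (-t * i))
    (M l : ℕ) (x : ℤ) (S : Finset (List Bool)) (hS : S ⊆ TW M x) (hSl : ∀ w ∈ S, l < jj w) :
    ∑ w ∈ S, wt z θ w ≤ CL * CT * VB z θ t M l x := by
  have hd := sum_dec S (wt z θ) (fun w _ => (wt_pos hz w).le)
    ((TW M x).filter (fun w => jj w ∈ range (l + 1)))
    (fun w1 => (TW M (nd x w1)).filter (fun a => ht a ≤ Real.log 2 ∧ l - jj w1 ≤ a.length))
    (fun w1 a => TW M (nd (nd x w1) a))
    (fun w1 a w3 => wt z θ w1 * (wt z θ a * wt z θ w3))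
    (fun w1 _ a _ w3 _ => (mul_pos (wt_pos hz w1) (mul_pos (wt_pos hz a) (wt_pos hz w3))).le)
    (fun w1 a w3 => w1 ++ (a ++ w3)) (by
      intro w hw
      obtain ⟨w1, a, w3, e, h1, h2, h3, h4, h5, h6⟩ := exists_dec (hS hw) (hSl w hw)
      refine ⟨w1, mem_filter.2 ⟨h1, mem_range.2 (by omega)⟩, a, mem_filter.2 ⟨h3, h4, h5⟩, w3, h6,
        e.symm, le_of_eq ?_⟩
      rw [e, wt_append, wt_append])
  refine hd.trans ?_
  rw [VB_eq, mul_sum]
  refine sum_le_sum fun w1 _ => ?_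
  have h1 : ∀ a ∈ (TW M (nd x w1)).filter (fun a => ht a ≤ Real.log 2 ∧ l - jj w1 ≤ a.length),
      ∑ w3 ∈ TW M (nd (nd x w1) a), wt z θ w1 * (wt z θ a * wt z θ w3) ≤
        wt z θ w1 * CT * wt z θ a := by
    intro a _
    rw [← mul_sum, ← mul_sum]
    have h2 := mul_le_mul_of_nonneg_left (hCT M (nd (nd x w1) a)) (wt_pos (θ := θ) hz a).le
    have h3 := mul_le_mul_of_nonneg_left h2 (wt_pos (θ := θ) hz w1).le
    linarith
  refine (sum_le_sum h1).trans ?_
  rw [← mul_sum]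
  have h4 := mul_le_mul_of_nonneg_left (hCL M (l - jj w1) (nd x w1))
    (mul_nonneg (wt_pos (θ := θ) hz w1).le hCT0)
  refine h4.trans (le_of_eq ?_)
  ring

/-! ### the letters -/

theorem summable_poly {t : ℝ} (ht : 0 < t) :
    Summable fun n : ℕ => Real.exp (-t * n) * ((2 * n + 1) * (n + 1) : ℝ) := by
  have hr : ‖Real.exp (-t)‖ < 1 := by
    rw [Real.norm_eq_abs, abs_of_pos (Real.exp_pos _)]
    exact Real.exp_lt_one_iff.2 (by linarith)
  have h2 := summable_pow_mul_geometric_of_norm_lt_one 2 hr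
  have h1 := summable_pow_mul_geometric_of_norm_lt_one 1 hr
  have h0 := summable_pow_mul_geometric_of_norm_lt_one 0 hr
  have := ((h2.mul_left 2).add (h1.mul_left 3)).add h0
  refine this.congr fun n => ?_
  have e : Real.exp (-t * n) = Real.exp (-t) ^ n := by
    rw [← Real.exp_nat_mul]; congr 1; ring
  rw [e]
  ring

theorem letters (θ : ℝ) {t : ℝ} (ht : 0 < t) : ∃ CL : ℝ, 0 ≤ CL ∧ ∀ z : ℝ, 0 < z →
    z ≤ Real.exp (-(2 * t)) → ∀ (M i : ℕ) (y : ℤ),
    ∑ a ∈ (TW M y).filter (fun a => LT.ht a ≤ Real.log 2 ∧ i ≤ a.length), wt z θ a ≤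
      CL * Real.exp (-t * i) := by
  set S : ℝ := ∑' n : ℕ, Real.exp (-t * n) * ((2 * n + 1) * (n + 1) : ℝ) with hS
  have hS0 : 0 ≤ S := tsum_nonneg fun n => by positivity
  refine ⟨Real.exp (|θ| * Real.log 2) * S, by positivity, fun z hz hzt M i y => ?_⟩
  rw [sum_TW]
  have h1 : ∀ k ∈ range (M + 1),
      ∑ a ∈ (BR k y).filter (fun a => LT.ht a ≤ Real.log 2 ∧ i ≤ a.length), wt z θ a ≤
      Real.exp (|θ| * Real.log 2) * Real.exp (-t * i) *
        (Real.exp (-t * k) * ((2 * k + 1) * (k + 1) : ℝ)) := by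
    intro k _
    rcases Nat.lt_or_ge k i with hk | hk
    · have : (BR k y).filter (fun a => LT.ht a ≤ Real.log 2 ∧ i ≤ a.length) = ∅ := by
        refine filter_eq_empty_iff.2 fun a ha h => ?_
        rw [mem_BR] at ha
        omega
      rw [this, sum_empty]
      positivity
    · have h2 : ∑ a ∈ (BR k y).filter (fun a => LT.ht a ≤ Real.log 2 ∧ i ≤ a.length), wt z θ a ≤
          ∑ a ∈ (BR k y).filter (fun a => LT.ht a ≤ Real.log 2), wt z θ a := by
        refine sum_le_sum_of_subset_of_nonneg ?_ fun a _ _ => (wt_pos hz a).le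
        intro a ha
        rw [mem_filter] at ha ⊢
        exact ⟨ha.1, ha.2.1⟩
      refine h2.trans ?_
      have h3 : ∑ a ∈ (BR k y).filter (fun a => LT.ht a ≤ Real.log 2), wt z θ a =
          z ^ k * ∑ a ∈ (BR k y).filter (fun a => LT.ht a ≤ Real.log 2), Real.exp (-θ * LT.ht a) := by
        rw [mul_sum]
        refine sum_congr rfl fun a ha => ?_
        rw [mem_filter, mem_BR] at ha
        unfold wt
        rw [ha.1.1]
      rw [h3]
      have h4 := letter_sum θ k y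
      have h5 : z ^ k ≤ Real.exp (-t * k) * Real.exp (-t * i) := by
        calc z ^ k ≤ Real.exp (-(2 * t)) ^ k := pow_le_pow_left₀ hz.le hzt k
          _ = Real.exp (-t * k) * Real.exp (-t * k) := by
              rw [← Real.exp_nat_mul, ← Real.exp_add]; congr 1; ring
          _ ≤ Real.exp (-t * k) * Real.exp (-t * i) := by
              refine mul_le_mul_of_nonneg_left (Real.exp_le_exp.2 ?_) (Real.exp_pos _).le
              have : (i : ℝ) ≤ k := by exact_mod_cast hk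
              nlinarith
      have h6 : 0 ≤ ∑ a ∈ (BR k y).filter (fun a => LT.ht a ≤ Real.log 2),
          Real.exp (-θ * LT.ht a) := sum_nonneg fun a _ => (Real.exp_pos _).le
      calc z ^ k * ∑ a ∈ (BR k y).filter (fun a => LT.ht a ≤ Real.log 2), Real.exp (-θ * LT.ht a)
          ≤ (Real.exp (-t * k) * Real.exp (-t * i)) *
            ((2 * k + 1) * (k + 1) * Real.exp (|θ| * Real.log 2)) :=
            mul_le_mul h5 h4 h6 (by positivity)
        _ = _ := by ring
  refine (sum_le_sum h1).trans ?_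
  rw [← mul_sum]
  have h7 : ∑ k ∈ range (M + 1), Real.exp (-t * k) * ((2 * k + 1) * (k + 1) : ℝ) ≤ S :=
    (summable_poly ht).sum_le_tsum _ fun n _ => by positivity
  have h8 : 0 ≤ Real.exp (|θ| * Real.log 2) * Real.exp (-t * i) := by positivity
  have h9 := mul_le_mul_of_nonneg_left h7 h8
  linarith

/-! ### the potentials -/

theorem pot_of (hA : ∀ (θ : ℝ) {ε : ℝ} (_ : 0 < ε), ∃ C : ℝ, 0 < C ∧ ∀ (n : ℕ) (x : ℤ),
      AA θ n x ≤ C * Real.exp ((lam θ + ε) * n))
    {θ : ℝ} (h0 : 0 < lam θ) {ε : ℝ} (hε : 0 < ε) : ∃ C : ℝ, 1 ≤ C ∧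
    (∀ (M l : ℕ) (x : ℤ), VB (zz θ ε) θ (lam θ / 2) M l x ≤ C) ∧
    (∀ (M l d : ℕ) (x : ℤ), VB (zz θ ε) θ (lam θ / 2) M (l + d) x ≤
      C * VB (zz θ ε) θ (lam θ / 2) M l x) ∧
    (∀ (m N : ℕ) (x : ℤ), ∑ w ∈ (BR m x).filter (fun w => N ≤ jj w), wt (zz θ ε) θ w ≤
      C * VB (zz θ ε) θ (lam θ / 2) m N x) := by
  have hz : 0 < zz θ ε := zz_pos θ ε
  obtain ⟨C, hC, hAC⟩ := hA θ (show 0 < ε / 2 by linarith)
  obtain ⟨CL, hCL0, hCL⟩ := letters θ (show 0 < lam θ / 2 by linarith)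
  have hCL' := hCL (zz θ ε) hz (by unfold zz; exact Real.exp_le_exp.2 (by linarith))
  set r : ℝ := Real.exp (-(ε / 2)) with hr
  have hr0 : 0 < r := Real.exp_pos _
  have hr1 : r < 1 := Real.exp_lt_one_iff.2 (by linarith)
  set CT : ℝ := C * (1 - r)⁻¹ with hCT
  have hCT0 : 0 ≤ CT := mul_nonneg hC.le (inv_nonneg.2 (by linarith))
  have htot : ∀ (M : ℕ) (x : ℤ), ∑ w ∈ TW M x, wt (zz θ ε) θ w ≤ CT := by
    intro M x
    have h1 := sum_TW M x (fun _ => True) (wt (zz θ ε) θ)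
    simp only [filter_true] at h1
    rw [h1]
    have h2 : ∀ k ∈ range (M + 1), ∑ w ∈ BR k x, wt (zz θ ε) θ w ≤ C * r ^ k := by
      intro k _
      rw [sum_wt_BR]
      have h3 := mul_le_mul_of_nonneg_left (hAC k x) (pow_pos hz k).le
      refine h3.trans (le_of_eq ?_)
      rw [zz, hr, ← Real.exp_nat_mul, ← Real.exp_nat_mul]
      rw [show Real.exp (k * -(lam θ + ε)) * (C * Real.exp ((lam θ + ε / 2) * k)) =
        C * (Real.exp (k * -(lam θ + ε)) * Real.exp ((lam θ + ε / 2) * k)) by ring, ← Real.exp_add]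
      congr 2
      ring
    refine (sum_le_sum h2).trans ?_
    rw [← mul_sum, hCT]
    refine mul_le_mul_of_nonneg_left ?_ hC.le
    rw [← tsum_geometric_of_lt_one hr0.le hr1]
    exact (summable_geometric_of_lt_one hr0.le hr1).sum_le_tsum _ fun n _ => by positivity
  have hst := fun (M l : ℕ) (x : ℤ) (S : Finset (List Bool)) => straddle hz htot hCT0 hCL' M l x S
  have hX : 0 ≤ CL * CT := mul_nonneg hCL0 hCT0
  refine ⟨1 + CT + CL * CT, by linarith, ?_, ?_, ?_⟩
  · intro M l x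
    have h1 := (VB_le_total (θ := θ) hz (show 0 ≤ lam θ / 2 by linarith) M l x).trans (htot M x)
    linarith
  · intro M l d x
    have hV := VB_nonneg (θ := θ) hz (lam θ / 2) M l x
    have h1 : VB (zz θ ε) θ (lam θ / 2) M (l + d) x ≤ VB (zz θ ε) θ (lam θ / 2) M l x +
        ∑ w ∈ (TW M x).filter (fun w => l < jj w), wt (zz θ ε) θ w := by
      rw [VB_eq, VB_eq]
      rw [← sum_filter_add_sum_filter_not _ (fun w => jj w ≤ l)]
      refine add_le_add ?_ ?_
      · rw [filter_filter]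
        have e : (TW M x).filter (fun w => jj w ∈ range (l + d + 1) ∧ jj w ≤ l) =
            (TW M x).filter (fun w => jj w ∈ range (l + 1)) := by
          refine filter_congr fun w _ => ?_
          rw [mem_range, mem_range]
          omega
        rw [e]
        refine sum_le_sum fun w hw => mul_le_mul_of_nonneg_right (Real.exp_le_exp.2 ?_)
          (wt_pos hz w).le
        have h2 := mem_range.1 (mem_filter.1 hw).2
        have h3 : ((l - jj w : ℕ) : ℝ) ≤ ((l + d - jj w : ℕ) : ℝ) := by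
          exact_mod_cast (by omega : l - jj w ≤ l + d - jj w)
        nlinarith
      · rw [filter_filter]
        have h2 : ∀ w ∈ (TW M x).filter (fun w => jj w ∈ range (l + d + 1) ∧ ¬ jj w ≤ l),
            Real.exp (-(lam θ / 2) * (l + d - jj w : ℕ)) * wt (zz θ ε) θ w ≤ wt (zz θ ε) θ w := by
          intro w _
          have h1 : Real.exp (-(lam θ / 2) * (l + d - jj w : ℕ)) ≤ 1 := by
            rw [Real.exp_le_one_iff]
            have : (0 : ℝ) ≤ (l + d - jj w : ℕ) := Nat.cast_nonneg _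
            nlinarith
          have h2 := (wt_pos (θ := θ) hz w).le
          nlinarith
        refine (sum_le_sum h2).trans (sum_le_sum_of_subset_of_nonneg ?_ fun w _ _ => (wt_pos hz w).le)
        intro w hw
        rw [mem_filter] at hw ⊢
        exact ⟨hw.1, not_le.1 hw.2.2⟩
    have h2 := hst M l x ((TW M x).filter (fun w => l < jj w)) (filter_subset _ _)
      fun w hw => (mem_filter.1 hw).2
    have h3 := mul_nonneg hCT0 hV
    nlinarith
  · intro m N x
    have hV := VB_nonneg (θ := θ) hz (lam θ / 2) m N x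
    have h1 : ∑ w ∈ (BR m x).filter (fun w => N ≤ jj w), wt (zz θ ε) θ w ≤
        VV (zz θ ε) θ m N x + ∑ w ∈ (TW m x).filter (fun w => N < jj w), wt (zz θ ε) θ w := by
      rw [← sum_filter_add_sum_filter_not _ (fun w => jj w = N)]
      refine add_le_add ?_ ?_
      · rw [VV_eq, sum_range_succ]
        have h2 : 0 ≤ ∑ k ∈ range m, bs (zz θ ε) θ k N x := sum_nonneg fun k _ => bs_nonneg hz k N x
        have h3 : ∑ w ∈ ((BR m x).filter (fun w => N ≤ jj w)).filter (fun w => jj w = N),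
            wt (zz θ ε) θ w = bs (zz θ ε) θ m N x := by
          unfold bs
          rw [filter_filter]
          congr 1
          refine filter_congr fun w _ => ?_
          constructor
          · exact fun h => h.2
          · exact fun h => ⟨h.ge, h⟩
        rw [h3]
        linarith
      · refine sum_le_sum_of_subset_of_nonneg ?_ fun w _ _ => (wt_pos hz w).le
        intro w hw
        rw [mem_filter, mem_filter, mem_BR] at hw
        rw [mem_filter, mem_TW]
        exact ⟨⟨hw.1.1.1.le, hw.1.1.2⟩, lt_of_le_of_ne hw.1.2 (Ne.symm hw.2)⟩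
    have h2 := hst m N x ((TW m x).filter (fun w => N < jj w)) (filter_subset _ _)
      fun w hw => (mem_filter.1 hw).2
    have h3 := VV_le_VB (θ := θ) hz (lam θ / 2) m N x
    have h4 := mul_nonneg hCT0 hV
    nlinarith

theorem pot {θ : ℝ} (h0 : 0 < lam θ) {ε : ℝ} (hε : 0 < ε) : ∃ C : ℝ, 1 ≤ C ∧
    (∀ (M l : ℕ) (x : ℤ), VB (zz θ ε) θ (lam θ / 2) M l x ≤ C) ∧
    (∀ (M l d : ℕ) (x : ℤ), VB (zz θ ε) θ (lam θ / 2) M (l + d) x ≤
      C * VB (zz θ ε) θ (lam θ / 2) M l x) ∧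
    (∀ (m N : ℕ) (x : ℤ), ∑ w ∈ (BR m x).filter (fun w => N ≤ jj w), wt (zz θ ε) θ w ≤
      C * VB (zz θ ε) θ (lam θ / 2) m N x) :=
  pot_of (fun θ _ hε => AA_le θ hε) h0 hε

end Pool.Agent.Collatz3.LT
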