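import Pool.Agent.Collatz3.LTPath

set_option autoImplicit false

/-!
Finite representations of the process which also know the cuts.
-/

open Finset
open scoped Classical

namespace Pool.Agent.Collatz3.LT

open UB.PathZ (T W X Inv)
open UB (FAP)

/-- determined by the word of length `k + m`, the starting point modulo `3 ^ N`, and the cuts -/
def DetG (k m N K : ℕ) {α : Type} (Y : UB.PathZ → α) : Prop :=
  ∀ ω ω' : UB.PathZ, W (k + m) ω = W (k + m) ω' → ω.b 0 % 3 ^ N = ω'.b 0 % 3 ^ N →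
    (T^[k] ω ∈ Cu ↔ T^[k] ω' ∈ Cu) → (ω ∈ NoCut K ↔ ω' ∈ NoCut K) → Y ω = Y ω'

/-- representation of `P` by finitely many weighted paths -/
def RepG (P : FAP UB.PathZ) (k m N K : ℕ) (s : Finset UB.PathZ) (p : UB.PathZ → ℝ) : Prop :=
  (∀ ω ∈ s, 0 ≤ p ω) ∧ (∑ ω ∈ s, p ω = 1) ∧
    ∀ {α : Type} (Y : UB.PathZ → α), DetG k m N K Y → ∀ a, mv s p Y a = P.m {ω | Y ω = a}

theorem exists_RepG (P : FAP UB.PathZ) (k m N K : ℕ) : ∃ (s : Finset UB.PathZ) (p : UB.PathZ → ℝ),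
    RepG P k m N K s p := by
  have hfr : UB.FR (fun ω : UB.PathZ => ((W (k + m) ω, ω.b 0 % 3 ^ N),
      (decide (T^[k] ω ∈ Cu), decide (ω ∈ NoCut K)))) := by
    refine ((UB.PathZ.FR_W (k + m)).pair (UB.FR.emod _ N)).pair (UB.FR.pair ?_ ?_)
    · exact UB.FR.of_mem {true, false} fun ω => by cases decide (T^[k] ω ∈ Cu) <;> simp
    · exact UB.FR.of_mem {true, false} fun ω => by cases decide (ω ∈ NoCut K) <;> simp
  obtain ⟨s, p, h1, h2, h3⟩ := P.exists_rep _ hfr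
  refine ⟨s, p, h1, h2, fun Y hY a => h3 Y (fun ω ω' h => ?_) a⟩
  simp only [Prod.mk.injEq, decide_eq_decide] at h
  exact hY ω ω' h.1.1 h.1.2 h.2.1 h.2.2

theorem RepG.toRepK {P : FAP UB.PathZ} {k m N K : ℕ} {s : Finset UB.PathZ} {p : UB.PathZ → ℝ}
    (h : RepG P k m N K s p) : UB.PathZ.RepK P (k + m) N s p :=
  ⟨h.1, h.2.1, fun Y hY a => h.2.2 Y (fun ω ω' h1 h2 _ _ => hY ω ω' h1 h2) a⟩

theorem RepG.mass {P : FAP UB.PathZ} {k m N K : ℕ} {s : Finset UB.PathZ} {p : UB.PathZ → ℝ}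
    (h : RepG P k m N K s p) (A : UB.PathZ → Prop) (hA : DetG k m N K A) :
    ∑ ω ∈ s with A ω, p ω = P.m {ω | A ω} := by
  have h1 := h.2.2 A hA True
  have e : {ω : UB.PathZ | A ω = True} = {ω | A ω} := by ext; simp
  rw [e] at h1
  rw [← h1]
  unfold mv
  refine sum_congr ?_ fun _ _ => rfl
  ext ω; simp

theorem RepG.mass_not {P : FAP UB.PathZ} {k m N K : ℕ} {s : Finset UB.PathZ} {p : UB.PathZ → ℝ}
    (h : RepG P k m N K s p) (A : UB.PathZ → Prop) (hA : DetG k m N K A) :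
    ∑ ω ∈ s with ¬ A ω, p ω = 1 - P.m {ω | A ω} := by
  have h1 := sum_filter_add_sum_filter_not s A p
  rw [h.2.1, h.mass A hA] at h1
  linarith

theorem j_eq_sum (ω : UB.PathZ) (n : ℕ) : ω.j n = ∑ i ∈ range n, ω.e i := by
  induction n with
  | zero => simp [UB.PathZ.j_zero]
  | succ n ih => rw [UB.PathZ.j_succ, sum_range_succ, ih]

theorem prob_e {P : FAP UB.PathZ} (hI : Inv P) (i : ℕ) : P.m {ω | ω.e i = 1} = q1 P := by
  unfold q1
  rw [← hI.iter i {ω : UB.PathZ | ω.e 0 = 1}]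
  congr 1
  ext ω
  simp only [Set.mem_ofPred_eq, Set.mem_preimage, UB.PathZ.e_iter, add_zero]

/-- expected number of ones -/
theorem RepK_mean_j {P : FAP UB.PathZ} (hI : Inv P) {n N : ℕ} {s : Finset UB.PathZ}
    {p : UB.PathZ → ℝ} (h : UB.PathZ.RepK P n N s p) {k : ℕ} (hk : k ≤ n) :
    ∑ ω ∈ s, p ω * (ω.j k : ℝ) = k * q1 P := by
  have h1 : ∀ ω ∈ s, p ω * (ω.j k : ℝ) = ∑ i ∈ range k, p ω * (ω.e i : ℝ) := by
    intro ω _
    rw [j_eq_sum, ← mul_sum]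
    push_cast; ring
  rw [sum_congr rfl h1, sum_comm]
  have h2 : ∀ i ∈ range k, ∑ ω ∈ s, p ω * (ω.e i : ℝ) = q1 P := by
    intro i hi
    rw [mem_range] at hi
    have hdet : UB.PathZ.Det n N fun ω : UB.PathZ => ω.e i := fun ω ω' h' _ =>
      UB.PathZ.e_det (by omega) h'
    have h3 := h.2.2 _ hdet 1
    rw [prob_e hI] at h3
    rw [← h3]
    unfold mv
    rw [sum_filter]
    refine sum_congr rfl fun ω _ => ?_
    rcases ω.e_cases i with h4 | h4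
    · simp [h4]
    · simp [h4]
  rw [sum_congr rfl h2, sum_const, card_range, nsmul_eq_mul]

/-- expected height -/
theorem RepK_mean_hh {P : FAP UB.PathZ} (hI : Inv P) {n N : ℕ} {s : Finset UB.PathZ}
    {p : UB.PathZ → ℝ} (h : UB.PathZ.RepK P n N s p) {k : ℕ} (hk : k ≤ n) (a θ : ℝ) :
    ∑ ω ∈ s, p ω * (a + θ * hh k (ω.j k)) = a + k * (θ * (Real.log 2 - q1 P * Real.log 3)) := by
  have h1 := RepK_mean_j hI h hk
  have e : ∀ ω ∈ s, p ω * (a + θ * hh k (ω.j k)) =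
      p ω * (a + θ * (k * Real.log 2)) - θ * Real.log 3 * (p ω * (ω.j k : ℝ)) := by
    intro ω _
    unfold hh; ring
  rw [sum_congr rfl e, sum_sub_distrib, ← sum_mul, ← mul_sum, h.2.1, h1]
  ring

/-- a two valued function costs at most `log 2` -/
theorem cH_ind {s : Finset UB.PathZ} {p : UB.PathZ → ℝ} (hp : ∀ ω ∈ s, 0 ≤ p ω)
    (hs : ∑ ω ∈ s, p ω ≤ 1) (A : UB.PathZ → Prop) {β : Type} (Y : UB.PathZ → β) :
    cH s p (fun ω => decide (A ω)) Y ≤ Real.log 2 := by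
  have h1 := cH_le_log' hp (fun ω => decide (A ω)) Y {true, false} 2 (by norm_num)
    (fun ω _ => by cases decide (A ω) <;> simp) (by simp)
  have h2 : (∑ ω ∈ s, p ω) * Real.log ((2 : ℕ) : ℝ) ≤ 1 * Real.log 2 := by
    push_cast
    exact mul_le_mul_of_nonneg_right hs log2_pos.le
  linarith

theorem cH_j {s : Finset UB.PathZ} {p : UB.PathZ → ℝ} (hp : ∀ ω ∈ s, 0 ≤ p ω)
    (hs : ∑ ω ∈ s, p ω ≤ 1) (m k : ℕ) {β : Type} (Y : UB.PathZ → β) :
    cH s p (fun ω => (T^[k] ω).j m) Y ≤ Real.log ((m : ℝ) + 1) := by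
  have h1 := cH_le_log' hp (fun ω : UB.PathZ => (T^[k] ω).j m) Y (Finset.range (m + 1)) (m + 1)
    (by omega) (fun ω _ => by rw [mem_range]; exact Nat.lt_succ_of_le ((T^[k] ω).j_le m)) (by simp)
  have h2 : (∑ ω ∈ s, p ω) * Real.log ((m + 1 : ℕ) : ℝ) ≤ 1 * Real.log ((m : ℝ) + 1) := by
    push_cast
    refine mul_le_mul_of_nonneg_right hs (Real.log_nonneg ?_)
    have : (0 : ℝ) ≤ m := Nat.cast_nonneg m
    linarith
  linarith

end Pool.Agent.Collatz3.LT
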