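import Pool.Agent.Collatz3.LTUpBase

set_option autoImplicit false

/-!
The upper bound in the lower tail theorem.
-/

open Finset
open scoped Classical

namespace Pool.Agent.Collatz3.LT

/-- the tilt belonging to `ρ` -/
noncomputable def tht (ρ : ℝ) : ℝ := 1 - Real.log ((1 - ρ) / ρ) / Real.log 3

theorem tht_lt {ρ : ℝ} (h0 : 0 < ρ) (h1 : ρ < 1 / 2) : tht ρ < 1 := by
  unfold tht
  have : 0 < Real.log ((1 - ρ) / ρ) := by
    apply Real.log_pos
    rw [one_lt_div h0]; linarith
  have := div_pos this log3_pos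
  linarith

theorem tht_mul {ρ : ℝ} (h0 : 0 < ρ) (h1 : ρ < 1) :
    tht ρ * Real.log 3 = Real.log 3 - Real.log (1 - ρ) + Real.log ρ := by
  unfold tht
  rw [sub_mul, one_mul, div_mul_cancel₀ _ log3_pos.ne', Real.log_div (by linarith) h0.ne']
  ring

theorem Lam_tht {ρ : ℝ} (h0 : 0 < ρ) (h1 : ρ < 1) :
    Lam (tht ρ) + tht ρ * Real.log 2 = -Real.log (1 - ρ) := by
  have h1' : 0 < 1 - ρ := by linarith
  have e1 : (2 : ℝ) ^ (-tht ρ) = Real.exp (-tht ρ * Real.log 2) := by
    rw [Real.rpow_def_of_pos (by norm_num), mul_comm]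
  have e2 : (3 : ℝ) ^ (tht ρ - 1) = ρ / (1 - ρ) := by
    have : (tht ρ - 1) * Real.log 3 = Real.log (ρ / (1 - ρ)) := by
      rw [Real.log_div h0.ne' h1'.ne']
      have := tht_mul h0 h1
      linarith
    rw [Real.rpow_def_of_pos (by norm_num), mul_comm, this, Real.exp_log (by positivity)]
  have e3 : 1 + ρ / (1 - ρ) = (1 - ρ)⁻¹ := by field_simp; ring
  unfold Lam
  rw [e1, e2, e3, Real.log_mul (Real.exp_pos _).ne' (inv_pos.2 h1').ne', Real.log_exp,
    Real.log_inv]
  ring

theorem params {c : ℝ} (hc : 1 / Real.log 2 < c) (hc' : c < ((1 / 2) * Real.log (4 / 3))⁻¹) :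
    ∃ ρ : ℝ, 0 < ρ ∧ ρ < 1 / 2 ∧ 0 < c ∧ 1 / c = Real.log 2 - ρ * Real.log 3 ∧
      c * Lam (tht ρ) + tht ρ = 1 - c * Leg.gL (1 / c) := by
  have l2 := log2_pos
  have l3 := log3_pos
  have hc0 : 0 < c := lt_trans (by positivity) hc
  have h1 : 1 / c < Real.log 2 := by
    rw [div_lt_iff₀ hc0]
    rw [div_lt_iff₀ l2] at hc
    linarith
  have hpos : 0 < (1 / 2) * Real.log (4 / 3) := by
    have : 0 < Real.log (4 / 3) := Real.log_pos (by norm_num)
    positivity
  have h2 : Real.log 2 - 1 / 2 * Real.log 3 < 1 / c := by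
    rw [← Leg.half_log]
    have := (lt_inv_comm₀ hc0 hpos).1 hc'
    rwa [← one_div c] at this
  refine ⟨(Real.log 2 - 1 / c) / Real.log 3, div_pos (by linarith) l3, ?_, hc0, ?_, ?_⟩
  · rw [div_lt_iff₀ l3]; linarith
  · rw [div_mul_cancel₀ _ l3.ne']; ring
  set ρ := (Real.log 2 - 1 / c) / Real.log 3 with hρ
  have r0 : 0 < ρ := div_pos (by linarith) l3
  have r1 : ρ < 1 := by rw [hρ, div_lt_iff₀ l3]; linarith
  have r2 : 1 / c = Real.log 2 - ρ * Real.log 3 := by rw [hρ, div_mul_cancel₀ _ l3.ne']; ring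
  have hcp : 0 < 1 / c := by positivity
  rw [Leg.exponent_eq r0 r1 r2 (by rw [← r2]; exact hcp), ← r2, div_div_eq_mul_div, div_one]
  have e1 := Lam_tht r0 r1
  have e2 := tht_mul r0 r1
  have e3 : c * (Real.log 2 - ρ * Real.log 3) = 1 := by rw [← r2]; field_simp
  have e4 : Lam (tht ρ) = -Real.log (1 - ρ) - tht ρ * Real.log 2 := by linarith
  have e5 : Real.binEntropy ρ = -(ρ * Real.log ρ) - (1 - ρ) * Real.log (1 - ρ) := by
    unfold Real.binEntropy
    rw [Real.log_inv, Real.log_inv]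
    ring
  have e6 : c * (-Real.log (1 - ρ) - tht ρ * Real.log 2) + tht ρ =
      c * (-Real.log (1 - ρ) - tht ρ * Real.log 2) + tht ρ * (c * (Real.log 2 - ρ * Real.log 3)) := by
    rw [e3, mul_one]
  rw [e4, e6, e5]
  linear_combination (-c * ρ) * e2

theorem upper (hS : StmtS) {a : ℕ} (ha : 0 < a) {c : ℝ} (hc : 1 / Real.log 2 < c)
    (hc' : c < ((1 / 2) * Real.log (4 / 3))⁻¹) {ε : ℝ} (hε : 0 < ε) : ∀ᶠ x : ℕ in Filter.atTop,
      (({n : ℕ | 1 ≤ n ∧ n ≤ x ∧ ∃ k : ℕ, T3^[k] n = a ∧ (k : ℝ) ≤ c * Real.log n}.ncard : ℕ) : ℝ) ≤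
        (x : ℝ) ^ (1 - c * Leg.gL (1 / c) + ε) := by
  obtain ⟨ρ, r0, r1, hc0, r2, r3⟩ := params hc hc'
  set θ := tht ρ with hθ
  set E := 1 - c * Leg.gL (1 / c) with hE
  have hθ1 : θ < 1 := tht_lt r0 r1
  have hL := Lam_pos hθ1
  have hL2 := Lam_tht r0 (show ρ < 1 by linarith)
  rw [← hθ] at hL2
  have hla : 0 ≤ Real.log a := Real.log_natCast_nonneg a
  obtain ⟨C, hC0, hC⟩ := word_bound hS ha hθ1 (show 0 < ε / (2 * c) by positivity)
  obtain ⟨K₀, hK₀⟩ := UB.log_small (Real.log (max C 1) + |θ| * Real.log a) (3 + |θ|) (ε / (2 * c))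
    (add_nonneg (Real.log_nonneg (le_max_right _ _)) (by positivity)) (by positivity) (by positivity)
  have htend : Filter.Tendsto (fun x : ℕ => ⌊c * Real.log (x : ℝ)⌋₊) Filter.atTop Filter.atTop :=
    tendsto_nat_floor_atTop.comp (Filter.Tendsto.const_mul_atTop hc0
      (Real.tendsto_log_atTop.comp tendsto_natCast_atTop_atTop))
  filter_upwards [htend.eventually_ge_atTop K₀, Filter.eventually_ge_atTop 1] with x hx hx1
  set K := ⌊c * Real.log (x : ℝ)⌋₊ with hK
  have hx0 : (0 : ℝ) < x := by exact_mod_cast hx1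
  have hlx : 0 ≤ Real.log x := Real.log_natCast_nonneg x
  have hKle : (K : ℝ) ≤ c * Real.log x := Nat.floor_le (by positivity)
  have hsmall := hK₀ K hx
  -- the pieces
  set F : ℕ → ℕ → Finset ℕ := fun k n => (Icc 1 x).filter fun b =>
    T3^[k] b = a ∧ (∀ j < k, T3^[j] b ≠ a) ∧ (k : ℝ) ≤ c * Real.log b ∧ jj (wd k b) = n with hFdef
  have hsub : {n : ℕ | 1 ≤ n ∧ n ≤ x ∧ ∃ k : ℕ, T3^[k] n = a ∧ (k : ℝ) ≤ c * Real.log n} ⊆
      (((range (K + 1)).biUnion fun k => (range (K + 1)).biUnion fun n => F k n : Finset ℕ) :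
        Set ℕ) := by
    rintro b ⟨hb1, hb2, hb3⟩
    obtain ⟨k', hk1', hk2'⟩ := hb3
    have hex : ∃ k, T3^[k] b = a := ⟨k', hk1'⟩
    have hk1 := Nat.find_spec hex
    have hk3 : Nat.find hex ≤ k' := Nat.find_min' hex hk1'
    have hk4 := fun j (hj : j < Nat.find hex) => Nat.find_min hex hj
    set k := Nat.find hex with hkdef
    have hk2 : (k : ℝ) ≤ c * Real.log b := le_trans (by exact_mod_cast hk3) hk2'
    have hkK : k ≤ K := by
      apply Nat.le_floor
      refine hk2.trans (mul_le_mul_of_nonneg_left ?_ hc0.le)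
      exact Real.log_le_log (by exact_mod_cast hb1) (by exact_mod_cast hb2)
    have hjk : jj (wd k b) ≤ k := by
      have := jj_le (wd k b)
      rwa [wd_length] at this
    rw [mem_coe, mem_biUnion]
    refine ⟨k, by rw [mem_range]; omega, ?_⟩
    rw [mem_biUnion]
    refine ⟨jj (wd k b), by rw [mem_range]; omega, ?_⟩
    rw [hFdef, mem_filter, mem_Icc]
    exact ⟨⟨hb1, hb2⟩, hk1, hk4, hk2, rfl⟩
  have hcard : (({n : ℕ | 1 ≤ n ∧ n ≤ x ∧
      ∃ k : ℕ, T3^[k] n = a ∧ (k : ℝ) ≤ c * Real.log n}.ncard : ℕ) : ℝ) ≤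
      ∑ k ∈ range (K + 1), ∑ n ∈ range (K + 1), ((F k n).card : ℝ) := by
    have h1 := Set.ncard_le_ncard hsub (Finset.finite_toSet _)
    rw [Set.ncard_coe_finset] at h1
    have h2 := h1.trans (card_biUnion_le.trans (sum_le_sum fun k _ => card_biUnion_le))
    exact_mod_cast h2
  -- one piece
  have hpiece : ∀ k ∈ range (K + 1), ∀ n ∈ range (K + 1), ((F k n).card : ℝ) ≤
      max C 1 * (K + 1) * Real.exp (E * Real.log x + ε / 2 * Real.log x +
        |θ| * (Real.log (K + 1) + Real.log a)) := by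
    intro k hk n _
    rw [mem_range] at hk
    have hkK : (k : ℝ) ≤ K := by exact_mod_cast (show k ≤ K by omega)
    rcases (F k n).eq_empty_or_nonempty with h0 | ⟨b, hb⟩
    · rw [h0, card_empty, Nat.cast_zero]; positivity
    have hmem : ∀ b ∈ F k n, T3^[k] b = a ∧ jj (wd k b) = n := by
      intro b hb
      rw [hFdef, mem_filter] at hb
      exact ⟨hb.2.1, hb.2.2.2.2⟩
    have hw := hC k n (F k n) hmem
    rw [hFdef, mem_filter, mem_Icc] at hb
    obtain ⟨⟨hb1, hb2⟩, hb3, hb4, hb5, hb6⟩ := hb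
    have hb0 : (0 : ℝ) < b := by exact_mod_cast hb1
    have ha0 : (0 : ℝ) < a := by exact_mod_cast ha
    have hht : ht (wd k b) = hh k n := by rw [ht, wd_length, hb6]
    have g1 := node_le k b
    have g2 := node_ge (k := k) (b := b) (by rw [hb3]; exact ha) (inj_of_minimal hb3 hb4)
    rw [hb3, hht] at g1 g2
    have g3 := Real.log_le_log hb0 g1
    rw [Real.log_mul ha0.ne' (Real.exp_pos _).ne', Real.log_exp] at g3
    have g4 := Real.log_le_log (by positivity) g2
    rw [Real.log_mul ha0.ne' (Real.exp_pos _).ne', Real.log_exp,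
      Real.log_mul hb0.ne' (by positivity)] at g4
    have g5 : Real.log b ≤ Real.log x := Real.log_le_log hb0 (by exact_mod_cast hb2)
    have g6 : Real.log ((k : ℝ) + 1) ≤ Real.log (K + 1) :=
      Real.log_le_log (by positivity) (by linarith)
    have g6' : 0 ≤ Real.log ((K : ℝ) + 1) := Real.log_nonneg (by
      have : (0 : ℝ) ≤ K := Nat.cast_nonneg K
      linarith)
    have g7 : (k : ℝ) / c ≤ Real.log b := by
      rw [div_le_iff₀ hc0]; linarith
    have g8 : (k : ℝ) ≤ c * Real.log x := by linarith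
    refine hw.trans ?_
    refine mul_le_mul ?_ (Real.exp_le_exp.2 ?_) (Real.exp_pos _).le (by positivity)
    · exact mul_le_mul (le_max_left _ _) (by linarith) (by positivity) (by positivity)
    · have k0 : (0 : ℝ) ≤ k := Nat.cast_nonneg k
      have i1 : ε / (2 * c) * k ≤ ε / 2 * Real.log x := by
        have : ε / (2 * c) * k ≤ ε / (2 * c) * (c * Real.log x) :=
          mul_le_mul_of_nonneg_left g8 (by positivity)
        have e : ε / (2 * c) * (c * Real.log x) = ε / 2 * Real.log x := by field_simp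
        linarith
      have i2 : Lam θ * k + θ * hh k n ≤ E * Real.log x + |θ| * (Real.log (K + 1) + Real.log a) := by
        rcases le_or_gt 0 θ with hθ0 | hθ0
        · rw [abs_of_nonneg hθ0]
          have j1 : Lam θ * k ≤ Lam θ * (c * Real.log x) := mul_le_mul_of_nonneg_left g8 hL.le
          have j2 : θ * hh k n ≤ θ * (Real.log x + Real.log (K + 1)) :=
            mul_le_mul_of_nonneg_left (by linarith) hθ0
          have j3 : E * Real.log x = Lam θ * (c * Real.log x) + θ * Real.log x := by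
            rw [← r3]; ring
          have j4 : 0 ≤ θ * Real.log a := mul_nonneg hθ0 hla
          have j5 : θ * (Real.log x + Real.log (K + 1)) =
            θ * Real.log x + θ * Real.log (K + 1) := by ring
          have j6 : θ * (Real.log (K + 1) + Real.log a) =
            θ * Real.log (K + 1) + θ * Real.log a := by ring
          linarith
        · rw [abs_of_neg hθ0]
          have j2 : θ * hh k n ≤ θ * (k / c - Real.log a) :=
            mul_le_mul_of_nonpos_left (by linarith) hθ0.le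
          have j5 : 0 ≤ Lam θ + θ / c := by
            have : θ * Real.log 2 ≤ θ / c := by
              rw [div_eq_mul_one_div, r2]
              have : 0 ≤ ρ * Real.log 3 := mul_nonneg r0.le log3_pos.le
              nlinarith
            have hlr : Real.log (1 - ρ) ≤ 0 := Real.log_nonpos (by linarith) (by linarith)
            linarith
          have j1 : (Lam θ + θ / c) * k ≤ (Lam θ + θ / c) * (c * Real.log x) :=
            mul_le_mul_of_nonneg_left g8 j5
          have j3 : E * Real.log x = (Lam θ + θ / c) * (c * Real.log x) := by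
            rw [← r3]; field_simp
          have j4 : 0 ≤ -θ * Real.log (K + 1) := mul_nonneg (by linarith) g6'
          have j6 : θ * (k / c - Real.log a) = θ / c * k - θ * Real.log a := by ring
          have j7 : -θ * (Real.log (K + 1) + Real.log a) =
            -θ * Real.log (K + 1) - θ * Real.log a := by ring
          have j8 : (Lam θ + θ / c) * k = Lam θ * k + θ / c * k := by ring
          linarith
      have i3 : (Lam θ + ε / (2 * c)) * k = Lam θ * k + ε / (2 * c) * k := by ring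
      linarith
  -- the sum
  refine hcard.trans ((sum_le_sum fun k hk => sum_le_sum (hpiece k hk)).trans ?_)
  rw [sum_const, sum_const, card_range, nsmul_eq_mul, nsmul_eq_mul, Real.rpow_def_of_pos hx0]
  have hK1 : (0 : ℝ) < (K : ℝ) + 1 := by positivity
  have e1 : (((K + 1 : ℕ) : ℝ) * (((K + 1 : ℕ) : ℝ) * (max C 1 * (K + 1) *
      Real.exp (E * Real.log x + ε / 2 * Real.log x + |θ| * (Real.log (K + 1) + Real.log a))))) =
      Real.exp (Real.log (max C 1) + 3 * Real.log (K + 1) + (E * Real.log x + ε / 2 * Real.log x +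
        |θ| * (Real.log (K + 1) + Real.log a))) := by
    rw [Real.exp_add (Real.log (max C 1) + 3 * Real.log (K + 1)),
      Real.exp_add (Real.log (max C 1)), Real.exp_log (by positivity)]
    have : Real.exp (3 * Real.log ((K : ℝ) + 1)) = ((K : ℝ) + 1) ^ 3 := by
      rw [show (3 : ℝ) = ((3 : ℕ) : ℝ) by norm_num, ← Real.log_pow, Real.exp_log (by positivity)]
    rw [this]
    push_cast
    ring
  rw [e1]
  apply Real.exp_le_exp.2
  have h1 : ε / (2 * c) * K ≤ ε / 2 * Real.log x := by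
    have : ε / (2 * c) * K ≤ ε / (2 * c) * (c * Real.log x) :=
      mul_le_mul_of_nonneg_left hKle (by positivity)
    have e : ε / (2 * c) * (c * Real.log x) = ε / 2 * Real.log x := by field_simp
    linarith
  have h2 : (3 + |θ|) * Real.log ((K : ℝ) + 1) = 3 * Real.log ((K : ℝ) + 1) +
    |θ| * Real.log ((K : ℝ) + 1) := by ring
  have h3 : |θ| * (Real.log ((K : ℝ) + 1) + Real.log a) = |θ| * Real.log ((K : ℝ) + 1) +
    |θ| * Real.log a := by ring
  have h4 : Real.log x * (E + ε) = E * Real.log x + ε / 2 * Real.log x + ε / 2 * Real.log x := by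
    ring
  linarith

end Pool.Agent.Collatz3.LT
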