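import Pool.Agent.Collatz3.LTRep
import Pool.Agent.Collatz3.LTMaster
import Pool.Agent.Collatz3.LTPot

set_option autoImplicit false

/-!
At most scales the nodes of the process which are cuts lie in a small set of lifts.
-/

open Finset
open scoped Classical

namespace Pool.Agent.Collatz3.LT

open Pool.Agent.Collatz3.UB (FAP)
open Pool.Agent.Collatz3.UB.PathZ (Inv X W U T)

/-- the constant in front of the probability of no cut -/
noncomputable def cm (θ : ℝ) : ℝ := Real.log 2 + |lam θ| + |θ| * Real.log 3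

theorem cm_nonneg (θ : ℝ) : 0 ≤ cm θ := by
  have := log2_pos
  have := log3_pos
  unfold cm
  positivity

/-- telescoping -/
theorem tele (f : ℕ → ℝ) (k d : ℕ) {t C : ℝ} (ht : 0 ≤ t) (h1 : ∀ l, f l - t ≤ f (l + 1)) (h2 : ∀ l, f l ≤ C) :
    d * f k - t * d ^ 2 - d * C ≤ ∑ l ∈ range k, (f (l + d) - f l) := by
  have h3 : ∀ i l, f l - t * i ≤ f (l + i) := by
    intro i
    induction i with
    | zero => intro l; simp
    | succ i ih =>
      intro l
      have := ih l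
      have := h1 (l + i)
      rw [← add_assoc]
      push_cast
      linarith
  have e1 := sum_range_add f k d
  have e2 := sum_range_add f d k
  rw [add_comm d k] at e2
  have e3 : ∑ l ∈ range k, f (l + d) = ∑ l ∈ range k, f (d + l) :=
    sum_congr rfl fun l _ => by rw [add_comm]
  have e4 : ∑ l ∈ range k, (f (l + d) - f l) = ∑ i ∈ range d, (f (k + i) - f i) := by
    rw [sum_sub_distrib, sum_sub_distrib, e3]
    linarith
  rw [e4]
  have h5 : ∀ i ∈ range d, f k - t * d - C ≤ f (k + i) - f i := by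
    intro i hi
    have h6 := h3 i k
    have h7 := h2 i
    have h8 : t * i ≤ t * d := mul_le_mul_of_nonneg_left (by exact_mod_cast (mem_range.1 hi).le) ht
    linarith
  have h6 := sum_le_sum h5
  rw [sum_const, card_range, nsmul_eq_mul] at h6
  refine le_trans (le_of_eq ?_) h6
  ring

/-- the path is a cut and has many ones -/
def EE (m k : ℕ) (ω : UB.PathZ) : Prop := ω ∈ Cu ∧ k ≤ ω.j m

/-- entropy bound: the potential of the starting point is not small on average -/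
theorem log_pot {θ : ℝ} {P : FAP UB.PathZ} (hI : Inv P) (hM : ME θ P) {ε : ℝ} (hε : 0 < ε) (K : ℕ)
    {C : ℝ} (hC1 : 1 ≤ C)
    (hC : ∀ (m N : ℕ) (x : ℤ), ∑ w ∈ (BR m x).filter (fun w => N ≤ jj w), wt (zz θ ε) θ w ≤
      C * VB (zz θ ε) θ (lam θ / 2) m N x) :
    ∃ C' : ℝ, 0 ≤ C' ∧ ∀ (m k N : ℕ) (_ : K ≤ m) (_ : m ≤ N) (_ : k ≤ N) (s : Finset UB.PathZ)
      (p : UB.PathZ → ℝ) (_ : RepG P 0 m N K s p),
      -((2 * ε + cm θ * P.m (NoCut K)) * m + C' + Real.log ((m : ℝ) + 1)) ≤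
        ∑ ω ∈ s with EE m k ω, p ω * Real.log (VB (zz θ ε) θ (lam θ / 2) m k (ω.b 0)) := by
  obtain ⟨CK, hCK0, hCK⟩ := master θ hε K
  refine ⟨Real.log 2 + Real.log C + CK, ?_, ?_⟩
  · have := log2_pos
    have := Real.log_nonneg hC1
    linarith
  intro m k N hKm hmN hkN s p hR
  have hp := hR.1
  set z := zz θ ε with hz
  have hz0 : 0 < z := Real.exp_pos _
  set A : UB.PathZ → Prop := EE m k with hA
  have hW0 : ∀ ω : UB.PathZ, W (0 + m) ω = W m ω := fun ω => by rw [zero_add]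
  have hRK := hR.toRepK
  rw [zero_add] at hRK
  -- lower bound
  have b1 : m * (lam θ + θ * (Real.log 2 - q1 P * Real.log 3)) ≤
      cH s p (W m) (fun ω : UB.PathZ => ω.b 0 % 3 ^ N) := by
    rw [hRK.cH_pair (UB.PathZ.FR_W m) (UB.FR.emod _ N) (fun _ _ h _ => h) (fun _ _ _ h => h)]
    exact hM m N
  -- the condition
  set Y0 : UB.PathZ → ℤ := fun ω => ω.b 0 % 3 ^ N with hY0
  set Y : UB.PathZ → Bool × (ℕ × ℤ) := fun ω => (decide (A ω), (ω.j m, Y0 ω)) with hY
  have b2 := cH_triangle hp (fun ω : UB.PathZ => (T^[0] ω).j m) (W m) Y0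
  have b3 := cH_j hp hR.2.1.le m 0 Y0
  have b4 := cH_triangle hp (fun ω => decide (A ω)) (W m) (fun ω : UB.PathZ => ((T^[0] ω).j m, Y0 ω))
  have b5 := cH_ind hp hR.2.1.le A (fun ω : UB.PathZ => ((T^[0] ω).j m, Y0 ω))
  have b6 : cH s p (W m) (fun ω : UB.PathZ => (decide (A ω), ((T^[0] ω).j m, Y0 ω))) = cH s p (W m) Y := rfl
  have hAY : ∀ ω ∈ s, ∀ ω' ∈ s, Y ω = Y ω' → (A ω ↔ A ω') := by
    intro ω _ ω' _ h
    simp only [hY, Prod.mk.injEq, decide_eq_decide] at h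
    exact h.1
  have b7 := UB.cH_split (s := s) (p := p) A (W m) Y hAY
  -- the complement
  have hX : ∀ ω ω' : UB.PathZ, Y ω = Y ω' → X m ω = X m ω' := by
    intro ω ω' h
    simp only [hY, Prod.mk.injEq] at h
    refine UB.PathZ.X_iff.2 ⟨h.2.1, ?_⟩
    exact UB.PathZ.emod_of_le ((ω.j_le m).trans hmN) h.2.2
  have hpn : ∀ ω ∈ s.filter (fun ω => ¬ A ω), 0 ≤ p ω := fun ω hω => hp ω (mem_filter.1 hω).1
  have hsn : ∑ ω ∈ s.filter (fun ω => ¬ A ω), p ω ≤ 1 := by
    rw [← hR.2.1]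
    exact sum_le_sum_of_subset_of_nonneg (filter_subset _ _) fun ω hω _ => hp ω hω
  have b8 := hCK (s.filter fun ω => ¬ A ω) p hpn hsn m hKm Y fun ω _ ω' _ h => hX ω ω' h
  have b9 : ∑ ω ∈ (s.filter fun ω => ¬ A ω) with ω ∈ NoCut K, p ω ≤ P.m (NoCut K) := by
    have e1 := hR.mass (fun ω => ω ∈ NoCut K) fun ω ω' _ _ _ h => propext h
    have e2 : {ω : UB.PathZ | ω ∈ NoCut K} = NoCut K := rfl
    rw [e2] at e1
    rw [← e1]
    refine sum_le_sum_of_subset_of_nonneg ?_ fun ω hω _ => hp ω (mem_filter.1 hω).1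
    intro ω hω
    rw [mem_filter, mem_filter] at hω
    rw [mem_filter]
    exact ⟨hω.1.1, hω.2⟩
  -- the event
  have hpA : ∀ ω ∈ s.filter A, 0 ≤ p ω := fun ω hω => hp ω (mem_filter.1 hω).1
  have c1 : cH (s.filter A) p (W m) Y = cH (s.filter A) p (lw m) Y := by
    refine cH_congr _ _ _ _ (fun _ _ _ _ _ _ => Iff.rfl) fun ω _ _ ω' _ _ => ?_
    rw [lw_eq_iff]
  have c2 := cH_gibbs' hpA (lw m) Y (fun w _ => wt z θ w)
    (fun y => C * VB z θ (lam θ / 2) m k y.2.2) (fun ω _ => by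
      unfold wt
      exact mul_pos (pow_pos hz0 _) (Real.exp_pos _)) (by
    intro ω₀ hω₀ I hI'
    have e1 : C * VB z θ (lam θ / 2) m k (Y ω₀).2.2 = C * VB z θ (lam θ / 2) m k (ω₀.b 0) := by
      congr 1
      apply VB_congr
      simp only [hY, hY0]
      exact Int.emod_emod_of_dvd _ (pow_dvd_pow 3 hkN)
    rw [e1]
    refine le_trans (sum_le_sum_of_subset_of_nonneg ?_ ?_) (hC m k (ω₀.b 0))
    · intro w hw
      obtain ⟨ω, hω, h3, rfl⟩ := hI' w hw
      obtain ⟨h1, h2⟩ := mem_filter.1 hω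
      rw [mem_filter, mem_BR]
      simp only [hY, Prod.mk.injEq] at h3
      refine ⟨⟨lw_length m ω, Cu_Bar h2.1 m, ?_⟩, by rw [jj_lw]; exact h2.2⟩
      refine (Read_congr (l := N) ?_ h3.2.2).1 (Read_lw m ω)
      rw [jj_lw]
      exact (ω.j_le m).trans hmN
    · intro w _ _
      unfold wt
      exact (mul_pos (pow_pos hz0 _) (Real.exp_pos _)).le)
  have c3 : ∑ ω ∈ s.filter A, p ω * (Real.log (C * VB z θ (lam θ / 2) m k (Y ω).2.2) -
      Real.log (wt z θ (lw m ω))) ≤ Real.log C + ε * m +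
      ∑ ω ∈ s.filter A, p ω * (lam θ * m + θ * hh m (ω.j m)) +
      ∑ ω ∈ s.filter A, p ω * Real.log (VB z θ (lam θ / 2) m k (ω.b 0)) := by
    have e1 : ∀ ω ∈ s.filter A, p ω * (Real.log (C * VB z θ (lam θ / 2) m k (Y ω).2.2) -
        Real.log (wt z θ (lw m ω))) = p ω * (Real.log C + ε * m) +
          (p ω * (lam θ * m + θ * hh m (ω.j m)) +
            p ω * Real.log (VB z θ (lam θ / 2) m k (ω.b 0))) := by
      intro ω _
      have e2 : VB z θ (lam θ / 2) m k (Y ω).2.2 = VB z θ (lam θ / 2) m k (ω.b 0) := by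
        apply VB_congr
        simp only [hY, hY0]
        exact Int.emod_emod_of_dvd _ (pow_dvd_pow 3 hkN)
      have e3 : Real.log (wt z θ (lw m ω)) = -((lam θ + ε) * m) - θ * hh m (ω.j m) := by
        unfold wt
        rw [lw_length, ht_lw, Real.log_mul (pow_pos hz0 _).ne' (Real.exp_pos _).ne', Real.log_exp,
          Real.log_pow, hz]
        unfold zz
        rw [Real.log_exp]; ring
      rw [e2, e3, Real.log_mul (by positivity) (VB_pos hz0 _ _ _ _ _).ne']
      ring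
    rw [sum_congr rfl e1, sum_add_distrib, sum_add_distrib, ← sum_mul]
    have e4 : ∑ ω ∈ s.filter A, p ω ≤ 1 := by
      rw [← hR.2.1]
      exact sum_le_sum_of_subset_of_nonneg (filter_subset _ _) fun ω hω _ => hp ω hω
    have e5 : 0 ≤ Real.log C + ε * m := by
      have := Real.log_nonneg hC1
      positivity
    have := mul_le_mul_of_nonneg_right e4 e5
    linarith
  -- sums over the event and its complement
  have d1 := sum_filter_add_sum_filter_not s A (fun ω => p ω * (lam θ * m + θ * hh m (ω.j m)))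
  rw [RepK_mean_hh hI hRK le_rfl] at d1
  have d2 : cm θ * m * ∑ ω ∈ (s.filter fun ω => ¬ A ω) with ω ∈ NoCut K, p ω ≤
      cm θ * m * P.m (NoCut K) := mul_le_mul_of_nonneg_left b9
        (mul_nonneg (cm_nonneg θ) (Nat.cast_nonneg m))
  change _ ≤ _ + cm θ * m * _ at b8
  linarith

/-- the set of good lifts -/
def gd (θ ε η : ℝ) (m d l : ℕ) (x : ℤ) : Set ℤ :=
  {u | Real.exp (-η) * VB (zz θ ε) θ (lam θ / 2) m l x ≤
    VB (zz θ ε) θ (lam θ / 2) m (l + d) (x + 3 ^ l * u)}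

theorem block_emod (b : ℤ) (l d : ℕ) :
    (b % 3 ^ l + 3 ^ l * (b / 3 ^ l % 3 ^ d)) % 3 ^ (l + d) = b % 3 ^ (l + d) := by
  rw [UB.emod_iff]
  refine ⟨-(b / 3 ^ l / 3 ^ d), ?_⟩
  have h1 := Int.emod_add_mul_ediv b (3 ^ l)
  have h2 := Int.emod_add_mul_ediv (b / 3 ^ l) (3 ^ d)
  rw [pow_add]
  linear_combination h1 + 3 ^ l * h2

theorem mem_gd (θ ε η : ℝ) (m d l : ℕ) (b : ℤ) :
    (b / 3 ^ l % 3 ^ d) ∈ gd θ ε η m d l (b % 3 ^ l) ↔
      Real.exp (-η) * VB (zz θ ε) θ (lam θ / 2) m l b ≤ VB (zz θ ε) θ (lam θ / 2) m (l + d) b := by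
  unfold gd
  rw [Set.mem_ofPred_eq, VB_congr _ _ _ _ _ (block_emod b l d),
    VB_congr (zz θ ε) θ (lam θ / 2) m l (x := b % 3 ^ l) (y := b)
      (Int.emod_emod_of_dvd _ (dvd_refl _))]

theorem card_gd {θ : ℝ} (h0 : 0 < lam θ) (hg : 0 < lam θ + θ * Real.log 2) {ε : ℝ} (hε : 0 < ε)
    (η : ℝ) (m d l : ℕ) (x : ℤ) :
    (((range (3 ^ d)).filter fun u : ℕ => (u : ℤ) ∈ gd θ ε η m d l x).card : ℝ) ≤
      (d + 1) * rr θ ^ d * Real.exp η := by
  have hV : 0 < VB (zz θ ε) θ (lam θ / 2) m l x := VB_pos (Real.exp_pos _) _ _ _ _ _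
  have h1 : ∑ u ∈ (range (3 ^ d)).filter (fun u => ((u : ℕ) : ℤ) ∈ gd θ ε η m d l x),
      Real.exp (-η) * VB (zz θ ε) θ (lam θ / 2) m l x ≤
      (d + 1) * rr θ ^ d * VB (zz θ ε) θ (lam θ / 2) m l x := by
    refine le_trans ?_ (VB_lifts h0 hg hε m l d x)
    refine (sum_le_sum fun u hu => (mem_filter.1 hu).2).trans ?_
    exact sum_le_sum_of_subset_of_nonneg (filter_subset _ _) fun _ _ _ =>
      (VB_pos (Real.exp_pos _) _ _ _ _ _).le
  rw [sum_const, nsmul_eq_mul, ← mul_assoc] at h1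
  have h2 := le_of_mul_le_mul_right h1 hV
  rw [Real.exp_neg, ← div_eq_mul_inv, div_le_iff₀ (Real.exp_pos _)] at h2
  exact h2

theorem windows {θ : ℝ} {P : FAP UB.PathZ} (hI : Inv P) (hM : ME θ P) (hC : CUT P)
    (h0 : 0 < lam θ) (hg : 0 < lam θ + θ * Real.log 2) (hL : Lam θ < lam θ) (m₀ : ℕ)
    (hm₀ : 1 ≤ m₀) {δ : ℝ} (hδ : 0 < δ) : ∃ d k₀ : ℕ, ∀ k : ℕ, k₀ ≤ k → ∃ G : ℕ → ℤ → Set ℤ,
      (∀ l x, 2 * ((range (3 ^ d)).filter fun u : ℕ => (u : ℤ) ∈ G l x).card ≤ 3 ^ d) ∧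
      ∑ l ∈ range k, P.m {ω | EE (m₀ * k) k ω ∧
        (ω.b 0 / 3 ^ l % 3 ^ d) ∉ G l (ω.b 0 % 3 ^ l)} ≤ δ * k := by
  have hr3 := rr_lt h0 hg hL
  have hr0 : 0 < rr θ := lt_of_lt_of_le (by positivity) (le_max_right _ _)
  set η := (Real.log 3 - Real.log (rr θ)) / 2 with hη
  have hη0 : 0 < η := by
    have := Real.log_lt_log hr0 hr3
    rw [hη]; linarith
  set t := lam θ / 2 with ht
  have ht0 : 0 < t := half_pos h0
  have hm₀' : (1 : ℝ) ≤ m₀ := by exact_mod_cast hm₀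
  have hcm := cm_nonneg θ
  set ε := δ * η / (10 * m₀) with hε
  have hε0 : 0 < ε := by positivity
  obtain ⟨K, hK⟩ := hC (δ * η / (5 * m₀ * (cm θ + 1))) (by positivity)
  obtain ⟨C, hC1, hCle, hCadd, hCtail⟩ := pot h0 hε0
  have hlC : 0 ≤ Real.log C := Real.log_nonneg hC1
  obtain ⟨C', hC'0, hC'⟩ := log_pot hI hM hε0 K hC1 hCtail
  -- the choice of d
  obtain ⟨d, hd⟩ : ∃ d : ℕ, 1 ≤ d ∧ 5 * Real.log C ≤ δ * η * d ∧ 2 * ((d : ℝ) + 1) ≤ Real.exp (η * d) := by
    obtain ⟨d1, hd1⟩ := exists_nat_gt (5 * Real.log C / (δ * η))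
    obtain ⟨d2, hd2⟩ := UB.log_small (Real.log 2) 1 η log2_pos.le (by norm_num) hη0
    refine ⟨d1 + d2 + 1, by omega, ?_, ?_⟩
    · rw [div_lt_iff₀ (by positivity)] at hd1
      have : (d1 : ℝ) ≤ ((d1 + d2 + 1 : ℕ) : ℝ) := by push_cast; linarith [Nat.cast_nonneg (α := ℝ) d2]
      have h2 : (d1 : ℝ) * (δ * η) ≤ ((d1 + d2 + 1 : ℕ) : ℝ) * (δ * η) :=
        mul_le_mul_of_nonneg_right this (by positivity)
      linarith
    · have h1 := hd2 (d1 + d2 + 1) (by omega)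
      rw [one_mul, ← Real.log_mul (by norm_num) (by positivity),
        Real.log_le_iff_le_exp (by positivity)] at h1
      exact h1
  obtain ⟨hd1, hd2, hd3⟩ := hd
  have hd0 : (0 : ℝ) < d := by exact_mod_cast hd1
  -- the choice of k₀
  obtain ⟨k1, hk1⟩ := UB.log_small ((t * d + Real.log C + C' + Real.log m₀) / η) (1 / η) (2 * δ / 5)
    (by have := Real.log_nonneg hm₀'; positivity) (by positivity) (by positivity)
  refine ⟨d, k1 + K, fun k hk => ⟨gd θ ε (η * d) (m₀ * k) d, ?_, ?_⟩⟩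
  · intro l x
    have h1 := card_gd h0 hg hε0 (η * d) (m₀ * k) d l x
    have h2 : rr θ ^ d = 3 ^ d * Real.exp (-(2 * (η * d))) := by
      have e1 : rr θ = 3 * Real.exp (-(2 * η)) := by
        rw [hη, show -(2 * ((Real.log 3 - Real.log (rr θ)) / 2)) = Real.log (rr θ) - Real.log 3 by ring,
          Real.exp_sub, Real.exp_log hr0, Real.exp_log (by norm_num)]
        field_simp
      rw [e1, mul_pow, ← Real.exp_nat_mul]
      congr 2
      ring
    have h3 : 2 * (((range (3 ^ d)).filter fun u : ℕ => (u : ℤ) ∈ gd θ ε (η * d) (m₀ * k) d l x).card : ℝ) ≤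
        3 ^ d := by
      have h4 : Real.exp (-(2 * (η * d))) * Real.exp (η * d) = (Real.exp (η * d))⁻¹ := by
        rw [← Real.exp_add, ← Real.exp_neg]; congr 1; ring
      calc 2 * (((range (3 ^ d)).filter fun u : ℕ => (u : ℤ) ∈ gd θ ε (η * d) (m₀ * k) d l x).card : ℝ)
          ≤ 2 * ((d + 1) * rr θ ^ d * Real.exp (η * d)) := by linarith
        _ = 3 ^ d * (2 * ((d : ℝ) + 1) * (Real.exp (-(2 * (η * d))) * Real.exp (η * d))) := by
            rw [h2]; ring
        _ = 3 ^ d * (2 * ((d : ℝ) + 1) * (Real.exp (η * d))⁻¹) := by rw [h4]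
        _ ≤ 3 ^ d * 1 := by
            refine mul_le_mul_of_nonneg_left ?_ (by positivity)
            rw [← div_eq_mul_inv, div_le_one (Real.exp_pos _)]
            exact hd3
        _ = 3 ^ d := mul_one _
    exact_mod_cast h3
  -- the probabilities
  set m := m₀ * k with hm
  set N := m + k + d with hN
  obtain ⟨s, p, hR⟩ := exists_RepG P 0 m N K
  have hp := hR.1
  have hmain := hC' m k N (by have := Nat.le_mul_of_pos_left k (show 0 < m₀ by omega); omega)
    (by omega) (by omega) s p hR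
  set V : ℕ → ℤ → ℝ := fun l x => VB (zz θ ε) θ t m l x with hV
  have hVpos : ∀ l x, 0 < V l x := fun l x => VB_pos (Real.exp_pos _) _ _ _ _ _
  set Bad : ℕ → UB.PathZ → Prop := fun l ω => V (l + d) (ω.b 0) < Real.exp (-(η * d)) * V l (ω.b 0)
    with hBad
  have hmass : ∀ l ∈ range k, P.m {ω | EE m k ω ∧
      (ω.b 0 / 3 ^ l % 3 ^ d) ∉ gd θ ε (η * d) m d l (ω.b 0 % 3 ^ l)} =
      ∑ ω ∈ s with EE m k ω, p ω * (if Bad l ω then 1 else 0) := by
    intro l hl
    rw [mem_range] at hl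
    have e1 : {ω : UB.PathZ | EE m k ω ∧
        (ω.b 0 / 3 ^ l % 3 ^ d) ∉ gd θ ε (η * d) m d l (ω.b 0 % 3 ^ l)} =
        {ω | EE m k ω ∧ Bad l ω} := by
      ext ω
      simp only [Set.mem_ofPred_eq]
      rw [mem_gd, not_le]
    rw [e1, ← hR.mass (fun ω => EE m k ω ∧ Bad l ω), sum_filter, sum_filter]
    · refine sum_congr rfl fun ω _ => ?_
      by_cases c1 : EE m k ω <;> by_cases c2 : Bad l ω <;> simp [c1, c2]
    · intro ω ω' h1 h2 h3 _
      rw [zero_add] at h1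
      have hj : ω.j m = ω'.j m := by
        unfold UB.PathZ.W at h1
        exact (Prod.mk.inj h1).1
      have hb1 : V (l + d) (ω.b 0) = V (l + d) (ω'.b 0) :=
        VB_congr _ _ _ _ _ (UB.PathZ.emod_of_le (by omega) h2)
      have hb2 : V l (ω.b 0) = V l (ω'.b 0) :=
        VB_congr _ _ _ _ _ (UB.PathZ.emod_of_le (by omega) h2)
      simp only [hBad, EE, hj, hb1, hb2]
      simp only [Function.iterate_zero, id] at h3
      rw [h3]
  rw [sum_congr rfl hmass]
  -- telescoping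
  have htele : ∀ ω : UB.PathZ, d * Real.log (V k (ω.b 0)) - t * d ^ 2 - d * Real.log C ≤
      ∑ l ∈ range k, (Real.log (V (l + d) (ω.b 0)) - Real.log (V l (ω.b 0))) := by
    intro ω
    refine tele (fun l => Real.log (V l (ω.b 0))) k d ht0.le (fun l => ?_) fun l => ?_
    · have h1 := VB_succ_ge (Real.exp_pos (-(lam θ + ε))) θ t m l (ω.b 0)
      have h2 := Real.log_le_log (mul_pos (Real.exp_pos _) (hVpos l (ω.b 0))) h1
      rw [Real.log_mul (Real.exp_pos _).ne' (hVpos l (ω.b 0)).ne', Real.log_exp] at h2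
      simp only [hV, zz] at h2 ⊢
      linarith
    · exact Real.log_le_log (hVpos l (ω.b 0)) (hCle m l (ω.b 0))
  have hup : ∀ (ω : UB.PathZ) (l : ℕ), Real.log (V (l + d) (ω.b 0)) - Real.log (V l (ω.b 0)) ≤
      Real.log C - η * d * (if Bad l ω then 1 else 0) := by
    intro ω l
    have h1 := Real.log_le_log (hVpos (l + d) (ω.b 0)) (hCadd m l d (ω.b 0))
    rw [Real.log_mul (by positivity) (hVpos l (ω.b 0)).ne'] at h1
    split_ifs with hb
    · have h2 := Real.log_le_log (hVpos (l + d) (ω.b 0)) hb.le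
      rw [Real.log_mul (Real.exp_pos _).ne' (hVpos l (ω.b 0)).ne', Real.log_exp] at h2
      linarith
    · simp only [hV] at h1 ⊢
      linarith
  have hpE : ∀ ω ∈ s.filter (EE m k), 0 ≤ p ω := fun ω hω => hp ω (mem_filter.1 hω).1
  have hE1 : ∑ ω ∈ s with EE m k ω, p ω ≤ 1 := by
    rw [← hR.2.1]
    exact sum_le_sum_of_subset_of_nonneg (filter_subset _ _) fun ω hω _ => hp ω hω
  have hE0 : 0 ≤ ∑ ω ∈ s with EE m k ω, p ω := sum_nonneg hpE
  have h1 : ∑ ω ∈ s with EE m k ω, p ω * (d * Real.log (V k (ω.b 0)) - t * d ^ 2 - d * Real.log C) ≤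
      ∑ ω ∈ s with EE m k ω, p ω * ∑ l ∈ range k, (Real.log C - η * d * (if Bad l ω then 1 else 0)) := by
    refine sum_le_sum fun ω hω => mul_le_mul_of_nonneg_left ?_ (hpE ω hω)
    exact (htele ω).trans (sum_le_sum fun l _ => hup ω l)
  have h2 : ∑ ω ∈ s with EE m k ω, p ω * (d * Real.log (V k (ω.b 0)) - t * d ^ 2 - d * Real.log C) =
      d * ∑ ω ∈ s with EE m k ω, p ω * Real.log (V k (ω.b 0)) -
        (t * d ^ 2 + d * Real.log C) * ∑ ω ∈ s with EE m k ω, p ω := by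
    rw [mul_sum, mul_sum, ← sum_sub_distrib]
    refine sum_congr rfl fun ω _ => ?_
    ring
  have h3 : ∑ ω ∈ s with EE m k ω, p ω * ∑ l ∈ range k, (Real.log C - η * d * (if Bad l ω then 1 else 0)) =
      k * Real.log C * ∑ ω ∈ s with EE m k ω, p ω -
        η * d * ∑ l ∈ range k, ∑ ω ∈ s with EE m k ω, p ω * (if Bad l ω then 1 else 0) := by
    rw [sum_comm (s := range k), mul_sum, mul_sum, ← sum_sub_distrib]
    refine sum_congr rfl fun ω _ => ?_
    rw [sum_sub_distrib, sum_const, card_range, nsmul_eq_mul, ← mul_sum, ← mul_sum]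
    ring
  rw [h2, h3] at h1
  set S := ∑ l ∈ range k, ∑ ω ∈ s with EE m k ω, p ω * (if Bad l ω then 1 else 0) with hS
  set E1 := ∑ ω ∈ s with EE m k ω, p ω with hE1'
  set Lg := ∑ ω ∈ s with EE m k ω, p ω * Real.log (V k (ω.b 0)) with hLg
  have h4 : -((2 * ε + cm θ * P.m (NoCut K)) * m + C' + Real.log ((m : ℝ) + 1)) ≤ Lg := hmain
  have h5 := mul_le_mul_of_nonneg_left h4 hd0.le
  have h6 : (t * d ^ 2 + d * Real.log C) * E1 ≤ t * d ^ 2 + d * Real.log C :=
    mul_le_of_le_one_right (by positivity) hE1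
  have h7 : k * Real.log C * E1 ≤ k * Real.log C := mul_le_of_le_one_right (by positivity) hE1
  have h8 : η * d * S ≤ k * Real.log C + (t * d ^ 2 + d * Real.log C) +
      d * ((2 * ε + cm θ * P.m (NoCut K)) * m + C' + Real.log ((m : ℝ) + 1)) := by
    linarith
  have hk0 : (0 : ℝ) ≤ k := Nat.cast_nonneg k
  have h9 := hk1 k (by omega)
  have h10 : Real.log ((m : ℝ) + 1) ≤ Real.log m₀ + Real.log ((k : ℝ) + 1) := by
    rw [← Real.log_mul (by positivity) (by positivity)]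
    apply Real.log_le_log (by positivity)
    rw [hm]; push_cast
    nlinarith
  have h11 : (t * d + Real.log C + C' + Real.log m₀) / η + 1 / η * Real.log ((k : ℝ) + 1) =
      (t * d + Real.log C + C' + Real.log m₀ + Real.log ((k : ℝ) + 1)) / η := by ring
  rw [h11, div_le_iff₀ hη0] at h9
  have h12 : 2 * ε * m = δ * η / 5 * k := by
    rw [hε, hm]; push_cast; field_simp; ring
  have h13 : cm θ * P.m (NoCut K) * m ≤ δ * η / 5 * k := by
    have e1 : cm θ * P.m (NoCut K) ≤ (cm θ + 1) * (δ * η / (5 * m₀ * (cm θ + 1))) :=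
      mul_le_mul (by linarith) hK (P.nonneg _) (by linarith)
    have e2 : (cm θ + 1) * (δ * η / (5 * m₀ * (cm θ + 1))) = δ * η / (5 * m₀) := by field_simp
    rw [e2] at e1
    have e3 := mul_le_mul_of_nonneg_right e1 (Nat.cast_nonneg (α := ℝ) m)
    refine e3.trans (le_of_eq ?_)
    rw [hm]; push_cast; field_simp
  have h14 : k * Real.log C ≤ d * (δ * η / 5 * k) := by
    have := mul_le_mul_of_nonneg_left hd2 hk0
    linarith
  have h15 : η * d * S ≤ η * d * (δ * k) := by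
    have e1 : (d : ℝ) * (t * d + Real.log C + C' + Real.log m₀ + Real.log ((k : ℝ) + 1)) ≤
        d * (2 * δ / 5 * k * η) := mul_le_mul_of_nonneg_left h9 hd0.le
    have e2 : (d : ℝ) * (2 * ε * m) = d * (δ * η / 5 * k) := by rw [h12]
    have e3 : (d : ℝ) * (cm θ * P.m (NoCut K) * m) ≤ d * (δ * η / 5 * k) :=
      mul_le_mul_of_nonneg_left h13 hd0.le
    have e4 := mul_le_mul_of_nonneg_left h10 hd0.le
    nlinarith
  exact le_of_mul_le_mul_left h15 (by positivity)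

end Pool.Agent.Collatz3.LT
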