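import Pool.Agent.Collatz3.LTDefs

set_option autoImplicit false

/-!
Barrier words: basic facts.
-/

open Finset
open scoped Classical

namespace Pool.Agent.Collatz3.LT

theorem log2_pos : 0 < Real.log 2 := Real.log_pos (by norm_num)
theorem log3_pos : 0 < Real.log 3 := Real.log_pos (by norm_num)
theorem log2_lt_log3 : Real.log 2 < Real.log 3 := Real.log_lt_log (by norm_num) (by norm_num)

/-! ### counting ones -/

@[simp] theorem jj_nil : jj [] = 0 := rfl
@[simp] theorem jj_false (w : List Bool) : jj (false :: w) = jj w := by simp [jj]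
@[simp] theorem jj_true (w : List Bool) : jj (true :: w) = jj w + 1 := by simp [jj]
theorem jj_append (w v : List Bool) : jj (w ++ v) = jj w + jj v := by simp [jj]
theorem jj_le (w : List Bool) : jj w ≤ w.length := List.count_le_length

@[simp] theorem cc_nil : cc [] = 0 := rfl
@[simp] theorem cc_false (w : List Bool) : cc (false :: w) = cc w := rfl
@[simp] theorem cc_true (w : List Bool) : cc (true :: w) = 2 ^ w.length + 3 * cc w := rfl

theorem cc_append (w v : List Bool) : cc (w ++ v) = 2 ^ v.length * cc w + 3 ^ jj w * cc v := by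
  induction w with
  | nil => simp
  | cons b w ih =>
    cases b
    · simp [ih]
    · simp only [List.cons_append, cc_true, jj_true, List.length_append, ih]
      ring

theorem cc_snoc_false (w : List Bool) : cc (w ++ [false]) = 2 * cc w := by
  rw [cc_append]; simp

theorem cc_snoc_true (w : List Bool) : cc (w ++ [true]) = 2 * cc w + 3 ^ jj w := by
  rw [cc_append]; simp

theorem hh_add (n n' l l' : ℕ) : hh (n + n') (l + l') = hh n l + hh n' l' := by
  unfold hh; push_cast; ring

theorem ht_append (w v : List Bool) : ht (w ++ v) = ht w + ht v := by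
  unfold ht; rw [List.length_append, jj_append, hh_add]

@[simp] theorem ht_nil : ht [] = 0 := by simp [ht, hh]
@[simp] theorem hh_zero : hh 0 0 = 0 := by simp [hh]

theorem ht_false : ht [false] = Real.log 2 := by simp [ht, hh]
theorem ht_true : ht [true] = Real.log 2 - Real.log 3 := by simp [ht, hh]

theorem exp_hh (n l : ℕ) : Real.exp (hh n l) = 2 ^ n / 3 ^ l := by
  unfold hh
  rw [Real.exp_sub, ← Real.log_pow, ← Real.log_pow, Real.exp_log (by positivity),
    Real.exp_log (by positivity)]

theorem hh_pos_iff {n l : ℕ} : 0 < hh n l ↔ 3 ^ l < 2 ^ n := by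
  rw [← Real.one_lt_exp_iff, exp_hh, one_lt_div (by positivity)]
  exact_mod_cast Iff.rfl

/-! ### injectivity -/

theorem cc_inj : ∀ (n : ℕ) (w v : List Bool), w.length = n → v.length = n → jj w = jj v →
    cc w = cc v → w = v := by
  intro n
  induction n with
  | zero =>
    intro w v hw hv _ _
    rw [List.length_eq_zero_iff.1 hw, List.length_eq_zero_iff.1 hv]
  | succ n ih =>
    intro w v hw hv hj hc
    have o : ∀ n : ℕ, 3 ^ n % 2 = 1 := fun n => by rw [Nat.pow_mod]; norm_num
    rcases List.eq_nil_or_concat w with rfl | ⟨w', b, rfl⟩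
    · simp at hw
    rcases List.eq_nil_or_concat v with rfl | ⟨v', b', rfl⟩
    · simp at hv
    simp only [List.concat_eq_append, List.length_append, List.length_cons, List.length_nil,
      zero_add] at hw hv
    simp only [List.concat_eq_append, jj_append] at hj hc ⊢
    have hw' : w'.length = n := by omega
    have hv' : v'.length = n := by omega
    cases b <;> cases b' <;> simp only [cc_snoc_false, cc_snoc_true, jj_false, jj_true, jj_nil] at hj hc
    · rw [ih w' v' hw' hv' (by omega) (by omega)]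
    · have := o (jj v'); omega
    · have := o (jj w'); omega
    · have hj' : jj w' = jj v' := by omega
      rw [hj'] at hc
      rw [ih w' v' hw' hv' hj' (by omega)]

/-! ### readability -/

theorem Read_nil (x : ℤ) : Read x [] := by simp [Read]
theorem nd_nil (x : ℤ) : nd x [] = x := by simp [nd]

theorem nd_spec {x : ℤ} {w : List Bool} (h : Read x w) :
    2 ^ w.length * x = 3 ^ jj w * nd x w + cc w := by
  unfold nd
  rw [Int.mul_ediv_cancel' h]; ring

theorem Read_append {x : ℤ} {w v : List Bool} :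
    Read x (w ++ v) ↔ Read x w ∧ Read (nd x w) v := by
  have key : Read x w → (Read x (w ++ v) ↔ Read (nd x w) v) := by
    intro h
    have h1 := nd_spec h
    unfold Read
    rw [List.length_append, jj_append, cc_append, pow_add, pow_add]
    have e : (2 : ℤ) ^ w.length * 2 ^ v.length * x - ((2 ^ v.length * cc w + 3 ^ jj w * cc v : ℕ) : ℤ) =
        3 ^ jj w * (2 ^ v.length * nd x w - cc v) := by
      push_cast
      linear_combination (2 : ℤ) ^ v.length * h1
    rw [e]
    exact mul_dvd_mul_iff_left (by positivity)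
  constructor
  · intro h
    have hw : Read x w := by
      unfold Read at h ⊢
      rw [List.length_append, jj_append, cc_append, pow_add, pow_add] at h
      have h2 : (3 : ℤ) ^ jj w ∣ 2 ^ w.length * 2 ^ v.length * x -
          ((2 ^ v.length * cc w + 3 ^ jj w * cc v : ℕ) : ℤ) := (Dvd.intro _ rfl).trans h
      have e : (2 : ℤ) ^ w.length * 2 ^ v.length * x - ((2 ^ v.length * cc w + 3 ^ jj w * cc v : ℕ) : ℤ) =
        2 ^ v.length * (2 ^ w.length * x - cc w) - 3 ^ jj w * cc v := by push_cast; ring
      rw [e] at h2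
      have h3 : (3 : ℤ) ^ jj w ∣ 2 ^ v.length * (2 ^ w.length * x - cc w) := by
        have := dvd_add h2 (Dvd.intro (cc v : ℤ) rfl : (3 : ℤ) ^ jj w ∣ 3 ^ jj w * cc v)
        simpa using this
      exact UB.dvd_two_pow_mul.1 h3
    exact ⟨hw, (key hw).1 h⟩
  · rintro ⟨h1, h2⟩
    exact (key h1).2 h2

theorem nd_append {x : ℤ} {w v : List Bool} (h : Read x (w ++ v)) :
    nd x (w ++ v) = nd (nd x w) v := by
  obtain ⟨h1, h2⟩ := Read_append.1 h
  have e := nd_spec h
  have e1 := nd_spec h1
  have e2 := nd_spec h2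
  rw [List.length_append, jj_append, cc_append, pow_add, pow_add] at e
  push_cast at e
  have : (3 : ℤ) ^ jj w * 3 ^ jj v * nd x (w ++ v) = 3 ^ jj w * 3 ^ jj v * nd (nd x w) v := by
    linear_combination -e + (2 : ℤ) ^ v.length * e1 + 3 ^ jj w * e2
  exact mul_left_cancel₀ (by positivity) this

theorem Read_add {x t : ℤ} {w : List Bool} {l : ℕ} (hl : jj w ≤ l) :
    Read (x + 3 ^ l * t) w ↔ Read x w := by
  unfold Read
  have e : 2 ^ w.length * (x + 3 ^ l * t) - (cc w : ℤ) =
      (2 ^ w.length * x - cc w) + 3 ^ l * (2 ^ w.length * t) := by ring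
  rw [e]
  have h : (3 : ℤ) ^ jj w ∣ 3 ^ l * (2 ^ w.length * t) := (pow_dvd_pow 3 hl).trans (Dvd.intro _ rfl)
  exact (Int.dvd_add_left h)

theorem nd_add {x t : ℤ} {w : List Bool} (h : Read x w) :
    nd (x + 3 ^ jj w * t) w = nd x w + 2 ^ w.length * t := by
  have h' : Read (x + 3 ^ jj w * t) w := (Read_add le_rfl).2 h
  have e := nd_spec h
  have e' := nd_spec h'
  have : (3 : ℤ) ^ jj w * nd (x + 3 ^ jj w * t) w = 3 ^ jj w * (nd x w + 2 ^ w.length * t) := by
    linear_combination e - e'
  exact mul_left_cancel₀ (by positivity) this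

theorem Read_congr {x y : ℤ} {w : List Bool} {l : ℕ} (hl : jj w ≤ l) (h : x % 3 ^ l = y % 3 ^ l) :
    Read x w ↔ Read y w := by
  have e : ∃ t, x = y + 3 ^ l * t := by
    rw [UB.emod_iff] at h
    obtain ⟨t, ht⟩ := h
    exact ⟨t, by linarith⟩
  obtain ⟨t, rfl⟩ := e
  exact Read_add hl

/-! ### words -/

theorem mem_WL {n : ℕ} : ∀ {w : List Bool}, w ∈ WL n ↔ w.length = n := by
  induction n with
  | zero => intro w; simp [WL]
  | succ n ih =>
    intro w
    cases w with
    | nil => simp [WL]
    | cons b w =>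
      simp only [WL, mem_union, mem_image, List.length_cons, List.cons.injEq]
      constructor
      · rintro (⟨a, h1, _, rfl⟩ | ⟨a, h1, _, rfl⟩) <;> rw [ih.1 h1]
      · intro h
        have h' := ih.2 (show w.length = n by omega)
        cases b
        · exact Or.inl ⟨w, h', rfl, rfl⟩
        · exact Or.inr ⟨w, h', rfl, rfl⟩

theorem mem_BR {n : ℕ} {x : ℤ} {w : List Bool} : w ∈ BR n x ↔ w.length = n ∧ Bar w ∧ Read x w := by
  rw [BR, mem_filter, mem_WL]

theorem Bar_nil : Bar [] := by
  intro i h1 h2; simp at h2; omega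

theorem Bar_take {w : List Bool} (h : Bar w) (i : ℕ) : Bar (w.take i) := by
  intro k h1 h2
  rw [List.length_take] at h2
  rw [List.take_take, min_eq_left (by omega)]
  exact h k h1 (by omega)

theorem Bar.left {w v : List Bool} (h : Bar (w ++ v)) : Bar w := by
  have := Bar_take h w.length
  rwa [List.take_left] at this

theorem Bar.ht_nonneg {w : List Bool} (h : Bar w) : 0 ≤ ht w := by
  rcases Nat.eq_zero_or_pos w.length with h0 | h0
  · rw [List.length_eq_zero_iff.1 h0]; simp
  · have := h w.length h0 le_rfl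
    rw [List.take_length] at this
    exact this.le

theorem Bar.ht_le {w : List Bool} : ht w ≤ w.length * Real.log 2 := by
  unfold ht hh
  have : 0 ≤ (jj w : ℝ) * Real.log 3 := mul_nonneg (Nat.cast_nonneg _) log3_pos.le
  linarith

/-- constant of a barrier word -/
theorem cc_le : ∀ (w : List Bool), Bar w → 2 * cc w ≤ w.length * 2 ^ w.length := by
  intro w
  induction w using List.reverseRecOn with
  | nil => intro _; simp
  | append_singleton w b ih =>
    intro h
    have hw := h.left
    have h1 := ih hw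
    have h2 : 3 ^ jj w ≤ 2 ^ w.length := by
      rcases Nat.eq_zero_or_pos w.length with h0 | h0
      · rw [List.length_eq_zero_iff.1 h0]; simp
      · have := hw w.length h0 le_rfl
        rw [List.take_length] at this
        exact (hh_pos_iff.1 this).le
    rw [List.length_append, List.length_singleton, pow_succ]
    cases b
    · rw [cc_snoc_false]; nlinarith [Nat.zero_le (2 ^ w.length)]
    · rw [cc_snoc_true]; nlinarith

theorem BR_zero (x : ℤ) : BR 0 x = {[]} := by
  ext w
  rw [mem_BR, mem_singleton]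
  constructor
  · rintro ⟨h, _, _⟩; exact List.length_eq_zero_iff.1 h
  · rintro rfl; exact ⟨rfl, Bar_nil, Read_nil x⟩

/-- the trivial bound -/
theorem NN_le (n l : ℕ) (x : ℤ) : (NN n l x : ℝ) ≤ n * Real.exp (hh n l) + 1 := by
  set S := (BR n x).filter fun w => jj w = l with hS
  have hmem : ∀ w ∈ S, w.length = n ∧ Bar w ∧ Read x w ∧ jj w = l := by
    intro w hw
    rw [hS, mem_filter, mem_BR] at hw
    exact ⟨hw.1.1, hw.1.2.1, hw.1.2.2, hw.2⟩
  have h3 : 0 < 3 ^ l := by positivity
  have hinj : Set.InjOn (fun w : List Bool => cc w / 3 ^ l) S := by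
    intro w hw v hv h
    obtain ⟨a1, a2, a3, a4⟩ := hmem w hw
    obtain ⟨b1, b2, b3, b4⟩ := hmem v hv
    refine cc_inj n w v a1 b1 (by rw [a4, b4]) ?_
    have hmod : cc w % 3 ^ l = cc v % 3 ^ l := by
      unfold Read at a3 b3
      rw [a1, a4] at a3
      rw [b1, b4] at b3
      have h5 : (3 : ℤ) ^ l ∣ (cc w : ℤ) - cc v := by
        have := dvd_sub b3 a3
        have e : 2 ^ n * x - (cc v : ℤ) - (2 ^ n * x - cc w) = cc w - cc v := by ring
        rwa [e] at this
      have h6 : ((cc w : ℕ) : ℤ) % ((3 ^ l : ℕ) : ℤ) = ((cc v : ℕ) : ℤ) % ((3 ^ l : ℕ) : ℤ) := by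
        push_cast
        exact UB.emod_iff.2 h5
      exact_mod_cast h6
    rw [← Nat.div_add_mod (cc w) (3 ^ l), ← Nat.div_add_mod (cc v) (3 ^ l), hmod]
    have h' : cc w / 3 ^ l = cc v / 3 ^ l := h
    rw [h']
  have hcard : S.card ≤ n * 2 ^ n / 3 ^ l + 1 := by
    rw [← card_range (n * 2 ^ n / 3 ^ l + 1)]
    refine card_le_card_of_injOn (fun w : List Bool => cc w / 3 ^ l) ?_ hinj
    intro w hw
    obtain ⟨a1, a2, a3, a4⟩ := hmem w hw
    have h1 := cc_le w a2
    rw [a1] at h1
    rw [mem_coe, mem_range]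
    refine Nat.lt_succ_of_le (Nat.div_le_div_right ?_)
    omega
  have h5 : (NN n l x : ℝ) ≤ ((n * 2 ^ n / 3 ^ l : ℕ) : ℝ) + 1 := by
    unfold NN
    exact_mod_cast hcard
  have h6 : ((n * 2 ^ n / 3 ^ l : ℕ) : ℝ) ≤ n * Real.exp (hh n l) := by
    refine Nat.cast_div_le.trans ?_
    rw [exp_hh]; push_cast
    exact le_of_eq (by ring)
  linarith

theorem sum_by_jj {n : ℕ} {x : ℤ} (F : List Bool → ℝ) (p : List Bool → Prop) :
    ∑ w ∈ (BR n x).filter p, F w =
      ∑ l ∈ range (n + 1), ∑ w ∈ (BR n x).filter (fun w => p w ∧ jj w = l), F w := by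
  rw [← sum_fiberwise_of_maps_to (g := jj) (t := range (n + 1))]
  · refine sum_congr rfl fun l _ => ?_
    rw [filter_filter]
  · intro w hw
    rw [mem_filter, mem_BR] at hw
    rw [mem_range]
    have := jj_le w
    omega

theorem AA_eq (θ : ℝ) (n : ℕ) (x : ℤ) :
    AA θ n x = ∑ l ∈ range (n + 1), Real.exp (-θ * hh n l) * NN n l x := by
  have h := sum_by_jj (n := n) (x := x) (fun w => Real.exp (-θ * ht w)) (fun _ => True)
  simp only [true_and, filter_true] at h
  unfold AA
  rw [h]
  refine sum_congr rfl fun l _ => ?_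
  unfold NN
  rw [mul_comm, ← nsmul_eq_mul, ← sum_const]
  refine sum_congr rfl fun w hw => ?_
  rw [mem_filter, mem_BR] at hw
  unfold ht
  rw [hw.1.1, hw.2]

/-- the words between consecutive cuts have a small total weight -/
theorem letter_sum (θ : ℝ) (n : ℕ) (x : ℤ) :
    ∑ a ∈ (BR n x).filter (fun a => ht a ≤ Real.log 2), Real.exp (-θ * ht a) ≤
      (2 * n + 1) * (n + 1) * Real.exp (|θ| * Real.log 2) := by
  rw [sum_by_jj]
  have key : ∀ l ∈ range (n + 1),
      ∑ w ∈ (BR n x).filter (fun w => ht w ≤ Real.log 2 ∧ jj w = l), Real.exp (-θ * ht w) ≤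
        (2 * n + 1) * Real.exp (|θ| * Real.log 2) := by
    intro l _
    by_cases hl : hh n l ≤ Real.log 2
    · have h1 : ∀ w ∈ (BR n x).filter (fun w => ht w ≤ Real.log 2 ∧ jj w = l),
          Real.exp (-θ * ht w) ≤ Real.exp (|θ| * Real.log 2) := by
        intro w hw
        rw [mem_filter, mem_BR] at hw
        apply Real.exp_le_exp.2
        have h2 := hw.1.2.1.ht_nonneg
        have h3 := neg_abs_le θ
        have h4 := hw.2.1
        have h5 := abs_nonneg θ
        nlinarith
      refine (sum_le_sum h1).trans ?_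
      rw [sum_const, nsmul_eq_mul]
      refine mul_le_mul_of_nonneg_right ?_ (Real.exp_pos _).le
      have h2 : (((BR n x).filter (fun w => ht w ≤ Real.log 2 ∧ jj w = l)).card : ℝ) ≤ NN n l x := by
        unfold NN
        exact_mod_cast card_le_card fun w hw => by
          rw [mem_filter] at hw ⊢
          exact ⟨hw.1, hw.2.2⟩
      have h3 := NN_le n l x
      have h4 : Real.exp (hh n l) ≤ 2 := by
        have := Real.exp_le_exp.2 hl
        rwa [Real.exp_log (by norm_num)] at this
      have h5 : (0 : ℝ) ≤ n := Nat.cast_nonneg n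
      nlinarith
    · have h1 : (BR n x).filter (fun w => ht w ≤ Real.log 2 ∧ jj w = l) = ∅ := by
        refine filter_eq_empty_iff.2 fun w hw h => ?_
        rw [mem_BR] at hw
        apply hl
        rw [← hw.1, ← h.2]
        exact h.1
      rw [h1, sum_empty]
      positivity
  refine (sum_le_sum key).trans (le_of_eq ?_)
  rw [sum_const, card_range, nsmul_eq_mul]
  push_cast
  ring

/-! ### decomposition at cuts -/

theorem Bar_iff_suffix {w : List Bool} {t : ℕ} (ht' : t ≤ w.length) : Bar (w.drop t) ↔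
    ∀ i, t < i → i ≤ w.length → ht (w.take t) < ht (w.take i) := by
  have key : ∀ i, t ≤ i → ht (w.take i) = ht (w.take t) + ht ((w.drop t).take (i - t)) := by
    intro i hi
    rw [← ht_append]
    congr 1
    rw [← List.take_add]
    congr 1; omega
  constructor
  · intro h i h1 h2
    have := h (i - t) (by omega) (by rw [List.length_drop]; omega)
    rw [key i h1.le]; linarith
  · intro h i h1 h2
    rw [List.length_drop] at h2
    have := h (t + i) (by omega) (by omega)
    rw [key (t + i) (by omega), Nat.add_sub_cancel_left] at this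
    linarith

theorem cut_pair {w : List Bool} (hw : Bar w) {t : ℕ} (htl : t < w.length) :
    ∃ w1 a w3 : List Bool, w = w1 ++ (a ++ w3) ∧ Bar w1 ∧ Bar a ∧ Bar w3 ∧ ht a ≤ Real.log 2 ∧
      w1.length ≤ t ∧ t < w1.length + a.length ∧
      (∀ i, w1.length < i → i < w1.length + a.length → ¬ Bar (w.drop i)) := by
  -- the last cut up to `t`
  obtain ⟨c, hc, hcmax⟩ : ∃ c, (c ≤ t ∧ Bar (w.drop c)) ∧ ∀ i, i ≤ t → Bar (w.drop i) → i ≤ c := by
    have h0 : (0 ≤ t ∧ Bar (w.drop 0)) := ⟨Nat.zero_le t, by simpa using hw⟩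
    have := Nat.findGreatest_spec (P := fun c => Bar (w.drop c)) (n := t) h0.1 h0.2
    refine ⟨_, ⟨Nat.findGreatest_le t, this⟩, fun i hi hB => Nat.le_findGreatest hi hB⟩
  -- the first cut after `t`
  have hex : ∃ c', t < c' ∧ Bar (w.drop c') := ⟨w.length, htl, by simpa using Bar_nil⟩
  set c' := Nat.find hex with hc'
  obtain ⟨h1, h2⟩ := Nat.find_spec hex
  have hmin : ∀ i, t < i → Bar (w.drop i) → c' ≤ i := fun i hi hB => Nat.find_min' hex ⟨hi, hB⟩
  have hcl : c' ≤ w.length := hmin _ htl (by simpa using Bar_nil)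
  have hno : ∀ i, c < i → i < c' → ¬ Bar (w.drop i) := by
    intro i hi1 hi2 hB
    rcases Nat.lt_or_ge t i with h | h
    · have := hmin i h hB; omega
    · have := hcmax i h hB; omega
  rw [← hc'] at h1 h2
  have hd : w.drop c = (w.drop c).take (c' - c) ++ w.drop c' := by
    conv_lhs => rw [← List.take_append_drop (c' - c) (w.drop c)]
    rw [List.drop_drop]
    congr 2; omega
  have hl1 : (w.take c).length = c := by rw [List.length_take]; omega
  have hla : ((w.drop c).take (c' - c)).length = c' - c := by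
    rw [List.length_take, List.length_drop]; omega
  refine ⟨w.take c, (w.drop c).take (c' - c), w.drop c', ?_, Bar_take hw c, Bar_take hc.2 _, h2, ?_,
    by rw [hl1]; exact hc.1, by rw [hl1, hla]; omega, ?_⟩
  · rw [← hd, List.take_append_drop]
  · -- the height of a letter
    have key : ∀ i, c ≤ i → ht (w.take i) = ht (w.take c) + ht ((w.drop c).take (i - c)) := by
      intro i hi
      rw [← ht_append, ← List.take_add]
      congr 2; omega
    have hdown : ∀ m i, c' - i ≤ m → c < i → i ≤ c' → ht (w.take c') ≤ ht (w.take i) := by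
      intro m
      induction m with
      | zero =>
        intro i hi h3 h4
        have : i = c' := by omega
        rw [this]
      | succ m ih =>
        intro i hi h3 h4
        rcases Nat.lt_or_ge i c' with h5 | h5
        · have h6 := hno i h3 h5
          rw [Bar_iff_suffix (by omega)] at h6
          push Not at h6
          obtain ⟨i', h7, h8, h9⟩ := h6
          rcases Nat.lt_or_ge i' c' with h10 | h10
          · exact (ih i' (by omega) (by omega) h10.le).trans h9
          · rcases h10.eq_or_lt with h11 | h11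
            · rw [h11]; exact h9
            · exact (((Bar_iff_suffix hcl).1 h2) i' h11 h8).le.trans h9
        · have : i = c' := by omega
          rw [this]
    have h6 := hdown _ (c + 1) le_rfl (by omega) (by omega)
    have h7 := key c' (by omega)
    have h8 := key (c + 1) (by omega)
    rw [Nat.add_sub_cancel_left] at h8
    have h9 : ht ((w.drop c).take 1) ≤ Real.log 2 := by
      unfold ht hh
      have : ((w.drop c).take 1).length = 1 := by rw [List.length_take, List.length_drop]; omega
      rw [this]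
      have : 0 ≤ (jj ((w.drop c).take 1) : ℝ) * Real.log 3 :=
        mul_nonneg (Nat.cast_nonneg _) log3_pos.le
      push_cast
      linarith
    linarith
  · intro i hi1 hi2
    rw [hl1] at hi1 hi2
    rw [hla] at hi2
    exact hno i hi1 (by omega)

/-- sums over decomposed words -/
theorem sum_dec {ι κ μ β : Type*} [DecidableEq β] (S : Finset β) (F : β → ℝ) (hF : ∀ w ∈ S, 0 ≤ F w)
    (I : Finset ι) (J : ι → Finset κ) (L : ι → κ → Finset μ) (G : ι → κ → μ → ℝ)
    (hG : ∀ i ∈ I, ∀ j ∈ J i, ∀ m ∈ L i j, 0 ≤ G i j m) (f : ι → κ → μ → β)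
    (h : ∀ w ∈ S, ∃ i ∈ I, ∃ j ∈ J i, ∃ m ∈ L i j, f i j m = w ∧ F w ≤ G i j m) :
    ∑ w ∈ S, F w ≤ ∑ i ∈ I, ∑ j ∈ J i, ∑ m ∈ L i j, G i j m := by
  rw [sum_congr rfl fun i _ => (sum_sigma (J i) (L i) fun x => G i x.1 x.2).symm,
    ← sum_sigma I (fun i => (J i).sigma (L i)) fun x => G x.1 x.2.1 x.2.2]
  set T := I.sigma fun i => (J i).sigma (L i) with hT
  have h' : ∀ w ∈ S, ∃ t ∈ T, f t.1 t.2.1 t.2.2 = w ∧ F w ≤ G t.1 t.2.1 t.2.2 := by
    intro w hw
    obtain ⟨i, hi, j, hj, m, hm, h1, h2⟩ := h w hw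
    exact ⟨⟨i, j, m⟩, by simp [hT, hi, hj, hm], h1, h2⟩
  rcases S.eq_empty_or_nonempty with h0 | ⟨w₀, hw₀⟩
  · rw [h0, sum_empty]
    refine sum_nonneg fun t ht => ?_
    rw [hT, mem_sigma, mem_sigma] at ht
    exact hG _ ht.1 _ ht.2.1 _ ht.2.2
  have hne : Nonempty ((_ : ι) × (_ : κ) × μ) := ⟨(h' w₀ hw₀).choose⟩
  choose! g hg1 hg2 hg3 using h'
  have hinj : ∀ w ∈ S, ∀ v ∈ S, g w = g v → w = v := by
    intro w hw v hv e
    rw [← hg2 w hw, ← hg2 v hv, e]
  calc ∑ w ∈ S, F w ≤ ∑ w ∈ S, G (g w).1 (g w).2.1 (g w).2.2 := sum_le_sum fun w hw => hg3 w hw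
    _ = ∑ t ∈ S.image g, G t.1 t.2.1 t.2.2 :=
        (sum_image (f := fun t : ((_ : ι) × (_ : κ) × μ) => G t.1 t.2.1 t.2.2) hinj).symm
    _ ≤ ∑ t ∈ T, G t.1 t.2.1 t.2.2 := by
        refine sum_le_sum_of_subset_of_nonneg ?_ ?_
        · intro t ht
          obtain ⟨w, hw, rfl⟩ := mem_image.1 ht
          exact hg1 w hw
        · intro t ht _
          rw [hT, mem_sigma, mem_sigma] at ht
          exact hG _ ht.1 _ ht.2.1 _ ht.2.2

end Pool.Agent.Collatz3.LT
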