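import Mathlib
import Pool.Agent.Helper14.FatouDefs
import Pool.Agent.Helper14.Fatou
import Pool.Agent.Collatz3.PDGrand
import Pool.Agent.Collatz3.DNLower
import Pool.Agent.Collatz3.DNSlow
import Pool.Agent.Collatz3.DNWinDens
import Pool.Agent.Collatz3.DNBlocks

set_option autoImplicit false

namespace Pool.Agent.Collatz3.ND

open Filter Topology
open Pool.Agent.Helper14 (T f₀ fatouComponent IsWanderingDomain f₀_iter_intCast intWandering_congr
  not_intWandering abs_le_finite Back)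
open Pool.Agent.Collatz3.DN

/-- The set of integers whose Fatou component is a wandering domain of `f₀`. -/
def W : Set ℤ := {n : ℤ | IsWanderingDomain f₀ (fatouComponent f₀ (n : ℂ))}

/-- The integers whose forward orbit under `T` meets `F`. -/
def reach (F : Set ℤ) : Set ℤ := {n : ℤ | ∃ k : ℕ, T^[k] n ∈ F}

/-- `A` has natural density `d` among the integers of sign `σ` (`σ = 1` or `-1`), and the same
density along every arithmetic progression `σ (q m + r)`, `m = 0, 1, 2, …`. -/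
def Dens (σ : ℤ) (A : Set ℤ) (d : ℝ) : Prop :=
  ∀ q r : ℕ, 1 ≤ q → Tendsto (fun x : ℝ =>
    (Set.ncard {m : ℕ | (m : ℝ) ≤ x ∧ σ * (q * m + r) ∈ A} : ℝ) / x) atTop (𝓝 d)

theorem windowDens : WindowDens := windowDens_of slowEv

theorem dens_of_evInv {σ : ℤ} (hσ : |σ| = 1) {C : ℕ} {A : Set ℤ} (hA : EvInv C A) {d : ℝ}
    (hd : Tendsto (D σ A) atTop (𝓝 d)) : Dens σ A d := by
  intro q r hq
  have h := (slowEv σ hσ C A hA q r hq 1 one_pos).add hd
  rw [zero_add] at h
  refine h.congr fun x => ?_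
  unfold D
  rw [one_mul]
  ring

theorem Dens.tendsto {σ : ℤ} {A : Set ℤ} {d : ℝ} (h : Dens σ A d) :
    Tendsto (D σ A) atTop (𝓝 d) := by
  have h1 := h 1 0 le_rfl
  refine h1.congr fun x => ?_
  unfold D
  congr 3
  ext m
  simp

theorem evInv_of_inv {A : Set ℤ} (hA : ∀ n, T n ∈ A ↔ n ∈ A) : EvInv 0 A := fun n _ => hA n

theorem iter_iff {A : Set ℤ} (hA : ∀ n, T n ∈ A ↔ n ∈ A) (k : ℕ) : ∀ n, T^[k] n ∈ A ↔ n ∈ A := by
  induction k with
  | zero => intro n; rfl
  | succ k ih =>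
    intro n
    rw [Function.iterate_succ_apply, ih, hA]

/-- From a uniform lower bound for the counting functions to the density. -/
theorem dens_ge_of_count {σ : ℤ} (hσ : |σ| = 1) {A : Set ℤ} {d c : ℝ} (hd : Dens σ A d) {a : ℤ}
    (ha : 0 < σ * a) {B : ℝ → Set ℤ} (hB : ∀ x, ∀ n ∈ B x, 0 < n * a ∧ |(n : ℝ)| ≤ x * |(a : ℝ)| ∧
      n ∈ A) (h : ∀ x : ℝ, 1 ≤ x → c * x ≤ ((B x).ncard : ℝ)) : c / |(a : ℝ)| ≤ d := by
  have hσσ : σ * σ = 1 := by
    have := abs_mul_abs_self σ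
    rw [hσ] at this
    linarith
  have ha0 : a ≠ 0 := by
    rintro rfl
    simp at ha
  have haa : 0 < |(a : ℝ)| := by
    rw [abs_pos]
    exact_mod_cast ha0
  apply ge_of_tendsto hd.tendsto
  filter_upwards [eventually_ge_atTop |(a : ℝ)|] with x hx
  have hx0 : 0 < x := lt_of_lt_of_le haa hx
  have h1 := h (x / |(a : ℝ)|) (by rw [le_div_iff₀ haa, one_mul]; exact hx)
  have h2 : (B (x / |(a : ℝ)|)).ncard ≤ Set.ncard {m : ℕ | (m : ℝ) ≤ x ∧ σ * m ∈ A} := by
    apply Set.ncard_le_ncard_of_injOn (fun n : ℤ => n.natAbs) (ht := count_finite σ A x)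
    · intro n hn
      obtain ⟨g1, g2, g3⟩ := hB _ n hn
      have e1 : 0 < σ * n := by
        have h5 : 0 < (n * a) * (σ * a) := mul_pos g1 ha
        have h6 : (n * a) * (σ * a) = (σ * n) * (a * a) := by ring
        rw [h6] at h5
        by_contra hcon
        have := mul_nonpos_of_nonpos_of_nonneg (not_lt.1 hcon) (mul_self_nonneg a)
        linarith
      have e2 : ((n.natAbs : ℕ) : ℤ) = σ * n := by
        rw [Int.natCast_natAbs]
        have e3 : |σ * n| = |n| := by rw [abs_mul, hσ, one_mul]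
        rw [← e3, abs_of_pos e1]
      refine ⟨?_, ?_⟩
      · have e4 : ((n.natAbs : ℕ) : ℝ) = |(n : ℝ)| := by
          rw [Nat.cast_natAbs]
          push_cast
          rfl
        rw [e4]
        rw [div_mul_cancel₀ _ haa.ne'] at g2
        exact g2
      · rw [e2, ← mul_assoc, hσσ, one_mul]
        exact g3
    · intro n hn m hm hnm
      have g1 := (hB _ n hn).1
      have g2 := (hB _ m hm).1
      rcases Int.natAbs_eq_natAbs_iff.1 hnm with h5 | h5
      · exact h5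
      · exfalso
        rw [h5] at g1
        linarith
  unfold D
  rw [div_le_div_iff₀ haa hx0]
  have h3 : c * (x / |(a : ℝ)|) ≤ (Set.ncard {m : ℕ | (m : ℝ) ≤ x ∧ σ * m ∈ A} : ℝ) :=
    h1.trans (by exact_mod_cast h2)
  rw [mul_div_assoc', div_le_iff₀ haa] at h3
  exact h3

theorem reach_inv_W (n : ℤ) : T n ∈ W ↔ n ∈ W :=
  intWandering_congr (m := T n) (n := n) (k := 0) (l := 1) rfl

/-- **Natural densities for the `3x+1` map.** -/
theorem result : ∃ c : ℝ, 0 < c ∧ ∀ σ : ℤ, |σ| = 1 → ∃ d : Set ℤ → ℝ,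
    -- every invariant set has a natural density, positive if the set is nonempty
    (∀ A : Set ℤ, (∀ n, T n ∈ A ↔ n ∈ A) →
      Dens σ A (d A) ∧ ∀ a ∈ A, 0 < σ * a → c / |(a : ℝ)| ≤ d A) ∧
    -- almost every member of an invariant set has its neighbours in the set
    (∀ A : Set ℤ, (∀ n, T n ∈ A ↔ n ∈ A) → ∀ F : Finset (ℕ × ℤ),
      Dens σ {n : ℤ | n ∈ A ∧ ∀ s ∈ F, 3 ^ s.1 * n + s.2 ∈ A} (d A)) ∧
    -- countable additivity
    d Set.univ = 1 ∧
    (∀ A : ℕ → Set ℤ, (∀ i, ∀ n, T n ∈ A i ↔ n ∈ A i) → Pairwise (Function.onFun Disjoint A) →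
      HasSum (fun i => d (A i)) (d (⋃ i, A i))) ∧
    -- the integers in wandering domains
    Dens σ W (d W) ∧ (d W = 0 ↔ ∀ n ∈ W, ¬ 0 < σ * n) ∧
    -- predecessor sets
    (∀ a : ℤ, 0 < σ * a →
      Dens σ (reach {a}) (d (reach {a})) ∧ (¬ (3 : ℤ) ∣ a → c / |(a : ℝ)| ≤ d (reach {a}))) := by
  classical
  obtain ⟨c₁, hc₁, hgrand⟩ := Pool.Agent.Collatz3.PD.grand_density
  obtain ⟨c₂, hc₂, hback⟩ := Pool.Agent.Collatz3.PD.back_density
  refine ⟨min c₁ c₂, lt_min hc₁ hc₂, fun σ hσ => ?_⟩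
  -- the density function
  obtain ⟨d, hd⟩ : ∃ d : Set ℤ → ℝ, ∀ A : Set ℤ, ∀ C : ℕ, EvInv C A → Dens σ A (d A) := by
    have hex : ∀ A : Set ℤ, ∃ x : ℝ, ∀ C : ℕ, EvInv C A → Dens σ A x := by
      intro A
      by_cases h : ∃ C, EvInv C A
      · obtain ⟨C, hC⟩ := h
        obtain ⟨x, hx⟩ := exists_dens windowLowerB windowDens hσ hC
        exact ⟨x, fun C' hC' => dens_of_evInv hσ hC' hx⟩
      · exact ⟨0, fun C hC => absurd ⟨C, hC⟩ h⟩
    choose d hd using hex
    exact ⟨d, hd⟩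
  have hunique : ∀ A : Set ℤ, ∀ x y : ℝ, Dens σ A x → Dens σ A y → x = y := fun A x y h1 h2 =>
    tendsto_nhds_unique h1.tendsto h2.tendsto
  have hle : ∀ (x y : ℝ) (a : ℤ), x / |(a : ℝ)| ≤ y → ∀ z : ℝ, z ≤ x → z / |(a : ℝ)| ≤ y := by
    intro x y a h z hz
    exact (div_le_div_of_nonneg_right hz (abs_nonneg _)).trans h
  have hinv : ∀ A : Set ℤ, (∀ n, T n ∈ A ↔ n ∈ A) →
      Dens σ A (d A) ∧ ∀ a ∈ A, 0 < σ * a → min c₁ c₂ / |(a : ℝ)| ≤ d A := by
    intro A hA
    have h1 := hd A 0 (evInv_of_inv hA)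
    refine ⟨h1, fun a ha hpos => ?_⟩
    have ha0 : a ≠ 0 := by
      rintro rfl
      simp at hpos
    apply hle c₁ _ a _ _ (min_le_left _ _)
    refine dens_ge_of_count hσ h1 hpos (B := fun x => {n : ℤ | 0 < n * a ∧
      |(n : ℝ)| ≤ x * |(a : ℝ)| ∧ ∃ j k : ℕ, T^[j] n = T^[k] a ∧ (¬ (3 : ℤ) ∣ a → k = 0)})
      ?_ (fun x hx => hgrand a ha0 x hx)
    rintro x n ⟨g1, g2, j, k, g3, -⟩
    refine ⟨g1, g2, ?_⟩
    rw [← iter_iff hA j n, g3, iter_iff hA k a]
    exact ha
  refine ⟨d, hinv, ?_, ?_, ?_, ?_, ?_, ?_⟩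
  · -- neighbours
    intro A hA F q r hq
    exact blk_step (evInv_of_inv hA) hσ hq r ((hinv A hA).1 q r hq) F
  · -- the density of all integers
    have h1 := (hinv Set.univ (fun n => by simp)).1
    exact tendsto_nhds_unique h1.tendsto D_univ
  · intro A hA hdis
    have h1 : ∀ i, EvInv 0 (A i) := fun i => evInv_of_inv (hA i)
    exact hasSum_dens windowLowerB windowDens hσ h1 hdis (fun i => (hd _ 0 (h1 i)).tendsto)
      (hd _ 0 (EvInv.iUnion h1)).tendsto
  · exact (hinv W reach_inv_W).1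
  · constructor
    · intro h0 n hn hpos
      have h1 := (hinv W reach_inv_W).2 n hn hpos
      rw [h0] at h1
      have h2 : 0 < |(n : ℝ)| := by
        rw [abs_pos]
        rintro h3
        have h4 : n = 0 := by exact_mod_cast h3
        rw [h4] at hpos
        simp at hpos
      have h3 : 0 < min c₁ c₂ / |(n : ℝ)| := div_pos (lt_min hc₁ hc₂) h2
      linarith
    · intro h0
      have h1 := (hinv W reach_inv_W).1
      apply hunique W _ _ h1
      intro q r hq
      have h2 : ∀ x : ℝ, (Set.ncard {m : ℕ | (m : ℝ) ≤ x ∧ σ * (q * m + r) ∈ W} : ℝ) ≤ 1 := by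
        intro x
        have hsub : {m : ℕ | (m : ℝ) ≤ x ∧ σ * (q * m + r) ∈ W} ⊆ {0} := by
          rintro m ⟨-, hm⟩
          by_contra hne
          have hm0 : 0 < m := Nat.pos_of_ne_zero hne
          apply h0 _ hm
          have hσσ : σ * σ = 1 := by
            have := abs_mul_abs_self σ
            rw [hσ] at this
            linarith
          rw [← mul_assoc, hσσ, one_mul]
          positivity
        have := Set.ncard_le_ncard hsub (Set.finite_singleton 0)
        rw [Set.ncard_singleton] at this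
        exact_mod_cast this
      refine squeeze_zero' ?_ ?_ (tendsto_inv_atTop_zero (𝕜 := ℝ))
      · filter_upwards [eventually_gt_atTop 0] with x hx
        positivity
      · filter_upwards [eventually_gt_atTop 0] with x hx
        rw [← one_div]
        exact div_le_div_of_nonneg_right (h2 x) hx.le
  · intro a hpos
    have ha0 : a ≠ 0 := by
      rintro rfl
      simp at hpos
    have h1 : EvInv a.natAbs (reach {a}) := Reach.evInv (F := {a}) (by
      intro c hc
      rw [Set.mem_singleton_iff] at hc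
      rw [hc, Int.abs_eq_natAbs])
    have h2 := hd _ _ h1
    refine ⟨h2, fun h3 => ?_⟩
    apply hle c₂ _ a _ _ (min_le_right _ _)
    refine dens_ge_of_count hσ h2 hpos (B := fun x => Back a (x * |(a : ℝ)|))
      ?_ (fun x hx => hback a h3 x hx)
    rintro x n ⟨g1, g2, k, g3⟩
    exact ⟨g1, g2, k, g3⟩

/-- **Natural densities for the `3x+1` map**, for eventually invariant sets. -/
theorem main : ∃ c : ℝ, 0 < c ∧ ∀ σ : ℤ, |σ| = 1 → ∃ d : Set ℤ → ℝ,
    (∀ (K : ℕ) (A : Set ℤ), EvInv K A → Dens σ A (d A)) ∧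
    (∀ (K : ℕ) (A : Set ℤ), EvInv K A → ∀ F : Finset (ℕ × ℤ),
      Dens σ {n : ℤ | n ∈ A ∧ ∀ s ∈ F, 3 ^ s.1 * n + s.2 ∈ A} (d A)) ∧
    d Set.univ = 1 ∧
    (∀ (K : ℕ) (A : ℕ → Set ℤ), (∀ i, EvInv K (A i)) → Pairwise (Function.onFun Disjoint A) →
      HasSum (fun i => d (A i)) (d (⋃ i, A i))) ∧
    (∀ A : Set ℤ, (∀ n, T n ∈ A ↔ n ∈ A) → ∀ a ∈ A, 0 < σ * a → c / |(a : ℝ)| ≤ d A) ∧
    (∀ a : ℤ, 0 < σ * a → ¬ (3 : ℤ) ∣ a → c / |(a : ℝ)| ≤ d (reach {a})) ∧
    (d W = 0 ↔ ∀ n ∈ W, ¬ 0 < σ * n) := by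
  classical
  obtain ⟨c₁, hc₁, hgrand⟩ := Pool.Agent.Collatz3.PD.grand_density
  obtain ⟨c₂, hc₂, hback⟩ := Pool.Agent.Collatz3.PD.back_density
  refine ⟨min c₁ c₂, lt_min hc₁ hc₂, fun σ hσ => ?_⟩
  -- the density function
  obtain ⟨d, hd⟩ : ∃ d : Set ℤ → ℝ, ∀ A : Set ℤ, ∀ C : ℕ, EvInv C A → Dens σ A (d A) := by
    have hex : ∀ A : Set ℤ, ∃ x : ℝ, ∀ C : ℕ, EvInv C A → Dens σ A x := by
      intro A
      by_cases h : ∃ C, EvInv C A
      · obtain ⟨C, hC⟩ := h
        obtain ⟨x, hx⟩ := exists_dens windowLowerB windowDens hσ hC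
        exact ⟨x, fun C' hC' => dens_of_evInv hσ hC' hx⟩
      · exact ⟨0, fun C hC => absurd ⟨C, hC⟩ h⟩
    choose d hd using hex
    exact ⟨d, hd⟩
  have hunique : ∀ A : Set ℤ, ∀ x y : ℝ, Dens σ A x → Dens σ A y → x = y := fun A x y h1 h2 =>
    tendsto_nhds_unique h1.tendsto h2.tendsto
  have hle : ∀ (x y : ℝ) (a : ℤ), x / |(a : ℝ)| ≤ y → ∀ z : ℝ, z ≤ x → z / |(a : ℝ)| ≤ y := by
    intro x y a h z hz
    exact (div_le_div_of_nonneg_right hz (abs_nonneg _)).trans h
  have hinv : ∀ A : Set ℤ, (∀ n, T n ∈ A ↔ n ∈ A) →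
      Dens σ A (d A) ∧ ∀ a ∈ A, 0 < σ * a → min c₁ c₂ / |(a : ℝ)| ≤ d A := by
    intro A hA
    have h1 := hd A 0 (evInv_of_inv hA)
    refine ⟨h1, fun a ha hpos => ?_⟩
    have ha0 : a ≠ 0 := by
      rintro rfl
      simp at hpos
    apply hle c₁ _ a _ _ (min_le_left _ _)
    refine dens_ge_of_count hσ h1 hpos (B := fun x => {n : ℤ | 0 < n * a ∧
      |(n : ℝ)| ≤ x * |(a : ℝ)| ∧ ∃ j k : ℕ, T^[j] n = T^[k] a ∧ (¬ (3 : ℤ) ∣ a → k = 0)})
      ?_ (fun x hx => hgrand a ha0 x hx)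
    rintro x n ⟨g1, g2, j, k, g3, -⟩
    refine ⟨g1, g2, ?_⟩
    rw [← iter_iff hA j n, g3, iter_iff hA k a]
    exact ha
  refine ⟨d, fun K A hA => hd A K hA, ?_, ?_, ?_, fun A hA => (hinv A hA).2, ?_, ?_⟩
  · -- neighbours
    intro K A hA F q r hq
    exact blk_step hA hσ hq r (hd A K hA q r hq) F
  · -- the density of all integers
    have h1 := (hinv Set.univ (fun n => by simp)).1
    exact tendsto_nhds_unique h1.tendsto D_univ
  · intro K A h1 hdis
    exact hasSum_dens windowLowerB windowDens hσ h1 hdis (fun i => (hd _ K (h1 i)).tendsto)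
      (hd _ K (EvInv.iUnion h1)).tendsto
  · intro a hpos h3
    have ha0 : a ≠ 0 := by
      rintro rfl
      simp at hpos
    have h1 : EvInv a.natAbs (reach {a}) := Reach.evInv (F := {a}) (by
      intro c hc
      rw [Set.mem_singleton_iff] at hc
      rw [hc, Int.abs_eq_natAbs])
    have h2 := hd _ _ h1
    apply hle c₂ _ a _ _ (min_le_right _ _)
    refine dens_ge_of_count hσ h2 hpos (B := fun x => Back a (x * |(a : ℝ)|))
      ?_ (fun x hx => hback a h3 x hx)
    rintro x n ⟨g1, g2, k, g3⟩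
    exact ⟨g1, g2, k, g3⟩
  · constructor
    · intro h0 n hn hpos
      have h1 := (hinv W reach_inv_W).2 n hn hpos
      rw [h0] at h1
      have h2 : 0 < |(n : ℝ)| := by
        rw [abs_pos]
        rintro h3
        have h4 : n = 0 := by exact_mod_cast h3
        rw [h4] at hpos
        simp at hpos
      have h3 : 0 < min c₁ c₂ / |(n : ℝ)| := div_pos (lt_min hc₁ hc₂) h2
      linarith
    · intro h0
      have h1 := (hinv W reach_inv_W).1
      apply hunique W _ _ h1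
      intro q r hq
      have h2 : ∀ x : ℝ, (Set.ncard {m : ℕ | (m : ℝ) ≤ x ∧ σ * (q * m + r) ∈ W} : ℝ) ≤ 1 := by
        intro x
        have hsub : {m : ℕ | (m : ℝ) ≤ x ∧ σ * (q * m + r) ∈ W} ⊆ {0} := by
          rintro m ⟨-, hm⟩
          by_contra hne
          have hm0 : 0 < m := Nat.pos_of_ne_zero hne
          apply h0 _ hm
          have hσσ : σ * σ = 1 := by
            have := abs_mul_abs_self σ
            rw [hσ] at this
            linarith
          rw [← mul_assoc, hσσ, one_mul]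
          positivity
        have := Set.ncard_le_ncard hsub (Set.finite_singleton 0)
        rw [Set.ncard_singleton] at this
        exact_mod_cast this
      refine squeeze_zero' ?_ ?_ (tendsto_inv_atTop_zero (𝕜 := ℝ))
      · filter_upwards [eventually_gt_atTop 0] with x hx
        positivity
      · filter_upwards [eventually_gt_atTop 0] with x hx
        rw [← one_div]
        exact div_le_div_of_nonneg_right (h2 x) hx.le

end Pool.Agent.Collatz3.ND
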