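import Mathlib

set_option autoImplicit false

/-!
Abstract block systems over the inverse 3x+1 tree and stationary means on periodic functions.
-/

open Finset

namespace Pool.Agent.Collatz3

/-- integers prime to 3 -/
abbrev U : Type := {a : ℤ // ¬ (3 : ℤ) ∣ a}

/-- A block system: symbols `w` with exponents `S w`, constants `c w`, all of 3-adic depth `D`,
transition probabilities `κ w a` depending on `a` modulo `3 ^ (D + 1)`. -/
structure Sys where
  A : Type
  ft : Fintype A
  dec : DecidableEq A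
  D : ℕ
  hD : 1 ≤ D
  S : A → ℕ
  c : A → ℕ
  κ : A → U → ℝ
  nxt : A → U → U
  κ0 : ∀ w a, 0 ≤ κ w a
  κ1 : ∀ a, ∑ w, κ w a = 1
  rel : ∀ w a, κ w a ≠ 0 → 2 ^ S w * (a : ℤ) = 3 ^ D * (nxt w a : ℤ) + c w
  per : ∀ w (a a' : U), (3 : ℤ) ^ (D + 1) ∣ (a : ℤ) - a' → κ w a = κ w a'

attribute [instance] Sys.ft Sys.dec

namespace Sys

variable (y : Sys)

def totS : List y.A → ℕ
  | [] => 0
  | w :: l => y.S w + totS l

def totC : List y.A → ℕ
  | [] => 0
  | w :: l => 3 ^ y.D * totC l + 2 ^ y.totS l * y.c w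

def K : List y.A → U → ℝ
  | [], _ => 1
  | w :: l, a => y.κ w a * K l (y.nxt w a)

def fin : List y.A → U → U
  | [], a => a
  | w :: l, a => fin l (y.nxt w a)

@[simp] theorem totS_nil : y.totS [] = 0 := rfl
@[simp] theorem totS_cons (w : y.A) (l : List y.A) : y.totS (w :: l) = y.S w + y.totS l := rfl
@[simp] theorem totC_nil : y.totC [] = 0 := rfl
@[simp] theorem totC_cons (w : y.A) (l : List y.A) :
    y.totC (w :: l) = 3 ^ y.D * y.totC l + 2 ^ y.totS l * y.c w := rfl
@[simp] theorem K_nil (a : U) : y.K [] a = 1 := rfl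
@[simp] theorem K_cons (w : y.A) (l : List y.A) (a : U) :
    y.K (w :: l) a = y.κ w a * y.K l (y.nxt w a) := rfl
@[simp] theorem fin_nil (a : U) : y.fin [] a = a := rfl
@[simp] theorem fin_cons (w : y.A) (l : List y.A) (a : U) :
    y.fin (w :: l) a = y.fin l (y.nxt w a) := rfl

theorem K_nonneg (l : List y.A) (a : U) : 0 ≤ y.K l a := by
  induction l generalizing a with
  | nil => simp
  | cons w l ih => exact mul_nonneg (y.κ0 w a) (ih _)

theorem totS_append (l m : List y.A) : y.totS (l ++ m) = y.totS l + y.totS m := by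
  induction l with
  | nil => simp
  | cons w l ih => simp only [List.cons_append, totS_cons, ih]; ring

theorem totC_append (l m : List y.A) :
    y.totC (l ++ m) = 3 ^ (y.D * l.length) * y.totC m + 2 ^ y.totS m * y.totC l := by
  induction l with
  | nil => simp
  | cons w l ih =>
    simp only [List.cons_append, totC_cons, ih, totS_append, List.length_cons]
    ring

theorem K_append (l m : List y.A) (a : U) : y.K (l ++ m) a = y.K l a * y.K m (y.fin l a) := by
  induction l generalizing a with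
  | nil => simp
  | cons w l ih => simp only [List.cons_append, K_cons, fin_cons, ih]; ring

theorem fin_append (l m : List y.A) (a : U) : y.fin (l ++ m) a = y.fin m (y.fin l a) := by
  induction l generalizing a with
  | nil => simp
  | cons w l ih => simp only [List.cons_append, fin_cons, ih]

theorem rel_list (l : List y.A) (a : U) (h : y.K l a ≠ 0) :
    2 ^ y.totS l * (a : ℤ) = 3 ^ (y.D * l.length) * (y.fin l a : ℤ) + y.totC l := by
  induction l generalizing a with
  | nil => simp
  | cons w l ih =>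
    rw [K_cons] at h
    have h1 := y.rel w a (left_ne_zero_of_mul h)
    have h2 := ih (y.nxt w a) (right_ne_zero_of_mul h)
    simp only [totS_cons, totC_cons, fin_cons, List.length_cons]
    push_cast
    rw [pow_add, mul_assoc, mul_left_comm, h1, mul_add, mul_left_comm, h2]
    ring

theorem dvd_pow_two_mul {m : ℕ} {x : ℤ} {s : ℕ} (h : (3 : ℤ) ^ m ∣ 2 ^ s * x) :
    (3 : ℤ) ^ m ∣ x := by
  have : IsCoprime ((3 : ℤ) ^ m) (2 ^ s) := by
    apply IsCoprime.pow
    exact ⟨1, -1, by norm_num⟩
  exact this.dvd_of_dvd_mul_left h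

/-- periodicity of the kernel of words, together with the end points -/
theorem per_list (l : List y.A) (r : ℕ) (hr : 1 ≤ r) (a a' : U)
    (h : (3 : ℤ) ^ (y.D * l.length + r) ∣ (a : ℤ) - a') :
    y.K l a = y.K l a' ∧ (y.K l a ≠ 0 → (3 : ℤ) ^ r ∣ (y.fin l a : ℤ) - y.fin l a') := by
  induction l generalizing a a' with
  | nil => simpa using h
  | cons w l ih =>
    have hD := y.hD
    have h1 : y.κ w a = y.κ w a' := by
      refine y.per w a a' (dvd_trans (pow_dvd_pow 3 ?_) h)
      rw [List.length_cons]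
      nlinarith
    rw [K_cons, K_cons, fin_cons, fin_cons, ← h1]
    by_cases h0 : y.κ w a = 0
    · rw [h0]; simp
    have e1 := y.rel w a h0
    have e2 := y.rel w a' (h1 ▸ h0)
    have e3 : (3 : ℤ) ^ (y.D * l.length + r) ∣ (y.nxt w a : ℤ) - y.nxt w a' := by
      have : (3 : ℤ) ^ y.D * ((y.nxt w a : ℤ) - y.nxt w a') = 2 ^ y.S w * ((a : ℤ) - a') := by
        rw [mul_sub, mul_sub, e1, e2]; ring
      have h3 : (3 : ℤ) ^ (y.D * (w :: l).length + r) ∣
          (3 : ℤ) ^ y.D * ((y.nxt w a : ℤ) - y.nxt w a') := by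
        rw [this]; exact Dvd.dvd.mul_left h _
      have e4 : y.D * (w :: l).length + r = y.D + (y.D * l.length + r) := by
        rw [List.length_cons]; ring
      rw [e4, pow_add] at h3
      exact (mul_dvd_mul_iff_left (pow_ne_zero _ (by norm_num))).1 h3
    obtain ⟨i1, i2⟩ := ih _ _ e3
    refine ⟨by rw [i1], fun hne => i2 (right_ne_zero_of_mul hne)⟩

/-- the words of length `k` -/
def words : ℕ → Finset (List y.A)
  | 0 => {[]}
  | k + 1 => (univ ×ˢ words k).image fun q => q.1 :: q.2

theorem mem_words {k : ℕ} {l : List y.A} : l ∈ y.words k ↔ l.length = k := by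
  induction k generalizing l with
  | zero => simp [words, List.length_eq_zero_iff]
  | succ k ih =>
    simp only [words, mem_image, mem_product, mem_univ, true_and, Prod.exists]
    constructor
    · rintro ⟨w, m, h, rfl⟩
      simp [ih.1 h]
    · intro h
      match l, h with
      | w :: m, h => exact ⟨w, m, ih.2 (by simpa using h), rfl⟩

theorem sum_words_succ {R : Type*} [AddCommMonoid R] (k : ℕ) (f : List y.A → R) :
    ∑ l ∈ y.words (k + 1), f l = ∑ w, ∑ l ∈ y.words k, f (w :: l) := by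
  rw [words, sum_image, sum_product]
  rintro ⟨a, l⟩ _ ⟨a', l'⟩ _ h
  simpa using h

theorem sum_words_zero {R : Type*} [AddCommMonoid R] (f : List y.A → R) :
    ∑ l ∈ y.words 0, f l = f [] := by
  simp [words]

theorem sum_words_add {R : Type*} [AddCommMonoid R] (k n : ℕ) (f : List y.A → R) :
    ∑ l ∈ y.words (k + n), f l = ∑ l ∈ y.words k, ∑ m ∈ y.words n, f (l ++ m) := by
  induction k generalizing f with
  | zero => rw [sum_words_zero, Nat.zero_add]; rfl
  | succ k ih =>
    rw [show k + 1 + n = (k + n) + 1 by ring, sum_words_succ, sum_words_succ]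
    refine sum_congr rfl fun w _ => ?_
    rw [ih]
    rfl

theorem sum_K (k : ℕ) (a : U) : ∑ l ∈ y.words k, y.K l a = 1 := by
  induction k generalizing a with
  | zero => rw [sum_words_zero]; rfl
  | succ k ih =>
    rw [sum_words_succ]
    simp_rw [K_cons, ← mul_sum, ih, mul_one]
    exact y.κ1 a

/-- the transition operator -/
noncomputable def P (g : U → ℝ) (a : U) : ℝ := ∑ w, y.κ w a * g (y.nxt w a)

/-- iterated transition operator -/
noncomputable def Pit (k : ℕ) (g : U → ℝ) (a : U) : ℝ := ∑ l ∈ y.words k, y.K l a * g (y.fin l a)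

theorem Pit_zero (g : U → ℝ) : y.Pit 0 g = g := by
  funext a
  rw [Pit, sum_words_zero]; simp

theorem Pit_succ (k : ℕ) (g : U → ℝ) : y.Pit (k + 1) g = y.P (y.Pit k g) := by
  funext a
  rw [Pit, sum_words_succ, P]
  refine sum_congr rfl fun w _ => ?_
  rw [Pit, mul_sum]
  refine sum_congr rfl fun l _ => ?_
  simp only [K_cons, fin_cons]
  ring

end Sys

/-- periodic functions on the integers prime to 3 (period a power of 3) -/
def IsPer (g : U → ℝ) : Prop := ∃ M : ℕ, ∀ a a' : U, (3 : ℤ) ^ M ∣ (a : ℤ) - a' → g a = g a'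

theorem IsPer.const (r : ℝ) : IsPer fun _ => r := ⟨0, fun _ _ _ => rfl⟩

theorem IsPer.map₂ {f g : U → ℝ} (hf : IsPer f) (hg : IsPer g) (F : ℝ → ℝ → ℝ) :
    IsPer fun a => F (f a) (g a) := by
  obtain ⟨M, hM⟩ := hf
  obtain ⟨N, hN⟩ := hg
  refine ⟨max M N, fun a a' h => ?_⟩
  dsimp only
  rw [hM a a' (dvd_trans (pow_dvd_pow 3 (le_max_left _ _)) h),
    hN a a' (dvd_trans (pow_dvd_pow 3 (le_max_right _ _)) h)]

theorem IsPer.add {f g : U → ℝ} (hf : IsPer f) (hg : IsPer g) : IsPer fun a => f a + g a :=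
  hf.map₂ hg fun x y => x + y

theorem IsPer.mul {f g : U → ℝ} (hf : IsPer f) (hg : IsPer g) : IsPer fun a => f a * g a :=
  hf.map₂ hg fun x y => x * y

theorem IsPer.smul {f : U → ℝ} (hf : IsPer f) (r : ℝ) : IsPer fun a => r * f a :=
  (IsPer.const r).mul hf

theorem IsPer.sum {ι : Type*} (s : Finset ι) {f : ι → U → ℝ} (hf : ∀ i ∈ s, IsPer (f i)) :
    IsPer fun a => ∑ i ∈ s, f i a := by
  classical
  induction s using Finset.induction_on with
  | empty => simpa using IsPer.const 0
  | insert i s hi ih =>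
    simp_rw [sum_insert hi]
    exact (hf i (mem_insert_self i s)).add (ih fun j hj => hf j (mem_insert_of_mem hj))

theorem IsPer.K {y : Sys} (l : List y.A) : IsPer (y.K l) :=
  ⟨y.D * l.length + 1, fun a a' h => (y.per_list l 1 le_rfl a a' h).1⟩

theorem IsPer.K_fin {y : Sys} (l : List y.A) {g : U → ℝ} (hg : IsPer g) :
    IsPer fun a => y.K l a * g (y.fin l a) := by
  obtain ⟨M, hM⟩ := hg
  refine ⟨y.D * l.length + (M + 1), fun a a' h => ?_⟩
  dsimp only
  obtain ⟨h1, h2⟩ := y.per_list l (M + 1) (by omega) a a' h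
  by_cases h0 : y.K l a = 0
  · rw [← h1, h0, zero_mul, zero_mul]
  · rw [← h1, hM _ _ (dvd_trans (pow_dvd_pow 3 (by omega)) (h2 h0))]

theorem IsPer.Pit {y : Sys} (k : ℕ) {g : U → ℝ} (hg : IsPer g) : IsPer (y.Pit k g) :=
  IsPer.sum _ fun l _ => IsPer.K_fin l hg

theorem IsPer.P {y : Sys} {g : U → ℝ} (hg : IsPer g) : IsPer (y.P g) := by
  have : y.P g = y.Pit 1 g := by rw [y.Pit_succ, y.Pit_zero]
  rw [this]
  exact hg.Pit 1

/-- A (not necessarily normalised) positive mean on the periodic functions. -/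
structure PMean where
  E : (U → ℝ) → ℝ
  add : ∀ f g, IsPer f → IsPer g → E (fun a => f a + g a) = E f + E g
  smul : ∀ (r : ℝ) f, IsPer f → E (fun a => r * f a) = r * E f
  nonneg : ∀ f, IsPer f → (∀ a, 0 ≤ f a) → 0 ≤ E f

namespace PMean

variable (m : PMean)

theorem zero : m.E (fun _ => 0) = 0 := by
  have := m.smul 0 (fun _ => 0) (IsPer.const 0)
  simpa using this

theorem sum {ι : Type*} (s : Finset ι) {f : ι → U → ℝ} (hf : ∀ i ∈ s, IsPer (f i)) :
    m.E (fun a => ∑ i ∈ s, f i a) = ∑ i ∈ s, m.E (f i) := by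
  classical
  induction s using Finset.induction_on with
  | empty => simpa using m.zero
  | insert i s hi ih =>
    simp_rw [sum_insert hi]
    rw [m.add _ _ (hf i (mem_insert_self i s)) (IsPer.sum s fun j hj => hf j (mem_insert_of_mem hj)),
      ih fun j hj => hf j (mem_insert_of_mem hj)]

theorem mono {f g : U → ℝ} (hf : IsPer f) (hg : IsPer g) (h : ∀ a, f a ≤ g a) : m.E f ≤ m.E g := by
  have h1 := m.nonneg (fun a => g a + (-1) * f a) (hg.add (hf.smul (-1))) fun a => by
    have := h a; linarith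
  rw [m.add _ _ hg (hf.smul (-1)), m.smul _ _ hf] at h1
  linarith

end PMean

/-- stationary means of a system -/
def Stat (y : Sys) (m : PMean) : Prop := ∀ g, IsPer g → m.E (y.P g) = m.E g

section
variable {y : Sys} {m : PMean} (hst : Stat y m)
include hst

theorem Stat.Pit (k : ℕ) {g : U → ℝ} (hg : IsPer g) : m.E (y.Pit k g) = m.E g := by
  induction k with
  | zero => rw [y.Pit_zero]
  | succ k ih => rw [y.Pit_succ, hst _ (hg.Pit k), ih]

end

/-- law of the end point along the word `l` -/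
noncomputable def PMean.L (m : PMean) (y : Sys) (l : List y.A) (g : U → ℝ) : ℝ :=
  m.E fun a => y.K l a * g (y.fin l a)

theorem Stat.L_append {y : Sys} {m : PMean} (hst : Stat y m) (k : ℕ) (l : List y.A) {g : U → ℝ}
    (hg : IsPer g) : ∑ w ∈ y.words k, m.L y (w ++ l) g = m.L y l g := by
  unfold PMean.L
  rw [← m.sum _ fun w _ => IsPer.K_fin (w ++ l) hg]
  rw [← hst.Pit k (IsPer.K_fin l hg)]
  congr 1
  funext a
  rw [Sys.Pit]
  refine sum_congr rfl fun w _ => ?_
  rw [y.K_append, y.fin_append]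
  ring

theorem PMean.L_append_right (m : PMean) (y : Sys) (k : ℕ) (l : List y.A) :
    ∑ u ∈ y.words k, m.L y (l ++ u) (fun _ => 1) = m.L y l (fun _ => 1) := by
  unfold PMean.L
  rw [← m.sum _ fun w _ => IsPer.K_fin (l ++ w) (IsPer.const 1)]
  congr 1
  funext a
  simp_rw [y.K_append, mul_one, ← mul_sum, y.sum_K, mul_one]

theorem PMean.L_nonneg (m : PMean) (y : Sys) (l : List y.A) {g : U → ℝ} (hg : IsPer g)
    (h : ∀ a, 0 ≤ g a) : 0 ≤ m.L y l g :=
  m.nonneg _ (IsPer.K_fin l hg) fun a => mul_nonneg (y.K_nonneg l a) (h _)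

end Pool.Agent.Collatz3
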