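import Pool.Agent.Collatz3.Ent
import Pool.Agent.Collatz3.Sys

set_option autoImplicit false

/-!
Entropy part of the rigidity theorem: the next digits of the constants of past words are not
determined by the future.
-/

open Finset

namespace Pool.Agent.Collatz3

variable (y : Sys) (m : PMean)

/-- probability of a word -/
noncomputable def pr (l : List y.A) : ℝ := m.L y l fun _ => 1

/-- indicator of a residue class -/
noncomputable def ind (r : ℕ) (x : ℤ) (a : U) : ℝ := by
  classical exact if (3 : ℤ) ^ r ∣ (a : ℤ) - x then 1 else 0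

theorem IsPer.ind (r : ℕ) (x : ℤ) : IsPer (ind r x) := by
  refine ⟨r, fun a a' h => ?_⟩
  unfold Collatz3.ind
  have : (3 : ℤ) ^ r ∣ (a : ℤ) - x ↔ (3 : ℤ) ^ r ∣ (a' : ℤ) - x := by
    have e : (a : ℤ) - x = ((a : ℤ) - a') + (a' - x) := by ring
    rw [e]
    exact dvd_add_right h
  simp only [this]

theorem ind_nonneg (r : ℕ) (x : ℤ) (a : U) : 0 ≤ ind r x a := by
  unfold ind; split_ifs <;> norm_num

variable {y m}

theorem pr_nonneg (l : List y.A) : 0 ≤ pr y m l :=
  m.L_nonneg y l (IsPer.const 1) fun _ => zero_le_one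

theorem pr_append_right (k : ℕ) (l : List y.A) :
    ∑ u ∈ y.words k, pr y m (l ++ u) = pr y m l := m.L_append_right y k l

theorem pr_append_left (hst : Stat y m) (k : ℕ) (l : List y.A) :
    ∑ u ∈ y.words k, pr y m (u ++ l) = pr y m l := hst.L_append k l (IsPer.const 1)

theorem pr_nil : pr y m [] = m.E fun _ => 1 := by
  unfold pr PMean.L
  simp

theorem sum_pr (k : ℕ) : ∑ u ∈ y.words k, pr y m u = m.E fun _ => 1 := by
  have := pr_append_right (y := y) (m := m) k []
  simpa [pr_nil] using this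

theorem take_mem {k n : ℕ} {l : List y.A} (h : l ∈ y.words (k + n)) : l.take k ∈ y.words k := by
  rw [y.mem_words] at h ⊢
  rw [List.length_take]; omega

theorem drop_mem {k n : ℕ} {l : List y.A} (h : l ∈ y.words (k + n)) : l.drop k ∈ y.words n := by
  rw [y.mem_words] at h ⊢
  rw [List.length_drop]; omega

section
open scoped Classical

theorem map_take (k n : ℕ) : ∀ l' ∈ y.words k,
    ∑ l ∈ y.words (k + n) with l.take k = l', pr y m l = pr y m l' := by
  intro l' hl'
  rw [sum_filter, y.sum_words_add]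
  rw [sum_eq_single l']
  · rw [← pr_append_right n l']
    refine sum_congr rfl fun u _ => ?_
    rw [y.mem_words] at hl'
    rw [if_pos]
    rw [← hl', List.take_left]
  · intro w hw hne
    refine sum_eq_zero fun u _ => ?_
    rw [y.mem_words] at hw
    rw [if_neg]
    rw [← hw, List.take_left]
    exact hne
  · intro h; exact absurd hl' h

theorem map_drop (hst : Stat y m) (k n : ℕ) : ∀ l' ∈ y.words n,
    ∑ l ∈ y.words (k + n) with l.drop k = l', pr y m l = pr y m l' := by
  intro l' hl'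
  rw [sum_filter, y.sum_words_add, sum_comm, sum_eq_single l']
  · rw [← pr_append_left hst k l']
    refine sum_congr rfl fun u hu => ?_
    rw [y.mem_words] at hu
    rw [if_pos]
    rw [← hu, List.drop_left]
  · intro u _ hne
    refine sum_eq_zero fun w hw => ?_
    rw [y.mem_words] at hw
    rw [if_neg]
    rw [← hw, List.drop_left]
    exact hne
  · intro h; exact absurd hl' h

end

variable (y m)

/-- entropy of words of length `k` -/
noncomputable def Hk (k : ℕ) : ℝ := cH (y.words k) (pr y m) (fun l => l) fun _ => ()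

/-- the constants of the first `k` symbols modulo `3 ^ r` -/
def cV (k r : ℕ) (l : List y.A) : ℕ := y.totC (l.take k) % 3 ^ r

def sV (k : ℕ) (l : List y.A) : ℕ := y.totS (l.take k)

/-- the context at level `j` -/
def ctx (k j : ℕ) (l : List y.A) : ℕ × ℕ × List y.A :=
  (cV y k (y.D * (k + j) + 1) l, sV y k l, l.drop k)

/-- probability that the next window of digits is not determined -/
noncomputable def pk (k i : ℕ) : ℝ :=
  pdiff (y.words (k + i)) (pr y m) (cV y k (y.D * (k + i + 1) + 1)) (ctx y k i)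

variable {y m}

theorem entropy_drop (hst : Stat y m) (k n : ℕ) :
    cH (y.words (k + n)) (pr y m) (fun l => l.take k) (fun l => l.drop k) =
      Hk y m (k + n) - Hk y m n := by
  have h1 : Hk y m (k + n) = cH (y.words (k + n)) (pr y m)
      (fun l => (l.drop k, l.take k)) fun _ => () := by
    refine cH_congr _ _ _ _ (fun _ _ _ _ _ _ => Iff.rfl) fun l _ _ l' _ _ => ?_
    simp only [Prod.ext_iff, and_true]
    constructor
    · rintro rfl; exact ⟨rfl, rfl⟩
    · rintro ⟨h1, h2⟩
      rw [← List.take_append_drop k l, ← List.take_append_drop k l', h1, h2]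
  have h2 : cH (y.words (k + n)) (pr y m) (fun l => l.drop k) (fun _ => ()) = Hk y m n :=
    cH_map (fun l : List y.A => l.drop k) (fun l hl => drop_mem hl) (by
      convert map_drop hst k n) (fun l => l) fun _ => ()
  have h3 : cH (y.words (k + n)) (pr y m) (fun l => l.take k)
      (fun l => (l.drop k, ())) =
      cH (y.words (k + n)) (pr y m) (fun l => l.take k) (fun l => l.drop k) := by
    refine cH_congr _ _ _ _ (fun l _ _ l' _ _ => ?_) fun l _ _ l' _ _ => ?_
    · simp
    · simp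
  rw [h1, cH_chain, h2, h3]
  ring

/-- bound for the total exponent -/
theorem totS_le {Sm : ℕ} (hS : ∀ w, y.S w ≤ Sm) (l : List y.A) : y.totS l ≤ Sm * l.length := by
  induction l with
  | nil => simp
  | cons w l ih =>
    rw [y.totS_cons, List.length_cons, mul_add, mul_one]
    have := hS w
    omega

theorem cH_sV_le {Sm : ℕ} (hS : ∀ w, y.S w ≤ Sm) (h1 : m.E (fun _ => 1) = 1) (k n : ℕ)
    {β : Type*} (Y : List y.A → β) :
    cH (y.words (k + n)) (pr y m) (sV y k) Y ≤ Real.log (Sm * k + 1) := by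
  have := cH_le_log' (s := y.words (k + n)) (p := pr y m) (fun l _ => pr_nonneg l) (sV y k) Y
    (range (Sm * k + 1)) (Sm * k + 1) (by omega) (fun l hl => by
      rw [mem_range]
      have h2 := totS_le hS (l.take k)
      have h3 := take_mem hl
      rw [y.mem_words] at h3
      rw [h3] at h2
      unfold sV; omega) (by simp)
  rw [sum_pr, h1, one_mul] at this
  simpa using this

/-- one level step -/
theorem level_step (h1 : m.E (fun _ => 1) = 1) (k n j : ℕ) (hj : j ≤ n) :
    cH (y.words (k + n)) (pr y m) (cV y k (y.D * (k + j + 1) + 1)) (ctx y k j) ≤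
      2 * (Real.sqrt (3 ^ y.D) * Real.sqrt (pk y m k j)) := by
  obtain ⟨r, rfl⟩ := Nat.exists_eq_add_of_le hj
  have hp : ∀ l ∈ y.words (k + (j + r)), 0 ≤ pr y m l := fun l _ => pr_nonneg l
  have a1 : cH (y.words (k + (j + r))) (pr y m) (cV y k (y.D * (k + j + 1) + 1)) (ctx y k j) ≤
      cH (y.words (k + (j + r))) (pr y m) (cV y k (y.D * (k + j + 1) + 1))
        (fun l => ctx y k j (l.take (k + j))) := by
    refine cH_anti hp _ _ _ fun l _ _ l' _ _ h => ?_
    simp only [ctx, Prod.ext_iff] at h ⊢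
    obtain ⟨i1, i2, i3⟩ := h
    have e : ∀ l : List y.A, (l.take (k + j)).take k = l.take k := fun l => by
      rw [List.take_take]; congr 1; omega
    refine ⟨?_, ?_, ?_⟩
    · simpa [cV, e] using i1
    · simpa [sV, e] using i2
    · rw [List.drop_take, List.drop_take, i3]
  have a2 : cH (y.words (k + (j + r))) (pr y m) (cV y k (y.D * (k + j + 1) + 1))
        (fun l => ctx y k j (l.take (k + j))) =
      cH (y.words (k + (j + r))) (pr y m)
        (fun l => cV y k (y.D * (k + j + 1) + 1) (l.take (k + j)))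
        (fun l => ctx y k j (l.take (k + j))) := by
    congr 1
    funext l
    unfold cV
    rw [List.take_take, min_eq_left (by omega)]
  have a3 : cH (y.words (k + (j + r))) (pr y m)
        (fun l => cV y k (y.D * (k + j + 1) + 1) (l.take (k + j)))
        (fun l => ctx y k j (l.take (k + j))) =
      cH (y.words (k + j)) (pr y m) (cV y k (y.D * (k + j + 1) + 1)) (ctx y k j) := by
    rw [← add_assoc]
    exact cH_map (fun l : List y.A => l.take (k + j)) (fun l hl => take_mem hl) (by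
      convert map_take (y := y) (m := m) (k + j) r) (cV y k (y.D * (k + j + 1) + 1)) (ctx y k j)
  refine a1.trans ?_
  rw [a2, a3]
  have a4 := cH_le_pdiff (s := y.words (k + j)) (p := pr y m) (fun l _ => pr_nonneg l)
    (cV y k (y.D * (k + j + 1) + 1)) (ctx y k j) (3 ^ y.D) ?_
  · rw [sum_pr, h1, mul_one] at a4
    unfold pk
    push_cast at a4
    exact a4
  · intro t
    -- values of `c mod 3^(D(k+j+1)+1)` given `c mod 3^(D(k+j)+1)`
    have e : y.D * (k + j + 1) + 1 = (y.D * (k + j) + 1) + y.D := by ring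
    rw [e]
    refine ⟨(range (3 ^ y.D)).image fun u => t.1 + 3 ^ (y.D * (k + j) + 1) * u,
      card_image_le.trans (by simp), fun l hl h => ?_⟩
    rw [mem_image]
    refine ⟨y.totC (l.take k) / 3 ^ (y.D * (k + j) + 1) % 3 ^ y.D, ?_, ?_⟩
    · rw [mem_range]; exact Nat.mod_lt _ (by positivity)
    · rw [← h]
      simp only [ctx, cV]
      rw [pow_add 3 (y.D * (k + j) + 1) y.D, Nat.mod_mul]

/-- descending through the levels -/
theorem level_sum (h1 : m.E (fun _ => 1) = 1) (k n n₀ : ℕ) (hn : n₀ ≤ n) :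
    cH (y.words (k + n)) (pr y m) (fun l => l.take k) (ctx y k n₀) ≤
      (∑ j ∈ Ico n₀ n, 2 * (Real.sqrt (3 ^ y.D) * Real.sqrt (pk y m k j))) +
      cH (y.words (k + n)) (pr y m) (fun l => l.take k) (ctx y k n) := by
  have key : ∀ r, n₀ + r ≤ n →
      cH (y.words (k + n)) (pr y m) (fun l => l.take k) (ctx y k n₀) ≤
      (∑ j ∈ Ico n₀ (n₀ + r), 2 * (Real.sqrt (3 ^ y.D) * Real.sqrt (pk y m k j))) +
      cH (y.words (k + n)) (pr y m) (fun l => l.take k) (ctx y k (n₀ + r)) := by
    intro r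
    induction r with
    | zero => intro _; simp
    | succ r ih =>
      intro hr
      refine (ih (by omega)).trans ?_
      rw [← add_assoc, sum_Ico_succ_top (by omega), add_assoc]
      refine add_le_add_right ?_ _
      have hp : ∀ l ∈ y.words (k + n), 0 ≤ pr y m l := fun l _ => pr_nonneg l
      refine (cH_triangle hp (cV y k (y.D * (k + (n₀ + r) + 1) + 1)) _ _).trans ?_
      refine add_le_add (level_step h1 k n (n₀ + r) (by omega)) ?_
      refine cH_anti hp _ _ _ fun l _ _ l' _ _ h => ?_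
      simp only [ctx, Prod.ext_iff] at h ⊢
      rw [show k + (n₀ + r + 1) = k + (n₀ + r) + 1 by ring]
      exact ⟨h.1, h.2.2.1, h.2.2.2⟩
  have := key (n - n₀) (by omega)
  rwa [show n₀ + (n - n₀) = n by omega] at this

theorem sum_ind (r : ℕ) (a : U) : ∑ x ∈ range (3 ^ r), ind r (x : ℤ) a = 1 := by
  have hpos : (0 : ℤ) < 3 ^ r := by positivity
  have h0 : 0 ≤ (a : ℤ) % 3 ^ r := Int.emod_nonneg _ hpos.ne'
  have h1 : (a : ℤ) % 3 ^ r < 3 ^ r := Int.emod_lt_of_pos _ hpos
  rw [sum_eq_single ((a : ℤ) % 3 ^ r).toNat]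
  · unfold ind
    rw [if_pos]
    rw [Int.toNat_of_nonneg h0]
    exact Int.dvd_self_sub_emod
  · intro x hx hne
    unfold ind
    rw [if_neg]
    intro hd
    apply hne
    rw [mem_range] at hx
    have h2 : (x : ℤ) % 3 ^ r = (a : ℤ) % 3 ^ r := (Int.emod_eq_emod_iff_emod_sub_eq_zero.2
      (Int.emod_eq_zero_of_dvd hd)).symm
    have h3 : (x : ℤ) % 3 ^ r = x := Int.emod_eq_of_lt (by positivity) (by exact_mod_cast hx)
    rw [← h2, h3, Int.toNat_natCast]
  · intro h
    exfalso
    apply h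
    rw [mem_range]
    zify
    rw [Int.toNat_of_nonneg h0]
    exact h1

/-- joint weights of a word and the residue of its base point -/
noncomputable def p2 (y : Sys) (m : PMean) (k : ℕ) (t : List y.A × ℕ) : ℝ :=
  m.E fun a => y.K t.1 a * ind (y.D * k + 1) (t.2 : ℤ) a

theorem p2_nonneg (k : ℕ) (t : List y.A × ℕ) : 0 ≤ p2 y m k t :=
  m.nonneg _ ((IsPer.K _).mul (IsPer.ind _ _)) fun a =>
    mul_nonneg (y.K_nonneg _ a) (ind_nonneg _ _ a)

theorem sum_p2_snd (k : ℕ) (l : List y.A) :
    ∑ x ∈ range (3 ^ (y.D * k + 1)), p2 y m k (l, x) = pr y m l := by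
  unfold p2
  rw [← m.sum _ fun x _ => (IsPer.K _).mul (IsPer.ind _ _)]
  unfold pr PMean.L
  congr 1
  funext a
  dsimp only
  rw [← mul_sum, sum_ind]

theorem sum_p2_fst (k : ℕ) (x : ℕ) :
    ∑ l ∈ y.words k, p2 y m k (l, x) = m.E (ind (y.D * k + 1) (x : ℤ)) := by
  unfold p2
  rw [← m.sum _ fun x _ => (IsPer.K _).mul (IsPer.ind _ _)]
  congr 1
  funext a
  dsimp only
  rw [← sum_mul, y.sum_K, one_mul]

theorem K_le (hhalf : ∀ w a, y.κ w a ≤ 1 / 2) (l : List y.A) (a : U) :
    y.K l a ≤ (1 / 2) ^ l.length := by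
  induction l generalizing a with
  | nil => simp
  | cons w l ih =>
    rw [y.K_cons, List.length_cons, pow_succ, mul_comm]
    exact mul_le_mul (ih _) (hhalf w a) (y.κ0 w a) (by positivity)

theorem p2_le (hhalf : ∀ w a, y.κ w a ≤ 1 / 2) {k : ℕ} {l : List y.A} (hl : l ∈ y.words k)
    (x : ℕ) : p2 y m k (l, x) ≤ (1 / 2) ^ k * m.E (ind (y.D * k + 1) (x : ℤ)) := by
  rw [y.mem_words] at hl
  by_cases h : ∃ a₀ : U, (3 : ℤ) ^ (y.D * k + 1) ∣ (a₀ : ℤ) - x
  · obtain ⟨a₀, h0⟩ := h
    have e : p2 y m k (l, x) = y.K l a₀ * m.E (ind (y.D * k + 1) (x : ℤ)) := by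
      unfold p2
      rw [← m.smul _ _ (IsPer.ind _ _)]
      congr 1
      funext a
      by_cases ha : (3 : ℤ) ^ (y.D * k + 1) ∣ (a : ℤ) - x
      · have : (3 : ℤ) ^ (y.D * l.length + 1) ∣ (a : ℤ) - a₀ := by
          rw [hl]
          have e : (a : ℤ) - a₀ = ((a : ℤ) - x) - (a₀ - x) := by ring
          rw [e]
          exact dvd_sub ha h0
        rw [(y.per_list l 1 le_rfl a a₀ this).1]
      · unfold ind
        rw [if_neg ha, mul_zero, mul_zero]
    rw [e]
    refine mul_le_mul_of_nonneg_right ?_ (m.nonneg _ (IsPer.ind _ _) (ind_nonneg _ _))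
    rw [← hl]
    exact K_le hhalf l a₀
  · have e : ∀ a : U, ind (y.D * k + 1) (x : ℤ) a = 0 := by
      intro a
      unfold ind
      rw [if_neg fun ha => h ⟨a, ha⟩]
    have e1 : p2 y m k (l, x) = 0 := by
      unfold p2
      simp only [e, mul_zero]
      exact m.zero
    rw [e1]
    exact mul_nonneg (by positivity) (m.nonneg _ (IsPer.ind _ _) (ind_nonneg _ _))

theorem entropy_fst (hhalf : ∀ w a, y.κ w a ≤ 1 / 2) (h1 : m.E (fun _ => 1) = 1) (k : ℕ) :
    (k : ℝ) * Real.log 2 ≤ cH (y.words k ×ˢ range (3 ^ (y.D * k + 1))) (p2 y m k)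
      (fun t => t.1) (fun t => t.2) := by
  have tot : ∑ t ∈ y.words k ×ˢ range (3 ^ (y.D * k + 1)), p2 y m k t = 1 := by
    rw [sum_product]
    simp_rw [sum_p2_snd]
    rw [sum_pr, h1]
  have e1 : (k : ℝ) * Real.log 2 = ∑ t ∈ y.words k ×ˢ range (3 ^ (y.D * k + 1)),
      p2 y m k t * (k * Real.log 2) := by
    rw [← sum_mul, tot, one_mul]
  rw [e1]
  unfold cH
  refine sum_le_sum fun t ht => ?_
  rcases (p2_nonneg (y := y) (m := m) k t).eq_or_lt with h | h
  · rw [← h]; simp
  refine mul_le_mul_of_nonneg_left ?_ h.le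
  obtain ⟨l, x⟩ := t
  rw [mem_product] at ht
  have m1 : mv (y.words k ×ˢ range (3 ^ (y.D * k + 1))) (p2 y m k) (fun t => t.2) x =
      m.E (ind (y.D * k + 1) (x : ℤ)) := by
    rw [← sum_p2_fst (y := y) (m := m) k x]
    unfold mv
    rw [sum_filter, sum_product]
    refine sum_congr rfl fun l' _ => ?_
    rw [sum_eq_single x]
    · simp
    · intro x' _ hne
      simp [hne]
    · intro h; exact absurd ht.2 h
  have m2 : mv (y.words k ×ˢ range (3 ^ (y.D * k + 1))) (p2 y m k) (fun t => (t.1, t.2)) (l, x) =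
      p2 y m k (l, x) := by
    unfold mv
    rw [sum_filter, sum_eq_single (l, x)]
    · simp
    · intro t' _ hne
      simp [hne]
    · intro h; exact absurd (mem_product.2 ht) h
  simp only
  rw [m1, m2]
  have h2 := p2_le (m := m) hhalf ht.1 x
  have hE : 0 < m.E (ind (y.D * k + 1) (x : ℤ)) := by
    by_contra hc
    push Not at hc
    have := mul_nonpos_of_nonneg_of_nonpos (show (0 : ℝ) ≤ (1 / 2) ^ k by positivity) hc
    linarith
  have h3 := Real.log_le_log h h2
  rw [Real.log_mul (by positivity) hE.ne', Real.log_pow, one_div, Real.log_inv] at h3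
  linarith

/-- lower bound for the entropy given the first digits -/
theorem entropy_given_digits {Sm : ℕ} (hS : ∀ w, y.S w ≤ Sm) (hhalf : ∀ w a, y.κ w a ≤ 1 / 2)
    (h1 : m.E (fun _ => 1) = 1) (k : ℕ) :
    (k : ℝ) * Real.log 2 - Real.log (Sm * k + 1) ≤
      cH (y.words k) (pr y m) (fun l => l) (fun l => (y.totC l % 3 ^ (y.D * k), y.totS l)) := by
  classical
  have hp : ∀ t ∈ y.words k ×ˢ range (3 ^ (y.D * k + 1)), 0 ≤ p2 y m k t :=
    fun t _ => p2_nonneg k t
  have tot : ∑ t ∈ y.words k ×ˢ range (3 ^ (y.D * k + 1)), p2 y m k t = 1 := by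
    rw [sum_product]
    simp_rw [sum_p2_snd]
    rw [sum_pr, h1]
  have e1 := entropy_fst (y := y) hhalf h1 k
  have e2 := cH_triangle hp (fun t => y.totS t.1) (fun t => t.1) (fun t => t.2)
  have e3 : cH (y.words k ×ˢ range (3 ^ (y.D * k + 1))) (p2 y m k) (fun t => y.totS t.1)
      (fun t => t.2) ≤ Real.log (Sm * k + 1) := by
    have := cH_le_log' hp (fun t => y.totS t.1) (fun t => t.2) (range (Sm * k + 1)) (Sm * k + 1)
      (by omega) (fun t ht => by
        rw [mem_product, y.mem_words] at ht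
        rw [mem_range]
        have h2 := totS_le hS t.1
        rw [ht.1] at h2
        omega) (by simp)
    rw [tot, one_mul] at this
    simpa using this
  have e4 : cH (y.words k ×ˢ range (3 ^ (y.D * k + 1))) (p2 y m k) (fun t => t.1)
      (fun t => (y.totS t.1, t.2)) ≤
      cH (y.words k ×ˢ range (3 ^ (y.D * k + 1))) (p2 y m k) (fun t => t.1)
      (fun t => (y.totC t.1 % 3 ^ (y.D * k), y.totS t.1)) := by
    refine cH_anti hp _ _ _ fun t ht h0 t' ht' h0' h => ?_
    simp only [Prod.ext_iff] at h ⊢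
    refine ⟨?_, h.1⟩
    -- a base point exists for both
    have base : ∀ t ∈ y.words k ×ˢ range (3 ^ (y.D * k + 1)), p2 y m k t ≠ 0 →
        (3 : ℤ) ^ (y.D * k) ∣ 2 ^ y.totS t.1 * (t.2 : ℤ) - y.totC t.1 := by
      intro t ht h0
      by_contra hc
      apply h0
      unfold p2
      rw [show (fun a : U => y.K t.1 a * ind (y.D * k + 1) (t.2 : ℤ) a) = fun _ => 0 from ?_]
      · exact m.zero
      funext a
      by_cases hK : y.K t.1 a = 0
      · rw [hK, zero_mul]
      by_cases hi : (3 : ℤ) ^ (y.D * k + 1) ∣ (a : ℤ) - (t.2 : ℤ)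
      · exfalso
        apply hc
        have e := y.rel_list t.1 a hK
        rw [mem_product, y.mem_words] at ht
        rw [ht.1] at e
        have e' : 2 ^ y.totS t.1 * (t.2 : ℤ) - y.totC t.1 =
            3 ^ (y.D * k) * (y.fin t.1 a : ℤ) - 2 ^ y.totS t.1 * ((a : ℤ) - t.2) := by
          rw [mul_sub, e]; ring
        rw [e']
        exact dvd_sub (dvd_mul_right _ _) (Dvd.dvd.mul_left
          (dvd_trans (pow_dvd_pow 3 (Nat.le_succ _)) hi) _)
      · unfold ind
        rw [if_neg hi, mul_zero]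
    have b1 := base t ht h0
    have b2 := base t' ht' h0'
    rw [h.1, h.2] at b1
    have b3 : (3 : ℤ) ^ (y.D * k) ∣ (y.totC t'.1 : ℤ) - y.totC t.1 := by
      have := dvd_sub b1 b2
      rwa [sub_sub_sub_cancel_left] at this
    have b4 : y.totC t.1 ≡ y.totC t'.1 [MOD 3 ^ (y.D * k)] := by
      rw [Nat.modEq_iff_dvd]
      push_cast
      exact b3
    exact b4
  have e5 : cH (y.words k ×ˢ range (3 ^ (y.D * k + 1))) (p2 y m k) (fun t => t.1)
      (fun t => (y.totC t.1 % 3 ^ (y.D * k), y.totS t.1)) =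
      cH (y.words k) (pr y m) (fun l => l) (fun l => (y.totC l % 3 ^ (y.D * k), y.totS l)) := by
    refine cH_map (s := y.words k ×ˢ range (3 ^ (y.D * k + 1))) (p := p2 y m k)
      (s' := y.words k) (p' := pr y m) (fun t => t.1) (fun t ht => (mem_product.1 ht).1) ?_
      (fun l => l) (fun l => (y.totC l % 3 ^ (y.D * k), y.totS l))
    intro l' hl'
    rw [sum_filter, sum_product, sum_eq_single l']
    · simp only [if_true]
      rw [sum_p2_snd]
    · intro l _ hne
      simp [hne]
    · intro h; exact absurd hl' h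
  linarith

theorem Hk_sub (hst : Stat y m) (k n : ℕ) : Hk y m (k + n) ≤ Hk y m k + Hk y m n := by
  have h := entropy_drop hst k n
  have hp : ∀ l ∈ y.words (k + n), 0 ≤ pr y m l := fun l _ => pr_nonneg l
  have h2 : cH (y.words (k + n)) (pr y m) (fun l => l.take k) (fun l => l.drop k) ≤
      cH (y.words (k + n)) (pr y m) (fun l => l.take k) fun _ => () :=
    cH_anti hp _ _ _ fun _ _ _ _ _ _ _ => rfl
  have h3 : cH (y.words (k + n)) (pr y m) (fun l => l.take k) (fun _ => ()) = Hk y m k :=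
    cH_map (fun l : List y.A => l.take k) (fun l hl => take_mem hl) (by
      convert map_take (y := y) (m := m) k n) (fun l => l) fun _ => ()
  linarith

theorem Hk_nonneg (k : ℕ) : 0 ≤ Hk y m k := cH_nonneg (fun l _ => pr_nonneg l) _ _

/-- the main entropy inequality -/
theorem main_ineq (hst : Stat y m) {Sm : ℕ} (hS : ∀ w, y.S w ≤ Sm)
    (hhalf : ∀ w a, y.κ w a ≤ 1 / 2)
    (hinj : ∀ l l' : List y.A, l.length = l'.length → y.totS l = y.totS l' →
      y.totC l = y.totC l' → l = l')
    (h1 : m.E (fun _ => 1) = 1) (k n n₀ : ℕ) (hn : n₀ ≤ n)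
    (hbig : ∀ l ∈ y.words k, y.totC l < 3 ^ (y.D * (k + n) + 1)) :
    Hk y m (k + n) - Hk y m n ≤ 2 * Real.log (Sm * k + 1) + (Hk y m k - k * Real.log 2) +
      (y.D * n₀ + 1) * Real.log 3 +
      ∑ j ∈ Ico n₀ n, 2 * (Real.sqrt (3 ^ y.D) * Real.sqrt (pk y m k j)) := by
  have hp : ∀ l ∈ y.words (k + n), 0 ≤ pr y m l := fun l _ => pr_nonneg l
  have hpk : ∀ l ∈ y.words k, 0 ≤ pr y m l := fun l _ => pr_nonneg l
  have a1 := entropy_drop hst k n
  have a2 := cH_triangle hp (sV y k) (fun l => l.take k) (fun l => l.drop k)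
  have a3 : cH (y.words (k + n)) (pr y m) (sV y k) (fun l => l.drop k) ≤
      Real.log (Sm * k + 1) := cH_sV_le hS h1 k n _
  have a4 := cH_triangle hp (cV y k (y.D * (k + n₀) + 1)) (fun l => l.take k)
    (fun l => (sV y k l, l.drop k))
  have a5 := level_sum (y := y) h1 k n n₀ hn
  have a6 : cH (y.words (k + n)) (pr y m) (fun l => l.take k) (ctx y k n) = 0 := by
    refine cH_eq_zero _ _ fun l hl l' hl' h => ?_
    simp only [ctx, cV, sV, Prod.ext_iff] at h
    have t1 := take_mem hl
    have t2 := take_mem hl'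
    rw [Nat.mod_eq_of_lt (hbig _ t1), Nat.mod_eq_of_lt (hbig _ t2)] at h
    rw [y.mem_words] at t1 t2
    exact hinj _ _ (t1.trans t2.symm) h.2.1 h.1
  -- first digits
  have b1 : cH (y.words (k + n)) (pr y m) (cV y k (y.D * (k + n₀) + 1))
      (fun l => (sV y k l, l.drop k)) ≤
      cH (y.words (k + n)) (pr y m) (cV y k (y.D * (k + n₀) + 1)) (sV y k) :=
    cH_anti hp _ _ _ fun l _ _ l' _ _ h => (Prod.ext_iff.1 h).1
  have b2 : cH (y.words (k + n)) (pr y m) (cV y k (y.D * (k + n₀) + 1)) (sV y k) =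
      cH (y.words k) (pr y m) (fun l => y.totC l % 3 ^ (y.D * (k + n₀) + 1)) y.totS :=
    cH_map (fun l : List y.A => l.take k) (fun l hl => take_mem hl) (by
      convert map_take (y := y) (m := m) k n)
      (fun l => y.totC l % 3 ^ (y.D * (k + n₀) + 1)) y.totS
  have b3 := cH_triangle hpk (fun l => y.totC l % 3 ^ (y.D * k))
    (fun l => y.totC l % 3 ^ (y.D * (k + n₀) + 1)) y.totS
  have b4 : cH (y.words k) (pr y m) (fun l => y.totC l % 3 ^ (y.D * (k + n₀) + 1))
      (fun l => (y.totC l % 3 ^ (y.D * k), y.totS l)) ≤ (y.D * n₀ + 1) * Real.log 3 := by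
    have := cH_le_log hpk (fun l => y.totC l % 3 ^ (y.D * (k + n₀) + 1))
      (fun l => (y.totC l % 3 ^ (y.D * k), y.totS l)) (3 ^ (y.D * n₀ + 1)) (by positivity) ?_
    · rw [sum_pr, h1, one_mul] at this
      push_cast at this
      rw [Real.log_pow] at this
      push_cast at this
      exact this
    · intro t
      refine ⟨(range (3 ^ (y.D * n₀ + 1))).image fun u => t.1 + 3 ^ (y.D * k) * u,
        card_image_le.trans (by simp), fun l hl h => ?_⟩
      rw [mem_image]
      refine ⟨y.totC l / 3 ^ (y.D * k) % 3 ^ (y.D * n₀ + 1), ?_, ?_⟩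
      · rw [mem_range]; exact Nat.mod_lt _ (by positivity)
      · rw [← h]
        simp only
        rw [show y.D * (k + n₀) + 1 = y.D * k + (y.D * n₀ + 1) by ring, pow_add 3 (y.D * k),
          Nat.mod_mul]
  have c1 := entropy_given_digits (y := y) hS hhalf h1 k
  have c2 : Hk y m k = cH (y.words k) (pr y m)
      (fun l => ((y.totS l, y.totC l % 3 ^ (y.D * k)), l)) fun _ => () := by
    refine cH_congr _ _ _ _ (fun _ _ _ _ _ _ => Iff.rfl) fun l _ _ l' _ _ => ?_
    simp only [Prod.ext_iff, and_true]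
    constructor
    · rintro rfl; exact ⟨⟨rfl, rfl⟩, rfl⟩
    · rintro ⟨_, h⟩; exact h
  rw [cH_chain, cH_chain] at c2
  have c3 : cH (y.words k) (pr y m) (fun l => l)
      (fun l => ((y.totS l, y.totC l % 3 ^ (y.D * k)), ())) =
      cH (y.words k) (pr y m) (fun l => l) (fun l => (y.totC l % 3 ^ (y.D * k), y.totS l)) := by
    refine cH_congr _ _ _ _ (fun l _ _ l' _ _ => ?_) fun l _ _ l' _ _ => ?_
    · simp only [Prod.ext_iff, and_true]; tauto
    · simp only [Prod.ext_iff, and_true]; tauto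
  have c4 : cH (y.words k) (pr y m) (fun l => y.totC l % 3 ^ (y.D * k))
      (fun l => (y.totS l, ())) =
      cH (y.words k) (pr y m) (fun l => y.totC l % 3 ^ (y.D * k)) y.totS := by
    refine cH_congr _ _ _ _ (fun l _ _ l' _ _ => ?_) fun l _ _ l' _ _ => ?_
    · simp only [Prod.ext_iff, and_true]
    · simp only [Prod.ext_iff, and_true]
  have c5 := cH_nonneg hpk y.totS fun _ => ()
  rw [c3, c4] at c2
  have a4' : cH (y.words (k + n)) (pr y m) (fun l => l.take k)
      (fun l => (cV y k (y.D * (k + n₀) + 1) l, (sV y k l, l.drop k))) =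
      cH (y.words (k + n)) (pr y m) (fun l => l.take k) (ctx y k n₀) := rfl
  rw [a4'] at a4
  linarith

/-- total constants grow at most exponentially -/
theorem exists_bound (y : Sys) : ∃ C : ℕ, 1 ≤ C ∧ ∀ (k : ℕ), ∀ l ∈ y.words k,
    y.totC l < 3 ^ (y.D * (k + C * k) + 1) := by
  obtain ⟨Sm, hS⟩ : ∃ Sm, ∀ w, y.S w ≤ Sm := ⟨∑ w, y.S w, fun w =>
    single_le_sum (f := y.S) (fun _ _ => Nat.zero_le _) (mem_univ w)⟩
  obtain ⟨cm, hc⟩ : ∃ cm, ∀ w, y.c w ≤ cm := ⟨∑ w, y.c w, fun w =>
    single_le_sum (f := y.c) (fun _ _ => Nat.zero_le _) (mem_univ w)⟩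
  obtain ⟨T, hT⟩ : ∃ T, T = 3 ^ y.D := ⟨_, rfl⟩
  obtain ⟨V, hV⟩ : ∃ V, V = 2 ^ Sm := ⟨_, rfl⟩
  have hT1 : 1 ≤ T := hT ▸ Nat.one_le_pow _ _ (by norm_num)
  obtain ⟨R, hR⟩ : ∃ R, R = T + V + cm := ⟨_, rfl⟩
  have hR1 : 1 ≤ R := by omega
  have h2 : ∀ l : List y.A, 2 ^ y.totS l ≤ R ^ l.length := by
    intro l
    calc 2 ^ y.totS l ≤ 2 ^ (Sm * l.length) := Nat.pow_le_pow_right (by norm_num) (totS_le hS l)
      _ = V ^ l.length := by rw [pow_mul, hV]
      _ ≤ R ^ l.length := Nat.pow_le_pow_left (by omega) _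
  have h3 : ∀ l : List y.A, y.totC l < R ^ l.length := by
    intro l
    induction l with
    | nil => simp
    | cons w l ih =>
      rw [y.totC_cons, List.length_cons, pow_succ, ← hT]
      have i1 := hc w
      have i2 := h2 l
      have i3 : 2 ^ y.totS l * y.c w ≤ R ^ l.length * cm := Nat.mul_le_mul i2 i1
      have i4 : T * y.totC l < T * R ^ l.length := Nat.mul_lt_mul_of_pos_left ih (by omega)
      calc T * y.totC l + 2 ^ y.totS l * y.c w < T * R ^ l.length + R ^ l.length * cm :=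
            add_lt_add_of_lt_of_le i4 i3
        _ = R ^ l.length * (T + cm) := by ring
        _ ≤ R ^ l.length * R := Nat.mul_le_mul_left _ (by omega)
  refine ⟨R, hR1, fun k l hl => ?_⟩
  rw [y.mem_words] at hl
  have hD := y.hD
  calc y.totC l < R ^ l.length := h3 l
    _ ≤ (3 ^ R) ^ l.length := Nat.pow_le_pow_left (Nat.lt_pow_self (by norm_num)).le _
    _ = 3 ^ (R * k) := by rw [← pow_mul, hl]
    _ ≤ 3 ^ (y.D * (k + R * k) + 1) := by
        refine Nat.pow_le_pow_right (by norm_num) ?_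
        nlinarith [Nat.zero_le (R * k), Nat.zero_le k]

theorem log_div_tendsto (S : ℕ) :
    Filter.Tendsto (fun k : ℕ => Real.log (S * k + 1) / k) Filter.atTop (nhds 0) := by
  have h1 : Filter.Tendsto (fun k : ℕ => Real.log (k : ℝ) / k) Filter.atTop (nhds 0) := by
    have := Real.tendsto_pow_log_div_mul_add_atTop 1 0 1 one_ne_zero
    have h2 := this.comp tendsto_natCast_atTop_atTop
    refine h2.congr fun k => ?_
    simp
  have h3 : Filter.Tendsto (fun k : ℕ => Real.log ((S : ℝ) + 1) / k + Real.log (k : ℝ) / k)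
      Filter.atTop (nhds 0) := by
    have := (tendsto_const_div_atTop_nhds_zero_nat (Real.log ((S : ℝ) + 1))).add h1
    simpa using this
  refine squeeze_zero' (Filter.Eventually.of_forall fun k => ?_) ?_ h3
  · have : (1 : ℝ) ≤ S * k + 1 := by
      have : (0 : ℝ) ≤ S * k := by positivity
      linarith
    exact div_nonneg (Real.log_nonneg this) (Nat.cast_nonneg k)
  · filter_upwards [Filter.eventually_ge_atTop 1] with k hk
    have hk' : (1 : ℝ) ≤ k := by exact_mod_cast hk
    rw [← add_div, ← Real.log_mul (by positivity) (by positivity)]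
    refine div_le_div_of_nonneg_right (Real.log_le_log (by positivity) ?_) (by positivity)
    nlinarith

/-- the next windows of digits are not determined, at arbitrarily high levels -/
theorem nondeg (hst : Stat y m) (hhalf : ∀ w a, y.κ w a ≤ 1 / 2)
    (hinj : ∀ l l' : List y.A, l.length = l'.length → y.totS l = y.totS l' →
      y.totC l = y.totC l' → l = l')
    (h1 : m.E (fun _ => 1) = 1) :
    ∃ δ : ℝ, 0 < δ ∧ ∀ n₀ : ℕ, ∃ n : ℕ, n₀ ≤ n ∧ ∃ k : ℕ, δ ≤ pk y m k n := by
  obtain ⟨Sm, hS⟩ : ∃ Sm, ∀ w, y.S w ≤ Sm := ⟨∑ w, y.S w, fun w =>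
    single_le_sum (f := y.S) (fun _ _ => Nat.zero_le _) (mem_univ w)⟩
  obtain ⟨C, hC, hb⟩ := exists_bound y
  have hl2 : 0 < Real.log 2 := Real.log_pos (by norm_num)
  have hC0 : (0 : ℝ) < C := by exact_mod_cast hC
  obtain ⟨W, hW⟩ : ∃ W, W = Real.sqrt (3 ^ y.D) := ⟨_, rfl⟩
  have hW0 : 0 < W := hW ▸ Real.sqrt_pos.2 (by positivity)
  refine ⟨(Real.log 2 / (8 * C * W)) ^ 2, by positivity, fun n₀ => ?_⟩
  by_contra hcon
  push Not at hcon
  -- the basic inequality
  have key : ∀ k : ℕ, n₀ ≤ C * k → (3 / 4 : ℝ) * Real.log 2 * k ≤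
      Hk y m k + Hk y m (C * k) - Hk y m (k + C * k) + 2 * Real.log (Sm * k + 1) +
        (y.D * n₀ + 1) * Real.log 3 := by
    intro k hk
    have a := main_ineq (y := y) hst hS hhalf hinj h1 k (C * k) n₀ hk (hb k)
    have b : ∑ j ∈ Ico n₀ (C * k), 2 * (Real.sqrt (3 ^ y.D) * Real.sqrt (pk y m k j)) ≤
        Real.log 2 / 4 * k := by
      calc ∑ j ∈ Ico n₀ (C * k), 2 * (Real.sqrt (3 ^ y.D) * Real.sqrt (pk y m k j))
          ≤ ∑ j ∈ Ico n₀ (C * k), Real.log 2 / (4 * C) := by
            refine sum_le_sum fun j hj => ?_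
            have h := (hcon j (mem_Ico.1 hj).1 k).le
            have h' : Real.sqrt (pk y m k j) ≤ Real.log 2 / (8 * C * W) :=
              Real.sqrt_le_iff.2 ⟨by positivity, h⟩
            rw [← hW]
            calc 2 * (W * Real.sqrt (pk y m k j)) ≤ 2 * (W * (Real.log 2 / (8 * C * W))) := by
                  gcongr
              _ = _ := by field_simp; norm_num
        _ = ((C * k - n₀ : ℕ) : ℝ) * (Real.log 2 / (4 * C)) := by
            rw [sum_const, Nat.card_Ico, nsmul_eq_mul]
        _ ≤ ((C * k : ℕ) : ℝ) * (Real.log 2 / (4 * C)) := by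
            gcongr
            exact Nat.sub_le _ _
        _ = _ := by push_cast; field_simp
    linarith
  have hsub : Subadditive (Hk y m) := fun a b => Hk_sub hst a b
  have hbdd : BddBelow (Set.range fun n : ℕ => Hk y m n / n) :=
    ⟨0, by rintro _ ⟨n, rfl⟩; exact div_nonneg (Hk_nonneg n) (Nat.cast_nonneg n)⟩
  have t0 := hsub.tendsto_lim hbdd
  obtain ⟨h, hh⟩ : ∃ h, h = hsub.lim := ⟨_, rfl⟩
  rw [← hh] at t0
  have tmul : ∀ C' : ℕ, 1 ≤ C' → Filter.Tendsto (fun k : ℕ => Hk y m (C' * k) / k) Filter.atTop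
      (nhds (C' * h)) := by
    intro C' hC'
    have t1 : Filter.Tendsto (fun k : ℕ => C' * k) Filter.atTop Filter.atTop :=
      Filter.tendsto_atTop_mono (fun k => Nat.le_mul_of_pos_left k hC') Filter.tendsto_id
    have t2 := (t0.comp t1).const_mul (C' : ℝ)
    refine t2.congr' ?_
    filter_upwards [Filter.eventually_ge_atTop 1] with k hk
    have hk' : (k : ℝ) ≠ 0 := by
      have : (1 : ℝ) ≤ k := by exact_mod_cast hk
      positivity
    have hC'' : (C' : ℝ) ≠ 0 := by
      have : (1 : ℝ) ≤ C' := by exact_mod_cast hC'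
      positivity
    simp only [Function.comp]
    push_cast
    field_simp
  have tC := tmul C hC
  have tC1 := tmul (1 + C) (by omega)
  have tl := log_div_tendsto Sm
  have tc := tendsto_const_div_atTop_nhds_zero_nat ((y.D * n₀ + 1) * Real.log 3)
  have T : Filter.Tendsto (fun k : ℕ => Hk y m k / k + Hk y m (C * k) / k -
      Hk y m ((1 + C) * k) / k + 2 * (Real.log (Sm * k + 1) / k) +
      ((y.D * n₀ + 1) * Real.log 3) / k) Filter.atTop
      (nhds (h + C * h - ((1 + C : ℕ) : ℝ) * h + 2 * 0 + 0)) :=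
    (((t0.add tC).sub tC1).add (tl.const_mul 2)).add tc
  have e0 : h + C * h - ((1 + C : ℕ) : ℝ) * h + 2 * 0 + 0 = 0 := by push_cast; ring
  rw [e0] at T
  have : (3 / 4 : ℝ) * Real.log 2 ≤ 0 := by
    refine ge_of_tendsto T ?_
    filter_upwards [Filter.eventually_ge_atTop (n₀ + 1)] with k hk
    have hk1 : (0 : ℝ) < k := by
      have : 0 < k := by omega
      exact_mod_cast this
    have hk2 : n₀ ≤ C * k := by nlinarith
    have := key k hk2
    rw [← mul_div_assoc, ← add_div, ← sub_div, ← add_div, ← add_div, le_div_iff₀ hk1]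
    rw [show (1 + C) * k = k + C * k by ring]
    exact this
  linarith

end Pool.Agent.Collatz3
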