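import Pool.Agent.Collatz3.PBConst

set_option autoImplicit false

/-!
PowerBarrier, module BASIC: iterates, parity vectors, residues.
-/

open Finset
open scoped Classical

namespace Pool.Agent.Collatz3.PB

open Pool.Agent.Helper14 (T)

theorem ba_two_T (x : ℤ) : 2 * T x = if 2 ∣ x then x else 3 * x + 1 := by
  unfold T
  split_ifs with h
  · omega
  · omega

theorem ba_even (t : ℕ) (n : ℤ) (h : 2 ∣ T^[t] n) : jt (t + 1) n = jt t n := by
  show jt t n + (if 2 ∣ T^[t] n then 0 else 1) = jt t n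
  rw [if_pos h, add_zero]

theorem ba_odd (t : ℕ) (n : ℤ) (h : ¬ 2 ∣ T^[t] n) : jt (t + 1) n = jt t n + 1 := by
  show jt t n + (if 2 ∣ T^[t] n then 0 else 1) = jt t n + 1
  rw [if_neg h]

theorem ba_ceven (t : ℕ) (n : ℤ) (h : 2 ∣ T^[t] n) : ct (t + 1) n = ct t n := by
  show (if 2 ∣ T^[t] n then ct t n else 3 * ct t n + 2 ^ t) = ct t n
  rw [if_pos h]

theorem ba_codd (t : ℕ) (n : ℤ) (h : ¬ 2 ∣ T^[t] n) : ct (t + 1) n = 3 * ct t n + 2 ^ t := by
  show (if 2 ∣ T^[t] n then ct t n else 3 * ct t n + 2 ^ t) = 3 * ct t n + 2 ^ t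
  rw [if_neg h]

theorem main_eq (t : ℕ) (n : ℤ) : 2 ^ t * T^[t] n = 3 ^ jt t n * n + ct t n := by
  induction t with
  | zero => simp [jt, ct]
  | succ t ih =>
    rw [Function.iterate_succ_apply']
    have h1 : (2 : ℤ) ^ (t + 1) * T (T^[t] n) = 2 ^ t * (2 * T (T^[t] n)) := by ring
    rw [h1, ba_two_T]
    by_cases h : 2 ∣ T^[t] n
    · rw [if_pos h, ba_even t n h, ba_ceven t n h, ih]
    · rw [if_neg h, ba_odd t n h, ba_codd t n h]
      have h2 : (2 : ℤ) ^ t * (3 * T^[t] n + 1) = 3 * (2 ^ t * T^[t] n) + 2 ^ t := by ring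
      rw [h2, ih]
      ring

theorem jt_le (t : ℕ) (n : ℤ) : jt t n ≤ t := by
  induction t with
  | zero => simp [jt]
  | succ t ih =>
    by_cases h : 2 ∣ T^[t] n
    · rw [ba_even t n h]
      omega
    · rw [ba_odd t n h]
      omega

theorem jt_mono {s t : ℕ} (h : s ≤ t) (n : ℤ) : jt s n ≤ jt t n := by
  induction t with
  | zero =>
    have : s = 0 := by omega
    rw [this]
  | succ t ih =>
    rcases Nat.lt_or_ge t s with h1 | h1
    · have : s = t + 1 := by omega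
      rw [this]
    · refine (ih h1).trans ?_
      by_cases h : 2 ∣ T^[t] n
      · rw [ba_even t n h]
      · rw [ba_odd t n h]
        omega

theorem ct_nonneg (t : ℕ) (n : ℤ) : 0 ≤ ct t n := by
  induction t with
  | zero => simp [ct]
  | succ t ih =>
    by_cases h : 2 ∣ T^[t] n
    · rw [ba_ceven t n h]
      exact ih
    · rw [ba_codd t n h]
      positivity

theorem ba_ct_le (t : ℕ) (n : ℤ) : ct t n + 2 ^ t ≤ 3 ^ t := by
  induction t with
  | zero => simp [ct]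
  | succ t ih =>
    have h3 : (2 : ℤ) ^ t ≤ 3 ^ t := pow_le_pow_left₀ (by norm_num) (by norm_num) t
    have h4 : (0 : ℤ) ≤ 3 ^ t := by positivity
    by_cases h : 2 ∣ T^[t] n
    · rw [ba_ceven t n h, pow_succ, pow_succ]
      linarith
    · rw [ba_codd t n h, pow_succ, pow_succ]
      linarith

theorem ct_le (t : ℕ) (n : ℤ) : ct t n ≤ 3 ^ t := by
  have h1 := ba_ct_le t n
  have h2 : (0 : ℤ) ≤ 2 ^ t := by positivity
  linarith

theorem jt_add (a b : ℕ) (n : ℤ) : jt (a + b) n = jt a n + jt b (T^[a] n) := by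
  induction b with
  | zero => simp [jt]
  | succ b ih =>
    have h1 : T^[a + b] n = T^[b] (T^[a] n) := by
      rw [add_comm, Function.iterate_add_apply]
    by_cases h : 2 ∣ T^[a + b] n
    · rw [← add_assoc, ba_even _ _ h, ba_even b (T^[a] n) (h1 ▸ h), ih]
    · rw [← add_assoc, ba_odd _ _ h, ba_odd b (T^[a] n) (h1 ▸ h), ih]
      ring

theorem ct_add (a b : ℕ) (n : ℤ) :
    ct (a + b) n = 3 ^ jt b (T^[a] n) * ct a n + 2 ^ a * ct b (T^[a] n) := by
  induction b with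
  | zero => simp [jt, ct]
  | succ b ih =>
    have h1 : T^[a + b] n = T^[b] (T^[a] n) := by
      rw [add_comm, Function.iterate_add_apply]
    by_cases h : 2 ∣ T^[a + b] n
    · rw [← add_assoc, ba_ceven _ _ h, ba_even b (T^[a] n) (h1 ▸ h),
        ba_ceven b (T^[a] n) (h1 ▸ h), ih]
    · rw [← add_assoc, ba_codd _ _ h, ba_odd b (T^[a] n) (h1 ▸ h),
        ba_codd b (T^[a] n) (h1 ▸ h), ih]
      ring

theorem ba_shift (t : ℕ) : ∀ n m : ℤ, jt t (n + 2 ^ t * m) = jt t n ∧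
    ct t (n + 2 ^ t * m) = ct t n ∧ T^[t] (n + 2 ^ t * m) = T^[t] n + 3 ^ jt t n * m := by
  induction t with
  | zero => intro n m; simp [jt, ct]
  | succ t ih =>
    intro n m
    have h0 : n + 2 ^ (t + 1) * m = n + 2 ^ t * (2 * m) := by ring
    obtain ⟨h1, h2, h3⟩ := ih n (2 * m)
    rw [h0]
    have hpar : (2 ∣ T^[t] (n + 2 ^ t * (2 * m))) ↔ 2 ∣ T^[t] n := by
      rw [h3]
      have : (3 : ℤ) ^ jt t n * (2 * m) = 2 * (3 ^ jt t n * m) := by ring
      rw [this]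
      constructor
      · intro h
        have := dvd_sub h (dvd_mul_right (2 : ℤ) (3 ^ jt t n * m))
        simpa using this
      · intro h
        exact dvd_add h (dvd_mul_right _ _)
    rw [Function.iterate_succ_apply', Function.iterate_succ_apply']
    by_cases h : 2 ∣ T^[t] n
    · have h' := hpar.2 h
      refine ⟨by rw [ba_even _ _ h', ba_even _ _ h, h1], by rw [ba_ceven _ _ h', ba_ceven _ _ h, h2],
        ?_⟩
      rw [ba_even _ _ h]
      have e1 := ba_two_T (T^[t] (n + 2 ^ t * (2 * m)))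
      have e2 := ba_two_T (T^[t] n)
      rw [if_pos h'] at e1
      rw [if_pos h] at e2
      have : 2 * T (T^[t] (n + 2 ^ t * (2 * m))) = 2 * (T (T^[t] n) + 3 ^ jt t n * m) := by
        rw [e1, h3, mul_add, e2]
        ring
      linarith
    · have h' := fun hh => h (hpar.1 hh)
      refine ⟨by rw [ba_odd _ _ h', ba_odd _ _ h, h1], by rw [ba_codd _ _ h', ba_codd _ _ h, h2],
        ?_⟩
      rw [ba_odd _ _ h]
      have e1 := ba_two_T (T^[t] (n + 2 ^ t * (2 * m)))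
      have e2 := ba_two_T (T^[t] n)
      rw [if_neg h'] at e1
      rw [if_neg h] at e2
      have e3 : 2 * (T (T^[t] n) + 3 ^ (jt t n + 1) * m) =
          2 * T (T^[t] n) + 2 * (3 ^ (jt t n + 1) * m) := mul_add _ _ _
      have : 2 * T (T^[t] (n + 2 ^ t * (2 * m))) =
          2 * (T (T^[t] n) + 3 ^ (jt t n + 1) * m) := by
        rw [e3, e1, h3, e2]
        ring
      linarith

theorem iter_shift (t : ℕ) (n m : ℤ) : T^[t] (n + 2 ^ t * m) = T^[t] n + 3 ^ jt t n * m :=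
  (ba_shift t n m).2.2

theorem ba_exists {t : ℕ} {n n' : ℤ} (h : n % 2 ^ t = n' % 2 ^ t) : ∃ m, n' = n + 2 ^ t * m := by
  have h1 : (2 : ℤ) ^ t ∣ n' - n := (Int.ModEq.dvd h)
  obtain ⟨m, hm⟩ := h1
  exact ⟨m, by linarith⟩

theorem jt_congr {t : ℕ} {n n' : ℤ} (h : n % 2 ^ t = n' % 2 ^ t) : jt t n = jt t n' := by
  obtain ⟨m, rfl⟩ := ba_exists h
  exact (ba_shift t n m).1.symm

theorem ct_congr {t : ℕ} {n n' : ℤ} (h : n % 2 ^ t = n' % 2 ^ t) : ct t n = ct t n' := by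
  obtain ⟨m, rfl⟩ := ba_exists h
  exact (ba_shift t n m).2.1.symm

theorem mod_iff (a b : ℕ) (n n' : ℤ) : n % 2 ^ (a + b) = n' % 2 ^ (a + b) ↔
    n % 2 ^ a = n' % 2 ^ a ∧ T^[a] n % 2 ^ b = T^[a] n' % 2 ^ b := by
  constructor
  · intro h
    obtain ⟨m, rfl⟩ := ba_exists h
    have h0 : n + 2 ^ (a + b) * m = n + 2 ^ a * (2 ^ b * m) := by
      rw [pow_add]
      ring
    rw [h0, iter_shift]
    constructor
    · rw [Int.add_mul_emod_self_left]
    · have : T^[a] n + 3 ^ jt a n * (2 ^ b * m) = T^[a] n + 2 ^ b * (3 ^ jt a n * m) := by ring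
      rw [this, Int.add_mul_emod_self_left]
  · rintro ⟨h1, h2⟩
    obtain ⟨m, rfl⟩ := ba_exists h1
    rw [iter_shift] at h2
    have h3 : (2 : ℤ) ^ b ∣ 3 ^ jt a n * m := by
      have := Int.ModEq.dvd h2
      simpa using this
    have hcop : IsCoprime ((2 : ℤ) ^ b) (3 ^ jt a n) := by
      apply IsCoprime.pow
      exact ⟨-1, 1, by norm_num⟩
    obtain ⟨m', rfl⟩ := hcop.dvd_of_dvd_mul_left h3
    have h0 : n + 2 ^ a * (2 ^ b * m') = n + 2 ^ (a + b) * m' := by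
      rw [pow_add]
      ring
    rw [h0, Int.add_mul_emod_self_left]

theorem ba_toNat (x : ℤ) (b : ℕ) : ((x % 2 ^ b).toNat : ℤ) = x % 2 ^ b :=
  Int.toNat_of_nonneg (Int.emod_nonneg _ (by positivity))

theorem ba_toNat_lt (x : ℤ) (b : ℕ) : (x % 2 ^ b).toNat < 2 ^ b := by
  have h1 : x % 2 ^ b < 2 ^ b := Int.emod_lt_of_pos _ (by positivity)
  have h2 := ba_toNat x b
  have h3 : ((x % 2 ^ b).toNat : ℤ) < ((2 ^ b : ℕ) : ℤ) := by
    rw [h2]
    push_cast
    exact h1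
  exact_mod_cast h3

/-- a pair of residues determines a residue -/
theorem sum_split (a b : ℕ) (F : ℤ → ℤ → ℝ) (hF : ∀ r r' s s' : ℤ, r % 2 ^ a = r' % 2 ^ a →
    s % 2 ^ b = s' % 2 ^ b → F r s = F r' s') :
    ∑ r ∈ range (2 ^ (a + b)), F (r : ℤ) (T^[a] (r : ℤ)) =
      ∑ r ∈ range (2 ^ a), ∑ s ∈ range (2 ^ b), F (r : ℤ) (s : ℤ) := by
  let φ : ℕ → ℕ × ℕ := fun r =>
    ((((r : ℤ) % 2 ^ a).toNat), ((T^[a] (r : ℤ) % 2 ^ b).toNat))
  have hinj : Set.InjOn φ (range (2 ^ (a + b)) : Finset ℕ) := by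
    intro r hr r' hr' h
    have hr1 : r < 2 ^ (a + b) := Finset.mem_range.1 hr
    have hr2 : r' < 2 ^ (a + b) := Finset.mem_range.1 hr'
    have h1 : ((r : ℤ) % 2 ^ a).toNat = ((r' : ℤ) % 2 ^ a).toNat := congrArg Prod.fst h
    have h2 : (T^[a] (r : ℤ) % 2 ^ b).toNat = (T^[a] (r' : ℤ) % 2 ^ b).toNat :=
      congrArg Prod.snd h
    have h3 : (r : ℤ) % 2 ^ a = (r' : ℤ) % 2 ^ a := by
      rw [← ba_toNat, ← ba_toNat (r' : ℤ), h1]
    have h4 : T^[a] (r : ℤ) % 2 ^ b = T^[a] (r' : ℤ) % 2 ^ b := by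
      rw [← ba_toNat, ← ba_toNat (T^[a] (r' : ℤ)), h2]
    have h5 := (mod_iff a b r r').2 ⟨h3, h4⟩
    have h6 : (r : ℤ) % 2 ^ (a + b) = r := Int.emod_eq_of_lt (by positivity) (by exact_mod_cast hr1)
    have h7 : (r' : ℤ) % 2 ^ (a + b) = r' :=
      Int.emod_eq_of_lt (by positivity) (by exact_mod_cast hr2)
    rw [h6, h7] at h5
    exact_mod_cast h5
  have himg : (range (2 ^ (a + b))).image φ = range (2 ^ a) ×ˢ range (2 ^ b) := by
    refine Finset.eq_of_subset_of_card_le ?_ ?_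
    · intro p hp
      obtain ⟨r, -, rfl⟩ := Finset.mem_image.1 hp
      exact Finset.mem_product.2 ⟨Finset.mem_range.2 (ba_toNat_lt (r : ℤ) a),
        Finset.mem_range.2 (ba_toNat_lt (T^[a] (r : ℤ)) b)⟩
    · rw [Finset.card_image_of_injOn hinj, Finset.card_product, Finset.card_range,
        Finset.card_range, Finset.card_range, pow_add]
  have h1 : ∀ r ∈ range (2 ^ (a + b)), F (r : ℤ) (T^[a] (r : ℤ)) =
      (fun p : ℕ × ℕ => F (p.1 : ℤ) (p.2 : ℤ)) (φ r) := by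
    intro r _
    refine hF _ _ _ _ ?_ ?_
    · show (r : ℤ) % 2 ^ a = ((((r : ℤ) % 2 ^ a).toNat : ℕ) : ℤ) % 2 ^ a
      rw [ba_toNat, Int.emod_emod_of_dvd _ (dvd_refl _)]
    · show T^[a] (r : ℤ) % 2 ^ b = (((T^[a] (r : ℤ) % 2 ^ b).toNat : ℕ) : ℤ) % 2 ^ b
      rw [ba_toNat, Int.emod_emod_of_dvd _ (dvd_refl _)]
  rw [Finset.sum_congr rfl h1, ← Finset.sum_image (f := fun p : ℕ × ℕ => F (p.1 : ℤ) (p.2 : ℤ)) hinj,
    himg, Finset.sum_product]

theorem sum_pow (t : ℕ) (x y : ℝ) :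
    ∑ r ∈ range (2 ^ t), x ^ jt t (r : ℤ) * y ^ (t - jt t (r : ℤ)) = (x + y) ^ t := by
  induction t with
  | zero => simp [jt]
  | succ t ih =>
    have h1 : ∀ r ∈ range (2 ^ (t + 1)), x ^ jt (t + 1) (r : ℤ) * y ^ (t + 1 - jt (t + 1) (r : ℤ)) =
        (fun r s : ℤ => (x ^ jt t r * y ^ (t - jt t r)) * (x ^ jt 1 s * y ^ (1 - jt 1 s)))
          (r : ℤ) (T^[t] (r : ℤ)) := by
      intro r _
      have a1 := jt_add t 1 (r : ℤ)
      have a2 := jt_le t (r : ℤ)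
      have a3 := jt_le 1 (T^[t] (r : ℤ))
      show x ^ jt (t + 1) (r : ℤ) * y ^ (t + 1 - jt (t + 1) (r : ℤ)) =
        (x ^ jt t (r : ℤ) * y ^ (t - jt t (r : ℤ))) *
          (x ^ jt 1 (T^[t] (r : ℤ)) * y ^ (1 - jt 1 (T^[t] (r : ℤ))))
      rw [a1, show t + 1 - (jt t (r : ℤ) + jt 1 (T^[t] (r : ℤ))) =
        (t - jt t (r : ℤ)) + (1 - jt 1 (T^[t] (r : ℤ))) by omega, pow_add, pow_add]
      ring
    rw [Finset.sum_congr rfl h1, sum_split t 1 (fun r s : ℤ => (x ^ jt t r * y ^ (t - jt t r)) *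
      (x ^ jt 1 s * y ^ (1 - jt 1 s)))]
    · have h2 : ∀ r ∈ range (2 ^ t), ∑ s ∈ range (2 ^ 1), (x ^ jt t (r : ℤ) * y ^ (t - jt t (r : ℤ))) *
          (x ^ jt 1 (s : ℤ) * y ^ (1 - jt 1 (s : ℤ))) =
          (x ^ jt t (r : ℤ) * y ^ (t - jt t (r : ℤ))) * (x + y) := by
        intro r _
        rw [← Finset.mul_sum]
        congr 1
        have e0 : jt 1 0 = 0 := by simp [jt]
        have e1 : jt 1 1 = 1 := by simp [jt]
        rw [pow_one, Finset.sum_range_succ, Finset.sum_range_one]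
        push_cast
        rw [e0, e1]
        simp [add_comm]
      rw [Finset.sum_congr rfl h2, ← Finset.sum_mul, ih, pow_succ]
    · intro r r' s s' hr hs
      rw [jt_congr hr, jt_congr hs]

theorem sum_pw (t : ℕ) : ∑ r ∈ range (2 ^ t), pw t (r : ℤ) = 1 := by
  have h := sum_pow t rh (1 - rh)
  rw [add_sub_cancel, one_pow] at h
  exact h

theorem pw_pos (t : ℕ) (n : ℤ) : 0 < pw t n := by
  have h1 := rh_gt
  have h2 := rh_lt
  have h3 : 0 < rh := by linarith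
  have h4 : 0 < 1 - rh := by linarith
  unfold pw
  positivity

theorem pw_add (a b : ℕ) (n : ℤ) : pw (a + b) n = pw a n * pw b (T^[a] n) := by
  unfold pw
  have a1 := jt_add a b n
  have a2 := jt_le a n
  have a3 := jt_le b (T^[a] n)
  rw [a1, show a + b - (jt a n + jt b (T^[a] n)) = (a - jt a n) + (b - jt b (T^[a] n)) by omega,
    pow_add, pow_add]
  ring

theorem pw_congr {t : ℕ} {n n' : ℤ} (h : n % 2 ^ t = n' % 2 ^ t) : pw t n = pw t n' := by
  unfold pw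
  rw [jt_congr h]

theorem log_pw (t : ℕ) (n : ℤ) :
    Real.log (pw t n) = -(Hn * t) + (jt t n - rh * t) * Real.log bt :=
  log_weight t (jt t n) (jt_le t n)

end Pool.Agent.Collatz3.PB
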