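import Pool.Agent.Collatz3.PBBasic

set_option autoImplicit false

/-!
PowerBarrier, module BLOCKS: blocks of `d` parities with at most `d / 2` odd terms are rare.
-/

open Finset
open scoped Classical

namespace Pool.Agent.Collatz3.PB

open Pool.Agent.Helper14 (T)

/-- number of bad blocks among the first `m` blocks of length `d` -/
noncomputable def bk (d m : ℕ) (s : ℤ) : ℕ :=
  ((range m).filter fun b => 2 * jt d (T^[d * b] s) ≤ d).card

theorem bk_congr {d m k : ℕ} (h : d * m ≤ k) {s s' : ℤ} (hs : s % 2 ^ k = s' % 2 ^ k) :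
    bk d m s = bk d m s' := by
  unfold bk
  congr 1
  refine filter_congr fun b hb => ?_
  have hb' : d * b + d ≤ k := by
    have := mem_range.1 hb
    calc d * b + d = d * (b + 1) := by ring
      _ ≤ d * m := Nat.mul_le_mul_left _ this
      _ ≤ k := h
  have h1 : s % 2 ^ (d * b + d) = s' % 2 ^ (d * b + d) := by
    have hd : (2 : ℤ) ^ (d * b + d) ∣ 2 ^ k := pow_dvd_pow _ hb'
    rw [← Int.emod_emod_of_dvd s hd, hs, Int.emod_emod_of_dvd s' hd]
  rw [jt_congr ((mod_iff (d * b) d s s').1 h1).2]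

theorem bk_succ (d m : ℕ) (s : ℤ) :
    bk d (m + 1) s = bk d m (T^[d] s) + (if 2 * jt d s ≤ d then 1 else 0) := by
  unfold bk
  rw [card_filter, card_filter, sum_range_succ']
  congr 1
  refine sum_congr rfl fun b _ => ?_
  have : T^[d * (b + 1)] s = T^[d * b] (T^[d] s) := by
    rw [mul_add, mul_one, Function.iterate_add_apply]
  rw [this]

theorem sum_bk (c : ℝ) (d : ℕ) : ∀ m k : ℕ, d * m ≤ k →
    ∑ r ∈ range (2 ^ k), pw k (r : ℤ) * Real.exp (c * bk d m (r : ℤ)) =
      (∑ r ∈ range (2 ^ d), pw d (r : ℤ) *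
        Real.exp (c * (if 2 * jt d (r : ℤ) ≤ d then 1 else 0 : ℕ))) ^ m := by
  intro m
  induction m with
  | zero =>
    intro k _
    simp only [bk, range_zero, filter_empty, card_empty, Nat.cast_zero, mul_zero, Real.exp_zero,
      mul_one, pow_zero]
    exact sum_pw k
  | succ m ih =>
    intro k hk
    obtain ⟨k', rfl⟩ : ∃ k', k = d + k' := ⟨k - d, by
      have : d * (m + 1) = d + d * m := by ring
      omega⟩
    have hk' : d * m ≤ k' := by
      have : d * (m + 1) = d + d * m := by ring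
      omega
    have h1 : ∀ r : ℤ, pw (d + k') r * Real.exp (c * bk d (m + 1) r) =
        (pw d r * Real.exp (c * (if 2 * jt d r ≤ d then 1 else 0 : ℕ))) *
          (pw k' (T^[d] r) * Real.exp (c * bk d m (T^[d] r))) := by
      intro r
      rw [pw_add, bk_succ, Nat.cast_add, mul_add, Real.exp_add]
      ring
    refine (sum_congr rfl fun (r : ℕ) _ => h1 (r : ℤ)).trans ?_
    rw [sum_split d k' (fun r s => (pw d r * Real.exp (c * (if 2 * jt d r ≤ d then 1 else 0 : ℕ))) *
      (pw k' s * Real.exp (c * bk d m s)))]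
    · rw [← sum_mul_sum, ih k' hk', pow_succ]
      ring
    · intro r r' s s' hr hs
      rw [pw_congr hr, pw_congr hs, jt_congr hr, bk_congr hk' hs]

/-- geometric mean of the two weights -/
noncomputable def sg : ℝ := Real.sqrt (rh * (1 - rh))

theorem sg_sq : sg ^ 2 = rh * (1 - rh) := by
  unfold sg
  refine Real.sq_sqrt ?_
  have := rh_gt
  have := rh_lt
  nlinarith

theorem sg_pos : 0 < sg := by
  unfold sg
  refine Real.sqrt_pos.2 ?_
  have := rh_gt
  have := rh_lt
  nlinarith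

theorem two_sg_lt : 2 * sg < 1 := by
  have h1 := sg_sq
  have h2 := sg_pos
  have h3 := rh_gt
  have h4 := rh_lt
  nlinarith

theorem bad_weight {d : ℕ} {r : ℤ} (h : 2 * jt d r ≤ d) : pw d r ≤ sg ^ d := by
  unfold pw
  have h3 := rh_gt
  have h4 := rh_lt
  have h5 : 1 - rh ≤ sg := by
    unfold sg
    refine Real.le_sqrt_of_sq_le ?_
    nlinarith
  obtain ⟨e, he⟩ : ∃ e, d = 2 * jt d r + e := ⟨d - 2 * jt d r, by omega⟩
  set j := jt d r
  have e1 : rh ^ j * (1 - rh) ^ (d - j) = (rh * (1 - rh)) ^ j * (1 - rh) ^ e := by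
    have : d - j = j + e := by omega
    rw [this, pow_add, mul_pow]
    ring
  rw [e1, ← sg_sq, ← pow_mul]
  have e2 : sg ^ d = sg ^ (2 * j) * sg ^ e := by
    rw [← pow_add, ← he]
  rw [e2]
  refine mul_le_mul_of_nonneg_left ?_ (pow_nonneg sg_pos.le _)
  exact pow_le_pow_left₀ (by linarith) h5 _

/-- the rate -/
noncomputable def cz : ℝ := -Real.log (2 * sg) / 2

theorem cz_pos : 0 < cz := by
  unfold cz
  have := Real.log_neg (by linarith [sg_pos] : (0 : ℝ) < 2 * sg) two_sg_lt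
  linarith

theorem one_block (d : ℕ) : ∑ r ∈ range (2 ^ d), pw d (r : ℤ) *
    Real.exp (cz * d * (if 2 * jt d (r : ℤ) ≤ d then 1 else 0 : ℕ)) ≤ 2 := by
  have h1 : ∀ r ∈ range (2 ^ d), pw d (r : ℤ) *
      Real.exp (cz * d * (if 2 * jt d (r : ℤ) ≤ d then 1 else 0 : ℕ)) ≤
        pw d (r : ℤ) + sg ^ d * Real.exp (cz * d) := by
    intro r _
    have hp := pw_pos d (r : ℤ)
    have hs : 0 < sg ^ d := pow_pos sg_pos _
    have he := Real.exp_pos (cz * d)
    split_ifs with h
    · have := bad_weight h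
      rw [Nat.cast_one, mul_one]
      nlinarith
    · rw [Nat.cast_zero, mul_zero, Real.exp_zero]
      nlinarith
  refine (sum_le_sum h1).trans ?_
  rw [sum_add_distrib, sum_pw, sum_const, card_range, nsmul_eq_mul]
  have h2 : ((2 ^ d : ℕ) : ℝ) * (sg ^ d * Real.exp (cz * d)) = Real.exp (-cz * d) := by
    have e1 : (2 * sg) ^ d = Real.exp (-2 * cz * d) := by
      have : -2 * cz * d = (d : ℝ) * Real.log (2 * sg) := by
        unfold cz; ring
      rw [this, ← Real.log_pow, Real.exp_log]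
      exact pow_pos (by linarith [sg_pos]) _
    calc ((2 ^ d : ℕ) : ℝ) * (sg ^ d * Real.exp (cz * d)) =
        (2 * sg) ^ d * Real.exp (cz * d) := by push_cast; rw [mul_pow]; ring
      _ = _ := by rw [e1, ← Real.exp_add]; congr 1; ring
  rw [h2]
  have h3 : Real.exp (-cz * d) ≤ 1 := by
    rw [Real.exp_le_one_iff]
    have := cz_pos
    have : (0 : ℝ) ≤ d := Nat.cast_nonneg d
    nlinarith
  linarith

theorem blocks_zero {k d m : ℕ} (h : d * m ≤ k) :
    ∑ r ∈ range (2 ^ k), pw k (r : ℤ) * Real.exp (cz * d * bk d m (r : ℤ)) ≤ 2 ^ m := by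
  rw [sum_bk (cz * d) d m k h]
  refine pow_le_pow_left₀ ?_ (one_block d) m
  exact sum_nonneg fun r _ => mul_nonneg (pw_pos _ _).le (Real.exp_pos _).le

theorem bk_iter (a d m : ℕ) (r : ℤ) :
    ((range m).filter fun b => 2 * jt d (T^[a + d * b] r) ≤ d).card = bk d m (T^[a] r) := by
  unfold bk
  congr 1
  refine filter_congr fun b _ => ?_
  rw [add_comm a, Function.iterate_add_apply]

theorem blocks_cz {k a d m : ℕ} (h : a + d * m ≤ k) :
    ∑ r ∈ range (2 ^ k), pw k (r : ℤ) * Real.exp (cz * d *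
      ((range m).filter fun b => 2 * jt d (T^[a + d * b] (r : ℤ)) ≤ d).card) ≤ 2 ^ m := by
  obtain ⟨k', rfl⟩ : ∃ k', k = a + k' := ⟨k - a, by omega⟩
  have hk' : d * m ≤ k' := by omega
  have h1 : ∀ r : ℤ, pw (a + k') r * Real.exp (cz * d *
      ((range m).filter fun b => 2 * jt d (T^[a + d * b] r) ≤ d).card) =
        pw a r * (pw k' (T^[a] r) * Real.exp (cz * d * bk d m (T^[a] r))) := by
    intro r
    rw [bk_iter, pw_add]
    ring
  refine (sum_congr rfl fun (r : ℕ) _ => h1 (r : ℤ)).trans_le ?_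
  rw [sum_split a k' (fun r s => pw a r * (pw k' s * Real.exp (cz * d * bk d m s)))]
  · rw [← sum_mul_sum, sum_pw, one_mul]
    exact blocks_zero hk'
  · intro r r' s s' hr hs
    rw [pw_congr hr, pw_congr hs, bk_congr hk' hs]

theorem exp_blocks : ∃ c0 : ℝ, 0 < c0 ∧ ∀ k a d m : ℕ, 1 ≤ d → a + d * m ≤ k →
    ∑ r ∈ range (2 ^ k), pw k (r : ℤ) * Real.exp (c0 * d *
      ((range m).filter fun b => 2 * jt d (T^[a + d * b] (r : ℤ)) ≤ d).card) ≤ 2 ^ m :=
  ⟨cz, cz_pos, fun _ _ _ _ _ h => blocks_cz h⟩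

/-- comparison with the Bernoulli weights -/
theorem sum_comp {k k2 : ℕ} {D : ℝ} {E : Finset ℤ} (h : Setup k k2 D E) (g : ℤ → ℝ)
    (hg : ∀ r, 0 ≤ g r) (hc : ∀ r r' : ℤ, r % 2 ^ k = r' % 2 ^ k → g r = g r') :
    ∑ n ∈ E, g (T^[k - k2] n) ≤ D * E.card * ∑ r ∈ range (2 ^ k), pw k (r : ℤ) * g (r : ℤ) := by
  have hpos : (0 : ℤ) < 2 ^ k := by positivity
  have hm : ∀ n ∈ E, (T^[k - k2] n % 2 ^ k).toNat ∈ range (2 ^ k) := by
    intro n _
    rw [mem_range]
    exact ba_toNat_lt _ _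
  rw [← sum_fiberwise_of_maps_to hm, mul_sum]
  refine sum_le_sum fun r hr => ?_
  have e1 : ∑ n ∈ E with (T^[k - k2] n % 2 ^ k).toNat = r, g (T^[k - k2] n) =
      (((E.filter fun n => T^[k - k2] n % 2 ^ k = (r : ℤ) % 2 ^ k).card : ℕ) : ℝ) * g (r : ℤ) := by
    have hr' : (r : ℤ) % 2 ^ k = r := by
      refine Int.emod_eq_of_lt (by positivity) ?_
      exact_mod_cast mem_range.1 hr
    have e2 : (E.filter fun n => (T^[k - k2] n % 2 ^ k).toNat = r) =
        E.filter fun n => T^[k - k2] n % 2 ^ k = (r : ℤ) % 2 ^ k := by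
      ext n
      simp only [mem_filter, and_congr_right_iff]
      intro _
      have := ba_toNat (T^[k - k2] n) k
      rw [hr']
      omega
    rw [e2, ← nsmul_eq_mul, ← sum_const]
    refine sum_congr rfl fun n hn => ?_
    exact hc _ _ (mem_filter.1 hn).2
  rw [e1]
  have := mul_le_mul_of_nonneg_right (h.d1 (r : ℤ)) (hg (r : ℤ))
  linarith

/-- the blocks of one residue class -/
theorem one_class {k k2 : ℕ} {D : ℝ} {E : Finset ℤ} (h : Setup k k2 D E) {a d m : ℕ}
    (ham : k2 + a + d * m ≤ k) :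
    cz * d * ∑ b ∈ range m, (((E.filter fun n => 2 * jt d (T^[k + (a + d * b)] n) ≤ d).card : ℕ) : ℝ)
      ≤ E.card * (Real.log D + m * Real.log 2) := by
  have hD0 : 0 < D := by linarith [h.hD]
  set x : ℤ → ℝ := fun s => cz * d *
      ((range m).filter fun b => 2 * jt d (T^[k2 + a + d * b] s) ≤ d).card with hx
  set μ : ℝ := Real.log D + m * Real.log 2 with hμ
  have hexp : Real.exp μ = D * 2 ^ m := by
    rw [hμ, Real.exp_add, Real.exp_log hD0, ← Real.log_pow, Real.exp_log (by positivity)]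
  have h1 : ∑ n ∈ E, Real.exp (x (T^[k - k2] n)) ≤ E.card * Real.exp μ := by
    refine (sum_comp h (fun s => Real.exp (x s)) (fun s => (Real.exp_pos _).le) ?_).trans ?_
    · intro r r' hr
      simp only [hx]
      have e : ((range m).filter fun b => 2 * jt d (T^[k2 + a + d * b] r) ≤ d) =
          (range m).filter fun b => 2 * jt d (T^[k2 + a + d * b] r') ≤ d := by
        refine filter_congr fun b hb => ?_
        have hb' : (k2 + a + d * b) + d ≤ k := by
          have := mem_range.1 hb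
          calc (k2 + a + d * b) + d = k2 + a + d * (b + 1) := by ring
            _ ≤ k2 + a + d * m := by gcongr; omega
            _ ≤ k := ham
        have h1 : r % 2 ^ ((k2 + a + d * b) + d) = r' % 2 ^ ((k2 + a + d * b) + d) := by
          have hd : (2 : ℤ) ^ ((k2 + a + d * b) + d) ∣ 2 ^ k := pow_dvd_pow _ hb'
          rw [← Int.emod_emod_of_dvd r hd, hr, Int.emod_emod_of_dvd r' hd]
        rw [jt_congr ((mod_iff (k2 + a + d * b) d r r').1 h1).2]
      rw [e]
    · have h2 := blocks_cz (k := k) (a := k2 + a) (d := d) (m := m) ham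
      rw [hexp]
      have h3 : (0 : ℝ) ≤ D * E.card := by positivity
      have := mul_le_mul_of_nonneg_left h2 h3
      calc _ ≤ D * E.card * 2 ^ m := this
        _ = _ := by ring
  have h2 : ∑ n ∈ E, (x (T^[k - k2] n) - μ) ≤ 0 := by
    have h3 : ∑ n ∈ E, (x (T^[k - k2] n) - μ + 1) ≤ ∑ n ∈ E, Real.exp (x (T^[k - k2] n) - μ) :=
      sum_le_sum fun n _ => Real.add_one_le_exp _
    have h4 : ∑ n ∈ E, Real.exp (x (T^[k - k2] n) - μ) =
        (∑ n ∈ E, Real.exp (x (T^[k - k2] n))) * Real.exp (-μ) := by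
      rw [sum_mul]
      refine sum_congr rfl fun n _ => ?_
      rw [sub_eq_add_neg, Real.exp_add]
    have h5 : (∑ n ∈ E, Real.exp (x (T^[k - k2] n))) * Real.exp (-μ) ≤ E.card := by
      have := mul_le_mul_of_nonneg_right h1 (Real.exp_pos (-μ)).le
      rw [mul_assoc, ← Real.exp_add, add_neg_cancel, Real.exp_zero, mul_one] at this
      exact this
    rw [sum_add_distrib, sum_const, nsmul_eq_mul, mul_one] at h3
    linarith
  rw [sum_sub_distrib, sum_const, nsmul_eq_mul] at h2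
  have h3 : ∑ n ∈ E, x (T^[k - k2] n) = cz * d *
      ∑ b ∈ range m, (((E.filter fun n => 2 * jt d (T^[k + (a + d * b)] n) ≤ d).card : ℕ) : ℝ) := by
    simp only [hx]
    rw [← mul_sum]
    congr 1
    have e1 : ∀ n ∈ E, ((((range m).filter fun b =>
        2 * jt d (T^[k2 + a + d * b] (T^[k - k2] n)) ≤ d).card : ℕ) : ℝ) =
        ∑ b ∈ range m, if 2 * jt d (T^[k + (a + d * b)] n) ≤ d then (1 : ℝ) else 0 := by
      intro n _
      rw [card_filter, Nat.cast_sum]
      refine sum_congr rfl fun b _ => ?_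
      have e2 : k2 + a + d * b + (k - k2) = k + (a + d * b) := by
        have := h.hk
        omega
      have : T^[k2 + a + d * b] (T^[k - k2] n) = T^[k + (a + d * b)] n := by
        rw [← Function.iterate_add_apply, e2]
      rw [this]
      split_ifs <;> simp
    rw [sum_congr rfl e1, sum_comm]
    refine sum_congr rfl fun b _ => ?_
    rw [card_filter, Nat.cast_sum]
    refine sum_congr rfl fun n _ => ?_
    split_ifs <;> simp
  rw [h3] at h2
  linarith

theorem sum_classes {d : ℕ} (hd : 1 ≤ d) (l : ℕ) (f : ℕ → ℝ) :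
    ∑ i ∈ range l, f i = ∑ a ∈ range d, ∑ b ∈ range ((l + d - 1 - a) / d), f (a + d * b) := by
  have hm : ∀ i ∈ range l, i % d ∈ range d := fun i _ => mem_range.2 (Nat.mod_lt _ hd)
  rw [← sum_fiberwise_of_maps_to hm]
  refine sum_congr rfl fun a ha => ?_
  have ha' := mem_range.1 ha
  refine sum_nbij' (fun i => i / d) (fun b => a + d * b) ?_ ?_ ?_ ?_ ?_
  · intro i hi
    rw [mem_filter, mem_range] at hi
    rw [mem_range]
    have h1 := Nat.mod_add_div i d
    rw [hi.2] at h1
    rw [Nat.lt_iff_add_one_le, Nat.le_div_iff_mul_le hd]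
    have : (i / d + 1) * d = d * (i / d) + d := by ring
    omega
  · intro b hb
    rw [mem_range, Nat.lt_iff_add_one_le, Nat.le_div_iff_mul_le hd] at hb
    rw [mem_filter, mem_range]
    have : (b + 1) * d = d * b + d := by ring
    refine ⟨by omega, ?_⟩
    rw [Nat.add_mul_mod_self_left, Nat.mod_eq_of_lt ha']
  · intro i hi
    rw [mem_filter, mem_range] at hi
    have h1 := Nat.mod_add_div i d
    rw [hi.2] at h1
    exact h1
  · intro b _
    rw [Nat.add_mul_div_left _ _ hd, Nat.div_eq_of_lt ha', zero_add]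
  · intro i hi
    rw [mem_filter, mem_range] at hi
    have h1 := Nat.mod_add_div i d
    rw [hi.2] at h1
    rw [h1]

theorem bad_blocks : ∃ c0 : ℝ, 0 < c0 ∧ ∀ (k k2 : ℕ) (D : ℝ) (E : Finset ℤ), Setup k k2 D E →
    ∀ d l : ℕ, 1 ≤ d → k2 + l + d ≤ k →
      ∑ i ∈ range l, (((E.filter fun n => 2 * jt d (T^[k + i] n) ≤ d).card : ℕ) : ℝ) ≤
        E.card * ((Real.log D + ((l : ℝ) / d + 1) * Real.log 2) / c0) := by
  refine ⟨cz, cz_pos, ?_⟩
  intro k k2 D E h d l hd hl
  have hd0 : (0 : ℝ) < d := by exact_mod_cast hd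
  have hlog2 : 0 < Real.log 2 := Real.log_pos (by norm_num)
  rw [sum_classes hd l]
  have h1 : ∀ a ∈ range d, cz * d * ∑ b ∈ range ((l + d - 1 - a) / d),
      (((E.filter fun n => 2 * jt d (T^[k + (a + d * b)] n) ≤ d).card : ℕ) : ℝ) ≤
        E.card * (Real.log D + ((l : ℝ) / d + 1) * Real.log 2) := by
    intro a ha
    have ha' := mem_range.1 ha
    have h2 : d * ((l + d - 1 - a) / d) ≤ l + d - 1 - a := Nat.mul_div_le _ _
    refine (one_class h (a := a) (d := d) (m := (l + d - 1 - a) / d) (by omega)).trans ?_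
    have h3 : (((l + d - 1 - a) / d : ℕ) : ℝ) ≤ (l : ℝ) / d + 1 := by
      have h4 : (d : ℝ) * (((l + d - 1 - a) / d : ℕ) : ℝ) ≤ (l : ℝ) + d := by
        have : d * ((l + d - 1 - a) / d) ≤ l + d := by omega
        exact_mod_cast this
      have h5 : (l : ℝ) / d + 1 = ((l : ℝ) + d) / d := by field_simp
      rw [h5, le_div_iff₀ hd0]
      linarith
    gcongr
  have h2 := sum_le_sum h1
  rw [← mul_sum, sum_const, card_range, nsmul_eq_mul] at h2
  have hc := cz_pos
  rw [mul_div_assoc', le_div_iff₀ hc]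
  have h3 : (d : ℝ) * ((∑ a ∈ range d, ∑ b ∈ range ((l + d - 1 - a) / d),
      (((E.filter fun n => 2 * jt d (T^[k + (a + d * b)] n) ≤ d).card : ℕ) : ℝ)) * cz) ≤
      d * (E.card * (Real.log D + ((l : ℝ) / d + 1) * Real.log 2)) := by
    calc _ = cz * d * ∑ a ∈ range d, ∑ b ∈ range ((l + d - 1 - a) / d),
      (((E.filter fun n => 2 * jt d (T^[k + (a + d * b)] n) ≤ d).card : ℕ) : ℝ) := by ring
      _ ≤ _ := h2
  exact le_of_mul_le_mul_left h3 hd0

end Pool.Agent.Collatz3.PB
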