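import Pool.Agent.Collatz3.PBDefs

set_option autoImplicit false

/-!
Powers and 3x+1 orbits: numerical constants.
-/

open Finset
open scoped Classical

namespace Pool.Agent.Collatz3.PB

open Pool.Agent.Helper14 (T)

private theorem log_three_pos : 0 < Real.log 3 := Real.log_pos (by norm_num)

theorem rh_gt : (0.63 : ℝ) < rh := by
  unfold rh
  rw [lt_div_iff₀ log_three_pos]
  have h : Real.log ((3 : ℝ) ^ 63) < Real.log ((2 : ℝ) ^ 100) :=
    Real.log_lt_log (by positivity) (by norm_num)
  rw [Real.log_pow, Real.log_pow] at h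
  push_cast at h
  linarith

theorem rh_lt : rh < (0.631 : ℝ) := by
  unfold rh
  rw [div_lt_iff₀ log_three_pos]
  have h : Real.log ((2 : ℝ) ^ 84) < Real.log ((3 : ℝ) ^ 53) :=
    Real.log_lt_log (by positivity) (by norm_num)
  rw [Real.log_pow, Real.log_pow] at h
  push_cast at h
  have := log_three_pos
  linarith

theorem three_rh : Real.log 3 * rh = Real.log 2 := by
  unfold rh
  have := log_three_pos.ne'
  field_simp

theorem bt_gt : (1 : ℝ) < bt := by
  unfold bt
  have h1 := rh_gt
  have h2 := rh_lt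
  rw [lt_div_iff₀ (by linarith)]
  linarith

theorem log_bt_pos : 0 < Real.log bt := Real.log_pos bt_gt

theorem log_bt_le : Real.log bt ≤ 1 := by
  have h1 := rh_gt
  have h2 := rh_lt
  have h3 := bt_gt
  have h4 : bt ≤ 2 := by
    unfold bt
    rw [div_le_iff₀ (by linarith)]
    linarith
  have h5 := Real.log_le_sub_one_of_pos (show 0 < bt by linarith)
  linarith

private theorem log_rh_le : Real.log rh ≤ -0.45 := by
  have h1 := rh_gt
  have h2 := rh_lt
  have he := Real.exp_one_lt_d9
  have hp : 0 < rh * rh * Real.exp 1 := by positivity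
  have h3 := Real.log_le_sub_one_of_pos hp
  rw [Real.log_mul (by positivity) (Real.exp_pos _).ne', Real.log_exp,
    Real.log_mul (by positivity) (by positivity)] at h3
  have h4 : rh * rh ≤ 0.631 * 0.631 := by nlinarith
  have h5 : rh * rh * Real.exp 1 ≤ 0.631 * 0.631 * 2.7182818286 :=
    mul_le_mul h4 he.le (Real.exp_pos _).le (by norm_num)
  norm_num at h5 ⊢
  linarith

private theorem log_one_sub_rh_le : Real.log (1 - rh) ≤ -0.99 := by
  have h1 := rh_gt
  have h2 := rh_lt
  have he := Real.exp_one_lt_d9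
  have h0 : 0 < 1 - rh := by linarith
  have hp : 0 < (1 - rh) * Real.exp 1 := by positivity
  have h3 := Real.log_le_sub_one_of_pos hp
  rw [Real.log_mul (by positivity) (Real.exp_pos _).ne', Real.log_exp] at h3
  have h5 : (1 - rh) * Real.exp 1 ≤ 0.37 * 2.7182818286 :=
    mul_le_mul (by linarith) he.le (Real.exp_pos _).le (by norm_num)
  norm_num at h5 ⊢
  linarith

private theorem Hn_eq : Hn = -(rh * Real.log rh) - (1 - rh) * Real.log (1 - rh) := by
  unfold Hn Real.binEntropy
  rw [Real.log_inv, Real.log_inv]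
  ring

theorem Hn_pos : (0.6 : ℝ) < Hn := by
  have h1 := rh_gt
  have h2 := rh_lt
  have h3 := log_rh_le
  have h4 := log_one_sub_rh_le
  rw [Hn_eq]
  nlinarith [mul_le_mul_of_nonneg_left h3 (show 0 ≤ rh by linarith),
    mul_le_mul_of_nonneg_left h4 (show 0 ≤ 1 - rh by linarith)]

theorem Hn_lt : Hn < Real.log 2 := by
  unfold Hn
  rw [Real.binEntropy_lt_log_two]
  have h1 := rh_gt
  intro h
  rw [h] at h1
  norm_num at h1

/-- weight of a word with `j` ones -/
theorem log_weight (t j : ℕ) (h : j ≤ t) : Real.log (rh ^ j * (1 - rh) ^ (t - j)) =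
    -(Hn * t) + (j - rh * t) * Real.log bt := by
  have h1 := rh_gt
  have h2 := rh_lt
  have h3 : 0 < 1 - rh := by linarith
  have h4 : 0 < rh := by linarith
  unfold bt
  rw [Real.log_mul (by positivity) (by positivity), Real.log_pow, Real.log_pow,
    Real.log_div h4.ne' h3.ne', Hn_eq]
  push_cast [h]
  ring

end Pool.Agent.Collatz3.PB
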