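import Pool.Agent.Collatz3.PBBasic
import Pool.Agent.Collatz3.PBConst

set_option autoImplicit false

/-!
PowerBarrier, module COUNT: the number of residues with many odd terms at two times.
-/

open Finset
open scoped Classical

namespace Pool.Agent.Collatz3.PB

open Pool.Agent.Helper14 (T)

/-- exponential moment of one parity -/
theorem cnt_step {s : ℝ} (hs0 : 0 ≤ s) (hs : s ≤ 1) :
    rh * Real.exp (s * (1 - rh)) + (1 - rh) * Real.exp (-(s * rh)) ≤ Real.exp (s ^ 2) := by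
  have r1 := rh_gt
  have r2 := rh_lt
  have e1 : Real.exp (s * (1 - rh)) ≤ 1 + s * (1 - rh) + (s * (1 - rh)) ^ 2 := by
    have h : |s * (1 - rh)| ≤ 1 := by
      rw [abs_of_nonneg (by nlinarith)]
      nlinarith
    have := (abs_le.1 (Real.abs_exp_sub_one_sub_id_le h)).2
    linarith
  have e2 : Real.exp (-(s * rh)) ≤ 1 + -(s * rh) + (-(s * rh)) ^ 2 := by
    have h : |-(s * rh)| ≤ 1 := by
      rw [abs_neg, abs_of_nonneg (by nlinarith)]
      nlinarith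
    have := (abs_le.1 (Real.abs_exp_sub_one_sub_id_le h)).2
    linarith
  have e3 : s ^ 2 + 1 ≤ Real.exp (s ^ 2) := Real.add_one_le_exp _
  have h1 := mul_le_mul_of_nonneg_left e1 (by linarith : (0 : ℝ) ≤ rh)
  have h2 := mul_le_mul_of_nonneg_left e2 (by linarith : (0 : ℝ) ≤ 1 - rh)
  have h3 : rh * (1 - rh) ≤ 1 := by nlinarith
  have h4 : rh * (1 + s * (1 - rh) + (s * (1 - rh)) ^ 2) +
      (1 - rh) * (1 + -(s * rh) + (-(s * rh)) ^ 2) = 1 + s ^ 2 * (rh * (1 - rh)) := by ring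
  have h5 : s ^ 2 * (rh * (1 - rh)) ≤ s ^ 2 * 1 :=
    mul_le_mul_of_nonneg_left h3 (sq_nonneg s)
  linarith

theorem cnt_term (s : ℝ) {t j : ℕ} (hj : j ≤ t) :
    rh ^ j * (1 - rh) ^ (t - j) * Real.exp (s * (j - rh * t)) =
      (rh * Real.exp (s * (1 - rh))) ^ j * ((1 - rh) * Real.exp (-(s * rh))) ^ (t - j) := by
  rw [mul_pow, mul_pow, ← Real.exp_nat_mul, ← Real.exp_nat_mul]
  have h : Real.exp (s * (j - rh * t)) =
      Real.exp (j * (s * (1 - rh))) * Real.exp (((t - j : ℕ) : ℝ) * (-(s * rh))) := by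
    rw [← Real.exp_add]
    congr 1
    rw [Nat.cast_sub hj]
    ring
  rw [h]
  ring

theorem cnt_moment {s : ℝ} (hs0 : 0 ≤ s) (hs : s ≤ 1) {k k1 : ℕ} (hk : k1 ≤ k) :
    ∑ r ∈ range (2 ^ k), pw k (r : ℤ) * Real.exp (s * (jt k1 (r : ℤ) - rh * k1)) ≤
      Real.exp (k1 * s ^ 2) := by
  obtain ⟨b, rfl⟩ := Nat.exists_eq_add_of_le hk
  have r1 := rh_gt
  have r2 := rh_lt
  have h1 := sum_split k1 b (fun r u => pw k1 r * Real.exp (s * (jt k1 r - rh * k1)) * pw b u)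
    (by
      intro r r' u u' h h'
      show pw k1 r * Real.exp (s * (jt k1 r - rh * k1)) * pw b u =
        pw k1 r' * Real.exp (s * (jt k1 r' - rh * k1)) * pw b u'
      rw [pw_congr h, jt_congr h, pw_congr h'])
  have h2 : ∑ r ∈ range (2 ^ (k1 + b)), pw (k1 + b) (r : ℤ) *
      Real.exp (s * (jt k1 (r : ℤ) - rh * k1)) =
      ∑ r ∈ range (2 ^ (k1 + b)), pw k1 (r : ℤ) * Real.exp (s * (jt k1 (r : ℤ) - rh * k1)) *
        pw b (T^[k1] (r : ℤ)) := by
    apply sum_congr rfl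
    intro r _
    rw [pw_add]
    ring
  rw [h2]
  refine (le_of_eq h1).trans ?_
  have h3 : ∀ r ∈ range (2 ^ k1), ∑ u ∈ range (2 ^ b),
      pw k1 (r : ℤ) * Real.exp (s * (jt k1 (r : ℤ) - rh * k1)) * pw b (u : ℤ) =
      (rh * Real.exp (s * (1 - rh))) ^ jt k1 (r : ℤ) *
        ((1 - rh) * Real.exp (-(s * rh))) ^ (k1 - jt k1 (r : ℤ)) := by
    intro r _
    rw [← mul_sum, sum_pw, mul_one, pw, cnt_term s (jt_le _ _)]
  rw [sum_congr rfl h3, sum_pow]
  have h4 : Real.exp (k1 * s ^ 2) = Real.exp (s ^ 2) ^ k1 := by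
    rw [← Real.exp_nat_mul]
  rw [h4]
  apply pow_le_pow_left₀ _ (cnt_step hs0 hs)
  have := Real.exp_pos (s * (1 - rh))
  have := Real.exp_pos (-(s * rh))
  have : 0 < rh * Real.exp (s * (1 - rh)) := by
    apply mul_pos <;> [linarith; assumption]
  have : 0 < (1 - rh) * Real.exp (-(s * rh)) := by
    apply mul_pos <;> [linarith; assumption]
  linarith

theorem count {k k1 : ℕ} (h1 : 1 ≤ k1) (hk : k1 ≤ k) {a e : ℝ} (ha : 0 ≤ a) (he : 0 ≤ e)
    (he' : e ≤ 2 * k1) :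
    ((((range (2 ^ k)).filter fun r : ℕ => rh * k - a ≤ jt k (r : ℤ) ∧
      rh * k1 + e ≤ jt k1 (r : ℤ)).card : ℕ) : ℝ) ≤
      Real.exp (Hn * k + a * Real.log bt - e ^ 2 / (4 * k)) := by
  have hk1 : (0 : ℝ) < k1 := by exact_mod_cast h1
  have hk' : (k1 : ℝ) ≤ k := by exact_mod_cast hk
  set s : ℝ := e / (2 * k1) with hs
  have hs0 : 0 ≤ s := by positivity
  have hs1 : s ≤ 1 := by
    rw [hs, div_le_one (by positivity)]
    exact he'
  have hb := log_bt_pos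
  set C : ℝ := Real.exp (Hn * k + a * Real.log bt - s * e) with hC
  have hle : ∀ r ∈ (range (2 ^ k)).filter fun r : ℕ => rh * k - a ≤ jt k (r : ℤ) ∧
      rh * k1 + e ≤ jt k1 (r : ℤ), (1 : ℝ) ≤
      C * (pw k (r : ℤ) * Real.exp (s * (jt k1 (r : ℤ) - rh * k1))) := by
    intro r hr
    rw [mem_filter] at hr
    obtain ⟨-, hr1, hr2⟩ := hr
    have hp := pw_pos k (r : ℤ)
    rw [← Real.exp_log hp, hC, ← Real.exp_add, ← Real.exp_add, log_pw]
    apply Real.one_le_exp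
    have t1 : 0 ≤ (jt k (r : ℤ) - (rh * k - a)) * Real.log bt :=
      mul_nonneg (by linarith) hb.le
    have t2 : 0 ≤ s * (jt k1 (r : ℤ) - (rh * k1 + e)) := mul_nonneg hs0 (by linarith)
    nlinarith
  have hcard : ((((range (2 ^ k)).filter fun r : ℕ => rh * k - a ≤ jt k (r : ℤ) ∧
      rh * k1 + e ≤ jt k1 (r : ℤ)).card : ℕ) : ℝ) ≤
      ∑ r ∈ range (2 ^ k), C * (pw k (r : ℤ) * Real.exp (s * (jt k1 (r : ℤ) - rh * k1))) := by
    calc ((((range (2 ^ k)).filter fun r : ℕ => rh * k - a ≤ jt k (r : ℤ) ∧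
      rh * k1 + e ≤ jt k1 (r : ℤ)).card : ℕ) : ℝ) = ∑ r ∈ (range (2 ^ k)).filter
          fun r : ℕ => rh * k - a ≤ jt k (r : ℤ) ∧ rh * k1 + e ≤ jt k1 (r : ℤ), (1 : ℝ) := by
            simp
      _ ≤ ∑ r ∈ (range (2 ^ k)).filter
          fun r : ℕ => rh * k - a ≤ jt k (r : ℤ) ∧ rh * k1 + e ≤ jt k1 (r : ℤ),
          C * (pw k (r : ℤ) * Real.exp (s * (jt k1 (r : ℤ) - rh * k1))) := sum_le_sum hle
      _ ≤ _ := by
        apply sum_le_sum_of_subset_of_nonneg (filter_subset _ _)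
        intro r _ _
        have := pw_pos k (r : ℤ)
        positivity
  rw [← mul_sum] at hcard
  refine hcard.trans ((mul_le_mul_of_nonneg_left (cnt_moment hs0 hs1 hk)
    (Real.exp_pos _).le).trans ?_)
  rw [← Real.exp_add]
  apply Real.exp_le_exp.2
  have h5 : -(s * e) + k1 * s ^ 2 = -(e ^ 2 / (4 * k1)) := by
    rw [hs]
    field_simp
    ring
  have h6 : e ^ 2 / (4 * k) ≤ e ^ 2 / (4 * k1) := by
    apply div_le_div_of_nonneg_left (sq_nonneg e) (by positivity) (by linarith)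
  linarith

end Pool.Agent.Collatz3.PB
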