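import Pool.Agent.Collatz3.PBSize
import Pool.Agent.Collatz3.PBCount

set_option autoImplicit false

/-!
PowerBarrier, module DENS: a large set of integers whose orbits do not descend by a power contains
a large set satisfying `Setup`.
-/

open Finset
open scoped Classical

namespace Pool.Agent.Collatz3.PB

open Pool.Agent.Helper14 (T)

/-- cubic lower bound of the exponential -/
theorem dens_cubic {x : ℝ} (hx : 0 ≤ x) : x ^ 3 / 6 ≤ Real.exp x := by
  have h := Real.pow_div_factorial_le_exp x hx 3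
  have h6 : ((3 : ℕ).factorial : ℝ) = 6 := by norm_num [Nat.factorial]
  rwa [h6] at h

/-- integers in a residue class and in a centred interval -/
theorem dens_class (k : ℕ) (r : ℤ) {M : ℝ} (hM : 0 ≤ M) (S : Finset ℤ)
    (hS : ∀ m ∈ S, m % 2 ^ k = r % 2 ^ k ∧ |(m : ℝ)| ≤ M * 2 ^ k) :
    (S.card : ℝ) ≤ 2 * M + 1 := by
  set ρ : ℤ := r % 2 ^ k with hρ
  have hp : (0 : ℝ) < 2 ^ k := by positivity
  have hpz : (0 : ℤ) < 2 ^ k := by positivity
  set x : ℝ := -M - ρ / 2 ^ k with hx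
  set y : ℝ := M - ρ / 2 ^ k with hy
  have hdec : ∀ m ∈ S, (m : ℝ) = 2 ^ k * ((m / 2 ^ k : ℤ) : ℝ) + ρ := by
    intro m hm
    have h1 : 2 ^ k * (m / 2 ^ k) + m % 2 ^ k = m := Int.mul_ediv_add_emod m (2 ^ k)
    rw [(hS m hm).1] at h1
    have h2 : ((2 ^ k * (m / 2 ^ k) + ρ : ℤ) : ℝ) = (m : ℝ) := by
      exact_mod_cast h1
    push_cast at h2
    rw [← h2]
  have hmaps : ∀ m ∈ S, m / 2 ^ k ∈ Finset.Icc ⌈x⌉ ⌊y⌋ := by
    intro m hm
    have h1 := hdec m hm
    have h2 := (hS m hm).2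
    rw [abs_le] at h2
    have hq : ((m / 2 ^ k : ℤ) : ℝ) = ((m : ℝ) - ρ) / 2 ^ k := by
      rw [h1]
      field_simp
      ring
    rw [Finset.mem_Icc, Int.ceil_le, Int.le_floor, hq]
    constructor
    · rw [hx, le_div_iff₀ hp, sub_mul, div_mul_cancel₀ _ hp.ne']
      linarith [h2.1]
    · rw [hy, div_le_iff₀ hp, sub_mul, div_mul_cancel₀ _ hp.ne']
      linarith [h2.2]
  have hinj : Set.InjOn (fun m : ℤ => m / 2 ^ k) (S : Set ℤ) := by
    intro m hm m' hm' h
    have h1 := hdec m hm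
    have h2 := hdec m' hm'
    simp only at h
    rw [h] at h1
    have h3 : (m : ℝ) = m' := by rw [h1, h2]
    exact_mod_cast h3
  have hcard : S.card ≤ (Finset.Icc ⌈x⌉ ⌊y⌋).card :=
    Finset.card_le_card_of_injOn _ hmaps hinj
  rw [Int.card_Icc] at hcard
  have h1 : (S.card : ℝ) ≤ ((⌊y⌋ + 1 - ⌈x⌉).toNat : ℝ) := by exact_mod_cast hcard
  refine h1.trans ?_
  rcases le_total 0 (⌊y⌋ + 1 - ⌈x⌉) with h | h
  · have h2 : (((⌊y⌋ + 1 - ⌈x⌉).toNat : ℤ) : ℝ) = ((⌊y⌋ + 1 - ⌈x⌉ : ℤ) : ℝ) := by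
      rw [Int.toNat_of_nonneg h]
    rw [Int.cast_natCast] at h2
    rw [h2]
    push_cast
    have h3 := Int.floor_le y
    have h4 := Int.le_ceil x
    have h5 : y - x = 2 * M := by rw [hx, hy]; ring
    linarith
  · rw [Int.toNat_of_nonpos h]
    simp only [Nat.cast_zero]
    linarith

/-- the number of elements of `S` whose iterate is in a given class -/
theorem dens_fiber (k k' : ℕ) (r : ℤ) {M A : ℝ} (hM : 0 ≤ M) (hA : 0 ≤ A) (S : Finset ℤ)
    (hS : ∀ n ∈ S, T^[k'] n % 2 ^ k = r % 2 ^ k ∧ |((T^[k'] n : ℤ) : ℝ)| ≤ M * 2 ^ k)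
    (hS' : ∀ n ∈ S, ∀ i < k', (2 : ℝ) ^ i ≤ A * 3 ^ jt i n) :
    (S.card : ℝ) ≤ (2 * M + 1) * ((k' + 1) * (k' * A + 2)) := by
  have h1 : (S.card : ℝ) = ∑ m ∈ S.image (fun n => T^[k'] n),
      ((S.filter fun n => T^[k'] n = m).card : ℝ) := by
    have := Finset.card_eq_sum_card_image (fun n => T^[k'] n) S
    exact_mod_cast this
  have h2 : ∀ m ∈ S.image (fun n => T^[k'] n),
      ((S.filter fun n => T^[k'] n = m).card : ℝ) ≤ (k' + 1) * (k' * A + 2) := by
    intro m _
    refine mult k' hA m _ ?_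
    intro n hn
    rw [Finset.mem_filter] at hn
    exact ⟨hn.2, hS' n hn.1⟩
  have h3 : ((S.image (fun n => T^[k'] n)).card : ℝ) ≤ 2 * M + 1 := by
    refine dens_class k r hM _ ?_
    intro m hm
    rw [Finset.mem_image] at hm
    obtain ⟨n, hn, rfl⟩ := hm
    exact hS n hn
  rw [h1]
  refine (Finset.sum_le_sum h2).trans ?_
  rw [Finset.sum_const, nsmul_eq_mul]
  refine mul_le_mul_of_nonneg_right h3 (by positivity)

/-- the number of exceptional elements -/
theorem dens_exc {k k1 : ℕ} (h1 : 1 ≤ k1) (hk : k1 ≤ k) {a e : ℝ} (ha : 0 ≤ a) (he : 0 ≤ e)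
    (he' : e ≤ 2 * k1) (S : Finset ℤ) (hlen : ∀ n ∈ S, ∀ n' ∈ S, |n - n'| < 2 ^ k)
    (hS : ∀ n ∈ S, rh * k - a ≤ jt k n ∧ rh * k1 + e ≤ jt k1 n) :
    (S.card : ℝ) ≤ Real.exp (Hn * k + a * Real.log bt - e ^ 2 / (4 * k)) := by
  refine le_trans ?_ (count h1 hk ha he he')
  have hpz : (0 : ℤ) < 2 ^ k := by positivity
  have hr : ∀ n : ℤ, (((n % 2 ^ k).toNat : ℕ) : ℤ) = n % 2 ^ k := fun n =>
    Int.toNat_of_nonneg (Int.emod_nonneg _ hpz.ne')
  have hmod : ∀ n : ℤ, ((n % 2 ^ k).toNat : ℤ) % 2 ^ k = n % 2 ^ k := fun n => by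
    rw [hr, Int.emod_emod_of_dvd _ dvd_rfl]
  have hmod' : ∀ n : ℤ, ((n % 2 ^ k).toNat : ℤ) % 2 ^ k1 = n % 2 ^ k1 := fun n => by
    rw [hr, Int.emod_emod_of_dvd _ (pow_dvd_pow 2 hk)]
  have := Finset.card_le_card_of_injOn (s := S) (t := (range (2 ^ k)).filter fun r : ℕ =>
    rh * k - a ≤ jt k (r : ℤ) ∧ rh * k1 + e ≤ jt k1 (r : ℤ)) (fun n => (n % 2 ^ k).toNat)
    (fun n hn => by
      simp only [Finset.coe_filter, Set.mem_ofPred_eq, Finset.mem_range]
      refine ⟨?_, ?_, ?_⟩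
      · have h := Int.emod_lt_of_pos n hpz
        have h2 : (((n % 2 ^ k).toNat : ℕ) : ℤ) < ((2 ^ k : ℕ) : ℤ) := by
          rw [hr]
          push_cast
          exact h
        exact_mod_cast h2
      · rw [jt_congr (hmod n)]
        exact (hS n hn).1
      · rw [jt_congr (hmod' n)]
        exact (hS n hn).2)
    (fun n hn n' hn' h => by
      simp only at h
      have h1 : n % 2 ^ k = n' % 2 ^ k := by rw [← hr n, ← hr n', h]
      have h2 : (2 : ℤ) ^ k ∣ n - n' := Int.ModEq.dvd (show n' % 2 ^ k = n % 2 ^ k from h1.symm)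
      have h3 := Int.eq_zero_of_abs_lt_dvd h2 (hlen n hn n' hn')
      linarith)
  exact_mod_cast this

/-- lower bound of a weight -/
theorem dens_pw {k : ℕ} {n : ℤ} {c : ℝ} (hc : 0 ≤ c) (h : rh * k - c ≤ jt k n) :
    Real.exp (-(Hn * k) - c) ≤ pw k n := by
  rw [← Real.exp_log (pw_pos k n), log_pw]
  apply Real.exp_le_exp.2
  have h1 := log_bt_pos
  have h2 := log_bt_le
  have h3 : -c ≤ ((jt k n : ℝ) - rh * k) * Real.log bt := by
    have h4 : -c ≤ (jt k n : ℝ) - rh * k := by linarith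
    nlinarith
  linarith

/-- size of an iterate -/
theorem dens_size {k k' : ℕ} {n : ℤ} {e : ℝ} (hn : |n| ≤ 2 ^ k) (hj : (jt k' n : ℝ) ≤ rh * k' + e)
    (h : (2 : ℝ) ^ k' * |((T^[k'] n : ℤ) : ℝ)| ≤ 2 * 3 ^ jt k' n * |(n : ℝ)|) :
    |((T^[k'] n : ℤ) : ℝ)| ≤ 2 * (3 : ℝ) ^ e * 2 ^ k := by
  have hn' : |(n : ℝ)| ≤ 2 ^ k := by exact_mod_cast hn
  have h3 : (3 : ℝ) ^ jt k' n ≤ 2 ^ k' * (3 : ℝ) ^ e := by
    have h4 : (3 : ℝ) ^ jt k' n = (3 : ℝ) ^ ((jt k' n : ℕ) : ℝ) := (Real.rpow_natCast _ _).symm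
    rw [h4]
    refine (Real.rpow_le_rpow_of_exponent_le (by norm_num) hj).trans ?_
    rw [Real.rpow_add (by norm_num), Real.rpow_mul (by norm_num)]
    have h5 : (3 : ℝ) ^ rh = 2 := by
      rw [Real.rpow_def_of_pos (by norm_num), three_rh, Real.exp_log (by norm_num)]
    rw [h5, Real.rpow_natCast]
  have hp : (0 : ℝ) < 2 ^ k' := by positivity
  have h6 : (2 : ℝ) ^ k' * |((T^[k'] n : ℤ) : ℝ)| ≤ 2 ^ k' * (2 * (3 : ℝ) ^ e * 2 ^ k) := by
    refine h.trans ?_
    calc 2 * (3 : ℝ) ^ jt k' n * |(n : ℝ)| ≤ 2 * (2 ^ k' * (3 : ℝ) ^ e) * 2 ^ k := by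
          gcongr
      _ = 2 ^ k' * (2 * (3 : ℝ) ^ e * 2 ^ k) := by ring
  exact le_of_mul_le_mul_left h6 hp

/-- module DENS -/
theorem dens {ε6 : ℝ} (hε : 0 < ε6) : ∃ κ : ℝ, 0 < κ ∧ κ < 1 / 2 ∧ ∃ ε : ℝ, 0 < ε ∧ ∃ k₀ : ℕ,
    ∀ k : ℕ, k₀ ≤ k → ∀ E : Finset ℤ, (∀ n ∈ E, ∀ n' ∈ E, |n - n'| < 2 ^ k) →
      (∀ n ∈ E, |n| ≤ 2 ^ k) →
      (∀ n ∈ E, ∀ t ≤ 2 * k, (2 : ℝ) ^ ((1 - κ) * k) ≤ |((T^[t] n : ℤ) : ℝ)|) →
      Real.exp ((Hn - ε) * k) ≤ E.card →
      ∃ E' ⊆ E, ∃ D : ℝ, D ≤ Real.exp (ε6 * k) ∧ Setup k (k / 200) D E' := by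
  obtain ⟨x, hx0, hx1, hx6⟩ : ∃ x : ℝ, 0 < x ∧ x ≤ 1 / 16 ∧ 16 * x ≤ ε6 :=
    ⟨min ε6 1 / 16, by positivity, by
      have := min_le_right ε6 1
      linarith, by
      have := min_le_left ε6 1
      linarith⟩
  obtain ⟨κ, hκd⟩ : ∃ κ : ℝ, κ = x ^ 2 / 16 := ⟨_, rfl⟩
  have hκ0 : 0 < κ := by rw [hκd]; positivity
  have hκx : κ ≤ x / 256 := by rw [hκd]; nlinarith
  refine ⟨κ, hκ0, by linarith, κ, hκ0, ⌈10 ^ 4 / x ^ 3⌉₊, ?_⟩
  intro k hk₀ E hlen hle hbig hcard
  obtain ⟨K, hKd⟩ : ∃ K : ℝ, K = (k : ℝ) := ⟨_, rfl⟩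
  have hx3 : (0 : ℝ) < x ^ 3 := by positivity
  have hK3 : 10 ^ 4 ≤ x ^ 3 * K := by
    have h1 : (10 : ℝ) ^ 4 / x ^ 3 ≤ K := by
      rw [hKd]
      exact (Nat.le_ceil _).trans (by exact_mod_cast hk₀)
    rw [div_le_iff₀ hx3] at h1
    linarith
  have hKpos : 0 < K := by
    by_contra hcon
    push Not at hcon
    have : x ^ 3 * K ≤ 0 := mul_nonpos_of_nonneg_of_nonpos hx3.le hcon
    linarith
  have hK2 : 16 * 10 ^ 4 ≤ x ^ 2 * K := by
    have h1 : x ^ 3 * K ≤ (1 / 16) * (x ^ 2 * K) := by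
      have : x ^ 3 * K = x * (x ^ 2 * K) := by ring
      rw [this]
      exact mul_le_mul_of_nonneg_right hx1 (by positivity)
    linarith
  have hK1 : 256 * 10 ^ 4 ≤ x * K := by
    have h1 : x ^ 2 * K ≤ (1 / 16) * (x * K) := by
      have : x ^ 2 * K = x * (x * K) := by ring
      rw [this]
      exact mul_le_mul_of_nonneg_right hx1 (by positivity)
    linarith
  have hK0 : 4096 * 10 ^ 4 ≤ K := by
    have h1 : x * K ≤ (1 / 16) * K := mul_le_mul_of_nonneg_right hx1 hKpos.le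
    linarith
  have hκK : κ * K = x ^ 2 * K / 16 := by rw [hκd]; ring
  have hκK' : κ * K ≤ x * K / 256 := by
    have := mul_le_mul_of_nonneg_right hκx hKpos.le
    linarith
  -- the block length
  obtain ⟨k', hk'd⟩ : ∃ k' : ℕ, k' = k - k / 200 := ⟨_, rfl⟩
  have hk'k : k' ≤ k := by omega
  have hk'2 : k ≤ 2 * k' := by omega
  have hkN : 1 ≤ k := by
    have : (1 : ℝ) ≤ (k : ℝ) := by rw [← hKd]; linarith
    exact_mod_cast this
  have hk'1 : 1 ≤ k' := by omega
  have hk'K : (k' : ℝ) ≤ K := by rw [hKd]; exact_mod_cast hk'k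
  have hk'K2 : K ≤ 2 * (k' : ℝ) := by rw [hKd]; exact_mod_cast hk'2
  -- size of the barrier
  obtain ⟨Bq, hBq⟩ : ∃ Bq : ℝ, Bq = (2 : ℝ) ^ ((1 - κ) * K) := ⟨_, rfl⟩
  have hlog2 : (0.6 : ℝ) < Real.log 2 := by
    have := Real.log_two_gt_d9
    linarith
  have hlog2' : Real.log 2 < 0.7 := by
    have := Real.log_two_lt_d9
    linarith
  have hB2 : 2 * K ≤ Bq := by
    rw [hBq, Real.rpow_def_of_pos (by norm_num)]
    have h1 : 0.3 * K ≤ Real.log 2 * ((1 - κ) * K) := by
      have h2 : 1 / 2 ≤ 1 - κ := by linarith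
      have h3 : (0.3 : ℝ) ≤ Real.log 2 * (1 - κ) := by
        have h4 := mul_le_mul hlog2.le h2 (by norm_num) (by linarith)
        linarith
      have := mul_le_mul_of_nonneg_right h3 hKpos.le
      linarith
    refine le_trans ?_ (Real.exp_le_exp.2 h1)
    refine le_trans ?_ (dens_cubic (by positivity))
    have h4 : 1000 ≤ K ^ 2 := by
      have h5 := mul_le_mul hK0 hK0 (by norm_num) hKpos.le
      rw [pow_two]
      linarith
    have h6 := mul_le_mul_of_nonneg_right h4 hKpos.le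
    have h7 : (0.3 * K) ^ 3 / 6 = 0.0045 * (K ^ 2 * K) := by ring
    rw [h7]
    linarith
  have hB1 : 1 ≤ Bq := by linarith
  have hbig' : ∀ n ∈ E, ∀ t ≤ 2 * k, Bq ≤ |((T^[t] n : ℤ) : ℝ)| := by
    intro n hn t ht
    rw [hBq, hKd]
    exact hbig n hn t ht
  have htB : ∀ t ≤ 2 * k, (t : ℝ) ≤ Bq := by
    intro t ht
    have h1 : (t : ℝ) ≤ 2 * K := by rw [hKd]; exact_mod_cast ht
    linarith
  have hjt : ∀ n ∈ E, ∀ t ≤ 2 * k, rh * t - (κ * K + 1) ≤ jt t n := by
    intro n hn t ht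
    rw [hKd]
    refine jt_ge hκ0 n (hle n hn) ?_ ?_ ?_
    · rw [← hKd, ← hBq]
      exact htB t ht
    · rw [← hKd, ← hBq]
      exact hB1
    · intro s hs
      exact hbig n hn s (by omega)
  have hsize : ∀ n ∈ E, ∀ t ≤ 2 * k,
      (2 : ℝ) ^ t * |((T^[t] n : ℤ) : ℝ)| ≤ 2 * 3 ^ jt t n * |(n : ℝ)| := by
    intro n hn t ht
    exact size_le hB1 (htB t ht) n fun s hs => hbig' n hn s (by omega)
  have hrh := rh_gt
  have hrh' := rh_lt
  have hbt0 := log_bt_pos
  have hbt1 := log_bt_le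
  -- parameters
  obtain ⟨a, ha⟩ : ∃ a : ℝ, a = κ * K + 1 := ⟨_, rfl⟩
  obtain ⟨e, he⟩ : ∃ e : ℝ, e = x * K := ⟨_, rfl⟩
  have ha0 : 0 ≤ a := by rw [ha]; positivity
  have he0 : 0 ≤ e := by rw [he]; positivity
  have hae : a ≤ e := by rw [ha, he]; linarith
  obtain ⟨D, hD⟩ : ∃ D : ℝ, D = Real.exp (16 * (x * K)) := ⟨_, rfl⟩
  have hD0 : 0 < D := by rw [hD]; exact Real.exp_pos _
  have hD1 : 1 ≤ D := by rw [hD]; exact Real.one_le_exp (by positivity)
  have hlogD : Real.log D = 16 * (x * K) := by rw [hD, Real.log_exp]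
  obtain ⟨E', hE'⟩ : ∃ E' : Finset ℤ, E' = E.filter fun n =>
    (jt k n : ℝ) ≤ rh * K + e ∧ (jt k' n : ℝ) ≤ rh * k' + e := ⟨_, rfl⟩
  have hmem : ∀ n ∈ E', n ∈ E ∧ (jt k n : ℝ) ≤ rh * K + e ∧ (jt k' n : ℝ) ≤ rh * k' + e := by
    intro n hn
    rw [hE', Finset.mem_filter] at hn
    exact hn
  -- the exceptional part
  have hexp : Real.exp (Hn * k + a * Real.log bt - e ^ 2 / (4 * k)) ≤ (E.card : ℝ) / 4 := by
    refine le_trans ?_ (div_le_div_of_nonneg_right hcard (by norm_num))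
    have h4 : (4 : ℝ) = Real.exp (Real.log 4) := (Real.exp_log (by norm_num)).symm
    rw [← hKd]
    rw [h4, ← Real.exp_sub, Real.exp_le_exp, ← h4]
    have h5 : Real.log 4 ≤ 3 := by
      have := Real.log_le_sub_one_of_pos (show (0 : ℝ) < 4 by norm_num)
      linarith
    have h6 : a * Real.log bt ≤ a := mul_le_of_le_one_right ha0 hbt1
    have h7 : e ^ 2 / (4 * K) = x ^ 2 * K / 4 := by
      rw [he]
      field_simp
    rw [h7]
    have h8 : (Hn - κ) * K = Hn * K - κ * K := by ring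
    have h9 : a = x ^ 2 * K / 16 + 1 := by rw [ha, hκK]
    rw [h8, hκK]
    linarith
  have hE1 : ((E.filter fun n => rh * K + e ≤ jt k n).card : ℝ) ≤ (E.card : ℝ) / 4 := by
    refine le_trans (dens_exc (k := k) (k1 := k) (a := a) (e := e) hkN le_rfl ha0 he0 ?_ _ ?_ ?_)
      hexp
    · rw [← hKd, he]
      have := mul_le_mul_of_nonneg_right hx1 hKpos.le
      linarith
    · intro n hn n' hn'
      exact hlen n (Finset.mem_filter.1 hn).1 n' (Finset.mem_filter.1 hn').1
    · intro n hn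
      rw [Finset.mem_filter] at hn
      refine ⟨?_, ?_⟩
      · rw [ha]
        exact hjt n hn.1 k (by omega)
      · rw [← hKd]
        exact hn.2
  have hE2 : ((E.filter fun n => rh * k' + e ≤ jt k' n).card : ℝ) ≤ (E.card : ℝ) / 4 := by
    refine le_trans (dens_exc (k := k) (k1 := k') (a := a) (e := e) hk'1 hk'k ha0 he0 ?_ _ ?_ ?_)
      hexp
    · rw [he]
      have := mul_le_mul_of_nonneg_right hx1 hKpos.le
      linarith
    · intro n hn n' hn'
      exact hlen n (Finset.mem_filter.1 hn).1 n' (Finset.mem_filter.1 hn').1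
    · intro n hn
      rw [Finset.mem_filter] at hn
      refine ⟨?_, hn.2⟩
      rw [ha]
      exact hjt n hn.1 k (by omega)
  have hhalf : (E.card : ℝ) / 2 ≤ E'.card := by
    have h1 : E ⊆ E' ∪ ((E.filter fun n => rh * K + e ≤ jt k n) ∪
        (E.filter fun n => rh * k' + e ≤ jt k' n)) := by
      intro n hn
      rw [Finset.mem_union, Finset.mem_union, hE', Finset.mem_filter, Finset.mem_filter,
        Finset.mem_filter]
      rcases le_total (jt k n : ℝ) (rh * K + e) with h | h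
      · rcases le_total (jt k' n : ℝ) (rh * k' + e) with h' | h'
        · exact Or.inl ⟨hn, h, h'⟩
        · exact Or.inr (Or.inr ⟨hn, h'⟩)
      · exact Or.inr (Or.inl ⟨hn, h⟩)
    have h2 := (Finset.card_le_card h1).trans (Finset.card_union_le _ _)
    have h3 := Finset.card_union_le (E.filter fun n => rh * K + e ≤ jt k n)
      (E.filter fun n => rh * k' + e ≤ jt k' n)
    have h4 : (E.card : ℝ) ≤ E'.card + ((E.filter fun n => rh * K + e ≤ jt k n).card +
        (E.filter fun n => rh * k' + e ≤ jt k' n).card) := by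
      exact_mod_cast h2.trans (by omega)
    linarith
  have hE'low : Real.exp ((Hn - κ) * K) / 2 ≤ E'.card := by
    rw [← hKd] at hcard
    linarith
  have hE'ne : E'.Nonempty := by
    rw [← Finset.card_pos]
    have h1 := Real.exp_pos ((Hn - κ) * K)
    have h2 : (0 : ℝ) < E'.card := by linarith
    exact_mod_cast h2
  -- lower bound of the density
  have hdens : ∀ c : ℝ, Real.exp ((16 * x - κ) * K - c) / 2 ≤
      D * E'.card * Real.exp (-(Hn * K) - c) := by
    intro c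
    have h1 : D * (Real.exp ((Hn - κ) * K) / 2) * Real.exp (-(Hn * K) - c) ≤
        D * E'.card * Real.exp (-(Hn * K) - c) := by
      gcongr
    refine le_trans (le_of_eq ?_) h1
    rw [hD]
    have h2 : (16 * x - κ) * K - c = 16 * (x * K) + (Hn - κ) * K + (-(Hn * K) - c) := by ring
    rw [h2, Real.exp_add, Real.exp_add]
    ring
  refine ⟨E', by rw [hE']; exact Finset.filter_subset _ _, D, ?_, ?_⟩
  · rw [hD, ← hKd]
    apply Real.exp_le_exp.2
    have := mul_le_mul_of_nonneg_right hx6 hKpos.le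
    linarith
  · refine ⟨by omega, hE'ne, hD1, ?_, ?_, ?_, ?_, ?_, ?_⟩
    · intro n hn n' hn'
      exact hlen n (hmem n hn).1 n' (hmem n' hn').1
    · -- d0
      intro r
      have hpw0 := pw_pos k r
      rcases (E'.filter fun n => n % 2 ^ k = r % 2 ^ k).eq_empty_or_nonempty with h0 | ⟨n, hn⟩
      · rw [h0]
        simp only [Finset.card_empty, Nat.cast_zero]
        positivity
      · rw [Finset.mem_filter] at hn
        have h1 : (E'.filter fun n => n % 2 ^ k = r % 2 ^ k).card ≤ 1 := by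
          rw [Finset.card_le_one]
          intro m hm m' hm'
          rw [Finset.mem_filter] at hm hm'
          have h2 : (2 : ℤ) ^ k ∣ m - m' := Int.ModEq.dvd
            (show m' % 2 ^ k = m % 2 ^ k by rw [hm.2, hm'.2])
          have h3 := Int.eq_zero_of_abs_lt_dvd h2 (hlen m (hmem m hm.1).1 m' (hmem m' hm'.1).1)
          linarith
        have h2 : ((E'.filter fun n => n % 2 ^ k = r % 2 ^ k).card : ℝ) ≤ 1 := by
          exact_mod_cast h1
        refine h2.trans ?_
        have h3 : Real.exp (-(Hn * K) - a) ≤ pw k r := by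
          rw [hKd, ← pw_congr hn.2]
          refine dens_pw ha0 ?_
          rw [ha, hKd]
          have := hjt n (hmem n hn.1).1 k (by omega)
          rw [hKd] at this
          exact this
        refine le_trans ?_ (mul_le_mul_of_nonneg_left h3 (by positivity))
        refine le_trans ?_ (hdens a)
        have h4 := Real.add_one_le_exp ((16 * x - κ) * K - a)
        have h5 : (16 * x - κ) * K - a = 16 * (x * K) - 2 * (κ * K) - 1 := by rw [ha]; ring
        rw [h5] at h4 ⊢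
        linarith
    · -- d1
      intro r
      rw [← hk'd]
      have hpw0 := pw_pos k r
      rcases (E'.filter fun n => T^[k'] n % 2 ^ k = r % 2 ^ k).eq_empty_or_nonempty with
        h0 | ⟨n, hn⟩
      · rw [h0]
        simp only [Finset.card_empty, Nat.cast_zero]
        positivity
      · rw [Finset.mem_filter] at hn
        have hA : 0 ≤ 2 * (2 : ℝ) ^ (κ * K) := by positivity
        have hM : 0 ≤ 2 * (3 : ℝ) ^ e := by positivity
        have h1 := dens_fiber k k' r hM hA (E'.filter fun n => T^[k'] n % 2 ^ k = r % 2 ^ k)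
          (fun m hm => by
            rw [Finset.mem_filter] at hm
            refine ⟨hm.2, ?_⟩
            exact dens_size (hle m (hmem m hm.1).1) (hmem m hm.1).2.2
              (hsize m (hmem m hm.1).1 k' (by omega)))
          (fun m hm i hi => by
            rw [Finset.mem_filter] at hm
            have hmE := (hmem m hm.1).1
            have h1 := hsize m hmE i (by omega)
            have h2 := hbig' m hmE i (by omega)
            have h3 : |(m : ℝ)| ≤ 2 ^ k := by exact_mod_cast hle m hmE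
            have h4 : (2 : ℝ) ^ i * Bq ≤ 2 * 3 ^ jt i m * 2 ^ k := by
              calc (2 : ℝ) ^ i * Bq ≤ 2 ^ i * |((T^[i] m : ℤ) : ℝ)| := by gcongr
                _ ≤ 2 * 3 ^ jt i m * |(m : ℝ)| := h1
                _ ≤ 2 * 3 ^ jt i m * 2 ^ k := by gcongr
            have h5 : (2 : ℝ) ^ k = Bq * 2 ^ (κ * K) := by
              rw [hBq, ← Real.rpow_add (by norm_num), ← Real.rpow_natCast, ← hKd]
              congr 1
              ring
            have hBpos : 0 < Bq := by linarith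
            have h6 : Bq * (2 : ℝ) ^ i ≤ Bq * (2 * 2 ^ (κ * K) * 3 ^ jt i m) := by
              rw [h5] at h4
              linarith
            exact le_of_mul_le_mul_left h6 hBpos)
        refine h1.trans ?_
        have h3 : Real.exp (-(Hn * K) - (a + e)) ≤ pw k r := by
          rw [hKd, ← pw_congr hn.2]
          refine dens_pw (by linarith) ?_
          have h4 := hjt n (hmem n hn.1).1 (k' + k) (by omega)
          have h5 := (hmem n hn.1).2.2
          rw [jt_add] at h4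
          push_cast at h4
          rw [← ha] at h4
          linarith
        refine le_trans ?_ (mul_le_mul_of_nonneg_left h3 (by positivity))
        refine le_trans ?_ (hdens (a + e))
        -- upper bounds
        have hlog3 : Real.log 3 ≤ 2 := by
          have := Real.log_le_sub_one_of_pos (show (0 : ℝ) < 3 by norm_num)
          linarith
        have u1 : (3 : ℝ) ^ e ≤ Real.exp (2 * (x * K)) := by
          rw [Real.rpow_def_of_pos (by norm_num), he]
          apply Real.exp_le_exp.2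
          exact mul_le_mul_of_nonneg_right hlog3 (by positivity)
        have u2 : (2 : ℝ) ^ (κ * K) ≤ Real.exp (κ * K) := by
          rw [Real.rpow_def_of_pos (by norm_num)]
          apply Real.exp_le_exp.2
          exact mul_le_of_le_one_left (by positivity) (by linarith)
        have u3 : (1 : ℝ) ≤ Real.exp (2 * (x * K)) := Real.one_le_exp (by positivity)
        have u4 : (1 : ℝ) ≤ Real.exp (κ * K) := Real.one_le_exp (by positivity)
        have v1 : 2 * (2 * (3 : ℝ) ^ e) + 1 ≤ 5 * Real.exp (2 * (x * K)) := by linarith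
        have v2 : (k' : ℝ) + 1 ≤ 2 * K := by linarith
        have v3 : (k' : ℝ) * (2 * (2 : ℝ) ^ (κ * K)) + 2 ≤ 4 * K * Real.exp (κ * K) := by
          have w1 : (k' : ℝ) * (2 * (2 : ℝ) ^ (κ * K)) ≤ K * (2 * Real.exp (κ * K)) := by
            gcongr
          have w2 : 2 ≤ 2 * K * Real.exp (κ * K) := by
            have w3 : 2 * K * 1 ≤ 2 * K * Real.exp (κ * K) := by gcongr
            linarith
          linarith
        have v4 : (2 * (2 * (3 : ℝ) ^ e) + 1) * (((k' : ℝ) + 1) *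
            ((k' : ℝ) * (2 * (2 : ℝ) ^ (κ * K)) + 2)) ≤
            5 * Real.exp (2 * (x * K)) * ((2 * K) * (4 * K * Real.exp (κ * K))) := by
          gcongr
        refine v4.trans ?_
        have v5 : 80 * K ^ 2 ≤ Real.exp (10 * (x * K)) := by
          refine le_trans ?_ (dens_cubic (by positivity))
          have w1 : (10 * (x * K)) ^ 3 / 6 = (1000 / 6) * ((x ^ 3 * K) * K ^ 2) := by ring
          rw [w1]
          have w2 : 10 ^ 4 * K ^ 2 ≤ (x ^ 3 * K) * K ^ 2 :=
            mul_le_mul_of_nonneg_right hK3 (by positivity)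
          have w3 : 0 ≤ K ^ 2 := by positivity
          linarith
        have v6 : Real.exp (2 * (x * K)) * Real.exp (κ * K) * Real.exp (10 * (x * K)) ≤
            Real.exp ((16 * x - κ) * K - (a + e)) := by
          rw [← Real.exp_add, ← Real.exp_add]
          apply Real.exp_le_exp.2
          have : (16 * x - κ) * K - (a + e) = 15 * (x * K) - 2 * (κ * K) - 1 := by
            rw [ha, he]
            ring
          rw [this]
          linarith
        have v7 : Real.exp (2 * (x * K)) * Real.exp (κ * K) * (80 * K ^ 2) ≤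
            Real.exp (2 * (x * K)) * Real.exp (κ * K) * Real.exp (10 * (x * K)) := by
          gcongr
        calc 5 * Real.exp (2 * (x * K)) * ((2 * K) * (4 * K * Real.exp (κ * K)))
            = (Real.exp (2 * (x * K)) * Real.exp (κ * K) * (80 * K ^ 2)) / 2 := by ring
          _ ≤ Real.exp ((16 * x - κ) * K - (a + e)) / 2 := by
              linarith [v7.trans v6]
    · -- b0
      intro n hn
      rw [hlogD, abs_le, ← hKd]
      have h1 := hjt n (hmem n hn).1 k (by omega)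
      have h2 := (hmem n hn).2.1
      rw [← hKd] at h1
      constructor
      · linarith
      · rw [he] at h2
        linarith
    · -- b1
      intro n hn
      rw [hlogD, ← hk'd]
      have h1 := hjt n (hmem n hn).1 k' (by omega)
      linarith
    · -- big
      have h1 := hdens (-(Hn * K))
      have h2 : Real.exp (-(Hn * K) - -(Hn * K)) = 1 := by
        rw [sub_self, Real.exp_zero]
      rw [h2, mul_one] at h1
      rw [← hKd]
      refine le_trans ?_ h1
      have h3 : (16 * x - κ) * K - -(Hn * K) = Hn * K + (16 * (x * K) - κ * K) := by ring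
      rw [h3, Real.exp_add]
      have h4 := Real.add_one_le_exp (16 * (x * K) - κ * K)
      have h5 : (2 : ℝ) ≤ Real.exp (16 * (x * K) - κ * K) := by linarith
      have h6 := Real.exp_pos (Hn * K)
      have h7 := mul_le_mul_of_nonneg_left h5 h6.le
      linarith

end Pool.Agent.Collatz3.PB
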