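import Pool.Agent.Collatz3.PBNoSetup
import Pool.Agent.Collatz3.PBDens

set_option autoImplicit false

/-!
PowerBarrier: the core.
-/

open Finset
open scoped Classical

namespace Pool.Agent.Collatz3.PB

open Pool.Agent.Helper14 (T)

theorem core : ∃ κ : ℝ, 0 < κ ∧ κ < 1 / 2 ∧ ∃ ε : ℝ, 0 < ε ∧ ∃ k₀ : ℕ,
    ∀ k : ℕ, k₀ ≤ k → ∀ E : Finset ℤ, (∀ n ∈ E, ∀ n' ∈ E, |n - n'| < 2 ^ k) →
      (∀ n ∈ E, |n| ≤ 2 ^ k) →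
      (∀ n ∈ E, ∀ t ≤ 2 * k, (2 : ℝ) ^ ((1 - κ) * k) ≤ |((T^[t] n : ℤ) : ℝ)|) →
      (E.card : ℝ) < Real.exp ((Hn - ε) * k) := by
  obtain ⟨ε6, h6, k₁, h1⟩ := no_setup
  obtain ⟨κ, hκ, hκ', ε, hε, k₂, h2⟩ := dens h6
  refine ⟨κ, hκ, hκ', ε, hε, k₁ + k₂, fun k hk E a b c => ?_⟩
  by_contra hcon
  obtain ⟨E', _, D, hD, hS⟩ := h2 k (by omega) E a b c (not_lt.1 hcon)
  exact h1 k (by omega) D E' hD hS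

end Pool.Agent.Collatz3.PB
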