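import Mathlib
import Pool.Agent.Helper14.FatouDefs
import Pool.Agent.Collatz3.Ent

set_option autoImplicit false

/-!
Sparsity of the integers whose 3x+1 orbit stays above a power of its starting point: definitions.
-/

open Finset
open scoped Classical

namespace Pool.Agent.Collatz3.PB

open Pool.Agent.Helper14 (T)

/-- critical proportion of odd steps -/
noncomputable def rh : ℝ := Real.log 2 / Real.log 3

/-- its entropy, in nats -/
noncomputable def Hn : ℝ := Real.binEntropy rh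

/-- its odds -/
noncomputable def bt : ℝ := rh / (1 - rh)

/-- number of odd terms among the first `t` iterates -/
def jt : ℕ → ℤ → ℕ
  | 0, _ => 0
  | t + 1, n => jt t n + (if 2 ∣ T^[t] n then 0 else 1)

/-- constant of the first `t` steps: `2 ^ t * T^[t] n = 3 ^ jt t n * n + ct t n` -/
def ct : ℕ → ℤ → ℤ
  | 0, _ => 0
  | t + 1, n => if 2 ∣ T^[t] n then ct t n else 3 * ct t n + 2 ^ t

/-- Bernoulli weight of the first `t` parities -/
noncomputable def pw (t : ℕ) (n : ℤ) : ℝ := rh ^ jt t n * (1 - rh) ^ (t - jt t n)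

/-- the sets the main argument is about -/
structure Setup (k k2 : ℕ) (D : ℝ) (E : Finset ℤ) : Prop where
  hk : k2 ≤ k
  ne : E.Nonempty
  hD : 1 ≤ D
  len : ∀ n ∈ E, ∀ n' ∈ E, |n - n'| < 2 ^ k
  d0 : ∀ r : ℤ, (((E.filter fun n => n % 2 ^ k = r % 2 ^ k).card : ℕ) : ℝ) ≤ D * E.card * pw k r
  d1 : ∀ r : ℤ, (((E.filter fun n => T^[k - k2] n % 2 ^ k = r % 2 ^ k).card : ℕ) : ℝ) ≤
    D * E.card * pw k r
  b0 : ∀ n ∈ E, |(jt k n : ℝ) - rh * k| ≤ 2 * Real.log D
  b1 : ∀ n ∈ E, rh * ((k - k2 : ℕ) : ℝ) - 2 * Real.log D ≤ jt (k - k2) n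
  big : Real.exp (Hn * k) ≤ D * E.card

/-- pairs of elements of `E` which agree modulo `2 ^ j` -/
noncomputable def PS (j : ℕ) (E : Finset ℤ) : Finset (ℤ × ℤ) :=
  (E ×ˢ E).filter fun ω => ω.1 % 2 ^ j = ω.2 % 2 ^ j

/-- weights of the pairs: both marginals are uniform, and the members of a pair are independent given
their common residue -/
noncomputable def pp (j : ℕ) (E : Finset ℤ) (ω : ℤ × ℤ) : ℝ :=
  1 / (E.card * (E.filter fun n => n % 2 ^ j = ω.1 % 2 ^ j).card)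

/-- residue of the iterate of order `k - k2` -/
def vv (k k2 : ℕ) (n : ℤ) : ℤ := T^[k - k2] n % 2 ^ k2

/-- quotient of the iterate of order `k - k2` -/
def zq (k k2 : ℕ) (n : ℤ) : ℤ := T^[k - k2] n / 2 ^ k2

/-- the conditioning variable -/
def cv (k k2 : ℕ) (ω : ℤ × ℤ) : ℤ × ℕ × ℕ × Bool :=
  (vv k k2 ω.2, jt (k - k2) ω.1, jt k ω.1, decide (ω.2 ≤ ω.1))

/-- the main variable -/
def UU (k k2 : ℕ) (ω : ℤ × ℤ) : ℤ :=
  T^[k] ω.1 - 3 ^ jt k2 (T^[k - k2] ω.1) * zq k k2 ω.2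

end Pool.Agent.Collatz3.PB
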