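import Pool.Agent.Collatz3.DigitD

set_option autoImplicit false

/-!
The digit lemma in base 2, for integer valued variables.
-/

open Finset Real
open scoped Classical

namespace Pool.Agent.Collatz3.PB

namespace Dg

section digits

theorem split_dvd (x y : ℤ) (l d : ℕ) (h : x % 2 ^ l = y % 2 ^ l) :
    x % 2 ^ (l + d) = y % 2 ^ (l + d) ↔ x / 2 ^ l % 2 ^ d = y / 2 ^ l % 2 ^ d := by
  have h3 : (0 : ℤ) < 2 ^ l := by positivity
  have hx := Int.emod_add_mul_ediv x (2 ^ l)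
  have hy := Int.emod_add_mul_ediv y (2 ^ l)
  rw [Int.emod_eq_emod_iff_emod_sub_eq_zero, Int.emod_eq_emod_iff_emod_sub_eq_zero,
    ← Int.dvd_iff_emod_eq_zero, ← Int.dvd_iff_emod_eq_zero]
  have : x - y = 2 ^ l * (x / 2 ^ l - y / 2 ^ l) := by
    rw [mul_sub]; linarith
  rw [this, pow_add]
  exact mul_dvd_mul_iff_left h3.ne'

theorem split_mod (x y : ℤ) (l d : ℕ) :
    x % 2 ^ (l + d) = y % 2 ^ (l + d) ↔
      x % 2 ^ l = y % 2 ^ l ∧ x / 2 ^ l % 2 ^ d = y / 2 ^ l % 2 ^ d := by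
  constructor
  · intro h
    have h0 : x % 2 ^ l = y % 2 ^ l := by
      have hd : (2 : ℤ) ^ l ∣ 2 ^ (l + d) := pow_dvd_pow 2 (Nat.le_add_right l d)
      rw [← Int.emod_emod_of_dvd x hd, h, Int.emod_emod_of_dvd y hd]
    exact ⟨h0, (split_dvd x y l d h0).1 h⟩
  · rintro ⟨h0, h1⟩
    exact (split_dvd x y l d h0).2 h1

theorem mod_mono (x y : ℤ) {l l' : ℕ} (hl : l ≤ l') (h : x % 2 ^ l' = y % 2 ^ l') :
    x % 2 ^ l = y % 2 ^ l := by
  obtain ⟨d, rfl⟩ := Nat.exists_eq_add_of_le hl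
  exact ((split_mod x y l d).1 h).1

theorem zmod_eq (x y : ℤ) (d : ℕ) :
    (x : ZMod (2 ^ d)) = (y : ZMod (2 ^ d)) ↔ x % 2 ^ d = y % 2 ^ d := by
  rw [ZMod.intCast_eq_intCast_iff]
  unfold Int.ModEq
  push_cast
  rfl

theorem carry (x y x' y' : ℤ) (l d : ℕ) (h : x % 2 ^ l = x' % 2 ^ l) (h' : y % 2 ^ l = y' % 2 ^ l)
    (h2 : (x + y) % 2 ^ (l + d) = (x' + y') % 2 ^ (l + d)) :
    (x / 2 ^ l + y / 2 ^ l) % 2 ^ d = (x' / 2 ^ l + y' / 2 ^ l) % 2 ^ d := by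
  have h3 : (0 : ℤ) < 2 ^ l := by positivity
  have hx := Int.emod_add_mul_ediv x (2 ^ l)
  have hy := Int.emod_add_mul_ediv y (2 ^ l)
  have hx' := Int.emod_add_mul_ediv x' (2 ^ l)
  have hy' := Int.emod_add_mul_ediv y' (2 ^ l)
  rw [Int.emod_eq_emod_iff_emod_sub_eq_zero, ← Int.dvd_iff_emod_eq_zero] at h2 ⊢
  have : x + y - (x' + y') = 2 ^ l * (x / 2 ^ l + y / 2 ^ l - (x' / 2 ^ l + y' / 2 ^ l)) := by
    rw [mul_sub, mul_add, mul_add]; linarith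
  rw [this, pow_add] at h2
  exact (mul_dvd_mul_iff_left h3.ne').1 h2

theorem isUnit_of_ne {d : ℕ} (hd : d ≠ 0) (v v' : ZMod (2 ^ d))
    (h : ZMod.castHom (dvd_pow_self 2 hd) (ZMod 2) v ≠
      ZMod.castHom (dvd_pow_self 2 hd) (ZMod 2) v') : IsUnit (v - v') := by
  have h1 : ZMod.castHom (dvd_pow_self 2 hd) (ZMod 2) (v - v') ≠ 0 := by
    rw [map_sub]
    exact sub_ne_zero.2 h
  have : NeZero (2 ^ d) := ⟨by positivity⟩
  rw [← ZMod.natCast_zmod_val (v - v')] at h1 ⊢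
  rw [ZMod.isUnit_iff_coprime]
  refine Nat.Coprime.pow_right d ?_
  rw [Nat.coprime_comm, Nat.Prime.coprime_iff_not_dvd Nat.prime_two]
  intro h2
  rw [map_natCast] at h1
  exact h1 ((ZMod.natCast_eq_zero_iff _ _).2 h2)

end digits

section entropy

variable {Ω : Type*} {s : Finset Ω} {p : Ω → ℝ}

theorem level_J {γ : Type*} (hp : ∀ ω ∈ s, 0 ≤ p ω) (U b : Ω → ℤ) (c : Ω → γ) (l d : ℕ) :
    cH s p U (fun ω => (U ω % 2 ^ l, b ω % 2 ^ l, c ω)) -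
      cH s p U (fun ω => (b ω % 2 ^ (l + d), (U ω % 2 ^ l, b ω % 2 ^ l, c ω))) ≤
    cH s p U (fun ω => (b ω % 2 ^ l, c ω)) - cH s p U (fun ω => (b ω % 2 ^ (l + d), c ω)) := by
  have hV : ∀ ω ∈ s, ∀ ω' ∈ s, U ω = U ω' → U ω % 2 ^ l = U ω' % 2 ^ l :=
    fun ω _ ω' _ h => by rw [h]
  have h1 := cH_split (p := p) U (fun ω => U ω % 2 ^ l) (fun ω => (b ω % 2 ^ l, c ω)) hV
  have h2 := cH_split (p := p) U (fun ω => U ω % 2 ^ l) (fun ω => (b ω % 2 ^ (l + d), c ω)) hV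
  have h3 : cH s p (fun ω => U ω % 2 ^ l) (fun ω => (b ω % 2 ^ (l + d), c ω)) ≤
      cH s p (fun ω => U ω % 2 ^ l) (fun ω => (b ω % 2 ^ l, c ω)) := by
    refine cH_anti hp _ _ _ fun ω _ _ ω' _ _ h => ?_
    simp only [Prod.ext_iff] at h ⊢
    exact ⟨mod_mono _ _ (Nat.le_add_right l d) h.1, h.2⟩
  have h4 : cH s p U (fun ω => (U ω % 2 ^ l, (b ω % 2 ^ (l + d), c ω))) =
      cH s p U (fun ω => (b ω % 2 ^ (l + d), (U ω % 2 ^ l, b ω % 2 ^ l, c ω))) := by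
    refine cH_congr _ _ _ _ (fun ω _ _ ω' _ _ => ?_) fun ω _ _ ω' _ _ => ?_
    · simp only [Prod.ext_iff]
      constructor
      · rintro ⟨h1, h2, h3⟩
        exact ⟨h2, h1, mod_mono _ _ (Nat.le_add_right l d) h2, h3⟩
      · rintro ⟨h1, h2, h3, h4⟩
        exact ⟨h2, h1, h4⟩
    · simp only [Prod.ext_iff]
      constructor
      · rintro ⟨h0, h1, h2, h3⟩
        exact ⟨h0, h2, h1, mod_mono _ _ (Nat.le_add_right l d) h2, h3⟩
      · rintro ⟨h0, h1, h2, h3, h4⟩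
        exact ⟨h0, h2, h1, h4⟩
  linarith

theorem level_I {γ : Type*} (hp : ∀ ω ∈ s, 0 ≤ p ω) (U b : Ω → ℤ) (c : Ω → γ) (l d : ℕ) :
    cH s p U (fun ω => (U ω % 2 ^ l, b ω % 2 ^ l, c ω)) -
      cH s p U (fun ω => ((U ω + b ω) % 2 ^ (l + d), (U ω % 2 ^ l, b ω % 2 ^ l, c ω))) ≤
    cH s p U (fun ω => ((U ω + b ω) % 2 ^ l, c ω)) -
      cH s p U (fun ω => ((U ω + b ω) % 2 ^ (l + d), c ω)) := by
  have h := level_J hp U (fun ω => U ω + b ω) c l d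
  have h1 : cH s p U (fun ω => (U ω % 2 ^ l, (U ω + b ω) % 2 ^ l, c ω)) =
      cH s p U (fun ω => (U ω % 2 ^ l, b ω % 2 ^ l, c ω)) := by
    refine cH_congr _ _ _ _ (fun ω _ _ ω' _ _ => ?_) fun ω _ _ ω' _ _ => ?_
    · simp only [Prod.ext_iff]
      constructor
      · rintro ⟨h1, h2, h3⟩
        exact ⟨h1, (add_mod_iff _ _ _ _ _ h1).1 h2, h3⟩
      · rintro ⟨h1, h2, h3⟩
        exact ⟨h1, (add_mod_iff _ _ _ _ _ h1).2 h2, h3⟩
    · simp only [Prod.ext_iff]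
      constructor
      · rintro ⟨h0, h1, h2, h3⟩
        exact ⟨h0, h1, (add_mod_iff _ _ _ _ _ h1).1 h2, h3⟩
      · rintro ⟨h0, h1, h2, h3⟩
        exact ⟨h0, h1, (add_mod_iff _ _ _ _ _ h1).2 h2, h3⟩
  have h2 : cH s p U (fun ω => ((U ω + b ω) % 2 ^ (l + d),
        (U ω % 2 ^ l, (U ω + b ω) % 2 ^ l, c ω))) =
      cH s p U (fun ω => ((U ω + b ω) % 2 ^ (l + d), (U ω % 2 ^ l, b ω % 2 ^ l, c ω))) := by
    refine cH_congr _ _ _ _ (fun ω _ _ ω' _ _ => ?_) fun ω _ _ ω' _ _ => ?_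
    · simp only [Prod.ext_iff]
      constructor
      · rintro ⟨h0, h1, h2, h3⟩
        exact ⟨h0, h1, (add_mod_iff _ _ _ _ _ h1).1 h2, h3⟩
      · rintro ⟨h0, h1, h2, h3⟩
        exact ⟨h0, h1, (add_mod_iff _ _ _ _ _ h1).2 h2, h3⟩
    · simp only [Prod.ext_iff]
      constructor
      · rintro ⟨h9, h0, h1, h2, h3⟩
        exact ⟨h9, h0, h1, (add_mod_iff _ _ _ _ _ h1).1 h2, h3⟩
      · rintro ⟨h9, h0, h1, h2, h3⟩
        exact ⟨h9, h0, h1, (add_mod_iff _ _ _ _ _ h1).2 h2, h3⟩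
  linarith

/-- telescoping over the digits of `U` -/
theorem tele_U {γ : Type*} (hp : ∀ ω ∈ s, 0 ≤ p ω) (k : ℕ) (U b : Ω → ℤ) (c : Ω → γ) :
    cH s p (fun ω => U ω % 2 ^ k) (fun ω => (b ω % 2 ^ k, c ω)) ≤ ∑ l ∈ range k,
      cH s p (fun ω => U ω % 2 ^ (l + 1)) (fun ω => (U ω % 2 ^ l, b ω % 2 ^ l, c ω)) := by
  have step : ∀ j, j ≤ k → cH s p (fun ω => U ω % 2 ^ k) (fun ω => (b ω % 2 ^ k, c ω)) ≤
      ∑ l ∈ range j,
        cH s p (fun ω => U ω % 2 ^ (l + 1)) (fun ω => (U ω % 2 ^ l, b ω % 2 ^ l, c ω)) +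
      cH s p (fun ω => U ω % 2 ^ k) (fun ω => (U ω % 2 ^ j, (b ω % 2 ^ k, c ω))) := by
    intro j
    induction j with
    | zero =>
      intro _
      rw [range_zero, sum_empty, zero_add]
      refine cH_anti hp _ _ _ fun ω _ _ ω' _ _ h => ?_
      simp only [pow_zero, Int.emod_one, Prod.ext_iff] at h ⊢
      exact ⟨trivial, h⟩
    | succ j ih =>
      intro hj
      refine (ih (by omega)).trans ?_
      rw [sum_range_succ]
      have h1 : cH s p (fun ω => U ω % 2 ^ k) (fun ω => (U ω % 2 ^ j, (b ω % 2 ^ k, c ω))) ≤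
          cH s p (fun ω => U ω % 2 ^ (j + 1)) (fun ω => (U ω % 2 ^ j, (b ω % 2 ^ k, c ω))) +
          cH s p (fun ω => U ω % 2 ^ k)
            (fun ω => (U ω % 2 ^ (j + 1), (U ω % 2 ^ j, (b ω % 2 ^ k, c ω)))) :=
        cH_triangle hp _ _ _
      have h2 : cH s p (fun ω => U ω % 2 ^ (j + 1)) (fun ω => (U ω % 2 ^ j, (b ω % 2 ^ k, c ω))) ≤
          cH s p (fun ω => U ω % 2 ^ (j + 1)) (fun ω => (U ω % 2 ^ j, b ω % 2 ^ j, c ω)) := by
        refine cH_anti hp _ _ _ fun ω _ _ ω' _ _ h => ?_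
        simp only [Prod.ext_iff] at h ⊢
        exact ⟨h.1, mod_mono _ _ (by omega) h.2.1, h.2.2⟩
      have h3 : cH s p (fun ω => U ω % 2 ^ k)
            (fun ω => (U ω % 2 ^ (j + 1), (U ω % 2 ^ j, (b ω % 2 ^ k, c ω)))) ≤
          cH s p (fun ω => U ω % 2 ^ k) (fun ω => (U ω % 2 ^ (j + 1), (b ω % 2 ^ k, c ω))) := by
        refine cH_anti hp _ _ _ fun ω _ _ ω' _ _ h => ?_
        simp only [Prod.ext_iff] at h ⊢
        exact ⟨h.1, h.2.2⟩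
      linarith
  have h0 : cH s p (fun ω => U ω % 2 ^ k) (fun ω => (U ω % 2 ^ k, (b ω % 2 ^ k, c ω))) = 0 := by
    refine cH_eq_zero _ _ fun ω h1 ω' h2 h => ?_
    simp only [Prod.ext_iff] at h
    exact h.1
  have := step k le_rfl
  rw [h0, add_zero] at this
  exact this

/-- one level of the digit lemma -/
theorem level_digit {γ : Type*} (hp : ∀ ω ∈ s, 0 ≤ p ω) (hp1 : ∑ ω ∈ s, p ω ≤ 1) (e1 : ℝ)
    (he1 : 0 < e1) (U b : Ω → ℤ) (c : Ω → γ) (good : ℕ → ℤ → Set ℤ) (l d : ℕ) (hd : d ≠ 0)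
    (hgood : ∀ l x,
      2 * ((range (2 ^ d)).filter fun u : ℕ => (u : ℤ) ∈ good l x).card ≤ 2 ^ d)
    (δ : ℝ) (hδ : ∑ ω ∈ s with (b ω / 2 ^ l % 2 ^ d) ∉ good l (b ω % 2 ^ l), p ω ≤ δ) :
    cH s p (fun ω => U ω % 2 ^ (l + 1)) (fun ω => (U ω % 2 ^ l, b ω % 2 ^ l, c ω)) ≤
      e1 + 12 / e1 * δ + (24 * (2 : ℝ) ^ d / e1) ^ 2 / e1 *
        ((cH s p U (fun ω => ((U ω + b ω) % 2 ^ l, c ω)) -
          cH s p U (fun ω => ((U ω + b ω) % 2 ^ (l + d), c ω))) +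
        (cH s p U (fun ω => (b ω % 2 ^ l, c ω)) -
          cH s p U (fun ω => (b ω % 2 ^ (l + d), c ω)))) := by
  have hne : NeZero (2 ^ d) := ⟨by positivity⟩
  set G : Ω → ℤ × ℤ × γ := fun ω => (U ω % 2 ^ l, b ω % 2 ^ l, c ω) with hG
  set V : Ω → ZMod (2 ^ d) := fun ω => ((U ω / 2 ^ l : ℤ) : ZMod (2 ^ d)) with hV
  set B : Ω → ZMod (2 ^ d) := fun ω => ((b ω / 2 ^ l : ℤ) : ZMod (2 ^ d)) with hB
  set κ : ZMod (2 ^ d) → ZMod 2 := fun v => ZMod.castHom (dvd_pow_self 2 hd) (ZMod 2) v with hκ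
  set Good : ℤ × ℤ × γ → Finset (ZMod (2 ^ d)) := fun g =>
    univ.filter fun β => ((β.val : ℕ) : ℤ) ∈ good l g.2.1 with hGood
  have hGc : ∀ g, 2 * (Good g).card ≤ 2 ^ d := by
    intro g
    refine le_trans (Nat.mul_le_mul_left 2 ?_) (hgood l g.2.1)
    rw [← card_image_of_injective (Good g) (ZMod.val_injective (2 ^ d))]
    refine card_le_card fun x hx => ?_
    obtain ⟨β, hβ, rfl⟩ := mem_image.1 hx
    rw [mem_filter]
    exact ⟨mem_range.2 (ZMod.val_lt β), (mem_filter.1 hβ).2⟩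
  have key := level_pdiff hp hp1 V B G κ (fun v v' h => isUnit_of_ne hd v v' h) Good hGc
  have hbad : ∑ ω ∈ s with B ω ∉ Good (G ω), p ω ≤ δ := by
    refine le_trans (le_of_eq ?_) hδ
    refine sum_congr ?_ fun _ _ => rfl
    ext ω
    simp only [mem_filter, hGood, hG, hB, mem_univ, true_and, ZMod.val_intCast]
    push_cast
    rfl
  have hδ0 : 0 ≤ δ := le_trans (sum_nonneg fun ω hω => hp ω (mem_filter.1 hω).1) hδ
  have e0 : cH s p (fun ω => U ω % 2 ^ (l + 1)) G = cH s p (fun ω => κ (V ω)) G := by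
    have hk : ∀ ω, κ (V ω) = ((U ω / 2 ^ l : ℤ) : ZMod (2 ^ 1)) := by
      intro ω
      simp only [hκ, hV, map_intCast]
    refine cH_congr _ _ _ _ (fun _ _ _ _ _ _ => Iff.rfl) fun ω _ _ ω' _ _ => ?_
    rw [hk, hk, zmod_eq]
    simp only [hG, Prod.ext_iff]
    constructor
    · rintro ⟨h1, h2⟩
      exact ⟨(split_dvd _ _ l 1 h2.1).1 h1, h2⟩
    · rintro ⟨h1, h2⟩
      exact ⟨(split_dvd _ _ l 1 h2.1).2 h1, h2⟩
  have hc : cH s p (fun ω => κ (V ω)) G ≤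
      2 * (Real.sqrt ((3 : ℕ) * ∑ ω ∈ s, p ω) * Real.sqrt (pdiff s p (fun ω => κ (V ω)) G)) :=
    cH_le_pdiff hp _ _ 3 fun y => ⟨univ, by simp, fun ω _ _ => mem_univ _⟩
  have hVf : ∀ ω ∈ s, ∀ ω' ∈ s, U ω = U ω' → V ω = V ω' := fun ω _ ω' _ h => by
    simp only [hV, h]
  have hJ1 : cH s p V G - cH s p V (fun ω => (B ω, G ω)) ≤
      cH s p U (fun ω => (b ω % 2 ^ l, c ω)) - cH s p U (fun ω => (b ω % 2 ^ (l + d), c ω)) := by
    refine le_trans (mi_dp hp U V G B (fun ω => b ω % 2 ^ (l + d)) hVf ?_) (level_J hp U b c l d)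
    intro ω _ ω' _ h1 h2
    simp only [hG, Prod.ext_iff] at h2
    simp only [hB]
    rw [zmod_eq]
    exact (split_dvd _ _ l d h2.2.1).1 h1
  have hI1 : cH s p V G - cH s p V (fun ω => (V ω + B ω, G ω)) ≤
      cH s p U (fun ω => ((U ω + b ω) % 2 ^ l, c ω)) -
        cH s p U (fun ω => ((U ω + b ω) % 2 ^ (l + d), c ω)) := by
    refine le_trans (mi_dp hp U V G (fun ω => V ω + B ω) (fun ω => (U ω + b ω) % 2 ^ (l + d))
      hVf ?_) (level_I hp U b c l d)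
    intro ω _ ω' _ h1 h2
    simp only [hG, Prod.ext_iff] at h2
    simp only [hB, hV]
    rw [← Int.cast_add, ← Int.cast_add, zmod_eq]
    exact carry _ _ _ _ l d h2.1 h2.2.1 h1
  have hJ0 : 0 ≤ cH s p U (fun ω => (b ω % 2 ^ l, c ω)) -
      cH s p U (fun ω => (b ω % 2 ^ (l + d), c ω)) :=
    le_trans (sub_nonneg.2 (cH_cond_le hp V B G)) hJ1
  have hI0 : 0 ≤ cH s p U (fun ω => ((U ω + b ω) % 2 ^ l, c ω)) -
        cH s p U (fun ω => ((U ω + b ω) % 2 ^ (l + d), c ω)) :=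
    le_trans (sub_nonneg.2 (cH_cond_le hp V (fun ω => V ω + B ω) G)) hI1
  rw [e0]
  refine am_gm_level e1 (2 ^ d) (∑ ω ∈ s with B ω ∉ Good (G ω), p ω) δ _ _
    (pdiff s p (fun ω => κ (V ω)) G) _ (∑ ω ∈ s, p ω) he1 (by positivity) hI0 hJ0 hp1 hδ0
    hbad ?_ (by exact_mod_cast hc)
  refine key.trans ?_
  have h1 := Real.sqrt_le_sqrt hJ1
  have h2 := Real.sqrt_le_sqrt hI1
  have h3 : (0 : ℝ) ≤ 4 * 2 ^ d := by positivity
  push_cast
  nlinarith [mul_le_mul_of_nonneg_left (add_le_add h1 h2) h3]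

end entropy

end Dg

theorem digit2 (e1 : ℝ) (he1 : 0 < e1) : ∃ K1 : ℝ, 0 ≤ K1 ∧ ∀ d : ℕ, 1 ≤ d → ∃ K2 : ℝ, 0 ≤ K2 ∧
  ∀ {Ω γ : Type} (s : Finset Ω) (p : Ω → ℝ) (_ : ∀ ω ∈ s, 0 ≤ p ω) (_ : ∑ ω ∈ s, p ω ≤ 1)
    (l : ℕ) (U b : Ω → ℤ) (c : Ω → γ) (good : ℕ → ℤ → Set ℤ)
    (_ : ∀ i x, 2 * ((Finset.range (2 ^ d)).filter fun u : ℕ => (u : ℤ) ∈ good i x).card ≤ 2 ^ d)
    (δ : ℕ → ℝ)
    (_ : ∀ i < l, ∑ ω ∈ s with (b ω / 2 ^ i % 2 ^ d) ∉ good i (b ω % 2 ^ i), p ω ≤ δ i),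
    cH s p (fun ω => U ω % 2 ^ l) c ≤ l * e1 + K1 * ∑ i ∈ range l, δ i
      + K2 * ((cH s p U c - cH s p U (fun ω => (b ω % 2 ^ (l + d), c ω)))
            + (cH s p U c - cH s p U (fun ω => ((U ω + b ω) % 2 ^ (l + d), c ω)))) := by
  refine ⟨12 / e1, by positivity, fun d hd => ?_⟩
  refine ⟨1 + (24 * (2 : ℝ) ^ d / e1) ^ 2 / e1 * d, by positivity, ?_⟩
  intro Ω γ s p hp hp1 k U b c good hgood δ hδ
  set C : ℝ := (24 * (2 : ℝ) ^ d / e1) ^ 2 / e1 with hC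
  have hC0 : 0 ≤ C := by positivity
  set f : ℕ → ℝ := fun l => cH s p U c - cH s p U (fun ω => (b ω % 2 ^ l, c ω)) with hf
  set g : ℕ → ℝ := fun l => cH s p U c - cH s p U (fun ω => ((U ω + b ω) % 2 ^ l, c ω)) with hg
  have hf0 : ∀ l, 0 ≤ f l := fun l => sub_nonneg.2 (cH_cond_le hp _ _ _)
  have hg0 : ∀ l, 0 ≤ g l := fun l => sub_nonneg.2 (cH_cond_le hp _ _ _)
  have hfm : ∀ l l', l ≤ l' → f l ≤ f l' := by
    intro l l' hl
    have : cH s p U (fun ω => (b ω % 2 ^ l', c ω)) ≤ cH s p U (fun ω => (b ω % 2 ^ l, c ω)) := by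
      refine cH_anti hp _ _ _ fun ω _ _ ω' _ _ h => ?_
      simp only [Prod.ext_iff] at h ⊢
      exact ⟨Dg.mod_mono _ _ hl h.1, h.2⟩
    simp only [hf]
    linarith
  have hgm : ∀ l l', l ≤ l' → g l ≤ g l' := by
    intro l l' hl
    have : cH s p U (fun ω => ((U ω + b ω) % 2 ^ l', c ω)) ≤
        cH s p U (fun ω => ((U ω + b ω) % 2 ^ l, c ω)) := by
      refine cH_anti hp _ _ _ fun ω _ _ ω' _ _ h => ?_
      simp only [Prod.ext_iff] at h ⊢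
      exact ⟨Dg.mod_mono _ _ hl h.1, h.2⟩
    simp only [hg]
    linarith
  have h1 := Dg.tele_U hp k U b c
  have h2 : ∑ l ∈ range k,
      cH s p (fun ω => U ω % 2 ^ (l + 1)) (fun ω => (U ω % 2 ^ l, b ω % 2 ^ l, c ω)) ≤
      ∑ l ∈ range k, ((e1 + 12 / e1 * δ l) + C * ((g (l + d) - g l) + (f (l + d) - f l))) := by
    refine sum_le_sum fun l hl => ?_
    have := Dg.level_digit hp hp1 e1 he1 U b c good l d (by omega) hgood (δ l) (hδ l (mem_range.1 hl))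
    refine this.trans (le_of_eq ?_)
    simp only [hf, hg, hC]
    ring
  have h3 := shift_sum f k d (f (k + d)) hf0 (fun l hl => hfm l _ hl) d le_rfl
  have h4 := shift_sum g k d (g (k + d)) hg0 (fun l hl => hgm l _ hl) d le_rfl
  have h22 : ∑ l ∈ range k, ((e1 + 12 / e1 * δ l) + C * ((g (l + d) - g l) + (f (l + d) - f l))) =
      (k * e1 + 12 / e1 * ∑ l ∈ range k, δ l) +
        C * (∑ l ∈ range k, (g (l + d) - g l) + ∑ l ∈ range k, (f (l + d) - f l)) := by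
    rw [sum_add_distrib, sum_add_distrib, sum_const, card_range, nsmul_eq_mul, ← mul_sum,
      ← mul_sum, sum_add_distrib]
  rw [h22] at h2
  have h5 : cH s p (fun ω => U ω % 2 ^ k) c ≤ f k +
      cH s p (fun ω => U ω % 2 ^ k) (fun ω => (b ω % 2 ^ k, c ω)) := by
    have := mi_dp hp U (fun ω => U ω % 2 ^ k) c (fun ω => b ω % 2 ^ k) (fun ω => b ω % 2 ^ k)
      (fun ω _ ω' _ h => by simp only [h]) (fun ω _ ω' _ h _ => h)
    simp only [hf]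
    linarith
  have h6 := hfm k (k + d) (Nat.le_add_right k d)
  have h7 := hg0 (k + d)
  have h8 : C * (∑ l ∈ range k, (g (l + d) - g l) + ∑ l ∈ range k, (f (l + d) - f l)) ≤
      C * (d * g (k + d) + d * f (k + d)) := mul_le_mul_of_nonneg_left (add_le_add h4 h3) hC0
  have e : (1 + C * d) * (f (k + d) + g (k + d)) =
      f (k + d) + g (k + d) + C * (d * g (k + d) + d * f (k + d)) := by ring
  show cH s p (fun ω => U ω % 2 ^ k) c ≤ k * e1 + 12 / e1 * ∑ l ∈ range k, δ l +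
    (1 + C * d) * (f (k + d) + g (k + d))
  rw [e]
  have h9 : cH s p (fun ω => U ω % 2 ^ k) (fun ω => (b ω % 2 ^ k, c ω)) ≤
      (k * e1 + 12 / e1 * ∑ l ∈ range k, δ l) +
      C * (d * g (k + d) + d * f (k + d)) := h1.trans (h2.trans (by linarith))
  linarith

end Pool.Agent.Collatz3.PB
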