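import Mathlib
import Pool.Agent.Collatz3.Ent

set_option autoImplicit false

/-!
Entropy facts used by PowerBarrier: mutual information from a density bound, entropy from a
comparison measure, effect of a variable with few values.
-/

open Finset
open scoped Classical

namespace Pool.Agent.Collatz3.PB

/-- Gibbs' inequality -/
theorem gibbs_sum {Ω α : Type} {s : Finset Ω} {p : Ω → ℝ} (hp : ∀ ω ∈ s, 0 ≤ p ω)
    (hp1 : ∑ ω ∈ s, p ω = 1) (X : Ω → α) (f : α → ℝ) (hf0 : ∀ ω ∈ s, 0 ≤ f (X ω))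
    (hf : ∀ ω ∈ s, 0 < p ω → 0 < f (X ω)) (hf1 : ∑ a ∈ s.image X, f a ≤ 1) :
    ∑ ω ∈ s, p ω * (Real.log (f (X ω)) - Real.log (mv s p X (X ω))) ≤ 0 := by
  set h : α → ℝ := fun a => max (f a) 0 with hh
  have hhX : ∀ ω ∈ s, h (X ω) = f (X ω) := fun ω hω => max_eq_left (hf0 ω hω)
  have h1 := sum_div_le (p := p) (s := s) X h (fun a => le_max_right _ _) (s.image X)
    (fun ω hω => mem_image_of_mem _ hω)
  have h2 : ∑ a ∈ s.image X, h a = ∑ a ∈ s.image X, f a := by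
    refine sum_congr rfl fun a ha => ?_
    obtain ⟨ω, hω, rfl⟩ := mem_image.1 ha
    exact hhX ω hω
  have pt : ∀ ω ∈ s, p ω * (Real.log (f (X ω)) - Real.log (mv s p X (X ω))) ≤
      p ω * (h (X ω) / mv s p X (X ω)) - p ω := by
    intro ω hω
    rcases (hp ω hω).eq_or_lt with h0 | h0
    · rw [← h0]; simp
    · have a1 : 0 < mv s p X (X ω) := h0.trans_le (le_mv hp X hω)
      have a2 : 0 < f (X ω) := hf ω hω h0
      have hl := Real.log_le_sub_one_of_pos (show 0 < f (X ω) / mv s p X (X ω) by positivity)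
      rw [Real.log_div a2.ne' a1.ne'] at hl
      rw [hhX ω hω]
      have := mul_le_mul_of_nonneg_left hl h0.le
      linarith
  refine (sum_le_sum pt).trans ?_
  rw [sum_sub_distrib, hp1]
  linarith

theorem mv_unit {Ω : Type} {s : Finset Ω} {p : Ω → ℝ} (hp1 : ∑ ω ∈ s, p ω = 1) :
    mv s p (fun _ => ()) () = 1 := by
  unfold mv
  rw [← hp1]
  refine sum_congr ?_ fun _ _ => rfl
  ext ω
  simp

theorem mv_pair_unit {Ω α : Type} {s : Finset Ω} {p : Ω → ℝ} (X : Ω → α) (ω : Ω) :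
    mv s p (fun ω => (X ω, ())) (X ω, ()) = mv s p X (X ω) := by
  refine mv_congr (fun ω => (X ω, ())) X fun ω' _ => ?_
  simp

theorem cH_unit {Ω α : Type} {s : Finset Ω} {p : Ω → ℝ} (hp1 : ∑ ω ∈ s, p ω = 1) (X : Ω → α) :
    cH s p X (fun _ => ()) = ∑ ω ∈ s, p ω * (- Real.log (mv s p X (X ω))) := by
  unfold cH
  refine sum_congr rfl fun ω _ => ?_
  rw [mv_unit hp1, mv_pair_unit]
  simp

/-- mutual information from a density bound -/
theorem mi_of_density {Ω α β : Type} {s : Finset Ω} {p : Ω → ℝ} (hp : ∀ ω ∈ s, 0 ≤ p ω)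
    (hp1 : ∑ ω ∈ s, p ω = 1) (X : Ω → α) (Y : Ω → β) (f : α → ℝ) (g : β → ℝ) {D : ℝ} (hD : 1 ≤ D)
    (hf : ∀ a, 0 ≤ f a) (hg : ∀ b, 0 ≤ g b) (hf1 : ∑ a ∈ s.image X, f a ≤ 1)
    (hg1 : ∑ b ∈ s.image Y, g b ≤ 1)
    (h : ∀ ω ∈ s, mv s p (fun ω => (X ω, Y ω)) (X ω, Y ω) ≤ D * (f (X ω) * g (Y ω))) :
    cH s p X (fun _ => ()) - cH s p X Y ≤ Real.log D := by
  have hD0 : 0 < D := by linarith
  have hpos : ∀ ω ∈ s, 0 < p ω → 0 < f (X ω) ∧ 0 < g (Y ω) := by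
    intro ω hω h0
    have a1 : 0 < mv s p (fun ω => (X ω, Y ω)) (X ω, Y ω) :=
      h0.trans_le (le_mv hp (fun ω => (X ω, Y ω)) hω)
    have a2 : 0 < D * (f (X ω) * g (Y ω)) := a1.trans_le (h ω hω)
    have a3 : 0 < f (X ω) * g (Y ω) := pos_of_mul_pos_right a2 hD0.le
    have a4 : f (X ω) ≠ 0 := fun h => by rw [h, zero_mul] at a3; exact lt_irrefl _ a3
    have a5 : g (Y ω) ≠ 0 := fun h => by rw [h, mul_zero] at a3; exact lt_irrefl _ a3
    exact ⟨lt_of_le_of_ne (hf _) (Ne.symm a4), lt_of_le_of_ne (hg _) (Ne.symm a5)⟩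
  have g1 := gibbs_sum hp hp1 X f (fun ω _ => hf _) (fun ω hω h0 => (hpos ω hω h0).1) hf1
  have g2 := gibbs_sum hp hp1 Y g (fun ω _ => hg _) (fun ω hω h0 => (hpos ω hω h0).2) hg1
  rw [cH_unit hp1]
  unfold cH
  rw [← sum_sub_distrib]
  have pt : ∀ ω ∈ s, p ω * (- Real.log (mv s p X (X ω))) - p ω * (Real.log (mv s p Y (Y ω)) -
      Real.log (mv s p (fun ω => (X ω, Y ω)) (X ω, Y ω))) ≤ p ω * Real.log D +
      (p ω * (Real.log (f (X ω)) - Real.log (mv s p X (X ω))) +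
        p ω * (Real.log (g (Y ω)) - Real.log (mv s p Y (Y ω)))) := by
    intro ω hω
    rcases (hp ω hω).eq_or_lt with h0 | h0
    · rw [← h0]; simp
    · have a1 : 0 < mv s p (fun ω => (X ω, Y ω)) (X ω, Y ω) :=
        h0.trans_le (le_mv hp (fun ω => (X ω, Y ω)) hω)
      obtain ⟨a2, a3⟩ := hpos ω hω h0
      have hl := Real.log_le_log a1 (h ω hω)
      rw [Real.log_mul hD0.ne' (by positivity), Real.log_mul a2.ne' a3.ne'] at hl
      have := mul_le_mul_of_nonneg_left hl h0.le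
      linarith
  refine (sum_le_sum pt).trans ?_
  rw [sum_add_distrib, sum_add_distrib, ← sum_mul, hp1]
  linarith

/-- entropy from a comparison measure -/
theorem cH_le_gibbs {Ω α : Type} {s : Finset Ω} {p : Ω → ℝ} (hp : ∀ ω ∈ s, 0 ≤ p ω)
    (hp1 : ∑ ω ∈ s, p ω = 1) (X : Ω → α) (f : α → ℝ) (hf : ∀ ω ∈ s, 0 < f (X ω))
    (hf1 : ∑ a ∈ s.image X, f a ≤ 1) :
    cH s p X (fun _ => ()) ≤ ∑ ω ∈ s, p ω * (-Real.log (f (X ω))) := by
  have g1 := gibbs_sum hp hp1 X f (fun ω hω => (hf ω hω).le) (fun ω hω _ => hf ω hω) hf1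
  rw [cH_unit hp1]
  have e : ∑ ω ∈ s, p ω * (Real.log (f (X ω)) - Real.log (mv s p X (X ω))) =
      ∑ ω ∈ s, p ω * (- Real.log (mv s p X (X ω))) - ∑ ω ∈ s, p ω * (-Real.log (f (X ω))) := by
    rw [← sum_sub_distrib]
    exact sum_congr rfl fun ω _ => by ring
  rw [e] at g1
  linarith

/-- a variable `W` with few values changes a mutual information by little -/
theorem mi_extra {Ω α β γ δ : Type} {s : Finset Ω} {p : Ω → ℝ} (hp : ∀ ω ∈ s, 0 ≤ p ω)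
    (hp1 : ∑ ω ∈ s, p ω = 1) (X : Ω → α) (Y : Ω → β) (Z : Ω → γ) (W : Ω → δ) {N : ℕ}
    (hN0 : 0 < N) (hN : (s.image W).card ≤ N) :
    cH s p X (fun ω => (Z ω, W ω)) - cH s p X (fun ω => (Y ω, Z ω, W ω)) ≤
      cH s p X Z - cH s p X (fun ω => (Y ω, Z ω)) + Real.log N := by
  have h1 : cH s p X (fun ω => (Z ω, W ω)) ≤ cH s p X Z := by
    refine cH_anti hp X _ _ fun ω _ _ ω' _ _ h => ?_
    exact (Prod.ext_iff.1 h).1
  have h2 : cH s p X (fun ω => (Y ω, Z ω)) ≤ cH s p W (fun ω => (Y ω, Z ω)) +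
      cH s p X (fun ω => (W ω, (Y ω, Z ω))) := cH_triangle hp W X (fun ω => (Y ω, Z ω))
  have h3 : cH s p X (fun ω => (W ω, (Y ω, Z ω))) ≤ cH s p X (fun ω => (Y ω, Z ω, W ω)) := by
    refine cH_anti hp X _ _ fun ω _ _ ω' _ _ h => ?_
    simp only [Prod.mk.injEq] at h ⊢
    tauto
  have h4 : cH s p W (fun ω => (Y ω, Z ω)) ≤ (∑ ω ∈ s, p ω) * Real.log N :=
    cH_le_log' hp W _ (s.image W) N hN0 (fun ω hω => mem_image_of_mem _ hω) hN
  rw [hp1, one_mul] at h4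
  linarith

end Pool.Agent.Collatz3.PB
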