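import Pool.Agent.Collatz3.PBBasic

set_option autoImplicit false

/-!
At most half of the blocks of `d` parities contain more than `d / 2` odd terms.
-/

open Finset
open scoped Classical

namespace Pool.Agent.Collatz3.PB

open Pool.Agent.Helper14 (T)

/-- number of residues with a given number of odd terms -/
theorem card_jt (d j : ℕ) :
    ((range (2 ^ d)).filter fun r : ℕ => jt d (r : ℤ) = j).card = d.choose j := by
  have h : (∑ r ∈ range (2 ^ d), (Polynomial.X : Polynomial ℝ) ^ jt d (r : ℤ)) =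
      (Polynomial.X + 1) ^ d := by
    refine Polynomial.funext fun x => ?_
    have := sum_pow d x 1
    simp only [one_pow, mul_one] at this
    rw [Polynomial.eval_finset_sum]
    simp only [Polynomial.eval_pow, Polynomial.eval_X, Polynomial.eval_add, Polynomial.eval_one]
    exact this
  have h2 := congrArg (fun P => Polynomial.coeff P j) h
  simp only [Polynomial.finset_sum_coeff, Polynomial.coeff_X_pow,
    Polynomial.coeff_X_add_one_pow] at h2
  rw [← sum_filter, sum_const, nsmul_eq_mul, mul_one] at h2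
  have h3 : ((range (2 ^ d)).filter fun r : ℕ => j = jt d (r : ℤ)) =
      (range (2 ^ d)).filter fun r : ℕ => jt d (r : ℤ) = j := by
    ext r
    simp only [mem_filter, eq_comm]
  rw [h3] at h2
  exact_mod_cast h2

theorem half (d : ℕ) :
    2 * ((range (2 ^ d)).filter fun r : ℕ => d < 2 * jt d (r : ℤ)).card ≤ 2 ^ d := by
  have h1 : ((range (2 ^ d)).filter fun r : ℕ => d < 2 * jt d (r : ℤ)).card =
      ∑ j ∈ range (d + 1), if d < 2 * j then d.choose j else 0 := by
    rw [card_eq_sum_card_fiberwise (f := fun r : ℕ => jt d (r : ℤ)) (t := range (d + 1))]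
    · refine sum_congr rfl fun j _ => ?_
      split_ifs with hj
      · rw [← card_jt d j]
        congr 1
        ext r
        simp only [mem_filter]
        constructor
        · rintro ⟨⟨h1, _⟩, h2⟩; exact ⟨h1, h2⟩
        · rintro ⟨h1, h2⟩; exact ⟨⟨h1, h2.symm ▸ hj⟩, h2⟩
      · rw [card_eq_zero, filter_eq_empty_iff]
        rintro r hr h2
        rw [mem_filter] at hr
        rw [h2] at hr
        exact hj hr.2
    · intro r _
      simp only [coe_range, Set.mem_Iio]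
      have := jt_le d (r : ℤ)
      omega
  rw [h1, two_mul]
  have h2 : (∑ j ∈ range (d + 1), if d < 2 * j then d.choose j else 0) =
      ∑ j ∈ range (d + 1), if 2 * j < d then d.choose j else 0 := by
    rw [← sum_flip (fun j => if d < 2 * j then d.choose j else 0)]
    refine sum_congr rfl fun j hj => ?_
    have hj' : j ≤ d := Nat.lt_succ_iff.1 (mem_range.1 hj)
    rw [Nat.choose_symm hj']
    by_cases h : 2 * j < d
    · rw [if_pos h, if_pos (by omega)]
    · rw [if_neg h, if_neg (by omega)]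
  nth_rewrite 2 [h2]
  rw [← sum_add_distrib, ← Nat.sum_range_choose]
  refine sum_le_sum fun j _ => ?_
  split_ifs <;> omega

theorem good_card {d : ℕ} (hd : 1 ≤ d) (i : ℕ) (x : ℤ) :
    2 * ((range (2 ^ d)).filter fun u : ℕ => d < 2 * jt d (T^[i] (x + 2 ^ i * (u : ℤ)))).card ≤
      2 ^ d := by
  refine le_trans (Nat.mul_le_mul_left 2 ?_) (half d)
  have hpos : (0 : ℤ) < 2 ^ d := by positivity
  refine card_le_card_of_injOn (fun u => (((T^[i] x + 3 ^ jt i x * (u : ℤ)) % 2 ^ d)).toNat) ?_ ?_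
  · intro u hu
    simp only [coe_filter, mem_range, Set.mem_setOf_eq] at hu ⊢
    have h0 := Int.emod_nonneg (T^[i] x + 3 ^ jt i x * (u : ℤ)) hpos.ne'
    have h1 := Int.emod_lt_of_pos (T^[i] x + 3 ^ jt i x * (u : ℤ)) hpos
    have h2 : ((((T^[i] x + 3 ^ jt i x * (u : ℤ)) % 2 ^ d).toNat : ℕ) : ℤ) =
        (T^[i] x + 3 ^ jt i x * (u : ℤ)) % 2 ^ d := Int.toNat_of_nonneg h0
    refine ⟨?_, ?_⟩
    · have : ((((T^[i] x + 3 ^ jt i x * (u : ℤ)) % 2 ^ d).toNat : ℕ) : ℤ) < ((2 ^ d : ℕ) : ℤ) := by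
        rw [h2]; push_cast; exact h1
      exact_mod_cast this
    · rw [h2]
      have h3 := hu.2
      rw [iter_shift] at h3
      rw [jt_congr (t := d) (n := (T^[i] x + 3 ^ jt i x * (u : ℤ)) % 2 ^ d)
        (n' := T^[i] x + 3 ^ jt i x * (u : ℤ)) (Int.emod_emod_of_dvd _ dvd_rfl)]
      exact h3
  · intro u hu u' hu' h
    simp only [coe_filter, mem_range, Set.mem_setOf_eq] at hu hu' h
    have h0 := Int.emod_nonneg (T^[i] x + 3 ^ jt i x * (u : ℤ)) hpos.ne'
    have h0' := Int.emod_nonneg (T^[i] x + 3 ^ jt i x * (u' : ℤ)) hpos.ne'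
    have h1 : (T^[i] x + 3 ^ jt i x * (u : ℤ)) % 2 ^ d =
        (T^[i] x + 3 ^ jt i x * (u' : ℤ)) % 2 ^ d := by
      rw [← Int.toNat_of_nonneg h0, ← Int.toNat_of_nonneg h0', h]
    have h2 : (2 : ℤ) ^ d ∣ 3 ^ jt i x * ((u : ℤ) - u') := by
      have h3 := Int.emod_eq_emod_iff_emod_sub_eq_zero.1 h1
      have h4 := Int.dvd_of_emod_eq_zero h3
      have h5 : T^[i] x + 3 ^ jt i x * (u : ℤ) - (T^[i] x + 3 ^ jt i x * (u' : ℤ)) =
          3 ^ jt i x * ((u : ℤ) - u') := by ring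
      rwa [h5] at h4
    have h3 : IsCoprime ((2 : ℤ) ^ d) (3 ^ jt i x) := by
      refine IsCoprime.pow ?_
      exact ⟨-1, 1, by norm_num⟩
    have h4 : (2 : ℤ) ^ d ∣ (u : ℤ) - u' := h3.dvd_of_dvd_mul_left h2
    have h5 : |(u : ℤ) - u'| < 2 ^ d := by
      have a1 : (u : ℤ) < 2 ^ d := by exact_mod_cast hu.1
      have a2 : (u' : ℤ) < 2 ^ d := by exact_mod_cast hu'.1
      rw [abs_lt]
      constructor <;> omega
    have h6 := Int.eq_zero_of_abs_lt_dvd h4 h5
    omega

theorem good_block (d i : ℕ) (b : ℤ) :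
    jt d (T^[i] (b % 2 ^ i + 2 ^ i * (b / 2 ^ i % 2 ^ d))) = jt d (T^[i] b) := by
  refine jt_congr ?_
  refine ((mod_iff i d _ _).1 ?_).2
  have h : b = (b % 2 ^ i + 2 ^ i * (b / 2 ^ i % 2 ^ d)) + 2 ^ (i + d) * (b / 2 ^ i / 2 ^ d) := by
    have h1 := Int.emod_add_mul_ediv b (2 ^ i)
    have h2 := Int.emod_add_mul_ediv (b / 2 ^ i) (2 ^ d)
    calc b = b % 2 ^ i + 2 ^ i * (b / 2 ^ i) := h1.symm
      _ = b % 2 ^ i + 2 ^ i * (b / 2 ^ i % 2 ^ d + 2 ^ d * (b / 2 ^ i / 2 ^ d)) := by rw [h2]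
      _ = _ := by rw [pow_add]; ring
  conv_rhs => rw [h]
  rw [Int.add_mul_emod_self_left]

end Pool.Agent.Collatz3.PB
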