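import Pool.Agent.Collatz3.PBDefs
import Pool.Agent.Collatz3.DigitD

set_option autoImplicit false

/-!
PowerBarrier, module PAIR: the pair space.
-/

open Finset
open scoped Classical

namespace Pool.Agent.Collatz3.PB

open Pool.Agent.Helper14 (T)

theorem pp_nonneg (j : ℕ) (E : Finset ℤ) (ω : ℤ × ℤ) : 0 ≤ pp j E ω := by
  unfold pp
  positivity

theorem mem_PS {j : ℕ} {E : Finset ℤ} {ω : ℤ × ℤ} :
    ω ∈ PS j E ↔ ω.1 ∈ E ∧ ω.2 ∈ E ∧ ω.1 % 2 ^ j = ω.2 % 2 ^ j := by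
  unfold PS
  rw [mem_filter, mem_product, and_assoc]

/-- the class of `n` -/
noncomputable def pairCls (j : ℕ) (E : Finset ℤ) (n : ℤ) : Finset ℤ :=
  E.filter fun m => m % 2 ^ j = n % 2 ^ j

theorem pair_self {j : ℕ} {E : Finset ℤ} {n : ℤ} (hn : n ∈ E) : n ∈ pairCls j E n :=
  mem_filter.2 ⟨hn, rfl⟩

theorem pair_cls_pos {j : ℕ} {E : Finset ℤ} {n : ℤ} (hn : n ∈ E) :
    (0 : ℝ) < (pairCls j E n).card := by
  exact_mod_cast card_pos.2 ⟨n, pair_self hn⟩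

theorem pair_cls_eq {j : ℕ} {E : Finset ℤ} {n m : ℤ} (h : n % 2 ^ j = m % 2 ^ j) :
    pairCls j E n = pairCls j E m := by
  unfold pairCls
  rw [h]

theorem pair_pp (j : ℕ) (E : Finset ℤ) (n m : ℤ) :
    pp j E (n, m) = 1 / (E.card * (pairCls j E n).card) := rfl

theorem pair_sum1 (j : ℕ) (E : Finset ℤ) (F : ℤ × ℤ → ℝ) :
    ∑ ω ∈ PS j E, F ω = ∑ n ∈ E, ∑ m ∈ pairCls j E n, F (n, m) := by
  unfold PS pairCls
  rw [sum_filter, sum_product]
  refine sum_congr rfl fun n _ => ?_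
  rw [sum_filter]
  refine sum_congr rfl fun m _ => ?_
  by_cases h : n % 2 ^ j = m % 2 ^ j
  · rw [if_pos h, if_pos h.symm]
  · rw [if_neg h, if_neg fun h' => h h'.symm]

theorem pair_sum2 (j : ℕ) (E : Finset ℤ) (F : ℤ × ℤ → ℝ) :
    ∑ ω ∈ PS j E, F ω = ∑ m ∈ E, ∑ n ∈ pairCls j E m, F (n, m) := by
  unfold PS pairCls
  rw [sum_filter, sum_product_right]
  refine sum_congr rfl fun n _ => ?_
  rw [sum_filter]

theorem pair_in1 {j : ℕ} {E : Finset ℤ} {n : ℤ} (hn : n ∈ E) :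
    ∑ m ∈ pairCls j E n, pp j E (n, m) = 1 / E.card := by
  simp only [pair_pp]
  rw [sum_const, nsmul_eq_mul]
  have h1 := pair_cls_pos (j := j) hn
  have h2 : (0 : ℝ) < E.card := by exact_mod_cast card_pos.2 ⟨n, hn⟩
  field_simp

theorem pair_in2 {j : ℕ} {E : Finset ℤ} {m : ℤ} (hm : m ∈ E) :
    ∑ n ∈ pairCls j E m, pp j E (n, m) = 1 / E.card := by
  have h3 : ∀ n ∈ pairCls j E m, pp j E (n, m) = 1 / (E.card * (pairCls j E m).card) := by
    intro n hn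
    rw [pair_pp, pair_cls_eq (mem_filter.1 hn).2]
  rw [sum_congr rfl h3, sum_const, nsmul_eq_mul]
  have h1 := pair_cls_pos (j := j) hm
  have h2 : (0 : ℝ) < E.card := by exact_mod_cast card_pos.2 ⟨m, hm⟩
  field_simp

theorem pair_G1 (j : ℕ) (E : Finset ℤ) (Q : ℤ → Prop) [DecidablePred Q] :
    ∑ ω ∈ PS j E with Q ω.1, pp j E ω = ((E.filter Q).card : ℝ) / E.card := by
  rw [sum_filter, pair_sum1]
  have h : ∀ n ∈ E, ∑ m ∈ pairCls j E n, (if Q n then pp j E (n, m) else 0) =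
      if Q n then 1 / (E.card : ℝ) else 0 := by
    intro n hn
    by_cases hQ : Q n
    · simp only [if_pos hQ]
      exact pair_in1 hn
    · simp only [if_neg hQ, sum_const_zero]
  rw [sum_congr rfl h, ← sum_filter, sum_const, nsmul_eq_mul]
  ring

theorem pair_G2 (j : ℕ) (E : Finset ℤ) (Q : ℤ → Prop) [DecidablePred Q] :
    ∑ ω ∈ PS j E with Q ω.2, pp j E ω = ((E.filter Q).card : ℝ) / E.card := by
  rw [sum_filter, pair_sum2]
  have h : ∀ m ∈ E, ∑ n ∈ pairCls j E m, (if Q m then pp j E (n, m) else 0) =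
      if Q m then 1 / (E.card : ℝ) else 0 := by
    intro n hn
    by_cases hQ : Q n
    · simp only [if_pos hQ]
      exact pair_in2 hn
    · simp only [if_neg hQ, sum_const_zero]
  rw [sum_congr rfl h, ← sum_filter, sum_const, nsmul_eq_mul]
  ring

theorem pair_G3 (j : ℕ) {E : Finset ℤ} {n : ℤ} (hn : n ∈ E) (Q : ℤ → Prop) [DecidablePred Q] :
    ∑ ω ∈ PS j E with (ω.1 = n ∧ Q ω.2), pp j E ω =
      (((pairCls j E n).filter Q).card : ℝ) / (E.card * (pairCls j E n).card) := by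
  rw [sum_filter, pair_sum1]
  have h : ∀ n' ∈ E, ∑ m ∈ pairCls j E n', (if n' = n ∧ Q m then pp j E (n', m) else 0) =
      if n' = n then (((pairCls j E n).filter Q).card : ℝ) / (E.card * (pairCls j E n).card)
        else 0 := by
    intro n' _
    by_cases hQ : n' = n
    · subst hQ
      simp only [true_and, if_true]
      rw [← sum_filter]
      simp only [pair_pp]
      rw [sum_const, nsmul_eq_mul]
      ring
    · simp only [hQ, false_and, if_false, sum_const_zero]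
  rw [sum_congr rfl h, sum_ite_eq' E n, if_pos hn]

theorem pair_G4 (j : ℕ) {E : Finset ℤ} {m : ℤ} (hm : m ∈ E) (Q : ℤ → Prop) [DecidablePred Q] :
    ∑ ω ∈ PS j E with (ω.2 = m ∧ Q ω.1), pp j E ω =
      (((pairCls j E m).filter Q).card : ℝ) / (E.card * (pairCls j E m).card) := by
  rw [sum_filter, pair_sum2]
  have h : ∀ m' ∈ E, ∑ n ∈ pairCls j E m', (if m' = m ∧ Q n then pp j E (n, m') else 0) =
      if m' = m then (((pairCls j E m).filter Q).card : ℝ) / (E.card * (pairCls j E m).card)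
        else 0 := by
    intro m' _
    by_cases hQ : m' = m
    · subst hQ
      simp only [true_and, if_true]
      rw [← sum_filter]
      have h3 : ∀ n ∈ (pairCls j E m').filter Q, pp j E (n, m') =
          1 / (E.card * (pairCls j E m').card) := by
        intro n hn
        rw [pair_pp, pair_cls_eq (mem_filter.1 (mem_filter.1 hn).1).2]
      rw [sum_congr rfl h3, sum_const, nsmul_eq_mul]
      ring
    · simp only [hQ, false_and, if_false, sum_const_zero]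
  rw [sum_congr rfl h, sum_ite_eq' E m, if_pos hm]

theorem sum_fst (j : ℕ) {E : Finset ℤ} {n : ℤ} (hn : n ∈ E) :
    ∑ ω ∈ PS j E with ω.1 = n, pp j E ω = 1 / E.card := by
  have := pair_G1 j E (fun m => m = n)
  rw [filter_eq' E n, if_pos hn, card_singleton, Nat.cast_one] at this
  exact this

theorem sum_snd (j : ℕ) {E : Finset ℤ} {n : ℤ} (hn : n ∈ E) :
    ∑ ω ∈ PS j E with ω.2 = n, pp j E ω = 1 / E.card := by
  have := pair_G2 j E (fun m => m = n)
  rw [filter_eq' E n, if_pos hn, card_singleton, Nat.cast_one] at this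
  exact this

theorem sum_all (j : ℕ) {E : Finset ℤ} (hE : E.Nonempty) : ∑ ω ∈ PS j E, pp j E ω = 1 := by
  have := pair_G1 j E (fun _ => True)
  simp only [filter_true] at this
  rw [this]
  have h2 : (0 : ℝ) < E.card := by exact_mod_cast card_pos.2 hE
  exact div_self h2.ne'

/-- masses as filtered sums -/
theorem pair_mv {Ω τ : Type} {s : Finset Ω} {p : Ω → ℝ} (T : Ω → τ) (t : τ) (R : Ω → Prop)
    [DecidablePred R] (h : ∀ ω ∈ s, T ω = t ↔ R ω) : mv s p T t = ∑ ω ∈ s with R ω, p ω := by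
  unfold mv
  refine sum_congr ?_ fun _ _ => rfl
  ext ω
  simp only [mem_filter]
  constructor
  · rintro ⟨h1, h2⟩; exact ⟨h1, (h ω h1).1 h2⟩
  · rintro ⟨h1, h2⟩; exact ⟨h1, (h ω h1).2 h2⟩

theorem pair_filter {E : Finset ℤ} (Q R : ℤ → Prop) [DecidablePred Q] [DecidablePred R]
    [DecidablePred fun n => Q n ∧ R n] :
    (E.filter fun n => Q n ∧ R n).card = ((E.filter Q).filter R).card := by
  congr 1
  ext n
  simp only [mem_filter]
  tauto

/-- given the common residue, the second member says nothing more about the first -/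
theorem ci_fst (j : ℕ) (E : Finset ℤ) {α : Type} (X : ℤ → α) :
    cH (PS j E) (pp j E) (fun ω => X ω.1) (fun ω => ω.2) =
      cH (PS j E) (pp j E) (fun ω => X ω.1) (fun ω => ω.1 % 2 ^ j) := by
  unfold cH
  refine sum_congr rfl fun ω hω => ?_
  obtain ⟨h1, h2, h3⟩ := mem_PS.1 hω
  have hE : (0 : ℝ) < E.card := by exact_mod_cast card_pos.2 ⟨_, h1⟩
  have hc := pair_cls_pos (j := j) h1
  have hc2 : (0 : ℝ) < ((pairCls j E ω.1).filter fun n => X n = X ω.1).card := by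
    have : 0 < ((pairCls j E ω.1).filter fun n => X n = X ω.1).card :=
      card_pos.2 ⟨ω.1, mem_filter.2 ⟨pair_self h1, rfl⟩⟩
    exact_mod_cast this
  have e1 : mv (PS j E) (pp j E) (fun ω => ω.2) ω.2 = 1 / E.card := by
    rw [pair_mv (fun ω : ℤ × ℤ => ω.2) ω.2 (fun ω' => ω'.2 = ω.2) (fun _ _ => Iff.rfl)]
    exact sum_snd j h2
  have e2 : mv (PS j E) (pp j E) (fun ω => (X ω.1, ω.2)) (X ω.1, ω.2) =
      (((pairCls j E ω.1).filter fun n => X n = X ω.1).card : ℝ) /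
        (E.card * (pairCls j E ω.1).card) := by
    rw [pair_mv (fun ω : ℤ × ℤ => (X ω.1, ω.2)) (X ω.1, ω.2)
      (fun ω' => ω'.2 = ω.2 ∧ X ω'.1 = X ω.1) (fun ω' _ => by
        simp only [Prod.ext_iff]; tauto), pair_cls_eq h3]
    exact pair_G4 j h2 (fun n => X n = X ω.1)
  have e3 : mv (PS j E) (pp j E) (fun ω => ω.1 % 2 ^ j) (ω.1 % 2 ^ j) =
      ((pairCls j E ω.1).card : ℝ) / E.card := by
    rw [pair_mv (fun ω : ℤ × ℤ => ω.1 % 2 ^ j) (ω.1 % 2 ^ j)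
      (fun ω' => ω'.1 % 2 ^ j = ω.1 % 2 ^ j) (fun _ _ => Iff.rfl)]
    exact pair_G1 j E (fun m => m % 2 ^ j = ω.1 % 2 ^ j)
  have e4 : mv (PS j E) (pp j E) (fun ω => (X ω.1, ω.1 % 2 ^ j)) (X ω.1, ω.1 % 2 ^ j) =
      (((pairCls j E ω.1).filter fun n => X n = X ω.1).card : ℝ) / E.card := by
    rw [pair_mv (fun ω : ℤ × ℤ => (X ω.1, ω.1 % 2 ^ j)) (X ω.1, ω.1 % 2 ^ j)
      (fun ω' => ω'.1 % 2 ^ j = ω.1 % 2 ^ j ∧ X ω'.1 = X ω.1) (fun ω' _ => by
        simp only [Prod.ext_iff]; tauto)]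
    rw [pair_G1 j E (fun m => m % 2 ^ j = ω.1 % 2 ^ j ∧ X m = X ω.1), pair_filter]
    rfl
  rw [e1, e2, e3, e4, Real.log_div one_ne_zero hE.ne', Real.log_div hc2.ne' (by positivity),
    Real.log_mul hE.ne' hc.ne', Real.log_div hc.ne' hE.ne', Real.log_div hc2.ne' hE.ne',
    Real.log_one]
  ring

theorem ci_snd (j : ℕ) (E : Finset ℤ) {α : Type} (Y : ℤ → α) :
    cH (PS j E) (pp j E) (fun ω => Y ω.2) (fun ω => ω.1) =
      cH (PS j E) (pp j E) (fun ω => Y ω.2) (fun ω => ω.1 % 2 ^ j) := by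
  unfold cH
  refine sum_congr rfl fun ω hω => ?_
  obtain ⟨h1, h2, h3⟩ := mem_PS.1 hω
  have hE : (0 : ℝ) < E.card := by exact_mod_cast card_pos.2 ⟨_, h1⟩
  have hc := pair_cls_pos (j := j) h1
  have hc2 : (0 : ℝ) < ((pairCls j E ω.1).filter fun n => Y n = Y ω.2).card := by
    have : 0 < ((pairCls j E ω.1).filter fun n => Y n = Y ω.2).card :=
      card_pos.2 ⟨ω.2, mem_filter.2 ⟨mem_filter.2 ⟨h2, h3.symm⟩, rfl⟩⟩
    exact_mod_cast this
  have e1 : mv (PS j E) (pp j E) (fun ω => ω.1) ω.1 = 1 / E.card := by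
    rw [pair_mv (fun ω : ℤ × ℤ => ω.1) ω.1 (fun ω' => ω'.1 = ω.1) (fun _ _ => Iff.rfl)]
    exact sum_fst j h1
  have e2 : mv (PS j E) (pp j E) (fun ω => (Y ω.2, ω.1)) (Y ω.2, ω.1) =
      (((pairCls j E ω.1).filter fun n => Y n = Y ω.2).card : ℝ) /
        (E.card * (pairCls j E ω.1).card) := by
    rw [pair_mv (fun ω : ℤ × ℤ => (Y ω.2, ω.1)) (Y ω.2, ω.1)
      (fun ω' => ω'.1 = ω.1 ∧ Y ω'.2 = Y ω.2) (fun ω' _ => by
        simp only [Prod.ext_iff]; tauto)]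
    exact pair_G3 j h1 (fun n => Y n = Y ω.2)
  have e3 : mv (PS j E) (pp j E) (fun ω => ω.1 % 2 ^ j) (ω.1 % 2 ^ j) =
      ((pairCls j E ω.1).card : ℝ) / E.card := by
    rw [pair_mv (fun ω : ℤ × ℤ => ω.1 % 2 ^ j) (ω.1 % 2 ^ j)
      (fun ω' => ω'.1 % 2 ^ j = ω.1 % 2 ^ j) (fun _ _ => Iff.rfl)]
    exact pair_G1 j E (fun m => m % 2 ^ j = ω.1 % 2 ^ j)
  have e4 : mv (PS j E) (pp j E) (fun ω => (Y ω.2, ω.1 % 2 ^ j)) (Y ω.2, ω.1 % 2 ^ j) =
      (((pairCls j E ω.1).filter fun n => Y n = Y ω.2).card : ℝ) / E.card := by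
    rw [pair_mv (fun ω : ℤ × ℤ => (Y ω.2, ω.1 % 2 ^ j)) (Y ω.2, ω.1 % 2 ^ j)
      (fun ω' => ω'.2 % 2 ^ j = ω.1 % 2 ^ j ∧ Y ω'.2 = Y ω.2) (fun ω' hω' => by
        obtain ⟨_, _, h6⟩ := mem_PS.1 hω'
        simp only [Prod.ext_iff, h6]; tauto)]
    rw [pair_G2 j E (fun m => m % 2 ^ j = ω.1 % 2 ^ j ∧ Y m = Y ω.2), pair_filter]
    rfl
  rw [e1, e2, e3, e4, Real.log_div one_ne_zero hE.ne', Real.log_div hc2.ne' (by positivity),
    Real.log_mul hE.ne' hc.ne', Real.log_div hc.ne' hE.ne', Real.log_div hc2.ne' hE.ne',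
    Real.log_one]
  ring

end Pool.Agent.Collatz3.PB
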