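import Pool.Agent.Collatz3.PBBasic
import Pool.Agent.Collatz3.PBPair
import Pool.Agent.Collatz3.PBGibbs

set_option autoImplicit false

/-!
Information inequalities on the pair space of PowerBarrier.
-/

open Finset
open scoped Classical

namespace Pool.Agent.Collatz3.PB

open Pool.Agent.Helper14 (T)

theorem pbinfo_sum_image {t : ℕ} (I : Finset ℤ) (hI : ∀ a ∈ I, 0 ≤ a ∧ a < 2 ^ t) :
    ∑ a ∈ I, pw t a ≤ 1 := by
  rw [← sum_pw t]
  have h1 : ∑ r ∈ range (2 ^ t), pw t (r : ℤ) =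
      ∑ a ∈ (range (2 ^ t)).image (fun r : ℕ => (r : ℤ)), pw t a := by
    rw [sum_image]
    intro x _ y _ h
    exact Int.ofNat_inj.1 h
  rw [h1]
  refine sum_le_sum_of_subset_of_nonneg ?_ fun a _ _ => (pw_pos t a).le
  intro a ha
  obtain ⟨h2, h3⟩ := hI a ha
  rw [mem_image]
  refine ⟨a.toNat, ?_, Int.toNat_of_nonneg h2⟩
  rw [mem_range]
  have h4 : (a.toNat : ℤ) < ((2 ^ t : ℕ) : ℤ) := by
    rw [Int.toNat_of_nonneg h2]
    push_cast
    exact h3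
  exact_mod_cast h4

theorem pbinfo_sum_image' {t : ℕ} {Ω : Type} {inst : DecidableEq ℤ} (s : Finset Ω) (X : Ω → ℤ)
    (hX : ∀ ω ∈ s, 0 ≤ X ω ∧ X ω < 2 ^ t) : ∑ a ∈ @image Ω ℤ inst X s, pw t a ≤ 1 := by
  refine pbinfo_sum_image _ fun a ha => ?_
  obtain ⟨ω, hω, rfl⟩ := mem_image.1 ha
  exact hX ω hω

/-- the mass of a set of values of the first member -/
theorem pbinfo_fst (j : ℕ) {E : Finset ℤ} (P : ℤ → Prop) :
    ∑ ω ∈ PS j E with P ω.1, pp j E ω = ((E.filter P).card : ℝ) / E.card := by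
  have h1 : ∑ ω ∈ PS j E with P ω.1, pp j E ω =
      ∑ n ∈ E.filter P, ∑ ω ∈ (PS j E).filter (fun ω => P ω.1) with ω.1 = n, pp j E ω := by
    rw [← sum_fiberwise_of_maps_to (g := fun ω : ℤ × ℤ => ω.1)]
    intro ω hω
    rw [mem_filter] at hω ⊢
    exact ⟨(mem_PS.1 hω.1).1, hω.2⟩
  rw [h1]
  have h2 : ∀ n ∈ E.filter P, ∑ ω ∈ (PS j E).filter (fun ω => P ω.1) with ω.1 = n, pp j E ω =
      1 / E.card := by
    intro n hn
    rw [mem_filter] at hn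
    rw [← sum_fst j hn.1]
    refine sum_congr ?_ fun _ _ => rfl
    ext ω
    simp only [mem_filter]
    constructor
    · rintro ⟨⟨a, b⟩, c⟩; exact ⟨a, c⟩
    · rintro ⟨a, c⟩; exact ⟨⟨a, by rw [c]; exact hn.2⟩, c⟩
  rw [sum_congr rfl h2, sum_const, nsmul_eq_mul]
  ring

theorem pbinfo_snd (j : ℕ) {E : Finset ℤ} (P : ℤ → Prop) :
    ∑ ω ∈ PS j E with P ω.2, pp j E ω = ((E.filter P).card : ℝ) / E.card := by
  have h1 : ∑ ω ∈ PS j E with P ω.2, pp j E ω =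
      ∑ n ∈ E.filter P, ∑ ω ∈ (PS j E).filter (fun ω => P ω.2) with ω.2 = n, pp j E ω := by
    rw [← sum_fiberwise_of_maps_to (g := fun ω : ℤ × ℤ => ω.2)]
    intro ω hω
    rw [mem_filter] at hω ⊢
    exact ⟨(mem_PS.1 hω.1).2.1, hω.2⟩
  rw [h1]
  have h2 : ∀ n ∈ E.filter P, ∑ ω ∈ (PS j E).filter (fun ω => P ω.2) with ω.2 = n, pp j E ω =
      1 / E.card := by
    intro n hn
    rw [mem_filter] at hn
    rw [← sum_snd j hn.1]
    refine sum_congr ?_ fun _ _ => rfl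
    ext ω
    simp only [mem_filter]
    constructor
    · rintro ⟨⟨a, b⟩, c⟩; exact ⟨a, c⟩
    · rintro ⟨a, c⟩; exact ⟨⟨a, by rw [c]; exact hn.2⟩, c⟩
  rw [sum_congr rfl h2, sum_const, nsmul_eq_mul]
  ring

theorem pbinfo_mod {a b : ℕ} (h : a ≤ b) {x y : ℤ} (hxy : x % 2 ^ b = y % 2 ^ b) :
    x % 2 ^ a = y % 2 ^ a := by
  have hd : (2 : ℤ) ^ a ∣ 2 ^ b := pow_dvd_pow 2 h
  rw [← Int.emod_emod_of_dvd x hd, hxy, Int.emod_emod_of_dvd y hd]

theorem pbinfo_vv_mem (k k2 : ℕ) (n : ℤ) : 0 ≤ vv k k2 n ∧ vv k k2 n < 2 ^ k2 :=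
  ⟨Int.emod_nonneg _ (by positivity), Int.emod_lt_of_pos _ (by positivity)⟩

/-- the density bound for the residue of a member and the residue of its iterate -/
theorem pbinfo_dens0 {k k2 : ℕ} {D : ℝ} {E : Finset ℤ} (h : Setup k k2 D E) (n : ℤ) :
    (((E.filter fun n' => vv k k2 n' = vv k k2 n ∧ n' % 2 ^ (k - k2) = n % 2 ^ (k - k2)).card : ℕ) : ℝ)
      / E.card ≤ D * (pw k2 (vv k k2 n) * pw (k - k2) (n % 2 ^ (k - k2))) := by
  have hE : (0 : ℝ) < E.card := by exact_mod_cast h.ne.card_pos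
  have h1 : (E.filter fun n' => vv k k2 n' = vv k k2 n ∧ n' % 2 ^ (k - k2) = n % 2 ^ (k - k2)) =
      E.filter fun n' => n' % 2 ^ k = n % 2 ^ k := by
    refine filter_congr fun n' _ => ?_
    have := mod_iff (k - k2) k2 n' n
    rw [Nat.sub_add_cancel h.hk] at this
    rw [this]
    unfold vv
    tauto
  rw [h1, div_le_iff₀ hE]
  refine (h.d0 n).trans (le_of_eq ?_)
  have h2 : pw k n = pw (k - k2) n * pw k2 (T^[k - k2] n) := by
    rw [← pw_add, Nat.sub_add_cancel h.hk]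
  have h3 : pw k2 (vv k k2 n) = pw k2 (T^[k - k2] n) := by
    refine pw_congr ?_
    unfold vv
    rw [Int.emod_emod_of_dvd _ (dvd_refl _)]
  have h4 : pw (k - k2) (n % 2 ^ (k - k2)) = pw (k - k2) n := by
    refine pw_congr ?_
    rw [Int.emod_emod_of_dvd _ (dvd_refl _)]
  rw [h2, h3, h4]
  ring

theorem pbinfo_dens1 {k k2 : ℕ} {D : ℝ} {E : Finset ℤ} (h : Setup k k2 D E) (n : ℤ) :
    (((E.filter fun n' => vv k k2 n' = vv k k2 n ∧
      T^[k] n' % 2 ^ (k - k2) = T^[k] n % 2 ^ (k - k2)).card : ℕ) : ℝ)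
      / E.card ≤ D * (pw k2 (vv k k2 n) * pw (k - k2) (T^[k] n % 2 ^ (k - k2))) := by
  have hE : (0 : ℝ) < E.card := by exact_mod_cast h.ne.card_pos
  have hk : k2 + (k - k2) = k := Nat.add_sub_cancel' h.hk
  have hit : ∀ x : ℤ, T^[k2] (T^[k - k2] x) = T^[k] x := by
    intro x
    rw [← Function.iterate_add_apply, hk]
  have h1 : (E.filter fun n' => vv k k2 n' = vv k k2 n ∧
      T^[k] n' % 2 ^ (k - k2) = T^[k] n % 2 ^ (k - k2)) =
      E.filter fun n' => T^[k - k2] n' % 2 ^ k = T^[k - k2] n % 2 ^ k := by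
    refine filter_congr fun n' _ => ?_
    have := mod_iff k2 (k - k2) (T^[k - k2] n') (T^[k - k2] n)
    rw [hk, hit, hit] at this
    rw [this]
    unfold vv
    tauto
  rw [h1, div_le_iff₀ hE]
  refine (h.d1 (T^[k - k2] n)).trans (le_of_eq ?_)
  have h2 : pw k (T^[k - k2] n) = pw k2 (T^[k - k2] n) * pw (k - k2) (T^[k] n) := by
    have := pw_add k2 (k - k2) (T^[k - k2] n)
    rw [hk, hit] at this
    exact this
  have h3 : pw k2 (vv k k2 n) = pw k2 (T^[k - k2] n) := by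
    refine pw_congr ?_
    unfold vv
    rw [Int.emod_emod_of_dvd _ (dvd_refl _)]
  have h4 : pw (k - k2) (T^[k] n % 2 ^ (k - k2)) = pw (k - k2) (T^[k] n) := by
    refine pw_congr ?_
    rw [Int.emod_emod_of_dvd _ (dvd_refl _)]
  rw [h2, h3, h4]
  ring

theorem pbinfo_mv_fst (j : ℕ) {E : Finset ℤ} {α β : Type} (X : ℤ → α) (Y : ℤ → β) (n : ℤ) :
    mv (PS j E) (pp j E) (fun ω => (X ω.1, Y ω.1)) (X n, Y n) =
      (((E.filter fun n' => X n' = X n ∧ Y n' = Y n).card : ℕ) : ℝ) / E.card := by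
  have e := pbinfo_fst j (E := E) (fun n' => X n' = X n ∧ Y n' = Y n)
  refine Eq.trans ?_ (e.trans ?_)
  · unfold mv
    refine sum_congr ?_ fun _ _ => rfl
    ext ω
    simp only [mem_filter, Prod.ext_iff]
  · congr!

theorem pbinfo_mv_snd (j : ℕ) {E : Finset ℤ} {α β : Type} (X : ℤ → α) (Y : ℤ → β) (n : ℤ) :
    mv (PS j E) (pp j E) (fun ω => (X ω.2, Y ω.2)) (X n, Y n) =
      (((E.filter fun n' => X n' = X n ∧ Y n' = Y n).card : ℕ) : ℝ) / E.card := by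
  have e := pbinfo_snd j (E := E) (fun n' => X n' = X n ∧ Y n' = Y n)
  refine Eq.trans ?_ (e.trans ?_)
  · unfold mv
    refine sum_congr ?_ fun _ _ => rfl
    ext ω
    simp only [mem_filter, Prod.ext_iff]
  · congr!

variable {k k2 : ℕ} {D : ℝ} {E : Finset ℤ}

/-- mutual information of the two residues of the first member -/
theorem pbinfo_mi0 (h : Setup k k2 D E) :
    cH (PS (k - k2) E) (pp (k - k2) E) (fun ω => vv k k2 ω.1) (fun _ => ()) -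
      cH (PS (k - k2) E) (pp (k - k2) E) (fun ω => vv k k2 ω.1) (fun ω => ω.1 % 2 ^ (k - k2)) ≤
      Real.log D := by
  refine mi_of_density (fun ω _ => pp_nonneg _ _ ω) (sum_all _ h.ne) _ _ (pw k2) (pw (k - k2)) h.hD
    (fun a => (pw_pos _ a).le) (fun a => (pw_pos _ a).le) ?_ ?_ ?_
  · exact pbinfo_sum_image' _ _ fun ω _ => pbinfo_vv_mem _ _ _
  · exact pbinfo_sum_image' _ _ fun ω _ =>
      ⟨Int.emod_nonneg _ (by positivity), Int.emod_lt_of_pos _ (by positivity)⟩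
  · intro ω _
    have := pbinfo_mv_fst (k - k2) (E := E) (vv k k2) (fun n => n % 2 ^ (k - k2)) ω.1
    refine (le_of_eq this).trans ((le_of_eq ?_).trans (pbinfo_dens0 h ω.1))
    congr!

/-- mutual information of the two residues of the second member -/
theorem pbinfo_mi0' (h : Setup k k2 D E) :
    cH (PS (k - k2) E) (pp (k - k2) E) (fun ω => vv k k2 ω.2) (fun _ => ()) -
      cH (PS (k - k2) E) (pp (k - k2) E) (fun ω => vv k k2 ω.2) (fun ω => ω.2 % 2 ^ (k - k2)) ≤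
      Real.log D := by
  refine mi_of_density (fun ω _ => pp_nonneg _ _ ω) (sum_all _ h.ne) _ _ (pw k2) (pw (k - k2)) h.hD
    (fun a => (pw_pos _ a).le) (fun a => (pw_pos _ a).le) ?_ ?_ ?_
  · exact pbinfo_sum_image' _ _ fun ω _ => pbinfo_vv_mem _ _ _
  · exact pbinfo_sum_image' _ _ fun ω _ =>
      ⟨Int.emod_nonneg _ (by positivity), Int.emod_lt_of_pos _ (by positivity)⟩
  · intro ω _
    have := pbinfo_mv_snd (k - k2) (E := E) (vv k k2) (fun n => n % 2 ^ (k - k2)) ω.2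
    refine (le_of_eq this).trans ((le_of_eq ?_).trans (pbinfo_dens0 h ω.2))
    congr!

theorem pbinfo_mi1 (h : Setup k k2 D E) :
    cH (PS (k - k2) E) (pp (k - k2) E) (fun ω => vv k k2 ω.1) (fun _ => ()) -
      cH (PS (k - k2) E) (pp (k - k2) E) (fun ω => vv k k2 ω.1)
        (fun ω => T^[k] ω.1 % 2 ^ (k - k2)) ≤ Real.log D := by
  refine mi_of_density (fun ω _ => pp_nonneg _ _ ω) (sum_all _ h.ne) _ _ (pw k2) (pw (k - k2)) h.hD
    (fun a => (pw_pos _ a).le) (fun a => (pw_pos _ a).le) ?_ ?_ ?_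
  · exact pbinfo_sum_image' _ _ fun ω _ => pbinfo_vv_mem _ _ _
  · exact pbinfo_sum_image' _ _ fun ω _ =>
      ⟨Int.emod_nonneg _ (by positivity), Int.emod_lt_of_pos _ (by positivity)⟩
  · intro ω _
    have := pbinfo_mv_fst (k - k2) (E := E) (vv k k2) (fun n => T^[k] n % 2 ^ (k - k2)) ω.1
    refine (le_of_eq this).trans ((le_of_eq ?_).trans (pbinfo_dens1 h ω.1))
    congr!

/-- the part of the condition with few values -/
def pbinfo_W (k k2 : ℕ) (ω : ℤ × ℤ) : ℕ × ℕ × Bool :=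
  (jt (k - k2) ω.1, jt k ω.1, decide (ω.2 ≤ ω.1))

theorem pbinfo_W_card {inst : DecidableEq (ℕ × ℕ × Bool)} (s : Finset (ℤ × ℤ)) :
    (@image _ _ inst (pbinfo_W k k2) s).card ≤ 2 * (k + 1) ^ 2 := by
  have h1 : @image _ _ inst (pbinfo_W k k2) s ⊆
      (range (k + 1)) ×ˢ ((range (k + 1)) ×ˢ (univ : Finset Bool)) := by
    intro w hw
    obtain ⟨ω, _, rfl⟩ := mem_image.1 hw
    simp only [pbinfo_W, mem_product, mem_range, mem_univ, and_true]
    have h2 := jt_le (k - k2) ω.1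
    have h3 := jt_le k ω.1
    omega
  refine (card_le_card h1).trans (le_of_eq ?_)
  rw [card_product, card_product, card_range, card_univ, Fintype.card_bool]
  ring

theorem pbinfo_log_N : Real.log ((2 * (k + 1) ^ 2 : ℕ) : ℝ) = Real.log (2 * ((k : ℝ) + 1) ^ 2) := by
  push_cast
  rfl

/-- reduction of a conditional mutual information to the variable `vv` -/
theorem pbinfo_red {α β γ : Type} (V : ℤ × ℤ → α) (B : ℤ × ℤ → β) (Y : ℤ × ℤ → γ)
    (hV : ∀ ω ∈ PS (k - k2) E, ∀ ω' ∈ PS (k - k2) E, vv k k2 ω.1 = vv k k2 ω'.1 →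
      cv k k2 ω = cv k k2 ω' → V ω = V ω')
    (hB : ∀ ω ∈ PS (k - k2) E, ∀ ω' ∈ PS (k - k2) E, Y ω = Y ω' → cv k k2 ω = cv k k2 ω' →
      B ω = B ω') :
    cH (PS (k - k2) E) (pp (k - k2) E) V (cv k k2) -
      cH (PS (k - k2) E) (pp (k - k2) E) V (fun ω => (B ω, cv k k2 ω)) ≤
      cH (PS (k - k2) E) (pp (k - k2) E) (fun ω => vv k k2 ω.1) (cv k k2) -
      cH (PS (k - k2) E) (pp (k - k2) E) (fun ω => vv k k2 ω.1) (fun ω => (Y ω, cv k k2 ω)) := by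
  set s := PS (k - k2) E with hs
  set p := pp (k - k2) E with hp'
  have hp : ∀ ω ∈ s, 0 ≤ p ω := fun ω _ => pp_nonneg _ _ ω
  have a1 : cH s p V (fun ω => (Y ω, cv k k2 ω)) ≤ cH s p V (fun ω => (B ω, cv k k2 ω)) := by
    refine cH_anti hp _ _ _ fun ω h1 _ ω' h2 _ e => ?_
    obtain ⟨e1, e2⟩ := Prod.ext_iff.1 e
    exact Prod.ext (hB ω h1 ω' h2 e1 e2) e2
  have a2 : cH s p (fun ω => vv k k2 ω.1) (cv k k2) =
      cH s p V (cv k k2) + cH s p (fun ω => vv k k2 ω.1) (fun ω => (V ω, cv k k2 ω)) := by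
    rw [← cH_chain]
    refine cH_congr _ _ _ _ (fun _ _ _ _ _ _ => Iff.rfl) fun ω h1 _ ω' h2 _ => ?_
    constructor
    · rintro ⟨e1, e2⟩
      exact ⟨Prod.ext (hV ω h1 ω' h2 e1 e2) e1, e2⟩
    · rintro ⟨e1, e2⟩
      exact ⟨(Prod.ext_iff.1 e1).2, e2⟩
  have a3 : cH s p (fun ω => vv k k2 ω.1) (fun ω => (Y ω, cv k k2 ω)) =
      cH s p V (fun ω => (Y ω, cv k k2 ω)) +
        cH s p (fun ω => vv k k2 ω.1) (fun ω => (V ω, (Y ω, cv k k2 ω))) := by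
    rw [← cH_chain]
    refine cH_congr _ _ _ _ (fun _ _ _ _ _ _ => Iff.rfl) fun ω h1 _ ω' h2 _ => ?_
    constructor
    · rintro ⟨e1, e2⟩
      exact ⟨Prod.ext (hV ω h1 ω' h2 e1 (Prod.ext_iff.1 e2).2) e1, e2⟩
    · rintro ⟨e1, e2⟩
      exact ⟨(Prod.ext_iff.1 e1).2, e2⟩
  have a4 : cH s p (fun ω => vv k k2 ω.1) (fun ω => (V ω, (Y ω, cv k k2 ω))) ≤
      cH s p (fun ω => vv k k2 ω.1) (fun ω => (V ω, cv k k2 ω)) := by
    refine cH_anti hp _ _ _ fun ω h1 _ ω' h2 _ e => ?_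
    obtain ⟨e1, e2⟩ := Prod.ext_iff.1 e
    exact Prod.ext e1 (Prod.ext_iff.1 e2).2
  linarith

/-- removal of the part of the condition with few values -/
theorem pbinfo_extra (h : Setup k k2 D E) {γ : Type} (Y : ℤ × ℤ → γ) :
    cH (PS (k - k2) E) (pp (k - k2) E) (fun ω => vv k k2 ω.1) (cv k k2) -
      cH (PS (k - k2) E) (pp (k - k2) E) (fun ω => vv k k2 ω.1) (fun ω => (Y ω, cv k k2 ω)) ≤
      cH (PS (k - k2) E) (pp (k - k2) E) (fun ω => vv k k2 ω.1) (fun ω => vv k k2 ω.2) -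
      cH (PS (k - k2) E) (pp (k - k2) E) (fun ω => vv k k2 ω.1) (fun ω => (Y ω, vv k k2 ω.2)) +
        Real.log (2 * ((k : ℝ) + 1) ^ 2) := by
  rw [← pbinfo_log_N]
  exact mi_extra (s := PS (k - k2) E) (p := pp (k - k2) E) (fun ω _ => pp_nonneg _ _ ω)
    (sum_all _ h.ne) (fun ω => vv k k2 ω.1) Y (fun ω => vv k k2 ω.2) (pbinfo_W k k2)
    (by positivity) (pbinfo_W_card _)

theorem info1 {k k2 L : ℕ} {D : ℝ} {E : Finset ℤ} (h : Setup k k2 D E) (hL : k2 + L ≤ k)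
    {α β : Type} (V : ℤ × ℤ → α) (B : ℤ × ℤ → β)
    (hV : ∀ ω ∈ PS (k - k2) E, ∀ ω' ∈ PS (k - k2) E, vv k k2 ω.1 = vv k k2 ω'.1 →
      cv k k2 ω = cv k k2 ω' → V ω = V ω')
    (hB : ∀ ω ∈ PS (k - k2) E, ∀ ω' ∈ PS (k - k2) E,
      zq k k2 ω.2 % 2 ^ L = zq k k2 ω'.2 % 2 ^ L → cv k k2 ω = cv k k2 ω' → B ω = B ω') :
    cH (PS (k - k2) E) (pp (k - k2) E) V (cv k k2) -
      cH (PS (k - k2) E) (pp (k - k2) E) V (fun ω => (B ω, cv k k2 ω)) ≤
      Real.log D + Real.log (2 * ((k : ℝ) + 1) ^ 2) := by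
  have hp : ∀ ω ∈ PS (k - k2) E, 0 ≤ pp (k - k2) E ω := fun ω _ => pp_nonneg _ _ ω
  have b1 := pbinfo_red (k := k) (k2 := k2) (E := E) V B (fun ω => zq k k2 ω.2 % 2 ^ L) hV hB
  have b2 := pbinfo_extra h (fun ω => zq k k2 ω.2 % 2 ^ L)
  have b3 : cH (PS (k - k2) E) (pp (k - k2) E) (fun ω => vv k k2 ω.1) (fun ω => vv k k2 ω.2) ≤
      cH (PS (k - k2) E) (pp (k - k2) E) (fun ω => vv k k2 ω.1) (fun _ => ()) :=
    cH_anti hp _ _ _ fun _ _ _ _ _ _ _ => rfl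
  have b4 : cH (PS (k - k2) E) (pp (k - k2) E) (fun ω => vv k k2 ω.1) (fun ω => ω.2) ≤
      cH (PS (k - k2) E) (pp (k - k2) E) (fun ω => vv k k2 ω.1)
        (fun ω => (zq k k2 ω.2 % 2 ^ L, vv k k2 ω.2)) := by
    refine cH_anti hp _ _ _ fun ω _ _ ω' _ _ e => ?_
    change ω.2 = ω'.2 at e
    simp only [e]
  have b5 := ci_fst (k - k2) E (fun n => vv k k2 n)
  have b6 := pbinfo_mi0 h
  linarith

theorem info2 {k k2 L : ℕ} {D : ℝ} {E : Finset ℤ} (h : Setup k k2 D E) (hL : k2 + L ≤ k)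
    {α β : Type} (V : ℤ × ℤ → α) (B : ℤ × ℤ → β)
    (hV : ∀ ω ∈ PS (k - k2) E, ∀ ω' ∈ PS (k - k2) E, vv k k2 ω.1 = vv k k2 ω'.1 →
      cv k k2 ω = cv k k2 ω' → V ω = V ω')
    (hB : ∀ ω ∈ PS (k - k2) E, ∀ ω' ∈ PS (k - k2) E,
      T^[k] ω.1 % 2 ^ L = T^[k] ω'.1 % 2 ^ L → cv k k2 ω = cv k k2 ω' → B ω = B ω') :
    cH (PS (k - k2) E) (pp (k - k2) E) V (cv k k2) -
      cH (PS (k - k2) E) (pp (k - k2) E) V (fun ω => (B ω, cv k k2 ω)) ≤
      2 * Real.log D + Real.log (2 * ((k : ℝ) + 1) ^ 2) := by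
  have hp : ∀ ω ∈ PS (k - k2) E, 0 ≤ pp (k - k2) E ω := fun ω _ => pp_nonneg _ _ ω
  have b1 := pbinfo_red (k := k) (k2 := k2) (E := E) V B (fun ω => T^[k] ω.1 % 2 ^ (k - k2)) hV
    (fun ω h1 ω' h2 e1 e2 => hB ω h1 ω' h2 (pbinfo_mod (by omega) e1) e2)
  have b2 := pbinfo_extra h (fun ω => T^[k] ω.1 % 2 ^ (k - k2))
  set s := PS (k - k2) E with hs
  set p := pp (k - k2) E with hp'
  -- chain rules
  have c1 : cH s p (fun ω => (vv k k2 ω.2, vv k k2 ω.1)) (fun ω => T^[k] ω.1 % 2 ^ (k - k2)) =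
      cH s p (fun ω => vv k k2 ω.2) (fun ω => T^[k] ω.1 % 2 ^ (k - k2)) +
      cH s p (fun ω => vv k k2 ω.1) (fun ω => (vv k k2 ω.2, T^[k] ω.1 % 2 ^ (k - k2))) :=
    cH_chain _ _ _
  have c2 : cH s p (fun ω => (vv k k2 ω.1, vv k k2 ω.2)) (fun ω => T^[k] ω.1 % 2 ^ (k - k2)) =
      cH s p (fun ω => vv k k2 ω.1) (fun ω => T^[k] ω.1 % 2 ^ (k - k2)) +
      cH s p (fun ω => vv k k2 ω.2) (fun ω => (vv k k2 ω.1, T^[k] ω.1 % 2 ^ (k - k2))) :=
    cH_chain _ _ _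
  have c3 : cH s p (fun ω => (vv k k2 ω.2, vv k k2 ω.1)) (fun ω => T^[k] ω.1 % 2 ^ (k - k2)) =
      cH s p (fun ω => (vv k k2 ω.1, vv k k2 ω.2)) (fun ω => T^[k] ω.1 % 2 ^ (k - k2)) := by
    refine cH_congr _ _ _ _ (fun _ _ _ _ _ _ => Iff.rfl) fun ω _ _ ω' _ _ => ?_
    simp only [Prod.ext_iff]
    tauto
  have c4 : cH s p (fun ω => vv k k2 ω.1) (fun ω => (vv k k2 ω.2, T^[k] ω.1 % 2 ^ (k - k2))) =
      cH s p (fun ω => vv k k2 ω.1) (fun ω => (T^[k] ω.1 % 2 ^ (k - k2), vv k k2 ω.2)) := by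
    refine cH_congr _ _ _ _ (fun ω _ _ ω' _ _ => ?_) fun ω _ _ ω' _ _ => ?_
    · simp only [Prod.ext_iff]
      tauto
    · simp only [Prod.ext_iff]
      tauto
  have b3 : cH s p (fun ω => vv k k2 ω.1) (fun ω => vv k k2 ω.2) ≤
      cH s p (fun ω => vv k k2 ω.1) (fun _ => ()) :=
    cH_anti hp _ _ _ fun _ _ _ _ _ _ _ => rfl
  have b4 : cH s p (fun ω => vv k k2 ω.2) (fun ω => T^[k] ω.1 % 2 ^ (k - k2)) ≤
      cH s p (fun ω => vv k k2 ω.2) (fun _ => ()) :=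
    cH_anti hp _ _ _ fun _ _ _ _ _ _ _ => rfl
  have b5 : cH s p (fun ω => vv k k2 ω.2) (fun ω => ω.1) ≤
      cH s p (fun ω => vv k k2 ω.2) (fun ω => (vv k k2 ω.1, T^[k] ω.1 % 2 ^ (k - k2))) := by
    refine cH_anti hp _ _ _ fun ω _ _ ω' _ _ e => ?_
    change ω.1 = ω'.1 at e
    simp only [e]
  have b6 : cH s p (fun ω => vv k k2 ω.2) (fun ω => ω.1) =
      cH s p (fun ω => vv k k2 ω.2) (fun ω => ω.1 % 2 ^ (k - k2)) :=
    ci_snd (k - k2) E (fun n => vv k k2 n)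
  have b7 : cH s p (fun ω => vv k k2 ω.2) (fun ω => ω.1 % 2 ^ (k - k2)) =
      cH s p (fun ω => vv k k2 ω.2) (fun ω => ω.2 % 2 ^ (k - k2)) := by
    refine cH_congr _ _ _ _ (fun ω h1 _ ω' h2 _ => ?_) fun ω h1 _ ω' h2 _ => ?_
    · rw [(mem_PS.1 h1).2.2, (mem_PS.1 h2).2.2]
    · rw [(mem_PS.1 h1).2.2, (mem_PS.1 h2).2.2]
  have b8 := pbinfo_mi0' h
  have b9 := pbinfo_mi1 h
  linarith

theorem info3 {k k2 : ℕ} {D : ℝ} {E : Finset ℤ} (h : Setup k k2 D E) :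
    Hn * k2 - 3 * Real.log D - Real.log (2 * ((k : ℝ) + 1) ^ 2) ≤
      cH (PS (k - k2) E) (pp (k - k2) E) (fun ω => vv k k2 ω.1) (cv k k2) := by
  have hp : ∀ ω ∈ PS (k - k2) E, 0 ≤ pp (k - k2) E ω := fun ω _ => pp_nonneg _ _ ω
  have hE : (0 : ℝ) < E.card := by exact_mod_cast h.ne.card_pos
  have hsum := sum_all (k - k2) h.ne
  set s := PS (k - k2) E with hs
  set p := pp (k - k2) E with hp'
  have hlogD : 0 ≤ Real.log D := Real.log_nonneg h.hD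
  -- the condition
  have a1 : cH s p (fun ω => vv k k2 ω.1) (fun ω => vv k k2 ω.2) ≤
      cH s p (pbinfo_W k k2) (fun ω => vv k k2 ω.2) +
      cH s p (fun ω => vv k k2 ω.1) (fun ω => (pbinfo_W k k2 ω, vv k k2 ω.2)) :=
    cH_triangle hp _ _ _
  have a2 : cH s p (fun ω => vv k k2 ω.1) (fun ω => (pbinfo_W k k2 ω, vv k k2 ω.2)) =
      cH s p (fun ω => vv k k2 ω.1) (cv k k2) := by
    have e : ∀ ω ω' : ℤ × ℤ, (pbinfo_W k k2 ω, vv k k2 ω.2) = (pbinfo_W k k2 ω', vv k k2 ω'.2) ↔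
        cv k k2 ω = cv k k2 ω' := by
      intro ω ω'
      simp only [Prod.ext_iff, pbinfo_W, cv]
      tauto
    refine cH_congr _ _ _ _ (fun ω _ _ ω' _ _ => e ω ω') fun ω _ _ ω' _ _ => ?_
    rw [e ω ω']
  have a3 : cH s p (pbinfo_W k k2) (fun ω => vv k k2 ω.2) ≤ Real.log (2 * ((k : ℝ) + 1) ^ 2) := by
    have := cH_le_log' (s := s) (p := p) hp (pbinfo_W k k2) (fun ω => vv k k2 ω.2)
      (s.image (pbinfo_W k k2)) (2 * (k + 1) ^ 2) (by positivity)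
      (fun ω hω => mem_image_of_mem _ hω) (pbinfo_W_card _)
    rw [hsum, one_mul, pbinfo_log_N] at this
    exact this
  have a4 : cH s p (fun ω => vv k k2 ω.1) (fun ω => ω.2) ≤
      cH s p (fun ω => vv k k2 ω.1) (fun ω => vv k k2 ω.2) := by
    refine cH_anti hp _ _ _ fun ω _ _ ω' _ _ e => ?_
    change ω.2 = ω'.2 at e
    simp only [e]
  have a5 : cH s p (fun ω => vv k k2 ω.1) (fun ω => ω.2) =
      cH s p (fun ω => vv k k2 ω.1) (fun ω => ω.1 % 2 ^ (k - k2)) :=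
    ci_fst (k - k2) E (fun n => vv k k2 n)
  -- the entropy of the residue modulo 2 ^ k
  have a6 : cH s p (fun ω => ω.1) (fun _ => ()) =
      cH s p (fun ω => ω.1 % 2 ^ (k - k2)) (fun _ => ()) +
      cH s p (fun ω => vv k k2 ω.1) (fun ω => (ω.1 % 2 ^ (k - k2), ())) := by
    rw [← cH_chain]
    refine cH_congr _ _ _ _ (fun _ _ _ _ _ _ => Iff.rfl) fun ω h1 _ ω' h2 _ => ?_
    constructor
    · rintro ⟨e1, e2⟩
      change ω.1 = ω'.1 at e1
      simp only [e1, and_self]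
    · rintro ⟨e1, e2⟩
      refine ⟨?_, e2⟩
      obtain ⟨e3, e4⟩ := Prod.ext_iff.1 e1
      have h3 := (mod_iff (k - k2) k2 ω.1 ω'.1).2 ⟨e3, e4⟩
      rw [Nat.sub_add_cancel h.hk] at h3
      have h4 := h.len ω.1 (mem_PS.1 h1).1 ω'.1 (mem_PS.1 h2).1
      have h5 : (2 : ℤ) ^ k ∣ ω.1 - ω'.1 := Int.ModEq.dvd (show ω'.1 ≡ ω.1 [ZMOD 2 ^ k] from h3.symm)
      have h6 : ω.1 - ω'.1 = 0 := by
        by_contra h7
        have := Int.le_of_dvd (abs_pos.2 h7) ((dvd_abs _ _).2 h5)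
        omega
      change ω.1 = ω'.1
      omega
  have a7 : cH s p (fun ω => vv k k2 ω.1) (fun ω => (ω.1 % 2 ^ (k - k2), ())) =
      cH s p (fun ω => vv k k2 ω.1) (fun ω => ω.1 % 2 ^ (k - k2)) := by
    refine cH_congr _ _ _ _ (fun ω _ _ ω' _ _ => ?_) fun ω _ _ ω' _ _ => ?_
    · simp only [Prod.ext_iff, and_true]
    · simp only [Prod.ext_iff, and_true]
  have a8 : cH s p (fun ω => ω.1) (fun _ => ()) = Real.log E.card := by
    unfold cH
    have e1 : ∀ ω ∈ s, p ω * (Real.log (mv s p (fun _ => ()) ()) -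
        Real.log (mv s p (fun ω => (ω.1, ())) (ω.1, ()))) = p ω * Real.log E.card := by
      intro ω hω
      have e2 : mv s p (fun _ => ()) () = 1 := by
        unfold mv
        rw [← hsum]
        refine sum_congr ?_ fun _ _ => rfl
        ext ω'
        simp
      have e3 : mv s p (fun ω => (ω.1, ())) (ω.1, ()) = 1 / E.card := by
        rw [← sum_fst (k - k2) (mem_PS.1 hω).1]
        unfold mv
        refine sum_congr ?_ fun _ _ => rfl
        ext ω'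
        simp only [mem_filter, Prod.ext_iff, and_true, hs]
      rw [e2, e3, Real.log_one, one_div, Real.log_inv]
      ring
    rw [sum_congr rfl e1, ← sum_mul, hsum, one_mul]
  have a9 : Hn * k - Real.log D ≤ Real.log E.card := by
    have hD0 : 0 < D := lt_of_lt_of_le one_pos h.hD
    have := Real.log_le_log (Real.exp_pos _) h.big
    rw [Real.log_exp, Real.log_mul hD0.ne' hE.ne'] at this
    linarith
  have a10 : cH s p (fun ω => ω.1 % 2 ^ (k - k2)) (fun _ => ()) ≤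
      Hn * ((k - k2 : ℕ) : ℝ) + 2 * Real.log D := by
    refine (cH_le_gibbs (s := s) (p := p) hp hsum _ (pw (k - k2)) (fun ω _ => pw_pos _ _) ?_).trans ?_
    · exact pbinfo_sum_image' _ _ fun ω _ =>
        ⟨Int.emod_nonneg _ (by positivity), Int.emod_lt_of_pos _ (by positivity)⟩
    · have e1 : ∀ ω ∈ s, p ω * (-Real.log (pw (k - k2) (ω.1 % 2 ^ (k - k2)))) ≤
          p ω * (Hn * ((k - k2 : ℕ) : ℝ) + 2 * Real.log D) := by
        intro ω hω
        refine mul_le_mul_of_nonneg_left ?_ (hp ω hω)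
        have e2 : pw (k - k2) (ω.1 % 2 ^ (k - k2)) = pw (k - k2) ω.1 := by
          refine pw_congr ?_
          rw [Int.emod_emod_of_dvd _ (dvd_refl _)]
        rw [e2, log_pw]
        have e3 := h.b1 ω.1 (mem_PS.1 hω).1
        have e4 := log_bt_pos
        have e5 := log_bt_le
        nlinarith
      refine (sum_le_sum e1).trans ?_
      rw [← sum_mul, hsum, one_mul]
  have hkk : (k : ℝ) = ((k - k2 : ℕ) : ℝ) + k2 := by
    rw [← Nat.cast_add, Nat.sub_add_cancel h.hk]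
  have hHn : Hn * (k : ℝ) = Hn * ((k - k2 : ℕ) : ℝ) + Hn * k2 := by
    rw [hkk]; ring
  linarith

end Pool.Agent.Collatz3.PB
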