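import Pool.Agent.Collatz3.PBBasic
import Pool.Agent.Collatz3.PBPair

set_option autoImplicit false

/-!
Powers and 3x+1 orbits: the main variable is determined by few data, and determines them.
-/

open Finset
open scoped Classical

namespace Pool.Agent.Collatz3.PB

open Pool.Agent.Helper14 (T)

private theorem abs_sub_lt_same {a b N : ℤ} (ha : |a| < N) (hb : |b| < N) (h : 0 ≤ a ↔ 0 ≤ b) :
    |a - b| < N := by
  rw [abs_lt] at *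
  by_cases h0 : 0 ≤ a
  · have := h.1 h0
    constructor <;> omega
  · have : ¬ 0 ≤ b := fun h' => h0 (h.2 h')
    constructor <;> omega

/-- the data of a pair -/
private theorem pair_data {k k2 : ℕ} {D : ℝ} {E : Finset ℤ} (h : Setup k k2 D E) {ω : ℤ × ℤ}
    (hω : ω ∈ PS (k - k2) E) : ∃ Δ : ℤ, |Δ| < 2 ^ k2 ∧ (ω.2 ≤ ω.1 ↔ 0 ≤ Δ) ∧
      T^[k - k2] ω.1 = vv k k2 ω.2 + 2 ^ k2 * zq k k2 ω.2 + 3 ^ jt (k - k2) ω.1 * Δ ∧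
      jt k ω.1 = jt (k - k2) ω.1 + jt k2 (T^[k - k2] ω.1) ∧
      2 ^ k2 * UU k k2 ω = 3 ^ jt k2 (T^[k - k2] ω.1) *
        (vv k k2 ω.2 + 3 ^ jt (k - k2) ω.1 * Δ) + ct k2 (T^[k - k2] ω.1) := by
  obtain ⟨n, m⟩ := ω
  have hk := h.hk
  rw [mem_PS] at hω
  obtain ⟨h1, h2, h3⟩ := hω
  dsimp only at h1 h2 h3 ⊢
  have hkk : k - k2 + k2 = k := Nat.sub_add_cancel hk
  obtain ⟨Δ, hΔ⟩ := Int.ModEq.dvd (show m ≡ n [ZMOD (2 : ℤ) ^ (k - k2)] from h3.symm)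
  have hn : n = m + 2 ^ (k - k2) * Δ := by linarith
  have hp : (0 : ℤ) < 2 ^ (k - k2) := by positivity
  refine ⟨Δ, ?_, ?_, ?_, ?_, ?_⟩
  · have h4 := h.len n h1 m h2
    rw [hΔ, abs_mul, abs_of_pos hp] at h4
    have h5 : (2 : ℤ) ^ k = 2 ^ (k - k2) * 2 ^ k2 := by rw [← pow_add, hkk]
    rw [h5] at h4
    exact lt_of_mul_lt_mul_left h4 hp.le
  · constructor
    · intro h4
      by_contra h5
      push Not at h5
      have : 2 ^ (k - k2) * Δ < 0 := mul_neg_of_pos_of_neg hp h5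
      omega
    · intro h4
      have : 0 ≤ 2 ^ (k - k2) * Δ := mul_nonneg hp.le h4
      omega
  · have h4 : T^[k - k2] m = vv k k2 m + 2 ^ k2 * zq k k2 m := by
      unfold vv zq
      exact (Int.emod_add_mul_ediv _ _).symm
    rw [← h4, jt_congr h3, hn]
    exact iter_shift (k - k2) m Δ
  · have := jt_add (k - k2) k2 n
    rwa [hkk] at this
  · have h4 := main_eq k2 (T^[k - k2] n)
    rw [← Function.iterate_add_apply, Nat.add_comm, hkk] at h4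
    have h5 : T^[k - k2] n = vv k k2 m + 2 ^ k2 * zq k k2 m + 3 ^ jt (k - k2) n * Δ := by
      have h6 : T^[k - k2] m = vv k k2 m + 2 ^ k2 * zq k k2 m := by
        unfold vv zq
        exact (Int.emod_add_mul_ediv _ _).symm
      rw [← h6, jt_congr h3, hn]
      exact iter_shift (k - k2) m Δ
    unfold UU
    dsimp only
    linear_combination h4 + 3 ^ jt k2 (T^[k - k2] n) * h5

private theorem cv_data {k k2 : ℕ} {ω ω' : ℤ × ℤ} (hc : cv k k2 ω = cv k k2 ω') :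
    vv k k2 ω.2 = vv k k2 ω'.2 ∧ jt (k - k2) ω.1 = jt (k - k2) ω'.1 ∧ jt k ω.1 = jt k ω'.1 ∧
      (ω.2 ≤ ω.1 ↔ ω'.2 ≤ ω'.1) := by
  unfold cv at hc
  simp only [Prod.mk.injEq, decide_eq_decide] at hc
  exact hc

theorem UU_det {k k2 : ℕ} {D : ℝ} {E : Finset ℤ} (h : Setup k k2 D E) {ω ω' : ℤ × ℤ}
    (hω : ω ∈ PS (k - k2) E) (hω' : ω' ∈ PS (k - k2) E) (hv : vv k k2 ω.1 = vv k k2 ω'.1)
    (hc : cv k k2 ω = cv k k2 ω') : UU k k2 ω = UU k k2 ω' := by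
  obtain ⟨Δ, a1, a2, a3, a4, a5⟩ := pair_data h hω
  obtain ⟨Δ', b1, b2, b3, b4, b5⟩ := pair_data h hω'
  obtain ⟨c1, c2, c3, c4⟩ := cv_data hc
  have hx : T^[k - k2] ω.1 % 2 ^ k2 = T^[k - k2] ω'.1 % 2 ^ k2 := hv
  have hd : (2 : ℤ) ^ k2 ∣ T^[k - k2] ω.1 - T^[k - k2] ω'.1 := Int.ModEq.dvd hx.symm
  have hd2 : (2 : ℤ) ^ k2 ∣ 3 ^ jt (k - k2) ω.1 * (Δ - Δ') := by
    obtain ⟨q, hq⟩ := hd
    refine ⟨q - zq k k2 ω.2 + zq k k2 ω'.2, ?_⟩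
    rw [a3, b3, c1, ← c2] at hq
    linear_combination hq
  have hcop : IsCoprime ((2 : ℤ) ^ k2) (3 ^ jt (k - k2) ω.1) :=
    IsCoprime.pow (by rw [Int.isCoprime_iff_gcd_eq_one]; norm_num)
  have hd3 : (2 : ℤ) ^ k2 ∣ Δ - Δ' := hcop.dvd_of_dvd_mul_left hd2
  have hab : |Δ - Δ'| < 2 ^ k2 := abs_sub_lt_same a1 b1 (by rw [← a2, ← b2]; exact c4)
  have hΔ : Δ - Δ' = 0 := Int.eq_zero_of_abs_lt_dvd hd3 hab
  have hΔ' : Δ = Δ' := by omega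
  have hj : jt k2 (T^[k - k2] ω.1) = jt k2 (T^[k - k2] ω'.1) := jt_congr hx
  have hct : ct k2 (T^[k - k2] ω.1) = ct k2 (T^[k - k2] ω'.1) := ct_congr hx
  have hU : (2 : ℤ) ^ k2 * UU k k2 ω = 2 ^ k2 * UU k k2 ω' := by
    rw [a5, b5, hj, hct, c1, c2, hΔ']
  exact mul_left_cancel₀ (by positivity) hU

theorem UU_inj {k k2 u l : ℕ} {D : ℝ} {E : Finset ℤ} (h : Setup k k2 D E) (hl : k2 + l = 3 * u)
    (hP : ∀ J : ℕ, |(J : ℝ) - rh * k| ≤ 2 * Real.log D → ∀ X Y : ℤ, X ≠ 0 → |X| ≤ 3 ^ k2 →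
      |Y| ≤ 3 ^ k2 → ¬ (8 : ℤ) ^ u ∣ 3 ^ J * X + Y) {ω ω' : ℤ × ℤ}
    (hω : ω ∈ PS (k - k2) E) (hω' : ω' ∈ PS (k - k2) E)
    (hc : cv k k2 ω = cv k k2 ω') (hU : UU k k2 ω % 2 ^ l = UU k k2 ω' % 2 ^ l) :
    vv k k2 ω.1 = vv k k2 ω'.1 := by
  obtain ⟨Δ, a1, a2, a3, a4, a5⟩ := pair_data h hω
  obtain ⟨Δ', b1, b2, b3, b4, b5⟩ := pair_data h hω'
  obtain ⟨c1, c2, c3, c4⟩ := cv_data hc
  have hj2 : jt k2 (T^[k - k2] ω.1) = jt k2 (T^[k - k2] ω'.1) := by omega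
  have hab : |Δ - Δ'| < 2 ^ k2 := abs_sub_lt_same a1 b1 (by rw [← a2, ← b2]; exact c4)
  have h23 : (2 : ℤ) ^ k2 ≤ 3 ^ k2 := pow_le_pow_left₀ (by norm_num) (by norm_num) _
  have hY : |ct k2 (T^[k - k2] ω.1) - ct k2 (T^[k - k2] ω'.1)| ≤ 3 ^ k2 := by
    have e1 := ct_nonneg k2 (T^[k - k2] ω.1)
    have e2 := ct_nonneg k2 (T^[k - k2] ω'.1)
    have e3 := ct_le k2 (T^[k - k2] ω.1)
    have e4 := ct_le k2 (T^[k - k2] ω'.1)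
    rw [abs_le]
    constructor <;> linarith
  have hdvd : (8 : ℤ) ^ u ∣ 3 ^ jt k ω.1 * (Δ - Δ') +
      (ct k2 (T^[k - k2] ω.1) - ct k2 (T^[k - k2] ω'.1)) := by
    have h8 : (8 : ℤ) ^ u = 2 ^ k2 * 2 ^ l := by
      rw [← pow_add, hl, pow_mul]
      norm_num
    obtain ⟨q, hq⟩ := Int.ModEq.dvd (show UU k k2 ω' ≡ UU k k2 ω [ZMOD (2 : ℤ) ^ l] from hU.symm)
    refine ⟨q, ?_⟩
    rw [h8, a4, pow_add]
    rw [c1, c2, hj2] at a5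
    have h5 : (2 : ℤ) ^ k2 * (UU k k2 ω - UU k k2 ω') = 2 ^ k2 * (2 ^ l * q) := by rw [hq]
    rw [hj2, c2]
    linear_combination h5 - a5 + b5
  have hE : ω.1 ∈ E := (mem_PS.1 hω).1
  have hX : Δ - Δ' = 0 := by
    by_contra hne
    exact hP (jt k ω.1) (h.b0 _ hE) (Δ - Δ') _ hne (hab.le.trans h23) hY hdvd
  have hΔ' : Δ = Δ' := by omega
  unfold vv
  rw [a3, b3, c1, c2, hΔ']
  have e1 : ∀ z : ℤ, (vv k k2 ω'.2 + 2 ^ k2 * z + 3 ^ jt (k - k2) ω'.1 * Δ') % 2 ^ k2 =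
      (vv k k2 ω'.2 + 3 ^ jt (k - k2) ω'.1 * Δ') % 2 ^ k2 := by
    intro z
    rw [show vv k k2 ω'.2 + 2 ^ k2 * z + 3 ^ jt (k - k2) ω'.1 * Δ' =
      vv k k2 ω'.2 + 3 ^ jt (k - k2) ω'.1 * Δ' + 2 ^ k2 * z by ring, Int.add_mul_emod_self_left]
  rw [e1, e1]

end Pool.Agent.Collatz3.PB
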