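import Pool.Agent.Collatz3.PBPadeJ
import Pool.Agent.Collatz3.PBDigit
import Pool.Agent.Collatz3.PBBlocks
import Pool.Agent.Collatz3.PBGood
import Pool.Agent.Collatz3.PBUdet
import Pool.Agent.Collatz3.PBInfo

set_option autoImplicit false

/-!
The core: no `Setup`.
-/

open Finset
open scoped Classical

namespace Pool.Agent.Collatz3.PB

open Pool.Agent.Helper14 (T)

namespace Cr

/-- numerical facts about `u = ⌊rh * k / 2⌋` -/
theorem num_u (d : ℕ) : ∃ k₀ : ℕ, ∀ k : ℕ, k₀ ≤ k →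
    k / 200 ≤ 3 * ⌊rh * k / 2⌋₊ ∧ 3 * ⌊rh * k / 2⌋₊ + d ≤ k := by
  refine ⟨20 * d + 100, fun k hk => ?_⟩
  have h1 := rh_gt
  have h2 := rh_lt
  have hk' : (20 * d + 100 : ℝ) ≤ k := by exact_mod_cast hk
  have hd : (0 : ℝ) ≤ d := by positivity
  have hk0 : (0 : ℝ) ≤ k := by positivity
  have h3 : rh * k / 2 < ⌊rh * k / 2⌋₊ + 1 := Nat.lt_floor_add_one _
  have h4 : (⌊rh * k / 2⌋₊ : ℝ) ≤ rh * k / 2 := Nat.floor_le (by positivity)
  have h5 : ((k / 200 : ℕ) : ℝ) ≤ k / 200 := Nat.cast_div_le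
  constructor
  · have : ((k / 200 : ℕ) : ℝ) ≤ ((3 * ⌊rh * k / 2⌋₊ : ℕ) : ℝ) := by
      push_cast
      nlinarith
    exact_mod_cast this
  · have : ((3 * ⌊rh * k / 2⌋₊ + d : ℕ) : ℝ) ≤ (k : ℝ) := by
      push_cast
      nlinarith
    exact_mod_cast this

/-- logarithms are small -/
theorem log_small (A B e : ℝ) (he : 0 < e) : ∃ k₀ : ℕ, ∀ k : ℕ, k₀ ≤ k →
    A + B * Real.log (2 * ((k : ℝ) + 1) ^ 2) ≤ e * k := by
  have h1 : Filter.Tendsto (fun k : ℕ => (A + B * (Real.log 2 + 2 * Real.log ((k : ℝ) + 1))) / (k + 1 : ℝ))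
      Filter.atTop (nhds 0) := by
    have t0 : Filter.Tendsto (fun k : ℕ => ((k : ℝ) + 1)) Filter.atTop Filter.atTop :=
      Filter.tendsto_atTop_add_const_right _ _ tendsto_natCast_atTop_atTop
    have t1 : Filter.Tendsto (fun k : ℕ => Real.log ((k : ℝ) + 1) / ((k : ℝ) + 1)) Filter.atTop
        (nhds 0) := by
      have := (Real.isLittleO_log_id_atTop.tendsto_div_nhds_zero).comp t0
      simpa [Function.comp_def] using this
    have t2 : Filter.Tendsto (fun k : ℕ => ((k : ℝ) + 1)⁻¹) Filter.atTop (nhds 0) :=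
      t0.inv_tendsto_atTop
    have t3 := ((t2.const_mul (A + B * Real.log 2)).add (t1.const_mul (2 * B)))
    simp only [mul_zero, add_zero] at t3
    refine t3.congr fun k => ?_
    have : ((k : ℝ) + 1) ≠ 0 := by positivity
    field_simp
    ring
  have h2 := h1.eventually (gt_mem_nhds (show 0 < e / 2 by positivity))
  obtain ⟨k₀, hk₀⟩ := Filter.eventually_atTop.1 h2
  refine ⟨k₀ + 1, fun k hk => ?_⟩
  have h3 := hk₀ k (by omega)
  have hk1 : (1 : ℝ) ≤ k := by exact_mod_cast (by omega : 1 ≤ k)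
  rw [div_lt_iff₀ (by positivity)] at h3
  have h4 : Real.log (2 * ((k : ℝ) + 1) ^ 2) = Real.log 2 + 2 * Real.log ((k : ℝ) + 1) := by
    rw [Real.log_mul (by norm_num) (by positivity), Real.log_pow]
    norm_num
  rw [h4]
  nlinarith

/-- mass of an event of the first member -/
theorem mass_fst (j : ℕ) {E : Finset ℤ} (Q : ℤ → Prop) [DecidablePred Q] :
    ∑ ω ∈ PS j E with Q ω.1, pp j E ω = ((E.filter Q).card : ℝ) / E.card := by
  have h1 : ∑ ω ∈ PS j E with Q ω.1, pp j E ω =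
      ∑ n ∈ E.filter Q, ∑ ω ∈ (PS j E).filter (fun ω => Q ω.1) with ω.1 = n, pp j E ω := by
    refine (sum_fiberwise_of_maps_to (fun ω hω => ?_) _).symm
    rw [mem_filter] at hω ⊢
    exact ⟨(mem_PS.1 hω.1).1, hω.2⟩
  rw [h1]
  have h2 : ∀ n ∈ E.filter Q, ∑ ω ∈ (PS j E).filter (fun ω => Q ω.1) with ω.1 = n, pp j E ω =
      1 / E.card := by
    intro n hn
    rw [mem_filter] at hn
    rw [← sum_fst j hn.1]
    refine sum_congr ?_ fun _ _ => rfl
    ext ω
    simp only [mem_filter]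
    constructor
    · rintro ⟨⟨h3, _⟩, h4⟩; exact ⟨h3, h4⟩
    · rintro ⟨h3, h4⟩; exact ⟨⟨h3, h4 ▸ hn.2⟩, h4⟩
  rw [sum_congr rfl h2, sum_const, nsmul_eq_mul]
  ring

end Cr

open Cr

theorem no_setup : ∃ ε6 : ℝ, 0 < ε6 ∧ ∃ k₀ : ℕ, ∀ k : ℕ, k₀ ≤ k → ∀ (D : ℝ) (E : Finset ℤ),
    D ≤ Real.exp (ε6 * k) → ¬ Setup k (k / 200) D E := by
  have hH := Hn_pos
  have hH2 : Hn < 1 := Hn_lt.trans (by
    have := Real.log_two_lt_d9
    linarith)
  obtain ⟨K1, hK1, hdig⟩ := digit2 (Hn / 2000) (by positivity)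
  obtain ⟨c0, hc0, hbad⟩ := bad_blocks
  obtain ⟨d, hd⟩ := exists_nat_gt (K1 / c0 * 4000 / Hn)
  have hd0 : (0 : ℝ) < d := lt_of_le_of_lt (by positivity) hd
  have hd1 : 1 ≤ d := by exact_mod_cast hd0
  obtain ⟨K2, hK2, hdig⟩ := hdig d hd1
  have hA : 0 < K1 / c0 + 3 * K2 + 3 + 1 := by positivity
  set ε6 : ℝ := Hn / 8000 / (K1 / c0 + 3 * K2 + 3 + 1) with hε6
  have hε60 : 0 < ε6 := by positivity
  have e1 : ε6 * (K1 / c0 + 3 * K2 + 3 + 1) = Hn / 8000 := by
    rw [hε6]; field_simp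
  have hε61 : ε6 ≤ 1 / 2000 := by
    have h1 : 0 ≤ K1 / c0 := by positivity
    nlinarith
  obtain ⟨kP, hP⟩ := pade_J
  obtain ⟨kU, hU⟩ := num_u d
  obtain ⟨kL, hL⟩ := log_small (Hn + K1 / c0) (2 * K2 + 1) (Hn / 1000) (by positivity)
  refine ⟨ε6, hε60, kP + kU + kL + 1, fun k hk D E hD hS => ?_⟩
  obtain ⟨hu1, hu2⟩ := hU k (by omega)
  have hlog := hL k (by omega)
  have hk1 : (1 : ℝ) ≤ k := by exact_mod_cast (by omega : 1 ≤ k)
  have hD1 := hS.hD
  have hlD : Real.log D ≤ ε6 * k := by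
    have := Real.log_le_log (by linarith) hD
    rwa [Real.log_exp] at this
  have hlD0 : 0 ≤ Real.log D := Real.log_nonneg hD1
  set u := ⌊rh * k / 2⌋₊ with hu
  set k2 := k / 200 with hk2
  obtain ⟨l, hl⟩ := Nat.exists_eq_add_of_le hu1
  -- `3 u = k2 + l`
  have hlk : l ≤ k := by omega
  have hL' : k2 + (l + d) ≤ k := by omega
  set s := PS (k - k2) E with hs
  set p := pp (k - k2) E with hp
  have hp0 : ∀ ω ∈ s, 0 ≤ p ω := fun ω _ => pp_nonneg _ _ _
  have hp1 : ∑ ω ∈ s, p ω ≤ 1 := (sum_all _ hS.ne).le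
  set c := cv k k2 with hc
  set b : ℤ × ℤ → ℤ := fun ω => T^[k] ω.1 with hb
  set V : ℤ × ℤ → ℤ := fun ω => - UU k k2 ω with hV
  set good : ℕ → ℤ → Set ℤ := fun i x => {v | d < 2 * jt d (T^[i] (x + 2 ^ i * v))} with hgood
  set δ : ℕ → ℝ := fun i => ((E.filter fun n => 2 * jt d (T^[k + i] n) ≤ d).card : ℝ) / E.card
    with hδ
  have hsum : ∑ i ∈ range l, δ i ≤ (Real.log D + ((l : ℝ) / d + 1) * Real.log 2) / c0 := by
    have h1 := hbad k k2 D E hS d l hd1 (by omega)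
    have hE : (0 : ℝ) < E.card := by exact_mod_cast card_pos.2 hS.ne
    simp only [hδ]
    rw [← sum_div, div_le_iff₀ hE, mul_comm]
    exact h1
  have key := hdig s p hp0 hp1 l V b c good (fun i x => by
    have := good_card hd1 i x
    refine le_trans (le_of_eq ?_) this
    congr 2
    ext u
    simp only [mem_filter, hgood, Set.mem_ofPred_eq]) δ (fun i _ => by
    refine le_of_eq (Eq.trans ?_ (mass_fst (k - k2) (fun n => 2 * jt d (T^[k + i] n) ≤ d)))
    refine sum_congr ?_ fun _ _ => rfl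
    ext ω
    simp only [mem_filter, hgood, Set.mem_ofPred_eq, good_block, hb, not_lt]
    rw [Nat.add_comm k i, Function.iterate_add_apply])
  -- the two informations
  have hj2 : ∀ ω ω' : ℤ × ℤ, c ω = c ω' →
      jt k2 (T^[k - k2] ω.1) = jt k2 (T^[k - k2] ω'.1) := by
    intro ω ω' h
    simp only [hc, cv, Prod.mk.injEq] at h
    have a1 := jt_add (k - k2) k2 ω.1
    have a2 := jt_add (k - k2) k2 ω'.1
    rw [Nat.sub_add_cancel hS.hk] at a1 a2
    omega
  have hVd : ∀ ω ∈ s, ∀ ω' ∈ s, vv k k2 ω.1 = vv k k2 ω'.1 → c ω = c ω' → V ω = V ω' := by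
    intro ω h1 ω' h2 h3 h4
    simp only [hV]
    rw [UU_det hS h1 h2 h3 h4]
  have i1 := info1 hS hL' V (fun ω => (V ω + b ω) % 2 ^ (l + d)) hVd (by
    intro ω h1 ω' h2 h3 h4
    have h5 : ∀ ω : ℤ × ℤ, V ω + b ω = 3 ^ jt k2 (T^[k - k2] ω.1) * zq k k2 ω.2 := by
      intro ω
      simp only [hV, hb, UU]
      ring
    simp only [h5]
    rw [hj2 ω ω' h4]
    exact Int.ModEq.mul_left _ h3)
  have i2 := info2 hS hL' V (fun ω => b ω % 2 ^ (l + d)) hVd (by
    intro ω h1 ω' h2 h3 h4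
    exact h3)
  have i3 := info3 hS
  have hmono : cH s p (fun ω => vv k k2 ω.1) c ≤ cH s p (fun ω => V ω % 2 ^ l) c := by
    refine cH_mono hp0 _ _ _ fun ω h1 _ ω' h2 _ h3 h4 => ?_
    refine UU_inj hS hl.symm (fun J hJ X Y hX hX' hY' => ?_) h1 h2 h4 ?_
    · refine hP k (by omega) J (hJ.trans ?_) X Y hX hX' hY'
      nlinarith
    · have h5 : Int.ModEq (2 ^ l) (- UU k k2 ω) (- UU k k2 ω') := h3
      have := h5.neg
      simp only [neg_neg] at this
      exact this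
  set LG := Real.log (2 * ((k : ℝ) + 1) ^ 2) with hLG
  have hLG0 : 0 ≤ LG := Real.log_nonneg (by nlinarith)
  change Hn * k2 - 3 * Real.log D - LG ≤ cH s p (fun ω => vv k k2 ω.1) c at i3
  change cH s p V c - cH s p V (fun ω => ((V ω + b ω) % 2 ^ (l + d), c ω)) ≤ Real.log D + LG at i1
  change cH s p V c - cH s p V (fun ω => (b ω % 2 ^ (l + d), c ω)) ≤ 2 * Real.log D + LG at i2
  have hfin : Hn * k2 - 3 * Real.log D - LG ≤ l * (Hn / 2000) +
      K1 * ((Real.log D + ((l : ℝ) / d + 1) * Real.log 2) / c0) +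
      K2 * (3 * Real.log D + 2 * LG) := by
    have a1 := mul_le_mul_of_nonneg_left hsum hK1
    have a2 := mul_le_mul_of_nonneg_left (add_le_add i2 i1) hK2
    have a3 : K2 * (2 * Real.log D + LG + (Real.log D + LG)) = K2 * (3 * Real.log D + 2 * LG) := by
      ring
    rw [a3] at a2
    linarith
  -- numerics
  have hk2r : (k : ℝ) / 200 - 1 ≤ k2 := by
    have := Nat.lt_div_mul_add (a := k) (show 0 < 200 by norm_num)
    have h6 : (k : ℝ) < k2 * 200 + 200 := by exact_mod_cast this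
    linarith
  have hlr : (l : ℝ) ≤ k := by exact_mod_cast hlk
  have n1 : K1 * ((Real.log D + ((l : ℝ) / d + 1) * Real.log 2) / c0) ≤
      K1 / c0 * (ε6 * k) + Hn / 4000 * k + K1 / c0 := by
    have h7 : Real.log 2 ≤ 1 := by
      have := Real.log_two_lt_d9
      linarith
    have h8 : 0 ≤ K1 / c0 := by positivity
    have h9 : (l : ℝ) / d ≤ k / d := by gcongr
    have h10 : Real.log D + ((l : ℝ) / d + 1) * Real.log 2 ≤ ε6 * k + (k / d + 1) := by
      have : ((l : ℝ) / d + 1) * Real.log 2 ≤ (k / d + 1) * 1 := by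
        apply mul_le_mul (by linarith) h7 (Real.log_nonneg (by norm_num)) (by positivity)
      linarith
    have h11 : K1 / c0 * (k / d) ≤ Hn / 4000 * k := by
      rw [div_lt_iff₀ (by linarith)] at hd
      have : K1 / c0 * (k / d) = K1 / c0 * k / d := by ring
      rw [this, div_le_iff₀ hd0]
      nlinarith
    calc K1 * ((Real.log D + ((l : ℝ) / d + 1) * Real.log 2) / c0) =
        K1 / c0 * (Real.log D + ((l : ℝ) / d + 1) * Real.log 2) := by ring
      _ ≤ K1 / c0 * (ε6 * k + (k / d + 1)) := mul_le_mul_of_nonneg_left h10 h8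
      _ = K1 / c0 * (ε6 * k) + K1 / c0 * (k / d) + K1 / c0 := by ring
      _ ≤ _ := by linarith
  have n2 : K2 * (3 * Real.log D + 2 * LG) ≤ 3 * K2 * (ε6 * k) + 2 * K2 * LG := by
    have := mul_le_mul_of_nonneg_left hlD hK2
    nlinarith
  have n3 : (l : ℝ) * (Hn / 2000) ≤ k * (Hn / 2000) := by gcongr
  have n4 : Hn * ((k : ℝ) / 200 - 1) ≤ Hn * k2 := by gcongr
  have n5 : (K1 / c0 + 3 * K2 + 3 + 1) * (ε6 * k) = Hn / 8000 * k := by
    rw [← e1]; ring
  have n6 : 0 ≤ ε6 * k := by positivity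
  nlinarith

end Pool.Agent.Collatz3.PB
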