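import Mathlib

set_option autoImplicit false

/-!
PowerBarrier, module PADE: Pade approximants of `(1 + z) ^ u` at `z = 8`.
-/

open Finset

namespace Pool.Agent.Collatz3.PB

/-- coefficients of `(1 - X) ^ s` -/
theorem pade_coeff (s i : ℕ) :
    PowerSeries.coeff i ((1 - PowerSeries.X : PowerSeries ℤ) ^ s) = (-1) ^ i * (s.choose i : ℤ) := by
  have h1 : (1 - PowerSeries.X : PowerSeries ℤ) ^ s =
      ∑ m ∈ range (s + 1), (-PowerSeries.X) ^ m * 1 ^ (s - m) * (s.choose m : PowerSeries ℤ) := by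
    rw [← add_pow]
    congr 1
    ring
  rw [h1, map_sum]
  have h2 : ∀ m ∈ range (s + 1), PowerSeries.coeff i ((-PowerSeries.X : PowerSeries ℤ) ^ m *
      1 ^ (s - m) * (s.choose m : PowerSeries ℤ)) =
      if i = m then (-1) ^ m * (s.choose m : ℤ) else 0 := by
    intro m _
    have h3 : (-PowerSeries.X : PowerSeries ℤ) ^ m * 1 ^ (s - m) * (s.choose m : PowerSeries ℤ) =
        PowerSeries.C ((-1) ^ m * (s.choose m : ℤ)) * PowerSeries.X ^ m := by
      rw [neg_pow, one_pow, mul_one]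
      simp only [map_mul, map_pow, map_neg, map_one, map_natCast]
      ring
    rw [h3, PowerSeries.coeff_C_mul, PowerSeries.coeff_X_pow]
    split_ifs <;> simp
  rw [Finset.sum_congr rfl h2, Finset.sum_ite_eq]
  split_ifs with h3
  · rfl
  · have : s.choose i = 0 := Nat.choose_eq_zero_of_lt (by
      rw [mem_range] at h3; omega)
    rw [this]; simp

/-- the inner sum -/
def padeA (n s : ℕ) : ℤ :=
  ∑ i ∈ range (n + 1), (-1) ^ i * (s.choose i : ℤ) * ((2 * n - i).choose n : ℤ)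

theorem padeA_eq (n s : ℕ) : padeA n s = PowerSeries.coeff n
    ((1 - PowerSeries.X : PowerSeries ℤ) ^ s * (PowerSeries.mk 1) ^ (n + 1)) := by
  rw [PowerSeries.coeff_mul, Finset.Nat.sum_antidiagonal_eq_sum_range_succ_mk]
  unfold padeA
  refine Finset.sum_congr rfl fun i hi => ?_
  rw [mem_range] at hi
  rw [pade_coeff, PowerSeries.mk_one_pow_eq_mk_choose_add, PowerSeries.coeff_mk]
  congr 2
  have : 2 * n - i = n + (n - i) := by omega
  rw [this]

theorem padeA_low {n s : ℕ} (h : s ≤ n) : padeA n s = ((2 * n - s).choose n : ℤ) := by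
  rw [padeA_eq]
  have h1 : (1 - PowerSeries.X : PowerSeries ℤ) ^ s * (PowerSeries.mk 1) ^ (n + 1) =
      (PowerSeries.mk 1) ^ (n - s + 1) := by
    have h2 : n + 1 = s + (n - s + 1) := by omega
    rw [h2, pow_add, ← mul_assoc, ← mul_pow, mul_comm (1 - PowerSeries.X : PowerSeries ℤ),
      PowerSeries.mk_one_mul_one_sub_eq_one, one_pow, one_mul]
  rw [h1, PowerSeries.mk_one_pow_eq_mk_choose_add, PowerSeries.coeff_mk]
  have h3 : n - s + n = 2 * n - s := by omega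
  have h4 : (n - s + n).choose (n - s) = (n - s + n).choose n := by
    rw [← Nat.choose_symm_of_eq_add (show n - s + n = n + (n - s) by omega)]
  rw [h4, h3]

theorem padeA_high {n s : ℕ} (h : n < s) :
    padeA n s = (-1) ^ n * ((s - n - 1).choose n : ℤ) := by
  rw [padeA_eq]
  have h1 : (1 - PowerSeries.X : PowerSeries ℤ) ^ s * (PowerSeries.mk 1) ^ (n + 1) =
      (1 - PowerSeries.X : PowerSeries ℤ) ^ (s - n - 1) := by
    have h2 : s = (s - n - 1) + (n + 1) := by omega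
    conv_lhs => rw [h2]
    rw [pow_add, mul_assoc, ← mul_pow, mul_comm (1 - PowerSeries.X : PowerSeries ℤ) (PowerSeries.mk 1),
      PowerSeries.mk_one_mul_one_sub_eq_one, one_pow, mul_one]
  rw [h1, pade_coeff]

/-- the denominator -/
def padeQ (n N : ℕ) : ℤ :=
  ∑ i ∈ range (n + 1), (-1) ^ i * (N.choose i : ℤ) * ((2 * n - i).choose n : ℤ) * 8 ^ i * 9 ^ (n - i)

/-- the numerator -/
def padeP (n N : ℕ) : ℤ :=
  ∑ i ∈ range (n + 1), ((2 * n - i).choose n : ℤ) * (N.choose i : ℤ) * 8 ^ i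

theorem pade_inner {i N : ℕ} (h : i ≤ N) : (N.choose i : ℤ) * 8 ^ i * 9 ^ (N - i) =
    ∑ s ∈ range (N + 1), (N.choose s : ℤ) * (s.choose i : ℤ) * 8 ^ s := by
  have h1 : N + 1 = i + (N - i + 1) := by omega
  rw [h1, Finset.sum_range_add]
  have h2 : ∑ s ∈ range i, (N.choose s : ℤ) * (s.choose i : ℤ) * 8 ^ s = 0 :=
    Finset.sum_eq_zero fun s hs => by
      rw [Nat.choose_eq_zero_of_lt (mem_range.1 hs)]; simp
  rw [h2, zero_add]
  have h3 : (9 : ℤ) ^ (N - i) = ∑ t ∈ range (N - i + 1), 8 ^ t * ((N - i).choose t : ℤ) := by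
    have := add_pow (8 : ℤ) 1 (N - i)
    norm_num at this
    rw [this]
  rw [h3, Finset.mul_sum]
  refine Finset.sum_congr rfl fun t ht => ?_
  rw [mem_range] at ht
  have h4 := Nat.choose_mul (n := N) (k := i + t) (s := i) (by omega)
  rw [Nat.add_sub_cancel_left] at h4
  have h5 : (N.choose (i + t) : ℤ) * ((i + t).choose i : ℤ) = (N.choose i : ℤ) *
      ((N - i).choose t : ℤ) := by exact_mod_cast h4
  rw [h5, pow_add]
  ring

/-- the main identity -/
theorem pade_id (n u : ℕ) : 9 ^ u * padeQ n (u + n) =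
    ∑ s ∈ range (u + n + 1), ((u + n).choose s : ℤ) * padeA n s * 8 ^ s := by
  unfold padeQ padeA
  rw [Finset.mul_sum]
  have h1 : ∀ i ∈ range (n + 1), 9 ^ u * ((-1) ^ i * ((u + n).choose i : ℤ) *
      ((2 * n - i).choose n : ℤ) * 8 ^ i * 9 ^ (n - i)) = ∑ s ∈ range (u + n + 1),
      ((u + n).choose s : ℤ) * ((-1) ^ i * (s.choose i : ℤ) * ((2 * n - i).choose n : ℤ)) *
        8 ^ s := by
    intro i hi
    rw [mem_range] at hi
    have h2 := pade_inner (i := i) (N := u + n) (by omega)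
    have h3 : u + n - i = u + (n - i) := by omega
    rw [h3, pow_add] at h2
    have h4 : 9 ^ u * ((-1) ^ i * ((u + n).choose i : ℤ) *
      ((2 * n - i).choose n : ℤ) * 8 ^ i * 9 ^ (n - i)) = ((-1) ^ i * ((2 * n - i).choose n : ℤ)) *
      (((u + n).choose i : ℤ) * 8 ^ i * (9 ^ u * 9 ^ (n - i))) := by ring
    rw [h4, h2, Finset.mul_sum]
    exact Finset.sum_congr rfl fun s _ => by ring
  rw [Finset.sum_congr rfl h1, Finset.sum_comm]
  refine Finset.sum_congr rfl fun s _ => ?_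
  rw [Finset.mul_sum, Finset.sum_mul]

/-- the congruence -/
theorem pade_dvd {n u : ℕ} (hu : 2 * n + 1 ≤ u) :
    (8 : ℤ) ^ (2 * n + 1) ∣ 9 ^ u * padeQ n (u + n) - padeP n (u + n) := by
  rw [pade_id]
  have h1 : u + n + 1 = (2 * n + 1) + (u - n) := by omega
  rw [h1, Finset.sum_range_add]
  have h2 : ∑ s ∈ range (2 * n + 1), ((u + n).choose s : ℤ) * padeA n s * 8 ^ s =
      padeP n (u + n) := by
    have h3 : 2 * n + 1 = (n + 1) + n := by omega
    rw [h3, Finset.sum_range_add]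
    have h4 : ∑ t ∈ range n, ((u + n).choose (n + 1 + t) : ℤ) * padeA n (n + 1 + t) *
        8 ^ (n + 1 + t) = 0 := by
      refine Finset.sum_eq_zero fun t ht => ?_
      rw [mem_range] at ht
      rw [padeA_high (by omega : n < n + 1 + t)]
      rw [Nat.choose_eq_zero_of_lt (by omega : n + 1 + t - n - 1 < n)]
      simp
    rw [h4, add_zero]
    unfold padeP
    refine Finset.sum_congr rfl fun s hs => ?_
    rw [mem_range] at hs
    rw [padeA_low (by omega : s ≤ n)]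
    ring
  rw [h2, add_sub_cancel_left]
  refine Finset.dvd_sum fun t _ => ?_
  rw [pow_add (8 : ℤ) (2 * n + 1) t, mul_comm ((8 : ℤ) ^ (2 * n + 1)), ← mul_assoc]
  exact Dvd.intro_left _ rfl

/-- size of the inner sums -/
theorem padeA_abs {n u s : ℕ} (hu : 2 * n + 1 ≤ u) (hu2 : u ≤ 2 * n + 2) (hs : s ≤ u + n) :
    |padeA n s| ≤ 2 * 4 ^ n := by
  have h4 : (0 : ℤ) < 4 ^ n := by positivity
  by_cases h : s ≤ n
  · rw [padeA_low h, abs_of_nonneg (by positivity)]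
    have h1 : (2 * n - s).choose n ≤ 2 ^ (2 * n - s) := Nat.choose_le_two_pow _ _
    have h2 : 2 ^ (2 * n - s) ≤ 2 ^ (2 * n) := Nat.pow_le_pow_right (by norm_num) (by omega)
    have h3 : ((2 * n - s).choose n : ℤ) ≤ 2 ^ (2 * n) := by exact_mod_cast h1.trans h2
    rw [pow_mul] at h3
    norm_num at h3
    linarith
  · rw [padeA_high (by omega), abs_mul, abs_pow, abs_neg, abs_one, one_pow, one_mul,
      abs_of_nonneg (by positivity)]
    have h1 : (s - n - 1).choose n ≤ 2 ^ (s - n - 1) := Nat.choose_le_two_pow _ _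
    have h2 : 2 ^ (s - n - 1) ≤ 2 ^ (2 * n + 1) := Nat.pow_le_pow_right (by norm_num) (by omega)
    have h3 : ((s - n - 1).choose n : ℤ) ≤ 2 ^ (2 * n + 1) := by exact_mod_cast h1.trans h2
    rw [pow_succ, pow_mul] at h3
    norm_num at h3
    linarith

/-- size of the denominator -/
theorem padeQ_abs {n u : ℕ} (hu : 2 * n + 1 ≤ u) (hu2 : u ≤ 2 * n + 2) :
    |padeQ n (u + n)| ≤ 2 * 36 ^ n := by
  have h1 : |9 ^ u * padeQ n (u + n)| ≤ 2 * 4 ^ n * 9 ^ (u + n) := by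
    rw [pade_id]
    refine (Finset.abs_sum_le_sum_abs _ _).trans ?_
    have h2 : (9 : ℤ) ^ (u + n) = ∑ s ∈ range (u + n + 1), 8 ^ s * ((u + n).choose s : ℤ) := by
      have := add_pow (8 : ℤ) 1 (u + n)
      norm_num at this
      rw [this]
    rw [h2, Finset.mul_sum]
    refine Finset.sum_le_sum fun s hs => ?_
    rw [mem_range] at hs
    have h3 := padeA_abs hu hu2 (by omega : s ≤ u + n)
    rw [abs_mul, abs_mul, abs_of_nonneg (by positivity : (0 : ℤ) ≤ ((u + n).choose s : ℤ)),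
      abs_of_nonneg (by positivity : (0 : ℤ) ≤ 8 ^ s)]
    have h4 : (0 : ℤ) ≤ ((u + n).choose s : ℤ) * 8 ^ s := by positivity
    nlinarith [mul_le_mul_of_nonneg_left h3 h4]
  rw [abs_mul, abs_of_nonneg (by positivity : (0 : ℤ) ≤ 9 ^ u), pow_add] at h1
  have h5 : (9 : ℤ) ^ u * |padeQ n (u + n)| ≤ 9 ^ u * (2 * 36 ^ n) := by
    have h6 : (36 : ℤ) ^ n = 4 ^ n * 9 ^ n := by rw [← mul_pow]; norm_num
    rw [h6]
    linarith [h1]
  exact le_of_mul_le_mul_left h5 (by positivity)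

/-- upper bound for the numerator -/
theorem padeP_le {n u : ℕ} (hu2 : u ≤ 2 * n + 2) :
    (padeP n (u + n) : ℝ) ≤ 9 / 4 * (288 / 5) ^ n := by
  have h1 : ∀ i ∈ range (n + 1), (((2 * n - i).choose n : ℕ) : ℝ) ≤ (16 : ℝ) ^ (n - i) * (16 / 15) ^ n := by
    intro i hi
    rw [mem_range] at hi
    have h2 := add_pow (15 / 16 : ℝ) (1 / 16) (2 * n - i)
    have h3 : (15 / 16 : ℝ) + 1 / 16 = 1 := by norm_num
    rw [h3, one_pow] at h2
    have h4 : (15 / 16 : ℝ) ^ n * (1 / 16) ^ (2 * n - i - n) * ((2 * n - i).choose n : ℝ) ≤ 1 :=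
      le_of_le_of_eq (Finset.single_le_sum (f := fun m => (15 / 16 : ℝ) ^ m *
        (1 / 16) ^ (2 * n - i - m) * ((2 * n - i).choose m : ℝ)) (fun m _ => by positivity)
        (mem_range.2 (show n < 2 * n - i + 1 by omega))) h2.symm
    have h5 : 2 * n - i - n = n - i := by omega
    rw [h5] at h4
    have h6 : ((2 * n - i).choose n : ℝ) = (16 : ℝ) ^ (n - i) * (16 / 15) ^ n *
        ((15 / 16 : ℝ) ^ n * (1 / 16) ^ (n - i) * ((2 * n - i).choose n : ℝ)) := by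
      have h7 : (16 / 15 : ℝ) ^ n * (15 / 16) ^ n = 1 := by rw [← mul_pow]; norm_num
      have h8 : (16 : ℝ) ^ (n - i) * (1 / 16) ^ (n - i) = 1 := by rw [← mul_pow]; norm_num
      calc ((2 * n - i).choose n : ℝ) = ((16 / 15 : ℝ) ^ n * (15 / 16) ^ n) *
            ((16 : ℝ) ^ (n - i) * (1 / 16) ^ (n - i)) * ((2 * n - i).choose n : ℝ) := by
              rw [h7, h8]; ring
        _ = _ := by ring
    rw [h6]
    have h9 : (0 : ℝ) ≤ (16 : ℝ) ^ (n - i) * (16 / 15) ^ n := by positivity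
    nlinarith [mul_le_mul_of_nonneg_left h4 h9]
  have h2 : (padeP n (u + n) : ℝ) ≤ ∑ i ∈ range (n + 1),
      (16 : ℝ) ^ n * (16 / 15) ^ n * ((1 / 2) ^ i * ((u + n).choose i : ℝ)) := by
    unfold padeP
    push_cast
    refine Finset.sum_le_sum fun i hi => ?_
    have h3 := h1 i hi
    rw [mem_range] at hi
    have h4 : (16 : ℝ) ^ n = 16 ^ (n - i) * 16 ^ i := by rw [← pow_add]; congr 1; omega
    have h5 : (8 : ℝ) ^ i = 16 ^ i * (1 / 2) ^ i := by rw [← mul_pow]; norm_num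
    rw [h4, h5]
    have h6 : (0 : ℝ) ≤ ((u + n).choose i : ℝ) * (16 ^ i * (1 / 2) ^ i) := by positivity
    nlinarith [mul_le_mul_of_nonneg_right h3 h6]
  rw [← Finset.mul_sum] at h2
  have h3 : ∑ i ∈ range (n + 1), (1 / 2 : ℝ) ^ i * ((u + n).choose i : ℝ) ≤ (3 / 2) ^ (u + n) := by
    have h4 := add_pow (1 / 2 : ℝ) 1 (u + n)
    have h5 : (1 / 2 : ℝ) + 1 = 3 / 2 := by norm_num
    rw [h5] at h4
    rw [h4]
    simp only [one_pow, mul_one]
    refine Finset.sum_le_sum_of_subset_of_nonneg ?_ fun i _ _ => by positivity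
    exact range_subset_range.2 (by omega)
  have h4 : (3 / 2 : ℝ) ^ (u + n) ≤ (3 / 2) ^ (3 * n + 2) :=
    pow_le_pow_right₀ (by norm_num) (by omega)
  have h5 : (3 / 2 : ℝ) ^ (3 * n + 2) = 9 / 4 * (27 / 8) ^ n := by
    rw [pow_add, pow_mul]; norm_num; ring
  have h6 : (0 : ℝ) ≤ (16 : ℝ) ^ n * (16 / 15) ^ n := by positivity
  have h7 : (288 / 5 : ℝ) ^ n = (16 : ℝ) ^ n * (16 / 15) ^ n * (27 / 8) ^ n := by
    rw [← mul_pow, ← mul_pow]; norm_num
  rw [h7]
  calc (padeP n (u + n) : ℝ) ≤ _ := h2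
    _ ≤ (16 : ℝ) ^ n * (16 / 15) ^ n * (9 / 4 * (27 / 8) ^ n) := by
        refine mul_le_mul_of_nonneg_left ?_ h6
        rw [← h5]
        exact h3.trans h4
    _ = _ := by ring

/-- binomial coefficients `C(3n, n)` grow at least like `5 ^ n` -/
theorem pade_choose (n : ℕ) : 3 * 5 ^ n ≤ (3 * (n + 1)).choose (n + 1) := by
  induction n with
  | zero => simp
  | succ n ih =>
    have h1 : (3 * (n + 2)).choose (n + 2) * ((n + 2) * (2 * n + 4) * (2 * n + 3)) =
        (3 * (n + 1)).choose (n + 1) * ((3 * n + 6) * (3 * n + 5) * (3 * n + 4)) := by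
      -- through factorials
      have f1 := Nat.choose_mul_factorial_mul_factorial (n := 3 * (n + 2)) (k := n + 2) (by omega)
      have f2 := Nat.choose_mul_factorial_mul_factorial (n := 3 * (n + 1)) (k := n + 1) (by omega)
      have e1 : 3 * (n + 2) - (n + 2) = (2 * n + 2) + 1 + 1 := by omega
      have e2 : 3 * (n + 1) - (n + 1) = 2 * n + 2 := by omega
      have e3 : 3 * (n + 2) = (3 * (n + 1)) + 1 + 1 + 1 := by omega
      rw [e1] at f1
      rw [e2] at f2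
      have g1 : (3 * (n + 2)).factorial = (3 * n + 6) * ((3 * n + 5) * ((3 * n + 4) *
          (3 * (n + 1)).factorial)) := by
        rw [e3, Nat.factorial_succ, Nat.factorial_succ, Nat.factorial_succ]
        ring_nf
      have g2 : (2 * n + 2 + 1 + 1).factorial = (2 * n + 4) * ((2 * n + 3) *
          (2 * n + 2).factorial) := by
        rw [Nat.factorial_succ, Nat.factorial_succ]
      have g3 : (n + 2).factorial = (n + 2) * (n + 1).factorial := Nat.factorial_succ _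
      rw [g1, g2, g3, ← f2] at f1
      have hpos : 0 < (n + 1).factorial * (2 * n + 2).factorial := by positivity
      apply Nat.eq_of_mul_eq_mul_right hpos
      linarith [f1]
    have h2' : 10 * ((n + 2) * (2 * n + 3)) ≤ 3 * ((3 * n + 5) * (3 * n + 4)) := by
      nlinarith [Nat.zero_le (n * n)]
    have h2 : 5 * ((n + 2) * (2 * n + 4) * (2 * n + 3)) ≤
        (3 * n + 6) * (3 * n + 5) * (3 * n + 4) := by
      calc 5 * ((n + 2) * (2 * n + 4) * (2 * n + 3)) = (n + 2) * (10 * ((n + 2) * (2 * n + 3))) := by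
            ring
        _ ≤ (n + 2) * (3 * ((3 * n + 5) * (3 * n + 4))) := Nat.mul_le_mul_left _ h2'
        _ = _ := by ring
    have hpos : 0 < (n + 2) * (2 * n + 4) * (2 * n + 3) := by positivity
    have h3 : 3 * 5 ^ (n + 1) * ((n + 2) * (2 * n + 4) * (2 * n + 3)) ≤
        (3 * (n + 2)).choose (n + 2) * ((n + 2) * (2 * n + 4) * (2 * n + 3)) := by
      rw [h1]
      calc 3 * 5 ^ (n + 1) * ((n + 2) * (2 * n + 4) * (2 * n + 3))
          = (3 * 5 ^ n) * (5 * ((n + 2) * (2 * n + 4) * (2 * n + 3))) := by ring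
        _ ≤ _ := Nat.mul_le_mul ih h2
    exact Nat.le_of_mul_le_mul_right h3 hpos

/-- lower bound for the numerator -/
theorem padeP_ge {n u : ℕ} (hn : 1 ≤ n) (hu : 2 * n + 1 ≤ u) :
    (3 / 5 : ℝ) * 40 ^ n ≤ (padeP n (u + n) : ℝ) := by
  obtain ⟨m, rfl⟩ : ∃ m, n = m + 1 := ⟨n - 1, by omega⟩
  have h1 : ((u + (m + 1)).choose (m + 1) : ℝ) * 8 ^ (m + 1) ≤ (padeP (m + 1) (u + (m + 1)) : ℝ) := by
    unfold padeP
    push_cast
    have := Finset.single_le_sum (s := range (m + 1 + 1)) (f := fun i => ((2 * (m + 1) - i).choose (m + 1) : ℝ) *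
      ((u + (m + 1)).choose i : ℝ) * 8 ^ i) (fun i _ => by positivity)
      (mem_range.2 (by omega : m + 1 < m + 1 + 1))
    have h2 : 2 * (m + 1) - (m + 1) = m + 1 := by omega
    simp only [h2, Nat.choose_self, Nat.cast_one, one_mul] at this
    exact this
  have h2 : (3 * (m + 1)).choose (m + 1) ≤ (u + (m + 1)).choose (m + 1) :=
    Nat.choose_le_choose _ (by omega)
  have h3 := (pade_choose m).trans h2
  have h4 : (3 * 5 ^ m : ℝ) ≤ ((u + (m + 1)).choose (m + 1) : ℝ) := by exact_mod_cast h3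
  have h5 : (3 / 5 : ℝ) * 40 ^ (m + 1) = 3 * 5 ^ m * 8 ^ (m + 1) := by
    have : (40 : ℝ) ^ (m + 1) = 5 ^ (m + 1) * 8 ^ (m + 1) := by rw [← mul_pow]; norm_num
    rw [this, pow_succ 5 m]; ring
  rw [h5]
  exact (mul_le_mul_of_nonneg_right h4 (by positivity)).trans h1

theorem pade : ∃ u₀ : ℕ, ∀ u : ℕ, u₀ ≤ u → ∀ X Y : ℤ, X ≠ 0 → |X| ^ 20 ≤ 2 ^ u →
    |Y| ^ 20 ≤ 2 ^ u → ¬ (8 : ℤ) ^ u ∣ 9 ^ u * X + Y := by
  refine ⟨300, ?_⟩
  intro u hu0 X Y hX hX2 hY2 hdvd
  set n := (u - 1) / 2 with hn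
  have hu : 2 * n + 1 ≤ u := by omega
  have hu2 : u ≤ 2 * n + 2 := by omega
  have hn1 : 149 ≤ n := by omega
  have hsize : ∀ Z : ℤ, |Z| ^ 20 ≤ 2 ^ u → ((|Z| : ℤ) : ℝ) ≤ (1.072 : ℝ) ^ (n + 1) := by
    intro Z hZ
    have h1 : (((|Z| : ℤ) : ℝ)) ^ 20 ≤ 2 ^ u := by exact_mod_cast hZ
    have h2 : (2 : ℝ) ^ u ≤ 4 ^ (n + 1) := by
      have : (4 : ℝ) ^ (n + 1) = 2 ^ (2 * n + 2) := by
        rw [show (4 : ℝ) = 2 ^ 2 by norm_num, ← pow_mul]
        congr 1
      rw [this]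
      exact pow_le_pow_right₀ (by norm_num) hu2
    have h3 : (4 : ℝ) ^ (n + 1) ≤ ((1.072 : ℝ) ^ (n + 1)) ^ 20 := by
      rw [← pow_mul, mul_comm (n + 1) 20, pow_mul]
      exact pow_le_pow_left₀ (by norm_num) (by norm_num) _
    exact le_of_pow_le_pow_left₀ (by norm_num) (by positivity) ((h1.trans h2).trans h3)
  set P := padeP n (u + n) with hP
  set Q := padeQ n (u + n) with hQ
  -- divisibility
  have hd1 : (8 : ℤ) ^ (2 * n + 1) ∣ P * X + Q * Y := by
    have h1 : (8 : ℤ) ^ (2 * n + 1) ∣ 9 ^ u * X + Y := (pow_dvd_pow 8 hu).trans hdvd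
    have h2 := pade_dvd hu
    have h3 : P * X + Q * Y = Q * (9 ^ u * X + Y) - (9 ^ u * Q - P) * X := by ring
    rw [h3]
    exact dvd_sub (Dvd.dvd.mul_left h1 _) (Dvd.dvd.mul_right h2 _)
  have hQa : (|(Q : ℝ)|) ≤ 2 * 36 ^ n := by
    have := padeQ_abs hu hu2
    have h2 : ((|Q| : ℤ) : ℝ) ≤ ((2 * 36 ^ n : ℤ) : ℝ) := by exact_mod_cast this
    push_cast at h2
    exact h2
  have hPl := padeP_le (n := n) hu2
  have hPg := padeP_ge (n := n) (by omega) hu
  have hPpos : (0 : ℝ) < P := lt_of_lt_of_le (by positivity) hPg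
  have hXs := hsize X hX2
  have hYs := hsize Y hY2
  push_cast at hXs hYs
  have hc : (0 : ℝ) < (1.072 : ℝ) ^ (n + 1) := by positivity
  have hlt : |((P * X + Q * Y : ℤ) : ℝ)| < 8 ^ (2 * n + 1) := by
    push_cast
    have h1 : |(P : ℝ) * X + Q * Y| ≤ P * |(X : ℝ)| + |(Q : ℝ)| * |(Y : ℝ)| := by
      refine (abs_add_le _ _).trans ?_
      rw [abs_mul, abs_mul, abs_of_pos hPpos]
    have h2 : (P : ℝ) * |(X : ℝ)| ≤ (9 / 4 * (288 / 5) ^ n) * 1.072 ^ (n + 1) :=
      mul_le_mul hPl hXs (abs_nonneg _) (by positivity)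
    have h3 : |(Q : ℝ)| * |(Y : ℝ)| ≤ (2 * 36 ^ n) * 1.072 ^ (n + 1) :=
      mul_le_mul hQa hYs (abs_nonneg _) (by positivity)
    have h4 : (36 : ℝ) ^ n ≤ (288 / 5) ^ n := pow_le_pow_left₀ (by norm_num) (by norm_num) _
    have h5 : ((9 : ℝ) / 4 * (288 / 5) ^ n) * 1.072 ^ (n + 1) + (2 * 36 ^ n) * 1.072 ^ (n + 1) ≤
        17 / 4 * 1.072 * ((288 / 5) ^ n * 1.072 ^ n) := by
      have h6 : (0 : ℝ) < 1.072 ^ n := by positivity
      rw [pow_succ (1.072 : ℝ) n]
      nlinarith [mul_le_mul_of_nonneg_right h4 h6.le]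
    have h6 : ((288 : ℝ) / 5) ^ n * 1.072 ^ n ≤ 64 ^ n := by
      rw [← mul_pow]
      exact pow_le_pow_left₀ (by norm_num) (by norm_num) _
    have h7 : (8 : ℝ) ^ (2 * n + 1) = 8 * 64 ^ n := by
      rw [pow_succ, pow_mul]; norm_num; ring
    rw [h7]
    have h8 : (0 : ℝ) < 64 ^ n := by positivity
    nlinarith
  have hzero : P * X + Q * Y = 0 := by
    apply Int.eq_zero_of_abs_lt_dvd hd1
    have : ((|P * X + Q * Y| : ℤ) : ℝ) < ((8 ^ (2 * n + 1) : ℤ) : ℝ) := by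
      push_cast at hlt ⊢
      exact hlt
    exact_mod_cast this
  have habs : (P : ℝ) * |(X : ℝ)| = |(Q : ℝ)| * |(Y : ℝ)| := by
    have h1 : (P : ℝ) * X = -(Q * Y) := by
      have : ((P * X + Q * Y : ℤ) : ℝ) = 0 := by rw [hzero]; simp
      push_cast at this
      linarith
    have h2 : |(P : ℝ) * X| = |(Q : ℝ) * Y| := by rw [h1, abs_neg]
    rwa [abs_mul, abs_mul, abs_of_pos hPpos] at h2
  have hX1 : (1 : ℝ) ≤ |(X : ℝ)| := by
    have : 1 ≤ |X| := Int.one_le_abs hX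
    exact_mod_cast this
  have h1 : (3 / 5 : ℝ) * 40 ^ n ≤ (2 * 36 ^ n) * 1.072 ^ (n + 1) := by
    calc (3 / 5 : ℝ) * 40 ^ n ≤ P := hPg
      _ ≤ P * |(X : ℝ)| := le_mul_of_one_le_right hPpos.le hX1
      _ = |(Q : ℝ)| * |(Y : ℝ)| := habs
      _ ≤ _ := mul_le_mul hQa hYs (abs_nonneg _) (by positivity)
  have h2 : (40 : ℝ) ^ n = 38.592 ^ n * (40 / 38.592) ^ n := by rw [← mul_pow]; norm_num
  have h3 : (2 * (36 : ℝ) ^ n) * 1.072 ^ (n + 1) = 2.144 * 38.592 ^ n := by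
    rw [pow_succ (1.072 : ℝ) n]
    have : (38.592 : ℝ) ^ n = 36 ^ n * 1.072 ^ n := by rw [← mul_pow]; norm_num
    rw [this]; ring
  rw [h2, h3] at h1
  have h4 : 1 + (n : ℝ) * (40 / 38.592 - 1) ≤ (40 / 38.592 : ℝ) ^ n := by
    have := one_add_mul_le_pow (a := (40 / 38.592 - 1 : ℝ)) (by norm_num) n
    have h5 : (1 : ℝ) + (40 / 38.592 - 1) = 40 / 38.592 := by ring
    rwa [h5] at this
  have h5 : (149 : ℝ) ≤ n := by exact_mod_cast hn1
  have h6 : (4 : ℝ) ≤ (40 / 38.592 : ℝ) ^ n := by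
    refine le_trans ?_ h4
    norm_num
    nlinarith
  have h7 : (0 : ℝ) < 38.592 ^ n := by positivity
  nlinarith [mul_le_mul_of_nonneg_left h6 h7.le]

end Pool.Agent.Collatz3.PB
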