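import Pool.Agent.Collatz3.PBConst
import Pool.Agent.Collatz3.PBPade

set_option autoImplicit false

/-!
Powers and 3x+1 orbits: divisibility of `3 ^ J * X + Y` by a power of 2.
-/

open Finset
open scoped Classical

namespace Pool.Agent.Collatz3.PB

open Pool.Agent.Helper14 (T)

private theorem pow_bound {e u : ℕ} (h : 32 * e ≤ u) {Z : ℤ} (hZ : |Z| ≤ 3 ^ e) :
    |Z| ^ 20 ≤ 2 ^ u := by
  calc |Z| ^ 20 ≤ (3 ^ e) ^ 20 := pow_le_pow_left₀ (abs_nonneg _) hZ 20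
    _ = (243 : ℤ) ^ (4 * e) := by
        rw [← pow_mul, show e * 20 = 5 * (4 * e) by ring, pow_mul]
        norm_num
    _ ≤ (256 : ℤ) ^ (4 * e) := pow_le_pow_left₀ (by norm_num) (by norm_num) _
    _ = 2 ^ (32 * e) := by
        rw [show 32 * e = 8 * (4 * e) by ring, pow_mul (2 : ℤ) 8]
        norm_num
    _ ≤ 2 ^ u := pow_le_pow_right₀ (by norm_num) h

theorem pade_J : ∃ k₀ : ℕ, ∀ k : ℕ, k₀ ≤ k → ∀ J : ℕ, |(J : ℝ) - rh * k| ≤ k / 1000 →
    ∀ X Y : ℤ, X ≠ 0 → |X| ≤ 3 ^ (k / 200) → |Y| ≤ 3 ^ (k / 200) →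
      ¬ (8 : ℤ) ^ ⌊rh * k / 2⌋₊ ∣ 3 ^ J * X + Y := by
  obtain ⟨u₀, hu₀⟩ := pade
  refine ⟨4 * u₀ + 1000, ?_⟩
  intro k hk J hJ X Y hX0 hX hY hdvd
  have h1 := rh_gt
  have h2 := rh_lt
  have hk' : (4 * u₀ + 1000 : ℝ) ≤ k := by exact_mod_cast hk
  have hk0 : (0 : ℝ) ≤ u₀ := Nat.cast_nonneg _
  set u : ℕ := ⌊rh * k / 2⌋₊ with hu
  have hr : 0 ≤ rh * k / 2 := by positivity
  have hu1 : (u : ℝ) ≤ rh * k / 2 := Nat.floor_le hr
  have hu2 : rh * k / 2 < u + 1 := Nat.lt_floor_add_one _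
  have hu3 : 0.315 * (k : ℝ) - 1 ≤ u := by nlinarith
  have hu4 : u₀ ≤ u := by
    have : (u₀ : ℝ) ≤ u := by linarith
    exact_mod_cast this
  set N : ℕ := k / 200 with hN
  have hN1 : (N : ℝ) ≤ k / 200 := Nat.cast_div_le
  rw [abs_le] at hJ
  have hNu : 32 * N ≤ u := by
    have : (32 * N : ℝ) ≤ u := by linarith
    exact_mod_cast this
  rcases le_total J (2 * u) with hle | hle
  · obtain ⟨d, hd⟩ := Nat.exists_eq_add_of_le hle
    have hd' : (2 * u : ℝ) = J + d := by exact_mod_cast hd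
    have hdN : 32 * (N + d) ≤ u := by
      have : (32 * (N + d) : ℝ) ≤ u := by linarith
      exact_mod_cast this
    refine hu₀ u hu4 X (3 ^ d * Y) hX0 (pow_bound hNu hX) (pow_bound (e := N + d) hdN ?_) ?_
    · rw [abs_mul, pow_add, mul_comm, abs_pow]
      norm_num
      exact hY
    · have h9 : (9 : ℤ) ^ u = 3 ^ J * 3 ^ d := by
        rw [← pow_add, ← hd, pow_mul]
        norm_num
      rw [h9, show (3 : ℤ) ^ J * 3 ^ d * X + 3 ^ d * Y = 3 ^ d * (3 ^ J * X + Y) by ring]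
      exact Dvd.dvd.mul_left hdvd _
  · obtain ⟨d, hd⟩ := Nat.exists_eq_add_of_le hle
    have hd' : (J : ℝ) = 2 * u + d := by exact_mod_cast hd
    have hdN : 32 * (N + d) ≤ u := by
      have : (32 * (N + d) : ℝ) ≤ u := by linarith
      exact_mod_cast this
    refine hu₀ u hu4 (3 ^ d * X) Y (by positivity) (pow_bound (e := N + d) hdN ?_)
      (pow_bound hNu hY) ?_
    · rw [abs_mul, pow_add, mul_comm, abs_pow]
      norm_num
      exact hX
    · have h9 : (9 : ℤ) ^ u * (3 ^ d * X) = 3 ^ J * X := by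
        rw [hd, pow_add, pow_mul]
        norm_num
        ring
      rw [h9]
      exact hdvd

end Pool.Agent.Collatz3.PB
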