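import Mathlib
import Pool.Agent.Collatz3.PDFinal

set_option autoImplicit false

/-!
Bounded reciprocal sums along forward orbits of the `3x+1` map.
-/

namespace Pool.Agent.Collatz3.PD

open Finset
open Pool.Agent.Helper14 (T Back abs_le_finite T_two_mul T_iter_pow)

/-- An antichain of integers prime to 3 has bounded reciprocal sum. -/
theorem antichain_sum : ∃ C : ℝ, 0 < C ∧ ∀ S : Finset ℤ, (∀ a ∈ S, ¬ (3 : ℤ) ∣ a) →
    (∀ a ∈ S, ∀ b ∈ S, a ≠ b → ∀ k : ℕ, T^[k] a ≠ b) → ∑ a ∈ S, 1 / |(a : ℝ)| ≤ C := by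
  obtain ⟨c, hc, h⟩ := back_density
  refine ⟨2 / c, by positivity, fun S h3 hanti => ?_⟩
  rcases S.eq_empty_or_nonempty with rfl | hne
  · simp only [sum_empty]
    positivity
  have hS0 : ∀ a ∈ S, a ≠ 0 := by
    rintro a ha rfl
    exact h3 0 ha (dvd_zero _)
  obtain ⟨X, hX⟩ : ∃ X : ℕ, X = S.sup fun a => a.natAbs := ⟨_, rfl⟩
  have hXa : ∀ a ∈ S, |(a : ℝ)| ≤ X := by
    intro a ha
    have h1 : a.natAbs ≤ X := by
      rw [hX]
      exact Finset.le_sup (f := fun a : ℤ => a.natAbs) ha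
    rw [← Int.cast_abs, Int.abs_eq_natAbs]
    exact_mod_cast h1
  have hX1 : (1 : ℝ) ≤ X := by
    obtain ⟨a, ha⟩ := hne
    refine le_trans ?_ (hXa a ha)
    have := Int.one_le_abs (hS0 a ha)
    exact_mod_cast this
  have hfin : ∀ a : ℤ, (Back a X).Finite := fun a => (abs_le_finite _).subset fun _ h => h.2.1
  have h1 : ∀ a ∈ S, c * (X * (1 / |(a : ℝ)|)) ≤ ((hfin a).toFinset.card : ℝ) := by
    intro a ha
    have ha1 : (0 : ℝ) < |(a : ℝ)| := by
      have := Int.one_le_abs (hS0 a ha)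
      have h2 : (1 : ℝ) ≤ |(a : ℝ)| := by exact_mod_cast this
      linarith
    have h2 := h a (h3 a ha) (X / |(a : ℝ)|) (by
      rw [le_div_iff₀ ha1, one_mul]
      exact hXa a ha)
    rw [div_mul_cancel₀ _ ha1.ne', Set.ncard_eq_toFinset_card _ (hfin a)] at h2
    rwa [mul_one_div]
  have h2 : ((S.biUnion fun a => (hfin a).toFinset).card : ℝ) =
      ∑ a ∈ S, ((hfin a).toFinset.card : ℝ) := by
    rw [card_biUnion]
    · push_cast
      rfl
    · intro a ha b hb hab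
      show Disjoint (hfin a).toFinset (hfin b).toFinset
      rw [Finset.disjoint_left]
      intro n hn hn'
      rw [Set.Finite.mem_toFinset] at hn hn'
      obtain ⟨-, -, j, hj⟩ := hn
      obtain ⟨-, -, k, hk⟩ := hn'
      rcases le_total j k with hjk | hjk
      · obtain ⟨d, rfl⟩ := Nat.exists_eq_add_of_le hjk
        apply hanti a ha b hb hab d
        rw [← hj, ← Function.iterate_add_apply, Nat.add_comm, hk]
      · obtain ⟨d, rfl⟩ := Nat.exists_eq_add_of_le hjk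
        apply hanti b hb a ha hab.symm d
        rw [← hk, ← Function.iterate_add_apply, Nat.add_comm, hj]
  have h3' : (S.biUnion fun a => (hfin a).toFinset).card ≤ 2 * X := by
    have h4 : (S.biUnion fun a => (hfin a).toFinset) ⊆ (Icc (-(X : ℤ)) X).erase 0 := by
      intro n hn
      rw [mem_biUnion] at hn
      obtain ⟨a, -, hn⟩ := hn
      rw [Set.Finite.mem_toFinset] at hn
      obtain ⟨h5, h6, -⟩ := hn
      rw [mem_erase, mem_Icc]
      refine ⟨?_, ?_⟩
      · rintro rfl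
        simp at h5
      · have h7 : |n| ≤ (X : ℤ) := by exact_mod_cast h6
        exact abs_le.1 h7
    refine (card_le_card h4).trans ?_
    rw [card_erase_of_mem (by rw [mem_Icc]; constructor <;> omega), Int.card_Icc]
    omega
  have h4 : (∑ a ∈ S, ((hfin a).toFinset.card : ℝ)) ≤ 2 * X := by
    rw [← h2]
    exact_mod_cast h3'
  have h5 : c * X * ∑ a ∈ S, 1 / |(a : ℝ)| ≤ 2 * X := by
    rw [mul_sum]
    refine le_trans (sum_le_sum fun a ha => ?_) h4
    have := h1 a ha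
    linarith
  rw [le_div_iff₀ hc]
  have hXpos : (0 : ℝ) < X := by linarith
  have h6 : X * ((∑ a ∈ S, 1 / |(a : ℝ)|) * c) ≤ X * 2 := by linarith
  exact le_of_mul_le_mul_left h6 hXpos

/-- The elements `n` of a forward invariant set which are odd and such that `3 n + 1` is not in
the set have bounded reciprocal sum. -/
theorem odd_sum : ∃ C : ℝ, 0 < C ∧ ∀ F : Set ℤ, (∀ n ∈ F, T n ∈ F) → ∀ S : Finset ℤ,
    (∀ n ∈ S, n ∈ F ∧ n % 2 = 1 ∧ 3 * n + 1 ∉ F) → ∑ n ∈ S, 1 / |(n : ℝ)| ≤ C := by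
  obtain ⟨C, hC, h⟩ := antichain_sum
  refine ⟨4 * C, by positivity, fun F hF S hS => ?_⟩
  have hinv : ∀ n ∈ F, ∀ k : ℕ, T^[k] n ∈ F := by
    intro n hn k
    induction k with
    | zero => exact hn
    | succ k ih =>
      rw [Function.iterate_succ_apply']
      exact hF _ ih
  have h1 := h (S.image fun n => 3 * n + 1) (by
    intro a ha
    rw [mem_image] at ha
    obtain ⟨n, -, rfl⟩ := ha
    omega) (by
    intro a ha b hb hab k hk
    rw [mem_image] at ha hb
    obtain ⟨n, hn, rfl⟩ := ha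
    obtain ⟨n', hn', rfl⟩ := hb
    obtain ⟨h1, h2, h3⟩ := hS n hn
    obtain ⟨h1', h2', h3'⟩ := hS n' hn'
    rcases k with _ | k
    · exact hab hk
    · have h4 : T (3 * n + 1) = T n := by
        have e : 3 * n + 1 = 2 * ((3 * n + 1) / 2) := by omega
        rw [e, T_two_mul]
        unfold T
        rw [if_neg (by omega)]
      rw [Function.iterate_succ_apply, h4] at hk
      exact h3' (hk ▸ hinv _ (hF _ h1) k))
  have hinj : Set.InjOn (fun n : ℤ => 3 * n + 1) S := by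
    intro x _ y _ hxy
    simp only at hxy
    omega
  rw [sum_image hinj] at h1
  calc ∑ n ∈ S, 1 / |(n : ℝ)| ≤ ∑ n ∈ S, 4 * (1 / |((3 * n + 1 : ℤ) : ℝ)|) := by
        apply sum_le_sum
        intro n hn
        have h2 := (hS n hn).2.1
        have h3 : (1 : ℝ) ≤ |(n : ℝ)| := by
          have : 1 ≤ |n| := Int.one_le_abs (by omega)
          exact_mod_cast this
        have h4 : |((3 * n + 1 : ℤ) : ℝ)| ≤ 4 * |(n : ℝ)| := by
          have h5 : |3 * n + 1| ≤ 4 * |n| := by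
            rcases abs_cases (3 * n + 1) with ⟨q1, q2⟩ | ⟨q1, q2⟩ <;>
            rcases abs_cases n with ⟨q3, q4⟩ | ⟨q3, q4⟩ <;> omega
          exact_mod_cast h5
        have h5 : (0 : ℝ) < |((3 * n + 1 : ℤ) : ℝ)| := by
          have : 1 ≤ |3 * n + 1| := Int.one_le_abs (by omega)
          have h6 : (1 : ℝ) ≤ |((3 * n + 1 : ℤ) : ℝ)| := by exact_mod_cast this
          linarith
        rw [mul_one_div, div_le_div_iff₀ (by linarith) h5]
        linarith
    _ = 4 * ∑ n ∈ S, 1 / |((3 * n + 1 : ℤ) : ℝ)| := by rw [mul_sum]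
    _ ≤ 4 * C := by linarith

/-- From odd elements to all elements. -/
theorem all_le_odd {F : Set ℤ} (hF : ∀ n ∈ F, T n ∈ F) (h0 : (0 : ℤ) ∉ F) {C : ℝ}
    (hC : ∀ S : Finset ℤ, (∀ n ∈ S, n ∈ F ∧ n % 2 = 1) → ∑ n ∈ S, 1 / |(n : ℝ)| ≤ C)
    (S : Finset ℤ) (hS : ∀ n ∈ S, n ∈ F) : ∑ n ∈ S, 1 / |(n : ℝ)| ≤ 2 * C := by
  -- the odd part
  have hodd : ∀ n : ℤ, n ≠ 0 → ∃ (i : ℕ) (o : ℤ), o % 2 = 1 ∧ n = 2 ^ i * o := by
    have h : ∀ N : ℕ, ∀ m : ℤ, m ≠ 0 → m.natAbs ≤ N →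
        ∃ (i : ℕ) (o : ℤ), o % 2 = 1 ∧ m = 2 ^ i * o := by
      intro N
      induction N with
      | zero =>
        intro m hm h
        omega
      | succ N ih =>
        intro m hm h
        rcases Int.emod_two_eq_zero_or_one m with h0 | h0
        · obtain ⟨i, o, ho, he⟩ := ih (m / 2) (by omega) (by omega)
          refine ⟨i + 1, o, ho, ?_⟩
          have e : (2 : ℤ) ^ (i + 1) * o = 2 * (2 ^ i * o) := by ring
          rw [e, ← he]
          omega
        · exact ⟨0, m, h0, by simp⟩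
    exact fun n hn => h _ n hn le_rfl
  choose! i o ho1 ho2 using hodd
  have hinv : ∀ n ∈ F, ∀ k : ℕ, T^[k] n ∈ F := by
    intro n hn k
    induction k with
    | zero => exact hn
    | succ k ih =>
      rw [Function.iterate_succ_apply']
      exact hF _ ih
  have hne : ∀ n ∈ S, n ≠ 0 := by
    rintro n hn rfl
    exact h0 (hS 0 hn)
  have hoF : ∀ n ∈ S, o n ∈ F := by
    intro n hn
    have h1 := hinv n (hS n hn) (i n)
    have e := T_iter_pow (i n) (o n)
    rw [← ho2 n (hne n hn)] at e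
    rwa [e] at h1
  obtain ⟨I, hI⟩ : ∃ I : ℕ, I = S.sup i := ⟨_, rfl⟩
  have hiI : ∀ n ∈ S, i n < I + 1 := by
    intro n hn
    have : i n ≤ I := by
      rw [hI]
      exact Finset.le_sup hn
    omega
  have h1 : ∑ n ∈ S, 1 / |(n : ℝ)| ≤
      ∑ p ∈ (S.image o) ×ˢ range (I + 1), 1 / (2 ^ p.2 * |(p.1 : ℝ)|) := by
    have h2 : ∑ n ∈ S, 1 / |(n : ℝ)| = ∑ p ∈ S.image (fun n => (o n, i n)),
        1 / (2 ^ p.2 * |(p.1 : ℝ)|) := by
      rw [sum_image]
      · apply sum_congr rfl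
        intro n hn
        have h3 : (n : ℝ) = 2 ^ i n * (o n : ℝ) := by exact_mod_cast ho2 n (hne n hn)
        simp only
        conv_lhs => rw [h3]
        rw [abs_mul, abs_of_pos (by positivity : (0 : ℝ) < 2 ^ i n)]
      · intro x hx y hy hxy
        simp only [Prod.mk.injEq] at hxy
        rw [ho2 x (hne x hx), ho2 y (hne y hy), hxy.1, hxy.2]
    rw [h2]
    apply sum_le_sum_of_subset_of_nonneg
    · intro p hp
      rw [mem_image] at hp
      obtain ⟨n, hn, rfl⟩ := hp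
      rw [mem_product, mem_range]
      exact ⟨mem_image_of_mem _ hn, hiI n hn⟩
    · intro p _ _
      positivity
  refine h1.trans ?_
  rw [sum_product]
  have h2 : ∀ x ∈ S.image o, ∑ j ∈ range (I + 1), 1 / (2 ^ j * |(x : ℝ)|) ≤ 2 * (1 / |(x : ℝ)|) := by
    intro x _
    have h3 : ∑ j ∈ range (I + 1), 1 / (2 ^ j * |(x : ℝ)|) =
        (∑ j ∈ range (I + 1), (1 / 2 : ℝ) ^ j) * (1 / |(x : ℝ)|) := by
      rw [sum_mul]
      apply sum_congr rfl
      intro j _
      rw [one_div_pow, one_div_mul_one_div]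
    rw [h3]
    apply mul_le_mul_of_nonneg_right _ (by positivity)
    exact sum_geometric_two_le _
  refine (sum_le_sum h2).trans ?_
  rw [← mul_sum]
  apply mul_le_mul_of_nonneg_left _ (by norm_num)
  apply hC
  intro n hn
  rw [mem_image] at hn
  obtain ⟨m, hm, rfl⟩ := hn
  exact ⟨hoF m hm, ho1 m (hne m hm)⟩

theorem T_ne_zero {n : ℤ} (h : n ≠ 0) : T n ≠ 0 := by
  unfold T
  split_ifs with h2 <;> omega

theorem T_three (n : ℤ) (h : n % 2 = 1) : T (3 * n + 1) = T n := by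
  have e : 3 * n + 1 = 2 * ((3 * n + 1) / 2) := by omega
  rw [e, T_two_mul]
  unfold T
  rw [if_neg (by omega)]

/-- The reciprocals of the periodic integers have a finite sum. -/
theorem periodic_sum : ∃ C : ℝ, 0 < C ∧ ∀ S : Finset ℤ,
    (∀ n ∈ S, n ≠ 0 ∧ ∃ k, 0 < k ∧ T^[k] n = n) → ∑ n ∈ S, 1 / |(n : ℝ)| ≤ C := by
  obtain ⟨C, hC, h⟩ := odd_sum
  refine ⟨2 * C, by positivity, fun S hS => ?_⟩
  have hF : ∀ n ∈ {n : ℤ | n ≠ 0 ∧ ∃ k, 0 < k ∧ T^[k] n = n},
      T n ∈ {n : ℤ | n ≠ 0 ∧ ∃ k, 0 < k ∧ T^[k] n = n} := by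
    rintro n ⟨h1, k, hk, h2⟩
    refine ⟨T_ne_zero h1, k, hk, ?_⟩
    rw [← Function.iterate_succ_apply, Function.iterate_succ_apply', h2]
  refine all_le_odd hF (fun h0 => h0.1 rfl) (fun S' hS' => h _ hF S' fun n hn => ?_) S hS
  obtain ⟨h1, h2⟩ := hS' n hn
  refine ⟨h1, h2, ?_⟩
  rintro ⟨-, k', hk', h3⟩
  obtain ⟨-, k, hk, h4⟩ := h1
  have h5 : T^[k * k'] n = n := by
    rw [Function.iterate_mul]
    exact Function.iterate_fixed h4 k'
  have h6 : T^[k * k'] (3 * n + 1) = 3 * n + 1 := by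
    rw [Nat.mul_comm, Function.iterate_mul]
    exact Function.iterate_fixed h3 k
  obtain ⟨K, hK⟩ : ∃ K, k * k' = K + 1 := ⟨k * k' - 1, by
    have := Nat.mul_pos hk hk'
    omega⟩
  rw [hK, Function.iterate_succ_apply] at h5 h6
  rw [T_three n h2, h5] at h6
  omega

/-- **Bounded reciprocal sums**: the union of the forward orbits of a set of nonzero integers
whose forward orbits are pairwise disjoint. -/
theorem orbit_sum : ∃ C : ℝ, 0 < C ∧ ∀ M : Set ℤ, (∀ m ∈ M, m ≠ 0) →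
    (∀ m ∈ M, ∀ m' ∈ M, m ≠ m' → ∀ j k : ℕ, T^[j] m ≠ T^[k] m') →
    ∀ S : Finset ℤ, (∀ n ∈ S, ∃ m ∈ M, ∃ k : ℕ, T^[k] m = n) → ∑ n ∈ S, 1 / |(n : ℝ)| ≤ C := by
  obtain ⟨C, hC, h⟩ := odd_sum
  obtain ⟨C', hC', h'⟩ := periodic_sum
  refine ⟨2 * (C + 2 * C'), by positivity, fun M hM hdisj S hS => ?_⟩
  have hF : ∀ n ∈ {n : ℤ | ∃ m ∈ M, ∃ k : ℕ, T^[k] m = n},
      T n ∈ {n : ℤ | ∃ m ∈ M, ∃ k : ℕ, T^[k] m = n} := by
    rintro n ⟨m, hm, k, rfl⟩
    exact ⟨m, hm, k + 1, by rw [Function.iterate_succ_apply']⟩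
  have h0 : ∀ n ∈ {n : ℤ | ∃ m ∈ M, ∃ k : ℕ, T^[k] m = n}, n ≠ 0 := by
    rintro n ⟨m, hm, k, rfl⟩
    induction k with
    | zero => exact hM m hm
    | succ k ih =>
      rw [Function.iterate_succ_apply']
      exact T_ne_zero ih
  refine all_le_odd hF (fun h1 => h0 0 h1 rfl) (fun S' hS' => ?_) S hS
  classical
  rw [← sum_filter_add_sum_filter_not S'
    (fun n : ℤ => 3 * n + 1 ∈ {n : ℤ | ∃ m ∈ M, ∃ k : ℕ, T^[k] m = n})]
  have h1 : ∑ n ∈ S'.filter (fun n : ℤ => ¬ 3 * n + 1 ∈ {n : ℤ | ∃ m ∈ M, ∃ k : ℕ, T^[k] m = n}),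
      1 / |(n : ℝ)| ≤ C := by
    apply h _ hF
    intro n hn
    rw [mem_filter] at hn
    exact ⟨(hS' n hn.1).1, (hS' n hn.1).2, hn.2⟩
  have h2 : ∑ n ∈ S'.filter (fun n : ℤ => 3 * n + 1 ∈ {n : ℤ | ∃ m ∈ M, ∃ k : ℕ, T^[k] m = n}),
      1 / |(n : ℝ)| ≤ 2 * C' := by
    have h3 := h' ((S'.filter
      (fun n : ℤ => 3 * n + 1 ∈ {n : ℤ | ∃ m ∈ M, ∃ k : ℕ, T^[k] m = n})).image T) (by
        intro e he
        rw [mem_image] at he
        obtain ⟨n, hn, rfl⟩ := he
        rw [mem_filter] at hn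
        obtain ⟨hn1, m', hm', j, hj⟩ := hn
        obtain ⟨⟨m, hm, i, hi⟩, hodd⟩ := hS' n hn1
        have hT := T_three n hodd
        refine ⟨T_ne_zero (by omega), ?_⟩
        have e1 : T^[i + 1] m = T n := by rw [Function.iterate_succ_apply', hi]
        have e2 : T^[j + 1] m' = T n := by rw [Function.iterate_succ_apply', hj, hT]
        have hmm : m = m' := by
          by_contra hne
          exact hdisj m hm m' hm' hne (i + 1) (j + 1) (e1.trans e2.symm)
        subst hmm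
        rcases lt_trichotomy i j with hij | hij | hij
        · obtain ⟨d, rfl⟩ := Nat.exists_eq_add_of_lt hij
          refine ⟨d + 1, by omega, ?_⟩
          conv_lhs => rw [← e1]
          rw [← Function.iterate_add_apply, ← e2]
          congr 1
          omega
        · subst hij
          rw [hi] at hj
          omega
        · obtain ⟨d, rfl⟩ := Nat.exists_eq_add_of_lt hij
          refine ⟨d + 1, by omega, ?_⟩
          conv_lhs => rw [← e2]
          rw [← Function.iterate_add_apply, ← e1]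
          congr 1
          omega)
    have hval : ∀ n ∈ S', T n = (3 * n + 1) / 2 := by
      intro n hn
      unfold T
      rw [if_neg]
      have := (hS' n hn).2
      omega
    rw [sum_image (by
      intro x hx y hy hxy
      simp only [coe_filter, Set.mem_setOf_eq] at hx hy
      rw [hval x hx.1, hval y hy.1] at hxy
      have h5 := (hS' x hx.1).2
      have h6 := (hS' y hy.1).2
      omega)] at h3
    calc _ ≤ ∑ n ∈ S'.filter (fun n : ℤ => 3 * n + 1 ∈ {n : ℤ | ∃ m ∈ M, ∃ k : ℕ, T^[k] m = n}),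
          2 * (1 / |((T n : ℤ) : ℝ)|) := by
          apply sum_le_sum
          intro n hn
          rw [mem_filter] at hn
          have h5 := (hS' n hn.1).2
          have h4 : |((T n : ℤ) : ℝ)| ≤ 2 * |(n : ℝ)| := by
            have h6 : |T n| ≤ 2 * |n| := by
              rw [hval n hn.1]
              rcases abs_cases ((3 * n + 1) / 2) with ⟨q1, q2⟩ | ⟨q1, q2⟩ <;>
              rcases abs_cases n with ⟨q3, q4⟩ | ⟨q3, q4⟩ <;> omega
            exact_mod_cast h6
          have h6 : (1 : ℝ) ≤ |((T n : ℤ) : ℝ)| := by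
            have : 1 ≤ |T n| := Int.one_le_abs (T_ne_zero (by omega))
            exact_mod_cast this
          have h7 : (1 : ℝ) ≤ |(n : ℝ)| := by
            have : 1 ≤ |n| := Int.one_le_abs (by omega)
            exact_mod_cast this
          rw [mul_one_div, div_le_div_iff₀ (by linarith) (by linarith)]
          linarith
      _ = 2 * ∑ n ∈ S'.filter (fun n : ℤ =>
          3 * n + 1 ∈ {n : ℤ | ∃ m ∈ M, ∃ k : ℕ, T^[k] m = n}), 1 / |((T n : ℤ) : ℝ)| := by
          rw [mul_sum]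
      _ ≤ 2 * C' := mul_le_mul_of_nonneg_left h3 (by norm_num)
  linarith

end Pool.Agent.Collatz3.PD
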