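import Mathlib
import Pool.Agent.Collatz3.Defs
import Pool.Agent.Collatz3.Words
import Pool.Agent.Collatz3.GCount
import Pool.Agent.Collatz3.GFinal

set_option autoImplicit false

/-!
Profiles: words cut in segments. A segment is a pair `q = (ρ, c)`: proportion `ρ` of odd steps,
duration `c` (in units of `L`), listed from the target upwards.
-/

namespace Pool.Agent.Collatz3.PF

open Real

/-- `w`, read at `a`, is cut in segments: the segment `q` has `q.2 * L` steps and
`q.1 * q.2 * L` odd steps, both up to `e * L`. -/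
def Cut (L e : ℝ) : List (ℝ × ℝ) → ℤ → List ℕ → Prop
  | [], _, w => w = []
  | q :: l, a, w => ∃ (w1 w2 : List ℕ) (b : ℤ), w = w1 ++ w2 ∧ (∀ i ∈ w1, 1 ≤ i) ∧
      |(w1.length : ℝ) - q.1 * q.2 * L| ≤ e * L ∧ |(w1.sum : ℝ) - q.2 * L| ≤ e * L ∧
      Up a w1 b ∧ ¬ (3 : ℤ) ∣ b ∧ Cut L e l b w2

/-- height of the profile above the target at backward time `τ` -/
noncomputable def rise : List (ℝ × ℝ) → ℝ → ℝ
  | [], _ => 0
  | q :: l, τ => (log 2 - q.1 * log 3) * min (max τ 0) q.2 + rise l (τ - q.2)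

/-- admissible segments -/
def Adm (l : List (ℝ × ℝ)) : Prop :=
  ∀ q ∈ l, 0 < q.1 ∧ q.1 < 1 ∧ q.1 * log 3 < binEntropy q.1 ∧ 0 < q.2

/-- exponent of the number of words -/
noncomputable def gain (l : List (ℝ × ℝ)) : ℝ :=
  (l.map fun q => (binEntropy q.1 - q.1 * log 3) * q.2).sum

end Pool.Agent.Collatz3.PF
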