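import Mathlib
import Pool.Agent.Collatz3.PFDefs

set_option autoImplicit false

/-!
From a word cut in segments to the whole orbit: closeness to the profile.
-/

namespace Pool.Agent.Collatz3.PF

open Real

/-! ### the profile function -/

theorem Adm.tail {q : ℝ × ℝ} {l : List (ℝ × ℝ)} (h : Adm (q :: l)) : Adm l :=
  fun p hp => h p (List.mem_cons_of_mem _ hp)

theorem Adm.head {q : ℝ × ℝ} {l : List (ℝ × ℝ)} (h : Adm (q :: l)) :
    0 < q.1 ∧ q.1 < 1 ∧ q.1 * log 3 < binEntropy q.1 ∧ 0 < q.2 := h q (List.mem_cons_self)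

theorem speed_bounds {ρ : ℝ} (h0 : 0 < ρ) (h : ρ * log 3 < binEntropy ρ) :
    0 < log 2 - ρ * log 3 ∧ log 2 - ρ * log 3 ≤ log 2 := by
  have h1 : binEntropy ρ ≤ log 2 := binEntropy_le_log_two
  have h2 : 0 < log 3 := log_pos (by norm_num)
  have h3 : 0 < ρ * log 3 := mul_pos h0 h2
  constructor <;> linarith

theorem clamp_add {x c : ℝ} (hc : 0 ≤ c) :
    min (max x 0) c + max (x - c) 0 = max x 0 := by
  rcases le_total x 0 with h | h
  · rw [max_eq_right h, min_eq_left hc, max_eq_right (by linarith)]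
    ring
  · rw [max_eq_left h]
    rcases le_total x c with h1 | h1
    · rw [min_eq_left h1, max_eq_right (by linarith)]
      ring
    · rw [min_eq_right h1, max_eq_left (by linarith)]
      ring

/-- the profile is nondecreasing with slope at most `log 2`, and vanishes for negative times -/
theorem rise_mono_lip (l : List (ℝ × ℝ)) (hl : Adm l) {x y : ℝ} (h : y ≤ x) :
    0 ≤ rise l x - rise l y ∧ rise l x - rise l y ≤ log 2 * (max x 0 - max y 0) := by
  induction l generalizing x y with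
  | nil =>
    have hl2 : 0 < log 2 := log_pos (by norm_num)
    have h1 : max y 0 ≤ max x 0 := max_le_max_right 0 h
    simp only [rise, sub_self, le_refl, true_and]
    exact mul_nonneg hl2.le (by linarith)
  | cons q l ih =>
    obtain ⟨h0, h1, h2, h3⟩ := hl.head
    obtain ⟨hv0, hv1⟩ := speed_bounds h0 h2
    obtain ⟨i1, i2⟩ := ih hl.tail (x := x - q.2) (y := y - q.2) (by linarith)
    have e1 := clamp_add (x := x) h3.le
    have e2 := clamp_add (x := y) h3.le
    have h4 : min (max y 0) q.2 ≤ min (max x 0) q.2 := min_le_min_right _ (max_le_max_right 0 h)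
    have h5 : 0 ≤ (log 2 - q.1 * log 3) * (min (max x 0) q.2 - min (max y 0) q.2) :=
      mul_nonneg hv0.le (by linarith)
    have h6 : (log 2 - q.1 * log 3) * (min (max x 0) q.2 - min (max y 0) q.2) ≤
        log 2 * (min (max x 0) q.2 - min (max y 0) q.2) :=
      mul_le_mul_of_nonneg_right hv1 (by linarith)
    have e3 : rise (q :: l) x - rise (q :: l) y =
        (log 2 - q.1 * log 3) * (min (max x 0) q.2 - min (max y 0) q.2) +
          (rise l (x - q.2) - rise l (y - q.2)) := by
      simp only [rise]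
      ring
    rw [e3]
    refine ⟨by linarith, ?_⟩
    have e4 : max x 0 - max y 0 = (min (max x 0) q.2 - min (max y 0) q.2) +
        (max (x - q.2) 0 - max (y - q.2) 0) := by linarith
    rw [e4, mul_add]
    linarith

theorem rise_of_nonpos (l : List (ℝ × ℝ)) (hl : Adm l) {x : ℝ} (h : x ≤ 0) : rise l x = 0 := by
  induction l generalizing x with
  | nil => rfl
  | cons q l ih =>
    obtain ⟨h0, h1, h2, h3⟩ := hl.head
    simp only [rise]
    rw [ih hl.tail (by linarith), max_eq_right h, min_eq_left h3.le]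
    ring

theorem rise_zero (l : List (ℝ × ℝ)) (hl : Adm l) : rise l 0 = 0 := rise_of_nonpos l hl le_rfl

theorem rise_nonneg (l : List (ℝ × ℝ)) (hl : Adm l) (x : ℝ) : 0 ≤ rise l x := by
  rcases le_total x 0 with h | h
  · rw [rise_of_nonpos l hl h]
  · have := (rise_mono_lip l hl h).1
    rw [rise_zero l hl] at this
    linarith

theorem rise_le (l : List (ℝ × ℝ)) (hl : Adm l) {x : ℝ} (h : 0 ≤ x) : rise l x ≤ log 2 * x := by
  have := (rise_mono_lip l hl h).2
  rw [rise_zero l hl, max_eq_left h, max_self] at this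
  linarith

/-- Lipschitz with constant `log 2` -/
theorem rise_lip (l : List (ℝ × ℝ)) (hl : Adm l) (x y : ℝ) :
    |rise l x - rise l y| ≤ log 2 * |x - y| := by
  have hl2 : 0 < log 2 := log_pos (by norm_num)
  have key : ∀ u v : ℝ, v ≤ u → |rise l u - rise l v| ≤ log 2 * |u - v| := by
    intro u v h
    obtain ⟨h1, h2⟩ := rise_mono_lip l hl h
    rw [abs_of_nonneg h1, abs_of_nonneg (by linarith : 0 ≤ u - v)]
    refine h2.trans (mul_le_mul_of_nonneg_left ?_ hl2.le)
    rcases le_total v 0 with h3 | h3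
    · rcases le_total u 0 with h4 | h4
      · rw [max_eq_right h3, max_eq_right h4]
        linarith
      · rw [max_eq_right h3, max_eq_left h4]
        linarith
    · rw [max_eq_left h3, max_eq_left (h3.trans h)]
  rcases le_total y x with h | h
  · exact key x y h
  · rw [abs_sub_comm, abs_sub_comm x y]
    exact key y x h

/-- the profile is constant after its end -/
theorem rise_total (l : List (ℝ × ℝ)) (hl : Adm l) {x : ℝ} (h : (l.map Prod.snd).sum ≤ x) :
    rise l x = (l.map fun q => (log 2 - q.1 * log 3) * q.2).sum := by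
  induction l generalizing x with
  | nil => simp [rise]
  | cons q l ih =>
    obtain ⟨h0, h1, h2, h3⟩ := hl.head
    have hs : 0 ≤ (l.map Prod.snd).sum := by
      apply List.sum_nonneg
      intro y hy
      rw [List.mem_map] at hy
      obtain ⟨p, hp, rfl⟩ := hy
      exact (hl.tail p hp).2.2.2.le
    rw [List.map_cons, List.sum_cons] at h
    simp only [rise]
    rw [ih hl.tail (by linarith), List.map_cons, List.sum_cons, max_eq_left (by linarith),
      min_eq_right (by linarith)]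

/-! ### steps of the map -/

theorem T3_le (m : ℕ) (hm : 1 ≤ m) : T3 m ≤ 2 * m := by
  unfold T3
  split_ifs <;> omega

theorem one_le_T3 (m : ℕ) (hm : 1 ≤ m) : 1 ≤ T3 m := by
  unfold T3
  split_ifs <;> omega

theorem one_le_iter (k m : ℕ) (hm : 1 ≤ m) : 1 ≤ T3^[k] m := by
  induction k with
  | zero => exact hm
  | succ k ih =>
    rw [Function.iterate_succ_apply']
    exact one_le_T3 _ ih

theorem iter_le (k m : ℕ) (hm : 1 ≤ m) : T3^[k] m ≤ 2 ^ k * m := by
  induction k with
  | zero => simp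
  | succ k ih =>
    rw [Function.iterate_succ_apply']
    calc T3 (T3^[k] m) ≤ 2 * T3^[k] m := T3_le _ (one_le_iter k m hm)
      _ ≤ 2 * (2 ^ k * m) := Nat.mul_le_mul_left _ ih
      _ = 2 ^ (k + 1) * m := by ring

/-- `k` steps change the logarithm by at most `k log 2` -/
theorem log_iter (k m : ℕ) (hm : 1 ≤ m) :
    |log (T3^[k] m : ℕ) - log (m : ℕ)| ≤ k * log 2 := by
  have h1 := iter_le k m hm
  have h2 := le_pow_mul_T3 k m
  have h3 := one_le_iter k m hm
  obtain ⟨y, hy⟩ : ∃ y, y = T3^[k] m := ⟨_, rfl⟩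
  rw [← hy] at h1 h2 h3 ⊢
  have m0 : (0 : ℝ) < m := by exact_mod_cast hm
  have y0 : (0 : ℝ) < y := by exact_mod_cast h3
  have h1' : (y : ℝ) ≤ 2 ^ k * m := by exact_mod_cast h1
  have h2' : (m : ℝ) ≤ 2 ^ k * y := by exact_mod_cast h2
  have l1 := log_le_log y0 h1'
  have l2 := log_le_log m0 h2'
  rw [log_mul (by positivity) m0.ne', log_pow] at l1
  rw [log_mul (by positivity) y0.ne', log_pow] at l2
  rw [abs_le]
  constructor <;> linarith

/-! ### cut words -/

theorem Cut.pos {L e : ℝ} {l : List (ℝ × ℝ)} {a : ℤ} {w : List ℕ} (h : Cut L e l a w) :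
    ∀ i ∈ w, 1 ≤ i := by
  induction l generalizing a w with
  | nil =>
    have : w = [] := h
    simp [this]
  | cons q l ih =>
    obtain ⟨w1, w2, b, rfl, h1, -, -, -, -, h2⟩ := h
    intro i hi
    rcases List.mem_append.1 hi with h3 | h3
    · exact h1 i h3
    · exact ih h2 i h3

theorem Cut.sum {L e : ℝ} {l : List (ℝ × ℝ)} {a : ℤ} {w : List ℕ} (h : Cut L e l a w) :
    |(w.sum : ℝ) - (l.map Prod.snd).sum * L| ≤ l.length * e * L := by
  induction l generalizing a w with
  | nil =>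
    have : w = [] := h
    simp [this]
  | cons q l ih =>
    obtain ⟨w1, w2, b, rfl, -, -, h1, -, -, h2⟩ := h
    have h3 := ih h2
    rw [List.map_cons, List.sum_cons, List.length_cons, List.sum_append, Nat.cast_add,
      Nat.cast_add, Nat.cast_one]
    rw [abs_le] at h1 h3 ⊢
    constructor <;> linarith [h1.1, h1.2, h3.1, h3.2]

theorem aux_step {S1 n1 c r L e l2 l3 j R R' v m : ℝ} (hv : v = l2 - r * l3) (hv0 : 0 < v)
    (hv1 : v ≤ l2) (hl2 : l2 ≤ 1) (hl20 : 0 < l2) (hl3 : l3 ≤ 2) (hl30 : 0 < l3) (hL : 0 < L)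
    (he : 0 < e) (hn : |n1 - r * c * L| ≤ e * L) (hS : |S1 - c * L| ≤ e * L)
    (hR : |R - R'| ≤ l2 * |(j - S1) / L - (j / L - c)|)
    (hm : |m - c| ≤ e) :
    |(S1 * l2 - n1 * l3 + L * R) - (L * (v * m) + L * R')| ≤ 6 * e * L := by
  have e1 : (j - S1) / L - (j / L - c) = -((S1 - c * L) / L) := by
    field_simp
    ring
  rw [e1, abs_neg, abs_div, abs_of_pos hL] at hR
  have hR2 : L * |R - R'| ≤ l2 * |S1 - c * L| := by
    calc L * |R - R'| ≤ L * (l2 * (|S1 - c * L| / L)) := mul_le_mul_of_nonneg_left hR hL.le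
      _ = l2 * |S1 - c * L| := by field_simp
  have hR3 : L * |R - R'| ≤ e * L := by
    have : l2 * |S1 - c * L| ≤ 1 * (e * L) :=
      mul_le_mul hl2 hS (abs_nonneg _) (by norm_num)
    linarith
  have e2 : (S1 * l2 - n1 * l3 + L * R) - (L * (v * m) + L * R') =
      l2 * (S1 - c * L) - l3 * (n1 - r * c * L) - L * v * (m - c) + L * (R - R') := by
    rw [hv]; ring
  rw [e2]
  have a1 : |l2 * (S1 - c * L)| ≤ e * L := by
    rw [abs_mul, abs_of_pos hl20]
    calc l2 * |S1 - c * L| ≤ 1 * (e * L) := mul_le_mul hl2 hS (abs_nonneg _) (by norm_num)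
      _ = e * L := one_mul _
  have a2 : |l3 * (n1 - r * c * L)| ≤ 2 * (e * L) := by
    rw [abs_mul, abs_of_pos hl30]
    exact mul_le_mul hl3 hn (abs_nonneg _) (by norm_num)
  have a3 : |L * v * (m - c)| ≤ e * L := by
    rw [abs_mul, abs_mul, abs_of_pos hL, abs_of_pos hv0]
    have : L * v * |m - c| ≤ L * 1 * e := by
      apply mul_le_mul _ hm (abs_nonneg _) (by positivity)
      exact mul_le_mul_of_nonneg_left (hv1.trans hl2) hL.le
    linarith
  have a4 : |L * (R - R')| ≤ e * L := by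
    rw [abs_mul, abs_of_pos hL]
    exact hR3
  have b1 := abs_le.1 a1
  have b2 := abs_le.1 a2
  have b3 := abs_le.1 a3
  have b4 := abs_le.1 a4
  have : 0 < e * L := mul_pos he hL
  rw [abs_le]
  constructor <;> linarith [b1.1, b1.2, b2.1, b2.2, b3.1, b3.2, b4.1, b4.2]

theorem close_aux {A : ℕ} (hA : 1 ≤ A)
    (hdef : ∀ (w : List ℕ), (∀ i ∈ w, 1 ≤ i) → ∀ b : ℤ, Up (A : ℤ) w b →
      |log (b : ℝ) - (log A + w.sum * log 2 - w.length * log 3)| ≤ log (w.length + 1) + 1)
    {δ e L : ℝ} (hδ0 : 0 ≤ δ) (he : 0 < e) (hL : 1 ≤ L) (n : ℕ) (l : List (ℝ × ℝ)) (hl : Adm l)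
    (hδ : ∀ q ∈ l, q.2 ≤ δ) :
    ∀ (u : List ℕ) (m : ℤ), (∀ i ∈ u, 1 ≤ i) → Up (A : ℤ) u m →
      ∀ (w : List ℕ) (b : ℤ), Cut L e l m w → Up m w b → u.length + w.length ≤ n →
      ∀ j : ℕ, j ≤ w.sum → |log (T3^[w.sum - j] b.toNat : ℕ) -
        (u.sum * log 2 - u.length * log 3 + L * rise l (j / L))| ≤
      (2 * δ + (6 * l.length + 2) * e) * L + log A + log (n + 1) + 1 := by
  have hl2 : 0 < log 2 := log_pos (by norm_num)
  have hl2' : log 2 ≤ 1 := by
    have := log_two_lt_d9
    linarith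
  have hl3 : 0 < log 3 := log_pos (by norm_num)
  have hl3' : log 3 ≤ 2 := by
    have h1 : log 3 ≤ log 4 := log_le_log (by norm_num) (by norm_num)
    have h2 : log 4 = 2 * log 2 := by
      rw [show (4 : ℝ) = 2 ^ 2 by norm_num, log_pow]
      norm_num
    linarith
  have hL0 : 0 < L := by linarith
  have hAZ : (0 : ℤ) < (A : ℤ) := by exact_mod_cast hA
  have hAlog : 0 ≤ log (A : ℝ) := log_nonneg (by exact_mod_cast hA)
  have heL : 0 < e * L := mul_pos he hL0
  have hdL : 0 ≤ δ * L := mul_nonneg hδ0 hL0.le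
  -- closeness at the node of a prefix
  have hnode : ∀ (u : List ℕ) (m : ℤ), (∀ i ∈ u, 1 ≤ i) → Up (A : ℤ) u m → u.length ≤ n →
      |log (m : ℝ) - (u.sum * log 2 - u.length * log 3)| ≤ log A + log (n + 1) + 1 := by
    intro u m hu hm hun
    have h1 := hdef u hu m hm
    have h2 : log ((u.length : ℝ) + 1) ≤ log ((n : ℝ) + 1) := by
      apply log_le_log (by positivity)
      have : (u.length : ℝ) ≤ n := by exact_mod_cast hun
      linarith
    rw [abs_le] at h1 ⊢
    constructor <;> linarith [h1.1, h1.2]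
  induction l with
  | nil =>
    intro u m hu hm w b hc hb hn j hj
    have hw : w = [] := hc
    subst hw
    have hmb : m = b := hb
    subst hmb
    have hj0 : j = 0 := by simpa using hj
    subst hj0
    have hm0 : 0 < m := hm.pos hAZ hu
    have h1 := hnode u m hu hm (by simpa using hn)
    have e1 : ((m.toNat : ℕ) : ℝ) = (m : ℝ) := by
      have : ((m.toNat : ℕ) : ℤ) = m := Int.toNat_of_nonneg hm0.le
      exact_mod_cast this
    simp only [List.sum_nil, Nat.sub_zero, Function.iterate_zero, id, rise, mul_zero, add_zero,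
      List.length_nil, Nat.cast_zero]
    rw [e1]
    refine h1.trans ?_
    have : 0 ≤ (2 * δ + (0 + 2) * e) * L := by positivity
    linarith
  | cons q l ih =>
    intro u m hu hm w b hc hb hn j hj
    obtain ⟨q0, q1, q2, q3⟩ := hl.head
    obtain ⟨hv0, hv1⟩ := speed_bounds q0 q2
    have hqδ : q.2 ≤ δ := hδ q List.mem_cons_self
    obtain ⟨w1, w2, b1, rfl, hw1, hlen, hsum, hup, -, hcut⟩ := hc
    have hm0 : 0 < m := hm.pos hAZ hu
    have hb10 : 0 < b1 := hup.pos hm0 hw1
    have hw2 := hcut.pos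
    obtain ⟨b1', hup', hub⟩ := Up.append_iff.1 hb
    have hb1 : b1' = b1 := hup'.unique hup
    rw [hb1] at hub
    have hb0 : 0 < b := hub.pos hb10 hw2
    have ht1 := hup.iter hm0 hw1
    have ht2 := hub.iter hb10 hw2
    rw [List.sum_append, List.length_append] at *
    by_cases hjc : j ≤ w1.sum
    · -- inside the first segment
      obtain ⟨k, hk⟩ : ∃ k, w1.sum = k + j := ⟨w1.sum - j, by omega⟩
      have e1 : w1.sum + w2.sum - j = k + w2.sum := by omega
      rw [e1, Function.iterate_add_apply, ht2]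
      have hy1 : 1 ≤ T3^[k] b1.toNat := one_le_iter k _ (by omega)
      obtain ⟨y, hy⟩ : ∃ y, y = T3^[k] b1.toNat := ⟨_, rfl⟩
      rw [← hy] at hy1 ⊢
      have hTy : T3^[j] y = m.toNat := by
        rw [hy, ← Function.iterate_add_apply, add_comm j k, ← hk]
        exact ht1
      have h1 := log_iter j y hy1
      rw [hTy] at h1
      have e2 : ((m.toNat : ℕ) : ℝ) = (m : ℝ) := by
        have : ((m.toNat : ℕ) : ℤ) = m := Int.toNat_of_nonneg hm0.le
        exact_mod_cast this
      rw [e2] at h1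
      have h2 := hnode u m hu hm (by omega)
      have hjR : (j : ℝ) ≤ (δ + e) * L := by
        have h3 : (j : ℝ) ≤ w1.sum := by exact_mod_cast hjc
        have h4 := (abs_le.1 hsum).2
        have h5 : q.2 * L ≤ δ * L := mul_le_mul_of_nonneg_right hqδ hL0.le
        linarith
      have hj0 : (0 : ℝ) ≤ j := Nat.cast_nonneg j
      have h6 : (j : ℝ) * log 2 ≤ (δ + e) * L := by
        calc (j : ℝ) * log 2 ≤ j * 1 := mul_le_mul_of_nonneg_left hl2' hj0
          _ ≤ _ := by linarith
      have h7 : 0 ≤ L * rise (q :: l) (j / L) := mul_nonneg hL0.le (rise_nonneg _ hl _)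
      have h8 : L * rise (q :: l) (j / L) ≤ (δ + e) * L := by
        have h9 := rise_le (q :: l) hl (x := j / L) (by positivity)
        calc L * rise (q :: l) (j / L) ≤ L * (log 2 * (j / L)) :=
              mul_le_mul_of_nonneg_left h9 hL0.le
          _ = j * log 2 := by field_simp
          _ ≤ _ := h6
      have h10 : (0 : ℝ) ≤ ((q :: l).length : ℝ) := Nat.cast_nonneg _
      have h11 : 0 ≤ 6 * ((q :: l).length : ℝ) * (e * L) := by positivity
      rw [abs_le] at h1 h2 ⊢
      constructor <;> nlinarith [h1.1, h1.2, h2.1, h2.2]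
    · -- beyond the first segment
      push Not at hjc
      obtain ⟨i, rfl⟩ : ∃ i, j = w1.sum + i := ⟨j - w1.sum, by omega⟩
      have hu' : ∀ i ∈ u ++ w1, 1 ≤ i := by
        intro i hi
        rcases List.mem_append.1 hi with h3 | h3
        · exact hu i h3
        · exact hw1 i h3
      have hIH := ih hl.tail (fun p hp => hδ p (List.mem_cons_of_mem _ hp)) (u ++ w1) b1 hu'
        (Up.append_iff.2 ⟨m, hm, hup⟩) w2 b hcut hub (by rw [List.length_append]; omega) i
        (by omega)
      have e1 : w1.sum + w2.sum - (w1.sum + i) = w2.sum - i := by omega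
      rw [e1]
      rw [List.sum_append, List.length_append] at hIH
      simp only [Nat.cast_add] at hIH ⊢
      have hlip := rise_lip l hl.tail (i / L) ((w1.sum + i) / L - q.2)
      have hclamp : |min (max (((w1.sum : ℝ) + i) / L) 0) q.2 - q.2| ≤ e := by
        have h1 : q.2 - e ≤ ((w1.sum : ℝ) + i) / L := by
          rw [le_div_iff₀ hL0]
          have h2 := (abs_le.1 hsum).1
          have h3 : (0 : ℝ) ≤ i := Nat.cast_nonneg i
          nlinarith
        have h2 : q.2 - e ≤ min (max (((w1.sum : ℝ) + i) / L) 0) q.2 :=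
          le_min (h1.trans (le_max_left _ _)) (by linarith)
        have h3 : min (max (((w1.sum : ℝ) + i) / L) 0) q.2 ≤ q.2 := min_le_right _ _
        rw [abs_le]
        constructor <;> linarith
      have hst := aux_step (S1 := (w1.sum : ℝ)) (n1 := (w1.length : ℝ)) (c := q.2) (r := q.1)
        (L := L) (e := e) (l2 := log 2) (l3 := log 3) (j := (w1.sum : ℝ) + i)
        (R := rise l (i / L)) (R' := rise l (((w1.sum : ℝ) + i) / L - q.2))
        (v := log 2 - q.1 * log 3) (m := min (max (((w1.sum : ℝ) + i) / L) 0) q.2) rfl hv0 hv1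
        hl2' hl2 hl3' hl3 hL0 he hlen hsum (by
          have e3 : ((w1.sum : ℝ) + i - w1.sum) = i := by ring
          rw [e3]
          exact hlip) hclamp
      have e4 : rise (q :: l) (((w1.sum : ℝ) + i) / L) =
          (log 2 - q.1 * log 3) * min (max (((w1.sum : ℝ) + i) / L) 0) q.2 +
            rise l (((w1.sum : ℝ) + i) / L - q.2) := rfl
      rw [e4, List.length_cons, Nat.cast_add, Nat.cast_one]
      obtain ⟨X, hX⟩ : ∃ X : ℝ, X = log ((T3^[w2.sum - i] b.toNat : ℕ) : ℝ) := ⟨_, rfl⟩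
      rw [← hX] at hIH ⊢
      obtain ⟨R', hR'⟩ : ∃ R' : ℝ, R' = rise l (((w1.sum : ℝ) + i) / L - q.2) := ⟨_, rfl⟩
      obtain ⟨R, hR⟩ : ∃ R : ℝ, R = rise l ((i : ℝ) / L) := ⟨_, rfl⟩
      obtain ⟨mm, hmm⟩ : ∃ mm : ℝ, mm = min (max (((w1.sum : ℝ) + i) / L) 0) q.2 := ⟨_, rfl⟩
      rw [← hR', ← hR, ← hmm] at hst
      rw [← hR] at hIH
      rw [← hR', ← hmm]
      have e5 : X - (u.sum * log 2 - u.length * log 3 +
          L * ((log 2 - q.1 * log 3) * mm + R')) =
          (X - (((u.sum : ℝ) + w1.sum) * log 2 - ((u.length : ℝ) + w1.length) * log 3 + L * R)) +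
          ((w1.sum * log 2 - w1.length * log 3 + L * R) -
            (L * ((log 2 - q.1 * log 3) * mm) + L * R')) := by ring
      rw [e5]
      refine (abs_add_le _ _).trans ((add_le_add hIH hst).trans (le_of_eq ?_))
      ring

/-- from the cut word to the whole orbit -/
theorem close_of {A : ℕ} (hA : 1 ≤ A)
    (hdef : ∀ (w : List ℕ), (∀ i ∈ w, 1 ≤ i) → ∀ b : ℤ, Up (A : ℤ) w b →
      |log (b : ℝ) - (log A + w.sum * log 2 - w.length * log 3)| ≤ log (w.length + 1) + 1)
    (l : List (ℝ × ℝ)) (hl : Adm l) {δ e L : ℝ} (hδ0 : 0 ≤ δ)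
    (hδ : ∀ q ∈ l, q.2 ≤ δ) (he : 0 < e) (hL : 1 ≤ L) {w : List ℕ} {b : ℤ}
    (hc : Cut L e l A w) (hb : Up (A : ℤ) w b) :
    (∀ i ∈ w, 1 ≤ i) ∧ 0 < b ∧ T3^[w.sum] b.toNat = A ∧
    |(w.sum : ℝ) - (l.map Prod.snd).sum * L| ≤ l.length * e * L ∧
    ∀ j : ℕ, j ≤ w.sum → |log (T3^[w.sum - j] b.toNat : ℕ) - L * rise l (j / L)| ≤
      (2 * δ + (6 * l.length + 2) * e) * L + log A + log (w.length + 1) + 1 := by
  have hAZ : (0 : ℤ) < (A : ℤ) := by exact_mod_cast hA
  have hw := hc.pos
  refine ⟨hw, hb.pos hAZ hw, by simpa using hb.iter hAZ hw, hc.sum, fun j hj => ?_⟩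
  have h := close_aux hA hdef hδ0 he hL w.length l hl hδ [] A (by simp) rfl w b hc hb (by simp)
    j hj
  simpa using h

end Pool.Agent.Collatz3.PF
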