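import Mathlib
import Pool.Agent.Collatz3.Defs
import Pool.Agent.Collatz3.Words
import Pool.Agent.Collatz3.GCount
import Pool.Agent.Collatz3.PFClose

set_option autoImplicit false

/-!
Steering in the inverse 3x+1 tree: from every integer prime to 3 every residue class modulo `q`
is reached by a bounded number of inverse steps.
-/

namespace Pool.Agent.Collatz3.PF

/-- all 3-adic targets with the residue class `γ` modulo `p` are reached from `x` -/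
def Lead (p ℓ : ℕ) (γ : ZMod p) (x : ℤ) : Prop :=
  ∀ (N : ℕ) (z : ℤ), ∃ (w : List ℕ) (b : ℤ), w.length = ℓ ∧ (∀ i ∈ w, 1 ≤ i) ∧ Up x w b ∧
    (3 : ℤ) ^ N ∣ b - z ∧ (b : ZMod p) = γ

theorem Lead.step {p ℓ : ℕ} {γ γ' : ZMod p} {x : ℤ} (h : Lead p ℓ γ x) (h3 : IsUnit (3 : ZMod p))
    {i : ℕ} (hi : 1 ≤ i) (hγ : 3 * γ' + 1 = 2 ^ i * γ) : Lead p (ℓ + 1) γ' x := by
  intro N z
  have hcop : IsCoprime ((2 : ℤ) ^ i) ((3 : ℤ) ^ (N + 1)) := by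
    apply IsCoprime.pow
    exact ⟨-1, 1, by norm_num⟩
  obtain ⟨u, v, huv⟩ := hcop
  obtain ⟨w, b, hl, hw, hup, hb, hbγ⟩ := h (N + 1) (u * (3 * z + 1))
  obtain ⟨c, hc⟩ := hb
  have h1 : 2 ^ i * b = 3 * (z + 3 ^ N * (2 ^ i * c - (3 * z + 1) * v)) + 1 := by
    have e1 : b = u * (3 * z + 1) + 3 ^ (N + 1) * c := by linarith
    have e2 : u * 2 ^ i = 1 - v * 3 ^ (N + 1) := by linarith
    rw [e1]
    have e3 : (2 : ℤ) ^ i * (u * (3 * z + 1) + 3 ^ (N + 1) * c) =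
        (u * 2 ^ i) * (3 * z + 1) + 2 ^ i * (3 ^ (N + 1) * c) := by ring
    rw [e3, e2, pow_succ]
    ring
  refine ⟨w ++ [i], z + 3 ^ N * (2 ^ i * c - (3 * z + 1) * v), ?_, ?_, ?_, ?_, ?_⟩
  · simp [hl]
  · intro k hk
    rcases List.mem_append.1 hk with hk | hk
    · exact hw k hk
    · rw [List.mem_singleton] at hk
      omega
  · exact Up.append_iff.2 ⟨b, hup, _, h1, rfl⟩
  · exact ⟨2 ^ i * c - (3 * z + 1) * v, by ring⟩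
  · have h2 := congrArg (Int.cast : ℤ → ZMod p) h1
    obtain ⟨b', hb'⟩ : ∃ b', b' = z + 3 ^ N * (2 ^ i * c - (3 * z + 1) * v) := ⟨_, rfl⟩
    rw [← hb'] at h2 ⊢
    push_cast at h2
    rw [hbγ, ← hγ] at h2
    have h4 : (3 : ZMod p) * γ' = 3 * b' := by linear_combination h2
    exact (h3.mul_left_cancel h4).symm

/-- the letter `i` on the residue classes -/
def fp {p : ℕ} (u2 u3 : (ZMod p)ˣ) (i : ℕ) : Equiv.Perm (ZMod p) where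
  toFun γ := ((u2 : ZMod p) ^ i * γ - 1) * ((u3⁻¹ : (ZMod p)ˣ) : ZMod p)
  invFun y := ((u3 : ZMod p) * y + 1) * ((u2⁻¹ : (ZMod p)ˣ) : ZMod p) ^ i
  left_inv γ := by
    have h3 : (u3 : ZMod p) * ((u3⁻¹ : (ZMod p)ˣ) : ZMod p) = 1 := u3.mul_inv
    have h2 : (u2 : ZMod p) ^ i * ((u2⁻¹ : (ZMod p)ˣ) : ZMod p) ^ i = 1 := by
      rw [← mul_pow, u2.mul_inv, one_pow]
    simp only
    linear_combination (((u2 : ZMod p) ^ i * γ - 1) * ((u2⁻¹ : (ZMod p)ˣ) : ZMod p) ^ i) * h3 +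
      γ * h2
  right_inv y := by
    have h3 : (u3 : ZMod p) * ((u3⁻¹ : (ZMod p)ˣ) : ZMod p) = 1 := u3.mul_inv
    have h2 : (u2 : ZMod p) ^ i * ((u2⁻¹ : (ZMod p)ˣ) : ZMod p) ^ i = 1 := by
      rw [← mul_pow, u2.mul_inv, one_pow]
    simp only
    linear_combination (((u3 : ZMod p) * y + 1) * ((u3⁻¹ : (ZMod p)ˣ) : ZMod p)) * h2 + y * h3

theorem Lead.perm {p ℓ : ℕ} {γ : ZMod p} {x : ℤ} (h : Lead p ℓ γ x) (u2 u3 : (ZMod p)ˣ)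
    (h2 : (u2 : ZMod p) = 2) (h3 : (u3 : ZMod p) = 3) {i : ℕ} (hi : 1 ≤ i) :
    Lead p (ℓ + 1) (fp u2 u3 i γ) x := by
  refine h.step (h3 ▸ u3.isUnit) hi ?_
  have e3 : (u3 : ZMod p) * ((u3⁻¹ : (ZMod p)ˣ) : ZMod p) = 1 := u3.mul_inv
  show 3 * (((u2 : ZMod p) ^ i * γ - 1) * ((u3⁻¹ : (ZMod p)ˣ) : ZMod p)) + 1 = 2 ^ i * γ
  rw [← h3, ← h2]
  linear_combination ((u2 : ZMod p) ^ i * γ - 1) * e3

theorem Lead.iter {p ℓ : ℕ} {γ : ZMod p} {x : ℤ} (h : Lead p ℓ γ x) (u2 u3 : (ZMod p)ˣ)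
    (h2 : (u2 : ZMod p) = 2) (h3 : (u3 : ZMod p) = 3) {i : ℕ} (hi : 1 ≤ i) (n : ℕ) :
    Lead p (ℓ + n) ((fp u2 u3 i ^ n) γ) x := by
  induction n with
  | zero => simpa using h
  | succ n ih =>
    have h1 := ih.perm u2 u3 h2 h3 hi
    rw [pow_succ']
    exact h1

theorem perm_pow_card {p : ℕ} [NeZero p] (g : Equiv.Perm (ZMod p)) :
    g ^ (Fintype.card (Equiv.Perm (ZMod p)) - 1) = g⁻¹ := by
  have h1 : 0 < Fintype.card (Equiv.Perm (ZMod p)) := Fintype.card_pos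
  apply eq_inv_of_mul_eq_one_left
  rw [← pow_succ, Nat.sub_add_cancel h1]
  exact pow_card_eq_one

theorem Lead.trans {p ℓ : ℕ} [NeZero p] {γ : ZMod p} {x : ℤ} (h : Lead p ℓ γ x)
    (u2 u3 : (ZMod p)ˣ) (h2 : (u2 : ZMod p) = 2) (h3 : (u3 : ZMod p) = 3) :
    Lead p (ℓ + 2 * Fintype.card (Equiv.Perm (ZMod p))) (γ + ((u3⁻¹ : (ZMod p)ˣ) : ZMod p)) x := by
  have hc : 0 < Fintype.card (Equiv.Perm (ZMod p)) := Fintype.card_pos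
  have g1 := h.perm u2 u3 h2 h3 (i := 1) le_rfl
  have g2 := g1.iter u2 u3 h2 h3 (i := 2) (by norm_num) (Fintype.card (Equiv.Perm (ZMod p)) - 1)
  have g3 := g2.iter u2 u3 h2 h3 (i := 1) le_rfl (Fintype.card (Equiv.Perm (ZMod p)) - 1)
  have g4 := g3.perm u2 u3 h2 h3 (i := 2) (by norm_num)
  rw [perm_pow_card, perm_pow_card] at g4
  have e1 : ℓ + 1 + (Fintype.card (Equiv.Perm (ZMod p)) - 1) +
      (Fintype.card (Equiv.Perm (ZMod p)) - 1) + 1 =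
      ℓ + 2 * Fintype.card (Equiv.Perm (ZMod p)) := by omega
  rw [e1] at g4
  have e2 : fp u2 u3 2 ((fp u2 u3 1)⁻¹ ((fp u2 u3 2)⁻¹ (fp u2 u3 1 γ))) =
      γ + ((u3⁻¹ : (ZMod p)ˣ) : ZMod p) := by
    have k3 : (u3 : ZMod p) * ((u3⁻¹ : (ZMod p)ˣ) : ZMod p) = 1 := u3.mul_inv
    have k2 : (u2 : ZMod p) * ((u2⁻¹ : (ZMod p)ˣ) : ZMod p) = 1 := u2.mul_inv
    have q1 : (fp u2 u3 2)⁻¹ (fp u2 u3 1 γ) = γ * ((u2⁻¹ : (ZMod p)ˣ) : ZMod p) := by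
      show ((u3 : ZMod p) * (((u2 : ZMod p) ^ 1 * γ - 1) * ((u3⁻¹ : (ZMod p)ˣ) : ZMod p)) + 1) *
        ((u2⁻¹ : (ZMod p)ˣ) : ZMod p) ^ 2 = _
      linear_combination (((u2 : ZMod p) * γ - 1) * ((u2⁻¹ : (ZMod p)ˣ) : ZMod p) ^ 2) * k3 +
        (γ * ((u2⁻¹ : (ZMod p)ˣ) : ZMod p)) * k2
    rw [q1]
    show ((u2 : ZMod p) ^ 2 * (((u3 : ZMod p) * (γ * ((u2⁻¹ : (ZMod p)ˣ) : ZMod p)) + 1) *
      ((u2⁻¹ : (ZMod p)ˣ) : ZMod p) ^ 1) - 1) * ((u3⁻¹ : (ZMod p)ˣ) : ZMod p) = _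
    have k2' : (u2 : ZMod p) ^ 2 * ((u2⁻¹ : (ZMod p)ˣ) : ZMod p) ^ 2 = 1 := by
      rw [← mul_pow, k2, one_pow]
    have t2 : (2 : ZMod p) - 1 = 1 := by norm_num
    rw [← h2] at t2
    linear_combination (γ * (u3 : ZMod p) * ((u3⁻¹ : (ZMod p)ˣ) : ZMod p)) * k2' + γ * k3 +
      ((u2 : ZMod p) * ((u3⁻¹ : (ZMod p)ˣ) : ZMod p)) * k2 +
      ((u3⁻¹ : (ZMod p)ˣ) : ZMod p) * t2
  rw [e2] at g4
  exact g4

theorem Lead.all {p ℓ : ℕ} [NeZero p] {γ : ZMod p} {x : ℤ} (h : Lead p ℓ γ x)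
    (u2 u3 : (ZMod p)ˣ) (h2 : (u2 : ZMod p) = 2) (h3 : (u3 : ZMod p) = 3) (c : ZMod p) :
    Lead p (ℓ + 2 * Fintype.card (Equiv.Perm (ZMod p)) * p) c x := by
  have k3 : (u3 : ZMod p) * ((u3⁻¹ : (ZMod p)ˣ) : ZMod p) = 1 := u3.mul_inv
  have hit : ∀ j : ℕ, Lead p (ℓ + 2 * Fintype.card (Equiv.Perm (ZMod p)) * j)
      (γ + j * ((u3⁻¹ : (ZMod p)ˣ) : ZMod p)) x := by
    intro j
    induction j with
    | zero => simpa using h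
    | succ j ih =>
      have g := ih.trans u2 u3 h2 h3
      have e1 : ℓ + 2 * Fintype.card (Equiv.Perm (ZMod p)) * j +
          2 * Fintype.card (Equiv.Perm (ZMod p)) =
          ℓ + 2 * Fintype.card (Equiv.Perm (ZMod p)) * (j + 1) := by ring
      rw [e1] at g
      have e2 : γ + j * ((u3⁻¹ : (ZMod p)ˣ) : ZMod p) + ((u3⁻¹ : (ZMod p)ˣ) : ZMod p) =
          γ + ((j + 1 : ℕ) : ZMod p) * ((u3⁻¹ : (ZMod p)ˣ) : ZMod p) := by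
        push_cast
        ring
      rw [e2] at g
      exact g
  have hj : ((3 * (c - γ) : ZMod p).val : ZMod p) = 3 * (c - γ) := ZMod.natCast_zmod_val _
  have hjp : (3 * (c - γ) : ZMod p).val < p := ZMod.val_lt _
  obtain ⟨j, hjd⟩ : ∃ j, j = (3 * (c - γ) : ZMod p).val := ⟨_, rfl⟩
  rw [← hjd] at hj hjp
  have g1 := hit j
  have e1 : γ + (j : ZMod p) * ((u3⁻¹ : (ZMod p)ˣ) : ZMod p) = c := by
    rw [hj, ← h3]
    linear_combination (c - γ) * k3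
  rw [e1] at g1
  have g2 := g1.iter u2 u3 h2 h3 (i := 1) le_rfl
    (Fintype.card (Equiv.Perm (ZMod p)) * (2 * (p - j)))
  rw [pow_mul, pow_card_eq_one, one_pow] at g2
  have e2 : ℓ + 2 * Fintype.card (Equiv.Perm (ZMod p)) * j +
      Fintype.card (Equiv.Perm (ZMod p)) * (2 * (p - j)) =
      ℓ + 2 * Fintype.card (Equiv.Perm (ZMod p)) * p := by
    obtain ⟨k, rfl⟩ : ∃ k, p = j + k := ⟨p - j, by omega⟩
    rw [Nat.add_sub_cancel_left]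
    ring
  rw [e2] at g2
  exact g2

end Pool.Agent.Collatz3.PF
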