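import Mathlib
import Pool.Agent.Collatz3.PFSteer

set_option autoImplicit false

/-!
Steering in the inverse 3x+1 tree: first step and final statement.
-/

namespace Pool.Agent.Collatz3.PF

/-- the powers of `g = 1 + 3 ^ v u` -/
theorem pow_three_unit {g u : ℤ} {m : ℕ} (hm : 1 ≤ m) (hg : g = 1 + 3 ^ m * u)
    (hu : ¬ (3 : ℤ) ∣ u) (N : ℕ) : ∃ u' : ℤ, ¬ (3 : ℤ) ∣ u' ∧ g ^ (3 ^ N) = 1 + 3 ^ (m + N) * u' := by
  induction N with
  | zero => exact ⟨u, hu, by simpa using hg⟩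
  | succ N ih =>
    obtain ⟨u', hu', h⟩ := ih
    obtain ⟨k, hk⟩ : ∃ k, m + N = k + 1 := ⟨m + N - 1, by omega⟩
    refine ⟨u' + 3 * (3 ^ k * u' ^ 2) + 3 * (3 ^ (2 * k) * u' ^ 3), ?_, ?_⟩
    · intro h3
      apply hu'
      have e : u' = (u' + 3 * (3 ^ k * u' ^ 2) + 3 * (3 ^ (2 * k) * u' ^ 3)) -
        3 * (3 ^ k * u' ^ 2 + 3 ^ (2 * k) * u' ^ 3) := by ring
      rw [e]
      exact dvd_sub h3 (Dvd.intro _ rfl)
    · rw [pow_succ 3 N, pow_mul, h, ← add_assoc m N 1, hk]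
      ring

/-- the powers of `g` fill `1 + 3 ^ v ℤ₃` -/
theorem cover {g u : ℤ} {m : ℕ} (hm : 1 ≤ m) (hg : g = 1 + 3 ^ m * u) (hu : ¬ (3 : ℤ) ∣ u)
    (s : ℤ) (N : ℕ) : ∃ j : ℕ, (3 : ℤ) ^ (m + N) ∣ g ^ j - 1 - 3 ^ m * s := by
  induction N with
  | zero => exact ⟨0, ⟨-s, by rw [add_zero, pow_zero]; ring⟩⟩
  | succ N ih =>
    obtain ⟨j, c, hc⟩ := ih
    obtain ⟨u', hu', h⟩ := pow_three_unit hm hg hu N
    have hg3 : (3 : ℤ) ∣ g ^ j - 1 := by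
      have h1 : (3 : ℤ) ∣ g - 1 := by
        rw [hg]
        exact ⟨3 ^ (m - 1) * u, by
          obtain ⟨k, rfl⟩ : ∃ k, m = k + 1 := ⟨m - 1, by omega⟩
          rw [Nat.add_sub_cancel, pow_succ]
          ring⟩
      exact h1.trans (sub_one_dvd_pow_sub_one g j)
    obtain ⟨d, hd⟩ := hg3
    -- the choice of `k`
    obtain ⟨k, hk⟩ : ∃ k : ℕ, (3 : ℤ) ∣ c + k * u' := by
      have h6 : u' % 3 = 1 ∨ u' % 3 = 2 := by omega
      have h7 : c % 3 = 0 ∨ c % 3 = 1 ∨ c % 3 = 2 := by omega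
      rcases h6 with h6 | h6 <;> rcases h7 with h7 | h7 | h7
      · exact ⟨0, by push_cast; omega⟩
      · exact ⟨2, by push_cast; omega⟩
      · exact ⟨1, by push_cast; omega⟩
      · exact ⟨0, by push_cast; omega⟩
      · exact ⟨1, by push_cast; omega⟩
      · exact ⟨2, by push_cast; omega⟩
    obtain ⟨f, hf⟩ := hk
    -- `(1 + 3 ^ (m + N) u') ^ k`
    have hpow : ∀ k : ℕ, (3 : ℤ) ^ (m + N + 1) ∣
        (1 + 3 ^ (m + N) * u') ^ k - 1 - 3 ^ (m + N) * (k * u') := by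
      intro k
      induction k with
      | zero => exact ⟨0, by push_cast; ring⟩
      | succ k ih =>
        obtain ⟨t, ht⟩ := ih
        have e : (1 + (3 : ℤ) ^ (m + N) * u') ^ k =
            1 + 3 ^ (m + N) * (k * u') + 3 ^ (m + N + 1) * t := by linarith
        obtain ⟨k', hk'⟩ : ∃ k', m + N = k' + 1 := ⟨m + N - 1, by omega⟩
        refine ⟨t * (1 + 3 ^ (m + N) * u') + 3 ^ k' * (k * u' * u'), ?_⟩
        rw [pow_succ (1 + (3 : ℤ) ^ (m + N) * u') k, e, hk']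
        push_cast
        ring
    obtain ⟨t, ht⟩ := hpow k
    refine ⟨j + 3 ^ N * k, ?_⟩
    have e1 : g ^ (j + 3 ^ N * k) = g ^ j * (1 + 3 ^ (m + N) * u') ^ k := by
      rw [pow_add, pow_mul, h]
    have e2 : (1 + (3 : ℤ) ^ (m + N) * u') ^ k =
        1 + 3 ^ (m + N) * (k * u') + 3 ^ (m + N + 1) * t := by linarith
    have e3 : g ^ j = 1 + 3 * d := by linarith
    have e4 : 1 + 3 * d - 1 - 3 ^ m * s = 3 ^ (m + N) * c := by rw [← e3]; exact hc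
    refine ⟨f + d * (k * u') + (1 + 3 * d) * t, ?_⟩
    rw [e1, e2, e3, ← add_assoc m N 1, pow_succ (3 : ℤ) (m + N)]
    linear_combination e4 + (3 : ℤ) ^ (m + N) * hf

/-- the first step -/
theorem lead_start {p : ℕ} (hp3 : p.Coprime 3) {E v : ℕ} {u : ℤ} (hv : 1 ≤ v)
    (hE : (2 : ℤ) ^ E = 1 + 3 ^ v * u) (hu : ¬ (3 : ℤ) ∣ u) (hEp : (p : ℤ) ∣ 2 ^ E - 1) {x : ℤ}
    (hx : ¬ (3 : ℤ) ∣ x) : ∃ γ : ZMod p, Lead p v γ x := by
  obtain ⟨i, hi1, -, x1, hx1, hx13, -⟩ := step_exists x hx 4 (Or.inl rfl)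
  obtain ⟨w, hw1, hw2, -, b, hb, -⟩ := fallback (v - 1) x1 hx13
  refine ⟨(b : ZMod p), fun N z => ?_⟩
  -- the target for `t`
  have hcop : IsCoprime ((2 : ℤ) ^ w.sum * (2 ^ i * x)) ((3 : ℤ) ^ N) := by
    apply IsCoprime.pow_right
    have h2 : IsCoprime (2 : ℤ) 3 := ⟨-1, 1, by norm_num⟩
    have h3 : IsCoprime x 3 := by
      have : IsCoprime (3 : ℤ) x := (Int.prime_three.coprime_iff_not_dvd).2 hx
      exact this.symm
    exact (h2.pow_left).mul_left ((h2.pow_left).mul_left h3)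
  obtain ⟨α, β, hαβ⟩ := hcop
  obtain ⟨j, c, hc⟩ := cover hv hE hu (α * (z - b)) N
  -- `2 ^ (E j) = 1 + 3 ^ v (s + 3 ^ N c)`
  obtain ⟨s, hs⟩ : ∃ s, s = α * (z - b) + 3 ^ N * c := ⟨_, rfl⟩
  have h1 : (2 : ℤ) ^ (E * j) = 1 + 3 ^ v * s := by
    rw [hs, pow_mul]
    rw [pow_add] at hc
    linear_combination hc
  obtain ⟨v', rfl⟩ : ∃ v', v = v' + 1 := ⟨v - 1, by omega⟩
  rw [Nat.add_sub_cancel] at hw1
  -- the new first letter
  have h2 : 2 ^ (i + E * j) * x = 3 * (x1 + 3 ^ v' * (2 ^ i * x * s)) + 1 := by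
    rw [pow_add, h1, pow_succ]
    linear_combination (1 + 3 ^ v' * 3 * s) * hx1 - (3 ^ v' * 3 * s) * hx1
  have h3 : Up (x1 + 3 ^ v' * (2 ^ i * x * s)) w (b + 2 ^ w.sum * (2 ^ i * x * s)) :=
    hb.shift (by rw [hw1])
  refine ⟨(i + E * j) :: w, b + 2 ^ w.sum * (2 ^ i * x * s), ?_, ?_, ⟨_, h2, h3⟩, ?_, ?_⟩
  · rw [List.length_cons, hw1]
  · intro k hk
    rcases List.mem_cons.1 hk with rfl | hk
    · omega
    · exact hw2 k hk
  · refine ⟨2 ^ w.sum * (2 ^ i * x) * c - β * (z - b), ?_⟩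
    rw [hs]
    linear_combination (z - b) * hαβ
  · -- modulo `p`
    have h4 : (p : ℤ) ∣ 3 ^ (v' + 1) * s := by
      have : (p : ℤ) ∣ 2 ^ (E * j) - 1 := by
        rw [pow_mul]
        exact hEp.trans (sub_one_dvd_pow_sub_one _ j)
      rw [h1] at this
      simpa using this
    have h5 : IsCoprime (p : ℤ) (3 ^ (v' + 1)) := by
      apply IsCoprime.pow_right
      have := Nat.isCoprime_iff_coprime.2 hp3
      exact_mod_cast this
    have h6 : (p : ℤ) ∣ s := h5.dvd_of_dvd_mul_left h4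
    have h7 : ((s : ℤ) : ZMod p) = 0 := (ZMod.intCast_zmod_eq_zero_iff_dvd s p).2 h6
    push_cast
    rw [h7]
    ring

end Pool.Agent.Collatz3.PF
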