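import Mathlib
import Pool.Agent.Collatz3.PFSteerB
import Pool.Agent.Collatz3.PFClose

set_option autoImplicit false

/-!
Steering in the inverse 3x+1 tree: every residue class modulo `q` is reached from every integer
prime to 3 by a bounded number of inverse steps.
-/

namespace Pool.Agent.Collatz3.PF

theorem odd_steer (B p : ℕ) (hp0 : p ≠ 0) (hp2 : p.Coprime 2) (hp3 : p.Coprime 3) (d : ℤ) :
    ∃ C : ℕ, ∀ x : ℤ, 0 < x → ¬ (3 : ℤ) ∣ x → ∃ (w : List ℕ) (b : ℤ), (∀ i ∈ w, 1 ≤ i) ∧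
      Up x w b ∧ 0 < b ∧ w.sum ≤ C ∧ (3 : ℤ) ^ B * p ∣ b - d := by
  classical
  have : NeZero p := ⟨hp0⟩
  -- the exponent
  obtain ⟨E, hE⟩ : ∃ E, E = 2 * Nat.totient p := ⟨_, rfl⟩
  have htot : 0 < Nat.totient p := Nat.totient_pos.2 (Nat.pos_of_ne_zero hp0)
  have hEp : (p : ℤ) ∣ 2 ^ E - 1 := by
    have h1 : 2 ^ Nat.totient p ≡ 1 [MOD p] := Nat.ModEq.pow_totient hp2.symm
    have h2 : ((2 : ℕ) : ℤ) ^ Nat.totient p ≡ 1 [ZMOD p] := by
      have := (Int.natCast_modEq_iff).2 h1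
      exact_mod_cast this
    have h3 : (p : ℤ) ∣ 2 ^ Nat.totient p - 1 := by
      have := (Int.modEq_iff_dvd.1 h2.symm)
      exact_mod_cast this
    rw [hE, mul_comm, pow_mul]
    exact h3.trans (sub_one_dvd_pow_sub_one _ 2)
  have hE3 : (3 : ℤ) ∣ 2 ^ E - 1 := by
    rw [hE, pow_mul]
    exact (show (3 : ℤ) ∣ 2 ^ 2 - 1 by norm_num).trans (sub_one_dvd_pow_sub_one _ _)
  have hE1 : (1 : ℤ) < 2 ^ E := by
    apply one_lt_pow₀ (by norm_num)
    omega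
  obtain ⟨v, u, hu, hvu⟩ := Nat.exists_eq_pow_mul_and_not_dvd
    (n := ((2 : ℤ) ^ E - 1).toNat) (by omega) 3 (by norm_num)
  have hvu' : (2 : ℤ) ^ E = 1 + 3 ^ v * (u : ℤ) := by
    have h1 : (((2 : ℤ) ^ E - 1).toNat : ℤ) = 2 ^ E - 1 := Int.toNat_of_nonneg (by omega)
    rw [hvu] at h1
    push_cast at h1
    linarith
  have hu' : ¬ (3 : ℤ) ∣ (u : ℤ) := by
    intro h
    exact hu (by exact_mod_cast h)
  have hv : 1 ≤ v := by
    by_contra h0
    have : v = 0 := by omega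
    subst this
    apply hu'
    rw [hvu'] at hE3
    simpa using hE3
  -- units
  have hc2 : IsUnit ((2 : ℕ) : ZMod p) := (ZMod.isUnit_iff_coprime 2 p).2 hp2.symm
  have hc3 : IsUnit ((3 : ℕ) : ZMod p) := (ZMod.isUnit_iff_coprime 3 p).2 hp3.symm
  obtain ⟨u2, hu2⟩ := hc2
  obtain ⟨u3, hu3⟩ := hc3
  obtain ⟨ℓ, hℓ⟩ : ∃ ℓ, ℓ = v + 2 * Fintype.card (Equiv.Perm (ZMod p)) * p := ⟨_, rfl⟩
  have key : ∀ x : ℤ, ¬ (3 : ℤ) ∣ x → ∃ (w : List ℕ) (b : ℤ), w.length = ℓ ∧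
      (∀ i ∈ w, 1 ≤ i) ∧ Up x w b ∧ (3 : ℤ) ^ B * p ∣ b - d := by
    intro x hx
    obtain ⟨γ, hγ⟩ := lead_start hp3 hv hvu' hu' hEp hx
    have h1 := hγ.all u2 u3 (by rw [hu2]; norm_num) (by rw [hu3]; norm_num) (d : ZMod p)
    obtain ⟨w, b, hl, hw, hup, hb, hbp⟩ := h1 B d
    refine ⟨w, b, by rw [hl, hℓ], hw, hup, ?_⟩
    apply IsCoprime.mul_dvd _ hb
    · have h2 : (((b - d : ℤ)) : ZMod p) = 0 := by
        push_cast
        rw [hbp, sub_self]
      exact (ZMod.intCast_zmod_eq_zero_iff_dvd _ p).1 h2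
    · apply IsCoprime.pow_left
      have := Nat.isCoprime_iff_coprime.2 hp3.symm
      exact_mod_cast this
  -- one word for each class
  have hch : ∀ x : ℤ, ∃ (w : List ℕ) (b : ℤ), ¬ (3 : ℤ) ∣ x → w.length = ℓ ∧
      (∀ i ∈ w, 1 ≤ i) ∧ Up x w b ∧ (3 : ℤ) ^ B * p ∣ b - d := by
    intro x
    by_cases hx : (3 : ℤ) ∣ x
    · exact ⟨[], 0, fun h => absurd hx h⟩
    · obtain ⟨w, b, h⟩ := key x hx
      exact ⟨w, b, fun _ => h⟩
  choose W bb hW using hch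
  obtain ⟨M, hM⟩ : ∃ M : ℕ, M = 3 ^ ℓ * (3 ^ B * p) := ⟨_, rfl⟩
  have hM0 : 0 < M := by
    rw [hM]
    have : 0 < p := Nat.pos_of_ne_zero hp0
    positivity
  refine ⟨∑ j ∈ Finset.range M, (W (j : ℤ)).sum, fun x hx0 hx => ?_⟩
  obtain ⟨ρ, hρ⟩ : ∃ ρ : ℕ, (ρ : ℤ) = x % M :=
    ⟨(x % M).toNat, Int.toNat_of_nonneg (Int.emod_nonneg _ (by omega))⟩
  have hρM : ρ < M := by
    have := Int.emod_lt_of_pos x (show (0 : ℤ) < M by exact_mod_cast hM0)
    omega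
  have hxe : x = ρ + M * (x / M) := by
    rw [hρ]
    exact (Int.emod_add_mul_ediv x M).symm
  have hρ3 : ¬ (3 : ℤ) ∣ (ρ : ℤ) := by
    intro h
    apply hx
    rw [hxe]
    refine dvd_add h (Dvd.dvd.mul_right ?_ _)
    rw [hM]
    obtain ⟨k, hk⟩ : ∃ k, ℓ = k + 1 := ⟨ℓ - 1, by omega⟩
    rw [hk]
    exact ⟨3 ^ k * (3 ^ B * p), by push_cast; ring⟩
  obtain ⟨h1, h2, h3, h4⟩ := hW ρ hρ3
  have h5 : Up x (W ρ) (bb ρ + 2 ^ (W ρ).sum * (3 ^ B * p * (x / M))) := by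
    apply h3.shift
    rw [h1]
    conv_lhs => rw [hxe]
    rw [hM]
    push_cast
    ring
  refine ⟨W ρ, _, h2, h5, h5.pos hx0 h2, ?_, ?_⟩
  · exact Finset.single_le_sum (f := fun j : ℕ => (W (j : ℤ)).sum) (fun _ _ => Nat.zero_le _)
      (Finset.mem_range.2 hρM)
  · have e : bb ρ + 2 ^ (W ρ).sum * (3 ^ B * p * (x / M)) - d =
        (bb ρ - d) + 3 ^ B * p * (2 ^ (W ρ).sum * (x / M)) := by ring
    rw [e]
    exact dvd_add h4 (Dvd.intro _ rfl)

/-- the first `k` steps depend only on the residue class modulo `2 ^ k` -/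
theorem terras (k : ℕ) : ∀ r : ℕ, ∃ s : ℕ, ∀ t : ℕ,
    T3^[k] (r + 2 ^ k * t) = T3^[k] r + 3 ^ s * t := by
  induction k with
  | zero => exact fun r => ⟨0, fun t => by simp⟩
  | succ k ih =>
    intro r
    obtain ⟨s, hs⟩ := ih (T3 r)
    have hmod : ∀ t : ℕ, (r + 2 ^ (k + 1) * t) % 2 = r % 2 := by
      intro t
      rw [pow_succ]
      have : 2 ^ k * 2 * t = 2 * (2 ^ k * t) := by ring
      rw [this]
      omega
    by_cases hr : r % 2 = 0
    · refine ⟨s, fun t => ?_⟩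
      rw [Function.iterate_succ_apply, Function.iterate_succ_apply]
      have e : T3 (r + 2 ^ (k + 1) * t) = T3 r + 2 ^ k * t := by
        unfold T3
        rw [if_pos (by rw [hmod]; exact hr), if_pos hr, pow_succ]
        have : 2 ^ k * 2 * t = 2 * (2 ^ k * t) := by ring
        rw [this]
        omega
      rw [e, hs]
    · refine ⟨s + 1, fun t => ?_⟩
      rw [Function.iterate_succ_apply, Function.iterate_succ_apply]
      have e : T3 (r + 2 ^ (k + 1) * t) = T3 r + 2 ^ k * (3 * t) := by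
        unfold T3
        rw [if_neg (by rw [hmod]; exact hr), if_neg hr, pow_succ]
        have : 2 ^ k * 2 * t = 2 * (2 ^ k * t) := by ring
        have h3 : 2 ^ k * (3 * t) = 3 * (2 ^ k * t) := by ring
        rw [this, h3]
        omega
      rw [e, hs, pow_succ]
      ring

/-- Steering: every residue class modulo `q` is reached in a bounded number of inverse steps. -/
theorem steer (q : ℕ) (hq : 0 < q) (r : ℕ) : ∃ C : ℕ, ∀ m : ℕ, C ≤ m → ¬ 3 ∣ m →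
    ∃ n k : ℕ, 0 < n ∧ n % q = r % q ∧ T3^[k] n = m ∧ k ≤ C := by
  obtain ⟨α, q0, hq0, hqe⟩ := Nat.exists_eq_pow_mul_and_not_dvd hq.ne' 2 (by norm_num)
  have hq00 : q0 ≠ 0 := by
    rintro rfl
    simp at hqe
    omega
  obtain ⟨B, p, hp3, hq0e⟩ := Nat.exists_eq_pow_mul_and_not_dvd hq00 3 (by norm_num)
  have hp0 : p ≠ 0 := by
    rintro rfl
    simp at hq0e
    exact hq00 hq0e
  have hcop3 : p.Coprime 3 := ((Nat.Prime.coprime_iff_not_dvd Nat.prime_three).2 hp3).symm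
  have hcop2 : p.Coprime 2 := by
    apply Nat.Coprime.symm
    rw [Nat.Prime.coprime_iff_not_dvd Nat.prime_two]
    intro h
    apply hq0
    rw [hq0e]
    exact h.mul_left _
  obtain ⟨s, hs⟩ := terras α r
  obtain ⟨C₀, hC₀⟩ := odd_steer (s + B) p hp0 hcop2 hcop3 ((T3^[α] r : ℕ) : ℤ)
  refine ⟨C₀ + α + 2 ^ C₀ * (T3^[α] r + 1), fun m hm hm3 => ?_⟩
  have h2C : 0 < 2 ^ C₀ := by positivity
  have hm1 : 2 ^ C₀ * (T3^[α] r + 1) ≤ m := by omega
  have hm0 : 0 < m := lt_of_lt_of_le (by positivity) hm1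
  obtain ⟨w, b, hw, hup, hb0, hwC, c, hc⟩ := hC₀ m (by exact_mod_cast hm0) (by
    intro h
    exact hm3 (by exact_mod_cast h))
  have hit := hup.iter (by exact_mod_cast hm0) hw
  have hit' : T3^[w.sum] b.toNat = m := by simpa using hit
  obtain ⟨y, hy⟩ : ∃ y : ℕ, b = (y : ℤ) := ⟨b.toNat, (Int.toNat_of_nonneg hb0.le).symm⟩
  subst hy
  rw [Int.toNat_natCast] at hit'
  have hy0 : 1 ≤ y := by omega
  have h1 : m ≤ 2 ^ C₀ * y := by
    have h2 := iter_le w.sum y hy0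
    rw [hit'] at h2
    exact h2.trans (Nat.mul_le_mul_right _ (Nat.pow_le_pow_right (by norm_num) hwC))
  have h2 : T3^[α] r + 1 ≤ y := Nat.le_of_mul_le_mul_left (hm1.trans h1) h2C
  -- `c` is positive
  have hpp : (0 : ℤ) < 3 ^ (s + B) * p := by
    have : (0 : ℤ) < p := by
      have := Nat.pos_of_ne_zero hp0
      exact_mod_cast this
    positivity
  have hcpos : 0 < c := by
    by_contra hneg
    push Not at hneg
    have h3 : 3 ^ (s + B) * (p : ℤ) * c ≤ 0 := mul_nonpos_of_nonneg_of_nonpos hpp.le hneg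
    have h4 : ((T3^[α] r : ℕ) : ℤ) + 1 ≤ y := by exact_mod_cast h2
    linarith
  obtain ⟨c', rfl⟩ : ∃ c' : ℕ, c = (c' : ℤ) := ⟨c.toNat, (Int.toNat_of_nonneg hcpos.le).symm⟩
  have hc' : y = T3^[α] r + 3 ^ s * (3 ^ B * p * c') := by
    have : (y : ℤ) = ((T3^[α] r + 3 ^ s * (3 ^ B * p * c') : ℕ) : ℤ) := by
      push_cast
      rw [pow_add] at hc
      linear_combination hc
    exact_mod_cast this
  have hc0' : 0 < c' := by exact_mod_cast hcpos
  refine ⟨r + 2 ^ α * (3 ^ B * p * c'), w.sum + α, ?_, ?_, ?_, by omega⟩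
  · have : 0 < p := Nat.pos_of_ne_zero hp0
    positivity
  · have e : r + 2 ^ α * (3 ^ B * p * c') = r + q * c' := by
      rw [hqe, hq0e]
      ring
    rw [e, Nat.add_mul_mod_self_left]
  · rw [Function.iterate_add_apply, hs, ← hc', hit']

end Pool.Agent.Collatz3.PF
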