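import Mathlib
import Pool.Agent.Collatz3.PFDefs

set_option autoImplicit false

/-!
Refinement of a list of segments: the same profile with short segments.
-/

namespace Pool.Agent.Collatz3.PF

open Real

theorem min_add_min {τ c d : ℝ} (hc : 0 ≤ c) (hd : 0 ≤ d) :
    min (max τ 0) c + min (max (τ - c) 0) d = min (max τ 0) (c + d) := by
  rcases le_total τ 0 with h | h
  · rw [max_eq_right h, max_eq_right (by linarith), min_eq_left hc, min_eq_left hd,
      min_eq_left (by linarith), add_zero]
  · rw [max_eq_left h]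
    rcases le_total τ c with h1 | h1
    · rw [max_eq_right (by linarith), min_eq_left h1, min_eq_left hd, min_eq_left (by linarith),
        add_zero]
    · rw [max_eq_left (by linarith), min_eq_right h1]
      rcases le_total (τ - c) d with h2 | h2
      · rw [min_eq_left h2, min_eq_left (by linarith)]
        ring
      · rw [min_eq_right h2, min_eq_right (by linarith)]

theorem rise_replicate (ρ : ℝ) {c : ℝ} (hc : 0 ≤ c) (l : List (ℝ × ℝ)) :
    ∀ (N : ℕ) (τ : ℝ), rise (List.replicate N (ρ, c) ++ l) τ =
      (log 2 - ρ * log 3) * min (max τ 0) (N * c) + rise l (τ - N * c)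
  | 0, τ => by
    have h : min (max τ 0) (((0 : ℕ) : ℝ) * c) = 0 := by
      rw [Nat.cast_zero, zero_mul]
      exact min_eq_right (le_max_right _ _)
    rw [h]
    simp
  | N + 1, τ => by
    rw [List.replicate_succ, List.cons_append]
    show (log 2 - ρ * log 3) * min (max τ 0) c + rise (List.replicate N (ρ, c) ++ l) (τ - c) = _
    rw [rise_replicate ρ hc l N (τ - c), ← add_assoc, ← mul_add, min_add_min hc (by positivity)]
    have e1 : c + (N : ℝ) * c = ((N + 1 : ℕ) : ℝ) * c := by push_cast; ring
    have e2 : τ - c - (N : ℝ) * c = τ - ((N + 1 : ℕ) : ℝ) * c := by push_cast; ring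
    rw [e1, e2]

theorem gain_append (l l' : List (ℝ × ℝ)) : gain (l ++ l') = gain l + gain l' := by
  unfold gain
  rw [List.map_append, List.sum_append]

theorem gain_replicate (ρ c : ℝ) (N : ℕ) :
    gain (List.replicate N (ρ, c)) = N * ((binEntropy ρ - ρ * log 3) * c) := by
  unfold gain
  rw [List.map_replicate, List.sum_replicate, nsmul_eq_mul]

/-- The same profile with segments of duration at most `δ`. -/
theorem refine_list (l : List (ℝ × ℝ)) (hl : Adm l) {δ : ℝ} (hδ : 0 < δ) :
    ∃ l' : List (ℝ × ℝ), Adm l' ∧ (∀ q ∈ l', q.2 ≤ δ) ∧ gain l' = gain l ∧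
      (l'.map Prod.snd).sum = (l.map Prod.snd).sum ∧ ∀ τ, rise l' τ = rise l τ := by
  induction l with
  | nil =>
    exact ⟨[], hl, fun q hq => absurd hq (by simp), rfl, rfl, fun τ => rfl⟩
  | cons q l ih =>
    obtain ⟨l', h1, h2, h3, h4, h5⟩ := ih fun p hp => hl p (List.mem_cons_of_mem _ hp)
    obtain ⟨a1, a2, a3, a4⟩ := hl q List.mem_cons_self
    obtain ⟨N, hN⟩ := exists_nat_gt (q.2 / δ)
    have hN0 : (0 : ℝ) < N := lt_trans (div_pos a4 hδ) hN
    have hc : 0 < q.2 / N := div_pos a4 hN0
    have hcN : (N : ℝ) * (q.2 / N) = q.2 := by field_simp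
    refine ⟨List.replicate N (q.1, q.2 / N) ++ l', ?_, ?_, ?_, ?_, ?_⟩
    · intro p hp
      rcases List.mem_append.1 hp with hp | hp
      · rw [List.eq_of_mem_replicate hp]
        exact ⟨a1, a2, a3, hc⟩
      · exact h1 p hp
    · intro p hp
      rcases List.mem_append.1 hp with hp | hp
      · rw [List.eq_of_mem_replicate hp]
        show q.2 / N ≤ δ
        rw [div_le_iff₀ hN0]
        rw [div_lt_iff₀ hδ] at hN
        linarith
      · exact h2 p hp
    · rw [gain_append, h3, gain_replicate]
      show _ = (List.map _ (q :: l)).sum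
      rw [List.map_cons, List.sum_cons]
      show _ = (binEntropy q.1 - q.1 * log 3) * q.2 + gain l
      rw [← mul_assoc, mul_comm (N : ℝ) _, mul_assoc, hcN]
    · rw [List.map_append, List.sum_append, h4, List.map_replicate, List.sum_replicate,
        nsmul_eq_mul, List.map_cons, List.sum_cons]
      show (N : ℝ) * (q.2 / N) + _ = _
      rw [hcN]
    · intro τ
      rw [rise_replicate q.1 hc.le l' N τ, hcN, h5]
      rfl

end Pool.Agent.Collatz3.PF
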