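import Mathlib
import Pool.Agent.Collatz3.PFDefs
import Pool.Agent.Collatz3.PFRef
import Pool.Agent.PF.Seg
import Pool.Agent.PF.Chain
import Pool.Agent.Collatz3.PFClose

set_option autoImplicit false

/-!
The profile theorem for one target.
-/

namespace Pool.Agent.Collatz3.PF

open Real Filter

theorem cut_up {L e : ℝ} (l : List (ℝ × ℝ)) : ∀ {a : ℤ} {w : List ℕ}, Cut L e l a w →
    ∃ b, Up a w b := by
  induction l with
  | nil =>
    intro a w h
    have h' : w = [] := h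
    subst h'
    exact ⟨a, rfl⟩
  | cons q l ih =>
    intro a w h
    obtain ⟨w1, w2, b, rfl, _, _, _, h1, _, h2⟩ := h
    obtain ⟨c, hc⟩ := ih h2
    exact ⟨c, Up.append_iff.2 ⟨b, h1, hc⟩⟩

theorem slope {q : ℝ × ℝ} (h : 0 < q.1 ∧ q.1 < 1 ∧ q.1 * log 3 < binEntropy q.1 ∧ 0 < q.2) :
    0 < log 2 - q.1 * log 3 ∧ log 2 - q.1 * log 3 ≤ 1 := by
  have h1 := binEntropy_le_log_two (p := q.1)
  have h2 : log 2 < 0.6931471808 := Real.log_two_lt_d9
  have h3 : 0 < log 3 := log_pos (by norm_num)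
  have h4 := mul_pos h.1 h3
  constructor
  · linarith [h.2.2.1]
  · linarith

theorem rise_lip_one (l : List (ℝ × ℝ)) (hl : Adm l) : ∀ {τ τ' : ℝ}, τ ≤ τ' →
    0 ≤ rise l τ' - rise l τ ∧ rise l τ' - rise l τ ≤ max τ' 0 - max τ 0 := by
  induction l with
  | nil =>
    intro τ τ' h
    have h1 : max τ 0 ≤ max τ' 0 := max_le_max h le_rfl
    simp only [rise]
    constructor <;> linarith
  | cons q l ih =>
    intro τ τ' h
    have hq := hl q List.mem_cons_self
    have hl' : Adm l := fun p hp => hl p (List.mem_cons_of_mem _ hp)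
    obtain ⟨s1, s2⟩ := slope hq
    obtain ⟨i1, i2⟩ := ih hl' (τ := τ - q.2) (τ' := τ' - q.2) (by linarith)
    have e1 : ∀ t : ℝ, min (max t 0) q.2 + max (t - q.2) 0 = max t 0 := by
      intro t
      have hq2 := hq.2.2.2
      rcases le_total t 0 with h0 | h0
      · rw [max_eq_right h0, min_eq_left hq2.le, max_eq_right (by linarith)]
        ring
      · rw [max_eq_left h0]
        rcases le_total t q.2 with h2 | h2
        · rw [min_eq_left h2, max_eq_right (by linarith)]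
          ring
        · rw [min_eq_right h2, max_eq_left (by linarith)]
          ring
    have m1 : min (max τ 0) q.2 ≤ min (max τ' 0) q.2 :=
      min_le_min (max_le_max h le_rfl) le_rfl
    have a1 := e1 τ
    have a2 := e1 τ'
    have b1 := mul_le_mul_of_nonneg_left m1 s1.le
    have b2 := mul_le_mul_of_nonneg_right s2 (sub_nonneg.2 m1)
    simp only [rise]
    constructor
    · linarith
    · rw [mul_sub, one_mul] at b2
      linarith

theorem rise_nonpos (l : List (ℝ × ℝ)) (hl : Adm l) : ∀ {τ : ℝ}, τ ≤ 0 → rise l τ = 0 := by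
  induction l with
  | nil => intro τ _; rfl
  | cons q l ih =>
    intro τ h
    have hq := hl q List.mem_cons_self
    have hl' : Adm l := fun p hp => hl p (List.mem_cons_of_mem _ hp)
    have hq2 := hq.2.2.2
    simp only [rise]
    rw [ih hl' (by linarith), max_eq_right h, min_eq_left hq2.le]
    ring

theorem rise_le_sum (l : List (ℝ × ℝ)) (hl : Adm l) : ∀ τ : ℝ,
    rise l τ ≤ (l.map fun q => (log 2 - q.1 * log 3) * q.2).sum := by
  induction l with
  | nil => intro τ; simp [rise]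
  | cons q l ih =>
    intro τ
    have hq := hl q List.mem_cons_self
    have hl' : Adm l := fun p hp => hl p (List.mem_cons_of_mem _ hp)
    have h1 := ih hl' (τ - q.2)
    have h2 := mul_le_mul_of_nonneg_left (min_le_right (max τ 0) q.2) (slope hq).1.le
    simp only [rise, List.map_cons, List.sum_cons]
    linarith

theorem rise_bd (l : List (ℝ × ℝ)) (hl : Adm l) {τ : ℝ} (hτ : 0 ≤ τ) :
    0 ≤ rise l τ ∧ rise l τ ≤ τ := by
  obtain ⟨h1, h2⟩ := rise_lip_one l hl hτ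
  rw [rise_nonpos l hl le_rfl] at h1 h2
  rw [max_eq_left hτ, max_self] at h2
  constructor <;> linarith

theorem gain_nonneg (l : List (ℝ × ℝ)) (hl : Adm l) : 0 ≤ gain l := by
  unfold gain
  apply List.sum_nonneg
  intro x hx
  rw [List.mem_map] at hx
  obtain ⟨q, hq, rfl⟩ := hx
  have h := hl q hq
  exact mul_nonneg (by linarith [h.2.2.1]) h.2.2.2.le

theorem snd_nonneg (l : List (ℝ × ℝ)) (hl : Adm l) : 0 ≤ (l.map Prod.snd).sum := by
  apply List.sum_nonneg
  intro x hx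
  rw [List.mem_map] at hx
  obtain ⟨q, hq, rfl⟩ := hx
  exact (hl q hq).2.2.2.le

/-- comparison of the two scales `L = (1 - η) X` and `X` -/
theorem scale {l : List (ℝ × ℝ)} (hl : Adm l)
    (h1 : (l.map fun q => (log 2 - q.1 * log 3) * q.2).sum = 1) {X L η S j t : ℝ}
    (hL : L = (1 - η) * X) (hη : 0 ≤ η) (hL1 : 0 < L) (hX : 0 < X) (hj : 0 ≤ j)
    (hjS : j ≤ (S + 1) * L) (ht : 0 ≤ t) (htX : t ≤ η * X) :
    |L * rise l (j / L) - X * rise l ((j + t) / X)| ≤ η * (S + 3) * X := by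
  have hLX : L ≤ X := by
    rw [hL]
    have := mul_nonneg hη hX.le
    linarith
  obtain ⟨r1, -⟩ := rise_bd l hl (div_nonneg hj hL1.le)
  have r2 : rise l (j / L) ≤ 1 := by rw [← h1]; exact rise_le_sum l hl _
  have d0 : j / X ≤ j / L := div_le_div_of_nonneg_left hj hL1 hLX
  have hXL : X - L = η * X := by rw [hL]; ring
  have d1 : X * (j / L) - j = (j / L) * (η * X) := by
    calc X * (j / L) - j = X * (j / L) - j / L * L := by rw [div_mul_cancel₀ _ hL1.ne']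
      _ = (j / L) * (X - L) := by ring
      _ = _ := by rw [hXL]
  have d2 : (j / L) * (η * X) ≤ (S + 1) * (η * X) := by
    apply mul_le_mul_of_nonneg_right _ (mul_nonneg hη hX.le)
    rw [div_le_iff₀ hL1]
    exact hjS
  have d3 : 0 ≤ (j / L) * (η * X) := mul_nonneg (div_nonneg hj hL1.le) (mul_nonneg hη hX.le)
  have e3 : |X * rise l (j / L) - X * rise l ((j + t) / X)| ≤ (S + 1) * (η * X) + η * X := by
    rcases le_total (j / L) ((j + t) / X) with hc | hc
    · obtain ⟨q1, q2⟩ := rise_lip_one l hl hc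
      rw [max_eq_left (div_nonneg (by linarith) hX.le), max_eq_left (div_nonneg hj hL1.le)] at q2
      have q3 := mul_le_mul_of_nonneg_left q2 hX.le
      have q4 : X * ((j + t) / X - j / L) = t - (X * (j / L) - j) := by
        rw [mul_sub, mul_div_cancel₀ _ hX.ne']
        ring
      rw [q4] at q3
      have q5 := mul_nonneg hX.le q1
      rw [mul_sub] at q3 q5
      rw [abs_le]
      constructor <;> nlinarith
    · obtain ⟨q1, q2⟩ := rise_lip_one l hl hc
      rw [max_eq_left (div_nonneg (by linarith) hX.le), max_eq_left (div_nonneg hj hL1.le)] at q2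
      have q3 := mul_le_mul_of_nonneg_left q2 hX.le
      have q4 : X * (j / L - (j + t) / X) = (X * (j / L) - j) - t := by
        rw [mul_sub, mul_div_cancel₀ _ hX.ne']
        ring
      rw [q4] at q3
      have q5 := mul_nonneg hX.le q1
      rw [mul_sub] at q3 q5
      rw [abs_le]
      constructor <;> nlinarith
  have e4 : |L * rise l (j / L) - X * rise l (j / L)| ≤ η * X := by
    have : L * rise l (j / L) - X * rise l (j / L) = - (η * X * rise l (j / L)) := by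
      rw [hL]; ring
    rw [this, abs_neg, abs_of_nonneg (mul_nonneg (mul_nonneg hη hX.le) r1)]
    have := mul_le_mul_of_nonneg_left r2 (mul_nonneg hη hX.le)
    linarith
  calc |L * rise l (j / L) - X * rise l ((j + t) / X)|
      = |(L * rise l (j / L) - X * rise l (j / L)) +
          (X * rise l (j / L) - X * rise l ((j + t) / X))| := by ring_nf
    _ ≤ _ := abs_add_le _ _
    _ ≤ η * X + ((S + 1) * (η * X) + η * X) := add_le_add e4 e3
    _ = η * (S + 3) * X := by ring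

/-- the nodes of the words of a finite set of words of the same length -/
theorem image_card {a A : ℕ} (hA : Base a A) {n : ℕ} (P : Finset (List ℕ))
    (hP : ∀ w ∈ P, w.length = n ∧ (∀ i ∈ w, 1 ≤ i) ∧ ∃ b, Up (A : ℤ) w b) :
    ∃ F : Finset ℕ, F.card = P.card ∧ ∀ b ∈ F, ∃ w ∈ P, ∃ c : ℤ, Up (A : ℤ) w c ∧ b = c.toNat := by
  classical
  have hA0 : (0 : ℤ) < (A : ℤ) := by exact_mod_cast hA.pos
  let f : List ℕ → ℕ := fun w =>
    if h : ∃ b, Up (A : ℤ) w b then (Classical.choose h).toNat else 0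
  have hf : ∀ w ∈ P, ∃ b : ℤ, Up (A : ℤ) w b ∧ f w = b.toNat := by
    intro w hw
    obtain ⟨_, _, h4⟩ := hP w hw
    refine ⟨Classical.choose h4, Classical.choose_spec h4, ?_⟩
    simp only [f, dif_pos h4]
  have hinj : Set.InjOn f (P : Set (List ℕ)) := by
    intro w hw w' hw' hww
    obtain ⟨b, hb, hfb⟩ := hf w hw
    obtain ⟨b', hb', hfb'⟩ := hf w' hw'
    obtain ⟨p1, p2, _⟩ := hP w hw
    obtain ⟨q1, q2, _⟩ := hP w' hw'
    have hp := hb.pos hA0 p2
    have hp' := hb'.pos hA0 q2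
    rw [hfb, hfb'] at hww
    have hbb : b = b' := by omega
    have t1 := hb.iter hA0 p2
    have t2 := hb'.iter hA0 q2
    rw [hbb] at t1
    have hsum : w.sum = w'.sum :=
      hA.time_unique (b := b'.toNat) (by simpa using t1) (by simpa using t2)
    have hlen : w.length = w'.length := by rw [p1, q1]
    refine word_inj w w' p2 q2 hlen hsum ?_
    have e1 := hb.rel
    have e2 := hb'.rel
    rw [hsum, hlen, hbb] at e1
    have e3 : (cw w : ℤ) = cw w' := by linarith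
    exact_mod_cast e3
  refine ⟨P.image f, Finset.card_image_of_injOn hinj, ?_⟩
  intro b hb
  rw [Finset.mem_image] at hb
  obtain ⟨w, hw, rfl⟩ := hb
  obtain ⟨c, hc, hfc⟩ := hf w hw
  exact ⟨w, hw, c, hc, hfc⟩

/-- the logarithmic error terms are small -/
theorem small_terms (c S η : ℝ) (hS : 0 ≤ S) (hη : 0 < η) :
    ∀ᶠ X : ℝ in atTop, c + log ((S + 1) * X + 1) + 1 ≤ η * X := by
  have h1 : ∀ᶠ X : ℝ in atTop, ‖log X‖ ≤ η / 2 * ‖X‖ :=
    Real.isLittleO_log_id_atTop.bound (by positivity)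
  filter_upwards [h1, eventually_ge_atTop 1,
    eventually_ge_atTop ((c + log (S + 2) + 1) * 2 / η)] with X h2 h3 h4
  rw [Real.norm_eq_abs, Real.norm_eq_abs, abs_of_nonneg (Real.log_nonneg h3),
    abs_of_nonneg (by linarith)] at h2
  have h5 : log ((S + 1) * X + 1) ≤ log (S + 2) + log X := by
    rw [← Real.log_mul (by positivity) (by positivity)]
    apply Real.log_le_log (by positivity)
    nlinarith
  rw [div_le_iff₀ hη] at h4
  linarith

/-- `close_of` for a base -/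
theorem close_base {a A : ℕ} (hA : Base a A) (l : List (ℝ × ℝ)) (hl : Adm l) {δ e L : ℝ}
    (hδ0 : 0 ≤ δ) (hδ : ∀ q ∈ l, q.2 ≤ δ) (he : 0 < e) (hL : 1 ≤ L) {w : List ℕ} {b : ℤ}
    (hc : Cut L e l A w) (hb : Up (A : ℤ) w b) :
    (∀ i ∈ w, 1 ≤ i) ∧ 0 < b ∧ T3^[w.sum] b.toNat = A ∧
    |(w.sum : ℝ) - (l.map Prod.snd).sum * L| ≤ l.length * e * L ∧
    ∀ j : ℕ, j ≤ w.sum → |log (T3^[w.sum - j] b.toNat : ℕ) - L * rise l (j / L)| ≤
      (2 * δ + (6 * l.length + 2) * e) * L + log A + log (w.length + 1) + 1 :=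
  close_of hA.pos (fun _ hw _ hb => (defect hA hw hb).2) l hl hδ0 hδ he hL hc hb

/-- one word -/
theorem one_word {a A : ℕ} (hA : Base a A) {t₀ : ℕ} (ht₀ : T3^[t₀] A = a)
    (hmin : ∀ i < t₀, T3^[i] A ≠ a) {C₀ : ℝ} (hC₀ : ∀ i ≤ t₀, |log (T3^[i] A : ℕ)| ≤ C₀)
    {l l' : List (ℝ × ℝ)} (hl : Adm l) (hl' : Adm l')
    (h1 : (l.map fun q => (log 2 - q.1 * log 3) * q.2).sum = 1)
    (hr : ∀ τ, rise l' τ = rise l τ) (hS' : (l'.map Prod.snd).sum = (l.map Prod.snd).sum)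
    {δ e η ε X L : ℝ} (hδ0 : 0 ≤ δ) (hδ : ∀ q ∈ l', q.2 ≤ δ) (he : 0 < e) (hη : 0 < η)
    (hηε : η * (8 * ((l.map Prod.snd).sum + 1) + 8) ≤ ε) (hδη : δ ≤ η / 8)
    (heη : (6 * l'.length + 2) * e ≤ η / 8) (hη2 : η ≤ 1 / 2) (hLX : L = (1 - η) * X) (hL : 1 ≤ L)
    (hX1 : log A + log (((l.map Prod.snd).sum + 1) * X + 1) + 1 ≤ η / 4 * X)
    (hX2 : (t₀ : ℝ) + C₀ ≤ η * X) (hX3 : (t₀ : ℝ) ≤ η * X)
    {w : List ℕ} {b : ℤ} (hc : Cut L e l' A w) (hb : Up (A : ℤ) w b) :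
    1 ≤ b.toNat ∧ log (b.toNat : ℕ) ≤ X ∧ ∃ K : ℕ,
      T3^[K] b.toNat = a ∧ (∀ k < K, T3^[k] b.toNat ≠ a) ∧
      |(K : ℝ) - (l.map Prod.snd).sum * X| ≤ ε * X ∧
      ∀ k ≤ K, |log (T3^[k] b.toNat : ℕ) - X * rise l ((K - k) / X)| ≤ ε * X := by
  obtain ⟨S, hS⟩ : ∃ S, S = (l.map Prod.snd).sum := ⟨_, rfl⟩
  obtain ⟨m, hm⟩ : ∃ m : ℝ, m = l'.length := ⟨_, rfl⟩
  obtain ⟨c1, c2, c3, c4, c5⟩ := close_base hA l' hl' hδ0 hδ he hL hc hb
  rw [← hm] at c4 c5 heη
  rw [hS', ← hS] at c4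
  rw [← hS] at hηε hX1 ⊢
  have hS0 : 0 ≤ S := by rw [hS]; exact snd_nonneg l hl
  have hm0 : 0 ≤ m := by rw [hm]; exact Nat.cast_nonneg _
  have hXpos : 0 < X := by
    by_contra hneg
    have : (1 - η) * X ≤ 0 := mul_nonpos_of_nonneg_of_nonpos (by linarith) (by linarith)
    linarith
  have hLX' : L ≤ X := by
    rw [hLX]
    have := mul_pos hη hXpos
    linarith
  have hL0 : 0 < L := by linarith
  have hηX : 0 < η * X := mul_pos hη hXpos
  have hme : m * e ≤ η / 8 := by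
    have : m * e ≤ (6 * m + 2) * e := mul_le_mul_of_nonneg_right (by linarith) he.le
    linarith
  have hmeL : m * e * L ≤ η / 8 * X :=
    mul_le_mul hme hLX' hL0.le (by positivity)
  have hsumL : (w.sum : ℝ) ≤ (S + 1) * L := by
    have h2 := (abs_le.1 c4).2
    have h3 : m * e * L ≤ 1 * L := mul_le_mul_of_nonneg_right (by linarith) hL0.le
    linarith
  have hlen : (w.length : ℝ) ≤ (S + 1) * X := by
    have h2 : w.length ≤ w.sum := List.length_le_sum_of_one_le w c1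
    have h3 : (w.length : ℝ) ≤ w.sum := by exact_mod_cast h2
    have h4 : (S + 1) * L ≤ (S + 1) * X := mul_le_mul_of_nonneg_left hLX' (by linarith)
    linarith
  have hlog : log ((w.length : ℝ) + 1) ≤ log ((S + 1) * X + 1) := by
    apply Real.log_le_log (by positivity)
    linarith
  have hErr : (2 * δ + (6 * m + 2) * e) * L + log A + log (w.length + 1) + 1 ≤ 5 / 8 * η * X := by
    have h2 : (2 * δ + (6 * m + 2) * e) * L ≤ (3 / 8 * η) * X := by
      apply mul_le_mul (by linarith) hLX' hL0.le (by positivity)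
    linarith
  have hA0 : 0 < A := hA.pos
  have hbpos : 1 ≤ b.toNat := by omega
  refine ⟨hbpos, ?_, w.sum + t₀, ?_, ?_, ?_, ?_⟩
  · have h2 := c5 w.sum le_rfl
    rw [Nat.sub_self, Function.iterate_zero, id, hr] at h2
    have h3 := (abs_le.1 h2).2
    have h4 : rise l ((w.sum : ℝ) / L) ≤ 1 := by rw [← h1]; exact rise_le_sum l hl _
    have h5 : L * rise l ((w.sum : ℝ) / L) ≤ L * 1 := mul_le_mul_of_nonneg_left h4 hL0.le
    have h6 : L = X - η * X := by rw [hLX]; ring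
    linarith
  · rw [add_comm, Function.iterate_add_apply, c3, ht₀]
  · intro k hk hka
    have h2 := hA.time_le c3 hka
    obtain ⟨i, rfl⟩ : ∃ i, k = i + w.sum := ⟨k - w.sum, by omega⟩
    rw [Function.iterate_add_apply, c3] at hka
    exact hmin i (by omega) hka
  · rw [Nat.cast_add]
    have h2 := abs_le.1 c4
    have h3 : S * L = S * X - S * (η * X) := by rw [hLX]; ring
    have h4 : 0 ≤ S * (η * X) := mul_nonneg hS0 hηX.le
    have h5 : 8 * (S * (η * X)) + 16 * (η * X) ≤ ε * X := by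
      have := mul_le_mul_of_nonneg_right hηε hXpos.le
      have e2 : η * (8 * (S + 1) + 8) * X = 8 * (S * (η * X)) + 16 * (η * X) := by ring
      linarith
    have h6 : (0 : ℝ) ≤ t₀ := Nat.cast_nonneg _
    have h7 : η / 8 * X = 1 / 8 * (η * X) := by ring
    rw [abs_le]
    constructor <;> linarith
  · intro k hk
    have h5 : 8 * (S * (η * X)) + 16 * (η * X) ≤ ε * X := by
      have := mul_le_mul_of_nonneg_right hηε hXpos.le
      have e2 : η * (8 * (S + 1) + 8) * X = 8 * (S * (η * X)) + 16 * (η * X) := by ring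
      linarith
    have h6 : (0 : ℝ) ≤ t₀ := Nat.cast_nonneg _
    have h4 : 0 ≤ S * (η * X) := mul_nonneg hS0 hηX.le
    rcases le_total k w.sum with hkw | hkw
    · have h2 := c5 (w.sum - k) (by omega)
      rw [show w.sum - (w.sum - k) = k by omega, hr] at h2
      have hj : ((w.sum - k : ℕ) : ℝ) = (w.sum : ℝ) - k := by
        rw [Nat.cast_sub hkw]
      have hj0 : (0 : ℝ) ≤ ((w.sum - k : ℕ) : ℝ) := Nat.cast_nonneg _
      have hjS : ((w.sum - k : ℕ) : ℝ) ≤ (S + 1) * L := by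
        have : (0 : ℝ) ≤ k := Nat.cast_nonneg _
        rw [hj]
        linarith
      have h3 := scale hl h1 hLX hη.le hL0 hXpos hj0 hjS h6 hX3
      have e1 : (((w.sum - k : ℕ) : ℝ) + t₀) = ((w.sum + t₀ : ℕ) : ℝ) - k := by
        rw [hj]; push_cast; ring
      rw [e1] at h3
      have h7 : |log (T3^[k] b.toNat : ℕ) - X * rise l ((((w.sum + t₀ : ℕ) : ℝ) - k) / X)| ≤
          5 / 8 * η * X + η * (S + 3) * X := by
        calc _ = |(log (T3^[k] b.toNat : ℕ) - L * rise l (((w.sum - k : ℕ) : ℝ) / L)) +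
              (L * rise l (((w.sum - k : ℕ) : ℝ) / L) -
                X * rise l ((((w.sum + t₀ : ℕ) : ℝ) - k) / X))| := by ring_nf
          _ ≤ _ := abs_add_le _ _
          _ ≤ _ := add_le_add (h2.trans hErr) h3
      refine h7.trans ?_
      have e2 : 5 / 8 * η * X + η * (S + 3) * X = 5 / 8 * (η * X) + (S * (η * X) + 3 * (η * X)) := by
        ring
      linarith
    · obtain ⟨i, rfl⟩ : ∃ i, k = i + w.sum := ⟨k - w.sum, by omega⟩
      rw [Function.iterate_add_apply, c3]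
      have hi : i ≤ t₀ := by omega
      have h2 := hC₀ i hi
      have e1 : ((w.sum + t₀ : ℕ) : ℝ) - ((i + w.sum : ℕ) : ℝ) = (t₀ : ℝ) - i := by
        push_cast; ring
      rw [e1]
      have hi' : (i : ℝ) ≤ t₀ := by exact_mod_cast hi
      have hi0 : (0 : ℝ) ≤ i := Nat.cast_nonneg _
      obtain ⟨r1, r2⟩ := rise_bd l hl (τ := ((t₀ : ℝ) - i) / X) (div_nonneg (by linarith) hXpos.le)
      have r3 : X * rise l (((t₀ : ℝ) - i) / X) ≤ t₀ := by
        have := mul_le_mul_of_nonneg_left r2 hXpos.le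
        rw [mul_div_cancel₀ _ hXpos.ne'] at this
        linarith
      have r4 : 0 ≤ X * rise l (((t₀ : ℝ) - i) / X) := mul_nonneg hXpos.le r1
      have h7 := abs_le.1 h2
      rw [abs_le]
      constructor <;> linarith

/-- the profile theorem for one target -/
theorem profile {a : ℕ} (ha : 0 < a) (h3 : ¬ 3 ∣ a) (l : List (ℝ × ℝ)) (hl : Adm l)
    (h1 : (l.map fun q => (log 2 - q.1 * log 3) * q.2).sum = 1) {ε : ℝ} (hε : 0 < ε) :
    ∀ᶠ x : ℝ in atTop, x ^ (gain l - ε) ≤ ({n : ℕ | 1 ≤ n ∧ (n : ℝ) ≤ x ∧ ∃ K : ℕ,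
      T3^[K] n = a ∧ (∀ k < K, T3^[k] n ≠ a) ∧
      |(K : ℝ) - (l.map Prod.snd).sum * log x| ≤ ε * log x ∧
      ∀ k ≤ K, |log (T3^[k] n : ℕ) - log x * rise l ((K - k) / log x)| ≤ ε * log x}.ncard : ℝ) := by
  classical
  obtain ⟨A, hA⟩ := exists_base ha h3
  obtain ⟨t₀, ht₀, hmin⟩ : ∃ t₀, T3^[t₀] A = a ∧ ∀ i < t₀, T3^[i] A ≠ a :=
    ⟨Nat.find hA.reach, Nat.find_spec hA.reach, fun i hi => Nat.find_min hA.reach hi⟩
  obtain ⟨C₀, hC₀⟩ : ∃ C₀ : ℝ, ∀ i ≤ t₀, |log (T3^[i] A : ℕ)| ≤ C₀ := by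
    refine ⟨∑ i ∈ Finset.range (t₀ + 1), |log (T3^[i] A : ℕ)|, fun i hi => ?_⟩
    exact Finset.single_le_sum (f := fun i => |log (T3^[i] A : ℕ)|) (fun _ _ => abs_nonneg _)
      (Finset.mem_range.2 (by omega))
  obtain ⟨S, hS⟩ : ∃ S, S = (l.map Prod.snd).sum := ⟨_, rfl⟩
  have hS0 : 0 ≤ S := by rw [hS]; exact snd_nonneg l hl
  have hG0 := gain_nonneg l hl
  obtain ⟨G, hG⟩ : ∃ G, G = gain l := ⟨_, rfl⟩
  rw [← hG] at hG0
  obtain ⟨D, hD⟩ : ∃ D, D = 8 * (S + 1) + 8 + 4 * G := ⟨_, rfl⟩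
  have hDpos : 0 < D := by rw [hD]; positivity
  obtain ⟨η, hη⟩ : ∃ η, η = min (1 / 2) (ε / D) := ⟨_, rfl⟩
  have hη0 : 0 < η := by rw [hη]; exact lt_min (by norm_num) (div_pos hε hDpos)
  have hη2 : η ≤ 1 / 2 := by rw [hη]; exact min_le_left _ _
  have hηD : η * D ≤ ε := by
    rw [← le_div_iff₀ hDpos, hη]
    exact min_le_right _ _
  have hηε : η * (8 * (S + 1) + 8) ≤ ε := by
    have : η * (8 * (S + 1) + 8) ≤ η * D := by
      apply mul_le_mul_of_nonneg_left _ hη0.le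
      rw [hD]; linarith
    linarith
  have hηG : η * G ≤ ε / 4 := by
    have : η * (4 * G) ≤ η * D := by
      apply mul_le_mul_of_nonneg_left _ hη0.le
      rw [hD]; linarith
    linarith
  have hηε8 : η ≤ ε / 16 := by
    have : η * 16 ≤ η * D := by
      apply mul_le_mul_of_nonneg_left _ hη0.le
      rw [hD]; linarith
    linarith
  obtain ⟨l', hl', hδ, hg, hS', hr⟩ := refine_list l hl (δ := η / 8) (by positivity)
  have hδ0 : 0 ≤ η / 8 := by positivity
  obtain ⟨m, hm⟩ : ∃ m : ℝ, m = l'.length := ⟨_, rfl⟩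
  have hm0 : 0 ≤ m := by rw [hm]; exact Nat.cast_nonneg _
  obtain ⟨e, he⟩ : ∃ e, e = η / (8 * (6 * m + 2)) := ⟨_, rfl⟩
  have he0 : 0 < e := by rw [he]; positivity
  have hem : (6 * m + 2) * e ≤ η / 8 := by
    rw [he]
    apply le_of_eq
    field_simp
  have heε : e ≤ ε / 4 := by
    have : 2 * e ≤ (6 * m + 2) * e := mul_le_mul_of_nonneg_right (by linarith) he0.le
    linarith
  obtain ⟨L₀, hL₀⟩ := chain l' hl' e he0
  have h1η : 0 < 1 - η := by linarith
  have hX : ∀ᶠ X : ℝ in atTop, (log A + log ((S + 1) * X + 1) + 1 ≤ η / 4 * X) ∧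
      (t₀ : ℝ) + C₀ ≤ η * X ∧ (t₀ : ℝ) ≤ η * X ∧ 1 ≤ (1 - η) * X ∧ L₀ ≤ (1 - η) * X ∧ 0 < X := by
    filter_upwards [small_terms (log A) S (η / 4) hS0 (by positivity),
      eventually_ge_atTop (((t₀ : ℝ) + C₀) / η), eventually_ge_atTop ((t₀ : ℝ) / η),
      eventually_ge_atTop (1 / (1 - η)), eventually_ge_atTop (L₀ / (1 - η)),
      eventually_gt_atTop 0] with X x1 x2 x3 x4 x5 x6
    rw [div_le_iff₀ hη0] at x2 x3
    rw [div_le_iff₀ h1η] at x4 x5
    refine ⟨x1, by linarith, by linarith, by linarith, by linarith, x6⟩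
  filter_upwards [Real.tendsto_log_atTop.eventually hX, eventually_gt_atTop 0] with x hx hx0
  obtain ⟨X, hXx⟩ : ∃ X, X = log x := ⟨_, rfl⟩
  rw [← hXx] at hx ⊢
  obtain ⟨x1, x2, x3, x4, x5, x6⟩ := hx
  obtain ⟨L, hL⟩ : ∃ L, L = (1 - η) * X := ⟨_, rfl⟩
  rw [← hL] at x4 x5
  have hA3 : ¬ (3 : ℤ) ∣ (A : ℤ) := by
    intro h5
    exact hA.three (by exact_mod_cast h5)
  obtain ⟨n, P, hP1, hP2⟩ := hL₀ L x5 A hA3
  have hup : ∀ w ∈ P, ∃ b, Up (A : ℤ) w b := fun w hw => cut_up l' (hP2 w hw).2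
  have hone : ∀ w ∈ P, ∀ b, Up (A : ℤ) w b → ∀ i ∈ w, 1 ≤ i := fun w hw b hb =>
    (close_base hA l' hl' hδ0 hδ he0 x4 (hP2 w hw).2 hb).1
  obtain ⟨F, hF1, hF2⟩ := image_card hA (n := n) P (fun w hw => by
    obtain ⟨b, hb⟩ := hup w hw
    exact ⟨(hP2 w hw).1, hone w hw b hb, b, hb⟩)
  rw [hm] at hem
  have hsub : (F : Set ℕ) ⊆ {n : ℕ | 1 ≤ n ∧ (n : ℝ) ≤ x ∧ ∃ K : ℕ,
      T3^[K] n = a ∧ (∀ k < K, T3^[k] n ≠ a) ∧
      |(K : ℝ) - (l.map Prod.snd).sum * X| ≤ ε * X ∧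
      ∀ k ≤ K, |log (T3^[k] n : ℕ) - X * rise l ((K - k) / X)| ≤ ε * X} := by
    intro b hb
    obtain ⟨w, hw, c, hc, rfl⟩ := hF2 b (Finset.mem_coe.1 hb)
    rw [hS] at hηε x1
    obtain ⟨y1, y2, y3⟩ := one_word hA ht₀ hmin hC₀ hl hl' h1 hr hS' hδ0 hδ he0 hη0 hηε le_rfl
      hem hη2 hL x4 x1 x2 x3 (hP2 w hw).2 hc
    refine ⟨y1, ?_, y3⟩
    have hc0 : (0 : ℝ) < (c.toNat : ℕ) := by exact_mod_cast y1
    rw [hXx] at y2
    exact (Real.log_le_log_iff hc0 hx0).1 y2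
  have hfin : ({n : ℕ | 1 ≤ n ∧ (n : ℝ) ≤ x ∧ ∃ K : ℕ,
      T3^[K] n = a ∧ (∀ k < K, T3^[k] n ≠ a) ∧
      |(K : ℝ) - (l.map Prod.snd).sum * X| ≤ ε * X ∧
      ∀ k ≤ K, |log (T3^[k] n : ℕ) - X * rise l ((K - k) / X)| ≤ ε * X}).Finite := by
    refine (Set.finite_Iic ⌊x⌋₊).subset ?_
    rintro b ⟨_, hb, _⟩
    exact Nat.le_floor hb
  have hcard := Set.ncard_le_ncard hsub hfin
  rw [Set.ncard_coe_finset, hF1] at hcard
  have hcard' : (P.card : ℝ) ≤ _ := Nat.cast_le.2 hcard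
  refine le_trans ?_ (hP1.trans hcard')
  rw [Real.rpow_def_of_pos hx0, ← hXx]
  apply Real.exp_le_exp.2
  rw [hg, ← hG, hL]
  have e1 : (G - e) * ((1 - η) * X) = (G - e - η * G + η * e) * X := by ring
  rw [e1, mul_comm X]
  apply mul_le_mul_of_nonneg_right _ x6.le
  have := mul_pos hη0 he0
  linarith

end Pool.Agent.Collatz3.PF
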