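import Mathlib
import Pool.Agent.Collatz3.PFFin

set_option autoImplicit false

/-!
The profile theorem for one target, with values prime to 3.
-/

namespace Pool.Agent.Collatz3.PF

open Real Filter

theorem cut_up3 {L e : ℝ} (l : List (ℝ × ℝ)) : ∀ {a : ℤ} {w : List ℕ}, Cut L e l a w →
    ¬ (3 : ℤ) ∣ a → ∃ b, Up a w b ∧ ¬ (3 : ℤ) ∣ b := by
  induction l with
  | nil =>
    intro a w h ha
    have h' : w = [] := h
    subst h'
    exact ⟨a, rfl, ha⟩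
  | cons q l ih =>
    intro a w h ha
    obtain ⟨w1, w2, b, rfl, _, _, _, h1, hb, h2⟩ := h
    obtain ⟨c, hc, hc3⟩ := ih h2 hb
    exact ⟨c, Up.append_iff.2 ⟨b, h1, hc⟩, hc3⟩

/-- the profile theorem for one target, with values prime to 3 -/
theorem profile3 {a : ℕ} (ha : 0 < a) (h3 : ¬ 3 ∣ a) (l : List (ℝ × ℝ)) (hl : Adm l)
    (h1 : (l.map fun q => (log 2 - q.1 * log 3) * q.2).sum = 1) {ε : ℝ} (hε : 0 < ε) :
    ∀ᶠ x : ℝ in atTop, x ^ (gain l - ε) ≤ ({n : ℕ | 1 ≤ n ∧ ¬ 3 ∣ n ∧ (n : ℝ) ≤ x ∧ ∃ K : ℕ,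
      T3^[K] n = a ∧ (∀ k < K, T3^[k] n ≠ a) ∧
      |(K : ℝ) - (l.map Prod.snd).sum * log x| ≤ ε * log x ∧
      ∀ k ≤ K, |log (T3^[k] n : ℕ) - log x * rise l ((K - k) / log x)| ≤ ε * log x}.ncard : ℝ) := by
  classical
  obtain ⟨A, hA⟩ := exists_base ha h3
  obtain ⟨t₀, ht₀, hmin⟩ : ∃ t₀, T3^[t₀] A = a ∧ ∀ i < t₀, T3^[i] A ≠ a :=
    ⟨Nat.find hA.reach, Nat.find_spec hA.reach, fun i hi => Nat.find_min hA.reach hi⟩
  obtain ⟨C₀, hC₀⟩ : ∃ C₀ : ℝ, ∀ i ≤ t₀, |log (T3^[i] A : ℕ)| ≤ C₀ := by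
    refine ⟨∑ i ∈ Finset.range (t₀ + 1), |log (T3^[i] A : ℕ)|, fun i hi => ?_⟩
    exact Finset.single_le_sum (f := fun i => |log (T3^[i] A : ℕ)|) (fun _ _ => abs_nonneg _)
      (Finset.mem_range.2 (by omega))
  obtain ⟨S, hS⟩ : ∃ S, S = (l.map Prod.snd).sum := ⟨_, rfl⟩
  have hS0 : 0 ≤ S := by rw [hS]; exact snd_nonneg l hl
  have hG0 := gain_nonneg l hl
  obtain ⟨G, hG⟩ : ∃ G, G = gain l := ⟨_, rfl⟩
  rw [← hG] at hG0
  obtain ⟨D, hD⟩ : ∃ D, D = 8 * (S + 1) + 8 + 4 * G := ⟨_, rfl⟩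
  have hDpos : 0 < D := by rw [hD]; positivity
  obtain ⟨η, hη⟩ : ∃ η, η = min (1 / 2) (ε / D) := ⟨_, rfl⟩
  have hη0 : 0 < η := by rw [hη]; exact lt_min (by norm_num) (div_pos hε hDpos)
  have hη2 : η ≤ 1 / 2 := by rw [hη]; exact min_le_left _ _
  have hηD : η * D ≤ ε := by
    rw [← le_div_iff₀ hDpos, hη]
    exact min_le_right _ _
  have hηε : η * (8 * (S + 1) + 8) ≤ ε := by
    have : η * (8 * (S + 1) + 8) ≤ η * D := by
      apply mul_le_mul_of_nonneg_left _ hη0.le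
      rw [hD]; linarith
    linarith
  have hηG : η * G ≤ ε / 4 := by
    have : η * (4 * G) ≤ η * D := by
      apply mul_le_mul_of_nonneg_left _ hη0.le
      rw [hD]; linarith
    linarith
  have hηε8 : η ≤ ε / 16 := by
    have : η * 16 ≤ η * D := by
      apply mul_le_mul_of_nonneg_left _ hη0.le
      rw [hD]; linarith
    linarith
  obtain ⟨l', hl', hδ, hg, hS', hr⟩ := refine_list l hl (δ := η / 8) (by positivity)
  have hδ0 : 0 ≤ η / 8 := by positivity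
  obtain ⟨m, hm⟩ : ∃ m : ℝ, m = l'.length := ⟨_, rfl⟩
  have hm0 : 0 ≤ m := by rw [hm]; exact Nat.cast_nonneg _
  obtain ⟨e, he⟩ : ∃ e, e = η / (8 * (6 * m + 2)) := ⟨_, rfl⟩
  have he0 : 0 < e := by rw [he]; positivity
  have hem : (6 * m + 2) * e ≤ η / 8 := by
    rw [he]
    apply le_of_eq
    field_simp
  have heε : e ≤ ε / 4 := by
    have : 2 * e ≤ (6 * m + 2) * e := mul_le_mul_of_nonneg_right (by linarith) he0.le
    linarith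
  obtain ⟨L₀, hL₀⟩ := chain l' hl' e he0
  have h1η : 0 < 1 - η := by linarith
  have hX : ∀ᶠ X : ℝ in atTop, (log A + log ((S + 1) * X + 1) + 1 ≤ η / 4 * X) ∧
      (t₀ : ℝ) + C₀ ≤ η * X ∧ (t₀ : ℝ) ≤ η * X ∧ 1 ≤ (1 - η) * X ∧ L₀ ≤ (1 - η) * X ∧ 0 < X := by
    filter_upwards [small_terms (log A) S (η / 4) hS0 (by positivity),
      eventually_ge_atTop (((t₀ : ℝ) + C₀) / η), eventually_ge_atTop ((t₀ : ℝ) / η),
      eventually_ge_atTop (1 / (1 - η)), eventually_ge_atTop (L₀ / (1 - η)),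
      eventually_gt_atTop 0] with X x1 x2 x3 x4 x5 x6
    rw [div_le_iff₀ hη0] at x2 x3
    rw [div_le_iff₀ h1η] at x4 x5
    refine ⟨x1, by linarith, by linarith, by linarith, by linarith, x6⟩
  filter_upwards [Real.tendsto_log_atTop.eventually hX, eventually_gt_atTop 0] with x hx hx0
  obtain ⟨X, hXx⟩ : ∃ X, X = log x := ⟨_, rfl⟩
  rw [← hXx] at hx ⊢
  obtain ⟨x1, x2, x3, x4, x5, x6⟩ := hx
  obtain ⟨L, hL⟩ : ∃ L, L = (1 - η) * X := ⟨_, rfl⟩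
  rw [← hL] at x4 x5
  have hA3 : ¬ (3 : ℤ) ∣ (A : ℤ) := by
    intro h5
    exact hA.three (by exact_mod_cast h5)
  obtain ⟨n, P, hP1, hP2⟩ := hL₀ L x5 A hA3
  have hup : ∀ w ∈ P, ∃ b, Up (A : ℤ) w b := fun w hw => cut_up l' (hP2 w hw).2
  have hone : ∀ w ∈ P, ∀ b, Up (A : ℤ) w b → ∀ i ∈ w, 1 ≤ i := fun w hw b hb =>
    (close_base hA l' hl' hδ0 hδ he0 x4 (hP2 w hw).2 hb).1
  obtain ⟨F, hF1, hF2⟩ := image_card hA (n := n) P (fun w hw => by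
    obtain ⟨b, hb⟩ := hup w hw
    exact ⟨(hP2 w hw).1, hone w hw b hb, b, hb⟩)
  rw [hm] at hem
  have hsub : (F : Set ℕ) ⊆ {n : ℕ | 1 ≤ n ∧ ¬ 3 ∣ n ∧ (n : ℝ) ≤ x ∧ ∃ K : ℕ,
      T3^[K] n = a ∧ (∀ k < K, T3^[k] n ≠ a) ∧
      |(K : ℝ) - (l.map Prod.snd).sum * X| ≤ ε * X ∧
      ∀ k ≤ K, |log (T3^[k] n : ℕ) - X * rise l ((K - k) / X)| ≤ ε * X} := by
    intro b hb
    obtain ⟨w, hw, c, hc, rfl⟩ := hF2 b (Finset.mem_coe.1 hb)
    rw [hS] at hηε x1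
    obtain ⟨y1, y2, y3⟩ := one_word hA ht₀ hmin hC₀ hl hl' h1 hr hS' hδ0 hδ he0 hη0 hηε le_rfl
      hem hη2 hL x4 x1 x2 x3 (hP2 w hw).2 hc
    have hc3 : ¬ 3 ∣ c.toNat := by
      obtain ⟨c', hc', hc3'⟩ := cut_up3 l' (hP2 w hw).2 hA3
      have hcc : c = c' := hc.unique hc'
      intro h6
      apply hc3'
      rw [← hcc]
      omega
    refine ⟨y1, hc3, ?_, y3⟩
    have hc0 : (0 : ℝ) < (c.toNat : ℕ) := by exact_mod_cast y1
    rw [hXx] at y2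
    exact (Real.log_le_log_iff hc0 hx0).1 y2
  have hfin : ({n : ℕ | 1 ≤ n ∧ ¬ 3 ∣ n ∧ (n : ℝ) ≤ x ∧ ∃ K : ℕ,
      T3^[K] n = a ∧ (∀ k < K, T3^[k] n ≠ a) ∧
      |(K : ℝ) - (l.map Prod.snd).sum * X| ≤ ε * X ∧
      ∀ k ≤ K, |log (T3^[k] n : ℕ) - X * rise l ((K - k) / X)| ≤ ε * X}).Finite := by
    refine (Set.finite_Iic ⌊x⌋₊).subset ?_
    rintro b ⟨_, _, hb, _⟩
    exact Nat.le_floor hb
  have hcard := Set.ncard_le_ncard hsub hfin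
  rw [Set.ncard_coe_finset, hF1] at hcard
  have hcard' : (P.card : ℝ) ≤ _ := Nat.cast_le.2 hcard
  refine le_trans ?_ (hP1.trans hcard')
  rw [Real.rpow_def_of_pos hx0, ← hXx]
  apply Real.exp_le_exp.2
  rw [hg, ← hG, hL]
  have e1 : (G - e) * ((1 - η) * X) = (G - e - η * G + η * e) * X := by ring
  rw [e1, mul_comm X]
  apply mul_le_mul_of_nonneg_right _ x6.le
  have := mul_pos hη0 he0
  linarith

end Pool.Agent.Collatz3.PF
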