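import Mathlib
import Pool.Agent.Collatz3.PFThree
import Pool.Agent.Collatz3.PFSteerC

set_option autoImplicit false

/-!
The profile theorem in every residue class.
-/

namespace Pool.Agent.Collatz3.PF

open Real Filter

/-- comparison of the scales `X'` and `X = X' + c` -/
theorem scale2 {l : List (ℝ × ℝ)} (hl : Adm l) {X X' c S j j' C : ℝ} (hX : X = X' + c)
    (hc : 0 ≤ c) (hX' : 0 < X') (hj : 0 ≤ j) (hjS : j ≤ S * X') (hjj : |j - j'| ≤ C)
    (hr : rise l (j / X') ≤ 1) :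
    |X' * rise l (j / X') - X * rise l (j' / X)| ≤ c + S * c + C := by
  have hX0 : 0 < X := by linarith
  have hl2 : log 2 ≤ 1 := by
    have := log_two_lt_d9
    linarith
  have r0 := rise_nonneg l hl (j / X')
  have h1 : X * |rise l (j / X') - rise l (j' / X)| ≤ S * c + C := by
    have h2 := rise_lip l hl (j / X') (j' / X)
    have h3 : |rise l (j / X') - rise l (j' / X)| ≤ |j / X' - j' / X| :=
      h2.trans (by
        calc log 2 * |j / X' - j' / X| ≤ 1 * |j / X' - j' / X| :=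
              mul_le_mul_of_nonneg_right hl2 (abs_nonneg _)
          _ = _ := one_mul _)
    have h4 : X * |j / X' - j' / X| = |j * c / X' + (j - j')| := by
      have e1 : |j * c / X' + (j - j')| = |X * (j / X' - j' / X)| := by
        congr 1
        rw [hX]
        have : X' + c ≠ 0 := by linarith
        field_simp
        ring
      rw [e1, abs_mul, abs_of_pos hX0]
    have h5 : |j * c / X'| ≤ S * c := by
      rw [abs_of_nonneg (div_nonneg (mul_nonneg hj hc) hX'.le), div_le_iff₀ hX']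
      calc j * c ≤ S * X' * c := mul_le_mul_of_nonneg_right hjS hc
        _ = S * c * X' := by ring
    calc X * |rise l (j / X') - rise l (j' / X)| ≤ X * |j / X' - j' / X| :=
          mul_le_mul_of_nonneg_left h3 hX0.le
      _ = |j * c / X' + (j - j')| := h4
      _ ≤ |j * c / X'| + |j - j'| := abs_add_le _ _
      _ ≤ S * c + C := add_le_add h5 hjj
  have h6 : X' * rise l (j / X') - X * rise l (j' / X) =
      -(c * rise l (j / X')) + X * (rise l (j / X') - rise l (j' / X)) := by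
    rw [hX]; ring
  rw [h6]
  refine (abs_add_le _ _).trans ?_
  rw [abs_neg, abs_of_nonneg (mul_nonneg hc r0), abs_mul, abs_of_pos hX0]
  have h7 : c * rise l (j / X') ≤ c * 1 := mul_le_mul_of_nonneg_left hr hc
  linarith

/-- the orbit of `n` from the orbit of `m = T3^[k] n` -/
theorem class_word {a : ℕ} {l : List (ℝ × ℝ)} (hl : Adm l)
    (h1 : (l.map fun q => (log 2 - q.1 * log 3) * q.2).sum = 1) {S : ℝ}
    (hS : S = (l.map Prod.snd).sum) {ε ε' X X' : ℝ} {C : ℕ}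
    (hX : X = X' + C * log 2) (hX' : 0 < X') (hε' : 0 < ε') (hε1 : ε' ≤ 1) (hεε : ε' ≤ ε / 2)
    (hbig : (S + 1) * (C * log 2) + 4 * C ≤ ε / 2 * X') {m n k K : ℕ} (hn : 1 ≤ n)
    (hnm : T3^[k] n = m) (hk : k ≤ C) (hm : m ∉ (Finset.range (C + 1)).image fun i => T3^[i] a)
    (hK1 : T3^[K] m = a) (hK2 : ∀ j < K, T3^[j] m ≠ a) (hK3 : |(K : ℝ) - S * X'| ≤ ε' * X')
    (hK4 : ∀ j ≤ K, |log (T3^[j] m : ℕ) - X' * rise l ((K - j) / X')| ≤ ε' * X') :
    T3^[K + k] n = a ∧ (∀ j < K + k, T3^[j] n ≠ a) ∧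
      |((K + k : ℕ) : ℝ) - S * X| ≤ ε * X ∧
      ∀ j ≤ K + k, |log (T3^[j] n : ℕ) - X * rise l ((((K + k : ℕ) : ℝ) - j) / X)| ≤ ε * X := by
  have hl2 : 0 < log 2 := log_pos (by norm_num)
  have hl2' : log 2 ≤ 1 := by
    have := log_two_lt_d9
    linarith
  have hC0 : (0 : ℝ) ≤ C := Nat.cast_nonneg _
  have hkR : (k : ℝ) ≤ C := by exact_mod_cast hk
  have hk0 : (0 : ℝ) ≤ k := Nat.cast_nonneg _
  have hK0 : (0 : ℝ) ≤ K := Nat.cast_nonneg _
  have hS0 : 0 ≤ S := hS ▸ snd_nonneg l hl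
  have hc0 : 0 ≤ C * log 2 := mul_nonneg hC0 hl2.le
  have hcC : C * log 2 ≤ C := by
    have := mul_le_mul_of_nonneg_left hl2' hC0
    linarith
  have hε0 : 0 < ε := by linarith
  have hXX : X' ≤ X := by linarith
  have hεX : ε * X' ≤ ε * X := mul_le_mul_of_nonneg_left hXX hε0.le
  have hεX' : ε' * X' ≤ ε / 2 * X' := mul_le_mul_of_nonneg_right hεε hX'.le
  have hSc : 0 ≤ S * (C * log 2) := mul_nonneg hS0 hc0
  have hKS : (K : ℝ) ≤ (S + 1) * X' := by
    have h2 := (abs_le.1 hK3).2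
    have h3 : ε' * X' ≤ 1 * X' := mul_le_mul_of_nonneg_right hε1 hX'.le
    linarith
  have hr1 : ∀ τ, rise l τ ≤ 1 := fun τ => by rw [← h1]; exact rise_le_sum l hl τ
  have hit : ∀ j, T3^[j + k] n = T3^[j] m := fun j => by
    rw [Function.iterate_add_apply, hnm]
  refine ⟨by rw [hit, hK1], ?_, ?_, ?_⟩
  · intro j hj hja
    rcases le_total k j with h | h
    · obtain ⟨i, rfl⟩ : ∃ i, j = i + k := ⟨j - k, by omega⟩
      rw [hit] at hja
      exact hK2 i (by omega) hja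
    · apply hm
      rw [Finset.mem_image]
      refine ⟨k - j, Finset.mem_range.2 (by omega), ?_⟩
      rw [← hja, ← Function.iterate_add_apply, Nat.sub_add_cancel h, hnm]
  · have h2 := abs_le.1 hK3
    have e1 : S * X = S * X' + S * (C * log 2) := by rw [hX]; ring
    push_cast
    rw [e1, abs_le]
    constructor <;> linarith [h2.1, h2.2]
  · intro j hj
    rcases le_total k j with h | h
    · obtain ⟨i, rfl⟩ : ∃ i, j = i + k := ⟨j - k, by omega⟩
      rw [hit]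
      have hi : i ≤ K := by omega
      have hiR : (i : ℝ) ≤ K := by exact_mod_cast hi
      have hi0 : (0 : ℝ) ≤ i := Nat.cast_nonneg _
      have h2 := hK4 i hi
      have e1 : ((K + k : ℕ) : ℝ) - ((i + k : ℕ) : ℝ) = (K : ℝ) - i := by push_cast; ring
      rw [e1]
      have h3 := scale2 hl hX hc0 hX' (j := (K : ℝ) - i) (j' := (K : ℝ) - i) (S := S + 1) (C := 0)
        (by linarith) (by linarith) (by simp) (hr1 _)
      have h4 := abs_le.1 h2
      have h5 := abs_le.1 h3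
      rw [abs_le]
      constructor <;> linarith [h4.1, h4.2, h5.1, h5.2]
    · have hy : 1 ≤ T3^[j] n := one_le_iter j n hn
      have h2 := log_iter (k - j) (T3^[j] n) hy
      have e0 : T3^[k - j] (T3^[j] n) = m := by
        rw [← Function.iterate_add_apply, Nat.sub_add_cancel h, hnm]
      rw [e0] at h2
      have hkj : ((k - j : ℕ) : ℝ) ≤ C := by
        have : k - j ≤ C := by omega
        exact_mod_cast this
      have hkj0 : (0 : ℝ) ≤ ((k - j : ℕ) : ℝ) := Nat.cast_nonneg _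
      have h3 : ((k - j : ℕ) : ℝ) * log 2 ≤ C := by
        calc ((k - j : ℕ) : ℝ) * log 2 ≤ C * 1 := mul_le_mul hkj hl2' hl2.le hC0
          _ = C := mul_one _
      have h4 := hK4 0 (Nat.zero_le _)
      have e2 : T3^[0] m = m := rfl
      rw [e2] at h4
      have e3 : (K : ℝ) - ((0 : ℕ) : ℝ) = K := by push_cast; ring
      rw [e3] at h4
      have hjR : (j : ℝ) ≤ k := by exact_mod_cast h
      have hj0 : (0 : ℝ) ≤ j := Nat.cast_nonneg _
      have h5 := scale2 hl hX hc0 hX' (j := (K : ℝ)) (j' := ((K + k : ℕ) : ℝ) - j) (S := S + 1)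
        (C := C) hK0 hKS (by
          push_cast
          rw [abs_le]
          constructor <;> linarith) (hr1 _)
      have h6 := abs_le.1 h2
      have h7 := abs_le.1 h4
      have h8 := abs_le.1 h5
      rw [abs_le]
      constructor <;> linarith [h6.1, h6.2, h7.1, h7.2, h8.1, h8.2]

theorem gain_pos (l : List (ℝ × ℝ)) (hl : Adm l)
    (h1 : (l.map fun q => (log 2 - q.1 * log 3) * q.2).sum = 1) : 0 < gain l := by
  cases l with
  | nil => simp at h1
  | cons q l =>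
    have h2 := gain_nonneg l hl.tail
    obtain ⟨_, _, h3, h4⟩ := hl.head
    have h5 : gain (q :: l) = (binEntropy q.1 - q.1 * log 3) * q.2 + gain l := by
      unfold gain
      rw [List.map_cons, List.sum_cons]
    rw [h5]
    have := mul_pos (sub_pos.2 h3) h4
    linarith

/-- The profile theorem for one target, in every residue class. -/
theorem profileQ {a : ℕ} (ha : 0 < a) (h3 : ¬ 3 ∣ a) {q : ℕ} (hq : 0 < q) (r : ℕ)
    (l : List (ℝ × ℝ)) (hl : Adm l)
    (h1 : (l.map fun q => (log 2 - q.1 * log 3) * q.2).sum = 1) {ε : ℝ} (hε : 0 < ε) :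
    ∀ᶠ x : ℝ in atTop, x ^ (gain l - ε) ≤ ({n : ℕ | 1 ≤ n ∧ (n : ℝ) ≤ x ∧ n % q = r % q ∧
      ∃ K : ℕ, T3^[K] n = a ∧ (∀ k < K, T3^[k] n ≠ a) ∧
      |(K : ℝ) - (l.map Prod.snd).sum * log x| ≤ ε * log x ∧
      ∀ k ≤ K, |log (T3^[k] n : ℕ) - log x * rise l ((K - k) / log x)| ≤ ε * log x}.ncard : ℝ) := by
  classical
  obtain ⟨C, hC⟩ := steer q hq r
  have hg := gain_pos l hl h1
  obtain ⟨g, hgd⟩ : ∃ g, g = gain l := ⟨_, rfl⟩
  rw [← hgd] at hg ⊢
  obtain ⟨S, hS⟩ : ∃ S, S = (l.map Prod.snd).sum := ⟨_, rfl⟩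
  rw [← hS]
  obtain ⟨ε', hε'0, hε'1, hε'2, hε'3⟩ : ∃ ε' : ℝ, 0 < ε' ∧ ε' ≤ 1 ∧ ε' ≤ ε / 2 ∧ ε' ≤ g / 2 :=
    ⟨min 1 (min (ε / 2) (g / 2)), by positivity, min_le_left _ _,
      (min_le_right _ _).trans (min_le_left _ _), (min_le_right _ _).trans (min_le_right _ _)⟩
  obtain ⟨D, hD⟩ : ∃ D : ℝ, D = 2 ^ C := ⟨_, rfl⟩
  have hD0 : 0 < D := by rw [hD]; positivity
  have hlogD : log D = C * log 2 := by rw [hD, log_pow]
  obtain ⟨κ, hκ⟩ : ∃ κ : ℝ, κ = D ^ (-(g - ε')) := ⟨_, rfl⟩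
  have hκ0 : 0 < κ := by rw [hκ]; positivity
  have htend : Tendsto (fun x : ℝ => x / D) atTop atTop := tendsto_id.atTop_div_const hD0
  have hP := htend.eventually (profile3 ha h3 l hl h1 hε'0)
  have hlog' := (Real.tendsto_log_atTop.comp htend).eventually_ge_atTop
    (max 1 (((S + 1) * (C * log 2) + 4 * C) / (ε / 2)))
  have hp1 := (tendsto_rpow_atTop (show 0 < ε - ε' by linarith)).eventually_ge_atTop
    (2 * (C + 1) / κ)
  have hp2 := (tendsto_rpow_atTop (show 0 < g - ε' by linarith)).eventually_ge_atTop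
    (2 * (2 * C + 2) / κ)
  filter_upwards [hP, hlog', hp1, hp2, eventually_gt_atTop 0] with x hx hxl hx1 hx2 hx0
  have hxl' : max 1 (((S + 1) * (C * log 2) + 4 * C) / (ε / 2)) ≤ log (x / D) := hxl
  obtain ⟨X', hX'⟩ : ∃ X', X' = log (x / D) := ⟨_, rfl⟩
  obtain ⟨X, hX⟩ : ∃ X, X = log x := ⟨_, rfl⟩
  rw [← hX'] at hx hxl'
  rw [← hX]
  have hXX : X = X' + C * log 2 := by
    rw [hX, hX', log_div hx0.ne' hD0.ne', hlogD]
    ring
  have hX'1 : 1 ≤ X' := (le_max_left _ _).trans hxl'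
  have hbig : (S + 1) * (C * log 2) + 4 * C ≤ ε / 2 * X' := by
    have h5 := (le_max_right _ _).trans hxl'
    rw [div_le_iff₀ (by positivity)] at h5
    linarith
  -- the set of the `m`
  obtain ⟨M, hM⟩ : ∃ M : Set ℕ, M = {n : ℕ | 1 ≤ n ∧ ¬ 3 ∣ n ∧ (n : ℝ) ≤ x / D ∧ ∃ K : ℕ,
      T3^[K] n = a ∧ (∀ k < K, T3^[k] n ≠ a) ∧
      |(K : ℝ) - (l.map Prod.snd).sum * X'| ≤ ε' * X' ∧
      ∀ k ≤ K, |log (T3^[k] n : ℕ) - X' * rise l ((K - k) / X')| ≤ ε' * X'} := ⟨_, rfl⟩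
  rw [← hM] at hx
  have hMfin : M.Finite := by
    rw [hM]
    refine (Set.finite_Iic ⌊x / D⌋₊).subset ?_
    rintro b ⟨_, _, hb, _⟩
    exact Nat.le_floor hb
  obtain ⟨R, hR⟩ : ∃ R : Set ℕ, R = {n : ℕ | 1 ≤ n ∧ (n : ℝ) ≤ x ∧ n % q = r % q ∧
      ∃ K : ℕ, T3^[K] n = a ∧ (∀ k < K, T3^[k] n ≠ a) ∧
      |(K : ℝ) - S * X| ≤ ε * X ∧
      ∀ k ≤ K, |log (T3^[k] n : ℕ) - X * rise l ((K - k) / X)| ≤ ε * X} := ⟨_, rfl⟩
  rw [← hR]
  have hRfin : R.Finite := by
    rw [hR]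
    refine (Set.finite_Iic ⌊x⌋₊).subset ?_
    rintro b ⟨_, hb, _⟩
    exact Nat.le_floor hb
  obtain ⟨Bad, hBad⟩ : ∃ Bad : Finset ℕ, Bad = ((Finset.range (C + 1)).image fun i => T3^[i] a) ∪
      Finset.range C := ⟨_, rfl⟩
  have hBadc : Bad.card ≤ 2 * C + 2 := by
    rw [hBad]
    have b1 := Finset.card_union_le ((Finset.range (C + 1)).image fun i => T3^[i] a)
      (Finset.range C)
    have b2 := Finset.card_image_le (s := Finset.range (C + 1)) (f := fun i => T3^[i] a)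
    rw [Finset.card_range] at b1 b2
    omega
  -- every good `m` is an iterate of an element of `R`
  have hcov : hMfin.toFinset ⊆ Bad ∪ (Finset.range (C + 1)).biUnion
      fun k => (hRfin.toFinset).image fun n => T3^[k] n := by
    intro m hm
    rw [Set.Finite.mem_toFinset, hM] at hm
    obtain ⟨hm1, hm3, hmx, K, hK1, hK2, hK3, hK4⟩ := hm
    rw [Finset.mem_union]
    by_cases hmB : m ∈ Bad
    · exact Or.inl hmB
    · right
      rw [hBad, Finset.mem_union, not_or] at hmB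
      have hmC : C ≤ m := by
        have := hmB.2
        rw [Finset.mem_range] at this
        omega
      obtain ⟨n, k, hn0, hnq, hnm, hkC⟩ := hC m hmC hm3
      rw [← hS] at hK3
      obtain ⟨c1, c2, c3, c4⟩ := class_word hl h1 hS hXX (by linarith) hε'0 hε'1 hε'2 hbig hn0 hnm
        hkC hmB.1 hK1 hK2 hK3 hK4
      rw [Finset.mem_biUnion]
      refine ⟨k, Finset.mem_range.2 (by omega), ?_⟩
      rw [Finset.mem_image]
      refine ⟨n, ?_, hnm⟩
      rw [Set.Finite.mem_toFinset, hR]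
      refine ⟨hn0, ?_, hnq, K + k, c1, c2, c3, c4⟩
      have d1 := le_pow_mul_T3 k n
      rw [hnm] at d1
      have d2 : n ≤ 2 ^ C * m :=
        d1.trans (Nat.mul_le_mul_right _ (Nat.pow_le_pow_right (by norm_num) hkC))
      have d3 : (n : ℝ) ≤ D * m := by rw [hD]; exact_mod_cast d2
      have d4 : D * m ≤ D * (x / D) := mul_le_mul_of_nonneg_left hmx hD0.le
      have d5 : D * (x / D) = x := by field_simp
      linarith
  have hcard : M.ncard ≤ (2 * C + 2) + (C + 1) * R.ncard := by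
    rw [Set.ncard_eq_toFinset_card _ hMfin, Set.ncard_eq_toFinset_card _ hRfin]
    refine (Finset.card_le_card hcov).trans ((Finset.card_union_le _ _).trans ?_)
    refine add_le_add hBadc ?_
    refine Finset.card_biUnion_le.trans ?_
    refine (Finset.sum_le_card_nsmul _ _ _ fun k _ => Finset.card_image_le).trans ?_
    rw [Finset.card_range, smul_eq_mul]
  have hcardR : (M.ncard : ℝ) ≤ (2 * C + 2) + (C + 1) * (R.ncard : ℝ) := by exact_mod_cast hcard
  -- numbers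
  rw [← hgd] at hx
  have e1 : (x / D) ^ (g - ε') = x ^ (g - ε') * κ := by
    rw [hκ, div_rpow hx0.le hD0.le, rpow_neg hD0.le]
    rfl
  rw [e1] at hx
  have e2 : x ^ (g - ε') = x ^ (g - ε) * x ^ (ε - ε') := by
    rw [← rpow_add hx0]
    congr 1
    ring
  obtain ⟨P, hPd⟩ : ∃ P, P = x ^ (g - ε') := ⟨_, rfl⟩
  obtain ⟨Q, hQd⟩ : ∃ Q, Q = x ^ (g - ε) := ⟨_, rfl⟩
  have hQ0 : 0 < Q := by rw [hQd]; positivity
  rw [← hPd] at hx hx2 e2
  rw [← hQd] at e2 ⊢
  have hx1' : 2 * (C + 1) ≤ x ^ (ε - ε') * κ := by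
    rwa [div_le_iff₀ hκ0] at hx1
  have hx2' : 2 * (2 * C + 2) ≤ P * κ := by
    rwa [div_le_iff₀ hκ0] at hx2
  have e3 : 2 * ((C + 1) * Q) ≤ P * κ := by
    rw [e2]
    have := mul_le_mul_of_nonneg_left hx1' hQ0.le
    linarith
  have hC1 : (0 : ℝ) < C + 1 := by positivity
  have e4 : (C + 1) * Q ≤ (C + 1) * (R.ncard : ℝ) := by linarith
  exact le_of_mul_le_mul_left e4 hC1

end Pool.Agent.Collatz3.PF
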