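import Mathlib
import Pool.Agent.Collatz3.GLeg

set_option autoImplicit false

/-!
The Legendre transform and the growth exponent for all speeds between `log 2` and `1 / γ₀`.
-/

namespace Pool.Agent.Collatz3.PF

open Real
open Pool.Agent.Collatz3.Leg (gL)

/-- Positive growth below `ρ₀`. -/
theorem growth_pos {ρ₀ : ℝ} (h4 : ∀ ρ, 1 / 2 < ρ → ρ < ρ₀ → ρ * log 3 < binEntropy ρ)
    {ρ : ℝ} (h0 : 0 < ρ) (h1 : ρ < ρ₀) : ρ * log 3 < binEntropy ρ := by
  rcases lt_or_ge (1 / 2) ρ with h | h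
  · exact h4 ρ h h1
  · have hl : log 3 < 2 * log 2 := by
      have : log 3 < log (2 ^ 2) := Real.log_lt_log (by norm_num) (by norm_num)
      rw [Real.log_pow] at this
      push_cast at this
      exact this
    have hc := strictConcave_binEntropy.concaveOn
    have h2 := hc.2 (show (0 : ℝ) ∈ Set.Icc (0 : ℝ) 1 from ⟨le_rfl, zero_le_one⟩)
      (show (2⁻¹ : ℝ) ∈ Set.Icc (0 : ℝ) 1 from ⟨by norm_num, by norm_num⟩)
      (show (0 : ℝ) ≤ 1 - 2 * ρ by linarith) (show (0 : ℝ) ≤ 2 * ρ by linarith) (by ring)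
    rw [binEntropy_zero, binEntropy_two_inv] at h2
    have e : (1 - 2 * ρ) • (0 : ℝ) + (2 * ρ) • (2⁻¹ : ℝ) = ρ := by
      simp only [smul_eq_mul]
      ring
    rw [e] at h2
    simp only [smul_eq_mul, mul_zero, zero_add] at h2
    nlinarith

/-- The speed `1 / α` and its proportion of odd steps, for every `α` in `(1 / log 2, γ₀)`. -/
theorem speed {γ₀ ρ₀ : ℝ} (h2 : ρ₀ < log 2 / log 3)
    (h3 : γ₀ = 1 / (log 2 - ρ₀ * log 3))
    (h4 : ∀ ρ, 1 / 2 < ρ → ρ < ρ₀ → ρ * log 3 < binEntropy ρ)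
    {α : ℝ} (hα : 1 / log 2 < α) (hα' : α < γ₀) :
    ∃ ρ, 0 < ρ ∧ ρ < ρ₀ ∧ ρ < 1 ∧ 0 < log 2 - ρ * log 3 ∧ 1 / α = log 2 - ρ * log 3 ∧
      ρ * log 3 < binEntropy ρ ∧
      1 - α * gL (1 / α) = (binEntropy ρ - ρ * log 3) / (log 2 - ρ * log 3) := by
  have hl2 : 0 < log 2 := log_pos (by norm_num)
  have hl3 : 0 < log 3 := log_pos (by norm_num)
  have hα0 : 0 < α := lt_trans (by positivity) hα
  have hinv : 1 / α < log 2 := by
    rw [div_lt_iff₀ hα0]
    rw [div_lt_iff₀ hl2] at hα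
    linarith
  have hinv' : log 2 - ρ₀ * log 3 < 1 / α := by
    have hD : 0 < log 2 - ρ₀ * log 3 := by
      rw [lt_div_iff₀ hl3] at h2
      linarith
    have h5 : 1 / γ₀ < 1 / α := one_div_lt_one_div_of_lt hα0 hα'
    rw [h3, one_div_one_div] at h5
    exact h5
  have hρ1 : ρ₀ < 1 := h2.trans Leg.log_ratio.2
  have e : 1 / α = log 2 - (log 2 - 1 / α) / log 3 * log 3 := by
    rw [div_mul_cancel₀ _ hl3.ne']
    ring
  have r0 : 0 < (log 2 - 1 / α) / log 3 := by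
    apply div_pos _ hl3
    linarith
  have r1 : (log 2 - 1 / α) / log 3 < ρ₀ := by
    rw [div_lt_iff₀ hl3]
    linarith
  have rD : 0 < log 2 - (log 2 - 1 / α) / log 3 * log 3 := by
    rw [← e]
    positivity
  exact ⟨(log 2 - 1 / α) / log 3, r0, r1, r1.trans hρ1, rD, e, growth_pos h4 r0 r1,
    Leg.exponent_eq r0 (r1.trans hρ1) e rD⟩

end Pool.Agent.Collatz3.PF
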