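import Mathlib
import Pool.Agent.Collatz3.GAll
import Pool.Agent.Collatz3.PFDefs
import Pool.Agent.Collatz3.PFLeg

set_option autoImplicit false

/-!
The profile theorem in terms of speeds, with the constant `γ₀`.
-/

namespace Pool.Agent.Collatz3.PF

open Real Filter
open Pool.Agent.Collatz3.Leg (gL)

/-- height above the target at backward time `τ`, list of (speed, duration) from the target up -/
noncomputable def height : List (ℝ × ℝ) → ℝ → ℝ
  | [], _ => 0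
  | q :: l, τ => q.1 * min (max τ 0) q.2 + height l (τ - q.2)

/-- speed to proportion of odd steps -/
noncomputable def conv (q : ℝ × ℝ) : ℝ × ℝ := ((log 2 - q.1) / log 3, q.2)

theorem conv_speed (q : ℝ × ℝ) : log 2 - (conv q).1 * log 3 = q.1 := by
  have hl3 : log 3 ≠ 0 := (log_pos (by norm_num)).ne'
  unfold conv
  simp only
  rw [div_mul_cancel₀ _ hl3]
  ring

theorem rise_conv (l : List (ℝ × ℝ)) (τ : ℝ) : rise (l.map conv) τ = height l τ := by
  induction l generalizing τ with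
  | nil => rfl
  | cons q l ih =>
    rw [List.map_cons]
    simp only [rise, height]
    rw [conv_speed, ih]
    rfl

theorem snd_conv (l : List (ℝ × ℝ)) : ((l.map conv).map Prod.snd).sum = (l.map Prod.snd).sum := by
  rw [List.map_map]
  rfl

theorem speed_conv (l : List (ℝ × ℝ)) :
    ((l.map conv).map fun q => (log 2 - q.1 * log 3) * q.2).sum =
      (l.map fun q => q.1 * q.2).sum := by
  rw [List.map_map]
  congr 1
  apply List.map_congr_left
  intro q _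
  simp only [Function.comp]
  rw [conv_speed]
  rfl

theorem gain_conv (l : List (ℝ × ℝ)) (hl : ∀ q ∈ l, 0 < (conv q).1 ∧ (conv q).1 < 1) :
    gain (l.map conv) = (l.map fun q => q.1 * q.2).sum - (l.map fun q => q.2 * gL q.1).sum := by
  induction l with
  | nil => simp [gain]
  | cons q l ih =>
    have h1 := ih fun p hp => hl p (List.mem_cons_of_mem _ hp)
    obtain ⟨h2, h3⟩ := hl q List.mem_cons_self
    have h4 := Leg.legendre h2 h3
    rw [conv_speed] at h4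
    have h5 : (conv q).1 * log 3 = log 2 - q.1 := by
      have := conv_speed q
      linarith
    have h6 : (conv q).2 = q.2 := rfl
    unfold gain at h1 ⊢
    simp only [List.map_cons, List.sum_cons] at h1 ⊢
    rw [h1, h4, h5, h6]
    ring

/-- the statement of the profile theorem -/
def ProfileS : Prop :=
  ∀ a : ℕ, 0 < a → ¬ 3 ∣ a → ∀ l : List (ℝ × ℝ), Adm l →
    (l.map fun q => (log 2 - q.1 * log 3) * q.2).sum = 1 → ∀ ε : ℝ, 0 < ε →
    ∀ᶠ x : ℝ in atTop, x ^ (gain l - ε) ≤ ({n : ℕ | 1 ≤ n ∧ (n : ℝ) ≤ x ∧ ∃ K : ℕ,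
      T3^[K] n = a ∧ (∀ k < K, T3^[k] n ≠ a) ∧
      |(K : ℝ) - (l.map Prod.snd).sum * log x| ≤ ε * log x ∧
      ∀ k ≤ K, |log (T3^[k] n : ℕ) - log x * rise l ((K - k) / log x)| ≤ ε * log x}.ncard : ℝ)

theorem final2 (H : ProfileS) : ∃ γ₀ : ℝ,
    (γ₀ > ((1 / 2) * log (4 / 3))⁻¹ ∧ γ₀ * gL (1 / γ₀) = 1) ∧
    (∀ γ : ℝ, γ > ((1 / 2) * log (4 / 3))⁻¹ → γ * gL (1 / γ) = 1 → γ = γ₀) ∧
    ∀ a : ℕ, 0 < a → ¬ 3 ∣ a →
      (∀ ε : ℝ, ε > 0 → ∀ N : ℕ, ∃ n : ℕ, N ≤ n ∧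
        (∃ k, T3^[k] n = a) ∧ ∀ k, T3^[k] n = a → (γ₀ - ε) * log n ≤ k) ∧
      (∀ α : ℝ, α > ((1 / 2) * log (4 / 3))⁻¹ → α < γ₀ →
        ∀ ε : ℝ, ε > 0 → ∀ᶠ x : ℝ in atTop,
          x ^ (1 - α * gL (1 / α) - ε) ≤ ({b ∈ SlowSet a α | (b : ℝ) ≤ x}.ncard : ℝ)) ∧
      (∀ l : List (ℝ × ℝ), (∀ q ∈ l, 1 / γ₀ < q.1 ∧ q.1 < log 2 ∧ 0 < q.2) →
        (l.map fun q => q.1 * q.2).sum = 1 → ∀ ε : ℝ, 0 < ε → ∀ᶠ x : ℝ in atTop,
          x ^ (1 - (l.map fun q => q.2 * gL q.1).sum - ε) ≤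
            ({n : ℕ | 1 ≤ n ∧ (n : ℝ) ≤ x ∧ ∃ K : ℕ,
              T3^[K] n = a ∧ (∀ k < K, T3^[k] n ≠ a) ∧
              |(K : ℝ) - (l.map Prod.snd).sum * log x| ≤ ε * log x ∧
              ∀ k ≤ K, |log (T3^[k] n : ℕ) - log x * height l ((K - k) / log x)| ≤
                ε * log x}.ncard : ℝ)) := by
  obtain ⟨γ₀, h1, h2, h3, h4⟩ := final all_tilts
  refine ⟨γ₀, h1, h2, fun a ha h3a => ⟨h3 a ha h3a, h4 a ha h3a, ?_⟩⟩
  obtain ⟨γ₁, ρ₀, g1, g2, g3, g4, g5, g6, -⟩ := Leg.exists_gamma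
  have hγ : γ₁ = γ₀ := h2 γ₁ g4 g5
  rw [hγ] at g3
  have hl2 : 0 < log 2 := log_pos (by norm_num)
  have hl3 : 0 < log 3 := log_pos (by norm_num)
  have hρ1 : ρ₀ < 1 := g2.trans Leg.log_ratio.2
  have hinv : 1 / γ₀ = log 2 - ρ₀ * log 3 := by rw [g3, one_div_one_div]
  intro l hl hsum ε hε
  have hconv : ∀ q ∈ l, 0 < (conv q).1 ∧ (conv q).1 < ρ₀ := by
    intro q hq
    obtain ⟨q1, q2, q3⟩ := hl q hq
    have h5 : (conv q).1 * log 3 = log 2 - q.1 := by
      have := conv_speed q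
      linarith
    rw [hinv] at q1
    constructor
    · by_contra hc
      push Not at hc
      have := mul_nonpos_of_nonpos_of_nonneg hc hl3.le
      linarith
    · by_contra hc
      push Not at hc
      have := mul_le_mul_of_nonneg_right hc hl3.le
      linarith
  have hadm : Adm (l.map conv) := by
    intro p hp
    rw [List.mem_map] at hp
    obtain ⟨q, hq, rfl⟩ := hp
    obtain ⟨h5, h6⟩ := hconv q hq
    exact ⟨h5, h6.trans hρ1, growth_pos g6 h5 h6, (hl q hq).2.2⟩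
  have h7 := H a ha h3a (l.map conv) hadm (by rw [speed_conv, hsum]) ε hε
  rw [gain_conv l fun q hq => ⟨(hconv q hq).1, (hconv q hq).2.trans hρ1⟩, hsum] at h7
  simp only [snd_conv, rise_conv] at h7
  exact h7

end Pool.Agent.Collatz3.PF
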