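import Mathlib
import Pool.Agent.Collatz3.PFRes
import Pool.Agent.Collatz3.PFClass

set_option autoImplicit false

/-!
The profile theorem and the lower half of the conjecture in every residue class, in terms of speeds.
-/

namespace Pool.Agent.Collatz3.PF

open Real Filter
open Pool.Agent.Collatz3.Leg (gL)

/-- `gL` near a speed `v` between `log 2 - log 3` and `log 2` -/
theorem gL_cont {v : ℝ} (h1 : log 2 - log 3 < v) (h2 : v < log 2) : ContinuousAt gL v := by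
  have hl3 : 0 < log 3 := log_pos (by norm_num)
  have h3 : ∀ᶠ u in nhds v, gL u = log 2 - binEntropy ((log 2 - u) / log 3) := by
    filter_upwards [Ioo_mem_nhds h1 h2] with u hu
    have h4 := Leg.legendre (ρ := (log 2 - u) / log 3) (div_pos (by linarith [hu.2]) hl3) (by
      rw [div_lt_one hl3]
      linarith [hu.1])
    rw [div_mul_cancel₀ _ hl3.ne'] at h4
    rw [← h4]
    congr 1
    ring
  have h4 : ContinuousAt (fun u : ℝ => log 2 - binEntropy ((log 2 - u) / log 3)) v := by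
    apply Continuous.continuousAt
    have := binEntropy_continuous
    fun_prop
  exact h4.congr (h3.mono fun u hu => hu.symm)

/-- the model's exponent -/
noncomputable def ex (α : ℝ) : ℝ := 1 - α * gL (1 / α)

theorem ex_cont {α : ℝ} (h0 : 0 < α) (h1 : 1 / α < log 2) : ContinuousAt ex α := by
  have hv : log 2 - log 3 < 1 / α := by
    have h2 : log 2 < log 3 := log_lt_log (by norm_num) (by norm_num)
    have : 0 < 1 / α := by positivity
    linarith
  have h2 : ContinuousAt (fun β : ℝ => 1 / β) α := by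
    have := h0.ne'
    fun_prop (disch := assumption)
  have h3 : ContinuousAt (fun β : ℝ => gL (1 / β)) α :=
    ContinuousAt.comp (f := fun β : ℝ => 1 / β) (g := gL) (gL_cont hv h1) h2
  exact continuousAt_const.sub (continuousAt_id.mul h3)

theorem final3 : ∃ γ₀ : ℝ,
    (γ₀ > ((1 / 2) * log (4 / 3))⁻¹ ∧ γ₀ * gL (1 / γ₀) = 1) ∧
    (∀ γ : ℝ, γ > ((1 / 2) * log (4 / 3))⁻¹ → γ * gL (1 / γ) = 1 → γ = γ₀) ∧
    ∀ a : ℕ, 0 < a → ¬ 3 ∣ a → ∀ q r : ℕ, 0 < q →
      (∀ l : List (ℝ × ℝ), (∀ p ∈ l, 1 / γ₀ < p.1 ∧ p.1 < log 2 ∧ 0 < p.2) →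
        (l.map fun p => p.1 * p.2).sum = 1 → ∀ ε : ℝ, 0 < ε → ∀ᶠ x : ℝ in atTop,
          x ^ (1 - (l.map fun p => p.2 * gL p.1).sum - ε) ≤
            ({n : ℕ | 1 ≤ n ∧ (n : ℝ) ≤ x ∧ n % q = r % q ∧ ∃ K : ℕ,
              T3^[K] n = a ∧ (∀ k < K, T3^[k] n ≠ a) ∧
              |(K : ℝ) - (l.map Prod.snd).sum * log x| ≤ ε * log x ∧
              ∀ k ≤ K, |log (T3^[k] n : ℕ) - log x * height l ((K - k) / log x)| ≤
                ε * log x}.ncard : ℝ)) ∧
      (∀ ε : ℝ, 0 < ε → ∀ N : ℕ, ∃ n : ℕ, N ≤ n ∧ n % q = r % q ∧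
        (∃ k, T3^[k] n = a) ∧ ∀ k, T3^[k] n = a → (γ₀ - ε) * log n ≤ k) ∧
      (∀ α : ℝ, α > ((1 / 2) * log (4 / 3))⁻¹ → α < γ₀ →
        ∀ ε : ℝ, 0 < ε → ∀ᶠ x : ℝ in atTop, x ^ (1 - α * gL (1 / α) - ε) ≤
          ({n : ℕ | 1 ≤ n ∧ (n : ℝ) ≤ x ∧ n % q = r % q ∧ (∃ k, T3^[k] n = a) ∧
            ∀ k, T3^[k] n = a → α * log n ≤ k}.ncard : ℝ)) := by
  obtain ⟨γ₀, ρ₀, g1, g2, g3, g4, g5, g6, g7⟩ := Leg.exists_gamma
  refine ⟨γ₀, ⟨g4, g5⟩, g7, fun a ha h3a q r hq => ?_⟩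
  have hl2 : 0 < log 2 := log_pos (by norm_num)
  have hl3 : 0 < log 3 := log_pos (by norm_num)
  have hρ1 : ρ₀ < 1 := g2.trans Leg.log_ratio.2
  have hinv : 1 / γ₀ = log 2 - ρ₀ * log 3 := by rw [g3, one_div_one_div]
  -- admissibility
  have hconv : ∀ l : List (ℝ × ℝ), (∀ p ∈ l, 1 / γ₀ < p.1 ∧ p.1 < log 2 ∧ 0 < p.2) →
      ∀ p ∈ l, 0 < (conv p).1 ∧ (conv p).1 < ρ₀ := by
    intro l hl p hp
    obtain ⟨q1, q2, q3⟩ := hl p hp
    have h5 : (conv p).1 * log 3 = log 2 - p.1 := by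
      have := conv_speed p
      linarith
    rw [hinv] at q1
    constructor
    · by_contra hc
      push Not at hc
      have := mul_nonpos_of_nonpos_of_nonneg hc hl3.le
      linarith
    · by_contra hc
      push Not at hc
      have := mul_le_mul_of_nonneg_right hc hl3.le
      linarith
  have hadm : ∀ l : List (ℝ × ℝ), (∀ p ∈ l, 1 / γ₀ < p.1 ∧ p.1 < log 2 ∧ 0 < p.2) →
      Adm (l.map conv) := by
    intro l hl p' hp'
    rw [List.mem_map] at hp'
    obtain ⟨p, hp, rfl⟩ := hp'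
    obtain ⟨h5, h6⟩ := hconv l hl p hp
    exact ⟨h5, h6.trans hρ1, growth_pos g6 h5 h6, (hl p hp).2.2⟩
  have hA : ∀ l : List (ℝ × ℝ), (∀ p ∈ l, 1 / γ₀ < p.1 ∧ p.1 < log 2 ∧ 0 < p.2) →
      (l.map fun p => p.1 * p.2).sum = 1 → ∀ ε : ℝ, 0 < ε → ∀ᶠ x : ℝ in atTop,
        x ^ (1 - (l.map fun p => p.2 * gL p.1).sum - ε) ≤
          ({n : ℕ | 1 ≤ n ∧ (n : ℝ) ≤ x ∧ n % q = r % q ∧ ∃ K : ℕ,
            T3^[K] n = a ∧ (∀ k < K, T3^[k] n ≠ a) ∧
            |(K : ℝ) - (l.map Prod.snd).sum * log x| ≤ ε * log x ∧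
            ∀ k ≤ K, |log (T3^[k] n : ℕ) - log x * height l ((K - k) / log x)| ≤
              ε * log x}.ncard : ℝ) := by
    intro l hl hsum ε hε
    have h7 := profileQ ha h3a hq r (l.map conv) (hadm l hl) (by rw [speed_conv, hsum]) hε
    rw [gain_conv l fun p hp => ⟨(hconv l hl p hp).1, (hconv l hl p hp).2.trans hρ1⟩, hsum] at h7
    simp only [snd_conv, rise_conv] at h7
    exact h7
  -- one segment
  have hγ1 : ((1 / 2) * log (4 / 3))⁻¹ > 0 := by
    have : 0 < log (4 / 3) := log_pos (by norm_num)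
    positivity
  have hone : ∀ α : ℝ, α > ((1 / 2) * log (4 / 3))⁻¹ → α < γ₀ →
      ∀ p ∈ [((1 / α : ℝ), α)], 1 / γ₀ < p.1 ∧ p.1 < log 2 ∧ 0 < p.2 := by
    intro α hα hαγ p hp
    rw [List.mem_singleton] at hp
    subst hp
    have hα0 : 0 < α := hγ1.trans hα
    refine ⟨one_div_lt_one_div_of_lt hα0 hαγ, ?_, hα0⟩
    have h5 : 1 / α < (1 / 2) * log (4 / 3) := by
      have hp0 : 0 < (1 / 2) * log (4 / 3) := by
        have : 0 < log (4 / 3) := log_pos (by norm_num)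
        positivity
      rw [one_div]
      exact inv_lt_of_inv_lt₀ hp0 hα
    have h6 : log (4 / 3) < log 2 := log_lt_log (by norm_num) (by norm_num)
    show 1 / α < log 2
    have : (1 / 2) * log (4 / 3) < log 2 := by linarith
    linarith
  have hexp : ∀ α : ℝ, α > ((1 / 2) * log (4 / 3))⁻¹ → α < γ₀ → 0 < ex α := by
    intro α hα hαγ
    have hα0 : 0 < α := hγ1.trans hα
    have h5 := hone α hα hαγ
    have h6 := gain_pos ([((1 / α : ℝ), α)].map conv) (hadm _ h5) (by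
      rw [speed_conv]
      simp only [List.map_cons, List.map_nil, List.sum_cons, List.sum_nil, add_zero]
      field_simp)
    rw [gain_conv _ fun p hp => ⟨(hconv _ h5 p hp).1, (hconv _ h5 p hp).2.trans hρ1⟩] at h6
    simp only [List.map_cons, List.map_nil, List.sum_cons, List.sum_nil, add_zero] at h6
    have h7 : 1 / α * α = 1 := by field_simp
    rw [h7] at h6
    exact h6
  have hB : ∀ α : ℝ, α > ((1 / 2) * log (4 / 3))⁻¹ → α < γ₀ →
      ∀ ε : ℝ, 0 < ε → ∀ᶠ x : ℝ in atTop, x ^ (1 - α * gL (1 / α) - ε) ≤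
        ({n : ℕ | 1 ≤ n ∧ (n : ℝ) ≤ x ∧ n % q = r % q ∧ (∃ k, T3^[k] n = a) ∧
          ∀ k, T3^[k] n = a → α * log n ≤ k}.ncard : ℝ) := by
    intro α hα hαγ ε hε
    have hα0 : 0 < α := hγ1.trans hα
    have hc := ex_cont hα0 ((hone α hα hαγ _ (List.mem_singleton.2 rfl)).2.1)
    have hc2 : ∀ᶠ β in nhdsWithin α (Set.Ioi α), ex α - ε / 2 < ex β :=
      (hc.eventually (lt_mem_nhds (by linarith))).filter_mono nhdsWithin_le_nhds
    have hc3 : ∀ᶠ β in nhdsWithin α (Set.Ioi α), β < γ₀ :=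
      (eventually_lt_nhds hαγ).filter_mono nhdsWithin_le_nhds
    obtain ⟨β, hβ1, hβ2, hβ3⟩ := (hc2.and (hc3.and self_mem_nhdsWithin)).exists
    have hβ3 : α < β := hβ3
    have hβα : β > ((1 / 2) * log (4 / 3))⁻¹ := lt_trans hα hβ3
    have hβ0 : 0 < β := hα0.trans hβ3
    obtain ⟨ε', hε'0, hε'1, hε'2⟩ : ∃ ε' : ℝ, 0 < ε' ∧ ε' ≤ ε / 2 ∧ ε' ≤ β - α :=
      ⟨min (ε / 2) (β - α), lt_min (by linarith) (by linarith), min_le_left _ _, min_le_right _ _⟩
    have h8 := hA [((1 / β : ℝ), β)] (hone β hβα hβ2) (by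
      simp only [List.map_cons, List.map_nil, List.sum_cons, List.sum_nil, add_zero]
      field_simp) ε' hε'0
    filter_upwards [h8, eventually_ge_atTop 1] with x hx hx1
    have hlx : 0 ≤ log x := log_nonneg hx1
    refine le_trans ?_ (hx.trans ?_)
    · apply rpow_le_rpow_of_exponent_le hx1
      simp only [List.map_cons, List.map_nil, List.sum_cons, List.sum_nil, add_zero]
      unfold ex at hβ1
      linarith
    · apply Nat.cast_le.2
      apply Set.ncard_le_ncard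
      · rintro n ⟨n1, n2, n3, K, k1, k2, k3, -⟩
        refine ⟨n1, n2, n3, ⟨K, k1⟩, fun k hk => ?_⟩
        have hKk : K ≤ k := by
          by_contra hlt
          push Not at hlt
          exact k2 k hlt hk
        have hKk' : (K : ℝ) ≤ k := by exact_mod_cast hKk
        simp only [List.map_cons, List.map_nil, List.sum_cons, List.sum_nil, add_zero] at k3
        have h9 := (abs_le.1 k3).1
        have hn0 : (0 : ℝ) < n := by exact_mod_cast n1
        have h10 : log n ≤ log x := log_le_log hn0 n2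
        have h11 : α * log n ≤ α * log x := mul_le_mul_of_nonneg_left h10 hα0.le
        have h12 : α * log x ≤ (β - ε') * log x := mul_le_mul_of_nonneg_right (by linarith) hlx
        linarith
      · refine (Set.finite_Iic ⌊x⌋₊).subset ?_
        rintro b ⟨_, hb, _⟩
        exact Nat.le_floor hb
  refine ⟨hA, ?_, hB⟩
  intro ε hε N
  obtain ⟨α, hα⟩ : ∃ α, α = max (γ₀ - ε) ((((1 / 2) * log (4 / 3))⁻¹ + γ₀) / 2) := ⟨_, rfl⟩
  have hα1 : α > ((1 / 2) * log (4 / 3))⁻¹ := by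
    have : (((1 / 2) * log (4 / 3))⁻¹ + γ₀) / 2 ≤ α := by rw [hα]; exact le_max_right _ _
    have h5 := g4
    linarith
  have hα2 : α < γ₀ := by
    rw [hα]
    apply max_lt (by linarith)
    have h5 := g4
    linarith
  have hα3 : γ₀ - ε ≤ α := by rw [hα]; exact le_max_left _ _
  have hex := hexp α hα1 hα2
  have h5 := hB α hα1 hα2 (ex α / 2) (by linarith)
  have h6 := (tendsto_rpow_atTop (show 0 < ex α / 2 by linarith)).eventually_gt_atTop (N + 1 : ℝ)
  obtain ⟨x, hx1, hx2⟩ := (h5.and h6).exists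
  have h7 : 1 - α * gL (1 / α) - ex α / 2 = ex α / 2 := by unfold ex; ring
  rw [h7] at hx1
  obtain ⟨R, hR⟩ : ∃ R : Set ℕ, R = {n : ℕ | 1 ≤ n ∧ (n : ℝ) ≤ x ∧ n % q = r % q ∧
      (∃ k, T3^[k] n = a) ∧ ∀ k, T3^[k] n = a → α * log n ≤ k} := ⟨_, rfl⟩
  rw [← hR] at hx1
  have h8 : N < R.ncard := by
    have : (N : ℝ) < R.ncard := by linarith
    exact_mod_cast this
  obtain ⟨n, hn, hnN⟩ : ∃ n ∈ R, N ≤ n := by
    by_contra hcon
    push Not at hcon
    have h9 : R ⊆ (Finset.range N : Set ℕ) := fun n hn => by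
      rw [Finset.coe_range]
      exact hcon n hn
    have h10 := Set.ncard_le_ncard h9 (Finset.finite_toSet _)
    rw [Set.ncard_coe_finset, Finset.card_range] at h10
    omega
  rw [hR] at hn
  obtain ⟨n1, -, n3, n4, n5⟩ := hn
  refine ⟨n, hnN, n3, n4, fun k hk => ?_⟩
  have hn0 : 0 ≤ log (n : ℝ) := log_nonneg (by exact_mod_cast n1)
  have := mul_le_mul_of_nonneg_right hα3 hn0
  have := n5 k hk
  linarith

end Pool.Agent.Collatz3.PF
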