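import Mathlib
import Pool.Agent.Collatz3.PRPrimes
import Pool.Agent.Collatz3.PRVC

set_option autoImplicit false

/-!
# Tao's theorem in sifted sets: a form that contains the primes literally

The primes `p < min(z, |n|)` are used.
-/

namespace Pool.Agent.Collatz3.PR

open Finset
open Pool.Agent.Helper90.Straus
open Pool.Agent.Helper14 (T)

theorem log_pow_le (A : ℕ) : ∃ C : ℝ, 0 < C ∧ ∀ X : ℝ, 1 ≤ X →
    (Real.log X + 1) ^ A ≤ C * X ^ (1 / 4 : ℝ) := by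
  refine ⟨(4 * (A : ℝ) + 1) ^ A, by positivity, fun X hX => ?_⟩
  rcases Nat.eq_zero_or_pos A with h0 | h0
  · subst h0
    rw [pow_zero, pow_zero, one_mul]
    exact Real.one_le_rpow hX (by norm_num)
  have hX0 : 0 < X := by linarith
  have hA : (0 : ℝ) < A := by exact_mod_cast h0
  have hl := Real.log_nonneg hX
  have hY : 0 ≤ X ^ (1 / (4 * (A : ℝ))) := (Real.rpow_pos_of_pos hX0 _).le
  have hY1 : 1 ≤ X ^ (1 / (4 * (A : ℝ))) := Real.one_le_rpow hX (by positivity)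
  have h1 := Real.add_one_le_exp (Real.log X / (4 * A))
  have h2 : Real.exp (Real.log X / (4 * A)) = X ^ (1 / (4 * (A : ℝ))) := by
    rw [Real.rpow_def_of_pos hX0]
    congr 1
    ring
  rw [h2] at h1
  have h3 : Real.log X + 1 ≤ (4 * A + 1) * X ^ (1 / (4 * (A : ℝ))) := by
    have h4 : Real.log X = 4 * A * (Real.log X / (4 * A)) := by
      field_simp
    have h5 : 4 * (A : ℝ) * (Real.log X / (4 * A)) ≤ 4 * A * X ^ (1 / (4 * (A : ℝ))) :=
      mul_le_mul_of_nonneg_left (by linarith) (by positivity)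
    rw [← h4] at h5
    linarith
  calc (Real.log X + 1) ^ A ≤ ((4 * A + 1) * X ^ (1 / (4 * (A : ℝ)))) ^ A :=
        pow_le_pow_left₀ (by linarith) h3 A
    _ = (4 * (A : ℝ) + 1) ^ A * X ^ (1 / 4 : ℝ) := by
        rw [mul_pow, ← Real.rpow_natCast (X ^ (1 / (4 * (A : ℝ)))) A, ← Real.rpow_mul hX0.le]
        congr 2
        field_simp

theorem Sys.mono {κ κ' : ℕ} {Ω : ℕ → Finset ℕ} (h : Sys κ Ω) (hk : κ ≤ κ') : Sys κ' Ω :=
  fun p hp => ⟨(h p hp).1, (h p hp).2.1.trans hk, (h p hp).2.2⟩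

/-- `n` avoids the classes `Ω p` modulo the primes `p < z`, `p < |n|`. -/
def Sf' (Ω : ℕ → Finset ℕ) (z : ℕ) (n : ℤ) : Prop :=
  ∀ p : ℕ, p.Prime → p < z → p < n.natAbs → (n % p).toNat ∉ Ω p

theorem sift_of_main (h : St_Main) (hVL : St_VL) (hVC : St_VC) : ∃ c : ℝ, 0 < c ∧
    ∀ κ : ℕ, ∀ ε : ℝ, 0 < ε → ∃ C : ℝ, 0 < C ∧
      ∀ (M X : ℝ) (z : ℕ) (Ω : ℕ → Finset ℕ), 1 ≤ M → 2 ≤ z → (z : ℝ) ≤ X → Sys κ Ω →
      (Set.ncard {n : ℤ | |(n : ℝ)| ≤ X ∧ Sf' Ω z n ∧ ∀ j : ℕ,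
        (j : ℝ) ≤ (2 / Real.log (4 / 3) + ε) * Real.log X + C * Real.log M →
          M < |((T^[j] n : ℤ) : ℝ)|} : ℝ) ≤ C * X * VV Ω z * M ^ (-c) := by
  obtain ⟨c, hc, h⟩ := h
  refine ⟨min c (1 / 8), lt_min hc (by norm_num), ?_⟩
  intro κ ε hε
  obtain ⟨C₁, hC₁, h⟩ := h κ ε hε
  obtain ⟨cV, A, hcV, hVL⟩ := hVL (κ + 1) (by omega)
  obtain ⟨C₂, hC₂, hVC⟩ := hVC (κ + 1) 2 (by omega)
  obtain ⟨C₃, hC₃, hlog⟩ := log_pow_le A
  obtain ⟨C, hC⟩ : ∃ C : ℝ, C = C₁ * (C₂ + 1) + C₁ + 4 * C₃ / cV := ⟨_, rfl⟩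
  have hC0 : 0 < C := by rw [hC]; positivity
  refine ⟨C, hC0, ?_⟩
  intro M X z Ω hM hz hzX hΩ
  have hΩ' : Sys (κ + 1) Ω := Sys.mono hΩ (by omega)
  obtain ⟨a, ha⟩ : ∃ a, a = 2 / Real.log (4 / 3) + ε := ⟨_, rfl⟩
  have ha0 : 0 < a := by
    rw [ha]
    have : 0 < Real.log (4 / 3) := Real.log_pos (by norm_num)
    positivity
  rw [← ha]
  rw [← ha] at h
  have hM0 : 0 < M := by linarith
  have hX2 : 2 ≤ X := le_trans (by exact_mod_cast hz) hzX
  have hX0 : 0 < X := by linarith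
  have hlX : 0 < Real.log X := Real.log_pos (by linarith)
  have hlM : 0 ≤ Real.log M := Real.log_nonneg hM
  have hC1C : C₁ ≤ C := by
    rw [hC]
    have h1 : 0 ≤ C₁ * (C₂ + 1) := by positivity
    have h2 : 0 ≤ 4 * C₃ / cV := by positivity
    linarith
  have hV0 : 0 < VV Ω z := VV_pos hΩ z
  obtain ⟨E, hE⟩ : ∃ E : Set ℤ, E = {n : ℤ | |(n : ℝ)| ≤ X ∧ Sf' Ω z n ∧ ∀ j : ℕ,
      (j : ℝ) ≤ a * Real.log X + C * Real.log M → M < |((T^[j] n : ℤ) : ℝ)|} := ⟨_, rfl⟩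
  rw [← hE]
  rcases le_or_gt X M with hXM | hXM
  · have h1 : E = ∅ := by
      rw [hE, Set.eq_empty_iff_forall_notMem]
      rintro n ⟨h2, _, h3⟩
      have h4 := h3 0 (by
        push_cast
        positivity)
      simp only [Function.iterate_zero, id_eq] at h4
      linarith
    rw [h1, Set.ncard_empty, Nat.cast_zero]
    positivity
  obtain ⟨W, hW⟩ : ∃ W : ℝ, W = M ^ (-min c (1 / 8)) := ⟨_, rfl⟩
  have hW0 : 0 < W := by rw [hW]; positivity
  have hWc : M ^ (-c) ≤ W := by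
    rw [hW]
    exact Real.rpow_le_rpow_of_exponent_le hM (neg_le_neg (min_le_left _ _))
  have hWX : X ^ (-(1 / 8 : ℝ)) ≤ W := by
    rw [hW]
    have h1 : M ^ (-(1 / 8 : ℝ)) ≤ M ^ (-min c (1 / 8)) :=
      Real.rpow_le_rpow_of_exponent_le hM (neg_le_neg (min_le_right _ _))
    refine le_trans ?_ h1
    exact Real.rpow_le_rpow_of_nonpos hM0 hXM.le (by norm_num)
  rw [← hW]
  -- the level
  obtain ⟨y₀, hy₀⟩ : ∃ y : ℕ, y = ⌊√X⌋₊ + 1 := ⟨_, rfl⟩
  have hy2 : 2 ≤ y₀ := by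
    have h1 : 1 ≤ ⌊√X⌋₊ := Nat.le_floor (by
      rw [Nat.cast_one, Real.one_le_sqrt]
      linarith)
    omega
  have hsX : √X * √X = X := Real.mul_self_sqrt hX0.le
  have hsX1 : 1 ≤ √X := by
    rw [Real.one_le_sqrt]
    linarith
  have hys : (y₀ : ℝ) ≤ √X + 1 := by
    rw [hy₀]
    push_cast
    have := Nat.floor_le (Real.sqrt_nonneg X)
    linarith
  have hys' : √X < y₀ := by
    rw [hy₀]
    push_cast
    exact Nat.lt_floor_add_one _
  obtain ⟨y, hy⟩ : ∃ y : ℕ, y = min z y₀ := ⟨_, rfl⟩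
  have hyz : y ≤ z := by rw [hy]; exact min_le_left _ _
  have hyy : y ≤ y₀ := by rw [hy]; exact min_le_right _ _
  have hy22 : 2 ≤ y := by rw [hy]; exact le_min hz hy2
  have hyX : (y : ℝ) ≤ X := le_trans (by exact_mod_cast hyz) hzX
  -- comparison of the densities
  have hVV : VV Ω y ≤ (C₂ + 1) * VV Ω z := by
    rcases le_total z y₀ with h1 | h1
    · have h2 : y = z := by rw [hy]; exact min_eq_left h1
      rw [h2]
      have h3 : 0 ≤ C₂ * VV Ω z := by positivity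
      linarith
    · have h2 : y = y₀ := by rw [hy]; exact min_eq_right h1
      have h3 : Real.log z ≤ ((2 : ℕ) : ℝ) * Real.log y := by
        rw [h2]
        have h4 : Real.log X ≤ Real.log ((y₀ : ℝ) ^ 2) := by
          apply Real.log_le_log hX0
          nlinarith
        rw [Real.log_pow] at h4
        have h5 : Real.log z ≤ Real.log X :=
          Real.log_le_log (by exact_mod_cast (by omega : 0 < z)) hzX
        linarith
      have h4 := hVC y z Ω hy22 hyz h3 hΩ'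
      linarith
  -- the small integers
  have hsmall : (({n : ℤ | n.natAbs < y}.ncard : ℕ) : ℝ) ≤ 4 * √X := by
    have h1 := (card_abs_lt y).2
    have h2 : (({n : ℤ | n.natAbs < y}.ncard : ℕ) : ℝ) ≤ 2 * y := by exact_mod_cast h1
    have h3 : (y : ℝ) ≤ y₀ := by exact_mod_cast hyy
    linarith
  have hsmall2 : 4 * √X ≤ 4 * C₃ / cV * (X * VV Ω z * W) := by
    have h1 := hlog X (by linarith)
    have h2 := hVL z Ω hz hΩ'
    have h3 : (Real.log z + 1) ^ A ≤ (Real.log X + 1) ^ A := by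
      apply pow_le_pow_left₀
      · have : 0 ≤ Real.log z := Real.log_nonneg (by exact_mod_cast (by omega : 1 ≤ z))
        linarith
      · have := Real.log_le_log (by exact_mod_cast (by omega : 0 < z)) hzX
        linarith
    have h4 : cV ≤ C₃ * X ^ (1 / 4 : ℝ) * VV Ω z :=
      h2.trans (mul_le_mul_of_nonneg_right (h3.trans h1) hV0.le)
    have h5 : √X = X ^ (1 / 2 : ℝ) := Real.sqrt_eq_rpow X
    have h6 : √X * X ^ (1 / 4 : ℝ) ≤ X * X ^ (-(1 / 8 : ℝ)) := by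
      have h7 : X * X ^ (-(1 / 8 : ℝ)) = X ^ (1 : ℝ) * X ^ (-(1 / 8 : ℝ)) := by
        rw [Real.rpow_one]
      rw [h7, h5, ← Real.rpow_add hX0, ← Real.rpow_add hX0]
      apply Real.rpow_le_rpow_of_exponent_le (by linarith)
      norm_num
    have h8 : √X * cV ≤ C₃ * (X * VV Ω z * W) := by
      calc √X * cV ≤ √X * (C₃ * X ^ (1 / 4 : ℝ) * VV Ω z) :=
            mul_le_mul_of_nonneg_left h4 (Real.sqrt_nonneg _)
        _ = (√X * X ^ (1 / 4 : ℝ)) * (C₃ * VV Ω z) := by ring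
        _ ≤ (X * X ^ (-(1 / 8 : ℝ))) * (C₃ * VV Ω z) :=
            mul_le_mul_of_nonneg_right h6 (by positivity)
        _ ≤ (X * W) * (C₃ * VV Ω z) := by
            apply mul_le_mul_of_nonneg_right _ (by positivity)
            exact mul_le_mul_of_nonneg_left hWX hX0.le
        _ = _ := by ring
    have h9 : √X ≤ C₃ * (X * VV Ω z * W) / cV := by
      rw [le_div_iff₀ hcV]
      exact h8
    calc 4 * √X ≤ 4 * (C₃ * (X * VV Ω z * W) / cV) := by linarith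
      _ = _ := by ring
  have h1 : E ⊆ {n : ℤ | n.natAbs < y} ∪ {n : ℤ | |(n : ℝ)| ≤ X ∧ Sf Ω y n ∧
      ∀ j : ℕ, (j : ℝ) ≤ a * Real.log X + C₁ * Real.log M → M < |((T^[j] n : ℤ) : ℝ)|} := by
    intro n hn
    rw [hE] at hn
    obtain ⟨h2, h3, h4⟩ := hn
    rcases lt_or_ge n.natAbs y with h5 | h5
    · left
      exact h5
    · right
      refine ⟨h2, fun p hp hpy => h3 p hp (by omega) (by omega), fun j hj => h4 j (hj.trans ?_)⟩
      have := mul_le_mul_of_nonneg_right hC1C hlM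
      linarith
  have h2 := Set.ncard_le_ncard h1 ((card_abs_lt y).1.union
    ((finite_abs X).subset fun n hn => hn.1))
  have h3 := h2.trans (Set.ncard_union_le _ _)
  have h4 := h M X y Ω hM hy22 hyX hΩ
  have h9 : (E.ncard : ℝ) ≤ (({n : ℤ | n.natAbs < y}.ncard : ℕ) : ℝ) +
      (({n : ℤ | |(n : ℝ)| ≤ X ∧ Sf Ω y n ∧ ∀ j : ℕ,
        (j : ℝ) ≤ a * Real.log X + C₁ * Real.log M →
        M < |((T^[j] n : ℤ) : ℝ)|}.ncard : ℕ) : ℝ) := by exact_mod_cast h3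
  have h10 : C₁ * X * VV Ω y * M ^ (-c) ≤ C₁ * (C₂ + 1) * (X * VV Ω z * W) := by
    calc C₁ * X * VV Ω y * M ^ (-c) ≤ C₁ * X * ((C₂ + 1) * VV Ω z) * W := by
          apply mul_le_mul _ hWc (by positivity) (by positivity)
          exact mul_le_mul_of_nonneg_left hVV (by positivity)
      _ = _ := by ring
  have h11 : 0 ≤ X * VV Ω z * W := by positivity
  have h12 : (E.ncard : ℝ) ≤ 4 * C₃ / cV * (X * VV Ω z * W) +
      C₁ * (C₂ + 1) * (X * VV Ω z * W) := by linarith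
  refine h12.trans ?_
  have h13 : C * X * VV Ω z * W = C * (X * VV Ω z * W) := by ring
  rw [h13, hC]
  have h14 : 0 ≤ C₁ * (X * VV Ω z * W) := by positivity
  nlinarith

end Pool.Agent.Collatz3.PR
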