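import Mathlib

set_option autoImplicit false

/-!
A renewal theorem for the equation `f L = (f (L - 1) + f (L - 1 + θ)) / 2`, with `θ` irrational,
for bounded nonnegative `f` such that `2 ^ L * f L` is monotone: `f` has a limit.
-/

namespace Pool.Agent.Collatz3.RN

open Filter Topology Set

theorem desc {g : ℝ → ℝ} {θ x L₀ : ℝ} (hθ : 1 ≤ θ) (hup : ∀ L, L₀ ≤ L → g L ≤ x)
    (heq : ∀ L, L₀ + 1 ≤ L → g L = (g (L - 1) + g (L - 1 + θ)) / 2) :
    ∀ (t B : ℕ) (η : ℝ), B ≤ t → ∀ L, L₀ + t ≤ L → x - η ≤ g L →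
      x - 2 ^ t * η ≤ g (L - t + B * θ) := by
  intro t
  induction t with
  | zero =>
    intro B η hB L hL h
    have : B = 0 := by omega
    subst this
    simpa using h
  | succ t ih =>
    intro B η hB L hL h
    push_cast at hL ⊢
    have h1 := heq L (by linarith [(Nat.cast_nonneg t : (0 : ℝ) ≤ t)])
    have h2 := hup (L - 1) (by linarith [(Nat.cast_nonneg t : (0 : ℝ) ≤ t)])
    have h3 := hup (L - 1 + θ) (by linarith [(Nat.cast_nonneg t : (0 : ℝ) ≤ t)])
    by_cases hB' : B ≤ t
    · have h4 := ih B (2 * η) hB' (L - 1) (by linarith) (by linarith)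
      have e : L - (t + 1) + B * θ = L - 1 - t + B * θ := by ring
      rw [e, pow_succ, mul_assoc]
      exact h4
    · have hB2 : B = t + 1 := by omega
      have h4 := ih t (2 * η) le_rfl (L - 1 + θ) (by linarith) (by linarith)
      have e : L - (t + 1) + B * θ = L - 1 + θ - t + t * θ := by
        rw [hB2]
        push_cast
        ring
      rw [e, pow_succ, mul_assoc]
      exact h4

theorem shift_upper {f : ℝ → ℝ} {θ V : ℝ} (hθ : 1 ≤ θ) (hV : ∀ L, 0 ≤ L → |f L| ≤ V)
    (heq : ∀ L, 1 ≤ L → f L = (f (L - 1) + f (L - 1 + θ)) / 2) {a : ℝ} (ha : a = 1 ∨ a = θ)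
    {ε : ℝ} (hε : 0 < ε) : ∀ᶠ L in atTop, f (L + a) - f L ≤ ε := by
  have ha1 : 1 ≤ a := by rcases ha with h | h <;> linarith
  have hV0 : 0 ≤ V := (abs_nonneg _).trans (hV 0 le_rfl)
  obtain ⟨g, hg⟩ : ∃ g : ℝ → ℝ, g = fun L => f (L + a) - f L := ⟨_, rfl⟩
  have hgV : ∀ L, 0 ≤ L → g L ≤ 2 * V := by
    intro L hL
    rw [hg]
    have h1 := (abs_le.1 (hV L hL)).1
    have h2 := (abs_le.1 (hV (L + a) (by linarith))).2
    show f (L + a) - f L ≤ 2 * V
    linarith
  have hgeq : ∀ L, 1 ≤ L → g L = (g (L - 1) + g (L - 1 + θ)) / 2 := by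
    intro L hL
    rw [hg]
    show f (L + a) - f L = (f (L - 1 + a) - f (L - 1) + (f (L - 1 + θ + a) - f (L - 1 + θ))) / 2
    rw [heq L hL, heq (L + a) (by linarith)]
    have e1 : L + a - 1 = L - 1 + a := by ring
    have e2 : L - 1 + a + θ = L - 1 + θ + a := by ring
    rw [e1, e2]
    ring
  obtain ⟨T, hT⟩ := exists_nat_gt (4 * V / ε)
  rw [div_lt_iff₀ hε] at hT
  obtain ⟨η, hη⟩ : ∃ η : ℝ, η = ε / 2 / 2 ^ T := ⟨_, rfl⟩
  have hη0 : 0 < η := by rw [hη]; positivity
  have hηT : 2 ^ T * η = ε / 2 := by rw [hη]; field_simp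
  -- the improvement step
  have step : ∀ x, ε ≤ x → (∀ᶠ L in atTop, g L ≤ x) → ∀ᶠ L in atTop, g L ≤ x - η := by
    intro x hx h
    obtain ⟨L₁, hL₁⟩ := eventually_atTop.1 h
    obtain ⟨L₀, hL₀⟩ : ∃ L₀ : ℝ, L₀ = max L₁ 0 := ⟨_, rfl⟩
    have h0 : 0 ≤ L₀ := by rw [hL₀]; exact le_max_right _ _
    have hup : ∀ L, L₀ ≤ L → g L ≤ x := fun L hL => hL₁ L (by
      rw [hL₀] at hL
      exact (le_max_left _ _).trans hL)
    filter_upwards [eventually_ge_atTop (L₀ + T)] with L hL
    by_contra hcon
    push Not at hcon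
    have hd := desc hθ hup (fun L hL => hgeq L (by linarith))
    have hLT : 0 ≤ L - T := by linarith
    rcases ha with ha | ha
    · -- shift by one
      have h1 : ∀ k ∈ Finset.range T, ε / 2 ≤ g (L - T + k) := by
        intro k hk
        rw [Finset.mem_range] at hk
        have h2 := hd (T - k) 0 η (by omega) L (by
          have : ((T - k : ℕ) : ℝ) ≤ T := by exact_mod_cast Nat.sub_le T k
          linarith) hcon.le
        have h3 : (2 : ℝ) ^ (T - k) * η ≤ 2 ^ T * η :=
          mul_le_mul_of_nonneg_right (pow_le_pow_right₀ (by norm_num) (Nat.sub_le T k)) hη0.le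
        have e : L - ((T - k : ℕ) : ℝ) + ((0 : ℕ) : ℝ) * θ = L - T + k := by
          rw [Nat.cast_sub hk.le]
          push_cast
          ring
        rw [e] at h2
        linarith
      have h2 := Finset.sum_le_sum h1
      rw [Finset.sum_const, Finset.card_range, nsmul_eq_mul] at h2
      have h3 : ∑ k ∈ Finset.range T, g (L - T + k) = f L - f (L - T) := by
        have h4 := Finset.sum_range_sub (fun k : ℕ => f (L - T + k)) T
        have e : L - T + T = L := by ring
        simp only [Nat.cast_zero, add_zero, e] at h4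
        rw [← h4]
        apply Finset.sum_congr rfl
        intro k _
        rw [hg, ha]
        push_cast
        show f (L - T + k + 1) - f (L - T + k) = f (L - T + (k + 1)) - f (L - T + k)
        rw [add_assoc (L - T) (k : ℝ) 1]
      rw [h3] at h2
      have h4 := (abs_le.1 (hV L (by linarith [(Nat.cast_nonneg T : (0 : ℝ) ≤ T)]))).2
      have h5 := (abs_le.1 (hV (L - T) hLT)).1
      nlinarith
    · -- shift by θ
      have h1 : ∀ k ∈ Finset.range T, ε / 2 ≤ g (L - T + k * θ) := by
        intro k hk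
        rw [Finset.mem_range] at hk
        have h2 := hd T k η hk.le L hL hcon.le
        linarith
      have h2 := Finset.sum_le_sum h1
      rw [Finset.sum_const, Finset.card_range, nsmul_eq_mul] at h2
      have h3 : ∑ k ∈ Finset.range T, g (L - T + k * θ) = f (L - T + T * θ) - f (L - T) := by
        have h4 := Finset.sum_range_sub (fun k : ℕ => f (L - T + k * θ)) T
        simp only [Nat.cast_zero, zero_mul, add_zero] at h4
        rw [← h4]
        apply Finset.sum_congr rfl
        intro k _
        rw [hg, ha]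
        push_cast
        show f (L - T + k * θ + θ) - f (L - T + k * θ) = f (L - T + (k + 1) * θ) - f (L - T + k * θ)
        have e : L - T + k * θ + θ = L - T + (k + 1) * θ := by ring
        rw [e]
      rw [h3] at h2
      have h4 := (abs_le.1 (hV (L - T + T * θ) (by positivity))).2
      have h5 := (abs_le.1 (hV (L - T) hLT)).1
      nlinarith
  have iter : ∀ n : ℕ, ∀ᶠ L in atTop, g L ≤ max ε (2 * V - n * η) := by
    intro n
    induction n with
    | zero =>
      filter_upwards [eventually_ge_atTop 0] with L hL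
      exact (hgV L hL).trans (le_trans (by simp) (le_max_right _ _))
    | succ n ih =>
      have h1 := step _ (le_max_left _ _) ih
      filter_upwards [h1] with L hL
      refine hL.trans ?_
      push_cast
      rw [sub_le_iff_le_add, max_le_iff]
      constructor
      · have := le_max_left ε (2 * V - ((n : ℝ) + 1) * η)
        linarith
      · have := le_max_right ε (2 * V - ((n : ℝ) + 1) * η)
        linarith
  obtain ⟨n, hn⟩ := exists_nat_gt (2 * V / η)
  rw [div_lt_iff₀ hη0] at hn
  filter_upwards [iter n] with L hL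
  have e : max ε (2 * V - n * η) = ε := max_eq_left (by linarith)
  rw [e, hg] at hL
  exact hL

theorem shift_tendsto {f : ℝ → ℝ} {θ V : ℝ} (hθ : 1 ≤ θ) (hV : ∀ L, 0 ≤ L → |f L| ≤ V)
    (heq : ∀ L, 1 ≤ L → f L = (f (L - 1) + f (L - 1 + θ)) / 2) {a : ℝ} (ha : a = 1 ∨ a = θ) :
    Tendsto (fun L => f (L + a) - f L) atTop (𝓝 0) := by
  rw [Metric.tendsto_nhds]
  intro ε hε
  have h1 := shift_upper hθ hV heq ha (half_pos hε)
  have h2 := shift_upper (f := fun L => -f L) hθ (fun L hL => by rw [abs_neg]; exact hV L hL)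
    (fun L hL => by
      show -f L = (-f (L - 1) + -f (L - 1 + θ)) / 2
      rw [heq L hL]
      ring) ha (half_pos hε)
  filter_upwards [h1, h2] with L h3 h4
  rw [Real.dist_eq, sub_zero, abs_lt]
  constructor <;> linarith

/-- The asymptotic periods. -/
def periods (f : ℝ → ℝ) : AddSubgroup ℝ where
  carrier := {a | Tendsto (fun L => f (L + a) - f L) atTop (𝓝 0)}
  zero_mem' := by simp
  add_mem' := by
    intro a b ha hb
    have h1 : Tendsto (fun L => f (L + a + b) - f (L + a)) atTop (𝓝 0) :=
      (show Tendsto (fun L => f (L + b) - f L) atTop (𝓝 0) from hb).comp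
        (tendsto_atTop_add_const_right atTop a tendsto_id)
    have h2 := h1.add (show Tendsto (fun L => f (L + a) - f L) atTop (𝓝 0) from ha)
    rw [add_zero] at h2
    refine h2.congr fun L => ?_
    have e : L + (a + b) = L + a + b := by ring
    rw [e]
    ring
  neg_mem' := by
    intro a ha
    have h1 : Tendsto (fun L => f (L + -a + a) - f (L + -a)) atTop (𝓝 0) :=
      (show Tendsto (fun L => f (L + a) - f L) atTop (𝓝 0) from ha).comp
        (tendsto_atTop_add_const_right atTop (-a) tendsto_id)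
    have h2 := h1.neg
    rw [neg_zero] at h2
    refine h2.congr fun L => ?_
    have e : L + -a + a = L := by ring
    rw [e]
    ring

theorem shift_all {f : ℝ → ℝ} {θ V : ℝ} (hθ : 1 ≤ θ) (hirr : Irrational θ)
    (hV : ∀ L, 0 ≤ L → |f L| ≤ V) (h0 : ∀ L, 0 ≤ L → 0 ≤ f L)
    (heq : ∀ L, 1 ≤ L → f L = (f (L - 1) + f (L - 1 + θ)) / 2)
    (hmono : ∀ L L', 0 ≤ L → L ≤ L' → f L ≤ (2 : ℝ) ^ (L' - L) * f L') (t : ℝ) :
    Tendsto (fun L => f (L + t) - f L) atTop (𝓝 0) := by
  have hV0 : 0 ≤ V := (abs_nonneg _).trans (hV 0 le_rfl)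
  have hdense : Dense (periods f : Set ℝ) := by
    have h1 : Dense (AddSubgroup.closure {θ, 1} : Set ℝ) := by
      rw [dense_addSubgroupClosure_pair_iff, div_one]
      exact hirr
    refine h1.mono ?_
    have h2 : AddSubgroup.closure {θ, 1} ≤ periods f := by
      rw [AddSubgroup.closure_le]
      intro a ha
      simp only [mem_insert_iff, mem_singleton_iff] at ha
      exact shift_tendsto hθ hV heq (ha.symm)
    exact h2
  rw [Metric.tendsto_nhds]
  intro ε hε
  -- choose `δ`
  obtain ⟨δ, hδ0, hδ⟩ : ∃ δ : ℝ, 0 < δ ∧ ((2 : ℝ) ^ δ - 1) * V ≤ ε / 4 := by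
    have hc : ContinuousAt (fun δ : ℝ => ((2 : ℝ) ^ δ - 1) * V) 0 := by
      apply ContinuousAt.mul _ continuousAt_const
      apply ContinuousAt.sub _ continuousAt_const
      exact Real.continuousAt_const_rpow (by norm_num)
    have h1 := hc.eventually_lt_const (u := ε / 4) (by simpa using by positivity)
    obtain ⟨δ', hδ', h2⟩ := Metric.eventually_nhds_iff.1 h1
    refine ⟨δ' / 2, by positivity, (h2 (y := δ' / 2) ?_).le⟩
    rw [Real.dist_eq, sub_zero, abs_of_pos (by positivity)]
    linarith
  obtain ⟨a, haG, ha1, ha2⟩ := hdense.exists_between (show t - δ < t by linarith)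
  obtain ⟨b, hbG, hb1, hb2⟩ := hdense.exists_between (show t < t + δ by linarith)
  have hA : Tendsto (fun L => f (L + a) - f L) atTop (𝓝 0) := haG
  have hB : Tendsto (fun L => f (L + b) - f L) atTop (𝓝 0) := hbG
  rw [Metric.tendsto_nhds] at hA hB
  filter_upwards [hA (ε / 4) (by positivity), hB (ε / 4) (by positivity),
    eventually_ge_atTop (|a|)] with L h1 h2 h3
  rw [Real.dist_eq, sub_zero, abs_lt] at h1 h2 ⊢
  have hLa : 0 ≤ L + a := by
    have := neg_abs_le a
    linarith
  have pw : ∀ u : ℝ, 0 ≤ u → u ≤ δ → ∀ y : ℝ, 0 ≤ y → y ≤ V → (2 : ℝ) ^ u * y ≤ y + ε / 4 := by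
    intro u hu hu' y hy hy'
    have e1 : (2 : ℝ) ^ u ≤ 2 ^ δ := Real.rpow_le_rpow_of_exponent_le (by norm_num) hu'
    have e2 : (1 : ℝ) ≤ 2 ^ δ := Real.one_le_rpow (by norm_num) hδ0.le
    have e3 : ((2 : ℝ) ^ u - 1) * y ≤ (2 ^ δ - 1) * V :=
      mul_le_mul (by linarith) hy' hy (by linarith)
    linarith
  have k1 := hmono (L + a) (L + t) hLa (by linarith)
  have k2 := hmono (L + t) (L + b) (by linarith) (by linarith)
  have v1 := (abs_le.1 (hV (L + t) (by linarith))).2
  have v2 := (abs_le.1 (hV (L + b) (by linarith))).2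
  have k3 := pw (L + t - (L + a)) (by linarith) (by linarith) (f (L + t)) (h0 _ (by linarith)) v1
  have k4 := pw (L + b - (L + t)) (by linarith) (by linarith) (f (L + b)) (h0 _ (by linarith)) v2
  constructor <;> linarith

theorem intervalIntegrable_of_mono {f : ℝ → ℝ}
    (hmono : ∀ L L', 0 ≤ L → L ≤ L' → f L ≤ (2 : ℝ) ^ (L' - L) * f L') {a b : ℝ} (ha : 0 ≤ a)
    (hb : 0 ≤ b) : IntervalIntegrable f MeasureTheory.volume a b := by
  have h1 : MonotoneOn (fun L : ℝ => (2 : ℝ) ^ L * f L) (uIcc a b) := by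
    intro x hx y hy hxy
    have hx0 : 0 ≤ x := (le_min ha hb).trans hx.1
    have h2 := hmono x y hx0 hxy
    show (2 : ℝ) ^ x * f x ≤ (2 : ℝ) ^ y * f y
    have e : (2 : ℝ) ^ y = 2 ^ x * 2 ^ (y - x) := by
      rw [← Real.rpow_add (by norm_num)]
      congr 1
      ring
    rw [e, mul_assoc]
    exact mul_le_mul_of_nonneg_left h2 (by positivity)
  have h2 := h1.intervalIntegrable (μ := MeasureTheory.volume)
  have hc : ContinuousOn (fun L : ℝ => (2 : ℝ) ^ (-L)) (uIcc a b) := by
    apply Continuous.continuousOn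
    exact (Real.continuous_const_rpow (by norm_num)).comp continuous_neg
  have h3 := h2.continuousOn_mul hc
  refine h3.congr ?_
  intro x _
  show (2 : ℝ) ^ (-x) * ((2 : ℝ) ^ x * f x) = f x
  rw [← mul_assoc, ← Real.rpow_add (by norm_num)]
  simp

/-- The renewal theorem. -/
theorem exists_limit {f : ℝ → ℝ} {θ V : ℝ} (hθ : 1 ≤ θ) (hθ2 : θ < 2) (hirr : Irrational θ)
    (hV : ∀ L, 0 ≤ L → |f L| ≤ V) (h0 : ∀ L, 0 ≤ L → 0 ≤ f L)
    (heq : ∀ L, 1 ≤ L → f L = (f (L - 1) + f (L - 1 + θ)) / 2)
    (hmono : ∀ L L', 0 ≤ L → L ≤ L' → f L ≤ (2 : ℝ) ^ (L' - L) * f L') :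
    ∃ r : ℝ, Tendsto f atTop (𝓝 r) := by
  have hint : ∀ a b : ℝ, 0 ≤ a → 0 ≤ b → IntervalIntegrable f MeasureTheory.volume a b :=
    fun a b ha hb => intervalIntegrable_of_mono hmono ha hb
  -- the primitive
  obtain ⟨F, hF⟩ : ∃ F : ℝ → ℝ, F = fun x => ∫ u in (0 : ℝ)..x, f u := ⟨_, rfl⟩
  have hFsub : ∀ a b : ℝ, 0 ≤ a → 0 ≤ b → ∫ u in a..b, f u = F b - F a := by
    intro a b ha hb
    rw [hF]
    exact (intervalIntegral.integral_interval_sub_left (hint 0 b le_rfl hb)
      (hint 0 a le_rfl ha)).symm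
  -- the invariant
  have hinv : ∀ b : ℝ, 1 ≤ b → 2 * F b - F (b - 1) - F (b - 1 + θ) =
      2 * F 1 - F 0 - F θ := by
    intro b hb
    have h1 : ∫ u in (1 : ℝ)..b, f u = ∫ u in (1 : ℝ)..b, (f (u - 1) + f (u - 1 + θ)) / 2 := by
      apply intervalIntegral.integral_congr
      intro u hu
      rw [uIcc_of_le hb] at hu
      exact heq u hu.1
    have h2 : ∫ u in (1 : ℝ)..b, f (u - 1) = F (b - 1) - F 0 := by
      rw [intervalIntegral.integral_comp_sub_right (fun u => f u) 1, sub_self,
        hFsub 0 (b - 1) le_rfl (by linarith)]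
    have h3 : ∫ u in (1 : ℝ)..b, f (u - 1 + θ) = F (b - 1 + θ) - F θ := by
      have e : ∀ u : ℝ, u - 1 + θ = u + (θ - 1) := fun u => by ring
      simp only [e]
      rw [intervalIntegral.integral_comp_add_right (fun u => f u) (θ - 1)]
      have e2 : 1 + (θ - 1) = θ := by ring
      rw [e2, hFsub θ (b + (θ - 1)) (by linarith) (by linarith)]
    have i2 : IntervalIntegrable (fun u => f (u - 1)) MeasureTheory.volume 1 b := by
      have := (hint 0 (b - 1) le_rfl (by linarith)).comp_sub_right 1
      simpa using this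
    have i3 : IntervalIntegrable (fun u => f (u - 1 + θ)) MeasureTheory.volume 1 b := by
      have := (hint θ (b - 1 + θ) (by linarith) (by linarith)).comp_add_right (θ - 1)
      have e1 : θ - (θ - 1) = 1 := by ring
      have e2 : b - 1 + θ - (θ - 1) = b := by ring
      rw [e1, e2] at this
      refine this.congr ?_
      intro u _
      show f (u + (θ - 1)) = f (u - 1 + θ)
      congr 1
      ring
    rw [intervalIntegral.integral_div, intervalIntegral.integral_add i2 i3, h2, h3,
      hFsub 1 b (by norm_num) (by linarith)] at h1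
    linarith
  -- the two averages
  have hshift := shift_all hθ hirr hV h0 heq hmono
  have hV0 : 0 ≤ V := (abs_nonneg _).trans (hV 0 le_rfl)
  have avg : ∀ s c : ℝ, 0 ≤ s → Tendsto (fun L => ∫ u in (0 : ℝ)..s, (f (L + (u - c)) - f L)) atTop
      (𝓝 0) := by
    intro s c hs
    have h1 : Tendsto (fun L => ∫ u in (0 : ℝ)..s, (f (L + (u - c)) - f L)) atTop
        (𝓝 (∫ _u in (0 : ℝ)..s, (0 : ℝ))) := by
      apply intervalIntegral.tendsto_integral_filter_of_dominated_convergence (fun _ => 2 * V)
      · filter_upwards [eventually_ge_atTop |c|] with L hL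
        have hc1 := le_abs_self c
        have h2 := (hint (L - c) (L - c + s) (by linarith) (by linarith)).comp_add_right (L - c)
        have e1 : L - c - (L - c) = 0 := by ring
        have e2 : L - c + s - (L - c) = s := by ring
        rw [e1, e2] at h2
        have h3 := h2.sub (intervalIntegrable_const (c := f L) (μ := MeasureTheory.volume)
          (a := 0) (b := s))
        have h4 := h3.aestronglyMeasurable_restrict_uIoc
        refine h4.congr (Eventually.of_forall fun u => ?_)
        show f (u + (L - c)) - f L = f (L + (u - c)) - f L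
        congr 2
        ring
      · filter_upwards [eventually_ge_atTop |c|] with L hL
        refine Eventually.of_forall fun u hu => ?_
        rw [uIoc_of_le hs] at hu
        have hc1 := le_abs_self c
        have hc0 := abs_nonneg c
        have v1 := hV (L + (u - c)) (by linarith [hu.1])
        have v2 := hV L (by linarith)
        rw [Real.norm_eq_abs]
        calc |f (L + (u - c)) - f L| ≤ |f (L + (u - c))| + |f L| := abs_sub _ _
          _ ≤ 2 * V := by linarith
      · exact intervalIntegrable_const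
      · exact Eventually.of_forall fun u _ => hshift (u - c)
    simpa using h1
  obtain ⟨c, hc⟩ : ∃ c : ℝ, c = 2 * F 1 - F 0 - F θ := ⟨_, rfl⟩
  have t1 := avg 1 1 zero_le_one
  have t2 := avg (θ - 1) 0 (by linarith)
  have key : ∀ L : ℝ, 1 ≤ L → (2 - θ) * f L = c -
      ((∫ u in (0 : ℝ)..1, (f (L + (u - 1)) - f L)) -
        ∫ u in (0 : ℝ)..(θ - 1), (f (L + (u - 0)) - f L)) := by
    intro L hL
    have i1 : ∫ u in (0 : ℝ)..1, (f (L + (u - 1)) - f L) = F L - F (L - 1) - f L := by
      have e : ∀ u : ℝ, L + (u - 1) = u + (L - 1) := fun u => by ring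
      simp only [e]
      have h2 := (hint (L - 1) L (by linarith) (by linarith)).comp_add_right (L - 1)
      have e1 : L - 1 - (L - 1) = 0 := by ring
      have e2 : L - (L - 1) = 1 := by ring
      rw [e1, e2] at h2
      rw [intervalIntegral.integral_sub h2 intervalIntegrable_const,
        intervalIntegral.integral_comp_add_right (fun u => f u) (L - 1),
        intervalIntegral.integral_const]
      have e3 : 0 + (L - 1) = L - 1 := by ring
      have e4 : 1 + (L - 1) = L := by ring
      rw [e3, e4, hFsub (L - 1) L (by linarith) (by linarith)]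
      simp
    have i2 : ∫ u in (0 : ℝ)..(θ - 1), (f (L + (u - 0)) - f L) =
        F (L - 1 + θ) - F L - (θ - 1) * f L := by
      have e : ∀ u : ℝ, L + (u - 0) = u + L := fun u => by ring
      simp only [e]
      have h2 := (hint L (L - 1 + θ) (by linarith) (by linarith)).comp_add_right L
      have e1 : L - L = 0 := by ring
      have e2 : L - 1 + θ - L = θ - 1 := by ring
      rw [e1, e2] at h2
      rw [intervalIntegral.integral_sub h2 intervalIntegrable_const,
        intervalIntegral.integral_comp_add_right (fun u => f u) L,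
        intervalIntegral.integral_const]
      have e3 : 0 + L = L := by ring
      have e4 : θ - 1 + L = L - 1 + θ := by ring
      rw [e3, e4, hFsub L (L - 1 + θ) (by linarith) (by linarith)]
      simp
    rw [i1, i2, hc]
    have := hinv L hL
    linarith
  have hlim : Tendsto (fun L => (2 - θ) * f L) atTop (𝓝 c) := by
    have h1 := (tendsto_const_nhds (x := c)).sub (t1.sub t2)
    simp only [sub_zero] at h1
    refine h1.congr' ?_
    filter_upwards [eventually_ge_atTop 1] with L hL
    rw [key L hL]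
    simp only [sub_zero]
  refine ⟨c / (2 - θ), ?_⟩
  have h2 : (2 - θ) ≠ 0 := by linarith
  have h3 := hlim.div_const (2 - θ)
  refine h3.congr fun L => ?_
  field_simp

end Pool.Agent.Collatz3.RN
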