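import Pool.Agent.Collatz3.LTLow

set_option autoImplicit false

/-!
Construction of many paths of a given slope which stay above a given level.
-/

open Finset
open scoped Classical

namespace Pool.Agent.Collatz3.SB

open Pool.Agent.Collatz3.LT

/-- number of steps of the constructed paths -/
noncomputable def SS (ρ d : ℝ) (n : ℕ) : ℕ := ⌊(Real.log 2 / ρ + d) * n / Real.log 2⌋₊

theorem jj_pow_mul (j x : ℕ) : jj (wd j (2 ^ j * x)) = 0 := by
  induction j generalizing x with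
  | zero => simp [wd]
  | succ j ih =>
    have e : 2 ^ (j + 1) * x = 2 * (2 ^ j * x) := by ring
    rw [wd, e, T3_two_mul, jj_append, ih, decide_eq_false (by omega)]
    simp

/-- the padded node: the path of a word of letters preceded by even steps -/
theorem pad {m n S : ℕ} {w : List ℕ} {c : ℤ} (hm : 0 < m) (hup : Up (m : ℤ) w c)
    (hw : ∀ i ∈ w, 1 ≤ i) (hlen : w.length = n) (hS : w.sum ≤ S) :
    T3^[S] (2 ^ (S - w.sum) * c.toNat) = m ∧ jj (wd S (2 ^ (S - w.sum) * c.toNat)) = n := by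
  have hm' : (0 : ℤ) < m := by exact_mod_cast hm
  have e : S = w.sum + (S - w.sum) := by omega
  have h1 : T3^[w.sum] c.toNat = m := by simpa using hup.iter hm' hw
  have h2 := jj_of_up hup hm' hw
  constructor
  · have h3 : T3^[S] (2 ^ (S - w.sum) * c.toNat) =
        T3^[w.sum + (S - w.sum)] (2 ^ (S - w.sum) * c.toNat) := by rw [← e]
    rw [h3, Function.iterate_add_apply, T3_iter_pow, h1]
  · have h3 : wd S (2 ^ (S - w.sum) * c.toNat) =
        wd (w.sum + (S - w.sum)) (2 ^ (S - w.sum) * c.toNat) := by rw [← e]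
    rw [h3, wd_add, jj_append, T3_iter_pow, h2, hlen, jj_pow_mul]
    simp

/-- a node is at most a power of two times its iterate -/
theorem le_pow_iter (k b : ℕ) : b ≤ 2 ^ k * T3^[k] b := by
  have h := wd_spec k b
  have h1 : b ≤ 3 ^ jj (wd k b) * b := Nat.le_mul_of_pos_left _ (by positivity)
  omega

/-- the numbers of `(M, 2 M]` prime to 3 -/
theorem card_prime (M : ℕ) : 2 * M ≤ 3 * ((Ioc M (2 * M)).filter fun m => ¬ 3 ∣ m).card + 2 := by
  have h1 := Finset.card_filter_add_card_filter_not (s := Ioc M (2 * M)) (fun m => 3 ∣ m)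
  rw [Nat.card_Ioc] at h1
  have h2 : ((Ioc M (2 * M)).filter fun m => 3 ∣ m).card ≤ (2 * M) / 3 - M / 3 := by
    have : (Ioc M (2 * M)).filter (fun m => 3 ∣ m) ⊆ (Ioc (M / 3) (2 * M / 3)).image (3 * ·) := by
      intro m hm
      rw [mem_filter, mem_Ioc] at hm
      obtain ⟨⟨h3, h4⟩, j, rfl⟩ := hm
      rw [mem_image]
      exact ⟨j, by rw [mem_Ioc]; omega, rfl⟩
    refine (card_le_card this).trans (card_image_le.trans ?_)
    rw [Nat.card_Ioc]
  omega

theorem construction {ρ : ℝ} (h0 : 0 < ρ) (h1 : ρ < 1) (hρ : ρ * Real.log 3 < Real.binEntropy ρ)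
    {d : ℝ} (hd : 0 < d) : ∃ N₀ : ℕ, ∀ n : ℕ, N₀ ≤ n → ∀ M L : ℕ,
      6 * (L + 1) * (SS ρ d n + 1) ≤ M →
      Real.exp ((Real.binEntropy ρ / ρ - Real.log 3 - d) * n) * M / (4 * (SS ρ d n + 1)) ≤
        ((({b : ℕ | M < T3^[SS ρ d n] b ∧ T3^[SS ρ d n] b ≤ 2 * M ∧ jj (wd (SS ρ d n) b) = n ∧
          ∀ k ≤ SS ρ d n, L < T3^[k] b}.ncard : ℕ)) : ℝ) := by
  obtain ⟨N₀, hN₀⟩ := growth_of_rho all_tilts h0 h1 hρ d hd
  refine ⟨N₀ + 1, fun n hn M L hML => ?_⟩
  set S := SS ρ d n with hS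
  have hM6 : 6 ≤ M := by
    have : 1 ≤ (L + 1) * (S + 1) := Nat.mul_pos (Nat.succ_pos _) (Nat.succ_pos _)
    nlinarith
  set B : ℝ := Real.exp ((Real.log 2 / ρ + d) * n) with hB
  set T : Set ℕ := {b : ℕ | M < T3^[S] b ∧ T3^[S] b ≤ 2 * M ∧ jj (wd S b) = n ∧
    ∀ k ≤ S, L < T3^[k] b} with hT
  have hTfin : T.Finite := by
    refine (Set.finite_Iic (2 ^ S * (2 * M))).subset ?_
    rintro b ⟨_, hb, _⟩
    exact (le_pow_iter S b).trans (Nat.mul_le_mul_left _ hb)
  -- the bad end points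
  set Bad : Finset ℕ := (range (S + 1) ×ˢ range (L + 1)).image fun p => T3^[p.1] p.2 with hBad
  have hBadc : Bad.card ≤ (S + 1) * (L + 1) := by
    refine card_image_le.trans ?_
    rw [card_product, card_range, card_range]
  set G : Finset ℕ := ((Ioc M (2 * M)).filter fun m => ¬ 3 ∣ m) \ Bad with hG
  have hGc : M ≤ 4 * G.card := by
    have e1 := card_prime M
    have e2 := Finset.le_card_sdiff Bad ((Ioc M (2 * M)).filter fun m => ¬ 3 ∣ m)
    rw [← hG] at e2
    have e3 : 6 * ((S + 1) * (L + 1)) ≤ M := by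
      refine le_trans (le_of_eq ?_) hML
      ring
    omega
  -- the words
  set P : ℕ → Finset (List ℕ) := fun m => (paths_finite (m : ℤ) n B).toFinset with hP
  have hPc : ∀ m, (P m).card = cnt (m : ℤ) n B := fun m => by
    rw [cnt, Set.ncard_eq_toFinset_card _ (paths_finite (m : ℤ) n B)]
  let f : (Σ _ : ℕ, List ℕ) → ℕ := fun p =>
    if h : Ok (p.1 : ℤ) p.2 then 2 ^ (S - p.2.sum) * (Classical.choose h).toNat else 0
  have hf : ∀ p ∈ G.sigma P, ∃ c : ℤ, Up (p.1 : ℤ) p.2 c ∧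
      f p = 2 ^ (S - p.2.sum) * c.toNat ∧ 0 < p.1 ∧ (∀ i ∈ p.2, 1 ≤ i) ∧ p.2.length = n ∧
      p.2.sum ≤ S := by
    rintro ⟨m, w⟩ hp
    rw [mem_sigma] at hp
    obtain ⟨hp1, hp2⟩ := hp
    dsimp only at hp1 hp2 ⊢
    rw [hG, mem_sdiff, mem_filter, mem_Ioc] at hp1
    rw [hP, Set.Finite.mem_toFinset] at hp2
    obtain ⟨q1, q2, q3, q4⟩ := hp2
    refine ⟨Classical.choose q4, (Classical.choose_spec q4).1, ?_, by omega, q2, q1, ?_⟩
    · simp only [f, dif_pos q4]
    · have e1 : (2 : ℝ) ^ w.sum ≤ B := by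
        refine le_trans ?_ q3
        unfold size
        push_cast
        have : (0 : ℝ) ≤ (cw w : ℝ) := Nat.cast_nonneg _
        linarith
      have e2 := Real.log_le_log (by positivity) e1
      rw [Real.log_pow, hB, Real.log_exp] at e2
      rw [hS, SS]
      apply Nat.le_floor
      rw [le_div_iff₀ log2_pos]
      exact e2
  have hfT : ∀ p ∈ G.sigma P, f p ∈ T ∧ T3^[S] (f p) = p.1 := by
    intro p hp
    obtain ⟨c, c1, c2, c3, c4, c5, c6⟩ := hf p hp
    obtain ⟨t1, t2⟩ := pad c3 c1 c4 c5 c6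
    rw [← c2] at t1 t2
    refine ⟨?_, t1⟩
    rw [mem_sigma] at hp
    have hp1 := hp.1
    rw [hG, mem_sdiff, mem_filter, mem_Ioc] at hp1
    refine ⟨by rw [t1]; exact hp1.1.1.1, by rw [t1]; exact hp1.1.1.2, t2, ?_⟩
    intro k hk
    by_contra hcon
    push Not at hcon
    apply hp1.2
    rw [hBad, mem_image]
    refine ⟨(S - k, T3^[k] (f p)), ?_, ?_⟩
    · rw [mem_product, mem_range, mem_range]
      dsimp only
      omega
    · dsimp only
      rw [← Function.iterate_add_apply, Nat.sub_add_cancel hk, t1]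
  have hinj : Set.InjOn f (G.sigma P : Finset (Σ _ : ℕ, List ℕ)) := by
    intro p hp p' hp' hpp
    rw [Finset.mem_coe] at hp hp'
    have t1 := (hfT p hp).2
    have t2 := (hfT p' hp').2
    rw [← hpp, t1] at t2
    obtain ⟨c, c1, c2, c3, c4, c5, c6⟩ := hf p hp
    obtain ⟨c', c1', c2', c3', c4', c5', c6'⟩ := hf p' hp'
    obtain ⟨m, w⟩ := p
    obtain ⟨m', w'⟩ := p'
    dsimp only at c1 c2 c3 c4 c5 c6 c1' c2' c3' c4' c5' c6' t2
    subst t2
    have hm : (0 : ℤ) < m := by exact_mod_cast c3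
    have o1 := c1.odd c4 (by rintro rfl; simp at c5; omega)
    have o2 := c1'.odd c4' (by rintro rfl; simp at c5'; omega)
    have p1 := c1.pos hm c4
    have p2 := c1'.pos hm c4'
    rw [c2, c2'] at hpp
    obtain ⟨C, hC⟩ : ∃ C : ℕ, C = c.toNat := ⟨_, rfl⟩
    obtain ⟨C', hC'⟩ : ∃ C : ℕ, C = c'.toNat := ⟨_, rfl⟩
    rw [← hC, ← hC'] at hpp
    have oC : C % 2 = 1 := by omega
    have oC' : C' % 2 = 1 := by omega
    have key : ∀ i j x y : ℕ, x % 2 = 1 → y % 2 = 1 → 2 ^ i * x = 2 ^ j * y → i ≤ j := by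
      intro i j x y hx hy hxy
      by_contra hcon
      push Not at hcon
      obtain ⟨t, rfl⟩ : ∃ t, i = j + (t + 1) := ⟨i - j - 1, by omega⟩
      rw [pow_add, mul_assoc] at hxy
      have := Nat.eq_of_mul_eq_mul_left (by positivity) hxy
      rw [pow_succ, mul_comm (2 ^ t) 2, mul_assoc] at this
      omega
    have hle := key _ _ _ _ oC oC' hpp
    have hge := key _ _ _ _ oC' oC hpp.symm
    have heq : S - w.sum = S - w'.sum := le_antisymm hle hge
    have hsum : w.sum = w'.sum := by omega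
    rw [heq] at hpp
    have hCC := Nat.eq_of_mul_eq_mul_left (by positivity) hpp
    have hcc : c = c' := by omega
    have hww : w = w' := by
      refine word_inj w w' c4 c4' (by rw [c5, c5']) hsum ?_
      have e1 := c1.rel
      have e2 := c1'.rel
      rw [hsum, c5, hcc] at e1
      rw [c5'] at e2
      have e3 : (cw w : ℤ) = cw w' := by linarith
      exact_mod_cast e3
    rw [hww]
  have hcard : (G.sigma P).card ≤ T.ncard := by
    have e1 : ((G.sigma P).image f : Set ℕ) ⊆ T := by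
      intro b hb
      rw [Finset.mem_coe, mem_image] at hb
      obtain ⟨p, hp, rfl⟩ := hb
      exact (hfT p hp).1
    have e2 := Set.ncard_le_ncard e1 hTfin
    rw [Set.ncard_coe_finset, card_image_of_injOn hinj] at e2
    exact e2
  rw [card_sigma] at hcard
  have hsum : (G.card : ℝ) * Real.exp ((Real.binEntropy ρ / ρ - Real.log 3 - d) * n) ≤
      ((∑ m ∈ G, (P m).card : ℕ) : ℝ) := by
    rw [← nsmul_eq_mul, ← sum_const]
    push_cast
    refine sum_le_sum fun m hm => ?_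
    rw [hPc]
    refine hN₀ n (by omega) m ?_
    rw [hG, mem_sdiff, mem_filter] at hm
    intro h3
    exact hm.1.2 (by exact_mod_cast h3)
  have h5 : ((∑ m ∈ G, (P m).card : ℕ) : ℝ) ≤ (T.ncard : ℝ) := by exact_mod_cast hcard
  refine le_trans ?_ (hsum.trans h5)
  rw [div_le_iff₀ (by positivity)]
  have h6 : (M : ℝ) ≤ 4 * G.card := by exact_mod_cast hGc
  have h7 : (0 : ℝ) ≤ S := Nat.cast_nonneg _
  have h8 : (0 : ℝ) ≤ (G.card : ℝ) := Nat.cast_nonneg _
  have h9 : (0 : ℝ) < Real.exp ((Real.binEntropy ρ / ρ - Real.log 3 - d) * n) := Real.exp_pos _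
  calc Real.exp ((Real.binEntropy ρ / ρ - Real.log 3 - d) * n) * M ≤
      Real.exp ((Real.binEntropy ρ / ρ - Real.log 3 - d) * n) * (4 * G.card) :=
        mul_le_mul_of_nonneg_left h6 h9.le
    _ = (G.card * Real.exp ((Real.binEntropy ρ / ρ - Real.log 3 - d) * n)) * (4 * 1) := by ring
    _ ≤ (G.card * Real.exp ((Real.binEntropy ρ / ρ - Real.log 3 - d) * n)) * (4 * (S + 1)) := by
        refine mul_le_mul_of_nonneg_left ?_ (by positivity)
        linarith

end Pool.Agent.Collatz3.SB
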