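import Pool.Agent.Collatz3.LTGrow
import Pool.Agent.Collatz3.LTPath

set_option autoImplicit false

/-!
Strong barrier words of the inverse 3x+1 map: heights are measured relative to a line of slope `v`.
The definitions of words, readability and nodes are those of the namespace `LT`.
-/

open Finset
open scoped Classical

namespace Pool.Agent.Collatz3.SB

open Pool.Agent.Collatz3.LT (jj cc Read nd WL)

/-- the slope `v` of the barrier and a growth exponent `κ` of the number of letters -/
class Par where
  v : ℝ
  κ : ℝ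
  v_nonneg : 0 ≤ v
  v_lt : v < Real.log 2
  κ_nonneg : 0 ≤ κ

variable [Par]

/-- height of a step 0 -/
noncomputable def Lv : ℝ := Real.log 2 - Par.v

/-- relative height after `n` steps, `l` of which are ones -/
noncomputable def hh (n l : ℕ) : ℝ := n * Lv - l * Real.log 3

/-- relative height of a word -/
noncomputable def ht (w : List Bool) : ℝ := hh w.length (jj w)

/-- strong barrier words: all nonempty prefixes have positive relative height -/
def Bar (w : List Bool) : Prop := ∀ i, 1 ≤ i → i ≤ w.length → 0 < ht (w.take i)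

/-- strong barrier words of length `n` readable at `x` -/
noncomputable def BR (n : ℕ) (x : ℤ) : Finset (List Bool) := (WL n).filter fun w => Bar w ∧ Read x w

/-- number of strong barrier words of length `n` with `l` ones readable at `x` -/
noncomputable def NN (n l : ℕ) (x : ℤ) : ℕ := ((BR n x).filter fun w => jj w = l).card

/-- tilted number of strong barrier words -/
noncomputable def AA (θ : ℝ) (n : ℕ) (x : ℤ) : ℝ := ∑ w ∈ BR n x, Real.exp (-θ * ht w)

/-- growth exponent of the largest tilted number -/
noncomputable def lam (θ : ℝ) : ℝ :=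
  sInf {μ : ℝ | ∃ C : ℝ, ∀ (n : ℕ) (x : ℤ), AA θ n x ≤ C * Real.exp (μ * n)}

/-- growth exponent of the mean -/
noncomputable def Lam (θ : ℝ) : ℝ := Real.log (Real.exp (-θ * Lv) * (1 + (3 : ℝ) ^ (θ - 1)))

/-- bound for the number of letters (words between consecutive cuts) -/
def Letters : Prop := ∃ C : ℝ, 0 < C ∧ ∀ (l : ℕ) (x : ℤ),
  (((BR l x).filter fun a => ht a ≤ Real.log 2).card : ℝ) ≤ C * Real.exp (Par.κ * l)

/-- number of positions of `w` not followed by a cut within `K` steps -/
noncomputable def bad (K : ℕ) (w : List Bool) : ℕ :=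
  ((range w.length).filter fun t => ∀ s < K, ¬ Bar (w.drop (t + s))).card

/-! ### paths -/

/-- the paths all of whose later relative heights are positive -/
def Cu : Set UB.PathZ := {ω | ∀ s, 1 ≤ s → 0 < hh s (ω.j s)}

/-- no cut among the first `K` positions -/
def NoCut (K : ℕ) : Set UB.PathZ := {ω | ∀ s < K, UB.PathZ.T^[s] ω ∉ Cu}

/-- entropy of the process -/
def ME (θ : ℝ) (P : UB.FAP UB.PathZ) : Prop := ∀ k N : ℕ,
  k * (lam θ + θ * (Lv - LT.q1 P * Real.log 3)) ≤
    P.H (fun ω => (UB.PathZ.W k ω, ω.b 0 % 3 ^ N)) - P.H (fun ω : UB.PathZ => ω.b 0 % 3 ^ N)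

/-- there are many cuts -/
def CUT (P : UB.FAP UB.PathZ) : Prop := ∀ ε : ℝ, 0 < ε → ∃ K : ℕ, P.m (NoCut K) ≤ ε

/-! ### potentials -/

/-- weight of a word -/
noncomputable def wt (z θ : ℝ) (w : List Bool) : ℝ := z ^ w.length * Real.exp (-θ * ht w)

/-- potentials: words of length at most `M` with `l` ones -/
noncomputable def VV (z θ : ℝ) (M l : ℕ) (x : ℤ) : ℝ :=
  ∑ k ∈ range (M + 1), ∑ w ∈ (BR k x).filter (fun w => jj w = l), wt z θ w

/-- smoothed potentials -/
noncomputable def VB (z θ t : ℝ) (M l : ℕ) (x : ℤ) : ℝ :=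
  ∑ i ∈ range (l + 1), Real.exp (-t * (l - i : ℕ)) * VV z θ M i x

end Pool.Agent.Collatz3.SB
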