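import Pool.Agent.Collatz3.LTMain

set_option autoImplicit false

/-!
Theorem U, module FAST: the numbers which come below `L` within `K` steps.
-/

open Finset
open scoped Classical

namespace Pool.Agent.Collatz3.SB

open Pool.Agent.Collatz3.LT

namespace Fast

theorem iter_pos' {n : ℕ} (hn : 0 < n) (k : ℕ) : 0 < T3^[k] n := by
  induction k with
  | zero => exact hn
  | succ k ih =>
    rw [Function.iterate_succ_apply']
    generalize T3^[k] n = b at ih ⊢
    unfold T3
    split_ifs <;> omega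

theorem prod_le_e {k n : ℕ} (h : ∀ i < k, k ≤ T3^[i] n) (hk : 1 ≤ k) :
    ∏ i ∈ range k, (1 + 1 / ((T3^[i] n : ℕ) : ℝ)) ≤ Real.exp 1 := by
  have hk0 : (0 : ℝ) < k := by exact_mod_cast hk
  calc ∏ i ∈ range k, (1 + 1 / ((T3^[i] n : ℕ) : ℝ)) ≤ ∏ _i ∈ range k, Real.exp (1 / k) := by
        refine prod_le_prod (fun i _ => by positivity) fun i hi => ?_
        have h1 : (k : ℝ) ≤ (T3^[i] n : ℕ) := by exact_mod_cast h i (mem_range.1 hi)
        have h2 : 1 / ((T3^[i] n : ℕ) : ℝ) ≤ 1 / k := one_div_le_one_div_of_le hk0 h1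
        have h3 := Real.add_one_le_exp (1 / (k : ℝ))
        linarith
    _ = Real.exp 1 := by
        rw [prod_const, card_range, ← Real.exp_nat_mul]
        congr 1
        field_simp

/-- the word of a first passage is a barrier word -/
theorem bar {k n L : ℕ} (hk : T3^[k] n ≤ L) (hmin : ∀ j < k, L < T3^[j] n) :
    Bar (wd k n) := by
  intro i hi1 hi2
  rw [wd_length] at hi2
  have h3 : (wd k n).take i = wd i (T3^[k - i] n) := by
    have := wd_add i (k - i) n
    rw [Nat.add_sub_cancel' hi2] at this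
    rw [this, List.take_left' (wd_length _ _)]
  rw [h3]
  have h4 := node_le i (T3^[k - i] n)
  have h5 : T3^[i] (T3^[k - i] n) = T3^[k] n := by
    rw [← Function.iterate_add_apply, Nat.add_sub_cancel' hi2]
  rw [h5] at h4
  have h6 := hmin (k - i) (by omega)
  have h7 : ((T3^[k] n : ℕ) : ℝ) < (T3^[k - i] n : ℕ) := by exact_mod_cast hk.trans_lt h6
  by_contra hcon
  push Not at hcon
  have h8 : Real.exp (ht (wd i (T3^[k - i] n))) ≤ 1 := Real.exp_le_one_iff.2 hcon
  have h9 : (0 : ℝ) ≤ (T3^[k] n : ℕ) := Nat.cast_nonneg _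
  nlinarith

/-- the height of the word of a first passage -/
theorem height {k n L : ℕ} (hn : 0 < n) (hkL : k ≤ L) (hk1 : 1 ≤ k)
    (hmin : ∀ j < k, L < T3^[j] n) :
    ((T3^[k] n : ℕ) : ℝ) * Real.exp (ht (wd k n)) ≤ Real.exp 1 * n := by
  have h1 := node_prod k n (iter_pos' hn k)
  have h2 := prod_le_e (k := k) (n := n) (fun i hi => by have := hmin i hi; omega) hk1
  unfold ht
  rw [exp_hh, wd_length, mul_div_assoc', div_le_iff₀ (by positivity)]
  calc ((T3^[k] n : ℕ) : ℝ) * 2 ^ k = 2 ^ k * (T3^[k] n : ℕ) := mul_comm _ _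
    _ ≤ 3 ^ jj (wd k n) * n * ∏ i ∈ range k, (1 + 1 / ((T3^[i] n : ℕ) : ℝ)) := h1
    _ ≤ 3 ^ jj (wd k n) * n * Real.exp 1 := mul_le_mul_of_nonneg_left h2 (by positivity)
    _ = _ := by ring

/-- the weight of a number -/
theorem weight {x m n h θ : ℝ} (hm : 0 < m) (hn0 : x < 2 * n) (hn1 : n ≤ x) (hx : 0 < x)
    (h1 : n ≤ m * Real.exp h) (h2 : m * Real.exp h ≤ Real.exp 1 * n) :
    1 ≤ Real.exp |θ| * (x / m) ^ θ * Real.exp (-θ * h) := by
  have hq : 0 < x / m := by positivity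
  have hn : 0 < n := by linarith
  -- `log (x / m) - h` lies between `-1` and `1`
  have h3 : Real.log n ≤ Real.log m + h := by
    have := Real.log_le_log hn h1
    rwa [Real.log_mul hm.ne' (Real.exp_pos _).ne', Real.log_exp] at this
  have h4 : Real.log m + h ≤ 1 + Real.log n := by
    have := Real.log_le_log (by positivity) h2
    rwa [Real.log_mul hm.ne' (Real.exp_pos _).ne', Real.log_exp,
      Real.log_mul (Real.exp_pos _).ne' hn.ne', Real.log_exp] at this
  have h5 : Real.log n ≤ Real.log x := Real.log_le_log hn hn1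
  have h6 : Real.log x ≤ Real.log 2 + Real.log n := by
    have := Real.log_le_log hx hn0.le
    rwa [Real.log_mul (by norm_num) hn.ne'] at this
  have h7 : Real.log 2 < 1 := by
    have := Real.log_two_lt_d9
    linarith
  have h8 : Real.log (x / m) = Real.log x - Real.log m := Real.log_div hx.ne' hm.ne'
  rw [Real.rpow_def_of_pos hq, ← Real.exp_add, ← Real.exp_add]
  apply Real.one_le_exp
  have h9 : |θ * (Real.log (x / m) - h)| ≤ |θ| * 1 := by
    rw [abs_mul]
    refine mul_le_mul_of_nonneg_left ?_ (abs_nonneg _)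
    rw [abs_le]
    constructor <;> linarith
  have h10 := neg_abs_le (θ * (Real.log (x / m) - h))
  nlinarith

/-- the sum over the end points -/
theorem sum_ends {θ : ℝ} (hθ : θ < 1) {x L : ℕ} (hx : 0 < x) :
    ∑ m ∈ Icc 1 L, ((x : ℝ) / (m : ℕ)) ^ θ ≤
      (Real.log L + 1) * ((x : ℝ) ^ θ * (L : ℝ) ^ (1 - θ)) := by
  have hx0 : (0 : ℝ) < x := by exact_mod_cast hx
  have h1 : ∀ m ∈ Icc 1 L, ((x : ℝ) / (m : ℕ)) ^ θ ≤
      ((x : ℝ) ^ θ * (L : ℝ) ^ (1 - θ)) * ((m : ℕ) : ℝ)⁻¹ := by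
    intro m hm
    rw [mem_Icc] at hm
    have hm0 : (0 : ℝ) < m := by exact_mod_cast hm.1
    have hmL : (m : ℝ) ≤ L := by exact_mod_cast hm.2
    have h2 : (m : ℝ) ^ (1 - θ) ≤ (L : ℝ) ^ (1 - θ) :=
      Real.rpow_le_rpow hm0.le hmL (by linarith)
    have h3 : ((m : ℝ) ^ θ)⁻¹ = (m : ℝ) ^ (1 - θ) * (m : ℝ)⁻¹ := by
      rw [← Real.rpow_neg hm0.le, ← Real.rpow_neg_one, ← Real.rpow_add hm0]
      congr 1
      ring
    rw [Real.div_rpow hx0.le hm0.le, div_eq_mul_inv, h3, mul_assoc]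
    refine mul_le_mul_of_nonneg_left ?_ (by positivity)
    exact mul_le_mul_of_nonneg_right h2 (by positivity)
  refine (sum_le_sum h1).trans ?_
  rw [← mul_sum, mul_comm]
  refine mul_le_mul_of_nonneg_right ?_ (by positivity)
  have h4 := harmonic_le_one_add_log L
  rw [harmonic_eq_sum_Icc] at h4
  push_cast at h4
  linarith

end Fast

open Fast

theorem fast_upper {θ : ℝ} (hθ : θ < 1) {ε : ℝ} (hε : 0 < ε) : ∃ C : ℝ, 0 < C ∧
    ∀ x L K : ℕ, 1 ≤ L → K ≤ L → 2 * L ≤ x →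
      ((({n : ℕ | x < 2 * n ∧ n ≤ x ∧ ∃ k ≤ K, T3^[k] n ≤ L}.ncard : ℕ)) : ℝ) ≤
        C * (K + 1) * (Real.log L + 1) *
          ((x : ℝ) ^ θ * (L : ℝ) ^ (1 - θ) * Real.exp ((LT.Lam θ + ε) * K)) := by
  obtain ⟨C, hC⟩ := theoremS θ hθ ε hε
  have hΛ := Lam_pos hθ
  refine ⟨Real.exp |θ| * max C 1, by positivity, ?_⟩
  intro x L K hL hK hx
  have hx0 : 0 < x := by omega
  set A : Set ℕ := {n : ℕ | x < 2 * n ∧ n ≤ x ∧ ∃ k ≤ K, T3^[k] n ≤ L} with hA
  have hfin : A.Finite := (Set.finite_Iic x).subset fun n hn => hn.2.1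
  set F : Finset ℕ := hfin.toFinset with hF
  have hcard : A.ncard = F.card := Set.ncard_eq_toFinset_card A hfin
  rw [hcard]
  have hAA : ∀ (k : ℕ) (m : ℤ), k ≤ K → AA θ k m ≤ max C 1 * Real.exp ((Lam θ + ε) * K) := by
    intro k m hk
    refine (hC k m).trans (mul_le_mul (le_max_left _ _) ?_ (Real.exp_pos _).le (by positivity))
    apply Real.exp_le_exp.2
    have : (k : ℝ) ≤ K := by exact_mod_cast hk
    nlinarith
  have h1 := sum_dec F (fun _ => (1 : ℝ)) (fun _ _ => zero_le_one) (range (K + 1))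
    (fun _ => Icc 1 L) (fun k m => BR k (m : ℤ))
    (fun _ m w => Real.exp |θ| * ((x : ℝ) / (m : ℕ)) ^ θ * Real.exp (-θ * ht w))
    (fun _ _ _ _ _ _ => by positivity) (fun _ m w => (nd (m : ℤ) w).toNat) ?_
  · rw [sum_const, nsmul_eq_mul, mul_one] at h1
    refine h1.trans ?_
    have h2 : ∀ k ∈ range (K + 1), ∑ m ∈ Icc 1 L, ∑ w ∈ BR k (m : ℤ),
        Real.exp |θ| * ((x : ℝ) / (m : ℕ)) ^ θ * Real.exp (-θ * ht w) ≤
        Real.exp |θ| * (max C 1 * Real.exp ((Lam θ + ε) * K)) *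
          ((Real.log L + 1) * ((x : ℝ) ^ θ * (L : ℝ) ^ (1 - θ))) := by
      intro k hk
      rw [mem_range] at hk
      have h3 : ∀ m ∈ Icc 1 L, ∑ w ∈ BR k (m : ℤ),
          Real.exp |θ| * ((x : ℝ) / (m : ℕ)) ^ θ * Real.exp (-θ * ht w) ≤
          Real.exp |θ| * (max C 1 * Real.exp ((Lam θ + ε) * K)) * ((x : ℝ) / (m : ℕ)) ^ θ := by
        intro m _
        rw [← mul_sum]
        have h4 := hAA k (m : ℤ) (by omega)
        unfold AA at h4
        calc Real.exp |θ| * ((x : ℝ) / (m : ℕ)) ^ θ * ∑ w ∈ BR k (m : ℤ), Real.exp (-θ * ht w)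
            ≤ Real.exp |θ| * ((x : ℝ) / (m : ℕ)) ^ θ *
              (max C 1 * Real.exp ((Lam θ + ε) * K)) :=
              mul_le_mul_of_nonneg_left h4 (by positivity)
          _ = _ := by ring
      refine (sum_le_sum h3).trans ?_
      rw [← mul_sum]
      exact mul_le_mul_of_nonneg_left (sum_ends hθ hx0) (by positivity)
    refine (sum_le_sum h2).trans (le_of_eq ?_)
    rw [sum_const, card_range, nsmul_eq_mul]
    push_cast
    ring
  · intro n hn
    rw [hF, Set.Finite.mem_toFinset, hA] at hn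
    obtain ⟨hn0, hn1, hex⟩ := hn
    have hex' : ∃ k, k ≤ K ∧ T3^[k] n ≤ L := hex
    obtain ⟨hkK, hkL⟩ := Nat.find_spec hex'
    have hmin0 := fun j (hj : j < Nat.find hex') => Nat.find_min hex' hj
    set k := Nat.find hex' with hk
    have hmin : ∀ j < k, L < T3^[j] n := by
      intro j hj
      by_contra hcon
      exact hmin0 j hj ⟨by omega, by omega⟩
    have hnpos : 0 < n := by omega
    have hk1 : 1 ≤ k := by
      rcases Nat.eq_zero_or_pos k with h0 | h0
      · exfalso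
        rw [h0] at hkL
        simp only [Function.iterate_zero, id_eq] at hkL
        omega
      · exact h0
    have hmpos := iter_pos' hnpos k
    obtain ⟨hr1, hr2⟩ := wd_read k n
    refine ⟨k, by rw [mem_range]; omega, T3^[k] n, by rw [mem_Icc]; exact ⟨hmpos, hkL⟩,
      wd k n, ?_, ?_, ?_⟩
    · rw [mem_BR]
      exact ⟨wd_length _ _, bar hkL hmin, hr1⟩
    · show (nd ((T3^[k] n : ℕ) : ℤ) (wd k n)).toNat = n
      rw [hr2]
      simp
    · refine weight (by exact_mod_cast hmpos) (n := (n : ℝ)) (by exact_mod_cast hn0)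
        (by exact_mod_cast hn1) (by exact_mod_cast hx0) (node_le k n) ?_
      exact height hnpos (hkK.trans hK) hk1 hmin

end Pool.Agent.Collatz3.SB
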