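import Pool.Agent.Collatz3.SBFast
import Pool.Agent.Collatz3.LTUp

set_option autoImplicit false

/-!
The number of integers which fall fast: dyadic summation of the bound `fast_upper`.
-/

open Finset
open scoped Classical

namespace Pool.Agent.Collatz3.SB

open Pool.Agent.Collatz3.LT

/-- the integers which fall fast -/
private def FS (δ c : ℝ) (n : ℕ) : Prop :=
  ∃ k : ℕ, (k : ℝ) ≤ c * ((1 - δ) * Real.log n) ∧ ((T3^[k] n : ℕ) : ℝ) ≤ (n : ℝ) ^ δ

/-- their number -/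
private noncomputable def NF (δ c : ℝ) (y : ℕ) : ℕ := ((Icc 1 y).filter (FS δ c)).card

/-- their number in a dyadic block -/
private noncomputable def NB (δ c : ℝ) (y : ℕ) : ℕ :=
  ((Icc 1 y).filter fun n => y < 2 * n ∧ FS δ c n).card

private theorem nf_le (δ c : ℝ) (y : ℕ) : NF δ c y ≤ y := by
  unfold NF
  refine (card_filter_le _ _).trans ?_
  rw [Nat.card_Icc]
  omega

private theorem nf_half (δ c : ℝ) (y : ℕ) : NF δ c y ≤ NF δ c (y / 2) + NB δ c y := by
  unfold NF NB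
  refine le_trans (card_le_card ?_) (card_union_le _ _)
  intro n hn
  rw [mem_filter, mem_Icc] at hn
  rw [mem_union, mem_filter, mem_filter, mem_Icc, mem_Icc]
  by_cases h : y < 2 * n
  · exact Or.inr ⟨hn.1, h, hn.2⟩
  · exact Or.inl ⟨⟨hn.1.1, by omega⟩, hn.2⟩

/-- one dyadic block -/
private theorem nb_le {δ c θ C η : ℝ} (hδ0 : 0 < δ) (hδ1 : δ < 1) (hc0 : 0 < c) (hθ : θ < 1)
    (hη : 0 < LT.Lam θ + η) (hC : 0 < C)
    (h : ∀ x L K : ℕ, 1 ≤ L → K ≤ L → 2 * L ≤ x →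
      ((({n : ℕ | x < 2 * n ∧ n ≤ x ∧ ∃ k ≤ K, T3^[k] n ≤ L}.ncard : ℕ)) : ℝ) ≤
        C * (K + 1) * (Real.log L + 1) *
          ((x : ℝ) ^ θ * (L : ℝ) ^ (1 - θ) * Real.exp ((LT.Lam θ + η) * K))) :
    ∃ y₀ : ℕ, ∀ y : ℕ, y₀ ≤ y → (NB δ c y : ℝ) ≤
      C * (c * Real.log y + 1) * (Real.log y + 1) *
        Real.exp ((θ + δ * (1 - θ) + c * (1 - δ) * (LT.Lam θ + η)) * Real.log y) := by
  have e1 : ∀ᶠ y : ℕ in Filter.atTop, c * (1 - δ) * Real.log (y : ℝ) ≤ (y : ℝ) ^ δ := by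
    have h1 := (isLittleO_log_rpow_atTop hδ0).bound (show (0 : ℝ) < 1 / (c * (1 - δ)) by
      have : 0 < 1 - δ := by linarith
      positivity)
    have h2 := tendsto_natCast_atTop_atTop.eventually h1
    filter_upwards [h2, Filter.eventually_ge_atTop 1] with y hy hy1
    have h3 : (0 : ℝ) ≤ (y : ℝ) ^ δ := by positivity
    have h4 : 0 ≤ Real.log (y : ℝ) := Real.log_natCast_nonneg y
    rw [Real.norm_of_nonneg h4, Real.norm_of_nonneg h3] at hy
    have h5 : 0 < c * (1 - δ) := mul_pos hc0 (by linarith)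
    have h6 : 1 - δ ≠ 0 := by linarith
    calc c * (1 - δ) * Real.log (y : ℝ) ≤ c * (1 - δ) * (1 / (c * (1 - δ)) * (y : ℝ) ^ δ) :=
          mul_le_mul_of_nonneg_left hy h5.le
      _ = (y : ℝ) ^ δ := by field_simp
  have e2 : ∀ᶠ y : ℕ in Filter.atTop, (2 : ℝ) ≤ (y : ℝ) ^ (1 - δ) :=
    ((tendsto_rpow_atTop (by linarith : 0 < 1 - δ)).comp
      tendsto_natCast_atTop_atTop).eventually_ge_atTop 2
  obtain ⟨y₀, hy₀⟩ := Filter.eventually_atTop.1 (e1.and (e2.and (Filter.eventually_ge_atTop 1)))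
  refine ⟨y₀, fun y hy => ?_⟩
  obtain ⟨hy1, hy2, hy3⟩ := hy₀ y hy
  have hy0 : (0 : ℝ) < y := by exact_mod_cast hy3
  have hy1' : (1 : ℝ) ≤ y := by exact_mod_cast hy3
  have hly : 0 ≤ Real.log (y : ℝ) := Real.log_natCast_nonneg y
  have hd1 : 0 < 1 - δ := by linarith
  have ht1 : 0 < 1 - θ := by linarith
  set L := ⌊(y : ℝ) ^ δ⌋₊ with hL
  set K := ⌊c * (1 - δ) * Real.log (y : ℝ)⌋₊ with hK
  have hyd : (1 : ℝ) ≤ (y : ℝ) ^ δ := Real.one_le_rpow hy1' hδ0.le
  have hL1 : 1 ≤ L := Nat.le_floor (by exact_mod_cast hyd)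
  have hLle : (L : ℝ) ≤ (y : ℝ) ^ δ := Nat.floor_le (by positivity)
  have hKle : (K : ℝ) ≤ c * (1 - δ) * Real.log y := Nat.floor_le (by positivity)
  have hKL : K ≤ L := Nat.floor_mono hy1
  have h2L : 2 * L ≤ y := by
    have h1 : (y : ℝ) ^ δ * (y : ℝ) ^ (1 - δ) = y := by
      rw [← Real.rpow_add hy0, show δ + (1 - δ) = 1 by ring, Real.rpow_one]
    have h2 : (2 : ℝ) * L ≤ y := by
      calc (2 : ℝ) * L ≤ (y : ℝ) ^ (1 - δ) * (y : ℝ) ^ δ :=
            mul_le_mul hy2 hLle (Nat.cast_nonneg _) (by positivity)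
        _ = y := by rw [mul_comm, h1]
    exact_mod_cast h2
  have h0 := h y L K hL1 hKL h2L
  have hsub : (((Icc 1 y).filter fun n => y < 2 * n ∧ FS δ c n : Finset ℕ) : Set ℕ) ⊆
      {n : ℕ | y < 2 * n ∧ n ≤ y ∧ ∃ k ≤ K, T3^[k] n ≤ L} := by
    intro n hn
    rw [mem_coe, mem_filter, mem_Icc] at hn
    obtain ⟨⟨hn1, hn2⟩, hn3, k, hk1, hk2⟩ := hn
    have hn0 : (0 : ℝ) < n := by exact_mod_cast hn1
    have hny : (n : ℝ) ≤ y := by exact_mod_cast hn2
    refine ⟨hn3, hn2, k, Nat.le_floor (hk1.trans ?_), Nat.le_floor (hk2.trans ?_)⟩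
    · rw [mul_assoc]
      exact mul_le_mul_of_nonneg_left (mul_le_mul_of_nonneg_left (Real.log_le_log hn0 hny) hd1.le)
        hc0.le
    · exact Real.rpow_le_rpow hn0.le hny hδ0.le
  have hcard : (NB δ c y : ℝ) ≤
      ((({n : ℕ | y < 2 * n ∧ n ≤ y ∧ ∃ k ≤ K, T3^[k] n ≤ L}.ncard : ℕ)) : ℝ) := by
    have h1 := Set.ncard_le_ncard hsub ((Set.finite_Iic y).subset fun n hn => hn.2.1)
    rw [Set.ncard_coe_finset] at h1
    exact_mod_cast h1
  refine hcard.trans (h0.trans ?_)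
  have hL0 : (0 : ℝ) < L := by exact_mod_cast hL1
  have b1 : (K : ℝ) + 1 ≤ c * Real.log y + 1 := by
    have : c * (1 - δ) * Real.log y ≤ c * Real.log y := by
      have h3 : 0 ≤ c * δ * Real.log y := by positivity
      have h4 : c * (1 - δ) * Real.log y = c * Real.log y - c * δ * Real.log y := by ring
      linarith
    linarith
  have b2 : Real.log (L : ℝ) + 1 ≤ Real.log y + 1 := by
    have h3 : (L : ℝ) ≤ y := by
      have : (2 : ℝ) * L ≤ y := by exact_mod_cast h2L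
      linarith
    have := Real.log_le_log hL0 h3
    linarith
  have b3 : (y : ℝ) ^ θ * (L : ℝ) ^ (1 - θ) * Real.exp ((LT.Lam θ + η) * K) ≤
      Real.exp ((θ + δ * (1 - θ) + c * (1 - δ) * (LT.Lam θ + η)) * Real.log y) := by
    have h3 : (L : ℝ) ^ (1 - θ) ≤ ((y : ℝ) ^ δ) ^ (1 - θ) :=
      Real.rpow_le_rpow hL0.le hLle ht1.le
    have h4 : ((y : ℝ) ^ δ) ^ (1 - θ) = Real.exp (δ * (1 - θ) * Real.log y) := by
      rw [← Real.rpow_mul hy0.le, Real.rpow_def_of_pos hy0, mul_comm]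
    have h5 : (y : ℝ) ^ θ = Real.exp (θ * Real.log y) := by
      rw [Real.rpow_def_of_pos hy0, mul_comm]
    have h6 : Real.exp ((LT.Lam θ + η) * K) ≤
        Real.exp (c * (1 - δ) * (LT.Lam θ + η) * Real.log y) := by
      apply Real.exp_le_exp.2
      have := mul_le_mul_of_nonneg_left hKle hη.le
      have h7 : (LT.Lam θ + η) * (c * (1 - δ) * Real.log y) =
        c * (1 - δ) * (LT.Lam θ + η) * Real.log y := by ring
      linarith
    calc (y : ℝ) ^ θ * (L : ℝ) ^ (1 - θ) * Real.exp ((LT.Lam θ + η) * K)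
        ≤ Real.exp (θ * Real.log y) * Real.exp (δ * (1 - θ) * Real.log y) *
          Real.exp (c * (1 - δ) * (LT.Lam θ + η) * Real.log y) := by
          rw [h5, ← h4]
          exact mul_le_mul (mul_le_mul_of_nonneg_left h3 (Real.exp_pos _).le) h6
            (Real.exp_pos _).le (by positivity)
      _ = _ := by
          rw [← Real.exp_add, ← Real.exp_add]
          congr 1
          ring
  have hp1 : (0 : ℝ) ≤ (K : ℝ) + 1 := by positivity
  have hp2 : (0 : ℝ) ≤ Real.log (L : ℝ) + 1 := by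
    have := Real.log_natCast_nonneg L
    linarith
  exact mul_le_mul (mul_le_mul (mul_le_mul_of_nonneg_left b1 hC.le) b2 hp2
    (by positivity)) b3 (by positivity) (by positivity)

/-- the sum over the blocks -/
private theorem nf_sum {δ c B : ℝ} {y₀ x : ℕ} (hB0 : 0 ≤ B)
    (hB : ∀ y : ℕ, y₀ ≤ y → y ≤ x → (NB δ c y : ℝ) ≤ B) :
    ∀ (i y : ℕ), y ≤ x → y < 2 ^ i → (NF δ c y : ℝ) ≤ y₀ + i * B := by
  intro i
  induction i with
  | zero =>
    intro y _ hy
    have h0 : y = 0 := by simpa using hy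
    have h1 : NF δ c y ≤ 0 := by
      have := nf_le δ c y
      omega
    have h2 : (NF δ c y : ℝ) ≤ 0 := by exact_mod_cast h1
    have h3 : (0 : ℝ) ≤ y₀ := Nat.cast_nonneg _
    push_cast
    linarith
  | succ i ih =>
    intro y hyx hy
    rcases Nat.lt_or_ge y y₀ with h | h
    · have h1 : (NF δ c y : ℝ) ≤ y₀ := by exact_mod_cast (nf_le δ c y).trans h.le
      have h2 : 0 ≤ ((i + 1 : ℕ) : ℝ) * B := by positivity
      linarith
    · have h1 := ih (y / 2) (by omega) (by rw [pow_succ] at hy; omega)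
      have h2 := hB y h hyx
      have h3 : (NF δ c y : ℝ) ≤ NF δ c (y / 2) + NB δ c y := by exact_mod_cast nf_half δ c y
      push_cast
      linarith

private theorem nf_eq (δ c : ℝ) (x : ℕ) :
    {n : ℕ | 1 ≤ n ∧ n ≤ x ∧ ∃ k : ℕ, (k : ℝ) ≤ c * ((1 - δ) * Real.log n) ∧
        ((T3^[k] n : ℕ) : ℝ) ≤ (n : ℝ) ^ δ}.ncard = NF δ c x := by
  rw [NF, ← Set.ncard_coe_finset]
  congr 1
  ext n
  rw [mem_coe, mem_filter, mem_Icc, and_assoc]
  exact Iff.rfl

theorem fin_fast_upper {δ c ε : ℝ} (hδ0 : 0 < δ) (hδ1 : δ < 1) (hc : 1 / Real.log 2 < c)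
    (hc' : c < ((1 / 2) * Real.log (4 / 3))⁻¹) (hε : 0 < ε) : ∀ᶠ x : ℕ in Filter.atTop,
      (({n : ℕ | 1 ≤ n ∧ n ≤ x ∧ ∃ k : ℕ, (k : ℝ) ≤ c * ((1 - δ) * Real.log n) ∧
        ((T3^[k] n : ℕ) : ℝ) ≤ (n : ℝ) ^ δ}.ncard : ℕ) : ℝ) ≤
        (x : ℝ) ^ (1 - (1 - δ) * (c * Leg.gL (1 / c)) + ε) := by
  obtain ⟨ρ, r0, r1, hc0, r2, r3⟩ := LT.params hc hc'
  have hθ1 : tht ρ < 1 := tht_lt r0 r1
  have hLam := LT.Lam_pos hθ1
  have hLam2 := LT.Lam_tht r0 (show ρ < 1 by linarith)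
  have hd1 : 0 < 1 - δ := by linarith
  -- the exponent is not negative
  have hE0 : 0 ≤ c * LT.Lam (tht ρ) + tht ρ := by
    rcases le_or_gt 0 (tht ρ) with h | h
    · positivity
    · have h1 : tht ρ * Real.log 2 ≤ tht ρ / c := by
        rw [div_eq_mul_one_div, r2]
        exact mul_le_mul_of_nonpos_left (by
          have : 0 ≤ ρ * Real.log 3 := mul_nonneg r0.le log3_pos.le
          linarith) h.le
      have h2 : Real.log (1 - ρ) ≤ 0 := Real.log_nonpos (by linarith) (by linarith)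
      have h3 : 0 ≤ LT.Lam (tht ρ) + tht ρ / c := by linarith
      have h4 : c * LT.Lam (tht ρ) + tht ρ = c * (LT.Lam (tht ρ) + tht ρ / c) := by field_simp
      rw [h4]
      exact mul_nonneg hc0.le h3
  set η : ℝ := ε / (2 * (c * (1 - δ))) with hη
  have hη0 : 0 < η := by positivity
  obtain ⟨C, hC0, hC⟩ := fast_upper hθ1 hη0
  obtain ⟨y₀, hy₀⟩ := nb_le hδ0 hδ1 hc0 hθ1 (show 0 < LT.Lam (tht ρ) + η by linarith) hC0 hC
  set E : ℝ := 1 - (1 - δ) * (c * Leg.gL (1 / c)) with hE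
  have hEe : tht ρ + δ * (1 - tht ρ) + c * (1 - δ) * (LT.Lam (tht ρ) + η) = E + ε / 2 := by
    have h1 : c * (1 - δ) * η = ε / 2 := by rw [hη]; field_simp
    have h2 : c * Leg.gL (1 / c) = 1 - (c * LT.Lam (tht ρ) + tht ρ) := by linarith
    rw [hE, h2]
    linear_combination h1
  have hEn : 0 ≤ E + ε / 2 := by
    have h2 : c * Leg.gL (1 / c) = 1 - (c * LT.Lam (tht ρ) + tht ρ) := by linarith
    have h3 : E = δ + (1 - δ) * (c * LT.Lam (tht ρ) + tht ρ) := by
      rw [hE, h2]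
      ring
    have h4 : 0 ≤ (1 - δ) * (c * LT.Lam (tht ρ) + tht ρ) := mul_nonneg hd1.le hE0
    linarith
  -- the polynomial factors
  have hpoly : ∀ᶠ x : ℕ in Filter.atTop, (y₀ : ℝ) + (2 * Real.log x + 1) *
      (C * (c * Real.log x + 1) * (Real.log x + 1)) ≤ Real.exp (ε / 2 * Real.log x) := by
    set A : ℝ := y₀ + 3 * (C * (c + 1) * 2) with hA
    have hA0 : 0 < A := by positivity
    have h1 := (isLittleO_pow_exp_pos_mul_atTop (k := 3) (show (0 : ℝ) < ε / 2 by linarith)).bound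
      (show (0 : ℝ) < 1 / A by positivity)
    have h2 := (Real.tendsto_log_atTop.comp
      (tendsto_natCast_atTop_atTop (R := ℝ))).eventually (h1.and (Filter.eventually_ge_atTop 1))
    filter_upwards [h2] with x hx
    obtain ⟨hx1, hx2⟩ := hx
    set u : ℝ := Real.log (x : ℝ) with hu
    have hx2' : (1 : ℝ) ≤ u := hx2
    have hx1' : ‖u ^ 3‖ ≤ 1 / A * ‖Real.exp (ε / 2 * u)‖ := hx1
    rw [Real.norm_of_nonneg (by positivity), Real.norm_of_nonneg (Real.exp_pos _).le] at hx1'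
    have h3 : A * u ^ 3 ≤ Real.exp (ε / 2 * u) := by
      calc A * u ^ 3 ≤ A * (1 / A * Real.exp (ε / 2 * u)) := mul_le_mul_of_nonneg_left hx1' hA0.le
        _ = _ := by field_simp
    refine le_trans ?_ h3
    have p1 : 2 * u + 1 ≤ 3 * u := by linarith
    have p2 : c * u + 1 ≤ (c + 1) * u := by
      have : (c + 1) * u = c * u + u := by ring
      linarith
    have p3 : u + 1 ≤ 2 * u := by linarith
    have p4 : (2 * u + 1) * (C * (c * u + 1) * (u + 1)) ≤
        (3 * u) * (C * ((c + 1) * u) * (2 * u)) :=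
      mul_le_mul p1 (mul_le_mul (mul_le_mul_of_nonneg_left p2 hC0.le) p3 (by positivity)
        (by positivity)) (by positivity) (by positivity)
    have p5 : (y₀ : ℝ) ≤ y₀ * u ^ 3 := by
      have h5 : (1 : ℝ) ≤ u ^ 3 := one_le_pow₀ hx2'
      have h6 : (0 : ℝ) ≤ y₀ := Nat.cast_nonneg _
      calc (y₀ : ℝ) = y₀ * 1 := by ring
        _ ≤ y₀ * u ^ 3 := mul_le_mul_of_nonneg_left h5 h6
    have p6 : A * u ^ 3 = y₀ * u ^ 3 + (3 * u) * (C * ((c + 1) * u) * (2 * u)) := by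
      rw [hA]
      ring
    linarith
  filter_upwards [hpoly, Filter.eventually_ge_atTop 1] with x hx hx1
  rw [nf_eq]
  have hx0 : (0 : ℝ) < x := by exact_mod_cast hx1
  have hlx : 0 ≤ Real.log (x : ℝ) := Real.log_natCast_nonneg x
  set B : ℝ := C * (c * Real.log x + 1) * (Real.log x + 1) *
    Real.exp ((E + ε / 2) * Real.log x) with hB
  have hB0 : 0 ≤ B := by positivity
  have hbl : ∀ y : ℕ, y₀ ≤ y → y ≤ x → (NB δ c y : ℝ) ≤ B := by
    intro y hy hyx
    refine (hy₀ y hy).trans ?_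
    rw [hEe]
    have hly : 0 ≤ Real.log (y : ℝ) := Real.log_natCast_nonneg y
    have hl : Real.log (y : ℝ) ≤ Real.log x := by
      rcases Nat.eq_zero_or_pos y with h | h
      · rw [h, Nat.cast_zero, Real.log_zero]
        exact hlx
      · exact Real.log_le_log (by exact_mod_cast h) (by exact_mod_cast hyx)
    refine mul_le_mul (mul_le_mul (mul_le_mul_of_nonneg_left ?_ hC0.le) (by linarith)
      (by positivity) (by positivity)) (Real.exp_le_exp.2 (mul_le_mul_of_nonneg_left hl hEn))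
      (Real.exp_pos _).le (by positivity)
    have := mul_le_mul_of_nonneg_left hl hc0.le
    linarith
  have hmain := nf_sum hB0 hbl (Nat.log 2 x + 1) x le_rfl (Nat.lt_pow_succ_log_self (by norm_num) x)
  have hlog : ((Nat.log 2 x + 1 : ℕ) : ℝ) ≤ 2 * Real.log x + 1 := by
    have h1 : 2 ^ Nat.log 2 x ≤ x := Nat.pow_log_le_self 2 (by omega)
    have h2 : ((2 : ℝ)) ^ Nat.log 2 x ≤ x := by exact_mod_cast h1
    have h3 := Real.log_le_log (by positivity) h2
    rw [Real.log_pow] at h3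
    have h4 : (1 : ℝ) / 2 < Real.log 2 := by
      have := Real.log_two_gt_d9
      linarith
    have h5 : (Nat.log 2 x : ℝ) * (1 / 2) ≤ Nat.log 2 x * Real.log 2 :=
      mul_le_mul_of_nonneg_left h4.le (Nat.cast_nonneg _)
    push_cast
    linarith
  have hexp1 : (1 : ℝ) ≤ Real.exp ((E + ε / 2) * Real.log x) :=
    Real.one_le_exp (mul_nonneg hEn hlx)
  calc (NF δ c x : ℝ) ≤ y₀ + ((Nat.log 2 x + 1 : ℕ) : ℝ) * B := hmain
    _ ≤ y₀ + (2 * Real.log x + 1) * B := by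
        have := mul_le_mul_of_nonneg_right hlog hB0
        linarith
    _ ≤ y₀ * Real.exp ((E + ε / 2) * Real.log x) + (2 * Real.log x + 1) * B := by
        have h6 : (0 : ℝ) ≤ y₀ := Nat.cast_nonneg _
        have := mul_le_mul_of_nonneg_left hexp1 h6
        linarith
    _ = ((y₀ : ℝ) + (2 * Real.log x + 1) * (C * (c * Real.log x + 1) * (Real.log x + 1))) *
        Real.exp ((E + ε / 2) * Real.log x) := by
        rw [hB]
        ring
    _ ≤ Real.exp (ε / 2 * Real.log x) * Real.exp ((E + ε / 2) * Real.log x) :=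
        mul_le_mul_of_nonneg_right hx (Real.exp_pos _).le
    _ = (x : ℝ) ^ (E + ε) := by
        rw [← Real.exp_add, Real.rpow_def_of_pos hx0]
        congr 1
        ring

end Pool.Agent.Collatz3.SB
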