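import Pool.Agent.Collatz3.SBLetter
import Pool.Agent.Collatz3.LTUp

set_option autoImplicit false

/-!
The numerical facts for the slow side: the parameters of the barrier, the letter lemma for them and
the window of the exponents.
-/

open Finset
open scoped Classical

namespace Pool.Agent.Collatz3.SB

open Pool.Agent.Collatz3.LT

theorem params_slow {β : ℝ} (hβ : ((1 / 2) * Real.log (4 / 3))⁻¹ ≤ β) :
    ∃ ρ : ℝ, 1 / 2 ≤ ρ ∧ ρ < Real.log 2 / Real.log 3 ∧ 0 < β ∧ 1 / β = Real.log 2 - ρ * Real.log 3 ∧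
      β * LT.Lam (LT.tht ρ) + LT.tht ρ = 1 - β * Leg.gL (1 / β) ∧
      β * Leg.gL (1 / β) = β * (Real.log 2 - Real.binEntropy ρ) := by
  have l2 := log2_pos
  have l3 := log3_pos
  have l23 := log2_lt_log3
  have hpos : 0 < (1 / 2) * Real.log (4 / 3) := by
    have : 0 < Real.log (4 / 3) := Real.log_pos (by norm_num)
    positivity
  have hc0 : 0 < β := lt_of_lt_of_le (inv_pos.2 hpos) hβ
  have hcp : 0 < 1 / β := by positivity
  have h2 : 1 / β ≤ Real.log 2 - 1 / 2 * Real.log 3 := by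
    rw [← Leg.half_log]
    have := (inv_le_comm₀ hpos hc0).1 hβ
    rwa [← one_div β] at this
  obtain ⟨ρ, hρ⟩ : ∃ ρ, ρ = (Real.log 2 - 1 / β) / Real.log 3 := ⟨_, rfl⟩
  have r0' : 1 / 2 ≤ ρ := by
    rw [hρ, le_div_iff₀ l3]
    linarith
  have r0 : 0 < ρ := by linarith
  have r1' : ρ < Real.log 2 / Real.log 3 := by
    rw [hρ]
    exact div_lt_div_of_pos_right (by linarith) l3
  have r1 : ρ < 1 := r1'.trans (by rw [div_lt_one l3]; exact l23)
  have r2 : 1 / β = Real.log 2 - ρ * Real.log 3 := by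
    rw [hρ, div_mul_cancel₀ _ l3.ne']
    ring
  have hE : 1 - β * Leg.gL (1 / β) =
      (Real.binEntropy ρ - ρ * Real.log 3) / (Real.log 2 - ρ * Real.log 3) :=
    Leg.exponent_eq r0 r1 r2 (by rw [← r2]; exact hcp)
  refine ⟨ρ, r0', r1', hc0, r2, ?_, ?_⟩
  · rw [hE, ← r2, div_div_eq_mul_div, div_one]
    have e1 := Lam_tht r0 r1
    have e2 := tht_mul r0 r1
    have e3 : β * (Real.log 2 - ρ * Real.log 3) = 1 := by rw [← r2]; field_simp
    have e4 : LT.Lam (tht ρ) = -Real.log (1 - ρ) - tht ρ * Real.log 2 := by linarith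
    have e5 : Real.binEntropy ρ = -(ρ * Real.log ρ) - (1 - ρ) * Real.log (1 - ρ) := by
      unfold Real.binEntropy
      rw [Real.log_inv, Real.log_inv]
      ring
    have e6 : β * (-Real.log (1 - ρ) - tht ρ * Real.log 2) + tht ρ =
        β * (-Real.log (1 - ρ) - tht ρ * Real.log 2) +
          tht ρ * (β * (Real.log 2 - ρ * Real.log 3)) := by
      rw [e3, mul_one]
    rw [e4, e6, e5]
    linear_combination (-β * ρ) * e2
  · rw [r2, Leg.legendre r0 r1]

/-! ### numerical bounds -/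

private theorem lb {x : ℝ} (hx : 0 ≤ x) : 2 * x / (x + 2) ≤ Real.log (1 + x) :=
  Real.le_log_one_add_of_nonneg hx

private theorem l2b : 0.6931471803 < Real.log 2 ∧ Real.log 2 < 0.6931471808 :=
  ⟨Real.log_two_gt_d9, Real.log_two_lt_d9⟩

private theorem l3b : 1.098612 < Real.log 3 ∧ Real.log 3 < 1.09863 := by
  have h1 : (12 : ℝ) * Real.log 3 = 19 * Real.log 2 + Real.log (1 + 7153 / 524288) := by
    have h2 : (1 : ℝ) + 7153 / 524288 = 3 ^ 12 / 2 ^ 19 := by norm_num
    rw [h2, Real.log_div (by norm_num) (by norm_num), Real.log_pow, Real.log_pow]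
    push_cast
    ring
  have h2 := lb (x := 7153 / 524288) (by norm_num)
  have h3 : Real.log (1 + 7153 / 524288) ≤ 7153 / 524288 := by
    have := Real.log_le_sub_one_of_pos (show (0 : ℝ) < 1 + 7153 / 524288 by norm_num)
    linarith
  obtain ⟨h4, h5⟩ := l2b
  constructor
  · norm_num at h2 h4 ⊢
    linarith
  · norm_num at h3 h5 ⊢
    linarith

private theorem l7b : 1.945909 < Real.log 7 := by
  have h1 : (5 : ℝ) * Real.log 7 = 14 * Real.log 2 + Real.log (1 + 423 / 16384) := by
    have h2 : (1 : ℝ) + 423 / 16384 = 7 ^ 5 / 2 ^ 14 := by norm_num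
    rw [h2, Real.log_div (by norm_num) (by norm_num), Real.log_pow, Real.log_pow]
    push_cast
    ring
  have h2 := lb (x := 423 / 16384) (by norm_num)
  obtain ⟨h4, h5⟩ := l2b
  norm_num at h2 h4 ⊢
  linarith

/-- the entropy at `9 / 16` -/
private theorem H916 : 1 / 128 ≤ Real.log 2 - Real.binEntropy (9 / 16) := by
  have h1 : Real.binEntropy (9 / 16) =
      4 * Real.log 2 - 9 / 8 * Real.log 3 - 7 / 16 * Real.log 7 := by
    unfold Real.binEntropy
    rw [Real.log_inv, Real.log_inv]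
    have h2 : (1 : ℝ) - 9 / 16 = 7 / 2 ^ 4 := by norm_num
    have h3 : (9 / 16 : ℝ) = 3 ^ 2 / 2 ^ 4 := by norm_num
    rw [h2, h3, Real.log_div (by norm_num) (by norm_num), Real.log_div (by norm_num)
      (by norm_num), Real.log_pow, Real.log_pow]
    push_cast
    ring
  obtain ⟨h2, h3⟩ := l2b
  obtain ⟨h4, h5⟩ := l3b
  have h6 := l7b
  rw [h1]
  norm_num at h3 h4 h6 ⊢
  linarith

/-! ### the parameters -/

/-- the parameters `v = log 2 - (9/16) log 3`, `κ = v - 81/100000` -/
noncomputable def par0 : Par where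
  v := Real.log 2 - 9 / 16 * Real.log 3
  κ := Real.log 2 - 9 / 16 * Real.log 3 - 81 / 100000
  v_nonneg := by
    obtain ⟨h2, h3⟩ := l2b
    obtain ⟨h4, h5⟩ := l3b
    norm_num at h2 h5 ⊢
    linarith
  v_lt := by
    have := log3_pos
    linarith
  κ_nonneg := by
    obtain ⟨h2, h3⟩ := l2b
    obtain ⟨h4, h5⟩ := l3b
    norm_num at h2 h5 ⊢
    linarith

private theorem par0_Lv' : @Lv par0 = 9 / 16 * Real.log 3 := by
  show Real.log 2 - (Real.log 2 - 9 / 16 * Real.log 3) = _
  ring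

theorem par0_Lv : @Lv par0 / Real.log 3 = 9 / 16 := by
  rw [par0_Lv', mul_div_assoc, div_self log3_pos.ne', mul_one]

theorem par0_letters : @Letters par0 := by
  refine @letters_of par0 ?_ ?_
  · rw [par0_Lv]
    norm_num
  · rw [par0_Lv]
    show (Real.log 2 - 9 / 16 * Real.log 3) * (Real.binEntropy (9 / 16) / Real.log 2) <
      Real.log 2 - 9 / 16 * Real.log 3 - 81 / 100000
    obtain ⟨h2, h3⟩ := l2b
    obtain ⟨h4, h5⟩ := l3b
    have h6 := H916
    have l2 := log2_pos
    have hv : 0.075167 ≤ Real.log 2 - 9 / 16 * Real.log 3 := by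
      norm_num at h2 h5 ⊢
      linarith
    obtain ⟨v, hvd⟩ : ∃ v, v = Real.log 2 - 9 / 16 * Real.log 3 := ⟨_, rfl⟩
    rw [← hvd] at hv ⊢
    have hv0 : 0 ≤ v := le_trans (by norm_num) hv
    have h7 := mul_le_mul_of_nonneg_left h6 hv0
    rw [← mul_div_assoc, div_lt_iff₀ l2]
    norm_num at hv h3
    nlinarith

/-! ### the window -/

theorem window {δ β ρ : ℝ} (hδ0 : 0 < δ) (hδ1 : δ < 1) (hβ : ((1 / 2) * Real.log (4 / 3))⁻¹ ≤ β)
    (hβ' : β ≤ (1 + min (√δ / 5) (1 / 40)) * ((1 / 2) * Real.log (4 / 3))⁻¹) (hρ : 1 / 2 ≤ ρ)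
    (hβρ : 1 / β = Real.log 2 - ρ * Real.log 3) :
    @Par.κ par0 < @Lam par0 (LT.tht ρ) ∧ 1 ≤ LT.tht ρ ∧
      (1 - δ) * (β * (Real.log 2 - Real.binEntropy ρ)) ≤
        δ * (1 - Real.binEntropy (9 / 16) / Real.log 2) := by
  obtain ⟨b2, b2'⟩ := l2b
  obtain ⟨b3, b3'⟩ := l3b
  have l2 := log2_pos
  have l3 := log3_pos
  norm_num at b2 b2' b3 b3'
  rw [Leg.half_log] at hβ hβ'
  obtain ⟨a, ha⟩ : ∃ a, a = Real.log 2 - 1 / 2 * Real.log 3 := ⟨_, rfl⟩
  rw [← ha] at hβ hβ'
  obtain ⟨k, hk⟩ : ∃ k, k = min (√δ / 5) (1 / 40) := ⟨_, rfl⟩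
  rw [← hk] at hβ'
  have hk0 : 0 < k := by
    rw [hk]
    exact lt_min (div_pos (Real.sqrt_pos.2 hδ0) (by norm_num)) (by norm_num)
  have hk5 : k ≤ √δ / 5 := by rw [hk]; exact min_le_left _ _
  have hk40 : k ≤ 1 / 40 := by rw [hk]; exact min_le_right _ _
  have hkk : k * k ≤ δ / 25 := by
    have h1 : k * k ≤ √δ / 5 * (√δ / 5) := mul_le_mul hk5 hk5 hk0.le (by positivity)
    have h2 : √δ / 5 * (√δ / 5) = δ / 25 := by
      have h3 := Real.mul_self_sqrt hδ0.le
      linear_combination h3 / 25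
    linarith
  have ha0 : 0 < a := by rw [ha]; linarith
  have ha1 : a ≤ 0.1438413 := by
    rw [ha]
    norm_num
    linarith
  have hβ0 : 0 < β := lt_of_lt_of_le (inv_pos.2 ha0) hβ
  have hβa : β * a ≤ 1 + k := by
    have := mul_le_mul_of_nonneg_right hβ' ha0.le
    rwa [mul_assoc, inv_mul_cancel₀ ha0.ne', mul_one] at this
  obtain ⟨u, hu⟩ : ∃ u, u = ρ - 1 / 2 := ⟨_, rfl⟩
  have hu0 : 0 ≤ u := by rw [hu]; linarith
  have hρu : ρ = 1 / 2 + u := by rw [hu]; ring
  have hβu : β * (u * Real.log 3) = β * a - 1 := by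
    have : β * (Real.log 2 - ρ * Real.log 3) = 1 := by
      rw [← hβρ]
      field_simp
    rw [hρu] at this
    rw [ha]
    linarith
  -- bounds for `β u` and `u`
  have hβu1 : β * (u * Real.log 3) ≤ k := by linarith
  have hu1 : u * Real.log 3 * (1 + k) ≤ a * k := by
    have h1 : u * Real.log 3 = a - 1 / β := by rw [hβρ, ha, hρu]; ring
    have h2 : a ≤ 1 / β * (1 + k) := by
      rw [one_div, ← div_eq_inv_mul, le_div_iff₀ hβ0]
      linarith
    rw [h1]
    nlinarith
  have hu2 : u * Real.log 3 ≤ a * k := by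
    have : 0 ≤ u * Real.log 3 * k := by positivity
    linarith
  have hu3 : u * Real.log 3 ≤ a / 41 := by
    have h1 : u * Real.log 3 * (1 + k) * 40 ≤ a * (40 * k) := by linarith
    have h2 : u * Real.log 3 ≤ a * k / (1 + k) := by
      rw [le_div_iff₀ (by linarith)]
      exact hu1
    refine h2.trans ?_
    rw [div_le_div_iff₀ (by linarith) (by norm_num)]
    nlinarith
  have hu4 : u ≤ 0.0032 := by
    by_contra hcon
    push Not at hcon
    have : 0.0032 * Real.log 3 < u * Real.log 3 := mul_lt_mul_of_pos_right hcon l3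
    norm_num at this ha1
    linarith
  have hu5 : u ≤ 0.131 * k := by
    by_contra hcon
    push Not at hcon
    have h1 : 0.131 * k * Real.log 3 < u * Real.log 3 := mul_lt_mul_of_pos_right hcon l3
    have h2 : a * k ≤ 0.1438413 * k := mul_le_mul_of_nonneg_right ha1 hk0.le
    have h3 : 1.098612 * k ≤ Real.log 3 * k :=
      mul_le_mul_of_nonneg_right (by norm_num; linarith) hk0.le
    norm_num at h1 h2 h3
    linarith
  have hβu2 : β * u ≤ 0.9103 * k := by
    by_contra hcon
    push Not at hcon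
    have h1 : 0.9103 * k * Real.log 3 < β * u * Real.log 3 := mul_lt_mul_of_pos_right hcon l3
    have h3 : 1.098612 * k ≤ Real.log 3 * k :=
      mul_le_mul_of_nonneg_right (by norm_num; linarith) hk0.le
    norm_num at h1 h3
    linarith
  norm_num at hu4 hu5 hβu2
  -- logarithms
  have hr0 : 0 < ρ := by linarith
  have hr1 : ρ < 1 := by linarith
  have e1 : Real.log ρ = Real.log (1 + 2 * u) - Real.log 2 := by
    rw [← Real.log_div (by linarith) (by norm_num)]
    congr 1
    rw [hρu]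
    ring
  have e2 : Real.log (1 - ρ) = Real.log (1 - 2 * u) - Real.log 2 := by
    rw [← Real.log_div (by linarith) (by norm_num)]
    congr 1
    rw [hρu]
    ring
  have f1 : Real.log (1 + 2 * u) ≤ 2 * u := by
    have := Real.log_le_sub_one_of_pos (show (0 : ℝ) < 1 + 2 * u by linarith)
    linarith
  have f3 : Real.log (1 - 2 * u) ≤ -(2 * u) := by
    have := Real.log_le_sub_one_of_pos (show (0 : ℝ) < 1 - 2 * u by linarith)
    linarith
  refine ⟨?_, ?_, ?_⟩
  · show Real.log 2 - 9 / 16 * Real.log 3 - 81 / 100000 < _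
    have g1 : @Lam par0 (LT.tht ρ) =
        LT.Lam (LT.tht ρ) + LT.tht ρ * Real.log 2 - LT.tht ρ * (9 / 16 * Real.log 3) := by
      have g2 : (0 : ℝ) < 1 + (3 : ℝ) ^ (LT.tht ρ - 1) := by positivity
      have g3 : (0 : ℝ) < (2 : ℝ) ^ (-LT.tht ρ) := by positivity
      show Real.log (Real.exp (-LT.tht ρ * @Lv par0) * (1 + (3 : ℝ) ^ (LT.tht ρ - 1))) =
        Real.log ((2 : ℝ) ^ (-LT.tht ρ) * (1 + (3 : ℝ) ^ (LT.tht ρ - 1))) + _ - _
      rw [Real.log_mul (Real.exp_pos _).ne' g2.ne', Real.log_mul g3.ne' g2.ne', Real.log_exp,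
        Real.log_rpow (by norm_num), par0_Lv']
      ring
    have g2 := tht_mul hr0 hr1
    rw [g1, Lam_tht hr0 hr1]
    have g3 : LT.tht ρ * (9 / 16 * Real.log 3) =
        9 / 16 * (Real.log 3 - Real.log (1 - ρ) + Real.log ρ) := by
      rw [← g2]
      ring
    rw [g3, e1, e2]
    linarith
  · unfold LT.tht
    have h1 : Real.log ((1 - ρ) / ρ) ≤ 0 := by
      apply Real.log_nonpos
      · exact div_nonneg (by linarith) hr0.le
      · rw [div_le_one hr0]
        linarith
    have h2 : Real.log ((1 - ρ) / ρ) / Real.log 3 ≤ 0 := div_nonpos_of_nonpos_of_nonneg h1 l3.le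
    linarith
  · have g1 : Real.binEntropy ρ ≤ Real.log 2 := Real.binEntropy_le_log_two
    have g2 : Real.log 2 - Real.binEntropy ρ ≤ -(2 * u ^ 2) + 4 * u ^ 2 / (1 - 2 * u) := by
      have g3 : Real.log 2 - Real.binEntropy ρ =
          (1 / 2 + u) * Real.log (1 + 2 * u) + (1 / 2 - u) * Real.log (1 - 2 * u) := by
        unfold Real.binEntropy
        rw [Real.log_inv, Real.log_inv, e1, e2, hρu]
        ring
      have g4 : Real.log (1 + 2 * u) + Real.log (1 - 2 * u) ≤ -(4 * u ^ 2) := by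
        rw [← Real.log_mul (by linarith) (by linarith)]
        have h1 : (0 : ℝ) < (1 + 2 * u) * (1 - 2 * u) :=
          mul_pos (by linarith) (by linarith)
        have := Real.log_le_sub_one_of_pos h1
        nlinarith
      have g5 : Real.log (1 + 2 * u) - Real.log (1 - 2 * u) ≤ 4 * u / (1 - 2 * u) := by
        rw [← Real.log_div (by linarith) (by linarith)]
        have h1 : (0 : ℝ) < (1 + 2 * u) / (1 - 2 * u) := div_pos (by linarith) (by linarith)
        refine (Real.log_le_sub_one_of_pos h1).trans (le_of_eq ?_)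
        have : (1 - 2 * u) ≠ 0 := by linarith
        field_simp
        ring
      have g6 := mul_le_mul_of_nonneg_left g5 hu0
      have g7 : u * (4 * u / (1 - 2 * u)) = 4 * u ^ 2 / (1 - 2 * u) := by ring
      rw [g7] at g6
      rw [g3]
      linarith
    have g3 : Real.log 2 - Real.binEntropy ρ ≤ 2.03 * (u * u) := by
      have h1 : 4 * u ^ 2 / (1 - 2 * u) ≤ 4.03 * u ^ 2 := by
        rw [div_le_iff₀ (by linarith)]
        have h : 4 ≤ 4.03 * (1 - 2 * u) := by
          norm_num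
          linarith
        have := mul_le_mul_of_nonneg_right h (sq_nonneg u)
        linarith
      norm_num at h1 ⊢
      linarith
    have g4 : β * (Real.log 2 - Real.binEntropy ρ) ≤ 0.0099 * δ := by
      have h1 : β * (Real.log 2 - Real.binEntropy ρ) ≤ β * (2.03 * (u * u)) :=
        mul_le_mul_of_nonneg_left g3 hβ0.le
      have h2 : β * (2.03 * (u * u)) = 2.03 * (u * (β * u)) := by ring
      have h3 : u * (β * u) ≤ 131 / 1000 * k * (9103 / 10000 * k) :=
        mul_le_mul hu5 hβu2 (by positivity) (by positivity)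
      rw [h2] at h1
      norm_num at h1 ⊢
      linarith
    have g5 : 0 ≤ β * (Real.log 2 - Real.binEntropy ρ) := mul_nonneg hβ0.le (by linarith)
    have g6 : (1 - δ) * (β * (Real.log 2 - Real.binEntropy ρ)) ≤
        1 * (β * (Real.log 2 - Real.binEntropy ρ)) :=
      mul_le_mul_of_nonneg_right (by linarith) g5
    have g7 : 0.0112 ≤ 1 - Real.binEntropy (9 / 16) / Real.log 2 := by
      have h1 := H916
      have h2 : 1 - Real.binEntropy (9 / 16) / Real.log 2 =
          (Real.log 2 - Real.binEntropy (9 / 16)) / Real.log 2 := by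
        field_simp
      rw [h2, le_div_iff₀ l2]
      norm_num
      linarith
    have g8 : δ * 0.0112 ≤ δ * (1 - Real.binEntropy (9 / 16) / Real.log 2) :=
      mul_le_mul_of_nonneg_left g7 hδ0.le
    norm_num at g4 g8
    linarith

end Pool.Agent.Collatz3.SB
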