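import Pool.Agent.Collatz3.SBUp
import Pool.Agent.Collatz3.SBNum

set_option autoImplicit false

/-!
FINB: the upper bound for the slow integers, from `slow_upper` (dyadic summation).
-/

open Finset
open scoped Classical

namespace Pool.Agent.Collatz3.SB

open Pool.Agent.Collatz3.LT

/-- dyadic summation -/
private theorem dyadicB (P : ℕ → Prop) {E : ℝ} (hE : 0 ≤ E) (y0 : ℕ)
    (hB : ∀ y : ℕ, y0 ≤ y →
      ((({n : ℕ | y < 2 * n ∧ n ≤ y ∧ P n}.ncard : ℕ)) : ℝ) ≤ (y : ℝ) ^ E) :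
    ∀ x : ℕ, ((({n : ℕ | 1 ≤ n ∧ n ≤ x ∧ P n}.ncard : ℕ)) : ℝ) ≤
      y0 + ((Nat.log 2 x : ℕ) + 1) * (x : ℝ) ^ E := by
  intro x
  induction x using Nat.strong_induction_on with
  | _ x ih =>
    have hfin : ∀ y : ℕ, {n : ℕ | 1 ≤ n ∧ n ≤ y ∧ P n}.Finite := fun y =>
      (Set.finite_Icc 1 y).subset fun n hn => ⟨hn.1, hn.2.1⟩
    have hfin2 : {n : ℕ | x < 2 * n ∧ n ≤ x ∧ P n}.Finite :=
      (Set.finite_Icc 0 x).subset fun n hn => ⟨Nat.zero_le _, hn.2.1⟩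
    have hx0 : (0 : ℝ) ≤ (x : ℝ) ^ E := Real.rpow_nonneg (Nat.cast_nonneg x) E
    rcases lt_or_ge x y0 with hlt | hge
    · have h1 : {n : ℕ | 1 ≤ n ∧ n ≤ x ∧ P n}.ncard ≤ (Set.Icc 1 x).ncard :=
        Set.ncard_le_ncard (fun n hn => ⟨hn.1, hn.2.1⟩) (Set.finite_Icc 1 x)
      rw [← Finset.coe_Icc, Set.ncard_coe_finset, Nat.card_Icc, Nat.add_sub_cancel] at h1
      have h2 : ((({n : ℕ | 1 ≤ n ∧ n ≤ x ∧ P n}.ncard : ℕ)) : ℝ) ≤ y0 := by
        exact_mod_cast h1.trans hlt.le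
      have h3 : (0 : ℝ) ≤ ((Nat.log 2 x : ℕ) + 1) * (x : ℝ) ^ E := by positivity
      linarith
    rcases Nat.eq_zero_or_pos x with h0 | hpos
    · have h1 : {n : ℕ | 1 ≤ n ∧ n ≤ x ∧ P n} = ∅ := by
        ext n
        simp only [Set.mem_ofPred_eq, Set.mem_empty_iff_false, iff_false]
        omega
      rw [h1, Set.ncard_empty, Nat.cast_zero]
      positivity
    have hsub : {n : ℕ | 1 ≤ n ∧ n ≤ x ∧ P n} ⊆
        {n : ℕ | 1 ≤ n ∧ n ≤ x / 2 ∧ P n} ∪ {n : ℕ | x < 2 * n ∧ n ≤ x ∧ P n} := by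
      rintro n ⟨h1, h2, h3⟩
      rcases le_or_gt n (x / 2) with h | h
      · exact Or.inl ⟨h1, h, h3⟩
      · exact Or.inr ⟨by omega, h2, h3⟩
    have h1 : {n : ℕ | 1 ≤ n ∧ n ≤ x ∧ P n}.ncard ≤
        {n : ℕ | 1 ≤ n ∧ n ≤ x / 2 ∧ P n}.ncard + {n : ℕ | x < 2 * n ∧ n ≤ x ∧ P n}.ncard :=
      (Set.ncard_le_ncard hsub ((hfin _).union hfin2)).trans (Set.ncard_union_le _ _)
    have h1' : ((({n : ℕ | 1 ≤ n ∧ n ≤ x ∧ P n}.ncard : ℕ)) : ℝ) ≤
        ((({n : ℕ | 1 ≤ n ∧ n ≤ x / 2 ∧ P n}.ncard : ℕ)) : ℝ) +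
          ((({n : ℕ | x < 2 * n ∧ n ≤ x ∧ P n}.ncard : ℕ)) : ℝ) := by exact_mod_cast h1
    have h2 := ih (x / 2) (by omega)
    have h3 := hB x hge
    have h4 : (((x / 2 : ℕ) : ℕ) : ℝ) ^ E ≤ (x : ℝ) ^ E :=
      Real.rpow_le_rpow (Nat.cast_nonneg _) (by exact_mod_cast Nat.div_le_self x 2) hE
    rcases Nat.lt_or_ge x 2 with hx2 | hx2
    · have hx1 : x = 1 := by omega
      have h5 : {n : ℕ | 1 ≤ n ∧ n ≤ x / 2 ∧ P n} = ∅ := by
        ext n
        simp only [Set.mem_ofPred_eq, Set.mem_empty_iff_false, iff_false]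
        omega
      rw [h5, Set.ncard_empty, Nat.cast_zero, zero_add] at h1'
      have h6 : (0 : ℝ) ≤ (Nat.log 2 x : ℕ) * (x : ℝ) ^ E := by positivity
      have h7 : (0 : ℝ) ≤ y0 := Nat.cast_nonneg y0
      linarith
    · have h5 : Nat.log 2 x = Nat.log 2 (x / 2) + 1 := by
        have h6 := Nat.log_div_base 2 x
        have h7 : 0 < Nat.log 2 x := Nat.log_pos (by norm_num) hx2
        omega
      have h8 : (((Nat.log 2 (x / 2) : ℕ) : ℝ) + 1) * ((x / 2 : ℕ) : ℝ) ^ E ≤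
          (((Nat.log 2 (x / 2) : ℕ) : ℝ) + 1) * (x : ℝ) ^ E :=
        mul_le_mul_of_nonneg_left h4 (by positivity)
      have h9 : ((Nat.log 2 x : ℕ) : ℝ) = ((Nat.log 2 (x / 2) : ℕ) : ℝ) + 1 := by
        rw [h5]; push_cast; ring
      rw [h9]
      linarith

/-- polynomials are small -/
private theorem smallB (a b : ℝ) {c : ℝ} (hc : 0 < c) :
    ∀ᶠ z : ℝ in Filter.atTop, a + b * z ^ 2 ≤ Real.exp (c * z) := by
  have h1 := (isLittleO_pow_exp_pos_mul_atTop (k := 0) hc).def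
    (show (0 : ℝ) < 1 / (2 * (|a| + 1)) by positivity)
  have h2 := (isLittleO_pow_exp_pos_mul_atTop (k := 2) hc).def
    (show (0 : ℝ) < 1 / (2 * (|b| + 1)) by positivity)
  filter_upwards [h1, h2] with z z1 z2
  have e1 : ‖Real.exp (c * z)‖ = Real.exp (c * z) := Real.norm_of_nonneg (Real.exp_pos _).le
  rw [e1] at z1 z2
  rw [pow_zero, norm_one] at z1
  rw [Real.norm_of_nonneg (sq_nonneg z)] at z2
  have e0 := Real.exp_pos (c * z)
  have a1 : |a| + 1 ≤ Real.exp (c * z) / 2 := by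
    rw [one_div_mul_eq_div, le_div_iff₀ (by positivity)] at z1
    linarith
  have a2 : (|b| + 1) * z ^ 2 ≤ Real.exp (c * z) / 2 := by
    rw [one_div_mul_eq_div, le_div_iff₀ (by positivity)] at z2
    linarith
  have a3 : a ≤ |a| := le_abs_self a
  have a4 : b * z ^ 2 ≤ (|b| + 1) * z ^ 2 :=
    mul_le_mul_of_nonneg_right (by have := le_abs_self b; linarith) (sq_nonneg z)
  linarith

/-- the main estimate for one block -/
private theorem blockB {δ β ε : ℝ} (hδ0 : 0 < δ) (hδ1 : δ < 1)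
    (hβ : ((1 / 2) * Real.log (4 / 3))⁻¹ ≤ β)
    (hβ' : β ≤ (1 + min (√δ / 5) (1 / 40)) * ((1 / 2) * Real.log (4 / 3))⁻¹) (hε : 0 < ε) :
    0 ≤ 1 - (1 - δ) * (β * Leg.gL (1 / β)) ∧ ∀ᶠ y : ℕ in Filter.atTop,
      (({n : ℕ | y < 2 * n ∧ n ≤ y ∧ ∀ k : ℕ, (k : ℝ) ≤ β * ((1 - δ) * Real.log n) →
        (n : ℝ) ^ δ < ((T3^[k] n : ℕ) : ℝ)}.ncard : ℕ) : ℝ) ≤
        (y : ℝ) ^ (1 - (1 - δ) * (β * Leg.gL (1 / β)) + ε / 2) := by
  obtain ⟨ρ, hρ1, hρ2, hβ0, h1β, r3, r4⟩ := params_slow hβ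
  obtain ⟨w1, w2, w3⟩ := window hδ0 hδ1 hβ hβ' hρ1 h1β
  set θ := tht ρ with hθ
  set E := 1 - (1 - δ) * (β * Leg.gL (1 / β)) with hE
  set μ := 1 - Real.binEntropy (9 / 16) / Real.log 2 with hμ
  have l2 := log2_pos
  have hμ0 : 0 ≤ μ := by
    have h := Real.binEntropy_le_log_two (p := 9 / 16)
    rw [hμ, sub_nonneg, div_le_one l2]
    exact h
  have hμ1 : μ ≤ 1 := by
    have h : 0 ≤ Real.binEntropy (9 / 16) := Real.binEntropy_nonneg (by norm_num) (by norm_num)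
    rw [hμ]
    have := div_nonneg h l2.le
    linarith
  have hEμ : 1 - δ * μ ≤ E := by
    rw [hE, r4]
    linarith
  have hE0 : 0 ≤ E := by nlinarith
  refine ⟨hE0, ?_⟩
  have hσ : 0 ≤ θ - 1 := by linarith
  have e1 : 1 + (θ - 1) = θ := by ring
  obtain ⟨C, hC0, hC⟩ := @slow_upper par0 par0_letters
    (by rw [par0_Lv]; norm_num) (by
      show Real.log 2 - 9 / 16 * Real.log 3 - 81 / 100000 < Real.log 2 - 9 / 16 * Real.log 3
      norm_num) (θ - 1) hσ (by rw [e1]; exact w1) (ε / (4 * β)) (by positivity)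
  rw [par0_Lv, e1, ← hμ] at hC
  set Λ := LT.Lam θ with hΛ
  set D := Real.exp (θ * Real.log 2 + (θ - 1) * Real.log 2 + |Λ|) +
    Real.exp ((1 + μ) * Real.log 2) with hD
  have hD0 : 0 < D := by positivity
  have htz : Filter.Tendsto (fun y : ℕ => Real.log ((y : ℝ) / 2)) Filter.atTop Filter.atTop :=
    Real.tendsto_log_atTop.comp
      (tendsto_natCast_atTop_atTop.atTop_div_const (by norm_num))
  filter_upwards [htz.eventually (smallB 0 (C * D * (3 * (β + 1))) (show 0 < ε / 4 by positivity)),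
    htz.eventually (smallB 0 β hδ0), htz.eventually_ge_atTop 1,
    Filter.eventually_ge_atTop 1] with y y1 y2 y3 y4
  set z := Real.log ((y : ℝ) / 2) with hz
  have hy0 : (0 : ℝ) < y := by exact_mod_cast y4
  have hlogy : Real.log y = z + Real.log 2 := by
    rw [hz, Real.log_div hy0.ne' (by norm_num)]
    ring
  set L := ⌊Real.exp (δ * z)⌋₊ with hL
  set K := ⌊β * ((1 - δ) * z)⌋₊ with hK
  have hδ' : 0 < 1 - δ := by linarith
  have hz0 : 0 < z := by linarith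
  have hexp1 : 1 ≤ Real.exp (δ * z) := Real.one_le_exp (by positivity)
  have hL1 : 1 ≤ L := Nat.one_le_floor_iff _ |>.mpr hexp1
  have hKle : (K : ℝ) ≤ β * ((1 - δ) * z) := Nat.floor_le (by positivity)
  have hKgt : β * ((1 - δ) * z) < K + 1 := Nat.lt_floor_add_one _
  have hLle : (L : ℝ) ≤ Real.exp (δ * z) := Nat.floor_le (by positivity)
  have hLgt : Real.exp (δ * z) < L + 1 := Nat.lt_floor_add_one _
  have hKL : K ≤ L := by
    apply Nat.floor_le_floor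
    have h1 : β * ((1 - δ) * z) ≤ β * z ^ 2 := by
      refine mul_le_mul_of_nonneg_left ?_ hβ0.le
      have h2 := mul_pos hδ0 hz0
      have h3 : z * 1 ≤ z * z := mul_le_mul_of_nonneg_left y3 hz0.le
      rw [pow_two]
      linarith
    linarith
  have hsub : {n : ℕ | y < 2 * n ∧ n ≤ y ∧ ∀ k : ℕ, (k : ℝ) ≤ β * ((1 - δ) * Real.log n) →
        (n : ℝ) ^ δ < ((T3^[k] n : ℕ) : ℝ)} ⊆
      {n : ℕ | 1 ≤ n ∧ n ≤ y ∧ ∀ k ≤ K, L < T3^[k] n} := by
    rintro n ⟨n1, n2, n3⟩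
    have hn1 : 1 ≤ n := by omega
    have hn0 : (0 : ℝ) < n := by exact_mod_cast hn1
    refine ⟨hn1, n2, fun k hk => ?_⟩
    have hzn : z ≤ Real.log n := by
      apply Real.log_le_log (by positivity)
      have : (y : ℝ) < 2 * n := by exact_mod_cast n1
      linarith
    have hk' : (k : ℝ) ≤ β * ((1 - δ) * Real.log n) := by
      have h1 : (k : ℝ) ≤ K := by exact_mod_cast hk
      have h2 : β * ((1 - δ) * z) ≤ β * ((1 - δ) * Real.log n) :=
        mul_le_mul_of_nonneg_left (mul_le_mul_of_nonneg_left hzn hδ'.le) hβ0.le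
      linarith
    have h3 := n3 k hk'
    have h4 : Real.exp (δ * z) ≤ (n : ℝ) ^ δ := by
      rw [Real.rpow_def_of_pos hn0, mul_comm (Real.log _)]
      exact Real.exp_le_exp.mpr (mul_le_mul_of_nonneg_left hzn hδ0.le)
    have h5 : (L : ℝ) < ((T3^[k] n : ℕ) : ℝ) := by linarith
    exact_mod_cast h5
  have hcard : (({n : ℕ | y < 2 * n ∧ n ≤ y ∧ ∀ k : ℕ, (k : ℝ) ≤ β * ((1 - δ) * Real.log n) →
        (n : ℝ) ^ δ < ((T3^[k] n : ℕ) : ℝ)}.ncard : ℕ) : ℝ) ≤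
      ((({n : ℕ | 1 ≤ n ∧ n ≤ y ∧ ∀ k ≤ K, L < T3^[k] n}.ncard : ℕ)) : ℝ) := by
    have := Set.ncard_le_ncard hsub
      ((Set.finite_Icc 1 y).subset fun n hn => ⟨hn.1, hn.2.1⟩)
    exact_mod_cast this
  refine (hcard.trans (hC y L K y4 hL1 hKL)).trans ?_
  have hL0 : (0 : ℝ) < L := by exact_mod_cast hL1
  have hL1' : (1 : ℝ) ≤ L := by exact_mod_cast hL1
  have hLhalf : Real.exp (δ * z - Real.log 2) ≤ L := by
    rw [Real.exp_sub, Real.exp_log (by norm_num), div_le_iff₀ (by norm_num)]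
    linarith
  have hLpow : ∀ s : ℝ, 0 ≤ s → (L : ℝ) ^ (-s) ≤ Real.exp (-s * (δ * z - Real.log 2)) := by
    intro s hs
    rw [Real.rpow_def_of_pos hL0]
    apply Real.exp_le_exp.mpr
    have h1 : δ * z - Real.log 2 ≤ Real.log L := by
      rw [Real.le_log_iff_exp_le hL0]
      exact hLhalf
    nlinarith
  have hA1 : (y : ℝ) ^ θ * (L : ℝ) ^ (-(θ - 1)) * Real.exp (Λ * K) ≤
      Real.exp (E * z) * Real.exp (θ * Real.log 2 + (θ - 1) * Real.log 2 + |Λ|) := by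
    have h1 : (y : ℝ) ^ θ = Real.exp (θ * (z + Real.log 2)) := by
      rw [Real.rpow_def_of_pos hy0, hlogy, mul_comm]
    have h2 := hLpow (θ - 1) hσ
    have h3 : Λ * K ≤ Λ * (β * ((1 - δ) * z)) + |Λ| := by
      have h4 : |(K : ℝ) - β * ((1 - δ) * z)| ≤ 1 := by
        rw [abs_le]
        constructor <;> linarith
      have h5 : Λ * ((K : ℝ) - β * ((1 - δ) * z)) ≤ |Λ| := by
        refine (le_abs_self _).trans ?_
        rw [abs_mul]
        have := mul_le_mul_of_nonneg_left h4 (abs_nonneg Λ)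
        linarith
      linarith
    rw [h1, ← Real.exp_add]
    calc Real.exp (θ * (z + Real.log 2)) * (L : ℝ) ^ (-(θ - 1)) * Real.exp (Λ * K)
        ≤ Real.exp (θ * (z + Real.log 2)) * Real.exp (-(θ - 1) * (δ * z - Real.log 2)) *
          Real.exp (Λ * (β * ((1 - δ) * z)) + |Λ|) := by
          refine mul_le_mul (mul_le_mul_of_nonneg_left h2 (Real.exp_pos _).le)
            (Real.exp_le_exp.mpr h3) (Real.exp_pos _).le (by positivity)
      _ = Real.exp (E * z + (θ * Real.log 2 + (θ - 1) * Real.log 2 + |Λ|)) := by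
          rw [← Real.exp_add, ← Real.exp_add]
          congr 1
          have h6 : E = δ + (1 - δ) * (β * Λ + θ) := by
            rw [hE, r3]
            ring
          rw [h6]
          ring
      _ ≤ _ := le_refl _
  have hA2 : (y : ℝ) * (L : ℝ) ^ (-μ) ≤
      Real.exp (E * z) * Real.exp ((1 + μ) * Real.log 2) := by
    have h1 : (y : ℝ) = Real.exp (z + Real.log 2) := by
      rw [← hlogy, Real.exp_log hy0]
    have h2 := hLpow μ hμ0
    calc (y : ℝ) * (L : ℝ) ^ (-μ) ≤ (y : ℝ) * Real.exp (-μ * (δ * z - Real.log 2)) :=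
          mul_le_mul_of_nonneg_left h2 hy0.le
      _ = Real.exp ((1 - δ * μ) * z + (1 + μ) * Real.log 2) := by
          nth_rewrite 1 [h1]
          rw [← Real.exp_add]
          congr 1
          ring
      _ ≤ Real.exp (E * z + (1 + μ) * Real.log 2) := by
          apply Real.exp_le_exp.mpr
          have := mul_le_mul_of_nonneg_right hEμ hz0.le
          linarith
      _ = _ := Real.exp_add _ _
  have hsum : (y : ℝ) ^ θ * (L : ℝ) ^ (-(θ - 1)) * Real.exp (Λ * K) + (y : ℝ) * (L : ℝ) ^ (-μ) ≤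
      D * Real.exp (E * z) := by
    rw [hD, add_mul]
    linarith [mul_comm (Real.exp (E * z))
      (Real.exp (θ * Real.log 2 + (θ - 1) * Real.log 2 + |Λ|)),
      mul_comm (Real.exp (E * z)) (Real.exp ((1 + μ) * Real.log 2))]
  have hdz : (1 - δ) * z ≤ z := by
    have := mul_pos hδ0 hz0
    linarith
  have hKz : (K : ℝ) ≤ β * z := hKle.trans (mul_le_mul_of_nonneg_left hdz hβ0.le)
  have hK1 : (K : ℝ) + 1 ≤ (β + 1) * z := by
    have h1 : (β + 1) * z = β * z + z := by ring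
    rw [h1]
    linarith
  have hl1 : Real.log y + 1 ≤ 3 * z := by
    have h2 : Real.log 2 ≤ 1 := by
      have := Real.log_two_lt_d9
      linarith
    rw [hlogy]
    linarith
  have hly0 : 0 ≤ Real.log y := Real.log_natCast_nonneg y
  have hexpK : Real.exp (ε / (4 * β) * K) ≤ Real.exp (ε / 4 * z) := by
    apply Real.exp_le_exp.mpr
    calc ε / (4 * β) * K ≤ ε / (4 * β) * (β * z) :=
          mul_le_mul_of_nonneg_left hKz (by positivity)
      _ = ε / 4 * z := by field_simp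
  have hK0 : (0 : ℝ) ≤ (K : ℝ) := Nat.cast_nonneg K
  calc C * (K + 1) * (Real.log y + 1) * Real.exp (ε / (4 * β) * K) *
        ((y : ℝ) ^ θ * (L : ℝ) ^ (-(θ - 1)) * Real.exp (Λ * K) + (y : ℝ) * (L : ℝ) ^ (-μ))
      ≤ C * ((β + 1) * z) * (3 * z) * Real.exp (ε / 4 * z) * (D * Real.exp (E * z)) := by
        refine mul_le_mul (mul_le_mul (mul_le_mul (mul_le_mul_of_nonneg_left hK1 hC0.le) hl1
          (by positivity) (by positivity)) hexpK (by positivity) (by positivity)) hsum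
          (by positivity) (by positivity)
    _ = (C * D * (3 * (β + 1)) * z ^ 2) * (Real.exp (ε / 4 * z) * Real.exp (E * z)) := by ring
    _ ≤ Real.exp (ε / 4 * z) * (Real.exp (ε / 4 * z) * Real.exp (E * z)) := by
        refine mul_le_mul_of_nonneg_right ?_ (by positivity)
        linarith
    _ = Real.exp ((E + ε / 2) * z) := by
        rw [← Real.exp_add, ← Real.exp_add]
        congr 1
        ring
    _ ≤ Real.exp (Real.log y * (E + ε / 2)) := by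
        apply Real.exp_le_exp.mpr
        have h1 : z ≤ Real.log y := by linarith
        have := mul_le_mul_of_nonneg_left h1 (show 0 ≤ E + ε / 2 by positivity)
        linarith
    _ = (y : ℝ) ^ (E + ε / 2) := (Real.rpow_def_of_pos hy0 _).symm

/-- FINB -/
theorem fin_slow_upper {δ β ε : ℝ} (hδ0 : 0 < δ) (hδ1 : δ < 1)
    (hβ : ((1 / 2) * Real.log (4 / 3))⁻¹ ≤ β)
    (hβ' : β ≤ (1 + min (√δ / 5) (1 / 40)) * ((1 / 2) * Real.log (4 / 3))⁻¹) (hε : 0 < ε) :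
    ∀ᶠ x : ℕ in Filter.atTop,
      (({n : ℕ | 1 ≤ n ∧ n ≤ x ∧ ∀ k : ℕ, (k : ℝ) ≤ β * ((1 - δ) * Real.log n) →
        (n : ℝ) ^ δ < ((T3^[k] n : ℕ) : ℝ)}.ncard : ℕ) : ℝ) ≤
        (x : ℝ) ^ (1 - (1 - δ) * (β * Leg.gL (1 / β)) + ε) := by
  obtain ⟨hE0, hB⟩ := blockB hδ0 hδ1 hβ hβ' hε
  set E := 1 - (1 - δ) * (β * Leg.gL (1 / β)) with hE
  obtain ⟨y0, hy0⟩ := Filter.eventually_atTop.mp hB
  have hdy := dyadicB (fun n : ℕ => ∀ k : ℕ, (k : ℝ) ≤ β * ((1 - δ) * Real.log n) →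
    (n : ℝ) ^ δ < ((T3^[k] n : ℕ) : ℝ)) (show 0 ≤ E + ε / 2 by positivity) y0 hy0
  have htz : Filter.Tendsto (fun y : ℕ => Real.log (y : ℝ)) Filter.atTop Filter.atTop :=
    Real.tendsto_log_atTop.comp tendsto_natCast_atTop_atTop
  filter_upwards [htz.eventually (smallB (y0 + 1) 2 (show 0 < ε / 2 by positivity)),
    htz.eventually_ge_atTop 1, Filter.eventually_ge_atTop 1] with x x1 x2 x3
  refine (hdy x).trans ?_
  have hx0 : (0 : ℝ) < x := by exact_mod_cast x3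
  set z := Real.log (x : ℝ) with hz
  have h1 : (x : ℝ) ^ (E + ε / 2) = Real.exp ((E + ε / 2) * z) := by
    rw [Real.rpow_def_of_pos hx0, mul_comm]
  have h2 : (x : ℝ) ^ (E + ε) = Real.exp (ε / 2 * z) * Real.exp ((E + ε / 2) * z) := by
    rw [Real.rpow_def_of_pos hx0, ← Real.exp_add]
    congr 1
    ring
  have h3 : ((Nat.log 2 x : ℕ) : ℝ) ≤ 2 * z ^ 2 := by
    have h4 := Nat.pow_log_le_self 2 (show x ≠ 0 by omega)
    have h5 : ((2 : ℝ)) ^ (Nat.log 2 x) ≤ x := by exact_mod_cast h4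
    have h6 := Real.log_le_log (by positivity) h5
    rw [Real.log_pow, ← hz] at h6
    have h7 : (1 / 2 : ℝ) ≤ Real.log 2 := by
      have := Real.log_two_gt_d9
      linarith
    have h8 : (0 : ℝ) ≤ ((Nat.log 2 x : ℕ) : ℝ) := Nat.cast_nonneg _
    nlinarith
  have h4 : (1 : ℝ) ≤ Real.exp ((E + ε / 2) * z) :=
    Real.one_le_exp (by positivity)
  rw [h1, h2]
  have h5 : (0 : ℝ) ≤ y0 := Nat.cast_nonneg y0
  have h6 : (y0 : ℝ) + (((Nat.log 2 x : ℕ) : ℝ) + 1) * Real.exp ((E + ε / 2) * z) ≤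
      ((y0 : ℝ) + 1 + 2 * z ^ 2) * Real.exp ((E + ε / 2) * z) := by
    have h7 : (y0 : ℝ) ≤ y0 * Real.exp ((E + ε / 2) * z) := by nlinarith
    have h8 : (((Nat.log 2 x : ℕ) : ℝ) + 1) * Real.exp ((E + ε / 2) * z) ≤
        (1 + 2 * z ^ 2) * Real.exp ((E + ε / 2) * z) :=
      mul_le_mul_of_nonneg_right (by linarith) (by positivity)
    nlinarith
  exact h6.trans (mul_le_mul_of_nonneg_right x1 (by positivity))

end Pool.Agent.Collatz3.SB
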