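import Pool.Agent.Collatz3.SBCon

set_option autoImplicit false

/-!
The lower bound for the number of fast paths down to a power of the starting point.
-/

open Finset
open scoped Classical

namespace Pool.Agent.Collatz3.SB

open Pool.Agent.Collatz3.LT

theorem prod_le_exp {S L b : ℕ} (hL : S ≤ L) (h : ∀ k ≤ S, L < T3^[k] b) :
    ∏ i ∈ range S, (1 + 1 / ((T3^[i] b : ℕ) : ℝ)) ≤ Real.exp 1 := by
  have h1 : ∏ i ∈ range S, (1 + 1 / ((T3^[i] b : ℕ) : ℝ)) ≤
      ∏ i ∈ range S, Real.exp (1 / ((S : ℝ) + 1)) := by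
    refine prod_le_prod (fun i _ => by positivity) fun i hi => ?_
    rw [mem_range] at hi
    have h2 : (S : ℝ) + 1 ≤ (T3^[i] b : ℕ) := by
      have := h i hi.le
      exact_mod_cast (show S + 1 ≤ T3^[i] b by omega)
    have h3 : 1 / ((T3^[i] b : ℕ) : ℝ) ≤ 1 / ((S : ℝ) + 1) :=
      one_div_le_one_div_of_le (by positivity) h2
    have h4 := Real.add_one_le_exp (1 / ((S : ℝ) + 1))
    linarith
  refine h1.trans ?_
  rw [prod_const, card_range, ← Real.exp_nat_mul]
  apply Real.exp_le_exp.2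
  rw [mul_one_div, div_le_one (by positivity)]
  linarith

/-- logarithms of linear functions are small -/
theorem log_lin {A B γ : ℝ} (hB : 0 < B) (hγ : 0 < γ) : ∀ᶠ x : ℕ in Filter.atTop,
    A + Real.log (B * Real.log x + 1) ≤ γ * Real.log x := by
  have hlogtop : Filter.Tendsto (fun x : ℕ => Real.log (x : ℝ)) Filter.atTop Filter.atTop :=
    Real.tendsto_log_atTop.comp tendsto_natCast_atTop_atTop
  set m : ℝ := 2 * B / γ with hm
  have hm0 : 0 < m := by positivity
  filter_upwards [hlogtop.eventually_ge_atTop ((A + Real.log m + 1 / m) / (γ / 2)),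
    hlogtop.eventually_ge_atTop 0] with x h1 h2
  have hy : 0 < B * Real.log x + 1 := by positivity
  have h3 := Real.log_le_sub_one_of_pos (show 0 < (B * Real.log x + 1) / m by positivity)
  rw [Real.log_div hy.ne' hm0.ne'] at h3
  rw [div_le_iff₀ (by positivity)] at h1
  have h4 : (B * Real.log x + 1) / m = γ / 2 * Real.log x + 1 / m := by
    rw [hm]
    field_simp
  rw [h4] at h3
  linarith

/-- the construction for a given bound `x` of the starting points -/
theorem core {t : ℝ} (h0 : 0 < t) (h1 : t < 1) (hH : t * Real.log 3 < Real.binEntropy t)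
    {d : ℝ} (hd : 0 < d) {s g D : ℝ} (hs : s = Real.log 2 / t)
    (hg : g = Real.binEntropy t / t - Real.log 3) (hdg : d < g) (hD : D = s + d - Real.log 3)
    (hD0 : 0 < D) {a : ℝ} (a0 : 0 < a) (a1 : a < 1) :
    ∀ᶠ x : ℕ in Filter.atTop, ∃ M S : ℕ, (M : ℝ) ≤ (x : ℝ) ^ a / 2 ∧ (x : ℝ) ^ a / 4 ≤ M ∧
      S * Real.log 2 ≤ (s + d) / D * (1 - a) * Real.log x ∧
      (s + d) / D * (1 - a) * Real.log x - (s + d) - Real.log 2 ≤ S * Real.log 2 ∧
      ∀ L : ℕ, 6 * (L + 1) * (S + 1) ≤ M → ∃ F : Finset ℕ,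
        (∀ b ∈ F, b ≤ x ∧ ((T3^[S] b : ℕ) : ℝ) ≤ (x : ℝ) ^ a ∧ (∀ k ≤ S, L < T3^[k] b) ∧
          (S ≤ L → Real.log x - (D + Real.log 8 + 1) ≤ Real.log b)) ∧
        Real.exp ((a + (g - d) / D * (1 - a)) * Real.log x - (Real.log 16 + (g - d)) -
          Real.log (S + 1)) ≤ F.card := by
  obtain ⟨N₀, hN₀⟩ := construction h0 h1 hH hd
  have l2 := log2_pos
  have l3 := log3_pos
  have hs0 : 0 < s := by rw [hs]; positivity
  have hlogtop : Filter.Tendsto (fun x : ℕ => Real.log (x : ℝ)) Filter.atTop Filter.atTop :=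
    Real.tendsto_log_atTop.comp tendsto_natCast_atTop_atTop
  filter_upwards [hlogtop.eventually_ge_atTop (D * (N₀ + 1) / (1 - a)),
    hlogtop.eventually_ge_atTop (Real.log 4 / a),
    Filter.eventually_ge_atTop 1] with x hx1 hx2 hx3
  have hx0 : (0 : ℝ) < x := by exact_mod_cast hx3
  obtain ⟨X, hX⟩ : ∃ X, X = Real.log x := ⟨_, rfl⟩
  rw [← hX] at hx1 hx2
  have hxa : (x : ℝ) ^ a = Real.exp (a * X) := by
    rw [Real.rpow_def_of_pos hx0, ← hX, mul_comm]
  have hX0 : 0 ≤ X := by
    rw [hX]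
    exact Real.log_natCast_nonneg x
  rw [div_le_iff₀ (by linarith)] at hx1
  rw [div_le_iff₀ a0] at hx2
  -- the parameters
  obtain ⟨r, hr⟩ : ∃ r, r = ⌊(1 - a) * X / D⌋₊ := ⟨_, rfl⟩
  have hr1 : D * r ≤ (1 - a) * X := by
    have : (r : ℝ) ≤ (1 - a) * X / D := by
      rw [hr]
      exact Nat.floor_le (by have : 0 < 1 - a := by linarith
                             positivity)
    rw [le_div_iff₀ hD0] at this
    linarith
  have hr2 : (1 - a) * X - D ≤ D * r := by
    have : (1 - a) * X / D < r + 1 := by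
      rw [hr]
      exact Nat.lt_floor_add_one _
    rw [div_lt_iff₀ hD0] at this
    linarith
  have hrN : N₀ ≤ r := by
    rw [hr]
    apply Nat.le_floor
    rw [le_div_iff₀ hD0]
    linarith
  obtain ⟨S, hS⟩ : ∃ S, S = SS t d r := ⟨_, rfl⟩
  have hS1 : S * Real.log 2 ≤ (s + d) * r := by
    have : (S : ℝ) ≤ (Real.log 2 / t + d) * r / Real.log 2 := by
      rw [hS, SS]
      exact Nat.floor_le (by positivity)
    rw [le_div_iff₀ l2, ← hs] at this
    exact this
  have hS2 : (s + d) * r - Real.log 2 ≤ S * Real.log 2 := by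
    have : (Real.log 2 / t + d) * r / Real.log 2 < S + 1 := by
      rw [hS, SS]
      exact Nat.lt_floor_add_one _
    rw [div_lt_iff₀ l2, ← hs] at this
    linarith
  have hsd : 0 < s + d := by linarith
  have hq0 : 0 < (s + d) / D := by positivity
  have hqD : (s + d) / D * D = s + d := div_mul_cancel₀ _ hD0.ne'
  obtain ⟨q, hq⟩ : ∃ q, q = (s + d) / D := ⟨_, rfl⟩
  rw [← hq] at hq0 hqD ⊢
  obtain ⟨M, hM⟩ : ∃ M, M = ⌊Real.exp (a * X) / 2⌋₊ := ⟨_, rfl⟩
  have hM1 : (M : ℝ) ≤ Real.exp (a * X) / 2 := by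
    rw [hM]
    exact Nat.floor_le (by positivity)
  have hM2 : Real.exp (a * X) / 4 ≤ M := by
    have e1 : Real.exp (a * X) / 2 < M + 1 := by
      rw [hM]
      exact Nat.lt_floor_add_one _
    have e2 : 4 ≤ Real.exp (a * X) := by
      have := Real.exp_le_exp.2 hx2
      rw [Real.exp_log (by norm_num), mul_comm] at this
      exact this
    linarith
  refine ⟨M, S, by rw [hxa]; exact hM1, by rw [hxa]; exact hM2, ?_, ?_, ?_⟩
  · rw [← hX]
    calc S * Real.log 2 ≤ (s + d) * r := hS1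
      _ = q * (D * r) := by rw [← hqD]; ring
      _ ≤ q * ((1 - a) * X) := mul_le_mul_of_nonneg_left hr1 hq0.le
      _ = q * (1 - a) * X := by ring
  · rw [← hX]
    have e1 : q * ((1 - a) * X - D) ≤ q * (D * r) := mul_le_mul_of_nonneg_left hr2 hq0.le
    have e2 : q * ((1 - a) * X - D) = q * (1 - a) * X - (s + d) := by rw [← hqD]; ring
    have e3 : q * (D * r) = (s + d) * r := by rw [← hqD]; ring
    linarith
  · intro L hL
    have hcon := hN₀ r hrN M L (by rw [← hS]; exact hL)
    rw [← hS] at hcon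
    set T : Set ℕ := {b : ℕ | M < T3^[S] b ∧ T3^[S] b ≤ 2 * M ∧ jj (wd S b) = r ∧
      ∀ k ≤ S, L < T3^[k] b} with hT
    have hTfin : T.Finite := by
      refine (Set.finite_Iic (2 ^ S * (2 * M))).subset ?_
      rintro b ⟨_, hb, _⟩
      exact (le_pow_iter S b).trans (Nat.mul_le_mul_left _ hb)
    refine ⟨hTfin.toFinset, ?_, ?_⟩
    · intro b hb
      rw [Set.Finite.mem_toFinset] at hb
      obtain ⟨b1, b2, b3, b4⟩ := hb
      have hht : ht (wd S b) = S * Real.log 2 - r * Real.log 3 := by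
        rw [ht, wd_length, b3, hh]
      have hb0 : (0 : ℝ) < b := by
        have := b4 0 (Nat.zero_le _)
        rw [Function.iterate_zero, id_eq] at this
        exact_mod_cast (show 0 < b by omega)
      have b2' : ((T3^[S] b : ℕ) : ℝ) ≤ Real.exp (a * X) := by
        have : ((T3^[S] b : ℕ) : ℝ) ≤ 2 * M := by exact_mod_cast b2
        linarith
      refine ⟨?_, by rw [hxa]; exact b2', b4, ?_⟩
      · have e1 := node_le S b
        rw [hht] at e1
        have e2 : (b : ℝ) ≤ Real.exp X := by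
          calc (b : ℝ) ≤ (T3^[S] b : ℕ) * Real.exp (S * Real.log 2 - r * Real.log 3) := e1
            _ ≤ Real.exp (a * X) * Real.exp (S * Real.log 2 - r * Real.log 3) :=
                mul_le_mul_of_nonneg_right b2' (Real.exp_pos _).le
            _ = Real.exp (a * X + (S * Real.log 2 - r * Real.log 3)) := (Real.exp_add _ _).symm
            _ ≤ Real.exp X := by
                apply Real.exp_le_exp.2
                have e3 : D * r = (s + d) * r - r * Real.log 3 := by rw [hD]; ring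
                linarith
        rw [hX, Real.exp_log hx0] at e2
        exact_mod_cast e2
      · intro hSL
        have e1 := node_prod S b (by omega)
        have e2 := prod_le_exp hSL b4
        have e3 : (2 : ℝ) ^ S * M ≤ 3 ^ r * b * Real.exp 1 := by
          have e4 : (M : ℝ) ≤ (T3^[S] b : ℕ) := by exact_mod_cast b1.le
          rw [b3] at e1
          calc (2 : ℝ) ^ S * M ≤ 2 ^ S * (T3^[S] b : ℕ) :=
                mul_le_mul_of_nonneg_left e4 (by positivity)
            _ ≤ _ := e1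
            _ ≤ _ := mul_le_mul_of_nonneg_left e2 (by positivity)
        have hMpos : (0 : ℝ) < M := lt_of_lt_of_le (by positivity) hM2
        have e5 := Real.log_le_log (by positivity) e3
        rw [Real.log_mul (by positivity) hMpos.ne', Real.log_mul (by positivity)
          (Real.exp_pos _).ne', Real.log_mul (by positivity) hb0.ne', Real.log_pow, Real.log_pow,
          Real.log_exp] at e5
        have e6 := Real.log_le_log (by positivity) hM2
        rw [Real.log_div (Real.exp_pos _).ne' (by norm_num), Real.log_exp] at e6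
        have e7 : Real.log 8 = Real.log 4 + Real.log 2 := by
          rw [← Real.log_mul (by norm_num) (by norm_num)]
          norm_num
        have e8 : D * r = (s + d) * r - r * Real.log 3 := by rw [hD]; ring
        rw [← hX]
        linarith
    · have e0 : (T.ncard : ℝ) = (hTfin.toFinset.card : ℝ) := by
        rw [Set.ncard_eq_toFinset_card _ hTfin]
      rw [← e0]
      refine le_trans ?_ hcon
      rw [← hg, le_div_iff₀ (by positivity), ← hX]
      have e1 : Real.exp (Real.log (4 * (S + 1))) = 4 * (S + 1) := Real.exp_log (by positivity)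
      have e2 : (4 : ℝ) * (S + 1) = Real.exp (Real.log 4 + Real.log (S + 1)) := by
        rw [← e1, Real.log_mul (by norm_num) (by positivity)]
      rw [e2, ← Real.exp_add]
      have e3 : Real.exp (a * X - Real.log 4) ≤ M := by
        rw [Real.exp_sub, Real.exp_log (by norm_num)]
        exact hM2
      refine le_trans ?_ (mul_le_mul_of_nonneg_left e3 (Real.exp_pos _).le)
      rw [← Real.exp_add]
      apply Real.exp_le_exp.2
      have e4 : Real.log 16 = Real.log 4 + Real.log 4 := by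
        rw [← Real.log_mul (by norm_num) (by norm_num)]
        norm_num
      have e5 : (g - d) / D * D = g - d := div_mul_cancel₀ _ hD0.ne'
      have e6 : (g - d) / D * ((1 - a) * X - D) ≤ (g - d) / D * (D * r) :=
        mul_le_mul_of_nonneg_left hr2 (div_nonneg (by linarith) hD0.le)
      have e7 : (g - d) / D * ((1 - a) * X - D) = (g - d) / D * (1 - a) * X - (g - d) := by
        rw [mul_sub, e5]; ring
      have e8 : (g - d) / D * (D * r) = (g - d) * r := by
        rw [← mul_assoc, e5]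
      rw [e7, e8] at e6
      linarith

/-- the limit exponents of the construction -/
theorem limits {t : ℝ} (h0 : 0 < t) (hD : 0 < Real.log 2 - t * Real.log 3) :
    0 < Real.log 2 / t - Real.log 3 ∧
    Real.log 2 / t / (Real.log 2 / t - Real.log 3) = Real.log 2 / (Real.log 2 - t * Real.log 3) ∧
    (Real.binEntropy t / t - Real.log 3) / (Real.log 2 / t - Real.log 3) =
      (Real.binEntropy t - t * Real.log 3) / (Real.log 2 - t * Real.log 3) := by
  have e1 : Real.log 2 / t - Real.log 3 = (Real.log 2 - t * Real.log 3) / t := by field_simp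
  have e2 : Real.binEntropy t / t - Real.log 3 = (Real.binEntropy t - t * Real.log 3) / t := by
    field_simp
  refine ⟨by rw [e1]; positivity, ?_, ?_⟩
  · rw [e1, div_div_div_cancel_right₀ h0.ne']
  · rw [e1, e2, div_div_div_cancel_right₀ h0.ne']

/-- FINC -/
theorem fin_fast_lower {δ c ε : ℝ} (hδ0 : 0 < δ) (hδ1 : δ < 1) (hc : 1 / Real.log 2 < c)
    (hc' : c < ((1 / 2) * Real.log (4 / 3))⁻¹) (hε : 0 < ε) : ∀ᶠ x : ℕ in Filter.atTop,
      (x : ℝ) ^ (1 - (1 - δ) * (c * Leg.gL (1 / c)) - ε) ≤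
      (({n : ℕ | 1 ≤ n ∧ n ≤ x ∧ ∃ k : ℕ, (k : ℝ) ≤ c * ((1 - δ) * Real.log n) ∧
        ((T3^[k] n : ℕ) : ℝ) ≤ (n : ℝ) ^ δ}.ncard : ℕ) : ℝ) := by
  have l2 := log2_pos
  have l3 := log3_pos
  obtain ⟨ρ, r0, r1, hc0, r2, -⟩ := params hc hc'
  have hDρ : 0 < Real.log 2 - ρ * Real.log 3 := by rw [← r2]; positivity
  have hexp := Leg.exponent_eq r0 (by linarith) r2 hDρ
  -- choice of the slope
  have hcont : ContinuousAt (fun t : ℝ =>
      (Real.binEntropy t - t * Real.log 3) / (Real.log 2 - t * Real.log 3)) ρ := by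
    apply ContinuousAt.div (by fun_prop) (by fun_prop)
    exact hDρ.ne'
  have hev : ∀ᶠ t in nhdsWithin ρ (Set.Iio ρ),
      (1 - c * Leg.gL (1 / c) - ε <
        (Real.binEntropy t - t * Real.log 3) / (Real.log 2 - t * Real.log 3) ∧ 0 < t) ∧ t < ρ := by
    have e1 : 1 - c * Leg.gL (1 / c) - ε <
        (Real.binEntropy ρ - ρ * Real.log 3) / (Real.log 2 - ρ * Real.log 3) := by
      rw [← hexp]
      linarith
    have e2 := hcont.tendsto.eventually (lt_mem_nhds e1)
    have e3 : ∀ᶠ t in nhds ρ, 0 < t := lt_mem_nhds r0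
    filter_upwards [(e2.and e3).filter_mono nhdsWithin_le_nhds, self_mem_nhdsWithin] with t h8 h9
    exact ⟨h8, h9⟩
  obtain ⟨t, ⟨t1, t2⟩, t3⟩ := hev.exists
  have hDt : Real.log 2 - ρ * Real.log 3 < Real.log 2 - t * Real.log 3 := by
    have := mul_lt_mul_of_pos_right t3 l3
    linarith
  have hDt0 : 0 < Real.log 2 - t * Real.log 3 := hDρ.trans hDt
  have hH := lt_binEntropy t2 (show t < 1 / 2 by linarith)
  obtain ⟨hsl, hlim1, hlim2⟩ := limits t2 hDt0
  rw [← hlim2] at t1
  obtain ⟨s, hs⟩ : ∃ s, s = Real.log 2 / t := ⟨_, rfl⟩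
  obtain ⟨g, hg⟩ : ∃ g, g = Real.binEntropy t / t - Real.log 3 := ⟨_, rfl⟩
  rw [← hs] at hsl hlim1 t1
  rw [← hg] at t1
  have hg0 : 0 < g := by
    rw [hg, sub_pos, lt_div_iff₀ t2]
    linarith
  have hs0 : 0 < s := by rw [hs]; positivity
  set τ := 1 - (1 - δ) * (c * Leg.gL (1 / c)) - ε with hτ
  -- choice of the small parameter
  have hev2 : ∀ᶠ η in nhdsWithin (0 : ℝ) (Set.Ioi 0),
      (τ < δ * (1 - η) + (g - η) / (s + η - Real.log 3) * (1 - δ * (1 - η)) ∧
        (s + η) / (s + η - Real.log 3) * (1 - δ * (1 - η)) < c * (1 - δ) * Real.log 2 ∧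
        η < g ∧ η < 1) ∧ 0 < η := by
    have c1 : ContinuousAt (fun η : ℝ => δ * (1 - η) +
        (g - η) / (s + η - Real.log 3) * (1 - δ * (1 - η))) 0 := by
      have : ContinuousAt (fun η : ℝ => (g - η) / (s + η - Real.log 3)) 0 := by
        apply ContinuousAt.div (by fun_prop) (by fun_prop)
        simp only [add_zero]
        exact hsl.ne'
      fun_prop
    have c2 : ContinuousAt (fun η : ℝ =>
        (s + η) / (s + η - Real.log 3) * (1 - δ * (1 - η))) 0 := by
      have : ContinuousAt (fun η : ℝ => (s + η) / (s + η - Real.log 3)) 0 := by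
        apply ContinuousAt.div (by fun_prop) (by fun_prop)
        simp only [add_zero]
        exact hsl.ne'
      fun_prop
    have e1 := c1.tendsto.eventually (lt_mem_nhds (a := τ) (by
      simp only [add_zero, sub_zero, mul_one]
      have h5 : (1 - c * Leg.gL (1 / c) - ε) * (1 - δ) < g / (s - Real.log 3) * (1 - δ) :=
        mul_lt_mul_of_pos_right t1 (by linarith)
      have h6 : 0 < δ * ε := by positivity
      rw [hτ]
      nlinarith))
    have e2 := c2.tendsto.eventually (gt_mem_nhds (a := c * (1 - δ) * Real.log 2) (by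
      simp only [add_zero, sub_zero, mul_one]
      have h5 : s / (s - Real.log 3) < c * Real.log 2 := by
        rw [hlim1, div_lt_iff₀ hDt0]
        have h6 : c * (Real.log 2 - ρ * Real.log 3) = 1 := by rw [← r2]; field_simp
        have h7 : c * (Real.log 2 - ρ * Real.log 3) < c * (Real.log 2 - t * Real.log 3) :=
          mul_lt_mul_of_pos_left hDt hc0
        rw [h6] at h7
        have h8 := mul_lt_mul_of_pos_left h7 l2
        linarith
      have h9 := mul_lt_mul_of_pos_right h5 (show 0 < 1 - δ by linarith)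
      linarith))
    have e3 : ∀ᶠ η in nhds (0 : ℝ), η < g := gt_mem_nhds hg0
    have e4 : ∀ᶠ η in nhds (0 : ℝ), η < 1 := gt_mem_nhds one_pos
    filter_upwards [(e1.and (e2.and (e3.and e4))).filter_mono nhdsWithin_le_nhds,
      self_mem_nhdsWithin] with η h4 h5
    exact ⟨⟨h4.1, h4.2.1, h4.2.2.1, h4.2.2.2⟩, h5⟩
  obtain ⟨η, ⟨η1, η2, η3, η4⟩, η0⟩ := hev2.exists
  obtain ⟨D, hD⟩ : ∃ D, D = s + η - Real.log 3 := ⟨_, rfl⟩
  obtain ⟨a, ha⟩ : ∃ a, a = δ * (1 - η) := ⟨_, rfl⟩
  rw [← hD, ← ha] at η1 η2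
  have hD0 : 0 < D := by rw [hD]; linarith
  have a0 : 0 < a := by
    rw [ha]
    have : 0 < 1 - η := by linarith
    positivity
  have a1 : a < 1 := by
    rw [ha]
    have : δ * (1 - η) ≤ δ * 1 := mul_le_mul_of_nonneg_left (by linarith) hδ0.le
    linarith
  have hcore := core t2 (by linarith) hH η0 hs hg η3 hD hD0 a0 a1
  set A := (s + η) / D * (1 - a) with hA
  set Φ := a + (g - η) / D * (1 - a) with hΦ
  have hA0 : 0 < A := by
    have : 0 < 1 - a := by linarith
    positivity
  set B := A / Real.log 2 with hB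
  have hB0 : 0 < B := by positivity
  have hBc : B < c * (1 - δ) := by
    rw [hB, div_lt_iff₀ l2]
    exact η2
  set C := D + Real.log 8 + 1 with hC
  have hlogtop : Filter.Tendsto (fun x : ℕ => Real.log (x : ℝ)) Filter.atTop Filter.atTop :=
    Real.tendsto_log_atTop.comp tendsto_natCast_atTop_atTop
  filter_upwards [hcore, log_lin (A := Real.log 24 / 2) hB0 (show 0 < a / 2 by positivity),
    log_lin (A := Real.log 16 + (g - η)) hB0 (show 0 < Φ - τ by linarith),
    hlogtop.eventually_ge_atTop (C / η),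
    hlogtop.eventually_ge_atTop (c * (1 - δ) * C / (c * (1 - δ) - B)),
    Filter.eventually_ge_atTop 1] with x x1 x2 x3 x4 x5 x6
  have hx0 : (0 : ℝ) < x := by exact_mod_cast x6
  obtain ⟨X, hX⟩ : ∃ X, X = Real.log x := ⟨_, rfl⟩
  obtain ⟨M, S, y1, y2, y3, y4, y5⟩ := x1
  rw [← hX] at x2 x3 x4 x5 y3 y4
  have hX0 : 0 ≤ X := by
    rw [hX]
    exact Real.log_natCast_nonneg x
  have hxa : ∀ u : ℝ, (x : ℝ) ^ u = Real.exp (u * X) := fun u => by
    rw [Real.rpow_def_of_pos hx0, ← hX, mul_comm]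
  rw [hxa] at y1 y2
  have hSB : (S : ℝ) ≤ B * X := by
    rw [hB, div_mul_eq_mul_div, le_div_iff₀ l2]
    exact y3
  have hS0 : (0 : ℝ) ≤ S := Nat.cast_nonneg _
  have hlS : Real.log (S + 1) ≤ Real.log (B * X + 1) :=
    Real.log_le_log (by positivity) (by linarith)
  -- the level
  have hcond : 6 * (S + 1) * (S + 1) ≤ M := by
    have e1 : (6 : ℝ) * (S + 1) * (S + 1) ≤ M := by
      refine le_trans ?_ y2
      rw [le_div_iff₀ (by norm_num)]
      have e2 : (6 : ℝ) * (S + 1) * (S + 1) * 4 =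
          Real.exp (Real.log 24 + (Real.log (S + 1) + Real.log (S + 1))) := by
        rw [Real.exp_add, Real.exp_add, Real.exp_log (by norm_num), Real.exp_log (by positivity)]
        ring
      rw [e2]
      apply Real.exp_le_exp.2
      linarith
    exact_mod_cast e1
  obtain ⟨F, f1, f2⟩ := y5 S hcond
  have hfin : {n : ℕ | 1 ≤ n ∧ n ≤ x ∧ ∃ k : ℕ, (k : ℝ) ≤ c * ((1 - δ) * Real.log n) ∧
      ((T3^[k] n : ℕ) : ℝ) ≤ (n : ℝ) ^ δ}.Finite := by
    refine (Set.finite_Iic x).subset ?_
    rintro b ⟨_, hb, _⟩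
    exact hb
  have hsub : (F : Set ℕ) ⊆ {n : ℕ | 1 ≤ n ∧ n ≤ x ∧ ∃ k : ℕ,
      (k : ℝ) ≤ c * ((1 - δ) * Real.log n) ∧ ((T3^[k] n : ℕ) : ℝ) ≤ (n : ℝ) ^ δ} := by
    intro b hb
    rw [Finset.mem_coe] at hb
    obtain ⟨b1, b2, b3, b4⟩ := f1 b hb
    have b5 := b3 0 (Nat.zero_le _)
    rw [Function.iterate_zero, id_eq] at b5
    have b6 := b4 le_rfl
    rw [← hX] at b6
    have hb0 : (0 : ℝ) < b := by exact_mod_cast (show 0 < b by omega)
    refine ⟨by omega, b1, S, ?_, ?_⟩
    · rw [div_le_iff₀ (by linarith)] at x5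
      have e1 : c * (1 - δ) * (X - C) ≤ c * (1 - δ) * Real.log b :=
        mul_le_mul_of_nonneg_left b6 (by
          have : 0 < 1 - δ := by linarith
          positivity)
      linarith
    · refine b2.trans ?_
      rw [hxa, Real.rpow_def_of_pos hb0]
      apply Real.exp_le_exp.2
      rw [div_le_iff₀ η0] at x4
      have e1 : δ * (X - C) ≤ δ * Real.log b := mul_le_mul_of_nonneg_left b6 hδ0.le
      have e2 : a * X = δ * (X - X * η) := by rw [ha]; ring
      have e3 : δ * (X - X * η) ≤ δ * (X - C) := mul_le_mul_of_nonneg_left (by linarith) hδ0.le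
      rw [e2]
      linarith
  have hcard := Set.ncard_le_ncard hsub hfin
  rw [Set.ncard_coe_finset] at hcard
  have hcard' : (F.card : ℝ) ≤ (({n : ℕ | 1 ≤ n ∧ n ≤ x ∧ ∃ k : ℕ,
      (k : ℝ) ≤ c * ((1 - δ) * Real.log n) ∧
      ((T3^[k] n : ℕ) : ℝ) ≤ (n : ℝ) ^ δ}.ncard : ℕ) : ℝ) := by exact_mod_cast hcard
  refine le_trans ?_ (f2.trans hcard')
  rw [hxa, ← hX]
  apply Real.exp_le_exp.2
  have e1 : (Φ - τ) * X = Φ * X - τ * X := by ring
  rw [e1] at x3
  linarith

end Pool.Agent.Collatz3.SB
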