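import Pool.Agent.Collatz3.SBFinC

set_option autoImplicit false

/-!
The lower bound for the number of slow paths down to a power of the starting point.
-/

open Finset
open scoped Classical

namespace Pool.Agent.Collatz3.SB

open Pool.Agent.Collatz3.LT

/-- the slope belonging to a slow speed -/
theorem slope_of_slow {β : ℝ} (hβ : ((1 / 2) * Real.log (4 / 3))⁻¹ ≤ β) :
    ∃ ρ : ℝ, 1 / 2 ≤ ρ ∧ ρ < 1 ∧ 0 < β ∧ 1 / β = Real.log 2 - ρ * Real.log 3 := by
  have l2 := log2_pos
  have l3 := log3_pos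
  have hpos : 0 < (1 / 2) * Real.log (4 / 3) := by
    have : 0 < Real.log (4 / 3) := Real.log_pos (by norm_num)
    positivity
  have hβ0 : 0 < β := lt_of_lt_of_le (inv_pos.2 hpos) hβ
  have h1 : 1 / β ≤ (1 / 2) * Real.log (4 / 3) := by
    rw [one_div]
    exact inv_le_of_inv_le₀ hpos hβ
  have h2 : (1 / 2) * Real.log (4 / 3) = Real.log 2 - 1 / 2 * Real.log 3 := by
    rw [Real.log_div (by norm_num) (by norm_num), show (4 : ℝ) = 2 ^ 2 by norm_num, Real.log_pow]
    push_cast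
    ring
  have h0 : 0 < 1 / β := by positivity
  have h3 : Real.log 2 < Real.log 3 := Real.log_lt_log (by norm_num) (by norm_num)
  refine ⟨(Real.log 2 - 1 / β) / Real.log 3, ?_, ?_, hβ0, ?_⟩
  · rw [le_div_iff₀ l3]
    linarith
  · rw [div_lt_one l3]
    linarith
  · rw [div_mul_cancel₀ _ l3.ne']
    ring

/-- FIND -/
theorem fin_slow_lower {δ β ε : ℝ} (hδ0 : 0 ≤ δ) (hδ1 : δ < 1)
    (hβ : ((1 / 2) * Real.log (4 / 3))⁻¹ ≤ β) (hβ1 : β * Leg.gL (1 / β) < 1) (hε : 0 < ε) :
    ∀ᶠ x : ℕ in Filter.atTop,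
      (x : ℝ) ^ (1 - (1 - δ) * (β * Leg.gL (1 / β)) - ε) ≤
      (({n : ℕ | 1 ≤ n ∧ n ≤ x ∧ ∀ k : ℕ, (k : ℝ) ≤ β * ((1 - δ) * Real.log n) →
        (n : ℝ) ^ δ < ((T3^[k] n : ℕ) : ℝ)}.ncard : ℕ) : ℝ) := by
  have l2 := log2_pos
  have l3 := log3_pos
  obtain ⟨ρ, r0', r1, hβ0, r2⟩ := slope_of_slow hβ
  have r0 : 0 < ρ := by linarith
  have hDρ : 0 < Real.log 2 - ρ * Real.log 3 := by rw [← r2]; positivity
  have hexp := Leg.exponent_eq r0 r1 r2 hDρ
  have hHρ : ρ * Real.log 3 < Real.binEntropy ρ := by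
    have e1 : 0 < (Real.binEntropy ρ - ρ * Real.log 3) / (Real.log 2 - ρ * Real.log 3) := by
      rw [← hexp]
      linarith
    rw [lt_div_iff₀ hDρ, zero_mul] at e1
    linarith
  -- choice of the slope
  have hcont : ContinuousAt (fun t : ℝ =>
      (Real.binEntropy t - t * Real.log 3) / (Real.log 2 - t * Real.log 3)) ρ := by
    apply ContinuousAt.div (by fun_prop) (by fun_prop)
    exact hDρ.ne'
  have hcont2 : ContinuousAt (fun t : ℝ => Real.binEntropy t - t * Real.log 3) ρ := by fun_prop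
  have hcont3 : ContinuousAt (fun t : ℝ => Real.log 2 - t * Real.log 3) ρ := by fun_prop
  have hev : ∀ᶠ t in nhdsWithin ρ (Set.Ioi ρ),
      (1 - β * Leg.gL (1 / β) - ε <
        (Real.binEntropy t - t * Real.log 3) / (Real.log 2 - t * Real.log 3) ∧ t < 1 ∧
        0 < Real.binEntropy t - t * Real.log 3 ∧ 0 < Real.log 2 - t * Real.log 3) ∧ ρ < t := by
    have e1 : 1 - β * Leg.gL (1 / β) - ε <
        (Real.binEntropy ρ - ρ * Real.log 3) / (Real.log 2 - ρ * Real.log 3) := by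
      rw [← hexp]
      linarith
    have e2 := hcont.tendsto.eventually (lt_mem_nhds e1)
    have e3 : ∀ᶠ t in nhds ρ, t < 1 := gt_mem_nhds r1
    have e4 := hcont2.tendsto.eventually (lt_mem_nhds (a := 0) (by linarith))
    have e5 := hcont3.tendsto.eventually (lt_mem_nhds (a := 0) hDρ)
    filter_upwards [(e2.and (e3.and (e4.and e5))).filter_mono nhdsWithin_le_nhds,
      self_mem_nhdsWithin] with t h8 h9
    exact ⟨h8, h9⟩
  obtain ⟨t, ⟨t1, t2, t4, hDt0⟩, t3⟩ := hev.exists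
  have t0 : 0 < t := r0.trans t3
  have hDt : Real.log 2 - t * Real.log 3 < Real.log 2 - ρ * Real.log 3 := by
    have := mul_lt_mul_of_pos_right t3 l3
    linarith
  have hH : t * Real.log 3 < Real.binEntropy t := by linarith
  obtain ⟨hsl, hlim1, hlim2⟩ := limits t0 hDt0
  rw [← hlim2] at t1
  obtain ⟨s, hs⟩ : ∃ s, s = Real.log 2 / t := ⟨_, rfl⟩
  obtain ⟨g, hg⟩ : ∃ g, g = Real.binEntropy t / t - Real.log 3 := ⟨_, rfl⟩
  rw [← hs] at hsl hlim1 t1
  rw [← hg] at t1
  have hg0 : 0 < g := by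
    rw [hg, sub_pos, lt_div_iff₀ t0]
    linarith
  have hs0 : 0 < s := by rw [hs]; positivity
  set τ := 1 - (1 - δ) * (β * Leg.gL (1 / β)) - ε with hτ
  -- choice of the small parameter
  have hev2 : ∀ᶠ η in nhdsWithin (0 : ℝ) (Set.Ioi 0),
      (τ < δ + η + (g - η) / (s + η - Real.log 3) * (1 - (δ + η)) ∧
        β * (1 - δ) * Real.log 2 < (s + η) / (s + η - Real.log 3) * (1 - (δ + η)) ∧
        η < g ∧ δ + η < 1) ∧ 0 < η := by
    have c1 : ContinuousAt (fun η : ℝ => δ + η +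
        (g - η) / (s + η - Real.log 3) * (1 - (δ + η))) 0 := by
      have : ContinuousAt (fun η : ℝ => (g - η) / (s + η - Real.log 3)) 0 := by
        apply ContinuousAt.div (by fun_prop) (by fun_prop)
        simp only [add_zero]
        exact hsl.ne'
      fun_prop
    have c2 : ContinuousAt (fun η : ℝ =>
        (s + η) / (s + η - Real.log 3) * (1 - (δ + η))) 0 := by
      have : ContinuousAt (fun η : ℝ => (s + η) / (s + η - Real.log 3)) 0 := by
        apply ContinuousAt.div (by fun_prop) (by fun_prop)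
        simp only [add_zero]
        exact hsl.ne'
      fun_prop
    have c3 : ContinuousAt (fun η : ℝ => δ + η) 0 := by fun_prop
    have e1 := c1.tendsto.eventually (lt_mem_nhds (a := τ) (by
      simp only [add_zero, sub_zero]
      have h5 : (1 - β * Leg.gL (1 / β) - ε) * (1 - δ) < g / (s - Real.log 3) * (1 - δ) :=
        mul_lt_mul_of_pos_right t1 (by linarith)
      have h6 : 0 ≤ δ * ε := by positivity
      rw [hτ]
      nlinarith))
    have e2 := c2.tendsto.eventually (lt_mem_nhds (a := β * (1 - δ) * Real.log 2) (by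
      simp only [add_zero]
      have h5 : β * Real.log 2 < s / (s - Real.log 3) := by
        rw [hlim1, lt_div_iff₀ hDt0]
        have h6 : β * (Real.log 2 - ρ * Real.log 3) = 1 := by rw [← r2]; field_simp
        have h7 : β * (Real.log 2 - t * Real.log 3) < β * (Real.log 2 - ρ * Real.log 3) :=
          mul_lt_mul_of_pos_left hDt hβ0
        rw [h6] at h7
        have h8 := mul_lt_mul_of_pos_left h7 l2
        linarith
      have h9 := mul_lt_mul_of_pos_right h5 (show 0 < 1 - δ by linarith)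
      linarith))
    have e3 : ∀ᶠ η in nhds (0 : ℝ), η < g := gt_mem_nhds hg0
    have e4 := c3.tendsto.eventually (gt_mem_nhds (a := 1) (by
      simp only [add_zero]
      exact hδ1))
    filter_upwards [(e1.and (e2.and (e3.and e4))).filter_mono nhdsWithin_le_nhds,
      self_mem_nhdsWithin] with η h4 h5
    exact ⟨⟨h4.1, h4.2.1, h4.2.2.1, h4.2.2.2⟩, h5⟩
  obtain ⟨η, ⟨η1, η2, η3, η4⟩, η0⟩ := hev2.exists
  obtain ⟨D, hD⟩ : ∃ D, D = s + η - Real.log 3 := ⟨_, rfl⟩
  obtain ⟨a, ha⟩ : ∃ a, a = δ + η := ⟨_, rfl⟩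
  rw [← ha] at η4
  rw [← hD, ← ha] at η1 η2
  have hD0 : 0 < D := by rw [hD]; linarith
  have haδ0 : 0 < a - δ := by linarith
  have a0 : 0 < a := by linarith
  have hcore := core t0 t2 hH η0 hs hg η3 hD hD0 a0 η4
  set A := (s + η) / D * (1 - a) with hA
  set Φ := a + (g - η) / D * (1 - a) with hΦ
  have hA0 : 0 < A := by
    have : 0 < 1 - a := by linarith
    positivity
  set B := A / Real.log 2 with hB
  have hB0 : 0 < B := by positivity
  have hlogtop : Filter.Tendsto (fun x : ℕ => Real.log (x : ℝ)) Filter.atTop Filter.atTop :=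
    Real.tendsto_log_atTop.comp tendsto_natCast_atTop_atTop
  filter_upwards [hcore, log_lin (A := Real.log 48) hB0 haδ0,
    log_lin (A := Real.log 16 + (g - η)) hB0 (show 0 < Φ - τ by linarith),
    hlogtop.eventually_ge_atTop ((s + η + Real.log 2) / (A - β * (1 - δ) * Real.log 2)),
    Filter.eventually_ge_atTop 1] with x x1 x2 x3 x5 x6
  have hx0 : (0 : ℝ) < x := by exact_mod_cast x6
  obtain ⟨X, hX⟩ : ∃ X, X = Real.log x := ⟨_, rfl⟩
  obtain ⟨M, S, y1, y2, y3, y4, y5⟩ := x1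
  rw [← hX] at x2 x3 x5 y3 y4
  have hX0 : 0 ≤ X := by
    rw [hX]
    exact Real.log_natCast_nonneg x
  have hxa : ∀ u : ℝ, (x : ℝ) ^ u = Real.exp (u * X) := fun u => by
    rw [Real.rpow_def_of_pos hx0, ← hX, mul_comm]
  rw [hxa] at y1 y2
  have hSB : (S : ℝ) ≤ B * X := by
    rw [hB, div_mul_eq_mul_div, le_div_iff₀ l2]
    exact y3
  have hS0 : (0 : ℝ) ≤ S := Nat.cast_nonneg _
  have hlS : Real.log (S + 1) ≤ Real.log (B * X + 1) :=
    Real.log_le_log (by positivity) (by linarith)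
  -- the level
  obtain ⟨L, hL⟩ : ∃ L, L = ⌊Real.exp (δ * X)⌋₊ := ⟨_, rfl⟩
  have hL1 : (L : ℝ) ≤ Real.exp (δ * X) := by
    rw [hL]
    exact Nat.floor_le (Real.exp_pos _).le
  have hL2 : Real.exp (δ * X) < L + 1 := by
    rw [hL]
    exact Nat.lt_floor_add_one _
  have hcond : 6 * (L + 1) * (S + 1) ≤ M := by
    have e1 : (6 : ℝ) * (L + 1) * (S + 1) ≤ M := by
      refine le_trans ?_ y2
      rw [le_div_iff₀ (by norm_num)]
      have e3 : (1 : ℝ) ≤ Real.exp (δ * X) := Real.one_le_exp (by positivity)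
      have e4 : (6 : ℝ) * (L + 1) * (S + 1) * 4 ≤
          48 * Real.exp (δ * X) * (S + 1) := by
        have e5 : (L : ℝ) + 1 ≤ 2 * Real.exp (δ * X) := by linarith
        have e6 := mul_le_mul_of_nonneg_right e5 (show (0 : ℝ) ≤ 24 * (S + 1) by positivity)
        linarith
      refine e4.trans ?_
      have e2 : (48 : ℝ) * Real.exp (δ * X) * (S + 1) =
          Real.exp (Real.log 48 + δ * X + Real.log (S + 1)) := by
        rw [Real.exp_add, Real.exp_add, Real.exp_log (by norm_num), Real.exp_log (by positivity)]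
      rw [e2]
      apply Real.exp_le_exp.2
      linarith
    exact_mod_cast e1
  obtain ⟨F, f1, f2⟩ := y5 L hcond
  have hfin : {n : ℕ | 1 ≤ n ∧ n ≤ x ∧ ∀ k : ℕ, (k : ℝ) ≤ β * ((1 - δ) * Real.log n) →
      (n : ℝ) ^ δ < ((T3^[k] n : ℕ) : ℝ)}.Finite := by
    refine (Set.finite_Iic x).subset ?_
    rintro b ⟨_, hb, _⟩
    exact hb
  have hsub : (F : Set ℕ) ⊆ {n : ℕ | 1 ≤ n ∧ n ≤ x ∧ ∀ k : ℕ,
      (k : ℝ) ≤ β * ((1 - δ) * Real.log n) → (n : ℝ) ^ δ < ((T3^[k] n : ℕ) : ℝ)} := by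
    intro b hb
    rw [Finset.mem_coe] at hb
    obtain ⟨b1, -, b3, -⟩ := f1 b hb
    have b5 := b3 0 (Nat.zero_le _)
    rw [Function.iterate_zero, id_eq] at b5
    have hb0 : (0 : ℝ) < b := by exact_mod_cast (show 0 < b by omega)
    have hbx : Real.log b ≤ X := by
      rw [hX]
      exact Real.log_le_log hb0 (by exact_mod_cast b1)
    refine ⟨by omega, b1, fun k hk => ?_⟩
    have hkS : k ≤ S := by
      rw [div_le_iff₀ (by linarith)] at x5
      have e1 : β * ((1 - δ) * Real.log b) ≤ β * (1 - δ) * X := by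
        have : β * (1 - δ) * Real.log b ≤ β * (1 - δ) * X :=
          mul_le_mul_of_nonneg_left hbx (by
            have : 0 < 1 - δ := by linarith
            positivity)
        linarith
      have e2 : β * (1 - δ) * X * Real.log 2 ≤ S * Real.log 2 := by linarith
      have e3 : β * (1 - δ) * X ≤ S := le_of_mul_le_mul_right e2 l2
      exact_mod_cast (hk.trans e1).trans e3
    have e2 : (b : ℝ) ^ δ ≤ Real.exp (δ * X) := by
      rw [Real.rpow_def_of_pos hb0]
      apply Real.exp_le_exp.2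
      have := mul_le_mul_of_nonneg_left hbx hδ0
      linarith
    have e3 : (L : ℝ) + 1 ≤ (T3^[k] b : ℕ) := by
      exact_mod_cast (show L + 1 ≤ T3^[k] b from b3 k hkS)
    linarith
  have hcard := Set.ncard_le_ncard hsub hfin
  rw [Set.ncard_coe_finset] at hcard
  have hcard' : (F.card : ℝ) ≤ (({n : ℕ | 1 ≤ n ∧ n ≤ x ∧ ∀ k : ℕ,
      (k : ℝ) ≤ β * ((1 - δ) * Real.log n) →
      (n : ℝ) ^ δ < ((T3^[k] n : ℕ) : ℝ)}.ncard : ℕ) : ℝ) := by exact_mod_cast hcard
  refine le_trans ?_ (f2.trans hcard')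
  rw [hxa, ← hX]
  apply Real.exp_le_exp.2
  have e1 : (Φ - τ) * X = Φ * X - τ * X := by ring
  rw [e1] at x3
  linarith

end Pool.Agent.Collatz3.SB
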