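import Pool.Agent.Collatz3.SBFinA
import Pool.Agent.Collatz3.SBFinB
import Pool.Agent.Collatz3.SBFinC
import Pool.Agent.Collatz3.SBFinD

set_option autoImplicit false

/-!
Large deviations of the passage times from `n` down to `n ^ δ`, `0 ≤ δ < 1`.
-/

open Finset
open scoped Classical

namespace Pool.Agent.Collatz3.SB

open Pool.Agent.Collatz3.LT

/-- the rate -/
noncomputable def rate (β : ℝ) : ℝ := β * Leg.gL (1 / β)

theorem half_pos' : 0 < (1 / 2) * Real.log (4 / 3) := by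
  have : 0 < Real.log (4 / 3) := Real.log_pos (by norm_num)
  positivity

/-- the rate is positive and smaller than 1 in the fast range -/
theorem rate_fast {c : ℝ} (hc : 1 / Real.log 2 < c) (hc' : c < ((1 / 2) * Real.log (4 / 3))⁻¹) :
    0 < rate c ∧ rate c < 1 := by
  obtain ⟨ρ, r0, r1, hc0, r2, r3⟩ := params hc hc'
  have hpos : 0 < Real.log 2 - ρ * Real.log 3 := by rw [← r2]; positivity
  have h1 := Leg.exponent_eq r0 (by linarith) r2 hpos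
  have h2 := lt_binEntropy r0 r1
  have h4 : Real.binEntropy ρ < Real.log 2 := by
    rw [Real.binEntropy_lt_log_two]
    intro h
    rw [h] at r1
    norm_num at r1
  have h5 : 0 < (Real.binEntropy ρ - ρ * Real.log 3) / (Real.log 2 - ρ * Real.log 3) :=
    div_pos (by linarith) hpos
  have h6 : (Real.binEntropy ρ - ρ * Real.log 3) / (Real.log 2 - ρ * Real.log 3) < 1 := by
    rw [div_lt_one hpos]; linarith
  rw [← h1] at h5 h6
  unfold rate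
  constructor <;> linarith

/-- the rate is positive in the slow range -/
theorem rate_slow {β : ℝ} (hβ : ((1 / 2) * Real.log (4 / 3))⁻¹ < β) : 0 < rate β := by
  obtain ⟨ρ, r0, r1, hβ0, r2, -, r3⟩ := params_slow hβ.le
  unfold rate
  rw [r3]
  have h1 : ρ ≠ 2⁻¹ := by
    intro h
    rw [h, ← one_div, ← Leg.half_log] at r2
    have h2 : β = ((1 / 2) * Real.log (4 / 3))⁻¹ := by rw [← r2, one_div, inv_inv]
    linarith
  have h4 := (Real.binEntropy_lt_log_two (p := ρ)).2 h1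
  exact mul_pos hβ0 (by linarith)

/-- the rate is small in the window -/
theorem rate_window {β : ℝ} (hβ : ((1 / 2) * Real.log (4 / 3))⁻¹ ≤ β)
    (hβ' : β ≤ (1 + 1 / 40) * ((1 / 2) * Real.log (4 / 3))⁻¹) : rate β < 1 := by
  obtain ⟨ρ, r0, r1, hβ0, r2, -, r3⟩ := params_slow hβ
  have hs : 1 / 40 ≤ √(1 / 2 : ℝ) / 5 := by
    have : (1 / 8 : ℝ) ≤ √(1 / 2) := Real.le_sqrt_of_sq_le (by norm_num)
    linarith
  have hw := (window (δ := 1 / 2) (by norm_num) (by norm_num) hβ (by rw [min_eq_right hs]; exact hβ') r0 r2).2.2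
  have hl2 := log2_pos
  have hH : 0 < Real.binEntropy (9 / 16) / Real.log 2 :=
    div_pos (Real.binEntropy_pos (by norm_num) (by norm_num)) hl2
  unfold rate
  rw [r3]
  linarith

theorem one_le_iter {n : ℕ} (hn : 1 ≤ n) (k : ℕ) : 1 ≤ T3^[k] n := by
  induction k with
  | zero => exact hn
  | succ k ih =>
    rw [Function.iterate_succ_apply']
    generalize T3^[k] n = b at ih
    unfold T3
    split_ifs with h <;> omega

/-- the fast part -/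
theorem fast_law {δ : ℝ} (hδ0 : 0 ≤ δ) (hδ1 : δ < 1) {c : ℝ} (hc : 1 / Real.log 2 < c)
    (hc' : c < ((1 / 2) * Real.log (4 / 3))⁻¹) {ε : ℝ} (hε : 0 < ε) : ∀ᶠ x : ℕ in Filter.atTop,
      (x : ℝ) ^ (1 - (1 - δ) * rate c - ε) ≤
        (({n : ℕ | 1 ≤ n ∧ n ≤ x ∧ ∃ k : ℕ, (k : ℝ) ≤ c * ((1 - δ) * Real.log n) ∧
          ((T3^[k] n : ℕ) : ℝ) ≤ (n : ℝ) ^ δ}.ncard : ℕ) : ℝ) ∧
      (({n : ℕ | 1 ≤ n ∧ n ≤ x ∧ ∃ k : ℕ, (k : ℝ) ≤ c * ((1 - δ) * Real.log n) ∧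
          ((T3^[k] n : ℕ) : ℝ) ≤ (n : ℝ) ^ δ}.ncard : ℕ) : ℝ) ≤
        (x : ℝ) ^ (1 - (1 - δ) * rate c + ε) := by
  rcases hδ0.eq_or_lt with h | h
  · subst h
    have hset : ∀ x : ℕ, {n : ℕ | 1 ≤ n ∧ n ≤ x ∧ ∃ k : ℕ, (k : ℝ) ≤ c * ((1 - 0) * Real.log n) ∧
        ((T3^[k] n : ℕ) : ℝ) ≤ (n : ℝ) ^ (0 : ℝ)} =
        {n : ℕ | 1 ≤ n ∧ n ≤ x ∧ ∃ k : ℕ, T3^[k] n = 1 ∧ (k : ℝ) ≤ c * Real.log n} := by
      intro x
      ext n
      constructor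
      · rintro ⟨h1, h2, k, h3, h4⟩
        refine ⟨h1, h2, k, ?_, ?_⟩
        · rw [Real.rpow_zero] at h4
          have h5 : T3^[k] n ≤ 1 := by exact_mod_cast h4
          exact le_antisymm h5 (one_le_iter h1 k)
        · rwa [sub_zero, one_mul] at h3
      · rintro ⟨h1, h2, k, h3, h4⟩
        refine ⟨h1, h2, k, ?_, ?_⟩
        · rwa [sub_zero, one_mul]
        · rw [Real.rpow_zero, h3]
          norm_num
    have h1 := LT.lower theoremS one_pos (by norm_num) hc hc' hε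
    have h2 := LT.upper theoremS one_pos hc hc' hε
    filter_upwards [h1, h2] with x hx1 hx2
    rw [hset, sub_zero, one_mul]
    exact ⟨hx1, hx2⟩
  · filter_upwards [fin_fast_lower h hδ1 hc hc' hε, fin_fast_upper h hδ1 hc hc' hε] with x hx1 hx2
    exact ⟨hx1, hx2⟩

/-- the slow part, lower bound -/
theorem slow_low {δ : ℝ} (hδ0 : 0 ≤ δ) (hδ1 : δ < 1) {β : ℝ} (hβ : ((1 / 2) * Real.log (4 / 3))⁻¹ ≤ β)
    (hβ1 : rate β < 1) {ε : ℝ} (hε : 0 < ε) : ∀ᶠ x : ℕ in Filter.atTop,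
      (x : ℝ) ^ (1 - (1 - δ) * rate β - ε) ≤
      (({n : ℕ | 1 ≤ n ∧ n ≤ x ∧ ∀ k : ℕ, (k : ℝ) ≤ β * ((1 - δ) * Real.log n) →
        (n : ℝ) ^ δ < ((T3^[k] n : ℕ) : ℝ)}.ncard : ℕ) : ℝ) :=
  fin_slow_lower hδ0 hδ1 hβ hβ1 hε

/-- the slow part, upper bound -/
theorem slow_up {δ : ℝ} (hδ0 : 0 ≤ δ) (hδ1 : δ < 1) {β : ℝ} (hβ : ((1 / 2) * Real.log (4 / 3))⁻¹ ≤ β)
    (hβ' : β ≤ (1 + min (√δ / 5) (1 / 40)) * ((1 / 2) * Real.log (4 / 3))⁻¹) {ε : ℝ} (hε : 0 < ε) :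
    ∀ᶠ x : ℕ in Filter.atTop,
      (({n : ℕ | 1 ≤ n ∧ n ≤ x ∧ ∀ k : ℕ, (k : ℝ) ≤ β * ((1 - δ) * Real.log n) →
        (n : ℝ) ^ δ < ((T3^[k] n : ℕ) : ℝ)}.ncard : ℕ) : ℝ) ≤
        (x : ℝ) ^ (1 - (1 - δ) * rate β + ε) := by
  rcases hδ0.eq_or_lt with h | h
  · subst h
    rw [Real.sqrt_zero, zero_div, min_eq_left (by norm_num), add_zero, one_mul] at hβ'
    have hβe : β = ((1 / 2) * Real.log (4 / 3))⁻¹ := le_antisymm hβ' hβ
    have hr : rate β = 0 := by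
      obtain ⟨ρ, r0, r1, hβ0, r2, -, r3⟩ := params_slow hβ
      have h2 : ρ = 2⁻¹ := by
        rw [hβe, one_div, inv_inv, Leg.half_log] at r2
        have := log3_pos
        have h3 : (ρ - 2⁻¹) * Real.log 3 = 0 := by linarith
        rcases mul_eq_zero.1 h3 with h4 | h4
        · linarith
        · exact absurd h4 this.ne'
      unfold rate
      rw [r3, h2, Real.binEntropy_two_inv, sub_self, mul_zero]
    filter_upwards [Filter.eventually_ge_atTop 1] with x hx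
    rw [show 1 - (1 - (0 : ℝ)) * rate β + ε = 1 + ε by rw [hr]; ring]
    have hx1 : (1 : ℝ) ≤ x := by exact_mod_cast hx
    have h1 : {n : ℕ | 1 ≤ n ∧ n ≤ x ∧ ∀ k : ℕ, (k : ℝ) ≤ β * ((1 - 0) * Real.log n) →
        (n : ℝ) ^ (0 : ℝ) < ((T3^[k] n : ℕ) : ℝ)} ⊆ ((Icc 1 x : Finset ℕ) : Set ℕ) := by
      rintro n ⟨h1, h2, -⟩
      rw [mem_coe, mem_Icc]
      exact ⟨h1, h2⟩
    have h2 := Set.ncard_le_ncard h1 (Finset.finite_toSet _)
    rw [Set.ncard_coe_finset, Nat.card_Icc, Nat.add_sub_cancel] at h2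
    have h3 : (x : ℝ) ≤ (x : ℝ) ^ (1 + ε) := by
      have := Real.rpow_le_rpow_of_exponent_le hx1 (show (1 : ℝ) ≤ 1 + ε by linarith)
      rwa [Real.rpow_one] at this
    exact le_trans (Nat.cast_le.2 h2) h3
  · exact fin_slow_upper h hδ1 hβ hβ' hε

/-- the slow part in the window -/
theorem slow_law {δ : ℝ} (hδ0 : 0 ≤ δ) (hδ1 : δ < 1) {β : ℝ} (hβ : ((1 / 2) * Real.log (4 / 3))⁻¹ ≤ β)
    (hβ' : β ≤ (1 + min (√δ / 5) (1 / 40)) * ((1 / 2) * Real.log (4 / 3))⁻¹) {ε : ℝ} (hε : 0 < ε) :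
    ∀ᶠ x : ℕ in Filter.atTop,
      (x : ℝ) ^ (1 - (1 - δ) * rate β - ε) ≤
      (({n : ℕ | 1 ≤ n ∧ n ≤ x ∧ ∀ k : ℕ, (k : ℝ) ≤ β * ((1 - δ) * Real.log n) →
        (n : ℝ) ^ δ < ((T3^[k] n : ℕ) : ℝ)}.ncard : ℕ) : ℝ) ∧
      (({n : ℕ | 1 ≤ n ∧ n ≤ x ∧ ∀ k : ℕ, (k : ℝ) ≤ β * ((1 - δ) * Real.log n) →
        (n : ℝ) ^ δ < ((T3^[k] n : ℕ) : ℝ)}.ncard : ℕ) : ℝ) ≤
        (x : ℝ) ^ (1 - (1 - δ) * rate β + ε) := by
  have h1 : rate β < 1 := by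
    refine rate_window hβ (hβ'.trans (mul_le_mul_of_nonneg_right ?_ (inv_nonneg.2 half_pos'.le)))
    have := min_le_right (√δ / 5) (1 / 40)
    linarith
  filter_upwards [slow_low hδ0 hδ1 hβ h1 hε, slow_up hδ0 hδ1 hβ hβ' hε] with x hx1 hx2
  exact ⟨hx1, hx2⟩

end Pool.Agent.Collatz3.SB
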