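import Pool.Agent.Collatz3.SBWords

set_option autoImplicit false

/-!
The growth exponent of the tilted numbers of strong barrier words.
-/

open Finset
open scoped Classical

namespace Pool.Agent.Collatz3.SB

open Pool.Agent.Collatz3.LT

variable [Par]

theorem AA_nonneg (θ : ℝ) (n : ℕ) (x : ℤ) : 0 ≤ AA θ n x :=
  sum_nonneg fun _ _ => (Real.exp_pos _).le

theorem AA_trivial (θ : ℝ) (n : ℕ) (x : ℤ) : AA θ n x ≤ Real.exp ((Real.log 2 + |θ| * Real.log 2) * n) := by
  have h1 : ∀ w ∈ BR n x, Real.exp (-θ * ht w) ≤ Real.exp (|θ| * Real.log 2 * n) := by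
    intro w hw
    rw [mem_BR] at hw
    apply Real.exp_le_exp.2
    have h2 := hw.2.1.ht_nonneg
    have h3 := ht_le_len (w := w)
    rw [hw.1] at h3
    have h3' : (n : ℝ) * Lv ≤ n * Real.log 2 := mul_le_mul_of_nonneg_left Lv_le (Nat.cast_nonneg n)
    have h4 := neg_abs_le θ
    have h5 := abs_nonneg θ
    calc -θ * ht w ≤ |θ| * ht w := mul_le_mul_of_nonneg_right (by linarith) h2
      _ ≤ |θ| * (n * Real.log 2) := mul_le_mul_of_nonneg_left (h3.trans h3') h5
      _ = _ := by ring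
  refine (sum_le_sum h1).trans ?_
  rw [sum_const, nsmul_eq_mul, add_mul, Real.exp_add]
  refine mul_le_mul_of_nonneg_right ?_ (Real.exp_pos _).le
  have h2 : (((BR n x).card : ℕ) : ℝ) ≤ ((2 ^ n : ℕ) : ℝ) := by
    exact_mod_cast (card_filter_le _ _).trans (card_WL n)
  refine h2.trans (le_of_eq ?_)
  rw [mul_comm, Real.exp_nat_mul, Real.exp_log (by norm_num)]
  push_cast; ring

/-- the word `0 … 0` -/
theorem zeros_mem (n : ℕ) (x : ℤ) : List.replicate n false ∈ BR n x := by
  have hj : ∀ m, jj (List.replicate m false) = 0 := fun m => by simp [jj, List.count_replicate]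
  rw [mem_BR]
  refine ⟨by simp, ?_, ?_⟩
  · intro i h1 h2
    rw [List.length_replicate] at h2
    rw [List.take_replicate, min_eq_left h2]
    unfold ht hh
    rw [hj, List.length_replicate]
    have : (0 : ℝ) < i := by exact_mod_cast h1
    have := mul_pos this Lv_pos
    simpa using this
  · unfold Read
    rw [hj]; simp

theorem AA_ge (θ : ℝ) (n : ℕ) (x : ℤ) : Real.exp (-(θ * Lv) * n) ≤ AA θ n x := by
  unfold AA
  refine le_trans (le_of_eq ?_) (single_le_sum (f := fun w => Real.exp (-θ * ht w))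
    (fun _ _ => (Real.exp_pos _).le) (zeros_mem n x))
  have hj : jj (List.replicate n false) = 0 := by simp [jj, List.count_replicate]
  simp only [ht, hh, hj, List.length_replicate]
  congr 1
  push_cast; ring

def mus (θ : ℝ) : Set ℝ := {μ : ℝ | ∃ C : ℝ, ∀ (n : ℕ) (x : ℤ), AA θ n x ≤ C * Real.exp (μ * n)}

theorem mus_nonempty (θ : ℝ) : (mus θ).Nonempty :=
  ⟨Real.log 2 + |θ| * Real.log 2, 1, fun n x => by rw [one_mul]; exact AA_trivial θ n x⟩

theorem mus_lower {θ μ : ℝ} (h : μ ∈ mus θ) : -(θ * Lv) ≤ μ := by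
  obtain ⟨C, hC⟩ := h
  by_contra hcon
  push Not at hcon
  set a := -(θ * Lv) - μ with ha
  have ha0 : 0 < a := by rw [ha]; linarith
  have h1 : ∀ n : ℕ, Real.exp (a * n) ≤ C := by
    intro n
    have h2 := (AA_ge θ n 0).trans (hC n 0)
    have h3 : Real.exp (-(θ * Lv) * n) = Real.exp (a * n) * Real.exp (μ * n) := by
      rw [← Real.exp_add]; congr 1; rw [ha]; ring
    rw [h3] at h2
    exact le_of_mul_le_mul_right h2 (Real.exp_pos _)
  obtain ⟨n, hn⟩ := exists_nat_gt (C / a)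
  rw [div_lt_iff₀ ha0] at hn
  have h2 := h1 n
  have h3 := Real.add_one_le_exp (a * n)
  nlinarith

theorem mus_bdd (θ : ℝ) : BddBelow (mus θ) := ⟨_, fun _ h => mus_lower h⟩

theorem lam_ge (θ : ℝ) : -(θ * Lv) ≤ lam θ := le_csInf (mus_nonempty θ) fun _ h => mus_lower h

theorem AA_le (θ : ℝ) {ε : ℝ} (hε : 0 < ε) : ∃ C : ℝ, 0 < C ∧ ∀ (n : ℕ) (x : ℤ),
    AA θ n x ≤ C * Real.exp ((lam θ + ε) * n) := by
  have h1 : sInf (mus θ) < lam θ + ε := by
    change lam θ < _
    linarith
  obtain ⟨μ, ⟨C, hC⟩, hμ⟩ := exists_lt_of_csInf_lt (mus_nonempty θ) h1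
  refine ⟨|C| + 1, by positivity, fun n x => (hC n x).trans ?_⟩
  have h2 : Real.exp (μ * n) ≤ Real.exp ((lam θ + ε) * n) :=
    Real.exp_le_exp.2 (mul_le_mul_of_nonneg_right hμ.le (Nat.cast_nonneg n))
  have h3 : C ≤ |C| + 1 := by have := le_abs_self C; linarith
  calc C * Real.exp (μ * n) ≤ (|C| + 1) * Real.exp (μ * n) :=
        mul_le_mul_of_nonneg_right h3 (Real.exp_pos _).le
    _ ≤ _ := mul_le_mul_of_nonneg_left h2 (by positivity)

theorem exists_large (θ : ℝ) {ε : ℝ} (hε : 0 < ε) (n₀ : ℕ) : ∃ n : ℕ, n₀ ≤ n ∧ ∃ x : ℤ,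
    Real.exp ((lam θ - ε) * n) < AA θ n x := by
  by_contra hcon
  push Not at hcon
  set c := Real.log 2 + |θ| * Real.log 2 with hc
  have hc0 : 0 ≤ c := add_nonneg log2_pos.le (mul_nonneg (abs_nonneg θ) log2_pos.le)
  have hmem : lam θ - ε ∈ mus θ := by
    refine ⟨1 + Real.exp (c * n₀ + |lam θ - ε| * n₀), fun n x => ?_⟩
    rcases Nat.lt_or_ge n n₀ with h | h
    · have h1 := AA_trivial θ n x
      rw [← hc] at h1
      have h2 : (n : ℝ) ≤ n₀ := by exact_mod_cast h.le
      have h3 : Real.exp (c * n) ≤ Real.exp (c * n₀ + |lam θ - ε| * n₀) * Real.exp ((lam θ - ε) * n) := by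
        rw [← Real.exp_add]
        apply Real.exp_le_exp.2
        have h4 := mul_le_mul_of_nonneg_left h2 hc0
        have h5 := neg_abs_le (lam θ - ε)
        have h6 : (0 : ℝ) ≤ n := Nat.cast_nonneg n
        have h7 := mul_le_mul_of_nonneg_left h2 (abs_nonneg (lam θ - ε))
        nlinarith
      have h4 := Real.exp_pos ((lam θ - ε) * n)
      nlinarith
    · have h1 := hcon n h x
      have h4 := Real.exp_pos ((lam θ - ε) * n)
      have h5 := Real.exp_pos (c * n₀ + |lam θ - ε| * n₀)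
      nlinarith
  have := csInf_le (mus_bdd θ) hmem
  change lam θ ≤ _ at this
  linarith

/-- number of words with given number of ones -/
theorem NN_le_AA (θ : ℝ) (n l : ℕ) (x : ℤ) :
    (NN n l x : ℝ) ≤ Real.exp (θ * hh n l) * AA θ n x := by
  have h1 : Real.exp (-θ * hh n l) * NN n l x ≤ AA θ n x := by
    have : Real.exp (-θ * hh n l) * NN n l x =
        ∑ w ∈ (BR n x).filter (fun w => jj w = l), Real.exp (-θ * ht w) := by
      unfold NN
      rw [mul_comm, ← nsmul_eq_mul, ← sum_const]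
      refine sum_congr rfl fun w hw => ?_
      rw [mem_filter, mem_BR] at hw
      unfold ht
      rw [hw.1.1, hw.2]
    rw [this]
    exact sum_le_sum_of_subset_of_nonneg (filter_subset _ _) fun _ _ _ => (Real.exp_pos _).le
  have h2 := mul_le_mul_of_nonneg_left h1 (Real.exp_pos (θ * hh n l)).le
  rw [← mul_assoc, ← Real.exp_add, show θ * hh n l + -θ * hh n l = 0 by ring, Real.exp_zero,
    one_mul] at h2
  exact h2

end Pool.Agent.Collatz3.SB
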