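import Pool.Agent.Collatz3.SBWin
import Pool.Agent.Collatz3.DigitD

set_option autoImplicit false

/-!
The main entropy inequality.
-/

open Finset
open scoped Classical

namespace Pool.Agent.Collatz3.SB

open Pool.Agent.Collatz3.LT

variable [Par]

open Pool.Agent.Collatz3.UB (FAP)
open Pool.Agent.Collatz3.UB.PathZ (Inv X W U T D HW FW GW)

/-- the event at time `k` -/
def AE (k m d : ℕ) (ω : UB.PathZ) : Prop := T^[k] ω ∈ Cu ∧ k + d ≤ (T^[k] ω).j m

/-- the context -/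
noncomputable def ctx (k m : ℕ) (ω : UB.PathZ) : (ℕ × ℕ) × (Bool × ℕ) :=
  (X k ω, (decide (T^[k] ω ∈ Cu), (T^[k] ω).j m))

theorem info_ctx {k m : ℕ} {s : Finset UB.PathZ} {p : UB.PathZ → ℝ} (hp : ∀ ω ∈ s, 0 ≤ p ω)
    (hs : ∑ ω ∈ s, p ω ≤ 1)
    {β : Type} (E : UB.PathZ → β) (hE : ∀ ω ω', E ω = E ω' → (T^[k] ω).j m = (T^[k] ω').j m) :
    cH s p (U k) (ctx k m) - cH s p (U k) (fun ω => (E ω, ctx k m ω)) ≤
      cH s p (U k) (X k) - cH s p (U k) (fun ω => (E ω, X k ω)) + Real.log 2 := by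
  have h1 := cH_anti hp (U k) (ctx k m) (X k) fun ω _ _ ω' _ _ h => by
    simp only [ctx, Prod.mk.injEq] at h
    exact h.1
  have h2 := cH_triangle hp (fun ω => decide (T^[k] ω ∈ Cu)) (U k) (fun ω => (E ω, X k ω))
  have h3 := cH_ind hp hs (fun ω => T^[k] ω ∈ Cu) (fun ω => (E ω, X k ω))
  have h4 := cH_anti hp (U k) (fun ω => (decide (T^[k] ω ∈ Cu), (E ω, X k ω)))
    (fun ω => (E ω, ctx k m ω)) fun ω _ _ ω' _ _ h => by
      simp only [ctx, Prod.mk.injEq] at h ⊢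
      exact ⟨h.2.1, h.2.2, h.1, hE _ _ h.2.1⟩
  linarith

theorem hh_ge_of_cut {K k : ℕ} (hK : K ≤ k) {ω : UB.PathZ} (h : ω ∉ NoCut K) :
    -(K * Real.log 3) ≤ hh k (ω.j k) := by
  unfold NoCut at h
  rw [Set.mem_ofPred_eq] at h
  push Not at h
  obtain ⟨t, ht, h2⟩ := h
  have e : k = t + (k - t) := by omega
  have h3 : hh k (ω.j k) = hh t (ω.j t) + hh (k - t) ((T^[t] ω).j (k - t)) := by
    conv_lhs => rw [e, UB.PathZ.j_add, hh_add]
  have h4 : 0 ≤ hh (k - t) ((T^[t] ω).j (k - t)) := by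
    have := (Cu_Bar h2 (k - t)).ht_nonneg
    rwa [ht_lw] at this
  have h5 := (abs_le.1 (abs_hh_le (ω.j_le t))).1
  have h6 : (t : ℝ) * Real.log 3 ≤ K * Real.log 3 :=
    mul_le_mul_of_nonneg_right (by exact_mod_cast ht.le) log3_pos.le
  linarith

/-- lower bound for the exponents -/
theorem expo_ge (θ : ℝ) {K k : ℕ} (hK : K ≤ k) (ω : UB.PathZ) :
    min (lam θ) (lam θ + θ * Lv) * k - |θ| * (K * Real.log 3) -
      cm θ * k * (if ω ∈ NoCut K then 1 else 0) ≤ lam θ * k + θ * hh k (ω.j k) := by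
  have hk : (0 : ℝ) ≤ k := Nat.cast_nonneg k
  have hKr : (0 : ℝ) ≤ K := Nat.cast_nonneg K
  have h2 := Lv_pos
  have h3 := log3_pos
  have m1 : min (lam θ) (lam θ + θ * Lv) ≤ lam θ := min_le_left _ _
  have m2 : min (lam θ) (lam θ + θ * Lv) ≤ lam θ + θ * Lv := min_le_right _ _
  have m1' := mul_le_mul_of_nonneg_right m1 hk
  have m2' := mul_le_mul_of_nonneg_right m2 hk
  have hKK : 0 ≤ |θ| * (K * Real.log 3) := by positivity
  split_ifs with hc
  · have h4 := abs_hh_le (ω.j_le k)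
    have h5 : -(|θ| * (k * Real.log 3)) ≤ θ * hh k (ω.j k) := by
      have := neg_abs_le (θ * hh k (ω.j k))
      rw [abs_mul] at this
      have := mul_le_mul_of_nonneg_left h4 (abs_nonneg θ)
      linarith
    have h6 : |θ| * (k * Real.log 3) ≤ cm θ * k := by
      unfold cm
      have : 0 ≤ (Real.log 2 + |lam θ|) * k := by positivity
      nlinarith
    linarith
  · have h4 := hh_ge_of_cut hK hc
    have h5 : hh k (ω.j k) ≤ k * Lv := by
      unfold hh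
      have : 0 ≤ (ω.j k : ℝ) * Real.log 3 := by positivity
      linarith
    rcases le_or_gt 0 θ with hθ | hθ
    · have h6 : θ * -(K * Real.log 3) ≤ θ * hh k (ω.j k) := mul_le_mul_of_nonneg_left h4 hθ
      rw [abs_of_nonneg hθ] at *
      linarith
    · have h6 : θ * (k * Lv) ≤ θ * hh k (ω.j k) := mul_le_mul_of_nonpos_left h5 hθ.le
      linarith

/-- the main inequality -/
theorem key {θ : ℝ} {P : FAP UB.PathZ} (hI : Inv P) (hM : ME θ P) {ε : ℝ} {K : ℕ} {CK : ℝ}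
    (hCK : ∀ (s : Finset UB.PathZ) (p : UB.PathZ → ℝ) (_ : ∀ ω ∈ s, 0 ≤ p ω) (_ : ∑ ω ∈ s, p ω ≤ 1)
      (k : ℕ) (_ : K ≤ k) {β : Type} (Y : UB.PathZ → β)
      (_ : ∀ ω ∈ s, ∀ ω' ∈ s, Y ω = Y ω' → X k ω = X k ω'),
      cH s p (W k) Y ≤ ∑ ω ∈ s, p ω * (lam θ * k + θ * hh k (ω.j k)) + ε * k + CK +
        cm θ * k * ∑ ω ∈ s with ω ∈ NoCut K, p ω)
    {e1 K1 K2 : ℝ} {d : ℕ} (hK1 : 0 ≤ K1) (hK2 : 0 ≤ K2)
    (hD : ∀ {Ω γ : Type} (s : Finset Ω) (p : Ω → ℝ) (_ : ∀ ω ∈ s, 0 ≤ p ω) (_ : ∑ ω ∈ s, p ω ≤ 1)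
    (k : ℕ) (U b : Ω → ℤ) (c : Ω → γ) (_ : ∀ ω ∈ s, 0 ≤ U ω ∧ U ω < 3 ^ k)
    (good : ℕ → ℤ → Set ℤ)
    (_ : ∀ l x, 2 * ((Finset.range (3 ^ d)).filter fun u : ℕ => (u : ℤ) ∈ good l x).card ≤ 3 ^ d)
    (δ : ℕ → ℝ)
    (_ : ∀ l < k, ∑ ω ∈ s with (b ω / 3 ^ l % 3 ^ d) ∉ good l (b ω % 3 ^ l), p ω ≤ δ l),
    cH s p U c ≤ k * e1 + K1 * ∑ l ∈ range k, δ l
      + K2 * ((cH s p U c - cH s p U (fun ω => (b ω % 3 ^ (k + d), c ω)))
            + (cH s p U c - cH s p U (fun ω => ((U ω + b ω) % 3 ^ (k + d), c ω)))))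
    (k m : ℕ) (hKk : K ≤ k) (G : ℕ → ℤ → Set ℤ)
    (hG : ∀ l x, 2 * ((Finset.range (3 ^ d)).filter fun u : ℕ => (u : ℤ) ∈ G l x).card ≤ 3 ^ d)
    {δ : ℝ} (hδ : ∑ l ∈ range k, P.m {ω | EE m k ω ∧
        (ω.b 0 / 3 ^ l % 3 ^ d) ∉ G l (ω.b 0 % 3 ^ l)} ≤ δ * k) :
    min (lam θ) (lam θ + θ * Lv) * k * P.m {ω | AE k m d ω} ≤
      |θ| * (K * Real.log 3) + 2 * (cm θ * k * P.m (NoCut K)) +
      (Real.log ((k : ℝ) + 1) + Real.log 2 + Real.log ((m : ℝ) + 1)) +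
      (k * e1 + K1 * (δ * k) + K2 * (GW P k + GW P m - GW P (k + m) + Real.log ((k : ℝ) + 1) +
        2 * Real.log 2)) + ε * k + |CK| := by
  set N := 2 * k + d + m with hN
  obtain ⟨s, p, hR⟩ := exists_RepG P k m N K
  have hp := hR.1
  have hRK := hR.toRepK
  set A : UB.PathZ → Prop := AE k m d with hA
  have hAc : ∀ ω ω' : UB.PathZ, ctx k m ω = ctx k m ω' → (A ω ↔ A ω') := by
    intro ω ω' h
    simp only [ctx, Prod.mk.injEq, decide_eq_decide] at h
    simp only [hA, AE]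
    rw [h.2.1, h.2.2]
  have hjdet : ∀ ω ω' : UB.PathZ, W (k + m) ω = W (k + m) ω' → (T^[k] ω).j m = (T^[k] ω').j m := by
    intro ω ω' h1
    have h2 := ((UB.PathZ.W_add_iff k m ω ω').1 h1).2
    unfold UB.PathZ.W at h2
    exact (Prod.mk.inj h2).1
  have hAdet : DetG k m N K A := by
    intro ω ω' h1 _ h3 _
    simp only [hA, AE]
    rw [h3, hjdet ω ω' h1]
  have hmassA := hR.mass A hAdet
  have hNC : ∑ ω ∈ s with ω ∈ NoCut K, p ω = P.m (NoCut K) :=
    hR.mass (fun ω => ω ∈ NoCut K) fun ω ω' _ _ _ h => propext h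
  set sA := s.filter A with hsA
  have hpA : ∀ ω ∈ sA, 0 ≤ p ω := fun ω hω => hp ω (mem_filter.1 hω).1
  have hsA1 : ∑ ω ∈ sA, p ω ≤ 1 := by
    rw [← hR.2.1]
    exact sum_le_sum_of_subset_of_nonneg (filter_subset _ _) fun ω hω _ => hp ω hω
  have hlog2 := log2_pos
  -- the upper bound on the event
  have hup : cH sA p (U k) (ctx k m) ≤ k * e1 + K1 * (δ * k) + K2 * (GW P k + GW P m - GW P (k + m) +
      Real.log ((k : ℝ) + 1) + 2 * Real.log 2) := by
    refine (hD sA p hpA hsA1 k (U k) (fun ω => ω.b k) (ctx k m)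
      (fun ω _ => ⟨UB.PathZ.U_nonneg k ω, UB.PathZ.U_lt k ω⟩) G hG
      (fun l => P.m {ω | EE m k ω ∧ (ω.b 0 / 3 ^ l % 3 ^ d) ∉ G l (ω.b 0 % 3 ^ l)}) ?_).trans ?_
    · intro l hl
      set Q : UB.PathZ → Prop := fun ω => A ω ∧ (ω.b k / 3 ^ l % 3 ^ d) ∉ G l (ω.b k % 3 ^ l) with hQ
      have hdet : DetG k m N K Q := by
        intro ω ω' h1 h2 h3 _
        have hb : ω.b k % 3 ^ (l + d) = ω'.b k % 3 ^ (l + d) := by
          refine UB.PathZ.b_emod_det ((UB.PathZ.W_add_iff k m ω ω').1 h1).1 ?_ h2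
          have := ω.j_le k
          omega
        obtain ⟨hb1, hb2⟩ := (split_mod _ _ l d).1 hb
        simp only [hQ, hA, AE]
        rw [h3, hjdet ω ω' h1, hb1, hb2]
      have e1 : ∑ ω ∈ sA with (ω.b k / 3 ^ l % 3 ^ d) ∉ G l (ω.b k % 3 ^ l), p ω = P.m {ω | Q ω} := by
        rw [← hR.mass Q hdet, hsA, sum_filter, sum_filter, sum_filter]
        refine sum_congr rfl fun ω _ => ?_
        by_cases c1 : AE k m d ω <;> by_cases c2 : (ω.b k / 3 ^ l % 3 ^ d) ∈ G l (ω.b k % 3 ^ l) <;>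
          simp [hQ, hA, c1, c2]
      rw [e1]
      have e2 := hI.iter k {ω | EE m k ω ∧ (ω.b 0 / 3 ^ l % 3 ^ d) ∉ G l (ω.b 0 % 3 ^ l)}
      rw [← e2]
      apply P.m_mono
      intro ω hω
      simp only [hQ, hA, AE, Set.mem_ofPred_eq] at hω
      simp only [Set.mem_preimage, Set.mem_ofPred_eq, EE, UB.PathZ.b_iter, add_zero]
      exact ⟨⟨hω.1.1, by omega⟩, hω.2⟩
    · -- informations
      have i1 : cH sA p (U k) (ctx k m) - cH sA p (U k) (fun ω => (ω.b k % 3 ^ (k + d), ctx k m ω)) ≤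
          HW P k + HW P m - HW P (k + m) + Real.log 2 := by
        have a1 := UB.PathZ.info_E k m N hRK hI
        have a2 := info_ctx (k := k) (m := m) hp hR.2.1.le (fun ω => X m (T^[k] ω)) fun ω ω' h =>
          (UB.PathZ.X_iff.1 h).1
        have a3 := UB.PathZ.info_filter hp A (U k) (fun ω => X m (T^[k] ω)) (ctx k m) hAc
        rw [← hsA] at a3
        have a4 := cH_anti hpA (U k) (fun ω => (X m (T^[k] ω), ctx k m ω))
          (fun ω => (ω.b k % 3 ^ (k + d), ctx k m ω)) fun ω h1 _ ω' h2 _ h => by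
            simp only [Prod.mk.injEq] at h ⊢
            refine ⟨?_, h.2⟩
            have hx := (UB.PathZ.X_iff.1 h.1).2
            rw [UB.PathZ.b_iter, UB.PathZ.b_iter, add_zero] at hx
            have h3 : A ω := (mem_filter.1 h1).2
            exact UB.PathZ.emod_of_le h3.2 hx
        linarith
      have i2 : cH sA p (U k) (ctx k m) -
          cH sA p (U k) (fun ω => ((U k ω + ω.b k) % 3 ^ (k + d), ctx k m ω)) ≤
          FW P k + FW P m - FW P (k + m) + Real.log ((k : ℝ) + 1) + Real.log 2 := by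
        have a1 := UB.PathZ.info_D k m N hRK hI
        have a2 := info_ctx (k := k) (m := m) hp hR.2.1.le (D k m) fun ω ω' h => (Prod.ext_iff.1 h).1
        have a3 := UB.PathZ.info_filter hp A (U k) (D k m) (ctx k m) hAc
        rw [← hsA] at a3
        have a4 := cH_anti hpA (U k) (fun ω => (D k m ω, ctx k m ω))
          (fun ω => ((U k ω + ω.b k) % 3 ^ (k + d), ctx k m ω)) fun ω h1 _ ω' h2 _ h => by
            simp only [Prod.mk.injEq] at h ⊢
            refine ⟨?_, h.2⟩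
            have hx := h.1
            unfold UB.PathZ.D at hx
            rw [Prod.mk.injEq] at hx
            have hx2 := hx.2
            rw [← hx.1] at hx2
            have h3 : A ω := (mem_filter.1 h1).2
            exact UB.PathZ.emod_of_le h3.2 hx2
        linarith
      have i3 := mul_le_mul_of_nonneg_left (add_le_add i1 i2) hK2
      have i4 := mul_le_mul_of_nonneg_left hδ hK1
      unfold UB.PathZ.GW
      linarith
  -- the lower bound
  have hlow : k * (lam θ + θ * (Lv - q1 P * Real.log 3)) -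
      (Real.log ((k : ℝ) + 1) + Real.log 2 + Real.log ((m : ℝ) + 1)) ≤ cH s p (U k) (ctx k m) := by
    have b1 : k * (lam θ + θ * (Lv - q1 P * Real.log 3)) ≤
        cH s p (W k) (fun ω : UB.PathZ => ω.b 0 % 3 ^ N) := by
      rw [hRK.cH_pair (UB.PathZ.FR_W k) (UB.FR.emod _ N) (fun _ _ h _ => UB.PathZ.W_det (by omega) h)
        (fun _ _ _ h => h)]
      exact hM k N
    have b2 := cH_triangle hp (fun ω : UB.PathZ => (T^[0] ω).j k) (W k)
      (fun ω : UB.PathZ => ω.b 0 % 3 ^ N)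
    have b3 := cH_j hp hR.2.1.le k 0 (fun ω : UB.PathZ => ω.b 0 % 3 ^ N)
    have b4 := cH_triangle hp (fun ω => decide (T^[k] ω ∈ Cu)) (W k)
      (fun ω : UB.PathZ => ((T^[0] ω).j k, ω.b 0 % 3 ^ N))
    have b5 := cH_ind hp hR.2.1.le (fun ω => T^[k] ω ∈ Cu)
      (fun ω : UB.PathZ => ((T^[0] ω).j k, ω.b 0 % 3 ^ N))
    have b6 := cH_triangle hp (fun ω : UB.PathZ => (T^[k] ω).j m) (W k)
      (fun ω : UB.PathZ => (decide (T^[k] ω ∈ Cu), ((T^[0] ω).j k, ω.b 0 % 3 ^ N)))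
    have b7 := cH_j hp hR.2.1.le m k
      (fun ω : UB.PathZ => (decide (T^[k] ω ∈ Cu), ((T^[0] ω).j k, ω.b 0 % 3 ^ N)))
    have b8 := cH_anti hp (W k)
      (fun ω : UB.PathZ => ((T^[k] ω).j m, (decide (T^[k] ω ∈ Cu), ((T^[0] ω).j k, ω.b 0 % 3 ^ N))))
      (ctx k m) fun ω _ _ ω' _ _ h => by
        simp only [Prod.mk.injEq, ctx] at h ⊢
        refine ⟨UB.PathZ.X_iff.2 ⟨h.2.2.1, ?_⟩, h.2.1, h.1⟩
        refine UB.PathZ.emod_of_le ?_ h.2.2.2
        have := ω.j_le k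
        omega
    have b9 := cH_mono hp (W k) (U k) (ctx k m) fun ω _ _ ω' _ _ h1 h2 => by
      simp only [ctx, Prod.mk.injEq] at h2
      exact UB.PathZ.W_of_U_X h1 h2.1
    linarith
  -- the complement
  have hpn : ∀ ω ∈ s.filter (fun ω => ¬ A ω), 0 ≤ p ω := fun ω hω => hp ω (mem_filter.1 hω).1
  have hsn : ∑ ω ∈ s.filter (fun ω => ¬ A ω), p ω ≤ 1 := by
    rw [← hR.2.1]
    exact sum_le_sum_of_subset_of_nonneg (filter_subset _ _) fun ω hω _ => hp ω hω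
  have c1 := hCK (s.filter fun ω => ¬ A ω) p hpn hsn k hKk (ctx k m) fun ω _ ω' _ h => by
    simp only [ctx, Prod.mk.injEq] at h
    exact h.1
  have c2 := cH_mono hpn (U k) (W k) (ctx k m) fun ω _ _ ω' _ _ h1 _ => UB.PathZ.U_of_W h1
  have hcm : 0 ≤ cm θ * k := mul_nonneg (cm_nonneg θ) (Nat.cast_nonneg k)
  have c3 : ∑ ω ∈ (s.filter fun ω => ¬ A ω) with ω ∈ NoCut K, p ω ≤ P.m (NoCut K) := by
    rw [← hNC]
    refine sum_le_sum_of_subset_of_nonneg ?_ fun ω hω _ => hp ω (mem_filter.1 hω).1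
    intro ω hω
    rw [mem_filter, mem_filter] at hω
    rw [mem_filter]
    exact ⟨hω.1.1, hω.2⟩
  have c4 := mul_le_mul_of_nonneg_left c3 hcm
  have hsp := UB.cH_split (s := s) (p := p) A (U k) (ctx k m) fun ω _ ω' _ h => hAc ω ω' h
  rw [← hsA] at hsp
  -- the sums
  have d1 := sum_filter_add_sum_filter_not s A (fun ω => p ω * (lam θ * k + θ * hh k (ω.j k)))
  rw [RepK_mean_hh hI hRK (by omega)] at d1
  have d2 : min (lam θ) (lam θ + θ * Lv) * k * P.m {ω | AE k m d ω} -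
      |θ| * (K * Real.log 3) - cm θ * k * P.m (NoCut K) ≤
      ∑ ω ∈ sA, p ω * (lam θ * k + θ * hh k (ω.j k)) := by
    have e1 : ∑ ω ∈ sA, p ω * (min (lam θ) (lam θ + θ * Lv) * k - |θ| * (K * Real.log 3) -
        cm θ * k * (if ω ∈ NoCut K then 1 else 0)) ≤
        ∑ ω ∈ sA, p ω * (lam θ * k + θ * hh k (ω.j k)) :=
      sum_le_sum fun ω hω => mul_le_mul_of_nonneg_left (expo_ge θ hKk ω) (hpA ω hω)
    refine le_trans ?_ e1
    have e2 : ∑ ω ∈ sA, p ω * (min (lam θ) (lam θ + θ * Lv) * k - |θ| * (K * Real.log 3) -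
        cm θ * k * (if ω ∈ NoCut K then 1 else 0)) =
        min (lam θ) (lam θ + θ * Lv) * k * ∑ ω ∈ sA, p ω -
          |θ| * (K * Real.log 3) * ∑ ω ∈ sA, p ω -
          cm θ * k * ∑ ω ∈ sA, p ω * (if ω ∈ NoCut K then 1 else 0) := by
      rw [mul_sum, mul_sum, mul_sum, ← sum_sub_distrib, ← sum_sub_distrib]
      refine sum_congr rfl fun ω _ => ?_
      ring
    rw [e2, hmassA]
    have e3 : |θ| * (K * Real.log 3) * P.m {ω | A ω} ≤ |θ| * (K * Real.log 3) :=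
      mul_le_of_le_one_right (by have := log3_pos; positivity) (P.m_le_one _)
    have e4 : ∑ ω ∈ sA, p ω * (if ω ∈ NoCut K then 1 else 0) ≤ P.m (NoCut K) := by
      rw [← hNC, hsA]
      calc ∑ ω ∈ s.filter A, p ω * (if ω ∈ NoCut K then 1 else 0) ≤
          ∑ ω ∈ s, p ω * (if ω ∈ NoCut K then 1 else 0) := by
            refine sum_le_sum_of_subset_of_nonneg (filter_subset _ _) fun ω hω _ => ?_
            have := hp ω hω
            split_ifs
            · linarith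
            · simp
        _ = ∑ ω ∈ s with ω ∈ NoCut K, p ω := by
            rw [sum_filter]
            refine sum_congr rfl fun ω _ => ?_
            split_ifs <;> simp
    have e5 := mul_le_mul_of_nonneg_left e4 hcm
    simp only [hA] at *
    linarith
  have hCKabs := le_abs_self CK
  linarith

end Pool.Agent.Collatz3.SB
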