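import Pool.Agent.Collatz3.SBWords
import Pool.Agent.Collatz3.LTFew

set_option autoImplicit false

/-!
The number of letters (words between consecutive cuts) of strong barrier words, for every root.
-/

open Finset
open scoped Classical

namespace Pool.Agent.Collatz3.SB

open Pool.Agent.Collatz3.LT

/-- number of words with many ones -/
theorem many_words {y : ℝ} (hy : 1 ≤ y) (r : ℝ) (m : ℕ) :
    ((((WL m).filter fun w => r ≤ (jj w : ℝ)).card : ℕ) : ℝ) ≤
      Real.exp (m * Real.log (1 + y) - r * Real.log y) := by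
  have hy0 : 0 < y := by linarith
  have hly : 0 ≤ Real.log y := Real.log_nonneg hy
  have h1 : ∑ w ∈ (WL m).filter (fun w => r ≤ (jj w : ℝ)),
      Real.exp (r * Real.log y) ≤ (1 + y) ^ m := by
    rw [← WL_sum]
    refine le_trans (sum_le_sum (g := fun w : List Bool => y ^ jj w) fun w hw => ?_)
      (sum_le_sum_of_subset_of_nonneg (filter_subset _ _) fun _ _ _ => by positivity)
    have h2 := (mem_filter.1 hw).2
    have h3 : y ^ jj w = Real.exp (jj w * Real.log y) := by
      rw [Real.exp_nat_mul, Real.exp_log hy0]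
    rw [h3]
    apply Real.exp_le_exp.2
    exact mul_le_mul_of_nonneg_right h2 hly
  rw [sum_const, nsmul_eq_mul] at h1
  have h2 := mul_le_mul_of_nonneg_right h1 (Real.exp_pos (-(r * Real.log y))).le
  rw [mul_assoc, ← Real.exp_add, add_neg_cancel, Real.exp_zero, mul_one] at h2
  refine h2.trans (le_of_eq ?_)
  rw [show (1 + y) ^ m = Real.exp (m * Real.log (1 + y)) by
    rw [Real.exp_nat_mul, Real.exp_log (by linarith)], ← Real.exp_add]
  congr 1

/-- the entropy bound -/
theorem many_words_entropy {p : ℝ} (hp : 1 / 2 ≤ p) (hp1 : p < 1) (m : ℕ) :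
    ((((WL m).filter fun w => p * m - 1 ≤ (jj w : ℝ)).card : ℕ) : ℝ) ≤
      p / (1 - p) * Real.exp (Real.binEntropy p * m) := by
  have h0 : 0 < 1 - p := by linarith
  have hp0 : 0 < p := by linarith
  have hy : 1 ≤ p / (1 - p) := by rw [le_div_iff₀ h0]; linarith
  refine (many_words hy _ m).trans (le_of_eq ?_)
  have e1 : 1 + p / (1 - p) = (1 - p)⁻¹ := by field_simp; ring
  have e2 : Real.log (p / (1 - p)) = Real.log p - Real.log (1 - p) := Real.log_div hp0.ne' h0.ne'
  have e3 : p / (1 - p) = Real.exp (Real.log (p / (1 - p))) := by rw [Real.exp_log (by positivity)]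
  rw [e1]
  conv_rhs => rw [e3]
  rw [← Real.exp_add, e2]
  congr 1
  unfold Real.binEntropy
  rw [Real.log_inv, Real.log_inv]
  ring

variable [Par]

/-- the set of letters with `j` ones -/
theorem card_letters {p : ℝ} (hpd : p = Lv / Real.log 3) (hp : 1 / 2 ≤ p) (l j k : ℕ) (x : ℤ)
    (hk : l * 2 ^ l < 2 ^ k * 3 ^ j) :
    (((BR l x).filter fun a => ht a ≤ Real.log 2 ∧ jj a = j).card : ℝ) ≤
      p / (1 - p) * Real.exp (Real.binEntropy p * k) := by
  have hl3 := log3_pos
  have hp1 : p < 1 := by
    rw [hpd, div_lt_one hl3]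
    exact Lv_le.trans_lt log2_lt_log3
  set m := min k l with hm
  have h1 : ((BR l x).filter fun a => ht a ≤ Real.log 2 ∧ jj a = j).card ≤
      ((WL m).filter fun w => p * m - 1 ≤ (jj w : ℝ)).card := by
    refine card_le_card_of_injOn (fun w => w.drop (l - m)) ?_ ?_
    · intro w hw
      rw [mem_coe, mem_filter, mem_BR] at hw
      obtain ⟨⟨a1, a2, a3⟩, a4, a5⟩ := hw
      have hlen : (w.drop (l - m)).length = m := by rw [List.length_drop, a1]; omega
      rw [mem_coe, mem_filter, mem_WL]
      refine ⟨hlen, ?_⟩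
      have e1 : ht w = ht (w.take (l - m)) + ht (w.drop (l - m)) := by
        rw [← ht_append, List.take_append_drop]
      have e2 := (Bar_take a2 (l - m)).ht_nonneg
      have e3 : ht (w.drop (l - m)) = m * Lv - jj (w.drop (l - m)) * Real.log 3 := by
        unfold ht hh
        rw [hlen]
      have e4 : p * m * Real.log 3 = m * Lv := by rw [hpd]; field_simp
      have e5 := log2_lt_log3
      have e6 : (p * m - 1) * Real.log 3 ≤ jj (w.drop (l - m)) * Real.log 3 := by linarith
      exact le_of_mul_le_mul_right e6 hl3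
    · intro w hw v hv h
      rw [mem_coe, mem_filter, mem_BR] at hw hv
      obtain ⟨⟨a1, a2, a3⟩, a4, a5⟩ := hw
      obtain ⟨⟨b1, b2, b3⟩, b4, b5⟩ := hv
      simp only at h
      set w1 := w.take (l - m) with hw1
      set v1 := v.take (l - m) with hv1
      set u := w.drop (l - m) with hu
      have ew : w = w1 ++ u := (List.take_append_drop _ _).symm
      have ev : v = v1 ++ u := by rw [h]; exact (List.take_append_drop _ _).symm
      rcases Nat.lt_or_ge l k with hkl | hkl
      · have : l - m = 0 := by omega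
        rw [hu, this] at h
        simpa using h
      · have hmk : m = k := by omega
        have hul : u.length = k := by rw [hu, List.length_drop, a1]; omega
        have hjj : jj w1 = jj v1 := by
          have c1 : jj w = jj w1 + jj u := by conv_lhs => rw [ew, jj_append]
          have c2 : jj v = jj v1 + jj u := by conv_lhs => rw [ev, jj_append]
          omega
        refine cc_inj l w v a1 b1 (by rw [a5, b5]) ?_
        have c1 : cc w = 2 ^ k * cc w1 + 3 ^ jj w1 * cc u := by
          conv_lhs => rw [ew, cc_append, hul]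
        have c2 : cc v = 2 ^ k * cc v1 + 3 ^ jj w1 * cc u := by
          conv_lhs => rw [ev, cc_append, hul, ← hjj]
        have d1 : (2 : ℤ) ^ k ∣ (cc w : ℤ) - cc v := by
          rw [c1, c2]
          push_cast
          exact ⟨(cc w1 : ℤ) - cc v1, by ring⟩
        have d2 : (3 : ℤ) ^ j ∣ (cc w : ℤ) - cc v := by
          unfold Read at a3 b3
          rw [a1, a5] at a3
          rw [b1, b5] at b3
          have := dvd_sub b3 a3
          have e : 2 ^ l * x - (cc v : ℤ) - (2 ^ l * x - cc w) = cc w - cc v := by ring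
          rwa [e] at this
        have hcop : IsCoprime ((2 : ℤ) ^ k) ((3 : ℤ) ^ j) :=
          IsCoprime.pow (by norm_num [Int.isCoprime_iff_gcd_eq_one])
        have d3 := hcop.mul_dvd d1 d2
        have hw2 := cc_le w a2.toLT
        have hv2 := cc_le v b2.toLT
        rw [a1] at hw2
        rw [b1] at hv2
        have d4 : ((cc w : ℤ) - cc v) = 0 := by
          apply Int.eq_zero_of_abs_lt_dvd d3
          rw [abs_lt]
          have f1 : (2 * (cc w : ℤ)) ≤ l * 2 ^ l := by exact_mod_cast hw2
          have f2 : (2 * (cc v : ℤ)) ≤ l * 2 ^ l := by exact_mod_cast hv2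
          have f3 : (l : ℤ) * 2 ^ l < 2 ^ k * 3 ^ j := by exact_mod_cast hk
          have f4 : (0 : ℤ) ≤ cc w := Int.natCast_nonneg _
          have f5 : (0 : ℤ) ≤ cc v := Int.natCast_nonneg _
          constructor <;> linarith
        have d5 : (cc w : ℤ) = cc v := by linarith
        exact_mod_cast d5
  have h2 : (((BR l x).filter fun a => ht a ≤ Real.log 2 ∧ jj a = j).card : ℝ) ≤
      (((WL m).filter fun w => p * m - 1 ≤ (jj w : ℝ)).card : ℝ) := by exact_mod_cast h1
  refine h2.trans ((many_words_entropy hp hp1 m).trans ?_)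
  have h3 : 0 ≤ p / (1 - p) := div_nonneg (by linarith) (by linarith)
  refine mul_le_mul_of_nonneg_left (Real.exp_le_exp.2 ?_) h3
  refine mul_le_mul_of_nonneg_left ?_ (Real.binEntropy_nonneg (by linarith) hp1.le)
  have : m ≤ k := min_le_left _ _
  exact_mod_cast this

/-- **the letter lemma** -/
theorem letters_of (hp : 1 / 2 ≤ Lv / Real.log 3)
    (hκ : Par.v * (Real.binEntropy (Lv / Real.log 3) / Real.log 2) < Par.κ) : Letters := by
  obtain ⟨p, hpd⟩ : ∃ p, p = Lv / Real.log 3 := ⟨_, rfl⟩
  rw [← hpd] at hp hκ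
  have hl2 := log2_pos
  have hl3 := log3_pos
  have hp1 : p < 1 := by
    rw [hpd, div_lt_one hl3]
    exact Lv_le.trans_lt log2_lt_log3
  have hH0 : 0 ≤ Real.binEntropy p := Real.binEntropy_nonneg (by linarith) hp1.le
  have hH1 : Real.binEntropy p ≤ Real.log 2 := Real.binEntropy_le_log_two
  set H := Real.binEntropy p with hH
  set δ := Par.κ - Par.v * (H / Real.log 2) with hδ
  have hδ0 : 0 < δ := by rw [hδ]; linarith
  -- polynomial factor
  obtain ⟨C0, hC0, hpoly⟩ : ∃ C0 : ℝ, 0 < C0 ∧ ∀ l : ℕ, ((l : ℝ) + 1) * (2 * l + 1) ≤ C0 * Real.exp (δ * l) := by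
    refine ⟨1 + 3 / δ + 4 / δ ^ 2, by positivity, fun l => ?_⟩
    have hl : (0 : ℝ) ≤ l := Nat.cast_nonneg l
    have h0 : 0 ≤ δ * l := by positivity
    have h1 := Real.quadratic_le_exp_of_nonneg h0
    have h2 : (1 + 3 / δ + 4 / δ ^ 2) * (1 + δ * l + (δ * l) ^ 2 / 2) ≤
        (1 + 3 / δ + 4 / δ ^ 2) * Real.exp (δ * l) := mul_le_mul_of_nonneg_left h1 (by positivity)
    refine le_trans ?_ h2
    have e1 : 3 / δ * (δ * l) = 3 * l := by field_simp
    have e2 : 4 / δ ^ 2 * ((δ * l) ^ 2 / 2) = 2 * (l : ℝ) ^ 2 := by field_simp; ring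
    have e3 : 0 ≤ 3 / δ := by positivity
    have e4 : 0 ≤ 4 / δ ^ 2 := by positivity
    have e5 : 0 ≤ (δ * l) ^ 2 / 2 := by positivity
    nlinarith [mul_nonneg e3 e5, mul_nonneg e4 h0]
  refine ⟨p / (1 - p) * Real.exp H * C0, by
    have : 0 < p / (1 - p) := div_pos (by linarith) (by linarith)
    positivity, fun l x => ?_⟩
  have hc0 : 0 < p / (1 - p) := div_pos (by linarith) (by linarith)
  -- each number of ones
  have key : ∀ j ∈ range (l + 1), (((BR l x).filter fun a => ht a ≤ Real.log 2 ∧ jj a = j).card : ℝ) ≤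
      p / (1 - p) * Real.exp H * ((2 * l + 1) * Real.exp (H / Real.log 2 * (Par.v * l))) := by
    intro j _
    by_cases hj : hh l j ≤ Real.log 2
    · set R : ℝ := (2 * l + 1) * Real.exp (Par.v * l) with hR
      have hR1 : 1 ≤ R := by
        have h1 : 1 ≤ Real.exp (Par.v * l) :=
          Real.one_le_exp (mul_nonneg Par.v_nonneg (Nat.cast_nonneg l))
        have h2 : (0 : ℝ) ≤ l := Nat.cast_nonneg l
        rw [hR]
        nlinarith
      set k := ⌊Real.log R / Real.log 2⌋₊ + 1 with hk
      have hlR : 0 ≤ Real.log R := Real.log_nonneg hR1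
      have hk1 : Real.log R / Real.log 2 < k := by
        rw [hk]; push_cast
        exact Nat.lt_floor_add_one _
      have hk2 : (k : ℝ) ≤ Real.log R / Real.log 2 + 1 := by
        rw [hk]; push_cast
        have := Nat.floor_le (show 0 ≤ Real.log R / Real.log 2 by positivity)
        linarith
      have hRk : R < 2 ^ k := by
        rw [div_lt_iff₀ hl2] at hk1
        have : Real.log R < Real.log ((2 : ℝ) ^ k) := by rw [Real.log_pow]; exact hk1
        exact (Real.log_lt_log_iff (by linarith) (by positivity)).1 this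
      have hkk : l * 2 ^ l < 2 ^ k * 3 ^ j := by
        have h1 : (l : ℝ) * 2 ^ l < 2 ^ k * 3 ^ j := by
          have e1 : Real.exp (LT.hh l j) = 2 ^ l / 3 ^ j := exp_hh l j
          have e2 : LT.hh l j ≤ Real.log 2 + Par.v * l := by
            rw [LT_hh]; linarith
          have e3 : (2 : ℝ) ^ l / 3 ^ j ≤ 2 * Real.exp (Par.v * l) := by
            rw [← e1]
            refine (Real.exp_le_exp.2 e2).trans (le_of_eq ?_)
            rw [Real.exp_add, Real.exp_log (by norm_num)]
          have e4 : (l : ℝ) * (2 ^ l / 3 ^ j) ≤ l * (2 * Real.exp (Par.v * l)) :=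
            mul_le_mul_of_nonneg_left e3 (Nat.cast_nonneg l)
          have e5 : (l : ℝ) * (2 * Real.exp (Par.v * l)) ≤ R := by
            rw [hR]
            have := Real.exp_pos (Par.v * l)
            nlinarith
          have e6 : (l : ℝ) * (2 ^ l / 3 ^ j) < 2 ^ k := by linarith
          rw [← mul_div_assoc, div_lt_iff₀ (by positivity)] at e6
          exact e6
        exact_mod_cast h1
      refine (card_letters hpd hp l j k x hkk).trans ?_
      rw [mul_assoc]
      refine mul_le_mul_of_nonneg_left ?_ hc0.le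
      have e1 : H * k ≤ H + H / Real.log 2 * Real.log R := by
        have := mul_le_mul_of_nonneg_left hk2 hH0
        refine this.trans (le_of_eq ?_)
        ring
      have e2 : H / Real.log 2 * Real.log R ≤ Real.log (2 * l + 1) + H / Real.log 2 * (Par.v * l) := by
        have f1 : Real.log R = Real.log (2 * l + 1) + Par.v * l := by
          rw [hR, Real.log_mul (by positivity) (Real.exp_pos _).ne', Real.log_exp]
        rw [f1, mul_add]
        have f2 : H / Real.log 2 ≤ 1 := by rw [div_le_one hl2]; exact hH1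
        have f3 : 0 ≤ Real.log (2 * (l : ℝ) + 1) := Real.log_nonneg (by
          have : (0 : ℝ) ≤ l := Nat.cast_nonneg l
          linarith)
        have := mul_le_mul_of_nonneg_right f2 f3
        linarith
      calc Real.exp (H * k) ≤ Real.exp (H + (Real.log (2 * l + 1) + H / Real.log 2 * (Par.v * l))) :=
            Real.exp_le_exp.2 (by linarith)
        _ = Real.exp H * ((2 * l + 1) * Real.exp (H / Real.log 2 * (Par.v * l))) := by
            rw [Real.exp_add, Real.exp_add, Real.exp_log (by positivity)]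
    · have h1 : (BR l x).filter (fun w => ht w ≤ Real.log 2 ∧ jj w = j) = ∅ := by
        refine filter_eq_empty_iff.2 fun w hw h => ?_
        rw [mem_BR] at hw
        apply hj
        rw [← hw.1, ← h.2]
        exact h.1
      rw [h1]
      simp only [card_empty, Nat.cast_zero]
      positivity
  have h1 := sum_by_jj (n := l) (x := x) (fun _ => (1 : ℝ)) (fun a => ht a ≤ Real.log 2)
  simp only [sum_const, nsmul_eq_mul, mul_one] at h1
  rw [h1]
  refine (sum_le_sum key).trans ?_
  rw [sum_const, card_range, nsmul_eq_mul]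
  push_cast
  have h2 := mul_le_mul_of_nonneg_right (hpoly l) (Real.exp_pos (H / Real.log 2 * (Par.v * l))).le
  have h3 : Real.exp (δ * l) * Real.exp (H / Real.log 2 * (Par.v * l)) = Real.exp (Par.κ * l) := by
    rw [← Real.exp_add, hδ]; congr 1; ring
  have h4 : 0 ≤ p / (1 - p) * Real.exp H := by positivity
  calc ((l : ℝ) + 1) * (p / (1 - p) * Real.exp H * ((2 * l + 1) * Real.exp (H / Real.log 2 * (Par.v * l))))
      = p / (1 - p) * Real.exp H * (((l : ℝ) + 1) * (2 * l + 1) *
          Real.exp (H / Real.log 2 * (Par.v * l))) := by ring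
    _ ≤ p / (1 - p) * Real.exp H * (C0 * Real.exp (δ * l) *
          Real.exp (H / Real.log 2 * (Par.v * l))) := mul_le_mul_of_nonneg_left h2 h4
    _ = p / (1 - p) * Real.exp H * C0 * (Real.exp (δ * l) *
          Real.exp (H / Real.log 2 * (Par.v * l))) := by ring
    _ = _ := by rw [h3]

end Pool.Agent.Collatz3.SB
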