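import Pool.Agent.Collatz3.SBGrow

set_option autoImplicit false

/-!
Exponential moment of the number of positions without a cut nearby.
-/

open Finset
open scoped Classical

namespace Pool.Agent.Collatz3.SB

open Pool.Agent.Collatz3.LT

variable [Par]

theorem Bar.append {u v : List Bool} (hu : Bar u) (hv : Bar v) : Bar (u ++ v) := by
  intro i h1 h2
  rw [List.length_append] at h2
  rcases Nat.lt_or_ge u.length i with h | h
  · rw [List.take_append, List.take_of_length_le h.le, ht_append]
    have h3 := hv (i - u.length) (by omega) (by omega)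
    have h4 := hu.ht_nonneg
    linarith
  · rw [List.take_append_of_le_length h]
    exact hu i h1 h

theorem bad_dec {w : List Bool} (hw : Bar w) {K : ℕ} (hK : 1 ≤ K) (hb : bad K w ≠ 0) :
    ∃ w1 a w3 : List Bool, w = w1 ++ (a ++ w3) ∧ Bar w1 ∧ Bar a ∧ Bar w3 ∧ ht a ≤ Real.log 2 ∧
      K < a.length ∧ bad K w ≤ a.length + bad K w3 := by
  set S := (range w.length).filter fun t => ∀ s < K, ¬ Bar (w.drop (t + s)) with hS
  have hne : S.Nonempty := by
    rw [← card_ne_zero]; exact hb
  set t := S.min' hne with ht'
  have htS : t ∈ S := S.min'_mem hne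
  have htS' := htS
  rw [hS, mem_filter, mem_range] at htS'
  obtain ⟨h1, h2⟩ := htS'
  obtain ⟨w1, a, w3, e, b1, b2, b3, b4, b5, b6, b7⟩ := cut_pair hw h1
  have hcut1 : Bar (w.drop w1.length) := by
    rw [e, List.drop_left]; exact b2.append b3
  have hcut2 : Bar (w.drop (w1.length + a.length)) := by
    rw [e, ← List.append_assoc, ← List.length_append, List.drop_left]; exact b3
  have hne1 : w1.length < t := by
    rcases b5.eq_or_lt with h | h
    · exfalso
      have := h2 0 (by omega)
      rw [add_zero, ← h] at this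
      exact this hcut1
    · exact h
  have hlen : t + K ≤ w1.length + a.length := by
    by_contra hcon
    push Not at hcon
    have := h2 (w1.length + a.length - t) (by omega)
    rw [show t + (w1.length + a.length - t) = w1.length + a.length by omega] at this
    exact this hcut2
  refine ⟨w1, a, w3, e, b1, b2, b3, b4, by omega, ?_⟩
  have hsub : S ⊆ Ico w1.length (w1.length + a.length) ∪
      (((range w3.length).filter fun t => ∀ s < K, ¬ Bar (w3.drop (t + s))).image
        fun t => t + (w1.length + a.length)) := by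
    intro t' ht''
    have h5 : t ≤ t' := S.min'_le t' ht''
    rw [mem_union]
    rcases Nat.lt_or_ge t' (w1.length + a.length) with h | h
    · left
      rw [mem_Ico]; omega
    · right
      rw [hS, mem_filter, mem_range] at ht''
      rw [mem_image]
      refine ⟨t' - (w1.length + a.length), ?_, by omega⟩
      rw [mem_filter, mem_range]
      refine ⟨?_, fun s hs hB => ?_⟩
      · have := ht''.1
        rw [e, List.length_append, List.length_append] at this
        omega
      · refine ht''.2 s hs ?_
        have e2 : w.drop (t' + s) = w3.drop (t' - (w1.length + a.length) + s) := by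
          rw [e, ← List.append_assoc,
            show t' + s = (w1 ++ a).length + (t' - (w1.length + a.length) + s) by
              rw [List.length_append]; omega, List.drop_append,
            List.drop_of_length_le (by omega), Nat.add_sub_cancel_left, List.nil_append]
        rw [e2]; exact hB
  calc bad K w = S.card := rfl
    _ ≤ _ := card_le_card hsub
    _ ≤ _ := card_union_le _ _
    _ ≤ a.length + bad K w3 := by
        rw [Nat.card_Ico, Nat.add_sub_cancel_left]
        exact Nat.add_le_add_left card_image_le _

/-- geometric series -/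
theorem geom_le {ε : ℝ} (hε : 0 < ε) (n : ℕ) :
    ∑ i ∈ range n, Real.exp (-ε * i) ≤ 1 / (1 - Real.exp (-ε)) := by
  have h1 : Real.exp (-ε) < 1 := Real.exp_lt_one_iff.2 (by linarith)
  have h2 : ∀ i ∈ range n, Real.exp (-ε * i) = Real.exp (-ε) ^ i := by
    intro i _
    rw [← Real.exp_nat_mul]; congr 1; ring
  rw [sum_congr rfl h2]
  have h3 := (summable_geometric_of_lt_one (Real.exp_pos _).le h1).sum_le_tsum (range n)
    (fun i _ => by positivity)
  rw [tsum_geometric_of_lt_one (Real.exp_pos _).le h1] at h3
  rw [one_div]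
  exact h3

/-- weight bound for the letters -/
noncomputable def lf (C μ : ℝ) (l : ℕ) : ℝ := C * Real.exp (-μ * l)

theorem lf_nonneg {C : ℝ} (hC : 0 ≤ C) (μ : ℝ) (l : ℕ) : 0 ≤ lf C μ l := by
  unfold lf; positivity

theorem summable_lf (C : ℝ) {μ : ℝ} (hμ : 0 < μ) : Summable (lf C μ) := by
  have h1 : ‖Real.exp (-μ)‖ < 1 := by
    rw [Real.norm_of_nonneg (Real.exp_pos _).le]
    exact Real.exp_lt_one_iff.2 (by linarith)
  have s0 := summable_geometric_of_norm_lt_one h1
  refine (s0.mul_left C).congr fun l => ?_
  have e : Real.exp (-μ * l) = Real.exp (-μ) ^ l := by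
    rw [← Real.exp_nat_mul]; congr 1; ring
  unfold lf
  rw [e]

theorem lf_tail (C : ℝ) {μ : ℝ} (hμ : 0 < μ) {τ : ℝ} (hτ : 0 < τ) : ∃ K : ℕ, 1 ≤ K ∧ ∀ t : Finset ℕ,
    (∀ l ∈ t, K < l) → ∑ l ∈ t, lf C μ l ≤ τ := by
  obtain ⟨s, hs⟩ := summable_iff_vanishing_norm.1 (summable_lf C hμ) τ hτ
  refine ⟨s.sup id + 1, by omega, fun t ht => ?_⟩
  have h1 := hs t (by
    rw [Finset.disjoint_left]
    intro l hl hl'
    have := ht l hl
    have := Finset.le_sup (f := id) hl'
    simp only [id] at this
    omega)
  exact (le_abs_self _).trans h1.le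

/-- half of the distance between the growth exponents -/
noncomputable def tt (θ : ℝ) : ℝ := (lam θ - Par.κ) / 2

theorem tt_pos {θ : ℝ} (h : Par.κ < lam θ) : 0 < tt θ := by
  unfold tt
  linarith

theorem one_le_const {θ C ε : ℝ} (h : ∀ (n : ℕ) (x : ℤ), AA θ n x ≤ C * Real.exp ((lam θ + ε) * n)) :
    1 ≤ C := by
  have := h 0 0
  unfold AA at this
  rw [BR_zero] at this
  simpa using this

theorem star (hLet : Letters) {θ : ℝ} (h : Par.κ < lam θ) {ε : ℝ} (hε : 0 < ε) :
    ∃ (K : ℕ) (D : ℝ), 1 ≤ K ∧ 0 < D ∧
    ∀ (n : ℕ) (x : ℤ), ∑ w ∈ BR n x, Real.exp (-θ * ht w + tt θ * bad K w) ≤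
      D * Real.exp ((lam θ + ε) * n) := by
  obtain ⟨CL, hCL, hLs⟩ := letter_sum hLet θ
  set lm := lam θ with hlm
  set η := tt θ with hη
  have hηd : η = (lm - Par.κ) / 2 := rfl
  have hη0 : 0 < η := by rw [hηd]; linarith
  obtain ⟨C, hC0, hC⟩ := AA_le θ (half_pos hε)
  rw [← hlm] at hC
  have hC1 : 1 ≤ C := one_le_const hC
  set G := 1 / (1 - Real.exp (-(ε / 2))) with hG
  have hG0 : 0 < G := by
    have : Real.exp (-(ε / 2)) < 1 := Real.exp_lt_one_iff.2 (by linarith)
    rw [hG]
    exact div_pos one_pos (by linarith)
  obtain ⟨K, hK1, hK⟩ := lf_tail CL hη0 (show 0 < 1 / (2 * (C * G)) by positivity)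
  refine ⟨K, 2 * C, hK1, by positivity, ?_⟩
  intro n
  induction n using Nat.strong_induction_on with
  | _ n ih =>
    intro x
    set F : List Bool → ℝ := fun w => Real.exp (-θ * ht w + η * bad K w) with hF
    change ∑ w ∈ BR n x, F w ≤ _
    rw [← sum_filter_add_sum_filter_not (BR n x) (fun w => bad K w = 0)]
    -- no long letter
    have p1 : ∑ w ∈ (BR n x).filter (fun w => bad K w = 0), F w ≤ C * Real.exp ((lm + ε) * n) := by
      have h1 : ∑ w ∈ (BR n x).filter (fun w => bad K w = 0), F w ≤ AA θ n x := by
        unfold AA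
        refine le_trans (le_of_eq ?_) (sum_le_sum_of_subset_of_nonneg
          (filter_subset (fun w => bad K w = 0) (BR n x)) fun _ _ _ => (Real.exp_pos _).le)
        refine sum_congr rfl fun w hw => ?_
        simp only [hF]
        rw [(mem_filter.1 hw).2]
        simp
      refine (h1.trans (hC n x)).trans (mul_le_mul_of_nonneg_left ?_ hC0.le)
      apply Real.exp_le_exp.2
      have : (0 : ℝ) ≤ n := Nat.cast_nonneg n
      nlinarith
    -- at least one long letter
    have p2 : ∑ w ∈ (BR n x).filter (fun w => ¬ bad K w = 0), F w ≤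
        C * Real.exp ((lm + ε) * n) := by
      set I : Finset ((_ : ℕ) × List Bool) := (range (n + 1)).sigma fun n1 => BR n1 x with hI
      set J : ((_ : ℕ) × List Bool) → Finset ((_ : ℕ) × List Bool) := fun i =>
        ((range (n - i.1 + 1)).filter (fun l => K < l)).sigma fun l =>
          ((BR l (nd x i.2)).filter (fun a => ht a ≤ Real.log 2) : Finset (List Bool)) with hJ
      set L : ((_ : ℕ) × List Bool) → ((_ : ℕ) × List Bool) → Finset (List Bool) := fun i j =>
        BR (n - i.1 - j.1) (nd (nd x i.2) j.2) with hL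
      set GG : ((_ : ℕ) × List Bool) → ((_ : ℕ) × List Bool) → List Bool → ℝ := fun i j m =>
        Real.exp (-θ * ht i.2) * (Real.exp (-θ * ht j.2) * Real.exp (η * j.1)) * F m with hGG
      have hdec := sum_dec ((BR n x).filter (fun w => ¬ bad K w = 0)) F
        (fun _ _ => (Real.exp_pos _).le) I J L GG (fun _ _ _ _ _ _ => by
          simp only [hGG, hF]; positivity) (fun i j m => i.2 ++ (j.2 ++ m)) ?_
      · refine hdec.trans ?_
        have q1 : ∀ i ∈ I, ∀ j ∈ J i, ∑ m ∈ L i j, GG i j m ≤
            Real.exp (-θ * ht i.2) * (Real.exp (-θ * ht j.2) * Real.exp (η * j.1)) *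
              (2 * C * Real.exp ((lm + ε) * ((n : ℝ) - i.1 - j.1))) := by
          intro i hi j hj
          simp only [hGG]
          rw [← mul_sum]
          refine mul_le_mul_of_nonneg_left ?_ (by positivity)
          rw [hJ] at hj
          simp only [mem_sigma, mem_filter, mem_range] at hj
          rw [hI] at hi
          simp only [mem_sigma, mem_range] at hi
          have h5 := ih (n - i.1 - j.1) (by omega) (nd (nd x i.2) j.2)
          have e5 : ((n - i.1 - j.1 : ℕ) : ℝ) = (n : ℝ) - i.1 - j.1 := by
            rw [Nat.cast_sub (by omega), Nat.cast_sub (by omega)]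
          rw [e5] at h5
          exact h5
        refine (sum_le_sum fun i hi => sum_le_sum fun j hj => q1 i hi j hj).trans ?_
        have q2 : ∀ i ∈ I, ∑ j ∈ J i, Real.exp (-θ * ht i.2) * (Real.exp (-θ * ht j.2) *
            Real.exp (η * j.1)) * (2 * C * Real.exp ((lm + ε) * ((n : ℝ) - i.1 - j.1))) ≤
            Real.exp (-θ * ht i.2) * (2 * C * Real.exp ((lm + ε) * ((n : ℝ) - i.1)) *
              (1 / (2 * (C * G)))) := by
          intro i hi
          simp only [hJ]
          rw [sum_sigma]
          have q3 : ∀ l ∈ (range (n - i.1 + 1)).filter (fun l => K < l),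
              ∑ a ∈ (BR l (nd x i.2)).filter (fun a => ht a ≤ Real.log 2),
                Real.exp (-θ * ht i.2) * (Real.exp (-θ * ht a) * Real.exp (η * l)) *
                  (2 * C * Real.exp ((lm + ε) * ((n : ℝ) - i.1 - l))) ≤
              Real.exp (-θ * ht i.2) * (2 * C * Real.exp ((lm + ε) * ((n : ℝ) - i.1)) *
                lf CL η l) := by
            intro l _
            have e6 : ∀ a : List Bool, Real.exp (-θ * ht i.2) * (Real.exp (-θ * ht a) *
                Real.exp (η * l)) * (2 * C * Real.exp ((lm + ε) * ((n : ℝ) - i.1 - l))) =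
                (Real.exp (-θ * ht i.2) * Real.exp (η * l) *
                  (2 * C * Real.exp ((lm + ε) * ((n : ℝ) - i.1 - l)))) * Real.exp (-θ * ht a) := by
              intro a; ring
            rw [sum_congr rfl fun a _ => e6 a, ← mul_sum]
            refine (mul_le_mul_of_nonneg_left (hLs l (nd x i.2)) (by positivity)).trans ?_
            have e7 : Real.exp (Par.κ * l) * Real.exp (η * l) *
                Real.exp ((lm + ε) * ((n : ℝ) - i.1 - l)) ≤
                Real.exp ((lm + ε) * ((n : ℝ) - i.1)) * Real.exp (-η * l) := by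
              rw [← Real.exp_add, ← Real.exp_add, ← Real.exp_add]
              apply Real.exp_le_exp.2
              have h0 : (0 : ℝ) ≤ l := Nat.cast_nonneg l
              have h1 : 0 ≤ ε * l := mul_nonneg hε.le h0
              rw [hηd]
              nlinarith
            unfold lf
            have e8 : 0 ≤ Real.exp (-θ * ht i.2) * (2 * C) * CL := by positivity
            have := mul_le_mul_of_nonneg_left e7 e8
            calc _ = Real.exp (-θ * ht i.2) * (2 * C) * CL * (Real.exp (Par.κ * l) *
                  Real.exp (η * l) * Real.exp ((lm + ε) * ((n : ℝ) - i.1 - l))) := by ring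
              _ ≤ _ := this
              _ = _ := by ring
          refine (sum_le_sum q3).trans ?_
          rw [← mul_sum, ← mul_sum]
          refine mul_le_mul_of_nonneg_left (mul_le_mul_of_nonneg_left ?_ (by positivity))
            (Real.exp_pos _).le
          exact hK _ fun l hl => (mem_filter.1 hl).2
        refine (sum_le_sum q2).trans ?_
        rw [hI, sum_sigma]
        have q4 : ∀ n1 ∈ range (n + 1), ∑ w1 ∈ BR n1 x, Real.exp (-θ * ht w1) *
            (2 * C * Real.exp ((lm + ε) * ((n : ℝ) - n1)) * (1 / (2 * (C * G)))) ≤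
            C * Real.exp ((lm + ε) * n) * G⁻¹ * Real.exp (-(ε / 2) * n1) := by
          intro n1 _
          rw [← sum_mul]
          refine (mul_le_mul_of_nonneg_right (hC n1 x) (by positivity)).trans (le_of_eq ?_)
          have e9 : Real.exp ((lm + ε / 2) * n1) * Real.exp ((lm + ε) * ((n : ℝ) - n1)) =
              Real.exp ((lm + ε) * n) * Real.exp (-(ε / 2) * n1) := by
            rw [← Real.exp_add, ← Real.exp_add]; congr 1; ring
          calc C * Real.exp ((lm + ε / 2) * n1) *
                (2 * C * Real.exp ((lm + ε) * ((n : ℝ) - n1)) * (1 / (2 * (C * G)))) =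
                C * (2 * C) * (1 / (2 * (C * G))) * (Real.exp ((lm + ε / 2) * n1) *
                  Real.exp ((lm + ε) * ((n : ℝ) - n1))) := by ring
            _ = C * G⁻¹ * (Real.exp ((lm + ε) * n) * Real.exp (-(ε / 2) * n1)) := by
                rw [e9]; field_simp
            _ = _ := by ring
        refine (sum_le_sum q4).trans ?_
        rw [← mul_sum]
        have q5 := geom_le (half_pos hε) (n + 1)
        rw [← hG] at q5
        calc C * Real.exp ((lm + ε) * n) * G⁻¹ * ∑ i ∈ range (n + 1), Real.exp (-(ε / 2) * i)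
            ≤ C * Real.exp ((lm + ε) * n) * G⁻¹ * G := mul_le_mul_of_nonneg_left q5 (by positivity)
          _ = _ := by field_simp
      · intro w hw
        rw [mem_filter, mem_BR] at hw
        obtain ⟨⟨a1, a2, a3⟩, a4⟩ := hw
        obtain ⟨w1, a, w3, e, b1, b2, b3, b4, b5, b6⟩ := bad_dec a2 hK1 a4
        rw [e, Read_append, Read_append] at a3
        obtain ⟨r1, r2, r3⟩ := a3
        have hlen : w1.length + (a.length + w3.length) = n := by
          rw [← a1, e, List.length_append, List.length_append]
        refine ⟨⟨w1.length, w1⟩, ?_, ⟨a.length, a⟩, ?_, w3, ?_, e.symm, ?_⟩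
        · rw [hI, mem_sigma, mem_range, mem_BR]
          exact ⟨by change w1.length < n + 1; omega, rfl, b1, r1⟩
        · simp only [hJ, mem_sigma, mem_filter, mem_range, mem_BR]
          exact ⟨⟨by omega, b5⟩, ⟨trivial, b2, r2⟩, b4⟩
        · simp only [hL, mem_BR]
          exact ⟨by omega, b3, r3⟩
        · simp only [hGG, hF]
          rw [← Real.exp_add, ← Real.exp_add, ← Real.exp_add]
          apply Real.exp_le_exp.2
          have h5 : ht w = ht w1 + (ht a + ht w3) := by rw [e, ht_append, ht_append]
          have h6 : (bad K w : ℝ) ≤ a.length + bad K w3 := by exact_mod_cast b6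
          rw [h5]
          nlinarith
    calc _ ≤ C * Real.exp ((lm + ε) * n) + C * Real.exp ((lm + ε) * n) := add_le_add p1 p2
      _ = _ := by ring

end Pool.Agent.Collatz3.SB
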