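import Pool.Agent.Collatz3.SBPath
import Pool.Agent.Collatz3.SBStar
import Pool.Agent.Collatz3.LTProc

set_option autoImplicit false

/-!
The stationary process made from extremal barrier words.
-/

open Finset
open scoped Classical

namespace Pool.Agent.Collatz3.SB

open Pool.Agent.Collatz3.LT

variable [Par]

open Pool.Agent.Collatz3.UB (FAP ofFinset ulim tendsto_ulim tendsto_ulim_H tendsto_hyperfilter FR
  ofFinset_cH)
open Pool.Agent.Collatz3.UB.PathZ (Inv X W U T BB)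
open Pool.Agent.Collatz3.UB (PathZ)

/-! ### cuts -/

theorem Cu_of_Bar {ω : PathZ} {n r : ℕ} (h0 : ∀ t, n ≤ t → ω.e t = 0) (hB : Bar ((lw n ω).drop r)) :
    T^[r] ω ∈ Cu := by
  intro s hs
  rcases Nat.lt_or_ge r n with hr | hr
  · rw [lw_drop hr.le] at hB
    have hz : ∀ t, n - r ≤ t → (T^[r] ω).e t = 0 := by
      intro t ht
      rw [PathZ.e_iter]
      exact h0 _ (by omega)
    rcases Nat.lt_or_ge (n - r) s with h1 | h1
    · obtain ⟨s', rfl⟩ := Nat.exists_eq_add_of_le h1.le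
      rw [j_of_zero hz]
      have h2 := hB (n - r) (by omega) (by rw [lw_length])
      rw [List.take_of_length_le (by rw [lw_length]), ht_lw] at h2
      have h3 : hh (n - r + s') ((T^[r] ω).j (n - r)) =
          hh (n - r) ((T^[r] ω).j (n - r)) + hh s' 0 := by
        rw [← hh_add, add_zero]
      have h4 : 0 ≤ hh s' 0 := by
        unfold hh
        have := mul_nonneg (Nat.cast_nonneg (α := ℝ) s') Lv_pos.le
        push_cast
        linarith
      linarith
    · have h2 := hB s hs (by rw [lw_length]; exact h1)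
      rwa [lw_take h1, ht_lw] at h2
  · have hz : ∀ t, 0 ≤ t → (T^[r] ω).e t = 0 := by
      intro t _
      rw [PathZ.e_iter]
      exact h0 _ (by omega)
    have h1 := j_of_zero hz s
    rw [zero_add, PathZ.j_zero] at h1
    rw [h1]
    unfold hh
    have : (0 : ℝ) < s := by exact_mod_cast hs
    have := mul_pos this Lv_pos
    push_cast
    linarith

theorem bad_of_NoCut {ω : PathZ} {n t K : ℕ} (h0 : ∀ t, n ≤ t → ω.e t = 0) (hN : T^[t] ω ∈ NoCut K) :
    ∀ s < K, ¬ Bar ((lw n ω).drop (t + s)) := by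
  intro s hs hB
  apply hN s hs
  rw [← Function.iterate_add_apply, add_comm s t]
  exact Cu_of_Bar h0 hB

/-! ### many words with a last node prime to 3 -/

theorem exists_unit (n l : ℕ) (x : ℤ) : ∃ y : ℤ,
    NN n l x ≤ 2 * ((BR n y).filter fun w => jj w = l ∧ ¬ (3 : ℤ) ∣ nd y w).card := by
  set G0 := (BR n x).filter fun w => jj w = l ∧ ¬ (3 : ℤ) ∣ nd x w with hG0
  set y := x + 3 ^ l * 1 with hy
  set G1 := (BR n y).filter fun w => jj w = l ∧ ¬ (3 : ℤ) ∣ nd y w with hG1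
  have h : NN n l x ≤ G0.card + G1.card := by
    unfold NN
    refine le_trans (card_le_card ?_) (card_union_le G0 G1)
    intro w hw
    rw [mem_filter, mem_BR] at hw
    obtain ⟨⟨h1, h2, h3⟩, h4⟩ := hw
    rw [mem_union, hG0, hG1, mem_filter, mem_filter, mem_BR, mem_BR]
    by_cases h5 : (3 : ℤ) ∣ nd x w
    · right
      have h6 : Read y w := (Read_add h4.le).2 h3
      refine ⟨⟨h1, h2, h6⟩, h4, ?_⟩
      rw [hy, ← h4, nd_add h3, mul_one]
      intro h7
      have h8 : (3 : ℤ) ∣ 2 ^ w.length := by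
        have := dvd_sub h7 h5
        rwa [add_sub_cancel_left] at this
      have h9 : (3 : ℤ) ∣ 2 := (Int.prime_three.dvd_of_dvd_pow h8)
      omega
    · exact Or.inl ⟨⟨h1, h2, h3⟩, h4, h5⟩
  rcases le_total G0.card G1.card with h' | h'
  · exact ⟨y, by rw [← hG1]; omega⟩
  · exact ⟨x, by rw [← hG0]; omega⟩

/-- the paths attached to the words -/
theorem exists_paths (n l : ℕ) (y : ℤ) : ∃ S : Finset PathZ,
    S.card = ((BR n y).filter fun w => jj w = l ∧ ¬ (3 : ℤ) ∣ nd y w).card ∧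
    (∀ ω ∈ S, ω.b 0 = y ∧ lw n ω ∈ BR n y ∧ ω.j n = l ∧ ∀ t, n ≤ t → ω.e t = 0) ∧
    (∀ ω ∈ S, ∀ ω' ∈ S, lw n ω = lw n ω' → ω = ω') := by
  set G := (BR n y).filter fun w => jj w = l ∧ ¬ (3 : ℤ) ∣ nd y w with hG
  have h : ∀ w : List Bool, w ∈ G → ∃ ω : PathZ, ω.b 0 = y ∧ lw n ω = w ∧ ∀ t, n ≤ t → ω.e t = 0 := by
    intro w hw
    rw [hG, mem_filter, mem_BR] at hw
    obtain ⟨ω, h1, h2, h3⟩ := exists_path w y hw.1.2.2 hw.2.2
    rw [hw.1.1] at h2 h3
    exact ⟨ω, h1, h2, h3⟩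
  choose! g hg using h
  refine ⟨G.image g, ?_, ?_, ?_⟩
  · rw [card_image_of_injOn]
    intro w hw w' hw' e
    rw [← (hg w hw).2.1, ← (hg w' hw').2.1, e]
  · intro ω hω
    obtain ⟨w, hw, rfl⟩ := mem_image.1 hω
    obtain ⟨h1, h2, h3⟩ := hg w hw
    have hw' := hw
    rw [hG, mem_filter] at hw'
    refine ⟨h1, by rw [h2]; exact hw'.1, ?_, h3⟩
    rw [← jj_lw, h2]
    exact hw'.2.1
  · intro ω hω ω' hω' e
    obtain ⟨w, hw, rfl⟩ := mem_image.1 hω
    obtain ⟨w', hw', rfl⟩ := mem_image.1 hω'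
    rw [(hg w hw).2.1, (hg w' hw').2.1] at e
    rw [e]

/-- existence of `exists_large` -/
def Large (θ : ℝ) : Prop := ∀ ε : ℝ, 0 < ε → ∀ n₀ : ℕ, ∃ n : ℕ, n₀ ≤ n ∧ ∃ x : ℤ,
    Real.exp ((lam θ - ε) * n) < AA θ n x

theorem exists_S {θ : ℝ} (hL : Large θ) (i : ℕ) : ∃ (n l : ℕ) (y : ℤ) (S : Finset PathZ),
    i + 1 ≤ n ∧ 0 < S.card ∧
    (∀ ω ∈ S, ω.b 0 = y ∧ lw n ω ∈ BR n y ∧ ω.j n = l ∧ ∀ t, n ≤ t → ω.e t = 0) ∧
    (∀ ω ∈ S, ∀ ω' ∈ S, lw n ω = lw n ω' → ω = ω') ∧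
    (lam θ - 1 / ((i : ℝ) + 1)) * n + θ * hh n l - Real.log (2 * (n + 1)) ≤ Real.log S.card := by
  obtain ⟨n, hn, x, hx⟩ := hL (1 / ((i : ℝ) + 1)) (by positivity) (i + 1)
  rw [AA_eq] at hx
  obtain ⟨l, hl⟩ : ∃ l, Real.exp ((lam θ - 1 / ((i : ℝ) + 1)) * n) ≤
      (n + 1) * (Real.exp (-θ * hh n l) * NN n l x) := by
    by_contra hcon
    push Not at hcon
    have h1 : ∑ l ∈ range (n + 1), (((n : ℝ) + 1) * (Real.exp (-θ * hh n l) * NN n l x)) <
        ∑ _l ∈ range (n + 1), Real.exp ((lam θ - 1 / ((i : ℝ) + 1)) * n) :=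
      sum_lt_sum_of_nonempty (by simp) fun l _ => hcon l
    rw [← mul_sum, sum_const, card_range, nsmul_eq_mul] at h1
    push_cast at h1
    have h2 : (0 : ℝ) < (n : ℝ) + 1 := by positivity
    nlinarith [mul_lt_mul_of_pos_left hx h2]
  obtain ⟨y, hy⟩ := exists_unit n l x
  obtain ⟨S, h1, h2, h3⟩ := exists_paths n l y
  rw [← h1] at hy
  have hy' : (NN n l x : ℝ) ≤ 2 * S.card := by exact_mod_cast hy
  have h4 : Real.exp ((lam θ - 1 / ((i : ℝ) + 1)) * n) ≤
      Real.exp (-θ * hh n l) * (2 * (n + 1)) * S.card := by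
    refine hl.trans ?_
    have : (0 : ℝ) < ((n : ℝ) + 1) * Real.exp (-θ * hh n l) := by positivity
    nlinarith [mul_le_mul_of_nonneg_left hy' this.le]
  have h5 : (0 : ℝ) < S.card := by
    by_contra h
    have h6 : (S.card : ℝ) = 0 := le_antisymm (not_lt.1 h) (Nat.cast_nonneg _)
    rw [h6, mul_zero] at h4
    exact absurd (Real.exp_pos _) (not_lt.2 h4)
  refine ⟨n, l, y, S, hn, by exact_mod_cast h5, h2, h3, ?_⟩
  have h6 := Real.log_le_log (Real.exp_pos _) h4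
  rw [Real.log_exp, Real.log_mul (by positivity) h5.ne', Real.log_mul (by positivity) (by positivity),
    Real.log_exp] at h6
  linarith

/-! ### entropy -/

/-- the bound for `bad` -/
def Star (θ : ℝ) : Prop := ∀ ε : ℝ, 0 < ε → ∃ (K : ℕ) (D : ℝ), 1 ≤ K ∧ 0 < D ∧
    ∀ (n : ℕ) (x : ℤ), ∑ w ∈ BR n x, Real.exp (-θ * ht w + tt θ * bad K w) ≤
      D * Real.exp ((lam θ + ε) * n)

theorem bad_avg {θ : ℝ} {K : ℕ} {D ε' : ℝ} (hD : 0 < D)
    (hK : ∀ (n : ℕ) (x : ℤ), ∑ w ∈ BR n x, Real.exp (-θ * ht w + tt θ * bad K w) ≤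
      D * Real.exp ((lam θ + ε') * n)) {n l : ℕ} {y : ℤ} {S : Finset PathZ} (hS : 0 < S.card)
    (h2 : ∀ ω ∈ S, ω.b 0 = y ∧ lw n ω ∈ BR n y ∧ ω.j n = l ∧ ∀ t, n ≤ t → ω.e t = 0)
    (h3 : ∀ ω ∈ S, ∀ ω' ∈ S, lw n ω = lw n ω' → ω = ω') :
    (∑ ω ∈ S, tt θ * bad K (lw n ω)) / S.card ≤
      θ * hh n l + Real.log D + (lam θ + ε') * n - Real.log S.card := by
  have h4 : ∑ ω ∈ S, Real.exp (tt θ * bad K (lw n ω)) ≤
      Real.exp (θ * hh n l) * (D * Real.exp ((lam θ + ε') * n)) := by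
    refine le_trans ?_ (mul_le_mul_of_nonneg_left (hK n y) (Real.exp_pos _).le)
    rw [mul_sum]
    calc ∑ ω ∈ S, Real.exp (tt θ * bad K (lw n ω))
        = ∑ ω ∈ S, Real.exp (θ * hh n l) *
            Real.exp (-θ * ht (lw n ω) + tt θ * bad K (lw n ω)) := by
          refine sum_congr rfl fun ω hω => ?_
          rw [← Real.exp_add, ht_lw, (h2 ω hω).2.2.1]
          congr 1; ring
      _ = ∑ w ∈ S.image (lw n), Real.exp (θ * hh n l) *
            Real.exp (-θ * ht w + tt θ * bad K w) :=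
          (sum_image (f := fun w => Real.exp (θ * hh n l) *
            Real.exp (-θ * ht w + tt θ * bad K w)) h3).symm
      _ ≤ _ := by
          refine sum_le_sum_of_subset_of_nonneg ?_ fun _ _ _ => by positivity
          intro w hw
          obtain ⟨ω, hω, rfl⟩ := mem_image.1 hw
          exact (h2 ω hω).2.1
  have h5 := avg_le_log hS (fun ω => tt θ * bad K (lw n ω)) h4
  rw [Real.log_mul (Real.exp_pos _).ne' (by positivity), Real.log_exp,
    Real.log_mul hD.ne' (Real.exp_pos _).ne', Real.log_exp] at h5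
  linarith

/-- existence of the process, from the growth and the bound for `bad` -/
theorem exists_process_of {θ : ℝ} (h : Par.κ < lam θ) (hLa : Large θ) (hSt : Star θ) :
    ∃ P : FAP UB.PathZ, Inv P ∧ ME θ P ∧ CUT P := by
  choose n' l y S hn' hS0 hS1 hS2 hS3 using exists_S hLa
  obtain ⟨n, hn⟩ : ∃ n : ℕ → ℕ, ∀ i, n' i = n i + 1 :=
    ⟨fun i => n' i - 1, fun i => (Nat.sub_add_cancel (by have := hn' i; omega)).symm⟩
  simp only [hn] at hn' hS1 hS2 hS3
  have hni : ∀ i, i ≤ n i := fun i => by have := hn' i; omega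
  have hM : ∀ i, (0 : ℝ) < (S i).card := fun i => by exact_mod_cast hS0 i
  have hq1 : ∀ i : ℕ, ∑ _i ∈ range (n i + 1) ×ˢ S i, (((n i : ℝ) + 1) * (S i).card)⁻¹ = 1 := by
    intro i
    have := hM i
    rw [sum_const, card_product, card_range, nsmul_eq_mul]
    push_cast
    field_simp
  set PP : ℕ → FAP PathZ := fun i => ofFinset (range (n i + 1) ×ˢ S i)
    (fun _ => (((n i : ℝ) + 1) * (S i).card)⁻¹) (fun _ _ => by positivity) (hq1 i)
    (fun j => T^[j.1] j.2) with hPP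
  have hntop : Filter.Tendsto (fun i => n i + 1) Filter.atTop Filter.atTop :=
    Filter.tendsto_atTop_mono (fun i => (hni i).trans (Nat.le_succ _)) Filter.tendsto_id
  have hninv : Filter.Tendsto (fun i => 1 / (((n i + 1 : ℕ)) : ℝ)) Filter.atTop (nhds 0) :=
    (tendsto_const_div_atTop_nhds_zero_nat (1 : ℝ)).comp hntop
  have hnlog : Filter.Tendsto (fun i => Real.log (2 * ((((n i + 1 : ℕ)) : ℝ) + 1)) / (((n i + 1 : ℕ)) : ℝ))
      Filter.atTop (nhds 0) := tendsto_log_div.comp hntop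
  have hi0 : Filter.Tendsto (fun i : ℕ => 1 / ((i : ℝ) + 1)) Filter.atTop (nhds 0) :=
    tendsto_one_div_add_atTop_nhds_zero_nat
  -- the mass of a set
  have hmass : ∀ i (A : Set PathZ), (PP i).m A = ∑ t ∈ range (n i + 1), ∑ ω ∈ S i,
      if T^[t] ω ∈ A then (((n i : ℝ) + 1) * (S i).card)⁻¹ else 0 := by
    intro i A
    change ∑ j ∈ (range (n i + 1) ×ˢ S i) with T^[j.1] j.2 ∈ A, (((n i : ℝ) + 1) * (S i).card)⁻¹ = _
    rw [sum_filter, sum_product]
  refine ⟨ulim PP, fun A => ?_, fun k N => ?_, fun ε hε => ?_⟩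
  · -- invariance
    have hdiff : ∀ i, |(PP i).m (T ⁻¹' A) - (PP i).m A| ≤ 1 / (((n i + 1 : ℕ)) : ℝ) := by
      intro i
      set q : ℝ := (((n i : ℝ) + 1) * (S i).card)⁻¹ with hq
      have hMi := hM i
      have hn0 : (0 : ℝ) < (n i : ℝ) + 1 := by positivity
      have hq0 : 0 < q := by positivity
      set g : ℕ → ℝ := fun t => ∑ ω ∈ S i, if T^[t] ω ∈ A then q else 0 with hg
      have e1 : (PP i).m A = ∑ t ∈ range (n i + 1), g t := hmass i A
      have e2 : (PP i).m (T ⁻¹' A) = ∑ t ∈ range (n i + 1), g (t + 1) := by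
        rw [hmass i]
        refine sum_congr rfl fun t _ => sum_congr rfl fun ω _ => ?_
        rw [Set.mem_preimage, Function.iterate_succ_apply']
      have e3 : (PP i).m (T ⁻¹' A) - (PP i).m A = g (n i + 1) - g 0 := by
        rw [e1, e2]
        have a1 := sum_range_succ g (n i + 1)
        have a2 := sum_range_succ' g (n i + 1)
        linarith
      have g0 : ∀ t, 0 ≤ g t := fun t => sum_nonneg fun ω _ => by split_ifs <;> positivity
      have g1 : ∀ t, g t ≤ 1 / (((n i + 1 : ℕ)) : ℝ) := by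
        intro t
        calc g t ≤ ∑ _ω ∈ S i, q := sum_le_sum fun ω _ => by
              split_ifs
              · exact le_rfl
              · exact hq0.le
          _ = 1 / (((n i + 1 : ℕ)) : ℝ) := by
              rw [sum_const, nsmul_eq_mul, hq]; push_cast; field_simp
      rw [e3, abs_le]
      constructor
      · linarith [g0 (n i + 1), g1 0]
      · linarith [g0 0, g1 (n i + 1)]
    have hlim : Filter.Tendsto (fun i => (PP i).m (T ⁻¹' A) - (PP i).m A)
        (Filter.hyperfilter ℕ : Filter ℕ) (nhds 0) := by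
      apply tendsto_hyperfilter
      rw [tendsto_zero_iff_abs_tendsto_zero]
      exact squeeze_zero (fun i => abs_nonneg _) hdiff hninv
    have := tendsto_nhds_unique hlim ((tendsto_ulim PP (T ⁻¹' A)).sub (tendsto_ulim PP A))
    linarith
  · -- entropy
    have hr1 : FR fun ω : PathZ => (W k ω, ω.b 0 % 3 ^ N) := (PathZ.FR_W k).pair (FR.emod _ N)
    have hr2 : FR fun ω : PathZ => ω.b 0 % 3 ^ N := FR.emod _ N
    have hlim := (tendsto_ulim_H PP _ hr1).sub (tendsto_ulim_H PP _ hr2)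
    have hq : ∀ i, (PP i).m {ω | ω.e 0 = 1} = (l i : ℝ) / ((n i + 1 : ℕ) : ℝ) := by
      intro i
      have hMi := hM i
      obtain ⟨A, hA⟩ : ∃ A : Set PathZ, A = {ω | ω.e 0 = 1} := ⟨_, rfl⟩
      have hmem : ∀ t (ω : PathZ), T^[t] ω ∈ A ↔ ω.e t = 1 := by
        intro t ω
        rw [hA, Set.mem_ofPred_eq, PathZ.e_iter, add_zero]
      rw [← hA, hmass i, sum_comm]
      have e : ∀ ω ∈ S i, ∑ t ∈ range (n i + 1),
          (if T^[t] ω ∈ A then (((n i : ℝ) + 1) * (S i).card)⁻¹ else 0) =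
          (l i : ℝ) * (((n i : ℝ) + 1) * (S i).card)⁻¹ := by
        intro ω hω
        rw [← (hS1 i ω hω).2.2.1, ← sum_e]
        refine sum_congr rfl fun t _ => ?_
        by_cases h : ω.e t = 1
        · rw [if_pos h, if_pos ((hmem t ω).2 h)]
        · rw [if_neg h, if_neg (fun h' => h ((hmem t ω).1 h'))]
      rw [sum_congr rfl e, sum_const, nsmul_eq_mul]
      push_cast
      field_simp
    have hq1lim : Filter.Tendsto (fun i => (l i : ℝ) / ((n i + 1 : ℕ) : ℝ))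
        (Filter.hyperfilter ℕ : Filter ℕ) (nhds (q1 (ulim PP))) := by
      have := tendsto_ulim PP {ω | ω.e 0 = 1}
      simp only [hq] at this
      exact this
    have hlow : Filter.Tendsto (fun i : ℕ => k * ((lam θ - 1 / ((i : ℝ) + 1)) +
        θ * (Lv - (l i : ℝ) / ((n i + 1 : ℕ) : ℝ) * Real.log 3) -
        Real.log (2 * ((((n i + 1 : ℕ)) : ℝ) + 1)) / (((n i + 1 : ℕ)) : ℝ)) -
        BB k * (1 / (((n i + 1 : ℕ)) : ℝ)))
        (Filter.hyperfilter ℕ : Filter ℕ) (nhds (k * ((lam θ - 0) +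
        θ * (Lv - q1 (ulim PP) * Real.log 3) - 0) - BB k * 0)) := by
      refine Filter.Tendsto.sub (Filter.Tendsto.const_mul _ (Filter.Tendsto.sub
        (Filter.Tendsto.add (tendsto_const_nhds.sub (tendsto_hyperfilter hi0))
          (Filter.Tendsto.const_mul _ (tendsto_const_nhds.sub (hq1lim.mul_const _))))
        (tendsto_hyperfilter hnlog))) (Filter.Tendsto.const_mul _ (tendsto_hyperfilter hninv))
    rw [sub_zero, sub_zero, mul_zero, sub_zero] at hlow
    refine le_of_tendsto_of_tendsto' hlow hlim fun i => ?_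
    have h1 := ofFinset_cH (range (n i + 1) ×ˢ S i)
      (fun _ => (((n i : ℝ) + 1) * (S i).card)⁻¹) (fun _ _ => by positivity) (hq1 i)
      (fun j : ℕ × PathZ => T^[j.1] j.2) (W k) (fun ω : PathZ => ω.b 0 % 3 ^ N) (PathZ.FR_W k) hr2
    rw [hPP]
    rw [h1]
    refine le_trans ?_ (cH_low k N (n i) (y i) (S i) (hS0 i) (fun ω hω => (hS1 i ω hω).1)
      (fun ω hω ω' hω' e => hS2 i ω hω ω' hω' (lw_eq_iff.2 e)))
    have hn0 : (0 : ℝ) < (n i : ℝ) + 1 := by positivity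
    have h2 : (lam θ - 1 / ((i : ℝ) + 1)) +
        θ * (Lv - (l i : ℝ) / ((n i + 1 : ℕ) : ℝ) * Real.log 3) -
        Real.log (2 * ((((n i + 1 : ℕ)) : ℝ) + 1)) / (((n i + 1 : ℕ)) : ℝ) ≤
        Real.log (S i).card / (n i + 1) := by
      rw [le_div_iff₀ hn0]
      refine le_trans (le_of_eq ?_) (hS3 i)
      unfold hh
      push_cast
      field_simp
    have h3 := mul_le_mul_of_nonneg_left h2 (Nat.cast_nonneg (α := ℝ) k)
    have h4 : BB k * (1 / (((n i + 1 : ℕ)) : ℝ)) = BB k / (n i + 1) := by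
      push_cast; ring
    linarith
  · -- cuts
    have htt : 0 < tt θ := tt_pos h
    obtain ⟨K, D, _, hD, hK⟩ := hSt (ε * (tt θ)) (by positivity)
    refine ⟨K, ?_⟩
    have hup : Filter.Tendsto (fun i : ℕ => (tt θ)⁻¹ * (Real.log D * (1 / (((n i + 1 : ℕ)) : ℝ)) +
        Real.log (2 * ((((n i + 1 : ℕ)) : ℝ) + 1)) / (((n i + 1 : ℕ)) : ℝ) +
        (ε * (tt θ) + 1 / ((i : ℝ) + 1)))) Filter.atTop
        (nhds ((tt θ)⁻¹ * (Real.log D * 0 + 0 + (ε * (tt θ) + 0)))) := by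
      refine Filter.Tendsto.const_mul _ (Filter.Tendsto.add (Filter.Tendsto.add
        (Filter.Tendsto.const_mul _ hninv) hnlog) (tendsto_const_nhds.add hi0))
    have he : (tt θ)⁻¹ * (Real.log D * 0 + 0 + (ε * (tt θ) + 0)) = ε := by
      field_simp
      ring
    rw [he] at hup
    refine le_of_tendsto_of_tendsto' (tendsto_ulim PP (NoCut K)) (tendsto_hyperfilter hup) fun i => ?_
    have hMi := hM i
    have hn0 : (0 : ℝ) < (n i : ℝ) + 1 := by positivity
    have h5 := bad_avg hD hK (hS0 i) (hS1 i) (hS2 i)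
    have h6 := hS3 i
    have h7 : (PP i).m (NoCut K) ≤ (∑ ω ∈ S i, (bad K (lw (n i + 1) ω) : ℝ)) *
        (((n i : ℝ) + 1) * (S i).card)⁻¹ := by
      rw [hmass i, sum_comm, sum_mul]
      refine sum_le_sum fun ω hω => ?_
      rw [← sum_filter, sum_const, nsmul_eq_mul]
      refine mul_le_mul_of_nonneg_right ?_ (by positivity)
      unfold bad
      rw [lw_length]
      refine Nat.cast_le.2 (card_le_card fun t ht => ?_)
      rw [mem_filter] at ht ⊢
      exact ⟨ht.1, bad_of_NoCut (hS1 i ω hω).2.2.2 ht.2⟩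
    refine h7.trans ?_
    have h8 : (∑ ω ∈ S i, (bad K (lw (n i + 1) ω) : ℝ)) / (S i).card ≤
        (tt θ)⁻¹ * (Real.log D + Real.log (2 * ((((n i + 1 : ℕ)) : ℝ) + 1)) +
          (ε * (tt θ) + 1 / ((i : ℝ) + 1)) * ((n i + 1 : ℕ) : ℝ)) := by
      rw [← mul_sum, mul_div_assoc] at h5
      have h9 : (tt θ) * ((∑ ω ∈ S i, (bad K (lw (n i + 1) ω) : ℝ)) / (S i).card) ≤
          Real.log D + Real.log (2 * ((((n i + 1 : ℕ)) : ℝ) + 1)) +
          (ε * (tt θ) + 1 / ((i : ℝ) + 1)) * ((n i + 1 : ℕ) : ℝ) := by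
        linarith
      have h10 : 0 < tt θ := htt
      rw [inv_mul_eq_div, le_div_iff₀ h10]
      linarith
    calc (∑ ω ∈ S i, (bad K (lw (n i + 1) ω) : ℝ)) * (((n i : ℝ) + 1) * (S i).card)⁻¹
        = ((∑ ω ∈ S i, (bad K (lw (n i + 1) ω) : ℝ)) / (S i).card) / ((n i : ℝ) + 1) := by
          field_simp
      _ ≤ ((tt θ)⁻¹ * (Real.log D + Real.log (2 * ((((n i + 1 : ℕ)) : ℝ) + 1)) +
          (ε * (tt θ) + 1 / ((i : ℝ) + 1)) * ((n i + 1 : ℕ) : ℝ))) / ((n i : ℝ) + 1) :=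
          div_le_div_of_nonneg_right h8 hn0.le
      _ = _ := by
          push_cast
          field_simp

theorem exists_process (hLet : Letters) {θ : ℝ} (h : Par.κ < lam θ) : ∃ P : FAP UB.PathZ, Inv P ∧ ME θ P ∧ CUT P :=
  exists_process_of h (fun _ hε n₀ => exists_large θ hε n₀) fun _ hε => star hLet h hε

end Pool.Agent.Collatz3.SB
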