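import Pool.Agent.Collatz3.SBKey
import Pool.Agent.Collatz3.SBFew
import Pool.Agent.Collatz3.SBProc
import Pool.Agent.Collatz3.LTDigit
import Pool.Agent.Collatz3.LTMain

set_option autoImplicit false

/-!
**Theorem S**: the largest tilted number of barrier words grows as fast as its mean.
-/

open Finset
open scoped Classical

namespace Pool.Agent.Collatz3.SB

open Pool.Agent.Collatz3.LT

variable [Par]

open Pool.Agent.Collatz3.UB (FAP)
open Pool.Agent.Collatz3.UB.PathZ (Inv X W U T D HW FW GW)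

theorem Lam_add_pos (θ : ℝ) : 0 < Lam θ + θ * Lv := by
  unfold Lam
  have h3 : (0 : ℝ) < (3 : ℝ) ^ (θ - 1) := Real.rpow_pos_of_pos (by norm_num) _
  rw [Real.log_mul (Real.exp_pos _).ne' (by positivity), Real.log_exp]
  have : 0 < Real.log (1 + (3 : ℝ) ^ (θ - 1)) := Real.log_pos (by linarith)
  linarith

theorem lam_le (hLet : Letters) {θ : ℝ} (hθ : Par.κ < Lam θ) : lam θ ≤ Lam θ := by
  by_contra hcon
  push Not at hcon
  have h0 : Par.κ < lam θ := hθ.trans hcon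
  have h0' : 0 < lam θ := lt_of_le_of_lt Par.κ_nonneg h0
  have hg : 0 < lam θ + θ * Lv := by
    have := Lam_add_pos θ
    linarith
  obtain ⟨P, hI, hM, hC⟩ := exists_process hLet h0
  set α := P.m Cu with hα
  have hα0 : 0 < α := Cu_pos hI hC
  set g0 := min (lam θ) (lam θ + θ * Lv) with hg0
  have hg0p : 0 < g0 := lt_min h0' hg
  set κ := g0 * α / 2 with hκ
  have hκ0 : 0 < κ := by positivity
  have hcm := cm_nonneg θ
  obtain ⟨ρ, hρ0, hρ⟩ := few hI hM hC hg
  obtain ⟨m₁, hm₁⟩ := hρ (α / 2) (by positivity)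
  obtain ⟨m₀, hm₀⟩ := exists_nat_gt (2 / ρ)
  have hm₀1 : 1 ≤ m₀ := by
    have : (0 : ℝ) < m₀ := lt_trans (by positivity) hm₀
    exact_mod_cast this
  have hm₀' : (1 : ℝ) ≤ m₀ := by exact_mod_cast hm₀1
  rw [div_lt_iff₀ hρ0] at hm₀
  obtain ⟨K1, hK1, hD1⟩ := digit_avg (κ / 8) (by positivity)
  obtain ⟨d, k₀, hwin⟩ := windows hLet hI hM hC h0 hg hcon m₀ hm₀1
    (show 0 < κ / (8 * (K1 + 1)) by positivity)
  obtain ⟨K2, hK2, hD2⟩ := hD1 d
  obtain ⟨K, hK⟩ := hC (κ / (16 * (cm θ + 1))) (by positivity)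
  obtain ⟨CK, hCK0, hCK⟩ := master θ (show 0 < κ / 8 by positivity) K
  have hlog3 := log3_pos
  have hlog2 := log2_pos
  obtain ⟨k1, hk1⟩ := UB.log_small (|θ| * (K * Real.log 3) + Real.log 2 + |CK| + K2 * (2 * Real.log 2) +
    Real.log m₀) (2 + K2) (κ / 8) (by have := Real.log_nonneg hm₀'; positivity) (by positivity)
    (by positivity)
  obtain ⟨k, hk, hGk⟩ := exists_k hI (show 0 < κ / (8 * (K2 + 1)) by positivity) hm₀1
    (m₁ + k₀ + K + k1 + d + 1)
  have hk1' : (1 : ℝ) ≤ k := by exact_mod_cast (by omega : 1 ≤ k)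
  obtain ⟨G, hG, hδ⟩ := hwin k (by omega)
  have hkey := key hI hM (fun s p hp hs k hk _ Y hY => hCK s p hp hs k hk Y hY) hK1 hK2
    (fun s p hp hs k U b c hU good hgood δ hδ => hD2 s p hp hs k U b c hU good hgood δ hδ)
    k (m₀ * k) (by omega) G hG hδ
  -- the probability of the event
  have hPA : α / 2 ≤ P.m {ω | AE k (m₀ * k) d ω} := by
    have h1 := hI.iter k Cu
    have h2 := hI.iter k {ω : UB.PathZ | (ω.j (m₀ * k) : ℝ) ≤ ρ * ((m₀ * k : ℕ) : ℝ)}
    have h3 := hm₁ (m₀ * k) (by have := Nat.le_mul_of_pos_left k hm₀1; omega)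
    have h4 : T^[k] ⁻¹' Cu ⊆ {ω | AE k (m₀ * k) d ω} ∪
        T^[k] ⁻¹' {ω : UB.PathZ | (ω.j (m₀ * k) : ℝ) ≤ ρ * ((m₀ * k : ℕ) : ℝ)} := by
      intro ω hω
      by_cases h : k + d ≤ (T^[k] ω).j (m₀ * k)
      · exact Or.inl ⟨hω, h⟩
      · right
        rw [Set.mem_preimage, Set.mem_ofPred_eq]
        push Not at h
        have h5 : ((T^[k] ω).j (m₀ * k) : ℝ) ≤ 2 * k := by
          have : (T^[k] ω).j (m₀ * k) ≤ 2 * k := by omega
          exact_mod_cast this
        push_cast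
        nlinarith
    have h5 := (P.m_mono h4).trans (m_union_le P _ _)
    rw [h1, h2] at h5
    linarith
  -- estimates
  have e1 : g0 * k * (α / 2) ≤ g0 * k * P.m {ω | AE k (m₀ * k) d ω} :=
    mul_le_mul_of_nonneg_left hPA (by positivity)
  have e2 : g0 * k * (α / 2) = κ * k := by rw [hκ]; ring
  have e3 : 2 * (cm θ * k * P.m (NoCut K)) ≤ κ / 8 * k := by
    have a1 : cm θ * P.m (NoCut K) ≤ (cm θ + 1) * (κ / (16 * (cm θ + 1))) :=
      mul_le_mul (by linarith) hK (P.nonneg _) (by linarith)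
    have a2 : (cm θ + 1) * (κ / (16 * (cm θ + 1))) = κ / 16 := by field_simp
    rw [a2] at a1
    nlinarith
  have e4 : K1 * (κ / (8 * (K1 + 1)) * k) ≤ κ / 8 * k := by
    have a1 : K1 * (κ / (8 * (K1 + 1))) ≤ κ / 8 := by
      rw [mul_div_assoc', div_le_div_iff₀ (by positivity) (by norm_num)]
      nlinarith
    nlinarith
  have e5 : K2 * (GW P k + GW P (m₀ * k) - GW P (k + m₀ * k)) ≤ κ / 8 * k := by
    have a0 := mul_le_mul_of_nonneg_left hGk hK2
    have a1 : K2 * (κ / (8 * (K2 + 1))) ≤ κ / 8 := by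
      rw [mul_div_assoc', div_le_div_iff₀ (by positivity) (by norm_num)]
      nlinarith
    nlinarith
  have e6 : Real.log (((m₀ * k : ℕ) : ℝ) + 1) ≤ Real.log m₀ + Real.log ((k : ℝ) + 1) := by
    rw [← Real.log_mul (by positivity) (by positivity)]
    apply Real.log_le_log (by positivity)
    push_cast; nlinarith
  have e7 := hk1 k (by omega)
  have e8 : 0 < κ * k := by positivity
  nlinarith

/-- **Theorem S for strong barriers.** -/
theorem theoremSB (hLet : Letters) {θ : ℝ} (hθ : Par.κ < Lam θ) {ε : ℝ} (hε : 0 < ε) :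
    ∃ C : ℝ, 0 < C ∧ ∀ (n : ℕ) (x : ℤ), AA θ n x ≤ C * Real.exp ((Lam θ + ε) * n) := by
  obtain ⟨C, hC0, hC⟩ := AA_le θ hε
  refine ⟨C, hC0, fun n x => (hC n x).trans (mul_le_mul_of_nonneg_left ?_ hC0.le)⟩
  apply Real.exp_le_exp.2
  exact mul_le_mul_of_nonneg_right (by linarith [lam_le hLet hθ]) (Nat.cast_nonneg n)

end Pool.Agent.Collatz3.SB
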