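import Pool.Agent.Collatz3.SBPath
import Pool.Agent.Collatz3.SBGrow
import Pool.Agent.Collatz3.LTMaster

set_option autoImplicit false

/-!
The Gibbs inequality for conditional entropies and the master inequality: the entropy of a word given
its starting data is at most its tilted barrier growth.
-/

open Finset
open scoped Classical

namespace Pool.Agent.Collatz3.SB

open Pool.Agent.Collatz3.LT

variable [Par]

open UB.PathZ (T W X)

/-- the first cut among the positions `0, …, K - 1`, or `K` if there is none -/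
noncomputable def tau (K : ℕ) (ω : UB.PathZ) : ℕ :=
  if h : ∃ t, t < K ∧ T^[t] ω ∈ Cu then Nat.find h else K

theorem tau_le (K : ℕ) (ω : UB.PathZ) : tau K ω ≤ K := by
  unfold tau
  split_ifs with h
  · exact (Nat.find_spec h).1.le
  · exact le_rfl

theorem tau_spec {K : ℕ} {ω : UB.PathZ} (h : tau K ω < K) : T^[tau K ω] ω ∈ Cu := by
  unfold tau at h ⊢
  by_cases h' : ∃ t, t < K ∧ T^[t] ω ∈ Cu
  · rw [dif_pos h']
    exact (Nat.find_spec h').2
  · rw [dif_neg h'] at h
    exact absurd h (lt_irrefl _)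

theorem tau_eq_iff {K : ℕ} {ω : UB.PathZ} : tau K ω = K ↔ ω ∈ NoCut K := by
  constructor
  · intro h t ht hc
    have h' : ∃ t, t < K ∧ T^[t] ω ∈ Cu := ⟨t, ht, hc⟩
    unfold tau at h
    rw [dif_pos h'] at h
    have := (Nat.find_spec h').1
    omega
  · intro h
    unfold tau
    rw [dif_neg]
    rintro ⟨t, h1, h2⟩
    exact h t h1 h2

/-- number of barrier words with given number of ones, uniform bound -/
theorem NN_bound {θ ε C : ℝ} (hA : ∀ (n : ℕ) (x : ℤ), AA θ n x ≤ C * Real.exp ((lam θ + ε) * n))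
    (n l : ℕ) (x : ℤ) : (NN n l x : ℝ) ≤ C * Real.exp (θ * hh n l + (lam θ + ε) * n) := by
  refine (NN_le_AA θ n l x).trans ?_
  refine (mul_le_mul_of_nonneg_left (hA n x) (Real.exp_pos _).le).trans (le_of_eq ?_)
  rw [Real.exp_add]; ring

theorem hh_sub {k t l j : ℕ} (ht : t ≤ k) (hj : j ≤ l) : hh (k - t) (l - j) = hh k l - hh t j := by
  unfold hh
  rw [Nat.cast_sub ht, Nat.cast_sub hj]
  ring

/-- number of the words of length `k` with `l` ones whose part after time `t` is a barrier word -/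
theorem card_cut {θ ε C : ℝ} (hC : 0 ≤ C)
    (hA : ∀ (n : ℕ) (x : ℤ), AA θ n x ≤ C * Real.exp ((lam θ + ε) * n)) {K t k l : ℕ} (htK : t ≤ K)
    (htk : t ≤ k) (x : ℤ) (I : Finset (List Bool))
    (hI : ∀ w ∈ I, ∃ w1 w2, w = w1 ++ w2 ∧ w1.length = t ∧ w2.length = k - t ∧ jj w1 + jj w2 = l ∧
      Bar w2 ∧ Read x (w1 ++ w2)) :
    (I.card : ℝ) ≤ 2 ^ K * (C * Real.exp (|lam θ + ε| * K + |θ| * (K * Real.log 3)) *
      Real.exp ((lam θ + ε) * k + θ * hh k l)) := by
  have hsub : I ⊆ ((WL t).filter fun w1 => jj w1 ≤ l).biUnion fun w1 =>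
      ((BR (k - t) (nd x w1)).filter fun w2 => jj w2 = l - jj w1).image (w1 ++ ·) := by
    intro w hw
    obtain ⟨w1, w2, rfl, h1, h2, h3, h4, h5⟩ := hI w hw
    rw [mem_biUnion]
    refine ⟨w1, mem_filter.2 ⟨mem_WL.2 h1, by omega⟩, ?_⟩
    rw [mem_image]
    refine ⟨w2, mem_filter.2 ⟨mem_BR.2 ⟨h2, h4, (Read_append.1 h5).2⟩, by omega⟩, rfl⟩
  have h1 : (I.card : ℝ) ≤ ∑ w1 ∈ (WL t).filter (fun w1 => jj w1 ≤ l),
      (NN (k - t) (l - jj w1) (nd x w1) : ℝ) := by
    have h2 : I.card ≤ ∑ w1 ∈ (WL t).filter (fun w1 => jj w1 ≤ l), NN (k - t) (l - jj w1) (nd x w1) := by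
      refine (card_le_card hsub).trans (card_biUnion_le.trans (sum_le_sum fun w1 _ => ?_))
      exact card_image_le
    exact_mod_cast h2
  refine h1.trans ?_
  have hK3 : (t : ℝ) * Real.log 3 ≤ K * Real.log 3 :=
    mul_le_mul_of_nonneg_right (by exact_mod_cast htK) log3_pos.le
  have h2 : ∀ w1 ∈ (WL t).filter (fun w1 => jj w1 ≤ l), (NN (k - t) (l - jj w1) (nd x w1) : ℝ) ≤
      C * Real.exp (|lam θ + ε| * K + |θ| * (K * Real.log 3)) *
      Real.exp ((lam θ + ε) * k + θ * hh k l) := by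
    intro w1 hw1
    rw [mem_filter, mem_WL] at hw1
    refine (NN_bound hA _ _ _).trans ?_
    rw [mul_assoc, ← Real.exp_add]
    refine mul_le_mul_of_nonneg_left (Real.exp_le_exp.2 ?_) hC
    rw [hh_sub htk hw1.2, Nat.cast_sub htk]
    have h3 : |hh t (jj w1)| ≤ K * Real.log 3 := by
      refine (abs_hh_le ?_).trans hK3
      rw [← hw1.1]
      exact jj_le w1
    have h4 : -(θ * hh t (jj w1)) ≤ |θ| * (K * Real.log 3) := by
      refine (neg_le_abs _).trans ?_
      rw [abs_mul]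
      exact mul_le_mul_of_nonneg_left h3 (abs_nonneg θ)
    have h5 : -((lam θ + ε) * t) ≤ |lam θ + ε| * K := by
      refine (neg_le_abs _).trans ?_
      rw [abs_mul, Nat.abs_cast]
      exact mul_le_mul_of_nonneg_left (by exact_mod_cast htK) (abs_nonneg _)
    linarith
  refine (sum_le_sum h2).trans ?_
  rw [sum_const, nsmul_eq_mul]
  refine mul_le_mul_of_nonneg_right ?_ (by positivity)
  have h3 : (((WL t).filter fun w1 => jj w1 ≤ l).card : ℝ) ≤ ((2 ^ t : ℕ) : ℝ) := by
    exact_mod_cast (card_filter_le _ _).trans (card_WL t)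
  refine h3.trans ?_
  push_cast
  exact pow_le_pow_right₀ (by norm_num) htK

theorem master (θ : ℝ) {ε : ℝ} (hε : 0 < ε) (K : ℕ) : ∃ C : ℝ, 0 ≤ C ∧
    ∀ (s : Finset UB.PathZ) (p : UB.PathZ → ℝ) (_ : ∀ ω ∈ s, 0 ≤ p ω) (_ : ∑ ω ∈ s, p ω ≤ 1)
      (k : ℕ) (_ : K ≤ k) {β : Type} (Y : UB.PathZ → β)
      (_ : ∀ ω ∈ s, ∀ ω' ∈ s, Y ω = Y ω' → X k ω = X k ω'),
      cH s p (W k) Y ≤ ∑ ω ∈ s, p ω * (lam θ * k + θ * hh k (ω.j k)) + ε * k + C +
        (Real.log 2 + |lam θ| + |θ| * Real.log 3) * k * ∑ ω ∈ s with ω ∈ NoCut K, p ω := by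
  obtain ⟨C, hC, hA⟩ := AA_le θ hε
  set B : ℝ := |lam θ + ε| * K + |θ| * (K * Real.log 3) with hB
  have hB0 : 0 ≤ B := add_nonneg (mul_nonneg (abs_nonneg _) (Nat.cast_nonneg K))
    (mul_nonneg (abs_nonneg _) (mul_nonneg (Nat.cast_nonneg K) log3_pos.le))
  set C1 : ℝ := K * Real.log 2 + |Real.log C| + B with hC1
  have hC10 : 0 ≤ C1 := add_nonneg (add_nonneg (mul_nonneg (Nat.cast_nonneg K) log2_pos.le)
    (abs_nonneg _)) hB0
  refine ⟨Real.log (K + 1) + C1, add_nonneg (Real.log_nonneg (by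
    have : (0 : ℝ) ≤ K := Nat.cast_nonneg K
    linarith)) hC10, ?_⟩
  intro s p hp hp1 k hk β Y hY
  -- reduce to the position of the first cut
  have b1 := cH_triangle hp (tau K) (W k) Y
  have b2 := cH_le_log' hp (tau K) Y (Finset.range (K + 1)) (K + 1) (by omega)
    (fun ω _ => mem_range.2 (Nat.lt_succ_of_le (tau_le K ω))) (by simp)
  have b3 : cH s p (W k) (fun ω => (tau K ω, Y ω)) =
      cH s p (lw k) (fun ω => ((tau K ω, ω.j k), Y ω)) := by
    refine cH_congr _ _ _ _ (fun ω h1 _ ω' h2 _ => ?_) fun ω h1 _ ω' h2 _ => ?_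
    · simp only [Prod.mk.injEq]
      constructor
      · rintro ⟨a, b⟩
        exact ⟨⟨a, (UB.PathZ.X_iff.1 (hY ω h1 ω' h2 b)).1⟩, b⟩
      · rintro ⟨⟨a, _⟩, b⟩
        exact ⟨a, b⟩
    · simp only [Prod.mk.injEq]
      rw [lw_eq_iff]
      constructor
      · rintro ⟨c, a, b⟩
        exact ⟨c, ⟨a, (UB.PathZ.X_iff.1 (hY ω h1 ω' h2 b)).1⟩, b⟩
      · rintro ⟨c, ⟨a, _⟩, b⟩
        exact ⟨c, a, b⟩
  set Z : (ℕ × ℕ) × β → ℝ := fun t => if t.1.1 < K then
    2 ^ K * (C * Real.exp B * Real.exp ((lam θ + ε) * k + θ * hh k t.1.2)) else 2 ^ k with hZ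
  have b4 := cH_gibbs' hp (lw k) (fun ω => ((tau K ω, ω.j k), Y ω)) (fun _ _ => (1 : ℝ)) Z
    (fun _ _ => one_pos) (by
      intro ω₀ hω₀ I hI
      rw [sum_const, nsmul_eq_mul, mul_one]
      by_cases htau : tau K ω₀ < K
      · simp only [hZ]
        rw [if_pos htau]
        refine card_cut hC.le hA (le_of_lt htau) (htau.le.trans hk) (ω₀.b 0) _ ?_
        intro w hw
        obtain ⟨ω, hωs, hω, rfl⟩ := hI w hw
        simp only [Prod.mk.injEq] at hω
        obtain ⟨⟨h1, h2⟩, h3⟩ := hω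
        have htk : tau K ω₀ ≤ k := htau.le.trans hk
        have e1 : lw k ω = lw (tau K ω₀) ω ++ lw (k - tau K ω₀) (T^[tau K ω₀] ω) := by
          rw [← lw_add]
          congr 1
          omega
        refine ⟨lw (tau K ω₀) ω, lw (k - tau K ω₀) (T^[tau K ω₀] ω), e1, lw_length _ _, lw_length _ _,
          ?_, ?_, ?_⟩
        · rw [← jj_append, ← e1, jj_lw, h2]
        · refine Cu_Bar ?_ _
          rw [← h1]
          exact tau_spec (by rw [h1]; exact htau)
        · rw [← e1]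
          have hX := UB.PathZ.X_iff.1 (hY ω hωs ω₀ hω₀ h3)
          exact (Read_congr (l := ω.j k) (by rw [jj_lw]) hX.2).1 (Read_lw k ω)
      · simp only [hZ]
        rw [if_neg htau]
        have h1 : (I.card : ℝ) ≤ ((2 ^ k : ℕ) : ℝ) := by
          have : I.card ≤ 2 ^ k := by
            refine le_trans (card_le_card ?_) (card_WL k)
            intro w hw
            obtain ⟨ω, _, _, rfl⟩ := hI w hw
            exact lw_mem_WL k ω
          exact_mod_cast this
        refine h1.trans (le_of_eq ?_)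
        push_cast; rfl)
  have hk0 : (0 : ℝ) ≤ k := Nat.cast_nonneg k
  have b5 : ∀ ω ∈ s, p ω * (Real.log (Z ((tau K ω, ω.j k), Y ω)) - Real.log 1) ≤
      p ω * (lam θ * k + θ * hh k (ω.j k)) + p ω * (ε * k + C1) +
      (Real.log 2 + |lam θ| + |θ| * Real.log 3) * k * (if ω ∈ NoCut K then p ω else 0) := by
    intro ω hω
    have hpω := hp ω hω
    rw [Real.log_one, sub_zero]
    by_cases htau : tau K ω < K
    · have hn : ω ∉ NoCut K := fun h => by
        rw [← tau_eq_iff] at h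
        omega
      rw [if_neg hn, mul_zero, add_zero, ← mul_add]
      refine mul_le_mul_of_nonneg_left ?_ hpω
      simp only [hZ]
      rw [if_pos htau, Real.log_mul (by positivity) (by positivity),
        Real.log_mul (by positivity) (by positivity), Real.log_mul hC.ne' (by positivity),
        Real.log_exp, Real.log_exp, Real.log_pow]
      have := le_abs_self (Real.log C)
      rw [hC1]
      linarith
    · have hn : ω ∈ NoCut K := by
        rw [← tau_eq_iff]
        have := tau_le K ω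
        omega
      rw [if_pos hn]
      simp only [hZ]
      rw [if_neg htau, Real.log_pow]
      have h1 : |θ * hh k (ω.j k)| ≤ |θ| * (k * Real.log 3) := by
        rw [abs_mul]
        exact mul_le_mul_of_nonneg_left (abs_hh_le (ω.j_le k)) (abs_nonneg θ)
      have h2 := neg_abs_le (θ * hh k (ω.j k))
      have h3 := neg_abs_le (lam θ)
      have h4 : -(|lam θ| * k) ≤ lam θ * k := by
        have := mul_le_mul_of_nonneg_right h3 hk0
        linarith
      have h5 : 0 ≤ ε * k + C1 := add_nonneg (mul_nonneg hε.le hk0) hC10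
      have h6 : (k : ℝ) * Real.log 2 ≤ (lam θ * k + θ * hh k (ω.j k)) + (ε * k + C1) +
          (Real.log 2 + |lam θ| + |θ| * Real.log 3) * k := by linarith
      have := mul_le_mul_of_nonneg_left h6 hpω
      linarith
  have b6 := sum_le_sum b5
  rw [sum_add_distrib, sum_add_distrib, ← sum_mul, ← mul_sum, ← sum_filter] at b6
  have b7 : (∑ ω ∈ s, p ω) * (ε * k + C1) ≤ ε * k + C1 :=
    mul_le_of_le_one_left (add_nonneg (mul_nonneg hε.le hk0) hC10) hp1
  have b8 : (∑ ω ∈ s, p ω) * Real.log ((K + 1 : ℕ) : ℝ) ≤ Real.log (K + 1) := by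
    push_cast
    refine mul_le_of_le_one_left (Real.log_nonneg ?_) hp1
    have : (0 : ℝ) ≤ K := Nat.cast_nonneg K
    linarith
  rw [b3] at b1
  linarith

end Pool.Agent.Collatz3.SB
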