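import Pool.Agent.Collatz3.SBWords
import Pool.Agent.Collatz3.LTRep

set_option autoImplicit false

/-!
Words of paths and representations, relative heights.
-/

open Finset
open scoped Classical

namespace Pool.Agent.Collatz3.SB

open Pool.Agent.Collatz3.LT
open UB.PathZ (T W X Inv)
open UB (FAP)

variable [Par]

theorem ht_lw (k : ℕ) (ω : UB.PathZ) : ht (lw k ω) = hh k (ω.j k) := by
  unfold ht; rw [lw_length, jj_lw]

theorem Cu_Bar {ω : UB.PathZ} (h : ω ∈ Cu) (k : ℕ) : Bar (lw k ω) := by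
  intro i h1 h2
  rw [lw_length] at h2
  rw [lw_take h2, ht_lw]
  exact h i h1

theorem lw_mem_BR {ω : UB.PathZ} (h : ω ∈ Cu) (k : ℕ) : lw k ω ∈ BR k (ω.b 0) := by
  rw [mem_BR]
  exact ⟨lw_length k ω, Cu_Bar h k, Read_lw k ω⟩

/-- a path is in `Cu` if and only if all its words are barrier words -/
theorem Cu_iff {ω : UB.PathZ} : ω ∈ Cu ↔ ∀ k, Bar (lw k ω) := by
  constructor
  · intro h k; exact Cu_Bar h k
  · intro h s hs
    have := h s s hs (by rw [lw_length])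
    rw [lw_take le_rfl, ht_lw] at this
    exact this

theorem abs_hh_le {k l : ℕ} (h : l ≤ k) : |hh k l| ≤ k * Real.log 3 := by
  have h1 : (l : ℝ) ≤ k := by exact_mod_cast h
  have h2 := Lv_pos
  have h2' := Lv_le
  have h3 := log3_pos
  have h4 := log2_lt_log3
  have h5 : (0 : ℝ) ≤ l := Nat.cast_nonneg l
  have h6 : (0 : ℝ) ≤ k := Nat.cast_nonneg k
  unfold hh
  rw [abs_le]
  constructor
  · nlinarith [mul_le_mul_of_nonneg_right h1 h3.le, mul_nonneg h6 h2.le]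
  · nlinarith [mul_nonneg h5 h3.le, mul_le_mul_of_nonneg_left (h2'.trans h4.le) h6]

/-- determined by the word of length `k + m`, the starting point modulo `3 ^ N`, and the cuts -/
def DetG (k m N K : ℕ) {α : Type} (Y : UB.PathZ → α) : Prop :=
  ∀ ω ω' : UB.PathZ, W (k + m) ω = W (k + m) ω' → ω.b 0 % 3 ^ N = ω'.b 0 % 3 ^ N →
    (T^[k] ω ∈ Cu ↔ T^[k] ω' ∈ Cu) → (ω ∈ NoCut K ↔ ω' ∈ NoCut K) → Y ω = Y ω'

/-- representation of `P` by finitely many weighted paths -/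
def RepG (P : FAP UB.PathZ) (k m N K : ℕ) (s : Finset UB.PathZ) (p : UB.PathZ → ℝ) : Prop :=
  (∀ ω ∈ s, 0 ≤ p ω) ∧ (∑ ω ∈ s, p ω = 1) ∧
    ∀ {α : Type} (Y : UB.PathZ → α), DetG k m N K Y → ∀ a, mv s p Y a = P.m {ω | Y ω = a}

theorem exists_RepG (P : FAP UB.PathZ) (k m N K : ℕ) : ∃ (s : Finset UB.PathZ) (p : UB.PathZ → ℝ),
    RepG P k m N K s p := by
  have hfr : UB.FR (fun ω : UB.PathZ => ((W (k + m) ω, ω.b 0 % 3 ^ N),
      (decide (T^[k] ω ∈ Cu), decide (ω ∈ NoCut K)))) := by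
    refine ((UB.PathZ.FR_W (k + m)).pair (UB.FR.emod _ N)).pair (UB.FR.pair ?_ ?_)
    · exact UB.FR.of_mem {true, false} fun ω => by cases decide (T^[k] ω ∈ Cu) <;> simp
    · exact UB.FR.of_mem {true, false} fun ω => by cases decide (ω ∈ NoCut K) <;> simp
  obtain ⟨s, p, h1, h2, h3⟩ := P.exists_rep _ hfr
  refine ⟨s, p, h1, h2, fun Y hY a => h3 Y (fun ω ω' h => ?_) a⟩
  simp only [Prod.mk.injEq, decide_eq_decide] at h
  exact hY ω ω' h.1.1 h.1.2 h.2.1 h.2.2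

theorem RepG.toRepK {P : FAP UB.PathZ} {k m N K : ℕ} {s : Finset UB.PathZ} {p : UB.PathZ → ℝ}
    (h : RepG P k m N K s p) : UB.PathZ.RepK P (k + m) N s p :=
  ⟨h.1, h.2.1, fun Y hY a => h.2.2 Y (fun ω ω' h1 h2 _ _ => hY ω ω' h1 h2) a⟩

theorem RepG.mass {P : FAP UB.PathZ} {k m N K : ℕ} {s : Finset UB.PathZ} {p : UB.PathZ → ℝ}
    (h : RepG P k m N K s p) (A : UB.PathZ → Prop) (hA : DetG k m N K A) :
    ∑ ω ∈ s with A ω, p ω = P.m {ω | A ω} := by
  have h1 := h.2.2 A hA True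
  have e : {ω : UB.PathZ | A ω = True} = {ω | A ω} := by ext; simp
  rw [e] at h1
  rw [← h1]
  unfold mv
  refine sum_congr ?_ fun _ _ => rfl
  ext ω; simp

/-- expected relative height -/
theorem RepK_mean_hh {P : FAP UB.PathZ} (hI : Inv P) {n N : ℕ} {s : Finset UB.PathZ}
    {p : UB.PathZ → ℝ} (h : UB.PathZ.RepK P n N s p) {k : ℕ} (hk : k ≤ n) (a θ : ℝ) :
    ∑ ω ∈ s, p ω * (a + θ * hh k (ω.j k)) = a + k * (θ * (Lv - q1 P * Real.log 3)) := by
  have h1 := RepK_mean_j hI h hk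
  have e : ∀ ω ∈ s, p ω * (a + θ * hh k (ω.j k)) =
      p ω * (a + θ * (k * Lv)) - θ * Real.log 3 * (p ω * (ω.j k : ℝ)) := by
    intro ω _
    unfold hh; ring
  rw [sum_congr rfl e, sum_sub_distrib, ← sum_mul, ← mul_sum, h.2.1, h1]
  ring

end Pool.Agent.Collatz3.SB
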