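import Pool.Agent.Collatz3.SBMain
import Pool.Agent.Collatz3.SBLetter
import Pool.Agent.Collatz3.LTUpBase

set_option autoImplicit false

/-!
The upper bound for the number of slow orbits.
-/

open Finset
open scoped Classical

namespace Pool.Agent.Collatz3.SB

open Pool.Agent.Collatz3.LT (jj cc Read nd WL wd wd_length wd_add wd_spec wd_read wd_one node_le node_prod
  iter_pos jj_append log2_pos log3_pos)

/-! ### sums over blocks -/

theorem sum_range_two_mul (f : ℕ → ℝ) (n : ℕ) :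
    ∑ u ∈ range (2 * n), f u = ∑ u ∈ range n, (f (2 * u) + f (2 * u + 1)) := by
  induction n with
  | zero => simp
  | succ n ih =>
    rw [show 2 * (n + 1) = 2 * n + 1 + 1 by ring, sum_range_succ, sum_range_succ, sum_range_succ, ih]
    ring

theorem T3_even {m : ℕ} : T3 (2 * m) = m := by
  unfold T3
  rw [if_pos (by omega)]
  omega

theorem T3_odd {m : ℕ} : T3 (2 * m + 1) = 3 * m + 2 := by
  unfold T3
  rw [if_neg (by omega)]
  omega

/-- equidistribution of the words of length `i` in arithmetic progressions -/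
theorem sum_words (z : ℝ) (i t : ℕ) : ∀ a q : ℕ, q % 2 = 1 →
    ∑ u ∈ range (2 ^ i * t), z ^ jj (wd i (a + q * u)) = t * (1 + z) ^ i := by
  induction i with
  | zero =>
    intro a q hq
    simp [wd]
  | succ i ih =>
    intro a q hq
    have hstep : ∀ b : ℕ, z ^ jj (wd (i + 1) b) =
        z ^ jj (wd i (T3 b)) * (if b % 2 = 1 then z else 1) := by
      intro b
      rw [wd, jj_append, pow_add]
      congr 1
      by_cases h : b % 2 = 1
      · rw [if_pos h, decide_eq_true h]; simp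
      · rw [if_neg h, decide_eq_false h]; simp
    have hq' : q = 2 * (q / 2) + 1 := by omega
    rw [show 2 ^ (i + 1) * t = 2 * (2 ^ i * t) by ring, sum_range_two_mul, sum_add_distrib]
    rcases Nat.mod_two_eq_zero_or_one a with ha | ha
    · have ha' : a = 2 * (a / 2) := by omega
      have e1 : ∀ u : ℕ, z ^ jj (wd (i + 1) (a + q * (2 * u))) =
          z ^ jj (wd i (a / 2 + q * u)) := by
        intro u
        have e : a + q * (2 * u) = 2 * (a / 2 + q * u) := by
          conv_lhs => rw [ha']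
          ring
        rw [hstep, e, T3_even, if_neg (by omega), mul_one]
      have e2 : ∀ u : ℕ, z ^ jj (wd (i + 1) (a + q * (2 * u + 1))) =
          z ^ jj (wd i (3 * (a / 2 + q / 2) + 2 + (3 * q) * u)) * z := by
        intro u
        have e : a + q * (2 * u + 1) = 2 * (a / 2 + q * u + q / 2) + 1 := by
          have h1 : a + q * (2 * u + 1) = a + 2 * (q * u) + q := by ring
          rw [h1]
          omega
        rw [hstep, e, T3_odd, if_pos (by omega)]
        have h2 : 3 * (a / 2 + q * u + q / 2) + 2 = 3 * (a / 2 + q / 2) + 2 + 3 * q * u := by ring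
        rw [h2]
      rw [sum_congr rfl fun u _ => e1 u, sum_congr rfl fun u _ => e2 u, ← sum_mul, ih _ _ hq,
        ih _ _ (by omega)]
      ring
    · have e1 : ∀ u : ℕ, z ^ jj (wd (i + 1) (a + q * (2 * u))) =
          z ^ jj (wd i (3 * (a / 2) + 2 + (3 * q) * u)) * z := by
        intro u
        have e : a + q * (2 * u) = 2 * (a / 2 + q * u) + 1 := by
          have h1 : a + q * (2 * u) = a + 2 * (q * u) := by ring
          rw [h1]
          omega
        rw [hstep, e, T3_odd, if_pos (by omega)]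
        have h2 : 3 * (a / 2 + q * u) + 2 = 3 * (a / 2) + 2 + 3 * q * u := by ring
        rw [h2]
      have e2 : ∀ u : ℕ, z ^ jj (wd (i + 1) (a + q * (2 * u + 1))) =
          z ^ jj (wd i (a / 2 + q / 2 + 1 + q * u)) := by
        intro u
        have e : a + q * (2 * u + 1) = 2 * (a / 2 + q / 2 + 1 + q * u) := by
          have h1 : a + q * (2 * u + 1) = a + 2 * (q * u) + q := by ring
          rw [h1]
          omega
        rw [hstep, e, T3_even, if_neg (by omega), mul_one]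
      rw [sum_congr rfl fun u _ => e1 u, sum_congr rfl fun u _ => e2 u, ← sum_mul, ih _ _ hq,
        ih _ _ (by omega)]
      ring

/-- the sum over a dyadic block -/
theorem sum_block (z : ℝ) {i k : ℕ} (hik : i ≤ k) :
    ∑ y ∈ Ico (2 ^ k) (2 ^ (k + 1)), z ^ jj (wd i y) = 2 ^ (k - i) * (1 + z) ^ i := by
  rw [sum_Ico_eq_sum_range]
  have e : 2 ^ (k + 1) - 2 ^ k = 2 ^ i * 2 ^ (k - i) := by
    rw [← pow_add, Nat.add_sub_cancel' hik, pow_succ]
    omega
  rw [e]
  have h := sum_words z i (2 ^ (k - i)) (2 ^ k) 1 (by norm_num)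
  simp only [one_mul] at h
  rw [h]
  push_cast
  rfl

/-- the exceptional numbers in a dyadic block -/
theorem card_exc {p : ℝ} (hp : 1 / 2 ≤ p) (hp1 : p < 1) (k : ℕ) :
    ((((Ico (2 ^ k) (2 ^ (k + 1))).filter fun y => p * k ≤ (jj (wd k y) : ℝ)).card : ℕ) : ℝ) ≤
      Real.exp (Real.binEntropy p * k) := by
  have h0 : 0 < 1 - p := by linarith
  have hp0 : 0 < p := by linarith
  obtain ⟨y, hyd⟩ : ∃ y, y = p / (1 - p) := ⟨_, rfl⟩
  have hy : 1 ≤ y := by rw [hyd, le_div_iff₀ h0]; linarith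
  have hy0 : 0 < y := by linarith
  have hly : 0 ≤ Real.log y := Real.log_nonneg hy
  have h1 : ∑ b ∈ (Ico (2 ^ k) (2 ^ (k + 1))).filter (fun b => p * k ≤ (jj (wd k b) : ℝ)),
      Real.exp (p * k * Real.log y) ≤ (1 + y) ^ k := by
    have h2 := sum_block y (le_refl k)
    rw [Nat.sub_self, pow_zero, one_mul] at h2
    rw [← h2]
    refine le_trans (sum_le_sum (g := fun b : ℕ => y ^ jj (wd k b)) fun b hb => ?_)
      (sum_le_sum_of_subset_of_nonneg (filter_subset _ _) fun _ _ _ => by positivity)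
    have h2 := (mem_filter.1 hb).2
    have h3 : y ^ jj (wd k b) = Real.exp (jj (wd k b) * Real.log y) := by
      rw [Real.exp_nat_mul, Real.exp_log hy0]
    rw [h3]
    apply Real.exp_le_exp.2
    exact mul_le_mul_of_nonneg_right h2 hly
  rw [sum_const, nsmul_eq_mul] at h1
  have h2 := mul_le_mul_of_nonneg_right h1 (Real.exp_pos (-(p * k * Real.log y))).le
  rw [mul_assoc, ← Real.exp_add, add_neg_cancel, Real.exp_zero, mul_one] at h2
  refine h2.trans (le_of_eq ?_)
  have e1 : 1 + y = (1 - p)⁻¹ := by rw [hyd]; field_simp; ring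
  have e2 : Real.log y = Real.log p - Real.log (1 - p) := by rw [hyd, Real.log_div hp0.ne' h0.ne']
  rw [show (1 + y) ^ k = Real.exp (k * Real.log (1 + y)) by
    rw [Real.exp_nat_mul, Real.exp_log (by linarith)], ← Real.exp_add, e1, e2]
  congr 1
  unfold Real.binEntropy
  rw [Real.log_inv, Real.log_inv]
  ring

/-! ### sizes -/

theorem prod_le_exp_one {k b L : ℕ} (hL : 1 ≤ L) (hk : k ≤ L) (h : ∀ i < k, L < T3^[i] b) :
    ∏ i ∈ range k, (1 + 1 / ((T3^[i] b : ℕ) : ℝ)) ≤ Real.exp 1 := by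
  have hL0 : (0 : ℝ) < L := by exact_mod_cast hL
  have h1 : ∏ i ∈ range k, (1 + 1 / ((T3^[i] b : ℕ) : ℝ)) ≤ ∏ _i ∈ range k, Real.exp (1 / L) := by
    refine prod_le_prod (fun i _ => by positivity) fun i hi => ?_
    have h2 := h i (mem_range.1 hi)
    have h3 : (L : ℝ) ≤ (T3^[i] b : ℕ) := by exact_mod_cast h2.le
    have h4 : 1 / ((T3^[i] b : ℕ) : ℝ) ≤ 1 / L := one_div_le_one_div_of_le hL0 h3
    have h5 := Real.add_one_le_exp (1 / (L : ℝ))
    linarith
  refine h1.trans ?_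
  rw [prod_const, card_range, ← Real.exp_nat_mul]
  apply Real.exp_le_exp.2
  rw [mul_one_div, div_le_one hL0]
  exact_mod_cast hk

/-- no dips: the last node is as large as it should be -/
theorem size_up {k b L : ℕ} (hL : 1 ≤ L) (hk : k ≤ L) (h : ∀ i ≤ k, L < T3^[i] b) :
    ((T3^[k] b : ℕ) : ℝ) * Real.exp (LT.ht (wd k b)) ≤ Real.exp 1 * b := by
  have h1 := node_prod k b (by have := h k le_rfl; omega)
  have h2 := prod_le_exp_one hL hk fun i hi => h i hi.le
  unfold LT.ht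
  rw [LT.exp_hh, wd_length, mul_div_assoc', div_le_iff₀ (by positivity)]
  calc ((T3^[k] b : ℕ) : ℝ) * 2 ^ k = 2 ^ k * (T3^[k] b : ℕ) := mul_comm _ _
    _ ≤ 3 ^ jj (wd k b) * b * ∏ i ∈ range k, (1 + 1 / ((T3^[i] b : ℕ) : ℝ)) := h1
    _ ≤ 3 ^ jj (wd k b) * b * Real.exp 1 := mul_le_mul_of_nonneg_left h2 (by positivity)
    _ = _ := by ring

variable [Par]

theorem ht_wd_sub {k m : ℕ} (h : m ≤ k) (b : ℕ) :
    ht (wd (k - m) (T3^[m] b)) = ht (wd k b) - ht (wd m b) := by
  have := wd_add (k - m) m b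
  rw [Nat.sub_add_cancel h] at this
  rw [this, ht_append]
  ring

/-- decomposition at the lowest point -/
theorem lowest (k b : ℕ) : ∃ m, m ≤ k ∧ (∀ j ≤ k, ht (wd j b) ≤ ht (wd m b)) ∧ Bar (wd m b) := by
  have hex : ∃ m, m ≤ k ∧ ∀ j ≤ k, ht (wd j b) ≤ ht (wd m b) := by
    obtain ⟨m, hm, h⟩ := exists_max_image (range (k + 1)) (fun j => ht (wd j b)) ⟨0, by simp⟩
    exact ⟨m, by rw [mem_range] at hm; omega, fun j hj => h j (by rw [mem_range]; omega)⟩
  obtain ⟨h1, h2⟩ := Nat.find_spec hex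
  have hmin := fun j (hj : j < Nat.find hex) => Nat.find_min hex hj
  set m := Nat.find hex with hm
  refine ⟨m, h1, h2, ?_⟩
  intro i hi1 hi2
  rw [wd_length] at hi2
  have h3 : (wd m b).take i = wd i (T3^[m - i] b) := by
    have := wd_add i (m - i) b
    rw [Nat.add_sub_cancel' hi2] at this
    rw [this, List.take_left' (wd_length _ _)]
  have h4 := hmin (m - i) (by omega)
  push Not at h4
  obtain ⟨j', hj1, hj2⟩ := h4 (by omega)
  have h5 := h2 j' hj1
  have h6 := ht_wd_sub (show m - i ≤ m by omega) b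
  rw [Nat.sub_sub_self hi2] at h6
  rw [h3, h6]
  linarith

/-- the two exponents -/
theorem Lam_eq (θ : ℝ) : Lam θ = LT.Lam θ + θ * Par.v := by
  have e : (2 : ℝ) ^ (-θ) = Real.exp (-θ * Real.log 2) := by
    rw [Real.rpow_def_of_pos (by norm_num), mul_comm]
  have h3 : (0 : ℝ) < (3 : ℝ) ^ (θ - 1) := Real.rpow_pos_of_pos (by norm_num) _
  unfold Lam LT.Lam
  rw [e, Real.log_mul (Real.exp_pos _).ne' (by positivity),
    Real.log_mul (Real.exp_pos _).ne' (by positivity), Real.log_exp, Real.log_exp]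
  unfold Lv
  ring

/-- the starting points of barrier paths to `y` -/
theorem card_from {θ : ℝ} (hθ : 0 ≤ θ) {x y m L : ℕ} (hL : 1 ≤ L) (hm : m ≤ L) (hx : 1 ≤ x)
    (F : Finset ℕ) (hF : ∀ n ∈ F, n ≤ x ∧ T3^[m] n = y ∧ Bar (wd m n) ∧ ∀ i ≤ m, L < T3^[i] n) :
    (F.card : ℝ) ≤ Real.exp (θ * (1 + Real.log x - Real.log y) - θ * Par.v * m) * AA θ m y := by
  have hx0 : (0 : ℝ) < x := by exact_mod_cast hx
  have h1 : ∀ n ∈ F, (1 : ℝ) ≤ Real.exp (θ * (1 + Real.log x - Real.log y) - θ * Par.v * m) *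
      Real.exp (-θ * ht (wd m n)) := by
    intro n hn
    obtain ⟨h1, h2, h3, h4⟩ := hF n hn
    have h5 := size_up hL hm h4
    have h6 : L < y := by rw [← h2]; exact h4 m le_rfl
    have hy0 : (0 : ℝ) < y := by exact_mod_cast (show 0 < y by omega)
    rw [h2] at h5
    have h7 : (y : ℝ) * Real.exp (LT.ht (wd m n)) ≤ Real.exp 1 * x :=
      h5.trans (mul_le_mul_of_nonneg_left (by exact_mod_cast h1) (Real.exp_pos _).le)
    have h8 := Real.log_le_log (by positivity) h7
    rw [Real.log_mul hy0.ne' (Real.exp_pos _).ne', Real.log_exp,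
      Real.log_mul (Real.exp_pos _).ne' hx0.ne', Real.log_exp, LT_ht, wd_length] at h8
    rw [← Real.exp_add]
    apply Real.one_le_exp
    have h9 := mul_le_mul_of_nonneg_left h8 hθ
    nlinarith
  have h2 : (F.card : ℝ) ≤ ∑ n ∈ F, Real.exp (θ * (1 + Real.log x - Real.log y) - θ * Par.v * m) *
      Real.exp (-θ * ht (wd m n)) := by
    have := sum_le_sum h1
    rwa [sum_const, nsmul_eq_mul, mul_one] at this
  refine h2.trans ?_
  rw [← mul_sum]
  refine mul_le_mul_of_nonneg_left ?_ (Real.exp_pos _).le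
  have hinj : ∀ n ∈ F, ∀ n' ∈ F, wd m n = wd m n' → n = n' := by
    intro n hn n' hn' he
    obtain ⟨-, a2, -, -⟩ := hF n hn
    obtain ⟨-, b2, -, -⟩ := hF n' hn'
    have c1 := (wd_read m n).2
    have c2 := (wd_read m n').2
    rw [a2] at c1
    rw [b2, ← he, c1] at c2
    exact_mod_cast c2
  rw [← sum_image (f := fun w => Real.exp (-θ * ht w)) hinj]
  unfold AA
  refine sum_le_sum_of_subset_of_nonneg ?_ fun _ _ _ => (Real.exp_pos _).le
  intro w hw
  obtain ⟨n, hn, rfl⟩ := mem_image.1 hw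
  obtain ⟨-, a2, a3, -⟩ := hF n hn
  rw [mem_BR]
  refine ⟨wd_length _ _, a3, ?_⟩
  have := (wd_read m n).1
  rwa [a2] at this

/-- the words of the shape of the exceptional numbers -/
theorem exc_of {K m n : ℕ} (hmK : m ≤ K)
    (hmax : ∀ j ≤ K, ht (wd j n) ≤ ht (wd m n)) {i : ℕ} (hi : i ≤ K - m) :
    Lv / Real.log 3 * i ≤ (jj (wd i (T3^[m] n)) : ℝ) := by
  have hl3 := log3_pos
  have h1 := hmax (i + m) (by omega)
  have h2 := ht_wd_sub (show m ≤ i + m by omega) n
  rw [Nat.add_sub_cancel] at h2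
  have h3 : ht (wd i (T3^[m] n)) ≤ 0 := by linarith
  unfold ht hh at h3
  rw [wd_length] at h3
  rw [div_mul_eq_mul_div, div_le_iff₀ hl3]
  linarith

/-- first part: exceptional lowest points -/
theorem part_exc (hLet : Letters) (hp : 1 / 2 ≤ Lv / Real.log 3) (hκ : Par.κ < Par.v)
    {ε : ℝ} (hε : 0 < ε) : ∃ C : ℝ, 0 < C ∧ ∀ x L K m k : ℕ, 1 ≤ x → 1 ≤ L → K ≤ L → m ≤ K →
      ∀ G : ℕ → Finset ℕ, (∀ y, ∀ n ∈ G y, n ≤ x ∧ T3^[m] n = y ∧ Bar (wd m n) ∧
        ∀ i ≤ m, L < T3^[i] n) →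
      ∑ y ∈ (Ico (2 ^ k) (2 ^ (k + 1))).filter (fun y => L < y ∧
          Lv / Real.log 3 * k ≤ (jj (wd k y) : ℝ)), ((G y).card : ℝ) ≤
        C * (Real.exp (ε * K) *
          (x * (L : ℝ) ^ (-(1 - Real.binEntropy (Lv / Real.log 3) / Real.log 2)))) := by
  obtain ⟨p, hpd⟩ : ∃ p, p = Lv / Real.log 3 := ⟨_, rfl⟩
  rw [← hpd] at hp ⊢
  have hl2 := log2_pos
  have hl3 := log3_pos
  have hp1 : p < 1 := by
    rw [hpd, div_lt_one hl3]
    exact Lv_le.trans_lt LT.log2_lt_log3
  have hH0 : 0 ≤ Real.binEntropy p := Real.binEntropy_nonneg (by linarith) hp1.le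
  have hH1 : Real.binEntropy p ≤ Real.log 2 := Real.binEntropy_le_log_two
  have hLam1 : Lam 1 = Par.v := by
    rw [Lam_eq]
    have : LT.Lam 1 = 0 := by
      unfold LT.Lam
      norm_num [Real.rpow_neg_one]
    rw [this]
    ring
  obtain ⟨C, hC0, hC⟩ := theoremSB hLet (θ := 1) (by rw [hLam1]; exact hκ) hε
  refine ⟨C * Real.exp 1 * 2, by positivity, ?_⟩
  intro x L K m k hx hL hKL hmK G hG
  have hx0 : (0 : ℝ) < x := by exact_mod_cast hx
  have hL0 : (0 : ℝ) < L := by exact_mod_cast hL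
  set S := (Ico (2 ^ k) (2 ^ (k + 1))).filter fun y => L < y ∧ p * k ≤ (jj (wd k y) : ℝ) with hS
  rcases S.eq_empty_or_nonempty with h0 | ⟨y₀, hy₀⟩
  · rw [h0, sum_empty]; positivity
  have hkL : (L : ℝ) ≤ 2 ^ (k + 1) := by
    rw [hS, mem_filter, mem_Ico] at hy₀
    exact_mod_cast (show L ≤ 2 ^ (k + 1) by omega)
  have h1 : ∀ y ∈ S, ((G y).card : ℝ) ≤ C * Real.exp (1 + Real.log x - k * Real.log 2 + ε * K) := by
    intro y hy
    rw [hS, mem_filter, mem_Ico] at hy
    obtain ⟨⟨y1, y2⟩, y3, y4⟩ := hy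
    have hy0 : (0 : ℝ) < y := by exact_mod_cast (show 0 < y by omega)
    refine (card_from zero_le_one hL (hmK.trans hKL) hx (G y) (hG y)).trans ?_
    refine (mul_le_mul_of_nonneg_left (hC m y) (Real.exp_pos _).le).trans ?_
    rw [mul_left_comm, ← Real.exp_add]
    refine mul_le_mul_of_nonneg_left (Real.exp_le_exp.2 ?_) hC0.le
    have h2 : (k : ℝ) * Real.log 2 ≤ Real.log y := by
      rw [← Real.log_pow]
      exact Real.log_le_log (by positivity) (by exact_mod_cast y1)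
    have h3 : ε * m ≤ ε * K := mul_le_mul_of_nonneg_left (by exact_mod_cast hmK) hε.le
    rw [hLam1]
    linarith
  have h2 : (S.card : ℝ) ≤ Real.exp (Real.binEntropy p * k) := by
    refine le_trans ?_ (card_exc hp hp1 k)
    have : S.card ≤ ((Ico (2 ^ k) (2 ^ (k + 1))).filter fun y => p * k ≤ (jj (wd k y) : ℝ)).card := by
      apply card_le_card
      intro y hy
      rw [hS, mem_filter] at hy
      rw [mem_filter]
      exact ⟨hy.1, hy.2.2⟩
    exact_mod_cast this
  refine (sum_le_sum h1).trans ?_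
  rw [sum_const, nsmul_eq_mul]
  refine (mul_le_mul_of_nonneg_right h2 (by positivity)).trans ?_
  rw [mul_left_comm, ← Real.exp_add]
  have e1 : (x : ℝ) * (L : ℝ) ^ (-(1 - Real.binEntropy p / Real.log 2)) =
      Real.exp (Real.log x - (1 - Real.binEntropy p / Real.log 2) * Real.log L) := by
    have e : Real.log x - (1 - Real.binEntropy p / Real.log 2) * Real.log L =
      Real.log x + Real.log L * (-(1 - Real.binEntropy p / Real.log 2)) := by ring
    rw [Real.rpow_def_of_pos hL0, e, Real.exp_add, Real.exp_log hx0]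
  have e2 : C * Real.exp 1 * 2 * (Real.exp (ε * K) *
      (x * (L : ℝ) ^ (-(1 - Real.binEntropy p / Real.log 2)))) =
      C * Real.exp (1 + Real.log 2 + (ε * K + (Real.log x -
        (1 - Real.binEntropy p / Real.log 2) * Real.log L))) := by
    rw [e1, Real.exp_add (1 + Real.log 2), Real.exp_add 1, Real.exp_log two_pos, Real.exp_add (ε * K)]
    ring
  rw [e2]
  refine mul_le_mul_of_nonneg_left (Real.exp_le_exp.2 ?_) hC0.le
  have h3 : Real.log L ≤ (k + 1) * Real.log 2 := by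
    have := Real.log_le_log hL0 hkL
    rw [Real.log_pow] at this
    push_cast at this
    exact this
  have h4 : 0 ≤ 1 - Real.binEntropy p / Real.log 2 := by
    rw [sub_nonneg, div_le_one hl2]; exact hH1
  have h5 := mul_le_mul_of_nonneg_left h3 h4
  have h6 : (1 - Real.binEntropy p / Real.log 2) * ((k + 1) * Real.log 2) =
      (Real.log 2 - Real.binEntropy p) * (k + 1) := by field_simp
  rw [h6] at h5
  nlinarith

/-- second part: Chernoff bound for the rest of the path -/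
theorem part_chernoff (hLet : Letters) {σ : ℝ} (hσ : 0 ≤ σ) (hΛ : Par.κ < Lam (1 + σ))
    {ε : ℝ} (hε : 0 < ε) : ∃ C : ℝ, 0 < C ∧ ∀ x L K m k : ℕ, 1 ≤ x → 1 ≤ L → K ≤ L → m ≤ K →
      K - m < k → ∀ G : ℕ → Finset ℕ, (∀ y, ∀ n ∈ G y, n ≤ x ∧ T3^[m] n = y ∧ Bar (wd m n) ∧
        ∀ i ≤ m, L < T3^[i] n) →
      ∑ y ∈ (Ico (2 ^ k) (2 ^ (k + 1))).filter (fun y =>
          (L : ℝ) * Real.exp (LT.ht (wd (K - m) y)) ≤ Real.exp 1 * y), ((G y).card : ℝ) ≤
        C * (Real.exp (ε * K) *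
          ((x : ℝ) ^ (1 + σ) * (L : ℝ) ^ (-σ) * Real.exp (LT.Lam (1 + σ) * K))) := by
  have hl2 := log2_pos
  have hl3 := log3_pos
  obtain ⟨C, hC0, hC⟩ := theoremSB hLet hΛ hε
  obtain ⟨z, hz⟩ : ∃ z : ℝ, z = Real.exp (σ * Real.log 3) := ⟨_, rfl⟩
  have hz0 : 0 < z := by rw [hz]; positivity
  have hLt : LT.Lam (1 + σ) = -(1 + σ) * Real.log 2 + Real.log (1 + z) := by
    unfold LT.Lam
    have e : (2 : ℝ) ^ (-(1 + σ)) = Real.exp (-(1 + σ) * Real.log 2) := by
      rw [Real.rpow_def_of_pos (by norm_num), mul_comm]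
    have e2 : (3 : ℝ) ^ (1 + σ - 1) = z := by
      rw [hz, Real.rpow_def_of_pos (by norm_num), mul_comm]
      congr 2
      ring
    rw [e, e2, Real.log_mul (Real.exp_pos _).ne' (by positivity), Real.log_exp]
  refine ⟨C * Real.exp (1 + 2 * σ + σ * Real.log 2), by positivity, ?_⟩
  intro x L K m k hx hL hKL hmK hmk G hG
  have hx0 : (0 : ℝ) < x := by exact_mod_cast hx
  have hL0 : (0 : ℝ) < L := by exact_mod_cast hL
  set i := K - m with hi
  have hiK : (i : ℝ) + m = K := by exact_mod_cast (show i + m = K by omega)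
  have h1 : ∀ y ∈ (Ico (2 ^ k) (2 ^ (k + 1))).filter (fun y =>
      (L : ℝ) * Real.exp (LT.ht (wd i y)) ≤ Real.exp 1 * y), ((G y).card : ℝ) ≤
      C * Real.exp ((1 + σ) * (1 + Real.log x - k * Real.log 2) + (LT.Lam (1 + σ) + ε) * m +
        σ * (1 + (k + 1) * Real.log 2 - Real.log L - i * Real.log 2)) * z ^ jj (wd i y) := by
    intro y hy
    rw [mem_filter, mem_Ico] at hy
    obtain ⟨⟨y1, y2⟩, y3⟩ := hy
    have hy1 : 1 ≤ y := Nat.one_le_two_pow.trans y1
    have hy0 : (0 : ℝ) < y := by exact_mod_cast hy1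
    have hσ1 : (0 : ℝ) ≤ 1 + σ := by linarith
    refine (card_from hσ1 hL (hmK.trans hKL) hx (G y) (hG y)).trans ?_
    refine (mul_le_mul_of_nonneg_left (hC m y) (Real.exp_pos _).le).trans ?_
    rw [mul_left_comm, ← Real.exp_add, mul_assoc C]
    refine mul_le_mul_of_nonneg_left ?_ hC0.le
    have hzj : z ^ jj (wd i y) = Real.exp (σ * (jj (wd i y) * Real.log 3)) := by
      rw [hz, ← Real.exp_nat_mul]
      congr 1
      ring
    rw [hzj, ← Real.exp_add]
    apply Real.exp_le_exp.2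
    have h2 : (k : ℝ) * Real.log 2 ≤ Real.log y := by
      rw [← Real.log_pow]
      exact Real.log_le_log (by positivity) (by exact_mod_cast y1)
    have h3 : Real.log y ≤ (k + 1) * Real.log 2 := by
      have : Real.log y ≤ Real.log (2 ^ (k + 1)) :=
        Real.log_le_log hy0 (by exact_mod_cast y2.le)
      rw [Real.log_pow] at this
      push_cast at this
      exact this
    have h4 := Real.log_le_log (by positivity) y3
    rw [Real.log_mul hL0.ne' (Real.exp_pos _).ne', Real.log_exp,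
      Real.log_mul (Real.exp_pos _).ne' hy0.ne', Real.log_exp] at h4
    have h5 : LT.ht (wd i y) = i * Real.log 2 - jj (wd i y) * Real.log 3 := by
      unfold LT.ht LT.hh
      rw [wd_length]
    rw [h5] at h4
    have h6 : 0 ≤ 1 + (k + 1) * Real.log 2 - Real.log L - i * Real.log 2 +
      jj (wd i y) * Real.log 3 := by linarith
    have h7 := mul_nonneg hσ h6
    have h8 := mul_le_mul_of_nonneg_left h2 (show (0 : ℝ) ≤ 1 + σ by linarith)
    rw [Lam_eq]
    nlinarith
  refine (sum_le_sum h1).trans ?_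
  refine (sum_le_sum_of_subset_of_nonneg (filter_subset _ _) fun _ _ _ => by positivity).trans ?_
  rw [← mul_sum, sum_block z (show i ≤ k by omega)]
  have e1 : (2 : ℝ) ^ (k - i) = Real.exp ((k - i) * Real.log 2) := by
    rw [← Nat.cast_sub (show i ≤ k by omega), Real.exp_nat_mul, Real.exp_log two_pos]
  have e2 : (1 + z) ^ i = Real.exp (i * Real.log (1 + z)) := by
    rw [Real.exp_nat_mul, Real.exp_log (by positivity)]
  have e3 : (x : ℝ) ^ (1 + σ) * (L : ℝ) ^ (-σ) =
      Real.exp ((1 + σ) * Real.log x - σ * Real.log L) := by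
    rw [Real.rpow_def_of_pos hx0, Real.rpow_def_of_pos hL0, ← Real.exp_add]
    congr 1
    ring
  rw [e1, e2, e3, mul_assoc C, ← Real.exp_add ((k - i) * Real.log 2), ← Real.exp_add, mul_assoc C,
    ← Real.exp_add, ← Real.exp_add, ← Real.exp_add]
  refine mul_le_mul_of_nonneg_left (Real.exp_le_exp.2 (le_of_sub_nonneg ?_)) hC0.le
  have h3 : ε * m ≤ ε * K := mul_le_mul_of_nonneg_left (by exact_mod_cast hmK) hε.le
  have h4 : Real.log (1 + z) = LT.Lam (1 + σ) + (1 + σ) * Real.log 2 := by rw [hLt]; ring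
  rw [h4]
  have h5 : LT.Lam (1 + σ) * K = LT.Lam (1 + σ) * i + LT.Lam (1 + σ) * m := by rw [← hiK]; ring
  rw [h5]
  nlinarith

theorem slow_upper (hLet : Letters) (hp : 1 / 2 ≤ Lv / Real.log 3) (hκ : Par.κ < Par.v) {σ : ℝ}
    (hσ : 0 ≤ σ) (hΛ : Par.κ < Lam (1 + σ)) {ε : ℝ} (hε : 0 < ε) : ∃ C : ℝ, 0 < C ∧
    ∀ x L K : ℕ, 1 ≤ x → 1 ≤ L → K ≤ L →
      ((({n : ℕ | 1 ≤ n ∧ n ≤ x ∧ ∀ k ≤ K, L < T3^[k] n}.ncard : ℕ)) : ℝ) ≤
        C * (K + 1) * (Real.log x + 1) * Real.exp (ε * K) *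
          ((x : ℝ) ^ (1 + σ) * (L : ℝ) ^ (-σ) * Real.exp (LT.Lam (1 + σ) * K) +
            x * (L : ℝ) ^ (-(1 - Real.binEntropy (Lv / Real.log 3) / Real.log 2))) := by
  have hl2 := log2_pos
  have hl3 := log3_pos
  obtain ⟨C₁, hC₁0, hC₁⟩ := part_exc hLet hp hκ hε
  obtain ⟨C₂, hC₂0, hC₂⟩ := part_chernoff hLet hσ hΛ hε
  refine ⟨3 * (C₁ + C₂), by positivity, ?_⟩
  intro x L K hx hL hKL
  have hx0 : (0 : ℝ) < x := by exact_mod_cast hx
  have hL0 : (0 : ℝ) < L := by exact_mod_cast hL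
  set F : Finset ℕ := (Icc 1 x).filter fun n => ∀ k ≤ K, L < T3^[k] n with hF
  have hset : {n : ℕ | 1 ≤ n ∧ n ≤ x ∧ ∀ k ≤ K, L < T3^[k] n} = (F : Set ℕ) := by
    ext n
    rw [mem_coe, hF, mem_filter, mem_Icc, Set.mem_ofPred_eq, and_assoc]
  rw [hset, Set.ncard_coe_finset]
  set N := Nat.log 2 x + 2 with hN
  set G : ℕ → ℕ → Finset ℕ := fun m y => F.filter fun n => T3^[m] n = y ∧ Bar (wd m n) with hGd
  have hG : ∀ m ≤ K, ∀ y, ∀ n ∈ G m y, n ≤ x ∧ T3^[m] n = y ∧ Bar (wd m n) ∧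
      ∀ i ≤ m, L < T3^[i] n := by
    intro m hm y n hn
    rw [hGd, mem_filter, hF, mem_filter, mem_Icc] at hn
    exact ⟨hn.1.1.2, hn.2.1, hn.2.2, fun i hi => hn.1.2 i (hi.trans hm)⟩
  set A : ℕ → Finset ℕ := fun k => (Ico (2 ^ k) (2 ^ (k + 1))).filter fun y => L < y ∧
    Lv / Real.log 3 * k ≤ (jj (wd k y) : ℝ) with hA
  set B : ℕ → ℕ → Finset ℕ := fun m k => if K - m < k then
    (Ico (2 ^ k) (2 ^ (k + 1))).filter fun y =>
      (L : ℝ) * Real.exp (LT.ht (wd (K - m) y)) ≤ Real.exp 1 * y else ∅ with hB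
  have hsub : F ⊆ (range (K + 1)).biUnion fun m => (range (N + 1)).biUnion fun k =>
      (A k).biUnion (G m) ∪ (B m k).biUnion (G m) := by
    intro n hn
    have hn' := hn
    rw [hF, mem_filter, mem_Icc] at hn'
    obtain ⟨⟨hn1, hn2⟩, hn3⟩ := hn'
    obtain ⟨m, hm1, hm2, hm3⟩ := lowest K n
    set y := T3^[m] n with hy
    have hLy : L < y := hn3 m hm1
    have hy0 : y ≠ 0 := by omega
    have hyr : (0 : ℝ) < y := by exact_mod_cast (show 0 < y by omega)
    set k := Nat.log 2 y with hk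
    have hk1 : 2 ^ k ≤ y := Nat.pow_log_le_self 2 hy0
    have hk2 : y < 2 ^ (k + 1) := Nat.lt_pow_succ_log_self (by norm_num) y
    have hkN : k ≤ N := by
      have h1 := size_up hL (hm1.trans hKL) fun i hi => hn3 i (hi.trans hm1)
      have h2 : 0 ≤ LT.ht (wd m n) := by
        have := hm3.ht_nonneg
        rw [LT_ht]
        have := Par.v_nonneg
        positivity
      have h3 : (y : ℝ) ≤ 4 * x := by
        have h4 := Real.one_le_exp h2
        have h5 : (y : ℝ) * 1 ≤ (y : ℝ) * Real.exp (LT.ht (wd m n)) :=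
          mul_le_mul_of_nonneg_left h4 hyr.le
        have h6 := Real.exp_one_lt_d9
        have h7 : (n : ℝ) ≤ x := by exact_mod_cast hn2
        have h8 : Real.exp 1 * n ≤ 4 * x := by
          have : (0 : ℝ) ≤ n := Nat.cast_nonneg n
          nlinarith
        linarith
      have h4 : y ≤ 2 ^ 2 * x := by
        have : (y : ℝ) ≤ (4 * x : ℕ) := by push_cast; exact h3
        have := Nat.cast_le.1 this
        omega
      have h5 : Nat.log 2 y ≤ Nat.log 2 (2 ^ 2 * x) := Nat.log_mono_right h4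
      have h6 : Nat.log 2 (2 ^ 2 * x) = Nat.log 2 x + 2 := by
        rw [show 2 ^ 2 * x = x * 2 * 2 by ring, Nat.log_mul_base (by norm_num) (by omega),
          Nat.log_mul_base (by norm_num) (by omega)]
      omega
    rw [mem_biUnion]
    refine ⟨m, by rw [mem_range]; omega, ?_⟩
    rw [mem_biUnion]
    refine ⟨k, by rw [mem_range]; omega, ?_⟩
    have hnG : n ∈ G m y := by
      rw [hGd, mem_filter]
      exact ⟨hn, rfl, hm3⟩
    rw [mem_union, mem_biUnion, mem_biUnion]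
    by_cases hc : K - m < k
    · right
      refine ⟨y, ?_, hnG⟩
      rw [hB]
      simp only
      rw [if_pos hc, mem_filter, mem_Ico]
      refine ⟨⟨hk1, hk2⟩, ?_⟩
      have hyi : ∀ i ≤ K - m, L < T3^[i] y := by
        intro i hi
        rw [hy, ← Function.iterate_add_apply]
        exact hn3 _ (by omega)
      have h1 := size_up hL (show K - m ≤ L by omega) hyi
      refine le_trans (mul_le_mul_of_nonneg_right ?_ (Real.exp_pos _).le) h1
      exact_mod_cast (hyi _ le_rfl).le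
    · left
      refine ⟨y, ?_, hnG⟩
      rw [hA, mem_filter, mem_Ico]
      exact ⟨⟨hk1, hk2⟩, hLy, exc_of hm1 hm2 (by omega)⟩
  have hcard := card_le_card hsub
  have h1 : (F.card : ℝ) ≤ ∑ m ∈ range (K + 1), ∑ k ∈ range (N + 1),
      (∑ y ∈ A k, ((G m y).card : ℝ) + ∑ y ∈ B m k, ((G m y).card : ℝ)) := by
    have h2 : F.card ≤ ∑ m ∈ range (K + 1), ∑ k ∈ range (N + 1),
        (∑ y ∈ A k, (G m y).card + ∑ y ∈ B m k, (G m y).card) := by
      refine hcard.trans (card_biUnion_le.trans (sum_le_sum fun m _ =>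
        card_biUnion_le.trans (sum_le_sum fun k _ => ?_)))
      exact (card_union_le _ _).trans (add_le_add card_biUnion_le card_biUnion_le)
    exact_mod_cast h2
  set E₁ : ℝ := (x : ℝ) ^ (1 + σ) * (L : ℝ) ^ (-σ) * Real.exp (LT.Lam (1 + σ) * K) with hE₁
  set E₂ : ℝ := x * (L : ℝ) ^ (-(1 - Real.binEntropy (Lv / Real.log 3) / Real.log 2)) with hE₂
  have hE₁0 : 0 ≤ E₁ := by positivity
  have hE₂0 : 0 ≤ E₂ := by positivity
  have h2 : ∀ m ∈ range (K + 1), ∀ k ∈ range (N + 1),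
      (∑ y ∈ A k, ((G m y).card : ℝ) + ∑ y ∈ B m k, ((G m y).card : ℝ)) ≤
      (C₁ + C₂) * (Real.exp (ε * K) * (E₁ + E₂)) := by
    intro m hm k _
    rw [mem_range] at hm
    have hm' : m ≤ K := by omega
    have a1 := hC₁ x L K m k hx hL hKL hm' (G m) (hG m hm')
    have a2 : ∑ y ∈ B m k, ((G m y).card : ℝ) ≤ C₂ * (Real.exp (ε * K) * E₁) := by
      rw [hB]
      simp only
      by_cases hc : K - m < k
      · rw [if_pos hc]
        exact hC₂ x L K m k hx hL hKL hm' hc (G m) (hG m hm')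
      · rw [if_neg hc, sum_empty]
        positivity
    have a3 : 0 ≤ Real.exp (ε * K) * E₁ := by positivity
    have a4 : 0 ≤ Real.exp (ε * K) * E₂ := by positivity
    have a5 : ∑ y ∈ A k, ((G m y).card : ℝ) ≤ C₁ * (Real.exp (ε * K) * E₂) := a1
    have a6 : (C₁ + C₂) * (Real.exp (ε * K) * (E₁ + E₂)) = C₁ * (Real.exp (ε * K) * E₂) +
      C₂ * (Real.exp (ε * K) * E₁) + (C₁ * (Real.exp (ε * K) * E₁) +
      C₂ * (Real.exp (ε * K) * E₂)) := by ring
    have a7 : 0 ≤ C₁ * (Real.exp (ε * K) * E₁) := by positivity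
    have a8 : 0 ≤ C₂ * (Real.exp (ε * K) * E₂) := by positivity
    linarith
  refine h1.trans ((sum_le_sum fun m hm => sum_le_sum (h2 m hm)).trans ?_)
  rw [sum_const, sum_const, card_range, card_range, nsmul_eq_mul, nsmul_eq_mul]
  have h3 : ((N + 1 : ℕ) : ℝ) ≤ 3 * (Real.log x + 1) := by
    have h4 : ((Nat.log 2 x : ℕ) : ℝ) * Real.log 2 ≤ Real.log x := by
      rw [← Real.log_pow]
      exact Real.log_le_log (by positivity) (by exact_mod_cast Nat.pow_log_le_self 2 (by omega))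
    have h5 := Real.log_two_gt_d9
    have h6 : (0 : ℝ) ≤ Nat.log 2 x := Nat.cast_nonneg _
    rw [hN]
    push_cast
    nlinarith
  have h4 : 0 ≤ (C₁ + C₂) * (Real.exp (ε * K) * (E₁ + E₂)) := by positivity
  have h5 := mul_le_mul_of_nonneg_right h3 h4
  have h6 := mul_le_mul_of_nonneg_left h5 (show (0 : ℝ) ≤ ((K + 1 : ℕ) : ℝ) by positivity)
  refine h6.trans (le_of_eq ?_)
  push_cast
  ring

end Pool.Agent.Collatz3.SB
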