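import Pool.Agent.Collatz3.SBDefs

set_option autoImplicit false

/-!
Strong barrier words: basic facts.
-/

open Finset
open scoped Classical

namespace Pool.Agent.Collatz3.SB

open Pool.Agent.Collatz3.LT

variable [Par]

theorem Lv_pos : 0 < Lv := by
  have := Par.v_lt
  unfold Lv
  linarith

theorem Lv_le : Lv ≤ Real.log 2 := by
  have := Par.v_nonneg
  unfold Lv
  linarith

theorem hh_add (n n' l l' : ℕ) : hh (n + n') (l + l') = hh n l + hh n' l' := by
  unfold hh; push_cast; ring

theorem ht_append (w v : List Bool) : ht (w ++ v) = ht w + ht v := by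
  unfold ht; rw [List.length_append, jj_append, hh_add]

@[simp] theorem ht_nil : ht [] = 0 := by simp [ht, hh]
@[simp] theorem hh_zero : hh 0 0 = 0 := by simp [hh]

theorem ht_false : ht [false] = Lv := by simp [ht, hh]
theorem ht_true : ht [true] = Lv - Real.log 3 := by simp [ht, hh]

/-- relative and true heights -/
theorem LT_hh (n l : ℕ) : LT.hh n l = hh n l + n * Par.v := by
  unfold hh LT.hh Lv; ring

theorem LT_ht (w : List Bool) : LT.ht w = ht w + w.length * Par.v := LT_hh _ _

theorem hh_le_LT (n l : ℕ) : hh n l ≤ LT.hh n l := by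
  rw [LT_hh]
  have := mul_nonneg (Nat.cast_nonneg (α := ℝ) n) Par.v_nonneg
  linarith

theorem Bar.toLT {w : List Bool} (h : Bar w) : LT.Bar w := by
  intro i h1 h2
  have h3 := h i h1 h2
  have h4 := hh_le_LT (w.take i).length (jj (w.take i))
  unfold ht at h3
  unfold LT.ht
  linarith

theorem mem_BR {n : ℕ} {x : ℤ} {w : List Bool} : w ∈ BR n x ↔ w.length = n ∧ Bar w ∧ Read x w := by
  rw [BR, mem_filter, mem_WL]

theorem Bar_nil : Bar [] := by
  intro i h1 h2; simp at h2; omega

theorem Bar_take {w : List Bool} (h : Bar w) (i : ℕ) : Bar (w.take i) := by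
  intro k h1 h2
  rw [List.length_take] at h2
  rw [List.take_take, min_eq_left (by omega)]
  exact h k h1 (by omega)

theorem Bar.left {w v : List Bool} (h : Bar (w ++ v)) : Bar w := by
  have := Bar_take h w.length
  rwa [List.take_left] at this

theorem Bar.ht_nonneg {w : List Bool} (h : Bar w) : 0 ≤ ht w := by
  rcases Nat.eq_zero_or_pos w.length with h0 | h0
  · rw [List.length_eq_zero_iff.1 h0]; simp
  · have := h w.length h0 le_rfl
    rw [List.take_length] at this
    exact this.le

theorem ht_le_len {w : List Bool} : ht w ≤ w.length * Lv := by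
  unfold ht hh
  have : 0 ≤ (jj w : ℝ) * Real.log 3 := mul_nonneg (Nat.cast_nonneg _) log3_pos.le
  linarith

theorem BR_zero (x : ℤ) : BR 0 x = {[]} := by
  ext w
  rw [mem_BR, mem_singleton]
  constructor
  · rintro ⟨h, _, _⟩; exact List.length_eq_zero_iff.1 h
  · rintro rfl; exact ⟨rfl, Bar_nil, Read_nil x⟩

theorem sum_by_jj {n : ℕ} {x : ℤ} (F : List Bool → ℝ) (p : List Bool → Prop) :
    ∑ w ∈ (BR n x).filter p, F w =
      ∑ l ∈ range (n + 1), ∑ w ∈ (BR n x).filter (fun w => p w ∧ jj w = l), F w := by
  rw [← sum_fiberwise_of_maps_to (g := jj) (t := range (n + 1))]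
  · refine sum_congr rfl fun l _ => ?_
    rw [filter_filter]
  · intro w hw
    rw [mem_filter, mem_BR] at hw
    rw [mem_range]
    have := jj_le w
    omega

theorem AA_eq (θ : ℝ) (n : ℕ) (x : ℤ) :
    AA θ n x = ∑ l ∈ range (n + 1), Real.exp (-θ * hh n l) * NN n l x := by
  have h := sum_by_jj (n := n) (x := x) (fun w => Real.exp (-θ * ht w)) (fun _ => True)
  simp only [true_and, filter_true] at h
  unfold AA
  rw [h]
  refine sum_congr rfl fun l _ => ?_
  unfold NN
  rw [mul_comm, ← nsmul_eq_mul, ← sum_const]
  refine sum_congr rfl fun w hw => ?_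
  rw [mem_filter, mem_BR] at hw
  unfold ht
  rw [hw.1.1, hw.2]

/-- the words between consecutive cuts have a small total weight -/
theorem letter_sum (hLet : Letters) (θ : ℝ) : ∃ C : ℝ, 0 < C ∧ ∀ (n : ℕ) (x : ℤ),
    ∑ a ∈ (BR n x).filter (fun a => ht a ≤ Real.log 2), Real.exp (-θ * ht a) ≤
      C * Real.exp (Par.κ * n) := by
  obtain ⟨C, hC, h⟩ := hLet
  refine ⟨C * Real.exp (|θ| * Real.log 2), by positivity, fun n x => ?_⟩
  have h1 : ∀ w ∈ (BR n x).filter (fun w => ht w ≤ Real.log 2),
      Real.exp (-θ * ht w) ≤ Real.exp (|θ| * Real.log 2) := by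
    intro w hw
    rw [mem_filter, mem_BR] at hw
    apply Real.exp_le_exp.2
    have h2 := hw.1.2.1.ht_nonneg
    have h3 := neg_abs_le θ
    have h4 := hw.2
    have h5 := abs_nonneg θ
    nlinarith
  refine (sum_le_sum h1).trans ?_
  rw [sum_const, nsmul_eq_mul]
  have h2 := mul_le_mul_of_nonneg_right (h n x) (Real.exp_pos (|θ| * Real.log 2)).le
  linarith

/-! ### decomposition at cuts -/

theorem Bar_iff_suffix {w : List Bool} {t : ℕ} (ht' : t ≤ w.length) : Bar (w.drop t) ↔
    ∀ i, t < i → i ≤ w.length → ht (w.take t) < ht (w.take i) := by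
  have key : ∀ i, t ≤ i → ht (w.take i) = ht (w.take t) + ht ((w.drop t).take (i - t)) := by
    intro i hi
    rw [← ht_append]
    congr 1
    rw [← List.take_add]
    congr 1; omega
  constructor
  · intro h i h1 h2
    have := h (i - t) (by omega) (by rw [List.length_drop]; omega)
    rw [key i h1.le]; linarith
  · intro h i h1 h2
    rw [List.length_drop] at h2
    have := h (t + i) (by omega) (by omega)
    rw [key (t + i) (by omega), Nat.add_sub_cancel_left] at this
    linarith

theorem cut_pair {w : List Bool} (hw : Bar w) {t : ℕ} (htl : t < w.length) :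
    ∃ w1 a w3 : List Bool, w = w1 ++ (a ++ w3) ∧ Bar w1 ∧ Bar a ∧ Bar w3 ∧ ht a ≤ Real.log 2 ∧
      w1.length ≤ t ∧ t < w1.length + a.length ∧
      (∀ i, w1.length < i → i < w1.length + a.length → ¬ Bar (w.drop i)) := by
  -- the last cut up to `t`
  obtain ⟨c, hc, hcmax⟩ : ∃ c, (c ≤ t ∧ Bar (w.drop c)) ∧ ∀ i, i ≤ t → Bar (w.drop i) → i ≤ c := by
    have h0 : (0 ≤ t ∧ Bar (w.drop 0)) := ⟨Nat.zero_le t, by simpa using hw⟩
    have := Nat.findGreatest_spec (P := fun c => Bar (w.drop c)) (n := t) h0.1 h0.2
    refine ⟨_, ⟨Nat.findGreatest_le t, this⟩, fun i hi hB => Nat.le_findGreatest hi hB⟩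
  -- the first cut after `t`
  have hex : ∃ c', t < c' ∧ Bar (w.drop c') := ⟨w.length, htl, by simpa using Bar_nil⟩
  set c' := Nat.find hex with hc'
  obtain ⟨h1, h2⟩ := Nat.find_spec hex
  have hmin : ∀ i, t < i → Bar (w.drop i) → c' ≤ i := fun i hi hB => Nat.find_min' hex ⟨hi, hB⟩
  have hcl : c' ≤ w.length := hmin _ htl (by simpa using Bar_nil)
  have hno : ∀ i, c < i → i < c' → ¬ Bar (w.drop i) := by
    intro i hi1 hi2 hB
    rcases Nat.lt_or_ge t i with h | h
    · have := hmin i h hB; omega
    · have := hcmax i h hB; omega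
  rw [← hc'] at h1 h2
  have hd : w.drop c = (w.drop c).take (c' - c) ++ w.drop c' := by
    conv_lhs => rw [← List.take_append_drop (c' - c) (w.drop c)]
    rw [List.drop_drop]
    congr 2; omega
  have hl1 : (w.take c).length = c := by rw [List.length_take]; omega
  have hla : ((w.drop c).take (c' - c)).length = c' - c := by
    rw [List.length_take, List.length_drop]; omega
  refine ⟨w.take c, (w.drop c).take (c' - c), w.drop c', ?_, Bar_take hw c, Bar_take hc.2 _, h2, ?_,
    by rw [hl1]; exact hc.1, by rw [hl1, hla]; omega, ?_⟩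
  · rw [← hd, List.take_append_drop]
  · -- the height of a letter
    have key : ∀ i, c ≤ i → ht (w.take i) = ht (w.take c) + ht ((w.drop c).take (i - c)) := by
      intro i hi
      rw [← ht_append, ← List.take_add]
      congr 2; omega
    have hdown : ∀ m i, c' - i ≤ m → c < i → i ≤ c' → ht (w.take c') ≤ ht (w.take i) := by
      intro m
      induction m with
      | zero =>
        intro i hi h3 h4
        have : i = c' := by omega
        rw [this]
      | succ m ih =>
        intro i hi h3 h4
        rcases Nat.lt_or_ge i c' with h5 | h5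
        · have h6 := hno i h3 h5
          rw [Bar_iff_suffix (by omega)] at h6
          push Not at h6
          obtain ⟨i', h7, h8, h9⟩ := h6
          rcases Nat.lt_or_ge i' c' with h10 | h10
          · exact (ih i' (by omega) (by omega) h10.le).trans h9
          · rcases h10.eq_or_lt with h11 | h11
            · rw [h11]; exact h9
            · exact (((Bar_iff_suffix hcl).1 h2) i' h11 h8).le.trans h9
        · have : i = c' := by omega
          rw [this]
    have h6 := hdown _ (c + 1) le_rfl (by omega) (by omega)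
    have h7 := key c' (by omega)
    have h8 := key (c + 1) (by omega)
    rw [Nat.add_sub_cancel_left] at h8
    have h9 : ht ((w.drop c).take 1) ≤ Real.log 2 := by
      refine (ht_le_len).trans ?_
      have : ((w.drop c).take 1).length = 1 := by rw [List.length_take, List.length_drop]; omega
      rw [this]
      have := Lv_le
      push_cast
      linarith
    linarith
  · intro i hi1 hi2
    rw [hl1] at hi1 hi2
    rw [hla] at hi2
    exact hno i hi1 (by omega)

end Pool.Agent.Collatz3.SB
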