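import Mathlib

set_option autoImplicit false

/-!
Maximum excursion of 3x+1 trajectories: Doob's maximal inequality for the first `J` steps.
-/

namespace Pool.Agent.Collatz3.TX

open Finset

/-- The 3x+1 map on the natural numbers. -/
def T (n : ℕ) : ℕ := if n % 2 = 0 then n / 2 else (3 * n + 1) / 2

theorem T_even (m : ℕ) : T (2 * m) = m := by
  unfold T
  rw [if_pos (by omega)]
  omega

theorem T_odd (m : ℕ) : T (2 * m + 1) = 3 * m + 2 := by
  unfold T
  rw [if_neg (by omega)]
  omega

/-- The multiplier `3 ^ o / 2 ^ j` of the first `j` steps. -/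
noncomputable def mul : ℕ → ℕ → ℝ
  | 0, _ => 1
  | j + 1, n => (if n % 2 = 0 then 1 / 2 else 3 / 2) * mul j (T n)

/-- Some multiplier among the first `J` steps exceeds `l`. -/
def bad : ℕ → ℝ → ℕ → Prop
  | 0, l, _ => l < 1
  | J + 1, l, n => l < 1 ∨ bad J (if n % 2 = 0 then 2 * l else 2 / 3 * l) (T n)

theorem mul_succ (j n : ℕ) : mul (j + 1) n =
    (if n % 2 = 0 then 1 / 2 else 3 / 2) * mul j (T n) := rfl

theorem bad_succ (J : ℕ) (l : ℝ) (n : ℕ) : bad (J + 1) l n ↔
    (l < 1 ∨ bad J (if n % 2 = 0 then 2 * l else 2 / 3 * l) (T n)) := Iff.rfl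

theorem bad_of_mul {J : ℕ} : ∀ {l : ℝ} {n j : ℕ}, j ≤ J → l < mul j n → bad J l n := by
  induction J with
  | zero =>
    intro l n j hj h
    obtain rfl : j = 0 := by omega
    simpa [bad, mul] using h
  | succ J ih =>
    intro l n j hj h
    unfold bad
    rcases j with _ | j
    · left
      simpa [mul] using h
    · right
      apply ih (j := j) (by omega)
      unfold mul at h
      split_ifs with h1
      · rw [if_pos h1] at h
        linarith
      · rw [if_neg h1] at h
        linarith

open Classical in
/-- Doob's maximal inequality along a progression `q m + r`, `q` odd. -/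
theorem doob (J : ℕ) : ∀ (l : ℝ) (q r Y : ℕ), 0 < l → q % 2 = 1 →
    (((range Y).filter fun m => bad J l (q * m + r)).card : ℝ) ≤ Y / l + (2 ^ J - 1) := by
  induction J with
  | zero =>
    intro l q r Y hl hq
    simp only [bad, pow_zero, sub_self, add_zero]
    by_cases h : l < 1
    · have h1 : (((range Y).filter fun _ => l < 1).card : ℝ) ≤ Y := by
        have := card_filter_le (range Y) (fun _ => l < 1)
        rw [card_range] at this
        exact_mod_cast this
      refine h1.trans ?_
      rw [le_div_iff₀ hl]
      nlinarith [Nat.cast_nonneg (α := ℝ) Y]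
    · simp only [h, filter_false, card_empty, Nat.cast_zero]
      positivity
  | succ J ih =>
    intro l q r Y hl hq
    by_cases h : l < 1
    · have h1 : (((range Y).filter fun m => bad (J + 1) l (q * m + r)).card : ℝ) ≤ Y := by
        have := card_filter_le (range Y) (fun m => bad (J + 1) l (q * m + r))
        rw [card_range] at this
        exact_mod_cast this
      have h2 : (Y : ℝ) ≤ Y / l := by
        rw [le_div_iff₀ hl]
        nlinarith [Nat.cast_nonneg (α := ℝ) Y]
      have h3 : (0 : ℝ) ≤ 2 ^ (J + 1) - 1 := by
        have : (1 : ℝ) ≤ 2 ^ (J + 1) := one_le_pow₀ (by norm_num)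
        linarith
      linarith
    · push Not at h
      -- `e` is the parity of `m` for which `q m + r` is even
      obtain ⟨e, he⟩ : ∃ e, e = r % 2 := ⟨_, rfl⟩
      have he2 : e < 2 := by omega
      -- the two halves
      obtain ⟨r0, hr0⟩ : ∃ r0, q * e + r = 2 * r0 := by
        refine ⟨(q * e + r) / 2, ?_⟩
        have : (q * e + r) % 2 = 0 := by
          rw [Nat.add_mod, Nat.mul_mod, hq]
          omega
        omega
      obtain ⟨r1, hr1⟩ : ∃ r1, q * (1 - e) + r = 2 * r1 + 1 := by
        refine ⟨(q * (1 - e) + r) / 2, ?_⟩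
        have : (q * (1 - e) + r) % 2 = 1 := by
          rw [Nat.add_mod, Nat.mul_mod, hq]
          omega
        omega
      have hY : ∀ f : ℕ → Prop, (((range Y).filter f).card : ℝ) ≤
          (((range ((Y + 1) / 2)).filter fun m => f (2 * m + e)).card : ℝ) +
          (((range ((Y + 1) / 2)).filter fun m => f (2 * m + (1 - e))).card : ℝ) := by
        intro f
        have h1 : (range Y).filter f ⊆
            (((range ((Y + 1) / 2)).filter fun m => f (2 * m + e)).image fun m => 2 * m + e) ∪
            (((range ((Y + 1) / 2)).filter fun m => f (2 * m + (1 - e))).image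
              fun m => 2 * m + (1 - e)) := by
          intro x hx
          rw [mem_filter, mem_range] at hx
          rw [mem_union, mem_image, mem_image]
          by_cases hp : x % 2 = e
          · left
            refine ⟨x / 2, ?_, by omega⟩
            rw [mem_filter, mem_range]
            have : 2 * (x / 2) + e = x := by omega
            rw [this]
            exact ⟨by omega, hx.2⟩
          · right
            refine ⟨x / 2, ?_, by omega⟩
            rw [mem_filter, mem_range]
            have : 2 * (x / 2) + (1 - e) = x := by omega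
            rw [this]
            exact ⟨by omega, hx.2⟩
        have h2 := (card_le_card h1).trans (card_union_le _ _)
        have h3 := h2.trans (add_le_add card_image_le card_image_le)
        exact_mod_cast h3
      refine (hY _).trans ?_
      have k0 : ∀ m, bad (J + 1) l (q * (2 * m + e) + r) ↔ bad J (2 * l) (q * m + r0) := by
        intro m
        have h1 : q * (2 * m + e) + r = 2 * (q * m + r0) := by
          calc q * (2 * m + e) + r = 2 * (q * m) + (q * e + r) := by ring
            _ = 2 * (q * m + r0) := by rw [hr0]; ring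
        rw [h1, bad_succ, if_pos (by omega), T_even]
        constructor
        · rintro (h2 | h2)
          · linarith
          · exact h2
        · exact fun h2 => Or.inr h2
      have k1 : ∀ m, bad (J + 1) l (q * (2 * m + (1 - e)) + r) ↔
          bad J (2 / 3 * l) ((3 * q) * m + (3 * r1 + 2)) := by
        intro m
        have h1 : q * (2 * m + (1 - e)) + r = 2 * (q * m + r1) + 1 := by
          calc q * (2 * m + (1 - e)) + r = 2 * (q * m) + (q * (1 - e) + r) := by ring
            _ = 2 * (q * m + r1) + 1 := by rw [hr1]; ring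
        rw [h1, bad_succ, if_neg (by omega), T_odd]
        have h2 : 3 * (q * m + r1) + 2 = (3 * q) * m + (3 * r1 + 2) := by ring
        rw [h2]
        constructor
        · rintro (h3 | h3)
          · linarith
          · exact h3
        · exact fun h3 => Or.inr h3
      simp only [k0, k1]
      have a0 := ih (2 * l) q r0 ((Y + 1) / 2) (by linarith) hq
      have a1 := ih (2 / 3 * l) (3 * q) (3 * r1 + 2) ((Y + 1) / 2) (by linarith) (by omega)
      have hc : (((Y + 1) / 2 : ℕ) : ℝ) ≤ (Y + 1) / 2 := by
        have := Nat.cast_div_le (α := ℝ) (m := Y + 1) (n := 2)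
        push_cast at this
        exact this
      have b0 : (((Y + 1) / 2 : ℕ) : ℝ) / (2 * l) ≤ ((Y + 1) / 2) / (2 * l) :=
        div_le_div_of_nonneg_right hc (by linarith)
      have b1 : (((Y + 1) / 2 : ℕ) : ℝ) / (2 / 3 * l) ≤ ((Y + 1) / 2) / (2 / 3 * l) :=
        div_le_div_of_nonneg_right hc (by linarith)
      have b2 : ((Y : ℝ) + 1) / 2 / (2 * l) + ((Y : ℝ) + 1) / 2 / (2 / 3 * l) =
          Y / l + 1 / l := by
        field_simp
        ring
      have b3 : 1 / l ≤ 1 := by
        rw [div_le_one hl]
        exact h
      have b4 : (2 : ℝ) ^ (J + 1) = 2 * 2 ^ J := by ring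
      rw [b4]
      linarith

theorem mul_pos' : ∀ (j n : ℕ), 0 < mul j n := by
  intro j
  induction j with
  | zero => intro n; simp [mul]
  | succ j ih =>
    intro n
    unfold mul
    have := ih (T n)
    split_ifs <;> positivity

/-- The iterates against the multiplier. -/
theorem iter_le : ∀ (j n : ℕ), ((T^[j] n : ℕ) : ℝ) ≤ mul j n * (n + 2 ^ j) := by
  intro j
  induction j with
  | zero =>
    intro n
    simp [mul]
  | succ j ih =>
    intro n
    rw [Function.iterate_succ_apply]
    have h := ih (T n)
    have hp := mul_pos' j (T n)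
    refine h.trans ?_
    rw [mul_succ]
    rcases Nat.even_or_odd' n with ⟨m, hm | hm⟩
    · subst hm
      rw [T_even, if_pos (by omega)]
      push_cast
      rw [T_even] at hp
      have e : 1 / 2 * mul j m * (2 * (m : ℝ) + 2 ^ (j + 1)) = mul j m * (m + 2 ^ j) := by ring
      rw [e]
    · subst hm
      rw [T_odd, if_neg (by omega)]
      push_cast
      rw [T_odd] at hp
      have e : 3 / 2 * mul j (3 * m + 2) * (2 * (m : ℝ) + 1 + 2 ^ (j + 1)) =
          mul j (3 * m + 2) * (3 * m + 3 / 2 + 3 * 2 ^ j) := by ring
      rw [e]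
      apply mul_le_mul_of_nonneg_left _ hp.le
      have : (1 : ℝ) ≤ 2 ^ j := one_le_pow₀ (by norm_num)
      linarith

/-- If some iterate among the first `J` exceeds `l (1 + η) n`, then `n` is bad. -/
theorem bad_of_exceed {J j n : ℕ} (hj : j ≤ J) {l η : ℝ} (hη : 0 ≤ η)
    (hn : (2 : ℝ) ^ J ≤ η * n)
    (h : l * (1 + η) * n < ((T^[j] n : ℕ) : ℝ)) : bad J l n := by
  apply bad_of_mul hj
  have h1 := iter_le j n
  have hp := mul_pos' j n
  have h2 : (2 : ℝ) ^ j ≤ 2 ^ J := pow_le_pow_right₀ (by norm_num) hj
  have h3 : mul j n * (n + 2 ^ j) ≤ mul j n * ((1 + η) * n) :=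
    mul_le_mul_of_nonneg_left (by linarith) hp.le
  have h4 : l * ((1 + η) * n) < mul j n * ((1 + η) * n) := by
    have e : l * (1 + η) * n = l * ((1 + η) * n) := by ring
    rw [e] at h
    linarith
  by_contra h5
  push Not at h5
  have h6 : 0 ≤ (1 + η) * (n : ℝ) := by positivity
  have h7 := mul_le_mul_of_nonneg_right h5 h6
  linarith

end Pool.Agent.Collatz3.TX
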