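import Mathlib
import Pool.Agent.Collatz3.FWTyp

set_option autoImplicit false

/-!
Maximum excursion of 3x+1 trajectories: descending one scale.
-/

namespace Pool.Agent.Collatz3.TX

open Finset Filter
open Pool.Agent.Collatz3.Mix (words mem_words)
open Pool.Agent.Collatz3.PD
open Pool.Agent.Collatz3.FW


/-- The integers whose trajectory is bounded above but exceeds `Z`. -/
def B (Z : ℝ) : Set ℤ :=
  {b | (∃ M : ℤ, ∀ j : ℕ, Helper14.T^[j] b ≤ M) ∧ ∃ j : ℕ, 1 ≤ j ∧ Z < ((Helper14.T^[j] b : ℤ) : ℝ)}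

theorem B_step {Z : ℝ} {n : ℤ} (h : Helper14.T n ∈ B Z) : n ∈ B Z := by
  obtain ⟨⟨M, hM⟩, j, hj, hZ⟩ := h
  refine ⟨⟨max n M, fun i => ?_⟩, j + 1, by omega, ?_⟩
  · rcases i with _ | i
    · exact le_max_left _ _
    · rw [Function.iterate_succ_apply]
      exact (hM i).trans (le_max_right _ _)
  · rw [Function.iterate_succ_apply]
    exact hZ

theorem B_up {Z : ℝ} : ∀ (j : ℕ) {n : ℤ}, Helper14.T^[j] n ∈ B Z → n ∈ B Z := by
  intro j
  induction j with
  | zero => intro n h; exact h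
  | succ j ih =>
    intro n h
    rw [Function.iterate_succ_apply] at h
    exact B_step (ih h)

theorem B_down {Z : ℝ} {j : ℕ} {n : ℤ} (h : n ∈ B Z)
    (hle : ∀ i, i ≤ j → ((Helper14.T^[i] n : ℤ) : ℝ) ≤ Z) : Helper14.T^[j] n ∈ B Z := by
  obtain ⟨⟨M, hM⟩, i, hi, hZ⟩ := h
  have hij : j < i := by
    by_contra h1
    exact absurd hZ (not_lt.2 (hle i (by omega)))
  refine ⟨⟨M, fun l => ?_⟩, i - j, by omega, ?_⟩
  · rw [← Function.iterate_add_apply]
    exact hM _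
  · rw [← Function.iterate_add_apply]
    have : i - j + j = i := by omega
    rw [this]
    exact hZ

/-- The path of a word is bounded. -/
theorem path_bound {a b : ℤ} {w : List ℕ} (h : Up a w b) (ha : 0 < a) (hw : ∀ i ∈ w, 1 ≤ i) :
    ∀ j ≤ w.sum, ((Helper14.T^[j] b : ℤ) : ℝ) + 1 ≤ (3 / 2) ^ w.length * ((b : ℝ) + 1) := by
  induction w generalizing a with
  | nil =>
    intro j hj
    have : a = b := h
    rw [List.sum_nil] at hj
    obtain rfl : j = 0 := by omega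
    simp
  | cons i w ih =>
    obtain ⟨x, hx, hu⟩ := h
    have hi := hw i List.mem_cons_self
    have h1 := Pool.Agent.Helper14.two_le_two_pow hi
    have hx0 : 0 < x := by
      have h2 : (2 : ℤ) * 1 ≤ 2 ^ i * a := by
        apply mul_le_mul h1 (by omega) (by norm_num) (by positivity)
      omega
    have hw' : ∀ j ∈ w, 1 ≤ j := fun j hj => hw j (List.mem_cons_of_mem _ hj)
    have ih' := ih hu hx0 hw'
    have hb0 : 0 < b := Pool.Agent.Helper14.up_pos hu hx0 hw'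
    have hb1 : (0 : ℝ) < (b : ℝ) + 1 := by
      have : (0 : ℝ) < b := by exact_mod_cast hb0
      linarith
    have hpow : (0 : ℝ) < (3 / 2) ^ w.length * ((b : ℝ) + 1) := by positivity
    intro j hj
    rw [List.sum_cons] at hj
    rw [List.length_cons, pow_succ]
    by_cases hjw : j ≤ w.sum
    · have := ih' j hjw
      nlinarith
    · have hxw := Pool.Agent.Helper14.up_iter hu hw'
      have hxe := ih' w.sum le_rfl
      rw [hxw] at hxe
      obtain ⟨l, hl, hl2⟩ : ∃ l, j = (l + 1) + w.sum ∧ l + 1 ≤ i :=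
        ⟨j - w.sum - 1, by omega, by omega⟩
      rw [hl, Function.iterate_add_apply, hxw]
      obtain ⟨i', hi'⟩ : ∃ i', i = i' + 1 := ⟨i - 1, by omega⟩
      have hT : Helper14.T x = 2 ^ i' * a := by
        have e : (2 : ℤ) ^ (i' + 1) * a = 2 * (2 ^ i' * a) := by ring
        rw [hi'] at hx
        unfold Pool.Agent.Helper14.T
        rw [if_neg (by omega)]
        omega
      have hTl : Helper14.T^[l + 1] x = 2 ^ (i' - l) * a := by
        rw [Function.iterate_succ_apply, hT]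
        have e : (2 : ℤ) ^ i' * a = 2 ^ l * (2 ^ (i' - l) * a) := by
          rw [← mul_assoc, ← pow_add]
          congr 2
          omega
        rw [e, Pool.Agent.Helper14.T_iter_pow]
      rw [hTl]
      have h3 : (2 : ℤ) ^ (i' - l) * a ≤ 2 ^ i' * a := by
        apply mul_le_mul_of_nonneg_right _ ha.le
        exact pow_le_pow_right₀ (by norm_num) (by omega)
      have h4 : 2 * ((2 : ℤ) ^ i' * a) = 3 * x + 1 := by
        rw [← hx, hi']
        ring
      have h5 : ((2 ^ (i' - l) * a : ℤ) : ℝ) ≤ ((2 ^ i' * a : ℤ) : ℝ) := by exact_mod_cast h3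
      have h6 : 2 * ((2 ^ i' * a : ℤ) : ℝ) = 3 * (x : ℝ) + 1 := by exact_mod_cast h4
      linarith

open Classical in
/-- The number of odd `n ≤ y` in `B Z`. -/
noncomputable def N (Z y : ℝ) : ℝ := ((Od 1 y).filter fun n => n ∈ B Z).card

theorem N_nonneg (Z y : ℝ) : 0 ≤ N Z y := Nat.cast_nonneg _

theorem ratio_le {l s : ℕ} (h : 199 * l ≤ 100 * s) (hl : 950 ≤ l) :
    (3 : ℝ) ^ l / 2 ^ s * 2 ^ (7 * l / 18 + 1) ≤ 1 := by
  rw [div_mul_eq_mul_div, div_le_one (by positivity)]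
  have h1 : ((3 : ℝ) ^ l * 2 ^ (7 * l / 18 + 1)) ^ 100 ≤ ((2 : ℝ) ^ s) ^ 100 := by
    calc ((3 : ℝ) ^ l * 2 ^ (7 * l / 18 + 1)) ^ 100 =
        (3 ^ 100) ^ l * 2 ^ ((7 * l / 18 + 1) * 100) := by
          rw [mul_pow, ← pow_mul, ← pow_mul, ← pow_mul, mul_comm l 100]
      _ ≤ (3 ^ 100) ^ l * 2 ^ (40 * l) := by
          apply mul_le_mul_of_nonneg_left _ (by positivity)
          exact pow_le_pow_right₀ (by norm_num) (by omega)
      _ = (3 ^ 100 * 2 ^ 40) ^ l := by rw [mul_pow, pow_mul (2 : ℝ) 40 l]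
      _ ≤ (2 ^ 199) ^ l := pow_le_pow_left₀ (by positivity) (by norm_num) _
      _ = 2 ^ (199 * l) := by rw [← pow_mul]
      _ ≤ 2 ^ (s * 100) := pow_le_pow_right₀ (by norm_num) (by omega)
      _ = ((2 : ℝ) ^ s) ^ 100 := by rw [pow_mul]
  exact le_of_pow_le_pow_left₀ (by norm_num) (by positivity) h1

open Classical in
/-- The sum of the hand-off inequality. -/
theorem hit_le {k : ℕ} (hN : Num k) {X : ℝ} (hX : 2 ^ (4 * k) ≤ X) {Z ε : ℝ} (hε0 : 0 ≤ ε)
    (hε1 : ε ≤ 1) (h : ∀ y : ℝ, 1 ≤ y → y * 2 ^ (k / 3) ≤ X → N Z y ≤ ε * y) :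
    (((Od 1 X).filter fun n => Hit (goodV (II k) k k) (fun _ => B Z) n).card : ℝ) ≤
      ε * X + 2 * (X / (k : ℝ) ^ 7) := by
  have hbig := hN.big
  have hk0 : (0 : ℝ) < k := by exact_mod_cast (by omega : 0 < k)
  have hX0 : (0 : ℝ) < X := lt_of_lt_of_le (by positivity) hX
  have hX3 : (2 : ℝ) ^ (3 * k) ≤ X :=
    le_trans (pow_le_pow_right₀ (by norm_num) (by omega)) hX
  obtain ⟨l, hl⟩ : ∃ l, l = k - k / 20 := ⟨_, rfl⟩
  have h1 := handoff hN hX3 (e := 1) (Or.inl rfl) (fun _ => B Z) (fun _ => B Z)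
    (fun u hu s b hb hr hB => by
      have hpos : ∀ i ∈ u, 1 ≤ i := fun i hi =>
        ((mem_words.1 (goodV_subset _ _ _ hu)).2 i hi).1
      apply B_up u.sum
      rw [T_en hr hpos]
      exact hB)
  refine h1.trans ?_
  rw [← hl]
  have hk950 : 950 ≤ l := by omega
  have h2 : ∀ v ∈ goodV (II k) k l,
      (((Od 1 (3 ^ l * X / 2 ^ v.sum + 2 ^ k)).filter fun n => n ∈ B Z).card : ℝ) / 3 ^ l ≤
        ε * X * (1 / 2) ^ v.sum + 2 ^ k := by
    intro v hv
    rw [goodV, mem_filter] at hv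
    obtain ⟨y, hy⟩ : ∃ y : ℝ, y = 3 ^ l * X / 2 ^ v.sum + 2 ^ k := ⟨_, rfl⟩
    have hy1 : 1 ≤ y := by
      rw [hy]
      have e1 : (1 : ℝ) ≤ 2 ^ k := one_le_pow₀ (by norm_num)
      have e2 : 0 ≤ 3 ^ l * X / 2 ^ v.sum := by positivity
      linarith
    have hy2 : y * 2 ^ (k / 3) ≤ X := by
      have e1 := ratio_le hv.2.1 hk950
      have e2 : (2 : ℝ) ^ (k / 3) * 2 ≤ 2 ^ (7 * l / 18 + 1) := by
        rw [← pow_succ]
        exact pow_le_pow_right₀ (by norm_num) (by omega)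
      have e3 : 3 ^ l * X / 2 ^ v.sum * 2 ^ (k / 3) ≤ X / 2 := by
        have e4 : (3 : ℝ) ^ l / 2 ^ v.sum * (2 ^ (k / 3) * 2) ≤ 1 :=
          le_trans (mul_le_mul_of_nonneg_left e2 (by positivity)) e1
        have e5 := mul_le_mul_of_nonneg_left e4 hX0.le
        have e6 : X * ((3 : ℝ) ^ l / 2 ^ v.sum * (2 ^ (k / 3) * 2)) =
            3 ^ l * X / 2 ^ v.sum * 2 ^ (k / 3) * 2 := by ring
        rw [e6] at e5
        linarith
      have e7 : (2 : ℝ) ^ k * 2 ^ (k / 3) ≤ X / 2 := by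
        rw [le_div_iff₀ (by norm_num), ← pow_add, ← pow_succ]
        exact le_trans (pow_le_pow_right₀ (by norm_num) (by omega)) hX
      rw [hy, add_mul]
      linarith
    have h3 := h y hy1 hy2
    unfold N at h3
    rw [← hy, div_le_iff₀ (by positivity)]
    refine h3.trans ?_
    have e1 : (1 : ℝ) ≤ 3 ^ l := one_le_pow₀ (by norm_num)
    have e2 : (2 : ℝ) ^ k * 1 ≤ 2 ^ k * 3 ^ l := mul_le_mul_of_nonneg_left e1 (by positivity)
    have e3 : ε * 2 ^ k ≤ 1 * 2 ^ k := mul_le_mul_of_nonneg_right hε1 (by positivity)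
    rw [hy, one_div, inv_pow]
    have e4 : ε * (3 ^ l * X / 2 ^ v.sum + 2 ^ k) = ε * X * (2 ^ v.sum)⁻¹ * 3 ^ l + ε * 2 ^ k := by
      rw [mul_add]
      congr 1
      rw [div_eq_mul_inv]
      ring
    rw [e4, add_mul]
    linarith
  have h3 := sum_le_sum h2
  rw [sum_add_distrib, ← mul_sum, sum_const, nsmul_eq_mul] at h3
  have h4 : ∑ v ∈ goodV (II k) k l, (1 / 2 : ℝ) ^ v.sum ≤ 1 := by
    have e1 : P (goodV (II k) k l) ≤ P (words (II k) l) := P_mono (goodV_subset _ _ _)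
    rw [P_words] at e1
    exact e1.trans (pow_le_one₀ (Z_nonneg _) (Z_le_one _))
  have h5 : ((goodV (II k) k l).card : ℝ) ≤ 2 ^ (201 * k / 100) := by
    apply card_words_le (goodV_subset (II k) k l)
    intro w hw
    rw [goodV, mem_filter] at hw
    omega
  have h6 : ((goodV (II k) k l).card : ℝ) * 2 ^ k ≤ X / (k : ℝ) ^ 7 := by
    rw [le_div_iff₀ (by positivity)]
    have e1 := hN.num
    have e2 : (1 : ℝ) ≤ (5 / 4) ^ k := one_le_pow₀ (by norm_num)
    have e3 : (1 : ℝ) ≤ k := by exact_mod_cast (by omega : 1 ≤ k)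
    have e4 : 2 ^ (201 * k / 100) * (k : ℝ) ^ 7 ≤
        ((5 / 4 : ℝ) ^ k + 2) * 2 ^ (201 * k / 100) * (4 * (k : ℝ) ^ 8) := by
      have e5 : (k : ℝ) ^ 7 ≤ 4 * (k : ℝ) ^ 8 := by
        have : (k : ℝ) ^ 7 * 1 ≤ (k : ℝ) ^ 7 * k := mul_le_mul_of_nonneg_left e3 (by positivity)
        have e6 : (k : ℝ) ^ 8 = (k : ℝ) ^ 7 * k := by ring
        rw [e6]
        have : 0 ≤ (k : ℝ) ^ 7 * k := by positivity
        linarith
      have e6 : 1 * (2 : ℝ) ^ (201 * k / 100) ≤ ((5 / 4 : ℝ) ^ k + 2) * 2 ^ (201 * k / 100) :=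
        mul_le_mul_of_nonneg_right (by linarith) (by positivity)
      rw [one_mul] at e6
      exact mul_le_mul e6 e5 (by positivity) (by positivity)
    calc ((goodV (II k) k l).card : ℝ) * 2 ^ k * (k : ℝ) ^ 7
        ≤ 2 ^ (201 * k / 100) * 2 ^ k * (k : ℝ) ^ 7 := by
          apply mul_le_mul_of_nonneg_right _ (by positivity)
          exact mul_le_mul_of_nonneg_right h5 (by positivity)
      _ = 2 ^ (201 * k / 100) * (k : ℝ) ^ 7 * 2 ^ k := by ring
      _ ≤ 2 ^ (3 * k) * 2 ^ k := mul_le_mul_of_nonneg_right (e4.trans e1) (by positivity)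
      _ = 2 ^ (4 * k) := by rw [← pow_add]; congr 1; omega
      _ ≤ X := hX
  have h7 : ε * X * ∑ v ∈ goodV (II k) k l, (1 / 2 : ℝ) ^ v.sum ≤ ε * X * 1 :=
    mul_le_mul_of_nonneg_left h4 (by positivity)
  linarith

open Classical in
/-- One scale down. -/
theorem step {k : ℕ} (hN : Num k) {Z ε : ℝ} (hε0 : 0 ≤ ε) (hε1 : ε ≤ 1)
    (hZ : (2 : ℝ) ^ (41 * (k + 1)) ≤ Z)
    (h : ∀ y : ℝ, 1 ≤ y → y < 2 ^ (40 * k) → N Z y ≤ ε * y) :
    ∀ X : ℝ, 1 ≤ X → X < 2 ^ (40 * (k + 1)) → N Z X ≤ (ε + 3 / (k : ℝ) ^ 7) * X := by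
  intro X hX1 hX
  have hbig := hN.big
  have hk0 : (0 : ℝ) < k := by exact_mod_cast (by omega : 0 < k)
  by_cases hlt : X < 2 ^ (40 * k)
  · refine (h X hX1 hlt).trans ?_
    apply mul_le_mul_of_nonneg_right _ (by linarith)
    have : 0 ≤ 3 / (k : ℝ) ^ 7 := by positivity
    linarith
  · push Not at hlt
    have hX4 : (2 : ℝ) ^ (4 * k) ≤ X :=
      le_trans (pow_le_pow_right₀ (by norm_num) (by omega)) hlt
    have hX3 : (2 : ℝ) ^ (3 * k) ≤ X :=
      le_trans (pow_le_pow_right₀ (by norm_num) (by omega)) hlt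
    have h1 := hit_le hN hX4 (Z := Z) hε0 hε1 (fun y hy1 hy2 => by
      apply h y hy1
      have e1 : (2 : ℝ) ^ (40 * (k + 1)) ≤ 2 ^ (40 * k) * 2 ^ (k / 3) := by
        rw [← pow_add]
        exact pow_le_pow_right₀ (by norm_num) (by omega)
      have e2 : y * 2 ^ (k / 3) < 2 ^ (40 * k) * 2 ^ (k / 3) := lt_of_le_of_lt hy2 (hX.trans_le e1)
      exact lt_of_mul_lt_mul_right e2 (by positivity))
    have h2 := typical hN hX3 (e := 1) (Or.inl rfl)
    have h3 : (Od 1 X).filter (fun n => n ∈ B Z) ⊆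
        (Od 1 X).filter (fun n => Hit (goodV (II k) k k) (fun _ => B Z) n) ∪
        (Od 1 X).filter (fun n => ¬ Hit (goodV (II k) k k) (fun _ => Set.univ) n) := by
      intro n hn
      rw [mem_filter] at hn
      rw [mem_union, mem_filter, mem_filter]
      by_cases hh : Hit (goodV (II k) k k) (fun _ => Set.univ) n
      · left
        refine ⟨hn.1, ?_⟩
        obtain ⟨w, hw, b, hb, hr, hen, -⟩ := hh
        refine ⟨w, hw, b, hb, hr, hen, ?_⟩
        have hpos : ∀ i ∈ w, 1 ≤ i := fun i hi =>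
          ((mem_words.1 (goodV_subset _ _ _ hw)).2 i hi).1
        have hlen := words_length (goodV_subset _ _ _ hw)
        have hT := T_en hr hpos
        have hnX := (mem_Od (Or.inl rfl)).1 hn.1
        rw [one_mul] at hnX
        obtain ⟨hn1, hn2, hn3⟩ := hnX
        have hb0 : 0 < b := by
          have hb1 : b ≠ 0 := by rintro rfl; norm_num at hb
          have h4 := en_sign hr hb1 hpos
          rw [hen] at h4
          exact pos_of_mul_pos_right (by linarith) hn2.le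
        rw [← hT, hen]
        apply B_down hn.2
        intro i hi
        have h5 := path_bound (up_en hr) hb0 hpos i hi
        rw [hen, hlen] at h5
        have h6 : (3 / 2 : ℝ) ^ k ≤ 2 ^ k := pow_le_pow_left₀ (by norm_num) (by norm_num) _
        have h7 : (n : ℝ) + 1 ≤ 2 * X := by linarith
        have h8 : (3 / 2 : ℝ) ^ k * ((n : ℝ) + 1) ≤ 2 ^ k * (2 * X) := by
          apply mul_le_mul h6 h7 _ (by positivity)
          have : (0 : ℝ) < n := by exact_mod_cast hn2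
          linarith
        have h9 : (2 : ℝ) ^ k * (2 * X) ≤ 2 ^ (41 * (k + 1)) := by
          calc (2 : ℝ) ^ k * (2 * X) ≤ 2 ^ k * (2 * 2 ^ (40 * (k + 1))) := by
                apply mul_le_mul_of_nonneg_left _ (by positivity)
                linarith
            _ = 2 ^ (41 * (k + 1)) := by
                rw [← pow_succ', ← pow_add]
                congr 1
                omega
        linarith
      · right
        exact ⟨hn.1, hh⟩
    have h4 := (card_le_card h3).trans (card_union_le _ _)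
    have h5 : N Z X ≤
        (((Od 1 X).filter fun n => Hit (goodV (II k) k k) (fun _ => B Z) n).card : ℝ) +
        (((Od 1 X).filter fun n => ¬ Hit (goodV (II k) k k) (fun _ => Set.univ) n).card : ℝ) := by
      unfold N
      exact_mod_cast h4
    have e1 : (ε + 3 / (k : ℝ) ^ 7) * X = ε * X + 3 * (X / (k : ℝ) ^ 7) := by ring
    rw [e1]
    linarith

/-- The finite trajectories starting below `Y` are uniformly bounded. -/
theorem exists_Z (Y : ℝ) : ∃ Z₀ : ℝ, ∀ n ∈ Od 1 Y, (∃ M : ℤ, ∀ j : ℕ, Helper14.T^[j] n ≤ M) →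
    ∀ j : ℕ, ((Helper14.T^[j] n : ℤ) : ℝ) ≤ Z₀ := by
  have h1 : ∀ n : ℤ, ∃ z : ℝ, (∃ M : ℤ, ∀ j : ℕ, Helper14.T^[j] n ≤ M) →
      ∀ j : ℕ, ((Helper14.T^[j] n : ℤ) : ℝ) ≤ z := by
    intro n
    by_cases h : ∃ M : ℤ, ∀ j : ℕ, Helper14.T^[j] n ≤ M
    · obtain ⟨M, hM⟩ := h
      exact ⟨M, fun _ j => by exact_mod_cast hM j⟩
    · exact ⟨0, fun h' => absurd h' h⟩
  choose z hz using h1
  refine ⟨∑ n ∈ Od 1 Y, |z n|, fun n hn h j => ?_⟩
  refine (hz n h j).trans ((le_abs_self _).trans ?_)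
  exact single_le_sum (f := fun n => |z n|) (fun _ _ => abs_nonneg _) hn

/-- Few integers with a bounded trajectory exceed `Z` much larger than themselves. -/
theorem few {k₀ : ℕ} (hN : ∀ k, k₀ ≤ k → Num k) : ∃ Z₀ : ℝ, ∀ Z : ℝ, Z₀ ≤ Z →
    ∀ k, k₀ ≤ k → (2 : ℝ) ^ (41 * k) ≤ Z → ∀ y : ℝ, 1 ≤ y → y < 2 ^ (40 * k) →
      N Z y ≤ (1 / (k₀ : ℝ)) * y := by
  classical
  have hk₀ := (hN k₀ le_rfl).big
  have hk0 : (1000 : ℝ) ≤ k₀ := by exact_mod_cast hk₀
  obtain ⟨Z₀, hZ₀⟩ := exists_Z (2 ^ (40 * k₀))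
  refine ⟨Z₀, fun Z hZ => ?_⟩
  have key : ∀ k, k₀ ≤ k → (2 : ℝ) ^ (41 * k) ≤ Z → ∀ y : ℝ, 1 ≤ y → y < 2 ^ (40 * k) →
      N Z y ≤ (1 / (k₀ : ℝ) - 1 / k) * y := by
    intro k hk
    induction k, hk using Nat.le_induction with
    | base =>
      intro _ y hy1 hy2
      have : N Z y = 0 := by
        unfold N
        rw [Nat.cast_eq_zero, card_eq_zero, filter_eq_empty_iff]
        intro n hn hB
        have hn' : n ∈ Od 1 (2 ^ (40 * k₀)) := Od_mono 1 hy2.le hn
        obtain ⟨hfin, j, hj, hlt⟩ := hB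
        have := hZ₀ n hn' hfin j
        linarith
      rw [this, sub_self, zero_mul]
    | succ k hk ih =>
      intro hkZ
      have hkN := hN k hk
      have hk1 : (1000 : ℝ) ≤ k := by exact_mod_cast hkN.big
      have hkk : (k₀ : ℝ) ≤ k := by exact_mod_cast hk
      have h1 := ih (le_trans (pow_le_pow_right₀ (by norm_num) (by omega)) hkZ)
      have hinv : 1 / (k : ℝ) ≤ 1 / k₀ := one_div_le_one_div_of_le (by linarith) hkk
      have hinv2 : 1 / (k₀ : ℝ) ≤ 1 := by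
        rw [div_le_one (by linarith)]
        linarith
      have hinv3 : 0 ≤ 1 / (k : ℝ) := by positivity
      have h2 := step hkN (Z := Z) (ε := 1 / (k₀ : ℝ) - 1 / k) (by linarith) (by linarith) hkZ h1
      intro y hy1 hy2
      refine (h2 y hy1 hy2).trans ?_
      apply mul_le_mul_of_nonneg_right _ (by linarith)
      have h3 : 3 / (k : ℝ) ^ 7 ≤ 1 / k - 1 / ((k + 1 : ℕ) : ℝ) := by
        push_cast
        rw [div_sub_div _ _ (by positivity) (by positivity), one_mul, mul_one, add_sub_cancel_left,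
          div_le_div_iff₀ (by positivity) (by positivity), one_mul]
        have h4 : (3 : ℝ) * (k * (k + 1)) ≤ (k : ℝ) ^ 2 * (k : ℝ) ^ 5 := by
          have h5 : (k : ℝ) * (k + 1) ≤ 2 * (k : ℝ) ^ 2 := by nlinarith
          have h6 : (6 : ℝ) ≤ (k : ℝ) ^ 5 := by
            calc (6 : ℝ) ≤ 1000 ^ 5 := by norm_num
              _ ≤ (k : ℝ) ^ 5 := pow_le_pow_left₀ (by norm_num) hk1 5
          have h7 : (k : ℝ) ^ 2 * 6 ≤ (k : ℝ) ^ 2 * (k : ℝ) ^ 5 :=
            mul_le_mul_of_nonneg_left h6 (by positivity)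
          linarith
        calc (3 : ℝ) * (k * (k + 1)) ≤ (k : ℝ) ^ 2 * (k : ℝ) ^ 5 := h4
          _ = (k : ℝ) ^ 7 := by ring
      linarith
  intro k hk hkZ y hy1 hy2
  refine (key k hk hkZ y hy1 hy2).trans ?_
  apply mul_le_mul_of_nonneg_right _ (by linarith)
  have : 0 ≤ 1 / (k : ℝ) := by positivity
  linarith

end Pool.Agent.Collatz3.TX
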