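import Pool.Agent.Collatz3.Nondeg

set_option autoImplicit false

/-!
Translation part of the rigidity theorem: stationary means give positive mass, at every scale, to
all residues in one residue class modulo `3 ^ D`.
-/

open Finset

namespace Pool.Agent.Collatz3

/-- indicator of a residue class modulo `3 ^ M` -/
noncomputable def zi (M : ℕ) (x : ZMod (3 ^ M)) (a : U) : ℝ :=
  if ((a : ℤ) : ZMod (3 ^ M)) = x then 1 else 0

theorem IsPer.zi (M : ℕ) (x : ZMod (3 ^ M)) : IsPer (zi M x) := by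
  refine ⟨M, fun a a' h => ?_⟩
  unfold Collatz3.zi
  have : ((a : ℤ) : ZMod (3 ^ M)) = ((a' : ℤ) : ZMod (3 ^ M)) := by
    rw [ZMod.intCast_eq_intCast_iff_dvd_sub]
    push_cast
    rw [← dvd_neg, neg_sub]
    exact h
  rw [this]

theorem zi_nonneg (M : ℕ) (x : ZMod (3 ^ M)) (a : U) : 0 ≤ zi M x a := by
  unfold zi; split_ifs <;> norm_num

theorem zi_le_one (M : ℕ) (x : ZMod (3 ^ M)) (a : U) : zi M x a ≤ 1 := by
  unfold zi; split_ifs <;> norm_num

theorem sum_zi (M : ℕ) (a : U) : ∑ x, zi M x a = 1 := by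
  unfold zi
  rw [sum_ite_eq]
  simp

theorem zi_add (M : ℕ) (x : ZMod (3 ^ M)) (t : ℤ) (a b : U) (h : (b : ℤ) = a + t) :
    zi M (x + t) b = zi M x a := by
  unfold zi
  rw [h]
  push_cast
  simp only [add_left_inj]

section
variable (y : Sys) (m : PMean) (M : ℕ)

/-- joint law of word and end point -/
noncomputable def G (l : List y.A) (x : ZMod (3 ^ M)) : ℝ := m.L y l (zi M x)

/-- conditional law of the end point -/
noncomputable def ze (l : List y.A) (x : ZMod (3 ^ M)) : ℝ := G y m M l x / pr y m l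

/-- defect of a word with respect to its last symbols -/
noncomputable def ed (k : ℕ) (l : List y.A) : ℝ :=
  ∑ x, |G y m M l x - pr y m l * ze y m M (l.drop k) x|

/-- quadratic energy -/
noncomputable def qn (n : ℕ) : ℝ := ∑ l ∈ y.words n, ∑ x, G y m M l x ^ 2 / pr y m l

end

variable {y : Sys} {m : PMean} {M : ℕ}

theorem G_nonneg (l : List y.A) (x : ZMod (3 ^ M)) : 0 ≤ G y m M l x :=
  m.L_nonneg y l (IsPer.zi M x) (zi_nonneg M x)

theorem sum_G (l : List y.A) : ∑ x, G y m M l x = pr y m l := by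
  unfold G pr PMean.L
  rw [← m.sum _ fun x _ => IsPer.K_fin l (IsPer.zi M x)]
  congr 1
  funext a
  dsimp only
  rw [← mul_sum, sum_zi]

theorem G_le (l : List y.A) (x : ZMod (3 ^ M)) : G y m M l x ≤ pr y m l := by
  rw [← sum_G (M := M) l]
  exact single_le_sum (f := G y m M l) (fun x _ => G_nonneg l x) (mem_univ x)

theorem G_eq_zero {l : List y.A} (h : pr y m l = 0) (x : ZMod (3 ^ M)) : G y m M l x = 0 :=
  le_antisymm (h ▸ G_le l x) (G_nonneg l x)

theorem pr_mul_ze (l : List y.A) (x : ZMod (3 ^ M)) :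
    pr y m l * ze y m M l x = G y m M l x := by
  unfold ze
  by_cases h : pr y m l = 0
  · rw [G_eq_zero h, h]; simp
  · field_simp

theorem ze_nonneg (l : List y.A) (x : ZMod (3 ^ M)) : 0 ≤ ze y m M l x :=
  div_nonneg (G_nonneg l x) (pr_nonneg l)

theorem sum_ze {l : List y.A} (h : pr y m l ≠ 0) : ∑ x, ze y m M l x = 1 := by
  unfold ze
  rw [← sum_div, sum_G, div_self h]

theorem G_append_left (hst : Stat y m) (k : ℕ) (l : List y.A) (x : ZMod (3 ^ M)) :
    ∑ u ∈ y.words k, G y m M (u ++ l) x = G y m M l x := hst.L_append k l (IsPer.zi M x)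

theorem ed_nonneg (k : ℕ) (l : List y.A) : 0 ≤ ed y m M k l :=
  sum_nonneg fun _ _ => abs_nonneg _

theorem qn_le (n : ℕ) : qn y m M n ≤ m.E fun _ => 1 := by
  rw [← sum_pr (y := y) n]
  unfold qn
  refine sum_le_sum fun l _ => ?_
  conv_rhs => rw [← sum_G (M := M) l]
  refine sum_le_sum fun x _ => ?_
  rw [sq, mul_div_assoc]
  have h1 : G y m M l x / pr y m l ≤ 1 := div_le_one_of_le₀ (G_le l x) (pr_nonneg l)
  have h2 := G_nonneg (y := y) (m := m) l x
  nlinarith

/-- the variance identity -/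
theorem var_id (hst : Stat y m) (k : ℕ) (v : List y.A) (x : ZMod (3 ^ M)) :
    ∑ w ∈ y.words k, (G y m M (w ++ v) x ^ 2 / pr y m (w ++ v) -
      2 * G y m M (w ++ v) x * ze y m M v x + pr y m (w ++ v) * ze y m M v x ^ 2) =
    ∑ w ∈ y.words k, G y m M (w ++ v) x ^ 2 / pr y m (w ++ v) - G y m M v x ^ 2 / pr y m v := by
  rw [sum_add_distrib, sum_sub_distrib, ← sum_mul, ← sum_mul, ← mul_sum, G_append_left hst,
    pr_append_left hst]
  have h := pr_mul_ze (y := y) (m := m) v x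
  have h2 : G y m M v x ^ 2 / pr y m v = G y m M v x * ze y m M v x := by
    unfold ze; ring
  rw [h2, ← h]
  ring

theorem var_nonneg (l v : List y.A) (x : ZMod (3 ^ M)) :
    0 ≤ G y m M l x ^ 2 / pr y m l - 2 * G y m M l x * ze y m M v x +
      pr y m l * ze y m M v x ^ 2 := by
  rcases (pr_nonneg (y := y) (m := m) l).eq_or_lt with h | h
  · rw [G_eq_zero h.symm, ← h]; simp
  · have : G y m M l x ^ 2 / pr y m l - 2 * G y m M l x * ze y m M v x +
      pr y m l * ze y m M v x ^ 2 = pr y m l * (G y m M l x / pr y m l - ze y m M v x) ^ 2 := by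
      field_simp
      ring
    rw [this]
    positivity

theorem abs_le_var (l v : List y.A) (x : ZMod (3 ^ M)) {c : ℝ} (hc : 0 < c) :
    |G y m M l x - pr y m l * ze y m M v x| ≤ c / 2 * pr y m l +
      (G y m M l x ^ 2 / pr y m l - 2 * G y m M l x * ze y m M v x +
      pr y m l * ze y m M v x ^ 2) / (2 * c) := by
  rcases (pr_nonneg (y := y) (m := m) l).eq_or_lt with h | h
  · rw [G_eq_zero h.symm, ← h]; simp
  · have e1 : G y m M l x ^ 2 / pr y m l - 2 * G y m M l x * ze y m M v x +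
      pr y m l * ze y m M v x ^ 2 = pr y m l * (G y m M l x / pr y m l - ze y m M v x) ^ 2 := by
      field_simp
      ring
    have e2 : G y m M l x - pr y m l * ze y m M v x =
        pr y m l * (G y m M l x / pr y m l - ze y m M v x) := by
      field_simp
    rw [e1, e2, abs_mul, abs_of_pos h]
    obtain ⟨d, hd⟩ : ∃ d, d = G y m M l x / pr y m l - ze y m M v x := ⟨_, rfl⟩
    rw [← hd]
    have e3 : |d| ≤ c / 2 + d ^ 2 / (2 * c) := by
      rw [← sub_nonneg]
      have : c / 2 + d ^ 2 / (2 * c) - |d| = (|d| - c) ^ 2 / (2 * c) := by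
        rw [← sq_abs d]
        field_simp
        ring
      rw [this]
      positivity
    calc pr y m l * |d| ≤ pr y m l * (c / 2 + d ^ 2 / (2 * c)) := by gcongr
      _ = _ := by ring

theorem qn_add (k n : ℕ) : qn y m M (k + n) =
    ∑ v ∈ y.words n, ∑ x, ∑ w ∈ y.words k, G y m M (w ++ v) x ^ 2 / pr y m (w ++ v) := by
  unfold qn
  rw [y.sum_words_add, sum_comm]
  refine sum_congr rfl fun v _ => ?_
  rw [sum_comm]

theorem qn_mono (hst : Stat y m) (k n : ℕ) : qn y m M n ≤ qn y m M (k + n) := by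
  rw [qn_add]
  unfold qn
  refine sum_le_sum fun v _ => sum_le_sum fun x _ => ?_
  have := var_id (M := M) hst k v x
  have h := sum_nonneg fun w (_ : w ∈ y.words k) => var_nonneg (m := m) (w ++ v) v x
  linarith

/-- the sum of the defects -/
theorem sum_ed (hst : Stat y m) (h1 : m.E (fun _ => 1) = 1) (k n : ℕ) {c : ℝ} (hc : 0 < c) :
    ∑ l ∈ y.words (k + n), ed y m M k l ≤ c / 2 * 3 ^ M +
      (qn y m M (k + n) - qn y m M n) / (2 * c) := by
  have e1 : ∑ l ∈ y.words (k + n), ed y m M k l =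
      ∑ v ∈ y.words n, ∑ x, ∑ w ∈ y.words k,
        |G y m M (w ++ v) x - pr y m (w ++ v) * ze y m M v x| := by
    rw [y.sum_words_add, sum_comm]
    refine sum_congr rfl fun v _ => ?_
    rw [sum_comm]
    refine sum_congr rfl fun w hw => ?_
    unfold ed
    rw [y.mem_words] at hw
    rw [← hw, List.drop_left]
  rw [e1, qn_add]
  have e2 : (c / 2 * 3 ^ M : ℝ) = ∑ v ∈ y.words n, ∑ x : ZMod (3 ^ M), c / 2 * pr y m v := by
    simp only [sum_const, card_univ, ZMod.card, nsmul_eq_mul]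
    rw [← mul_sum, ← mul_sum, sum_pr, h1]
    push_cast
    ring
  rw [e2]
  unfold qn
  rw [← sum_sub_distrib, sum_div, ← sum_add_distrib]
  refine sum_le_sum fun v _ => ?_
  rw [← sum_sub_distrib, sum_div, ← sum_add_distrib]
  refine sum_le_sum fun x _ => ?_
  rw [← var_id hst k v x, ← pr_append_left hst k v, mul_sum, sum_div, ← sum_add_distrib]
  exact sum_le_sum fun w _ => abs_le_var _ _ _ hc

/-- far in the past nothing more is learned about the end point -/
theorem ed_small (hst : Stat y m) (h1 : m.E (fun _ => 1) = 1) (M : ℕ) {ε : ℝ} (hε : 0 < ε) :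
    ∃ n₀ : ℕ, ∀ n : ℕ, n₀ ≤ n → ∀ k : ℕ, ∑ l ∈ y.words (k + n), ed y m M k l ≤ ε := by
  have hb : BddAbove (Set.range (qn y m M)) := ⟨1, by
    rintro _ ⟨n, rfl⟩
    exact h1 ▸ qn_le n⟩
  have hpos : (0 : ℝ) < ε ^ 2 / 3 ^ M := by positivity
  obtain ⟨n₀, hn₀⟩ := exists_lt_of_lt_ciSup
    (show (⨆ n, qn y m M n) - ε ^ 2 / 3 ^ M < ⨆ n, qn y m M n by linarith)
  refine ⟨n₀, fun n hn k => ?_⟩
  have h2 : qn y m M n₀ ≤ qn y m M n := by
    obtain ⟨r, rfl⟩ := Nat.exists_eq_add_of_le' hn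
    exact qn_mono hst r n₀
  have h3 : qn y m M (k + n) ≤ ⨆ n, qn y m M n := le_ciSup hb (k + n)
  have h4 := sum_ed (M := M) hst h1 k n (c := ε / 3 ^ M) (by positivity)
  have h5 : (qn y m M (k + n) - qn y m M n) / (2 * (ε / 3 ^ M)) ≤ ε / 2 := by
    rw [div_le_iff₀ (by positivity)]
    have : ε / 2 * (2 * (ε / 3 ^ M)) = ε ^ 2 / 3 ^ M := by ring
    linarith
  have h6 : ε / 3 ^ M / 2 * 3 ^ M = ε / 2 := by field_simp
  linarith

/-! ### pairs of words -/

/-- auxiliary facts on a pair of words with close constants -/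
theorem pair_aux {w w' v : List y.A} (hlen : w.length = w'.length) (hv : 1 ≤ v.length)
    (hS : y.totS w = y.totS w')
    (hC : (3 : ℤ) ^ (y.D * (w.length + v.length) + 1) ∣ (y.totC w : ℤ) - y.totC w')
    {a₁ a₂ : U} (h1 : y.K (w ++ v) a₁ ≠ 0) (h2 : y.K (w' ++ v) a₂ ≠ 0) (a : U)
    (ha : y.K (w ++ v) a ≠ 0) :
    y.K w a = y.K w a₁ ∧ y.K w' a = y.K w' a₂ ∧
      y.K v (y.fin w a) = y.K v (y.fin w' a) := by
  have hD := y.hD
  have r0 := y.rel_list _ _ ha
  have r1 := y.rel_list _ _ h1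
  have r2 := y.rel_list _ _ h2
  rw [List.length_append] at r0 r1 r2
  rw [← hlen] at r2
  have hSS : y.totS (w' ++ v) = y.totS (w ++ v) := by
    rw [y.totS_append, y.totS_append, hS]
  rw [hSS] at r2
  have c0 : (y.totC (w ++ v) : ℤ) - y.totC (w' ++ v) =
      2 ^ y.totS v * ((y.totC w : ℤ) - y.totC w') := by
    rw [y.totC_append, y.totC_append, hlen]
    push_cast
    ring
  have d1 : (3 : ℤ) ^ (y.D * (w.length + v.length)) ∣ (a : ℤ) - a₁ := by
    refine Sys.dvd_pow_two_mul (s := y.totS (w ++ v)) ?_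
    rw [mul_sub, r0, r1, add_sub_add_right_eq_sub, ← mul_sub]
    exact dvd_mul_right _ _
  have d2 : (3 : ℤ) ^ (y.D * (w.length + v.length)) ∣ (a : ℤ) - a₂ := by
    refine Sys.dvd_pow_two_mul (s := y.totS (w ++ v)) ?_
    rw [mul_sub, r0, r2]
    have : (3 : ℤ) ^ (y.D * (w.length + v.length)) * (y.fin (w ++ v) a : ℤ) + y.totC (w ++ v) -
        (3 ^ (y.D * (w.length + v.length)) * (y.fin (w' ++ v) a₂ : ℤ) + y.totC (w' ++ v)) =
        3 ^ (y.D * (w.length + v.length)) * ((y.fin (w ++ v) a : ℤ) - y.fin (w' ++ v) a₂) +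
        ((y.totC (w ++ v) : ℤ) - y.totC (w' ++ v)) := by ring
    rw [this, c0]
    refine dvd_add (dvd_mul_right _ _) (Dvd.dvd.mul_left ?_ _)
    exact dvd_trans (pow_dvd_pow 3 (Nat.le_succ _)) hC
  have e1 : y.K w a = y.K w a₁ := by
    refine (y.per_list w 1 le_rfl a a₁ (dvd_trans (pow_dvd_pow 3 ?_) d1)).1
    nlinarith
  have e2 : y.K w' a = y.K w' a₂ := by
    refine (y.per_list w' 1 le_rfl a a₂ (dvd_trans (pow_dvd_pow 3 ?_) d2)).1
    rw [← hlen]
    nlinarith
  refine ⟨e1, e2, ?_⟩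
  have k1 : y.K w a ≠ 0 := by
    rw [y.K_append] at ha
    exact left_ne_zero_of_mul ha
  have k2 : y.K w' a ≠ 0 := by
    rw [e2]
    rw [y.K_append] at h2
    exact left_ne_zero_of_mul h2
  have s1 := y.rel_list _ _ k1
  have s2 := y.rel_list _ _ k2
  rw [← hS, ← hlen] at s2
  have d3 : (3 : ℤ) ^ (y.D * v.length + 1) ∣ (y.fin w a : ℤ) - y.fin w' a := by
    have : (3 : ℤ) ^ (y.D * w.length) * ((y.fin w a : ℤ) - y.fin w' a) =
        -((y.totC w : ℤ) - y.totC w') := by
      rw [mul_sub]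
      linarith
    have h3 : (3 : ℤ) ^ (y.D * w.length) * 3 ^ (y.D * v.length + 1) ∣
        (3 : ℤ) ^ (y.D * w.length) * ((y.fin w a : ℤ) - y.fin w' a) := by
      rw [this, ← pow_add, dvd_neg]
      rwa [show y.D * w.length + (y.D * v.length + 1) = y.D * (w.length + v.length) + 1 by ring]
    exact (mul_dvd_mul_iff_left (pow_ne_zero _ (by norm_num))).1 h3
  exact (y.per_list v 1 le_rfl _ _ d3).1

/-- the laws of the end points of a pair of words are translates of each other -/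
theorem pair_identity {w w' v : List y.A} (hlen : w.length = w'.length) (hv : 1 ≤ v.length)
    (hS : y.totS w = y.totS w')
    (hC : (3 : ℤ) ^ (y.D * (w.length + v.length) + 1) ∣ (y.totC w : ℤ) - y.totC w')
    (t : ℤ) (ht : (3 : ℤ) ^ (y.D * (w.length + v.length)) * t =
      2 ^ y.totS v * ((y.totC w : ℤ) - y.totC w')) (x : ZMod (3 ^ M)) :
    pr y m (w ++ v) * G y m M (w' ++ v) (x + t) = pr y m (w' ++ v) * G y m M (w ++ v) x := by
  by_cases h1 : ∃ a₁, y.K (w ++ v) a₁ ≠ 0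
  swap
  · push Not at h1
    have : pr y m (w ++ v) = 0 := by
      unfold pr PMean.L
      simp only [h1, zero_mul]
      exact m.zero
    rw [G_eq_zero this, this]; simp
  by_cases h2 : ∃ a₂, y.K (w' ++ v) a₂ ≠ 0
  swap
  · push Not at h2
    have : pr y m (w' ++ v) = 0 := by
      unfold pr PMean.L
      simp only [h2, zero_mul]
      exact m.zero
    rw [G_eq_zero this, this]; simp
  obtain ⟨a₁, h1⟩ := h1
  obtain ⟨a₂, h2⟩ := h2
  have k1 : y.K w a₁ ≠ 0 := by
    rw [y.K_append] at h1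
    exact left_ne_zero_of_mul h1
  have k2 : y.K w' a₂ ≠ 0 := by
    rw [y.K_append] at h2
    exact left_ne_zero_of_mul h2
  have hC' : (3 : ℤ) ^ (y.D * (w'.length + v.length) + 1) ∣ (y.totC w' : ℤ) - y.totC w := by
    rw [← dvd_neg, neg_sub, ← hlen]; exact hC
  have A := pair_aux (y := y) hlen hv hS hC h1 h2
  have B := pair_aux (y := y) hlen.symm hv hS.symm hC' h2 h1
  -- proportional kernels
  have key : ∀ a, y.K w' a₂ * y.K (w ++ v) a = y.K w a₁ * y.K (w' ++ v) a := by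
    intro a
    by_cases ha : y.K (w ++ v) a = 0
    · by_cases hb : y.K (w' ++ v) a = 0
      · rw [ha, hb]; ring
      · obtain ⟨b1, b2, b3⟩ := B a hb
        exfalso
        rw [y.K_append] at hb ha
        rw [b2, ← b3] at ha
        rcases mul_eq_zero.1 ha with h | h
        · exact k1 h
        · exact right_ne_zero_of_mul hb h
    · obtain ⟨a1, a2, a3⟩ := A a ha
      rw [y.K_append, y.K_append, a1, a2, a3]
      ring
  have fin_eq : ∀ a, y.K (w ++ v) a ≠ 0 → (y.fin (w' ++ v) a : ℤ) = y.fin (w ++ v) a + t := by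
    intro a ha
    have hb : y.K (w' ++ v) a ≠ 0 := by
      intro hb
      have := key a
      rw [hb, mul_zero] at this
      rcases mul_eq_zero.1 this with h | h
      · exact k2 h
      · exact ha h
    have r0 := y.rel_list _ _ ha
    have r1 := y.rel_list _ _ hb
    rw [List.length_append] at r0 r1
    rw [← hlen] at r1
    have hSS : y.totS (w' ++ v) = y.totS (w ++ v) := by
      rw [y.totS_append, y.totS_append, hS]
    rw [hSS] at r1
    have c0 : (y.totC (w ++ v) : ℤ) - y.totC (w' ++ v) =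
        2 ^ y.totS v * ((y.totC w : ℤ) - y.totC w') := by
      rw [y.totC_append, y.totC_append, hlen]
      push_cast
      ring
    have : (3 : ℤ) ^ (y.D * (w.length + v.length)) * (y.fin (w' ++ v) a : ℤ) =
        3 ^ (y.D * (w.length + v.length)) * ((y.fin (w ++ v) a : ℤ) + t) := by
      rw [mul_add ((3 : ℤ) ^ (y.D * (w.length + v.length))), ht, ← c0]
      linarith
    exact mul_left_cancel₀ (pow_ne_zero _ (by norm_num)) this
  have e1 : y.K w' a₂ * G y m M (w ++ v) x = y.K w a₁ * G y m M (w' ++ v) (x + t) := by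
    unfold G PMean.L
    rw [← m.smul _ _ (IsPer.K_fin _ (IsPer.zi M x)), ← m.smul _ _ (IsPer.K_fin _ (IsPer.zi M _))]
    congr 1
    funext a
    rw [← mul_assoc, key a, ← mul_assoc]
    by_cases ha : y.K (w ++ v) a = 0
    · have := key a
      rw [ha, mul_zero] at this
      rw [← this]; ring
    · rw [zi_add M x t _ _ (fin_eq a ha)]
  have e2 : y.K w' a₂ * pr y m (w ++ v) = y.K w a₁ * pr y m (w' ++ v) := by
    unfold pr PMean.L
    rw [← m.smul _ _ (IsPer.K_fin _ (IsPer.const 1)), ← m.smul _ _ (IsPer.K_fin _ (IsPer.const 1))]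
    congr 1
    funext a
    rw [← mul_assoc, key a, ← mul_assoc]
  have h3 : (y.K w a₁ * y.K w' a₂) * (pr y m (w ++ v) * G y m M (w' ++ v) (x + t)) =
      (y.K w a₁ * y.K w' a₂) * (pr y m (w' ++ v) * G y m M (w ++ v) x) := by
    calc (y.K w a₁ * y.K w' a₂) * (pr y m (w ++ v) * G y m M (w' ++ v) (x + t)) =
          (y.K w' a₂ * pr y m (w ++ v)) * (y.K w a₁ * G y m M (w' ++ v) (x + t)) := by ring
      _ = (y.K w a₁ * pr y m (w' ++ v)) * (y.K w' a₂ * G y m M (w ++ v) x) := by rw [e2, ← e1]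
      _ = _ := by ring
  exact mul_left_cancel₀ (mul_ne_zero k1 k2) h3

theorem pair_ineq {w w' v : List y.A} (hlen : w.length = w'.length) (hv : 1 ≤ v.length)
    (hS : y.totS w = y.totS w')
    (hC : (3 : ℤ) ^ (y.D * (w.length + v.length) + 1) ∣ (y.totC w : ℤ) - y.totC w')
    (t : ℤ) (ht : (3 : ℤ) ^ (y.D * (w.length + v.length)) * t =
      2 ^ y.totS v * ((y.totC w : ℤ) - y.totC w')) :
    pr y m (w ++ v) * pr y m (w' ++ v) * ∑ x, |ze y m M v (x + t) - ze y m M v x| ≤
      pr y m (w ++ v) * ed y m M w.length (w' ++ v) +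
        pr y m (w' ++ v) * ed y m M w.length (w ++ v) := by
  have id := pair_identity (y := y) (m := m) (M := M) hlen hv hS hC t ht
  have p1 : 0 ≤ pr y m (w ++ v) := pr_nonneg _
  have p2 : 0 ≤ pr y m (w' ++ v) := pr_nonneg _
  unfold ed
  have d1 : (w' ++ v).drop w.length = v := by rw [hlen, List.drop_left]
  have d2 : (w ++ v).drop w.length = v := List.drop_left
  rw [d1, d2]
  have e1 : ∑ x, |G y m M (w' ++ v) x - pr y m (w' ++ v) * ze y m M v x| =
      ∑ x, |G y m M (w' ++ v) (x + t) - pr y m (w' ++ v) * ze y m M v (x + t)| :=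
    (Equiv.sum_comp (Equiv.addRight (t : ZMod (3 ^ M)))
      fun x => |G y m M (w' ++ v) x - pr y m (w' ++ v) * ze y m M v x|).symm
  rw [e1, mul_sum, mul_sum, mul_sum, ← sum_add_distrib]
  refine sum_le_sum fun x _ => ?_
  have i := id x
  have e2 : pr y m (w ++ v) * pr y m (w' ++ v) * (ze y m M v (x + t) - ze y m M v x) =
      - (pr y m (w ++ v) * (G y m M (w' ++ v) (x + t) - pr y m (w' ++ v) * ze y m M v (x + t))) +
      pr y m (w' ++ v) * (G y m M (w ++ v) x - pr y m (w ++ v) * ze y m M v x) := by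
    linear_combination i
  calc pr y m (w ++ v) * pr y m (w' ++ v) * |ze y m M v (x + t) - ze y m M v x|
      = |pr y m (w ++ v) * pr y m (w' ++ v) * (ze y m M v (x + t) - ze y m M v x)| := by
        rw [abs_mul, abs_of_nonneg (mul_nonneg p1 p2)]
    _ ≤ |- (pr y m (w ++ v) *
        (G y m M (w' ++ v) (x + t) - pr y m (w' ++ v) * ze y m M v (x + t)))| +
        |pr y m (w' ++ v) * (G y m M (w ++ v) x - pr y m (w ++ v) * ze y m M v x)| := by
        rw [e2]; exact abs_add_le _ _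
    _ = _ := by rw [abs_neg, abs_mul, abs_mul, abs_of_nonneg p1, abs_of_nonneg p2]

open scoped Classical in
/-- averaging over pairs -/
theorem pdiff_pairs {Ω α β : Type*} {s : Finset Ω} {p : Ω → ℝ} (hp : ∀ ω ∈ s, 0 ≤ p ω)
    (X : Ω → α) (Y : Ω → β) (f e : Ω → ℝ) (he : ∀ ω ∈ s, 0 ≤ e ω) {B : ℝ} (hB : 0 ≤ B)
    (h : ∀ ω ∈ s, ∀ ω' ∈ s, Y ω' = Y ω → X ω' ≠ X ω →
      p ω * p ω' * f ω ≤ B * (p ω * e ω' + p ω' * e ω)) :
    ∑ ω ∈ s, p ω * (1 - mv s p (fun ω => (X ω, Y ω)) (X ω, Y ω) / mv s p Y (Y ω)) * f ω ≤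
      2 * B * ∑ ω ∈ s, e ω := by
  have pt : ∀ ω ∈ s,
      p ω * (1 - mv s p (fun ω => (X ω, Y ω)) (X ω, Y ω) / mv s p Y (Y ω)) * f ω ≤
      B * (p ω * (mv s e Y (Y ω) / mv s p Y (Y ω))) + B * e ω := by
    intro ω hω
    rcases (hp ω hω).eq_or_lt with h0 | h0
    · rw [← h0]
      simp only [zero_mul, mul_zero, zero_add]
      exact mul_nonneg hB (he ω hω)
    · have a1 : 0 < mv s p Y (Y ω) := h0.trans_le (le_mv hp Y hω)
      have e1 : mv s p Y (Y ω) - mv s p (fun ω => (X ω, Y ω)) (X ω, Y ω) =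
          ∑ ω' ∈ s with Y ω' = Y ω, if X ω' ≠ X ω then p ω' else 0 := by
        unfold mv
        rw [sum_filter, sum_filter, sum_filter, ← sum_sub_distrib]
        refine sum_congr rfl fun ω' _ => ?_
        by_cases c1 : Y ω' = Y ω
        · by_cases c2 : X ω' = X ω
          · simp [c1, c2]
          · simp [c1, c2]
        · simp [c1]
      have e2 : p ω * (mv s p Y (Y ω) - mv s p (fun ω => (X ω, Y ω)) (X ω, Y ω)) * f ω ≤
          B * (p ω * mv s e Y (Y ω) + mv s p Y (Y ω) * e ω) := by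
        rw [e1, mul_sum, sum_mul]
        unfold mv
        rw [mul_sum, sum_mul, ← sum_add_distrib, mul_sum]
        refine sum_le_sum fun ω' hω' => ?_
        rw [mem_filter] at hω'
        by_cases c2 : X ω' = X ω
        · rw [if_neg (not_not.2 c2), mul_zero, zero_mul]
          exact mul_nonneg hB (add_nonneg (mul_nonneg h0.le (he ω' hω'.1))
            (mul_nonneg (hp ω' hω'.1) (he ω hω)))
        · rw [if_pos c2]
          exact h ω hω ω' hω'.1 hω'.2 c2
      have e3 : p ω * (1 - mv s p (fun ω => (X ω, Y ω)) (X ω, Y ω) / mv s p Y (Y ω)) * f ω =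
          p ω * (mv s p Y (Y ω) - mv s p (fun ω => (X ω, Y ω)) (X ω, Y ω)) * f ω /
            mv s p Y (Y ω) := by
        field_simp
      rw [e3, div_le_iff₀ a1]
      refine e2.trans (le_of_eq ?_)
      field_simp
  refine (sum_le_sum pt).trans ?_
  rw [sum_add_distrib, ← mul_sum, ← mul_sum]
  have h1 := sum_div_le (s := s) (p := p) Y (fun t => mv s e Y t)
    (fun t => sum_nonneg fun ω hω => he ω (mem_filter.1 hω).1) (s.image Y)
    (fun ω hω => mem_image_of_mem _ hω)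
  rw [sum_mv Y _ (fun ω hω => mem_image_of_mem _ hω)] at h1
  have := mul_le_mul_of_nonneg_left h1 hB
  linarith

theorem exists_unit_part (D : ℕ) (t : ℤ) (ht : ¬ (3 : ℤ) ^ (D + 1) ∣ t) :
    ∃ j : ℕ, j ≤ D ∧ ∃ u : ℤ, ¬ (3 : ℤ) ∣ u ∧ t = 3 ^ j * u := by
  induction D generalizing t with
  | zero => exact ⟨0, le_rfl, t, by simpa using ht, by simp⟩
  | succ D ih =>
    by_cases h : (3 : ℤ) ∣ t
    · obtain ⟨s, rfl⟩ := h
      have : ¬ (3 : ℤ) ^ (D + 1) ∣ s := by
        intro hs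
        apply ht
        rw [pow_succ 3 (D + 1), mul_comm]
        exact mul_dvd_mul_left 3 hs
      obtain ⟨j, hj, u, hu, rfl⟩ := ih s this
      exact ⟨j + 1, by omega, u, hu, by ring⟩
    · exact ⟨0, by omega, t, h, by simp⟩

theorem shift_mul (F : ZMod (3 ^ M) → ℝ) (t : ZMod (3 ^ M)) (r : ℕ) :
    ∑ x, |F (x + r * t) - F x| ≤ r * ∑ x, |F (x + t) - F x| := by
  induction r with
  | zero => simp
  | succ r ih =>
    have e1 : ∑ x, |F (x + t) - F x| = ∑ x, |F (x + r * t + t) - F (x + r * t)| :=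
      (Equiv.sum_comp (Equiv.addRight ((r : ZMod (3 ^ M)) * t)) fun x => |F (x + t) - F x|).symm
    calc ∑ x, |F (x + ((r + 1 : ℕ) : ZMod (3 ^ M)) * t) - F x|
        ≤ ∑ x, (|F (x + r * t + t) - F (x + r * t)| + |F (x + r * t) - F x|) := by
          refine sum_le_sum fun x _ => ?_
          have : x + ((r + 1 : ℕ) : ZMod (3 ^ M)) * t = x + r * t + t := by push_cast; ring
          rw [this]
          exact abs_sub_le _ _ _
      _ ≤ ((r + 1 : ℕ) : ℝ) * ∑ x, |F (x + t) - F x| := by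
          rw [sum_add_distrib, ← e1]
          push_cast
          linarith

/-- invariance under one translation gives invariance under all multiples of `3 ^ D` -/
theorem shift_bound (D : ℕ) (F : ZMod (3 ^ M) → ℝ) (t : ℤ) (ht : ¬ (3 : ℤ) ^ (D + 1) ∣ t)
    (h : ℤ) : ∑ x, |F (x + ((3 ^ D * h : ℤ) : ZMod (3 ^ M))) - F x| ≤
      3 ^ M * ∑ x, |F (x + (t : ZMod (3 ^ M))) - F x| := by
  obtain ⟨j, hj, u, hu, rfl⟩ := exists_unit_part D t ht
  have hunit : IsUnit (u : ZMod (3 ^ M)) := by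
    rw [ZMod.coe_int_isUnit_iff_isCoprime]
    push_cast
    refine IsCoprime.pow_left ?_
    exact (Int.prime_three.coprime_iff_not_dvd).2 hu
  obtain ⟨u', hu'⟩ := hunit
  obtain ⟨i, rfl⟩ := Nat.exists_eq_add_of_le hj
  obtain ⟨r, hr⟩ : ∃ r : ZMod (3 ^ M), r = 3 ^ i * h * ((u'⁻¹ : (ZMod (3 ^ M))ˣ) : ZMod (3 ^ M)) :=
    ⟨_, rfl⟩
  have e : ((3 ^ (j + i) * h : ℤ) : ZMod (3 ^ M)) =
      (r.val : ZMod (3 ^ M)) * ((3 ^ j * u : ℤ) : ZMod (3 ^ M)) := by
    rw [ZMod.natCast_zmod_val, hr]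
    push_cast
    rw [← hu']
    have : ((u'⁻¹ : (ZMod (3 ^ M))ˣ) : ZMod (3 ^ M)) * (u' : ZMod (3 ^ M)) = 1 := Units.inv_mul u'
    calc (3 : ZMod (3 ^ M)) ^ (j + i) * h = 3 ^ (j + i) * h * 1 := by ring
      _ = 3 ^ (j + i) * h * (((u'⁻¹ : (ZMod (3 ^ M))ˣ) : ZMod (3 ^ M)) * (u' : ZMod (3 ^ M))) := by
          rw [this]
      _ = _ := by ring
  rw [e]
  refine (shift_mul F _ _).trans ?_
  refine mul_le_mul_of_nonneg_right ?_ (sum_nonneg fun _ _ => abs_nonneg _)
  have := ZMod.val_lt r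
  exact_mod_cast this.le

/-- weight of the words whose next window is not determined -/
noncomputable def wt (y : Sys) (m : PMean) (k n : ℕ) (l : List y.A) : ℝ :=
  pr y m l * (1 - mv (y.words (k + n)) (pr y m)
    (fun l => (cV y k (y.D * (k + n + 1) + 1) l, ctx y k n l))
      (cV y k (y.D * (k + n + 1) + 1) l, ctx y k n l) /
    mv (y.words (k + n)) (pr y m) (ctx y k n) (ctx y k n l))

theorem sum_wt (k n : ℕ) : ∑ l ∈ y.words (k + n), wt y m k n l = pk y m k n := rfl

theorem wt_nonneg (k n : ℕ) (l : List y.A) : 0 ≤ wt y m k n l := by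
  refine mul_nonneg (pr_nonneg l) (sub_nonneg.2 (div_le_one_of_le₀ ?_ ?_))
  · exact mv_le (fun l _ => pr_nonneg l)
      (fun l => (cV y k (y.D * (k + n + 1) + 1) l, ctx y k n l)) (ctx y k n)
      fun _ _ h => (Prod.ext_iff.1 h).2
  · exact mv_nonneg (fun l _ => pr_nonneg l) _ _

theorem wt_le (k n : ℕ) (l : List y.A) : wt y m k n l ≤ pr y m l := by
  have h1 : 0 ≤ mv (y.words (k + n)) (pr y m)
    (fun l => (cV y k (y.D * (k + n + 1) + 1) l, ctx y k n l))
      (cV y k (y.D * (k + n + 1) + 1) l, ctx y k n l) /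
    mv (y.words (k + n)) (pr y m) (ctx y k n) (ctx y k n l) :=
    div_nonneg (mv_nonneg (fun l _ => pr_nonneg l) _ _) (mv_nonneg (fun l _ => pr_nonneg l) _ _)
  have h2 := pr_nonneg (y := y) (m := m) l
  unfold wt
  nlinarith

/-- the key invariance estimate -/
theorem key_invariance {k n : ℕ} (hn : 1 ≤ n) (h : ℤ) :
    ∑ l ∈ y.words (k + n), wt y m k n l *
      (∑ x, |ze y m M (l.drop k) (x + ((3 ^ y.D * h : ℤ) : ZMod (3 ^ M))) -
        ze y m M (l.drop k) x|) ≤ 2 * 3 ^ M * ∑ l ∈ y.words (k + n), ed y m M k l := by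
  refine pdiff_pairs (s := y.words (k + n)) (p := pr y m) (fun l _ => pr_nonneg l)
    (cV y k (y.D * (k + n + 1) + 1)) (ctx y k n)
    (fun l => ∑ x, |ze y m M (l.drop k) (x + ((3 ^ y.D * h : ℤ) : ZMod (3 ^ M))) -
        ze y m M (l.drop k) x|) (ed y m M k) (fun l _ => ed_nonneg k l) (by positivity) ?_
  intro l hl l' hl' hY hX
  simp only [ctx, cV, sV, Prod.ext_iff] at hY
  obtain ⟨hc, hs, hd⟩ := hY
  have hX' : ¬ y.totC (l'.take k) % 3 ^ (y.D * (k + n + 1) + 1) =
      y.totC (l.take k) % 3 ^ (y.D * (k + n + 1) + 1) := hX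
  have tl := take_mem hl
  have tl' := take_mem hl'
  have dl := drop_mem hl
  rw [y.mem_words] at tl tl' dl
  obtain ⟨w, hw⟩ : ∃ w, w = l.take k := ⟨_, rfl⟩
  obtain ⟨w', hw'⟩ : ∃ w', w' = l'.take k := ⟨_, rfl⟩
  obtain ⟨v, hv⟩ : ∃ v, v = l.drop k := ⟨_, rfl⟩
  have el : l = w ++ v := by rw [hw, hv, List.take_append_drop]
  have el' : l' = w' ++ v := by rw [hw', hv, ← hd, List.take_append_drop]
  rw [← hw, ← hw'] at hc hs hX'
  rw [← hw] at tl
  rw [← hw'] at tl'
  rw [← hv] at dl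
  rw [← hv, el, el']
  have hlen : w.length = w'.length := tl.trans tl'.symm
  have hC : (3 : ℤ) ^ (y.D * (w.length + v.length) + 1) ∣ (y.totC w : ℤ) - y.totC w' := by
    rw [tl, dl]
    have : y.totC w' ≡ y.totC w [MOD 3 ^ (y.D * (k + n) + 1)] := hc
    rw [Nat.modEq_iff_dvd] at this
    exact_mod_cast this
  have hC2 : ¬ (3 : ℤ) ^ (y.D * (k + n + 1) + 1) ∣ (y.totC w : ℤ) - y.totC w' := by
    intro hcon
    apply hX'
    have : y.totC w' ≡ y.totC w [MOD 3 ^ (y.D * (k + n + 1) + 1)] := by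
      rw [Nat.modEq_iff_dvd]
      exact_mod_cast hcon
    exact this
  obtain ⟨t, ht⟩ : (3 : ℤ) ^ (y.D * (w.length + v.length)) ∣
      2 ^ y.totS v * ((y.totC w : ℤ) - y.totC w') :=
    Dvd.dvd.mul_left (dvd_trans (pow_dvd_pow 3 (Nat.le_succ _)) hC) _
  have ht2 : ¬ (3 : ℤ) ^ (y.D + 1) ∣ t := by
    intro hcon
    apply hC2
    refine Sys.dvd_pow_two_mul (s := y.totS v) ?_
    rw [ht, tl, dl, show y.D * (k + n + 1) + 1 = y.D * (k + n) + (y.D + 1) by ring, pow_add]
    exact mul_dvd_mul_left _ hcon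
  have a1 := pair_ineq (y := y) (m := m) (M := M) (w := w) (w' := w') (v := v) hlen
    (by rw [dl]; exact hn) hs.symm hC t ht.symm
  have a2 := shift_bound (M := M) y.D (ze y m M v) t ht2 h
  have p1 : 0 ≤ pr y m (w ++ v) := pr_nonneg _
  have p2 : 0 ≤ pr y m (w' ++ v) := pr_nonneg _
  rw [tl] at a1
  calc pr y m (w ++ v) * pr y m (w' ++ v) *
        ∑ x, |ze y m M v (x + ((3 ^ y.D * h : ℤ) : ZMod (3 ^ M))) - ze y m M v x|
      ≤ pr y m (w ++ v) * pr y m (w' ++ v) *
        (3 ^ M * ∑ x, |ze y m M v (x + (t : ZMod (3 ^ M))) - ze y m M v x|) := by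
        gcongr
    _ = 3 ^ M * (pr y m (w ++ v) * pr y m (w' ++ v) *
        ∑ x, |ze y m M v (x + (t : ZMod (3 ^ M))) - ze y m M v x|) := by ring
    _ ≤ _ := by gcongr

/-- the part of the law coming from undetermined words -/
noncomputable def gg (y : Sys) (m : PMean) (M k n : ℕ) (x : ZMod (3 ^ M)) : ℝ :=
  ∑ l ∈ y.words (k + n), wt y m k n l * ze y m M (l.drop k) x

theorem gg_le (hst : Stat y m) (k n : ℕ) (x : ZMod (3 ^ M)) :
    gg y m M k n x ≤ m.E (zi M x) := by
  have e1 : m.E (zi M x) = ∑ v ∈ y.words n, G y m M v x := by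
    have := hst.L_append n [] (IsPer.zi M x)
    simp only [List.append_nil] at this
    unfold G
    rw [this]
    unfold PMean.L
    simp
  have e2 : ∑ v ∈ y.words n, G y m M v x =
      ∑ l ∈ y.words (k + n), pr y m l * ze y m M (l.drop k) x := by
    rw [y.sum_words_add, sum_comm]
    refine sum_congr rfl fun v _ => ?_
    rw [← pr_mul_ze, ← pr_append_left hst k v, sum_mul]
    refine sum_congr rfl fun w hw => ?_
    rw [y.mem_words] at hw
    rw [← hw, List.drop_left]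
  rw [e1, e2]
  unfold gg
  exact sum_le_sum fun l _ => mul_le_mul_of_nonneg_right (wt_le k n l) (ze_nonneg _ _)

theorem gg_nonneg (k n : ℕ) (x : ZMod (3 ^ M)) : 0 ≤ gg y m M k n x :=
  sum_nonneg fun l _ => mul_nonneg (wt_nonneg k n l) (ze_nonneg _ _)

theorem wt_zero (hst : Stat y m) {k n : ℕ} {l : List y.A} (hl : l ∈ y.words (k + n))
    (h : pr y m (l.drop k) = 0) : wt y m k n l = 0 := by
  have h1 : pr y m l = 0 := by
    refine le_antisymm ?_ (pr_nonneg l)
    rw [← h, ← pr_append_left hst k (l.drop k)]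
    have : l = l.take k ++ l.drop k := (List.take_append_drop k l).symm
    conv_lhs => rw [this]
    exact single_le_sum (f := fun u => pr y m (u ++ l.drop k)) (fun u _ => pr_nonneg _)
      (take_mem hl)
  unfold wt
  rw [h1, zero_mul]

theorem sum_gg (hst : Stat y m) (k n : ℕ) : ∑ x, gg y m M k n x = pk y m k n := by
  unfold gg
  rw [sum_comm, ← sum_wt]
  refine sum_congr rfl fun l hl => ?_
  rw [← mul_sum]
  by_cases h : pr y m (l.drop k) = 0
  · rw [wt_zero hst hl h, zero_mul]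
  · rw [sum_ze h, mul_one]

theorem gg_shift {k n : ℕ} (hn : 1 ≤ n) (x : ZMod (3 ^ M)) (h : ℤ) :
    gg y m M k n (x + ((3 ^ y.D * h : ℤ) : ZMod (3 ^ M))) ≤ gg y m M k n x +
      2 * 3 ^ M * ∑ l ∈ y.words (k + n), ed y m M k l := by
  have h1 := key_invariance (y := y) (m := m) (M := M) (k := k) (n := n) hn h
  have h2 : gg y m M k n (x + ((3 ^ y.D * h : ℤ) : ZMod (3 ^ M))) - gg y m M k n x ≤
      ∑ l ∈ y.words (k + n), wt y m k n l *
      (∑ x, |ze y m M (l.drop k) (x + ((3 ^ y.D * h : ℤ) : ZMod (3 ^ M))) -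
        ze y m M (l.drop k) x|) := by
    unfold gg
    rw [← sum_sub_distrib]
    refine sum_le_sum fun l _ => ?_
    rw [← mul_sub]
    refine mul_le_mul_of_nonneg_left ?_ (wt_nonneg k n l)
    refine (le_abs_self _).trans ?_
    exact single_le_sum (f := fun x => |ze y m M (l.drop k)
      (x + ((3 ^ y.D * h : ℤ) : ZMod (3 ^ M))) - ze y m M (l.drop k) x|)
      (fun _ _ => abs_nonneg _) (mem_univ x)
  linarith

/-- projection to a coarser level -/
noncomputable abbrev red {D M : ℕ} (h : D ≤ M) : ZMod (3 ^ M) →+* ZMod (3 ^ D) :=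
  ZMod.castHom (pow_dvd_pow 3 h) (ZMod (3 ^ D))

theorem zi_red {D M : ℕ} (h : D ≤ M) (z : ZMod (3 ^ D)) (a : U) :
    zi D z a = ∑ x with red h x = z, zi M x a := by
  unfold zi
  rw [sum_filter]
  have e : ∀ x : ZMod (3 ^ M), (if red h x = z then (if ((a : ℤ) : ZMod (3 ^ M)) = x then
      (1 : ℝ) else 0) else 0) = if ((a : ℤ) : ZMod (3 ^ M)) = x then
      (if red h ((a : ℤ) : ZMod (3 ^ M)) = z then (1 : ℝ) else 0) else 0 := by
    intro x
    by_cases hx : ((a : ℤ) : ZMod (3 ^ M)) = x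
    · rw [if_pos hx, if_pos hx, hx]
    · rw [if_neg hx, if_neg hx, ite_self]
  rw [sum_congr rfl fun x _ => e x, sum_ite_eq]
  simp only [mem_univ, if_true, map_intCast]

theorem G_red {D M : ℕ} (h : D ≤ M) (l : List y.A) (z : ZMod (3 ^ D)) :
    G y m D l z = ∑ x with red h x = z, G y m M l x := by
  unfold G PMean.L
  rw [← m.sum _ fun x _ => IsPer.K_fin l (IsPer.zi M x)]
  congr 1
  funext a
  rw [← mul_sum, ← zi_red]

theorem gg_red {D M : ℕ} (h : D ≤ M) (k n : ℕ) (z : ZMod (3 ^ D)) :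
    gg y m D k n z = ∑ x with red h x = z, gg y m M k n x := by
  unfold gg
  rw [sum_comm]
  refine sum_congr rfl fun l _ => ?_
  rw [← mul_sum]
  congr 1
  unfold ze
  rw [← sum_div, ← G_red]

/-- Lemma A: positive mass at every scale over one class modulo `3 ^ D` -/
theorem lemmaA (hst : Stat y m) (hhalf : ∀ w a, y.κ w a ≤ 1 / 2)
    (hinj : ∀ l l' : List y.A, l.length = l'.length → y.totS l = y.totS l' →
      y.totC l = y.totC l' → l = l')
    (h1 : m.E (fun _ => 1) = 1) :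
    ∃ δ : ℝ, 0 < δ ∧ ∃ z : ZMod (3 ^ y.D), ∀ (M : ℕ) (hM : y.D ≤ M) (x : ZMod (3 ^ M)),
      red hM x = z → δ / 3 ^ M ≤ m.E (zi M x) := by
  obtain ⟨δ, hδ, hnd⟩ := nondeg hst hhalf hinj h1
  -- choose the class
  have hz : ∃ z : ZMod (3 ^ y.D), ∀ n₀ : ℕ, ∃ n : ℕ, n₀ ≤ n ∧ ∃ k : ℕ,
      δ / 3 ^ y.D ≤ gg y m y.D k n z := by
    by_contra hcon
    push Not at hcon
    choose N hN using hcon
    obtain ⟨n, hn, k, hk⟩ := hnd (∑ z, N z)
    have : ∑ z, gg y m y.D k n z < δ := by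
      calc ∑ z, gg y m y.D k n z < ∑ z : ZMod (3 ^ y.D), δ / 3 ^ y.D := by
            refine sum_lt_sum_of_nonempty univ_nonempty fun z _ => ?_
            refine hN z n ?_ k
            exact (single_le_sum (f := N) (fun _ _ => Nat.zero_le _) (mem_univ z)).trans hn
        _ = δ := by
            rw [sum_const, card_univ, ZMod.card, nsmul_eq_mul]
            push_cast
            field_simp
    rw [sum_gg hst] at this
    linarith
  obtain ⟨z, hz⟩ := hz
  refine ⟨δ / 3 ^ y.D, by positivity, z, fun M hM x hx => ?_⟩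
  refine le_of_forall_pos_le_add fun ε hε => ?_
  obtain ⟨n₀, hn₀⟩ := ed_small (y := y) hst h1 M (ε := ε / (2 * 3 ^ M)) (by positivity)
  obtain ⟨n, hn, k, hk⟩ := hz (max n₀ 1)
  have hn1 : 1 ≤ n := (le_max_right _ _).trans hn
  have he := hn₀ n ((le_max_left _ _).trans hn) k
  have hbound : ∀ x' ∈ univ.filter (fun x' => red hM x' = z), gg y m M k n x' ≤
      m.E (zi M x) + ε := by
    intro x' hx'
    have hx'2 := (mem_filter.1 hx').2
    obtain ⟨h, hh⟩ : ∃ h : ℤ, ((x' - x).val : ℤ) = 3 ^ y.D * h := by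
      have : ((x' - x).val : ZMod (3 ^ y.D)) = 0 := by
        have e : ((x' - x).val : ZMod (3 ^ y.D)) = red hM (((x' - x).val : ℕ) : ZMod (3 ^ M)) := by
          rw [map_natCast]
        rw [e, ZMod.natCast_zmod_val, map_sub, hx'2, hx, sub_self]
      rw [ZMod.natCast_eq_zero_iff] at this
      obtain ⟨c, hc⟩ := this
      exact ⟨c, by rw [hc]; push_cast; ring⟩
    have e : x' = x + ((3 ^ y.D * h : ℤ) : ZMod (3 ^ M)) := by
      rw [← hh]
      push_cast
      rw [ZMod.natCast_zmod_val]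
      ring
    have s1 := gg_shift (y := y) (m := m) (M := M) (k := k) (n := n) hn1 x h
    rw [← e] at s1
    have s2 := gg_le (M := M) hst k n x
    have s3 : 2 * 3 ^ M * ∑ l ∈ y.words (k + n), ed y m M k l ≤ ε := by
      calc 2 * 3 ^ M * ∑ l ∈ y.words (k + n), ed y m M k l ≤ 2 * 3 ^ M * (ε / (2 * 3 ^ M)) := by
            gcongr
        _ = ε := by field_simp
    linarith
  have hE : 0 ≤ m.E (zi M x) := m.nonneg _ (IsPer.zi M x) (zi_nonneg M x)
  rw [gg_red hM] at hk
  have h3 : δ / 3 ^ y.D ≤ 3 ^ M * (m.E (zi M x) + ε) := by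
    calc δ / 3 ^ y.D ≤ ∑ x' with red hM x' = z, gg y m M k n x' := hk
      _ ≤ ∑ x' ∈ univ.filter (fun x' => red hM x' = z), (m.E (zi M x) + ε) := sum_le_sum hbound
      _ = ((univ.filter (fun x' => red hM x' = z)).card : ℝ) * (m.E (zi M x) + ε) := by
          rw [sum_const, nsmul_eq_mul]
      _ ≤ 3 ^ M * (m.E (zi M x) + ε) := by
          refine mul_le_mul_of_nonneg_right ?_ (by linarith)
          have := card_filter_le (univ : Finset (ZMod (3 ^ M))) (fun x' => red hM x' = z)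
          rw [card_univ, ZMod.card] at this
          exact_mod_cast this
  rw [div_le_iff₀ (by positivity)]
  linarith

end Pool.Agent.Collatz3
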