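import Mathlib

set_option autoImplicit false

/-!
Counting functions of the inverse 3x+1 tree (binary form): step 0 is `x ↦ 2 x`, step 1 is
`x ↦ (2 x - 1) / 3` (allowed when `3 ∣ 2 x - 1`).
-/

namespace Pool.Agent.Collatz3.UB

open Finset

/-- number of words of length `k` readable at `x` all of whose nodes are prime to 3 -/
def pc : ℕ → ℤ → ℕ
  | 0, x => if (3 : ℤ) ∣ x then 0 else 1
  | k + 1, x => pc k (2 * x) + if (3 : ℤ) ∣ 2 * x - 1 then pc k ((2 * x - 1) / 3) else 0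

/-- number of words of length `k` with `l` ones readable at `x` -/
def ac : ℕ → ℕ → ℤ → ℕ
  | 0, l, _ => if l = 0 then 1 else 0
  | k + 1, 0, x => ac k 0 (2 * x)
  | k + 1, l + 1, x =>
    ac k (l + 1) (2 * x) + if (3 : ℤ) ∣ 2 * x - 1 then ac k l ((2 * x - 1) / 3) else 0

/-- number of words of length `k` with `l` ones readable at `x`, with last node prime to 3 -/
def pl : ℕ → ℕ → ℤ → ℕ
  | 0, l, x => if l = 0 ∧ ¬ (3 : ℤ) ∣ x then 1 else 0
  | k + 1, 0, x => pl k 0 (2 * x)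
  | k + 1, l + 1, x =>
    pl k (l + 1) (2 * x) + if (3 : ℤ) ∣ 2 * x - 1 then pl k l ((2 * x - 1) / 3) else 0

theorem pc_succ (k : ℕ) (x : ℤ) : pc (k + 1) x =
    pc k (2 * x) + if (3 : ℤ) ∣ 2 * x - 1 then pc k ((2 * x - 1) / 3) else 0 := rfl

theorem pc_of_dvd (k : ℕ) : ∀ x : ℤ, (3 : ℤ) ∣ x → pc k x = 0 := by
  induction k with
  | zero => intro x hx; simp [pc, hx]
  | succ k ih =>
    intro x hx
    rw [pc_succ, ih _ (Dvd.dvd.mul_left hx 2), if_neg (by omega)]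

theorem pc_le_two_pow (k : ℕ) : ∀ x : ℤ, pc k x ≤ 2 ^ k := by
  induction k with
  | zero => intro x; unfold pc; split_ifs <;> simp
  | succ k ih =>
    intro x
    rw [pc_succ]
    have h1 := ih (2 * x)
    have h2 := ih ((2 * x - 1) / 3)
    rw [pow_succ]
    split_ifs <;> omega

theorem one_le_pc (k : ℕ) : ∀ x : ℤ, ¬ (3 : ℤ) ∣ x → 1 ≤ pc k x := by
  induction k with
  | zero => intro x hx; simp [pc, hx]
  | succ k ih =>
    intro x hx
    rw [pc_succ]
    have := ih (2 * x) (by omega)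
    omega

/-- the largest number of pruned words -/
noncomputable def M (k : ℕ) : ℕ := sSup (Set.range (pc k))

theorem bddAbove_pc (k : ℕ) : BddAbove (Set.range (pc k)) :=
  ⟨2 ^ k, by rintro _ ⟨x, rfl⟩; exact pc_le_two_pow k x⟩

theorem pc_le_M (k : ℕ) (x : ℤ) : pc k x ≤ M k := le_csSup (bddAbove_pc k) ⟨x, rfl⟩

theorem exists_M (k : ℕ) : ∃ x : ℤ, pc k x = M k :=
  Nat.sSup_mem (s := Set.range (pc k)) ⟨_, ⟨1, rfl⟩⟩ (bddAbove_pc k)

theorem one_le_M (k : ℕ) : 1 ≤ M k := (one_le_pc k 1 (by decide)).trans (pc_le_M k 1)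

theorem exists_M' (k : ℕ) : ∃ x : ℤ, ¬ (3 : ℤ) ∣ x ∧ pc k x = M k := by
  obtain ⟨x, hx⟩ := exists_M k
  refine ⟨x, fun h => ?_, hx⟩
  have := one_le_M k
  rw [← hx, pc_of_dvd k x h] at this
  omega

theorem M_le_two_pow (k : ℕ) : M k ≤ 2 ^ k := by
  obtain ⟨x, hx⟩ := exists_M k
  rw [← hx]; exact pc_le_two_pow k x

theorem pc_add_le (l k : ℕ) : ∀ x : ℤ, pc (k + l) x ≤ pc k x * M l := by
  induction k with
  | zero =>
    intro x
    by_cases h : (3 : ℤ) ∣ x
    · rw [pc_of_dvd _ x h]; exact Nat.zero_le _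
    · simp only [pc, h, if_false, zero_add, one_mul]; exact pc_le_M l x
  | succ k ih =>
    intro x
    rw [show k + 1 + l = (k + l) + 1 by ring, pc_succ, pc_succ]
    have h1 := ih (2 * x)
    have h2 := ih ((2 * x - 1) / 3)
    split_ifs
    · rw [add_mul]; omega
    · omega

theorem M_add_le (k l : ℕ) : M (k + l) ≤ M k * M l := by
  obtain ⟨x, hx⟩ := exists_M (k + l)
  rw [← hx]
  exact (pc_add_le l k x).trans (Nat.mul_le_mul_right _ (pc_le_M k x))

theorem log_M_nonneg (k : ℕ) : 0 ≤ Real.log (M k) :=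
  Real.log_nonneg (by exact_mod_cast one_le_M k)

theorem subadditive_log_M : Subadditive fun k => Real.log (M k) := by
  intro k l
  have h1 : (0 : ℝ) < M k := by exact_mod_cast one_le_M k
  have h2 : (0 : ℝ) < M l := by exact_mod_cast one_le_M l
  have h3 : (0 : ℝ) < M (k + l) := by exact_mod_cast one_le_M (k + l)
  rw [← Real.log_mul h1.ne' h2.ne']
  exact Real.log_le_log h3 (by exact_mod_cast M_add_le k l)

/-- growth rate of the largest pruned tree -/
noncomputable def L : ℝ := subadditive_log_M.lim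

theorem bddBelow_log_M : BddBelow (Set.range fun n : ℕ => Real.log (M n) / n) :=
  ⟨0, by rintro _ ⟨n, rfl⟩; exact div_nonneg (log_M_nonneg n) (Nat.cast_nonneg n)⟩

theorem tendsto_log_M : Filter.Tendsto (fun n : ℕ => Real.log (M n) / n) Filter.atTop (nhds L) :=
  subadditive_log_M.tendsto_lim bddBelow_log_M

theorem mul_L_le (k : ℕ) : k * L ≤ Real.log (M k) := by
  rcases Nat.eq_zero_or_pos k with h | h
  · subst h; simpa using log_M_nonneg 0
  · have h1 := subadditive_log_M.lim_le_div bddBelow_log_M h.ne'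
    have h2 : (0 : ℝ) < k := by exact_mod_cast h
    rw [le_div_iff₀ h2] at h1
    change L * k ≤ _ at h1
    linarith

theorem L_nonneg : 0 ≤ L :=
  ge_of_tendsto' tendsto_log_M fun n => div_nonneg (log_M_nonneg n) (Nat.cast_nonneg n)

theorem log_M_le {τ : ℝ} (hτ : 0 < τ) : ∃ K : ℕ, ∀ k, K ≤ k → Real.log (M k) ≤ (L + τ) * k := by
  have h := (tendsto_order.1 tendsto_log_M).2 (L + τ) (by linarith)
  obtain ⟨K, hK⟩ := Filter.eventually_atTop.1 h
  refine ⟨K + 1, fun k hk => ?_⟩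
  have h1 := hK k (by omega)
  have h2 : (0 : ℝ) < k := by exact_mod_cast (by omega : 0 < k)
  rw [div_lt_iff₀ h2] at h1
  exact h1.le

theorem M_le_exp {τ : ℝ} (hτ : 0 < τ) : ∃ C : ℝ, 0 < C ∧ ∀ k, (M k : ℝ) ≤ C * Real.exp ((L + τ) * k) := by
  obtain ⟨K, hK⟩ := log_M_le hτ
  refine ⟨2 ^ K + 1, by positivity, fun k => ?_⟩
  have hM : (0 : ℝ) < M k := by exact_mod_cast one_le_M k
  rcases le_or_gt K k with h | h
  · have h1 := hK k h
    rw [← Real.log_exp ((L + τ) * k)] at h1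
    have h2 := (Real.log_le_log_iff hM (Real.exp_pos _)).1 h1
    have h3 : (1 : ℝ) ≤ 2 ^ K + 1 := by
      have : (0 : ℝ) ≤ 2 ^ K := by positivity
      linarith
    nlinarith [Real.exp_pos ((L + τ) * k)]
  · have h1 : (M k : ℝ) ≤ 2 ^ k := by exact_mod_cast M_le_two_pow k
    have h2 : (2 : ℝ) ^ k ≤ 2 ^ K := pow_le_pow_right₀ (by norm_num) h.le
    have h3 : (1 : ℝ) ≤ Real.exp ((L + τ) * k) := by
      apply Real.one_le_exp
      have := L_nonneg
      positivity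
    nlinarith [h1, h2, h3, pow_pos (show (0 : ℝ) < 2 by norm_num) K]

/-! ### refined counts -/

theorem ac_zero_succ (l : ℕ) (x : ℤ) : ac 0 (l + 1) x = 0 := by simp [ac]
theorem ac_zero_zero (x : ℤ) : ac 0 0 x = 1 := by simp [ac]
theorem ac_succ_zero (k : ℕ) (x : ℤ) : ac (k + 1) 0 x = ac k 0 (2 * x) := rfl
theorem ac_succ_succ (k l : ℕ) (x : ℤ) : ac (k + 1) (l + 1) x =
    ac k (l + 1) (2 * x) + if (3 : ℤ) ∣ 2 * x - 1 then ac k l ((2 * x - 1) / 3) else 0 := rfl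
theorem pl_succ_zero (k : ℕ) (x : ℤ) : pl (k + 1) 0 x = pl k 0 (2 * x) := rfl
theorem pl_succ_succ (k l : ℕ) (x : ℤ) : pl (k + 1) (l + 1) x =
    pl k (l + 1) (2 * x) + if (3 : ℤ) ∣ 2 * x - 1 then pl k l ((2 * x - 1) / 3) else 0 := rfl

theorem ac_zero (k : ℕ) : ∀ x, ac k 0 x = 1 := by
  induction k with
  | zero => intro x; simp [ac]
  | succ k ih => intro x; rw [ac_succ_zero, ih]

theorem pl_zero (k : ℕ) : ∀ x : ℤ, pl k 0 x = if (3 : ℤ) ∣ x then 0 else 1 := by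
  induction k with
  | zero => intro x; by_cases h : (3 : ℤ) ∣ x <;> simp [pl, h]
  | succ k ih =>
    intro x
    rw [pl_succ_zero, ih]
    by_cases h : (3 : ℤ) ∣ x
    · rw [if_pos h, if_pos (by omega)]
    · rw [if_neg h, if_neg (by omega)]

theorem ac_of_dvd (k l : ℕ) : ∀ x : ℤ, (3 : ℤ) ∣ x → ac k (l + 1) x = 0 := by
  induction k with
  | zero => intro x _; exact ac_zero_succ l x
  | succ k ih =>
    intro x hx
    rw [ac_succ_succ, ih _ (Dvd.dvd.mul_left hx 2), if_neg (by omega)]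

theorem pl_of_dvd (k l : ℕ) : ∀ x : ℤ, (3 : ℤ) ∣ x → pl k l x = 0 := by
  induction k with
  | zero => intro x h; simp [pl, h]
  | succ k ih =>
    intro x hx
    cases l with
    | zero => rw [pl_succ_zero, ih _ (Dvd.dvd.mul_left hx 2)]
    | succ l => rw [pl_succ_succ, ih _ (Dvd.dvd.mul_left hx 2), if_neg (by omega)]

theorem pl_le_pc (k : ℕ) : ∀ (l : ℕ) (x : ℤ), pl k l x ≤ pc k x := by
  induction k with
  | zero => intro l x; by_cases h : (3 : ℤ) ∣ x <;> by_cases h' : l = 0 <;> simp [pl, pc, h, h']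
  | succ k ih =>
    intro l x
    rw [pc_succ]
    cases l with
    | zero => rw [pl_succ_zero]; exact (ih 0 _).trans (Nat.le_add_right _ _)
    | succ l =>
      rw [pl_succ_succ]
      have h1 := ih (l + 1) (2 * x)
      have h2 := ih l ((2 * x - 1) / 3)
      split_ifs <;> omega

/-- `ac k l` has period `3 ^ l` -/
theorem ac_periodic (k : ℕ) : ∀ (l : ℕ) (x t : ℤ), ac k l (x + 3 ^ l * t) = ac k l x := by
  induction k with
  | zero => intro l x t; simp [ac]
  | succ k ih =>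
    intro l x t
    cases l with
    | zero => rw [ac_zero, ac_zero]
    | succ l =>
      rw [ac_succ_succ, ac_succ_succ]
      have e1 : 2 * (x + 3 ^ (l + 1) * t) = 2 * x + 3 ^ (l + 1) * (2 * t) := by ring
      rw [e1, ih]
      have e2 : 2 * x + 3 ^ (l + 1) * (2 * t) - 1 = 2 * x - 1 + 3 * (3 ^ l * (2 * t)) := by ring
      rw [e2]
      have e3 : (3 : ℤ) ∣ 2 * x - 1 + 3 * (3 ^ l * (2 * t)) ↔ (3 : ℤ) ∣ 2 * x - 1 := by omega
      by_cases h : (3 : ℤ) ∣ 2 * x - 1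
      · rw [if_pos h, if_pos (e3.2 h), Int.add_mul_ediv_left _ _ (by norm_num), ih]
      · rw [if_neg h, if_neg (fun h' => h (e3.1 h'))]

theorem pl_periodic (k : ℕ) : ∀ (l : ℕ) (x t : ℤ), pl k l (x + 3 ^ (l + 1) * t) = pl k l x := by
  induction k with
  | zero =>
    intro l x t
    have : (3 : ℤ) ∣ x + 3 ^ (l + 1) * t ↔ (3 : ℤ) ∣ x := by
      rw [pow_succ]
      constructor
      · intro h
        have h2 : (3 : ℤ) ∣ 3 ^ l * 3 * t := ⟨3 ^ l * t, by ring⟩
        exact (Int.dvd_add_left h2).1 h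
      · intro h
        exact dvd_add h ⟨3 ^ l * t, by ring⟩
    simp [pl, this]
  | succ k ih =>
    intro l x t
    cases l with
    | zero =>
      rw [pl_zero, pl_zero]
      have : (3 : ℤ) ∣ x + 3 ^ (0 + 1) * t ↔ (3 : ℤ) ∣ x := by
        rw [zero_add, pow_one]; omega
      simp only [this]
    | succ l =>
      rw [pl_succ_succ, pl_succ_succ]
      have e1 : 2 * (x + 3 ^ (l + 1 + 1) * t) = 2 * x + 3 ^ (l + 1 + 1) * (2 * t) := by ring
      rw [e1, ih]
      have e2 : 2 * x + 3 ^ (l + 1 + 1) * (2 * t) - 1 = 2 * x - 1 + 3 * (3 ^ (l + 1) * (2 * t)) := by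
        ring
      rw [e2]
      have e3 : (3 : ℤ) ∣ 2 * x - 1 + 3 * (3 ^ (l + 1) * (2 * t)) ↔ (3 : ℤ) ∣ 2 * x - 1 := by omega
      by_cases h : (3 : ℤ) ∣ 2 * x - 1
      · rw [if_pos h, if_pos (e3.2 h), Int.add_mul_ediv_left _ _ (by norm_num), ih]
      · rw [if_neg h, if_neg (fun h' => h (e3.1 h'))]

theorem sum_range_three (f : ℕ → ℕ) : ∑ u ∈ range 3, f u = f 0 + f 1 + f 2 := by
  simp [sum_range_succ]

theorem two_mul_ac (k : ℕ) : ∀ (l : ℕ) (x : ℤ),
    2 * ac k l x = ∑ u ∈ range 3, pl k l (x + 3 ^ l * (u : ℤ)) := by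
  induction k with
  | zero =>
    intro l x
    rw [sum_range_three]
    cases l with
    | zero =>
      simp only [ac, pl, if_true, pow_zero, one_mul, Nat.cast_zero, add_zero, Nat.cast_one,
        true_and, Nat.cast_ofNat]
      by_cases h0 : (3 : ℤ) ∣ x
      · have h1 : ¬ (3 : ℤ) ∣ x + 1 := by omega
        have h2 : ¬ (3 : ℤ) ∣ x + 2 := by omega
        simp [h0, h1, h2]
      · by_cases h1 : (3 : ℤ) ∣ x + 1
        · have h2 : ¬ (3 : ℤ) ∣ x + 2 := by omega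
          simp [h0, h1, h2]
        · have h2 : (3 : ℤ) ∣ x + 2 := by omega
          simp [h0, h1, h2]
    | succ l => simp [ac, pl]
  | succ k ih =>
    intro l x
    rw [sum_range_three]
    cases l with
    | zero =>
      rw [ac_zero, pl_zero, pl_zero, pl_zero]
      simp only [pow_zero, one_mul, Nat.cast_zero, add_zero, Nat.cast_one, Nat.cast_ofNat]
      by_cases h0 : (3 : ℤ) ∣ x
      · have h1 : ¬ (3 : ℤ) ∣ x + 1 := by omega
        have h2 : ¬ (3 : ℤ) ∣ x + 2 := by omega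
        simp [h0, h1, h2]
      · by_cases h1 : (3 : ℤ) ∣ x + 1
        · have h2 : ¬ (3 : ℤ) ∣ x + 2 := by omega
          simp [h0, h1, h2]
        · have h2 : (3 : ℤ) ∣ x + 2 := by omega
          simp [h0, h1, h2]
    | succ l =>
      rw [pl_succ_succ, pl_succ_succ, pl_succ_succ, ac_succ_succ, mul_add]
      have e1 : ∀ u : ℤ, 2 * (x + 3 ^ (l + 1) * u) = 2 * x + 3 ^ (l + 1) * (2 * u) := by
        intro u; ring
      have e2 : ∀ u : ℤ, 2 * x + 3 ^ (l + 1) * (2 * u) - 1 = 2 * x - 1 + 3 * (3 ^ l * (2 * u)) := by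
        intro u; ring
      have e3 : ∀ u : ℤ, (3 : ℤ) ∣ 2 * x - 1 + 3 * (3 ^ l * (2 * u)) ↔ (3 : ℤ) ∣ 2 * x - 1 := by
        intro u; omega
      have p1 : pl k (l + 1) (2 * x + 3 ^ (l + 1) * (2 * ((2 : ℕ) : ℤ))) =
          pl k (l + 1) (2 * x + 3 ^ (l + 1) * ((1 : ℕ) : ℤ)) := by
        have : 2 * x + 3 ^ (l + 1) * (2 * ((2 : ℕ) : ℤ)) =
          (2 * x + 3 ^ (l + 1) * ((1 : ℕ) : ℤ)) + 3 ^ (l + 1 + 1) * 1 := by push_cast; ring
        rw [this, pl_periodic]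
      have p2 : ∀ y : ℤ, pl k l (y + 3 ^ l * (2 * ((2 : ℕ) : ℤ))) =
          pl k l (y + 3 ^ l * ((1 : ℕ) : ℤ)) := by
        intro y
        have : y + 3 ^ l * (2 * ((2 : ℕ) : ℤ)) =
          (y + 3 ^ l * ((1 : ℕ) : ℤ)) + 3 ^ (l + 1) * 1 := by push_cast; ring
        rw [this, pl_periodic]
      have h1 := ih (l + 1) (2 * x)
      have h2 := ih l ((2 * x - 1) / 3)
      rw [sum_range_three] at h1 h2
      simp only [e1, e2, e3]
      rw [p1]
      by_cases h : (3 : ℤ) ∣ 2 * x - 1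
      · simp only [h, if_true, Int.add_mul_ediv_left _ _ (show (3 : ℤ) ≠ 0 by norm_num), p2]
        rw [h1, h2]
        push_cast
        simp only [mul_zero, add_zero, mul_one]
        omega
      · simp only [h, if_false]
        rw [h1]
        push_cast
        simp only [mul_zero, add_zero, mul_one]
        omega

theorem two_mul_ac_le (k l : ℕ) (x : ℤ) : 2 * ac k l x ≤ 3 * M k := by
  rw [two_mul_ac, sum_range_three]
  have h : ∀ y : ℤ, pl k l y ≤ M k := fun y => (pl_le_pc k l y).trans (pc_le_M k y)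
  have h0 := h (x + 3 ^ l * ((0 : ℕ) : ℤ))
  have h1 := h (x + 3 ^ l * ((1 : ℕ) : ℤ))
  have h2 := h (x + 3 ^ l * ((2 : ℕ) : ℤ))
  omega

theorem ac_le (k l : ℕ) (x : ℤ) : ac k l x ≤ 2 * M k := by
  have := two_mul_ac_le k l x
  omega

/-- sum over the lifts of a residue class -/
def sa (k l : ℕ) (x : ℤ) : ℕ :=
  ac k (l + 1) x + ac k (l + 1) (x + 3 ^ l) + ac k (l + 1) (x + 3 ^ l * 2)

theorem sa_zero (l : ℕ) (x : ℤ) : sa 0 l x = 0 := by simp [sa, ac]

theorem sa_succ_zero (k : ℕ) (x : ℤ) : sa (k + 1) 0 x = sa k 0 (2 * x) + 1 := by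
  have key : ∀ u : ℤ, ac (k + 1) 1 u = ac k 1 (2 * u) + if (3 : ℤ) ∣ 2 * u - 1 then 1 else 0 := by
    intro u
    rw [ac_succ_succ, ac_zero]
  have per : ac k 1 (2 * (x + 2)) = ac k 1 (2 * x + 1) := by
    have : 2 * (x + 2) = (2 * x + 1) + 3 ^ 1 * 1 := by ring
    rw [this, ac_periodic]
  unfold sa
  simp only [pow_zero, one_mul, zero_add]
  rw [key x, key (x + 1), key (x + 2), per, show 2 * (x + 1) = 2 * x + 2 by ring]
  have hx : x % 3 = 0 ∨ x % 3 = 1 ∨ x % 3 = 2 := by omega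
  rcases hx with h | h | h
  · rw [if_neg (by omega), if_neg (by omega), if_pos (by omega)]; omega
  · rw [if_neg (by omega), if_pos (by omega), if_neg (by omega)]; omega
  · rw [if_pos (by omega), if_neg (by omega), if_neg (by omega)]; omega

theorem sa_succ_succ (k l : ℕ) (x : ℤ) : sa (k + 1) (l + 1) x =
    sa k (l + 1) (2 * x) + if (3 : ℤ) ∣ 2 * x - 1 then sa k l ((2 * x - 1) / 3) else 0 := by
  unfold sa
  rw [ac_succ_succ k (l + 1) x, ac_succ_succ k (l + 1), ac_succ_succ k (l + 1)]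
  have e1 : 2 * (x + 3 ^ (l + 1)) = 2 * x + 3 ^ (l + 1) * 2 := by ring
  have e1' : 2 * (x + 3 ^ (l + 1) * 2) = (2 * x + 3 ^ (l + 1)) + 3 ^ (l + 1 + 1) * 1 := by ring
  have e2 : 2 * x + 3 ^ (l + 1) * 2 - 1 = 2 * x - 1 + 3 * (3 ^ l * 2) := by ring
  have e2' : (2 * x + 3 ^ (l + 1)) + 3 ^ (l + 1 + 1) * 1 - 1 =
    2 * x - 1 + 3 * (3 ^ l + 3 ^ (l + 1) * 1) := by ring
  rw [e1, e1', e2, e2', ac_periodic]
  have e3 : (3 : ℤ) ∣ 2 * x - 1 + 3 * (3 ^ l * 2) ↔ (3 : ℤ) ∣ 2 * x - 1 := by omega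
  have e3' : (3 : ℤ) ∣ 2 * x - 1 + 3 * (3 ^ l + 3 ^ (l + 1) * 1) ↔ (3 : ℤ) ∣ 2 * x - 1 := by omega
  by_cases h : (3 : ℤ) ∣ 2 * x - 1
  · rw [if_pos h, if_pos (e3.2 h), if_pos (e3'.2 h), if_pos h,
      Int.add_mul_ediv_left _ _ (show (3 : ℤ) ≠ 0 by norm_num),
      Int.add_mul_ediv_left _ _ (show (3 : ℤ) ≠ 0 by norm_num),
      ← add_assoc ((2 * x - 1) / 3) (3 ^ l) (3 ^ (l + 1) * 1), ac_periodic]
    omega
  · rw [if_neg h, if_neg (fun h' => h (e3.1 h')), if_neg (fun h' => h (e3'.1 h')), if_neg h]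
    omega

/-- averaging over the lifts of a residue class -/
theorem sa_succ (k : ℕ) : ∀ (l : ℕ) (x : ℤ), sa (k + 1) l x = sa k l x + ac k l x := by
  induction k with
  | zero =>
    intro l x
    cases l with
    | zero => rw [sa_succ_zero, sa_zero, sa_zero, ac_zero_zero]
    | succ l =>
      rw [sa_succ_succ, sa_zero, sa_zero, sa_zero, ac_zero_succ]
      simp
  | succ k ih =>
    intro l x
    cases l with
    | zero =>
      rw [sa_succ_zero (k + 1), ih, sa_succ_zero, ac_zero, ac_zero]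
    | succ l =>
      rw [sa_succ_succ (k + 1), ih, sa_succ_succ k, ac_succ_succ k]
      by_cases h : (3 : ℤ) ∣ 2 * x - 1
      · rw [if_pos h, if_pos h, if_pos h, ih]; omega
      · rw [if_neg h, if_neg h, if_neg h]; omega

end Pool.Agent.Collatz3.UB
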