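import Pool.Agent.Collatz3.Ent

set_option autoImplicit false

/-!
Finitely additive probabilities and entropies of finite-valued functions.
-/

open Finset
open scoped Classical

namespace Pool.Agent.Collatz3.UB

/-- a finitely additive probability defined on all subsets -/
structure FAP (Ω : Type) where
  m : Set Ω → ℝ
  nonneg : ∀ A, 0 ≤ m A
  univ : m Set.univ = 1
  union : ∀ A B, Disjoint A B → m (A ∪ B) = m A + m B

/-- finite range -/
def FR {Ω α : Type} (X : Ω → α) : Prop := (Set.range X).Finite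

theorem FR.comp {Ω α β : Type} {X : Ω → α} (h : FR X) (g : α → β) : FR fun ω => g (X ω) := by
  have : Set.range (fun ω => g (X ω)) = g '' Set.range X := by
    rw [← Set.range_comp]; rfl
  unfold FR
  rw [this]
  exact Set.Finite.image g h

theorem FR.pair {Ω α β : Type} {X : Ω → α} {Y : Ω → β} (hX : FR X) (hY : FR Y) :
    FR fun ω => (X ω, Y ω) := by
  refine (Set.Finite.prod hX hY).subset ?_
  rintro _ ⟨ω, rfl⟩
  exact ⟨⟨ω, rfl⟩, ⟨ω, rfl⟩⟩

theorem FR.of_mem {Ω α : Type} {X : Ω → α} (I : Finset α) (h : ∀ ω, X ω ∈ I) : FR X := by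
  refine I.finite_toSet.subset ?_
  rintro _ ⟨ω, rfl⟩
  exact h ω

theorem FR.exists_finset {Ω α : Type} {X : Ω → α} (h : FR X) : ∃ I : Finset α, ∀ ω, X ω ∈ I :=
  ⟨h.toFinset, fun ω => by simp⟩

theorem FR.emod {Ω : Type} (X : Ω → ℤ) (N : ℕ) : FR fun ω => X ω % 3 ^ N := by
  refine FR.of_mem (Finset.Ico 0 (3 ^ N)) fun ω => ?_
  rw [Finset.mem_Ico]
  exact ⟨Int.emod_nonneg _ (by positivity), Int.emod_lt_of_pos _ (by positivity)⟩

theorem FR.const {Ω α : Type} (a : α) : FR fun _ : Ω => a :=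
  FR.of_mem {a} fun _ => by simp

namespace FAP

variable {Ω : Type} (P : FAP Ω)

theorem m_empty : P.m ∅ = 0 := by
  have := P.union ∅ ∅ (by simp)
  rw [Set.empty_union] at this
  linarith

theorem m_mono {A B : Set Ω} (h : A ⊆ B) : P.m A ≤ P.m B := by
  have := P.union A (B \ A) Set.disjoint_sdiff_right
  rw [Set.union_sdiff_cancel h] at this
  have := P.nonneg (B \ A)
  linarith

theorem m_le_one (A : Set Ω) : P.m A ≤ 1 := by
  rw [← P.univ]; exact P.m_mono (Set.subset_univ A)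

theorem m_biUnion {ι : Type*} (t : Finset ι) (A : ι → Set Ω)
    (hd : ∀ i ∈ t, ∀ j ∈ t, i ≠ j → Disjoint (A i) (A j)) :
    P.m (⋃ i ∈ t, A i) = ∑ i ∈ t, P.m (A i) := by
  induction t using Finset.induction_on with
  | empty => simp [P.m_empty]
  | insert a t ha ih =>
    rw [Finset.set_biUnion_insert, P.union, sum_insert ha, ih]
    · intro i hi j hj hij
      exact hd i (mem_insert_of_mem hi) j (mem_insert_of_mem hj) hij
    · rw [Set.disjoint_iUnion₂_right]
      intro i hi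
      exact hd a (mem_insert_self _ _) i (mem_insert_of_mem hi) (by rintro rfl; exact ha hi)

/-- entropy -/
noncomputable def H {α : Type} (X : Ω → α) : ℝ := ∑ᶠ a, Real.negMulLog (P.m {ω | X ω = a})

theorem H_eq_sum {α : Type} (X : Ω → α) (I : Finset α) (hI : ∀ ω, X ω ∈ I) :
    P.H X = ∑ a ∈ I, Real.negMulLog (P.m {ω | X ω = a}) := by
  unfold H
  refine finsum_eq_sum_of_support_subset _ ?_
  intro a ha
  rw [Function.mem_support] at ha
  by_contra h
  apply ha
  have : {ω | X ω = a} = ∅ := by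
    ext ω
    simp only [Set.mem_ofPred_eq, Set.mem_empty_iff_false, iff_false]
    rintro rfl
    exact h (hI ω)
  rw [this, P.m_empty, Real.negMulLog_zero]

/-- finite representation of `P` on the functions determined by `Z` -/
theorem exists_rep {ζ : Type} (Z : Ω → ζ) (hZ : FR Z) :
    ∃ (s : Finset Ω) (p : Ω → ℝ), (∀ ω ∈ s, 0 ≤ p ω) ∧ (∑ ω ∈ s, p ω = 1) ∧
      ∀ {α : Type} (X : Ω → α), (∀ ω ω', Z ω = Z ω' → X ω = X ω') →
        ∀ a, mv s p X a = P.m {ω | X ω = a} := by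
  have hne : Nonempty Ω := by
    by_contra h
    rw [not_nonempty_iff] at h
    have h1 := P.univ
    rw [Set.univ_eq_empty_iff.2 h, P.m_empty] at h1
    exact zero_ne_one h1
  set r : ζ → Ω := Function.invFun Z with hr
  have hrZ : ∀ ω, Z (r (Z ω)) = Z ω := fun ω => Function.invFun_eq ⟨ω, rfl⟩
  set s : Finset Ω := hZ.toFinset.image r with hs
  have hmem : ∀ ω, r (Z ω) ∈ s := fun ω => by
    rw [hs, mem_image]
    exact ⟨Z ω, by simp, rfl⟩
  have hfix : ∀ ω ∈ s, r (Z ω) = ω := by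
    intro ω hω
    rw [hs, mem_image] at hω
    obtain ⟨z, hz, rfl⟩ := hω
    rw [Set.Finite.mem_toFinset] at hz
    obtain ⟨ω', rfl⟩ := hz
    rw [hrZ]
  set p : Ω → ℝ := fun ω => P.m {ω' | Z ω' = Z ω} with hp
  have key : ∀ {α : Type} (X : Ω → α), (∀ ω ω', Z ω = Z ω' → X ω = X ω') →
        ∀ a, mv s p X a = P.m {ω | X ω = a} := by
    intro α X hX a
    have e : {ω | X ω = a} = ⋃ ω ∈ s.filter (fun ω => X ω = a), {ω' | Z ω' = Z ω} := by
      ext ω
      simp only [Set.mem_ofPred_eq, Set.mem_iUnion, mem_filter, exists_prop]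
      constructor
      · intro h
        refine ⟨r (Z ω), ⟨hmem ω, ?_⟩, (hrZ ω).symm⟩
        rw [← h]; exact hX _ _ (hrZ ω)
      · rintro ⟨ω', ⟨_, h2⟩, h3⟩
        rw [← h2]; exact hX _ _ h3
    rw [e, P.m_biUnion]
    · rfl
    · intro i hi j hj hij
      rw [Set.disjoint_left]
      intro ω h1 h2
      simp only [Set.mem_ofPred_eq] at h1 h2
      apply hij
      rw [← hfix i (mem_filter.1 hi).1, ← hfix j (mem_filter.1 hj).1, ← h1, ← h2]
  refine ⟨s, p, fun ω _ => P.nonneg _, ?_, key⟩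
  have h1 := key (fun _ => ()) (fun _ _ _ => rfl) ()
  have h2 : {ω : Ω | () = ()} = Set.univ := by ext; simp
  rw [h2, P.univ] at h1
  rw [← h1]
  unfold mv
  exact sum_congr (by simp) fun _ _ => rfl

/-- expectations only depend on the law -/
theorem sum_eq_sum_law {ι : Type*} (s : Finset ι) (q : ι → ℝ) {α : Type} (X' : ι → α) (X : Ω → α)
    (hX : ∀ a, mv s q X' a = P.m {ω | X ω = a}) (I : Finset α) (hI : ∀ ω, X ω ∈ I)
    (hI' : ∀ i ∈ s, X' i ∈ I) (g : α → ℝ) :
    ∑ i ∈ s, q i * g (X' i) = ∑ a ∈ I, P.m {ω | X ω = a} * g a := by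
  rw [← sum_fiberwise_of_maps_to (g := X') hI']
  refine sum_congr rfl fun a _ => ?_
  rw [← hX a]
  unfold mv
  rw [sum_mul]
  refine sum_congr rfl fun i hi => ?_
  rw [(mem_filter.1 hi).2]

theorem cH_eq {ι : Type*} (s : Finset ι) (q : ι → ℝ) {α β : Type} (X' : ι → α) (Y' : ι → β)
    (X : Ω → α) (Y : Ω → β) (hXY : ∀ a, mv s q (fun i => (X' i, Y' i)) a = P.m {ω | (X ω, Y ω) = a})
    (hY : ∀ a, mv s q Y' a = P.m {ω | Y ω = a}) (I : Finset α) (J : Finset β)
    (hI : ∀ ω, X ω ∈ I) (hI' : ∀ i ∈ s, X' i ∈ I) (hJ : ∀ ω, Y ω ∈ J) (hJ' : ∀ i ∈ s, Y' i ∈ J) :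
    cH s q X' Y' = P.H (fun ω => (X ω, Y ω)) - P.H Y := by
  have h1 : ∑ i ∈ s, q i * Real.log (mv s q Y' (Y' i)) = - P.H Y := by
    rw [P.sum_eq_sum_law s q Y' Y hY J hJ hJ' (fun a => Real.log (mv s q Y' a)), P.H_eq_sum Y J hJ,
      ← sum_neg_distrib]
    refine sum_congr rfl fun a _ => ?_
    rw [hY a, Real.negMulLog]; ring
  have h2 : ∑ i ∈ s, q i * Real.log (mv s q (fun i => (X' i, Y' i)) (X' i, Y' i)) =
      - P.H (fun ω => (X ω, Y ω)) := by
    rw [P.sum_eq_sum_law s q (fun i => (X' i, Y' i)) (fun ω => (X ω, Y ω)) hXY (I ×ˢ J)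
      (fun ω => mem_product.2 ⟨hI ω, hJ ω⟩) (fun i hi => mem_product.2 ⟨hI' i hi, hJ' i hi⟩)
      (fun a => Real.log (mv s q (fun i => (X' i, Y' i)) a)),
      P.H_eq_sum _ (I ×ˢ J) (fun ω => mem_product.2 ⟨hI ω, hJ ω⟩), ← sum_neg_distrib]
    refine sum_congr rfl fun a _ => ?_
    rw [hXY a, Real.negMulLog]; ring
  unfold cH
  simp only [mul_sub, sum_sub_distrib]
  rw [h1, h2]
  ring

theorem cH_eq_rep (s : Finset Ω) (q : Ω → ℝ) {α β ζ : Type} (Z : Ω → ζ)
    (h : ∀ {α : Type} (X : Ω → α), (∀ ω ω', Z ω = Z ω' → X ω = X ω') →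
        ∀ a, mv s q X a = P.m {ω | X ω = a}) (X : Ω → α) (Y : Ω → β) (hXr : FR X) (hYr : FR Y)
    (hX : ∀ ω ω', Z ω = Z ω' → X ω = X ω') (hY : ∀ ω ω', Z ω = Z ω' → Y ω = Y ω') :
    cH s q X Y = P.H (fun ω => (X ω, Y ω)) - P.H Y := by
  obtain ⟨I, hI⟩ := hXr.exists_finset
  obtain ⟨J, hJ⟩ := hYr.exists_finset
  refine P.cH_eq s q X Y X Y (h _ fun ω ω' hz => ?_) (h _ hY) I J hI (fun i _ => hI i) hJ
    (fun i _ => hJ i)
  rw [hX ω ω' hz, hY ω ω' hz]

/-- invariance under a map -/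
theorem H_comp_of_inv {T : Ω → Ω} (hT : ∀ A, P.m (T ⁻¹' A) = P.m A) {α : Type} (X : Ω → α) :
    P.H (fun ω => X (T ω)) = P.H X := by
  unfold H
  refine finsum_congr fun a => ?_
  congr 1
  exact hT {ω | X ω = a}

theorem H_congr {α β : Type} (X : Ω → α) (Y : Ω → β) (hXr : FR X) (hYr : FR Y)
    (h : ∀ ω ω', X ω = X ω' ↔ Y ω = Y ω') : P.H X = P.H Y := by
  obtain ⟨s, q, _, _, h3⟩ := P.exists_rep X hXr
  have e1 := P.cH_eq_rep s q X h3 X (fun _ => ()) hXr (FR.const ()) (fun _ _ h => h)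
    (fun _ _ _ => rfl)
  have e2 := P.cH_eq_rep s q X h3 Y (fun _ => ()) hYr (FR.const ()) (fun _ _ h' => (h _ _).1 h')
    (fun _ _ _ => rfl)
  have e3 : cH s q X (fun _ => ()) = cH s q Y (fun _ => ()) := by
    refine cH_congr _ _ _ _ (fun _ _ _ _ _ _ => Iff.rfl) fun ω _ _ ω' _ _ => ?_
    rw [h ω ω']
  have u1 : ∀ {γ : Type} (W : Ω → γ), FR W → P.H (fun ω => (W ω, ())) = P.H W := by
    intro γ W hW
    obtain ⟨I, hI⟩ := hW.exists_finset
    rw [P.H_eq_sum W I hI, P.H_eq_sum (fun ω => (W ω, ())) (I ×ˢ {()}) (fun ω => by simp [hI ω]),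
      sum_product]
    refine sum_congr rfl fun a _ => ?_
    rw [sum_singleton]
    congr 2
    ext ω
    simp
  rw [u1 X hXr] at e1
  rw [u1 Y hYr] at e2
  linarith

end FAP

/-! ### ultralimits -/

/-- ultralimit of a bounded sequence -/
theorem exists_ulim (f : ℕ → ℝ) (h0 : ∀ n, 0 ≤ f n) (h1 : ∀ n, f n ≤ 1) :
    ∃ x : ℝ, Filter.Tendsto f (Filter.hyperfilter ℕ : Filter ℕ) (nhds x) := by
  have hc : IsCompact (Set.Icc (0 : ℝ) 1) := isCompact_Icc
  have := hc.ultrafilter_le_nhds ((Filter.hyperfilter ℕ).map f) (by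
    rw [Filter.le_principal_iff, Ultrafilter.mem_coe, Ultrafilter.mem_map]
    exact Filter.univ_mem' fun n => ⟨h0 n, h1 n⟩)
  obtain ⟨x, _, hx⟩ := this
  exact ⟨x, hx⟩

/-- ultralimit of finitely additive probabilities -/
noncomputable def ulim {Ω : Type} (P : ℕ → FAP Ω) : FAP Ω where
  m A := Classical.choose (exists_ulim (fun n => (P n).m A) (fun n => (P n).nonneg A)
    (fun n => (P n).m_le_one A))
  nonneg A := ge_of_tendsto' (Classical.choose_spec (exists_ulim (fun n => (P n).m A)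
    (fun n => (P n).nonneg A) (fun n => (P n).m_le_one A))) fun n => (P n).nonneg A
  univ := by
    refine tendsto_nhds_unique (Classical.choose_spec (exists_ulim (fun n => (P n).m Set.univ)
      (fun n => (P n).nonneg _) (fun n => (P n).m_le_one _))) ?_
    simp only [FAP.univ]
    exact tendsto_const_nhds
  union A B hAB := by
    refine tendsto_nhds_unique (Classical.choose_spec (exists_ulim (fun n => (P n).m (A ∪ B))
      (fun n => (P n).nonneg _) (fun n => (P n).m_le_one _))) ?_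
    have h1 := Classical.choose_spec (exists_ulim (fun n => (P n).m A)
      (fun n => (P n).nonneg _) (fun n => (P n).m_le_one _))
    have h2 := Classical.choose_spec (exists_ulim (fun n => (P n).m B)
      (fun n => (P n).nonneg _) (fun n => (P n).m_le_one _))
    refine (h1.add h2).congr fun n => ?_
    rw [(P n).union A B hAB]

theorem tendsto_ulim {Ω : Type} (P : ℕ → FAP Ω) (A : Set Ω) :
    Filter.Tendsto (fun n => (P n).m A) (Filter.hyperfilter ℕ : Filter ℕ) (nhds ((ulim P).m A)) :=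
  Classical.choose_spec (exists_ulim (fun n => (P n).m A) (fun n => (P n).nonneg A)
    (fun n => (P n).m_le_one A))

theorem tendsto_ulim_H {Ω α : Type} (P : ℕ → FAP Ω) (X : Ω → α) (hX : FR X) :
    Filter.Tendsto (fun n => (P n).H X) (Filter.hyperfilter ℕ : Filter ℕ) (nhds ((ulim P).H X)) := by
  obtain ⟨I, hI⟩ := hX.exists_finset
  rw [(ulim P).H_eq_sum X I hI]
  simp only [fun n => (P n).H_eq_sum X I hI]
  refine tendsto_finsetSum I fun a _ => ?_
  exact (Real.continuous_negMulLog.tendsto _).comp (tendsto_ulim P _)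

theorem tendsto_hyperfilter {f : ℕ → ℝ} {x : ℝ} (h : Filter.Tendsto f Filter.atTop (nhds x)) :
    Filter.Tendsto f (Filter.hyperfilter ℕ : Filter ℕ) (nhds x) := by
  refine h.mono_left ?_
  rw [← Nat.cofinite_eq_atTop]
  exact Filter.hyperfilter_le_cofinite

/-- finitely additive probability from finitely many weighted points -/
noncomputable def ofFinset {Ω : Type} {ι : Type*} (s : Finset ι) (q : ι → ℝ) (hq : ∀ i ∈ s, 0 ≤ q i)
    (h1 : ∑ i ∈ s, q i = 1) (f : ι → Ω) : FAP Ω where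
  m A := ∑ i ∈ s with f i ∈ A, q i
  nonneg A := sum_nonneg fun i hi => hq i (mem_filter.1 hi).1
  univ := by simpa using h1
  union A B hAB := by
    rw [← sum_union]
    · refine sum_congr ?_ fun _ _ => rfl
      ext i; simp only [mem_filter, mem_union, Set.mem_union]; tauto
    · rw [Finset.disjoint_left]
      intro i hi hj
      exact Set.disjoint_left.1 hAB (mem_filter.1 hi).2 (mem_filter.1 hj).2

theorem ofFinset_cH {Ω : Type} {ι : Type*} (s : Finset ι) (q : ι → ℝ) (hq : ∀ i ∈ s, 0 ≤ q i)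
    (h1 : ∑ i ∈ s, q i = 1) (f : ι → Ω) {α β : Type} (X : Ω → α) (Y : Ω → β) (hX : FR X) (hY : FR Y) :
    (ofFinset s q hq h1 f).H (fun ω => (X ω, Y ω)) - (ofFinset s q hq h1 f).H Y =
      cH s q (fun i => X (f i)) (fun i => Y (f i)) := by
  obtain ⟨I, hI⟩ := hX.exists_finset
  obtain ⟨J, hJ⟩ := hY.exists_finset
  refine ((ofFinset s q hq h1 f).cH_eq s q (fun i => X (f i)) (fun i => Y (f i)) X Y ?_ ?_ I J hI
    (fun i _ => hI _) hJ (fun i _ => hJ _)).symm
  · intro a; rfl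
  · intro a; rfl

end Pool.Agent.Collatz3.UB
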