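import Pool.Agent.Collatz3.UBMain

set_option autoImplicit false

/-!
Upper bound for the number of all preimages.
-/

open Finset

namespace Pool.Agent.Collatz3.UB

/-- all words of length `k` -/
def tc : ℕ → ℤ → ℕ
  | 0, _ => 1
  | k + 1, x => tc k (2 * x) + if (3 : ℤ) ∣ 2 * x - 1 then tc k ((2 * x - 1) / 3) else 0

theorem tc_succ (k : ℕ) (x : ℤ) : tc (k + 1) x =
    tc k (2 * x) + if (3 : ℤ) ∣ 2 * x - 1 then tc k ((2 * x - 1) / 3) else 0 := rfl

theorem tc_le (k : ℕ) : ∀ x : ℤ, tc k x ≤ ∑ l ∈ range (k + 1), ac k l x := by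
  induction k with
  | zero => intro x; simp [tc, ac]
  | succ k ih =>
    intro x
    rw [tc_succ, sum_range_succ', ac_succ_zero]
    simp only [ac_succ_succ]
    rw [sum_add_distrib]
    have h1 := ih (2 * x)
    have h2 : ∑ l ∈ range (k + 1), ac k l (2 * x) ≤
        ∑ l ∈ range (k + 1), ac k (l + 1) (2 * x) + ac k 0 (2 * x) := by
      rw [← sum_range_succ' (fun l => ac k l (2 * x)) (k + 1)]
      exact sum_le_sum_of_subset (range_mono (by omega))
    by_cases h3 : (3 : ℤ) ∣ 2 * x - 1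
    · simp only [h3, if_true]
      have := ih ((2 * x - 1) / 3)
      omega
    · simp only [h3, if_false, sum_const_zero]
      omega

theorem tc_le' (k : ℕ) (x : ℤ) : tc k x ≤ (k + 1) * (2 * M k) := by
  refine (tc_le k x).trans ?_
  refine (sum_le_sum fun l _ => ac_le k l x).trans ?_
  rw [sum_const, card_range, smul_eq_mul]

/-- the number of preimages -/
theorem ncard_le (k : ℕ) : ∀ a : ℕ, {n : ℕ | 1 ≤ n ∧
      (fun m : ℕ => if m % 2 = 0 then m / 2 else (3 * m + 1) / 2)^[k] n = a}.Finite ∧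
    {n : ℕ | 1 ≤ n ∧
      (fun m : ℕ => if m % 2 = 0 then m / 2 else (3 * m + 1) / 2)^[k] n = a}.ncard ≤ tc k a := by
  induction k with
  | zero =>
    intro a
    have h : {n : ℕ | 1 ≤ n ∧
      (fun m : ℕ => if m % 2 = 0 then m / 2 else (3 * m + 1) / 2)^[0] n = a} ⊆ {a} := by
      rintro n ⟨_, h⟩
      simpa using h
    refine ⟨(Set.finite_singleton a).subset h, ?_⟩
    refine (Set.ncard_le_ncard h (Set.finite_singleton a)).trans ?_
    simp [tc]
  | succ k ih =>
    intro a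
    set T : ℕ → ℕ := fun m : ℕ => if m % 2 = 0 then m / 2 else (3 * m + 1) / 2 with hT
    have hsub : {n : ℕ | 1 ≤ n ∧ T^[k + 1] n = a} ⊆ {n : ℕ | 1 ≤ n ∧ T^[k] n = 2 * a} ∪
        (if (3 : ℤ) ∣ 2 * (a : ℤ) - 1 then {n : ℕ | 1 ≤ n ∧ T^[k] n = (2 * a - 1) / 3} else ∅) := by
      rintro n ⟨h1, h2⟩
      rw [Function.iterate_succ_apply'] at h2
      set m := T^[k] n with hm
      by_cases he : m % 2 = 0
      · left
        refine ⟨h1, ?_⟩
        change T m = a at h2
        rw [hT] at h2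
        simp only [he, if_true] at h2
        rw [← hm]; omega
      · right
        change T m = a at h2
        rw [hT] at h2
        simp only [he, if_false] at h2
        rw [if_pos (by omega)]
        refine ⟨h1, ?_⟩
        rw [← hm]; omega
    have hcast : (3 : ℤ) ∣ 2 * (a : ℤ) - 1 → (((2 * a - 1) / 3 : ℕ) : ℤ) = (2 * (a : ℤ) - 1) / 3 := by
      intro h; omega
    obtain ⟨f1, c1⟩ := ih (2 * a)
    obtain ⟨f2, c2⟩ := ih ((2 * a - 1) / 3)
    by_cases h3 : (3 : ℤ) ∣ 2 * (a : ℤ) - 1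
    · rw [if_pos h3] at hsub
      refine ⟨(f1.union f2).subset hsub, ?_⟩
      refine (Set.ncard_le_ncard hsub (f1.union f2)).trans ((Set.ncard_union_le _ _).trans ?_)
      rw [tc_succ, if_pos h3, ← hcast h3]
      push_cast at c1
      omega
    · rw [if_neg h3, Set.union_empty] at hsub
      refine ⟨f1.subset hsub, ?_⟩
      refine (Set.ncard_le_ncard hsub f1).trans ?_
      rw [tc_succ, if_neg h3]
      push_cast at c1
      omega

/-- the upper bound, given the digit lemma -/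
theorem upper_of_digit (hDig : ∀ e1 : ℝ, 0 < e1 → ∃ K1 : ℝ, 0 ≤ K1 ∧ ∀ d : ℕ, ∃ K2 : ℝ, 0 ≤ K2 ∧
    DigitAt e1 K1 d K2) (e : ℝ) (he : 0 < e) : ∃ K : ℕ, ∀ k, K ≤ k → ∀ a : ℕ,
      ((Set.ncard {n : ℕ | 1 ≤ n ∧
        (fun m : ℕ => if m % 2 = 0 then m / 2 else (3 * m + 1) / 2)^[k] n = a} : ℕ) : ℝ) ≤
      Real.exp ((Real.log (4 / 3) + e) * k) := by
  have hL := PathZ.L_le_of_digit hDig
  obtain ⟨K1, hK1⟩ := log_M_le (show 0 < e / 2 by linarith)
  obtain ⟨K2, hK2⟩ := log_small (Real.log 2) 1 (e / 2) (Real.log_nonneg (by norm_num)) (by norm_num)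
    (by linarith)
  refine ⟨K1 + K2, fun k hk a => ?_⟩
  have h1 := (ncard_le k a).2
  have h2 := h1.trans (tc_le' k a)
  have hM : (0 : ℝ) < M k := by exact_mod_cast one_le_M k
  have h3 : (((k + 1) * (2 * M k) : ℕ) : ℝ) ≤ Real.exp ((Real.log (4 / 3) + e) * k) := by
    rw [← Real.log_le_iff_le_exp (by have := one_le_M k; positivity)]
    push_cast
    rw [Real.log_mul (by positivity) (by positivity), Real.log_mul (by norm_num) hM.ne']
    have h4 := hK1 k (by omega)
    have h5 := hK2 k (by omega)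
    have h6 : (L + e / 2) * k ≤ (Real.log (4 / 3) + e / 2) * k :=
      mul_le_mul_of_nonneg_right (by linarith) (Nat.cast_nonneg k)
    linarith
  exact le_trans (by exact_mod_cast h2) h3

end Pool.Agent.Collatz3.UB
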