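import Pool.Agent.Collatz3.UBThree

set_option autoImplicit false

/-!
The growth rate of the pruned trees is at most `log (4 / 3)`.
-/

open Finset
open scoped Classical

namespace Pool.Agent.Collatz3.UB

theorem log_succ_le (k : ℕ) : Real.log ((k : ℝ) + 1) ≤ 2 * Real.sqrt k := by
  have hk : (0 : ℝ) ≤ k := Nat.cast_nonneg k
  have h1 : Real.log ((k : ℝ) + 1) = 2 * Real.log (Real.sqrt ((k : ℝ) + 1)) := by
    rw [Real.log_sqrt (by linarith)]; ring
  have h2 := Real.log_le_sub_one_of_pos (show 0 < Real.sqrt ((k : ℝ) + 1) from Real.sqrt_pos.2 (by linarith))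
  have h3 : Real.sqrt ((k : ℝ) + 1) ≤ Real.sqrt k + 1 := by
    rw [Real.sqrt_le_left (by positivity)]
    nlinarith [Real.sq_sqrt hk, Real.sqrt_nonneg (k : ℝ)]
  linarith

theorem log_small (a b c : ℝ) (ha : 0 ≤ a) (hb : 0 ≤ b) (hc : 0 < c) : ∃ K : ℕ, ∀ k : ℕ, K ≤ k →
    a + b * Real.log ((k : ℝ) + 1) ≤ c * k := by
  set T : ℝ := (a + 2 * b) / c + 1 with hT
  have hT1 : 1 ≤ T := by
    have : 0 ≤ (a + 2 * b) / c := by positivity
    linarith
  refine ⟨⌈T ^ 2⌉₊, fun k hk => ?_⟩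
  have h1 : T ^ 2 ≤ k := (Nat.le_ceil _).trans (by exact_mod_cast hk)
  have h2 : T ≤ Real.sqrt k := Real.le_sqrt_of_sq_le h1
  have h3 := log_succ_le k
  have h4 := Real.mul_self_sqrt (Nat.cast_nonneg (α := ℝ) k)
  have h5 : c * T = a + 2 * b + c := by rw [hT]; field_simp
  have h6 : 1 ≤ Real.sqrt k := hT1.trans h2
  have h7 : c * T * Real.sqrt k ≤ c * (Real.sqrt k * Real.sqrt k) := by
    have := mul_le_mul_of_nonneg_left h2 hc.le
    have := mul_le_mul_of_nonneg_right this (Real.sqrt_nonneg (k : ℝ))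
    linarith
  rw [h5, h4] at h7
  have h8 := mul_le_mul_of_nonneg_left h3 hb
  nlinarith

namespace PathZ

variable {P : FAP PathZ}

theorem HW_nonneg (k : ℕ) : 0 ≤ HW P k := by
  obtain ⟨s, p, hR⟩ := exists_RepK P (k + 0) 0
  rw [← h_w k 0 0 hR]
  exact cH_nonneg hR.1 _ _

theorem FW_nonneg (k : ℕ) : 0 ≤ FW P k := by
  obtain ⟨s, p, hR⟩ := exists_RepK P (k + 0) 0
  rw [← h_wx k 0 0 hR]
  exact cH_nonneg hR.1 _ _

/-- the two entropies together -/
noncomputable def GW (P : FAP PathZ) (k : ℕ) : ℝ := HW P k + FW P k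

theorem GW_nonneg (k : ℕ) : 0 ≤ GW P k := add_nonneg (HW_nonneg k) (FW_nonneg k)

theorem GW_add_le (hI : Inv P) (k m : ℕ) :
    GW P (k + m) ≤ GW P k + GW P m + Real.log ((k : ℝ) + 1) := by
  obtain ⟨s, p, hR⟩ := exists_RepK P (k + m) 0
  have h1 := HW_add_le hI k m 0 hR
  have h2 := FW_add_le hI k m 0 hR
  unfold GW
  linarith

theorem GW_mul_le (hI : Inv P) (k i : ℕ) (hi : 1 ≤ i) :
    GW P (i * k) ≤ i * (GW P k + Real.log ((i * k : ℕ) + 1)) := by
  induction i with
  | zero => omega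
  | succ i ih =>
    rcases Nat.eq_zero_or_pos i with h | h
    · subst h
      simp only [zero_add, one_mul, Nat.cast_one]
      have : 0 ≤ Real.log ((k : ℝ) + 1) := Real.log_nonneg (by
        have : (0 : ℝ) ≤ k := Nat.cast_nonneg k
        linarith)
      linarith
    · have h1 := ih h
      have h2 := GW_add_le hI (i * k) k
      have h3 : Real.log (((i * k : ℕ) : ℝ) + 1) ≤ Real.log ((((i + 1) * k : ℕ) : ℝ) + 1) := by
        apply Real.log_le_log
        · positivity
        · have : i * k ≤ (i + 1) * k := Nat.mul_le_mul_right _ (by omega)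
          have : ((i * k : ℕ) : ℝ) ≤ (((i + 1) * k : ℕ) : ℝ) := by exact_mod_cast this
          linarith
      rw [show (i + 1) * k = i * k + k by ring] at *
      have h4 : (0 : ℝ) ≤ i := Nat.cast_nonneg i
      have h5 := mul_le_mul_of_nonneg_left h3 h4
      push_cast at *
      nlinarith

theorem exists_k (hI : Inv P) {η : ℝ} (hη : 0 < η) (K0 : ℕ) : ∃ k : ℕ, K0 ≤ k ∧
    GW P k + GW P (20 * k) - GW P (k + 20 * k) ≤ η * k := by
  by_contra hcon
  push Not at hcon
  obtain ⟨K1, hK1⟩ := log_small (20 * Real.log 20) 20 (η / 2)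
    (mul_nonneg (by norm_num) (Real.log_nonneg (by norm_num))) (by norm_num) (by linarith)
  set K2 := K0 + K1 + 1 with hK2
  have hstep : ∀ k, K2 ≤ k → GW P (21 * k) ≤ 21 * GW P k - η / 2 * k := by
    intro k hk
    have h1 := hcon k (by omega)
    have h2 := GW_mul_le hI k 20 (by norm_num)
    have h3 := hK1 k (by omega)
    have h4 : Real.log (((20 * k : ℕ) : ℝ) + 1) ≤ Real.log 20 + Real.log ((k : ℝ) + 1) := by
      rw [← Real.log_mul (by norm_num) (by positivity)]
      apply Real.log_le_log (by positivity)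
      push_cast; linarith
    rw [show k + 20 * k = 21 * k by ring] at h1
    push_cast at h2 h4 ⊢
    nlinarith
  have hiter : ∀ i : ℕ, GW P (21 ^ i * K2) ≤ 21 ^ i * (GW P K2 - i * (η / 42 * K2)) := by
    intro i
    induction i with
    | zero => simp
    | succ i ih =>
      have h1 := hstep (21 ^ i * K2) (Nat.le_mul_of_pos_left _ (by positivity))
      rw [show 21 * (21 ^ i * K2) = 21 ^ (i + 1) * K2 by ring] at h1
      refine h1.trans ?_
      have h2 : (21 : ℝ) * GW P (21 ^ i * K2) ≤ 21 * (21 ^ i * (GW P K2 - i * (η / 42 * K2))) := by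
        linarith
      push_cast
      rw [pow_succ]
      nlinarith
  have hK2pos : (0 : ℝ) < K2 := by rw [hK2]; positivity
  obtain ⟨i, hi⟩ := exists_nat_gt (GW P K2 / (η / 42 * K2))
  rw [div_lt_iff₀ (by positivity)] at hi
  have h1 := hiter i
  have h2 := GW_nonneg (P := P) (21 ^ i * K2)
  have h3 : (21 : ℝ) ^ i * (GW P K2 - i * (η / 42 * K2)) < 0 :=
    mul_neg_of_pos_of_neg (by positivity) (by linarith)
  linarith

/-! ### words with few ones -/

/-- all words of length `m` -/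
def WW (m : ℕ) : Set (ℕ × ℕ) := Set.range (W m)

theorem WW_finite (m : ℕ) : (WW m).Finite := FR_W m

theorem WW_sum (m : ℕ) : ∑ w ∈ (WW_finite m).toFinset, ((1 : ℝ) / 16) ^ w.1 ≤ (17 / 16) ^ m := by
  induction m with
  | zero =>
    have : (WW_finite 0).toFinset = {(0, 0)} := by
      ext w
      simp only [Set.Finite.mem_toFinset, mem_singleton]
      constructor
      · rintro ⟨ω, rfl⟩; rfl
      · rintro rfl
        obtain ⟨ω, _⟩ := exists_start 1 (by decide)
        exact ⟨ω, rfl⟩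
    rw [this]; simp
  | succ m ih =>
    set f0 : ℕ × ℕ → ℕ × ℕ := fun w => (w.1, 2 * w.2) with hf0
    set f1 : ℕ × ℕ → ℕ × ℕ := fun w => (w.1 + 1, 2 * w.2 + 3 ^ w.1) with hf1
    have i0 : Function.Injective f0 := by
      intro a a' h
      simp only [hf0, Prod.mk.injEq] at h
      exact Prod.ext h.1 (by omega)
    have i1 : Function.Injective f1 := by
      intro a a' h
      simp only [hf1, Prod.mk.injEq] at h
      obtain ⟨h1, h2⟩ := h
      have h3 : a.1 = a'.1 := by omega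
      rw [h3] at h2
      exact Prod.ext h3 (by omega)
    have hsub : (WW_finite (m + 1)).toFinset ⊆
        (WW_finite m).toFinset.image f0 ∪ (WW_finite m).toFinset.image f1 := by
      intro w hw
      rw [Set.Finite.mem_toFinset] at hw
      obtain ⟨ω, rfl⟩ := hw
      rw [mem_union, mem_image, mem_image]
      rcases ω.e_cases m with h | h
      · left
        refine ⟨W m ω, by rw [Set.Finite.mem_toFinset]; exact ⟨ω, rfl⟩, ?_⟩
        simp only [hf0, W, j_succ, c_succ, h]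
        simp
      · right
        refine ⟨W m ω, by rw [Set.Finite.mem_toFinset]; exact ⟨ω, rfl⟩, ?_⟩
        simp only [hf1, W, j_succ, c_succ, h]
        simp
    calc ∑ w ∈ (WW_finite (m + 1)).toFinset, ((1 : ℝ) / 16) ^ w.1
        ≤ ∑ w ∈ (WW_finite m).toFinset.image f0 ∪ (WW_finite m).toFinset.image f1,
          ((1 : ℝ) / 16) ^ w.1 := sum_le_sum_of_subset_of_nonneg hsub fun _ _ _ => by positivity
      _ ≤ ∑ w ∈ (WW_finite m).toFinset.image f0, ((1 : ℝ) / 16) ^ w.1 +
          ∑ w ∈ (WW_finite m).toFinset.image f1, ((1 : ℝ) / 16) ^ w.1 := by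
          rw [← sum_union_inter]
          have : 0 ≤ ∑ w ∈ (WW_finite m).toFinset.image f0 ∩ (WW_finite m).toFinset.image f1,
            ((1 : ℝ) / 16) ^ w.1 := sum_nonneg fun _ _ => by positivity
          linarith
      _ = ∑ w ∈ (WW_finite m).toFinset, ((1 : ℝ) / 16) ^ w.1 +
          ∑ w ∈ (WW_finite m).toFinset, ((1 : ℝ) / 16) ^ (w.1 + 1) := by
          rw [sum_image fun a _ a' _ h => i0 h, sum_image fun a _ a' _ h => i1 h]
      _ = (17 / 16) * ∑ w ∈ (WW_finite m).toFinset, ((1 : ℝ) / 16) ^ w.1 := by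
          rw [mul_sum, ← sum_add_distrib]
          refine sum_congr rfl fun w _ => ?_
          rw [pow_succ]; ring
      _ ≤ (17 / 16) * (17 / 16) ^ m := by linarith
      _ = _ := by ring

/-- exponent for the words with few ones -/
noncomputable def ρ : ℝ := Real.log (17 / 16) + Real.log 2 / 4

theorem ρ_nonneg : 0 ≤ ρ :=
  add_nonneg (Real.log_nonneg (by norm_num)) (div_nonneg (Real.log_nonneg (by norm_num)) (by norm_num))

theorem ρ_lt : ρ < Real.log (4 / 3) := by
  unfold ρ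
  have h1 : 4 * (Real.log (17 / 16) + Real.log 2 / 4) = Real.log ((17 / 16) ^ 4 * 2) := by
    rw [Real.log_mul (by norm_num) (by norm_num), Real.log_pow]; push_cast; ring
  have h2 : 4 * Real.log (4 / 3) = Real.log ((4 / 3) ^ 4) := by
    rw [Real.log_pow]; push_cast; ring
  have h3 : Real.log ((17 / 16) ^ 4 * 2) < Real.log ((4 / 3) ^ 4) :=
    Real.log_lt_log (by norm_num) (by norm_num)
  linarith

theorem few_card (m : ℕ) :
    ((((WW_finite m).toFinset.filter fun w => 16 * w.1 ≤ m).card : ℕ) : ℝ) ≤ Real.exp (ρ * m) := by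
  have h1 : ∑ w ∈ (WW_finite m).toFinset.filter (fun w => 16 * w.1 ≤ m),
      Real.exp (-(Real.log 2 / 4 * m)) ≤ (17 / 16) ^ m := by
    refine le_trans ?_ (WW_sum m)
    refine le_trans (sum_le_sum (g := fun w : ℕ × ℕ => ((1 : ℝ) / 16) ^ w.1) fun w hw => ?_)
      (sum_le_sum_of_subset_of_nonneg (filter_subset _ _) fun _ _ _ => by positivity)
    have h2 : (16 : ℝ) * w.1 ≤ m := by exact_mod_cast (mem_filter.1 hw).2
    have h3 : ((1 : ℝ) / 16) ^ w.1 = Real.exp (-(4 * Real.log 2 * w.1)) := by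
      rw [show -(4 * Real.log 2 * w.1) = (w.1 : ℝ) * Real.log (1 / 16) by
        rw [show (1 : ℝ) / 16 = (2 ^ 4)⁻¹ by norm_num, Real.log_inv, Real.log_pow]; push_cast; ring,
        Real.exp_nat_mul, Real.exp_log (by norm_num)]
    rw [h3]
    apply Real.exp_le_exp.2
    have h4 : 0 < Real.log 2 := Real.log_pos (by norm_num)
    nlinarith
  rw [sum_const, nsmul_eq_mul, Real.exp_neg, ← div_eq_mul_inv, div_le_iff₀ (Real.exp_pos _)] at h1
  refine h1.trans (le_of_eq ?_)
  unfold ρ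
  rw [show (17 / 16 : ℝ) ^ m = Real.exp (m * Real.log (17 / 16)) by
    rw [Real.exp_nat_mul, Real.exp_log (by norm_num)], ← Real.exp_add]
  congr 1; ring

theorem few (hM : ME P) (m : ℕ) : P.m {ω : PathZ | 16 * ω.j m ≤ m} * (m * (L - ρ)) ≤
    Real.log 2 + Real.log (M m) - m * L := by
  obtain ⟨s, p, hR⟩ := exists_RepK P m (m + 1)
  have hp := hR.1
  set B : PathZ → Prop := fun ω => 16 * ω.j m ≤ m with hB
  obtain ⟨A, hA⟩ : ∃ A : PathZ → Prop, A = B := ⟨_, rfl⟩
  set y : PathZ → ℤ := fun ω => ω.b 0 % 3 ^ (m + 1) with hy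
  have b1 : m * L ≤ cH s p (W m) y := by
    rw [hR.cH_pair (FR_W m) (FR.emod _ (m + 1)) (fun _ _ h _ => h) (fun _ _ _ h => h)]
    exact hM m (m + 1)
  set β : PathZ → Bool := fun ω => decide (16 * ω.j m ≤ m) with hβ
  have b2 := cH_triangle hp β (W m) y
  have b3 := cH_le_log' hp β y {true, false} 2 (by norm_num) (fun ω _ => by
    cases β ω <;> simp) (by simp)
  rw [hR.2.1, one_mul] at b3
  have hAβ : ∀ ω ω' : PathZ, (β ω, y ω) = (β ω', y ω') → (A ω ↔ A ω') := by
    intro ω ω' h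
    rw [Prod.mk.injEq] at h
    have := h.1
    simp only [hβ] at this
    rw [hA]
    simp only [hB]
    exact decide_eq_decide.1 this
  have b4 := cH_split (s := s) (p := p) A (W m) (fun ω => (β ω, y ω)) fun ω _ ω' _ h => hAβ ω ω' h
  have hmass : ∑ ω ∈ s.filter A, p ω = P.m {ω : PathZ | 16 * ω.j m ≤ m} := by
    have hdet : Det m (m + 1) A := by
      intro ω ω' h _
      unfold W at h
      rw [Prod.mk.injEq] at h
      rw [hA]
      simp only [hB, h.1]
    have := hR.2.2 A hdet True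
    have e2 : {ω : PathZ | A ω = True} = {ω : PathZ | 16 * ω.j m ≤ m} := by
      ext ω; simp [hA, hB]
    rw [e2] at this
    rw [← this]
    unfold mv
    refine sum_congr ?_ fun _ _ => rfl
    ext ω; simp
  have hmass' : ∑ ω ∈ s.filter (fun ω => ¬ A ω), p ω = 1 - P.m {ω : PathZ | 16 * ω.j m ≤ m} := by
    have := sum_filter_add_sum_filter_not s A p
    rw [hR.2.1, hmass] at this
    linarith
  have b5 : cH (s.filter A) p (W m) (fun ω => (β ω, y ω)) ≤
      P.m {ω : PathZ | 16 * ω.j m ≤ m} * (ρ * m) := by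
    have hpos : 1 ≤ Real.exp (ρ * m) := Real.one_le_exp (mul_nonneg ρ_nonneg (Nat.cast_nonneg m))
    have c1 := cH_le_log' (s := s.filter A) (p := p) (fun ω hω => hp ω (mem_filter.1 hω).1) (W m)
      (fun ω => (β ω, y ω)) ((WW_finite m).toFinset.filter fun w => 16 * w.1 ≤ m)
      ⌊Real.exp (ρ * m)⌋₊ (Nat.floor_pos.2 hpos) (fun ω hω => by
        rw [mem_filter, Set.Finite.mem_toFinset]
        refine ⟨⟨ω, rfl⟩, ?_⟩
        have := (mem_filter.1 hω).2
        rw [hA] at this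
        exact this) (Nat.le_floor (few_card m))
    rw [hmass] at c1
    refine c1.trans (mul_le_mul_of_nonneg_left ?_ (P.nonneg _))
    have c2 : ((⌊Real.exp (ρ * m)⌋₊ : ℕ) : ℝ) ≤ Real.exp (ρ * m) := Nat.floor_le (by positivity)
    have c3 : (0 : ℝ) < (⌊Real.exp (ρ * m)⌋₊ : ℕ) := by exact_mod_cast Nat.floor_pos.2 hpos
    calc Real.log ((⌊Real.exp (ρ * m)⌋₊ : ℕ) : ℝ) ≤ Real.log (Real.exp (ρ * m)) :=
          Real.log_le_log c3 c2
      _ = _ := Real.log_exp _
  have b6 : cH (s.filter fun ω => ¬ A ω) p (W m) (fun ω => (β ω, y ω)) ≤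
      (1 - P.m {ω : PathZ | 16 * ω.j m ≤ m}) * Real.log (M m) := by
    rw [← hmass']
    refine cH_le_log (s := s.filter fun ω => ¬ A ω) (p := p) (fun ω hω => hp ω (mem_filter.1 hω).1)
      (W m) (fun ω => (β ω, y ω)) (M m) (one_le_M m) fun t => ?_
    refine ⟨((s.filter fun ω => ¬ A ω).filter fun ω => (β ω, y ω) = t).image (W m), ?_,
      fun ω hω h => mem_image_of_mem _ (mem_filter.2 ⟨hω, h⟩)⟩
    have c3 := ncard_le_M m t.2
      (((((s.filter fun ω => ¬ A ω).filter fun ω => (β ω, y ω) = t).image (W m)) : Finset (ℕ × ℕ)) :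
        Set (ℕ × ℕ)) (by
      intro w hw
      rw [mem_coe, mem_image] at hw
      obtain ⟨ω, hω, rfl⟩ := hw
      refine ⟨ω, ?_, rfl⟩
      have := (mem_filter.1 hω).2
      rw [← this]
      simp only [hy]
      rw [Int.emod_emod_of_dvd _ (dvd_refl _)])
    rwa [Set.ncard_coe_finset] at c3
  have hL := mul_L_le m
  have hP := P.nonneg {ω : PathZ | 16 * ω.j m ≤ m}
  push_cast at b3
  nlinarith [mul_le_mul_of_nonneg_left hL hP]

/-- steps 1 have positive probability -/
theorem q_pos (hM : ME P) (hL : 0 < L) : 0 < P.m {ω : PathZ | ω.e 0 = 1} := by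
  by_contra hcon
  have h0 : P.m {ω : PathZ | ω.e 0 = 1} = 0 := le_antisymm (not_lt.1 hcon) (P.nonneg _)
  obtain ⟨s, p, hR⟩ := exists_RepK P 1 0
  have b1 : ((1 : ℕ) : ℝ) * L ≤ cH s p (W 1) (fun ω : PathZ => ω.b 0 % 3 ^ 0) := by
    rw [hR.cH_pair (FR_W 1) (FR.emod _ 0) (fun _ _ h _ => h) (fun _ _ _ h => h)]
    exact hM 1 0
  have hz : ∀ ω ∈ s, p ω ≠ 0 → ω.e 0 = 0 := by
    intro ω hω hne
    rcases ω.e_cases 0 with h | h
    · exact h
    · exfalso
      have hdet : Det 1 0 fun ω : PathZ => ω.e 0 := fun ω ω' h' _ => e_det (by norm_num) h'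
      have h1 := hR.2.2 _ hdet 1
      rw [h0] at h1
      have h2 := le_mv hR.1 (fun ω : PathZ => ω.e 0) hω
      simp only [h] at h2
      rw [h1] at h2
      exact hne (le_antisymm h2 (hR.1 ω hω))
  have b2 : cH s p (W 1) (fun ω : PathZ => ω.b 0 % 3 ^ 0) = 0 := by
    have e1 : cH s p (W 1) (fun ω : PathZ => ω.b 0 % 3 ^ 0) =
        cH s p (fun _ => ()) (fun ω : PathZ => ω.b 0 % 3 ^ 0) := by
      refine cH_congr _ _ _ _ (fun _ _ _ _ _ _ => Iff.rfl) fun ω h1 h2 ω' h3 h4 => ?_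
      rw [W_one, W_one, hz ω h1 h2, hz ω' h3 h4]
      simp
    have e2 := cH_le_log' hR.1 (fun _ : PathZ => ()) (fun ω : PathZ => ω.b 0 % 3 ^ 0) {()} 1
      (by norm_num) (fun _ _ => by simp) (by simp)
    have e3 := cH_nonneg hR.1 (fun _ : PathZ => ()) (fun ω : PathZ => ω.b 0 % 3 ^ 0)
    simp only [Nat.cast_one, Real.log_one, mul_zero] at e2
    rw [e1]; linarith
  rw [b2] at b1
  push_cast at b1
  linarith

/-- the growth rate is at most `log (4 / 3)`, given the digit lemma -/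
theorem L_le_of_digit (hDig : ∀ e1 : ℝ, 0 < e1 → ∃ K1 : ℝ, 0 ≤ K1 ∧ ∀ d : ℕ, ∃ K2 : ℝ, 0 ≤ K2 ∧
    DigitAt e1 K1 d K2) : L ≤ Real.log (4 / 3) := by
  by_contra hcon
  push Not at hcon
  have hlog43 : 0 < Real.log (4 / 3) := Real.log_pos (by norm_num)
  have hL : 0 < L := hlog43.trans hcon
  obtain ⟨P, hI, hM⟩ := exists_process
  have hI : Inv P := hI
  have hM : ME P := hM
  set q := P.m {ω : PathZ | ω.e 0 = 1} with hq
  have hq0 : 0 < q := q_pos hM hL
  have hq1 : q ≤ 1 := P.m_le_one _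
  -- constants
  obtain ⟨K1, hK1, hDig1⟩ := hDig (q * L / 16) (by positivity)
  set δ0 := q * L / (16 * (K1 + 1)) with hδ0
  have hδ0p : 0 < δ0 := by positivity
  set z0 := Real.exp (-L) with hz0
  have hz0p : 0 < z0 := Real.exp_pos _
  have hz0lt : z0 < 3 / 4 := by
    have : Real.log (4 / 3) = -Real.log (3 / 4) := by
      rw [← Real.log_inv]; norm_num
    rw [hz0, ← Real.exp_log (show (0 : ℝ) < 3 / 4 by norm_num)]
    apply Real.exp_lt_exp.2
    linarith
  set r0 := z0 / (3 * (1 - z0)) with hr0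
  have hr0p : 0 < r0 := by
    apply div_pos hz0p; linarith
  have hr0lt : r0 < 1 := by
    rw [hr0, div_lt_one (by linarith)]; linarith
  set lam := -Real.log r0 with hlam
  have hlamp : 0 < lam := by
    have := Real.log_neg hr0p hr0lt
    linarith
  set ε := δ0 * lam / 4 with hε
  have hεp : 0 < ε := by positivity
  set z := Real.exp (-(L + ε)) with hz
  have hA : Adm z := adm_exp hεp
  have hzz0 : z ≤ z0 := Real.exp_le_exp.2 (by linarith)
  set C := Real.log (CV z * (1 - z)) with hC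
  have hz1 : 0 < 1 - z := by have := hA.lt_one; linarith
  have hCV : 1 ≤ CV z * (1 - z) := by
    have := hA.V_le 0 0
    rw [hA.V_zero] at this
    calc (1 : ℝ) = (1 - z)⁻¹ * (1 - z) := by field_simp
      _ ≤ _ := mul_le_mul_of_nonneg_right this hz1.le
  have hC0 : 0 ≤ C := Real.log_nonneg hCV
  obtain ⟨d, hd⟩ := exists_nat_gt (2 * Real.log 2 / lam + 4 * C / (lam * δ0) + 1)
  have hd1 : 2 * Real.log 2 / lam < d := by
    have : 0 ≤ 4 * C / (lam * δ0) := by positivity
    linarith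
  have hd2 : 4 * C / (lam * δ0) < d := by
    have : 0 ≤ 2 * Real.log 2 / lam := by
      have := Real.log_nonneg (show (1 : ℝ) ≤ 2 by norm_num)
      positivity
    linarith
  have hd0 : (0 : ℝ) < d := by
    have h1 : 0 ≤ 4 * C / (lam * δ0) := by positivity
    linarith
  set θ := d * lam / 2 with hθ
  have hθp : 0 < θ := by positivity
  obtain ⟨K2, hK2, hD⟩ := hDig1 d
  set η := q * L / (16 * (K2 + 1)) with hη
  have hηp : 0 < η := by positivity
  -- the windows
  set G : ℕ → ℤ → Set ℤ := fun l x => good z θ d l x with hG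
  have hGcard : ∀ l x, 2 * ((Finset.range (3 ^ d)).filter fun u : ℕ => (u : ℤ) ∈ G l x).card ≤ 3 ^ d := by
    intro l x
    have h1 := hA.card_good θ d l x
    have h2 : z / (1 - z) ≤ 3 * r0 := by
      rw [hr0]
      have : 3 * (z0 / (3 * (1 - z0))) = z0 / (1 - z0) := by
        have : (1 - z0) ≠ 0 := by intro h; linarith
        field_simp
      rw [this, div_le_div_iff₀ hz1 (by linarith)]
      nlinarith
    have h3 : (z / (1 - z)) ^ d ≤ (3 * r0) ^ d :=
      pow_le_pow_left₀ (div_nonneg hA.pos.le hz1.le) h2 d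
    have h4 : (3 * r0) ^ d = 3 ^ d * Real.exp (-(d * lam)) := by
      rw [mul_pow]
      congr 1
      rw [hlam, show -((d : ℝ) * -Real.log r0) = d * Real.log r0 by ring, Real.exp_nat_mul,
        Real.exp_log hr0p]
    have h5 : Real.exp (-(d * lam)) * Real.exp θ ≤ 1 / 2 := by
      rw [← Real.exp_add, hθ]
      have h6 : -(d * lam) + d * lam / 2 ≤ - Real.log 2 := by
        rw [div_lt_iff₀ hlamp] at hd1
        linarith
      calc Real.exp (-(d * lam) + d * lam / 2) ≤ Real.exp (-Real.log 2) := Real.exp_le_exp.2 h6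
        _ = 1 / 2 := by rw [Real.exp_neg, Real.exp_log (by norm_num)]; norm_num
    have h6 : 2 * (((Finset.range (3 ^ d)).filter fun u : ℕ => (u : ℤ) ∈ G l x).card : ℝ) ≤ 3 ^ d := by
      calc 2 * (((Finset.range (3 ^ d)).filter fun u : ℕ => (u : ℤ) ∈ G l x).card : ℝ)
          ≤ 2 * ((z / (1 - z)) ^ d * Real.exp θ) := by linarith
        _ ≤ 2 * ((3 ^ d * Real.exp (-(d * lam))) * Real.exp θ) := by
            rw [← h4]
            have := mul_le_mul_of_nonneg_right h3 (Real.exp_pos θ).le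
            linarith
        _ = 2 * 3 ^ d * (Real.exp (-(d * lam)) * Real.exp θ) := by ring
        _ ≤ 2 * 3 ^ d * (1 / 2) := mul_le_mul_of_nonneg_left h5 (by positivity)
        _ = 3 ^ d := by ring
    exact_mod_cast h6
  have hwin : ∀ k l : ℕ, 1 ≤ k → P.m {ω : PathZ | ω.e (k - 1) = 1 ∧
      (ω.b k / 3 ^ l % 3 ^ d) ∉ G l (ω.b k % 3 ^ l)} ≤ δ0 := by
    intro k l hk
    have h1 := windows hI hM hεp (k - 1) l d hθp
    rw [Nat.sub_add_cancel hk] at h1
    refine h1.trans ?_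
    rw [← hz, ← hC, div_le_iff₀ hθp]
    have h2 : C ≤ d * (lam * δ0) / 4 := by
      rw [div_lt_iff₀ (by positivity)] at hd2
      linarith
    have h3 : (d : ℝ) * ε = d * (lam * δ0) / 4 := by rw [hε]; ring
    rw [hθ]
    linarith
  -- the probability of few ones
  have hLρ : 0 < L - ρ := by have := ρ_lt; linarith
  obtain ⟨Ka, hKa⟩ := log_M_le (show 0 < q * (L - ρ) / 4 by positivity)
  obtain ⟨Kb, hKb⟩ := log_small (Real.log 2) 0 (q * (L - ρ) / 4 * 20) (Real.log_nonneg (by norm_num)) le_rfl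
    (by positivity)
  have hfew : ∀ k : ℕ, Ka + Kb + 1 ≤ k → P.m {ω : PathZ | 16 * ω.j (20 * k) ≤ 20 * k} ≤ q / 2 := by
    intro k hk
    have h1 := few hM (20 * k)
    have h2 := hKa (20 * k) (by omega)
    have h3 := hKb k (by omega)
    have hk0 : (0 : ℝ) < k := by exact_mod_cast (by omega : 0 < k)
    push_cast at h1 h2
    rw [zero_mul, add_zero] at h3
    have h4 : P.m {ω : PathZ | 16 * ω.j (20 * k) ≤ 20 * k} * (20 * k * (L - ρ)) ≤
        q / 2 * (20 * k * (L - ρ)) := by nlinarith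
    exact le_of_mul_le_mul_right h4 (by positivity)
  have hα : ∀ k : ℕ, Ka + Kb + 1 + 4 * d ≤ k →
      q / 2 ≤ P.m {ω : PathZ | ω.e (k - 1) = 1 ∧ k + d ≤ (T^[k] ω).j (20 * k)} := by
    intro k hk
    have h1 := hfew k (by omega)
    have h2 : P.m {ω : PathZ | ω.e (k - 1) = 1} = q := by
      rw [hq, ← hI.iter (k - 1) {ω : PathZ | ω.e 0 = 1}]
      congr 1
      ext ω
      simp only [Set.mem_ofPred_eq, Set.mem_preimage, e_iter, add_zero]
    have h3 : P.m {ω : PathZ | 16 * (T^[k] ω).j (20 * k) ≤ 20 * k} =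
        P.m {ω : PathZ | 16 * ω.j (20 * k) ≤ 20 * k} :=
      hI.iter k {ω : PathZ | 16 * ω.j (20 * k) ≤ 20 * k}
    have h4 : {ω : PathZ | ω.e (k - 1) = 1} ⊆
        {ω : PathZ | ω.e (k - 1) = 1 ∧ k + d ≤ (T^[k] ω).j (20 * k)} ∪
          {ω : PathZ | 16 * (T^[k] ω).j (20 * k) ≤ 20 * k} := by
      intro ω hω
      by_cases h : k + d ≤ (T^[k] ω).j (20 * k)
      · exact Or.inl ⟨hω, h⟩
      · refine Or.inr ?_
        change 16 * (T^[k] ω).j (20 * k) ≤ 20 * k
        omega
    have h5 := P.m_mono h4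
    have h6 : ∀ A B : Set PathZ, P.m (A ∪ B) ≤ P.m A + P.m B := by
      intro A B
      have e1 : A ∪ B = A ∪ (B \ A) := by rw [Set.union_sdiff_self]
      rw [e1, P.union A (B \ A) Set.disjoint_sdiff_right]
      have := P.m_mono (show B \ A ⊆ B from Set.sdiff_subset)
      linarith
    have h7 := h6 {ω : PathZ | ω.e (k - 1) = 1 ∧ k + d ≤ (T^[k] ω).j (20 * k)}
      {ω : PathZ | 16 * (T^[k] ω).j (20 * k) ≤ 20 * k}
    linarith
  -- the choice of k
  obtain ⟨Kc, hKc⟩ := log_M_le (show 0 < q * L / 16 by positivity)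
  obtain ⟨Kd, hKd⟩ := log_small (Real.log 3 + Real.log 40 + 1) (2 + K2) (q * L / 4)
    (by have := Real.log_nonneg (show (1 : ℝ) ≤ 3 by norm_num)
        have := Real.log_nonneg (show (1 : ℝ) ≤ 40 by norm_num)
        positivity) (by positivity) (by positivity)
  obtain ⟨k, hk, hGk⟩ := exists_k hI hηp (Ka + Kb + 1 + 4 * d + Kc + Kd + 1)
  have hk1 : 1 ≤ k := by omega
  have hk0 : (0 : ℝ) < k := by exact_mod_cast hk1
  have hkey := key hI hM hK2 hD k (20 * k) hk1 G hGcard δ0 fun l _ => hwin k l hk1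
  have hα' := hα k (by omega)
  have hMk := hKc k (by omega)
  have hlog := hKd k (by omega)
  set α := P.m {ω : PathZ | ω.e (k - 1) = 1 ∧ k + d ≤ (T^[k] ω).j (20 * k)} with hαdef
  have hα1 : α ≤ 1 := P.m_le_one _
  -- estimates
  have e1 : Real.log ((3 * M k : ℕ) : ℝ) ≤ Real.log 3 + (L + q * L / 16) * k := by
    push_cast
    rw [Real.log_mul (by norm_num) (by have := one_le_M k; positivity)]
    linarith
  have e2 : Real.log (((2 * (k + 1) * (20 * k + 1) : ℕ)) : ℝ) ≤
      Real.log 40 + 2 * Real.log ((k : ℝ) + 1) := by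
    rw [show Real.log 40 + 2 * Real.log ((k : ℝ) + 1) = Real.log (40 * ((k : ℝ) + 1) ^ 2) by
      rw [Real.log_mul (by norm_num) (by positivity), Real.log_pow]; push_cast; ring]
    apply Real.log_le_log (by positivity)
    push_cast
    nlinarith
  have e3 : (1 - α) * Real.log ((3 * M k : ℕ) : ℝ) ≤
      (1 - q / 2) * (Real.log 3 + (L + q * L / 16) * k) := by
    have h1 : 0 ≤ Real.log 3 + (L + q * L / 16) * k := by
      have := Real.log_nonneg (show (1 : ℝ) ≤ 3 by norm_num)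
      positivity
    calc (1 - α) * Real.log ((3 * M k : ℕ) : ℝ) ≤ (1 - α) * (Real.log 3 + (L + q * L / 16) * k) :=
          mul_le_mul_of_nonneg_left e1 (by linarith)
      _ ≤ _ := mul_le_mul_of_nonneg_right (by linarith) h1
  have e4 : K1 * δ0 ≤ q * L / 16 := by
    rw [hδ0, mul_div_assoc', div_le_div_iff₀ (by positivity) (by norm_num)]
    nlinarith [mul_pos hq0 hL]
  have e5 : K2 * η ≤ q * L / 16 := by
    rw [hη, mul_div_assoc', div_le_div_iff₀ (by positivity) (by norm_num)]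
    nlinarith [mul_pos hq0 hL]
  have e6 : K2 * (HW P k + HW P (20 * k) - HW P (k + 20 * k) +
      (FW P k + FW P (20 * k) - FW P (k + 20 * k) + Real.log ((k : ℝ) + 1))) ≤
      q * L / 16 * k + K2 * Real.log ((k : ℝ) + 1) := by
    have h1 : HW P k + HW P (20 * k) - HW P (k + 20 * k) +
      (FW P k + FW P (20 * k) - FW P (k + 20 * k) + Real.log ((k : ℝ) + 1)) ≤
        η * k + Real.log ((k : ℝ) + 1) := by
      unfold GW at hGk
      linarith
    have h2 := mul_le_mul_of_nonneg_left h1 hK2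
    have h3 := mul_le_mul_of_nonneg_right e5 hk0.le
    linarith
  have e7 : k * (q * L / 16 + K1 * δ0) ≤ k * (q * L / 16 + q * L / 16) :=
    mul_le_mul_of_nonneg_left (by linarith) hk0.le
  have e8 : (1 - q / 2) * (Real.log 3 + (L + q * L / 16) * k) ≤
      Real.log 3 + (1 - q / 2) * L * k + q * L / 16 * k := by
    have h1 := Real.log_nonneg (show (1 : ℝ) ≤ 3 by norm_num)
    have h2 : 0 < q * L * k := by positivity
    nlinarith [mul_pos hq0 h2, mul_nonneg hq0.le h1]
  nlinarith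

end PathZ

end Pool.Agent.Collatz3.UB
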