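import Pool.Agent.Collatz3.UBCount

set_option autoImplicit false

/-!
Infinite upward paths in the inverse 3x+1 tree, all nodes prime to 3.
-/

namespace Pool.Agent.Collatz3.UB

/-- infinite upward paths with nodes prime to 3 -/
def PathZ : Type :=
  {b : ℕ → ℤ // ∀ t, ¬ (3 : ℤ) ∣ b t ∧ (b (t + 1) = 2 * b t ∨ 3 * b (t + 1) + 1 = 2 * b t)}

namespace PathZ

/-- node at time `t` -/
def b (ω : PathZ) (t : ℕ) : ℤ := ω.1 t

/-- step at time `t` -/
def e (ω : PathZ) (t : ℕ) : ℕ := if ω.b (t + 1) = 2 * ω.b t then 0 else 1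

/-- shift -/
def T (ω : PathZ) : PathZ := ⟨fun t => ω.1 (t + 1), fun t => ω.2 (t + 1)⟩

/-- number of ones among the first `k` steps -/
def j (ω : PathZ) : ℕ → ℕ
  | 0 => 0
  | k + 1 => j ω k + ω.e k

/-- constant of the word of the first `k` steps -/
def c (ω : PathZ) : ℕ → ℕ
  | 0 => 0
  | k + 1 => 2 * c ω k + ω.e k * 3 ^ (j ω k)

/-- the word of the first `k` steps, encoded by two numbers -/
def W (k : ℕ) (ω : PathZ) : ℕ × ℕ := (ω.j k, ω.c k)

/-- the information on the starting point contained in the word -/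
def X (k : ℕ) (ω : PathZ) : ℕ × ℕ := (ω.j k, ω.c k % 3 ^ (ω.j k))

theorem unit (ω : PathZ) (t : ℕ) : ¬ (3 : ℤ) ∣ ω.b t := (ω.2 t).1

theorem b_T (ω : PathZ) (t : ℕ) : ω.T.b t = ω.b (t + 1) := rfl
theorem e_T (ω : PathZ) (t : ℕ) : ω.T.e t = ω.e (t + 1) := rfl
theorem j_zero (ω : PathZ) : ω.j 0 = 0 := rfl
theorem c_zero (ω : PathZ) : ω.c 0 = 0 := rfl
theorem j_succ (ω : PathZ) (k : ℕ) : ω.j (k + 1) = ω.j k + ω.e k := rfl
theorem c_succ (ω : PathZ) (k : ℕ) : ω.c (k + 1) = 2 * ω.c k + ω.e k * 3 ^ (ω.j k) := rfl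

theorem b_iter (s : ℕ) : ∀ (ω : PathZ) (t : ℕ), (T^[s] ω).b t = ω.b (s + t) := by
  induction s with
  | zero => intro ω t; simp
  | succ s ih =>
    intro ω t
    rw [Function.iterate_succ_apply, ih, b_T]
    congr 1; ring

theorem e_iter (s : ℕ) (ω : PathZ) (t : ℕ) : (T^[s] ω).e t = ω.e (s + t) := by
  unfold e
  rw [b_iter, b_iter]
  rfl

theorem e_cases (ω : PathZ) (t : ℕ) : ω.e t = 0 ∨ ω.e t = 1 := by
  unfold e; split_ifs <;> simp

theorem e_le_one (ω : PathZ) (t : ℕ) : ω.e t ≤ 1 := by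
  rcases ω.e_cases t with h | h <;> omega

theorem step (ω : PathZ) (t : ℕ) : 2 * ω.b t = 3 ^ ω.e t * ω.b (t + 1) + ω.e t := by
  rcases (ω.2 t).2 with h | h
  · have : ω.e t = 0 := by unfold e; exact if_pos h
    rw [this]
    change _ = 3 ^ 0 * ω.1 (t + 1) + ((0 : ℕ) : ℤ)
    rw [h]; simp [b]
  · have : ω.e t = 1 := by
      unfold e
      rw [if_neg]
      intro h'
      change ω.1 (t + 1) = 2 * ω.1 t at h'
      omega
    rw [this]
    change 2 * ω.1 t = 3 ^ 1 * ω.1 (t + 1) + ((1 : ℕ) : ℤ)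
    rw [← h]; simp

theorem step_zero {ω : PathZ} {t : ℕ} (h : ω.e t = 0) : ω.b (t + 1) = 2 * ω.b t := by
  have := ω.step t
  rw [h] at this
  simpa using this.symm

theorem step_one {ω : PathZ} {t : ℕ} (h : ω.e t = 1) : 3 * ω.b (t + 1) + 1 = 2 * ω.b t := by
  have := ω.step t
  rw [h] at this
  simpa using this.symm

theorem main (ω : PathZ) (k : ℕ) : 2 ^ k * ω.b 0 = 3 ^ ω.j k * ω.b k + ω.c k := by
  induction k with
  | zero => simp [j_zero, c_zero]
  | succ k ih =>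
    rw [pow_succ, show (2 : ℤ) ^ k * 2 * ω.b 0 = 2 * (2 ^ k * ω.b 0) by ring, ih, j_succ, c_succ]
    have := ω.step k
    push_cast
    rw [pow_add]
    calc 2 * (3 ^ ω.j k * ω.b k + (ω.c k : ℤ)) = 3 ^ ω.j k * (2 * ω.b k) + 2 * ω.c k := by ring
      _ = _ := by rw [this]; ring

theorem j_add (s : ℕ) (ω : PathZ) (t : ℕ) : ω.j (s + t) = ω.j s + (T^[s] ω).j t := by
  induction t with
  | zero => simp [j_zero]
  | succ t ih => rw [← add_assoc, j_succ, ih, j_succ, e_iter]; ring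

theorem c_add (s : ℕ) (ω : PathZ) (t : ℕ) :
    ω.c (s + t) = 2 ^ t * ω.c s + 3 ^ ω.j s * (T^[s] ω).c t := by
  induction t with
  | zero => simp [c_zero]
  | succ t ih => rw [← add_assoc, c_succ, ih, c_succ, e_iter, j_add, pow_succ, pow_add]; ring

theorem j_le (ω : PathZ) (k : ℕ) : ω.j k ≤ k := by
  induction k with
  | zero => simp [j_zero]
  | succ k ih => rw [j_succ]; have := ω.e_le_one k; omega

theorem c_lt (ω : PathZ) (k : ℕ) : ω.c k < 3 ^ k := by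
  induction k with
  | zero => simp [c_zero]
  | succ k ih =>
    rw [c_succ, pow_succ]
    have h1 : ω.e k * 3 ^ ω.j k ≤ 3 ^ k := by
      calc ω.e k * 3 ^ ω.j k ≤ 1 * 3 ^ k :=
            Nat.mul_le_mul (ω.e_le_one k) (Nat.pow_le_pow_right (by norm_num) (ω.j_le k))
        _ = _ := one_mul _
    omega

theorem j_mono (ω : PathZ) {s t : ℕ} (h : s ≤ t) : ω.j s ≤ ω.j t := by
  obtain ⟨r, rfl⟩ := Nat.exists_eq_add_of_le h
  rw [j_add]; omega

/-- the encoding of the word is injective -/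
theorem W_succ_det {k : ℕ} {ω ω' : PathZ} (h : W (k + 1) ω = W (k + 1) ω') :
    ω.e k = ω'.e k ∧ W k ω = W k ω' := by
  unfold W at h ⊢
  rw [Prod.mk.injEq, j_succ, j_succ, c_succ, c_succ] at h
  obtain ⟨h1, h2⟩ := h
  have o : ∀ n : ℕ, 3 ^ n % 2 = 1 := fun n => by
    rw [Nat.pow_mod]; norm_num
  have he : ω.e k = ω'.e k := by
    have o1 := o (ω.j k)
    have o2 := o (ω'.j k)
    rcases ω.e_cases k with a | a <;> rcases ω'.e_cases k with a' | a' <;>
      rw [a, a'] at h2 ⊢ <;> omega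
  rw [he] at h1 h2
  have hj : ω.j k = ω'.j k := by omega
  rw [hj] at h2
  refine ⟨he, ?_⟩
  rw [hj, show ω.c k = ω'.c k by omega]

theorem W_det {k : ℕ} : ∀ {s : ℕ}, s ≤ k → ∀ {ω ω' : PathZ}, W k ω = W k ω' → W s ω = W s ω' := by
  induction k with
  | zero => intro s hs ω ω' h; obtain rfl : s = 0 := by omega
            exact h
  | succ k ih =>
    intro s hs ω ω' h
    rcases Nat.lt_or_ge s (k + 1) with h1 | h1
    · exact ih (by omega) (W_succ_det h).2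
    · obtain rfl : s = k + 1 := by omega
      exact h

theorem e_det {k s : ℕ} (hs : s < k) {ω ω' : PathZ} (h : W k ω = W k ω') : ω.e s = ω'.e s :=
  (W_succ_det (W_det (show s + 1 ≤ k by omega) h)).1

theorem W_of_e {k : ℕ} {ω ω' : PathZ} (h : ∀ s < k, ω.e s = ω'.e s) : W k ω = W k ω' := by
  induction k with
  | zero => rfl
  | succ k ih =>
    have h1 := ih fun s hs => h s (by omega)
    have h2 := h k (by omega)
    unfold W at h1 ⊢
    rw [Prod.mk.injEq] at h1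
    rw [j_succ, j_succ, c_succ, c_succ, h1.1, h1.2, h2]

theorem W_add_iff (s t : ℕ) (ω ω' : PathZ) :
    W (s + t) ω = W (s + t) ω' ↔ W s ω = W s ω' ∧ W t (T^[s] ω) = W t (T^[s] ω') := by
  constructor
  · intro h
    refine ⟨W_det (by omega) h, W_of_e fun r hr => ?_⟩
    rw [e_iter, e_iter]
    exact e_det (by omega) h
  · rintro ⟨h1, h2⟩
    unfold W at h1 h2 ⊢
    rw [Prod.mk.injEq] at h1 h2
    rw [j_add, j_add, c_add, c_add, h1.1, h1.2, h2.1, h2.2]

theorem b_det {k : ℕ} {ω ω' : PathZ} (h : W k ω = W k ω') (h0 : ω.b 0 = ω'.b 0) :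
    ω.b k = ω'.b k := by
  have h1 := ω.main k
  have h2 := ω'.main k
  unfold W at h
  rw [Prod.mk.injEq] at h
  rw [h.1, h.2, h0, h2] at h1
  have h3 : (3 : ℤ) ^ ω'.j k * ω'.b k = 3 ^ ω'.j k * ω.b k := by linarith
  exact (mul_left_cancel₀ (by positivity) h3).symm

end PathZ

theorem emod_iff {x y m : ℤ} : x % m = y % m ↔ m ∣ x - y := by
  constructor
  · intro h
    exact (Int.modEq_iff_dvd (a := y) (b := x)).1 h.symm
  · intro h
    exact ((Int.modEq_iff_dvd (a := y) (b := x)).2 h).symm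

theorem dvd_two_pow_mul {n k : ℕ} {x : ℤ} : (3 : ℤ) ^ n ∣ 2 ^ k * x ↔ (3 : ℤ) ^ n ∣ x := by
  constructor
  · intro h
    have : IsCoprime ((3 : ℤ) ^ n) (2 ^ k) := by
      apply IsCoprime.pow
      exact ⟨1, -1, by norm_num⟩
    exact this.dvd_of_dvd_mul_left h
  · intro h; exact Dvd.dvd.mul_left h _

theorem dvd_three_pow_mul {n j : ℕ} {x : ℤ} : (3 : ℤ) ^ (j + n) ∣ 3 ^ j * x ↔ (3 : ℤ) ^ n ∣ x := by
  rw [pow_add]
  exact mul_dvd_mul_iff_left (by positivity)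

namespace PathZ

theorem diff_eq {k : ℕ} {ω ω' : PathZ} (h : W k ω = W k ω') :
    2 ^ k * (ω.b 0 - ω'.b 0) = 3 ^ ω.j k * (ω.b k - ω'.b k) := by
  have h1 := ω.main k
  have h2 := ω'.main k
  unfold W at h
  rw [Prod.mk.injEq] at h
  rw [← h.1, ← h.2] at h2
  rw [mul_sub, h1, h2]; ring

/-- `b k` modulo `3 ^ n` is determined by the word and `b 0` modulo `3 ^ (j + n)` -/
theorem b_emod_iff {k n : ℕ} {ω ω' : PathZ} (h : W k ω = W k ω') :
    ω.b k % 3 ^ n = ω'.b k % 3 ^ n ↔ ω.b 0 % 3 ^ (ω.j k + n) = ω'.b 0 % 3 ^ (ω.j k + n) := by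
  rw [emod_iff, emod_iff, ← dvd_two_pow_mul (k := k) (n := ω.j k + n), diff_eq h, dvd_three_pow_mul]

theorem emod_of_le {x y : ℤ} {n N : ℕ} (hN : n ≤ N) (h : x % 3 ^ N = y % 3 ^ N) :
    x % 3 ^ n = y % 3 ^ n := by
  rw [emod_iff] at h ⊢
  exact (pow_dvd_pow 3 hN).trans h

theorem b_emod_det {k n N : ℕ} {ω ω' : PathZ} (h : W k ω = W k ω') (hN : ω.j k + n ≤ N)
    (h0 : ω.b 0 % 3 ^ N = ω'.b 0 % 3 ^ N) : ω.b k % 3 ^ n = ω'.b k % 3 ^ n :=
  (b_emod_iff h).2 (emod_of_le hN h0)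

theorem c_emod (ω : PathZ) (k : ℕ) : (3 : ℤ) ^ ω.j k ∣ 2 ^ k * ω.b 0 - ω.c k :=
  ⟨ω.b k, by rw [ω.main k]; ring⟩

/-- `X k` is the same information as `j k` and `b 0` modulo `3 ^ (j k)` -/
theorem X_iff {k : ℕ} {ω ω' : PathZ} :
    X k ω = X k ω' ↔ ω.j k = ω'.j k ∧ ω.b 0 % 3 ^ ω.j k = ω'.b 0 % 3 ^ ω.j k := by
  unfold X
  rw [Prod.mk.injEq]
  refine and_congr_right fun hj => ?_
  rw [← hj]
  have h1 := ω.c_emod k
  have h2 := ω'.c_emod k
  rw [← hj] at h2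
  rw [emod_iff, ← dvd_two_pow_mul (k := k)]
  have h3 : ω.c k % 3 ^ ω.j k = ω'.c k % 3 ^ ω.j k ↔
      ((ω.c k : ℕ) : ℤ) % 3 ^ ω.j k = ((ω'.c k : ℕ) : ℤ) % 3 ^ ω.j k := by
    constructor
    · intro h; exact_mod_cast h
    · intro h; exact_mod_cast h
  rw [h3, emod_iff]
  constructor
  · intro h
    have e : 2 ^ k * (ω.b 0 - ω'.b 0) = (2 ^ k * ω.b 0 - ω.c k) - (2 ^ k * ω'.b 0 - ω'.c k) +
      ((ω.c k : ℤ) - ω'.c k) := by ring
    rw [e]
    exact dvd_add (dvd_sub h1 h2) h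
  · intro h
    have e : ((ω.c k : ℤ) - ω'.c k) = 2 ^ k * (ω.b 0 - ω'.b 0) - ((2 ^ k * ω.b 0 - ω.c k) -
      (2 ^ k * ω'.b 0 - ω'.c k)) := by ring
    rw [e]
    exact dvd_sub h (dvd_sub h1 h2)

theorem X_of_W {k : ℕ} {ω ω' : PathZ} (h : W k ω = W k ω') : X k ω = X k ω' := by
  unfold W at h; unfold X
  rw [Prod.mk.injEq] at h
  rw [h.1, h.2]

/-- (ii) -/
theorem X_det {k m : ℕ} {ω ω' : PathZ} (hj : ω.j k = ω'.j k) (h : X (k + m) ω = X (k + m) ω') :
    X k ω = X k ω' := by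
  rw [X_iff] at h ⊢
  exact ⟨hj, emod_of_le (ω.j_mono (by omega)) h.2⟩

/-- (iii) -/
theorem X_iter_iff {k m : ℕ} {ω ω' : PathZ} (h : W k ω = W k ω') :
    X m (T^[k] ω) = X m (T^[k] ω') ↔ X (k + m) ω = X (k + m) ω' := by
  rw [X_iff, X_iff]
  have hj : ω.j k = ω'.j k := (Prod.mk.injEq _ _ _ _ ▸ h : _ ∧ _).1
  rw [b_iter, b_iter, j_add, j_add, ← hj, add_zero, b_emod_iff h]
  constructor
  · rintro ⟨h1, h2⟩; exact ⟨by rw [h1], h2⟩
  · rintro ⟨h1, h2⟩; exact ⟨by omega, h2⟩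

/-- the quotient part of the constant -/
def U (k : ℕ) (ω : PathZ) : ℤ := ((ω.c k / 3 ^ ω.j k : ℕ) : ℤ)

theorem U_nonneg (k : ℕ) (ω : PathZ) : 0 ≤ U k ω := Int.natCast_nonneg _

theorem U_lt (k : ℕ) (ω : PathZ) : U k ω < 3 ^ k := by
  have h1 : ω.c k / 3 ^ ω.j k < 3 ^ k := (Nat.div_le_self _ _).trans_lt (ω.c_lt k)
  unfold U
  exact_mod_cast h1

theorem U_of_W {k : ℕ} {ω ω' : PathZ} (h : W k ω = W k ω') : U k ω = U k ω' := by
  unfold W at h; unfold U
  rw [Prod.mk.injEq] at h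
  rw [h.1, h.2]

/-- `(U, X)` determines the word -/
theorem W_of_U_X {k : ℕ} {ω ω' : PathZ} (hU : U k ω = U k ω') (hX : X k ω = X k ω') :
    W k ω = W k ω' := by
  unfold U at hU
  unfold X at hX
  unfold W
  rw [Prod.mk.injEq] at hX ⊢
  obtain ⟨h1, h2⟩ := hX
  refine ⟨h1, ?_⟩
  have h3 : ω.c k / 3 ^ ω.j k = ω'.c k / 3 ^ ω'.j k := by exact_mod_cast hU
  rw [← Nat.div_add_mod (ω.c k) (3 ^ ω.j k), ← Nat.div_add_mod (ω'.c k) (3 ^ ω'.j k), h3, h2, h1]

theorem main' (ω : PathZ) (k : ℕ) : 2 ^ k * ω.b 0 =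
    3 ^ ω.j k * (U k ω + ω.b k) + ((ω.c k % 3 ^ ω.j k : ℕ) : ℤ) := by
  rw [ω.main k]
  have : (ω.c k : ℤ) = 3 ^ ω.j k * U k ω + ((ω.c k % 3 ^ ω.j k : ℕ) : ℤ) := by
    unfold U
    exact_mod_cast (Nat.div_add_mod (ω.c k) (3 ^ ω.j k)).symm
  rw [this]
  ring

/-- the translated information -/
def D (k m : ℕ) (ω : PathZ) : ℕ × ℤ :=
  ((T^[k] ω).j m, (U k ω + ω.b k) % 3 ^ (T^[k] ω).j m)

theorem D_of_X {k m : ℕ} {ω ω' : PathZ} (hj : ω.j k = ω'.j k) (h : X (k + m) ω = X (k + m) ω') :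
    D k m ω = D k m ω' := by
  have hX := X_det hj h
  rw [X_iff, j_add, j_add, ← hj] at h
  obtain ⟨h1, h2⟩ := h
  have h3 : (T^[k] ω).j m = (T^[k] ω').j m := by omega
  unfold D
  rw [Prod.mk.injEq, ← h3]
  refine ⟨rfl, ?_⟩
  rw [emod_iff] at h2 ⊢
  rw [← dvd_two_pow_mul (k := k), mul_sub, ω.main' k, ω'.main' k] at h2
  unfold X at hX
  rw [Prod.mk.injEq] at hX
  rw [hX.2, ← hX.1] at h2
  rw [← dvd_three_pow_mul (j := ω.j k)]
  convert h2 using 1
  ring

theorem D_iff {k m : ℕ} {ω ω' : PathZ} (h : W k ω = W k ω') :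
    D k m ω = D k m ω' ↔ X m (T^[k] ω) = X m (T^[k] ω') := by
  unfold D
  rw [X_iff, Prod.mk.injEq, U_of_W h, b_iter, b_iter, add_zero]
  refine and_congr_right fun h1 => ?_
  rw [← h1, emod_iff, emod_iff]
  have : U k ω' + ω.b k - (U k ω' + ω'.b k) = ω.b k - ω'.b k := by ring
  rw [this]

/-! ### building paths -/

/-- the path of doublings -/
def dbl (x : ℤ) (hx : ¬ (3 : ℤ) ∣ x) : PathZ :=
  ⟨fun t => 2 ^ t * x, fun t => ⟨by
    intro h
    have h1 : (3 : ℤ) ^ 1 ∣ 2 ^ t * x := by simpa using h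
    rw [dvd_two_pow_mul] at h1
    exact hx (by simpa using h1), Or.inl (by ring)⟩⟩

theorem exists_cons (ω : PathZ) (y : ℤ) (hy : ¬ (3 : ℤ) ∣ y)
    (h : ω.b 0 = 2 * y ∨ 3 * ω.b 0 + 1 = 2 * y) : ∃ ω' : PathZ, ω'.b 0 = y ∧ T ω' = ω := by
  refine ⟨⟨fun t => match t with
    | 0 => y
    | t + 1 => ω.b t, fun t => ?_⟩, rfl, rfl⟩
  cases t with
  | zero => exact ⟨hy, h⟩
  | succ t => exact ω.2 t

theorem exists_start (x : ℤ) (hx : ¬ (3 : ℤ) ∣ x) : ∃ ω : PathZ, ω.b 0 = x :=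
  ⟨dbl x hx, by simp [dbl, b]⟩

theorem e_zero_of {ω : PathZ} (h : ω.b 1 = 2 * ω.b 0) : ω.e 0 = 0 := if_pos h

theorem e_one_of {ω : PathZ} (h : 3 * ω.b 1 + 1 = 2 * ω.b 0) : ω.e 0 = 1 := by
  unfold e
  rw [if_neg]
  intro h'
  rw [zero_add] at h'
  omega

/-- the word can be read at every integer with the same residue -/
theorem transfer (k : ℕ) : ∀ (ω : PathZ) (y : ℤ), y % 3 ^ (ω.j k + 1) = ω.b 0 % 3 ^ (ω.j k + 1) →
    ∃ ω' : PathZ, ω'.b 0 = y ∧ W k ω' = W k ω := by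
  induction k with
  | zero =>
    intro ω y hy
    have h3 : ¬ (3 : ℤ) ∣ y := by
      have := ω.unit 0
      rw [j_zero, zero_add, pow_one] at hy
      omega
    obtain ⟨ω', h⟩ := exists_start y h3
    exact ⟨ω', h, rfl⟩
  | succ k ih =>
    intro ω y hy
    have h3 : ¬ (3 : ℤ) ∣ y := by
      have := ω.unit 0
      have h1 := emod_of_le (n := 1) (by omega) hy
      rw [pow_one] at h1
      omega
    have hj : ω.j (k + 1) = ω.e 0 + ω.T.j k := by
      rw [show k + 1 = 1 + k by ring, j_add]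
      simp [j_succ, j_zero]
    rw [hj, emod_iff] at hy
    rcases ω.e_cases 0 with h0 | h0
    · have hs := step_zero h0
      rw [zero_add] at hs
      have hy' : (2 * y) % 3 ^ (ω.T.j k + 1) = ω.T.b 0 % 3 ^ (ω.T.j k + 1) := by
        rw [emod_iff, b_T, zero_add, hs]
        rw [h0, zero_add] at hy
        have : 2 * y - 2 * ω.b 0 = 2 * (y - ω.b 0) := by ring
        rw [this]
        exact Dvd.dvd.mul_left hy 2
      obtain ⟨ω', h1, h2⟩ := ih ω.T (2 * y) hy'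
      obtain ⟨ω'', h4, h5⟩ := exists_cons ω' y h3 (Or.inl h1)
      refine ⟨ω'', h4, ?_⟩
      have e1 : ω''.e 0 = 0 := by
        apply e_zero_of
        rw [show ω''.b 1 = ω''.T.b 0 from rfl, h5, h1, h4]
      rw [show k + 1 = 1 + k by ring, W_add_iff]
      refine ⟨W_of_e fun s hs => ?_, ?_⟩
      · obtain rfl : s = 0 := by omega
        rw [e1, h0]
      · change W k ω''.T = W k ω.T
        rw [h5, h2]
    · have hs := step_one h0
      rw [zero_add] at hs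
      rw [h0] at hy
      obtain ⟨r, hr⟩ := hy
      have hr' : y - ω.b 0 = 3 * (3 ^ (ω.T.j k + 1) * r) := by rw [hr]; ring
      have hy2 : 3 * (ω.T.b 0 + 3 ^ (ω.T.j k + 1) * (2 * r)) + 1 = 2 * y := by
        rw [b_T, zero_add]
        linear_combination hs - 2 * hr'
      have hy' : (ω.T.b 0 + 3 ^ (ω.T.j k + 1) * (2 * r)) % 3 ^ (ω.T.j k + 1) =
          ω.T.b 0 % 3 ^ (ω.T.j k + 1) := by
        rw [emod_iff]
        exact ⟨2 * r, by ring⟩
      obtain ⟨ω', h1, h2⟩ := ih ω.T _ hy'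
      obtain ⟨ω'', h4, h5⟩ := exists_cons ω' y h3 (Or.inr (by rw [h1]; exact hy2))
      refine ⟨ω'', h4, ?_⟩
      have e1 : ω''.e 0 = 1 := by
        apply e_one_of
        rw [show ω''.b 1 = ω''.T.b 0 from rfl, h5, h1, h4]
        exact hy2
      rw [show k + 1 = 1 + k by ring, W_add_iff]
      refine ⟨W_of_e fun s hs => ?_, ?_⟩
      · obtain rfl : s = 0 := by omega
        rw [e1, h0]
      · change W k ω''.T = W k ω.T
        rw [h5, h2]

/-- the set of words of length `k` readable at `y` -/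
def WS (k : ℕ) (y : ℤ) : Set (ℕ × ℕ) := {w | ∃ ω : PathZ, ω.b 0 = y ∧ W k ω = w}

theorem WS_finite (k : ℕ) (y : ℤ) : (WS k y).Finite := by
  refine ((Finset.range (k + 1)) ×ˢ (Finset.range (3 ^ k))).finite_toSet.subset ?_
  rintro _ ⟨ω, _, rfl⟩
  simp only [Finset.coe_product, Finset.coe_range, Set.mem_prod, Set.mem_Iio]
  exact ⟨Nat.lt_succ_of_le (ω.j_le k), ω.c_lt k⟩

theorem WS_of_dvd (k : ℕ) (y : ℤ) (hy : (3 : ℤ) ∣ y) : WS k y = ∅ := by
  ext w
  simp only [Set.mem_empty_iff_false, iff_false]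
  rintro ⟨ω, h, _⟩
  exact ω.unit 0 (h ▸ hy)

theorem W_one_add_zero {k : ℕ} {ω : PathZ} (h : ω.e 0 = 0) : W (k + 1) ω = W k ω.T := by
  unfold W
  rw [show k + 1 = 1 + k by ring, j_add, c_add]
  simp [j_succ, c_succ, j_zero, c_zero, h]

theorem W_one_add_one {k : ℕ} {ω : PathZ} (h : ω.e 0 = 1) :
    W (k + 1) ω = ((W k ω.T).1 + 1, 2 ^ k + 3 * (W k ω.T).2) := by
  unfold W
  rw [show k + 1 = 1 + k by ring, j_add, c_add]
  simp [j_succ, c_succ, j_zero, c_zero, h]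
  ring

theorem WS_ncard (k : ℕ) : ∀ y : ℤ, (WS k y).ncard = pc k y := by
  induction k with
  | zero =>
    intro y
    by_cases hy : (3 : ℤ) ∣ y
    · rw [WS_of_dvd 0 y hy]; simp [pc, hy]
    · have : WS 0 y = {(0, 0)} := by
        ext w
        simp only [Set.mem_singleton_iff]
        constructor
        · rintro ⟨ω, _, rfl⟩; rfl
        · rintro rfl
          obtain ⟨ω, h⟩ := exists_start y hy
          exact ⟨ω, h, rfl⟩
      rw [this]; simp [pc, hy]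
  | succ k ih =>
    intro y
    by_cases hy : (3 : ℤ) ∣ y
    · rw [WS_of_dvd _ y hy, pc_of_dvd _ y hy]; simp
    · set f : ℕ × ℕ → ℕ × ℕ := fun w => (w.1 + 1, 2 ^ k + 3 * w.2) with hf
      have hfi : Function.Injective f := by
        intro a a' h
        simp only [hf, Prod.mk.injEq] at h
        exact Prod.ext (by omega) (by omega)
      have e : WS (k + 1) y = WS k (2 * y) ∪
          f '' (if (3 : ℤ) ∣ 2 * y - 1 then WS k ((2 * y - 1) / 3) else ∅) := by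
        ext w
        constructor
        · rintro ⟨ω, h1, rfl⟩
          rcases ω.e_cases 0 with h0 | h0
          · left
            have hs := step_zero h0
            rw [zero_add, h1] at hs
            exact ⟨ω.T, hs, (W_one_add_zero h0).symm⟩
          · right
            have hs := step_one h0
            rw [zero_add, h1] at hs
            rw [if_pos (by omega)]
            refine ⟨W k ω.T, ⟨ω.T, ?_, rfl⟩, (W_one_add_one h0).symm⟩
            rw [b_T, zero_add]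
            omega
        · rintro (⟨ω, h1, rfl⟩ | h)
          · obtain ⟨ω', h4, h5⟩ := exists_cons ω y hy (Or.inl h1)
            refine ⟨ω', h4, ?_⟩
            rw [W_one_add_zero, h5]
            apply e_zero_of
            rw [show ω'.b 1 = ω'.T.b 0 from rfl, h5, h1, h4]
          · split_ifs at h with h3
            · obtain ⟨_, ⟨ω, h1, rfl⟩, rfl⟩ := h
              have h6 : 3 * ω.b 0 + 1 = 2 * y := by rw [h1]; omega
              obtain ⟨ω', h4, h5⟩ := exists_cons ω y hy (Or.inr h6)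
              refine ⟨ω', h4, ?_⟩
              rw [W_one_add_one, h5]
              apply e_one_of
              rw [show ω'.b 1 = ω'.T.b 0 from rfl, h5, h4, h6]
            · simp at h
      have hd : Disjoint (WS k (2 * y))
          (f '' (if (3 : ℤ) ∣ 2 * y - 1 then WS k ((2 * y - 1) / 3) else ∅)) := by
        rw [Set.disjoint_left]
        rintro w ⟨ω, h1, rfl⟩ h
        split_ifs at h with h3
        · obtain ⟨_, ⟨ω', h1', rfl⟩, hw⟩ := h
          have h6 : 3 * ω'.b 0 + 1 = 2 * y := by rw [h1']; omega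
          obtain ⟨α, h4, h5⟩ := exists_cons ω y hy (Or.inl h1)
          obtain ⟨α', h4', h5'⟩ := exists_cons ω' y hy (Or.inr h6)
          have a0 : α.e 0 = 0 := by
            apply e_zero_of
            rw [show α.b 1 = α.T.b 0 from rfl, h5, h1, h4]
          have a1 : α'.e 0 = 1 := by
            apply e_one_of
            rw [show α'.b 1 = α'.T.b 0 from rfl, h5', h4', h6]
          have e1 : W (k + 1) α' = W (k + 1) α := by
            rw [W_one_add_one a1, W_one_add_zero a0, h5, h5', ← hw]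
          have := e_det (show 0 < k + 1 by omega) e1
          omega
        · simp at h
      have hfin : (f '' (if (3 : ℤ) ∣ 2 * y - 1 then WS k ((2 * y - 1) / 3) else ∅)).Finite := by
        refine Set.Finite.image f ?_
        split_ifs
        · exact WS_finite _ _
        · exact Set.finite_empty
      rw [e, Set.ncard_union_eq hd (WS_finite _ _) hfin, Set.ncard_image_of_injective _ hfi, ih, pc_succ]
      split_ifs
      · rw [ih]
      · simp

theorem mem_WS_of_emod {k : ℕ} {ω : PathZ} {y : ℤ} (h : y % 3 ^ (ω.j k + 1) = ω.b 0 % 3 ^ (ω.j k + 1)) :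
    W k ω ∈ WS k y := by
  obtain ⟨ω', h1, h2⟩ := transfer k ω y h
  exact ⟨ω', h1, h2⟩

/-- the words readable at a residue class -/
theorem ncard_le_M (k : ℕ) (y : ℤ) (S : Set (ℕ × ℕ))
    (hS : ∀ w ∈ S, ∃ ω : PathZ, ω.b 0 % 3 ^ (k + 1) = y % 3 ^ (k + 1) ∧ W k ω = w) :
    S.ncard ≤ M k := by
  have h1 : S ⊆ WS k y := by
    intro w hw
    obtain ⟨ω, h1, rfl⟩ := hS w hw
    refine mem_WS_of_emod ?_
    exact (emod_of_le (by have := ω.j_le k; omega) h1).symm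
  exact (Set.ncard_le_ncard h1 (WS_finite k y)).trans (by rw [WS_ncard]; exact pc_le_M k y)

/-- the words with given `X` -/
theorem ncard_le_three_M (k : ℕ) (x : ℕ × ℕ) (S : Set (ℕ × ℕ))
    (hS : ∀ w ∈ S, ∃ ω : PathZ, X k ω = x ∧ W k ω = w) : S.ncard ≤ 3 * M k := by
  rcases S.eq_empty_or_nonempty with h | ⟨w₀, h₀⟩
  · rw [h]; simp
  · obtain ⟨ω₀, hx₀, _⟩ := hS w₀ h₀
    have h1 : S ⊆ WS k (ω₀.b 0) ∪ (WS k (ω₀.b 0 + 3 ^ ω₀.j k) ∪ WS k (ω₀.b 0 + 3 ^ ω₀.j k * 2)) := by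
      intro w hw
      obtain ⟨ω, h1, rfl⟩ := hS w hw
      rw [← hx₀, X_iff] at h1
      obtain ⟨hj, h2⟩ := h1
      rw [emod_iff] at h2
      obtain ⟨t, ht⟩ := h2
      have hmem : ∀ u : ℤ, (3 : ℤ) ∣ t - u → W k ω ∈ WS k (ω₀.b 0 + 3 ^ ω₀.j k * u) := by
        intro u hu
        refine mem_WS_of_emod ?_
        rw [emod_iff]
        obtain ⟨v, hv⟩ := hu
        refine ⟨-v, ?_⟩
        rw [pow_succ, ← hj]
        rw [← hj] at *
        linear_combination (-1 : ℤ) * ht - (3 : ℤ) ^ ω.j k * hv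
      have ht3 : (3 : ℤ) ∣ t - 0 ∨ (3 : ℤ) ∣ t - 1 ∨ (3 : ℤ) ∣ t - 2 := by omega
      rcases ht3 with h | h | h
      · left; have := hmem 0 h; rwa [mul_zero, add_zero] at this
      · right; left; have := hmem 1 h; rwa [mul_one] at this
      · right; right; exact hmem 2 h
    refine (Set.ncard_le_ncard h1 ((WS_finite _ _).union ((WS_finite _ _).union (WS_finite _ _)))).trans ?_
    refine (Set.ncard_union_le _ _).trans ?_
    have h2 := Set.ncard_union_le (WS k (ω₀.b 0 + 3 ^ ω₀.j k)) (WS k (ω₀.b 0 + 3 ^ ω₀.j k * 2))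
    rw [WS_ncard, WS_ncard] at h2
    rw [WS_ncard]
    have a1 := pc_le_M k (ω₀.b 0)
    have a2 := pc_le_M k (ω₀.b 0 + 3 ^ ω₀.j k)
    have a3 := pc_le_M k (ω₀.b 0 + 3 ^ ω₀.j k * 2)
    omega

end PathZ

end Pool.Agent.Collatz3.UB
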