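import Pool.Agent.Collatz3.UBPath
import Pool.Agent.Collatz3.UBFap

set_option autoImplicit false

/-!
The stationary process of maximal entropy.
-/

open Finset
open scoped Classical

namespace Pool.Agent.Collatz3.UB

namespace PathZ

instance : Nonempty PathZ := ⟨dbl 1 (by decide)⟩

theorem exists_S (n : ℕ) : ∃ (x : ℤ) (S : Finset PathZ), S.card = M n ∧ (∀ ω ∈ S, ω.b 0 = x) ∧
    (∀ ω ∈ S, ∀ ω' ∈ S, W n ω = W n ω' → ω = ω') := by
  obtain ⟨x, hx⟩ := exists_M n
  have h : ∀ w : ℕ × ℕ, w ∈ WS n x → ∃ ω : PathZ, ω.b 0 = x ∧ W n ω = w := fun w hw => hw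
  choose! g hg using h
  refine ⟨x, (WS_finite n x).toFinset.image g, ?_, ?_, ?_⟩
  · rw [card_image_of_injOn, ← hx, ← WS_ncard, Set.ncard_eq_toFinset_card _ (WS_finite n x)]
    intro w hw w' hw' h
    rw [Set.Finite.coe_toFinset] at hw hw'
    rw [← (hg w hw).2, ← (hg w' hw').2, h]
  · intro ω hω
    obtain ⟨w, hw, rfl⟩ := mem_image.1 hω
    rw [Set.Finite.mem_toFinset] at hw
    exact (hg w hw).1
  · intro ω hω ω' hω' h
    obtain ⟨w, hw, rfl⟩ := mem_image.1 hω
    obtain ⟨w', hw', rfl⟩ := mem_image.1 hω'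
    rw [Set.Finite.mem_toFinset] at hw hw'
    rw [(hg w hw).2, (hg w' hw').2] at h
    rw [h]

theorem FR_W (k : ℕ) : FR (W k) := by
  refine FR.of_mem ((Finset.range (k + 1)) ×ˢ (Finset.range (3 ^ k))) fun ω => ?_
  simp only [mem_product, mem_range]
  exact ⟨Nat.lt_succ_of_le (ω.j_le k), ω.c_lt k⟩

theorem FR_W_iter (k s : ℕ) : FR fun ω => W k (T^[s] ω) := by
  refine FR.of_mem ((Finset.range (k + 1)) ×ˢ (Finset.range (3 ^ k))) fun ω => ?_
  simp only [mem_product, mem_range]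
  exact ⟨Nat.lt_succ_of_le ((T^[s] ω).j_le k), (T^[s] ω).c_lt k⟩

theorem cH_prod (N : ℕ) (S : Finset PathZ) (q : ℝ) (F : ℕ → PathZ → ℕ × ℕ) :
    cH (range N ×ˢ S) (fun _ => q) (fun i => F i.1 i.2) (fun i => i.1) =
      ∑ t ∈ range N, cH S (fun _ => q) (F t) (fun _ => ()) := by
  unfold cH
  rw [sum_product]
  refine sum_congr rfl fun t ht => sum_congr rfl fun ω hω => ?_
  have e1 : mv (range N ×ˢ S) (fun _ => q) (fun i : ℕ × PathZ => i.1) t = mv S (fun _ => q) (fun _ => ()) () := by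
    unfold mv
    rw [sum_filter, sum_product, sum_eq_single t]
    · simp
    · intro t' _ h
      refine sum_eq_zero fun ω _ => ?_
      simp [h]
    · intro h; exact absurd ht h
  have e2 : mv (range N ×ˢ S) (fun _ => q) (fun i : ℕ × PathZ => (F i.1 i.2, i.1)) (F t ω, t) =
      mv S (fun _ => q) (fun ω => (F t ω, ())) (F t ω, ()) := by
    unfold mv
    rw [sum_filter, sum_product, sum_eq_single t]
    · rw [sum_filter]
      refine sum_congr rfl fun ω' _ => ?_
      simp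
    · intro t' _ h
      refine sum_eq_zero fun ω' _ => ?_
      simp [h]
    · intro h; exact absurd ht h
  simp only [e1, e2]

/-- bound for the entropy of short words -/
noncomputable def BB (k : ℕ) : ℝ := ∑ r ∈ range k, Real.log ((((r + 1) * 3 ^ r : ℕ)) : ℝ)

theorem BB_nonneg (k : ℕ) : 0 ≤ BB k := by
  refine sum_nonneg fun r _ => Real.log_nonneg ?_
  have : 1 ≤ (r + 1) * 3 ^ r := Nat.one_le_iff_ne_zero.2 (by positivity)
  exact_mod_cast this

theorem cH_lower (k N n : ℕ) (x : ℤ) (S : Finset PathZ) (hS : S.card = M (n + 1))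
    (hb : ∀ ω ∈ S, ω.b 0 = x) (hinj : ∀ ω ∈ S, ∀ ω' ∈ S, W (n + 1) ω = W (n + 1) ω' → ω = ω') :
    k * L - BB k / (n + 1) ≤
      cH (range (n + 1) ×ˢ S) (fun _ => (((n : ℝ) + 1) * M (n + 1))⁻¹)
        (fun i : ℕ × PathZ => W k (T^[i.1] i.2)) (fun i : ℕ × PathZ => (T^[i.1] i.2).b 0 % 3 ^ N) := by
  set q : ℝ := (((n : ℝ) + 1) * M (n + 1))⁻¹ with hq
  have hM : (0 : ℝ) < M (n + 1) := by exact_mod_cast one_le_M (n + 1)
  have hn : (0 : ℝ) < (n : ℝ) + 1 := by positivity
  have hq0 : 0 < q := by positivity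
  set s := range (n + 1) ×ˢ S with hs
  have hp : ∀ i ∈ s, 0 ≤ (fun _ : ℕ × PathZ => q) i := fun _ _ => hq0.le
  have hpS : ∀ i ∈ S, 0 ≤ (fun _ : PathZ => q) i := fun _ _ => hq0.le
  -- condition on more
  have h1 : cH s (fun _ => q) (fun i : ℕ × PathZ => W k (T^[i.1] i.2))
      (fun i : ℕ × PathZ => (W i.1 i.2, i.1)) ≤
      cH s (fun _ => q) (fun i : ℕ × PathZ => W k (T^[i.1] i.2))
        (fun i : ℕ × PathZ => (T^[i.1] i.2).b 0 % 3 ^ N) := by
    refine cH_anti hp _ _ _ ?_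
    rintro ⟨t, ω⟩ hω _ ⟨t', ω'⟩ hω' _ h
    simp only [Prod.mk.injEq] at h
    obtain ⟨h1, rfl⟩ := h
    have h2 := b_det h1 (by rw [hb ω (mem_product.1 hω).2, hb ω' (mem_product.1 hω').2])
    simp only [b_iter, add_zero]
    rw [h2]
  refine le_trans ?_ h1
  have h2 := cH_chain (s := s) (p := fun _ => q) (fun i : ℕ × PathZ => W i.1 i.2)
    (fun i : ℕ × PathZ => i.1) (fun i : ℕ × PathZ => W k (T^[i.1] i.2))
  have h3 : cH s (fun _ => q) (fun i : ℕ × PathZ => (W i.1 i.2, W k (T^[i.1] i.2)))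
      (fun i : ℕ × PathZ => i.1) =
      cH s (fun _ => q) (fun i : ℕ × PathZ => W (i.1 + k) i.2) (fun i : ℕ × PathZ => i.1) := by
    refine cH_congr _ _ _ _ (fun _ _ _ _ _ _ => Iff.rfl) ?_
    rintro ⟨t, ω⟩ _ _ ⟨t', ω'⟩ _ _
    simp only [Prod.mk.injEq]
    constructor
    · rintro ⟨h, rfl⟩; exact ⟨(W_add_iff t k ω ω').2 h, rfl⟩
    · rintro ⟨h, rfl⟩; exact ⟨(W_add_iff t k ω ω').1 h, rfl⟩
  rw [h3, hs, cH_prod (n + 1) S q (fun t ω => W (t + k) ω), cH_prod (n + 1) S q (fun t ω => W t ω)] at h2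
  set h : ℕ → ℝ := fun r => cH S (fun _ => q) (W r) (fun _ => ()) with hh
  have h4 : ∑ t ∈ range (n + 1), h (t + k) - ∑ t ∈ range (n + 1), h t =
      ∑ r ∈ range k, h (r + (n + 1)) - ∑ r ∈ range k, h r := by
    have e1 := sum_range_add h (n + 1) k
    have e2 := sum_range_add h k (n + 1)
    rw [add_comm k (n + 1)] at e2
    have e3 : ∑ t ∈ range (n + 1), h (t + k) = ∑ t ∈ range (n + 1), h (k + t) :=
      sum_congr rfl fun t _ => by rw [add_comm]
    have e4 : ∑ t ∈ range k, h (t + (n + 1)) = ∑ t ∈ range k, h (n + 1 + t) :=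
      sum_congr rfl fun t _ => by rw [add_comm]
    rw [e3, e4]
    linarith
  have h5 : ∀ r, h (r + (n + 1)) = Real.log (M (n + 1)) / (n + 1) := by
    intro r
    simp only [hh]
    unfold cH
    have m1 : mv S (fun _ => q) (fun _ => ()) () = M (n + 1) * q := by
      unfold mv
      rw [sum_filter]
      simp [hS]
    have m2 : ∀ ω ∈ S, mv S (fun _ => q) (fun ω => (W (r + (n + 1)) ω, ())) (W (r + (n + 1)) ω, ()) = q := by
      intro ω hω
      unfold mv
      rw [sum_filter, sum_eq_single ω]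
      · simp
      · intro ω' hω' hne
        refine if_neg fun h => hne ?_
        simp only [Prod.mk.injEq, and_true] at h
        exact hinj ω' hω' ω hω (W_det (by omega) h)
      · intro h; exact absurd hω h
    rw [sum_congr rfl fun ω hω => by rw [m1, m2 ω hω], sum_const, hS, nsmul_eq_mul,
      Real.log_mul hM.ne' hq0.ne']
    rw [hq]
    field_simp
    ring
  have h6 : ∀ r, h r ≤ Real.log ((((r + 1) * 3 ^ r : ℕ)) : ℝ) / (n + 1) := by
    intro r
    have := cH_le_log' (s := S) (p := fun _ => q) hpS (W r) (fun _ => ())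
      ((Finset.range (r + 1)) ×ˢ (Finset.range (3 ^ r))) ((r + 1) * 3 ^ r) (by positivity)
      (fun ω _ => by
        simp only [mem_product, mem_range]
        exact ⟨Nat.lt_succ_of_le (ω.j_le r), ω.c_lt r⟩) (by simp)
    refine this.trans (le_of_eq ?_)
    rw [sum_const, hS, nsmul_eq_mul, hq]
    field_simp
  have h7 : cH (range (n + 1) ×ˢ S) (fun _ => q) (fun i : ℕ × PathZ => W k (T^[i.1] i.2))
      (fun i : ℕ × PathZ => (W i.1 i.2, i.1)) =
      ∑ r ∈ range k, h (r + (n + 1)) - ∑ r ∈ range k, h r := by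
    rw [← h4]; linarith
  rw [h7]
  have h8 : ∑ r ∈ range k, h (r + (n + 1)) = k * (Real.log (M (n + 1)) / (n + 1)) := by
    rw [sum_congr rfl fun r _ => h5 r, sum_const, card_range, nsmul_eq_mul]
  have h9 : ∑ r ∈ range k, h r ≤ BB k / (n + 1) := by
    unfold BB
    rw [sum_div]
    exact sum_le_sum fun r _ => h6 r
  have h10 : L ≤ Real.log (M (n + 1)) / (n + 1) := by
    rw [le_div_iff₀ hn]
    have := mul_L_le (n + 1)
    push_cast at this
    linarith
  have h11 : (k : ℝ) * L ≤ k * (Real.log (M (n + 1)) / (n + 1)) :=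
    mul_le_mul_of_nonneg_left h10 (Nat.cast_nonneg k)
  rw [h8]
  linarith

/-- existence of the stationary process of maximal entropy -/
theorem exists_process : ∃ P : FAP PathZ, (∀ A, P.m (T ⁻¹' A) = P.m A) ∧
    ∀ k N : ℕ, k * L ≤ P.H (fun ω => (W k ω, ω.b 0 % 3 ^ N)) - P.H (fun ω : PathZ => ω.b 0 % 3 ^ N) := by
  choose x S hS hb hinj using exists_S
  have hq1 : ∀ n : ℕ, ∑ _i ∈ range (n + 1) ×ˢ S (n + 1), (((n : ℝ) + 1) * M (n + 1))⁻¹ = 1 := by
    intro n
    have hM : (0 : ℝ) < M (n + 1) := by exact_mod_cast one_le_M (n + 1)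
    rw [sum_const, card_product, card_range, hS, nsmul_eq_mul]
    push_cast
    field_simp
  set PP : ℕ → FAP PathZ := fun n => ofFinset (range (n + 1) ×ˢ S (n + 1))
    (fun _ => (((n : ℝ) + 1) * M (n + 1))⁻¹) (fun _ _ => by positivity) (hq1 n)
    (fun i => T^[i.1] i.2) with hPP
  refine ⟨ulim PP, fun A => ?_, fun k N => ?_⟩
  · -- invariance
    have hdiff : ∀ n, |(PP n).m (T ⁻¹' A) - (PP n).m A| ≤ 1 / ((n : ℝ) + 1) := by
      intro n
      set q : ℝ := (((n : ℝ) + 1) * M (n + 1))⁻¹ with hq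
      have hM : (0 : ℝ) < M (n + 1) := by exact_mod_cast one_le_M (n + 1)
      have hn : (0 : ℝ) < (n : ℝ) + 1 := by positivity
      have hq0 : 0 < q := by positivity
      set g : ℕ → ℝ := fun t => ∑ ω ∈ S (n + 1), if T^[t] ω ∈ A then q else 0 with hg
      have e1 : (PP n).m A = ∑ t ∈ range (n + 1), g t := by
        change ∑ i ∈ (range (n + 1) ×ˢ S (n + 1)) with T^[i.1] i.2 ∈ A, q = _
        rw [sum_filter, sum_product]
      have e2 : (PP n).m (T ⁻¹' A) = ∑ t ∈ range (n + 1), g (t + 1) := by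
        change ∑ i ∈ (range (n + 1) ×ˢ S (n + 1)) with T^[i.1] i.2 ∈ T ⁻¹' A, q = _
        rw [sum_filter, sum_product]
        refine sum_congr rfl fun t _ => sum_congr rfl fun ω _ => ?_
        rw [Set.mem_preimage, Function.iterate_succ_apply']
      have e3 : (PP n).m (T ⁻¹' A) - (PP n).m A = g (n + 1) - g 0 := by
        rw [e1, e2]
        have a1 := sum_range_succ g (n + 1)
        have a2 := sum_range_succ' g (n + 1)
        linarith
      have g0 : ∀ t, 0 ≤ g t := fun t => sum_nonneg fun ω _ => by split_ifs <;> positivity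
      have g1 : ∀ t, g t ≤ 1 / ((n : ℝ) + 1) := by
        intro t
        calc g t ≤ ∑ _ω ∈ S (n + 1), q := sum_le_sum fun ω _ => by
              split_ifs
              · exact le_rfl
              · exact hq0.le
          _ = 1 / ((n : ℝ) + 1) := by
              rw [sum_const, hS, nsmul_eq_mul, hq]; field_simp
      rw [e3, abs_le]
      constructor
      · linarith [g0 (n + 1), g1 0]
      · linarith [g0 0, g1 (n + 1)]
    have hlim : Filter.Tendsto (fun n => (PP n).m (T ⁻¹' A) - (PP n).m A)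
        (Filter.hyperfilter ℕ : Filter ℕ) (nhds 0) := by
      apply tendsto_hyperfilter
      rw [tendsto_zero_iff_abs_tendsto_zero]
      exact squeeze_zero (fun n => abs_nonneg _) hdiff tendsto_one_div_add_atTop_nhds_zero_nat
    have := tendsto_nhds_unique hlim ((tendsto_ulim PP (T ⁻¹' A)).sub (tendsto_ulim PP A))
    linarith
  · have hr1 : FR fun ω : PathZ => (W k ω, ω.b 0 % 3 ^ N) := (FR_W k).pair (FR.emod _ N)
    have hr2 : FR fun ω : PathZ => ω.b 0 % 3 ^ N := FR.emod _ N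
    have hlim := (tendsto_ulim_H PP _ hr1).sub (tendsto_ulim_H PP _ hr2)
    have hlow : Filter.Tendsto (fun n : ℕ => k * L - BB k / ((n : ℝ) + 1))
        (Filter.hyperfilter ℕ : Filter ℕ) (nhds (k * L - 0)) := by
      apply tendsto_hyperfilter
      refine tendsto_const_nhds.sub ?_
      have := (tendsto_one_div_add_atTop_nhds_zero_nat (𝕜 := ℝ)).const_mul (BB k)
      rw [mul_zero] at this
      refine this.congr fun n => ?_
      ring
    rw [sub_zero] at hlow
    refine le_of_tendsto_of_tendsto' hlow hlim fun n => ?_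
    have := ofFinset_cH (range (n + 1) ×ˢ S (n + 1))
      (fun _ => (((n : ℝ) + 1) * M (n + 1))⁻¹) (fun _ _ => by positivity) (hq1 n)
      (fun i : ℕ × PathZ => T^[i.1] i.2) (W k) (fun ω : PathZ => ω.b 0 % 3 ^ N) (FR_W k) hr2
    rw [hPP]
    rw [this]
    exact cH_lower k N n (x (n + 1)) (S (n + 1)) (hS _) (hb _) (hinj _)

end PathZ

end Pool.Agent.Collatz3.UB
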