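import Pool.Agent.Collatz3.UBWin

set_option autoImplicit false

/-!
Entropy inequalities for words of the stationary process.
-/

open Finset
open scoped Classical

namespace Pool.Agent.Collatz3.UB

/-- the digit lemma, as a proposition -/
def DigitAt (e1 K1 : ℝ) (d : ℕ) (K2 : ℝ) : Prop :=
  ∀ {Ω γ : Type} (s : Finset Ω) (p : Ω → ℝ) (_ : ∀ ω ∈ s, 0 ≤ p ω) (_ : ∑ ω ∈ s, p ω ≤ 1)
    (k : ℕ) (U b : Ω → ℤ) (c : Ω → γ) (_ : ∀ ω ∈ s, 0 ≤ U ω ∧ U ω < 3 ^ k)
    (good : ℕ → ℤ → Set ℤ)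
    (_ : ∀ l x, 2 * ((Finset.range (3 ^ d)).filter fun u : ℕ => (u : ℤ) ∈ good l x).card ≤ 3 ^ d)
    (δ : ℝ) (_ : ∀ l < k, ∑ ω ∈ s with (b ω / 3 ^ l % 3 ^ d) ∉ good l (b ω % 3 ^ l), p ω ≤ δ),
    cH s p U c ≤ k * (e1 + K1 * δ)
      + K2 * ((cH s p U c - cH s p U (fun ω => (b ω % 3 ^ (k + d), c ω)))
            + (cH s p U c - cH s p U (fun ω => ((U ω + b ω) % 3 ^ (k + d), c ω))))

theorem FAP.H_unit {Ω α : Type} (P : FAP Ω) {X : Ω → α} (hX : FR X) :
    P.H (fun ω => (X ω, ())) = P.H X := by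
  obtain ⟨I, hI⟩ := hX.exists_finset
  rw [P.H_eq_sum X I hI, P.H_eq_sum (fun ω => (X ω, ())) (I ×ˢ {()}) (fun ω => by simp [hI ω]),
    sum_product]
  refine sum_congr rfl fun a _ => ?_
  rw [sum_singleton]
  congr 2
  ext ω
  simp

theorem FAP.H_const {Ω : Type} (P : FAP Ω) : P.H (fun _ : Ω => ()) = 0 := by
  rw [P.H_eq_sum (fun _ => ()) {()} (fun _ => by simp), sum_singleton]
  have : {ω : Ω | () = ()} = Set.univ := by ext; simp
  rw [this, P.univ, Real.negMulLog_one]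

section split

variable {Ω : Type} {s : Finset Ω} {p : Ω → ℝ}

theorem mv_filter {τ : Type} (A : Ω → Prop) [DecidablePred A] (T : Ω → τ) {ω₀ : Ω}
    (h : ∀ ω ∈ s, T ω = T ω₀ → A ω) : mv (s.filter A) p T (T ω₀) = mv s p T (T ω₀) := by
  unfold mv
  rw [filter_filter]
  refine sum_congr ?_ fun _ _ => rfl
  ext ω
  simp only [mem_filter]
  constructor
  · rintro ⟨h1, _, h3⟩; exact ⟨h1, h3⟩
  · rintro ⟨h1, h2⟩; exact ⟨h1, h ω h1 h2, h2⟩

theorem cH_filter {α β : Type} (A : Ω → Prop) [DecidablePred A] (X : Ω → α) (Y : Ω → β)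
    (h : ∀ ω ∈ s, ∀ ω' ∈ s, Y ω = Y ω' → (A ω ↔ A ω')) :
    cH (s.filter A) p X Y = ∑ ω ∈ s with A ω, p ω * (Real.log (mv s p Y (Y ω)) -
      Real.log (mv s p (fun ω => (X ω, Y ω)) (X ω, Y ω))) := by
  unfold cH
  refine sum_congr rfl fun ω hω => ?_
  rw [mem_filter] at hω
  have e1 : mv (s.filter A) p Y (Y ω) = mv s p Y (Y ω) :=
    mv_filter A Y fun ω' hω' h' => (h ω' hω' ω hω.1 h').2 hω.2
  have e2 : mv (s.filter A) p (fun ω => (X ω, Y ω)) (X ω, Y ω) =
      mv s p (fun ω => (X ω, Y ω)) (X ω, Y ω) :=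
    mv_filter A (fun ω => (X ω, Y ω)) fun ω' hω' h' =>
      (h ω' hω' ω hω.1 (Prod.ext_iff.1 h').2).2 hω.2
  rw [e1, e2]

/-- conditioning on an event known to the condition -/
theorem cH_split {α β : Type} (A : Ω → Prop) (X : Ω → α) (Y : Ω → β)
    (h : ∀ ω ∈ s, ∀ ω' ∈ s, Y ω = Y ω' → (A ω ↔ A ω')) :
    cH s p X Y = cH (s.filter A) p X Y + cH (s.filter fun ω => ¬ A ω) p X Y := by
  rw [cH_filter A X Y h, cH_filter (p := p) (fun ω => ¬ A ω) X Y fun ω hω ω' hω' h' =>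
    not_congr (h ω hω ω' hω' h'), sum_filter_add_sum_filter_not]
  rfl

/-- conditional entropy when the condition is a function of the variable -/
theorem cH_of_fun {α β : Type} (X : Ω → α) (Y : Ω → β)
    (h : ∀ ω ω', X ω = X ω' → Y ω = Y ω') :
    cH s p X Y = cH s p X (fun _ => ()) - cH s p Y (fun _ => ()) := by
  have h1 := cH_chain (s := s) (p := p) Y (fun _ => ()) X
  have h2 : cH s p (fun ω => (Y ω, X ω)) (fun _ => ()) = cH s p X (fun _ => ()) := by
    refine cH_congr _ _ _ _ (fun _ _ _ _ _ _ => Iff.rfl) fun ω _ _ ω' _ _ => ?_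
    simp only [Prod.mk.injEq]
    exact ⟨fun ⟨⟨_, a⟩, b⟩ => ⟨a, b⟩, fun ⟨a, b⟩ => ⟨⟨h _ _ a, a⟩, b⟩⟩
  have h3 : cH s p X (fun ω => (Y ω, ())) = cH s p X Y := by
    refine cH_congr _ _ _ _ (fun ω _ _ ω' _ _ => ?_) fun ω _ _ ω' _ _ => ?_
    · simp
    · simp
  rw [h2, h3] at h1
  linarith

end split

namespace PathZ

/-- determined by the word of length `K` and the starting point modulo `3 ^ N` -/
def Det (K N : ℕ) {α : Type} (X : PathZ → α) : Prop :=
  ∀ ω ω' : PathZ, W K ω = W K ω' → ω.b 0 % 3 ^ N = ω'.b 0 % 3 ^ N → X ω = X ω'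

/-- representation of `P` by finitely many weighted paths -/
def RepK (P : FAP PathZ) (K N : ℕ) (s : Finset PathZ) (p : PathZ → ℝ) : Prop :=
  (∀ ω ∈ s, 0 ≤ p ω) ∧ (∑ ω ∈ s, p ω = 1) ∧
    ∀ {α : Type} (X : PathZ → α), Det K N X → ∀ a, mv s p X a = P.m {ω | X ω = a}

theorem exists_RepK (P : FAP PathZ) (K N : ℕ) : ∃ (s : Finset PathZ) (p : PathZ → ℝ),
    RepK P K N s p := by
  obtain ⟨s, p, h1, h2, h3⟩ := P.exists_rep (fun ω : PathZ => (W K ω, ω.b 0 % 3 ^ N))
    ((FR_W K).pair (FR.emod _ N))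
  exact ⟨s, p, h1, h2, fun X hX a => h3 X (fun ω ω' h => hX ω ω' (Prod.ext_iff.1 h).1
    (Prod.ext_iff.1 h).2) a⟩

theorem RepK.cH_unit {P : FAP PathZ} {K N : ℕ} {s : Finset PathZ} {p : PathZ → ℝ}
    (h : RepK P K N s p) {α : Type} {X : PathZ → α} (hX : FR X) (hd : Det K N X) :
    cH s p X (fun _ => ()) = P.H X := by
  rw [P.cH_eq_rep s p (fun ω : PathZ => (W K ω, ω.b 0 % 3 ^ N))
    (fun Y hY a => h.2.2 Y (fun ω ω' h1 h2 => hY ω ω' (by rw [h1, h2])) a) X (fun _ => ()) hX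
    (FR.const ()) (fun ω ω' h' => hd ω ω' (Prod.ext_iff.1 h').1 (Prod.ext_iff.1 h').2)
    (fun _ _ _ => rfl), P.H_unit hX, P.H_const, sub_zero]

theorem RepK.cH_pair {P : FAP PathZ} {K N : ℕ} {s : Finset PathZ} {p : PathZ → ℝ}
    (h : RepK P K N s p) {α β : Type} {X : PathZ → α} {Y : PathZ → β} (hX : FR X) (hY : FR Y)
    (hd : Det K N X) (hd' : Det K N Y) :
    cH s p X Y = P.H (fun ω => (X ω, Y ω)) - P.H Y :=
  P.cH_eq_rep s p (fun ω : PathZ => (W K ω, ω.b 0 % 3 ^ N))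
    (fun Y hY a => h.2.2 Y (fun ω ω' h1 h2 => hY ω ω' (by rw [h1, h2])) a) X Y hX
    hY (fun ω ω' h' => hd ω ω' (Prod.ext_iff.1 h').1 (Prod.ext_iff.1 h').2)
    (fun ω ω' h' => hd' ω ω' (Prod.ext_iff.1 h').1 (Prod.ext_iff.1 h').2)

theorem FR_X (k : ℕ) : FR (X k) := by
  refine FR.of_mem ((Finset.range (k + 1)) ×ˢ (Finset.range (3 ^ k))) fun ω => ?_
  simp only [mem_product, mem_range]
  exact ⟨Nat.lt_succ_of_le (ω.j_le k), (Nat.mod_le _ _).trans_lt (ω.c_lt k)⟩

theorem FR_X_iter (k s : ℕ) : FR fun ω => X k (T^[s] ω) := by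
  refine FR.of_mem ((Finset.range (k + 1)) ×ˢ (Finset.range (3 ^ k))) fun ω => ?_
  simp only [mem_product, mem_range]
  exact ⟨Nat.lt_succ_of_le ((T^[s] ω).j_le k), (Nat.mod_le _ _).trans_lt ((T^[s] ω).c_lt k)⟩

/-- entropy of words -/
noncomputable def HW (P : FAP PathZ) (k : ℕ) : ℝ := P.H (W k)

/-- entropy of words given the starting point -/
noncomputable def FW (P : FAP PathZ) (k : ℕ) : ℝ := P.H (W k) - P.H (X k)

section ineq

variable {P : FAP PathZ} (hI : Inv P) (k m N : ℕ) {s : Finset PathZ} {p : PathZ → ℝ}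
  (hR : RepK P (k + m) N s p)

include hR

theorem h_w : cH s p (W k) (fun _ => ()) = HW P k :=
  hR.cH_unit (FR_W k) fun _ _ h _ => W_det (by omega) h

theorem h_ww : cH s p (W (k + m)) (fun _ => ()) = HW P (k + m) :=
  hR.cH_unit (FR_W (k + m)) fun _ _ h _ => h

theorem h_x : cH s p (X k) (fun _ => ()) = HW P k - FW P k := by
  rw [hR.cH_unit (FR_X k) fun _ _ h _ => X_of_W (W_det (by omega) h)]
  unfold HW FW; ring

theorem h_xx : cH s p (X (k + m)) (fun _ => ()) = HW P (k + m) - FW P (k + m) := by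
  rw [hR.cH_unit (FR_X (k + m)) fun _ _ h _ => X_of_W h]
  unfold HW FW; ring

include hI in
theorem h_w2 : cH s p (fun ω => W m (T^[k] ω)) (fun _ => ()) = HW P m := by
  rw [hR.cH_unit (FR_W_iter m k) fun ω ω' h _ => ((W_add_iff k m ω ω').1 h).2]
  exact P.H_comp_of_inv (T := T^[k]) (hI.iter k) (W m)

include hI in
theorem h_x2 : cH s p (fun ω => X m (T^[k] ω)) (fun _ => ()) = HW P m - FW P m := by
  rw [hR.cH_unit (FR_X_iter m k) fun ω ω' h _ => X_of_W ((W_add_iff k m ω ω').1 h).2]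
  rw [P.H_comp_of_inv (T := T^[k]) (hI.iter k) (X m)]
  unfold HW FW; ring

theorem h_wx : cH s p (W k) (X k) = FW P k := by
  rw [cH_of_fun (W k) (X k) fun _ _ h => X_of_W h, h_w k m N hR, h_x k m N hR]; ring

include hI in
theorem h_w2x2 : cH s p (fun ω => W m (T^[k] ω)) (fun ω => X m (T^[k] ω)) = FW P m := by
  rw [cH_of_fun _ _ fun _ _ h => X_of_W h, h_w2 hI k m N hR, h_x2 hI k m N hR]; ring

theorem h_wwxx : cH s p (W (k + m)) (X (k + m)) = FW P (k + m) := by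
  rw [cH_of_fun _ _ fun _ _ h => X_of_W h, h_ww k m N hR, h_xx k m N hR]; ring

include hI in
theorem HW_add_le : HW P (k + m) ≤ HW P k + HW P m := by
  rw [← h_w k m N hR, ← h_w2 hI k m N hR, ← h_ww k m N hR]
  have h1 := cH_chain (s := s) (p := p) (W k) (fun _ => ()) (fun ω => W m (T^[k] ω))
  have h2 := cH_mono hR.1 (W (k + m)) (fun ω => (W k ω, W m (T^[k] ω))) (fun _ => ())
    fun ω _ _ ω' _ _ h _ => (W_add_iff k m ω ω').2 (by simpa [Prod.ext_iff] using h)
  have h3 := cH_cond_le hR.1 (fun ω => W m (T^[k] ω)) (W k) (fun _ => ())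
  linarith

theorem h_j : cH s p (fun ω => ω.j k) (X (k + m)) ≤ Real.log ((k : ℝ) + 1) := by
  have := cH_le_log' hR.1 (fun ω : PathZ => ω.j k) (X (k + m)) (Finset.range (k + 1)) (k + 1)
    (by omega) (fun ω _ => by rw [mem_range]; exact Nat.lt_succ_of_le (ω.j_le k)) (by simp)
  rw [hR.2.1, one_mul] at this
  exact_mod_cast this

include hI in
theorem FW_add_le : FW P (k + m) ≤ FW P k + FW P m + Real.log ((k : ℝ) + 1) := by
  rw [← h_wx k m N hR, ← h_w2x2 hI k m N hR, ← h_wwxx k m N hR]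
  have h1 := cH_mono hR.1 (W (k + m)) (fun ω => (ω.j k, (W k ω, W m (T^[k] ω)))) (X (k + m))
    fun ω _ _ ω' _ _ h _ => (W_add_iff k m ω ω').2 (by
      simp only [Prod.mk.injEq] at h
      exact h.2)
  have h2 := cH_chain (s := s) (p := p) (fun ω => ω.j k) (X (k + m)) (fun ω => (W k ω, W m (T^[k] ω)))
  have h3 := cH_chain (s := s) (p := p) (W k) (fun ω => (ω.j k, X (k + m) ω)) (fun ω => W m (T^[k] ω))
  have h4 := cH_anti hR.1 (W k) (fun ω => (ω.j k, X (k + m) ω)) (X k)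
    fun ω _ _ ω' _ _ h => by
      simp only [Prod.mk.injEq] at h
      exact X_det h.1 h.2
  have h5 := cH_anti hR.1 (fun ω => W m (T^[k] ω)) (fun ω => (W k ω, (ω.j k, X (k + m) ω)))
    (fun ω => X m (T^[k] ω)) fun ω _ _ ω' _ _ h => by
      simp only [Prod.mk.injEq] at h
      exact (X_iter_iff h.1).2 h.2.2
  have h6 := h_j k m N hR
  linarith

/-- lower bound for the entropy of `x₂` given `w` -/
theorem h_x2w (hI : Inv P) : HW P (k + m) - HW P k - FW P m ≤
    cH s p (fun ω => X m (T^[k] ω)) (W k) := by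
  have h1 := cH_chain (s := s) (p := p) (fun ω => X m (T^[k] ω)) (W k) (fun ω => W m (T^[k] ω))
  have h2 : cH s p (fun ω => (X m (T^[k] ω), W m (T^[k] ω))) (W k) =
      cH s p (fun ω => W m (T^[k] ω)) (W k) := by
    refine cH_congr _ _ _ _ (fun _ _ _ _ _ _ => Iff.rfl) fun ω _ _ ω' _ _ => ?_
    simp only [Prod.mk.injEq]
    exact ⟨fun ⟨⟨_, a⟩, b⟩ => ⟨a, b⟩, fun ⟨a, b⟩ => ⟨⟨X_of_W a, a⟩, b⟩⟩
  have h3 := cH_anti hR.1 (fun ω => W m (T^[k] ω)) (fun ω => (X m (T^[k] ω), W k ω))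
    (fun ω => X m (T^[k] ω)) fun ω _ _ ω' _ _ h => (Prod.ext_iff.1 h).1
  have h4 := cH_chain (s := s) (p := p) (W k) (fun _ => ()) (fun ω => W m (T^[k] ω))
  have h5 : cH s p (fun ω => (W k ω, W m (T^[k] ω))) (fun _ => ()) =
      cH s p (W (k + m)) (fun _ => ()) := by
    refine cH_congr _ _ _ _ (fun _ _ _ _ _ _ => Iff.rfl) fun ω _ _ ω' _ _ => ?_
    rw [W_add_iff k m ω ω', Prod.mk.injEq]
  have h6 : cH s p (fun ω => W m (T^[k] ω)) (fun ω => (W k ω, ())) =
      cH s p (fun ω => W m (T^[k] ω)) (W k) := by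
    refine cH_congr _ _ _ _ (fun ω _ _ ω' _ _ => by simp) fun ω _ _ ω' _ _ => by simp
  rw [h_w2x2 hI k m N hR] at h3
  rw [h5, h6, h_ww k m N hR, h_w k m N hR] at h4
  rw [h2] at h1
  linarith

/-- `D` and `U` are almost independent given `X` -/
theorem info_D (hI : Inv P) : cH s p (U k) (X k) - cH s p (U k) (fun ω => (D k m ω, X k ω)) ≤
    FW P k + FW P m - FW P (k + m) + Real.log ((k : ℝ) + 1) := by
  have h1 := cH_chain (s := s) (p := p) (U k) (X k) (D k m)
  have h2 := cH_chain (s := s) (p := p) (D k m) (X k) (U k)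
  have h3 : cH s p (fun ω => (U k ω, D k m ω)) (X k) = cH s p (fun ω => (D k m ω, U k ω)) (X k) := by
    refine cH_congr _ _ _ _ (fun _ _ _ _ _ _ => Iff.rfl) fun ω _ _ ω' _ _ => ?_
    simp only [Prod.mk.injEq]; tauto
  have h4 : cH s p (D k m) (fun ω => (U k ω, X k ω)) = cH s p (fun ω => X m (T^[k] ω)) (W k) := by
    refine cH_congr _ _ _ _ (fun ω _ _ ω' _ _ => ?_) fun ω _ _ ω' _ _ => ?_
    · simp only [Prod.mk.injEq]
      exact ⟨fun h => W_of_U_X h.1 h.2, fun h => ⟨U_of_W h, X_of_W h⟩⟩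
    · simp only [Prod.mk.injEq]
      constructor
      · rintro ⟨a, b⟩
        have hw := W_of_U_X b.1 b.2
        exact ⟨(D_iff hw).1 a, hw⟩
      · rintro ⟨a, hw⟩
        exact ⟨(D_iff hw).2 a, U_of_W hw, X_of_W hw⟩
  have h5 := h_x2w k m N hR hI
  have h6 : cH s p (D k m) (X k) ≤ HW P (k + m) - FW P (k + m) + Real.log ((k : ℝ) + 1)
      - (HW P k - FW P k) := by
    have a1 := cH_chain (s := s) (p := p) (X k) (fun _ => ()) (D k m)
    have a2 : cH s p (D k m) (fun ω => (X k ω, ())) = cH s p (D k m) (X k) := by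
      refine cH_congr _ _ _ _ (fun ω _ _ ω' _ _ => by simp) fun ω _ _ ω' _ _ => by simp
    have a3 := cH_chain (s := s) (p := p) (X (k + m)) (fun _ => ()) (fun ω => ω.j k)
    have a4 : cH s p (fun ω => ω.j k) (fun ω => (X (k + m) ω, ())) =
        cH s p (fun ω => ω.j k) (X (k + m)) := by
      refine cH_congr _ _ _ _ (fun ω _ _ ω' _ _ => by simp) fun ω _ _ ω' _ _ => by simp
    have a5 := cH_mono hR.1 (fun ω => (X k ω, D k m ω)) (fun ω => (X (k + m) ω, ω.j k))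
      (fun _ => ()) fun ω _ _ ω' _ _ h _ => by
        simp only [Prod.mk.injEq] at h ⊢
        exact ⟨X_det h.2 h.1, D_of_X h.2 h.1⟩
    have a6 := h_j k m N hR
    have a7 := h_x k m N hR
    have a8 := h_xx k m N hR
    linarith
  linarith

/-- `x₂` and `U` are almost independent given `X` -/
theorem info_E (hI : Inv P) : cH s p (U k) (X k) - cH s p (U k) (fun ω => (X m (T^[k] ω), X k ω)) ≤
    HW P k + HW P m - HW P (k + m) := by
  have h1 := cH_chain (s := s) (p := p) (U k) (X k) (fun ω => X m (T^[k] ω))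
  have h2 := cH_chain (s := s) (p := p) (fun ω => X m (T^[k] ω)) (X k) (U k)
  have h3 : cH s p (fun ω => (U k ω, X m (T^[k] ω))) (X k) =
      cH s p (fun ω => (X m (T^[k] ω), U k ω)) (X k) := by
    refine cH_congr _ _ _ _ (fun _ _ _ _ _ _ => Iff.rfl) fun ω _ _ ω' _ _ => ?_
    simp only [Prod.mk.injEq]; tauto
  have h4 : cH s p (fun ω => X m (T^[k] ω)) (fun ω => (U k ω, X k ω)) =
      cH s p (fun ω => X m (T^[k] ω)) (W k) := by
    refine cH_congr _ _ _ _ (fun ω _ _ ω' _ _ => ?_) fun ω _ _ ω' _ _ => ?_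
    · simp only [Prod.mk.injEq]
      exact ⟨fun h => W_of_U_X h.1 h.2, fun h => ⟨U_of_W h, X_of_W h⟩⟩
    · simp only [Prod.mk.injEq]
      constructor
      · rintro ⟨a, b⟩
        exact ⟨a, W_of_U_X b.1 b.2⟩
      · rintro ⟨a, hw⟩
        exact ⟨a, U_of_W hw, X_of_W hw⟩
  have h5 := h_x2w k m N hR hI
  have h6 := cH_anti hR.1 (fun ω => X m (T^[k] ω)) (X k) (fun _ => ()) fun _ _ _ _ _ _ _ => rfl
  rw [h_x2 hI k m N hR] at h6
  linarith

end ineq

/-- the context -/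
def ctx (k m : ℕ) (ω : PathZ) : (ℕ × ℕ) × (ℕ × ℕ) := (X k ω, (ω.e (k - 1), (T^[k] ω).j m))

theorem info_ctx {k m : ℕ} (hk : 1 ≤ k) {s : Finset PathZ} {p : PathZ → ℝ} (hp : ∀ ω ∈ s, 0 ≤ p ω)
    {β : Type} (E : PathZ → β) (hE : ∀ ω ω', E ω = E ω' → (T^[k] ω).j m = (T^[k] ω').j m) :
    cH s p (U k) (ctx k m) - cH s p (U k) (fun ω => (E ω, ctx k m ω)) ≤
      cH s p (U k) (X k) - cH s p (U k) (fun ω => (E ω, X k ω)) := by
  have hae : ∀ ω ω' : PathZ, U k ω = U k ω' → X k ω = X k ω' → ω.e (k - 1) = ω'.e (k - 1) :=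
    fun ω ω' h1 h2 => e_det (by omega) (W_of_U_X h1 h2)
  have h1 := cH_chain (s := s) (p := p) (fun ω => ω.e (k - 1)) (X k) (U k)
  have h2 := cH_chain (s := s) (p := p) (fun ω => ω.e (k - 1)) (fun ω => (E ω, X k ω)) (U k)
  have h3 : cH s p (fun ω => (ω.e (k - 1), U k ω)) (X k) = cH s p (U k) (X k) := by
    refine cH_congr _ _ _ _ (fun _ _ _ _ _ _ => Iff.rfl) fun ω _ _ ω' _ _ => ?_
    simp only [Prod.mk.injEq]
    exact ⟨fun h => ⟨h.1.2, h.2⟩, fun h => ⟨⟨hae _ _ h.1 h.2, h.1⟩, h.2⟩⟩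
  have h4 : cH s p (fun ω => (ω.e (k - 1), U k ω)) (fun ω => (E ω, X k ω)) =
      cH s p (U k) (fun ω => (E ω, X k ω)) := by
    refine cH_congr _ _ _ _ (fun _ _ _ _ _ _ => Iff.rfl) fun ω _ _ ω' _ _ => ?_
    simp only [Prod.mk.injEq]
    exact ⟨fun h => ⟨h.1.2, h.2⟩, fun h => ⟨⟨hae _ _ h.1 h.2.2, h.1⟩, h.2⟩⟩
  have h5 := cH_cond_le hp (fun ω => ω.e (k - 1)) E (X k)
  have h6 := cH_anti hp (U k) (ctx k m) (fun ω => (ω.e (k - 1), X k ω)) fun ω _ _ ω' _ _ h => by
    simp only [ctx, Prod.mk.injEq] at h ⊢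
    exact ⟨h.2.1, h.1⟩
  have h7 := cH_anti hp (U k) (fun ω => (ω.e (k - 1), (E ω, X k ω))) (fun ω => (E ω, ctx k m ω))
    fun ω _ _ ω' _ _ h => by
      simp only [ctx, Prod.mk.injEq] at h ⊢
      exact ⟨h.2.1, h.2.2, h.1, hE _ _ h.2.1⟩
  linarith

/-- restricting the information to an event known to the context -/
theorem info_filter {α β γ : Type} {s : Finset PathZ} {p : PathZ → ℝ} (hp : ∀ ω ∈ s, 0 ≤ p ω)
    (A : PathZ → Prop) (Y : PathZ → α) (E : PathZ → β) (c : PathZ → γ)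
    (hA : ∀ ω ω', c ω = c ω' → (A ω ↔ A ω')) :
    cH (s.filter A) p Y c - cH (s.filter A) p Y (fun ω => (E ω, c ω)) ≤
      cH s p Y c - cH s p Y (fun ω => (E ω, c ω)) := by
  have h1 := cH_split (s := s) (p := p) A Y c fun ω _ ω' _ h => hA ω ω' h
  have h2 := cH_split (s := s) (p := p) A Y (fun ω => (E ω, c ω))
    fun ω _ ω' _ h => hA ω ω' (Prod.ext_iff.1 h).2
  have h3 := cH_cond_le (s := s.filter fun ω => ¬ A ω) (p := p)
    (fun ω hω => hp ω (mem_filter.1 hω).1) Y E c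
  linarith

/-- the main inequality -/
theorem key {P : FAP PathZ} (hI : Inv P) (hM : ME P) {e1 K1 K2 : ℝ} {d : ℕ} (hK2 : 0 ≤ K2)
    (hD : DigitAt e1 K1 d K2) (k m : ℕ) (hk : 1 ≤ k) (G : ℕ → ℤ → Set ℤ)
    (hG : ∀ l x, 2 * ((Finset.range (3 ^ d)).filter fun u : ℕ => (u : ℤ) ∈ G l x).card ≤ 3 ^ d)
    (δ : ℝ) (hδ : ∀ l < k, P.m {ω : PathZ | ω.e (k - 1) = 1 ∧
      (ω.b k / 3 ^ l % 3 ^ d) ∉ G l (ω.b k % 3 ^ l)} ≤ δ) :
    k * L - Real.log (((2 * (k + 1) * (m + 1) : ℕ)) : ℝ) -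
      (1 - P.m {ω : PathZ | ω.e (k - 1) = 1 ∧ k + d ≤ (T^[k] ω).j m}) * Real.log ((3 * M k : ℕ) : ℝ) ≤
    k * (e1 + K1 * δ) + K2 * (HW P k + HW P m - HW P (k + m) +
      (FW P k + FW P m - FW P (k + m) + Real.log ((k : ℝ) + 1))) := by
  set N := 2 * k + d + m with hN
  obtain ⟨s, p, hR⟩ := exists_RepK P (k + m) N
  have hp := hR.1
  obtain ⟨A, hA⟩ : ∃ A : PathZ → Prop, A = fun ω => ω.e (k - 1) = 1 ∧ k + d ≤ (T^[k] ω).j m :=
    ⟨_, rfl⟩
  have hAi : ∀ ω, A ω → ω.e (k - 1) = 1 ∧ k + d ≤ (T^[k] ω).j m := fun ω h => by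
    rw [hA] at h; exact h
  have hAc : ∀ ω ω' : PathZ, ctx k m ω = ctx k m ω' → (A ω ↔ A ω') := by
    intro ω ω' h
    simp only [ctx, Prod.mk.injEq] at h
    simp only [hA]
    rw [h.2.1, h.2.2]
  set sA := s.filter A with hsA
  have hpA : ∀ ω ∈ sA, 0 ≤ p ω := fun ω hω => hp ω (mem_filter.1 hω).1
  have hsA1 : ∑ ω ∈ sA, p ω ≤ 1 := by
    rw [← hR.2.1]
    exact sum_le_sum_of_subset_of_nonneg (filter_subset _ _) fun ω hω _ => hp ω hω
  -- masses
  have hmassA : ∑ ω ∈ sA, p ω = P.m {ω : PathZ | ω.e (k - 1) = 1 ∧ k + d ≤ (T^[k] ω).j m} := by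
    have hdet : Det (k + m) N A := by
      intro ω ω' h _
      have h1 : ω.e (k - 1) = ω'.e (k - 1) := e_det (by omega) h
      have h2 := ((W_add_iff k m ω ω').1 h).2
      unfold W at h2
      rw [Prod.mk.injEq] at h2
      simp only [hA]
      rw [h1, h2.1]
    have := hR.2.2 A hdet True
    have e2 : {ω : PathZ | A ω = True} =
        {ω : PathZ | ω.e (k - 1) = 1 ∧ k + d ≤ (T^[k] ω).j m} := by ext; simp [hA]
    rw [e2] at this
    rw [← this]
    unfold mv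
    refine sum_congr ?_ fun _ _ => rfl
    ext ω; simp [hsA]
  -- the upper bound
  have hup : cH sA p (U k) (ctx k m) ≤ k * (e1 + K1 * δ) + K2 * (HW P k + HW P m - HW P (k + m) +
      (FW P k + FW P m - FW P (k + m) + Real.log ((k : ℝ) + 1))) := by
    refine (hD sA p hpA hsA1 k (U k) (fun ω => ω.b k) (ctx k m)
      (fun ω _ => ⟨U_nonneg k ω, U_lt k ω⟩) G hG δ ?_).trans ?_
    · intro l hl
      have hmono : P.m {ω : PathZ | A ω ∧ (ω.b k / 3 ^ l % 3 ^ d) ∉ G l (ω.b k % 3 ^ l)} ≤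
          P.m {ω : PathZ | ω.e (k - 1) = 1 ∧ (ω.b k / 3 ^ l % 3 ^ d) ∉ G l (ω.b k % 3 ^ l)} := by
        apply P.m_mono
        rintro ω ⟨h1, h2⟩
        exact ⟨(hAi ω h1).1, h2⟩
      refine le_trans (le_of_eq ?_) (hmono.trans (hδ l hl))
      · have hdet : Det (k + m) N fun ω : PathZ => (A ω ∧ (ω.b k / 3 ^ l % 3 ^ d) ∉ G l (ω.b k % 3 ^ l)) := by
          intro ω ω' h h0
          have h1 : ω.e (k - 1) = ω'.e (k - 1) := e_det (by omega) h
          have h2 := (W_add_iff k m ω ω').1 h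
          have h3 := h2.2
          unfold W at h3
          rw [Prod.mk.injEq] at h3
          have hb : ω.b k % 3 ^ (l + d) = ω'.b k % 3 ^ (l + d) := by
            refine b_emod_det h2.1 ?_ h0
            have := ω.j_le k
            omega
          have hb1 : ω.b k % 3 ^ l = ω'.b k % 3 ^ l := emod_of_le (by omega) hb
          have hb2 : ω.b k / 3 ^ l % 3 ^ d = ω'.b k / 3 ^ l % 3 ^ d := by
            rw [emod_iff] at hb ⊢
            obtain ⟨t, ht⟩ := hb
            have h5 := Int.emod_add_mul_ediv (ω.b k) (3 ^ l)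
            have h6 := Int.emod_add_mul_ediv (ω'.b k) (3 ^ l)
            refine ⟨t, ?_⟩
            have h7 : (3 : ℤ) ^ l * (ω.b k / 3 ^ l - ω'.b k / 3 ^ l) = 3 ^ l * (3 ^ d * t) := by
              rw [pow_add] at ht
              rw [hb1] at h5
              linear_combination h5 - h6 + ht
            exact mul_left_cancel₀ (by positivity) h7
          simp only [hA]
          rw [h1, h3.1, hb1, hb2]
        have := hR.2.2 _ hdet True
        have e2 : {ω : PathZ | (A ω ∧ (ω.b k / 3 ^ l % 3 ^ d) ∉ G l (ω.b k % 3 ^ l)) = True} =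
            {ω : PathZ | A ω ∧ (ω.b k / 3 ^ l % 3 ^ d) ∉ G l (ω.b k % 3 ^ l)} := by ext; simp
        rw [e2] at this
        rw [← this, hsA, filter_filter]
        unfold mv
        refine sum_congr ?_ fun _ _ => rfl
        ext ω; simp
    · -- informations
      have i1 : cH sA p (U k) (ctx k m) - cH sA p (U k) (fun ω => (ω.b k % 3 ^ (k + d), ctx k m ω)) ≤
          HW P k + HW P m - HW P (k + m) := by
        have a1 := info_E k m N hR hI
        have a2 := info_ctx (m := m) hk hp (fun ω => X m (T^[k] ω)) fun ω ω' h =>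
          (X_iff.1 h).1
        have a3 := info_filter hp A (U k) (fun ω => X m (T^[k] ω)) (ctx k m) hAc
        rw [← hsA] at a3
        have a4 := cH_anti hpA (U k) (fun ω => (X m (T^[k] ω), ctx k m ω))
          (fun ω => (ω.b k % 3 ^ (k + d), ctx k m ω)) fun ω h1 _ ω' h2 _ h => by
            simp only [Prod.mk.injEq] at h ⊢
            refine ⟨?_, h.2⟩
            have hx := (X_iff.1 h.1).2
            rw [b_iter, b_iter, add_zero] at hx
            exact emod_of_le (hAi _ (mem_filter.1 h1).2).2 hx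
        linarith
      have i2 : cH sA p (U k) (ctx k m) -
          cH sA p (U k) (fun ω => ((U k ω + ω.b k) % 3 ^ (k + d), ctx k m ω)) ≤
          FW P k + FW P m - FW P (k + m) + Real.log ((k : ℝ) + 1) := by
        have a1 := info_D k m N hR hI
        have a2 := info_ctx (m := m) hk hp (D k m) fun ω ω' h => (Prod.ext_iff.1 h).1
        have a3 := info_filter hp A (U k) (D k m) (ctx k m) hAc
        rw [← hsA] at a3
        have a4 := cH_anti hpA (U k) (fun ω => (D k m ω, ctx k m ω))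
          (fun ω => ((U k ω + ω.b k) % 3 ^ (k + d), ctx k m ω)) fun ω h1 _ ω' h2 _ h => by
            simp only [Prod.mk.injEq] at h ⊢
            refine ⟨?_, h.2⟩
            have hx := h.1
            unfold D at hx
            rw [Prod.mk.injEq] at hx
            have hx2 := hx.2
            rw [← hx.1] at hx2
            exact emod_of_le (hAi _ (mem_filter.1 h1).2).2 hx2
        linarith
      have := mul_le_mul_of_nonneg_left (add_le_add i1 i2) hK2
      linarith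
  -- the lower bound
  have hlow : k * L - Real.log (((2 * (k + 1) * (m + 1) : ℕ)) : ℝ) ≤ cH s p (U k) (ctx k m) := by
    have b1 : k * L ≤ cH s p (W k) (fun ω : PathZ => ω.b 0 % 3 ^ N) := by
      rw [hR.cH_pair (FR_W k) (FR.emod _ N) (fun _ _ h _ => W_det (by omega) h) (fun _ _ _ h => h)]
      exact hM k N
    have b2 := cH_triangle hp (fun ω : PathZ => (ω.j k, (ω.e (k - 1), (T^[k] ω).j m))) (W k)
      (fun ω : PathZ => ω.b 0 % 3 ^ N)
    have b3 := cH_le_log' hp (fun ω : PathZ => (ω.j k, (ω.e (k - 1), (T^[k] ω).j m)))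
      (fun ω : PathZ => ω.b 0 % 3 ^ N) (Finset.range (k + 1) ×ˢ (Finset.range 2 ×ˢ Finset.range (m + 1)))
      (2 * (k + 1) * (m + 1)) (by positivity) (fun ω _ => by
        simp only [mem_product, mem_range]
        exact ⟨Nat.lt_succ_of_le (ω.j_le k), Nat.lt_succ_of_le (ω.e_le_one _),
          Nat.lt_succ_of_le ((T^[k] ω).j_le m)⟩) (by
        simp only [card_product, card_range]; apply le_of_eq; ring)
    rw [hR.2.1, one_mul] at b3
    have b4 := cH_anti hp (W k)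
      (fun ω : PathZ => ((ω.j k, (ω.e (k - 1), (T^[k] ω).j m)), ω.b 0 % 3 ^ N)) (ctx k m)
      fun ω _ _ ω' _ _ h => by
        simp only [Prod.mk.injEq, ctx] at h ⊢
        refine ⟨X_iff.2 ⟨h.1.1, ?_⟩, h.1.2⟩
        refine emod_of_le ?_ h.2
        have := ω.j_le k
        omega
    have b5 := cH_mono hp (W k) (U k) (ctx k m) fun ω _ _ ω' _ _ h1 h2 => by
      simp only [ctx, Prod.mk.injEq] at h2
      exact W_of_U_X h1 h2.1
    linarith
  have hcompl : cH (s.filter fun ω => ¬ A ω) p (U k) (ctx k m) ≤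
      (1 - P.m {ω : PathZ | ω.e (k - 1) = 1 ∧ k + d ≤ (T^[k] ω).j m}) *
        Real.log ((3 * M k : ℕ) : ℝ) := by
    have c1 := cH_le_log (s := s.filter fun ω => ¬ A ω) (p := p)
      (fun ω hω => hp ω (mem_filter.1 hω).1) (U k) (ctx k m) (3 * M k)
      (by have := one_le_M k; omega) (fun y => by
        refine ⟨((s.filter fun ω => ¬ A ω).filter fun ω => ctx k m ω = y).image (U k), ?_,
          fun ω hω h => mem_image_of_mem _ (mem_filter.2 ⟨hω, h⟩)⟩
        have c2 : (((s.filter fun ω => ¬ A ω).filter fun ω => ctx k m ω = y).image (U k)).card ≤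
            (((s.filter fun ω => ¬ A ω).filter fun ω => ctx k m ω = y).image (W k)).card := by
          have : ((s.filter fun ω => ¬ A ω).filter fun ω => ctx k m ω = y).image (U k) =
              (((s.filter fun ω => ¬ A ω).filter fun ω => ctx k m ω = y).image (W k)).image
                (fun w => (((w.2 / 3 ^ w.1 : ℕ)) : ℤ)) := by
            rw [image_image]; rfl
          rw [this]
          exact card_image_le
        refine c2.trans ?_
        have c3 := ncard_le_three_M k y.1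
          (((((s.filter fun ω => ¬ A ω).filter fun ω => ctx k m ω = y).image (W k)) : Finset (ℕ × ℕ)) :
            Set (ℕ × ℕ)) (by
          intro w hw
          rw [mem_coe, mem_image] at hw
          obtain ⟨ω, hω, rfl⟩ := hw
          refine ⟨ω, ?_, rfl⟩
          have := (mem_filter.1 hω).2
          rw [← this]; rfl)
        rwa [Set.ncard_coe_finset] at c3)
    refine c1.trans (le_of_eq ?_)
    congr 1
    rw [← hmassA]
    have := sum_filter_add_sum_filter_not s A p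
    rw [hR.2.1] at this
    linarith
  have hsp := cH_split (s := s) (p := p) A (U k) (ctx k m) fun ω _ ω' _ h => hAc ω ω' h
  rw [← hsA] at hsp
  linarith

end PathZ

end Pool.Agent.Collatz3.UB
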