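import Pool.Agent.Collatz3.UBCount

set_option autoImplicit false

/-!
The generating functions `V z l x = ∑ k, z ^ k * ac k l x`.
-/

namespace Pool.Agent.Collatz3.UB

open Finset

/-- generating function of the words with `l` ones readable at `x` -/
noncomputable def V (z : ℝ) (l : ℕ) (x : ℤ) : ℝ := ∑' k, z ^ k * (ac k l x : ℝ)

/-- standing assumptions on `z` -/
structure Adm (z : ℝ) : Prop where
  pos : 0 < z
  lt_one : z < 1
  summable : Summable fun k : ℕ => z ^ k * (M k : ℝ)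

/-- the uniform bound -/
noncomputable def CV (z : ℝ) : ℝ := 2 * ∑' k : ℕ, z ^ k * (M k : ℝ)

variable {z : ℝ}

theorem Adm.summable_ac (h : Adm z) (l : ℕ) (x : ℤ) : Summable fun k : ℕ => z ^ k * (ac k l x : ℝ) := by
  refine Summable.of_nonneg_of_le (fun k => ?_) (fun k => ?_) (h.summable.mul_left 2)
  · have := h.pos; positivity
  · have h1 : (ac k l x : ℝ) ≤ 2 * M k := by exact_mod_cast ac_le k l x
    have := pow_pos h.pos k
    nlinarith

theorem Adm.V_nonneg (h : Adm z) (l : ℕ) (x : ℤ) : 0 ≤ V z l x := by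
  refine tsum_nonneg fun k => ?_
  have := h.pos; positivity

theorem Adm.V_le (h : Adm z) (l : ℕ) (x : ℤ) : V z l x ≤ CV z := by
  unfold V CV
  rw [← tsum_mul_left]
  refine Summable.tsum_le_tsum (fun k => ?_) (h.summable_ac l x) (h.summable.mul_left 2)
  have h1 : (ac k l x : ℝ) ≤ 2 * M k := by exact_mod_cast ac_le k l x
  have := pow_pos h.pos k
  nlinarith

theorem Adm.V_zero (h : Adm z) (x : ℤ) : V z 0 x = (1 - z)⁻¹ := by
  unfold V
  simp only [ac_zero, Nat.cast_one, mul_one]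
  exact tsum_geometric_of_lt_one h.pos.le h.lt_one

theorem V_periodic (l : ℕ) (x t : ℤ) : V z l (x + 3 ^ l * t) = V z l x := by
  unfold V; simp only [ac_periodic]

theorem V_emod (l : ℕ) (x : ℤ) : V z l (x % 3 ^ l) = V z l x := by
  conv_rhs => rw [← Int.emod_add_mul_ediv x (3 ^ l)]
  rw [V_periodic]

theorem V_congr {l : ℕ} {x y : ℤ} (h : x % 3 ^ l = y % 3 ^ l) : V z l x = V z l y := by
  rw [← V_emod l x, h, V_emod]

theorem Adm.V_succ (h : Adm z) (l : ℕ) (x : ℤ) : V z (l + 1) x =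
    z * V z (l + 1) (2 * x) + if (3 : ℤ) ∣ 2 * x - 1 then z * V z l ((2 * x - 1) / 3) else 0 := by
  have h0 : V z (l + 1) x = z ^ 0 * (ac 0 (l + 1) x : ℝ) + ∑' k, z ^ (k + 1) * (ac (k + 1) (l + 1) x : ℝ) :=
    (h.summable_ac (l + 1) x).tsum_eq_zero_add
  rw [h0, ac_zero_succ]
  have e : ∀ k, z ^ (k + 1) * (ac (k + 1) (l + 1) x : ℝ) = z * (z ^ k * (ac k (l + 1) (2 * x) : ℝ)) +
      (if (3 : ℤ) ∣ 2 * x - 1 then z else 0) * (z ^ k * (ac k l ((2 * x - 1) / 3) : ℝ)) := by
    intro k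
    rw [ac_succ_succ]
    split_ifs <;> push_cast <;> ring
  simp only [e]
  rw [Summable.tsum_add ((h.summable_ac _ _).mul_left _) ((h.summable_ac _ _).mul_left _),
    tsum_mul_left, tsum_mul_left]
  unfold V
  split_ifs <;> simp

theorem Adm.V_double_le (h : Adm z) (l : ℕ) (x : ℤ) : z * V z (l + 1) (2 * x) ≤ V z (l + 1) x := by
  rw [h.V_succ l x]
  have := h.V_nonneg l ((2 * x - 1) / 3)
  have := h.pos
  split_ifs
  · have := mul_nonneg h.pos.le (h.V_nonneg l ((2 * x - 1) / 3)); linarith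
  · linarith

theorem Adm.V_pos (h : Adm z) (l : ℕ) : ∀ x : ℤ, ¬ (3 : ℤ) ∣ x → 0 < V z l x := by
  induction l with
  | zero =>
    intro x _
    rw [h.V_zero]
    have := h.lt_one
    exact inv_pos.2 (by linarith)
  | succ l ih =>
    have dbl : ∀ x : ℤ, 0 < V z (l + 1) (2 * x) → 0 < V z (l + 1) x := fun x hx =>
      (mul_pos h.pos hx).trans_le (h.V_double_le l x)
    have direct : ∀ x : ℤ, (x % 9 = 2 ∨ x % 9 = 8) → 0 < V z (l + 1) x := by
      intro x hx
      rw [h.V_succ l x, if_pos (by omega)]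
      have h1 := h.V_nonneg (l + 1) (2 * x)
      have h2 := ih ((2 * x - 1) / 3) (by omega)
      have h3 := mul_nonneg h.pos.le h1
      have h4 := mul_pos h.pos h2
      linarith
    have s1 : ∀ x : ℤ, (x % 9 = 1 ∨ x % 9 = 4) → 0 < V z (l + 1) x := fun x hx =>
      dbl x (direct _ (by omega))
    have s2 : ∀ x : ℤ, (x % 9 = 5) → 0 < V z (l + 1) x := fun x hx => dbl x (s1 _ (by omega))
    have s3 : ∀ x : ℤ, (x % 9 = 7) → 0 < V z (l + 1) x := fun x hx => dbl x (s2 _ (by omega))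
    intro x hx
    have : x % 9 = 2 ∨ x % 9 = 8 ∨ x % 9 = 1 ∨ x % 9 = 4 ∨ x % 9 = 5 ∨ x % 9 = 7 := by omega
    rcases this with h | h | h | h | h | h
    · exact direct x (Or.inl h)
    · exact direct x (Or.inr h)
    · exact s1 x (Or.inl h)
    · exact s1 x (Or.inr h)
    · exact s2 x h
    · exact s3 x h

theorem Adm.V_lifts (h : Adm z) (l : ℕ) (x : ℤ) :
    V z (l + 1) x + V z (l + 1) (x + 3 ^ l) + V z (l + 1) (x + 3 ^ l * 2) =
      z / (1 - z) * V z l x := by
  have hs : Summable fun k : ℕ => z ^ k * (sa k l x : ℝ) := by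
    have := ((h.summable_ac (l + 1) x).add (h.summable_ac (l + 1) (x + 3 ^ l))).add
      (h.summable_ac (l + 1) (x + 3 ^ l * 2))
    refine this.congr fun k => ?_
    unfold sa; push_cast; ring
  have hS : V z (l + 1) x + V z (l + 1) (x + 3 ^ l) + V z (l + 1) (x + 3 ^ l * 2) =
      ∑' k : ℕ, z ^ k * (sa k l x : ℝ) := by
    unfold V
    rw [← Summable.tsum_add (h.summable_ac _ _) (h.summable_ac _ _),
      ← Summable.tsum_add ((h.summable_ac _ _).add (h.summable_ac _ _)) (h.summable_ac _ _)]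
    refine tsum_congr fun k => ?_
    unfold sa; push_cast; ring
  have h1 : ∑' k : ℕ, z ^ k * (sa k l x : ℝ) =
      z * (∑' k : ℕ, z ^ k * (sa k l x : ℝ)) + z * V z l x := by
    conv_lhs => rw [hs.tsum_eq_zero_add]
    rw [sa_zero]
    have e : ∀ k, z ^ (k + 1) * (sa (k + 1) l x : ℝ) =
        z * (z ^ k * (sa k l x : ℝ)) + z * (z ^ k * (ac k l x : ℝ)) := by
      intro k; rw [sa_succ]; push_cast; ring
    simp only [e]
    rw [Summable.tsum_add (hs.mul_left _) ((h.summable_ac _ _).mul_left _), tsum_mul_left,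
      tsum_mul_left]
    simp [V]
  rw [hS]
  have hz : (1 - z) ≠ 0 := by have := h.lt_one; intro h; linarith
  field_simp
  linarith

theorem Adm.V_lifts_pow (h : Adm z) (d : ℕ) : ∀ (l : ℕ) (x : ℤ),
    ∑ u ∈ range (3 ^ d), V z (l + d) (x + 3 ^ l * (u : ℤ)) = (z / (1 - z)) ^ d * V z l x := by
  induction d with
  | zero => intro l x; simp
  | succ d ih =>
    intro l x
    have e : ∑ u ∈ range (3 ^ (d + 1)), V z (l + (d + 1)) (x + 3 ^ l * (u : ℤ)) =
        ∑ u ∈ range (3 ^ d), (V z (l + (d + 1)) (x + 3 ^ l * (u : ℤ)) +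
          V z (l + (d + 1)) (x + 3 ^ l * (u : ℤ) + 3 ^ (l + d)) +
          V z (l + (d + 1)) (x + 3 ^ l * (u : ℤ) + 3 ^ (l + d) * 2)) := by
      have e1 : 3 ^ (d + 1) = 3 ^ d + (3 ^ d + 3 ^ d) := by ring
      rw [e1, sum_range_add, sum_range_add, sum_add_distrib, sum_add_distrib, add_assoc]
      congr 1
      congr 1
      · refine sum_congr rfl fun u _ => ?_
        congr 1; push_cast; ring
      · refine sum_congr rfl fun u _ => ?_
        congr 1; push_cast; ring
    rw [e]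
    have e2 : ∀ u ∈ range (3 ^ d), (V z (l + (d + 1)) (x + 3 ^ l * (u : ℤ)) +
          V z (l + (d + 1)) (x + 3 ^ l * (u : ℤ) + 3 ^ (l + d)) +
          V z (l + (d + 1)) (x + 3 ^ l * (u : ℤ) + 3 ^ (l + d) * 2)) =
          z / (1 - z) * V z (l + d) (x + 3 ^ l * (u : ℤ)) := by
      intro u _
      rw [← add_assoc]
      exact h.V_lifts (l + d) _
    rw [sum_congr rfl e2, ← mul_sum, ih, pow_succ]
    ring

theorem Adm.V_add_le (h : Adm z) (d : ℕ) : ∀ (l : ℕ) (x : ℤ),
    V z (l + d) x ≤ CV z * (1 - z) * V z l x := by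
  have hz : 0 < 1 - z := by have := h.lt_one; linarith
  have hC : 0 ≤ CV z := (h.V_nonneg 0 0).trans (h.V_le 0 0)
  intro l
  induction l with
  | zero =>
    intro x
    rw [h.V_zero, mul_assoc, mul_inv_cancel₀ hz.ne', mul_one]
    exact h.V_le _ _
  | succ l ih =>
    set Δ : ℤ → ℝ := fun x => V z (l + 1 + d) x - CV z * (1 - z) * V z (l + 1) x with hΔ
    have step : ∀ x, Δ x ≤ z * Δ (2 * x) := by
      intro x
      simp only [hΔ]
      have e : l + 1 + d = (l + d) + 1 := by ring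
      rw [e, h.V_succ (l + d) x, h.V_succ l x]
      split_ifs with h3
      · have := ih ((2 * x - 1) / 3)
        have h4 := mul_le_mul_of_nonneg_left this h.pos.le
        nlinarith
      · nlinarith
    have iter : ∀ (n : ℕ) (x : ℤ), Δ x ≤ z ^ n * Δ (2 ^ n * x) := by
      intro n
      induction n with
      | zero => intro x; simp
      | succ n ihn =>
        intro x
        refine (ihn x).trans ?_
        have h1 := step (2 ^ n * x)
        have h2 : (2 : ℤ) * (2 ^ n * x) = 2 ^ (n + 1) * x := by ring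
        rw [h2] at h1
        calc z ^ n * Δ (2 ^ n * x) ≤ z ^ n * (z * Δ (2 ^ (n + 1) * x)) :=
              mul_le_mul_of_nonneg_left h1 (pow_nonneg h.pos.le n)
          _ = _ := by ring
    have bound : ∀ x, Δ x ≤ CV z := by
      intro x
      simp only [hΔ]
      have h1 := h.V_le (l + 1 + d) x
      have h2 : 0 ≤ CV z * (1 - z) * V z (l + 1) x :=
        mul_nonneg (mul_nonneg hC hz.le) (h.V_nonneg _ _)
      linarith
    intro x
    have h1 : ∀ n : ℕ, Δ x ≤ z ^ n * CV z := fun n =>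
      (iter n x).trans (mul_le_mul_of_nonneg_left (bound _) (pow_nonneg h.pos.le n))
    have h2 : Filter.Tendsto (fun n : ℕ => z ^ n * CV z) Filter.atTop (nhds (0 * CV z)) :=
      (tendsto_pow_atTop_nhds_zero_of_lt_one h.pos.le h.lt_one).mul_const _
    have h3 := ge_of_tendsto' h2 h1
    rw [zero_mul] at h3
    simp only [hΔ] at h3
    linarith

/-- the lifts of `x` (mod `3 ^ l`) to `3 ^ (l + d)` whose `V` is not much smaller -/
def good (z θ : ℝ) (d l : ℕ) (x : ℤ) : Set ℤ :=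
  {u | 0 < V z l x ∧ Real.exp (-θ) * V z l x ≤ V z (l + d) (x + 3 ^ l * u)}

open scoped Classical in
theorem Adm.card_good (h : Adm z) (θ : ℝ) (d l : ℕ) (x : ℤ) :
    (((range (3 ^ d)).filter fun u : ℕ => (u : ℤ) ∈ good z θ d l x).card : ℝ) ≤
      (z / (1 - z)) ^ d * Real.exp θ := by
  have hz : 0 < 1 - z := by have := h.lt_one; linarith
  have hr : 0 < z / (1 - z) := div_pos h.pos hz
  rcases (h.V_nonneg l x).eq_or_lt with h0 | h0
  · have : ((range (3 ^ d)).filter fun u : ℕ => (u : ℤ) ∈ good z θ d l x) = ∅ := by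
      refine filter_eq_empty_iff.2 fun u _ hu => ?_
      have := hu.1
      rw [← h0] at this
      exact lt_irrefl _ this
    rw [this]
    simp only [card_empty, Nat.cast_zero]
    positivity
  · have h1 : ∑ u ∈ (range (3 ^ d)).filter (fun u => ((u : ℕ) : ℤ) ∈ good z θ d l x),
        Real.exp (-θ) * V z l x ≤ (z / (1 - z)) ^ d * V z l x := by
      rw [← h.V_lifts_pow d l x]
      refine (sum_le_sum fun u hu => ((mem_filter.1 hu).2).2).trans ?_
      exact sum_le_sum_of_subset_of_nonneg (filter_subset _ _) fun _ _ _ => h.V_nonneg _ _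
    rw [sum_const, nsmul_eq_mul, ← mul_assoc] at h1
    have h2 := le_of_mul_le_mul_right h1 h0
    rw [Real.exp_neg, ← div_eq_mul_inv, div_le_iff₀ (Real.exp_pos _)] at h2
    exact h2

theorem mem_good (θ : ℝ) (d l : ℕ) (b : ℤ) (h0 : 0 < V z l b) :
    (b / 3 ^ l % 3 ^ d) ∈ good z θ d l (b % 3 ^ l) ↔ Real.exp (-θ) * V z l b ≤ V z (l + d) b := by
  have e : V z (l + d) (b % 3 ^ l + 3 ^ l * (b / 3 ^ l % 3 ^ d)) = V z (l + d) b := by
    have e1 : b = (b % 3 ^ l + 3 ^ l * (b / 3 ^ l % 3 ^ d)) + 3 ^ (l + d) * (b / 3 ^ l / 3 ^ d) := by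
      have h1 := Int.emod_add_mul_ediv b (3 ^ l)
      have h2 := Int.emod_add_mul_ediv (b / 3 ^ l) (3 ^ d)
      calc b = b % 3 ^ l + 3 ^ l * (b / 3 ^ l) := h1.symm
        _ = b % 3 ^ l + 3 ^ l * ((b / 3 ^ l % 3 ^ d) + 3 ^ d * (b / 3 ^ l / 3 ^ d)) := by rw [h2]
        _ = _ := by ring
    conv_rhs => rw [e1]
    rw [V_periodic]
  unfold good
  rw [Set.mem_ofPred_eq, V_emod, e]
  exact ⟨fun h => h.2, fun h => ⟨h0, h⟩⟩

/-- `z = exp (-(L + ε))` is admissible -/
theorem adm_exp {ε : ℝ} (hε : 0 < ε) : Adm (Real.exp (-(L + ε))) := by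
  refine ⟨Real.exp_pos _, Real.exp_lt_one_iff.2 (by have := L_nonneg; linarith), ?_⟩
  obtain ⟨C, hC, h⟩ := M_le_exp (show 0 < ε / 2 by linarith)
  have hs : Summable fun k : ℕ => C * Real.exp (-(ε / 2)) ^ k :=
    (summable_geometric_of_lt_one (Real.exp_pos _).le (Real.exp_lt_one_iff.2 (by linarith))).mul_left C
  refine Summable.of_nonneg_of_le (fun k => by positivity) (fun k => ?_) hs
  have h1 : Real.exp (-(L + ε)) ^ k * (M k : ℝ) ≤
      Real.exp (-(L + ε)) ^ k * (C * Real.exp ((L + ε / 2) * k)) :=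
    mul_le_mul_of_nonneg_left (h k) (by positivity)
  refine h1.trans (le_of_eq ?_)
  rw [← Real.exp_nat_mul, ← Real.exp_nat_mul]
  rw [show Real.exp (k * -(L + ε)) * (C * Real.exp ((L + ε / 2) * k)) =
    C * (Real.exp (k * -(L + ε)) * Real.exp ((L + ε / 2) * k)) by ring, ← Real.exp_add]
  congr 2
  ring

end Pool.Agent.Collatz3.UB
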