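import Pool.Agent.Collatz3.UBProc
import Pool.Agent.Collatz3.UBV

set_option autoImplicit false

/-!
Windows: at every scale, the nodes following a step 1 lie in a small set of lifts.
-/

open Finset
open scoped Classical

namespace Pool.Agent.Collatz3.UB

namespace PathZ

/-- the process has maximal entropy -/
def ME (P : FAP PathZ) : Prop :=
  ∀ k N : ℕ, k * L ≤ P.H (fun ω => (W k ω, ω.b 0 % 3 ^ N)) - P.H (fun ω : PathZ => ω.b 0 % 3 ^ N)

/-- invariance -/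
def Inv (P : FAP PathZ) : Prop := ∀ A, P.m (T ⁻¹' A) = P.m A

theorem Inv.iter {P : FAP PathZ} (h : Inv P) (k : ℕ) (A : Set PathZ) : P.m (T^[k] ⁻¹' A) = P.m A := by
  induction k with
  | zero => rfl
  | succ k ih =>
    rw [← ih, ← h (T^[k] ⁻¹' A)]
    rfl

theorem W_one (ω : PathZ) : W 1 ω = (ω.e 0, ω.e 0) := by
  unfold W
  simp [j_succ, c_succ, j_zero, c_zero]

/-- `s, p` represents `P` for the functions of the first step and the starting point -/
def Rep (P : FAP PathZ) (N : ℕ) (s : Finset PathZ) (p : PathZ → ℝ) : Prop :=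
  (∀ ω ∈ s, 0 ≤ p ω) ∧ (∑ ω ∈ s, p ω = 1) ∧
    ∀ {α : Type} (X : PathZ → α), (∀ ω ω' : PathZ, (W 1 ω, ω.b 0 % 3 ^ N) = (W 1 ω', ω'.b 0 % 3 ^ N) →
      X ω = X ω') → ∀ a, mv s p X a = P.m {ω | X ω = a}

theorem exists_Rep (P : FAP PathZ) (N : ℕ) : ∃ (s : Finset PathZ) (p : PathZ → ℝ), Rep P N s p := by
  obtain ⟨s, p, h1, h2, h3⟩ := P.exists_rep (fun ω : PathZ => (W 1 ω, ω.b 0 % 3 ^ N))
    ((FR_W 1).pair (FR.emod _ N))
  exact ⟨s, p, h1, h2, h3⟩

variable {P : FAP PathZ} {ε : ℝ}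

/-- the Gibbs inequality -/
theorem gibbs {z : ℝ} (hz : Adm z) (l N : ℕ) (hN : l + 1 ≤ N) (s : Finset PathZ) (p : PathZ → ℝ)
    (hp : ∀ ω ∈ s, 0 ≤ p ω) (h1 : ∑ ω ∈ s, p ω = 1) :
    cH s p (W 1) (fun ω => ω.b 0 % 3 ^ N) ≤
      ∑ ω ∈ s, p ω * (Real.log (V z (l + 1) (ω.b 0)) - Real.log z -
        Real.log (V z (l + 1 - ω.e 0) (ω.b 1))) := by
  have hzp := hz.pos
  set Y : PathZ → ℤ := fun ω => ω.b 0 % 3 ^ N with hY
  set q : (ℕ × ℕ) × ℤ → ℝ := fun t =>
    if t.1 = (0, 0) then z * V z (l + 1) (2 * t.2) / V z (l + 1) t.2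
    else if t.1 = (1, 1) ∧ (3 : ℤ) ∣ 2 * t.2 - 1 then z * V z l ((2 * t.2 - 1) / 3) / V z (l + 1) t.2
    else 0 with hq
  have hq0 : ∀ t, 0 ≤ q t := by
    intro t
    simp only [hq]
    split_ifs
    · exact div_nonneg (mul_nonneg hzp.le (hz.V_nonneg _ _)) (hz.V_nonneg _ _)
    · exact div_nonneg (mul_nonneg hzp.le (hz.V_nonneg _ _)) (hz.V_nonneg _ _)
    · exact le_rfl
  have hqs : ∀ y : ℤ, q ((0, 0), y) + q ((1, 1), y) ≤ 1 := by
    intro y
    simp only [hq, if_true, true_and]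
    rw [if_neg (by decide)]
    have h2 := hz.V_succ l y
    have h3 := div_self_le_one (V z (l + 1) y)
    rw [show V z (l + 1) y / V z (l + 1) y = (z * V z (l + 1) (2 * y) +
      if (3 : ℤ) ∣ 2 * y - 1 then z * V z l ((2 * y - 1) / 3) else 0) / V z (l + 1) y by
        conv_lhs => rw [h2]
        rw [← h2]] at h3
    rw [add_div] at h3
    refine le_trans (le_of_eq ?_) h3
    congr 1
    split_ifs <;> simp
  have hqv : ∀ ω : PathZ, q (W 1 ω, Y ω) = z * V z (l + 1 - ω.e 0) (ω.b 1) / V z (l + 1) (ω.b 0) := by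
    intro ω
    have e0 : V z (l + 1) (Y ω) = V z (l + 1) (ω.b 0) := by
      apply V_congr
      simp only [hY]
      exact Int.emod_emod_of_dvd _ (pow_dvd_pow 3 hN)
    rw [W_one]
    rcases ω.e_cases 0 with h | h
    · simp only [hq, h, if_true]
      rw [e0]
      have hb : ω.b 1 = 2 * ω.b 0 := step_zero h
      have : V z (l + 1) (2 * Y ω) = V z (l + 1) (ω.b 1) := by
        rw [hb]
        apply V_congr
        simp only [hY]
        rw [emod_iff]
        have h5 : (3 : ℤ) ^ (l + 1) ∣ ω.b 0 % 3 ^ N - ω.b 0 := by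
          rw [← emod_iff]; exact Int.emod_emod_of_dvd _ (pow_dvd_pow 3 hN)
        have : 2 * (ω.b 0 % 3 ^ N) - 2 * ω.b 0 = 2 * (ω.b 0 % 3 ^ N - ω.b 0) := by ring
        rw [this]
        exact Dvd.dvd.mul_left h5 2
      rw [this]; rfl
    · have hb : 3 * ω.b 1 + 1 = 2 * ω.b 0 := step_one h
      have h6 : ∃ t : ℤ, Y ω = ω.b 0 + 3 ^ (l + 1) * t := by
        have h5 : (3 : ℤ) ^ (l + 1) ∣ ω.b 0 % 3 ^ N - ω.b 0 := by
          rw [← emod_iff]; exact Int.emod_emod_of_dvd _ (pow_dvd_pow 3 hN)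
        obtain ⟨t, ht⟩ := h5
        exact ⟨t, by simp only [hY]; linarith⟩
      obtain ⟨t, ht⟩ := h6
      have h7 : 2 * Y ω - 1 = 3 * (ω.b 1 + 3 ^ l * (2 * t)) := by
        rw [ht, pow_succ]; linear_combination -hb
      have h8 : (2 * Y ω - 1) / 3 = ω.b 1 + 3 ^ l * (2 * t) := by
        rw [h7]; exact Int.mul_ediv_cancel_left _ (by norm_num)
      have h9 : (3 : ℤ) ∣ 2 * Y ω - 1 := ⟨_, h7⟩
      simp only [hq, h]
      rw [if_neg (by decide), if_pos ⟨trivial, h9⟩, h8, V_periodic, e0]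
      simp
  -- main inequality
  have hratio : ∑ ω ∈ s, p ω * ((mv s p Y (Y ω) * q (W 1 ω, Y ω)) /
      mv s p (fun ω => (W 1 ω, Y ω)) (W 1 ω, Y ω)) ≤ 1 := by
    have hI : ∀ ω ∈ s, (W 1 ω, Y ω) ∈ ({(0, 0), (1, 1)} : Finset (ℕ × ℕ)) ×ˢ s.image Y := by
      intro ω hω
      rw [mem_product]
      refine ⟨?_, mem_image_of_mem _ hω⟩
      change W 1 ω ∈ ({(0, 0), (1, 1)} : Finset (ℕ × ℕ))
      rw [W_one]
      rcases ω.e_cases 0 with h | h <;> simp [h]
    refine (sum_div_le (p := p) (s := s) (fun ω => (W 1 ω, Y ω)) (fun t => mv s p Y t.2 * q t)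
      (fun t => mul_nonneg (mv_nonneg hp _ _) (hq0 _)) _ hI).trans ?_
    rw [sum_product, sum_pair (by decide), ← sum_add_distrib, ← h1,
      ← sum_mv Y (s.image Y) (fun ω hω => mem_image_of_mem _ hω)]
    refine sum_le_sum fun y _ => ?_
    simp only
    rw [← mul_add]
    have := mv_nonneg hp Y y
    have := hqs y
    nlinarith
  have pt : ∀ ω ∈ s, p ω * (Real.log (mv s p Y (Y ω)) -
      Real.log (mv s p (fun ω => (W 1 ω, Y ω)) (W 1 ω, Y ω))) ≤
      p ω * (Real.log (V z (l + 1) (ω.b 0)) - Real.log z - Real.log (V z (l + 1 - ω.e 0) (ω.b 1))) +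
      (p ω * ((mv s p Y (Y ω) * q (W 1 ω, Y ω)) /
      mv s p (fun ω => (W 1 ω, Y ω)) (W 1 ω, Y ω)) - p ω) := by
    intro ω hω
    rcases (hp ω hω).eq_or_lt with h | h
    · rw [← h]; simp
    · have a1 : 0 < mv s p Y (Y ω) := h.trans_le (le_mv hp Y hω)
      have a2 : 0 < mv s p (fun ω => (W 1 ω, Y ω)) (W 1 ω, Y ω) :=
        h.trans_le (le_mv hp (fun ω => (W 1 ω, Y ω)) hω)
      have a3 : 0 < V z (l + 1 - ω.e 0) (ω.b 1) := hz.V_pos _ _ (ω.unit 1)
      have a4 : 0 < V z (l + 1) (ω.b 0) := hz.V_pos _ _ (ω.unit 0)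
      rw [hqv]
      have hl := Real.log_le_sub_one_of_pos (show 0 < mv s p Y (Y ω) *
        (z * V z (l + 1 - ω.e 0) (ω.b 1) / V z (l + 1) (ω.b 0)) /
        mv s p (fun ω => (W 1 ω, Y ω)) (W 1 ω, Y ω) by positivity)
      rw [Real.log_div (by positivity) a2.ne', Real.log_mul a1.ne' (by positivity),
        Real.log_div (by positivity) a4.ne', Real.log_mul hzp.ne' a3.ne'] at hl
      nlinarith [mul_le_mul_of_nonneg_left hl h.le]
  unfold cH
  refine (sum_le_sum pt).trans ?_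
  rw [sum_add_distrib, sum_sub_distrib, h1]
  linarith

theorem one_step (hI : Inv P) (hM : ME P) (hε : 0 < ε) (l N : ℕ) (hN : l + 2 ≤ N)
    (s : Finset PathZ) (p : PathZ → ℝ) (hR : Rep P N s p) :
    -ε ≤ ∑ ω ∈ s with ω.e 0 = 1, p ω * (Real.log (V (Real.exp (-(L + ε))) (l + 1) (ω.b 1)) -
        Real.log (V (Real.exp (-(L + ε))) l (ω.b 1))) := by
  set z := Real.exp (-(L + ε)) with hz
  have hA : Adm z := adm_exp hε
  obtain ⟨hp, h1, hrep⟩ := hR
  have g := gibbs hA l N (by omega) s p hp h1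
  have hlz : Real.log z = -(L + ε) := Real.log_exp _
  have hme := hM 1 N
  have hcH := P.cH_eq_rep s p (fun ω : PathZ => (W 1 ω, ω.b 0 % 3 ^ N)) hrep (W 1)
    (fun ω : PathZ => ω.b 0 % 3 ^ N) (FR_W 1) (FR.emod _ N)
    (fun ω ω' h => (Prod.ext_iff.1 h).1) (fun ω ω' h => (Prod.ext_iff.1 h).2)
  rw [← hcH] at hme
  have hstat : ∑ ω ∈ s, p ω * Real.log (V z (l + 1) (ω.b 0)) =
      ∑ ω ∈ s, p ω * Real.log (V z (l + 1) (ω.b 1)) := by
    have hd0 : ∀ ω ω' : PathZ, (W 1 ω, ω.b 0 % 3 ^ N) = (W 1 ω', ω'.b 0 % 3 ^ N) →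
        ω.b 0 % 3 ^ (l + 1) = ω'.b 0 % 3 ^ (l + 1) := fun ω ω' h =>
      emod_of_le (by omega) (Prod.ext_iff.1 h).2
    have hd1 : ∀ ω ω' : PathZ, (W 1 ω, ω.b 0 % 3 ^ N) = (W 1 ω', ω'.b 0 % 3 ^ N) →
        ω.b 1 % 3 ^ (l + 1) = ω'.b 1 % 3 ^ (l + 1) := by
      intro ω ω' h
      rw [Prod.mk.injEq] at h
      refine b_emod_det (k := 1) h.1 ?_ h.2
      have := ω.j_le 1
      omega
    have hI3 : ∀ ω : PathZ, ω.b 0 % 3 ^ (l + 1) ∈ Finset.Ico (0 : ℤ) (3 ^ (l + 1)) := fun ω => by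
      rw [Finset.mem_Ico]
      exact ⟨Int.emod_nonneg _ (by positivity), Int.emod_lt_of_pos _ (by positivity)⟩
    have hI4 : ∀ ω : PathZ, ω.b 1 % 3 ^ (l + 1) ∈ Finset.Ico (0 : ℤ) (3 ^ (l + 1)) := fun ω => by
      rw [Finset.mem_Ico]
      exact ⟨Int.emod_nonneg _ (by positivity), Int.emod_lt_of_pos _ (by positivity)⟩
    have e0 := P.sum_eq_sum_law s p (fun ω : PathZ => ω.b 0 % 3 ^ (l + 1))
      (fun ω : PathZ => ω.b 0 % 3 ^ (l + 1)) (hrep _ hd0) (Finset.Ico 0 (3 ^ (l + 1))) hI3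
      (fun ω _ => hI3 ω) (fun a => Real.log (V z (l + 1) a))
    have e1 := P.sum_eq_sum_law s p (fun ω : PathZ => ω.b 1 % 3 ^ (l + 1))
      (fun ω : PathZ => ω.b 0 % 3 ^ (l + 1)) (fun a => by
        rw [hrep _ hd1]
        exact hI {ω : PathZ | ω.b 0 % 3 ^ (l + 1) = a}) (Finset.Ico 0 (3 ^ (l + 1))) hI3
      (fun ω _ => hI4 ω) (fun a => Real.log (V z (l + 1) a))
    simp only [V_emod] at e0 e1
    rw [e0, e1]
  have hsplit : ∑ ω ∈ s, p ω * (Real.log (V z (l + 1) (ω.b 0)) - Real.log z -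
        Real.log (V z (l + 1 - ω.e 0) (ω.b 1))) = (L + ε) +
      ∑ ω ∈ s with ω.e 0 = 1, p ω * (Real.log (V z (l + 1) (ω.b 1)) - Real.log (V z l (ω.b 1))) := by
    have a1 : ∑ ω ∈ s, p ω * (Real.log (V z (l + 1) (ω.b 0)) - Real.log z -
        Real.log (V z (l + 1 - ω.e 0) (ω.b 1))) =
        ∑ ω ∈ s, p ω * Real.log (V z (l + 1) (ω.b 0)) + (L + ε) * ∑ ω ∈ s, p ω -
          ∑ ω ∈ s, p ω * Real.log (V z (l + 1 - ω.e 0) (ω.b 1)) := by
      rw [mul_sum, ← sum_add_distrib, ← sum_sub_distrib]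
      refine sum_congr rfl fun ω _ => ?_
      rw [hlz]; ring
    rw [a1, h1, hstat, mul_one, sum_filter]
    have a2 : ∑ ω ∈ s, (if ω.e 0 = 1 then p ω * (Real.log (V z (l + 1) (ω.b 1)) -
        Real.log (V z l (ω.b 1))) else 0) = ∑ ω ∈ s, p ω * Real.log (V z (l + 1) (ω.b 1)) -
          ∑ ω ∈ s, p ω * Real.log (V z (l + 1 - ω.e 0) (ω.b 1)) := by
      rw [← sum_sub_distrib]
      refine sum_congr rfl fun ω _ => ?_
      rcases ω.e_cases 0 with h | h
      · rw [h, if_neg (by norm_num)]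
        simp
      · rw [h, if_pos rfl, Nat.add_sub_cancel]
        ring
    rw [a2]; ring
  rw [hsplit] at g
  push_cast at hme
  linarith

theorem windows_zero (hI : Inv P) (hM : ME P) (hε : 0 < ε) (l d : ℕ) {θ : ℝ} (hθ : 0 < θ) :
    P.m {ω : PathZ | ω.e 0 = 1 ∧ V (Real.exp (-(L + ε))) (l + d) (ω.b 1) <
        Real.exp (-θ) * V (Real.exp (-(L + ε))) l (ω.b 1)} ≤
      (Real.log (CV (Real.exp (-(L + ε))) * (1 - Real.exp (-(L + ε)))) + d * ε) / θ := by
  set z := Real.exp (-(L + ε)) with hz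
  have hA : Adm z := adm_exp hε
  set N := l + d + 2 with hN
  obtain ⟨s, p, hR⟩ := exists_Rep P N
  have hR' := hR
  obtain ⟨hp, h1, hrep⟩ := hR
  -- telescoping
  have htel : ∀ i : ℕ, i ≤ d → -(i * ε) ≤ ∑ ω ∈ s with ω.e 0 = 1,
      p ω * (Real.log (V z (l + i) (ω.b 1)) - Real.log (V z l (ω.b 1))) := by
    intro i
    induction i with
    | zero => intro _; simp
    | succ i ih =>
      intro hi
      have b1 := ih (by omega)
      have b2 := one_step hI hM hε (l + i) N (by omega) s p hR'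
      rw [← hz] at b2
      have : ∑ ω ∈ s with ω.e 0 = 1,
          p ω * (Real.log (V z (l + (i + 1)) (ω.b 1)) - Real.log (V z l (ω.b 1))) =
          ∑ ω ∈ s with ω.e 0 = 1, p ω * (Real.log (V z (l + i + 1) (ω.b 1)) -
            Real.log (V z (l + i) (ω.b 1))) +
          ∑ ω ∈ s with ω.e 0 = 1,
          p ω * (Real.log (V z (l + i) (ω.b 1)) - Real.log (V z l (ω.b 1))) := by
        rw [← sum_add_distrib]
        refine sum_congr rfl fun ω _ => ?_
        rw [← add_assoc]; ring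
      rw [this]
      push_cast
      linarith
  have h2 := htel d le_rfl
  set C := Real.log (CV z * (1 - z)) with hC
  have hz1 : 0 < 1 - z := by have := hA.lt_one; linarith
  have hCV : 1 ≤ CV z * (1 - z) := by
    have := hA.V_le 0 0
    rw [hA.V_zero] at this
    calc (1 : ℝ) = (1 - z)⁻¹ * (1 - z) := by field_simp
      _ ≤ _ := mul_le_mul_of_nonneg_right this hz1.le
  have hC0 : 0 ≤ C := Real.log_nonneg hCV
  set Bad : PathZ → Prop := fun ω => ω.e 0 = 1 ∧ V z (l + d) (ω.b 1) < Real.exp (-θ) * V z l (ω.b 1)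
    with hBad
  have hpt : ∀ ω ∈ s.filter (fun ω => ω.e 0 = 1),
      p ω * (Real.log (V z (l + d) (ω.b 1)) - Real.log (V z l (ω.b 1))) ≤
        p ω * C - (if Bad ω then p ω * θ else 0) := by
    intro ω hω
    rw [mem_filter] at hω
    have hp0 := hp ω hω.1
    have a0 := hA.V_pos l _ (ω.unit 1)
    have a1 := hA.V_pos (l + d) _ (ω.unit 1)
    split_ifs with hb
    · have h3 : Real.log (V z (l + d) (ω.b 1)) ≤ -θ + Real.log (V z l (ω.b 1)) := by
        have := Real.log_le_log a1 hb.2.le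
        rwa [Real.log_mul (Real.exp_pos _).ne' a0.ne', Real.log_exp] at this
      nlinarith
    · have h3 : Real.log (V z (l + d) (ω.b 1)) ≤ C + Real.log (V z l (ω.b 1)) := by
        have := Real.log_le_log a1 (hA.V_add_le d l (ω.b 1))
        rwa [Real.log_mul (by positivity) a0.ne'] at this
      nlinarith
  have h3 := h2.trans (sum_le_sum hpt)
  rw [sum_sub_distrib, ← sum_mul] at h3
  have h4 : ∑ ω ∈ s with ω.e 0 = 1, p ω ≤ 1 := by
    rw [← h1]
    exact sum_le_sum_of_subset_of_nonneg (filter_subset _ _) fun ω hω _ => hp ω hω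
  have h5 : ∑ ω ∈ s with ω.e 0 = 1, (if Bad ω then p ω * θ else 0) = P.m {ω : PathZ | Bad ω} * θ := by
    have e1 : mv s p (fun ω => Bad ω) True = P.m {ω | Bad ω = True} := by
      refine hrep (fun ω => Bad ω) ?_ True
      intro ω ω' h
      rw [Prod.mk.injEq] at h
      have he : ω.e 0 = ω'.e 0 := e_det (by norm_num) h.1
      have hb : ∀ i ≤ l + d, ω.b 1 % 3 ^ i = ω'.b 1 % 3 ^ i := by
        intro i hi
        refine b_emod_det (k := 1) h.1 ?_ h.2
        have := ω.j_le 1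
        omega
      simp only [hBad]
      rw [he, V_congr (hb (l + d) le_rfl), V_congr (hb l (by omega))]
    have e2 : {ω : PathZ | Bad ω = True} = {ω : PathZ | Bad ω} := by ext; simp
    rw [e2] at e1
    rw [← e1]
    unfold mv
    rw [sum_filter, sum_filter, sum_mul]
    refine sum_congr rfl fun ω _ => ?_
    by_cases hb : Bad ω
    · simp [hb, hb.1]
    · simp [hb]
  rw [h5] at h3
  rw [le_div_iff₀ hθ]
  have h6 : (∑ ω ∈ s with ω.e 0 = 1, p ω) * C ≤ 1 * C := mul_le_mul_of_nonneg_right h4 hC0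
  linarith

theorem windows (hI : Inv P) (hM : ME P) (hε : 0 < ε) (k l d : ℕ) {θ : ℝ} (hθ : 0 < θ) :
    P.m {ω : PathZ | ω.e k = 1 ∧ (ω.b (k + 1) / 3 ^ l % 3 ^ d) ∉
        good (Real.exp (-(L + ε))) θ d l (ω.b (k + 1) % 3 ^ l)} ≤
      (Real.log (CV (Real.exp (-(L + ε))) * (1 - Real.exp (-(L + ε)))) + d * ε) / θ := by
  refine le_trans (le_of_eq ?_) (windows_zero hI hM hε l d hθ)
  rw [← hI.iter k {ω : PathZ | ω.e 0 = 1 ∧ V (Real.exp (-(L + ε))) (l + d) (ω.b 1) <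
        Real.exp (-θ) * V (Real.exp (-(L + ε))) l (ω.b 1)}]
  congr 1
  ext ω
  simp only [Set.mem_ofPred_eq, Set.mem_preimage, e_iter, b_iter, add_zero]
  refine and_congr_right fun _ => ?_
  rw [mem_good θ d l _ ((adm_exp hε).V_pos l _ (ω.unit (k + 1))), not_le]

end PathZ

end Pool.Agent.Collatz3.UB
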