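import Pool.Agent.Collatz3.Transl

set_option autoImplicit false

/-!
Uniqueness part of the rigidity theorem: every stationary mean is a combination of the two uniform
means (on the two classes modulo 3 prime to 3).
-/

open Finset

namespace Pool.Agent.Collatz3

/-- linear functionals on periodic functions -/
structure Lin (φ : (U → ℝ) → ℝ) : Prop where
  add : ∀ f g, IsPer f → IsPer g → φ (fun a => f a + g a) = φ f + φ g
  smul : ∀ (r : ℝ) f, IsPer f → φ (fun a => r * f a) = r * φ f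

theorem PMean.lin (m : PMean) : Lin m.E := ⟨m.add, m.smul⟩

theorem Lin.sum {φ : (U → ℝ) → ℝ} (h : Lin φ) {ι : Type*} (s : Finset ι) {f : ι → U → ℝ}
    (hf : ∀ i ∈ s, IsPer (f i)) : φ (fun a => ∑ i ∈ s, f i a) = ∑ i ∈ s, φ (f i) := by
  classical
  induction s using Finset.induction_on with
  | empty =>
    have := h.smul 0 (fun _ => 0) (IsPer.const 0)
    simpa using this
  | insert i s hi ih =>
    simp_rw [sum_insert hi]
    rw [h.add _ _ (hf i (mem_insert_self i s)) (IsPer.sum s fun j hj => hf j (mem_insert_of_mem hj)),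
      ih fun j hj => hf j (mem_insert_of_mem hj)]

theorem Lin.addl {φ ψ : (U → ℝ) → ℝ} (h : Lin φ) (h' : Lin ψ) : Lin fun f => φ f + ψ f :=
  ⟨fun f g hf hg => by rw [h.add f g hf hg, h'.add f g hf hg]; ring,
    fun r f hf => by rw [h.smul r f hf, h'.smul r f hf]; ring⟩

theorem Lin.smull {φ : (U → ℝ) → ℝ} (h : Lin φ) (r : ℝ) : Lin fun f => r * φ f :=
  ⟨fun f g hf hg => by rw [h.add f g hf hg]; ring,
    fun s f hf => by rw [h.smul s f hf]; ring⟩

theorem Lin.suml {ι : Type*} (s : Finset ι) {φ : ι → (U → ℝ) → ℝ} (h : ∀ i, Lin (φ i)) :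
    Lin fun f => ∑ i ∈ s, φ i f :=
  ⟨fun f g hf hg => by
    rw [← sum_add_distrib]
    exact sum_congr rfl fun i _ => (h i).add f g hf hg,
    fun r f hf => by
    rw [mul_sum]
    exact sum_congr rfl fun i _ => (h i).smul r f hf⟩

theorem Lin.compP {φ : (U → ℝ) → ℝ} (h : Lin φ) (y : Sys) : Lin fun f => φ (y.P f) := by
  refine ⟨fun f g hf hg => ?_, fun r f hf => ?_⟩
  · rw [← h.add _ _ hf.P hg.P]
    congr 1
    funext a
    unfold Sys.P
    rw [← sum_add_distrib]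
    exact sum_congr rfl fun w _ => by ring
  · rw [← h.smul _ _ hf.P]
    congr 1
    funext a
    unfold Sys.P
    rw [mul_sum]
    exact sum_congr rfl fun w _ => by ring

/-- periodic with period `3 ^ M` -/
def Per (M : ℕ) (f : U → ℝ) : Prop := ∀ a a' : U, (3 : ℤ) ^ M ∣ (a : ℤ) - a' → f a = f a'

theorem Per.mono {M N : ℕ} {f : U → ℝ} (h : Per M f) (hMN : M ≤ N) : Per N f :=
  fun a a' haa => h a a' (dvd_trans (pow_dvd_pow 3 hMN) haa)

theorem IsPer.exists_succ {f : U → ℝ} (h : IsPer f) : ∃ M, Per (M + 1) f := by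
  obtain ⟨M, hM⟩ := h
  exact ⟨M, Per.mono (M := M) hM (Nat.le_succ M)⟩

theorem Per.isPer {M : ℕ} {f : U → ℝ} (h : Per M f) : IsPer f := ⟨M, h⟩

/-- periodic functions are combinations of indicators -/
theorem decomp {M : ℕ} {f : U → ℝ} (h : Per M f) :
    ∃ v : ZMod (3 ^ M) → ℝ, (f = fun a => ∑ x, v x * zi M x a) ∧
      ((∀ a, 0 ≤ f a) → ∀ x, 0 ≤ v x) := by
  classical
  refine ⟨fun x => if hx : ∃ a : U, ((a : ℤ) : ZMod (3 ^ M)) = x then f hx.choose else 0, ?_, ?_⟩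
  · funext a
    have hx : ∃ b : U, ((b : ℤ) : ZMod (3 ^ M)) = ((a : ℤ) : ZMod (3 ^ M)) := ⟨a, rfl⟩
    rw [sum_eq_single ((a : ℤ) : ZMod (3 ^ M))]
    · dsimp only
      rw [dif_pos hx]
      unfold zi
      rw [if_pos rfl, mul_one]
      apply h
      have := hx.choose_spec
      rw [ZMod.intCast_eq_intCast_iff_dvd_sub] at this
      push_cast at this
      exact this
    · intro x _ hne
      unfold zi
      rw [if_neg (fun e => hne e.symm), mul_zero]
    · intro h; exact absurd (mem_univ _) h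
  · intro h0 x
    dsimp only
    split_ifs with hx
    · exact h0 _
    · exact le_rfl

theorem Lin.eq_of_zi {φ ψ : (U → ℝ) → ℝ} (h : Lin φ) (h' : Lin ψ)
    (hz : ∀ (M : ℕ) (x : ZMod (3 ^ (M + 1))), φ (zi (M + 1) x) = ψ (zi (M + 1) x)) {f : U → ℝ}
    (hf : IsPer f) : φ f = ψ f := by
  obtain ⟨M, hM⟩ := hf.exists_succ
  obtain ⟨v, hv, -⟩ := decomp hM
  rw [hv, h.sum _ fun x _ => (IsPer.zi _ x).smul _, h'.sum _ fun x _ => (IsPer.zi _ x).smul _]
  refine sum_congr rfl fun x _ => ?_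
  rw [h.smul _ _ (IsPer.zi _ x), h'.smul _ _ (IsPer.zi _ x), hz]

theorem Lin.nonneg_of_zi {φ : (U → ℝ) → ℝ} (h : Lin φ)
    (hz : ∀ (M : ℕ) (x : ZMod (3 ^ (M + 1))), 0 ≤ φ (zi (M + 1) x)) {f : U → ℝ}
    (hf : IsPer f) (h0 : ∀ a, 0 ≤ f a) : 0 ≤ φ f := by
  obtain ⟨M, hM⟩ := hf.exists_succ
  obtain ⟨v, hv, hv0⟩ := decomp hM
  rw [hv, h.sum _ fun x _ => (IsPer.zi _ x).smul _]
  refine sum_nonneg fun x _ => ?_
  rw [h.smul _ _ (IsPer.zi _ x)]
  exact mul_nonneg (hv0 h0 x) (hz M x)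

/-! ### the uniform means -/

/-- the integers `1 + c + 3 j`, `c = 0, 1` -/
def el (c : Fin 2) (j : ℤ) : U := ⟨1 + (c : ℕ) + 3 * j, by have := c.2; omega⟩

/-- finite averages -/
noncomputable def avg (c : Fin 2) (N : ℕ) (f : U → ℝ) : ℝ :=
  (∑ j ∈ range (3 ^ N), f (el c j)) / 3 ^ N

theorem avg_succ (c : Fin 2) {N : ℕ} {f : U → ℝ} (h : Per (N + 1) f) :
    avg c (N + 1) f = avg c N f := by
  unfold avg
  have e : ∀ (i : ℤ) (j : ℕ), f (el c (3 ^ N * i + j)) = f (el c j) := by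
    intro i j
    apply h
    unfold el
    push_cast
    refine ⟨i, ?_⟩
    ring
  have e1 : ∀ j : ℕ, f (el c ((3 ^ N + j : ℕ) : ℤ)) = f (el c j) := by
    intro j
    have := e 1 j
    push_cast
    rw [mul_one] at this
    exact this
  have e2 : ∀ j : ℕ, f (el c ((3 ^ N + (3 ^ N + j) : ℕ) : ℤ)) = f (el c j) := by
    intro j
    have := e 2 j
    push_cast
    rw [← this]
    congr 2
    ring
  rw [show 3 ^ (N + 1) = 3 ^ N + (3 ^ N + 3 ^ N) by ring, sum_range_add, sum_range_add]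
  rw [sum_congr rfl fun j _ => e1 j, sum_congr rfl fun j _ => e2 j]
  rw [pow_succ]
  field_simp
  ring

theorem avg_eq (c : Fin 2) {M : ℕ} {f : U → ℝ} (h : Per (M + 1) f) {N : ℕ} (hN : M ≤ N) :
    avg c N f = avg c M f := by
  induction N, hN using Nat.le_induction with
  | base => rfl
  | succ N hN ih => rw [avg_succ c (h.mono (by omega)), ih]

/-- the uniform functional -/
noncomputable def ul (c : Fin 2) (f : U → ℝ) : ℝ :=
  Filter.limUnder Filter.atTop fun N => avg c N f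

theorem ul_eq (c : Fin 2) {M : ℕ} {f : U → ℝ} (h : Per (M + 1) f) : ul c f = avg c M f := by
  unfold ul
  apply Filter.Tendsto.limUnder_eq
  refine tendsto_const_nhds.congr' ?_
  filter_upwards [Filter.eventually_ge_atTop M] with N hN
  exact (avg_eq c h hN).symm

/-- the uniform mean on the class `1 + c` modulo 3 -/
noncomputable def uu (c : Fin 2) : PMean where
  E := ul c
  add := by
    intro f g hf hg
    obtain ⟨M, hM⟩ := hf.exists_succ
    obtain ⟨N, hN⟩ := hg.exists_succ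
    have h1 : Per (max M N + 1) f := hM.mono (by omega)
    have h2 : Per (max M N + 1) g := hN.mono (by omega)
    have h3 : Per (max M N + 1) fun a => f a + g a := fun a a' h => by
      dsimp only; rw [h1 a a' h, h2 a a' h]
    rw [ul_eq c h1, ul_eq c h2, ul_eq c h3]
    unfold avg
    rw [sum_add_distrib, add_div]
  smul := by
    intro r f hf
    obtain ⟨M, hM⟩ := hf.exists_succ
    have h3 : Per (M + 1) fun a => r * f a := fun a a' h => by
      dsimp only; rw [hM a a' h]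
    rw [ul_eq c hM, ul_eq c h3]
    unfold avg
    rw [← mul_sum, mul_div_assoc]
  nonneg := by
    intro f hf h0
    obtain ⟨M, hM⟩ := hf.exists_succ
    rw [ul_eq c hM]
    unfold avg
    exact div_nonneg (sum_nonneg fun _ _ => h0 _) (by positivity)

theorem uu_eq (c : Fin 2) {M : ℕ} {f : U → ℝ} (h : Per (M + 1) f) : (uu c).E f = avg c M f :=
  ul_eq c h

theorem uu_one (c : Fin 2) : (uu c).E (fun _ => 1) = 1 := by
  rw [uu_eq c (M := 0) (fun _ _ _ => rfl)]
  simp [avg]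

/-- translation -/
def sh (h : ℤ) (a : U) : U := ⟨a + 3 * h, by have := a.2; omega⟩

theorem Per.sh {M : ℕ} {f : U → ℝ} (hf : Per M f) (h : ℤ) : Per M fun a => f (sh h a) := by
  intro a a' haa
  apply hf
  unfold Collatz3.sh
  simpa using haa

theorem avg_sh_one (c : Fin 2) {N : ℕ} {f : U → ℝ} (hf : Per (N + 1) f) :
    avg c N (fun a => f (sh 1 a)) = avg c N f := by
  unfold avg
  congr 1
  have e1 : ∀ j : ℕ, f (sh 1 (el c j)) = f (el c ((j + 1 : ℕ) : ℤ)) := by
    intro j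
    refine congrArg f (Subtype.ext ?_)
    unfold sh el
    push_cast
    ring
  simp_rw [e1]
  have e2 := sum_range_succ (fun j : ℕ => f (el c (j : ℤ))) (3 ^ N)
  have e3 := sum_range_succ' (fun j : ℕ => f (el c (j : ℤ))) (3 ^ N)
  have e4 : f (el c ((3 ^ N : ℕ) : ℤ)) = f (el c ((0 : ℕ) : ℤ)) := by
    apply hf
    unfold el
    push_cast
    exact ⟨1, by ring⟩
  linarith

theorem avg_sh (c : Fin 2) {N : ℕ} {f : U → ℝ} (hf : Per (N + 1) f) (h : ℕ) :
    avg c N (fun a => f (sh h a)) = avg c N f := by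
  induction h with
  | zero =>
    congr 1
    funext a
    congr 1
    unfold sh
    apply Subtype.ext
    simp
  | succ h ih =>
    rw [← ih, ← avg_sh_one c (hf.sh h)]
    congr 1
    funext a
    congr 1
    unfold sh
    apply Subtype.ext
    push_cast
    ring

theorem uu_sh (c : Fin 2) {f : U → ℝ} (hf : IsPer f) (h : ℕ) :
    (uu c).E (fun a => f (sh h a)) = (uu c).E f := by
  obtain ⟨M, hM⟩ := hf.exists_succ
  rw [uu_eq c hM, uu_eq c (hM.sh h), avg_sh c hM]

/-- the mass of a residue class is at most `3 / 3 ^ M` -/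
theorem uu_zi_le (c : Fin 2) (M : ℕ) (x : ZMod (3 ^ (M + 1))) :
    (uu c).E (zi (M + 1) x) ≤ 1 / 3 ^ M := by
  have hp : Per (M + 1) (zi (M + 1) x) := by
    intro a a' h
    unfold zi
    have : ((a : ℤ) : ZMod (3 ^ (M + 1))) = ((a' : ℤ) : ZMod (3 ^ (M + 1))) := by
      rw [ZMod.intCast_eq_intCast_iff_dvd_sub]
      push_cast
      rw [← dvd_neg, neg_sub]
      exact h
    rw [this]
  rw [uu_eq c hp]
  unfold avg
  refine div_le_div_of_nonneg_right ?_ (by positivity)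
  unfold zi
  rw [sum_boole]
  have : #(filter (fun j : ℕ => (((el c (j : ℤ) : U) : ℤ) : ZMod (3 ^ (M + 1))) = x)
      (range (3 ^ M))) ≤ 1 := by
    rw [card_le_one]
    intro i hi j hj
    rw [mem_filter, mem_range] at hi hj
    have h := hi.2.trans hj.2.symm
    rw [ZMod.intCast_eq_intCast_iff_dvd_sub] at h
    have e : (((el c (j : ℤ) : U) : ℤ)) - ((el c (i : ℤ) : U) : ℤ) = 3 * ((j : ℤ) - i) := by
      unfold el; ring
    rw [e] at h
    push_cast at h
    rw [pow_succ, mul_comm ((3 : ℤ) ^ M) 3] at h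
    have h2 : (3 : ℤ) ^ M ∣ (j : ℤ) - i := (mul_dvd_mul_iff_left (by norm_num)).1 h
    have h3 : i ≡ j [MOD 3 ^ M] := by
      rw [Nat.modEq_iff_dvd]
      push_cast
      exact h2
    have h4 := h3
    unfold Nat.ModEq at h4
    rwa [Nat.mod_eq_of_lt hi.1, Nat.mod_eq_of_lt hj.1] at h4
  exact_mod_cast this

/-- the residue classes modulo 3 -/
def cls (c : Fin 2) : ZMod (3 ^ 1) := ((1 + (c : ℕ) : ℕ) : ZMod (3 ^ 1))

theorem Per.zi (M : ℕ) (x : ZMod (3 ^ M)) : Per M (zi M x) := by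
  intro a a' h
  unfold Collatz3.zi
  have : ((a : ℤ) : ZMod (3 ^ M)) = ((a' : ℤ) : ZMod (3 ^ M)) := by
    rw [ZMod.intCast_eq_intCast_iff_dvd_sub]
    push_cast
    rw [← dvd_neg, neg_sub]
    exact h
  rw [this]

theorem uu_zi_one (c c' : Fin 2) : (uu c).E (zi 1 (cls c')) = if c = c' then 1 else 0 := by
  rw [uu_eq c (M := 0) (Per.zi 1 _)]
  unfold avg zi cls el
  fin_cases c <;> fin_cases c' <;> simp <;> decide

/-- the class of a unit -/
theorem exists_cls (a : U) : ∃ c : Fin 2, ((a : ℤ) : ZMod (3 ^ 1)) = cls c := by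
  obtain ⟨a, ha⟩ := a
  have h : a % 3 = 1 ∨ a % 3 = 2 := by omega
  rcases h with h | h
  · refine ⟨0, ?_⟩
    unfold cls
    rw [← Int.cast_natCast, ZMod.intCast_eq_intCast_iff_dvd_sub]
    simp only [Fin.val_zero]
    push_cast
    omega
  · refine ⟨1, ?_⟩
    unfold cls
    rw [← Int.cast_natCast, ZMod.intCast_eq_intCast_iff_dvd_sub]
    simp only [Fin.val_one]
    push_cast
    omega

section
variable (y : Sys)

/-- the class of base points from which `w` leads to the class `x` -/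
noncomputable def zz (w : y.A) (M : ℕ) (x : ZMod (3 ^ M)) : ZMod (3 ^ (y.D + M)) :=
  (2 : ZMod (3 ^ (y.D + M)))⁻¹ ^ y.S w *
    (3 ^ y.D * (x.val : ZMod (3 ^ (y.D + M))) + (y.c w : ZMod (3 ^ (y.D + M))))

end

theorem two_mul_inv (n : ℕ) : (2 : ZMod (3 ^ n)) * (2 : ZMod (3 ^ n))⁻¹ = 1 := by
  have := ZMod.coe_mul_inv_eq_one (n := 3 ^ n) 2 (by
    apply Nat.Coprime.pow_right
    norm_num)
  exact_mod_cast this

theorem two_pow_mul_inv (n k : ℕ) : (2 : ZMod (3 ^ n)) ^ k * (2 : ZMod (3 ^ n))⁻¹ ^ k = 1 := by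
  rw [← mul_pow, two_mul_inv, one_pow]

variable {y : Sys} {m : PMean}

theorem two_pow_zz (w : y.A) (M : ℕ) (x : ZMod (3 ^ M)) :
    (2 : ZMod (3 ^ (y.D + M))) ^ y.S w * zz y w M x =
      3 ^ y.D * (x.val : ZMod (3 ^ (y.D + M))) + (y.c w : ZMod (3 ^ (y.D + M))) := by
  unfold zz
  rw [← mul_assoc, two_pow_mul_inv, one_mul]

theorem eq_zz_iff (w : y.A) (M : ℕ) (x : ZMod (3 ^ M)) (a : ZMod (3 ^ (y.D + M))) :
    a = zz y w M x ↔ (2 : ZMod (3 ^ (y.D + M))) ^ y.S w * a =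
      3 ^ y.D * (x.val : ZMod (3 ^ (y.D + M))) + (y.c w : ZMod (3 ^ (y.D + M))) := by
  constructor
  · rintro rfl; exact two_pow_zz w M x
  · intro h
    unfold zz
    rw [← h, ← mul_assoc, mul_comm ((2 : ZMod (3 ^ (y.D + M)))⁻¹ ^ y.S w), two_pow_mul_inv, one_mul]

theorem kz (w : y.A) (M : ℕ) (x : ZMod (3 ^ M)) (a : U) :
    y.κ w a * zi M x (y.nxt w a) = y.κ w a * zi (y.D + M) (zz y w M x) a := by
  by_cases h : y.κ w a = 0
  · rw [h, zero_mul, zero_mul]
  congr 1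
  have r := y.rel w a h
  unfold zi
  have e : (((y.nxt w a : U) : ℤ) : ZMod (3 ^ M)) = x ↔
      ((a : ℤ) : ZMod (3 ^ (y.D + M))) = zz y w M x := by
    have hx : x = ((x.val : ℤ) : ZMod (3 ^ M)) := by
      rw [Int.cast_natCast, ZMod.natCast_zmod_val]
    have e1 : (((y.nxt w a : U) : ℤ) : ZMod (3 ^ M)) = x ↔
        (3 : ℤ) ^ M ∣ (x.val : ℤ) - (y.nxt w a : U) := by
      conv_lhs => rw [hx]
      rw [ZMod.intCast_eq_intCast_iff_dvd_sub]
      push_cast
      rfl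
    have e2 : ((a : ℤ) : ZMod (3 ^ (y.D + M))) = zz y w M x ↔
        (3 : ℤ) ^ (y.D + M) ∣ 3 ^ y.D * ((x.val : ℤ) - (y.nxt w a : U)) := by
      rw [eq_zz_iff]
      have : (3 : ℤ) ^ y.D * ((x.val : ℤ) - (y.nxt w a : U)) =
          (3 ^ y.D * (x.val : ℤ) + y.c w) - 2 ^ y.S w * (a : ℤ) := by
        rw [r]; ring
      rw [this]
      have h3 := ZMod.intCast_eq_intCast_iff_dvd_sub (2 ^ y.S w * (a : ℤ))
        (3 ^ y.D * (x.val : ℤ) + y.c w) (3 ^ (y.D + M))
      push_cast at h3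
      rw [← h3]
    rw [e1, e2, pow_add]
    exact (mul_dvd_mul_iff_left (pow_ne_zero _ (by norm_num))).symm
  simp only [e]

theorem IsPer.kn (w : y.A) {g : U → ℝ} (hg : IsPer g) : IsPer fun a => y.κ w a * g (y.nxt w a) := by
  have := IsPer.K_fin (y := y) [w] hg
  simpa using this

theorem IsPer.kappa (w : y.A) : IsPer (y.κ w) := ⟨y.D + 1, y.per w⟩

theorem val_sub_of_red {M : ℕ} {x x' : ZMod (3 ^ (M + 1))}
    (h : red (Nat.le_add_left 1 M) x = red (Nat.le_add_left 1 M) x') :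
    ∃ e : ℤ, (x'.val : ℤ) - x.val = 3 * e := by
  have e1 : ∀ x : ZMod (3 ^ (M + 1)), red (Nat.le_add_left 1 M) x =
      ((x.val : ℤ) : ZMod (3 ^ 1)) := by
    intro x
    have : x = ((x.val : ℤ) : ZMod (3 ^ (M + 1))) := by
      rw [Int.cast_natCast, ZMod.natCast_zmod_val]
    conv_lhs => rw [this]
    rw [map_intCast]
  rw [e1, e1, ZMod.intCast_eq_intCast_iff_dvd_sub] at h
  obtain ⟨e, he⟩ := h
  exact ⟨e, by rw [he]; push_cast; ring⟩

theorem zz_shift (w : y.A) {M : ℕ} {x x' : ZMod (3 ^ (M + 1))}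
    (h : red (Nat.le_add_left 1 M) x = red (Nat.le_add_left 1 M) x') :
    ∃ n : ℕ, zz y w (M + 1) x' = zz y w (M + 1) x + ((3 * (3 ^ y.D * n : ℕ) : ℤ) :
      ZMod (3 ^ (y.D + (M + 1)))) := by
  obtain ⟨e, he⟩ := val_sub_of_red h
  obtain ⟨r, hr⟩ : ∃ r : ZMod (3 ^ (y.D + (M + 1))),
    r = (2 : ZMod (3 ^ (y.D + (M + 1))))⁻¹ ^ y.S w * e := ⟨_, rfl⟩
  refine ⟨r.val, ?_⟩
  unfold zz
  push_cast
  rw [ZMod.natCast_zmod_val, hr]
  have he' : ((x'.val : ℕ) : ZMod (3 ^ (y.D + (M + 1)))) = (x.val : ℕ) + 3 * (e : ℤ) := by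
    have : (x'.val : ℤ) = x.val + 3 * e := by linarith
    have h2 := congrArg (fun z : ℤ => (z : ZMod (3 ^ (y.D + (M + 1))))) this
    push_cast at h2
    exact h2
  rw [he']
  ring

theorem uuP_eq (c : Fin 2) {M : ℕ} {x x' : ZMod (3 ^ (M + 1))}
    (h : red (Nat.le_add_left 1 M) x = red (Nat.le_add_left 1 M) x') :
    (uu c).E (y.P (zi (M + 1) x')) = (uu c).E (y.P (zi (M + 1) x)) := by
  unfold Sys.P
  rw [(uu c).sum _ fun w _ => IsPer.kn w (IsPer.zi _ x'), (uu c).sum _ fun w _ =>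
    IsPer.kn w (IsPer.zi _ x)]
  refine sum_congr rfl fun w _ => ?_
  obtain ⟨n, hn⟩ := zz_shift w h
  simp_rw [kz]
  rw [← uu_sh c ((IsPer.kappa w).mul (IsPer.zi _ _)) (3 ^ y.D * n)]
  congr 1
  funext a
  rw [hn, zi_add (y.D + (M + 1)) (zz y w (M + 1) x) _ a (sh _ a) (by unfold sh; push_cast; ring)]
  congr 1
  apply y.per
  unfold sh
  push_cast
  exact ⟨n, by ring⟩

theorem uu_eq_of_red (c : Fin 2) {M : ℕ} {x x' : ZMod (3 ^ (M + 1))}
    (h : red (Nat.le_add_left 1 M) x = red (Nat.le_add_left 1 M) x') :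
    (uu c).E (zi (M + 1) x') = (uu c).E (zi (M + 1) x) := by
  obtain ⟨e, he⟩ := val_sub_of_red h
  rw [← uu_sh c (IsPer.zi _ x') ((e : ZMod (3 ^ (M + 1))).val)]
  congr 1
  funext a
  have : x' = x + ((3 * ((e : ZMod (3 ^ (M + 1))).val : ℕ) : ℤ) : ZMod (3 ^ (M + 1))) := by
    push_cast
    rw [ZMod.natCast_zmod_val]
    have : (x'.val : ℤ) = x.val + 3 * e := by linarith
    have h2 := congrArg (fun z : ℤ => (z : ZMod (3 ^ (M + 1)))) this
    push_cast at h2
    rw [ZMod.natCast_zmod_val, ZMod.natCast_zmod_val] at h2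
    exact h2
  rw [this, zi_add (M + 1) x _ a (sh _ a) (by unfold sh; rfl)]

/-- transition matrix on the classes modulo 3 -/
noncomputable def RR (y : Sys) (c c' : Fin 2) : ℝ := (uu c).E (y.P (zi 1 (cls c')))

theorem zi_le_red {M : ℕ} (x : ZMod (3 ^ (M + 1))) (a : U) :
    zi (M + 1) x a ≤ zi 1 (red (Nat.le_add_left 1 M) x) a := by
  rw [zi_red (Nat.le_add_left 1 M)]
  exact single_le_sum (f := fun x => zi (M + 1) x a) (fun _ _ => zi_nonneg _ _ _)
    (mem_filter.2 ⟨mem_univ x, rfl⟩)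

theorem uu_zi_zero {c c' : Fin 2} (hc : c ≠ c') {M : ℕ} {x : ZMod (3 ^ (M + 1))}
    (h : red (Nat.le_add_left 1 M) x = cls c') : (uu c).E (zi (M + 1) x) = 0 := by
  refine le_antisymm ?_ ((uu c).nonneg _ (IsPer.zi _ _) (zi_nonneg _ _))
  refine ((uu c).mono (IsPer.zi _ _) (IsPer.zi _ _) (zi_le_red x)).trans ?_
  rw [h, uu_zi_one, if_neg hc]

theorem uuP_zi (c : Fin 2) {M : ℕ} (x : ZMod (3 ^ (M + 1))) :
    (uu c).E (y.P (zi (M + 1) x)) = ∑ c', RR y c c' * (uu c').E (zi (M + 1) x) := by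
  by_cases hx : ∃ a : U, ((a : ℤ) : ZMod (3 ^ (M + 1))) = x
  swap
  · have h0 : zi (M + 1) x = fun _ => 0 := by
      funext a
      unfold zi
      rw [if_neg fun h => hx ⟨a, h⟩]
    have h1 : y.P (fun _ => 0) = fun _ => 0 := by
      funext a
      unfold Sys.P
      simp
    rw [h0, h1, PMean.zero]
    simp [PMean.zero]
  obtain ⟨a, ha⟩ := hx
  obtain ⟨c', hc'⟩ := exists_cls a
  have hr : red (Nat.le_add_left 1 M) x = cls c' := by rw [← ha, map_intCast, hc']
  rw [sum_eq_single c']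
  · obtain ⟨F, hF⟩ : ∃ F, F = univ.filter fun x' => red (Nat.le_add_left 1 M) x' = cls c' :=
      ⟨_, rfl⟩
    have hA : RR y c c' = (F.card : ℝ) * (uu c).E (y.P (zi (M + 1) x)) := by
      unfold RR
      have e : y.P (zi 1 (cls c')) = fun a => ∑ x' ∈ F, y.P (zi (M + 1) x') a := by
        funext a
        unfold Sys.P
        rw [sum_comm]
        refine sum_congr rfl fun w _ => ?_
        rw [← mul_sum, hF, ← zi_red]
      rw [e, (uu c).sum _ fun x' _ => (IsPer.zi _ x').P, ← nsmul_eq_mul, ← sum_const]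
      refine sum_congr rfl fun x' hx' => ?_
      rw [hF, mem_filter] at hx'
      exact uuP_eq c (hr.trans hx'.2.symm)
    have hB : 1 = (F.card : ℝ) * (uu c').E (zi (M + 1) x) := by
      have h1 : (uu c').E (zi 1 (cls c')) = 1 := by rw [uu_zi_one, if_pos rfl]
      rw [← h1]
      have e : zi 1 (cls c') = fun a => ∑ x' ∈ F, zi (M + 1) x' a := by
        funext a
        rw [hF, ← zi_red]
      rw [e, (uu c').sum _ fun x' _ => IsPer.zi _ x', ← nsmul_eq_mul, ← sum_const]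
      refine sum_congr rfl fun x' hx' => ?_
      rw [hF, mem_filter] at hx'
      exact uu_eq_of_red c' (hr.trans hx'.2.symm)
    rw [hA]
    calc (uu c).E (y.P (zi (M + 1) x)) =
          (uu c).E (y.P (zi (M + 1) x)) * ((F.card : ℝ) * (uu c').E (zi (M + 1) x)) := by
          rw [← hB, mul_one]
      _ = _ := by ring
  · intro c'' _ hne
    rw [uu_zi_zero hne hr, mul_zero]
  · intro h; exact absurd (mem_univ _) h

theorem uuP (c : Fin 2) {f : U → ℝ} (hf : IsPer f) :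
    (uu c).E (y.P f) = ∑ c', RR y c c' * (uu c').E f := by
  refine Lin.eq_of_zi (φ := fun f => (uu c).E (y.P f))
    (ψ := fun f => ∑ c', RR y c c' * (uu c').E f) ((uu c).lin.compP y)
    (Lin.suml _ fun c' => (uu c').lin.smull _) (fun M x => uuP_zi c x) hf

theorem P_one : y.P (fun _ => 1) = fun _ => 1 := by
  funext a
  unfold Sys.P
  simp only [mul_one]
  exact y.κ1 a

theorem sum_RR (c : Fin 2) : ∑ c', RR y c c' = 1 := by
  have := uuP (y := y) c (IsPer.const 1)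
  rw [P_one] at this
  simp only [uu_one, mul_one] at this
  exact this.symm

theorem RR_nonneg (c c' : Fin 2) : 0 ≤ RR y c c' :=
  (uu c).nonneg _ (IsPer.zi _ _).P fun a => sum_nonneg fun w _ =>
    mul_nonneg (y.κ0 w a) (zi_nonneg _ _ _)

theorem red_refl (D : ℕ) (z : ZMod (3 ^ D)) : red (le_refl D) z = z := by
  have : red (le_refl D) = RingHom.id (ZMod (3 ^ D)) := Subsingleton.elim _ _
  rw [this]
  rfl

/-- pushing the mass of a class modulo `3 ^ D` to a class modulo 3 -/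
theorem pushA (hst : Stat y m) {δ : ℝ} (hδ : 0 < δ) (z : ZMod (3 ^ y.D))
    (h : ∀ (M : ℕ) (hM : y.D ≤ M) (x : ZMod (3 ^ M)), red hM x = z → δ / 3 ^ M ≤ m.E (zi M x)) :
    ∃ c : Fin 2, ∃ ε : ℝ, 0 < ε ∧ ∀ (M : ℕ) (x : ZMod (3 ^ (M + 1))),
      ε * (uu c).E (zi (M + 1) x) ≤ m.E (zi (M + 1) x) := by
  obtain ⟨a₀, ha₀⟩ : ∃ a₀ : U, ((a₀ : ℤ) : ZMod (3 ^ y.D)) = z := by
    by_contra hcon
    push Not at hcon
    have h1 := h y.D le_rfl z (red_refl _ z)
    have h0 : zi y.D z = fun _ => 0 := by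
      funext a
      unfold zi
      rw [if_neg (hcon a)]
    rw [h0, m.zero] at h1
    have : 0 < δ / 3 ^ y.D := by positivity
    linarith
  obtain ⟨w, hw⟩ : ∃ w, y.κ w a₀ ≠ 0 := by
    by_contra hcon
    push Not at hcon
    have := y.κ1 a₀
    rw [sum_eq_zero fun w _ => hcon w] at this
    norm_num at this
  have hw0 : 0 < y.κ w a₀ := lt_of_le_of_ne (y.κ0 w a₀) hw.symm
  obtain ⟨c', hc'⟩ := exists_cls (y.nxt w a₀)
  have r0 := y.rel w a₀ hw
  refine ⟨c', y.κ w a₀ * δ / 3 ^ (y.D + 1), by positivity, fun M x => ?_⟩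
  have hE0 : 0 ≤ m.E (zi (M + 1) x) := m.nonneg _ (IsPer.zi _ _) (zi_nonneg _ _)
  by_cases hx : ∃ b : U, ((b : ℤ) : ZMod (3 ^ (M + 1))) = x
  swap
  · have h0 : zi (M + 1) x = fun _ => 0 := by
      funext a
      unfold zi
      rw [if_neg fun h => hx ⟨a, h⟩]
    rw [h0, PMean.zero, PMean.zero, mul_zero]
  obtain ⟨b, hb⟩ := hx
  by_cases hr : red (Nat.le_add_left 1 M) x = cls c'
  swap
  · obtain ⟨c'', hc''⟩ := exists_cls b
    have hr'' : red (Nat.le_add_left 1 M) x = cls c'' := by rw [← hb, map_intCast, hc'']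
    have hne : c' ≠ c'' := by
      rintro rfl
      exact hr hr''
    rw [uu_zi_zero hne hr'', mul_zero]
    exact hE0
  obtain ⟨Z, hZ⟩ : ∃ Z, Z = zz y w (M + 1) x := ⟨_, rfl⟩
  -- the end class
  have e0 : (3 : ℤ) ∣ (x.val : ℤ) - y.nxt w a₀ := by
    have h1 : red (Nat.le_add_left 1 M) x = ((x.val : ℤ) : ZMod (3 ^ 1)) := by
      have : x = ((x.val : ℤ) : ZMod (3 ^ (M + 1))) := by
        rw [Int.cast_natCast, ZMod.natCast_zmod_val]
      conv_lhs => rw [this]
      rw [map_intCast]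
    rw [h1, ← hc', eq_comm, ZMod.intCast_eq_intCast_iff_dvd_sub] at hr
    simpa using hr
  obtain ⟨e, he⟩ := e0
  have hZ2 := two_pow_zz (y := y) w (M + 1) x
  rw [← hZ] at hZ2
  have claim1 : ∀ a : U, ((a : ℤ) : ZMod (3 ^ (y.D + (M + 1)))) = Z → y.κ w a = y.κ w a₀ := by
    intro a ha
    apply y.per
    rw [← ha] at hZ2
    have h3 : ((2 ^ y.S w * (a : ℤ) : ℤ) : ZMod (3 ^ (y.D + (M + 1)))) =
        ((3 ^ y.D * (x.val : ℤ) + y.c w : ℤ) : ZMod (3 ^ (y.D + (M + 1)))) := by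
      push_cast
      exact hZ2
    rw [ZMod.intCast_eq_intCast_iff_dvd_sub] at h3
    have h4 : (3 : ℤ) ^ (y.D + 1) ∣ 3 ^ y.D * (x.val : ℤ) + y.c w - 2 ^ y.S w * (a : ℤ) := by
      refine dvd_trans ?_ h3
      push_cast
      exact pow_dvd_pow 3 (by omega)
    refine Sys.dvd_pow_two_mul (s := y.S w) ?_
    have h5 : 2 ^ y.S w * ((a : ℤ) - a₀) = 3 ^ (y.D + 1) * e -
        (3 ^ y.D * (x.val : ℤ) + y.c w - 2 ^ y.S w * (a : ℤ)) := by
      have : (x.val : ℤ) = y.nxt w a₀ + 3 * e := by linarith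
      rw [this, mul_sub, r0]
      ring
    rw [h5]
    exact dvd_sub (dvd_mul_right _ _) h4
  have claim2 : red (Nat.le_add_right y.D (M + 1)) Z = z := by
    have h1 := congrArg (red (Nat.le_add_right y.D (M + 1))) hZ2
    rw [map_mul, map_pow, map_add, map_mul, map_pow, map_natCast, map_natCast] at h1
    have h3 : (3 : ZMod (3 ^ y.D)) ^ y.D = 0 := by
      have := ZMod.natCast_self (3 ^ y.D)
      push_cast at this
      exact this
    have h2' : red (Nat.le_add_right y.D (M + 1)) 2 = 2 := map_ofNat _ 2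
    have h3' : red (Nat.le_add_right y.D (M + 1)) 3 = 3 := map_ofNat _ 3
    rw [h2', h3', h3, zero_mul, zero_add] at h1
    have h4 := congrArg (fun t : ℤ => (t : ZMod (3 ^ y.D))) r0
    push_cast at h4
    rw [h3, zero_mul, zero_add, ha₀, ← h1] at h4
    have h5 := two_pow_mul_inv y.D (y.S w)
    calc red (Nat.le_add_right y.D (M + 1)) Z =
          ((2 : ZMod (3 ^ y.D)) ^ y.S w * (2 : ZMod (3 ^ y.D))⁻¹ ^ y.S w) *
            red (Nat.le_add_right y.D (M + 1)) Z := by rw [h5, one_mul]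
      _ = (2 : ZMod (3 ^ y.D))⁻¹ ^ y.S w * ((2 : ZMod (3 ^ y.D)) ^ y.S w *
            red (Nat.le_add_right y.D (M + 1)) Z) := by ring
      _ = (2 : ZMod (3 ^ y.D))⁻¹ ^ y.S w * ((2 : ZMod (3 ^ y.D)) ^ y.S w * z) := by rw [h4]
      _ = ((2 : ZMod (3 ^ y.D)) ^ y.S w * (2 : ZMod (3 ^ y.D))⁻¹ ^ y.S w) * z := by ring
      _ = z := by rw [h5, one_mul]
  have low : y.κ w a₀ * m.E (zi (y.D + (M + 1)) Z) ≤ m.E (zi (M + 1) x) := by
    rw [← hst _ (IsPer.zi (M + 1) x), ← m.smul _ _ (IsPer.zi _ _)]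
    refine m.mono ((IsPer.zi _ _).smul _) (IsPer.zi _ _).P fun a => ?_
    have e1 : y.κ w a₀ * zi (y.D + (M + 1)) Z a = y.κ w a * zi (M + 1) x (y.nxt w a) := by
      rw [kz, ← hZ]
      by_cases ha : ((a : ℤ) : ZMod (3 ^ (y.D + (M + 1)))) = Z
      · rw [claim1 a ha]
      · unfold zi
        rw [if_neg ha, mul_zero, mul_zero]
    rw [e1]
    unfold Sys.P
    exact single_le_sum (f := fun w => y.κ w a * zi (M + 1) x (y.nxt w a))
      (fun w _ => mul_nonneg (y.κ0 w a) (zi_nonneg _ _ _)) (mem_univ w)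
  have h6 := h (y.D + (M + 1)) (Nat.le_add_right _ _) Z claim2
  calc y.κ w a₀ * δ / 3 ^ (y.D + 1) * (uu c').E (zi (M + 1) x)
      ≤ y.κ w a₀ * δ / 3 ^ (y.D + 1) * (1 / 3 ^ M) := by
        have := uu_zi_le c' M x
        gcongr
    _ = y.κ w a₀ * (δ / 3 ^ (y.D + (M + 1))) := by
        rw [show y.D + (M + 1) = (y.D + 1) + M by ring, pow_add 3 (y.D + 1)]
        field_simp
    _ ≤ y.κ w a₀ * m.E (zi (y.D + (M + 1)) Z) := by gcongr
    _ ≤ _ := low

/-- rescaling a mean -/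
noncomputable def PMean.scale (m : PMean) {r : ℝ} (hr : 0 ≤ r) : PMean where
  E := fun f => r * m.E f
  add := fun f g hf hg => by rw [m.add f g hf hg]; ring
  smul := fun s f hf => by rw [m.smul s f hf]; ring
  nonneg := fun f hf h0 => mul_nonneg hr (m.nonneg f hf h0)

/-- admissible multiples of the uniform mean -/
def adm (m : PMean) (c : Fin 2) : Set ℝ :=
  {r | ∀ (M : ℕ) (x : ZMod (3 ^ (M + 1))), r * (uu c).E (zi (M + 1) x) ≤ m.E (zi (M + 1) x)}

theorem zero_mem_adm (m : PMean) (c : Fin 2) : (0 : ℝ) ∈ adm m c := fun M x => by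
  rw [zero_mul]; exact m.nonneg _ (IsPer.zi _ _) (zi_nonneg _ _)

theorem adm_bdd (m : PMean) (c : Fin 2) : BddAbove (adm m c) := by
  refine ⟨m.E (zi 1 (cls c)), fun r hr => ?_⟩
  have := hr 0 (cls c)
  rw [uu_zi_one, if_pos rfl, mul_one] at this
  exact this

theorem sSup_mem_adm (m : PMean) (c : Fin 2) : sSup (adm m c) ∈ adm m c := by
  intro M x
  rcases ((uu c).nonneg _ (IsPer.zi (M + 1) x) (zi_nonneg _ _)).eq_or_lt with h | h
  · rw [← h, mul_zero]
    exact m.nonneg _ (IsPer.zi _ _) (zi_nonneg _ _)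
  · rw [← le_div_iff₀ h]
    refine csSup_le ⟨0, zero_mem_adm m c⟩ fun r hr => ?_
    rw [le_div_iff₀ h]
    exact hr M x

/-- a residue class modulo a power of 3 lies over at most one class modulo 3 -/
theorem zi_disj (M : ℕ) (x : ZMod (3 ^ (M + 1))) (c : Fin 2) :
    (uu c).E (zi (M + 1) x) = 0 ∨ ∀ c' ≠ c, (uu c').E (zi (M + 1) x) = 0 := by
  by_cases hx : ∃ b : U, ((b : ℤ) : ZMod (3 ^ (M + 1))) = x
  swap
  · have h0 : zi (M + 1) x = fun _ => 0 := by
      funext a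
      unfold zi
      rw [if_neg fun h => hx ⟨a, h⟩]
    left
    rw [h0, PMean.zero]
  obtain ⟨b, hb⟩ := hx
  obtain ⟨c₀, hc₀⟩ := exists_cls b
  have hr : red (Nat.le_add_left 1 M) x = cls c₀ := by rw [← hb, map_intCast, hc₀]
  by_cases hc : c = c₀
  · right
    intro c' hc'
    exact uu_zi_zero (by rw [← hc]; exact hc') hr
  · left
    exact uu_zi_zero hc hr

/-- uniqueness: stationary means are combinations of the uniform means -/
theorem unique (hst : Stat y m) (hhalf : ∀ w a, y.κ w a ≤ 1 / 2)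
    (hinj : ∀ l l' : List y.A, l.length = l'.length → y.totS l = y.totS l' →
      y.totC l = y.totC l' → l = l')
    (h1 : m.E (fun _ => 1) = 1) :
    ∃ α : Fin 2 → ℝ, (∀ c, 0 ≤ α c) ∧ ∑ c, α c = 1 ∧
      ∀ f, IsPer f → m.E f = ∑ c, α c * (uu c).E f := by
  obtain ⟨α, hα⟩ : ∃ α : Fin 2 → ℝ, α = fun c => sSup (adm m c) := ⟨_, rfl⟩
  have hadm : ∀ c, α c ∈ adm m c := fun c => by rw [hα]; exact sSup_mem_adm m c
  have hsup : ∀ c, ∀ r ∈ adm m c, r ≤ α c := fun c r hr => by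
    rw [hα]; exact le_csSup (adm_bdd m c) hr
  have hα0 : ∀ c, 0 ≤ α c := fun c => hsup c 0 (zero_mem_adm m c)
  have hlinU : Lin fun f => ∑ c, α c * (uu c).E f := Lin.suml _ fun c => (uu c).lin.smull _
  have hlinN : Lin fun f => m.E f + (-1) * ∑ c, α c * (uu c).E f :=
    m.lin.addl (hlinU.smull _)
  have hlin : Lin fun f => m.E f - ∑ c, α c * (uu c).E f := by
    have e : (fun f => m.E f - ∑ c, α c * (uu c).E f) =
        fun f => m.E f + (-1) * ∑ c, α c * (uu c).E f := by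
      funext f; ring
    rw [e]; exact hlinN
  have hnn : ∀ f, IsPer f → (∀ a, 0 ≤ f a) → 0 ≤ m.E f - ∑ c, α c * (uu c).E f := by
    intro f hf h0
    refine hlin.nonneg_of_zi (fun M x => ?_) hf h0
    rw [sub_nonneg, Fin.sum_univ_two]
    rcases zi_disj M x 0 with h | h
    · rw [h, mul_zero, zero_add]; exact hadm 1 M x
    · rw [h 1 (by decide), mul_zero, add_zero]; exact hadm 0 M x
  -- the difference is a mean
  let m' : PMean := ⟨fun f => m.E f - ∑ c, α c * (uu c).E f, hlin.add, hlin.smul, hnn⟩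
  have hm' : ∀ f, m'.E f = m.E f - ∑ c, α c * (uu c).E f := fun _ => rfl
  -- transformed weights
  obtain ⟨α', hα'⟩ : ∃ α' : Fin 2 → ℝ, α' = fun c' => ∑ c, α c * RR y c c' := ⟨_, rfl⟩
  have hα'0 : ∀ c, 0 ≤ α' c := fun c => by
    rw [hα']; exact sum_nonneg fun c' _ => mul_nonneg (hα0 c') (RR_nonneg _ _)
  have htr : ∀ f, IsPer f → ∑ c, α c * (uu c).E (y.P f) = ∑ c, α' c * (uu c).E f := by
    intro f hf
    rw [hα']
    simp_rw [uuP _ hf, mul_sum, sum_mul]
    rw [sum_comm]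
    refine sum_congr rfl fun c _ => sum_congr rfl fun c' _ => ?_
    ring
  have hle : ∀ c, α' c ≤ α c := by
    intro c
    refine hsup c _ fun M x => ?_
    have h2 := hnn (y.P (zi (M + 1) x)) (IsPer.zi _ _).P fun a => sum_nonneg fun w _ =>
      mul_nonneg (y.κ0 w a) (zi_nonneg _ _ _)
    rw [hst _ (IsPer.zi _ _), htr _ (IsPer.zi _ _)] at h2
    have h3 : α' c * (uu c).E (zi (M + 1) x) ≤ ∑ c, α' c * (uu c).E (zi (M + 1) x) :=
      single_le_sum (f := fun c => α' c * (uu c).E (zi (M + 1) x))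
        (fun c _ => mul_nonneg (hα'0 c) ((uu c).nonneg _ (IsPer.zi _ _) (zi_nonneg _ _)))
        (mem_univ c)
    linarith
  have hsum : ∑ c, α' c = ∑ c, α c := by
    rw [hα', sum_comm]
    refine sum_congr rfl fun c _ => ?_
    rw [← mul_sum, sum_RR, mul_one]
  have heq : ∀ c, α' c = α c := by
    have hz : ∑ c, (α c - α' c) = 0 := by rw [sum_sub_distrib, hsum, sub_self]
    rw [sum_eq_zero_iff_of_nonneg fun c _ => sub_nonneg.2 (hle c)] at hz
    intro c
    have := hz c (mem_univ c)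
    linarith
  have hst' : Stat y m' := by
    intro g hg
    rw [hm', hm', hst g hg, htr g hg]
    simp_rw [heq]
  -- the difference vanishes
  have hzero : m'.E (fun _ => 1) = 0 := by
    by_contra hne
    have hpos : 0 < m'.E (fun _ => 1) :=
      lt_of_le_of_ne (m'.nonneg _ (IsPer.const 1) fun _ => zero_le_one) (Ne.symm hne)
    obtain ⟨s, hs⟩ : ∃ s, s = m'.E (fun _ => 1) := ⟨_, rfl⟩
    rw [← hs] at hpos
    let m'' : PMean := m'.scale (r := s⁻¹) (by positivity)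
    have hm'' : ∀ f, m''.E f = s⁻¹ * m'.E f := fun _ => rfl
    have hst'' : Stat y m'' := fun g hg => by rw [hm'', hm'', hst' g hg]
    have h1'' : m''.E (fun _ => 1) = 1 := by rw [hm'', ← hs]; field_simp
    obtain ⟨δ, hδ, z, hz⟩ := lemmaA hst'' hhalf hinj h1''
    obtain ⟨c, ε, hε, hc⟩ := pushA hst'' hδ z hz
    have : α c + ε * s ≤ α c := by
      refine hsup c _ fun M x => ?_
      have h2 := hc M x
      rw [hm''] at h2
      have h3 : ε * s * (uu c).E (zi (M + 1) x) ≤ m'.E (zi (M + 1) x) := by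
        have := mul_le_mul_of_nonneg_left h2 hpos.le
        calc ε * s * (uu c).E (zi (M + 1) x) = s * (ε * (uu c).E (zi (M + 1) x)) := by ring
          _ ≤ s * (s⁻¹ * m'.E (zi (M + 1) x)) := this
          _ = _ := by field_simp
      rw [hm'] at h3
      have h4 : α c * (uu c).E (zi (M + 1) x) ≤ ∑ c, α c * (uu c).E (zi (M + 1) x) :=
        single_le_sum (f := fun c => α c * (uu c).E (zi (M + 1) x))
          (fun c _ => mul_nonneg (hα0 c) ((uu c).nonneg _ (IsPer.zi _ _) (zi_nonneg _ _)))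
          (mem_univ c)
      linarith
    have : 0 < ε * s := by positivity
    linarith
  refine ⟨α, hα0, ?_, fun f hf => ?_⟩
  · rw [hm', h1] at hzero
    simp only [uu_one, mul_one] at hzero
    linarith
  · have h2 : (fun f => m'.E f) f = (fun _ => (0 : ℝ)) f := by
      refine Lin.eq_of_zi (φ := fun f => m'.E f) (ψ := fun _ => (0 : ℝ)) m'.lin
        ⟨fun _ _ _ _ => by ring, fun _ _ _ => by ring⟩ (fun M x => ?_) hf
      refine le_antisymm ?_ (m'.nonneg _ (IsPer.zi _ _) (zi_nonneg _ _))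
      have := m'.mono (IsPer.zi (M + 1) x) (IsPer.const 1) (zi_le_one _ _)
      rwa [hzero] at this
    dsimp only at h2
    rw [hm'] at h2
    linarith

end Pool.Agent.Collatz3
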