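import Pool.Agent.Collatz3.UBFin
import Pool.Agent.Collatz3.DigitD

set_option autoImplicit false

/-!
Module D: the upper bound for the number of preimages.
-/

namespace Pool.Agent.Collatz3

theorem upper (e : ℝ) (he : 0 < e) : ∃ K : ℕ, ∀ k, K ≤ k → ∀ a : ℕ, 0 < a → ¬ (3 ∣ a) →
      ((Set.ncard {n : ℕ | 1 ≤ n ∧
        (fun m : ℕ => if m % 2 = 0 then m / 2 else (3 * m + 1) / 2)^[k] n = a} : ℕ) : ℝ) ≤
      Real.exp ((Real.log (4 / 3) + e) * k) := by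
  obtain ⟨K, hK⟩ := UB.upper_of_digit (fun e1 he1 => by
    obtain ⟨K1, hK1, h⟩ := digit_lemma e1 he1
    refine ⟨K1, hK1, fun d => ?_⟩
    obtain ⟨K2, hK2, h2⟩ := h d
    exact ⟨K2, hK2, h2⟩) e he
  exact ⟨K, fun k hk a _ _ => hK k hk a⟩

end Pool.Agent.Collatz3
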